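import Pool.Agent.WPQ.HAD

/-! [WPQ-HA10] divisibility by the product of the positive roots -/

set_option autoImplicit false
set_option linter.unusedVariables false
set_option linter.unusedSectionVars false

namespace WPQ

open MvPolynomial

/-- A prime dividing a product of primes that are not associated to it: impossible. -/
private theorem ha10_not_dvd {τ R : Type} [CommRing R] [IsDomain R] (s : Finset τ) (f : τ → R)
    (p : R) (hp : Prime p) (hf : ∀ c ∈ s, Prime (f c)) (h : ∀ c ∈ s, ¬ Associated p (f c)) :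
    ¬ p ∣ ∏ c ∈ s, f c := by
  intro hd
  obtain ⟨c, hc, hcd⟩ := (hp.dvd_finsetProd_iff f).1 hd
  exact h c hc (hp.associated_of_dvd (hf c hc) hcd)

/-- A product of pairwise not associated primes dividing `g` divides `g`. -/
private theorem ha10_prod_dvd {τ R : Type} [DecidableEq τ] [CommRing R] [IsDomain R]
    (s : Finset τ) (f : τ → R) (g : R) (hf : ∀ c ∈ s, Prime (f c)) (hd : ∀ c ∈ s, f c ∣ g)
    (ha : ∀ c ∈ s, ∀ c' ∈ s, Associated (f c) (f c') → c = c') : ∏ c ∈ s, f c ∣ g := by
  induction s using Finset.induction_on with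
  | empty => simp
  | insert a s has ih =>
    rw [Finset.prod_insert has]
    obtain ⟨q, hq⟩ := ih (fun c hc => hf c (Finset.mem_insert_of_mem hc))
      (fun c hc => hd c (Finset.mem_insert_of_mem hc))
      (fun c hc c' hc' => ha c (Finset.mem_insert_of_mem hc) c' (Finset.mem_insert_of_mem hc'))
    have hpa := hf a (Finset.mem_insert_self a s)
    have h1 : f a ∣ (∏ c ∈ s, f c) * q := by
      rw [← hq]
      exact hd a (Finset.mem_insert_self a s)
    rcases hpa.dvd_or_dvd h1 with h2 | h2
    · exfalso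
      refine ha10_not_dvd s f (f a) hpa (fun c hc => hf c (Finset.mem_insert_of_mem hc))
        (fun c hc has' => ?_) h2
      have h3 := ha a (Finset.mem_insert_self a s) c (Finset.mem_insert_of_mem hc) has'
      rw [h3] at has
      exact has hc
    · obtain ⟨r, hr⟩ := h2
      refine ⟨r, ?_⟩
      rw [hq, hr]
      ring

variable {ι : Type} [Fintype ι] [DecidableEq ι]

/-- `lf` of a simple root. -/
private theorem ha10_rt (j : ι) : lf (rt j) = X j := by
  rw [lf, Finset.sum_eq_single j]
  · rw [rt, Pi.single_eq_same]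
    simp
  · intro i _ hi
    rw [rt, Pi.single_eq_of_ne hi]
    simp
  · intro h
    exact absurd (Finset.mem_univ j) h

/-- `s_j` on jets extends `s_j`. -/
private theorem ha10_rf (A : Matrix ι ι ℤ) (j : ι) (P : MvPolynomial ι ℂ) :
    rfF A j (inc0 P) = inc0 (rfS A j P) := by
  have h : (rfF A j).comp inc0 = inc0.comp (rfS A j) := by
    apply MvPolynomial.algHom_ext
    intro i
    rw [AlgHom.comp_apply, AlgHom.comp_apply, inc0, rename_X, rfF, rfS, aeval_X, aeval_X, map_sub,
      map_mul, rename_X, rename_X, rename_C]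
  exact congrArg (fun φ => φ P) h

/-- Divisibility by every root, from divisibility by the simple roots. -/
private theorem ha10_all {R : Type} [CommRing R] (h8 : st_HA8 ι) (A : Matrix ι ι ℤ) (hA : IsADE A)
    (φ : MvPolynomial ι ℂ →+* R) (s : ι → R →+* R)
    (hs : ∀ j P, s j (φ P) = φ (rfS A j P)) (g : R) (hg : ∀ j, s j g = -g)
    (hX : ∀ j, φ (X j) ∣ g) : ∀ c ∈ posRoots A, φ (lf c) ∣ g := by
  have key : ∀ (n : ℕ) (c : ι → ℤ), c ∈ posRoots A → (ht c).toNat = n → φ (lf c) ∣ g := by
    intro n
    induction n using Nat.strong_induction_on with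
    | _ n ih =>
      intro c hc hn
      rcases h8.step A hA c hc with ⟨j, rfl⟩ | ⟨j, hj, hlt⟩
      · rw [ha10_rt]
        exact hX j
      · have h0 : 0 ≤ ht (refl A j c) :=
          Finset.sum_nonneg fun i _ => ((h8.mem A hA _).1 hj).1 i
        have h1 := ih (ht (refl A j c)).toNat (by omega) (refl A j c) hj rfl
        have h2 : s j (φ (lf (refl A j c))) ∣ s j g := map_dvd (s j) h1
        rw [hs, h8.lf_refl A hA, refl_refl hA, hg, dvd_neg] at h2
        exact h2
  intro c hc
  exact key _ c hc rfl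

theorem R_HA10 (ι : Type) [Fintype ι] [DecidableEq ι] (h8 : st_HA8 ι) (h9 : st_HA9 ι) :
    st_HA10 ι := by
  have hne : ∀ (A : Matrix ι ι ℤ), IsADE A → ∀ c ∈ posRoots A, c ≠ 0 := by
    intro A hA c hc h0
    have h1 := ((h8.mem A hA c).1 hc).2
    rw [h0, bl] at h1
    simp at h1
  refine ⟨?_, ?_, ?_, ?_⟩
  · intro A hA
    exact Finset.prod_ne_zero_iff.2 fun c hc => (h9.primeS c (hne A hA c hc)).ne_zero
  · intro A hA g hg hX
    have h1 := ha10_all h8 A hA (inc0 : MvPolynomial ι ℂ →ₐ[ℂ] Fock ι).toRingHom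
      (fun j => (rfF A j).toRingHom) (fun j P => ha10_rf A j P) g hg
      (fun j => by
        have : (inc0 : MvPolynomial ι ℂ →ₐ[ℂ] Fock ι).toRingHom (X j) = X (j, 0) := rename_X _ _
        rw [this]
        exact hX j)
    rw [PiA, map_prod]
    exact ha10_prod_dvd (posRoots A) (fun c => inc0 (lf c)) g
      (fun c hc => h9.primeF c (hne A hA c hc)) h1 (fun c hc c' hc' => h9.assocF A hA c hc c' hc')
  · intro A hA g hg hX
    have h1 := ha10_all h8 A hA (RingHom.id _) (fun j => (rfS A j).toRingHom) (fun j P => rfl) g hg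
      hX
    rw [PiA]
    exact ha10_prod_dvd (posRoots A) lf g (fun c hc => h9.primeS c (hne A hA c hc)) h1
      (fun c hc c' hc' => h9.assocS A hA c hc c' hc')
  · intro A hA j
    refine ⟨∏ c ∈ (posRoots A).erase (rt j), lf c, ?_, ?_⟩
    · rw [PiA, ← Finset.mul_prod_erase (posRoots A) lf (h8.simple A hA j), ha10_rt]
    · refine ha10_not_dvd _ lf (X j) X_prime
        (fun c hc => h9.primeS c (hne A hA c (Finset.mem_of_mem_erase hc))) (fun c hc has => ?_)
      rw [← ha10_rt] at has
      exact (Finset.ne_of_mem_erase hc)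
        (h9.assocS A hA _ (h8.simple A hA j) c (Finset.mem_of_mem_erase hc) has).symm

end WPQ
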