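import Pool.Agent.WPQ.HAD

/-! [WPQ-HA11] the main step -/

set_option autoImplicit false
set_option linter.unusedVariables false
set_option linter.unusedSectionVars false

namespace WPQ

open MvPolynomial

section

variable {ι : Type} [Fintype ι] [DecidableEq ι]

/-- partial derivatives commute -/
private theorem ha11_comm {σ : Type} (i j : σ) (f : MvPolynomial σ ℂ) :
    pderiv i (pderiv j f) = pderiv j (pderiv i f) := by
  classical
  have hk : ∀ a b k : σ, pderiv a (pderiv b (X k : MvPolynomial σ ℂ)) = 0 := by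
    intro a b k
    rw [pderiv_X, Pi.single_apply]
    split_ifs
    · exact pderiv_one
    · exact map_zero _
  have h : ⁅(pderiv i : Derivation ℂ (MvPolynomial σ ℂ) (MvPolynomial σ ℂ)),
      (pderiv j : Derivation ℂ (MvPolynomial σ ℂ) (MvPolynomial σ ℂ))⁆ = 0 := by
    apply MvPolynomial.derivation_ext
    intro k
    rw [Derivation.commutator_apply, hk, hk, sub_zero, Derivation.zero_apply]
  have h2 := congrArg (fun D : Derivation ℂ (MvPolynomial σ ℂ) (MvPolynomial σ ℂ) => D f) h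
  simp only [Derivation.commutator_apply, Derivation.zero_apply] at h2
  exact sub_eq_zero.1 h2

private theorem ha11_inc0_inj : Function.Injective (inc0 : MvPolynomial ι ℂ →ₐ[ℂ] Fock ι) := by
  unfold inc0
  exact rename_injective _ fun a b h => congrArg Prod.fst h

private theorem ha11_inc0_X (i : ι) : inc0 (X i : MvPolynomial ι ℂ) = (X (i, 0) : Fock ι) := by
  unfold inc0
  exact rename_X _ _

private theorem ha11_inc0_C (c : ℂ) : inc0 (C c : MvPolynomial ι ℂ) = (C c : Fock ι) := by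
  unfold inc0
  exact rename_C _ _

private theorem ha11_C_ne {σ : Type} {c : ℂ} (h : c ≠ 0) : (C c : MvPolynomial σ ℂ) ≠ 0 := by
  intro h1
  exact h (C_injective σ ℂ (by rw [h1, C_0]))

/-- the decomposition for one `j` -/
private theorem ha11_one (h2 : st_HA2 ι) (h3 : st_HA3 ι) (h4 : st_HA4 ι) (h5 : st_HA5 ι) (h6 : st_HA6 ι)
    {A : Matrix ι ι ℤ} {P : ι → MvPolynomial ι ℂ} {d : ι → ℕ} {c : ℂ} (hI : Inv A P d c) {N : ℕ} {f : Fock ι} (j : ι)
    (hf : f ∈ BJ A j) (hN : LeN N f) : ∃ Q : MvPolynomial ι ℂ, (Jac P).det = aeval (yb A j) Q * (2 * X j) ∧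
      ∀ i, ∃ h ∈ BJ A j, ∑ k, pderiv (k, N) f * inc0 ((Jac P).adjugate k i) =
        C ((N : ℂ) + 1) * inc0 (2 * X j) * h := by
  have hyd : (Jac (yb A j)).det ≠ 0 := by
    rw [h5.det]
    exact mul_ne_zero two_ne_zero (X_ne_zero j)
  have hf' : f ∈ (PhJ (yb A j)).range := by
    rw [← h2.range]
    exact hf
  obtain ⟨F, hF⟩ := hf'
  have hF' : PhJ (yb A j) F = f := hF
  subst hF'
  have hFN : LeN N F := h4.le _ hyd F N hN
  choose Q hQ using fun i => h6.inv A hI.ade j (P i) (hI.inv i j)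
  have hPQ : P = fun i => aeval (yb A j) (Q i) := funext hQ
  have hJ : Jac P = (Jac Q).map (aeval (yb A j)) * Jac (yb A j) := by
    conv_lhs => rw [hPQ]
    exact h5.jac _ _
  have hdet : ((Jac Q).map (aeval (yb A j))).det = aeval (yb A j) (Jac Q).det :=
    (AlgHom.map_det (aeval (yb A j)) (Jac Q)).symm
  refine ⟨(Jac Q).det, ?_, fun i => ?_⟩
  · rw [hJ, Matrix.det_mul, h5.det, hdet]
  have hadj : ((Jac Q).map (aeval (yb A j))).adjugate = (Jac Q).adjugate.map (aeval (yb A j)) :=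
    (RingHom.map_adjugate ((aeval (yb A j) : MvPolynomial ι ℂ →ₐ[ℂ] MvPolynomial ι ℂ) : MvPolynomial ι ℂ →+* MvPolynomial ι ℂ) (Jac Q)).symm
  have hmul : Jac (yb A j) * (Jac P).adjugate = (2 * X j : MvPolynomial ι ℂ) • (Jac Q).adjugate.map (aeval (yb A j)) := by
    rw [hJ, Matrix.adjugate_mul_distrib, ← mul_assoc, Matrix.mul_adjugate, h5.det, Matrix.smul_mul, one_mul, hadj]
  have hmul' : ∀ m, ∑ k, pderiv k (yb A j m) * (Jac P).adjugate k i = 2 * X j * aeval (yb A j) ((Jac Q).adjugate m i) := by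
    intro m
    have h := congrFun (congrFun hmul m) i
    rw [Matrix.mul_apply, Matrix.smul_apply, Matrix.map_apply, smul_eq_mul] at h
    exact h
  refine ⟨∑ m, PhJ (yb A j) (pderiv (m, N) F) * inc0 (aeval (yb A j) ((Jac Q).adjugate m i)), ?_, ?_⟩
  · have hB : BJ A j = (PhJ (yb A j)).range := h2.range _
    rw [hB]
    refine sum_mem fun m _ => mul_mem ⟨_, rfl⟩ ?_
    rw [← h2.inc]
    exact ⟨_, rfl⟩
  · have e1 : ∀ k, pderiv (k, N) (PhJ (yb A j) F) * inc0 ((Jac P).adjugate k i) =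
        ∑ m, C ((N : ℂ) + 1) * PhJ (yb A j) (pderiv (m, N) F) * inc0 (pderiv k (yb A j m) * (Jac P).adjugate k i) := by
      intro k
      rw [h3 _ F N k hFN, mul_assoc, Finset.sum_mul, Finset.mul_sum]
      refine Finset.sum_congr rfl fun m _ => ?_
      rw [map_mul]
      ring
    rw [Finset.sum_congr rfl fun k _ => e1 k, Finset.sum_comm, Finset.mul_sum]
    refine Finset.sum_congr rfl fun m _ => ?_
    rw [← Finset.mul_sum, ← map_sum, hmul', map_mul]
    ring

end

theorem R_HA11 (ι : Type) [Fintype ι] [DecidableEq ι] (h1 : st_HA1 ι) (h2 : st_HA2 ι) (h3 : st_HA3 ι) (h4 : st_HA4 ι) (h5 : st_HA5 ι) (h6 : st_HA6 ι) (h7 : st_HA7 ι) (h10 : st_HA10 ι) : st_HA11 ι := by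
  intro A P d c hI N f hf
  have hC : (C ((N : ℂ) + 1) : Fock ι) ≠ 0 := ha11_C_ne (by exact_mod_cast Nat.succ_ne_zero N)
  have hPiA := h10.ne A hI.ade
  have hdet : (Jac P).det ≠ 0 := by
    rw [hI.jac]
    exact mul_ne_zero (ha11_C_ne hI.c0) hPiA
  have hdet0 : inc0 (Jac P).det ≠ (0 : Fock ι) := fun h => hdet (ha11_inc0_inj (by rw [h, map_zero]))
  obtain ⟨D, hD⟩ : ∃ D : ι → Fock ι, ∀ i, D i = ∑ k, pderiv (k, N) f * inc0 ((Jac P).adjugate k i) := ⟨_, fun _ => rfl⟩
  choose Q hQ hh using fun j => ha11_one h2 h3 h4 h5 h6 hI j (hf.1 j) hf.2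
  choose h hhB hhD using hh
  have hDh : ∀ i j, D i = C ((N : ℂ) + 1) * inc0 (2 * X j) * h j i := fun i j => by rw [hD, hhD]
  have hinc2 : ∀ j : ι, inc0 (2 * X j : MvPolynomial ι ℂ) = (2 * X (j, 0) : Fock ι) := by
    intro j
    rw [map_mul, ha11_inc0_X, map_ofNat]
  -- divisibility
  have hdvd : ∀ i, inc0 (PiA A) ∣ D i := by
    intro i
    refine h10.dvdF A hI.ade _ (fun j => ?_) fun j => ?_
    · rw [hDh i j, map_mul, map_mul, h2.inv A hI.ade j _ (hhB j i), hinc2]
      have e1 : rfF A j (C ((N : ℂ) + 1)) = C ((N : ℂ) + 1) := by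
        unfold rfF
        exact aeval_C _ _
      have e2 : rfF A j (2 * X (j, 0)) = -(2 * X (j, 0)) := by
        unfold rfF
        rw [map_mul, aeval_X, map_ofNat]
        simp only
        rw [hI.ade.diag]
        have e3 : (C (((2 : ℤ) : ℂ)) : Fock ι) = 2 := by
          push_cast
          exact map_ofNat C 2
        rw [e3]
        ring
      rw [e1, e2]
      ring
    · rw [hDh i j, hinc2]
      exact ⟨C ((N : ℂ) + 1) * 2 * h j i, by ring⟩
  choose γ hγ using hdvd
  have hcN : c * ((N : ℂ) + 1) ≠ 0 := mul_ne_zero hI.c0 (by exact_mod_cast Nat.succ_ne_zero N)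
  obtain ⟨g, hg⟩ : ∃ g : ι → Fock ι, ∀ i, g i = C (1 / (c * ((N : ℂ) + 1))) * γ i := ⟨_, fun _ => rfl⟩
  have hgD : ∀ i, inc0 (Jac P).det * (C ((N : ℂ) + 1) * g i) = D i := by
    intro i
    rw [hI.jac, map_mul, ha11_inc0_C, hg, hγ]
    have e : (C c : Fock ι) * C ((N : ℂ) + 1) * C (1 / (c * ((N : ℂ) + 1))) = 1 := by
      rw [← C_mul, ← C_mul, mul_one_div_cancel hcN, C_1]
    linear_combination (inc0 (PiA A) * γ i) * e
  refine ⟨g, fun i => ⟨fun j => ?_, ?_⟩, fun k => ?_⟩
  · -- `g i ∈ B_j`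
    have hnd : ¬ (X j ∣ aeval (yb A j) (Q j)) := by
      intro hd
      obtain ⟨R, hR, hR'⟩ := h10.split A hI.ade j
      have e1 : aeval (yb A j) (Q j) * (2 * X j) = C c * (X j * R) := by
        rw [← hQ j, hI.jac, hR]
      have e2 : 2 * aeval (yb A j) (Q j) = C c * R := by
        apply mul_left_cancel₀ (X_ne_zero (R := ℂ) j)
        linear_combination e1
      apply hR'
      have h8 : X j ∣ C c * R := by
        rw [← e2]
        exact Dvd.dvd.mul_left hd 2
      have h9 : C c⁻¹ * (C c * R) = R := by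
        rw [← mul_assoc, ← C_mul, inv_mul_cancel₀ hI.c0, C_1, one_mul]
      rw [← h9]
      exact Dvd.dvd.mul_left h8 _
    refine h7 A hI.ade j (Q j) (g i) hnd ?_
    have e3 : inc0 (aeval (yb A j) (Q j)) * g i = h j i := by
      have e4 : C ((N : ℂ) + 1) * inc0 (2 * X j) * (inc0 (aeval (yb A j) (Q j)) * g i) = C ((N : ℂ) + 1) * inc0 (2 * X j) * h j i := by
        rw [← hDh i j, ← hgD i, hQ j, map_mul inc0 (aeval (yb A j) (Q j)) (2 * X j)]
        ring
      refine mul_left_cancel₀ (mul_ne_zero hC ?_) e4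
      rw [hinc2]
      exact mul_ne_zero two_ne_zero (X_ne_zero _)
    rw [e3]
    exact hhB j i
  · -- the level
    intro m n hn
    have hp0 : ∀ q : MvPolynomial ι ℂ, pderiv (m, n) (inc0 q) = 0 := by
      intro q
      rw [← h1.zero, h1.pd, if_neg (by omega)]
    have hD0 : pderiv (m, n) (D i) = 0 := by
      rw [hD, map_sum]
      refine Finset.sum_eq_zero fun k _ => ?_
      rw [pderiv_mul, hp0, mul_zero, add_zero, ha11_comm, hf.2 m n hn, map_zero, zero_mul]
    rw [← hgD i, pderiv_mul, hp0, zero_mul, zero_add, pderiv_C_mul] at hD0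
    rcases mul_eq_zero.1 hD0 with h8 | h8
    · exact absurd h8 hdet0
    · exact (mul_eq_zero.1 h8).resolve_left hC
  · -- the formula
    have e1 : inc0 (Jac P).det * pderiv (k, N) f = ∑ i, D i * inc0 (pderiv k (P i)) := by
      have e2 : ∀ k', ∑ i, (Jac P).adjugate k' i * pderiv k (P i) = if k' = k then (Jac P).det else 0 := by
        intro k'
        have h8 := congrFun (congrFun (Matrix.adjugate_mul (Jac P)) k') k
        rw [Matrix.mul_apply, Matrix.smul_apply, Matrix.one_apply, smul_eq_mul, mul_ite, mul_one, mul_zero] at h8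
        exact h8
      have e3 : ∀ i, D i * inc0 (pderiv k (P i)) = ∑ k', pderiv (k', N) f * inc0 ((Jac P).adjugate k' i * pderiv k (P i)) := by
        intro i
        rw [hD, Finset.sum_mul]
        refine Finset.sum_congr rfl fun k' _ => ?_
        rw [map_mul, mul_assoc]
      rw [Finset.sum_congr rfl fun i _ => e3 i, Finset.sum_comm]
      have e4 : ∀ k', ∑ i, pderiv (k', N) f * inc0 ((Jac P).adjugate k' i * pderiv k (P i)) =
          if k' = k then inc0 (Jac P).det * pderiv (k, N) f else 0 := by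
        intro k'
        rw [← Finset.mul_sum, ← map_sum, e2]
        split_ifs with h8
        · rw [h8, mul_comm]
        · rw [map_zero, mul_zero]
      rw [Finset.sum_congr rfl fun k' _ => e4 k', Finset.sum_ite_eq' Finset.univ k, if_pos (Finset.mem_univ k)]
    apply mul_left_cancel₀ hdet0
    rw [e1, Finset.mul_sum, Finset.mul_sum]
    refine Finset.sum_congr rfl fun i _ => ?_
    rw [← hgD i]
    ring

end WPQ
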