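import Pool.Agent.WPQ.HAD

/-! [WPQ-HA12] degrees in the highest jets -/

set_option autoImplicit false
set_option linter.unusedVariables false
set_option linter.unusedSectionVars false

namespace WPQ

open MvPolynomial

variable {ι : Type} [Fintype ι] [DecidableEq ι]

/-- Partial derivatives commute. -/
private theorem ha12_comm {σ : Type} (x y : σ) (f : MvPolynomial σ ℂ) :
    pderiv x (pderiv y f) = pderiv y (pderiv x f) := by
  classical
  have h : ⁅(pderiv x : Derivation ℂ (MvPolynomial σ ℂ) (MvPolynomial σ ℂ)),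
      (pderiv y : Derivation ℂ (MvPolynomial σ ℂ) (MvPolynomial σ ℂ))⁆ = 0 := by
    apply MvPolynomial.derivation_ext
    intro z
    rw [Derivation.commutator_apply, pderiv_X, pderiv_X, Derivation.coe_zero, Pi.zero_apply,
      Pi.single_apply, Pi.single_apply]
    split_ifs <;> simp
  have h1 := congrArg (fun D => D f) h
  rw [Derivation.commutator_apply] at h1
  exact sub_eq_zero.1 h1

private theorem ha12_zero (N d : ℕ) : DegLe N d (0 : Fock ι) := by
  induction d with
  | zero => intro i; exact map_zero _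
  | succ d ih => intro i; rw [map_zero]; exact ih

private theorem ha12_succ (N d : ℕ) : ∀ f : Fock ι, DegLe N d f → DegLe N (d + 1) f := by
  induction d with
  | zero =>
    intro f hf i
    rw [hf i]
    exact ha12_zero N 0
  | succ d ih =>
    intro f hf i
    exact ih _ (hf i)

private theorem ha12_mono (N d e : ℕ) (h : d ≤ e) (f : Fock ι) (hf : DegLe N d f) :
    DegLe N e f := by
  induction e, h using Nat.le_induction with
  | base => exact hf
  | succ e _ ih => exact ha12_succ N e f ih

private theorem ha12_add (N d : ℕ) : ∀ f g : Fock ι, DegLe N d f → DegLe N d g →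
    DegLe N d (f + g) := by
  induction d with
  | zero =>
    intro f g hf hg i
    rw [map_add, hf i, hg i, add_zero]
  | succ d ih =>
    intro f g hf hg i
    rw [map_add]
    exact ih _ _ (hf i) (hg i)

private theorem ha12_mul (N : ℕ) : ∀ (n a b : ℕ) (f g : Fock ι), a + b = n → DegLe N a f →
    DegLe N b g → DegLe N n (f * g) := by
  intro n
  induction n with
  | zero =>
    intro a b f g hn hf hg i
    obtain ⟨rfl, rfl⟩ : a = 0 ∧ b = 0 := by omega
    rw [pderiv_mul, hf i, hg i, zero_mul, mul_zero, add_zero]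
  | succ n ih =>
    intro a b f g hn hf hg i
    rw [pderiv_mul]
    apply ha12_add
    · rcases a with _ | a
      · rw [hf i, zero_mul]
        exact ha12_zero N n
      · exact ih a b _ _ (by omega) (hf i) hg
    · rcases b with _ | b
      · rw [hg i, mul_zero]
        exact ha12_zero N n
      · exact ih a b _ _ (by omega) hf (hg i)

/-- A polynomial has finite degree in the variables of level `N`. -/
private theorem ha12_ex (N : ℕ) (f : Fock ι) : ∃ d, DegLe N d f := by
  induction f using MvPolynomial.induction_on with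
  | C c => exact ⟨0, fun i => pderiv_C⟩
  | add f g hf hg =>
    obtain ⟨a, ha⟩ := hf
    obtain ⟨b, hb⟩ := hg
    exact ⟨max a b, ha12_add N _ _ _ (ha12_mono N a _ (le_max_left _ _) _ ha)
      (ha12_mono N b _ (le_max_right _ _) _ hb)⟩
  | mul_X f x hf =>
    obtain ⟨a, ha⟩ := hf
    refine ⟨a + 1, ha12_mul N (a + 1) a 1 _ _ rfl ha ?_⟩
    intro i j
    by_cases h : x = (i, N)
    · rw [h, pderiv_X_self, pderiv_one]
    · rw [pderiv_X_of_ne h, map_zero]

theorem R_HA12 (ι : Type) [Fintype ι] [DecidableEq ι] (h1 : st_HA1 ι) : st_HA12 ι := by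
  refine ⟨ha12_ex, ?_⟩
  intro P hP N hN e
  have hinc : Function.Injective (inc0 : MvPolynomial ι ℂ →ₐ[ℂ] Fock ι) :=
    rename_injective _ fun i j h => congrArg Prod.fst h
  -- the vectors of level `0` have no derivatives of level `N`
  have h0 : ∀ (k : ι) (Q : MvPolynomial ι ℂ), pderiv (k, N) (inc0 Q) = 0 := by
    intro k Q
    rw [← h1.zero]
    exact h1.le Q 0 k N (by omega)
  have hjet : ∀ (k i : ι), pderiv (k, N) (jet N (P i)) =
      C ((N : ℂ) + 1) * inc0 (pderiv k (P i)) := by
    intro k i
    rw [h1.pd, if_pos le_rfl, Nat.sub_self, h1.zero]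
  have hCN : (C ((N : ℂ) + 1) : Fock ι) ≠ 0 := by
    rw [Ne, C_eq_zero]
    exact Nat.cast_add_one_ne_zero N
  -- linear independence of the rows of the Jacobian
  have hlin : ∀ u : ι → Fock ι, (∀ k, ∑ i, u i * inc0 (pderiv k (P i)) = 0) → ∀ i, u i = 0 := by
    intro u hu i
    have hdet : ((Jac P).map (inc0 : MvPolynomial ι ℂ →ₐ[ℂ] Fock ι)).det ≠ 0 := by
      have h2 : ((Jac P).map (inc0 : MvPolynomial ι ℂ →ₐ[ℂ] Fock ι)).det = inc0 (Jac P).det := by
        rw [AlgHom.map_det]
        rfl
      rw [h2]
      intro h3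
      exact hP (hinc (by rw [h3, map_zero]))
    have h4 := Matrix.eq_zero_of_vecMul_eq_zero hdet (v := u) (by
      funext k
      rw [Matrix.vecMul, dotProduct]
      simp only [Matrix.map_apply, Jac, Matrix.of_apply, Pi.zero_apply]
      exact hu k)
    exact congrFun h4 i
  -- the derivatives of the hypothesis
  have hder : ∀ (f : Fock ι) (g : ι → Fock ι),
      (∀ k, pderiv (k, N) f = C ((N : ℂ) + 1) * ∑ i, g i * inc0 (pderiv k (P i))) →
      ∀ m k, pderiv (k, N) (pderiv (m, N) f) =
        C ((N : ℂ) + 1) * ∑ i, pderiv (m, N) (g i) * inc0 (pderiv k (P i)) := by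
    intro f g hfg m k
    rw [ha12_comm, hfg k, pderiv_C_mul, map_sum]
    congr 1
    refine Finset.sum_congr rfl fun i _ => ?_
    rw [pderiv_mul, h0, mul_zero, add_zero]
  have hder2 : ∀ (c : ℂ) (f : Fock ι) (g : ι → Fock ι),
      (∀ k, pderiv (k, N) f = C ((N : ℂ) + 1) * ∑ i, g i * inc0 (pderiv k (P i))) →
      ∀ m, pderiv (m, N) (C (c + 1) * f - ∑ i, jet N (P i) * g i) =
        C c * pderiv (m, N) f - ∑ i, jet N (P i) * pderiv (m, N) (g i) := by
    intro c f g hfg m
    have h2 : ∑ i, pderiv (m, N) (jet N (P i) * g i) =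
        pderiv (m, N) f + ∑ i, jet N (P i) * pderiv (m, N) (g i) := by
      rw [hfg m, Finset.mul_sum, ← Finset.sum_add_distrib]
      refine Finset.sum_congr rfl fun i _ => ?_
      rw [pderiv_mul, hjet]
      ring
    rw [map_sub, pderiv_C_mul, map_sum, h2, C_add, C_1]
    ring
  induction e with
  | zero =>
    intro f g hf hfg
    have h2 : ∀ i m, pderiv (m, N) (g i) = 0 := by
      intro i m
      refine hlin (fun i => pderiv (m, N) (g i)) (fun k => ?_) i
      have h3 := hder f g hfg m k
      rw [hf m k] at h3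
      exact (mul_eq_zero.1 h3.symm).resolve_left hCN
    refine ⟨fun i m => h2 i m, fun m => ?_⟩
    have h3 := hder2 0 f g hfg m
    rw [zero_add] at h3
    rw [Nat.cast_zero, zero_add, h3, C_0, zero_mul, zero_sub, neg_eq_zero]
    exact Finset.sum_eq_zero fun i _ => by rw [h2 i m, mul_zero]
  | succ e ih =>
    intro f g hf hfg
    have h2 := fun m => ih (pderiv (m, N) f) (fun i => pderiv (m, N) (g i)) (hf m)
      (hder f g hfg m)
    refine ⟨fun i m => (h2 m).1 i, fun m => ?_⟩
    have h3 := hder2 ((e : ℂ) + 1) f g hfg m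
    rw [Nat.cast_add, Nat.cast_one, h3]
    exact (h2 m).2

end WPQ
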