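import Pool.Agent.WPQ.HAD

/-! [WPQ-HA13] theorem of Chevalley -/

set_option autoImplicit false
set_option linter.unusedVariables false

namespace WPQ

open MvPolynomial

/-- Chain rule for a substitution. -/
private theorem ha13_chain (ι : Type) [Fintype ι] [DecidableEq ι] (a : ι → MvPolynomial ι ℂ)
    (k : ι) (g : MvPolynomial ι ℂ) :
    pderiv k (aeval a g) = ∑ m, aeval a (pderiv m g) * pderiv k (a m) := by
  induction g using MvPolynomial.induction_on with
  | C c =>
    have h : (aeval a (C c : MvPolynomial ι ℂ) : MvPolynomial ι ℂ) = C c := by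
      rw [aeval_C]; rfl
    rw [h, pderiv_C]
    simp
  | add p q hp hq =>
    rw [map_add, map_add, hp, hq, ← Finset.sum_add_distrib]
    refine Finset.sum_congr rfl fun m _ => ?_
    rw [map_add, map_add]; ring
  | mul_X p i hp =>
    rw [map_mul, aeval_X, pderiv_mul, hp, Finset.sum_mul]
    have h : ∀ m, aeval a (pderiv m (p * X i)) * pderiv k (a m) =
        aeval a (pderiv m p) * pderiv k (a m) * a i +
          (if m = i then aeval a p * pderiv k (a i) else 0) := by
      intro m
      rw [pderiv_mul, map_add, map_mul, map_mul, aeval_X, pderiv_X]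
      by_cases hm : m = i
      · subst hm
        simp; ring
      · rw [if_neg hm]
        have : (Pi.single m (1 : MvPolynomial ι ℂ) : ι → MvPolynomial ι ℂ) i = 0 := by
          rw [Pi.single_apply, if_neg (fun h => hm h.symm)]
        rw [this]; simp; ring
    rw [Finset.sum_congr rfl fun m _ => h m, Finset.sum_add_distrib]
    simp

/-- The matrix of the reflection has determinant `-1`. -/
private theorem ha13_detW (ι : Type) [Fintype ι] [DecidableEq ι] (A : Matrix ι ι ℤ)
    (hA : IsADE A) (j : ι) :
    (Matrix.of fun m k : ι => pderiv k (X m - C (A m j : ℂ) * X j : MvPolynomial ι ℂ)).det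
      = -1 := by
  have h : (Matrix.of fun m k : ι => pderiv k (X m - C (A m j : ℂ) * X j : MvPolynomial ι ℂ))
      = 1 + Matrix.replicateCol Unit (fun m => (-C (A m j : ℂ) : MvPolynomial ι ℂ)) *
        Matrix.replicateRow Unit (fun k => if k = j then (1 : MvPolynomial ι ℂ) else 0) := by
    ext1 m k
    rw [Matrix.of_apply, Matrix.add_apply, Matrix.mul_apply]
    simp only [Finset.univ_unique, Finset.sum_singleton, Matrix.replicateCol_apply,
      Matrix.replicateRow_apply, Matrix.one_apply]
    rw [map_sub, pderiv_C_mul, pderiv_X, pderiv_X, Pi.single_apply, Pi.single_apply]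
    by_cases h2 : k = j
    · subst h2
      by_cases h1 : m = k
      · subst h1
        simp; ring
      · have h4 : ¬ k = m := fun h => h1 h.symm
        simp [h1, h4]
    · have h3 : ¬ j = k := fun h => h2 h.symm
      by_cases h1 : m = k
      · subst h1
        simp [h2, h3]
      · have h4 : ¬ k = m := fun h => h1 h.symm
        simp [h1, h4, h2, h3]
  rw [h, Matrix.det_one_add_replicateCol_mul_replicateRow]
  have h3 : (fun k => if k = j then (1 : MvPolynomial ι ℂ) else 0) ⬝ᵥ
      (fun m => -C (A m j : ℂ)) = -2 := by
    have hd' : ((A j j : ℤ) : MvPolynomial ι ℂ) = 2 := by rw [hA.diag j]; norm_num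
    simp [dotProduct, hd']
  rw [h3]; ring

/-- The Jacobian of invariants is skew. -/
private theorem ha13_skew (ι : Type) [Fintype ι] [DecidableEq ι] (A : Matrix ι ι ℤ)
    (hA : IsADE A) (j : ι) (Q : ι → MvPolynomial ι ℂ) (hQ : ∀ i, rfS A j (Q i) = Q i) :
    rfS A j (Jac Q).det = -(Jac Q).det := by
  have h : Jac Q = (Jac Q).map (rfS A j) *
      (Matrix.of fun m k : ι => pderiv k (X m - C (A m j : ℂ) * X j : MvPolynomial ι ℂ)) := by
    ext1 i k
    rw [Matrix.mul_apply]
    simp only [Jac, Matrix.map_apply, Matrix.of_apply]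
    conv_lhs => rw [← hQ i]
    exact ha13_chain ι _ k (Q i)
  have h2 : rfS A j (Jac Q).det = ((Jac Q).map (rfS A j)).det := by
    have := RingHom.map_det (rfS A j : MvPolynomial ι ℂ →ₐ[ℂ] MvPolynomial ι ℂ).toRingHom (Jac Q)
    exact this
  have h3 : (Jac Q).det = ((Jac Q).map (rfS A j)).det * (-1) := by
    conv_lhs => rw [h, Matrix.det_mul, ha13_detW ι A hA j]
  rw [h2, h3]; ring

/-- Cramer's rule: the gradient of an invariant is a combination of the gradients of `P_i`. -/
private theorem ha13_cramer (ι : Type) [Fintype ι] [DecidableEq ι] (h6 : st_HA6 ι)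
    (h10 : st_HA10 ι) (A : Matrix ι ι ℤ) (P : ι → MvPolynomial ι ℂ) (d : ι → ℕ) (c : ℂ)
    (hI : Inv A P d c) (f : MvPolynomial ι ℂ) (hf : ∀ j, rfS A j f = f) :
    ∃ g : ι → MvPolynomial ι ℂ, (∀ i j, rfS A j (g i) = g i) ∧
      ∀ k, pderiv k f = ∑ i, g i * pderiv k (P i) := by
  have hPi0 : PiA A ≠ 0 := h10.ne A hI.ade
  -- the determinants
  have hD : ∀ i, ∃ q, (Jac (Function.update P i f)).det = PiA A * q := by
    intro i
    have hs : ∀ j, rfS A j (Jac (Function.update P i f)).det
        = -(Jac (Function.update P i f)).det := by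
      intro j
      apply ha13_skew ι A hI.ade j
      intro i'
      by_cases h : i' = i
      · subst h; rw [Function.update_self]; exact hf j
      · rw [Function.update_of_ne h]; exact hI.inv i' j
    exact h10.dvdS A hI.ade _ hs fun j => h6.skew A hI.ade j _ (hs j)
  choose q hq using hD
  have hPs : ∀ j, rfS A j (PiA A) = -PiA A := by
    intro j
    have h := ha13_skew ι A hI.ade j P (fun i => hI.inv i j)
    rw [hI.jac, map_mul] at h
    have hC : rfS A j (C c : MvPolynomial ι ℂ) = C c := by
      unfold rfS; rw [aeval_C]; rfl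
    rw [hC, ← mul_neg] at h
    exact mul_left_cancel₀ (fun h0 => hI.c0 (by simpa using h0)) h
  have hqs : ∀ i j, rfS A j (q i) = q i := by
    intro i j
    have hs : rfS A j (Jac (Function.update P i f)).det
        = -(Jac (Function.update P i f)).det := by
      apply ha13_skew ι A hI.ade j
      intro i'
      by_cases h : i' = i
      · subst h; rw [Function.update_self]; exact hf j
      · rw [Function.update_of_ne h]; exact hI.inv i' j
    rw [hq i, map_mul, hPs j, neg_mul, neg_inj] at hs
    exact mul_left_cancel₀ hPi0 hs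
  have hC : ∀ j, rfS A j (C c⁻¹ : MvPolynomial ι ℂ) = C c⁻¹ := by
    intro j; unfold rfS; rw [aeval_C]; rfl
  refine ⟨fun i => C c⁻¹ * q i, fun i j => by rw [map_mul, hC j, hqs i j], ?_⟩
  intro k
  -- Cramer
  have hcr : ∀ i, Matrix.cramer (Jac P).transpose (fun k => pderiv k f) i = PiA A * q i := by
    intro i
    rw [Matrix.cramer_transpose_apply, ← hq i]
    congr 1
    ext1 i' k'
    by_cases h : i' = i
    · subst h
      rw [Matrix.updateRow_self]
      simp [Jac]
    · rw [Matrix.updateRow_ne h]
      simp [Jac, Function.update_of_ne h]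
  have hm := congrFun (Matrix.mulVec_cramer (Jac P).transpose (fun k => pderiv k f)) k
  rw [Matrix.det_transpose, hI.jac] at hm
  simp only [Matrix.mulVec, dotProduct, Pi.smul_apply, smul_eq_mul, Matrix.transpose_apply,
    hcr] at hm
  have hm2 : PiA A * (∑ i, q i * pderiv k (P i)) = PiA A * (C c * pderiv k f) := by
    rw [Finset.mul_sum]
    calc ∑ i, PiA A * (q i * pderiv k (P i)) = ∑ i, (Jac P) i k * (PiA A * q i) := by
          refine Finset.sum_congr rfl fun i _ => ?_
          simp only [Jac, Matrix.of_apply]; ring
      _ = C c * PiA A * pderiv k f := hm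
      _ = _ := by ring
  have hm3 := mul_left_cancel₀ hPi0 hm2
  have hcc : (C c⁻¹ : MvPolynomial ι ℂ) * C c = 1 := by
    rw [← map_mul, inv_mul_cancel₀ hI.c0, map_one]
  calc pderiv k f = C c⁻¹ * C c * pderiv k f := by rw [hcc, one_mul]
    _ = C c⁻¹ * (C c * pderiv k f) := by ring
    _ = C c⁻¹ * ∑ i, q i * pderiv k (P i) := by rw [hm3]
    _ = _ := by
      rw [Finset.mul_sum]
      exact Finset.sum_congr rfl fun i _ => by ring

/-- The Euler operator multiplies the component of degree `m` by `m`. -/
private theorem ha13_euler (ι : Type) [Fintype ι] [DecidableEq ι] (f : MvPolynomial ι ℂ)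
    (m : ℕ) : homogeneousComponent m (∑ k, X k * pderiv k f) =
      C (m : ℂ) * homogeneousComponent m f := by
  have h : ∑ k, X k * pderiv k f =
      ∑ n ∈ Finset.range (f.totalDegree + 1), C (n : ℂ) * homogeneousComponent n f := by
    conv_lhs => rw [← sum_homogeneousComponent f]
    simp only [map_sum, Finset.mul_sum]
    rw [Finset.sum_comm]
    refine Finset.sum_congr rfl fun n _ => ?_
    rw [(homogeneousComponent_isHomogeneous n f).sum_X_mul_pderiv, nsmul_eq_mul]
    have hn : ((n : ℕ) : MvPolynomial ι ℂ) = C (n : ℂ) := (map_natCast C n).symm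
    rw [hn]
  have hh : ∀ n, homogeneousComponent m (homogeneousComponent n f) =
      if m = n then homogeneousComponent n f else 0 := fun n =>
    homogeneousComponent_of_mem (homogeneousComponent_mem n f)
  rw [h, map_sum]
  simp only [homogeneousComponent_C_mul, hh]
  by_cases hm : m < f.totalDegree + 1
  · rw [Finset.sum_eq_single m]
    · simp
    · intro n _ hn
      rw [if_neg (fun h => hn h.symm), mul_zero]
    · intro hn
      exact absurd (Finset.mem_range.mpr hm) hn
  · rw [homogeneousComponent_eq_zero m f (by omega), mul_zero]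
    apply Finset.sum_eq_zero
    intro n hn
    rw [Finset.mem_range] at hn
    rw [if_neg (by omega), mul_zero]

/-- The components of invariants are polynomials in the `P_i`. -/
private theorem ha13_comp (ι : Type) [Fintype ι] [DecidableEq ι] (h6 : st_HA6 ι)
    (h10 : st_HA10 ι) (A : Matrix ι ι ℤ) (P : ι → MvPolynomial ι ℂ) (d : ι → ℕ) (c : ℂ)
    (hI : Inv A P d c) : ∀ (m : ℕ) (f : MvPolynomial ι ℂ), (∀ j, rfS A j f = f) →
      homogeneousComponent m f ∈ Algebra.adjoin ℂ (Set.range P) := by
  intro m
  induction m using Nat.strong_induction_on with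
  | _ m ih =>
    intro f hf
    rcases Nat.eq_zero_or_pos m with hm | hm
    · subst hm
      rw [homogeneousComponent_zero]
      exact Subalgebra.algebraMap_mem _ _
    · obtain ⟨g, hg, hgf⟩ := ha13_cramer ι h6 h10 A P d c hI f hf
      have h1 : ∑ k, X k * pderiv k f = ∑ i, C (d i : ℂ) * (P i * g i) := by
        calc ∑ k, X k * pderiv k f = ∑ k, X k * ∑ i, g i * pderiv k (P i) :=
              Finset.sum_congr rfl fun k _ => by rw [hgf k]
          _ = ∑ i, g i * ∑ k, X k * pderiv k (P i) := by
              simp only [Finset.mul_sum]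
              rw [Finset.sum_comm]
              exact Finset.sum_congr rfl fun i _ => Finset.sum_congr rfl fun k _ => by ring
          _ = ∑ i, C (d i : ℂ) * (P i * g i) := by
              refine Finset.sum_congr rfl fun i _ => ?_
              rw [(hI.hom i).sum_X_mul_pderiv, nsmul_eq_mul]
              have : ((d i : ℕ) : MvPolynomial ι ℂ) = C (d i : ℂ) := (map_natCast C (d i)).symm
              rw [this]; ring
      have h2 : C (m : ℂ) * homogeneousComponent m f ∈ Algebra.adjoin ℂ (Set.range P) := by
        rw [← ha13_euler, h1, map_sum]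
        apply Subalgebra.sum_mem
        intro i _
        rw [homogeneousComponent_C_mul]
        apply Subalgebra.mul_mem _ (Subalgebra.algebraMap_mem _ _)
        rw [← sum_homogeneousComponent (g i), Finset.mul_sum, map_sum]
        apply Subalgebra.sum_mem
        intro n _
        have hh : (P i * homogeneousComponent n (g i)).IsHomogeneous (d i + n) :=
          (hI.hom i).mul (homogeneousComponent_isHomogeneous n (g i))
        rw [homogeneousComponent_of_mem hh]
        split
        · rename_i he
          have hP : P i ∈ Algebra.adjoin ℂ (Set.range P) := Algebra.subset_adjoin (Set.mem_range_self i)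
          have := hI.dpos i
          exact Subalgebra.mul_mem _ hP (ih n (by omega) (g i) (hg i))
        · exact Subalgebra.zero_mem _
      have h3 : homogeneousComponent m f = C ((m : ℂ)⁻¹) * (C (m : ℂ) * homogeneousComponent m f)
          := by
        rw [← mul_assoc, ← map_mul, inv_mul_cancel₀ (by exact_mod_cast hm.ne'), map_one, one_mul]
      rw [h3]
      exact Subalgebra.mul_mem _ (Subalgebra.algebraMap_mem _ _) h2

theorem R_HA13 (ι : Type) [Fintype ι] [DecidableEq ι] (h6 : st_HA6 ι) (h10 : st_HA10 ι) : st_HA13 ι := by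
  intro A P d c hI f hf
  rw [← sum_homogeneousComponent f]
  exact Subalgebra.sum_mem _ fun m _ => ha13_comp ι h6 h10 A P d c hI m f hf

end WPQ
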