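import Pool.Agent.WPQ.HAD

/-! [WPQ-HA14] Hartogs theorem for jets -/

set_option autoImplicit false
set_option linter.unusedVariables false
set_option linter.unusedSectionVars false

namespace WPQ

open MvPolynomial

section

variable {ι : Type} [Fintype ι] [DecidableEq ι] {A : Matrix ι ι ℤ}

/-- In characteristic zero a variable with zero derivative does not occur. -/
private theorem ha14_notMem_vars {σ : Type} (f : MvPolynomial σ ℂ) (x : σ)
    (h : pderiv x f = 0) : x ∉ f.vars := by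
  intro hx
  rw [mem_vars_iff_mem_support] at hx
  obtain ⟨m, hm, hxm⟩ := hx
  rw [Finsupp.mem_support_iff] at hxm
  rw [mem_support_iff] at hm
  have h1 := coeff_pderiv (i := x) f (m - Finsupp.single x 1)
  rw [h, coeff_zero] at h1
  have h2 : m - Finsupp.single x 1 + Finsupp.single x 1 = m := by
    refine tsub_add_cancel_of_le ?_
    rw [Finsupp.single_le_iff]
    omega
  rw [h2] at h1
  rcases mul_eq_zero.1 h1.symm with h3 | h3
  · exact hm h3
  · exact Nat.cast_add_one_ne_zero (R := ℂ) _ h3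

/-- Every polynomial involves only finitely many levels. -/
private theorem ha14_ex_level (f : Fock ι) : ∃ N, LeN N f := by
  refine ⟨f.vars.sup Prod.snd, fun i k hk => ?_⟩
  refine pderiv_eq_zero_of_notMem_vars fun h => ?_
  have h1 : k ≤ f.vars.sup Prod.snd := Finset.le_sup (f := Prod.snd) h
  omega

/-- Elements of level zero come from `S`. -/
private theorem ha14_level_zero (f : Fock ι) (h : LeN 0 f) :
    ∃ f0 : MvPolynomial ι ℂ, inc0 f0 = f := by
  have hinj : Function.Injective (fun i : ι => (i, 0) : ι → ι × ℕ) := by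
    intro a b hab
    exact (Prod.ext_iff.1 hab).1
  have hsub : (f.vars : Set (ι × ℕ)) ⊆ Set.range (fun i : ι => (i, 0) : ι → ι × ℕ) := by
    rintro ⟨i, k⟩ hx
    rcases Nat.eq_zero_or_pos k with hk | hk
    · exact ⟨i, by rw [hk]⟩
    · exact absurd (Finset.mem_coe.1 hx) (ha14_notMem_vars f (i, k) (h i k hk))
  obtain ⟨q, hq⟩ := exists_rename_eq_of_vars_subset_range f _ hinj hsub
  exact ⟨q, hq⟩

/-- The base of the induction. -/
private theorem ha14_base (h1 : st_HA1 ι) (h6 : st_HA6 ι) (h13 : st_HA13 ι)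
    (P : ι → MvPolynomial ι ℂ) (d : ι → ℕ) (c : ℂ) (hI : Inv A P d c)
    (f : Fock ι) (hf : AN A 0 f) : f ∈ BP P := by
  obtain ⟨f0, rfl⟩ := ha14_level_zero f hf.2
  have h2 : ∀ j, rfS A j f0 = f0 := fun j => h6.of_BJ A hI.ade j f0 (hf.1 j)
  have h3 := h13 A P d c hI f0 h2
  have h4 : inc0 f0 ∈ (Algebra.adjoin ℂ (Set.range P)).map (inc0 : MvPolynomial ι ℂ →ₐ[ℂ] Fock ι) :=
    Subalgebra.mem_map.2 ⟨f0, h3, rfl⟩
  rw [AlgHom.map_adjoin] at h4
  refine Algebra.adjoin_mono ?_ h4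
  rintro _ ⟨_, ⟨i, rfl⟩, rfl⟩
  exact ⟨0, i, (h1.zero (P i)).symm⟩

/-- The jets of the invariants belong to all `B_j` . -/
private theorem ha14_jet_AN (h1 : st_HA1 ι) (h2 : st_HA2 ι) (h6 : st_HA6 ι)
    (P : ι → MvPolynomial ι ℂ) (d : ι → ℕ) (c : ℂ) (hI : Inv A P d c) (N : ℕ) (i : ι) :
    AN A N (jet N (P i)) := by
  refine ⟨fun j => ?_, h1.le (P i) N⟩
  obtain ⟨Q, hQ⟩ := h6.inv A hI.ade j (P i) (hI.inv i j)
  rw [hQ]
  exact h2.comp (yb A j) Q N

/-- `AN` is closed under products. -/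
private theorem ha14_AN_mul (N : ℕ) (f g : Fock ι) (hf : AN A N f) (hg : AN A N g) :
    AN A N (f * g) := by
  refine ⟨fun j => Subalgebra.mul_mem _ (hf.1 j) (hg.1 j), fun i k hk => ?_⟩
  rw [pderiv_mul, hf.2 i k hk, hg.2 i k hk, zero_mul, mul_zero, add_zero]

/-- `AN` is closed under differences. -/
private theorem ha14_AN_sub (N : ℕ) (f g : Fock ι) (hf : AN A N f) (hg : AN A N g) :
    AN A N (f - g) := by
  refine ⟨fun j => Subalgebra.sub_mem _ (hf.1 j) (hg.1 j), fun i k hk => ?_⟩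
  rw [map_sub, hf.2 i k hk, hg.2 i k hk, sub_zero]

/-- `AN` is closed under sums. -/
private theorem ha14_AN_sum (N : ℕ) (f : ι → Fock ι) (hf : ∀ i, AN A N (f i)) :
    AN A N (∑ i, f i) := by
  refine ⟨fun j => Subalgebra.sum_mem _ fun i _ => (hf i).1 j, fun i k hk => ?_⟩
  rw [map_sum]
  exact Finset.sum_eq_zero fun m _ => (hf m).2 i k hk

/-- Constants are in `AN`. -/
private theorem ha14_AN_C (N : ℕ) (a : ℂ) : AN A N (C a : Fock ι) := by
  refine ⟨fun j => Subalgebra.algebraMap_mem _ a, fun i k hk => pderiv_C⟩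

/-- The induction on the degree in the highest jets. -/
private theorem ha14_step (h1 : st_HA1 ι) (h2 : st_HA2 ι) (h6 : st_HA6 ι) (h10 : st_HA10 ι)
    (h11 : st_HA11 ι) (h12 : st_HA12 ι)
    (P : ι → MvPolynomial ι ℂ) (d : ι → ℕ) (c : ℂ) (hI : Inv A P d c) (N : ℕ)
    (ih : ∀ f : Fock ι, AN A N f → f ∈ BP P) :
    ∀ (e : ℕ) (f : Fock ι), AN A (N + 1) f → DegLe (N + 1) e f → f ∈ BP P := by
  have hdet : (Jac P).det ≠ 0 := by
    rw [hI.jac]
    refine mul_ne_zero ?_ (h10.ne A hI.ade)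
    intro h
    exact hI.c0 (C_eq_zero.1 h)
  intro e
  induction e with
  | zero =>
    intro f hf hd
    refine ih f ⟨hf.1, fun i k hk => ?_⟩
    rcases Nat.lt_or_ge (N + 1) k with h | h
    · exact hf.2 i k h
    · have hk' : k = N + 1 := by omega
      subst hk'
      exact hd i
  | succ e ihe =>
    intro f hf hd
    obtain ⟨g, hg, hgf⟩ := h11 A P d c hI (N + 1) f hf
    obtain ⟨he1, he2⟩ := h12.euler P hdet (N + 1) (by omega) e f g hd hgf
    have hg' : ∀ i, g i ∈ BP P := fun i => ihe (g i) (hg i) (he1 i)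
    have hrem : C ((e : ℂ) + 1) * f - ∑ i, jet (N + 1) (P i) * g i ∈ BP P := by
      refine ihe _ ?_ he2
      refine ha14_AN_sub _ _ _ (ha14_AN_mul _ _ _ (ha14_AN_C _ _) hf) ?_
      exact ha14_AN_sum _ _ fun i =>
        ha14_AN_mul _ _ _ (ha14_jet_AN h1 h2 h6 P d c hI (N + 1) i) (hg i)
    have hsum : ∑ i, jet (N + 1) (P i) * g i ∈ BP P := by
      refine Subalgebra.sum_mem _ fun i _ => Subalgebra.mul_mem _ ?_ (hg' i)
      exact Algebra.subset_adjoin ⟨N + 1, i, rfl⟩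
    have hC : C ((e : ℂ) + 1) * f ∈ BP P := by
      have h3 := Subalgebra.add_mem _ hrem hsum
      rwa [sub_add_cancel] at h3
    have he : ((e : ℂ) + 1) ≠ 0 := Nat.cast_add_one_ne_zero e
    have h4 : f = (((e : ℂ) + 1)⁻¹) • (C ((e : ℂ) + 1) * f) := by
      rw [smul_eq_C_mul, ← mul_assoc, ← C_mul, inv_mul_cancel₀ he, C_1, one_mul]
    rw [h4]
    exact Subalgebra.smul_mem _ hC _

end

theorem R_HA14 (ι : Type) [Fintype ι] [DecidableEq ι] (h1 : st_HA1 ι) (h2 : st_HA2 ι) (h6 : st_HA6 ι) (h10 : st_HA10 ι) (h11 : st_HA11 ι) (h12 : st_HA12 ι) (h13 : st_HA13 ι) : st_HA14 ι := by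
  intro A P d c hI f hf
  obtain ⟨N, hN⟩ := ha14_ex_level f
  have key : ∀ (N : ℕ) (f : Fock ι), AN A N f → f ∈ BP P := by
    intro N
    induction N with
    | zero => exact fun f hf => ha14_base h1 h6 h13 P d c hI f hf
    | succ N ih =>
      intro f hf
      obtain ⟨e, he⟩ := h12.ex (N + 1) f
      exact ha14_step h1 h2 h6 h10 h11 h12 P d c hI N ih e f hf he
  exact key N f ⟨hf, hN⟩

end WPQ
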