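import Pool.Agent.WPQ.HAD

/-! [WPQ-HA2] algebras of jets -/

set_option autoImplicit false
set_option linter.unusedVariables false

namespace WPQ

open MvPolynomial

private theorem ha2_range (ι : Type) [Fintype ι] [DecidableEq ι] (P : ι → MvPolynomial ι ℂ) :
    BP P = (PhJ P).range := by
  have h : (PhJ P).range =
      Algebra.adjoin ℂ (Set.range fun x : ι × ℕ => jet x.2 (P x.1)) := by
    unfold PhJ
    exact (Algebra.adjoin_range_eq_range_aeval ℂ (fun x : ι × ℕ => jet x.2 (P x.1))).symm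
  rw [h]
  unfold BP
  congr 1
  ext f
  constructor
  · rintro ⟨k, i, hf⟩
    exact ⟨(i, k), hf.symm⟩
  · rintro ⟨x, hx⟩
    exact ⟨x.2, x.1, hx.symm⟩

private theorem ha2_inc (ι : Type) [Fintype ι] [DecidableEq ι] (h1 : st_HA1 ι)
    (P : ι → MvPolynomial ι ℂ) (Q : MvPolynomial ι ℂ) :
    PhJ P (inc0 Q) = inc0 (aeval P Q) := by
  have h : (PhJ P).comp (inc0 : MvPolynomial ι ℂ →ₐ[ℂ] Fock ι) =
      (inc0 : MvPolynomial ι ℂ →ₐ[ℂ] Fock ι).comp (aeval P) := by
    apply MvPolynomial.algHom_ext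
    intro i
    have h0 := h1.zero (P i)
    simp only [AlgHom.comp_apply, aeval_X]
    rw [← h0]
    simp [inc0, PhJ]
  exact DFunLike.congr_fun h Q

private theorem ha2_comp (ι : Type) [Fintype ι] [DecidableEq ι] (h1 : st_HA1 ι)
    (P : ι → MvPolynomial ι ℂ) (Q : MvPolynomial ι ℂ) :
    ∀ k : ℕ, jet k (aeval P Q) ∈ BP P := by
  induction Q using MvPolynomial.induction_on with
  | C a =>
    intro k
    have h : (aeval P (C a : MvPolynomial ι ℂ) : MvPolynomial ι ℂ) = C a := by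
      rw [aeval_C]; rfl
    rw [h, h1.C_]
    split
    · have : (C a : Fock ι) = algebraMap ℂ (Fock ι) a := rfl
      rw [this]
      exact Subalgebra.algebraMap_mem _ _
    · exact Subalgebra.zero_mem _
  | add p q hp hq =>
    intro k
    rw [map_add, h1.add]
    exact Subalgebra.add_mem _ (hp k) (hq k)
  | mul_X p i hp =>
    intro k
    rw [map_mul, h1.mul]
    apply Subalgebra.sum_mem
    intro m hm
    apply Subalgebra.mul_mem _ (hp m)
    rw [aeval_X]
    exact Algebra.subset_adjoin ⟨k - m, i, rfl⟩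

private theorem ha2_yb (ι : Type) [Fintype ι] [DecidableEq ι] (A : Matrix ι ι ℤ) (hA : IsADE A)
    (j i : ι) : rfS A j (yb A j i) = yb A j i := by
  have hd : (A j j : ℂ) = 2 := by rw [hA.diag j]; norm_num
  have hX : rfS A j (X j : MvPolynomial ι ℂ) = -X j := by
    unfold rfS
    rw [aeval_X, hd]
    have : (C (2 : ℂ) : MvPolynomial ι ℂ) = 2 := by
      rw [show (2 : ℂ) = ((2 : ℕ) : ℂ) by norm_num, map_natCast]; norm_num
    rw [this]; ring
  unfold yb
  split
  · rw [map_pow, hX]; ring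
  · rw [map_sub, map_mul, hX]
    have hC : rfS A j (C ((A i j : ℂ) / 2) : MvPolynomial ι ℂ) = C ((A i j : ℂ) / 2) := by
      unfold rfS; rw [aeval_C]; rfl
    rw [hC]
    unfold rfS
    rw [aeval_X]
    have h2 : (C (A i j : ℂ) : MvPolynomial ι ℂ) = C ((A i j : ℂ) / 2) + C ((A i j : ℂ) / 2) := by
      rw [← map_add]; congr 1; ring
    rw [h2]; ring

private theorem ha2_inv (ι : Type) [Fintype ι] [DecidableEq ι] (h1 : st_HA1 ι)
    (A : Matrix ι ι ℤ) (hA : IsADE A) (j : ι) (f : Fock ι) (hf : f ∈ BJ A j) :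
    rfF A j f = f := by
  unfold BJ BP at hf
  induction hf using Algebra.adjoin_induction with
  | mem x hx =>
    obtain ⟨k, i, rfl⟩ := hx
    rw [h1.rf, ha2_yb ι A hA j i]
  | algebraMap r => exact AlgHom.commutes _ _
  | add x y _ _ hx hy => rw [map_add, hx, hy]
  | mul x y _ _ hx hy => rw [map_mul, hx, hy]

theorem R_HA2 (ι : Type) [Fintype ι] [DecidableEq ι] (h1 : st_HA1 ι) : st_HA2 ι :=
  ⟨fun P => ha2_range ι P, fun P Q => ha2_inc ι h1 P Q, fun P Q k => ha2_comp ι h1 P Q k,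
    fun A hA j f hf => ha2_inv ι h1 A hA j f hf⟩

end WPQ
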