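import Pool.Agent.WPQ.HAD

/-! [WPQ-HA3] the chain rule for the highest jets -/

set_option autoImplicit false
set_option linter.unusedVariables false

namespace WPQ

open MvPolynomial

/-- the chain rule for `aeval g`, with the sum over all levels `< M`, for all large `M` -/
private theorem ha3_chain {ι : Type} [Fintype ι] [DecidableEq ι] (g : ι × ℕ → Fock ι)
    (y : ι × ℕ) (F : Fock ι) : ∀ᶠ M in Filter.atTop,
      pderiv y (aeval g F) =
        ∑ m, ∑ n ∈ Finset.range M, aeval g (pderiv (m, n) F) * pderiv y (g (m, n)) := by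
  induction F using MvPolynomial.induction_on with
  | C a =>
    refine Filter.Eventually.of_forall fun M => ?_
    have h1 : pderiv y (aeval g (C a : Fock ι)) = 0 := by
      rw [aeval_C]
      exact pderiv_C
    rw [h1]
    refine (Finset.sum_eq_zero fun m _ => Finset.sum_eq_zero fun n _ => ?_).symm
    rw [pderiv_C, map_zero, zero_mul]
  | add p q hp hq =>
    filter_upwards [hp, hq] with M h1 h2
    rw [map_add, map_add, h1, h2, ← Finset.sum_add_distrib]
    refine Finset.sum_congr rfl fun m _ => ?_
    rw [← Finset.sum_add_distrib]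
    refine Finset.sum_congr rfl fun n _ => ?_
    rw [map_add, map_add, add_mul]
  | mul_X p x hp =>
    obtain ⟨m₀, n₀⟩ := x
    filter_upwards [hp, Filter.eventually_gt_atTop n₀] with M h1 h2
    have h3 : ∑ m, ∑ n ∈ Finset.range M,
        aeval g (pderiv (m, n) (p * X (m₀, n₀))) * pderiv y (g (m, n)) =
        (∑ m, ∑ n ∈ Finset.range M,
          aeval g (pderiv (m, n) p) * pderiv y (g (m, n))) * g (m₀, n₀) +
        ∑ m, ∑ n ∈ Finset.range M,
          (if (m, n) = (m₀, n₀) then aeval g p * pderiv y (g (m₀, n₀)) else 0) := by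
      rw [Finset.sum_mul, ← Finset.sum_add_distrib]
      refine Finset.sum_congr rfl fun m _ => ?_
      rw [Finset.sum_mul, ← Finset.sum_add_distrib]
      refine Finset.sum_congr rfl fun n _ => ?_
      rw [Derivation.leibniz, smul_eq_mul, smul_eq_mul, map_add, map_mul, map_mul, aeval_X]
      by_cases h : (m, n) = (m₀, n₀)
      · rw [if_pos h, h, pderiv_X_self, map_one]
        ring
      · rw [if_neg h, pderiv_X_of_ne (Ne.symm h), map_zero]
        ring
    have h4 : ∑ m, ∑ n ∈ Finset.range M,
        (if (m, n) = (m₀, n₀) then aeval g p * pderiv y (g (m₀, n₀)) else 0) =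
        aeval g p * pderiv y (g (m₀, n₀)) := by
      rw [Finset.sum_eq_single m₀, Finset.sum_eq_single n₀, if_pos rfl]
      · intro n _ hn
        exact if_neg fun h => hn (Prod.mk.inj h).2
      · intro h
        exact absurd (Finset.mem_range.mpr h2) h
      · intro m _ hm
        exact Finset.sum_eq_zero fun n _ => if_neg fun h => hm (Prod.mk.inj h).1
      · intro h
        exact absurd (Finset.mem_univ _) h
    rw [h3, h4, map_mul, aeval_X, Derivation.leibniz, smul_eq_mul, smul_eq_mul, h1]
    ring

theorem R_HA3 (ι : Type) [Fintype ι] [DecidableEq ι] (h1 : st_HA1 ι) : st_HA3 ι := by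
  intro P F N k hF
  obtain ⟨M, hM, hNM⟩ := ((ha3_chain (fun x : ι × ℕ => jet x.2 (P x.1)) (k, N) F).and
    (Filter.eventually_gt_atTop N)).exists
  have h2 : PhJ P = aeval fun x : ι × ℕ => jet x.2 (P x.1) := rfl
  rw [h2, hM, Finset.mul_sum]
  refine Finset.sum_congr rfl fun m _ => ?_
  rw [Finset.sum_eq_single N]
  · show _ * pderiv (k, N) (jet N (P m)) = _
    rw [h1.pd, if_pos le_rfl, Nat.sub_self, h1.zero]
    ring
  · intro n _ hn
    rcases lt_or_gt_of_ne hn with h | h
    · show _ * pderiv (k, N) (jet n (P m)) = _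
      rw [h1.le (P m) n k N h, mul_zero]
    · rw [hF m n h, map_zero, zero_mul]
  · intro h
    exact absurd (Finset.mem_range.mpr hNM) h

end WPQ
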