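import Pool.Agent.WPQ.HAD

/-! [WPQ-HA4] algebraic independence of jets -/

set_option autoImplicit false
set_option linter.unusedVariables false

namespace WPQ

open MvPolynomial

/-- `inc0` is injective. -/
theorem ha4_inc0_inj (ι : Type) [Fintype ι] [DecidableEq ι] :
    Function.Injective (inc0 : MvPolynomial ι ℂ →ₐ[ℂ] Fock ι) := by
  have h : Function.Injective (fun i : ι => (i, (0 : ℕ))) := fun i j hij => congrArg Prod.fst hij
  exact rename_injective _ h

/-- A polynomial with vanishing derivatives is constant. -/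
theorem ha4_const {σ : Type} (F : MvPolynomial σ ℂ) (h : ∀ x, pderiv x F = 0) :
    F = C (coeff 0 F) := by
  classical
  ext m
  rw [coeff_C]
  split_ifs with h0
  · rw [← h0]
  · obtain ⟨x, hx⟩ : ∃ x, m x ≠ 0 := by
      by_contra hc
      push Not at hc
      exact h0 (Finsupp.ext fun x => (hc x).symm)
    have h1 := congrArg (coeff (m - Finsupp.single x 1)) (h x)
    rw [coeff_pderiv, coeff_zero] at h1
    have h2 : m - Finsupp.single x 1 + Finsupp.single x 1 = m := by
      ext y
      rw [Finsupp.add_apply, Finsupp.tsub_apply]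
      by_cases hy : x = y
      · subst hy
        rw [Finsupp.single_eq_same]
        omega
      · rw [Finsupp.single_eq_of_ne (Ne.symm hy)]
        omega
    rw [h2] at h1
    rcases mul_eq_zero.1 h1 with h3 | h3
    · exact h3
    · exact absurd h3 (Nat.cast_add_one_ne_zero _)

/-- The step at one level: Cramer's rule for the chain rule `h3`. -/
theorem ha4_key (ι : Type) [Fintype ι] [DecidableEq ι] (h3 : st_HA3 ι)
    (P : ι → MvPolynomial ι ℂ) (hP : (Jac P).det ≠ 0) (F : Fock ι) (N : ℕ) (hF : LeN N F)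
    (h : ∀ k, pderiv (k, N) (PhJ P F) = 0) (m : ι) : PhJ P (pderiv (m, N) F) = 0 := by
  have hdet : ((Jac P).map (inc0 : MvPolynomial ι ℂ →ₐ[ℂ] Fock ι)).det ≠ 0 := by
    have e : ((Jac P).map (inc0 : MvPolynomial ι ℂ →ₐ[ℂ] Fock ι)).det = inc0 ((Jac P).det) := by
      rw [AlgHom.map_det]
      rfl
    rw [e]
    intro h0
    exact hP (ha4_inc0_inj ι (by rw [h0, map_zero]))
  have hv : Matrix.vecMul (fun m => PhJ P (pderiv (m, N) F))
      ((Jac P).map (inc0 : MvPolynomial ι ℂ →ₐ[ℂ] Fock ι)) = 0 := by
    funext k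
    have h1 := h3 P F N k hF
    rw [h k] at h1
    have h2 : (C ((N : ℂ) + 1) : Fock ι) ≠ 0 := by
      rw [Ne, C_eq_zero]
      exact Nat.cast_add_one_ne_zero N
    have h4 := (mul_eq_zero.1 h1.symm).resolve_left h2
    exact h4
  exact congrFun (Matrix.eq_zero_of_vecMul_eq_zero hdet hv) m

/-- Every polynomial has bounded level. -/
theorem ha4_bdd (ι : Type) [Fintype ι] [DecidableEq ι] (F : Fock ι) : ∃ N, LeN N F := by
  refine ⟨F.vars.sup Prod.snd, fun i k hk => ?_⟩
  refine pderiv_eq_zero_of_notMem_vars fun hm => ?_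
  have h1 : k ≤ F.vars.sup Prod.snd := Finset.le_sup (f := Prod.snd) hm
  omega

/-- The support of a derivative. -/
theorem ha4_supp {σ : Type} (F : MvPolynomial σ ℂ) (n : ℕ)
    (h : ∀ m, coeff m F ≠ 0 → m.degree < n + 1) (x : σ) :
    ∀ m, coeff m (pderiv x F) ≠ 0 → m.degree < n := by
  intro m hm
  rw [coeff_pderiv] at hm
  have h1 := h _ (left_ne_zero_of_mul hm)
  rw [map_add, Finsupp.degree_single] at h1
  omega

theorem ha4_inj (ι : Type) [Fintype ι] [DecidableEq ι] (h3 : st_HA3 ι)
    (P : ι → MvPolynomial ι ℂ) (hP : (Jac P).det ≠ 0) (n : ℕ) :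
    ∀ F : Fock ι, (∀ m, coeff m F ≠ 0 → m.degree < n) → PhJ P F = 0 → F = 0 := by
  induction n with
  | zero =>
    intro F hF _
    ext m
    rw [coeff_zero]
    by_contra h
    exact absurd (hF m h) (by omega)
  | succ n ih =>
    intro F hF h0
    have hstep : ∀ N, LeN N F → ∀ m, pderiv (m, N) F = 0 := by
      intro N hN m
      refine ih _ (ha4_supp F n hF _) (ha4_key ι h3 P hP F N hN (fun k => ?_) m)
      rw [h0, map_zero]
    have hall : ∀ N, LeN N F → ∀ x, pderiv x F = 0 := by
      intro N
      induction N with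
      | zero =>
        rintro hN ⟨i, k⟩
        rcases Nat.eq_zero_or_pos k with hk | hk
        · subst hk
          exact hstep 0 hN i
        · exact hN i k hk
      | succ N ihN =>
        intro hN
        refine ihN fun i k hk => ?_
        rcases Nat.lt_or_ge (N + 1) k with h1 | h1
        · exact hN i k h1
        · have h2 : k = N + 1 := by omega
          subst h2
          exact hstep _ hN i
    obtain ⟨N, hN⟩ := ha4_bdd ι F
    have hc := ha4_const F (hall N hN)
    rw [hc] at h0 ⊢
    have h1 : PhJ P (C (coeff 0 F)) = C (coeff 0 F) := by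
      unfold PhJ
      rw [aeval_C]
      rfl
    rw [h1] at h0
    exact h0

theorem ha4_inj' (ι : Type) [Fintype ι] [DecidableEq ι] (h3 : st_HA3 ι)
    (P : ι → MvPolynomial ι ℂ) (hP : (Jac P).det ≠ 0) : Function.Injective (PhJ P) := by
  rw [injective_iff_map_eq_zero]
  intro F hF
  refine ha4_inj ι h3 P hP (F.support.sup (fun m => m.degree) + 1) F (fun m hm => ?_) hF
  have h1 : m.degree ≤ F.support.sup (fun m => m.degree) :=
    Finset.le_sup (f := fun m : (ι × ℕ) →₀ ℕ => m.degree) (mem_support_iff.2 hm)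
  omega

theorem R_HA4 (ι : Type) [Fintype ι] [DecidableEq ι] (h3 : st_HA3 ι) : st_HA4 ι := by
  refine ⟨fun P hP => ha4_inj' ι h3 P hP, fun P hP F N hN => ?_⟩
  have hstep : ∀ M, N < M → LeN M F → ∀ m, pderiv (m, M) F = 0 := by
    intro M hM hF m
    refine ha4_inj' ι h3 P hP ?_
    rw [map_zero]
    exact ha4_key ι h3 P hP F M hF (fun k => hN k M hM) m
  have hall : ∀ d, LeN (N + d) F → LeN N F := by
    intro d
    induction d with
    | zero => exact fun h => h
    | succ d ih =>
      intro h
      refine ih fun i k hk => ?_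
      rcases Nat.lt_or_ge (N + (d + 1)) k with h1 | h1
      · exact h i k h1
      · have h2 : k = N + (d + 1) := by omega
        subst h2
        exact hstep _ (by omega) h i
  obtain ⟨M, hM⟩ := ha4_bdd ι F
  exact hall M fun i k hk => hM i k (by omega)

end WPQ
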