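import Pool.Agent.WPQ.HAD

/-! [WPQ-HA5] Jacobians -/

set_option autoImplicit false
set_option linter.unusedVariables false

namespace WPQ

open MvPolynomial

/-- Chain rule for partial derivatives. -/
theorem ha5_chain (ι : Type) [Fintype ι] [DecidableEq ι] (P : ι → MvPolynomial ι ℂ) (k : ι)
    (Q : MvPolynomial ι ℂ) :
    pderiv k (aeval P Q) = ∑ m, aeval P (pderiv m Q) * pderiv k (P m) := by
  induction Q using MvPolynomial.induction_on with
  | C a =>
    rw [aeval_C]
    have h1 : (algebraMap ℂ (MvPolynomial ι ℂ)) a = C a := rfl
    rw [h1, pderiv_C]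
    symm
    refine Finset.sum_eq_zero fun m _ => ?_
    rw [pderiv_C, map_zero, zero_mul]
  | add p q hp hq =>
    rw [map_add, map_add, hp, hq, ← Finset.sum_add_distrib]
    refine Finset.sum_congr rfl fun m _ => ?_
    rw [map_add, map_add, add_mul]
  | mul_X p i hp =>
    rw [map_mul, aeval_X, pderiv_mul, hp, Finset.sum_mul]
    have h1 : ∀ m, aeval P (pderiv m (p * X i)) * pderiv k (P m) =
        aeval P (pderiv m p) * pderiv k (P m) * P i +
          (if m = i then aeval P p * pderiv k (P m) else 0) := by
      intro m
      rw [pderiv_mul, map_add, map_mul, map_mul, aeval_X]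
      split_ifs with h
      · subst h
        rw [pderiv_X_self, map_one]
        ring
      · rw [pderiv_X_of_ne (Ne.symm h), map_zero]
        ring
    rw [Finset.sum_congr rfl fun m _ => h1 m, Finset.sum_add_distrib,
      Finset.sum_ite_eq' Finset.univ i, if_pos (Finset.mem_univ i)]

theorem R_HA5 (ι : Type) [Fintype ι] [DecidableEq ι] : st_HA5 ι := by
  refine ⟨fun A j => ?_, fun P Q => ?_⟩
  · -- the matrix is `1` plus a matrix whose only nonzero column is `j`
    have hM : Jac (yb A j) = Matrix.updateCol (1 : Matrix ι ι (MvPolynomial ι ℂ)) j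
        (fun i => if i = j then 2 * X j else -C ((A i j : ℂ) / 2)) := by
      funext i k
      rw [Matrix.updateCol_apply]
      unfold Jac yb
      rw [Matrix.of_apply]
      by_cases hk : k = j
      · subst hk
        rw [if_pos rfl]
        split_ifs with hi
        · rw [pderiv_pow, pderiv_X_self]
          ring
        · rw [map_sub, pderiv_X_of_ne hi, pderiv_C_mul, pderiv_X_self]
          ring
      · rw [if_neg hk, Matrix.one_apply]
        by_cases hi : i = j
        · subst hi
          rw [if_pos rfl, if_neg (Ne.symm hk), pderiv_pow, pderiv_X_of_ne (Ne.symm hk)]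
          ring
        · rw [if_neg hi, map_sub, pderiv_C_mul, pderiv_X_of_ne (Ne.symm hk)]
          by_cases hik : i = k
          · subst hik
            rw [if_pos rfl, pderiv_X_self]
            ring
          · rw [if_neg hik, pderiv_X_of_ne hik]
            ring
    rw [hM, ← Matrix.cramer_apply, Matrix.cramer_one]
    simp
  · funext i k
    rw [Matrix.mul_apply]
    unfold Jac
    rw [Matrix.of_apply, ha5_chain]
    rfl

end WPQ
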