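import Pool.Agent.WPQ.HAD

/-! [WPQ-HA6] invariants of s_j -/

set_option autoImplicit false
set_option linter.unusedVariables false

namespace WPQ

open MvPolynomial

/-- The reflection changes the sign of `X j`. -/
theorem ha6_rfS_X {ι : Type} [Fintype ι] [DecidableEq ι] (A : Matrix ι ι ℤ) (hA : IsADE A) (j : ι) :
    rfS A j (X j) = -X j := by
  unfold rfS
  rw [aeval_X, hA.diag j]
  push_cast
  rw [map_ofNat]
  ring

/-- The coordinates `yb A j` are invariant under the reflection. -/
theorem ha6_rfS_yb {ι : Type} [Fintype ι] [DecidableEq ι] (A : Matrix ι ι ℤ) (hA : IsADE A) (j i : ι) :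
    rfS A j (yb A j i) = yb A j i := by
  unfold yb
  by_cases h : i = j
  · rw [if_pos h, map_pow, ha6_rfS_X A hA j]
    ring
  · rw [if_neg h, map_sub, map_mul, ha6_rfS_X A hA j]
    have h1 : rfS A j (X i) = X i - C (A i j : ℂ) * X j := by
      unfold rfS
      rw [aeval_X]
    have h2 : rfS A j (C ((A i j : ℂ) / 2)) = C ((A i j : ℂ) / 2) := by
      unfold rfS
      rw [aeval_C]
      rfl
    have h3 : (C (A i j : ℂ) : MvPolynomial ι ℂ) = C ((A i j : ℂ) / 2) + C ((A i j : ℂ) / 2) := by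
      rw [← C_add]
      congr 1
      ring
    rw [h1, h2, h3]
    ring

/-- Polynomials in the coordinates `yb A j` are invariant under the reflection. -/
theorem ha6_rfS_aeval {ι : Type} [Fintype ι] [DecidableEq ι] (A : Matrix ι ι ℤ) (hA : IsADE A) (j : ι)
    (a : MvPolynomial ι ℂ) : rfS A j (aeval (yb A j) a) = aeval (yb A j) a := by
  have h : (rfS A j).comp (aeval (yb A j)) = aeval (yb A j) := by
    apply MvPolynomial.algHom_ext
    intro i
    rw [AlgHom.comp_apply, aeval_X]
    exact ha6_rfS_yb A hA j i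
  exact DFunLike.congr_fun h a

/-- Every polynomial is `a(yb) + X j * b(yb)`. -/
theorem ha6_decomp {ι : Type} [Fintype ι] [DecidableEq ι] (A : Matrix ι ι ℤ) (j : ι)
    (P : MvPolynomial ι ℂ) : ∃ a b : MvPolynomial ι ℂ, P = aeval (yb A j) a + X j * aeval (yb A j) b := by
  induction P using MvPolynomial.induction_on with
  | C c => exact ⟨C c, 0, by rw [aeval_C, map_zero, mul_zero, add_zero]; rfl⟩
  | add p q hp hq =>
    obtain ⟨a, b, h⟩ := hp
    obtain ⟨a', b', h'⟩ := hq
    refine ⟨a + a', b + b', ?_⟩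
    rw [map_add, map_add, h, h']
    ring
  | mul_X p i hp =>
    obtain ⟨a, b, h⟩ := hp
    have hj : aeval (yb A j) (X j : MvPolynomial ι ℂ) = (X j : MvPolynomial ι ℂ) ^ 2 := by
      rw [aeval_X]
      unfold yb
      rw [if_pos rfl]
    by_cases hi : i = j
    · subst hi
      refine ⟨b * X i, a, ?_⟩
      rw [map_mul, hj, h]
      ring
    · have hi' : aeval (yb A j) (X i : MvPolynomial ι ℂ) = X i - C ((A i j : ℂ) / 2) * X j := by
        rw [aeval_X]
        unfold yb
        rw [if_neg hi]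
      have hc : aeval (yb A j) (C ((A i j : ℂ) / 2) : MvPolynomial ι ℂ) = C ((A i j : ℂ) / 2) := by
        rw [aeval_C]
        rfl
      refine ⟨a * X i + C ((A i j : ℂ) / 2) * b * X j, b * X i + C ((A i j : ℂ) / 2) * a, ?_⟩
      rw [map_add, map_add, map_mul, map_mul, map_mul, map_mul, map_mul, hi', hc, hj]
      conv_lhs => rw [h]
      ring

theorem R_HA6 (ι : Type) [Fintype ι] [DecidableEq ι] (h1 : st_HA1 ι) (h2 : st_HA2 ι) : st_HA6 ι := by
  have h20 : (2 : MvPolynomial ι ℂ) ≠ 0 := two_ne_zero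
  refine ⟨?_, ?_, ?_⟩
  · intro A hA j P hP
    obtain ⟨a, b, h⟩ := ha6_decomp A j P
    refine ⟨a, ?_⟩
    have h3 := hP
    rw [h, map_add, map_mul, ha6_rfS_aeval A hA, ha6_rfS_aeval A hA, ha6_rfS_X A hA] at h3
    have h4 : (2 : MvPolynomial ι ℂ) * (X j * aeval (yb A j) b) = 0 := by
      linear_combination -h3
    rw [h, (mul_eq_zero.1 h4).resolve_left h20, add_zero]
  · intro A hA j P hP
    have h3 := h2.inv A hA j _ hP
    rw [← h1.zero, h1.rf, h1.zero, h1.zero] at h3
    have hinj : Function.Injective (inc0 : MvPolynomial ι ℂ →ₐ[ℂ] Fock ι) := by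
      apply rename_injective
      intro a b hab
      exact (Prod.ext_iff.1 hab).1
    exact hinj h3
  · intro A hA j P hP
    obtain ⟨a, b, h⟩ := ha6_decomp A j P
    have h3 := hP
    rw [h, map_add, map_mul, ha6_rfS_aeval A hA, ha6_rfS_aeval A hA, ha6_rfS_X A hA] at h3
    have h4 : (2 : MvPolynomial ι ℂ) * aeval (yb A j) a = 0 := by
      linear_combination h3
    refine ⟨aeval (yb A j) b, ?_⟩
    rw [h, (mul_eq_zero.1 h4).resolve_left h20, zero_add]

end WPQ
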