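import Pool.Agent.WPQ.HAD

/-! [WPQ-HA7] cancellation -/

set_option autoImplicit false
set_option linter.unusedVariables false
set_option linter.unusedSectionVars false

namespace WPQ

open MvPolynomial

section

variable {ι : Type} [Fintype ι] [DecidableEq ι]

/-- `g` times a power of `X (j,0) ^ 2` is `Φ a + X (j,0) Φ b`. -/
def ha7_D (A : Matrix ι ι ℤ) (j : ι) (g : Fock ι) : Prop :=
  ∃ (m : ℕ) (a b : Fock ι), (X (j, 0) : Fock ι) ^ (2 * m) * g =
    PhJ (yb A j) a + X (j, 0) * PhJ (yb A j) b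

/-- The value of `Φ` at `X (j,0)`. -/
theorem ha7_phi0 (h1 : st_HA1 ι) (A : Matrix ι ι ℤ) (j : ι) :
    PhJ (yb A j) (X (j, 0)) = (X (j, 0) : Fock ι) ^ 2 := by
  unfold PhJ
  rw [aeval_X]
  show jet 0 (yb A j j) = _
  rw [h1.zero]
  unfold yb
  rw [if_pos rfl, map_pow]
  unfold inc0
  rw [rename_X]

/-- Powers of `X (j,0)`. -/
theorem ha7_phi0_pow (h1 : st_HA1 ι) (A : Matrix ι ι ℤ) (j : ι) (m : ℕ) :
    PhJ (yb A j) (X (j, 0) ^ m) = (X (j, 0) : Fock ι) ^ (2 * m) := by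
  rw [map_pow, ha7_phi0 h1, pow_mul]

/-- Constants. -/
theorem ha7_phiC (A : Matrix ι ι ℤ) (j : ι) (c : ℂ) : PhJ (yb A j) (C c) = (C c : Fock ι) := by
  unfold PhJ
  rw [aeval_C]
  rfl

/-- Constants have the property. -/
theorem ha7_C (A : Matrix ι ι ℤ) (j : ι) (c : ℂ) : ha7_D A j (C c) :=
  ⟨0, C c, 0, by rw [ha7_phiC, map_zero, mul_zero, mul_zero, pow_zero, one_mul, add_zero]⟩

/-- Elements of the image of `Φ` have the property. -/
theorem ha7_phi (A : Matrix ι ι ℤ) (j : ι) (a : Fock ι) : ha7_D A j (PhJ (yb A j) a) :=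
  ⟨0, a, 0, by rw [map_zero, mul_zero, mul_zero, pow_zero, one_mul, add_zero]⟩

/-- Closed under sums. -/
theorem ha7_add (h1 : st_HA1 ι) (A : Matrix ι ι ℤ) (j : ι) {g h : Fock ι} (hg : ha7_D A j g) (hh : ha7_D A j h) :
    ha7_D A j (g + h) := by
  obtain ⟨m, a, b, e⟩ := hg
  obtain ⟨m', a', b', e'⟩ := hh
  refine ⟨m + m', X (j, 0) ^ m' * a + X (j, 0) ^ m * a', X (j, 0) ^ m' * b + X (j, 0) ^ m * b', ?_⟩
  rw [map_add, map_add, map_mul, map_mul, map_mul, map_mul, ha7_phi0_pow h1, ha7_phi0_pow h1,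
    mul_add 2 m m', pow_add]
  linear_combination (X (j, 0) : Fock ι) ^ (2 * m') * e + (X (j, 0) : Fock ι) ^ (2 * m) * e'

/-- Closed under products. -/
theorem ha7_mul (h1 : st_HA1 ι) (A : Matrix ι ι ℤ) (j : ι) {g h : Fock ι} (hg : ha7_D A j g) (hh : ha7_D A j h) :
    ha7_D A j (g * h) := by
  obtain ⟨m, a, b, e⟩ := hg
  obtain ⟨m', a', b', e'⟩ := hh
  refine ⟨m + m', a * a' + X (j, 0) * (b * b'), a * b' + b * a', ?_⟩
  rw [map_add, map_add, map_mul, map_mul, map_mul, map_mul, map_mul, ha7_phi0 h1, mul_add 2 m m', pow_add]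
  linear_combination (X (j, 0) : Fock ι) ^ (2 * m') * h * e +
    (PhJ (yb A j) a + X (j, 0) * PhJ (yb A j) b) * e'

/-- Closed under finite sums. -/
theorem ha7_sum (h1 : st_HA1 ι) (A : Matrix ι ι ℤ) (j : ι) {κ : Type} (s : Finset κ) (f : κ → Fock ι)
    (hf : ∀ x ∈ s, ha7_D A j (f x)) : ha7_D A j (∑ x ∈ s, f x) := by
  classical
  induction s using Finset.induction_on with
  | empty =>
    rw [Finset.sum_empty, ← C_0]
    exact ha7_C A j 0
  | insert x s hx ih =>
    rw [Finset.sum_insert hx]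
    exact ha7_add h1 A j (hf x (Finset.mem_insert_self x s)) (ih fun y hy => hf y (Finset.mem_insert_of_mem hy))

/-- Division by `X (j,0)`. -/
theorem ha7_div (h1 : st_HA1 ι) (A : Matrix ι ι ℤ) (j : ι) {g : Fock ι} (hg : ha7_D A j (X (j, 0) * g)) :
    ha7_D A j g := by
  obtain ⟨m, a, b, e⟩ := hg
  refine ⟨m + 1, X (j, 0) * b, a, ?_⟩
  rw [map_mul, ha7_phi0 h1, mul_add 2 m 1, pow_add]
  linear_combination (X (j, 0) : Fock ι) * e

/-- The variables `X (j,k)`. -/
theorem ha7_Xj (h1 : st_HA1 ι) (A : Matrix ι ι ℤ) (j : ι) (k : ℕ) : ha7_D A j (X (j, k)) := by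
  induction k using Nat.strong_induction_on with
  | _ k ih =>
    rcases Nat.eq_zero_or_pos k with rfl | hk
    · exact ⟨0, 0, 1, by rw [map_zero, map_one, mul_one, mul_zero, pow_zero, one_mul, zero_add]⟩
    · apply ha7_div h1
      have hΦ : PhJ (yb A j) (X (j, k)) =
          ∑ i ∈ Finset.range (k + 1), jet i (X j : MvPolynomial ι ℂ) * jet (k - i) (X j) := by
        unfold PhJ
        rw [aeval_X]
        show jet k (yb A j j) = _
        unfold yb
        rw [if_pos rfl, sq, h1.mul]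
      obtain ⟨n, rfl⟩ : ∃ n, k = n + 1 := ⟨k - 1, by omega⟩
      rw [Finset.sum_range_succ, Finset.sum_range_succ'] at hΦ
      simp only [Nat.sub_self, Nat.sub_zero] at hΦ
      rw [h1.X_, h1.X_] at hΦ
      have hs : ha7_D A j (∑ i ∈ Finset.range n, jet (i + 1) (X j : MvPolynomial ι ℂ) * jet (n + 1 - (i + 1)) (X j)) := by
        apply ha7_sum h1
        intro i hi
        rw [Finset.mem_range] at hi
        rw [h1.X_, h1.X_]
        exact ha7_mul h1 A j (ha7_mul h1 A j (ha7_C A j _) (ih _ (by omega)))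
          (ha7_mul h1 A j (ha7_C A j _) (ih _ (by omega)))
      have hc : (2 * ((n : ℂ) + 1 + 1)) ≠ 0 := by
        have h3 : ((n : ℂ) + 1 + 1) = ((n + 2 : ℕ) : ℂ) := by
          push_cast
          ring
        rw [h3]
        exact mul_ne_zero two_ne_zero (Nat.cast_ne_zero.2 (by omega))
      have hfin : (X (j, 0) : Fock ι) * X (j, n + 1) =
          C ((2 * ((n : ℂ) + 1 + 1))⁻¹) * (PhJ (yb A j) (X (j, n + 1)) +
            C (-1) * ∑ i ∈ Finset.range n, jet (i + 1) (X j : MvPolynomial ι ℂ) * jet (n + 1 - (i + 1)) (X j)) := by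
        have h5 : PhJ (yb A j) (X (j, n + 1)) +
            C (-1) * ∑ i ∈ Finset.range n, jet (i + 1) (X j : MvPolynomial ι ℂ) * jet (n + 1 - (i + 1)) (X j) =
            C (2 * ((n : ℂ) + 1 + 1)) * ((X (j, 0) : Fock ι) * X (j, n + 1)) := by
          rw [hΦ]
          simp only [C_mul, C_add, C_neg, C_1, Nat.cast_add, Nat.cast_one, Nat.cast_zero, zero_add,
            show (C (2 : ℂ) : Fock ι) = 2 from rfl]
          ring
        rw [h5, ← mul_assoc, ← C_mul, inv_mul_cancel₀ hc, C_1, one_mul]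
      rw [hfin]
      exact ha7_mul h1 A j (ha7_C A j _) (ha7_add h1 A j (ha7_phi A j _) (ha7_mul h1 A j (ha7_C A j _) hs))

/-- All elements have the property. -/
theorem ha7_all (h1 : st_HA1 ι) (A : Matrix ι ι ℤ) (j : ι) (g : Fock ι) : ha7_D A j g := by
  induction g using MvPolynomial.induction_on with
  | C c => exact ha7_C A j c
  | add p q hp hq => exact ha7_add h1 A j hp hq
  | mul_X p x hp =>
    refine ha7_mul h1 A j hp ?_
    obtain ⟨i, k⟩ := x
    by_cases hi : i = j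
    · rw [hi]
      exact ha7_Xj h1 A j k
    · have hΦ : PhJ (yb A j) (X (i, k)) = C ((k : ℂ) + 1) * X (i, k) -
          C ((A i j : ℂ) / 2) * (C ((k : ℂ) + 1) * X (j, k)) := by
        unfold PhJ
        rw [aeval_X]
        show jet k (yb A j i) = _
        unfold yb
        rw [if_neg hi]
        have h3 : jet k (X i - C ((A i j : ℂ) / 2) * X j : MvPolynomial ι ℂ) =
            jet k (X i) - C ((A i j : ℂ) / 2) * jet k (X j) := by
          unfold jet
          rw [map_sub, map_mul, map_sub]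
          have h4 : jetH (C ((A i j : ℂ) / 2) : MvPolynomial ι ℂ) = PowerSeries.C (C ((A i j : ℂ) / 2)) := by
            unfold jetH
            rw [aeval_C, PowerSeries.algebraMap_apply]
            rfl
          rw [h4, PowerSeries.coeff_C_mul]
        rw [h3, h1.X_, h1.X_]
      have hc : ((k : ℂ) + 1) ≠ 0 := Nat.cast_add_one_ne_zero k
      have hfin : (X (i, k) : Fock ι) = C (((k : ℂ) + 1)⁻¹) * PhJ (yb A j) (X (i, k)) +
          C ((A i j : ℂ) / 2) * X (j, k) := by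
        rw [hΦ, mul_sub, ← mul_assoc, ← C_mul, inv_mul_cancel₀ hc, C_1, one_mul,
          mul_left_comm, ← mul_assoc (C (((k : ℂ) + 1)⁻¹)), ← C_mul, inv_mul_cancel₀ hc, C_1, one_mul]
        ring
      have h5 : ha7_D A j (X (i, k) : Fock ι) := by
        rw [hfin]
        exact ha7_add h1 A j (ha7_mul h1 A j (ha7_C A j _) (ha7_phi A j _))
          (ha7_mul h1 A j (ha7_C A j _) (ha7_Xj h1 A j k))
      exact h5

/-- `inc0` is injective. -/
theorem ha7_inj : Function.Injective (inc0 : MvPolynomial ι ℂ →ₐ[ℂ] Fock ι) := by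
  apply rename_injective
  intro a b hab
  exact (Prod.ext_iff.1 hab).1

/-- If `X (j,0)` divides `inc0 P`, then `X j` divides `P`. -/
theorem ha7_dvd {j : ι} {P : MvPolynomial ι ℂ} (h : (X (j, 0) : Fock ι) ∣ inc0 P) : X j ∣ P := by
  obtain ⟨q, hq⟩ := h
  let r : Fock ι →ₐ[ℂ] MvPolynomial ι ℂ := aeval fun x : ι × ℕ => if x.2 = 0 then X x.1 else 0
  have h1 : r.comp inc0 = AlgHom.id ℂ (MvPolynomial ι ℂ) := by
    apply MvPolynomial.algHom_ext
    intro i
    rw [AlgHom.comp_apply]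
    unfold inc0
    rw [rename_X]
    show r (X (i, 0)) = X i
    show aeval (fun x : ι × ℕ => if x.2 = 0 then (X x.1 : MvPolynomial ι ℂ) else 0) (X (i, 0)) = X i
    rw [aeval_X, if_pos rfl]
  have h2 : r (inc0 P) = P := DFunLike.congr_fun h1 P
  have h3 : r (X (j, 0)) = X j := by
    show aeval (fun x : ι × ℕ => if x.2 = 0 then (X x.1 : MvPolynomial ι ℂ) else 0) (X (j, 0)) = X j
    rw [aeval_X, if_pos rfl]
  refine ⟨r q, ?_⟩
  rw [← h3, ← map_mul, ← hq, h2]

end

theorem R_HA7 (ι : Type) [Fintype ι] [DecidableEq ι] (h1 : st_HA1 ι) (h2 : st_HA2 ι) (h4 : st_HA4 ι) (h5 : st_HA5 ι) : st_HA7 ι := by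
  intro A hA j Q g hQ hg
  have hx0 : (X (j, 0) : Fock ι) ≠ 0 := X_ne_zero _
  have hQ0 : aeval (yb A j) Q ≠ 0 := by
    intro h
    rw [h] at hQ
    exact hQ (dvd_zero _)
  have hG0 : inc0 (aeval (yb A j) Q) ≠ 0 := by
    intro h
    apply hQ0
    apply ha7_inj
    rw [h, map_zero]
  have hG : inc0 (aeval (yb A j) Q) = PhJ (yb A j) (inc0 Q) := (h2.inc (yb A j) Q).symm
  have hrange : ∀ f : Fock ι, f ∈ BJ A j ↔ ∃ a, PhJ (yb A j) a = f := by
    intro f
    show f ∈ BP (yb A j) ↔ _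
    rw [h2.range, AlgHom.mem_range]
  have hGB : inc0 (aeval (yb A j) Q) ∈ BJ A j := (hrange _).2 ⟨_, hG.symm⟩
  have hrX : rfF A j (X (j, 0)) = -X (j, 0) := by
    unfold rfF
    rw [aeval_X]
    show X (j, 0) - C (A j j : ℂ) * X (j, 0) = _
    rw [hA.diag j]
    have h7 : (C (((2 : ℤ) : ℂ)) : Fock ι) = 2 := by
      rw [show (((2 : ℤ) : ℂ)) = 2 by norm_num]
      rfl
    rw [h7]
    ring
  have hrg : rfF A j g = g := by
    have h6 := h2.inv A hA j _ hg
    rw [map_mul, h2.inv A hA j _ hGB] at h6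
    exact mul_left_cancel₀ hG0 h6
  obtain ⟨m, a, b, hab⟩ := ha7_all h1 A j g
  have hΦinv : ∀ f : Fock ι, rfF A j (PhJ (yb A j) f) = PhJ (yb A j) f := fun f =>
    h2.inv A hA j _ ((hrange _).2 ⟨f, rfl⟩)
  have hab2 : (X (j, 0) : Fock ι) ^ (2 * m) * g = PhJ (yb A j) a - X (j, 0) * PhJ (yb A j) b := by
    have h6 := congrArg (rfF A j) hab
    rw [map_mul, map_pow, hrX, hrg, map_add, map_mul, hΦinv, hΦinv, hrX, (even_two_mul m).neg_pow] at h6
    rw [h6]
    ring
  have hXb : (X (j, 0) : Fock ι) * PhJ (yb A j) b = 0 := by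
    have h6 : (2 : Fock ι) * (X (j, 0) * PhJ (yb A j) b) = 0 := by
      linear_combination hab2 - hab
    exact (mul_eq_zero.1 h6).resolve_left (by
      have : (2 : Fock ι) = C 2 := rfl
      rw [this]
      exact (C_ne_zero).2 two_ne_zero)
  rw [hXb, add_zero, ← ha7_phi0_pow h1] at hab
  obtain ⟨h', hh'⟩ := (hrange _).1 hg
  have hdet : (Jac (yb A j)).det ≠ 0 := by
    rw [h5.det]
    exact mul_ne_zero two_ne_zero (X_ne_zero _)
  have hinj := h4.inj (yb A j) hdet
  have key : inc0 Q * a = X (j, 0) ^ m * h' := by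
    apply hinj
    rw [map_mul, map_mul, hh', ← hab, ← hG]
    ring
  have hp : Prime (X (j, 0) : Fock ι) := X_prime
  have hnd : ¬ (X (j, 0) : Fock ι) ∣ inc0 Q := by
    rintro ⟨q, hq⟩
    apply hQ
    apply ha7_dvd
    rw [hG, hq, map_mul, ha7_phi0 h1, sq, mul_assoc]
    exact dvd_mul_right _ _
  obtain ⟨a', ha'⟩ := hp.pow_dvd_of_dvd_mul_left m hnd ⟨h', key⟩
  rw [ha', map_mul] at hab
  have hne : PhJ (yb A j) (X (j, 0) ^ m) ≠ 0 := by
    rw [ha7_phi0_pow h1]
    exact pow_ne_zero _ hx0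
  exact (hrange _).2 ⟨a', (mul_left_cancel₀ hne hab).symm⟩

end WPQ
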