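import Pool.Agent.WPQ.HAD

/-! [WPQ-HA8] roots -/

set_option autoImplicit false
set_option linter.unusedVariables false
set_option linter.unusedSectionVars false

namespace WPQ

open MvPolynomial

section

variable {ι : Type} [Fintype ι] [DecidableEq ι] {A : Matrix ι ι ℤ}

/-- The positive roots form a finite set. -/
private theorem ha8_finite (hA : IsADE A) : {c : ι → ℤ | IsPosRoot A c}.Finite :=
  (bl_finite hA 2).subset fun c hc => le_of_eq hc.2

/-- Membership in the set of positive roots. -/
private theorem ha8_mem (hA : IsADE A) (c : ι → ℤ) : c ∈ posRoots A ↔ IsPosRoot A c := by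
  unfold posRoots
  rw [dif_pos (ha8_finite hA), Set.Finite.mem_toFinset]
  rfl

/-- The linear form of a combination. -/
private theorem ha8_lf_sub (c d : ι → ℤ) (a : ℤ) :
    lf (c - a • d) = lf c - C (a : ℂ) * lf d := by
  unfold lf
  rw [Finset.mul_sum, ← Finset.sum_sub_distrib]
  refine Finset.sum_congr rfl fun i _ => ?_
  have h : ((c - a • d) i : ℤ) = c i - a * d i := by
    rw [Pi.sub_apply, Pi.smul_apply, smul_eq_mul]
  rw [h, Int.cast_sub, Int.cast_mul, C_sub, C_mul]
  ring

/-- The linear form of a simple root. -/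
private theorem ha8_lf_rt (j : ι) : lf (rt j) = X j := by
  unfold lf rt
  rw [Finset.sum_eq_single j]
  · rw [Pi.single_eq_same, Int.cast_one, C_1, one_mul]
  · intro b _ hb
    rw [Pi.single_eq_of_ne hb, Int.cast_zero, C_0, zero_mul]
  · intro h
    exact absurd (Finset.mem_univ j) h

/-- The simple reflection acts on linear forms as on the root lattice. -/
private theorem ha8_lf_refl (hA : IsADE A) (j : ι) (c : ι → ℤ) :
    rfS A j (lf c) = lf (refl A j c) := by
  unfold refl
  rw [ha8_lf_sub, ha8_lf_rt]
  have h1 : (C ((pr A j c : ℤ) : ℂ) : MvPolynomial ι ℂ) =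
      ∑ i, C ((c i : ℤ) : ℂ) * C ((A i j : ℤ) : ℂ) := by
    unfold pr
    rw [Int.cast_sum, map_sum]
    refine Finset.sum_congr rfl fun i _ => ?_
    rw [Int.cast_mul, C_mul, hA.symm j i]
    ring
  rw [h1]
  unfold rfS lf
  rw [map_sum, Finset.sum_mul, ← Finset.sum_sub_distrib]
  refine Finset.sum_congr rfl fun i _ => ?_
  rw [map_mul, aeval_X, algHom_C, algebraMap_eq]
  ring

/-- A simple root is a positive root. -/
private theorem ha8_simple (hA : IsADE A) (j : ι) : IsPosRoot A (rt j) := by
  refine ⟨fun i => ?_, jj1_rt_rt hA j⟩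
  unfold rt
  by_cases h : i = j
  · subst h
    rw [Pi.single_eq_same]
    norm_num
  · rw [Pi.single_eq_of_ne h]

/-- A positive root which is not simple can be lowered by a simple reflection. -/
private theorem ha8_step (hA : IsADE A) (c : ι → ℤ) (hc : IsPosRoot A c)
    (hn : ∀ j, c ≠ rt j) : ∃ j, IsPosRoot A (refl A j c) ∧ ht (refl A j c) < ht c := by
  obtain ⟨h0, h2⟩ := hc
  -- some coordinate `j` contributes positively to the norm
  obtain ⟨j, hj⟩ : ∃ j, 0 < c j * pr A j c := by
    by_contra hcon
    push Not at hcon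
    have h3 : bl A c c ≤ 0 := by
      rw [jj1_bl_eq]
      exact Finset.sum_nonpos fun i _ => hcon i
    omega
  have hcj : 1 ≤ c j := by
    rcases (h0 j).lt_or_eq with h | h
    · omega
    · rw [← h, zero_mul] at hj
      omega
  have hpj : 1 ≤ pr A j c := by
    by_contra hcon
    have h3 : c j * pr A j c ≤ 0 :=
      mul_nonpos_of_nonneg_of_nonpos (h0 j) (by omega)
    omega
  -- the norm of `c - rt j`
  have hne : c + (-1 : ℤ) • rt j ≠ 0 := by
    intro h
    apply hn j
    rw [neg_smul, one_smul, ← sub_eq_add_neg, sub_eq_zero] at h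
    exact h
  have h4 := bl_self_pos hA _ hne
  rw [bl_add_left, jj1_add_right hA, jj1_add_right hA, bl_smul_left, bl_smul_left,
    jj1_smul_right hA, jj1_smul_right hA, jj1_rt_rt hA, bl_symm hA c (rt j), bl_rt hA, h2] at h4
  have h5 : pr A j c = 1 := by omega
  refine ⟨j, ⟨fun i => ?_, ?_⟩, ?_⟩
  · unfold refl
    rw [h5, one_smul, Pi.sub_apply]
    unfold rt
    by_cases h : i = j
    · subst h
      rw [Pi.single_eq_same]
      omega
    · rw [Pi.single_eq_of_ne h, sub_zero]
      exact h0 i
  · rw [bl_refl hA, h2]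
  · have h6 : ht (refl A j c) = ht c - 1 := by
      unfold refl ht
      rw [h5, one_smul]
      have h7 : ∑ i, (rt j : ι → ℤ) i = 1 := by
        unfold rt
        rw [Finset.sum_eq_single j]
        · rw [Pi.single_eq_same]
        · intro b _ hb
          rw [Pi.single_eq_of_ne hb]
        · intro h
          exact absurd (Finset.mem_univ j) h
      calc ∑ i, (c - rt j) i = ∑ i, (c i - rt j i) := rfl
        _ = ∑ i, c i - 1 := by rw [Finset.sum_sub_distrib, h7]
    omega

end

theorem R_HA8 (ι : Type) [Fintype ι] [DecidableEq ι] : st_HA8 ι where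
  mem := fun A hA c => ha8_mem hA c
  simple := fun A hA j => (ha8_mem hA _).2 (ha8_simple hA j)
  lf_refl := fun A hA j c => ha8_lf_refl hA j c
  step := by
    intro A hA c hc
    by_cases h : ∃ j, c = rt j
    · exact Or.inl h
    · push Not at h
      obtain ⟨j, h1, h2⟩ := ha8_step hA c ((ha8_mem hA c).1 hc) h
      exact Or.inr ⟨j, (ha8_mem hA _).2 h1, h2⟩

end WPQ
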