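import Pool.Agent.WPQ.HAD

/-! [WPQ-HA9] the linear forms are primes -/

set_option autoImplicit false
set_option linter.unusedVariables false
set_option linter.unusedSectionVars false

namespace WPQ

open MvPolynomial

/-- A linear form `a X_{s₀} + M`, with `M` free of `X_{s₀}`, is prime: it is the image of `X_{s₀}` under
an algebra automorphism. -/
private theorem ha9_prime {σ : Type} [DecidableEq σ] (s₀ : σ) (a : ℂ) (ha : a ≠ 0)
    (M : MvPolynomial σ ℂ)
    (hM : ∀ q : MvPolynomial σ ℂ, aeval (fun s => if s = s₀ then q else X s) M = M) :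
    Prime (C a * X s₀ + M) := by
  let φ : MvPolynomial σ ℂ →ₐ[ℂ] MvPolynomial σ ℂ :=
    aeval fun s => if s = s₀ then C a * X s₀ + M else X s
  let ψ : MvPolynomial σ ℂ →ₐ[ℂ] MvPolynomial σ ℂ :=
    aeval fun s => if s = s₀ then C a⁻¹ * (X s₀ - M) else X s
  have hφ : ∀ s, φ (X s) = if s = s₀ then C a * X s₀ + M else X s := fun s => aeval_X _ _
  have hψ : ∀ s, ψ (X s) = if s = s₀ then C a⁻¹ * (X s₀ - M) else X s := fun s => aeval_X _ _
  have hφM : φ M = M := hM _
  have hψM : ψ M = M := hM _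
  have hCφ : ∀ c : ℂ, φ (C c) = C c := fun c => φ.commutes c
  have hCψ : ∀ c : ℂ, ψ (C c) = C c := fun c => ψ.commutes c
  have h1 : φ.comp ψ = AlgHom.id ℂ _ := by
    apply MvPolynomial.algHom_ext
    intro s
    rw [AlgHom.comp_apply, hψ]
    split_ifs with h
    · rw [map_mul, map_sub, hφM, hCφ, hφ, if_pos rfl, h]
      rw [add_sub_cancel_right, ← mul_assoc, ← C_mul, inv_mul_cancel₀ ha, C_1, one_mul]
      rfl
    · rw [hφ, if_neg h]
      rfl
  have h2 : ψ.comp φ = AlgHom.id ℂ _ := by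
    apply MvPolynomial.algHom_ext
    intro s
    rw [AlgHom.comp_apply, hφ]
    split_ifs with h
    · rw [map_add, map_mul, hψM, hCψ, hψ, if_pos rfl, h]
      rw [← mul_assoc, ← C_mul, mul_inv_cancel₀ ha, C_1, one_mul, sub_add_cancel]
      rfl
    · rw [hψ, if_neg h]
      rfl
  let e : MvPolynomial σ ℂ ≃ₐ[ℂ] MvPolynomial σ ℂ := AlgEquiv.ofAlgHom φ ψ h1 h2
  have h3 : e (X s₀) = C a * X s₀ + M := by
    have : e (X s₀) = φ (X s₀) := rfl
    rw [this, hφ, if_pos rfl]
  rw [← h3]
  exact (MulEquiv.prime_iff e).2 X_prime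

variable {ι : Type} [Fintype ι] [DecidableEq ι]

/-- The coefficients of `lf c`. -/
private theorem ha9_coeff (c : ι → ℤ) (i : ι) :
    coeff (Finsupp.single i 1) (lf c) = (c i : ℂ) := by
  rw [lf, coeff_sum, Finset.sum_eq_single i]
  · rw [coeff_C_mul, coeff_X, if_pos rfl, mul_one]
  · intro j _ hj
    rw [coeff_C_mul, coeff_X, if_neg, mul_zero]
    intro h
    exact hj ((Finsupp.single_left_injective one_ne_zero) h)
  · intro h
    exact absurd (Finset.mem_univ i) h

/-- Proportional roots with nonnegative coordinates are equal. -/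
private theorem ha9_assoc (A : Matrix ι ι ℤ) (c c' : ι → ℤ) (hc : IsPosRoot A c)
    (hc' : IsPosRoot A c') (h : Associated (lf c) (lf c')) : c = c' := by
  obtain ⟨u, hu⟩ := h
  obtain ⟨t, -, ht⟩ := (MvPolynomial.isUnit_iff_eq_C_of_isReduced).1 u.isUnit
  rw [ht] at hu
  have h1 : ∀ i, (c' i : ℂ) = c i * t := by
    intro i
    rw [← ha9_coeff c' i, ← hu, mul_comm (lf c), coeff_C_mul, ha9_coeff, mul_comm]
  have h2 : (bl A c' c' : ℂ) = bl A c c * t ^ 2 := by
    rw [bl, bl]
    push_cast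
    rw [Finset.sum_mul]
    refine Finset.sum_congr rfl fun i _ => ?_
    rw [Finset.sum_mul]
    refine Finset.sum_congr rfl fun j _ => ?_
    rw [h1 i, h1 j]
    ring
  rw [hc.2, hc'.2] at h2
  have h3 : t ^ 2 = 1 := by
    have : (2 : ℂ) * (t ^ 2 - 1) = 0 := by
      push_cast at h2
      linear_combination -h2
    rcases mul_eq_zero.1 this with h | h
    · norm_num at h
    · exact sub_eq_zero.1 h
  rw [sq] at h3
  rcases mul_self_eq_one_iff.1 h3 with h | h
  · funext i
    have := h1 i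
    rw [h, mul_one] at this
    exact_mod_cast this.symm
  · exfalso
    have h4 : ∀ i, c i = 0 := by
      intro i
      have h5 : c' i = - c i := by
        have := h1 i
        rw [h, mul_neg, mul_one] at this
        exact_mod_cast this
      have := hc.1 i
      have := hc'.1 i
      omega
    have h6 : bl A c c = 0 := by
      rw [bl]
      refine Finset.sum_eq_zero fun i _ => Finset.sum_eq_zero fun j _ => ?_
      rw [h4 i, zero_mul, zero_mul]
    rw [hc.2] at h6
    exact absurd h6 (by norm_num)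

theorem R_HA9 (ι : Type) [Fintype ι] [DecidableEq ι] (h8 : st_HA8 ι) : st_HA9 ι := by
  have hinc : Function.Injective (inc0 : MvPolynomial ι ℂ →ₐ[ℂ] Fock ι) :=
    rename_injective _ fun i j h => congrArg Prod.fst h
  refine ⟨?_, ?_, ?_, ?_⟩
  · intro c hc
    obtain ⟨i₀, hi⟩ := Function.ne_iff.1 hc
    have h1 : lf c = C (c i₀ : ℂ) * X i₀ + ∑ i ∈ Finset.univ.erase i₀, C (c i : ℂ) * X i := by
      rw [lf, Finset.add_sum_erase _ (fun i => C (c i : ℂ) * (X i : MvPolynomial ι ℂ))
        (Finset.mem_univ i₀)]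
    rw [h1]
    refine ha9_prime i₀ _ (by exact_mod_cast hi) _ fun q => ?_
    rw [map_sum]
    refine Finset.sum_congr rfl fun i hi' => ?_
    rw [map_mul, aeval_X, if_neg (Finset.ne_of_mem_erase hi')]
    congr 1
    exact algHom_C _ _
  · intro c hc
    obtain ⟨i₀, hi⟩ := Function.ne_iff.1 hc
    have h1 : inc0 (lf c) = C (c i₀ : ℂ) * X (i₀, 0) +
        ∑ i ∈ Finset.univ.erase i₀, C (c i : ℂ) * (X (i, 0) : Fock ι) := by
      rw [Finset.add_sum_erase _ (fun i => C (c i : ℂ) * (X (i, 0) : Fock ι)) (Finset.mem_univ i₀), lf,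
        map_sum]
      refine Finset.sum_congr rfl fun i _ => ?_
      rw [map_mul, inc0, rename_X, rename_C]
    rw [h1]
    refine ha9_prime (i₀, 0) _ (by exact_mod_cast hi) _ fun q => ?_
    rw [map_sum]
    refine Finset.sum_congr rfl fun i hi' => ?_
    rw [map_mul, aeval_X, if_neg]
    · congr 1
      exact algHom_C _ _
    · intro h
      exact (Finset.ne_of_mem_erase hi') (congrArg Prod.fst h)
  · intro A hA c hc c' hc' h
    exact ha9_assoc A c c' ((h8.mem A hA c).1 hc) ((h8.mem A hA c').1 hc') h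
  · intro A hA c hc c' hc' h
    refine ha9_assoc A c c' ((h8.mem A hA c).1 hc) ((h8.mem A hA c').1 hc') ?_
    obtain ⟨u, hu⟩ := h
    obtain ⟨t, ht0, ht⟩ := (MvPolynomial.isUnit_iff_eq_C_of_isReduced).1 u.isUnit
    rw [ht] at hu
    have h1 : inc0 (C t : MvPolynomial ι ℂ) = C t := by
      rw [inc0, rename_C]
    rw [← h1, ← map_mul] at hu
    have h2 := hinc hu
    rw [← h2]
    have h3 : IsUnit (C t : MvPolynomial ι ℂ) := ht0.map C
    exact ⟨h3.unit, rfl⟩

end WPQ
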