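import Pool.Agent.WPQ.R_HA1
import Pool.Agent.WPQ.R_HA2
import Pool.Agent.WPQ.R_HA3
import Pool.Agent.WPQ.R_HA4
import Pool.Agent.WPQ.R_HA5
import Pool.Agent.WPQ.R_HA6
import Pool.Agent.WPQ.R_HA7
import Pool.Agent.WPQ.R_HA8
import Pool.Agent.WPQ.R_HA9
import Pool.Agent.WPQ.R_HA10
import Pool.Agent.WPQ.R_HA11
import Pool.Agent.WPQ.R_HA12
import Pool.Agent.WPQ.R_HA13
import Pool.Agent.WPQ.R_HA14

/-!
# [WPQ-HA] Jets of invariants: the Hartogs theorem for jets (assembly)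
-/

namespace WPQ

open MvPolynomial

theorem HA1 (ι : Type) [Fintype ι] [DecidableEq ι] : st_HA1 ι := R_HA1 ι

theorem HA2 (ι : Type) [Fintype ι] [DecidableEq ι] : st_HA2 ι := R_HA2 ι (HA1 ι)

theorem HA3 (ι : Type) [Fintype ι] [DecidableEq ι] : st_HA3 ι := R_HA3 ι (HA1 ι)

theorem HA4 (ι : Type) [Fintype ι] [DecidableEq ι] : st_HA4 ι := R_HA4 ι (HA3 ι)

theorem HA5 (ι : Type) [Fintype ι] [DecidableEq ι] : st_HA5 ι := R_HA5 ι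

theorem HA6 (ι : Type) [Fintype ι] [DecidableEq ι] : st_HA6 ι := R_HA6 ι (HA1 ι) (HA2 ι)

theorem HA7 (ι : Type) [Fintype ι] [DecidableEq ι] : st_HA7 ι :=
  R_HA7 ι (HA1 ι) (HA2 ι) (HA4 ι) (HA5 ι)

theorem HA8 (ι : Type) [Fintype ι] [DecidableEq ι] : st_HA8 ι := R_HA8 ι

theorem HA9 (ι : Type) [Fintype ι] [DecidableEq ι] : st_HA9 ι := R_HA9 ι (HA8 ι)

theorem HA10 (ι : Type) [Fintype ι] [DecidableEq ι] : st_HA10 ι := R_HA10 ι (HA8 ι) (HA9 ι)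

theorem HA11 (ι : Type) [Fintype ι] [DecidableEq ι] : st_HA11 ι :=
  R_HA11 ι (HA1 ι) (HA2 ι) (HA3 ι) (HA4 ι) (HA5 ι) (HA6 ι) (HA7 ι) (HA10 ι)

theorem HA12 (ι : Type) [Fintype ι] [DecidableEq ι] : st_HA12 ι := R_HA12 ι (HA1 ι)

theorem HA13 (ι : Type) [Fintype ι] [DecidableEq ι] : st_HA13 ι := R_HA13 ι (HA6 ι) (HA10 ι)

/-- The Hartogs theorem for jets: the intersection of the algebras `B_j` is generated by the jets of
the basic invariants. -/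
theorem HA14 (ι : Type) [Fintype ι] [DecidableEq ι] : st_HA14 ι :=
  R_HA14 ι (HA1 ι) (HA2 ι) (HA6 ι) (HA10 ι) (HA11 ι) (HA12 ι) (HA13 ι)

end WPQ
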