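import Pool.Agent.WPQ.VA3

/-! [WPQ-VA4] Weights and charges of modes.

Plan.  `mem_Vn_iff`: every `v` is a finite sum of elements of the `Vn A p k` (look for the
existing decomposition lemmas near `Vn_comp`, `W_span`, `single_mem_Vn`, `isHomog_of_mem`); `LS 0` acts on
`Vn k` by `k` (`LS_zero_Vn`), and eigenvectors for different eigenvalues are independent.
`mode_Vn`: `LS_zero_mode` and `mem_Vn_iff`.  `mode_Wn`: with `W_closed`.
`mode_charge`: for `h : ι → ℂ` let `J = heisMode A p h 0`; `J (single γ f) = form A p h (toC γ) • single γ f`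
(`heis` at `n = 0`).  `[J, mode u s] = mode (J u) s`: `J = mode ε (h(-1)vac) 0`, with
`h(-1)vac = single 0 (osc h 0)` (`mode_eq`: `heisMode A p h` is its vertex operator: `isFld_hS`,
`loc_hS_expS`, `loc_hS_hS`, `cov_hS`, `hS_vac_nonneg`, `hS_zero`), `mode_prodN` with `n = 0`.  A vector `v` is in
`supported {γ}` iff `J_h v = form A p h (toC γ) • v` for `h = bb i`, all `i` (the matrix `p A` is
invertible: `jj1_det`; two different charges are separated by some `form A p (bb i) _`).
`mode_sum_charge`: `v = ∑_{γ} single γ (v γ)`. -/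

namespace WPQ

open MvPolynomial AF

noncomputable section

variable {ι : Type} [Fintype ι] [DecidableEq ι] {A : Matrix ι ι ℤ} {p : ℕ}

/-! ### helper lemmas -/

omit [DecidableEq ι] in
theorem va4_mem_supp (γ : ι → ℤ) (x : VL ι) (h : ∀ δ, δ ≠ γ → x δ = 0) :
    x ∈ Finsupp.supported (Fock ι) ℂ {γ} := by
  rw [Finsupp.mem_supported]
  intro δ hδ
  rw [Set.mem_singleton_iff]
  by_contra hne
  exact (Finsupp.mem_support_iff.1 hδ) (h δ hne)

omit [Fintype ι] [DecidableEq ι] in
theorem va4_supp (γ : ι → ℤ) (x : VL ι) (h : x ∈ Finsupp.supported (Fock ι) ℂ {γ}) (δ : ι → ℤ)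
    (hδ : δ ≠ γ) : x δ = 0 := by
  rw [Finsupp.mem_supported] at h
  by_contra hne
  exact hδ (Set.mem_singleton_iff.1 (h (Finsupp.mem_support_iff.2 hne)))

omit [DecidableEq ι] in
theorem va4_supp_single (γ : ι → ℤ) (x : VL ι) (h : x ∈ Finsupp.supported (Fock ι) ℂ {γ}) :
    x = Finsupp.single γ (x γ) := by
  classical
  refine Finsupp.ext fun δ => ?_
  by_cases hδ : δ = γ
  · subst hδ
    rw [Finsupp.single_eq_same]
  · rw [va4_supp γ x h δ hδ, Finsupp.single_apply, if_neg (Ne.symm hδ)]

/-- the Euler operator commutes with the components -/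
theorem va4_comp_Lop (s : ι → ℂ) (d : ℕ) (f : Fock ι) :
    weightedHomogeneousComponent (wF (ι := ι)) d (Lop A p s 0 f) =
      ((d : ℂ) + (1 / 2 : ℂ) * form A p s s - form A p (bg A p) s) •
        weightedHomogeneousComponent (wF (ι := ι)) d f := by
  have hd : ∀ (m : (ι × ℕ) →₀ ℕ) (c : ℂ), FH (monomial m c)
      (Finsupp.weight (wF (ι := ι)) m) := fun m c =>
    isWeightedHomogeneous_monomial _ _ _ rfl
  induction f using MvPolynomial.induction_on' with
  | monomial m c =>
    rw [Lop_zero_homog A p s _ _ (hd m c), map_smul]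
    by_cases h : Finsupp.weight (wF (ι := ι)) m = d
    · rw [h]
    · rw [(hd m c).weightedHomogeneousComponent_ne d (Ne.symm h), smul_zero,
        smul_zero]
  | add f g hf hg => rw [map_add, map_add, hf, hg, map_add, smul_add]

theorem va4_heis_zero (h : ι → ℂ) (x : VL ι) (γ : ι → ℤ) :
    (heisMode A p h 0 x) γ = form A p h (toC γ) • x γ := by
  induction x using Finsupp.induction_linear with
  | zero => rw [map_zero, Finsupp.zero_apply, smul_zero]
  | add f g hf hg => rw [map_add, Finsupp.add_apply, hf, hg, Finsupp.add_apply, smul_add]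
  | single η f =>
    rw [fl3_heis_single]
    have e : heis A p h 0 (toC η) f = form A p h (toC η) • f := by
      unfold heis
      rw [if_neg (lt_irrefl _), if_pos rfl]
      rfl
    rw [e, Finsupp.single_apply, Finsupp.single_apply]
    by_cases hη : η = γ
    · rw [if_pos hη, if_pos hη, hη]
    · rw [if_neg hη, if_neg hη, smul_zero]

/-- the vertex operator of `h(-1)1` -/
theorem va4_mode_heis (hA : IsADE A) (hp : 1 ≤ p) (ε : Cocycle A p) (h : ι → ℂ) :
    mode ε (Finsupp.single 0 (osc h 0)) = heisMode A p h := by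
  refine mode_eq ε _ _ ⟨?_, ?_, ?_, ?_, ?_, ?_⟩
  · have h1 := isFld_hS (Shift.zero A p) h
    intro v
    obtain ⟨N, hN⟩ := h1 v
    refine ⟨N, fun n hn => ?_⟩
    rw [← hS_zero]
    exact hN n hn
  · intro γ
    have h1 := (loc_hS_expS hA.symm ε (Shift.zero A p) h γ)
    have h2 := h1.symm
    refine ⟨1, fun m n => ?_⟩
    have h3 := h2 m n
    simp only [hS_zero, expS_zero] at h3
    exact h3
  · intro h'
    refine ⟨2, fun m n => ?_⟩
    have h3 := loc_hS_hS hA.symm (Shift.zero A p) h h' m n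
    simp only [hS_zero] at h3
    exact h3
  · intro n
    have h1 := cov_hS hA hp (Shift.zero A p) h n
    rw [LS_zero_neg_one] at h1
    simp only [hS_zero] at h1
    exact h1
  · intro n hn
    rw [← hS_zero]
    exact hS_vac_nonneg h n hn
  · rw [vac, fl3_heis_single]
    unfold heis
    rw [if_pos (by norm_num)]
    simp

theorem va4_form_nondeg (hA : IsADE A) (hp : 1 ≤ p) (v : ι → ℤ)
    (h : ∀ i, form A p (bb i) (toC v) = 0) : v = 0 := by
  by_contra hv
  apply jj1_det hA
  refine Matrix.exists_mulVec_eq_zero_iff.1 ⟨v, hv, ?_⟩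
  funext i
  have h1 := h i
  unfold form bb toC at h1
  have hp' : (p : ℂ) ≠ 0 := Nat.cast_ne_zero.2 (by omega)
  have h2 := (mul_eq_zero.1 h1).resolve_left hp'
  rw [Finset.sum_eq_single i] at h2
  · simp only [Pi.single_eq_same, one_mul] at h2
    rw [Matrix.mulVec, Pi.zero_apply]
    unfold dotProduct
    exact_mod_cast h2
  · intro j _ hj
    simp [Pi.single_eq_of_ne hj]
  · intro hi
    exact absurd (Finset.mem_univ i) hi

theorem va4_charge_iff (h : ι → ℂ) (γ : ι → ℤ) (x : VL ι)
    (hx : x ∈ Finsupp.supported (Fock ι) ℂ {γ}) :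
    heisMode A p h 0 x = form A p h (toC γ) • x := by
  refine Finsupp.ext fun δ => ?_
  rw [va4_heis_zero, Finsupp.smul_apply]
  by_cases hδ : δ = γ
  · rw [hδ]
  · rw [va4_supp γ x hx δ hδ, smul_zero, smul_zero]

/-- `[h(0), u_s] = (h(0)u)_s` -/
theorem va4_heis_mode (hA : IsADE A) (hp : 1 ≤ p) (ε : Cocycle A p) (h : ι → ℂ) (u w : VL ι)
    (s : ℤ) : heisMode A p h 0 (mode ε u s w) =
      mode ε (heisMode A p h 0 u) s w + mode ε u s (heisMode A p h 0 w) := by
  have h1 := mode_prodN hA hp ε (Finsupp.single 0 (osc h 0)) u 0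
  rw [va4_mode_heis hA hp ε h] at h1
  have h2 := congrFun h1 s
  have h3 := LinearMap.congr_fun h2 w
  simp only [prodN, Finset.sum_range_succ, Finset.sum_range_zero] at h3
  simp at h3
  rw [h3]
  abel

theorem va4_LS_comp (k : ℤ) (w : VL ι) (γ : ι → ℤ) :
    Finsupp.single γ ((LS (Shift.zero A p) k w) γ) =
      LS (Shift.zero A p) k (Finsupp.single γ (w γ)) := by
  induction w using Finsupp.induction_linear with
  | zero => simp
  | add f g hf hg =>
    rw [map_add, Finsupp.add_apply, Finsupp.single_add, hf, hg, Finsupp.add_apply,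
      Finsupp.single_add, map_add]
  | single δ f =>
    rw [fl5_LS_single]
    by_cases hδ : δ = γ
    · subst hδ
      rw [Finsupp.single_eq_same, Finsupp.single_eq_same, fl5_LS_single]
    · rw [Finsupp.single_apply, if_neg hδ, Finsupp.single_apply, if_neg hδ, Finsupp.single_zero,
        map_zero]

theorem mem_Vn_iff (hA : IsADE A) (hp : 1 ≤ p) (n : ℤ) (v : VL ι) :
    v ∈ Vn A p n ↔ LS (Shift.zero A p) 0 v = (n : ℂ) • v := by
  refine ⟨fun h => LS_zero_Vn hA hp n v h, fun h => ?_⟩
  refine vp2_mem_of_comp _ v fun γ => vp2_single_mem _ γ (v γ) fun d => ?_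
  have h1 : Lop A p (toC γ) 0 (v γ) = (n : ℂ) • v γ := by
    have h2 := va4_LS_comp (A := A) (p := p) 0 v γ
    rw [h, fl5_LS_single, fl2_zero_s, zero_add, Finsupp.smul_apply] at h2
    exact (Finsupp.single_injective γ h2).symm
  have h3 := va4_comp_Lop (A := A) (p := p) (toC γ) d (v γ)
  rw [h1, map_smul, add_sub_assoc, ← wtExp_eq hA hp γ] at h3
  have h4 : ((n : ℂ) - ((d : ℂ) + (wtExp A p γ : ℂ))) •
      weightedHomogeneousComponent (wF (ι := ι)) d (v γ) = 0 := by
    rw [sub_smul, h3, sub_self]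
  rcases smul_eq_zero.1 h4 with h5 | h5
  · refine single_mem_Vn γ _ d (weightedHomogeneousComponent_isWeightedHomogeneous _ _) n ?_
    have h6 : ((d : ℤ) : ℂ) + ((wtExp A p γ : ℤ) : ℂ) = ((n : ℤ) : ℂ) := by
      push_cast
      linear_combination -h5
    exact_mod_cast h6
  · rw [h5, Finsupp.single_zero]
    exact Submodule.zero_mem _

theorem mode_Vn (hA : IsADE A) (hp : 1 ≤ p) (ε : Cocycle A p) (m j s : ℤ) (u w : VL ι)
    (hu : u ∈ Vn A p m) (hw : w ∈ Vn A p j) : mode ε u s w ∈ Vn A p (m + j - s - 1) := by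
  rw [mem_Vn_iff hA hp]
  have h1 := LS_zero_Vn hA hp m u hu
  have h2 := LS_zero_Vn hA hp j w hw
  have h3 := LinearMap.congr_fun (LS_zero_mode hA hp ε u (m : ℂ) h1 s) w
  rw [LinearMap.sub_apply, LinearMap.comp_apply, LinearMap.comp_apply, h2, map_smul,
    LinearMap.smul_apply, sub_eq_iff_eq_add] at h3
  rw [h3, ← add_smul]
  congr 1
  push_cast
  ring

theorem mode_Wn (hA : IsADE A) (hp : 2 ≤ p) (ε : Cocycle A p) (m j s : ℤ) (u w : VL ι)
    (hu : u ∈ Wn A p m) (hw : w ∈ Wn A p j) : mode ε u s w ∈ Wn A p (m + j - s - 1) := by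
  exact ⟨W_closed hA hp ε u w hu.1 hw.1 s,
    mode_Vn hA (by omega) ε m j s u w hu.2 hw.2⟩

/-- Modes add charges. -/
theorem mode_charge (hA : IsADE A) (hp : 1 ≤ p) (ε : Cocycle A p) (α β : ι → ℤ) (s : ℤ)
    (u w : VL ι) (hu : u ∈ Finsupp.supported (Fock ι) ℂ {α})
    (hw : w ∈ Finsupp.supported (Fock ι) ℂ {β}) :
    mode ε u s w ∈ Finsupp.supported (Fock ι) ℂ {α + β} := by
  refine va4_mem_supp _ _ fun δ hδ => ?_
  by_contra hne
  apply hδ
  have key : ∀ h : ι → ℂ, form A p h (toC δ) = form A p h (toC α) + form A p h (toC β) := by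
    intro h
    have h1 := va4_heis_mode hA hp ε h u w s
    rw [va4_charge_iff h α u hu, va4_charge_iff h β w hw, mode_smul hA hp, map_smul,
      LinearMap.smul_apply, ← add_smul] at h1
    have h2 := DFunLike.congr_fun h1 δ
    rw [va4_heis_zero, Finsupp.smul_apply] at h2
    have h3 : (form A p h (toC δ) - (form A p h (toC α) + form A p h (toC β))) •
        (mode ε u s w) δ = 0 := by
      rw [sub_smul, h2, sub_self]
    exact sub_eq_zero.1 ((smul_eq_zero.1 h3).resolve_right hne)
  have h4 : δ - (α + β) = 0 := by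
    refine va4_form_nondeg hA hp _ fun i => ?_
    have h5 := key (bb i)
    have h6 : ∀ x y z : ι → ℤ, form A p (bb i) (toC x) = form A p (bb i) (toC y) +
        form A p (bb i) (toC z) → form A p (bb i) (toC (x - (y + z))) = 0 := by
      intro x y z hxyz
      unfold form toC at hxyz ⊢
      rw [← sub_eq_zero] at hxyz
      rw [← hxyz, ← mul_add, ← mul_sub, ← Finset.sum_add_distrib, ← Finset.sum_sub_distrib]
      congr 1
      refine Finset.sum_congr rfl fun a _ => ?_
      rw [← Finset.sum_add_distrib, ← Finset.sum_sub_distrib]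
      refine Finset.sum_congr rfl fun b _ => ?_
      rw [Pi.sub_apply, Pi.add_apply]
      push_cast
      ring
    exact h6 _ _ _ h5
  exact sub_eq_zero.1 h4

/-- For `u` of charge `0` the modes preserve charges. -/
theorem mode_comp (hA : IsADE A) (hp : 1 ≤ p) (ε : Cocycle A p) (s : ℤ) (u w : VL ι)
    (hu : u ∈ Finsupp.supported (Fock ι) ℂ {0}) (γ : ι → ℤ) :
    Finsupp.single γ ((mode ε u s w) γ) = mode ε u s (Finsupp.single γ (w γ)) := by
  induction w using Finsupp.induction_linear with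
  | zero => simp
  | add f g hf hg =>
    rw [map_add, Finsupp.add_apply, Finsupp.single_add, hf, hg, Finsupp.add_apply,
      Finsupp.single_add, map_add]
  | single δ f =>
    have hs : Finsupp.single δ f ∈ Finsupp.supported (Fock ι) ℂ {δ} :=
      va4_mem_supp _ _ fun η hη => by
        rw [Finsupp.single_apply, if_neg (Ne.symm hη)]
    have h1 := mode_charge hA hp ε 0 δ s u _ hu hs
    rw [zero_add] at h1
    by_cases hδ : δ = γ
    · subst hδ
      rw [Finsupp.single_eq_same, ← va4_supp_single _ _ h1]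
    · rw [va4_supp δ _ h1 γ (Ne.symm hδ), Finsupp.single_apply, if_neg hδ, Finsupp.single_zero,
        map_zero]

theorem LS_comp (k : ℤ) (w : VL ι) (γ : ι → ℤ) :
    Finsupp.single γ ((LS (Shift.zero A p) k w) γ) =
      LS (Shift.zero A p) k (Finsupp.single γ (w γ)) := by
  exact va4_LS_comp k w γ

end

end WPQ
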