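import Pool.Agent.WPQ.Ops

/-! [WPQ-FL7] Existence of a cocycle.

Plan.  Choose a linear order on `ι` (`Fintype.equivFin`, or `LinearOrder` through an injection into `ℕ`).
`B(γ,η) = p * (∑_{i<j} γ_i A_ij η_j + ∑_i γ_i η_i)` is bilinear and
`B(γ,η) + B(η,γ) = formZ γ η` (`A_ii = 2`, symmetry).  `ε = Int.negOnePow ∘ B`
(`Int.negOnePow_add`). -/

namespace WPQ

open MvPolynomial

noncomputable section

variable {ι : Type} [Fintype ι] [DecidableEq ι]

/-- the upper triangular half of `A` -/
def fl7_U (A : Matrix ι ι ℤ) (i j : ι) : ℤ :=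
  if Fintype.equivFin ι i < Fintype.equivFin ι j then A i j else if i = j then 1 else 0

theorem fl7_U_add (A : Matrix ι ι ℤ) (hA : IsADE A) (i j : ι) :
    fl7_U A i j + fl7_U A j i = A i j := by
  unfold fl7_U
  by_cases hij : i = j
  · subst hij
    rw [if_neg (lt_irrefl _), if_pos rfl, hA.diag]
    rfl
  · have hne : Fintype.equivFin ι i ≠ Fintype.equivFin ι j := fun h =>
      hij ((Fintype.equivFin ι).injective h)
    rcases lt_or_gt_of_ne hne with h | h
    · rw [if_pos h, if_neg (not_lt.2 h.le), if_neg (fun h' => hij h'.symm), add_zero]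
    · rw [if_neg (not_lt.2 h.le), if_neg hij, if_pos h, zero_add, hA.symm]

theorem cocycle_exists (A : Matrix ι ι ℤ) (hA : IsADE A) (p : ℕ) : Nonempty (Cocycle A p) := by
  refine ⟨⟨fun γ η => Int.negOnePow (p * ∑ i, ∑ j, γ i * fl7_U A i j * η j), ?_, ?_, ?_⟩⟩
  · intro γ γ' η
    rw [← Int.negOnePow_add, ← mul_add, ← Finset.sum_add_distrib]
    refine congrArg (fun x : ℤ => Int.negOnePow (p * x)) ?_
    refine Finset.sum_congr rfl fun i _ => ?_
    rw [← Finset.sum_add_distrib]
    refine Finset.sum_congr rfl fun j _ => ?_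
    rw [Pi.add_apply]
    ring
  · intro γ η η'
    rw [← Int.negOnePow_add, ← mul_add, ← Finset.sum_add_distrib]
    refine congrArg (fun x : ℤ => Int.negOnePow (p * x)) ?_
    refine Finset.sum_congr rfl fun i _ => ?_
    rw [← Finset.sum_add_distrib]
    refine Finset.sum_congr rfl fun j _ => ?_
    rw [Pi.add_apply]
    ring
  · intro γ η
    rw [← Int.negOnePow_add, ← mul_add]
    refine congrArg (fun x : ℤ => Int.negOnePow (p * x)) ?_
    rw [Finset.sum_comm (f := fun i j => η i * fl7_U A i j * γ j), ← Finset.sum_add_distrib]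
    refine Finset.sum_congr rfl fun i _ => ?_
    rw [← Finset.sum_add_distrib]
    refine Finset.sum_congr rfl fun j _ => ?_
    rw [← fl7_U_add A hA i j]
    ring

end

end WPQ
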