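import Pool.Agent.WPQ.JJ1

/-!
# [WPQ-HA] Jets of invariants: definitions and statements

`R = Fock ι = ℂ[X (i,k)]`, `X (i,k) = b_i(-(k+1))1 / (k+1)`. The arc `x_i(t) = ∑ (k+1) X(i,k) t^k`; for a
polynomial `P` on the Cartan algebra (`P : MvPolynomial ι ℂ`) its jets are the coefficients of
`P(x(t)) = ∑ P^[k] t^k`. `B_j` is the algebra generated by the jets of `b_j²` and of the
`b_i - (A_ij/2) b_j` (`i ≠ j`), i.e. the functions on the jets of `𝔥 // s_j`. The main theorem (`HA`) says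
that the intersection of the `B_j` is generated by the jets of the basic invariants `P_i`.

The statements are the propositions `st_HA..`; the rows prove them from the ones named in the row.
-/

namespace WPQ

open MvPolynomial

noncomputable section

variable {ι : Type} [Fintype ι] [DecidableEq ι]

/-- The arc `x_i(t)`; its coefficients are the vectors `b_i(-(k+1))1`. -/
def arc (i : ι) : PowerSeries (Fock ι) := PowerSeries.mk fun k => C ((k : ℂ) + 1) * X (i, k)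

/-- `P ↦ P(x(t))`. -/
def jetH : MvPolynomial ι ℂ →ₐ[ℂ] PowerSeries (Fock ι) := aeval arc

/-- The jets `P^[k]` of `P`. -/
def jet (k : ℕ) (P : MvPolynomial ι ℂ) : Fock ι := PowerSeries.coeff k (jetH P)

/-- The embedding `P ↦ P^[0]`, `X i ↦ X (i,0)`. -/
def inc0 : MvPolynomial ι ℂ →ₐ[ℂ] Fock ι := rename fun i => (i, 0)

/-- The coordinates `b_j²`, `b_i - (A_ij/2) b_j` of `𝔥 // s_j`. -/
def yb (A : Matrix ι ι ℤ) (j i : ι) : MvPolynomial ι ℂ :=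
  if i = j then X j ^ 2 else X i - C ((A i j : ℂ) / 2) * X j

/-- The pullback along the map `P : 𝔥 → ℂ^ι` on jets: `X (i,k) ↦ P_i^[k]`. -/
def PhJ (P : ι → MvPolynomial ι ℂ) : Fock ι →ₐ[ℂ] Fock ι :=
  aeval fun x : ι × ℕ => jet x.2 (P x.1)

/-- The algebra generated by the jets of the `P_i`. -/
def BP (P : ι → MvPolynomial ι ℂ) : Subalgebra ℂ (Fock ι) :=
  Algebra.adjoin ℂ {f | ∃ (k : ℕ) (i : ι), f = jet k (P i)}

/-- The algebra `B_j = ℂ[J(𝔥 // s_j)]`. -/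
def BJ (A : Matrix ι ι ℤ) (j : ι) : Subalgebra ℂ (Fock ι) := BP (yb A j)

/-- The simple reflection `s_j` on polynomials: `b_i ↦ b_i - A_ij b_j`. -/
def rfS (A : Matrix ι ι ℤ) (j : ι) : MvPolynomial ι ℂ →ₐ[ℂ] MvPolynomial ι ℂ :=
  aeval fun i => X i - C (A i j : ℂ) * X j

/-- The simple reflection `s_j` on jets. -/
def rfF (A : Matrix ι ι ℤ) (j : ι) : Fock ι →ₐ[ℂ] Fock ι :=
  aeval fun x : ι × ℕ => X x - C (A x.1 j : ℂ) * X (j, x.2)

/-- The Jacobian matrix `(∂_k P_i)`. -/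
def Jac (P : ι → MvPolynomial ι ℂ) : Matrix ι ι (MvPolynomial ι ℂ) :=
  Matrix.of fun i k => pderiv k (P i)

/-- Positive roots: vectors of norm `2` of the root lattice with coordinates `≥ 0`. -/
def IsPosRoot (A : Matrix ι ι ℤ) (c : ι → ℤ) : Prop := (∀ i, 0 ≤ c i) ∧ bl A c c = 2

open Classical in
/-- The set of positive roots. -/
def posRoots (A : Matrix ι ι ℤ) : Finset (ι → ℤ) :=
  if h : {c : ι → ℤ | IsPosRoot A c}.Finite then h.toFinset else ∅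

/-- The linear form `∑ c_i b_i`. -/
def lf (c : ι → ℤ) : MvPolynomial ι ℂ := ∑ i, C (c i : ℂ) * X i

/-- The product of the positive roots. -/
def PiA (A : Matrix ι ι ℤ) : MvPolynomial ι ℂ := ∏ c ∈ posRoots A, lf c

/-- `f` involves only the variables `X (i,k)` with `k ≤ N`. -/
def LeN (N : ℕ) (f : Fock ι) : Prop := ∀ (i : ι) (k : ℕ), N < k → pderiv (i, k) f = 0

/-- `f` is in all `B_j` and involves only the variables `X (i,k)` with `k ≤ N`. -/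
def AN (A : Matrix ι ι ℤ) (N : ℕ) (f : Fock ι) : Prop := (∀ j, f ∈ BJ A j) ∧ LeN N f

/-- Basic invariants. -/
structure Inv (A : Matrix ι ι ℤ) (P : ι → MvPolynomial ι ℂ) (d : ι → ℕ) (c : ℂ) : Prop where
  ade : IsADE A
  dpos : ∀ i, 1 ≤ d i
  hom : ∀ i, (P i).IsHomogeneous (d i)
  inv : ∀ i j, rfS A j (P i) = P i
  jac : (Jac P).det = C c * PiA A
  c0 : c ≠ 0

/-- `f` has degree at most `d` in the variables `X (i,N)`. -/
def DegLe (N : ℕ) : ℕ → Fock ι → Prop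
  | 0, f => ∀ i, pderiv (i, N) f = 0
  | d + 1, f => ∀ i, DegLe N d (pderiv (i, N) f)

end

/-! ### statements -/

section

open MvPolynomial

/-- [HA1] Jets. -/
structure st_HA1 (ι : Type) [Fintype ι] [DecidableEq ι] : Prop where
  X_ : ∀ (i : ι) (k : ℕ), jet k (X i) = C ((k : ℂ) + 1) * (X (i, k) : Fock ι)
  C_ : ∀ (c : ℂ) (k : ℕ), jet k (C c : MvPolynomial ι ℂ) = if k = 0 then C c else 0
  add : ∀ (P Q : MvPolynomial ι ℂ) (k : ℕ), jet k (P + Q) = jet k P + jet k Q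
  mul : ∀ (P Q : MvPolynomial ι ℂ) (k : ℕ),
    jet k (P * Q) = ∑ i ∈ Finset.range (k + 1), jet i P * jet (k - i) Q
  zero : ∀ P : MvPolynomial ι ℂ, jet 0 P = inc0 P
  pd : ∀ (P : MvPolynomial ι ℂ) (k : ℕ) (m : ι) (n : ℕ), pderiv (m, n) (jet k P) =
    if n ≤ k then C ((n : ℂ) + 1) * jet (k - n) (pderiv m P) else 0
  le : ∀ (P : MvPolynomial ι ℂ) (k : ℕ), LeN k (jet k P)
  rf : ∀ (A : Matrix ι ι ℤ) (j : ι) (P : MvPolynomial ι ℂ) (k : ℕ),
    rfF A j (jet k P) = jet k (rfS A j P)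

/-- [HA2] Algebras of jets. -/
structure st_HA2 (ι : Type) [Fintype ι] [DecidableEq ι] : Prop where
  range : ∀ P : ι → MvPolynomial ι ℂ, BP P = (PhJ P).range
  inc : ∀ (P : ι → MvPolynomial ι ℂ) (Q : MvPolynomial ι ℂ), PhJ P (inc0 Q) = inc0 (aeval P Q)
  comp : ∀ (P : ι → MvPolynomial ι ℂ) (Q : MvPolynomial ι ℂ) (k : ℕ), jet k (aeval P Q) ∈ BP P
  inv : ∀ (A : Matrix ι ι ℤ), IsADE A → ∀ (j : ι) (f : Fock ι), f ∈ BJ A j → rfF A j f = f

/-- [HA3] The chain rule for the highest jets. -/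
def st_HA3 (ι : Type) [Fintype ι] [DecidableEq ι] : Prop :=
  ∀ (P : ι → MvPolynomial ι ℂ) (F : Fock ι) (N : ℕ) (k : ι), LeN N F →
    pderiv (k, N) (PhJ P F) =
      C ((N : ℂ) + 1) * ∑ m, PhJ P (pderiv (m, N) F) * inc0 (pderiv k (P m))

/-- [HA4] If the Jacobian of the `P_i` is not zero, their jets are algebraically independent. -/
structure st_HA4 (ι : Type) [Fintype ι] [DecidableEq ι] : Prop where
  inj : ∀ P : ι → MvPolynomial ι ℂ, (Jac P).det ≠ 0 → Function.Injective (PhJ P)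
  le : ∀ P : ι → MvPolynomial ι ℂ, (Jac P).det ≠ 0 → ∀ (F : Fock ι) (N : ℕ),
    LeN N (PhJ P F) → LeN N F

/-- [HA5] The Jacobian of the coordinates of `𝔥 // s_j`. -/
structure st_HA5 (ι : Type) [Fintype ι] [DecidableEq ι] : Prop where
  det : ∀ (A : Matrix ι ι ℤ) (j : ι), (Jac (yb A j)).det = 2 * X j
  jac : ∀ (P Q : ι → MvPolynomial ι ℂ),
    Jac (fun i => aeval P (Q i)) = (Jac Q).map (aeval P) * Jac P

/-- [HA6] Invariants of `s_j`. -/
structure st_HA6 (ι : Type) [Fintype ι] [DecidableEq ι] : Prop where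
  inv : ∀ (A : Matrix ι ι ℤ), IsADE A → ∀ (j : ι) (P : MvPolynomial ι ℂ), rfS A j P = P →
    ∃ Q : MvPolynomial ι ℂ, P = aeval (yb A j) Q
  of_BJ : ∀ (A : Matrix ι ι ℤ), IsADE A → ∀ (j : ι) (P : MvPolynomial ι ℂ), inc0 P ∈ BJ A j →
    rfS A j P = P
  skew : ∀ (A : Matrix ι ι ℤ), IsADE A → ∀ (j : ι) (P : MvPolynomial ι ℂ), rfS A j P = -P →
    X j ∣ P

/-- [HA7] Cancellation: elements of `ℂ[𝔥 // s_j]` not divisible by `b_j` can be cancelled. -/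
def st_HA7 (ι : Type) [Fintype ι] [DecidableEq ι] : Prop :=
  ∀ (A : Matrix ι ι ℤ), IsADE A → ∀ (j : ι) (Q : MvPolynomial ι ℂ) (g : Fock ι),
    ¬ (X j ∣ aeval (yb A j) Q) → inc0 (aeval (yb A j) Q) * g ∈ BJ A j → g ∈ BJ A j

/-- [HA8] Roots. -/
structure st_HA8 (ι : Type) [Fintype ι] [DecidableEq ι] : Prop where
  mem : ∀ (A : Matrix ι ι ℤ), IsADE A → ∀ c, c ∈ posRoots A ↔ IsPosRoot A c
  simple : ∀ (A : Matrix ι ι ℤ), IsADE A → ∀ j, rt j ∈ posRoots A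
  lf_refl : ∀ (A : Matrix ι ι ℤ), IsADE A → ∀ j c, rfS A j (lf c) = lf (refl A j c)
  step : ∀ (A : Matrix ι ι ℤ), IsADE A → ∀ c ∈ posRoots A, (∃ j, c = rt j) ∨
    ∃ j, refl A j c ∈ posRoots A ∧ ht (refl A j c) < ht c

/-- [HA9] The linear forms of the positive roots are pairwise different primes. -/
structure st_HA9 (ι : Type) [Fintype ι] [DecidableEq ι] : Prop where
  primeS : ∀ c : ι → ℤ, c ≠ 0 → Prime (lf c)
  primeF : ∀ c : ι → ℤ, c ≠ 0 → Prime (inc0 (lf c))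
  assocS : ∀ (A : Matrix ι ι ℤ), IsADE A → ∀ c ∈ posRoots A, ∀ c' ∈ posRoots A,
    Associated (lf c) (lf c') → c = c'
  assocF : ∀ (A : Matrix ι ι ℤ), IsADE A → ∀ c ∈ posRoots A, ∀ c' ∈ posRoots A,
    Associated (inc0 (lf c)) (inc0 (lf c')) → c = c'

/-- [HA10] Divisibility by the product of the positive roots. -/
structure st_HA10 (ι : Type) [Fintype ι] [DecidableEq ι] : Prop where
  ne : ∀ (A : Matrix ι ι ℤ), IsADE A → PiA A ≠ 0
  dvdF : ∀ (A : Matrix ι ι ℤ), IsADE A → ∀ g : Fock ι, (∀ j, rfF A j g = -g) →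
    (∀ j, X (j, 0) ∣ g) → inc0 (PiA A) ∣ g
  dvdS : ∀ (A : Matrix ι ι ℤ), IsADE A → ∀ g : MvPolynomial ι ℂ, (∀ j, rfS A j g = -g) →
    (∀ j, X j ∣ g) → PiA A ∣ g
  split : ∀ (A : Matrix ι ι ℤ), IsADE A → ∀ j, ∃ R, PiA A = X j * R ∧ ¬ X j ∣ R

/-- [HA11] The main step. -/
def st_HA11 (ι : Type) [Fintype ι] [DecidableEq ι] : Prop :=
  ∀ (A : Matrix ι ι ℤ) (P : ι → MvPolynomial ι ℂ) (d : ι → ℕ) (c : ℂ), Inv A P d c →
    ∀ (N : ℕ) (f : Fock ι), AN A N f → ∃ g : ι → Fock ι, (∀ i, AN A N (g i)) ∧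
      ∀ k, pderiv (k, N) f = C ((N : ℂ) + 1) * ∑ i, g i * inc0 (pderiv k (P i))

/-- [HA12] Degrees in the highest jets. -/
structure st_HA12 (ι : Type) [Fintype ι] [DecidableEq ι] : Prop where
  ex : ∀ (N : ℕ) (f : Fock ι), ∃ d, DegLe N d f
  euler : ∀ (P : ι → MvPolynomial ι ℂ), (Jac P).det ≠ 0 →
    ∀ (N : ℕ), 1 ≤ N → ∀ (e : ℕ) (f : Fock ι) (g : ι → Fock ι), DegLe N (e + 1) f →
      (∀ k, pderiv (k, N) f = C ((N : ℂ) + 1) * ∑ i, g i * inc0 (pderiv k (P i))) →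
      (∀ i, DegLe N e (g i)) ∧
      DegLe N e (C ((e : ℂ) + 1) * f - ∑ i, jet N (P i) * g i)

/-- [HA13] Level `0`: the theorem of Chevalley. -/
def st_HA13 (ι : Type) [Fintype ι] [DecidableEq ι] : Prop :=
  ∀ (A : Matrix ι ι ℤ) (P : ι → MvPolynomial ι ℂ) (d : ι → ℕ) (c : ℂ), Inv A P d c →
    ∀ f : MvPolynomial ι ℂ, (∀ j, rfS A j f = f) → f ∈ Algebra.adjoin ℂ (Set.range P)

/-- [HA14] The Hartogs theorem for jets. -/
def st_HA14 (ι : Type) [Fintype ι] [DecidableEq ι] : Prop :=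
  ∀ (A : Matrix ι ι ℤ) (P : ι → MvPolynomial ι ℂ) (d : ι → ℕ) (c : ℂ), Inv A P d c →
    ∀ f : Fock ι, (∀ j, f ∈ BJ A j) → f ∈ BP P

end

end WPQ
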