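import Pool.Agent.WPQ.VR5
import Pool.Agent.WPQ.HAD
import Pool.Agent.WPQ.FL7

/-! [WPQ-VR6] The symbols of the elements of `ker E_j` lie in `B_j`. -/

namespace WPQ

open MvPolynomial

noncomputable section

variable {ι : Type} [Fintype ι] [DecidableEq ι] {A : Matrix ι ι ℤ} {p : ℕ}

/-- The vector of `ker E_j` with symbol the monomial `u` in the generators. -/
def vrf (hA : IsADE A) (hp : 1 ≤ p) (j : ι) (u : (ι × ℕ) →₀ ℕ) : Fock ι :=
  Classical.choose (vr3_words hA hp j u).2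

theorem vrf_spec (hA : IsADE A) (hp : 1 ≤ p) (j : ι) (u : (ι × ℕ) →₀ ℕ) :
    vop A p (bb j) (-1) (vrf hA hp j u) = 0 ∧ FH (vrf hA hp j u) (Finsupp.weight (vrw j) u) ∧
      LT (Finsupp.weight (vrd j) u) (vrf hA hp j u - aeval (vrg A p j) (monomial u (1 : ℂ))) :=
  Classical.choose_spec (vr3_words hA hp j u).2

/-- The linear map `X^u ↦ f_u`. -/
def vrΦ (hA : IsADE A) (hp : 1 ≤ p) (j : ι) : Fock ι →ₗ[ℂ] Fock ι :=
  (basisMonomials (ι × ℕ) ℂ).constr ℂ (vrf hA hp j)

theorem vrΦ_monomial (hA : IsADE A) (hp : 1 ≤ p) (j : ι) (u : (ι × ℕ) →₀ ℕ) (c : ℂ) :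
    vrΦ hA hp j (monomial u c) = c • vrf hA hp j u := by
  have e : (monomial u c : Fock ι) = c • monomial u 1 := by
    rw [smul_monomial, smul_eq_mul, mul_one]
  rw [e, map_smul]
  congr 1
  have := (basisMonomials (ι × ℕ) ℂ).constr_basis ℂ (vrf hA hp j) u
  rw [coe_basisMonomials] at this
  exact this

theorem vrΦ_apply (hA : IsADE A) (hp : 1 ≤ p) (j : ι) (F : Fock ι) :
    vrΦ hA hp j F = ∑ u ∈ F.support, coeff u F • vrf hA hp j u := by
  conv_lhs => rw [F.as_sum]
  rw [map_sum]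
  exact Finset.sum_congr rfl fun u _ => vrΦ_monomial hA hp j u _

omit [Fintype ι] [DecidableEq ι] in
theorem LT.comp {d : ℕ} {f : Fock ι} (hf : LT d f) : homogeneousComponent d f = 0 := by
  apply homogeneousComponent_eq_zero'
  intro u hu h
  have := hf u (mem_support_iff.1 hu)
  omega

theorem vrf_LT (hA : IsADE A) (hp : 1 ≤ p) (j : ι) (u : (ι × ℕ) →₀ ℕ) :
    LT (Finsupp.weight (vrd j) u + 1) (vrf hA hp j u) := by
  have e : vrf hA hp j u = (vrf hA hp j u - aeval (vrg A p j) (monomial u (1 : ℂ))) +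
    aeval (vrg A p j) (monomial u (1 : ℂ)) := by ring
  rw [e]
  exact ((vrf_spec hA hp j u).2.2.mono (Nat.le_succ _)).add
    (LT.of_homog (vr3_words hA hp j u).1 (Nat.lt_succ_self _))

theorem vrf_top (hA : IsADE A) (hp : 1 ≤ p) (j : ι) (D : ℕ) (u : (ι × ℕ) →₀ ℕ)
    (hu : Finsupp.weight (vrd j) u ≤ D) :
    homogeneousComponent D (vrf hA hp j u) =
      aeval (vrg A p j) (weightedHomogeneousComponent (vrd j) D (monomial u (1 : ℂ))) := by
  have hw : IsWeightedHomogeneous (vrd j) (monomial u (1 : ℂ)) (Finsupp.weight (vrd j) u) :=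
    isWeightedHomogeneous_monomial _ _ _ rfl
  rcases hu.lt_or_eq with h | h
  · rw [hw.weightedHomogeneousComponent_ne D h.ne', map_zero]
    exact ((vrf_LT hA hp j u).mono h).comp
  · rw [← h, weightedHomogeneousComponent_eq_self hw]
    have e : vrf hA hp j u = (vrf hA hp j u - aeval (vrg A p j) (monomial u (1 : ℂ))) +
      aeval (vrg A p j) (monomial u (1 : ℂ)) := by ring
    conv_lhs => rw [e]
    rw [map_add, (vrf_spec hA hp j u).2.2.comp, zero_add,
      homogeneousComponent_eq_self (vr3_words hA hp j u).1]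

theorem vrΦ_LT (hA : IsADE A) (hp : 1 ≤ p) (j : ι) (D : ℕ) (F : Fock ι)
    (hF : ∀ u ∈ F.support, Finsupp.weight (vrd j) u ≤ D) : LT (D + 1) (vrΦ hA hp j F) := by
  rw [vrΦ_apply]
  exact LT.sum _ _ fun u hu => ((vrf_LT hA hp j u).mono (Nat.succ_le_succ (hF u hu))).smul _

theorem vrΦ_top (hA : IsADE A) (hp : 1 ≤ p) (j : ι) (D : ℕ) (F : Fock ι)
    (hF : ∀ u ∈ F.support, Finsupp.weight (vrd j) u ≤ D) :
    homogeneousComponent D (vrΦ hA hp j F) =
      aeval (vrg A p j) (weightedHomogeneousComponent (vrd j) D F) := by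
  rw [vrΦ_apply, map_sum]
  conv_rhs => rw [F.as_sum]
  rw [map_sum, map_sum]
  refine Finset.sum_congr rfl fun u hu => ?_
  have e : (monomial u (coeff u F) : Fock ι) = coeff u F • monomial u 1 := by
    rw [smul_monomial, smul_eq_mul, mul_one]
  rw [map_smul, vrf_top hA hp j D u (hF u hu), e, map_smul, map_smul]

/-- `F ≠ 0`: the symbol of `Φ F`. -/
theorem vrΦ_symbol (hA : IsADE A) (hp : 1 ≤ p) (j : ι) (F : Fock ι) (hF : F ≠ 0) :
    ∃ G : Fock ι, homogeneousComponent (vrΦ hA hp j F).totalDegree (vrΦ hA hp j F) =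
      aeval (vrg A p j) G ∧ vrΦ hA hp j F ≠ 0 := by
  have hs : F.support.Nonempty := by
    rw [Finset.nonempty_iff_ne_empty]
    exact fun h => hF (support_eq_empty.1 h)
  obtain ⟨u0, hu0, hmax⟩ := Finset.exists_max_image F.support
    (fun u => Finsupp.weight (vrd j) u) hs
  set D := Finsupp.weight (vrd j) u0 with hD
  have htop := vrΦ_top hA hp j D F hmax
  have hLT := vrΦ_LT hA hp j D F hmax
  have hne : weightedHomogeneousComponent (vrd j) D F ≠ 0 := by
    intro h
    have h1 := coeff_weightedHomogeneousComponent (w := vrd j) D F u0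
    rw [h, coeff_zero, if_pos hD.symm] at h1
    exact (mem_support_iff.1 hu0) h1.symm
  have hne2 : homogeneousComponent D (vrΦ hA hp j F) ≠ 0 := by
    rw [htop]
    exact fun h => hne (vr4_injective hA hp j _ h)
  have hne3 : vrΦ hA hp j F ≠ 0 := by
    intro h
    rw [h, map_zero] at hne2
    exact hne2 rfl
  have hdeg : (vrΦ hA hp j F).totalDegree = D := by
    apply le_antisymm
    · unfold totalDegree
      refine Finset.sup_le fun u hu => ?_
      have h1 := hLT u (mem_support_iff.1 hu)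
      have h2 : (u.sum fun _ e => e) = Finsupp.degree u := rfl
      rw [h2]
      omega
    · by_contra h
      exact hne2 (homogeneousComponent_eq_zero _ _ (not_le.1 h))
  exact ⟨_, by rw [hdeg, htop], hne3⟩

/-- `Φ` from the monomials of weight `m` to `ker E_j` in weight `m`. -/
theorem vrΦ_surj (hA : IsADE A) (hp : 1 ≤ p) (j : ι) (m : ℕ) (f : Fock ι) (hf : FH f m)
    (hE : vop A p (bb j) (-1) f = 0) : ∃ F : Fock ι, vrΦ hA hp j F = f := by
  obtain ⟨ε⟩ := cocycle_exists A hA p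
  have hmem : ∀ F ∈ weightedHomogeneousSubmodule ℂ (vrw j) m, vrΦ hA hp j F ∈ KF A p j m := by
    intro F hF
    rw [vrΦ_apply]
    refine Submodule.sum_mem _ fun u hu => Submodule.smul_mem _ _ ⟨(vrf_spec hA hp j u).1, ?_⟩
    have h1 : Finsupp.weight (vrw j) u = m := hF (mem_support_iff.1 hu)
    rw [← h1]
    exact (vrf_spec hA hp j u).2.1
  let Ψ : weightedHomogeneousSubmodule ℂ (vrw j) m →ₗ[ℂ] KF A p j m :=
    (vrΦ hA hp j).restrict hmem
  have hinj : Function.Injective Ψ := by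
    rw [injective_iff_map_eq_zero]
    rintro ⟨F, hF⟩ h
    by_contra hne
    have hF0 : F ≠ 0 := fun h0 => hne (Subtype.ext h0)
    obtain ⟨_, _, h2⟩ := vrΦ_symbol hA hp j F hF0
    exact h2 (congrArg Subtype.val h)
  have hfd := vr5_finrank (vrw j) m (vr5_finite_K j m)
  have hfd1 := hfd.1
  have hfd2 : FiniteDimensional ℂ (KF A p j m) := by
    have := (vr5_finrank (wF (ι := ι)) m (vp2_finite_weight m)).1
    exact Submodule.finiteDimensional_of_le inf_le_right
  have hsurj : Function.Surjective Ψ := by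
    refine (LinearMap.injective_iff_surjective_of_finrank_eq_finrank ?_).1 hinj
    rw [hfd.2, vr5_finrank_K hA hp ε j m]
  obtain ⟨F, hF⟩ := hsurj ⟨f, hE, hf⟩
  exact ⟨F.1, congrArg Subtype.val hF⟩

omit [Fintype ι] [DecidableEq ι] in
theorem vr6_jet_add (P Q : MvPolynomial ι ℂ) (k : ℕ) : jet k (P + Q) = jet k P + jet k Q := by
  unfold jet
  rw [map_add, map_add]

omit [Fintype ι] [DecidableEq ι] in
theorem vr6_jet_smul (c : ℂ) (P : MvPolynomial ι ℂ) (k : ℕ) : jet k (C c * P) = C c * jet k P := by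
  unfold jet
  rw [← smul_eq_C_mul, map_smul, ← smul_eq_C_mul]
  rfl

omit [Fintype ι] [DecidableEq ι] in
theorem vr6_jet_sum {α : Type} (s : Finset α) (P : α → MvPolynomial ι ℂ) (k : ℕ) :
    jet k (∑ a ∈ s, P a) = ∑ a ∈ s, jet k (P a) := by
  unfold jet
  rw [map_sum, map_sum]

omit [Fintype ι] [DecidableEq ι] in
theorem vr6_jet_mul (P Q : MvPolynomial ι ℂ) (k : ℕ) :
    jet k (P * Q) = ∑ a ∈ Finset.range (k + 1), jet a P * jet (k - a) Q := by
  unfold jet
  rw [map_mul, PowerSeries.coeff_mul, Finset.Nat.sum_antidiagonal_eq_sum_range_succ_mk]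

omit [Fintype ι] [DecidableEq ι] in
theorem vr6_jet_X (i : ι) (k : ℕ) : jet k (X i) = C ((k : ℂ) + 1) * (X (i, k) : Fock ι) := by
  unfold jet jetH arc
  rw [aeval_X, PowerSeries.coeff_mk]

/-- The jets of `y_i` are in `B_j` for all `i`. -/
theorem vr6_jet_y (hA : IsADE A) (j i : ι) (k : ℕ) :
    jet k (X i - C ((A i j : ℂ) / 2) * X j) ∈ BJ A j := by
  by_cases h : i = j
  · have : (X i - C ((A i j : ℂ) / 2) * X j : MvPolynomial ι ℂ) = 0 := by
      rw [h, hA.diag]
      have : ((2 : ℤ) : ℂ) / 2 = 1 := by norm_num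
      rw [this, C_1, one_mul, sub_self]
    rw [this]
    unfold jet
    rw [map_zero, map_zero]
    exact Subalgebra.zero_mem _
  · refine Algebra.subset_adjoin ⟨k, i, ?_⟩
    unfold yb
    rw [if_neg h]

theorem vr6_jet_ymul (hA : IsADE A) (j i l : ι) (k : ℕ) :
    jet k ((X i - C ((A i j : ℂ) / 2) * X j) * (X l - C ((A l j : ℂ) / 2) * X j)) ∈ BJ A j := by
  rw [vr6_jet_mul]
  exact Subalgebra.sum_mem _ fun a _ =>
    Subalgebra.mul_mem _ (vr6_jet_y hA j i a) (vr6_jet_y hA j l (k - a))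

/-- The quadratic form `Q = ∑ (pA)⁻¹_{ik} x_i x_k`. -/
def vrQ (A : Matrix ι ι ℤ) (p : ℕ) : MvPolynomial ι ℂ :=
  ∑ i : ι, ∑ k : ι, C (dual A p i k) * (X k * X i)

theorem vr6_P (A : Matrix ι ι ℤ) (p n : ℕ) : vrP A p n = C (1 / 2 : ℂ) * jet n (vrQ A p) := by
  unfold vrP vrQ
  congr 1
  rw [vr6_jet_sum, Finset.sum_comm]
  refine Finset.sum_congr rfl fun i _ => ?_
  rw [vr6_jet_sum]
  have h1 : ∀ k : ι, jet n (C (dual A p i k) * (X k * X i)) = ∑ a ∈ Finset.range (n + 1),
      C (dual A p i k) * (C ((a : ℂ) + 1) * (X (k, a) : Fock ι) *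
        (C (((n - a : ℕ) : ℂ) + 1) * X (i, n - a))) := by
    intro k
    rw [vr6_jet_smul, vr6_jet_mul, Finset.mul_sum]
    refine Finset.sum_congr rfl fun a _ => ?_
    rw [vr6_jet_X, vr6_jet_X]
  rw [Finset.sum_congr rfl fun k _ => h1 k, Finset.sum_comm]
  refine Finset.sum_congr rfl fun a ha => ?_
  have ha' : a ≤ n := Nat.lt_succ_iff.1 (Finset.mem_range.1 ha)
  unfold osc
  rw [Finset.mul_sum, Finset.sum_mul]
  refine Finset.sum_congr rfl fun k _ => ?_
  rw [Nat.cast_sub ha', C_mul]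
  have : (n : ℂ) + 1 - a = (n : ℂ) - a + 1 := by ring
  rw [this]
  ring

theorem vr6_Q (hA : IsADE A) (hp : 1 ≤ p) (j : ι) : vrQ A p =
    (∑ i : ι, ∑ k : ι, C (dual A p i k) * ((X k - C ((A k j : ℂ) / 2) * X j) *
      (X i - C ((A i j : ℂ) / 2) * X j))) + C ((2 * p : ℂ)⁻¹) * (X j ^ 2) := by
  have hdet := det_ne_zero A hA
  set M := A.map (Int.cast : ℤ → ℂ) with hM
  have hu : IsUnit M.det := hdet
  have h1 : ∀ i j : ι, ∑ k, M⁻¹ i k * M k j = if i = j then 1 else 0 := by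
    intro i j
    have := congrFun (congrFun (Matrix.nonsing_inv_mul M hu) i) j
    rw [Matrix.mul_apply, Matrix.one_apply] at this
    exact this
  have h2 : ∀ i j : ι, ∑ k, M i k * M⁻¹ k j = if i = j then 1 else 0 := by
    intro i j
    have := congrFun (congrFun (Matrix.mul_nonsing_inv M hu) i) j
    rw [Matrix.mul_apply, Matrix.one_apply] at this
    exact this
  have hMA : ∀ i k, M i k = (A i k : ℂ) := fun i k => rfl
  have hG : ∀ i k, dual A p i k = (p : ℂ)⁻¹ * M⁻¹ i k := by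
    intro i k
    unfold dual
    rw [hM]
  have hp0 : (p : ℂ) ≠ 0 := by
    have : p ≠ 0 := by omega
    exact_mod_cast this
  have S1 : ∀ i, ∑ k, dual A p i k * ((A k j : ℂ) / 2) = if i = j then (2 * p : ℂ)⁻¹ else 0 := by
    intro i
    have : ∑ k, dual A p i k * ((A k j : ℂ) / 2) = (2 * p : ℂ)⁻¹ * ∑ k, M⁻¹ i k * M k j := by
      rw [Finset.mul_sum]
      refine Finset.sum_congr rfl fun k _ => ?_
      rw [hG, hMA]
      field_simp
    rw [this, h1]
    split_ifs <;> ring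
  have S2 : ∀ k, ∑ i, dual A p i k * ((A i j : ℂ) / 2) = if j = k then (2 * p : ℂ)⁻¹ else 0 := by
    intro k
    have : ∑ i, dual A p i k * ((A i j : ℂ) / 2) = (2 * p : ℂ)⁻¹ * ∑ i, M j i * M⁻¹ i k := by
      rw [Finset.mul_sum]
      refine Finset.sum_congr rfl fun i _ => ?_
      rw [hG, hMA, hA.symm j i]
      field_simp
    rw [this, h2]
    split_ifs <;> ring
  have T1 : ∑ i : ι, ∑ k : ι, C (dual A p i k * ((A k j : ℂ) / 2)) * (X j * X i) =
      C ((2 * p : ℂ)⁻¹) * (X j ^ 2 : MvPolynomial ι ℂ) := by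
    have : ∀ i : ι, ∑ k : ι, C (dual A p i k * ((A k j : ℂ) / 2)) * (X j * X i) =
        C (if i = j then (2 * p : ℂ)⁻¹ else 0) * (X j * X i : MvPolynomial ι ℂ) := by
      intro i
      rw [← Finset.sum_mul, ← map_sum, S1]
    rw [Finset.sum_congr rfl fun i _ => this i, Finset.sum_eq_single j]
    · rw [if_pos rfl]
      ring
    · intro i _ hi
      rw [if_neg hi, C_0, zero_mul]
    · intro h
      exact absurd (Finset.mem_univ j) h
  have T2 : ∑ i : ι, ∑ k : ι, C (dual A p i k * ((A i j : ℂ) / 2)) * (X k * X j) =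
      C ((2 * p : ℂ)⁻¹) * (X j ^ 2 : MvPolynomial ι ℂ) := by
    rw [Finset.sum_comm]
    have : ∀ k : ι, ∑ i : ι, C (dual A p i k * ((A i j : ℂ) / 2)) * (X k * X j) =
        C (if j = k then (2 * p : ℂ)⁻¹ else 0) * (X k * X j : MvPolynomial ι ℂ) := by
      intro k
      rw [← Finset.sum_mul, ← map_sum, S2]
    rw [Finset.sum_congr rfl fun k _ => this k, Finset.sum_eq_single j]
    · rw [if_pos rfl]
      ring
    · intro i _ hi
      rw [if_neg (Ne.symm hi), C_0, zero_mul]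
    · intro h
      exact absurd (Finset.mem_univ j) h
  have T3 : ∑ i : ι, ∑ k : ι, C (dual A p i k * ((A k j : ℂ) / 2) * ((A i j : ℂ) / 2)) *
      (X j ^ 2) = C ((2 * p : ℂ)⁻¹) * (X j ^ 2 : MvPolynomial ι ℂ) := by
    have : ∀ i : ι, ∑ k : ι, C (dual A p i k * ((A k j : ℂ) / 2) * ((A i j : ℂ) / 2)) * (X j ^ 2) =
        C ((if i = j then (2 * p : ℂ)⁻¹ else 0) * ((A i j : ℂ) / 2)) *
          (X j ^ 2 : MvPolynomial ι ℂ) := by
      intro i
      rw [← Finset.sum_mul, ← map_sum, ← Finset.sum_mul, S1]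
    rw [Finset.sum_congr rfl fun i _ => this i, Finset.sum_eq_single j]
    · rw [if_pos rfl, hA.diag]
      congr 2
      push_cast
      ring
    · intro i _ hi
      rw [if_neg hi, zero_mul, C_0, zero_mul]
    · intro h
      exact absurd (Finset.mem_univ j) h
  have E : ∀ i k : ι, C (dual A p i k) * ((X k - C ((A k j : ℂ) / 2) * X j) *
      (X i - C ((A i j : ℂ) / 2) * X j)) = C (dual A p i k) * (X k * X i) -
        C (dual A p i k * ((A k j : ℂ) / 2)) * (X j * X i) -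
        C (dual A p i k * ((A i j : ℂ) / 2)) * (X k * X j) +
        C (dual A p i k * ((A k j : ℂ) / 2) * ((A i j : ℂ) / 2)) *
          (X j ^ 2 : MvPolynomial ι ℂ) := by
    intro i k
    simp only [C_mul]
    ring
  simp only [E, Finset.sum_add_distrib, Finset.sum_sub_distrib]
  rw [T1, T2, T3]
  unfold vrQ
  ring

/-- The generators are in `B_j`. -/
theorem vr6_mem (hA : IsADE A) (hp : 1 ≤ p) (j : ι) (x : ι × ℕ) : vrg A p j x ∈ BJ A j := by
  unfold vrg
  split_ifs with h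
  · rw [vr6_P, vr6_Q hA hp j, vr6_jet_add, vr6_jet_sum]
    refine Subalgebra.mul_mem _ (Subalgebra.algebraMap_mem _ _) (Subalgebra.add_mem _
      (Subalgebra.sum_mem _ fun i _ => ?_) ?_)
    · rw [vr6_jet_sum]
      refine Subalgebra.sum_mem _ fun k _ => ?_
      rw [vr6_jet_smul]
      exact Subalgebra.mul_mem _ (Subalgebra.algebraMap_mem _ _) (vr6_jet_ymul hA j k i _)
    · rw [vr6_jet_smul]
      refine Subalgebra.mul_mem _ (Subalgebra.algebraMap_mem _ _)
        (Algebra.subset_adjoin ⟨x.2, j, ?_⟩)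
      unfold yb
      rw [if_pos rfl]
  · have e : osc (vrh A j x.1) x.2 = C (((x.2 : ℂ) + 1)⁻¹) *
        jet x.2 (X x.1 - C ((A x.1 j : ℂ) / 2) * X j) := by
      have hn : (x.2 : ℂ) + 1 ≠ 0 := Nat.cast_add_one_ne_zero _
      have e1 : (X x.1 - C ((A x.1 j : ℂ) / 2) * X j : MvPolynomial ι ℂ) =
          X x.1 + C (-((A x.1 j : ℂ) / 2)) * X j := by
        rw [C_neg]
        ring
      rw [e1, vr6_jet_add, vr6_jet_smul, vr6_jet_X, vr6_jet_X]
      have e2 : osc (vrh A j x.1) x.2 = X (x.1, x.2) + C (-((A x.1 j : ℂ) / 2)) *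
          (X (j, x.2) : Fock ι) := by
        unfold osc vrh bb
        have : ∀ i : ι, C ((Pi.single x.1 (1 : ℂ) - ((A x.1 j : ℂ) / 2) • Pi.single j 1 : ι → ℂ) i) *
            (X (i, x.2) : Fock ι) = C ((Pi.single x.1 (1 : ℂ) : ι → ℂ) i) * X (i, x.2) +
              C (-((A x.1 j : ℂ) / 2)) * (C ((Pi.single j (1 : ℂ) : ι → ℂ) i) * X (i, x.2)) := by
          intro i
          rw [Pi.sub_apply, Pi.smul_apply, smul_eq_mul, C_sub, C_mul, C_neg]
          ring
        rw [Finset.sum_congr rfl fun i _ => this i, Finset.sum_add_distrib, ← Finset.mul_sum,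
          Finset.sum_eq_single x.1, Finset.sum_eq_single j]
        · rw [Pi.single_eq_same, Pi.single_eq_same, C_1, one_mul, one_mul]
        · intro b _ hb
          rw [Pi.single_eq_of_ne hb, C_0, zero_mul]
        · intro h
          exact absurd (Finset.mem_univ j) h
        · intro b _ hb
          rw [Pi.single_eq_of_ne hb, C_0, zero_mul]
        · intro h
          exact absurd (Finset.mem_univ x.1) h
      rw [e2]
      have e3 : (C (((x.2 : ℂ) + 1)⁻¹) * C ((x.2 : ℂ) + 1) : Fock ι) = 1 := by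
        rw [← C_mul, inv_mul_cancel₀ hn, C_1]
      linear_combination (-(X (x.1, x.2) : Fock ι) - C (-((A x.1 j : ℂ) / 2)) * X (j, x.2)) * e3
    rw [e]
    exact Subalgebra.mul_mem _ (Subalgebra.algebraMap_mem _ _) (vr6_jet_y hA j x.1 x.2)

omit [Fintype ι] [DecidableEq ι] in
theorem vr6_aeval_mem (S : Subalgebra ℂ (Fock ι)) (g : ι × ℕ → Fock ι) (hg : ∀ x, g x ∈ S)
    (G : Fock ι) : aeval g G ∈ S := by
  induction G using MvPolynomial.induction_on with
  | C a =>
    rw [aeval_C]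
    exact Subalgebra.algebraMap_mem _ _
  | add P Q hP hQ =>
    rw [map_add]
    exact Subalgebra.add_mem _ hP hQ
  | mul_X P x hP =>
    rw [map_mul, aeval_X]
    exact Subalgebra.mul_mem _ hP (hg x)

/-- [R5] The symbols of the elements of `ker E_j` lie in `B_j`. -/
theorem vr_symbol (hA : IsADE A) (hp : 1 ≤ p) (j : ι) (f : Fock ι) (m : ℕ) (hf : FH f m)
    (hE : vop A p (bb j) (-1) f = 0) : homogeneousComponent f.totalDegree f ∈ BJ A j := by
  by_cases hf0 : f = 0
  · rw [hf0, map_zero]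
    exact Subalgebra.zero_mem _
  · obtain ⟨F, rfl⟩ := vrΦ_surj hA hp j m f hf hE
    have hF : F ≠ 0 := by
      rintro rfl
      exact hf0 (map_zero _)
    obtain ⟨G, hG, _⟩ := vrΦ_symbol hA hp j F hF
    rw [hG]
    exact vr6_aeval_mem _ _ (vr6_mem hA hp j) G

end

end WPQ
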