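import Pool.Agent.WPQ.PV4

/-! WPQ part C: definitions for type A. -/

namespace WPQ

open MvPolynomial

noncomputable section

/-- The Cartan matrix of type `A_l`. -/
def cartanA (l : ℕ) : Matrix (Fin l) (Fin l) ℤ := fun i j =>
  if i = j then 2 else if (i : ℕ) + 1 = j ∨ (j : ℕ) + 1 = i then -1 else 0

/-- `w = (1 - c) / 6` for `A_l`. -/
def wA (l p : ℕ) : ℚ := ((l : ℚ) * (l + 1) * (l + 2) * ((p : ℚ) - 1) ^ 2 - ((l : ℚ) - 1) * p) / (6 * p)

/-- `W_k(g)` inside `M(1)`: the vectors of `W(p)_Q` of charge `0` that are killed by the long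
screenings `e^{√p α_j}_0`. -/
def Wk {ι : Type} [Fintype ι] [DecidableEq ι] {A : Matrix ι ι ℤ} {p : ℕ} (ε : Cocycle A p) :
    Submodule ℂ (VL ι) where
  carrier := {v | v ∈ W A p ∧ (∀ γ : ι → ℤ, γ ≠ 0 → v γ = 0) ∧
    ∀ j : ι, expMode ε (Pi.single j 1) 0 v = 0}
  add_mem' := by
    rintro v w ⟨h1, h2, h3⟩ ⟨k1, k2, k3⟩
    refine ⟨add_mem h1 k1, ?_, ?_⟩
    · intro γ hγ
      rw [Finsupp.add_apply, h2 γ hγ, k2 γ hγ, add_zero]
    · intro j
      rw [map_add, h3 j, k3 j, add_zero]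
  zero_mem' := ⟨zero_mem _, fun _ _ => rfl, fun _ => map_zero _⟩
  smul_mem' := by
    rintro c v ⟨h1, h2, h3⟩
    refine ⟨Submodule.smul_mem _ c h1, ?_, ?_⟩
    · intro γ hγ
      rw [Finsupp.smul_apply, h2 γ hγ, smul_zero]
    · intro j
      rw [map_smul, h3 j, smul_zero]

/-- Part C (target). -/
def MainC : Prop :=
  ∀ l : ℕ, 2 ≤ l → ∀ p : ℕ, 2 ≤ p →
    omegaV (cartanA l) p ∈ W (cartanA l) p ∧ ∀ ε : Cocycle (cartanA l) p,
      ∃ S : Finset (VL (Fin l)),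
        (∀ u ∈ S, u ∈ W (cartanA l) p ∧ (∃ n, IsHomog (cartanA l) p n u) ∧ IsPrimary ε u) ∧
        ∀ T : Set (VL (Fin l)), omegaV (cartanA l) p ∈ T → (S : Set (VL (Fin l))) ⊆ T →
          T ⊆ (W (cartanA l) p : Set (VL (Fin l))) →
          (Wk ε : Set (VL (Fin l))) ⊆ Submodule.span ℂ {w | Monomial ε T w} →
          StronglyGenerates ε T (W (cartanA l) p)

/-- The charge `0` part of the primary vectors of weight `m`. -/
def Prim0 {ι : Type} [Fintype ι] [DecidableEq ι] (A : Matrix ι ι ℤ) (p : ℕ) (m : ℤ) :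
    Submodule ℂ (VL ι) :=
  pv4_Prim A p m ⊓ Finsupp.supported (Fock ι) ℂ {0}

end

end WPQ
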