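import Pool.Agent.WPQ.FW3

/-! [WPQ-FW8] Virasoro operators: elementary facts, and the commutator with `vop` for `k > 0`.

Proof of `Lop_vop_pos`: by induction on the polynomial (multiplication by a variable).  The
commutators of `vop ν m` and of `Lop s k` (`k > 0`) with the multiplication by `X (i, j)` are
explicit (`fw8_vop_X`, `fw8_Lop_X`), positive Heisenberg modes commute with `vop ν m` up to
`⟨ν, h⟩ vop ν (m - n)` (`fw8_H_vop`), and on the constant `1` the statement is a formula for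
`Lop s k (expCoeff ν m)`. -/

namespace WPQ

open MvPolynomial

noncomputable section

variable {ι : Type} [Fintype ι] [DecidableEq ι]

theorem fw8_form_bb (A : Matrix ι ι ℤ) (p : ℕ) (i : ι) (ν : ι → ℂ) :
    form A p (bb i) ν = p * ∑ j, (A i j : ℂ) * ν j := by
  unfold form bb
  congr 1
  rw [Finset.sum_eq_single i]
  · refine Finset.sum_congr rfl fun j _ => ?_
    rw [Pi.single_eq_same, one_mul]
  · intro b _ hb
    refine Finset.sum_eq_zero fun j _ => ?_
    rw [Pi.single_eq_of_ne hb, zero_mul, zero_mul]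
  · intro h
    exact absurd (Finset.mem_univ i) h

theorem det_ne_zero (A : Matrix ι ι ℤ) (hA : IsADE A) :
    IsUnit (A.map (Int.cast : ℤ → ℂ)).det := by
  have h : A.det ≠ 0 := by
    intro h0
    obtain ⟨c, hc, hc'⟩ := Matrix.exists_mulVec_eq_zero_iff.2 h0
    have hpos := hA.pos c hc
    have h1 : ∑ i, ∑ j, c i * A i j * c j = 0 := by
      refine Finset.sum_eq_zero fun i _ => ?_
      have h2 := congrFun hc' i
      simp only [Matrix.mulVec, dotProduct, Pi.zero_apply] at h2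
      calc ∑ j, c i * A i j * c j = c i * ∑ j, A i j * c j := by
            rw [Finset.mul_sum]
            refine Finset.sum_congr rfl fun j _ => ?_
            ring
        _ = 0 := by rw [h2, mul_zero]
    omega
  have h3 : (A.map (Int.cast : ℤ → ℂ)).det = ((A.det : ℤ) : ℂ) := (Int.cast_det A).symm
  rw [h3, isUnit_iff_ne_zero]
  exact_mod_cast h

theorem form_bg (A : Matrix ι ι ℤ) (hA : IsADE A) (p : ℕ) (hp : 1 ≤ p) (i : ι) :
    form A p (bb i) (bg A p) = (p : ℂ) - 1 := by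
  have hp0 : (p : ℂ) ≠ 0 := by
    have : p ≠ 0 := by omega
    exact_mod_cast this
  have h1 : (A.map (Int.cast : ℤ → ℂ)).mulVec (rho A) = fun _ => 1 := by
    unfold rho
    rw [Matrix.mulVec_mulVec, Matrix.mul_nonsing_inv _ (det_ne_zero A hA), Matrix.one_mulVec]
  have h2 := congrFun h1 i
  simp only [Matrix.mulVec, dotProduct, Matrix.map_apply] at h2
  rw [fw8_form_bb]
  unfold bg
  calc (p : ℂ) * ∑ j, (A i j : ℂ) * (((p : ℂ) - 1) / p * rho A j)
      = p * (((p : ℂ) - 1) / p * ∑ j, (A i j : ℂ) * rho A j) := by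
        congr 1
        rw [Finset.mul_sum]
        refine Finset.sum_congr rfl fun j _ => ?_
        ring
    _ = (p : ℂ) - 1 := by
        rw [h2]
        field_simp

theorem form_dual (A : Matrix ι ι ℤ) (hA : IsADE A) (p : ℕ) (hp : 1 ≤ p) (i j : ι) :
    form A p (dual A p i) (bb j) = if i = j then 1 else 0 := by
  have hp0 : (p : ℂ) ≠ 0 := by
    have : p ≠ 0 := by omega
    exact_mod_cast this
  have h1 := congrFun (congrFun (Matrix.nonsing_inv_mul (A.map (Int.cast : ℤ → ℂ))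
    (det_ne_zero A hA)) i) j
  rw [Matrix.mul_apply, Matrix.one_apply] at h1
  rw [← h1]
  unfold form dual bb
  rw [Finset.mul_sum]
  refine Finset.sum_congr rfl fun a _ => ?_
  rw [Finset.sum_eq_single j]
  · rw [Pi.single_eq_same, mul_one, Matrix.map_apply]
    field_simp
  · intro b _ hb
    rw [Pi.single_eq_of_ne hb, mul_zero]
  · intro h
    exact absurd (Finset.mem_univ j) h

/-! Degrees. -/

/-- The Euler derivation. -/
def fw8_eul : Derivation ℂ (Fock ι) (Fock ι) :=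
  mkDerivation ℂ fun x : ι × ℕ => ((x.2 : ℂ) + 1) • (X x : Fock ι)

theorem fw8_eul_X (x : ι × ℕ) : fw8_eul (X x : Fock ι) = ((x.2 : ℂ) + 1) • (X x : Fock ι) :=
  mkDerivation_X ℂ _ x

theorem fw8_eul_monomial (m : ι × ℕ →₀ ℕ) (a : ℂ) :
    fw8_eul (monomial m a : Fock ι) =
      ((Finsupp.weight (wF (ι := ι)) m : ℕ) : ℂ) • (monomial m a : Fock ι) := by
  unfold fw8_eul
  rw [mkDerivation_monomial, Finsupp.weight_apply, Finsupp.sum, Finsupp.sum, Nat.cast_sum,
    Finset.sum_smul, Finset.smul_sum]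
  refine Finset.sum_congr rfl fun x hx => ?_
  have hx' : m x ≠ 0 := Finsupp.mem_support_iff.1 hx
  have h : m - Finsupp.single x 1 + Finsupp.single x 1 = m := by
    refine tsub_add_cancel_of_le ?_
    rw [Finsupp.single_le_iff]
    omega
  rw [smul_eq_mul, mul_smul_comm, ← pow_one (X x : Fock ι), ← monomial_add_single, h,
    smul_monomial, smul_monomial, smul_monomial]
  congr 1
  simp only [smul_eq_mul, wF]
  push_cast
  ring

theorem fw8_coeff_eul (f : Fock ι) (m : ι × ℕ →₀ ℕ) :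
    coeff m (fw8_eul f) = ((Finsupp.weight (wF (ι := ι)) m : ℕ) : ℂ) * coeff m f := by
  induction f using MvPolynomial.induction_on' with
  | monomial u a =>
    rw [fw8_eul_monomial, coeff_smul, coeff_monomial, smul_eq_mul]
    split_ifs with h
    · rw [h]
    · simp
  | add f g hf hg => rw [map_add, coeff_add, coeff_add, hf, hg, mul_add]

theorem fw8_eul_of_FH (f : Fock ι) (d : ℕ) (hf : FH f d) : fw8_eul f = (d : ℂ) • f := by
  ext m
  rw [fw8_coeff_eul, coeff_smul, smul_eq_mul]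
  by_cases h : coeff m f = 0
  · rw [h, mul_zero, mul_zero]
  · rw [hf h]

theorem fw8_FH_of_eul (f : Fock ι) (d : ℕ) (h : fw8_eul f = (d : ℂ) • f) : FH f d := by
  intro m hm
  have h1 := congrArg (coeff m) h
  rw [fw8_coeff_eul, coeff_smul, smul_eq_mul] at h1
  have h2 := mul_right_cancel₀ hm h1
  exact_mod_cast h2

theorem fw8_zero_of_eul (f : Fock ι) (d : ℤ) (hd : d < 0) (h : fw8_eul f = (d : ℂ) • f) :
    f = 0 := by
  ext m
  rw [coeff_zero]
  by_contra hm
  have h1 := congrArg (coeff m) h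
  rw [fw8_coeff_eul, coeff_smul, smul_eq_mul] at h1
  have h2 := mul_right_cancel₀ hm h1
  have h3 : ((Finsupp.weight (wF (ι := ι)) m : ℕ) : ℤ) = d := by exact_mod_cast h2
  omega

/-- `T` has degree `t`. -/
def fw8_deg (T : Fock ι →ₗ[ℂ] Fock ι) (t : ℤ) : Prop :=
  ∀ f, fw8_eul (T f) = T (fw8_eul f) + (t : ℂ) • T f

theorem fw8_deg_add {S T : Fock ι →ₗ[ℂ] Fock ι} {t : ℤ} (hS : fw8_deg S t) (hT : fw8_deg T t) :
    fw8_deg (S + T) t := by
  intro f
  rw [LinearMap.add_apply, LinearMap.add_apply, map_add, hS f, hT f, smul_add]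
  abel

theorem fw8_deg_smul {T : Fock ι →ₗ[ℂ] Fock ι} {t : ℤ} (c : ℂ) (hT : fw8_deg T t) :
    fw8_deg (c • T) t := by
  intro f
  rw [LinearMap.smul_apply, LinearMap.smul_apply, Derivation.map_smul, hT f, smul_add,
    smul_comm c]

theorem fw8_deg_zero (t : ℤ) : fw8_deg (0 : Fock ι →ₗ[ℂ] Fock ι) t := by
  intro f
  simp

theorem fw8_deg_sum {α : Type} (s : Finset α) (T : α → Fock ι →ₗ[ℂ] Fock ι) (t : ℤ)
    (h : ∀ a ∈ s, fw8_deg (T a) t) : fw8_deg (∑ a ∈ s, T a) t := by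
  classical
  induction s using Finset.induction_on with
  | empty =>
    rw [Finset.sum_empty]
    exact fw8_deg_zero t
  | insert a s ha ih =>
    rw [Finset.sum_insert ha]
    exact fw8_deg_add (h a (Finset.mem_insert_self a s))
      (ih fun b hb => h b (Finset.mem_insert_of_mem hb))

theorem fw8_deg_comp {S T : Fock ι →ₗ[ℂ] Fock ι} {a b : ℤ} (hS : fw8_deg S a)
    (hT : fw8_deg T b) : fw8_deg (S ∘ₗ T) (a + b) := by
  intro f
  rw [LinearMap.comp_apply, LinearMap.comp_apply, hS, hT, map_add, map_smul]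
  push_cast
  rw [add_smul]
  abel

theorem fw8_deg_id : fw8_deg (LinearMap.id : Fock ι →ₗ[ℂ] Fock ι) 0 := by
  intro f
  simp

theorem fw8_deg_der (D : Derivation ℂ (Fock ι) (Fock ι)) (t : ℤ)
    (h : ∀ x : ι × ℕ, fw8_eul (D (X x)) = ((x.2 : ℂ) + 1 + t) • D (X x)) :
    fw8_deg D.toLinearMap t := by
  intro f
  show fw8_eul (D f) = D (fw8_eul f) + (t : ℂ) • D f
  induction f using MvPolynomial.induction_on with
  | C a =>
    rw [derivation_C, derivation_C]
    simp
  | add f g hf hg =>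
    simp only [map_add]
    rw [hf, hg, smul_add]
    abel
  | mul_X f x ih =>
    have h' := h x
    simp only [Derivation.leibniz, smul_eq_mul, map_add, fw8_eul_X, ih, h', smul_eq_C_mul,
      C_add, derivation_C, mul_zero, add_zero, C_1, map_one, Derivation.map_one_eq_zero]
    ring

theorem fw8_deg_mul (g : Fock ι) (t : ℤ) (h : fw8_eul g = (t : ℂ) • g) :
    fw8_deg (LinearMap.mulLeft ℂ g) t := by
  intro f
  rw [LinearMap.mulLeft_apply, LinearMap.mulLeft_apply, Derivation.leibniz, h]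
  simp only [smul_eq_mul, smul_eq_C_mul]
  ring

theorem fw8_deg_pderiv (x : ι × ℕ) :
    fw8_deg (pderiv (R := ℂ) x).toLinearMap (-((x.2 : ℤ) + 1)) := by
  refine fw8_deg_der _ _ fun y => ?_
  rw [pderiv_X]
  by_cases h : x = y
  · subst h
    rw [Pi.single_eq_same, Derivation.map_one_eq_zero]
    push_cast
    rw [add_neg_cancel, zero_smul]
  · rw [Pi.single_eq_of_ne (Ne.symm h), map_zero, smul_zero]

theorem fw8_eul_osc (h : ι → ℂ) (k : ℕ) : fw8_eul (osc h k) = ((k : ℂ) + 1) • osc h k := by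
  unfold osc
  rw [map_sum, Finset.smul_sum]
  refine Finset.sum_congr rfl fun i _ => ?_
  rw [← smul_eq_C_mul, Derivation.map_smul, fw8_eul_X, smul_comm]

theorem fw8_deg_heis (A : Matrix ι ι ℤ) (p : ℕ) (h : ι → ℂ) (n : ℤ) (η : ι → ℂ) :
    fw8_deg (heis A p h n η) (-n) := by
  unfold heis
  rcases lt_trichotomy n 0 with hn | hn | hn
  · rw [if_pos hn]
    refine fw8_deg_smul _ (fw8_deg_mul _ _ ?_)
    rw [fw8_eul_osc]
    congr 1
    have h1 : (((-n - 1).toNat : ℕ) : ℤ) = -n - 1 := Int.toNat_of_nonneg (by omega)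
    have h2 : (((-n - 1).toNat : ℕ) : ℂ) = -(n : ℂ) - 1 := by exact_mod_cast congrArg (Int.cast : ℤ → ℂ) h1
    rw [h2]
    push_cast
    ring
  · subst hn
    rw [if_neg (lt_irrefl _), if_pos rfl]
    exact fw8_deg_smul _ fw8_deg_id
  · rw [if_neg (by omega), if_neg (by omega)]
    refine fw8_deg_sum _ _ _ fun i _ => fw8_deg_smul _ ?_
    have h0 := fw8_deg_pderiv (i, (n - 1).toNat)
    have h1 : (((n - 1).toNat : ℕ) : ℤ) = n - 1 := Int.toNat_of_nonneg (by omega)
    have h2 : -((((i, (n - 1).toNat) : ι × ℕ).2 : ℤ) + 1) = -n := by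
      show -((((n - 1).toNat : ℕ) : ℤ) + 1) = -n
      rw [h1]
      ring
    rw [h2] at h0
    exact h0

theorem fw8_deg_Lop (A : Matrix ι ι ℤ) (p : ℕ) (s : ι → ℂ) (k : ℤ) :
    fw8_deg (Lop A p s k) (-k) := by
  unfold Lop
  rcases lt_trichotomy k 0 with hk | hk | hk
  · rw [if_neg (by omega), if_neg (by omega)]
    have h1 : (((-k).toNat : ℕ) : ℤ) = -k := Int.toNat_of_nonneg (by omega)
    have h2 : (((-k).toNat : ℕ) : ℂ) = -(k : ℂ) := by
      exact_mod_cast congrArg (Int.cast : ℤ → ℂ) h1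
    refine fw8_deg_add (fw8_deg_add (fw8_deg_der _ _ fun x => ?_) (fw8_deg_heis _ _ _ _ _))
      (fw8_deg_smul _ (fw8_deg_mul _ _ ?_))
    · rw [mkDerivation_X, Derivation.map_smul, fw8_eul_X, smul_comm]
      congr 1
      push_cast
      rw [h2]
      ring
    · rw [map_sum, Finset.smul_sum]
      refine Finset.sum_congr rfl fun n hn => ?_
      rw [map_sum, Finset.smul_sum]
      refine Finset.sum_congr rfl fun i _ => ?_
      have hn' := Finset.mem_range.1 hn
      rw [Derivation.leibniz, fw8_eul_X, ← smul_eq_C_mul, Derivation.map_smul, fw8_eul_osc]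
      have h3 : (((-k).toNat - 2 - n : ℕ) : ℤ) = -k - 2 - n := by omega
      have h4 : (((-k).toNat - 2 - n : ℕ) : ℂ) = -(k : ℂ) - 2 - n := by
        exact_mod_cast congrArg (Int.cast : ℤ → ℂ) h3
      simp only [h4, smul_eq_mul, smul_eq_C_mul]
      push_cast
      simp only [C_sub, C_add, C_neg, C_mul, C_1]
      have h5 : (C (2 : ℂ) : Fock ι) = 2 := by
        rw [show (2 : ℂ) = 1 + 1 by norm_num, C_add, C_1]
        norm_num
      rw [h5]
      ring
  · subst hk
    rw [if_neg (lt_irrefl _), if_pos rfl, neg_zero]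
    refine fw8_deg_add (fw8_deg_der _ _ fun x => ?_) (fw8_deg_smul _ fw8_deg_id)
    rw [mkDerivation_X, Derivation.map_smul, fw8_eul_X]
    push_cast
    rw [add_zero]
  · rw [if_pos hk]
    have h1 : ((k.toNat : ℕ) : ℤ) = k := Int.toNat_of_nonneg (by omega)
    have h2 : ((k.toNat : ℕ) : ℂ) = (k : ℂ) := by
      exact_mod_cast congrArg (Int.cast : ℤ → ℂ) h1
    refine fw8_deg_add (fw8_deg_add (fw8_deg_der _ _ fun x => ?_) (fw8_deg_heis _ _ _ _ _))
      (fw8_deg_smul _ (fw8_deg_sum _ _ _ fun n _ => fw8_deg_sum _ _ _ fun i _ => ?_))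
    · rw [mkDerivation_X]
      split_ifs with hx
      · rw [Derivation.map_smul, fw8_eul_X, smul_comm]
        congr 1
        have h3 : ((x.2 - k.toNat : ℕ) : ℤ) = x.2 - k := by omega
        have h4 : ((x.2 - k.toNat : ℕ) : ℂ) = x.2 - (k : ℂ) := by
          exact_mod_cast congrArg (Int.cast : ℤ → ℂ) h3
        simp only [h4]
        push_cast
        ring
      · rw [map_zero, smul_zero]
    · have h0 := fw8_deg_comp (fw8_deg_pderiv (i, n))
        (fw8_deg_heis A p (bb i) (k - (n + 1)) 0)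
      have h3 : -((((i, n) : ι × ℕ).2 : ℤ) + 1) + -(k - ((n : ℤ) + 1)) = -k := by
        show -((n : ℤ) + 1) + -(k - ((n : ℤ) + 1)) = -k
        ring
      rw [h3] at h0
      exact h0

theorem Lop_one_pos (A : Matrix ι ι ℤ) (p : ℕ) (s : ι → ℂ) (k : ℤ) (hk : 0 < k) :
    Lop A p s k 1 = 0 := by
  refine fw8_zero_of_eul _ (-k) (by omega) ?_
  rw [fw8_deg_Lop A p s k 1, Derivation.map_one_eq_zero, map_zero, zero_add]

theorem Lop_zero_homog (A : Matrix ι ι ℤ) (p : ℕ) (s : ι → ℂ) (f : Fock ι) (d : ℕ) (hf : FH f d) :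
    Lop A p s 0 f = ((d : ℂ) + (1 / 2 : ℂ) * form A p s s - form A p (bg A p) s) • f := by
  unfold Lop
  rw [if_neg (lt_irrefl _), if_pos rfl]
  have h := fw8_eul_of_FH f d hf
  show fw8_eul f + ((1 / 2 : ℂ) * form A p s s - form A p (bg A p) s) • f = _
  rw [h, ← add_smul]
  congr 1
  ring

theorem Lop_homog (A : Matrix ι ι ℤ) (p : ℕ) (s : ι → ℂ) (k : ℤ) (f : Fock ι) (d e : ℕ)
    (hf : FH f d) (he : (e : ℤ) = d - k) : FH (Lop A p s k f) e := by
  refine fw8_FH_of_eul _ _ ?_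
  rw [fw8_deg_Lop A p s k f, fw8_eul_of_FH f d hf, map_smul, ← add_smul]
  congr 1
  have h : ((e : ℤ) : ℂ) = ((d - k : ℤ) : ℂ) := by rw [he]
  push_cast at h ⊢
  rw [h]
  ring

theorem Lop_eq_zero (A : Matrix ι ι ℤ) (p : ℕ) (s : ι → ℂ) (k : ℤ) (f : Fock ι) (d : ℕ)
    (hf : FH f d) (he : (d : ℤ) < k) : Lop A p s k f = 0 := by
  refine fw8_zero_of_eul _ (d - k) (by omega) ?_
  rw [fw8_deg_Lop A p s k f, fw8_eul_of_FH f d hf, map_smul, ← add_smul]
  congr 1
  push_cast
  ring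

/-! The commutator with `vop`. -/

theorem fw8_form_add_right (A : Matrix ι ι ℤ) (p : ℕ) (ν η ξ : ι → ℂ) :
    form A p ν (η + ξ) = form A p ν η + form A p ν ξ := by
  unfold form
  rw [← mul_add, ← Finset.sum_add_distrib]
  congr 1
  refine Finset.sum_congr rfl fun i _ => ?_
  rw [← Finset.sum_add_distrib]
  refine Finset.sum_congr rfl fun k _ => ?_
  rw [Pi.add_apply, mul_add]

theorem fw8_form_smul_right (A : Matrix ι ι ℤ) (p : ℕ) (c : ℂ) (ν η : ι → ℂ) :
    form A p ν (c • η) = c * form A p ν η := by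
  unfold form
  have h : ∀ B : ι → ι → ℂ, ∑ i, ∑ k, ν i * B i k * (c • η) k =
      c * ∑ i, ∑ k, ν i * B i k * η k := by
    intro B
    rw [Finset.mul_sum]
    refine Finset.sum_congr rfl fun i _ => ?_
    rw [Finset.mul_sum]
    refine Finset.sum_congr rfl fun k _ => ?_
    rw [Pi.smul_apply, smul_eq_mul]
    ring
  rw [h (fun i k => (A i k : ℂ))]
  ring

theorem fw8_form_sub_right (A : Matrix ι ι ℤ) (p : ℕ) (ν η ξ : ι → ℂ) :
    form A p ν (η - ξ) = form A p ν η - form A p ν ξ := by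
  have h := fw8_form_add_right A p ν (η - ξ) ξ
  rw [sub_add_cancel] at h
  rw [h]
  ring

theorem fw8_form_expand (A : Matrix ι ι ℤ) (p : ℕ) (ν h : ι → ℂ) :
    form A p ν h = ∑ i, ν i * form A p (bb i) h := by
  have h1 : ∀ i ∈ Finset.univ, ν i * form A p (bb i) h = p * ∑ j, ν i * (A i j : ℂ) * h j := by
    intro i _
    rw [fw8_form_bb, mul_left_comm]
    congr 1
    rw [Finset.mul_sum]
    refine Finset.sum_congr rfl fun j _ => ?_
    rw [mul_assoc]
  rw [Finset.sum_congr rfl h1, ← Finset.mul_sum]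
  rfl

theorem fw8_Sop_bound (A : Matrix ι ι ℤ) (p : ℕ) (ν : ι → ℂ) (f : Fock ι) :
    ∀ q, (annih A p ν f).natDegree < q → Sop A p ν q f = 0 := by
  intro q hq
  exact Polynomial.coeff_eq_zero_of_natDegree_lt hq

theorem fw8_Sop_X_mul (A : Matrix ι ι ℤ) (p : ℕ) (ν : ι → ℂ) (q : ℕ) (i : ι) (k : ℕ)
    (g : Fock ι) : Sop A p ν q (X (i, k) * g) = X (i, k) * Sop A p ν q g +
      (if k + 1 ≤ q then C (-(form A p (bb i) ν) / (k + 1)) * Sop A p ν (q - (k + 1)) g
        else 0) := by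
  rw [Sop_mul, Finset.Nat.sum_antidiagonal_eq_sum_range_succ
    (fun a b => Sop A p ν a (X (i, k)) * Sop A p ν b g)]
  have h : ∀ a ∈ Finset.range q.succ, Sop A p ν a (X (i, k)) * Sop A p ν (q - a) g =
      (if a = 0 then X (i, k) * Sop A p ν (q - a) g else 0) +
      (if a = k + 1 then C (-(form A p (bb i) ν) / (k + 1)) * Sop A p ν (q - a) g else 0) := by
    intro a _
    rw [Sop_X]
    by_cases h0 : a = 0
    · subst h0
      simp
    · rw [if_neg h0, if_neg h0, zero_add]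
      by_cases h1 : a = k + 1
      · rw [if_pos h1, if_pos h1]
      · rw [if_neg h1, if_neg h1, zero_mul]
  rw [Finset.sum_congr rfl h, Finset.sum_add_distrib, Finset.sum_ite_eq', Finset.sum_ite_eq']
  rw [if_pos (by simp)]
  congr 1
  by_cases hk : k + 1 ≤ q
  · rw [if_pos hk, if_pos (Finset.mem_range.2 (by omega))]
  · rw [if_neg hk, if_neg (fun h => hk (by have := Finset.mem_range.1 h; omega))]

theorem fw8_vop_X (A : Matrix ι ι ℤ) (p : ℕ) (ν : ι → ℂ) (m : ℤ) (i : ι) (k : ℕ)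
    (g : Fock ι) : vop A p ν m (X (i, k) * g) = X (i, k) * vop A p ν m g +
      C (-(form A p (bb i) ν) / (k + 1)) * vop A p ν (m + (k + 1)) g := by
  obtain ⟨D, hD⟩ : ∃ D, D = (annih A p ν g).natDegree := ⟨_, rfl⟩
  have hb := fw8_Sop_bound A p ν g
  rw [← hD] at hb
  have hb1 : ∀ q, D + (k + 1) < q → Sop A p ν q g = 0 := fun q hq => hb q (by omega)
  have hb2 : ∀ q, D + (k + 1) < q → Sop A p ν q (X (i, k) * g) = 0 := by
    intro q hq
    rw [fw8_Sop_X_mul, hb1 q hq, if_pos (by omega), hb _ (by omega)]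
    simp
  rw [vop_eq A p ν m _ _ hb2, vop_eq A p ν m g _ hb1, vop_eq A p ν (m + (k + 1)) g D hb]
  have h : ∀ q ∈ Finset.range (D + (k + 1) + 1),
      expCoeffZ ν (m + q) * Sop A p ν q (X (i, k) * g) =
      X (i, k) * (expCoeffZ ν (m + q) * Sop A p ν q g) +
      expCoeffZ ν (m + q) * (if k + 1 ≤ q then
        C (-(form A p (bb i) ν) / (k + 1)) * Sop A p ν (q - (k + 1)) g else 0) := by
    intro q _
    rw [fw8_Sop_X_mul]
    ring
  rw [Finset.sum_congr rfl h, Finset.sum_add_distrib, Finset.mul_sum]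
  congr 1
  rw [show D + (k + 1) + 1 = (k + 1) + (D + 1) by omega, Finset.sum_range_add, Finset.mul_sum]
  have h0 : ∑ x ∈ Finset.range (k + 1), expCoeffZ ν (m + (x : ℤ)) * (if k + 1 ≤ x then
        C (-(form A p (bb i) ν) / (k + 1)) * Sop A p ν (x - (k + 1)) g else 0) = 0 := by
    refine Finset.sum_eq_zero fun x hx => ?_
    rw [if_neg (by have := Finset.mem_range.1 hx; omega), mul_zero]
  rw [h0, zero_add]
  refine Finset.sum_congr rfl fun x _ => ?_
  rw [if_pos (by omega), Nat.add_sub_cancel_left]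
  rw [show m + ((k + 1 + x : ℕ) : ℤ) = m + (k + 1) + x by push_cast; ring]
  ring

/-- The positive Heisenberg mode `h(l+1)`. -/
def fw8_H (A : Matrix ι ι ℤ) (p : ℕ) (h : ι → ℂ) (l : ℕ) (f : Fock ι) : Fock ι :=
  ∑ i, C (form A p (bb i) h) * pderiv (i, l) f

theorem fw8_H_C (A : Matrix ι ι ℤ) (p : ℕ) (h : ι → ℂ) (l : ℕ) (a : ℂ) :
    fw8_H A p h l (C a) = 0 := by
  unfold fw8_H
  refine Finset.sum_eq_zero fun i _ => ?_
  rw [pderiv_C, mul_zero]

theorem fw8_H_add (A : Matrix ι ι ℤ) (p : ℕ) (h : ι → ℂ) (l : ℕ) (f g : Fock ι) :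
    fw8_H A p h l (f + g) = fw8_H A p h l f + fw8_H A p h l g := by
  unfold fw8_H
  rw [← Finset.sum_add_distrib]
  refine Finset.sum_congr rfl fun i _ => ?_
  rw [map_add, mul_add]

theorem fw8_H_C_mul (A : Matrix ι ι ℤ) (p : ℕ) (h : ι → ℂ) (l : ℕ) (a : ℂ) (g : Fock ι) :
    fw8_H A p h l (C a * g) = C a * fw8_H A p h l g := by
  unfold fw8_H
  rw [Finset.mul_sum]
  refine Finset.sum_congr rfl fun i _ => ?_
  rw [pderiv_C_mul]
  ring

theorem fw8_H_X_mul (A : Matrix ι ι ℤ) (p : ℕ) (h : ι → ℂ) (l : ℕ) (i : ι) (j : ℕ)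
    (g : Fock ι) : fw8_H A p h l (X (i, j) * g) = X (i, j) * fw8_H A p h l g +
      (if j = l then C (form A p (bb i) h) * g else 0) := by
  unfold fw8_H
  have h1 : ∀ a ∈ Finset.univ, C (form A p (bb a) h) * pderiv (a, l) (X (i, j) * g) =
      X (i, j) * (C (form A p (bb a) h) * pderiv (a, l) g) +
      (if a = i then (if j = l then C (form A p (bb a) h) * g else 0) else 0) := by
    intro a _
    rw [Derivation.leibniz, pderiv_X, smul_eq_mul, smul_eq_mul]
    by_cases ha : a = i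
    · subst ha
      rw [if_pos rfl]
      by_cases hj : j = l
      · subst hj
        rw [if_pos rfl, Pi.single_eq_same]
        ring
      · rw [if_neg hj, Pi.single_eq_of_ne (by simp [hj])]
        ring
    · rw [if_neg ha, Pi.single_eq_of_ne (by simp [Ne.symm ha])]
      ring
  rw [Finset.sum_congr rfl h1, Finset.sum_add_distrib, Finset.sum_ite_eq' Finset.univ i,
    if_pos (Finset.mem_univ i), Finset.mul_sum]

theorem fw8_pderiv_Z (ν : ι → ℂ) (m : ℤ) (i : ι) (l : ℕ) :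
    pderiv (i, l) (expCoeffZ ν m) = C (ν i) * expCoeffZ ν (m - (l + 1)) := by
  rcases lt_or_ge m 0 with hm | hm
  · rw [expCoeffZ_neg ν m hm, expCoeffZ_neg ν _ (by omega), map_zero, mul_zero]
  · obtain ⟨n, rfl⟩ := Int.eq_ofNat_of_zero_le hm
    have hn : expCoeffZ ν ((n : ℕ) : ℤ) = expCoeff ν n := expCoeffZ_nat ν n
    rw [hn, pderiv_expCoeff]
    split_ifs with h
    · rw [show ((n : ℕ) : ℤ) - ((l : ℤ) + 1) = ((n - (l + 1) : ℕ) : ℤ) by omega, expCoeffZ_nat]
    · rw [expCoeffZ_neg ν _ (by omega), mul_zero]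

theorem fw8_H_exp (A : Matrix ι ι ℤ) (p : ℕ) (ν h : ι → ℂ) (l : ℕ) (m : ℤ) :
    fw8_H A p h l (expCoeffZ ν m) = C (form A p ν h) * expCoeffZ ν (m - (l + 1)) := by
  unfold fw8_H
  rw [fw8_form_expand A p ν h, map_sum, Finset.sum_mul]
  refine Finset.sum_congr rfl fun i _ => ?_
  rw [fw8_pderiv_Z, C_mul]
  ring

theorem fw8_vop_C_mul (A : Matrix ι ι ℤ) (p : ℕ) (ν : ι → ℂ) (m : ℤ) (a : ℂ) (g : Fock ι) :
    vop A p ν m (C a * g) = C a * vop A p ν m g := by
  rw [← smul_eq_C_mul, map_smul, smul_eq_C_mul]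

theorem fw8_vop_C (A : Matrix ι ι ℤ) (p : ℕ) (ν : ι → ℂ) (m : ℤ) (a : ℂ) :
    vop A p ν m (C a) = C a * expCoeffZ ν m := by
  rw [← vop_one A p ν m, ← fw8_vop_C_mul, mul_one]

theorem fw8_H_vop (A : Matrix ι ι ℤ) (p : ℕ) (ν h : ι → ℂ) (l : ℕ) (f : Fock ι) :
    ∀ m : ℤ, fw8_H A p h l (vop A p ν m f) = vop A p ν m (fw8_H A p h l f) +
      C (form A p ν h) * vop A p ν (m - (l + 1)) f := by
  induction f using MvPolynomial.induction_on with
  | C a =>
    intro m
    rw [fw8_H_C, map_zero, zero_add, fw8_vop_C, fw8_vop_C, fw8_H_C_mul, fw8_H_exp]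
    ring
  | add f g hf hg =>
    intro m
    rw [map_add, fw8_H_add, fw8_H_add, map_add, map_add, hf, hg]
    ring
  | mul_X g x ih =>
    obtain ⟨i, j⟩ := x
    intro m
    rw [mul_comm g (X (i, j)), fw8_vop_X, fw8_H_add, fw8_H_X_mul, fw8_H_C_mul, fw8_H_X_mul,
      map_add, fw8_vop_X, fw8_vop_X, ih, ih]
    rw [show m - ((l : ℤ) + 1) + (j + 1) = m + (j + 1) - (l + 1) by ring]
    split_ifs with hj
    · rw [fw8_vop_C_mul]
      ring
    · rw [map_zero]
      ring

/-- The derivation part of `L(N+1)`. -/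
def fw8_del (N : ℕ) : Derivation ℂ (Fock ι) (Fock ι) :=
  mkDerivation ℂ fun x : ι × ℕ =>
    if N + 1 ≤ x.2 then ((x.2 : ℂ) - N) • (X (x.1, x.2 - (N + 1)) : Fock ι) else 0

theorem fw8_del_X (N : ℕ) (i : ι) (j : ℕ) : fw8_del N (X (i, j) : Fock ι) =
    if N + 1 ≤ j then C ((j : ℂ) - N) * (X (i, j - (N + 1)) : Fock ι) else 0 := by
  unfold fw8_del
  rw [mkDerivation_X]
  simp only [smul_eq_C_mul]

theorem fw8_heis (A : Matrix ι ι ℤ) (p : ℕ) (h : ι → ℂ) (n : ℤ) (l : ℕ) (hn : n = l + 1)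
    (f : Fock ι) : heis A p h n 0 f = fw8_H A p h l f := by
  subst hn
  unfold heis fw8_H
  rw [if_neg (by omega), if_neg (by omega), show ((l : ℤ) + 1 - 1).toNat = l by omega,
    LinearMap.sum_apply]
  refine Finset.sum_congr rfl fun i _ => ?_
  rw [LinearMap.smul_apply, smul_eq_C_mul]
  rfl

theorem fw8_Lop (A : Matrix ι ι ℤ) (p : ℕ) (s : ι → ℂ) (N : ℕ) (f : Fock ι) :
    Lop A p s ((N : ℤ) + 1) f = fw8_del N f + fw8_H A p (s - ((N : ℂ) + 2) • bg A p) N f +
      C (1 / 2) * ∑ n ∈ Finset.range N, ∑ i,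
        pderiv (i, n) (fw8_H A p (bb i) (N - 1 - n) f) := by
  have hN : ((N : ℤ) + 1).toNat = N + 1 := by omega
  have h1 : (mkDerivation ℂ fun x : ι × ℕ =>
      if ((N : ℤ) + 1).toNat ≤ x.2 then ((x.2 : ℂ) + 1 - (((N : ℤ) + 1 : ℤ) : ℂ)) •
        (X (x.1, x.2 - ((N : ℤ) + 1).toNat) : Fock ι) else 0) = fw8_del N := by
    unfold fw8_del
    congr 1
    funext x
    rw [hN, show (x.2 : ℂ) + 1 - (((N : ℤ) + 1 : ℤ) : ℂ) = (x.2 : ℂ) - N by push_cast; ring]
  unfold Lop
  rw [if_pos (by omega), h1, LinearMap.add_apply, LinearMap.add_apply, LinearMap.smul_apply,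
    fw8_heis A p _ ((N : ℤ) + 1) N rfl, smul_eq_C_mul, LinearMap.sum_apply, hN,
    Nat.add_sub_cancel, show s - ((((N : ℤ) + 1 : ℤ) : ℂ) + 1) • bg A p =
      s - ((N : ℂ) + 2) • bg A p by push_cast; congr 2; ring]
  congr 2
  refine Finset.sum_congr rfl fun n hn => ?_
  have hn' := Finset.mem_range.1 hn
  rw [LinearMap.sum_apply]
  refine Finset.sum_congr rfl fun i _ => ?_
  rw [LinearMap.comp_apply, fw8_heis A p (bb i) ((N : ℤ) + 1 - (n + 1)) (N - 1 - n) (by omega)]
  rfl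

theorem fw8_sec (A : Matrix ι ι ℤ) (hA : ∀ i j, A i j = A j i) (p : ℕ) (N : ℕ) (i : ι) (j : ℕ)
    (g : Fock ι) : ∑ n ∈ Finset.range N, ∑ a,
        pderiv (a, n) (fw8_H A p (bb a) (N - 1 - n) (X (i, j) * g)) =
      X (i, j) * (∑ n ∈ Finset.range N, ∑ a,
        pderiv (a, n) (fw8_H A p (bb a) (N - 1 - n) g)) +
      (if j < N then C 2 * fw8_H A p (bb i) (N - 1 - j) g else 0) := by
  have h1 : ∀ n ∈ Finset.range N, ∑ a,
        pderiv (a, n) (fw8_H A p (bb a) (N - 1 - n) (X (i, j) * g)) =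
      X (i, j) * (∑ a, pderiv (a, n) (fw8_H A p (bb a) (N - 1 - n) g)) +
      ((if n = j then fw8_H A p (bb i) (N - 1 - n) g else 0) +
      (if n = N - 1 - j ∧ j < N then fw8_H A p (bb i) n g else 0)) := by
    intro n hn
    have hn' := Finset.mem_range.1 hn
    have h2 : ∀ a ∈ Finset.univ,
        pderiv (a, n) (fw8_H A p (bb a) (N - 1 - n) (X (i, j) * g)) =
        X (i, j) * pderiv (a, n) (fw8_H A p (bb a) (N - 1 - n) g) +
        ((if a = i then (if n = j then fw8_H A p (bb a) (N - 1 - n) g else 0) else 0) +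
        (if n = N - 1 - j ∧ j < N then C (form A p (bb a) (bb i)) * pderiv (a, n) g else 0)) := by
      intro a _
      rw [fw8_H_X_mul, map_add, Derivation.leibniz, pderiv_X, smul_eq_mul, smul_eq_mul]
      have e1 : fw8_H A p (bb a) (N - 1 - n) g *
          (Pi.single (a, n) (1 : Fock ι) : ι × ℕ → Fock ι) (i, j) =
          (if a = i then (if n = j then fw8_H A p (bb a) (N - 1 - n) g else 0) else 0) := by
        by_cases ha : a = i
        · subst ha
          rw [if_pos rfl]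
          by_cases hj : n = j
          · subst hj
            rw [if_pos rfl, Pi.single_eq_same, mul_one]
          · rw [if_neg hj, Pi.single_eq_of_ne (by simp [Ne.symm hj]), mul_zero]
        · rw [if_neg ha, Pi.single_eq_of_ne (by simp [Ne.symm ha]), mul_zero]
      have e2 : pderiv (a, n) (if j = N - 1 - n then C (form A p (bb i) (bb a)) * g else 0) =
          (if n = N - 1 - j ∧ j < N then C (form A p (bb a) (bb i)) * pderiv (a, n) g
            else 0) := by
        by_cases hj : j = N - 1 - n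
        · rw [if_pos hj, if_pos ⟨by omega, by omega⟩, pderiv_C_mul,
            form_symm A hA p (bb i) (bb a)]
        · rw [if_neg hj, if_neg (by omega), map_zero]
      rw [e1, e2]
      ring
    rw [Finset.sum_congr rfl h2, Finset.sum_add_distrib, Finset.sum_add_distrib,
      Finset.sum_ite_eq' Finset.univ i, if_pos (Finset.mem_univ i), Finset.mul_sum]
    congr 2
    by_cases hj : n = N - 1 - j ∧ j < N
    · simp only [if_pos hj]
      rfl
    · simp only [if_neg hj]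
      exact Finset.sum_const_zero
  rw [Finset.sum_congr rfl h1, Finset.sum_add_distrib, Finset.sum_add_distrib, ← Finset.mul_sum]
  congr 1
  by_cases hj : j < N
  · rw [if_pos hj, Finset.sum_ite_eq' (Finset.range N) j, if_pos (Finset.mem_range.2 hj)]
    have h3 : ∀ n ∈ Finset.range N, (if n = N - 1 - j ∧ j < N then fw8_H A p (bb i) n g
        else 0) = (if n = N - 1 - j then fw8_H A p (bb i) n g else 0) := by
      intro n _
      by_cases h : n = N - 1 - j
      · rw [if_pos h, if_pos ⟨h, hj⟩]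
      · rw [if_neg h, if_neg (fun hh => h hh.1)]
    rw [Finset.sum_congr rfl h3, Finset.sum_ite_eq' (Finset.range N) (N - 1 - j),
      if_pos (Finset.mem_range.2 (by omega)), show (2 : ℂ) = 1 + 1 by norm_num, C_add, C_1]
    ring
  · rw [if_neg hj, Finset.sum_ite_eq' (Finset.range N) j,
      if_neg (fun h => hj (Finset.mem_range.1 h)), zero_add]
    refine Finset.sum_eq_zero fun n _ => ?_
    rw [if_neg (fun h => hj h.2)]

/-- The commutator of `L(N+1)` with a variable. -/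
def fw8_B (A : Matrix ι ι ℤ) (p : ℕ) (s : ι → ℂ) (N : ℕ) (i : ι) (j : ℕ) (g : Fock ι) :
    Fock ι :=
  (if N + 1 ≤ j then C ((j : ℂ) - N) * (X (i, j - (N + 1)) * g) else 0) +
    (if j = N then C (form A p (bb i) (s - ((N : ℂ) + 2) • bg A p)) * g else 0) +
    (if j < N then fw8_H A p (bb i) (N - 1 - j) g else 0)

theorem fw8_Lop_X (A : Matrix ι ι ℤ) (hA : ∀ i j, A i j = A j i) (p : ℕ) (s : ι → ℂ) (N : ℕ)
    (i : ι) (j : ℕ) (g : Fock ι) : Lop A p s ((N : ℤ) + 1) (X (i, j) * g) =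
      X (i, j) * Lop A p s ((N : ℤ) + 1) g + fw8_B A p s N i j g := by
  rw [fw8_Lop, fw8_Lop, Derivation.leibniz, fw8_del_X, fw8_H_X_mul, fw8_sec A hA, smul_eq_mul,
    smul_eq_mul]
  unfold fw8_B
  have h2 : (C (1 / 2 : ℂ) : Fock ι) * C 2 = 1 := by
    rw [← C_mul, ← C_1]
    congr 1
    norm_num
  by_cases h1 : N + 1 ≤ j
  · rw [if_pos h1, if_pos h1, if_neg (by omega), if_neg (by omega), if_neg (by omega)]
    ring
  · rw [if_neg h1, if_neg h1]
    by_cases h3 : j = N
    · rw [if_pos h3, if_neg (by omega), if_neg (by omega)]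
      ring
    · rw [if_neg h3, if_pos (by omega), if_pos (by omega)]
      linear_combination (fw8_H A p (bb i) (N - 1 - j) g) * h2

theorem fw8_B_vop (A : Matrix ι ι ℤ) (hA : ∀ i j, A i j = A j i) (p : ℕ) (s ν : ι → ℂ) (N : ℕ)
    (i : ι) (j : ℕ) (g : Fock ι) (m : ℤ) :
    fw8_B A p (s + ν) N i j (vop A p ν m g) - vop A p ν m (fw8_B A p s N i j g) =
      C (form A p (bb i) ν) * vop A p ν (m + (j + 1) - (N + 1)) g := by
  unfold fw8_B
  rcases lt_trichotomy j N with h | h | h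
  · rw [if_neg (by omega), if_neg (by omega), if_pos h, if_neg (by omega), if_neg (by omega),
      if_pos h]
    simp only [zero_add]
    rw [fw8_H_vop, form_symm A hA p ν (bb i),
      show m - (((N - 1 - j : ℕ) : ℤ) + 1) = m + (j + 1) - (N + 1) by omega]
    ring
  · subst h
    rw [if_neg (by omega), if_pos rfl, if_neg (by omega), if_neg (by omega), if_pos rfl,
      if_neg (by omega)]
    simp only [zero_add, add_zero]
    rw [fw8_vop_C_mul, add_sub_cancel_right, ← sub_mul, ← C_sub]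
    congr 2
    rw [fw8_form_sub_right, fw8_form_sub_right, fw8_form_add_right]
    ring
  · rw [if_pos (by omega), if_neg (by omega), if_neg (by omega), if_pos (by omega),
      if_neg (by omega), if_neg (by omega)]
    simp only [add_zero]
    rw [fw8_vop_C_mul, fw8_vop_X]
    have h1 : ((j - (N + 1) : ℕ) : ℂ) + 1 = (j : ℂ) - N := by
      rw [Nat.cast_sub (by omega)]
      push_cast
      ring
    have h2 : (j : ℂ) - N ≠ 0 := by
      rw [sub_ne_zero]
      have : j ≠ N := by omega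
      exact_mod_cast this
    have h3 : (C ((j : ℂ) - N) : Fock ι) * C (-(form A p (bb i) ν) / ((j : ℂ) - N)) =
        -C (form A p (bb i) ν) := by
      rw [← C_mul, ← C_neg]
      congr 1
      field_simp
    rw [h1, show m + (((j - (N + 1) : ℕ) : ℤ) + 1) = m + (j + 1) - (N + 1) by omega]
    linear_combination (-(vop A p ν (m + (j + 1) - (N + 1)) g)) * h3

theorem fw8_chain (D : Derivation ℂ (Fock ι) (Fock ι)) (f : Fock ι) :
    ∃ U₀ : Finset (ι × ℕ), ∀ U : Finset (ι × ℕ), U₀ ⊆ U →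
      D f = ∑ x ∈ U, pderiv x f * D (X x) := by
  induction f using MvPolynomial.induction_on with
  | C a =>
    refine ⟨∅, fun U _ => ?_⟩
    rw [derivation_C]
    symm
    refine Finset.sum_eq_zero fun x _ => ?_
    rw [pderiv_C, zero_mul]
  | add f g hf hg =>
    obtain ⟨U₁, h₁⟩ := hf
    obtain ⟨U₂, h₂⟩ := hg
    refine ⟨U₁ ∪ U₂, fun U hU => ?_⟩
    rw [map_add, h₁ U (Finset.union_subset_left hU), h₂ U (Finset.union_subset_right hU),
      ← Finset.sum_add_distrib]
    refine Finset.sum_congr rfl fun x _ => ?_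
    rw [map_add, add_mul]
  | mul_X f y ih =>
    obtain ⟨U₁, h₁⟩ := ih
    refine ⟨insert y U₁, fun U hU => ?_⟩
    have hy : y ∈ U := hU (Finset.mem_insert_self y U₁)
    rw [Derivation.leibniz, h₁ U (fun x hx => hU (Finset.mem_insert_of_mem hx)), smul_eq_mul,
      smul_eq_mul, Finset.mul_sum]
    have h2 : ∀ x ∈ U, pderiv x (f * X y) * D (X x) =
        (if x = y then f * D (X x) else 0) + X y * (pderiv x f * D (X x)) := by
      intro x _
      rw [Derivation.leibniz, pderiv_X, smul_eq_mul, smul_eq_mul]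
      by_cases hx : x = y
      · subst hx
        rw [if_pos rfl, Pi.single_eq_same]
        ring
      · rw [if_neg hx, Pi.single_eq_of_ne (Ne.symm hx)]
        ring
    rw [Finset.sum_congr rfl h2, Finset.sum_add_distrib, Finset.sum_ite_eq' U y, if_pos hy]

theorem fw8_del_exp_nat (ν : ι → ℂ) (N n : ℕ) : fw8_del N (expCoeff ν n) =
    C ((n : ℂ) - (N + 1)) * expCoeffZ ν ((n : ℤ) - (N + 1)) := by
  classical
  obtain ⟨U₀, h₀⟩ := fw8_chain (fw8_del N) (expCoeff ν n)
  have h1 := h₀ (U₀ ∪ (Finset.univ ×ˢ Finset.range n)) Finset.subset_union_left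
  have h2 : ∑ x ∈ (Finset.univ ×ˢ Finset.range n : Finset (ι × ℕ)),
      pderiv x (expCoeff ν n) * fw8_del N (X x) =
      ∑ x ∈ U₀ ∪ (Finset.univ ×ˢ Finset.range n),
      pderiv x (expCoeff ν n) * fw8_del N (X x) := by
    refine Finset.sum_subset Finset.subset_union_right fun x _ hx => ?_
    obtain ⟨i, j⟩ := x
    rw [pderiv_expCoeff, if_neg, zero_mul]
    intro hj
    apply hx
    rw [Finset.mem_product]
    exact ⟨Finset.mem_univ _, Finset.mem_range.2 (by simpa using hj)⟩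
  rw [h1, ← h2, Finset.sum_product_right]
  have h3 : ∀ j ∈ Finset.range n, ∑ i, pderiv (i, j) (expCoeff ν n) * fw8_del N (X (i, j)) =
      (if N + 1 ≤ j then C ((j : ℂ) - N) * osc ν (j - (N + 1)) * expCoeff ν (n - (j + 1))
        else 0) := by
    intro j hj
    have hj' := Finset.mem_range.1 hj
    by_cases hN : N + 1 ≤ j
    · rw [if_pos hN]
      unfold osc
      rw [Finset.mul_sum, Finset.sum_mul]
      refine Finset.sum_congr rfl fun i _ => ?_
      rw [pderiv_expCoeff, if_pos (by omega), fw8_del_X, if_pos hN]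
      ring
    · rw [if_neg hN]
      refine Finset.sum_eq_zero fun i _ => ?_
      rw [fw8_del_X, if_neg hN, mul_zero]
  rw [Finset.sum_congr rfl h3]
  rcases lt_or_ge n (N + 1) with hn | hn
  · rw [expCoeffZ_neg ν _ (by omega), mul_zero]
    refine Finset.sum_eq_zero fun j hj => ?_
    have hj' := Finset.mem_range.1 hj
    rw [if_neg (by omega)]
  · obtain ⟨r, rfl⟩ := Nat.exists_eq_add_of_le hn
    rw [Finset.sum_range_add]
    have h4 : ∑ x ∈ Finset.range (N + 1), (if N + 1 ≤ x then C ((x : ℂ) - N) *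
        osc ν (x - (N + 1)) * expCoeff ν (N + 1 + r - (x + 1)) else 0) = 0 := by
      refine Finset.sum_eq_zero fun x hx => ?_
      have hx' := Finset.mem_range.1 hx
      rw [if_neg (by omega)]
    rw [h4, zero_add, show (((N + 1 + r : ℕ) : ℤ)) - ((N : ℤ) + 1) = (r : ℕ) by push_cast; ring,
      expCoeffZ_nat, show ((N + 1 + r : ℕ) : ℂ) - ((N : ℂ) + 1) = (r : ℂ) by push_cast; ring]
    cases r with
    | zero => simp
    | succ r =>
      rw [show (((r + 1 : ℕ) : ℕ) : ℂ) = (r : ℂ) + 1 by push_cast; ring, expCoeff_succ]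
      refine Finset.sum_congr rfl fun x hx => ?_
      have hx' := Finset.mem_range.1 hx
      rw [if_pos (by omega), Nat.add_sub_cancel_left,
        show N + 1 + (r + 1) - (N + 1 + x + 1) = r - x by omega,
        show (((N + 1 + x : ℕ) : ℕ) : ℂ) - N = (x : ℂ) + 1 by push_cast; ring]

theorem fw8_del_exp (ν : ι → ℂ) (N : ℕ) (m : ℤ) : fw8_del N (expCoeffZ ν m) =
    C ((m : ℂ) - (N + 1)) * expCoeffZ ν (m - (N + 1)) := by
  rcases lt_or_ge m 0 with hm | hm
  · rw [expCoeffZ_neg ν m hm, expCoeffZ_neg ν _ (by omega), map_zero, mul_zero]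
  · obtain ⟨n, rfl⟩ := Int.eq_ofNat_of_zero_le hm
    have hn : expCoeffZ ν ((n : ℕ) : ℤ) = expCoeff ν n := expCoeffZ_nat ν n
    rw [hn, fw8_del_exp_nat]
    push_cast
    rfl

theorem fw8_Lop_exp (A : Matrix ι ι ℤ) (hA : ∀ i j, A i j = A j i) (p : ℕ) (s ν : ι → ℂ)
    (N : ℕ) (m : ℤ) : Lop A p (s + ν) ((N : ℤ) + 1) (expCoeffZ ν m) =
      C ((m : ℂ) - (N + 1) + form A p ν s +
        ((N : ℂ) + 2) * ((1 / 2 : ℂ) * form A p ν ν - form A p (bg A p) ν)) *
        expCoeffZ ν (m - (N + 1)) := by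
  rw [fw8_Lop, fw8_del_exp, fw8_H_exp]
  have h1 : ∀ n ∈ Finset.range N, ∑ i,
      pderiv (i, n) (fw8_H A p (bb i) (N - 1 - n) (expCoeffZ ν m)) =
      C (form A p ν ν) * expCoeffZ ν (m - (N + 1)) := by
    intro n hn
    have hn' := Finset.mem_range.1 hn
    rw [fw8_form_expand A p ν ν, map_sum, Finset.sum_mul]
    refine Finset.sum_congr rfl fun i _ => ?_
    rw [fw8_H_exp, pderiv_C_mul, fw8_pderiv_Z, C_mul, form_symm A hA p ν (bb i),
      show m - (((N - 1 - n : ℕ) : ℤ) + 1) - (n + 1) = m - (N + 1) by omega]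
    ring
  rw [Finset.sum_congr rfl h1, Finset.sum_const, Finset.card_range, nsmul_eq_mul,
    fw8_form_sub_right, fw8_form_add_right, fw8_form_smul_right,
    form_symm A hA p ν (bg A p)]
  have h2 : ((N : ℕ) : Fock ι) = C (N : ℂ) := (map_natCast C N).symm
  rw [h2, ← mul_assoc, ← mul_assoc, ← C_mul, ← C_mul, ← add_mul, ← add_mul, ← C_add, ← C_add]
  congr 2
  ring

theorem fw8_main (A : Matrix ι ι ℤ) (hA : ∀ i j, A i j = A j i) (p : ℕ) (s ν : ι → ℂ) (N : ℕ)
    (f : Fock ι) : ∀ m : ℤ,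
    Lop A p (s + ν) ((N : ℤ) + 1) (vop A p ν m f) - vop A p ν m (Lop A p s ((N : ℤ) + 1) f) =
      C ((m : ℂ) - (N + 1) + form A p ν s +
        ((N : ℂ) + 2) * ((1 / 2 : ℂ) * form A p ν ν - form A p (bg A p) ν)) *
        vop A p ν (m - (N + 1)) f := by
  have hlin : ∀ (t : ι → ℂ) (c : ℂ) (u : Fock ι),
      Lop A p t ((N : ℤ) + 1) (C c * u) = C c * Lop A p t ((N : ℤ) + 1) u := by
    intro t c u
    rw [← smul_eq_C_mul, map_smul, smul_eq_C_mul]
  obtain ⟨θ, hθ⟩ : ∃ θ : ℂ, θ = -((N : ℂ) + 1) + form A p ν s +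
        ((N : ℂ) + 2) * ((1 / 2 : ℂ) * form A p ν ν - form A p (bg A p) ν) := ⟨_, rfl⟩
  have hθ' : ∀ m : ℤ, (m : ℂ) - (N + 1) + form A p ν s +
        ((N : ℂ) + 2) * ((1 / 2 : ℂ) * form A p ν ν - form A p (bg A p) ν) = m + θ := by
    intro m
    rw [hθ]
    ring
  induction f using MvPolynomial.induction_on with
  | C a =>
    intro m
    have h1 : Lop A p s ((N : ℤ) + 1) (C a) = 0 := by
      have h2 := hlin s a 1
      rw [mul_one, Lop_one_pos A p s _ (by omega), mul_zero] at h2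
      exact h2
    rw [h1, map_zero, sub_zero, fw8_vop_C, fw8_vop_C, hlin, fw8_Lop_exp A hA]
    ring
  | add f g hf hg =>
    intro m
    rw [map_add (vop A p ν m) f g, map_add (vop A p ν (m - (N + 1))) f g,
      map_add (Lop A p s ((N : ℤ) + 1)) f g, map_add (Lop A p (s + ν) ((N : ℤ) + 1)),
      map_add (vop A p ν m), mul_add, ← hf m, ← hg m]
    ring
  | mul_X g x ih =>
    obtain ⟨i, j⟩ := x
    intro m
    rw [mul_comm g (X (i, j)), fw8_vop_X, map_add, hlin, fw8_Lop_X A hA, fw8_Lop_X A hA, map_add,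
      fw8_vop_X, fw8_vop_X]
    have i1 := ih m
    have i2 := ih (m + (j + 1))
    have i3 := fw8_B_vop A hA p s ν N i j g m
    rw [hθ' m] at i1
    rw [hθ' (m + (j + 1))] at i2
    rw [hθ' m, show m - ((N : ℤ) + 1) + (j + 1) = m + (j + 1) - (N + 1) by ring]
    have hj : (j : ℂ) + 1 ≠ 0 := by exact_mod_cast Nat.succ_ne_zero j
    have hc : C (-(form A p (bb i) ν) / ((j : ℂ) + 1)) *
        C (((m + (j + 1) : ℤ) : ℂ) + θ) + C (form A p (bb i) ν) =
        (C ((m : ℂ) + θ) * C (-(form A p (bb i) ν) / ((j : ℂ) + 1)) : Fock ι) := by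
      rw [← C_mul, ← C_mul, ← C_add]
      congr 1
      push_cast
      field_simp
      ring
    linear_combination X (i, j) * i1 + C (-(form A p (bb i) ν) / ((j : ℂ) + 1)) * i2 + i3 +
      vop A p ν (m + (j + 1) - (N + 1)) g * hc

theorem Lop_vop_pos (A : Matrix ι ι ℤ) (hA : IsADE A) (p : ℕ) (hp : 1 ≤ p) (s ν : ι → ℂ)
    (k : ℤ) (hk : 0 < k) (m : ℤ) :
    Lop A p (s + ν) k ∘ₗ vop A p ν m - vop A p ν m ∘ₗ Lop A p s k =
      ((m : ℂ) - k + form A p ν s +
        ((k : ℂ) + 1) * ((1 / 2 : ℂ) * form A p ν ν - form A p (bg A p) ν)) • vop A p ν (m - k) := by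
  obtain ⟨N, rfl⟩ : ∃ N : ℕ, k = (N : ℤ) + 1 := ⟨(k - 1).toNat, by omega⟩
  refine LinearMap.ext fun f => ?_
  rw [LinearMap.sub_apply, LinearMap.comp_apply, LinearMap.comp_apply, LinearMap.smul_apply,
    fw8_main A hA.symm p s ν N f m, smul_eq_C_mul]
  congr 2
  push_cast
  ring

end

end WPQ
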