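import Pool.Agent.WPQ.FW3
import Pool.Agent.WPQ.FW8

/-! [WPQ-FW11] Heisenberg operators and `vop`.

Plan for `heis_vop`: `vop ν m f = ∑_q E_{m+q} S_q f` (`vop_eq`, a common bound for `f` and its images).
`n < 0`: `heis h n` is multiplication by `(-n) osc h (-n-1)`; `annih ν (osc h k) =
osc h k - ⟨h,ν⟩/(k+1) u^(k+1)` and `annih` is multiplicative, so
`S_q (osc h k * f) = osc h k * S_q f - ⟨h,ν⟩/(k+1) S_{q-k-1} f`.  `n > 0`: derivation; it commutes with
`S_q` and `h(n) E_j = ⟨h,ν⟩ E_{j-n}` (`pderiv_expCoeff`).  `n = 0`: scalars. -/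

namespace WPQ

open MvPolynomial

noncomputable section

variable {ι : Type} [Fintype ι] [DecidableEq ι]

theorem fw11_C_mul (L : Fock ι →ₗ[ℂ] Fock ι) (a : ℂ) (g : Fock ι) : L (C a * g) = C a * L g := by
  rw [← smul_eq_C_mul, map_smul, smul_eq_C_mul]

theorem fw11_form_left (A : Matrix ι ι ℤ) (p : ℕ) (η ν : ι → ℂ) :
    ∑ i, η i * form A p (bb i) ν = form A p η ν := by
  unfold form bb
  rw [Finset.mul_sum]
  refine Finset.sum_congr rfl fun i _ => ?_
  have h5 : ∑ l, ∑ j, (Pi.single i (1 : ℂ) : ι → ℂ) l * (A l j : ℂ) * ν j =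
      ∑ j, (A i j : ℂ) * ν j := by
    rw [Finset.sum_eq_single i]
    · refine Finset.sum_congr rfl fun j _ => ?_
      rw [Pi.single_eq_same, one_mul]
    · intro l _ hl
      refine Finset.sum_eq_zero fun j _ => ?_
      rw [Pi.single_eq_of_ne hl, zero_mul, zero_mul]
    · intro h6
      exact absurd (Finset.mem_univ i) h6
  rw [h5, Finset.mul_sum, Finset.mul_sum, Finset.mul_sum]
  refine Finset.sum_congr rfl fun j _ => ?_
  ring

/-- the product with a variable -/
theorem fw11_mul_X (A : Matrix ι ι ℤ) (p : ℕ) (ν : ι → ℂ) (q : ℕ) (f : Fock ι) (i : ι) (k : ℕ) :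
    Sop A p ν q (X (i, k) * f) = X (i, k) * Sop A p ν q f +
      (if k + 1 ≤ q then C (-(form A p (bb i) ν) / (k + 1)) * Sop A p ν (q - (k + 1)) f
        else 0) := by
  rw [Sop_mul, Finset.Nat.sum_antidiagonal_eq_sum_range_succ_mk]
  have h1 : ∀ a ∈ Finset.range q.succ, Sop A p ν (a, q - a).1 (X (i, k)) * Sop A p ν (a, q - a).2 f =
      (if a = 0 then X (i, k) * Sop A p ν (q - a) f else 0) +
      (if a = k + 1 then C (-(form A p (bb i) ν) / (k + 1)) * Sop A p ν (q - a) f else 0) := by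
    intro a _
    show Sop A p ν a (X (i, k)) * Sop A p ν (q - a) f = _
    rw [Sop_X]
    by_cases h0 : a = 0
    · rw [if_pos h0, if_pos h0, if_neg (by omega), add_zero]
    · rw [if_neg h0, if_neg h0, zero_add]
      by_cases h2 : a = k + 1
      · rw [if_pos h2, if_pos h2]
      · rw [if_neg h2, if_neg h2, zero_mul]
  rw [Finset.sum_congr rfl h1, Finset.sum_add_distrib, Finset.sum_ite_eq' (Finset.range q.succ) 0,
    Finset.sum_ite_eq' (Finset.range q.succ) (k + 1), if_pos (Finset.mem_range.2 (Nat.succ_pos q)),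
    Nat.sub_zero]
  congr 1
  by_cases h : k + 1 ≤ q
  · rw [if_pos h, if_pos (Finset.mem_range.2 (Nat.lt_succ_of_le h))]
  · rw [if_neg h, if_neg fun h' => h (Nat.le_of_lt_succ (Finset.mem_range.1 h'))]

theorem fw11_Sop_osc (A : Matrix ι ι ℤ) (p : ℕ) (ν h : ι → ℂ) (k : ℕ) (f : Fock ι) (q : ℕ) :
    Sop A p ν q (osc h k * f) = osc h k * Sop A p ν q f +
      (if k + 1 ≤ q then C (-(form A p h ν) / (k + 1)) * Sop A p ν (q - (k + 1)) f else 0) := by
  have h1 : ∀ g : Fock ι, osc h k * g = ∑ i, C (h i) * (X (i, k) * g) := by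
    intro g
    unfold osc
    rw [Finset.sum_mul]
    exact Finset.sum_congr rfl fun i _ => mul_assoc _ _ _
  rw [h1 f, h1 (Sop A p ν q f), map_sum]
  have h3 : ∀ i ∈ (Finset.univ : Finset ι), Sop A p ν q (C (h i) * (X (i, k) * f)) =
      C (h i) * (X (i, k) * Sop A p ν q f) +
      (if k + 1 ≤ q then C (h i * (-(form A p (bb i) ν) / (k + 1))) *
        Sop A p ν (q - (k + 1)) f else 0) := by
    intro i _
    rw [fw11_C_mul, fw11_mul_X, mul_add]
    congr 1
    by_cases h4 : k + 1 ≤ q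
    · rw [if_pos h4, if_pos h4, C_mul, mul_assoc]
    · rw [if_neg h4, if_neg h4, mul_zero]
  rw [Finset.sum_congr rfl h3, Finset.sum_add_distrib]
  congr 1
  by_cases h4 : k + 1 ≤ q
  · simp only [if_pos h4]
    rw [← Finset.sum_mul, ← map_sum]
    congr 2
    rw [← fw11_form_left A p h ν, ← Finset.sum_neg_distrib, Finset.sum_div]
    refine Finset.sum_congr rfl fun i _ => ?_
    ring
  · simp only [if_neg h4]
    rw [Finset.sum_const_zero]

/-- a bound for the annihilation part -/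
theorem fw11_bound (A : Matrix ι ι ℤ) (p : ℕ) (ν : ι → ℂ) (f : Fock ι) :
    ∃ D : ℕ, ∀ q, D < q → Sop A p ν q f = 0 := by
  refine ⟨(annih A p ν f).natDegree, fun q hq => ?_⟩
  exact Polynomial.coeff_eq_zero_of_natDegree_lt hq

theorem fw11_bound_mono (A : Matrix ι ι ℤ) (p : ℕ) (ν : ι → ℂ) (f : Fock ι) (m : ℤ) {D E : ℕ}
    (hD : ∀ q, D < q → Sop A p ν q f = 0) (hDE : D ≤ E) :
    vop A p ν m f = ∑ q ∈ Finset.range (E + 1), expCoeffZ ν (m + q) * Sop A p ν q f :=
  vop_eq A p ν m f E fun q hq => hD q (lt_of_le_of_lt hDE hq)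

/-- `vop` and multiplication by an oscillator -/
theorem fw11_vop_osc (A : Matrix ι ι ℤ) (p : ℕ) (ν h : ι → ℂ) (k : ℕ) (m : ℤ) (f : Fock ι) :
    vop A p ν m (osc h k * f) = osc h k * vop A p ν m f +
      C (-(form A p h ν) / (k + 1)) * vop A p ν (m + (k + 1)) f := by
  obtain ⟨D, hD⟩ := fw11_bound A p ν f
  have hD' : ∀ q, D + (k + 1) < q → Sop A p ν q (osc h k * f) = 0 := by
    intro q hq
    rw [fw11_Sop_osc, hD q (by omega), mul_zero, zero_add, if_pos (by omega),
      hD (q - (k + 1)) (by omega), mul_zero]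
  rw [vop_eq A p ν m (osc h k * f) (D + (k + 1)) hD',
    fw11_bound_mono A p ν f m hD (Nat.le_add_right D (k + 1)), vop_eq A p ν (m + (k + 1)) f D hD,
    Finset.mul_sum, Finset.mul_sum]
  have h1 : ∀ q ∈ Finset.range (D + (k + 1) + 1),
      expCoeffZ ν (m + q) * Sop A p ν q (osc h k * f) =
      osc h k * (expCoeffZ ν (m + q) * Sop A p ν q f) +
      (if k + 1 ≤ q then C (-(form A p h ν) / (k + 1)) *
        (expCoeffZ ν (m + q) * Sop A p ν (q - (k + 1)) f) else 0) := by
    intro q _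
    rw [fw11_Sop_osc, mul_add]
    congr 1
    · ring
    · by_cases h4 : k + 1 ≤ q
      · rw [if_pos h4, if_pos h4]
        ring
      · rw [if_neg h4, if_neg h4, mul_zero]
  rw [Finset.sum_congr rfl h1, Finset.sum_add_distrib]
  congr 1
  have h2 : D + (k + 1) + 1 = (k + 1) + (D + 1) := by omega
  rw [h2, Finset.sum_range_add, Finset.sum_eq_zero, zero_add]
  · refine Finset.sum_congr rfl fun q _ => ?_
    rw [if_pos (by omega)]
    have h3 : k + 1 + q - (k + 1) = q := by omega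
    have h4 : m + ((k + 1 + q : ℕ) : ℤ) = m + (k + 1) + q := by
      push_cast
      ring
    rw [h3, h4]
  · intro q hq
    rw [if_neg]
    have := Finset.mem_range.1 hq
    omega

/-- the annihilation operator as a derivation -/
def fw11_der (A : Matrix ι ι ℤ) (p : ℕ) (h : ι → ℂ) (k : ℕ) : Fock ι →ₗ[ℂ] Fock ι :=
  ∑ i, form A p (bb i) h • (pderiv (R := ℂ) (i, k)).toLinearMap

theorem fw11_der_apply (A : Matrix ι ι ℤ) (p : ℕ) (h : ι → ℂ) (k : ℕ) (f : Fock ι) :
    fw11_der A p h k f = ∑ i, C (form A p (bb i) h) * pderiv (i, k) f := by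
  unfold fw11_der
  rw [LinearMap.sum_apply]
  refine Finset.sum_congr rfl fun i _ => ?_
  rw [LinearMap.smul_apply, smul_eq_C_mul]
  rfl

theorem fw11_der_mul (A : Matrix ι ι ℤ) (p : ℕ) (h : ι → ℂ) (k : ℕ) (f g : Fock ι) :
    fw11_der A p h k (f * g) = fw11_der A p h k f * g + f * fw11_der A p h k g := by
  rw [fw11_der_apply, fw11_der_apply, fw11_der_apply, Finset.sum_mul, Finset.mul_sum,
    ← Finset.sum_add_distrib]
  refine Finset.sum_congr rfl fun i _ => ?_
  rw [pderiv_mul]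
  ring

theorem fw11_der_C (A : Matrix ι ι ℤ) (p : ℕ) (h : ι → ℂ) (k : ℕ) (a : ℂ) :
    fw11_der A p h k (C a) = 0 := by
  rw [fw11_der_apply]
  refine Finset.sum_eq_zero fun i _ => ?_
  rw [pderiv_C, mul_zero]

theorem fw11_der_X (A : Matrix ι ι ℤ) (p : ℕ) (h : ι → ℂ) (k : ℕ) (i : ι) (j : ℕ) :
    fw11_der A p h k (X (i, j)) = C (if j = k then form A p (bb i) h else 0) := by
  rw [fw11_der_apply]
  have h1 : ∀ l ∈ (Finset.univ : Finset ι), C (form A p (bb l) h) *
      pderiv (l, k) (X (i, j) : Fock ι) =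
      if l = i then (C (if j = k then form A p (bb l) h else 0) : Fock ι) else 0 := by
    intro l _
    rw [pderiv_X]
    by_cases h2 : l = i
    · rw [if_pos h2]
      by_cases h3 : j = k
      · rw [if_pos h3, h2, h3, Pi.single_eq_same, mul_one]
      · rw [if_neg h3, Pi.single_eq_of_ne (fun h4 => h3 (by simpa using congrArg Prod.snd h4)),
          mul_zero, C_0]
    · rw [if_neg h2, Pi.single_eq_of_ne (fun h4 => h2 (by
        simpa using (congrArg Prod.fst h4).symm)), mul_zero]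
  rw [Finset.sum_congr rfl h1, Finset.sum_ite_eq' Finset.univ i, if_pos (Finset.mem_univ i)]

theorem fw11_heis_neg (A : Matrix ι ι ℤ) (p : ℕ) (h s : ι → ℂ) (k : ℕ) (f : Fock ι) :
    heis A p h (-((k : ℤ) + 1)) s f = C ((k : ℂ) + 1) * (osc h k * f) := by
  unfold heis
  rw [if_pos (by omega), LinearMap.smul_apply, LinearMap.mulLeft_apply, smul_eq_C_mul]
  have h1 : (-(-((k : ℤ) + 1)) - 1).toNat = k := by omega
  rw [h1]
  congr 2
  push_cast
  ring

theorem fw11_heis_zero (A : Matrix ι ι ℤ) (p : ℕ) (h s : ι → ℂ) (f : Fock ι) :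
    heis A p h 0 s f = C (form A p h s) * f := by
  unfold heis
  rw [if_neg (by omega), if_pos rfl, LinearMap.smul_apply, smul_eq_C_mul]
  rfl

theorem fw11_heis_pos (A : Matrix ι ι ℤ) (p : ℕ) (h s : ι → ℂ) (k : ℕ) (f : Fock ι) :
    heis A p h ((k : ℤ) + 1) s f = fw11_der A p h k f := by
  unfold heis fw11_der bb
  rw [if_neg (by omega), if_neg (by omega)]
  have h1 : ((k : ℤ) + 1 - 1).toNat = k := by omega
  rw [h1]

theorem fw11_der_Sop (A : Matrix ι ι ℤ) (p : ℕ) (h ν : ι → ℂ) (k q : ℕ) (f : Fock ι) :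
    fw11_der A p h k (Sop A p ν q f) = Sop A p ν q (fw11_der A p h k f) := by
  have hSC : ∀ (q : ℕ) (a : ℂ), Sop A p ν q (C a) = if q = 0 then C a else 0 := by
    intro q a
    have h1 : (C a : Fock ι) = C a * 1 := (mul_one _).symm
    rw [h1, fw11_C_mul, Sop_one]
    split_ifs
    · rfl
    · rw [mul_zero]
  induction f using MvPolynomial.induction_on generalizing q with
  | C a =>
    rw [hSC, fw11_der_C, map_zero]
    split_ifs
    · exact fw11_der_C A p h k a
    · exact map_zero _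
  | add f g hf hg => rw [map_add, map_add, map_add, map_add, hf, hg]
  | mul_X f x hf =>
    obtain ⟨i, j⟩ := x
    rw [mul_comm f, fw11_mul_X, map_add, fw11_der_mul, fw11_der_mul, map_add, fw11_mul_X,
      fw11_der_X, fw11_C_mul, hf q]
    have h1 : fw11_der A p h k (if j + 1 ≤ q then C (-(form A p (bb i) ν) / (j + 1)) *
        Sop A p ν (q - (j + 1)) f else 0) = (if j + 1 ≤ q then
        C (-(form A p (bb i) ν) / (j + 1)) * Sop A p ν (q - (j + 1)) (fw11_der A p h k f)
          else 0) := by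
      split_ifs
      · rw [fw11_C_mul, hf]
      · exact map_zero _
    rw [h1]
    ring

theorem fw11_der_exp (A : Matrix ι ι ℤ) (hA : ∀ i j, A i j = A j i) (p : ℕ) (h ν : ι → ℂ)
    (k : ℕ) (j : ℤ) :
    fw11_der A p h k (expCoeffZ ν j) = C (form A p h ν) * expCoeffZ ν (j - (k + 1)) := by
  rcases lt_or_ge j 0 with hj | hj
  · rw [expCoeffZ_neg ν j hj, expCoeffZ_neg ν (j - (k + 1)) (by omega), map_zero, mul_zero]
  · obtain ⟨n, rfl⟩ := Int.eq_ofNat_of_zero_le hj
    rw [expCoeffZ_nat, fw11_der_apply]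
    have h1 : ∀ i ∈ (Finset.univ : Finset ι), C (form A p (bb i) h) *
        pderiv (i, k) (expCoeff ν n) = C (ν i * form A p (bb i) h) *
        expCoeffZ ν ((n : ℤ) - (k + 1)) := by
      intro i _
      rw [pderiv_expCoeff]
      by_cases h2 : k + 1 ≤ n
      · have h3 : (n : ℤ) - ((k : ℤ) + 1) = ((n - (k + 1) : ℕ) : ℤ) := by omega
        rw [if_pos h2, h3, expCoeffZ_nat, C_mul]
        ring
      · rw [if_neg h2, expCoeffZ_neg ν _ (by omega), mul_zero, mul_zero]
    rw [Finset.sum_congr rfl h1, ← Finset.sum_mul, ← map_sum, fw11_form_left,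
      form_symm A hA p ν h]

theorem heis_vop (A : Matrix ι ι ℤ) (hA : ∀ i j, A i j = A j i) (p : ℕ) (h ν s : ι → ℂ)
    (n m : ℤ) :
    heis A p h n (s + ν) ∘ₗ vop A p ν m - vop A p ν m ∘ₗ heis A p h n s =
      form A p h ν • vop A p ν (m - n) := by
  refine LinearMap.ext fun f => ?_
  rw [LinearMap.sub_apply, LinearMap.comp_apply, LinearMap.comp_apply, LinearMap.smul_apply,
    smul_eq_C_mul]
  rcases lt_trichotomy n 0 with hn | hn | hn
  · obtain ⟨k, hk⟩ : ∃ k : ℕ, n = -((k : ℤ) + 1) := ⟨(-n - 1).toNat, by omega⟩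
    have hk0 : ((k : ℂ) + 1) ≠ 0 := by exact_mod_cast Nat.succ_ne_zero k
    have h1 : m - n = m + (k + 1) := by omega
    rw [h1, hk, fw11_heis_neg, fw11_heis_neg, fw11_C_mul, fw11_vop_osc, mul_add, ← mul_assoc
      (C ((k : ℂ) + 1)) (C (-(form A p h ν) / ((k : ℂ) + 1))), ← C_mul,
      mul_div_cancel₀ _ hk0, C_neg]
    ring
  · subst hn
    rw [sub_zero, fw11_heis_zero, fw11_heis_zero, fw11_C_mul, ← sub_mul, ← C_sub]
    congr 2
    unfold form
    rw [← mul_sub, ← Finset.sum_sub_distrib]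
    congr 1
    refine Finset.sum_congr rfl fun i _ => ?_
    rw [← Finset.sum_sub_distrib]
    refine Finset.sum_congr rfl fun j _ => ?_
    rw [Pi.add_apply]
    ring
  · obtain ⟨k, rfl⟩ : ∃ k : ℕ, n = (k : ℤ) + 1 := ⟨(n - 1).toNat, by omega⟩
    rw [fw11_heis_pos, fw11_heis_pos]
    obtain ⟨D, hD⟩ := fw11_bound A p ν f
    have hD' : ∀ q, D < q → Sop A p ν q (fw11_der A p h k f) = 0 := by
      intro q hq
      rw [← fw11_der_Sop, hD q hq, map_zero]
    rw [vop_eq A p ν m f D hD, vop_eq A p ν m _ D hD', vop_eq A p ν (m - (k + 1)) f D hD,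
      map_sum, ← Finset.sum_sub_distrib, Finset.mul_sum]
    refine Finset.sum_congr rfl fun q _ => ?_
    rw [fw11_der_mul, fw11_der_exp A hA, fw11_der_Sop]
    have h1 : m + (q : ℤ) - ((k : ℤ) + 1) = m - (k + 1) + q := by ring
    rw [h1]
    ring

theorem fw11_der_osc (A : Matrix ι ι ℤ) (p : ℕ) (h h' : ι → ℂ) (k j : ℕ) :
    fw11_der A p h k (osc h' j) = C (if j = k then form A p h' h else 0) := by
  unfold osc
  rw [map_sum]
  have h1 : ∀ i ∈ (Finset.univ : Finset ι), fw11_der A p h k (C (h' i) * X (i, j)) =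
      C (if j = k then h' i * form A p (bb i) h else 0) := by
    intro i _
    rw [fw11_C_mul, fw11_der_X, ← C_mul]
    split_ifs
    · rfl
    · rw [mul_zero]
  rw [Finset.sum_congr rfl h1, ← map_sum]
  congr 1
  by_cases hj : j = k
  · simp only [if_pos hj]
    exact fw11_form_left A p h' h
  · simp only [if_neg hj]
    exact Finset.sum_const_zero

theorem fw11_comm (A : Matrix ι ι ℤ) (p : ℕ) (h h' : ι → ℂ) (k j : ℕ) (f : Fock ι) :
    fw11_der A p h k (C ((j : ℂ) + 1) * (osc h' j * f)) -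
      C ((j : ℂ) + 1) * (osc h' j * fw11_der A p h k f) =
      C (if j = k then ((j : ℂ) + 1) * form A p h' h else 0) * f := by
  rw [fw11_C_mul, fw11_der_mul, fw11_der_osc]
  by_cases hj : j = k
  · rw [if_pos hj, if_pos hj, C_mul]
    ring
  · rw [if_neg hj, if_neg hj, C_0]
    ring

theorem heis_heis (A : Matrix ι ι ℤ) (hA : ∀ i j, A i j = A j i) (p : ℕ) (h h' s : ι → ℂ)
    (m n : ℤ) :
    heis A p h m s ∘ₗ heis A p h' n s - heis A p h' n s ∘ₗ heis A p h m s =
      if m + n = 0 then ((m : ℂ) * form A p h h') • LinearMap.id else 0 := by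
  have hR : ∀ f : Fock ι, (if m + n = 0 then ((m : ℂ) * form A p h h') •
      (LinearMap.id : Fock ι →ₗ[ℂ] Fock ι) else 0) f =
      C (if m + n = 0 then (m : ℂ) * form A p h h' else 0) * f := by
    intro f
    split_ifs
    · rw [LinearMap.smul_apply, smul_eq_C_mul]
      rfl
    · rw [C_0, zero_mul]
      rfl
  refine LinearMap.ext fun f => ?_
  rw [LinearMap.sub_apply, LinearMap.comp_apply, LinearMap.comp_apply, hR]
  rcases lt_trichotomy m 0 with hm | hm | hm
  · obtain ⟨k, rfl⟩ : ∃ k : ℕ, m = -((k : ℤ) + 1) := ⟨(-m - 1).toNat, by omega⟩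
    rcases lt_trichotomy n 0 with hn | hn | hn
    · obtain ⟨j, rfl⟩ : ∃ j : ℕ, n = -((j : ℤ) + 1) := ⟨(-n - 1).toNat, by omega⟩
      rw [if_neg (by omega), C_0, fw11_heis_neg, fw11_heis_neg, fw11_heis_neg, fw11_heis_neg]
      ring
    · subst hn
      rw [if_neg (by omega), C_0, fw11_heis_neg, fw11_heis_neg, fw11_heis_zero, fw11_heis_zero]
      ring
    · obtain ⟨j, rfl⟩ : ∃ j : ℕ, n = (j : ℤ) + 1 := ⟨(n - 1).toNat, by omega⟩
      rw [fw11_heis_neg, fw11_heis_neg, fw11_heis_pos, fw11_heis_pos, ← neg_sub, fw11_comm]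
      by_cases hkj : k = j
      · rw [if_pos hkj, if_pos (by omega), ← neg_mul, ← C_neg]
        congr 2
        push_cast
        ring
      · rw [if_neg hkj, if_neg (by omega), C_0, zero_mul, neg_zero]
  · subst hm
    rw [fw11_heis_zero, fw11_heis_zero, fw11_C_mul, sub_self]
    have h1 : (if 0 + n = 0 then (((0 : ℤ) : ℂ)) * form A p h h' else 0) = 0 := by
      split_ifs
      · rw [Int.cast_zero, zero_mul]
      · rfl
    rw [h1, C_0, zero_mul]
  · obtain ⟨k, rfl⟩ : ∃ k : ℕ, m = (k : ℤ) + 1 := ⟨(m - 1).toNat, by omega⟩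
    rcases lt_trichotomy n 0 with hn | hn | hn
    · obtain ⟨j, rfl⟩ : ∃ j : ℕ, n = -((j : ℤ) + 1) := ⟨(-n - 1).toNat, by omega⟩
      rw [fw11_heis_neg, fw11_heis_neg, fw11_heis_pos, fw11_heis_pos, fw11_comm,
        form_symm A hA p h' h]
      by_cases hkj : j = k
      · rw [if_pos hkj, if_pos (by omega), hkj]
        congr 2
        push_cast
        ring
      · rw [if_neg hkj, if_neg (by omega)]
    · subst hn
      rw [if_neg (by omega), C_0, fw11_heis_pos, fw11_heis_pos, fw11_heis_zero, fw11_heis_zero,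
        fw11_C_mul]
      ring
    · obtain ⟨j, rfl⟩ : ∃ j : ℕ, n = (j : ℤ) + 1 := ⟨(n - 1).toNat, by omega⟩
      rw [if_neg (by omega), C_0, zero_mul, fw11_heis_pos, fw11_heis_pos, fw11_heis_pos,
        fw11_heis_pos, sub_eq_zero]
      have hcm : ∀ (x y : ι × ℕ) (g : Fock ι), pderiv x (pderiv y g) = pderiv y (pderiv x g) := by
        intro x y g
        have h1 := congrArg (fun D : Derivation ℂ (Fock ι) (Fock ι) => D g)
          (show ⁅pderiv (R := ℂ) x, pderiv (R := ℂ) y⁆ = 0 from by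
            refine MvPolynomial.derivation_ext fun z => ?_
            rw [Derivation.commutator_apply, pderiv_X, pderiv_X, Derivation.coe_zero,
              Pi.zero_apply]
            have h2 : ∀ w u : ι × ℕ, pderiv w ((Pi.single u (1 : Fock ι) : ι × ℕ → Fock ι) z) =
                0 := by
              intro w u
              by_cases h3 : z = u
              · rw [h3, Pi.single_eq_same]
                exact pderiv_one
              · rw [Pi.single_eq_of_ne h3, map_zero]
            rw [h2, h2, sub_zero])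
        exact sub_eq_zero.1 h1
      rw [fw11_der_apply A p h' j f, fw11_der_apply A p h k f, map_sum, map_sum]
      have h1 : ∀ i ∈ (Finset.univ : Finset ι),
          fw11_der A p h k (C (form A p (bb i) h') * pderiv (i, j) f) =
          ∑ l, C (form A p (bb i) h') * (C (form A p (bb l) h) *
            pderiv (l, k) (pderiv (i, j) f)) := by
        intro i _
        rw [fw11_C_mul, fw11_der_apply, Finset.mul_sum]
      have h2 : ∀ l ∈ (Finset.univ : Finset ι),
          fw11_der A p h' j (C (form A p (bb l) h) * pderiv (l, k) f) =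
          ∑ i, C (form A p (bb i) h') * (C (form A p (bb l) h) *
            pderiv (l, k) (pderiv (i, j) f)) := by
        intro l _
        rw [fw11_C_mul, fw11_der_apply, Finset.mul_sum]
        refine Finset.sum_congr rfl fun i _ => ?_
        rw [hcm (i, j) (l, k)]
        ring
      rw [Finset.sum_congr rfl h1, Finset.sum_congr rfl h2, Finset.sum_comm]

theorem heis_trunc (A : Matrix ι ι ℤ) (p : ℕ) (h s : ι → ℂ) (f : Fock ι) :
    ∃ N : ℤ, ∀ n ≥ N, heis A p h n s f = 0 := by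
  refine ⟨(f.vars.sup fun x => x.2 + 2 : ℕ) + 1, fun n hn => ?_⟩
  obtain ⟨k, rfl⟩ : ∃ k : ℕ, n = (k : ℤ) + 1 := ⟨(n - 1).toNat, by omega⟩
  rw [fw11_heis_pos, fw11_der_apply]
  refine Finset.sum_eq_zero fun i _ => ?_
  rw [pderiv_eq_zero_of_notMem_vars, mul_zero]
  intro h1
  have h2 : k + 2 ≤ f.vars.sup fun x => x.2 + 2 :=
    Finset.le_sup (f := fun x : ι × ℕ => x.2 + 2) h1
  omega

theorem Lop_trunc (A : Matrix ι ι ℤ) (p : ℕ) (s : ι → ℂ) (f : Fock ι) :
    ∃ N : ℤ, ∀ n ≥ N, Lop A p s n f = 0 := by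
  refine ⟨(f.support.sup fun m => Finsupp.weight (wF (ι := ι)) m : ℕ) + 1, fun n hn => ?_⟩
  rw [f.as_sum, map_sum]
  refine Finset.sum_eq_zero fun m hm => ?_
  refine Lop_eq_zero A p s n _ (Finsupp.weight (wF (ι := ι)) m)
    (isWeightedHomogeneous_monomial _ _ _ rfl) ?_
  have h2 : Finsupp.weight (wF (ι := ι)) m ≤
      f.support.sup fun m => Finsupp.weight (wF (ι := ι)) m :=
    Finset.le_sup (f := fun m => Finsupp.weight (wF (ι := ι)) m) hm
  omega

end

end WPQ
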