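import Pool.Agent.WPQ.FW4

/-! [WPQ-FW5] The short screening commutes with the long screening of the same index.

Proof.  For charges `ν, η` with `⟨ν, η⟩ = -2` and `ν = σ (ν + η)` one has, for all integers `κ, t`,
`Γ_ν(κ+1) Γ_η(t-κ-1) - Γ_η(t-κ+1) Γ_ν(κ-1) = (σ t - κ) Γ_{ν+η}(t)` (`fw5_main`), by induction on
the polynomial (multiplication by a variable, `fw5_vop_X`); for the constant `1` it is an identity
for the coefficients of the creation exponentials. -/

namespace WPQ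

open MvPolynomial

noncomputable section

variable {ι : Type} [Fintype ι] [DecidableEq ι]

theorem fw5_form_add_right (A : Matrix ι ι ℤ) (p : ℕ) (ν η ξ : ι → ℂ) :
    form A p ν (η + ξ) = form A p ν η + form A p ν ξ := by
  unfold form
  rw [← mul_add, ← Finset.sum_add_distrib]
  congr 1
  refine Finset.sum_congr rfl fun i _ => ?_
  rw [← Finset.sum_add_distrib]
  refine Finset.sum_congr rfl fun k _ => ?_
  rw [Pi.add_apply, mul_add]

theorem fw5_form_smul_right (A : Matrix ι ι ℤ) (p : ℕ) (c : ℂ) (ν η : ι → ℂ) :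
    form A p ν (c • η) = c * form A p ν η := by
  unfold form
  have h : ∀ B : ι → ι → ℂ, ∑ i, ∑ k, ν i * B i k * (c • η) k = c * ∑ i, ∑ k, ν i * B i k * η k := by
    intro B
    rw [Finset.mul_sum]
    refine Finset.sum_congr rfl fun i _ => ?_
    rw [Finset.mul_sum]
    refine Finset.sum_congr rfl fun k _ => ?_
    rw [Pi.smul_apply, smul_eq_mul]
    ring
  rw [h (fun i k => (A i k : ℂ))]
  ring

theorem fw5_osc_smul (c : ℂ) (ν : ι → ℂ) (k : ℕ) : osc (c • ν) k = C c * osc ν k := by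
  unfold osc
  rw [Finset.mul_sum]
  refine Finset.sum_congr rfl fun i _ => ?_
  rw [Pi.smul_apply, smul_eq_mul, C_mul, mul_assoc]

theorem fw5_Sop_bound (A : Matrix ι ι ℤ) (p : ℕ) (ν : ι → ℂ) (f : Fock ι) :
    ∀ q, (annih A p ν f).natDegree < q → Sop A p ν q f = 0 := by
  intro q hq
  exact Polynomial.coeff_eq_zero_of_natDegree_lt hq

theorem fw5_Sop_X_mul (A : Matrix ι ι ℤ) (p : ℕ) (ν : ι → ℂ) (q : ℕ) (i : ι) (k : ℕ)
    (g : Fock ι) : Sop A p ν q (X (i, k) * g) = X (i, k) * Sop A p ν q g +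
      (if k + 1 ≤ q then C (-(form A p (bb i) ν) / (k + 1)) * Sop A p ν (q - (k + 1)) g
        else 0) := by
  rw [Sop_mul, Finset.Nat.sum_antidiagonal_eq_sum_range_succ
    (fun a b => Sop A p ν a (X (i, k)) * Sop A p ν b g)]
  have h : ∀ a ∈ Finset.range q.succ, Sop A p ν a (X (i, k)) * Sop A p ν (q - a) g =
      (if a = 0 then X (i, k) * Sop A p ν (q - a) g else 0) +
      (if a = k + 1 then C (-(form A p (bb i) ν) / (k + 1)) * Sop A p ν (q - a) g else 0) := by
    intro a _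
    rw [Sop_X]
    by_cases h0 : a = 0
    · subst h0
      simp
    · rw [if_neg h0, if_neg h0, zero_add]
      by_cases h1 : a = k + 1
      · rw [if_pos h1, if_pos h1]
      · rw [if_neg h1, if_neg h1, zero_mul]
  rw [Finset.sum_congr rfl h, Finset.sum_add_distrib, Finset.sum_ite_eq', Finset.sum_ite_eq']
  rw [if_pos (by simp)]
  congr 1
  by_cases hk : k + 1 ≤ q
  · rw [if_pos hk, if_pos (Finset.mem_range.2 (by omega))]
  · rw [if_neg hk, if_neg (fun h => hk (by have := Finset.mem_range.1 h; omega))]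

theorem fw5_vop_X (A : Matrix ι ι ℤ) (p : ℕ) (ν : ι → ℂ) (m : ℤ) (i : ι) (k : ℕ)
    (g : Fock ι) : vop A p ν m (X (i, k) * g) = X (i, k) * vop A p ν m g +
      C (-(form A p (bb i) ν) / (k + 1)) * vop A p ν (m + (k + 1)) g := by
  obtain ⟨D, hD⟩ : ∃ D, D = (annih A p ν g).natDegree := ⟨_, rfl⟩
  have hb := fw5_Sop_bound A p ν g
  rw [← hD] at hb
  have hb1 : ∀ q, D + (k + 1) < q → Sop A p ν q g = 0 := fun q hq => hb q (by omega)
  have hb2 : ∀ q, D + (k + 1) < q → Sop A p ν q (X (i, k) * g) = 0 := by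
    intro q hq
    rw [fw5_Sop_X_mul, hb1 q hq, if_pos (by omega), hb _ (by omega)]
    simp
  rw [vop_eq A p ν m _ _ hb2, vop_eq A p ν m g _ hb1, vop_eq A p ν (m + (k + 1)) g D hb]
  have h : ∀ q ∈ Finset.range (D + (k + 1) + 1),
      expCoeffZ ν (m + q) * Sop A p ν q (X (i, k) * g) =
      X (i, k) * (expCoeffZ ν (m + q) * Sop A p ν q g) +
      expCoeffZ ν (m + q) * (if k + 1 ≤ q then
        C (-(form A p (bb i) ν) / (k + 1)) * Sop A p ν (q - (k + 1)) g else 0) := by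
    intro q _
    rw [fw5_Sop_X_mul]
    ring
  rw [Finset.sum_congr rfl h, Finset.sum_add_distrib, Finset.mul_sum]
  congr 1
  rw [show D + (k + 1) + 1 = (k + 1) + (D + 1) by omega, Finset.sum_range_add, Finset.mul_sum]
  have h0 : ∑ x ∈ Finset.range (k + 1), expCoeffZ ν (m + (x : ℤ)) * (if k + 1 ≤ x then
        C (-(form A p (bb i) ν) / (k + 1)) * Sop A p ν (x - (k + 1)) g else 0) = 0 := by
    refine Finset.sum_eq_zero fun x hx => ?_
    rw [if_neg (by have := Finset.mem_range.1 hx; omega), mul_zero]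
  rw [h0, zero_add]
  refine Finset.sum_congr rfl fun x _ => ?_
  rw [if_pos (by omega), Nat.add_sub_cancel_left]
  rw [show m + ((k + 1 + x : ℕ) : ℤ) = m + (k + 1) + x by push_cast; ring]
  ring

theorem fw5_ee_neg_two (n : ℕ) : RC.ee (-2) n = (n : ℂ) + 1 := by
  induction n with
  | zero => simp [RC.ee]
  | succ n ih =>
    have h : (n : ℂ) + 1 ≠ 0 := by exact_mod_cast Nat.succ_ne_zero n
    rw [RC.ee, ih]
    field_simp
    push_cast
    ring

theorem fw5_Sop_expCoeffZ (A : Matrix ι ι ℤ) (hA : ∀ i j, A i j = A j i) (p : ℕ) (ν η : ι → ℂ)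
    (h : form A p ν η = -2) (q : ℕ) (b : ℤ) :
    Sop A p ν q (expCoeffZ η b) = C ((q : ℂ) + 1) * expCoeffZ η (b - q) := by
  rcases lt_or_ge b 0 with hb | hb
  · rw [expCoeffZ_neg η b hb, expCoeffZ_neg η _ (by omega), map_zero, mul_zero]
  · obtain ⟨n, rfl⟩ := Int.eq_ofNat_of_zero_le hb
    have hn : expCoeffZ η ((n : ℕ) : ℤ) = expCoeff η n := expCoeffZ_nat η n
    rw [hn, Sop_expCoeff A hA p ν η q n, h]
    split_ifs with hq
    · rw [fw5_ee_neg_two, show ((n : ℕ) : ℤ) - (q : ℤ) = ((n - q : ℕ) : ℤ) by omega,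
        expCoeffZ_nat]
    · rw [expCoeffZ_neg η _ (by omega), mul_zero]

theorem fw5_vop_exp (A : Matrix ι ι ℤ) (hA : ∀ i j, A i j = A j i) (p : ℕ) (ν η : ι → ℂ)
    (h : form A p ν η = -2) (a b : ℤ) (D : ℕ) (hD : b ≤ D) :
    vop A p ν a (expCoeffZ η b) = ∑ q ∈ Finset.range (D + 1),
      C ((q : ℂ) + 1) * (expCoeffZ ν (a + q) * expCoeffZ η (b - q)) := by
  rw [vop_eq A p ν a _ D]
  · refine Finset.sum_congr rfl fun q _ => ?_
    rw [fw5_Sop_expCoeffZ A hA p ν η h]
    ring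
  · intro q hq
    rw [fw5_Sop_expCoeffZ A hA p ν η h, expCoeffZ_neg η _ (by omega), mul_zero]

/-- The generating series of the coefficients. -/
theorem fw5_series (ν η : ι → ℂ) (σ : ℂ) (hσ : ν = σ • (ν + η)) (n : ℕ) :
    ∑ x ∈ Finset.HasAntidiagonal.antidiagonal n,
      C (x.1 : ℂ) * (expCoeff ν x.1 * expCoeff η x.2) =
      C (σ * n) * expCoeff (ν + η) n := by
  cases n with
  | zero => simp
  | succ n =>
    let P : (ι → ℂ) → PowerSeries (Fock ι) := fun ξ => PowerSeries.mk (expCoeff ξ)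
    let O : (ι → ℂ) → PowerSeries (Fock ι) :=
      fun ξ => PowerSeries.mk fun k => C ((k : ℂ) + 1) * osc ξ k
    let DP : (ι → ℂ) → PowerSeries (Fock ι) :=
      fun ξ => PowerSeries.mk fun k => C ((k : ℂ) + 1) * expCoeff ξ (k + 1)
    have h1 : ∀ ξ, DP ξ = O ξ * P ξ := by
      intro ξ
      ext1 m
      rw [PowerSeries.coeff_mul]
      simp only [DP, O, P, PowerSeries.coeff_mk]
      rw [expCoeff_succ, Finset.Nat.sum_antidiagonal_eq_sum_range_succ
        (fun a b => C ((a : ℂ) + 1) * osc ξ a * expCoeff ξ b)]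
    have h2 : P (ν + η) = P ν * P η := by
      ext1 m
      rw [PowerSeries.coeff_mul]
      simp only [P, PowerSeries.coeff_mk]
      exact expCoeff_add ν η m
    have h3 : O ν = PowerSeries.C (C σ) * O (ν + η) := by
      ext1 m
      rw [PowerSeries.coeff_C_mul]
      simp only [O, PowerSeries.coeff_mk]
      have h0 := fw5_osc_smul σ (ν + η) m
      rw [← hσ] at h0
      rw [h0]
      ring
    have h4 : DP ν * P η = PowerSeries.C (C σ) * DP (ν + η) := by
      rw [h1 ν, h1 (ν + η), h3, h2]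
      ring
    have h5 := congrArg (PowerSeries.coeff n) h4
    rw [PowerSeries.coeff_mul, PowerSeries.coeff_C_mul] at h5
    simp only [DP, P, PowerSeries.coeff_mk] at h5
    rw [Finset.Nat.antidiagonal_succ, Finset.sum_cons, Finset.sum_map]
    simp only [Nat.cast_zero, C_0, zero_mul, zero_add, Function.Embedding.prodMap,
      Function.Embedding.coeFn_mk, Prod.map, Function.Embedding.refl_apply]
    have h6 : ∀ x ∈ Finset.HasAntidiagonal.antidiagonal n,
        C (((x.1.succ : ℕ) : ℂ)) * (expCoeff ν x.1.succ * expCoeff η x.2) =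
        C ((x.1 : ℂ) + 1) * expCoeff ν (x.1 + 1) * expCoeff η x.2 := by
      intro x _
      push_cast
      rw [mul_assoc]
    rw [Finset.sum_congr rfl h6, h5, ← mul_assoc, ← C_mul]
    push_cast
    rfl

theorem fw5_Icc (g : ℤ → Fock ι) (κ t : ℤ) (hg : ∀ i, i < 0 ∨ t < i → g i = 0) (D D' : ℕ)
    (hD : t - κ - 1 ≤ D) (hD' : κ - 1 ≤ D') :
    (∑ q ∈ Finset.range (D + 1), C ((q : ℂ) + 1) * g (κ + 1 + q)) -
      (∑ q ∈ Finset.range (D' + 1), C ((q : ℂ) + 1) * g (κ - 1 - q)) =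
      ∑ i ∈ Finset.Icc 0 t, C ((i : ℂ) - κ) * g i := by
  classical
  have e1 : ∑ q ∈ Finset.range (D + 1), C ((q : ℂ) + 1) * g (κ + 1 + q) =
      ∑ i ∈ (Finset.range (D + 1)).image (fun q : ℕ => κ + 1 + (q : ℤ)),
        C ((i : ℂ) - κ) * g i := by
    rw [Finset.sum_image (fun a _ b _ hab => by simpa using hab)]
    refine Finset.sum_congr rfl fun q _ => ?_
    congr 2
    push_cast
    ring
  have e2 : ∑ q ∈ Finset.range (D' + 1), C ((q : ℂ) + 1) * g (κ - 1 - q) =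
      -∑ i ∈ (Finset.range (D' + 1)).image (fun q : ℕ => κ - 1 - (q : ℤ)),
        C ((i : ℂ) - κ) * g i := by
    rw [Finset.sum_image (fun a _ b _ hab => by simpa using hab), ← Finset.sum_neg_distrib]
    refine Finset.sum_congr rfl fun q _ => ?_
    rw [← neg_mul, ← C_neg]
    congr 2
    push_cast
    ring
  rw [e1, e2, sub_neg_eq_add]
  have hdisj : Disjoint ((Finset.range (D + 1)).image (fun q : ℕ => κ + 1 + (q : ℤ)))
      ((Finset.range (D' + 1)).image (fun q : ℕ => κ - 1 - (q : ℤ))) := by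
    rw [Finset.disjoint_left]
    intro i hi hi'
    obtain ⟨a, -, ha⟩ := Finset.mem_image.1 hi
    obtain ⟨b, -, hb⟩ := Finset.mem_image.1 hi'
    omega
  rw [← Finset.sum_union hdisj]
  obtain ⟨U, hU⟩ : ∃ U, U = (Finset.range (D + 1)).image (fun q : ℕ => κ + 1 + (q : ℤ)) ∪
      (Finset.range (D' + 1)).image (fun q : ℕ => κ - 1 - (q : ℤ)) := ⟨_, rfl⟩
  rw [← hU]
  have hmem : ∀ i, 0 ≤ i → i ≤ t → i ≠ κ → i ∈ U := by
    intro i h0 h1 h2
    rw [hU, Finset.mem_union, Finset.mem_image, Finset.mem_image]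
    rcases lt_or_gt_of_ne h2 with h | h
    · right
      exact ⟨(κ - 1 - i).toNat, Finset.mem_range.2 (by omega), by omega⟩
    · left
      exact ⟨(i - κ - 1).toNat, Finset.mem_range.2 (by omega), by omega⟩
  rw [← Finset.sum_filter_ne_zero (s := U), ← Finset.sum_filter_ne_zero (s := Finset.Icc 0 t)]
  refine Finset.sum_congr ?_ fun _ _ => rfl
  ext i
  rw [Finset.mem_filter, Finset.mem_filter, Finset.mem_Icc]
  constructor
  · rintro ⟨-, h⟩
    refine ⟨?_, h⟩
    by_contra hc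
    apply h
    rw [hg i (by omega), mul_zero]
  · rintro ⟨⟨h0, h1⟩, h⟩
    refine ⟨hmem i h0 h1 ?_, h⟩
    rintro rfl
    apply h
    rw [sub_self, C_0, zero_mul]

theorem fw5_base (A : Matrix ι ι ℤ) (hA : ∀ i j, A i j = A j i) (p : ℕ) (ν η : ι → ℂ)
    (h : form A p ν η = -2) (σ : ℂ) (hσ : ν = σ • (ν + η)) (κ t : ℤ) :
    vop A p ν (κ + 1) (expCoeffZ η (t - κ - 1)) - vop A p η (t - κ + 1) (expCoeffZ ν (κ - 1)) =
      C (σ * t - κ) * expCoeffZ (ν + η) t := by
  have h' : form A p η ν = -2 := by rw [form_symm A hA]; exact h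
  rw [fw5_vop_exp A hA p ν η h (κ + 1) (t - κ - 1) (t - κ - 1).toNat (Int.self_le_toNat _),
    fw5_vop_exp A hA p η ν h' (t - κ + 1) (κ - 1) (κ - 1).toNat (Int.self_le_toNat _)]
  obtain ⟨g, hgdef⟩ : ∃ g : ℤ → Fock ι, g = fun i => expCoeffZ ν i * expCoeffZ η (t - i) :=
    ⟨_, rfl⟩
  have hg : ∀ i, i < 0 ∨ t < i → g i = 0 := by
    intro i hi
    rw [hgdef]
    rcases hi with hi | hi
    · simp only [expCoeffZ_neg ν i hi, zero_mul]
    · simp only [expCoeffZ_neg η (t - i) (by omega), mul_zero]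
  have e := fw5_Icc g κ t hg (t - κ - 1).toNat (κ - 1).toNat (Int.self_le_toNat _)
    (Int.self_le_toNat _)
  have e1 : ∀ q ∈ Finset.range ((t - κ - 1).toNat + 1),
      C ((q : ℂ) + 1) * (expCoeffZ ν (κ + 1 + q) * expCoeffZ η (t - κ - 1 - q)) =
      C ((q : ℂ) + 1) * g (κ + 1 + q) := by
    intro q _
    rw [hgdef]
    simp only
    rw [show t - κ - 1 - (q : ℤ) = t - (κ + 1 + q) by ring]
  have e2 : ∀ q ∈ Finset.range ((κ - 1).toNat + 1),
      C ((q : ℂ) + 1) * (expCoeffZ η (t - κ + 1 + q) * expCoeffZ ν (κ - 1 - q)) =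
      C ((q : ℂ) + 1) * g (κ - 1 - q) := by
    intro q _
    rw [hgdef]
    simp only
    rw [show t - κ + 1 + (q : ℤ) = t - (κ - 1 - q) by ring, mul_comm (expCoeffZ η _)]
  rw [Finset.sum_congr rfl e1, Finset.sum_congr rfl e2, e]
  rcases lt_or_ge t 0 with ht | ht
  · rw [expCoeffZ_neg _ t ht, Finset.Icc_eq_empty (by omega), Finset.sum_empty, mul_zero]
  · obtain ⟨n, rfl⟩ := Int.eq_ofNat_of_zero_le ht
    have hn : expCoeffZ (ν + η) ((n : ℕ) : ℤ) = expCoeff (ν + η) n := expCoeffZ_nat _ n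
    rw [hn]
    have e3 : ∑ i ∈ Finset.Icc (0 : ℤ) (n : ℤ), C ((i : ℂ) - κ) * g i =
        ∑ i ∈ Finset.range (n + 1), C (((i : ℕ) : ℂ) - κ) * g ((i : ℕ) : ℤ) := by
      have himg : Finset.Icc (0 : ℤ) (n : ℤ) =
          (Finset.range (n + 1)).image (fun q : ℕ => (q : ℤ)) := by
        ext i
        rw [Finset.mem_Icc, Finset.mem_image]
        constructor
        · rintro ⟨h0, h1⟩
          exact ⟨i.toNat, Finset.mem_range.2 (by omega), by omega⟩
        · rintro ⟨a, ha, rfl⟩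
          have := Finset.mem_range.1 ha
          omega
      rw [himg, Finset.sum_image (fun a _ b _ hab => by simpa using hab)]
      refine Finset.sum_congr rfl fun q _ => ?_
      push_cast
      rfl
    rw [e3]
    have e4 : ∀ i ∈ Finset.range (n + 1), C (((i : ℕ) : ℂ) - κ) * g ((i : ℕ) : ℤ) =
        C ((i : ℕ) : ℂ) * (expCoeff ν i * expCoeff η (n - i)) -
        C (κ : ℂ) * (expCoeff ν i * expCoeff η (n - i)) := by
      intro i hi
      have hi' := Finset.mem_range.1 hi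
      rw [hgdef]
      simp only
      rw [show ((n : ℕ) : ℤ) - (i : ℤ) = ((n - i : ℕ) : ℤ) by omega, expCoeffZ_nat,
        expCoeffZ_nat, C_sub]
      ring
    rw [Finset.sum_congr rfl e4, Finset.sum_sub_distrib, ← Finset.mul_sum]
    have e5 := fw5_series ν η σ hσ n
    have e6 := expCoeff_add ν η n
    rw [Finset.Nat.sum_antidiagonal_eq_sum_range_succ
      (fun a b => C (a : ℂ) * (expCoeff ν a * expCoeff η b))] at e5
    rw [Finset.Nat.sum_antidiagonal_eq_sum_range_succ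
      (fun a b => expCoeff ν a * expCoeff η b)] at e6
    rw [e5, ← e6, C_sub]
    push_cast
    ring

theorem fw5_main (A : Matrix ι ι ℤ) (hA : ∀ i j, A i j = A j i) (p : ℕ) (ν η : ι → ℂ)
    (h : form A p ν η = -2) (σ : ℂ) (hσ : ν = σ • (ν + η)) (f : Fock ι) :
    ∀ κ t : ℤ, vop A p ν (κ + 1) (vop A p η (t - κ - 1) f) -
      vop A p η (t - κ + 1) (vop A p ν (κ - 1) f) = C (σ * t - κ) * vop A p (ν + η) t f := by
  induction f using MvPolynomial.induction_on with
  | C a =>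
    intro κ t
    have hC : ∀ (ξ : ι → ℂ) (m : ℤ), vop A p ξ m (C a) = a • expCoeffZ ξ m := by
      intro ξ m
      rw [← vop_one A p ξ m, ← map_smul, smul_eq_C_mul, mul_one]
    rw [hC, hC, hC, map_smul, map_smul, ← smul_sub, fw5_base A hA p ν η h σ hσ, mul_smul_comm]
  | add f g hf hg =>
    intro κ t
    simp only [map_add]
    rw [mul_add, ← hf κ t, ← hg κ t]
    ring
  | mul_X g x ih =>
    obtain ⟨i, k⟩ := x
    intro κ t
    rw [mul_comm g (X (i, k))]
    have hlin : ∀ (ξ : ι → ℂ) (m : ℤ) (c : ℂ) (u : Fock ι),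
        vop A p ξ m (C c * u) = C c * vop A p ξ m u := by
      intro ξ m c u
      rw [← smul_eq_C_mul, map_smul, smul_eq_C_mul]
    obtain ⟨c1, hc1⟩ : ∃ c1, c1 = -(form A p (bb i) ν) / ((k : ℂ) + 1) := ⟨_, rfl⟩
    obtain ⟨c2, hc2⟩ : ∃ c2, c2 = -(form A p (bb i) η) / ((k : ℂ) + 1) := ⟨_, rfl⟩
    have hc3 : -(form A p (bb i) (ν + η)) / ((k : ℂ) + 1) = c1 + c2 := by
      rw [fw5_form_add_right, hc1, hc2]
      ring
    have hk : (k : ℂ) + 1 ≠ 0 := by exact_mod_cast Nat.succ_ne_zero k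
    have hc4 : c1 = σ * (c1 + c2) := by
      rw [← hc3, hc1]
      have h7 : form A p (bb i) ν = σ * form A p (bb i) (ν + η) := by
        rw [← fw5_form_smul_right, ← hσ]
      rw [h7]
      ring
    rw [fw5_vop_X, fw5_vop_X, fw5_vop_X, ← hc1, ← hc2, hc3, map_add, map_add, hlin, hlin,
      fw5_vop_X, fw5_vop_X, ← hc1, ← hc2]
    have i1 := ih κ t
    have i2 := ih (κ + (k + 1)) (t + (k + 1))
    have i3 := ih κ (t + (k + 1))
    rw [show κ + ((k : ℤ) + 1) + 1 = κ + 1 + (k + 1) by ring,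
      show t + ((k : ℤ) + 1) - (κ + (k + 1)) - 1 = t - κ - 1 by ring,
      show t + ((k : ℤ) + 1) - (κ + (k + 1)) + 1 = t - κ + 1 by ring,
      show κ + ((k : ℤ) + 1) - 1 = κ - 1 + (k + 1) by ring] at i2
    rw [show t + ((k : ℤ) + 1) - κ - 1 = t - κ - 1 + (k + 1) by ring,
      show t + ((k : ℤ) + 1) - κ + 1 = t - κ + 1 + (k + 1) by ring] at i3
    have hcoef : C c1 * C (σ * ((t + (k + 1) : ℤ) : ℂ) - ((κ + (k + 1) : ℤ) : ℂ)) +
        C c2 * C (σ * ((t + (k + 1) : ℤ) : ℂ) - (κ : ℂ)) =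
        (C (σ * (t : ℂ) - κ) * C (c1 + c2) : Fock ι) := by
      rw [← C_mul, ← C_mul, ← C_mul, ← C_add]
      congr 1
      push_cast
      linear_combination (-(k : ℂ) - 1) * hc4
    linear_combination X (i, k) * i1 + C c1 * i2 + C c2 * i3 +
      vop A p (ν + η) (t + (k + 1)) g * hcoef

theorem short_long (A : Matrix ι ι ℤ) (hA : IsADE A) (p : ℕ) (hp : 2 ≤ p) (j : ι) (k' : ℤ) :
    vop A p (Pi.single j (-(p : ℂ)⁻¹)) (k' + 1) ∘ₗ vop A p (bb j) (-1 - p * k') =
      vop A p (bb j) (1 - p * k') ∘ₗ vop A p (Pi.single j (-(p : ℂ)⁻¹)) (k' - 1) := by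
  have hp0 : (p : ℂ) ≠ 0 := by
    have : p ≠ 0 := by omega
    exact_mod_cast this
  have hp1 : (p : ℂ) - 1 ≠ 0 := by
    rw [sub_ne_zero]
    have : p ≠ 1 := by omega
    exact_mod_cast this
  have hform : form A p (Pi.single j (-(p : ℂ)⁻¹)) (bb j) = -2 := by
    unfold form bb
    rw [Finset.sum_eq_single j, Finset.sum_eq_single j]
    · rw [Pi.single_eq_same, Pi.single_eq_same, hA.diag j]
      push_cast
      field_simp
    · intro b _ hb
      rw [Pi.single_eq_of_ne hb, mul_zero]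
    · intro hj
      exact absurd (Finset.mem_univ j) hj
    · intro b _ hb
      refine Finset.sum_eq_zero fun i _ => ?_
      rw [Pi.single_eq_of_ne hb, zero_mul, zero_mul]
    · intro hj
      exact absurd (Finset.mem_univ j) hj
  have hσ : (Pi.single j (-(p : ℂ)⁻¹) : ι → ℂ) =
      (-((p : ℂ) - 1)⁻¹) • ((Pi.single j (-(p : ℂ)⁻¹) : ι → ℂ) + bb j) := by
    unfold bb
    rw [← Pi.single_add, ← Pi.single_smul]
    congr 1
    rw [smul_eq_mul]
    field_simp
    ring
  apply LinearMap.ext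
  intro f
  have h := fw5_main A hA.symm p _ (bb j) hform _ hσ f k' ((1 - p) * k')
  rw [show (1 - (p : ℤ)) * k' - k' - 1 = -1 - p * k' by ring,
    show (1 - (p : ℤ)) * k' - k' + 1 = 1 - p * k' by ring] at h
  have hz : (-((p : ℂ) - 1)⁻¹) * (((1 - (p : ℤ)) * k' : ℤ) : ℂ) - (k' : ℂ) = 0 := by
    push_cast
    field_simp
    ring
  rw [hz, C_0, zero_mul, sub_eq_zero] at h
  exact h

end

end WPQ
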