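import Pool.Agent.WPQ.CYD

/-! [WPQ-CY0] Basic facts.

`Wk_LS`: `W_LS`; the charge by `LS_comp`/`fl5_LS_single` (`LS` preserves charges); `LS_Ej` (and
`expMode ε (Pi.single j 1) 0 = Ej ε (Shift.zero A p) j`: `va3_Ej`, `mode_single`, see the beginning of
`Wk_nondeg` in WKM).
`Wk_mode`: `W_closed`, `mode_charge` (with `0 + 0`), `Ej_mode`.
`Wk_comp`: components of an element of `Wk` for the conformal weight are in `Wk`: `c ∈ W` is a sum of weight
components (`W_comp`, `W_homog`, `homogeneousComponent`-type decomposition, or: eigenvectors of `LS zero 0`); it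
is enough that `Wk ε = ⨆ n, Wk ε ⊓ Vn A p n`; `W`, the charge condition and the kernel of `E_j` (which preserves
all `Vn`, `Ej_Vn`) are graded.
`beta_Tp`: induction on `l`, `beta_LS` with `k = 1`, `LS_zero_neg_one`, `W_eq_UU`, `W_LS`.
`lwv_mem_W`, `lwv_Vn`: `W_expS`-type or `W_single_iff`/`cS_mem_W` with `js = []`, `n = -1` on `vac`
(`expS_creation`); `single_mem_Vn` with `d = 0`.
`lwv_Mn`: `E_j^{m+1} e^{-ν}` is in `Vn` of weight `wtExp (-ν)` (`Ej_Vn`) and of charge `-ν + (m+1) rt j`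
(`Ej_pow_single`), but `wtExp (-ν + (m+1) rt j) = wtExp (-ν) + m + 1` (`wtExp_add`), so it is `0`
(`pv2_deg` or `Vn_comp`). -/

namespace WPQ

open MvPolynomial WK GA

noncomputable section

variable {ι : Type} [Fintype ι] [DecidableEq ι] {A : Matrix ι ι ℤ} {p : ℕ}

theorem Ej_eq (hA : IsADE A) (hp : 1 ≤ p) (ε : Cocycle A p) (j : ι) :
    Ej ε (Shift.zero A p) j = expMode ε (Pi.single j 1) 0 := by
  have _ := hA
  have _ := hp
  exact expS_zero ε (rt j) 0

private theorem cy0_supp (ε : Cocycle A p) (c : VL ι) (hc : c ∈ Wk ε) :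
    c ∈ Finsupp.supported (Fock ι) ℂ {(0 : ι → ℤ)} := by
  rw [Finsupp.mem_supported]
  intro γ hγ
  by_contra h0
  exact (Finsupp.mem_support_iff.1 hγ) (hc.2.1 γ h0)

omit [Fintype ι] [DecidableEq ι] in
private theorem cy0_of_supp (v : VL ι) (hv : v ∈ Finsupp.supported (Fock ι) ℂ {(0 : ι → ℤ)}) :
    ∀ γ : ι → ℤ, γ ≠ 0 → v γ = 0 := by
  intro γ hγ
  by_contra h0
  exact hγ ((Finsupp.mem_supported (R := ℂ) v).1 hv (Finsupp.mem_support_iff.2 h0))

theorem Wk_LS (hA : IsADE A) (hp : 2 ≤ p) (ε : Cocycle A p) (k : ℤ) (c : VL ι) (hc : c ∈ Wk ε) :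
    LS (Shift.zero A p) k c ∈ Wk ε := by
  have hp1 : 1 ≤ p := by omega
  refine ⟨W_LS hA hp1 k c hc.1, fun γ hγ => ?_, fun j => ?_⟩
  · have h1 := LS_comp (A := A) (p := p) k c γ
    rw [hc.2.1 γ hγ, Finsupp.single_zero, map_zero] at h1
    exact Finsupp.single_eq_zero.1 h1
  · have h1 := congrArg (fun F => F c) (LS_Ej hA hp1 ε (Shift.zero A p) j k)
    simp only [LinearMap.comp_apply] at h1
    rw [← Ej_eq hA hp1, ← h1, Ej_eq hA hp1, hc.2.2 j, map_zero]

theorem Wk_mode (hA : IsADE A) (hp : 2 ≤ p) (ε : Cocycle A p) (s : ℤ) (c c' : VL ι)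
    (hc : c ∈ Wk ε) (hc' : c' ∈ Wk ε) : mode ε c s c' ∈ Wk ε := by
  have hp1 : 1 ≤ p := by omega
  refine ⟨W_closed hA hp ε c c' hc.1 hc'.1 s, ?_, fun j => ?_⟩
  · have h1 := mode_charge hA hp1 ε 0 0 s c c' (cy0_supp ε c hc) (cy0_supp ε c' hc')
    rw [add_zero] at h1
    exact cy0_of_supp _ h1
  · have h1 := congrArg (fun F => F c') (Ej_mode hA hp1 ε j c s)
    have h2 : Ej ε (Shift.zero A p) j c = 0 := by rw [Ej_eq hA hp1]; exact hc.2.2 j
    have h3 : Ej ε (Shift.zero A p) j c' = 0 := by rw [Ej_eq hA hp1]; exact hc'.2.2 j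
    simp only [LinearMap.comp_apply, LinearMap.sub_apply] at h1
    rw [h2, h3, map_zero, sub_zero] at h1
    have h4 : mode ε (0 : VL ι) s = 0 := va3_mode_zero hA hp1 ε s
    rw [h4, LinearMap.zero_apply] at h1
    rw [← Ej_eq hA hp1]
    exact h1

private theorem cy0_indep (hA : IsADE A) (hp : 1 ≤ p) : iSupIndep (Vn A p) := by
  have h1 := Module.End.eigenspaces_iSupIndep (LS (Shift.zero A p) 0)
  have h2 : iSupIndep (fun n : ℤ => Module.End.eigenspace (LS (Shift.zero A p) 0) (n : ℂ)) :=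
    h1.comp (f := fun n : ℤ => (n : ℂ)) Int.cast_injective
  refine h2.mono fun n v hv => ?_
  rw [Module.End.mem_eigenspace_iff]
  exact (mem_Vn_iff hA hp n v).1 hv

theorem Wk_comp (hA : IsADE A) (hp : 2 ≤ p) (ε : Cocycle A p) (c : VL ι) (hc : c ∈ Wk ε) :
    ∃ (s : Finset ℤ) (f : ℤ → VL ι), (∀ n, f n ∈ Wk ε ∧ f n ∈ Vn A p n) ∧ c = ∑ n ∈ s, f n := by
  classical
  have hp1 : 1 ≤ p := by omega
  set F : ℕ → VL ι := fun d =>
    Finsupp.single 0 (weightedHomogeneousComponent (wF (ι := ι)) d (c 0)) with hF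
  have hcs : c = Finsupp.single 0 (c 0) := by
    ext1 γ
    by_cases hγ : γ = 0
    · subst hγ
      rw [Finsupp.single_eq_same]
    · rw [Finsupp.single_eq_of_ne hγ, hc.2.1 γ hγ]
  have hw0 : wtExp A p (0 : ι → ℤ) = 0 := by
    unfold wtExp formZ
    simp
  have hFV : ∀ d : ℕ, F d ∈ Vn A p d := by
    intro d
    refine single_mem_Vn 0 _ d (weightedHomogeneousComponent_isWeightedHomogeneous _ _) _ ?_
    rw [hw0, add_zero]
  have hFW : ∀ d : ℕ, F d ∈ W A p := by
    intro d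
    exact W_homog 0 (c 0) (W_comp c hc.1 0) d
  set N : ℕ := weightedTotalDegree (wF (ι := ι)) (c 0) with hN
  have hsum : c 0 = ∑ d ∈ Finset.range (N + 1),
      weightedHomogeneousComponent (wF (ι := ι)) d (c 0) := by
    have h := sum_weightedHomogeneousComponent (wF (ι := ι)) (c 0)
    rw [finsum_eq_sum_of_support_subset (s := Finset.range (N + 1))] at h
    · exact h.symm
    · intro d hd
      rw [Function.mem_support] at hd
      rw [Finset.mem_coe, Finset.mem_range]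
      by_contra h1
      exact hd (weightedHomogeneousComponent_eq_zero d (c 0) (by omega))
  have hcF : c = ∑ d ∈ Finset.range (N + 1), F d := by
    have h1 : ∑ d ∈ Finset.range (N + 1), F d = Finsupp.singleAddHom (0 : ι → ℤ)
        (∑ d ∈ Finset.range (N + 1), weightedHomogeneousComponent (wF (ι := ι)) d (c 0)) := by
      rw [map_sum]
      rfl
    rw [h1, ← hsum]
    exact hcs
  have hE : ∀ j : ι, ∀ d ∈ Finset.range (N + 1), Ej ε (Shift.zero A p) j (F d) = 0 := by
    intro j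
    have hi : iSupIndep (fun d : ℕ => Vn A p (d : ℤ)) :=
      (cy0_indep hA hp1).comp (f := fun d : ℕ => (d : ℤ)) Nat.cast_injective
    refine (iSupIndep_iff_finsetSum_eq_zero_imp_eq_zero _).1 hi _
      (fun d => Ej ε (Shift.zero A p) j (F d)) (fun d _ => Ej_Vn hA ε j _ _ (hFV d)) ?_
    rw [← map_sum, ← hcF, Ej_eq hA hp1]
    exact hc.2.2 j
  have hFk : ∀ d ∈ Finset.range (N + 1), F d ∈ Wk ε := by
    intro d hd
    refine ⟨hFW d, fun γ hγ => Finsupp.single_eq_of_ne hγ, fun j => ?_⟩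
    rw [← Ej_eq hA hp1]
    exact hE j d hd
  refine ⟨(Finset.range (N + 1)).image (fun d : ℕ => (d : ℤ)),
    fun n => if 0 ≤ n ∧ n ≤ N then F n.toNat else 0, fun n => ?_, ?_⟩
  · by_cases hn : 0 ≤ n ∧ n ≤ N
    · simp only [hn, and_self, if_true]
      refine ⟨hFk _ (Finset.mem_range.2 (by omega)), ?_⟩
      have h1 := hFV n.toNat
      rwa [Int.toNat_of_nonneg hn.1] at h1
    · simp only [hn, if_false]
      exact ⟨zero_mem _, zero_mem _⟩
  · rw [Finset.sum_image (fun a _ b _ h => by exact_mod_cast h), hcF]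
    refine Finset.sum_congr rfl fun d hd => ?_
    rw [Finset.mem_range] at hd
    rw [if_pos ⟨by omega, by omega⟩, Int.toNat_natCast]

theorem Tp_mem (hA : IsADE A) (hp : 2 ≤ p) (l : ℕ) (v : VL ι) (hv : v ∈ W A p) :
    Tp l v ∈ W A p := by
  unfold Tp
  induction l with
  | zero => simpa using hv
  | succ l ih =>
    rw [pow_succ', Module.End.mul_apply, ← LS_zero_neg_one (A := A) (p := p)]
    rw [← LS_zero_neg_one (A := A) (p := p)] at ih
    exact W_LS hA (by omega) (-1) _ ih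

omit [DecidableEq ι] in
private theorem cy0_Tp_succ (l : ℕ) (z : VL ι) :
    (Tp (l + 1) : VL ι →ₗ[ℂ] VL ι) z = transl (Tp l z) := by
  unfold Tp
  rw [pow_succ', Module.End.mul_apply]

private theorem cy0_LS_pow (hA : IsADE A) (hp : 2 ≤ p) (l : ℕ) (c : VL ι) (hc : c ∈ W A p) :
    (LS (Shift.zero A p) 1 ^ l) c ∈ W A p := by
  induction l with
  | zero => simpa using hc
  | succ l ih =>
    rw [pow_succ', Module.End.mul_apply]
    exact W_LS hA (by omega) 1 _ ih

theorem beta_Tp (hA : IsADE A) (hp : 2 ≤ p) (ε : Cocycle A p) (τ : Shift A p)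
    (hτ : τ.s = (2 : ℂ) • bg A p) (l : ℕ) (c z : VL ι) (hc : c ∈ W A p) (hz : z ∈ W A p) :
    beta ε τ c (Tp l z) = beta ε τ ((LS (Shift.zero A p) 1 ^ l) c) z := by
  induction l generalizing c with
  | zero =>
    unfold Tp
    rw [pow_zero, pow_zero]
    rfl
  | succ l ih =>
    rw [cy0_Tp_succ, ← LS_zero_neg_one (A := A) (p := p)]
    have hcU : c ∈ UU ε := by rw [← W_eq_UU hA hp ε]; exact hc
    have h1 := beta_LS hA hp ε τ hτ 1 c (Tp l z) hcU (Tp_mem hA hp l z hz)
    rw [← h1, ih _ (W_LS hA (by omega) 1 c hc), pow_succ, Module.End.mul_apply]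

theorem lwv_mem_W (hA : IsADE A) (hp : 2 ≤ p) (nu : ι → ℤ) (hd : Dom A nu) :
    lwv nu ∈ W A p := by
  unfold lwv
  rw [W_single_iff hA (by omega)]
  intro j
  have h1 := hd j
  have h2 : pr A j (-nu) = - pr A j nu := by
    unfold pr
    rw [← Finset.sum_neg_distrib]
    exact Finset.sum_congr rfl fun i _ => by rw [Pi.neg_apply, mul_neg]
  omega

theorem lwv_Vn (nu : ι → ℤ) : lwv nu ∈ Vn A p (wtExp A p (-nu)) := by
  refine single_mem_Vn (-nu) 1 0 ?_ _ (by simp)
  exact isWeightedHomogeneous_one ℂ _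

private theorem cy0_wt (hA : IsADE A) (nu : ι → ℤ) (j : ι) (m : ℕ) (hm : pr A j nu = m) :
    wtExp A p (-nu + (m + 1) • rt j) = wtExp A p (-nu) + (m + 1) := by
  have e1 : ∀ i, ((m + 1) • rt j : ι → ℤ) i = if i = j then ((m : ℤ) + 1) else 0 := by
    intro i
    rw [Pi.smul_apply]
    unfold rt
    rw [Pi.single_apply]
    split_ifs
    · simp
    · simp
  have hfr : formZ A p ((m + 1) • rt j) ((m + 1) • rt j) = 2 * (p * (m + 1) ^ 2) := by
    unfold formZ
    rw [Finset.sum_eq_single j]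
    · rw [Finset.sum_eq_single j]
      · rw [e1, if_pos rfl, hA.diag]
        ring
      · intro i _ hi
        rw [e1 i, if_neg hi, mul_zero]
      · intro h
        exact absurd (Finset.mem_univ j) h
    · intro i _ hi
      rw [e1 i, if_neg hi]
      exact Finset.sum_eq_zero fun _ _ => by ring
    · intro h
      exact absurd (Finset.mem_univ j) h
  have hfn : formZ A p (-nu) ((m + 1) • rt j) = - (p * ((m + 1) * m)) := by
    unfold formZ
    have h1 : ∀ i, ∑ i', (-nu) i * A i i' * ((m + 1) • rt j : ι → ℤ) i' =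
        - (((m : ℤ) + 1) * (A j i * nu i)) := by
      intro i
      rw [Finset.sum_eq_single j]
      · rw [e1, if_pos rfl, hA.symm i j, Pi.neg_apply]
        ring
      · intro i' _ hi'
        rw [e1 i', if_neg hi', mul_zero]
      · intro h
        exact absurd (Finset.mem_univ j) h
    rw [Finset.sum_congr rfl fun i _ => h1 i, Finset.sum_neg_distrib, ← Finset.mul_sum]
    have h2 : ∑ i, A j i * nu i = (m : ℤ) := hm
    rw [h2]
    ring
  have hs : ∑ i, ((m + 1) • rt j : ι → ℤ) i = (m : ℤ) + 1 := by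
    rw [Finset.sum_congr rfl fun i _ => e1 i, Finset.sum_ite_eq' Finset.univ j,
      if_pos (Finset.mem_univ j)]
  have hwr : wtExp A p ((m + 1) • rt j) = p * (m + 1) ^ 2 - ((p : ℤ) - 1) * (m + 1) := by
    unfold wtExp
    rw [hfr, hs, Int.mul_ediv_cancel_left _ (by norm_num)]
  rw [wtExp_add hA, hwr, hfn]
  ring

theorem lwv_Mn (hA : IsADE A) (hp : 2 ≤ p) (ε : Cocycle A p) (nu : ι → ℤ) (hd : Dom A nu) :
    lwv nu ∈ Mn ε nu := by
  rw [mem_Mn]
  refine ⟨lwv_mem_W hA hp nu hd, ?_, fun j => ?_⟩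
  · exact Finsupp.single_mem_supported ℂ 1 rfl
  · set m : ℕ := (pr A j nu).toNat with hm
    have hpm : pr A j nu = m := (Int.toNat_of_nonneg (hd j)).symm
    have hV : (Ej ε (Shift.zero A p) j ^ (m + 1)) (lwv nu) ∈ Vn A p (wtExp A p (-nu)) := by
      generalize m + 1 = b
      induction b with
      | zero => simpa using lwv_Vn (A := A) (p := p) nu
      | succ b ih =>
        rw [pow_succ', Module.End.mul_apply]
        exact Ej_Vn hA ε j _ _ ih
    unfold lwv at hV ⊢
    rw [Ej_pow_single hA] at hV ⊢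
    rcases Vn_comp _ _ hV (-nu + (m + 1) • rt j) with h0 | ⟨d, _, h1⟩
    · rw [Finsupp.single_eq_same] at h0
      rw [h0, Finsupp.single_zero]
    · exfalso
      rw [cy0_wt hA nu j m hpm] at h1
      omega

end

end WPQ
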