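import Mathlib

/-! WPQ, module AF (abstract fields): definitions.  A field `V → V'` is a family of modes
`a : ℤ → V →ₗ[ℂ] V'`. -/

namespace WPQ.AF

noncomputable section

variable {V V' : Type} [AddCommGroup V] [Module ℂ V] [AddCommGroup V'] [Module ℂ V']

/-- Every vector is killed by all high modes. -/
def IsFld (a : ℤ → V →ₗ[ℂ] V') : Prop := ∀ v, ∃ N : ℤ, ∀ n ≥ N, a n v = 0

/-- Locality `(z-w)^N (a(z) b(w) - b'(w) a(z)) = 0` of a field `a : V → V'` with a pair of fields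
`b` on `V`, `b'` on `V'`.  For `V = V'` and `b = b'` this is the usual locality. -/
def LocP (N : ℕ) (a : ℤ → V →ₗ[ℂ] V') (b : ℤ → V →ₗ[ℂ] V) (b' : ℤ → V' →ₗ[ℂ] V') : Prop :=
  ∀ m n : ℤ, ∑ k ∈ Finset.range (N + 1), ((-1 : ℂ) ^ k * (N.choose k : ℂ)) •
    (a (m + N - k) ∘ₗ b (n + k) - b' (n + k) ∘ₗ a (m + N - k)) = 0

/-- Locality of two fields on `V`. -/
abbrev Loc (N : ℕ) (a b : ℤ → V →ₗ[ℂ] V) : Prop := LocP N a b b

/-- The derivative `∂_z a(z)`. -/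
def der (a : ℤ → V →ₗ[ℂ] V') : ℤ → V →ₗ[ℂ] V' := fun n => (-n : ℂ) • a (n - 1)

/-- Translation covariance `[T, a_n] = -n a_{n-1}`. -/
def Cov (T : V →ₗ[ℂ] V) (T' : V' →ₗ[ℂ] V') (a : ℤ → V →ₗ[ℂ] V') : Prop :=
  ∀ n : ℤ, T' ∘ₗ a n - a n ∘ₗ T = (-n : ℂ) • a (n - 1)

/-- The bracket with an operator (given on `V` and on `V'`). -/
def br (E : V →ₗ[ℂ] V) (E' : V' →ₗ[ℂ] V') (a : ℤ → V →ₗ[ℂ] V') : ℤ → V →ₗ[ℂ] V' :=
  fun n => E' ∘ₗ a n - a n ∘ₗ E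

/-- The product `a_(n) b`, `n ≥ 0`. -/
def prodN (n : ℕ) (a b : ℤ → V →ₗ[ℂ] V) : ℤ → V →ₗ[ℂ] V := fun m =>
  ∑ i ∈ Finset.range (n + 1), ((-1 : ℂ) ^ i * (n.choose i : ℂ)) •
    (a (n - i) ∘ₗ b (m + i) - b (m + i) ∘ₗ a (n - i))

/-- `c = a_(-1) b` is the normally ordered product of `a` and `b`. -/
def IsNop (a b c : ℤ → V →ₗ[ℂ] V) : Prop := ∀ (m : ℤ) (v : V), ∃ M0 : ℕ, ∀ M ≥ M0,
  c m v = ∑ i ∈ Finset.range M, (a (-1 - i) (b (m + i) v) + b (m - 1 - i) (a i v))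

/-- The identity field. -/
def idF : ℤ → V →ₗ[ℂ] V := fun n => if n = -1 then LinearMap.id else 0

/-- The fields obtained from `Gen` by linear combinations, derivatives, products `a_(n) b`
(`n ≥ 0`) and normally ordered products. -/
inductive Built (Gen : Set (ℤ → V →ₗ[ℂ] V)) : (ℤ → V →ₗ[ℂ] V) → Prop
  | gen (a) (ha : a ∈ Gen) : Built Gen a
  | one : Built Gen idF
  | add (a b) (ha : Built Gen a) (hb : Built Gen b) : Built Gen (fun n => a n + b n)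
  | smul (c : ℂ) (a) (ha : Built Gen a) : Built Gen (fun n => c • a n)
  | der (a) (ha : Built Gen a) : Built Gen (der a)
  | prod (n : ℕ) (a b) (ha : Built Gen a) (hb : Built Gen b) : Built Gen (prodN n a b)
  | nop (a b c) (ha : Built Gen a) (hb : Built Gen b) (hc : IsNop a b c) : Built Gen c

end

end WPQ.AF
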