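import Pool.Agent.WPQ.AF6

/-! [WPQ-VA2] The commutator formula for local fields.

Plan.  Let `f m n = a m ∘ b n - b n ∘ a m` (`ℤ → ℤ → End V`), `T₁ f m n = f (m+1) n`,
`T₂ f m n = f m (n+1)`, `D = T₁ - T₂` (`af1D`); `Loc N a b` says `D^N f = 0` (`af1_iff`, `iter_eq`), and
`prodN j a b k = (D^j f) 0 k` (`iter_eq` at `m = 0`).  Claim: if `D^N f = 0` then for all
`m n : ℤ`: `f m n = ∑_{j<N} C(m,j) (D^j f) 0 (m+n-j)`, `C(m,j) = Ring.choose m j`.
Induction on `N` is convenient: for general `f` with `D^N f = 0`.  `N = 0` trivial.  Step: `g = D f`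
satisfies `D^N g = 0`, so `f (m+1) n - f m (n+1) = ∑_{j<N} C(m,j) (D^{j+1} f) 0 (m+n-j)`.  Put
`R m n = ∑_{j<N+1} C(m,j) (D^j f) 0 (m+n-j)`.  By Pascal (`Ring.choose_succ_succ`,
`C(m+1,j+1) = C(m,j) + C(m,j+1)`), `R (m+1) n - R m (n+1) = ∑_{j<N} C(m,j) (D^{j+1} f) 0 (m+n-j)`
too, and `R 0 n = f 0 n` (`Ring.choose_zero_succ`, `Ring.choose_zero_right`).  So `f - R` is invariant
under `(m,n) ↦ (m+1,n-1)` and vanishes at `m = 0`: it is `0` (`Int.induction_on`). -/

namespace WPQ.AF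

noncomputable section

variable {V : Type} [AddCommGroup V] [Module ℂ V]

theorem va2_gen {H : Type} [AddCommGroup H] [Module ℂ H] (N : ℕ) :
    ∀ F : ℤ → ℤ → H, (af1D H ^ N) F = 0 → ∀ m n : ℤ,
      F m n = ∑ j ∈ Finset.range N, ((Ring.choose m j : ℤ) : ℂ) • ((af1D H ^ j) F) 0 (m + n - j) := by
  induction N with
  | zero =>
    intro F hF m n
    have h0 : F = 0 := hF
    rw [h0]
    simp
  | succ N ih =>
    intro F hF m n
    have hg : (af1D H ^ N) (af1D H F) = 0 := by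
      rw [← Module.End.mul_apply, ← pow_succ]
      exact hF
    have hg2 := ih (af1D H F) hg
    have hpas : ∀ m n : ℤ,
        ∑ j ∈ Finset.range (N + 1), ((Ring.choose (m + 1) j : ℤ) : ℂ) •
          ((af1D H ^ j) F) 0 ((m + 1) + n - j) =
        ∑ j ∈ Finset.range (N + 1), ((Ring.choose m j : ℤ) : ℂ) •
          ((af1D H ^ j) F) 0 (m + (n + 1) - j) + (af1D H F) m n := by
      intro m n
      rw [hg2 m n, Finset.sum_range_succ', Finset.sum_range_succ' (fun j : ℕ =>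
        ((Ring.choose m j : ℤ) : ℂ) • ((af1D H ^ j) F) 0 (m + (n + 1) - j))]
      rw [add_right_comm (Finset.sum _ _) _ _, ← Finset.sum_add_distrib]
      refine congrArg₂ (· + ·) (Finset.sum_congr rfl fun j _ => ?_) ?_
      · rw [Ring.choose_succ_succ, ← Module.End.mul_apply, ← pow_succ]
        have e1 : m + 1 + n - ((j + 1 : ℕ) : ℤ) = m + n - j := by push_cast; ring
        have e2 : m + (n + 1) - ((j + 1 : ℕ) : ℤ) = m + n - j := by push_cast; ring
        rw [e1, e2, ← add_smul]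
        push_cast
        rw [add_comm]
      · rw [Ring.choose_zero_right, Ring.choose_zero_right]
        have e1 : m + 1 + n - ((0 : ℕ) : ℤ) = m + (n + 1) - ((0 : ℕ) : ℤ) := by push_cast; ring
        rw [e1]
    have hD : ∀ m n : ℤ, (af1D H F) m n = F (m + 1) n - F m (n + 1) := fun m n => rfl
    have key : ∀ m : ℤ, ∀ n : ℤ, F m n = ∑ j ∈ Finset.range (N + 1),
        ((Ring.choose m j : ℤ) : ℂ) • ((af1D H ^ j) F) 0 (m + n - j) := by
      intro m
      induction m using Int.induction_on with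
      | zero =>
        intro n
        rw [Finset.sum_range_succ', Ring.choose_zero_right, Finset.sum_eq_zero]
        · simp
        · intro j _
          rw [Ring.choose_zero_succ]
          simp
      | succ i hi =>
        intro n
        rw [hpas, ← hi (n + 1), hD]
        abel
      | pred i hi =>
        intro n
        have h1 := hpas (-(i : ℤ) - 1) (n - 1)
        have e1 : (-(i : ℤ) - 1) + 1 = -(i : ℤ) := by ring
        have e2 : n - 1 + 1 = n := by ring
        rw [e1, ← hi (n - 1), e2, hD, e1, e2] at h1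
        have h2 : F (-(i : ℤ)) (n - 1) = (∑ j ∈ Finset.range (N + 1),
          ((Ring.choose (-(i : ℤ) - 1) j : ℤ) : ℂ) • ((af1D H ^ j) F) 0 (-(i : ℤ) - 1 + n - j)) +
          (F (-(i : ℤ)) (n - 1) - F (-(i : ℤ) - 1) n) := h1
        have h3 : (∑ j ∈ Finset.range (N + 1),
          ((Ring.choose (-(i : ℤ) - 1) j : ℤ) : ℂ) • ((af1D H ^ j) F) 0 (-(i : ℤ) - 1 + n - j)) =
          F (-(i : ℤ)) (n - 1) - (F (-(i : ℤ)) (n - 1) - F (-(i : ℤ) - 1) n) :=
          (eq_sub_of_add_eq h2.symm)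
        rw [h3]
        abel
    exact key m n

theorem va2_prod (j : ℕ) (a b : ℤ → V →ₗ[ℂ] V) (k : ℤ) :
    prodN j a b k = ((af1D (V →ₗ[ℂ] V) ^ j) (af1C a b b)) 0 k := by
  rw [Module.End.pow_apply]
  have h := iter_eq j (af1C a b b) 0 k
  refine Eq.trans ?_ h.symm
  unfold prodN af1C
  refine Finset.sum_congr rfl fun i _ => ?_
  rw [zero_add]

theorem comm_formula {N : ℕ} {a b : ℤ → V →ₗ[ℂ] V} (h : Loc N a b) (m n : ℤ) :
    a m ∘ₗ b n - b n ∘ₗ a m =
      ∑ j ∈ Finset.range N, ((Ring.choose m j : ℤ) : ℂ) • prodN j a b (m + n - j) := by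
  have h0 : (af1D (V →ₗ[ℂ] V) ^ N) (af1C a b b) = 0 := af1_iff.1 h
  have h1 := va2_gen N (af1C a b b) h0 m n
  refine Eq.trans h1 ?_
  refine Finset.sum_congr rfl fun j _ => ?_
  rw [va2_prod]

/-- The products `a_(j) b` vanish for `j ≥ N`. -/
theorem prodN_zero {N : ℕ} {a b : ℤ → V →ₗ[ℂ] V} (h : Loc N a b) (j : ℕ) (hj : N ≤ j) (k : ℤ) :
    prodN j a b k = 0 := by
  have h0 : (af1D (V →ₗ[ℂ] V) ^ N) (af1C a b b) = 0 := af1_iff.1 h
  obtain ⟨i, rfl⟩ := Nat.exists_eq_add_of_le hj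
  rw [va2_prod, add_comm, pow_add, Module.End.mul_apply, h0, map_zero]
  rfl

end

end WPQ.AF
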