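import Pool.Agent.WPQ.VA1
import Pool.Agent.WPQ.VA2

/-! [WPQ-VA3] Commutator formula for the modes, skew symmetry, Virasoro commutators.

Plan.  `mode_comm`: `vo_local` gives `N`; `comm_formula` with `LocP.mono` to `max N M`; for
`j ≥ M` the summand is `mode (mode u j v) .. = mode 0 .. = 0` (`mode_prodN`; `mode_smul` with `c = 0`);
for `N ≤ j` it is `0` by `prodN_zero`.
`mode_skew`: apply `mode_comm` for `(v, u)` with `m = -1`, `n = k` to `vac`:
`v_{-1} u_k vac - u_k v_{-1} vac = ∑_j C(-1,j) (v_j u)_{k-1-j} vac`; `u_k vac = 0`, `v_{-1} vac = v`,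
`C(-1,j) = (-1)^j`; `(x)_n vac = 0` for `n ≥ 0`, `(x)_{-1} vac = x`, and for `n ≤ -2` it is in the range of
`transl` (translation covariance, `transl_vac`): `φ` kills it.  Only `j = k` remains.
`mode_trunc`: `(mode_spec ..).field v`.
`LS_mode`: `mode_comm` with `u := omega`, `m := k + 1`: `mode_omega`: `mode ω j u = LS (j-1) u`:
`j = 0`: `LS (-1) u = transl u` (`LS_zero_neg_one`), `mode_transl`; `j = 1`: `LS 0 u = m u`;
`j ≥ 2`: `LS (j-1) u = 0` (from `L(1)u = L(2)u = 0` and `LS_comm`; `KV.prim_pos`, KV18).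
`Ring.choose (k+1) 1 = k+1`, `Ring.choose (k+1) 0 = 1`.
`LS_zero_mode`: the same with `k = 0`: `Ring.choose 1 j = 0` for `j ≥ 2`.
`Ej_mode`: `Ej = mode ε (single (rt j) 1) 0` (`expS_zero`, `mode_eq`/`mode_cS`-style: `expMode ε γ` is the
vertex operator of `single γ 1`: `isFld_expS`, `expS_local`, `cov_expS`, `expS_creation`), then
`mode_prodN` with `n = 0`. -/

namespace WPQ

open MvPolynomial AF

noncomputable section

variable {ι : Type} [Fintype ι] [DecidableEq ι] {A : Matrix ι ι ℤ} {p : ℕ}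

theorem va3_mode_zero (hA : IsADE A) (hp : 1 ≤ p) (ε : Cocycle A p) (n : ℤ) :
    mode ε (0 : VL ι) n = 0 := by
  have h := mode_smul hA hp ε (0 : ℂ) (0 : VL ι) n
  rwa [zero_smul, zero_smul] at h

theorem mode_comm (hA : IsADE A) (hp : 1 ≤ p) (ε : Cocycle A p) (u v : VL ι) (M : ℕ)
    (hM : ∀ j : ℕ, M ≤ j → mode ε u j v = 0) (m n : ℤ) :
    mode ε u m ∘ₗ mode ε v n - mode ε v n ∘ₗ mode ε u m =
      ∑ j ∈ Finset.range M, ((Ring.choose m j : ℤ) : ℂ) • mode ε (mode ε u j v) (m + n - j) := by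
  obtain ⟨N, hN⟩ := vo_local hA hp ε u v _ _ (mode_spec hA hp ε u) (mode_spec hA hp ε v)
  have hN' : Loc (max N M) (mode ε u) (mode ε v) := LocP.mono (le_max_left N M) hN
  rw [comm_formula hN' m n]
  have h1 : ∀ j ∈ Finset.range (max N M), ((Ring.choose m j : ℤ) : ℂ) •
      prodN j (mode ε u) (mode ε v) (m + n - j) =
      ((Ring.choose m j : ℤ) : ℂ) • mode ε (mode ε u j v) (m + n - j) := by
    intro j _
    rw [mode_prodN hA hp ε u v j]
  rw [Finset.sum_congr rfl h1]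
  symm
  apply Finset.sum_subset
  · intro j hj
    rw [Finset.mem_range] at hj ⊢
    exact lt_of_lt_of_le hj (le_max_right N M)
  · intro j _ hj
    rw [Finset.mem_range, not_lt] at hj
    rw [hM j hj, va3_mode_zero hA hp, smul_zero]

theorem mode_trunc (hA : IsADE A) (hp : 1 ≤ p) (ε : Cocycle A p) (u v : VL ι) :
    ∃ M : ℕ, ∀ j : ℤ, M ≤ j → mode ε u j v = 0 := by
  obtain ⟨N, hN⟩ := (mode_spec hA hp ε u).field v
  refine ⟨N.toNat, fun j hj => hN j ?_⟩
  have := Int.self_le_toNat N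
  omega

theorem va3_choose (j : ℕ) : (Ring.choose (-1 : ℤ) j : ℤ) = (-1) ^ j := by
  induction j with
  | zero => rw [Ring.choose_zero_right, pow_zero]
  | succ j ih =>
    have h := Ring.choose_succ_succ (-1 : ℤ) j
    rw [show (-1 : ℤ) + 1 = 0 by norm_num, Ring.choose_zero_succ, ih] at h
    rw [pow_succ]
    linarith

theorem va3_vac (hA : IsADE A) (hp : 1 ≤ p) (ε : Cocycle A p) (x : VL ι)
    (φ : VL ι →ₗ[ℂ] ℂ) (hφ : ∀ x, φ (transl x) = 0) (n : ℤ) (hn : n ≠ -1) :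
    φ (mode ε x n vac) = 0 := by
  rcases lt_or_ge n 0 with h | h
  · have ht := (mode_spec hA hp ε x).translation (n + 1)
    have h1 := congrArg (fun f : VL ι →ₗ[ℂ] VL ι => φ (f vac)) ht
    simp only [LinearMap.sub_apply, LinearMap.comp_apply, LinearMap.smul_apply, map_sub,
      map_smul] at h1
    rw [hφ, transl_vac, map_zero, map_zero, sub_zero, show n + 1 - 1 = n by ring] at h1
    have h2 := h1.symm
    rw [smul_eq_zero] at h2
    rcases h2 with h2 | h2
    · exfalso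
      have h3 : ((n + 1 : ℤ) : ℂ) = 0 := by linear_combination -h2
      rw [Int.cast_eq_zero] at h3
      omega
    · exact h2
  · rw [(mode_spec hA hp ε x).vacuum n h, map_zero]

theorem mode_skew (hA : IsADE A) (hp : 1 ≤ p) (ε : Cocycle A p) (u v : VL ι)
    (φ : VL ι →ₗ[ℂ] ℂ) (hφ : ∀ x, φ (transl x) = 0) (k : ℕ) :
    φ (mode ε u k v) = -(-1) ^ k * φ (mode ε v k u) := by
  obtain ⟨M, hM⟩ := mode_trunc hA hp ε v u
  have hM' : ∀ j : ℕ, M + k + 1 ≤ j → mode ε v j u = 0 := fun j hj => hM j (by omega)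
  have h := mode_comm hA hp ε v u (M + k + 1) hM' (-1) k
  have h1 := congrArg (fun f : VL ι →ₗ[ℂ] VL ι => φ (f vac)) h
  simp only [LinearMap.sub_apply, LinearMap.comp_apply, LinearMap.sum_apply,
    LinearMap.smul_apply, map_sub, map_sum, map_smul] at h1
  rw [(mode_spec hA hp ε u).vacuum k (by omega), mode_neg_one_vac hA hp, map_zero, map_zero,
    zero_sub, Finset.sum_eq_single k] at h1
  · rw [va3_choose, show (-1 + (k : ℤ) - k) = -1 by ring, mode_neg_one_vac hA hp] at h1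
    rw [smul_eq_mul] at h1
    push_cast at h1
    linear_combination -h1
  · intro j _ hj
    rw [va3_vac hA hp ε _ φ hφ, smul_zero]
    intro h2
    apply hj
    omega
  · intro h2
    exfalso
    apply h2
    rw [Finset.mem_range]
    omega

theorem mode_single (hA : IsADE A) (hp : 1 ≤ p) (ε : Cocycle A p) (γ : ι → ℤ) :
    mode ε (Finsupp.single γ 1) = expMode ε γ := by
  have h := mode_cS hA hp ε (-γ) []
  have h1 : Ew ε (Shift.zero A p) [] (Finsupp.single (-(-γ)) 1) = Finsupp.single γ 1 := by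
    rw [neg_neg]
    rfl
  have h2 : cS ε (Shift.zero A p) (-γ) [] = expS ε (Shift.zero A p) γ := by
    have h3 : cS ε (Shift.zero A p) (-γ) [] = expS ε (Shift.zero A p) (-(-γ)) := rfl
    rw [h3, neg_neg]
  rw [h1, h2] at h
  rw [h]
  funext n
  exact expS_zero ε γ n

theorem va3_Ej (hA : IsADE A) (hp : 1 ≤ p) (ε : Cocycle A p) (j : ι) :
    Ej ε (Shift.zero A p) j = mode ε (Finsupp.single (rt j) 1) ((0 : ℕ) : ℤ) := by
  rw [mode_single hA hp]
  exact expS_zero ε (rt j) 0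

theorem Ej_mode (hA : IsADE A) (hp : 1 ≤ p) (ε : Cocycle A p) (j : ι) (u : VL ι) (s : ℤ) :
    Ej ε (Shift.zero A p) j ∘ₗ mode ε u s - mode ε u s ∘ₗ Ej ε (Shift.zero A p) j =
      mode ε (Ej ε (Shift.zero A p) j u) s := by
  rw [va3_Ej hA hp, mode_prodN hA hp]
  unfold prodN
  simp

theorem va3_omega (hA : IsADE A) (hp : 1 ≤ p) (ε : Cocycle A p) (u : VL ι) (m : ℂ)
    (h0 : LS (Shift.zero A p) 0 u = m • u) (M : ℕ)
    (hM : ∀ j : ℕ, M + 2 ≤ j → mode ε (omega A p) j u = 0) (k s : ℤ)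
    (hz : ∀ j : ℕ, 2 ≤ j → Ring.choose (k + 1) j = 0 ∨ mode ε (omega A p) j u = 0) :
    LS (Shift.zero A p) k ∘ₗ mode ε u s - mode ε u s ∘ₗ LS (Shift.zero A p) k =
      ((m - 1) * ((k : ℂ) + 1) - s) • mode ε u (s + k) := by
  have h := mode_comm hA hp ε (omega A p) u (M + 2) hM (k + 1) s
  have e : mode ε (omega A p) (k + 1) = LS (Shift.zero A p) k := by
    rw [mode_omega hA hp, show k + 1 - 1 = k by ring]
  rw [e] at h
  rw [h, add_comm M 2, Finset.sum_range_add, Finset.sum_range_succ, Finset.sum_range_one,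
    Finset.sum_eq_zero, add_zero]
  · rw [mode_omega hA hp, mode_omega hA hp]
    have e0 : (((0 : ℕ) : ℤ) - 1) = -1 := by norm_num
    have e1 : (((1 : ℕ) : ℤ) - 1) = 0 := by norm_num
    rw [e0, e1, LS_zero_neg_one, h0, mode_transl hA hp, mode_smul hA hp, Ring.choose_zero_right,
      Ring.choose_one_right, smul_smul, smul_smul]
    have e2 : k + 1 + s - ((0 : ℕ) : ℤ) - 1 = s + k := by push_cast; ring
    have e3 : k + 1 + s - ((1 : ℕ) : ℤ) = s + k := by push_cast; ring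
    rw [e2, e3, ← add_smul]
    congr 1
    push_cast
    ring
  · intro j _
    rcases hz (2 + j) (by omega) with h1 | h1
    · rw [h1]
      simp
    · rw [h1, va3_mode_zero hA hp, smul_zero]

theorem LS_zero_mode (hA : IsADE A) (hp : 1 ≤ p) (ε : Cocycle A p) (u : VL ι) (m : ℂ)
    (h0 : LS (Shift.zero A p) 0 u = m • u) (s : ℤ) :
    LS (Shift.zero A p) 0 ∘ₗ mode ε u s - mode ε u s ∘ₗ LS (Shift.zero A p) 0 =
      (m - 1 - s) • mode ε u s := by
  obtain ⟨M, hM⟩ := mode_trunc hA hp ε (omega A p) u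
  have h := va3_omega hA hp ε u m h0 M (fun j hj => hM j (by omega)) 0 s (by
    intro j hj
    left
    have h1 : Ring.choose ((1 : ℕ) : ℤ) j = ((Nat.choose 1 j : ℕ) : ℤ) := Ring.choose_natCast 1 j
    have h2 : Nat.choose 1 j = 0 := Nat.choose_eq_zero_of_lt (by omega)
    rw [h2] at h1
    simpa using h1)
  rw [h, add_zero]
  congr 1
  push_cast
  ring

theorem LS_mode (hA : IsADE A) (hp : 1 ≤ p) (ε : Cocycle A p) (u : VL ι) (m : ℂ)
    (h0 : LS (Shift.zero A p) 0 u = m • u) (h1 : LS (Shift.zero A p) 1 u = 0)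
    (h2 : LS (Shift.zero A p) 2 u = 0) (k s : ℤ) :
    LS (Shift.zero A p) k ∘ₗ mode ε u s - mode ε u s ∘ₗ LS (Shift.zero A p) k =
      ((m - 1) * ((k : ℂ) + 1) - s) • mode ε u (s + k) := by
  have hv : KV.IsVir (cc A p) (LS (Shift.zero A p)) := fun m n => LS_comm hA hp m n
  have hj : ∀ j : ℕ, 2 ≤ j → mode ε (omega A p) j u = 0 := by
    intro j hj
    obtain ⟨i, rfl⟩ : ∃ i, j = i + 1 := ⟨j - 1, by omega⟩
    rw [mode_omega hA hp, show (((i + 1 : ℕ) : ℤ) - 1) = (i : ℤ) by push_cast; ring]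
    exact KV.prim_pos hv u h1 h2 i (by omega)
  exact va3_omega hA hp ε u m h0 0 (fun j hj' => hj j (by omega)) k s (fun j hj' => Or.inr (hj j hj'))

end

end WPQ
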