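import Pool.Agent.WPQ.Defs

/-!
# The conformal vector and primary vectors of `V_L`

`β` is the sum of the positive roots of `Q`, so `β = 2ρ` with `(α_i, ρ) = 1` for every simple root.
In the basis `b_i = √p α_i` the vector `((p-1)/(2√p)) β = ((p-1)/√p) ρ` has the coordinates
`((p-1)/p) ∑_j (A⁻¹)_ij`.
-/

namespace WPQ

open MvPolynomial

noncomputable section

variable {ι : Type} [Fintype ι] [DecidableEq ι]

/-- The entries of the inverse of the Gram matrix `A` of the simple roots. -/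
def invA (A : Matrix ι ι ℤ) (i j : ι) : ℂ := (A.map (Int.cast : ℤ → ℂ))⁻¹ i j

/-- The vector `((p-1)/(2√p)) β` in the basis `b_i`. -/
def bgVec (A : Matrix ι ι ℤ) (p : ℕ) : ι → ℂ := fun i => ((p : ℂ) - 1) / p * ∑ j, invA A i j

/-- The dual basis of `b_i`, in the basis `b_i`. -/
def dualVec (A : Matrix ι ι ℤ) (p : ℕ) (i : ι) : ι → ℂ := fun j => (p : ℂ)⁻¹ * invA A i j

/-- The conformal vector `ω = ω_st + ((p-1)/(2√p)) β(-2)1`,
`ω_st = (1/2) ∑_i b_i^∨(-1) b_i(-1) 1` (recall `osc ν 0 = ν(-1)1` and `2 osc ν 1 = ν(-2)1`). -/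
def omegaV (A : Matrix ι ι ℤ) (p : ℕ) : VL ι :=
  Finsupp.single 0 (C (1 / 2 : ℂ) * ∑ i, osc (dualVec A p i) 0 * osc (Pi.single i 1) 0 +
    C (2 : ℂ) * osc (bgVec A p) 1)

/-- Primary vectors: `L(n) v = 0` for all `n > 0`, where `Y(ω,z) = ∑ L(n) z^{-n-2}`, that is
`L(n)` is the mode `ω_{n+1}`. -/
def IsPrimary {A : Matrix ι ι ℤ} {p : ℕ} (ε : Cocycle A p) (v : VL ι) : Prop :=
  ∀ n : ℤ, 0 < n → mode ε (omegaV A p) (n + 1) v = 0

/-- The statement of Q1 for one pair `(Q,p)`, in a strong form: finitely many primary homogeneous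
vectors `S` of `W(p)_Q` such that every subset of `W(p)_Q` containing `ω` and `S` strongly generates
`W(p)_Q`. -/
def PrimaryGenerated (A : Matrix ι ι ℤ) (p : ℕ) : Prop :=
  omegaV A p ∈ W A p ∧ ∀ ε : Cocycle A p, ∃ S : Finset (VL ι),
    (∀ u ∈ S, u ∈ W A p ∧ (∃ n, IsHomog A p n u) ∧ IsPrimary ε u) ∧
      ∀ T : Set (VL ι), omegaV A p ∈ T → (S : Set (VL ι)) ⊆ T → T ⊆ (W A p : Set (VL ι)) →
        StronglyGenerates ε T (W A p)

/-- The exceptional set attached to a constant `C`. -/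
def Exc (C : ℕ) : Set ℕ := {p | p ≤ C ∨ ∃ r : ℕ, 2 ≤ r ∧ r ^ 2 ≤ C * p ∧ p ∣ C * (r ^ 2 - 1)}

/-- Statement B (target): `Q1` holds for all `p` outside an explicit set, which has at most
`O(N^(1/2+δ))` elements below `N`, for every `δ > 0`. -/
def MainB : Prop :=
  ∀ (ι : Type) [Fintype ι] [DecidableEq ι] (A : Matrix ι ι ℤ), IsADE A → 2 ≤ Fintype.card ι →
    ∃ C : ℕ, 0 < C ∧ (∀ p : ℕ, p ∉ Exc C → PrimaryGenerated A p) ∧
      ∀ δ : ℝ, 0 < δ → ∃ K : ℝ, ∀ N : ℕ, 1 ≤ N →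
        (({p : ℕ | p < N ∧ p ∈ Exc C}.ncard : ℕ) : ℝ) ≤ K * (N : ℝ) ^ (1 / 2 + δ)

end

end WPQ
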