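import Pool.Agent.WPQ.FL4

/-! [WPQ-FL5] Facts about `mode`.

Plan.  Uniqueness (`mode_eq`): the candidate on the right side is a vertex operator of the vector
(linearity of all conditions; locality with a common order, `LocP.mono`).
`mode_omega`: `a n = LS zero (n-1)`: local with `expMode ε γ` of order 2 and with `heisMode h` of
order 3 (from `LS_expS`, `LS_hS`; the term `k(k+1)` is killed by third differences), field by
`Lop_trunc`, vacuum by `LS_vac`.  Covariance `[L(-1), L(n-1)] = -n L(n-2)`: for the difference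
`X = [L(-1),L(m)] + (m+1) L(m-1)` one checks `[X, expMode γ n] = 0`, `[X, heisMode h n] = 0` (Jacobi and
the formulas) and `X vac = 0`, so `X = 0` by `generated`.  `X vac = 0` for `m ≥ -1` by `LS_vac`; for
`m ≤ -2` it says `L(-1) L(m) vac = -(m+1) L(m-1) vac`, a direct computation with the explicit vectors
`L(-k) 1 = ` (linear + quadratic part of `Lop A p 0 (-k)`), `LS_zero_neg_one` (alternatively a direct
proof of the commutator on the Fock space). -/

namespace WPQ

open MvPolynomial AF

noncomputable section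

variable {ι : Type} [Fintype ι] [DecidableEq ι] {A : Matrix ι ι ℤ} {p : ℕ}

/-- The conformal vector. -/
def omega (A : Matrix ι ι ℤ) (p : ℕ) : VL ι := LS (Shift.zero A p) (-2) vac

theorem mode_add (hA : IsADE A) (hp : 1 ≤ p) (ε : Cocycle A p) (u v : VL ι) (n : ℤ) :
    mode ε (u + v) n = mode ε u n + mode ε v n := by
  have hu := mode_spec hA hp ε u
  have hv := mode_spec hA hp ε v
  have h : IsVertexOperator ε (u + v) (fun n => mode ε u n + mode ε v n) := by
    refine ⟨?_, ?_, ?_, ?_, ?_, ?_⟩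
    · intro w
      obtain ⟨N, hN⟩ := hu.field w
      obtain ⟨M, hM⟩ := hv.field w
      refine ⟨max N M, fun n hn => ?_⟩
      rw [LinearMap.add_apply, hN n (le_trans (le_max_left _ _) hn),
        hM n (le_trans (le_max_right _ _) hn), add_zero]
    · intro γ
      obtain ⟨N, hN⟩ := hu.local_exp γ
      obtain ⟨M, hM⟩ := hv.local_exp γ
      exact ⟨max N M, LocP.add (LocP.mono (le_max_left N M) hN) (LocP.mono (le_max_right N M) hM)⟩
    · intro γ
      obtain ⟨N, hN⟩ := hu.local_heis γ
      obtain ⟨M, hM⟩ := hv.local_heis γ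
      exact ⟨max N M, LocP.add (LocP.mono (le_max_left N M) hN) (LocP.mono (le_max_right N M) hM)⟩
    · intro n
      rw [LinearMap.comp_add, LinearMap.add_comp, smul_add, ← hu.translation n,
        ← hv.translation n]
      abel
    · intro n hn
      rw [LinearMap.add_apply, hu.vacuum n hn, hv.vacuum n hn, add_zero]
    · rw [LinearMap.add_apply, hu.creation, hv.creation]
  rw [mode_eq ε (u + v) _ h]

theorem mode_smul (hA : IsADE A) (hp : 1 ≤ p) (ε : Cocycle A p) (c : ℂ) (u : VL ι) (n : ℤ) :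
    mode ε (c • u) n = c • mode ε u n := by
  have hu := mode_spec hA hp ε u
  have h : IsVertexOperator ε (c • u) (fun n => c • mode ε u n) := by
    refine ⟨?_, ?_, ?_, ?_, ?_, ?_⟩
    · intro w
      obtain ⟨N, hN⟩ := hu.field w
      refine ⟨N, fun n hn => ?_⟩
      rw [LinearMap.smul_apply, hN n hn, smul_zero]
    · intro γ
      obtain ⟨N, hN⟩ := hu.local_exp γ
      exact ⟨N, LocP.smul c hN⟩
    · intro γ
      obtain ⟨N, hN⟩ := hu.local_heis γ
      exact ⟨N, LocP.smul c hN⟩
    · intro n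
      refine LinearMap.ext fun w => ?_
      have h1 : transl (mode ε u n w) - mode ε u n (transl w) =
          (-n : ℂ) • mode ε u (n - 1) w := LinearMap.congr_fun (hu.translation n) w
      show transl (c • mode ε u n w) - c • mode ε u n (transl w) =
        (-n : ℂ) • c • mode ε u (n - 1) w
      rw [map_smul, ← smul_sub, h1, smul_comm]
    · intro n hn
      rw [LinearMap.smul_apply, hu.vacuum n hn, smul_zero]
    · rw [LinearMap.smul_apply, hu.creation]
  rw [mode_eq ε (c • u) _ h]

theorem mode_neg_one_vac (hA : IsADE A) (hp : 1 ≤ p) (ε : Cocycle A p) (u : VL ι) :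
    mode ε u (-1) vac = u :=
  (mode_spec hA hp ε u).creation

theorem mode_cS (hA : IsADE A) (hp : 1 ≤ p) (ε : Cocycle A p) (lam : ι → ℤ) (js : List ι) :
    mode ε (Ew ε (Shift.zero A p) js (Finsupp.single (-lam) 1)) =
      cS ε (Shift.zero A p) lam js :=
  mode_eq ε _ _ (cS_vo hA hp ε lam js)

theorem fl5_LS_single (σ : Shift A p) (k : ℤ) (η : ι → ℤ) (f : Fock ι) :
    LS σ k (Finsupp.single η f) = Finsupp.single η (Lop A p (σ.s + toC η) k f) := by
  unfold LS
  rw [Finsupp.lsum_single]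
  rfl

theorem fl5_heis_single (h : ι → ℂ) (k : ℤ) (η : ι → ℤ) (f : Fock ι) :
    heisMode A p h k (Finsupp.single η f) = Finsupp.single η (heis A p h k (toC η) f) := by
  unfold heisMode
  rw [Finsupp.lsum_single]
  rfl

theorem fl5_isFld_LS (σ : Shift A p) : IsFld (fun n => LS σ (n - 1)) := by
  intro v
  induction v using Finsupp.induction_linear with
  | zero => exact ⟨0, fun n _ => map_zero _⟩
  | add f g hf hg =>
    obtain ⟨N, hN⟩ := hf
    obtain ⟨M, hM⟩ := hg
    refine ⟨max N M, fun n hn => ?_⟩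
    rw [map_add, hN n (le_trans (le_max_left _ _) hn),
      hM n (le_trans (le_max_right _ _) hn), add_zero]
  | single η f =>
    obtain ⟨N, hN⟩ := Lop_trunc A p (σ.s + toC η) f
    refine ⟨N + 1, fun n hn => ?_⟩
    show LS σ (n - 1) (Finsupp.single η f) = 0
    rw [fl5_LS_single, hN (n - 1) (by omega), Finsupp.single_zero]

/-- the difference of the two sides of the commutation rule -/
def fl5_X {V : Type} [AddCommGroup V] [Module ℂ V] (L : ℤ → V →ₗ[ℂ] V) (m : ℤ) : V →ₗ[ℂ] V :=
  (L (-1) ∘ₗ L m - L m ∘ₗ L (-1)) + ((m : ℂ) + 1) • L (m - 1)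

theorem fl5_X_apply {V : Type} [AddCommGroup V] [Module ℂ V] (L : ℤ → V →ₗ[ℂ] V) (m : ℤ) (v : V) :
    fl5_X L m v = L (-1) (L m v) - L m (L (-1) v) + ((m : ℂ) + 1) • L (m - 1) v := rfl

theorem fl5_X_exp {V : Type} [AddCommGroup V] [Module ℂ V] (L e : ℤ → V →ₗ[ℂ] V) (D : ℂ)
    (key : ∀ (k n : ℤ) (v : V), L k (e n v) - e n (L k v) =
      (((k : ℂ) + 1) * (D - 1) - n) • e (n + k) v) (m n : ℤ) (v : V) :
    fl5_X L m (e n v) = e n (fl5_X L m v) := by
  have hk : ∀ (k n : ℤ) (v : V), L k (e n v) = e n (L k v) +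
      (((k : ℂ) + 1) * (D - 1) - n) • e (n + k) v := by
    intro k n v
    rw [← key k n v]
    abel
  rw [fl5_X_apply, fl5_X_apply, hk m n v, hk (-1) n v, hk (m - 1) n v, map_add, map_add, map_smul,
    map_smul, hk (-1) n (L m v), hk m n (L (-1) v), hk (-1) (n + m) v, hk m (n + -1) v, map_add,
    map_sub, map_smul]
  have e1 : n + m + -1 = n + (m - 1) := by ring
  have e2 : n + -1 + m = n + (m - 1) := by ring
  rw [e1, e2]
  push_cast
  module

theorem fl5_X_heis {V : Type} [AddCommGroup V] [Module ℂ V] (L e : ℤ → V →ₗ[ℂ] V) (D : ℂ)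
    (key : ∀ (k n : ℤ) (v : V), L k (e n v) - e n (L k v) =
      (-(n : ℂ)) • e (n + k) v - (if n + k = 0 then (k : ℂ) * (k + 1) * D else 0) • v)
    (m n : ℤ) (v : V) :
    fl5_X L m (e n v) = e n (fl5_X L m v) := by
  have hk : ∀ (k n : ℤ) (v : V), L k (e n v) = e n (L k v) +
      ((-(n : ℂ)) • e (n + k) v - (if n + k = 0 then (k : ℂ) * (k + 1) * D else 0) • v) := by
    intro k n v
    rw [← key k n v]
    abel
  have hk1 : ∀ (n : ℤ) (v : V), L (-1) (e n v) = e n (L (-1) v) + (-(n : ℂ)) • e (n + -1) v := by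
    intro n v
    rw [hk (-1) n v]
    have h0 : (if n + -1 = 0 then ((-1 : ℤ) : ℂ) * (((-1 : ℤ) : ℂ) + 1) * D else 0) = 0 := by
      split_ifs
      · push_cast
        ring
      · rfl
    rw [h0, zero_smul, sub_zero]
  rw [fl5_X_apply, fl5_X_apply, hk m n v, hk1 n v, hk (m - 1) n v, map_add, map_add, map_sub,
    map_smul, map_smul, map_smul, hk1 n (L m v), hk m n (L (-1) v), hk1 (n + m) v,
    hk m (n + -1) v, map_add, map_sub, map_smul]
  have e1 : n + m + -1 = n + (m - 1) := by ring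
  have e2 : n + -1 + m = n + (m - 1) := by ring
  rw [e1, e2]
  by_cases h0 : n + (m - 1) = 0
  · rw [if_pos h0, if_pos h0]
    have h6 : (n : ℂ) = 1 - m := by
      have h7 : n = 1 - m := by omega
      rw [h7]
      push_cast
      ring
    push_cast
    rw [h6]
    module
  · rw [if_neg h0, if_neg h0]
    push_cast
    module

theorem fl5_loc_exp {V : Type} [AddCommGroup V] [Module ℂ V] (L e : ℤ → V →ₗ[ℂ] V) (D : ℂ)
    (key : ∀ (k n : ℤ) (v : V), L k (e n v) - e n (L k v) =
      (((k : ℂ) + 1) * (D - 1) - n) • e (n + k) v) : Loc 2 (fun n => L (n - 1)) e := by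
  intro m n
  refine LinearMap.ext fun v => ?_
  have hk : ∀ k : ℕ, ((fun n => L (n - 1)) (m + (2 : ℕ) - k) ∘ₗ e (n + k) -
      e (n + k) ∘ₗ (fun n => L (n - 1)) (m + (2 : ℕ) - k)) v =
      (((m : ℂ) + 2 - k) * (D - 1) - ((n : ℂ) + k)) • e (n + m + 1) v := by
    intro k
    have h1 := key (m + (2 : ℕ) - k - 1) (n + k) v
    have h2 : n + (k : ℤ) + (m + (2 : ℕ) - k - 1) = n + m + 1 := by
      push_cast
      ring
    rw [h2] at h1
    refine h1.trans ?_
    push_cast
    congr 1
    ring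
  rw [LinearMap.sum_apply, LinearMap.zero_apply]
  simp only [LinearMap.smul_apply, hk]
  rw [Finset.sum_range_succ, Finset.sum_range_succ, Finset.sum_range_one]
  simp only [smul_smul, ← add_smul]
  have h3 : ((-1 : ℂ) ^ 0 * ((2 : ℕ).choose 0 : ℂ) *
      (((m : ℂ) + 2 - ((0 : ℕ) : ℂ)) * (D - 1) - ((n : ℂ) + ((0 : ℕ) : ℂ))) +
      (-1 : ℂ) ^ 1 * ((2 : ℕ).choose 1 : ℂ) *
      (((m : ℂ) + 2 - ((1 : ℕ) : ℂ)) * (D - 1) - ((n : ℂ) + ((1 : ℕ) : ℂ))) +
      (-1 : ℂ) ^ 2 * ((2 : ℕ).choose 2 : ℂ) *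
      (((m : ℂ) + 2 - ((2 : ℕ) : ℂ)) * (D - 1) - ((n : ℂ) + ((2 : ℕ) : ℂ)))) = 0 := by
    have c0 : (2 : ℕ).choose 0 = 1 := rfl
    have c1 : (2 : ℕ).choose 1 = 2 := rfl
    have c2 : (2 : ℕ).choose 2 = 1 := rfl
    rw [c0, c1, c2]
    push_cast
    ring
  rw [h3, zero_smul]

theorem fl5_loc_heis {V : Type} [AddCommGroup V] [Module ℂ V] (L e : ℤ → V →ₗ[ℂ] V) (D : ℂ)
    (key : ∀ (k n : ℤ) (v : V), L k (e n v) - e n (L k v) =
      (-(n : ℂ)) • e (n + k) v - (if n + k = 0 then (k : ℂ) * (k + 1) * D else 0) • v) :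
    Loc 3 (fun n => L (n - 1)) e := by
  intro m n
  refine LinearMap.ext fun v => ?_
  have hk : ∀ k : ℕ, ((fun n => L (n - 1)) (m + (3 : ℕ) - k) ∘ₗ e (n + k) -
      e (n + k) ∘ₗ (fun n => L (n - 1)) (m + (3 : ℕ) - k)) v =
      (-((n : ℂ) + k)) • e (n + m + 2) v -
      (((m : ℂ) + 2 - k) * ((m : ℂ) + 3 - k)) • ((if n + m + 2 = 0 then D else 0) • v) := by
    intro k
    have h1 := key (m + (3 : ℕ) - k - 1) (n + k) v
    have h2 : n + (k : ℤ) + (m + (3 : ℕ) - k - 1) = n + m + 2 := by
      push_cast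
      ring
    rw [h2] at h1
    refine h1.trans ?_
    by_cases h0 : n + m + 2 = 0
    · rw [if_pos h0, if_pos h0, smul_smul]
      push_cast
      congr 2
      ring
    · rw [if_neg h0, if_neg h0, zero_smul, smul_zero]
      push_cast
      rfl
  rw [LinearMap.sum_apply, LinearMap.zero_apply]
  simp only [LinearMap.smul_apply, hk]
  rw [Finset.sum_range_succ, Finset.sum_range_succ, Finset.sum_range_succ, Finset.sum_range_one]
  have c0 : (3 : ℕ).choose 0 = 1 := rfl
  have c1 : (3 : ℕ).choose 1 = 3 := rfl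
  have c2 : (3 : ℕ).choose 2 = 3 := rfl
  have c3 : (3 : ℕ).choose 3 = 1 := rfl
  rw [c0, c1, c2, c3]
  push_cast
  module

/-- a homogeneous element of positive degree killed by all derivatives is zero -/
theorem fl5_pd (g : Fock ι) (d : ℕ) (hd : 0 < d) (hg : FH g d)
    (h : ∀ s, pderiv s g = 0) : g = 0 := by
  refine MvPolynomial.ext _ _ fun m => ?_
  rw [coeff_zero]
  by_cases hm : m = 0
  · by_contra hc
    have h1 := hg hc
    rw [hm, map_zero] at h1
    omega
  · obtain ⟨s, hs⟩ : ∃ s, m s ≠ 0 := by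
      by_contra hc
      push Not at hc
      exact hm (Finsupp.ext hc)
    have h1 := coeff_pderiv (i := s) g (m - Finsupp.single s 1)
    rw [h s, coeff_zero] at h1
    have h2 : m - Finsupp.single s 1 + Finsupp.single s 1 = m := by
      ext t
      rw [Finsupp.add_apply, Finsupp.tsub_apply]
      by_cases ht : t = s
      · subst ht
        rw [Finsupp.single_eq_same]
        omega
      · rw [Finsupp.single_eq_of_ne ht]
        omega
    rw [h2] at h1
    rcases mul_eq_zero.1 h1.symm with h3 | h3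
    · exact h3
    · exact absurd h3 (Nat.cast_add_one_ne_zero _)

theorem fl5_key_exp (hA : IsADE A) (hp : 1 ≤ p) (ε : Cocycle A p) (γ : ι → ℤ) (k n : ℤ)
    (v : VL ι) : LS (Shift.zero A p) k (expMode ε γ n v) - expMode ε γ n (LS (Shift.zero A p) k v) =
      (((k : ℂ) + 1) * ((wtExp A p γ : ℂ) - 1) - n) • expMode ε γ (n + k) v := by
  rw [← expS_zero, ← expS_zero]
  exact LinearMap.congr_fun (LS_expS hA hp ε (Shift.zero A p) γ k n) v

theorem fl5_key_heis (hA : IsADE A) (hp : 1 ≤ p) (h : ι → ℂ) (k n : ℤ) (v : VL ι) :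
    LS (Shift.zero A p) k (heisMode A p h n v) - heisMode A p h n (LS (Shift.zero A p) k v) =
      (-(n : ℂ)) • heisMode A p h (n + k) v -
        (if n + k = 0 then (k : ℂ) * (k + 1) * form A p (bg A p) h else 0) • v := by
  rw [← hS_zero, ← hS_zero]
  refine (LinearMap.congr_fun (LS_hS hA hp (Shift.zero A p) h k n) v).trans ?_
  by_cases h0 : n + k = 0
  · rw [if_pos h0, if_pos h0]
    rfl
  · rw [if_neg h0, if_neg h0, zero_smul]
    rfl

theorem fl5_X_vac (hA : IsADE A) (hp : 1 ≤ p) (m : ℤ) :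
    fl5_X (LS (Shift.zero A p)) m (vac : VL ι) = 0 := by
  by_cases hm : -1 ≤ m
  · rw [fl5_X_apply, LS_vac m hm, LS_vac (-1) le_rfl, map_zero, map_zero, sub_zero, zero_add]
    by_cases h1 : m = -1
    · rw [h1]
      push_cast
      rw [neg_add_cancel, zero_smul]
    · rw [LS_vac (m - 1) (by omega), smul_zero]
  · set s0 : ι → ℂ := (Shift.zero A p).s + toC 0 with hs0
    set g : Fock ι := Lop A p s0 (-1) (Lop A p s0 m 1) + ((m : ℂ) + 1) • Lop A p s0 (m - 1) 1
      with hg
    have hx : fl5_X (LS (Shift.zero A p)) m (vac : VL ι) = Finsupp.single 0 g := by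
      rw [fl5_X_apply, LS_vac (-1) le_rfl, map_zero, sub_zero]
      unfold vac
      rw [fl5_LS_single, fl5_LS_single, fl5_LS_single, Finsupp.smul_single,
        ← Finsupp.single_add]
    have hone : FH (1 : Fock ι) 0 := isWeightedHomogeneous_one _ _
    have hgh : FH g (1 - m).toNat := by
      refine IsWeightedHomogeneous.add ?_ ?_
      · have h1 : FH (Lop A p s0 m 1) (-m).toNat :=
          Lop_homog A p s0 m 1 0 _ hone (by push_cast; omega)
        exact Lop_homog A p s0 (-1) _ (-m).toNat _ h1 (by omega)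
      · rw [smul_eq_C_mul]
        have h1 : FH (Lop A p s0 (m - 1) 1) (1 - m).toNat :=
          Lop_homog A p s0 (m - 1) 1 0 _ hone (by push_cast; omega)
        have h2 := IsWeightedHomogeneous.mul (isWeightedHomogeneous_C (wF (ι := ι)) ((m : ℂ) + 1)) h1
        rwa [zero_add] at h2
    have hg0 : g = 0 := by
      refine fl5_pd g _ (by omega) hgh ?_
      rintro ⟨j, k⟩
      have h1 : heisMode A p (dual A p j) (k + 1) (fl5_X (LS (Shift.zero A p)) m (vac : VL ι)) =
          0 := by
        rw [← fl5_X_heis (LS (Shift.zero A p)) (heisMode A p (dual A p j))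
          (form A p (bg A p) (dual A p j)) (fl5_key_heis hA hp (dual A p j)) m (k + 1) vac,
          ← hS_zero, hS_vac_nonneg (dual A p j) (k + 1) (by omega), map_zero]
      rw [hx, fl5_heis_single, Finsupp.single_eq_zero] at h1
      unfold heis at h1
      rw [if_neg (by omega), if_neg (by omega)] at h1
      have h2 : ((k : ℤ) + 1 - 1).toNat = k := by omega
      rw [h2, LinearMap.sum_apply, Finset.sum_eq_single j] at h1
      · have h3 : form A p (Pi.single j 1) (dual A p j) = 1 := by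
          have h4 := form_dual A hA p hp j j
          rw [if_pos rfl, form_symm A hA.symm] at h4
          exact h4
        rw [LinearMap.smul_apply, h3, one_smul] at h1
        exact h1
      · intro b _ hb
        have h3 : form A p (Pi.single b 1) (dual A p j) = 0 := by
          have h4 := form_dual A hA p hp j b
          rw [if_neg (fun h => hb h.symm), form_symm A hA.symm] at h4
          exact h4
        rw [LinearMap.smul_apply, h3, zero_smul]
      · intro h
        exact absurd (Finset.mem_univ j) h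
    rw [hx, hg0, Finsupp.single_zero]

theorem fl5_X_zero (hA : IsADE A) (hp : 1 ≤ p) (ε : Cocycle A p) (m : ℤ) (v : VL ι) :
    fl5_X (LS (Shift.zero A p)) m v = 0 := by
  have h1 : LinearMap.ker (fl5_X (LS (Shift.zero A p)) m : VL ι →ₗ[ℂ] VL ι) = ⊤ := by
    refine generated ε _ ?_ ?_
    · exact LinearMap.mem_ker.2 (fl5_X_vac hA hp m)
    · rintro g hg n w hw
      have hw' : fl5_X (LS (Shift.zero A p)) m w = 0 := LinearMap.mem_ker.1 hw
      refine LinearMap.mem_ker.2 ?_
      rcases hg with ⟨γ, rfl⟩ | ⟨h, rfl⟩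
      · refine (fl5_X_exp (LS (Shift.zero A p)) (expMode ε γ) (wtExp A p γ)
          (fl5_key_exp hA hp ε γ) m n w).trans ?_
        rw [hw', map_zero]
      · refine (fl5_X_heis (LS (Shift.zero A p)) (heisMode A p h)
          (form A p (bg A p) h) (fl5_key_heis hA hp h) m n w).trans ?_
        rw [hw', map_zero]
  have h2 : v ∈ LinearMap.ker (fl5_X (LS (Shift.zero A p)) m : VL ι →ₗ[ℂ] VL ι) := by
    rw [h1]
    exact Submodule.mem_top
  exact LinearMap.mem_ker.1 h2

theorem mode_omega (hA : IsADE A) (hp : 1 ≤ p) (ε : Cocycle A p) (n : ℤ) :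
    mode ε (omega A p) n = LS (Shift.zero A p) (n - 1) := by
  have h : IsVertexOperator ε (omega A p) (fun n => LS (Shift.zero A p) (n - 1)) := by
    refine ⟨fl5_isFld_LS _, ?_, ?_, ?_, ?_, ?_⟩
    · intro γ
      exact ⟨2, fl5_loc_exp (LS (Shift.zero A p)) (expMode ε γ) (wtExp A p γ)
        (fl5_key_exp hA hp ε γ)⟩
    · intro h
      exact ⟨3, fl5_loc_heis (LS (Shift.zero A p)) (heisMode A p h)
        (form A p (bg A p) h) (fl5_key_heis hA hp h)⟩
    · intro n
      refine LinearMap.ext fun v => ?_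
      have h1 := fl5_X_zero hA hp ε (n - 1) v
      rw [fl5_X_apply, LS_zero_neg_one] at h1
      show transl (LS (Shift.zero A p) (n - 1) v) - LS (Shift.zero A p) (n - 1) (transl v) =
        (-n : ℂ) • LS (Shift.zero A p) (n - 1 - 1) v
      rw [eq_neg_of_add_eq_zero_left h1, ← neg_smul]
      push_cast
      congr 1
      ring
    · intro n hn
      exact LS_vac (n - 1) (by omega)
    · rfl
  rw [mode_eq ε (omega A p) _ h]

end

end WPQ
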