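import Pool.Agent.WPQ.FW3

/-! [WPQ-FW6] The iterates `EN` of the long screening on the vacuum.

Plan: `EN_one`: induction on `N`.  `vop (bb j) m` of a product `∏_r expCoeffZ (bb j) n_r` is
`∑_q expCoeffZ (m+q) Sop q (∏ ...)`, and `annih` is multiplicative with
`annih (expCoeff (bb j) n) = ∑_i ee(2p,i) u^i expCoeff (n-i)` (`form (bb j) (bb j) = 2p`), i.e. the
result is `∑_{(i_r)} ∏_r ee(2p,i_r) expCoeffZ (n_r - i_r) * expCoeffZ (m + ∑ i_r)`.  On the other
side `PP (N+1) p` is, after renaming, `∏_r (X_new - X_r)^(2p)` times `PP N p` in the old variables,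
`(X_new - X_r)^(2p) = ∑_i (-1)^i choose (2p) i X_new^(2p-i) X_r^i`.  (It is convenient to let the new
variable be `Fin.last N` or `0`; `PP` is symmetric because `2p` is even, if needed.)
Exponents: the new factor has index `-1-κ-2pN + ∑ i_r = -1-κ - ∑ (2p - i_r)`. -/

namespace WPQ

open MvPolynomial

noncomputable section

variable {ι : Type} [Fintype ι] [DecidableEq ι]

private theorem fw6_ee_nat (n k : ℕ) : RC.ee (n : ℂ) k = (-1) ^ k * (n.choose k : ℂ) := by
  induction k with
  | zero => simp [RC.ee]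
  | succ k ih =>
    have h1 : ((n.choose (k + 1) : ℕ) : ℂ) * ((k : ℂ) + 1) = (n.choose k : ℂ) * ((n : ℂ) - k) := by
      have h2 := Nat.choose_succ_right_eq n k
      by_cases hk : k ≤ n
      · have h3 : (((n.choose (k + 1) * (k + 1) : ℕ)) : ℂ) = ((n.choose k * (n - k) : ℕ) : ℂ) := by
          rw [h2]
        push_cast [Nat.cast_sub hk] at h3
        exact h3
      · have h3 : n.choose k = 0 := Nat.choose_eq_zero_of_lt (by omega)
        have h4 : n.choose (k + 1) = 0 := Nat.choose_eq_zero_of_lt (by omega)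
        rw [h3, h4]
        simp
    have h5 : (k : ℂ) + 1 ≠ 0 := by exact_mod_cast Nat.succ_ne_zero k
    show RC.ee (n : ℂ) k * ((k : ℂ) - n) / ((k : ℂ) + 1) = _
    rw [ih, div_eq_iff h5, pow_succ]
    linear_combination (-1) ^ k * h1

private theorem fw6_form (A : Matrix ι ι ℤ) (p : ℕ) (i j : ι) :
    form A p (bb i) (bb j) = p * A i j := by
  unfold form bb
  congr 1
  rw [Finset.sum_eq_single i]
  · rw [Finset.sum_eq_single j]
    · simp
    · intro b _ hb
      rw [Pi.single_eq_of_ne hb, mul_zero]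
    · intro h
      exact absurd (Finset.mem_univ j) h
  · intro b _ hb
    refine Finset.sum_eq_zero fun a _ => ?_
    rw [Pi.single_eq_of_ne hb, zero_mul, zero_mul]
  · intro h
    exact absurd (Finset.mem_univ i) h

private theorem fw6_Sop_E (A : Matrix ι ι ℤ) (hA : IsADE A) (p : ℕ) (j : ι) (q : ℕ) (n : ℤ) :
    Sop A p (bb j) q (expCoeffZ (bb j) n) =
      C (RC.ee ((2 * p : ℕ) : ℂ) q) * expCoeffZ (bb j) (n - q) := by
  have hf : form A p (bb j) (bb j) = ((2 * p : ℕ) : ℂ) := by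
    rw [fw6_form, hA.diag]
    push_cast
    ring
  by_cases hn : n < 0
  · rw [expCoeffZ_neg _ n hn, expCoeffZ_neg _ (n - q) (by omega), map_zero, mul_zero]
  · obtain ⟨k, rfl⟩ : ∃ k : ℕ, n = k := ⟨n.toNat, by omega⟩
    rw [expCoeffZ_nat, Sop_expCoeff A hA.symm, hf]
    by_cases hq : q ≤ k
    · rw [if_pos hq]
      have h1 : (k : ℤ) - q = ((k - q : ℕ) : ℤ) := by omega
      rw [h1, expCoeffZ_nat]
    · rw [if_neg hq, expCoeffZ_neg _ _ (by omega), mul_zero]

private theorem fw6_annih_E (A : Matrix ι ι ℤ) (hA : IsADE A) (p : ℕ) (j : ι) (n : ℤ) :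
    annih A p (bb j) (expCoeffZ (bb j) n) =
      ∑ i ∈ Finset.range (2 * p + 1), Polynomial.C (C (RC.ee ((2 * p : ℕ) : ℂ) i) *
        expCoeffZ (bb j) (n - i)) * Polynomial.X ^ i := by
  ext1 q
  have h1 : (annih A p (bb j) (expCoeffZ (bb j) n)).coeff q =
      Sop A p (bb j) q (expCoeffZ (bb j) n) := rfl
  rw [h1, fw6_Sop_E A hA, Polynomial.finsetSum_coeff]
  have h2 : ∀ i ∈ Finset.range (2 * p + 1), (Polynomial.C (C (RC.ee ((2 * p : ℕ) : ℂ) i) *
      expCoeffZ (bb j) (n - i)) * Polynomial.X ^ i).coeff q =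
      if q = i then C (RC.ee ((2 * p : ℕ) : ℂ) i) * expCoeffZ (bb j) (n - i) else 0 := by
    intro i _
    rw [Polynomial.coeff_C_mul, Polynomial.coeff_X_pow]
    split_ifs
    · rw [mul_one]
    · rw [mul_zero]
  rw [Finset.sum_congr rfl h2, Finset.sum_ite_eq]
  split_ifs with h
  · rfl
  · have h3 : RC.ee ((2 * p : ℕ) : ℂ) q = 0 := by
      rw [fw6_ee_nat, Nat.choose_eq_zero_of_lt (by rw [Finset.mem_range] at h; omega)]
      simp
    rw [h3, C_0, zero_mul]

private theorem fw6_vop_annih (A : Matrix ι ι ℤ) (p : ℕ) (ν : ι → ℂ) (m : ℤ) (f : Fock ι)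
    {τ : Type} (s : Finset τ) (a : τ → Fock ι) (b : τ → ℕ)
    (h : annih A p ν f = ∑ i ∈ s, Polynomial.C (a i) * Polynomial.X ^ (b i)) :
    vop A p ν m f = ∑ i ∈ s, expCoeffZ ν (m + b i) * a i := by
  show (Polynomial.lsum fun q : ℕ => LinearMap.mulLeft ℂ (expCoeffZ ν (m + q)))
    (annih A p ν f) = _
  rw [h, map_sum]
  refine Finset.sum_congr rfl fun i _ => ?_
  rw [Polynomial.C_mul_X_pow_eq_monomial, Polynomial.lsum_apply, Polynomial.sum_monomial_index]
  · rfl
  · rw [map_zero]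

private theorem fw6_vop_prod (A : Matrix ι ι ℤ) (hA : IsADE A) (p : ℕ) (j : ι) (m : ℤ) (N : ℕ)
    (n : Fin N → ℤ) :
    vop A p (bb j) m (∏ r, expCoeffZ (bb j) (n r)) =
      ∑ i ∈ Fintype.piFinset (fun _ : Fin N => Finset.range (2 * p + 1)),
        expCoeffZ (bb j) (m + ((∑ r, i r : ℕ) : ℤ)) *
          ∏ r, (C (RC.ee ((2 * p : ℕ) : ℂ) (i r)) * expCoeffZ (bb j) (n r - i r)) := by
  refine fw6_vop_annih A p (bb j) m _ _ _ _ ?_
  rw [map_prod]
  rw [Finset.prod_congr rfl fun r _ => fw6_annih_E A hA p j (n r), Finset.prod_univ_sum]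
  refine Finset.sum_congr rfl fun i _ => ?_
  rw [Finset.prod_mul_distrib, Finset.prod_pow_eq_pow_sum, map_prod]

/-- the linear functional with given values on the monomials -/
private def fw6Phi {N : ℕ} (w : (Fin N →₀ ℕ) → Fock ι) :
    MvPolynomial (Fin N) ℂ →ₗ[ℂ] Fock ι :=
  (basisMonomials (Fin N) ℂ).constr ℂ w

private theorem fw6_Phi_monomial {N : ℕ} (w : (Fin N →₀ ℕ) → Fock ι) (u : Fin N →₀ ℕ) (a : ℂ) :
    fw6Phi w (monomial u a) = a • w u := by
  have h1 : (monomial u a : MvPolynomial (Fin N) ℂ) = a • basisMonomials (Fin N) ℂ u := by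
    rw [coe_basisMonomials, smul_monomial, smul_eq_mul, mul_one]
  rw [h1, map_smul, fw6Phi, Module.Basis.constr_basis]

private theorem fw6_Phi_eq {N : ℕ} (w : (Fin N →₀ ℕ) → Fock ι) (P : MvPolynomial (Fin N) ℂ) :
    ∑ u ∈ P.support, C (coeff u P) * w u = fw6Phi w P := by
  conv_rhs => rw [← support_sum_monomial_coeff P]
  rw [map_sum]
  refine Finset.sum_congr rfl fun u _ => ?_
  rw [fw6_Phi_monomial, smul_eq_C_mul]

/-- the recursion for `PP` -/
private theorem fw6_PP_succ (N p : ℕ) : RC.PP (N + 1) p =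
    (∏ s : Fin N, (X 0 - X s.succ) ^ (2 * p)) * rename Fin.succ (RC.PP N p) := by
  unfold RC.PP
  rw [Fin.prod_univ_succ]
  congr 1
  · have h1 : (Finset.univ.filter (fun s : Fin (N + 1) => 0 < s)) =
        Finset.univ.map (Fin.succEmb N) := by
      ext s
      rw [Finset.mem_filter, Finset.mem_map]
      constructor
      · rintro ⟨-, h⟩
        have hs : s ≠ 0 := Fin.pos_iff_ne_zero.1 h
        exact ⟨s.pred hs, Finset.mem_univ _, Fin.succ_pred s hs⟩
      · rintro ⟨t, -, rfl⟩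
        exact ⟨Finset.mem_univ _, Fin.succ_pos t⟩
    rw [h1, Finset.prod_map]
    rfl
  · rw [map_prod]
    refine Finset.prod_congr rfl fun r _ => ?_
    have h1 : (Finset.univ.filter (fun s : Fin (N + 1) => r.succ < s)) =
        (Finset.univ.filter (fun s : Fin N => r < s)).map (Fin.succEmb N) := by
      ext s
      rw [Finset.mem_filter, Finset.mem_map]
      constructor
      · rintro ⟨-, h⟩
        have hs : s ≠ 0 := by
          rintro rfl
          exact absurd h (Fin.not_lt_zero _)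
        refine ⟨s.pred hs, ?_, Fin.succ_pred s hs⟩
        rw [Finset.mem_filter]
        refine ⟨Finset.mem_univ _, ?_⟩
        rw [← Fin.succ_lt_succ_iff, Fin.succ_pred]
        exact h
      · rintro ⟨t, ht, rfl⟩
        rw [Finset.mem_filter] at ht
        exact ⟨Finset.mem_univ _, Fin.succ_lt_succ_iff.2 ht.2⟩
    rw [h1, Finset.prod_map, map_prod]
    refine Finset.prod_congr rfl fun s _ => ?_
    rw [map_pow, map_sub, rename_X, rename_X]
    rfl

private theorem fw6_PP_hom (N p : ℕ) : (RC.PP N p).IsHomogeneous (p * (N * (N - 1))) := by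
  induction N with
  | zero =>
    have h1 : RC.PP 0 p = 1 := by
      unfold RC.PP
      rw [Finset.univ_eq_empty, Finset.prod_empty]
    rw [h1]
    have h2 : p * (0 * (0 - 1)) = 0 := by simp
    rw [h2]
    exact isHomogeneous_one _ _
  | succ N ih =>
    rw [fw6_PP_succ]
    have h1 : (∏ s : Fin N, ((X 0 - X s.succ) ^ (2 * p) : MvPolynomial (Fin (N + 1)) ℂ)).IsHomogeneous
        (∑ s : Fin N, 1 * (2 * p)) := by
      refine IsHomogeneous.prod _ _ _ fun s _ => ?_
      exact IsHomogeneous.pow ((isHomogeneous_X _ _).sub (isHomogeneous_X _ _)) _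
    have h2 := h1.mul (IsHomogeneous.rename_isHomogeneous (f := Fin.succ) ih)
    have h3 : ∑ s : Fin N, 1 * (2 * p) + p * (N * (N - 1)) = p * ((N + 1) * (N + 1 - 1)) := by
      rw [Finset.sum_const, Finset.card_univ, Fintype.card_fin, smul_eq_mul]
      rcases N with _ | N
      · simp
      · simp only [Nat.add_sub_cancel]
        ring
    rwa [h3] at h2

private theorem fw6_PP_sum (N p : ℕ) (u : Fin N →₀ ℕ) (hu : u ∈ (RC.PP N p).support) :
    ∑ r, u r = p * (N * (N - 1)) := by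
  have h1 := (fw6_PP_hom N p) (mem_support_iff.1 hu)
  rw [← h1, Finsupp.weight_apply, Finsupp.sum_fintype]
  · refine Finset.sum_congr rfl fun r _ => ?_
    simp
  · intro i
    simp

/-- the right hand side -/
private theorem fw6_Phi_succ (j : ι) (c : ℤ) (p N : ℕ) (u : Fin N →₀ ℕ) (a : ℂ) :
    fw6Phi (fun v : Fin (N + 1) →₀ ℕ => ∏ r, expCoeffZ (bb j) (c - v r))
      ((∏ s : Fin N, (X 0 - X s.succ) ^ (2 * p)) * rename Fin.succ (monomial u a)) =
      a • ∑ i ∈ Fintype.piFinset (fun _ : Fin N => Finset.range (2 * p + 1)),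
        expCoeffZ (bb j) (c - 2 * p * N + ((∑ r, i r : ℕ) : ℤ)) *
          ∏ r, (C (RC.ee ((2 * p : ℕ) : ℂ) (i r)) * expCoeffZ (bb j) (c - u r - i r)) := by
  have h1 : ∀ s : Fin N, ((X 0 - X s.succ) ^ (2 * p) : MvPolynomial (Fin (N + 1)) ℂ) =
      ∑ i ∈ Finset.range (2 * p + 1), monomial (Finsupp.single 0 (2 * p - i) +
        Finsupp.single s.succ i) (RC.ee ((2 * p : ℕ) : ℂ) i) := by
    intro s
    have h2 : (X 0 - X s.succ : MvPolynomial (Fin (N + 1)) ℂ) = -X s.succ + X 0 := by ring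
    rw [h2, add_pow]
    refine Finset.sum_congr rfl fun i _ => ?_
    have h3 : ((2 * p).choose i : MvPolynomial (Fin (N + 1)) ℂ) = C ((2 * p).choose i : ℂ) := by
      simp
    have h4 : ((-1 : MvPolynomial (Fin (N + 1)) ℂ)) ^ i = C ((-1 : ℂ) ^ i) := by
      rw [map_pow, map_neg, C_1]
    rw [neg_pow, h3, h4, X_pow_eq_monomial, X_pow_eq_monomial, fw6_ee_nat, C_mul_monomial,
      monomial_mul, mul_comm _ (C _), C_mul_monomial,
      add_comm (Finsupp.single s.succ i) (Finsupp.single 0 (2 * p - i))]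
    congr 1
    ring
  have h2 : (∏ s : Fin N, (X 0 - X s.succ) ^ (2 * p) : MvPolynomial (Fin (N + 1)) ℂ) *
      rename Fin.succ (monomial u a) =
      ∑ i ∈ Fintype.piFinset (fun _ : Fin N => Finset.range (2 * p + 1)),
        monomial ((∑ s : Fin N, (Finsupp.single (0 : Fin (N + 1)) (2 * p - i s) +
          Finsupp.single s.succ (i s))) + Finsupp.mapDomain Fin.succ u)
          ((∏ s : Fin N, RC.ee ((2 * p : ℕ) : ℂ) (i s)) * a) := by
    rw [Finset.prod_congr rfl fun s _ => h1 s, Finset.prod_univ_sum, rename_monomial,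
      Finset.sum_mul]
    refine Finset.sum_congr rfl fun i _ => ?_
    have h3 : ∀ s : Fin N, monomial (Finsupp.single (0 : Fin (N + 1)) (2 * p - i s) +
        Finsupp.single s.succ (i s)) (RC.ee ((2 * p : ℕ) : ℂ) (i s)) =
        C (RC.ee ((2 * p : ℕ) : ℂ) (i s)) * monomial (Finsupp.single (0 : Fin (N + 1))
          (2 * p - i s) + Finsupp.single s.succ (i s)) 1 := by
      intro s
      rw [C_mul_monomial, mul_one]
    rw [Finset.prod_congr rfl fun s _ => h3 s, Finset.prod_mul_distrib, ← map_prod,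
      ← monomial_sum_index, monomial_mul]
  rw [h2, map_sum, Finset.smul_sum]
  refine Finset.sum_congr rfl fun i hi => ?_
  rw [fw6_Phi_monomial, Fin.prod_univ_succ]
  have hi' : ∀ s, i s ≤ 2 * p := by
    intro s
    have := Fintype.mem_piFinset.1 hi s
    rw [Finset.mem_range] at this
    omega
  have e0 : ((∑ s : Fin N, (Finsupp.single (0 : Fin (N + 1)) (2 * p - i s) +
      Finsupp.single s.succ (i s))) + Finsupp.mapDomain Fin.succ u) 0 =
      ∑ s, (2 * p - i s) := by
    rw [Finsupp.add_apply, Finsupp.finsetSum_apply, Finsupp.mapDomain_of_notMem_range, add_zero]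
    · refine Finset.sum_congr rfl fun s _ => ?_
      rw [Finsupp.add_apply, Finsupp.single_eq_same, Finsupp.single_eq_of_ne, add_zero]
      exact (Fin.succ_ne_zero s).symm
    · rintro ⟨t, ht⟩
      exact Fin.succ_ne_zero t ht
  have e1 : ∀ t : Fin N, ((∑ s : Fin N, (Finsupp.single (0 : Fin (N + 1)) (2 * p - i s) +
      Finsupp.single s.succ (i s))) + Finsupp.mapDomain Fin.succ u) t.succ = i t + u t := by
    intro t
    rw [Finsupp.add_apply, Finsupp.finsetSum_apply,
      Finsupp.mapDomain_apply (Fin.succ_injective N), Finset.sum_eq_single t]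
    · rw [Finsupp.add_apply, Finsupp.single_eq_same, Finsupp.single_eq_of_ne, zero_add]
      exact Fin.succ_ne_zero t
    · intro s _ hs
      rw [Finsupp.add_apply, Finsupp.single_eq_of_ne, Finsupp.single_eq_of_ne, add_zero]
      · intro h
        exact hs (Fin.succ_injective N h).symm
      · exact Fin.succ_ne_zero t
    · intro h
      exact absurd (Finset.mem_univ t) h
  have e2 : ((∑ s, (2 * p - i s) : ℕ) : ℤ) = 2 * p * N - ((∑ r, i r : ℕ) : ℤ) := by
    have h3 : ∀ s, ((2 * p - i s : ℕ) : ℤ) = 2 * p - (i s : ℤ) := by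
      intro s
      have := hi' s
      omega
    push_cast
    rw [Finset.sum_congr rfl fun s _ => h3 s, Finset.sum_sub_distrib, Finset.sum_const,
      Finset.card_univ, Fintype.card_fin, nsmul_eq_mul]
    ring
  rw [e0, e2, mul_comm _ a, mul_smul]
  congr 1
  rw [smul_eq_C_mul, map_prod]
  have e3 : ∀ t : Fin N, expCoeffZ (bb j) (c - (((∑ s : Fin N,
      (Finsupp.single (0 : Fin (N + 1)) (2 * p - i s) + Finsupp.single s.succ (i s))) +
      Finsupp.mapDomain Fin.succ u) t.succ : ℕ)) = expCoeffZ (bb j) (c - u t - i t) := by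
    intro t
    rw [e1]
    congr 1
    push_cast
    ring
  rw [Finset.prod_congr rfl fun t _ => e3 t, Finset.prod_mul_distrib]
  have e4 : c - (2 * p * N - ((∑ r, i r : ℕ) : ℤ)) = c - 2 * p * N + ((∑ r, i r : ℕ) : ℤ) := by
    ring
  rw [e4]
  ring

private theorem fw6_main (A : Matrix ι ι ℤ) (hA : IsADE A) (p : ℕ) (j : ι) (c : ℤ) (N : ℕ)
    (P : MvPolynomial (Fin N) ℂ) :
    vop A p (bb j) (c - 2 * p * N)
      (fw6Phi (fun v : Fin N →₀ ℕ => ∏ r, expCoeffZ (bb j) (c - v r)) P) =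
    fw6Phi (fun v : Fin (N + 1) →₀ ℕ => ∏ r, expCoeffZ (bb j) (c - v r))
      ((∏ s : Fin N, (X 0 - X s.succ) ^ (2 * p)) * rename Fin.succ P) := by
  rw [← support_sum_monomial_coeff P, map_sum, map_sum, map_sum, Finset.mul_sum, map_sum]
  refine Finset.sum_congr rfl fun u _ => ?_
  rw [fw6_Phi_monomial, map_smul, fw6_Phi_succ, fw6_vop_prod A hA]

theorem form_bb (A : Matrix ι ι ℤ) (p : ℕ) (i j : ι) : form A p (bb i) (bb j) = p * A i j :=
  fw6_form A p i j

theorem EN_one (A : Matrix ι ι ℤ) (hA : IsADE A) (p : ℕ) (j : ι) (κ : ℤ) (N : ℕ) :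
    EN A p j κ N 1 = ∑ u ∈ (RC.PP N p).support,
      C (coeff u (RC.PP N p)) * ∏ r : Fin N, expCoeffZ (bb j) (-1 - κ - u r) := by
  rw [fw6_Phi_eq (fun u : Fin N →₀ ℕ => ∏ r : Fin N, expCoeffZ (bb j) (-1 - κ - u r))]
  induction N with
  | zero =>
    have h1 : RC.PP 0 p = monomial 0 1 := by
      unfold RC.PP
      rw [Finset.univ_eq_empty, Finset.prod_empty]
      rfl
    rw [h1, fw6_Phi_monomial, one_smul, Finset.univ_eq_empty, Finset.prod_empty]
    rfl
  | succ N ih =>
    show vop A p (bb j) (-1 - κ - 2 * p * N) (EN A p j κ N 1) = _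
    rw [ih, fw6_main A hA, ← fw6_PP_succ]

/-- degree zero case -/
theorem EN_one_top (A : Matrix ι ι ℤ) (hA : IsADE A) (p : ℕ) (hp : 1 ≤ p) (j : ι) (N : ℕ) :
    EN A p j (-(p * N : ℤ) + p - 1) N 1 = C (RC.Cst N p) := by
  rw [EN_one A hA]
  have hN : ∀ r : Fin N, 1 ≤ N := fun r => by have := r.2; omega
  have hzero : ∀ u ∈ (RC.PP N p).support, u ≠ Finsupp.equivFunOnFinite.symm
      (fun _ : Fin N => p * (N - 1)) →
      C (coeff u (RC.PP N p)) * ∏ r : Fin N, expCoeffZ (bb j) (-1 - (-(p * N : ℤ) + p - 1) - u r) =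
        (0 : Fock ι) := by
    intro u hu hne
    have h1 : ∃ r, p * (N - 1) < u r := by
      by_contra hcon
      push Not at hcon
      apply hne
      have h2 := fw6_PP_sum N p u hu
      have h3 : ∑ r : Fin N, p * (N - 1) = p * (N * (N - 1)) := by
        rw [Finset.sum_const, Finset.card_univ, Fintype.card_fin, smul_eq_mul]
        ring
      have h4 : ∀ r ∈ (Finset.univ : Finset (Fin N)), u r = p * (N - 1) := by
        rw [← Finset.sum_eq_sum_iff_of_le fun r _ => hcon r, h2, h3]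
      ext r
      rw [h4 r (Finset.mem_univ r)]
      rfl
    obtain ⟨r, hr⟩ := h1
    rw [Finset.prod_eq_zero (Finset.mem_univ r), mul_zero]
    refine expCoeffZ_neg _ _ ?_
    have h5 : ((p * (N - 1) : ℕ) : ℤ) < u r := by exact_mod_cast hr
    have h6 := hN r
    push_cast [Nat.cast_sub h6] at h5
    have h7 : (p : ℤ) * ((N : ℤ) - 1) = p * N - p := by ring
    rw [h7] at h5
    linarith
  by_cases hmem : Finsupp.equivFunOnFinite.symm (fun _ : Fin N => p * (N - 1)) ∈
      (RC.PP N p).support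
  · rw [Finset.sum_eq_single_of_mem _ hmem fun u hu hne => hzero u hu hne, Finset.prod_eq_one,
      mul_one]
    · rfl
    · intro r _
      have h1 : (Finsupp.equivFunOnFinite.symm (fun _ : Fin N => p * (N - 1))) r =
          p * (N - 1) := rfl
      rw [h1]
      have h2 := hN r
      have h3 : -1 - (-(p * N : ℤ) + p - 1) - ((p * (N - 1) : ℕ) : ℤ) = ((0 : ℕ) : ℤ) := by
        push_cast [Nat.cast_sub h2]
        ring
      rw [h3, expCoeffZ_nat, expCoeff_zero]
  · rw [Finset.sum_eq_zero]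
    · unfold RC.Cst
      rw [notMem_support_iff.1 hmem, C_0]
    · intro u hu
      exact hzero u hu (fun h => hmem (h ▸ hu))

/-- negative degree: zero -/
theorem EN_one_zero (A : Matrix ι ι ℤ) (hA : IsADE A) (p : ℕ) (j : ι) (κ : ℤ) (N : ℕ)
    (hN : 1 ≤ N) (h : 0 ≤ κ + p * ((N : ℤ) - 1)) : EN A p j κ N 1 = 0 := by
  rw [EN_one A hA]
  refine Finset.sum_eq_zero fun u hu => ?_
  have h1 : ∃ r : Fin N, -1 - κ - (u r : ℤ) < 0 := by
    by_contra hcon
    push Not at hcon
    have h2 : (0 : ℤ) ≤ ∑ r : Fin N, (-1 - κ - (u r : ℤ)) := Finset.sum_nonneg fun r _ => hcon r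
    have h3 : ((∑ r, u r : ℕ) : ℤ) = p * (N * ((N : ℤ) - 1)) := by
      rw [fw6_PP_sum N p u hu]
      push_cast [Nat.cast_sub hN]
      ring
    push_cast at h3
    rw [Finset.sum_sub_distrib, Finset.sum_const, Finset.card_univ, Fintype.card_fin,
      nsmul_eq_mul, h3] at h2
    have h4 : (N : ℤ) * (-1 - κ) - p * (N * ((N : ℤ) - 1)) =
        -(N : ℤ) * (1 + (κ + p * ((N : ℤ) - 1))) := by ring
    rw [h4] at h2
    have h5 : (0 : ℤ) < N * (1 + (κ + p * ((N : ℤ) - 1))) :=
      mul_pos (by exact_mod_cast hN) (by linarith)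
    linarith
  obtain ⟨r, hr⟩ := h1
  rw [Finset.prod_eq_zero (Finset.mem_univ r) (expCoeffZ_neg _ _ hr), mul_zero]

theorem ev_EN_one (A : Matrix ι ι ℤ) (hA : IsADE A) (p : ℕ) (j : ι) (κ : ℤ) (N : ℕ)
    (c : ι → ℂ) : ev c (EN A p j κ N 1) = RC.MN N p (-1 - κ) (c j) := by
  have hE : ∀ n : ℤ, ev c (expCoeffZ (bb j) n) = RC.eeZ (c j) n := by
    intro n
    by_cases hn : n < 0
    · rw [expCoeffZ_neg _ n hn, map_zero, RC.eeZ, if_pos hn]
    · obtain ⟨k, rfl⟩ : ∃ k : ℕ, n = k := ⟨n.toNat, by omega⟩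
      rw [expCoeffZ_nat, ev_expCoeff, RC.eeZ, if_neg hn, Int.toNat_natCast]
      congr 1
      rw [Finset.sum_eq_single j]
      · simp [bb]
      · intro b _ hb
        unfold bb
        rw [Pi.single_eq_of_ne hb, zero_mul]
      · intro h
        exact absurd (Finset.mem_univ j) h
  rw [EN_one A hA, map_sum]
  unfold RC.MN
  refine Finset.sum_congr rfl fun u _ => ?_
  rw [map_mul, map_prod]
  have h1 : ev c (C (coeff u (RC.PP N p)) : Fock ι) = coeff u (RC.PP N p) := by
    unfold ev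
    rw [aeval_C]
    rfl
  rw [h1]
  congr 1
  exact Finset.prod_congr rfl fun r _ => hE _

theorem EN_homog (A : Matrix ι ι ℤ) (hA : IsADE A) (p : ℕ) (j : ι) (κ : ℤ) (N : ℕ) (f : Fock ι)
    (d e : ℕ) (hf : FH f d) (he : (e : ℤ) = d - N * (1 + κ + p * ((N : ℤ) - 1))) :
    FH (EN A p j κ N f) e := by
  have key : ∀ N : ℕ, (∀ e : ℕ, (e : ℤ) = d - N * (1 + κ + p * ((N : ℤ) - 1)) →
      FH (EN A p j κ N f) e) ∧
      (((d : ℤ) - N * (1 + κ + p * ((N : ℤ) - 1)) < 0) → EN A p j κ N f = 0) := by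
    intro N
    induction N with
    | zero =>
      constructor
      · intro e he
        have h1 : e = d := by
          have h2 : (e : ℤ) = d := by rw [he]; push_cast; ring
          exact_mod_cast h2
        rw [h1]
        exact hf
      · intro h
        exfalso
        push_cast at h
        have h1 : (0 : ℤ) ≤ d := Int.natCast_nonneg d
        linarith
    | succ N ih =>
      obtain ⟨ih1, ih2⟩ := ih
      have hstep : (d : ℤ) - ((N + 1 : ℕ) : ℤ) * (1 + κ + p * (((N + 1 : ℕ) : ℤ) - 1)) =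
          (d - N * (1 + κ + p * ((N : ℤ) - 1))) + (-1 - κ - 2 * p * N) := by
        push_cast
        ring
      have hE : EN A p j κ (N + 1) f = vop A p (bb j) (-1 - κ - 2 * p * N) (EN A p j κ N f) := rfl
      rcases lt_or_ge ((d : ℤ) - N * (1 + κ + p * ((N : ℤ) - 1))) 0 with hneg | hpos
      · have h0 : EN A p j κ (N + 1) f = 0 := by rw [hE, ih2 hneg, map_zero]
        constructor
        · intro e _
          rw [h0]
          exact isWeightedHomogeneous_zero _ _ _
        · intro _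
          exact h0
      · obtain ⟨e₀, he₀⟩ : ∃ e₀ : ℕ, (e₀ : ℤ) = (d : ℤ) - N * (1 + κ + p * ((N : ℤ) - 1)) :=
          ⟨((d : ℤ) - N * (1 + κ + p * ((N : ℤ) - 1))).toNat, Int.toNat_of_nonneg hpos⟩
        have h1 := ih1 e₀ he₀
        constructor
        · intro e he
          rw [hE]
          refine vop_homog A p (bb j) _ _ e₀ e h1 ?_
          rw [he, hstep, he₀]
        · intro h
          rw [hE]
          refine vop_eq_zero A p (bb j) _ _ e₀ h1 ?_
          rw [he₀, ← hstep]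
          exact h
  exact (key N).1 e he

end

end WPQ
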