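import Pool.Agent.WPQ.FL4
import Pool.Agent.WPQ.FW6

/-! [WPQ-FL6] Powers of `E_j`, nilpotency, Serre relations.

Plan.  `Ej_pow_single`: induction on `n`; the exponent of the `(n+1)`-st step on the component
`η + n • rt j` is `-1 - σ.dot (rt j) - ⟨rt j, η + n rt j⟩ = -1 - κ - 2 p n`,
`κ = σ.κ j + p * pr A j η`.
`nilp_exp`: `iter_br_gX` with `ξ = zero`, `γ = -λ`, `n = m+1`, `c = 0`: `E_j^(m+1) e^{-λ} = 0` by
`EN_one_zero` (`κ = -p m`, `N = m+1`: `κ + p (N-1) = 0`); `gX_zero`.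
`nilp_gX`: `κ = -p n + p - 1`, `N = n+1`: `κ + p n = p - 1 ≥ 0`.  `iter_gX`: `EN_one_top`.
`serre_Ej`: `ξ = zero`, `γ = rt j`, `N = 2`, `κ = p A_ij = -p`: `(br E_i)^2 expS (rt j) = 0`, take mode `0`
and expand.  `comm_Ej`: `expS_comm`. -/

namespace WPQ

open MvPolynomial AF

noncomputable section

variable {ι : Type} [Fintype ι] [DecidableEq ι] {A : Matrix ι ι ℤ} {p : ℕ}

theorem fl6_unit_ne (u : ℤˣ) : ((u : ℤ) : ℂ) ≠ 0 := by
  rcases Int.units_eq_one_or u with h | h <;> rw [h] <;> norm_num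

theorem fl6_toC_rt (j : ι) : toC (rt j) = bb j := by
  funext i
  unfold toC rt bb
  by_cases h : i = j
  · subst h
    rw [Pi.single_eq_same, Pi.single_eq_same]
    norm_num
  · rw [Pi.single_eq_of_ne h, Pi.single_eq_of_ne h]
    norm_num

theorem fl6_dot_rt (σ : Shift A p) (j : ι) : σ.dot (rt j) = σ.κ j := by
  unfold Shift.dot rt
  rw [Finset.sum_eq_single j]
  · rw [Pi.single_eq_same, one_mul]
  · intro b _ hb
    rw [Pi.single_eq_of_ne hb, zero_mul]
  · intro h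
    exact absurd (Finset.mem_univ j) h

theorem fl6_pr_rt (i j : ι) : pr A i (rt j) = A i j := by
  unfold pr rt
  rw [Finset.sum_eq_single j]
  · rw [Pi.single_eq_same, mul_one]
  · intro b _ hb
    rw [Pi.single_eq_of_ne hb, mul_zero]
  · intro h
    exact absurd (Finset.mem_univ j) h

theorem fl6_pr_add (j : ι) (γ η : ι → ℤ) : pr A j (γ + η) = pr A j γ + pr A j η := by
  unfold pr
  rw [← Finset.sum_add_distrib]
  exact Finset.sum_congr rfl fun i _ => by rw [Pi.add_apply, mul_add]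

theorem fl6_pr_nsmul (j : ι) (n : ℕ) (γ : ι → ℤ) : pr A j (n • γ) = n * pr A j γ := by
  unfold pr
  rw [Finset.mul_sum]
  exact Finset.sum_congr rfl fun i _ => by rw [Pi.smul_apply, nsmul_eq_mul]; ring

theorem fl6_pr_neg (j : ι) (γ : ι → ℤ) : pr A j (-γ) = -pr A j γ := by
  unfold pr
  rw [← Finset.sum_neg_distrib]
  exact Finset.sum_congr rfl fun i _ => by rw [Pi.neg_apply, mul_neg]

theorem fl6_pr_zero (j : ι) : pr A j 0 = 0 := by
  unfold pr
  exact Finset.sum_eq_zero fun i _ => by rw [Pi.zero_apply, mul_zero]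

theorem es_ne_zero (ε : Cocycle A p) (j : ι) (η : ι → ℤ) (n : ℕ) : es ε j η n ≠ 0 := by
  unfold es
  exact Finset.prod_ne_zero_iff.2 fun i _ => fl6_unit_ne _

theorem formZ_rt (hA : IsADE A) (j : ι) (η : ι → ℤ) : formZ A p (rt j) η = p * pr A j η := by
  unfold formZ pr rt
  refine congrArg (fun x : ℤ => (p : ℤ) * x) ?_
  rw [Finset.sum_eq_single j]
  · exact Finset.sum_congr rfl fun i _ => by rw [Pi.single_eq_same, one_mul]
  · intro b _ hb
    exact Finset.sum_eq_zero fun i _ => by rw [Pi.single_eq_of_ne hb, zero_mul, zero_mul]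
  · intro h
    exact absurd (Finset.mem_univ j) h

theorem Ej_single (hA : IsADE A) (ε : Cocycle A p) (σ : Shift A p) (j : ι) (η : ι → ℤ)
    (f : Fock ι) : Ej ε σ j (Finsupp.single η f) = Finsupp.single (η + rt j)
      (((ε.ε (rt j) η : ℤ) : ℂ) • vop A p (bb j) (-1 - (σ.κ j + p * pr A j η)) f) := by
  unfold Ej
  rw [expS_single, add_comm (rt j) η, fl6_toC_rt, fl6_dot_rt, formZ_rt hA]
  have h : (-0 - 1 - σ.κ j - (p : ℤ) * pr A j η : ℤ) = -1 - (σ.κ j + p * pr A j η) := by ring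
  rw [h]

theorem Ej_pow_single (hA : IsADE A) (ε : Cocycle A p) (σ : Shift A p) (j : ι) (η : ι → ℤ)
    (n : ℕ) (f : Fock ι) : (Ej ε σ j ^ n) (Finsupp.single η f) = Finsupp.single (η + n • rt j)
      (es ε j η n • EN A p j (σ.κ j + p * pr A j η) n f) := by
  induction n with
  | zero =>
    rw [pow_zero, zero_smul, add_zero]
    unfold es EN
    rw [Finset.prod_range_zero, one_smul]
    rfl
  | succ n ih =>
    rw [pow_succ', Module.End.mul_apply, ih, Ej_single hA, fl6_pr_add, fl6_pr_nsmul, fl6_pr_rt,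
      hA.diag, map_smul, smul_smul, succ_nsmul, ← add_assoc]
    have h1 : es ε j η (n + 1) = ((ε.ε (rt j) (η + n • rt j) : ℤ) : ℂ) * es ε j η n := by
      unfold es
      rw [Finset.prod_range_succ, mul_comm]
    have h2 : (-1 - (σ.κ j + (p : ℤ) * (pr A j η + n * 2)) : ℤ) =
        -1 - (σ.κ j + p * pr A j η) - 2 * p * n := by ring
    rw [h1, h2]
    rfl

theorem comm_Ej (hA : IsADE A) (ε : Cocycle A p) (σ : Shift A p) (i j : ι) (h : A i j = 0) :
    Ej ε σ i ∘ₗ Ej ε σ j = Ej ε σ j ∘ₗ Ej ε σ i := by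
  unfold Ej
  refine expS_comm hA.symm ε σ (rt i) (rt j) ?_ 0 0
  rw [formZ_rt hA, fl6_pr_rt, h, mul_zero]

theorem fl6_zero_kappa (j : ι) : (Shift.zero A p).κ j = 0 := rfl

theorem serre_Ej (hA : IsADE A) (hp : 1 ≤ p) (ε : Cocycle A p) (i j : ι) (h : A i j = -1) :
    Ej ε (Shift.zero A p) i ∘ₗ Ej ε (Shift.zero A p) i ∘ₗ Ej ε (Shift.zero A p) j -
      (2 : ℂ) • (Ej ε (Shift.zero A p) i ∘ₗ Ej ε (Shift.zero A p) j ∘ₗ Ej ε (Shift.zero A p) i) +
      Ej ε (Shift.zero A p) j ∘ₗ Ej ε (Shift.zero A p) i ∘ₗ Ej ε (Shift.zero A p) i = 0 := by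
  have hc : (Ej ε (Shift.zero A p) i ^ 2) (Finsupp.single (rt j) 1) =
      (0 : ℂ) • Finsupp.single (rt j + 2 • rt i) 1 := by
    rw [Ej_pow_single hA, fl6_zero_kappa, fl6_pr_rt, h, zero_smul,
      EN_one_zero A hA p i _ 2 (by norm_num) (by push_cast; ring_nf; exact le_refl _),
      smul_zero, Finsupp.single_zero]
  have h1 := iter_br_gX hA hp ε (Shift.zero A p) (rt j) i 2 0 hc
  have h2 := congrFun h1 0
  have h3 : gX ε (Shift.zero A p) (rt j) 0 = Ej ε (Shift.zero A p) j := gX_zero ε (rt j) 0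
  rw [Function.iterate_succ_apply', Function.iterate_one] at h2
  simp only [br, h3, zero_smul] at h2
  rw [← h2]
  simp only [LinearMap.comp_sub, LinearMap.sub_comp, LinearMap.comp_assoc, two_smul]
  abel

theorem nilp_exp (hA : IsADE A) (hp : 1 ≤ p) (ε : Cocycle A p) (j : ι) (lam : ι → ℤ) (m : ℕ)
    (hm : pr A j lam = m) :
    (br (Ej ε (Shift.zero A p) j) (Ej ε (Shift.zero A p) j))^[m + 1]
      (expS ε (Shift.zero A p) (-lam)) = 0 := by
  have hc : (Ej ε (Shift.zero A p) j ^ (m + 1)) (Finsupp.single (-lam) 1) =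
      (0 : ℂ) • Finsupp.single (-lam + (m + 1) • rt j) 1 := by
    rw [Ej_pow_single hA, fl6_zero_kappa, fl6_pr_neg, hm, zero_smul,
      EN_one_zero A hA p j _ (m + 1) (by omega) (by push_cast; ring_nf; exact le_refl _),
      smul_zero, Finsupp.single_zero]
  have h1 := iter_br_gX hA hp ε (Shift.zero A p) (-lam) j (m + 1) 0 hc
  have h3 : gX ε (Shift.zero A p) (-lam) = expS ε (Shift.zero A p) (-lam) :=
    funext fun n => gX_zero ε (-lam) n
  rw [h3] at h1
  rw [h1]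
  funext n
  rw [zero_smul]
  rfl

theorem nilp_gX (hA : IsADE A) (hp : 1 ≤ p) (ε : Cocycle A p) (ξ : Shift A p) (j : ι) (n : ℕ)
    (hξ : ξ.κ j = -(p * n : ℤ) + p - 1) :
    (br (Ej ε (Shift.zero A p) j) (Ej ε ξ j))^[n + 1] (gX ε ξ 0) = 0 := by
  have hc : (Ej ε ξ j ^ (n + 1)) (Finsupp.single 0 1) =
      (0 : ℂ) • Finsupp.single (0 + (n + 1) • rt j) 1 := by
    rw [Ej_pow_single hA, fl6_pr_zero, hξ, zero_smul,
      EN_one_zero A hA p j _ (n + 1) (by omega) (by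
        push_cast
        ring_nf
        omega),
      smul_zero, Finsupp.single_zero]
  rw [iter_br_gX hA hp ε ξ 0 j (n + 1) 0 hc]
  funext n
  rw [zero_smul]
  rfl

theorem iter_gX (hA : IsADE A) (hp : 1 ≤ p) (ε : Cocycle A p) (ξ : Shift A p) (j : ι) (n : ℕ)
    (hξ : ξ.κ j = -(p * n : ℤ) + p - 1) :
    (br (Ej ε (Shift.zero A p) j) (Ej ε ξ j))^[n] (gX ε ξ 0) =
      fun m => (es ε j 0 n * RC.Cst n p) • gX ε ξ (n • rt j) m := by
  have hc : (Ej ε ξ j ^ n) (Finsupp.single 0 1) =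
      (es ε j 0 n * RC.Cst n p) • Finsupp.single (0 + n • rt j) 1 := by
    rw [Ej_pow_single hA, fl6_pr_zero, mul_zero, add_zero, hξ, EN_one_top A hA p hp j n,
      Finsupp.smul_single, mul_smul]
    refine congrArg (Finsupp.single (0 + n • rt j)) ?_
    rw [smul_eq_C_mul (1 : Fock ι) (RC.Cst n p), mul_one]
  rw [iter_br_gX hA hp ε ξ 0 j n _ hc, zero_add]

end

end WPQ
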