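import Pool.Agent.WPQ.FL2
import Pool.Agent.WPQ.FW5
import Pool.Agent.WPQ.FL6

/-! [WPQ-VP1] `W(p)_Q` is stable under `e^{-λ}_n` (`λ` dominant), `E_j`, `L(k)`.

Plan.  `v ∈ W` iff all `S_(j,γ) (v γ) = 0`, `S_(j,γ) = vop (-b_j/p) (pr A j γ - 1)`.
`W_expS`: component `γ` of `expS (-λ) n v` is `± vop (-λ) b (v (γ+λ))`; exchange with
`vop_comm_nonneg`, `q = form (-b_j/p) (toC (-λ)) = pr A j λ ≥ 0`; the index `a + q` is
`pr A j γ - 1 + pr A j λ = pr A j (γ+λ) - 1`.
`W_Ej`: for `i ≠ j`, `q = form (-b_j/p) b_i = -A_ji ≥ 0`, index `pr A j (γ' + rt i) - 1 + q =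
pr A j γ' - 1`; for `i = j`: `short_long` with `k' = pr A j γ'` (`pr A j (γ' + rt j) - 1 = k' + 1`, and
`Ej_single` has exponent `-1 - p k'`).
`W_LS`: `Lop_vop` with `ν = -b_j/p`: `Δ = <ν,ν>/2 - <a,ν> = 1/p + (p-1)/p = 1`, `<ν,γ> = -pr A j γ`,
scalar `m - k - pr + (k+1) = 0` for `m = pr - 1`.
`W_single_iff`: `vop ν m 1 = expCoeffZ ν m`, nonzero iff `m ≥ 0` (`expCoeff_ne_zero`).
`W_deg_one`: for `f` of degree 1, `f = osc h 0`, `vop ν (-1) (osc h 0) = -form h ν`, so
`form h (b_j) = 0` for all `j` and `h = 0` (`det_ne_zero`). -/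

namespace WPQ

open MvPolynomial AF

noncomputable section

variable {ι : Type} [Fintype ι] [DecidableEq ι] {A : Matrix ι ι ℤ} {p : ℕ}

theorem vp1_form (hp : 1 ≤ p) (j : ι) (γ : ι → ℤ) :
    form A p (Pi.single j (-(p : ℂ)⁻¹)) (toC γ) = -((pr A j γ : ℤ) : ℂ) := by
  have hp0 : (p : ℂ) ≠ 0 := by
    have : (p : ℂ) = ((p : ℕ) : ℂ) := rfl
    exact_mod_cast (by omega : p ≠ 0)
  unfold form pr toC
  rw [Finset.sum_eq_single j]
  · simp only [Pi.single_eq_same]
    push_cast
    rw [Finset.mul_sum, ← Finset.sum_neg_distrib]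
    refine Finset.sum_congr rfl fun i _ => ?_
    field_simp
  · intro i _ hi
    refine Finset.sum_eq_zero fun k _ => ?_
    rw [Pi.single_eq_of_ne hi, zero_mul, zero_mul]
  · intro h
    exact absurd (Finset.mem_univ j) h

omit [Fintype ι] in
theorem vp1_toC_rt (j : ι) : toC (rt j) = bb j := by
  funext i
  unfold toC rt bb
  by_cases h : i = j
  · subst h
    rw [Pi.single_eq_same, Pi.single_eq_same, Int.cast_one]
  · rw [Pi.single_eq_of_ne h, Pi.single_eq_of_ne h, Int.cast_zero]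

omit [DecidableEq ι] in
theorem vp1_pr_add (j : ι) (γ η : ι → ℤ) : pr A j (γ + η) = pr A j γ + pr A j η := by
  unfold pr
  rw [← Finset.sum_add_distrib]
  refine Finset.sum_congr rfl fun i _ => ?_
  rw [Pi.add_apply]; ring

omit [DecidableEq ι] in
theorem vp1_pr_neg (j : ι) (γ : ι → ℤ) : pr A j (-γ) = -pr A j γ := by
  unfold pr
  rw [← Finset.sum_neg_distrib]
  refine Finset.sum_congr rfl fun i _ => ?_
  rw [Pi.neg_apply]; ring

theorem vp1_pr_rt (i j : ι) : pr A i (rt j) = A i j := by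
  unfold pr rt
  rw [Finset.sum_eq_single j]
  · rw [Pi.single_eq_same, mul_one]
  · intro k _ hk
    rw [Pi.single_eq_of_ne hk, mul_zero]
  · intro h
    exact absurd (Finset.mem_univ j) h

omit [DecidableEq ι] in
theorem vp1_pr_zero (j : ι) : pr A j 0 = 0 := by
  unfold pr
  simp

theorem mem_W_iff (v : VL ι) : v ∈ W A p ↔ ∀ (j : ι) (γ : ι → ℤ),
    vop A p (Pi.single j (-(p : ℂ)⁻¹)) (pr A j γ - 1) (v γ) = 0 := Iff.rfl

theorem vp1_single_iff (γ : ι → ℤ) (f : Fock ι) : Finsupp.single γ f ∈ W A p ↔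
    ∀ j, vop A p (Pi.single j (-(p : ℂ)⁻¹)) (pr A j γ - 1) f = 0 := by
  rw [mem_W_iff]
  constructor
  · intro h j
    have := h j γ
    rwa [Finsupp.single_eq_same] at this
  · intro h j η
    by_cases he : η = γ
    · subst he
      rw [Finsupp.single_eq_same]
      exact h j
    · rw [Finsupp.single_eq_of_ne he, map_zero]

theorem W_comp (v : VL ι) (hv : v ∈ W A p) (γ : ι → ℤ) : Finsupp.single γ (v γ) ∈ W A p := by
  rw [vp1_single_iff]
  exact fun j => (mem_W_iff v).1 hv j γ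

theorem vp1_ind (L : VL ι →ₗ[ℂ] VL ι)
    (h : ∀ (η : ι → ℤ) (f : Fock ι), Finsupp.single η f ∈ W A p →
      L (Finsupp.single η f) ∈ W A p) (v : VL ι) (hv : v ∈ W A p) : L v ∈ W A p := by
  have e : v = ∑ γ ∈ v.support, Finsupp.single γ (v γ) := (Finsupp.sum_single v).symm
  rw [e, map_sum]
  exact Submodule.sum_mem _ fun γ _ => h γ (v γ) (W_comp v hv γ)

theorem vp1_single_smul (γ : ι → ℤ) (c : ℂ) (f : Fock ι)
    (h : ∀ j, vop A p (Pi.single j (-(p : ℂ)⁻¹)) (pr A j γ - 1) f = 0) :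
    Finsupp.single γ (c • f) ∈ W A p := by
  rw [vp1_single_iff]
  intro j
  rw [map_smul, h j, smul_zero]

theorem W_expS (hA : IsADE A) (hp : 1 ≤ p) (ε : Cocycle A p) (lam : ι → ℤ) (hl : Dom A lam)
    (n : ℤ) (v : VL ι) (hv : v ∈ W A p) : expS ε (Shift.zero A p) (-lam) n v ∈ W A p := by
  refine vp1_ind _ ?_ v hv
  intro η f hf
  rw [vp1_single_iff] at hf
  rw [expS_single]
  refine vp1_single_smul _ _ _ ?_
  intro j
  obtain ⟨q, hq⟩ := Int.eq_ofNat_of_zero_le (hl j)
  have hform : form A p (Pi.single j (-(p : ℂ)⁻¹)) (toC (-lam)) = (q : ℂ) := by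
    rw [vp1_form hp, vp1_pr_neg, hq]
    push_cast; ring
  have hc := LinearMap.congr_fun (vop_comm_nonneg A hA.symm p _ _ q hform
    (pr A j (-lam + η) - 1) (-n - 1 - (Shift.zero A p).dot (-lam) - formZ A p (-lam) η)) f
  rw [LinearMap.comp_apply, LinearMap.smul_apply, LinearMap.comp_apply] at hc
  rw [hc]
  have ha : pr A j (-lam + η) - 1 + (q : ℤ) = pr A j η - 1 := by
    rw [vp1_pr_add, vp1_pr_neg]
    omega
  rw [ha, hf j, map_zero, smul_zero]

theorem W_Ej (hA : IsADE A) (hp : 2 ≤ p) (ε : Cocycle A p) (j : ι) (v : VL ι)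
    (hv : v ∈ W A p) : Ej ε (Shift.zero A p) j v ∈ W A p := by
  refine vp1_ind _ ?_ v hv
  intro η f hf
  rw [vp1_single_iff] at hf
  rw [Ej_single hA]
  refine vp1_single_smul _ _ _ ?_
  intro i
  have hκ : (Shift.zero A p).κ j = 0 := rfl
  rw [hκ, zero_add, vp1_pr_add, vp1_pr_rt]
  by_cases hij : i = j
  · subst hij
    have hc := LinearMap.congr_fun (short_long A hA p hp i (pr A i η)) f
    rw [LinearMap.comp_apply, LinearMap.comp_apply, hf i, map_zero] at hc
    have ha : pr A i η + A i i - 1 = pr A i η + 1 := by have := hA.diag i; omega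
    rw [ha]
    exact hc
  · have hn : 0 ≤ -A i j := by
      rcases hA.off i j hij with h | h <;> rw [h] <;> norm_num
    obtain ⟨q, hq⟩ := Int.eq_ofNat_of_zero_le hn
    have hform : form A p (Pi.single i (-(p : ℂ)⁻¹)) (bb j) = (q : ℂ) := by
      rw [← vp1_toC_rt, vp1_form (by omega), vp1_pr_rt]
      have : ((-A i j : ℤ) : ℂ) = ((q : ℤ) : ℂ) := by rw [hq]
      push_cast at this
      exact this
    have hc := LinearMap.congr_fun (vop_comm_nonneg A hA.symm p _ _ q hform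
      (pr A i η + A i j - 1) (-1 - p * pr A j η)) f
    rw [LinearMap.comp_apply, LinearMap.smul_apply, LinearMap.comp_apply] at hc
    rw [hc]
    have ha : pr A i η + A i j - 1 + (q : ℤ) = pr A i η - 1 := by
      have : -A i j = (q : ℤ) := hq
      omega
    rw [ha, hf i, map_zero, smul_zero]

omit [DecidableEq ι] in
theorem vp1_form_smul_left (c : ℂ) (ν η : ι → ℂ) : form A p (c • ν) η = c * form A p ν η := by
  unfold form
  simp only [Pi.smul_apply, smul_eq_mul, mul_assoc, ← Finset.mul_sum]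
  ring

omit [Fintype ι] in
theorem vp1_nu (j : ι) : (Pi.single j (-(p : ℂ)⁻¹) : ι → ℂ) = (-(p : ℂ)⁻¹) • bb j := by
  funext i
  unfold bb
  by_cases h : i = j
  · subst h
    rw [Pi.smul_apply, Pi.single_eq_same, Pi.single_eq_same, smul_eq_mul, mul_one]
  · rw [Pi.smul_apply, Pi.single_eq_of_ne h, Pi.single_eq_of_ne h, smul_zero]

theorem vp1_delta (hA : IsADE A) (hp : 1 ≤ p) (j : ι) :
    (1 / 2 : ℂ) * form A p (Pi.single j (-(p : ℂ)⁻¹)) (Pi.single j (-(p : ℂ)⁻¹)) -
      form A p (bg A p) (Pi.single j (-(p : ℂ)⁻¹)) = 1 := by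
  have hp0 : (p : ℂ) ≠ 0 := by exact_mod_cast (by omega : p ≠ 0)
  have h1 : form A p (bb j) (bb j) = 2 * (p : ℂ) := by
    rw [form_bb, hA.diag j]; push_cast; ring
  rw [form_symm A hA.symm p (bg A p), vp1_nu, vp1_form_smul_left, vp1_form_smul_left,
    form_symm A hA.symm p (bb j), vp1_form_smul_left, h1, form_bg A hA p hp j]
  field_simp
  ring

theorem W_LS (hA : IsADE A) (hp : 1 ≤ p) (k : ℤ) (v : VL ι) (hv : v ∈ W A p) :
    LS (Shift.zero A p) k v ∈ W A p := by
  refine vp1_ind _ ?_ v hv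
  intro η f hf
  rw [vp1_single_iff] at hf
  have e : LS (Shift.zero A p) k (Finsupp.single η f) =
      Finsupp.single η (Lop A p (toC η) k f) := by
    unfold LS
    rw [Finsupp.lsum_single, LinearMap.comp_apply, Finsupp.lsingle_apply]
    have h0 : (Shift.zero A p).s + toC η = toC η := by
      show (0 : ι → ℂ) + toC η = toC η
      rw [zero_add]
    rw [h0]
  rw [e, vp1_single_iff]
  intro j
  have hc := LinearMap.congr_fun (Lop_vop A hA p hp (toC η) (Pi.single j (-(p : ℂ)⁻¹)) k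
    (pr A j η - 1)) f
  rw [LinearMap.sub_apply, LinearMap.comp_apply, LinearMap.comp_apply, LinearMap.smul_apply,
    hf j, map_zero, vp1_delta hA hp j, vp1_form hp] at hc
  have hz : ((pr A j η - 1 : ℤ) : ℂ) - k + -((pr A j η : ℤ) : ℂ) + ((k : ℂ) + 1) * 1 = 0 := by
    push_cast; ring
  rw [hz, zero_smul, zero_sub, neg_eq_zero] at hc
  exact hc

theorem W_single_iff (hA : IsADE A) (hp : 1 ≤ p) (γ : ι → ℤ) :
    Finsupp.single γ 1 ∈ W A p ↔ ∀ j, pr A j γ ≤ 0 := by
  have _ := hA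
  have hp0 : (p : ℂ) ≠ 0 := by exact_mod_cast (by omega : p ≠ 0)
  rw [vp1_single_iff]
  constructor
  · intro h j
    by_contra hj
    have h1 := h j
    rw [vop_one] at h1
    obtain ⟨m, hm⟩ := Int.eq_ofNat_of_zero_le (by omega : 0 ≤ pr A j γ - 1)
    rw [hm] at h1
    have h2 : expCoeffZ (Pi.single j (-(p : ℂ)⁻¹)) ((m : ℕ) : ℤ) = 0 := h1
    rw [expCoeffZ_nat] at h2
    refine expCoeff_ne_zero _ ?_ m h2
    intro h0
    have h3 := congrFun h0 j
    rw [Pi.single_eq_same, Pi.zero_apply, neg_eq_zero] at h3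
    exact (inv_ne_zero hp0) h3
  · intro h j
    rw [vop_one, expCoeffZ_neg _ _ (by have := h j; omega)]

theorem vac_mem_W (hA : IsADE A) (hp : 1 ≤ p) : vac ∈ W A p := by
  unfold vac
  rw [W_single_iff hA hp]
  intro j
  rw [vp1_pr_zero]

omit [Fintype ι] in
theorem vp1_weight (m : ι × ℕ →₀ ℕ) (h : Finsupp.weight (wF (ι := ι)) m = 1) :
    ∃ i, m = Finsupp.single (i, 0) 1 := by
  have hm : m ≠ 0 := by
    rintro rfl
    rw [map_zero] at h
    exact absurd h (by norm_num)
  obtain ⟨x, hx⟩ := Finsupp.ne_iff.1 hm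
  rw [Finsupp.zero_apply] at hx
  have hle : Finsupp.single x 1 ≤ m := by
    rw [Finsupp.single_le_iff]
    omega
  obtain ⟨m', hm'⟩ := exists_add_of_le hle
  rw [hm', map_add, Finsupp.weight_single] at h
  unfold wF at h
  simp only [smul_eq_mul, one_mul] at h
  have h0 : x.2 = 0 := by omega
  have hz : m' = 0 := by
    by_contra hne
    obtain ⟨y, hy⟩ := Finsupp.ne_iff.1 hne
    rw [Finsupp.zero_apply] at hy
    have hle' : Finsupp.single y 1 ≤ m' := by
      rw [Finsupp.single_le_iff]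
      omega
    obtain ⟨m2, hm2⟩ := exists_add_of_le hle'
    rw [hm2, map_add, Finsupp.weight_single] at h
    simp only [smul_eq_mul, one_mul] at h
    omega
  refine ⟨x.1, ?_⟩
  rw [hm', hz, add_zero]
  congr 1
  exact Prod.ext rfl h0

theorem vp1_deg_one (f : Fock ι) (hf : FH f 1) :
    f = ∑ i, C (coeff (Finsupp.single (i, 0) 1) f) * (X (i, 0) : Fock ι) := by
  ext m
  rw [coeff_sum]
  by_cases hm : coeff m f = 0
  · rw [hm]
    symm
    refine Finset.sum_eq_zero fun i _ => ?_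
    rw [coeff_C_mul, coeff_X]
    split_ifs with h
    · rw [h, hm, zero_mul]
    · rw [mul_zero]
  · obtain ⟨i, hi⟩ := vp1_weight m (hf hm)
    rw [Finset.sum_eq_single i]
    · rw [coeff_C_mul, coeff_X, if_pos hi.symm, mul_one, hi]
    · intro k _ hk
      rw [coeff_C_mul, coeff_X, if_neg, mul_zero]
      intro h
      rw [hi] at h
      have := Finsupp.single_left_injective one_ne_zero h
      exact hk (Prod.ext_iff.1 this).1
    · intro h
      exact absurd (Finset.mem_univ i) h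

theorem W_deg_one (hA : IsADE A) (hp : 1 ≤ p) (f : Fock ι) (hf : FH f 1)
    (h : Finsupp.single 0 f ∈ W A p) : f = 0 := by
  have hp0 : (p : ℂ) ≠ 0 := by exact_mod_cast (by omega : p ≠ 0)
  rw [vp1_single_iff] at h
  have h1 : ∀ j, ∑ i, coeff (Finsupp.single (i, 0) 1) f * ((A i j : ℤ) : ℂ) = 0 := by
    intro j
    have h2 := h j
    rw [vp1_pr_zero, zero_sub] at h2
    have h3 := vop_top A p (Pi.single j (-(p : ℂ)⁻¹)) f 1 hf
    rw [show (-((1 : ℕ) : ℤ)) = -1 by norm_num, h2] at h3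
    have h4 : ev (fun i => form A p (bb i) (Pi.single j (-(p : ℂ)⁻¹))) f = 0 := by
      have := C_injective (ι × ℕ) ℂ (h3.symm.trans (C_0).symm)
      exact this
    rw [vp1_deg_one f hf, map_sum] at h4
    rw [← h4]
    refine Finset.sum_congr rfl fun i _ => ?_
    unfold ev
    rw [map_mul, aeval_X, aeval_C]
    dsimp only
    rw [form_symm A hA.symm, vp1_nu, vp1_form_smul_left, form_bb]
    simp only [Algebra.algebraMap_self, RingHom.id_apply, CharP.cast_eq_zero, zero_add, div_one]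
    rw [hA.symm j i]
    field_simp
  have h5 : (fun i => coeff (Finsupp.single ((i, 0) : ι × ℕ) 1) f) = 0 := by
    have hd := det_ne_zero A hA
    have hv : Matrix.vecMul (fun i => coeff (Finsupp.single ((i, 0) : ι × ℕ) 1) f)
        (A.map (Int.cast : ℤ → ℂ)) = 0 := by
      funext j
      exact h1 j
    have hinj := Matrix.vecMul_injective_of_isUnit
      ((Matrix.isUnit_iff_isUnit_det _).2 hd)
    apply hinj
    show Matrix.vecMul _ _ = Matrix.vecMul _ _
    rw [hv, Matrix.zero_vecMul]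
  rw [vp1_deg_one f hf]
  refine Finset.sum_eq_zero fun i _ => ?_
  have := congrFun h5 i
  simp only [Pi.zero_apply] at this
  rw [this, C_0, zero_mul]

theorem cS_mem_W (hA : IsADE A) (hp : 2 ≤ p) (ε : Cocycle A p) (lam : ι → ℤ) (hl : Dom A lam)
    (js : List ι) (n : ℤ) (v : VL ι) (hv : v ∈ W A p) :
    cS ε (Shift.zero A p) lam js n v ∈ W A p := by
  induction js generalizing v with
  | nil => exact W_expS hA (by omega) ε lam hl n v hv
  | cons j js ih =>
    have e : cS ε (Shift.zero A p) lam (j :: js) n v =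
        Ej ε (Shift.zero A p) j (cS ε (Shift.zero A p) lam js n v) -
          cS ε (Shift.zero A p) lam js n (Ej ε (Shift.zero A p) j v) := rfl
    rw [e]
    exact Submodule.sub_mem _ (W_Ej hA hp ε j _ (ih v hv)) (ih _ (W_Ej hA hp ε j v hv))

theorem word_mem_W (hA : IsADE A) (hp : 2 ≤ p) (ε : Cocycle A p) (w : VL ι)
    (hw : IsWord ε w) : w ∈ W A p := by
  induction hw with
  | vac => exact vac_mem_W hA (by omega)
  | ej j w _ ih => exact W_Ej hA hp ε j w ih
  | ex lam hl n w _ ih => exact W_expS hA (by omega) ε lam hl n w ih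

end

end WPQ
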