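import Pool.Agent.WPQ.LWD

/-! WPQ, full Q1: the spaces `M_ν(n)` (common definitions of the blocks CY, MI, TL). -/

namespace WPQ

open MvPolynomial AF

noncomputable section

variable {ι : Type} [Fintype ι] [DecidableEq ι] {A : Matrix ι ι ℤ} {p : ℕ}

/-- `M_ν(n)`: the vectors of `W(p)_Q` of conformal weight `n` and charge `-ν` that are killed by
`E_j^{m_j+1}`, `m_j = (α_j, ν)`, for every `j`. -/
def MNU (ε : Cocycle A p) (ν : ι → ℤ) (n : ℤ) : Submodule ℂ (VL ι) :=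
  (Wn A p n ⊓ Finsupp.supported (Fock ι) ℂ {-ν}) ⊓
    ⨅ j, LinearMap.ker (Ej ε (Shift.zero A p) j ^ ((pr A j ν).toNat + 1))

theorem mem_MNU (ε : Cocycle A p) (ν : ι → ℤ) (n : ℤ) (f : VL ι) :
    f ∈ MNU ε ν n ↔ f ∈ Wn A p n ∧ f ∈ Finsupp.supported (Fock ι) ℂ {-ν} ∧
      ∀ j, (Ej ε (Shift.zero A p) j ^ ((pr A j ν).toNat + 1)) f = 0 := by
  unfold MNU
  rw [Submodule.mem_inf, Submodule.mem_inf, Submodule.mem_iInf]
  constructor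
  · rintro ⟨⟨h1, h2⟩, h3⟩
    exact ⟨h1, h2, fun j => LinearMap.mem_ker.1 (h3 j)⟩
  · rintro ⟨h1, h2, h3⟩
    exact ⟨⟨h1, h2⟩, fun j => LinearMap.mem_ker.2 (h3 j)⟩

/-- `q(λ) = |λ|²/2 + ht λ`, so that `p q(λ) = Δ_λ + ht λ`. -/
def qN (A : Matrix ι ι ℤ) (lam : ι → ℤ) : ℤ := formZ A 1 lam lam / 2 + ∑ i, lam i

end

end WPQ
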