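import Pool.Agent.WPQ.CY10
import Pool.Agent.WPQ.MNU

/-! [WPQ-CYM] The results of block CY in terms of `MNU`. -/

namespace WPQ

open MvPolynomial WK GA

noncomputable section

variable {ι : Type} [Fintype ι] [DecidableEq ι] {A : Matrix ι ι ℤ} {p : ℕ}

theorem mem_MNU_iff (ε : Cocycle A p) (nu : ι → ℤ) (n : ℤ) (f : VL ι) :
    f ∈ MNU ε nu n ↔ f ∈ Mn ε nu ∧ f ∈ Vn A p n := by
  rw [mem_MNU, mem_Mn]
  constructor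
  · rintro ⟨⟨h1, h2⟩, h3, h4⟩
    exact ⟨⟨h1, h3, h4⟩, h2⟩
  · rintro ⟨⟨h1, h3, h4⟩, h2⟩
    exact ⟨⟨h1, h2⟩, h3, h4⟩

theorem MNU_mode (hA : IsADE A) (hp : 2 ≤ p) (ε : Cocycle A p) (nu : ι → ℤ) (m n s : ℤ)
    (c a : VL ι) (hc : c ∈ Wk ε) (hcm : c ∈ Vn A p m) (ha : a ∈ MNU ε nu n) :
    mode ε c s a ∈ MNU ε nu (m + n - s - 1) := by
  rw [mem_MNU_iff] at ha ⊢
  exact ⟨Mn_mode hA hp ε nu s c a hc ha.1, mode_Vn hA (by omega) ε m n s c a hcm ha.2⟩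

theorem MNU_transl (hA : IsADE A) (hp : 2 ≤ p) (ε : Cocycle A p) (nu : ι → ℤ) (n : ℤ) (a : VL ι)
    (ha : a ∈ MNU ε nu n) : LS (Shift.zero A p) (-1) a ∈ MNU ε nu (n + 1) := by
  rw [mem_MNU_iff] at ha ⊢
  constructor
  · rw [LS_zero_neg_one]
    exact Mn_transl hA hp ε nu a ha.1
  · have h1 := LS_Vn (A := A) (p := p) (-1) n a ha.2
    have e : n - (-1) = n + 1 := by ring
    rwa [e] at h1

theorem lwv_MNU (hA : IsADE A) (hp : 2 ≤ p) (ε : Cocycle A p) (nu : ι → ℤ) (hd : Dom A nu) :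
    lwv nu ∈ MNU ε nu (wtExp A p (-nu)) :=
  (mem_MNU_iff ε nu _ _).2 ⟨lwv_Mn hA hp ε nu hd, lwv_Vn nu⟩

/-- (CY10): `M_{λ+μ}(n)` is spanned by the vectors `a_k b`. -/
theorem MNU_add (hA : IsADE A) (hp : 2 ≤ p) (ε : Cocycle A p) (lam mu : ι → ℤ) (hl : Dom A lam)
    (hm : Dom A mu) (n : ℤ) : MNU ε (lam + mu) n ≤
      Submodule.span ℂ {x | ∃ h h' k : ℤ, ∃ a ∈ MNU ε lam h, ∃ b ∈ MNU ε mu h',
        h + h' - k - 1 = n ∧ x = mode ε a k b} := by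
  intro f hf
  rw [mem_MNU_iff] at hf
  refine Submodule.span_mono ?_ (Mn_add_homog hA hp ε lam mu hl hm n f hf.1 hf.2)
  rintro x ⟨h, h', a, ha, hah, b, hb, hbh, k, hk, rfl⟩
  exact ⟨h, h', k, a, (mem_MNU_iff ε lam h a).2 ⟨ha, hah⟩, b, (mem_MNU_iff ε mu h' b).2 ⟨hb, hbh⟩,
    hk, rfl⟩

end

end WPQ
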