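import Pool.Agent.WPQ.JJ3

/-! [WPQ-DU1] Duality: `W(p)_Q` is spanned by words, and `beta` is perfect on every weight space.

Plan.  `beta_right`: for `v ∈ Wn n` with `beta t v = 0` for all `t ∈ UU ⊓ Vn n`: every word `w` is
`single γ f` (`word_homog`); `beta w v = 0`: by `beta_single` applied to the components of `v`
(`Vn_comp`) it is `0` unless the weight of `w` is `n`, and then `w ∈ UU ⊓ Vn n`.  For a component
`v_δ = single δ (v δ) ∈ W` (`W_comp`): `beta w v_δ` is either `0` (`δ ≠ -γ`) or equal to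
`beta w v = 0`.  So `J_zero` gives `v δ = 0`.
`W_le_UU`: `beta` gives an injective linear map `Wn n → Dual (UU ⊓ Vn n)` and
`UU ⊓ Vn n ≤ Wn n` (`UU_le_W`), finite dimensional (`Vn_finite`): equal dimensions, so
`UU ⊓ Vn n = Wn n`; then `W_span`.  `beta_left`: the injective map `Wn n → Dual (Wn n)`,
`v ↦ beta · v`, is bijective, so the left kernel is zero.  `exists_left`: a proper subspace `I` of `Wn n`
is killed by a nonzero functional, and every functional of `Wn n` is `beta t ·` for some `t ∈ Wn n`. -/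

namespace WPQ

open MvPolynomial AF

noncomputable section

variable {ι : Type} [Fintype ι] [DecidableEq ι] {A : Matrix ι ι ℤ} {p : ℕ}

theorem du1_zero {V : Type} [AddCommGroup V] [Module ℂ V] (x : V)
    (h : ∀ φ : V →ₗ[ℂ] ℂ, φ x = 0) : x = 0 :=
  (Module.forall_dual_apply_eq_zero_iff ℂ x).1 h

theorem du1_fun {V : Type} [AddCommGroup V] [Module ℂ V] (I : Submodule ℂ V) (h : I < ⊤) :
    ∃ φ : V →ₗ[ℂ] ℂ, φ ≠ 0 ∧ I ≤ LinearMap.ker φ :=
  Submodule.exists_le_ker_of_lt_top I h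

theorem du1_dim {V U : Type} [AddCommGroup V] [Module ℂ V] [AddCommGroup U] [Module ℂ U]
    [FiniteDimensional ℂ V] [FiniteDimensional ℂ U] (B : V →ₗ[ℂ] U →ₗ[ℂ] ℂ)
    (h : ∀ v, (∀ u, B v u = 0) → v = 0) : Module.finrank ℂ V ≤ Module.finrank ℂ U := by
  have hinj : Function.Injective B := by
    rw [← LinearMap.ker_eq_bot, LinearMap.ker_eq_bot']
    intro v hv
    exact h v fun u => by rw [hv]; rfl
  have h2 : Module.finrank ℂ V ≤ Module.finrank ℂ (Module.Dual ℂ U) :=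
    LinearMap.finrank_le_finrank_of_injective (f := (B : V →ₗ[ℂ] Module.Dual ℂ U)) hinj
  rw [Subspace.dual_finrank_eq] at h2
  exact h2

theorem du1_surj {V : Type} [AddCommGroup V] [Module ℂ V] [FiniteDimensional ℂ V]
    (B : V →ₗ[ℂ] V →ₗ[ℂ] ℂ) (h : ∀ v, (∀ u, B v u = 0) → v = 0) :
    Function.Surjective B := by
  have hinj : Function.Injective B := by
    rw [← LinearMap.ker_eq_bot, LinearMap.ker_eq_bot']
    intro v hv
    exact h v fun u => by rw [hv]; rfl
  exact (LinearMap.injective_iff_surjective_of_finrank_eq_finrank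
    (f := (B : V →ₗ[ℂ] Module.Dual ℂ V)) (Subspace.dual_finrank_eq (K := ℂ) (V := V)).symm).1 hinj

/-- `beta` as a bilinear map -/
def du1_B (ε : Cocycle A p) (τ : Shift A p) : VL ι →ₗ[ℂ] VL ι →ₗ[ℂ] ℂ :=
  LinearMap.mk₂ ℂ (beta ε τ) (beta_add_left ε τ) (fun c t v => beta_smul_left ε τ c t v)
    (beta_add_right ε τ) (fun c t v => beta_smul_right ε τ c t v)

theorem beta_right (hA : IsADE A) (hp : 2 ≤ p) (ε : Cocycle A p) (τ : Shift A p)
    (hτ : τ.s = (2 : ℂ) • bg A p) (n : ℤ) (v : VL ι) (hv : v ∈ Wn A p n)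
    (h : ∀ t ∈ UU ε ⊓ Vn A p n, beta ε τ t v = 0) : v = 0 := by
  ext1 δ
  rw [Finsupp.zero_apply]
  have hp1 : 1 ≤ p := by omega
  rcases Vn_comp n v hv.2 δ with h0 | ⟨e, he, hen⟩
  · exact h0
  · refine J_zero hA hp ε τ hτ δ (v δ) e he (W_comp v hv.1 δ) fun w hw => ?_
    obtain ⟨γ, f, d, hf, rfl⟩ := word_homog hA ε w hw
    by_cases hc : δ ≠ -γ ∨ (d : ℤ) + wtExp A p γ ≠ (e : ℤ) + wtExp A p δ
    · exact beta_single hA hp1 ε τ hτ γ δ f (v δ) d e hf he hc
    · rw [not_or, not_not, not_not] at hc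
      have hm : Finsupp.single γ f ∈ UU ε ⊓ Vn A p n :=
        ⟨Submodule.subset_span hw, single_mem_Vn γ f d hf n (by rw [hc.2, hen])⟩
      have h1 := h _ hm
      have h2 : beta ε τ (Finsupp.single γ f) v =
          ∑ δ' ∈ v.support, beta ε τ (Finsupp.single γ f) (Finsupp.single δ' (v δ')) := by
        have h3 := map_finsuppSum (du1_B ε τ (Finsupp.single γ f)) v Finsupp.single
        rw [Finsupp.sum_single] at h3
        exact h3
      rw [h2] at h1
      have h3 : ∑ δ' ∈ v.support, beta ε τ (Finsupp.single γ f) (Finsupp.single δ' (v δ')) =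
          beta ε τ (Finsupp.single γ f) (Finsupp.single δ (v δ)) := by
        refine Finset.sum_eq_single δ ?_ ?_
        · intro δ' hδ' hne
          rcases Vn_comp n v hv.2 δ' with h0 | ⟨e', he', _⟩
          · exact absurd h0 (Finsupp.mem_support_iff.1 hδ')
          · refine beta_single hA hp1 ε τ hτ γ δ' f (v δ') d e' hf he' (Or.inl ?_)
            intro h4
            exact hne (h4.trans hc.1.symm)
        · intro hδ
          rw [Finsupp.notMem_support_iff.1 hδ, Finsupp.single_zero]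
          exact map_zero (du1_B ε τ (Finsupp.single γ f))
      rw [← h3]
      exact h1

theorem du1_eq (hA : IsADE A) (hp : 2 ≤ p) (ε : Cocycle A p) (τ : Shift A p)
    (hτ : τ.s = (2 : ℂ) • bg A p) (n : ℤ) : UU ε ⊓ Vn A p n = Wn A p n := by
  have : FiniteDimensional ℂ (Vn A p n) := Vn_finite hA (by omega) n
  have hW : FiniteDimensional ℂ (Wn A p n) := Submodule.finiteDimensional_inf_right _ _
  have hU : FiniteDimensional ℂ (UU ε ⊓ Vn A p n : Submodule ℂ (VL ι)) :=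
    Submodule.finiteDimensional_inf_right _ _
  have hle : UU ε ⊓ Vn A p n ≤ Wn A p n := inf_le_inf_right _ (UU_le_W hA hp ε)
  refine Submodule.eq_of_le_of_finrank_le hle ?_
  refine du1_dim (V := Wn A p n) (U := (UU ε ⊓ Vn A p n : Submodule ℂ (VL ι))) ((du1_B ε τ).flip.domRestrict₁₂ (Wn A p n) (UU ε ⊓ Vn A p n)) fun v hv => ?_
  refine Subtype.ext (beta_right hA hp ε τ hτ n v v.2 fun t ht => ?_)
  exact hv ⟨t, ht⟩

theorem Wn_le_UU (hA : IsADE A) (hp : 2 ≤ p) (ε : Cocycle A p) (n : ℤ) : Wn A p n ≤ UU ε := by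
  obtain ⟨τ, hτ⟩ := exists_tau (p := p) hA (by omega)
  rw [← du1_eq hA hp ε τ hτ n]
  exact inf_le_left

theorem W_eq_UU (hA : IsADE A) (hp : 2 ≤ p) (ε : Cocycle A p) : W A p = UU ε := by
  refine le_antisymm (W_span (UU ε) fun γ f d hf hW => ?_) (UU_le_W hA hp ε)
  exact Wn_le_UU hA hp ε ((d : ℤ) + wtExp A p γ) ⟨hW, single_mem_Vn γ f d hf _ rfl⟩

theorem beta_left (hA : IsADE A) (hp : 2 ≤ p) (ε : Cocycle A p) (τ : Shift A p)
    (hτ : τ.s = (2 : ℂ) • bg A p) (n : ℤ) (t : VL ι) (ht : t ∈ Wn A p n)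
    (h : ∀ v ∈ Wn A p n, beta ε τ t v = 0) : t = 0 := by
  have hVf : FiniteDimensional ℂ (Vn A p n) := Vn_finite hA (by omega) n
  have hW : FiniteDimensional ℂ (Wn A p n) := Submodule.finiteDimensional_inf_right _ _
  have hsurj := du1_surj (V := Wn A p n) ((du1_B ε τ).flip.domRestrict₁₂ (Wn A p n) (Wn A p n)) fun v hv => by
    refine Subtype.ext (beta_right hA hp ε τ hτ n v v.2 fun t ht => ?_)
    rw [du1_eq hA hp ε τ hτ n] at ht
    exact hv ⟨t, ht⟩
  have h1 : (⟨t, ht⟩ : Wn A p n) = 0 := by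
    refine du1_zero (V := Wn A p n) _ fun φ => ?_
    obtain ⟨v, rfl⟩ := hsurj φ
    exact h v v.2
  exact congrArg Subtype.val h1

theorem exists_left (hA : IsADE A) (hp : 2 ≤ p) (ε : Cocycle A p) (τ : Shift A p)
    (hτ : τ.s = (2 : ℂ) • bg A p) (n : ℤ) (I : Submodule ℂ (VL ι)) (hI : I ≤ Wn A p n)
    (hne : I ≠ Wn A p n) : ∃ t ∈ Wn A p n, t ≠ 0 ∧ ∀ v ∈ I, beta ε τ t v = 0 := by
  have hVf : FiniteDimensional ℂ (Vn A p n) := Vn_finite hA (by omega) n
  have hW : FiniteDimensional ℂ (Wn A p n) := Submodule.finiteDimensional_inf_right _ _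
  have hsurj := du1_surj (V := Wn A p n) ((du1_B ε τ).domRestrict₁₂ (Wn A p n) (Wn A p n)) fun t ht => by
    refine Subtype.ext (beta_left hA hp ε τ hτ n t t.2 fun v hv => ?_)
    exact ht ⟨v, hv⟩
  have hlt : I.comap (Wn A p n).subtype < ⊤ := by
    rw [lt_top_iff_ne_top]
    intro h1
    apply hne
    refine le_antisymm hI fun x hx => ?_
    have h2 : (⟨x, hx⟩ : Wn A p n) ∈ I.comap (Wn A p n).subtype := by
      rw [h1]
      exact Submodule.mem_top
    exact h2
  obtain ⟨φ, hφ0, hφ⟩ := du1_fun (V := Wn A p n) _ hlt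
  obtain ⟨t, ht⟩ := hsurj φ
  refine ⟨t, t.2, ?_, fun v hv => ?_⟩
  · intro h0
    apply hφ0
    have h1 : t = 0 := Subtype.ext h0
    rw [← ht, h1, map_zero]
  · have h1 : (⟨v, hI hv⟩ : Wn A p n) ∈ LinearMap.ker φ := hφ hv
    rw [LinearMap.mem_ker, ← ht] at h1
    exact h1

end

end WPQ
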