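import Pool.Agent.Lib.helper69.DivisorBound
import Pool.Agent.WPQ.DefsB

/-! [WPQ-AR3] The exceptional levels `p` are sparse: at most `O(N^(1/2+ε))` of them are `< N`;
in particular they have natural density zero. -/

namespace WPQ

open Filter Topology

theorem not_mem_Exc (C p : ℕ) (h : p ∉ Exc C) :
    C < p ∧ ∀ r : ℕ, 2 ≤ r → r ^ 2 ≤ C * p → ¬ p ∣ C * (r ^ 2 - 1) := by
  unfold Exc at h
  simp only [Set.mem_ofPred_eq, not_or, not_le, not_exists, not_and] at h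
  exact h

theorem exc_count (C : ℕ) (hC : 1 ≤ C) (ε : ℝ) (hε : 0 < ε) :
    ∃ K : ℝ, ∀ N : ℕ, 1 ≤ N →
      (({p : ℕ | p < N ∧ p ∈ Exc C}.ncard : ℕ) : ℝ) ≤ K * (N : ℝ) ^ (1 / 2 + ε) := by
  obtain ⟨c, hc1, hc⟩ := Pool.Agent.Lib.helper69.card_divisors_le_rpow ε hε
  refine ⟨(C : ℝ) + 1 + (C : ℝ) ^ (1 / 2 : ℝ) * (c * ((C : ℝ) ^ 2) ^ ε), ?_⟩
  intro N hN
  have hC' : (1 : ℝ) ≤ C := by exact_mod_cast hC
  have hN' : (1 : ℝ) ≤ N := by exact_mod_cast hN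
  set M : ℕ := Nat.sqrt (C * N) with hM
  set F : Finset ℕ := Finset.range (C + 1) ∪
    (Finset.Icc 2 M).biUnion (fun r => (C * (r ^ 2 - 1)).divisors) with hF
  have hsub : {p : ℕ | p < N ∧ p ∈ Exc C} ⊆ (F : Set ℕ) := by
    rintro p ⟨hpN, hp⟩
    rw [hF]
    simp only [Finset.coe_union, Set.mem_union, Finset.mem_coe, Finset.mem_range,
      Finset.mem_biUnion, Finset.mem_Icc, Nat.mem_divisors]
    rcases hp with hp | ⟨r, hr2, hrC, hdvd⟩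
    · left
      omega
    · right
      refine ⟨r, ⟨hr2, ?_⟩, hdvd, ?_⟩
      · rw [hM, Nat.le_sqrt']
        exact hrC.trans (Nat.mul_le_mul_left _ hpN.le)
      · have h1 : 2 ^ 2 ≤ r ^ 2 := Nat.pow_le_pow_left hr2 2
        have h2 : r ^ 2 - 1 ≠ 0 := by omega
        exact Nat.mul_ne_zero (by omega) h2
  have h1 : ({p : ℕ | p < N ∧ p ∈ Exc C}.ncard : ℕ) ≤ F.card := by
    rw [← Set.ncard_coe_finset F]
    exact Set.ncard_le_ncard hsub F.finite_toSet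
  have h2 : F.card ≤ (C + 1) + ∑ r ∈ Finset.Icc 2 M, (C * (r ^ 2 - 1)).divisors.card := by
    rw [hF]
    refine (Finset.card_union_le _ _).trans ?_
    rw [Finset.card_range]
    exact Nat.add_le_add_left Finset.card_biUnion_le _
  have h3 : ∀ r ∈ Finset.Icc 2 M, (((C * (r ^ 2 - 1)).divisors.card : ℕ) : ℝ) ≤
      c * ((C : ℝ) ^ 2) ^ ε * (N : ℝ) ^ ε := by
    intro r hr
    rw [Finset.mem_Icc] at hr
    have h4 : 2 ^ 2 ≤ r ^ 2 := Nat.pow_le_pow_left hr.1 2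
    have h5 : 1 ≤ C * (r ^ 2 - 1) := Nat.mul_pos (by omega) (by omega)
    have h6 : r ^ 2 ≤ C * N := by
      have := hr.2
      rw [hM, Nat.le_sqrt'] at this
      exact this
    have h7 : C * (r ^ 2 - 1) ≤ C ^ 2 * N := by
      calc C * (r ^ 2 - 1) ≤ C * (C * N) := Nat.mul_le_mul_left _ (by omega)
        _ = C ^ 2 * N := by ring
    calc (((C * (r ^ 2 - 1)).divisors.card : ℕ) : ℝ)
        ≤ c * ((C * (r ^ 2 - 1) : ℕ) : ℝ) ^ ε := hc _ h5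
      _ ≤ c * ((C ^ 2 * N : ℕ) : ℝ) ^ ε := by
          apply mul_le_mul_of_nonneg_left _ (by linarith)
          apply Real.rpow_le_rpow (Nat.cast_nonneg _) _ hε.le
          exact_mod_cast h7
      _ = c * ((C : ℝ) ^ 2) ^ ε * (N : ℝ) ^ ε := by
          push_cast
          rw [Real.mul_rpow (by positivity) (by positivity)]
          ring
  have h4 : ((∑ r ∈ Finset.Icc 2 M, (C * (r ^ 2 - 1)).divisors.card : ℕ) : ℝ) ≤
      (M : ℝ) * (c * ((C : ℝ) ^ 2) ^ ε * (N : ℝ) ^ ε) := by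
    push_cast
    calc ∑ r ∈ Finset.Icc 2 M, (((C * (r ^ 2 - 1)).divisors.card : ℕ) : ℝ)
        ≤ ∑ _r ∈ Finset.Icc 2 M, (c * ((C : ℝ) ^ 2) ^ ε * (N : ℝ) ^ ε) := Finset.sum_le_sum h3
      _ = ((Finset.Icc 2 M).card : ℝ) * (c * ((C : ℝ) ^ 2) ^ ε * (N : ℝ) ^ ε) := by
          rw [Finset.sum_const, nsmul_eq_mul]
      _ ≤ (M : ℝ) * (c * ((C : ℝ) ^ 2) ^ ε * (N : ℝ) ^ ε) := by
          apply mul_le_mul_of_nonneg_right _ (by positivity)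
          rw [Nat.card_Icc]
          exact_mod_cast (by omega : M + 1 - 2 ≤ M)
  have h5 : (M : ℝ) ≤ (C : ℝ) ^ (1 / 2 : ℝ) * (N : ℝ) ^ (1 / 2 : ℝ) := by
    have h6 : (M : ℝ) ≤ Real.sqrt ((C * N : ℕ) : ℝ) := Real.nat_sqrt_le_real_sqrt
    rw [Real.sqrt_eq_rpow] at h6
    push_cast at h6
    rw [Real.mul_rpow (by positivity) (by positivity)] at h6
    exact h6
  have h6 : (1 : ℝ) ≤ (N : ℝ) ^ (1 / 2 + ε) := Real.one_le_rpow hN' (by positivity)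
  calc (({p : ℕ | p < N ∧ p ∈ Exc C}.ncard : ℕ) : ℝ) ≤ (F.card : ℝ) := by exact_mod_cast h1
    _ ≤ ((C : ℝ) + 1) + ((∑ r ∈ Finset.Icc 2 M, (C * (r ^ 2 - 1)).divisors.card : ℕ) : ℝ) := by
        exact_mod_cast h2
    _ ≤ ((C : ℝ) + 1) + (M : ℝ) * (c * ((C : ℝ) ^ 2) ^ ε * (N : ℝ) ^ ε) := by linarith
    _ ≤ ((C : ℝ) + 1) * (N : ℝ) ^ (1 / 2 + ε) +
        ((C : ℝ) ^ (1 / 2 : ℝ) * (N : ℝ) ^ (1 / 2 : ℝ)) *
          (c * ((C : ℝ) ^ 2) ^ ε * (N : ℝ) ^ ε) := by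
        apply add_le_add
        · have : (0 : ℝ) ≤ (C : ℝ) + 1 := by linarith
          nlinarith
        · exact mul_le_mul_of_nonneg_right h5 (by positivity)
    _ = ((C : ℝ) + 1 + (C : ℝ) ^ (1 / 2 : ℝ) * (c * ((C : ℝ) ^ 2) ^ ε)) *
        (N : ℝ) ^ (1 / 2 + ε) := by
        rw [Real.rpow_add (by linarith : (0 : ℝ) < N)]
        ring

theorem density (C : ℕ) (hC : 1 ≤ C) :
    Tendsto (fun N : ℕ => (({p : ℕ | p < N ∧ p ∈ Exc C}.ncard : ℕ) : ℝ) / N) atTop (𝓝 0) := by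
  obtain ⟨K, hK⟩ := exc_count C hC (1 / 4) (by norm_num)
  have h1 : Tendsto (fun N : ℕ => K * ((N : ℝ) ^ (-(1 / 4 : ℝ)))) atTop (𝓝 0) := by
    have h2 : Tendsto (fun x : ℝ => x ^ (-(1 / 4 : ℝ))) atTop (𝓝 0) :=
      tendsto_rpow_neg_atTop (by norm_num)
    have h3 := (h2.comp tendsto_natCast_atTop_atTop).const_mul K
    simpa using h3
  refine squeeze_zero' (Eventually.of_forall fun N => by positivity) ?_ h1
  filter_upwards [eventually_ge_atTop 1] with N hN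
  have hN0 : (0 : ℝ) < N := by exact_mod_cast hN
  rw [div_le_iff₀ hN0]
  refine (hK N hN).trans (le_of_eq ?_)
  have h4 : (N : ℝ) ^ (-(1 / 4 : ℝ)) * N = (N : ℝ) ^ (1 / 2 + 1 / 4 : ℝ) := by
    calc (N : ℝ) ^ (-(1 / 4 : ℝ)) * N = (N : ℝ) ^ (-(1 / 4 : ℝ)) * (N : ℝ) ^ (1 : ℝ) := by
          rw [Real.rpow_one]
      _ = (N : ℝ) ^ (1 / 2 + 1 / 4 : ℝ) := by
          rw [← Real.rpow_add hN0]
          norm_num
  rw [mul_assoc, h4]

end WPQ
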