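import Pool.Agent.WPQ.AR2
import Pool.Agent.WPQ.AR3

/-! WPQ, block AR: arithmetic in the form used by PV4. -/

namespace WPQ

noncomputable section

variable {ι : Type} [Fintype ι] [DecidableEq ι]

theorem arith' (A : Matrix ι ι ℤ) (hA : IsADE A) (hl : 2 ≤ Fintype.card ι) (C1 : ℕ) :
    ∃ C : ℕ, 2 ≤ C ∧ ∀ p : ℕ, p ∉ Exc C →
      ∃ t : ℂ, t ≠ 0 ∧ (∀ a b : ℤ, (a : ℂ) = t * b → a = 0 ∧ b = 0) ∧
        cc A p = 1 - 6 * (t - 1) ^ 2 / t ∧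
        ∀ h r s : ℕ, 1 ≤ h → 1 ≤ r → 1 ≤ s → h ≤ C1 * p ^ 2 →
          (h : ℂ) ≠ (((s : ℂ) ^ 2 - 1) * t + ((r : ℂ) ^ 2 - 1) / t - 2 * ((r : ℂ) * s - 1)) / 4 := by
  obtain ⟨C, hC1, hC⟩ := arith A hA hl C1
  refine ⟨2 * C, by omega, fun p hp => ?_⟩
  obtain ⟨h1, h2⟩ := not_mem_Exc (2 * C) p hp
  refine hC p (by omega) (fun r hr hr2 hd => ?_)
  refine h2 r hr (by nlinarith) ?_
  rw [mul_assoc]
  exact Dvd.dvd.mul_left hd 2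

end

end WPQ
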