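import Pool.Agent.WPQ.KND

/-! [WPQ-KN4] Algebraic independence of the elementary symmetric polynomials of the blocks.

Plan.  If `P ≠ 0` choose (`MvPolynomial.funext` over the infinite field ℂ) values `s_{i,m}` with
`eval s P ≠ 0`.  For every `i` the monic polynomial `z^M + ∑_{m=1}^{M} (-1)^m s_{i,m} z^{M-m}`,
`M = M i`, splits over ℂ: choose its roots `y_{i,1}, …, y_{i,M}` (a multiset of card `M`, written as a
function on `Fin M`), whose elementary symmetric functions are `s_{i,m}` (Vieta: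
`Multiset.prod_X_sub_X_eq_sum_esymm`, `Finset.esymm_map_val`, `MvPolynomial.aeval_esymm_eq_multiset_esymm`).
Then `eval y (aeval (eB) P) = eval s P ≠ 0`. -/

namespace WPQ.KN

open MvPolynomial

noncomputable section

variable {ι : Type} [Fintype ι] [DecidableEq ι]

/-- The monic polynomial with prescribed signed coefficients. -/
def kn4_poly (n : ℕ) (s : Fin n → ℂ) : Polynomial ℂ :=
  Polynomial.X ^ n + ∑ m : Fin n, Polynomial.C ((-1) ^ ((m : ℕ) + 1) * s m) *
    Polynomial.X ^ (n - 1 - (m : ℕ))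

theorem kn4_degree_lt (n : ℕ) (s : Fin n → ℂ) :
    (∑ m : Fin n, Polynomial.C ((-1) ^ ((m : ℕ) + 1) * s m) *
      Polynomial.X ^ (n - 1 - (m : ℕ))).degree < (n : WithBot ℕ) := by
  refine lt_of_le_of_lt (Polynomial.degree_sum_le _ _) ?_
  rw [Finset.sup_lt_iff (by exact WithBot.bot_lt_coe n)]
  intro m _
  refine lt_of_le_of_lt (Polynomial.degree_C_mul_X_pow_le _ _) ?_
  have h1 := m.2
  exact_mod_cast (by omega : n - 1 - (m : ℕ) < n)

theorem kn4_monic (n : ℕ) (s : Fin n → ℂ) : (kn4_poly n s).Monic :=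
  Polynomial.monic_X_pow_add (kn4_degree_lt n s)

theorem kn4_natDegree (n : ℕ) (s : Fin n → ℂ) : (kn4_poly n s).natDegree = n := by
  apply Polynomial.natDegree_eq_of_degree_eq_some
  unfold kn4_poly
  rw [Polynomial.degree_add_eq_left_of_degree_lt, Polynomial.degree_X_pow]
  rw [Polynomial.degree_X_pow]
  exact kn4_degree_lt n s

theorem kn4_coeff (n : ℕ) (s : Fin n → ℂ) (m : Fin n) :
    (kn4_poly n s).coeff (n - 1 - (m : ℕ)) = (-1) ^ ((m : ℕ) + 1) * s m := by
  have hm := m.2
  unfold kn4_poly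
  rw [Polynomial.coeff_add, Polynomial.coeff_X_pow, if_neg (by omega), zero_add,
    Polynomial.finsetSum_coeff, Finset.sum_eq_single m]
  · rw [Polynomial.coeff_C_mul_X_pow, if_pos rfl]
  · intro b _ hb
    rw [Polynomial.coeff_C_mul_X_pow, if_neg]
    intro h
    apply hb
    have hb2 := b.2
    ext
    omega
  · intro h
    exact absurd (Finset.mem_univ _) h

theorem exists_roots (n : ℕ) (s : Fin n → ℂ) :
    ∃ y : Fin n → ℂ, ∀ m : Fin n, eval y (esymm (Fin n) ℂ ((m : ℕ) + 1)) = s m := by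
  have hcard : Multiset.card (kn4_poly n s).roots = n := by
    rw [IsAlgClosed.card_roots_eq_natDegree, kn4_natDegree]
  obtain ⟨y, hy⟩ : ∃ y : Fin n → ℂ, (Finset.univ : Finset (Fin n)).val.map y =
      (kn4_poly n s).roots := by
    refine ⟨fun i => (kn4_poly n s).roots.toList.get (i.cast (by simp [hcard])), ?_⟩
    have h2 : (kn4_poly n s).roots = ((kn4_poly n s).roots.toList : Multiset ℂ) := by simp
    conv_rhs => rw [h2]
    rw [Fin.univ_val_map]
    congr 1
    apply List.ext_get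
    · simp [hcard]
    · intro k h1 h3
      simp
  refine ⟨y, fun m => ?_⟩
  have hm := m.2
  have h1 : eval y (esymm (Fin n) ℂ ((m : ℕ) + 1)) = (kn4_poly n s).roots.esymm ((m : ℕ) + 1) := by
    rw [← hy, ← MvPolynomial.aeval_esymm_eq_multiset_esymm (Fin n) ℂ]
    rfl
  rw [h1]
  have h2 := Polynomial.coeff_eq_esymm_roots_of_card (p := kn4_poly n s)
    (by rw [hcard, kn4_natDegree]) (k := n - 1 - (m : ℕ)) (by rw [kn4_natDegree]; omega)
  rw [kn4_coeff, (kn4_monic n s).leadingCoeff, kn4_natDegree,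
    show n - (n - 1 - (m : ℕ)) = (m : ℕ) + 1 by omega, one_mul] at h2
  have h3 : ((-1 : ℂ) ^ ((m : ℕ) + 1)) ≠ 0 := pow_ne_zero _ (by norm_num)
  exact (mul_left_cancel₀ h3 h2).symm

omit [Fintype ι] [DecidableEq ι] in
theorem eB_indep (M : ι → ℕ) (P : BB M)
    (h : aeval (fun x : (Σ i, Fin (M i)) => eB M x.1 ((x.2 : ℕ) + 1)) P = 0) : P = 0 := by
  apply MvPolynomial.funext
  intro s
  rw [map_zero]
  choose y hy using fun i => exists_roots (M i) (fun m => s ⟨i, m⟩)
  have h1 := congrArg (eval (fun x : (Σ i, Fin (M i)) => y x.1 x.2)) h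
  rw [map_zero] at h1
  rw [← h1]
  have h2 : ∀ Q : BB M, eval (fun x : (Σ i, Fin (M i)) => y x.1 x.2)
      (aeval (fun x : (Σ i, Fin (M i)) => eB M x.1 ((x.2 : ℕ) + 1)) Q) = eval s Q := by
    intro Q
    induction Q using MvPolynomial.induction_on with
    | C a => rw [algHom_C, MvPolynomial.algebraMap_eq, eval_C, eval_C]
    | add f g hf hg => rw [map_add, map_add, map_add, hf, hg]
    | mul_X f i hf =>
      rw [map_mul, map_mul, map_mul, hf, aeval_X, eval_X]
      congr 1
      unfold eB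
      rw [eval_rename]
      exact hy i.1 i.2
  exact (h2 P).symm

end

end WPQ.KN
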