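import Pool.Agent.WPQ.KN3
import Pool.Agent.WPQ.KN4

/-! [WPQ-KN5] On the common kernel, `diagPair x g` depends only on `Th x`.

Plan.  Fix `g`.  Let `I` be the ideal of `Fock ι` spanned by `Shat c i q`, `q > M i`.  For `y ∈ I`:
`diagPair y g = 0` (`diagPair_Shat` and `hg`; `Submodule.span_induction` or
`Ideal.mem_span`-induction: elements `z * Shat c i q`).  Every `x` is congruent modulo `I` to
`aeval (fun r => Shat c r.1 (r.2+1)) P` for some `P : BB M` (`adjoin_Shat`, `Algebra.adjoin_induction`;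
a generator `Shat c i q` with `1 ≤ q ≤ M i` is the image of the variable `⟨i, q-1⟩`, and with `q > M i`
it lies in `I`).  `Th` kills `I` (`th_Shat`; `esymm = 0` above the number of variables,
`MvPolynomial.esymm_eq_zero` or `Finset.powersetCard_eq_empty`).  So `Th x = 0` gives
`aeval (fun r => (-1)^(r.2+1) * eB M r.1 (r.2+1)) P = 0`; substituting `X r ↦ (-1)^(r.2+1) X r` in `P`,
`eB_indep` gives `P = 0` (the substitution is an involution), so `x ∈ I`. -/

namespace WPQ.KN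

open MvPolynomial

noncomputable section

variable {ι : Type} [Fintype ι] [DecidableEq ι]

/-- The ideal of the symbols of large degree. -/
def kn5_I (c : ι → ℂ) (M : ι → ℕ) : Ideal (Fock ι) :=
  Ideal.span {y | ∃ (i : ι) (q : ℕ), M i < q ∧ y = Shat c i q}

theorem kn5_pair (A : Matrix ι ι ℤ) (p : ℕ) (c : ι → ℂ)
    (lam : ι → ι → ℂ) (hl : ∀ i j, form A p (bb j) (lam i) = if i = j then c i else 0)
    (M : ι → ℕ) (g : Fock ι) (hg : ∀ i, ∀ q, M i < q → Sop A p (-(lam i)) q g = 0)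
    (y : Fock ι) (hy : y ∈ kn5_I c M) : ∀ z : Fock ι, diagPair (z * y) g = 0 := by
  unfold kn5_I at hy
  refine Submodule.span_induction (p := fun y _ => ∀ z : Fock ι, diagPair (z * y) g = 0)
    ?_ ?_ ?_ ?_ hy
  · rintro y ⟨i, q, hq, rfl⟩ z
    rw [mul_comm, diagPair_Shat A p c lam hl, hg i q hq, diagPair_symm]
    simp [diagPair]
  · intro z
    simp [diagPair]
  · intro y y' _ _ h h' z
    rw [mul_add, diagPair_add_left, h, h', add_zero]
  · intro a y _ h z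
    rw [smul_eq_mul, ← mul_assoc, h]

theorem kn5_th (c : ι → ℂ) (hc : ∀ i, c i ≠ 0) (M : ι → ℕ) (y : Fock ι) (hy : y ∈ kn5_I c M) :
    Th c M y = 0 := by
  have h : kn5_I c M ≤ RingHom.ker (Th c M).toRingHom := by
    unfold kn5_I
    rw [Ideal.span_le]
    rintro y ⟨i, q, hq, rfl⟩
    change Th c M (Shat c i q) = 0
    rw [th_Shat c hc]
    have h1 : esymm (Fin (M i)) ℂ q = 0 := by
      unfold esymm
      rw [Finset.powersetCard_eq_empty.mpr (by simpa using hq), Finset.sum_empty]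
    unfold eB
    rw [h1, map_zero, mul_zero]
  exact h hy

theorem kn5_mod (c : ι → ℂ) (hc : ∀ i, c i ≠ 0) (M : ι → ℕ) (x : Fock ι) :
    ∃ P : BB M, x - aeval (fun r : (Σ i, Fin (M i)) => Shat c r.1 ((r.2 : ℕ) + 1)) P ∈
      kn5_I c M := by
  refine Algebra.adjoin_induction (p := fun x _ => ∃ P : BB M,
    x - aeval (fun r : (Σ i, Fin (M i)) => Shat c r.1 ((r.2 : ℕ) + 1)) P ∈ kn5_I c M)
    ?_ ?_ ?_ ?_ (adjoin_Shat c hc x)
  · rintro y ⟨i, q, hq, rfl⟩
    by_cases h : M i < q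
    · refine ⟨0, ?_⟩
      rw [map_zero, sub_zero]
      exact Ideal.subset_span ⟨i, q, h, rfl⟩
    · refine ⟨X ⟨i, ⟨q - 1, by omega⟩⟩, ?_⟩
      rw [aeval_X]
      change Shat c i q - Shat c i (q - 1 + 1) ∈ _
      rw [Nat.sub_add_cancel hq, sub_self]
      exact Submodule.zero_mem _
  · intro r
    refine ⟨C r, ?_⟩
    rw [algHom_C, sub_self]
    exact Submodule.zero_mem _
  · rintro x y _ _ ⟨P, hP⟩ ⟨Q, hQ⟩
    refine ⟨P + Q, ?_⟩
    rw [map_add, add_sub_add_comm]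
    exact Submodule.add_mem _ hP hQ
  · rintro x y _ _ ⟨P, hP⟩ ⟨Q, hQ⟩
    refine ⟨P * Q, ?_⟩
    rw [map_mul]
    have h : x * y - aeval (fun r : (Σ i, Fin (M i)) => Shat c r.1 ((r.2 : ℕ) + 1)) P *
        aeval (fun r : (Σ i, Fin (M i)) => Shat c r.1 ((r.2 : ℕ) + 1)) Q =
        y * (x - aeval (fun r : (Σ i, Fin (M i)) => Shat c r.1 ((r.2 : ℕ) + 1)) P) +
        aeval (fun r : (Σ i, Fin (M i)) => Shat c r.1 ((r.2 : ℕ) + 1)) P *
          (y - aeval (fun r : (Σ i, Fin (M i)) => Shat c r.1 ((r.2 : ℕ) + 1)) Q) := by ring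
    rw [h]
    exact Submodule.add_mem _ (Ideal.mul_mem_left _ _ hP) (Ideal.mul_mem_left _ _ hQ)

omit [Fintype ι] [DecidableEq ι] in
theorem kn5_gen {σ R : Type} [CommRing R] [Algebra ℂ R] (f : σ → R) (n : ℕ) (x : σ) :
    aeval f ((-1) ^ n * X x : MvPolynomial σ ℂ) = (-1) ^ n * f x := by
  rw [map_mul, map_pow, map_neg, map_one, aeval_X]

theorem kn5_gen2 {σ R : Type} [CommRing R] [Algebra ℂ R] (f : σ → R) (n : σ → ℕ)
    (P : MvPolynomial σ ℂ) :
    aeval f (aeval (fun x => ((-1) ^ n x * X x : MvPolynomial σ ℂ)) P) =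
      aeval (fun x => (-1) ^ n x * f x) P := by
  induction P using MvPolynomial.induction_on with
  | C a =>
    rw [algHom_C, algHom_C, MvPolynomial.algebraMap_eq, algHom_C]
  | add f g hf hg => rw [map_add, map_add, map_add, hf, hg]
  | mul_X g i hf =>
    rw [map_mul, map_mul, map_mul, hf, aeval_X, aeval_X, kn5_gen]

theorem kn5_gen3 {σ : Type} (n : σ → ℕ) (P : MvPolynomial σ ℂ) :
    aeval (fun x => ((-1) ^ n x * X x : MvPolynomial σ ℂ))
      (aeval (fun x => ((-1) ^ n x * X x : MvPolynomial σ ℂ)) P) = P := by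
  rw [kn5_gen2]
  have h : (fun x : σ => ((-1) ^ n x * ((-1) ^ n x * X x) : MvPolynomial σ ℂ)) = X := by
    funext x
    rw [← mul_assoc, ← mul_pow]
    norm_num
  rw [h, aeval_X_left]
  rfl

omit [Fintype ι] [DecidableEq ι] in
theorem kn5_sign (M : ι → ℕ) (P : BB M)
    (h : aeval (fun x : (Σ i, Fin (M i)) =>
      (-1) ^ ((x.2 : ℕ) + 1) * eB M x.1 ((x.2 : ℕ) + 1)) P = 0) : P = 0 := by
  rw [← kn5_gen2 (fun x : (Σ i, Fin (M i)) => eB M x.1 ((x.2 : ℕ) + 1))
    (fun x => (x.2 : ℕ) + 1)] at h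
  have h2 := eB_indep M _ h
  have h3 := kn5_gen3 (fun x : (Σ i, Fin (M i)) => (x.2 : ℕ) + 1) P
  rw [← h3]
  exact (congrArg _ h2).trans (map_zero _)

theorem diagPair_of_th_eq_zero (A : Matrix ι ι ℤ) (p : ℕ) (c : ι → ℂ) (hc : ∀ i, c i ≠ 0)
    (lam : ι → ι → ℂ) (hl : ∀ i j, form A p (bb j) (lam i) = if i = j then c i else 0)
    (M : ι → ℕ) (g : Fock ι) (hg : ∀ i, ∀ q, M i < q → Sop A p (-(lam i)) q g = 0)
    (x : Fock ι) (hx : Th c M x = 0) : diagPair x g = 0 := by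
  obtain ⟨P, hP⟩ := kn5_mod c hc M x
  have h1 := kn5_th c hc M _ hP
  rw [map_sub, hx, zero_sub, neg_eq_zero, ← AlgHom.comp_apply, comp_aeval] at h1
  have h2 : (fun r : (Σ i, Fin (M i)) => Th c M (Shat c r.1 ((r.2 : ℕ) + 1))) =
      fun x : (Σ i, Fin (M i)) => (-1) ^ ((x.2 : ℕ) + 1) * eB M x.1 ((x.2 : ℕ) + 1) := by
    funext r
    rw [th_Shat c hc]
  rw [h2] at h1
  have h3 := kn5_sign M P h1
  rw [h3, map_zero, sub_zero] at hP
  have h4 := kn5_pair A p c lam hl M g hg x hP 1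
  rwa [one_mul] at h4

end

end WPQ.KN
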