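import Pool.Agent.WPQ.KN3

/-! [WPQ-KN6] Averaging over block permutations.

Plan.  `av_th`: `perm g` fixes `pB M i k`, hence fixes `Th c M x`.
`av_lop`: `perm g` commutes with `CI.Lop (Pr ..) k` because the parameters only depend on the block:
`perm g (X r ^ (k+1) * ∂_r b) = X (g r)^(k+1) * ∂_{g r} (perm g b)` (`MvPolynomial.pderiv_rename`;
`perm g` is the renaming by a bijection `Equiv.sigmaCongrRight g`), reindex the sums.
`av_mem`: it suffices to treat monomials `b = ∏_i ∏_r X⟨i,r⟩^(a i r)`; the average is the product over `i`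
of `rename (Sigma.mk i)` of the average of `∏_r X_r^(a i r)` over `Equiv.Perm (Fin (M i))`
(`Finset.prod_univ_sum` / `Fintype.piFinset`), a symmetric polynomial in one block, hence a polynomial
in `esymm` (`MvPolynomial.esymmAlgEquiv`, `esymmAlgHom_surjective`), so in the range of `Th` by
`th_Shat` (`eB M i m = Th ((-1)^m Shat c i m)`; the range of `Th` is a subalgebra). -/

namespace WPQ.KN

open MvPolynomial

noncomputable section

variable {ι : Type} [Fintype ι] [DecidableEq ι]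

/-- The block permutation as a permutation of the index set. -/
def kn6_e (M : ι → ℕ) (g : ∀ i, Equiv.Perm (Fin (M i))) : Equiv.Perm (Σ i, Fin (M i)) :=
  Equiv.sigmaCongrRight g

omit [Fintype ι] [DecidableEq ι] in
theorem kn6_perm (M : ι → ℕ) (g : ∀ i, Equiv.Perm (Fin (M i))) (b : BB M) :
    perm M g b = rename (kn6_e M g) b := rfl

theorem kn6_perm_X (M : ι → ℕ) (g : ∀ i, Equiv.Perm (Fin (M i))) (x : Σ i, Fin (M i)) :
    perm M g (X x) = X (kn6_e M g x) := by
  rw [kn6_perm, rename_X]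

theorem kn6_perm_C (M : ι → ℕ) (g : ∀ i, Equiv.Perm (Fin (M i))) (a : ℂ) :
    perm M g (C a) = C a := by
  rw [kn6_perm, rename_C]

omit [Fintype ι] [DecidableEq ι] in
theorem kn6_fst (M : ι → ℕ) (g : ∀ i, Equiv.Perm (Fin (M i))) (x : Σ i, Fin (M i)) :
    (kn6_e M g x).1 = x.1 := rfl

theorem kn6_perm_pB (M : ι → ℕ) (g : ∀ i, Equiv.Perm (Fin (M i))) (i : ι) (k : ℕ) :
    perm M g (pB M i k) = pB M i k := by
  unfold pB
  rw [map_sum]
  rw [← Equiv.sum_comp (g i) (fun r : Fin (M i) => (X ⟨i, r⟩ : BB M) ^ k)]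
  apply Finset.sum_congr rfl
  intro r _
  rw [map_pow, kn6_perm_X]
  rfl

theorem kn6_perm_th (c : ι → ℂ) (M : ι → ℕ) (g : ∀ i, Equiv.Perm (Fin (M i))) (x : Fock ι) :
    perm M g (Th c M x) = Th c M x := by
  induction x using MvPolynomial.induction_on with
  | C a =>
    rw [algHom_C, MvPolynomial.algebraMap_eq, kn6_perm_C]
  | add f g hf hg => rw [map_add, map_add, hf, hg]
  | mul_X f i hf =>
    rw [map_mul, map_mul, hf]
    congr 1
    unfold Th
    rw [aeval_X, map_mul, kn6_perm_C, kn6_perm_pB]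

theorem kn6_card (M : ι → ℕ) : (Fintype.card (∀ i, Equiv.Perm (Fin (M i))) : ℂ) ≠ 0 := by
  have h : 0 < Fintype.card (∀ i, Equiv.Perm (Fin (M i))) := Fintype.card_pos
  exact_mod_cast h.ne'

theorem kn6_av (M : ι → ℕ) (b : BB M) : Av M b =
    ((Fintype.card (∀ i, Equiv.Perm (Fin (M i))) : ℂ)⁻¹) •
      ∑ g : (∀ i, Equiv.Perm (Fin (M i))), perm M g b := by
  unfold Av
  rw [LinearMap.smul_apply, LinearMap.sum_apply]
  rfl

theorem av_th (c : ι → ℂ) (M : ι → ℕ) (x : Fock ι) : Av M (Th c M x) = Th c M x := by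
  rw [kn6_av, Finset.sum_congr rfl (fun g _ => kn6_perm_th c M g x), Finset.sum_const,
    Finset.card_univ, ← Nat.cast_smul_eq_nsmul ℂ, smul_smul, inv_mul_cancel₀ (kn6_card M), one_smul]

theorem kn6_vf (M : ι → ℕ) (g : ∀ i, Equiv.Perm (Fin (M i))) (k : ℕ) (b : BB M) :
    perm M g (CI.vf k b) = CI.vf k (perm M g b) := by
  have h : ∀ b : BB M, CI.vf k b = ∑ r, X r ^ (k + 1) * pderiv (R := ℂ) r b := by
    intro b
    unfold CI.vf
    rw [LinearMap.sum_apply]
    rfl
  rw [h, h, map_sum, ← Equiv.sum_comp (kn6_e M g)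
    (fun r => X r ^ (k + 1) * pderiv (R := ℂ) r (perm M g b))]
  apply Finset.sum_congr rfl
  intro r _
  rw [map_mul, map_pow, kn6_perm_X, kn6_perm, kn6_perm,
    pderiv_rename (kn6_e M g).injective]

theorem kn6_hh (M : ι → ℕ) (g : ∀ i, Equiv.Perm (Fin (M i))) (k : ℕ) (r t : Σ i, Fin (M i)) :
    perm M g (CI.hh r t k) = CI.hh (kn6_e M g r) (kn6_e M g t) k := by
  unfold CI.hh
  rw [map_sum]
  apply Finset.sum_congr rfl
  intro i _
  rw [map_mul, map_pow, map_pow, kn6_perm_X, kn6_perm_X]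

theorem kn6_mul (A : Matrix ι ι ℤ) (p : ℕ) (hA : ∀ i j, A i j = A j i) (s c : ι → ℂ) (M : ι → ℕ)
    (g : ∀ i, Equiv.Perm (Fin (M i))) (k : ℕ) :
    perm M g (CI.mul (Pr A p hA s c M) k) = CI.mul (Pr A p hA s c M) k := by
  unfold CI.mul
  rw [map_add, map_sum, map_mul, kn6_perm_C, map_sum]
  congr 1
  · rw [← Equiv.sum_comp (kn6_e M g) (fun r => C (((k : ℂ) + 1) * (Pr A p hA s c M).D r +
      (Pr A p hA s c M).κ r) * (X r : BB M) ^ k)]
    apply Finset.sum_congr rfl
    intro r _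
    rw [map_mul, kn6_perm_C, map_pow, kn6_perm_X]
    rfl
  · congr 1
    rw [← Equiv.sum_comp (kn6_e M g) (fun r => ∑ t ∈ Finset.univ.erase r,
      C ((Pr A p hA s c M).η r t) * (CI.hh r t k : BB M))]
    apply Finset.sum_congr rfl
    intro r _
    rw [map_sum]
    refine Finset.sum_bij (fun t _ => kn6_e M g t) ?_ ?_ ?_ ?_
    · intro t ht
      rw [Finset.mem_erase] at ht ⊢
      exact ⟨fun h => ht.1 ((kn6_e M g).injective h), Finset.mem_univ _⟩
    · intro t _ u _ h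
      exact (kn6_e M g).injective h
    · intro t ht
      rw [Finset.mem_erase] at ht
      refine ⟨(kn6_e M g).symm t, ?_, Equiv.apply_symm_apply _ _⟩
      rw [Finset.mem_erase]
      refine ⟨?_, Finset.mem_univ _⟩
      intro h
      apply ht.1
      rw [← h, Equiv.apply_symm_apply]
    · intro t _
      rw [map_mul, kn6_perm_C, kn6_hh]
      rfl

theorem kn6_lop (A : Matrix ι ι ℤ) (p : ℕ) (hA : ∀ i j, A i j = A j i) (s c : ι → ℂ) (M : ι → ℕ)
    (g : ∀ i, Equiv.Perm (Fin (M i))) (k : ℕ) (b : BB M) :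
    perm M g (CI.Lop (Pr A p hA s c M) k b) = CI.Lop (Pr A p hA s c M) k (perm M g b) := by
  have h : ∀ b : BB M, CI.Lop (Pr A p hA s c M) k b =
      CI.vf k b + CI.mul (Pr A p hA s c M) k * b := by
    intro b
    rfl
  rw [h, h, map_add, map_mul, kn6_vf, kn6_mul]

theorem av_lop (A : Matrix ι ι ℤ) (p : ℕ) (hA : ∀ i j, A i j = A j i) (s c : ι → ℂ) (M : ι → ℕ)
    (k : ℕ) (b : BB M) :
    Av M (CI.Lop (Pr A p hA s c M) k b) = CI.Lop (Pr A p hA s c M) k (Av M b) := by
  rw [kn6_av, kn6_av, map_smul, map_sum]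
  congr 1
  apply Finset.sum_congr rfl
  intro g _
  rw [kn6_lop]

/-- The renaming of a symmetric polynomial of one block lies in the range of `Th`. -/
theorem kn6_sym (c : ι → ℂ) (hc : ∀ i, c i ≠ 0) (M : ι → ℕ) (i : ι)
    (Q : MvPolynomial (Fin (M i)) ℂ) (hQ : Q.IsSymmetric) :
    (rename (Sigma.mk i) Q : BB M) ∈ (Th c M).range := by
  have h0 : ∀ m, eB M i m ∈ (Th c M).range := by
    intro m
    refine ⟨(-1) ^ m * Shat c i m, ?_⟩
    change Th c M ((-1) ^ m * Shat c i m) = _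
    rw [map_mul, map_pow, map_neg, map_one, th_Shat c hc, ← mul_assoc, ← mul_pow]
    norm_num
  obtain ⟨P, hP⟩ := esymmAlgHom_surjective ℂ (σ := Fin (M i)) (n := M i) (by simp)
    (⟨Q, (mem_symmetricSubalgebra Q).2 hQ⟩ : symmetricSubalgebra (Fin (M i)) ℂ)
  have h1 : aeval (fun j : Fin (M i) => esymm (Fin (M i)) ℂ ((j : ℕ) + 1)) P = Q := by
    rw [← esymmAlgHom_apply, hP]
  rw [← h1]
  clear hP h1 hQ
  induction P using MvPolynomial.induction_on with
  | C a =>
    rw [algHom_C, MvPolynomial.algebraMap_eq, rename_C, ← MvPolynomial.algebraMap_eq]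
    exact Subalgebra.algebraMap_mem _ _
  | add f g hf hg =>
    rw [map_add, map_add]
    exact Subalgebra.add_mem _ hf hg
  | mul_X f j hf =>
    rw [map_mul, map_mul, aeval_X]
    exact Subalgebra.mul_mem _ hf (h0 _)

/-- The sum of a monomial of one block over all permutations. -/
def kn6_Q (n : ℕ) (a : Fin n → ℕ) : MvPolynomial (Fin n) ℂ :=
  ∑ h : Equiv.Perm (Fin n), ∏ r : Fin n, X (h r) ^ (a r)

omit [Fintype ι] [DecidableEq ι] in
theorem kn6_Q_sym (n : ℕ) (a : Fin n → ℕ) : (kn6_Q n a).IsSymmetric := by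
  intro e
  unfold kn6_Q
  rw [map_sum, ← Equiv.sum_comp (Equiv.mulLeft e)
    (fun h : Equiv.Perm (Fin n) => ∏ r : Fin n, (X (h r) : MvPolynomial (Fin n) ℂ) ^ (a r))]
  apply Finset.sum_congr rfl
  intro h _
  rw [map_prod]
  apply Finset.prod_congr rfl
  intro r _
  rw [map_pow, rename_X]
  rfl

theorem kn6_mono (M : ι → ℕ) (a : (Σ i, Fin (M i)) → ℕ) :
    ∑ g : (∀ i, Equiv.Perm (Fin (M i))), perm M g (∏ x, (X x : BB M) ^ a x) =
      ∏ i, (rename (Sigma.mk i) (kn6_Q (M i) (fun r => a ⟨i, r⟩)) : BB M) := by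
  have h1 : ∀ i, (rename (Sigma.mk i) (kn6_Q (M i) (fun r => a ⟨i, r⟩)) : BB M) =
      ∑ h : Equiv.Perm (Fin (M i)), ∏ r : Fin (M i), (X ⟨i, h r⟩ : BB M) ^ a ⟨i, r⟩ := by
    intro i
    unfold kn6_Q
    rw [map_sum]
    apply Finset.sum_congr rfl
    intro h _
    rw [map_prod]
    apply Finset.prod_congr rfl
    intro r _
    rw [map_pow, rename_X]
  rw [Finset.prod_congr rfl (fun i _ => h1 i), Finset.prod_univ_sum, Fintype.piFinset_univ]
  apply Finset.sum_congr rfl
  intro g _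
  rw [map_prod, ← Finset.univ_sigma_univ, Finset.prod_sigma]
  apply Finset.prod_congr rfl
  intro i _
  apply Finset.prod_congr rfl
  intro r _
  rw [map_pow, kn6_perm_X]
  rfl

theorem av_mem (c : ι → ℂ) (hc : ∀ i, c i ≠ 0) (M : ι → ℕ) (b : BB M) :
    ∃ x : Fock ι, Th c M x = Av M b := by
  have key : Av M b ∈ Subalgebra.toSubmodule (Th c M).range := by
    rw [MvPolynomial.as_sum b, map_sum]
    apply Submodule.sum_mem
    intro m _
    have h1 : (monomial m (coeff m b) : BB M) = coeff m b • ∏ x, (X x : BB M) ^ m x := by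
      rw [monomial_eq, ← smul_eq_C_mul, Finsupp.prod_fintype _ _ (fun x => pow_zero _)]
    rw [h1, map_smul, kn6_av]
    apply Submodule.smul_mem
    apply Submodule.smul_mem
    rw [kn6_mono]
    rw [Subalgebra.mem_toSubmodule]
    apply Subalgebra.prod_mem
    intro i _
    exact kn6_sym c hc M i _ (kn6_Q_sym _ _)
  obtain ⟨x, hx⟩ := key
  exact ⟨x, hx⟩

end

end WPQ.KN
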