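import Pool.Agent.WPQ.KN2
import Pool.Agent.WPQ.KN5
import Pool.Agent.WPQ.KN6

/-! [WPQ-KN7] The common kernel vanishes in large degrees.

Plan.  Take `d0` from `CI.coinv` for `Pr A p hA.symm s c M`.  Let `g` be of degree `d ≥ d0`.  By
`diagPair_nondeg` it suffices that `diagPair x g = 0` for `x` of degree `d`.  `Th c M x` is homogeneous of
degree `d` (`X (i,k)` has weight `k+1` and goes to a form of degree `k+1`), so `Th x ∈ CI.Im`, i.e.
`Th x = ∑ Lop k b_k` (finite sum, `k ≥ 2`); apply `Av`: `Th x = ∑ Lop k (Av b_k) = ∑ Lop k (Th x_k) =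
Th (∑ Lhat k x_k)`.  By `diagPair_of_th_eq_zero`:
`diagPair x g = ∑ diagPair (Lhat k x_k) g = ∑ diagPair x_k (Lop s k g) = 0`. -/

namespace WPQ.KN

open MvPolynomial

noncomputable section

variable {ι : Type} [Fintype ι] [DecidableEq ι]

omit [Fintype ι] [DecidableEq ι] in
theorem kn7_homog (c : ι → ℂ) (M : ι → ℕ) (x : Fock ι) (d : ℕ) (hx : FH x d) :
    (Th c M x).IsHomogeneous d := by
  have h0 : ∀ y : ι × ℕ, (C (-(c y.1)⁻¹) * pB M y.1 (y.2 + 1) : BB M).IsHomogeneous (y.2 + 1) := by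
    intro y
    have h1 : (pB M y.1 (y.2 + 1) : BB M).IsHomogeneous (y.2 + 1) := by
      unfold pB
      apply IsHomogeneous.sum
      intro r _
      have h2 := (isHomogeneous_X ℂ (⟨y.1, r⟩ : Σ i, Fin (M i))).pow (y.2 + 1)
      rwa [one_mul] at h2
    have h2 := (isHomogeneous_C (Σ i, Fin (M i)) (-(c y.1)⁻¹)).mul h1
    rwa [zero_add] at h2
  rw [MvPolynomial.as_sum x, map_sum]
  apply IsHomogeneous.sum
  intro m hm
  have h1 : Finsupp.weight (wF (ι := ι)) m = d := hx (MvPolynomial.mem_support_iff.1 hm)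
  have h2 : Th c M (monomial m (coeff m x)) =
      C (coeff m x) * m.prod fun y e => (C (-(c y.1)⁻¹) * pB M y.1 (y.2 + 1) : BB M) ^ e := by
    unfold Th
    rw [aeval_monomial, MvPolynomial.algebraMap_eq]
  rw [h2]
  have h3 : (m.prod fun y e => (C (-(c y.1)⁻¹) * pB M y.1 (y.2 + 1) : BB M) ^ e).IsHomogeneous
      (∑ y ∈ m.support, (y.2 + 1) * m y) := by
    unfold Finsupp.prod
    apply IsHomogeneous.prod
    intro y _
    exact (h0 y).pow (m y)
  have h4 : ∑ y ∈ m.support, (y.2 + 1) * m y = d := by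
    rw [← h1, Finsupp.weight_apply, Finsupp.sum]
    apply Finset.sum_congr rfl
    intro y _
    unfold wF
    rw [smul_eq_mul, mul_comm]
  rw [h4] at h3
  have h5 := (isHomogeneous_C (Σ i, Fin (M i)) (coeff m x)).mul h3
  rwa [zero_add] at h5

theorem kn7_im (A : Matrix ι ι ℤ) (hA : IsADE A) (p : ℕ) (hp : 1 ≤ p) (s : ι → ℂ) (c : ι → ℂ)
    (hc : ∀ i, c i ≠ 0) (M : ι → ℕ) (g : Fock ι)
    (hL : ∀ k : ℕ, 2 ≤ k → Lop A p s k g = 0)
    (w : BB M) (hw : w ∈ CI.Im (Pr A p hA.symm s c M)) :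
    ∃ y : Fock ι, Th c M y = Av M w ∧ diagPair y g = 0 := by
  unfold CI.Im at hw
  refine Submodule.span_induction (p := fun w _ =>
    ∃ y : Fock ι, Th c M y = Av M w ∧ diagPair y g = 0) ?_ ?_ ?_ ?_ hw
  · rintro w ⟨k, hk, b, rfl⟩
    obtain ⟨x, hx⟩ := av_mem c hc M b
    refine ⟨Lhat A p s k x, ?_, ?_⟩
    · rw [th_lhat A hA p hp s c hc M k hk, hx, av_lop]
    · rw [← lhat A p s k (by omega), hL k hk, diagPair_symm]
      simp [diagPair]
  · refine ⟨0, ?_, ?_⟩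
    · rw [map_zero, map_zero]
    · simp [diagPair]
  · rintro w w' _ _ ⟨y, hy, hy'⟩ ⟨z, hz, hz'⟩
    refine ⟨y + z, ?_, ?_⟩
    · rw [map_add, map_add, hy, hz]
    · rw [diagPair_add_left, hy', hz', add_zero]
  · rintro a w _ ⟨y, hy, hy'⟩
    refine ⟨a • y, ?_, ?_⟩
    · rw [map_smul, map_smul, hy]
    · rw [diagPair_smul_left, hy', mul_zero]

theorem kn (A : Matrix ι ι ℤ) (hA : IsADE A) (p : ℕ) (hp : 1 ≤ p) (s : ι → ℂ) (c : ι → ℂ)
    (hc : ∀ i, c i ≠ 0) (lam : ι → ι → ℂ)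
    (hl : ∀ i j, form A p (bb j) (lam i) = if i = j then c i else 0) (M : ι → ℕ) :
    ∃ d0 : ℕ, ∀ d ≥ d0, ∀ g : Fock ι, FH g d →
      (∀ i, ∀ q, M i < q → Sop A p (-(lam i)) q g = 0) →
      (∀ k : ℕ, 2 ≤ k → Lop A p s k g = 0) → g = 0 := by
  obtain ⟨d0, hd0⟩ := CI.coinv (Σ i, Fin (M i)) (Pr A p hA.symm s c M)
  refine ⟨d0, fun d hd g hgd hg hL => ?_⟩
  apply diagPair_nondeg g d hgd
  intro x hx
  obtain ⟨y, hy, hy'⟩ := kn7_im A hA p hp s c hc M g hL _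
    (hd0 d hd _ (kn7_homog c M x d hx))
  rw [av_th] at hy
  have h1 : Th c M (x - y) = 0 := by rw [map_sub, hy, sub_self]
  have h2 := diagPair_of_th_eq_zero A p c hc lam hl M g hg _ h1
  have h3 : x = (x - y) + y := by ring
  rw [h3, diagPair_add_left, h2, hy', add_zero]

end

end WPQ.KN
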