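import Pool.Agent.WPQ.RD1
import Pool.Agent.WPQ.KN7

/-! [WPQ-RD2] The reduction: large weights are in the image.

Plan.  Let `Δ_i = wtExp (-lam i)`, `c i = p D`, `M_i = (2Δ_i - 1 - p D nu_i)` (as a natural number).
`sing_bound`: for `s ≥ 2Δ_i - 1`, `e^{-λ_i}_s (single nu g) = ± single _ (vop (-λ_i) (-s-1-formZ (-λ_i) nu) g)`,
`formZ (lam i) nu = p D nu_i`; so `vop (-λ_i) m g = 0` for all `m ≤ p D nu_i - 2Δ_i`.  Let `q` be maximal
with `Sop (-λ_i) q g ≠ 0` (`Sop_zero`, `Sop_eq_zero`); `vop (-λ_i) (-q) g = Sop (-λ_i) q g ≠ 0`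
(`vop_eq`), so `-q > p D nu_i - 2Δ_i`, i.e. `q ≤ M_i`, in particular `0 ≤ M_i`.
`img_eq`: `nu_i ≥ 0` (`dom_nonneg`) and `p D nu_i ≤ 2Δ_i - 1`: finitely many `nu`.  For each of them
`KN.kn` with `s = toC nu`, `lam = fun i => toC (lam i)` (`form (bb j) (toC (lam i)) = p pr A j (lam i)`),
`M` as above gives `d0 nu`; let `N0` be a bound for all `d0 nu + wtExp nu`, `2` and all `Δ_i`.  If
`n > N0` and `Img n ≠ Wn n`, `sing_exists` and `sing_dom` give `nu`, `g`, `d` with
`d = n - wtExp nu ≥ d0 nu`; `LS zero k (single nu g) = 0` means `Lop A p (toC nu) k g = 0`; so `g = 0`. -/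

namespace WPQ

open MvPolynomial AF

noncomputable section

variable {ι : Type} [Fintype ι] [DecidableEq ι] {A : Matrix ι ι ℤ} {p : ℕ}

theorem rd2_dot_zero (γ : ι → ℤ) : (Shift.zero A p).dot γ = 0 := by
  simp [Shift.dot, Shift.zero]

theorem rd2_formZ_neg (hA : IsADE A) (lam : ι → ι → ℤ) (D : ℤ)
    (hlam : ∀ i j, pr A j (lam i) = if i = j then D else 0) (nu : ι → ℤ) (i : ι) :
    formZ A p (-lam i) nu = -((p : ℤ) * D * nu i) := by
  have h1 : ∀ j, ∑ k, (-lam i) k * A k j = -(if i = j then D else 0) := by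
    intro j
    rw [← hlam i j]
    unfold pr
    rw [← Finset.sum_neg_distrib]
    refine Finset.sum_congr rfl ?_
    intro k _
    rw [hA.symm k j, Pi.neg_apply]
    ring
  unfold formZ
  rw [Finset.sum_comm]
  have h2 : ∀ j, ∑ k, (-lam i) k * A k j * nu j = -(if i = j then D else 0) * nu j := by
    intro j
    rw [← Finset.sum_mul, h1 j]
  rw [Finset.sum_congr rfl fun j _ => h2 j]
  have h3 : ∑ j, -(if i = j then D else 0) * nu j = -(D * nu i) := by
    rw [Finset.sum_eq_single i]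
    · rw [if_pos rfl]
      ring
    · intro j _ hj
      rw [if_neg (Ne.symm hj)]
      ring
    · intro hi
      exact absurd (Finset.mem_univ i) hi
  rw [h3]
  ring

theorem rd2_form (lam : ι → ι → ℤ) (D : ℤ)
    (hlam : ∀ i j, pr A j (lam i) = if i = j then D else 0) (i j : ι) :
    form A p (bb j) (toC (lam i)) = if i = j then (p : ℂ) * (D : ℂ) else 0 := by
  have h1 : form A p (bb j) (toC (lam i)) = (p : ℂ) * ((pr A j (lam i) : ℤ) : ℂ) := by
    unfold form pr bb toC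
    congr 1
    rw [Finset.sum_eq_single j]
    · rw [Int.cast_sum]
      refine Finset.sum_congr rfl ?_
      intro b _
      rw [Pi.single_eq_same, one_mul, Int.cast_mul]
    · intro a _ ha
      refine Finset.sum_eq_zero ?_
      intro b _
      rw [Pi.single_eq_of_ne ha, zero_mul, zero_mul]
    · intro hi
      exact absurd (Finset.mem_univ j) hi
  rw [h1, hlam i j]
  by_cases h : i = j
  · rw [if_pos h, if_pos h]
  · rw [if_neg h, if_neg h, Int.cast_zero, mul_zero]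

theorem rd2_toC_neg (γ : ι → ℤ) : toC (-γ) = -(toC γ) := by
  funext i
  simp [toC]

theorem rd2_max (ν : ι → ℂ) (g : Fock ι) (d : ℕ) (hg : FH g d) (q0 : ℕ)
    (h0 : Sop A p ν q0 g ≠ 0) :
    ∃ q, q0 ≤ q ∧ Sop A p ν q g ≠ 0 ∧ ∀ r, q < r → Sop A p ν r g = 0 := by
  classical
  have hle : q0 ≤ d := by
    by_contra hlt
    exact h0 (Sop_eq_zero A p ν q0 d g hg (by omega))
  refine ⟨Nat.findGreatest (fun q => Sop A p ν q g ≠ 0) d, ?_, ?_, ?_⟩
  · exact Nat.le_findGreatest hle h0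
  · exact Nat.findGreatest_spec (P := fun q => Sop A p ν q g ≠ 0) hle h0
  · intro r hr
    by_cases hrd : r ≤ d
    · have := Nat.findGreatest_is_greatest hr hrd
      exact not_not.1 this
    · exact Sop_eq_zero A p ν r d g hg (by omega)

theorem rd2_vop_top (ν : ι → ℂ) (g : Fock ι) (q : ℕ)
    (h : ∀ r, q < r → Sop A p ν r g = 0) : vop A p ν (-(q : ℤ)) g = Sop A p ν q g := by
  rw [vop_eq A p ν (-(q : ℤ)) g q h, Finset.sum_range_succ, Finset.sum_eq_zero, zero_add]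
  · have e : -(q : ℤ) + (q : ℤ) = ((0 : ℕ) : ℤ) := by simp
    rw [e, expCoeffZ_nat, expCoeff_zero, one_mul]
  · intro r hr
    have hr' : r < q := Finset.mem_range.1 hr
    rw [expCoeffZ_neg ν (-(q : ℤ) + (r : ℤ)) (by omega), zero_mul]

theorem rd2_LS_single (nu : ι → ℤ) (g : Fock ι) (k : ℤ) :
    LS (Shift.zero A p) k (Finsupp.single nu g) = Finsupp.single nu (Lop A p (toC nu) k g) := by
  have e : (Shift.zero A p).s + toC nu = toC nu := by
    show (0 : ι → ℂ) + toC nu = toC nu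
    rw [zero_add]
  unfold LS
  rw [Finsupp.lsum_single, LinearMap.comp_apply, Finsupp.lsingle_apply, e]

theorem sing_bound (hA : IsADE A) (hp : 2 ≤ p) (ε : Cocycle A p) (lam : ι → ι → ℤ) (D : ℤ)
    (hD : 0 < D) (hlam : ∀ i j, pr A j (lam i) = if i = j then D else 0)
    (nu : ι → ℤ) (g : Fock ι) (d : ℕ) (hg : FH g d) (h0 : g ≠ 0)
    (hs : Sing ε lam (Finsupp.single nu g)) (i : ι) :
    (p : ℤ) * D * nu i ≤ 2 * wtExp A p (-lam i) - 1 ∧
      ∀ q : ℕ, 2 * wtExp A p (-lam i) - 1 - (p : ℤ) * D * nu i < q →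
        Sop A p (toC (-lam i)) q g = 0 := by
  -- the vanishing of the vertex operator
  have hvop : ∀ m : ℤ, m ≤ (p : ℤ) * D * nu i - 2 * wtExp A p (-lam i) →
      vop A p (toC (-lam i)) m g = 0 := by
    intro m hm
    have h1 := hs.1 i [] ((p : ℤ) * D * nu i - 1 - m) (by omega)
    have h2 : expS ε (Shift.zero A p) (-lam i) ((p : ℤ) * D * nu i - 1 - m)
        (Finsupp.single nu g) = 0 := h1
    rw [expS_single, rd2_dot_zero, rd2_formZ_neg hA lam D hlam nu i] at h2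
    rw [Finsupp.single_eq_zero] at h2
    have h3 : -((p : ℤ) * D * nu i - 1 - m) - 1 - 0 - -((p : ℤ) * D * nu i) = m := by ring
    rw [h3] at h2
    rcases smul_eq_zero.1 h2 with h4 | h4
    · exfalso
      have h5 : ((ε.ε (-lam i) nu : ℤ) : ℂ) ≠ 0 := by
        have h6 : ((ε.ε (-lam i) nu : ℤˣ) : ℤ) ≠ 0 := Units.ne_zero _
        exact_mod_cast h6
      exact h5 h4
    · exact h4
  have key : ∀ q : ℕ, 2 * wtExp A p (-lam i) - 1 - (p : ℤ) * D * nu i < q →
        Sop A p (toC (-lam i)) q g = 0 := by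
    intro q0 hq0
    by_contra hne
    obtain ⟨q, hq, hq1, hq2⟩ := rd2_max (toC (-lam i)) g d hg q0 hne
    have h1 := rd2_vop_top (A := A) (p := p) (toC (-lam i)) g q hq2
    have h2 := hvop (-(q : ℤ)) (by omega)
    rw [h2] at h1
    exact hq1 h1.symm
  refine ⟨?_, key⟩
  by_contra hlt
  have h1 := key 0 (by push_cast; omega)
  rw [Sop_zero] at h1
  exact h0 h1

theorem img_eq (hA : IsADE A) (hp : 2 ≤ p) (ε : Cocycle A p) (lam : ι → ι → ℤ) (D : ℤ)
    (hD : 0 < D) (hlam : ∀ i j, pr A j (lam i) = if i = j then D else 0) :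
    ∃ N0 : ℤ, 2 ≤ N0 ∧ (∀ i, wtExp A p (-lam i) ≤ N0) ∧
      ∀ n, N0 < n → Img ε lam n = Wn A p n := by
  classical
  have hdom : ∀ i, Dom A (lam i) := by
    intro i j
    rw [hlam i j]
    split_ifs
    · exact hD.le
    · exact le_refl 0
  have hc : (p : ℂ) * (D : ℂ) ≠ 0 := by
    refine mul_ne_zero ?_ ?_
    · exact_mod_cast (by omega : p ≠ 0)
    · exact_mod_cast hD.ne'
  have hkn : ∀ nu : ι → ℤ, ∃ d0 : ℕ, ∀ d ≥ d0, ∀ g : Fock ι, FH g d →
      (∀ i, ∀ q, (2 * wtExp A p (-lam i) - 1 - (p : ℤ) * D * nu i).toNat < q →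
        Sop A p (-(toC (lam i))) q g = 0) →
      (∀ k : ℕ, 2 ≤ k → Lop A p (toC nu) k g = 0) → g = 0 := by
    intro nu
    exact KN.kn A hA p (by omega) (toC nu) (fun _ => (p : ℂ) * (D : ℂ)) (fun _ => hc)
      (fun i => toC (lam i)) (fun i j => rd2_form lam D hlam i j)
      (fun i => (2 * wtExp A p (-lam i) - 1 - (p : ℤ) * D * nu i).toNat)
  choose d0 hd0 using hkn
  set Fs : Finset (ι → ℤ) := Finset.Icc 0 (fun i => 2 * wtExp A p (-lam i) - 1) with hFs
  have hnn1 : 0 ≤ ∑ nu ∈ Fs, |(d0 nu : ℤ) + wtExp A p nu| :=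
    Finset.sum_nonneg fun _ _ => abs_nonneg _
  have hnn2 : 0 ≤ ∑ i, |wtExp A p (-lam i)| := Finset.sum_nonneg fun _ _ => abs_nonneg _
  refine ⟨2 + ∑ nu ∈ Fs, |(d0 nu : ℤ) + wtExp A p nu| + ∑ i, |wtExp A p (-lam i)|, ?_, ?_, ?_⟩
  · omega
  · intro i
    have h1 : |wtExp A p (-lam i)| ≤ ∑ i, |wtExp A p (-lam i)| :=
      Finset.single_le_sum (f := fun i => |wtExp A p (-lam i)|) (fun _ _ => abs_nonneg _)
        (Finset.mem_univ i)
    have h2 := le_abs_self (wtExp A p (-lam i))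
    omega
  · intro n hn
    by_contra hne
    obtain ⟨t, ht, ht0, hS⟩ := sing_exists hA hp ε lam hdom n hne
    obtain ⟨nu, g, d, hnu, hg0, hFH, hdn, hSing⟩ := sing_dom hA hp ε lam n t ht ht0 hS
    have hb := fun i => sing_bound hA hp ε lam D hD hlam nu g d hFH hg0 hSing i
    have hnn : ∀ i, 0 ≤ nu i := fun i => dom_nonneg hA nu hnu i
    have hpD : 1 ≤ (p : ℤ) * D := by
      have h1 : (1 : ℤ) ≤ p := by exact_mod_cast (by omega : 1 ≤ p)
      nlinarith
    have hmem : nu ∈ Fs := by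
      rw [hFs, Finset.mem_Icc]
      refine ⟨fun i => hnn i, fun i => ?_⟩
      have h1 := (hb i).1
      have h2 : nu i ≤ (p : ℤ) * D * nu i := by
        have h3 := hnn i
        nlinarith
      show nu i ≤ 2 * wtExp A p (-lam i) - 1
      omega
    have hle : |(d0 nu : ℤ) + wtExp A p nu| ≤ ∑ nu ∈ Fs, |(d0 nu : ℤ) + wtExp A p nu| :=
      Finset.single_le_sum (f := fun nu => |(d0 nu : ℤ) + wtExp A p nu|)
        (fun _ _ => abs_nonneg _) hmem
    have hle2 := le_abs_self ((d0 nu : ℤ) + wtExp A p nu)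
    have hdge : d ≥ d0 nu := by
      have : (d0 nu : ℤ) ≤ d := by omega
      exact_mod_cast this
    refine hg0 (hd0 nu d hdge g hFH ?_ ?_)
    · intro i q hq
      rw [← rd2_toC_neg]
      exact (hb i).2 q (by omega)
    · intro k hk
      have h1 := hSing.2 k hk
      rw [rd2_LS_single, Finsupp.single_eq_zero] at h1
      exact h1

end

end WPQ
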