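import Pool.Agent.WPQ.CE3
import Pool.Agent.WPQ.RD2

/-! [WPQ-CE4] The reduction with an effective bound `C1 p^2`.

Plan.  `kn_eff` is the proof of `KN.kn` (KN7) with `CI.coinv_eff` instead of `CI.coinv`:
`card (Σ i, Fin (M i)) = ∑ M i`.
`Adm_Pr`: with `c i = p D`, `s = toC nu`: `Pr.κ r = -(pr nu)/D - ∑_t A/(p D²)` and
`Pr.η = A/(p D²)`, `|A| ≤ 2`; take `k = e = 0` and the crude bound with `Mt = ∑ M i`:
`∑‖κ‖ + ∑‖η‖ ≤ Mt * K / D + 4 Mt² / (p D²)` where `|pr A i nu| ≤ K`.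
`img_eq_eff`: as `img_eq` (RD2) with everything uniform in `p`: `wtExp A p (-lam i) ≤ K1 p`
(`(p/2)|λ|² + (p-1) ht λ`), `0 ≤ nu i` (`dom_nonneg`), `p D nu i ≤ 2 K1 p`, so `nu i ≤ 2 K1 / D`,
`|pr A i nu| ≤ K2`, `M i ≤ 2 K1 p`, so `Adm` bound `B ≤ K3 p` and degrees are `≤ K3 p + (K4 p + 1)^2`;
`wtExp A p nu ≤ K5 p`.  All constants depend only on `A`, `lam`, `D`. -/

namespace WPQ

open MvPolynomial AF

noncomputable section

variable {ι : Type} [Fintype ι] [DecidableEq ι]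

theorem kn_eff (A : Matrix ι ι ℤ) (hA : IsADE A) (p : ℕ) (hp : 1 ≤ p) (s : ι → ℂ) (c : ι → ℂ)
    (hc : ∀ i, c i ≠ 0) (lam : ι → ι → ℂ)
    (hl : ∀ i j, form A p (bb j) (lam i) = if i = j then c i else 0) (M : ι → ℕ) (B : ℝ)
    (hB : CI.Adm (KN.Pr A p hA.symm s c M) B) (d : ℕ) (hd : B + ((∑ i, (M i : ℝ)) + 1) ^ 2 < d)
    (g : Fock ι) (hg : FH g d) (h1 : ∀ i, ∀ q, M i < q → Sop A p (-(lam i)) q g = 0)
    (h2 : ∀ k : ℕ, 2 ≤ k → Lop A p s k g = 0) : g = 0 := by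
  have hcard : Fintype.card (Σ i, Fin (M i)) = ∑ i, M i := by
    rw [Fintype.card_sigma]
    simp only [Fintype.card_fin]
  have hd1 : B + (((Fintype.card (Σ i, Fin (M i)) : ℕ) : ℝ) + 1) ^ 2 < d := by
    rw [hcard, Nat.cast_sum]
    exact hd
  apply KN.diagPair_nondeg g d hg
  intro x hx
  obtain ⟨y, hy, hy'⟩ := KN.kn7_im A hA p hp s c hc M g h2 _
    (CI.coinv_eff _ (Σ i, Fin (M i)) rfl (KN.Pr A p hA.symm s c M) B hB d hd1 _
      (KN.kn7_homog c M x d hx))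
  rw [KN.av_th] at hy
  have h3 : KN.Th c M (x - y) = 0 := by rw [map_sub, hy, sub_self]
  have h4 := KN.diagPair_of_th_eq_zero A p c hc lam hl M g h1 _ h3
  have h5 : x = (x - y) + y := by ring
  rw [h5, KN.diagPair_add_left, h4, hy', add_zero]

omit [Fintype ι] in
theorem ce4_absA [Fintype ι] (A : Matrix ι ι ℤ) (hA : IsADE A) (i j : ι) : |A i j| ≤ 2 := by
  by_cases h : i = j
  · subst h
    rw [hA.diag]
    norm_num
  · rcases hA.off i j h with h1 | h1 <;> rw [h1] <;> norm_num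

theorem ce4_form (A : Matrix ι ι ℤ) (p : ℕ) (j : ι) (nu : ι → ℤ) :
    form A p (bb j) (toC nu) = (p : ℂ) * ((pr A j nu : ℤ) : ℂ) := by
  unfold form pr bb toC
  congr 1
  rw [Finset.sum_eq_single j]
  · rw [Int.cast_sum]
    refine Finset.sum_congr rfl ?_
    intro b _
    rw [Pi.single_eq_same, one_mul, Int.cast_mul]
  · intro a _ ha
    refine Finset.sum_eq_zero ?_
    intro b _
    rw [Pi.single_eq_of_ne ha, zero_mul, zero_mul]
  · intro hi
    exact absurd (Finset.mem_univ j) hi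

omit [DecidableEq ι] in
theorem ce4_wt (A : Matrix ι ι ℤ) (p : ℕ) (hp : 1 ≤ p) (γ : ι → ℤ) :
    |wtExp A p γ| ≤ (p : ℤ) * (|∑ i, ∑ j, γ i * A i j * γ j| + |∑ i, γ i|) := by
  unfold wtExp formZ
  have hp' : (1 : ℤ) ≤ p := by exact_mod_cast hp
  set Q := ∑ i, ∑ j, γ i * A i j * γ j with hQ
  set H := ∑ i, γ i with hH
  have h0 : |(p : ℤ) * Q| = p * |Q| := by
    rw [abs_mul, abs_of_nonneg (by omega : (0 : ℤ) ≤ p)]
  have h1 : |(p : ℤ) * Q / 2| ≤ |(p : ℤ) * Q| := by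
    rcases abs_cases ((p : ℤ) * Q) with h | h <;>
      rcases abs_cases ((p : ℤ) * Q / 2) with h' | h' <;> omega
  have h2 : |((p : ℤ) - 1) * H| ≤ p * |H| := by
    rw [abs_mul, abs_of_nonneg (by omega : (0 : ℤ) ≤ (p : ℤ) - 1)]
    have := abs_nonneg H
    nlinarith
  have h3 := abs_sub ((p : ℤ) * Q / 2) (((p : ℤ) - 1) * H)
  rw [mul_add]
  linarith

theorem ce4_pr (A : Matrix ι ι ℤ) (hA : IsADE A) (nu : ι → ℤ) (m : ℤ)
    (hm : ∀ i, |nu i| ≤ m) (i : ι) : |pr A i nu| ≤ 2 * m * Fintype.card ι := by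
  unfold pr
  refine (Finset.abs_sum_le_sum_abs _ _).trans ?_
  have h1 : ∀ j ∈ Finset.univ, |A i j * nu j| ≤ 2 * m := by
    intro j _
    rw [abs_mul]
    exact mul_le_mul (ce4_absA A hA i j) (hm j) (abs_nonneg _) (by norm_num)
  refine (Finset.sum_le_sum h1).trans ?_
  rw [Finset.sum_const, Finset.card_univ, nsmul_eq_mul]
  linarith

theorem ce4_Q (A : Matrix ι ι ℤ) (hA : IsADE A) (nu : ι → ℤ) (m : ℤ)
    (hm : ∀ i, |nu i| ≤ m) :
    |∑ i, ∑ j, nu i * A i j * nu j| ≤ 2 * m ^ 2 * (Fintype.card ι) ^ 2 := by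
  refine (Finset.abs_sum_le_sum_abs _ _).trans ?_
  have h1 : ∀ i ∈ Finset.univ, |∑ j, nu i * A i j * nu j| ≤ 2 * m ^ 2 * Fintype.card ι := by
    intro i _
    have hm0 : 0 ≤ m := (abs_nonneg _).trans (hm i)
    refine (Finset.abs_sum_le_sum_abs _ _).trans ?_
    have h2 : ∀ j ∈ Finset.univ, |nu i * A i j * nu j| ≤ 2 * m ^ 2 := by
      intro j _
      rw [abs_mul, abs_mul]
      have h3 : |nu i| * |A i j| ≤ m * 2 :=
        mul_le_mul (hm i) (ce4_absA A hA i j) (abs_nonneg _) hm0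
      have h4 : |nu i| * |A i j| * |nu j| ≤ m * 2 * m :=
        mul_le_mul h3 (hm j) (abs_nonneg _) (by positivity)
      linarith
    refine (Finset.sum_le_sum h2).trans ?_
    rw [Finset.sum_const, Finset.card_univ, nsmul_eq_mul]
    linarith
  refine (Finset.sum_le_sum h1).trans ?_
  rw [Finset.sum_const, Finset.card_univ, nsmul_eq_mul]
  linarith

omit [DecidableEq ι] in
theorem ce4_H (nu : ι → ℤ) (m : ℤ) (hm : ∀ i, |nu i| ≤ m) :
    |∑ i, nu i| ≤ m * Fintype.card ι := by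
  refine (Finset.abs_sum_le_sum_abs _ _).trans ?_
  refine (Finset.sum_le_sum fun i _ => hm i).trans ?_
  rw [Finset.sum_const, Finset.card_univ, nsmul_eq_mul]
  linarith

theorem Adm_Pr (A : Matrix ι ι ℤ) (hA : IsADE A) (p : ℕ) (hp : 1 ≤ p) (D : ℤ) (hD : 0 < D)
    (nu : ι → ℤ) (K : ℝ) (hK : ∀ i, |((pr A i nu : ℤ) : ℝ)| ≤ K) (M : ι → ℕ) :
    CI.Adm (KN.Pr A p hA.symm (toC nu) (fun _ => (p : ℂ) * D) M)
      ((∑ i, (M i : ℝ)) * K + 4 * (∑ i, (M i : ℝ)) ^ 2 / p) := by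
  set P := KN.Pr A p hA.symm (toC nu) (fun _ => (p : ℂ) * D) M with hP
  set Mt : ℝ := ∑ i, (M i : ℝ) with hMt
  have hcard : ((Fintype.card (Σ i, Fin (M i)) : ℕ) : ℝ) = Mt := by
    rw [Fintype.card_sigma, Nat.cast_sum]
    simp only [Fintype.card_fin]
    rfl
  have hMt0 : 0 ≤ Mt := by
    rw [← hcard]
    exact Nat.cast_nonneg _
  have hp' : (1 : ℝ) ≤ p := by exact_mod_cast hp
  have hp0 : (0 : ℝ) < p := by linarith
  have hD' : (1 : ℝ) ≤ |(D : ℝ)| := by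
    have h1 : (1 : ℝ) ≤ D := by exact_mod_cast hD
    rw [abs_of_pos (by linarith)]
    exact h1
  have hnc : ‖(p : ℂ) * (D : ℂ)‖ = p * |(D : ℝ)| := by
    rw [norm_mul, Complex.norm_natCast, Complex.norm_intCast]
  have hncpos : 0 < (p : ℝ) * |(D : ℝ)| := by positivity
  have hη : ∀ i j : ι, ‖(p : ℂ) * (A i j : ℂ) / ((p : ℂ) * D * ((p : ℂ) * D))‖ ≤ 2 / p := by
    intro i j
    rw [norm_div, norm_mul, norm_mul ((p : ℂ) * D), hnc, Complex.norm_natCast,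
      Complex.norm_intCast, div_le_div_iff₀ (by positivity) hp0]
    have h1 : |((A i j : ℤ) : ℝ)| ≤ 2 := by
      have h2 := ce4_absA A hA i j
      exact_mod_cast h2
    have h3 : (1 : ℝ) ≤ |(D : ℝ)| * |(D : ℝ)| := by nlinarith
    have h4 : (p : ℝ) * p * |((A i j : ℤ) : ℝ)| ≤ p * p * 2 :=
      mul_le_mul_of_nonneg_left h1 (by positivity)
    have h5 : (p : ℝ) * p * 2 * 1 ≤ p * p * 2 * (|(D : ℝ)| * |(D : ℝ)|) :=
      mul_le_mul_of_nonneg_left h3 (by positivity)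
    linarith
  have hκ1 : ∀ i : ι, ‖-(form A p (bb i) (toC nu)) / ((p : ℂ) * D)‖ ≤ K := by
    intro i
    refine le_trans ?_ (hK i)
    rw [norm_div, norm_neg, ce4_form, norm_mul, hnc, Complex.norm_natCast,
      Complex.norm_intCast, div_le_iff₀ hncpos]
    have h1 : 0 ≤ |((pr A i nu : ℤ) : ℝ)| := abs_nonneg _
    have h2 : |((pr A i nu : ℤ) : ℝ)| * p * 1 ≤ |((pr A i nu : ℤ) : ℝ)| * p * |(D : ℝ)| :=
      mul_le_mul_of_nonneg_left hD' (by positivity)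
    linarith
  have hκ : ∀ r, ‖P.κ r‖ ≤ K + Mt * (2 / p) := by
    intro r
    have h1 : P.κ r = -(form A p (bb r.1) (toC nu)) / ((p : ℂ) * D) -
      ∑ t : (Σ i, Fin (M i)), (p : ℂ) * (A r.1 t.1 : ℂ) / ((p : ℂ) * D * ((p : ℂ) * D)) := rfl
    rw [h1]
    refine (norm_sub_le _ _).trans (add_le_add (hκ1 r.1) ?_)
    refine (norm_sum_le _ _).trans ?_
    refine (Finset.sum_le_sum fun t _ => hη r.1 t.1).trans ?_
    rw [Finset.sum_const, Finset.card_univ, nsmul_eq_mul, hcard]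
  refine ⟨P.κ, P.η, fun _ => 0, fun _ _ => 0, ?_, ?_, P.symm, ?_⟩
  · intro r
    rw [Nat.cast_zero, add_zero]
  · intro r t _
    rw [Nat.cast_zero, add_zero]
  · have h1 : ∑ r, ‖P.κ r‖ ≤ Mt * (K + Mt * (2 / p)) := by
      refine (Finset.sum_le_sum fun r _ => hκ r).trans ?_
      rw [Finset.sum_const, Finset.card_univ, nsmul_eq_mul, hcard]
    have h2 : ∑ r, ∑ t ∈ Finset.univ.erase r, ‖P.η r t‖ ≤ Mt * (Mt * (2 / p)) := by
      have h3 : ∀ r ∈ Finset.univ, ∑ t ∈ Finset.univ.erase r, ‖P.η r t‖ ≤ Mt * (2 / p) := by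
        intro r _
        refine (Finset.sum_le_sum_of_subset_of_nonneg (Finset.erase_subset _ _)
          (fun _ _ _ => norm_nonneg _)).trans ?_
        refine (Finset.sum_le_sum fun t _ => hη r.1 t.1).trans ?_
        rw [Finset.sum_const, Finset.card_univ, nsmul_eq_mul, hcard]
      refine (Finset.sum_le_sum h3).trans ?_
      rw [Finset.sum_const, Finset.card_univ, nsmul_eq_mul, hcard]
    have h4 : Mt * (K + Mt * (2 / p)) + Mt * (Mt * (2 / p)) = Mt * K + 4 * Mt ^ 2 / p := by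
      ring
    linarith

theorem img_eq_eff (A : Matrix ι ι ℤ) (hA : IsADE A) (lam : ι → ι → ℤ) (D : ℤ)
    (hD : 0 < D) (hlam : ∀ i j, pr A j (lam i) = if i = j then D else 0) :
    ∃ C1 : ℕ, 1 ≤ C1 ∧ ∀ p : ℕ, 2 ≤ p → ∀ ε : Cocycle A p,
      (∀ i, wtExp A p (-lam i) ≤ (C1 : ℤ) * (p : ℤ) ^ 2) ∧
      ∀ n : ℤ, (C1 : ℤ) * (p : ℤ) ^ 2 < n → Img ε lam n = Wn A p n := by
  classical
  have hdom : ∀ i, Dom A (lam i) := by
    intro i j
    rw [hlam i j]
    split_ifs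
    · exact hD.le
    · exact le_refl 0
  set c : ℕ := Fintype.card ι with hc
  set K1 : ℕ := ∑ i, ((∑ a, ∑ b, (-lam i) a * A a b * (-lam i) b).natAbs +
    (∑ a, (-lam i) a).natAbs) with hK1
  set K2 : ℕ := 4 * K1 * c with hK2
  set K4 : ℕ := 2 * K1 * c with hK4
  set K3 : ℕ := K4 * K2 + 4 * K4 ^ 2 with hK3
  set K5 : ℕ := 8 * K1 ^ 2 * c ^ 2 + 2 * K1 * c with hK5
  refine ⟨K1 + K3 + K5 + (K4 + 1) ^ 2, ?_, ?_⟩
  · have : 0 < (K4 + 1) ^ 2 := by positivity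
    omega
  intro p hp ε
  have hp1 : (1 : ℤ) ≤ p := by exact_mod_cast (by omega : 1 ≤ p)
  have hp2 : (p : ℤ) ≤ (p : ℤ) ^ 2 := by nlinarith
  have hW : ∀ i, wtExp A p (-lam i) ≤ (p : ℤ) * K1 := by
    intro i
    refine (le_abs_self _).trans ((ce4_wt A p (by omega) (-lam i)).trans ?_)
    refine mul_le_mul_of_nonneg_left ?_ (by omega)
    have h1 : (∑ a, ∑ b, (-lam i) a * A a b * (-lam i) b).natAbs +
        (∑ a, (-lam i) a).natAbs ≤ K1 :=
      Finset.single_le_sum (f := fun i => (∑ a, ∑ b, (-lam i) a * A a b * (-lam i) b).natAbs +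
        (∑ a, (-lam i) a).natAbs) (fun _ _ => Nat.zero_le _) (Finset.mem_univ i)
    have h2 : (((∑ a, ∑ b, (-lam i) a * A a b * (-lam i) b).natAbs +
        (∑ a, (-lam i) a).natAbs : ℕ) : ℤ) ≤ K1 := by exact_mod_cast h1
    rw [Nat.cast_add, Int.natCast_natAbs, Int.natCast_natAbs] at h2
    exact h2
  refine ⟨?_, ?_⟩
  · intro i
    refine (hW i).trans ?_
    have h1 : (0 : ℤ) ≤ K1 := Int.natCast_nonneg _
    have h2 : (p : ℤ) * K1 ≤ K1 * (p : ℤ) ^ 2 := by nlinarith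
    have h3 : (K1 : ℤ) ≤ ((K1 + K3 + K5 + (K4 + 1) ^ 2 : ℕ) : ℤ) := by
      exact_mod_cast (by omega : K1 ≤ K1 + K3 + K5 + (K4 + 1) ^ 2)
    have h4 := mul_le_mul_of_nonneg_right h3 (sq_nonneg (p : ℤ))
    linarith
  · intro n hn
    by_contra hne
    obtain ⟨t, ht, ht0, hS⟩ := sing_exists hA hp ε lam hdom n hne
    obtain ⟨nu, g, d, hnu, hg0, hFH, hdn, hSing⟩ := sing_dom hA hp ε lam n t ht ht0 hS
    have hb := fun i => sing_bound hA hp ε lam D hD hlam nu g d hFH hg0 hSing i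
    have hnn : ∀ i, 0 ≤ nu i := fun i => dom_nonneg hA nu hnu i
    have hnub : ∀ i, |nu i| ≤ 2 * K1 := by
      intro i
      rw [abs_of_nonneg (hnn i)]
      have h1 := (hb i).1
      have h2 := hW i
      have h3 := hnn i
      have h4 : (p : ℤ) * nu i ≤ (p : ℤ) * D * nu i := by
        have h5 : (p : ℤ) * nu i * 1 ≤ (p : ℤ) * nu i * D :=
          mul_le_mul_of_nonneg_left (by omega) (mul_nonneg (by omega) h3)
        linarith
      by_contra h5
      push Not at h5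
      have h6 : (p : ℤ) * (2 * K1) < p * nu i := mul_lt_mul_of_pos_left h5 (by omega)
      linarith
    have hpr : ∀ i, |((pr A i nu : ℤ) : ℝ)| ≤ (K2 : ℝ) := by
      intro i
      have h1 := ce4_pr A hA nu (2 * K1) hnub i
      have h2 : |pr A i nu| ≤ (K2 : ℤ) := by
        rw [hK2]
        push_cast
        linarith
      exact_mod_cast h2
    set M : ι → ℕ := fun i => (2 * wtExp A p (-lam i) - 1 - (p : ℤ) * D * nu i).toNat with hM
    have hMi : ∀ i, M i ≤ 2 * K1 * p := by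
      intro i
      have h1 := hW i
      have h2 : 0 ≤ (p : ℤ) * D * nu i :=
        mul_nonneg (mul_nonneg (by omega) hD.le) (hnn i)
      have h3 : 2 * wtExp A p (-lam i) - 1 - (p : ℤ) * D * nu i ≤ ((2 * K1 * p : ℕ) : ℤ) := by
        push_cast
        linarith
      exact Int.toNat_le.mpr h3
    have hpr1 : (1 : ℝ) ≤ p := by exact_mod_cast (by omega : 1 ≤ p)
    have hMt : (∑ i, (M i : ℝ)) ≤ (K4 : ℝ) * p := by
      have h1 : ∀ i ∈ Finset.univ, (M i : ℝ) ≤ 2 * K1 * p := by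
        intro i _
        exact_mod_cast hMi i
      refine (Finset.sum_le_sum h1).trans ?_
      rw [Finset.sum_const, Finset.card_univ, nsmul_eq_mul, hK4, ← hc]
      push_cast
      apply le_of_eq
      ring
    have hMt0 : 0 ≤ ∑ i, (M i : ℝ) := Finset.sum_nonneg fun _ _ => Nat.cast_nonneg _
    have hadm := Adm_Pr A hA p (by omega) D hD nu K2 hpr M
    have hwt : wtExp A p nu ≤ (p : ℤ) * K5 := by
      refine (le_abs_self _).trans ((ce4_wt A p (by omega) nu).trans ?_)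
      refine mul_le_mul_of_nonneg_left ?_ (by omega)
      have h1 := ce4_Q A hA nu (2 * K1) hnub
      have h2 := ce4_H nu (2 * K1) hnub
      rw [hK5]
      push_cast
      rw [← hc] at h1 h2
      linarith
    have hdr : (((K1 + K3 + K5 + (K4 + 1) ^ 2 : ℕ) : ℤ) * (p : ℤ) ^ 2 - (p : ℤ) * K5 : ℤ) <
        (d : ℤ) := by
      omega
    have hdr' : ((K1 : ℝ) + K3 + K5 + (K4 + 1) ^ 2) * (p : ℝ) ^ 2 - p * K5 < d := by
      exact_mod_cast hdr
    set Mt : ℝ := ∑ i, (M i : ℝ) with hMtd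
    have hsq : Mt ^ 2 ≤ (K4 : ℝ) ^ 2 * (p : ℝ) ^ 2 := by
      have := pow_le_pow_left₀ hMt0 hMt 2
      rwa [mul_pow] at this
    have hB : Mt * K2 + 4 * Mt ^ 2 / p ≤ (K3 : ℝ) * p := by
      have h1 : Mt * K2 ≤ K4 * p * K2 := mul_le_mul_of_nonneg_right hMt (Nat.cast_nonneg _)
      have h2 : 4 * Mt ^ 2 / p ≤ 4 * (K4 : ℝ) ^ 2 * p := by
        rw [div_le_iff₀ (by linarith)]
        nlinarith
      rw [hK3]
      push_cast
      linarith
    have hpp : (p : ℝ) ≤ (p : ℝ) ^ 2 := by nlinarith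
    have hd : (Mt * K2 + 4 * Mt ^ 2 / p) + (Mt + 1) ^ 2 < d := by
      have h1 : (Mt + 1) ^ 2 ≤ ((K4 : ℝ) + 1) ^ 2 * (p : ℝ) ^ 2 := by
        rw [← mul_pow]
        refine pow_le_pow_left₀ (by linarith) ?_ 2
        linarith
      have h2 : (K3 : ℝ) * p ≤ K3 * (p : ℝ) ^ 2 :=
        mul_le_mul_of_nonneg_left hpp (Nat.cast_nonneg _)
      have h3 : (K5 : ℝ) * p ≤ K5 * (p : ℝ) ^ 2 :=
        mul_le_mul_of_nonneg_left hpp (Nat.cast_nonneg _)
      have h4 : (0 : ℝ) ≤ K1 * (p : ℝ) ^ 2 := by positivity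
      linarith
    have hcne : (p : ℂ) * (D : ℂ) ≠ 0 := by
      refine mul_ne_zero ?_ ?_
      · exact_mod_cast (by omega : p ≠ 0)
      · exact_mod_cast hD.ne'
    refine hg0 (kn_eff A hA p (by omega) (toC nu) (fun _ => (p : ℂ) * (D : ℂ)) (fun _ => hcne)
      (fun i => toC (lam i)) (fun i j => rd2_form lam D hlam i j) M _ hadm d hd g hFH ?_ ?_)
    · intro i q hq
      rw [← rd2_toC_neg]
      exact (hb i).2 q (by
        have h1 := Int.self_le_toNat (2 * wtExp A p (-lam i) - 1 - (p : ℤ) * D * nu i)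
        have h2 : ((M i : ℕ) : ℤ) < q := by exact_mod_cast hq
        exact lt_of_le_of_lt h1 h2)
    · intro k hk
      have h1 := hSing.2 k hk
      rw [rd2_LS_single, Finsupp.single_eq_zero] at h1
      exact h1

end

end WPQ
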