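import Pool.Agent.WPQ.PV3
import Pool.Agent.WPQ.ARM
import Pool.Agent.WPQ.CE4

/-! [WPQ-PV4] Statement B.

Plan.  `exists_lam` gives `D`, `lam`; `img_eq_eff` gives `C1`; `arith` gives `C ≥ 2`; `exc_density`.  Let
`p ∉ Exc C`, so `p > C ≥ 2`.  `omegaV_mem`.  Let `N0 = C1 p²`, `Prim n = {x ∈ Wn n | L(1)x = L(2)x = 0}`, `S` the union
over `0 ≤ n ≤ N0` of finite spanning sets of `Prim n` (`Vn_finite`; elements homogeneous
`isHomog_of_mem`, primary `isPrimary_iff`).  Let `T` be given, `X = span {monomials in T}`.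
`X` is stable under `L(-1) = transl` (`(mode_spec ..).translation`: `[T, u_{-j}] = j u_{-j-1}`,
`transl_vac`) and under `u_{-j}`, `u ∈ T`, `j ≥ 1`; `L(-2) = mode ω (-1)` (`omegaV_eq`, `mode_omega`).
Strong induction on `n`: `Wn n ≤ X`.  `n < 0`: `Wn_neg`.  `n ≤ N0`: `Wn_gen`; the primary part is a
combination of elements `u ∈ S`, `u = mode u (-1) vac`.  `n > N0`: `Wn n = Img n`; `cS (-s) w` =
`mode ε u' (-s) w` with `u' = Ew js (single (-lam i) 1)` (`mode_cS`), which is in
`Prim (wtExp (-lam i))` (`LS_Ej`; `LS k (single (-λ) 1) = 0` for `k ≥ 1`: `Lop_one_pos`), so in the span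
of `S`; `mode_add`, `mode_smul`; `w ∈ X` by induction (`wtExp_pos`).  `L(-k) w = mode ω (1-k) w`.
Conversely `X ≤ W` by `W_closed`; finally `W_span`. -/

namespace WPQ

open MvPolynomial AF

noncomputable section

/-- primary elements of `Wn n` -/
def pv4_Prim {ι : Type} [Fintype ι] [DecidableEq ι] (A : Matrix ι ι ℤ) (p : ℕ) (n : ℤ) :
    Submodule ℂ (VL ι) :=
  Wn A p n ⊓ (LinearMap.ker (LS (Shift.zero A p) 1) ⊓ LinearMap.ker (LS (Shift.zero A p) 2))

theorem pv4_mem {ι : Type} [Fintype ι] [DecidableEq ι] {A : Matrix ι ι ℤ} {p : ℕ} (n : ℤ)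
    (v : VL ι) : v ∈ pv4_Prim A p n ↔ v ∈ Wn A p n ∧
      (LS (Shift.zero A p) 1 v = 0 ∧ LS (Shift.zero A p) 2 v = 0) := Iff.rfl

theorem pv4_fin {ι : Type} [Fintype ι] [DecidableEq ι] {A : Matrix ι ι ℤ} {p : ℕ} (hA : IsADE A)
    (hp : 1 ≤ p) (n : ℤ) :
    ∃ B : Finset (VL ι), Submodule.span ℂ (B : Set (VL ι)) = pv4_Prim A p n := by
  have := Vn_finite (A := A) (p := p) hA hp n
  have h2 : FiniteDimensional ℂ (pv4_Prim A p n) :=
    Submodule.finiteDimensional_of_le
      (le_trans inf_le_left (inf_le_right : W A p ⊓ Vn A p n ≤ Vn A p n) :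
        pv4_Prim A p n ≤ Vn A p n)
  exact (Submodule.fg_iff_finiteDimensional _).2 h2

/-- `L(k)` with `k > 0` kills the long screenings of `e^{-λ}` -/
theorem pv4_Ew {ι : Type} [Fintype ι] [DecidableEq ι] {A : Matrix ι ι ℤ} {p : ℕ} (hA : IsADE A)
    (hp : 1 ≤ p) (ε : Cocycle A p) (lam : ι → ℤ) (js : List ι) (k : ℤ) (hk : 0 < k) :
    LS (Shift.zero A p) k (Ew ε (Shift.zero A p) js (Finsupp.single (-lam) 1)) = 0 := by
  induction js with
  | nil =>
    show LS (Shift.zero A p) k (Finsupp.single (-lam) 1) = 0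
    rw [fl5_LS_single, Lop_one_pos _ _ _ _ hk, Finsupp.single_zero]
  | cons j js ih =>
    show LS (Shift.zero A p) k (Ej ε (Shift.zero A p) j
      (Ew ε (Shift.zero A p) js (Finsupp.single (-lam) 1))) = 0
    have h := LinearMap.congr_fun (LS_Ej hA hp ε (Shift.zero A p) j k)
      (Ew ε (Shift.zero A p) js (Finsupp.single (-lam) 1))
    rw [LinearMap.comp_apply, LinearMap.comp_apply, ih, map_zero] at h
    exact h

/-- `L(-1)` preserves the span of the monomials -/
theorem pv4_transl {ι : Type} [Fintype ι] [DecidableEq ι] {A : Matrix ι ι ℤ} {p : ℕ}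
    (hA : IsADE A) (hp : 1 ≤ p) (ε : Cocycle A p) (T : Set (VL ι)) (w : VL ι)
    (hw : w ∈ Submodule.span ℂ {w | Monomial ε T w}) :
    LS (Shift.zero A p) (-1) w ∈ Submodule.span ℂ {w | Monomial ε T w} := by
  rw [LS_zero_neg_one]
  induction hw using Submodule.span_induction with
  | mem w hw =>
    have hw' : Monomial ε T w := hw
    clear hw
    induction hw' with
    | one =>
      rw [transl_vac]
      exact Submodule.zero_mem _
    | step u hu j hj w hw ih =>
      have h := LinearMap.congr_fun ((mode_spec hA hp ε u).translation (-(j : ℤ))) w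
      rw [LinearMap.sub_apply, LinearMap.comp_apply, LinearMap.comp_apply, LinearMap.smul_apply,
        sub_eq_iff_eq_add] at h
      rw [h]
      have hu' : u ∈ Submodule.span ℂ T := Submodule.subset_span hu
      refine Submodule.add_mem _ (Submodule.smul_mem _ _ ?_)
        (fi2_step hA hp ε T T subset_rfl u hu' j hj _ ih)
      have e : (-(j : ℤ) - 1) = -((j + 1 : ℕ) : ℤ) := by
        push_cast
        ring
      rw [e]
      exact fi2_step hA hp ε T T subset_rfl u hu' (j + 1) (by omega) w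
        (Submodule.subset_span hw)
  | zero => rw [map_zero]; exact Submodule.zero_mem _
  | add x y _ _ hx hy => rw [map_add]; exact Submodule.add_mem _ hx hy
  | smul a x _ hx => rw [map_smul]; exact Submodule.smul_mem _ a hx

/-- `L(-k)`, `k ≥ 2`, preserves the span of the monomials -/
theorem pv4_LS {ι : Type} [Fintype ι] [DecidableEq ι] {A : Matrix ι ι ℤ} {p : ℕ}
    (hA : IsADE A) (hp : 1 ≤ p) (ε : Cocycle A p) (T : Set (VL ι)) (hT : omegaV A p ∈ T)
    (k : ℕ) (hk : 2 ≤ k) (w : VL ι) (hw : w ∈ Submodule.span ℂ {w | Monomial ε T w}) :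
    LS (Shift.zero A p) (-(k : ℤ)) w ∈ Submodule.span ℂ {w | Monomial ε T w} := by
  rw [omegaV_eq] at hT
  have h2 := fi2_step hA hp ε T T subset_rfl (omega A p) (Submodule.subset_span hT) (k - 1)
    (by omega) w hw
  rw [mode_omega hA hp] at h2
  have e : -((k - 1 : ℕ) : ℤ) - 1 = -(k : ℤ) := by
    omega
  rw [e] at h2
  exact h2

theorem mainB : MainB := by
  intro ι _ _ A hA hl
  classical
  obtain ⟨D, lam, hD, hlam⟩ := exists_lam hA
  have hdom : ∀ i, Dom A (lam i) := by
    intro i j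
    rw [hlam]
    split_ifs
    · exact hD.le
    · exact le_rfl
  have hne : ∀ i, lam i ≠ 0 := by
    intro i h
    have h1 := hlam i i
    rw [h, if_pos rfl] at h1
    simp [pr] at h1
    omega
  obtain ⟨C1, hC1, himg0⟩ := img_eq_eff A hA lam D hD hlam
  obtain ⟨C, hC2, har⟩ := arith' A hA hl C1
  refine ⟨C, by omega, ?_, fun δ hδ => exc_count C (by omega) δ hδ⟩
  intro p hpC
  have hCp : C < p := by
    by_contra hcon
    exact hpC (Or.inl (by omega))
  have hp : 2 ≤ p := by omega
  have hp1 : 1 ≤ p := by omega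
  obtain ⟨t, ht, hirr, hc, hk⟩ := har p hpC
  refine ⟨omegaV_mem hA hp, fun ε => ?_⟩
  obtain ⟨hNΔ, himg⟩ := himg0 p hp ε
  set N0 : ℤ := (C1 : ℤ) * (p : ℤ) ^ 2 with hN0
  have hgen := Wn_gen (ι := ι) hA hp t ht hirr hc N0 (by
    intro h r s hh hr hs hle
    refine hk h r s hh hr hs ?_
    rw [hN0] at hle
    exact_mod_cast hle)
  choose B hB using fun n : ℤ => pv4_fin (A := A) (p := p) hA hp1 n
  set S : Finset (VL ι) := (Finset.Icc 0 N0).biUnion B with hS
  have hSmem : ∀ n, 0 ≤ n → n ≤ N0 → ∀ u ∈ pv4_Prim A p n,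
      u ∈ Submodule.span ℂ (S : Set (VL ι)) := by
    intro n h1 h2 u hu
    rw [← hB n] at hu
    refine Submodule.span_mono ?_ hu
    intro x hx
    exact Finset.mem_coe.2 (Finset.mem_biUnion.2 ⟨n, Finset.mem_Icc.2 ⟨h1, h2⟩, hx⟩)
  have hvW : (vac : VL ι) ∈ W A p := vac_mem_W hA hp1
  have hv0 : (vac : VL ι) ∈ Vn A p 0 := fi2_vac
  refine ⟨S, ?_, ?_⟩
  · intro u hu
    obtain ⟨n, _, hun⟩ := Finset.mem_biUnion.1 hu
    have hu' : u ∈ pv4_Prim A p n := by
      rw [← hB n]
      exact Submodule.subset_span hun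
    rw [pv4_mem] at hu'
    exact ⟨hu'.1.1, ⟨n, isHomog_of_mem n u hu'.1.2⟩, (isPrimary_iff hA hp1 ε u).2 hu'.2⟩
  intro T hωT hST hTW
  unfold StronglyGenerates
  refine le_antisymm ?_ ?_
  · rw [Submodule.span_le]
    intro w hw
    induction hw with
    | one => exact hvW
    | step u hu j hj w hw ih => exact W_closed hA hp ε u w (hTW hu) ih _
  -- the other inclusion
  set X : Submodule ℂ (VL ι) := Submodule.span ℂ {w | Monomial ε T w} with hX
  have hvX : (vac : VL ι) ∈ X := Submodule.subset_span Monomial.one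
  have key : ∀ k : ℕ, ∀ n : ℤ, n < k → Wn A p n ≤ X := by
    intro k
    induction k with
    | zero =>
      intro n hn
      rw [Wn_neg hA hp n (by simpa using hn)]
      exact bot_le
    | succ k ih =>
      intro n hn
      by_cases hlt : n < 0
      · rw [Wn_neg hA hp n hlt]
        exact bot_le
      push Not at hlt
      by_cases hnN : n ≤ N0
      · intro v hv
        obtain ⟨x, hx, y, hy, z, hz, h1, h2, rfl⟩ := hgen n hnN v hv
        have hxS := hSmem n hlt hnN x ((pv4_mem n x).2 ⟨hx, h1, h2⟩)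
        have hxX : x ∈ X := by
          have h3 := fi2_step hA hp1 ε (S : Set (VL ι)) T hST x hxS 1 le_rfl vac hvX
          rw [Nat.cast_one, mode_neg_one_vac hA hp1] at h3
          exact h3
        have hyX : y ∈ X := ih (n - 1) (by push_cast at hn; omega) hy
        have hzX : z ∈ X := ih (n - 2) (by push_cast at hn; omega) hz
        have h4 := pv4_transl hA hp1 ε T y hyX
        have h5 := pv4_LS hA hp1 ε T hωT 2 le_rfl z hzX
        exact Submodule.add_mem _ (Submodule.add_mem _ hxX h4) h5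
      · push Not at hnN
        rw [← himg n hnN]
        unfold Img
        rw [Submodule.span_le]
        rintro x (⟨i, js, s, w, hs, hw, rfl⟩ | ⟨j, w, hj, hw, rfl⟩)
        · have hΔ : 1 ≤ wtExp A p (-lam i) := wtExp_pos hA hp1 (lam i) (hdom i) (hne i)
          have hwX : w ∈ X := by
            refine ih _ ?_ hw
            push_cast at hn
            omega
          have hu : Ew ε (Shift.zero A p) js (Finsupp.single (-lam i) 1) ∈
              Wn A p (wtExp A p (-lam i)) := by
            rw [← cS_creation]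
            refine ⟨cS_mem_W hA hp ε (lam i) (hdom i) js (-1) vac hvW, ?_⟩
            have h1 := cS_Vn hA ε (lam i) js (-1) 0 vac hv0
            have e : 0 + wtExp A p (-lam i) - (-1) - 1 = wtExp A p (-lam i) := by ring
            rw [e] at h1
            exact h1
          have h1 := hSmem _ (by omega) (hNΔ i) _ ((pv4_mem _ _).2 ⟨hu,
            pv4_Ew hA hp1 ε (lam i) js 1 one_pos, pv4_Ew hA hp1 ε (lam i) js 2 two_pos⟩)
          have h2 := fi2_step hA hp1 ε (S : Set (VL ι)) T hST _ h1 s hs w hwX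
          rw [mode_cS hA hp1] at h2
          exact h2
        · have hwX : w ∈ X := by
            refine ih _ ?_ hw
            push_cast at hn
            omega
          exact pv4_LS hA hp1 ε T hωT j hj w hwX
  refine W_span X ?_
  intro γ f d hf hW
  have hmem : Finsupp.single γ f ∈ Wn A p ((d : ℤ) + wtExp A p γ) :=
    ⟨hW, single_mem_Vn γ f d hf _ rfl⟩
  refine key ((d : ℤ) + wtExp A p γ + 1).toNat _ ?_ hmem
  omega

end

end WPQ
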