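import Pool.Agent.WPQ.SV9

/-! WPQ part C, block SV: interface.  Proofs: WPQ_planC.md, C2 (SV1 ... SV9). -/

namespace WPQ.SV

open MvPolynomial KV

noncomputable section

theorem exists_S {t : ℂ} (ht : Irr t) {r s : ℕ} (hr : 1 ≤ r) (hs : 1 ≤ s) :
    ∃ c : Nat.Partition (r * s) → ℂ, IsS t r s (r * s) c := sv5_exists ht hr hs

/-- `S_{r,s} x` is primary of weight `h_{r,s} + rs`. -/
theorem S_prim {t : ℂ} (ht : Irr t) {r s n : ℕ} (hr : 1 ≤ r) (hs : 1 ≤ s)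
    {c : Nat.Partition n → ℂ} (hc : IsS t r s n c) {N : Type} [AddCommGroup N] [Module ℂ N]
    (L : ℤ → N →ₗ[ℂ] N) (hL : IsVir (cc t) L) (x : N) (hx : IsPrim L (hrs t r s) x) :
    IsPrim L (hrs t r s + n) (SS L c x) := sv5_prim ht hr hs hc L hL x hx

/-- The symmetry `t ↔ 1/t`. -/
theorem S_inv {t : ℂ} (ht : Irr t) {r s n : ℕ} (hr : 1 ≤ r) (hs : 1 ≤ s)
    {c : Nat.Partition n → ℂ} (hc : IsS t r s n c) : IsS t⁻¹ s r n c := sv5_inv ht hr hs hc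

/-- `Prim ∩ I` consists of vectors `S_{r,r} x`. -/
theorem prim_desc' {t : ℂ} (ht : Irr t) {N : Type} [AddCommGroup N] [Module ℂ N]
    (L : ℤ → N →ₗ[ℂ] N) (hL : IsVir (cc t) L) (V : ℤ → Submodule ℂ N)
    (hdeg : ∀ k n : ℤ, ∀ v ∈ V n, L k v ∈ V (n - k))
    (hL0 : ∀ n : ℤ, ∀ v ∈ V n, L 0 v = (n : ℂ) • v)
    (hneg : ∀ n < 0, V n = ⊥) (vac : N) (h0 : ∀ v ∈ V 0, ∃ a : ℂ, v = a • vac)
    (hvac : L (-1) vac = 0)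
    (hdec : ∀ n : ℤ, (∀ x ∈ V n, L 1 x = 0 → L 2 x = 0 →
        (∃ y ∈ V (n - 1), ∃ z ∈ V (n - 2), x = L (-1) y + L (-2) z) → x = 0) →
      ∀ v ∈ V n, ∃ x ∈ V n, ∃ y ∈ V (n - 1), ∃ z ∈ V (n - 2),
        L 1 x = 0 ∧ L 2 x = 0 ∧ v = x + L (-1) y + L (-2) z)
    (hdiag : ∀ h r s : ℕ, 1 ≤ r → 1 ≤ s → (h : ℂ) = hrs t r s → r = s)
    (n : ℤ) (y : N) (hy : y ∈ V n) (h1 : L 1 y = 0) (h2 : L 2 y = 0)
    (hI : ∃ a ∈ V (n - 1), ∃ b ∈ V (n - 2), y = L (-1) a + L (-2) b) (hne : y ≠ 0) :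
    ∃ (r h : ℕ) (c : Nat.Partition (r * r) → ℂ) (x : N), 2 ≤ r ∧ 1 ≤ h ∧
      (h : ℂ) = hrs t r r ∧ n = (h : ℤ) + r * r ∧ IsS t r r (r * r) c ∧ x ∈ V h ∧
      L 1 x = 0 ∧ L 2 x = 0 ∧ y = SS L c x :=
  sv9_main ht L hL V hdeg hL0 hneg vac h0 hvac hdec hdiag n y hy h1 h2 hI hne

end

end WPQ.SV
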