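import Pool.Agent.WPQ.FW7
import Pool.Agent.WPQ.FW8

/-! [WPQ-FW9] `L(k)` and `L(-k)` are adjoint.

The commutators `[L(k), h(n)]` are computed first; the adjointness for `k ≥ 0` follows by induction on the
first argument (multiplication by variables is `h(-n)`), for `k < 0` by symmetry. -/

namespace WPQ

open MvPolynomial

noncomputable section

variable {ι : Type} [Fintype ι] [DecidableEq ι]

/-! ### the form -/

theorem fw9_form_bb (A : Matrix ι ι ℤ) (p : ℕ) (i : ι) (h : ι → ℂ) :
    form A p (bb i) h = p * ∑ j, (A i j : ℂ) * h j := by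
  unfold form bb
  rw [Finset.sum_eq_single i]
  · simp
  · intro b _ hb
    simp [Pi.single_apply, hb]
  · simp

theorem fw9_form_left (A : Matrix ι ι ℤ) (p : ℕ) (v h : ι → ℂ) :
    form A p v h = ∑ i, v i * form A p (bb i) h := by
  simp only [fw9_form_bb]
  unfold form
  rw [Finset.mul_sum]
  refine Finset.sum_congr rfl fun i _ => ?_
  rw [Finset.mul_sum, Finset.mul_sum, Finset.mul_sum]
  refine Finset.sum_congr rfl fun j _ => ?_
  ring

theorem fw9_form_right (A : Matrix ι ι ℤ) (hA : ∀ i j, A i j = A j i) (p : ℕ) (v h : ι → ℂ) :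
    form A p v h = ∑ i, h i * form A p v (bb i) := by
  rw [form_symm A hA, fw9_form_left]
  refine Finset.sum_congr rfl fun i _ => ?_
  rw [form_symm A hA]

theorem fw9_form_add (A : Matrix ι ι ℤ) (p : ℕ) (v v' h : ι → ℂ) :
    form A p (v + v') h = form A p v h + form A p v' h := by
  rw [fw9_form_left A p (v + v'), fw9_form_left A p v, fw9_form_left A p v', ← Finset.sum_add_distrib]
  refine Finset.sum_congr rfl fun i _ => ?_
  rw [Pi.add_apply, add_mul]

theorem fw9_form_smul (A : Matrix ι ι ℤ) (p : ℕ) (c : ℂ) (v h : ι → ℂ) :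
    form A p (c • v) h = c * form A p v h := by
  rw [fw9_form_left A p (c • v), fw9_form_left A p v, Finset.mul_sum]
  refine Finset.sum_congr rfl fun i _ => ?_
  rw [Pi.smul_apply, smul_eq_mul, mul_assoc]

theorem fw9_form_sub (A : Matrix ι ι ℤ) (p : ℕ) (v v' h : ι → ℂ) :
    form A p (v - v') h = form A p v h - form A p v' h := by
  rw [sub_eq_add_neg, fw9_form_add, ← neg_one_smul ℂ v', fw9_form_smul]
  ring

/-! ### the derivations -/

/-- The derivation `h(m + 1)`. -/
def fw9_dH (A : Matrix ι ι ℤ) (p : ℕ) (h : ι → ℂ) (m : ℕ) : Derivation ℂ (Fock ι) (Fock ι) :=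
  ∑ i, form A p (bb i) h • pderiv (R := ℂ) (i, m)

theorem fw9_dH_apply (A : Matrix ι ι ℤ) (p : ℕ) (h : ι → ℂ) (m : ℕ) (f : Fock ι) :
    fw9_dH A p h m f = ∑ i, form A p (bb i) h • pderiv (i, m) f := by
  unfold fw9_dH
  have e : (⇑(∑ i, form A p (bb i) h • pderiv (R := ℂ) (i, m)) : Fock ι → Fock ι) =
      ∑ i, ⇑(form A p (bb i) h • pderiv (R := ℂ) (i, m)) :=
    map_sum (Derivation.coeFnAddMonoidHom (R := ℂ) (A := Fock ι) (M := Fock ι)) _ _
  rw [e, Finset.sum_apply]
  rfl

theorem fw9_heis_pos (A : Matrix ι ι ℤ) (p : ℕ) (h : ι → ℂ) (e : ℤ) (he : 0 < e) (s : ι → ℂ)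
    (f : Fock ι) : heis A p h e s f = fw9_dH A p h (e - 1).toNat f := by
  unfold heis
  rw [if_neg (by omega), if_neg (by omega), fw9_dH_apply, LinearMap.sum_apply]
  rfl

theorem fw9_heis_neg (A : Matrix ι ι ℤ) (p : ℕ) (h : ι → ℂ) (e : ℤ) (he : e < 0) (s : ι → ℂ)
    (f : Fock ι) : heis A p h e s f = (-(e : ℂ)) • (osc h (-e - 1).toNat * f) := by
  unfold heis
  rw [if_pos he]
  rfl

theorem fw9_heis_zero (A : Matrix ι ι ℤ) (p : ℕ) (h : ι → ℂ) (s : ι → ℂ)
    (f : Fock ι) : heis A p h 0 s f = form A p h s • f := by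
  unfold heis
  rw [if_neg (by omega), if_pos rfl]
  rfl

theorem fw9_pd_X (i j : ι) (m k : ℕ) :
    pderiv (R := ℂ) (i, m) (X (j, k) : Fock ι) = if j = i ∧ k = m then 1 else 0 := by
  rw [pderiv_X, Pi.single_apply]
  simp only [Prod.mk.injEq]

theorem fw9_pd_osc (v : ι → ℂ) (i : ι) (m k : ℕ) :
    pderiv (R := ℂ) (i, m) (osc v k) = if k = m then C (v i) else 0 := by
  unfold osc
  rw [map_sum]
  rw [Finset.sum_eq_single i]
  · rw [pderiv_C_mul, fw9_pd_X]
    split_ifs with h1 h2 h2
    · simp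
    · exact absurd h1.2 h2
    · exact absurd ⟨rfl, h2⟩ h1
    · simp
  · intro b _ hb
    rw [pderiv_C_mul, fw9_pd_X, if_neg (fun h => hb h.1), mul_zero]
  · simp

theorem fw9_dH_X (A : Matrix ι ι ℤ) (p : ℕ) (h : ι → ℂ) (m : ℕ) (j : ι) (k : ℕ) :
    fw9_dH A p h m (X (j, k)) = if k = m then C (form A p (bb j) h) else 0 := by
  rw [fw9_dH_apply, Finset.sum_eq_single j]
  · rw [fw9_pd_X]
    split_ifs with h1 h2 h2
    · rw [smul_eq_C_mul, mul_one]
    · exact absurd h1.2 h2
    · exact absurd ⟨rfl, h2⟩ h1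
    · rw [smul_zero]
  · intro b _ hb
    rw [fw9_pd_X, if_neg (fun h => hb h.1.symm), smul_zero]
  · simp

theorem fw9_dH_osc (A : Matrix ι ι ℤ) (p : ℕ) (h v : ι → ℂ) (m k : ℕ) :
    fw9_dH A p h m (osc v k) = if k = m then C (form A p v h) else 0 := by
  unfold osc
  rw [map_sum]
  have e : ∀ i : ι, fw9_dH A p h m (C (v i) * X (i, k)) =
      if k = m then C (v i * form A p (bb i) h) else 0 := by
    intro i
    rw [← smul_eq_C_mul, Derivation.map_smul, fw9_dH_X]
    split_ifs
    · rw [smul_eq_C_mul, C_mul]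
    · rw [smul_zero]
  simp only [e]
  split_ifs
  · rw [fw9_form_left A p v h, map_sum]
  · simp

theorem fw9_sum_pd (A : Matrix ι ι ℤ) (hA : ∀ i j, A i j = A j i) (p : ℕ) (h : ι → ℂ) (m : ℕ)
    (f : Fock ι) : ∑ i, C (h i) * fw9_dH A p (bb i) m f = fw9_dH A p h m f := by
  simp only [fw9_dH_apply, Finset.mul_sum]
  rw [Finset.sum_comm]
  refine Finset.sum_congr rfl fun l _ => ?_
  rw [fw9_form_right A hA p (bb l) h, Finset.sum_smul]
  refine Finset.sum_congr rfl fun i _ => ?_
  rw [smul_eq_C_mul, smul_eq_C_mul, C_mul, mul_assoc]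

theorem fw9_sum_pd' (A : Matrix ι ι ℤ) (hA : ∀ i j, A i j = A j i) (p : ℕ) (h : ι → ℂ) (m : ℕ)
    (f : Fock ι) : ∑ i, pderiv (i, m) f * C (form A p h (bb i)) = fw9_dH A p h m f := by
  rw [fw9_dH_apply]
  refine Finset.sum_congr rfl fun l _ => ?_
  rw [smul_eq_C_mul, mul_comm, form_symm A hA]

/-- `osc` is linear. -/
theorem fw9_osc_sum (c : ι → ℂ) (w : ι → ι → ℂ) (k : ℕ) :
    ∑ i, C (c i) * osc (w i) k = osc (∑ i, c i • w i) k := by
  unfold osc
  simp only [Finset.mul_sum]
  rw [Finset.sum_comm]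
  refine Finset.sum_congr rfl fun l _ => ?_
  rw [Finset.sum_apply, map_sum, Finset.sum_mul]
  refine Finset.sum_congr rfl fun i _ => ?_
  rw [Pi.smul_apply, smul_eq_mul, C_mul, mul_assoc]

theorem fw9_osc_bb (i : ι) (k : ℕ) : osc (bb i) k = X (i, k) := by
  unfold osc bb
  rw [Finset.sum_eq_single i]
  · simp
  · intro b _ hb
    simp [Pi.single_apply, hb]
  · simp

theorem fw9_exp1 (A : Matrix ι ι ℤ) (hA : IsADE A) (p : ℕ) (hp : 1 ≤ p) (h : ι → ℂ) :
    ∑ i, form A p (dual A p i) h • bb i = h := by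
  funext j
  rw [Finset.sum_apply, Finset.sum_eq_single j]
  · rw [fw9_form_right A hA.symm, Finset.sum_eq_single j]
    · rw [form_dual A hA p hp, if_pos rfl]
      simp [bb]
    · intro b _ hb
      rw [form_dual A hA p hp, if_neg (fun h => hb h.symm), mul_zero]
    · simp
  · intro b _ hb
    simp [bb, Pi.single_apply, hb.symm]
  · simp

theorem fw9_exp2 (A : Matrix ι ι ℤ) (hA : IsADE A) (p : ℕ) (hp : 1 ≤ p) (h : ι → ℂ) :
    ∑ i, form A p (bb i) h • dual A p i = h := by
  funext j
  rw [Finset.sum_apply]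
  simp only [Pi.smul_apply, smul_eq_mul, fw9_form_bb, dual]
  have hp0 : (p : ℂ) ≠ 0 := by
    have : p ≠ 0 := by omega
    exact_mod_cast this
  set B : Matrix ι ι ℂ := A.map (Int.cast : ℤ → ℂ) with hB
  have hBs : B.transpose = B := by
    ext a b
    simp only [hB, Matrix.transpose_apply, Matrix.map_apply]
    rw [hA.symm]
  have hBi : B⁻¹.transpose = B⁻¹ := by rw [Matrix.transpose_nonsing_inv, hBs]
  have e1 : ∀ i, (p : ℂ) * (∑ l, (A i l : ℂ) * h l) * ((p : ℂ)⁻¹ * B⁻¹ i j) =
      B⁻¹ j i * (B.mulVec h) i := by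
    intro i
    have e2 : B⁻¹ i j = B⁻¹ j i := by
      conv_lhs => rw [← hBi]
      rfl
    have e3 : (∑ l, (A i l : ℂ) * h l) = (B.mulVec h) i := rfl
    rw [e2, e3]
    field_simp
  simp only [e1]
  have e4 : ∑ i, B⁻¹ j i * (B.mulVec h) i = (B⁻¹.mulVec (B.mulVec h)) j := rfl
  rw [e4, Matrix.mulVec_mulVec, Matrix.nonsing_inv_mul _ (det_ne_zero A hA), Matrix.one_mulVec]

/-! ### the derivation part of `L(k)` -/

/-- The derivation part of `L(k)`. -/
def fw9_D (k : ℤ) : Derivation ℂ (Fock ι) (Fock ι) :=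
  mkDerivation ℂ fun x : ι × ℕ =>
    if k ≤ x.2 then ((x.2 : ℂ) + 1 - k) • (X (x.1, ((x.2 : ℤ) - k).toNat) : Fock ι) else 0

theorem fw9_D_X (k : ℤ) (i : ι) (j : ℕ) : fw9_D k (X (i, j) : Fock ι) =
    if k ≤ j then ((j : ℂ) + 1 - k) • (X (i, ((j : ℤ) - k).toNat) : Fock ι) else 0 := by
  unfold fw9_D
  rw [mkDerivation_X]

theorem fw9_D_osc (k : ℤ) (v : ι → ℂ) (j : ℕ) : fw9_D k (osc v j) =
    if k ≤ j then ((j : ℂ) + 1 - k) • osc v ((j : ℤ) - k).toNat else 0 := by
  unfold osc
  rw [map_sum]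
  have e : ∀ i : ι, fw9_D k (C (v i) * X (i, j) : Fock ι) =
      if k ≤ j then ((j : ℂ) + 1 - k) • (C (v i) * X (i, ((j : ℤ) - k).toNat) : Fock ι) else 0 := by
    intro i
    rw [← smul_eq_C_mul, Derivation.map_smul, fw9_D_X]
    split_ifs
    · rw [← smul_eq_C_mul, smul_comm]
    · rw [smul_zero]
  simp only [e]
  split_ifs
  · rw [Finset.smul_sum]
  · simp

/-- `[D_k, h(m)]` for `m > 0`. -/
theorem fw9_D_dH (A : Matrix ι ι ℤ) (p : ℕ) (h : ι → ℂ) (k : ℤ) (m : ℕ) (f : Fock ι) :
    fw9_D k (fw9_dH A p h m f) - fw9_dH A p h m (fw9_D k f) =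
      if 0 < (m : ℤ) + 1 + k then (-((m : ℂ) + 1)) • fw9_dH A p h ((m : ℤ) + k).toNat f else 0 := by
  have key : ⁅(fw9_D k : Derivation ℂ (Fock ι) (Fock ι)), fw9_dH A p h m⁆ =
      if 0 < (m : ℤ) + 1 + k then (-((m : ℂ) + 1)) • fw9_dH A p h ((m : ℤ) + k).toNat
        else (0 : Derivation ℂ (Fock ι) (Fock ι)) := by
    apply MvPolynomial.derivation_ext
    rintro ⟨i, j⟩
    rw [Derivation.commutator_apply, fw9_dH_X, fw9_D_X]
    have e1 : fw9_D k (if j = m then C (form A p (bb i) h) else (0 : Fock ι)) = 0 := by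
      split_ifs
      · exact Derivation.map_algebraMap _ _
      · exact map_zero _
    rw [e1, zero_sub]
    split_ifs with h1 h2 h2
    · rw [Derivation.map_smul, fw9_dH_X, Derivation.smul_apply, fw9_dH_X]
      by_cases h3 : ((j : ℤ) - k).toNat = m
      · have h4 : j = ((m : ℤ) + k).toNat := by omega
        rw [if_pos h3, if_pos h4, neg_smul]
        congr 2
        have h5 : (j : ℤ) = m + k := by omega
        have h6 : (j : ℂ) = m + k := by exact_mod_cast h5
        rw [h6]
        ring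
      · have h4 : ¬ j = ((m : ℤ) + k).toNat := by omega
        rw [if_neg h3, if_neg h4, smul_zero, smul_zero, neg_zero]
    · rw [Derivation.map_smul, fw9_dH_X, if_neg (by omega), smul_zero, neg_zero]
      rfl
    · rw [Derivation.smul_apply, fw9_dH_X, if_neg (by omega), map_zero, smul_zero, neg_zero]
    · rw [map_zero, neg_zero]
      rfl
  rw [← Derivation.commutator_apply, key]
  split_ifs <;> rfl

theorem fw9_Lop_pos (A : Matrix ι ι ℤ) (p : ℕ) (s : ι → ℂ) (k : ℤ) (hk : 0 < k) (f : Fock ι) :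
    Lop A p s k f = fw9_D k f + fw9_dH A p (s - ((k : ℂ) + 1) • bg A p) (k - 1).toNat f +
      (1 / 2 : ℂ) • ∑ n ∈ Finset.range (k.toNat - 1), ∑ i : ι,
        pderiv (i, n) (fw9_dH A p (bb i) (k.toNat - 2 - n) f) := by
  have hD : (mkDerivation ℂ fun x : ι × ℕ =>
      if k.toNat ≤ x.2 then ((x.2 : ℂ) + 1 - k) • (X (x.1, x.2 - k.toNat) : Fock ι) else 0) =
        fw9_D k := by
    unfold fw9_D
    congr 1
    funext x
    by_cases h : k ≤ x.2
    · rw [if_pos (by omega), if_pos h, show x.2 - k.toNat = ((x.2 : ℤ) - k).toNat by omega]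
    · rw [if_neg (by omega), if_neg h]
  have hS : (∑ n ∈ Finset.range (k.toNat - 1), ∑ i : ι,
        (pderiv (R := ℂ) (i, n)).toLinearMap ∘ₗ heis A p (bb i) (k - (n + 1)) 0) f =
      ∑ n ∈ Finset.range (k.toNat - 1), ∑ i : ι,
        pderiv (i, n) (fw9_dH A p (bb i) (k.toNat - 2 - n) f) := by
    rw [LinearMap.sum_apply]
    refine Finset.sum_congr rfl fun n hn => ?_
    rw [LinearMap.sum_apply]
    refine Finset.sum_congr rfl fun i _ => ?_
    rw [LinearMap.comp_apply, fw9_heis_pos A p _ _ (by have := Finset.mem_range.1 hn; omega)]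
    have e : (k - ((n : ℤ) + 1) - 1).toNat = k.toNat - 2 - n := by
      have := Finset.mem_range.1 hn
      omega
    rw [e]
    rfl
  unfold Lop
  rw [if_pos hk, LinearMap.add_apply, LinearMap.add_apply, LinearMap.smul_apply, hS,
    fw9_heis_pos A p _ k hk, hD]
  rfl

theorem fw9_Lop_zero (A : Matrix ι ι ℤ) (p : ℕ) (s : ι → ℂ) (f : Fock ι) :
    Lop A p s 0 f = fw9_D 0 f + ((1 / 2 : ℂ) * form A p s s - form A p (bg A p) s) • f := by
  have hD : (mkDerivation ℂ fun x : ι × ℕ => ((x.2 : ℂ) + 1) • (X x : Fock ι)) = fw9_D 0 := by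
    unfold fw9_D
    congr 1
    funext x
    rw [if_pos (by omega)]
    simp
  unfold Lop
  rw [if_neg (by omega), if_pos rfl, LinearMap.add_apply, hD]
  rfl

/-- The quadratic part of `L(-K)`. -/
def fw9_Q (A : Matrix ι ι ℤ) (p : ℕ) (K : ℕ) : Fock ι :=
  ∑ n ∈ Finset.range (K - 1), ∑ i : ι,
    C (((n : ℂ) + 1) * ((K : ℂ) - 1 - n)) * osc (dual A p i) n * (X (i, K - 2 - n) : Fock ι)

theorem fw9_Lop_neg (A : Matrix ι ι ℤ) (p : ℕ) (s : ι → ℂ) (K : ℕ) (hK : 0 < K) (f : Fock ι) :
    Lop A p s (-(K : ℤ)) f = fw9_D (-(K : ℤ)) f +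
      (K : ℂ) • (osc (s - (1 - (K : ℂ)) • bg A p) (K - 1) * f) + (1 / 2 : ℂ) • (fw9_Q A p K * f) := by
  have hD : (mkDerivation ℂ fun x : ι × ℕ =>
      ((x.2 : ℂ) + 1 - ((-(K : ℤ) : ℤ) : ℂ)) • (X (x.1, x.2 + (-(-(K : ℤ))).toNat) : Fock ι)) =
        fw9_D (-(K : ℤ)) := by
    unfold fw9_D
    congr 1
    funext x
    rw [if_pos (by omega), show x.2 + (-(-(K : ℤ))).toNat = ((x.2 : ℤ) - -(K : ℤ)).toNat by omega]
  have e1 : (-(-(K : ℤ)) - 1).toNat = K - 1 := by omega
  have e2 : (-((-(K : ℤ) : ℤ) : ℂ)) = K := by push_cast; ring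
  have e3 : (((-(K : ℤ) : ℤ) : ℂ) + 1) = 1 - K := by push_cast; ring
  have hQ : (∑ n ∈ Finset.range ((-(-(K : ℤ))).toNat - 1), ∑ i : ι,
        C (((n : ℂ) + 1) * (-((-(K : ℤ) : ℤ) : ℂ) - 1 - n)) * osc (dual A p i) n *
          (X (i, (-(-(K : ℤ))).toNat - 2 - n) : Fock ι)) = fw9_Q A p K := by
    unfold fw9_Q
    rw [show (-(-(K : ℤ))).toNat = K by omega]
    refine Finset.sum_congr rfl fun n _ => ?_
    refine Finset.sum_congr rfl fun i _ => ?_
    rw [e2]
  unfold Lop
  rw [if_neg (by omega), if_neg (by omega), LinearMap.add_apply, LinearMap.add_apply,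
    LinearMap.smul_apply, fw9_heis_neg A p _ (-(K : ℤ)) (by omega), hD, hQ, e1, e2, e3]
  rfl

/-- The second order part. -/
theorem fw9_second (A : Matrix ι ι ℤ) (hA : ∀ i j, A i j = A j i) (p : ℕ) (h : ι → ℂ) (K M : ℕ)
    (f : Fock ι) :
    ∑ n ∈ Finset.range (K - 1), ∑ i : ι, pderiv (i, n) (fw9_dH A p (bb i) (K - 2 - n) (osc h M * f)) -
      osc h M * ∑ n ∈ Finset.range (K - 1), ∑ i : ι, pderiv (i, n) (fw9_dH A p (bb i) (K - 2 - n) f) =
      if M + 1 < K then (2 : ℂ) • fw9_dH A p h (K - 2 - M) f else 0 := by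
  rw [Finset.mul_sum, ← Finset.sum_sub_distrib]
  have e1 : ∀ n ∈ Finset.range (K - 1), (∑ i : ι, pderiv (i, n)
      (fw9_dH A p (bb i) (K - 2 - n) (osc h M * f)) -
      osc h M * ∑ i : ι, pderiv (i, n) (fw9_dH A p (bb i) (K - 2 - n) f)) =
      (if n = M then fw9_dH A p h (K - 2 - M) f else 0) +
      (if n = K - 2 - M ∧ M + 1 < K then fw9_dH A p h (K - 2 - M) f else 0) := by
    intro n hn
    have hn' := Finset.mem_range.1 hn
    rw [Finset.mul_sum, ← Finset.sum_sub_distrib]
    have e2 : ∀ i : ι, pderiv (i, n) (fw9_dH A p (bb i) (K - 2 - n) (osc h M * f)) -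
        osc h M * pderiv (i, n) (fw9_dH A p (bb i) (K - 2 - n) f) =
        (if M = n then C (h i) * fw9_dH A p (bb i) (K - 2 - n) f else 0) +
        (if M = K - 2 - n then pderiv (i, n) f * C (form A p h (bb i)) else 0) := by
      intro i
      rw [Derivation.leibniz, map_add, smul_eq_mul, smul_eq_mul, Derivation.leibniz,
        Derivation.leibniz, smul_eq_mul, smul_eq_mul, smul_eq_mul, smul_eq_mul, fw9_dH_osc,
        fw9_pd_osc]
      have e3 : pderiv (i, n) (if M = K - 2 - n then C (form A p h (bb i)) else (0 : Fock ι)) = 0 := by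
        split_ifs
        · exact pderiv_C
        · exact map_zero _
      rw [e3]
      split_ifs <;> ring
    simp only [e2]
    rw [Finset.sum_add_distrib]
    congr 1
    · by_cases h1 : n = M
      · subst h1
        simp only [if_true]
        exact fw9_sum_pd A hA p h _ f
      · rw [if_neg h1]
        have h2 : ¬ M = n := fun h => h1 h.symm
        simp [h2]
    · by_cases h1 : M = K - 2 - n
      · have h2 : n = K - 2 - M ∧ M + 1 < K := by omega
        rw [if_pos h2]
        simp only [if_pos h1]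
        rw [fw9_sum_pd' A hA p h n f, h2.1]
      · have h2 : ¬ (n = K - 2 - M ∧ M + 1 < K) := by omega
        rw [if_neg h2]
        simp [h1]
  rw [Finset.sum_congr rfl e1, Finset.sum_add_distrib, Finset.sum_ite_eq']
  by_cases hM : M + 1 < K
  · have h3 : M ∈ Finset.range (K - 1) := Finset.mem_range.2 (by omega)
    rw [if_pos h3, if_pos hM]
    have h4 : K - 2 - M ∈ Finset.range (K - 1) := Finset.mem_range.2 (by omega)
    have e5 : ∑ n ∈ Finset.range (K - 1),
        (if n = K - 2 - M ∧ M + 1 < K then fw9_dH A p h (K - 2 - M) f else 0) =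
        ∑ n ∈ Finset.range (K - 1), (if n = K - 2 - M then fw9_dH A p h (K - 2 - M) f else 0) := by
      refine Finset.sum_congr rfl fun n _ => ?_
      simp [hM]
    rw [e5, Finset.sum_ite_eq', if_pos h4, two_smul]
  · have h3 : M ∉ Finset.range (K - 1) := fun h => hM (by have := Finset.mem_range.1 h; omega)
    rw [if_neg h3, if_neg hM, zero_add]
    refine Finset.sum_eq_zero fun n _ => ?_
    rw [if_neg (fun h => hM h.2)]

/-- The derivative of the quadratic part. -/
theorem fw9_dH_Q (A : Matrix ι ι ℤ) (hA : IsADE A) (p : ℕ) (hp : 1 ≤ p) (h : ι → ℂ) (K M : ℕ) :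
    fw9_dH A p h M (fw9_Q A p K) =
      if M + 1 < K then C (2 * (((M : ℂ) + 1) * ((K : ℂ) - 1 - M))) * osc h (K - 2 - M) else 0 := by
  unfold fw9_Q
  rw [map_sum]
  have e1 : ∀ n ∈ Finset.range (K - 1), fw9_dH A p h M (∑ i : ι,
      C (((n : ℂ) + 1) * ((K : ℂ) - 1 - n)) * osc (dual A p i) n * (X (i, K - 2 - n) : Fock ι)) =
      (if n = M then C (((M : ℂ) + 1) * ((K : ℂ) - 1 - M)) * osc h (K - 2 - M) else 0) +
      (if n = K - 2 - M ∧ M + 1 < K then
        C (((M : ℂ) + 1) * ((K : ℂ) - 1 - M)) * osc h (K - 2 - M) else 0) := by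
    intro n hn
    have hn' := Finset.mem_range.1 hn
    rw [map_sum]
    have e2 : ∀ i : ι, fw9_dH A p h M
        (C (((n : ℂ) + 1) * ((K : ℂ) - 1 - n)) * osc (dual A p i) n * (X (i, K - 2 - n) : Fock ι)) =
        (if n = M then C (((M : ℂ) + 1) * ((K : ℂ) - 1 - M)) *
          (C (form A p (dual A p i) h) * osc (bb i) (K - 2 - M)) else 0) +
        (if K - 2 - n = M then C (((n : ℂ) + 1) * ((K : ℂ) - 1 - n)) *
          (C (form A p (bb i) h) * osc (dual A p i) n) else 0) := by
      intro i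
      rw [mul_assoc, ← smul_eq_C_mul, Derivation.map_smul, Derivation.leibniz, smul_eq_mul,
        smul_eq_mul, fw9_dH_X, fw9_dH_osc, smul_eq_C_mul, fw9_osc_bb]
      by_cases h1 : n = M
      · subst h1
        simp only [if_true]
        split_ifs <;> ring
      · simp only [if_neg h1]
        split_ifs <;> ring
    simp only [e2]
    rw [Finset.sum_add_distrib]
    congr 1
    · by_cases h1 : n = M
      · simp only [if_pos h1]
        rw [← Finset.mul_sum, fw9_osc_sum, fw9_exp1 A hA p hp]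
      · simp [h1]
    · by_cases h1 : K - 2 - n = M
      · have h2 : n = K - 2 - M ∧ M + 1 < K := by omega
        rw [if_pos h2]
        simp only [if_pos h1]
        rw [← Finset.mul_sum, fw9_osc_sum, fw9_exp2 A hA p hp, ← h2.1]
        congr 2
        have h3 : K = n + M + 2 := by omega
        have h4 : (K : ℂ) = n + M + 2 := by exact_mod_cast h3
        rw [h4]
        ring
      · have h2 : ¬ (n = K - 2 - M ∧ M + 1 < K) := by omega
        rw [if_neg h2]
        simp [h1]
  rw [Finset.sum_congr rfl e1, Finset.sum_add_distrib, Finset.sum_ite_eq']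
  by_cases hM : M + 1 < K
  · have h3 : M ∈ Finset.range (K - 1) := Finset.mem_range.2 (by omega)
    rw [if_pos h3, if_pos hM]
    have h4 : K - 2 - M ∈ Finset.range (K - 1) := Finset.mem_range.2 (by omega)
    have e5 : ∑ n ∈ Finset.range (K - 1),
        (if n = K - 2 - M ∧ M + 1 < K then
          C (((M : ℂ) + 1) * ((K : ℂ) - 1 - M)) * osc h (K - 2 - M) else 0) =
        ∑ n ∈ Finset.range (K - 1), (if n = K - 2 - M then
          C (((M : ℂ) + 1) * ((K : ℂ) - 1 - M)) * osc h (K - 2 - M) else 0) := by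
      refine Finset.sum_congr rfl fun n _ => ?_
      simp [hM]
    rw [e5, Finset.sum_ite_eq', if_pos h4, ← two_mul, ← mul_assoc]
    congr 1
    simp only [C_mul]
    rfl
  · have h3 : M ∉ Finset.range (K - 1) := fun h => hM (by have := Finset.mem_range.1 h; omega)
    rw [if_neg h3, if_neg hM, zero_add]
    refine Finset.sum_eq_zero fun n _ => ?_
    rw [if_neg (fun h => hM h.2)]

theorem fw9_comm_pd (A : Matrix ι ι ℤ) (p : ℕ) (h : ι → ℂ) (m n : ℕ) (i : ι) (f : Fock ι) :
    pderiv (i, n) (fw9_dH A p h m f) = fw9_dH A p h m (pderiv (i, n) f) := by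
  have key : ⁅pderiv (R := ℂ) (i, n), fw9_dH A p h m⁆ = (0 : Derivation ℂ (Fock ι) (Fock ι)) := by
    apply MvPolynomial.derivation_ext
    rintro ⟨j, l⟩
    rw [Derivation.commutator_apply, fw9_dH_X, fw9_pd_X]
    have e1 : pderiv (R := ℂ) (i, n) (if l = m then C (form A p (bb j) h) else (0 : Fock ι)) = 0 := by
      split_ifs
      · exact pderiv_C
      · exact map_zero _
    have e2 : fw9_dH A p h m (if j = i ∧ l = n then (1 : Fock ι) else 0) = 0 := by
      split_ifs
      · exact Derivation.map_one_eq_zero _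
      · exact map_zero _
    rw [e1, e2, sub_zero]
    rfl
  have := congrArg (fun D : Derivation ℂ (Fock ι) (Fock ι) => D f) key
  simp only [Derivation.commutator_apply] at this
  exact sub_eq_zero.1 this

theorem fw9_comm_dH (A : Matrix ι ι ℤ) (p : ℕ) (h v : ι → ℂ) (m n : ℕ) (f : Fock ι) :
    fw9_dH A p v n (fw9_dH A p h m f) = fw9_dH A p h m (fw9_dH A p v n f) := by
  rw [fw9_dH_apply A p v n, fw9_dH_apply A p v n, map_sum]
  refine Finset.sum_congr rfl fun i _ => ?_
  rw [fw9_comm_pd, Derivation.map_smul]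

/-- `[L(k), h(n)] = -n h(n+k) - k (k+1) ⟨a,h⟩ δ_{n+k,0}` -/
theorem fw9_Lop_heis (A : Matrix ι ι ℤ) (hA : IsADE A) (p : ℕ) (hp : 1 ≤ p) (s h : ι → ℂ)
    (k n : ℤ) (f : Fock ι) :
    Lop A p s k (heis A p h n s f) - heis A p h n s (Lop A p s k f) =
      (-(n : ℂ)) • heis A p h (n + k) s f -
        (if n + k = 0 then ((k : ℂ) * (k + 1) * form A p (bg A p) h) • f else 0) := by
  rcases lt_trichotomy n 0 with hn | hn | hn
  · -- `n = -(M + 1)`
    obtain ⟨M, rfl⟩ : ∃ M : ℕ, n = -((M : ℤ) + 1) := ⟨(-n - 1).toNat, by omega⟩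
    have eM : (- -((M : ℤ) + 1) - 1).toNat = M := by omega
    have hn1 : ∀ g : Fock ι, heis A p h (-((M : ℤ) + 1)) s g = ((M : ℂ) + 1) • (osc h M * g) := by
      intro g
      rw [fw9_heis_neg A p h _ hn, eM]
      congr 1
      push_cast
      ring
    rw [hn1, hn1, map_smul, ← smul_sub]
    have en : (-((-((M : ℤ) + 1) : ℤ) : ℂ)) = (M : ℂ) + 1 := by push_cast; ring
    rw [en]
    have hD : ∀ g : Fock ι, fw9_D k (osc h M * g) - osc h M * fw9_D k g =
        (if k ≤ M then ((M : ℂ) + 1 - k) • osc h ((M : ℤ) - k).toNat else 0) * g := by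
      intro g
      rw [Derivation.leibniz, smul_eq_mul, smul_eq_mul, fw9_D_osc]
      ring
    rcases lt_trichotomy k 0 with hk | hk | hk
    · obtain ⟨K, rfl⟩ : ∃ K : ℕ, k = -(K : ℤ) := ⟨(-k).toNat, by omega⟩
      rw [fw9_Lop_neg A p s K (by omega), fw9_Lop_neg A p s K (by omega), if_neg (by omega), sub_zero,
        fw9_heis_neg A p h _ (by omega)]
      have hD' := hD f
      rw [if_pos (by omega)] at hD'
      have e1 : fw9_D (-(K : ℤ)) (osc h M * f) +
          (K : ℂ) • (osc (s - (1 - (K : ℂ)) • bg A p) (K - 1) * (osc h M * f)) +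
          (1 / 2 : ℂ) • (fw9_Q A p K * (osc h M * f)) -
          osc h M * (fw9_D (-(K : ℤ)) f + (K : ℂ) • (osc (s - (1 - (K : ℂ)) • bg A p) (K - 1) * f) +
            (1 / 2 : ℂ) • (fw9_Q A p K * f)) =
          fw9_D (-(K : ℤ)) (osc h M * f) - osc h M * fw9_D (-(K : ℤ)) f := by
        simp only [smul_eq_C_mul]
        ring
      rw [e1, hD']
      congr 1
      rw [smul_mul_assoc]
      have e2 : (-(-((M : ℤ) + 1) + -(K : ℤ)) - 1).toNat = ((M : ℤ) - -(K : ℤ)).toNat := by omega
      rw [e2]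
      congr 1
      push_cast
      ring
    · subst hk
      rw [fw9_Lop_zero, fw9_Lop_zero, if_neg (by omega), sub_zero, add_zero, hn1]
      have hD' := hD f
      rw [if_pos (by omega)] at hD'
      have e1 : fw9_D 0 (osc h M * f) + ((1 / 2 : ℂ) * form A p s s - form A p (bg A p) s) •
          (osc h M * f) - osc h M * (fw9_D 0 f + ((1 / 2 : ℂ) * form A p s s - form A p (bg A p) s) • f) =
          fw9_D 0 (osc h M * f) - osc h M * fw9_D 0 f := by
        simp only [smul_eq_C_mul]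
        ring
      rw [e1, hD']
      congr 1
      rw [smul_mul_assoc, show ((M : ℤ) - 0).toNat = M by omega]
      congr 1
      push_cast
      ring
    · rw [fw9_Lop_pos A p s k hk, fw9_Lop_pos A p s k hk]
      have hD' := hD f
      have hS := fw9_second A hA.symm p h k.toNat M f
      have e1 : fw9_D k (osc h M * f) +
          fw9_dH A p (s - ((k : ℂ) + 1) • bg A p) (k - 1).toNat (osc h M * f) +
          (1 / 2 : ℂ) • ∑ n ∈ Finset.range (k.toNat - 1), ∑ i : ι,
            pderiv (i, n) (fw9_dH A p (bb i) (k.toNat - 2 - n) (osc h M * f)) -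
          osc h M * (fw9_D k f + fw9_dH A p (s - ((k : ℂ) + 1) • bg A p) (k - 1).toNat f +
            (1 / 2 : ℂ) • ∑ n ∈ Finset.range (k.toNat - 1), ∑ i : ι,
              pderiv (i, n) (fw9_dH A p (bb i) (k.toNat - 2 - n) f)) =
          (fw9_D k (osc h M * f) - osc h M * fw9_D k f) +
          (fw9_dH A p (s - ((k : ℂ) + 1) • bg A p) (k - 1).toNat (osc h M)) * f +
          (1 / 2 : ℂ) • (∑ n ∈ Finset.range (k.toNat - 1), ∑ i : ι,
            pderiv (i, n) (fw9_dH A p (bb i) (k.toNat - 2 - n) (osc h M * f)) -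
            osc h M * ∑ n ∈ Finset.range (k.toNat - 1), ∑ i : ι,
              pderiv (i, n) (fw9_dH A p (bb i) (k.toNat - 2 - n) f)) := by
        rw [Derivation.leibniz (fw9_dH A p (s - ((k : ℂ) + 1) • bg A p) (k - 1).toNat), smul_eq_mul,
          smul_eq_mul]
        simp only [smul_eq_C_mul]
        ring
      rw [e1, hS, hD', fw9_dH_osc]
      rcases lt_trichotomy (k : ℤ) ((M : ℤ) + 1) with hkM | hkM | hkM
      · rw [if_pos (by omega), if_neg (by omega), if_neg (by omega), if_neg (by omega), sub_zero,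
          fw9_heis_neg A p h _ (by omega), zero_mul, smul_zero, add_zero, add_zero]
        congr 1
        rw [smul_mul_assoc]
        have e2 : (-(-((M : ℤ) + 1) + k) - 1).toNat = ((M : ℤ) - k).toNat := by omega
        rw [e2]
        congr 1
        push_cast
        ring
      · rw [if_neg (by omega), if_pos (by omega), if_neg (by omega), if_pos (by omega)]
        have e3 : -((M : ℤ) + 1) + k = 0 := by omega
        have ek : (k : ℂ) = M + 1 := by rw [hkM]; push_cast; ring
        rw [e3, fw9_heis_zero, zero_mul, smul_zero, add_zero, zero_add,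
          form_symm A hA.symm p h (s - ((k : ℂ) + 1) • bg A p), fw9_form_sub, fw9_form_smul,
          form_symm A hA.symm p s h, ek]
        simp only [smul_eq_C_mul, C_mul, C_add, C_sub]
        ring
      · rw [if_neg (by omega), if_neg (by omega), if_pos (by omega), if_neg (by omega), sub_zero,
          fw9_heis_pos A p h _ (by omega), zero_mul, zero_add, zero_add, smul_smul, smul_smul]
        have e2 : (-((M : ℤ) + 1) + k - 1).toNat = k.toNat - 2 - M := by omega
        rw [e2]
        congr 1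
        ring
  · subst hn
    rw [fw9_heis_zero, fw9_heis_zero, map_smul, sub_self]
    have e : (if (0 : ℤ) + k = 0 then ((k : ℂ) * (k + 1) * form A p (bg A p) h) • f else 0) = 0 := by
      split_ifs with h1
      · have : k = 0 := by omega
        subst this
        simp
      · rfl
    rw [e]
    simp
  · -- `n = M + 1`
    obtain ⟨M, rfl⟩ : ∃ M : ℕ, n = (M : ℤ) + 1 := ⟨(n - 1).toNat, by omega⟩
    have eM : ((M : ℤ) + 1 - 1).toNat = M := by omega
    have hn1 : ∀ g : Fock ι, heis A p h ((M : ℤ) + 1) s g = fw9_dH A p h M g := by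
      intro g
      rw [fw9_heis_pos A p h _ hn, eM]
    rw [hn1, hn1]
    have hD := fw9_D_dH A p h k M f
    rcases lt_trichotomy k 0 with hk | hk | hk
    · obtain ⟨K, rfl⟩ : ∃ K : ℕ, k = -(K : ℤ) := ⟨(-k).toNat, by omega⟩
      rw [fw9_Lop_neg A p s K (by omega), fw9_Lop_neg A p s K (by omega)]
      have e1 : fw9_D (-(K : ℤ)) (fw9_dH A p h M f) +
          (K : ℂ) • (osc (s - (1 - (K : ℂ)) • bg A p) (K - 1) * fw9_dH A p h M f) +
          (1 / 2 : ℂ) • (fw9_Q A p K * fw9_dH A p h M f) -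
          fw9_dH A p h M (fw9_D (-(K : ℤ)) f +
            (K : ℂ) • (osc (s - (1 - (K : ℂ)) • bg A p) (K - 1) * f) +
            (1 / 2 : ℂ) • (fw9_Q A p K * f)) =
          (fw9_D (-(K : ℤ)) (fw9_dH A p h M f) - fw9_dH A p h M (fw9_D (-(K : ℤ)) f)) -
          (K : ℂ) • (fw9_dH A p h M (osc (s - (1 - (K : ℂ)) • bg A p) (K - 1)) * f) -
          (1 / 2 : ℂ) • (fw9_dH A p h M (fw9_Q A p K) * f) := by
        rw [map_add, map_add, Derivation.map_smul, Derivation.map_smul, Derivation.leibniz,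
          Derivation.leibniz, smul_eq_mul, smul_eq_mul, smul_eq_mul, smul_eq_mul]
        simp only [smul_eq_C_mul]
        ring
      rw [e1, hD, fw9_dH_osc, fw9_dH_Q A hA p hp]
      rcases lt_trichotomy (K : ℤ) ((M : ℤ) + 1) with hkM | hkM | hkM
      · rw [if_pos (by omega), if_neg (by omega), if_neg (by omega), if_neg (by omega),
          fw9_heis_pos A p h _ (by omega), zero_mul, smul_zero, smul_zero, sub_zero, sub_zero, sub_zero]
        have e2 : ((M : ℤ) + 1 + -(K : ℤ) - 1).toNat = ((M : ℤ) + -(K : ℤ)).toNat := by omega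
        rw [e2]
        push_cast
        rfl
      · rw [if_neg (by omega), if_pos (by omega), if_neg (by omega), if_pos (by omega)]
        have e3 : (M : ℤ) + 1 + -(K : ℤ) = 0 := by omega
        have ek : (K : ℂ) = M + 1 := by exact_mod_cast hkM
        rw [e3, fw9_heis_zero, fw9_form_sub, fw9_form_smul, form_symm A hA.symm p s h]
        push_cast
        rw [ek]
        simp only [smul_eq_C_mul, C_mul, C_add, C_sub, C_neg, C_1]
        ring
      · rw [if_neg (by omega), if_neg (by omega), if_pos (by omega), if_neg (by omega),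
          fw9_heis_neg A p h _ (by omega)]
        have e2 : (-((M : ℤ) + 1 + -(K : ℤ)) - 1).toNat = K - 2 - M := by omega
        rw [e2]
        push_cast
        simp only [smul_eq_C_mul, C_mul, C_add, C_sub, C_neg, C_1]
        have e4 : (C (1 / 2 : ℂ) : Fock ι) * C 2 = 1 := by
          rw [← C_mul]
          norm_num
        have e5 : (C (1 / 2 : ℂ) : Fock ι) * (C 2 * ((C (M : ℂ) + 1) * (C (K : ℂ) - 1 - C (M : ℂ))) *
            osc h (K - 2 - M) * f) = (C (1 / 2 : ℂ) * C 2) * (((C (M : ℂ) + 1) *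
              (C (K : ℂ) - 1 - C (M : ℂ))) * osc h (K - 2 - M) * f) := by ring
        rw [e5, e4]
        ring
    · subst hk
      rw [fw9_Lop_zero, fw9_Lop_zero, if_neg (by omega), sub_zero, add_zero, hn1]
      rw [if_pos (by omega)] at hD
      rw [map_add, Derivation.map_smul]
      have e2 : ((M : ℤ) + 0).toNat = M := by omega
      rw [e2] at hD
      have e3 : fw9_D 0 (fw9_dH A p h M f) + ((1 / 2 : ℂ) * form A p s s - form A p (bg A p) s) •
          fw9_dH A p h M f - (fw9_dH A p h M (fw9_D 0 f) +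
          ((1 / 2 : ℂ) * form A p s s - form A p (bg A p) s) • fw9_dH A p h M f) =
          fw9_D 0 (fw9_dH A p h M f) - fw9_dH A p h M (fw9_D 0 f) := by abel
      rw [e3, hD]
      push_cast
      rfl
    · rw [fw9_Lop_pos A p s k hk, fw9_Lop_pos A p s k hk, if_neg (by omega), sub_zero,
        fw9_heis_pos A p h _ (by omega)]
      rw [if_pos (by omega)] at hD
      have e1 : fw9_D k (fw9_dH A p h M f) +
          fw9_dH A p (s - ((k : ℂ) + 1) • bg A p) (k - 1).toNat (fw9_dH A p h M f) +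
          (1 / 2 : ℂ) • ∑ n ∈ Finset.range (k.toNat - 1), ∑ i : ι,
            pderiv (i, n) (fw9_dH A p (bb i) (k.toNat - 2 - n) (fw9_dH A p h M f)) -
          fw9_dH A p h M (fw9_D k f + fw9_dH A p (s - ((k : ℂ) + 1) • bg A p) (k - 1).toNat f +
            (1 / 2 : ℂ) • ∑ n ∈ Finset.range (k.toNat - 1), ∑ i : ι,
              pderiv (i, n) (fw9_dH A p (bb i) (k.toNat - 2 - n) f)) =
          fw9_D k (fw9_dH A p h M f) - fw9_dH A p h M (fw9_D k f) := by
        rw [map_add, map_add, Derivation.map_smul, map_sum]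
        simp only [map_sum]
        simp only [fw9_comm_dH A p h, fw9_comm_pd]
        abel
      rw [e1, hD]
      have e2 : ((M : ℤ) + 1 + k - 1).toNat = ((M : ℤ) + k).toNat := by omega
      rw [e2]
      push_cast
      rfl

/-! ### the pairing -/

theorem fw9_X (A : Matrix ι ι ℤ) (p : ℕ) (i : ι) (k : ℕ) (s : ι → ℂ) (f : Fock ι) :
    f * X (i, k) = ((k : ℂ) + 1)⁻¹ • heis A p (bb i) (-((k : ℤ) + 1)) s f := by
  have hk : ((k : ℂ) + 1) ≠ 0 := by exact_mod_cast Nat.succ_ne_zero k
  rw [fw9_heis_neg A p _ _ (by omega), show (- -((k : ℤ) + 1) - 1).toNat = k by omega, fw9_osc_bb,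
    smul_smul]
  have e : ((k : ℂ) + 1)⁻¹ * (-((-((k : ℤ) + 1) : ℤ) : ℂ)) = 1 := by
    push_cast
    rw [neg_neg]
    exact inv_mul_cancel₀ hk
  rw [e, one_smul, mul_comm]

theorem fw9_const_zero (k : ℤ) (hk : k ≤ 0) (g : Fock ι) : constantCoeff (fw9_D k g) = 0 := by
  induction g using MvPolynomial.induction_on with
  | C a =>
    have : fw9_D k (C a : Fock ι) = 0 := Derivation.map_algebraMap _ _
    rw [this, map_zero]
  | add f g hf hg => rw [map_add, map_add, hf, hg, add_zero]
  | mul_X f x hf =>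
    obtain ⟨i, j⟩ := x
    rw [Derivation.leibniz, smul_eq_mul, smul_eq_mul, map_add, map_mul, map_mul, hf,
      constantCoeff_X, fw9_D_X, if_pos (by omega), smul_eq_C_mul, map_mul, constantCoeff_X]
    ring

theorem fw9_const_osc (v : ι → ℂ) (k : ℕ) : constantCoeff (osc v k) = 0 := by
  unfold osc
  rw [map_sum]
  refine Finset.sum_eq_zero fun i _ => ?_
  rw [map_mul, constantCoeff_X, mul_zero]

theorem fw9_const_Q (A : Matrix ι ι ℤ) (p K : ℕ) : constantCoeff (fw9_Q A p K) = 0 := by
  unfold fw9_Q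
  rw [map_sum]
  refine Finset.sum_eq_zero fun n _ => ?_
  rw [map_sum]
  refine Finset.sum_eq_zero fun i _ => ?_
  rw [map_mul, constantCoeff_X, mul_zero]

theorem fw9_pair_one_right (A : Matrix ι ι ℤ) (hA : IsADE A) (p : ℕ) (g : Fock ι) :
    pairF A p g 1 = constantCoeff g := by
  induction g using MvPolynomial.induction_on with
  | C a =>
    have : (C a : Fock ι) = a • 1 := by rw [smul_eq_C_mul, mul_one]
    rw [this, pairF_smul_left, pairF_one_left, map_one, mul_one, smul_eq_C_mul, mul_one,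
      constantCoeff_C]
  | add f g hf hg => rw [pairF_add_left, map_add, hf, hg]
  | mul_X f x _ =>
    obtain ⟨i, k⟩ := x
    rw [fw9_X A p i k 0 f, pairF_smul_left, pairF_heis A hA p _ _ (by omega) 0 0, neg_neg,
      fw9_heis_pos A p _ _ (by omega), Derivation.map_one_eq_zero, ← fw9_X, map_mul, constantCoeff_X,
      mul_zero]
    have : pairF A p f 0 = 0 := by
      have := pairF_smul_right A p 0 f 0
      rwa [zero_smul, zero_mul] at this
    rw [this]
    ring

theorem pairF_symm (A : Matrix ι ι ℤ) (hA : IsADE A) (p : ℕ) (f g : Fock ι) :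
    pairF A p f g = pairF A p g f := by
  induction f using MvPolynomial.induction_on generalizing g with
  | C a =>
    have : (C a : Fock ι) = a • 1 := by rw [smul_eq_C_mul, mul_one]
    rw [this, pairF_smul_left, pairF_smul_right, pairF_one_left, fw9_pair_one_right A hA]
  | add f f' hf hf' => rw [pairF_add_left, pairF_add_right, hf, hf']
  | mul_X f x hf =>
    obtain ⟨i, k⟩ := x
    rw [fw9_X A p i k 0 f, pairF_smul_left, pairF_smul_right, pairF_heis A hA p _ _ (by omega) 0 0, hf]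
    congr 1
    have h1 := pairF_heis A hA p (bb i) (-(-((k : ℤ) + 1))) (by omega) 0 0 g f
    rw [h1]
    simp only [neg_neg]

/-- The adjoint of `L(k)` for `k ≥ 0`. -/
theorem fw9_pair_nonneg (A : Matrix ι ι ℤ) (hA : IsADE A) (p : ℕ) (hp : 1 ≤ p) (s s' : ι → ℂ)
    (hs : s' = (2 : ℂ) • bg A p - s) (k : ℤ) (hk : 0 ≤ k) (f g : Fock ι) :
    pairF A p (Lop A p s' k f) g = pairF A p f (Lop A p s (-k) g) := by
  have hform : ∀ h, form A p h s' = 2 * form A p (bg A p) h - form A p h s := by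
    intro h
    rw [form_symm A hA.symm p h s', hs, fw9_form_sub, fw9_form_smul, form_symm A hA.symm p s h]
  induction f using MvPolynomial.induction_on generalizing g with
  | C a =>
    have : (C a : Fock ι) = a • 1 := by rw [smul_eq_C_mul, mul_one]
    rw [this, map_smul, pairF_smul_left, pairF_smul_left, pairF_one_left]
    congr 1
    rcases hk.lt_or_eq with hk1 | hk1
    · rw [Lop_one_pos A p s' k hk1]
      have e0 : pairF A p 0 g = 0 := by
        have := pairF_smul_left A p 0 0 g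
        rwa [zero_smul, zero_mul] at this
      obtain ⟨K, rfl⟩ : ∃ K : ℕ, k = K := ⟨k.toNat, by omega⟩
      rw [e0, fw9_Lop_neg A p s K (by omega), map_add, map_add, fw9_const_zero _ (by omega),
        smul_eq_C_mul, smul_eq_C_mul, map_mul, map_mul, map_mul, map_mul, fw9_const_osc, fw9_const_Q]
      ring
    · subst hk1
      rw [neg_zero, fw9_Lop_zero, fw9_Lop_zero, Derivation.map_one_eq_zero, zero_add,
        pairF_smul_left, pairF_one_left, map_add, fw9_const_zero _ le_rfl, zero_add, smul_eq_C_mul,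
        map_mul, constantCoeff_C]
      congr 1
      have h1 := hform s'
      have h2 := hform (bg A p)
      have h3 := hform s
      rw [form_symm A hA.symm p s s'] at h3
      rw [h1, h3, h2]
      ring
  | add f f' hf hf' => rw [map_add, pairF_add_left, pairF_add_left, hf, hf']
  | mul_X f x hf =>
    obtain ⟨i, j⟩ := x
    have hn : (-((j : ℤ) + 1)) ≠ 0 := by omega
    rw [fw9_X A p i j s' f, map_smul, pairF_smul_left, pairF_smul_left]
    refine congrArg (fun z : ℂ => ((j : ℂ) + 1)⁻¹ * z) ?_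
    have hc1 := fw9_Lop_heis A hA p hp s' (bb i) k (-((j : ℤ) + 1)) f
    have hc2 := fw9_Lop_heis A hA p hp s (bb i) (-k) ((j : ℤ) + 1) g
    rw [sub_eq_iff_eq_add] at hc1
    rw [hc1, pairF_add_left, pairF_heis A hA p (bb i) _ hn s' s, hf, pairF_heis A hA p (bb i) _ hn s' s]
    simp only [neg_neg]
    have hc3 : heis A p (bb i) ((j : ℤ) + 1) s (Lop A p s (-k) g) =
        Lop A p s (-k) (heis A p (bb i) ((j : ℤ) + 1) s g) -
        ((-(((j : ℤ) + 1 : ℤ) : ℂ)) • heis A p (bb i) ((j : ℤ) + 1 + -k) s g -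
          (if (j : ℤ) + 1 + -k = 0 then
            (((-k : ℤ) : ℂ) * (((-k : ℤ) : ℂ) + 1) * form A p (bg A p) (bb i)) • g else 0)) := by
      rw [← hc2]
      abel
    rw [hc3]
    have pr_sub : ∀ u v w : Fock ι, pairF A p u (v - w) = pairF A p u v - pairF A p u w := by
      intro u v w
      have : v - w = v + (-1 : ℂ) • w := by rw [neg_one_smul]; abel
      rw [this, pairF_add_right, pairF_smul_right]
      ring
    have pl_sub : ∀ u v w : Fock ι, pairF A p (v - w) u = pairF A p v u - pairF A p w u := by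
      intro u v w
      have : v - w = v + (-1 : ℂ) • w := by rw [neg_one_smul]; abel
      rw [this, pairF_add_left, pairF_smul_left]
      ring
    rw [pr_sub, pr_sub, pl_sub, pairF_smul_left, pairF_smul_right]
    by_cases hkj : k = (j : ℤ) + 1
    · rw [if_pos (by omega), if_pos (by omega), show -((j : ℤ) + 1) + k = 0 by omega,
        show (j : ℤ) + 1 + -k = 0 by omega, fw9_heis_zero, fw9_heis_zero, pairF_smul_left,
        pairF_smul_left, pairF_smul_right, pairF_smul_right, hform]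
      push_cast
      have hkc : (k : ℂ) = j + 1 := by rw [hkj]; push_cast; ring
      rw [hkc]
      ring
    · rw [if_neg (by omega), if_neg (by omega), pairF_heis A hA p (bb i) _ (by omega) s' s,
        show -(-((j : ℤ) + 1) + k) = (j : ℤ) + 1 + -k by omega]
      have e0 : pairF A p 0 g = 0 := by
        have := pairF_smul_left A p 0 0 g
        rwa [zero_smul, zero_mul] at this
      have e1 : pairF A p f 0 = 0 := by
        have := pairF_smul_right A p 0 f 0
        rwa [zero_smul, zero_mul] at this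
      rw [e0, e1]
      push_cast
      ring

theorem pairF_Lop (A : Matrix ι ι ℤ) (hA : IsADE A) (p : ℕ) (hp : 1 ≤ p) (s s' : ι → ℂ)
    (hs : s' = (2 : ℂ) • bg A p - s) (k : ℤ) (f g : Fock ι) :
    pairF A p (Lop A p s' k f) g = pairF A p f (Lop A p s (-k) g) := by
  rcases le_total 0 k with hk | hk
  · exact fw9_pair_nonneg A hA p hp s s' hs k hk f g
  · have h1 := fw9_pair_nonneg A hA p hp s' s (by rw [hs]; abel) (-k) (by omega) g f
    rw [neg_neg] at h1
    rw [pairF_symm A hA p (Lop A p s' k f) g, ← h1, pairF_symm A hA p _ f]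

end

end WPQ
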