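import Pool.Agent.WPQ.VP2
import Pool.Agent.WPQ.FW9

/-! [WPQ-VP3] The functional `top0` and the pairing `pairV`.

Plan.  `top0_LS_one`: only the component `single 0 f`, `f` homogeneous of degree `1`, contributes
(`W_homog`, `W_comp`), and it is `0` by `W_deg_one`.  `top0_LS_neg`: `Lop A p 0 (-k)` maps to polynomials
without constant term.  `top0_Ej`: the component of charge `0` of `E_j v` is
`± vop b_j (2p-1) (v (-rt j))`, no constant term.
`pairV_expS`: on `single h f` and `single η g` with `η = -(γ+h)` both sides are multiples of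
`pairF f (vop γ (n+1+τ·γ+⟨γ,h⟩) g)` (`pairF_vop`); index: `2Δ-2-n`, `2Δ(γ) = ⟨γ,γ⟩ - 2(p-1) ht γ`,
`τ.dot γ = 2(p-1) ht γ`; signs: `sgn(η) ε(γ,h)` versus `(-1)^Δ(γ) sgn(-h) ε(γ,η)`, use
`ε(γ+h,γ+h) = ε(γ,γ) ε(h,h) (-1)^⟨γ,h⟩`, `Δ(-γ-h) = Δ(-γ)+Δ(-h)+⟨γ,h⟩`, `Δ(γ) ≡ Δ(-γ) mod 2`.
`pairV_Ej`: `wtExp (rt j) = 1`, `n = 0`.  `pairV_LS`: `pairF_Lop` with `s' = 2a + h`, `s = -h`.
`τ.κ i = 2 (p-1)` from `hτ`, `τ.h` and `form_bg`. -/

namespace WPQ

open MvPolynomial AF

noncomputable section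

variable {ι : Type} [Fintype ι] [DecidableEq ι] {A : Matrix ι ι ℤ} {p : ℕ}

theorem vp3_form_smul_right (hA : IsADE A) (c : ℂ) (ν η : ι → ℂ) :
    form A p ν (c • η) = c * form A p ν η := by
  rw [form_symm A hA.symm, vp1_form_smul_left, form_symm A hA.symm]

theorem exists_tau (hA : IsADE A) (hp : 1 ≤ p) : ∃ τ : Shift A p, τ.s = (2 : ℂ) • bg A p := by
  refine ⟨⟨(2 : ℂ) • bg A p, fun _ => 2 * ((p : ℤ) - 1), fun i => ?_⟩, rfl⟩
  rw [vp3_form_smul_right hA, form_bg A hA p hp]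
  push_cast
  ring

theorem tau_kappa (hA : IsADE A) (hp : 1 ≤ p) (τ : Shift A p) (hτ : τ.s = (2 : ℂ) • bg A p)
    (i : ι) : τ.κ i = 2 * ((p : ℤ) - 1) := by
  have h := τ.h i
  rw [hτ, vp3_form_smul_right hA, form_bg A hA p hp] at h
  have h2 : ((τ.κ i : ℤ) : ℂ) = ((2 * ((p : ℤ) - 1) : ℤ) : ℂ) := by
    rw [← h]; push_cast; ring
  exact_mod_cast h2

omit [Fintype ι] [DecidableEq ι] in
theorem vp3_cc_homog (g : Fock ι) (e : ℕ) (hg : FH g e) (he : 1 ≤ e) : constantCoeff g = 0 := by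
  rw [constantCoeff_eq]
  by_contra h
  have := hg h
  rw [map_zero] at this
  omega

omit [Fintype ι] [DecidableEq ι] in
theorem vp3_FH_monomial (m : ι × ℕ →₀ ℕ) (c : ℂ) :
    FH (monomial m c) (Finsupp.weight (wF (ι := ι)) m) :=
  isWeightedHomogeneous_monomial _ _ _ rfl

theorem vp3_lin_zero (L : Fock ι →ₗ[ℂ] ℂ) (h : ∀ (f : Fock ι) (d : ℕ), FH f d → L f = 0)
    (f : Fock ι) : L f = 0 := by
  rw [← support_sum_monomial_coeff f, map_sum]
  exact Finset.sum_eq_zero fun m _ => h _ _ (vp3_FH_monomial m _)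

/-- the constant coefficient as a linear map -/
def vp3_cc : Fock ι →ₗ[ℂ] ℂ where
  toFun f := constantCoeff f
  map_add' := by
    intro v w
    rw [map_add]
  map_smul' := by
    intro c v
    rw [smul_eq_C_mul, map_mul, constantCoeff_C, RingHom.id_apply, smul_eq_mul]

theorem vp3_cc_vop (ν : ι → ℂ) (m : ℤ) (hm : 1 ≤ m) (f : Fock ι) :
    constantCoeff (vop A p ν m f) = 0 := by
  refine vp3_lin_zero (vp3_cc ∘ₗ vop A p ν m) ?_ f
  intro f d hf
  obtain ⟨e, he⟩ := Int.eq_ofNat_of_zero_le (by omega : 0 ≤ (d : ℤ) + m)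
  exact vp3_cc_homog _ e (vop_homog A p ν m f d e hf he.symm) (by omega)

theorem vp3_cc_Lop (s : ι → ℂ) (k : ℤ) (hk : k < 0) (f : Fock ι) :
    constantCoeff (Lop A p s k f) = 0 := by
  refine vp3_lin_zero (vp3_cc ∘ₗ Lop A p s k) ?_ f
  intro f d hf
  obtain ⟨e, he⟩ := Int.eq_ofNat_of_zero_le (by omega : 0 ≤ (d : ℤ) - k)
  exact vp3_cc_homog _ e (Lop_homog A p s k f d e hf he.symm) (by omega)

theorem vp3_LS_single (σ : Shift A p) (k : ℤ) (η : ι → ℤ) (f : Fock ι) :
    LS σ k (Finsupp.single η f) = Finsupp.single η (Lop A p (σ.s + toC η) k f) := by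
  unfold LS
  rw [Finsupp.lsum_single, LinearMap.comp_apply, Finsupp.lsingle_apply]

omit [DecidableEq ι] in
theorem vp3_top0_single (η : ι → ℤ) (f : Fock ι) :
    top0 (Finsupp.single η f) = if η = 0 then constantCoeff f else 0 := by
  show constantCoeff ((Finsupp.single η f) 0) = _
  split_ifs with h
  · rw [h, Finsupp.single_eq_same]
  · rw [Finsupp.single_eq_of_ne (Ne.symm h), map_zero]

omit [Fintype ι] [DecidableEq ι] in
theorem vp3_ext0 (L : VL ι →ₗ[ℂ] ℂ) (h : ∀ (η : ι → ℤ) (f : Fock ι), L (Finsupp.single η f) = 0)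
    (v : VL ι) : L v = 0 := by
  rw [← Finsupp.sum_single v, Finsupp.sum, map_sum]
  exact Finset.sum_eq_zero fun η _ => h η _

theorem top0_LS_one (hA : IsADE A) (hp : 1 ≤ p) (v : VL ι) (hv : v ∈ W A p) :
    top0 (LS (Shift.zero A p) 1 v) = 0 := by
  have h : W A p ≤ LinearMap.ker (top0 ∘ₗ LS (Shift.zero A p) 1) := by
    refine W_span _ ?_
    intro γ f d hf hW
    rw [LinearMap.mem_ker, LinearMap.comp_apply, vp3_LS_single, vp3_top0_single]
    split_ifs with h0
    · subst h0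
      rcases Nat.lt_trichotomy d 1 with hd | hd | hd
      · rw [Lop_eq_zero A p _ 1 f d hf (by exact_mod_cast hd), map_zero]
      · subst hd
        rw [W_deg_one hA hp f hf hW, map_zero, map_zero]
      · exact vp3_cc_homog _ (d - 1) (Lop_homog A p _ 1 f d (d - 1) hf (by omega)) (by omega)
    · rfl
  exact h hv

theorem top0_LS_neg (k : ℤ) (hk : k < 0) (v : VL ι) : top0 (LS (Shift.zero A p) k v) = 0 := by
  refine vp3_ext0 (top0 ∘ₗ LS (Shift.zero A p) k) ?_ v
  intro η f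
  rw [LinearMap.comp_apply, vp3_LS_single, vp3_top0_single, vp3_cc_Lop _ k hk, ite_self]

theorem top0_Ej (hA : IsADE A) (hp : 1 ≤ p) (ε : Cocycle A p) (j : ι) (v : VL ι) :
    top0 (Ej ε (Shift.zero A p) j v) = 0 := by
  refine vp3_ext0 (top0 ∘ₗ Ej ε (Shift.zero A p) j) ?_ v
  intro η f
  rw [LinearMap.comp_apply, Ej_single hA, vp3_top0_single]
  split_ifs with h0
  · have hη : η = -rt j := eq_neg_of_add_eq_zero_left h0
    have hpr : pr A j η = -2 := by
      rw [hη, vp1_pr_neg, vp1_pr_rt, hA.diag j]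
    have hκ : (Shift.zero A p).κ j = 0 := rfl
    rw [smul_eq_C_mul, map_mul, vp3_cc_vop, mul_zero]
    rw [hκ, hpr]
    have : (1 : ℤ) ≤ p := by exact_mod_cast hp
    omega
  · rfl

theorem vp3_pairF_zero_left (g : Fock ι) : pairF A p 0 g = 0 := by
  have := pairF_smul_left A p 0 (0 : Fock ι) g
  rwa [zero_smul, zero_mul] at this

theorem vp3_pairF_zero_right (f : Fock ι) : pairF A p f 0 = 0 := by
  have := pairF_smul_right A p 0 f (0 : Fock ι)
  rwa [zero_smul, zero_mul] at this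

theorem pairV_add_left (ε : Cocycle A p) (t t' v : VL ι) :
    pairV ε (t + t') v = pairV ε t v + pairV ε t' v := by
  unfold pairV
  refine Finsupp.sum_add_index' ?_ ?_
  · intro h
    rw [vp3_pairF_zero_left, mul_zero]
  · intro h f g
    rw [pairF_add_left, mul_add]

theorem pairV_add_right (ε : Cocycle A p) (t v v' : VL ι) :
    pairV ε t (v + v') = pairV ε t v + pairV ε t v' := by
  unfold pairV
  rw [← Finsupp.sum_add]
  refine Finset.sum_congr rfl fun h _ => ?_
  dsimp only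
  rw [Finsupp.add_apply, pairF_add_right, mul_add]

theorem pairV_smul_left (ε : Cocycle A p) (c : ℂ) (t v : VL ι) :
    pairV ε (c • t) v = c * pairV ε t v := by
  unfold pairV
  rw [Finsupp.sum_smul_index' (fun h => by rw [vp3_pairF_zero_left, mul_zero]), Finsupp.mul_sum]
  refine Finset.sum_congr rfl fun h _ => ?_
  dsimp only
  rw [pairF_smul_left]
  ring

theorem pairV_smul_right (ε : Cocycle A p) (c : ℂ) (t v : VL ι) :
    pairV ε t (c • v) = c * pairV ε t v := by
  unfold pairV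
  rw [Finsupp.mul_sum]
  refine Finset.sum_congr rfl fun h _ => ?_
  dsimp only
  rw [Finsupp.smul_apply, pairF_smul_right]
  ring

theorem vp3_pairV_zero_left (ε : Cocycle A p) (v : VL ι) : pairV ε 0 v = 0 := by
  have := pairV_smul_left ε 0 (0 : VL ι) v
  rwa [zero_smul, zero_mul] at this

theorem vp3_pairV_zero_right (ε : Cocycle A p) (t : VL ι) : pairV ε t 0 = 0 := by
  have := pairV_smul_right ε 0 t (0 : VL ι)
  rwa [zero_smul, zero_mul] at this

theorem vp3_pairV_single_left (ε : Cocycle A p) (h : ι → ℤ) (f : Fock ι) (v : VL ι) :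
    pairV ε (Finsupp.single h f) v = sgn ε (-h) * pairF A p f (v (-h)) := by
  unfold pairV
  exact Finsupp.sum_single_index (by rw [vp3_pairF_zero_left, mul_zero])

theorem vp3_pairV_single (ε : Cocycle A p) (h η : ι → ℤ) (f g : Fock ι) :
    pairV ε (Finsupp.single h f) (Finsupp.single η g) =
      if η = -h then sgn ε (-h) * pairF A p f g else 0 := by
  rw [vp3_pairV_single_left]
  split_ifs with he
  · rw [he, Finsupp.single_eq_same]
  · rw [Finsupp.single_eq_of_ne (Ne.symm he), vp3_pairF_zero_right, mul_zero]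

/-- two bilinear expressions agree when they agree on the components -/
theorem vp3_bil (ε : Cocycle A p) (c : ℂ) (P Q : VL ι →ₗ[ℂ] VL ι)
    (h : ∀ (a b : ι → ℤ) (f g : Fock ι),
      pairV ε (P (Finsupp.single a f)) (Finsupp.single b g) =
        c * pairV ε (Finsupp.single a f) (Q (Finsupp.single b g))) (t v : VL ι) :
    pairV ε (P t) v = c * pairV ε t (Q v) := by
  induction t using Finsupp.induction_linear with
  | zero => rw [map_zero, vp3_pairV_zero_left, vp3_pairV_zero_left, mul_zero]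
  | add t t' h1 h2 => rw [map_add, pairV_add_left, h1, h2, pairV_add_left, mul_add]
  | single a f =>
    induction v using Finsupp.induction_linear with
    | zero => rw [map_zero, vp3_pairV_zero_right, vp3_pairV_zero_right, mul_zero]
    | add v v' h1 h2 => rw [map_add, pairV_add_right, h1, h2, pairV_add_right, mul_add]
    | single b g => exact h a b f g

theorem vp3_eps_neg_left (ε : Cocycle A p) (γ η : ι → ℤ) : ε.ε (-γ) η = ε.ε γ η := by
  have h := ε.add_left γ (-γ) η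
  rw [add_neg_cancel, Cocycle.zero_left] at h
  have h2 := eq_inv_of_mul_eq_one_right h.symm
  rw [h2, Int.units_inv_eq_self]

theorem vp3_eps_neg_right (ε : Cocycle A p) (γ η : ι → ℤ) : ε.ε γ (-η) = ε.ε γ η := by
  have h := ε.add_right γ η (-η)
  rw [add_neg_cancel, Cocycle.zero_right] at h
  have h2 := eq_inv_of_mul_eq_one_right h.symm
  rw [h2, Int.units_inv_eq_self]

omit [DecidableEq ι] in
theorem vp3_formZ_neg (γ η : ι → ℤ) : formZ A p (-γ) (-η) = formZ A p γ η := by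
  unfold formZ
  congr 1
  refine Finset.sum_congr rfl fun i _ => Finset.sum_congr rfl fun j _ => ?_
  rw [Pi.neg_apply, Pi.neg_apply]
  ring

omit [DecidableEq ι] in
theorem vp3_formZ_neg_add (γ h : ι → ℤ) :
    formZ A p γ (-(γ + h)) = -formZ A p γ γ - formZ A p γ h := by
  unfold formZ
  rw [← mul_neg, ← mul_sub]
  congr 1
  rw [← Finset.sum_neg_distrib, ← Finset.sum_sub_distrib]
  refine Finset.sum_congr rfl fun i _ => ?_
  rw [← Finset.sum_neg_distrib, ← Finset.sum_sub_distrib]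
  refine Finset.sum_congr rfl fun j _ => ?_
  rw [Pi.neg_apply, Pi.add_apply]
  ring

theorem vp3_wt_neg (γ : ι → ℤ) :
    wtExp A p (-γ) = wtExp A p γ + 2 * (((p : ℤ) - 1) * ∑ i, γ i) := by
  unfold wtExp
  rw [vp3_formZ_neg]
  have : ∑ i, (-γ) i = -∑ i, γ i := by
    rw [← Finset.sum_neg_distrib]
    rfl
  rw [this]
  ring

theorem vp3_dot (hA : IsADE A) (hp : 1 ≤ p) (τ : Shift A p) (hτ : τ.s = (2 : ℂ) • bg A p)
    (γ : ι → ℤ) : τ.dot γ = formZ A p γ γ - 2 * wtExp A p γ := by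
  have h1 : τ.dot γ = 2 * (((p : ℤ) - 1) * ∑ i, γ i) := by
    unfold Shift.dot
    rw [Finset.mul_sum, Finset.mul_sum]
    refine Finset.sum_congr rfl fun i _ => ?_
    rw [tau_kappa hA hp τ hτ i]
    ring
  obtain ⟨c, hc⟩ := two_dvd_formZ (p := p) hA γ
  rw [h1]
  unfold wtExp
  rw [hc, Int.mul_ediv_cancel_left _ (by norm_num : (2 : ℤ) ≠ 0)]
  ring

theorem vp3_sign (hA : IsADE A) (ε : Cocycle A p) (γ h : ι → ℤ) :
    ε.ε (-(γ + h)) (-(γ + h)) * Int.negOnePow (wtExp A p (-(γ + h))) * ε.ε γ h =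
      Int.negOnePow (wtExp A p γ) *
        ((ε.ε (-h) (-h) * Int.negOnePow (wtExp A p (-h))) * ε.ε γ (-(γ + h))) := by
  have e1 : wtExp A p (-(γ + h)) =
      wtExp A p γ + 2 * (((p : ℤ) - 1) * ∑ i, γ i) + wtExp A p (-h) + formZ A p γ h := by
    rw [neg_add, wtExp_add hA, vp3_formZ_neg, vp3_wt_neg γ]
  have e2 : Int.negOnePow (wtExp A p (-(γ + h))) =
      Int.negOnePow (wtExp A p γ) * Int.negOnePow (wtExp A p (-h)) *
        (ε.ε γ h * ε.ε h γ) := by
    rw [e1, Int.negOnePow_add, Int.negOnePow_add, Int.negOnePow_add, Int.negOnePow_even (2 * _)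
      (even_two_mul _), mul_one, ε.comm γ h]
  rw [e2, vp3_eps_neg_left, vp3_eps_neg_right, vp3_eps_neg_right, vp3_eps_neg_left,
    vp3_eps_neg_right, ε.add_left, ε.add_right, ε.add_right]
  have h1 : ε.ε γ h * ε.ε γ h = 1 := Int.units_mul_self _
  have h2 : ε.ε h γ * ε.ε h γ = 1 := Int.units_mul_self _
  calc _ = (ε.ε γ h * ε.ε γ h) * (ε.ε h γ * ε.ε h γ) * (Int.negOnePow (wtExp A p γ) *
        ((ε.ε h h * Int.negOnePow (wtExp A p (-h))) * (ε.ε γ γ * ε.ε γ h))) := by
        simp only [mul_comm, mul_left_comm, mul_assoc]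
    _ = _ := by rw [h1, h2, one_mul, one_mul]

theorem pairV_expS (hA : IsADE A) (hp : 1 ≤ p) (ε : Cocycle A p) (τ : Shift A p)
    (hτ : τ.s = (2 : ℂ) • bg A p) (γ : ι → ℤ) (n : ℤ) (t v : VL ι) :
    pairV ε (expS ε τ γ n t) v = (((Int.negOnePow (wtExp A p γ)) : ℤ) : ℂ) *
      pairV ε t (expS ε (Shift.zero A p) γ (2 * wtExp A p γ - 2 - n) v) := by
  refine vp3_bil ε _ _ _ ?_ t v
  intro h η f g
  rw [expS_single, expS_single, vp3_pairV_single, vp3_pairV_single]
  by_cases he : η = -(γ + h)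
  · have he2 : γ + η = -h := by rw [he]; abel
    rw [if_pos he, if_pos he2, pairF_smul_left, pairF_vop A hA, pairF_smul_right, he]
    have h0 : (Shift.zero A p).dot γ = 0 := by
      unfold Shift.dot Shift.zero
      simp
    have hi : -(2 * wtExp A p γ - 2 - n) - 1 - (Shift.zero A p).dot γ -
        formZ A p γ (-(γ + h)) = -(-n - 1 - τ.dot γ - formZ A p γ h) := by
      rw [h0, vp3_formZ_neg_add, vp3_dot hA hp τ hτ]
      ring
    rw [hi]
    have hs := congrArg (fun x : ℤˣ => ((x : ℤ) : ℂ)) (vp3_sign hA ε γ h)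
    simp only [Units.val_mul, Int.cast_mul] at hs
    unfold sgn
    linear_combination hs * pairF A p f (vop A p (toC γ)
      (-(-n - 1 - τ.dot γ - formZ A p γ h)) g)
  · have he2 : γ + η ≠ -h := by
      intro h2
      apply he
      have : η = -h - γ := eq_sub_of_add_eq' h2
      rw [this]; abel
    rw [if_neg he, if_neg he2, mul_zero]

theorem vp3_wt_rt (hA : IsADE A) (j : ι) : wtExp A p (rt j) = 1 := by
  unfold wtExp
  have h1 : formZ A p (rt j) (rt j) = 2 * p := by
    rw [formZ_rt hA, vp1_pr_rt, hA.diag j]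
    ring
  have h2 : ∑ i, rt j i = 1 := by
    unfold rt
    rw [Finset.sum_pi_single' j 1 Finset.univ, if_pos (Finset.mem_univ j)]
  rw [h1, h2, Int.mul_ediv_cancel_left _ (by norm_num : (2 : ℤ) ≠ 0)]
  ring

theorem pairV_Ej (hA : IsADE A) (hp : 1 ≤ p) (ε : Cocycle A p) (τ : Shift A p)
    (hτ : τ.s = (2 : ℂ) • bg A p) (j : ι) (t v : VL ι) :
    pairV ε (Ej ε τ j t) v = -pairV ε t (Ej ε (Shift.zero A p) j v) := by
  unfold Ej
  rw [pairV_expS hA hp ε τ hτ, vp3_wt_rt hA]
  norm_num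

theorem pairV_LS (hA : IsADE A) (hp : 1 ≤ p) (ε : Cocycle A p) (τ : Shift A p)
    (hτ : τ.s = (2 : ℂ) • bg A p) (k : ℤ) (t v : VL ι) :
    pairV ε (LS τ k t) v = pairV ε t (LS (Shift.zero A p) (-k) v) := by
  have h := vp3_bil ε 1 (LS τ k) (LS (Shift.zero A p) (-k)) ?_ t v
  · rw [h, one_mul]
  intro h η f g
  rw [one_mul, vp3_LS_single, vp3_LS_single, vp3_pairV_single, vp3_pairV_single]
  by_cases he : η = -h
  · rw [if_pos he, if_pos he]
    congr 1
    have h0 : (Shift.zero A p).s + toC η = toC η := by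
      show (0 : ι → ℂ) + toC η = toC η
      rw [zero_add]
    rw [h0]
    refine pairF_Lop A hA p hp (toC η) (τ.s + toC h) ?_ k f g
    rw [hτ, he]
    have : toC (-h) = -toC h := by
      funext i
      unfold toC
      simp
    rw [this, sub_neg_eq_add]
  · rw [if_neg he, if_neg he]

theorem pairV_vac (ε : Cocycle A p) (v : VL ι) : pairV ε vac v = top0 v := by
  unfold vac
  rw [vp3_pairV_single_left, pairF_one_left, neg_zero]
  have h1 : sgn ε (0 : ι → ℤ) = 1 := by
    unfold sgn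
    have h2 : wtExp A p 0 = 0 := by
      unfold wtExp formZ
      simp
    rw [Cocycle.zero_left, h2]
    simp
  rw [h1, one_mul]
  rfl

theorem pairV_cS (hA : IsADE A) (hp : 1 ≤ p) (ε : Cocycle A p) (τ : Shift A p)
    (hτ : τ.s = (2 : ℂ) • bg A p) (lam : ι → ℤ) (js : List ι) (n : ℤ) (t v : VL ι) :
    pairV ε (cS ε τ lam js n t) v = (((Int.negOnePow (wtExp A p (-lam))) : ℤ) : ℂ) *
      pairV ε t (cS ε (Shift.zero A p) lam js (2 * wtExp A p (-lam) - 2 - n) v) := by
  induction js generalizing t v with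
  | nil => exact pairV_expS hA hp ε τ hτ (-lam) n t v
  | cons j js ih =>
    have hneg : ∀ x y z : VL ι, pairV ε (x - y) z = pairV ε x z - pairV ε y z := by
      intro x y z
      rw [sub_eq_add_neg, ← neg_one_smul ℂ y, pairV_add_left, pairV_smul_left]
      ring
    have hneg2 : ∀ x y z : VL ι, pairV ε x (y - z) = pairV ε x y - pairV ε x z := by
      intro x y z
      rw [sub_eq_add_neg, ← neg_one_smul ℂ z, pairV_add_right, pairV_smul_right]
      ring
    have e1 : cS ε τ lam (j :: js) n t =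
        Ej ε τ j (cS ε τ lam js n t) - cS ε τ lam js n (Ej ε τ j t) := rfl
    have e2 : ∀ m : ℤ, cS ε (Shift.zero A p) lam (j :: js) m v =
        Ej ε (Shift.zero A p) j (cS ε (Shift.zero A p) lam js m v) -
          cS ε (Shift.zero A p) lam js m (Ej ε (Shift.zero A p) j v) := fun _ => rfl
    rw [e1, e2, hneg, hneg2, pairV_Ej hA hp ε τ hτ, ih, ih, pairV_Ej hA hp ε τ hτ]
    ring

end

end WPQ
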