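import Pool.Agent.WPQ.NTM
import Pool.Agent.WPQ.SVM
import Pool.Agent.WPQ.PV4
import Pool.Agent.WPQ.DU1
import Pool.Agent.WPQ.VP3

/-! [WPQ-AS0] Virasoro structure of `W(p)_Q`, type `A`: application of `prim_desc'`; orthogonal complements.

Plan.  `as_desc`: `prim_desc'` (SVM) for `L = LS zero`, `V n = Wn A p n`, with `nt_t` (`t`, `Irr t`,
`cc = KV.cc t`, `hdiag`), `LS_comm` (PV1) for `IsVir`, `LS_zero_Vn`, `Wn_neg`, `Wn_zero`, `LS_vac`, `Wn_decomp`;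
see `Wn_gen` (PV3.lean), which applies `KV.prim_desc` in the same way.
`prim_I_low`: `as_desc`: a nonzero element gives `n = h + r*r`, `r ≥ 2`, `h ≥ 1`, so `n ≥ 5`; for `(2,18)`:
`4 ≤ r` (`nt_218h`), so `n ≥ 17`.  `dec_low`: `Wn_decomp`.
`perp_prim`: `L(k) y ∈ Wn (n-k)`, `β(L(k) y, b) = β(y, L(-k) b) = 0` (`beta_LS`, `W_eq_UU`), `beta_left`.
`perp_I`: `β` is perfect on the finite dimensional space `Wn n` (`beta_left`, `beta_right`, `Vn_finite`);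
`I = L(-1) Wn(n-1) + L(-2) Wn(n-2)`; if `y ∉ I` there is a functional on `Wn n` vanishing on `I` with value
`1` on `y`; it is `β(v, ·)` for some `v ∈ Wn n` (`du1_surj`, or dimension count), or directly `exists_left` (DU1)
applied to a hyperplane containing `I` and not `y`; then `v ∈ Prim n` by `perp_prim`, and `β(v, y) ≠ 0`, so
`β(y, v) ≠ 0` (`beta_symm`, AD1). -/

namespace WPQ

open MvPolynomial AF

noncomputable section

/-- The data attached to `t`. -/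
structure TData (l p : ℕ) (t : ℂ) : Prop where
  irr : KV.Irr t
  cc : WPQ.cc (cartanA l) p = KV.cc t
  w : (t - 1) ^ 2 / t = ((wA l p : ℚ) : ℂ)
  diag : ∀ h r s : ℕ, 1 ≤ r → 1 ≤ s → (h : ℂ) = KV.hrs t r s → r = s

theorem exists_tdata (l p : ℕ) (hl : 2 ≤ l) (hp : 2 ≤ p) : ∃ t : ℂ, TData l p t := by
  obtain ⟨t, h1, h2, h3, h4⟩ := nt_t l p hl hp
  exact ⟨t, ⟨h1, h2, h3, h4⟩⟩

theorem as_desc (l p : ℕ) (hl : 2 ≤ l) (hp : 2 ≤ p) (t : ℂ) (ht : TData l p t) (n : ℤ)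
    (y : VL (Fin l)) (hy : y ∈ pv4_Prim (cartanA l) p n)
    (hI : ∃ a ∈ Wn (cartanA l) p (n - 1), ∃ b ∈ Wn (cartanA l) p (n - 2),
      y = LS (Shift.zero (cartanA l) p) (-1) a + LS (Shift.zero (cartanA l) p) (-2) b)
    (hne : y ≠ 0) :
    ∃ (r h : ℕ) (c : Nat.Partition (r * r) → ℂ) (x : VL (Fin l)), 2 ≤ r ∧ 1 ≤ h ∧
      (h : ℂ) = KV.hrs t r r ∧ n = (h : ℤ) + r * r ∧ SV.IsS t r r (r * r) c ∧
      x ∈ pv4_Prim (cartanA l) p h ∧ y = SV.SS (LS (Shift.zero (cartanA l) p)) c x := by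
  have _ := hl
  have hA := cartanA_ade l
  have hp1 : 1 ≤ p := by omega
  have hL : KV.IsVir (KV.cc t) (LS (Shift.zero (cartanA l) p)) := by
    intro m n
    rw [LS_comm hA hp1 m n, ht.cc]
  have hdeg : ∀ k n : ℤ, ∀ v ∈ Wn (cartanA l) p n,
      LS (Shift.zero (cartanA l) p) k v ∈ Wn (cartanA l) p (n - k) :=
    fun k n v hv => ⟨W_LS hA hp1 k v hv.1, LS_Vn k n v hv.2⟩
  have hL0 : ∀ n : ℤ, ∀ v ∈ Wn (cartanA l) p n,
      LS (Shift.zero (cartanA l) p) 0 v = (n : ℂ) • v :=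
    fun n v hv => LS_zero_Vn hA hp1 n v hv.2
  rw [pv4_mem] at hy
  obtain ⟨r, h, c, x, h1, h2, h3, h4, h5, h6, h7, h8, h9⟩ :=
    SV.prim_desc' ht.irr (LS (Shift.zero (cartanA l) p)) hL (Wn (cartanA l) p) hdeg hL0
      (fun m hm => Wn_neg hA hp m hm) vac (fun v hv => Wn_zero hA hp v hv)
      (LS_vac (-1) le_rfl)
      (fun m hm v hv => Wn_decomp hA hp m
        (fun x hx hx1 hx2 y hy z hz hxyz => hm x hx hx1 hx2 ⟨y, hy, z, hz, hxyz⟩) v hv)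
      ht.diag n y hy.1 hy.2.1 hy.2.2 hI hne
  exact ⟨r, h, c, x, h1, h2, h3, h4, h5, (pv4_mem _ _).2 ⟨h6, h7, h8⟩, h9⟩

theorem prim_I_low (l p : ℕ) (hl : 2 ≤ l) (hp : 2 ≤ p) (n : ℤ)
    (hn : n ≤ 4 ∨ (l = 2 ∧ p = 18 ∧ n ≤ 16)) (x : VL (Fin l))
    (hx : x ∈ pv4_Prim (cartanA l) p n)
    (hI : ∃ a ∈ Wn (cartanA l) p (n - 1), ∃ b ∈ Wn (cartanA l) p (n - 2),
      x = LS (Shift.zero (cartanA l) p) (-1) a + LS (Shift.zero (cartanA l) p) (-2) b) : x = 0 := by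
  by_contra hne
  obtain ⟨t, ht⟩ := exists_tdata l p hl hp
  obtain ⟨r, h, c, z, h1, h2, h3, h4, h5, h6, h7⟩ := as_desc l p hl hp t ht n x hx hI hne
  rcases hn with hn | ⟨hl2, hp18, hn⟩
  · have h8 : (2 : ℤ) * 2 ≤ (r : ℤ) * r := by
      have h9 : (2 : ℤ) ≤ r := by exact_mod_cast h1
      nlinarith
    omega
  · subst hl2 hp18
    have h10 : 4 ≤ r := nt_218h t ht.irr ht.w h r h1 h3
    have h8 : (4 : ℤ) * 4 ≤ (r : ℤ) * r := by
      have h9 : (4 : ℤ) ≤ r := by exact_mod_cast h10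
      nlinarith
    omega

theorem dec_low (l p : ℕ) (hl : 2 ≤ l) (hp : 2 ≤ p) (n : ℤ)
    (hn : n ≤ 4 ∨ (l = 2 ∧ p = 18 ∧ n ≤ 16)) (v : VL (Fin l)) (hv : v ∈ Wn (cartanA l) p n) :
    ∃ x ∈ pv4_Prim (cartanA l) p n, ∃ y ∈ Wn (cartanA l) p (n - 1),
      ∃ z ∈ Wn (cartanA l) p (n - 2),
        v = x + LS (Shift.zero (cartanA l) p) (-1) y + LS (Shift.zero (cartanA l) p) (-2) z := by
  obtain ⟨x, hx, y, hy, z, hz, h1, h2, h3⟩ := Wn_decomp (cartanA_ade l) hp n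
    (fun x hx hx1 hx2 y hy z hz hxyz => prim_I_low l p hl hp n hn x
      ((pv4_mem _ _).2 ⟨hx, hx1, hx2⟩) ⟨y, hy, z, hz, hxyz⟩) v hv
  exact ⟨x, (pv4_mem _ _).2 ⟨hx, h1, h2⟩, y, hy, z, hz, h3⟩

variable {ι : Type} [Fintype ι] [DecidableEq ι] {A : Matrix ι ι ℤ} {p : ℕ}

theorem perp_prim (hA : IsADE A) (hp : 2 ≤ p) (ε : Cocycle A p) (τ : Shift A p)
    (hτ : τ.s = (2 : ℂ) • bg A p) (n : ℤ) (y : VL ι) (hy : y ∈ Wn A p n)
    (h1 : ∀ a ∈ Wn A p (n - 1), beta ε τ y (LS (Shift.zero A p) (-1) a) = 0)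
    (h2 : ∀ b ∈ Wn A p (n - 2), beta ε τ y (LS (Shift.zero A p) (-2) b) = 0) :
    y ∈ pv4_Prim A p n := by
  have hp1 : 1 ≤ p := by omega
  have hyU : y ∈ UU ε := by
    rw [← W_eq_UU hA hp ε]
    exact hy.1
  rw [pv4_mem]
  refine ⟨hy, ?_, ?_⟩
  · refine beta_left hA hp ε τ hτ (n - 1) _ ⟨W_LS hA hp1 1 y hy.1, LS_Vn 1 n y hy.2⟩ ?_
    intro v hv
    rw [beta_LS hA hp ε τ hτ 1 y v hyU hv.1]
    exact h1 v hv
  · refine beta_left hA hp ε τ hτ (n - 2) _ ⟨W_LS hA hp1 2 y hy.1, LS_Vn 2 n y hy.2⟩ ?_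
    intro v hv
    rw [beta_LS hA hp ε τ hτ 2 y v hyU hv.1]
    exact h2 v hv

theorem as0_fun {V : Type} [AddCommGroup V] [Module ℂ V] (I : Submodule ℂ V) (x : V)
    (h : x ∉ I) : ∃ φ : V →ₗ[ℂ] ℂ, φ x ≠ 0 ∧ ∀ y ∈ I, φ y = 0 := by
  have h1 : (I.mkQ x) ≠ 0 := by
    intro h0
    rw [Submodule.mkQ_apply, Submodule.Quotient.mk_eq_zero] at h0
    exact h h0
  have h2 : ¬ ∀ φ : Module.Dual ℂ (V ⧸ I), φ (I.mkQ x) = 0 := by
    intro h3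
    exact h1 ((Module.forall_dual_apply_eq_zero_iff ℂ (I.mkQ x)).1 h3)
  rw [not_forall] at h2
  obtain ⟨φ, hφ⟩ := h2
  refine ⟨φ ∘ₗ I.mkQ, hφ, fun y hy => ?_⟩
  have h4 : I.mkQ y = 0 := by
    rw [Submodule.mkQ_apply, Submodule.Quotient.mk_eq_zero]
    exact hy
  rw [LinearMap.comp_apply, h4, map_zero]

theorem perp_I (hA : IsADE A) (hp : 2 ≤ p) (ε : Cocycle A p) (τ : Shift A p)
    (hτ : τ.s = (2 : ℂ) • bg A p)
    (hsymm : ∀ a b : VL ι, a ∈ W A p → b ∈ W A p → beta ε τ a b = beta ε τ b a) (n : ℤ)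
    (y : VL ι) (hy : y ∈ Wn A p n) (h : ∀ v ∈ pv4_Prim A p n, beta ε τ y v = 0) :
    ∃ a ∈ Wn A p (n - 1), ∃ b ∈ Wn A p (n - 2),
      y = LS (Shift.zero A p) (-1) a + LS (Shift.zero A p) (-2) b := by
  have hp1 : 1 ≤ p := by omega
  have hVf : FiniteDimensional ℂ (Vn A p n) := Vn_finite hA hp1 n
  have hW : FiniteDimensional ℂ (Wn A p n) := Submodule.finiteDimensional_inf_right _ _
  have hLS : ∀ (k m : ℤ) (y : VL ι), y ∈ Wn A p m → LS (Shift.zero A p) k y ∈ Wn A p (m - k) :=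
    fun k m y hy => ⟨W_LS hA hp1 k y hy.1, LS_Vn k m y hy.2⟩
  by_contra hcon
  let I : Submodule ℂ (VL ι) := (Wn A p (n - 1)).map (LS (Shift.zero A p) (-1)) ⊔
    (Wn A p (n - 2)).map (LS (Shift.zero A p) (-2))
  have hyI : y ∉ I := by
    intro h1
    obtain ⟨u, hu, v, hv, huv⟩ := Submodule.mem_sup.1 h1
    obtain ⟨a, ha, rfl⟩ := Submodule.mem_map.1 hu
    obtain ⟨b, hb, rfl⟩ := Submodule.mem_map.1 hv
    exact hcon ⟨a, ha, b, hb, huv.symm⟩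
  have hyI' : (⟨y, hy⟩ : Wn A p n) ∉ I.comap (Wn A p n).subtype := fun h1 => hyI h1
  obtain ⟨φ, hφ1, hφ2⟩ := as0_fun (V := Wn A p n) _ _ hyI'
  have hsurj := du1_surj (V := Wn A p n) ((du1_B ε τ).domRestrict₁₂ (Wn A p n) (Wn A p n))
    fun t ht => by
      refine Subtype.ext (beta_left hA hp ε τ hτ n t t.2 fun v hv => ?_)
      exact ht ⟨v, hv⟩
  obtain ⟨v, hv⟩ := hsurj φ
  have hvβ : ∀ z (hz : z ∈ Wn A p n), beta ε τ v z = φ ⟨z, hz⟩ := by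
    intro z hz
    rw [← hv]
    rfl
  have hvP : (v : VL ι) ∈ pv4_Prim A p n := by
    refine perp_prim hA hp ε τ hτ n v v.2 ?_ ?_
    · intro a ha
      have h3 : LS (Shift.zero A p) (-1) a ∈ Wn A p n := by
        have h4 := hLS (-1) (n - 1) a ha
        rwa [show n - 1 - -1 = n by ring] at h4
      rw [hvβ _ h3]
      refine hφ2 _ ?_
      exact (le_sup_left : _ ≤ I) (Submodule.mem_map.2 ⟨a, ha, rfl⟩)
    · intro b hb
      have h3 : LS (Shift.zero A p) (-2) b ∈ Wn A p n := by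
        have h4 := hLS (-2) (n - 2) b hb
        rwa [show n - 2 - -2 = n by ring] at h4
      rw [hvβ _ h3]
      refine hφ2 _ ?_
      exact (le_sup_right : _ ≤ I) (Submodule.mem_map.2 ⟨b, hb, rfl⟩)
  have h5 := h v hvP
  rw [hsymm y v hy.1 v.2.1, hvβ y hy] at h5
  exact hφ1 h5

end

end WPQ
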