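import Pool.Agent.WPQ.WK5
import Pool.Agent.WPQ.VA3

/-! [WPQ-WK6] The system of operators on the weight spaces of `W(p)_Q` (block WK, helper88). -/

namespace WPQ.WK

noncomputable section

variable {ι : Type} [Fintype ι] [DecidableEq ι] {A : Matrix ι ι ℤ} {p : ℕ}

/-- the charge operator on `V_L` -/
def Gop (i : ι) : VL ι →ₗ[ℂ] VL ι :=
  Finsupp.lsum ℂ fun η : ι → ℤ => ((η i : ℤ) : ℂ) • Finsupp.lsingle η

/-- the projection to the charge `g` -/
def Pop (g : ι → ℤ) : VL ι →ₗ[ℂ] VL ι := Finsupp.lsingle g ∘ₗ Finsupp.lapply g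

omit [Fintype ι] [DecidableEq ι] in
theorem Gop_single (i : ι) (η : ι → ℤ) (f : Fock ι) :
    Gop i (Finsupp.single η f) = ((η i : ℤ) : ℂ) • (Finsupp.single η f : VL ι) := by
  unfold Gop
  rw [Finsupp.lsum_single]
  rfl

omit [Fintype ι] [DecidableEq ι] in
theorem Pop_apply (g : ι → ℤ) (v : VL ι) : Pop g v = Finsupp.single g (v g) := rfl

omit [Fintype ι] [DecidableEq ι] in
theorem Gop_apply (i : ι) (v : VL ι) (γ : ι → ℤ) : Gop i v γ = ((γ i : ℤ) : ℂ) • v γ := by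
  classical
  have h : Finsupp.lapply γ ∘ₗ Gop i = ((γ i : ℤ) : ℂ) • (Finsupp.lapply γ : VL ι →ₗ[ℂ] Fock ι) := by
    refine Finsupp.lhom_ext fun η f => ?_
    rw [LinearMap.comp_apply, Gop_single, map_smul, LinearMap.smul_apply]
    by_cases h : η = γ
    · subst h
      rfl
    · have h1 : (Finsupp.lapply γ : VL ι →ₗ[ℂ] Fock ι) (Finsupp.single η f) = 0 :=
        Finsupp.single_eq_of_ne (Ne.symm h)
      rw [h1, smul_zero, smul_zero]
  exact congrArg (fun f : VL ι →ₗ[ℂ] Fock ι => f v) h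

theorem Gop_mem (n : ℤ) (i : ι) (v : VL ι) (hv : v ∈ Wn A p n) : Gop i v ∈ Wn A p n := by
  have e : Gop i v = ∑ γ ∈ v.support, ((γ i : ℤ) : ℂ) • (Finsupp.single γ (v γ) : VL ι) := by
    conv_lhs => rw [← Finsupp.sum_single v]
    rw [Finsupp.sum, map_sum]
    exact Finset.sum_congr rfl fun γ _ => Gop_single i γ _
  rw [e]
  exact Submodule.sum_mem _ fun γ _ => Submodule.smul_mem _ _ (pv2_mem n v hv γ)

theorem E_mem (hA : IsADE A) (hp : 2 ≤ p) (ε : Cocycle A p) (n : ℤ) (j : ι) (v : VL ι)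
    (hv : v ∈ Wn A p n) : Ej ε (Shift.zero A p) j v ∈ Wn A p n :=
  ⟨W_Ej hA hp ε j _ hv.1, Ej_Vn hA ε j n _ hv.2⟩

/-- the weight space as a type -/
def WT (A : Matrix ι ι ℤ) (p : ℕ) (n : ℤ) : Type := Wn A p n

instance (n : ℤ) : AddCommGroup (WT A p n) := inferInstanceAs (AddCommGroup (Wn A p n))

instance (n : ℤ) : Module ℂ (WT A p n) := inferInstanceAs (Module ℂ (Wn A p n))

/-- the inclusion -/
def cv (A : Matrix ι ι ℤ) (p : ℕ) (n : ℤ) : WT A p n →ₗ[ℂ] VL ι := (Wn A p n).subtype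

theorem cv_inj (n : ℤ) : Function.Injective (cv A p n) := Subtype.val_injective

theorem cv_mem (n : ℤ) (v : WT A p n) : cv A p n v ∈ Wn A p n := v.2

/-- elements -/
def mkW (n : ℤ) (v : VL ι) (hv : v ∈ Wn A p n) : WT A p n := ⟨v, hv⟩

theorem cv_mk (n : ℤ) (v : VL ι) (hv : v ∈ Wn A p n) : cv A p n (mkW n v hv) = v := rfl

/-- restriction of operators -/
def res (n : ℤ) (T : VL ι →ₗ[ℂ] VL ι) (h : ∀ v ∈ Wn A p n, T v ∈ Wn A p n) :
    WT A p n →ₗ[ℂ] WT A p n := T.restrict h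

theorem cv_res (n : ℤ) (T : VL ι →ₗ[ℂ] VL ι) (h : ∀ v ∈ Wn A p n, T v ∈ Wn A p n)
    (v : WT A p n) : cv A p n (res n T h v) = T (cv A p n v) := rfl

/-- the operators on the weight space -/
def En (hA : IsADE A) (hp : 2 ≤ p) (ε : Cocycle A p) (n : ℤ) (j : ι) :
    WT A p n →ₗ[ℂ] WT A p n := res n (Ej ε (Shift.zero A p) j) (E_mem hA hp ε n j)

/-- charges on the weight space -/
def Gn (A : Matrix ι ι ℤ) (p : ℕ) (n : ℤ) (i : ι) : WT A p n →ₗ[ℂ] WT A p n :=
  res n (Gop i) (Gop_mem n i)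

/-- projections on the weight space -/
def Pn (A : Matrix ι ι ℤ) (p : ℕ) (n : ℤ) (g : ι → ℤ) : WT A p n →ₗ[ℂ] WT A p n :=
  res n (Pop g) fun v hv => pv2_mem n v hv g

/-- the Cartan operators -/
def HGn (A : Matrix ι ι ℤ) (p : ℕ) (n : ℤ) (j : ι) : WT A p n →ₗ[ℂ] WT A p n :=
  ∑ i, (A j i : ℂ) • Gn A p n i

theorem En_coe (hA : IsADE A) (hp : 2 ≤ p) (ε : Cocycle A p) (n : ℤ) (j : ι) (v : WT A p n) :
    cv A p n (En hA hp ε n j v) = Ej ε (Shift.zero A p) j (cv A p n v) := rfl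

theorem Gn_coe (n : ℤ) (i : ι) (v : WT A p n) : cv A p n (Gn A p n i v) = Gop i (cv A p n v) :=
  rfl

theorem Pn_coe (n : ℤ) (g : ι → ℤ) (v : WT A p n) :
    cv A p n (Pn A p n g v) = Finsupp.single g (cv A p n v g) := rfl

theorem En_pow_coe (hA : IsADE A) (hp : 2 ≤ p) (ε : Cocycle A p) (n : ℤ) (j : ι) (b : ℕ)
    (v : WT A p n) : cv A p n ((En hA hp ε n j ^ b) v) =
      (Ej ε (Shift.zero A p) j ^ b) (cv A p n v) := by
  induction b with
  | zero => rfl
  | succ b ih => rw [pow_succ_apply', pow_succ_apply', En_coe, ih]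

/-- the homogeneous vectors -/
def S0 (A : Matrix ι ι ℤ) (p : ℕ) (n : ℤ) : Set (WT A p n) :=
  {v | ∃ (γ : ι → ℤ) (f : Fock ι), cv A p n v = Finsupp.single γ f}

theorem span_S0 (n : ℤ) : Submodule.span ℂ (S0 A p n) = ⊤ := by
  rw [eq_top_iff]
  intro v _
  have e : v = ∑ γ ∈ (cv A p n v).support, Pn A p n γ v := by
    refine cv_inj n ?_
    rw [map_sum]
    simp only [Pn_coe]
    exact (Finsupp.sum_single (cv A p n v)).symm
  rw [e]
  exact Submodule.sum_mem _ fun γ _ => Submodule.subset_span ⟨γ, _, Pn_coe n γ v⟩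

theorem Gn_S0 (n : ℤ) (i : ι) (v : WT A p n) (γ : ι → ℤ) (f : Fock ι)
    (h : cv A p n v = Finsupp.single γ f) : Gn A p n i v = ((γ i : ℤ) : ℂ) • v := by
  refine cv_inj n ?_
  rw [Gn_coe, h, Gop_single, map_smul, h]

theorem HGn_apply (n : ℤ) (j : ι) (v : WT A p n) (γ : ι → ℤ) :
    cv A p n (HGn A p n j v) γ = ((pr A j γ : ℤ) : ℂ) • (cv A p n v) γ := by
  rw [HGn, LinearMap.sum_apply, map_sum, Finsupp.finsetSum_apply]
  simp only [LinearMap.smul_apply, map_smul, Gn_coe, Finsupp.smul_apply, Gop_apply,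
    smul_smul]
  rw [← Finset.sum_smul]
  congr 1
  unfold pr
  push_cast
  rfl

theorem HGn_S0 (n : ℤ) (j : ι) (v : WT A p n) (γ : ι → ℤ) (f : Fock ι)
    (h : cv A p n v = Finsupp.single γ f) : HGn A p n j v = ((pr A j γ : ℤ) : ℂ) • v := by
  rw [HGn, LinearMap.sum_apply]
  simp only [LinearMap.smul_apply, Gn_S0 n _ v γ f h, smul_smul]
  rw [← Finset.sum_smul]
  congr 1
  unfold pr
  push_cast
  rfl

theorem span_G (n : ℤ) :
    Submodule.span ℂ {v : WT A p n | ∀ i, ∃ k : ℤ, Gn A p n i v = (k : ℂ) • v} = ⊤ := by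
  rw [eq_top_iff, ← span_S0 n]
  refine Submodule.span_mono ?_
  rintro v ⟨γ, f, h⟩ i
  exact ⟨γ i, Gn_S0 n i v γ f h⟩

theorem span_H (n : ℤ) :
    Submodule.span ℂ {v : WT A p n | ∀ i, ∃ k : ℤ, HGn A p n i v = (k : ℂ) • v} = ⊤ := by
  rw [eq_top_iff, ← span_S0 n]
  refine Submodule.span_mono ?_
  rintro v ⟨γ, f, h⟩ i
  exact ⟨pr A i γ, HGn_S0 n i v γ f h⟩

theorem Gn_En (hA : IsADE A) (hp : 2 ≤ p) (ε : Cocycle A p) (n : ℤ) (i j : ι) (v : WT A p n) :
    Gn A p n i (En hA hp ε n j v) = En hA hp ε n j (Gn A p n i v) +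
      if i = j then En hA hp ε n j v else 0 := by
  have h : Gn A p n i ∘ₗ En hA hp ε n j = En hA hp ε n j ∘ₗ Gn A p n i +
      if i = j then En hA hp ε n j else 0 := by
    refine ext_span (span_S0 n) ?_
    rintro v ⟨γ, f, h⟩
    have h1 : cv A p n (En hA hp ε n j v) = Finsupp.single (γ + rt j)
        (((ε.ε (rt j) γ : ℤ) : ℂ) • vop A p (bb j) (-1 - ((Shift.zero A p).κ j + p * pr A j γ)) f) := by
      rw [En_coe, h, Ej_single hA]
    rw [LinearMap.comp_apply, LinearMap.add_apply, LinearMap.comp_apply,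
      Gn_S0 n i _ _ _ h1, Gn_S0 n i v γ f h, map_smul]
    simp only [Pi.add_apply, rt, Pi.single_apply]
    split_ifs with hij
    · push_cast
      rw [add_smul, one_smul]
    · rw [add_zero, LinearMap.zero_apply, add_zero]
  have h2 := congrArg (fun f : WT A p n →ₗ[ℂ] WT A p n => f v) h
  simp only [LinearMap.comp_apply, LinearMap.add_apply] at h2
  rw [h2]
  split_ifs <;> rfl

theorem Pop_Ej (hA : IsADE A) (ε : Cocycle A p) (j : ι) (b : ℕ) (γ : ι → ℤ) (v : VL ι) :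
    Pop (γ + b • rt j) ((Ej ε (Shift.zero A p) j ^ b) v) =
      (Ej ε (Shift.zero A p) j ^ b) (Pop γ v) := by
  have h : Pop (γ + b • rt j) ∘ₗ (Ej ε (Shift.zero A p) j ^ b) =
      (Ej ε (Shift.zero A p) j ^ b) ∘ₗ (Pop γ : VL ι →ₗ[ℂ] VL ι) := by
    refine Finsupp.lhom_ext fun δ f => ?_
    rw [LinearMap.comp_apply, LinearMap.comp_apply, Ej_pow_single hA, Pop_apply, Pop_apply]
    by_cases h : δ = γ
    · subst h
      rw [Finsupp.single_eq_same, Finsupp.single_eq_same, Ej_pow_single hA]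
    · have h1 : γ + b • rt j ≠ δ + b • rt j := fun h2 => h (add_right_cancel h2).symm
      rw [Finsupp.single_eq_of_ne h1, Finsupp.single_eq_of_ne (Ne.symm h), Finsupp.single_zero,
        Finsupp.single_zero, map_zero]
  exact congrArg (fun f : VL ι →ₗ[ℂ] VL ι => f v) h

theorem inj_n (hA : IsADE A) (hp : 2 ≤ p) (ε : Cocycle A p) (n : ℤ) (j : ι) (b : ℕ)
    (v : WT A p n) (hv : HGn A p n j v = (-(b : ℂ)) • v) (h : (En hA hp ε n j ^ b) v = 0) :
    v = 0 := by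
  refine cv_inj n ?_
  ext1 γ
  rw [map_zero, Finsupp.zero_apply]
  by_contra h0
  have h1 : ((pr A j γ : ℤ) : ℂ) • (cv A p n v) γ = (-(b : ℂ)) • (cv A p n v) γ := by
    rw [← HGn_apply, hv]
    rfl
  have h2 : pr A j γ = -(b : ℤ) := by
    have h3 := smul_left_injective ℂ h0 h1
    have h4 : ((pr A j γ : ℤ) : ℂ) = ((-(b : ℤ) : ℤ) : ℂ) := by
      rw [h3]
      push_cast
      rfl
    exact Int.cast_injective h4
  have h3 : (Ej ε (Shift.zero A p) j ^ b) (Finsupp.single γ (cv A p n v γ)) = 0 := by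
    rw [← Pop_apply, ← Pop_Ej hA, ← En_pow_coe hA hp, h]
    exact map_zero _
  rcases Vn_comp n _ (cv_mem n v).2 γ with h4 | ⟨d, hd, -⟩
  · exact h0 h4
  · exact Ej_pow_ne_zero hA (by omega) ε j d b γ h2 _ hd h0 h3

/-- the pairing -/
def Bn (ε : Cocycle A p) (τ : Shift A p) (n : ℤ) : WT A p n →ₗ[ℂ] WT A p n →ₗ[ℂ] ℂ :=
  (du1_B ε τ).domRestrict₁₂ (Wn A p n) (Wn A p n)

theorem Bn_apply (ε : Cocycle A p) (τ : Shift A p) (n : ℤ) (a b : WT A p n) :
    Bn ε τ n a b = beta ε τ (cv A p n a) (cv A p n b) := rfl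

theorem Bn_left (hA : IsADE A) (hp : 2 ≤ p) (ε : Cocycle A p) (τ : Shift A p)
    (hτ : τ.s = (2 : ℂ) • bg A p) (n : ℤ) (a : WT A p n) (h : ∀ b, Bn ε τ n a b = 0) : a = 0 :=
  cv_inj n (beta_left hA hp ε τ hτ n _ (cv_mem n a) fun v hv => h (mkW n v hv))

theorem Bn_G (hA : IsADE A) (hp : 2 ≤ p) (ε : Cocycle A p) (τ : Shift A p)
    (hτ : τ.s = (2 : ℂ) • bg A p) (n : ℤ) (i : ι) (a b : WT A p n) :
    Bn ε τ n (Gn A p n i a) b = -Bn ε τ n a (Gn A p n i b) := by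
  have h : Bn ε τ n ∘ₗ Gn A p n i = -(Bn ε τ n).compl₂ (Gn A p n i) := by
    refine ext_span (span_S0 n) ?_
    rintro a ⟨γ, f, ha⟩
    refine ext_span (span_S0 n) ?_
    rintro b ⟨δ, g, hb⟩
    rw [LinearMap.comp_apply, LinearMap.neg_apply, LinearMap.neg_apply, LinearMap.compl₂_apply,
      Gn_S0 n i a γ f ha, Gn_S0 n i b δ g hb, map_smul, map_smul, LinearMap.smul_apply]
    by_cases hδ : δ = -γ
    · subst hδ
      rw [Pi.neg_apply]
      push_cast
      rw [neg_smul, neg_neg]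
    · have h0 : Bn ε τ n a b = 0 := by
        rw [Bn_apply]
        rcases Vn_comp n _ (cv_mem n a).2 γ with h4 | ⟨d, hd, -⟩
        · rw [ha, Finsupp.single_eq_same] at h4
          rw [ha, h4, Finsupp.single_zero]
          exact congrArg (fun f : VL ι →ₗ[ℂ] ℂ => f (cv A p n b)) (map_zero (du1_B ε τ))
        · rcases Vn_comp n _ (cv_mem n b).2 δ with h5 | ⟨e, he, -⟩
          · rw [hb, Finsupp.single_eq_same] at h5
            rw [hb, h5, Finsupp.single_zero]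
            exact map_zero (du1_B ε τ (cv A p n a))
          · rw [ha, Finsupp.single_eq_same] at hd
            rw [hb, Finsupp.single_eq_same] at he
            rw [ha, hb]
            exact beta_single hA (by omega) ε τ hτ γ δ f g d e hd he (Or.inl hδ)
      rw [h0, smul_zero, smul_zero, neg_zero]
  have h2 := congrArg (fun f : WT A p n →ₗ[ℂ] WT A p n →ₗ[ℂ] ℂ => f a b) h
  exact h2

theorem Bn_E (hA : IsADE A) (hp : 2 ≤ p) (ε : Cocycle A p) (τ : Shift A p)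
    (hτ : τ.s = (2 : ℂ) • bg A p) (n : ℤ) (j : ι) (a b : WT A p n) :
    Bn ε τ n (En hA hp ε n j a) b = -Bn ε τ n a (En hA hp ε n j b) := by
  rw [Bn_apply, Bn_apply, En_coe, En_coe]
  exact beta_Ej hA (by omega) ε τ hτ j _ _

theorem Bn_H (hA : IsADE A) (hp : 2 ≤ p) (ε : Cocycle A p) (τ : Shift A p)
    (hτ : τ.s = (2 : ℂ) • bg A p) (n : ℤ) (j : ι) (a b : WT A p n) :
    Bn ε τ n (HGn A p n j a) b = -Bn ε τ n a (HGn A p n j b) := by
  unfold HGn
  simp only [LinearMap.sum_apply, LinearMap.smul_apply, map_sum, map_smul, smul_eq_mul]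
  rw [← Finset.sum_neg_distrib]
  refine Finset.sum_congr rfl fun i _ => ?_
  rw [Bn_G hA hp ε τ hτ]
  ring

theorem finite_n (hA : IsADE A) (hp : 2 ≤ p) (n : ℤ) : FiniteDimensional ℂ (WT A p n) := by
  have hVf : FiniteDimensional ℂ (Vn A p n) := Vn_finite hA (by omega) n
  exact (Submodule.finiteDimensional_inf_right _ _ : FiniteDimensional ℂ (Wn A p n))

theorem Hc (hA : IsADE A) (hp : 2 ≤ p) (ε : Cocycle A p) (n : ℤ) (i j : ι) (v : WT A p n) :
    HGn A p n i (En hA hp ε n j v) = En hA hp ε n j (HGn A p n i v) +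
      (A i j : ℂ) • En hA hp ε n j v := by
  unfold HGn
  simp only [LinearMap.sum_apply, LinearMap.smul_apply, Gn_En, map_sum, map_smul, smul_add,
    smul_ite, smul_zero, Finset.sum_add_distrib]
  rw [Finset.sum_ite_eq', if_pos (Finset.mem_univ j)]

theorem U_dim (hA : IsADE A) (hp : 2 ≤ p) (ε : Cocycle A p) (τ : Shift A p)
    (hτ : τ.s = (2 : ℂ) • bg A p) (n : ℤ) (j : ι) (k : ℤ) :
    Module.finrank ℂ (U (HGn A p n j) k) ≤ Module.finrank ℂ (U (HGn A p n j) (-k)) := by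
  have := finite_n hA hp n
  refine du1_dim (V := U (HGn A p n j) k) (U := U (HGn A p n j) (-k))
    ((Bn ε τ n).domRestrict₁₂ (U (HGn A p n j) k) (U (HGn A p n j) (-k))) ?_
  rintro ⟨a, ha⟩ h
  refine Subtype.ext (Bn_left hA hp ε τ hτ n a fun b => ?_)
  have hs : ⨆ m : ℤ, U (HGn A p n j) m = ⊤ := by
    rw [eq_top_iff, ← span_S0 n, Submodule.span_le]
    rintro v ⟨γ, f, hv⟩
    exact Submodule.mem_iSup_of_mem (pr A j γ) (mem_U.2 (HGn_S0 n j v γ f hv))
  have h1 : Bn ε τ n a = 0 := by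
    refine ext_U hs fun m b hb => ?_
    rw [LinearMap.zero_apply]
    by_cases hm : m = -k
    · subst hm
      exact h ⟨b, hb⟩
    · have h2 := Bn_H hA hp ε τ hτ n j a b
      rw [mem_U.1 ha, mem_U.1 hb, map_smul, map_smul, LinearMap.smul_apply, smul_eq_mul,
        smul_eq_mul] at h2
      have h3 : ((k : ℂ) + (m : ℂ)) * Bn ε τ n a b = 0 := by rw [add_mul, h2]; ring
      refine (mul_eq_zero.1 h3).resolve_left fun h4 => hm ?_
      have h5 : ((k + m : ℤ) : ℂ) = ((0 : ℤ) : ℂ) := by push_cast; exact h4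
      have h6 := Int.cast_injective h5
      omega
  rw [h1, LinearMap.zero_apply]

theorem abs_surj {V : Type} [AddCommGroup V] [Module ℂ V] [FiniteDimensional ℂ V]
    {E H : V →ₗ[ℂ] V} (hc : ∀ v, H (E v) = E (H v) + (2 : ℂ) • E v) (b : ℕ)
    (hi : ∀ v, H v = (-(b : ℂ)) • v → (E ^ b) v = 0 → v = 0)
    (hle : Module.finrank ℂ (U H b) ≤ Module.finrank ℂ (U H (-b)))
    (w : V) (hw : H w = (b : ℂ) • w) : ∃ v, H v = (-(b : ℂ)) • v ∧ (E ^ b) v = w := by
  have hmap : ∀ x ∈ U H (-b), (E ^ b) x ∈ U H b := by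
    intro x hx
    have h := Ep_U hc hx b
    have e : (-b : ℤ) + 2 * (b : ℤ) = b := by ring
    rwa [e] at h
  have hU : ∀ v, v ∈ U H (-b) ↔ H v = (-(b : ℂ)) • v := by
    intro v
    rw [mem_U]
    push_cast
    rfl
  let f : U H (-b) →ₗ[ℂ] U H b := (E ^ b).restrict hmap
  have hf : Function.Injective f := by
    rw [← LinearMap.ker_eq_bot, LinearMap.ker_eq_bot']
    intro x hx
    have h1 : (E ^ b) (x : V) = 0 := by
      have := congrArg Subtype.val hx
      simpa [f] using this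
    exact Subtype.ext (hi x ((hU _).1 x.2) h1)
  have hd : Module.finrank ℂ (U H (-b)) = Module.finrank ℂ (U H b) :=
    le_antisymm (LinearMap.finrank_le_finrank_of_injective hf) hle
  have hsurj : Function.Surjective f :=
    (LinearMap.injective_iff_surjective_of_finrank_eq_finrank hd).1 hf
  obtain ⟨⟨v, hv⟩, h1⟩ := hsurj ⟨w, mem_U.2 (by rw [hw]; push_cast; rfl)⟩
  exact ⟨v, (hU _).1 hv, congrArg Subtype.val h1⟩

theorem surj_n (hA : IsADE A) (hp : 2 ≤ p) (ε : Cocycle A p) (n : ℤ) (j : ι) (b : ℕ)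
    (w : WT A p n) (hw : HGn A p n j w = (b : ℂ) • w) :
    ∃ v, HGn A p n j v = (-(b : ℂ)) • v ∧ (En hA hp ε n j ^ b) v = w := by
  have := finite_n hA hp n
  obtain ⟨τ, hτ⟩ := exists_tau (p := p) hA (by omega)
  refine abs_surj (fun v => ?_) b (inj_n hA hp ε n j b) (U_dim hA hp ε τ hτ n j b) w hw
  rw [Hc, hA.diag]
  norm_num

theorem sys_n (hA : IsADE A) (hp : 2 ≤ p) (ε : Cocycle A p) (n : ℤ) :
    Sys A (En hA hp ε n) (HGn A p n) where
  span := span_H n
  comm := Hc hA hp ε n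
  inj := inj_n hA hp ε n
  surj := surj_n hA hp ε n
  serre0 i j _ h v := by
    refine cv_inj n ?_
    simp only [En_coe]
    exact (congrArg (fun f : VL ι →ₗ[ℂ] VL ι => f (cv A p n v))
      (comm_Ej hA ε (Shift.zero A p) i j h)).symm
  serre1 i j _ h v := by
    refine cv_inj n ?_
    have h1 := congrArg (fun f : VL ι →ₗ[ℂ] VL ι => f (cv A p n v))
      (serre_Ej hA (by omega : 1 ≤ p) ε j i (by rw [hA.symm, h]))
    simp only [LinearMap.add_apply, LinearMap.sub_apply, LinearMap.smul_apply,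
      LinearMap.comp_apply, LinearMap.zero_apply] at h1
    simp only [map_add, map_sub, map_smul, En_coe, map_zero]
    exact h1

end

end WPQ.WK
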