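import Pool.Agent.WPQ.LWD
import Pool.Agent.WPQ.VA3
import Pool.Agent.WPQ.WK6

/-! WPQ part C, block WK: the pairing is nondegenerate on `Wk` (helper88). -/

namespace WPQ

open MvPolynomial

noncomputable section

namespace WK

theorem surj_dual {V : Type} [AddCommGroup V] [Module ℂ V] [FiniteDimensional ℂ V]
    (B : V →ₗ[ℂ] V →ₗ[ℂ] ℂ) (h : ∀ v, (∀ u, B v u = 0) → v = 0) (φ : V →ₗ[ℂ] ℂ) :
    ∃ v, ∀ x, B x v = φ x := by
  have h1 : Function.Injective B := by
    rw [injective_iff_map_eq_zero]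
    intro v hv
    exact h v fun u => by rw [hv, LinearMap.zero_apply]
  have h2 : Function.Surjective B.flip := LinearMap.flip_surjective_iff₁.2 h1
  obtain ⟨v, hv⟩ := h2 φ
  exact ⟨v, fun x => by rw [← hv, LinearMap.flip_apply]⟩

theorem right_dual {V : Type} [AddCommGroup V] [Module ℂ V] [FiniteDimensional ℂ V]
    (B : V →ₗ[ℂ] V →ₗ[ℂ] ℂ) (h : ∀ v, (∀ u, B v u = 0) → v = 0) (v : V)
    (hv : ∀ x, B x v = 0) : v = 0 := by
  have h3 : Function.Surjective B := du1_surj B h
  have h4 : Function.Injective B.flip := LinearMap.flip_injective_iff₁.2 h3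
  refine (injective_iff_map_eq_zero B.flip).1 h4 v ?_
  ext x
  rw [LinearMap.flip_apply, hv, LinearMap.zero_apply]

end WK

open WK

/-- The pairing is nondegenerate on `Wk`. -/
theorem Wk_nondeg (l p : ℕ) (hl : 2 ≤ l) (hp : 2 ≤ p) (ε : Cocycle (cartanA l) p)
    (τ : Shift (cartanA l) p) (hτ : τ.s = (2 : ℂ) • bg (cartanA l) p) (n : ℤ) (y : VL (Fin l))
    (hy : y ∈ Wk ε) (hn : y ∈ Vn (cartanA l) p n)
    (h : ∀ v ∈ Wk ε, v ∈ Vn (cartanA l) p n → beta ε τ y v = 0) : y = 0 := by
  have hA := cartanA_ade l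
  have hp1 : 1 ≤ p := by omega
  have hfin := finite_n hA hp n
  have hEj : ∀ (j : Fin l) (v : VL (Fin l)), Ej ε (Shift.zero (cartanA l) p) j v =
      expMode ε (Pi.single j 1) 0 v := by
    intro j v
    rw [va3_Ej hA hp1, mode_single hA hp1]
    rfl
  set B := Bn ε τ n with hB
  have hBl : ∀ v, (∀ u, B v u = 0) → v = 0 := Bn_left hA hp ε τ hτ n
  set Y : WT (cartanA l) p n := mkW n y ⟨hy.1, hn⟩ with hY
  have hYy : cv (cartanA l) p n Y = y := rfl
  have hYE : ∀ j, En hA hp ε n j Y = 0 := by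
    intro j
    refine cv_inj n ?_
    rw [En_coe, hYy, hEj, hy.2.2 j, map_zero]
  have hYG : ∀ j, Gn (cartanA l) p n j Y = 0 := by
    intro j
    refine cv_inj n ?_
    ext1 γ
    rw [Gn_coe, hYy, Gop_apply, map_zero, Finsupp.zero_apply]
    by_cases hγ : γ = 0
    · subst hγ
      rw [Pi.zero_apply, Int.cast_zero, zero_smul]
    · rw [hy.2.1 γ hγ, smul_zero]
  have hYS : Y ∈ ⨆ j, (LinearMap.range (En hA hp ε n j) ⊔
      LinearMap.range (Gn (cartanA l) p n j)) := by
    by_contra hcon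
    obtain ⟨φ, hφ1, hφ2⟩ := Submodule.exists_le_ker_of_notMem hcon
    obtain ⟨v, hv⟩ := surj_dual B hBl φ
    have hvE : ∀ j, En hA hp ε n j v = 0 := by
      intro j
      refine right_dual B hBl _ fun x => ?_
      have h1 := Bn_E hA hp ε τ hτ n j x v
      rw [← hB] at h1
      have h2 : B (En hA hp ε n j x) v = 0 := by
        rw [hv]
        refine hφ2 (Submodule.mem_iSup_of_mem j (Submodule.mem_sup_left ⟨x, rfl⟩))
      rw [h2] at h1
      exact neg_eq_zero.1 h1.symm
    have hvG : ∀ j, Gn (cartanA l) p n j v = 0 := by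
      intro j
      refine right_dual B hBl _ fun x => ?_
      have h1 := Bn_G hA hp ε τ hτ n j x v
      rw [← hB] at h1
      have h2 : B (Gn (cartanA l) p n j x) v = 0 := by
        rw [hv]
        refine hφ2 (Submodule.mem_iSup_of_mem j (Submodule.mem_sup_right ⟨x, rfl⟩))
      rw [h2] at h1
      exact neg_eq_zero.1 h1.symm
    have hvk : cv (cartanA l) p n v ∈ Wk ε := by
      refine ⟨(cv_mem n v).1, fun γ hγ => ?_, fun j => ?_⟩
      · obtain ⟨i, hi⟩ := Function.ne_iff.1 hγ
        have h1 := congrArg (fun w => cv (cartanA l) p n w γ) (hvG i)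
        simp only [Gn_coe, Gop_apply, map_zero, Finsupp.zero_apply] at h1
        refine (smul_eq_zero.1 h1).resolve_left (Int.cast_ne_zero.2 hi)
      · have h1 := congrArg (fun w => cv (cartanA l) p n w) (hvE j)
        simp only [En_coe, map_zero, hEj] at h1
        exact h1
    have h1 := h _ hvk (cv_mem n v).2
    have h2 : B Y v = 0 := h1
    rw [hv] at h2
    exact hφ1 h2
  have hY0 : Y = 0 := by
    refine abs_zero (sys_n hA hp ε n) (span_G n) (Gn_En hA hp ε n) (Pn (cartanA l) p n)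
      (fun g i v => ?_) (fun g i v => ?_) (fun g v hv => ?_) (fun v hv => ?_) Y hYE hYG hYS
    · exact Gn_S0 n i _ g _ (Pn_coe n g v)
    · refine cv_inj n ?_
      rw [Pn_coe, Gn_coe, Gop_apply, map_smul, Pn_coe, Finsupp.smul_single]
    · refine cv_inj n ?_
      rw [Pn_coe]
      ext1 γ
      by_cases hγ : γ = g
      · subst hγ
        rw [Finsupp.single_eq_same]
      · rw [Finsupp.single_eq_of_ne hγ]
        obtain ⟨i, hi⟩ := Function.ne_iff.1 hγ
        have h1 := congrArg (fun w => cv (cartanA l) p n w γ) (hv i)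
        simp only [Gn_coe, Gop_apply, map_smul, Finsupp.smul_apply] at h1
        have h2 : ((γ i : ℂ) - (g i : ℂ)) • cv (cartanA l) p n v γ = 0 := by
          rw [sub_smul, h1, sub_self]
        refine ((smul_eq_zero.1 h2).resolve_left (sub_ne_zero.2 fun h3 => ?_)).symm
        exact hi (Int.cast_injective h3)
    · refine cv_inj n ?_
      ext1 γ
      have h1 := congrArg (fun w => cv (cartanA l) p n w γ) (hv γ)
      simp only [Pn_coe, Finsupp.single_eq_same, map_zero] at h1
      rw [map_zero]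
      exact h1
  rw [← hYy, hY0, map_zero]

end

end WPQ
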