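import Pool.Agent.WPQ.EN4
import Pool.Agent.WPQ.WKM

/-! [WPQ-AS1] The decomposition DEC.

Plan (WPQ_planC.md, C1).  Let `P = pv4_Prim n ⊔ II n ⊔ DD n ⊔ (Wk ε ⊓ Vn n) ≤ Wn n`.  If `P ≠ Wn n`, `exists_left`
(DU1) gives `0 ≠ y ∈ Wn n` with `β(y, v) = 0` for `v ∈ P`.  `perp_prim`: `y ∈ pv4_Prim n`; `perp_I`
(`beta_symm`, AD1): `y = L(-1)a + L(-2)b`; `as_desc`: `y = SS c x`, `r ≥ 2`, `h ≥ 1`, `x ∈ pv4_Prim h`, `n = h + r²`.
Components: `y_γ = single γ (y γ) = SS c x_γ`, `x_γ = single γ (x γ) ∈ pv4_Prim h` (`LS_comp` VA4, `pv2_mem`).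
`as_perp`: for `u ∈ Prim0 m`, `m ∈ {3,4,6}`, `s ≤ -1`, `b ∈ W`: `β(y, u_s b) = 0`: by linearity `b ∈ Wn j` (`W_span`);
`u_s b ∈ Wn (m+j-s-1)`; if this weight is not `n` use `beta_wt`, otherwise `u_s b ∈ DD n`.
The same for `y_γ`: `β(y_γ, u_s b) = β(y_γ, (u_s b)_{-γ}) = β(y, (u_s b)_{-γ}) = β(y, u_s b_{-γ}) = 0`
(`beta_comp_right`, `beta_comp_left`, `mode_comp`).
Case `r = 2`: `engine_two` for every `x_γ`: `x = 0`, `y = 0`, contradiction.  Case `r ≥ 3`: `engine_big` for `x_γ`, if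
`r` is even or `γ ≠ 0`: `x_γ = 0`.  So `r` is odd, `x = x_0`, `y = y_0`.  For every `j`: `E_j y = SS c (E_j x)`
(`LS_Ej`), `E_j x ∈ pv4_Prim h` (`W_Ej`, `Ej_Vn`) has charge `rt j ≠ 0`; for `m` good, `u ∈ Prim0 m`:
`β(E_j y, u_s b) = -β(y, E_j u_s b) = -β(y, u_s E_j b) - β(y, (E_j u)_s b)` (`beta_Ej`, `Ej_mode` VA3), `E_j u ∈ Wn m` has
charge `rt j`, so it is `0` by `good_charge`; and `β(y, u_s (E_j b)) = 0`.  `engine_big`: `E_j x = 0`, `E_j y = 0`
(`Ej ε zero j = expMode ε (Pi.single j 1) 0`: `expS_zero`).  So `y ∈ Wk ε` and `β(y, v) = 0` for `v ∈ Wk ε ⊓ Vn n`: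
`Wk_nondeg`: `y = 0`. -/

namespace WPQ

open MvPolynomial AF

noncomputable section

/-- the components of a vector -/
def as1_comp {ι : Type} (γ : ι → ℤ) : VL ι →ₗ[ℂ] VL ι := Finsupp.lsingle γ ∘ₗ Finsupp.lapply γ

theorem as1_comp_apply {ι : Type} (γ : ι → ℤ) (x : VL ι) :
    as1_comp γ x = Finsupp.single γ (x γ) := rfl

theorem as1_wd {N : Type} [AddCommGroup N] [Module ℂ N] (L : ℤ → N →ₗ[ℂ] N) (P : N →ₗ[ℂ] N)
    (h : ∀ k v, P (L k v) = L k (P v)) (w : List ℕ) (x : N) :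
    P (KV.wd L w x) = KV.wd L w (P x) := by
  induction w with
  | nil => rfl
  | cons a w ih =>
    have e1 : KV.wd L (a :: w) x = L (-(a : ℤ)) (KV.wd L w x) := rfl
    have e2 : KV.wd L (a :: w) (P x) = L (-(a : ℤ)) (KV.wd L w (P x)) := rfl
    rw [e1, e2, h, ih]

theorem as1_SS {N : Type} [AddCommGroup N] [Module ℂ N] (L : ℤ → N →ₗ[ℂ] N) (P : N →ₗ[ℂ] N)
    (h : ∀ k v, P (L k v) = L k (P v)) {n : ℕ} (c : Nat.Partition n → ℂ) (x : N) :
    P (SV.SS L c x) = SV.SS L c (P x) := by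
  unfold SV.SS
  rw [map_sum]
  refine Finset.sum_congr rfl fun π _ => ?_
  rw [map_smul, as1_wd L P h]

theorem as1_SS_zero {N : Type} [AddCommGroup N] [Module ℂ N] (L : ℤ → N →ₗ[ℂ] N) {n : ℕ}
    (c : Nat.Partition n → ℂ) : SV.SS L c 0 = 0 := by
  have h := as1_SS L (0 : N →ₗ[ℂ] N) (by intro k v; simp) c 0
  simpa using h.symm

theorem as1_prim_comp {ι : Type} [Fintype ι] [DecidableEq ι] {A : Matrix ι ι ℤ} {p : ℕ} (n : ℤ)
    (x : VL ι) (hx : x ∈ pv4_Prim A p n) (γ : ι → ℤ) :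
    Finsupp.single γ (x γ) ∈ pv4_Prim A p n := by
  rw [pv4_mem] at hx ⊢
  refine ⟨pv2_mem n x hx.1 γ, ?_, ?_⟩
  · rw [← LS_comp, hx.2.1]
    simp
  · rw [← LS_comp, hx.2.2]
    simp

theorem as1_Ej_comm {ι : Type} [Fintype ι] [DecidableEq ι] {A : Matrix ι ι ℤ} {p : ℕ}
    (hA : IsADE A) (hp : 1 ≤ p) (ε : Cocycle A p) (j : ι) (k : ℤ) (v : VL ι) :
    Ej ε (Shift.zero A p) j (LS (Shift.zero A p) k v) =
      LS (Shift.zero A p) k (Ej ε (Shift.zero A p) j v) := by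
  have h := congrArg (fun F => F v) (LS_Ej hA hp ε (Shift.zero A p) j k)
  simp only [LinearMap.comp_apply] at h
  exact h.symm

theorem as1_prim_Ej {ι : Type} [Fintype ι] [DecidableEq ι] {A : Matrix ι ι ℤ} {p : ℕ}
    (hA : IsADE A) (hp : 2 ≤ p) (ε : Cocycle A p) (j : ι) (n : ℤ)
    (x : VL ι) (hx : x ∈ pv4_Prim A p n) :
    Ej ε (Shift.zero A p) j x ∈ pv4_Prim A p n := by
  have hp1 : 1 ≤ p := by omega
  rw [pv4_mem] at hx ⊢
  refine ⟨⟨W_Ej hA hp ε j x hx.1.1, Ej_Vn hA ε j n x hx.1.2⟩, ?_, ?_⟩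
  · rw [← as1_Ej_comm hA hp1, hx.2.1, map_zero]
  · rw [← as1_Ej_comm hA hp1, hx.2.2, map_zero]

theorem as1_Ej_charge {ι : Type} [Fintype ι] [DecidableEq ι] {A : Matrix ι ι ℤ} {p : ℕ}
    (hA : IsADE A) (hp : 1 ≤ p) (ε : Cocycle A p) (j : ι) (x : VL ι)
    (hx : x ∈ Finsupp.supported (Fock ι) ℂ {0}) :
    Ej ε (Shift.zero A p) j x ∈ Finsupp.supported (Fock ι) ℂ {rt j} := by
  rw [va3_Ej hA hp]
  have h := mode_charge hA hp ε (rt j) 0 ((0 : ℕ) : ℤ) (Finsupp.single (rt j) 1) x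
    (Finsupp.single_mem_supported ℂ _ (Set.mem_singleton _)) hx
  rwa [add_zero] at h

theorem as1_rt {ι : Type} [DecidableEq ι] (j : ι) : rt j ≠ (0 : ι → ℤ) := by
  intro h
  have := congrFun h j
  simp [rt] at this

/-- `L(-1) V(n-1) + L(-2) V(n-2)` -/
def II (l p : ℕ) (n : ℤ) : Submodule ℂ (VL (Fin l)) :=
  (Wn (cartanA l) p (n - 1)).map (LS (Shift.zero (cartanA l) p) (-1)) ⊔
    (Wn (cartanA l) p (n - 2)).map (LS (Shift.zero (cartanA l) p) (-2))

/-- The span of `u_(s) w`, `u ∈ Prim0 m`, `m ∈ {3,4,6}`, `s ≤ -1`. -/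
def DD {l p : ℕ} (ε : Cocycle (cartanA l) p) (n : ℤ) : Submodule ℂ (VL (Fin l)) :=
  Submodule.span ℂ {v | ∃ (m : ℕ) (u w : VL (Fin l)) (s : ℤ), (m = 3 ∨ m = 4 ∨ m = 6) ∧
    u ∈ Prim0 (cartanA l) p m ∧ s ≤ -1 ∧ w ∈ Wn (cartanA l) p (n - m + s + 1) ∧
    v = mode ε u s w}

theorem as1_perp (l p : ℕ) (hp : 2 ≤ p) (ε : Cocycle (cartanA l) p)
    (τ : Shift (cartanA l) p) (hτ : τ.s = (2 : ℂ) • bg (cartanA l) p) (n : ℤ) (y : VL (Fin l))
    (hy : y ∈ Wn (cartanA l) p n) (hD : ∀ v ∈ DD ε n, beta ε τ y v = 0) (m : ℕ)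
    (hm : m = 3 ∨ m = 4 ∨ m = 6) (u : VL (Fin l)) (hu : u ∈ Prim0 (cartanA l) p m) (s : ℤ)
    (hs : s ≤ -1) (b : VL (Fin l)) (hb : b ∈ W (cartanA l) p) :
    beta ε τ y (mode ε u s b) = 0 := by
  have hA := cartanA_ade l
  have key : W (cartanA l) p ≤ LinearMap.ker ((du1_B ε τ y) ∘ₗ mode ε u s) := by
    refine W_span _ fun γ f d hf hW => ?_
    rw [LinearMap.mem_ker, LinearMap.comp_apply]
    show beta ε τ y (mode ε u s (Finsupp.single γ f)) = 0
    have hV : Finsupp.single γ f ∈ Vn (cartanA l) p ((d : ℤ) + wtExp (cartanA l) p γ) :=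
      single_mem_Vn γ f d hf _ rfl
    set j : ℤ := (d : ℤ) + wtExp (cartanA l) p γ with hj
    have hWn : Finsupp.single γ f ∈ Wn (cartanA l) p j := ⟨hW, hV⟩
    have hu1 : u ∈ Wn (cartanA l) p m := hu.1.1
    have hmode := mode_Wn hA hp ε m j s u _ hu1 hWn
    by_cases hn : n = m + j - s - 1
    · refine hD _ (Submodule.subset_span ⟨m, u, _, s, hm, hu, hs, ?_, rfl⟩)
      have e : n - m + s + 1 = j := by rw [hn]; ring
      rw [e]
      exact hWn
    · exact beta_wt hA hp ε τ hτ n _ _ _ hy.2 hmode.2 hn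
  exact LinearMap.mem_ker.mp (key hb)

theorem as1_perp_comp (l p : ℕ) (hp : 2 ≤ p) (ε : Cocycle (cartanA l) p)
    (τ : Shift (cartanA l) p) (hτ : τ.s = (2 : ℂ) • bg (cartanA l) p) (n : ℤ) (y : VL (Fin l))
    (hy : y ∈ Wn (cartanA l) p n) (hD : ∀ v ∈ DD ε n, beta ε τ y v = 0) (γ : Fin l → ℤ) (m : ℕ)
    (hm : m = 3 ∨ m = 4 ∨ m = 6) (u : VL (Fin l)) (hu : u ∈ Prim0 (cartanA l) p m) (s : ℤ)
    (hs : s ≤ -1) (b : VL (Fin l)) (hb : b ∈ W (cartanA l) p) :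
    beta ε τ (Finsupp.single γ (y γ)) (mode ε u s b) = 0 := by
  have hA := cartanA_ade l
  have hp1 : 1 ≤ p := by omega
  rw [beta_comp_right hA hp ε τ hτ γ _ _ (Finsupp.single_mem_supported ℂ _ (Set.mem_singleton _))]
  have h2 := beta_comp_left hA hp ε τ hτ (-γ) y (Finsupp.single (-γ) ((mode ε u s b) (-γ)))
    (Finsupp.single_mem_supported ℂ _ (Set.mem_singleton _))
  rw [neg_neg] at h2
  rw [← h2, mode_comp hA hp1 ε s u b hu.2]
  exact as1_perp l p hp ε τ hτ n y hy hD m hm u hu s hs _ (W_comp b hb _)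

theorem as_dec (l p : ℕ) (hl : 2 ≤ l) (hp : 2 ≤ p) (ε : Cocycle (cartanA l) p) (n : ℤ) :
    Wn (cartanA l) p n ≤
      pv4_Prim (cartanA l) p n ⊔ II l p n ⊔ DD ε n ⊔ (Wk ε ⊓ Vn (cartanA l) p n) := by
  have hA := cartanA_ade l
  have hp1 : 1 ≤ p := by omega
  obtain ⟨τ, hτ⟩ := exists_tau (A := cartanA l) (p := p) hA hp1
  obtain ⟨t, ht⟩ := exists_tdata l p hl hp
  set P : Submodule ℂ (VL (Fin l)) :=
    pv4_Prim (cartanA l) p n ⊔ II l p n ⊔ DD ε n ⊔ (Wk ε ⊓ Vn (cartanA l) p n) with hP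
  have hP1 : pv4_Prim (cartanA l) p n ≤ P := le_sup_of_le_left (le_sup_of_le_left le_sup_left)
  have hP2 : II l p n ≤ P := le_sup_of_le_left (le_sup_of_le_left le_sup_right)
  have hP3 : DD ε n ≤ P := le_sup_of_le_left le_sup_right
  have hP4 : Wk ε ⊓ Vn (cartanA l) p n ≤ P := le_sup_right
  have hle : P ≤ Wn (cartanA l) p n := by
    refine sup_le (sup_le (sup_le inf_le_left ?_) ?_) ?_
    · refine sup_le ?_ ?_
      · rintro _ ⟨a, ha, rfl⟩
        refine ⟨W_LS hA hp1 _ _ ha.1, ?_⟩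
        have := LS_Vn (A := cartanA l) (p := p) (-1) (n - 1) a ha.2
        rwa [sub_neg_eq_add, sub_add_cancel] at this
      · rintro _ ⟨a, ha, rfl⟩
        refine ⟨W_LS hA hp1 _ _ ha.1, ?_⟩
        have := LS_Vn (A := cartanA l) (p := p) (-2) (n - 2) a ha.2
        rwa [sub_neg_eq_add, sub_add_cancel] at this
    · refine Submodule.span_le.mpr ?_
      rintro _ ⟨m, u, w, s, -, hu, -, hw, rfl⟩
      have := mode_Wn hA hp ε m _ s u w hu.1.1 hw
      have e : (m : ℤ) + (n - m + s + 1) - s - 1 = n := by ring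
      rw [e] at this
      exact this
    · rintro v ⟨h1, h2⟩
      exact ⟨h1.1, h2⟩
  by_contra hcon
  have hne : P ≠ Wn (cartanA l) p n := fun h => hcon (le_of_eq h.symm)
  obtain ⟨y, hyW, hy0, hyP⟩ := exists_left hA hp ε τ hτ n P hle hne
  have hyprim : y ∈ pv4_Prim (cartanA l) p n := by
    refine perp_prim hA hp ε τ hτ n y hyW (fun a ha => ?_) (fun b hb => ?_)
    · exact hyP _ (hP2 (Submodule.mem_sup_left ⟨a, ha, rfl⟩))
    · exact hyP _ (hP2 (Submodule.mem_sup_right ⟨b, hb, rfl⟩))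
  have hyI := perp_I hA hp ε τ hτ (fun a b ha hb => beta_symm hA hp ε τ hτ a b ha hb) n y hyW
    (fun v hv => hyP v (hP1 hv))
  have hD : ∀ v ∈ DD ε n, beta ε τ y v = 0 := fun v hv => hyP v (hP3 hv)
  obtain ⟨r, h, c, x, hr, hh, hhr, hn, hc, hx, hyx⟩ :=
    as_desc l p hl hp t ht n y hyprim hyI hy0
  have hcompSS : ∀ γ : Fin l → ℤ, Finsupp.single γ (y γ) =
      SV.SS (LS (Shift.zero (cartanA l) p)) c (Finsupp.single γ (x γ)) := by
    intro γ
    have := as1_SS (LS (Shift.zero (cartanA l) p)) (as1_comp γ)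
      (fun k v => by rw [as1_comp_apply, as1_comp_apply, LS_comp]) c x
    rw [as1_comp_apply, as1_comp_apply, ← hyx] at this
    exact this
  have hsup : ∀ γ : Fin l → ℤ, Finsupp.single γ (x γ) ∈ Finsupp.supported (Fock (Fin l)) ℂ {γ} :=
    fun γ => Finsupp.single_mem_supported ℂ _ (Set.mem_singleton _)
  have hzero : x = 0 → False := by
    intro h0
    apply hy0
    rw [hyx, h0, as1_SS_zero]
  rcases Nat.lt_or_ge r 3 with hr3 | hr3
  · -- the case r = 2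
    obtain rfl : r = 2 := by omega
    apply hzero
    ext1 γ
    have h0 : Finsupp.single γ (x γ) = (0 : VL (Fin l)) := by
      refine engine_two l p hl hp ε τ hτ t ht h c hh hhr hc _ (as1_prim_comp _ x hx γ) γ (hsup γ) ?_
      intro m hm u hu s hs b hb
      rw [← hcompSS]
      refine as1_perp_comp l p hp ε τ hτ n y hyW hD γ m ?_ u hu s hs b hb
      rcases hm with hm | hm
      · exact Or.inl hm
      · exact Or.inr (Or.inl hm)
    exact Finsupp.single_eq_zero.mp h0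
  · have hgood : ∀ m : ℕ, Good l p m → m = 3 ∨ m = 4 ∨ m = 6 := by
      rintro m (hm | hm)
      · exact Or.inl hm.1
      · exact Or.inr (Or.inr hm.1)
    have hkill : ∀ γ : Fin l → ℤ, (Even r ∨ γ ≠ 0) → x γ = 0 := by
      intro γ hex
      have h0 : Finsupp.single γ (x γ) = (0 : VL (Fin l)) := by
        refine engine_big l p hl hp ε τ hτ t ht r h c hr3 hh hhr hc _ (as1_prim_comp _ x hx γ) γ
          (hsup γ) hex ?_
        intro m hm u hu s hs b hb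
        rw [← hcompSS]
        exact as1_perp_comp l p hp ε τ hτ n y hyW hD γ m (hgood m hm) u hu s hs b hb
      exact Finsupp.single_eq_zero.mp h0
    have hx0 : x ∈ Finsupp.supported (Fock (Fin l)) ℂ {0} :=
      va4_mem_supp 0 x fun δ hδ => hkill δ (Or.inr hδ)
    have hyγ : ∀ γ : Fin l → ℤ, γ ≠ 0 → y γ = 0 := by
      intro γ hγ
      have := hcompSS γ
      rw [hkill γ (Or.inr hγ), Finsupp.single_zero, as1_SS_zero] at this
      exact Finsupp.single_eq_zero.mp this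
    have hEj : ∀ j : Fin l, Ej ε (Shift.zero (cartanA l) p) j y = 0 := by
      intro j
      have hSS : Ej ε (Shift.zero (cartanA l) p) j y =
          SV.SS (LS (Shift.zero (cartanA l) p)) c (Ej ε (Shift.zero (cartanA l) p) j x) := by
        rw [hyx]
        exact as1_SS _ _ (fun k v => as1_Ej_comm hA hp1 ε j k v) c x
      have hE0 : Ej ε (Shift.zero (cartanA l) p) j x = 0 := by
        refine engine_big l p hl hp ε τ hτ t ht r h c hr3 hh hhr hc _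
          (as1_prim_Ej hA hp ε j _ x hx) (rt j) (as1_Ej_charge hA hp1 ε j x hx0)
          (Or.inr (as1_rt j)) ?_
        intro m hm u hu s hs b hb
        rw [← hSS, beta_Ej hA hp1 ε τ hτ]
        have hEu : Ej ε (Shift.zero (cartanA l) p) j u = 0 := by
          have h1 := as1_Ej_charge hA hp1 ε j u hu.2
          have h2 : Ej ε (Shift.zero (cartanA l) p) j u ∈ Wn (cartanA l) p m :=
            ⟨W_Ej hA hp ε j u hu.1.1.1, Ej_Vn hA ε j m u hu.1.1.2⟩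
          ext1 γ
          by_cases hγ : γ = rt j
          · rw [hγ]
            exact good_charge l p m hl hp hm _ h2 _ (as1_rt j)
          · exact va4_supp (rt j) _ h1 γ hγ
        have hcomm := congrArg (fun F => F b) (Ej_mode hA hp1 ε j u s)
        simp only [LinearMap.sub_apply, LinearMap.comp_apply] at hcomm
        rw [hEu, va3_mode_zero hA hp1, LinearMap.zero_apply, sub_eq_zero] at hcomm
        rw [hcomm, as1_perp l p hp ε τ hτ n y hyW hD m (hgood m hm) u hu s hs _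
          (W_Ej hA hp ε j b hb), neg_zero]
      rw [hSS, hE0, as1_SS_zero]
    have hyk : y ∈ Wk ε := by
      refine ⟨hyW.1, hyγ, fun j => ?_⟩
      have := hEj j
      unfold Ej at this
      rw [expS_zero] at this
      exact this
    exact hy0 (Wk_nondeg l p hl hp ε τ hτ n y hyk hyW.2 fun v hv hvn => hyP v (hP4 ⟨hv, hvn⟩))

end

end WPQ
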