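import Pool.Agent.WPQ.KV12

/-! [WPQ-KV12b] `L(k)` is adjoint to `L(-k)`.

`pr_L`: `Lk t κ k` (`k > 0`) `= ∑_n (n+1-k) X (n-k) ∂_n + a ∂_(k-1) + (1/4t) ∑ ∂_n ∂_(k-2-n)`; by `pr_X`, `pr_d`, for the derivation part:
`X a ∂_n` is adjoint to `((n+1)/(a+1)) X n ∂_a`, with `a = n - k`, `(a+1) * (n+1)/(a+1) = n+1 = a+k+1`: the derivation part of
`Ln` for `k`.  (Derivations: `mkDerivation f g = ∑_{n ∈ vars} pderiv n g * f n`; or reduce to monomials by bilinearity; or use that both sides of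
the adjunction formula are compatible with `f ↦ X n * f`: induct on `f` through `[Lk k, X n]`.)
Linear part: `∂_(k-1)` is adjoint to `-2tk X (k-1)`, `((κ-(k+1)τ)/(2t)) (-2tk) = k (κ' + (k-1) τ)` with `κ' = 2τ - κ`, `τ = t-1`.  Quadratic:
`(1/4t)(2t(n+1))(2t(k-1-n)) = t (n+1)(k-1-n)`.
`pr_word`: induction on `w` (`w ≠ []`: `wR (a :: w) 1 = L(-a) (wR w 1)`, move `L(-a)` to the left: `Lk t κ a v`; `(a :: w).reverse = w.reverse ++ [a]`,
`wu (u ++ [a]) v = wu u (L a v)`); `pr v 1 = constantCoeff v`. -/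

namespace WPQ.KV

open MvPolynomial

noncomputable section

theorem kv12b_add_right (t : ℂ) (f g g' : Ph ℂ) : pr t f (g + g') = pr t f g + pr t f g' := by
  rw [pr_comm, pr_add_left, pr_comm t g f, pr_comm t g' f]

theorem kv12b_smul_right (t c : ℂ) (f g : Ph ℂ) : pr t f (c • g) = c * pr t f g := by
  rw [pr_comm, pr_smul_left, pr_comm t g f]

theorem kv12b_zero_left (t : ℂ) (g : Ph ℂ) : pr t 0 g = 0 := by
  simp [pr]

theorem kv12b_zero_right (t : ℂ) (g : Ph ℂ) : pr t g 0 = 0 := by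
  simp [pr]

theorem kv12b_sum_left (t : ℂ) {ι : Type} (s : Finset ι) (f : ι → Ph ℂ) (g : Ph ℂ) :
    pr t (∑ i ∈ s, f i) g = ∑ i ∈ s, pr t (f i) g := by
  classical
  induction s using Finset.induction_on with
  | empty => rw [Finset.sum_empty, Finset.sum_empty, kv12b_zero_left]
  | insert a s ha ih => rw [Finset.sum_insert ha, Finset.sum_insert ha, pr_add_left, ih]

theorem kv12b_sum_right (t : ℂ) {ι : Type} (s : Finset ι) (f : ι → Ph ℂ) (g : Ph ℂ) :
    pr t g (∑ i ∈ s, f i) = ∑ i ∈ s, pr t g (f i) := by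
  rw [pr_comm, kv12b_sum_left]
  exact Finset.sum_congr rfl fun i _ => pr_comm t _ _

theorem kv12b_C_left (t a : ℂ) (g : Ph ℂ) : pr t (C a) g = a * constantCoeff g := by
  have h1 : pr t 1 g = constantCoeff g := by
    unfold pr
    rw [MvPolynomial.support_one, Finset.sum_singleton, constantCoeff_eq]
    simp [ww]
  have h2 : (C a : Ph ℂ) = a • 1 := by
    rw [MvPolynomial.smul_eq_C_mul, mul_one]
  rw [h2, pr_smul_left, h1]

theorem kv12b_one_right (t : ℂ) (v : Ph ℂ) : pr t v 1 = constantCoeff v := by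
  have h := kv12b_C_left t 1 v
  rw [map_one, one_mul] at h
  rw [pr_comm, h]

theorem kv12b_d (t : ℂ) (ht : t ≠ 0) (n : ℕ) (f g : Ph ℂ) :
    pr t (pderiv n f) g = (-(2 * t * ((n : ℂ) + 1))) * pr t f (X n * g) := by
  have h1 := pr_X t n g f
  have hn : ((n : ℂ) + 1) ≠ 0 := Nat.cast_add_one_ne_zero n
  rw [pr_comm t f (X n * g), h1, pr_comm t g]
  field_simp

/-- the derivation part of `Ln` -/
def kv12bE (k : ℕ) : Derivation ℂ (Ph ℂ) (Ph ℂ) :=
  mkDerivation ℂ fun n : ℕ => C ((n : ℂ) + 1 + k) * (X (n + k) : Ph ℂ)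

/-- the derivation part of `Lk` -/
def kv12bD (k : ℕ) : Derivation ℂ (Ph ℂ) (Ph ℂ) :=
  mkDerivation ℂ fun n : ℕ => if k ≤ n then C ((n : ℂ) + 1 - k) * (X (n - k) : Ph ℂ) else 0

theorem kv12b_E_X (k n : ℕ) : kv12bE k (X n) = C ((n : ℂ) + 1 + k) * (X (n + k) : Ph ℂ) := by
  unfold kv12bE
  rw [mkDerivation_X]

theorem kv12b_D_X (k n : ℕ) : kv12bD k (X n) =
    if k ≤ n then C ((n : ℂ) + 1 - k) * (X (n - k) : Ph ℂ) else 0 := by
  unfold kv12bD
  rw [mkDerivation_X]

theorem kv12b_comm (k m : ℕ) (g : Ph ℂ) : pderiv m (kv12bE k g) = kv12bE k (pderiv m g) +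
    (if k ≤ m then ((m : ℂ) + 1) • pderiv (m - k) g else 0) := by
  have h : ⁅pderiv (R := ℂ) m, kv12bE k⁆ =
      (if k ≤ m then ((m : ℂ) + 1) • pderiv (R := ℂ) (m - k) else 0) := by
    apply MvPolynomial.derivation_ext
    intro i
    rw [Derivation.commutator_apply, kv12b_E_X, pderiv_X]
    have h1 : kv12bE k ((Pi.single m (1 : Ph ℂ) : ℕ → Ph ℂ) i) = 0 := by
      by_cases hi : i = m
      · subst hi
        rw [Pi.single_eq_same]
        exact Derivation.map_one_eq_zero _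
      · rw [Pi.single_eq_of_ne hi, map_zero]
    rw [h1, sub_zero, pderiv_C_mul, pderiv_X]
    by_cases hk : k ≤ m
    · rw [if_pos hk, Derivation.smul_apply, pderiv_X]
      by_cases hi : i + k = m
      · have h2 : i = m - k := by omega
        rw [hi, ← h2, Pi.single_eq_same, Pi.single_eq_same, MvPolynomial.smul_eq_C_mul]
        congr 2
        rw [← hi]
        push_cast
        ring
      · have h2 : i ≠ m - k := by omega
        rw [Pi.single_eq_of_ne hi, Pi.single_eq_of_ne h2, mul_zero, smul_zero]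
    · rw [if_neg hk]
      have hi : i + k ≠ m := by omega
      rw [Pi.single_eq_of_ne hi, mul_zero]
      rfl
  have h2 := congrArg (fun d : Derivation ℂ (Ph ℂ) (Ph ℂ) => d g) h
  simp only [Derivation.commutator_apply] at h2
  rw [sub_eq_iff_eq_add'] at h2
  rw [h2]
  by_cases hk : k ≤ m
  · rw [if_pos hk, if_pos hk, Derivation.smul_apply]
  · rw [if_neg hk, if_neg hk]
    rfl

theorem kv12b_E_const (k : ℕ) (g : Ph ℂ) : constantCoeff (kv12bE k g) = 0 := by
  induction g using MvPolynomial.induction_on with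
  | C a =>
    have h : kv12bE k (C a) = 0 := MvPolynomial.derivation_C _ _
    rw [h, map_zero]
  | add p q hp hq => rw [map_add, map_add, hp, hq, add_zero]
  | mul_X p n hp =>
    rw [Derivation.leibniz, map_add, smul_eq_mul, smul_eq_mul, map_mul, map_mul, hp,
      constantCoeff_X, kv12b_E_X, map_mul, constantCoeff_X]
    ring

theorem kv12b_der (t : ℂ) (ht : t ≠ 0) (k : ℕ) (f : Ph ℂ) :
    ∀ g : Ph ℂ, pr t (kv12bD k f) g = pr t f (kv12bE k g) := by
  induction f using MvPolynomial.induction_on with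
  | C a =>
    intro g
    have h : kv12bD k (C a) = 0 := MvPolynomial.derivation_C _ _
    rw [h, kv12b_zero_left, kv12b_C_left, kv12b_E_const, mul_zero]
  | add p q hp hq =>
    intro g
    rw [map_add, pr_add_left, pr_add_left, hp, hq]
  | mul_X f m hf =>
    intro g
    have hm : ((m : ℂ) + 1) ≠ 0 := Nat.cast_add_one_ne_zero m
    rw [Derivation.leibniz, pr_add_left, smul_eq_mul, smul_eq_mul, kv12b_D_X, mul_comm f (X m),
      pr_X t m f (kv12bE k g), kv12b_comm, kv12b_add_right, pr_X t m (kv12bD k f) g, hf]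
    by_cases hk : k ≤ m
    · rw [if_pos hk, if_pos hk, kv12b_smul_right]
      have h1 : f * (C ((m : ℂ) + 1 - k) * (X (m - k) : Ph ℂ)) =
          ((m : ℂ) + 1 - k) • ((X (m - k) : Ph ℂ) * f) := by
        rw [MvPolynomial.smul_eq_C_mul]; ring
      rw [h1, pr_smul_left, pr_X]
      have h2 : (((m - k : ℕ) : ℂ) + 1) = (m : ℂ) + 1 - k := by
        rw [Nat.cast_sub hk]; ring
      have h3 : (m : ℂ) + 1 - k ≠ 0 := by
        rw [← h2]
        exact Nat.cast_add_one_ne_zero _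
      rw [h2]
      field_simp
      ring
    · rw [if_neg hk, if_neg hk, mul_zero, kv12b_zero_left, kv12b_zero_right]
      ring

theorem pr_L (t κ : ℂ) (ht : t ≠ 0) (k : ℕ) (hk : 0 < k) (f g : Ph ℂ) :
    pr t (Lk t κ k f) g = pr t f (Ln t (2 * (t - 1) - κ) k g) := by
  have hkz : (0 : ℤ) < (k : ℤ) := by exact_mod_cast hk
  have hL : Lk t κ k f = kv12bD k f + ((κ - ((k : ℂ) + 1) * (t - 1)) / (2 * t)) •
      pderiv (k - 1) f + (1 / (4 * t)) • ∑ n ∈ Finset.range (k - 1),
        pderiv n (pderiv (k - 2 - n) f) := by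
    unfold Lk kv12bD
    rw [if_pos hkz]
    simp only [Int.toNat_natCast, Int.cast_natCast, LinearMap.add_apply, LinearMap.smul_apply,
      LinearMap.sum_apply, LinearMap.comp_apply]
    rfl
  have hR : Ln t (2 * (t - 1) - κ) k g = kv12bE k g +
      (((k : ℂ) * ((2 * (t - 1) - κ) + ((k : ℂ) - 1) * (t - 1))) • (X (k - 1) * g) +
      t • ∑ n ∈ Finset.range (k - 1), (((n : ℂ) + 1) * ((k : ℂ) - 1 - n)) •
        (X (k - 2 - n) * (X n * g))) := by
    unfold Ln qk kv12bE
    rw [LinearMap.add_apply, LinearMap.mulLeft_apply, add_mul]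
    congr 2
    · rw [MvPolynomial.smul_eq_C_mul, mul_assoc]
    · rw [MvPolynomial.smul_eq_C_mul, mul_assoc, Finset.sum_mul]
      congr 1
      refine Finset.sum_congr rfl fun n _ => ?_
      rw [MvPolynomial.smul_eq_C_mul]
      ring
  rw [hL, hR, pr_add_left, pr_add_left, kv12b_add_right, kv12b_add_right, kv12b_der t ht,
    pr_smul_left, pr_smul_left, kv12b_smul_right, kv12b_smul_right, kv12b_sum_left,
    kv12b_sum_right, kv12b_d t ht]
  have h1 : (((k - 1 : ℕ) : ℂ) + 1) = k := by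
    have h2 : k - 1 + 1 = k := by omega
    exact_mod_cast congrArg (Nat.cast (R := ℂ)) h2
  rw [h1, add_assoc]
  congr 2
  · field_simp
    ring
  · rw [Finset.mul_sum, Finset.mul_sum]
    refine Finset.sum_congr rfl fun n hn => ?_
    rw [kv12b_smul_right, kv12b_d t ht, kv12b_d t ht]
    have hn' : n < k - 1 := Finset.mem_range.mp hn
    have h3 : (((k - 2 - n : ℕ) : ℂ) + 1) = (k : ℂ) - 1 - n := by
      have h4 : ((k - 2 - n : ℕ) : ℂ) = (k : ℂ) - 2 - n := by
        rw [Nat.cast_sub (by omega), Nat.cast_sub (by omega)]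
        norm_num
      rw [h4]
      ring
    rw [h3]
    field_simp
    ring

theorem kv12b_wu (L : ℤ → Ph ℂ →ₗ[ℂ] Ph ℂ) (w : List ℕ) (x : Ph ℂ) :
    wu L w x = List.foldr (fun (a : ℕ) (y : Ph ℂ) => L (a : ℤ) y) x w := by
  induction w with
  | nil => rfl
  | cons a w ih =>
    have h : wu L (a :: w) x = L (a : ℤ) (wu L w x) := rfl
    rw [h, ih]
    rfl

theorem pr_word (t κ : ℂ) (ht : t ≠ 0) (w : List ℕ) (hw : Pw w) (v : Ph ℂ) :
    pr t v (wR t (2 * (t - 1) - κ) w 1) = constantCoeff (wu (Lk t κ) w.reverse v) := by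
  induction w generalizing v with
  | nil =>
    exact kv12b_one_right t v
  | cons a w ih =>
    have ha : 0 < a := hw a (by simp)
    have hw' : Pw w := fun b hb => hw b (by simp [hb])
    have h1 : wR t (2 * (t - 1) - κ) (a :: w) 1 =
        Ln t (2 * (t - 1) - κ) a (wR t (2 * (t - 1) - κ) w 1) := rfl
    have h2 : wu (Lk t κ) (a :: w).reverse v = wu (Lk t κ) w.reverse (Lk t κ a v) := by
      rw [List.reverse_cons, kv12b_wu, kv12b_wu, List.foldr_append]
      rfl
    rw [h1, h2, ← pr_L t κ ht a ha, ih hw']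

end

end WPQ.KV
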