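import Pool.Agent.WPQ.KV2

/-! [WPQ-KV2b] Consequences of `det ≠ 0`.

`expand`: `f = ∑_{e ∈ support} monomial e (coeff e f)`, the support consists of exponents of weight `m`, i.e. of the `ex π`
(`ex_surj`, `ex_inj`).
`rel_iff`: compare coefficients at `ex π'` (the vectors are weighted homogeneous of weight `m`, `wR_one_homog`, `pl_sum`, `pl_pos`, so `ext_ex`).
`indep_of_det`: `rel_iff` and `Matrix.eq_zero_of_vecMul_eq_zero`.
`span_of_det`: `a := vecMul (coeff (ex ·) f) (MM)⁻¹`, then `f = ∑ a π • v_π` (`ext_ex`). -/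

namespace WPQ.KV

open MvPolynomial

noncomputable section

theorem expand {R : Type} [CommRing R] (f : Ph R) (m : ℕ) (hf : IsWeightedHomogeneous wt f m) :
    f = ∑ π : Nat.Partition m, monomial (ex π) (coeff (ex π) f) := by
  classical
  ext e
  rw [coeff_sum]
  simp only [coeff_monomial]
  by_cases he : Finsupp.weight wt e = m
  · obtain ⟨π0, rfl⟩ := ex_surj e he
    rw [Finset.sum_eq_single π0]
    · rw [if_pos rfl]
    · intro π _ hπ
      rw [if_neg (fun h => hπ (ex_inj h))]
    · intro h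
      exact absurd (Finset.mem_univ π0) h
  · rw [Finset.sum_eq_zero]
    · by_contra h
      exact he (hf h)
    · intro π _
      rw [if_neg]
      intro h
      exact he (h ▸ ex_weight π)

/-- two homogeneous polynomials are equal if their coefficients at the `ex π` are -/
theorem ext_ex {R : Type} [CommRing R] (f g : Ph R) (m : ℕ) (hf : IsWeightedHomogeneous wt f m)
    (hg : IsWeightedHomogeneous wt g m) (h : ∀ π : Nat.Partition m, coeff (ex π) f = coeff (ex π) g) :
    f = g := by
  rw [expand f m hf, expand g m hg]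
  apply Finset.sum_congr rfl
  intro π _
  rw [h π]

theorem kv2b_homog (t κ : ℂ) (m : ℕ) (a : Nat.Partition m → ℂ) :
    IsWeightedHomogeneous wt (∑ π, a π • wR t κ (pl π) 1) m := by
  have h : (∑ π, a π • wR t κ (pl π) 1) ∈ weightedHomogeneousSubmodule ℂ wt m := by
    apply Submodule.sum_mem
    intro π _
    apply Submodule.smul_mem
    have h1 := wR_one_homog t κ (pl π) (pl_pos π)
    rw [pl_sum] at h1
    exact h1
  exact h

theorem kv2b_coeff (t κ : ℂ) (m : ℕ) (a : Nat.Partition m → ℂ) (π' : Nat.Partition m) :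
    coeff (ex π') (∑ π, a π • wR t κ (pl π) 1) = Matrix.vecMul a (MM t κ m) π' := by
  rw [coeff_sum, Matrix.vecMul, dotProduct]
  apply Finset.sum_congr rfl
  intro π _
  rw [coeff_smul, smul_eq_mul]
  rfl

theorem rel_iff (t κ : ℂ) (m : ℕ) (a : Nat.Partition m → ℂ) :
    (∑ π, a π • wR t κ (pl π) 1 = 0) ↔ Matrix.vecMul a (MM t κ m) = 0 := by
  constructor
  · intro h
    funext π'
    rw [← kv2b_coeff, h, coeff_zero]
    rfl
  · intro h
    refine ext_ex _ 0 m (kv2b_homog t κ m a) (isWeightedHomogeneous_zero _ _ _) ?_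
    intro π'
    rw [kv2b_coeff, h, coeff_zero]
    rfl

theorem indep_of_det (t κ : ℂ) (m : ℕ) (h : (MM t κ m).det ≠ 0) (a : Nat.Partition m → ℂ)
    (ha : ∑ π, a π • wR t κ (pl π) 1 = 0) : a = 0 :=
  Matrix.eq_zero_of_vecMul_eq_zero h ((rel_iff t κ m a).1 ha)

theorem span_of_det (t κ : ℂ) (m : ℕ) (h : (MM t κ m).det ≠ 0) (f : Ph ℂ)
    (hf : IsWeightedHomogeneous wt f m) :
    f ∈ Submodule.span ℂ (Set.range fun π : Nat.Partition m => wR t κ (pl π) 1) := by
  classical
  set a : Nat.Partition m → ℂ := Matrix.vecMul (fun π => coeff (ex π) f) (MM t κ m)⁻¹ with ha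
  have h1 : f = ∑ π, a π • wR t κ (pl π) 1 := by
    refine ext_ex _ _ m hf (kv2b_homog t κ m a) ?_
    intro π'
    rw [kv2b_coeff, ha, Matrix.vecMul_vecMul, Matrix.nonsing_inv_mul _ (isUnit_iff_ne_zero.2 h),
      Matrix.vecMul_one]
  rw [h1]
  apply Submodule.sum_mem
  intro π _
  exact Submodule.smul_mem _ _ (Submodule.subset_span ⟨π, rfl⟩)

end

end WPQ.KV
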