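import Pool.Agent.WPQ.KV11b
import Pool.Agent.WPQ.KV12b
import Pool.Agent.WPQ.KV2b

/-! [WPQ-KV13] `det MM_{rs} (κ_{r,s}) = 0`.

`det_krs_nat`: `t = p`.  If the determinant is not zero, every homogeneous `g` of weight `r s` is in the span of the
`wR p (krs p r s) (pl π) 1` (`span_of_det`).  Let `v` be the vector of `sing_ph`, `κ1 = 2(p-1) - krs p r s` (so
`krs = 2(p-1) - κ1`).  For a partition `π` of `r s ≥ 1` the word `pl π` is not empty, and
`pr p v (wR p (krs) (pl π) 1) = constantCoeff (wu (Lk p κ1) (pl π).reverse v) = 0` (`pr_word`; the innermost operator `L(a)`, `a ≥ 1`, kills `v`;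
`wu` is linear, `wu _ _ 0 = 0`).  So `pr p v g = 0` for all such `g` (`pr_comm`, `pr_add_left`, `pr_smul_left`, `Submodule.span_induction`), and
`v = 0` by `pr_nondeg`.
`det_krs`: `P = (MM (X : ℂ[X]) (krs X r s) (r s)).det ∈ ℂ[X]`; `P.eval p = det MM p (krs p r s) = 0` for all `p ≥ 1` (`det_map` with
`evalRingHom`; `krs` is mapped to `krs`), so `P = 0` (`Polynomial.eq_zero_of_infinite_isRoot`), and evaluate at `t`. -/

namespace WPQ.KV

open MvPolynomial

noncomputable section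

theorem kv13_wu_zero {N : Type} [AddCommGroup N] [Module ℂ N] (L : ℤ → N →ₗ[ℂ] N) (w : List ℕ) :
    wu L w 0 = 0 := by
  induction w with
  | nil => rfl
  | cons a w ih =>
    show L (a : ℤ) (wu L w 0) = 0
    rw [ih, map_zero]

theorem kv13_wu_append {N : Type} [AddCommGroup N] [Module ℂ N] (L : ℤ → N →ₗ[ℂ] N) (w w' : List ℕ)
    (x : N) : wu L (w ++ w') x = wu L w (wu L w' x) := by
  induction w with
  | nil => rfl
  | cons a w ih =>
    show L (a : ℤ) (wu L (w ++ w') x) = L (a : ℤ) (wu L w (wu L w' x))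
    rw [ih]

theorem det_krs_nat (p r s : ℕ) (hp : 1 ≤ p) (hr : 1 ≤ r) (hs : 1 ≤ s) :
    (MM (p : ℂ) (krs (p : ℂ) r s) (r * s)).det = 0 := by
  by_contra hne
  have ht : (p : ℂ) ≠ 0 := by
    have : p ≠ 0 := by omega
    exact_mod_cast this
  obtain ⟨v, hv0, hvh, hvL⟩ := sing_ph p r s hp hs
  obtain ⟨κ1, hκ1⟩ : ∃ κ1 : ℂ, κ1 = 2 * ((p : ℂ) - 1) - krs (p : ℂ) r s := ⟨_, rfl⟩
  rw [← hκ1] at hvL
  have hκ : krs (p : ℂ) r s = 2 * ((p : ℂ) - 1) - κ1 := by rw [hκ1]; ring
  have hrs : 0 < r * s := Nat.mul_pos hr hs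
  refine hv0 (pr_nondeg (p : ℂ) ht (r * s) v hvh fun g hg => ?_)
  have hmem := span_of_det (p : ℂ) (krs (p : ℂ) r s) (r * s) hne g hg
  refine Submodule.span_induction (p := fun g _ => pr (p : ℂ) v g = 0) ?_ ?_ ?_ ?_ hmem
  · rintro g ⟨π, rfl⟩
    show pr (p : ℂ) v (wR (p : ℂ) (krs (p : ℂ) r s) (pl π) 1) = 0
    rw [hκ, pr_word (p : ℂ) κ1 ht (pl π) (pl_pos π) v]
    have hsum := pl_sum π
    have hpos := pl_pos π
    cases hw : pl π with
    | nil =>
      rw [hw] at hsum
      simp at hsum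
      omega
    | cons a w =>
      rw [hw] at hpos
      have ha : 0 < a := hpos a (by simp)
      rw [List.reverse_cons, kv13_wu_append]
      have h1 : wu (Lk (p : ℂ) κ1) [a] v = 0 := hvL a ha
      rw [h1, kv13_wu_zero, map_zero]
  · show pr (p : ℂ) v 0 = 0
    rw [pr_comm]
    have := pr_smul_left (p : ℂ) 0 0 v
    rwa [zero_smul, zero_mul] at this
  · intro x y _ _ hx hy
    show pr (p : ℂ) v (x + y) = 0
    rw [pr_comm, pr_add_left, pr_comm _ x, pr_comm _ y, hx, hy, add_zero]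
  · intro c x _ hx
    show pr (p : ℂ) v (c • x) = 0
    rw [pr_comm, pr_smul_left, pr_comm _ x, hx, mul_zero]

theorem det_krs (t : ℂ) (r s : ℕ) (hr : 1 ≤ r) (hs : 1 ≤ s) :
    (MM t (krs t r s) (r * s)).det = 0 := by
  obtain ⟨P, hP⟩ : ∃ P : Polynomial ℂ,
      P = (MM (Polynomial.X : Polynomial ℂ) (krs Polynomial.X r s) (r * s)).det := ⟨_, rfl⟩
  have hev : ∀ x : ℂ, P.eval x = (MM x (krs x r s) (r * s)).det := by
    intro x
    have h := det_map (Polynomial.evalRingHom x) (Polynomial.X : Polynomial ℂ)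
      (krs Polynomial.X r s) (r * s)
    rw [← hP] at h
    have h1 : Polynomial.evalRingHom x (krs (Polynomial.X : Polynomial ℂ) r s) = krs x r s := by
      unfold krs
      simp
    have h2 : Polynomial.evalRingHom x (Polynomial.X : Polynomial ℂ) = x := by simp
    rw [h1, h2] at h
    exact h
  have h0 : P = 0 := by
    refine Polynomial.eq_zero_of_infinite_isRoot P ?_
    have hinf : (Set.range fun n : ℕ => (((n + 1 : ℕ) : ℂ))).Infinite := by
      refine Set.infinite_range_of_injective fun a b hab => ?_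
      have : (a + 1 : ℕ) = b + 1 := by exact_mod_cast hab
      omega
    refine hinf.mono ?_
    rintro _ ⟨n, rfl⟩
    show P.eval (((n + 1 : ℕ) : ℂ)) = 0
    rw [hev]
    exact det_krs_nat (n + 1) r s (by omega) hr hs
  rw [← hev t, h0, Polynomial.eval_zero]

end

end WPQ.KV
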