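import Pool.Agent.WPQ.KV3

/-! [WPQ-KV3b] The degree of the determinant.

`det_top`: row `π` of `MM` has degrees `≤ len π`, with coefficient of `κ^(len π)` equal to
`(∏ parts) δ_{π π'}` (`Top.word` with `F = 1`, `G = 1`, `ex_inj`).  So in `det = ∑_σ sign ∏_π MM π (σ π)` every term has degree
`≤ ∑ len π`, and the coefficient of `κ^(∑ len π)` of the determinant is `∏_π ∏ parts ≠ 0` (`coeff` of a product at the sum of the
degree bounds is the product of the coefficients: induction with `Polynomial.coeff_mul_of_natDegree_le`). -/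

namespace WPQ.KV

open MvPolynomial

noncomputable section

theorem kv3b_prod {ι : Type*} (s : Finset ι) (f : ι → Polynomial ℂ) (d : ι → ℕ)
    (h : ∀ i ∈ s, (f i).natDegree ≤ d i) :
    (∏ i ∈ s, f i).natDegree ≤ ∑ i ∈ s, d i ∧
      (∏ i ∈ s, f i).coeff (∑ i ∈ s, d i) = ∏ i ∈ s, (f i).coeff (d i) := by
  classical
  induction s using Finset.induction_on with
  | empty => simp
  | insert a s ha ih =>
    obtain ⟨h1, h2⟩ := ih fun i hi => h i (Finset.mem_insert_of_mem hi)
    have h3 := h a (Finset.mem_insert_self a s)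
    rw [Finset.prod_insert ha, Finset.sum_insert ha, Finset.prod_insert ha]
    refine ⟨Polynomial.natDegree_mul_le_of_le h3 h1, ?_⟩
    rw [Polynomial.coeff_mul_add_eq_of_natDegree_le h3 h1, h2]

theorem kv3b_one : Top 0 (1 : Ph (Polynomial ℂ)) (1 : Ph ℂ) := by
  classical
  intro e
  rw [MvPolynomial.coeff_one, MvPolynomial.coeff_one]
  split_ifs <;> simp

theorem kv3b_len {m : ℕ} (π : Nat.Partition m) : (pl π).length = π.parts.card := by
  rw [← pl_coe π, Multiset.coe_card]

theorem kv3b_row (t : ℂ) (m : ℕ) (π π' : Nat.Partition m) :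
    (MM (Polynomial.C t) Polynomial.X m π π').natDegree ≤ π.parts.card ∧
      (MM (Polynomial.C t) Polynomial.X m π π').coeff π.parts.card =
        if π = π' then (((pl π).prod : ℕ) : ℂ) else 0 := by
  classical
  have h := Top.word kv3b_one t (pl π) (pl_pos π) (ex π')
  rw [add_zero, kv3b_len, exw_pl, mul_one, MvPolynomial.coeff_smul, MvPolynomial.coeff_monomial] at h
  refine ⟨h.1, h.2.trans ?_⟩
  by_cases h1 : π = π'
  · subst h1
    simp
  · rw [if_neg h1, if_neg (fun h2 => h1 (ex_inj h2))]
    simp

theorem det_top (t : ℂ) (m : ℕ) :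
    (MM (Polynomial.C t) Polynomial.X m).det.natDegree ≤ ∑ π : Nat.Partition m, π.parts.card ∧
    (MM (Polynomial.C t) Polynomial.X m).det.coeff (∑ π : Nat.Partition m, π.parts.card) ≠ 0 := by
  classical
  have hσ : ∀ σ : Equiv.Perm (Nat.Partition m),
      (∏ i, MM (Polynomial.C t) Polynomial.X m (σ i) i).natDegree ≤
        ∑ π : Nat.Partition m, π.parts.card ∧
      (∏ i, MM (Polynomial.C t) Polynomial.X m (σ i) i).coeff
        (∑ π : Nat.Partition m, π.parts.card) =
        ∏ i, (if σ i = i then (((pl (σ i)).prod : ℕ) : ℂ) else 0) := by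
    intro σ
    have h := kv3b_prod Finset.univ (fun i => MM (Polynomial.C t) Polynomial.X m (σ i) i)
      (fun i => (σ i).parts.card) fun i _ => (kv3b_row t m (σ i) i).1
    rw [Equiv.sum_comp σ fun π : Nat.Partition m => π.parts.card] at h
    refine ⟨h.1, h.2.trans ?_⟩
    exact Finset.prod_congr rfl fun i _ => (kv3b_row t m (σ i) i).2
  constructor
  · rw [Matrix.det_apply]
    apply Polynomial.natDegree_sum_le_of_forall_le
    intro σ _
    refine (Polynomial.natDegree_smul_le _ _).trans (hσ σ).1
  · have hc : (MM (Polynomial.C t) Polynomial.X m).det.coeff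
        (∑ π : Nat.Partition m, π.parts.card) =
        (Matrix.diagonal fun π : Nat.Partition m => (((pl π).prod : ℕ) : ℂ)).det := by
      rw [Matrix.det_apply, Matrix.det_apply, Polynomial.finsetSum_coeff]
      refine Finset.sum_congr rfl fun σ _ => ?_
      rw [Polynomial.coeff_smul, (hσ σ).2]
      rfl
    rw [hc, Matrix.det_diagonal, Finset.prod_ne_zero_iff]
    intro π _
    rw [Nat.cast_ne_zero]
    intro h0
    rw [List.prod_eq_zero_iff] at h0
    exact absurd (pl_pos π 0 h0) (lt_irrefl 0)

end

end WPQ.KV
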