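import Pool.Agent.WPQ.KV3

/-! [WPQ-KV3c] Linear independence of the descendants of a vector.

`indep_u`: let `l` be the maximal length of `π` with `c π ≠ 0`; `u = ∑ c π v_π` has `Top l u U` with
`U = ∑_{len π = l} c π (∏ parts) monomial (ex π) 1 ≠ 0` (`ex_inj`).  If `a ≠ 0` let `l'` be the maximal length of `ν` with `a ν ≠ 0`;
then the sum in `ha` has `Top (l' + l)` with `(∑_{len ν = l'} a ν (∏ parts) monomial (ex ν) 1) * U ≠ 0` (domain), contradiction. -/

namespace WPQ.KV

open MvPolynomial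

noncomputable section

/-- The leading polynomial of a combination. -/
def PP {n : ℕ} (c : Nat.Partition n → ℂ) (l : ℕ) : Ph ℂ :=
  ∑ π : Nat.Partition n, if π.parts.card = l then
    (c π * (((pl π).prod : ℕ) : ℂ)) • (monomial (ex π) (1 : ℂ) : Ph ℂ) else 0

theorem pl_length {m : ℕ} (π : Nat.Partition m) : (pl π).length = π.parts.card := by
  rw [← pl_coe π, Multiset.coe_card]

theorem PP_ne {n : ℕ} (c : Nat.Partition n → ℂ) (l : ℕ) (π0 : Nat.Partition n)
    (h0 : c π0 ≠ 0) (h1 : π0.parts.card = l) : PP c l ≠ 0 := by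
  intro h
  have h2 : coeff (ex π0) (PP c l) = c π0 * (((pl π0).prod : ℕ) : ℂ) := by
    unfold PP
    rw [MvPolynomial.coeff_sum, Finset.sum_eq_single π0]
    · rw [if_pos h1, MvPolynomial.coeff_smul, MvPolynomial.coeff_monomial, if_pos rfl, smul_eq_mul,
        mul_one]
    · intro π _ hπ
      split_ifs with h3
      · rw [MvPolynomial.coeff_smul, MvPolynomial.coeff_monomial, if_neg fun h4 => hπ (ex_inj h4),
          smul_zero]
      · exact MvPolynomial.coeff_zero _
    · intro h3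
      exact absurd (Finset.mem_univ _) h3
  rw [h, MvPolynomial.coeff_zero] at h2
  have h3 : (pl π0).prod ≠ 0 := by
    rw [Ne, List.prod_eq_zero_iff]
    intro h4
    exact absurd (pl_pos π0 0 h4) (lt_irrefl 0)
  exact (mul_ne_zero h0 (Nat.cast_ne_zero.2 h3)) h2.symm

theorem Top.zero' (l : ℕ) : Top l 0 0 := by
  intro e
  rw [MvPolynomial.coeff_zero, MvPolynomial.coeff_zero]
  exact ⟨by simp, by simp⟩

theorem Top.sum' {ι : Type} (s : Finset ι) (l : ℕ) (F : ι → Ph (Polynomial ℂ)) (G : ι → Ph ℂ)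
    (h : ∀ i ∈ s, Top l (F i) (G i)) : Top l (∑ i ∈ s, F i) (∑ i ∈ s, G i) := by
  classical
  induction s using Finset.induction_on with
  | empty => exact Top.zero' l
  | insert i s hi ih =>
    rw [Finset.sum_insert hi, Finset.sum_insert hi]
    exact (h i (Finset.mem_insert_self _ _)).add (ih fun j hj => h j (Finset.mem_insert_of_mem hj))

theorem Top.comb {n k : ℕ} (t : ℂ) (c : Nat.Partition n → ℂ) (l : ℕ)
    (hl : ∀ π, c π ≠ 0 → π.parts.card ≤ l) {F : Ph (Polynomial ℂ)} {G : Ph ℂ} (h : Top k F G) :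
    Top (l + k) (∑ π, c π • wR (Polynomial.C t) Polynomial.X (pl π) F) (PP c l * G) := by
  unfold PP
  rw [Finset.sum_mul]
  refine Top.sum' _ _ _ _ fun π _ => ?_
  by_cases hc : c π = 0
  · rw [hc, zero_mul, zero_smul, zero_smul]
    have h1 : ((if π.parts.card = l then (0 : Ph ℂ) else 0) * G) = 0 := by
      rw [ite_self, zero_mul]
    rw [h1]
    exact Top.zero' _
  · have h1 := (Top.word h t (pl π) (pl_pos π)).smul (c π)
    rw [pl_length, exw_pl] at h1
    by_cases h2 : π.parts.card = l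
    · rw [if_pos h2]
      rw [h2] at h1
      have h3 : (c π * (((pl π).prod : ℕ) : ℂ)) • (monomial (ex π) (1 : ℂ) : Ph ℂ) * G =
          c π • ((((pl π).prod : ℕ) : ℂ) • (monomial (ex π) 1 * G)) := by
        rw [smul_mul_assoc, mul_smul]
      rw [h3]
      exact h1
    · rw [if_neg h2, zero_mul]
      have h3 := hl π hc
      exact h1.lift (by omega)

theorem exists_max {n : ℕ} (c : Nat.Partition n → ℂ) (hc : c ≠ 0) :
    ∃ π0 : Nat.Partition n, c π0 ≠ 0 ∧ ∀ π, c π ≠ 0 → π.parts.card ≤ π0.parts.card := by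
  classical
  have h1 : ((Finset.univ : Finset (Nat.Partition n)).filter fun π => c π ≠ 0).Nonempty := by
    obtain ⟨π, hπ⟩ := Function.ne_iff.1 hc
    exact ⟨π, Finset.mem_filter.2 ⟨Finset.mem_univ _, hπ⟩⟩
  obtain ⟨π0, h2, h3⟩ := Finset.exists_max_image _ (fun π : Nat.Partition n => π.parts.card) h1
  exact ⟨π0, (Finset.mem_filter.1 h2).2, fun π hπ =>
    h3 π (Finset.mem_filter.2 ⟨Finset.mem_univ _, hπ⟩)⟩

theorem Top.one' : Top 0 1 1 := by
  intro e
  rw [MvPolynomial.coeff_one, MvPolynomial.coeff_one]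
  split_ifs with h
  · exact ⟨by simp, by simp⟩
  · exact ⟨by simp, by simp⟩

theorem indep_u (t : ℂ) (n m : ℕ) (c : Nat.Partition n → ℂ) (hc : c ≠ 0) (a : Nat.Partition m → ℂ)
    (ha : ∑ ν, a ν • wR (Polynomial.C t) Polynomial.X (pl ν)
      (∑ π, c π • wR (Polynomial.C t) Polynomial.X (pl π) 1) = 0) : a = 0 := by
  by_contra hne
  obtain ⟨π0, h1, h2⟩ := exists_max c hc
  obtain ⟨ν0, h3, h4⟩ := exists_max a hne
  have h5 := Top.comb t c _ h2 Top.one'
  have h6 := Top.comb t a _ h4 h5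
  rw [ha] at h6
  have h7 : PP a ν0.parts.card * (PP c π0.parts.card * 1) = 0 := by
    ext e
    have h8 := (h6 e).2
    rw [MvPolynomial.coeff_zero, Polynomial.coeff_zero] at h8
    rw [MvPolynomial.coeff_zero]
    exact h8.symm
  rw [mul_one] at h7
  rcases mul_eq_zero.1 h7 with h8 | h8
  · exact PP_ne a _ ν0 h3 rfl h8
  · exact PP_ne c _ π0 h1 rfl h8

end

end WPQ.KV
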