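import Mathlib

/-! [WPQ-KV5] Linear algebra: the order of vanishing of a determinant.

Let `b` be a basis of `n → ℂ` containing the `a i` (`ha.extend`, or `exists` a matrix `B : Matrix n n ℂ` with `IsUnit B.det` and an
injection `e : ι → n` with `B (e i) = a i`: extend the linearly independent family to a basis indexed by `ι ⊕ τ` and reindex by an
equivalence with `n` (same cardinality)).  `N = B.map C * M`: row `e i` of `N` is `vecMul (C ∘ a i) M`, whose value at `κ0` is
`vecMul (a i) (M.map (eval κ0)) = 0`, so it is divisible by `X - C κ0` (`Polynomial.dvd_iff_isRoot`).  In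
`det N = ∑_σ sign ∏_j N j (σ j)` every term is divisible by `(X - C κ0)^(card ι)` (the factors `j = e i`).
`det N = C (det B) * det M`, `det B` a unit. -/

namespace WPQ.KV

open Polynomial

theorem mult_det {n : Type} [Fintype n] [DecidableEq n] (M : Matrix n n (Polynomial ℂ)) (κ0 : ℂ)
    {ι : Type} [Fintype ι] (a : ι → n → ℂ) (ha : LinearIndependent ℂ a)
    (h : ∀ i, Matrix.vecMul (a i) (M.map (Polynomial.eval κ0)) = 0) :
    (X - C κ0) ^ Fintype.card ι ∣ M.det := by
  classical
  obtain ⟨B, e, hB, he⟩ : ∃ (B : Matrix n n ℂ) (e : ι ↪ n), IsUnit B ∧ ∀ i, B (e i) = a i := by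
    have hs : LinearIndepOn ℂ id (Set.range a) := ha.linearIndepOn_id
    let b := Module.Basis.extend hs
    let E := b.indexEquiv (Pi.basisFun ℂ n)
    refine ⟨Matrix.of fun j => b.reindex E j,
      ⟨fun i => E ⟨a i, hs.subset_extend _ (Set.mem_range_self i)⟩, fun i i' h => ?_⟩, ?_, ?_⟩
    · exact ha.injective (congrArg Subtype.val (E.injective h))
    · rw [← Matrix.linearIndependent_rows_iff_isUnit]
      exact (b.reindex E).linearIndependent
    · intro i
      show (b.reindex E) (E ⟨a i, hs.subset_extend _ (Set.mem_range_self i)⟩) = a i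
      rw [Module.Basis.reindex_apply, Equiv.symm_apply_apply]
      exact Module.Basis.extend_apply_self hs _
  set N : Matrix n n (Polynomial ℂ) := B.map C * M with hN
  have hrow : ∀ (i : ι) (k : n), (X - C κ0) ∣ N (e i) k := by
    intro i k
    rw [Polynomial.dvd_iff_isRoot, Polynomial.IsRoot, hN, Matrix.mul_apply, Polynomial.eval_finsetSum]
    have h1 : ∑ j, a i j * (M.map (Polynomial.eval κ0)) j k = 0 := congrFun (h i) k
    refine Eq.trans (Finset.sum_congr rfl fun j _ => ?_) h1
    rw [Polynomial.eval_mul, Matrix.map_apply, Polynomial.eval_C, Matrix.map_apply, he]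
  have hdetN : (X - C κ0) ^ Fintype.card ι ∣ N.det := by
    rw [← Matrix.det_transpose, Matrix.det_apply']
    refine Finset.dvd_sum fun σ _ => Dvd.dvd.mul_left ?_ _
    have h1 : (X - C κ0) ^ Fintype.card ι = ∏ _i ∈ (Finset.univ : Finset ι).map e, (X - C κ0) := by
      rw [Finset.prod_const, Finset.card_map, Finset.card_univ]
    rw [h1]
    refine (Finset.prod_dvd_prod_of_dvd _ (fun i => N.transpose (σ i) i) fun i hi => ?_).trans
      (Finset.prod_dvd_prod_of_subset _ _ _ (Finset.subset_univ _))
    obtain ⟨i', -, rfl⟩ := Finset.mem_map.1 hi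
    exact hrow i' (σ (e i'))
  have hunit : IsUnit (B.map (C : ℂ → Polynomial ℂ)).det := by
    have h1 : (B.map (C : ℂ → Polynomial ℂ)).det = C B.det := by
      rw [RingHom.map_det]
      rfl
    rw [h1]
    exact ((Matrix.isUnit_iff_isUnit_det B).1 hB).map C
  rw [hN, Matrix.det_mul] at hdetN
  exact (hunit.dvd_mul_left).1 hdetN

end WPQ.KV
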