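import Pool.Agent.WPQ.KV2

/-! [WPQ-KV6] Straightening.

`perm`: for words `w ~ w'` (permutations of each other) the difference of the two vectors is in the span of the vectors of the words
`u`, positive, with `u.sum = w.sum` and `u.length < w.length`: induction on `List.Perm` (nil; cons: apply `T a` to the difference; swap: `hT`,
the word with letters `a`, `b` replaced by `a + b`; trans).  `straight`: strong induction on the length: `w` is a permutation of
`pl π`, `π` the partition with parts `↑w` (`Nat.Partition.ofSums`/direct construction `⟨↑w, _, _⟩`, `pl_coe`), and the shorter words are in the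
span by induction (their sum is the same number `w.sum`; rewrite along `u.sum = w.sum`). -/

namespace WPQ.KV

open MvPolynomial

noncomputable section

variable {N : Type} [AddCommGroup N] [Module ℂ N]

theorem perm (T : ℕ → N →ₗ[ℂ] N)
    (hT : ∀ a b : ℕ, 0 < a → 0 < b → T a ∘ₗ T b - T b ∘ₗ T a = ((b : ℂ) - a) • T (a + b)) (x : N)
    (w w' : List ℕ) (h : w.Perm w') (hw : Pw w) :
    w.foldr (fun a y => T a y) x - w'.foldr (fun a y => T a y) x ∈
      Submodule.span ℂ {y | ∃ u : List ℕ, Pw u ∧ u.sum = w.sum ∧ u.length < w.length ∧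
        y = u.foldr (fun a y => T a y) x} := by
  induction h with
  | nil => simp
  | @cons a l₁ l₂ h ih =>
    have hl : Pw l₁ := fun b hb => hw b (List.mem_cons_of_mem _ hb)
    have ha : 0 < a := hw a List.mem_cons_self
    have h1 := ih hl
    have h2 : (a :: l₁).foldr (fun a y => T a y) x - (a :: l₂).foldr (fun a y => T a y) x =
        T a (l₁.foldr (fun a y => T a y) x - l₂.foldr (fun a y => T a y) x) := by
      simp only [List.foldr_cons, map_sub]
    rw [h2]
    have h3 := Submodule.mem_map_of_mem (f := T a) h1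
    rw [Submodule.map_span] at h3
    refine Submodule.span_mono ?_ h3
    rintro _ ⟨_, ⟨u, hu, hs, hlen, rfl⟩, rfl⟩
    refine ⟨a :: u, ?_, ?_, ?_, ?_⟩
    · intro b hb
      rcases List.mem_cons.1 hb with rfl | hb
      · exact ha
      · exact hu b hb
    · simp [hs]
    · simpa using hlen
    · simp only [List.foldr_cons]
  | swap a b l =>
    have ha : 0 < a := hw a (by simp)
    have hb : 0 < b := hw b (by simp)
    have h1 := LinearMap.congr_fun (hT b a hb ha) (l.foldr (fun a y => T a y) x)
    simp only [LinearMap.sub_apply, LinearMap.comp_apply, LinearMap.smul_apply] at h1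
    have h2 : (b :: a :: l).foldr (fun a y => T a y) x - (a :: b :: l).foldr (fun a y => T a y) x =
        ((a : ℂ) - b) • T (b + a) (l.foldr (fun a y => T a y) x) := by
      simp only [List.foldr_cons]
      exact h1
    rw [h2]
    refine Submodule.smul_mem _ _ (Submodule.subset_span ⟨(b + a) :: l, ?_, ?_, ?_, ?_⟩)
    · intro c hc
      rcases List.mem_cons.1 hc with rfl | hc
      · omega
      · exact hw c (by simp [hc])
    · simp [add_assoc]
    · simp
    · simp only [List.foldr_cons]
  | @trans l₁ l₂ l₃ h₁ h₂ ih₁ ih₂ =>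
    have hl₂ : Pw l₂ := fun b hb => hw b (h₁.mem_iff.2 hb)
    have e1 := ih₁ hw
    have e2 := ih₂ hl₂
    rw [← h₁.sum_eq, ← h₁.length_eq] at e2
    have := Submodule.add_mem _ e1 e2
    simpa using this

theorem straight (T : ℕ → N →ₗ[ℂ] N)
    (hT : ∀ a b : ℕ, 0 < a → 0 < b → T a ∘ₗ T b - T b ∘ₗ T a = ((b : ℂ) - a) • T (a + b)) (x : N)
    (m : ℕ) (w : List ℕ) (hw : Pw w) (hs : w.sum = m) :
    w.foldr (fun a y => T a y) x ∈
      Submodule.span ℂ (Set.range fun π : Nat.Partition m => (pl π).foldr (fun a y => T a y) x) := by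
  induction hn : w.length using Nat.strong_induction_on generalizing w with
  | _ n ih =>
    have hpos : ∀ {i : ℕ}, i ∈ (w : Multiset ℕ) → 0 < i := fun {i} hi => hw i (by simpa using hi)
    let π : Nat.Partition m := ⟨(w : Multiset ℕ), hpos, by simpa using hs⟩
    have hp : w.Perm (pl π) := by
      have h1 : ((pl π : List ℕ) : Multiset ℕ) = (w : Multiset ℕ) := pl_coe π
      exact (Multiset.coe_eq_coe.1 h1).symm
    have h1 := perm T hT x w (pl π) hp hw
    have h2 : Submodule.span ℂ {y | ∃ u : List ℕ, Pw u ∧ u.sum = w.sum ∧ u.length < w.length ∧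
        y = u.foldr (fun a y => T a y) x} ≤
        Submodule.span ℂ (Set.range fun π : Nat.Partition m =>
          (pl π).foldr (fun a y => T a y) x) := by
      rw [Submodule.span_le]
      rintro _ ⟨u, hu, hus, hul, rfl⟩
      exact ih u.length (hn ▸ hul) u hu (hus.trans hs) rfl
    have h3 : (pl π).foldr (fun a y => T a y) x ∈ Submodule.span ℂ
        (Set.range fun π : Nat.Partition m => (pl π).foldr (fun a y => T a y) x) :=
      Submodule.subset_span ⟨π, rfl⟩
    have := Submodule.add_mem _ (h2 h1) h3
    simpa using this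

/-- `[L(-a), L(-b)] = (b-a) L(-a-b)` -/
theorem straight_wd {c : ℂ} {L : ℤ → N →ₗ[ℂ] N} (hL : IsVir c L) (x : N) (m : ℕ) (w : List ℕ)
    (hw : Pw w) (hs : w.sum = m) :
    wd L w x ∈ Submodule.span ℂ (Set.range fun π : Nat.Partition m => wd L (pl π) x) := by
  have hwd : ∀ v : List ℕ, wd L v x = v.foldr (fun (a : ℕ) y => L (-(a : ℤ)) y) x := by
    intro v
    unfold wd
    induction v with
    | nil => rfl
    | cons a v ih =>
      rw [List.foldr_cons, ← ih]
      rfl
  rw [hwd]
  simp only [hwd]
  refine straight (fun a : ℕ => L (-(a : ℤ))) ?_ x m w hw hs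
  intro a b ha hb
  have h1 := hL (-(a : ℤ)) (-(b : ℤ))
  rw [if_neg (by omega), add_zero] at h1
  rw [h1]
  congr 1
  · push_cast
    ring
  · congr 1
    push_cast
    ring

end

end WPQ.KV
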