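import Pool.Agent.WPQ.KV1

/-! [WPQ-KV7] `[L(-a), L(-b)] = (b-a) L(-a-b)` over any commutative ring.

`Ln t κ k = D_k + mult (q_k)`, `D_k X_n = (n+1+k) X_(n+k)`, so
`[D_a + q_a, D_b + q_b] = [D_a, D_b] + mult (D_a q_b - D_b q_a)`.  `[D_a, D_b] = (b-a) D_(a+b)`: both sides are derivations, compare on `X n`
(`derivation_ext`-like: `MvPolynomial.derivation_ext`, commutator of derivations `⁅D_a, D_b⁆`).  `D_a q_b - D_b q_a = (b-a) q_(a+b)`:
linear part: `(a+b) [b(κ+(b-1)(t-1)) - a(κ+(a-1)(t-1))] = (b-a) (a+b) (κ + (a+b-1)(t-1))`.  Quadratic part (times `t`; write `x = i+1`,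
`y = j+1`, sums over `x + y = a + b`, `x, y ≥ 1`): `D_a ∑_{x+y=b} x y Z_(x-1) Z_(y-1) = ∑_{x+y=a+b} (x-a) x y [x > a] Z Z + ∑_{x+y=a+b} x (y-a) y [y > a] Z Z`, and
`(x-a)⁺ + (y-a)⁺ - (x-b)⁺ - (y-b)⁺ = b - a` for `x + y = a + b` (since `y - a = b - x` and `z⁺ - (-z)⁺ = z`).
(`Finset.sum_range` / `Finset.Nat.antidiagonal` reindexing; in Lean: extend the sums by zero to `range (a+b-1)`.)
`straight_wR`: KV6 for `T a = (Ln (C t) X a).restrictScalars ℂ`. -/

namespace WPQ.KV

open MvPolynomial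

noncomputable section

section
variable {R : Type} [CommRing R]

/-- the derivation part -/
def kv7_D (R : Type) [CommRing R] (k : ℕ) : Derivation R (Ph R) (Ph R) :=
  mkDerivation R fun n : ℕ => C ((n : R) + 1 + k) * (X (n + k) : Ph R)

/-- the quadratic part -/
def kv7_S (R : Type) [CommRing R] (k : ℕ) : Ph R :=
  ∑ n ∈ Finset.range (k - 1), C (((n : R) + 1) * ((k : R) - 1 - n)) * (X n * X (k - 2 - n))

theorem kv7_DX (k n : ℕ) : kv7_D R k (X n) = C ((n : R) + 1 + k) * (X (n + k) : Ph R) :=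
  mkDerivation_X R _ n

theorem kv7_DC (k : ℕ) (c : R) (f : Ph R) : kv7_D R k (C c * f) = C c * kv7_D R k f := by
  have h : (C c * f : Ph R) = c • f := (smul_eq_C_mul f c).symm
  rw [h, Derivation.map_smul, smul_eq_C_mul]

theorem kv7_Ln (t κ : R) (k : ℕ) (f : Ph R) : Ln t κ k f = kv7_D R k f + qk t κ k * f := rfl

theorem kv7_q (t κ : R) (k : ℕ) : qk t κ k =
    C ((k : R) * (κ + ((k : R) - 1) * (t - 1))) * X (k - 1) + C t * kv7_S R k := rfl

theorem kv7_comm (a b : ℕ) (f : Ph R) : kv7_D R a (kv7_D R b f) - kv7_D R b (kv7_D R a f) =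
    ((b : R) - a) • kv7_D R (a + b) f := by
  have h : ⁅kv7_D R a, kv7_D R b⁆ = ((b : R) - a) • kv7_D R (a + b) := by
    refine MvPolynomial.derivation_ext fun n => ?_
    rw [Derivation.commutator_apply, Derivation.smul_apply, kv7_DX, kv7_DX, kv7_DX, kv7_DC, kv7_DC,
      kv7_DX, kv7_DX]
    have e1 : n + b + a = n + (a + b) := by ring
    have e2 : n + a + b = n + (a + b) := by ring
    rw [e1, e2, smul_eq_C_mul, ← mul_assoc, ← mul_assoc, ← mul_assoc, ← C_mul, ← C_mul, ← C_mul,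
      ← sub_mul, ← C_sub]
    congr 2
    push_cast
    ring
  rw [← Derivation.commutator_apply, h, Derivation.smul_apply]

theorem kv7_DS (a b : ℕ) : kv7_D R a (kv7_S R b) =
    2 * ∑ n ∈ Finset.range (b - 1),
      C (((n : R) + 1) * ((b : R) - 1 - n) * ((b : R) - 1 - n + a)) *
        (X n * X (a + b - 2 - n) : Ph R) := by
  have h0 : ∀ n ∈ Finset.range (b - 1), kv7_D R a (C (((n : R) + 1) * ((b : R) - 1 - n)) *
      (X n * X (b - 2 - n))) =
      C (((n : R) + 1) * ((b : R) - 1 - n)) * (X n * (C (((b - 2 - n : ℕ) : R) + 1 + a) *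
        X (b - 2 - n + a))) +
      C (((n : R) + 1) * ((b : R) - 1 - n)) * (X (b - 2 - n) * (C ((n : R) + 1 + a) *
        X (n + a))) := by
    intro n _
    rw [kv7_DC, Derivation.leibniz, kv7_DX, kv7_DX, smul_eq_mul, smul_eq_mul, mul_add]
  have h1 : ∀ n ∈ Finset.range (b - 1), C (((n : R) + 1) * ((b : R) - 1 - n)) * (X n *
      (C (((b - 2 - n : ℕ) : R) + 1 + a) * X (b - 2 - n + a))) =
      C (((n : R) + 1) * ((b : R) - 1 - n) * ((b : R) - 1 - n + a)) *
        (X n * X (a + b - 2 - n) : Ph R) := by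
    intro n hn
    have hn' := Finset.mem_range.1 hn
    have e1 : ((b - 2 - n : ℕ) : R) = (b : R) - 2 - n := by
      have e : b = (b - 2 - n) + 2 + n := by omega
      have e' : (b : R) = ((b - 2 - n : ℕ) : R) + 2 + n := by
        conv_lhs => rw [e]
        push_cast
        ring
      rw [e']
      ring
    have e2 : b - 2 - n + a = a + b - 2 - n := by omega
    have e3 : (b : R) - 2 - n + 1 + a = (b : R) - 1 - n + a := by ring
    rw [e1, e2, e3, C_mul (a := ((n : R) + 1) * ((b : R) - 1 - n))]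
    ring
  have h2 : ∑ n ∈ Finset.range (b - 1), C (((n : R) + 1) * ((b : R) - 1 - n)) *
      (X (b - 2 - n) * (C ((n : R) + 1 + a) * X (n + a))) =
      ∑ n ∈ Finset.range (b - 1), C (((n : R) + 1) * ((b : R) - 1 - n) * ((b : R) - 1 - n + a)) *
        (X n * X (a + b - 2 - n) : Ph R) := by
    rw [← Finset.sum_range_reflect]
    refine Finset.sum_congr rfl fun n hn => ?_
    have hn' := Finset.mem_range.1 hn
    have e0 : b - 1 - 1 - n = b - 2 - n := by omega
    have e1 : ((b - 2 - n : ℕ) : R) = (b : R) - 2 - n := by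
      have e : b = (b - 2 - n) + 2 + n := by omega
      have e' : (b : R) = ((b - 2 - n : ℕ) : R) + 2 + n := by
        conv_lhs => rw [e]
        push_cast
        ring
      rw [e']
      ring
    have e2 : b - 2 - n + a = a + b - 2 - n := by omega
    have e3 : b - 2 - (b - 2 - n) = n := by omega
    rw [e0, e3, e2, e1]
    have e4 : ((b : R) - 2 - n + 1) * ((b : R) - 1 - ((b : R) - 2 - n)) =
        ((n : R) + 1) * ((b : R) - 1 - n) := by ring
    have e5 : (b : R) - 2 - n + 1 + a = (b : R) - 1 - n + a := by ring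
    rw [e4, e5, C_mul (a := ((n : R) + 1) * ((b : R) - 1 - n))]
    ring
  unfold kv7_S
  rw [map_sum, Finset.sum_congr rfl h0, Finset.sum_add_distrib, Finset.sum_congr rfl h1, h2]
  ring

theorem kv7_ext (a b : ℕ) : ∑ n ∈ Finset.range (b - 1),
      C (((n : R) + 1) * ((b : R) - 1 - n) * ((b : R) - 1 - n + a)) *
        (X n * X (a + b - 2 - n) : Ph R) =
    ∑ n ∈ Finset.range (a + b - 1), C (((b - 1 - n : ℕ) : R)) *
      (C (((n : R) + 1) * (((a + b : ℕ) : R) - 1 - n)) * (X n * X (a + b - 2 - n))) := by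
  have hsub : Finset.range (b - 1) ⊆ Finset.range (a + b - 1) := by
    intro n hn
    rw [Finset.mem_range] at hn ⊢
    omega
  rw [← Finset.sum_subset hsub]
  · refine Finset.sum_congr rfl fun n hn => ?_
    have hn' := Finset.mem_range.1 hn
    have e1 : ((b - 1 - n : ℕ) : R) = (b : R) - 1 - n := by
      have e : b = (b - 1 - n) + 1 + n := by omega
      have e' : (b : R) = ((b - 1 - n : ℕ) : R) + 1 + n := by
        conv_lhs => rw [e]
        push_cast
        ring
      rw [e']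
      ring
    have e2 : ((n : R) + 1) * ((b : R) - 1 - n) * ((b : R) - 1 - n + a) =
        ((b : R) - 1 - n) * (((n : R) + 1) * (((a + b : ℕ) : R) - 1 - n)) := by
      push_cast
      ring
    rw [e1, e2, C_mul, mul_assoc]
  · intro n _ hn
    rw [Finset.mem_range] at hn
    have e1 : b - 1 - n = 0 := by omega
    rw [e1, Nat.cast_zero, C_0, zero_mul]

theorem kv7_quad (a b : ℕ) (ha : 0 < a) (hb : 0 < b) :
    kv7_D R a (kv7_S R b) - kv7_D R b (kv7_S R a) = C ((b : R) - a) * kv7_S R (a + b) := by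
  set F : ℕ → Ph R := fun n => C (((n : R) + 1) * (((a + b : ℕ) : R) - 1 - n)) *
    (X n * X (a + b - 2 - n)) with hF
  set c : ℕ → R := fun n => ((b - 1 - n : ℕ) : R) - ((a - 1 - n : ℕ) : R) with hc
  have h1 : kv7_D R a (kv7_S R b) - kv7_D R b (kv7_S R a) =
      2 * ∑ n ∈ Finset.range (a + b - 1), C (c n) * F n := by
    have e2 := kv7_ext (R := R) b a
    rw [Nat.add_comm b a] at e2
    rw [kv7_DS, kv7_DS, kv7_ext, Nat.add_comm b a, e2, ← mul_sub, ← Finset.sum_sub_distrib]
    congr 1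
    refine Finset.sum_congr rfl fun n _ => ?_
    rw [← sub_mul, ← C_sub]
  have h2 : ∑ n ∈ Finset.range (a + b - 1), C (c n) * F n =
      ∑ n ∈ Finset.range (a + b - 1), C (c (a + b - 2 - n)) * F n := by
    rw [← Finset.sum_range_reflect]
    refine Finset.sum_congr rfl fun n hn => ?_
    have hn' := Finset.mem_range.1 hn
    have e0 : a + b - 1 - 1 - n = a + b - 2 - n := by omega
    have e1 : ((a + b - 2 - n : ℕ) : R) = ((a + b : ℕ) : R) - 2 - n := by
      have e : a + b = (a + b - 2 - n) + 2 + n := by omega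
      have e' : ((a + b : ℕ) : R) = ((a + b - 2 - n : ℕ) : R) + 2 + n := by
        conv_lhs => rw [e]
        push_cast
        ring
      rw [e']
      ring
    have e3 : a + b - 2 - (a + b - 2 - n) = n := by omega
    rw [e0]
    congr 1
    simp only [hF]
    rw [e3, e1]
    have e4 : (((a + b : ℕ) : R) - 2 - n + 1) * (((a + b : ℕ) : R) - 1 -
        (((a + b : ℕ) : R) - 2 - n)) = ((n : R) + 1) * (((a + b : ℕ) : R) - 1 - n) := by ring
    rw [e4, mul_comm (X (a + b - 2 - n))]
  have h3 : ∀ n ∈ Finset.range (a + b - 1), c n + c (a + b - 2 - n) = (b : R) - a := by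
    intro n hn
    have hn' := Finset.mem_range.1 hn
    have e1 : ((b - 1 - n : ℕ) : ℤ) - ((a - 1 - n : ℕ) : ℤ) +
        (((b - 1 - (a + b - 2 - n) : ℕ) : ℤ) - ((a - 1 - (a + b - 2 - n) : ℕ) : ℤ)) =
        (b : ℤ) - a := by omega
    have e2 := congrArg (fun z : ℤ => (z : R)) e1
    push_cast at e2
    simp only [hc]
    exact e2
  rw [h1, two_mul]
  nth_rewrite 2 [h2]
  rw [← Finset.sum_add_distrib]
  unfold kv7_S
  rw [Finset.mul_sum]
  refine Finset.sum_congr rfl fun n hn => ?_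
  rw [← add_mul, ← C_add, h3 n hn]

end

theorem Ln_comm {R : Type} [CommRing R] (t κ : R) (a b : ℕ) (ha : 0 < a) (hb : 0 < b) (f : Ph R) :
    Ln t κ a (Ln t κ b f) - Ln t κ b (Ln t κ a f) = ((b : R) - a) • Ln t κ (a + b) f := by
  have hq : kv7_D R a (qk t κ b) - kv7_D R b (qk t κ a) = C ((b : R) - a) * qk t κ (a + b) := by
    rw [kv7_q, kv7_q, kv7_q, map_add, map_add, kv7_DC, kv7_DC, kv7_DC, kv7_DC, kv7_DX, kv7_DX]
    have h1 := kv7_quad (R := R) a b ha hb
    have e1 : b - 1 + a = a + b - 1 := by omega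
    have e2 : a - 1 + b = a + b - 1 := by omega
    have e3 : ((b - 1 : ℕ) : R) + 1 = b := by
      have : b = (b - 1) + 1 := by omega
      conv_rhs => rw [this]
      push_cast
      rfl
    have e4 : ((a - 1 : ℕ) : R) + 1 = a := by
      have : a = (a - 1) + 1 := by omega
      conv_rhs => rw [this]
      push_cast
      rfl
    rw [e1, e2, e3, e4]
    have h2 : C ((b : R) * (κ + ((b : R) - 1) * (t - 1))) * (C ((b : R) + a) * X (a + b - 1)) -
        C ((a : R) * (κ + ((a : R) - 1) * (t - 1))) * (C ((a : R) + b) * X (a + b - 1)) =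
        C ((b : R) - a) * (C (((a + b : ℕ) : R) * (κ + (((a + b : ℕ) : R) - 1) * (t - 1))) *
          (X (a + b - 1) : Ph R)) := by
      rw [← mul_assoc, ← mul_assoc, ← mul_assoc, ← C_mul, ← C_mul, ← C_mul, ← sub_mul, ← C_sub]
      congr 2
      push_cast
      ring
    linear_combination h2 + C t * h1
  have hc := kv7_comm (R := R) a b f
  rw [kv7_Ln, kv7_Ln, kv7_Ln, kv7_Ln, kv7_Ln, map_add, map_add, Derivation.leibniz,
    Derivation.leibniz, smul_eq_mul, smul_eq_mul, smul_eq_mul, smul_eq_mul, smul_add,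
    smul_eq_C_mul, smul_eq_C_mul]
  rw [smul_eq_C_mul] at hc
  linear_combination hc + f * hq

end

end WPQ.KV
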