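import Pool.Agent.WPQ.KV2b
import Pool.Agent.WPQ.KV3c
import Pool.Agent.WPQ.KV5
import Pool.Agent.WPQ.KV6
import Pool.Agent.WPQ.KV7

/-! [WPQ-KV8] Divisibility of the determinant.

`straight_wR`: `straight` (KV6) for `T a = (Ln (C t) X a).restrictScalars ℂ`; `hT`: `Ln_comm` with
`((b : ℂ[X]) - a) • F = ((b : ℂ) - a) • F`.
`mult_krs`: put `n = r s`, `κ0 = krs t r s`.  `det = 0` gives `c ≠ 0` with `vecMul c (MM t κ0 n) = 0` (`Matrix.exists_vecMul_eq_zero_iff`), i.e.
`∑ c π • v_π(κ0) = 0` (`rel_iff`).  `u = ∑ c π • wR (C t) X (pl π) 1 ∈ Ph ℂ[X]`, `map (evalRingHom κ0) u = 0` (`wR_map`).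
For `ν : Partition (m - n)`: `wR (C t) X (pl ν) u = ∑ c π • wR (C t) X (pl ν ++ pl π) 1` (linearity, `wR_append`) is in the span of the
`wR (C t) X (pl π') 1`, `π' : Partition m` (`straight_wR`; sum `(m-n) + n = m`): it is `∑_π' a ν π' • wR (C t) X (pl π') 1`
(`Submodule.mem_span_range_iff_exists_fun`).  Apply `map (evalRingHom κ0)`: the left side becomes
`wR t κ0 (pl ν) 0 = 0`, so `vecMul (a ν) (MM t κ0 m) = 0` (`rel_iff`), and `(MM (C t) X m).map (eval κ0) = MM t κ0 m` (`MM_map`).
The `a ν` are linearly independent: `∑ b ν • a ν = 0` gives `∑ b ν • wR (C t) X (pl ν) u = 0`, so `b = 0` by `indep_u`.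
Conclude by `mult_det` with `ι = Nat.Partition (m - n)`. -/

namespace WPQ.KV

open MvPolynomial

noncomputable section

private theorem kv8_smul (z : ℂ) (F : Ph (Polynomial ℂ)) :
    (Polynomial.C z : Polynomial ℂ) • F = z • F := by
  rw [← Polynomial.algebraMap_eq, algebraMap_smul]

/-- `L(-a)` as a complex linear map -/
private def kv8_T (t : ℂ) (a : ℕ) : Ph (Polynomial ℂ) →ₗ[ℂ] Ph (Polynomial ℂ) :=
  (Ln (Polynomial.C t) Polynomial.X a).restrictScalars ℂ

private theorem kv8_wR_eq (t : ℂ) (w : List ℕ) (f : Ph (Polynomial ℂ)) :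
    wR (Polynomial.C t) Polynomial.X w f = w.foldr (fun a y => kv8_T t a y) f := rfl

private theorem kv8_T_comm (t : ℂ) (a b : ℕ) (ha : 0 < a) (hb : 0 < b) :
    kv8_T t a ∘ₗ kv8_T t b - kv8_T t b ∘ₗ kv8_T t a = ((b : ℂ) - a) • kv8_T t (a + b) := by
  refine LinearMap.ext fun f => ?_
  have h := Ln_comm (Polynomial.C t) (Polynomial.X : Polynomial ℂ) a b ha hb f
  have e : ((b : Polynomial ℂ) - a) = Polynomial.C ((b : ℂ) - a) := by simp
  rw [e, kv8_smul] at h
  exact h

/-- words as complex linear maps -/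
private def kv8_W (t : ℂ) (w : List ℕ) : Ph (Polynomial ℂ) →ₗ[ℂ] Ph (Polynomial ℂ) :=
  w.foldr (fun a y => kv8_T t a ∘ₗ y) LinearMap.id

private theorem kv8_W_eq (t : ℂ) (w : List ℕ) (f : Ph (Polynomial ℂ)) :
    wR (Polynomial.C t) Polynomial.X w f = kv8_W t w f := by
  induction w with
  | nil => rfl
  | cons a w ih =>
    show Ln (Polynomial.C t) Polynomial.X a (wR (Polynomial.C t) Polynomial.X w f) =
      kv8_T t a (kv8_W t w f)
    rw [ih]
    rfl

private theorem kv8_map_smul (z κ0 : ℂ) (F : Ph (Polynomial ℂ)) :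
    MvPolynomial.map (Polynomial.evalRingHom κ0) (z • F) =
      z • MvPolynomial.map (Polynomial.evalRingHom κ0) F := by
  rw [← kv8_smul, MvPolynomial.smul_eq_C_mul, MvPolynomial.smul_eq_C_mul, map_mul, map_C]
  simp

private theorem kv8_map_wR (t κ0 : ℂ) (w : List ℕ) (f : Ph (Polynomial ℂ)) :
    MvPolynomial.map (Polynomial.evalRingHom κ0) (wR (Polynomial.C t) Polynomial.X w f) =
      wR t κ0 w (MvPolynomial.map (Polynomial.evalRingHom κ0) f) := by
  rw [wR_map]
  simp

private theorem kv8_wR_zero (t κ : ℂ) (w : List ℕ) : wR t κ w (0 : Ph ℂ) = 0 := by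
  induction w with
  | nil => rfl
  | cons a w ih =>
    show Ln t κ a (wR t κ w 0) = 0
    rw [ih, map_zero]

theorem straight_wR (t : ℂ) (f : Ph (Polynomial ℂ)) (m : ℕ) (w : List ℕ) (hw : Pw w)
    (hs : w.sum = m) :
    wR (Polynomial.C t) Polynomial.X w f ∈ Submodule.span ℂ
      (Set.range fun π : Nat.Partition m => wR (Polynomial.C t) Polynomial.X (pl π) f) :=
  straight (kv8_T t) (kv8_T_comm t) f m w hw hs

theorem mult_krs (t : ℂ) (r s m : ℕ) (hm : r * s ≤ m)
    (h : (MM t (krs t r s) (r * s)).det = 0) :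
    (Polynomial.X - Polynomial.C (krs t r s)) ^ Fintype.card (Nat.Partition (m - r * s)) ∣
      (MM (Polynomial.C t) Polynomial.X m).det := by
  set n := r * s with hn
  set κ0 := krs t r s with hκ0
  obtain ⟨c, hc, hcM⟩ := Matrix.exists_vecMul_eq_zero_iff.2 h
  rw [← rel_iff] at hcM
  set u : Ph (Polynomial ℂ) := ∑ π, c π • wR (Polynomial.C t) Polynomial.X (pl π) 1 with hu
  have hu0 : MvPolynomial.map (Polynomial.evalRingHom κ0) u = 0 := by
    rw [hu, map_sum]
    simp only [kv8_map_smul, kv8_map_wR, map_one]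
    exact hcM
  -- the descendants of u
  have hmem : ∀ ν : Nat.Partition (m - n), wR (Polynomial.C t) Polynomial.X (pl ν) u ∈
      Submodule.span ℂ (Set.range fun π : Nat.Partition m =>
        wR (Polynomial.C t) Polynomial.X (pl π) 1) := by
    intro ν
    rw [kv8_W_eq, hu, map_sum]
    refine Submodule.sum_mem _ fun π _ => ?_
    rw [map_smul, ← kv8_W_eq, ← wR_append]
    refine Submodule.smul_mem _ _ (straight_wR t 1 m _ ?_ ?_)
    · intro a ha
      rcases List.mem_append.1 ha with h1 | h1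
      · exact pl_pos ν a h1
      · exact pl_pos π a h1
    · rw [List.sum_append, pl_sum, pl_sum]
      omega
  have hex : ∀ ν : Nat.Partition (m - n), ∃ a : Nat.Partition m → ℂ,
      ∑ π, a π • wR (Polynomial.C t) Polynomial.X (pl π) 1 =
        wR (Polynomial.C t) Polynomial.X (pl ν) u := fun ν =>
    (Submodule.mem_span_range_iff_exists_fun ℂ).1 (hmem ν)
  choose a ha using hex
  refine mult_det (MM (Polynomial.C t) Polynomial.X m) κ0 a ?_ ?_
  · rw [Fintype.linearIndependent_iff]
    intro g hg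
    have h1 : ∑ ν, g ν • wR (Polynomial.C t) Polynomial.X (pl ν) u = 0 := by
      have h2 : ∀ ν, g ν • wR (Polynomial.C t) Polynomial.X (pl ν) u =
          ∑ π, (g ν * a ν π) • wR (Polynomial.C t) Polynomial.X (pl π) 1 := by
        intro ν
        rw [← ha ν, Finset.smul_sum]
        exact Finset.sum_congr rfl fun π _ => smul_smul _ _ _
      rw [Finset.sum_congr rfl fun ν _ => h2 ν, Finset.sum_comm]
      refine Finset.sum_eq_zero fun π _ => ?_
      rw [← Finset.sum_smul]
      have h3 : ∑ ν, g ν * a ν π = 0 := by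
        have h4 := congrFun hg π
        simpa using h4
      rw [h3, zero_smul]
    have h5 := indep_u t n (m - n) c hc g h1
    exact fun ν => congrFun h5 ν
  · intro ν
    have h1 : (MM (Polynomial.C t) Polynomial.X m).map (Polynomial.eval κ0) = MM t κ0 m := by
      have h2 := MM_map (Polynomial.evalRingHom κ0) (Polynomial.C t) (Polynomial.X : Polynomial ℂ) m
      simpa using h2
    rw [h1, ← rel_iff]
    have h3 := congrArg (MvPolynomial.map (Polynomial.evalRingHom κ0)) (ha ν)
    rw [map_sum, kv8_map_wR, hu0, kv8_wR_zero] at h3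
    simp only [kv8_map_smul, kv8_map_wR, map_one] at h3
    exact h3

end

end WPQ.KV
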