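import Pool.Agent.WPQ.KV4
import Pool.Agent.WPQ.KV8
import Pool.Agent.WPQ.KV3b
import Pool.Agent.WPQ.KV13

/-! [WPQ-KV14] The determinant (`t` irrational).

`Irr t`: `a = t b` with integers `a`, `b` only for `a = b = 0`.  `krs_inj`: `(r-1) - t (s-1) = (r'-1) - t(s'-1)` gives `r - r' = t (s - s')`.
`det_eq`: the factors `(X - C (krs t r s))^(P(m - rs))`, `(r,s) ∈ RS m`, divide the determinant (`mult_krs`, `det_krs`) and are
pairwise coprime (`krs_inj`; `Polynomial.pairwise_coprime_X_sub_C`, `IsCoprime.pow`), so the product divides it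
(`Finset.prod_dvd_of_coprime`): `det = Q * ∏`.  The product is monic of degree `∑_{RS m} P(m - rs) = ∑ len π` (`part_id`), and the determinant has
degree `≤ ∑ len π` with nonzero coefficient there (`det_top`): so `Q` is a nonzero constant.
`det_ne`: evaluate at `κ` (`det_map` with `evalRingHom κ`): `det MM t κ m = a ∏ (κ - krs)^.. ≠ 0`. -/

namespace WPQ.KV

open MvPolynomial

noncomputable section

/-- `t` is not rational. -/
def Irr (t : ℂ) : Prop := ∀ a b : ℤ, (a : ℂ) = t * b → a = 0 ∧ b = 0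

theorem krs_inj {t : ℂ} (ht : Irr t) {r s r' s' : ℕ} (h : krs t r s = krs t r' s') :
    r = r' ∧ s = s' := by
  unfold krs at h
  have h1 := ht ((r : ℤ) - r') ((s : ℤ) - s') (by push_cast; linear_combination h)
  obtain ⟨h2, h3⟩ := h1
  constructor
  · omega
  · omega

theorem det_eq {t : ℂ} (ht : Irr t) (m : ℕ) : ∃ a : ℂ, a ≠ 0 ∧
    (MM (Polynomial.C t) Polynomial.X m).det = Polynomial.C a *
      ∏ x ∈ RS m, (Polynomial.X - Polynomial.C (krs t x.1 x.2)) ^
        Fintype.card (Nat.Partition (m - x.1 * x.2)) := by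
  obtain ⟨hle, hco⟩ := det_top t m
  obtain ⟨D, hD⟩ : ∃ D, D = (MM (Polynomial.C t) Polynomial.X m).det := ⟨_, rfl⟩
  obtain ⟨d, hd⟩ : ∃ d, d = ∑ π : Nat.Partition m, π.parts.card := ⟨_, rfl⟩
  obtain ⟨P, hP⟩ : ∃ P, P = ∏ x ∈ RS m, (Polynomial.X - Polynomial.C (krs t x.1 x.2)) ^
        Fintype.card (Nat.Partition (m - x.1 * x.2)) := ⟨_, rfl⟩
  rw [← hD, ← hd] at hle hco
  rw [← hD, ← hP]
  have hdvd : P ∣ D := by
    rw [hP]
    refine Finset.prod_dvd_of_coprime ?_ ?_
    · intro x hx y hy hne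
      refine IsCoprime.pow (Polynomial.isCoprime_X_sub_C_of_isUnit_sub ?_)
      refine IsUnit.mk0 _ (sub_ne_zero.2 fun h => hne ?_)
      obtain ⟨h1, h2⟩ := krs_inj ht h
      exact Prod.ext h1 h2
    · intro x hx
      rw [hD]
      obtain ⟨h1, h2, h3⟩ := mem_RS.1 hx
      exact mult_krs t x.1 x.2 m h3 (det_krs t x.1 x.2 h1 h2)
  have hmonic : P.Monic := by
    rw [hP]
    exact Polynomial.monic_prod_of_monic _ _ fun x _ => (Polynomial.monic_X_sub_C _).pow _
  have hdeg : P.natDegree = d := by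
    rw [hP, hd, part_id, Polynomial.natDegree_prod_of_monic _ _ fun x _ =>
      (Polynomial.monic_X_sub_C _).pow _]
    refine Finset.sum_congr rfl fun x _ => ?_
    rw [(Polynomial.monic_X_sub_C _).natDegree_pow, Polynomial.natDegree_X_sub_C, mul_one]
  have hDdeg : D.natDegree = d := le_antisymm hle (Polynomial.le_natDegree_of_ne_zero hco)
  have hD0 : D ≠ 0 := by
    intro h
    rw [h, Polynomial.coeff_zero] at hco
    exact hco rfl
  obtain ⟨Q, hQ⟩ := hdvd
  have hQ0 : Q ≠ 0 := by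
    intro h
    rw [h, mul_zero] at hQ
    exact hD0 hQ
  have hQd : Q.natDegree = 0 := by
    have h1 := hmonic.natDegree_mul' hQ0
    rw [← hQ, hDdeg, hdeg] at h1
    omega
  have hQC := Polynomial.eq_C_of_natDegree_eq_zero hQd
  refine ⟨Q.coeff 0, ?_, ?_⟩
  · intro h
    rw [h, Polynomial.C_0] at hQC
    exact hQ0 hQC
  · rw [hQ, ← hQC, mul_comm]

theorem det_ne {t : ℂ} (ht : Irr t) (κ : ℂ) (m : ℕ)
    (h : ∀ r s : ℕ, 1 ≤ r → 1 ≤ s → r * s ≤ m → κ ≠ krs t r s) : (MM t κ m).det ≠ 0 := by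
  obtain ⟨a, ha, hdet⟩ := det_eq ht m
  have h1 := det_map (Polynomial.evalRingHom κ) (Polynomial.C t) Polynomial.X m
  have e1 : Polynomial.evalRingHom κ (Polynomial.C t) = t := by simp
  have e2 : Polynomial.evalRingHom κ Polynomial.X = κ := by simp
  rw [e1, e2] at h1
  rw [← h1, hdet, map_mul, map_prod]
  refine mul_ne_zero (by simpa using ha) (Finset.prod_ne_zero_iff.2 fun x hx => ?_)
  rw [map_pow]
  refine pow_ne_zero _ ?_
  obtain ⟨h2, h3, h4⟩ := mem_RS.1 hx
  have h5 := h x.1 x.2 h2 h3 h4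
  have e3 : Polynomial.evalRingHom κ (Polynomial.X - Polynomial.C (krs t x.1 x.2)) =
      κ - krs t x.1 x.2 := by simp
  rw [e3]
  exact sub_ne_zero.2 h5

end

end WPQ.KV
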