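import Pool.Agent.WPQ.KV22
import Pool.Agent.WPQ.KV14
import Pool.Agent.WPQ.KV8
import Pool.Agent.WPQ.KV5

/-! WPQ part C, blocks SV and FP: definitions.  See WPQ_planC.md, C2 and C3. -/

namespace WPQ.SV

open MvPolynomial KV

noncomputable section

/-- The partition `(1,1,…,1)` of `n`. -/
def ones (n : ℕ) : Nat.Partition n where
  parts := Multiset.replicate n 1
  parts_pos := by
    intro i hi
    rw [Multiset.eq_of_mem_replicate hi]
    exact one_pos
  parts_sum := by simp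

section
variable {N : Type} [AddCommGroup N] [Module ℂ N]

/-- `∑_π c_π L(-π) x` -/
def SS (L : ℤ → N →ₗ[ℂ] N) {n : ℕ} (c : Nat.Partition n → ℂ) (x : N) : N :=
  ∑ π, c π • wd L (pl π) x

/-- `x` is a primary vector of weight `h`. -/
def IsPrim (L : ℤ → N →ₗ[ℂ] N) (h : ℂ) (x : N) : Prop :=
  L 0 x = h • x ∧ ∀ k : ℕ, 0 < k → L k x = 0

end

/-- `c` is the family of coefficients of the normalized singular vector `S_{r,s}` of level
`n = rs`. -/
structure IsS (t : ℂ) (r s n : ℕ) (c : Nat.Partition n → ℂ) : Prop where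
  level : n = r * s
  lead : c (ones n) = 1
  rel : ∑ π, c π • wR t (krs t r s) (pl π) 1 = 0

/-- The factor of a word in the three point function. -/
def fw (hx hu hv : ℂ) : List ℕ → ℂ
  | [] => 1
  | a :: w => (hx + (w.sum : ℂ) + a * hu - hv) * fw hx hu hv w

/-- The fusion polynomial. -/
def ff {n : ℕ} (c : Nat.Partition n → ℂ) (hx hu hv : ℂ) : ℂ := ∑ π, c π * fw hx hu hv (pl π)

/-- The weight with parameter `P`; `h_{r,s} = hP (r - s t)`. -/
def hP (t P : ℂ) : ℂ := (P ^ 2 - (t - 1) ^ 2) / (4 * t)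

/-- The right hand side of the product formula. -/
def PF (t : ℂ) (r s : ℕ) (P Q : ℂ) : ℂ :=
  ∏ i ∈ Finset.range r, ∏ j ∈ Finset.range s,
    ((P + ((r : ℂ) - 1 - 2 * i) + ((s : ℂ) - 1 - 2 * j) * t) ^ 2 - Q ^ 2)

end

end WPQ.SV
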