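import Pool.Agent.WPQ.AD2
import Pool.Agent.WPQ.SVD

/-! [WPQ-EN1] The engine, part 1: words, vanishing of three point functions.

Plan.  `en_word`: induction on `w` for all `j`, `b`, `s`.  `w = a :: w'`, `z = wd L w' x ∈ W`:
`β(L(-a) z, y) = β(z, L(a) y)` (`beta_LS`, `W_eq_UU`, stability of `W`/`Wn` under `LS`: `Wn_LS`-type lemma, see
`kv`-application in PV3.lean), and `LS_mode`:
`L(a) u_s b = u_s L(a) b + ((m-1)(a+1) - s) u_{s+a} b`.  First term: `L(a) b ∈ Wn (j-a)`, induction hypothesis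
at `j - a`: it is `fw .. * β(x, u_{..} (L(a) b)) = 0` by `hlow`.  Second term: induction hypothesis at
`s + a`; if `β(x, u_{s+a+|w'|} b) ≠ 0` then `h = m + j - (s + a + |w'|) - 1` (`beta_wt`, `mode_Wn`), and then
`(m-1)(a+1) - s = h + |w'| + a m - j`, the factor in `fw`.
`en_SS`: sum.
`en_zero`: strong induction on `j` (`j < 0`: `Wn_neg`); `hlow` is the induction hypothesis.  If
`k ≠ m + j - h - 1` use `beta_wt`.  Let `k = m + j - h - 1`, `s = k - n ≤ -1`: `0 = β(SS c x, u_s b) =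
ff c h m j * β(x, u_k b)`.  If `ff ≠ 0` done.  Otherwise `j = m` and `r` odd, so `b (-γ) = 0`:
`β(x, u_k b) = β(x, (u_k b)_{-γ}) = β(x, u_k b_{-γ}) = 0` (`beta_comp_right`, `mode_comp`).
`en_kill`: `adjoint`; `mode ε u k x ∈ Wn (m + h - k - 1)`; `beta_left`: for `b` in the same space
`β(u_k x, b) = ± β(x, u'_{2m-2-k} b) = 0` by `en_zero`, as `m + h - k - 1 ≤ h + n - m`. -/

namespace WPQ

open MvPolynomial AF

noncomputable section

variable {ι : Type} [Fintype ι] [DecidableEq ι] {A : Matrix ι ι ℤ} {p : ℕ}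

theorem en1_LS_Wn (hA : IsADE A) (hp : 1 ≤ p) (k n : ℤ) (v : VL ι) (hv : v ∈ Wn A p n) :
    LS (Shift.zero A p) k v ∈ Wn A p (n - k) :=
  ⟨W_LS hA hp k v hv.1, LS_Vn k n v hv.2⟩

theorem en1_wd_mem (hA : IsADE A) (hp : 1 ≤ p) (w : List ℕ) (x : VL ι) (hx : x ∈ W A p) :
    KV.wd (LS (Shift.zero A p)) w x ∈ W A p := by
  induction w with
  | nil => exact hx
  | cons a w ih => exact W_LS hA hp _ _ ih

theorem en1_zero_right (ε : Cocycle A p) (τ : Shift A p) (x : VL ι) : beta ε τ x 0 = 0 := by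
  have h := beta_smul_right ε τ 0 x 0
  rw [zero_smul, zero_mul] at h
  exact h

theorem en1_zero_left (ε : Cocycle A p) (τ : Shift A p) (x : VL ι) : beta ε τ 0 x = 0 := by
  have h := beta_smul_left ε τ 0 0 x
  rw [zero_smul, zero_mul] at h
  exact h

theorem en_word (hA : IsADE A) (hp : 2 ≤ p) (ε : Cocycle A p) (τ : Shift A p)
    (hτ : τ.s = (2 : ℂ) • bg A p) (m h : ℕ) (j : ℤ) (u : VL ι) (hu : u ∈ Prim0 A p m) (x : VL ι)
    (hx : x ∈ pv4_Prim A p h)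
    (hlow : ∀ j' < j, ∀ b ∈ Wn A p j', ∀ k : ℤ, beta ε τ x (mode ε u k b) = 0) (b : VL ι)
    (hb : b ∈ Wn A p j) (w : List ℕ) (hw : KV.Pw w) (s : ℤ) :
    beta ε τ (KV.wd (LS (Shift.zero A p)) w x) (mode ε u s b) =
      SV.fw h m j w * beta ε τ x (mode ε u (s + w.sum) b) := by
  have hp1 : 1 ≤ p := by omega
  have huP : u ∈ pv4_Prim A p m := hu.1
  have hx0 : x ∈ Wn A p h := hx.1
  have hL0 : LS (Shift.zero A p) 0 u = ((m : ℤ) : ℂ) • u := LS_zero_Vn hA hp1 m u huP.1.2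
  induction w generalizing j b s with
  | nil =>
    show beta ε τ x (mode ε u s b) = 1 * beta ε τ x (mode ε u (s + ((([] : List ℕ).sum : ℕ) : ℤ)) b)
    rw [one_mul, List.sum_nil, Nat.cast_zero, add_zero]
  | cons a w ih =>
    have ha : 0 < a := hw a (List.mem_cons_self)
    have hw' : KV.Pw w := fun c hc => hw c (List.mem_cons_of_mem a hc)
    set z := KV.wd (LS (Shift.zero A p)) w x with hz
    have hzW : z ∈ W A p := en1_wd_mem hA hp1 w x hx0.1
    have hzU : z ∈ UU ε := by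
      rw [← W_eq_UU hA hp ε]
      exact hzW
    have hbu : mode ε u s b ∈ W A p := W_closed hA hp ε u b huP.1.1 hb.1 s
    have e1 : KV.wd (LS (Shift.zero A p)) (a :: w) x = LS (Shift.zero A p) (-(a : ℤ)) z := rfl
    have h1 := beta_LS hA hp ε τ hτ (-(a : ℤ)) z (mode ε u s b) hzU hbu
    rw [neg_neg] at h1
    have h2 := LinearMap.congr_fun (LS_mode hA hp1 ε u _ hL0 huP.2.1 huP.2.2 (a : ℤ) s) b
    rw [LinearMap.sub_apply, LinearMap.comp_apply, LinearMap.comp_apply, LinearMap.smul_apply,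
      sub_eq_iff_eq_add] at h2
    rw [e1, h1, h2, beta_add_right, beta_smul_right]
    have hLb : LS (Shift.zero A p) (a : ℤ) b ∈ Wn A p (j - a) := en1_LS_Wn hA hp1 _ _ b hb
    have h3 := ih (j - a) (fun j' hj' => hlow j' (by omega)) _ hLb hw' s
    have h4 := hlow (j - a) (by omega) _ hLb (s + (w.sum : ℤ))
    rw [h4, mul_zero] at h3
    have h5 := ih j hlow b hb hw' (s + a)
    rw [h3, h5, add_zero]
    have e2 : s + (((a :: w).sum : ℕ) : ℤ) = s + a + (w.sum : ℤ) := by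
      rw [List.sum_cons]
      push_cast
      ring
    rw [e2]
    have e3 : SV.fw (h : ℂ) (m : ℂ) (j : ℂ) (a :: w) =
      ((h : ℂ) + (w.sum : ℂ) + a * m - j) * SV.fw (h : ℂ) (m : ℂ) (j : ℂ) w := rfl
    rw [e3]
    by_cases h6 : beta ε τ x (mode ε u (s + a + (w.sum : ℤ)) b) = 0
    · rw [h6, mul_zero, mul_zero, mul_zero]
    · have h7 : (h : ℤ) = (m : ℤ) + j - (s + a + (w.sum : ℤ)) - 1 := by
        by_contra hne
        exact h6 (beta_wt hA hp ε τ hτ _ _ _ _ hx0.2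
          (mode_Wn hA hp ε m j (s + a + (w.sum : ℤ)) u b huP.1 hb).2 hne)
      have h8 : ∀ W : ℕ, (h : ℤ) = (m : ℤ) + j - (s + a + (W : ℤ)) - 1 →
          ((((m : ℤ) : ℂ) - 1) * (((a : ℤ) : ℂ) + 1) - (s : ℂ)) =
            (h : ℂ) + (W : ℂ) + a * m - j := by
        intro W hW
        have h9 := congrArg (Int.cast : ℤ → ℂ) hW
        push_cast at h9 ⊢
        rw [h9]
        ring
      rw [h8 w.sum h7, ← mul_assoc]

theorem en_SS (hA : IsADE A) (hp : 2 ≤ p) (ε : Cocycle A p) (τ : Shift A p)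
    (hτ : τ.s = (2 : ℂ) • bg A p) (m h : ℕ) (j : ℤ) (u : VL ι) (hu : u ∈ Prim0 A p m) (x : VL ι)
    (hx : x ∈ pv4_Prim A p h)
    (hlow : ∀ j' < j, ∀ b ∈ Wn A p j', ∀ k : ℤ, beta ε τ x (mode ε u k b) = 0) (b : VL ι)
    (hb : b ∈ Wn A p j) {n : ℕ} (c : Nat.Partition n → ℂ) (s : ℤ) :
    beta ε τ (SV.SS (LS (Shift.zero A p)) c x) (mode ε u s b) =
      SV.ff c h m j * beta ε τ x (mode ε u (s + n) b) := by
  have h1 : beta ε τ (SV.SS (LS (Shift.zero A p)) c x) (mode ε u s b) =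
      ∑ π, c π * beta ε τ (KV.wd (LS (Shift.zero A p)) (KV.pl π) x) (mode ε u s b) := by
    unfold SV.SS
    have h2 := map_sum ((du1_B ε τ).flip (mode ε u s b))
      (fun π => c π • KV.wd (LS (Shift.zero A p)) (KV.pl π) x) Finset.univ
    refine h2.trans (Finset.sum_congr rfl fun π _ => ?_)
    exact beta_smul_left ε τ _ _ _
  rw [h1]
  unfold SV.ff
  rw [Finset.sum_mul]
  refine Finset.sum_congr rfl fun π _ => ?_
  rw [en_word hA hp ε τ hτ m h j u hu x hx hlow b hb (KV.pl π) (KV.pl_pos π) s, KV.pl_sum,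
    mul_assoc]

theorem en_zero (hA : IsADE A) (hp : 2 ≤ p) (ε : Cocycle A p) (τ : Shift A p)
    (hτ : τ.s = (2 : ℂ) • bg A p) (m h r n : ℕ) (c : Nat.Partition n → ℂ) (x : VL ι)
    (hx : x ∈ pv4_Prim A p h) (γ : ι → ℤ) (hxγ : x ∈ Finsupp.supported (Fock ι) ℂ {γ})
    (hff : ∀ j : ℕ, j ≠ m ∨ Even r → SV.ff c (h : ℂ) (m : ℂ) (j : ℂ) ≠ 0)
    (hex : Even r ∨ ∀ b ∈ Wn A p m, b (-γ) = 0)
    (hy : ∀ u ∈ Prim0 A p m, ∀ s : ℤ, s ≤ -1 → ∀ b ∈ W A p,
      beta ε τ (SV.SS (LS (Shift.zero A p)) c x) (mode ε u s b) = 0)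
    (u : VL ι) (hu : u ∈ Prim0 A p m) (j : ℤ) (hj : j ≤ (h : ℤ) + n - m) (b : VL ι)
    (hb : b ∈ Wn A p j) (k : ℤ) : beta ε τ x (mode ε u k b) = 0 := by
  have hp1 : 1 ≤ p := by omega
  have key : ∀ N : ℕ, ∀ j : ℤ, j < N → j ≤ (h : ℤ) + n - m → ∀ b ∈ Wn A p j, ∀ k : ℤ,
      beta ε τ x (mode ε u k b) = 0 := by
    intro N
    induction N with
    | zero =>
      intro j hj _ b hb k
      rw [Wn_neg hA hp j (by simpa using hj), Submodule.mem_bot] at hb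
      rw [hb, map_zero, en1_zero_right]
    | succ N ih =>
      intro j hjN hj b hb k
      have hlow : ∀ j' < j, ∀ b ∈ Wn A p j', ∀ k : ℤ, beta ε τ x (mode ε u k b) = 0 :=
        fun j' hj' b hb k => ih j' (by push_cast at hjN; omega) (by omega) b hb k
      by_cases hj0 : j < 0
      · rw [Wn_neg hA hp j hj0, Submodule.mem_bot] at hb
        rw [hb, map_zero, en1_zero_right]
      by_cases hk : (h : ℤ) = (m : ℤ) + j - k - 1
      · have h1 := hy u hu (k - n) (by omega) b hb.1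
        rw [en_SS hA hp ε τ hτ m h j u hu x hx hlow b hb c (k - n), sub_add_cancel] at h1
        obtain ⟨j', rfl⟩ := Int.eq_ofNat_of_zero_le (not_lt.1 hj0)
        have e0 : (((j' : ℕ) : ℤ) : ℂ) = ((j' : ℕ) : ℂ) := Int.cast_natCast j'
        rw [e0] at h1
        rcases mul_eq_zero.1 h1 with h2 | h2
        · by_cases hc : j' ≠ m ∨ Even r
          · exact absurd h2 (hff j' hc)
          · rw [not_or, not_not] at hc
            obtain ⟨hc1, hc2⟩ := hc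
            subst hc1
            have h3 : b (-γ) = 0 := (hex.resolve_left hc2) b hb
            rw [beta_comp_right hA hp ε τ hτ γ x _ hxγ, mode_comp hA hp1 ε k u b hu.2 (-γ), h3,
              Finsupp.single_zero, map_zero, en1_zero_right]
        · exact h2
      · exact beta_wt hA hp ε τ hτ _ _ _ _ hx.1.2 (mode_Wn hA hp ε m j k u b hu.1.1 hb).2 hk
  exact key (j + 1).toNat j (by omega) hj b hb k

theorem en_kill (hA : IsADE A) (hp : 2 ≤ p) (ε : Cocycle A p) (τ : Shift A p)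
    (hτ : τ.s = (2 : ℂ) • bg A p) (m h r n : ℕ) (c : Nat.Partition n → ℂ) (x : VL ι)
    (hx : x ∈ pv4_Prim A p h) (γ : ι → ℤ) (hxγ : x ∈ Finsupp.supported (Fock ι) ℂ {γ})
    (hff : ∀ j : ℕ, j ≠ m ∨ Even r → SV.ff c (h : ℂ) (m : ℂ) (j : ℂ) ≠ 0)
    (hex : Even r ∨ ∀ b ∈ Wn A p m, b (-γ) = 0)
    (hy : ∀ u ∈ Prim0 A p m, ∀ s : ℤ, s ≤ -1 → ∀ b ∈ W A p,
      beta ε τ (SV.SS (LS (Shift.zero A p)) c x) (mode ε u s b) = 0)
    (u : VL ι) (hu : u ∈ Prim0 A p m) (k : ℤ) (hk : 2 * (m : ℤ) - 1 - n ≤ k) :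
    mode ε u k x = 0 := by
  obtain ⟨u', hu', h1, -⟩ := adjoint hA hp ε τ hτ m u hu
  have h2 : mode ε u k x ∈ Wn A p ((m : ℤ) + h - k - 1) := mode_Wn hA hp ε m h k u x hu.1.1 hx.1
  refine beta_left hA hp ε τ hτ _ _ h2 fun b hb => ?_
  rw [h1 k x b hx.1.1 hb.1, en_zero hA hp ε τ hτ m h r n c x hx γ hxγ hff hex hy u' hu'
    ((m : ℤ) + h - k - 1) (by omega) b hb, mul_zero]

end

end WPQ
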