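import Pool.Agent.WPQ.MNU
import Pool.Agent.WPQ.AS0
import Pool.Agent.WPQ.AS1
import Pool.Agent.WPQ.EN1

/-! WPQ, full Q1, block TL (T-level): definitions and statements (paper: W_DE_2.md, TL1 - TL8). -/

namespace WPQ

open MvPolynomial AF

noncomputable section

section defs

variable {ι : Type} [Fintype ι] [DecidableEq ι] {A : Matrix ι ι ℤ} {p : ℕ}

/-- `Gen(n)`: the span of the `u_(s) w`, `u`, `w` of positive weights, `s ≤ -1`. -/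
def Gen (ε : Cocycle A p) (n : ℤ) : Submodule ℂ (VL ι) :=
  Submodule.span ℂ {v | ∃ (m j s : ℤ) (u w : VL ι), 1 ≤ m ∧ 1 ≤ j ∧ s ≤ -1 ∧ m + j - s - 1 = n ∧
    u ∈ Wn A p m ∧ w ∈ Wn A p j ∧ v = mode ε u s w}

/-- `L(-1) V(n-1) + L(-2) V(n-2)` -/
def IIn (A : Matrix ι ι ℤ) (p : ℕ) (n : ℤ) : Submodule ℂ (VL ι) :=
  (Wn A p (n - 1)).map (LS (Shift.zero A p) (-1)) ⊔ (Wn A p (n - 2)).map (LS (Shift.zero A p) (-2))

/-- A letter: charge label `λ`, weight `h`, vector `u`, mode `k`. -/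
structure Letter (ι : Type) where
  lam : ι → ℤ
  h : ℤ
  u : VL ι
  k : ℤ

/-- The word `u¹_(k_1) ⋯ u^r_(k_r) 1`. -/
def wordL (ε : Cocycle A p) : List (Letter ι) → VL ι
  | [] => vac
  | c :: l => mode ε c.u c.k (wordL ε l)

/-- The sum of the weights of the letters. -/
def sumH (l : List (Letter ι)) : ℤ := (l.map Letter.h).sum

/-- `y ∈ V(n)` is orthogonal to `Gen(n)` and to `L(-1) V(n-1)`. -/
structure Perp (ε : Cocycle A p) (τ : Shift A p) (n : ℤ) (y : VL ι) : Prop where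
  mem : y ∈ Wn A p n
  gen : ∀ v ∈ Gen ε n, beta ε τ y v = 0
  der : ∀ v ∈ Wn A p (n - 1), beta ε τ y (LS (Shift.zero A p) (-1) v) = 0

/-- All letters are homogeneous vectors of `W(p)_Q` of positive weight. -/
def LetW (A : Matrix ι ι ℤ) (p : ℕ) (l : List (Letter ι)) : Prop :=
  ∀ c ∈ l, 1 ≤ c.h ∧ c.u ∈ Wn A p c.h

/-- The letters lie in `M_{λ}(h)`, `λ ≠ 0` dominant. -/
def LetM (ε : Cocycle A p) (l : List (Letter ι)) : Prop :=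
  ∀ c ∈ l, c.lam ≠ 0 ∧ Dom A c.lam ∧ c.u ∈ MNU ε c.lam c.h

/-- Property (A*) of a dominant `λ`. -/
def AStar (ε : Cocycle A p) (lam : ι → ℤ) : Prop :=
  ∀ h : ℤ, (p : ℤ) * qN A lam < h → MNU ε lam h ≤
    Submodule.span ℂ {v | ∃ (m : ℤ) (b a : VL ι), 1 ≤ m ∧ b ∈ Wk ε ∧ b ∈ Vn A p m ∧
      a ∈ MNU ε lam (h - m) ∧ v = mode ε b (-1) a} ⊔
      (MNU ε lam (h - 1)).map (LS (Shift.zero A p) (-1))

/-- Property (CY10): products generate `M_{λ+μ}`. -/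
def CYprod (ε : Cocycle A p) (lam mu : ι → ℤ) : Prop :=
  ∀ n : ℤ, MNU ε (lam + mu) n ≤ Submodule.span ℂ {v | ∃ (h j k : ℤ) (l : ℕ) (a b : VL ι),
    a ∈ MNU ε lam h ∧ b ∈ MNU ε mu j ∧ h + j - k - 1 + l = n ∧
    v = ((LS (Shift.zero A p) (-1)) ^ l) (mode ε a k b)}

/-- Strong generation of `Wk` in the form needed for `n` larger than all weights of the generators:
`Wk(n) ≤ Gen(n) + L(-1) V(n-1)` for `n > d`. -/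
def WkGen (ε : Cocycle A p) (d : ℤ) : Prop :=
  ∀ n : ℤ, d < n → Wk ε ⊓ Vn A p n ≤ Gen ε n ⊔ (Wn A p (n - 1)).map (LS (Shift.zero A p) (-1))

end defs

/-- TL0: `Wk ε` and the spaces `M_λ`: `b_(k)` maps `M_λ(h)` to `M_λ(m+h-k-1)`; `L(-1)` maps `M_λ(h)` to
`M_λ(h+1)`; `M_λ(h)` is `0` for `h < wtExp (-λ)`, in particular for `h < 1` if `λ ≠ 0` is dominant. -/
def st_TL0 : Prop :=
  ∀ (ι : Type) [Fintype ι] [DecidableEq ι] (A : Matrix ι ι ℤ), IsADE A → ∀ p : ℕ, 2 ≤ p →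
    ∀ (ε : Cocycle A p) (lam : ι → ℤ),
      (∀ (m h k : ℤ) (b a : VL ι), b ∈ Wk ε → b ∈ Vn A p m → a ∈ MNU ε lam h →
        mode ε b k a ∈ MNU ε lam (m + h - k - 1)) ∧
      (∀ (h : ℤ) (a : VL ι), a ∈ MNU ε lam h → LS (Shift.zero A p) (-1) a ∈ MNU ε lam (h + 1)) ∧
      (lam ≠ 0 → Dom A lam → ∀ (h : ℤ) (a : VL ι), a ∈ MNU ε lam h → h < 1 → a = 0)

/-- TL2 (tool). -/
def st_TL2 : Prop :=
  ∀ (ι : Type) [Fintype ι] [DecidableEq ι] (A : Matrix ι ι ℤ), IsADE A → ∀ p : ℕ, 2 ≤ p →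
    ∀ (ε : Cocycle A p) (τ : Shift A p), τ.s = (2 : ℂ) • bg A p → ∀ (n : ℤ) (y : VL ι), 1 ≤ n →
      Perp ε τ n y → ∀ l : List (Letter ι), LetW A p l → sumH l < n → beta ε τ y (wordL ε l) = 0

/-- TL3a (letter step): a letter `b_(-1) a'` (`b ∈ Wk(m)`) can be removed. -/
def st_TL3a : Prop :=
  ∀ (ι : Type) [Fintype ι] [DecidableEq ι] (A : Matrix ι ι ℤ), IsADE A → ∀ p : ℕ, 2 ≤ p →
    ∀ (ε : Cocycle A p) (τ : Shift A p), τ.s = (2 : ℂ) • bg A p → ∀ (n : ℤ) (y : VL ι), 1 ≤ n →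
      Perp ε τ n y → ∀ (l1 l2 : List (Letter ι)) (lam : ι → ℤ) (h m k : ℤ) (b a : VL ι),
        LetM ε (l1 ++ l2) → lam ≠ 0 → Dom A lam → 1 ≤ m → b ∈ Wk ε → b ∈ Vn A p m →
        a ∈ MNU ε lam (h - m) →
        (∀ l' : List (Letter ι), LetM ε l' → l'.map Letter.lam = (l1 ++ ⟨lam, 0, 0, 0⟩ :: l2).map Letter.lam →
          sumH l' < sumH l1 + h + sumH l2 → beta ε τ y (wordL ε l') = 0) →
        beta ε τ y (wordL ε (l1 ++ ⟨lam, h, mode ε b (-1) a, k⟩ :: l2)) = 0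

/-- TL3b: the same for a letter `L(-1) a'`. -/
def st_TL3b : Prop :=
  ∀ (ι : Type) [Fintype ι] [DecidableEq ι] (A : Matrix ι ι ℤ), IsADE A → ∀ p : ℕ, 2 ≤ p →
    ∀ (ε : Cocycle A p) (τ : Shift A p), τ.s = (2 : ℂ) • bg A p → ∀ (n : ℤ) (y : VL ι), 1 ≤ n →
      Perp ε τ n y → ∀ (l1 l2 : List (Letter ι)) (lam : ι → ℤ) (h k : ℤ) (a : VL ι),
        LetM ε (l1 ++ l2) → lam ≠ 0 → Dom A lam → a ∈ MNU ε lam (h - 1) →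
        (∀ l' : List (Letter ι), LetM ε l' → l'.map Letter.lam = (l1 ++ ⟨lam, 0, 0, 0⟩ :: l2).map Letter.lam →
          sumH l' < sumH l1 + h + sumH l2 → beta ε τ y (wordL ε l') = 0) →
        beta ε τ y (wordL ε (l1 ++ ⟨lam, h, LS (Shift.zero A p) (-1) a, k⟩ :: l2)) = 0

/-- TL4 (letter reduction). -/
def st_TL4 : Prop :=
  ∀ (ι : Type) [Fintype ι] [DecidableEq ι] (A : Matrix ι ι ℤ), IsADE A → ∀ p : ℕ, 2 ≤ p →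
    ∀ (ε : Cocycle A p) (τ : Shift A p), τ.s = (2 : ℂ) • bg A p → ∀ (n : ℤ) (y : VL ι), 1 ≤ n →
      Perp ε τ n y → ∀ ls : List (ι → ℤ), (∀ lam ∈ ls, AStar ε lam) →
        (p : ℤ) * (ls.map (qN A)).sum < n →
        ∀ l : List (Letter ι), LetM ε l → l.map Letter.lam = ls → beta ε τ y (wordL ε l) = 0

/-- TL5 (words span `M_ν(n)`, `ν = ∑ λ_i`). -/
def st_TL5 : Prop :=
  ∀ (ι : Type) [Fintype ι] [DecidableEq ι] (A : Matrix ι ι ℤ), IsADE A → ∀ p : ℕ, 2 ≤ p →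
    ∀ (ε : Cocycle A p),
      (∀ lam mu : ι → ℤ, Dom A lam → Dom A mu → CYprod ε lam mu) →
      ∀ ls : List (ι → ℤ), ls ≠ [] → (∀ lam ∈ ls, lam ≠ 0 ∧ Dom A lam) →
        ∀ n : ℤ, MNU ε ls.sum n ≤
          Submodule.span ℂ {v | ∃ l : List (Letter ι), LetM ε l ∧ l.map Letter.lam = ls ∧
            v = wordL ε l}

/-- TL1 (pairing with `M_ν(n)`). -/
def st_TL1 : Prop :=
  ∀ (ι : Type) [Fintype ι] [DecidableEq ι] (A : Matrix ι ι ℤ), IsADE A → ∀ p : ℕ, 2 ≤ p →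
    ∀ (ε : Cocycle A p) (τ : Shift A p), τ.s = (2 : ℂ) • bg A p → ∀ (n : ℤ) (y : VL ι) (ν : ι → ℤ),
      y ∈ Wn A p n → y ≠ 0 → y ∈ Finsupp.supported (Fock ι) ℂ {ν} →
      (∀ j, Ej ε (Shift.zero A p) j y = 0) →
      Dom A ν ∧ ∃ f ∈ MNU ε ν n, beta ε τ y f ≠ 0

/-- TL6 (core). -/
def st_TL6 : Prop :=
  ∀ (ι : Type) [Fintype ι] [DecidableEq ι] (A : Matrix ι ι ℤ), IsADE A → ∀ p : ℕ, 2 ≤ p →
    ∀ (ε : Cocycle A p) (τ : Shift A p), τ.s = (2 : ℂ) • bg A p → ∀ (n : ℤ) (y : VL ι), 1 ≤ n →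
      Perp ε τ n y → y ≠ 0 → (∀ lam mu : ι → ℤ, Dom A lam → Dom A mu → CYprod ε lam mu) →
      ∀ ls : List (ι → ℤ), ls ≠ [] → (∀ lam ∈ ls, lam ≠ 0 ∧ Dom A lam ∧ AStar ε lam) →
        y ∈ Finsupp.supported (Fock ι) ℂ {ls.sum} → (∀ j, Ej ε (Shift.zero A p) j y = 0) →
        n ≤ (p : ℤ) * (ls.map (qN A)).sum

/-- TL7a: `Prim(n) + I(n) + Gen(n)` is stable under the `E_j` and under taking charge components. -/
def st_TL7a : Prop :=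
  ∀ (ι : Type) [Fintype ι] [DecidableEq ι] (A : Matrix ι ι ℤ), IsADE A → ∀ p : ℕ, 2 ≤ p →
    ∀ (ε : Cocycle A p) (n : ℤ) (v : VL ι), v ∈ pv4_Prim A p n ⊔ IIn A p n ⊔ Gen ε n →
      v ∈ Wn A p n ∧
      (∀ j, Ej ε (Shift.zero A p) j v ∈ pv4_Prim A p n ⊔ IIn A p n ⊔ Gen ε n) ∧
      ∀ γ : ι → ℤ, Finsupp.single γ (v γ) ∈ pv4_Prim A p n ⊔ IIn A p n ⊔ Gen ε n

/-- TL7b: Virasoro description of `Prim ∩ I` for general `A` (`as_desc` without type `A`). -/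
def st_TL7b : Prop :=
  ∀ (ι : Type) [Fintype ι] [DecidableEq ι] (A : Matrix ι ι ℤ), IsADE A → ∀ p : ℕ, 2 ≤ p →
    ∀ w : ℚ, cc A p = ((1 - 6 * w : ℚ) : ℂ) → 0 < w → ¬ IsSquare (w * (w + 4)) →
    ∃ t : ℂ, KV.Irr t ∧ cc A p = KV.cc t ∧ (t - 1) ^ 2 / t = ((w : ℚ) : ℂ) ∧
      ∀ (n : ℤ) (y : VL ι), y ∈ pv4_Prim A p n →
      (∃ a ∈ Wn A p (n - 1), ∃ b ∈ Wn A p (n - 2),
        y = LS (Shift.zero A p) (-1) a + LS (Shift.zero A p) (-2) b) → y ≠ 0 →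
      ∃ (r h : ℕ) (c : Nat.Partition (r * r) → ℂ) (x : VL ι), 2 ≤ r ∧ 1 ≤ h ∧
        (h : ℂ) = KV.hrs t r r ∧ (h : ℚ) = ((r : ℚ) ^ 2 - 1) * w / 4 ∧ n = (h : ℤ) + r * r ∧
        SV.IsS t r r (r * r) c ∧
        x ∈ pv4_Prim A p h ∧ y = SV.SS (LS (Shift.zero A p)) c x

/-- TL7 (set up).  `d` bounds the weights of the generators of `Wk`. -/
def st_TL7 : Prop :=
  ∀ (ι : Type) [Fintype ι] [DecidableEq ι] (A : Matrix ι ι ℤ), IsADE A → ∀ p : ℕ, 2 ≤ p →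
    ∀ w : ℚ, cc A p = ((1 - 6 * w : ℚ) : ℂ) → 0 < w → ¬ IsSquare (w * (w + 4)) →
    ∀ (ε : Cocycle A p) (τ : Shift A p), τ.s = (2 : ℂ) • bg A p →
    ∀ d : ℤ, (d : ℚ) < 3 * w / 4 + 4 → WkGen ε d →
    (∀ (n : ℤ) (y : VL ι), y ∈ Wk ε → y ∈ Vn A p n →
      (∀ v ∈ Wk ε, v ∈ Vn A p n → beta ε τ y v = 0) → y = 0) →
    ∃ t : ℂ, KV.Irr t ∧ cc A p = KV.cc t ∧ (t - 1) ^ 2 / t = ((w : ℚ) : ℂ) ∧
    ∀ n : ℤ, ¬ Wn A p n ≤ pv4_Prim A p n ⊔ IIn A p n ⊔ Gen ε n →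
      ∃ (r h : ℕ) (c : Nat.Partition (r * r) → ℂ) (x y : VL ι) (ν : ι → ℤ), 2 ≤ r ∧ 1 ≤ h ∧
        (h : ℂ) = KV.hrs t r r ∧ (h : ℚ) = ((r : ℚ) ^ 2 - 1) * w / 4 ∧ n = (h : ℤ) + r * r ∧
        SV.IsS t r r (r * r) c ∧ x ∈ pv4_Prim A p h ∧ y = SV.SS (LS (Shift.zero A p)) c x ∧
        x ≠ 0 ∧ y ≠ 0 ∧ Perp ε τ n y ∧ ν ≠ 0 ∧ Dom A ν ∧ wtExp A p (-ν) ≤ h ∧
        x ∈ Finsupp.supported (Fock ι) ℂ {ν} ∧ y ∈ Finsupp.supported (Fock ι) ℂ {ν} ∧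
        ∀ j, Ej ε (Shift.zero A p) j y = 0

/-- TL8 (bootstrap). -/
def st_TL8 : Prop :=
  ∀ (ι : Type) [Fintype ι] [DecidableEq ι] (A : Matrix ι ι ℤ), IsADE A → ∀ p : ℕ, 2 ≤ p →
    (∀ (ε : Cocycle A p) (n : ℤ), 1 ≤ n → Wn A p n ≤ pv4_Prim A p n ⊔ IIn A p n ⊔ Gen ε n) →
    PrimaryGenerated A p

end

end WPQ
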