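import Pool.Agent.WPQ.ASF
import Pool.Agent.WPE.KDSO
import Pool.Agent.WPE.KG14

/-! [WPQ-ASE] Full Q1: the types `E₆`, `E₇`, `E₈` from the Drinfeld-Sokolov input and property (A*). -/

namespace WPE

open WPQ

theorem kds_of_out {ι : Type} [Fintype ι] [DecidableEq ι] {A : Matrix ι ι ℤ} {p : ℕ}
    (h : KDSOut A p) : KDS A p := by
  obtain ⟨w, P, d, c, h1, h2, h3, h4⟩ := h
  exact ⟨w, P, d, c, h1, h2, h3, h4⟩

theorem e7cnt : E7cnt := by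
  obtain ⟨h1, h2, h3, h4, h5, h6, -⟩ := kg_E7 en0.2.1
  intro kc hkc
  simp only [List.mem_cons, List.not_mem_nil, or_false] at hkc
  rcases hkc with rfl | rfl | rfl | rfl | rfl | rfl
  · exact h1
  · exact h2
  · exact h3
  · exact h4
  · exact h5
  · exact h6

theorem pg_E6 (hK : ∀ p : ℕ, 2 ≤ p → KDSOut CartanMatrix.E₆ p)
    (hs : ∀ p : ℕ, 2 ≤ p → ∀ (ε : Cocycle CartanMatrix.E₆ p) (lam : Fin 6 → ℤ), lam ≠ 0 →
      Dom CartanMatrix.E₆ lam → AStar ε lam) (p : ℕ) (hp : 2 ≤ p) :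
    PrimaryGenerated CartanMatrix.E₆ p :=
  pgE6 p hp (kds_of_out (hK p hp)) (hs p hp)

theorem pg_E7 (hK : ∀ p : ℕ, 2 ≤ p → KDSOut CartanMatrix.E₇ p)
    (hs : ∀ p : ℕ, 2 ≤ p → ∀ (ε : Cocycle CartanMatrix.E₇ p) (lam : Fin 7 → ℤ), lam ≠ 0 →
      Dom CartanMatrix.E₇ lam → AStar ε lam) (p : ℕ) (hp : 2 ≤ p) :
    PrimaryGenerated CartanMatrix.E₇ p :=
  pgE7 e7cnt p hp (kds_of_out (hK p hp)) (hs p hp)

theorem pg_E8 (hK : ∀ p : ℕ, 2 ≤ p → KDSOut CartanMatrix.E₈ p)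
    (hs : ∀ p : ℕ, 2 ≤ p → ∀ (ε : Cocycle CartanMatrix.E₈ p) (lam : Fin 8 → ℤ), lam ≠ 0 →
      Dom CartanMatrix.E₈ lam → AStar ε lam) (p : ℕ) (hp : 2 ≤ p) :
    PrimaryGenerated CartanMatrix.E₈ p :=
  pgE8 p hp (kds_of_out (hK p hp)) (hs p hp)

end WPE
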