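import Pool.Agent.WPQ.TLD
import Mathlib.LinearAlgebra.Matrix.Cartan

/-! WPQ, full Q1, block EN (types `E`): definitions and statements (paper: W_DE_2.md, EN1 - EN7). -/

namespace WPQ

open MvPolynomial AF

noncomputable section

/-- `w = (1 - c)/6 = (1 - l)/6 + 2 |ρ|² (p-1)²/p`, `R = |ρ|²`. -/
def wR (l : ℕ) (R : ℚ) (p : ℕ) : ℚ := (1 - (l : ℚ)) / 6 + 2 * R * ((p : ℚ) - 1) ^ 2 / p

/-- EN0: the matrices are positive definite. -/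
def st_EN0 : Prop := IsADE CartanMatrix.E₆ ∧ IsADE CartanMatrix.E₇ ∧ IsADE CartanMatrix.E₈

/-- EN0c: the central charges. -/
def st_EN0c : Prop := ∀ p : ℕ, 1 ≤ p →
  cc CartanMatrix.E₆ p = ((1 - 6 * wR 6 78 p : ℚ) : ℂ) ∧
  cc CartanMatrix.E₇ p = ((1 - 6 * wR 7 (399 / 2) p : ℚ) : ℂ) ∧
  cc CartanMatrix.E₈ p = ((1 - 6 * wR 8 620 p : ℚ) : ℂ)

/-- EN0n: positivity and the nonsquares. -/
def st_EN0n : Prop := ∀ p : ℕ, 2 ≤ p →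
  (∀ lR ∈ [((6 : ℕ), (78 : ℚ), (12 : ℤ)), (7, 399 / 2, 18), (8, 620, 30)],
    0 < wR lR.1 lR.2.1 p ∧ ((lR.2.2 : ℤ) : ℚ) < 3 * wR lR.1 lR.2.1 p / 4 + 4 ∧
    ¬ IsSquare (wR lR.1 lR.2.1 p * (wR lR.1 lR.2.1 p + 4)))

/-- EN1 (Cauchy): `(ht ν)² ≤ R |ν|²`. -/
def st_EN1 : Prop :=
  (∀ ν : Fin 6 → ℤ, (∑ i, ν i) ^ 2 ≤ 78 * formZ CartanMatrix.E₆ 1 ν ν) ∧
  (∀ ν : Fin 7 → ℤ, 2 * (∑ i, ν i) ^ 2 ≤ 399 * formZ CartanMatrix.E₇ 1 ν ν) ∧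
  (∀ ν : Fin 8 → ℤ, (∑ i, ν i) ^ 2 ≤ 620 * formZ CartanMatrix.E₈ 1 ν ν)

/-- EN2 for `E₈`: `9 ∑ q ≤ 10 ht`. -/
def st_EN2e8 : Prop := ∀ ν : Fin 8 → ℤ, Dom CartanMatrix.E₈ ν →
  ∃ ls : List (Fin 8 → ℤ), (∀ lam ∈ ls, lam ≠ 0 ∧ Dom CartanMatrix.E₈ lam) ∧ ls.sum = ν ∧
    9 * (ls.map (qN CartanMatrix.E₈)).sum ≤ 10 * ∑ i, ν i

/-- EN2 for `E₇`: `5 ∑ q ≤ 6 ht`. -/
def st_EN2e7 : Prop := ∀ ν : Fin 7 → ℤ, Dom CartanMatrix.E₇ ν →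
  ∃ ls : List (Fin 7 → ℤ), (∀ lam ∈ ls, lam ≠ 0 ∧ Dom CartanMatrix.E₇ lam) ∧ ls.sum = ν ∧
    5 * (ls.map (qN CartanMatrix.E₇)).sum ≤ 6 * ∑ i, ν i

/-- EN2 for `E₆`: `∑ q ≤ 10 (m_1 + m_6) + 12 m_2 + 20 (m_3 + m_5) + 24 m_4`, `m_i = (α_i, ν)`. -/
def st_EN2e6 : Prop := ∀ ν : Fin 6 → ℤ, Dom CartanMatrix.E₆ ν →
  ∃ ls : List (Fin 6 → ℤ), (∀ lam ∈ ls, lam ≠ 0 ∧ Dom CartanMatrix.E₆ lam) ∧ ls.sum = ν ∧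
    (ls.map (qN CartanMatrix.E₆)).sum ≤ 10 * (pr CartanMatrix.E₆ 0 ν + pr CartanMatrix.E₆ 5 ν) +
      12 * pr CartanMatrix.E₆ 1 ν + 20 * (pr CartanMatrix.E₆ 2 ν + pr CartanMatrix.E₆ 4 ν) +
      24 * pr CartanMatrix.E₆ 3 ν

/-- The final numerical statement for one type. -/
def st_EN (l : ℕ) (A : Matrix (Fin l) (Fin l) ℤ) (R : ℚ) (exc : ℕ → ℕ → Prop) : Prop :=
  ∀ p : ℕ, 2 ≤ p → ∀ r h : ℕ, 2 ≤ r → 1 ≤ h → (h : ℚ) = ((r : ℚ) ^ 2 - 1) * wR l R p / 4 →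
    ¬ exc p r → ∀ ν : Fin l → ℤ, ν ≠ 0 → Dom A ν → wtExp A p (-ν) ≤ h →
    ∃ ls : List (Fin l → ℤ), ls ≠ [] ∧ (∀ lam ∈ ls, lam ≠ 0 ∧ Dom A lam) ∧ ls.sum = ν ∧
      (p : ℤ) * (ls.map (qN A)).sum < (h : ℤ) + r * r

def st_EN8 : Prop := st_EN 8 CartanMatrix.E₈ 620 fun _ _ => False
def st_EN7 : Prop := st_EN 7 CartanMatrix.E₇ (399 / 2) fun p r => p = 2 ∧ r = 3
def st_EN6 : Prop := st_EN 6 CartanMatrix.E₆ 78 fun _ _ => False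

/-! ### The pair `(E₇, p = 2)`, `r = 3` -/

/-- The span of the words `L(-a_1) ⋯ L(-a_k) 1`, `a_i ≥ 2`, `∑ a_i = n`. -/
def VirS {ι : Type} [Fintype ι] [DecidableEq ι] (A : Matrix ι ι ℤ) (p : ℕ) (n : ℤ) :
    Submodule ℂ (VL ι) :=
  Submodule.span ℂ {v | ∃ w : List ℕ, (∀ a ∈ w, 2 ≤ a) ∧ ((w.sum : ℕ) : ℤ) = n ∧
    v = KV.wd (LS (Shift.zero A p)) w vac}

/-- The eigenvalue of the zero mode of `L(-a_1) ⋯ L(-a_k) 1` on a primary vector of weight `h`. -/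
def oW (h : ℂ) : List ℕ → ℂ
  | [] => 1
  | a :: w => (-1) ^ a * (((w.sum : ℕ) : ℂ) + ((a : ℂ) - 1) * h) * oW h w

/-- E7c: modes of `L(-a_1) ⋯ L(-a_k) 1` on a primary vector. -/
def st_E7c : Prop :=
  ∀ (ι : Type) [Fintype ι] [DecidableEq ι] (A : Matrix ι ι ℤ), IsADE A → ∀ p : ℕ, 2 ≤ p →
    ∀ (ε : Cocycle A p) (h : ℤ) (x : VL ι), x ∈ pv4_Prim A p h → ∀ w : List ℕ, (∀ a ∈ w, 2 ≤ a) →
      (∀ k : ℤ, ((w.sum : ℕ) : ℤ) ≤ k → mode ε (KV.wd (LS (Shift.zero A p)) w vac) k x = 0) ∧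
      mode ε (KV.wd (LS (Shift.zero A p)) w vac) (((w.sum : ℕ) : ℤ) - 1) x = oW (h : ℂ) w • x

/-- E7e: the products `u_(7) u'`, `u_(6) u'`, `u_(5) u'` for primary `u, u'` of weight `6`, `c = -1190`. -/
def st_E7e : Prop :=
  ∀ (ι : Type) [Fintype ι] [DecidableEq ι] (A : Matrix ι ι ℤ), IsADE A → ∀ p : ℕ, 2 ≤ p →
    cc A p = -1190 → (∀ n : ℤ, n ≤ 5 → Wn A p n ≤ VirS A p n) → Wn A p 6 ≤ VirS A p 6 ⊔ Prim0 A p 6 →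
    ∀ (ε : Cocycle A p) (u u' : VL ι) (N : ℂ), u ∈ Prim0 A p 6 → u' ∈ Prim0 A p 6 →
      mode ε u 11 u' = N • (vac : VL ι) →
      mode ε u 7 u' = (N * (31 / 587860)) • KV.wd (LS (Shift.zero A p)) [2, 2] vac +
        (N * (-1797 / 587860)) • KV.wd (LS (Shift.zero A p)) [4] vac ∧
      mode ε u 6 u' = (N * (-599 / 293930)) • KV.wd (LS (Shift.zero A p)) [5] vac +
        (N * (31 / 587860)) • KV.wd (LS (Shift.zero A p)) [3, 2] vac ∧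
      ∃ v ∈ Prim0 A p 6, mode ε u 5 u' =
        (N * (-875 / 4588998921)) • KV.wd (LS (Shift.zero A p)) [2, 2, 2] vac +
        (N * (4102333 / 128491969788)) • KV.wd (LS (Shift.zero A p)) [4, 2] vac +
        (N * (3397021 / 256983939576)) • KV.wd (LS (Shift.zero A p)) [3, 3] vac +
        (N * (-46997003 / 32122992447)) • KV.wd (LS (Shift.zero A p)) [6] vac + v

/-- E7d + E7f: the contradiction from the kill conditions. -/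
def st_E7f : Prop :=
  ∀ (ι : Type) [Fintype ι] [DecidableEq ι] (A : Matrix ι ι ℤ), IsADE A → ∀ p : ℕ, 2 ≤ p →
    cc A p = -1190 → (∀ n : ℤ, n ≤ 5 → Wn A p n ≤ VirS A p n) → Wn A p 6 ≤ VirS A p 6 ⊔ Prim0 A p 6 →
    ∀ (ε : Cocycle A p) (u u' : VL ι) (N : ℂ), u ∈ Prim0 A p 6 → u' ∈ Prim0 A p 6 → N ≠ 0 →
      mode ε u 11 u' = N • (vac : VL ι) → ∀ x ∈ pv4_Prim A p 397,
      (∀ u ∈ Prim0 A p 6, ∀ k : ℤ, 2 ≤ k → mode ε u k x = 0) → x = 0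

/-- E7 (result): the case `r = 3` for `(E₇, 2)`. -/
def st_E7 : Prop :=
  ∀ (ε : Cocycle CartanMatrix.E₇ 2) (τ : Shift CartanMatrix.E₇ 2),
    τ.s = (2 : ℂ) • bg CartanMatrix.E₇ 2 →
    (∀ n : ℤ, n ≤ 5 → Wn CartanMatrix.E₇ 2 n ≤ VirS CartanMatrix.E₇ 2 n) →
    ¬ Wn CartanMatrix.E₇ 2 6 ≤ VirS CartanMatrix.E₇ 2 6 →
    ∀ t : ℂ, KV.Irr t → cc CartanMatrix.E₇ 2 = KV.cc t → (t - 1) ^ 2 / t = (((397 / 2 : ℚ)) : ℂ) →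
    ∀ (c : Nat.Partition (3 * 3) → ℂ) (x y : VL (Fin 7)) (ν : Fin 7 → ℤ), SV.IsS t 3 3 (3 * 3) c →
      ((397 : ℕ) : ℂ) = KV.hrs t 3 3 → x ∈ pv4_Prim CartanMatrix.E₇ 2 397 →
      y = SV.SS (LS (Shift.zero CartanMatrix.E₇ 2)) c x → Perp ε τ 406 y → ν ≠ 0 →
      x ∈ Finsupp.supported (Fock (Fin 7)) ℂ {ν} → x = 0

end

end WPQ
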