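import Pool.Agent.WPQ.NT1b
import Pool.Agent.WPQ.END

/-! [WPQ-ND1] Type `D_l`, `l ≥ 4`: positivity of `w = (1 - c)/6` and the rational numbers
`w (w + 4)`, `(16 + w)(w + 4)`, `(16 + w) w` are not squares.

`6 p w = N = 2 l (l-1) (2l-1) (p-1)² - (l-1) p`, and `(N + α p)(N + β p) = (N + s p)² - κ² p²` with
`(s, κ) = (12, 12), (60, 36), (48, 48)`.  If this is `y²`, `y ≥ 0`, then `e = N + s p - y ≥ 1` satisfies
`e (2 (N + s p) - e) = κ² p²`.  This is impossible for `l ≥ 11` (size), and for `l ≤ 10` one has `e ≤ 39` and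
the quadratic equation for `p` has no integral solution `p ≥ 2` (finite check). -/

namespace WPQ

/-- `2 l (l-1) (2l-1)` -/
def ndA (l : ℤ) : ℤ := 2 * l * (l - 1) * (2 * l - 1)

/-- `N = 6 p w` for `D_l`. -/
def ndN (l p : ℤ) : ℤ := ndA l * (p - 1) ^ 2 - (l - 1) * p

/-- The possible values of `(s, κ)`. -/
def nd_ok (s κ : ℤ) : Prop := (s = 12 ∧ κ = 12) ∨ (s = 60 ∧ κ = 36) ∨ (s = 48 ∧ κ = 48)

/-- The check for one quadruple. -/
def nd_chk (l e s κ : ℤ) : Bool :=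
  nt1b_chk0 false (2 * e * ndA l - κ ^ 2) (e * (s - 2 * ndA l - (l - 1))) (e * (2 * ndA l - e))
    (nt1b_isq 12 ((e * (s - 2 * ndA l - (l - 1))) ^ 2 -
        (2 * e * ndA l - κ ^ 2) * (e * (2 * ndA l - e))).toNat
      (2 ^ (Nat.log2 ((e * (s - 2 * ndA l - (l - 1))) ^ 2 -
        (2 * e * ndA l - κ ^ 2) * (e * (2 * ndA l - e))).toNat / 2 + 1)) : ℕ)

theorem nd_all1 : (List.range 7).all (fun i => (List.range 39).all fun j =>
    nd_chk ((i : ℕ) + 4) ((j : ℕ) + 1) 12 12) = true := by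
  decide +kernel

theorem nd_all2 : (List.range 7).all (fun i => (List.range 39).all fun j =>
    nd_chk ((i : ℕ) + 4) ((j : ℕ) + 1) 60 36) = true := by
  decide +kernel

theorem nd_all3 : (List.range 7).all (fun i => (List.range 39).all fun j =>
    nd_chk ((i : ℕ) + 4) ((j : ℕ) + 1) 48 48) = true := by
  decide +kernel

/-- The finite check, `4 ≤ l ≤ 10`, `1 ≤ e ≤ 39`. -/
theorem nd_fin (l e p : ℤ) (hl : 4 ≤ l) (hl' : l ≤ 10) (he : 1 ≤ e) (he' : e ≤ 39) (hp : 2 ≤ p)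
    (s κ : ℤ) (h : nd_ok s κ)
    (h0 : (2 * e * ndA l - κ ^ 2) * p ^ 2 + 2 * (e * (s - 2 * ndA l - (l - 1))) * p +
      e * (2 * ndA l - e) = 0) : False := by
  have key : ∀ s κ : ℤ, (List.range 7).all (fun i => (List.range 39).all fun j =>
      nd_chk ((i : ℕ) + 4) ((j : ℕ) + 1) s κ) = true → nd_chk l e s κ = true := by
    intro s κ h
    rw [List.all_eq_true] at h
    have h1 := h (l - 4).toNat (List.mem_range.mpr (by omega))
    rw [List.all_eq_true] at h1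
    have h2 := h1 (e - 1).toNat (List.mem_range.mpr (by omega))
    have e1 : (((l - 4).toNat : ℤ) + 4) = l := by omega
    have e2 : (((e - 1).toNat : ℤ) + 1) = e := by omega
    rwa [e1, e2] at h2
  have hc : nd_chk l e s κ = true := by
    rcases h with ⟨rfl, rfl⟩ | ⟨rfl, rfl⟩ | ⟨rfl, rfl⟩
    · exact key _ _ nd_all1
    · exact key _ _ nd_all2
    · exact key _ _ nd_all3
  have h1 := nt1b_sound _ _ _ _ _ p hc hp h0
  exact Bool.false_ne_true h1.1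

theorem nd_A4 (l : ℤ) (hl : 4 ≤ l) : 168 + 146 * (l - 4) ≤ ndA l := by
  obtain ⟨b, rfl⟩ : ∃ b, l = b + 4 := ⟨l - 4, by ring⟩
  have hb : 0 ≤ b := by linarith
  have h2 : 0 ≤ b ^ 2 := by positivity
  have h3 : 0 ≤ b ^ 3 := by positivity
  unfold ndA
  have e : 2 * (b + 4) * (b + 4 - 1) * (2 * (b + 4) - 1) = 4 * b ^ 3 + 42 * b ^ 2 + 146 * b + 168 := by
    ring
  rw [e]
  linarith

theorem nd_A11 (l : ℤ) (hl : 11 ≤ l) : 4620 + 1322 * (l - 11) ≤ ndA l := by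
  obtain ⟨b, rfl⟩ : ∃ b, l = b + 11 := ⟨l - 11, by ring⟩
  have hb : 0 ≤ b := by linarith
  have h2 : 0 ≤ b ^ 2 := by positivity
  have h3 : 0 ≤ b ^ 3 := by positivity
  unfold ndA
  have e : 2 * (b + 11) * (b + 11 - 1) * (2 * (b + 11) - 1) =
      4 * b ^ 3 + 126 * b ^ 2 + 1322 * b + 4620 := by ring
  rw [e]
  linarith

/-- Lower bound for `N`. -/
theorem nd_N4 (l p : ℤ) (hl : 4 ≤ l) (hp : 2 ≤ p) : 168 * (p - 1) ^ 2 - 3 * p ≤ ndN l p := by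
  obtain ⟨h1, -, -⟩ := nt1_sq p hp
  have h2 := nd_A4 l hl
  have h3 : 0 ≤ (ndA l - 168 - 146 * (l - 4)) * (p - 1) ^ 2 :=
    mul_nonneg (by linarith) (sq_nonneg _)
  have h4 : 0 ≤ (l - 4) * (2 * (p - 1) ^ 2 - p) := mul_nonneg (by linarith) (by linarith)
  have h5 : 0 ≤ (l - 4) * (p - 1) ^ 2 := mul_nonneg (by linarith) (sq_nonneg _)
  unfold ndN
  have e : ndA l * (p - 1) ^ 2 - (l - 1) * p - (168 * (p - 1) ^ 2 - 3 * p) =
      (ndA l - 168 - 146 * (l - 4)) * (p - 1) ^ 2 +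
        ((l - 4) * (2 * (p - 1) ^ 2 - p) + 144 * ((l - 4) * (p - 1) ^ 2)) := by ring
  linarith

theorem nd_N11 (l p : ℤ) (hl : 11 ≤ l) (hp : 2 ≤ p) : 4620 * (p - 1) ^ 2 - 10 * p ≤ ndN l p := by
  obtain ⟨h1, -, -⟩ := nt1_sq p hp
  have h2 := nd_A11 l hl
  have h3 : 0 ≤ (ndA l - 4620 - 1322 * (l - 11)) * (p - 1) ^ 2 :=
    mul_nonneg (by linarith) (sq_nonneg _)
  have h4 : 0 ≤ (l - 11) * (2 * (p - 1) ^ 2 - p) := mul_nonneg (by linarith) (by linarith)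
  have h5 : 0 ≤ (l - 11) * (p - 1) ^ 2 := mul_nonneg (by linarith) (sq_nonneg _)
  unfold ndN
  have e : ndA l * (p - 1) ^ 2 - (l - 1) * p - (4620 * (p - 1) ^ 2 - 10 * p) =
      (ndA l - 4620 - 1322 * (l - 11)) * (p - 1) ^ 2 +
        ((l - 11) * (2 * (p - 1) ^ 2 - p) + 1320 * ((l - 11) * (p - 1) ^ 2)) := by ring
  linarith

theorem nd_e40 (e X : ℤ) (h1 : 40 ≤ e) (h2 : e ≤ X) : 40 * X ≤ e * (2 * X - e) := by
  have g1 : 0 ≤ e * (X - e) := mul_nonneg (by linarith) (by linarith)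
  have g2 : 0 ≤ (e - 40) * X := mul_nonneg (by linarith) (by linarith)
  have e' : e * (2 * X - e) - 40 * X = e * (X - e) + (e - 40) * X := by ring
  linarith

/-- Size, `e ≥ 40`. -/
theorem nd_big (P s κ : ℤ) (hP : 2 ≤ P) (h : nd_ok s κ) :
    κ ^ 2 * P ^ 2 < 40 * (168 * (P - 1) ^ 2 - 3 * P + s * P) := by
  obtain ⟨b, hb⟩ : ∃ b, P = b + 2 := ⟨P - 2, by ring⟩
  subst hb
  have hb : 0 ≤ b := by linarith
  have h2 : 0 ≤ b ^ 2 := by positivity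
  rcases h with ⟨rfl, rfl⟩ | ⟨rfl, rfl⟩ | ⟨rfl, rfl⟩ <;> ring_nf <;> linarith

/-- Size, `l ≥ 11`. -/
theorem nd_big11 (P s κ : ℤ) (hP : 2 ≤ P) (h : nd_ok s κ) :
    κ ^ 2 * P ^ 2 < 2 * (4620 * (P - 1) ^ 2 - 10 * P + s * P) - 1 := by
  obtain ⟨b, hb⟩ : ∃ b, P = b + 2 := ⟨P - 2, by ring⟩
  subst hb
  have hb : 0 ≤ b := by linarith
  have h2 : 0 ≤ b ^ 2 := by positivity
  rcases h with ⟨rfl, rfl⟩ | ⟨rfl, rfl⟩ | ⟨rfl, rfl⟩ <;> ring_nf <;> linarith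

/-- The integers `(N + (s - κ) p)(N + (s + κ) p)` are not squares. -/
theorem nd_core (l p : ℤ) (hl : 4 ≤ l) (hp : 2 ≤ p) (s κ : ℤ) (h : nd_ok s κ) :
    ¬ IsSquare ((ndN l p + (s - κ) * p) * (ndN l p + (s + κ) * p)) := by
  rintro ⟨y, hy⟩
  have hκ : 0 < κ ^ 2 := by
    rcases h with h | h | h <;> (rw [h.2]; norm_num)
  have hs : 0 ≤ s := by rcases h with h | h | h <;> omega
  have hbig := nd_big p s κ hp h
  have hX0 := nd_N4 l p hl hp
  have hP2 : 0 < p ^ 2 := by positivity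
  have hκP : 0 < κ ^ 2 * p ^ 2 := mul_pos hκ hP2
  obtain ⟨X, hX⟩ : ∃ X : ℤ, X = ndN l p + s * p := ⟨_, rfl⟩
  have hy' : X ^ 2 - κ ^ 2 * p ^ 2 = y ^ 2 := by rw [hX]; linear_combination hy
  have hXpos : 0 < X := by linarith
  have hy2 : y ^ 2 = |y| ^ 2 := (sq_abs y).symm
  rw [hy2] at hy'
  have hyn : 0 ≤ |y| := abs_nonneg y
  generalize |y| = z at hy' hyn
  have hprod : (X - z) * (X + z) = κ ^ 2 * p ^ 2 := by
    have : (X - z) * (X + z) = X ^ 2 - z ^ 2 := by ring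
    rw [this]; linarith
  have he0 : 0 < X - z := by
    by_contra hc
    have : (X - z) * (X + z) ≤ 0 :=
      mul_nonpos_of_nonpos_of_nonneg (by linarith) (by linarith)
    linarith
  obtain ⟨e, he⟩ : ∃ e : ℤ, X - z = e := ⟨_, rfl⟩
  have he1 : 1 ≤ e := by omega
  have heX : e ≤ X := by linarith
  have hz : z = X - e := by linarith
  have heq : e * (2 * X - e) = κ ^ 2 * p ^ 2 := by
    rw [← hprod, hz]; ring
  have hl10 : l ≤ 10 := by
    by_contra hc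
    have h1 := nt1_e1 e X he1 heX
    have h2 := nd_N11 l p (by omega) hp
    have h3 := nd_big11 p s κ hp h
    linarith
  have he39 : e ≤ 39 := by
    by_contra hc
    have h1 := nd_e40 e X (by omega) heX
    linarith
  refine nd_fin l e p hl hl10 he1 he39 hp s κ h ?_
  rw [hX, ndN] at heq
  linear_combination heq

/-- `w` for `D_l`. -/
noncomputable def wD (l p : ℕ) : ℚ := wR l ((l : ℚ) * (l - 1) * (2 * l - 1) / 6) p

theorem nd_wD (l p : ℕ) (hp : 2 ≤ p) : wD l p * (6 * p) = (ndN l p : ℚ) := by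
  have hp0 : (p : ℚ) ≠ 0 := by exact_mod_cast (by omega : p ≠ 0)
  unfold wD wR ndN ndA
  push_cast
  field_simp
  ring

theorem nd_q (l p : ℕ) (hl : 4 ≤ l) (hp : 2 ≤ p) (s κ : ℤ) (h : nd_ok s κ) (x : ℚ)
    (hxx : x * (6 * p) ^ 2 = (wD l p * (6 * p) + (s - κ) * p) * (wD l p * (6 * p) + (s + κ) * p)) :
    ¬ IsSquare x := by
  rintro ⟨y, hy⟩
  apply nd_core l p (by exact_mod_cast hl) (by exact_mod_cast hp) s κ h
  rw [← Rat.isSquare_intCast_iff]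
  refine ⟨y * (6 * p), ?_⟩
  push_cast
  rw [nd_wD l p hp] at hxx
  rw [← hxx, hy]
  ring

/-- `w (w + 4)` is not a square. -/
theorem nd_R3 (l p : ℕ) (hl : 4 ≤ l) (hp : 2 ≤ p) : ¬ IsSquare (wD l p * (wD l p + 4)) := by
  refine nd_q l p hl hp 12 12 (Or.inl ⟨rfl, rfl⟩) _ ?_
  push_cast
  ring

/-- `(16 + w)(w + 4)` is not a square. -/
theorem nd_R1 (l p : ℕ) (hl : 4 ≤ l) (hp : 2 ≤ p) : ¬ IsSquare ((16 + wD l p) * (wD l p + 4)) := by
  refine nd_q l p hl hp 60 36 (Or.inr (Or.inl ⟨rfl, rfl⟩)) _ ?_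
  push_cast
  ring

/-- `(16 + w) w` is not a square. -/
theorem nd_R2 (l p : ℕ) (hl : 4 ≤ l) (hp : 2 ≤ p) : ¬ IsSquare ((16 + wD l p) * wD l p) := by
  refine nd_q l p hl hp 48 48 (Or.inr (Or.inr ⟨rfl, rfl⟩)) _ ?_
  push_cast
  ring

/-- Positivity and the bound for the weights of the generators. -/
theorem nd_pos (l p : ℕ) (hl : 4 ≤ l) (hp : 2 ≤ p) :
    6 < wD l p ∧ 2 * (l : ℚ) - 2 < 3 * wD l p / 4 + 4 := by
  have hp0 : (0 : ℚ) < p := by exact_mod_cast (by omega : 0 < p)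
  have hl1 : (4 : ℚ) ≤ l := by exact_mod_cast hl
  have hp1 : (2 : ℚ) ≤ p := by exact_mod_cast hp
  have e := nd_wD l p hp
  have h1 : ((ndN l p : ℤ) : ℚ) = 2 * l * (l - 1) * (2 * l - 1) * (p - 1) ^ 2 - (l - 1) * p := by
    unfold ndN ndA
    push_cast
    ring
  rw [h1] at e
  have hA : 168 + 146 * ((l : ℚ) - 4) ≤ 2 * l * (l - 1) * (2 * l - 1) := by
    have h2 := nd_A4 l (by exact_mod_cast hl)
    unfold ndA at h2
    exact_mod_cast h2
  have hsq : (p : ℚ) ≤ 2 * (p - 1) ^ 2 := by nlinarith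
  have h3 : (168 + 146 * ((l : ℚ) - 4)) * (p - 1) ^ 2 ≤ 2 * l * (l - 1) * (2 * l - 1) * (p - 1) ^ 2 :=
    mul_le_mul_of_nonneg_right hA (sq_nonneg _)
  have h4 : (168 + 146 * ((l : ℚ) - 4)) * p ≤ (168 + 146 * ((l : ℚ) - 4)) * (2 * (p - 1) ^ 2) :=
    mul_le_mul_of_nonneg_left hsq (by linarith)
  have h5 : (84 + 73 * ((l : ℚ) - 4) - (l - 1)) * p ≤ wD l p * 6 * p := by nlinarith
  have h6 : 84 + 73 * ((l : ℚ) - 4) - (l - 1) ≤ wD l p * 6 := le_of_mul_le_mul_right h5 hp0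
  constructor
  · linarith
  · linarith

end WPQ
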