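import Pool.Agent.WPQ.CYD

/-! [WPQ-CY1] The weight spaces of `W(p)_Q` are `GM` modules; vectors killed by `F_j`.

`gm_n`: `F` from `Sys.exists_F` for `sys_n` (WK6): `E_i F_j - F_j E_i = δ_ij H_j` with `H_j = HGn` and
`H_i F_j = F_j H_i - A_ij F_j`.  `GE` is `Gn_En`.  `EF`: `HGn A p n j = ∑ k, (A j k) • Gn k`.
`GF`: `G_i = ∑_k (A⁻¹)_ik H_k` over `ℂ`, so `[G_i, F_j] = -δ_ij F_j`.
`Fn_zero`: `E^(k+1) F v = F E^(k+1) v + (k+1) (λ + k) E^k v` for `H v = λ v`. -/

namespace WPQ

open MvPolynomial WK GA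

noncomputable section

variable {ι : Type} [Fintype ι] [DecidableEq ι] {A : Matrix ι ι ℤ} {p : ℕ}

theorem cy1_solve {V : Type} [AddCommGroup V] [Module ℂ V] (hA : IsADE A) (D : ι → V →ₗ[ℂ] V)
    (h : ∀ k, ∑ i, (A k i : ℂ) • D i = 0) (i : ι) : D i = 0 := by
  have h1 : (A.det : ℂ) • D i =
      ∑ k, (A.adjugate i k : ℂ) • ∑ m, (A k m : ℂ) • D m := by
    simp only [Finset.smul_sum, smul_smul]
    rw [Finset.sum_comm]
    simp only [← Finset.sum_smul]
    have h2 : ∀ m, ∑ k, (A.adjugate i k : ℂ) * (A k m : ℂ) =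
        if i = m then (A.det : ℂ) else 0 := by
      intro m
      have h3 := congrFun (congrFun (Matrix.adjugate_mul A) i) m
      rw [Matrix.mul_apply, Matrix.smul_apply, Matrix.one_apply] at h3
      have h4 := congrArg (fun z : ℤ => (z : ℂ)) h3
      simp only [Int.cast_sum, Int.cast_mul] at h4
      rw [h4]
      split_ifs <;> simp
    simp only [h2, ite_smul, zero_smul]
    rw [Finset.sum_ite_eq, if_pos (Finset.mem_univ i)]
  simp only [h, smul_zero, Finset.sum_const_zero] at h1
  exact (smul_eq_zero.1 h1).resolve_left (Int.cast_ne_zero.2 (jj1_det hA))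

theorem gm_n (hA : IsADE A) (hp : 2 ≤ p) (ε : Cocycle A p) (n : ℤ) :
    ∃ F : ι → Module.End ℂ (WT A p n), GM A (M := WT A p n) (En hA hp ε n) F (Gn A p n) := by
  have hfin := finite_n hA hp n
  obtain ⟨F, h1, h2⟩ := (sys_n hA hp ε n).exists_F hA
  refine ⟨F, ?_⟩
  constructor
  · intro i j v
    exact Gn_En hA hp ε n i j v
  · intro i j v
    have key : ∀ i, Gn A p n i * F j - F j * Gn A p n i + (if i = j then F j else 0) = 0 := by
      intro i
      refine cy1_solve hA (fun i => Gn A p n i * F j - F j * Gn A p n i +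
        (if i = j then F j else 0)) (fun k => ?_) i
      have h3 := h2 k j
      unfold HGn at h3
      rw [Finset.sum_mul, Finset.mul_sum] at h3
      simp only [smul_add, smul_sub, Finset.sum_add_distrib, Finset.sum_sub_distrib]
      have h4 : ∑ i, (A k i : ℂ) • (Gn A p n i * F j) = ∑ i, (A k i : ℂ) • Gn A p n i * F j :=
        Finset.sum_congr rfl fun i _ => by rw [smul_mul_assoc]
      have h5 : ∑ i, (A k i : ℂ) • (F j * Gn A p n i) = ∑ i, F j * (A k i : ℂ) • Gn A p n i :=
        Finset.sum_congr rfl fun i _ => by rw [mul_smul_comm]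
      have h6 : ∑ i, (A k i : ℂ) • (if i = j then F j else 0 : WT A p n →ₗ[ℂ] WT A p n) =
          (A k j : ℂ) • F j := by
        rw [Finset.sum_eq_single j]
        · rw [if_pos rfl]
        · intro b _ hb
          rw [if_neg hb, smul_zero]
        · intro h
          exact absurd (Finset.mem_univ j) h
      rw [h4, h5, h6, h3]
      abel
    have h3 := congrArg (fun f : WT A p n →ₗ[ℂ] WT A p n => f v) (key i)
    have h4 : Gn A p n i (F j v) - F j (Gn A p n i v) +
        (if i = j then F j else 0 : WT A p n →ₗ[ℂ] WT A p n) v = 0 := h3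
    split_ifs at h4 ⊢
    · rw [← sub_eq_zero, ← h4]
      abel
    · rw [LinearMap.zero_apply, add_zero] at h4
      rw [sub_zero]
      exact sub_eq_zero.1 h4
  · intro i j v
    have h3 := congrArg (fun f : WT A p n →ₗ[ℂ] WT A p n => f v) (h1 i j)
    have h4 : En hA hp ε n i (F j v) - F j (En hA hp ε n i v) =
        (if i = j then HGn A p n j else 0 : WT A p n →ₗ[ℂ] WT A p n) v := h3
    rw [sub_eq_iff_eq_add] at h4
    rw [h4, add_comm]
    congr 1
    split_ifs
    · unfold HGn
      rw [LinearMap.sum_apply]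
      rfl
    · rfl
  · rw [eq_top_iff, ← span_S0 n]
    refine Submodule.span_mono ?_
    rintro v ⟨γ, f, hv⟩
    exact ⟨γ, fun i => Gn_S0 n i v γ f hv⟩

theorem Fn_zero (hA : IsADE A) (hp : 2 ≤ p) (ε : Cocycle A p) (n : ℤ)
    (F : ι → Module.End ℂ (WT A p n)) (h : GM A (M := WT A p n) (En hA hp ε n) F (Gn A p n))
    (j : ι) (g : ι → ℤ) (m : ℕ) (hm : pr A j g = -(m : ℤ)) (v : WT A p n)
    (hv : Wt (Gn A p n) g v) (hE : (En hA hp ε n j ^ (m + 1)) v = 0) : F j v = 0 := by
  set E : Module.End ℂ (WT A p n) := En hA hp ε n j with hEd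
  have hH : HGn A p n j v = (-(m : ℂ)) • v := by
    have h1 := HH_wt (A := A) j g v hv
    rw [hm] at h1
    have h2 : HGn A p n j v = HH A (Gn A p n) j v := rfl
    rw [h2, h1]
    push_cast
    rfl
  have hHE : ∀ k : ℕ, HGn A p n j ((E ^ k) v) = (-(m : ℂ) + 2 * k) • (E ^ k) v := by
    intro k
    induction k with
    | zero =>
      rw [pow_zero, Module.End.one_apply, hH]
      congr 1
      push_cast
      ring
    | succ k ih =>
      rw [pow_succ', Module.End.mul_apply]
      have h1 := Hc hA hp ε n j j ((E ^ k) v)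
      rw [ih, hA.diag j, map_smul] at h1
      refine h1.trans ?_
      rw [← add_smul]
      congr 1
      push_cast
      ring
  have hEF : ∀ x : WT A p n, E (F j x) = F j (E x) + HGn A p n j x := by
    intro x
    have h1 := h.EF j j x
    rw [if_pos rfl] at h1
    refine h1.trans ?_
    congr 1
    unfold HGn
    rw [LinearMap.sum_apply]
    rfl
  have key : ∀ k : ℕ, (E ^ (k + 1)) (F j v) = F j ((E ^ (k + 1)) v) +
      (((k : ℂ) + 1) * (-(m : ℂ) + k)) • (E ^ k) v := by
    intro k
    induction k with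
    | zero =>
      rw [pow_one, hEF, hH, pow_zero, Module.End.one_apply]
      congr 2
      push_cast
      ring
    | succ k ih =>
      have e1 : (E ^ (k + 1 + 1)) (F j v) = E ((E ^ (k + 1)) (F j v)) := by
        rw [pow_succ' E (k + 1), Module.End.mul_apply]
      have e2 : (E ^ (k + 1 + 1)) v = E ((E ^ (k + 1)) v) := by
        rw [pow_succ' E (k + 1), Module.End.mul_apply]
      have e3 : E ((E ^ k) v) = (E ^ (k + 1)) v := by
        rw [pow_succ' E k, Module.End.mul_apply]
      rw [e1, ih, map_add, hEF, hHE, map_smul, e3, e2, add_assoc, ← add_smul]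
      congr 2
      push_cast
      ring
  have h1 : (E ^ (m + 2)) (F j v) = 0 := by
    have e2 : (E ^ (m + 2)) v = E ((E ^ (m + 1)) v) := by
      rw [show m + 2 = (m + 1) + 1 from rfl, pow_succ' E (m + 1), Module.End.mul_apply]
    rw [show m + 2 = (m + 1) + 1 from rfl, key (m + 1)]
    rw [show m + 2 = (m + 1) + 1 from rfl] at e2
    rw [e2, hE, map_zero, map_zero, smul_zero, add_zero]
  refine inj_n hA hp ε n j (m + 2) (F j v) ?_ h1
  have h2 : HGn A p n j (F j v) = F j (HGn A p n j v) - (2 : ℂ) • F j v := by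
    have h3 : ∀ i, Gn A p n i (F j v) = F j (Gn A p n i v) - (if i = j then F j v else 0) :=
      fun i => h.GF i j v
    unfold HGn
    rw [LinearMap.sum_apply, LinearMap.sum_apply, map_sum]
    simp only [LinearMap.smul_apply, map_smul]
    rw [Finset.sum_congr rfl fun i _ => by rw [h3 i, smul_sub]]
    rw [Finset.sum_sub_distrib]
    congr 1
    rw [Finset.sum_eq_single j]
    · rw [if_pos rfl, hA.diag j]
      norm_num
    · intro b _ hb
      rw [if_neg hb, smul_zero]
    · intro h
      exact absurd (Finset.mem_univ j) h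
  rw [h2, hH, map_smul, ← sub_smul]
  congr 1
  push_cast
  ring

end

end WPQ
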