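import Pool.Agent.WPQ.GA11

/-! [WPQ-GA12] Additions: the projection of GA10 commutes with `F`, the homomorphism of GA11 can be taken
equivariant on the whole module, and `F v = 0` implies `E^(m+1) v = 0`. -/

namespace WPQ.GA

noncomputable section

variable {ι : Type} [Fintype ι] [DecidableEq ι] {A : Matrix ι ι ℤ}
variable {M N : Type} [AddCommGroup M] [Module ℂ M] [AddCommGroup N] [Module ℂ N]
variable {E F G : ι → Module.End ℂ M} {E' F' G' : ι → Module.End ℂ N}

omit [Fintype ι] [DecidableEq ι] in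
theorem mem_Inv (E G : ι → Module.End ℂ M) (v : M) :
    v ∈ Inv E G ↔ ∀ i, E i v = 0 ∧ G i v = 0 := by
  unfold Inv
  rw [Submodule.mem_iInf]
  refine forall_congr' fun i => ?_
  rw [Submodule.mem_inf, LinearMap.mem_ker, LinearMap.mem_ker]

/-- A linear map that commutes with the `E j` and the `G i` commutes with the `F j`. -/
theorem GM.comm_F [FiniteDimensional ℂ M] [FiniteDimensional ℂ N] (hA : IsADE A)
    (h : GM A E F G) (h' : GM A E' F' G') (T : N →ₗ[ℂ] M)
    (hE : ∀ i v, T (E' i v) = E i (T v)) (hG : ∀ i v, T (G' i v) = G i (T v)) (i : ι) (v : N) :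
    T (F' i v) = F i (T v) := by
  have h1 : GM A (M := N →ₗ[ℂ] M) (fun i => hm (E i) (E' i)) (fun i => hm (F i) (F' i))
      (fun i => hm (G i) (G' i)) := GM.hom h h'
  have h2 : T ∈ Inv (M := N →ₗ[ℂ] M) (fun i => hm (E i) (E' i)) (fun i => hm (G i) (G' i)) := by
    rw [mem_Inv]
    intro j
    constructor
    · refine LinearMap.ext fun w => ?_
      change E j (T w) - T (E' j w) = 0
      rw [hE, sub_self]
    · refine LinearMap.ext fun w => ?_
      change G j (T w) - T (G' j w) = 0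
      rw [hG, sub_self]
  have h3 := h1.F_inv hA i T h2
  have h4 := congrArg (fun f : N →ₗ[ℂ] M => f v) h3
  have h5 : F i (T v) - T (F' i v) = 0 := h4
  exact (sub_eq_zero.1 h5).symm

theorem GM.exists_projF [FiniteDimensional ℂ M] (hA : IsADE A) (h : GM A E F G)
    (K : Submodule ℂ M) (hE : ∀ i, ∀ v ∈ K, E i v ∈ K) (hF : ∀ i, ∀ v ∈ K, F i v ∈ K)
    (hG : ∀ i, ∀ v ∈ K, G i v ∈ K) :
    ∃ π : M →ₗ[ℂ] M, (∀ v, π v ∈ K) ∧ (∀ v ∈ K, π v = v) ∧ (∀ i v, π (E i v) = E i (π v)) ∧
      (∀ i v, π (F i v) = F i (π v)) ∧ ∀ i v, π (G i v) = G i (π v) := by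
  obtain ⟨π, h1, h2, h3, h4⟩ := h.exists_proj hA K hE hF hG
  exact ⟨π, h1, h2, h3, fun i v => GM.comm_F hA h h π h3 h4 i v, h4⟩

/-- `F v = 0` implies `E^(m+1) v = 0` for `v` of weight `-m`. -/
theorem GM.E_pow [FiniteDimensional ℂ M] (hA : IsADE A) (h : GM A E F G) (j : ι) (g : ι → ℤ)
    (m : ℕ) (hm : pr A j g = -(m : ℤ)) (v : M) (hv : Wt G g v) (hF : F j v = 0) :
    (E j ^ (m + 1)) v = 0 := by
  have hEw : ∀ (k : ℕ), Wt G (g + k • rt j) ((E j ^ k) v) := by
    intro k
    induction k with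
    | zero =>
      rw [zero_smul, add_zero, pow_zero]
      exact hv
    | succ k ih =>
      intro i
      have e1 : (E j ^ (k + 1)) v = E j ((E j ^ k) v) := by
        rw [pow_succ', Module.End.mul_apply]
      rw [e1, h.GE, ih i, map_smul]
      have e2 : (((g + (k + 1) • rt j) i : ℤ) : ℂ) = (((g + k • rt j) i : ℤ) : ℂ) +
          (if i = j then 1 else 0) := by
        rw [Pi.add_apply, Pi.add_apply, Pi.smul_apply, Pi.smul_apply, nsmul_eq_mul, nsmul_eq_mul]
        unfold rt
        rw [Pi.single_apply]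
        split_ifs
        · push_cast
          ring
        · push_cast
          ring
      rw [e2, add_smul]
      congr 1
      split_ifs with hij
      · rw [one_smul]
      · rw [zero_smul]
  have hprk : ∀ k : ℕ, pr A j (g + k • rt j) = -(m : ℤ) + 2 * k := by
    intro k
    have h1 : pr A j (g + k • rt j) = pr A j g + k * pr A j (rt j) := by
      unfold pr
      rw [Finset.mul_sum, ← Finset.sum_add_distrib]
      refine Finset.sum_congr rfl fun i _ => ?_
      rw [Pi.add_apply, Pi.smul_apply, nsmul_eq_mul]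
      push_cast
      ring
    have h2 : pr A j (rt j) = 2 := by
      unfold pr rt
      simp [Pi.single_apply, hA.diag]
    rw [h1, h2, hm]
    ring
  have hFE : ∀ k : ℕ, F j ((E j ^ (k + 1)) v) =
      (((k : ℂ) + 1) * ((m : ℂ) - k)) • (E j ^ k) v := by
    intro k
    induction k with
    | zero =>
      have e := h.EF j j v
      rw [if_pos rfl, hF, map_zero] at e
      have e2 := HH_wt (A := A) j g v hv
      have e3 : ∑ k, (A j k : ℂ) • G k v = HH A G j v := by
        unfold HH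
        rw [LinearMap.sum_apply]
        rfl
      rw [e3, e2, hm] at e
      rw [pow_one, pow_zero, Module.End.one_apply]
      have e4 : F j (E j v) = -(((-(m : ℤ) : ℤ) : ℂ) • v) := by
        rw [eq_neg_iff_add_eq_zero]
        exact e.symm
      rw [e4, ← neg_smul]
      congr 1
      push_cast
      ring
    | succ k ih =>
      have e1 : (E j ^ (k + 1 + 1)) v = E j ((E j ^ (k + 1)) v) := by
        rw [pow_succ', Module.End.mul_apply]
      have e := h.EF j j ((E j ^ (k + 1)) v)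
      rw [if_pos rfl] at e
      have e2 := HH_wt (A := A) j _ _ (hEw (k + 1))
      have e3 : ∑ k', (A j k' : ℂ) • G k' ((E j ^ (k + 1)) v) = HH A G j ((E j ^ (k + 1)) v) := by
        unfold HH
        rw [LinearMap.sum_apply]
        rfl
      rw [e3, e2, hprk, ih, map_smul] at e
      have e5 : E j ((E j ^ k) v) = (E j ^ (k + 1)) v := by
        rw [pow_succ', Module.End.mul_apply]
      rw [e5] at e
      rw [e1, ← sub_eq_iff_eq_add.2 e, ← sub_smul]
      congr 1
      push_cast
      ring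
  by_contra h0
  have h1 : F j ((E j ^ (m + 1)) v) = 0 := by
    rw [hFE, sub_self, mul_zero, zero_smul]
  have h2 := h.pr_nonpos hA j _ _ (hEw (m + 1)) h0 h1
  rw [hprk] at h2
  push_cast at h2
  omega

/-- The homomorphism of GA11, equivariant on the whole module. -/
theorem GM.exists_homF [FiniteDimensional ℂ M] [FiniteDimensional ℂ N] (hA : IsADE A)
    (h : GM A E F G) (h' : GM A E' F' G') (g : ι → ℤ) (u : N) (f : M) (hu : Wt G' g u)
    (hf : Wt G g f) (hu0 : u ≠ 0) (hFu : ∀ i, F' i u = 0) (hFf : ∀ i, F i f = 0) :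
    ∃ T : N →ₗ[ℂ] M, T u = f ∧ (∀ i v, T (E' i v) = E i (T v)) ∧
      (∀ i v, T (F' i v) = F i (T v)) ∧ ∀ i v, T (G' i v) = G i (T v) := by
  obtain ⟨T, h1, h2, h3⟩ := GM.exists_hom hA h h' g u f hu hf hu0 hFu hFf
  obtain ⟨π, p1, p2, p3, p4, p5⟩ := h'.exists_projF hA (Cyc E' u)
    (fun i v hv => Cyc_E E' u i v hv) (fun i v hv => Cyc_F h' g u hu hFu i v hv)
    (fun i v hv => Cyc_G h' g u hu i v hv)
  have e1 : ∀ i v, (T ∘ₗ π) (E' i v) = E i ((T ∘ₗ π) v) := by
    intro i v
    rw [LinearMap.comp_apply, LinearMap.comp_apply, p3, h2 i _ (p1 v)]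
  have e2 : ∀ i v, (T ∘ₗ π) (G' i v) = G i ((T ∘ₗ π) v) := by
    intro i v
    rw [LinearMap.comp_apply, LinearMap.comp_apply, p5, h3 i _ (p1 v)]
  refine ⟨T ∘ₗ π, ?_, e1, fun i v => GM.comm_F hA h h' _ e1 e2 i v, e2⟩
  rw [LinearMap.comp_apply, p2 u (mem_Cyc E' u), h1]

end

end WPQ.GA
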