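import Pool.Agent.WPQ.TLD
import Pool.Agent.WPQ.GA12
import Pool.Agent.WPQ.CY1

/-! [WPQ-TL1] Full Q1 of MP_c42e9d_al, block TL: a highest weight vector `y` of charge `ν` pairs nontrivially
with `M_ν(n)` (paper: W_DE_2.md, TL1).

`V(n)` is a `GM` module (`gm_n`); `K` is the smallest subspace containing `y` stable under the `F_j`; it is stable
under `E_j`, `G_i` (mirror image of `Cyc_F`, `Cyc_G`).  `beta` is invariant under `F_j` (`GM.comm_F` for the map
`V(n) → V(n)*`).  `K^⊥` is a submodule, `π` an equivariant projection to `K^⊥` (`GM.exists_projF`).  Take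
`v` of charge `-ν` with `β(v, y) ≠ 0` and `f = v - π v`. -/

namespace WPQ

open MvPolynomial WK GA

noncomputable section

variable {ι : Type} [Fintype ι] [DecidableEq ι] {A : Matrix ι ι ℤ} {p : ℕ}

/-- Weights and charges. -/
theorem tl1_wt (n : ℤ) (g : ι → ℤ) (v : WT A p n)
    (hv : cv A p n v ∈ Finsupp.supported (Fock ι) ℂ {g}) : Wt (Gn A p n) g v := by
  intro i
  exact Gn_S0 n i v g _ (va4_supp_single _ _ hv)

theorem tl1_supp (n : ℤ) (g : ι → ℤ) (v : WT A p n) (hv : Wt (Gn A p n) g v) :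
    cv A p n v ∈ Finsupp.supported (Fock ι) ℂ {g} := by
  refine va4_mem_supp _ _ fun δ hδ => ?_
  obtain ⟨i, hi⟩ := Function.ne_iff.1 hδ
  have h1 := congrArg (fun w => cv A p n w δ) (hv i)
  simp only [Gn_coe, Gop_apply, map_smul, Finsupp.smul_apply] at h1
  have h2 : (((δ i : ℤ) : ℂ) - ((g i : ℤ) : ℂ)) • (cv A p n v) δ = 0 := by
    rw [sub_smul, h1, sub_self]
  refine (smul_eq_zero.1 h2).resolve_left fun h3 => hi ?_
  exact Int.cast_injective (sub_eq_zero.1 h3)

/-- `beta` pairs only opposite charges. -/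
theorem tl1_B0 (hA : IsADE A) (hp : 2 ≤ p) (ε : Cocycle A p) (τ : Shift A p)
    (hτ : τ.s = (2 : ℂ) • bg A p) (n : ℤ) (g g' : ι → ℤ) (v w : WT A p n)
    (hv : Wt (Gn A p n) g v) (hw : Wt (Gn A p n) g' w) (h : g + g' ≠ 0) :
    Bn ε τ n v w = 0 := by
  obtain ⟨i, hi⟩ := Function.ne_iff.1 h
  have h1 := Bn_G hA hp ε τ hτ n i v w
  rw [hv i, hw i, map_smul, map_smul, LinearMap.smul_apply, smul_eq_mul, smul_eq_mul] at h1
  have h2 : ((g i : ℂ) + (g' i : ℂ)) * Bn ε τ n v w = 0 := by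
    linear_combination h1
  refine (mul_eq_zero.1 h2).resolve_left fun h3 => hi ?_
  have h4 : ((g i + g' i : ℤ) : ℂ) = ((0 : ℤ) : ℂ) := by
    push_cast
    exact h3
  exact Int.cast_injective h4

/-- `beta` is invariant under the `F_j`. -/
theorem tl1_BF (hA : IsADE A) (hp : 2 ≤ p) (ε : Cocycle A p) (τ : Shift A p)
    (hτ : τ.s = (2 : ℂ) • bg A p) (n : ℤ) (F : ι → Module.End ℂ (WT A p n))
    (h : GM A (M := WT A p n) (En hA hp ε n) F (Gn A p n)) (j : ι) (a b : WT A p n) :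
    Bn ε τ n (F j a) b = -Bn ε τ n a (F j b) := by
  have hfin := finite_n hA hp (p := p) (A := A) n
  have h2 : GM A (M := WT A p n →ₗ[ℂ] ℂ)
      (fun i => hm (0 : Module.End ℂ ℂ) (En hA hp ε n i))
      (fun i => hm (0 : Module.End ℂ ℂ) (F i))
      (fun i => hm (0 : Module.End ℂ ℂ) (Gn A p n i)) := GM.hom (GM.triv A) h
  have h3 := GM.comm_F hA h2 h (Bn ε τ n)
    (fun i v => LinearMap.ext fun w => by
      change Bn ε τ n (En hA hp ε n i v) w = 0 - Bn ε τ n v (En hA hp ε n i w)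
      rw [Bn_E hA hp ε τ hτ, zero_sub])
    (fun i v => LinearMap.ext fun w => by
      change Bn ε τ n (Gn A p n i v) w = 0 - Bn ε τ n v (Gn A p n i w)
      rw [Bn_G hA hp ε τ hτ, zero_sub]) j a
  have h4 := congrArg (fun φ : WT A p n →ₗ[ℂ] ℂ => φ b) h3
  have h5 : Bn ε τ n (F j a) b = 0 - Bn ε τ n a (F j b) := h4
  rw [h5, zero_sub]

/-- Words in the `F_j`. -/
def tl1_w {M : Type} [AddCommGroup M] [Module ℂ M] (F : ι → Module.End ℂ M) (l : List ι) :
    Module.End ℂ M := (l.map F).prod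

theorem tl1_w_wt {M : Type} [AddCommGroup M] [Module ℂ M] {E F G : ι → Module.End ℂ M}
    (h : GM A E F G) (g : ι → ℤ) (v : M) (hv : Wt G g v) (l : List ι) :
    Wt G (g - (l.map rt).sum) (tl1_w F l v) := by
  induction l with
  | nil =>
    intro i
    unfold tl1_w
    rw [List.map_nil, List.prod_nil, Module.End.one_apply, List.map_nil, List.sum_nil, sub_zero]
    exact hv i
  | cons j l ih =>
    intro i
    have e1 : tl1_w F (j :: l) v = F j (tl1_w F l v) := by
      unfold tl1_w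
      rw [List.map_cons, List.prod_cons, Module.End.mul_apply]
    rw [e1, h.GF, ih i, map_smul, List.map_cons, List.sum_cons]
    simp only [Pi.sub_apply, Pi.add_apply]
    by_cases hij : i = j
    · subst hij
      rw [if_pos rfl]
      have e2 : (rt i : ι → ℤ) i = 1 := by
        unfold rt
        rw [Pi.single_eq_same]
      rw [e2]
      push_cast
      module
    · rw [if_neg hij, sub_zero]
      have e2 : (rt j : ι → ℤ) i = 0 := by
        unfold rt
        rw [Pi.single_eq_of_ne hij]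
      rw [e2, zero_add]

theorem tl1_sum_ne (l : List ι) (hl : l ≠ []) : (l.map (rt : ι → ι → ℤ)).sum ≠ 0 := by
  have h1 : ∀ l : List ι, ht ((l.map (rt : ι → ι → ℤ)).sum) = l.length := by
    intro l
    induction l with
    | nil =>
      unfold ht
      simp
    | cons j l ih =>
      rw [List.map_cons, List.sum_cons, List.length_cons]
      have e1 : ht (rt j + (l.map (rt : ι → ι → ℤ)).sum) =
          ht (rt j) + ht ((l.map (rt : ι → ι → ℤ)).sum) := by
        unfold ht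
        simp only [Pi.add_apply]
        rw [Finset.sum_add_distrib]
      rw [e1, ih, jj3_ht_rt]
      push_cast
      ring
  intro h
  have h2 := h1 l
  rw [h] at h2
  have h3 : ht (0 : ι → ℤ) = 0 := by
    unfold ht
    simp
  rw [h3] at h2
  have h4 : l.length = 0 := by exact_mod_cast h2.symm
  exact hl (List.length_eq_zero_iff.1 h4)

/-- Multiplication with `F_j k`, `k ∈ K`. -/
theorem tl1_K (hA : IsADE A) (hp : 2 ≤ p) (ε : Cocycle A p) (τ : Shift A p)
    (hτ : τ.s = (2 : ℂ) • bg A p) (n : ℤ) (F : ι → Module.End ℂ (WT A p n))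
    (h : GM A (M := WT A p n) (En hA hp ε n) F (Gn A p n)) (ν : ι → ℤ) (Y f : WT A p n)
    (hY : Wt (Gn A p n) ν Y) (hf : Wt (Gn A p n) (-ν) f) (j : ι) (k : WT A p n)
    (hk : k ∈ Cyc F Y) : Bn ε τ n f (F j k) = 0 := by
  let Z : Submodule ℂ (WT A p n) :=
    ⨅ l : {l : List ι // l ≠ []}, LinearMap.ker (Bn ε τ n f ∘ₗ tl1_w F l.1)
  have hZ : ∀ x, x ∈ Z ↔ ∀ l : List ι, l ≠ [] → Bn ε τ n f (tl1_w F l x) = 0 := by
    intro x
    simp only [Z, Submodule.mem_iInf, LinearMap.mem_ker, LinearMap.comp_apply, Subtype.forall]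
  have h1 : Cyc F Y ≤ Z := by
    refine Cyc_le F Y Z ((hZ Y).2 fun l hl => ?_) fun i v hv => (hZ _).2 fun l hl => ?_
    · refine tl1_B0 hA hp ε τ hτ n (-ν) _ f _ hf (tl1_w_wt h ν Y hY l) fun h0 => ?_
      have h2 : (l.map (rt : ι → ι → ℤ)).sum = 0 := by
        have h3 : -ν + (ν - (l.map (rt : ι → ι → ℤ)).sum) = -(l.map (rt : ι → ι → ℤ)).sum := by
          abel
        rw [h3] at h0
        exact neg_eq_zero.1 h0
      exact tl1_sum_ne l hl h2
    · have e : tl1_w F l (F i v) = tl1_w F (l ++ [i]) v := by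
        unfold tl1_w
        rw [List.map_append, List.prod_append, List.map_cons, List.map_nil, List.prod_cons,
          List.prod_nil, mul_one, Module.End.mul_apply]
      rw [e]
      exact (hZ v).1 hv _ (by simp)
  have h2 := (hZ k).1 (h1 hk) [j] (by simp)
  have e : tl1_w F [j] k = F j k := by
    unfold tl1_w
    rw [List.map_cons, List.map_nil, List.prod_cons, List.prod_nil, mul_one]
  rwa [e] at h2

theorem tl1 : st_TL1 := by
  intro ι _ _ A hA p hp ε τ hτ n y ν hy hy0 hys hyE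
  have hfin := finite_n hA hp (p := p) (A := A) n
  obtain ⟨F, h⟩ := gm_n hA hp ε n
  set Y : WT A p n := mkW n y hy with hYdef
  have hYy : cv A p n Y = y := rfl
  have hY0 : Y ≠ 0 := by
    intro h0
    apply hy0
    rw [← hYy, h0, map_zero]
  have hYw : Wt (Gn A p n) ν Y := tl1_wt n ν Y (by rw [hYy]; exact hys)
  have hYE : ∀ j, En hA hp ε n j Y = 0 := by
    intro j
    refine cv_inj n ?_
    rw [En_coe, hYy, hyE, map_zero]
  have hdom : Dom A ν := fun j => h.pr_nonneg hA j ν Y hYw hY0 (hYE j)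
  refine ⟨hdom, ?_⟩
  -- the submodule generated by `y`
  have hmir := h.mirror
  have hYw' : Wt (fun i => -Gn A p n i) (-ν) Y := by
    intro i
    rw [LinearMap.neg_apply, hYw i, Pi.neg_apply]
    push_cast
    rw [neg_smul]
  have kF : ∀ i, ∀ v ∈ Cyc F Y, F i v ∈ Cyc F Y := fun i v hv => Cyc_E F Y i v hv
  have kE : ∀ i, ∀ v ∈ Cyc F Y, En hA hp ε n i v ∈ Cyc F Y :=
    fun i v hv => Cyc_F hmir (-ν) Y hYw' hYE i v hv
  have kG : ∀ i, ∀ v ∈ Cyc F Y, Gn A p n i v ∈ Cyc F Y := by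
    intro i v hv
    have h1 := Cyc_G hmir (-ν) Y hYw' i v hv
    rw [LinearMap.neg_apply] at h1
    exact neg_mem_iff.1 h1
  -- its orthogonal complement
  let Kp : Submodule ℂ (WT A p n) :=
    { carrier := {v | ∀ k ∈ Cyc F Y, Bn ε τ n v k = 0}
      add_mem' := by
        intro a b ha hb k hk
        rw [map_add, LinearMap.add_apply, ha k hk, hb k hk, add_zero]
      zero_mem' := by
        intro k _
        rw [map_zero, LinearMap.zero_apply]
      smul_mem' := by
        intro c a ha k hk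
        rw [map_smul, LinearMap.smul_apply, ha k hk, smul_zero] }
  have pE : ∀ i, ∀ v ∈ Kp, En hA hp ε n i v ∈ Kp := by
    intro i v hv k hk
    rw [Bn_E hA hp ε τ hτ, hv _ (kE i k hk), neg_zero]
  have pG : ∀ i, ∀ v ∈ Kp, Gn A p n i v ∈ Kp := by
    intro i v hv k hk
    rw [Bn_G hA hp ε τ hτ, hv _ (kG i k hk), neg_zero]
  have pF : ∀ i, ∀ v ∈ Kp, F i v ∈ Kp := by
    intro i v hv k hk
    rw [tl1_BF hA hp ε τ hτ n F h, hv _ (kF i k hk), neg_zero]
  obtain ⟨π, h1, h2, h3, h4, h5⟩ := h.exists_projF hA Kp pE pF pG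
  -- a vector of charge `-ν` which pairs with `y`
  have hex : ∃ v, Bn ε τ n v Y ≠ 0 := by
    by_contra hcon
    push Not at hcon
    exact hY0 (right_dual (Bn ε τ n) (Bn_left hA hp ε τ hτ n) Y hcon)
  obtain ⟨v0, hv0⟩ := hex
  obtain ⟨s, w, hw, hsum⟩ := exists_comp h v0
  have hex2 : ∃ g ∈ s, Bn ε τ n (w g) Y ≠ 0 := by
    by_contra hcon
    push Not at hcon
    apply hv0
    rw [hsum, map_sum, LinearMap.sum_apply]
    exact Finset.sum_eq_zero hcon
  obtain ⟨g, -, hg⟩ := hex2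
  have hgν : g = -ν := by
    by_contra hne
    refine hg (tl1_B0 hA hp ε τ hτ n g ν _ Y (hw g) hYw fun h0 => hne ?_)
    exact eq_neg_of_add_eq_zero_left h0
  subst hgν
  set v := w (-ν) with hvdef
  have hvw : Wt (Gn A p n) (-ν) v := hw _
  set f : WT A p n := v - π v with hfdef
  have hfw : Wt (Gn A p n) (-ν) f := by
    intro i
    rw [hfdef, map_sub, ← h5, hvw i, map_smul, smul_sub]
  have hfY : Bn ε τ n f Y ≠ 0 := by
    rw [hfdef, map_sub, LinearMap.sub_apply, h1 v Y (mem_Cyc F Y), sub_zero]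
    exact hg
  have hπf : π f = 0 := by
    rw [hfdef, map_sub, h2 _ (h1 v), sub_self]
  have hFf : ∀ j, F j f = 0 := by
    intro j
    have hmem : F j f ∈ Kp := by
      intro k hk
      rw [tl1_BF hA hp ε τ hτ n F h, tl1_K hA hp ε τ hτ n F h ν Y f hYw hfw j k hk, neg_zero]
    rw [← h2 _ hmem, h4, hπf, map_zero]
  refine ⟨cv A p n f, (mem_MNU ε ν n _).2 ⟨cv_mem n f, tl1_supp n (-ν) f hfw, fun j => ?_⟩, ?_⟩
  · rw [← En_pow_coe hA hp]
    have hm : pr A j (-ν) = -(((pr A j ν).toNat : ℕ) : ℤ) := by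
      rw [vp1_pr_neg, Int.toNat_of_nonneg (hdom j)]
    rw [h.E_pow hA j (-ν) _ hm f hfw (hFf j), map_zero]
  · rw [beta_symm hA hp ε τ hτ y (cv A p n f) hy.1 (cv_mem n f).1]
    exact hfY

end

end WPQ
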