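import Pool.Agent.WPQ.TLD

/-! [WPQ-TL7] Full Q1 of MP_c42e9d_al, block TL: the set up of the contradiction. -/

namespace WPQ

open MvPolynomial AF

noncomputable section

section

variable {ι : Type} [Fintype ι] [DecidableEq ι] {A : Matrix ι ι ℤ} {p : ℕ}

/-- the vectors of weight `n` which are orthogonal to `P` -/
def tl7_Q (ε : Cocycle A p) (τ : Shift A p) (n : ℤ) (P : Submodule ℂ (VL ι)) (y : VL ι) : Prop :=
  y ∈ Wn A p n ∧ ∀ v ∈ P, beta ε τ y v = 0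

theorem tl7_Ej_charge (hA : IsADE A) (hp : 1 ≤ p) (ε : Cocycle A p) (j : ι) (ν : ι → ℤ) (x : VL ι)
    (hx : x ∈ Finsupp.supported (Fock ι) ℂ {ν}) :
    Ej ε (Shift.zero A p) j x ∈ Finsupp.supported (Fock ι) ℂ {rt j + ν} := by
  rw [va3_Ej hA hp]
  exact mode_charge hA hp ε (rt j) ν ((0 : ℕ) : ℤ) (Finsupp.single (rt j) 1) x
    (Finsupp.single_mem_supported ℂ _ (Set.mem_singleton _)) hx

theorem tl7_Q_Ej (hA : IsADE A) (hp : 2 ≤ p) (ε : Cocycle A p) (τ : Shift A p)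
    (hτ : τ.s = (2 : ℂ) • bg A p) (n : ℤ) (P : Submodule ℂ (VL ι))
    (hP : ∀ v ∈ P, ∀ j, Ej ε (Shift.zero A p) j v ∈ P) (y : VL ι) (hy : tl7_Q ε τ n P y) (j : ι) :
    tl7_Q ε τ n P (Ej ε (Shift.zero A p) j y) := by
  refine ⟨⟨W_Ej hA hp ε j y hy.1.1, Ej_Vn hA ε j n y hy.1.2⟩, fun v hv => ?_⟩
  rw [beta_Ej hA (by omega) ε τ hτ, hy.2 _ (hP v hv j), neg_zero]

theorem tl7_Q_comp (hA : IsADE A) (hp : 2 ≤ p) (ε : Cocycle A p) (τ : Shift A p)
    (hτ : τ.s = (2 : ℂ) • bg A p) (n : ℤ) (P : Submodule ℂ (VL ι))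
    (hP : ∀ v ∈ P, ∀ γ : ι → ℤ, Finsupp.single γ (v γ) ∈ P) (y : VL ι) (hy : tl7_Q ε τ n P y)
    (γ : ι → ℤ) : tl7_Q ε τ n P (Finsupp.single γ (y γ)) := by
  refine ⟨pv2_mem n y hy.1 γ, fun v hv => ?_⟩
  rw [beta_comp_right hA hp ε τ hτ γ _ _ (Finsupp.single_mem_supported ℂ _ (Set.mem_singleton _))]
  have h2 := beta_comp_left hA hp ε τ hτ (-γ) y (Finsupp.single (-γ) (v (-γ)))
    (Finsupp.single_mem_supported ℂ _ (Set.mem_singleton _))
  rw [neg_neg] at h2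
  rw [← h2]
  exact hy.2 _ (hP v hv (-γ))

theorem tl7_sum_rt (j : ι) (ν : ι → ℤ) : ∑ i, (rt j + ν) i = (∑ i, ν i) + 1 := by
  have h : ∑ i, (rt j : ι → ℤ) i = 1 := by
    unfold rt
    rw [Finset.sum_eq_single j]
    · rw [Pi.single_eq_same]
    · intro i _ hi
      exact Pi.single_eq_of_ne hi 1
    · intro h
      exact absurd (Finset.mem_univ j) h
  simp only [Pi.add_apply, Finset.sum_add_distrib, h]
  ring

/-- a vector of highest charge -/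
theorem tl7_top (hA : IsADE A) (hp : 2 ≤ p) (ε : Cocycle A p) (τ : Shift A p)
    (hτ : τ.s = (2 : ℂ) • bg A p) (n : ℤ) (P : Submodule ℂ (VL ι))
    (hP : ∀ v ∈ P, ∀ j, Ej ε (Shift.zero A p) j v ∈ P)
    (hP' : ∀ v ∈ P, ∀ γ : ι → ℤ, Finsupp.single γ (v γ) ∈ P) (y0 : VL ι) (hy0 : y0 ≠ 0)
    (hy : tl7_Q ε τ n P y0) :
    ∃ (y : VL ι) (ν : ι → ℤ), y ≠ 0 ∧ tl7_Q ε τ n P y ∧ y ∈ Finsupp.supported (Fock ι) ℂ {ν} ∧
      ∀ j, Ej ε (Shift.zero A p) j y = 0 := by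
  have hp1 : 1 ≤ p := by omega
  set X : Set (ι → ℤ) := {ν | ∃ y : VL ι, y ≠ 0 ∧ tl7_Q ε τ n P y ∧
    y ∈ Finsupp.supported (Fock ι) ℂ {ν}} with hX
  have hfin : X.Finite := by
    refine (wtExp_finite hA hp1 n).subset ?_
    rintro ν ⟨y, hy1, hy2, hy3⟩
    rcases Vn_comp n y hy2.1.2 ν with h | ⟨d, _, h⟩
    · exfalso
      apply hy1
      rw [va4_supp_single ν y hy3, h, Finsupp.single_zero]
    · show wtExp A p ν ≤ n
      omega
  have hne : X.Nonempty := by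
    obtain ⟨γ, hγ⟩ : ∃ γ, y0 γ ≠ 0 := by
      by_contra h
      push Not at h
      exact hy0 (Finsupp.ext h)
    exact ⟨γ, Finsupp.single γ (y0 γ), fun h => hγ (Finsupp.single_eq_zero.1 h),
      tl7_Q_comp hA hp ε τ hτ n P hP' y0 hy γ,
      Finsupp.single_mem_supported ℂ _ (Set.mem_singleton _)⟩
  obtain ⟨ν, ⟨y, h1, h2, h3⟩, hmax⟩ := hfin.exists_maximalFor (fun ν : ι → ℤ => ∑ i, ν i) X hne
  refine ⟨y, ν, h1, h2, h3, fun j => ?_⟩
  by_contra hj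
  have h4 : rt j + ν ∈ X := ⟨_, hj, tl7_Q_Ej hA hp ε τ hτ n P hP y h2 j,
    tl7_Ej_charge hA hp1 ε j ν y h3⟩
  have h5 := hmax h4
  simp only [tl7_sum_rt] at h5
  have h6 := h5 (by omega)
  omega

end

theorem tl7 (h1 : st_TL1) (h7a : st_TL7a) (h7b : st_TL7b) : st_TL7 := by
  intro ι _ _ A hA p hp w hcc hw hsq ε τ hτ d hd hgen hnd
  have hp1 : 1 ≤ p := by omega
  obtain ⟨t, ht1, ht2, ht3, hdesc⟩ := h7b ι A hA p hp w hcc hw hsq
  refine ⟨t, ht1, ht2, ht3, fun n hn => ?_⟩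
  set P : Submodule ℂ (VL ι) := pv4_Prim A p n ⊔ IIn A p n ⊔ Gen ε n with hP
  have hP1 : pv4_Prim A p n ≤ P := le_sup_of_le_left le_sup_left
  have hP2 : IIn A p n ≤ P := le_sup_of_le_left le_sup_right
  have hP3 : Gen ε n ≤ P := le_sup_right
  have hle : P ≤ Wn A p n := fun v hv => (h7a ι A hA p hp ε n v hv).1
  have hne : P ≠ Wn A p n := fun h => hn (le_of_eq h.symm)
  obtain ⟨y0, hyW0, hy00, hyP0⟩ := exists_left hA hp ε τ hτ n P hle hne
  obtain ⟨y, ν, hy0, ⟨hyW, hyP⟩, hsupp, hEj⟩ := tl7_top hA hp ε τ hτ n P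
    (fun v hv j => (h7a ι A hA p hp ε n v hv).2.1 j)
    (fun v hv γ => (h7a ι A hA p hp ε n v hv).2.2 γ) y0 hy00 ⟨hyW0, hyP0⟩
  have hyprim : y ∈ pv4_Prim A p n := by
    refine perp_prim hA hp ε τ hτ n y hyW (fun a ha => ?_) (fun b hb => ?_)
    · exact hyP _ (hP2 (Submodule.mem_sup_left ⟨a, ha, rfl⟩))
    · exact hyP _ (hP2 (Submodule.mem_sup_right ⟨b, hb, rfl⟩))
  have hyI := perp_I hA hp ε τ hτ (fun a b ha hb => beta_symm hA hp ε τ hτ a b ha hb) n y hyW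
    (fun v hv => hyP v (hP1 hv))
  obtain ⟨r, h, c, x, hr, hh, hhr, hhw, hnr, hc, hx, hyx⟩ := hdesc n y hyprim hyI hy0
  have hyx' : y = SV.SS (LS (Shift.zero A p)) c (Finsupp.single ν (x ν)) := by
    have h5 := as1_SS (LS (Shift.zero A p)) (as1_comp ν)
      (fun k v => by rw [as1_comp_apply, as1_comp_apply, LS_comp]) c x
    rw [as1_comp_apply, as1_comp_apply, ← hyx] at h5
    rw [← h5]
    exact va4_supp_single ν y hsupp
  have hx0 : (Finsupp.single ν (x ν) : VL ι) ≠ 0 := by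
    intro h0
    apply hy0
    rw [hyx', h0, as1_SS_zero]
  have hxp := as1_prim_comp _ x hx ν
  have hxs : (Finsupp.single ν (x ν) : VL ι) ∈ Finsupp.supported (Fock ι) ℂ {ν} :=
    Finsupp.single_mem_supported ℂ _ (Set.mem_singleton _)
  have hwt : wtExp A p (-ν) ≤ h := by
    have hxW : (Finsupp.single ν (x ν) : VL ι) ∈ Wn A p h := ((pv4_mem _ _).1 hxp).1
    by_contra hlt
    apply hx0
    refine beta_left hA hp ε τ hτ h _ hxW fun v hv => ?_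
    rw [beta_comp_right hA hp ε τ hτ ν _ _ hxs]
    have h7 : v (-ν) = 0 := by
      rcases Vn_comp (h : ℤ) v hv.2 (-ν) with h8 | ⟨k, _, h8⟩
      · exact h8
      · exfalso
        omega
    rw [h7, Finsupp.single_zero]
    exact map_zero (du1_B ε τ (Finsupp.single ν (x ν)))
  have hν : ν ≠ 0 := by
    rintro rfl
    have hyk : y ∈ Wk ε := by
      refine ⟨hyW.1, fun γ hγ => va4_supp 0 y hsupp γ hγ, fun j => ?_⟩
      have h7 := hEj j
      unfold Ej at h7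
      rw [expS_zero] at h7
      exact h7
    have hdn : d < n := by
      have h7 : (2 : ℚ) ≤ r := by exact_mod_cast hr
      have h8 : (4 : ℚ) ≤ (r : ℚ) ^ 2 := by nlinarith
      have h9 : 3 * w / 4 ≤ (h : ℚ) := by
        rw [hhw]
        nlinarith
      have h10 : (n : ℚ) = (h : ℚ) + (r : ℚ) ^ 2 := by
        rw [hnr]
        push_cast
        ring
      have h11 : (d : ℚ) < (n : ℚ) := by linarith
      exact_mod_cast h11
    refine hy0 (hnd n y hyk hyW.2 fun v hv hvn => ?_)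
    have h7 := hgen n hdn ⟨hv, hvn⟩
    obtain ⟨g, hg, u, hu, rfl⟩ := Submodule.mem_sup.1 h7
    have h8 := hyP g (hP3 hg)
    have h9 := hyP u (hP2 (Submodule.mem_sup_left hu))
    have h10 := map_add (du1_B ε τ y) g u
    have h11 : beta ε τ y (g + u) = beta ε τ y g + beta ε τ y u := h10
    rw [h11, h8, h9, add_zero]
  exact ⟨r, h, c, Finsupp.single ν (x ν), y, ν, hr, hh, hhr, hhw, hnr, hc, hxp, hyx', hx0, hy0,
    ⟨hyW, fun v hv => hyP v (hP3 hv),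
      fun v hv => hyP _ (hP2 (Submodule.mem_sup_left ⟨v, hv, rfl⟩))⟩,
    hν, (h1 ι A hA p hp ε τ hτ n y ν hyW hy0 hsupp hEj).1, hwt, hxs, hsupp, hEj⟩

end

end WPQ
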