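import Pool.Agent.WPQ.TLD

/-! [WPQ-TL7b] Full Q1 of MP_c42e9d_al, block TL.

Plan.  `t`: copy the proof of `nt_t` (NT5.lean): it uses only `0 < w` and `¬ IsSquare (w (w+4))` (`nt_R3` there has the form
needed; adapt), `w` in place of `wA l p`, and `cc A p = 1 - 6 w` in place of the computation of `cc`.  The description: copy `as_desc`
(AS0.lean), which uses only `hA`, `hp`, `Irr t`, `cc`, `hdiag`.  `(h : ℚ) = (r^2-1) w / 4` from `(h : ℂ) = KV.hrs t r r` and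
`(t-1)^2/t = w` (unfold `hrs`, `field_simp`, `exact_mod_cast`). -/

namespace WPQ

open MvPolynomial AF

noncomputable section

theorem tl7b_t (w : ℚ) (hw0 : 0 < w) (hR : ¬ IsSquare (w * (w + 4))) : ∃ t : ℂ, t ≠ 0 ∧ KV.Irr t ∧
    (t - 1) ^ 2 / t = ((w : ℚ) : ℂ) ∧
    ∀ h r s : ℕ, 1 ≤ r → 1 ≤ s → (h : ℂ) = KV.hrs t r s → r = s := by
  have hwR : (0 : ℝ) < (w : ℝ) := by exact_mod_cast hw0
  -- real root
  set d : ℝ := Real.sqrt ((w : ℝ) * (w + 4)) with hd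
  have hd2 : d ^ 2 = (w : ℝ) * (w + 4) := Real.sq_sqrt (by positivity)
  set T : ℝ := ((w : ℝ) + 2 + d) / 2 with hT
  have hTq : T ^ 2 - ((w : ℝ) + 2) * T + 1 = 0 := by
    rw [hT]
    nlinarith [hd2]
  have hTpos : 0 < T := by
    have : 0 ≤ d := Real.sqrt_nonneg _
    rw [hT]
    linarith
  have hT0 : T ≠ 0 := hTpos.ne'
  have hTirr : ∀ a b : ℤ, (a : ℝ) = T * b → a = 0 ∧ b = 0 := by
    intro a b hab
    have hb : b = 0 := by
      by_contra hb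
      apply hR
      have hbR : (b : ℝ) ≠ 0 := by exact_mod_cast hb
      have hTab : T = (((a : ℚ) / b : ℚ) : ℝ) := by
        push_cast
        rw [eq_div_iff hbR]
        exact hab.symm
      have hdq : d = ((2 * ((a : ℚ) / b) - (w + 2) : ℚ) : ℝ) := by
        have h1 : d = 2 * T - (w + 2) := by rw [hT]; ring
        rw [h1, hTab]
        push_cast
        ring
      refine ⟨2 * ((a : ℚ) / b) - (w + 2), ?_⟩
      have h2 := hd2
      rw [hdq] at h2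
      have h3 : (2 * ((a : ℚ) / b) - (w + 2)) ^ 2 = w * (w + 4) := by exact_mod_cast h2
      rw [← h3]
      ring
    refine ⟨?_, hb⟩
    rw [hb] at hab
    simp at hab
    exact hab
  have hTC : (T : ℂ) ≠ 0 := by exact_mod_cast hT0
  have hTqC : (T : ℂ) ^ 2 - ((w : ℂ) + 2) * T + 1 = 0 := by
    have := congrArg (fun x : ℝ => (x : ℂ)) hTq
    push_cast at this
    exact this
  have hwt : ((T : ℂ) - 1) ^ 2 / T = (w : ℂ) := by
    rw [div_eq_iff hTC]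
    linear_combination hTqC
  have hirrC : KV.Irr (T : ℂ) := by
    intro a b hab
    apply hTirr a b
    exact_mod_cast hab
  refine ⟨(T : ℂ), hTC, hirrC, hwt, ?_⟩
  intro h r s hr hs hh
  by_contra hne
  unfold KV.hrs at hh
  have h1 : (4 * (h : ℂ)) * T = ((s : ℂ) ^ 2 - 1) * T ^ 2 + ((r : ℂ) ^ 2 - 1) -
      2 * ((r : ℂ) * s - 1) * T := by
    rw [hh]
    field_simp
  -- substitute `T ^ 2 = (w + 2) T - 1`
  have h2 : (((r : ℂ) ^ 2 - (s : ℂ) ^ 2)) = (4 * (h : ℂ) - ((s : ℂ) ^ 2 - 1) * (w + 2) +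
      2 * ((r : ℂ) * s - 1)) * T := by
    linear_combination (-1 : ℂ) * h1 - ((s : ℂ) ^ 2 - 1) * hTqC
  have h3 : w = (w.num : ℚ) / w.den := (Rat.num_div_den w).symm
  have hden : (w.den : ℂ) ≠ 0 := by exact_mod_cast w.den_ne_zero
  have h3C : (w : ℂ) = (w.num : ℂ) / w.den := by exact_mod_cast congrArg (fun x : ℚ => (x : ℂ)) h3
  have h4 : (((((r : ℤ) ^ 2 - (s : ℤ) ^ 2) * w.den : ℤ)) : ℂ) = T *
      (((4 * (h : ℤ) * w.den - ((s : ℤ) ^ 2 - 1) * (w.num + 2 * w.den) +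
      2 * ((r : ℤ) * s - 1) * w.den : ℤ)) : ℂ) := by
    push_cast
    rw [h2, h3C]
    field_simp
  have h5 := (hirrC _ _ h4).1
  have h6 : ((r : ℤ) ^ 2 - (s : ℤ) ^ 2) = 0 := by
    rcases mul_eq_zero.mp h5 with h | h
    · exact h
    · exact absurd (by exact_mod_cast h) w.den_ne_zero
  have h7 : (r : ℤ) ^ 2 = (s : ℤ) ^ 2 := by linarith
  have h8 : (r : ℤ) = s := by
    rcases sq_eq_sq_iff_eq_or_eq_neg.mp h7 with h | h
    · exact h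
    · omega
  exact hne (by exact_mod_cast h8)

theorem tl7b_h (w : ℚ) (t : ℂ) (ht : t ≠ 0) (hwt : (t - 1) ^ 2 / t = ((w : ℚ) : ℂ)) (h r : ℕ)
    (hh : (h : ℂ) = KV.hrs t r r) : (h : ℚ) = ((r : ℚ) ^ 2 - 1) * w / 4 := by
  have h1 : (h : ℂ) = ((r : ℂ) ^ 2 - 1) * (w : ℂ) / 4 := by
    rw [hh, ← hwt]
    unfold KV.hrs
    field_simp
    ring
  have h2 : ((h : ℚ) : ℂ) = (((((r : ℚ) ^ 2 - 1) * w / 4 : ℚ)) : ℂ) := by
    push_cast
    exact h1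
  exact_mod_cast h2

theorem tl7b_desc {ι : Type} [Fintype ι] [DecidableEq ι] {A : Matrix ι ι ℤ} (hA : IsADE A)
    {p : ℕ} (hp : 2 ≤ p) (t : ℂ) (hirr : KV.Irr t) (hcc : WPQ.cc A p = KV.cc t)
    (hdiag : ∀ h r s : ℕ, 1 ≤ r → 1 ≤ s → (h : ℂ) = KV.hrs t r s → r = s) (n : ℤ)
    (y : VL ι) (hy : y ∈ pv4_Prim A p n)
    (hI : ∃ a ∈ Wn A p (n - 1), ∃ b ∈ Wn A p (n - 2),
      y = LS (Shift.zero A p) (-1) a + LS (Shift.zero A p) (-2) b)
    (hne : y ≠ 0) :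
    ∃ (r h : ℕ) (c : Nat.Partition (r * r) → ℂ) (x : VL ι), 2 ≤ r ∧ 1 ≤ h ∧
      (h : ℂ) = KV.hrs t r r ∧ n = (h : ℤ) + r * r ∧ SV.IsS t r r (r * r) c ∧
      x ∈ pv4_Prim A p h ∧ y = SV.SS (LS (Shift.zero A p)) c x := by
  have hp1 : 1 ≤ p := by omega
  have hL : KV.IsVir (KV.cc t) (LS (Shift.zero A p)) := by
    intro m n
    rw [LS_comm hA hp1 m n, hcc]
  have hdeg : ∀ k n : ℤ, ∀ v ∈ Wn A p n,
      LS (Shift.zero A p) k v ∈ Wn A p (n - k) :=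
    fun k n v hv => ⟨W_LS hA hp1 k v hv.1, LS_Vn k n v hv.2⟩
  have hL0 : ∀ n : ℤ, ∀ v ∈ Wn A p n,
      LS (Shift.zero A p) 0 v = (n : ℂ) • v :=
    fun n v hv => LS_zero_Vn hA hp1 n v hv.2
  rw [pv4_mem] at hy
  obtain ⟨r, h, c, x, h1, h2, h3, h4, h5, h6, h7, h8, h9⟩ :=
    SV.prim_desc' hirr (LS (Shift.zero A p)) hL (Wn A p) hdeg hL0
      (fun m hm => Wn_neg hA hp m hm) vac (fun v hv => Wn_zero hA hp v hv)
      (LS_vac (-1) le_rfl)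
      (fun m hm v hv => Wn_decomp hA hp m
        (fun x hx hx1 hx2 y hy z hz hxyz => hm x hx hx1 hx2 ⟨y, hy, z, hz, hxyz⟩) v hv)
      hdiag n y hy.1 hy.2.1 hy.2.2 hI hne
  exact ⟨r, h, c, x, h1, h2, h3, h4, h5, (pv4_mem _ _).2 ⟨h6, h7, h8⟩, h9⟩

theorem tl7b : st_TL7b := by
  intro ι _ _ A hA p hp w hcc hw hsq
  obtain ⟨t, ht0, hirr, hwt, hdiag⟩ := tl7b_t w hw hsq
  have hcc' : WPQ.cc A p = KV.cc t := by
    rw [hcc]
    unfold KV.cc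
    have h7 : 1 - 6 * (t - 1) ^ 2 / t = 1 - 6 * (w : ℂ) := by
      rw [← hwt]
      ring
    rw [h7]
    push_cast
    ring
  refine ⟨t, hirr, hcc', hwt, ?_⟩
  intro n y hy hI hne
  obtain ⟨r, h, c, x, h1, h2, h3, h4, h5, h6, h7⟩ :=
    tl7b_desc hA hp t hirr hcc' hdiag n y hy hI hne
  exact ⟨r, h, c, x, h1, h2, h3, tl7b_h w t ht0 hwt h r h3, h4, h5, h6, h7⟩

end

end WPQ
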