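import Pool.Agent.WPQ.TLD

/-! [WPQ-TL8] Full Q1 of MP_c42e9d_al, block TL.

Plan (TL8 of W_DE_2.md).  `omegaV_mem`.  Copy `mainC` (AS2.lean) / `mainB` (PV4.lean) with the finite set `S` = union of finite spanning sets of
`pv4_Prim n`, `0 ≤ n ≤ N0`, `N0 = C1 p²`; `X = span {monomials in T}`; strong induction `Wn n ≤ X`.  Case `n > N0`: verbatim.
Case `1 ≤ n ≤ N0` (n = 0: `Wn_zero`): inner claim, strong induction on `m` (`1 ≤ m < n`): for `u ∈ Wn m`, `s ≤ -1`,
`w ∈ Wn (n - m + s + 1)`: `mode u s w ∈ X`.  By hypothesis `u ∈ Prim m ⊔ IIn m ⊔ Gen m`: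
`u ∈ Prim m`: `fi2_step` (`hSmem`), `w ∈ X` by the outer induction (weight `< n`).
`u = LS (-1) a`: `mode_transl`: `(-s) mode a (s-1) w`, inner induction (`m = 1`: `a ∈ Wn 0`, `transl vac = 0`).
`u = LS (-2) b = mode omega (-1) b` (`mode_omega`): `mode_nop`: `∑ mode omega (-1-i) (mode b (s+i) w) + ∑ mode b (s-1-i) (mode omega i w)`:
first sum: `LS (-2-i)` of a vector of weight `< n`: `pv4_LS` (or `pv4_transl`), second: inner induction (`m - 2 ≥ 1`), and if `m = 2`:
`b = a vac`, modes `≤ -2` of `vac` vanish (`mode_vac`).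
`u = mode u1 s1 w1 ∈ Gen m` (weights `m1, j1 ≥ 1`): `mode u1 s1 = const • mode (transl^a u1) (-1)`, `a = -1 - s1` (`mode_transl` iterated), and
`mode_nop` for `(transl^a u1, w1)`: terms `mode (transl^a u1) (-1-i) (mode w1 (s+i) w)` = multiples of `mode u1 (s1-i) (..)`: inner induction
for `m1`; terms `mode w1 (s-1-i) (mode (transl^a u1) i w)`: inner induction for `j1` (all modes `≤ -2 ≤ -1`).
Then `Wn n ≤ Prim ⊔ IIn ⊔ Gen ≤ X`: `Gen n` by the claim (weights `1 ≤ m`, `j ≥ 1` so `m < n`). -/

namespace WPQ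

open MvPolynomial AF

noncomputable section

section aux

variable {ι : Type} [Fintype ι] [DecidableEq ι] {A : Matrix ι ι ℤ} {p : ℕ}

theorem tl8_mode_zero (hA : IsADE A) (hp : 1 ≤ p) (ε : Cocycle A p) (n : ℤ) :
    mode ε (0 : VL ι) n = 0 := by
  have h := mode_smul hA hp ε 0 (0 : VL ι) n
  rw [zero_smul, zero_smul] at h
  exact h

theorem tl8_transl_pow (hA : IsADE A) (hp : 1 ≤ p) (ε : Cocycle A p) (u : VL ι) (a : ℕ) :
    ∀ n : ℤ, ∃ c : ℂ, mode ε (((transl : VL ι →ₗ[ℂ] VL ι) ^ a) u) n = c • mode ε u (n - a) := by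
  induction a with
  | zero =>
    intro n
    refine ⟨1, ?_⟩
    rw [pow_zero, Module.End.one_apply, one_smul]
    simp
  | succ a ih =>
    intro n
    obtain ⟨c, hc⟩ := ih (n - 1)
    refine ⟨(-n : ℂ) * c, ?_⟩
    rw [pow_succ', Module.End.mul_apply, mode_transl hA hp, hc, smul_smul]
    congr 2
    push_cast
    ring

theorem tl8_transl_neg_one (hA : IsADE A) (hp : 1 ≤ p) (ε : Cocycle A p) (u : VL ι) (a : ℕ) :
    ∀ b : ℕ, ∃ c : ℂ, c ≠ 0 ∧
      mode ε (((transl : VL ι →ₗ[ℂ] VL ι) ^ a) u) (-1 - (b : ℤ)) =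
        c • mode ε u (-1 - (b : ℤ) - a) := by
  induction a with
  | zero =>
    intro b
    refine ⟨1, one_ne_zero, ?_⟩
    rw [pow_zero, Module.End.one_apply, one_smul]
    simp
  | succ a ih =>
    intro b
    obtain ⟨c, hc0, hc⟩ := ih (b + 1)
    refine ⟨((b : ℂ) + 1) * c, mul_ne_zero ?_ hc0, ?_⟩
    · exact_mod_cast Nat.succ_ne_zero b
    rw [pow_succ', Module.End.mul_apply, mode_transl hA hp]
    have e : (-1 - (b : ℤ) - 1) = -1 - ((b + 1 : ℕ) : ℤ) := by push_cast; ring
    rw [e, hc, smul_smul]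
    have e2 : (-1 - ((b + 1 : ℕ) : ℤ) - (a : ℤ)) = -1 - (b : ℤ) - ((a + 1 : ℕ) : ℤ) := by
      push_cast; ring
    rw [e2]
    congr 1
    push_cast
    ring

theorem tl8_transl_Wn (hA : IsADE A) (hp : 1 ≤ p) (a : ℕ) (m : ℤ) (u : VL ι)
    (hu : u ∈ Wn A p m) : ((transl : VL ι →ₗ[ℂ] VL ι) ^ a) u ∈ Wn A p (m + a) := by
  induction a with
  | zero => simpa using hu
  | succ a ih =>
    rw [pow_succ', Module.End.mul_apply]
    have h := en1_LS_Wn hA hp (-1) (m + a) _ ih
    have e : (m + (a : ℤ) - (-1)) = m + ((a + 1 : ℕ) : ℤ) := by push_cast; ring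
    rw [e, LS_zero_neg_one] at h
    exact h

/-- `u ↦ u_(s) w` as a linear map -/
def tl8_ev (hA : IsADE A) (hp : 1 ≤ p) (ε : Cocycle A p) (s : ℤ) (w : VL ι) :
    VL ι →ₗ[ℂ] VL ι where
  toFun u := mode ε u s w
  map_add' a b := by rw [mode_add hA hp, LinearMap.add_apply]
  map_smul' c a := by rw [mode_smul hA hp, LinearMap.smul_apply]; rfl

theorem tl8_mem (hA : IsADE A) (hp : 1 ≤ p) (ε : Cocycle A p) (s : ℤ) (w u : VL ι)
    (X : Submodule ℂ (VL ι)) (h : mode ε u s w ∈ X) : u ∈ X.comap (tl8_ev hA hp ε s w) := h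

theorem tl8_mem' (hA : IsADE A) (hp : 1 ≤ p) (ε : Cocycle A p) (s : ℤ) (w u : VL ι)
    (X : Submodule ℂ (VL ι)) (h : u ∈ X.comap (tl8_ev hA hp ε s w)) : mode ε u s w ∈ X := h

/-- The inner claim. -/
theorem tl8_inner (hA : IsADE A) (hp : 2 ≤ p) (ε : Cocycle A p)
    (hyp : ∀ n : ℤ, 1 ≤ n → Wn A p n ≤ pv4_Prim A p n ⊔ IIn A p n ⊔ Gen ε n)
    (N0 : ℤ) (S T : Set (VL ι)) (hST : S ⊆ T) (hωT : omegaV A p ∈ T)
    (hSmem : ∀ n, 0 ≤ n → n ≤ N0 → ∀ u ∈ pv4_Prim A p n, u ∈ Submodule.span ℂ S)
    (n : ℤ) (hnN : n ≤ N0)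
    (hout : ∀ n' : ℤ, n' < n → Wn A p n' ≤ Submodule.span ℂ {w | Monomial ε T w}) :
    ∀ k : ℕ, ∀ m : ℤ, 1 ≤ m → m < n → m < k → ∀ (j s : ℤ) (u w : VL ι), s ≤ -1 →
      m + j - s - 1 = n → u ∈ Wn A p m → w ∈ Wn A p j →
      mode ε u s w ∈ Submodule.span ℂ {w | Monomial ε T w} := by
  have hp1 : 1 ≤ p := by omega
  intro k
  induction k with
  | zero => intro m h1 _ h2; exfalso; simp at h2; omega
  | succ k ih =>
    intro m hm1 hmn hmk j s u w hs hn hu hw
    have hwX : w ∈ Submodule.span ℂ {w | Monomial ε T w} := hout j (by omega) hw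
    -- the linear functional condition
    have hle : Wn A p m ≤ (Submodule.span ℂ {w | Monomial ε T w}).comap
        (tl8_ev hA hp1 ε s w) := by
      refine (hyp m hm1).trans (sup_le (sup_le ?_ ?_) ?_)
      · intro x hx
        refine tl8_mem hA hp1 ε s w x _ ?_
        have hxS := hSmem m (by omega) (by omega) x hx
        obtain ⟨i, hi⟩ : ∃ i : ℕ, s = -(i : ℤ) := ⟨(-s).toNat, by omega⟩
        rw [hi]
        exact fi2_step hA hp1 ε S T hST x hxS i (by omega) w hwX
      · unfold IIn
        refine sup_le ?_ ?_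
        · rw [Submodule.map_le_iff_le_comap]
          intro a ha
          rw [Submodule.mem_comap]
          refine tl8_mem hA hp1 ε s w (LS (Shift.zero A p) (-1) a) _ ?_
          rw [LS_zero_neg_one]
          by_cases hm : m = 1
          · have ha0 : a ∈ Wn A p 0 := by
              have e : m - 1 = 0 := by omega
              rw [e] at ha
              exact ha
            obtain ⟨c, rfl⟩ := Wn_zero hA hp a ha0
            rw [map_smul, transl_vac, smul_zero, tl8_mode_zero hA hp1, LinearMap.zero_apply]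
            exact Submodule.zero_mem _
          · rw [mode_transl hA hp1, LinearMap.smul_apply]
            refine Submodule.smul_mem _ _ ?_
            exact ih (m - 1) (by omega) (by omega) (by push_cast at hmk; omega) j (s - 1) a w
              (by omega) (by omega) ha hw
        · rw [Submodule.map_le_iff_le_comap]
          intro b hb
          rw [Submodule.mem_comap]
          refine tl8_mem hA hp1 ε s w (LS (Shift.zero A p) (-2) b) _ ?_
          have e1 : LS (Shift.zero A p) (-2) b = mode ε (omega A p) (-1) b := by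
            rw [mode_omega hA hp1]
            norm_num
          rw [e1]
          obtain ⟨M0, hM⟩ := mode_nop hA hp1 ε (omega A p) b s w
          rw [hM M0 le_rfl]
          refine Submodule.sum_mem _ fun i _ => Submodule.add_mem _ ?_ ?_
          · have hv : mode ε b (s + i) w ∈ Wn A p (n - 2 - i) := by
              have h := mode_Wn hA hp ε (m - 2) j (s + i) b w hb hw
              have e : m - 2 + j - (s + (i : ℤ)) - 1 = n - 2 - i := by omega
              rw [e] at h
              exact h
            have hvX := hout _ (by omega) hv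
            have h2 := pv4_LS hA hp1 ε T hωT (i + 2) (by omega) _ hvX
            rw [mode_omega hA hp1]
            have e : -1 - (i : ℤ) - 1 = -((i + 2 : ℕ) : ℤ) := by push_cast; ring
            rw [e]
            exact h2
          · have hv : mode ε (omega A p) i w ∈ Wn A p (j - ((i : ℤ) - 1)) := by
              rw [mode_omega hA hp1]
              exact en1_LS_Wn hA hp1 _ _ w hw
            by_cases hm3 : 3 ≤ m
            · exact ih (m - 2) (by omega) (by omega) (by push_cast at hmk; omega)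
                (j - ((i : ℤ) - 1)) (s - 1 - i) b _ (by omega) (by omega) hb hv
            · by_cases hm2 : m = 2
              · have hb0 : b ∈ Wn A p 0 := by
                  have e : m - 2 = 0 := by omega
                  rw [e] at hb
                  exact hb
                obtain ⟨c, rfl⟩ := Wn_zero hA hp b hb0
                rw [mode_smul hA hp1, mode_vac hA hp1, if_neg (by omega), smul_zero,
                  LinearMap.zero_apply]
                exact Submodule.zero_mem _
              · have hb0 : b = 0 := by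
                  have h := hb
                  rw [Wn_neg hA hp (m - 2) (by omega), Submodule.mem_bot] at h
                  exact h
                rw [hb0, tl8_mode_zero hA hp1, LinearMap.zero_apply]
                exact Submodule.zero_mem _
      · unfold Gen
        rw [Submodule.span_le]
        rintro v ⟨m1, j1, s1, u1, w1, hm1', hj1, hs1, hsum, hu1, hw1, rfl⟩
        refine tl8_mem hA hp1 ε s w (mode ε u1 s1 w1) _ ?_
        obtain ⟨a, ha⟩ : ∃ a : ℕ, s1 = -1 - (a : ℤ) := ⟨(-1 - s1).toNat, by omega⟩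
        obtain ⟨c, hc0, hc⟩ := tl8_transl_neg_one hA hp1 ε u1 a 0
        have hc' : mode ε (((transl : VL ι →ₗ[ℂ] VL ι) ^ a) u1) (-1) = c • mode ε u1 s1 := by
          have e : (-1 : ℤ) - ((0 : ℕ) : ℤ) = -1 := by norm_num
          rw [e] at hc
          rw [hc, ha]
        have e1 : mode ε u1 s1 w1 =
            c⁻¹ • mode ε (((transl : VL ι →ₗ[ℂ] VL ι) ^ a) u1) (-1) w1 := by
          rw [hc', LinearMap.smul_apply, smul_smul, inv_mul_cancel₀ hc0, one_smul]
        rw [e1, mode_smul hA hp1, LinearMap.smul_apply]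
        refine Submodule.smul_mem _ _ ?_
        obtain ⟨M0, hM⟩ := mode_nop hA hp1 ε (((transl : VL ι →ₗ[ℂ] VL ι) ^ a) u1) w1 s w
        rw [hM M0 le_rfl]
        refine Submodule.sum_mem _ fun i _ => Submodule.add_mem _ ?_ ?_
        · obtain ⟨c2, hc2⟩ := tl8_transl_pow hA hp1 ε u1 a (-1 - (i : ℤ))
          rw [hc2, LinearMap.smul_apply]
          refine Submodule.smul_mem _ _ ?_
          have hv := mode_Wn hA hp ε j1 j (s + i) w1 w hw1 hw
          exact ih m1 hm1' (by omega) (by push_cast at hmk; omega) _ _ u1 _ (by omega)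
            (by omega) hu1 hv
        · have hv := mode_Wn hA hp ε (m1 + a) j i _ w (tl8_transl_Wn hA hp1 a m1 u1 hu1) hw
          exact ih j1 hj1 (by omega) (by push_cast at hmk; omega) _ _ w1 _ (by omega)
            (by omega) hw1 hv
    exact tl8_mem' hA hp1 ε s w u _ (hle hu)

end aux

theorem tl8 : st_TL8 := by
  intro ι _ _ A hA p hp hyp
  classical
  have hp1 : 1 ≤ p := by omega
  obtain ⟨D, lam, hD, hlam⟩ := exists_lam hA
  have hdom : ∀ i, Dom A (lam i) := by
    intro i j
    rw [hlam]
    split_ifs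
    · exact hD.le
    · exact le_rfl
  have hne : ∀ i, lam i ≠ 0 := by
    intro i h
    have h1 := hlam i i
    rw [h, if_pos rfl] at h1
    simp [pr] at h1
    omega
  obtain ⟨C1, hC1, himg0⟩ := img_eq_eff A hA lam D hD hlam
  refine ⟨omegaV_mem hA hp, fun ε => ?_⟩
  obtain ⟨hNΔ, himg⟩ := himg0 p hp ε
  set N0 : ℤ := (C1 : ℤ) * (p : ℤ) ^ 2 with hN0
  choose B hB using fun n : ℤ => pv4_fin (A := A) (p := p) hA hp1 n
  set S : Finset (VL ι) := (Finset.Icc 0 N0).biUnion B with hS
  have hSmem : ∀ n, 0 ≤ n → n ≤ N0 → ∀ u ∈ pv4_Prim A p n,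
      u ∈ Submodule.span ℂ (S : Set (VL ι)) := by
    intro n h1 h2 u hu
    rw [← hB n] at hu
    refine Submodule.span_mono ?_ hu
    intro x hx
    exact Finset.mem_coe.2 (Finset.mem_biUnion.2 ⟨n, Finset.mem_Icc.2 ⟨h1, h2⟩, hx⟩)
  have hvW : (vac : VL ι) ∈ W A p := vac_mem_W hA hp1
  have hv0 : (vac : VL ι) ∈ Vn A p 0 := fi2_vac
  refine ⟨S, ?_, ?_⟩
  · intro u hu
    obtain ⟨n, _, hun⟩ := Finset.mem_biUnion.1 hu
    have hu' : u ∈ pv4_Prim A p n := by
      rw [← hB n]
      exact Submodule.subset_span hun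
    rw [pv4_mem] at hu'
    exact ⟨hu'.1.1, ⟨n, isHomog_of_mem n u hu'.1.2⟩, (isPrimary_iff hA hp1 ε u).2 hu'.2⟩
  intro T hωT hST hTW
  unfold StronglyGenerates
  refine le_antisymm ?_ ?_
  · rw [Submodule.span_le]
    intro w hw
    induction hw with
    | one => exact hvW
    | step u hu j hj w hw ih => exact W_closed hA hp ε u w (hTW hu) ih _
  -- the other inclusion
  set X : Submodule ℂ (VL ι) := Submodule.span ℂ {w | Monomial ε T w} with hX
  have hvX : (vac : VL ι) ∈ X := Submodule.subset_span Monomial.one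
  have key : ∀ k : ℕ, ∀ n : ℤ, n < k → Wn A p n ≤ X := by
    intro k
    induction k with
    | zero =>
      intro n hn
      rw [Wn_neg hA hp n (by simpa using hn)]
      exact bot_le
    | succ k ih =>
      intro n hn
      by_cases hlt : n < 0
      · rw [Wn_neg hA hp n hlt]
        exact bot_le
      push Not at hlt
      by_cases hn0 : n = 0
      · intro v hv
        rw [hn0] at hv
        obtain ⟨a, rfl⟩ := Wn_zero hA hp v hv
        exact Submodule.smul_mem _ _ hvX
      by_cases hnN : n ≤ N0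
      · have hinner := tl8_inner hA hp ε (hyp ε) N0 (S : Set (VL ι)) T hST hωT hSmem n hnN
          (fun n' hn' => ih n' (by push_cast at hn; omega))
        refine (hyp ε n (by omega)).trans (sup_le (sup_le ?_ ?_) ?_)
        · intro x hx
          have hxS := hSmem n hlt hnN x hx
          have h3 := fi2_step hA hp1 ε (S : Set (VL ι)) T hST x hxS 1 le_rfl vac hvX
          rw [Nat.cast_one, mode_neg_one_vac hA hp1] at h3
          exact h3
        · unfold IIn
          refine sup_le ?_ ?_
          · rw [Submodule.map_le_iff_le_comap]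
            intro y hy
            exact pv4_transl hA hp1 ε T y (ih (n - 1) (by push_cast at hn; omega) hy)
          · rw [Submodule.map_le_iff_le_comap]
            intro z hz
            exact pv4_LS hA hp1 ε T hωT 2 le_rfl z (ih (n - 2) (by push_cast at hn; omega) hz)
        · unfold Gen
          rw [Submodule.span_le]
          rintro v ⟨m, j, s, u, w, hm, hj, hs, hsum, hu, hw, rfl⟩
          exact hinner (m + 1).toNat m hm (by omega) (by omega) j s u w hs hsum hu hw
      · push Not at hnN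
        rw [← himg n hnN]
        unfold Img
        rw [Submodule.span_le]
        rintro x (⟨i, js, s, w, hs, hw, rfl⟩ | ⟨j, w, hj, hw, rfl⟩)
        · have hΔ : 1 ≤ wtExp A p (-lam i) := wtExp_pos hA hp1 (lam i) (hdom i) (hne i)
          have hwX : w ∈ X := by
            refine ih _ ?_ hw
            push_cast at hn
            omega
          have hu : Ew ε (Shift.zero A p) js (Finsupp.single (-lam i) 1) ∈
              Wn A p (wtExp A p (-lam i)) := by
            rw [← cS_creation]
            refine ⟨cS_mem_W hA hp ε (lam i) (hdom i) js (-1) vac hvW, ?_⟩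
            have h1 := cS_Vn hA ε (lam i) js (-1) 0 vac hv0
            have e : 0 + wtExp A p (-lam i) - (-1) - 1 = wtExp A p (-lam i) := by ring
            rw [e] at h1
            exact h1
          have h1 := hSmem _ (by omega) (hNΔ i) _ ((pv4_mem _ _).2 ⟨hu,
            pv4_Ew hA hp1 ε (lam i) js 1 one_pos, pv4_Ew hA hp1 ε (lam i) js 2 two_pos⟩)
          have h2 := fi2_step hA hp1 ε (S : Set (VL ι)) T hST _ h1 s hs w hwX
          rw [mode_cS hA hp1] at h2
          exact h2
        · have hwX : w ∈ X := by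
            refine ih _ ?_ hw
            push_cast at hn
            omega
          exact pv4_LS hA hp1 ε T hωT j hj w hwX
  refine W_span X ?_
  intro γ f d hf hW
  have hmem : Finsupp.single γ f ∈ Wn A p ((d : ℤ) + wtExp A p γ) :=
    ⟨hW, single_mem_Vn γ f d hf _ rfl⟩
  refine key ((d : ℤ) + wtExp A p γ + 1).toNat _ ?_ hmem
  omega

end

end WPQ
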