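import Mathlib

/-!
# Type D: the halving lemma (MP_c42e9d_al, W_D_paper D6)
-/

set_option autoImplicit false

namespace WPQ

open Finset

/-- Dominant vectors of type D in orthonormal coordinates: `v 0 ≥ v 1 ≥ ... ≥ |v (l-1)|`. -/
def DmD {l : ℕ} (v : Fin l → ℤ) : Prop := ∀ i j : Fin l, i < j → |v j| ≤ v i

/-- Splitting of a dominant vector by two monotone functions. -/
private theorem dn1_split {l : ℕ} (v : Fin l → ℤ) (hv : DmD v) (f : ℕ → ℕ)
    (hf : Monotone f) (hg : Monotone fun n => n - f n) (hle : ∀ n, f n ≤ n)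
    (h4 : ∀ n : ℕ, (n : ℤ) ^ 2 - 4 ≤ 4 * ((f n : ℤ) * ((n : ℤ) - f n)))
    (he : Even (∑ i, v i)) (hs : Even (∑ i, f (v i).natAbs)) :
    ∃ a b : Fin l → ℤ, DmD a ∧ DmD b ∧ Even (∑ i, a i) ∧ Even (∑ i, b i) ∧ v = a + b ∧
      ∑ i, v i ^ 2 - 4 * l ≤ 4 * ∑ i, a i * b i := by
  have hf0 : f 0 = 0 := Nat.le_zero.1 (hle 0)
  -- a general fact: monotone functions vanishing at zero preserve dominance
  have key : ∀ g : ℕ → ℕ, Monotone g → g 0 = 0 → DmD fun i => (v i).sign * (g (v i).natAbs : ℤ) := by
    intro g hg hg0 i j hij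
    have h1 := hv i j hij
    have h2 : 0 ≤ v i := le_trans (abs_nonneg _) h1
    change |(v j).sign * (g (v j).natAbs : ℤ)| ≤ (v i).sign * (g (v i).natAbs : ℤ)
    rcases h2.eq_or_lt with h3 | h3
    · have h4 : v j = 0 := by
        rw [← h3] at h1
        exact abs_eq_zero.1 (le_antisymm h1 (abs_nonneg _))
      rw [h4, ← h3]
      simp
    · have h5 : (v j).natAbs ≤ (v i).natAbs := by
        rw [Int.abs_eq_natAbs] at h1
        omega
      have h6 : (g (v j).natAbs : ℤ) ≤ g (v i).natAbs := by exact_mod_cast hg h5
      rw [Int.sign_eq_one_of_pos h3, one_mul, abs_mul, Nat.abs_cast]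
      have h7 : |(v j).sign| ≤ 1 := by
        rcases lt_trichotomy (v j) 0 with h | h | h
        · rw [Int.sign_eq_neg_one_of_neg h]; simp
        · rw [h]; simp
        · rw [Int.sign_eq_one_of_pos h]; simp
      calc |(v j).sign| * (g (v j).natAbs : ℤ) ≤ 1 * (g (v j).natAbs : ℤ) :=
            mul_le_mul_of_nonneg_right h7 (by positivity)
        _ ≤ _ := by rw [one_mul]; exact h6
  have hpar : ∀ g : ℕ → ℕ, (∑ i, (v i).sign * (g (v i).natAbs : ℤ)) % 2 =
      ((∑ i, g (v i).natAbs : ℕ) : ℤ) % 2 ∨ g 0 ≠ 0 := by
    intro g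
    by_cases hg0 : g 0 = 0
    · left
      rw [Nat.cast_sum]
      apply Int.ModEq.sum
      intro i _
      rcases lt_trichotomy (v i) 0 with h | h | h
      · rw [Int.sign_eq_neg_one_of_neg h]
        change (-1 * (g (v i).natAbs : ℤ)) % 2 = (g (v i).natAbs : ℤ) % 2
        omega
      · rw [h]
        simp [hg0]
      · rw [Int.sign_eq_one_of_pos h, one_mul]
    · exact Or.inr hg0
  have hsum : v = (fun i => (v i).sign * (f (v i).natAbs : ℤ)) +
      fun i => (v i).sign * (((v i).natAbs - f (v i).natAbs : ℕ) : ℤ) := by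
    funext i
    have h1 : (((v i).natAbs - f (v i).natAbs : ℕ) : ℤ) = ((v i).natAbs : ℤ) - f (v i).natAbs :=
      Nat.cast_sub (hle _)
    rw [Pi.add_apply, h1, ← mul_add, add_sub_cancel, Int.sign_mul_natAbs]
  have hea : Even (∑ i, (v i).sign * (f (v i).natAbs : ℤ)) := by
    rcases hpar f with h | h
    · rw [Int.even_iff, h]
      have := Nat.even_iff.1 hs
      omega
    · exact absurd hf0 h
  refine ⟨_, _, key f hf hf0, key (fun n => n - f n) hg (by simp), hea, ?_, hsum, ?_⟩
  · have h1 : ∑ i, v i = (∑ i, (v i).sign * (f (v i).natAbs : ℤ)) +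
        ∑ i, (v i).sign * (((v i).natAbs - f (v i).natAbs : ℕ) : ℤ) := by
      rw [← Finset.sum_add_distrib]
      exact Finset.sum_congr rfl fun i _ => congrFun hsum i
    rw [h1] at he
    exact (Int.even_add.1 he).1 hea
  · have h1 : ∑ i, v i ^ 2 - 4 * (l : ℤ) = ∑ i, (v i ^ 2 - 4) := by
      rw [Finset.sum_sub_distrib]
      simp
      ring
    rw [h1, Finset.mul_sum]
    apply Finset.sum_le_sum
    intro i _
    have h2 : (((v i).natAbs - f (v i).natAbs : ℕ) : ℤ) = ((v i).natAbs : ℤ) - f (v i).natAbs :=
      Nat.cast_sub (hle _)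
    have h3 : v i ^ 2 = ((v i).natAbs : ℤ) ^ 2 := by
      rw [Int.natAbs_sq]
    have h5 := h4 (v i).natAbs
    change v i ^ 2 - 4 ≤ 4 * ((v i).sign * (f (v i).natAbs : ℤ) *
      ((v i).sign * (((v i).natAbs - f (v i).natAbs : ℕ) : ℤ)))
    rw [h2, h3]
    rcases lt_trichotomy (v i) 0 with h | h | h
    · rw [Int.sign_eq_neg_one_of_neg h]
      linarith
    · rw [h]
      simp
    · rw [Int.sign_eq_one_of_pos h]
      linarith

/-- Every dominant vector of type D is the sum of two dominant vectors whose inner product is about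
one quarter of its norm. -/
theorem dn1_halving {l : ℕ} (v : Fin l → ℤ) (hv : DmD v) (he : Even (∑ i, v i)) :
    ∃ a b : Fin l → ℤ, DmD a ∧ DmD b ∧ Even (∑ i, a i) ∧ Even (∑ i, b i) ∧ v = a + b ∧
      ∑ i, v i ^ 2 - 4 * l ≤ 4 * ∑ i, a i * b i := by
  by_cases hs : Even (∑ i, ((v i).natAbs + 1) / 2)
  · refine dn1_split v hv (fun n => (n + 1) / 2) ?_ ?_ ?_ ?_ he hs
    · intro m n h
      change (m + 1) / 2 ≤ (n + 1) / 2
      omega
    · intro m n h
      change m - (m + 1) / 2 ≤ n - (n + 1) / 2
      omega
    · intro n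
      change (n + 1) / 2 ≤ n
      omega
    · intro n
      change (n : ℤ) ^ 2 - 4 ≤ 4 * ((((n + 1) / 2 : ℕ) : ℤ) * ((n : ℤ) - (((n + 1) / 2 : ℕ) : ℤ)))
      rcases Nat.even_or_odd' n with ⟨k, rfl | rfl⟩
      · have h1 : (2 * k + 1) / 2 = k := by omega
        rw [h1]
        push_cast
        nlinarith
      · have h1 : (2 * k + 1 + 1) / 2 = k + 1 := by omega
        rw [h1]
        push_cast
        nlinarith
  · -- a value with odd multiplicity
    have hex : ∃ w : ℕ, ¬ Even ((Finset.univ.filter fun i => (v i).natAbs = w).card * ((w + 1) / 2)) := by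
      by_contra hno
      push Not at hno
      apply hs
      have h1 : ∑ i, ((v i).natAbs + 1) / 2 = ∑ w ∈ Finset.univ.image fun i => (v i).natAbs,
          (Finset.univ.filter fun i => (v i).natAbs = w).card * ((w + 1) / 2) := by
        rw [← Finset.sum_fiberwise_of_maps_to (g := fun i => (v i).natAbs)
          (t := Finset.univ.image fun i => (v i).natAbs)
          (fun i _ => Finset.mem_image_of_mem _ (Finset.mem_univ i))]
        apply Finset.sum_congr rfl
        intro w _
        rw [Finset.sum_congr rfl (g := fun _ => (w + 1) / 2)]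
        · rw [Finset.sum_const, smul_eq_mul]
        · intro i hi
          rw [(Finset.mem_filter.1 hi).2]
      rw [h1]
      exact Finset.even_sum _ fun w _ => hno w
    obtain ⟨w, hw⟩ := hex
    have hm : ¬ Even (Finset.univ.filter fun i => (v i).natAbs = w).card := fun h => hw (h.mul_right _)
    have hw1 : 1 ≤ w := by
      rcases Nat.eq_zero_or_pos w with rfl | h
      · simp at hw
      · exact h
    -- the modified function
    have hval : ∀ n, (if n = w then (if w % 2 = 0 then w / 2 + 1 else w / 2) else (n + 1) / 2) =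
        (if n = w then (if w % 2 = 0 then w / 2 + 1 else w / 2) else (n + 1) / 2) := fun _ => rfl
    refine dn1_split v hv
      (fun n => if n = w then (if w % 2 = 0 then w / 2 + 1 else w / 2) else (n + 1) / 2) ?_ ?_ ?_ ?_ he ?_
    · intro m n h
      change (if m = w then (if w % 2 = 0 then w / 2 + 1 else w / 2) else (m + 1) / 2) ≤
        (if n = w then (if w % 2 = 0 then w / 2 + 1 else w / 2) else (n + 1) / 2)
      split_ifs <;> omega
    · intro m n h
      change m - (if m = w then (if w % 2 = 0 then w / 2 + 1 else w / 2) else (m + 1) / 2) ≤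
        n - (if n = w then (if w % 2 = 0 then w / 2 + 1 else w / 2) else (n + 1) / 2)
      split_ifs <;> omega
    · intro n
      change (if n = w then (if w % 2 = 0 then w / 2 + 1 else w / 2) else (n + 1) / 2) ≤ n
      split_ifs <;> omega
    · intro n
      change (n : ℤ) ^ 2 - 4 ≤
        4 * (((if n = w then (if w % 2 = 0 then w / 2 + 1 else w / 2) else (n + 1) / 2 : ℕ) : ℤ) *
        ((n : ℤ) - ((if n = w then (if w % 2 = 0 then w / 2 + 1 else w / 2) else (n + 1) / 2 : ℕ) : ℤ)))
      by_cases hn : n = w
      · rw [if_pos hn, hn]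
        rcases Nat.even_or_odd' w with ⟨k, hk | hk⟩
        · have h1 : w % 2 = 0 := by omega
          have h2 : w / 2 + 1 = k + 1 := by omega
          rw [if_pos h1, h2, hk]
          push_cast
          nlinarith
        · have h1 : ¬ w % 2 = 0 := by omega
          have h2 : w / 2 = k := by omega
          rw [if_neg h1, h2, hk]
          push_cast
          nlinarith
      · rw [if_neg hn]
        rcases Nat.even_or_odd' n with ⟨k, hk | hk⟩
        · have h1 : (n + 1) / 2 = k := by omega
          rw [h1, hk]
          push_cast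
          nlinarith
        · have h1 : (n + 1) / 2 = k + 1 := by omega
          rw [h1, hk]
          push_cast
          nlinarith
    · -- parity
      have h1 : ∑ i, (if (v i).natAbs = w then (if w % 2 = 0 then w / 2 + 1 else w / 2)
            else ((v i).natAbs + 1) / 2) +
          (Finset.univ.filter fun i => (v i).natAbs = w).card * ((w + 1) / 2) =
          ∑ i, ((v i).natAbs + 1) / 2 +
          (Finset.univ.filter fun i => (v i).natAbs = w).card *
            (if w % 2 = 0 then w / 2 + 1 else w / 2) := by
        rw [← Finset.sum_filter_add_sum_filter_not Finset.univ (fun i => (v i).natAbs = w)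
            (fun i => ((v i).natAbs + 1) / 2),
          ← Finset.sum_filter_add_sum_filter_not Finset.univ (fun i => (v i).natAbs = w)
            (fun i => if (v i).natAbs = w then (if w % 2 = 0 then w / 2 + 1 else w / 2)
              else ((v i).natAbs + 1) / 2)]
        have e1 : ∑ i ∈ Finset.univ.filter (fun i => (v i).natAbs = w), ((v i).natAbs + 1) / 2 =
            (Finset.univ.filter fun i => (v i).natAbs = w).card * ((w + 1) / 2) := by
          rw [Finset.sum_congr rfl (g := fun _ => (w + 1) / 2)]
          · rw [Finset.sum_const, smul_eq_mul]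
          · intro i hi
            rw [(Finset.mem_filter.1 hi).2]
        have e2 : ∑ i ∈ Finset.univ.filter (fun i => (v i).natAbs = w),
            (if (v i).natAbs = w then (if w % 2 = 0 then w / 2 + 1 else w / 2)
              else ((v i).natAbs + 1) / 2) =
            (Finset.univ.filter fun i => (v i).natAbs = w).card *
              (if w % 2 = 0 then w / 2 + 1 else w / 2) := by
          rw [Finset.sum_congr rfl (g := fun _ => (if w % 2 = 0 then w / 2 + 1 else w / 2))]
          · rw [Finset.sum_const, smul_eq_mul]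
          · intro i hi
            rw [if_pos (Finset.mem_filter.1 hi).2]
        have e3 : ∑ i ∈ Finset.univ.filter (fun i => ¬ (v i).natAbs = w),
            (if (v i).natAbs = w then (if w % 2 = 0 then w / 2 + 1 else w / 2)
              else ((v i).natAbs + 1) / 2) =
            ∑ i ∈ Finset.univ.filter (fun i => ¬ (v i).natAbs = w), ((v i).natAbs + 1) / 2 := by
          apply Finset.sum_congr rfl
          intro i hi
          rw [if_neg (Finset.mem_filter.1 hi).2]
        rw [e1, e2, e3]
        ring
      rw [Nat.even_iff] at hs hm ⊢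
      have h2 : (w + 1) / 2 + 1 = (if w % 2 = 0 then w / 2 + 1 else w / 2) ∨
          (w + 1) / 2 = (if w % 2 = 0 then w / 2 + 1 else w / 2) + 1 := by
        split_ifs with h
        · left; omega
        · right; omega
      generalize hc : (Finset.univ.filter fun i => (v i).natAbs = w).card = c at *
      generalize hX : ∑ i, (if (v i).natAbs = w then (if w % 2 = 0 then w / 2 + 1 else w / 2)
            else ((v i).natAbs + 1) / 2) = X at *
      generalize hY : ∑ i, ((v i).natAbs + 1) / 2 = Y at *
      generalize hZ : (if w % 2 = 0 then w / 2 + 1 else w / 2) = Z at *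
      rcases h2 with h2 | h2
      · rw [← h2, mul_add, mul_one] at h1
        omega
      · rw [h2, mul_add, mul_one] at h1
        omega

end WPQ
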