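import Mathlib
import Pool.Agent.WPQ.DN1

/-!
# Type D: the numerical end game (MP_c42e9d_al, W_D_paper D7)
-/

set_option autoImplicit false

namespace WPQ

open Finset

/-- The cubic inequality, in the variable `t = p - 1`. -/
private theorem dn2_F (l t : ℤ)
    (h : (11 ≤ l ∧ 1 ≤ t) ∨ (7 ≤ l ∧ l ≤ 10 ∧ 2 ≤ t) ∨ (l = 6 ∧ 3 ≤ t)) :
    0 < (8 * l ^ 3 - 12 * l ^ 2 - 92 * l) * t ^ 2 - (30 * l ^ 2 + 99 * l - 483) * t -
      (30 * l ^ 2 + 3 * l - 483) := by
  rcases h with ⟨h1, h2⟩ | ⟨h1, h2, h3⟩ | ⟨rfl, h2⟩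
  · obtain ⟨m, rfl⟩ : ∃ m, l = m + 11 := ⟨l - 11, by ring⟩
    have hm : 0 ≤ m := by linarith
    have e1 : 0 ≤ 30 * (m + 11) ^ 2 + 99 * (m + 11) - 483 := by nlinarith
    have e2 : 0 ≤ 30 * (m + 11) ^ 2 + 3 * (m + 11) - 483 := by nlinarith
    have e3 : 0 < 8 * (m + 11) ^ 3 - 12 * (m + 11) ^ 2 - 92 * (m + 11) -
        (30 * (m + 11) ^ 2 + 99 * (m + 11) - 483) - (30 * (m + 11) ^ 2 + 3 * (m + 11) - 483) := by
      have : 8 * (m + 11) ^ 3 - 12 * (m + 11) ^ 2 - 92 * (m + 11) -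
        (30 * (m + 11) ^ 2 + 99 * (m + 11) - 483) - (30 * (m + 11) ^ 2 + 3 * (m + 11) - 483) =
        8 * m ^ 3 + 192 * m ^ 2 + 1126 * m + 768 := by ring
      rw [this]
      positivity
    have e4 : 1 ≤ t ^ 2 := by nlinarith
    have e5 : t ≤ t ^ 2 := by nlinarith
    nlinarith [mul_le_mul_of_nonneg_left e5 e1, mul_le_mul_of_nonneg_left e4 e2,
      mul_le_mul_of_nonneg_left e4 e3.le]
  · interval_cases l <;> nlinarith
  · nlinarith

/-- The general case of the numerical statement: enough room. -/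
private theorem dn2_big (l p q δ A R S : ℤ) (hl : 6 ≤ l) (hp : 2 ≤ p)
    (hc : (11 ≤ l ∧ 1 ≤ p - 1) ∨ (7 ≤ l ∧ l ≤ 10 ∧ 2 ≤ p - 1) ∨ (l = 6 ∧ 3 ≤ p - 1))
    (hR : 6 * R = l * (l - 1) * (2 * l - 1)) (hq : 0 ≤ q) (h1 : q ^ 2 ≤ δ)
    (h2 : δ ≤ q * (l - 4 - q))
    (hR1 : 8 * R * (p - 1) ^ 2 - (l - 1) * p - 8 * p * δ ≤ 8 * p ^ 2 * A)
    (hS : A - 4 * l ≤ 4 * S) : 0 < S ∧ q * (l - 1) - δ ≤ p * S + 4 := by
  have hF := dn2_F l (p - 1) hc
  have hFe : (8 * l ^ 3 - 12 * l ^ 2 - 92 * l) * (p - 1) ^ 2 -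
      (30 * l ^ 2 + 99 * l - 483) * (p - 1) - (30 * l ^ 2 + 3 * l - 483) =
      24 * R * (p - 1) ^ 2 - 3 * (l - 1) * p - 96 * p ^ 2 * l + 384 * p -
        6 * p * (5 * l ^ 2 - 16 * l - 16) := by
    have : 24 * R = 4 * (l * (l - 1) * (2 * l - 1)) := by rw [← hR]; ring
    rw [this]
    ring
  rw [hFe] at hF
  -- `q` is at most `(l-4)/2`
  have hq2 : 2 * q ≤ l - 4 := by
    by_contra hcon
    push Not at hcon
    have h3 : 0 < q := by linarith
    nlinarith
  -- the quadratic function of `q`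
  have hq3 : 32 * q * (l - 1) - 24 * q ^ 2 ≤ 2 * (l - 4) * (5 * l + 4) := by
    nlinarith [mul_nonneg (sub_nonneg.2 hq2) hq, mul_nonneg (sub_nonneg.2 hq2) (sub_nonneg.2 hl)]
  have hδ0 : 0 ≤ δ := le_trans (sq_nonneg q) h1
  have hδ : 4 * δ ≤ (l - 4) ^ 2 := by nlinarith [sq_nonneg (l - 4 - 2 * q)]
  have hA : 4 * l < A := by
    by_contra hcon
    push Not at hcon
    have h3 : 8 * p ^ 2 * A ≤ 8 * p ^ 2 * (4 * l) :=
      mul_le_mul_of_nonneg_left hcon (by positivity)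
    -- `8 (l-4)(l+2) ≥ 128`
    have h4 : 0 ≤ p * (8 * ((l - 4) * (l + 2)) - 128) := by
      apply mul_nonneg (by linarith)
      nlinarith
    have h5 : p * (8 * δ) ≤ p * (2 * (l - 4) ^ 2) := by
      apply mul_le_mul_of_nonneg_left _ (by linarith)
      linarith
    nlinarith
  have hS0 : 0 < S := by linarith
  refine ⟨hS0, ?_⟩
  by_contra hcon
  push Not at hcon
  have h3 : p * (A - 4 * l) ≤ p * (4 * S) := mul_le_mul_of_nonneg_left hS (by linarith)
  have h4 : p * (A - 4 * l) + 16 < 4 * (q * (l - 1) - δ) := by linarith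
  have h5 : 8 * p * (p * (A - 4 * l) + 16) < 8 * p * (4 * (q * (l - 1) - δ)) :=
    mul_lt_mul_of_pos_left h4 (by linarith)
  have h6 : p * (24 * q ^ 2) ≤ p * (24 * δ) := mul_le_mul_of_nonneg_left (by linarith) (by linarith)
  have h7 : p * (32 * q * (l - 1) - 24 * q ^ 2) ≤ p * (2 * (l - 4) * (5 * l + 4)) :=
    mul_le_mul_of_nonneg_left hq3 (by linarith)
  nlinarith

/-- The numerical statement. -/
private theorem dn2_num (l p h q δ A H R S : ℤ) (hl : 4 ≤ l) (hp : 2 ≤ p)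
    (hR : 6 * R = l * (l - 1) * (2 * l - 1))
    (hh : 8 * p * h = 2 * l * (l - 1) * (2 * l - 1) * (p - 1) ^ 2 - (l - 1) * p)
    (hq : 0 ≤ q) (h1 : q ^ 2 ≤ δ) (h2 : δ ≤ q * (l - 4 - q)) (hA0 : 0 ≤ A) (hAe : Even A)
    (hH0 : 0 ≤ H) (hE : p * A + 2 * (p - 1) * H = 2 * (h - δ))
    (hsq : 2 * p * (p - 1) * H ≤ (p - 1) ^ 2 * R + p ^ 2 * A) (hCS : H ^ 2 ≤ R * A)
    (hS : A - 4 * l ≤ 4 * S) :
    (0 < S ∧ q * (l - 1) - δ ≤ p * S + 4) ∨
      (l = 5 ∧ p = 2 ∧ h = 22 ∧ q = 0 ∧ δ = 0 ∧ A + H = 22) := by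
  have hR1 : 8 * R * (p - 1) ^ 2 - (l - 1) * p - 8 * p * δ ≤ 8 * p ^ 2 * A := by
    have e1 : 4 * p * (p * A + 2 * (p - 1) * H) = 4 * p * (2 * (h - δ)) := by rw [hE]
    have e2 : 2 * l * (l - 1) * (2 * l - 1) * (p - 1) ^ 2 = 12 * R * (p - 1) ^ 2 := by
      have : 12 * R = 2 * (l * (l - 1) * (2 * l - 1)) := by rw [← hR]; ring
      rw [this]
      ring
    rw [e2] at hh
    nlinarith
  have hq2 : 2 * q ≤ l - 4 := by
    by_contra hcon
    push Not at hcon
    have h3 : 0 ≤ q := hq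
    rcases hq.eq_or_lt with h4 | h4
    · rw [← h4] at hcon
      linarith
    · nlinarith
  have hp0 : p ≠ 0 := by linarith
  by_cases h11 : 11 ≤ l
  · exact Or.inl (dn2_big l p q δ A R S (by linarith) hp (Or.inl ⟨h11, by linarith⟩) hR hq h1 h2
      hR1 hS)
  push Not at h11
  have hlt : l ≤ 10 := by linarith
  interval_cases l
  · -- `l = 4`
    exfalso
    have hq0 : q = 0 := by linarith
    subst hq0
    have hd : δ = 0 := by nlinarith
    subst hd
    have hh' : 8 * p * h = 168 * (p - 1) ^ 2 - 3 * p := by rw [hh]; ring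
    have hdvd : p ∣ 168 := by
      refine ⟨8 * h - 168 * p + 336 + 3, ?_⟩
      linarith
    have hple : p ≤ 168 := Int.le_of_dvd (by norm_num) hdvd
    have h8 : (8 : ℤ) ∣ p := by
      have : (8 : ℤ) ∣ 3 * p := by
        refine ⟨21 * (p - 1) ^ 2 - p * h, ?_⟩
        linarith
      omega
    obtain ⟨m, rfl⟩ := h8
    have hm1 : 1 ≤ m := by linarith
    have hm2 : m ≤ 21 := by linarith
    have h56 : m = 7 ∧ h = 1134 := by
      obtain ⟨k, hk⟩ := hdvd
      have hmk : m ∣ 21 := ⟨k, by linarith⟩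
      have : m = 1 ∨ m = 3 ∨ m = 7 ∨ m = 21 := by
        interval_cases m <;> omega
      rcases this with rfl | rfl | rfl | rfl
      · exfalso; omega
      · exfalso; omega
      · exact ⟨rfl, by omega⟩
      · exfalso; omega
    obtain ⟨rfl, rfl⟩ := h56
    obtain ⟨a, rfl⟩ := hAe
    omega
  · -- `l = 5`
    have hq0 : q = 0 := by linarith
    subst hq0
    have hd : δ = 0 := by nlinarith
    subst hd
    have hR30 : R = 30 := by linarith
    subst hR30
    by_cases hp6 : 6 ≤ p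
    · left
      have hA : 20 < A := by
        by_contra hcon
        push Not at hcon
        have h3 : 8 * p ^ 2 * A ≤ 8 * p ^ 2 * 20 :=
          mul_le_mul_of_nonneg_left hcon (by positivity)
        nlinarith
      have : 0 < S := by linarith
      exact ⟨this, by nlinarith⟩
    · push Not at hp6
      have hp5 : p ≤ 5 := by linarith
      interval_cases p
      · right
        refine ⟨rfl, rfl, by linarith, rfl, rfl, by linarith⟩
      · exfalso; omega
      · exfalso; omega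
      · exfalso; omega
  · -- `l = 6`
    by_cases hp4 : 4 ≤ p
    · exact Or.inl (dn2_big 6 p q δ A R S (by norm_num) hp
        (Or.inr (Or.inr ⟨rfl, by linarith⟩)) hR hq h1 h2 hR1 hS)
    · push Not at hp4
      have hp3 : p ≤ 3 := by linarith
      exfalso
      interval_cases p <;> omega
  · by_cases hp4 : 3 ≤ p
    · exact Or.inl (dn2_big 7 p q δ A R S (by norm_num) hp
        (Or.inr (Or.inl ⟨by norm_num, by norm_num, by linarith⟩)) hR hq h1 h2 hR1 hS)
    · obtain rfl : p = 2 := by linarith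
      exfalso
      omega
  · by_cases hp4 : 3 ≤ p
    · exact Or.inl (dn2_big 8 p q δ A R S (by norm_num) hp
        (Or.inr (Or.inl ⟨by norm_num, by norm_num, by linarith⟩)) hR hq h1 h2 hR1 hS)
    · obtain rfl : p = 2 := by linarith
      exfalso
      omega
  · -- `l = 9`
    by_cases hp4 : 3 ≤ p
    · exact Or.inl (dn2_big 9 p q δ A R S (by norm_num) hp
        (Or.inr (Or.inl ⟨by norm_num, by norm_num, by linarith⟩)) hR hq h1 h2 hR1 hS)
    · obtain rfl : p = 2 := by linarith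
      left
      have hh' : h = 152 := by linarith
      have hR' : R = 204 := by linarith
      subst hh'
      subst hR'
      have hqle : q ≤ 2 := by linarith
      obtain ⟨a, rfl⟩ := hAe
      interval_cases q
      · have : δ = 0 := by nlinarith
        subst this
        constructor <;> omega
      · have h3 : δ ≤ 4 := by linarith
        have h4 : 1 ≤ δ := by linarith
        constructor <;> omega
      · have h3 : δ ≤ 6 := by linarith
        have h4 : 4 ≤ δ := by linarith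
        have h5 : ¬ (δ = 5 ∧ a = 24) := by
          rintro ⟨rfl, rfl⟩
          have : H = 99 := by linarith
          subst this
          norm_num at hCS
        constructor <;> omega
  · by_cases hp4 : 3 ≤ p
    · exact Or.inl (dn2_big 10 p q δ A R S (by norm_num) hp
        (Or.inr (Or.inl ⟨by norm_num, by norm_num, by linarith⟩)) hR hq h1 h2 hR1 hS)
    · obtain rfl : p = 2 := by linarith
      exfalso
      omega

/-- `|ρ|² = l(l-1)(2l-1)/6`. -/
private theorem dn2_R (l : ℕ) :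
    6 * ∑ i : Fin l, ((l : ℤ) - 1 - (i : ℕ)) ^ 2 = (l : ℤ) * (l - 1) * (2 * l - 1) := by
  have h1 : ∑ i : Fin l, ((l : ℤ) - 1 - (i : ℕ)) ^ 2 = ∑ i : Fin l, ((i : ℕ) : ℤ) ^ 2 := by
    rw [← Equiv.sum_comp Fin.revPerm]
    refine Finset.sum_congr rfl fun i _ => ?_
    rw [Fin.revPerm_apply, Fin.val_rev]
    have : ((l - ((i : ℕ) + 1) : ℕ) : ℤ) = (l : ℤ) - 1 - (i : ℕ) := by
      have := i.2
      omega
    rw [this]
    ring
  rw [h1, Fin.sum_univ_eq_sum_range (fun n => (n : ℤ) ^ 2)]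
  clear h1
  induction l with
  | zero => simp
  | succ n ih =>
    rw [Finset.sum_range_succ, mul_add, ih]
    push_cast
    ring

/-- The exceptional case `l = 5`, `p = 2`: the solutions of `|ν|² + (ρ,ν) = 22`. -/
private theorem dn2_five (v : Fin 5 → ℤ) (hv : DmD v)
    (hE : ∑ i, v i ^ 2 + ∑ i : Fin 5, ((5 : ℤ) - 1 - (i : ℕ)) * v i = 22) :
    (v = ![2, 2, 0, 0, 0]) ∨ (v 0 = 2 ∧ v 1 = 1 ∧ v 2 = 1 ∧ v 3 = 1 ∧ |v 4| = 1) := by
  have h01 := hv 0 1 (by decide)
  have h12 := hv 1 2 (by decide)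
  have h23 := hv 2 3 (by decide)
  have h34 := hv 3 4 (by decide)
  rw [abs_le] at h01 h12 h23 h34
  have a0 : 0 ≤ v 0 := by linarith [h01.1, h01.2]
  have a1 : 0 ≤ v 1 := by linarith [h12.1, h12.2]
  have a2 : 0 ≤ v 2 := by linarith [h23.1, h23.2]
  have a3 : 0 ≤ v 3 := by linarith [h34.1, h34.2]
  simp only [Fin.sum_univ_five] at hE
  have e0 : (((0 : Fin 5) : ℕ) : ℤ) = 0 := rfl
  have e1 : (((1 : Fin 5) : ℕ) : ℤ) = 1 := rfl
  have e2 : (((2 : Fin 5) : ℕ) : ℤ) = 2 := rfl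
  have e3 : (((3 : Fin 5) : ℕ) : ℤ) = 3 := rfl
  have e4 : (((4 : Fin 5) : ℕ) : ℤ) = 4 := rfl
  rw [e0, e1, e2, e3, e4] at hE
  have s1 := sq_nonneg (v 1)
  have s2 := sq_nonneg (v 2)
  have s3 := sq_nonneg (v 3)
  have s4 := sq_nonneg (v 4)
  have b0 : v 0 ≤ 3 := by nlinarith
  have b1 : v 1 ≤ 3 := by linarith [h01.2]
  have b2 : v 2 ≤ 3 := by linarith [h12.2]
  have b3 : v 3 ≤ 3 := by linarith [h23.2]
  have b4 : v 4 ≤ 3 := by linarith [h34.2]
  have b4' : -3 ≤ v 4 := by linarith [h34.1]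
  have key : (v 0 = 2 ∧ v 1 = 2 ∧ v 2 = 0 ∧ v 3 = 0 ∧ v 4 = 0) ∨
      (v 0 = 2 ∧ v 1 = 1 ∧ v 2 = 1 ∧ v 3 = 1 ∧ (v 4 = 1 ∨ v 4 = -1)) := by
    generalize v 0 = x0 at *
    generalize v 1 = x1 at *
    generalize v 2 = x2 at *
    generalize v 3 = x3 at *
    generalize v 4 = x4 at *
    obtain ⟨h01, h01'⟩ := h01
    obtain ⟨h12, h12'⟩ := h12
    obtain ⟨h23, h23'⟩ := h23
    obtain ⟨h34, h34'⟩ := h34
    interval_cases x0 <;> interval_cases x1 <;> interval_cases x2 <;> interval_cases x3 <;>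
      first | omega | (interval_cases x4 <;> omega)
  rcases key with ⟨c0, c1, c2, c3, c4⟩ | ⟨c0, c1, c2, c3, c4⟩
  · left
    funext i
    fin_cases i
    · exact c0
    · exact c1
    · exact c2
    · exact c3
    · exact c4
  · right
    refine ⟨c0, c1, c2, c3, ?_⟩
    rcases c4 with c4 | c4 <;> rw [c4] <;> norm_num

/-- The end game of type `D_l`: every dominant `ν` of the critical weight splits well, with one
exception. -/
theorem dn2_endgame {l : ℕ} (hl : 4 ≤ l) (p h q δ : ℤ) (hp : 2 ≤ p)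
    (hh : 8 * p * h = 2 * l * (l - 1) * (2 * l - 1) * (p - 1) ^ 2 - (l - 1) * p)
    (v : Fin l → ℤ) (hv : DmD v) (he : Even (∑ i, v i)) (hq : 0 ≤ q) (h1 : q ^ 2 ≤ δ)
    (h2 : δ ≤ q * (l - 4 - q))
    (hE : p * ∑ i, v i ^ 2 + 2 * (p - 1) * ∑ i : Fin l, ((l : ℤ) - 1 - (i : ℕ)) * v i =
      2 * (h - δ)) :
    (∃ a b : Fin l → ℤ, DmD a ∧ DmD b ∧ Even (∑ i, a i) ∧ Even (∑ i, b i) ∧ v = a + b ∧
      0 < ∑ i, a i * b i ∧ q * (l - 1) - δ ≤ p * ∑ i, a i * b i + 4) ∨
    (l = 5 ∧ p = 2 ∧ h = 22 ∧ q = 0 ∧ δ = 0 ∧ (∀ i : Fin l, (i : ℕ) = 0 → v i = 2) ∧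
      (∀ i : Fin l, 1 ≤ (i : ℕ) → (i : ℕ) ≤ 3 → v i = 1) ∧
      ∀ i : Fin l, (i : ℕ) = 4 → |v i| = 1) := by
  obtain ⟨a, b, ha, hb, hae, hbe, hab, hS⟩ := dn1_halving v hv he
  have hsplit := dn2_num l p h q δ (∑ i, v i ^ 2)
    (∑ i : Fin l, ((l : ℤ) - 1 - (i : ℕ)) * v i)
    (∑ i : Fin l, ((l : ℤ) - 1 - (i : ℕ)) ^ 2) (∑ i, a i * b i) (by exact_mod_cast hl) hp
    (dn2_R l) hh hq h1 h2 (Finset.sum_nonneg fun i _ => sq_nonneg _)
    ?_ ?_ hE ?_ ?_ hS
  · rcases hsplit with ⟨h3, h4⟩ | ⟨h3, rfl, rfl, rfl, rfl, h4⟩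
    · exact Or.inl ⟨a, b, ha, hb, hae, hbe, hab, h3, h4⟩
    · obtain rfl : l = 5 := by exact_mod_cast h3
      rcases dn2_five v hv (by exact_mod_cast h4) with h5 | ⟨c0, c1, c2, c3, c4⟩
      · left
        refine ⟨![1, 1, 0, 0, 0], ![1, 1, 0, 0, 0], ?_, ?_, by decide, by decide, ?_, by decide,
          ?_⟩
        · intro i j hij
          fin_cases i <;> fin_cases j <;> first | (exfalso; revert hij; decide) | decide
        · intro i j hij
          fin_cases i <;> fin_cases j <;> first | (exfalso; revert hij; decide) | decide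
        · rw [h5]
          funext i
          fin_cases i <;> rfl
        · have : ∑ i : Fin 5, (![1, 1, 0, 0, 0] : Fin 5 → ℤ) i * (![1, 1, 0, 0, 0] : Fin 5 → ℤ) i =
              2 := by decide
          rw [this]
          norm_num
      · right
        refine ⟨rfl, rfl, rfl, rfl, rfl, ?_, ?_, ?_⟩
        · intro i hi
          have : i = 0 := Fin.ext hi
          rw [this, c0]
        · intro i hi hi'
          have : i = 1 ∨ i = 2 ∨ i = 3 := by
            have h6 := i.2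
            have : (i : ℕ) = 1 ∨ (i : ℕ) = 2 ∨ (i : ℕ) = 3 := by omega
            rcases this with h | h | h
            · exact Or.inl (Fin.ext h)
            · exact Or.inr (Or.inl (Fin.ext h))
            · exact Or.inr (Or.inr (Fin.ext h))
          rcases this with h | h | h
          · rw [h, c1]
          · rw [h, c2]
          · rw [h, c3]
        · intro i hi
          have : i = 4 := Fin.ext hi
          rw [this]
          exact c4
  · -- `A` is even
    have h3 : Even (∑ i, v i ^ 2 - ∑ i, v i) := by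
      rw [← Finset.sum_sub_distrib]
      refine Finset.even_sum _ fun i _ => ?_
      have : v i ^ 2 - v i = v i * (v i - 1) := by ring
      rw [this]
      exact Int.even_mul_pred_self _
    have h4 := h3.add he
    rwa [sub_add_cancel] at h4
  · -- `H ≥ 0`
    refine Finset.sum_nonneg fun i _ => ?_
    have hi := i.2
    by_cases h3 : (i : ℕ) = l - 1
    · have : (l : ℤ) - 1 - (i : ℕ) = 0 := by omega
      rw [this, zero_mul]
    · have h4 : (i : ℕ) + 1 < l := by omega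
      apply mul_nonneg
      · omega
      · have h5 := hv i ⟨(i : ℕ) + 1, h4⟩ (by rw [Fin.lt_def]; simp)
        exact le_trans (abs_nonneg _) h5
  · -- `|(p-1)ρ - pν|² ≥ 0`
    have h3 : 0 ≤ ∑ i : Fin l, ((p - 1) * ((l : ℤ) - 1 - (i : ℕ)) - p * v i) ^ 2 :=
      Finset.sum_nonneg fun i _ => sq_nonneg _
    have h4 : ∑ i : Fin l, ((p - 1) * ((l : ℤ) - 1 - (i : ℕ)) - p * v i) ^ 2 =
        (p - 1) ^ 2 * ∑ i : Fin l, ((l : ℤ) - 1 - (i : ℕ)) ^ 2 -
          2 * p * (p - 1) * ∑ i : Fin l, ((l : ℤ) - 1 - (i : ℕ)) * v i +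
          p ^ 2 * ∑ i, v i ^ 2 := by
      rw [Finset.mul_sum, Finset.mul_sum, Finset.mul_sum, ← Finset.sum_sub_distrib,
        ← Finset.sum_add_distrib]
      refine Finset.sum_congr rfl fun i _ => ?_
      ring
    rw [h4] at h3
    linarith
  · -- Cauchy–Schwarz
    exact Finset.sum_mul_sq_le_sq_mul_sq _ _ _

/-- The chain of weights: sums with gaps `≥ 2`. -/
theorem dn2_chain (m : ℕ) (L : List ℕ) (hc : L.IsChain fun a b => b + 2 ≤ a)
    (h1 : ∀ x ∈ L, 1 ≤ x) (h2 : ∀ x ∈ L, x ≤ m) :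
    (L.length : ℤ) ^ 2 ≤ (L.sum : ℤ) ∧ (L.sum : ℤ) ≤ L.length * (m + 1 - L.length) := by
  have key : ∀ (L : List ℕ), (L.IsChain fun a b => b + 2 ≤ a) → (∀ x ∈ L, 1 ≤ x) →
      (L.length : ℤ) ^ 2 ≤ (L.sum : ℤ) ∧ (∀ a ∈ L.head?, 2 * (L.length : ℤ) - 1 ≤ a ∧
        (L.sum : ℤ) ≤ L.length * (a + 1 - L.length)) := by
    intro L
    induction L with
    | nil =>
      intro _ _
      simp
    | cons a L ih =>
      intro hc h1
      obtain ⟨i1, i2⟩ := ih hc.tail fun x hx => h1 x (List.mem_cons_of_mem _ hx)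
      have ha := h1 a List.mem_cons_self
      rcases L with _ | ⟨b, L⟩
      · have ha' : (1 : ℤ) ≤ a := by exact_mod_cast ha
        refine ⟨by simpa using ha', ?_⟩
        intro a' h'
        obtain rfl : a = a' := by simpa using h'
        constructor
        · simp
          linarith
        · simp
      · have hab : b + 2 ≤ a := by
          rw [List.isChain_cons_cons] at hc
          exact hc.1
        have hab' : (b : ℤ) + 2 ≤ a := by exact_mod_cast hab
        obtain ⟨i3, i4⟩ := i2 b rfl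
        have e1 : ((a :: b :: L).length : ℤ) = (b :: L).length + 1 := by
          rw [List.length_cons]
          push_cast
          ring
        have e2 : ((a :: b :: L).sum : ℤ) = a + (b :: L).sum := by
          rw [List.sum_cons]
          push_cast
          ring
        have e3 : (0 : ℤ) ≤ (b :: L).length := by positivity
        rw [e1, e2]
        refine ⟨by nlinarith, ?_⟩
        intro a' ha'
        obtain rfl : a = a' := by simpa using ha'
        refine ⟨by linarith, ?_⟩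
        nlinarith
  obtain ⟨k1, k2⟩ := key L hc h1
  refine ⟨k1, ?_⟩
  rcases L with _ | ⟨a, L⟩
  · simp
  · obtain ⟨k3, k4⟩ := k2 a rfl
    have h3 : (a : ℤ) ≤ m := by exact_mod_cast h2 a List.mem_cons_self
    have h4 : (0 : ℤ) ≤ ((a :: L).length : ℤ) := by positivity
    nlinarith

end WPQ
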