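import Pool.Agent.WPQ.AF4

/-! [WPQ-AF5] Normally ordered products: covariance and vacuum; locality of built fields.

Plan.  `cov_nop`: with a large bound `M`,
`[T, c_m] v = ∑_{i<M} ((1+i) a_{-2-i} b_{m+i} - (m+i) a_{-1-i} b_{m+i-1} - (m-1-i) b_{m-2-i} a_i
- i b_{m-1-i} a_{i-1}) v`; shift `i` in the first and fourth sum (boundary terms vanish for large
`M`): the total is `-m ∑ (a_{-1-i} b_{m-1+i} + b_{m-2-i} a_i) v`.
`creation_nop`: `c_{-1} v = ∑ (a_{-1-i} b_{-1+i} v + b_{-2-i} a_i v)`, only `i = 0` of the first sum.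
`built_local`: prove by induction on `Built Gen b` the statement
`∀ a, (∀ g ∈ Gen, ∃ N, Loc N a g) → ∃ N, Loc N a b`.  For products `x_(n) y`: `x` is local with all
`g ∈ Gen` (induction hypothesis for `x` applied to `a = g`, `Loc.symm`), so the induction hypothesis for
`y` applied to `a = x` gives locality of `x` and `y`; then `loc_prodN`, `loc_nop` with a common `N`
(`LocP.mono`).  The hypothesis `hf` (generators are fields) gives `IsFld` of all built fields
(separate induction). -/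

namespace WPQ.AF

noncomputable section

variable {V : Type} [AddCommGroup V] [Module ℂ V]

theorem cov_nop {T : V →ₗ[ℂ] V} {a b c : ℤ → V →ₗ[ℂ] V} (ha : IsFld a) (hb : IsFld b)
    (hc : IsNop a b c) (hTa : Cov T T a) (hTb : Cov T T b) : Cov T T c := by
  intro m
  ext v
  obtain ⟨M1, h1⟩ := hc m v
  obtain ⟨M2, h2⟩ := hc m (T v)
  obtain ⟨M3, h3⟩ := hc (m - 1) v
  obtain ⟨Na, hNa⟩ := ha v
  obtain ⟨Nb, hNb⟩ := hb v
  have hT1 : ∀ (n : ℤ) (w : V), T (a n w) = a n (T w) - (n : ℂ) • a (n - 1) w := by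
    intro n w
    have h := LinearMap.congr_fun (hTa n) w
    simp only [LinearMap.sub_apply, LinearMap.comp_apply, neg_smul] at h
    rw [sub_eq_iff_eq_add] at h
    rw [h, LinearMap.neg_apply, LinearMap.smul_apply]; abel
  have hT2 : ∀ (n : ℤ) (w : V), T (b n w) = b n (T w) - (n : ℂ) • b (n - 1) w := by
    intro n w
    have h := LinearMap.congr_fun (hTb n) w
    simp only [LinearMap.sub_apply, LinearMap.comp_apply, neg_smul] at h
    rw [sub_eq_iff_eq_add] at h
    rw [h, LinearMap.neg_apply, LinearMap.smul_apply]; abel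
  obtain ⟨M, hM⟩ : ∃ M : ℕ, M = M1 + M2 + M3 + Na.natAbs + Nb.natAbs + m.natAbs + 1 := ⟨_, rfl⟩
  have e1 := h1 (M + 1) (by omega)
  have e2 := h2 (M + 1) (by omega)
  have e3 := h3 (M + 1) (by omega)
  simp only [LinearMap.sub_apply, LinearMap.comp_apply, LinearMap.smul_apply]
  rw [e1, e2, e3, map_sum, ← Finset.sum_sub_distrib]
  set P : ℕ → V := fun i => a (-1 - i) (b (m - 1 + i) v) with hP
  set R : ℕ → V := fun i => b (m - 1 - 1 - i) (a i v) with hR
  have hPM : P (M + 1) = 0 := by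
    have : b (m - 1 + ((M + 1 : ℕ) : ℤ)) v = 0 := hNb _ (by omega)
    rw [hP]; simp only; rw [this, map_zero]
  have hRM : R M = 0 := by
    have : a (M : ℤ) v = 0 := hNa _ (by omega)
    rw [hR]; simp only; rw [this, map_zero]
  have key : ∀ i : ℕ, T (a (-1 - (i : ℤ)) (b (m + i) v) + b (m - 1 - i) (a i v)) -
      (a (-1 - (i : ℤ)) (b (m + i) (T v)) + b (m - 1 - i) (a i (T v))) =
      (((i + 1 : ℕ) : ℂ) • P (i + 1) - ((m : ℂ) + i) • P i) -
        ((i : ℂ) • b (m - 1 - i) (a ((i : ℤ) - 1) v) + ((m : ℂ) - 1 - i) • R i) := by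
    intro i
    rw [map_add, hT1, hT2, hT2, hT1, map_sub, map_sub, map_smul, map_smul]
    have q1 : P (i + 1) = a (-1 - (i : ℤ) - 1) (b (m + i) v) := by
      rw [hP]; simp only; congr 2
      · push_cast; ring
      · congr 1; push_cast; ring
    have q2 : P i = a (-1 - (i : ℤ)) (b (m + i - 1) v) := by
      rw [hP]; simp only; congr 3; ring
    have q3 : R i = b (m - 1 - i - 1) (a i v) := by
      rw [hR]; simp only; congr 2; ring
    rw [q1, q2, q3]
    push_cast
    module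
  rw [Finset.sum_congr rfl fun i _ => key i, Finset.sum_sub_distrib, Finset.sum_sub_distrib,
    Finset.sum_add_distrib]
  have s1 : ∑ i ∈ Finset.range (M + 1), ((i + 1 : ℕ) : ℂ) • P (i + 1) =
      ∑ i ∈ Finset.range (M + 1), (i : ℂ) • P i := by
    have := Finset.sum_range_succ' (fun i : ℕ => (i : ℂ) • P i) (M + 1)
    rw [Finset.sum_range_succ] at this
    rw [hPM] at this
    simpa using this.symm
  have s2 : ∑ i ∈ Finset.range (M + 1), (i : ℂ) • b (m - 1 - (i : ℤ)) (a ((i : ℤ) - 1) v) =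
      ∑ i ∈ Finset.range (M + 1), ((i : ℂ) + 1) • R i := by
    rw [Finset.sum_range_succ'
      (fun i : ℕ => (i : ℂ) • b (m - 1 - (i : ℤ)) (a ((i : ℤ) - 1) v)) M,
      Finset.sum_range_succ (fun i : ℕ => ((i : ℂ) + 1) • R i) M, hRM]
    simp only [Nat.cast_zero, zero_smul, add_zero, smul_zero]
    refine Finset.sum_congr rfl fun i _ => ?_
    rw [hR]
    simp only
    have u1 : m - 1 - (((i + 1 : ℕ)) : ℤ) = m - 1 - 1 - (i : ℤ) := by push_cast; ring
    have u2 : (((i + 1 : ℕ)) : ℤ) - 1 = (i : ℤ) := by push_cast; ring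
    rw [u1, u2]
    push_cast
    rfl
  have s3 : ∑ i ∈ Finset.range (M + 1), (a (-1 - (i : ℤ)) (b (m - 1 + i) v) +
      b (m - 1 - 1 - i) (a i v)) = ∑ i ∈ Finset.range (M + 1), P i +
      ∑ i ∈ Finset.range (M + 1), R i := Finset.sum_add_distrib
  rw [s1, s2, s3, ← Finset.sum_sub_distrib, ← Finset.sum_add_distrib, ← Finset.sum_sub_distrib,
    ← Finset.sum_add_distrib, Finset.smul_sum]
  refine Finset.sum_congr rfl fun i _ => ?_
  module

theorem vac_nop {a b c : ℤ → V →ₗ[ℂ] V} (hc : IsNop a b c) (v : V)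
    (ha : ∀ m : ℤ, 0 ≤ m → a m v = 0) (hb : ∀ m : ℤ, 0 ≤ m → b m v = 0) (m : ℤ) (hm : 0 ≤ m) :
    c m v = 0 := by
  obtain ⟨M0, h⟩ := hc m v
  rw [h M0 le_rfl]
  refine Finset.sum_eq_zero fun i _ => ?_
  rw [hb (m + i) (by omega), ha i (by omega), map_zero, map_zero, add_zero]

theorem creation_nop {a b c : ℤ → V →ₗ[ℂ] V} (hc : IsNop a b c) (v : V)
    (ha : ∀ m : ℤ, 0 ≤ m → a m v = 0) (hb : ∀ m : ℤ, 0 ≤ m → b m v = 0) :
    c (-1) v = a (-1) (b (-1) v) := by
  obtain ⟨M0, h⟩ := hc (-1) v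
  rw [h (M0 + 1) (by omega), Finset.sum_range_succ']
  rw [Finset.sum_eq_zero, zero_add]
  · have h0 : a ((0 : ℕ) : ℤ) v = 0 := ha _ (by simp)
    rw [h0, map_zero, add_zero]
    simp
  · intro i _
    rw [hb (-1 + ((i + 1 : ℕ) : ℤ)) (by push_cast; omega), ha ((i + 1 : ℕ) : ℤ) (by omega),
      map_zero, map_zero, add_zero]

theorem built_isFld {Gen : Set (ℤ → V →ₗ[ℂ] V)} (hf : ∀ g ∈ Gen, IsFld g) {b : ℤ → V →ₗ[ℂ] V}
    (hb : Built Gen b) : IsFld b := by
  induction hb with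
  | gen a ha => exact hf a ha
  | one =>
    intro v
    exact ⟨0, fun n hn => by rw [idF, if_neg (by omega)]; rfl⟩
  | add a b _ _ iha ihb =>
    intro v
    obtain ⟨N1, h1⟩ := iha v
    obtain ⟨N2, h2⟩ := ihb v
    refine ⟨max N1 N2, fun n hn => ?_⟩
    rw [LinearMap.add_apply, h1 n (le_trans (le_max_left _ _) hn),
      h2 n (le_trans (le_max_right _ _) hn), add_zero]
  | smul c a _ iha =>
    intro v
    obtain ⟨N1, h1⟩ := iha v
    exact ⟨N1, fun n hn => by rw [LinearMap.smul_apply, h1 n hn, smul_zero]⟩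
  | der a _ iha => exact isFld_der iha
  | prod n a b _ _ iha ihb => exact isFld_prodN n iha ihb
  | nop a b c _ _ hc iha ihb => exact isFld_nop iha ihb hc

theorem built_local {Gen : Set (ℤ → V →ₗ[ℂ] V)} (hf : ∀ g ∈ Gen, IsFld g)
    (hG : ∀ g ∈ Gen, ∀ g' ∈ Gen, ∃ N, Loc N g g') {b : ℤ → V →ₗ[ℂ] V} (hb : Built Gen b)
    (a : ℤ → V →ₗ[ℂ] V) (ha : ∀ g ∈ Gen, ∃ N, Loc N a g) : ∃ N, Loc N a b := by
  induction hb generalizing a with
  | gen g hg => exact ha g hg
  | one => exact ⟨0, Loc.idF_right a⟩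
  | add x y _ _ ihx ihy =>
    obtain ⟨N1, h1⟩ := ihx a ha
    obtain ⟨N2, h2⟩ := ihy a ha
    exact ⟨max N1 N2, LocP.add_right (h1.mono (le_max_left _ _)) (h2.mono (le_max_right _ _))⟩
  | smul c x _ ihx =>
    obtain ⟨N1, h1⟩ := ihx a ha
    exact ⟨N1, LocP.smul_right c h1⟩
  | der x _ ihx =>
    obtain ⟨N1, h1⟩ := ihx a ha
    exact ⟨N1 + 1, LocP.der_right h1⟩
  | prod n x y _ _ ihx ihy =>
    obtain ⟨N1, h1⟩ := ihx a ha
    obtain ⟨N2, h2⟩ := ihy a ha
    have hx : ∀ g ∈ Gen, ∃ N, Loc N x g := by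
      intro g hg
      obtain ⟨N, hN⟩ := ihx g (hG g hg)
      exact ⟨N, hN.symm⟩
    obtain ⟨N3, h3⟩ := ihy x hx
    set N := max N1 (max N2 N3) with hN
    exact ⟨3 * N, loc_prodN n (h1.mono (le_max_left _ _))
      (h2.mono (le_trans (le_max_left _ _) (le_max_right _ _)))
      (h3.mono (le_trans (le_max_right _ _) (le_max_right _ _)))⟩
  | nop x y c hx' hy' hc ihx ihy =>
    obtain ⟨N1, h1⟩ := ihx a ha
    obtain ⟨N2, h2⟩ := ihy a ha
    have hx : ∀ g ∈ Gen, ∃ N, Loc N x g := by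
      intro g hg
      obtain ⟨N, hN⟩ := ihx g (hG g hg)
      exact ⟨N, hN.symm⟩
    obtain ⟨N3, h3⟩ := ihy x hx
    set N := max N1 (max N2 N3) with hN
    exact ⟨3 * N + 1, loc_nop (built_isFld hf hx') (built_isFld hf hy') hc
      (h1.mono (le_max_left _ _))
      (h2.mono (le_trans (le_max_left _ _) (le_max_right _ _)))
      (h3.mono (le_trans (le_max_right _ _) (le_max_right _ _)))⟩

theorem built_cov {Gen : Set (ℤ → V →ₗ[ℂ] V)} (hf : ∀ g ∈ Gen, IsFld g) (T : V →ₗ[ℂ] V)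
    (hT : ∀ g ∈ Gen, Cov T T g) {b : ℤ → V →ₗ[ℂ] V} (hb : Built Gen b) : Cov T T b := by
  induction hb with
  | gen g hg => exact hT g hg
  | one =>
    intro n
    ext v
    by_cases h1 : n = -1
    · subst h1
      simp [idF]
    · by_cases h0 : n = 0
      · subst h0
        simp [idF]
      · have h2 : ¬ (n - 1 = -1) := by omega
        simp [idF, h1, h2]
  | add x y _ _ ihx ihy =>
    intro n
    have hx := ihx n
    have hy := ihy n
    rw [LinearMap.comp_add, LinearMap.add_comp, smul_add, ← hx, ← hy]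
    abel
  | smul c x _ ihx =>
    intro n
    have hx := ihx n
    rw [LinearMap.comp_smul, LinearMap.smul_comp, smul_comm, ← hx, smul_sub]
  | der x _ ihx => exact cov_der ihx
  | prod n x y _ _ ihx ihy => exact cov_prodN n ihx ihy
  | nop x y c hx hy hc ihx ihy =>
    exact cov_nop (built_isFld hf hx) (built_isFld hf hy) hc ihx ihy

theorem built_vac {Gen : Set (ℤ → V →ₗ[ℂ] V)} (v : V) (hv : ∀ g ∈ Gen, ∀ m : ℤ, 0 ≤ m → g m v = 0)
    {b : ℤ → V →ₗ[ℂ] V} (hb : Built Gen b) (m : ℤ) (hm : 0 ≤ m) : b m v = 0 := by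
  induction hb generalizing m with
  | gen g hg => exact hv g hg m hm
  | one => rw [idF, if_neg (by omega)]; rfl
  | add x y _ _ ihx ihy => rw [LinearMap.add_apply, ihx m hm, ihy m hm, add_zero]
  | smul c x _ ihx => rw [LinearMap.smul_apply, ihx m hm, smul_zero]
  | der x _ ihx => exact vac_der v ihx m hm
  | prod n x y _ _ ihx ihy => exact vac_prodN n v ihx ihy m hm
  | nop x y c _ _ hc ihx ihy => exact vac_nop hc v ihx ihy m hm

/-- If `W` is stable under all modes of `a` and `b`, it is stable under the modes of the products. -/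
theorem built_stable {Gen : Set (ℤ → V →ₗ[ℂ] V)} (W : Submodule ℂ V)
    (hW : ∀ g ∈ Gen, ∀ m : ℤ, ∀ w ∈ W, g m w ∈ W) {b : ℤ → V →ₗ[ℂ] V} (hb : Built Gen b)
    (m : ℤ) (w : V) (hw : w ∈ W) : b m w ∈ W := by
  induction hb generalizing m w with
  | gen g hg => exact hW g hg m w hw
  | one =>
    rw [idF]
    split_ifs
    · exact hw
    · exact W.zero_mem
  | add x y _ _ ihx ihy => exact W.add_mem (ihx m w hw) (ihy m w hw)
  | smul c x _ ihx => exact W.smul_mem c (ihx m w hw)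
  | der x _ ihx => exact W.smul_mem _ (ihx (m - 1) w hw)
  | prod n x y _ _ ihx ihy =>
    rw [prodN, LinearMap.sum_apply]
    refine W.sum_mem fun i _ => ?_
    rw [LinearMap.smul_apply, LinearMap.sub_apply, LinearMap.comp_apply, LinearMap.comp_apply]
    exact W.smul_mem _ (W.sub_mem (ihx _ _ (ihy _ _ hw)) (ihy _ _ (ihx _ _ hw)))
  | nop x y c _ _ hc ihx ihy =>
    obtain ⟨M0, h⟩ := hc m w
    rw [h M0 le_rfl]
    exact W.sum_mem fun i _ => W.add_mem (ihx _ _ (ihy _ _ hw)) (ihy _ _ (ihx _ _ hw))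

/-- Every vector obtained from the vacuum by modes of generators is `b (-1) v` for a built `b`. -/
theorem built_span {Gen : Set (ℤ → V →ₗ[ℂ] V)} (hf : ∀ g ∈ Gen, IsFld g) (v : V)
    (hv : ∀ g ∈ Gen, ∀ m : ℤ, 0 ≤ m → g m v = 0) (W : Submodule ℂ V)
    (hW : ∀ W' : Submodule ℂ V, v ∈ W' → (∀ g ∈ Gen, ∀ m : ℤ, ∀ w ∈ W', g m w ∈ W') → W ≤ W')
    (w : V) (hw : w ∈ W) : ∃ b, Built Gen b ∧ b (-1) v = w := by
  let W' : Submodule ℂ V :=
    { carrier := {w | ∃ b, Built Gen b ∧ b (-1) v = w}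
      add_mem' := by
        rintro x y ⟨b1, h1, e1⟩ ⟨b2, h2, e2⟩
        exact ⟨_, Built.add b1 b2 h1 h2, by rw [LinearMap.add_apply, e1, e2]⟩
      zero_mem' := ⟨_, Built.smul 0 idF Built.one, by rw [LinearMap.smul_apply, zero_smul]⟩
      smul_mem' := by
        rintro c x ⟨b1, h1, e1⟩
        exact ⟨_, Built.smul c b1 h1, by rw [LinearMap.smul_apply, e1]⟩ }
  have hle : W ≤ W' := by
    refine hW W' ⟨idF, Built.one, by simp [idF]⟩ ?_
    rintro g hg m w ⟨b, hb, rfl⟩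
    have hvg : ∀ m : ℤ, 0 ≤ m → g m v = 0 := hv g hg
    have hvb : ∀ m : ℤ, 0 ≤ m → b m v = 0 := fun m hm => built_vac v hv hb m hm
    by_cases hm : 0 ≤ m
    · obtain ⟨n, rfl⟩ := Int.eq_ofNat_of_zero_le hm
      exact ⟨_, Built.prod n g b (Built.gen g hg) hb, creation_prodN n v hvg hvb⟩
    · obtain ⟨k, hk⟩ : ∃ k : ℕ, m = -1 - k := ⟨(-1 - m).toNat, by omega⟩
      have hder : ∀ k : ℕ, Built Gen (der^[k] g) := by
        intro k
        induction k with
        | zero => exact Built.gen g hg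
        | succ k ih => rw [Function.iterate_succ_apply']; exact Built.der _ ih
      obtain ⟨c, hc⟩ := nop_exists (built_isFld hf (hder k)) (built_isFld hf hb)
      refine ⟨_, Built.smul ((k.factorial : ℂ)⁻¹) c (Built.nop _ b c (hder k) hb hc), ?_⟩
      rw [LinearMap.smul_apply, creation_nop hc v (fun m hm => built_vac v hv (hder k) m hm) hvb,
        iterate_der, LinearMap.smul_apply, smul_smul,
        inv_mul_cancel₀ (Nat.cast_ne_zero.mpr (Nat.factorial_ne_zero k)), one_smul, hk]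
  exact hle hw

end

end WPQ.AF
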