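import Pool.Agent.WPQ.AF2

/-! [WPQ-AF6] Uniqueness.

Plan.  `unique`: `K = {v | ∀ n, a n v = 0}` is a submodule containing the vacuum; it is stable under
`b n` for `(b,b') ∈ Gen`: for `v ∈ K` put `F m n = a m (b n v)`.  Locality applied to `v` gives
`∑_k (-1)^k C(N,k) F (m+N-k) (n+k) = 0` (the terms `b' (..) (a (..) v)` vanish), and `F m n = 0` for
`n ≥ n₀` (all `m`).  Downward induction on `n`: the term `k = 0` is `F (m+N) n`, all others have a larger
second argument.  `vac_of_creation`: `[T, a_n] v = -n a_{n-1} v` with `T v = 0` gives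
`a_{-1-k} v = 0` by induction from `a_{-1} v = 0`. -/

namespace WPQ.AF

noncomputable section

variable {V V' : Type} [AddCommGroup V] [Module ℂ V] [AddCommGroup V'] [Module ℂ V']

/-- The common kernel. -/
def af6_ker (a : ℤ → V →ₗ[ℂ] V') : Submodule ℂ V where
  carrier := {v | ∀ n, a n v = 0}
  add_mem' := by
    intro x y hx hy n
    rw [map_add, hx n, hy n, add_zero]
  zero_mem' := by
    intro n
    rw [map_zero]
  smul_mem' := by
    intro c x hx n
    rw [map_smul, hx n, smul_zero]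

theorem af6_mem (a : ℤ → V →ₗ[ℂ] V') (v : V) : v ∈ af6_ker a ↔ ∀ n, a n v = 0 := Iff.rfl

theorem af6_stable {N : ℕ} {a : ℤ → V →ₗ[ℂ] V'} {b : ℤ → V →ₗ[ℂ] V} {b' : ℤ → V' →ₗ[ℂ] V'}
    (hb : IsFld b) (hl : LocP N a b b') (w : V) (hw : ∀ n, a n w = 0) (m p : ℤ) :
    a p (b m w) = 0 := by
  obtain ⟨n0, hn0⟩ := hb w
  have key : ∀ j : ℕ, ∀ n : ℤ, n0 - j ≤ n → ∀ p : ℤ, a p (b n w) = 0 := by
    intro j
    induction j with
    | zero =>
      intro n hn p
      rw [hn0 n (by simpa using hn), map_zero]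
    | succ j ih =>
      intro n hn p
      have h := congrArg (fun f : V →ₗ[ℂ] V' => f w) (hl (p - N) n)
      simp only [LinearMap.sum_apply, LinearMap.smul_apply, LinearMap.sub_apply,
        LinearMap.comp_apply, LinearMap.zero_apply] at h
      rw [Finset.sum_range_succ'] at h
      rw [Finset.sum_eq_zero] at h
      · rw [hw, map_zero] at h
        simpa using h
      · intro k _
        rw [hw, map_zero, ih (n + ((k + 1 : ℕ) : ℤ)) (by push_cast at hn ⊢; omega), sub_zero,
          smul_zero]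
  refine key (n0 - m).toNat m ?_ p
  have := Int.self_le_toNat (n0 - m)
  linarith

theorem unique {Gen : Set ((ℤ → V →ₗ[ℂ] V) × (ℤ → V' →ₗ[ℂ] V'))} (hf : ∀ g ∈ Gen, IsFld g.1)
    (v : V) (hgen : ∀ W' : Submodule ℂ V, v ∈ W' →
      (∀ g ∈ Gen, ∀ m : ℤ, ∀ w ∈ W', g.1 m w ∈ W') → W' = ⊤)
    (a : ℤ → V →ₗ[ℂ] V') (ha : ∀ g ∈ Gen, ∃ N, LocP N a g.1 g.2) (h0 : ∀ n, a n v = 0) (n : ℤ) :
    a n = 0 := by
  have h := hgen (af6_ker a) h0 (by
    intro g hg m w hw p
    obtain ⟨N, hN⟩ := ha g hg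
    exact af6_stable (hf g hg) hN w hw m p)
  ext w
  have hw : w ∈ af6_ker a := by
    rw [h]
    exact Submodule.mem_top
  exact hw n

theorem vac_of_creation {T : V →ₗ[ℂ] V} {T' : V' →ₗ[ℂ] V'} {a : ℤ → V →ₗ[ℂ] V'}
    (ha : Cov T T' a) (v : V) (hT : T v = 0) (h : ∀ n : ℤ, 0 ≤ n → a n v = 0)
    (h1 : a (-1) v = 0) (n : ℤ) : a n v = 0 := by
  have key : ∀ k : ℕ, a (-1 - (k : ℤ)) v = 0 := by
    intro k
    induction k with
    | zero => simpa using h1
    | succ k ih =>
      have e := congrArg (fun f : V →ₗ[ℂ] V' => f v) (ha (-1 - (k : ℤ)))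
      simp only [LinearMap.smul_apply, LinearMap.sub_apply, LinearMap.comp_apply] at e
      rw [ih, hT, map_zero, map_zero, sub_zero] at e
      have e2 : (-1 - (k : ℤ) - 1) = -1 - ((k + 1 : ℕ) : ℤ) := by push_cast; ring
      rw [e2] at e
      have e3 := e.symm
      rw [smul_eq_zero] at e3
      rcases e3 with e3 | e3
      · exfalso
        push_cast at e3
        have e4 : (1 : ℂ) + k = 0 := by linear_combination e3
        have e5 : ((1 + k : ℕ) : ℂ) = 0 := by push_cast; exact e4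
        rw [Nat.cast_eq_zero] at e5
        omega
      · exact e3
  rcases lt_or_ge n 0 with hn | hn
  · have := key (-1 - n).toNat
    have e : ((-1 - n).toNat : ℤ) = -1 - n := Int.toNat_of_nonneg (by omega)
    rw [e] at this
    have e2 : -1 - (-1 - n) = n := by ring
    rwa [e2] at this
  · exact h n hn

/-- `(ad E)`-expansion: if `(br)^(k) a = 0` eventually, powers of `E` pass through `a`. -/
theorem pow_br (E : V →ₗ[ℂ] V) (E' : V' →ₗ[ℂ] V') (a : ℤ → V →ₗ[ℂ] V') (n : ℕ) (m : ℤ) (v : V) :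
    (E' ^ n) (a m v) = ∑ i ∈ Finset.range (n + 1),
      (n.choose i : ℂ) • ((br E E')^[n - i] a) m ((E ^ i) v) := by
  induction n with
  | zero => simp
  | succ n ih =>
    have step : ∀ (j i : ℕ), E' (((br E E')^[j] a) m ((E ^ i) v)) =
        ((br E E')^[j + 1] a) m ((E ^ i) v) + ((br E E')^[j] a) m ((E ^ (i + 1)) v) := by
      intro j i
      rw [Function.iterate_succ_apply', pow_succ' E i]
      simp only [br, LinearMap.sub_apply, LinearMap.comp_apply, Module.End.mul_apply]
      abel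
    rw [pow_succ' E' n, Module.End.mul_apply, ih, map_sum]
    have e1 : ∀ i ∈ Finset.range (n + 1),
        E' ((n.choose i : ℂ) • ((br E E')^[n - i] a) m ((E ^ i) v)) =
        (n.choose i : ℂ) • ((br E E')^[n + 1 - i] a) m ((E ^ i) v) +
        (n.choose i : ℂ) • ((br E E')^[n - i] a) m ((E ^ (i + 1)) v) := by
      intro i hi
      rw [Finset.mem_range] at hi
      have e2 : n + 1 - i = n - i + 1 := by omega
      rw [map_smul, step, smul_add, e2]
    rw [Finset.sum_congr rfl e1, Finset.sum_add_distrib,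
      Finset.sum_range_succ' (fun i => ((n + 1).choose i : ℂ) •
        ((br E E')^[n + 1 - i] a) m ((E ^ i) v)) (n + 1)]
    have e3 : ∀ i ∈ Finset.range (n + 1),
        ((n + 1).choose (i + 1) : ℂ) • ((br E E')^[n + 1 - (i + 1)] a) m ((E ^ (i + 1)) v) =
        (n.choose i : ℂ) • ((br E E')^[n - i] a) m ((E ^ (i + 1)) v) +
        (n.choose (i + 1) : ℂ) • ((br E E')^[n + 1 - (i + 1)] a) m ((E ^ (i + 1)) v) := by
      intro i _
      have e4 : n + 1 - (i + 1) = n - i := by omega
      rw [Nat.choose_succ_succ, Nat.cast_add, add_smul, e4]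
    rw [Finset.sum_congr rfl e3, Finset.sum_add_distrib]
    have e5 : ∑ i ∈ Finset.range (n + 1),
        (n.choose (i + 1) : ℂ) • ((br E E')^[n + 1 - (i + 1)] a) m ((E ^ (i + 1)) v) +
        ((n + 1).choose 0 : ℂ) • ((br E E')^[n + 1 - 0] a) m ((E ^ 0) v) =
        ∑ i ∈ Finset.range (n + 1),
          (n.choose i : ℂ) • ((br E E')^[n + 1 - i] a) m ((E ^ i) v) := by
      have e6 := Finset.sum_range_succ' (fun i => (n.choose i : ℂ) •
        ((br E E')^[n + 1 - i] a) m ((E ^ i) v)) (n + 1)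
      rw [Finset.sum_range_succ] at e6
      simp only [Nat.choose_succ_self, Nat.cast_zero, zero_smul, add_zero] at e6
      rw [e6]
      simp
    rw [add_assoc, e5]
    abel

end

end WPQ.AF
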