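import Pool.Agent.WPQ.AS1

/-! [WPQ-AS2] Part C.

Plan.  As `mainB` in PV4.lean, with `l ≥ 2`, `p ≥ 2`, `A = cartanA l` (`cartanA_ade`), `N0 = max (C1 p²) 6` (`C1`
from `img_eq_eff`), `S` = the union over `0 ≤ n ≤ N0` of finite spanning sets of `pv4_Prim n`.  Let `T` be given,
`X = span {monomials in T}`; `Wk ε ≤ X` by hypothesis.  Strong induction: `Wn n ≤ X`.  `n ≤ N0`: `as_dec`:
`pv4_Prim n ≤ X` as in `mainB`; `II n ≤ X` (`pv4_transl`, `pv4_LS`, induction); `DD n ≤ X`: `u ∈ Prim0 m` with `m ≤ 6 ≤ N0`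
is in the span of `S`, `w ∈ Wn (n - m + s + 1) ≤ X` by induction (`n - m + s + 1 ≤ n - 3`), `fi2_step` with
`j = (-s).toNat ≥ 1`; `Wk ε ⊓ Vn n ≤ X`.  `n > N0`: `Wn n = Img n` as in `mainB`. -/

namespace WPQ

open MvPolynomial AF

noncomputable section

theorem mainC : MainC := by
  intro l hl p hp
  classical
  have hA : IsADE (cartanA l) := cartanA_ade l
  have hp1 : 1 ≤ p := by omega
  obtain ⟨D, lam, hD, hlam⟩ := exists_lam hA
  have hdom : ∀ i, Dom (cartanA l) (lam i) := by
    intro i j
    rw [hlam]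
    split_ifs
    · exact hD.le
    · exact le_rfl
  have hne : ∀ i, lam i ≠ 0 := by
    intro i h
    have h1 := hlam i i
    rw [h, if_pos rfl] at h1
    simp [pr] at h1
    omega
  obtain ⟨C1, hC1, himg0⟩ := img_eq_eff (cartanA l) hA lam D hD hlam
  refine ⟨omegaV_mem hA hp, fun ε => ?_⟩
  obtain ⟨hNΔ, himg⟩ := himg0 p hp ε
  set N0 : ℤ := max ((C1 : ℤ) * (p : ℤ) ^ 2) 6 with hN0
  have hN1 : (C1 : ℤ) * (p : ℤ) ^ 2 ≤ N0 := le_max_left _ _
  have hN6 : (6 : ℤ) ≤ N0 := le_max_right _ _
  choose B hB using fun n : ℤ => pv4_fin (A := cartanA l) (p := p) hA hp1 n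
  set S : Finset (VL (Fin l)) := (Finset.Icc 0 N0).biUnion B with hS
  have hSmem : ∀ n, 0 ≤ n → n ≤ N0 → ∀ u ∈ pv4_Prim (cartanA l) p n,
      u ∈ Submodule.span ℂ (S : Set (VL (Fin l))) := by
    intro n h1 h2 u hu
    rw [← hB n] at hu
    refine Submodule.span_mono ?_ hu
    intro x hx
    exact Finset.mem_coe.2 (Finset.mem_biUnion.2 ⟨n, Finset.mem_Icc.2 ⟨h1, h2⟩, hx⟩)
  have hvW : (vac : VL (Fin l)) ∈ W (cartanA l) p := vac_mem_W hA hp1
  have hv0 : (vac : VL (Fin l)) ∈ Vn (cartanA l) p 0 := fi2_vac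
  refine ⟨S, ?_, ?_⟩
  · intro u hu
    obtain ⟨n, _, hun⟩ := Finset.mem_biUnion.1 hu
    have hu' : u ∈ pv4_Prim (cartanA l) p n := by
      rw [← hB n]
      exact Submodule.subset_span hun
    rw [pv4_mem] at hu'
    exact ⟨hu'.1.1, ⟨n, isHomog_of_mem n u hu'.1.2⟩, (isPrimary_iff hA hp1 ε u).2 hu'.2⟩
  intro T hωT hST hTW hWk
  unfold StronglyGenerates
  refine le_antisymm ?_ ?_
  · rw [Submodule.span_le]
    intro w hw
    induction hw with
    | one => exact hvW
    | step u hu j hj w hw ih => exact W_closed hA hp ε u w (hTW hu) ih _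
  -- the other inclusion
  set X : Submodule ℂ (VL (Fin l)) := Submodule.span ℂ {w | Monomial ε T w} with hX
  have hvX : (vac : VL (Fin l)) ∈ X := Submodule.subset_span Monomial.one
  have key : ∀ k : ℕ, ∀ n : ℤ, n < k → Wn (cartanA l) p n ≤ X := by
    intro k
    induction k with
    | zero =>
      intro n hn
      rw [Wn_neg hA hp n (by simpa using hn)]
      exact bot_le
    | succ k ih =>
      intro n hn
      by_cases hlt : n < 0
      · rw [Wn_neg hA hp n hlt]
        exact bot_le
      push Not at hlt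
      by_cases hnN : n ≤ N0
      · refine (as_dec l p hl hp ε n).trans (sup_le (sup_le (sup_le ?_ ?_) ?_) ?_)
        · intro x hx
          have hxS := hSmem n hlt hnN x hx
          have h3 := fi2_step hA hp1 ε (S : Set (VL (Fin l))) T hST x hxS 1 le_rfl vac hvX
          rw [Nat.cast_one, mode_neg_one_vac hA hp1] at h3
          exact h3
        · unfold II
          refine sup_le ?_ ?_
          · rw [Submodule.map_le_iff_le_comap]
            intro y hy
            exact pv4_transl hA hp1 ε T y (ih (n - 1) (by push_cast at hn; omega) hy)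
          · rw [Submodule.map_le_iff_le_comap]
            intro z hz
            exact pv4_LS hA hp1 ε T hωT 2 le_rfl z (ih (n - 2) (by push_cast at hn; omega) hz)
        · unfold DD
          rw [Submodule.span_le]
          rintro v ⟨m, u, w, s, hm, hu, hs, hw, rfl⟩
          have hm3 : 3 ≤ m ∧ m ≤ 6 := by omega
          have huS := hSmem (m : ℤ) (by omega) (by omega) u hu.1
          have hwX : w ∈ X := by
            refine ih _ ?_ hw
            push_cast at hn
            omega
          obtain ⟨j, hj⟩ : ∃ j : ℕ, s = -(j : ℤ) := ⟨(-s).toNat, by omega⟩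
          have h2 := fi2_step hA hp1 ε (S : Set (VL (Fin l))) T hST u huS j (by omega) w hwX
          rw [hj]
          exact h2
        · intro v hv
          exact hWk hv.1
      · push Not at hnN
        rw [← himg n (lt_of_le_of_lt hN1 hnN)]
        unfold Img
        rw [Submodule.span_le]
        rintro x (⟨i, js, s, w, hs, hw, rfl⟩ | ⟨j, w, hj, hw, rfl⟩)
        · have hΔ : 1 ≤ wtExp (cartanA l) p (-lam i) := wtExp_pos hA hp1 (lam i) (hdom i) (hne i)
          have hwX : w ∈ X := by
            refine ih _ ?_ hw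
            push_cast at hn
            omega
          have hu : Ew ε (Shift.zero (cartanA l) p) js (Finsupp.single (-lam i) 1) ∈
              Wn (cartanA l) p (wtExp (cartanA l) p (-lam i)) := by
            rw [← cS_creation]
            refine ⟨cS_mem_W hA hp ε (lam i) (hdom i) js (-1) vac hvW, ?_⟩
            have h1 := cS_Vn hA ε (lam i) js (-1) 0 vac hv0
            have e : 0 + wtExp (cartanA l) p (-lam i) - (-1) - 1 = wtExp (cartanA l) p (-lam i) := by
              ring
            rw [e] at h1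
            exact h1
          have h1 := hSmem _ (by omega) ((hNΔ i).trans hN1) _ ((pv4_mem _ _).2 ⟨hu,
            pv4_Ew hA hp1 ε (lam i) js 1 one_pos, pv4_Ew hA hp1 ε (lam i) js 2 two_pos⟩)
          have h2 := fi2_step hA hp1 ε (S : Set (VL (Fin l))) T hST _ h1 s hs w hwX
          rw [mode_cS hA hp1] at h2
          exact h2
        · have hwX : w ∈ X := by
            refine ih _ ?_ hw
            push_cast at hn
            omega
          exact pv4_LS hA hp1 ε T hωT j hj w hwX
  refine W_span X ?_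
  intro γ f d hf hW
  have hmem : Finsupp.single γ f ∈ Wn (cartanA l) p ((d : ℤ) + wtExp (cartanA l) p γ) :=
    ⟨hW, single_mem_Vn γ f d hf _ rfl⟩
  refine key ((d : ℤ) + wtExp (cartanA l) p γ + 1).toNat _ ?_ hmem
  omega

end

end WPQ
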