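import Pool.Agent.WPQ.CY9c

/-! [WPQ-CY10] Consequences of cyclicity.

`Mn_mode`: `W_closed`, `mode_charge`, `E_j^m (c_s a) = c_s (E_j^m a)` (`Ej_mode`, `E_j c = 0`).
`Mn_transl`: `transl = LS zero (-1)` commutes with `E_j` (`LS_Ej`), preserves `W` and charges.
`Mn_le_of_stable`: `Mn_le_PP`; `PP ≤ N` on generators.
`PP_le_Mn`: `lwv_Mn`, `Mn_mode`, `Mn_transl`.
`Mn_add`: by `Mn_le_of_stable` it is enough that the span `N` of the `a_k b`, `a ∈ Mn lam`, `b ∈ Mn mu`, contains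
`lwv (lam+mu)` and is stable under `transl` and `c_s`, `c ∈ Wk`.  `1_{-lam-mu}` is `±` the mode `s = -1 - formZ(lam,mu)`
of `1_{-lam}` on `1_{-mu}` (`mode_single`, `expMode`, `vop` on `1` at the exponent `0` is `1`).
`T (a_k b) = (T a)_k b + a_k (T b)` (`translation` of `mode_spec`: `[T, a_k] = -k a_{k-1}`, and `mode_transl`:
`(T a)_k = -k a_{k-1}`).  `c_s (a_k b) = a_k (c_s b) + ∑_j C(s,j) (c_j a)_{s+k-j} b` (`mode_comm`, `mode_trunc`).
`Mn_add_homog`: for `f ∈ Vn n`: the pure `a_k b` may be taken homogeneous: `Mn_comp`, `mode_Wn`, and then take the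
weight `n` part of the sum (the components of other weights cancel; directness of the sum of the `Vn n`, e.g.
eigenvectors of `LS zero 0` for different eigenvalues). -/

namespace WPQ

open MvPolynomial WK GA

noncomputable section

variable {ι : Type} [Fintype ι] [DecidableEq ι] {A : Matrix ι ι ℤ} {p : ℕ}

theorem cy10_comm (hA : IsADE A) (hp : 2 ≤ p) (ε : Cocycle A p) (s : ℤ) (c : VL ι) (hc : c ∈ Wk ε)
    (j : ι) (k : ℕ) (a : VL ι) : (Ej ε (Shift.zero A p) j ^ k) (mode ε c s a) =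
      mode ε c s ((Ej ε (Shift.zero A p) j ^ k) a) := by
  have h0 : Ej ε (Shift.zero A p) j c = 0 := by
    rw [Ej_eq hA (by omega)]
    exact hc.2.2 j
  have h1 := Ej_mode hA (by omega : 1 ≤ p) ε j c s
  rw [h0, va3_mode_zero hA (by omega : 1 ≤ p)] at h1
  have h2 : Commute (Ej ε (Shift.zero A p) j : Module.End ℂ (VL ι)) (mode ε c s) :=
    sub_eq_zero.1 h1
  exact congrArg (fun T : Module.End ℂ (VL ι) => T a) (h2.pow_left k).eq

theorem Mn_mode (hA : IsADE A) (hp : 2 ≤ p) (ε : Cocycle A p) (nu : ι → ℤ) (s : ℤ) (c a : VL ι)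
    (hc : c ∈ Wk ε) (ha : a ∈ Mn ε nu) : mode ε c s a ∈ Mn ε nu := by
  rw [mem_Mn] at ha ⊢
  refine ⟨W_closed hA hp ε c a hc.1 ha.1 s, ?_, fun j => ?_⟩
  · have h1 := mode_charge hA (by omega : 1 ≤ p) ε 0 (-nu) s c a (va4_mem_supp 0 c hc.2.1) ha.2.1
    rwa [zero_add] at h1
  · rw [cy10_comm hA hp ε s c hc, ha.2.2 j, map_zero]

theorem Mn_transl (hA : IsADE A) (hp : 2 ≤ p) (ε : Cocycle A p) (nu : ι → ℤ) (a : VL ι)
    (ha : a ∈ Mn ε nu) : transl a ∈ Mn ε nu := by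
  rw [← LS_zero_neg_one (A := A) (p := p)]
  rw [mem_Mn] at ha ⊢
  refine ⟨W_LS hA (by omega) (-1) a ha.1, va4_mem_supp _ _ fun δ hδ => ?_, fun j => ?_⟩
  · have h1 := LS_comp (A := A) (p := p) (-1) a δ
    rw [va4_supp _ _ ha.2.1 δ hδ, Finsupp.single_zero, map_zero] at h1
    exact Finsupp.single_eq_zero.1 h1
  · have h1 : Commute (Ej ε (Shift.zero A p) j : Module.End ℂ (VL ι))
        (LS (Shift.zero A p) (-1)) := (LS_Ej hA (by omega) ε (Shift.zero A p) j (-1)).symm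
    have h2 := congrArg (fun T : Module.End ℂ (VL ι) => T a)
      (h1.pow_left ((pr A j nu).toNat + 1)).eq
    have h3 : (Ej ε (Shift.zero A p) j ^ ((pr A j nu).toNat + 1))
        (LS (Shift.zero A p) (-1) a) = LS (Shift.zero A p) (-1)
          ((Ej ε (Shift.zero A p) j ^ ((pr A j nu).toNat + 1)) a) := h2
    rw [h3, ha.2.2 j, map_zero]

theorem Mn_le_of_stable (hA : IsADE A) (hp : 2 ≤ p) (ε : Cocycle A p) (nu : ι → ℤ)
    (hd : Dom A nu) (N : Submodule ℂ (VL ι)) (h1 : lwv nu ∈ N) (hT : ∀ x ∈ N, transl x ∈ N)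
    (hm : ∀ c ∈ Wk ε, ∀ s : ℤ, ∀ x ∈ N, mode ε c s x ∈ N) : Mn ε nu ≤ N := by
  refine (Mn_le_PP hA hp ε nu hd).trans ?_
  unfold PP
  rw [Submodule.span_le]
  rintro x ⟨c, hc, s, l, rfl⟩
  rw [SetLike.mem_coe]
  have h2 := hm c hc s _ h1
  have h3 : ∀ l : ℕ, Tp l (mode ε c s (lwv nu)) ∈ N := by
    intro l
    induction l with
    | zero =>
      unfold Tp
      rw [pow_zero]
      exact h2
    | succ l ih =>
      have e : (Tp (l + 1) (mode ε c s (lwv nu)) : VL ι) = transl (Tp l (mode ε c s (lwv nu))) := by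
        unfold Tp
        rw [pow_succ', Module.End.mul_apply]
      rw [e]
      exact hT _ ih
  exact h3 l

/-- `T` is a derivation. -/
theorem cy10_der (hA : IsADE A) (hp : 1 ≤ p) (ε : Cocycle A p) (a b : VL ι) (k : ℤ) :
    transl (mode ε a k b) = mode ε (transl a) k b + mode ε a k (transl b) := by
  have h1 := congrArg (fun T : VL ι →ₗ[ℂ] VL ι => T b) ((mode_spec hA hp ε a).translation k)
  simp only [LinearMap.sub_apply, LinearMap.comp_apply, LinearMap.smul_apply] at h1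
  rw [mode_transl hA hp, LinearMap.smul_apply, ← h1]
  abel

/-- The set of the `a_k b`. -/
theorem cy10_lwv (hA : IsADE A) (hp : 2 ≤ p) (ε : Cocycle A p) (lam mu : ι → ℤ) :
    ∃ (s : ℤ) (c : ℂ), lwv (lam + mu) = c • mode ε (lwv lam) s (lwv mu) := by
  refine ⟨-1 - formZ A p (-lam) (-mu), ((ε.ε (-lam) (-mu) : ℤ) : ℂ), ?_⟩
  unfold lwv
  rw [mode_single hA (by omega)]
  unfold expMode
  rw [Finsupp.lsum_single, LinearMap.comp_apply, LinearMap.smul_apply, vop_one]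
  have e1 : (-(-1 - formZ A p (-lam) (-mu)) - 1 - formZ A p (-lam) (-mu)) = 0 := by ring
  rw [e1]
  have e2 : expCoeffZ (toC (-lam)) 0 = 1 := by
    unfold expCoeffZ
    rw [if_neg (lt_irrefl 0)]
    have e3 : (0 : ℤ).toNat = 0 := rfl
    rw [e3, expCoeff]
  rw [e2, Finsupp.lsingle_apply, Finsupp.smul_single, smul_smul]
  have e4 : (((ε.ε (-lam) (-mu) : ℤ) : ℂ) * ((ε.ε (-lam) (-mu) : ℤ) : ℂ)) = 1 := by
    rcases Int.units_eq_one_or (ε.ε (-lam) (-mu)) with h | h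
    · rw [h]
      norm_num
    · rw [h]
      norm_num
  rw [e4, one_smul, neg_add]

omit [DecidableEq ι] in
theorem cy10_dom (lam mu : ι → ℤ) (hl : Dom A lam) (hm : Dom A mu) : Dom A (lam + mu) := by
  intro j
  rw [vp1_pr_add]
  exact add_nonneg (hl j) (hm j)

theorem Mn_add (hA : IsADE A) (hp : 2 ≤ p) (ε : Cocycle A p) (lam mu : ι → ℤ) (hl : Dom A lam)
    (hm : Dom A mu) : Mn ε (lam + mu) ≤
      Submodule.span ℂ {x | ∃ a ∈ Mn ε lam, ∃ b ∈ Mn ε mu, ∃ k : ℤ, x = mode ε a k b} := by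
  set N := Submodule.span ℂ {x | ∃ a ∈ Mn ε lam, ∃ b ∈ Mn ε mu, ∃ k : ℤ, x = mode ε a k b}
    with hN
  have hmem : ∀ a ∈ Mn ε lam, ∀ b ∈ Mn ε mu, ∀ k : ℤ, mode ε a k b ∈ N :=
    fun a ha b hb k => Submodule.subset_span ⟨a, ha, b, hb, k, rfl⟩
  refine Mn_le_of_stable hA hp ε (lam + mu) (cy10_dom lam mu hl hm) N ?_ ?_ ?_
  · obtain ⟨s, c, h⟩ := cy10_lwv hA hp ε lam mu
    rw [h]
    exact Submodule.smul_mem _ _ (hmem _ (lwv_Mn hA hp ε lam hl) _ (lwv_Mn hA hp ε mu hm) s)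
  · intro x hx
    have h1 : N ≤ N.comap (transl : VL ι →ₗ[ℂ] VL ι) := by
      rw [hN, Submodule.span_le, ← hN]
      rintro x ⟨a, ha, b, hb, k, rfl⟩
      rw [SetLike.mem_coe, Submodule.mem_comap, cy10_der hA (by omega)]
      exact add_mem (hmem _ (Mn_transl hA hp ε lam a ha) _ hb k)
        (hmem _ ha _ (Mn_transl hA hp ε mu b hb) k)
    exact h1 hx
  · intro c hc s x hx
    have h1 : N ≤ N.comap (mode ε c s) := by
      rw [hN, Submodule.span_le, ← hN]
      rintro x ⟨a, ha, b, hb, k, rfl⟩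
      rw [SetLike.mem_coe, Submodule.mem_comap]
      obtain ⟨M, hM⟩ := mode_trunc hA (by omega : 1 ≤ p) ε c a
      have h2 := congrArg (fun T : VL ι →ₗ[ℂ] VL ι => T b)
        (mode_comm hA (by omega : 1 ≤ p) ε c a M (fun j hj => hM j (by exact_mod_cast hj)) s k)
      simp only [LinearMap.sub_apply, LinearMap.comp_apply, LinearMap.sum_apply,
        LinearMap.smul_apply] at h2
      rw [sub_eq_iff_eq_add.1 h2]
      refine add_mem (Submodule.sum_mem _ fun j _ => Submodule.smul_mem _ _ ?_) ?_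
      · exact hmem _ (Mn_mode hA hp ε lam j c a hc ha) _ hb _
      · exact hmem _ ha _ (Mn_mode hA hp ε mu s c b hc hb) k
    exact h1 hx

/-- Directness of the sum of the weight spaces. -/
theorem cy10_direct (hA : IsADE A) (hp : 1 ≤ p) (s : Finset ℤ) (y : ℤ → VL ι)
    (hy : ∀ m, y m ∈ Vn A p m) (h : ∑ m ∈ s, y m = 0) : ∀ m ∈ s, y m = 0 := by
  classical
  intro m hm
  have h1 := comp_mem (ι := Unit) (M := VL ι) (G := fun _ => LS (Shift.zero A p) 0) ⊥
    (fun _ v hv => by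
      rw [(Submodule.mem_bot ℂ).1 hv, map_zero]
      exact zero_mem _)
    (s.image fun n => fun _ : Unit => n) (fun g => y (g ()))
    (fun g _ => (mem_Vn_iff hA hp (g ()) (y (g ()))).1 (hy (g ())))
    (by
      rw [Finset.sum_image]
      · rw [h]
        exact zero_mem _
      · intro a _ b _ hab
        exact congrFun hab ())
    (fun _ => m) (Finset.mem_image_of_mem _ hm)
  exact (Submodule.mem_bot ℂ).1 h1

theorem Mn_add_homog (hA : IsADE A) (hp : 2 ≤ p) (ε : Cocycle A p) (lam mu : ι → ℤ)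
    (hl : Dom A lam) (hm : Dom A mu) (n : ℤ) (f : VL ι) (hf : f ∈ Mn ε (lam + mu))
    (hfn : f ∈ Vn A p n) : f ∈ Submodule.span ℂ {x | ∃ h h' : ℤ, ∃ a ∈ Mn ε lam, a ∈ Vn A p h ∧
      ∃ b ∈ Mn ε mu, b ∈ Vn A p h' ∧ ∃ k : ℤ, h + h' - k - 1 = n ∧ x = mode ε a k b} := by
  classical
  have hp1 : 1 ≤ p := by omega
  let S : ℤ → Submodule ℂ (VL ι) := fun n => Submodule.span ℂ {x | ∃ h h' : ℤ,
    ∃ a ∈ Mn ε lam, a ∈ Vn A p h ∧ ∃ b ∈ Mn ε mu, b ∈ Vn A p h' ∧
      ∃ k : ℤ, h + h' - k - 1 = n ∧ x = mode ε a k b}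
  have hSV : ∀ n, S n ≤ Vn A p n := by
    intro n
    refine Submodule.span_le.2 ?_
    rintro x ⟨h, h', a, _, ha, b, _, hb, k, hk, rfl⟩
    rw [← hk]
    exact mode_Vn hA hp1 ε h h' k a b ha hb
  have hsum : ∀ x ∈ Submodule.span ℂ {x | ∃ a ∈ Mn ε lam, ∃ b ∈ Mn ε mu, ∃ k : ℤ,
      x = mode ε a k b}, x ∈ ⨆ n, S n := by
    intro x hx
    have h1 : Submodule.span ℂ {x | ∃ a ∈ Mn ε lam, ∃ b ∈ Mn ε mu, ∃ k : ℤ,
        x = mode ε a k b} ≤ ⨆ n, S n := by
      rw [Submodule.span_le]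
      rintro x ⟨a, ha, b, hb, k, rfl⟩
      obtain ⟨s, fa, hfa, rfl⟩ := Mn_comp hA hp ε lam a ha
      obtain ⟨t, fb, hfb, rfl⟩ := Mn_comp hA hp ε mu b hb
      have e : mode ε (∑ n ∈ s, fa n) k (∑ m ∈ t, fb m) =
          ∑ n ∈ s, ∑ m ∈ t, mode ε (fa n) k (fb m) := by
        have e1 : ∀ (s : Finset ℤ), mode ε (∑ n ∈ s, fa n) k = ∑ n ∈ s, mode ε (fa n) k := by
          intro s
          induction s using Finset.induction_on with
          | empty => rw [Finset.sum_empty, Finset.sum_empty, va3_mode_zero hA hp1]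
          | insert a s has ih =>
            rw [Finset.sum_insert has, Finset.sum_insert has, mode_add hA hp1, ih]
        rw [e1, LinearMap.sum_apply]
        exact Finset.sum_congr rfl fun n _ => map_sum _ _ _
      rw [SetLike.mem_coe, e]
      refine Submodule.sum_mem _ fun n _ => Submodule.sum_mem _ fun m _ => ?_
      refine Submodule.mem_iSup_of_mem (n + m - k - 1) (Submodule.subset_span ?_)
      exact ⟨n, m, fa n, (hfa n).1, (hfa n).2, fb m, (hfb m).1, (hfb m).2, k, rfl, rfl⟩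
    exact h1 hx
  have hf1 := hsum f (Mn_add hA hp ε lam mu hl hm hf)
  obtain ⟨g, hg, hgf⟩ := (Submodule.mem_iSup_iff_exists_finsupp S f).1 hf1
  -- `f = ∑ g m`, `g m ∈ S m`
  let y : ℤ → VL ι := fun m => if m = n then g m - f else g m
  have hy : ∀ m, y m ∈ Vn A p m := by
    intro m
    by_cases hmn : m = n
    · simp only [y, if_pos hmn]
      subst hmn
      exact sub_mem (hSV _ (hg _)) hfn
    · simp only [y, if_neg hmn]
      exact hSV _ (hg _)
  have hys : ∑ m ∈ insert n g.support, y m = 0 := by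
    have e1 : ∑ m ∈ insert n g.support, y m =
        ∑ m ∈ insert n g.support, (g m - if m = n then f else 0) := by
      refine Finset.sum_congr rfl fun m _ => ?_
      simp only [y]
      split_ifs
      · rfl
      · rw [sub_zero]
    rw [e1, Finset.sum_sub_distrib, Finset.sum_ite_eq' (insert n g.support) n,
      if_pos (Finset.mem_insert_self _ _), sub_eq_zero, ← hgf, Finsupp.sum]
    symm
    refine Finset.sum_subset (Finset.subset_insert _ _) fun m _ hm => ?_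
    exact Finsupp.notMem_support_iff.1 hm
  have h0 := cy10_direct hA hp1 _ y hy hys n (Finset.mem_insert_self _ _)
  simp only [y, if_pos rfl] at h0
  rw [← sub_eq_zero.1 h0]
  exact hg n

end

end WPQ
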