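import Pool.Agent.WPQ.ASG
import Pool.Agent.WPQ.CY10

/-! [WPQ-ASG2] Full Q1, assembly: `T ∪ {ω}` can be replaced by `T`. -/

namespace WPQ

open MvPolynomial AF GA

noncomputable section

variable {ι : Type} [Fintype ι] [DecidableEq ι] {A : Matrix ι ι ℤ} {p : ℕ}

theorem asg_omega (hA : IsADE A) (hp : 2 ≤ p) : omega A p ∈ Wn A p 2 := by
  have hp1 : 1 ≤ p := by omega
  refine ⟨W_LS hA hp1 (-2) vac (vac_mem_W hA hp1), ?_⟩
  have h1 := LS_Vn (-2) 0 vac (fi2_vac (A := A) (p := p))
  have e : (0 : ℤ) - (-2) = 2 := by norm_num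
  rw [e] at h1
  exact h1

theorem asg_unique (hA : IsADE A) (hp : 1 ≤ p) (a b : ℤ) (v : VL ι) (ha : v ∈ Vn A p a)
    (hb : v ∈ Vn A p b) (h0 : v ≠ 0) : a = b := by
  have h1 := wt_unique (G := fun _ : Unit => LS (Shift.zero A p) 0) v h0 (fun _ => a) (fun _ => b)
    (fun _ => (mem_Vn_iff hA hp a v).1 ha) (fun _ => (mem_Vn_iff hA hp b v).1 hb)
  exact congrFun h1 ()

/-- The part of weight `n` of a span of homogeneous vectors. -/
theorem asg_part (hA : IsADE A) (hp : 1 ≤ p) (B : Set (VL ι)) (hB : ∀ t ∈ B, ∃ n, t ∈ Vn A p n)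
    (n : ℤ) (v : VL ι) (hv : v ∈ Submodule.span ℂ B) (hn : v ∈ Vn A p n) :
    v ∈ Submodule.span ℂ {t | t ∈ B ∧ t ∈ Vn A p n} := by
  have h1 := wt_span (G := fun _ : Unit => LS (Shift.zero A p) 0) B
    (fun t ht => by
      obtain ⟨m, hm⟩ := hB t ht
      exact ⟨fun _ => m, fun _ => (mem_Vn_iff hA hp m t).1 hm⟩) v hv (fun _ => n)
    (fun _ => (mem_Vn_iff hA hp n v).1 hn)
  refine Submodule.span_mono ?_ h1
  rintro t ⟨h2, h3⟩
  exact ⟨h2, (mem_Vn_iff hA hp n t).2 (h3 ())⟩

theorem asg_step (hA : IsADE A) (hp : 2 ≤ p) (ε : Cocycle A p) (T : Set (VL ι))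
    (hTW : T ⊆ (W A p : Set (VL ι))) (hTh : ∀ u ∈ T, ∃ n, IsHomog A p n u)
    (hω : omegaV A p ∈ Submodule.span ℂ {w | Monomial ε T w}) (n : ℤ)
    (hout : ∀ m : ℤ, m < n → Wn A p m ≤ Submodule.span ℂ {w | Monomial ε T w}) (w : VL ι)
    (hw : Monomial ε (insert (omegaV A p) T) w) (hn : w ∈ Wn A p n) :
    w ∈ Submodule.span ℂ {w | Monomial ε T w} := by
  have hp1 : 1 ≤ p := by omega
  have hωn : omegaV A p ∈ Wn A p 2 := by
    rw [omegaV_eq]
    exact asg_omega hA hp
  have hTW' : insert (omegaV A p) T ⊆ (W A p : Set (VL ι)) := by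
    intro x hx
    rcases Set.mem_insert_iff.1 hx with rfl | h
    · exact hωn.1
    · exact hTW h
  have hTh' : ∀ u ∈ insert (omegaV A p) T, ∃ n, IsHomog A p n u := by
    intro x hx
    rcases Set.mem_insert_iff.1 hx with rfl | h
    · exact ⟨2, isHomog_of_mem 2 _ hωn.2⟩
    · exact hTh x h
  induction hw with
  | one => exact Submodule.subset_span Monomial.one
  | step u hu j hj w hw ih =>
    obtain ⟨a, ha⟩ := asg_hom hA hp ε _ hTW' hTh' w hw
    obtain ⟨h, hh⟩ := hTh' u hu
    have huW : u ∈ Wn A p h := ⟨hTW' hu, asg_Vn h u hh⟩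
    by_cases hw0 : mode ε u (-(j : ℤ)) w = 0
    · rw [hw0]
      exact Submodule.zero_mem _
    have hwt := mode_Wn hA hp ε h a (-(j : ℤ)) u w huW ha
    have hnn := asg_unique hA hp1 _ _ _ hwt.2 hn.2 hw0
    by_cases hh0 : h < 1
    · have hu0 : ∃ c : ℂ, u = c • vac := by
        by_cases hneg : h < 0
        · refine ⟨0, ?_⟩
          rw [Wn_neg hA hp h hneg, Submodule.mem_bot] at huW
          rw [huW, zero_smul]
        · have e : h = 0 := by omega
          rw [e] at huW
          exact Wn_zero hA hp u huW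
      obtain ⟨c, rfl⟩ := hu0
      by_cases hi1 : j = 1
      · subst hi1
        have e : mode ε (c • (vac : VL ι)) (-((1 : ℕ) : ℤ)) w = c • w := by
          rw [mode_smul hA hp1, mode_vac hA hp1, if_pos (by norm_num), LinearMap.smul_apply]
          rfl
        rw [e] at hw0 hn ⊢
        have hc : c ≠ 0 := by
          intro hc
          rw [hc, zero_smul] at hw0
          exact hw0 rfl
        refine Submodule.smul_mem _ _ (ih ?_)
        have h2 := Submodule.smul_mem _ c⁻¹ hn
        rwa [smul_smul, inv_mul_cancel₀ hc, one_smul] at h2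
      · exfalso
        apply hw0
        rw [mode_smul hA hp1, mode_vac hA hp1, if_neg (by omega), smul_zero, LinearMap.zero_apply]
    have hwX := hout a (by omega) ha
    rcases Set.mem_insert_iff.1 hu with rfl | huT
    · -- `u = ω`
      have h2 := asg_part hA hp1 {w | Monomial ε T w} (fun t ht => by
        obtain ⟨b, hb⟩ := asg_hom hA hp ε T hTW hTh t ht
        exact ⟨b, hb.2⟩) 2 (omegaV A p) hω hωn.2
      refine tl8_mem' hA hp1 ε (-(j : ℤ)) w (omegaV A p) _ ?_
      refine (Submodule.span_le.2 ?_) h2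
      rintro t ⟨ht, ht2⟩
      refine tl8_mem hA hp1 ε (-(j : ℤ)) w t _ ?_
      by_cases ht0 : t = 0
      · rw [ht0, tl8_mode_zero hA hp1, LinearMap.zero_apply]
        exact Submodule.zero_mem _
      obtain ⟨b, hb, hP⟩ := asg_mono hA hp ε T hTW hTh n hout t ht
      have hb2 := asg_unique hA hp1 _ _ _ hb.2 ht2 ht0
      have hh2 := asg_unique hA hp1 _ _ _ huW.2 hωn.2 (fun h0 => by
        apply hw0
        rw [h0, tl8_mode_zero hA hp1, LinearMap.zero_apply])
      exact hP j a w hj ha (by omega) (Or.inl (by omega))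
    · exact fi2_step hA hp1 ε T T subset_rfl u (Submodule.subset_span huT) j hj w hwX

/-- If `T ∪ {ω}` strongly generates `W`, `T` consists of homogeneous vectors and `ω` is a combination of
monomials in `T`, then `T` strongly generates `W`. -/
theorem asg_drop (hA : IsADE A) (hp : 2 ≤ p) (ε : Cocycle A p) (T : Set (VL ι))
    (hTW : T ⊆ (W A p : Set (VL ι))) (hTh : ∀ u ∈ T, ∃ n, IsHomog A p n u)
    (hω : omegaV A p ∈ Submodule.span ℂ {w | Monomial ε T w})
    (hgen : StronglyGenerates ε (insert (omegaV A p) T) (W A p)) :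
    StronglyGenerates ε T (W A p) := by
  have hp1 : 1 ≤ p := by omega
  have hωn : omegaV A p ∈ Wn A p 2 := by
    rw [omegaV_eq]
    exact asg_omega hA hp
  have hTW' : insert (omegaV A p) T ⊆ (W A p : Set (VL ι)) := by
    intro x hx
    rcases Set.mem_insert_iff.1 hx with rfl | h
    · exact hωn.1
    · exact hTW h
  have hTh' : ∀ u ∈ insert (omegaV A p) T, ∃ n, IsHomog A p n u := by
    intro x hx
    rcases Set.mem_insert_iff.1 hx with rfl | h
    · exact ⟨2, isHomog_of_mem 2 _ hωn.2⟩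
    · exact hTh x h
  unfold StronglyGenerates at hgen ⊢
  refine le_antisymm ?_ ?_
  · rw [Submodule.span_le]
    intro w hw
    obtain ⟨a, ha⟩ := asg_hom hA hp ε T hTW hTh w hw
    exact ha.1
  set X : Submodule ℂ (VL ι) := Submodule.span ℂ {w | Monomial ε T w} with hX
  have key : ∀ k : ℕ, ∀ n : ℤ, n < k → Wn A p n ≤ X := by
    intro k
    induction k with
    | zero =>
      intro n hn
      rw [Wn_neg hA hp n (by simpa using hn)]
      exact bot_le
    | succ k ih =>
      intro n hn v hv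
      have h1 : v ∈ Submodule.span ℂ {w | Monomial ε (insert (omegaV A p) T) w} := by
        rw [hgen]
        exact hv.1
      have h2 := asg_part hA hp1 _ (fun t ht => by
        obtain ⟨b, hb⟩ := asg_hom hA hp ε _ hTW' hTh' t ht
        exact ⟨b, hb.2⟩) n v h1 hv.2
      refine (Submodule.span_le.2 ?_) h2
      rintro t ⟨ht, htn⟩
      have htW : t ∈ W A p := by
        obtain ⟨b, hb⟩ := asg_hom hA hp ε _ hTW' hTh' t ht
        exact hb.1
      exact asg_step hA hp ε T hTW hTh hω n (fun m hm => ih m (by push_cast at hn; omega)) t ht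
        ⟨htW, htn⟩
  refine W_span X ?_
  intro γ f d hf hW
  have hmem : Finsupp.single γ f ∈ Wn A p ((d : ℤ) + wtExp A p γ) :=
    ⟨hW, single_mem_Vn γ f d hf _ rfl⟩
  refine key ((d : ℤ) + wtExp A p γ + 1).toNat _ ?_ hmem
  omega

end

end WPQ
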