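import Pool.Agent.WPQ.CYM
import Pool.Agent.WPQ.TL7
import Pool.Agent.WPQ.TL8

/-! [WPQ-RA1] The case that `Wk` is generated by `ω` (rank one). -/

namespace WPQ

open MvPolynomial AF

noncomputable section

variable {ι : Type} [Fintype ι] [DecidableEq ι] {A : Matrix ι ι ℤ} {p : ℕ}

/-- The vectors `L(-k_1-1) ⋯ L(-k_r-1) x`. -/
def ra1W (A : Matrix ι ι ℤ) (p : ℕ) (x : VL ι) : List ℕ → VL ι
  | [] => x
  | k :: l => LS (Shift.zero A p) (-(k : ℤ) - 1) (ra1W A p x l)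

/-- The span of the vectors `L(-k_1-1) ⋯ L(-k_r-1) x`. -/
def ra1N (A : Matrix ι ι ℤ) (p : ℕ) (x : VL ι) : Submodule ℂ (VL ι) :=
  Submodule.span ℂ (Set.range (ra1W A p x))

theorem ra1_W_mem (x : VL ι) (l : List ℕ) : ra1W A p x l ∈ ra1N A p x :=
  Submodule.subset_span ⟨l, rfl⟩

theorem ra1_neg (x : VL ι) (k : ℕ) (z : VL ι) (hz : z ∈ ra1N A p x) :
    LS (Shift.zero A p) (-(k : ℤ) - 1) z ∈ ra1N A p x := by
  have h : ra1N A p x ≤ (ra1N A p x).comap (LS (Shift.zero A p) (-(k : ℤ) - 1)) := by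
    refine Submodule.span_le.2 ?_
    rintro _ ⟨l, rfl⟩
    exact ra1_W_mem x (k :: l)
  exact h hz

theorem ra1_word (hA : IsADE A) (hp : 1 ≤ p) (x : VL ι)
    (hx : ∀ k : ℤ, 0 ≤ k → ∃ c : ℂ, LS (Shift.zero A p) k x = c • x) (l : List ℕ) :
    ∀ k : ℤ, LS (Shift.zero A p) k (ra1W A p x l) ∈ ra1N A p x := by
  induction l with
  | nil =>
    intro k
    by_cases hk : 0 ≤ k
    · obtain ⟨c, hc⟩ := hx k hk
      show LS (Shift.zero A p) k x ∈ _
      rw [hc]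
      exact Submodule.smul_mem _ _ (ra1_W_mem x [])
    · obtain ⟨j, rfl⟩ : ∃ j : ℕ, k = -(j : ℤ) - 1 := ⟨(-k - 1).toNat, by omega⟩
      exact ra1_W_mem x [j]
  | cons j l ih =>
    intro k
    by_cases hk : 0 ≤ k
    · have h1 := LinearMap.congr_fun (LS_comm hA hp k (-(j : ℤ) - 1)) (ra1W A p x l)
      rw [LinearMap.sub_apply, LinearMap.comp_apply, LinearMap.comp_apply,
        sub_eq_iff_eq_add] at h1
      show LS (Shift.zero A p) k (LS (Shift.zero A p) (-(j : ℤ) - 1) (ra1W A p x l)) ∈ _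
      rw [h1]
      refine add_mem ?_ (ra1_neg x j _ (ih k))
      rw [LinearMap.add_apply, LinearMap.smul_apply]
      refine add_mem (Submodule.smul_mem _ _ (ih _)) ?_
      split_ifs
      · rw [LinearMap.smul_apply, LinearMap.id_apply]
        exact Submodule.smul_mem _ _ (ra1_W_mem x l)
      · rw [LinearMap.zero_apply]
        exact zero_mem _
    · obtain ⟨i, rfl⟩ : ∃ i : ℕ, k = -(i : ℤ) - 1 := ⟨(-k - 1).toNat, by omega⟩
      exact ra1_W_mem x (i :: j :: l)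

theorem ra1_stable (hA : IsADE A) (hp : 1 ≤ p) (x : VL ι)
    (hx : ∀ k : ℤ, 0 ≤ k → ∃ c : ℂ, LS (Shift.zero A p) k x = c • x) (k : ℤ) (z : VL ι)
    (hz : z ∈ ra1N A p x) : LS (Shift.zero A p) k z ∈ ra1N A p x := by
  have h : ra1N A p x ≤ (ra1N A p x).comap (LS (Shift.zero A p) k) := by
    refine Submodule.span_le.2 ?_
    rintro _ ⟨l, rfl⟩
    exact ra1_word hA hp x hx l k
  exact h hz

/-- Subspaces stable under the Virasoro modes are stable under the modes of the monomials in `ω`. -/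
theorem ra1_mono (hA : IsADE A) (hp : 1 ≤ p) (ε : Cocycle A p) (N : Submodule ℂ (VL ι))
    (hN : ∀ (k : ℤ) (z : VL ι), z ∈ N → LS (Shift.zero A p) k z ∈ N) (c : VL ι)
    (hc : Monomial ε {omegaV A p} c) : ∀ (s : ℤ) (z : VL ι), z ∈ N → mode ε c s z ∈ N := by
  induction hc with
  | one =>
    intro s z hz
    rw [mode_vac hA hp]
    split_ifs
    · exact hz
    · exact zero_mem _
  | step u hu j hj w hw ih =>
    rw [Set.mem_singleton_iff] at hu
    subst hu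
    obtain ⟨a, rfl⟩ : ∃ a : ℕ, j = a + 1 := ⟨j - 1, by omega⟩
    have hom : ∀ (s : ℤ) (z : VL ι), z ∈ N → mode ε (omegaV A p) s z ∈ N := by
      intro s z hz
      rw [omegaV_eq, mode_omega hA hp]
      exact hN _ _ hz
    obtain ⟨c, hc0, hc⟩ := tl8_transl_neg_one hA hp ε (omegaV A p) a 0
    have e1 : (-1 - ((0 : ℕ) : ℤ)) = -1 := by norm_num
    have e2 : (-1 - (a : ℤ)) = -((a + 1 : ℕ) : ℤ) := by push_cast; ring
    rw [e1, e2] at hc
    have e3 : mode ε (omegaV A p) (-((a + 1 : ℕ) : ℤ)) w =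
        c⁻¹ • mode ε (((transl : VL ι →ₗ[ℂ] VL ι) ^ a) (omegaV A p)) (-1) w := by
      rw [hc, LinearMap.smul_apply, smul_smul, inv_mul_cancel₀ hc0, one_smul]
    intro s z hz
    rw [e3, mode_smul hA hp, LinearMap.smul_apply]
    refine Submodule.smul_mem _ _ ?_
    obtain ⟨M0, hM0⟩ := mode_nop hA hp ε (((transl : VL ι →ₗ[ℂ] VL ι) ^ a) (omegaV A p)) w s z
    rw [hM0 M0 le_rfl]
    refine Submodule.sum_mem _ fun i _ => add_mem ?_ ?_
    · obtain ⟨c', hc'⟩ := tl8_transl_pow hA hp ε (omegaV A p) a (-1 - (i : ℤ))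
      rw [hc', LinearMap.smul_apply]
      exact Submodule.smul_mem _ _ (hom _ _ (ih _ _ hz))
    · obtain ⟨c', hc'⟩ := tl8_transl_pow hA hp ε (omegaV A p) a (i : ℤ)
      rw [hc', LinearMap.smul_apply, map_smul]
      exact Submodule.smul_mem _ _ (ih _ _ (hom _ _ hz))

/-- `L(-k-1) z ∈ L(-1) V(n-1) + L(-2) V(n-2)` for `z ∈ V(n-k-1)`. -/
theorem ra1_II (hA : IsADE A) (hp : 1 ≤ p) (n : ℤ) (k : ℕ) : ∀ z ∈ Wn A p (n - k - 1),
    LS (Shift.zero A p) (-(k : ℤ) - 1) z ∈ IIn A p n := by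
  induction k with
  | zero =>
    intro z hz
    refine Submodule.mem_sup_left ⟨z, ?_, ?_⟩
    · simpa using hz
    · simp
  | succ k ih =>
    intro z hz
    rcases Nat.eq_zero_or_pos k with rfl | hk
    · refine Submodule.mem_sup_right ⟨z, ?_, ?_⟩
      · have e : n - ((0 + 1 : ℕ) : ℤ) - 1 = n - 2 := by push_cast; ring
        rwa [e] at hz
      · have e : -((0 + 1 : ℕ) : ℤ) - 1 = -2 := by norm_num
        rw [e]
    · have h1 := LinearMap.congr_fun (LS_comm hA hp (-1) (-(k : ℤ) - 1)) z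
      rw [if_neg (by omega), add_zero, LinearMap.sub_apply, LinearMap.comp_apply,
        LinearMap.comp_apply, LinearMap.smul_apply] at h1
      have e : (-1 : ℤ) + (-(k : ℤ) - 1) = -((k + 1 : ℕ) : ℤ) - 1 := by push_cast; ring
      rw [e] at h1
      have hk0 : ((k : ℂ)) ≠ 0 := Nat.cast_ne_zero.2 (by omega)
      have e2 : (((-1 : ℤ) : ℂ) - ((-(k : ℤ) - 1 : ℤ) : ℂ)) = (k : ℂ) := by push_cast; ring
      rw [e2] at h1
      have h2 : LS (Shift.zero A p) (-((k + 1 : ℕ) : ℤ) - 1) z = (k : ℂ)⁻¹ •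
          (LS (Shift.zero A p) (-1) (LS (Shift.zero A p) (-(k : ℤ) - 1) z) -
            LS (Shift.zero A p) (-(k : ℤ) - 1) (LS (Shift.zero A p) (-1) z)) := by
        rw [h1, smul_smul, inv_mul_cancel₀ hk0, one_smul]
      rw [h2]
      refine Submodule.smul_mem _ _ (sub_mem ?_ ?_)
      · refine Submodule.mem_sup_left ⟨_, ?_, rfl⟩
        have h3 := en1_LS_Wn hA hp (-(k : ℤ) - 1) _ _ hz
        have e3 : n - ((k + 1 : ℕ) : ℤ) - 1 - (-(k : ℤ) - 1) = n - 1 := by push_cast; ring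
        rwa [e3] at h3
      · refine ih _ ?_
        have h3 := en1_LS_Wn hA hp (-1) _ _ hz
        have e3 : n - ((k + 1 : ℕ) : ℤ) - 1 - (-1) = n - k - 1 := by push_cast; ring
        rwa [e3] at h3

theorem ra1_lwv (hA : IsADE A) (hp : 1 ≤ p) (nu : ι → ℤ) (k : ℤ) (hk : 1 ≤ k) :
    LS (Shift.zero A p) k (lwv nu) = 0 := by
  have h1 := LS_Vn (A := A) (p := p) k _ _ (lwv_Vn (A := A) (p := p) nu)
  have h2 : (LS (Shift.zero A p) k (lwv nu)) = Finsupp.single (-nu)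
      ((LS (Shift.zero A p) k (lwv nu)) (-nu)) := by
    rw [LS_comp]
    congr 1
    unfold lwv
    rw [Finsupp.single_eq_same]
  rcases Vn_comp _ _ h1 (-nu) with h | ⟨d, _, h⟩
  · rw [h2, h, Finsupp.single_zero]
  · exfalso
    omega

/-- Words in the Virasoro modes on a primary vector are orthogonal to `y`. -/
theorem ra1_perp (hA : IsADE A) (hp : 2 ≤ p) (ε : Cocycle A p) (τ : Shift A p)
    (hτ : τ.s = (2 : ℂ) • bg A p) (n : ℤ) (y : VL ι) (hy : y ∈ Wn A p n)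
    (hy1 : ∀ v ∈ pv4_Prim A p n, beta ε τ y v = 0) (hy2 : ∀ v ∈ IIn A p n, beta ε τ y v = 0)
    (m : ℤ) (x : VL ι) (hx : x ∈ pv4_Prim A p m) (l : List ℕ) :
    (∃ m' : ℤ, ra1W A p x l ∈ Wn A p m') ∧ beta ε τ y (ra1W A p x l) = 0 := by
  have hp1 : 1 ≤ p := by omega
  induction l with
  | nil =>
    refine ⟨⟨m, ((pv4_mem _ _).1 hx).1⟩, ?_⟩
    show beta ε τ y x = 0
    by_cases hm : n = m
    · subst hm
      exact hy1 x hx
    · exact beta_wt hA hp ε τ hτ n m y x hy.2 ((pv4_mem _ _).1 hx).1.2 hm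
  | cons k l ih =>
    obtain ⟨⟨m', hm'⟩, _⟩ := ih
    have h1 := en1_LS_Wn hA hp1 (-(k : ℤ) - 1) _ _ hm'
    refine ⟨⟨_, h1⟩, ?_⟩
    show beta ε τ y (LS (Shift.zero A p) (-(k : ℤ) - 1) (ra1W A p x l)) = 0
    by_cases hm : n = m' - (-(k : ℤ) - 1)
    · refine hy2 _ (ra1_II hA hp1 n k _ ?_)
      have e : n - k - 1 = m' := by omega
      rw [e]
      exact hm'
    · exact beta_wt hA hp ε τ hτ n _ y _ hy.2 h1.2 hm

/-- If `Wk` is spanned by the monomials in `ω`, then `V(n) = Prim(n) + I(n) + Gen(n)`. -/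
theorem ra1_dec (hA : IsADE A) (hp : 2 ≤ p) (h1 : st_TL1) (h7a : st_TL7a) (ε : Cocycle A p)
    (hWk : ∀ c ∈ Wk ε, c ∈ Submodule.span ℂ {v | Monomial ε {omegaV A p} v}) (n : ℤ) :
    Wn A p n ≤ pv4_Prim A p n ⊔ IIn A p n ⊔ Gen ε n := by
  have hp1 : 1 ≤ p := by omega
  obtain ⟨τ, hτ⟩ := exists_tau (A := A) hA hp1
  by_contra hn
  set P : Submodule ℂ (VL ι) := pv4_Prim A p n ⊔ IIn A p n ⊔ Gen ε n with hP
  have hP1 : pv4_Prim A p n ≤ P := le_sup_of_le_left le_sup_left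
  have hP2 : IIn A p n ≤ P := le_sup_of_le_left le_sup_right
  have hle : P ≤ Wn A p n := fun v hv => (h7a ι A hA p hp ε n v hv).1
  have hne : P ≠ Wn A p n := fun h => hn (le_of_eq h.symm)
  obtain ⟨y0, hyW0, hy00, hyP0⟩ := exists_left hA hp ε τ hτ n P hle hne
  obtain ⟨y, ν, hy0, ⟨hyW, hyP⟩, hsupp, hEj⟩ := tl7_top hA hp ε τ hτ n P
    (fun v hv j => (h7a ι A hA p hp ε n v hv).2.1 j)
    (fun v hv γ => (h7a ι A hA p hp ε n v hv).2.2 γ) y0 hy00 ⟨hyW0, hyP0⟩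
  obtain ⟨hd, f, hf, hfy⟩ := h1 ι A hA p hp ε τ hτ n y ν hyW hy0 hsupp hEj
  apply hfy
  have hlw := (mem_MNU_iff ε ν _ _).1 (lwv_MNU hA hp ε ν hd)
  have hprim : (lwv ν : VL ι) ∈ pv4_Prim A p (wtExp A p (-ν)) :=
    (pv4_mem _ _).2 ⟨⟨((mem_Mn ε ν _).1 hlw.1).1, hlw.2⟩, ra1_lwv hA hp1 ν 1 (by norm_num),
      ra1_lwv hA hp1 ν 2 (by norm_num)⟩
  have hx : ∀ k : ℤ, 0 ≤ k → ∃ c : ℂ, LS (Shift.zero A p) k (lwv ν) = c • lwv ν := by
    intro k hk
    rcases eq_or_lt_of_le hk with h | h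
    · subst h
      exact ⟨_, LS_zero_Vn hA hp1 _ _ hlw.2⟩
    · exact ⟨0, by rw [zero_smul]; exact ra1_lwv hA hp1 ν k (by omega)⟩
  have hst : ∀ (k : ℤ) (z : VL ι), z ∈ ra1N A p (lwv ν) →
      LS (Shift.zero A p) k z ∈ ra1N A p (lwv ν) := fun k z hz => ra1_stable hA hp1 _ hx k z hz
  have hfN : f ∈ ra1N A p (lwv ν) := by
    refine Mn_le_of_stable hA hp ε ν hd (ra1N A p (lwv ν)) (ra1_W_mem _ []) ?_ ?_
      ((mem_MNU_iff ε ν _ _).1 hf).1
    · intro z hz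
      rw [← LS_zero_neg_one (A := A) (p := p)]
      exact hst (-1) z hz
    · intro c hc s z hz
      have h2 : Submodule.span ℂ {v | Monomial ε {omegaV A p} v} ≤
          (ra1N A p (lwv ν)).comap (tl8_ev hA hp1 ε s z) := by
        refine Submodule.span_le.2 fun v hv => ?_
        exact ra1_mono hA hp1 ε _ hst v hv s z hz
      exact h2 (hWk c hc)
  have h3 : ra1N A p (lwv ν) ≤ LinearMap.ker (du1_B ε τ y) := by
    refine Submodule.span_le.2 ?_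
    rintro _ ⟨l, rfl⟩
    exact (ra1_perp hA hp ε τ hτ n y hyW (fun v hv => hyP v (hP1 hv))
      (fun v hv => hyP v (hP2 hv)) _ _ hprim l).2
  exact h3 hfN

/-- Q1 if `Wk` is spanned by the monomials in `ω`. -/
theorem ra1_PG (hA : IsADE A) (hp : 2 ≤ p) (h1 : st_TL1) (h7a : st_TL7a) (h8 : st_TL8)
    (hWk : ∀ ε : Cocycle A p, ∀ c ∈ Wk ε,
      c ∈ Submodule.span ℂ {v | Monomial ε {omegaV A p} v}) : PrimaryGenerated A p :=
  h8 ι A hA p hp fun ε n _ => ra1_dec hA hp h1 h7a ε (hWk ε) n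

end

end WPQ
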