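import Pool.Agent.WPQ.LW1
import Pool.Agent.WPQ.FW6

/-! [WPQ-LW2] Weights one and two.

Plan.  By `lw_charge` (`1, 2 < 4 ≤ p + (p-1) l`) a vector of `Wn 1` or `Wn 2` is `single 0 f`, `FH f 1` or `FH f 2`.
`W` at charge `0`: `vop A p ν_j (-1) f = 0`, `ν_j = Pi.single j (-1/p)`; `form A p (bb i) ν_j = -A_ij`.
Weight 1: `f = ∑ c_i X(i,0)`; `∑_i c_i A_ij = 0` for all `j`, `c = 0` (`jj1_det`).
Weight 2: `f = ∑_{i,k} c_ik X(i,0) X(k,0) + ∑ d_i X(i,1)`, `c` symmetric; the coefficient of `X(m,0)` in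
`vop ν (-1) f` is `2 (c A)_mj - δ_mj s_j`; so `A c A = A diag(s/2)` is symmetric, all `s_j` are equal, and
`c = (s/2) A⁻¹`, `d = 2 s (p-1) A⁻¹ 1`, `f = (s p) ω`. -/

namespace WPQ

open MvPolynomial

noncomputable section

section gen

variable {ι : Type} [Fintype ι] [DecidableEq ι]

theorem lw2_form (A : Matrix ι ι ℤ) (p : ℕ) (hp : 1 ≤ p) (i j : ι) :
    form A p (bb i) (Pi.single j (-(p : ℂ)⁻¹)) = -(A i j : ℂ) := by
  have hp0 : (p : ℂ) ≠ 0 := by
    have : p ≠ 0 := by omega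
    exact_mod_cast this
  unfold form bb
  rw [Finset.sum_eq_single i]
  · rw [Finset.sum_eq_single j]
    · rw [Pi.single_eq_same, Pi.single_eq_same]
      field_simp
    · intro b _ hb
      rw [Pi.single_eq_of_ne hb, mul_zero]
    · intro h
      exact absurd (Finset.mem_univ j) h
  · intro b _ hb
    refine Finset.sum_eq_zero fun a _ => ?_
    rw [Pi.single_eq_of_ne hb, zero_mul, zero_mul]
  · intro h
    exact absurd (Finset.mem_univ i) h

theorem lw2_osc (c : ℂ) (j : ι) (k : ℕ) : osc (Pi.single j c) k = C c * (X (j, k) : Fock ι) := by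
  unfold osc
  rw [Finset.sum_eq_single j]
  · rw [Pi.single_eq_same]
  · intro b _ hb
    rw [Pi.single_eq_of_ne hb, C_0, zero_mul]
  · intro h
    exact absurd (Finset.mem_univ j) h

theorem lw2_E1 (ν : ι → ℂ) : expCoeffZ ν 1 = osc ν 0 := by
  have h : (1 : ℤ) = ((0 + 1 : ℕ) : ℤ) := rfl
  rw [h, expCoeffZ_nat]
  unfold expCoeff
  simp [expCoeff]

theorem lw2_E0 (ν : ι → ℂ) : expCoeffZ ν 0 = 1 := by
  have h : (0 : ℤ) = ((0 : ℕ) : ℤ) := rfl
  rw [h, expCoeffZ_nat, expCoeff_zero]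

theorem lw2_v1 (A : Matrix ι ι ℤ) (p : ℕ) (hp : 1 ≤ p) (k j : ι) :
    vop A p (Pi.single j (-(p : ℂ)⁻¹)) (-1) (X (k, 0)) = C (A k j : ℂ) := by
  have h := fw5_vop_X A p (Pi.single j (-(p : ℂ)⁻¹)) (-1) k 0 1
  rw [mul_one, vop_one, vop_one, lw2_form A p hp] at h
  rw [h, expCoeffZ_neg _ (-1) (by norm_num)]
  have e : (-1 : ℤ) + (((0 : ℕ) : ℤ) + 1) = 0 := by norm_num
  rw [e, lw2_E0]
  simp

theorem lw2_v0 (A : Matrix ι ι ℤ) (p : ℕ) (hp : 1 ≤ p) (k j : ι) :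
    vop A p (Pi.single j (-(p : ℂ)⁻¹)) 0 (X (k, 0)) =
      X (k, 0) + C (A k j : ℂ) * (C (-(p : ℂ)⁻¹) * X (j, 0)) := by
  have h := fw5_vop_X A p (Pi.single j (-(p : ℂ)⁻¹)) 0 k 0 1
  rw [mul_one, vop_one, vop_one, lw2_form A p hp] at h
  have e : (0 : ℤ) + (((0 : ℕ) : ℤ) + 1) = 1 := by norm_num
  rw [h, e, lw2_E0, lw2_E1, lw2_osc]
  simp

theorem lw2_v2 (A : Matrix ι ι ℤ) (p : ℕ) (hp : 1 ≤ p) (i k j : ι) :
    vop A p (Pi.single j (-(p : ℂ)⁻¹)) (-1) (X (i, 0) * X (k, 0)) =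
      X (i, 0) * C (A k j : ℂ) + C (A i j : ℂ) *
        (X (k, 0) + C (A k j : ℂ) * (C (-(p : ℂ)⁻¹) * X (j, 0))) := by
  have h := fw5_vop_X A p (Pi.single j (-(p : ℂ)⁻¹)) (-1) i 0 (X (k, 0))
  have e : (-1 : ℤ) + (((0 : ℕ) : ℤ) + 1) = 0 := by norm_num
  rw [e, lw2_v1 A p hp, lw2_v0 A p hp, lw2_form A p hp] at h
  rw [h]
  simp

theorem lw2_v3 (A : Matrix ι ι ℤ) (p : ℕ) (hp : 1 ≤ p) (k j : ι) :
    vop A p (Pi.single j (-(p : ℂ)⁻¹)) (-1) (X (k, 1)) =
      C ((A k j : ℂ) / 2) * (C (-(p : ℂ)⁻¹) * X (j, 0)) := by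
  have h := fw5_vop_X A p (Pi.single j (-(p : ℂ)⁻¹)) (-1) k 1 1
  rw [mul_one, vop_one, vop_one, lw2_form A p hp] at h
  have e : (-1 : ℤ) + (((1 : ℕ) : ℤ) + 1) = 1 := by norm_num
  rw [h, e, expCoeffZ_neg _ (-1) (by norm_num), lw2_E1, lw2_osc, mul_zero, zero_add]
  congr 2
  push_cast
  ring

omit [Fintype ι] [DecidableEq ι] in
theorem lw2_wt (m : (ι × ℕ) →₀ ℕ) (x : ι × ℕ) :
    Finsupp.weight (wF (ι := ι)) (m + Finsupp.single x 1) =
      Finsupp.weight (wF (ι := ι)) m + (x.2 + 1) := by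
  rw [map_add]
  congr 1
  rw [Finsupp.weight_apply, Finsupp.sum_single_index (by simp)]
  simp [wF]

omit [Fintype ι] in
theorem lw2_pop (m : (ι × ℕ) →₀ ℕ) (h : m ≠ 0) : ∃ x m', m = m' + Finsupp.single x 1 := by
  obtain ⟨x, hx⟩ := Finsupp.support_nonempty_iff.2 h
  refine ⟨x, m - Finsupp.single x 1, ?_⟩
  ext y
  rw [Finsupp.add_apply, Finsupp.tsub_apply]
  by_cases hy : y = x
  · subst hy
    have := Finsupp.mem_support_iff.1 hx
    rw [Finsupp.single_eq_same]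
    omega
  · rw [Finsupp.single_eq_of_ne hy]
    omega

omit [Fintype ι] in
theorem lw2_w0 (m : (ι × ℕ) →₀ ℕ) (h : Finsupp.weight (wF (ι := ι)) m = 0) : m = 0 := by
  by_contra hm
  obtain ⟨x, m', rfl⟩ := lw2_pop m hm
  rw [lw2_wt] at h
  omega

omit [Fintype ι] in
theorem lw2_w1 (m : (ι × ℕ) →₀ ℕ) (h : Finsupp.weight (wF (ι := ι)) m = 1) :
    ∃ i : ι, m = Finsupp.single (i, 0) 1 := by
  have hm : m ≠ 0 := by
    rintro rfl
    rw [map_zero] at h
    omega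
  obtain ⟨⟨i, k⟩, m', rfl⟩ := lw2_pop m hm
  rw [lw2_wt] at h
  simp only at h
  have h1 : k = 0 := by omega
  have h2 := lw2_w0 m' (by omega)
  subst h1 h2
  exact ⟨i, zero_add _⟩

omit [Fintype ι] in
theorem lw2_w2 (m : (ι × ℕ) →₀ ℕ) (h : Finsupp.weight (wF (ι := ι)) m = 2) :
    (∃ i k : ι, m = Finsupp.single (i, 0) 1 + Finsupp.single (k, 0) 1) ∨
      ∃ i : ι, m = Finsupp.single (i, 1) 1 := by
  have hm : m ≠ 0 := by
    rintro rfl
    rw [map_zero] at h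
    omega
  obtain ⟨⟨i, k⟩, m', rfl⟩ := lw2_pop m hm
  rw [lw2_wt] at h
  simp only at h
  rcases Nat.lt_or_ge k 1 with hk | hk
  · have h1 : k = 0 := by omega
    subst h1
    obtain ⟨a, ha⟩ := lw2_w1 m' (by omega)
    left
    exact ⟨a, i, by rw [ha]⟩
  · have h1 : k = 1 := by omega
    have h2 := lw2_w0 m' (by omega)
    subst h1 h2
    right
    exact ⟨i, zero_add _⟩

theorem lw2_repr1 (f : Fock ι) (hf : FH f 1) :
    ∃ c : ι → ℂ, f = ∑ i, C (c i) * (X (i, 0) : Fock ι) := by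
  rw [f.as_sum]
  refine Finset.sum_induction _ (fun g => ∃ c : ι → ℂ, g = ∑ i, C (c i) * (X (i, 0) : Fock ι))
    ?_ ?_ ?_
  · rintro a b ⟨c, rfl⟩ ⟨c', rfl⟩
    refine ⟨c + c', ?_⟩
    rw [← Finset.sum_add_distrib]
    refine Finset.sum_congr rfl fun i _ => ?_
    rw [Pi.add_apply, C_add]
    ring
  · exact ⟨0, by simp⟩
  · intro m hm
    obtain ⟨i, rfl⟩ := lw2_w1 m (hf (MvPolynomial.mem_support_iff.1 hm))
    refine ⟨Pi.single i (coeff (Finsupp.single (i, 0) 1) f), ?_⟩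
    rw [Finset.sum_eq_single i]
    · rw [Pi.single_eq_same, X, C_mul_monomial, mul_one]
    · intro b _ hb
      rw [Pi.single_eq_of_ne hb, C_0, zero_mul]
    · intro h
      exact absurd (Finset.mem_univ i) h

/-- the general element of degree two -/
def lw2_F (c : ι → ι → ℂ) (d : ι → ℂ) : Fock ι :=
  ∑ i, ∑ k, C (c i k) * (X (i, 0) * X (k, 0)) + ∑ i, C (d i) * X (i, 1)

omit [DecidableEq ι] in
theorem lw2_F_add (c c' : ι → ι → ℂ) (d d' : ι → ℂ) :
    lw2_F c d + lw2_F c' d' = lw2_F (c + c') (d + d') := by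
  unfold lw2_F
  have h1 : ∑ i, ∑ k, C ((c + c') i k) * ((X (i, 0) : Fock ι) * X (k, 0)) =
      ∑ i, ∑ k, C (c i k) * ((X (i, 0) : Fock ι) * X (k, 0)) +
      ∑ i, ∑ k, C (c' i k) * ((X (i, 0) : Fock ι) * X (k, 0)) := by
    simp only [← Finset.sum_add_distrib]
    refine Finset.sum_congr rfl fun i _ => Finset.sum_congr rfl fun k _ => ?_
    rw [Pi.add_apply, Pi.add_apply, C_add]
    ring
  have h2 : ∑ i, C ((d + d') i) * (X (i, 1) : Fock ι) =
      ∑ i, C (d i) * (X (i, 1) : Fock ι) + ∑ i, C (d' i) * (X (i, 1) : Fock ι) := by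
    simp only [← Finset.sum_add_distrib]
    refine Finset.sum_congr rfl fun i _ => ?_
    rw [Pi.add_apply, C_add]
    ring
  rw [h1, h2]
  ring

theorem lw2_repr2' (f : Fock ι) (hf : FH f 2) : ∃ c d, f = lw2_F c d := by
  rw [f.as_sum]
  refine Finset.sum_induction _ (fun g => ∃ c d, g = lw2_F c d) ?_ ?_ ?_
  · rintro a b ⟨c, d, rfl⟩ ⟨c', d', rfl⟩
    exact ⟨_, _, lw2_F_add c c' d d'⟩
  · exact ⟨0, 0, by simp [lw2_F]⟩
  · intro m hm
    rcases lw2_w2 m (hf (MvPolynomial.mem_support_iff.1 hm)) with ⟨i, k, rfl⟩ | ⟨i, rfl⟩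
    · refine ⟨Pi.single i (Pi.single k (coeff (Finsupp.single (i, 0) 1 +
        Finsupp.single (k, 0) 1) f)), 0, ?_⟩
      unfold lw2_F
      rw [Finset.sum_eq_single i]
      · rw [Finset.sum_eq_single k]
        · rw [Pi.single_eq_same, Pi.single_eq_same]
          simp only [Pi.zero_apply, C_0, zero_mul, Finset.sum_const_zero, add_zero]
          rw [X, X, monomial_mul, C_mul_monomial, mul_one, mul_one]
        · intro b _ hb
          rw [Pi.single_eq_same, Pi.single_eq_of_ne hb, C_0, zero_mul]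
        · intro h
          exact absurd (Finset.mem_univ k) h
      · intro b _ hb
        refine Finset.sum_eq_zero fun a _ => ?_
        rw [Pi.single_eq_of_ne hb, Pi.zero_apply, C_0, zero_mul]
      · intro h
        exact absurd (Finset.mem_univ i) h
    · refine ⟨0, Pi.single i (coeff (Finsupp.single (i, 1) 1) f), ?_⟩
      unfold lw2_F
      simp only [Pi.zero_apply, C_0, zero_mul, Finset.sum_const_zero, zero_add]
      rw [Finset.sum_eq_single i]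
      · rw [Pi.single_eq_same, X, C_mul_monomial, mul_one]
      · intro b _ hb
        rw [Pi.single_eq_of_ne hb, C_0, zero_mul]
      · intro h
        exact absurd (Finset.mem_univ i) h

theorem lw2_repr2 (f : Fock ι) (hf : FH f 2) :
    ∃ c d, (∀ i k, c i k = c k i) ∧ f = lw2_F c d := by
  obtain ⟨c, d, rfl⟩ := lw2_repr2' f hf
  refine ⟨fun i k => (c i k + c k i) / 2, d, fun i k => by ring, ?_⟩
  unfold lw2_F
  congr 1
  have h1 : ∑ i, ∑ k, C (c i k) * ((X (i, 0) : Fock ι) * X (k, 0)) =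
      ∑ i, ∑ k, C (c k i) * ((X (i, 0) : Fock ι) * X (k, 0)) := by
    rw [Finset.sum_comm]
    refine Finset.sum_congr rfl fun i _ => Finset.sum_congr rfl fun k _ => ?_
    ring
  have h2 : ∑ i, ∑ k, C ((c i k + c k i) / 2) * ((X (i, 0) : Fock ι) * X (k, 0)) =
      C (1 / 2 : ℂ) * (∑ i, ∑ k, C (c i k) * ((X (i, 0) : Fock ι) * X (k, 0))) +
      C (1 / 2 : ℂ) * (∑ i, ∑ k, C (c k i) * ((X (i, 0) : Fock ι) * X (k, 0))) := by
    simp only [Finset.mul_sum, ← Finset.sum_add_distrib]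
    refine Finset.sum_congr rfl fun i _ => Finset.sum_congr rfl fun k _ => ?_
    have e : (c i k + c k i) / 2 = 1 / 2 * c i k + 1 / 2 * c k i := by ring
    rw [e, C_add, C_mul, C_mul]
    ring
  rw [h2, ← h1, ← add_mul, ← C_add]
  norm_num

omit [DecidableEq ι] in
theorem lw2_F_smul (a : ℂ) (c : ι → ι → ℂ) (d : ι → ℂ) :
    lw2_F (fun i k => a * c i k) (fun i => a * d i) = a • lw2_F c d := by
  unfold lw2_F
  rw [smul_eq_C_mul, mul_add, Finset.mul_sum, Finset.mul_sum]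
  congr 1
  · refine Finset.sum_congr rfl fun i _ => ?_
    rw [Finset.mul_sum]
    refine Finset.sum_congr rfl fun k _ => ?_
    rw [C_mul]
    ring
  · refine Finset.sum_congr rfl fun i _ => ?_
    rw [C_mul]
    ring

theorem lw2_vC (A : Matrix ι ι ℤ) (p : ℕ) (ν : ι → ℂ) (m : ℤ) (a : ℂ) (g : Fock ι) :
    vop A p ν m (C a * g) = C a * vop A p ν m g := by
  rw [← smul_eq_C_mul, map_smul, smul_eq_C_mul]

theorem lw2_vF (A : Matrix ι ι ℤ) (p : ℕ) (hp : 1 ≤ p) (c : ι → ι → ℂ) (d : ι → ℂ) (j : ι) :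
    vop A p (Pi.single j (-(p : ℂ)⁻¹)) (-1) (lw2_F c d) =
      ∑ i, ∑ k, C (c i k) * (X (i, 0) * C (A k j : ℂ) + C (A i j : ℂ) *
        (X (k, 0) + C (A k j : ℂ) * (C (-(p : ℂ)⁻¹) * X (j, 0)))) +
      ∑ i, C (d i) * (C ((A i j : ℂ) / 2) * (C (-(p : ℂ)⁻¹) * X (j, 0))) := by
  unfold lw2_F
  rw [map_add, map_sum, map_sum]
  congr 1
  · refine Finset.sum_congr rfl fun i _ => ?_
    rw [map_sum]
    refine Finset.sum_congr rfl fun k _ => ?_
    rw [lw2_vC, lw2_v2 A p hp]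
  · refine Finset.sum_congr rfl fun i _ => ?_
    rw [lw2_vC, lw2_v3 A p hp]

/-- evaluation -/
def lw2_ev (y : ι → ℂ) : Fock ι →ₐ[ℂ] ℂ := aeval fun x : ι × ℕ => if x.2 = 0 then y x.1 else 0

omit [Fintype ι] [DecidableEq ι] in
theorem lw2_ev_X (y : ι → ℂ) (i : ι) : lw2_ev y (X (i, 0)) = y i := by
  unfold lw2_ev
  rw [aeval_X]
  simp

omit [Fintype ι] [DecidableEq ι] in
theorem lw2_ev_X1 (y : ι → ℂ) (i : ι) : lw2_ev y (X (i, 1)) = 0 := by
  unfold lw2_ev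
  rw [aeval_X]
  simp

omit [Fintype ι] [DecidableEq ι] in
theorem lw2_ev_C (y : ι → ℂ) (a : ℂ) : lw2_ev y (C a) = a := by
  unfold lw2_ev
  rw [algHom_C]
  rfl

/-- the coefficients of the equation -/
theorem lw2_eq (A : Matrix ι ι ℤ) (p : ℕ) (hp : 1 ≤ p) (c : ι → ι → ℂ) (d : ι → ℂ)
    (hc : ∀ i k, c i k = c k i) (j m : ι)
    (h : vop A p (Pi.single j (-(p : ℂ)⁻¹)) (-1) (lw2_F c d) = 0) :
    2 * ∑ k, c m k * (A k j : ℂ) = if m = j then (p : ℂ)⁻¹ * (∑ i, (A i j : ℂ) *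
      ∑ k, c i k * (A k j : ℂ) + 1 / 2 * ∑ i, d i * (A i j : ℂ)) else 0 := by
  rw [lw2_vF A p hp] at h
  have h1 := congrArg (lw2_ev (Pi.single m (1 : ℂ))) h
  simp only [map_add, map_sum, map_mul, lw2_ev_X, lw2_ev_C, map_zero] at h1
  have e1 : ∑ i, ∑ k, c i k * ((Pi.single m (1 : ℂ) : ι → ℂ) i * (A k j : ℂ) + (A i j : ℂ) *
      ((Pi.single m (1 : ℂ) : ι → ℂ) k + (A k j : ℂ) *
        (-(p : ℂ)⁻¹ * (Pi.single m (1 : ℂ) : ι → ℂ) j))) =
      2 * ∑ k, c m k * (A k j : ℂ) - (p : ℂ)⁻¹ * (Pi.single m (1 : ℂ) : ι → ℂ) j *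
        ∑ i, (A i j : ℂ) * ∑ k, c i k * (A k j : ℂ) := by
    have e2 : ∀ i k, c i k * ((Pi.single m (1 : ℂ) : ι → ℂ) i * (A k j : ℂ) + (A i j : ℂ) *
      ((Pi.single m (1 : ℂ) : ι → ℂ) k + (A k j : ℂ) *
        (-(p : ℂ)⁻¹ * (Pi.single m (1 : ℂ) : ι → ℂ) j))) =
        (Pi.single m (1 : ℂ) : ι → ℂ) i * (c i k * (A k j : ℂ)) +
        (Pi.single m (1 : ℂ) : ι → ℂ) k * (c k i * (A i j : ℂ)) -
        (p : ℂ)⁻¹ * (Pi.single m (1 : ℂ) : ι → ℂ) j * ((A i j : ℂ) * (c i k * (A k j : ℂ))) := by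
      intro i k
      rw [hc k i]
      ring
    simp only [e2, Finset.sum_sub_distrib, Finset.sum_add_distrib]
    have e3 : ∑ i, ∑ k, (Pi.single m (1 : ℂ) : ι → ℂ) i * (c i k * (A k j : ℂ)) =
        ∑ k, c m k * (A k j : ℂ) := by
      rw [Finset.sum_eq_single m]
      · rw [Pi.single_eq_same]
        simp
      · intro b _ hb
        rw [Pi.single_eq_of_ne hb]
        simp
      · intro h
        exact absurd (Finset.mem_univ m) h
    have e4 : ∑ i, ∑ k, (Pi.single m (1 : ℂ) : ι → ℂ) k * (c k i * (A i j : ℂ)) =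
        ∑ k, c m k * (A k j : ℂ) := by
      rw [Finset.sum_comm]
      exact e3
    rw [e3, e4]
    have e5 : ∑ i, ∑ k, (p : ℂ)⁻¹ * (Pi.single m (1 : ℂ) : ι → ℂ) j *
        ((A i j : ℂ) * (c i k * (A k j : ℂ))) =
        (p : ℂ)⁻¹ * (Pi.single m (1 : ℂ) : ι → ℂ) j *
        ∑ i, (A i j : ℂ) * ∑ k, c i k * (A k j : ℂ) := by
      simp only [Finset.mul_sum]
    rw [e5]
    ring
  have e6 : ∑ i, d i * ((A i j : ℂ) / 2 * (-(p : ℂ)⁻¹ * (Pi.single m (1 : ℂ) : ι → ℂ) j)) =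
      -((p : ℂ)⁻¹ * (Pi.single m (1 : ℂ) : ι → ℂ) j * (1 / 2 * ∑ i, d i * (A i j : ℂ))) := by
    simp only [Finset.mul_sum, ← Finset.sum_neg_distrib]
    refine Finset.sum_congr rfl fun i _ => ?_
    ring
  rw [e1, e6] at h1
  by_cases hmj : m = j
  · subst hmj
    rw [if_pos rfl]
    rw [Pi.single_eq_same] at h1
    linear_combination h1
  · rw [if_neg hmj]
    have e7 : (Pi.single m (1 : ℂ) : ι → ℂ) j = 0 := Pi.single_eq_of_ne (fun h => hmj h.symm) _
    rw [e7] at h1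
    linear_combination h1

theorem lw2_unit {A : Matrix ι ι ℤ} (hA : IsADE A) :
    IsUnit ((A.map (Int.cast : ℤ → ℂ)).det) := by
  have h : (A.map (Int.cast : ℤ → ℂ)).det = ((A.det : ℤ) : ℂ) := by
    have := (Int.castRingHom ℂ).map_det A
    rw [eq_intCast] at this
    rw [this]
    rfl
  rw [h]
  exact isUnit_iff_ne_zero.2 (by exact_mod_cast jj1_det hA)

theorem lw2_inv_symm {A : Matrix ι ι ℤ} (hA : IsADE A) (i k : ι) :
    invA A i k = invA A k i := by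
  unfold invA
  have hT : Matrix.transpose (A.map (Int.cast : ℤ → ℂ)) = A.map (Int.cast : ℤ → ℂ) := by
    ext a b
    rw [Matrix.transpose_apply, Matrix.map_apply, Matrix.map_apply, hA.symm]
  have h := congrFun (congrFun (Matrix.transpose_nonsing_inv (A.map (Int.cast : ℤ → ℂ))) i) k
  rw [hT, Matrix.transpose_apply] at h
  exact h.symm

theorem lw2_omega (A : Matrix ι ι ℤ) (p : ℕ) : omegaV A p = Finsupp.single 0
    (lw2_F (fun i k => 1 / 2 * ((p : ℂ)⁻¹ * invA A i k)) (fun i => 2 * bgVec A p i)) := by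
  unfold omegaV lw2_F
  congr 1
  congr 1
  · rw [Finset.mul_sum]
    refine Finset.sum_congr rfl fun i _ => ?_
    rw [show (Pi.single i (1 : ℂ) : ι → ℂ) = bb i from rfl, fw9_osc_bb]
    unfold osc dualVec
    rw [Finset.sum_mul, Finset.mul_sum]
    refine Finset.sum_congr rfl fun k _ => ?_
    simp only [C_mul]
    ring
  · unfold osc
    rw [Finset.mul_sum]
    refine Finset.sum_congr rfl fun i _ => ?_
    simp only [C_mul]
    ring

end gen

theorem lw2_four (l p : ℕ) (hl : 2 ≤ l) (hp : 2 ≤ p) : (4 : ℤ) ≤ (p : ℤ) + ((p : ℤ) - 1) * l := by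
  have h1 : (2 : ℤ) ≤ l := by exact_mod_cast hl
  have h2 : (2 : ℤ) ≤ p := by exact_mod_cast hp
  nlinarith

/-- a vector of low weight is `single 0 f` -/
theorem lw2_charge0 (l p : ℕ) (hl : 2 ≤ l) (hp : 2 ≤ p) (n : ℕ) (hn : n < 4)
    (v : VL (Fin l)) (hv : v ∈ Wn (cartanA l) p n) :
    ∃ f : Fock (Fin l), v = Finsupp.single 0 f ∧ FH f n ∧
      ∀ j, vop (cartanA l) p (Pi.single j (-(p : ℂ)⁻¹)) (-1) f = 0 := by
  refine ⟨v 0, ?_, ?_, ?_⟩
  · ext1 γ
    by_cases h : γ = 0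
    · subst h
      rw [Finsupp.single_eq_same]
    · rw [Finsupp.single_eq_of_ne h]
      exact lw_charge l p hl hp n (by have := lw2_four l p hl hp; omega) v hv γ h
  · rcases Vn_comp _ v hv.2 0 with h | ⟨d, hd, hd'⟩
    · rw [h]
      exact isWeightedHomogeneous_zero _ _ _
    · have e : wtExp (cartanA l) p 0 = 0 := by simp [wtExp, formZ]
      rw [e] at hd'
      have : d = n := by omega
      rw [← this]
      exact hd
  · intro j
    have h := (mem_W_iff v).1 hv.1 j 0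
    rw [vp1_pr_zero, zero_sub] at h
    exact h

theorem omegaV_Wn (l p : ℕ) (hl : 2 ≤ l) (hp : 2 ≤ p) :
    omegaV (cartanA l) p ∈ Wn (cartanA l) p 2 := by
  have _ := hl
  refine ⟨omegaV_mem (cartanA_ade l) hp, ?_⟩
  rw [omegaV_eq]
  unfold omega
  have h := LS_Vn (A := cartanA l) (p := p) (-2) 0 vac fi2_vac
  rw [show (0 : ℤ) - -2 = 2 by norm_num] at h
  exact h

theorem omegaV_ne (l p : ℕ) (hl : 2 ≤ l) (hp : 2 ≤ p) : omegaV (cartanA l) p ≠ 0 := by
  intro h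
  rw [lw2_omega, Finsupp.single_eq_zero] at h
  have hA := cartanA_ade l
  have hp0 : (p : ℂ) ≠ 0 := by
    have : p ≠ 0 := by omega
    exact_mod_cast this
  let j0 : Fin l := ⟨0, by omega⟩
  have h1 := congrArg (lw2_ev (fun i => (cartanA l i j0 : ℂ))) h
  unfold lw2_F at h1
  simp only [map_add, map_sum, map_mul, lw2_ev_X, lw2_ev_X1, lw2_ev_C, map_zero, mul_zero,
    Finset.sum_const_zero, add_zero] at h1
  have h2 : ∀ i, ∑ k, invA (cartanA l) i k * (cartanA l k j0 : ℂ) =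
      (1 : Matrix (Fin l) (Fin l) ℂ) i j0 := by
    intro i
    have := congrFun (congrFun (Matrix.nonsing_inv_mul _ (lw2_unit hA)) i) j0
    rw [Matrix.mul_apply] at this
    exact this
  have h3 : ∑ i, ∑ k, 1 / 2 * ((p : ℂ)⁻¹ * invA (cartanA l) i k) *
      ((cartanA l i j0 : ℂ) * (cartanA l k j0 : ℂ)) = (p : ℂ)⁻¹ := by
    have h4 : ∀ i, ∑ k, 1 / 2 * ((p : ℂ)⁻¹ * invA (cartanA l) i k) *
        ((cartanA l i j0 : ℂ) * (cartanA l k j0 : ℂ)) =
        1 / 2 * (p : ℂ)⁻¹ * (cartanA l i j0 : ℂ) * (1 : Matrix (Fin l) (Fin l) ℂ) i j0 := by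
      intro i
      rw [← h2 i, Finset.mul_sum]
      refine Finset.sum_congr rfl fun k _ => ?_
      ring
    rw [Finset.sum_congr rfl fun i _ => h4 i, Finset.sum_eq_single j0]
    · rw [Matrix.one_apply_eq, hA.diag]
      push_cast
      ring
    · intro b _ hb
      rw [Matrix.one_apply_ne hb, mul_zero]
    · intro h
      exact absurd (Finset.mem_univ j0) h
  rw [h3] at h1
  exact inv_ne_zero hp0 h1

theorem lw_V1 (l p : ℕ) (hl : 2 ≤ l) (hp : 2 ≤ p) : Wn (cartanA l) p 1 = ⊥ := by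
  rw [eq_bot_iff]
  intro v hv
  obtain ⟨f, rfl, hf, hv'⟩ := lw2_charge0 l p hl hp 1 (by norm_num) v hv
  have hA := cartanA_ade l
  obtain ⟨c, rfl⟩ := lw2_repr1 f hf
  have h1 : ∀ j, ∑ i, c i * (cartanA l i j : ℂ) = 0 := by
    intro j
    have h2 := hv' j
    rw [map_sum] at h2
    have h3 : ∀ i, vop (cartanA l) p (Pi.single j (-(p : ℂ)⁻¹)) (-1)
        (C (c i) * (X (i, 0) : Fock (Fin l))) = C (c i * (cartanA l i j : ℂ)) := by
      intro i
      rw [lw2_vC, lw2_v1 _ p (by omega), C_mul]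
    rw [Finset.sum_congr rfl fun i _ => h3 i, ← map_sum] at h2
    exact C_injective _ _ (h2.trans C_0.symm)
  have h4 : Matrix.vecMul c ((cartanA l).map (Int.cast : ℤ → ℂ)) = 0 := by
    funext j
    exact h1 j
  have h5 : c = 0 := by
    have h6 := congrArg (fun x => Matrix.vecMul x ((cartanA l).map (Int.cast : ℤ → ℂ))⁻¹) h4
    simp only [Matrix.vecMul_vecMul, Matrix.mul_nonsing_inv _ (lw2_unit hA), Matrix.vecMul_one,
      Matrix.zero_vecMul] at h6
    exact h6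
  rw [h5]
  simp

theorem lw_V2 (l p : ℕ) (hl : 2 ≤ l) (hp : 2 ≤ p) (v : VL (Fin l))
    (hv : v ∈ Wn (cartanA l) p 2) : ∃ a : ℂ, v = a • omegaV (cartanA l) p := by
  obtain ⟨f, rfl, hf, hv'⟩ := lw2_charge0 l p hl hp 2 (by norm_num) v hv
  have hA := cartanA_ade l
  obtain ⟨c, d, hc, rfl⟩ := lw2_repr2 f hf
  have hp1 : 1 ≤ p := by omega
  have hp0 : (p : ℂ) ≠ 0 := by
    have : p ≠ 0 := by omega
    exact_mod_cast this
  obtain ⟨S, hS⟩ : ∃ S : Fin l → ℂ, S = fun j => ∑ i, (cartanA l i j : ℂ) *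
      ∑ k, c i k * (cartanA l k j : ℂ) + 1 / 2 * ∑ i, d i * (cartanA l i j : ℂ) := ⟨_, rfl⟩
  have h1 : ∀ m j, ∑ k, c m k * (cartanA l k j : ℂ) =
      if m = j then 1 / 2 * ((p : ℂ)⁻¹ * S j) else 0 := by
    intro m j
    have h2 := lw2_eq (cartanA l) p hp1 c d hc j m (hv' j)
    have h3 : S j = ∑ i, (cartanA l i j : ℂ) *
      ∑ k, c i k * (cartanA l k j : ℂ) + 1 / 2 * ∑ i, d i * (cartanA l i j : ℂ) := by
      rw [hS]
    rw [← h3] at h2
    by_cases hmj : m = j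
    · rw [if_pos hmj] at h2 ⊢
      linear_combination 1 / 2 * h2
    · rw [if_neg hmj] at h2 ⊢
      linear_combination 1 / 2 * h2
  -- `(A c A)_kj`
  have h4 : ∀ k j, ∑ i, (cartanA l k i : ℂ) * ∑ m, c i m * (cartanA l m j : ℂ) =
      (cartanA l k j : ℂ) * (1 / 2 * ((p : ℂ)⁻¹ * S j)) := by
    intro k j
    rw [Finset.sum_eq_single j]
    · rw [h1, if_pos rfl]
    · intro b _ hb
      rw [h1, if_neg hb, mul_zero]
    · intro h
      exact absurd (Finset.mem_univ j) h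
  have h5 : ∀ k j, ∑ i, (cartanA l k i : ℂ) * ∑ m, c i m * (cartanA l m j : ℂ) =
      ∑ i, (cartanA l j i : ℂ) * ∑ m, c i m * (cartanA l m k : ℂ) := by
    intro k j
    simp only [Finset.mul_sum]
    rw [Finset.sum_comm]
    refine Finset.sum_congr rfl fun i _ => Finset.sum_congr rfl fun m _ => ?_
    rw [hA.symm j i, hA.symm m k, hc i m]
    ring
  have h6 : ∀ k j, (cartanA l k j : ℂ) * S j = (cartanA l k j : ℂ) * S k := by
    intro k j
    have h7 := h5 k j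
    rw [h4 k j, h4 j k, hA.symm j k] at h7
    have h8 : (p : ℂ) * (p : ℂ)⁻¹ = 1 := mul_inv_cancel₀ hp0
    linear_combination (2 * (p : ℂ)) * h7 - ((cartanA l k j : ℂ) * S j -
      (cartanA l k j : ℂ) * S k) * h8
  have h7 : ∀ n : ℕ, ∀ h : n < l, S ⟨n, h⟩ = S ⟨0, by omega⟩ := by
    intro n
    induction n with
    | zero => intro h; rfl
    | succ n ih =>
      intro h
      rw [← ih (by omega)]
      have h8 := h6 ⟨n, by omega⟩ ⟨n + 1, h⟩
      have h9 : cartanA l ⟨n, by omega⟩ ⟨n + 1, h⟩ = -1 := by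
        unfold cartanA
        rw [if_neg (by intro h; have := congrArg Fin.val h; simp at this), if_pos (Or.inl rfl)]
      rw [h9] at h8
      push_cast at h8
      linear_combination -h8
  obtain ⟨s, hs⟩ : ∃ s : ℂ, ∀ j, S j = s := ⟨S ⟨0, by omega⟩, fun j => h7 j j.2⟩
  simp only [hs] at h1 h4
  -- the matrix `c`
  have hu := lw2_unit hA
  have hcM : Matrix.of c = (1 / 2 * ((p : ℂ)⁻¹ * s)) •
      ((cartanA l).map (Int.cast : ℤ → ℂ))⁻¹ := by
    have h8 : Matrix.of c * (cartanA l).map (Int.cast : ℤ → ℂ) =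
        (1 / 2 * ((p : ℂ)⁻¹ * s)) • (1 : Matrix (Fin l) (Fin l) ℂ) := by
      ext m j
      rw [Matrix.mul_apply, Matrix.smul_apply, Matrix.one_apply, smul_eq_mul]
      have := h1 m j
      rw [show ∑ k, Matrix.of c m k * (cartanA l).map (Int.cast : ℤ → ℂ) k j =
        ∑ k, c m k * (cartanA l k j : ℂ) from rfl, this]
      split_ifs
      · ring
      · ring
    have h9 := congrArg (fun M => M * ((cartanA l).map (Int.cast : ℤ → ℂ))⁻¹) h8
    simp only [Matrix.mul_assoc, Matrix.mul_nonsing_inv _ hu, Matrix.mul_one, Matrix.smul_mul,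
      Matrix.one_mul] at h9
    exact h9
  have hdM : d = (2 * (1 - (p : ℂ)⁻¹) * s) • Matrix.vecMul (fun _ => (1 : ℂ))
      ((cartanA l).map (Int.cast : ℤ → ℂ))⁻¹ := by
    have h8 : Matrix.vecMul d ((cartanA l).map (Int.cast : ℤ → ℂ)) =
        (2 * (1 - (p : ℂ)⁻¹) * s) • (fun _ => (1 : ℂ)) := by
      funext j
      have h10 : S j = ∑ i, (cartanA l i j : ℂ) *
        ∑ k, c i k * (cartanA l k j : ℂ) + 1 / 2 * ∑ i, d i * (cartanA l i j : ℂ) := by
        rw [hS]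
      have h11 : ∑ i, (cartanA l i j : ℂ) * ∑ k, c i k * (cartanA l k j : ℂ) =
          (p : ℂ)⁻¹ * s := by
        have h12 := h4 j j
        rw [hA.diag] at h12
        rw [show ∑ i, (cartanA l i j : ℂ) * ∑ k, c i k * (cartanA l k j : ℂ) =
          ∑ i, (cartanA l j i : ℂ) * ∑ m, c i m * (cartanA l m j : ℂ) from
            Finset.sum_congr rfl fun i _ => by rw [hA.symm i j], h12]
        push_cast
        ring
      rw [h11, hs] at h10
      have h13 : Matrix.vecMul d ((cartanA l).map (Int.cast : ℤ → ℂ)) j =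
          ∑ i, d i * (cartanA l i j : ℂ) := rfl
      rw [h13, Pi.smul_apply, smul_eq_mul]
      linear_combination (-2) * h10
    have h9 := congrArg (fun x => Matrix.vecMul x ((cartanA l).map (Int.cast : ℤ → ℂ))⁻¹) h8
    simp only [Matrix.vecMul_vecMul, Matrix.mul_nonsing_inv _ hu, Matrix.vecMul_one,
      Matrix.smul_vecMul] at h9
    exact h9
  refine ⟨s, ?_⟩
  rw [lw2_omega, Finsupp.smul_single]
  congr 1
  rw [← lw2_F_smul]
  have hc' : c = fun i k => s * (1 / 2 * ((p : ℂ)⁻¹ * invA (cartanA l) i k)) := by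
    funext i k
    have := congrFun (congrFun hcM i) k
    rw [Matrix.of_apply, Matrix.smul_apply, smul_eq_mul] at this
    rw [this]
    unfold invA
    ring
  have hd' : d = fun i => s * (2 * bgVec (cartanA l) p i) := by
    funext i
    have h8 := congrFun hdM i
    rw [Pi.smul_apply, smul_eq_mul] at h8
    rw [h8]
    have h9 : Matrix.vecMul (fun _ => (1 : ℂ)) ((cartanA l).map (Int.cast : ℤ → ℂ))⁻¹ i =
        ∑ j, invA (cartanA l) i j := by
      have h10 : Matrix.vecMul (fun _ => (1 : ℂ)) ((cartanA l).map (Int.cast : ℤ → ℂ))⁻¹ i =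
          ∑ j, 1 * invA (cartanA l) j i := rfl
      rw [h10]
      refine Finset.sum_congr rfl fun j _ => ?_
      rw [one_mul, lw2_inv_symm hA]
    rw [h9]
    unfold bgVec
    field_simp
  rw [hc', hd']

end

end WPQ
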