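import Pool.Agent.WPQ.DU1
import Pool.Agent.WPQ.FL5

/-! [WPQ-FI1] `W(p)_Q` is closed under the modes of its elements.

Plan.  Let `GenC = {cS ε zero lam js | Dom A lam}`; its members are fields, pairwise local
(`cS_local_cS`), covariant, kill `vac` for modes `≥ 0`, preserve `W` (`cS_mem_W`).  `W = UU` is contained in
every submodule `W'` containing `vac` and stable under `GenC`: the largest such argument: let `W'` be
given; show by induction that words lie in `W'`, more precisely that `{v | v ∈ W''}` with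
`W'' = span` of products of `cS` modes on `vac` is stable under `E_j` (`E_j c_n = c_n E_j + (br c)_n`,
`E_j vac = 0`) and under `e^{-λ}_n = cS λ []`; so `UU ≤ W'' ≤ W'`.
`built_span` (AF5) then gives for `u ∈ W` a built `b` (generators `GenC`) with `b (-1) vac = u`; it is the
vertex operator of `u` (`built_isFld`; locality with `expMode γ`, `heisMode h` by `built_local` applied to
these and `Loc.symm`, `cS_local_expS`, `cS_local_hS`, `expS_zero`, `hS_zero`; `built_cov`,
`built_vac`), so `mode ε u = b` (`mode_eq`) and `built_stable` applies. -/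

namespace WPQ

open MvPolynomial AF

noncomputable section

variable {ι : Type} [Fintype ι] [DecidableEq ι] {A : Matrix ι ι ℤ} {p : ℕ}

/-- The generating fields of `W(p)_Q`. -/
def fi1_Gen (ε : Cocycle A p) : Set (ℤ → VL ι →ₗ[ℂ] VL ι) :=
  {a | ∃ (lam : ι → ℤ) (js : List ι), Dom A lam ∧ a = cS ε (Shift.zero A p) lam js}

/-- Products of modes of the generating fields applied to the vacuum. -/
inductive fi1_Prod (ε : Cocycle A p) : VL ι → Prop
  | vac : fi1_Prod ε vac
  | step (lam : ι → ℤ) (js : List ι) (hl : Dom A lam) (n : ℤ) (w : VL ι) (hw : fi1_Prod ε w) :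
      fi1_Prod ε (cS ε (Shift.zero A p) lam js n w)

/-- The span of the products. -/
def fi1_P (ε : Cocycle A p) : Submodule ℂ (VL ι) := Submodule.span ℂ {w | fi1_Prod ε w}

theorem fi1_P_cS (ε : Cocycle A p) (lam : ι → ℤ) (js : List ι) (hl : Dom A lam) (n : ℤ)
    (w : VL ι) (hw : w ∈ fi1_P ε) : cS ε (Shift.zero A p) lam js n w ∈ fi1_P ε := by
  have h : fi1_P ε ≤ (fi1_P ε).comap (cS ε (Shift.zero A p) lam js n) := by
    refine Submodule.span_le.2 ?_
    intro x hx
    exact Submodule.subset_span (fi1_Prod.step lam js hl n x hx)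
  exact h hw

theorem fi1_P_Ej (ε : Cocycle A p) (j : ι) (w : VL ι) (hw : w ∈ fi1_P ε) :
    Ej ε (Shift.zero A p) j w ∈ fi1_P ε := by
  have h : fi1_P ε ≤ (fi1_P ε).comap (Ej ε (Shift.zero A p) j) := by
    refine Submodule.span_le.2 ?_
    intro x hx
    induction hx with
    | vac =>
      show Ej ε (Shift.zero A p) j vac ∈ fi1_P ε
      rw [Ej_vac]
      exact Submodule.zero_mem _
    | step lam js hl n y hy ih =>
      show Ej ε (Shift.zero A p) j (cS ε (Shift.zero A p) lam js n y) ∈ fi1_P ε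
      have e1 : Ej ε (Shift.zero A p) j (cS ε (Shift.zero A p) lam js n y) =
          cS ε (Shift.zero A p) lam (j :: js) n y +
            cS ε (Shift.zero A p) lam js n (Ej ε (Shift.zero A p) j y) := by
        show _ = br (Ej ε (Shift.zero A p) j) (Ej ε (Shift.zero A p) j)
          (cS ε (Shift.zero A p) lam js) n y + _
        simp only [br, LinearMap.sub_apply, LinearMap.comp_apply]
        abel
      rw [e1]
      refine Submodule.add_mem _ ?_ ?_
      · exact Submodule.subset_span (fi1_Prod.step lam (j :: js) hl n y hy)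
      · exact fi1_P_cS ε lam js hl n _ ih
  exact h hw

theorem fi1_UU_le_P (ε : Cocycle A p) : UU ε ≤ fi1_P ε := by
  refine Submodule.span_le.2 ?_
  intro x hx
  induction hx with
  | vac => exact Submodule.subset_span fi1_Prod.vac
  | ej j w hw ih => exact fi1_P_Ej ε j w ih
  | ex lam hl n w hw ih => exact fi1_P_cS ε lam [] hl n w ih

theorem fi1_P_le (ε : Cocycle A p) (W' : Submodule ℂ (VL ι)) (hv : vac ∈ W')
    (hW : ∀ g ∈ fi1_Gen ε, ∀ m : ℤ, ∀ w ∈ W', g m w ∈ W') : fi1_P ε ≤ W' := by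
  refine Submodule.span_le.2 ?_
  intro x hx
  induction hx with
  | vac => exact hv
  | step lam js hl n y hy ih => exact hW _ ⟨lam, js, hl, rfl⟩ n y ih

theorem W_closed (hA : IsADE A) (hp : 2 ≤ p) (ε : Cocycle A p) (u v : VL ι) (hu : u ∈ W A p)
    (hv : v ∈ W A p) (n : ℤ) : mode ε u n v ∈ W A p := by
  have hp1 : 1 ≤ p := by omega
  have hf : ∀ g ∈ fi1_Gen ε, IsFld g := by
    rintro g ⟨lam, js, hl, rfl⟩
    exact isFld_cS ε (Shift.zero A p) lam js
  have hvac : ∀ g ∈ fi1_Gen ε, ∀ m : ℤ, 0 ≤ m → g m vac = 0 := by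
    rintro g ⟨lam, js, hl, rfl⟩ m hm
    exact cS_vac_nonneg ε lam js m hm
  have hG : ∀ g ∈ fi1_Gen ε, ∀ g' ∈ fi1_Gen ε, ∃ N, Loc N g g' := by
    rintro g ⟨lam, js, hl, rfl⟩ g' ⟨lam', js', hl', rfl⟩
    exact cS_local_cS hA ε (Shift.zero A p) lam lam' js js'
  have hT : ∀ g ∈ fi1_Gen ε, Cov (transl : VL ι →ₗ[ℂ] VL ι) transl g := by
    rintro g ⟨lam, js, hl, rfl⟩
    have h := cov_cS hA hp1 ε (Shift.zero A p) lam js
    rw [LS_zero_neg_one] at h
    exact h
  have hst : ∀ g ∈ fi1_Gen ε, ∀ m : ℤ, ∀ w ∈ W A p, g m w ∈ W A p := by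
    rintro g ⟨lam, js, hl, rfl⟩ m w hw
    exact cS_mem_W hA hp ε lam hl js m w hw
  obtain ⟨b, hb, hbu⟩ := built_span hf vac hvac (W A p) (by
    intro W' h1 h2
    rw [W_eq_UU hA hp ε]
    exact (fi1_UU_le_P ε).trans (fi1_P_le ε W' h1 h2)) u hu
  have hVO : IsVertexOperator ε u b := by
    refine ⟨built_isFld hf hb, ?_, ?_, built_cov hf transl hT hb, built_vac vac hvac hb, hbu⟩
    · intro γ
      obtain ⟨N, hN⟩ := built_local hf hG hb (expMode ε γ) (by
        rintro g ⟨lam, js, hl, rfl⟩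
        obtain ⟨N, hN⟩ := cS_local_expS hA ε (Shift.zero A p) lam js γ
        have e : expS ε (Shift.zero A p) γ = expMode ε γ := funext fun n => expS_zero ε γ n
        rw [e] at hN
        exact ⟨N, hN.symm⟩)
      exact ⟨N, hN.symm⟩
    · intro h
      obtain ⟨N, hN⟩ := built_local hf hG hb (heisMode A p h) (by
        rintro g ⟨lam, js, hl, rfl⟩
        obtain ⟨N, hN⟩ := cS_local_hS hA ε (Shift.zero A p) lam js h
        have e : hS (Shift.zero A p) h = heisMode A p h := funext fun n => hS_zero h n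
        rw [e] at hN
        exact ⟨N, hN.symm⟩)
      exact ⟨N, hN.symm⟩
  rw [mode_eq ε u b hVO]
  exact built_stable (W A p) hst hb n v hv

end

end WPQ
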