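import Pool.Agent.WPQ.VA4
import Pool.Agent.WPQ.DU1
import Pool.Agent.WPQ.FI1

/-! [WPQ-AD1] The form `β` on `W(p)_Q`: weights, charges, symmetry; three point functions with a
primary vector.

Plan.  `beta_wt`, `beta_ch`: `beta_single` (FT4): decompose both arguments (`W_span`-style
induction for `Vn`: `Vn` is a span; `v = ∑_γ single γ (v γ)`).  `beta_comp_right`: from `beta_ch`.
`beta_vac_right`: `β(t, vac) = top0 t` for `t ∈ W`: `W_span`: for `t = single γ f`, `FH f d`: both sides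
vanish unless `γ = 0`, `d = 0`, and then `f = C a`, `t = a • vac`, `beta_vac`.
`beta_symm`: `W = UU ≤ fi1_P ε` (`W_eq_UU`, `fi1_UU_le_P`) and the induction principle `fi1_P_le` with
`W' = {a | a ∈ W ∧ ∀ b ∈ W, β(a,b) = β(b,a)}` (a submodule: `beta_add_left`, ...).  `vac`:
`beta_vac`, `beta_vac_right`.  Stability under `c = cS ε zero lam js` (`Dom lam`): by `beta_cS` twice:
`β(c_n t, b) = σ β(t, c_{n'} b) = σ β(c_{n'} b, t) = β(b, c_n t)`, `n' = 2Δ-2-n`, `σ² = 1`
(`UU_cS`, `W_eq_UU`).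
`top0_LS`: `top0 (L(k) v) = β(vac, L(k) v) = β(L(-k) vac, v) = 0` (`beta_vac`, `beta_LS`, `LS_vac`).
`top0_wt`: `top0` vanishes on `Wn n`, `n ≠ 0`.
`top0_mode`: by linearity `b ∈ Wn j` (`W_span`); if `s ≠ m + j - 1` use `mode_Wn`, `top0_wt`.  Let
`s = m + j - 1 ≤ 2m - 2`, so `j < m`.  Induction on `j` (`j < 0`: `Wn_neg`): `top0 (L(1) u_{s-1} b) = 0`
and `LS_mode` (k = 1): `((m-1)*2 - (s-1)) top0(u_s b) + top0(u_{s-1} L(1) b) = 0`, the factor is
`m - j ≠ 0`, and `L(1) b ∈ Wn (j-1)`.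
`top0_mode_L1`: `top0 (u_s L(1) b) = (s - 2m + 2) top0 (u_{s+1} b)`: the same identity. -/

namespace WPQ

open MvPolynomial AF

noncomputable section

variable {ι : Type} [Fintype ι] [DecidableEq ι] {A : Matrix ι ι ℤ} {p : ℕ}

omit [DecidableEq ι] in
theorem ad1_wt_zero : wtExp A p (0 : ι → ℤ) = 0 := by
  simp [wtExp, formZ]

theorem ad1_B (ε : Cocycle A p) (τ : Shift A p) (a b : VL ι) :
    du1_B ε τ a b = beta ε τ a b := rfl

theorem ad1_Bf (ε : Cocycle A p) (τ : Shift A p) (a b : VL ι) :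
    (du1_B ε τ).flip b a = beta ε τ a b := rfl

theorem ad1_zero_left (ε : Cocycle A p) (τ : Shift A p) (b : VL ι) : beta ε τ 0 b = 0 := by
  rw [← ad1_Bf, map_zero]

theorem ad1_zero_right (ε : Cocycle A p) (τ : Shift A p) (a : VL ι) : beta ε τ a 0 = 0 := by
  rw [← ad1_B, map_zero]

theorem beta_wt (hA : IsADE A) (hp : 2 ≤ p) (ε : Cocycle A p) (τ : Shift A p)
    (hτ : τ.s = (2 : ℂ) • bg A p) (n m : ℤ) (a b : VL ι) (ha : a ∈ Vn A p n) (hb : b ∈ Vn A p m)
    (h : n ≠ m) : beta ε τ a b = 0 := by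
  have h1 : Vn A p n ≤ LinearMap.ker ((du1_B ε τ).flip b) := by
    rw [Vn, Submodule.span_le]
    rintro x ⟨γ, f, d, hf, hd, rfl⟩
    have h2 : Vn A p m ≤ LinearMap.ker (du1_B ε τ (Finsupp.single γ f)) := by
      rw [Vn, Submodule.span_le]
      rintro y ⟨δ, g, e, hg, he, rfl⟩
      rw [SetLike.mem_coe, LinearMap.mem_ker, ad1_B]
      refine beta_single hA (by omega) ε τ hτ γ δ f g d e hf hg (Or.inr ?_)
      rw [hd, he]
      exact h
    have h3 := h2 hb
    rw [LinearMap.mem_ker, ad1_B] at h3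
    rw [SetLike.mem_coe, LinearMap.mem_ker, ad1_Bf]
    exact h3
  have h4 := h1 ha
  rw [LinearMap.mem_ker, ad1_Bf] at h4
  exact h4

theorem ad1_ch (hA : IsADE A) (hp : 2 ≤ p) (ε : Cocycle A p) (τ : Shift A p)
    (hτ : τ.s = (2 : ℂ) • bg A p) (γ δ : ι → ℤ) (f g : Fock ι) (h : δ ≠ -γ) :
    beta ε τ (Finsupp.single γ f) (Finsupp.single δ g) = 0 := by
  have h1 : Finsupp.single γ f ∈ LinearMap.ker ((du1_B ε τ).flip (Finsupp.single δ g)) := by
    refine vp2_single_mem _ γ f fun d => ?_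
    have h2 : Finsupp.single δ g ∈ LinearMap.ker (du1_B ε τ
        (Finsupp.single γ (weightedHomogeneousComponent (wF (ι := ι)) d f))) := by
      refine vp2_single_mem _ δ g fun e => ?_
      rw [LinearMap.mem_ker, ad1_B]
      exact beta_single hA (by omega) ε τ hτ γ δ _ _ d e
        (weightedHomogeneousComponent_isWeightedHomogeneous _ _)
        (weightedHomogeneousComponent_isWeightedHomogeneous _ _) (Or.inl h)
    rw [LinearMap.mem_ker, ad1_B] at h2
    rw [LinearMap.mem_ker, ad1_Bf]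
    exact h2
  rw [LinearMap.mem_ker, ad1_Bf] at h1
  exact h1

theorem beta_ch (hA : IsADE A) (hp : 2 ≤ p) (ε : Cocycle A p) (τ : Shift A p)
    (hτ : τ.s = (2 : ℂ) • bg A p) (γ δ : ι → ℤ) (a b : VL ι)
    (ha : a ∈ Finsupp.supported (Fock ι) ℂ {γ}) (hb : b ∈ Finsupp.supported (Fock ι) ℂ {δ})
    (h : δ ≠ -γ) : beta ε τ a b = 0 := by
  rw [va4_supp_single γ a ha, va4_supp_single δ b hb]
  exact ad1_ch hA hp ε τ hτ γ δ _ _ h

omit [Fintype ι] [DecidableEq ι] in
theorem ad1_single_supp (γ : ι → ℤ) (f : Fock ι) :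
    Finsupp.single γ f ∈ Finsupp.supported (Fock ι) ℂ {γ} :=
  Finsupp.single_mem_supported ℂ f (Set.mem_singleton γ)

/-- Only the component of charge `-γ` pairs with `a` of charge `γ`. -/
theorem beta_comp_right (hA : IsADE A) (hp : 2 ≤ p) (ε : Cocycle A p) (τ : Shift A p)
    (hτ : τ.s = (2 : ℂ) • bg A p) (γ : ι → ℤ) (a b : VL ι)
    (ha : a ∈ Finsupp.supported (Fock ι) ℂ {γ}) :
    beta ε τ a b = beta ε τ a (Finsupp.single (-γ) (b (-γ))) := by
  have h1 : b ∈ LinearMap.ker (du1_B ε τ a - du1_B ε τ a ∘ₗ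
      (Finsupp.lsingle (-γ) ∘ₗ Finsupp.lapply (-γ) : VL ι →ₗ[ℂ] VL ι)) := by
    refine vp2_mem_of_comp _ b fun δ => ?_
    refine LinearMap.mem_ker.2 ?_
    change beta ε τ a (Finsupp.single δ (b δ)) -
      beta ε τ a (Finsupp.single (-γ) ((Finsupp.single δ (b δ) : VL ι) (-γ))) = 0
    by_cases hd : δ = -γ
    · rw [hd, Finsupp.single_eq_same, sub_self]
    · rw [beta_ch hA hp ε τ hτ γ δ a _ ha (ad1_single_supp δ _) hd,
        Finsupp.single_eq_of_ne (fun h => hd h.symm), Finsupp.single_zero]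
      rw [ad1_zero_right, sub_self]
  exact sub_eq_zero.1 (LinearMap.mem_ker.1 h1)

theorem beta_comp_left (hA : IsADE A) (hp : 2 ≤ p) (ε : Cocycle A p) (τ : Shift A p)
    (hτ : τ.s = (2 : ℂ) • bg A p) (γ : ι → ℤ) (a b : VL ι)
    (hb : b ∈ Finsupp.supported (Fock ι) ℂ {γ}) :
    beta ε τ a b = beta ε τ (Finsupp.single (-γ) (a (-γ))) b := by
  have h1 : a ∈ LinearMap.ker ((du1_B ε τ).flip b - (du1_B ε τ).flip b ∘ₗ
      (Finsupp.lsingle (-γ) ∘ₗ Finsupp.lapply (-γ) : VL ι →ₗ[ℂ] VL ι)) := by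
    refine vp2_mem_of_comp _ a fun δ => ?_
    refine LinearMap.mem_ker.2 ?_
    change beta ε τ (Finsupp.single δ (a δ)) b -
      beta ε τ (Finsupp.single (-γ) ((Finsupp.single δ (a δ) : VL ι) (-γ))) b = 0
    by_cases hd : δ = -γ
    · rw [hd, Finsupp.single_eq_same, sub_self]
    · have h3 : γ ≠ -δ := by
        intro h
        apply hd
        rw [h, neg_neg]
      rw [beta_ch hA hp ε τ hτ δ γ _ b (ad1_single_supp δ _) hb h3,
        Finsupp.single_eq_of_ne (fun h => hd h.symm), Finsupp.single_zero]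
      rw [ad1_zero_left, sub_self]
  exact sub_eq_zero.1 (LinearMap.mem_ker.1 h1)

omit [DecidableEq ι] in
theorem ad1_top0_homog (γ : ι → ℤ) (f : Fock ι) (d : ℕ) (hf : FH f d)
    (h : ¬ (γ = 0 ∧ d = 0)) : top0 (Finsupp.single γ f) = 0 := by
  rw [vp3_top0_single]
  split_ifs with h1
  · exact vp3_cc_homog f d hf (Nat.one_le_iff_ne_zero.2 fun h2 => h ⟨h1, h2⟩)
  · rfl

theorem ad1_beta_vac_right (hA : IsADE A) (hp : 2 ≤ p) (ε : Cocycle A p) (τ : Shift A p)
    (hτ : τ.s = (2 : ℂ) • bg A p) (t : VL ι) (ht : t ∈ W A p) :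
    beta ε τ t vac = top0 t := by
  have h1 : W A p ≤ LinearMap.ker ((du1_B ε τ).flip vac - top0) := by
    refine W_span _ fun γ f d hf _ => ?_
    refine LinearMap.mem_ker.2 ?_
    change beta ε τ (Finsupp.single γ f) vac - top0 (Finsupp.single γ f) = 0
    by_cases h : γ = 0 ∧ d = 0
    · obtain ⟨h2, h3⟩ := h
      subst h2 h3
      have h4 : f = C (coeff 0 f) := by
        ext m
        rw [coeff_C]
        split_ifs with h6
        · rw [← h6]
        · by_contra h7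
          have h8 := hf h7
          apply h6
          have h9 : ∀ x ∈ m.support, False := by
            intro x hx
            have h10 := Finsupp.le_weight (wF (ι := ι)) (s := x) (by unfold wF; omega) m
            rw [h8] at h10
            exact Finsupp.mem_support_iff.1 hx (Nat.le_zero.1 h10)
          ext x
          by_contra h11
          exact h9 x (Finsupp.mem_support_iff.2 fun h12 => h11 (by rw [h12]; rfl))
      have h5 : (Finsupp.single 0 f : VL ι) = (coeff 0 f) • vac := by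
        rw [vac, Finsupp.smul_single, smul_eq_C_mul, mul_one, ← h4]
      rw [h5, beta_smul_left, beta_vac, map_smul, smul_eq_mul, sub_self]
    · rw [ad1_top0_homog γ f d hf h, sub_zero, vac]
      refine beta_single hA (by omega) ε τ hτ γ 0 f 1 d 0 hf (isWeightedHomogeneous_one _ _) ?_
      by_cases h2 : γ = 0
      · right
        rw [h2, ad1_wt_zero]
        intro h3
        exact h ⟨h2, by omega⟩
      · left
        intro h3
        apply h2
        rw [← neg_neg γ, ← h3, neg_zero]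
  exact sub_eq_zero.1 (LinearMap.mem_ker.1 (h1 ht))

theorem ad1_sq (w : ℤ) : (((Int.negOnePow w) : ℤ) : ℂ) * (((Int.negOnePow w) : ℤ) : ℂ) = 1 := by
  rw [← Int.cast_mul, ← Units.val_mul, Int.units_mul_self, Units.val_one, Int.cast_one]

theorem beta_symm (hA : IsADE A) (hp : 2 ≤ p) (ε : Cocycle A p) (τ : Shift A p)
    (hτ : τ.s = (2 : ℂ) • bg A p) (a b : VL ι) (ha : a ∈ W A p) (hb : b ∈ W A p) :
    beta ε τ a b = beta ε τ b a := by
  let W' : Submodule ℂ (VL ι) :=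
    { carrier := {x | x ∈ W A p ∧ ∀ y ∈ W A p, beta ε τ x y = beta ε τ y x}
      add_mem' := by
        rintro x x' ⟨h1, h2⟩ ⟨h3, h4⟩
        refine ⟨add_mem h1 h3, fun y hy => ?_⟩
        rw [beta_add_left, beta_add_right, h2 y hy, h4 y hy]
      zero_mem' := by
        refine ⟨zero_mem _, fun y _ => ?_⟩
        rw [ad1_zero_left, ad1_zero_right]
      smul_mem' := by
        rintro c x ⟨h1, h2⟩
        refine ⟨Submodule.smul_mem _ c h1, fun y hy => ?_⟩
        rw [beta_smul_left, beta_smul_right, h2 y hy] }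
  have h1 : fi1_P ε ≤ W' := by
    refine fi1_P_le ε W' ?_ ?_
    · refine ⟨vac_mem_W hA (by omega), fun y hy => ?_⟩
      rw [beta_vac, ad1_beta_vac_right hA hp ε τ hτ y hy]
    · rintro g ⟨lam, js, hl, rfl⟩ m w ⟨hw1, hw2⟩
      refine ⟨cS_mem_W hA hp ε lam hl js m w hw1, fun y hy => ?_⟩
      have hwU : w ∈ UU ε := by
        rw [← W_eq_UU hA hp ε]
        exact hw1
      have hyU : y ∈ UU ε := by
        rw [← W_eq_UU hA hp ε]
        exact hy
      rw [beta_cS hA hp ε τ hτ lam hl js m w y hwU hy,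
        hw2 _ (cS_mem_W hA hp ε lam hl js _ y hy),
        beta_cS hA hp ε τ hτ lam hl js _ y w hyU hw1, ← mul_assoc, ad1_sq, one_mul,
        sub_sub_cancel]
  have h2 : a ∈ W' := by
    apply h1
    apply fi1_UU_le_P ε
    rw [← W_eq_UU hA hp ε]
    exact ha
  exact h2.2 b hb

theorem top0_wt (hA : IsADE A) (hp : 2 ≤ p) (n : ℤ) (hn : n ≠ 0) (v : VL ι) (hv : v ∈ Vn A p n) :
    top0 v = 0 := by
  have _ := hA
  have _ := hp
  rcases Vn_comp n v hv 0 with h | ⟨d, hd, hd'⟩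
  · change constantCoeff (v 0) = 0
    rw [h, map_zero]
  · rw [ad1_wt_zero] at hd'
    exact vp3_cc_homog (v 0) d hd (by omega)

theorem ad1_top0_LS0 (hA : IsADE A) (hp : 2 ≤ p) (v : VL ι) (hv : v ∈ W A p) :
    top0 (LS (Shift.zero A p) 0 v) = 0 := by
  have h1 : W A p ≤ LinearMap.ker (top0 ∘ₗ LS (Shift.zero A p) 0) := by
    refine W_span _ fun γ f d hf _ => ?_
    refine LinearMap.mem_ker.2 ?_
    rw [LinearMap.comp_apply]
    have h2 := (mem_Vn_iff hA (by omega) _ _).1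
      (single_mem_Vn (A := A) (p := p) γ f d hf ((d : ℤ) + wtExp A p γ) rfl)
    rw [h2, map_smul]
    by_cases h : γ = 0 ∧ d = 0
    · obtain ⟨h3, h4⟩ := h
      subst h3 h4
      rw [ad1_wt_zero]
      simp
    · rw [ad1_top0_homog γ f d hf h, smul_zero]
  exact LinearMap.mem_ker.1 (h1 hv)

theorem top0_LS (hA : IsADE A) (hp : 2 ≤ p) (k : ℤ) (hk : k ≤ 1) (v : VL ι) (hv : v ∈ W A p) :
    top0 (LS (Shift.zero A p) k v) = 0 := by
  rcases lt_trichotomy k 0 with h | h | h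
  · exact top0_LS_neg k h v
  · rw [h]
    exact ad1_top0_LS0 hA hp v hv
  · have h1 : k = 1 := by omega
    rw [h1]
    exact top0_LS_one hA (by omega) v hv

theorem ad1_LS_mode (hA : IsADE A) (hp : 2 ≤ p) (ε : Cocycle A p) (m : ℕ) (u : VL ι)
    (hu : u ∈ pv4_Prim A p m) (b : VL ι) (hb : b ∈ W A p) (s : ℤ) :
    top0 (mode ε u s (LS (Shift.zero A p) 1 b)) =
      ((s : ℂ) - 2 * m + 2) * top0 (mode ε u (s + 1) b) := by
  rw [pv4_mem] at hu
  obtain ⟨hu1, hu2, hu3⟩ := hu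
  have h0 : LS (Shift.zero A p) 0 u = ((m : ℕ) : ℂ) • u := by
    have h1 := (mem_Vn_iff hA (by omega) _ _).1 hu1.2
    rw [h1, Int.cast_natCast]
  have h1 := congrArg (fun L : VL ι →ₗ[ℂ] VL ι => top0 (L b))
    (LS_mode hA (by omega) ε u m h0 hu2 hu3 1 s)
  simp only [LinearMap.sub_apply, LinearMap.comp_apply, LinearMap.smul_apply, map_sub, map_smul,
    smul_eq_mul] at h1
  rw [top0_LS hA hp 1 le_rfl _ (W_closed hA hp ε u b hu1.1 hb s)] at h1
  rw [Int.cast_one] at h1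
  linear_combination -h1

theorem ad1_step (hA : IsADE A) (hp : 2 ≤ p) (ε : Cocycle A p) (m : ℕ) (u : VL ι)
    (hu : u ∈ pv4_Prim A p m) (n : ℕ) : ∀ j : ℤ, j < n → j < m → ∀ b ∈ Wn A p j,
      top0 (mode ε u (m + j - 1) b) = 0 := by
  induction n with
  | zero =>
    intro j hj _ b hb
    rw [Wn_neg hA hp j (by simpa using hj), Submodule.mem_bot] at hb
    rw [hb, map_zero, map_zero]
  | succ n ih =>
    intro j hj hm b hb
    by_cases hjn : j < n
    · exact ih j hjn hm b hb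
    have h1 := ad1_LS_mode hA hp ε m u hu b hb.1 (m + (j - 1) - 1)
    have hb' : LS (Shift.zero A p) 1 b ∈ Wn A p (j - 1) :=
      ⟨W_LS hA (by omega) 1 b hb.1, LS_Vn 1 j b hb.2⟩
    rw [ih (j - 1) (by push_cast at hj; omega) (by omega) _ hb'] at h1
    have h2 : ((m : ℤ) + (j - 1) - 1 + 1) = (m : ℤ) + j - 1 := by ring
    rw [h2] at h1
    rcases mul_eq_zero.1 h1.symm with h3 | h3
    · exfalso
      have h4 : (((m : ℤ) + (j - 1) - 1 - 2 * m + 2 : ℤ) : ℂ) = 0 := by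
        push_cast
        push_cast at h3
        exact h3
      have h5 : (m : ℤ) + (j - 1) - 1 - 2 * m + 2 = 0 := by exact_mod_cast h4
      omega
    · exact h3

theorem top0_mode (hA : IsADE A) (hp : 2 ≤ p) (ε : Cocycle A p) (m : ℕ) (u : VL ι)
    (hu : u ∈ pv4_Prim A p m) (b : VL ι) (hb : b ∈ W A p) (s : ℤ) (hs : s ≤ 2 * m - 2) :
    top0 (mode ε u s b) = 0 := by
  have h1 : W A p ≤ LinearMap.ker (top0 ∘ₗ mode ε u s) := by
    refine W_span _ fun γ f d hf hW => ?_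
    refine LinearMap.mem_ker.2 ?_
    rw [LinearMap.comp_apply]
    have hb' : Finsupp.single γ f ∈ Wn A p ((d : ℤ) + wtExp A p γ) :=
      ⟨hW, single_mem_Vn γ f d hf _ rfl⟩
    generalize (d : ℤ) + wtExp A p γ = j at hb'
    by_cases h : s = m + j - 1
    · rw [h]
      exact ad1_step hA hp ε m u hu (j + 1).toNat j (by omega) (by omega) _ hb'
    · exact top0_wt hA hp (m + j - s - 1) (by omega) _
        (mode_Wn hA hp ε m j s u _ ((pv4_mem _ _).1 hu).1 hb').2
  exact LinearMap.mem_ker.1 (h1 hb)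

theorem top0_mode_L1 (hA : IsADE A) (hp : 2 ≤ p) (ε : Cocycle A p) (m : ℕ) (u : VL ι)
    (hu : u ∈ pv4_Prim A p m) (b : VL ι) (hb : b ∈ W A p) (s : ℤ) :
    top0 (mode ε u s (LS (Shift.zero A p) 1 b)) =
      ((s : ℂ) - 2 * m + 2) * top0 (mode ε u (s + 1) b) := ad1_LS_mode hA hp ε m u hu b hb s

end

end WPQ
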