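import Pool.Agent.WPQ.AD1

/-! [WPQ-AD2] The adjoint of a primary field of charge `0`.

Plan.  `exists_sharp`: `beta_left`, `beta_right`, `du1_surj`/`Wn_le_UU` (DU1): `β` is perfect on `Wn m`, so
there is `u' ∈ Wn m` with `β(u',b) = (-1)^m top0(u_{2m-1} b)` for `b ∈ Wn m`; for `b ∈ Wn j`, `j ≠ m`, both
sides are `0` (`beta_wt`, `mode_Wn`, `top0_wt`), so it holds for all `b ∈ W` (`W_span`).
Primary (`L(k) u' = 0`, `k = 1, 2`): by `beta_left` it is enough that `β(L(k)u', b) = 0`, `b ∈ Wn (m-k)`: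
`= β(u', L(-k)b) = (-1)^m top0(u_{2m-1} L(-k) b)`, `LS_mode` at `-k`, `top0_LS`, and
`top0(u_{2m-1-k} b) = 0` (`top0_mode`).  Charge `0`: for `γ ≠ 0` let `u'_γ = single γ (u' γ) ∈ Wn m`; for `b ∈ Wn m`:
`β(u'_γ, b) = β(u', b_{-γ}) = (-1)^m top0(u_{2m-1} b_{-γ}) = 0` since `u` has charge `0` (`mode_charge`;
`top0` looks at charge `0` only); so `u'_γ = 0` by `beta_left`.
`adjoint_sharp`: `G_k(a,b) = β(u'_k a, b) - (-1)^m β(a, u_{2m-2-k} b)`.  Induction principle `fi1_P_le`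
with `W' = {a ∈ W | ∀ k, ∀ b ∈ W, G_k(a,b) = 0}`.
`vac`: `k ≥ 0`: `u'_k vac = 0` and `top0_mode`.  `k = -1-i`: `i! u'_{-1-i} vac = T^i u'` (translation
covariance on `vac`, `transl_vac`), `T = L(-1)`, `β(T^i u', b) = β(u', L(1)^i b)`, and
`top0(u_{2m-1} L(1)^i b) = i! top0(u_{2m-1+i} b)` by `top0_mode_L1` repeatedly.
Step: `c = cS ε zero lam js`, `Δ = wtExp A p (-lam)`, `σ = (-1)^Δ`, `s' = 2Δ-2-s`, `k' = 2m-2-k`; by `beta_cS`:
`G_k(c_s a', b) = β([u'_k, c_s] a', b) + σ G_k(a', c_{s'} b) - (-1)^m σ β(a', [c_{s'}, u_{k'}] b)`, the middle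
term is `0` by induction.  Let `H k s = G_k(c_s a', b)` for the fixed `a', b`.  Locality (`vo_local`,
`mode_cS`: `c = mode ε (Ew ..)`) of `(u', c)` and `(u, c)` gives `N` with
`∑_{i ≤ N} (-1)^i C(N,i) H(k+N-i, s+i) = 0` (for the second term reverse the sum: `i ↦ N-i`, `Finset.sum_range_reflect`).
`H k s = 0` for `s ≥ s0` (`s0` depends on `a'` only).  Descending induction on `s`: the `i = 0` term is
`H(k+N, s)`, all others vanish.
`adjoint`: second relation from `adjoint_sharp`; first relation by symmetry: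
`β(u_k a, b) = β(b, u_k a) = (-1)^m β(u'_{2m-2-k} b, a) = (-1)^m β(a, u'_{2m-2-k} b)` (`beta_symm`). -/

namespace WPQ

open MvPolynomial AF

noncomputable section

variable {ι : Type} [Fintype ι] [DecidableEq ι] {A : Matrix ι ι ℤ} {p : ℕ}

/-! ### helper lemmas -/

theorem ad2_sign (m : ℕ) : (-1 : ℂ) ^ m * (-1 : ℂ) ^ m = 1 := by
  rw [← mul_pow]
  norm_num

theorem ad2_beta_zero_left (ε : Cocycle A p) (τ : Shift A p) (v : VL ι) : beta ε τ 0 v = 0 := by
  have h : du1_B ε τ 0 v = 0 := by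
    rw [map_zero]
    rfl
  exact h

/-- the relation for `LS (-k)` used in `exists_sharp` -/
theorem ad2_top_LS (hA : IsADE A) (hp : 2 ≤ p) (ε : Cocycle A p) (m : ℕ) (u : VL ι)
    (hu : u ∈ pv4_Prim A p m) (k : ℤ) (hk : 1 ≤ k) (v : VL ι) (hv : v ∈ W A p) :
    top0 (mode ε u (2 * m - 1) (LS (Shift.zero A p) (-k) v)) = 0 := by
  have hp1 : 1 ≤ p := by omega
  obtain ⟨hW, h1, h2⟩ := (pv4_mem _ _).1 hu
  have h0 : LS (Shift.zero A p) 0 u = (m : ℂ) • u := by
    have h := LS_zero_Vn hA hp1 m u hW.2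
    push_cast at h
    exact h
  have h3 := LinearMap.congr_fun (LS_mode hA hp1 ε u m h0 h1 h2 (-k) (2 * m - 1)) v
  rw [LinearMap.sub_apply, LinearMap.comp_apply, LinearMap.comp_apply, LinearMap.smul_apply] at h3
  have h4 := congrArg (fun x => top0 x) h3
  simp only [map_sub, map_smul] at h4
  rw [top0_LS hA hp (-k) (by omega) _ (W_closed hA hp ε u v hW.1 hv _),
    top0_mode hA hp ε m u hu v hv _ (by omega), smul_zero, zero_sub, neg_eq_zero] at h4
  exact h4

theorem ad2_single_Wn (n : ℤ) (v : VL ι) (hv : v ∈ Wn A p n) (γ : ι → ℤ) :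
    Finsupp.single γ (v γ) ∈ Wn A p n := by
  refine ⟨W_comp v hv.1 γ, ?_⟩
  rcases Vn_comp n v hv.2 γ with h | ⟨d, hd, hd'⟩
  · rw [h, Finsupp.single_zero]
    exact Submodule.zero_mem _
  · exact single_mem_Vn γ (v γ) d hd n hd'

theorem exists_sharp (hA : IsADE A) (hp : 2 ≤ p) (ε : Cocycle A p) (τ : Shift A p)
    (hτ : τ.s = (2 : ℂ) • bg A p) (m : ℕ) (u : VL ι) (hu : u ∈ Prim0 A p m) :
    ∃ u' ∈ Prim0 A p m, ∀ b ∈ W A p,
      beta ε τ u' b = (-1 : ℂ) ^ m * top0 (mode ε u (2 * m - 1) b) := by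
  have hp1 : 1 ≤ p := by omega
  obtain ⟨hup, huc⟩ := hu
  obtain ⟨huW, hu1, hu2⟩ := (pv4_mem _ _).1 hup
  have hVf : FiniteDimensional ℂ (Vn A p m) := Vn_finite hA (by omega) m
  have hWf : FiniteDimensional ℂ (Wn A p m) := Submodule.finiteDimensional_inf_right _ _
  have hsurj := du1_surj (V := Wn A p m)
    ((du1_B ε τ).domRestrict₁₂ (Wn A p m) (Wn A p m)) fun t ht => by
      refine Subtype.ext (beta_left hA hp ε τ hτ m t t.2 fun v hv => ?_)
      exact ht ⟨v, hv⟩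
  set φ : VL ι →ₗ[ℂ] ℂ := ((-1 : ℂ) ^ m) • (top0 ∘ₗ mode ε u (2 * m - 1)) with hφ
  have hφa : ∀ b, φ b = (-1 : ℂ) ^ m * top0 (mode ε u (2 * m - 1) b) := fun b => rfl
  obtain ⟨t, ht⟩ := hsurj (φ.domRestrict (Wn A p m))
  have hm : ∀ b ∈ Wn A p m, beta ε τ (t : VL ι) b = φ b := by
    intro b hb
    have h1 := LinearMap.congr_fun ht ⟨b, hb⟩
    exact h1
  have hall : ∀ b ∈ W A p, beta ε τ (t : VL ι) b = φ b := by
    have hle : W A p ≤ LinearMap.ker (du1_B ε τ (t : VL ι) - φ) := by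
      refine W_span _ fun γ f d hf hW => ?_
      rw [LinearMap.mem_ker, LinearMap.sub_apply, sub_eq_zero]
      show beta ε τ (t : VL ι) (Finsupp.single γ f) = φ (Finsupp.single γ f)
      by_cases hj : (d : ℤ) + wtExp A p γ = m
      · exact hm _ ⟨hW, single_mem_Vn γ f d hf _ hj⟩
      · have hV := single_mem_Vn γ f d hf ((d : ℤ) + wtExp A p γ) rfl
        rw [beta_wt hA hp ε τ hτ m _ _ _ t.2.2 hV (Ne.symm hj), hφa]
        have h2 := mode_Wn hA hp ε m ((d : ℤ) + wtExp A p γ) (2 * m - 1) u _ huW ⟨hW, hV⟩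
        rw [top0_wt hA hp _ (by omega) _ h2.2, mul_zero]
    intro b hb
    have h1 := hle hb
    rw [LinearMap.mem_ker, LinearMap.sub_apply, sub_eq_zero] at h1
    exact h1
  have hUU : ∀ x ∈ W A p, x ∈ UU ε := fun x hx => by rwa [← W_eq_UU hA hp ε]
  have hprim : ∀ k : ℤ, 1 ≤ k → LS (Shift.zero A p) k (t : VL ι) = 0 := by
    intro k hk
    refine beta_left hA hp ε τ hτ (m - k) _ ⟨W_LS hA hp1 k _ t.2.1, LS_Vn k m _ t.2.2⟩
      fun v hv => ?_
    rw [beta_LS hA hp ε τ hτ k _ _ (hUU _ t.2.1) hv.1, hall _ (W_LS hA hp1 (-k) _ hv.1), hφa,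
      ad2_top_LS hA hp ε m u hup k hk v hv.1, mul_zero]
  refine ⟨t, ⟨(pv4_mem _ _).2 ⟨t.2, hprim 1 le_rfl, hprim 2 (by norm_num)⟩, ?_⟩, hall⟩
  refine va4_mem_supp _ _ fun γ hγ => ?_
  have hz : Finsupp.single γ ((t : VL ι) γ) = (0 : VL ι) := by
    refine beta_left hA hp ε τ hτ m _ (ad2_single_Wn m _ t.2 γ) fun v hv => ?_
    have hs : Finsupp.single γ ((t : VL ι) γ) ∈ Finsupp.supported (Fock ι) ℂ {γ} :=
      va4_mem_supp _ _ fun η hη => by
        rw [Finsupp.single_apply, if_neg (Ne.symm hη)]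
    have hs' : Finsupp.single (-γ) (v (-γ)) ∈ Finsupp.supported (Fock ι) ℂ {-γ} :=
      va4_mem_supp _ _ fun η hη => by
        rw [Finsupp.single_apply, if_neg (Ne.symm hη)]
    rw [beta_comp_right hA hp ε τ hτ γ _ v hs]
    have h1 := beta_comp_left hA hp ε τ hτ (-γ) (t : VL ι) (Finsupp.single (-γ) (v (-γ))) hs'
    rw [neg_neg] at h1
    rw [← h1, hall _ (W_comp v hv.1 (-γ)), hφa]
    have h2 := mode_charge hA hp1 ε 0 (-γ) (2 * m - 1) u _ huc hs'
    have h3 : top0 (mode ε u (2 * m - 1) (Finsupp.single (-γ) (v (-γ)))) = 0 := by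
      show MvPolynomial.constantCoeff ((mode ε u (2 * m - 1) (Finsupp.single (-γ) (v (-γ)))) 0) = 0
      rw [va4_supp _ _ h2 0 ?_, map_zero]
      intro h4
      apply hγ
      rw [zero_add] at h4
      exact neg_eq_zero.1 h4.symm
    rw [h3, mul_zero]
  exact Finsupp.single_eq_zero.1 hz

/-- the vacuum case of `adjoint_sharp` for negative modes -/
theorem ad2_vac_neg (hA : IsADE A) (hp : 2 ≤ p) (ε : Cocycle A p) (τ : Shift A p)
    (hτ : τ.s = (2 : ℂ) • bg A p) (m : ℕ) (u u' : VL ι) (hu : u ∈ pv4_Prim A p m)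
    (hu' : u' ∈ W A p)
    (h : ∀ b ∈ W A p, beta ε τ u' b = (-1 : ℂ) ^ m * top0 (mode ε u (2 * m - 1) b)) (i : ℕ) :
    ∀ b ∈ W A p, beta ε τ (mode ε u' (-1 - i) vac) b =
      (-1 : ℂ) ^ m * top0 (mode ε u (2 * m - 1 + i) b) := by
  have hp1 : 1 ≤ p := by omega
  have hUU : ∀ x ∈ W A p, x ∈ UU ε := fun x hx => by rwa [← W_eq_UU hA hp ε]
  have hvac : (vac : VL ι) ∈ W A p := vac_mem_W hA hp1
  induction i with
  | zero =>
    intro b hb
    rw [Nat.cast_zero, sub_zero, add_zero, mode_neg_one_vac hA hp1, h b hb]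
  | succ i ih =>
    intro b hb
    have ht := LinearMap.congr_fun ((mode_spec hA hp1 ε u').translation (-1 - i)) vac
    rw [LinearMap.sub_apply, LinearMap.comp_apply, LinearMap.comp_apply, LinearMap.smul_apply,
      transl_vac, map_zero, sub_zero] at ht
    have hx : mode ε u' (-1 - i) vac ∈ W A p := W_closed hA hp ε u' vac hu' hvac _
    have h1 := beta_LS hA hp ε τ hτ (-1) (mode ε u' (-1 - i) vac) b (hUU _ hx) hb
    rw [LS_zero_neg_one, ht, beta_smul_left, neg_neg, ih _ (W_LS hA hp1 1 b hb),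
      top0_mode_L1 hA hp ε m u hu b hb] at h1
    have e1 : (-1 - (i : ℤ) - 1 : ℤ) = -1 - ((i + 1 : ℕ) : ℤ) := by push_cast; ring
    have e2 : (2 * (m : ℤ) - 1 + i + 1 : ℤ) = 2 * m - 1 + ((i + 1 : ℕ) : ℤ) := by push_cast; ring
    rw [e1, e2] at h1
    have hi : ((i : ℂ) + 1) ≠ 0 := by exact_mod_cast Nat.succ_ne_zero i
    push_cast at h1
    have h2 : ((i : ℂ) + 1) * beta ε τ (mode ε u' (-1 - ((i : ℤ) + 1)) vac) b =
        ((i : ℂ) + 1) * ((-1 : ℂ) ^ m * top0 (mode ε u (2 * m - 1 + ((i : ℤ) + 1)) b)) := by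
      linear_combination h1
    have h3 := mul_left_cancel₀ hi h2
    push_cast
    exact h3

theorem adjoint_sharp (hA : IsADE A) (hp : 2 ≤ p) (ε : Cocycle A p) (τ : Shift A p)
    (hτ : τ.s = (2 : ℂ) • bg A p) (m : ℕ) (u u' : VL ι) (hu : u ∈ Prim0 A p m)
    (hu' : u' ∈ Prim0 A p m)
    (h : ∀ b ∈ W A p, beta ε τ u' b = (-1 : ℂ) ^ m * top0 (mode ε u (2 * m - 1) b))
    (k : ℤ) (a b : VL ι) (ha : a ∈ W A p) (hb : b ∈ W A p) :
    beta ε τ (mode ε u' k a) b = (-1 : ℂ) ^ m * beta ε τ a (mode ε u (2 * m - 2 - k) b) := by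
  have hp1 : 1 ≤ p := by omega
  have hUU : ∀ x ∈ W A p, x ∈ UU ε := fun x hx => by rwa [← W_eq_UU hA hp ε]
  have hvac : (vac : VL ι) ∈ W A p := vac_mem_W hA hp1
  obtain ⟨hup, huc⟩ := hu
  obtain ⟨huW, hu1, hu2⟩ := (pv4_mem _ _).1 hup
  obtain ⟨hup', huc'⟩ := hu'
  obtain ⟨huW', hu1', hu2'⟩ := (pv4_mem _ _).1 hup'
  let W' : Submodule ℂ (VL ι) :=
    { carrier := {a | a ∈ W A p ∧ ∀ (k : ℤ) (b : VL ι), b ∈ W A p →
        beta ε τ (mode ε u' k a) b = (-1 : ℂ) ^ m * beta ε τ a (mode ε u (2 * m - 2 - k) b)}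
      add_mem' := by
        rintro x y ⟨hx, hx'⟩ ⟨hy, hy'⟩
        refine ⟨add_mem hx hy, fun k b hb => ?_⟩
        rw [map_add, beta_add_left, beta_add_left, hx' k b hb, hy' k b hb]
        ring
      zero_mem' := by
        refine ⟨zero_mem _, fun k b hb => ?_⟩
        rw [map_zero, ad2_beta_zero_left, ad2_beta_zero_left, mul_zero]
      smul_mem' := by
        rintro c x ⟨hx, hx'⟩
        refine ⟨Submodule.smul_mem _ c hx, fun k b hb => ?_⟩
        rw [map_smul, beta_smul_left, beta_smul_left, hx' k b hb]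
        ring }
  have hle : W A p ≤ W' := by
    rw [W_eq_UU hA hp ε]
    refine (fi1_UU_le_P ε).trans (fi1_P_le ε W' ?_ ?_)
    · refine ⟨hvac, fun k b hb => ?_⟩
      rw [beta_vac]
      by_cases hk : 0 ≤ k
      · rw [(mode_spec hA hp1 ε u').vacuum k hk, ad2_beta_zero_left,
          top0_mode hA hp ε m u hup b hb _ (by omega), mul_zero]
      · obtain ⟨i, hi⟩ : ∃ i : ℕ, k = -1 - i := ⟨(-1 - k).toNat, by omega⟩
        have e : (2 * (m : ℤ) - 2 - (-1 - (i : ℤ))) = 2 * m - 1 + i := by ring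
        rw [hi, ad2_vac_neg hA hp ε τ hτ m u u' hup huW'.1 h i b hb, e]
    · rintro g ⟨lam, js, hl, rfl⟩ s a' ⟨ha', ih⟩
      refine ⟨cS_mem_W hA hp ε lam hl js s a' ha', fun k b hb => ?_⟩
      -- notation
      set c := cS ε (Shift.zero A p) lam js with hc
      set D := wtExp A p (-lam) with hD
      set σ : ℂ := (((Int.negOnePow D) : ℤ) : ℂ) with hσ
      have hcW : ∀ (n : ℤ) (x : VL ι), x ∈ W A p → c n x ∈ W A p :=
        fun n x hx => cS_mem_W hA hp ε lam hl js n x hx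
      have huWm : ∀ (n : ℤ) (x : VL ι), x ∈ W A p → mode ε u n x ∈ W A p :=
        fun n x hx => W_closed hA hp ε u x huW.1 hx n
      have huWm' : ∀ (n : ℤ) (x : VL ι), x ∈ W A p → mode ε u' n x ∈ W A p :=
        fun n x hx => W_closed hA hp ε u' x huW'.1 hx n
      have hbc : ∀ (n : ℤ) (x y : VL ι), x ∈ W A p → y ∈ W A p →
          beta ε τ (c n x) y = σ * beta ε τ x (c (2 * D - 2 - n) y) :=
        fun n x y hx hy => beta_cS hA hp ε τ hτ lam hl js n x y (hUU x hx) hy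
      -- locality
      have hcm : mode ε (Ew ε (Shift.zero A p) js (Finsupp.single (-lam) 1)) = c :=
        mode_cS hA hp1 ε lam js
      have hcv := mode_spec hA hp1 ε (Ew ε (Shift.zero A p) js (Finsupp.single (-lam) 1))
      rw [hcm] at hcv
      obtain ⟨N1, hN1⟩ := vo_local hA hp1 ε u' _ _ _ (mode_spec hA hp1 ε u') hcv
      obtain ⟨N2, hN2⟩ := vo_local hA hp1 ε u _ _ _ (mode_spec hA hp1 ε u) hcv
      obtain ⟨N, hLu', hLu⟩ : ∃ N, Loc N (mode ε u') c ∧ Loc N (mode ε u) c :=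
        ⟨max N1 N2, LocP.mono (le_max_left _ _) hN1, LocP.mono (le_max_right _ _) hN2⟩
      set H : ℤ → ℤ → ℂ := fun k s => beta ε τ (mode ε u' k (c s a')) b -
        (-1 : ℂ) ^ m * beta ε τ (c s a') (mode ε u (2 * m - 2 - k) b) with hH
      have hH1 : ∀ k s : ℤ, H k s =
          du1_B ε τ ((mode ε u' k ∘ₗ c s - c s ∘ₗ mode ε u' k) a') b +
          (-1 : ℂ) ^ m * σ * du1_B ε τ a'
            ((mode ε u (2 * m - 2 - k) ∘ₗ c (2 * D - 2 - s) -
              c (2 * D - 2 - s) ∘ₗ mode ε u (2 * m - 2 - k)) b) := by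
        intro k s
        have e1 := hbc s a' (mode ε u (2 * m - 2 - k) b) ha' (huWm _ _ hb)
        have e2 := hbc s (mode ε u' k a') b (huWm' _ _ ha') hb
        have e3 := ih k (c (2 * D - 2 - s) b) (hcW _ _ hb)
        rw [LinearMap.sub_apply, LinearMap.sub_apply, map_sub, map_sub, LinearMap.sub_apply,
          LinearMap.comp_apply, LinearMap.comp_apply, LinearMap.comp_apply, LinearMap.comp_apply]
        show beta ε τ (mode ε u' k (c s a')) b -
          (-1 : ℂ) ^ m * beta ε τ (c s a') (mode ε u (2 * m - 2 - k) b) =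
          beta ε τ (mode ε u' k (c s a')) b - beta ε τ (c s (mode ε u' k a')) b +
          (-1 : ℂ) ^ m * σ * (beta ε τ a' (mode ε u (2 * m - 2 - k) (c (2 * D - 2 - s) b)) -
            beta ε τ a' (c (2 * D - 2 - s) (mode ε u (2 * m - 2 - k) b)))
        rw [e1, e2, e3]
        ring
      have hrel : ∀ k s : ℤ, ∑ i ∈ Finset.range (N + 1), ((-1 : ℂ) ^ i * (N.choose i : ℂ)) *
          H (k + N - i) (s + i) = 0 := by
        intro k s
        have f1 := congrArg (fun f : VL ι →ₗ[ℂ] VL ι => du1_B ε τ (f a') b) (hLu' k s)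
        have f2 := congrArg (fun f : VL ι →ₗ[ℂ] VL ι => du1_B ε τ a' (f b))
          (hLu (2 * m - 2 - k - N) (2 * D - 2 - s - N))
        simp only [LinearMap.sum_apply, LinearMap.smul_apply, map_sum, map_smul,
          LinearMap.zero_apply, map_zero, smul_eq_mul] at f1 f2
        rw [← Finset.sum_range_reflect] at f2
        simp only [hH1, mul_add, Finset.sum_add_distrib]
        rw [f1, zero_add]
        have f3 : ∑ i ∈ Finset.range (N + 1), (-1 : ℂ) ^ i * (N.choose i : ℂ) *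
            ((-1 : ℂ) ^ m * σ * du1_B ε τ a'
              ((mode ε u (2 * m - 2 - (k + N - i)) ∘ₗ c (2 * D - 2 - (s + i)) -
                c (2 * D - 2 - (s + i)) ∘ₗ mode ε u (2 * m - 2 - (k + N - i))) b)) =
            ((-1 : ℂ) ^ m * σ * (-1 : ℂ) ^ N) * ∑ j ∈ Finset.range (N + 1),
              (-1 : ℂ) ^ (N + 1 - 1 - j) * (N.choose (N + 1 - 1 - j) : ℂ) *
              du1_B ε τ a' ((mode ε u (2 * m - 2 - k - N + N - ((N + 1 - 1 - j : ℕ) : ℤ)) ∘ₗ
                c (2 * D - 2 - s - N + ((N + 1 - 1 - j : ℕ) : ℤ)) -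
                c (2 * D - 2 - s - N + ((N + 1 - 1 - j : ℕ) : ℤ)) ∘ₗ
                mode ε u (2 * m - 2 - k - N + N - ((N + 1 - 1 - j : ℕ) : ℤ))) b) := by
          rw [Finset.mul_sum]
          refine Finset.sum_congr rfl fun j hj => ?_
          have hjN : j ≤ N := by
            have := Finset.mem_range.1 hj
            omega
          have g1 : (N + 1 - 1 - j : ℕ) = N - j := by omega
          have g2 : ((N - j : ℕ) : ℤ) = (N : ℤ) - j := by
            push_cast [Nat.cast_sub hjN]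
            ring
          rw [g1, Nat.choose_symm hjN, g2]
          have g3 : (2 * (m : ℤ) - 2 - k - N + N - ((N : ℤ) - j)) = 2 * m - 2 - (k + N - j) := by
            ring
          have g4 : (2 * D - 2 - s - N + ((N : ℤ) - j)) = 2 * D - 2 - (s + j) := by ring
          rw [g3, g4]
          have g5 : (-1 : ℂ) ^ N * (-1 : ℂ) ^ (N - j) = (-1 : ℂ) ^ j := by
            have g6 : (-1 : ℂ) ^ N = (-1 : ℂ) ^ (N - j) * (-1 : ℂ) ^ j := by
              rw [← pow_add]
              congr 1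
              omega
            rw [g6]
            have g7 := ad2_sign (N - j)
            linear_combination (-1 : ℂ) ^ j * g7
          rw [← g5]
          ring
        rw [f3, f2, mul_zero]
      obtain ⟨s0, hs0⟩ := hcv.field a'
      have hzero : ∀ n : ℕ, ∀ s : ℤ, s0 - n ≤ s → ∀ k : ℤ, H k s = 0 := by
        intro n
        induction n with
        | zero =>
          intro s hs k
          have e1 : c s a' = 0 := hs0 s (by simpa using hs)
          show beta ε τ (mode ε u' k (c s a')) b -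
            (-1 : ℂ) ^ m * beta ε τ (c s a') (mode ε u (2 * m - 2 - k) b) = 0
          rw [e1, map_zero, ad2_beta_zero_left, ad2_beta_zero_left, mul_zero, sub_zero]
        | succ n ihn =>
          intro s hs k
          have e1 := hrel (k - N) s
          rw [Finset.sum_eq_single_of_mem 0 (Finset.mem_range.2 (Nat.succ_pos N))] at e1
          · simpa using e1
          · intro i _ hi
            rw [ihn (s + i) (by push_cast at hs; omega), mul_zero]
      have hfin := hzero (s0 - s).toNat s (by omega) k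
      exact sub_eq_zero.1 hfin
  exact (hle ha).2 k b hb

theorem adjoint (hA : IsADE A) (hp : 2 ≤ p) (ε : Cocycle A p) (τ : Shift A p)
    (hτ : τ.s = (2 : ℂ) • bg A p) (m : ℕ) (u : VL ι) (hu : u ∈ Prim0 A p m) :
    ∃ u' ∈ Prim0 A p m,
      (∀ (k : ℤ) (a b : VL ι), a ∈ W A p → b ∈ W A p →
        beta ε τ (mode ε u k a) b = (-1 : ℂ) ^ m * beta ε τ a (mode ε u' (2 * m - 2 - k) b)) ∧
      (∀ (k : ℤ) (a b : VL ι), a ∈ W A p → b ∈ W A p →
        beta ε τ (mode ε u' k a) b = (-1 : ℂ) ^ m * beta ε τ a (mode ε u (2 * m - 2 - k) b)) := by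
  obtain ⟨u', hu', h⟩ := exists_sharp hA hp ε τ hτ m u hu
  refine ⟨u', hu', fun k a b ha hb => ?_, fun k a b ha hb =>
    adjoint_sharp hA hp ε τ hτ m u u' hu hu' h k a b ha hb⟩
  have huW : u ∈ W A p := hu.1.1.1
  have huW' : u' ∈ W A p := hu'.1.1.1
  have h1 := adjoint_sharp hA hp ε τ hτ m u u' hu hu' h (2 * m - 2 - k) b a hb ha
  have e : (2 * (m : ℤ) - 2 - (2 * m - 2 - k)) = k := by ring
  rw [e] at h1
  rw [beta_symm hA hp ε τ hτ _ _ (W_closed hA hp ε u a huW ha k) hb,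
    beta_symm hA hp ε τ hτ a _ ha (W_closed hA hp ε u' b huW' hb _), h1, ← mul_assoc, ad2_sign,
    one_mul]

end

end WPQ
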