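import Pool.Agent.WPQ.AFD

/-! [WPQ-AF1] Elementary properties of locality.

Plan.  View `F : ℤ → ℤ → H` (values in an abelian group of operators); `(T₁ - T₂)^N` applied to `F` is
`∑_{k ≤ N} (-1)^k C(N,k) F (m+N-k) (n+k)`.  It is useful to prove first (for functions with values in
any ℂ-module `H`) that this sum is the `N`-fold iterate of
`(D F) m n = F (m+1) n - F m (n+1)` (Pascal, `Finset.sum_range_succ'`), e.g. as
`theorem af1_iter`; then `mono`, `symm`, `der` follow by induction on iterates.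
`der`: if `G m n = -m * F (m-1) n` then `D^(N+1) G = - m * T₁⁻¹ D^(N+1) F - (N+1) * D^N F` (up to shifts:
`D (m • F) = m • D F + T₁ F`), so it vanishes when `D^N F = 0`. -/

namespace WPQ.AF

noncomputable section

variable {V V' : Type} [AddCommGroup V] [Module ℂ V] [AddCommGroup V'] [Module ℂ V']

/-- The binomial sum is an iterate of the difference operator. -/
theorem iter_eq {H : Type} [AddCommGroup H] [Module ℂ H] (N : ℕ) (F : ℤ → ℤ → H) (m n : ℤ) :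
    ((fun (G : ℤ → ℤ → H) (m n : ℤ) => G (m + 1) n - G m (n + 1))^[N] F) m n =
      ∑ k ∈ Finset.range (N + 1), ((-1 : ℂ) ^ k * (N.choose k : ℂ)) • F (m + N - k) (n + k) := by
  induction N generalizing m n with
  | zero => simp
  | succ N ih =>
    rw [Function.iterate_succ_apply']
    show ((fun (G : ℤ → ℤ → H) (m n : ℤ) => G (m + 1) n - G m (n + 1))^[N] F) (m + 1) n -
      ((fun (G : ℤ → ℤ → H) (m n : ℤ) => G (m + 1) n - G m (n + 1))^[N] F) m (n + 1) = _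
    rw [ih, ih, Finset.sum_range_succ' (fun k => ((-1 : ℂ) ^ k * ((N + 1).choose k : ℂ)) •
      F (m + (N + 1 : ℕ) - k) (n + k)) (N + 1)]
    have h1 : ∑ k ∈ Finset.range (N + 1), ((-1 : ℂ) ^ k * (N.choose k : ℂ)) •
        F (m + 1 + N - k) (n + k) =
        ∑ k ∈ Finset.range (N + 1), ((-1 : ℂ) ^ (k + 1) * (N.choose (k + 1) : ℂ)) •
          F (m + (N + 1 : ℕ) - (k + 1 : ℕ)) (n + (k + 1 : ℕ)) +
        ((-1 : ℂ) ^ 0 * ((N + 1).choose 0 : ℂ)) • F (m + (N + 1 : ℕ) - (0 : ℕ)) (n + (0 : ℕ)) := by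
      have h2 : ∑ k ∈ Finset.range (N + 1), ((-1 : ℂ) ^ k * (N.choose k : ℂ)) •
          F (m + 1 + N - k) (n + k) = ∑ k ∈ Finset.range (N + 1 + 1),
          ((-1 : ℂ) ^ k * (N.choose k : ℂ)) • F (m + 1 + N - k) (n + k) := by
        rw [Finset.sum_range_succ _ (N + 1), Nat.choose_succ_self]
        simp
      rw [h2, Finset.sum_range_succ']
      refine congrArg₂ (· + ·) (Finset.sum_congr rfl fun k _ => ?_) ?_
      · refine congrArg₂ (· • ·) rfl (congrArg₂ F ?_ rfl)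
        push_cast
        ring
      · simp only [Nat.choose_zero_right]
        refine congrArg₂ (· • ·) rfl (congrArg₂ F ?_ rfl)
        push_cast
        ring
    rw [h1, add_sub_right_comm, ← Finset.sum_sub_distrib]
    refine congrArg₂ (· + ·) (Finset.sum_congr rfl fun k _ => ?_) rfl
    have e1 : m + N - k = m + (N + 1 : ℕ) - (k + 1 : ℕ) := by push_cast; ring
    have e2 : n + 1 + k = n + (k + 1 : ℕ) := by push_cast; ring
    rw [e1, e2, ← sub_smul, Nat.choose_succ_succ]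
    refine congrArg₂ (· • ·) ?_ rfl
    push_cast
    ring

/-- the difference operator -/
def af1D (H : Type) [AddCommGroup H] [Module ℂ H] : (ℤ → ℤ → H) →ₗ[ℂ] (ℤ → ℤ → H) where
  toFun G := fun m n => G (m + 1) n - G m (n + 1)
  map_add' F G := by
    funext m n
    simp only [Pi.add_apply]
    abel
  map_smul' c F := by
    funext m n
    simp only [Pi.smul_apply, RingHom.id_apply, smul_sub]

/-- the commutator as a function of two integers -/
def af1C (a : ℤ → V →ₗ[ℂ] V') (b : ℤ → V →ₗ[ℂ] V) (b' : ℤ → V' →ₗ[ℂ] V') :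
    ℤ → ℤ → (V →ₗ[ℂ] V') := fun m n => a m ∘ₗ b n - b' n ∘ₗ a m

theorem af1_iff {N : ℕ} {a : ℤ → V →ₗ[ℂ] V'} {b : ℤ → V →ₗ[ℂ] V} {b' : ℤ → V' →ₗ[ℂ] V'} :
    LocP N a b b' ↔ (af1D (V →ₗ[ℂ] V') ^ N) (af1C a b b') = 0 := by
  have key : ∀ m n : ℤ, (af1D (V →ₗ[ℂ] V') ^ N) (af1C a b b') m n =
      ∑ k ∈ Finset.range (N + 1), ((-1 : ℂ) ^ k * (N.choose k : ℂ)) •
        (a (m + N - k) ∘ₗ b (n + k) - b' (n + k) ∘ₗ a (m + N - k)) := by
    intro m n
    rw [Module.End.pow_apply]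
    exact iter_eq N (af1C a b b') m n
  constructor
  · intro h
    funext m n
    rw [key]
    exact h m n
  · intro h m n
    rw [← key, h]
    rfl

theorem af1_shift {H : Type} [AddCommGroup H] [Module ℂ H] (D E : H →ₗ[ℂ] H) (c : ℂ)
    (hDE : ∀ x, D (E x) = E (D x) + c • x) (N : ℕ) : ∀ x : H, (D ^ N) x = 0 →
      (D ^ (N + 1)) (E x) = 0 := by
  induction N with
  | zero =>
    intro x hx
    have hx0 : x = 0 := hx
    rw [hx0, map_zero, map_zero]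
  | succ N ih =>
    intro x hx
    rw [pow_succ, Module.End.mul_apply, hDE, map_add, map_smul, hx, smul_zero, add_zero]
    refine ih (D x) ?_
    rw [← Module.End.mul_apply, ← pow_succ]
    exact hx

theorem LocP.mono {N M : ℕ} (h : N ≤ M) {a : ℤ → V →ₗ[ℂ] V'} {b : ℤ → V →ₗ[ℂ] V}
    {b' : ℤ → V' →ₗ[ℂ] V'} (hl : LocP N a b b') : LocP M a b b' := by
  rw [af1_iff] at hl ⊢
  obtain ⟨j, rfl⟩ := Nat.exists_eq_add_of_le h
  rw [add_comm, pow_add, Module.End.mul_apply, hl, map_zero]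

theorem Loc.symm {N : ℕ} {a b : ℤ → V →ₗ[ℂ] V} (h : Loc N a b) : Loc N b a := by
  have h0 : (af1D (V →ₗ[ℂ] V) ^ N) (af1C a b b) = 0 := af1_iff.1 h
  refine af1_iff.2 ?_
  have h1 : ∀ (N : ℕ) (F : ℤ → ℤ → (V →ₗ[ℂ] V)),
      (af1D (V →ₗ[ℂ] V) ^ N) (fun m n => F n m) =
        (-1 : ℂ) ^ N • fun m n => (af1D (V →ₗ[ℂ] V) ^ N) F n m := by
    intro N
    induction N with
    | zero =>
      intro F
      funext m n
      simp
    | succ N ih =>
      intro F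
      rw [pow_succ, Module.End.mul_apply]
      have e : af1D (V →ₗ[ℂ] V) (fun m n => F n m) =
          (-1 : ℂ) • fun m n => (af1D (V →ₗ[ℂ] V) F) n m := by
        funext m n
        show F n (m + 1) - F (n + 1) m = (-1 : ℂ) • (F (n + 1) m - F n (m + 1))
        rw [neg_one_smul, neg_sub]
      rw [e, map_smul, ih, smul_smul, ← pow_succ', Module.End.mul_apply]
  have h2 : af1C b a a = (-1 : ℂ) • fun m n => af1C a b b n m := by
    funext m n
    show b m ∘ₗ a n - a n ∘ₗ b m = (-1 : ℂ) • (a n ∘ₗ b m - b m ∘ₗ a n)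
    rw [neg_one_smul, neg_sub]
  rw [h2, map_smul, h1, h0]
  funext m n
  simp

theorem LocP.add {N : ℕ} {a a2 : ℤ → V →ₗ[ℂ] V'} {b : ℤ → V →ₗ[ℂ] V} {b' : ℤ → V' →ₗ[ℂ] V'}
    (h : LocP N a b b') (h2 : LocP N a2 b b') : LocP N (fun n => a n + a2 n) b b' := by
  rw [af1_iff] at h h2 ⊢
  have e : af1C (fun n => a n + a2 n) b b' = af1C a b b' + af1C a2 b b' := by
    funext m n
    show (a m + a2 m) ∘ₗ b n - b' n ∘ₗ (a m + a2 m) =
      (a m ∘ₗ b n - b' n ∘ₗ a m) + (a2 m ∘ₗ b n - b' n ∘ₗ a2 m)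
    rw [LinearMap.add_comp, LinearMap.comp_add]
    abel
  rw [e, map_add, h, h2, add_zero]

theorem LocP.smul {N : ℕ} (c : ℂ) {a : ℤ → V →ₗ[ℂ] V'} {b : ℤ → V →ₗ[ℂ] V}
    {b' : ℤ → V' →ₗ[ℂ] V'} (h : LocP N a b b') : LocP N (fun n => c • a n) b b' := by
  rw [af1_iff] at h ⊢
  have e : af1C (fun n => c • a n) b b' = c • af1C a b b' := by
    funext m n
    show (c • a m) ∘ₗ b n - b' n ∘ₗ (c • a m) = c • (a m ∘ₗ b n - b' n ∘ₗ a m)
    rw [LinearMap.smul_comp, LinearMap.comp_smul, smul_sub]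
  rw [e, map_smul, h, smul_zero]

theorem LocP.add_right {N : ℕ} {a : ℤ → V →ₗ[ℂ] V'} {b b2 : ℤ → V →ₗ[ℂ] V}
    {b' b2' : ℤ → V' →ₗ[ℂ] V'} (h : LocP N a b b') (h2 : LocP N a b2 b2') :
    LocP N a (fun n => b n + b2 n) (fun n => b' n + b2' n) := by
  rw [af1_iff] at h h2 ⊢
  have e : af1C a (fun n => b n + b2 n) (fun n => b' n + b2' n) =
      af1C a b b' + af1C a b2 b2' := by
    funext m n
    show a m ∘ₗ (b n + b2 n) - (b' n + b2' n) ∘ₗ a m =
      (a m ∘ₗ b n - b' n ∘ₗ a m) + (a m ∘ₗ b2 n - b2' n ∘ₗ a m)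
    rw [LinearMap.add_comp, LinearMap.comp_add]
    abel
  rw [e, map_add, h, h2, add_zero]

theorem LocP.smul_right {N : ℕ} (c : ℂ) {a : ℤ → V →ₗ[ℂ] V'} {b : ℤ → V →ₗ[ℂ] V}
    {b' : ℤ → V' →ₗ[ℂ] V'} (h : LocP N a b b') :
    LocP N a (fun n => c • b n) (fun n => c • b' n) := by
  rw [af1_iff] at h ⊢
  have e : af1C a (fun n => c • b n) (fun n => c • b' n) = c • af1C a b b' := by
    funext m n
    show a m ∘ₗ (c • b n) - (c • b' n) ∘ₗ a m = c • (a m ∘ₗ b n - b' n ∘ₗ a m)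
    rw [LinearMap.smul_comp, LinearMap.comp_smul, smul_sub]
  rw [e, map_smul, h, smul_zero]

/-- multiplication by the first variable after a shift -/
def af1E (H : Type) [AddCommGroup H] [Module ℂ H] : (ℤ → ℤ → H) →ₗ[ℂ] (ℤ → ℤ → H) where
  toFun G := fun m n => (-m : ℂ) • G (m - 1) n
  map_add' F G := by
    funext m n
    simp only [Pi.add_apply, smul_add]
  map_smul' c F := by
    funext m n
    simp only [Pi.smul_apply, RingHom.id_apply]
    rw [smul_comm]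

/-- multiplication by the second variable after a shift -/
def af1E' (H : Type) [AddCommGroup H] [Module ℂ H] : (ℤ → ℤ → H) →ₗ[ℂ] (ℤ → ℤ → H) where
  toFun G := fun m n => (-n : ℂ) • G m (n - 1)
  map_add' F G := by
    funext m n
    simp only [Pi.add_apply, smul_add]
  map_smul' c F := by
    funext m n
    simp only [Pi.smul_apply, RingHom.id_apply]
    rw [smul_comm]

theorem af1_DE {H : Type} [AddCommGroup H] [Module ℂ H] (F : ℤ → ℤ → H) :
    af1D H (af1E H F) = af1E H (af1D H F) + (-1 : ℂ) • F := by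
  funext m n
  show (-((m + 1 : ℤ) : ℂ)) • F (m + 1 - 1) n - (-(m : ℂ)) • F (m - 1) (n + 1) =
    (-(m : ℂ)) • (F (m - 1 + 1) n - F (m - 1) (n + 1)) + (-1 : ℂ) • F m n
  rw [add_sub_cancel_right, sub_add_cancel]
  push_cast
  module

theorem af1_DE' {H : Type} [AddCommGroup H] [Module ℂ H] (F : ℤ → ℤ → H) :
    af1D H (af1E' H F) = af1E' H (af1D H F) + (1 : ℂ) • F := by
  funext m n
  show (-(n : ℂ)) • F (m + 1) (n - 1) - (-((n + 1 : ℤ) : ℂ)) • F m (n + 1 - 1) =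
    (-(n : ℂ)) • (F (m + 1) (n - 1) - F m (n - 1 + 1)) + (1 : ℂ) • F m n
  rw [add_sub_cancel_right, sub_add_cancel]
  push_cast
  module

theorem LocP.der_left {N : ℕ} {a : ℤ → V →ₗ[ℂ] V'} {b : ℤ → V →ₗ[ℂ] V} {b' : ℤ → V' →ₗ[ℂ] V'}
    (h : LocP N a b b') : LocP (N + 1) (der a) b b' := by
  rw [af1_iff] at h ⊢
  have e : af1C (der a) b b' = af1E _ (af1C a b b') := by
    funext m n
    show ((-m : ℂ) • a (m - 1)) ∘ₗ b n - b' n ∘ₗ ((-m : ℂ) • a (m - 1)) =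
      (-m : ℂ) • (a (m - 1) ∘ₗ b n - b' n ∘ₗ a (m - 1))
    rw [LinearMap.smul_comp, LinearMap.comp_smul, smul_sub]
  rw [e]
  exact af1_shift _ _ _ af1_DE N _ h

theorem LocP.der_right {N : ℕ} {a : ℤ → V →ₗ[ℂ] V'} {b : ℤ → V →ₗ[ℂ] V} {b' : ℤ → V' →ₗ[ℂ] V'}
    (h : LocP N a b b') : LocP (N + 1) a (der b) (der b') := by
  rw [af1_iff] at h ⊢
  have e : af1C a (der b) (der b') = af1E' _ (af1C a b b') := by
    funext m n
    show a m ∘ₗ ((-n : ℂ) • b (n - 1)) - ((-n : ℂ) • b' (n - 1)) ∘ₗ a m =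
      (-n : ℂ) • (a m ∘ₗ b (n - 1) - b' (n - 1) ∘ₗ a m)
    rw [LinearMap.smul_comp, LinearMap.comp_smul, smul_sub]
  rw [e]
  exact af1_shift _ _ _ af1_DE' N _ h

theorem Loc.idF_right (a : ℤ → V →ₗ[ℂ] V) : Loc 0 a idF := by
  rw [Loc, af1_iff]
  funext m n
  show a m ∘ₗ idF n - idF n ∘ₗ a m = 0
  unfold idF
  by_cases h : n = -1
  · rw [if_pos h, LinearMap.comp_id, LinearMap.id_comp, sub_self]
  · rw [if_neg h, LinearMap.comp_zero, LinearMap.zero_comp, sub_self]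

/-- Exact commutation is locality of order `0`. -/
theorem LocP.of_comm {a : ℤ → V →ₗ[ℂ] V'} {b : ℤ → V →ₗ[ℂ] V} {b' : ℤ → V' →ₗ[ℂ] V'}
    (h : ∀ m n, a m ∘ₗ b n = b' n ∘ₗ a m) : LocP 0 a b b' := by
  rw [af1_iff]
  funext m n
  show a m ∘ₗ b n - b' n ∘ₗ a m = 0
  rw [h, sub_self]

theorem LocP.comm {a : ℤ → V →ₗ[ℂ] V'} {b : ℤ → V →ₗ[ℂ] V} {b' : ℤ → V' →ₗ[ℂ] V'}
    (h : LocP 0 a b b') (m n : ℤ) : a m ∘ₗ b n = b' n ∘ₗ a m := by
  rw [af1_iff] at h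
  have h1 := congrFun (congrFun h m) n
  exact sub_eq_zero.1 h1

/-- The pair `a : V → V'`, `(b, b')` as fields on `V × V'`. -/
theorem LocP.iff_prod {N : ℕ} {a : ℤ → V →ₗ[ℂ] V'} {b : ℤ → V →ₗ[ℂ] V} {b' : ℤ → V' →ₗ[ℂ] V'} :
    LocP N a b b' ↔
      Loc N (fun n => (LinearMap.inr ℂ V V' ∘ₗ a n ∘ₗ LinearMap.fst ℂ V V' : V × V' →ₗ[ℂ] V × V'))
        (fun n => (b n).prodMap (b' n)) := by
  have e : ∀ m n : ℤ, (LinearMap.inr ℂ V V' ∘ₗ a m ∘ₗ LinearMap.fst ℂ V V' :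
        V × V' →ₗ[ℂ] V × V') ∘ₗ ((b n).prodMap (b' n)) -
        ((b n).prodMap (b' n)) ∘ₗ (LinearMap.inr ℂ V V' ∘ₗ a m ∘ₗ LinearMap.fst ℂ V V') =
      LinearMap.inr ℂ V V' ∘ₗ (a m ∘ₗ b n - b' n ∘ₗ a m) ∘ₗ LinearMap.fst ℂ V V' := by
    intro m n
    ext x <;> simp
  have e2 : ∀ m n : ℤ, ∑ k ∈ Finset.range (N + 1), ((-1 : ℂ) ^ k * (N.choose k : ℂ)) •
      ((LinearMap.inr ℂ V V' ∘ₗ a (m + N - k) ∘ₗ LinearMap.fst ℂ V V' :
        V × V' →ₗ[ℂ] V × V') ∘ₗ ((b (n + k)).prodMap (b' (n + k))) -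
        ((b (n + k)).prodMap (b' (n + k))) ∘ₗ
          (LinearMap.inr ℂ V V' ∘ₗ a (m + N - k) ∘ₗ LinearMap.fst ℂ V V')) =
      LinearMap.inr ℂ V V' ∘ₗ (∑ k ∈ Finset.range (N + 1), ((-1 : ℂ) ^ k * (N.choose k : ℂ)) •
        (a (m + N - k) ∘ₗ b (n + k) - b' (n + k) ∘ₗ a (m + N - k))) ∘ₗ
          LinearMap.fst ℂ V V' := by
    intro m n
    simp only [e]
    ext x <;> simp [Prod.fst_sum, Prod.snd_sum]
  constructor
  · intro h m n
    rw [e2, h m n]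
    simp
  · intro h m n
    have h1 := h m n
    rw [e2] at h1
    ext x
    have h2 := congrArg (fun f => (f (x, 0)).2) h1
    simpa using h2

end

end WPQ.AF
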