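import Pool.Agent.WPQ.AF1

/-! [WPQ-AF2] Dong's lemma for the bracket with a zero mode.

Plan.  First one space (`V = V'`, all three fields on `V`): `F (m,n,k) = ⁅a_m, ⁅e_k, b_n⁆⁆`
(commutators of endomorphisms, functions of three integers with commuting shifts `T_a, T_b, T_e`).
`(T_b - T_e)^N F = 0` (locality of `b, e`); by Jacobi `⁅a, ⁅e, b⁆⁆ = ⁅⁅a, e⁆, b⁆ + ⁅e, ⁅a, b⁆⁆`, so
`(T_a - T_e)^N (T_a - T_b)^N F = 0`.  `(T_a - T_b)^(3N) = (T_a - T_b)^N ((T_a - T_e) + (T_e - T_b))^(2N)`,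
every term of the binomial expansion contains `(T_a - T_e)^N (T_a - T_b)^N` or `(T_e - T_b)^N`.
Take `k = 0`.  (A convenient formalisation: `F : ℤ × ℤ × ℤ → End V`, `T_x` commuting linear
endomorphisms of the function space, `Commute`, `add_pow`; `iter_eq` connects with `Loc`.)
`dong0_left` is the same with the roles of `a` and `b` exchanged (`⁅⁅e, a⁆, b⁆`), use `Loc.symm`.
Pairs: `LocP.iff_prod`: fields `inr ∘ a ∘ fst`, `b.prodMap b'`, `e.prodMap e'` on `V × V'`;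
for `Loc N (b.prodMap b') (e.prodMap e')` use `hbe` and `hbe'` componentwise. -/

namespace WPQ.AF

noncomputable section

variable {V V' : Type} [AddCommGroup V] [Module ℂ V] [AddCommGroup V'] [Module ℂ V']

/-- shift of the first variable -/
def af2A (H : Type) [AddCommGroup H] [Module ℂ H] : Module.End ℂ (ℤ → ℤ → ℤ → H) where
  toFun G := fun m n k => G (m + 1) n k
  map_add' _ _ := rfl
  map_smul' _ _ := rfl

/-- shift of the second variable -/
def af2B (H : Type) [AddCommGroup H] [Module ℂ H] : Module.End ℂ (ℤ → ℤ → ℤ → H) where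
  toFun G := fun m n k => G m (n + 1) k
  map_add' _ _ := rfl
  map_smul' _ _ := rfl

/-- shift of the third variable -/
def af2C (H : Type) [AddCommGroup H] [Module ℂ H] : Module.End ℂ (ℤ → ℤ → ℤ → H) where
  toFun G := fun m n k => G m n (k + 1)
  map_add' _ _ := rfl
  map_smul' _ _ := rfl

variable {H H' : Type} [AddCommGroup H] [Module ℂ H] [AddCommGroup H'] [Module ℂ H']

theorem af2_AB : Commute (af2A H) (af2B H) := rfl

theorem af2_AC : Commute (af2A H) (af2C H) := rfl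

theorem af2_BC : Commute (af2B H) (af2C H) := rfl

theorem af2_iterAB (Λ : ℤ → H →ₗ[ℂ] H') (N : ℕ) : ∀ G : ℤ → ℤ → H,
    ((af2A H' - af2B H') ^ N) (fun m n k => Λ k (G m n)) =
      fun m n k => Λ k ((af1D H ^ N) G m n) := by
  induction N with
  | zero => intro G; rfl
  | succ N ih =>
    intro G
    rw [pow_succ, Module.End.mul_apply]
    have e : (af2A H' - af2B H') (fun m n k => Λ k (G m n)) =
        fun m n k => Λ k (af1D H G m n) := by
      funext m n k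
      show Λ k (G (m + 1) n) - Λ k (G m (n + 1)) = Λ k (G (m + 1) n - G m (n + 1))
      rw [map_sub]
    rw [e, ih, pow_succ, Module.End.mul_apply]

theorem af2_iterAC (Λ : ℤ → H →ₗ[ℂ] H') (N : ℕ) : ∀ G : ℤ → ℤ → H,
    ((af2A H' - af2C H') ^ N) (fun m n k => Λ n (G m k)) =
      fun m n k => Λ n ((af1D H ^ N) G m k) := by
  induction N with
  | zero => intro G; rfl
  | succ N ih =>
    intro G
    rw [pow_succ, Module.End.mul_apply]
    have e : (af2A H' - af2C H') (fun m n k => Λ n (G m k)) =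
        fun m n k => Λ n (af1D H G m k) := by
      funext m n k
      show Λ n (G (m + 1) k) - Λ n (G m (k + 1)) = Λ n (G (m + 1) k - G m (k + 1))
      rw [map_sub]
    rw [e, ih, pow_succ, Module.End.mul_apply]

theorem af2_iterBC (Λ : ℤ → H →ₗ[ℂ] H') (N : ℕ) : ∀ G : ℤ → ℤ → H,
    ((af2B H' - af2C H') ^ N) (fun m n k => Λ m (G n k)) =
      fun m n k => Λ m ((af1D H ^ N) G n k) := by
  induction N with
  | zero => intro G; rfl
  | succ N ih =>
    intro G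
    rw [pow_succ, Module.End.mul_apply]
    have e : (af2B H' - af2C H') (fun m n k => Λ m (G n k)) =
        fun m n k => Λ m (af1D H G n k) := by
      funext m n k
      show Λ m (G (n + 1) k) - Λ m (G n (k + 1)) = Λ m (G (n + 1) k - G n (k + 1))
      rw [map_sub]
    rw [e, ih, pow_succ, Module.End.mul_apply]

theorem af2_eval (N : ℕ) : ∀ (F : ℤ → ℤ → ℤ → H) (m n k : ℤ),
    ((af2A H - af2B H) ^ N) F m n k = (af1D H ^ N) (fun m n => F m n k) m n := by
  induction N with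
  | zero => intro F m n k; rfl
  | succ N ih =>
    intro F m n k
    rw [pow_succ, Module.End.mul_apply, ih, pow_succ, Module.End.mul_apply]
    rfl

/-- the algebra of the Dong lemma -/
theorem af2_alg {M : Type} [AddCommGroup M] [Module ℂ M] {A B C : Module.End ℂ M}
    (hAB : Commute A B) (hAC : Commute A C) (hBC : Commute B C) (N : ℕ) (x : M)
    (h1 : ((B - C) ^ N) x = 0) (h2 : ((A - C) ^ N) (((A - B) ^ N) x) = 0) :
    ((A - B) ^ (3 * N)) x = 0 := by
  have c1 : Commute (A - C) (C - B) := by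
    refine Commute.sub_left ?_ ?_
    · exact Commute.sub_right hAC hAB
    · exact Commute.sub_right (Commute.refl C) hBC.symm
  have c2 : Commute (A - B) (A - C) := by
    refine Commute.sub_left ?_ ?_
    · exact Commute.sub_right (Commute.refl A) hAC
    · exact Commute.sub_right hAB.symm hBC
  have c3 : Commute (A - B) (C - B) := by
    refine Commute.sub_left ?_ ?_
    · exact Commute.sub_right hAC hAB
    · exact Commute.sub_right hBC (Commute.refl B)
  have e1 : (A - B) ^ (3 * N) = (A - B) ^ (2 * N) * (A - B) ^ N := by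
    rw [← pow_add]
    refine congrArg₂ (· ^ ·) rfl ?_
    ring
  have e2 : A - B = (A - C) + (C - B) := by abel
  have e3 : (A - B) ^ (2 * N) = ((A - C) + (C - B)) ^ (2 * N) := by rw [← e2]
  have h1' : ((C - B) ^ N) x = 0 := by
    have : (C - B) ^ N = (-1 : ℂ) ^ N • (B - C) ^ N := by
      rw [← neg_sub B C, ← neg_one_smul ℂ (B - C), smul_pow]
    rw [this, LinearMap.smul_apply, h1, smul_zero]
  rw [e1, Module.End.mul_apply, e3, c1.add_pow, LinearMap.sum_apply]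
  refine Finset.sum_eq_zero fun j hj => ?_
  rw [Finset.mem_range] at hj
  by_cases hjN : N ≤ j
  · obtain ⟨i, rfl⟩ := Nat.exists_eq_add_of_le hjN
    have e4 : (A - C) ^ (N + i) * (C - B) ^ (2 * N - (N + i)) * ((2 * N).choose (N + i) : ℕ) =
        (((2 * N).choose (N + i) : ℕ) : Module.End ℂ M) * ((C - B) ^ (2 * N - (N + i)) *
          ((A - C) ^ i * (A - C) ^ N)) := by
      rw [← pow_add, add_comm i N, (c1.pow_pow (N + i) (2 * N - (N + i))).eq]
      exact ((Nat.cast_commute _ _).eq).symm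
    rw [e4, Module.End.mul_apply, Module.End.mul_apply, Module.End.mul_apply, h2, map_zero,
      map_zero, map_zero]
  · have hl : N ≤ 2 * N - j := by omega
    obtain ⟨i, hi⟩ := Nat.exists_eq_add_of_le hl
    have e4 : ((A - C) ^ j * (C - B) ^ (2 * N - j) * ((2 * N).choose j : ℕ)) * (A - B) ^ N =
        (((2 * N).choose j : ℕ) : Module.End ℂ M) * ((A - C) ^ j * ((A - B) ^ N *
          ((C - B) ^ i * (C - B) ^ N))) := by
      rw [hi, ← pow_add, add_comm i N, (c3.pow_pow N (N + i)).eq, ← mul_assoc, ← mul_assoc]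
      refine congrArg₂ (· * ·) ?_ rfl
      rw [mul_assoc (((2 * N).choose j : ℕ) : Module.End ℂ M)]
      exact ((Nat.cast_commute _ _).eq).symm
    rw [← Module.End.mul_apply, e4]
    simp only [Module.End.mul_apply]
    rw [h1', map_zero, map_zero, map_zero, map_zero]

/-- the bracket with an operator as a linear map -/
def af2L (X : V →ₗ[ℂ] V) : (V →ₗ[ℂ] V) →ₗ[ℂ] (V →ₗ[ℂ] V) where
  toFun Y := X ∘ₗ Y - Y ∘ₗ X
  map_add' Y Z := by
    rw [LinearMap.comp_add, LinearMap.add_comp]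
    abel
  map_smul' c Y := by
    rw [LinearMap.comp_smul, LinearMap.smul_comp, RingHom.id_apply, smul_sub]

theorem af2_one_right {N : ℕ} {a b e : ℤ → V →ₗ[ℂ] V} (hab : Loc N a b) (hae : Loc N a e)
    (hbe : Loc N b e) : Loc (3 * N) a (br (e 0) (e 0) b) := by
  rw [Loc, af1_iff] at hab hae hbe ⊢
  have hΦ1 : ((af2B (V →ₗ[ℂ] V) - af2C (V →ₗ[ℂ] V)) ^ N)
      (fun m n k => af2L (a m) (e k ∘ₗ b n - b n ∘ₗ e k)) = 0 := by
    have e1 : (fun m n k => af2L (a m) (e k ∘ₗ b n - b n ∘ₗ e k)) =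
        fun m n k => (-(af2L (a m))) (af1C b e e n k) := by
      funext m n k
      show _ = -(af2L (a m)) (b n ∘ₗ e k - e k ∘ₗ b n)
      rw [← map_neg, neg_sub]
    rw [e1, af2_iterBC (fun m => -(af2L (a m))) N (af1C b e e), hbe]
    funext m n k
    show (-(af2L (a m))) 0 = 0
    rw [map_zero]
  have hΦ2 : ((af2A (V →ₗ[ℂ] V) - af2C (V →ₗ[ℂ] V)) ^ N)
      (((af2A (V →ₗ[ℂ] V) - af2B (V →ₗ[ℂ] V)) ^ N)
      (fun m n k => af2L (a m) (e k ∘ₗ b n - b n ∘ₗ e k))) = 0 := by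
    have e1 : (fun m n k => af2L (a m) (e k ∘ₗ b n - b n ∘ₗ e k)) =
        (fun m n k => (-(af2L (b n))) (af1C a e e m k)) +
          fun m n k => (af2L (e k)) (af1C a b b m n) := by
      funext m n k
      show a m ∘ₗ (e k ∘ₗ b n - b n ∘ₗ e k) - (e k ∘ₗ b n - b n ∘ₗ e k) ∘ₗ a m =
        -(b n ∘ₗ (a m ∘ₗ e k - e k ∘ₗ a m) - (a m ∘ₗ e k - e k ∘ₗ a m) ∘ₗ b n) +
        (e k ∘ₗ (a m ∘ₗ b n - b n ∘ₗ a m) - (a m ∘ₗ b n - b n ∘ₗ a m) ∘ₗ e k)
      simp only [LinearMap.comp_sub, LinearMap.sub_comp, LinearMap.comp_assoc]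
      abel
    have cc : Commute ((af2A (V →ₗ[ℂ] V) - af2C (V →ₗ[ℂ] V)) ^ N)
        ((af2A (V →ₗ[ℂ] V) - af2B (V →ₗ[ℂ] V)) ^ N) := by
      refine Commute.pow_pow ?_ N N
      refine Commute.sub_left ?_ ?_
      · exact Commute.sub_right (Commute.refl _) af2_AB
      · exact Commute.sub_right af2_AC.symm af2_BC.symm
    rw [e1, map_add, map_add]
    have e2 : ((af2A (V →ₗ[ℂ] V) - af2C (V →ₗ[ℂ] V)) ^ N)
        (((af2A (V →ₗ[ℂ] V) - af2B (V →ₗ[ℂ] V)) ^ N)
        (fun m n k => (-(af2L (b n))) (af1C a e e m k))) = 0 := by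
      rw [← Module.End.mul_apply, cc.eq, Module.End.mul_apply,
        af2_iterAC (fun n => -(af2L (b n))) N (af1C a e e), hae]
      have : (fun (m n k : ℤ) => (-(af2L (b n))) ((0 : ℤ → ℤ → (V →ₗ[ℂ] V)) m k)) = 0 := by
        funext m n k
        show (-(af2L (b n))) 0 = 0
        rw [map_zero]
      rw [this, map_zero]
    have e3 : ((af2A (V →ₗ[ℂ] V) - af2C (V →ₗ[ℂ] V)) ^ N)
        (((af2A (V →ₗ[ℂ] V) - af2B (V →ₗ[ℂ] V)) ^ N)
        (fun m n k => (af2L (e k)) (af1C a b b m n))) = 0 := by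
      rw [af2_iterAB (fun k => af2L (e k)) N (af1C a b b), hab]
      have : (fun (m n k : ℤ) => (af2L (e k)) ((0 : ℤ → ℤ → (V →ₗ[ℂ] V)) m n)) = 0 := by
        funext m n k
        show (af2L (e k)) 0 = 0
        rw [map_zero]
      rw [this, map_zero]
    rw [e2, e3, add_zero]
  have h := af2_alg af2_AB af2_AC af2_BC N _ hΦ1 hΦ2
  funext m n
  have h1 := congrFun (congrFun (congrFun h m) n) 0
  rw [af2_eval] at h1
  exact h1

theorem af2_one_left {N : ℕ} {a b e : ℤ → V →ₗ[ℂ] V} (hab : Loc N a b) (hae : Loc N a e)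
    (hbe : Loc N b e) : Loc (3 * N) (br (e 0) (e 0) a) b :=
  Loc.symm (af2_one_right (Loc.symm hab) hbe hae)

theorem af2_prod {N : ℕ} {b e : ℤ → V →ₗ[ℂ] V} {b' e' : ℤ → V' →ₗ[ℂ] V'} (hbe : Loc N b e)
    (hbe' : Loc N b' e') : Loc N (fun n => (b n).prodMap (b' n)) (fun n => (e n).prodMap (e' n)) := by
  intro m n
  have h1 := hbe m n
  have h2 := hbe' m n
  ext x
  · have h3 := congrArg (fun f => f x) h1
    simpa [LinearMap.sum_apply, Prod.fst_sum] using h3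
  · simp [Prod.snd_sum]
  · simp [Prod.fst_sum]
  · have h3 := congrArg (fun f => f x) h2
    simpa [LinearMap.sum_apply, Prod.snd_sum] using h3

theorem dong0_right {N : ℕ} {a : ℤ → V →ₗ[ℂ] V'} {b e : ℤ → V →ₗ[ℂ] V} {b' e' : ℤ → V' →ₗ[ℂ] V'}
    (hab : LocP N a b b') (hae : LocP N a e e') (hbe : Loc N b e) (hbe' : Loc N b' e') :
    LocP (3 * N) a (br (e 0) (e 0) b) (br (e' 0) (e' 0) b') := by
  have h := af2_one_right (LocP.iff_prod.1 hab) (LocP.iff_prod.1 hae) (af2_prod hbe hbe')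
  refine LocP.iff_prod.2 ?_
  have e1 : br ((e 0).prodMap (e' 0)) ((e 0).prodMap (e' 0)) (fun n => (b n).prodMap (b' n)) =
      fun n => (br (e 0) (e 0) b n).prodMap (br (e' 0) (e' 0) b' n) := by
    funext n
    unfold br
    ext x <;> simp
  rw [e1] at h
  exact h

theorem dong0_left {N : ℕ} {a : ℤ → V →ₗ[ℂ] V'} {b e : ℤ → V →ₗ[ℂ] V} {b' e' : ℤ → V' →ₗ[ℂ] V'}
    (hab : LocP N a b b') (hae : LocP N a e e') (hbe : Loc N b e) (hbe' : Loc N b' e') :
    LocP (3 * N) (br (e 0) (e' 0) a) b b' := by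
  have h := af2_one_left (LocP.iff_prod.1 hab) (LocP.iff_prod.1 hae) (af2_prod hbe hbe')
  refine LocP.iff_prod.2 ?_
  have e1 : br ((e 0).prodMap (e' 0)) ((e 0).prodMap (e' 0))
      (fun n => (LinearMap.inr ℂ V V' ∘ₗ a n ∘ₗ LinearMap.fst ℂ V V' : V × V' →ₗ[ℂ] V × V')) =
      fun n => (LinearMap.inr ℂ V V' ∘ₗ (br (e 0) (e' 0) a n) ∘ₗ LinearMap.fst ℂ V V' :
        V × V' →ₗ[ℂ] V × V') := by
    funext n
    unfold br
    ext x <;> simp
  rw [e1] at h
  exact h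

theorem IsFld.br {E : V →ₗ[ℂ] V} {E' : V' →ₗ[ℂ] V'} {a : ℤ → V →ₗ[ℂ] V'} (ha : IsFld a) :
    IsFld (br E E' a) := by
  intro v
  obtain ⟨N1, h1⟩ := ha v
  obtain ⟨N2, h2⟩ := ha (E v)
  refine ⟨max N1 N2, fun n hn => ?_⟩
  show E' (a n v) - a n (E v) = 0
  rw [h1 n (le_trans (le_max_left _ _) hn), h2 n (le_trans (le_max_right _ _) hn), map_zero,
    sub_zero]

theorem Cov.br {T : V →ₗ[ℂ] V} {T' : V' →ₗ[ℂ] V'} {E : V →ₗ[ℂ] V} {E' : V' →ₗ[ℂ] V'}
    {a : ℤ → V →ₗ[ℂ] V'} (ha : Cov T T' a) (hE : T ∘ₗ E = E ∘ₗ T) (hE' : T' ∘ₗ E' = E' ∘ₗ T') :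
    Cov T T' (br E E' a) := by
  intro n
  have h := ha n
  have e1 : T' ∘ₗ (E' ∘ₗ a n - a n ∘ₗ E) - (E' ∘ₗ a n - a n ∘ₗ E) ∘ₗ T =
      E' ∘ₗ (T' ∘ₗ a n - a n ∘ₗ T) - (T' ∘ₗ a n - a n ∘ₗ T) ∘ₗ E := by
    simp only [LinearMap.comp_sub, LinearMap.sub_comp]
    have e2 : T' ∘ₗ (E' ∘ₗ a n) = E' ∘ₗ (T' ∘ₗ a n) := by
      rw [← LinearMap.comp_assoc, hE', LinearMap.comp_assoc]
    have e3 : (a n ∘ₗ E) ∘ₗ T = (a n ∘ₗ T) ∘ₗ E := by
      rw [LinearMap.comp_assoc, ← hE, LinearMap.comp_assoc]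
    rw [e2, e3]
    simp only [LinearMap.comp_assoc]
    abel
  show T' ∘ₗ (E' ∘ₗ a n - a n ∘ₗ E) - (E' ∘ₗ a n - a n ∘ₗ E) ∘ₗ T =
    (-n : ℂ) • (E' ∘ₗ a (n - 1) - a (n - 1) ∘ₗ E)
  rw [e1, h, LinearMap.comp_smul, LinearMap.smul_comp, smul_sub]

end

end WPQ.AF
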