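import Pool.Agent.WPQ.AF2

/-! [WPQ-AF3] The products `a_(n) b`, `n ≥ 0`.

Plan.  `loc_prodN`: as in AF2, `D (m,n,k) = ⁅c_k, ⁅a_m, b_n⁆⁆` satisfies
`(T_b - T_c)^(3N) D = 0` for the shifts in `n` and `k` (any `m`); then sum over `i` with the
coefficients of `prodN` (`m = n₀ - i`, `n = m₀ + i`).  `cov_prodN`: `[T, a_(n)b _m] =
∑ (-1)^i C(n,i) (-(n-i) [a_{n-i-1}, b_{m+i}] - (m+i) [a_{n-i}, b_{m+i-1}])`, reindex the second sum
(`i → i+1`) and use `(n-i) C(n,i) = (i+1) C(n,i+1)`.  `creation_prodN`: on the vacuum `v`,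
`(a_(n)b)_m v = ∑ (-1)^i C(n,i) a_{n-i} b_{m+i} v` (the other terms contain `a_{n-i} v = 0`,
`n - i ≥ 0`); `b_{m+i} v = 0` for `m+i ≥ 0`. -/

namespace WPQ.AF

noncomputable section

variable {V : Type} [AddCommGroup V] [Module ℂ V]

/-- The commutator. -/
def af3_cm (x y : V →ₗ[ℂ] V) : V →ₗ[ℂ] V := x ∘ₗ y - y ∘ₗ x

theorem af3_cm_sum_left {ι : Type} (s : Finset ι) (c : ι → ℂ) (x : ι → V →ₗ[ℂ] V)
    (y : V →ₗ[ℂ] V) : af3_cm (∑ i ∈ s, c i • x i) y = ∑ i ∈ s, c i • af3_cm (x i) y := by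
  ext v
  simp only [af3_cm, LinearMap.sub_apply, LinearMap.comp_apply, LinearMap.sum_apply,
    LinearMap.smul_apply, map_sum, map_smul, smul_sub, Finset.sum_sub_distrib]

theorem af3_cm_sum_right {ι : Type} (s : Finset ι) (c : ι → ℂ) (x : V →ₗ[ℂ] V)
    (y : ι → V →ₗ[ℂ] V) : af3_cm x (∑ i ∈ s, c i • y i) = ∑ i ∈ s, c i • af3_cm x (y i) := by
  ext v
  simp only [af3_cm, LinearMap.sub_apply, LinearMap.comp_apply, LinearMap.sum_apply,
    LinearMap.smul_apply, map_sum, map_smul, smul_sub, Finset.sum_sub_distrib]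

theorem af3_cm_zero_left (y : V →ₗ[ℂ] V) : af3_cm 0 y = 0 := by
  unfold af3_cm
  rw [LinearMap.zero_comp, LinearMap.comp_zero, sub_zero]

theorem af3_cm_zero_right (y : V →ₗ[ℂ] V) : af3_cm y 0 = 0 := by
  unfold af3_cm
  rw [LinearMap.zero_comp, LinearMap.comp_zero, sub_zero]

theorem af3_jacobi (c a b : V →ₗ[ℂ] V) :
    af3_cm c (af3_cm a b) = af3_cm (af3_cm c a) b + af3_cm a (af3_cm c b) := by
  ext v
  simp only [af3_cm, LinearMap.sub_apply, LinearMap.comp_apply, LinearMap.add_apply, map_sub]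
  abel

/-- Functions of three integers. -/
abbrev af3_W (V : Type) [AddCommGroup V] [Module ℂ V] : Type := ℤ → ℤ → ℤ → V →ₗ[ℂ] V

/-- The shifts. -/
def af3_T1 : Module.End ℂ (af3_W V) where
  toFun F := fun m n k => F (m + 1) n k
  map_add' _ _ := rfl
  map_smul' _ _ := rfl

def af3_T2 : Module.End ℂ (af3_W V) where
  toFun F := fun m n k => F m (n + 1) k
  map_add' _ _ := rfl
  map_smul' _ _ := rfl

def af3_T3 : Module.End ℂ (af3_W V) where
  toFun F := fun m n k => F m n (k + 1)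
  map_add' _ _ := rfl
  map_smul' _ _ := rfl

theorem af3_c12 : Commute (af3_T1 : Module.End ℂ (af3_W V)) af3_T2 := rfl

theorem af3_c13 : Commute (af3_T1 : Module.End ℂ (af3_W V)) af3_T3 := rfl

theorem af3_c23 : Commute (af3_T2 : Module.End ℂ (af3_W V)) af3_T3 := rfl

theorem af3_pow12 (N : ℕ) (F : af3_W V) (m n k : ℤ) :
    ((af3_T1 - af3_T2) ^ N : Module.End ℂ (af3_W V)) F m n k =
      ∑ j ∈ Finset.range (N + 1), ((-1 : ℂ) ^ j * (N.choose j : ℂ)) • F (m + N - j) (n + j) k := by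
  rw [← iter_eq N (fun x y => F x y k) m n]
  induction N generalizing F with
  | zero => rfl
  | succ N ih =>
    rw [pow_succ, Module.End.mul_apply, ih, Function.iterate_succ_apply]
    rfl

theorem af3_pow31 (N : ℕ) (F : af3_W V) (m n k : ℤ) :
    ((af3_T3 - af3_T1) ^ N : Module.End ℂ (af3_W V)) F m n k =
      ∑ j ∈ Finset.range (N + 1), ((-1 : ℂ) ^ j * (N.choose j : ℂ)) • F (m + j) n (k + N - j) := by
  rw [← iter_eq N (fun x y => F y n x) k m]
  induction N generalizing F with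
  | zero => rfl
  | succ N ih =>
    rw [pow_succ, Module.End.mul_apply, ih, Function.iterate_succ_apply]
    rfl

theorem af3_pow32 (N : ℕ) (F : af3_W V) (m n k : ℤ) :
    ((af3_T3 - af3_T2) ^ N : Module.End ℂ (af3_W V)) F m n k =
      ∑ j ∈ Finset.range (N + 1), ((-1 : ℂ) ^ j * (N.choose j : ℂ)) • F m (n + j) (k + N - j) := by
  rw [← iter_eq N (fun x y => F m y x) k n]
  induction N generalizing F with
  | zero => rfl
  | succ N ih =>
    rw [pow_succ, Module.End.mul_apply, ih, Function.iterate_succ_apply]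
    rfl

/-- The algebra of Dong's lemma. -/
theorem af3_dong {W : Type} [AddCommGroup W] [Module ℂ W] (X Y Z : Module.End ℂ W) (D : W) (N : ℕ)
    (hxy : Commute X Y) (hxz : Commute X Z) (hyz : Commute Y Z) (hY : Y = X + Z)
    (h1 : (X ^ N * Y ^ N) D = 0) (h2 : (Z ^ N) D = 0) : (Y ^ (3 * N)) D = 0 := by
  have e : Y ^ (3 * N) = Y ^ N * (X + Z) ^ (2 * N) := by
    rw [← hY, ← pow_add]
    congr 1
    ring
  rw [e, hxz.add_pow, Finset.mul_sum, LinearMap.sum_apply]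
  refine Finset.sum_eq_zero fun i hi => ?_
  rw [← mul_assoc, Module.End.mul_apply, Module.End.natCast_apply, map_nsmul]
  have hi' : i < 2 * N + 1 := Finset.mem_range.1 hi
  rcases lt_or_ge i N with h | h
  · have e2 : 2 * N - i = (N - i) + N := by omega
    have : (Y ^ N * (X ^ i * Z ^ (2 * N - i))) D = 0 := by
      rw [e2, pow_add, ← mul_assoc, ← mul_assoc, Module.End.mul_apply, h2, map_zero]
    rw [this, smul_zero]
  · have e2 : Y ^ N * (X ^ i * Z ^ (2 * N - i)) =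
        (Z ^ (2 * N - i) * X ^ (i - N)) * (X ^ N * Y ^ N) := by
      have c1 : Commute (Z ^ (2 * N - i)) (X ^ i) := (hxz.pow_pow i (2 * N - i)).symm
      have c2 : Commute (Y ^ N) (Z ^ (2 * N - i)) := hyz.pow_pow N (2 * N - i)
      have c3 : Commute (Y ^ N) (X ^ i) := (hxy.pow_pow i N).symm
      have e3 : X ^ i = X ^ (i - N) * X ^ N := by
        rw [← pow_add]
        congr 1
        omega
      calc Y ^ N * (X ^ i * Z ^ (2 * N - i)) = Y ^ N * (Z ^ (2 * N - i) * X ^ i) := by rw [c1.eq]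
        _ = (Z ^ (2 * N - i) * Y ^ N) * X ^ i := by rw [← mul_assoc, c2.eq]
        _ = Z ^ (2 * N - i) * (X ^ i * Y ^ N) := by rw [mul_assoc, c3.eq]
        _ = _ := by
          rw [e3]
          simp only [mul_assoc]
    rw [e2, Module.End.mul_apply, h1, map_zero, smul_zero]

/-- The double commutator. -/
def af3_D (a b c : ℤ → V →ₗ[ℂ] V) : af3_W V := fun m n k => af3_cm (c k) (af3_cm (a m) (b n))

def af3_D1 (a b c : ℤ → V →ₗ[ℂ] V) : af3_W V := fun m n k => af3_cm (af3_cm (c k) (a m)) (b n)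

def af3_D2 (a b c : ℤ → V →ₗ[ℂ] V) : af3_W V := fun m n k => af3_cm (a m) (af3_cm (c k) (b n))

theorem af3_z1 {N : ℕ} {a b c : ℤ → V →ₗ[ℂ] V} (hca : Loc N c a) :
    ((af3_T3 - af3_T1) ^ N : Module.End ℂ (af3_W V)) (af3_D1 a b c) = 0 := by
  funext m n k
  rw [af3_pow31]
  have h := hca k m
  have h2 := af3_cm_sum_left (Finset.range (N + 1)) (fun j => (-1 : ℂ) ^ j * (N.choose j : ℂ))
      (fun j => af3_cm (c (k + N - j)) (a (m + j))) (b n)
  have h3 : ∑ j ∈ Finset.range (N + 1), ((-1 : ℂ) ^ j * (N.choose j : ℂ)) •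
      af3_cm (c (k + N - j)) (a (m + j)) = 0 := h
  rw [h3, af3_cm_zero_left] at h2
  exact h2.symm

theorem af3_z2 {N : ℕ} {a b c : ℤ → V →ₗ[ℂ] V} (hcb : Loc N c b) :
    ((af3_T3 - af3_T2) ^ N : Module.End ℂ (af3_W V)) (af3_D2 a b c) = 0 := by
  funext m n k
  rw [af3_pow32]
  have h := hcb k n
  have h2 := af3_cm_sum_right (Finset.range (N + 1)) (fun j => (-1 : ℂ) ^ j * (N.choose j : ℂ))
      (a m) (fun j => af3_cm (c (k + N - j)) (b (n + j)))
  have h3 : ∑ j ∈ Finset.range (N + 1), ((-1 : ℂ) ^ j * (N.choose j : ℂ)) •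
      af3_cm (c (k + N - j)) (b (n + j)) = 0 := h
  rw [h3, af3_cm_zero_right] at h2
  exact h2.symm

theorem af3_z3 {N : ℕ} {a b c : ℤ → V →ₗ[ℂ] V} (hab : Loc N a b) :
    ((af3_T1 - af3_T2) ^ N : Module.End ℂ (af3_W V)) (af3_D a b c) = 0 := by
  funext m n k
  rw [af3_pow12]
  have h := hab m n
  have h2 := af3_cm_sum_right (Finset.range (N + 1)) (fun j => (-1 : ℂ) ^ j * (N.choose j : ℂ))
      (c k) (fun j => af3_cm (a (m + N - j)) (b (n + j)))
  have h3 : ∑ j ∈ Finset.range (N + 1), ((-1 : ℂ) ^ j * (N.choose j : ℂ)) •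
      af3_cm (a (m + N - j)) (b (n + j)) = 0 := h
  rw [h3, af3_cm_zero_right] at h2
  exact h2.symm

theorem af3_main {N : ℕ} {a b c : ℤ → V →ₗ[ℂ] V} (hca : Loc N c a) (hcb : Loc N c b)
    (hab : Loc N a b) :
    ((af3_T3 - af3_T2) ^ (3 * N) : Module.End ℂ (af3_W V)) (af3_D a b c) = 0 := by
  have hDD : af3_D a b c = af3_D1 a b c + af3_D2 a b c := by
    funext m n k
    exact af3_jacobi _ _ _
  have c12 := af3_c12 (V := V)
  have c13 := af3_c13 (V := V)
  have c23 := af3_c23 (V := V)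
  have hxy : Commute (af3_T3 - af3_T1 : Module.End ℂ (af3_W V)) (af3_T3 - af3_T2) :=
    ((Commute.refl _).sub_right c23.symm).sub_left (c13.sub_right c12)
  have hxz : Commute (af3_T3 - af3_T1 : Module.End ℂ (af3_W V)) (af3_T1 - af3_T2) :=
    (c13.symm.sub_right c23.symm).sub_left ((Commute.refl _).sub_right c12)
  have hyz : Commute (af3_T3 - af3_T2 : Module.End ℂ (af3_W V)) (af3_T1 - af3_T2) :=
    (c13.symm.sub_right c23.symm).sub_left (c12.symm.sub_right (Commute.refl _))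
  refine af3_dong (af3_T3 - af3_T1) (af3_T3 - af3_T2) (af3_T1 - af3_T2) (af3_D a b c) N hxy hxz hyz
    (by abel) ?_ (af3_z3 hab)
  rw [hDD, map_add, Module.End.mul_apply _ _ (af3_D2 a b c), af3_z2 hcb, map_zero, add_zero,
    (hxy.pow_pow N N).eq, Module.End.mul_apply, af3_z1 hca, map_zero]

theorem loc_prodN {N : ℕ} (n : ℕ) {a b c : ℤ → V →ₗ[ℂ] V} (hca : Loc N c a) (hcb : Loc N c b)
    (hab : Loc N a b) : Loc (3 * N) c (prodN n a b) := by
  intro m0 n0
  have h3 := af3_main hca hcb hab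
  have h4 : ∀ p q : ℤ, ∑ k ∈ Finset.range (3 * N + 1), ((-1 : ℂ) ^ k * ((3 * N).choose k : ℂ)) •
      af3_cm (c (m0 + (3 * N : ℕ) - k)) (af3_cm (a p) (b (q + k))) = 0 := by
    intro p q
    have h := af3_pow32 (3 * N) (af3_D a b c) p q m0
    rw [h3] at h
    exact h.symm
  have h5 : ∀ k : ℕ, c (m0 + (3 * N : ℕ) - k) ∘ₗ prodN n a b (n0 + k) -
      prodN n a b (n0 + k) ∘ₗ c (m0 + (3 * N : ℕ) - k) =
      ∑ i ∈ Finset.range (n + 1), ((-1 : ℂ) ^ i * (n.choose i : ℂ)) •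
        af3_cm (c (m0 + (3 * N : ℕ) - k)) (af3_cm (a (n - i)) (b (n0 + i + k))) := by
    intro k
    have := af3_cm_sum_right (Finset.range (n + 1)) (fun i => (-1 : ℂ) ^ i * (n.choose i : ℂ))
      (c (m0 + (3 * N : ℕ) - k)) (fun i : ℕ => af3_cm (a (n - i)) (b (n0 + k + i)))
    have e : ∀ i : ℕ, n0 + (i : ℤ) + k = n0 + k + i := fun i => by ring
    simp only [e]
    exact this
  have h6 : ∑ k ∈ Finset.range (3 * N + 1), ((-1 : ℂ) ^ k * ((3 * N).choose k : ℂ)) •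
      (c (m0 + (3 * N : ℕ) - k) ∘ₗ prodN n a b (n0 + k) -
        prodN n a b (n0 + k) ∘ₗ c (m0 + (3 * N : ℕ) - k)) = 0 := by
    simp only [h5, Finset.smul_sum]
    rw [Finset.sum_comm]
    refine Finset.sum_eq_zero fun i _ => ?_
    have e : ∀ k : ℕ, ((-1 : ℂ) ^ k * ((3 * N).choose k : ℂ)) •
        ((-1 : ℂ) ^ i * (n.choose i : ℂ)) •
          af3_cm (c (m0 + (3 * N : ℕ) - k)) (af3_cm (a (n - i)) (b (n0 + i + k))) =
        ((-1 : ℂ) ^ i * (n.choose i : ℂ)) • (((-1 : ℂ) ^ k * ((3 * N).choose k : ℂ)) •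
          af3_cm (c (m0 + (3 * N : ℕ) - k)) (af3_cm (a (n - i)) (b (n0 + i + k)))) :=
      fun k => smul_comm _ _ _
    simp only [e]
    rw [← Finset.smul_sum, h4, smul_zero]
  exact h6

theorem isFld_prodN (n : ℕ) {a b : ℤ → V →ₗ[ℂ] V} (ha : IsFld a) (hb : IsFld b) :
    IsFld (prodN n a b) := by
  intro v
  choose Na hNa using ha
  choose Nb hNb using hb
  refine ⟨∑ i ∈ Finset.range (n + 1), |Nb (a (n - i) v)| + |Nb v|, fun m hm => ?_⟩
  unfold prodN
  rw [LinearMap.sum_apply]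
  refine Finset.sum_eq_zero fun i hi => ?_
  have hs : |Nb (a (n - i) v)| ≤ ∑ i ∈ Finset.range (n + 1), |Nb (a (n - i) v)| :=
    Finset.single_le_sum (f := fun i : ℕ => |Nb (a (n - i) v)|) (fun _ _ => abs_nonneg _) hi
  have hs0 : 0 ≤ ∑ i ∈ Finset.range (n + 1), |Nb (a (n - i) v)| :=
    Finset.sum_nonneg fun _ _ => abs_nonneg _
  have h1 : b (m + i) v = 0 := by
    apply hNb
    have := le_abs_self (Nb v)
    omega
  have h2 : b (m + i) (a (n - i) v) = 0 := by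
    apply hNb
    have := le_abs_self (Nb (a (n - i) v))
    have := abs_nonneg (Nb v)
    omega
  rw [LinearMap.smul_apply, LinearMap.sub_apply, LinearMap.comp_apply, LinearMap.comp_apply, h1,
    h2, map_zero, sub_zero, smul_zero]

theorem cov_prodN (n : ℕ) {T : V →ₗ[ℂ] V} {a b : ℤ → V →ₗ[ℂ] V} (ha : Cov T T a)
    (hb : Cov T T b) : Cov T T (prodN n a b) := by
  intro m
  have hcm : ∀ p q : ℤ, af3_cm T (af3_cm (a p) (b q)) =
      (-p : ℂ) • af3_cm (a (p - 1)) (b q) + (-q : ℂ) • af3_cm (a p) (b (q - 1)) := by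
    intro p q
    have h1 : af3_cm T (a p) = (-p : ℂ) • a (p - 1) := ha p
    have h2 : af3_cm T (b q) = (-q : ℂ) • b (q - 1) := hb q
    rw [af3_jacobi, h1, h2]
    unfold af3_cm
    simp only [LinearMap.smul_comp, LinearMap.comp_smul, smul_sub]
  have h0 : T ∘ₗ prodN n a b m - prodN n a b m ∘ₗ T =
      ∑ i ∈ Finset.range (n + 1), ((-1 : ℂ) ^ i * (n.choose i : ℂ)) •
        af3_cm T (af3_cm (a (n - i)) (b (m + i))) :=
    af3_cm_sum_right (Finset.range (n + 1)) (fun i => (-1 : ℂ) ^ i * (n.choose i : ℂ)) T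
      (fun i : ℕ => af3_cm (a (n - i)) (b (m + i)))
  rw [h0]
  simp only [hcm, smul_add, Finset.sum_add_distrib]
  have hR : prodN n a b (m - 1) = ∑ i ∈ Finset.range (n + 1), ((-1 : ℂ) ^ i * (n.choose i : ℂ)) •
      af3_cm (a (n - i)) (b (m + i - 1)) := by
    unfold prodN af3_cm
    refine Finset.sum_congr rfl fun i _ => ?_
    have e : m - 1 + (i : ℤ) = m + i - 1 := by ring
    rw [e]
  rw [hR, Finset.smul_sum]
  have hS1 : ∑ i ∈ Finset.range (n + 1), ((-1 : ℂ) ^ i * (n.choose i : ℂ)) •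
      (-((n - i : ℤ) : ℂ)) • af3_cm (a (n - i - 1)) (b (m + i)) =
      ∑ j ∈ Finset.range n, ((-1 : ℂ) ^ j * ((n.choose j * (n - j) : ℕ) : ℂ)) •
        (-af3_cm (a (n - j - 1)) (b (m + j))) := by
    rw [Finset.sum_range_succ]
    have hz : ((-1 : ℂ) ^ n * (n.choose n : ℂ)) •
      (-((n - n : ℤ) : ℂ)) • af3_cm (a (n - n - 1)) (b (m + n)) = 0 := by
      rw [sub_self, Int.cast_zero, neg_zero, zero_smul, smul_zero]
    rw [hz, add_zero]
    refine Finset.sum_congr rfl fun j hj => ?_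
    have hj' : j < n := Finset.mem_range.1 hj
    rw [smul_smul, smul_neg, ← neg_smul]
    congr 1
    push_cast [Nat.cast_sub hj'.le]
    ring
  have hS2 : ∑ i ∈ Finset.range (n + 1), ((-1 : ℂ) ^ i * (n.choose i : ℂ)) •
      (-((m + i : ℤ) : ℂ)) • af3_cm (a (n - i)) (b (m + i - 1)) =
      ∑ i ∈ Finset.range (n + 1), (-(m : ℂ)) • ((-1 : ℂ) ^ i * (n.choose i : ℂ)) •
        af3_cm (a (n - i)) (b (m + i - 1)) +
      ∑ j ∈ Finset.range n, ((-1 : ℂ) ^ j * ((n.choose j * (n - j) : ℕ) : ℂ)) •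
        (af3_cm (a (n - j - 1)) (b (m + j))) := by
    have hsp : ∀ i : ℕ, ((-1 : ℂ) ^ i * (n.choose i : ℂ)) •
      (-((m + i : ℤ) : ℂ)) • af3_cm (a (n - i)) (b (m + i - 1)) =
      (-(m : ℂ)) • ((-1 : ℂ) ^ i * (n.choose i : ℂ)) • af3_cm (a (n - i)) (b (m + i - 1)) +
        (((-1 : ℂ) ^ i * (n.choose i : ℂ)) * (-(i : ℂ))) • af3_cm (a (n - i)) (b (m + i - 1)) := by
      intro i
      rw [smul_smul, smul_smul, ← add_smul]
      congr 1
      push_cast
      ring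
    simp only [hsp]
    rw [Finset.sum_add_distrib]
    congr 1
    rw [Finset.sum_range_succ']
    have hz : (((-1 : ℂ) ^ 0 * (n.choose 0 : ℂ)) * (-((0 : ℕ) : ℂ))) •
        af3_cm (a (n - (0 : ℕ))) (b (m + (0 : ℕ) - 1)) = 0 := by
      rw [Nat.cast_zero, neg_zero, mul_zero, zero_smul]
    rw [hz, add_zero]
    refine Finset.sum_congr rfl fun j _ => ?_
    have e1 : (n : ℤ) - ((j + 1 : ℕ) : ℤ) = n - j - 1 := by push_cast; ring
    have e2 : m + ((j + 1 : ℕ) : ℤ) - 1 = m + j := by push_cast; ring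
    rw [e1, e2]
    congr 1
    have hc := Nat.choose_succ_right_eq n j
    rw [← hc]
    push_cast
    rw [pow_succ]
    ring
  rw [hS1, hS2]
  simp only [smul_neg, Finset.sum_neg_distrib]
  abel

theorem vac_prodN (n : ℕ) {a b : ℤ → V →ₗ[ℂ] V} (v : V) (ha : ∀ m : ℤ, 0 ≤ m → a m v = 0)
    (hb : ∀ m : ℤ, 0 ≤ m → b m v = 0) (m : ℤ) (hm : 0 ≤ m) : prodN n a b m v = 0 := by
  unfold prodN
  rw [LinearMap.sum_apply]
  refine Finset.sum_eq_zero fun i hi => ?_
  have hi' := Finset.mem_range.1 hi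
  rw [LinearMap.smul_apply, LinearMap.sub_apply, LinearMap.comp_apply, LinearMap.comp_apply,
    hb _ (by omega), ha _ (by omega), map_zero, map_zero, sub_zero, smul_zero]

theorem creation_prodN (n : ℕ) {a b : ℤ → V →ₗ[ℂ] V} (v : V) (ha : ∀ m : ℤ, 0 ≤ m → a m v = 0)
    (hb : ∀ m : ℤ, 0 ≤ m → b m v = 0) : prodN n a b (-1) v = a n (b (-1) v) := by
  unfold prodN
  rw [LinearMap.sum_apply, Finset.sum_range_succ']
  have hz : ∀ i ∈ Finset.range n, (((-1 : ℂ) ^ (i + 1) * (n.choose (i + 1) : ℂ)) •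
      (a (n - (i + 1 : ℕ)) ∘ₗ b (-1 + (i + 1 : ℕ)) -
        b (-1 + (i + 1 : ℕ)) ∘ₗ a (n - (i + 1 : ℕ)))) v = 0 := by
    intro i hi
    have hi' := Finset.mem_range.1 hi
    rw [LinearMap.smul_apply, LinearMap.sub_apply, LinearMap.comp_apply, LinearMap.comp_apply,
      hb _ (by omega), ha _ (by omega), map_zero, map_zero, sub_zero, smul_zero]
  rw [Finset.sum_eq_zero hz, zero_add, LinearMap.smul_apply, LinearMap.sub_apply,
    LinearMap.comp_apply, LinearMap.comp_apply, ha ((n : ℤ) - (0 : ℕ)) (by omega), map_zero,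
    sub_zero, Nat.cast_zero, sub_zero, add_zero, pow_zero, Nat.choose_zero_right, Nat.cast_one,
    one_mul, one_smul]

/-- The derivative. -/
theorem isFld_der {a : ℤ → V →ₗ[ℂ] V} (ha : IsFld a) : IsFld (der a) := by
  intro v
  obtain ⟨N, hN⟩ := ha v
  refine ⟨N + 1, fun n hn => ?_⟩
  unfold der
  rw [LinearMap.smul_apply, hN _ (by omega), smul_zero]

theorem cov_der {T : V →ₗ[ℂ] V} {a : ℤ → V →ₗ[ℂ] V} (ha : Cov T T a) : Cov T T (der a) := by
  intro n
  unfold der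
  rw [LinearMap.comp_smul, LinearMap.smul_comp, ← smul_sub, ha (n - 1)]

theorem vac_der {a : ℤ → V →ₗ[ℂ] V} (v : V) (ha : ∀ m : ℤ, 0 ≤ m → a m v = 0) (m : ℤ)
    (hm : 0 ≤ m) : der a m v = 0 := by
  unfold der
  rw [LinearMap.smul_apply]
  rcases eq_or_lt_of_le hm with h | h
  · rw [← h, Int.cast_zero, neg_zero, zero_smul]
  · rw [ha _ (by omega), smul_zero]

theorem iterate_der {a : ℤ → V →ₗ[ℂ] V} (k : ℕ) : (der^[k] a) (-1) = (k.factorial : ℂ) • a (-1 - k) := by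
  induction k generalizing a with
  | zero =>
    rw [Function.iterate_zero, id, Nat.factorial_zero, Nat.cast_one, one_smul, Nat.cast_zero,
      sub_zero]
  | succ k ih =>
    rw [Function.iterate_succ_apply, ih]
    unfold der
    rw [smul_smul]
    have e1 : (-1 - (k : ℤ) - 1) = -1 - ((k + 1 : ℕ) : ℤ) := by push_cast; ring
    rw [e1]
    congr 1
    rw [Nat.factorial_succ]
    push_cast
    ring

end

end WPQ.AF
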