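import Pool.Agent.WPQ.AF3

/-! [WPQ-AF4] The normally ordered product `a_(-1) b`.

Plan.  `nop_exists`: `c m v = ∑ᶠ i` (or `Finset.sum` up to a chosen bound); all sums are eventually
constant because `b (m+i) v = 0` and `a i v = 0` for large `i`; linearity by taking a common bound.
`loc_nop`: for vectors `v` and integers `m, n` put (sum up to a large bound, eventually constant)
`G m n v = ∑_{i≥0} (a_{m-1-i} b_{n+i} v + b_{n-1-i} a_{m+i} v)`, so `c n v = G 0 n v`, and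
`G (m+1) n - G m (n+1) = ⁅a_m, b_n⁆` (telescoping), so `(T_a - T_b)^(N+1) G = 0`.
`D (m,n,k) = ⁅c'_k, G m n⁆` (`c'` the third field) is killed by `(T_a-T_b)^(N+1)` and by
`(T_a-T_c)^N (T_b-T_c)^N` (`⁅c', a b⁆ = ⁅c', a⁆ b + a ⁅c', b⁆` termwise; all shifts commute with the sum
over `i`; finitely many `(m,n,k)` occur, choose one bound for all of them and for the two vectors `v`,
`c'_k v`).  Then `(T_b - T_c)^(3N+1) = (T_b-T_c)^N (-(T_a-T_b) + (T_a-T_c))^(2N+1)`: every term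
contains `(T_a-T_b)^(N+1)` or `(T_a-T_c)^N (T_b-T_c)^N`. -/

namespace WPQ.AF

noncomputable section

variable {V : Type} [AddCommGroup V] [Module ℂ V]

/-- shift of a function of three integers -/
def af4_sh (W : Type) [AddCommGroup W] [Module ℂ W] (p : ℤ × ℤ × ℤ) :
    Module.End ℂ (ℤ × ℤ × ℤ → W) where
  toFun f := fun q => f (q + p)
  map_add' _ _ := rfl
  map_smul' _ _ := rfl

theorem af4_sh_apply {W : Type} [AddCommGroup W] [Module ℂ W] (p : ℤ × ℤ × ℤ)
    (f : ℤ × ℤ × ℤ → W) (q : ℤ × ℤ × ℤ) : af4_sh W p f q = f (q + p) := rfl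

theorem af4_sh_comm {W : Type} [AddCommGroup W] [Module ℂ W] (p q : ℤ × ℤ × ℤ) :
    Commute (af4_sh W p) (af4_sh W q) := by
  ext f r
  show f (r + p + q) = f (r + q + p)
  rw [add_right_comm]

theorem af4_sh_pow {W : Type} [AddCommGroup W] [Module ℂ W] (p : ℤ × ℤ × ℤ) (n : ℕ) :
    (af4_sh W p) ^ n = af4_sh W (n • p) := by
  induction n with
  | zero =>
    ext f r
    show f r = f (r + 0 • p)
    rw [zero_smul, add_zero]
  | succ n ih =>
    rw [pow_succ, ih]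
    ext f r
    show f (r + n • p + p) = f (r + (n + 1) • p)
    rw [succ_nsmul, add_assoc]

theorem af4_binom {W : Type} [AddCommGroup W] [Module ℂ W] (p q : ℤ × ℤ × ℤ) (N : ℕ)
    (f : ℤ × ℤ × ℤ → W) (r : ℤ × ℤ × ℤ) :
    ((af4_sh W p - af4_sh W q) ^ N) f r =
      ∑ k ∈ Finset.range (N + 1), ((-1 : ℂ) ^ k * (N.choose k : ℂ)) •
        f (r + k • q + (N - k) • p) := by
  have h0 : af4_sh W p - af4_sh W q = (-1 : ℂ) • af4_sh W q + af4_sh W p := by
    ext f r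
    show f (r + p) - f (r + q) = (-1 : ℂ) • f (r + q) + f (r + p)
    rw [neg_smul, one_smul, sub_eq_neg_add]
  have hc : Commute ((-1 : ℂ) • af4_sh W q) (af4_sh W p) := (af4_sh_comm q p).smul_left _
  rw [h0, hc.add_pow, LinearMap.sum_apply, Finset.sum_apply]
  refine Finset.sum_congr rfl fun k _ => ?_
  rw [smul_pow, af4_sh_pow, af4_sh_pow, Module.End.mul_apply, Module.End.natCast_apply,
    map_nsmul, Module.End.mul_apply, LinearMap.smul_apply]
  rw [Pi.smul_apply, Pi.smul_apply, ← Nat.cast_smul_eq_nsmul ℂ, smul_smul, mul_comm]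
  rfl

theorem af4_ev {W : Type} [AddCommGroup W] [Module ℂ W] (p q : ℤ × ℤ × ℤ) (N : ℕ) :
    ∀ (f : ℤ × ℤ × ℤ → W) (g : ℕ → ℤ × ℤ × ℤ → W)
    (_ : ∀ r, ∀ᶠ M in Filter.atTop, f r = g M r), ∀ r, ∀ᶠ M in Filter.atTop,
      ((af4_sh W p - af4_sh W q) ^ N) f r = ((af4_sh W p - af4_sh W q) ^ N) (g M) r := by
  induction N with
  | zero =>
    intro f g h r
    exact h r
  | succ N ih =>
    intro f g h r
    simp only [pow_succ, Module.End.mul_apply]
    refine ih _ _ ?_ r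
    intro r
    filter_upwards [h (r + p), h (r + q)] with M h1 h2
    show f (r + p) - f (r + q) = g M (r + p) - g M (r + q)
    rw [h1, h2]

/-- the algebra -/
theorem af4_alg {M : Type} [AddCommGroup M] [Module ℂ M] (x y : Module.End ℂ M)
    (hxy : Commute x y) (N : ℕ) (D : M) (h1 : (y ^ (N + 1)) D = 0)
    (h2 : (x ^ N) (((x + y) ^ N) D) = 0) : ((x + y) ^ (3 * N + 1)) D = 0 := by
  have hz : 3 * N + 1 = (2 * N + 1) + N := by ring
  have hxz : Commute x (x + y) := (Commute.refl x).add_right hxy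
  have hyz : Commute y (x + y) := hxy.symm.add_right (Commute.refl y)
  rw [hz, pow_add, Module.End.mul_apply]
  rw [hxy.add_pow (2 * N + 1), LinearMap.sum_apply]
  refine Finset.sum_eq_zero fun j hj => ?_
  have hc : ∀ (c : ℕ) (z : Module.End ℂ M), Commute (c : Module.End ℂ M) z :=
    fun c z => Nat.cast_commute c z
  by_cases hjN : N ≤ j
  · have e : x ^ j * y ^ (2 * N + 1 - j) * ((2 * N + 1).choose j : Module.End ℂ M) =
        (x ^ (j - N) * y ^ (2 * N + 1 - j) * ((2 * N + 1).choose j : Module.End ℂ M)) * x ^ N := by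
      obtain ⟨i, rfl⟩ := Nat.exists_eq_add_of_le hjN
      rw [Nat.add_sub_cancel_left, mul_assoc, mul_assoc, mul_assoc, (hc _ (x ^ N)).eq, ← mul_assoc
        (y ^ _) (x ^ N), (hxy.pow_pow N _).symm.eq, pow_add, (Commute.pow_pow_self x N i).eq]
      simp only [mul_assoc]
    rw [e, Module.End.mul_apply, h2, map_zero]
  · have e : x ^ j * y ^ (2 * N + 1 - j) * ((2 * N + 1).choose j : Module.End ℂ M) *
        (x + y) ^ N =
        (x ^ j * y ^ (2 * N + 1 - j - (N + 1)) * ((2 * N + 1).choose j : Module.End ℂ M) *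
        (x + y) ^ N) * y ^ (N + 1) := by
      have h3 : y ^ (2 * N + 1 - j) = y ^ (2 * N + 1 - j - (N + 1)) * y ^ (N + 1) := by
        rw [← pow_add]
        congr 1
        omega
      rw [h3]
      simp only [mul_assoc]
      rw [(hyz.symm.pow_pow N (N + 1)).eq, ← mul_assoc _ (y ^ (N + 1)) ((x + y) ^ N),
        (hc _ (y ^ (N + 1))).eq]
      simp only [mul_assoc]
    rw [← Module.End.mul_apply, e, Module.End.mul_apply, h1, map_zero]

/-- a term killed by a power of the difference of two shifts -/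
theorem af4_kill1 {N : ℕ} {a d : ℤ → V →ₗ[ℂ] V} (h : Loc N d a) (s : ℤ) (w : ℤ → V)
    (L : ℤ → V →ₗ[ℂ] V) :
    ((af4_sh V (0, 0, 1) - af4_sh V (1, 0, 0)) ^ N) (fun r : ℤ × ℤ × ℤ =>
      L r.2.1 (d r.2.2 (a (r.1 + s) (w r.2.1)) - a (r.1 + s) (d r.2.2 (w r.2.1)))) = 0 := by
  funext r
  obtain ⟨m, n, k⟩ := r
  rw [af4_binom]
  have h1 := congrArg (fun T : V →ₗ[ℂ] V => L n (T (w n))) (h k (m + s))
  simp only [LinearMap.sum_apply, LinearMap.smul_apply, LinearMap.sub_apply,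
    LinearMap.comp_apply, LinearMap.zero_apply, map_zero, map_sum, map_smul] at h1
  rw [Pi.zero_apply, ← h1]
  refine Finset.sum_congr rfl fun j hj => ?_
  have hj' : j ≤ N := Nat.lt_succ_iff.1 (Finset.mem_range.1 hj)
  have e1 : ((m, n, k) + j • ((1, 0, 0) : ℤ × ℤ × ℤ) + (N - j) • ((0, 0, 1) : ℤ × ℤ × ℤ)) =
      (m + j, n, k + N - j) := by
    ext
    · simp
    · simp
    · simp [Nat.cast_sub hj']
      ring
  rw [e1]
  have e2 : m + j + s = m + s + j := by ring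
  simp only [e2]

theorem af4_kill2 {N : ℕ} {b d : ℤ → V →ₗ[ℂ] V} (h : Loc N d b) (s : ℤ) (w : ℤ → V)
    (L : ℤ → V →ₗ[ℂ] V) :
    ((af4_sh V (0, 0, 1) - af4_sh V (0, 1, 0)) ^ N) (fun r : ℤ × ℤ × ℤ =>
      L r.1 (d r.2.2 (b (r.2.1 + s) (w r.1)) - b (r.2.1 + s) (d r.2.2 (w r.1)))) = 0 := by
  funext r
  obtain ⟨m, n, k⟩ := r
  rw [af4_binom]
  have h1 := congrArg (fun T : V →ₗ[ℂ] V => L m (T (w m))) (h k (n + s))
  simp only [LinearMap.sum_apply, LinearMap.smul_apply, LinearMap.sub_apply,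
    LinearMap.comp_apply, LinearMap.zero_apply, map_zero, map_sum, map_smul] at h1
  rw [Pi.zero_apply, ← h1]
  refine Finset.sum_congr rfl fun j hj => ?_
  have hj' : j ≤ N := Nat.lt_succ_iff.1 (Finset.mem_range.1 hj)
  have e1 : ((m, n, k) + j • ((0, 1, 0) : ℤ × ℤ × ℤ) + (N - j) • ((0, 0, 1) : ℤ × ℤ × ℤ)) =
      (m, n + j, k + N - j) := by
    ext
    · simp
    · simp
    · simp [Nat.cast_sub hj']
      ring
  rw [e1]
  have e2 : n + j + s = n + s + j := by ring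
  simp only [e2]

theorem af4_fin {a b : ℤ → V →ₗ[ℂ] V} (ha : IsFld a) (hb : IsFld b) (m n : ℤ) (v : V) :
    ∃ M0 : ℕ, ∀ i ≥ M0, b (n + i) v = 0 ∧ a (m + i) v = 0 := by
  obtain ⟨A, hA⟩ := ha v
  obtain ⟨B, hB⟩ := hb v
  refine ⟨(A - m).toNat + (B - n).toNat, fun i hi => ⟨hB _ ?_, hA _ ?_⟩⟩
  · omega
  · omega

/-- the field in two variables -/
theorem af4_G {a b : ℤ → V →ₗ[ℂ] V} (ha : IsFld a) (hb : IsFld b) (m n : ℤ) :
    ∃ G : V →ₗ[ℂ] V, ∀ v, ∀ᶠ M in Filter.atTop,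
      G v = ∑ i ∈ Finset.range M, (a (m - 1 - i) (b (n + i) v) + b (n - 1 - i) (a (m + i) v)) := by
  have hs : ∀ v, (Function.support fun i : ℕ =>
      a (m - 1 - i) (b (n + i) v) + b (n - 1 - i) (a (m + i) v)).Finite := by
    intro v
    obtain ⟨M0, h0⟩ := af4_fin ha hb m n v
    refine (Set.finite_lt_nat M0).subset fun i hi => ?_
    by_contra hc
    obtain ⟨h1, h2⟩ := h0 i (not_lt.1 hc)
    apply hi
    show a (m - 1 - i) (b (n + i) v) + b (n - 1 - i) (a (m + i) v) = 0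
    rw [h1, h2, map_zero, map_zero, add_zero]
  refine ⟨{ toFun := fun v => ∑ᶠ i : ℕ,
              (a (m - 1 - i) (b (n + i) v) + b (n - 1 - i) (a (m + i) v)),
            map_add' := ?_, map_smul' := ?_ }, ?_⟩
  · intro v w
    rw [← finsum_add_distrib (hs v) (hs w)]
    refine finsum_congr fun i => ?_
    simp only [map_add]
    abel
  · intro c v
    rw [RingHom.id_apply, smul_finsum' c (hs v)]
    refine finsum_congr fun i => ?_
    simp only [map_smul, smul_add]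
  · intro v
    obtain ⟨M0, h0⟩ := af4_fin ha hb m n v
    filter_upwards [Filter.eventually_ge_atTop M0] with M hM
    show ∑ᶠ i : ℕ, (a (m - 1 - i) (b (n + i) v) + b (n - 1 - i) (a (m + i) v)) = _
    refine finsum_eq_sum_of_support_subset _ ?_
    intro i hi
    rw [Finset.coe_range, Set.mem_Iio]
    by_contra hc
    obtain ⟨h1, h2⟩ := h0 i (hM.trans (not_lt.1 hc))
    apply hi
    show a (m - 1 - i) (b (n + i) v) + b (n - 1 - i) (a (m + i) v) = 0
    rw [h1, h2, map_zero, map_zero, add_zero]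

theorem nop_exists {a b : ℤ → V →ₗ[ℂ] V} (ha : IsFld a) (hb : IsFld b) : ∃ c, IsNop a b c := by
  choose G hG using af4_G ha hb
  refine ⟨fun m => G 0 m, fun m v => ?_⟩
  obtain ⟨M0, h0⟩ := Filter.eventually_atTop.1 (hG 0 m v)
  refine ⟨M0, fun M hM => ?_⟩
  rw [h0 M hM]
  refine Finset.sum_congr rfl fun i _ => ?_
  rw [zero_add, zero_sub]

theorem isFld_nop {a b c : ℤ → V →ₗ[ℂ] V} (ha : IsFld a) (hb : IsFld b) (hc : IsNop a b c) :
    IsFld c := by
  intro v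
  obtain ⟨A, hA⟩ := ha v
  obtain ⟨B, hB⟩ := hb v
  choose Bf hBf using fun i : ℕ => hb (a i v)
  obtain ⟨K, hK⟩ : ∃ K : ℤ, ∀ i : ℕ, (i : ℤ) < A → Bf i + i + 1 ≤ K := by
    obtain ⟨K, hK⟩ := ((Finset.range A.toNat).image (fun i : ℕ => Bf i + i + 1)).bddAbove
    refine ⟨K, fun i hi => hK ?_⟩
    rw [Finset.mem_coe, Finset.mem_image]
    refine ⟨i, ?_, rfl⟩
    rw [Finset.mem_range]
    omega
  refine ⟨max B K, fun n hn => ?_⟩
  obtain ⟨M0, h0⟩ := hc n v
  rw [h0 M0 le_rfl]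
  refine Finset.sum_eq_zero fun i _ => ?_
  have h1 : b (n + i) v = 0 := by
    refine hB _ ?_
    have := le_max_left B K
    omega
  rw [h1, map_zero, zero_add]
  by_cases hi : (i : ℤ) < A
  · refine hBf i _ ?_
    have h2 := hK i hi
    have := le_max_right B K
    omega
  · rw [hA i (not_lt.1 hi), map_zero]

theorem af4_tel {a b : ℤ → V →ₗ[ℂ] V} (ha : IsFld a) (hb : IsFld b)
    {G : ℤ → ℤ → V →ₗ[ℂ] V} (hG : ∀ m n v, ∀ᶠ M in Filter.atTop,
      G m n v = ∑ i ∈ Finset.range M,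
        (a (m - 1 - i) (b (n + i) v) + b (n - 1 - i) (a (m + i) v))) (m n : ℤ) (v : V) :
    G (m + 1) n v - G m (n + 1) v = a m (b n v) - b n (a m v) := by
  obtain ⟨M0, h0⟩ := af4_fin ha hb m n v
  obtain ⟨M, ⟨h1, h2⟩, h3⟩ :=
    (((hG (m + 1) n v).and (hG m (n + 1) v)).and (Filter.eventually_ge_atTop M0)).exists
  rw [h1, h2, ← Finset.sum_sub_distrib]
  have h4 : ∀ i : ℕ, a (m + 1 - 1 - i) (b (n + i) v) + b (n - 1 - i) (a (m + 1 + i) v) -
      (a (m - 1 - i) (b (n + 1 + i) v) + b (n + 1 - 1 - i) (a (m + i) v)) =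
      (b (n - ((i + 1 : ℕ) : ℤ)) (a (m + ((i + 1 : ℕ) : ℤ)) v) -
        a (m - ((i + 1 : ℕ) : ℤ)) (b (n + ((i + 1 : ℕ) : ℤ)) v)) -
      (b (n - (i : ℕ)) (a (m + (i : ℕ)) v) - a (m - (i : ℕ)) (b (n + (i : ℕ)) v)) := by
    intro i
    have e1 : m + 1 - 1 - (i : ℤ) = m - i := by ring
    have e2 : n - 1 - (i : ℤ) = n - ((i + 1 : ℕ) : ℤ) := by push_cast; ring
    have e3 : m + 1 + (i : ℤ) = m + ((i + 1 : ℕ) : ℤ) := by push_cast; ring
    have e4 : m - 1 - (i : ℤ) = m - ((i + 1 : ℕ) : ℤ) := by push_cast; ring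
    have e5 : n + 1 + (i : ℤ) = n + ((i + 1 : ℕ) : ℤ) := by push_cast; ring
    have e6 : n + 1 - 1 - (i : ℤ) = n - i := by ring
    rw [e1, e2, e3, e4, e5, e6]
    abel
  rw [Finset.sum_congr rfl fun i _ => h4 i,
    Finset.sum_range_sub (fun i : ℕ => b (n - (i : ℕ)) (a (m + (i : ℕ)) v) -
      a (m - (i : ℕ)) (b (n + (i : ℕ)) v)) M]
  obtain ⟨h5, h6⟩ := h0 M h3
  simp only [h5, h6, map_zero, Nat.cast_zero, sub_zero, add_zero]
  abel

theorem loc_nop {N : ℕ} {a b c d : ℤ → V →ₗ[ℂ] V} (ha : IsFld a) (hb : IsFld b)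
    (hc : IsNop a b c) (hda : Loc N d a) (hdb : Loc N d b) (hab : Loc N a b) :
    Loc (3 * N + 1) d c := by
  choose G hG using af4_G ha hb
  have hcG : ∀ n v, c n v = G 0 n v := by
    intro n v
    obtain ⟨M, h1, h2⟩ := ((Filter.eventually_atTop.2 (hc n v)).and (hG 0 n v)).exists
    rw [h1, h2]
    refine Finset.sum_congr rfl fun i _ => ?_
    rw [zero_add, zero_sub]
  intro m0 n0
  ext v
  obtain ⟨D, hD⟩ : ∃ D : ℤ × ℤ × ℤ → V, D = fun r =>
    d r.2.2 (G r.1 r.2.1 v) - G r.1 r.2.1 (d r.2.2 v) := ⟨_, rfl⟩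
  obtain ⟨x, hx⟩ : ∃ x, x = af4_sh V (0, 0, 1) - af4_sh V (1, 0, 0) := ⟨_, rfl⟩
  obtain ⟨y, hy⟩ : ∃ y, y = af4_sh V (1, 0, 0) - af4_sh V (0, 1, 0) := ⟨_, rfl⟩
  obtain ⟨z, hz⟩ : ∃ z, z = af4_sh V (0, 0, 1) - af4_sh V (0, 1, 0) := ⟨_, rfl⟩
  have hxyz : x + y = z := by
    rw [hx, hy, hz]
    abel
  have hshc := fun p q : ℤ × ℤ × ℤ => af4_sh_comm (W := V) p q
  have hxy : Commute x y := by
    rw [hx, hy]
    exact ((hshc _ _).sub_right (hshc _ _)).sub_left ((hshc _ _).sub_right (hshc _ _))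
  have hxz : Commute x z := by
    rw [hx, hz]
    exact ((hshc _ _).sub_right (hshc _ _)).sub_left ((hshc _ _).sub_right (hshc _ _))
  -- first relation
  have h1 : (y ^ (N + 1)) D = 0 := by
    rw [pow_succ, Module.End.mul_apply]
    have hyD : y D = fun r : ℤ × ℤ × ℤ =>
        d r.2.2 (a r.1 (b r.2.1 v) - b r.2.1 (a r.1 v)) -
          (a r.1 (b r.2.1 (d r.2.2 v)) - b r.2.1 (a r.1 (d r.2.2 v))) := by
      funext r
      obtain ⟨m, n, k⟩ := r
      have e1 : y D (m, n, k) = D (m + 1, n, k) - D (m, n + 1, k) := by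
        rw [hy]
        show D ((m, n, k) + (1, 0, 0)) - D ((m, n, k) + (0, 1, 0)) = _
        simp only [Prod.mk_add_mk, add_zero]
      rw [e1, hD]
      simp only
      rw [← af4_tel ha hb hG m n v, ← af4_tel ha hb hG m n (d k v), map_sub]
      abel
    rw [hyD]
    funext r
    obtain ⟨m, n, k⟩ := r
    rw [hy, af4_binom]
    have h2 := congrArg (fun T : V →ₗ[ℂ] V => d k (T v) - T (d k v)) (hab m n)
    simp only [LinearMap.sum_apply, LinearMap.smul_apply, LinearMap.sub_apply,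
      LinearMap.comp_apply, LinearMap.zero_apply, map_zero, map_sum, map_smul, sub_zero] at h2
    rw [Pi.zero_apply, ← h2, ← Finset.sum_sub_distrib]
    refine Finset.sum_congr rfl fun j hj => ?_
    have hj' : j ≤ N := Nat.lt_succ_iff.1 (Finset.mem_range.1 hj)
    have e1 : ((m, n, k) + j • ((0, 1, 0) : ℤ × ℤ × ℤ) + (N - j) • ((1, 0, 0) : ℤ × ℤ × ℤ)) =
        (m + N - j, n + j, k) := by
      ext
      · simp [Nat.cast_sub hj']
        ring
      · simp
      · simp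
    rw [e1, ← smul_sub]
  -- second relation
  have h2 : (x ^ N) ((z ^ N) D) = 0 := by
    obtain ⟨DM, hDM⟩ : ∃ DM : ℕ → ℤ × ℤ × ℤ → V, DM = fun M r =>
      d r.2.2 (∑ i ∈ Finset.range M,
        (a (r.1 - 1 - i) (b (r.2.1 + i) v) + b (r.2.1 - 1 - i) (a (r.1 + i) v))) -
      ∑ i ∈ Finset.range M,
        (a (r.1 - 1 - i) (b (r.2.1 + i) (d r.2.2 v)) +
          b (r.2.1 - 1 - i) (a (r.1 + i) (d r.2.2 v))) := ⟨_, rfl⟩
    have hev : ∀ r, ∀ᶠ M in Filter.atTop, D r = DM M r := by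
      intro r
      filter_upwards [hG r.1 r.2.1 v, hG r.1 r.2.1 (d r.2.2 v)] with M h3 h4
      rw [hD, hDM]
      simp only
      rw [h3, h4]
    have hev2 := af4_ev (0, 0, 1) (0, 1, 0) N D DM hev
    rw [← hz] at hev2
    have hev3 := af4_ev (0, 0, 1) (1, 0, 0) N ((z ^ N) D) (fun M => (z ^ N) (DM M)) hev2
    rw [← hx] at hev3
    have hzero : ∀ M, (x ^ N) ((z ^ N) (DM M)) = 0 := by
      intro M
      have e0 : DM M = ∑ i ∈ Finset.range M,
          ((fun r : ℤ × ℤ × ℤ => (LinearMap.id : V →ₗ[ℂ] V)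
              (d r.2.2 (a (r.1 + (-1 - i)) (b (r.2.1 + i) v)) -
                a (r.1 + (-1 - i)) (d r.2.2 (b (r.2.1 + i) v)))) +
            (fun r : ℤ × ℤ × ℤ => a (r.1 - 1 - i)
              (d r.2.2 (b (r.2.1 + i) v) - b (r.2.1 + i) (d r.2.2 v))) +
            ((fun r : ℤ × ℤ × ℤ => (LinearMap.id : V →ₗ[ℂ] V)
              (d r.2.2 (b (r.2.1 + (-1 - i)) (a (r.1 + i) v)) -
                b (r.2.1 + (-1 - i)) (d r.2.2 (a (r.1 + i) v)))) +
            (fun r : ℤ × ℤ × ℤ => b (r.2.1 - 1 - i)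
              (d r.2.2 (a (r.1 + i) v) - a (r.1 + i) (d r.2.2 v))))) := by
        funext r
        rw [hDM, Finset.sum_apply]
        simp only [Pi.add_apply, LinearMap.id_apply]
        rw [map_sum, ← Finset.sum_sub_distrib]
        refine Finset.sum_congr rfl fun i _ => ?_
        have e1 : r.1 + (-1 - (i : ℤ)) = r.1 - 1 - i := by ring
        have e2 : r.2.1 + (-1 - (i : ℤ)) = r.2.1 - 1 - i := by ring
        rw [e1, e2]
        simp only [map_add, map_sub]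
        abel
      rw [e0, map_sum, map_sum]
      refine Finset.sum_eq_zero fun i _ => ?_
      have hcomm : ∀ f, (x ^ N) ((z ^ N) f) = (z ^ N) ((x ^ N) f) := by
        intro f
        rw [← Module.End.mul_apply, ← Module.End.mul_apply, (hxz.pow_pow N N).eq]
      have k1 := af4_kill1 hda (-1 - i) (fun n => b (n + i) v) (fun _ => LinearMap.id)
      have k2 := af4_kill2 hdb i (fun _ => v) (fun m => a (m - 1 - i))
      have k3 := af4_kill2 hdb (-1 - i) (fun m => a (m + i) v) (fun _ => LinearMap.id)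
      have k4 := af4_kill1 hda i (fun _ => v) (fun n => b (n - 1 - i))
      rw [← hx] at k1 k4
      rw [← hz] at k2 k3
      have key : ∀ T1 T2 T3 T4 : ℤ × ℤ × ℤ → V, (x ^ N) T1 = 0 → (z ^ N) T2 = 0 →
          (z ^ N) T3 = 0 → (x ^ N) T4 = 0 → (x ^ N) ((z ^ N) (T1 + T2 + (T3 + T4))) = 0 := by
        intro T1 T2 T3 T4 q1 q2 q3 q4
        simp only [map_add, q2, q3, add_zero, zero_add, map_zero]
        rw [hcomm, q1, hcomm, q4, map_zero, add_zero]
      exact key _ _ _ _ k1 k2 k3 k4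
    funext r
    obtain ⟨M, hM⟩ := (hev3 r).exists
    rw [hM, hzero M]
  have h3 : (z ^ (3 * N + 1)) D = 0 := by
    rw [← hxyz]
    refine af4_alg x y hxy N D h1 ?_
    rw [hxyz]
    exact h2
  have h4 := congrFun h3 (0, n0, m0)
  rw [hz, af4_binom, Pi.zero_apply] at h4
  rw [LinearMap.zero_apply, ← h4, LinearMap.sum_apply]
  refine Finset.sum_congr rfl fun j hj => ?_
  have hj' : j ≤ 3 * N + 1 := Nat.lt_succ_iff.1 (Finset.mem_range.1 hj)
  have e1 : ((0, n0, m0) + j • ((0, 1, 0) : ℤ × ℤ × ℤ) +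
      (3 * N + 1 - j) • ((0, 0, 1) : ℤ × ℤ × ℤ)) = (0, n0 + j, m0 + (3 * N + 1 : ℕ) - j) := by
    ext
    · simp
    · simp
    · simp [Nat.cast_sub hj']
      ring
  rw [e1, hD]
  simp only [LinearMap.smul_apply, LinearMap.sub_apply, LinearMap.comp_apply, hcG]

end

end WPQ.AF
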