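import Mathlib

/-! [WPQ-AR1] Elementary arithmetic of the number `t` with `c = 1 - 6 (t-1)^2 / t`:
irrationality and the Kac determinant zeros. -/

namespace WPQ.AR

/-- Lower bound `t ≥ (S/D) p`. -/
theorem core_lower (D S l p : ℕ) (hS : D ≤ S) (hp1 : l + 4 ≤ p) (t : ℝ)
    (ht : 1 ≤ t)
    (hw : 6 * (D : ℝ) * p * (t ^ 2 + 1) =
      ((1 - (l : ℝ)) * D * p + 12 * S * ((p : ℝ) - 1) ^ 2 + 12 * D * p) * t) (hD : 0 < D) :
    (S : ℝ) * p ≤ D * t := by
  have hD' : (1 : ℝ) ≤ D := by exact_mod_cast hD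
  have hS' : (D : ℝ) ≤ S := by exact_mod_cast hS
  have hp' : (l : ℝ) + 4 ≤ p := by exact_mod_cast hp1
  have hl' : (0 : ℝ) ≤ l := Nat.cast_nonneg l
  have hp0 : (4 : ℝ) ≤ p := by linarith
  have h1 : (1 - (l : ℝ)) * D * p + 12 * S * ((p : ℝ) - 1) ^ 2 + 12 * D * p ≤
      6 * (D : ℝ) * p * (t + 1) := by
    have h2 : 6 * (D : ℝ) * p * (t ^ 2 + 1) ≤ 6 * (D : ℝ) * p * (t + 1) * t := by
      have h3 : 0 ≤ 6 * (D : ℝ) * p * (t - 1) := by
        apply mul_nonneg (by positivity) (by linarith)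
      nlinarith
    rw [hw] at h2
    exact le_of_mul_le_mul_right h2 (by linarith)
  have h4 : (l : ℝ) * D * p ≤ S * (p * (p - 4)) := by
    have h5 : (l : ℝ) * D ≤ (p - 4) * S := mul_le_mul (by linarith) hS' (by linarith) (by linarith)
    calc (l : ℝ) * D * p ≤ (p - 4) * S * p := mul_le_mul_of_nonneg_right h5 (by linarith)
      _ = S * (p * (p - 4)) := by ring
  have h13 : 0 ≤ (D : ℝ) * p := by positivity
  have h14 : 0 ≤ (S : ℝ) * (p * (p - 4)) := by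
    apply mul_nonneg (by linarith) (mul_nonneg (by linarith) (by linarith))
  have h6 : 6 * ((S : ℝ) * p * p) ≤ 6 * ((D : ℝ) * t * p) := by nlinarith
  have h7 : (S : ℝ) * p * p ≤ (D : ℝ) * t * p := by linarith
  exact le_of_mul_le_mul_right h7 (by linarith)

/-- Irrationality of `t`. -/
theorem core_irr (D S l p : ℕ) (hD : 0 < D) (hS : D ≤ S) (hp1 : l + 4 ≤ p)
    (hp2 : 72 * S * D < p) (t : ℝ) (ht : 1 ≤ t)
    (hw : 6 * (D : ℝ) * p * (t ^ 2 + 1) =
      ((1 - (l : ℝ)) * D * p + 12 * S * ((p : ℝ) - 1) ^ 2 + 12 * D * p) * t) :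
    ∀ a b : ℤ, (a : ℝ) = t * b → a = 0 ∧ b = 0 := by
  have hlow := core_lower D S l p hS hp1 t ht hw hD
  have hD' : (1 : ℝ) ≤ D := by exact_mod_cast hD
  have hS' : (D : ℝ) ≤ S := by exact_mod_cast hS
  have hp' : (l : ℝ) + 4 ≤ p := by exact_mod_cast hp1
  have hl' : (0 : ℝ) ≤ l := Nat.cast_nonneg l
  have hp0 : (4 : ℝ) ≤ p := by linarith
  have htp : (p : ℝ) ≤ t := by
    have h1 : (D : ℝ) * p ≤ D * t := (mul_le_mul_of_nonneg_right hS' (by linarith)).trans hlow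
    exact le_of_mul_le_mul_left h1 (by linarith)
  intro a b hab
  by_cases hb : b = 0
  · subst hb
    simp at hab
    exact ⟨by exact_mod_cast hab, rfl⟩
  exfalso
  -- lowest terms
  set q : ℚ := (a : ℚ) / b with hq
  have hbR : (b : ℝ) ≠ 0 := by exact_mod_cast hb
  have htq : t = (q : ℝ) := by
    rw [hq]
    push_cast
    rw [eq_div_iff hbR]
    exact hab.symm
  set u : ℤ := q.num with hu
  set v : ℤ := (q.den : ℤ) with hv
  have hv0 : 0 < v := by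
    rw [hv]
    exact_mod_cast q.den_pos
  have hvR : (0 : ℝ) < v := by exact_mod_cast hv0
  have htuv : (u : ℝ) = t * v := by
    rw [htq, hu, hv]
    have h1 := Rat.mul_den_eq_num q
    have h2 : ((q * (q.den : ℚ) : ℚ) : ℝ) = ((q.num : ℚ) : ℝ) := by rw [h1]
    push_cast at h2 ⊢
    exact h2.symm
  have hcop : IsCoprime u v := by
    rw [Int.isCoprime_iff_nat_coprime]
    exact q.reduced
  have hu0 : 0 < u := by
    have h1 : (0 : ℝ) < u := by
      rw [htuv]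
      positivity
    exact_mod_cast h1
  have huR : (0 : ℝ) < u := by exact_mod_cast hu0
  -- the integer equation
  have heq : (6 * (D : ℤ) * p) * (u ^ 2 + v ^ 2) =
      ((1 - (l : ℤ)) * D * p + 12 * S * ((p : ℤ) - 1) ^ 2 + 12 * D * p) * (u * v) := by
    have h1 : (6 * (D : ℝ) * p) * ((u : ℝ) ^ 2 + (v : ℝ) ^ 2) =
      ((1 - (l : ℝ)) * D * p + 12 * S * ((p : ℝ) - 1) ^ 2 + 12 * D * p) * ((u : ℝ) * v) := by
      rw [htuv]
      linear_combination (v : ℝ) ^ 2 * hw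
    exact_mod_cast h1
  have hcop2 : IsCoprime (u * v) (u ^ 2 + v ^ 2) := by
    apply IsCoprime.mul_left
    · have h1 : IsCoprime u (v ^ 2) := hcop.pow_right
      have h2 : u ^ 2 + v ^ 2 = v ^ 2 + u * u := by ring
      rw [h2]
      exact (IsCoprime.add_mul_left_right h1 u)
    · have h1 : IsCoprime v (u ^ 2) := hcop.symm.pow_right
      have h2 : u ^ 2 + v ^ 2 = u ^ 2 + v * v := by ring
      rw [h2]
      exact (IsCoprime.add_mul_left_right h1 v)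
  have hdvd : u * v ∣ 6 * (D : ℤ) * p := by
    apply hcop2.dvd_of_dvd_mul_right
    rw [heq]
    exact Dvd.intro_left _ rfl
  have hp0' : 0 < (p : ℤ) := by
    have : 0 < p := by omega
    exact_mod_cast this
  have hD0' : 0 < (D : ℤ) := by exact_mod_cast hD
  have hle : u * v ≤ 6 * (D : ℤ) * p := Int.le_of_dvd (by positivity) hdvd
  have hleR : (u : ℝ) * v ≤ 6 * (D : ℝ) * p := by exact_mod_cast hle
  have hv1 : (1 : ℝ) ≤ v := by exact_mod_cast hv0
  have hvle : (v : ℝ) ≤ 6 * D := by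
    rw [htuv] at hleR
    have h1 : (p : ℝ) * v ≤ 6 * D * p := by
      calc (p : ℝ) * v ≤ t * v := mul_le_mul_of_nonneg_right htp hvR.le
        _ ≤ t * v * v := by
          have : 0 ≤ t * v := by positivity
          nlinarith
        _ ≤ 6 * D * p := hleR
    have h2 : (v : ℝ) * p ≤ 6 * D * p := by linarith
    exact le_of_mul_le_mul_right h2 (by linarith)
  -- the small integer
  have hpR : (0 : ℝ) < p := by linarith
  have htR : (0 : ℝ) < t := by linarith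
  have hz : ((6 * (D : ℤ) * u - v * (12 * S * p - 24 * S + 12 * D - ((l : ℤ) - 1) * D) : ℤ) : ℝ) =
      v * (12 * S / p - 6 * D / t) := by
    push_cast
    rw [htuv]
    field_simp
    linear_combination hw
  have hz1 : (0 : ℝ) < v * (12 * S / p - 6 * D / t) := by
    apply mul_pos hvR
    rw [sub_pos, div_lt_div_iff₀ htR hpR]
    have h1 : (D : ℝ) * p ≤ S * t := by
      calc (D : ℝ) * p ≤ D * t := mul_le_mul_of_nonneg_left htp (by linarith)
        _ ≤ S * t := mul_le_mul_of_nonneg_right hS' htR.le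
    have h2 : (0 : ℝ) < S * t := by
      apply mul_pos (by linarith) htR
    nlinarith
  have hz2 : v * (12 * (S : ℝ) / p - 6 * D / t) < 1 := by
    have h1 : v * (12 * (S : ℝ) / p - 6 * D / t) ≤ v * (12 * S / p) := by
      apply mul_le_mul_of_nonneg_left _ hvR.le
      have : 0 ≤ 6 * (D : ℝ) / t := by positivity
      linarith
    have h2 : v * (12 * (S : ℝ) / p) ≤ 6 * D * (12 * S / p) := by
      apply mul_le_mul_of_nonneg_right hvle (by positivity)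
    have h3 : 6 * (D : ℝ) * (12 * S / p) < 1 := by
      have h4 : 6 * (D : ℝ) * (12 * S / p) = (72 * S * D) / p := by ring
      rw [h4, div_lt_one hpR]
      exact_mod_cast hp2
    linarith
  rw [← hz] at hz1 hz2
  have hz1' : (0 : ℤ) < 6 * (D : ℤ) * u - v * (12 * S * p - 24 * S + 12 * D - ((l : ℤ) - 1) * D) := by
    exact_mod_cast hz1
  have hz2' : 6 * (D : ℤ) * u - v * (12 * S * p - 24 * S + 12 * D - ((l : ℤ) - 1) * D) < 1 := by
    exact_mod_cast hz2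
  omega

/-- The Kac part. -/
theorem core_kac (D S l p C1 : ℕ) (hD : 0 < D) (hS : D ≤ S) (hp1 : l + 4 ≤ p)
    (t : ℝ) (ht : 1 ≤ t)
    (hw : 6 * (D : ℝ) * p * (t ^ 2 + 1) =
      ((1 - (l : ℝ)) * D * p + 12 * S * ((p : ℝ) - 1) ^ 2 + 12 * D * p) * t)
    (hirr : ∀ a b : ℤ, (a : ℝ) = t * b → a = 0 ∧ b = 0)
    (h r s : ℕ) (hh : 1 ≤ h) (hr : 1 ≤ r) (hs : 1 ≤ s) (hhC : h ≤ C1 * p ^ 2)
    (heq : (h : ℝ) = (((s : ℝ) ^ 2 - 1) * t + ((r : ℝ) ^ 2 - 1) / t - 2 * ((r : ℝ) * s - 1)) / 4) :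
    2 ≤ r ∧ r ^ 2 ≤ (4 * C1 + 1) * p ∧ (p : ℤ) ∣ 12 * S * ((r : ℤ) ^ 2 - 1) := by
  have hlow := core_lower D S l p hS hp1 t ht hw hD
  have hD' : (1 : ℝ) ≤ D := by exact_mod_cast hD
  have hS' : (D : ℝ) ≤ S := by exact_mod_cast hS
  have hp' : (l : ℝ) + 4 ≤ p := by exact_mod_cast hp1
  have hl' : (0 : ℝ) ≤ l := Nat.cast_nonneg l
  have hp0 : (4 : ℝ) ≤ p := by linarith
  have htR : (0 : ℝ) < t := by linarith
  have htp : (p : ℝ) ≤ t := by
    have h1 : (D : ℝ) * p ≤ D * t := (mul_le_mul_of_nonneg_right hS' (by linarith)).trans hlow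
    exact le_of_mul_le_mul_left h1 (by linarith)
  -- `w + 2`
  have hinv : 6 * (D : ℝ) * p * (1 / t) =
      ((1 - (l : ℝ)) * D * p + 12 * S * ((p : ℝ) - 1) ^ 2 + 12 * D * p) - 6 * D * p * t := by
    field_simp
    linear_combination hw
  have h1 : 6 * (D : ℝ) * p * (4 * h) = 6 * D * p * (((s : ℝ) ^ 2 - 1) * t) +
      ((r : ℝ) ^ 2 - 1) * (6 * D * p * (1 / t)) - 6 * D * p * (2 * ((r : ℝ) * s - 1)) := by
    rw [heq]
    ring
  rw [hinv] at h1
  have h2 : (((6 * (D : ℤ) * p * (4 * h) - ((r : ℤ) ^ 2 - 1) *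
      ((1 - (l : ℤ)) * D * p + 12 * S * ((p : ℤ) - 1) ^ 2 + 12 * D * p) +
      6 * D * p * (2 * ((r : ℤ) * s - 1)) : ℤ)) : ℝ) =
      t * ((6 * (D : ℤ) * p * ((s : ℤ) ^ 2 - (r : ℤ) ^ 2) : ℤ) : ℝ) := by
    push_cast
    linear_combination h1
  obtain ⟨h3, h4⟩ := hirr _ _ h2
  have hp0' : 0 < (p : ℤ) := by
    have : 0 < p := by omega
    exact_mod_cast this
  have hD0' : 0 < (D : ℤ) := by exact_mod_cast hD
  have h5 : (s : ℤ) ^ 2 - (r : ℤ) ^ 2 = 0 := by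
    have h6 : (6 * (D : ℤ) * p) ≠ 0 := by positivity
    rcases mul_eq_zero.mp h4 with h7 | h7
    · exact absurd h7 h6
    · exact h7
  have h6 : s = r := by
    have h7 : (s : ℤ) ^ 2 = (r : ℤ) ^ 2 := by linarith
    have h8 : s ^ 2 = r ^ 2 := by exact_mod_cast h7
    exact Nat.pow_left_injective (n := 2) (by norm_num) h8
  subst h6
  -- `4 h = (s^2-1) w`
  have h7 : (6 * (D : ℤ) * p) * (4 * h) = ((s : ℤ) ^ 2 - 1) *
      ((1 - (l : ℤ)) * D * p + 12 * S * ((p : ℤ) - 1) ^ 2) := by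
    linear_combination h3
  have h8 : 2 ≤ s := by
    by_contra hcon
    have : s = 1 := by omega
    subst this
    have h9 : (6 * (D : ℤ) * p) * (4 * h) = 0 := by rw [h7]; ring
    have h10 : (0 : ℤ) < (6 * (D : ℤ) * p) * (4 * h) := by positivity
    omega
  refine ⟨h8, ?_, ?_⟩
  · -- size
    have h9 : (4 * (h : ℝ)) = ((s : ℝ) ^ 2 - 1) * (t + 1 / t - 2) := by
      rw [heq]
      ring
    have h9' : (6 * (D : ℝ) * p) * (4 * h) = ((s : ℝ) ^ 2 - 1) *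
      ((1 - (l : ℝ)) * D * p + 12 * S * ((p : ℝ) - 1) ^ 2) := by exact_mod_cast h7
    have h10 : 6 * (D : ℝ) * p * p ≤ (1 - (l : ℝ)) * D * p + 12 * S * ((p : ℝ) - 1) ^ 2 := by
      have h11 : (l : ℝ) * D * p ≤ S * (p * (p - 4)) := by
        have h5 : (l : ℝ) * D ≤ (p - 4) * S :=
          mul_le_mul (by linarith) hS' (by linarith) (by linarith)
        calc (l : ℝ) * D * p ≤ (p - 4) * S * p := mul_le_mul_of_nonneg_right h5 (by linarith)
          _ = S * (p * (p - 4)) := by ring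
      have h12 : (D : ℝ) * (p * p) ≤ S * (p * p) :=
        mul_le_mul_of_nonneg_right hS' (by positivity)
      have h13 : 0 ≤ (D : ℝ) * p := by positivity
      have h14 : 0 ≤ (S : ℝ) * (p * (p - 4)) := by
        apply mul_nonneg (by linarith) (mul_nonneg (by linarith) (by linarith))
      nlinarith
    have hs2 : (1 : ℝ) ≤ (s : ℝ) ^ 2 := by
      have : (2 : ℝ) ≤ s := by exact_mod_cast h8
      nlinarith
    have h11 : ((s : ℝ) ^ 2 - 1) * (6 * (D : ℝ) * p * p) ≤ (6 * (D : ℝ) * p) * (4 * h) := by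
      rw [h9']
      exact mul_le_mul_of_nonneg_left h10 (by linarith)
    have h12 : ((s : ℝ) ^ 2 - 1) * p ≤ 4 * h := by
      have h13 : (6 * (D : ℝ) * p) * (((s : ℝ) ^ 2 - 1) * p) ≤ (6 * (D : ℝ) * p) * (4 * h) := by
        calc (6 * (D : ℝ) * p) * (((s : ℝ) ^ 2 - 1) * p) =
            ((s : ℝ) ^ 2 - 1) * (6 * (D : ℝ) * p * p) := by ring
          _ ≤ _ := h11
      exact le_of_mul_le_mul_left h13 (by positivity)
    have h13 : (h : ℝ) ≤ C1 * (p : ℝ) ^ 2 := by exact_mod_cast hhC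
    have h14 : ((s : ℝ) ^ 2 - 1) * p ≤ (4 * C1 * p) * p := by
      calc ((s : ℝ) ^ 2 - 1) * p ≤ 4 * h := h12
        _ ≤ 4 * (C1 * (p : ℝ) ^ 2) := by linarith
        _ = (4 * C1 * p) * p := by ring
    have h15 : (s : ℝ) ^ 2 - 1 ≤ 4 * C1 * p := le_of_mul_le_mul_right h14 (by linarith)
    have h16 : (s : ℝ) ^ 2 ≤ (4 * C1 + 1) * p := by
      have : (1 : ℝ) ≤ p := by linarith
      linarith
    exact_mod_cast h16
  · have h9 : (p : ℤ) ∣ ((s : ℤ) ^ 2 - 1) *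
      ((1 - (l : ℤ)) * D * p + 12 * S * ((p : ℤ) - 1) ^ 2) := by
      rw [← h7]
      exact ⟨6 * D * (4 * h), by ring⟩
    have h10 : ((s : ℤ) ^ 2 - 1) * ((1 - (l : ℤ)) * D * p + 12 * S * ((p : ℤ) - 1) ^ 2) =
        p * (((s : ℤ) ^ 2 - 1) * ((1 - (l : ℤ)) * D + 12 * S * (p - 2))) +
          12 * S * ((s : ℤ) ^ 2 - 1) := by ring
    rw [h10] at h9
    exact (Int.dvd_add_right (Dvd.intro _ rfl)).mp h9

/-- The arithmetic core. -/
theorem core (D S l C1 : ℕ) (hD : 0 < D) (hS : D ≤ S) : ∃ C : ℕ, 1 ≤ C ∧ ∀ p : ℕ, C < p →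
    (∀ r : ℕ, 2 ≤ r → r ^ 2 ≤ C * p → ¬ p ∣ C * (r ^ 2 - 1)) →
    ∃ t : ℝ, 1 ≤ t ∧ 6 * (D : ℝ) * p * (t ^ 2 + 1) =
      ((1 - (l : ℝ)) * D * p + 12 * S * ((p : ℝ) - 1) ^ 2 + 12 * D * p) * t ∧
      (∀ a b : ℤ, (a : ℝ) = t * b → a = 0 ∧ b = 0) ∧
      ∀ h r s : ℕ, 1 ≤ h → 1 ≤ r → 1 ≤ s → h ≤ C1 * p ^ 2 →
        (h : ℝ) ≠ (((s : ℝ) ^ 2 - 1) * t + ((r : ℝ) ^ 2 - 1) / t - 2 * ((r : ℝ) * s - 1)) / 4 := by
  have hS0 : 0 < S := by omega
  refine ⟨12 * S * (l + 4 + 72 * S * D + (4 * C1 + 1)), ?_, ?_⟩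
  · have : 1 ≤ 12 * S := by omega
    exact Nat.mul_pos (by omega) (by omega)
  intro p hp hE
  have hp1 : l + 4 + 72 * S * D + (4 * C1 + 1) < p := by
    refine lt_of_le_of_lt ?_ hp
    exact Nat.le_mul_of_pos_left _ (by omega)
  have hlp : l + 4 ≤ p := by omega
  have hSp : 72 * S * D < p := by omega
  have hD' : (1 : ℝ) ≤ D := by exact_mod_cast hD
  have hS' : (D : ℝ) ≤ S := by exact_mod_cast hS
  have hp' : (l : ℝ) + 4 ≤ p := by exact_mod_cast hlp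
  have hl' : (0 : ℝ) ≤ l := Nat.cast_nonneg l
  have hp0 : (4 : ℝ) ≤ p := by linarith
  -- choice of `t`
  set B : ℝ := ((1 - (l : ℝ)) * D * p + 12 * S * ((p : ℝ) - 1) ^ 2 + 12 * D * p) / (6 * D * p)
    with hB
  have hden : (0 : ℝ) < 6 * D * p := by positivity
  have hB2 : 2 ≤ B := by
    rw [hB, le_div_iff₀ hden]
    have h11 : (l : ℝ) * D * p ≤ S * (p * (p - 4)) := by
      have h5 : (l : ℝ) * D ≤ (p - 4) * S :=
        mul_le_mul (by linarith) hS' (by linarith) (by linarith)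
      calc (l : ℝ) * D * p ≤ (p - 4) * S * p := mul_le_mul_of_nonneg_right h5 (by linarith)
        _ = S * (p * (p - 4)) := by ring
    have h13 : 0 ≤ (D : ℝ) * p := by positivity
    have h14 : 0 ≤ (S : ℝ) * (p * (p - 4)) := by
      apply mul_nonneg (by linarith) (mul_nonneg (by linarith) (by linarith))
    nlinarith
  set q : ℝ := Real.sqrt (B ^ 2 - 4) with hqdef
  have hBq : 0 ≤ B ^ 2 - 4 := by nlinarith
  have hq2 : q ^ 2 = B ^ 2 - 4 := Real.sq_sqrt hBq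
  have hq0 : 0 ≤ q := Real.sqrt_nonneg _
  set t : ℝ := (B + q) / 2 with ht
  have ht1 : 1 ≤ t := by
    rw [ht]
    linarith
  have htq : t ^ 2 + 1 = B * t := by
    rw [ht]
    linear_combination (1 / 4 : ℝ) * hq2
  have hw : 6 * (D : ℝ) * p * (t ^ 2 + 1) =
      ((1 - (l : ℝ)) * D * p + 12 * S * ((p : ℝ) - 1) ^ 2 + 12 * D * p) * t := by
    have h1 : 6 * (D : ℝ) * p * B =
        (1 - (l : ℝ)) * D * p + 12 * S * ((p : ℝ) - 1) ^ 2 + 12 * D * p := by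
      rw [hB]
      field_simp
    rw [htq, ← h1]
    ring
  have hirr := core_irr D S l p hD hS hlp hSp t ht1 hw
  refine ⟨t, ht1, hw, hirr, ?_⟩
  intro h r s hh hr hs hhC heq
  obtain ⟨h1, h2, h3⟩ := core_kac D S l p C1 hD hS hlp t ht1 hw hirr h r s hh hr hs hhC heq
  refine hE r h1 ?_ ?_
  · calc r ^ 2 ≤ (4 * C1 + 1) * p := h2
      _ ≤ 12 * S * (l + 4 + 72 * S * D + (4 * C1 + 1)) * p := by
        apply Nat.mul_le_mul_right
        calc 4 * C1 + 1 ≤ l + 4 + 72 * S * D + (4 * C1 + 1) := by omega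
          _ ≤ _ := Nat.le_mul_of_pos_left _ (by omega)
  · have hr2 : 1 ≤ r ^ 2 := Nat.one_le_pow _ _ (by omega)
    have h4 : p ∣ 12 * S * (r ^ 2 - 1) := by
      have h5 : ((12 * S * (r ^ 2 - 1) : ℕ) : ℤ) = 12 * S * ((r : ℤ) ^ 2 - 1) := by
        push_cast [Nat.cast_sub hr2]
        ring
      rw [← h5] at h3
      exact_mod_cast h3
    have h6 : 12 * S * (l + 4 + 72 * S * D + (4 * C1 + 1)) * (r ^ 2 - 1) =
        (12 * S * (r ^ 2 - 1)) * (l + 4 + 72 * S * D + (4 * C1 + 1)) := by ring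
    rw [h6]
    exact Dvd.dvd.mul_right h4 _

end WPQ.AR
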