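import Pool.Agent.WPQ.FW3

/-! [WPQ-FW4] Wick's formula and the (anti)commutation of the operators `vop`.

Plan: for fixed homogeneous `f` of degree `d` let
`N(a,b) = ∑_{i,j ≤ d} expCoeffZ ν (a+i) * expCoeffZ η (b+j) * Sop ν i (Sop η j f)`.
By `vop_eq`, `Sop_mul`, `Sop_expCoeff`: `vop ν a (vop η b f) = ∑_{k≥0} ee(q,k) N(a+k,b-k)`,
`q = form ν η` (finite sum: `N(a,b) = 0` for `b < -d`), and symmetrically
`vop η b (vop ν a f) = ∑_{k≥0} ee(q,k) N(a-k,b+k)`.  `∑ ee(q,k) t^k = (1-t)^q`.  For `q ≥ 0`: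
`ee(q,k) = (-1)^k choose q k`, and `ee(q,q-k) = (-1)^q ee(q,k)`.  For `q = -m`:
`(1-t)^m (1-t)^(-m) = 1` (`wick_conv`), so both sides of `vop_comm_neg` are `N(a,b)`.
General `f`: sum of homogeneous components. -/

namespace WPQ

open MvPolynomial

noncomputable section

variable {ι : Type} [Fintype ι] [DecidableEq ι]

theorem fw4_ee_succ (q : ℂ) (n : ℕ) :
    ((n : ℂ) + 1) * RC.ee q (n + 1) = ((n : ℂ) - q) * RC.ee q n := by
  have h1 : RC.ee q (n + 1) = RC.ee q n * ((n : ℂ) - q) / ((n : ℂ) + 1) := rfl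
  have hn : ((n : ℂ) + 1) ≠ 0 := by exact_mod_cast Nat.succ_ne_zero n
  rw [h1]
  field_simp

/-- `(1-t)^q (1-t)^r = (1-t)^(q+r)` for the coefficients `ee`. -/
theorem wick_conv (q r : ℂ) (n : ℕ) :
    ∑ x ∈ Finset.HasAntidiagonal.antidiagonal n, RC.ee q x.1 * RC.ee r x.2 = RC.ee (q + r) n := by
  induction n with
  | zero => simp [RC.ee]
  | succ n ih =>
    have hn : ((n : ℂ) + 1) ≠ 0 := by exact_mod_cast Nat.succ_ne_zero n
    have key : ((n : ℂ) + 1) * ∑ x ∈ Finset.HasAntidiagonal.antidiagonal (n + 1),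
        RC.ee q x.1 * RC.ee r x.2 =
        ((n : ℂ) - (q + r)) * ∑ x ∈ Finset.HasAntidiagonal.antidiagonal n,
          RC.ee q x.1 * RC.ee r x.2 := by
      have h1 : ((n : ℂ) + 1) * ∑ x ∈ Finset.HasAntidiagonal.antidiagonal (n + 1),
          RC.ee q x.1 * RC.ee r x.2 =
          ∑ x ∈ Finset.HasAntidiagonal.antidiagonal (n + 1),
            (x.1 : ℂ) * (RC.ee q x.1 * RC.ee r x.2) +
          ∑ x ∈ Finset.HasAntidiagonal.antidiagonal (n + 1),
            (x.2 : ℂ) * (RC.ee q x.1 * RC.ee r x.2) := by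
        rw [Finset.mul_sum, ← Finset.sum_add_distrib]
        refine Finset.sum_congr rfl fun x hx => ?_
        have hx' : x.1 + x.2 = n + 1 := Finset.HasAntidiagonal.mem_antidiagonal.1 hx
        have hx'' : (x.1 : ℂ) + (x.2 : ℂ) = (n : ℂ) + 1 := by exact_mod_cast hx'
        rw [← hx'']
        ring
      have h2 : ∑ x ∈ Finset.HasAntidiagonal.antidiagonal (n + 1),
            (x.1 : ℂ) * (RC.ee q x.1 * RC.ee r x.2) =
          ∑ x ∈ Finset.HasAntidiagonal.antidiagonal n,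
            ((x.1 : ℂ) - q) * (RC.ee q x.1 * RC.ee r x.2) := by
        rw [Finset.Nat.sum_antidiagonal_succ]
        simp only [Nat.cast_zero, zero_mul, zero_add, Nat.cast_add, Nat.cast_one]
        refine Finset.sum_congr rfl fun x _ => ?_
        rw [← mul_assoc, fw4_ee_succ]
        ring
      have h3 : ∑ x ∈ Finset.HasAntidiagonal.antidiagonal (n + 1),
            (x.2 : ℂ) * (RC.ee q x.1 * RC.ee r x.2) =
          ∑ x ∈ Finset.HasAntidiagonal.antidiagonal n,
            ((x.2 : ℂ) - r) * (RC.ee q x.1 * RC.ee r x.2) := by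
        rw [Finset.Nat.sum_antidiagonal_succ']
        simp only [Nat.cast_zero, zero_mul, zero_add, Nat.cast_add, Nat.cast_one]
        refine Finset.sum_congr rfl fun x _ => ?_
        have := fw4_ee_succ r x.2
        linear_combination RC.ee q x.1 * this
      rw [h1, h2, h3, ← Finset.sum_add_distrib, Finset.mul_sum]
      refine Finset.sum_congr rfl fun x hx => ?_
      have hx' : x.1 + x.2 = n := Finset.HasAntidiagonal.mem_antidiagonal.1 hx
      have hx'' : (x.1 : ℂ) + (x.2 : ℂ) = (n : ℂ) := by exact_mod_cast hx'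
      rw [← hx'']
      ring
    rw [ih, ← fw4_ee_succ] at key
    exact mul_left_cancel₀ hn key

theorem ee_nat (q k : ℕ) : RC.ee (q : ℂ) k = (-1) ^ k * (q.choose k : ℂ) := by
  induction k with
  | zero => simp [RC.ee]
  | succ n ih =>
    have h1 : RC.ee (q : ℂ) (n + 1) = RC.ee (q : ℂ) n * ((n : ℂ) - q) / ((n : ℂ) + 1) := rfl
    have hn : ((n : ℂ) + 1) ≠ 0 := by exact_mod_cast Nat.succ_ne_zero n
    have h2 : ((q.choose (n + 1) : ℂ)) * ((n : ℂ) + 1) = (q.choose n : ℂ) * ((q : ℂ) - n) := by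
      rcases le_or_gt n q with hnq | hnq
      · have := Nat.choose_succ_right_eq q n
        have h3 : ((q.choose (n + 1) * (n + 1) : ℕ) : ℂ) = ((q.choose n * (q - n) : ℕ) : ℂ) := by
          rw [this]
        push_cast [Nat.cast_sub hnq] at h3
        exact h3
      · rw [Nat.choose_eq_zero_of_lt hnq, Nat.choose_eq_zero_of_lt (Nat.lt_succ_of_lt hnq)]
        simp
    rw [h1, ih, div_eq_iff hn, pow_succ]
    linear_combination ((-1 : ℂ) ^ n) * h2

theorem fw4_ee_zero (n : ℕ) (hn : n ≠ 0) : RC.ee (0 : ℂ) n = 0 := by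
  have h := ee_nat 0 n
  rw [Nat.cast_zero, Nat.choose_eq_zero_of_lt (Nat.pos_of_ne_zero hn)] at h
  rw [h]
  simp

theorem fw4_ee_nat_zero (q n : ℕ) (h : q < n) : RC.ee (q : ℂ) n = 0 := by
  rw [ee_nat, Nat.choose_eq_zero_of_lt h]
  simp

theorem fw4_Sop_expCoeffZ (A : Matrix ι ι ℤ) (hA : ∀ i j, A i j = A j i) (p : ℕ) (ν η : ι → ℂ)
    (x : ℕ) (m : ℤ) : Sop A p ν x (expCoeffZ η m) =
      C (RC.ee (form A p ν η) x) * expCoeffZ η (m - x) := by
  rcases lt_or_ge m 0 with h | h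
  · rw [expCoeffZ_neg η m h, expCoeffZ_neg η (m - x) (by omega), map_zero, mul_zero]
  · obtain ⟨n, rfl⟩ : ∃ n : ℕ, m = n := ⟨m.toNat, by omega⟩
    rw [expCoeffZ_nat, Sop_expCoeff A hA]
    split_ifs with hx
    · have h1 : ((n : ℤ) - x) = ((n - x : ℕ) : ℤ) := by omega
      rw [h1, expCoeffZ_nat]
    · rw [expCoeffZ_neg η _ (by omega), mul_zero]

/-- the normally ordered two point coefficients -/
def fw4_N (A : Matrix ι ι ℤ) (p : ℕ) (ν η : ι → ℂ) (f : Fock ι) (d : ℕ) (a b : ℤ) : Fock ι :=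
  ∑ i ∈ Finset.range (d + 1), ∑ j ∈ Finset.range (d + 1),
    expCoeffZ ν (a + i) * expCoeffZ η (b + j) * Sop A p ν i (Sop A p η j f)

theorem fw4_N_symm (A : Matrix ι ι ℤ) (p : ℕ) (ν η : ι → ℂ) (f : Fock ι) (d : ℕ) (a b : ℤ) :
    fw4_N A p ν η f d a b = fw4_N A p η ν f d b a := by
  unfold fw4_N
  rw [Finset.sum_comm]
  refine Finset.sum_congr rfl fun i _ => Finset.sum_congr rfl fun j _ => ?_
  rw [Sop_comm A p ν η]
  ring

theorem fw4_N_zero (A : Matrix ι ι ℤ) (p : ℕ) (ν η : ι → ℂ) (f : Fock ι) (d : ℕ) (a b : ℤ)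
    (h : b + d < 0) : fw4_N A p ν η f d a b = 0 := by
  unfold fw4_N
  refine Finset.sum_eq_zero fun i _ => Finset.sum_eq_zero fun j hj => ?_
  have hj' := Nat.lt_succ_iff.1 (Finset.mem_range.1 hj)
  rw [expCoeffZ_neg η _ (by omega), mul_zero, zero_mul]

theorem fw4_Sop_Sop_zero (A : Matrix ι ι ℤ) (p : ℕ) (ν η : ι → ℂ) (f : Fock ι) (d : ℕ)
    (hf : FH f d) (i j : ℕ) (hi : d < i) : Sop A p ν i (Sop A p η j f) = 0 := by
  rw [Sop_comm, Sop_eq_zero A p ν i d f hf hi, map_zero]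

theorem fw4_wick (A : Matrix ι ι ℤ) (hA : ∀ i j, A i j = A j i) (p : ℕ) (ν η : ι → ℂ)
    (f : Fock ι) (d : ℕ) (hf : FH f d) (a b : ℤ) (K : ℕ) (hK : b + d < K) :
    vop A p ν a (vop A p η b f) =
      ∑ x ∈ Finset.range K, C (RC.ee (form A p ν η) x) * fw4_N A p ν η f d (a + x) (b - x) := by
  have h0 : ∀ q, K + d < q → Sop A p ν q (vop A p η b f) = 0 := by
    intro q hq
    rcases lt_or_ge ((d : ℤ) + b) 0 with h | h
    · rw [vop_eq_zero A p η b f d hf h, map_zero]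
    · obtain ⟨e, he⟩ : ∃ e : ℕ, (e : ℤ) = d + b := ⟨((d : ℤ) + b).toNat, by omega⟩
      exact Sop_eq_zero A p ν q e _ (vop_homog A p η b f d e hf he) (by omega)
  rw [vop_eq A p ν a _ (K + d) h0]
  have h1 : ∀ q : ℕ, expCoeffZ ν (a + q) * Sop A p ν q (vop A p η b f) =
      ∑ x ∈ Finset.range (q + 1), C (RC.ee (form A p ν η) x) *
        ∑ j ∈ Finset.range (d + 1), expCoeffZ ν (a + x + ((q - x : ℕ) : ℤ)) *
          expCoeffZ η (b - x + j) * Sop A p ν (q - x) (Sop A p η j f) := by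
    intro q
    rw [fw3_vop_eq A p η b f d hf, map_sum, Finset.mul_sum]
    have h2 : ∀ j ∈ Finset.range (d + 1), expCoeffZ ν (a + q) *
        Sop A p ν q (expCoeffZ η (b + j) * Sop A p η j f) =
        ∑ x ∈ Finset.range (q + 1), C (RC.ee (form A p ν η) x) *
          (expCoeffZ ν (a + x + ((q - x : ℕ) : ℤ)) *
          expCoeffZ η (b - x + j) * Sop A p ν (q - x) (Sop A p η j f)) := by
      intro j _
      rw [Sop_mul, Finset.Nat.sum_antidiagonal_eq_sum_range_succ_mk, Finset.mul_sum]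
      refine Finset.sum_congr rfl fun x hx => ?_
      have hx' := Nat.lt_succ_iff.1 (Finset.mem_range.1 hx)
      have h3 : a + x + ((q - x : ℕ) : ℤ) = a + q := by omega
      have h4 : b - x + (j : ℤ) = b + j - x := by ring
      rw [h3, h4, fw4_Sop_expCoeffZ A hA]
      ring
    rw [Finset.sum_congr rfl h2, Finset.sum_comm]
    refine Finset.sum_congr rfl fun x _ => ?_
    rw [Finset.mul_sum]
  rw [Finset.sum_congr rfl fun q _ => h1 q]
  rw [Finset.sum_range_diag_flip (K + d + 1) fun x i => C (RC.ee (form A p ν η) x) *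
        ∑ j ∈ Finset.range (d + 1), expCoeffZ ν (a + x + (i : ℤ)) *
          expCoeffZ η (b - x + j) * Sop A p ν i (Sop A p η j f)]
  have h5 : Finset.range K ⊆ Finset.range (K + d + 1) := by
    intro x hx
    rw [Finset.mem_range] at hx ⊢
    omega
  rw [← Finset.sum_subset h5]
  · refine Finset.sum_congr rfl fun x hx => ?_
    rw [Finset.mem_range] at hx
    rw [← Finset.mul_sum]
    congr 1
    unfold fw4_N
    symm
    apply Finset.sum_subset
    · intro i hi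
      rw [Finset.mem_range] at hi ⊢
      omega
    · intro i _ hi
      rw [Finset.mem_range, not_lt] at hi
      refine Finset.sum_eq_zero fun j _ => ?_
      rw [fw4_Sop_Sop_zero A p ν η f d hf i j (by omega), mul_zero]
  · intro x _ hx
    rw [Finset.mem_range, not_lt] at hx
    refine Finset.sum_eq_zero fun i _ => ?_
    rw [Finset.sum_eq_zero, mul_zero]
    intro j hj
    have hj' := Nat.lt_succ_iff.1 (Finset.mem_range.1 hj)
    rw [expCoeffZ_neg η _ (by omega), mul_zero, zero_mul]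

theorem fw4_ext (F G : Fock ι →ₗ[ℂ] Fock ι) (h : ∀ f d, FH f d → F f = G f) : F = G := by
  refine MvPolynomial.linearMap_ext fun s => LinearMap.ext_ring ?_
  rw [LinearMap.comp_apply, LinearMap.comp_apply]
  exact h _ _ (isWeightedHomogeneous_monomial _ s 1 rfl)

theorem fw4_nonneg (A : Matrix ι ι ℤ) (hA : ∀ i j, A i j = A j i) (p : ℕ) (ν η : ι → ℂ)
    (q : ℕ) (h : form A p ν η = q) (f : Fock ι) (d : ℕ) (hf : FH f d) (a b : ℤ) :
    vop A p ν a (vop A p η b f) =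
      ∑ x ∈ Finset.range (q + 1), C ((-1) ^ x * (q.choose x : ℂ)) *
        fw4_N A p ν η f d (a + x) (b - x) := by
  obtain ⟨K, hK1, hK2⟩ : ∃ K : ℕ, b + d < K ∧ q + 1 ≤ K :=
    ⟨(b + d).toNat + 1 + (q + 1), by omega, by omega⟩
  rw [fw4_wick A hA p ν η f d hf a b K hK1]
  have h5 : Finset.range (q + 1) ⊆ Finset.range K := by
    intro x hx
    rw [Finset.mem_range] at hx ⊢
    omega
  rw [← Finset.sum_subset h5]
  · refine Finset.sum_congr rfl fun x _ => ?_
    rw [h, ee_nat]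
  · intro x _ hx
    rw [Finset.mem_range, not_lt] at hx
    rw [h, fw4_ee_nat_zero q x (by omega), map_zero, zero_mul]

theorem vop_comm_nonneg (A : Matrix ι ι ℤ) (hA : ∀ i j, A i j = A j i) (p : ℕ) (ν η : ι → ℂ)
    (q : ℕ) (h : form A p ν η = q) (a b : ℤ) :
    vop A p ν a ∘ₗ vop A p η b = (-1 : ℂ) ^ q • (vop A p η (b - q) ∘ₗ vop A p ν (a + q)) := by
  refine fw4_ext _ _ fun f d hf => ?_
  rw [LinearMap.smul_apply, LinearMap.comp_apply, LinearMap.comp_apply,
    fw4_nonneg A hA p ν η q h f d hf,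
    fw4_nonneg A hA p η ν q (by rw [form_symm A hA, h]) f d hf,
    ← Finset.sum_range_reflect, Finset.smul_sum]
  refine Finset.sum_congr rfl fun x hx => ?_
  have hx' := Nat.lt_succ_iff.1 (Finset.mem_range.1 hx)
  have h1 : q + 1 - 1 - x = q - x := by omega
  rw [h1, fw4_N_symm A p η ν]
  have h2 : a + ((q - x : ℕ) : ℤ) = a + q - x := by omega
  have h3 : b - ((q - x : ℕ) : ℤ) = b - q + x := by omega
  rw [h2, h3, smul_eq_C_mul, ← mul_assoc, ← C_mul]
  congr 2
  rw [Nat.choose_symm hx', ← mul_assoc, ← pow_add]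
  congr 1
  have h4 : q + x = (q - x) + 2 * x := by omega
  rw [h4, pow_add, pow_mul]
  simp

theorem fw4_neg (A : Matrix ι ι ℤ) (hA : ∀ i j, A i j = A j i) (p : ℕ) (ν η : ι → ℂ)
    (m : ℕ) (h : form A p ν η = -(m : ℂ)) (f : Fock ι) (d : ℕ) (hf : FH f d) (a b : ℤ) :
    ∑ k ∈ Finset.range (m + 1), ((-1 : ℂ) ^ k * (m.choose k : ℂ)) •
        (vop A p ν (a + k) (vop A p η (b - k) f)) = fw4_N A p ν η f d a b := by
  obtain ⟨K, hK1, hK2⟩ : ∃ K : ℕ, b + d < K ∧ m + 1 ≤ K :=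
    ⟨(b + d).toNat + 1 + (m + 1), by omega, by omega⟩
  have h1 : ∀ k ∈ Finset.range (m + 1), ((-1 : ℂ) ^ k * (m.choose k : ℂ)) •
        (vop A p ν (a + k) (vop A p η (b - k) f)) =
      ∑ x ∈ Finset.range (K - k), C (RC.ee (m : ℂ) k * RC.ee (-(m : ℂ)) x) *
        fw4_N A p ν η f d (a + ((k + x : ℕ) : ℤ)) (b - ((k + x : ℕ) : ℤ)) := by
    intro k hk
    rw [Finset.mem_range] at hk
    rw [fw4_wick A hA p ν η f d hf (a + k) (b - k) (K - k) (by omega), Finset.smul_sum]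
    refine Finset.sum_congr rfl fun x _ => ?_
    have h2 : a + k + (x : ℤ) = a + ((k + x : ℕ) : ℤ) := by push_cast; ring
    have h3 : b - k - (x : ℤ) = b - ((k + x : ℕ) : ℤ) := by push_cast; ring
    rw [h2, h3, h, ee_nat, smul_eq_C_mul, C_mul (a := (-1 : ℂ) ^ k * (m.choose k : ℂ)), mul_assoc]
  rw [Finset.sum_congr rfl h1]
  have h5 : Finset.range (m + 1) ⊆ Finset.range K := by
    intro x hx
    rw [Finset.mem_range] at hx ⊢
    omega
  rw [Finset.sum_subset h5]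
  · rw [← Finset.sum_range_diag_flip K fun k x => C (RC.ee (m : ℂ) k * RC.ee (-(m : ℂ)) x) *
        fw4_N A p ν η f d (a + ((k + x : ℕ) : ℤ)) (b - ((k + x : ℕ) : ℤ))]
    have h6 : ∀ n ∈ Finset.range K, ∑ k ∈ Finset.range (n + 1),
        C (RC.ee (m : ℂ) k * RC.ee (-(m : ℂ)) (n - k)) *
        fw4_N A p ν η f d (a + ((k + (n - k) : ℕ) : ℤ)) (b - ((k + (n - k) : ℕ) : ℤ)) =
        C (RC.ee 0 n) * fw4_N A p ν η f d (a + n) (b - n) := by
      intro n _
      have h7 := wick_conv (m : ℂ) (-(m : ℂ)) n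
      rw [add_neg_cancel, Finset.Nat.sum_antidiagonal_eq_sum_range_succ_mk] at h7
      rw [← h7, map_sum, Finset.sum_mul]
      refine Finset.sum_congr rfl fun k hk => ?_
      have hk' := Nat.lt_succ_iff.1 (Finset.mem_range.1 hk)
      have h8 : k + (n - k) = n := by omega
      rw [h8]
    rw [Finset.sum_congr rfl h6, Finset.sum_eq_single 0]
    · simp [RC.ee]
    · intro n _ hn
      rw [fw4_ee_zero n hn, map_zero, zero_mul]
    · intro h9
      exact absurd (Finset.mem_range.2 (by omega)) h9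
  · intro k _ hk
    rw [Finset.mem_range, not_lt] at hk
    refine Finset.sum_eq_zero fun x _ => ?_
    rw [fw4_ee_nat_zero m k (by omega), zero_mul, map_zero, zero_mul]

theorem vop_comm_neg (A : Matrix ι ι ℤ) (hA : ∀ i j, A i j = A j i) (p : ℕ) (ν η : ι → ℂ)
    (m : ℕ) (h : form A p ν η = -(m : ℂ)) (a b : ℤ) :
    ∑ k ∈ Finset.range (m + 1), ((-1 : ℂ) ^ k * (m.choose k : ℂ)) •
        (vop A p ν (a + k) ∘ₗ vop A p η (b - k)) =
      ∑ k ∈ Finset.range (m + 1), ((-1 : ℂ) ^ k * (m.choose k : ℂ)) •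
        (vop A p η (b + k) ∘ₗ vop A p ν (a - k)) := by
  refine fw4_ext _ _ fun f d hf => ?_
  have h1 := fw4_neg A hA p ν η m h f d hf a b
  have h2 := fw4_neg A hA p η ν m (by rw [form_symm A hA, h]) f d hf b a
  rw [fw4_N_symm A p η ν, ← h1] at h2
  rw [LinearMap.sum_apply, LinearMap.sum_apply]
  exact h2.symm

end

end WPQ
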