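import Pool.Agent.WPQ.AF1
import Pool.Agent.WPQ.FW4

/-! [WPQ-FL1] Locality of the lattice fields `expS`, `gX`.

Plan.  Everything is checked on `Finsupp.single η f` (`Finsupp.lhom_ext`).  Pairing of the charges
`ξ.s + toC β` and `toC γ`: `form A p (ξ.s + toC β) (toC γ) = (ξ.dot γ + formZ A p β γ : ℤ)`
(`ξ.h`, linearity).  With `q` this integer, `a = -m-1-ξ.dot (γ+η)-⟨β,γ+η⟩`, `b = -n-1-⟨γ,η⟩`:
`vop (ξ.s+β) a ∘ vop γ b` is exchanged by `vop_comm_nonneg` (`q ≥ 0`); signs: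
`ε(γ,η) ε(β,γ+η) (-1)^(ξ·(γ+η))` versus `ε(β,η) (-1)^(ξ·η) ε(γ,β+η)`, quotient
`ε(β,γ) ε(γ,β) (-1)^(ξ·γ) = (-1)^q` (`Cocycle.comm`).  `q = -N < 0`: `vop_comm_neg` gives `LocP N`
(the index `k` shifts `m` down and `n` up, i.e. `a` up and `b` down; all signs are the same for all
`k`).  `expS`–`expS` on `V_σ` is the same computation (with `σ`-shifts of the indices). -/

namespace WPQ

open MvPolynomial AF

noncomputable section

variable {ι : Type} [Fintype ι] [DecidableEq ι] {A : Matrix ι ι ℤ} {p : ℕ}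

/-- the general operator -/
def fl1_G (A : Matrix ι ι ℤ) (p : ℕ) (c : (ι → ℤ) → ℂ) (ν : ι → ℂ) (e : (ι → ℤ) → ℤ) (γ : ι → ℤ) (n : ℤ) :
    VL ι →ₗ[ℂ] VL ι :=
  Finsupp.lsum ℂ fun η : ι → ℤ =>
    Finsupp.lsingle (γ + η) ∘ₗ (c η • vop A p ν (-n - 1 - e η))

theorem fl1_G_single (c : (ι → ℤ) → ℂ) (ν : ι → ℂ) (e : (ι → ℤ) → ℤ) (γ : ι → ℤ) (n : ℤ) (η : ι → ℤ) (f : Fock ι) :
    fl1_G A p c ν e γ n (Finsupp.single η f) =
      Finsupp.single (γ + η) (c η • vop A p ν (-n - 1 - e η) f) := by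
  unfold fl1_G
  rw [Finsupp.lsum_single, LinearMap.comp_apply, LinearMap.smul_apply, Finsupp.lsingle_apply]

theorem fl1_expS (ε : Cocycle A p) (σ : Shift A p) (γ : ι → ℤ) :
    expS ε σ γ = fl1_G A p (fun η => ((ε.ε γ η : ℤ) : ℂ)) (toC γ) (fun η => σ.dot γ + formZ A p γ η) γ := by
  funext n
  refine Finsupp.lhom_ext fun η f => ?_
  rw [fl1_G_single]
  unfold expS
  rw [Finsupp.lsum_single, LinearMap.comp_apply, LinearMap.smul_apply, Finsupp.lsingle_apply, sub_sub (-n - 1)]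

theorem fl1_gX (ε : Cocycle A p) (ξ : Shift A p) (γ : ι → ℤ) :
    gX ε ξ γ = fl1_G A p (fun η => ((ε.ε γ η : ℤ) : ℂ) * (((Int.negOnePow (ξ.dot η)) : ℤ) : ℂ)) (ξ.s + toC γ)
      (fun η => ξ.dot η + formZ A p γ η) γ := by
  funext n
  refine Finsupp.lhom_ext fun η f => ?_
  rw [fl1_G_single]
  unfold gX
  rw [Finsupp.lsum_single, LinearMap.comp_apply, LinearMap.smul_apply, Finsupp.lsingle_apply, sub_sub (-n - 1)]

theorem fl1_comp (c c' : (ι → ℤ) → ℂ) (ν ν' : ι → ℂ) (e e' : (ι → ℤ) → ℤ) (γ γ' : ι → ℤ) (m n : ℤ)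
    (η : ι → ℤ) (f : Fock ι) :
    (fl1_G A p c ν e γ m ∘ₗ fl1_G A p c' ν' e' γ' n) (Finsupp.single η f) =
      Finsupp.single (γ + (γ' + η)) ((c (γ' + η) * c' η) •
        (vop A p ν (-m - 1 - e (γ' + η)) ∘ₗ vop A p ν' (-n - 1 - e' η)) f) := by
  rw [LinearMap.comp_apply, fl1_G_single, fl1_G_single, map_smul, smul_smul, LinearMap.comp_apply]

/-- exchange, nonnegative pairing -/
theorem fl1_comm (hA : ∀ i j, A i j = A j i) {ca cb cb' : (ι → ℤ) → ℂ} {νa νb : ι → ℂ}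
    {ea eb eb' : (ι → ℤ) → ℤ} {γa γb : ι → ℤ} (q : ℕ) (h1 : form A p νa νb = (q : ℂ))
    (h2 : ∀ η, ea (γb + η) = ea η + q) (h3 : ∀ η, eb' (γa + η) = eb η + q)
    (h4 : ∀ η, ca (γb + η) * cb η = (-1) ^ q * (cb' (γa + η) * ca η)) (m n : ℤ) :
    fl1_G A p ca νa ea γa m ∘ₗ fl1_G A p cb νb eb γb n =
      fl1_G A p cb' νb eb' γb n ∘ₗ fl1_G A p ca νa ea γa m := by
  refine Finsupp.lhom_ext fun η f => ?_
  rw [fl1_comp, fl1_comp, h4, h2, h3, vop_comm_nonneg A hA p νa νb q h1, add_left_comm γa γb η,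
    LinearMap.smul_apply, smul_smul]
  have e1 : -m - 1 - (ea η + (q : ℤ)) + (q : ℤ) = -m - 1 - ea η := by ring
  have e2 : -n - 1 - eb η - (q : ℤ) = -n - 1 - (eb η + (q : ℤ)) := by ring
  rw [e1, e2]
  congr 2
  have e3 : ((-1 : ℂ) ^ q) * (-1) ^ q = 1 := by
    rw [← mul_pow]
    norm_num
  calc (-1 : ℂ) ^ q * (cb' (γa + η) * ca η) * (-1) ^ q =
      ((-1) ^ q * (-1) ^ q) * (cb' (γa + η) * ca η) := by ring
    _ = _ := by rw [e3, one_mul]

/-- locality, negative pairing -/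
theorem fl1_loc (hA : ∀ i j, A i j = A j i) {ca cb cb' : (ι → ℤ) → ℂ} {νa νb : ι → ℂ}
    {ea eb eb' : (ι → ℤ) → ℤ} {γa γb : ι → ℤ} (N : ℕ) (h1 : form A p νa νb = -(N : ℂ))
    (h2 : ∀ η, ea (γb + η) = ea η - N) (h3 : ∀ η, eb' (γa + η) = eb η - N)
    (h4 : ∀ η, ca (γb + η) * cb η = (-1) ^ N * (cb' (γa + η) * ca η)) :
    LocP N (fl1_G A p ca νa ea γa) (fl1_G A p cb νb eb γb) (fl1_G A p cb' νb eb' γb) := by
  intro m n
  refine Finsupp.lhom_ext fun η f => ?_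
  rw [LinearMap.zero_apply, LinearMap.sum_apply]
  obtain ⟨A0, hA0⟩ : ∃ A0 : ℤ, A0 = -m - 1 - ea η := ⟨_, rfl⟩
  obtain ⟨B0, hB0⟩ : ∃ B0 : ℤ, B0 = -n - 1 - eb η := ⟨_, rfl⟩
  have hw := vop_comm_neg A hA p νa νb N h1 A0 B0
  have hterm : ∀ k ∈ Finset.range (N + 1), (((-1 : ℂ) ^ k * (N.choose k : ℂ)) •
      (fl1_G A p ca νa ea γa (m + N - k) ∘ₗ fl1_G A p cb νb eb γb (n + k) -
        fl1_G A p cb' νb eb' γb (n + k) ∘ₗ fl1_G A p ca νa ea γa (m + N - k))) (Finsupp.single η f) =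
      Finsupp.single (γa + (γb + η)) ((ca (γb + η) * cb η) •
        ((((-1 : ℂ) ^ k * (N.choose k : ℂ)) • (vop A p νa (A0 + k) ∘ₗ vop A p νb (B0 - k))) f -
        (((-1 : ℂ) ^ (N - k) * (N.choose (N - k) : ℂ)) •
          (vop A p νb (B0 + ((N - k : ℕ) : ℤ)) ∘ₗ vop A p νa (A0 - ((N - k : ℕ) : ℤ)))) f)) := by
    intro k hk
    have hk' : k ≤ N := Nat.lt_succ_iff.1 (Finset.mem_range.1 hk)
    rw [LinearMap.smul_apply, LinearMap.sub_apply, fl1_comp, fl1_comp, h2, h3, ← add_left_comm γa γb η]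
    have e1 : -(m + (N : ℤ) - (k : ℤ)) - 1 - (ea η - (N : ℤ)) = A0 + k := by rw [hA0]; ring
    have e2 : -(n + (k : ℤ)) - 1 - eb η = B0 - k := by rw [hB0]; ring
    have e3 : -(n + (k : ℤ)) - 1 - (eb η - (N : ℤ)) = B0 + ((N - k : ℕ) : ℤ) := by
      rw [hB0, Nat.cast_sub hk']; ring
    have e4 : -(m + (N : ℤ) - (k : ℤ)) - 1 - ea η = A0 - ((N - k : ℕ) : ℤ) := by
      rw [hA0, Nat.cast_sub hk']; ring
    rw [e1, e2, e3, e4, ← Finsupp.single_sub, Finsupp.smul_single, Nat.choose_symm hk', LinearMap.smul_apply,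
      LinearMap.smul_apply, smul_sub, smul_sub, smul_smul, smul_smul, smul_smul, smul_smul]
    congr 3
    · ring
    · have e5 : ((-1 : ℂ) ^ k) = (-1) ^ N * (-1) ^ (N - k) := by
        have e6 : (-1 : ℂ) ^ N = (-1) ^ (N - k) * (-1) ^ k := by rw [← pow_add, Nat.sub_add_cancel hk']
        rw [e6]
        have e7 : ((-1 : ℂ) ^ (N - k)) * (-1) ^ (N - k) = 1 := by
          rw [← mul_pow]
          norm_num
        calc ((-1 : ℂ) ^ k) = ((-1) ^ (N - k) * (-1) ^ (N - k)) * (-1) ^ k := by rw [e7, one_mul]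
          _ = _ := by ring
      rw [h4, e5]
      have e8 : ((-1 : ℂ) ^ N) * (-1) ^ N = 1 := by
        rw [← mul_pow]
        norm_num
      ring
  rw [Finset.sum_congr rfl hterm, ← Finsupp.single_finsetSum, ← Finset.smul_sum, Finset.sum_sub_distrib]
  have hr : ∑ k ∈ Finset.range (N + 1), (((-1 : ℂ) ^ (N - k) * (N.choose (N - k) : ℂ)) •
          (vop A p νb (B0 + ((N - k : ℕ) : ℤ)) ∘ₗ vop A p νa (A0 - ((N - k : ℕ) : ℤ)))) f =
      ∑ k ∈ Finset.range (N + 1), (((-1 : ℂ) ^ k * (N.choose k : ℂ)) •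
          (vop A p νb (B0 + (k : ℤ)) ∘ₗ vop A p νa (A0 - (k : ℤ)))) f := by
    have := Finset.sum_range_reflect (fun k : ℕ => (((-1 : ℂ) ^ k * (N.choose k : ℂ)) •
          (vop A p νb (B0 + (k : ℤ)) ∘ₗ vop A p νa (A0 - (k : ℤ)))) f) (N + 1)
    rw [← this]
    refine Finset.sum_congr rfl fun k _ => ?_
    rw [Nat.add_sub_cancel]
  have hw' := LinearMap.congr_fun hw f
  rw [LinearMap.sum_apply, LinearMap.sum_apply] at hw'
  rw [hr, hw', sub_self, smul_zero, Finsupp.single_zero]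

theorem fl1_fld (c : (ι → ℤ) → ℂ) (ν : ι → ℂ) (e : (ι → ℤ) → ℤ) (γ : ι → ℤ) : IsFld (fl1_G A p c ν e γ) := by
  intro v
  induction v using Finsupp.induction_linear with
  | zero => exact ⟨0, fun n _ => map_zero _⟩
  | add v w hv hw =>
    obtain ⟨N1, h1⟩ := hv
    obtain ⟨N2, h2⟩ := hw
    refine ⟨max N1 N2, fun n hn => ?_⟩
    rw [map_add, h1 n (le_trans (le_max_left _ _) hn), h2 n (le_trans (le_max_right _ _) hn), add_zero]
  | single η f =>
    obtain ⟨N, hN⟩ := vop_trunc A p ν f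
    refine ⟨-N - e η, fun n hn => ?_⟩
    rw [fl1_G_single, hN _ (by omega), smul_zero, Finsupp.single_zero]

theorem Cocycle.zero_left (ε : Cocycle A p) (η : ι → ℤ) : ε.ε 0 η = 1 := by
  have h := ε.add_left 0 0 η
  rw [add_zero] at h
  exact (mul_eq_left.1 h.symm)

theorem Cocycle.zero_right (ε : Cocycle A p) (η : ι → ℤ) : ε.ε η 0 = 1 := by
  have h := ε.add_right η 0 0
  rw [add_zero] at h
  exact (mul_eq_left.1 h.symm)

/-- exchange of the arguments of the cocycle -/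
theorem fl1_swap (ε : Cocycle A p) (β γ : ι → ℤ) :
    ε.ε β γ = Int.negOnePow (formZ A p β γ) * ε.ε γ β := by
  rw [← ε.comm β γ, mul_assoc]
  have h : ε.ε γ β * ε.ε γ β = 1 := Int.units_mul_self _
  rw [h, mul_one]

theorem fl1_dot_add (ξ : Shift A p) (β γ : ι → ℤ) : ξ.dot (β + γ) = ξ.dot β + ξ.dot γ := by
  unfold Shift.dot
  rw [← Finset.sum_add_distrib]
  refine Finset.sum_congr rfl fun i _ => ?_
  rw [Pi.add_apply]
  ring

theorem fl1_dot_zero (γ : ι → ℤ) : (Shift.zero A p).dot γ = 0 := by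
  unfold Shift.dot Shift.zero
  simp

theorem fl1_formZ_add (β γ η : ι → ℤ) : formZ A p β (γ + η) = formZ A p β γ + formZ A p β η := by
  unfold formZ
  rw [← mul_add, ← Finset.sum_add_distrib]
  congr 1
  refine Finset.sum_congr rfl fun i _ => ?_
  rw [← Finset.sum_add_distrib]
  refine Finset.sum_congr rfl fun j _ => ?_
  rw [Pi.add_apply]
  ring

theorem fl1_formZ_symm (hA : ∀ i j, A i j = A j i) (β γ : ι → ℤ) :
    formZ A p β γ = formZ A p γ β := by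
  unfold formZ
  rw [Finset.sum_comm]
  congr 1
  refine Finset.sum_congr rfl fun i _ => Finset.sum_congr rfl fun j _ => ?_
  rw [hA j i]
  ring

/-- the sign rule -/
theorem fl1_sign (ε : Cocycle A p) (u : ℤˣ) (β γ η : ι → ℤ) (x : ℤˣ)
    (hx : x * ε.ε γ β = ε.ε β γ * u) :
    ((ε.ε β (γ + η) : ℤ) : ℂ) * ((u : ℤ) : ℂ) * ((ε.ε γ η : ℤ) : ℂ) =
      ((x : ℤ) : ℂ) * (((ε.ε γ (β + η) : ℤ) : ℂ) * ((ε.ε β η : ℤ) : ℂ)) := by
  have h : ε.ε β (γ + η) * u * ε.ε γ η = x * (ε.ε γ (β + η) * ε.ε β η) := by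
    rw [ε.add_right, ε.add_right]
    calc ε.ε β γ * ε.ε β η * u * ε.ε γ η = (ε.ε β γ * u) * (ε.ε β η * ε.ε γ η) := by
          ac_rfl
      _ = (x * ε.ε γ β) * (ε.ε β η * ε.ε γ η) := by rw [hx]
      _ = _ := by ac_rfl
  have h2 := congrArg (fun z : ℤˣ => ((z : ℤ) : ℂ)) h
  simp only [Units.val_mul, Int.cast_mul] at h2
  exact h2

theorem fl1_neg (q : ℕ) : (((Int.negOnePow (q : ℤ)) : ℤ) : ℂ) = (-1) ^ q :=
  Int.cast_negOnePow_natCast ℂ q

theorem expS_single (ε : Cocycle A p) (σ : Shift A p) (γ η : ι → ℤ) (n : ℤ) (f : Fock ι) :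
    expS ε σ γ n (Finsupp.single η f) = Finsupp.single (γ + η)
      (((ε.ε γ η : ℤ) : ℂ) • vop A p (toC γ) (-n - 1 - σ.dot γ - formZ A p γ η) f) := by
  unfold expS
  rw [Finsupp.lsum_single, LinearMap.comp_apply, LinearMap.smul_apply, Finsupp.lsingle_apply]

theorem gX_single (ε : Cocycle A p) (ξ : Shift A p) (γ η : ι → ℤ) (n : ℤ) (f : Fock ι) :
    gX ε ξ γ n (Finsupp.single η f) = Finsupp.single (γ + η)
      ((((ε.ε γ η : ℤ) : ℂ) * (((Int.negOnePow (ξ.dot η)) : ℤ) : ℂ)) •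
        vop A p (ξ.s + toC γ) (-n - 1 - ξ.dot η - formZ A p γ η) f) := by
  unfold gX
  rw [Finsupp.lsum_single, LinearMap.comp_apply, LinearMap.smul_apply, Finsupp.lsingle_apply]

theorem expS_zero (ε : Cocycle A p) (γ : ι → ℤ) (n : ℤ) :
    expS ε (Shift.zero A p) γ n = expMode ε γ n := by
  unfold expS expMode
  simp only [fl1_dot_zero, sub_zero]

theorem gX_zero (ε : Cocycle A p) (γ : ι → ℤ) (n : ℤ) :
    gX ε (Shift.zero A p) γ n = expS ε (Shift.zero A p) γ n := by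
  have h : (Shift.zero A p).s = 0 := rfl
  unfold expS gX
  simp only [fl1_dot_zero, sub_zero, Int.negOnePow_zero, Units.val_one, Int.cast_one, mul_one, h, zero_add]

theorem form_shift (hA : ∀ i j, A i j = A j i) (ξ : Shift A p) (β γ : ι → ℤ) :
    form A p (ξ.s + toC β) (toC γ) = ((ξ.dot γ + formZ A p β γ : ℤ) : ℂ) := by
  have h1 : form A p (ξ.s + toC β) (toC γ) = form A p (toC γ) ξ.s + form A p (toC β) (toC γ) := by
    rw [form_symm A hA p (toC γ) ξ.s]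
    unfold form
    rw [← mul_add, ← Finset.sum_add_distrib]
    congr 1
    refine Finset.sum_congr rfl fun i _ => ?_
    rw [← Finset.sum_add_distrib]
    refine Finset.sum_congr rfl fun j _ => ?_
    rw [Pi.add_apply]
    ring
  have h2 : form A p (toC γ) ξ.s = ((ξ.dot γ : ℤ) : ℂ) := by
    unfold Shift.dot
    rw [Int.cast_sum]
    have h3 : ∀ i, form A p (bb i) ξ.s = p * ∑ j, (A i j : ℂ) * ξ.s j := by
      intro i
      unfold form bb
      congr 1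
      rw [Finset.sum_eq_single i]
      · simp
      · intro k _ hk
        simp [Pi.single_eq_of_ne hk]
      · intro h
        exact absurd (Finset.mem_univ i) h
    unfold form
    rw [Finset.mul_sum]
    refine Finset.sum_congr rfl fun i _ => ?_
    rw [Int.cast_mul, ← ξ.h i, h3 i, Finset.mul_sum, Finset.mul_sum, Finset.mul_sum]
    refine Finset.sum_congr rfl fun j _ => ?_
    unfold toC
    ring
  have h4 : form A p (toC β) (toC γ) = ((formZ A p β γ : ℤ) : ℂ) := by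
    unfold form formZ toC
    push_cast
    rfl
  rw [h1, h2, h4]
  push_cast
  rfl

theorem formZ_symm (hA : ∀ i j, A i j = A j i) (β γ : ι → ℤ) :
    formZ A p β γ = formZ A p γ β := fl1_formZ_symm hA β γ

theorem fl1_form0 (hA : ∀ i j, A i j = A j i) (β γ : ι → ℤ) :
    form A p (toC β) (toC γ) = ((formZ A p β γ : ℤ) : ℂ) := by
  have h := form_shift hA (Shift.zero A p) β γ
  have h0 : (Shift.zero A p).s = 0 := rfl
  rw [h0, zero_add, fl1_dot_zero, zero_add] at h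
  exact h

theorem expS_comm (hA : ∀ i j, A i j = A j i) (ε : Cocycle A p) (σ : Shift A p) (γ β : ι → ℤ)
    (h : 0 ≤ formZ A p γ β) (m n : ℤ) :
    expS ε σ γ m ∘ₗ expS ε σ β n = expS ε σ β n ∘ₗ expS ε σ γ m := by
  obtain ⟨q, hq⟩ := Int.eq_ofNat_of_zero_le h
  rw [fl1_expS, fl1_expS]
  refine fl1_comm hA q ?_ ?_ ?_ ?_ m n
  · rw [fl1_form0 hA, hq]
    simp
  · intro η
    rw [fl1_formZ_add, hq]
    ring
  · intro η
    rw [fl1_formZ_add, fl1_formZ_symm hA β γ, hq]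
    ring
  · intro η
    have h1 := fl1_sign ε 1 γ β η (Int.negOnePow q) (by
      rw [mul_one, fl1_swap ε γ β, hq])
    rw [Units.val_one, Int.cast_one, mul_one, fl1_neg] at h1
    exact h1

theorem expS_local (hA : ∀ i j, A i j = A j i) (ε : Cocycle A p) (σ : Shift A p)
    (γ β : ι → ℤ) : ∃ N : ℕ, Loc N (expS ε σ γ) (expS ε σ β) := by
  by_cases h : 0 ≤ formZ A p γ β
  · exact ⟨0, LocP.of_comm fun m n => expS_comm hA ε σ γ β h m n⟩
  · obtain ⟨N, hN⟩ := Int.eq_ofNat_of_zero_le (show 0 ≤ -formZ A p γ β by omega)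
    have hN' : formZ A p γ β = -(N : ℤ) := by omega
    refine ⟨N, ?_⟩
    rw [fl1_expS, fl1_expS]
    refine fl1_loc hA N ?_ ?_ ?_ ?_
    · rw [fl1_form0 hA, hN']
      simp
    · intro η
      rw [fl1_formZ_add, hN']
      ring
    · intro η
      rw [fl1_formZ_add, fl1_formZ_symm hA β γ, hN']
      ring
    · intro η
      have h1 := fl1_sign ε 1 γ β η (Int.negOnePow N) (by
        rw [mul_one, fl1_swap ε γ β, hN', Int.negOnePow_neg])
      rw [Units.val_one, Int.cast_one, mul_one, fl1_neg] at h1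
      exact h1

theorem gX_comm (hA : ∀ i j, A i j = A j i) (ε : Cocycle A p) (ξ : Shift A p) (β γ : ι → ℤ)
    (h : 0 ≤ ξ.dot γ + formZ A p β γ) (m n : ℤ) :
    gX ε ξ β m ∘ₗ expS ε (Shift.zero A p) γ n = expS ε ξ γ n ∘ₗ gX ε ξ β m := by
  obtain ⟨q, hq⟩ := Int.eq_ofNat_of_zero_le h
  rw [fl1_expS, fl1_expS, fl1_gX]
  refine fl1_comm hA q ?_ ?_ ?_ ?_ m n
  · rw [form_shift hA, hq]
    simp
  · intro η
    rw [fl1_formZ_add, fl1_dot_add]
    have : (q : ℤ) = ξ.dot γ + formZ A p β γ := hq.symm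
    rw [this]
    ring
  · intro η
    rw [fl1_formZ_add, fl1_formZ_symm hA γ β, fl1_dot_zero]
    have : (q : ℤ) = ξ.dot γ + formZ A p β γ := hq.symm
    rw [this]
    ring
  · intro η
    have h1 := fl1_sign ε (Int.negOnePow (ξ.dot γ)) β γ η (Int.negOnePow q) (by
      have : (q : ℤ) = ξ.dot γ + formZ A p β γ := hq.symm
      rw [this, Int.negOnePow_add, fl1_swap ε β γ]
      ac_rfl)
    rw [fl1_neg] at h1
    rw [fl1_dot_add, Int.negOnePow_add, Units.val_mul, Int.cast_mul]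
    calc _ = (((ε.ε β (γ + η) : ℤ) : ℂ) * (((Int.negOnePow (ξ.dot γ)) : ℤ) : ℂ) * ((ε.ε γ η : ℤ) : ℂ)) *
          (((Int.negOnePow (ξ.dot η)) : ℤ) : ℂ) := by ring
      _ = _ := by rw [h1]; ring

theorem gX_local (hA : ∀ i j, A i j = A j i) (ε : Cocycle A p) (ξ : Shift A p)
    (β γ : ι → ℤ) : ∃ N : ℕ, LocP N (gX ε ξ β) (expS ε (Shift.zero A p) γ) (expS ε ξ γ) := by
  by_cases h : 0 ≤ ξ.dot γ + formZ A p β γ
  · exact ⟨0, LocP.of_comm fun m n => gX_comm hA ε ξ β γ h m n⟩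
  · obtain ⟨N, hN⟩ := Int.eq_ofNat_of_zero_le (show 0 ≤ -(ξ.dot γ + formZ A p β γ) by omega)
    have hN' : ξ.dot γ + formZ A p β γ = -(N : ℤ) := by omega
    refine ⟨N, ?_⟩
    rw [fl1_expS, fl1_expS, fl1_gX]
    refine fl1_loc hA N ?_ ?_ ?_ ?_
    · rw [form_shift hA, hN']
      simp
    · intro η
      rw [fl1_formZ_add, fl1_dot_add]
      have : (N : ℤ) = -(ξ.dot γ + formZ A p β γ) := by omega
      rw [this]
      ring
    · intro η
      rw [fl1_formZ_add, fl1_formZ_symm hA γ β, fl1_dot_zero]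
      have : (N : ℤ) = -(ξ.dot γ + formZ A p β γ) := by omega
      rw [this]
      ring
    · intro η
      have h1 := fl1_sign ε (Int.negOnePow (ξ.dot γ)) β γ η (Int.negOnePow N) (by
        have : (N : ℤ) = -(ξ.dot γ + formZ A p β γ) := by omega
        rw [this, Int.negOnePow_neg, Int.negOnePow_add, fl1_swap ε β γ]
        ac_rfl)
      rw [fl1_neg] at h1
      rw [fl1_dot_add, Int.negOnePow_add, Units.val_mul, Int.cast_mul]
      calc _ = (((ε.ε β (γ + η) : ℤ) : ℂ) * (((Int.negOnePow (ξ.dot γ)) : ℤ) : ℂ) * ((ε.ε γ η : ℤ) : ℂ)) *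
            (((Int.negOnePow (ξ.dot η)) : ℤ) : ℂ) := by ring
        _ = _ := by rw [h1]; ring

theorem isFld_expS (ε : Cocycle A p) (σ : Shift A p) (γ : ι → ℤ) : IsFld (expS ε σ γ) := by
  rw [fl1_expS]
  exact fl1_fld _ _ _ _

theorem isFld_gX (ε : Cocycle A p) (ξ : Shift A p) (γ : ι → ℤ) : IsFld (gX ε ξ γ) := by
  rw [fl1_gX]
  exact fl1_fld _ _ _ _

end

end WPQ
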