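import Pool.Agent.WPQ.FW3
import Pool.Agent.WPQ.FW8
import Pool.Agent.WPQ.FL1

/-! [WPQ-RR1] Words of `e^{-λ}` modes reach constants.

Plan.  `exists_lam`: `lam i = A.adjugate` column `i`, `D = det A > 0` (positive definite integer matrix;
e.g. `Matrix.PosDef.det_pos` for the real matrix, or `D ≠ 0` and replace `lam` by `± lam`; positivity of
`D` can also be obtained from `(lam i, lam i) = D * lam i i > 0` and ... choose the sign so that the
pairing `pr A i (lam i)` is positive).
`density_step`: suppose `Sop (-λ) q f = 0` for all dominant `λ` and all `q ≥ 1`.  Apply this to `t λ_i`,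
`t ∈ ℕ`: `Sop (-(t λ_i)) q f` is a polynomial in `t` whose linear coefficient is
`(1/q) ∑_j ⟨b_j, λ_i⟩ ∂_(j,q-1) f = (p D / q) ∂_(i,q-1) f` (the algebra homomorphism
`X (j,k) ↦ X (j,k) + t ⟨b_j,λ_i⟩/(k+1) u^(k+1)`, linear part in `t` is a derivation; or use
`q S_q = ∑ ...` recursion with `Sop_add`).  A polynomial vanishing at all naturals is `0`, so all
`∂ f = 0` and `f` is constant, contradiction with degree `d > 0`, `f ≠ 0`.  Then take `q` maximal
(`Sop_eq_zero` for `q > d`).
`reach_const`: induction on `d`: with `λ`, `q` of `density_step`, `vop (-λ) (-q) f = Sop (-λ) q f`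
(`vop_eq`: all other terms vanish), of degree `d - q`; the mode index is
`n = q - 1 - formZ (-λ) γ`.  At the end `f` is a nonzero constant. -/

namespace WPQ

open MvPolynomial AF

noncomputable section

variable {ι : Type} [Fintype ι] [DecidableEq ι] {A : Matrix ι ι ℤ} {p : ℕ}

theorem exists_lam (hA : IsADE A) : ∃ (D : ℤ) (lam : ι → ι → ℤ), 0 < D ∧
    ∀ i j, pr A j (lam i) = if i = j then D else 0 := by
  have h1 : A.det ≠ 0 := by
    intro h
    have h2 := det_ne_zero A hA
    have h3 : (A.map (Int.cast : ℤ → ℂ)).det = ((A.det : ℤ) : ℂ) :=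
      (RingHom.map_det (Int.castRingHom ℂ) A).symm
    rw [h3, h, Int.cast_zero] at h2
    exact not_isUnit_zero h2
  have h2 : ∀ i j, pr A j (fun l => A.adjugate l i) = if i = j then A.det else 0 := by
    intro i j
    have h3 := congrFun (congrFun (Matrix.mul_adjugate A) j) i
    rw [Matrix.mul_apply, Matrix.smul_apply, Matrix.one_apply, smul_eq_mul] at h3
    unfold pr
    rw [h3]
    by_cases h4 : i = j
    · rw [if_pos h4, if_pos h4.symm, mul_one]
    · rw [if_neg h4, if_neg fun h => h4 h.symm, mul_zero]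
  rcases lt_or_gt_of_ne h1 with h3 | h3
  · refine ⟨-A.det, fun i l => -A.adjugate l i, by omega, fun i j => ?_⟩
    have h4 : pr A j (fun l => -A.adjugate l i) = -pr A j (fun l => A.adjugate l i) := by
      unfold pr
      rw [← Finset.sum_neg_distrib]
      exact Finset.sum_congr rfl fun l _ => by ring
    rw [h4, h2]
    split_ifs
    · rfl
    · exact neg_zero
  · exact ⟨A.det, fun i l => A.adjugate l i, h3, h2⟩

theorem rr1_C_mul (L : Fock ι →ₗ[ℂ] Fock ι) (a : ℂ) (g : Fock ι) : L (C a * g) = C a * L g := by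
  rw [← smul_eq_C_mul, map_smul, smul_eq_C_mul]

theorem rr1_Sop_C (A : Matrix ι ι ℤ) (p : ℕ) (ν : ι → ℂ) (q : ℕ) (a : ℂ) :
    Sop A p ν q (C a) = if q = 0 then C a else 0 := by
  have h1 : (C a : Fock ι) = C a * 1 := (mul_one _).symm
  rw [h1, rr1_C_mul, Sop_one]
  split_ifs
  · rfl
  · rw [mul_zero]

/-- the product with a variable -/
theorem rr1_mul_X (A : Matrix ι ι ℤ) (p : ℕ) (ν : ι → ℂ) (q : ℕ) (f : Fock ι) (i : ι) (k : ℕ) :
    Sop A p ν q (X (i, k) * f) = X (i, k) * Sop A p ν q f +
      (if k + 1 ≤ q then C (-(form A p (bb i) ν) / (k + 1)) * Sop A p ν (q - (k + 1)) f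
        else 0) := by
  rw [Sop_mul, Finset.Nat.sum_antidiagonal_eq_sum_range_succ_mk]
  have h1 : ∀ a ∈ Finset.range q.succ, Sop A p ν (a, q - a).1 (X (i, k)) * Sop A p ν (a, q - a).2 f =
      (if a = 0 then X (i, k) * Sop A p ν (q - a) f else 0) +
      (if a = k + 1 then C (-(form A p (bb i) ν) / (k + 1)) * Sop A p ν (q - a) f else 0) := by
    intro a _
    show Sop A p ν a (X (i, k)) * Sop A p ν (q - a) f = _
    rw [Sop_X]
    by_cases h0 : a = 0
    · rw [if_pos h0, if_pos h0, if_neg (by omega), add_zero]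
    · rw [if_neg h0, if_neg h0, zero_add]
      by_cases h2 : a = k + 1
      · rw [if_pos h2, if_pos h2]
      · rw [if_neg h2, if_neg h2, zero_mul]
  rw [Finset.sum_congr rfl h1, Finset.sum_add_distrib, Finset.sum_ite_eq' (Finset.range q.succ) 0,
    Finset.sum_ite_eq' (Finset.range q.succ) (k + 1), if_pos (Finset.mem_range.2 (Nat.succ_pos q)),
    Nat.sub_zero]
  congr 1
  by_cases h : k + 1 ≤ q
  · rw [if_pos h, if_pos (Finset.mem_range.2 (Nat.lt_succ_of_le h))]
  · rw [if_neg h, if_neg fun h' => h (Nat.le_of_lt_succ (Finset.mem_range.1 h'))]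

/-- the annihilation operator as a derivation -/
def rr1_der (A : Matrix ι ι ℤ) (p : ℕ) (h : ι → ℂ) (k : ℕ) : Fock ι →ₗ[ℂ] Fock ι :=
  ∑ i, form A p (bb i) h • (pderiv (R := ℂ) (i, k)).toLinearMap

theorem rr1_der_apply (A : Matrix ι ι ℤ) (p : ℕ) (h : ι → ℂ) (k : ℕ) (f : Fock ι) :
    rr1_der A p h k f = ∑ i, C (form A p (bb i) h) * pderiv (i, k) f := by
  unfold rr1_der
  rw [LinearMap.sum_apply]
  refine Finset.sum_congr rfl fun i _ => ?_
  rw [LinearMap.smul_apply, smul_eq_C_mul]
  rfl

theorem rr1_der_mul (A : Matrix ι ι ℤ) (p : ℕ) (h : ι → ℂ) (k : ℕ) (f g : Fock ι) :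
    rr1_der A p h k (f * g) = rr1_der A p h k f * g + f * rr1_der A p h k g := by
  rw [rr1_der_apply, rr1_der_apply, rr1_der_apply, Finset.sum_mul, Finset.mul_sum,
    ← Finset.sum_add_distrib]
  refine Finset.sum_congr rfl fun i _ => ?_
  rw [pderiv_mul]
  ring

theorem rr1_der_C (A : Matrix ι ι ℤ) (p : ℕ) (h : ι → ℂ) (k : ℕ) (a : ℂ) :
    rr1_der A p h k (C a) = 0 := by
  rw [rr1_der_apply]
  refine Finset.sum_eq_zero fun i _ => ?_
  rw [pderiv_C, mul_zero]

theorem rr1_der_X (A : Matrix ι ι ℤ) (p : ℕ) (h : ι → ℂ) (k : ℕ) (i : ι) (j : ℕ) :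
    rr1_der A p h k (X (i, j)) = C (if j = k then form A p (bb i) h else 0) := by
  rw [rr1_der_apply]
  have h1 : ∀ l ∈ (Finset.univ : Finset ι), C (form A p (bb l) h) *
      pderiv (l, k) (X (i, j) : Fock ι) =
      if l = i then (C (if j = k then form A p (bb l) h else 0) : Fock ι) else 0 := by
    intro l _
    rw [pderiv_X]
    by_cases h2 : l = i
    · rw [if_pos h2]
      by_cases h3 : j = k
      · rw [if_pos h3, h2, h3, Pi.single_eq_same, mul_one]
      · rw [if_neg h3, Pi.single_eq_of_ne (fun h4 => h3 (by simpa using congrArg Prod.snd h4)),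
          mul_zero, C_0]
    · rw [if_neg h2, Pi.single_eq_of_ne (fun h4 => h2 (by
        simpa using (congrArg Prod.fst h4).symm)), mul_zero]
  rw [Finset.sum_congr rfl h1, Finset.sum_ite_eq' Finset.univ i, if_pos (Finset.mem_univ i)]

/-- `q S_q = - ∑_{k < q} S_{q-1-k} ν(k+1)` -/
theorem rr1_rec (A : Matrix ι ι ℤ) (p : ℕ) (ν : ι → ℂ) (f : Fock ι) (q : ℕ) :
    C (q : ℂ) * Sop A p ν q f +
      ∑ k ∈ Finset.range q, Sop A p ν (q - 1 - k) (rr1_der A p ν k f) = 0 := by
  induction f using MvPolynomial.induction_on generalizing q with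
  | C a =>
    rw [rr1_Sop_C, Finset.sum_eq_zero fun k _ => by rw [rr1_der_C, map_zero], add_zero]
    by_cases h : q = 0
    · rw [h, Nat.cast_zero, C_0, zero_mul]
    · rw [if_neg h, mul_zero]
  | add f g hf hg =>
    have h1 : ∀ k ∈ Finset.range q, Sop A p ν (q - 1 - k) (rr1_der A p ν k (f + g)) =
        Sop A p ν (q - 1 - k) (rr1_der A p ν k f) + Sop A p ν (q - 1 - k) (rr1_der A p ν k g) :=
      fun k _ => by rw [map_add, map_add]
    rw [Finset.sum_congr rfl h1, Finset.sum_add_distrib, map_add]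
    linear_combination hf q + hg q
  | mul_X f x hf =>
    obtain ⟨i, j⟩ := x
    have hj0 : ((j : ℂ) + 1) ≠ 0 := by exact_mod_cast Nat.succ_ne_zero j
    set c : ℂ := -(form A p (bb i) ν) / (j + 1) with hc
    have hcj : form A p (bb i) ν = -(c * (j + 1)) := by
      rw [hc]
      field_simp
    have h1 : ∀ k ∈ Finset.range q, Sop A p ν (q - 1 - k) (rr1_der A p ν k (f * X (i, j))) =
        X (i, j) * Sop A p ν (q - 1 - k) (rr1_der A p ν k f) +
        (if j + 1 ≤ q - 1 - k then C c * Sop A p ν (q - 1 - k - (j + 1)) (rr1_der A p ν k f)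
          else 0) +
        (if k = j then C (-(c * (j + 1))) * Sop A p ν (q - 1 - j) f else 0) := by
      intro k _
      rw [mul_comm f, rr1_der_mul, rr1_der_X, map_add, rr1_C_mul, rr1_mul_X, ← hc, add_comm]
      congr 1
      by_cases hk : k = j
      · rw [if_pos hk, if_pos hk.symm, hk, hcj]
      · rw [if_neg hk, if_neg fun h => hk h.symm, C_0, zero_mul]
    rw [Finset.sum_congr rfl h1, Finset.sum_add_distrib, Finset.sum_add_distrib,
      ← Finset.mul_sum, mul_comm f, rr1_mul_X, ← hc, Finset.sum_ite_eq' (Finset.range q) j]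
    by_cases hjq : j + 1 ≤ q
    · have h2 : ∑ k ∈ Finset.range q, (if j + 1 ≤ q - 1 - k then
          C c * Sop A p ν (q - 1 - k - (j + 1)) (rr1_der A p ν k f) else 0) =
          C c * ∑ k ∈ Finset.range (q - (j + 1)),
            Sop A p ν (q - (j + 1) - 1 - k) (rr1_der A p ν k f) := by
        rw [Finset.mul_sum]
        have h3 : Finset.range (q - (j + 1)) ⊆ Finset.range q :=
          Finset.range_subset_range.2 (by omega)
        rw [← Finset.sum_subset h3 (fun k hk1 hk2 => by
          rw [if_neg]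
          have h4 : ¬ k < q - (j + 1) := fun h => hk2 (Finset.mem_range.2 h)
          have h5 : k < q := Finset.mem_range.1 hk1
          omega)]
        refine Finset.sum_congr rfl fun k hk => ?_
        have hk' : k < q - (j + 1) := Finset.mem_range.1 hk
        rw [if_pos (by omega)]
        have h4 : q - 1 - k - (j + 1) = q - (j + 1) - 1 - k := by omega
        rw [h4]
      have h5 := hf q
      have h6 := hf (q - (j + 1))
      have h7 : q - 1 - j = q - (j + 1) := by omega
      have h8 : ((q - (j + 1) : ℕ) : ℂ) = (q : ℂ) - (j + 1) := by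
        rw [Nat.cast_sub hjq]
        push_cast
        ring
      rw [h2, if_pos hjq, if_pos (Finset.mem_range.2 (by omega)), h7]
      rw [h8, C_sub] at h6
      rw [C_neg, C_mul]
      linear_combination X (i, j) * h5 + C c * h6
    · have h2 : ∑ k ∈ Finset.range q, (if j + 1 ≤ q - 1 - k then
          C c * Sop A p ν (q - 1 - k - (j + 1)) (rr1_der A p ν k f) else 0) = 0 := by
        refine Finset.sum_eq_zero fun k _ => ?_
        rw [if_neg (by omega)]
      have h5 := hf q
      rw [h2, if_neg hjq, if_neg fun h => hjq (Finset.mem_range.1 h)]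
      linear_combination X (i, j) * h5

/-- all derivatives vanish only for constants -/
theorem rr1_euler (f : Fock ι) (d : ℕ) (hf : FH f d) (hd : 0 < d) (h0 : f ≠ 0) :
    ∃ x : ι × ℕ, pderiv x f ≠ 0 := by
  by_contra hno
  push Not at hno
  obtain ⟨m, hm⟩ : ∃ m, coeff m f ≠ 0 := by
    by_contra h
    push Not at h
    exact h0 (MvPolynomial.ext _ _ fun m => by rw [h m, coeff_zero])
  have hw : Finsupp.weight (wF (ι := ι)) m = d := hf hm
  have hm0 : m ≠ 0 := by
    rintro rfl
    rw [map_zero] at hw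
    omega
  obtain ⟨x, hx⟩ := Finsupp.support_nonempty_iff.2 hm0
  have h1 := hno x
  rw [f.as_sum, map_sum] at h1
  have h2 := congrArg (coeff (m - Finsupp.single x 1)) h1
  rw [coeff_sum, coeff_zero] at h2
  have h3 : ∀ l ∈ f.support, coeff (m - Finsupp.single x 1) (pderiv x (monomial l (coeff l f))) =
      if l = m then coeff m f * (m x : ℂ) else 0 := by
    intro l _
    rw [pderiv_monomial, coeff_monomial]
    by_cases hl : l = m
    · rw [hl, if_pos rfl, if_pos rfl]
    · rw [if_neg hl]
      by_cases hl2 : l - Finsupp.single x 1 = m - Finsupp.single x 1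
      · rw [if_pos hl2]
        by_cases hlx : l x = 0
        · rw [hlx, Nat.cast_zero, mul_zero]
        · exfalso
          apply hl
          ext y
          have h4 := DFunLike.congr_fun hl2 y
          rw [Finsupp.tsub_apply, Finsupp.tsub_apply] at h4
          by_cases hy : y = x
          · rw [hy] at h4 ⊢
            rw [Finsupp.single_eq_same] at h4
            have h5 : m x ≠ 0 := Finsupp.mem_support_iff.1 hx
            omega
          · rw [Finsupp.single_eq_of_ne hy] at h4
            omega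
      · rw [if_neg hl2]
  rw [Finset.sum_congr rfl h3, Finset.sum_ite_eq' f.support m,
    if_pos (mem_support_iff.2 hm)] at h2
  rcases mul_eq_zero.1 h2 with h4 | h4
  · exact hm h4
  · exact Finsupp.mem_support_iff.1 hx (by exact_mod_cast h4)

theorem density_step (hA : IsADE A) (hp : 1 ≤ p) (f : Fock ι) (d : ℕ) (hf : FH f d)
    (hd : 0 < d) (h0 : f ≠ 0) : ∃ (lam : ι → ℤ) (q : ℕ), Dom A lam ∧ 1 ≤ q ∧ q ≤ d ∧
      Sop A p (toC (-lam)) q f ≠ 0 ∧ vop A p (toC (-lam)) (-(q : ℤ)) f =
        Sop A p (toC (-lam)) q f := by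
  classical
  obtain ⟨D, lam, hD, hlam⟩ := exists_lam hA
  obtain ⟨⟨i, k⟩, hik⟩ := rr1_euler f d hf hd h0
  have hdom : Dom A (lam i) := by
    intro j
    rw [hlam]
    split_ifs
    · exact hD.le
    · exact le_rfl
  set ν : ι → ℂ := toC (-(lam i)) with hν
  have hform : ∀ j, form A p (bb j) ν = if i = j then -((p : ℂ) * D) else 0 := by
    intro j
    have h1 : form A p (bb j) ν = -((p : ℂ) * ((pr A j (lam i) : ℤ) : ℂ)) := by
      unfold form bb pr
      have h5 : ∑ l, ∑ m, (Pi.single j (1 : ℂ) : ι → ℂ) l * (A l m : ℂ) * ν m =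
          ∑ m, (A j m : ℂ) * ν m := by
        rw [Finset.sum_eq_single j]
        · refine Finset.sum_congr rfl fun m _ => ?_
          rw [Pi.single_eq_same, one_mul]
        · intro l _ hl
          refine Finset.sum_eq_zero fun m _ => ?_
          rw [Pi.single_eq_of_ne hl, zero_mul, zero_mul]
        · intro h6
          exact absurd (Finset.mem_univ j) h6
      rw [h5, ← mul_neg, Int.cast_sum, ← Finset.sum_neg_distrib]
      congr 1
      refine Finset.sum_congr rfl fun m _ => ?_
      rw [hν]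
      unfold toC
      rw [Pi.neg_apply]
      push_cast
      ring
    rw [h1, hlam]
    split_ifs
    · rfl
    · rw [Int.cast_zero, mul_zero, neg_zero]
  have hex : ∃ q, 1 ≤ q ∧ Sop A p ν q f ≠ 0 := by
    by_contra hno
    push Not at hno
    have h1 : ∀ k, rr1_der A p ν k f = 0 := by
      intro k
      induction k using Nat.strong_induction_on with
      | _ k ih =>
        have h2 := rr1_rec A p ν f (k + 1)
        rw [hno (k + 1) (by omega), mul_zero, zero_add, Finset.sum_range_succ,
          Finset.sum_eq_zero fun l hl => by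
            rw [ih l (Finset.mem_range.1 hl), map_zero]] at h2
        have h3 : k + 1 - 1 - k = 0 := by omega
        rw [zero_add, h3, Sop_zero] at h2
        exact h2
    have h2 := h1 k
    rw [rr1_der_apply, Finset.sum_eq_single i] at h2
    · rw [hform, if_pos rfl] at h2
      rcases mul_eq_zero.1 h2 with h3 | h3
      · rw [← C_0] at h3
        have h4 := C_injective _ _ h3
        rw [neg_eq_zero] at h4
        rcases mul_eq_zero.1 h4 with h5 | h5
        · have h6 : p = 0 := by exact_mod_cast h5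
          omega
        · have h6 : D = 0 := by exact_mod_cast h5
          omega
      · exact hik h3
    · intro j _ hj
      rw [hform, if_neg fun h => hj h.symm, C_0, zero_mul]
    · intro h
      exact absurd (Finset.mem_univ i) h
  obtain ⟨q0, hq0, hq0'⟩ := hex
  have hbd : ∀ q, Sop A p ν q f ≠ 0 → q ≤ d := by
    intro q hq
    by_contra h
    exact hq (Sop_eq_zero A p ν q d f hf (not_le.1 h))
  set q := Nat.findGreatest (fun q => 1 ≤ q ∧ Sop A p ν q f ≠ 0) d with hq
  have hspec : 1 ≤ q ∧ Sop A p ν q f ≠ 0 :=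
    Nat.findGreatest_spec (P := fun q => 1 ≤ q ∧ Sop A p ν q f ≠ 0) (hbd q0 hq0') ⟨hq0, hq0'⟩
  have hmax : ∀ r, q < r → Sop A p ν r f = 0 := by
    intro r hr
    by_contra h
    exact Nat.findGreatest_is_greatest (P := fun q => 1 ≤ q ∧ Sop A p ν q f ≠ 0) hr (hbd r h)
      ⟨by omega, h⟩
  refine ⟨lam i, q, hdom, hspec.1, hbd q hspec.2, hspec.2, ?_⟩
  rw [vop_eq A p ν (-(q : ℤ)) f q hmax, Finset.sum_range_succ, Finset.sum_eq_zero, zero_add]
  · have h1 : -(q : ℤ) + q = ((0 : ℕ) : ℤ) := by omega
    rw [h1, expCoeffZ_nat, expCoeff_zero, one_mul]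
  · intro r hr
    have hr' := Finset.mem_range.1 hr
    rw [expCoeffZ_neg ν _ (by omega), zero_mul]

theorem reach_const (hA : IsADE A) (hp : 1 ≤ p) (ε : Cocycle A p) (P : Submodule ℂ (VL ι))
    (hP : ∀ lam, Dom A lam → ∀ (n : ℤ) (v : VL ι), v ∈ P →
      expS ε (Shift.zero A p) (-lam) n v ∈ P)
    (γ : ι → ℤ) (f : Fock ι) (d : ℕ) (hf : FH f d) (h0 : f ≠ 0)
    (h : Finsupp.single γ f ∈ P) : ∃ γ' : ι → ℤ, Finsupp.single γ' 1 ∈ P := by
  induction d using Nat.strong_induction_on generalizing γ f with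
  | _ d ih =>
    rcases Nat.eq_zero_or_pos d with hd | hd
    · have h1 : ∀ m ∈ f.support, m = 0 := by
        intro m hm
        have h2 : Finsupp.weight (wF (ι := ι)) m = d := hf (mem_support_iff.1 hm)
        rw [hd] at h2
        ext x
        have h3 : m x ≤ Finsupp.weight (wF (ι := ι)) m :=
          Finsupp.le_weight (wF (ι := ι)) (by unfold wF; omega) m
        rw [h2] at h3
        rw [Finsupp.zero_apply]
        omega
      have h2 : f = C (coeff 0 f) := by
        ext m
        rw [coeff_C]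
        by_cases hm : 0 = m
        · rw [if_pos hm, ← hm]
        · rw [if_neg hm]
          by_contra h3
          exact hm (h1 m (mem_support_iff.2 h3)).symm
      have h3 : coeff 0 f ≠ 0 := by
        intro h4
        rw [h4, C_0] at h2
        exact h0 h2
      refine ⟨γ, ?_⟩
      have h4 := P.smul_mem (coeff 0 f)⁻¹ h
      rw [Finsupp.smul_single, h2, coeff_C, if_pos rfl, smul_eq_C_mul, ← C_mul,
        inv_mul_cancel₀ h3, C_1] at h4
      exact h4
    · obtain ⟨lam, q, hdom, hq1, hqd, hne, hv⟩ := density_step hA hp f d hf hd h0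
      have h1 := hP lam hdom ((q : ℤ) - 1 - formZ A p (-lam) γ) _ h
      have h5 : (Shift.zero A p).dot (-lam) = 0 := by
        show ∑ i, (-lam) i * (0 : ι → ℤ) i = 0
        exact Finset.sum_eq_zero fun i _ => by rw [Pi.zero_apply, mul_zero]
      have h6 : -((q : ℤ) - 1 - formZ A p (-lam) γ) - 1 - (Shift.zero A p).dot (-lam) -
          formZ A p (-lam) γ = -(q : ℤ) := by
        rw [h5]
        ring
      rw [expS_single, h6, hv] at h1
      have h7 : (((ε.ε (-lam) γ : ℤˣ) : ℤ) : ℂ) ≠ 0 := by
        rcases Int.units_eq_one_or (ε.ε (-lam) γ) with h8 | h8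
        · rw [h8]
          norm_num
        · rw [h8]
          norm_num
      have h8 := P.smul_mem (((ε.ε (-lam) γ : ℤˣ) : ℤ) : ℂ)⁻¹ h1
      rw [Finsupp.smul_single, smul_smul, inv_mul_cancel₀ h7, one_smul] at h8
      have h9 : FH (Sop A p (toC (-lam)) q f) (d - q) := by
        refine Sop_homog A p _ q (d - q) f ?_
        rw [Nat.sub_add_cancel hqd]
        exact hf
      exact ih (d - q) (by omega) _ _ h9 hne h8

end

end WPQ
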