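import Pool.Agent.WPQ.AR1
import Pool.Agent.WPQ.RR1

/-! [WPQ-AR2] The central charge of `ω` and the arithmetic statement `arith`. -/

namespace WPQ

open MvPolynomial

noncomputable section

variable {ι : Type} [Fintype ι] [DecidableEq ι]

/-- The central charge `l - 12 ⟨a, a⟩` of the conformal vector (`l` the rank, `a` the background
charge). -/
def cc (A : Matrix ι ι ℤ) (p : ℕ) : ℂ :=
  (Fintype.card ι : ℂ) - 12 * form A p (bg A p) (bg A p)

namespace AR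

/-- The vector `u = ∑ λ_i` with `(α_j, u) = D` for all `j`. -/
theorem exists_u (A : Matrix ι ι ℤ) (hA : IsADE A) : ∃ (D : ℤ) (u : ι → ℤ), 0 < D ∧
    ∀ j, ∑ i, A j i * u i = D := by
  obtain ⟨D, lam, hD, h⟩ := exists_lam (A := A) hA
  refine ⟨D, fun k => ∑ i, lam i k, hD, ?_⟩
  intro j
  have h1 : ∑ k, A j k * (∑ i, lam i k) = ∑ i, pr A j (lam i) := by
    unfold pr
    rw [Finset.sum_comm]
    apply Finset.sum_congr rfl
    intro k _
    rw [Finset.mul_sum]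
  rw [h1]
  simp_rw [h]
  simp

/-- `ρ = u / D`. -/
theorem rho_eq (A : Matrix ι ι ℤ) (hA : IsADE A) (D : ℤ) (u : ι → ℤ) (hD : 0 < D)
    (h : ∀ j, ∑ i, A j i * u i = D) (i : ι) : rho A i = (u i : ℂ) / D := by
  have hD0 : (D : ℂ) ≠ 0 := by exact_mod_cast hD.ne'
  have hdet := det_ne_zero A hA
  have h1 : (A.map (Int.cast : ℤ → ℂ)).mulVec (fun k => (u k : ℂ) / D) = fun _ => 1 := by
    funext j
    simp only [Matrix.mulVec, dotProduct, Matrix.map_apply]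
    have h2 : ∑ k, (A j k : ℂ) * ((u k : ℂ) / D) = (∑ k, (A j k : ℂ) * (u k : ℂ)) / D := by
      rw [Finset.sum_div]
      apply Finset.sum_congr rfl
      intro k _
      ring
    rw [h2]
    have h3 : (∑ k, (A j k : ℂ) * (u k : ℂ)) = (D : ℂ) := by
      rw [← h j]
      push_cast
      rfl
    rw [h3, div_self hD0]
  have h4 : rho A = fun k => (u k : ℂ) / D := by
    unfold rho
    rw [← h1, Matrix.mulVec_mulVec, Matrix.nonsing_inv_mul _ hdet, Matrix.one_mulVec]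
  rw [h4]

/-- `⟨a, a⟩ = (p-1)^2 S / (p D)`. -/
theorem form_bg_bg (A : Matrix ι ι ℤ) (hA : IsADE A) (p : ℕ) (hp : 1 ≤ p) (D : ℤ) (u : ι → ℤ)
    (hD : 0 < D) (h : ∀ j, ∑ i, A j i * u i = D) :
    form A p (bg A p) (bg A p) = ((p : ℂ) - 1) ^ 2 / p * ((∑ i, u i : ℤ) : ℂ) / D := by
  have hD0 : (D : ℂ) ≠ 0 := by exact_mod_cast hD.ne'
  have hp0 : (p : ℂ) ≠ 0 := by
    have : p ≠ 0 := by omega
    exact_mod_cast this
  have h0 : ∀ i : ι, ∑ k, ∑ j, (Pi.single i 1 : ι → ℂ) k * (A k j : ℂ) * bg A p j =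
      ∑ j, (A i j : ℂ) * bg A p j := by
    intro i
    rw [Finset.sum_eq_single i]
    · simp
    · intro k _ hk
      simp [Pi.single_eq_of_ne hk]
    · intro hk
      exact absurd (Finset.mem_univ i) hk
  have h1 : form A p (bg A p) (bg A p) = ∑ i, bg A p i * form A p (bb i) (bg A p) := by
    unfold form bb
    simp_rw [h0]
    rw [Finset.mul_sum]
    apply Finset.sum_congr rfl
    intro i _
    rw [Finset.mul_sum, Finset.mul_sum, Finset.mul_sum]
    apply Finset.sum_congr rfl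
    intro j _
    ring
  rw [h1]
  simp_rw [form_bg A hA p hp]
  unfold bg
  simp_rw [rho_eq A hA D u hD h]
  push_cast
  rw [Finset.mul_sum, Finset.sum_div]
  apply Finset.sum_congr rfl
  intro i _
  field_simp

/-- `S ≥ D` in rank at least two. -/
theorem D_le_S (A : Matrix ι ι ℤ) (hA : IsADE A) (hl : 2 ≤ Fintype.card ι) (D : ℤ) (u : ι → ℤ)
    (hD : 0 < D) (h : ∀ j, ∑ i, A j i * u i = D) : D ≤ ∑ i, u i := by
  obtain ⟨a, b, hab⟩ := Fintype.one_lt_card_iff.mp (by omega : 1 < Fintype.card ι)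
  set e : ι → ℤ := Pi.single a 1 + Pi.single b 1 with he
  set c : ι → ℤ := (2 : ℤ) • u - D • e with hc
  have hq : 0 ≤ c ⬝ᵥ (A.mulVec c) := by
    have h1 : c ⬝ᵥ (A.mulVec c) = ∑ i, ∑ j, c i * A i j * c j := by
      simp only [dotProduct, Matrix.mulVec]
      apply Finset.sum_congr rfl
      intro i _
      rw [Finset.mul_sum]
      apply Finset.sum_congr rfl
      intro j _
      ring
    rw [h1]
    by_cases h0 : c = 0
    · rw [h0]
      simp
    · exact (hA.pos c h0).le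
  have hAu : A.mulVec u = fun _ => D := by
    funext j
    exact h j
  have hsymm : A.transpose = A := by
    ext i j
    exact hA.symm j i
  have h2 : u ⬝ᵥ (A.mulVec e) = e ⬝ᵥ (A.mulVec u) := by
    rw [Matrix.dotProduct_mulVec, ← Matrix.mulVec_transpose, hsymm, dotProduct_comm]
  have h3 : e ⬝ᵥ (A.mulVec u) = 2 * D := by
    rw [hAu, he, add_dotProduct]
    simp
    ring
  have h4 : u ⬝ᵥ (A.mulVec u) = (∑ i, u i) * D := by
    rw [hAu]
    simp only [dotProduct]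
    rw [Finset.sum_mul]
  have h5 : e ⬝ᵥ (A.mulVec e) = 4 + 2 * A a b := by
    rw [he, Matrix.mulVec_add, add_dotProduct, dotProduct_add, dotProduct_add]
    simp only [Matrix.mulVec_single_one, single_one_dotProduct, Matrix.col_apply]
    rw [hA.diag a, hA.diag b, hA.symm b a]
    ring
  have h6 : c ⬝ᵥ (A.mulVec c) = 4 * (u ⬝ᵥ (A.mulVec u)) - 2 * D * (u ⬝ᵥ (A.mulVec e)) -
      2 * D * (e ⬝ᵥ (A.mulVec u)) + D ^ 2 * (e ⬝ᵥ (A.mulVec e)) := by
    rw [hc]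
    simp only [Matrix.mulVec_sub, Matrix.mulVec_smul, sub_dotProduct, dotProduct_sub,
      smul_dotProduct, dotProduct_smul, smul_eq_mul]
    ring
  rw [h6, h2, h3, h4, h5] at hq
  have hab' : A a b ≤ 0 := by
    rcases hA.off a b hab with h7 | h7 <;> rw [h7]
    norm_num
  have h8 : 0 ≤ D * (4 * (∑ i, u i) - 4 * D) := by
    have h9 : D ^ 2 * A a b ≤ 0 := mul_nonpos_of_nonneg_of_nonpos (by positivity) hab'
    nlinarith
  have h10 : 0 ≤ 4 * (∑ i, u i) - 4 * D := nonneg_of_mul_nonneg_right h8 hD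
  linarith

end AR

/-- The arithmetic statement (block AR). -/
theorem arith (A : Matrix ι ι ℤ) (hA : IsADE A) (hl : 2 ≤ Fintype.card ι) (C1 : ℕ) :
    ∃ C : ℕ, 1 ≤ C ∧ ∀ p : ℕ, C < p →
      (∀ r : ℕ, 2 ≤ r → r ^ 2 ≤ C * p → ¬ p ∣ C * (r ^ 2 - 1)) →
      ∃ t : ℂ, t ≠ 0 ∧ (∀ a b : ℤ, (a : ℂ) = t * b → a = 0 ∧ b = 0) ∧
        cc A p = 1 - 6 * (t - 1) ^ 2 / t ∧
        ∀ h r s : ℕ, 1 ≤ h → 1 ≤ r → 1 ≤ s → h ≤ C1 * p ^ 2 →
          (h : ℂ) ≠ (((s : ℂ) ^ 2 - 1) * t + ((r : ℂ) ^ 2 - 1) / t - 2 * ((r : ℂ) * s - 1)) / 4 := by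
  obtain ⟨D, u, hD, h⟩ := AR.exists_u A hA
  have hS := AR.D_le_S A hA hl D u hD h
  obtain ⟨D', hD'⟩ := Int.eq_ofNat_of_zero_le hD.le
  obtain ⟨S', hS'⟩ := Int.eq_ofNat_of_zero_le (hD.le.trans hS)
  have hD0 : 0 < D' := by
    rw [hD'] at hD
    exact_mod_cast hD
  have hDS : D' ≤ S' := by
    rw [hD', hS'] at hS
    exact_mod_cast hS
  obtain ⟨C, hC1, hC⟩ := AR.core D' S' (Fintype.card ι) C1 hD0 hDS
  refine ⟨C, hC1, ?_⟩
  intro p hp hE
  obtain ⟨t, ht1, hw, hirr, hkac⟩ := hC p hp hE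
  have ht0 : t ≠ 0 := by linarith
  have htC : (t : ℂ) ≠ 0 := by exact_mod_cast ht0
  have hp0 : p ≠ 0 := by omega
  have hpC : (p : ℂ) ≠ 0 := by exact_mod_cast hp0
  have hDC : (D' : ℂ) ≠ 0 := by
    have : D' ≠ 0 := by omega
    exact_mod_cast this
  refine ⟨(t : ℂ), htC, ?_, ?_, ?_⟩
  · intro a b hab
    apply hirr a b
    exact_mod_cast hab
  · unfold cc
    rw [AR.form_bg_bg A hA p (by omega) D u hD h, hS', hD']
    have hw' : 6 * (D' : ℂ) * p * ((t : ℂ) ^ 2 + 1) =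
      ((1 - (Fintype.card ι : ℂ)) * D' * p + 12 * S' * ((p : ℂ) - 1) ^ 2 + 12 * D' * p) * t := by
      exact_mod_cast congrArg (fun x : ℝ => (x : ℂ)) hw
    push_cast
    field_simp
    linear_combination hw'
  · intro h r s hh hr hs hhC heq
    apply hkac h r s hh hr hs hhC
    have h1 : ((h : ℝ) : ℂ) = (((((s : ℝ) ^ 2 - 1) * t + ((r : ℝ) ^ 2 - 1) / t -
        2 * ((r : ℝ) * s - 1)) / 4 : ℝ) : ℂ) := by
      push_cast
      exact heq
    exact_mod_cast h1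

end

end WPQ
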