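import Pool.Agent.WPQ.CY0
import Pool.Agent.WPQ.CY1

/-! [WPQ-CY8] The pairing is nondegenerate on `Wk`, all types.

Copy the proof of `Wk_nondeg` (WKM.lean), replacing `cartanA l` by `A` and the last step (`abs_zero`) by:
`Y ∈ Inv (En) (Gn)` and `Y ∈ Co (En) (Gn)`, so `Y = 0` by `GM.inv_co` (GA8) for the `GM` of `gm_n` (`finite_n` for the
finite dimension).  `Wk_nondeg_right`: `beta_symm`. -/

namespace WPQ

open MvPolynomial WK GA

noncomputable section

variable {ι : Type} [Fintype ι] [DecidableEq ι] {A : Matrix ι ι ℤ} {p : ℕ}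

theorem Wk_nondeg_ade (hA : IsADE A) (hp : 2 ≤ p) (ε : Cocycle A p) (τ : Shift A p)
    (hτ : τ.s = (2 : ℂ) • bg A p) (n : ℤ) (y : VL ι) (hy : y ∈ Wk ε) (hn : y ∈ Vn A p n)
    (h : ∀ v ∈ Wk ε, v ∈ Vn A p n → beta ε τ y v = 0) : y = 0 := by
  have hp1 : 1 ≤ p := by omega
  have hfin := finite_n hA hp n
  have hEj : ∀ (j : ι) (v : VL ι), Ej ε (Shift.zero A p) j v =
      expMode ε (Pi.single j 1) 0 v := by
    intro j v
    rw [Ej_eq hA hp1 ε j]
  set B := Bn ε τ n with hB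
  have hBl : ∀ v, (∀ u, B v u = 0) → v = 0 := Bn_left hA hp ε τ hτ n
  set Y : WT A p n := mkW n y ⟨hy.1, hn⟩ with hY
  have hYy : cv A p n Y = y := rfl
  have hYE : ∀ j, En hA hp ε n j Y = 0 := by
    intro j
    refine cv_inj n ?_
    rw [En_coe, hYy, hEj, hy.2.2 j, map_zero]
  have hYG : ∀ j, Gn A p n j Y = 0 := by
    intro j
    refine cv_inj n ?_
    ext1 γ
    rw [Gn_coe, hYy, Gop_apply, map_zero, Finsupp.zero_apply]
    by_cases hγ : γ = 0
    · subst hγ
      rw [Pi.zero_apply, Int.cast_zero, zero_smul]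
    · rw [hy.2.1 γ hγ, smul_zero]
  have hYS : Y ∈ ⨆ j, (LinearMap.range (En hA hp ε n j) ⊔
      LinearMap.range (Gn A p n j)) := by
    by_contra hcon
    obtain ⟨φ, hφ1, hφ2⟩ := Submodule.exists_le_ker_of_notMem hcon
    obtain ⟨v, hv⟩ := surj_dual B hBl φ
    have hvE : ∀ j, En hA hp ε n j v = 0 := by
      intro j
      refine right_dual B hBl _ fun x => ?_
      have h1 := Bn_E hA hp ε τ hτ n j x v
      rw [← hB] at h1
      have h2 : B (En hA hp ε n j x) v = 0 := by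
        rw [hv]
        refine hφ2 (Submodule.mem_iSup_of_mem j (Submodule.mem_sup_left ⟨x, rfl⟩))
      rw [h2] at h1
      exact neg_eq_zero.1 h1.symm
    have hvG : ∀ j, Gn A p n j v = 0 := by
      intro j
      refine right_dual B hBl _ fun x => ?_
      have h1 := Bn_G hA hp ε τ hτ n j x v
      rw [← hB] at h1
      have h2 : B (Gn A p n j x) v = 0 := by
        rw [hv]
        refine hφ2 (Submodule.mem_iSup_of_mem j (Submodule.mem_sup_right ⟨x, rfl⟩))
      rw [h2] at h1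
      exact neg_eq_zero.1 h1.symm
    have hvk : cv A p n v ∈ Wk ε := by
      refine ⟨(cv_mem n v).1, fun γ hγ => ?_, fun j => ?_⟩
      · obtain ⟨i, hi⟩ := Function.ne_iff.1 hγ
        have h1 := congrArg (fun w => cv A p n w γ) (hvG i)
        simp only [Gn_coe, Gop_apply, map_zero, Finsupp.zero_apply] at h1
        refine (smul_eq_zero.1 h1).resolve_left (Int.cast_ne_zero.2 hi)
      · have h1 := congrArg (fun w => cv A p n w) (hvE j)
        simp only [En_coe, map_zero, hEj] at h1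
        exact h1
    have h1 := h _ hvk (cv_mem n v).2
    have h2 : B Y v = 0 := h1
    rw [hv] at h2
    exact hφ1 h2
  have hY0 : Y = 0 := by
    obtain ⟨F, hF⟩ := gm_n hA hp ε n
    refine GM.inv_co hA hF Y ?_ hYS
    exact (Submodule.mem_iInf _).2 fun i => ⟨hYE i, hYG i⟩
  rw [← hYy, hY0, map_zero]

theorem Wk_nondeg_right (hA : IsADE A) (hp : 2 ≤ p) (ε : Cocycle A p) (τ : Shift A p)
    (hτ : τ.s = (2 : ℂ) • bg A p) (n : ℤ) (y : VL ι) (hy : y ∈ Wk ε) (hn : y ∈ Vn A p n)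
    (h : ∀ v ∈ Wk ε, v ∈ Vn A p n → beta ε τ v y = 0) : y = 0 := by
  refine Wk_nondeg_ade hA hp ε τ hτ n y hy hn fun v hv hvn => ?_
  rw [beta_symm hA hp ε τ hτ y v hy.1 hv.1]
  exact h v hv hvn

end

end WPQ
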