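import Pool.Agent.WPQ.EN2

/-! [WPQ-EN3] The engine, part 3: the case `r = 2`.

Plan (WPQ_planC.md, C5.5).  `u, u' ∈ Prim0 3`, `u_{(5)} u' = N' vac`, `N' ≠ 0`; `v3 = u_{(3)} u' ∈ Wn 2`, `= a ω`,
`L(2) ω = (c/2) vac` (`c = cc A p`, `LS_comm` on `vac`, `omegaV_eq`), so `3 N' = a c / 2` (`pair_L2`), `a ≠ 0`.
`u_{(4)} u' ∈ Wn 1 = 0`.  With `mode_prodN` (`prodN n a b k = ∑_j (-1)^j C(n,j) (a_{n-j} b_{k+j} - (-1)^n b_{n+k-j} a_j)`):
`a h x = mode (v3) 1 x = u'_{(4)} u_{(0)} x` (all other terms vanish by `h3`), and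
`mode (u_{(1)} u') 3 x = u'_{(4)} u_{(0)} x`, so `mode (u_{(1)} u') 3 x = (a h) x`.
`u_{(1)} u' ∈ Wn 4` has charge `0` (`mode_charge`).  By `hdec4`, `hdec3` and `hV1`, `hV2`, taking charge `0`
components (`pv2_mem`, `LS_comp`, `hV2`: `ω` has charge `0`): `u_{(1)} u' = z + L(-1)u'' + d1 L(-2)ω + d2 L(-1)²ω`,
`z ∈ Prim0 4`, `u'' ∈ Prim0 3`.
Modes at `3` on `x`: `z_3 x = 0` (`h4`), `(L(-1)u'')_3 x = -3 u''_2 x = 0` (`mode_transl`, `h3`),
`(L(-1)²ω)_3 x = 6 L(0) x`, `(L(-2)ω)_3 x = (ω_{(-1)}ω)_3 x = (h² + 2h) x` (`mode_nop` = `IsNop` with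
`ω_k x = L(k-1) x`: only `ω_{2}ω_{0} x = L(1)L(-1)x = 2h x` and `ω_1 ω_1 x = h² x` survive; see the definition of
`IsNop` in AFD.lean; `L(-2) ω = mode ω (-1) ω`).  So (x ≠ 0, h ≠ 0): `a = d1 (h + 2) + 6 d2`.
`L(2)` of `u_{(1)}u'`: `5 a ω` on the left (`LS_mode`), `(d1 (8 + c) + 12 d2) ω` on the right; `L(4)`: `9 N' vac`
and `(3 c d1 + 10 c d2) vac`.  `c ≠ 0` as `c = 1 - 6w < 0`.  So `16 a = d1 (5c + 22)`, `a = d1 (10h + 2)`, `d1 ≠ 0`,
`h = (c - 2)/32 < 0` (cast `w` to a real number), contradiction. -/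

namespace WPQ

open MvPolynomial AF

noncomputable section

variable {ι : Type} [Fintype ι] [DecidableEq ι] {A : Matrix ι ι ℤ} {p : ℕ}

theorem en3_vir (hA : IsADE A) (hp : 1 ≤ p) (m n k : ℤ) (hk : m + n = k) (v : VL ι) :
    LS (Shift.zero A p) m (LS (Shift.zero A p) n v) =
      LS (Shift.zero A p) n (LS (Shift.zero A p) m v) + ((m : ℂ) - n) • LS (Shift.zero A p) k v +
        (if m + n = 0 then cc A p / 12 * ((m : ℂ) ^ 3 - m) else 0) • v := by
  have h := LinearMap.congr_fun (LS_comm hA hp m n) v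
  rw [LinearMap.sub_apply, LinearMap.comp_apply, LinearMap.comp_apply, sub_eq_iff_eq_add, hk] at h
  rw [h, LinearMap.add_apply, LinearMap.smul_apply, hk]
  split_ifs
  · rw [LinearMap.smul_apply, LinearMap.id_apply]
    abel
  · rw [LinearMap.zero_apply, zero_smul]
    abel

/-- the values of the Virasoro operators on the conformal vector -/
theorem en3_om (hA : IsADE A) (hp : 1 ≤ p) :
    LS (Shift.zero A p) 0 (omega A p) = (2 : ℂ) • omega A p ∧
    LS (Shift.zero A p) 1 (omega A p) = 0 ∧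
    LS (Shift.zero A p) 2 (omega A p) = (cc A p / 2) • (vac : VL ι) ∧
    LS (Shift.zero A p) 3 (omega A p) = 0 ∧ LS (Shift.zero A p) 4 (omega A p) = 0 := by
  have hv : ∀ k : ℤ, -1 ≤ k → LS (Shift.zero A p) k (vac : VL ι) = 0 := fun k hk => LS_vac k hk
  unfold omega
  refine ⟨?_, ?_, ?_, ?_, ?_⟩
  · rw [en3_vir hA hp 0 (-2) (-2) (by norm_num), hv 0 (by norm_num), map_zero, zero_add,
      if_neg (by norm_num), zero_smul, add_zero]
    norm_num
  · rw [en3_vir hA hp 1 (-2) (-1) (by norm_num), hv 1 (by norm_num), map_zero, zero_add,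
      if_neg (by norm_num), zero_smul, add_zero, hv (-1) le_rfl, smul_zero]
  · rw [en3_vir hA hp 2 (-2) 0 (by norm_num), hv 2 (by norm_num), map_zero, zero_add,
      if_pos (by norm_num), hv 0 (by norm_num), smul_zero, zero_add]
    congr 1
    push_cast
    ring
  · rw [en3_vir hA hp 3 (-2) 1 (by norm_num), hv 3 (by norm_num), map_zero, zero_add,
      if_neg (by norm_num), zero_smul, add_zero, hv 1 (by norm_num), smul_zero]
  · rw [en3_vir hA hp 4 (-2) 2 (by norm_num), hv 4 (by norm_num), map_zero, zero_add,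
      if_neg (by norm_num), zero_smul, add_zero, hv 2 (by norm_num), smul_zero]

theorem en3_pos (hA : IsADE A) (hp : 1 ≤ p) (m : ℤ) (x : VL ι) (hx : x ∈ pv4_Prim A p m) (k : ℤ)
    (hk : 1 ≤ k) : LS (Shift.zero A p) k x = 0 := by
  have hv : KV.IsVir (cc A p) (LS (Shift.zero A p)) := fun m n => LS_comm hA hp m n
  obtain ⟨j, rfl⟩ : ∃ j : ℕ, k = j := ⟨k.toNat, by omega⟩
  exact KV.prim_pos hv x hx.2.1 hx.2.2 j (by omega)

/-- the value of `L(2)`, `L(4)` on the descendants of a primary vector -/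
theorem en3_L2 (hA : IsADE A) (hp : 1 ≤ p) (m : ℤ) (x : VL ι) (hx : x ∈ pv4_Prim A p m) :
    LS (Shift.zero A p) 2 (LS (Shift.zero A p) (-1) x) = 0 ∧
    LS (Shift.zero A p) 4 (LS (Shift.zero A p) (-1) x) = 0 := by
  constructor
  · rw [en3_vir hA hp 2 (-1) 1 (by norm_num), en3_pos hA hp m x hx 2 (by norm_num), map_zero, zero_add,
      if_neg (by norm_num), zero_smul, add_zero, en3_pos hA hp m x hx 1 (by norm_num), smul_zero]
  · rw [en3_vir hA hp 4 (-1) 3 (by norm_num), en3_pos hA hp m x hx 4 (by norm_num), map_zero, zero_add,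
      if_neg (by norm_num), zero_smul, add_zero, en3_pos hA hp m x hx 3 (by norm_num), smul_zero]

theorem en3_LLom (hA : IsADE A) (hp : 1 ≤ p) :
    LS (Shift.zero A p) 2 (LS (Shift.zero A p) (-2) (omega A p)) = (8 + cc A p) • omega A p ∧
    LS (Shift.zero A p) 4 (LS (Shift.zero A p) (-2) (omega A p)) = (3 * cc A p) • (vac : VL ι) ∧
    LS (Shift.zero A p) 2 (LS (Shift.zero A p) (-1) (LS (Shift.zero A p) (-1) (omega A p))) =
      (12 : ℂ) • omega A p ∧
    LS (Shift.zero A p) 4 (LS (Shift.zero A p) (-1) (LS (Shift.zero A p) (-1) (omega A p))) =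
      (10 * cc A p) • (vac : VL ι) := by
  obtain ⟨h0, h1, h2, h3, h4⟩ := en3_om (A := A) (p := p) hA hp
  have hv : ∀ k : ℤ, -1 ≤ k → LS (Shift.zero A p) k (vac : VL ι) = 0 := fun k hk => LS_vac k hk
  have e11 : LS (Shift.zero A p) 1 (LS (Shift.zero A p) (-1) (omega A p)) = (4 : ℂ) • omega A p := by
    rw [en3_vir hA hp 1 (-1) 0 (by norm_num), h1, map_zero, zero_add, if_pos (by norm_num), h0, smul_smul,
      ← add_smul]
    congr 1
    push_cast
    ring
  have e21 : LS (Shift.zero A p) 2 (LS (Shift.zero A p) (-1) (omega A p)) = 0 := by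
    rw [en3_vir hA hp 2 (-1) 1 (by norm_num), h2, map_smul, hv (-1) le_rfl, smul_zero, zero_add,
      if_neg (by norm_num), zero_smul, add_zero, h1, smul_zero]
  have e31 : LS (Shift.zero A p) 3 (LS (Shift.zero A p) (-1) (omega A p)) = (2 * cc A p) • (vac : VL ι) := by
    rw [en3_vir hA hp 3 (-1) 2 (by norm_num), h3, map_zero, zero_add, if_neg (by norm_num), zero_smul,
      add_zero, h2, smul_smul]
    congr 1
    push_cast
    ring
  have e41 : LS (Shift.zero A p) 4 (LS (Shift.zero A p) (-1) (omega A p)) = 0 := by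
    rw [en3_vir hA hp 4 (-1) 3 (by norm_num), h4, map_zero, zero_add, if_neg (by norm_num), zero_smul,
      add_zero, h3, smul_zero]
  refine ⟨?_, ?_, ?_, ?_⟩
  · rw [en3_vir hA hp 2 (-2) 0 (by norm_num), h2, map_smul, if_pos (by norm_num), h0, smul_smul]
    have e : LS (Shift.zero A p) (-2) (vac : VL ι) = omega A p := rfl
    rw [e, ← add_smul, ← add_smul]
    congr 1
    push_cast
    ring
  · rw [en3_vir hA hp 4 (-2) 2 (by norm_num), h4, map_zero, zero_add, if_neg (by norm_num), zero_smul,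
      add_zero, h2, smul_smul]
    congr 1
    push_cast
    ring
  · rw [en3_vir hA hp 2 (-1) 1 (by norm_num), e21, map_zero, zero_add, if_neg (by norm_num), zero_smul,
      add_zero, e11, smul_smul]
    congr 1
    push_cast
    ring
  · rw [en3_vir hA hp 4 (-1) 3 (by norm_num), e41, map_zero, zero_add, if_neg (by norm_num), zero_smul,
      add_zero, e31, smul_smul]
    congr 1
    push_cast
    ring

/-- the charge `0` component -/
theorem en3_comp0 (m : ℤ) (x : VL ι) (hx : x ∈ pv4_Prim A p m) :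
    Finsupp.single 0 (x 0) ∈ Prim0 A p m := by
  refine ⟨⟨pv2_mem m x hx.1 0, ?_, ?_⟩, ?_⟩
  · show LS (Shift.zero A p) 1 _ = 0
    rw [← LS_comp, hx.2.1]
    simp
  · show LS (Shift.zero A p) 2 _ = 0
    rw [← LS_comp, hx.2.2]
    simp
  · exact va4_mem_supp _ _ fun δ hδ => by rw [Finsupp.single_apply, if_neg (Ne.symm hδ)]

/-- the mode `3` of `L(-2) ω` on a primary vector -/
theorem en3_nop (hA : IsADE A) (hp : 1 ≤ p) (ε : Cocycle A p) (h : ℤ) (x : VL ι)
    (hx : x ∈ pv4_Prim A p h) :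
    mode ε (LS (Shift.zero A p) (-2) (omega A p)) 3 x = ((h : ℂ) ^ 2 + 2 * h) • x := by
  have h0 := LS_zero_Vn hA hp h x hx.1.2
  have hpos := en3_pos hA hp h x hx
  have e : LS (Shift.zero A p) (-2) (omega A p) = mode ε (omega A p) (-1) (omega A p) := by
    rw [mode_omega hA hp]
    norm_num
  rw [e]
  obtain ⟨M, hM⟩ := mode_nop hA hp ε (omega A p) (omega A p) 3 x
  rw [hM (M + 2) (by omega), add_comm M 2, Finset.sum_range_add]
  have hz : ∑ i ∈ Finset.range M, (mode ε (omega A p) (-1 - ((2 + i : ℕ) : ℤ))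
      (mode ε (omega A p) (3 + ((2 + i : ℕ) : ℤ)) x) +
      mode ε (omega A p) (3 - 1 - ((2 + i : ℕ) : ℤ)) (mode ε (omega A p) ((2 + i : ℕ) : ℤ) x)) = 0 := by
    refine Finset.sum_eq_zero fun i _ => ?_
    simp only [mode_omega hA hp]
    rw [hpos _ (by push_cast; omega), hpos _ (by push_cast; omega), map_zero, map_zero, add_zero]
  rw [hz, add_zero, Finset.sum_range_succ, Finset.sum_range_one]
  simp only [mode_omega hA hp]
  norm_num
  rw [hpos 2 (by norm_num), hpos 3 (by norm_num), map_zero, map_zero, zero_add, zero_add]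
  rw [en3_vir hA hp 1 (-1) 0 (by norm_num), hpos 1 le_rfl, map_zero, zero_add, if_pos (by norm_num), h0,
    map_smul, h0, smul_smul, smul_smul, ← add_smul, ← add_smul]
  congr 1
  push_cast
  ring

theorem en_two (hA : IsADE A) (hp : 2 ≤ p) (ε : Cocycle A p) (h : ℕ) (hh : 1 ≤ h) (w : ℚ)
    (hw : 1 / 6 < w) (hc : cc A p = 1 - 6 * (w : ℂ))
    (hV1 : Wn A p 1 = ⊥) (hV2 : ∀ v ∈ Wn A p 2, ∃ a : ℂ, v = a • omegaV A p)
    (hdec3 : ∀ v ∈ Wn A p 3, ∃ x ∈ pv4_Prim A p 3, ∃ y ∈ Wn A p 2, ∃ z ∈ Wn A p 1,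
      v = x + LS (Shift.zero A p) (-1) y + LS (Shift.zero A p) (-2) z)
    (hdec4 : ∀ v ∈ Wn A p 4, ∃ x ∈ pv4_Prim A p 4, ∃ y ∈ Wn A p 3, ∃ z ∈ Wn A p 2,
      v = x + LS (Shift.zero A p) (-1) y + LS (Shift.zero A p) (-2) z)
    (u u' : VL ι) (hu : u ∈ Prim0 A p 3) (hu' : u' ∈ Prim0 A p 3) (N' : ℂ) (hN : N' ≠ 0)
    (hN' : mode ε u 5 u' = N' • (vac : VL ι)) (x : VL ι) (hx : x ∈ pv4_Prim A p h)
    (h3 : ∀ u ∈ Prim0 A p 3, ∀ k : ℤ, 1 ≤ k → mode ε u k x = 0)
    (h4 : ∀ z ∈ Prim0 A p 4, ∀ k : ℤ, 3 ≤ k → mode ε z k x = 0) : x = 0 := by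
  have hp1 : 1 ≤ p := by omega
  by_contra hx0
  obtain ⟨o0, o1, o2, o3, o4⟩ := en3_om (A := A) (p := p) hA hp1
  obtain ⟨q1, q2, q3, q4⟩ := en3_LLom (A := A) (p := p) hA hp1
  have hvac : (vac : VL ι) ≠ 0 := by
    intro h0
    have h1 := DFunLike.congr_fun h0 0
    unfold vac at h1
    rw [Finsupp.single_eq_same, Finsupp.zero_apply] at h1
    exact one_ne_zero h1
  -- the central charge
  have hc0 : cc A p ≠ 0 := by
    rw [hc]
    intro h0
    have h1 : ((1 - 6 * w : ℚ) : ℂ) = ((0 : ℚ) : ℂ) := by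
      push_cast
      exact h0
    have h2 : (1 - 6 * w : ℚ) = 0 := by exact_mod_cast h1
    linarith
  have hom : omegaV A p = omega A p := omegaV_eq A p
  have hom0 : omega A p ≠ 0 := by
    intro h0
    rw [h0, map_zero] at o2
    have h1 := (smul_eq_zero.1 o2.symm).resolve_right hvac
    exact hc0 (by linear_combination 2 * h1)
  have hxh := LS_zero_Vn hA hp1 h x hx.1.2
  -- the product `u_3 u'`
  have m3 : mode ε u 3 u' ∈ Wn A p 2 := by
    have := mode_Wn hA hp ε 3 3 3 u u' hu.1.1 hu'.1.1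
    norm_num at this
    exact this
  obtain ⟨a, ha⟩ := hV2 _ m3
  rw [hom] at ha
  have hL2 := pair_L2 hA hp ε 3 u u' hu hu' N' (by
    have e : (2 * ((3 : ℕ) : ℤ) - 1) = 5 := by norm_num
    rw [e]
    exact hN')
  have e33 : (2 * ((3 : ℕ) : ℤ) - 3) = 3 := by norm_num
  rw [e33, ha, map_smul, o2, smul_smul] at hL2
  have E3 : a * (cc A p / 2) = 3 * N' := by
    have h1 := sub_eq_zero.2 hL2
    rw [← sub_smul] at h1
    have h2 := (smul_eq_zero.1 h1).resolve_right hvac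
    push_cast at h2
    linear_combination h2
  -- the modes on `x`
  have hux : ∀ k : ℤ, 1 ≤ k → mode ε u k x = 0 := fun k hk => h3 u hu k hk
  have hux' : ∀ k : ℤ, 1 ≤ k → mode ε u' k x = 0 := fun k hk => h3 u' hu' k hk
  have p3 : mode ε (mode ε u 3 u') 1 x = mode ε u' 4 (mode ε u 0 x) := by
    have h1 := mode_prodN hA hp1 ε u u' 3
    have e : ((3 : ℕ) : ℤ) = 3 := by norm_num
    rw [e] at h1
    rw [h1]
    unfold prodN
    simp only [Finset.sum_range_succ, Finset.sum_range_zero, LinearMap.add_apply, LinearMap.smul_apply,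
      LinearMap.sub_apply, LinearMap.comp_apply, zero_add]
    norm_num
    rw [hux 3 (by norm_num), hux 2 (by norm_num), hux 1 (by norm_num), hux' 1 (by norm_num), hux' 2 (by norm_num),
      hux' 3 (by norm_num), hux' 4 (by norm_num)]
    simp
  have p1 : mode ε (mode ε u 1 u') 3 x = mode ε u' 4 (mode ε u 0 x) := by
    have h1 := mode_prodN hA hp1 ε u u' 1
    have e : ((1 : ℕ) : ℤ) = 1 := by norm_num
    rw [e] at h1
    rw [h1]
    unfold prodN
    simp only [Finset.sum_range_succ, Finset.sum_range_zero, LinearMap.add_apply, LinearMap.smul_apply,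
      LinearMap.sub_apply, LinearMap.comp_apply, zero_add]
    norm_num
    rw [hux 1 (by norm_num), hux' 3 (by norm_num), hux' 4 (by norm_num)]
    simp
  have hv3 : mode ε (mode ε u 3 u') 1 x = (a * h) • x := by
    rw [ha, mode_smul hA hp1, mode_omega hA hp1, LinearMap.smul_apply]
    norm_num
    rw [hxh, smul_smul]
    push_cast
    rfl
  have hy3 : mode ε (mode ε u 1 u') 3 x = (a * h) • x := by rw [p1, ← p3, hv3]
  -- the decomposition of `u_1 u'`
  have m1 : mode ε u 1 u' ∈ Wn A p 4 := by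
    have := mode_Wn hA hp ε 3 3 1 u u' hu.1.1 hu'.1.1
    norm_num at this
    exact this
  have mc : mode ε u 1 u' ∈ Finsupp.supported (Fock ι) ℂ {0} := by
    have := mode_charge hA hp1 ε 0 0 1 u u' hu.2 hu'.2
    rwa [add_zero] at this
  obtain ⟨X4, hX4, Y3, hY3, Z2, hZ2, hd4⟩ := hdec4 _ m1
  obtain ⟨X3, hX3, Y2, hY2, Z1, hZ1, hd3⟩ := hdec3 _ hY3
  obtain ⟨d1, hd1⟩ := hV2 _ hZ2
  obtain ⟨d2, hd2⟩ := hV2 _ hY2
  rw [hV1, Submodule.mem_bot] at hZ1
  rw [hZ1, map_zero, add_zero, hd2] at hd3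
  rw [hd3, hd1, hom, map_add, map_smul, map_smul, map_smul] at hd4
  obtain ⟨z, hz, uu, huu, hdec⟩ : ∃ z ∈ Prim0 A p 4, ∃ uu ∈ Prim0 A p 3,
      mode ε u 1 u' = z + (LS (Shift.zero A p) (-1) uu + d2 • LS (Shift.zero A p) (-1)
        (LS (Shift.zero A p) (-1) (omega A p))) + d1 • LS (Shift.zero A p) (-2) (omega A p) := by
    refine ⟨Finsupp.single 0 (X4 0), en3_comp0 4 X4 hX4, Finsupp.single 0 (X3 0), en3_comp0 3 X3 hX3, ?_⟩
    have homc : Finsupp.single 0 ((omega A p) 0) = omega A p := by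
      rw [← hom]
      unfold omegaV
      rw [Finsupp.single_eq_same]
    have h1 := va4_supp_single _ _ mc
    rw [hd4] at h1
    rw [hd4]
    refine h1.trans ?_
    simp only [Finsupp.add_apply, Finsupp.smul_apply, Finsupp.single_add]
    rw [LS_comp, ← Finsupp.smul_single, ← Finsupp.smul_single, LS_comp, LS_comp, LS_comp, homc]
  -- modes on `x`
  have hz3 : mode ε z 3 x = 0 := h4 z hz 3 le_rfl
  have hT : ∀ v : VL ι, mode ε (LS (Shift.zero A p) (-1) v) 3 x = (-3 : ℂ) • mode ε v 2 x := by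
    intro v
    rw [LS_zero_neg_one, mode_transl hA hp1, LinearMap.smul_apply]
    norm_num
  have hT2 : ∀ v : VL ι, mode ε (LS (Shift.zero A p) (-1) v) 2 x = (-2 : ℂ) • mode ε v 1 x := by
    intro v
    rw [LS_zero_neg_one, mode_transl hA hp1, LinearMap.smul_apply]
    norm_num
  have huu2 : mode ε uu 2 x = 0 := h3 uu huu 2 (by norm_num)
  have hom1 : mode ε (omega A p) 1 x = (h : ℂ) • x := by
    rw [mode_omega hA hp1]
    norm_num
    rw [hxh]
    push_cast
    rfl
  have hnop := en3_nop hA hp1 ε h x hx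
  have E1 : a = d1 * (h + 2) + 6 * d2 := by
    have h1 := hy3
    rw [hdec, mode_add hA hp1, mode_add hA hp1, mode_add hA hp1, mode_smul hA hp1, mode_smul hA hp1,
      LinearMap.add_apply, LinearMap.add_apply, LinearMap.add_apply, LinearMap.smul_apply, LinearMap.smul_apply,
      hz3, hT, huu2, hT, hT2, hom1, hnop, smul_zero, zero_add, zero_add, smul_smul, smul_smul, smul_smul,
      smul_smul, ← add_smul] at h1
    have h2 := sub_eq_zero.2 h1
    rw [← sub_smul] at h2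
    have h3 := (smul_eq_zero.1 h2).resolve_right hx0
    have hh0 : (h : ℂ) ≠ 0 := by exact_mod_cast (by omega : h ≠ 0)
    apply mul_right_cancel₀ hh0
    push_cast at h3
    linear_combination -h3
  -- L(2), L(4)
  have hLu := fun k s => LinearMap.congr_fun (LS_mode hA hp1 ε u (3 : ℂ) (by
    have := LS_zero_Vn hA hp1 3 u hu.1.1.2
    rw [this]
    norm_num) hu.1.2.1 hu.1.2.2 k s) u'
  have hu2' := en3_pos hA hp1 3 u' hu'.1 2 (by norm_num)
  have hu4' := en3_pos hA hp1 3 u' hu'.1 4 (by norm_num)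
  obtain ⟨r1, r2⟩ := en3_L2 hA hp1 3 uu huu.1
  have E2 : 5 * a = d1 * (8 + cc A p) + 12 * d2 := by
    have h1 := hLu 2 1
    rw [LinearMap.sub_apply, LinearMap.comp_apply, LinearMap.comp_apply, hu2', map_zero, sub_zero,
      LinearMap.smul_apply] at h1
    norm_num at h1
    rw [ha, hdec, map_add, map_add, map_add, map_smul, map_smul, q1, q3, r1,
      en3_pos hA hp1 4 z hz.1 2 (by norm_num), zero_add, zero_add, smul_smul, smul_smul, smul_smul, ← add_smul] at h1
    have h2 := sub_eq_zero.2 h1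
    rw [← sub_smul] at h2
    have h3 := (smul_eq_zero.1 h2).resolve_right hom0
    linear_combination -h3
  have E4 : 9 * N' = d1 * (3 * cc A p) + d2 * (10 * cc A p) := by
    have h1 := hLu 4 1
    rw [LinearMap.sub_apply, LinearMap.comp_apply, LinearMap.comp_apply, hu4', map_zero, sub_zero,
      LinearMap.smul_apply] at h1
    norm_num at h1
    rw [hN', hdec, map_add, map_add, map_add, map_smul, map_smul, q2, q4, r2,
      en3_pos hA hp1 4 z hz.1 4 (by norm_num), zero_add, zero_add, smul_smul, smul_smul, smul_smul, ← add_smul] at h1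
    have h2 := sub_eq_zero.2 h1
    rw [← sub_smul] at h2
    have h3 := (smul_eq_zero.1 h2).resolve_right hvac
    linear_combination -h3
  -- elimination
  have ha0 : a ≠ 0 := by
    intro h0
    rw [h0, zero_mul] at E3
    exact hN (by linear_combination -(1 / 3 : ℂ) * E3)
  have E5 : 3 * a = 6 * d1 + 20 * d2 := by
    apply mul_right_cancel₀ hc0
    linear_combination 6 * E3 + 2 * E4
  have E6 : 16 * a = d1 * (22 + 5 * cc A p) := by linear_combination 5 * E2 - 3 * E5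
  have E7 : a = d1 * (10 * h + 2) := by linear_combination 10 * E1 - 3 * E5
  have hd10 : d1 ≠ 0 := by
    intro h0
    rw [h0, zero_mul] at E7
    exact ha0 E7
  have E8 : (160 * h + 10 : ℂ) = 5 * cc A p := by
    apply mul_left_cancel₀ hd10
    linear_combination E6 - 16 * E7
  rw [hc] at E8
  have E9 : ((160 * h + 10 : ℚ) : ℂ) = ((5 * (1 - 6 * w) : ℚ) : ℂ) := by
    push_cast
    exact E8
  have E10 : (160 * h + 10 : ℚ) = 5 * (1 - 6 * w) := by exact_mod_cast E9
  have hhq : (1 : ℚ) ≤ h := by exact_mod_cast hh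
  linarith

end

end WPQ
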