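import Pool.Agent.WPQ.END
import Pool.Agent.WPQ.EN3

/-! [WPQ-E7] Full Q1 of MP_c42e9d_al, block EN.

Plan (E7a, E7b).  `theorem e7 (h7b : st_TL7b) (hf : st_E7f) (h0 : st_EN0) : st_E7`.  `cc = -1190` from `KV.cc t = 1 - 6 (t-1)^2/t`.  TL7b (`w = 397/2`; `w (w+4) = 397·405/4` is not a
square) shows that a nonzero element of `Prim(6) ∩ I(6)` would have weight `6 = h + r²`, `h = (r²-1) 397/8 ≥ 148`: impossible; so (`Wn_decomp`, PV2) `Wn 6 = Prim 6 + I 6`, and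
`I 6 = L(-1) Wn 5 + L(-2) Wn 4 ≤ VirS 6` (`Wn 5 ≤ VirS 5`, `Wn 4 ≤ VirS 4`; `L(-1)` of a word is a combination of words: `L(-1) L(-a) = L(-a) L(-1) + (a-1) L(-a-1)`).
`Wn 6` has only charge `0` (a dominant `ν ≠ 0` has `2 ht ν = 34m1+49m2+66m3+96m4+75m5+52m6+27m7 ≥ 27`, so `wtExp (-ν) > 6`; use `pv2` lemmas / `Wn_charge_zero` pattern: every charge
of `Wn n` can be moved by `Ej^b` to a dominant one, which is then `-`charge of weight bound; see PV2.lean, LW1-LW5.lean `lw_charge`), so `Prim 6 = Prim0 6`, and `Prim0 6 ≠ ⊥` because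
`¬ Wn 6 ≤ VirS 6`.  `exists_pair` (EN2) for `m = 6`: `u, u', N ≠ 0`, `mode u 11 u' = N vac`.  `en_kill` (EN1) with `m = 6`, `h = 397`, `r = 3`, `n = 9`: `hff` from `SV.ff_ne`
(`w = 397/2`, `m = 6`: `(24 + w)(w + 4) = 445·405/4`, `(24 + w) w = 445·397/4`, `w (w+4) = 397·405/4`: nonsquares), `hex`: charge; `hy`: for `b` homogeneous of weight `j ≥ 1` the vector
`mode u s b` is in `Gen` or of weight `≠ 406`; `j = 0`: `mode u s vac`: weight `6` or `L(-1)`-image (`Perp.der`).  So `mode u k x = 0` for `k ≥ 2`; `st_E7f`: `x = 0`. -/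

namespace WPQ

open MvPolynomial AF

noncomputable section

theorem e7_lin (a b c d e f g m1 m2 m3 m4 m5 m6 m7 : ℤ) (h1 : m1 = 2 * a - c)
    (h2 : m2 = 2 * b - d) (h3 : m3 = -a + 2 * c - d) (h4 : m4 = -b - c + 2 * d - e)
    (h5 : m5 = -d + 2 * e - f) (h6 : m6 = -e + 2 * f - g) (h7 : m7 = -f + 2 * g)
    (p1 : 0 ≤ m1) (p2 : 0 ≤ m2) (p3 : 0 ≤ m3) (p4 : 0 ≤ m4) (p5 : 0 ≤ m5) (p6 : 0 ≤ m6)
    (p7 : 0 ≤ m7) (hs : a + b + c + d + e + f + g ≤ 4) :
    a = 0 ∧ b = 0 ∧ c = 0 ∧ d = 0 ∧ e = 0 ∧ f = 0 ∧ g = 0 := by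
  have key : 2 * (a + b + c + d + e + f + g) = 34 * m1 + 49 * m2 + 66 * m3 + 96 * m4 + 75 * m5 +
      52 * m6 + 27 * m7 := by
    rw [h1, h2, h3, h4, h5, h6, h7]
    ring
  have z1 : m1 = 0 := by omega
  have z2 : m2 = 0 := by omega
  have z3 : m3 = 0 := by omega
  have z4 : m4 = 0 := by omega
  have z5 : m5 = 0 := by omega
  have z6 : m6 = 0 := by omega
  have z7 : m7 = 0 := by omega
  refine ⟨?_, ?_, ?_, ?_, ?_, ?_, ?_⟩ <;> omega

/-- A nonzero dominant element of the root lattice of type `E₇` has height at least `5`. -/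
theorem e7_ht (ν : Fin 7 → ℤ) (hd : Dom CartanMatrix.E₇ ν) (h0 : ν ≠ 0) : 5 ≤ ∑ i, ν i := by
  by_contra hlt
  apply h0
  have q0 := hd 0
  have q1 := hd 1
  have q2 := hd 2
  have q3 := hd 3
  have q4 := hd 4
  have q5 := hd 5
  have q6 := hd 6
  unfold pr at q0 q1 q2 q3 q4 q5 q6
  simp only [CartanMatrix.E₇, Fin.sum_univ_seven, Matrix.of_apply, Matrix.cons_val] at q0 q1 q2 q3 q4 q5 q6
  rw [Fin.sum_univ_seven] at hlt
  obtain ⟨e0, e1, e2, e3, e4, e5, e6⟩ := e7_lin (ν 0) (ν 1) (ν 2) (ν 3) (ν 4) (ν 5) (ν 6)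
    (2 * ν 0 - ν 2) (2 * ν 1 - ν 3) (-ν 0 + 2 * ν 2 - ν 3) (-ν 1 - ν 2 + 2 * ν 3 - ν 4)
    (-ν 3 + 2 * ν 4 - ν 5) (-ν 4 + 2 * ν 5 - ν 6) (-ν 5 + 2 * ν 6) rfl rfl rfl rfl rfl rfl rfl
    (by omega) (by omega) (by omega) (by omega) (by omega) (by omega) (by omega) (by omega)
  funext i
  fin_cases i
  · exact e0
  · exact e1
  · exact e2
  · exact e3
  · exact e4
  · exact e5
  · exact e6

/-- There are no vectors of nonzero charge of weight `6`. -/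
theorem e7_charge (hA : IsADE CartanMatrix.E₇) (v : VL (Fin 7)) (hv : v ∈ Wn CartanMatrix.E₇ 2 6)
    (γ : Fin 7 → ℤ) (hγ : γ ≠ 0) : v γ = 0 := by
  by_contra hv0
  obtain ⟨ε⟩ := cocycle_exists CartanMatrix.E₇ hA 2
  obtain ⟨ν, hν, hd, hne⟩ := lw_step hA le_rfl ε 6 γ ⟨v γ, hv0, pv2_mem 6 v hv γ⟩ hγ
  have h1 := pv2_bound hA le_rfl ε 6 ν hν
  have h2 := bl_self_pos hA ν hne
  have h3 := e7_ht ν hd hne
  have h5 : formZ CartanMatrix.E₇ 2 (-ν) (-ν) = 2 * bl CartanMatrix.E₇ ν ν := by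
    unfold formZ bl
    push_cast
    congr 1
    refine Finset.sum_congr rfl fun i _ => Finset.sum_congr rfl fun j _ => ?_
    rw [Pi.neg_apply, Pi.neg_apply]
    ring
  have h8 : ∑ i, (-ν) i = -∑ i, ν i := by
    rw [← Finset.sum_neg_distrib]
    rfl
  unfold wtExp at h1
  rw [h5, h8] at h1
  push_cast at h1
  omega

/-- `L(-a)` on words. -/
theorem e7_La {ι : Type} [Fintype ι] [DecidableEq ι] {A : Matrix ι ι ℤ} {p : ℕ} (a : ℕ) (ha : 2 ≤ a)
    (n m : ℤ) (hm : n + a = m) (v : VL ι) (hv : v ∈ VirS A p n) :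
    LS (Shift.zero A p) (-(a : ℤ)) v ∈ VirS A p m := by
  unfold VirS at hv
  induction hv using Submodule.span_induction with
  | mem x hx =>
    obtain ⟨w, hw, hs, rfl⟩ := hx
    refine Submodule.subset_span ⟨a :: w, ?_, ?_, rfl⟩
    · intro b hb
      rcases List.mem_cons.1 hb with rfl | hb
      · exact ha
      · exact hw b hb
    · rw [List.sum_cons, Nat.cast_add, hs, ← hm]
      ring
  | zero => rw [map_zero]; exact Submodule.zero_mem _
  | add x y _ _ hx hy => rw [map_add]; exact Submodule.add_mem _ hx hy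
  | smul c x _ hx => rw [map_smul]; exact Submodule.smul_mem _ _ hx

/-- `L(-1)` on words. -/
theorem e7_L1w {ι : Type} [Fintype ι] [DecidableEq ι] {A : Matrix ι ι ℤ} {p : ℕ} (hA : IsADE A)
    (hp : 1 ≤ p) (w : List ℕ) (hw : ∀ a ∈ w, 2 ≤ a) :
    LS (Shift.zero A p) (-1) (KV.wd (LS (Shift.zero A p)) w vac) ∈
      VirS A p (((w.sum : ℕ) : ℤ) + 1) := by
  induction w with
  | nil =>
    have e : KV.wd (LS (Shift.zero A p)) [] (vac : VL ι) = vac := rfl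
    rw [e, LS_vac (-1) le_rfl]
    exact Submodule.zero_mem _
  | cons a w ih =>
    have ha : 2 ≤ a := hw a List.mem_cons_self
    have ih' := ih (fun b hb => hw b (List.mem_cons_of_mem _ hb))
    have hwm : KV.wd (LS (Shift.zero A p)) w (vac : VL ι) ∈ VirS A p ((w.sum : ℕ) : ℤ) :=
      Submodule.subset_span ⟨w, fun b hb => hw b (List.mem_cons_of_mem _ hb), rfl, rfl⟩
    have e : KV.wd (LS (Shift.zero A p)) (a :: w) (vac : VL ι) =
      LS (Shift.zero A p) (-(a : ℤ)) (KV.wd (LS (Shift.zero A p)) w vac) := rfl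
    have hs : (((a :: w).sum : ℕ) : ℤ) = (w.sum : ℤ) + a := by
      rw [List.sum_cons, Nat.cast_add]
      ring
    rw [e, en3_vir hA hp (-1) (-(a : ℤ)) (-((a + 1 : ℕ) : ℤ)) (by push_cast; ring), hs,
      if_neg (by omega), zero_smul, add_zero]
    refine Submodule.add_mem _ (e7_La a ha _ _ (by ring) _ ih') (Submodule.smul_mem _ _ ?_)
    exact e7_La (a + 1) (by omega) _ _ (by push_cast; ring) _ hwm

theorem e7_L1 {ι : Type} [Fintype ι] [DecidableEq ι] {A : Matrix ι ι ℤ} {p : ℕ} (hA : IsADE A)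
    (hp : 1 ≤ p) (n m : ℤ) (hm : n + 1 = m) (v : VL ι) (hv : v ∈ VirS A p n) :
    LS (Shift.zero A p) (-1) v ∈ VirS A p m := by
  unfold VirS at hv
  induction hv using Submodule.span_induction with
  | mem x hx =>
    obtain ⟨w, hw, hs, rfl⟩ := hx
    have h := e7_L1w hA hp w hw (A := A)
    rwa [hs, hm] at h
  | zero => rw [map_zero]; exact Submodule.zero_mem _
  | add x y _ _ hx hy => rw [map_add]; exact Submodule.add_mem _ hx hy
  | smul c x _ hx => rw [map_smul]; exact Submodule.smul_mem _ _ hx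

theorem e7_V6 {ι : Type} [Fintype ι] [DecidableEq ι] {A : Matrix ι ι ℤ} {p : ℕ} (hA : IsADE A)
    (hp : 2 ≤ p) (hdec : ∀ x ∈ pv4_Prim A p 6, (∃ y ∈ Wn A p (6 - 1), ∃ z ∈ Wn A p (6 - 2),
      x = LS (Shift.zero A p) (-1) y + LS (Shift.zero A p) (-2) z) → x = 0)
    (hP : ∀ z ∈ pv4_Prim A p 6, z ∈ Prim0 A p 6) (hV : ∀ n : ℤ, n ≤ 5 → Wn A p n ≤ VirS A p n) :
    Wn A p 6 ≤ VirS A p 6 ⊔ Prim0 A p 6 := by
  intro v hv
  obtain ⟨z, hz, y1, hy1, z1, hz1, e1, e2, rfl⟩ := Wn_decomp hA hp 6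
    (fun x hx h1 h2 y hy z hz he => hdec x ((pv4_mem _ _).2 ⟨hx, h1, h2⟩) ⟨y, hy, z, hz, he⟩) v hv
  have e5 : (6 : ℤ) - 1 = 5 := by norm_num
  have e4 : (6 : ℤ) - 2 = 4 := by norm_num
  rw [e5] at hy1
  rw [e4] at hz1
  have a1 : LS (Shift.zero A p) (-1) y1 ∈ VirS A p 6 :=
    e7_L1 hA (by omega) 5 6 (by norm_num) y1 (hV 5 le_rfl hy1)
  have a2 : LS (Shift.zero A p) (-2) z1 ∈ VirS A p 6 :=
    e7_La 2 le_rfl 4 6 (by norm_num) z1 (hV 4 (by norm_num) hz1)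
  have a3 := hP z ((pv4_mem _ _).2 ⟨hz, e1, e2⟩)
  exact Submodule.add_mem _ (Submodule.add_mem _ (Submodule.mem_sup_right a3)
    (Submodule.mem_sup_left a1)) (Submodule.mem_sup_left a2)

/-- `Perp` kills the products with a primary vector. -/
theorem e7_perp {ι : Type} [Fintype ι] [DecidableEq ι] {A : Matrix ι ι ℤ} {p : ℕ} (hA : IsADE A)
    (hp : 2 ≤ p) (ε : Cocycle A p) (τ : Shift A p)
    (hτ : τ.s = (2 : ℂ) • bg A p) (n : ℤ) (y : VL ι) (hy : Perp ε τ n y) (m : ℤ) (hm : 1 ≤ m)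
    (hmn : m < n) (u : VL ι) (hu : u ∈ Wn A p m) (s : ℤ) (hs : s ≤ -1) (b : VL ι)
    (hb : b ∈ W A p) : beta ε τ y (mode ε u s b) = 0 := by
  have hp1 : 1 ≤ p := by omega
  have key : W A p ≤ LinearMap.ker ((du1_B ε τ y) ∘ₗ mode ε u s) := by
    refine W_span _ fun γ f d hf hW => ?_
    rw [LinearMap.mem_ker, LinearMap.comp_apply]
    show beta ε τ y (mode ε u s (Finsupp.single γ f)) = 0
    have hV : Finsupp.single γ f ∈ Vn A p ((d : ℤ) + wtExp A p γ) :=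
      single_mem_Vn γ f d hf _ rfl
    set j : ℤ := (d : ℤ) + wtExp A p γ with hj
    have hWn : Finsupp.single γ f ∈ Wn A p j := ⟨hW, hV⟩
    have hmode := mode_Wn hA hp ε m j s u _ hu hWn
    by_cases hn : n = m + j - s - 1
    · rcases lt_trichotomy j 0 with h0 | h0 | h0
      · rw [Wn_neg hA hp j h0, Submodule.mem_bot] at hWn
        rw [hWn, map_zero, en1_zero_right]
      · rw [h0] at hWn
        obtain ⟨a, ha⟩ := Wn_zero hA hp _ hWn
        rw [ha, map_smul, beta_smul_right]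
        have ht := LinearMap.congr_fun ((mode_spec hA hp1 ε u).translation (s + 1)) (vac : VL ι)
        rw [LinearMap.sub_apply, LinearMap.comp_apply, LinearMap.comp_apply, ← LS_zero_neg_one (A := A) (p := p),
          LS_vac (-1) le_rfl, map_zero, sub_zero, LinearMap.smul_apply,
          show s + 1 - 1 = s by ring] at ht
        have hv0 : (vac : VL ι) ∈ Wn A p 0 := ⟨vac_mem_W hA hp1, fi2_vac⟩
        have hm1 := mode_Wn hA hp ε m 0 (s + 1) u vac hu hv0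
        have hd := hy.der (mode ε u (s + 1) vac) (by
          have e : m + 0 - (s + 1) - 1 = n - 1 := by omega
          rwa [e] at hm1)
        rw [ht, beta_smul_right] at hd
        have hs1 : (-((s + 1 : ℤ) : ℂ)) ≠ 0 := by
          intro h
          have h2 : ((s + 1 : ℤ) : ℂ) = 0 := neg_eq_zero.1 h
          have h3 : s + 1 = 0 := by exact_mod_cast h2
          omega
        rw [(mul_eq_zero.1 hd).resolve_left hs1, mul_zero]
      · exact hy.gen _ (Submodule.subset_span ⟨m, j, s, u, _, hm, by omega, hs, hn.symm, hu, hWn, rfl⟩)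
    · exact beta_wt hA hp ε τ hτ n _ _ _ hy.mem.2 hmode.2 hn
  exact LinearMap.mem_ker.mp (key hb)

theorem e7_sq (n : ℕ) (q : ℚ) (hq : q * 4 = n) (k : ℕ)
    (h1 : k * k < n) (h2 : n < (k + 1) * (k + 1)) : ¬ IsSquare q := by
  rintro ⟨x, hx⟩
  have h3 : IsSquare ((n : ℕ) : ℚ) := ⟨2 * x, by rw [← hq, hx]; ring⟩
  rw [Rat.isSquare_natCast_iff] at h3
  obtain ⟨y, hy⟩ := h3
  rcases Nat.lt_or_ge y (k + 1) with h4 | h4
  · have h5 : y * y ≤ k * k := Nat.mul_le_mul (by omega) (by omega)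
    omega
  · have h5 : (k + 1) * (k + 1) ≤ y * y := Nat.mul_le_mul h4 h4
    omega

theorem e7 (h7b : st_TL7b) (hf : st_E7f) (h0 : st_EN0) : st_E7 := by
  intro ε τ hτ hV hV6 t hirr hcc hwt c x y ν hc hh hx hy hperp hν hxν
  have hA : IsADE CartanMatrix.E₇ := h0.2.1
  have hp : 2 ≤ 2 := le_rfl
  have hp1 : 1 ≤ 2 := by norm_num
  have R1 : ¬ IsSquare ((4 * ((6 : ℕ) : ℚ) + 397 / 2) * (397 / 2 + 4)) :=
    e7_sq 180225 _ (by norm_num) 424 (by norm_num) (by norm_num)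
  have R2 : ¬ IsSquare ((4 * ((6 : ℕ) : ℚ) + 397 / 2) * (397 / 2)) :=
    e7_sq 176665 _ (by norm_num) 420 (by norm_num) (by norm_num)
  have R3 : ¬ IsSquare ((397 / 2 : ℚ) * (397 / 2 + 4)) :=
    e7_sq 160785 _ (by norm_num) 400 (by norm_num) (by norm_num)
  have hcc' : cc CartanMatrix.E₇ 2 = ((1 - 6 * (397 / 2 : ℚ) : ℚ) : ℂ) := by
    rw [hcc]
    unfold KV.cc
    rw [mul_div_assoc, hwt]
    push_cast
    ring
  have hc1190 : cc CartanMatrix.E₇ 2 = -1190 := by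
    rw [hcc']
    norm_num
  -- no primary vectors in `I 6`
  have hdec : ∀ x ∈ pv4_Prim CartanMatrix.E₇ 2 6, (∃ y ∈ Wn CartanMatrix.E₇ 2 (6 - 1),
      ∃ z ∈ Wn CartanMatrix.E₇ 2 (6 - 2),
      x = LS (Shift.zero CartanMatrix.E₇ 2) (-1) y + LS (Shift.zero CartanMatrix.E₇ 2) (-2) z) →
      x = 0 := by
    intro x hx hI
    by_contra hne
    obtain ⟨t', -, -, -, h⟩ := h7b (Fin 7) CartanMatrix.E₇ hA 2 hp (397 / 2) hcc' (by norm_num) R3
    obtain ⟨r, h', c', x', h1, h2, -, h4, h5, -, -, -⟩ := h 6 x hx hI hne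
    have h6 : (4 : ℚ) ≤ (r : ℚ) ^ 2 := by
      have : (2 : ℚ) ≤ r := by exact_mod_cast h1
      nlinarith
    have h7 : (148 : ℚ) ≤ h' := by
      rw [h4]
      linarith
    have h8 : (148 : ℤ) ≤ h' := by exact_mod_cast h7
    have h9 : (0 : ℤ) ≤ (r : ℤ) * r := by positivity
    omega
  have hP : ∀ z ∈ pv4_Prim CartanMatrix.E₇ 2 6, z ∈ Prim0 CartanMatrix.E₇ 2 6 := by
    intro z hz
    refine ⟨hz, va4_mem_supp _ _ fun δ hδ => ?_⟩
    exact e7_charge hA z hz.1 δ hδ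
  have hV6' : Wn CartanMatrix.E₇ 2 6 ≤ VirS CartanMatrix.E₇ 2 6 ⊔ Prim0 CartanMatrix.E₇ 2 6 :=
    e7_V6 hA hp hdec hP hV
  have hne : Prim0 CartanMatrix.E₇ 2 ((6 : ℕ) : ℤ) ≠ ⊥ := by
    intro hbot
    apply hV6
    have hbot' : Prim0 CartanMatrix.E₇ 2 6 = ⊥ := hbot
    rwa [hbot', sup_bot_eq] at hV6'
  obtain ⟨u, hu, u', hu', N, hN, hmode⟩ := exists_pair hA hp ε 6 hdec hne
  refine hf (Fin 7) CartanMatrix.E₇ hA 2 hp hc1190 hV hV6' ε u u' N hu hu' hN ?_ x hx ?_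
  · have e : (2 * ((6 : ℕ) : ℤ) - 1) = 11 := by norm_num
    rwa [e] at hmode
  · intro v hv k hk
    refine en_kill hA hp ε τ hτ 6 397 3 (3 * 3) c x hx ν hxν ?_ (Or.inr ?_) ?_ v hv k (by
      push_cast
      linarith)
    · intro j hj
      rw [hh]
      exact SV.ff_ne hirr (397 / 2) hwt (by norm_num) hc 6 j R1 R2 R3 hj
    · intro b hb
      exact e7_charge hA b hb (-ν) (neg_ne_zero.2 hν)
    · intro v hv s hs b hb
      rw [← hy]
      exact e7_perp hA hp ε τ hτ 406 y hperp 6 (by norm_num) (by norm_num) v hv.1.1 s hs b hb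

end

end WPQ
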