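import Pool.Agent.WPQ.END
import Pool.Agent.WPQ.EN3

/-! [WPQ-E7c] Full Q1 of MP_c42e9d_al, block EN.

Plan (E7c of W_DE_2.md).  Induction on `w`.  `[]`: `mode vac k` is `id` for `k = -1` and `0` otherwise (`mode_vac`).  `a :: w`, `a ≥ 2`:
`v = wd w vac ∈ Wn n0`, `n0 = w.sum`; `LS (-a) v = mode omega (1-a) v` (`mode_omega`), and `mode omega (1-a) = ((a-2)!)⁻¹ mode (transl^(a-2) omega) (-1)`
(`mode_transl`), so by `mode_nop` for `(transl^(a-2) omega, v)`: `mode (LS (-a) v) k x = ∑_i [ c_i LS (-a-i) (mode v (k+i) x) + d_i mode v (k+1-a-i) (LS (i-1) x) ]`, where (binomials)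
this is `∑_i (-1)^i choose(1-a,i) ( LS (-a-i) (mode v (k+i) x) - (-1)^(1-a) mode v (k+1-a-i) (LS (i-1) x) )` (the general formula for the modes of
`omega_(1-a) v`; only `i ≤ 1` matters in the second sum because `LS (i-1) x = 0` for `i ≥ 2`).  For `k ≥ n0 + a` everything vanishes: `mode v (k+i) x = 0`;
`mode v (k+1-a) (LS (-1) x) = LS (-1) (mode v (k+1-a) x) + (k+1-a) mode v (k-a) x = 0` since `k - a ≥ n0`; `i = 1`: `mode v (k-a) (h x) = 0`.
For `k = n0 + a - 1`: first sum `0`; `i = 0`: `mode v n0 (LS (-1) x) = n0 mode v (n0-1) x`; `i = 1`: `(a-1) h mode v (n0-1) x`; total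
`(-1)^a (n0 + (a-1) h) mode v (n0-1) x`.  (Translation covariance: `[transl, mode v k] = -k mode v (k-1)`; `LS zero (-1) = transl`, `LS zero 0 x = h x`.) -/

namespace WPQ

open MvPolynomial AF

noncomputable section

variable {ι : Type} [Fintype ι] [DecidableEq ι] {A : Matrix ι ι ℤ} {p : ℕ}

/-- modes of `L(-2) v` -/
theorem e7c_two (hA : IsADE A) (hp : 1 ≤ p) (ε : Cocycle A p) (x : VL ι) (h : ℂ)
    (hpos : ∀ k : ℕ, 0 < k → LS (Shift.zero A p) k x = 0) (h0 : LS (Shift.zero A p) 0 x = h • x)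
    (v : VL ι) (n0 : ℤ) (hv : ∀ k, n0 ≤ k → mode ε v k x = 0) (m : ℤ) (hm : n0 + 1 ≤ m) :
    mode ε (LS (Shift.zero A p) (-2) v) m x = (((m : ℂ) - 1) + h) • mode ε v (m - 2) x := by
  have e1 : LS (Shift.zero A p) (-2) v = mode ε (omega A p) (-1) v := by
    rw [mode_omega hA hp]
    norm_num
  rw [e1]
  obtain ⟨M0, hM0⟩ := mode_nop hA hp ε (omega A p) v m x
  rw [hM0 (M0 + 2) (by omega), Finset.sum_range_succ', Finset.sum_range_succ']
  have e2 : ∑ i ∈ Finset.range M0, (mode ε (omega A p) (-1 - ((i + 1 + 1 : ℕ) : ℤ))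
      (mode ε v (m + ((i + 1 + 1 : ℕ) : ℤ)) x) +
      mode ε v (m - 1 - ((i + 1 + 1 : ℕ) : ℤ)) (mode ε (omega A p) ((i + 1 + 1 : ℕ) : ℤ) x)) = 0 := by
    refine Finset.sum_eq_zero fun i _ => ?_
    rw [hv _ (by push_cast; omega), map_zero, zero_add, mode_omega hA hp]
    have e3 : (((i + 1 + 1 : ℕ) : ℤ) - 1) = ((i + 1 : ℕ) : ℤ) := by push_cast; ring
    rw [e3, hpos (i + 1) (Nat.succ_pos i), map_zero]
  rw [e2, zero_add, mode_omega hA hp, mode_omega hA hp, mode_omega hA hp, mode_omega hA hp,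
    hv (m + ((0 + 1 : ℕ) : ℤ)) (by push_cast; omega), hv (m + ((0 : ℕ) : ℤ)) (by push_cast; omega),
    map_zero, map_zero, zero_add, zero_add]
  have e3 : (((0 + 1 : ℕ) : ℤ) - 1) = 0 := by norm_num
  have e4 : (((0 : ℕ) : ℤ) - 1) = -1 := by norm_num
  have e5 : m - 1 - ((0 + 1 : ℕ) : ℤ) = m - 2 := by push_cast; ring
  have e6 : m - 1 - ((0 : ℕ) : ℤ) = m - 1 := by push_cast; ring
  rw [e3, e4, e5, e6, h0, map_smul, LS_zero_neg_one]
  have ht := LinearMap.congr_fun ((mode_spec hA hp ε v).translation (m - 1)) x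
  rw [LinearMap.sub_apply, LinearMap.comp_apply, LinearMap.comp_apply, LinearMap.smul_apply,
    hv (m - 1) (by omega), map_zero, zero_sub] at ht
  have e7 : m - 1 - 1 = m - 2 := by ring
  rw [e7] at ht
  have e8 : mode ε v (m - 1) (transl x) = ((m : ℂ) - 1) • mode ε v (m - 2) x := by
    rw [← neg_neg (mode ε v (m - 1) (transl x)), ht, ← neg_smul]
    congr 1
    push_cast
    ring
  rw [e8, zero_add, ← add_smul, add_comm h]

/-- modes of `L(-a) v`, `a ≥ 2` -/
theorem e7c_gen (hA : IsADE A) (hp : 1 ≤ p) (ε : Cocycle A p) (x : VL ι) (h : ℂ)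
    (hpos : ∀ k : ℕ, 0 < k → LS (Shift.zero A p) k x = 0) (h0 : LS (Shift.zero A p) 0 x = h • x)
    (a : ℕ) (ha : 2 ≤ a) : ∀ (v : VL ι) (n0 : ℤ), (∀ k, n0 ≤ k → mode ε v k x = 0) →
    (∀ k, n0 + a ≤ k → mode ε (LS (Shift.zero A p) (-(a : ℤ)) v) k x = 0) ∧
    mode ε (LS (Shift.zero A p) (-(a : ℤ)) v) (n0 + a - 1) x =
      ((-1 : ℂ) ^ a * ((n0 : ℂ) + ((a : ℂ) - 1) * h)) • mode ε v (n0 - 1) x := by
  induction a, ha using Nat.le_induction with
  | base =>
    intro v n0 hv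
    have e1 : (-((2 : ℕ) : ℤ)) = -2 := by norm_num
    refine ⟨fun k hk => ?_, ?_⟩
    · rw [e1, e7c_two hA hp ε x h hpos h0 v n0 hv k (by push_cast at hk; omega),
        hv (k - 2) (by push_cast at hk; omega), smul_zero]
    · rw [e1, e7c_two hA hp ε x h hpos h0 v n0 hv _ (by push_cast; omega)]
      have e2 : n0 + ((2 : ℕ) : ℤ) - 1 - 2 = n0 - 1 := by push_cast; ring
      rw [e2]
      congr 1
      push_cast
      ring
  | succ a ha ih =>
    intro v n0 hv
    have hc : (-1 : ℂ) + a ≠ 0 := by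
      intro h1
      have h2 : ((a : ℕ) : ℂ) = ((1 : ℕ) : ℂ) := by
        push_cast
        linear_combination h1
      have h3 := Nat.cast_injective h2
      omega
    have hcomm := LinearMap.congr_fun (LS_comm hA hp (-1) (-(a : ℤ))) v
    rw [if_neg (by omega), add_zero, LinearMap.sub_apply, LinearMap.comp_apply,
      LinearMap.comp_apply, LinearMap.smul_apply] at hcomm
    have e1 : -1 + -(a : ℤ) = -((a + 1 : ℕ) : ℤ) := by push_cast; ring
    have e2 : (((-1 : ℤ) : ℂ) - ((-(a : ℤ) : ℤ) : ℂ)) = -1 + a := by push_cast; ring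
    rw [e1, e2] at hcomm
    have hu : LS (Shift.zero A p) (-((a + 1 : ℕ) : ℤ)) v =
        (-1 + (a : ℂ))⁻¹ • (transl (LS (Shift.zero A p) (-(a : ℤ)) v) +
          (-1 : ℂ) • LS (Shift.zero A p) (-(a : ℤ)) (transl v)) := by
      rw [LS_zero_neg_one] at hcomm
      rw [neg_one_smul, ← sub_eq_add_neg, hcomm, smul_smul, inv_mul_cancel₀ hc, one_smul]
    have hmode : ∀ k : ℤ, mode ε (LS (Shift.zero A p) (-((a + 1 : ℕ) : ℤ)) v) k x =
        (-1 + (a : ℂ))⁻¹ • ((-k : ℂ) • mode ε (LS (Shift.zero A p) (-(a : ℤ)) v) (k - 1) x +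
          (-1 : ℂ) • mode ε (LS (Shift.zero A p) (-(a : ℤ)) (transl v)) k x) := by
      intro k
      rw [hu, mode_smul hA hp, mode_add hA hp, mode_smul hA hp, mode_transl hA hp,
        LinearMap.smul_apply, LinearMap.add_apply, LinearMap.smul_apply, LinearMap.smul_apply]
    have hv' : ∀ k, n0 + 1 ≤ k → mode ε (transl v) k x = 0 := by
      intro k hk
      rw [mode_transl hA hp, LinearMap.smul_apply, hv (k - 1) (by omega), smul_zero]
    obtain ⟨a1, a2⟩ := ih v n0 hv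
    obtain ⟨b1, b2⟩ := ih (transl v) (n0 + 1) hv'
    refine ⟨fun k hk => ?_, ?_⟩
    · rw [hmode, a1 (k - 1) (by push_cast at hk; omega), b1 k (by push_cast at hk; omega),
        smul_zero, smul_zero, add_zero, smul_zero]
    · have e3 : n0 + ((a + 1 : ℕ) : ℤ) - 1 - 1 = n0 + a - 1 := by push_cast; ring
      have e4 : n0 + ((a + 1 : ℕ) : ℤ) - 1 = n0 + 1 + a - 1 := by push_cast; ring
      rw [hmode, e3, a2, e4, b2, mode_transl hA hp, LinearMap.smul_apply, add_sub_cancel_right,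
        smul_smul, smul_smul, smul_smul, ← add_smul, smul_smul]
      congr 1
      field_simp
      push_cast
      ring

theorem e7c : st_E7c := by
  intro ι _ _ A hA p hp ε h x hx w
  have hp1 : 1 ≤ p := by omega
  rw [pv4_mem] at hx
  obtain ⟨hW, h1, h2⟩ := hx
  have hvir : KV.IsVir (cc A p) (LS (Shift.zero A p)) := fun m n => LS_comm hA hp1 m n
  have hpos : ∀ k : ℕ, 0 < k → LS (Shift.zero A p) k x = 0 := fun k hk =>
    KV.prim_pos hvir x h1 h2 k hk
  have h0 : LS (Shift.zero A p) 0 x = (h : ℂ) • x := LS_zero_Vn hA hp1 h x hW.2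
  induction w with
  | nil =>
    intro _
    refine ⟨fun k hk => ?_, ?_⟩
    · change mode ε vac k x = 0
      have hk' : (0 : ℤ) ≤ k := by simpa using hk
      rw [mode_vac hA hp1, if_neg (by omega), LinearMap.zero_apply]
    · change mode ε vac _ x = _
      rw [mode_vac hA hp1, if_pos (by simp), LinearMap.id_apply]
      change x = (1 : ℂ) • x
      rw [one_smul]
  | cons a w ih =>
    intro hw
    obtain ⟨i1, i2⟩ := ih fun b hb => hw b (List.mem_cons_of_mem _ hb)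
    obtain ⟨g1, g2⟩ := e7c_gen hA hp1 ε x h hpos h0 a (hw a (List.mem_cons_self))
      (KV.wd (LS (Shift.zero A p)) w vac) ((w.sum : ℕ) : ℤ) i1
    have e1 : ((((a :: w).sum : ℕ)) : ℤ) = ((w.sum : ℕ) : ℤ) + a := by
      rw [List.sum_cons]
      push_cast
      ring
    have e2 : KV.wd (LS (Shift.zero A p)) (a :: w) vac =
        LS (Shift.zero A p) (-(a : ℤ)) (KV.wd (LS (Shift.zero A p)) w vac) := rfl
    rw [e1, e2]
    refine ⟨g1, ?_⟩
    rw [g2, i2, smul_smul]
    congr 1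

end

end WPQ
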