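import Pool.Agent.WPQ.END
import Pool.Agent.WPQ.EN3

/-! [WPQ-E7e] Full Q1 of MP_c42e9d_al, block EN.

Plan (E7e of W_DE_2.md).  `LS_mode` (VA3): `LS k (mode u s u') = (5 (k+1) - s) mode u (s+k) u'` for `k ≥ 1` (`u'` primary; `en3_pos`).  So
`L(4) u_7u' = 18 N`, `L(2)L(2) u_7u' = 48 N`; `L(5) u_6u' = 24 N`, `L(2)L(3) u_6u' = 84 N`; `L(6) u_5u' = 30 N`, `L(3)L(3) = 180 N`, `L(2)L(4) u_5u' = 120 N`,
`L(2)L(2)L(2) u_5u' = 480 N` (times `vac`; e.g. `L(2) u_9u' = 6N vac`).  `u_7u' ∈ Wn 4 ≤ VirS 4` = span of `L(-2)L(-2)1, L(-4)1`; `u_6u' ∈ VirS 5` = span of `L(-5)1, L(-3)L(-2)1`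
(words in `VirS` are unordered: `[2,3]` is `[3,2] + ` multiple of `[5]`); `u_5u' ∈ VirS 6 ⊔ Prim0 6` = span of `L(-2)^3 1, L(-4)L(-2)1, L(-3)^2 1, L(-6)1` + `Prim0 6`
(reorder words with `LS_comm`; `L(k)` kills `Prim0 6` for `k ≥ 1`).  Virasoro relations with `c = -1190` (`LS_comm`, `LS_vac`, compare `en3_om`, `en3_LLom`) give the Gram matrices
(tests x basis): weight 4: ((703290,-3570),(-3570,-5950)) for (L(2)^2, L(4)) x ([2,2],[4]); weight 5: ((-11900,-4760),(-4760,1408960)) for (L(5), L(2)L(3)) x ([5],[3,2]);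
weight 6: rows L(2)^3: (-1238493690,6343890,-35700,-28560); L(2)L(4): (6343890,3530730,-16660,-5950); L(3)^2: (-35700,-16660,11285960,-21420); L(6): (-28560,-5950,-21420,-20825) for
([2,2,2],[4,2],[3,3],[6]).  Solve the linear systems (the given coefficients; all exact). -/

namespace WPQ

open MvPolynomial AF

noncomputable section

section abs

variable {N : Type} [AddCommGroup N] [Module ℂ N] (L : ℤ → N →ₗ[ℂ] N)

theorem e7e_nil (x : N) : KV.wd L [] x = x := rfl

theorem e7e_cons (a : ℕ) (w : List ℕ) (x : N) :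
    KV.wd L (a :: w) x = L (-(a : ℤ)) (KV.wd L w x) := rfl

/-- commutation, nonzero sum -/
theorem e7e_ne {c : ℂ} (hL : KV.IsVir c L) (m n k : ℤ) (hk : m + n = k) (h0 : k ≠ 0) (d : ℂ)
    (hd : (m : ℂ) - n = d) (v : N) :
    L m (L n v) = L n (L m v) + d • L k v := by
  have h := LinearMap.congr_fun (hL m n) v
  rw [LinearMap.sub_apply, LinearMap.comp_apply, LinearMap.comp_apply, sub_eq_iff_eq_add, hk,
    if_neg h0, add_zero, LinearMap.smul_apply, hd] at h
  rw [h, add_comm]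

/-- commutation, sum zero -/
theorem e7e_ze {c : ℂ} (hL : KV.IsVir c L) (m n : ℤ) (hk : m + n = 0) (d e : ℂ)
    (hd : (m : ℂ) - n = d) (he : c / 12 * ((m : ℂ) ^ 3 - m) = e) (v : N) :
    L m (L n v) = L n (L m v) + d • L 0 v + e • v := by
  have h := LinearMap.congr_fun (hL m n) v
  rw [LinearMap.sub_apply, LinearMap.comp_apply, LinearMap.comp_apply, sub_eq_iff_eq_add, hk,
    if_pos rfl, LinearMap.add_apply, LinearMap.smul_apply, LinearMap.smul_apply, hd, he,
    LinearMap.id_apply] at h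
  rw [h]
  abel

/-- The values on `L(-n) 1`. -/
theorem e7e_one (hL : KV.IsVir (-1190) L) (v0 : N) (hv : ∀ k : ℤ, -1 ≤ k → L k v0 = 0)
    (n : ℤ) (hn : 2 ≤ n) (k : ℤ) (hk : -1 ≤ k) :
    (k < n → L k (L (-n) v0) = ((k : ℂ) + n) • L (k - n) v0) ∧
    (n < k → L k (L (-n) v0) = 0) ∧
    (k = n → L k (L (-n) v0) = ((-1190 : ℂ) / 12 * ((n : ℂ) ^ 3 - n)) • v0) := by
  refine ⟨?_, ?_, ?_⟩
  · intro h
    rw [e7e_ne L hL k (-n) (k - n) (by ring) (by omega) ((k : ℂ) + n) (by push_cast; ring), hv k hk,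
      map_zero, zero_add]
  · intro h
    rw [e7e_ne L hL k (-n) (k - n) (by ring) (by omega) ((k : ℂ) + n) (by push_cast; ring), hv k hk,
      map_zero, zero_add, hv _ (by omega), smul_zero]
  · rintro rfl
    rw [e7e_ze L hL k (-k) (by ring) _ _ rfl rfl, hv k hk, map_zero, zero_add, hv 0 (by norm_num),
      smul_zero, zero_add]

/-- The table. -/
structure e7e_Tab (v0 : N) : Prop where
  /-- on `L(-2) 1` -/
  a0 : L 0 (L (-2) v0) = (2 : ℂ) • L (-2) v0
  a1 : L 1 (L (-2) v0) = 0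
  a2 : L 2 (L (-2) v0) = (-595 : ℂ) • v0
  a3 : L 3 (L (-2) v0) = 0
  a4 : L 4 (L (-2) v0) = 0
  a5 : L 5 (L (-2) v0) = 0
  a6 : L 6 (L (-2) v0) = 0
  am : L (-1) (L (-2) v0) = L (-3) v0
  b0 : L 0 (L (-3) v0) = (3 : ℂ) • L (-3) v0
  b1 : L 1 (L (-3) v0) = (4 : ℂ) • L (-2) v0
  b2 : L 2 (L (-3) v0) = 0
  b3 : L 3 (L (-3) v0) = (-2380 : ℂ) • v0
  b4 : L 4 (L (-3) v0) = 0
  b6 : L 6 (L (-3) v0) = 0
  bm : L (-1) (L (-3) v0) = (2 : ℂ) • L (-4) v0
  c1 : L 1 (L (-4) v0) = (5 : ℂ) • L (-3) v0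
  c2 : L 2 (L (-4) v0) = (6 : ℂ) • L (-2) v0
  c4 : L 4 (L (-4) v0) = (-5950 : ℂ) • v0
  d3 : L 3 (L (-5) v0) = (8 : ℂ) • L (-2) v0
  d5 : L 5 (L (-5) v0) = (-11900 : ℂ) • v0
  f2 : L 2 (L (-6) v0) = (8 : ℂ) • L (-4) v0
  f3 : L 3 (L (-6) v0) = (9 : ℂ) • L (-3) v0
  f4 : L 4 (L (-6) v0) = (10 : ℂ) • L (-2) v0
  f6 : L 6 (L (-6) v0) = (-20825 : ℂ) • v0

theorem e7e_tab (hL : KV.IsVir (-1190) L) (v0 : N) (hv : ∀ k : ℤ, -1 ≤ k → L k v0 = 0) :
    e7e_Tab L v0 := by
  have h := e7e_one L hL v0 hv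
  have lt : ∀ (n k j : ℤ) (d : ℂ), 2 ≤ n → -1 ≤ k → k < n → k - n = j → (k : ℂ) + n = d →
      L k (L (-n) v0) = d • L j v0 := by
    intro n k j d h1 h2 h3 h4 h5
    rw [← h4, ← h5]
    exact (h n h1 k h2).1 h3
  have gt : ∀ (n k : ℤ), 2 ≤ n → n < k → L k (L (-n) v0) = 0 := fun n k h1 h2 =>
    (h n h1 k (by omega)).2.1 h2
  have eq : ∀ (n : ℤ) (e : ℂ), 2 ≤ n → (-1190 : ℂ) / 12 * ((n : ℂ) ^ 3 - n) = e →
      L n (L (-n) v0) = e • v0 := fun n e h1 h2 => by
    rw [← h2]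
    exact (h n h1 n (by omega)).2.2 rfl
  constructor
  · exact lt 2 0 _ _ (by norm_num) (by norm_num) (by norm_num) (by norm_num) (by norm_num)
  · rw [lt 2 1 (-1) 3 (by norm_num) (by norm_num) (by norm_num) (by norm_num) (by norm_num),
      hv (-1) (by norm_num), smul_zero]
  · exact eq 2 _ (by norm_num) (by norm_num)
  · exact gt 2 3 (by norm_num) (by norm_num)
  · exact gt 2 4 (by norm_num) (by norm_num)
  · exact gt 2 5 (by norm_num) (by norm_num)
  · exact gt 2 6 (by norm_num) (by norm_num)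
  · rw [lt 2 (-1) (-3) 1 (by norm_num) (by norm_num) (by norm_num) (by norm_num) (by norm_num), one_smul]
  · exact lt 3 0 _ _ (by norm_num) (by norm_num) (by norm_num) (by norm_num) (by norm_num)
  · exact lt 3 1 _ _ (by norm_num) (by norm_num) (by norm_num) (by norm_num) (by norm_num)
  · rw [lt 3 2 (-1) 5 (by norm_num) (by norm_num) (by norm_num) (by norm_num) (by norm_num),
      hv (-1) (by norm_num), smul_zero]
  · exact eq 3 _ (by norm_num) (by norm_num)
  · exact gt 3 4 (by norm_num) (by norm_num)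
  · exact gt 3 6 (by norm_num) (by norm_num)
  · exact lt 3 (-1) _ _ (by norm_num) (by norm_num) (by norm_num) (by norm_num) (by norm_num)
  · exact lt 4 1 _ _ (by norm_num) (by norm_num) (by norm_num) (by norm_num) (by norm_num)
  · exact lt 4 2 _ _ (by norm_num) (by norm_num) (by norm_num) (by norm_num) (by norm_num)
  · exact eq 4 _ (by norm_num) (by norm_num)
  · exact lt 5 3 _ _ (by norm_num) (by norm_num) (by norm_num) (by norm_num) (by norm_num)
  · exact eq 5 _ (by norm_num) (by norm_num)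
  · exact lt 6 2 _ _ (by norm_num) (by norm_num) (by norm_num) (by norm_num) (by norm_num)
  · exact lt 6 3 _ _ (by norm_num) (by norm_num) (by norm_num) (by norm_num) (by norm_num)
  · exact lt 6 4 _ _ (by norm_num) (by norm_num) (by norm_num) (by norm_num) (by norm_num)
  · exact eq 6 _ (by norm_num) (by norm_num)

variable {L}

/-- weight 4 -/
theorem e7e_w4 (hL : KV.IsVir (-1190) L) (v0 : N) (T : e7e_Tab L v0) :
    L 2 (L (-2) (L (-2) v0)) = (-1182 : ℂ) • L (-2) v0 ∧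
    L 4 (L (-2) (L (-2) v0)) = (-3570 : ℂ) • v0 ∧
    L 3 (L (-2) (L (-2) v0)) = 0 ∧
    L 1 (L (-2) (L (-2) v0)) = (3 : ℂ) • L (-3) v0 ∧
    L 0 (L (-2) (L (-2) v0)) = (4 : ℂ) • L (-2) (L (-2) v0) := by
  refine ⟨?_, ?_, ?_, ?_, ?_⟩
  · rw [e7e_ze L hL 2 (-2) (by norm_num) 4 (-595) (by norm_num) (by norm_num), T.a2, T.a0, map_smul,
      smul_smul, ← add_smul, ← add_smul]
    norm_num
  · rw [e7e_ne L hL 4 (-2) 2 (by norm_num) (by norm_num) 6 (by norm_num), T.a4, T.a2, map_zero, zero_add,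
      smul_smul]
    norm_num
  · rw [e7e_ne L hL 3 (-2) 1 (by norm_num) (by norm_num) 5 (by norm_num), T.a3, T.a1, map_zero, zero_add,
      smul_zero]
  · rw [e7e_ne L hL 1 (-2) (-1) (by norm_num) (by norm_num) 3 (by norm_num), T.a1, T.am, map_zero,
      zero_add]
  · rw [e7e_ne L hL 0 (-2) (-2) (by norm_num) (by norm_num) 2 (by norm_num), T.a0, map_smul, ← add_smul]
    norm_num

/-- weight 5 -/
theorem e7e_w5 (hL : KV.IsVir (-1190) L) (v0 : N) (T : e7e_Tab L v0) :
    L 3 (L (-3) (L (-2) v0)) = (-2368 : ℂ) • L (-2) v0 ∧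
    L 5 (L (-3) (L (-2) v0)) = (-4760 : ℂ) • v0 := by
  refine ⟨?_, ?_⟩
  · rw [e7e_ze L hL 3 (-3) (by norm_num) 6 (-2380) (by norm_num) (by norm_num), T.a3, T.a0, map_zero,
      zero_add, smul_smul, ← add_smul]
    norm_num
  · rw [e7e_ne L hL 5 (-3) 2 (by norm_num) (by norm_num) 8 (by norm_num), T.a5, T.a2, map_zero,
      zero_add, smul_smul]
    norm_num

/-- weight 6 -/
theorem e7e_w6 (hL : KV.IsVir (-1190) L) (v0 : N) (T : e7e_Tab L v0) :
    (L 2 (L (-2) (L (-2) (L (-2) v0))) = (-1761 : ℂ) • L (-2) (L (-2) v0) ∧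
    L 3 (L (-2) (L (-2) (L (-2) v0))) = (15 : ℂ) • L (-3) v0 ∧
    L 4 (L (-2) (L (-2) (L (-2) v0))) = (-10662 : ℂ) • L (-2) v0 ∧
    L 6 (L (-2) (L (-2) (L (-2) v0))) = (-28560 : ℂ) • v0) ∧
    (L 2 (L (-4) (L (-2) v0)) = (-595 : ℂ) • L (-4) v0 + (6 : ℂ) • L (-2) (L (-2) v0) ∧
    L 3 (L (-4) (L (-2) v0)) = (7 : ℂ) • L (-3) v0 ∧
    L 4 (L (-4) (L (-2) v0)) = (-5934 : ℂ) • L (-2) v0 ∧
    L 6 (L (-4) (L (-2) v0)) = (-5950 : ℂ) • v0) ∧
    (L 2 (L (-3) (L (-3) v0)) = (10 : ℂ) • L (-4) v0 ∧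
    L 3 (L (-3) (L (-3) v0)) = (-4742 : ℂ) • L (-3) v0 ∧
    L 4 (L (-3) (L (-3) v0)) = (28 : ℂ) • L (-2) v0 ∧
    L 6 (L (-3) (L (-3) v0)) = (-21420 : ℂ) • v0) := by
  obtain ⟨q2, q4, q3, q1, q0⟩ := e7e_w4 hL v0 T
  have q6 : L 6 (L (-2) (L (-2) v0)) = 0 := by
    rw [e7e_ne L hL 6 (-2) 4 (by norm_num) (by norm_num) 8 (by norm_num), T.a6, T.a4, map_zero,
      zero_add, smul_zero]
  refine ⟨⟨?_, ?_, ?_, ?_⟩, ⟨?_, ?_, ?_, ?_⟩, ?_, ?_, ?_, ?_⟩
  · rw [e7e_ze L hL 2 (-2) (by norm_num) 4 (-595) (by norm_num) (by norm_num), q2, q0, map_smul,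
      smul_smul, ← add_smul, ← add_smul]
    norm_num
  · rw [e7e_ne L hL 3 (-2) 1 (by norm_num) (by norm_num) 5 (by norm_num), q3, q1, map_zero,
      zero_add, smul_smul]
    norm_num
  · rw [e7e_ne L hL 4 (-2) 2 (by norm_num) (by norm_num) 6 (by norm_num), q4, q2, map_smul,
      smul_smul, ← add_smul]
    norm_num
  · rw [e7e_ne L hL 6 (-2) 4 (by norm_num) (by norm_num) 8 (by norm_num), q6, q4, map_zero,
      zero_add, smul_smul]
    norm_num
  · rw [e7e_ne L hL 2 (-4) (-2) (by norm_num) (by norm_num) 6 (by norm_num), T.a2, map_smul]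
  · rw [e7e_ne L hL 3 (-4) (-1) (by norm_num) (by norm_num) 7 (by norm_num), T.a3, T.am, map_zero,
      zero_add]
  · rw [e7e_ze L hL 4 (-4) (by norm_num) 8 (-5950) (by norm_num) (by norm_num), T.a4, T.a0, map_zero,
      zero_add, smul_smul, ← add_smul]
    norm_num
  · rw [e7e_ne L hL 6 (-4) 2 (by norm_num) (by norm_num) 10 (by norm_num), T.a6, T.a2, map_zero,
      zero_add, smul_smul]
    norm_num
  · rw [e7e_ne L hL 2 (-3) (-1) (by norm_num) (by norm_num) 5 (by norm_num), T.b2, T.bm, map_zero,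
      zero_add, smul_smul]
    norm_num
  · rw [e7e_ze L hL 3 (-3) (by norm_num) 6 (-2380) (by norm_num) (by norm_num), T.b3, T.b0, map_smul,
      smul_smul, ← add_smul, ← add_smul]
    norm_num
  · rw [e7e_ne L hL 4 (-3) 1 (by norm_num) (by norm_num) 7 (by norm_num), T.b4, T.b1, map_zero,
      zero_add, smul_smul]
    norm_num
  · rw [e7e_ne L hL 6 (-3) 3 (by norm_num) (by norm_num) 9 (by norm_num), T.b6, T.b3, map_zero,
      zero_add, smul_smul]
    norm_num

/-- reordering -/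
theorem e7e_re (hL : KV.IsVir (-1190) L) (v0 : N) :
    L (-2) (L (-3) v0) = L (-3) (L (-2) v0) + L (-5) v0 ∧
    L (-2) (L (-4) v0) = L (-4) (L (-2) v0) + (2 : ℂ) • L (-6) v0 := by
  constructor
  · rw [e7e_ne L hL (-2) (-3) (-5) (by norm_num) (by norm_num) 1 (by norm_num), one_smul]
  · rw [e7e_ne L hL (-2) (-4) (-6) (by norm_num) (by norm_num) 2 (by norm_num)]

end abs

/-- words of weight 4, 5, 6 -/
theorem e7e_words (w : List ℕ) (hw : ∀ a ∈ w, 2 ≤ a) :
    (w.sum = 0 → w = []) ∧ w.sum ≠ 1 ∧ (w.sum = 2 → w = [2]) ∧ (w.sum = 3 → w = [3]) ∧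
    (w.sum = 4 → w = [4] ∨ w = [2, 2]) ∧ (w.sum = 5 → w = [5] ∨ w = [2, 3] ∨ w = [3, 2]) ∧
    (w.sum = 6 → w = [6] ∨ w = [2, 4] ∨ w = [4, 2] ∨ w = [3, 3] ∨ w = [2, 2, 2]) := by
  induction w with
  | nil => simp
  | cons a w ih =>
    obtain ⟨i0, i1, i2, i3, i4, -, -⟩ := ih (fun b hb => hw b (List.mem_cons_of_mem _ hb))
    have ha : 2 ≤ a := hw a List.mem_cons_self
    rw [List.sum_cons]
    refine ⟨fun h => by omega, by omega, fun h => ?_, fun h => ?_, fun h => ?_, fun h => ?_, fun h => ?_⟩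
    · have h1 : a = 2 := by omega
      have h2 : w = [] := i0 (by omega)
      rw [h1, h2]
    · have h3 : a = 3 ∨ (a = 2 ∧ w.sum = 1) := by omega
      rcases h3 with h3 | h3
      · rw [h3, i0 (by omega)]
      · exact absurd h3.2 i1
    · have h3 : a = 4 ∨ (a = 2 ∧ w.sum = 2) ∨ (a = 3 ∧ w.sum = 1) := by omega
      rcases h3 with h3 | h3 | h3
      · rw [h3, i0 (by omega)]
        exact Or.inl rfl
      · rw [h3.1, i2 h3.2]
        exact Or.inr rfl
      · exact absurd h3.2 i1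
    · have h3 : a = 5 ∨ (a = 2 ∧ w.sum = 3) ∨ (a = 3 ∧ w.sum = 2) ∨ (a = 4 ∧ w.sum = 1) := by omega
      rcases h3 with h3 | h3 | h3 | h3
      · rw [h3, i0 (by omega)]
        exact Or.inl rfl
      · rw [h3.1, i3 h3.2]
        exact Or.inr (Or.inl rfl)
      · rw [h3.1, i2 h3.2]
        exact Or.inr (Or.inr rfl)
      · exact absurd h3.2 i1
    · have h3 : a = 6 ∨ (a = 2 ∧ w.sum = 4) ∨ (a = 3 ∧ w.sum = 3) ∨ (a = 4 ∧ w.sum = 2) ∨
        (a = 5 ∧ w.sum = 1) := by omega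
      rcases h3 with h3 | h3 | h3 | h3 | h3
      · rw [h3, i0 (by omega)]
        exact Or.inl rfl
      · rcases i4 h3.2 with h4 | h4
        · rw [h3.1, h4]
          exact Or.inr (Or.inl rfl)
        · rw [h3.1, h4]
          exact Or.inr (Or.inr (Or.inr (Or.inr rfl)))
      · rw [h3.1, i3 h3.2]
        exact Or.inr (Or.inr (Or.inr (Or.inl rfl)))
      · rw [h3.1, i2 h3.2]
        exact Or.inr (Or.inr (Or.inl rfl))
      · exact absurd h3.2 i1

section

variable {ι : Type} [Fintype ι] [DecidableEq ι] {A : Matrix ι ι ℤ} {p : ℕ}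

theorem e7e_V4 (v : VL ι) (hv : v ∈ VirS A p 4) :
    ∃ a b : ℂ, v = a • LS (Shift.zero A p) (-2) (LS (Shift.zero A p) (-2) vac) +
      b • LS (Shift.zero A p) (-4) vac := by
  unfold VirS at hv
  induction hv using Submodule.span_induction with
  | mem x hx =>
    obtain ⟨w, hw, hs, rfl⟩ := hx
    have hs' : w.sum = 4 := by exact_mod_cast hs
    rcases (e7e_words w hw).2.2.2.2.1 hs' with rfl | rfl
    · exact ⟨0, 1, by simp [e7e_cons, e7e_nil]⟩
    · exact ⟨1, 0, by simp [e7e_cons, e7e_nil]⟩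
  | zero => exact ⟨0, 0, by simp⟩
  | add x y _ _ hx hy =>
    obtain ⟨a, b, rfl⟩ := hx
    obtain ⟨a', b', rfl⟩ := hy
    exact ⟨a + a', b + b', by module⟩
  | smul c x _ hx =>
    obtain ⟨a, b, rfl⟩ := hx
    exact ⟨c * a, c * b, by module⟩

theorem e7e_V5 (hL : KV.IsVir (-1190) (LS (Shift.zero A p))) (v : VL ι) (hv : v ∈ VirS A p 5) :
    ∃ a b : ℂ, v = a • LS (Shift.zero A p) (-5) vac +
      b • LS (Shift.zero A p) (-3) (LS (Shift.zero A p) (-2) vac) := by
  have hr := e7e_re hL vac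
  unfold VirS at hv
  induction hv using Submodule.span_induction with
  | mem x hx =>
    obtain ⟨w, hw, hs, rfl⟩ := hx
    have hs' : w.sum = 5 := by exact_mod_cast hs
    rcases (e7e_words w hw).2.2.2.2.2.1 hs' with rfl | rfl | rfl
    · exact ⟨1, 0, by simp [e7e_cons, e7e_nil]⟩
    · refine ⟨1, 1, ?_⟩
      simp only [e7e_cons, e7e_nil, Nat.cast_ofNat]
      rw [hr.1]
      module
    · exact ⟨0, 1, by simp [e7e_cons, e7e_nil]⟩
  | zero => exact ⟨0, 0, by simp⟩
  | add x y _ _ hx hy =>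
    obtain ⟨a, b, rfl⟩ := hx
    obtain ⟨a', b', rfl⟩ := hy
    exact ⟨a + a', b + b', by module⟩
  | smul c x _ hx =>
    obtain ⟨a, b, rfl⟩ := hx
    exact ⟨c * a, c * b, by module⟩

theorem e7e_V6 (hL : KV.IsVir (-1190) (LS (Shift.zero A p))) (v : VL ι) (hv : v ∈ VirS A p 6) :
    ∃ a b c d : ℂ, v = a • LS (Shift.zero A p) (-2) (LS (Shift.zero A p) (-2)
        (LS (Shift.zero A p) (-2) vac)) +
      b • LS (Shift.zero A p) (-4) (LS (Shift.zero A p) (-2) vac) +
      c • LS (Shift.zero A p) (-3) (LS (Shift.zero A p) (-3) vac) +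
      d • LS (Shift.zero A p) (-6) vac := by
  have hr := e7e_re hL vac
  unfold VirS at hv
  induction hv using Submodule.span_induction with
  | mem x hx =>
    obtain ⟨w, hw, hs, rfl⟩ := hx
    have hs' : w.sum = 6 := by exact_mod_cast hs
    rcases (e7e_words w hw).2.2.2.2.2.2 hs' with rfl | rfl | rfl | rfl | rfl
    · exact ⟨0, 0, 0, 1, by simp [e7e_cons, e7e_nil]⟩
    · refine ⟨0, 1, 0, 2, ?_⟩
      simp only [e7e_cons, e7e_nil, Nat.cast_ofNat]
      rw [hr.2]
      module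
    · exact ⟨0, 1, 0, 0, by simp [e7e_cons, e7e_nil]⟩
    · exact ⟨0, 0, 1, 0, by simp [e7e_cons, e7e_nil]⟩
    · exact ⟨1, 0, 0, 0, by simp [e7e_cons, e7e_nil]⟩
  | zero => exact ⟨0, 0, 0, 0, by simp⟩
  | add x y _ _ hx hy =>
    obtain ⟨a, b, c, d, rfl⟩ := hx
    obtain ⟨a', b', c', d', rfl⟩ := hy
    exact ⟨a + a', b + b', c + c', d + d', by module⟩
  | smul e x _ hx =>
    obtain ⟨a, b, c, d, rfl⟩ := hx
    exact ⟨e * a, e * b, e * c, e * d, by module⟩

omit [Fintype ι] [DecidableEq ι] in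
theorem e7e_vac0 : (vac : VL ι) ≠ 0 := by
  intro h0
  have h1 := DFunLike.congr_fun h0 0
  unfold vac at h1
  rw [Finsupp.single_eq_same, Finsupp.zero_apply] at h1
  exact one_ne_zero h1

omit [Fintype ι] [DecidableEq ι] in
theorem e7e_sc {a b : ℂ} (h : a • (vac : VL ι) = b • vac) : a = b := by
  have h1 := sub_eq_zero.2 h
  rw [← sub_smul] at h1
  exact sub_eq_zero.1 ((smul_eq_zero.1 h1).resolve_right e7e_vac0)

end

theorem e7e : st_E7e := by
  intro ι _ _ A hA p hp hcc hV hV6 ε u u' N hu hu' hN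
  have hp1 : 1 ≤ p := by omega
  have hL : KV.IsVir (-1190) (LS (Shift.zero A p)) := by
    intro m n
    rw [LS_comm hA hp1 m n, hcc]
  have T := e7e_tab (LS (Shift.zero A p)) hL vac (fun k hk => LS_vac k hk)
  obtain ⟨q2, q4, q3, q1, q0⟩ := e7e_w4 hL vac T
  obtain ⟨r3, r5⟩ := e7e_w5 hL vac T
  obtain ⟨⟨s2, s3, s4, s6⟩, ⟨t2, t3, t4, t6⟩, z2, z3, z4, z6⟩ := e7e_w6 hL vac T
  -- `L(k) u_s u'`
  have hk : ∀ (k s j : ℤ) (d : ℂ), 1 ≤ k → s + k = j → 5 * ((k : ℂ) + 1) - s = d →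
      LS (Shift.zero A p) k (mode ε u s u') = d • mode ε u j u' := by
    intro k s j d h1 h2 h3
    have h := LinearMap.congr_fun (LS_mode hA hp1 ε u (6 : ℂ) (by
      have := LS_zero_Vn hA hp1 6 u hu.1.1.2
      rw [this]
      norm_num) hu.1.2.1 hu.1.2.2 k s) u'
    rw [LinearMap.sub_apply, LinearMap.comp_apply, LinearMap.comp_apply,
      en3_pos hA hp1 6 u' hu'.1 k h1, map_zero, sub_zero, LinearMap.smul_apply, h2] at h
    rw [h, ← h3]
    norm_num
  have h9 : LS (Shift.zero A p) 2 (mode ε u 9 u') = (6 * N) • (vac : VL ι) := by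
    rw [hk 2 9 11 6 (by norm_num) (by norm_num) (by norm_num), hN, smul_smul]
  have h8 : LS (Shift.zero A p) 3 (mode ε u 8 u') = (12 * N) • (vac : VL ι) := by
    rw [hk 3 8 11 12 (by norm_num) (by norm_num) (by norm_num), hN, smul_smul]
  have h72 : LS (Shift.zero A p) 2 (mode ε u 7 u') = (8 : ℂ) • mode ε u 9 u' :=
    hk 2 7 9 8 (by norm_num) (by norm_num) (by norm_num)
  have m7 : mode ε u 7 u' ∈ Wn A p 4 := by
    have := mode_Wn hA hp ε 6 6 7 u u' hu.1.1 hu'.1.1
    norm_num at this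
    exact this
  have m6 : mode ε u 6 u' ∈ Wn A p 5 := by
    have := mode_Wn hA hp ε 6 6 6 u u' hu.1.1 hu'.1.1
    norm_num at this
    exact this
  have m5 : mode ε u 5 u' ∈ Wn A p 6 := by
    have := mode_Wn hA hp ε 6 6 5 u u' hu.1.1 hu'.1.1
    norm_num at this
    exact this
  refine ⟨?_, ?_, ?_⟩
  · obtain ⟨a, b, hab⟩ := e7e_V4 _ (hV 4 (by norm_num) m7)
    have E1 : a * 703290 + b * (-3570) = 48 * N := by
      have h1 := congrArg (LS (Shift.zero A p) 2) h72
      rw [map_smul, h9, smul_smul, hab, map_add, map_smul, map_smul, q2, T.c2, map_add, map_smul, map_smul,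
        map_smul, map_smul, T.a2, smul_smul, smul_smul, smul_smul, smul_smul, ← add_smul] at h1
      have h2 := e7e_sc h1
      linear_combination h2
    have E2 : a * (-3570) + b * (-5950) = 18 * N := by
      have h1 := hk 4 7 11 18 (by norm_num) (by norm_num) (by norm_num)
      rw [hN, smul_smul, hab, map_add, map_smul, map_smul, q4, T.c4, smul_smul, smul_smul, ← add_smul] at h1
      have h2 := e7e_sc h1
      linear_combination h2
    have ea : a = N * (31 / 587860) := by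
      linear_combination (1 / 705432 : ℂ) * E1 - (1 / 1175720 : ℂ) * E2
    have eb : b = N * (-1797 / 587860) := by
      linear_combination (-1 / 1175720 : ℂ) * E1 - (197 / 1175720 : ℂ) * E2
    rw [hab, ea, eb]
    simp only [e7e_cons, e7e_nil, Nat.cast_ofNat]
  · obtain ⟨a, b, hab⟩ := e7e_V5 hL _ (hV 5 (by norm_num) m6)
    have E1 : a * (-11900) + b * (-4760) = 24 * N := by
      have h1 := hk 5 6 11 24 (by norm_num) (by norm_num) (by norm_num)
      rw [hN, smul_smul, hab, map_add, map_smul, map_smul, r5, T.d5, smul_smul, smul_smul, ← add_smul] at h1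
      have h2 := e7e_sc h1
      linear_combination h2
    have E2 : a * (-4760) + b * 1408960 = 84 * N := by
      have h1 := congrArg (LS (Shift.zero A p) 2) (hk 3 6 9 14 (by norm_num) (by norm_num) (by norm_num))
      rw [map_smul, h9, smul_smul, hab, map_add, map_smul, map_smul, T.d3, r3, map_add, map_smul, map_smul,
        map_smul, map_smul, T.a2, smul_smul, smul_smul, smul_smul, smul_smul, ← add_smul] at h1
      have h2 := e7e_sc h1
      linear_combination h2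
    have ea : a = N * (-599 / 293930) := by
      linear_combination (-37 / 440895 : ℂ) * E1 - (1 / 3527160 : ℂ) * E2
    have eb : b = N * (31 / 587860) := by
      linear_combination (-1 / 3527160 : ℂ) * E1 + (1 / 1410864 : ℂ) * E2
    rw [hab, ea, eb]
    simp only [e7e_cons, e7e_nil, Nat.cast_ofNat]
  · obtain ⟨y, hy, v, hv, hyv⟩ := Submodule.mem_sup.1 (hV6 m5)
    obtain ⟨a, b, c, d, hab⟩ := e7e_V6 hL _ hy
    have hvk : ∀ k : ℤ, 1 ≤ k → LS (Shift.zero A p) k v = 0 := en3_pos hA hp1 6 v hv.1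
    have L2 : LS (Shift.zero A p) 2 (mode ε u 5 u') = (a * (-1761)) •
        LS (Shift.zero A p) (-2) (LS (Shift.zero A p) (-2) vac) + b • ((-595 : ℂ) • LS (Shift.zero A p) (-4) vac +
          (6 : ℂ) • LS (Shift.zero A p) (-2) (LS (Shift.zero A p) (-2) vac)) +
        (c * 10) • LS (Shift.zero A p) (-4) vac + (d * 8) • LS (Shift.zero A p) (-4) vac := by
      rw [← hyv, hab]
      simp only [map_add, map_smul]
      rw [hvk 2 (by norm_num), s2, t2, z2, T.f2, add_zero, smul_smul, smul_smul, smul_smul]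
    have E1 : a * (-1238493690) + b * 6343890 + c * (-35700) + d * (-28560) = 480 * N := by
      have h1 := congrArg (LS (Shift.zero A p) 2) (congrArg (LS (Shift.zero A p) 2)
        (hk 2 5 7 10 (by norm_num) (by norm_num) (by norm_num)))
      rw [map_smul, h72, map_smul, map_smul, h9, smul_smul, smul_smul, L2] at h1
      simp only [map_add, map_smul] at h1
      rw [q2, T.c2] at h1
      simp only [map_smul] at h1
      rw [T.a2] at h1
      simp only [smul_smul, ← add_smul] at h1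
      have h2 := e7e_sc h1
      linear_combination h2
    have E2 : a * 6343890 + b * 3530730 + c * (-16660) + d * (-5950) = 120 * N := by
      have h1 := congrArg (LS (Shift.zero A p) 2) (hk 4 5 9 20 (by norm_num) (by norm_num) (by norm_num))
      rw [map_smul, h9, smul_smul, ← hyv, hab] at h1
      simp only [map_add, map_smul] at h1
      rw [hvk 4 (by norm_num), s4, t4, z4, T.f4] at h1
      simp only [map_smul, map_zero, add_zero] at h1
      rw [T.a2] at h1
      simp only [smul_smul, ← add_smul] at h1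
      have h2 := e7e_sc h1
      linear_combination h2
    have E3 : a * (-35700) + b * (-16660) + c * 11285960 + d * (-21420) = 180 * N := by
      have h1 := congrArg (LS (Shift.zero A p) 3) (hk 3 5 8 15 (by norm_num) (by norm_num) (by norm_num))
      rw [map_smul, h8, smul_smul, ← hyv, hab] at h1
      simp only [map_add, map_smul] at h1
      rw [hvk 3 (by norm_num), s3, t3, z3, T.f3] at h1
      simp only [map_smul, map_zero, add_zero] at h1
      rw [T.b3] at h1
      simp only [smul_smul, ← add_smul] at h1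
      have h2 := e7e_sc h1
      linear_combination h2
    have E4 : a * (-28560) + b * (-5950) + c * (-21420) + d * (-20825) = 30 * N := by
      have h1 := hk 6 5 11 30 (by norm_num) (by norm_num) (by norm_num)
      rw [hN, smul_smul, ← hyv, hab] at h1
      simp only [map_add, map_smul] at h1
      rw [hvk 6 (by norm_num), s6, t6, z6, T.f6] at h1
      simp only [smul_smul, add_zero, ← add_smul] at h1
      have h2 := e7e_sc h1
      linear_combination h2
    have ea : a = N * (-875 / 4588998921) := by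
      linear_combination (-27757 / 34692831842760 : ℂ) * E1 + (2627 / 1825938518040 : ℂ) * E2 +
        (31 / 34692831842760 : ℂ) * E3 + (11887 / 17346415921380 : ℂ) * E4
    have eb : b = N * (4102333 / 128491969788) := by
      linear_combination (2627 / 1825938518040 : ℂ) * E1 + (973151 / 3469283184276 : ℂ) * E2 +
        (18197 / 69385663685520 : ℂ) * E3 + (-1429121 / 17346415921380 : ℂ) * E4
    have ec : c = N * (3397021 / 256983939576) := by
      linear_combination (31 / 34692831842760 : ℂ) * E1 + (18197 / 69385663685520 : ℂ) * E2 +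
        (12272003 / 138771327371040 : ℂ) * E3 + (-157915 / 1734641592138 : ℂ) * E4
    have ed : d = N * (-46997003 / 32122992447) := by
      linear_combination (11887 / 17346415921380 : ℂ) * E1 + (-1429121 / 17346415921380 : ℂ) * E2 +
        (-157915 / 1734641592138 : ℂ) * E3 + (-415472431 / 8673207960690 : ℂ) * E4
    refine ⟨v, hv, ?_⟩
    rw [← hyv, hab, ea, eb, ec, ed]
    simp only [e7e_cons, e7e_nil, Nat.cast_ofNat]

end

end WPQ
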