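import Pool.Agent.WPQ.END
import Pool.Agent.WPQ.EN3

/-! [WPQ-E7f] Full Q1 of MP_c42e9d_al, block EN.

Plan (E7d, E7f of W_DE_2.md).  `theorem e7f (hc : st_E7c) (he : st_E7e) : st_E7f`.  `Z j = mode (mode u j u') (10-j) x`, `j = 0..`.  `mode_comm` (VA3) for `(u, u')` with modes
`(m', 10 - m')`, `2 ≤ m' ≤ 8`: both products vanish on `x`, so `∑_j choose(m', j) Z j = 0` (`Z j = 0` for `j ≥ 12` since `mode u j u' ∈ Wn (11-j) = 0`).  The combination
`R_7 - 5 R_6 + 10 R_5 - 10 R_4 + 5 R_3 - R_2` is `Z 5 + 2 Z 6 + Z 7 = 0`.  By E7e and E7c (`h = 397`, `mode` is linear in the vector: `mode_add`, `mode_smul`):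
`Z 7 = N (31/587860 oW [2,2] - 1797/587860 oW [4]) x = N 1385133/293930 x`, `Z 6 = -N 1973487/146965 x`, `Z 5 = N 20155788853/2379480922 x` (the `Prim0 6` part `v` gives `mode v 5 x = 0`),
`oW [2,2] = (2+h) h`, `oW [4] = 3h`, `oW [5] = -4h`, `oW [3,2] = -(2+2h) h`, `oW [2,2,2] = (4+h)(2+h) h`, `oW [4,2] = (2+3h) h`, `oW [3,3] = (3+2h) 2h`, `oW [6] = 5h`.
`Z 5 + 2 Z 6 + Z 7 = -N (16267836049/1189740461) x`, so `x = 0`. -/

namespace WPQ

open MvPolynomial AF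

noncomputable section

theorem e7f_comb {V : Type} [AddCommGroup V] [Module ℂ V] (Z : ℕ → V)
    (h : ∀ m : ℕ, 2 ≤ m → m ≤ 7 →
      ∑ j ∈ Finset.range 12, ((Ring.choose (m : ℤ) j : ℤ) : ℂ) • Z j = 0) :
    Z 5 + (2 : ℂ) • Z 6 + Z 7 = 0 := by
  have h' : ∀ m : ℕ, 2 ≤ m → m ≤ 7 →
      ∑ j ∈ Finset.range 12, (((m.choose j : ℕ) : ℂ)) • Z j = 0 := by
    intro m h1 h2
    rw [← h m h1 h2]
    refine Finset.sum_congr rfl fun j _ => ?_
    rw [Ring.choose_natCast]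
    push_cast
    rfl
  have r2 := h' 2 (by norm_num) (by norm_num)
  have r3 := h' 3 (by norm_num) (by norm_num)
  have r4 := h' 4 (by norm_num) (by norm_num)
  have r5 := h' 5 (by norm_num) (by norm_num)
  have r6 := h' 6 (by norm_num) (by norm_num)
  have r7 := h' 7 (by norm_num) (by norm_num)
  simp only [Finset.sum_range_succ, Finset.sum_range_zero, Nat.choose] at r2 r3 r4 r5 r6 r7
  norm_num at r2 r3 r4 r5 r6 r7
  have e : Z 5 + (2 : ℂ) • Z 6 + Z 7 =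
      (Z 0 + (7 : ℂ) • Z 1 + (21 : ℂ) • Z 2 + (35 : ℂ) • Z 3 + (35 : ℂ) • Z 4 + (21 : ℂ) • Z 5 +
        (7 : ℂ) • Z 6 + Z 7) -
      (5 : ℂ) • (Z 0 + (6 : ℂ) • Z 1 + (15 : ℂ) • Z 2 + (20 : ℂ) • Z 3 + (15 : ℂ) • Z 4 +
        (6 : ℂ) • Z 5 + Z 6) +
      (10 : ℂ) • (Z 0 + (5 : ℂ) • Z 1 + (10 : ℂ) • Z 2 + (10 : ℂ) • Z 3 + (5 : ℂ) • Z 4 + Z 5) -
      (10 : ℂ) • (Z 0 + (4 : ℂ) • Z 1 + (6 : ℂ) • Z 2 + (4 : ℂ) • Z 3 + Z 4) +
      (5 : ℂ) • (Z 0 + (3 : ℂ) • Z 1 + (3 : ℂ) • Z 2 + Z 3) -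
      (Z 0 + (2 : ℂ) • Z 1 + Z 2) := by module
  rw [e, r2, r3, r4, r5, r6, r7]
  simp

theorem e7f (hc : st_E7c) (he : st_E7e) : st_E7f := by
  intro ι _ _ A hA p hp hcc hV5 hV6 ε u u' N hu hu' hN hN11 x hx hkill
  have hp1 : 1 ≤ p := by omega
  have hcx := hc ι A hA p hp ε 397 x hx
  obtain ⟨h7, h6, v, hv, h5⟩ := he ι A hA p hp hcc hV5 hV6 ε u u' N hu hu' hN11
  -- the vanishing
  have hM : ∀ j : ℕ, 12 ≤ j → mode ε u j u' = 0 := by
    intro j hj
    have h1 := mode_Wn hA hp ε 6 6 j u u' hu.1.1 hu'.1.1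
    rw [Wn_neg hA hp _ (by omega), Submodule.mem_bot] at h1
    exact h1
  have hZ := e7f_comb (fun j => mode ε (mode ε u j u') (10 - (j : ℤ)) x) (by
    intro m h1 h2
    have h3 := LinearMap.congr_fun (mode_comm hA hp1 ε u u' 12 hM (m : ℤ) (10 - (m : ℤ))) x
    rw [LinearMap.sub_apply, LinearMap.comp_apply, LinearMap.comp_apply,
      hkill u' hu' (10 - (m : ℤ)) (by omega), hkill u hu (m : ℤ) (by omega), map_zero, map_zero,
      sub_zero, LinearMap.sum_apply] at h3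
    rw [h3]
    refine Finset.sum_congr rfl fun j _ => ?_
    rw [LinearMap.smul_apply]
    congr 3
    ring)
  have z7 : mode ε (mode ε u 7 u') 3 x = (N * (1385133 / 293930)) • x := by
    have a1 := (hcx [2, 2] (by simp)).2
    have a2 := (hcx [4] (by simp)).2
    norm_num [oW] at a1 a2
    rw [h7, mode_add hA hp1, mode_smul hA hp1, mode_smul hA hp1, LinearMap.add_apply,
      LinearMap.smul_apply, LinearMap.smul_apply, a1, a2, smul_smul, smul_smul, ← add_smul]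
    congr 1
    ring
  have z6 : mode ε (mode ε u 6 u') 4 x = (-N * (1973487 / 146965)) • x := by
    have a1 := (hcx [5] (by simp)).2
    have a2 := (hcx [3, 2] (by simp)).2
    norm_num [oW] at a1 a2
    rw [h6, mode_add hA hp1, mode_smul hA hp1, mode_smul hA hp1, LinearMap.add_apply,
      LinearMap.smul_apply, LinearMap.smul_apply, a1, a2]
    match_scalars
    ring
  have z5 : mode ε (mode ε u 5 u') 5 x = (N * (20155788853 / 2379480922)) • x := by
    have a1 := (hcx [2, 2, 2] (by simp)).2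
    have a2 := (hcx [4, 2] (by simp)).2
    have a3 := (hcx [3, 3] (by simp)).2
    have a4 := (hcx [6] (by simp)).2
    norm_num [oW] at a1 a2 a3 a4
    rw [h5]
    simp only [mode_add hA hp1, mode_smul hA hp1, LinearMap.add_apply, LinearMap.smul_apply]
    rw [a1, a2, a3, a4, hkill v hv 5 (by norm_num)]
    match_scalars
    ring
  norm_num at hZ
  rw [z5, z6, z7, smul_smul, ← add_smul, ← add_smul] at hZ
  rcases smul_eq_zero.1 hZ with h | h
  · exfalso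
    apply hN
    have h2 : N * (-16267836049 / 1189740461) = 0 := by
      rw [← h]
      ring
    rcases mul_eq_zero.1 h2 with h3 | h3
    · exact h3
    · norm_num at h3
  · exact h

end

end WPQ
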