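import Pool.Agent.WPE.VGD

/-! [WPQ-KDSD] Full Q1: the input from the Drinfeld-Sokolov reduction (definition). -/

namespace WPQ

open MvPolynomial

noncomputable section

variable {ι : Type} [Fintype ι] [DecidableEq ι]

/-- The input from the Drinfeld-Sokolov reduction: `V^G` contains vectors `w_i` whose symbols are basic
invariants; their weights are determined by the heights of the positive roots. -/
def KDS (A : Matrix ι ι ℤ) (p : ℕ) : Prop :=
  ∃ (w : ι → Fock ι) (P : ι → MvPolynomial ι ℂ) (d : ι → ℕ) (c : ℂ),
    WPE.Gens A p w P d ∧ Inv A P d c ∧ (∀ i, 2 ≤ d i) ∧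
    ∀ k : ℕ, 1 ≤ k → (Finset.univ.filter fun i => d i = k + 1).card +
      ((posRoots A).filter fun γ => ht γ = k + 1).card = ((posRoots A).filter fun γ => ht γ = k).card

end

end WPQ
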