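import Pool.Agent.WPQ.END

/-! [WPQ-NE0] Full Q1 of MP_c42e9d_al, block EN.

Plan.  `symm`, `diag`, `off`: `decide` (over `Fin 8`: `intro i j; fin_cases i <;> fin_cases j <;> simp/decide`).  `pos` for `E₈` (Bourbaki
numbering 1-3-4-5-6-7-8, 2-4; here `x 0, ..., x 7`): `∑ x_i A_ij x_j =
2 (x0 - x2/2)^2 + 2 (x1 - x3/2)^2 + (3/2)(x2 - (2/3) x3)^2 + 2 (x7 - x6/2)^2 + (3/2)(x6 - (2/3) x5)^2 + (4/3)(x5 - (3/4) x4)^2
+ (5/4)(x4 - (4/5) x3)^2 + (1/30) x3^2` over `ℚ` (expand the sums with `Fin.sum_univ_succ`, cast to `ℚ`, `ring`/`nlinarith`); all squares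
zero forces `x = 0`.  `E₇`, `E₆`: the same with `x7 = 0` (and `x6 = 0`) (direct: coefficients `1/12`.. can be recomputed, or embed
`Fin 7 → ℤ` into `Fin 8 → ℤ` by zero: the forms agree).  Use `CartanMatrix.E₆` etc. unfolded with `simp [CartanMatrix.E₈, Fin.sum_univ_succ]`. -/

namespace WPQ

open MvPolynomial AF

noncomputable section

theorem ne0_z {a b : ℤ} (h : a ^ 2 ≤ 0) (hb : a = b) : b = 0 := by
  have h1 : a ^ 2 = 0 := le_antisymm h (sq_nonneg a)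
  rw [← hb]
  exact pow_eq_zero_iff (two_ne_zero) |>.1 h1

theorem ne0_E8 (a b c d e f g h : ℤ)
    (hQ : 2 * (a ^ 2 + b ^ 2 + c ^ 2 + d ^ 2 + e ^ 2 + f ^ 2 + g ^ 2 + h ^ 2) -
      2 * (a * c + b * d + c * d + d * e + e * f + f * g + g * h) ≤ 0) :
    a = 0 ∧ b = 0 ∧ c = 0 ∧ d = 0 ∧ e = 0 ∧ f = 0 ∧ g = 0 ∧ h = 0 := by
  have hid : 30 * (2 * a - c) ^ 2 + 30 * (2 * b - d) ^ 2 + 10 * (3 * c - 2 * d) ^ 2 +
      30 * (2 * h - g) ^ 2 + 10 * (3 * g - 2 * f) ^ 2 + 5 * (4 * f - 3 * e) ^ 2 +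
      3 * (5 * e - 4 * d) ^ 2 + 2 * d ^ 2 ≤ 0 := by
    linarith
  have h1 := sq_nonneg (2 * a - c)
  have h2 := sq_nonneg (2 * b - d)
  have h3 := sq_nonneg (3 * c - 2 * d)
  have h4 := sq_nonneg (2 * h - g)
  have h5 := sq_nonneg (3 * g - 2 * f)
  have h6 := sq_nonneg (4 * f - 3 * e)
  have h7 := sq_nonneg (5 * e - 4 * d)
  have h8 := sq_nonneg d
  have k8 : d = 0 := ne0_z (a := d) (by linarith) rfl
  have k7 : 5 * e - 4 * d = 0 := ne0_z (by linarith) rfl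
  have k6 : 4 * f - 3 * e = 0 := ne0_z (by linarith) rfl
  have k5 : 3 * g - 2 * f = 0 := ne0_z (by linarith) rfl
  have k4 : 2 * h - g = 0 := ne0_z (by linarith) rfl
  have k3 : 3 * c - 2 * d = 0 := ne0_z (by linarith) rfl
  have k2 : 2 * b - d = 0 := ne0_z (by linarith) rfl
  have k1 : 2 * a - c = 0 := ne0_z (by linarith) rfl
  omega

theorem ne0_form8 (x : Fin 8 → ℤ) : ∑ i, ∑ j, x i * CartanMatrix.E₈ i j * x j =
    2 * (x 0 ^ 2 + x 1 ^ 2 + x 2 ^ 2 + x 3 ^ 2 + x 4 ^ 2 + x 5 ^ 2 + x 6 ^ 2 + x 7 ^ 2) -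
      2 * (x 0 * x 2 + x 1 * x 3 + x 2 * x 3 + x 3 * x 4 + x 4 * x 5 + x 5 * x 6 + x 6 * x 7) := by
  simp [Fin.sum_univ_eight, CartanMatrix.E₈]
  ring

theorem ne0_form7 (x : Fin 7 → ℤ) : ∑ i, ∑ j, x i * CartanMatrix.E₇ i j * x j =
    2 * (x 0 ^ 2 + x 1 ^ 2 + x 2 ^ 2 + x 3 ^ 2 + x 4 ^ 2 + x 5 ^ 2 + x 6 ^ 2) -
      2 * (x 0 * x 2 + x 1 * x 3 + x 2 * x 3 + x 3 * x 4 + x 4 * x 5 + x 5 * x 6) := by
  simp [Fin.sum_univ_seven, CartanMatrix.E₇]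
  ring

theorem ne0_form6 (x : Fin 6 → ℤ) : ∑ i, ∑ j, x i * CartanMatrix.E₆ i j * x j =
    2 * (x 0 ^ 2 + x 1 ^ 2 + x 2 ^ 2 + x 3 ^ 2 + x 4 ^ 2 + x 5 ^ 2) -
      2 * (x 0 * x 2 + x 1 * x 3 + x 2 * x 3 + x 3 * x 4 + x 4 * x 5) := by
  simp [Fin.sum_univ_six, CartanMatrix.E₆]
  ring

theorem en0 : st_EN0 := by
  refine ⟨⟨?_, ?_, ?_, fun x hx => ?_⟩, ⟨?_, ?_, ?_, fun x hx => ?_⟩, ⟨?_, ?_, ?_, fun x hx => ?_⟩⟩
  · intro i j
    fin_cases i <;> fin_cases j <;> rfl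
  · intro i
    fin_cases i <;> rfl
  · intro i j hij
    fin_cases i <;> fin_cases j <;>
      first | exact Or.inl rfl | exact Or.inr rfl | exact absurd rfl hij
  · by_contra hcon
    rw [not_lt, ne0_form6] at hcon
    obtain ⟨h0, h1, h2, h3, h4, h5, -, -⟩ := ne0_E8 (x 0) (x 1) (x 2) (x 3) (x 4) (x 5) 0 0
      (by linarith)
    apply hx
    funext i
    fin_cases i <;> assumption
  · intro i j
    fin_cases i <;> fin_cases j <;> rfl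
  · intro i
    fin_cases i <;> rfl
  · intro i j hij
    fin_cases i <;> fin_cases j <;>
      first | exact Or.inl rfl | exact Or.inr rfl | exact absurd rfl hij
  · by_contra hcon
    rw [not_lt, ne0_form7] at hcon
    obtain ⟨h0, h1, h2, h3, h4, h5, h6, -⟩ := ne0_E8 (x 0) (x 1) (x 2) (x 3) (x 4) (x 5) (x 6) 0
      (by linarith)
    apply hx
    funext i
    fin_cases i <;> assumption
  · intro i j
    fin_cases i <;> fin_cases j <;> rfl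
  · intro i
    fin_cases i <;> rfl
  · intro i j hij
    fin_cases i <;> fin_cases j <;>
      first | exact Or.inl rfl | exact Or.inr rfl | exact absurd rfl hij
  · by_contra hcon
    rw [not_lt, ne0_form8] at hcon
    obtain ⟨h0, h1, h2, h3, h4, h5, h6, h7⟩ := ne0_E8 (x 0) (x 1) (x 2) (x 3) (x 4) (x 5) (x 6)
      (x 7) hcon
    apply hx
    funext i
    fin_cases i <;> assumption

end

end WPQ
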