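import Pool.Agent.WPQ.END

/-! [WPQ-NE0c] Full Q1 of MP_c42e9d_al, block EN.

Plan.  `cc A p = l - 12 form A p (bg A p) (bg A p)`, `bg A p i = ((p-1)/p) rho A i`, `rho A = A⁻¹ 1`.  `rho` is
`(8,11,15,21,15,8)`, `(17,49/2,33,48,75/2,26,27/2)`, `(46,68,91,135,110,84,57,29)`: check `A.mulVec r = 1` by `decide`/`norm_num` and use that
`A` is invertible over `ℂ` (`det ≠ 0`; e.g. left inverse matrix given explicitly, or `Matrix.inv_mulVec`-type lemmas; `det` by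
`(theorem en0)` positivity or by an explicit inverse matrix `B` with `B * A = 1`, entries: `2 * B` integral for `E₇`, `3 * B` for `E₆`).
Then `form A p bg bg = ((p-1)^2/p) ∑ rho_i = ((p-1)^2/p) R`, `R = 78, 399/2, 620`, and `1 - 6 wR l R p = l - 12 R (p-1)^2/p`. -/

namespace WPQ

open MvPolynomial AF

noncomputable section

theorem ne0c_gen {n : ℕ} (A B : Matrix (Fin n) (Fin n) ℤ) (d R : ℤ) (hd : d ≠ 0)
    (hBA : B * A = d • (1 : Matrix (Fin n) (Fin n) ℤ)) (hR : ∑ i, ∑ j, B i j = R) (p : ℕ)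
    (hp : 1 ≤ p) : cc A p = (n : ℂ) - 12 * (((p : ℂ) - 1) ^ 2 / p * (R / d)) := by
  have hdC : (d : ℂ) ≠ 0 := Int.cast_ne_zero.2 hd
  have hpC : (p : ℂ) ≠ 0 := Nat.cast_ne_zero.2 (by omega)
  have h1 : ((d : ℂ)⁻¹ • B.map (Int.cast : ℤ → ℂ)) * A.map (Int.cast : ℤ → ℂ) = 1 := by
    have h2 : B.map (Int.cast : ℤ → ℂ) * A.map (Int.cast : ℤ → ℂ) =
        (B * A).map (Int.cast : ℤ → ℂ) := by
      ext i j
      rw [Matrix.mul_apply, Matrix.map_apply, Matrix.mul_apply]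
      push_cast
      rfl
    rw [Matrix.smul_mul, h2, hBA]
    ext i j
    rw [Matrix.smul_apply, Matrix.map_apply, Matrix.smul_apply, Matrix.one_apply,
      Matrix.one_apply]
    split_ifs
    · rw [smul_eq_mul, smul_eq_mul, mul_one, inv_mul_cancel₀ hdC]
    · rw [smul_zero, Int.cast_zero, smul_zero]
  have hinv : (A.map (Int.cast : ℤ → ℂ))⁻¹ = (d : ℂ)⁻¹ • B.map (Int.cast : ℤ → ℂ) :=
    Matrix.inv_eq_left_inv h1
  have h3 : A.map (Int.cast : ℤ → ℂ) * (A.map (Int.cast : ℤ → ℂ))⁻¹ = 1 := by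
    rw [hinv]
    exact mul_eq_one_comm.1 h1
  have h4 : ∀ i, ∑ j, (A i j : ℂ) * rho A j = 1 := by
    intro i
    have h5 : (A.map (Int.cast : ℤ → ℂ)).mulVec (rho A) = fun _ => 1 := by
      unfold rho
      rw [Matrix.mulVec_mulVec, h3, Matrix.one_mulVec]
    exact congrFun h5 i
  have h6 : ∑ i, rho A i = R / d := by
    have h7 : ∀ i, rho A i = ∑ j, (d : ℂ)⁻¹ * (B i j : ℂ) := by
      intro i
      unfold rho
      rw [hinv]
      simp only [Matrix.mulVec, dotProduct]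
      refine Finset.sum_congr rfl fun j _ => ?_
      rw [Matrix.smul_apply, Matrix.map_apply, smul_eq_mul, mul_one]
    rw [Finset.sum_congr rfl fun i _ => h7 i]
    simp only [← Finset.mul_sum]
    rw [← hR]
    push_cast
    rw [div_eq_inv_mul]
  have h8 : form A p (bg A p) (bg A p) = ((p : ℂ) - 1) ^ 2 / p * (R / d) := by
    unfold form bg
    have h9 : ∀ i, ∑ j, (((p : ℂ) - 1) / p * rho A i) * (A i j : ℂ) *
        (((p : ℂ) - 1) / p * rho A j) = (((p : ℂ) - 1) / p) ^ 2 * rho A i := by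
      intro i
      have h10 : ∀ j, (((p : ℂ) - 1) / p * rho A i) * (A i j : ℂ) *
          (((p : ℂ) - 1) / p * rho A j) =
          ((((p : ℂ) - 1) / p) ^ 2 * rho A i) * ((A i j : ℂ) * rho A j) := by
        intro j
        ring
      rw [Finset.sum_congr rfl fun j _ => h10 j, ← Finset.mul_sum, h4 i, mul_one]
    rw [Finset.sum_congr rfl fun i _ => h9 i, ← Finset.mul_sum, h6]
    field_simp
  unfold cc
  rw [h8, Fintype.card_fin]

theorem en0c : st_EN0c := by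
  intro p hp
  have hpC : (p : ℂ) ≠ 0 := Nat.cast_ne_zero.2 (by omega)
  refine ⟨?_, ?_, ?_⟩
  · rw [ne0c_gen CartanMatrix.E₆ !![4, 3, 5, 6, 4, 2; 3, 6, 6, 9, 6, 3; 5, 6, 10, 12, 8, 4;
      6, 9, 12, 18, 12, 6; 4, 6, 8, 12, 10, 5; 2, 3, 4, 6, 5, 4] 3 234 (by decide)
      (by decide +kernel) (by decide +kernel) p hp]
    unfold wR
    push_cast
    field_simp
    ring
  · rw [ne0c_gen CartanMatrix.E₇ !![4, 4, 6, 8, 6, 4, 2; 4, 7, 8, 12, 9, 6, 3;
      6, 8, 12, 16, 12, 8, 4; 8, 12, 16, 24, 18, 12, 6; 6, 9, 12, 18, 15, 10, 5;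
      4, 6, 8, 12, 10, 8, 4; 2, 3, 4, 6, 5, 4, 3] 2 399 (by decide)
      (by decide +kernel) (by decide +kernel) p hp]
    unfold wR
    push_cast
    field_simp
    ring
  · rw [ne0c_gen CartanMatrix.E₈ !![4, 5, 7, 10, 8, 6, 4, 2; 5, 8, 10, 15, 12, 9, 6, 3;
      7, 10, 14, 20, 16, 12, 8, 4; 10, 15, 20, 30, 24, 18, 12, 6; 8, 12, 16, 24, 20, 15, 10, 5;
      6, 9, 12, 18, 15, 12, 8, 4; 4, 6, 8, 12, 10, 8, 6, 3; 2, 3, 4, 6, 5, 4, 3, 2] 1 620
      (by decide) (by decide +kernel) (by decide +kernel) p hp]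
    unfold wR
    push_cast
    field_simp
    ring

end

end WPQ
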