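import Pool.Agent.WPQ.END

/-! [WPQ-NE0n] Full Q1 of MP_c42e9d_al, block EN.

Plan.  `w = N/(6p)`, `N = -5p + 936 (p-1)^2` (E6), `-6p + 2394 (p-1)^2` (E7), `-7p + 7440 (p-1)^2` (E8) (integers, positive).
`w (w + 4) = N (N + 24 p)/(36 p^2)`: a square in `ℚ` iff `N (N + 24p)` is a square in `ℤ` (see `nt_R3`, NT2/NT3, and the helper lemmas there
about `IsSquare` of rationals, `Rat.isSquare_iff` / `Nat`/`Int` versions).  `N (N + 24p) = (N + 12p)^2 - 144 p^2 = k^2`, `0 ≤ k < N + 12p`, so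
`k ≤ N + 12p - 1` and `144 p^2 ≥ 2 (N + 12p) - 1`; but `2 (N + 12 p) - 1 > 144 p^2` for all `p ≥ 2` (`(p-1)^2 ≥ p^2/4`): contradiction.
The inequalities `0 < w` and `h^∨ < 3w/4 + 4` are elementary (`w ≥ 77`). -/

namespace WPQ

open MvPolynomial AF

noncomputable section

theorem ne0n_int (P N : ℤ) (hP : 2 ≤ P) (hN : 0 < N) (h : 144 * P ^ 2 < 2 * (N + 12 * P) - 1) :
    ¬ IsSquare (N * (N + 24 * P)) := by
  rintro ⟨k, hk⟩
  have h1 : |k| ^ 2 = (N + 12 * P) ^ 2 - 144 * P ^ 2 := by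
    rw [sq_abs]
    linarith [hk, sq k, sq (N + 12 * P), mul_comm k k]
  have h0 : 0 ≤ |k| := abs_nonneg k
  have h2 : |k| < N + 12 * P := by
    nlinarith
  have h3 : |k| ≤ N + 12 * P - 1 := by omega
  nlinarith

theorem ne0n_main (l : ℕ) (R : ℚ) (hv : ℤ) (p : ℕ) (hp : 2 ≤ p) (c K : ℤ) (hc : c ≤ 7)
    (hK : 936 ≤ K) (hv2 : 16 * (hv - 4) + 14 < K)
    (hw : wR l R p = ((-c * p + K * ((p : ℤ) - 1) ^ 2 : ℤ) : ℚ) / (6 * p)) :
    0 < wR l R p ∧ ((hv : ℤ) : ℚ) < 3 * wR l R p / 4 + 4 ∧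
      ¬ IsSquare (wR l R p * (wR l R p + 4)) := by
  have hP : (2 : ℤ) ≤ p := by exact_mod_cast hp
  have hPq : (2 : ℚ) ≤ p := by exact_mod_cast hp
  have hPq0 : (0 : ℚ) < p := by linarith
  set P : ℤ := (p : ℤ) with hPdef
  set N : ℤ := -c * P + K * (P - 1) ^ 2 with hN
  have e1 : P ^ 2 ≤ 4 * (P - 1) ^ 2 := by nlinarith
  have e2 : K * P ^ 2 ≤ 4 * (K * (P - 1) ^ 2) := by nlinarith
  have e3 : c * P ≤ 7 * P := by nlinarith
  have e4 : 2 * P ≤ P ^ 2 := by nlinarith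
  have e5 : K * (2 * P) ≤ K * P ^ 2 := mul_le_mul_of_nonneg_left e4 (by linarith)
  have hN1 : K * P - 14 * P ≤ 2 * N := by
    rw [hN]; nlinarith
  have hN2 : 936 * P ^ 2 ≤ K * P ^ 2 := mul_le_mul_of_nonneg_right hK (sq_nonneg _)
  have hN3 : 468 * P ^ 2 - 14 * P ≤ 2 * N := by
    rw [hN]; nlinarith
  have hNpos : 0 < N := by nlinarith
  have hN4 : 16 * (hv - 4) * P < 2 * N := by
    have : (16 * (hv - 4) + 14) * P < K * P := mul_lt_mul_of_pos_right hv2 (by linarith)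
    nlinarith
  have hNq : ((N : ℤ) : ℚ) = 6 * p * wR l R p := by
    rw [hw]; field_simp
  have hwpos : 0 < wR l R p := by
    rw [hw]
    have : (0 : ℚ) < ((N : ℤ) : ℚ) := by exact_mod_cast hNpos
    positivity
  refine ⟨hwpos, ?_, ?_⟩
  · have h5 : (16 * ((hv : ℚ) - 4)) * p < 2 * ((N : ℤ) : ℚ) := by
      have h6 : ((16 * (hv - 4) * P : ℤ) : ℚ) < ((2 * N : ℤ) : ℚ) := by exact_mod_cast hN4
      rw [hPdef] at h6
      push_cast at h6
      push_cast
      exact h6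
    rw [hNq] at h5
    have h7 : (16 * ((hv : ℚ) - 4)) * p < (12 * wR l R p) * p := by linarith
    have h8 := lt_of_mul_lt_mul_right h7 hPq0.le
    linarith
  · intro hsq
    have h9 : IsSquare (((N * (N + 24 * P) : ℤ)) : ℚ) := by
      obtain ⟨r, hr⟩ := hsq
      refine ⟨6 * p * r, ?_⟩
      push_cast
      rw [hNq]
      have : (P : ℚ) = p := by rw [hPdef]; push_cast; rfl
      rw [this]
      calc 6 * (p : ℚ) * wR l R p * (6 * p * wR l R p + 24 * p)
          = 36 * p ^ 2 * (wR l R p * (wR l R p + 4)) := by ring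
        _ = 36 * p ^ 2 * (r * r) := by rw [hr]
        _ = 6 * p * r * (6 * p * r) := by ring
    rw [Rat.isSquare_intCast_iff] at h9
    exact ne0n_int P N hP hNpos (by nlinarith) h9

theorem en0n : st_EN0n := by
  intro p hp lR hlR
  have hPq0 : (0 : ℚ) < p := by
    have : 0 < p := by omega
    exact_mod_cast this
  simp only [List.mem_cons, List.not_mem_nil, or_false] at hlR
  rcases hlR with rfl | rfl | rfl
  · refine ne0n_main 6 78 12 p hp 5 936 (by norm_num) (by norm_num) (by norm_num) ?_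
    unfold wR
    push_cast
    field_simp
    ring
  · refine ne0n_main 7 (399 / 2) 18 p hp 6 2394 (by norm_num) (by norm_num) (by norm_num) ?_
    unfold wR
    push_cast
    field_simp
    ring
  · refine ne0n_main 8 620 30 p hp 7 7440 (by norm_num) (by norm_num) (by norm_num) ?_
    unfold wR
    push_cast
    field_simp
    ring

end

end WPQ
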