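import Pool.Agent.WPQ.END

/-! [WPQ-NE1] Full Q1 of MP_c42e9d_al, block EN.

Plan.  `IsADE.pos` (theorem en0, may be added as hypothesis `(h0 : st_EN0)`) for the integral vector `c = 2R ν - 2 ht(ν) ρ` (or `c = R ν - ht ρ`), `ρ` as in EN0c
(`A ρ = (1,..,1)`): `0 ≤ ∑ c A c = 4R^2 |ν|^2 - 8R ht^2 + 4 ht^2 R`, so `R |ν|^2 ≥ ht^2`.  `formZ A 1 ν ν = ∑ ν_i A_ij ν_j`.  Alternatively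
direct: expand with `Fin.sum_univ_succ` and give the sum of squares of EN0. -/

namespace WPQ

open MvPolynomial AF

noncomputable section

/-- `E₆`: `6 |x|²` is a sum of squares, applied to `x = 78 ν - ht(ν) ρ`. -/
private theorem ne1_6 (x0 x1 x2 x3 x4 x5 : ℤ) :
    (x0 + x1 + x2 + x3 + x4 + x5) ^ 2 ≤ 78 * (2 * (x0 ^ 2 + x1 ^ 2 + x2 ^ 2 + x3 ^ 2 + x4 ^ 2 +
      x5 ^ 2 - x0 * x2 - x1 * x3 - x2 * x3 - x3 * x4 - x4 * x5)) := by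
  obtain ⟨h, hh⟩ : ∃ h, h = x0 + x1 + x2 + x3 + x4 + x5 := ⟨_, rfl⟩
  obtain ⟨y0, h0⟩ : ∃ y, y = 78 * x0 - 8 * h := ⟨_, rfl⟩
  obtain ⟨y1, h1⟩ : ∃ y, y = 78 * x1 - 11 * h := ⟨_, rfl⟩
  obtain ⟨y2, h2⟩ : ∃ y, y = 78 * x2 - 15 * h := ⟨_, rfl⟩
  obtain ⟨y3, h3⟩ : ∃ y, y = 78 * x3 - 21 * h := ⟨_, rfl⟩
  obtain ⟨y4, h4⟩ : ∃ y, y = 78 * x4 - 15 * h := ⟨_, rfl⟩
  obtain ⟨y5, h5⟩ : ∃ y, y = 78 * x5 - 8 * h := ⟨_, rfl⟩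
  have key : 3 * (2 * y0 - y2) ^ 2 + 3 * (2 * y1 - y3) ^ 2 + (3 * y2 - 2 * y3) ^ 2 +
      3 * (2 * y5 - y4) ^ 2 + (3 * y4 - 2 * y3) ^ 2 + y3 ^ 2 =
      6 * 78 * (78 * (2 * (x0 ^ 2 + x1 ^ 2 + x2 ^ 2 + x3 ^ 2 + x4 ^ 2 +
      x5 ^ 2 - x0 * x2 - x1 * x3 - x2 * x3 - x3 * x4 - x4 * x5)) - h ^ 2) := by
    rw [h0, h1, h2, h3, h4, h5, hh]
    ring
  have e0 := sq_nonneg (2 * y0 - y2)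
  have e1 := sq_nonneg (2 * y1 - y3)
  have e2 := sq_nonneg (3 * y2 - 2 * y3)
  have e3 := sq_nonneg (2 * y5 - y4)
  have e4 := sq_nonneg (3 * y4 - 2 * y3)
  have e5 := sq_nonneg y3
  rw [← hh]
  linarith

/-- `E₇`: `12 |x|²` is a sum of squares, applied to `x = 399 ν - 2 ht(ν) ρ`. -/
private theorem ne1_7 (x0 x1 x2 x3 x4 x5 x6 : ℤ) :
    2 * (x0 + x1 + x2 + x3 + x4 + x5 + x6) ^ 2 ≤ 399 * (2 * (x0 ^ 2 + x1 ^ 2 + x2 ^ 2 + x3 ^ 2 +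
      x4 ^ 2 + x5 ^ 2 + x6 ^ 2 - x0 * x2 - x1 * x3 - x2 * x3 - x3 * x4 - x4 * x5 - x5 * x6)) := by
  obtain ⟨h, hh⟩ : ∃ h, h = x0 + x1 + x2 + x3 + x4 + x5 + x6 := ⟨_, rfl⟩
  obtain ⟨y0, h0⟩ : ∃ y, y = 399 * x0 - 34 * h := ⟨_, rfl⟩
  obtain ⟨y1, h1⟩ : ∃ y, y = 399 * x1 - 49 * h := ⟨_, rfl⟩
  obtain ⟨y2, h2⟩ : ∃ y, y = 399 * x2 - 66 * h := ⟨_, rfl⟩
  obtain ⟨y3, h3⟩ : ∃ y, y = 399 * x3 - 96 * h := ⟨_, rfl⟩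
  obtain ⟨y4, h4⟩ : ∃ y, y = 399 * x4 - 75 * h := ⟨_, rfl⟩
  obtain ⟨y5, h5⟩ : ∃ y, y = 399 * x5 - 52 * h := ⟨_, rfl⟩
  obtain ⟨y6, h6⟩ : ∃ y, y = 399 * x6 - 27 * h := ⟨_, rfl⟩
  have key : 6 * (2 * y0 - y2) ^ 2 + 6 * (2 * y1 - y3) ^ 2 + 2 * (3 * y2 - 2 * y3) ^ 2 +
      6 * (2 * y6 - y5) ^ 2 + 2 * (3 * y5 - 2 * y4) ^ 2 + (4 * y4 - 3 * y3) ^ 2 + y3 ^ 2 =
      12 * 399 * (399 * (2 * (x0 ^ 2 + x1 ^ 2 + x2 ^ 2 + x3 ^ 2 + x4 ^ 2 + x5 ^ 2 + x6 ^ 2 -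
      x0 * x2 - x1 * x3 - x2 * x3 - x3 * x4 - x4 * x5 - x5 * x6)) - 2 * h ^ 2) := by
    rw [h0, h1, h2, h3, h4, h5, h6, hh]
    ring
  have e0 := sq_nonneg (2 * y0 - y2)
  have e1 := sq_nonneg (2 * y1 - y3)
  have e2 := sq_nonneg (3 * y2 - 2 * y3)
  have e3 := sq_nonneg (2 * y6 - y5)
  have e4 := sq_nonneg (3 * y5 - 2 * y4)
  have e5 := sq_nonneg (4 * y4 - 3 * y3)
  have e6 := sq_nonneg y3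
  rw [← hh]
  linarith

/-- `E₈`: `60 |x|²` is a sum of squares, applied to `x = 620 ν - ht(ν) ρ`. -/
private theorem ne1_8 (x0 x1 x2 x3 x4 x5 x6 x7 : ℤ) :
    (x0 + x1 + x2 + x3 + x4 + x5 + x6 + x7) ^ 2 ≤ 620 * (2 * (x0 ^ 2 + x1 ^ 2 + x2 ^ 2 + x3 ^ 2 +
      x4 ^ 2 + x5 ^ 2 + x6 ^ 2 + x7 ^ 2 - x0 * x2 - x1 * x3 - x2 * x3 - x3 * x4 - x4 * x5 -
      x5 * x6 - x6 * x7)) := by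
  obtain ⟨h, hh⟩ : ∃ h, h = x0 + x1 + x2 + x3 + x4 + x5 + x6 + x7 := ⟨_, rfl⟩
  obtain ⟨y0, h0⟩ : ∃ y, y = 620 * x0 - 46 * h := ⟨_, rfl⟩
  obtain ⟨y1, h1⟩ : ∃ y, y = 620 * x1 - 68 * h := ⟨_, rfl⟩
  obtain ⟨y2, h2⟩ : ∃ y, y = 620 * x2 - 91 * h := ⟨_, rfl⟩
  obtain ⟨y3, h3⟩ : ∃ y, y = 620 * x3 - 135 * h := ⟨_, rfl⟩
  obtain ⟨y4, h4⟩ : ∃ y, y = 620 * x4 - 110 * h := ⟨_, rfl⟩
  obtain ⟨y5, h5⟩ : ∃ y, y = 620 * x5 - 84 * h := ⟨_, rfl⟩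
  obtain ⟨y6, h6⟩ : ∃ y, y = 620 * x6 - 57 * h := ⟨_, rfl⟩
  obtain ⟨y7, h7⟩ : ∃ y, y = 620 * x7 - 29 * h := ⟨_, rfl⟩
  have key : 30 * (2 * y0 - y2) ^ 2 + 30 * (2 * y1 - y3) ^ 2 + 10 * (3 * y2 - 2 * y3) ^ 2 +
      30 * (2 * y7 - y6) ^ 2 + 10 * (3 * y6 - 2 * y5) ^ 2 + 5 * (4 * y5 - 3 * y4) ^ 2 +
      3 * (5 * y4 - 4 * y3) ^ 2 + 2 * y3 ^ 2 =
      60 * 620 * (620 * (2 * (x0 ^ 2 + x1 ^ 2 + x2 ^ 2 + x3 ^ 2 + x4 ^ 2 + x5 ^ 2 + x6 ^ 2 +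
      x7 ^ 2 - x0 * x2 - x1 * x3 - x2 * x3 - x3 * x4 - x4 * x5 - x5 * x6 - x6 * x7)) - h ^ 2) := by
    rw [h0, h1, h2, h3, h4, h5, h6, h7, hh]
    ring
  have e0 := sq_nonneg (2 * y0 - y2)
  have e1 := sq_nonneg (2 * y1 - y3)
  have e2 := sq_nonneg (3 * y2 - 2 * y3)
  have e3 := sq_nonneg (2 * y7 - y6)
  have e4 := sq_nonneg (3 * y6 - 2 * y5)
  have e5 := sq_nonneg (4 * y5 - 3 * y4)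
  have e6 := sq_nonneg (5 * y4 - 4 * y3)
  have e7 := sq_nonneg y3
  rw [← hh]
  linarith

theorem en1c : st_EN1 := by
  refine ⟨fun ν => ?_, fun ν => ?_, fun ν => ?_⟩
  · have h1 : ∑ i, ν i = ν 0 + ν 1 + ν 2 + ν 3 + ν 4 + ν 5 := by
      simp only [Fin.sum_univ_six]
    have h2 : formZ CartanMatrix.E₆ 1 ν ν = 2 * (ν 0 ^ 2 + ν 1 ^ 2 + ν 2 ^ 2 + ν 3 ^ 2 + ν 4 ^ 2 +
        ν 5 ^ 2 - ν 0 * ν 2 - ν 1 * ν 3 - ν 2 * ν 3 - ν 3 * ν 4 - ν 4 * ν 5) := by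
      simp only [formZ, Fin.sum_univ_six]
      simp [CartanMatrix.E₆]
      ring
    rw [h1, h2]
    exact ne1_6 _ _ _ _ _ _
  · have h1 : ∑ i, ν i = ν 0 + ν 1 + ν 2 + ν 3 + ν 4 + ν 5 + ν 6 := by
      simp only [Fin.sum_univ_seven]
    have h2 : formZ CartanMatrix.E₇ 1 ν ν = 2 * (ν 0 ^ 2 + ν 1 ^ 2 + ν 2 ^ 2 + ν 3 ^ 2 + ν 4 ^ 2 +
        ν 5 ^ 2 + ν 6 ^ 2 - ν 0 * ν 2 - ν 1 * ν 3 - ν 2 * ν 3 - ν 3 * ν 4 - ν 4 * ν 5 -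
        ν 5 * ν 6) := by
      simp only [formZ, Fin.sum_univ_seven]
      simp [CartanMatrix.E₇]
      ring
    rw [h1, h2]
    exact ne1_7 _ _ _ _ _ _ _
  · have h1 : ∑ i, ν i = ν 0 + ν 1 + ν 2 + ν 3 + ν 4 + ν 5 + ν 6 + ν 7 := by
      simp only [Fin.sum_univ_eight]
    have h2 : formZ CartanMatrix.E₈ 1 ν ν = 2 * (ν 0 ^ 2 + ν 1 ^ 2 + ν 2 ^ 2 + ν 3 ^ 2 + ν 4 ^ 2 +
        ν 5 ^ 2 + ν 6 ^ 2 + ν 7 ^ 2 - ν 0 * ν 2 - ν 1 * ν 3 - ν 2 * ν 3 - ν 3 * ν 4 - ν 4 * ν 5 -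
        ν 5 * ν 6 - ν 6 * ν 7) := by
      simp only [formZ, Fin.sum_univ_eight]
      simp [CartanMatrix.E₈]
      ring
    rw [h1, h2]
    exact ne1_8 _ _ _ _ _ _ _ _

end

end WPQ
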