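import Pool.Agent.WPQ.END

/-! [WPQ-NE2e6] Full Q1 of MP_c42e9d_al, block EN.

Plan.  Strong induction on the height as in EN2e8.  List `L` (root coordinates; |.|^2; ht): 2: 1 2 2 3 2 1; 2; 11.  4: 2 3 4 6 4 2; 6; 21.  1+3: 3 3 5 6 4 2; 8; 23.
1+6: 2 2 3 4 3 2; 4; 16.  3+5: 3 4 6 8 6 3; 12; 30.  5+6: 2 3 4 6 5 3; 8; 23.  1+1+1: 4 3 5 6 4 2; 12; 24.  1+1+5: 4 4 6 8 6 3; 14; 31.
1+5+5: 4 5 7 10 8 4; 20; 38.  5+5+5: 4 6 8 12 10 5; 30; 45.  3+3+3: 5 6 10 12 8 4; 30; 45.  3+3+6: 4 5 8 10 7 4; 20; 38.  3+6+6: 3 4 6 8 6 4; 14; 31.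
6+6+6: 2 3 4 6 5 4; 12; 24.  For `ν ≠ 0` dominant: `m_2 ≥ 1` or `m_4 ≥ 1`, or `m_1+m_5+2m_3+2m_6 ≡ 0 mod 3` (from integrality of `ν`, `omega`): if
`m_1+m_5 ≥ 1` and `m_3+m_6 ≥ 1` a pair fits, otherwise three from `{1,5}` or three from `{3,6}`.  Cost: `q(λ) ≤ L(λ)` on the list where
`L = 10 (m_1+m_6) + 12 m_2 + 20 (m_3+m_5) + 24 m_4` is additive (`pr` is additive): q = 12, 24, 27, 18, 36, 27, 30, 38, 48, 60, 60, 48, 38, 30. -/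

namespace WPQ

open MvPolynomial AF

noncomputable section

/-- the weight of the decomposition -/
def ne2e6_L (ν : Fin 6 → ℤ) : ℤ := 10 * (pr CartanMatrix.E₆ 0 ν + pr CartanMatrix.E₆ 5 ν) +
      12 * pr CartanMatrix.E₆ 1 ν + 20 * (pr CartanMatrix.E₆ 2 ν + pr CartanMatrix.E₆ 4 ν) +
      24 * pr CartanMatrix.E₆ 3 ν

/-- the induction parameter -/
def ne2e6_M (ν : Fin 6 → ℤ) : ℤ := pr CartanMatrix.E₆ 0 ν + pr CartanMatrix.E₆ 1 ν +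
  pr CartanMatrix.E₆ 2 ν + pr CartanMatrix.E₆ 3 ν + pr CartanMatrix.E₆ 4 ν + pr CartanMatrix.E₆ 5 ν

/-- the conclusion -/
def ne2e6_P (ν : Fin 6 → ℤ) : Prop :=
  ∃ ls : List (Fin 6 → ℤ), (∀ lam ∈ ls, lam ≠ 0 ∧ Dom CartanMatrix.E₆ lam) ∧ ls.sum = ν ∧
    (ls.map (qN CartanMatrix.E₆)).sum ≤ ne2e6_L ν

theorem ne2e6_pr0 (ν : Fin 6 → ℤ) : pr CartanMatrix.E₆ 0 ν = 2 * ν 0 - ν 2 := by
  simp [pr, Fin.sum_univ_six, CartanMatrix.E₆]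
  ring

theorem ne2e6_pr1 (ν : Fin 6 → ℤ) : pr CartanMatrix.E₆ 1 ν = 2 * ν 1 - ν 3 := by
  simp [pr, Fin.sum_univ_six, CartanMatrix.E₆]
  ring

theorem ne2e6_pr2 (ν : Fin 6 → ℤ) : pr CartanMatrix.E₆ 2 ν = 2 * ν 2 - ν 0 - ν 3 := by
  simp [pr, Fin.sum_univ_six, CartanMatrix.E₆]
  ring

theorem ne2e6_pr3 (ν : Fin 6 → ℤ) : pr CartanMatrix.E₆ 3 ν = 2 * ν 3 - ν 1 - ν 2 - ν 4 := by
  simp [pr, Fin.sum_univ_six, CartanMatrix.E₆]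
  ring

theorem ne2e6_pr4 (ν : Fin 6 → ℤ) : pr CartanMatrix.E₆ 4 ν = 2 * ν 4 - ν 3 - ν 5 := by
  simp [pr, Fin.sum_univ_six, CartanMatrix.E₆]
  ring

theorem ne2e6_pr5 (ν : Fin 6 → ℤ) : pr CartanMatrix.E₆ 5 ν = 2 * ν 5 - ν 4 := by
  simp [pr, Fin.sum_univ_six, CartanMatrix.E₆]
  ring

theorem ne2e6_q (x : Fin 6 → ℤ) : qN CartanMatrix.E₆ x =
    (x 0 ^ 2 + x 1 ^ 2 + x 2 ^ 2 + x 3 ^ 2 + x 4 ^ 2 + x 5 ^ 2) -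
      (x 0 * x 2 + x 1 * x 3 + x 2 * x 3 + x 3 * x 4 + x 4 * x 5) +
      (x 0 + x 1 + x 2 + x 3 + x 4 + x 5) := by
  have h : formZ CartanMatrix.E₆ 1 x x =
      ((x 0 ^ 2 + x 1 ^ 2 + x 2 ^ 2 + x 3 ^ 2 + x 4 ^ 2 + x 5 ^ 2) -
      (x 0 * x 2 + x 1 * x 3 + x 2 * x 3 + x 3 * x 4 + x 4 * x 5)) * 2 := by
    simp [formZ, Fin.sum_univ_six, CartanMatrix.E₆]
    ring
  unfold qN
  rw [h, Int.mul_ediv_cancel _ (by norm_num), Fin.sum_univ_six]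

theorem ne2e6_pr_sub (j : Fin 6) (μ lam : Fin 6 → ℤ) :
    pr CartanMatrix.E₆ j (μ - lam) = pr CartanMatrix.E₆ j μ - pr CartanMatrix.E₆ j lam := by
  unfold pr
  rw [← Finset.sum_sub_distrib]
  exact Finset.sum_congr rfl fun i _ => by rw [Pi.sub_apply, mul_sub]

theorem ne2e6_try (ν lam : Fin 6 → ℤ) (a0 a1 a2 a3 a4 a5 : ℤ)
    (ih : ∀ μ : Fin 6 → ℤ, Dom CartanMatrix.E₆ μ → ne2e6_M μ < ne2e6_M ν → ne2e6_P μ)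
    (h0 : pr CartanMatrix.E₆ 0 lam = a0) (h1 : pr CartanMatrix.E₆ 1 lam = a1)
    (h2 : pr CartanMatrix.E₆ 2 lam = a2) (h3 : pr CartanMatrix.E₆ 3 lam = a3)
    (h4 : pr CartanMatrix.E₆ 4 lam = a4) (h5 : pr CartanMatrix.E₆ 5 lam = a5)
    (hs : 1 ≤ a0 + a1 + a2 + a3 + a4 + a5)
    (k0 : 0 ≤ a0 ∧ a0 ≤ pr CartanMatrix.E₆ 0 ν) (k1 : 0 ≤ a1 ∧ a1 ≤ pr CartanMatrix.E₆ 1 ν)
    (k2 : 0 ≤ a2 ∧ a2 ≤ pr CartanMatrix.E₆ 2 ν) (k3 : 0 ≤ a3 ∧ a3 ≤ pr CartanMatrix.E₆ 3 ν)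
    (k4 : 0 ≤ a4 ∧ a4 ≤ pr CartanMatrix.E₆ 4 ν) (k5 : 0 ≤ a5 ∧ a5 ≤ pr CartanMatrix.E₆ 5 ν)
    (hlam : lam ≠ 0)
    (hq : qN CartanMatrix.E₆ lam ≤ 10 * (a0 + a5) + 12 * a1 + 20 * (a2 + a4) + 24 * a3) :
    ne2e6_P ν := by
  have hd' : Dom CartanMatrix.E₆ (ν - lam) := by
    intro j
    rw [ne2e6_pr_sub]
    fin_cases j
    · change 0 ≤ pr CartanMatrix.E₆ 0 ν - pr CartanMatrix.E₆ 0 lam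
      omega
    · change 0 ≤ pr CartanMatrix.E₆ 1 ν - pr CartanMatrix.E₆ 1 lam
      omega
    · change 0 ≤ pr CartanMatrix.E₆ 2 ν - pr CartanMatrix.E₆ 2 lam
      omega
    · change 0 ≤ pr CartanMatrix.E₆ 3 ν - pr CartanMatrix.E₆ 3 lam
      omega
    · change 0 ≤ pr CartanMatrix.E₆ 4 ν - pr CartanMatrix.E₆ 4 lam
      omega
    · change 0 ≤ pr CartanMatrix.E₆ 5 ν - pr CartanMatrix.E₆ 5 lam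
      omega
  have hl' : Dom CartanMatrix.E₆ lam := by
    intro j
    fin_cases j
    · change 0 ≤ pr CartanMatrix.E₆ 0 lam
      omega
    · change 0 ≤ pr CartanMatrix.E₆ 1 lam
      omega
    · change 0 ≤ pr CartanMatrix.E₆ 2 lam
      omega
    · change 0 ≤ pr CartanMatrix.E₆ 3 lam
      omega
    · change 0 ≤ pr CartanMatrix.E₆ 4 lam
      omega
    · change 0 ≤ pr CartanMatrix.E₆ 5 lam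
      omega
  obtain ⟨ls, e1, e2, e3⟩ := ih (ν - lam) hd' (by
    unfold ne2e6_M
    rw [ne2e6_pr_sub, ne2e6_pr_sub, ne2e6_pr_sub, ne2e6_pr_sub, ne2e6_pr_sub, ne2e6_pr_sub]
    omega)
  refine ⟨lam :: ls, ?_, ?_, ?_⟩
  · intro l hl
    rcases List.mem_cons.1 hl with rfl | hl
    · exact ⟨hlam, hl'⟩
    · exact e1 l hl
  · rw [List.sum_cons, e2, add_sub_cancel]
  · rw [List.map_cons, List.sum_cons]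
    unfold ne2e6_L at e3 ⊢
    rw [ne2e6_pr_sub, ne2e6_pr_sub, ne2e6_pr_sub, ne2e6_pr_sub, ne2e6_pr_sub, ne2e6_pr_sub] at e3
    omega

theorem ne2e6_c0 (ν : Fin 6 → ℤ) (hd : Dom CartanMatrix.E₆ ν)
    (ih : ∀ μ : Fin 6 → ℤ, Dom CartanMatrix.E₆ μ → ne2e6_M μ < ne2e6_M ν → ne2e6_P μ)
    (h1 : 1 ≤ pr CartanMatrix.E₆ 1 ν) : ne2e6_P ν := by
  refine ne2e6_try ν ![1, 2, 2, 3, 2, 1] 0 1 0 0 0 0 ih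
    ?_ ?_ ?_ ?_ ?_ ?_ (by omega) ?_ ?_ ?_ ?_ ?_ ?_ ?_ ?_
  · rw [ne2e6_pr0]; simp
  · rw [ne2e6_pr1]; simp
  · rw [ne2e6_pr2]; simp
  · rw [ne2e6_pr3]; simp
  · rw [ne2e6_pr4]; simp
  · rw [ne2e6_pr5]; simp
  · exact ⟨le_rfl, hd 0⟩
  · exact ⟨by norm_num, h1⟩
  · exact ⟨le_rfl, hd 2⟩
  · exact ⟨le_rfl, hd 3⟩
  · exact ⟨le_rfl, hd 4⟩
  · exact ⟨le_rfl, hd 5⟩
  · decide
  · rw [ne2e6_q]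
    simp

theorem ne2e6_c1 (ν : Fin 6 → ℤ) (hd : Dom CartanMatrix.E₆ ν)
    (ih : ∀ μ : Fin 6 → ℤ, Dom CartanMatrix.E₆ μ → ne2e6_M μ < ne2e6_M ν → ne2e6_P μ)
    (h3 : 1 ≤ pr CartanMatrix.E₆ 3 ν) : ne2e6_P ν := by
  refine ne2e6_try ν ![2, 3, 4, 6, 4, 2] 0 0 0 1 0 0 ih
    ?_ ?_ ?_ ?_ ?_ ?_ (by omega) ?_ ?_ ?_ ?_ ?_ ?_ ?_ ?_
  · rw [ne2e6_pr0]; simp
  · rw [ne2e6_pr1]; simp
  · rw [ne2e6_pr2]; simp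
  · rw [ne2e6_pr3]; simp
  · rw [ne2e6_pr4]; simp
  · rw [ne2e6_pr5]; simp
  · exact ⟨le_rfl, hd 0⟩
  · exact ⟨le_rfl, hd 1⟩
  · exact ⟨le_rfl, hd 2⟩
  · exact ⟨by norm_num, h3⟩
  · exact ⟨le_rfl, hd 4⟩
  · exact ⟨le_rfl, hd 5⟩
  · decide
  · rw [ne2e6_q]
    simp

theorem ne2e6_c2 (ν : Fin 6 → ℤ) (hd : Dom CartanMatrix.E₆ ν)
    (ih : ∀ μ : Fin 6 → ℤ, Dom CartanMatrix.E₆ μ → ne2e6_M μ < ne2e6_M ν → ne2e6_P μ)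
    (h0 : 1 ≤ pr CartanMatrix.E₆ 0 ν)
    (h2 : 1 ≤ pr CartanMatrix.E₆ 2 ν) : ne2e6_P ν := by
  refine ne2e6_try ν ![3, 3, 5, 6, 4, 2] 1 0 1 0 0 0 ih
    ?_ ?_ ?_ ?_ ?_ ?_ (by omega) ?_ ?_ ?_ ?_ ?_ ?_ ?_ ?_
  · rw [ne2e6_pr0]; simp
  · rw [ne2e6_pr1]; simp
  · rw [ne2e6_pr2]; simp
  · rw [ne2e6_pr3]; simp
  · rw [ne2e6_pr4]; simp
  · rw [ne2e6_pr5]; simp
  · exact ⟨by norm_num, h0⟩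
  · exact ⟨le_rfl, hd 1⟩
  · exact ⟨by norm_num, h2⟩
  · exact ⟨le_rfl, hd 3⟩
  · exact ⟨le_rfl, hd 4⟩
  · exact ⟨le_rfl, hd 5⟩
  · decide
  · rw [ne2e6_q]
    simp

theorem ne2e6_c3 (ν : Fin 6 → ℤ) (hd : Dom CartanMatrix.E₆ ν)
    (ih : ∀ μ : Fin 6 → ℤ, Dom CartanMatrix.E₆ μ → ne2e6_M μ < ne2e6_M ν → ne2e6_P μ)
    (h0 : 1 ≤ pr CartanMatrix.E₆ 0 ν)
    (h5 : 1 ≤ pr CartanMatrix.E₆ 5 ν) : ne2e6_P ν := by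
  refine ne2e6_try ν ![2, 2, 3, 4, 3, 2] 1 0 0 0 0 1 ih
    ?_ ?_ ?_ ?_ ?_ ?_ (by omega) ?_ ?_ ?_ ?_ ?_ ?_ ?_ ?_
  · rw [ne2e6_pr0]; simp
  · rw [ne2e6_pr1]; simp
  · rw [ne2e6_pr2]; simp
  · rw [ne2e6_pr3]; simp
  · rw [ne2e6_pr4]; simp
  · rw [ne2e6_pr5]; simp
  · exact ⟨by norm_num, h0⟩
  · exact ⟨le_rfl, hd 1⟩
  · exact ⟨le_rfl, hd 2⟩
  · exact ⟨le_rfl, hd 3⟩
  · exact ⟨le_rfl, hd 4⟩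
  · exact ⟨by norm_num, h5⟩
  · decide
  · rw [ne2e6_q]
    simp

theorem ne2e6_c4 (ν : Fin 6 → ℤ) (hd : Dom CartanMatrix.E₆ ν)
    (ih : ∀ μ : Fin 6 → ℤ, Dom CartanMatrix.E₆ μ → ne2e6_M μ < ne2e6_M ν → ne2e6_P μ)
    (h2 : 1 ≤ pr CartanMatrix.E₆ 2 ν)
    (h4 : 1 ≤ pr CartanMatrix.E₆ 4 ν) : ne2e6_P ν := by
  refine ne2e6_try ν ![3, 4, 6, 8, 6, 3] 0 0 1 0 1 0 ih
    ?_ ?_ ?_ ?_ ?_ ?_ (by omega) ?_ ?_ ?_ ?_ ?_ ?_ ?_ ?_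
  · rw [ne2e6_pr0]; simp
  · rw [ne2e6_pr1]; simp
  · rw [ne2e6_pr2]; simp
  · rw [ne2e6_pr3]; simp
  · rw [ne2e6_pr4]; simp
  · rw [ne2e6_pr5]; simp
  · exact ⟨le_rfl, hd 0⟩
  · exact ⟨le_rfl, hd 1⟩
  · exact ⟨by norm_num, h2⟩
  · exact ⟨le_rfl, hd 3⟩
  · exact ⟨by norm_num, h4⟩
  · exact ⟨le_rfl, hd 5⟩
  · decide
  · rw [ne2e6_q]
    simp

theorem ne2e6_c5 (ν : Fin 6 → ℤ) (hd : Dom CartanMatrix.E₆ ν)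
    (ih : ∀ μ : Fin 6 → ℤ, Dom CartanMatrix.E₆ μ → ne2e6_M μ < ne2e6_M ν → ne2e6_P μ)
    (h4 : 1 ≤ pr CartanMatrix.E₆ 4 ν)
    (h5 : 1 ≤ pr CartanMatrix.E₆ 5 ν) : ne2e6_P ν := by
  refine ne2e6_try ν ![2, 3, 4, 6, 5, 3] 0 0 0 0 1 1 ih
    ?_ ?_ ?_ ?_ ?_ ?_ (by omega) ?_ ?_ ?_ ?_ ?_ ?_ ?_ ?_
  · rw [ne2e6_pr0]; simp
  · rw [ne2e6_pr1]; simp
  · rw [ne2e6_pr2]; simp
  · rw [ne2e6_pr3]; simp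
  · rw [ne2e6_pr4]; simp
  · rw [ne2e6_pr5]; simp
  · exact ⟨le_rfl, hd 0⟩
  · exact ⟨le_rfl, hd 1⟩
  · exact ⟨le_rfl, hd 2⟩
  · exact ⟨le_rfl, hd 3⟩
  · exact ⟨by norm_num, h4⟩
  · exact ⟨by norm_num, h5⟩
  · decide
  · rw [ne2e6_q]
    simp

theorem ne2e6_c6 (ν : Fin 6 → ℤ) (hd : Dom CartanMatrix.E₆ ν)
    (ih : ∀ μ : Fin 6 → ℤ, Dom CartanMatrix.E₆ μ → ne2e6_M μ < ne2e6_M ν → ne2e6_P μ)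
    (h0 : 3 ≤ pr CartanMatrix.E₆ 0 ν) : ne2e6_P ν := by
  refine ne2e6_try ν ![4, 3, 5, 6, 4, 2] 3 0 0 0 0 0 ih
    ?_ ?_ ?_ ?_ ?_ ?_ (by omega) ?_ ?_ ?_ ?_ ?_ ?_ ?_ ?_
  · rw [ne2e6_pr0]; simp
  · rw [ne2e6_pr1]; simp
  · rw [ne2e6_pr2]; simp
  · rw [ne2e6_pr3]; simp
  · rw [ne2e6_pr4]; simp
  · rw [ne2e6_pr5]; simp
  · exact ⟨by norm_num, h0⟩
  · exact ⟨le_rfl, hd 1⟩
  · exact ⟨le_rfl, hd 2⟩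
  · exact ⟨le_rfl, hd 3⟩
  · exact ⟨le_rfl, hd 4⟩
  · exact ⟨le_rfl, hd 5⟩
  · decide
  · rw [ne2e6_q]
    simp

theorem ne2e6_c7 (ν : Fin 6 → ℤ) (hd : Dom CartanMatrix.E₆ ν)
    (ih : ∀ μ : Fin 6 → ℤ, Dom CartanMatrix.E₆ μ → ne2e6_M μ < ne2e6_M ν → ne2e6_P μ)
    (h0 : 2 ≤ pr CartanMatrix.E₆ 0 ν)
    (h4 : 1 ≤ pr CartanMatrix.E₆ 4 ν) : ne2e6_P ν := by
  refine ne2e6_try ν ![4, 4, 6, 8, 6, 3] 2 0 0 0 1 0 ih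
    ?_ ?_ ?_ ?_ ?_ ?_ (by omega) ?_ ?_ ?_ ?_ ?_ ?_ ?_ ?_
  · rw [ne2e6_pr0]; simp
  · rw [ne2e6_pr1]; simp
  · rw [ne2e6_pr2]; simp
  · rw [ne2e6_pr3]; simp
  · rw [ne2e6_pr4]; simp
  · rw [ne2e6_pr5]; simp
  · exact ⟨by norm_num, h0⟩
  · exact ⟨le_rfl, hd 1⟩
  · exact ⟨le_rfl, hd 2⟩
  · exact ⟨le_rfl, hd 3⟩
  · exact ⟨by norm_num, h4⟩
  · exact ⟨le_rfl, hd 5⟩
  · decide
  · rw [ne2e6_q]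
    simp

theorem ne2e6_c8 (ν : Fin 6 → ℤ) (hd : Dom CartanMatrix.E₆ ν)
    (ih : ∀ μ : Fin 6 → ℤ, Dom CartanMatrix.E₆ μ → ne2e6_M μ < ne2e6_M ν → ne2e6_P μ)
    (h0 : 1 ≤ pr CartanMatrix.E₆ 0 ν)
    (h4 : 2 ≤ pr CartanMatrix.E₆ 4 ν) : ne2e6_P ν := by
  refine ne2e6_try ν ![4, 5, 7, 10, 8, 4] 1 0 0 0 2 0 ih
    ?_ ?_ ?_ ?_ ?_ ?_ (by omega) ?_ ?_ ?_ ?_ ?_ ?_ ?_ ?_
  · rw [ne2e6_pr0]; simp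
  · rw [ne2e6_pr1]; simp
  · rw [ne2e6_pr2]; simp
  · rw [ne2e6_pr3]; simp
  · rw [ne2e6_pr4]; simp
  · rw [ne2e6_pr5]; simp
  · exact ⟨by norm_num, h0⟩
  · exact ⟨le_rfl, hd 1⟩
  · exact ⟨le_rfl, hd 2⟩
  · exact ⟨le_rfl, hd 3⟩
  · exact ⟨by norm_num, h4⟩
  · exact ⟨le_rfl, hd 5⟩
  · decide
  · rw [ne2e6_q]
    simp

theorem ne2e6_c9 (ν : Fin 6 → ℤ) (hd : Dom CartanMatrix.E₆ ν)
    (ih : ∀ μ : Fin 6 → ℤ, Dom CartanMatrix.E₆ μ → ne2e6_M μ < ne2e6_M ν → ne2e6_P μ)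
    (h4 : 3 ≤ pr CartanMatrix.E₆ 4 ν) : ne2e6_P ν := by
  refine ne2e6_try ν ![4, 6, 8, 12, 10, 5] 0 0 0 0 3 0 ih
    ?_ ?_ ?_ ?_ ?_ ?_ (by omega) ?_ ?_ ?_ ?_ ?_ ?_ ?_ ?_
  · rw [ne2e6_pr0]; simp
  · rw [ne2e6_pr1]; simp
  · rw [ne2e6_pr2]; simp
  · rw [ne2e6_pr3]; simp
  · rw [ne2e6_pr4]; simp
  · rw [ne2e6_pr5]; simp
  · exact ⟨le_rfl, hd 0⟩
  · exact ⟨le_rfl, hd 1⟩
  · exact ⟨le_rfl, hd 2⟩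
  · exact ⟨le_rfl, hd 3⟩
  · exact ⟨by norm_num, h4⟩
  · exact ⟨le_rfl, hd 5⟩
  · decide
  · rw [ne2e6_q]
    simp

theorem ne2e6_c10 (ν : Fin 6 → ℤ) (hd : Dom CartanMatrix.E₆ ν)
    (ih : ∀ μ : Fin 6 → ℤ, Dom CartanMatrix.E₆ μ → ne2e6_M μ < ne2e6_M ν → ne2e6_P μ)
    (h2 : 3 ≤ pr CartanMatrix.E₆ 2 ν) : ne2e6_P ν := by
  refine ne2e6_try ν ![5, 6, 10, 12, 8, 4] 0 0 3 0 0 0 ih
    ?_ ?_ ?_ ?_ ?_ ?_ (by omega) ?_ ?_ ?_ ?_ ?_ ?_ ?_ ?_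
  · rw [ne2e6_pr0]; simp
  · rw [ne2e6_pr1]; simp
  · rw [ne2e6_pr2]; simp
  · rw [ne2e6_pr3]; simp
  · rw [ne2e6_pr4]; simp
  · rw [ne2e6_pr5]; simp
  · exact ⟨le_rfl, hd 0⟩
  · exact ⟨le_rfl, hd 1⟩
  · exact ⟨by norm_num, h2⟩
  · exact ⟨le_rfl, hd 3⟩
  · exact ⟨le_rfl, hd 4⟩
  · exact ⟨le_rfl, hd 5⟩
  · decide
  · rw [ne2e6_q]
    simp

theorem ne2e6_c11 (ν : Fin 6 → ℤ) (hd : Dom CartanMatrix.E₆ ν)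
    (ih : ∀ μ : Fin 6 → ℤ, Dom CartanMatrix.E₆ μ → ne2e6_M μ < ne2e6_M ν → ne2e6_P μ)
    (h2 : 2 ≤ pr CartanMatrix.E₆ 2 ν)
    (h5 : 1 ≤ pr CartanMatrix.E₆ 5 ν) : ne2e6_P ν := by
  refine ne2e6_try ν ![4, 5, 8, 10, 7, 4] 0 0 2 0 0 1 ih
    ?_ ?_ ?_ ?_ ?_ ?_ (by omega) ?_ ?_ ?_ ?_ ?_ ?_ ?_ ?_
  · rw [ne2e6_pr0]; simp
  · rw [ne2e6_pr1]; simp
  · rw [ne2e6_pr2]; simp
  · rw [ne2e6_pr3]; simp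
  · rw [ne2e6_pr4]; simp
  · rw [ne2e6_pr5]; simp
  · exact ⟨le_rfl, hd 0⟩
  · exact ⟨le_rfl, hd 1⟩
  · exact ⟨by norm_num, h2⟩
  · exact ⟨le_rfl, hd 3⟩
  · exact ⟨le_rfl, hd 4⟩
  · exact ⟨by norm_num, h5⟩
  · decide
  · rw [ne2e6_q]
    simp

theorem ne2e6_c12 (ν : Fin 6 → ℤ) (hd : Dom CartanMatrix.E₆ ν)
    (ih : ∀ μ : Fin 6 → ℤ, Dom CartanMatrix.E₆ μ → ne2e6_M μ < ne2e6_M ν → ne2e6_P μ)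
    (h2 : 1 ≤ pr CartanMatrix.E₆ 2 ν)
    (h5 : 2 ≤ pr CartanMatrix.E₆ 5 ν) : ne2e6_P ν := by
  refine ne2e6_try ν ![3, 4, 6, 8, 6, 4] 0 0 1 0 0 2 ih
    ?_ ?_ ?_ ?_ ?_ ?_ (by omega) ?_ ?_ ?_ ?_ ?_ ?_ ?_ ?_
  · rw [ne2e6_pr0]; simp
  · rw [ne2e6_pr1]; simp
  · rw [ne2e6_pr2]; simp
  · rw [ne2e6_pr3]; simp
  · rw [ne2e6_pr4]; simp
  · rw [ne2e6_pr5]; simp
  · exact ⟨le_rfl, hd 0⟩
  · exact ⟨le_rfl, hd 1⟩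
  · exact ⟨by norm_num, h2⟩
  · exact ⟨le_rfl, hd 3⟩
  · exact ⟨le_rfl, hd 4⟩
  · exact ⟨by norm_num, h5⟩
  · decide
  · rw [ne2e6_q]
    simp

theorem ne2e6_c13 (ν : Fin 6 → ℤ) (hd : Dom CartanMatrix.E₆ ν)
    (ih : ∀ μ : Fin 6 → ℤ, Dom CartanMatrix.E₆ μ → ne2e6_M μ < ne2e6_M ν → ne2e6_P μ)
    (h5 : 3 ≤ pr CartanMatrix.E₆ 5 ν) : ne2e6_P ν := by
  refine ne2e6_try ν ![2, 3, 4, 6, 5, 4] 0 0 0 0 0 3 ih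
    ?_ ?_ ?_ ?_ ?_ ?_ (by omega) ?_ ?_ ?_ ?_ ?_ ?_ ?_ ?_
  · rw [ne2e6_pr0]; simp
  · rw [ne2e6_pr1]; simp
  · rw [ne2e6_pr2]; simp
  · rw [ne2e6_pr3]; simp
  · rw [ne2e6_pr4]; simp
  · rw [ne2e6_pr5]; simp
  · exact ⟨le_rfl, hd 0⟩
  · exact ⟨le_rfl, hd 1⟩
  · exact ⟨le_rfl, hd 2⟩
  · exact ⟨le_rfl, hd 3⟩
  · exact ⟨le_rfl, hd 4⟩
  · exact ⟨by norm_num, h5⟩
  · decide
  · rw [ne2e6_q]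
    simp

set_option maxHeartbeats 4000000 in
theorem ne2e6_main (ν : Fin 6 → ℤ) (hd : Dom CartanMatrix.E₆ ν)
    (ih : ∀ μ : Fin 6 → ℤ, Dom CartanMatrix.E₆ μ → ne2e6_M μ < ne2e6_M ν → ne2e6_P μ) :
    ne2e6_P ν := by
  have e0 := ne2e6_pr0 ν
  have e1 := ne2e6_pr1 ν
  have e2 := ne2e6_pr2 ν
  have e3 := ne2e6_pr3 ν
  have e4 := ne2e6_pr4 ν
  have e5 := ne2e6_pr5 ν
  have d0 : 0 ≤ pr CartanMatrix.E₆ 0 ν := hd 0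
  have d2 : 0 ≤ pr CartanMatrix.E₆ 2 ν := hd 2
  have d4 : 0 ≤ pr CartanMatrix.E₆ 4 ν := hd 4
  have d5 : 0 ≤ pr CartanMatrix.E₆ 5 ν := hd 5
  have d1 : 0 ≤ pr CartanMatrix.E₆ 1 ν := hd 1
  have d3 : 0 ≤ pr CartanMatrix.E₆ 3 ν := hd 3
  by_cases c1 : 1 ≤ pr CartanMatrix.E₆ 1 ν
  · exact ne2e6_c0 ν hd ih c1
  by_cases c3 : 1 ≤ pr CartanMatrix.E₆ 3 ν
  · exact ne2e6_c1 ν hd ih c3
  by_cases c0 : 1 ≤ pr CartanMatrix.E₆ 0 ν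
  · by_cases c2 : 1 ≤ pr CartanMatrix.E₆ 2 ν
    · exact ne2e6_c2 ν hd ih c0 c2
    by_cases c5 : 1 ≤ pr CartanMatrix.E₆ 5 ν
    · exact ne2e6_c3 ν hd ih c0 c5
    by_cases c4 : 1 ≤ pr CartanMatrix.E₆ 4 ν
    · by_cases c44 : 2 ≤ pr CartanMatrix.E₆ 4 ν
      · exact ne2e6_c8 ν hd ih c0 c44
      · exact ne2e6_c7 ν hd ih (by omega) c4
    · exact ne2e6_c6 ν hd ih (by omega)
  by_cases c4 : 1 ≤ pr CartanMatrix.E₆ 4 ν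
  · by_cases c2 : 1 ≤ pr CartanMatrix.E₆ 2 ν
    · exact ne2e6_c4 ν hd ih c2 c4
    by_cases c5 : 1 ≤ pr CartanMatrix.E₆ 5 ν
    · exact ne2e6_c5 ν hd ih c4 c5
    exact ne2e6_c9 ν hd ih (by omega)
  by_cases c2 : 1 ≤ pr CartanMatrix.E₆ 2 ν
  · by_cases c5 : 1 ≤ pr CartanMatrix.E₆ 5 ν
    · by_cases c55 : 2 ≤ pr CartanMatrix.E₆ 5 ν
      · exact ne2e6_c12 ν hd ih c2 c55
      · exact ne2e6_c11 ν hd ih (by omega) c5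
    · exact ne2e6_c10 ν hd ih (by omega)
  by_cases c5 : 1 ≤ pr CartanMatrix.E₆ 5 ν
  · exact ne2e6_c13 ν hd ih (by omega)
  · refine ⟨[], by simp, ?_, ?_⟩
    · rw [List.sum_nil]
      funext i
      fin_cases i
      · change 0 = ν 0
        omega
      · change 0 = ν 1
        omega
      · change 0 = ν 2
        omega
      · change 0 = ν 3
        omega
      · change 0 = ν 4
        omega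
      · change 0 = ν 5
        omega
    · rw [List.map_nil, List.sum_nil]
      unfold ne2e6_L
      omega

theorem en2e6 : st_EN2e6 := by
  have key : ∀ N : ℕ, ∀ ν : Fin 6 → ℤ, Dom CartanMatrix.E₆ ν → ne2e6_M ν < N → ne2e6_P ν := by
    intro N
    induction N with
    | zero =>
      intro ν hd h
      exfalso
      have h0 : 0 ≤ pr CartanMatrix.E₆ 0 ν := hd 0
      have h1 : 0 ≤ pr CartanMatrix.E₆ 1 ν := hd 1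
      have h2 : 0 ≤ pr CartanMatrix.E₆ 2 ν := hd 2
      have h3 : 0 ≤ pr CartanMatrix.E₆ 3 ν := hd 3
      have h4 : 0 ≤ pr CartanMatrix.E₆ 4 ν := hd 4
      have h5 : 0 ≤ pr CartanMatrix.E₆ 5 ν := hd 5
      unfold ne2e6_M at h
      omega
    | succ N ih =>
      intro ν hd h
      refine ne2e6_main ν hd fun μ hμ hlt => ih μ hμ ?_
      push_cast at h
      omega
  intro ν hd
  exact key ((ne2e6_M ν).toNat + 1) ν hd (by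
    have := Int.self_le_toNat (ne2e6_M ν)
    push_cast
    omega)

end

end WPQ
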