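import Pool.Agent.WPQ.END

/-! [WPQ-NE2e7] Full Q1 of MP_c42e9d_al, block EN.

Plan.  Strong induction on the height as in EN2e8.  List `L` (root coordinates; |.|^2; ht), labels = sums of fundamental weights: 1: 2 2 3 4 3 2 1; 2; 17.
3: 3 4 6 8 6 4 2; 6; 33.  4: 4 6 8 12 9 6 3; 12; 48.  6: 2 3 4 6 5 4 2; 4; 26.  2+2: 4 7 8 12 9 6 3; 14; 49.  2+5: 5 8 10 15 12 8 4; 20; 62.
2+7: 3 5 6 9 7 5 3; 8; 38.  5+5: 6 9 12 18 15 10 5; 30; 75.  5+7: 4 6 8 12 10 7 4; 14; 51.  7+7: 2 3 4 6 5 4 3; 6; 27.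
For `ν ≠ 0` dominant (`m_i = pr E₇ i ν`): one of `m_1, m_3, m_4, m_6` is `≥ 1`, or (all four `0`) `m_2 + m_5 + m_7` is positive and EVEN (because `ν` is
integral: `2 ν_2 = ... `; `m_i` are the linear forms in `ν`, `omega` proves the parity), so some pair from `{2,5,7}` (with repetition) fits.
`5 q(λ) ≤ 6 ht λ` on `L` (equality for 5+5). -/

namespace WPQ

open MvPolynomial AF

noncomputable section

/-- the properties of the members of the list -/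
def ne2e7_ok (lam : Fin 7 → ℤ) : Prop :=
  lam ≠ 0 ∧ Dom CartanMatrix.E₇ lam ∧ 5 * qN CartanMatrix.E₇ lam ≤ 6 * ∑ i, lam i ∧
    0 < ∑ i, lam i

/-- dominance in coordinates -/
def ne2e7_D (a b c d e f g : ℤ) : Prop :=
    0 ≤ 2 * a - c ∧ 0 ≤ 2 * b - d ∧ 0 ≤ - a + 2 * c - d ∧ 0 ≤ - b - c + 2 * d - e ∧
    0 ≤ - d + 2 * e - f ∧ 0 ≤ - e + 2 * f - g ∧ 0 ≤ - f + 2 * g

theorem ne2e7_dom (ν : Fin 7 → ℤ) : Dom CartanMatrix.E₇ ν ↔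
    ne2e7_D (ν 0) (ν 1) (ν 2) (ν 3) (ν 4) (ν 5) (ν 6) := by
  have h0 : pr CartanMatrix.E₇ 0 ν = 2 * ν 0 - ν 2 := by
    simp [pr, Fin.sum_univ_seven, CartanMatrix.E₇]; ring
  have h1 : pr CartanMatrix.E₇ 1 ν = 2 * ν 1 - ν 3 := by
    simp [pr, Fin.sum_univ_seven, CartanMatrix.E₇]; ring
  have h2 : pr CartanMatrix.E₇ 2 ν = - ν 0 + 2 * ν 2 - ν 3 := by
    simp [pr, Fin.sum_univ_seven, CartanMatrix.E₇]; ring
  have h3 : pr CartanMatrix.E₇ 3 ν = - ν 1 - ν 2 + 2 * ν 3 - ν 4 := by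
    simp [pr, Fin.sum_univ_seven, CartanMatrix.E₇]; ring
  have h4 : pr CartanMatrix.E₇ 4 ν = - ν 3 + 2 * ν 4 - ν 5 := by
    simp [pr, Fin.sum_univ_seven, CartanMatrix.E₇]; ring
  have h5 : pr CartanMatrix.E₇ 5 ν = - ν 4 + 2 * ν 5 - ν 6 := by
    simp [pr, Fin.sum_univ_seven, CartanMatrix.E₇]; ring
  have h6 : pr CartanMatrix.E₇ 6 ν = - ν 5 + 2 * ν 6 := by
    simp [pr, Fin.sum_univ_seven, CartanMatrix.E₇]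
  unfold Dom ne2e7_D
  rw [← h0, ← h1, ← h2, ← h3, ← h4, ← h5, ← h6]
  constructor
  · intro h
    exact ⟨h 0, h 1, h 2, h 3, h 4, h 5, h 6⟩
  · rintro ⟨g0, g1, g2, g3, g4, g5, g6⟩ j
    fin_cases j
    · exact g0
    · exact g1
    · exact g2
    · exact g3
    · exact g4
    · exact g5
    · exact g6

theorem ne2e7_form (ν : Fin 7 → ℤ) : formZ CartanMatrix.E₇ 1 ν ν =
    2 * (ν 0 ^ 2 + ν 1 ^ 2 + ν 2 ^ 2 + ν 3 ^ 2 + ν 4 ^ 2 + ν 5 ^ 2 + ν 6 ^ 2 - ν 0 * ν 2 -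
      ν 1 * ν 3 - ν 2 * ν 3 - ν 3 * ν 4 - ν 4 * ν 5 - ν 5 * ν 6) := by
  simp [formZ, Fin.sum_univ_seven, CartanMatrix.E₇]; ring

theorem ne2e7_q (ν : Fin 7 → ℤ) : qN CartanMatrix.E₇ ν =
    (ν 0 ^ 2 + ν 1 ^ 2 + ν 2 ^ 2 + ν 3 ^ 2 + ν 4 ^ 2 + ν 5 ^ 2 + ν 6 ^ 2 - ν 0 * ν 2 -
      ν 1 * ν 3 - ν 2 * ν 3 - ν 3 * ν 4 - ν 4 * ν 5 - ν 5 * ν 6) + ∑ i, ν i := by
  unfold qN
  rw [ne2e7_form, Int.mul_ediv_cancel_left _ (by norm_num)]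

theorem ne2e7_mk (a b c d e f g : ℤ) (ha : a ≠ 0) (h1 : ne2e7_D a b c d e f g)
    (h2 : 5 * ((a ^ 2 + b ^ 2 + c ^ 2 + d ^ 2 + e ^ 2 + f ^ 2 + g ^ 2 - a * c - b * d - c * d -
      d * e - e * f - f * g) + (a + b + c + d + e + f + g)) ≤ 6 * (a + b + c + d + e + f + g))
    (h3 : 0 < a + b + c + d + e + f + g) : ne2e7_ok ![a, b, c, d, e, f, g] := by
  have hs : ∑ i, (![a, b, c, d, e, f, g] : Fin 7 → ℤ) i = a + b + c + d + e + f + g := by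
    rw [Fin.sum_univ_seven]; rfl
  refine ⟨fun h => ha ?_, (ne2e7_dom _).2 h1, ?_, ?_⟩
  · exact congrFun h 0
  · rw [ne2e7_q, hs]; exact h2
  · rw [hs]; exact h3

theorem ne2e7_step (ν lam : Fin 7 → ℤ) (hl : ne2e7_ok lam)
    (ih : ∃ ls : List (Fin 7 → ℤ), (∀ lam ∈ ls, lam ≠ 0 ∧ Dom CartanMatrix.E₇ lam) ∧
      ls.sum = ν - lam ∧ 5 * (ls.map (qN CartanMatrix.E₇)).sum ≤ 6 * ∑ i, (ν - lam) i) :
    ∃ ls : List (Fin 7 → ℤ), (∀ lam ∈ ls, lam ≠ 0 ∧ Dom CartanMatrix.E₇ lam) ∧ ls.sum = ν ∧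
      5 * (ls.map (qN CartanMatrix.E₇)).sum ≤ 6 * ∑ i, ν i := by
  obtain ⟨ls, h1, h2, h3⟩ := ih
  refine ⟨lam :: ls, ?_, ?_, ?_⟩
  · intro x hx
    rcases List.mem_cons.1 hx with rfl | hx
    · exact ⟨hl.1, hl.2.1⟩
    · exact h1 x hx
  · rw [List.sum_cons, h2]
    abel
  · rw [List.map_cons, List.sum_cons]
    have h4 : ∑ i, (ν - lam) i = ∑ i, ν i - ∑ i, lam i := by
      rw [← Finset.sum_sub_distrib]
      rfl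
    rw [h4] at h3
    have h5 := hl.2.2.1
    linarith

theorem ne2e7_ht (ν : Fin 7 → ℤ) (h : Dom CartanMatrix.E₇ ν) : 0 ≤ ∑ i, ν i := by
  rw [ne2e7_dom] at h
  unfold ne2e7_D at h
  rw [Fin.sum_univ_seven]
  omega

/-- the list -/
def ne2e7_L : List (Fin 7 → ℤ) :=
  [![2, 2, 3, 4, 3, 2, 1], ![3, 4, 6, 8, 6, 4, 2], ![4, 6, 8, 12, 9, 6, 3], ![2, 3, 4, 6, 5, 4, 2],
    ![4, 7, 8, 12, 9, 6, 3], ![5, 8, 10, 15, 12, 8, 4], ![3, 5, 6, 9, 7, 5, 3],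
    ![6, 9, 12, 18, 15, 10, 5], ![4, 6, 8, 12, 10, 7, 4], ![2, 3, 4, 6, 5, 4, 3]]

theorem ne2e7_all : ∀ lam ∈ ne2e7_L, ne2e7_ok lam := by
  intro lam h
  unfold ne2e7_L at h
  simp only [List.mem_cons, List.not_mem_nil, or_false] at h
  rcases h with rfl | rfl | rfl | rfl | rfl | rfl | rfl | rfl | rfl | rfl <;>
  · refine ne2e7_mk _ _ _ _ _ _ _ (by norm_num) ?_ (by norm_num) (by norm_num)
    unfold ne2e7_D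
    norm_num

theorem ne2e7_par (x y z k : ℤ) (hk : x + y + z = 2 * k) (hx : 0 ≤ x) (hy : 0 ≤ y) (hz : 0 ≤ z)
    (h1 : ¬ 2 ≤ x) (h2 : ¬ 2 ≤ y) (h3 : ¬ 2 ≤ z) (h4 : ¬ (1 ≤ x ∧ 1 ≤ y)) (h5 : ¬ (1 ≤ x ∧ 1 ≤ z))
    (h6 : ¬ (1 ≤ y ∧ 1 ≤ z)) : x = 0 ∧ y = 0 ∧ z = 0 := by
  omega

theorem ne2e7_zero (a b c d e f g : ℤ) (h0 : 2 * a - c = 0) (h1 : 2 * b - d = 0)
    (h2 : - a + 2 * c - d = 0) (h3 : - b - c + 2 * d - e = 0) (h4 : - d + 2 * e - f = 0)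
    (h5 : - e + 2 * f - g = 0) (h6 : - f + 2 * g = 0) :
    a = 0 ∧ b = 0 ∧ c = 0 ∧ d = 0 ∧ e = 0 ∧ f = 0 ∧ g = 0 := by
  refine ⟨?_, ?_, ?_, ?_, ?_, ?_, ?_⟩ <;> linarith

theorem ne2e7_find (ν : Fin 7 → ℤ) (h : Dom CartanMatrix.E₇ ν) (h0 : ν ≠ 0) :
    ∃ lam ∈ ne2e7_L, Dom CartanMatrix.E₇ (ν - lam) := by
  have hD := (ne2e7_dom ν).1 h
  unfold ne2e7_D at hD
  obtain ⟨m0, m1, m2, m3, m4, m5, m6⟩ := hD
  have key : ∀ a b c d e f g : ℤ, (![a, b, c, d, e, f, g] : Fin 7 → ℤ) ∈ ne2e7_L →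
      ne2e7_D (ν 0 - a) (ν 1 - b) (ν 2 - c) (ν 3 - d) (ν 4 - e) (ν 5 - f) (ν 6 - g) →
      ∃ lam ∈ ne2e7_L, Dom CartanMatrix.E₇ (ν - lam) := by
    intro a b c d e f g hm hd
    exact ⟨_, hm, (ne2e7_dom _).2 hd⟩
  unfold ne2e7_D at key
  by_cases c0 : 1 ≤ 2 * ν 0 - ν 2
  · exact key 2 2 3 4 3 2 1 (by simp [ne2e7_L]) (by omega)
  by_cases c2 : 1 ≤ - ν 0 + 2 * ν 2 - ν 3
  · exact key 3 4 6 8 6 4 2 (by simp [ne2e7_L]) (by omega)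
  by_cases c3 : 1 ≤ - ν 1 - ν 2 + 2 * ν 3 - ν 4
  · exact key 4 6 8 12 9 6 3 (by simp [ne2e7_L]) (by omega)
  by_cases c5 : 1 ≤ - ν 4 + 2 * ν 5 - ν 6
  · exact key 2 3 4 6 5 4 2 (by simp [ne2e7_L]) (by omega)
  by_cases c1 : 2 ≤ 2 * ν 1 - ν 3
  · exact key 4 7 8 12 9 6 3 (by simp [ne2e7_L]) (by omega)
  by_cases c4 : 2 ≤ - ν 3 + 2 * ν 4 - ν 5
  · exact key 6 9 12 18 15 10 5 (by simp [ne2e7_L]) (by omega)
  by_cases c6 : 2 ≤ - ν 5 + 2 * ν 6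
  · exact key 2 3 4 6 5 4 3 (by simp [ne2e7_L]) (by omega)
  by_cases c14 : 1 ≤ 2 * ν 1 - ν 3 ∧ 1 ≤ - ν 3 + 2 * ν 4 - ν 5
  · exact key 5 8 10 15 12 8 4 (by simp [ne2e7_L]) (by omega)
  by_cases c16 : 1 ≤ 2 * ν 1 - ν 3 ∧ 1 ≤ - ν 5 + 2 * ν 6
  · exact key 3 5 6 9 7 5 3 (by simp [ne2e7_L]) (by omega)
  by_cases c46 : 1 ≤ - ν 3 + 2 * ν 4 - ν 5 ∧ 1 ≤ - ν 5 + 2 * ν 6
  · exact key 4 6 8 12 10 7 4 (by simp [ne2e7_L]) (by omega)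
  exfalso
  apply h0
  have hp := ne2e7_par (2 * ν 1 - ν 3) (- ν 3 + 2 * ν 4 - ν 5) (- ν 5 + 2 * ν 6)
    (ν 1 - ν 3 + ν 4 - ν 5 + ν 6) (by ring) m1 m4 m6 c1 c4 c6 c14 c16 c46
  have z := ne2e7_zero (ν 0) (ν 1) (ν 2) (ν 3) (ν 4) (ν 5) (ν 6)
    (le_antisymm (Int.lt_add_one_iff.1 (by simpa using not_le.1 c0)) m0) hp.1
    (le_antisymm (Int.lt_add_one_iff.1 (by simpa using not_le.1 c2)) m2)
    (le_antisymm (Int.lt_add_one_iff.1 (by simpa using not_le.1 c3)) m3) hp.2.1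
    (le_antisymm (Int.lt_add_one_iff.1 (by simpa using not_le.1 c5)) m5) hp.2.2
  obtain ⟨z0, z1, z2, z3, z4, z5, z6⟩ := z
  funext j
  fin_cases j
  · exact z0
  · exact z1
  · exact z2
  · exact z3
  · exact z4
  · exact z5
  · exact z6

theorem en2e7 : st_EN2e7 := by
  intro ν hν
  generalize hn : (∑ i, ν i).toNat = n
  induction n using Nat.strong_induction_on generalizing ν with
  | _ n ih =>
    by_cases h0 : ν = 0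
    · subst h0
      exact ⟨[], by simp, by simp, by simp⟩
    · obtain ⟨lam, hlam, hd⟩ := ne2e7_find ν hν h0
      have hok := ne2e7_all lam hlam
      have h4 : ∑ i, (ν - lam) i = ∑ i, ν i - ∑ i, lam i := by
        rw [← Finset.sum_sub_distrib]
        rfl
      have h5 := ne2e7_ht (ν - lam) hd
      have h6 := hok.2.2.2
      have h7 : (∑ i, (ν - lam) i).toNat < n := by omega
      exact ne2e7_step ν lam hok (ih _ h7 (ν - lam) hd rfl)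

end

end WPQ
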