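import Pool.Agent.WPQ.END

/-! [WPQ-NE2e8] Full Q1 of MP_c42e9d_al, block EN.

Plan.  `m_i = pr E₈ i ν ≥ 0`, `ν = ∑ m_i ω_i`, `ω_i` (root coordinates; |.|^2; ht): 1: 4 5 7 10 8 6 4 2; 4; 46.  2: 5 8 10 15 12 9 6 3; 8; 68.
3: 7 10 14 20 16 12 8 4; 14; 91.  4: 10 15 20 30 24 18 12 6; 30; 135.  5: 8 12 16 24 20 15 10 5; 20; 110.  6: 6 9 12 18 15 12 8 4; 12; 84.
7: 4 6 8 12 10 8 6 3; 6; 57.  8: 2 3 4 6 5 4 3 2; 2; 29.  `ls` = `m_i` copies of `ω_i`; or strong induction on `(∑ ν_i).toNat`: if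
`ν ≠ 0` some `m_i ≥ 1` (otherwise `ν = 0`), `ν - ω_i` is dominant, smaller height; `q(ω_i) = |ω_i|²/2 + ht ω_i`, `9 q ≤ 10 ht`.
`qN A lam = formZ A 1 lam lam / 2 + ∑ lam` : `decide` for the eight vectors.  (ht > 0 for dominant nonzero: `∑ ν_i = ∑ ht(ω_i) m_i`, linear.) -/

namespace WPQ

open MvPolynomial AF

noncomputable section

/-- the fundamental weights of `E₈` in root coordinates -/
def ne2e8_om : Fin 8 → Fin 8 → ℤ :=
  ![![4, 5, 7, 10, 8, 6, 4, 2], ![5, 8, 10, 15, 12, 9, 6, 3], ![7, 10, 14, 20, 16, 12, 8, 4],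
    ![10, 15, 20, 30, 24, 18, 12, 6], ![8, 12, 16, 24, 20, 15, 10, 5],
    ![6, 9, 12, 18, 15, 12, 8, 4], ![4, 6, 8, 12, 10, 8, 6, 3], ![2, 3, 4, 6, 5, 4, 3, 2]]

theorem ne2e8_dom (i : Fin 8) : ne2e8_om i ≠ 0 ∧ Dom CartanMatrix.E₈ (ne2e8_om i) := by
  constructor
  · revert i
    unfold ne2e8_om
    decide
  · revert i
    unfold Dom pr ne2e8_om
    decide

theorem ne2e8_q (i : Fin 8) : 9 * qN CartanMatrix.E₈ (ne2e8_om i) ≤ 10 * ∑ k, ne2e8_om i k := by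
  revert i
  unfold qN formZ ne2e8_om
  decide

theorem ne2e8_inv (ν : Fin 8 → ℤ) (k : Fin 8) :
    ν k = ∑ i, pr CartanMatrix.E₈ i ν * ne2e8_om i k := by
  unfold pr
  fin_cases k <;> simp [Fin.sum_univ_succ, CartanMatrix.E₈, ne2e8_om] <;> ring

theorem en2e8 : st_EN2e8 := by
  intro ν hν
  have hm : ∀ i, (((pr CartanMatrix.E₈ i ν).toNat : ℕ) : ℤ) = pr CartanMatrix.E₈ i ν :=
    fun i => Int.toNat_of_nonneg (hν i)
  set s : Multiset (Fin 8 → ℤ) :=
    ∑ i, (pr CartanMatrix.E₈ i ν).toNat • ({ne2e8_om i} : Multiset (Fin 8 → ℤ)) with hs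
  have hsum : s.sum = ν := by
    rw [hs, ← Multiset.coe_sumAddMonoidHom, map_sum]
    funext k
    rw [ne2e8_inv ν k, Finset.sum_apply]
    refine Finset.sum_congr rfl fun i _ => ?_
    rw [map_nsmul, Multiset.coe_sumAddMonoidHom, Multiset.sum_singleton, Pi.smul_apply,
      nsmul_eq_mul, hm i]
  have hq : (s.map (qN CartanMatrix.E₈)).sum =
      ∑ i, pr CartanMatrix.E₈ i ν * qN CartanMatrix.E₈ (ne2e8_om i) := by
    rw [hs, ← Multiset.coe_mapAddMonoidHom, map_sum, ← Multiset.coe_sumAddMonoidHom, map_sum]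
    refine Finset.sum_congr rfl fun i _ => ?_
    rw [map_nsmul, map_nsmul, Multiset.coe_mapAddMonoidHom, Multiset.map_singleton,
      Multiset.coe_sumAddMonoidHom, Multiset.sum_singleton, nsmul_eq_mul, hm i]
  refine ⟨s.toList, ?_, ?_, ?_⟩
  · intro lam hlam
    rw [Multiset.mem_toList, hs, Multiset.mem_sum] at hlam
    obtain ⟨i, _, hi⟩ := hlam
    have h1 := Multiset.mem_of_mem_nsmul hi
    rw [Multiset.mem_singleton] at h1
    rw [h1]
    exact ne2e8_dom i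
  · rw [Multiset.sum_toList]
    exact hsum
  · have h2 : (s.toList.map (qN CartanMatrix.E₈)).sum = (s.map (qN CartanMatrix.E₈)).sum := by
      conv_rhs => rw [← Multiset.coe_toList s]
      rw [Multiset.map_coe, Multiset.sum_coe]
    rw [h2, hq]
    have h3 : ∑ k, ν k = ∑ i, pr CartanMatrix.E₈ i ν * ∑ k, ne2e8_om i k := by
      simp_rw [Finset.mul_sum]
      rw [Finset.sum_comm]
      exact Finset.sum_congr rfl fun k _ => ne2e8_inv ν k
    rw [h3, Finset.mul_sum, Finset.mul_sum]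
    refine Finset.sum_le_sum fun i _ => ?_
    have h4 := ne2e8_q i
    have h5 := hν i
    nlinarith

end

end WPQ
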