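import Pool.Agent.WPQ.END

/-! [WPQ-NE6] Full Q1 of MP_c42e9d_al, block EN.

Plan.  `theorem en6 (h1 : st_EN1) (h2 : st_EN2e6) : st_EN6`.  `L(ν) = 10 (m_1+m_6) + 12 m_2 + 20 (m_3+m_5) + 24 m_4`, `ht ν = 8 (m_1+m_6) + 11 m_2 + 15 (m_3+m_5) + 21 m_4`
(linear identity), so `3 L ≤ 4 ht`.  As EN8 with `1 + c = 4/3`, `R = 78`, `w = -5/6 + 156 (p-1)²/p`: `4 p x ≥ 3 (h + r²)`, `h ≥ p x²/156 + (p-1) x`, so
(*) `1 ≥ 9 h/(16 · 156 p) + 3 (p-1)/(4 p)`; false for `r = 2, p ≥ 10`; `r = 3, p ≥ 4`; `r = 4, p ≥ 3`; `r ≥ 5, p ≥ 2` (`h ≥ 6 w`).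
Integrality: `r = 2`, `2 ≤ p ≤ 9`, `p ≠ 8` (`h = -5/8 + 117 (p-1)²/p`); `r = 3`, `p = 2, 3`; `r = 4`, `p = 2`.
Left `p = 8, r = 2`: `h = 716`, `n = 720`, `4 N2 + 7 x ≤ 716`, `x² ≤ 78 N2`, so `x ≤ 68`.  If `x ≤ 67`: `8 ∑q ≤ 8 (4/3) 67 < 720`.  `x = 68`: `N2 ≤ 60`;
`8(m_1+m_6)+11m_2+15(m_3+m_5)+21m_4 = 68` has only the solutions `(m_1+m_6, m_2, m_3+m_5, m_4)` = (3,4,0,0), (2,2,2,0), (4,0,1,1), (0,1,1,2)
with `L = 78, 84, 84, 80 < 90`, and (1,0,4,0), where `N2 ≥ 61` (a finite check of `(m_1,m_6) ∈ {(1,0),(0,1)}`, `m_3 + m_5 = 4`; `N2 = ν^t m`, `3 N2` is an explicit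
quadratic form in `m`; vectors not in `Q` can be excluded by integrality or also satisfy the bound). -/

namespace WPQ

open MvPolynomial AF

noncomputable section

theorem ne6_pr (ν : Fin 6 → ℤ) :
    pr CartanMatrix.E₆ 0 ν = 2 * ν 0 - ν 2 ∧ pr CartanMatrix.E₆ 1 ν = 2 * ν 1 - ν 3 ∧
    pr CartanMatrix.E₆ 2 ν = 2 * ν 2 - ν 0 - ν 3 ∧
    pr CartanMatrix.E₆ 3 ν = 2 * ν 3 - ν 1 - ν 2 - ν 4 ∧
    pr CartanMatrix.E₆ 4 ν = 2 * ν 4 - ν 3 - ν 5 ∧ pr CartanMatrix.E₆ 5 ν = 2 * ν 5 - ν 4 := by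
  refine ⟨?_, ?_, ?_, ?_, ?_, ?_⟩ <;> simp [pr, Fin.sum_univ_succ, CartanMatrix.E₆] <;> ring

theorem ne6_sum (ν : Fin 6 → ℤ) : ∑ i, ν i = ν 0 + ν 1 + ν 2 + ν 3 + ν 4 + ν 5 := by
  simp [Fin.sum_univ_succ]
  ring

theorem ne6_even (ν : Fin 6 → ℤ) :
    ∑ i, ∑ j, ν i * CartanMatrix.E₆ i j * ν j = 2 * (ν 0 ^ 2 + ν 1 ^ 2 + ν 2 ^ 2 + ν 3 ^ 2 +
      ν 4 ^ 2 + ν 5 ^ 2 - ν 0 * ν 2 - ν 1 * ν 3 - ν 2 * ν 3 - ν 3 * ν 4 - ν 4 * ν 5) := by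
  simp [Fin.sum_univ_succ, CartanMatrix.E₆]
  ring

theorem ne6_wt (p : ℕ) (ν : Fin 6 → ℤ) (M : ℤ)
    (hM : ∑ i, ∑ j, ν i * CartanMatrix.E₆ i j * ν j = 2 * M) :
    wtExp CartanMatrix.E₆ p (-ν) = p * M + ((p : ℤ) - 1) * ∑ i, ν i := by
  have h1 : formZ CartanMatrix.E₆ p (-ν) (-ν) = 2 * (p * M) := by
    unfold formZ
    have h2 : ∑ i, ∑ j, (-ν) i * CartanMatrix.E₆ i j * (-ν) j =
        ∑ i, ∑ j, ν i * CartanMatrix.E₆ i j * ν j := by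
      refine Finset.sum_congr rfl fun i _ => Finset.sum_congr rfl fun j _ => ?_
      rw [Pi.neg_apply, Pi.neg_apply]
      ring
    rw [h2, hM]
    ring
  unfold wtExp
  rw [h1, Int.mul_ediv_cancel_left _ (by norm_num : (2 : ℤ) ≠ 0)]
  simp only [Pi.neg_apply, Finset.sum_neg_distrib]
  ring

theorem ne6_int (p r h : ℕ) (hp : 2 ≤ p)
    (hh : (h : ℚ) = ((r : ℚ) ^ 2 - 1) * wR 6 78 p / 4) :
    24 * (h : ℤ) * p = ((r : ℤ) ^ 2 - 1) * (936 * ((p : ℤ) - 1) ^ 2 - 5 * p) := by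
  have hpQ : (p : ℚ) ≠ 0 := Nat.cast_ne_zero.2 (by omega)
  have h1 : 24 * (h : ℚ) * p = ((r : ℚ) ^ 2 - 1) * (936 * ((p : ℚ) - 1) ^ 2 - 5 * p) := by
    rw [hh]
    unfold wR
    field_simp
    ring
  exact_mod_cast h1

theorem ne6_key (p h x M r : ℤ) (hp : 2 ≤ p) (hh : 1 ≤ h) (h1 : x ^ 2 ≤ 156 * M)
    (h2 : p * M + (p - 1) * x ≤ h) (h3 : 3 * (h + r * r) ≤ 4 * (p * x)) :
    9 * h ≤ 624 * p + 1872 := by
  have hr : 0 ≤ r * r := mul_self_nonneg r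
  have h4 : 3 * h ≤ 4 * (p * x) := by linarith
  have h5 : p * x ^ 2 ≤ p * (156 * M) := mul_le_mul_of_nonneg_left h1 (by linarith)
  have h6 : p * x ^ 2 + 156 * ((p - 1) * x) ≤ 156 * h := by linarith
  have h7 : p * (p * x ^ 2 + 156 * ((p - 1) * x)) ≤ p * (156 * h) :=
    mul_le_mul_of_nonneg_left h6 (by linarith)
  have h8 : 0 ≤ (4 * (p * x) - 3 * h) * (4 * (p * x) + 3 * h) :=
    mul_nonneg (by linarith) (by linarith)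
  have h9 : 0 ≤ (p - 1) * (4 * (p * x) - 3 * h) := mul_nonneg (by linarith) (by linarith)
  have h10 : h * (9 * h + 1872 * (p - 1)) ≤ h * (2496 * p) := by nlinarith
  have h11 : 9 * h + 1872 * (p - 1) ≤ 2496 * p := le_of_mul_le_mul_left h10 (by linarith)
  linarith

theorem ne6_fin (p h r : ℤ) (hp : 2 ≤ p) (hr : 2 ≤ r)
    (h1 : 24 * h * p = (r ^ 2 - 1) * (936 * (p - 1) ^ 2 - 5 * p))
    (h2 : 9 * h ≤ 624 * p + 1872) : p = 8 ∧ r = 2 := by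
  have h3 : (9 * h) * (8 * p) ≤ (624 * p + 1872) * (8 * p) :=
    mul_le_mul_of_nonneg_right h2 (by linarith)
  have h4 : (9 * h) * (8 * p) = 3 * ((r ^ 2 - 1) * (936 * (p - 1) ^ 2 - 5 * p)) := by
    linear_combination 3 * h1
  rw [h4] at h3
  have h5 : 0 ≤ 936 * (p - 1) ^ 2 - 5 * p := by nlinarith
  have hc : r = 2 ∨ r = 3 ∨ r = 4 ∨ 5 ≤ r := by omega
  rcases hc with rfl | rfl | rfl | h6
  · have h7 : 8 * (h * p - 117 * (p - 1) ^ 2) = -(5 * p) := by linarith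
    have h8 : p < 10 := by
      by_contra h9
      rw [not_lt] at h9
      nlinarith
    refine ⟨?_, rfl⟩
    omega
  · exfalso
    have h8 : p < 4 := by
      by_contra h9
      rw [not_lt] at h9
      nlinarith
    have hp2 : p = 2 ∨ p = 3 := by omega
    rcases hp2 with rfl | rfl <;> omega
  · exfalso
    have h8 : p < 3 := by
      by_contra h9
      rw [not_lt] at h9
      nlinarith
    have hp2 : p = 2 := by omega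
    subst hp2
    omega
  · exfalso
    have h7 : 25 ≤ r ^ 2 := by nlinarith
    have h8 : 24 * (936 * (p - 1) ^ 2 - 5 * p) ≤ (r ^ 2 - 1) * (936 * (p - 1) ^ 2 - 5 * p) :=
      mul_le_mul_of_nonneg_right (by linarith) h5
    nlinarith

theorem ne6_core (v0 v1 v2 v3 v4 v5 m1 m2 m3 m4 m5 m6 M : ℤ) (e1 : m1 = 2 * v0 - v2)
    (e2 : m2 = 2 * v1 - v3) (e3 : m3 = 2 * v2 - v0 - v3) (e4 : m4 = 2 * v3 - v1 - v2 - v4)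
    (e5 : m5 = 2 * v4 - v3 - v5) (e6 : m6 = 2 * v5 - v4)
    (hM : 2 * M = m1 * v0 + m2 * v1 + m3 * v2 + m4 * v3 + m5 * v4 + m6 * v5)
    (h1 : 0 ≤ m1) (h3 : 0 ≤ m3) (h5 : 0 ≤ m5) (h6 : 0 ≤ m6)
    (a1 : m1 + m6 = 1) (a2 : m2 = 0) (a3 : m3 + m5 = 4) (a4 : m4 = 0) : 30 < M := by
  have f0 : 3 * v0 = 4 * m1 + 3 * m2 + 5 * m3 + 6 * m4 + 4 * m5 + 2 * m6 := by
    rw [e1, e2, e3, e4, e5, e6]
    ring
  have f2 : 3 * v2 = 5 * m1 + 6 * m2 + 10 * m3 + 12 * m4 + 8 * m5 + 4 * m6 := by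
    rw [e1, e2, e3, e4, e5, e6]
    ring
  have f4 : 3 * v4 = 4 * m1 + 6 * m2 + 8 * m3 + 12 * m4 + 10 * m5 + 5 * m6 := by
    rw [e1, e2, e3, e4, e5, e6]
    ring
  have f5 : 3 * v5 = 2 * m1 + 3 * m2 + 4 * m3 + 6 * m4 + 5 * m5 + 4 * m6 := by
    rw [e1, e2, e3, e4, e5, e6]
    ring
  clear e1 e2 e3 e4 e5 e6
  rw [a2, a4] at hM f0 f2 f4 f5
  have g : 6 * M = m1 * (4 * m1 + 5 * m3 + 4 * m5 + 2 * m6) +
      m3 * (5 * m1 + 10 * m3 + 8 * m5 + 4 * m6) + m5 * (4 * m1 + 8 * m3 + 10 * m5 + 5 * m6) +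
      m6 * (2 * m1 + 4 * m3 + 5 * m5 + 4 * m6) := by
    linear_combination 3 * hM + m1 * f0 + m3 * f2 + m5 * f4 + m6 * f5
  clear f0 f2 f4 f5 hM
  have c6 : m6 = 1 - m1 := by linarith
  have c5 : m5 = 4 - m3 := by linarith
  rw [c5, c6] at g
  have c1 : m1 = 0 ∨ m1 = 1 := by omega
  have c3 : m3 = 0 ∨ m3 = 1 ∨ m3 = 2 ∨ m3 = 3 ∨ m3 = 4 := by omega
  rcases c1 with c1 | c1 <;> rcases c3 with c3 | c3 | c3 | c3 | c3 <;>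
    rw [c1, c3] at g <;> linarith

theorem ne6_x (x M : ℤ) (hN : x ^ 2 ≤ 156 * M) (hw : 8 * M + 7 * x ≤ 716) : x ≤ 68 := by
  by_contra hc
  have hc1 : 69 ≤ x := by omega
  nlinarith

theorem ne6_abcd (a b c d Q : ℤ) (ha : 0 ≤ a) (hb : 0 ≤ b) (hd : 0 ≤ d)
    (hx : 8 * a + 11 * b + 15 * c + 21 * d ≤ 68) (hQ : Q ≤ 10 * a + 12 * b + 20 * c + 24 * d)
    (hq : 720 ≤ 8 * Q) : a = 1 ∧ b = 0 ∧ c = 4 ∧ d = 0 := by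
  have h1 : 2 * a + 8 * b + 12 * d ≤ 2 := by linarith
  have h2 : b = 0 := by omega
  have h3 : d = 0 := by omega
  subst h2
  subst h3
  have h4 : a = 0 ∨ a = 1 := by omega
  rcases h4 with h4 | h4 <;> subst h4
  · exfalso
    omega
  · refine ⟨rfl, rfl, ?_, rfl⟩
    omega

theorem ne6_8 (v0 v1 v2 v3 v4 v5 m1 m2 m3 m4 m5 m6 M Q : ℤ) (e1 : m1 = 2 * v0 - v2)
    (e2 : m2 = 2 * v1 - v3) (e3 : m3 = 2 * v2 - v0 - v3) (e4 : m4 = 2 * v3 - v1 - v2 - v4)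
    (e5 : m5 = 2 * v4 - v3 - v5) (e6 : m6 = 2 * v5 - v4)
    (hM : 2 * M = m1 * v0 + m2 * v1 + m3 * v2 + m4 * v3 + m5 * v4 + m6 * v5)
    (h1 : 0 ≤ m1) (h2 : 0 ≤ m2) (h3 : 0 ≤ m3) (h4 : 0 ≤ m4) (h5 : 0 ≤ m5) (h6 : 0 ≤ m6)
    (hN : (v0 + v1 + v2 + v3 + v4 + v5) ^ 2 ≤ 156 * M)
    (hw : 8 * M + 7 * (v0 + v1 + v2 + v3 + v4 + v5) ≤ 716)
    (hQ : Q ≤ 10 * (m1 + m6) + 12 * m2 + 20 * (m3 + m5) + 24 * m4) (hq : 720 ≤ 8 * Q) :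
    False := by
  have hx : v0 + v1 + v2 + v3 + v4 + v5 =
      8 * (m1 + m6) + 11 * m2 + 15 * (m3 + m5) + 21 * m4 := by
    rw [e1, e2, e3, e4, e5, e6]
    ring
  have hx1 := ne6_x _ M hN hw
  obtain ⟨a1, a2, a3, a4⟩ := ne6_abcd (m1 + m6) m2 (m3 + m5) m4 Q (by linarith) h2 h4
    (by linarith) hQ hq
  have hM1 := ne6_core v0 v1 v2 v3 v4 v5 m1 m2 m3 m4 m5 m6 M e1 e2 e3 e4 e5 e6 hM h1 h3 h5 h6
    a1 a2 a3 a4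
  have hx2 : v0 + v1 + v2 + v3 + v4 + v5 = 68 := by
    rw [hx, a1, a2, a3, a4]
    norm_num
  rw [hx2] at hw
  linarith

theorem en6 (h1 : st_EN1) (h2 : st_EN2e6) : st_EN6 := by
  intro p hp r h hr hh hw hexc ν hν hdom hwt
  obtain ⟨ls, hls, hsum, hq⟩ := h2 ν hdom
  refine ⟨ls, ?_, hls, hsum, ?_⟩
  · rintro rfl
    exact hν hsum.symm
  by_contra hcon
  rw [not_lt] at hcon
  have hM := ne6_even ν
  set M : ℤ := ν 0 ^ 2 + ν 1 ^ 2 + ν 2 ^ 2 + ν 3 ^ 2 +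
      ν 4 ^ 2 + ν 5 ^ 2 - ν 0 * ν 2 - ν 1 * ν 3 - ν 2 * ν 3 - ν 3 * ν 4 - ν 4 * ν 5 with hMdef
  rw [ne6_wt p ν M hM] at hwt
  have h3 := h1.1 ν
  unfold formZ at h3
  rw [hM] at h3
  push_cast at h3
  have h4 := ne6_int p r h hp hw
  have hpZ : (2 : ℤ) ≤ p := by exact_mod_cast hp
  obtain ⟨e1, e2, e3, e4, e5, e6⟩ := ne6_pr ν
  have n1 := hdom 0
  have n2 := hdom 1
  have n3 := hdom 2
  have n4 := hdom 3
  have n5 := hdom 4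
  have n6 := hdom 5
  rw [ne6_sum] at h3 hwt
  have hq2 : 3 * (ls.map (qN CartanMatrix.E₆)).sum ≤ 4 * (ν 0 + ν 1 + ν 2 + ν 3 + ν 4 + ν 5) := by
    have hx : ν 0 + ν 1 + ν 2 + ν 3 + ν 4 + ν 5 = 8 * (pr CartanMatrix.E₆ 0 ν +
        pr CartanMatrix.E₆ 5 ν) + 11 * pr CartanMatrix.E₆ 1 ν + 15 * (pr CartanMatrix.E₆ 2 ν +
        pr CartanMatrix.E₆ 4 ν) + 21 * pr CartanMatrix.E₆ 3 ν := by
      rw [e1, e2, e3, e4, e5, e6]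
      ring
    rw [hx]
    linarith
  have h5 : 3 * ((p : ℤ) * (ls.map (qN CartanMatrix.E₆)).sum) ≤
      4 * (p * (ν 0 + ν 1 + ν 2 + ν 3 + ν 4 + ν 5)) := by
    have h6 : (p : ℤ) * (3 * (ls.map (qN CartanMatrix.E₆)).sum) ≤
        p * (4 * (ν 0 + ν 1 + ν 2 + ν 3 + ν 4 + ν 5)) :=
      mul_le_mul_of_nonneg_left hq2 (by linarith)
    linarith
  have h6 : 9 * (h : ℤ) ≤ 624 * p + 1872 :=
    ne6_key p h (ν 0 + ν 1 + ν 2 + ν 3 + ν 4 + ν 5) M r hpZ (by exact_mod_cast hh)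
      (by linarith) hwt (by linarith)
  obtain ⟨h7, h8⟩ := ne6_fin p h r hpZ (by exact_mod_cast hr) h4 h6
  rw [h7, h8] at h4
  have h9 : (h : ℤ) = 716 := by omega
  rw [h7, h8, h9] at hcon
  rw [h7, h9] at hwt
  refine ne6_8 (ν 0) (ν 1) (ν 2) (ν 3) (ν 4) (ν 5) _ _ _ _ _ _ M
    (ls.map (qN CartanMatrix.E₆)).sum e1 e2 e3 e4 e5 e6 ?_ n1 n2 n3 n4 n5 n6 (by linarith)
    (by linarith) hq (by linarith)
  rw [e1, e2, e3, e4, e5, e6, hMdef]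
  ring

end

end WPQ
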