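import Pool.Agent.WPQ.END

/-! [WPQ-NE8] Full Q1 of MP_c42e9d_al, block EN.

Plan.  `theorem en8 (h1 : st_EN1) (h2 : st_EN2e8) : st_EN8`.  `x = ∑ ν_i > 0` (integer), `N2 = formZ E₈ 1 ν ν`, `wtExp E₈ p (-ν) = p N2/2 + (p-1) x ≤ h`,
`x^2 ≤ 620 N2`.  `ls` from EN2e8 (`ls ≠ []` since `ν ≠ 0`), `9 ∑q ≤ 10 x`.  Suppose `p ∑q ≥ h + r²`; then `10 p x ≥ 9 (h + r²) > 9 h`.
`h ≥ p x²/1240 + (p-1) x ≥` (increasing in `x ≥ 9h/(10p)`) `81 h²/(124000 p) + 9 (p-1) h/(10 p)`, so (divide by `h`)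
(*) `1 ≥ 81 h/(124000 p) + 9 (p-1)/(10 p)`.  `h = (r²-1) w/4`, `w = -7/6 + 1240 (p-1)²/p`.  (*) is false for: `r = 2, p ≥ 4`
(`503440 p² - 2098647 p + 602640 > 0`); `r = 3, p ≥ 3`; `r ≥ 4, p ≥ 2` (use `h ≥ (15/4) w`).  `r = 2, p = 2, 3` and `r = 3, p = 2`: `h` is not an
integer (3713/8, 9913/8, 3713/3). -/

namespace WPQ

open MvPolynomial AF

noncomputable section

/-- The form of `E₈` is even. -/
private theorem ne8_even (ν : Fin 8 → ℤ) :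
    ∃ K : ℤ, ∑ i, ∑ j, ν i * CartanMatrix.E₈ i j * ν j = 2 * K := by
  refine ⟨ν 0 ^ 2 + ν 1 ^ 2 + ν 2 ^ 2 + ν 3 ^ 2 + ν 4 ^ 2 + ν 5 ^ 2 + ν 6 ^ 2 + ν 7 ^ 2 -
    ν 0 * ν 2 - ν 1 * ν 3 - ν 2 * ν 3 - ν 3 * ν 4 - ν 4 * ν 5 - ν 5 * ν 6 - ν 6 * ν 7, ?_⟩
  simp [Fin.sum_univ_succ, CartanMatrix.E₈]
  ring

/-- The numerical core: `81 h < 12400 p + 111600`. -/
private theorem ne8_core (P H X N R2 : ℚ) (hP : 2 ≤ P) (hH : 0 < H) (hR : 0 < R2)
    (hb : P * N + 2 * (P - 1) * X ≤ 2 * H) (hc : X ^ 2 ≤ 620 * N)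
    (hd : 9 * (H + R2) ≤ 10 * P * X) : 81 * H < 12400 * P + 111600 := by
  have h1 : P * X ^ 2 ≤ 620 * (P * N) := by
    have := mul_le_mul_of_nonneg_left hc (by linarith : (0 : ℚ) ≤ P)
    linarith
  have h2 : P * X ^ 2 + 1240 * (P - 1) * X ≤ 1240 * H := by nlinarith
  have h3 : (10 * P * X) ^ 2 + 12400 * (P - 1) * (10 * P * X) ≤ 124000 * P * H := by
    have h4 := mul_le_mul_of_nonneg_left h2 (by linarith : (0 : ℚ) ≤ 100 * P)
    have e1 : (10 * P * X) ^ 2 + 12400 * (P - 1) * (10 * P * X) =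
        100 * P * (P * X ^ 2 + 1240 * (P - 1) * X) := by ring
    rw [e1]
    linarith
  have h5 : 9 * H < 10 * P * X := by linarith
  have h6 : (9 * H) ^ 2 < (10 * P * X) ^ 2 := by
    apply pow_lt_pow_left₀ h5 (by linarith) (by norm_num)
  have h7 : 12400 * (P - 1) * (9 * H) ≤ 12400 * (P - 1) * (10 * P * X) :=
    mul_le_mul_of_nonneg_left h5.le (by linarith)
  have h8 : H * (81 * H + 111600 * (P - 1)) < H * (124000 * P) := by nlinarith
  have h9 := lt_of_mul_lt_mul_left h8 hH.le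
  linarith

/-- The contradiction for all `p`, `r`. -/
private theorem ne8_final (p r h : ℕ) (hp : 2 ≤ p) (hr : 2 ≤ r)
    (hh : (h : ℚ) = ((r : ℚ) ^ 2 - 1) * wR 8 620 p / 4)
    (hK : 81 * (h : ℚ) < 12400 * (p : ℚ) + 111600) : False := by
  have hP : (2 : ℚ) ≤ (p : ℚ) := by exact_mod_cast hp
  have hP0 : (p : ℚ) ≠ 0 := by
    intro h0
    rw [h0] at hP
    norm_num at hP
  have hH : 24 * (p : ℚ) * h = ((r : ℚ) ^ 2 - 1) * (-7 * p + 7440 * ((p : ℚ) - 1) ^ 2) := by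
    rw [hh, wR]
    field_simp
    ring
  have hw : (0 : ℚ) ≤ -7 * p + 7440 * ((p : ℚ) - 1) ^ 2 := by nlinarith
  rcases (by omega : r = 2 ∨ r = 3 ∨ 4 ≤ r) with h2 | h3 | h4
  · subst h2
    rcases (by omega : p = 2 ∨ p = 3 ∨ 4 ≤ p) with q2 | q3 | q4
    · subst q2
      norm_num at hH
      have e1 : (48 * h : ℚ) = 22278 := by linarith
      have e2 : 48 * h = 22278 := by exact_mod_cast e1
      omega
    · subst q3
      norm_num at hH
      have e1 : (72 * h : ℚ) = 89217 := by linarith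
      have e2 : 72 * h = 89217 := by exact_mod_cast e1
      omega
    · have hP4 : (4 : ℚ) ≤ (p : ℚ) := by exact_mod_cast q4
      norm_num at hH
      nlinarith
  · subst h3
    rcases (by omega : p = 2 ∨ 3 ≤ p) with q2 | q3
    · subst q2
      norm_num at hH
      have e1 : (48 * h : ℚ) = 59408 := by linarith
      have e2 : 48 * h = 59408 := by exact_mod_cast e1
      omega
    · have hP3 : (3 : ℚ) ≤ (p : ℚ) := by exact_mod_cast q3
      norm_num at hH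
      nlinarith
  · have hR : (16 : ℚ) ≤ (r : ℚ) ^ 2 := by
      have h5 : (4 : ℚ) ≤ (r : ℚ) := by exact_mod_cast h4
      nlinarith
    have h6 : 15 * (-7 * p + 7440 * ((p : ℚ) - 1) ^ 2) ≤
        ((r : ℚ) ^ 2 - 1) * (-7 * p + 7440 * ((p : ℚ) - 1) ^ 2) :=
      mul_le_mul_of_nonneg_right (by linarith) hw
    nlinarith

theorem en8 (h1 : st_EN1) (h2 : st_EN2e8) : st_EN8 := by
  intro p hp r h hr hh hhr _ ν hν hdom hwt
  obtain ⟨ls, hls, hsum, hq⟩ := h2 ν hdom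
  refine ⟨ls, ?_, hls, hsum, ?_⟩
  · intro h0
    rw [h0, List.sum_nil] at hsum
    exact hν hsum.symm
  · by_contra hcon
    rw [not_lt] at hcon
    obtain ⟨K, hKeq⟩ := ne8_even ν
    have hform : formZ CartanMatrix.E₈ p (-ν) (-ν) = 2 * (p * K) := by
      have e1 : ∀ i j, (-ν) i * CartanMatrix.E₈ i j * (-ν) j = ν i * CartanMatrix.E₈ i j * ν j := by
        intro i j
        rw [Pi.neg_apply, Pi.neg_apply]
        ring
      rw [formZ]
      simp only [e1]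
      rw [hKeq]
      ring
    have hform1 : formZ CartanMatrix.E₈ 1 ν ν = 2 * K := by
      rw [formZ, hKeq]
      push_cast
      ring
    have hwt2 : (p : ℤ) * K + ((p : ℤ) - 1) * ∑ i, ν i ≤ h := by
      have e2 : ∑ i, (-ν) i = -∑ i, ν i := by
        rw [← Finset.sum_neg_distrib]
        rfl
      rw [wtExp, hform, e2, Int.mul_ediv_cancel_left _ (by norm_num : (2 : ℤ) ≠ 0)] at hwt
      linarith
    have hX := h1.2.2 ν
    rw [hform1] at hX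
    have hR0 : 0 < (r : ℚ) * r := by
      have : (2 : ℚ) ≤ (r : ℚ) := by exact_mod_cast hr
      nlinarith
    refine ne8_final p r h hp hr hhr (ne8_core (p : ℚ) (h : ℚ) ((∑ i, ν i : ℤ) : ℚ)
      ((2 * K : ℤ) : ℚ) ((r : ℚ) * r) (by exact_mod_cast hp) (by exact_mod_cast hh) hR0 ?_ ?_ ?_)
    · have e3 : ((p : ℤ) * K + ((p : ℤ) - 1) * ∑ i, ν i : ℤ) ≤ ((h : ℤ) : ℤ) := hwt2
      have e4 : ((((p : ℤ) * K + ((p : ℤ) - 1) * ∑ i, ν i : ℤ)) : ℚ) ≤ ((h : ℤ) : ℚ) :=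
        Int.cast_le.2 e3
      push_cast at e4 ⊢
      linarith
    · have e4 : ((((∑ i, ν i) ^ 2 : ℤ)) : ℚ) ≤ ((620 * (2 * K) : ℤ) : ℚ) := Int.cast_le.2 hX
      push_cast at e4 ⊢
      linarith
    · have e3 : (9 * ((h : ℤ) + r * r) : ℤ) ≤ 10 * (p * ∑ i, ν i) := by
        have e5 : (p : ℤ) * (9 * (ls.map (qN CartanMatrix.E₈)).sum) ≤ p * (10 * ∑ i, ν i) :=
          mul_le_mul_of_nonneg_left hq (Int.natCast_nonneg p)
        linarith
      have e4 : ((9 * ((h : ℤ) + r * r) : ℤ) : ℚ) ≤ ((10 * (p * ∑ i, ν i) : ℤ) : ℚ) :=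
        Int.cast_le.2 e3
      push_cast at e4 ⊢
      linarith

end

end WPQ
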