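import Pool.Agent.WPQ.TLD

/-! [WPQ-TL2] Full Q1 of MP_c42e9d_al, block TL.

Plan (TL2 of W_DE_2.md).  Strong induction on `l.length`.  A word of homogeneous letters lies in `Wn A p w`,
`w = sumH l - sum k_i - length` (helper lemma, `mode_Wn`, `fi2_vac`/`vac_mem_W`).  If `w ≠ n`: `beta_wt`.  If `w = n`:
`sum (-k_i - 1) = n - sumH l > 0`, so some letter `c` has `c.k ≤ -2`.  `l = l1 ++ c :: l2`.  Move `c` to the front
(induction on `l1`): `wordL (l1 ++ c :: l2) = mode c.u c.k (wordL (l1 ++ l2)) - (sum of commutator words)`, where by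
`mode_comm` (VA3; `mode_trunc` for the bound) `mode d.u d.k ∘ mode c.u c.k = mode c.u c.k ∘ mode d.u d.k +
∑_t choose(d.k, t) mode (mode d.u t c.u) (d.k + c.k - t)`.  First term: `z = wordL (l1 ++ l2) ∈ Wn j`: `j ≥ 1`: in
`Gen ε n`; `j = 0`: `Wn_zero`: `z = a vac`, and `mode c.u (-1-s) vac`, `s ≥ 1`, is a multiple of `LS (-1)` of
`mode c.u (-s) vac` (translation covariance: `mode_spec .. translation`, `transl_vac`, `LS_zero_neg_one`): use `Perp.der`;
`j < 0`: `Wn_neg`.  Commutator words: one letter less; the new letter `mode d.u t c.u` has weight `d.h + c.h - t - 1`: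
`≥ 1`: induction (the sum of the weights drops by `t + 1`); `= 0`: `Wn_zero`, mode of `vac` (`mode_vac`): word with two
letters less or `0`; `< 0`: `Wn_neg`: `0`. -/

namespace WPQ

open MvPolynomial AF

noncomputable section

variable {ι : Type} [Fintype ι] [DecidableEq ι] {A : Matrix ι ι ℤ} {p : ℕ}

/-- the weight of a word -/
def tl2_wt (l : List (Letter ι)) : ℤ := (l.map fun c => c.h - c.k - 1).sum

/-- the operator of a word -/
def tl2_op (ε : Cocycle A p) : List (Letter ι) → VL ι →ₗ[ℂ] VL ι
  | [] => LinearMap.id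
  | c :: l => mode ε c.u c.k ∘ₗ tl2_op ε l

theorem tl2_word_append (ε : Cocycle A p) (l0 l : List (Letter ι)) :
    wordL ε (l0 ++ l) = tl2_op ε l0 (wordL ε l) := by
  induction l0 with
  | nil => rfl
  | cons c l0 ih =>
    show mode ε c.u c.k (wordL ε (l0 ++ l)) = mode ε c.u c.k (tl2_op ε l0 (wordL ε l))
    rw [ih]

theorem tl2_mem (hA : IsADE A) (hp : 2 ≤ p) (ε : Cocycle A p) (l : List (Letter ι))
    (hl : LetW A p l) : wordL ε l ∈ Wn A p (tl2_wt l) := by
  induction l with
  | nil => exact ⟨vac_mem_W hA (by omega), fi2_vac⟩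
  | cons c l ih =>
    have h1 := ih fun d hd => hl d (List.mem_cons_of_mem _ hd)
    have h2 := mode_Wn hA hp ε c.h (tl2_wt l) c.k c.u (wordL ε l)
      (hl c List.mem_cons_self).2 h1
    have h3 : tl2_wt (c :: l) = c.h + tl2_wt l - c.k - 1 := by
      unfold tl2_wt
      rw [List.map_cons, List.sum_cons]
      ring
    rw [h3]
    exact h2

theorem tl2_mode_zero (hA : IsADE A) (hp : 1 ≤ p) (ε : Cocycle A p) (k : ℤ) :
    mode ε (0 : VL ι) k = 0 := by
  have h := mode_smul hA hp ε 0 (0 : VL ι) k
  rw [zero_smul, zero_smul] at h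
  exact h

omit [Fintype ι] [DecidableEq ι] in
theorem tl2_sumH_append (l l' : List (Letter ι)) : sumH (l ++ l') = sumH l + sumH l' := by
  unfold sumH
  rw [List.map_append, List.sum_append]

omit [Fintype ι] [DecidableEq ι] in
theorem tl2_sumH_cons (c : Letter ι) (l : List (Letter ι)) : sumH (c :: l) = c.h + sumH l := by
  unfold sumH
  rw [List.map_cons, List.sum_cons]

/-- two neighbouring letters can be exchanged -/
theorem tl2_swap (hA : IsADE A) (hp : 2 ≤ p) (ε : Cocycle A p) (n : ℤ) (φ : VL ι →ₗ[ℂ] ℂ)
    (l0 l2 : List (Letter ι)) (d c : Letter ι)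
    (H : ∀ l' : List (Letter ι), l'.length < l0.length + l2.length + 2 → LetW A p l' →
      sumH l' < n → φ (wordL ε l') = 0)
    (hl : LetW A p (l0 ++ d :: c :: l2)) (hs : sumH (l0 ++ d :: c :: l2) < n) :
    φ (wordL ε (l0 ++ d :: c :: l2)) = φ (wordL ε (l0 ++ c :: d :: l2)) := by
  have hd := hl d (by simp)
  have hc := hl c (by simp)
  obtain ⟨M, hM⟩ := mode_trunc hA (by omega) ε d.u c.u
  have hcomm := mode_comm hA (by omega) ε d.u c.u M (fun j hj => hM j (by exact_mod_cast hj))
    d.k c.k
  have h1 : mode ε d.u d.k (mode ε c.u c.k (wordL ε l2)) =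
      mode ε c.u c.k (mode ε d.u d.k (wordL ε l2)) +
        ∑ j ∈ Finset.range M, ((Ring.choose d.k j : ℤ) : ℂ) •
          mode ε (mode ε d.u j c.u) (d.k + c.k - j) (wordL ε l2) := by
    have h2 := congrArg (fun F : VL ι →ₗ[ℂ] VL ι => F (wordL ε l2)) hcomm
    simp only [LinearMap.sub_apply, LinearMap.comp_apply, LinearMap.sum_apply,
      LinearMap.smul_apply] at h2
    rw [← h2]
    abel
  rw [tl2_word_append, tl2_word_append]
  show φ (tl2_op ε l0 (mode ε d.u d.k (mode ε c.u c.k (wordL ε l2)))) =
    φ (tl2_op ε l0 (mode ε c.u c.k (mode ε d.u d.k (wordL ε l2))))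
  rw [h1, map_add, map_add, map_sum, map_sum]
  have h3 : ∑ j ∈ Finset.range M, φ (tl2_op ε l0 (((Ring.choose d.k j : ℤ) : ℂ) •
      mode ε (mode ε d.u j c.u) (d.k + c.k - j) (wordL ε l2))) = 0 := by
    refine Finset.sum_eq_zero fun j _ => ?_
    rw [map_smul, map_smul]
    have hmem := mode_Wn hA hp ε d.h c.h j d.u c.u hd.2 hc.2
    have hs' : sumH l0 + (d.h + (c.h + sumH l2)) < n := by
      rw [tl2_sumH_append, tl2_sumH_cons, tl2_sumH_cons] at hs
      exact hs
    have h4 : φ (tl2_op ε l0 (mode ε (mode ε d.u j c.u) (d.k + c.k - j) (wordL ε l2))) = 0 := by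
      rcases lt_trichotomy (d.h + c.h - j - 1) 0 with h5 | h5 | h5
      · rw [Wn_neg hA hp _ h5] at hmem
        rw [(Submodule.mem_bot ℂ).mp hmem, tl2_mode_zero hA (by omega), LinearMap.zero_apply,
          map_zero, map_zero]
      · rw [h5] at hmem
        obtain ⟨a, ha⟩ := Wn_zero hA hp _ hmem
        rw [ha, mode_smul hA (by omega), mode_vac hA (by omega)]
        by_cases h6 : d.k + c.k - j = -1
        · rw [if_pos h6, LinearMap.smul_apply, LinearMap.id_apply, map_smul, map_smul,
            ← tl2_word_append, H (l0 ++ l2) ?_ ?_ ?_, smul_zero]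
          · rw [List.length_append]
            omega
          · intro x hx
            refine hl x ?_
            simp only [List.mem_append, List.mem_cons] at hx ⊢
            tauto
          · rw [tl2_sumH_append]
            have := hd.1
            have := hc.1
            omega
        · rw [if_neg h6, smul_zero, LinearMap.zero_apply, map_zero, map_zero]
      · have h6 := H (l0 ++ (⟨0, d.h + c.h - j - 1, mode ε d.u j c.u, d.k + c.k - j⟩ :
          Letter ι) :: l2) (by rw [List.length_append, List.length_cons]; omega) (by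
            intro x hx
            rcases List.mem_append.mp hx with h7 | h7
            · exact hl x (List.mem_append.mpr (Or.inl h7))
            · rcases List.mem_cons.mp h7 with h8 | h8
              · rw [h8]
                exact ⟨h5, hmem⟩
              · refine hl x ?_
                simp only [List.mem_append, List.mem_cons]
                tauto) (by
            rw [tl2_sumH_append, tl2_sumH_cons]
            show sumH l0 + ((d.h + c.h - j - 1) + sumH l2) < n
            omega)
        rw [tl2_word_append] at h6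
        exact h6
    rw [h4, smul_zero]
  rw [h3, add_zero]

/-- a letter can be moved to the front -/
theorem tl2_front (hA : IsADE A) (hp : 2 ≤ p) (ε : Cocycle A p) (n : ℤ) (φ : VL ι →ₗ[ℂ] ℂ)
    (c : Letter ι) (l1 : List (Letter ι)) : ∀ l2 : List (Letter ι),
    (∀ l' : List (Letter ι), l'.length < l1.length + l2.length + 1 → LetW A p l' →
      sumH l' < n → φ (wordL ε l') = 0) →
    LetW A p (l1 ++ c :: l2) → sumH (l1 ++ c :: l2) < n →
    φ (wordL ε (l1 ++ c :: l2)) = φ (wordL ε (c :: (l1 ++ l2))) := by
  induction l1 using List.reverseRecOn with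
  | nil => intro l2 _ _ _; rfl
  | append_singleton l1 d ih =>
    intro l2 H hl hs
    rw [List.append_assoc] at hl hs ⊢
    rw [List.length_append, List.length_singleton] at H
    have h1 := tl2_swap hA hp ε n φ l1 l2 d c (fun l' h1 h2 h3 => H l' (by omega) h2 h3) hl hs
    have h2 := ih (d :: l2) (fun l' h1 h2 h3 => H l' (by rw [List.length_cons] at h1; omega) h2 h3)
      (by
        intro x hx
        refine hl x ?_
        simp only [List.mem_append, List.mem_cons, List.singleton_append] at hx ⊢
        tauto) (by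
        rw [List.singleton_append, tl2_sumH_append, tl2_sumH_cons, tl2_sumH_cons] at hs
        rw [tl2_sumH_append, tl2_sumH_cons, tl2_sumH_cons]
        omega)
    rw [List.singleton_append, h1, h2]
    rw [List.append_assoc, List.singleton_append]

omit [Fintype ι] [DecidableEq ι] in
theorem tl2_exists_k (l : List (Letter ι)) (h : sumH l < tl2_wt l) : ∃ c ∈ l, c.k ≤ -2 := by
  induction l with
  | nil => exact absurd h (lt_irrefl _)
  | cons c l ih =>
    by_cases hc : c.k ≤ -2
    · exact ⟨c, List.mem_cons_self, hc⟩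
    · have h3 : tl2_wt (c :: l) = (c.h - c.k - 1) + tl2_wt l := by
        unfold tl2_wt
        rw [List.map_cons, List.sum_cons]
      rw [h3, tl2_sumH_cons] at h
      obtain ⟨d, hd, hd2⟩ := ih (by omega)
      exact ⟨d, List.mem_cons_of_mem _ hd, hd2⟩

omit [Fintype ι] [DecidableEq ι] in
theorem tl2_wt_move (l1 l2 : List (Letter ι)) (c : Letter ι) :
    tl2_wt (l1 ++ c :: l2) = c.h - c.k - 1 + tl2_wt (l1 ++ l2) := by
  unfold tl2_wt
  rw [List.map_append, List.map_append, List.map_cons, List.sum_append, List.sum_append,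
    List.sum_cons]
  ring

theorem tl2 : st_TL2 := by
  intro ι _ _ A hA p hp ε τ hτ n y hn hy
  let φ : VL ι →ₗ[ℂ] ℂ :=
    { toFun := beta ε τ y
      map_add' := beta_add_right ε τ y
      map_smul' := fun c v => by rw [beta_smul_right]; rfl }
  have hφ : ∀ v, φ v = beta ε τ y v := fun v => rfl
  have main : ∀ N : ℕ, ∀ l : List (Letter ι), l.length = N → LetW A p l → sumH l < n →
      φ (wordL ε l) = 0 := by
    intro N
    induction N using Nat.strong_induction_on with
    | _ N IH =>
      intro l hN hl hs
      by_cases hw : n = tl2_wt l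
      · obtain ⟨c, hc, hck⟩ := tl2_exists_k l (by omega)
        obtain ⟨l1, l2, rfl⟩ := List.append_of_mem hc
        rw [List.length_append, List.length_cons] at hN
        rw [tl2_front hA hp ε n φ c l1 l2 (fun l' h1 h2 h3 => IH _ (by omega) l' rfl h2 h3) hl hs]
        have hlc := hl c (by simp)
        have hl12 : LetW A p (l1 ++ l2) := by
          intro x hx
          refine hl x ?_
          simp only [List.mem_append, List.mem_cons] at hx ⊢
          tauto
        have hz := tl2_mem hA hp ε (l1 ++ l2) hl12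
        rw [tl2_wt_move] at hw
        show φ (mode ε c.u c.k (wordL ε (l1 ++ l2))) = 0
        rcases lt_trichotomy (tl2_wt (l1 ++ l2)) 0 with h5 | h5 | h5
        · rw [Wn_neg hA hp _ h5] at hz
          rw [(Submodule.mem_bot ℂ).mp hz, map_zero, map_zero]
        · rw [h5] at hz
          obtain ⟨a, ha⟩ := Wn_zero hA hp _ hz
          rw [ha, map_smul, map_smul]
          have h6 : φ (mode ε c.u c.k vac) = 0 := by
            have ht := (mode_spec hA (by omega) ε c.u).translation (c.k + 1)
            have h7 := congrArg (fun F : VL ι →ₗ[ℂ] VL ι => F vac) ht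
            simp only [LinearMap.sub_apply, LinearMap.comp_apply, LinearMap.smul_apply,
              transl_vac, map_zero, sub_zero, add_sub_cancel_right] at h7
            have h8 : mode ε c.u (c.k + 1) vac ∈ Wn A p (n - 1) := by
              have h9 := mode_Wn hA hp ε c.h 0 (c.k + 1) c.u vac hlc.2
                ⟨vac_mem_W hA (by omega), fi2_vac⟩
              have h10 : c.h + 0 - (c.k + 1) - 1 = n - 1 := by omega
              rwa [h10] at h9
            have h9 := hy.der _ h8
            rw [LS_zero_neg_one, h7, ← hφ, map_smul] at h9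
            have h10 : (-((c.k + 1 : ℤ) : ℂ)) ≠ 0 := by
              rw [neg_ne_zero]
              exact_mod_cast (by omega : c.k + 1 ≠ 0)
            exact (smul_eq_zero.mp h9).resolve_left h10
          rw [h6, smul_zero]
        · refine hy.gen _ (Submodule.subset_span ⟨c.h, tl2_wt (l1 ++ l2), c.k, c.u,
            wordL ε (l1 ++ l2), hlc.1, h5, by omega, by omega, hlc.2, hz, rfl⟩)
      · exact beta_wt hA hp ε τ hτ n (tl2_wt l) y (wordL ε l) hy.mem.2 (tl2_mem hA hp ε l hl).2 hw
  exact fun l hl hs => main _ l rfl hl hs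

end

end WPQ
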