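import Pool.Agent.WPQ.TLD

/-! [WPQ-TL3a] Full Q1 of MP_c42e9d_al, block TL.

Plan (TL3 of W_DE_2.md).  Take `(h0 : st_TL0)` as a hypothesis if you like: write `theorem tl3a (h0 : st_TL0) : st_TL3a`.
`mode_nop` (VA1, `IsNop`): `mode (mode b (-1) a) k Z = ∑_{i<M} (mode b (-1-i) (mode a (k+i) Z) + mode a (k-1-i) (mode b i Z))` for `M`
large, `Z = wordL l2`.  Apply the operators of `l1`.
(1) `U (mode b (-1-i) z')`, `z' = mode a (k+i) Z`: move `mode b (-1-i)` to the front of `l1` (`mode_comm` with `u = b`, `v = c.u`: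
`[mode b r, mode c.u c.k] = ∑_t choose(r,t) mode (mode b t c.u) (r + c.k - t)`; `mode b t c.u ∈ MNU c.lam (m + c.h - t - 1)` by
TL0): the commutator words are words `l'` with the same labels `lam`, letters in `MNU`, and
`sumH l' = sumH l1 + h + sumH l2 - 1 - t`: `0` by hypothesis.  The remaining term is `mode b (-1-i) z''`, `z''` the word
`l1 ++ ⟨lam, h-m, a, k+i⟩ :: l2`, which lies in some `Wn j` and has charge `-(∑ lam) ≠ 0` (all labels dominant and `≠ 0`, so
the height is positive: `ht > 0` for dominant nonzero, see `wtExp_pos`/`dom_ht_pos` type lemmas, or `sign`/`pos` lemmas in the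
library; alternative: all elements of `MNU lam h` with `lam ≠ 0` dominant have weight `≥ 1`, and a dominant nonzero sum of
dominant vectors is nonzero because `IsADE.pos`).  If `j ≤ 0` then `z'' = 0` (`Wn_neg`, `Wn_zero` and the charge); if `j ≥ 1`
then `mode b (-1-i) z''` lies in `Gen ε n` or in a weight `≠ n` (`beta_wt`): `β = 0`.
(2) `U (mode a (k-1-i) (mode b i Z))`, `i ≥ 0`: move `mode b i` through `l2` to the right (`mode b i vac = 0` for `i ≥ 0`);
only commutator words remain, with `sumH l' = .. - 1 - t`. -/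

namespace WPQ

open MvPolynomial AF

noncomputable section

section aux

variable {ι : Type} [Fintype ι] [DecidableEq ι] {A : Matrix ι ι ℤ} {p : ℕ}

/-- The operator of a word. -/
private def tl3a_app (ε : Cocycle A p) : List (Letter ι) → VL ι →ₗ[ℂ] VL ι
  | [] => LinearMap.id
  | c :: l => mode ε c.u c.k ∘ₗ tl3a_app ε l

private theorem tl3a_append (ε : Cocycle A p) (l1 l2 : List (Letter ι)) :
    wordL ε (l1 ++ l2) = tl3a_app ε l1 (wordL ε l2) := by
  induction l1 with
  | nil => rfl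
  | cons c l ih =>
    change mode ε c.u c.k (wordL ε (l ++ l2)) = mode ε c.u c.k (tl3a_app ε l (wordL ε l2))
    rw [ih]

omit [Fintype ι] [DecidableEq ι] in
private theorem tl3a_sumH_cons (c : Letter ι) (l : List (Letter ι)) :
    sumH (c :: l) = c.h + sumH l := by
  rw [sumH, List.map_cons, List.sum_cons]
  rfl

omit [Fintype ι] [DecidableEq ι] in
private theorem tl3a_sumH_append (l1 l2 : List (Letter ι)) :
    sumH (l1 ++ l2) = sumH l1 + sumH l2 := by
  rw [sumH, List.map_append, List.sum_append]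
  rfl

/-- The span of the words with labels `Λ` and sum of weights `≤ N`. -/
private def tl3a_S (ε : Cocycle A p) (Λ : List (ι → ℤ)) (N : ℤ) : Submodule ℂ (VL ι) :=
  Submodule.span ℂ {v | ∃ l' : List (Letter ι), LetM ε l' ∧ l'.map Letter.lam = Λ ∧
    sumH l' ≤ N ∧ v = wordL ε l'}

private theorem tl3a_S_mono (ε : Cocycle A p) (Λ : List (ι → ℤ)) (N N' : ℤ) (h : N ≤ N')
    (v : VL ι) (hv : v ∈ tl3a_S ε Λ N) : v ∈ tl3a_S ε Λ N' := by
  refine Submodule.span_mono ?_ hv
  rintro v ⟨l', h1, h2, h3, h4⟩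
  exact ⟨l', h1, h2, h3.trans h, h4⟩

private theorem tl3a_LetM_cons (ε : Cocycle A p) (c : Letter ι) (l : List (Letter ι))
    (hc : c.lam ≠ 0 ∧ Dom A c.lam ∧ c.u ∈ MNU ε c.lam c.h) (hl : LetM ε l) :
    LetM ε (c :: l) := by
  intro d hd
  rcases List.mem_cons.1 hd with h | h
  · rw [h]
    exact hc
  · exact hl d h

private theorem tl3a_S_cons (ε : Cocycle A p) (c : Letter ι)
    (hc : c.lam ≠ 0 ∧ Dom A c.lam ∧ c.u ∈ MNU ε c.lam c.h) (Λ : List (ι → ℤ)) (N : ℤ)
    (v : VL ι) (hv : v ∈ tl3a_S ε Λ N) : mode ε c.u c.k v ∈ tl3a_S ε (c.lam :: Λ) (c.h + N) := by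
  refine Submodule.span_induction
    (p := fun v _ => mode ε c.u c.k v ∈ tl3a_S ε (c.lam :: Λ) (c.h + N)) ?_ ?_ ?_ ?_ hv
  · rintro v ⟨l', h1, h2, h3, h4⟩
    refine Submodule.subset_span ⟨c :: l', tl3a_LetM_cons ε c l' hc h1, ?_, ?_, ?_⟩
    · rw [List.map_cons, h2]
    · rw [tl3a_sumH_cons]
      omega
    · rw [h4]
      rfl
  · rw [map_zero]
    exact Submodule.zero_mem _
  · intro x y _ _ hx hy
    rw [map_add]
    exact Submodule.add_mem _ hx hy
  · intro r x _ hx
    rw [map_smul]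
    exact Submodule.smul_mem _ _ hx

private theorem tl3a_S_app (ε : Cocycle A p) (l : List (Letter ι)) (hl : LetM ε l)
    (Λ : List (ι → ℤ)) (N : ℤ) (v : VL ι) (hv : v ∈ tl3a_S ε Λ N) :
    tl3a_app ε l v ∈ tl3a_S ε (l.map Letter.lam ++ Λ) (sumH l + N) := by
  induction l with
  | nil =>
    have e1 : sumH ([] : List (Letter ι)) + N = N := by
      rw [sumH, List.map_nil, List.sum_nil, zero_add]
    rw [e1]
    exact hv
  | cons c l ih =>
    have h1 := ih fun d hd => hl d (List.mem_cons_of_mem _ hd)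
    have h2 := tl3a_S_cons ε c (hl c List.mem_cons_self) _ _ _ h1
    rw [tl3a_sumH_cons, List.map_cons, List.cons_append, add_assoc]
    exact h2

/-- The commutator of `b_(r)` with a letter. -/
private theorem tl3a_comm (hA : IsADE A) (hp : 2 ≤ p) (h0 : st_TL0) (ε : Cocycle A p) (m : ℤ)
    (b : VL ι) (hb : b ∈ Wk ε) (hbm : b ∈ Vn A p m) (c : Letter ι)
    (hc : c.lam ≠ 0 ∧ Dom A c.lam ∧ c.u ∈ MNU ε c.lam c.h) (l : List (Letter ι))
    (hl : LetM ε l) (r : ℤ) :
    mode ε b r (mode ε c.u c.k (wordL ε l)) - mode ε c.u c.k (mode ε b r (wordL ε l)) ∈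
      tl3a_S ε (c.lam :: l.map Letter.lam) (m + c.h - 1 + sumH l) := by
  have hp1 : 1 ≤ p := by omega
  obtain ⟨M, hM⟩ := mode_trunc hA hp1 ε b c.u
  have h1 := mode_comm hA hp1 ε b c.u M (fun j hj => hM j (by exact_mod_cast hj)) r c.k
  have h2 := LinearMap.congr_fun h1 (wordL ε l)
  rw [LinearMap.sub_apply, LinearMap.comp_apply, LinearMap.comp_apply, LinearMap.sum_apply] at h2
  rw [h2]
  refine Submodule.sum_mem _ fun j _ => ?_
  rw [LinearMap.smul_apply]
  refine Submodule.smul_mem _ _ (Submodule.subset_span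
    ⟨⟨c.lam, m + c.h - j - 1, mode ε b j c.u, r + c.k - j⟩ :: l, ?_, ?_, ?_, rfl⟩)
  · refine tl3a_LetM_cons ε _ l ⟨hc.1, hc.2.1, ?_⟩ hl
    exact (h0 ι A hA p hp ε c.lam).1 m c.h j b c.u hb hbm hc.2.2
  · rw [List.map_cons]
  · rw [tl3a_sumH_cons]
    have hj : (0 : ℤ) ≤ (j : ℤ) := Int.natCast_nonneg j
    change m + c.h - (j : ℤ) - 1 + sumH l ≤ m + c.h - 1 + sumH l
    omega

/-- Moving `b_(r)` to the front. -/
private theorem tl3a_front (hA : IsADE A) (hp : 2 ≤ p) (h0 : st_TL0) (ε : Cocycle A p) (m : ℤ)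
    (b : VL ι) (hb : b ∈ Wk ε) (hbm : b ∈ Vn A p m) (l1 l2 : List (Letter ι))
    (hl1 : LetM ε l1) (hl2 : LetM ε l2) (r : ℤ) :
    tl3a_app ε l1 (mode ε b r (wordL ε l2)) - mode ε b r (wordL ε (l1 ++ l2)) ∈
      tl3a_S ε ((l1 ++ l2).map Letter.lam) (sumH (l1 ++ l2) + m - 1) := by
  induction l1 with
  | nil =>
    have e1 : tl3a_app ε ([] : List (Letter ι)) (mode ε b r (wordL ε l2)) -
        mode ε b r (wordL ε ([] ++ l2)) = 0 := sub_self _
    rw [e1]
    exact Submodule.zero_mem _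
  | cons c l ih =>
    have hl : LetM ε l := fun d hd => hl1 d (List.mem_cons_of_mem _ hd)
    have hc := hl1 c List.mem_cons_self
    have hll : LetM ε (l ++ l2) := by
      intro d hd
      rcases List.mem_append.1 hd with h | h
      · exact hl d h
      · exact hl2 d h
    have h1 := tl3a_S_cons ε c hc _ _ _ (ih hl)
    have h2 := tl3a_comm hA hp h0 ε m b hb hbm c hc (l ++ l2) hll r
    rw [List.cons_append, List.map_cons, tl3a_sumH_cons]
    have e1 : tl3a_app ε (c :: l) (mode ε b r (wordL ε l2)) -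
        mode ε b r (wordL ε (c :: (l ++ l2))) =
        mode ε c.u c.k (tl3a_app ε l (mode ε b r (wordL ε l2)) - mode ε b r (wordL ε (l ++ l2))) -
        (mode ε b r (mode ε c.u c.k (wordL ε (l ++ l2))) -
          mode ε c.u c.k (mode ε b r (wordL ε (l ++ l2)))) := by
      change mode ε c.u c.k (tl3a_app ε l (mode ε b r (wordL ε l2))) -
        mode ε b r (mode ε c.u c.k (wordL ε (l ++ l2))) = _
      rw [map_sub]
      abel
    rw [e1]
    refine Submodule.sub_mem _ ?_ ?_
    · exact tl3a_S_mono ε _ _ _ (by omega) _ h1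
    · exact tl3a_S_mono ε _ _ _ (by omega) _ h2

/-- Moving `b_(i)`, `i ≥ 0`, to the vacuum. -/
private theorem tl3a_back (hA : IsADE A) (hp : 2 ≤ p) (h0 : st_TL0) (ε : Cocycle A p) (m : ℤ)
    (b : VL ι) (hb : b ∈ Wk ε) (hbm : b ∈ Vn A p m) (l : List (Letter ι)) (hl : LetM ε l)
    (i : ℕ) :
    mode ε b i (wordL ε l) ∈ tl3a_S ε (l.map Letter.lam) (sumH l + m - 1) := by
  induction l with
  | nil =>
    have e1 : mode ε b i (wordL ε ([] : List (Letter ι))) = 0 :=
      (mode_spec hA (by omega) ε b).vacuum i (Int.natCast_nonneg i)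
    rw [e1]
    exact Submodule.zero_mem _
  | cons c l ih =>
    have hl' : LetM ε l := fun d hd => hl d (List.mem_cons_of_mem _ hd)
    have hc := hl c List.mem_cons_self
    have h1 := tl3a_S_cons ε c hc _ _ _ (ih hl')
    have h2 := tl3a_comm hA hp h0 ε m b hb hbm c hc l hl' i
    rw [List.map_cons, tl3a_sumH_cons]
    have e1 : mode ε b i (wordL ε (c :: l)) =
        mode ε c.u c.k (mode ε b i (wordL ε l)) +
        (mode ε b i (mode ε c.u c.k (wordL ε l)) - mode ε c.u c.k (mode ε b i (wordL ε l))) := by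
      rw [add_sub_cancel]
      rfl
    rw [e1]
    refine Submodule.add_mem _ ?_ ?_
    · exact tl3a_S_mono ε _ _ _ (by omega) _ h1
    · exact tl3a_S_mono ε _ _ _ (by omega) _ h2

/-- Weight and charge of a word. -/
private theorem tl3a_wt (hA : IsADE A) (hp : 2 ≤ p) (ε : Cocycle A p) (l : List (Letter ι))
    (hl : LetM ε l) : ∃ j : ℤ, wordL ε l ∈ Wn A p j ∧
      wordL ε l ∈ Finsupp.supported (Fock ι) ℂ {-(l.map Letter.lam).sum} := by
  have hp1 : 1 ≤ p := by omega
  induction l with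
  | nil =>
    refine ⟨0, Submodule.mem_inf.2 ⟨vac_mem_W hA hp1, fi2_vac⟩, ?_⟩
    rw [List.map_nil, List.sum_nil, neg_zero]
    exact Finsupp.single_mem_supported _ _ (Set.mem_singleton _)
  | cons c l ih =>
    obtain ⟨j, h1, h2⟩ := ih fun d hd => hl d (List.mem_cons_of_mem _ hd)
    have hc := ((mem_MNU ε c.lam c.h c.u).1 (hl c List.mem_cons_self).2.2)
    refine ⟨c.h + j - c.k - 1, mode_Wn hA hp ε c.h j c.k c.u _ hc.1 h1, ?_⟩
    rw [List.map_cons, List.sum_cons, neg_add]
    exact mode_charge hA hp1 ε _ _ c.k c.u _ hc.2.1 h2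

/-- A non-empty sum of dominant nonzero vectors is not zero. -/
private theorem tl3a_sum_ne (hA : IsADE A) (lam : ι → ℤ) (Λ : List (ι → ℤ)) (h0 : lam ≠ 0)
    (h1 : Dom A lam) (h2 : ∀ x ∈ Λ, Dom A x) : lam + Λ.sum ≠ 0 := by
  intro h
  have hadd : ∀ (j : ι) (x y : ι → ℤ), pr A j (x + y) = pr A j x + pr A j y := by
    intro j x y
    have h3 : pr A j (x + y) = A.mulVec (x + y) j := rfl
    rw [h3, Matrix.mulVec_add]
    rfl
  have hz : ∀ j : ι, pr A j (0 : ι → ℤ) = 0 := by
    intro j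
    have h3 : pr A j (0 : ι → ℤ) = A.mulVec 0 j := rfl
    rw [h3, Matrix.mulVec_zero]
    rfl
  have h4 : Dom A Λ.sum := by
    clear h
    induction Λ with
    | nil =>
      intro j
      rw [List.sum_nil, hz]
    | cons x Λ ih =>
      intro j
      rw [List.sum_cons, hadd]
      exact add_nonneg (h2 x List.mem_cons_self j)
        (ih (fun y hy => h2 y (List.mem_cons_of_mem _ hy)) j)
  have h5 : ∀ j, pr A j lam = 0 := by
    intro j
    have h6 := hadd j lam Λ.sum
    rw [h, hz] at h6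
    have h7 := h1 j
    have h8 := h4 j
    omega
  have h9 := bl_self_pos hA lam h0
  have h10 : bl A lam lam = 0 := by
    rw [jj1_bl_eq]
    exact Finset.sum_eq_zero fun i _ => by rw [h5 i, mul_zero]
  omega

/-- Words of weight `≤ 0` with a letter vanish. -/
private theorem tl3a_low (hA : IsADE A) (hp : 2 ≤ p) (ε : Cocycle A p) (l : List (Letter ι))
    (hs : (l.map Letter.lam).sum ≠ 0) (j : ℤ) (hj : j ≤ 0)
    (hw : wordL ε l ∈ Wn A p j)
    (hc : wordL ε l ∈ Finsupp.supported (Fock ι) ℂ {-(l.map Letter.lam).sum}) :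
    wordL ε l = 0 := by
  rcases lt_or_eq_of_le hj with h | h
  · rw [Wn_neg hA hp j h, Submodule.mem_bot] at hw
    exact hw
  · rw [h] at hw
    obtain ⟨a, ha⟩ := Wn_zero hA hp _ hw
    have h1 : wordL ε l 0 = 0 := by
      by_contra hne
      have h2 := (Finsupp.mem_supported _ _).1 hc (Finsupp.mem_support_iff.2 hne)
      have h3 : (0 : ι → ℤ) = -(l.map Letter.lam).sum := h2
      exact hs (neg_eq_zero.1 h3.symm)
    rw [ha] at h1 ⊢
    have h4 : (a • (vac : VL ι)) 0 = a • (1 : Fock ι) := by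
      rw [Finsupp.smul_apply, vac, Finsupp.single_eq_same]
    rw [h4] at h1
    rcases smul_eq_zero.1 h1 with h5 | h5
    · rw [h5, zero_smul]
    · exact absurd h5 one_ne_zero

/-- The kernel of the functional `β(y, ·)`. -/
private def tl3a_K (ε : Cocycle A p) (τ : Shift A p) (y : VL ι) : Submodule ℂ (VL ι) where
  carrier := {v | beta ε τ y v = 0}
  add_mem' := by
    intro u v hu hv
    change beta ε τ y (u + v) = 0
    rw [beta_add_right, show beta ε τ y u = 0 from hu, show beta ε τ y v = 0 from hv, add_zero]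
  zero_mem' := by
    change beta ε τ y 0 = 0
    have h := beta_smul_right ε τ 0 y 0
    rw [zero_smul, zero_mul] at h
    exact h
  smul_mem' := by
    intro c v hv
    change beta ε τ y (c • v) = 0
    rw [beta_smul_right, show beta ε τ y v = 0 from hv, mul_zero]

end aux

theorem tl3a (h0 : st_TL0) : st_TL3a := by
  intro ι _ _ A hA p hp ε τ hτ n y hn hy l1 l2 lam h m k b a hl hlam hdom hm hb hbm ha hyp
  have hp1 : 1 ≤ p := by omega
  have hl1 : LetM ε l1 := fun d hd => hl d (List.mem_append_left _ hd)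
  have hl2 : LetM ε l2 := fun d hd => hl d (List.mem_append_right _ hd)
  have hbW : b ∈ Wn A p m := Submodule.mem_inf.2 ⟨hb.1, hbm⟩
  -- words of smaller weight are in the kernel
  have hK : ∀ N : ℤ, N < sumH l1 + h + sumH l2 → ∀ v ∈ tl3a_S ε
      ((l1 ++ ⟨lam, 0, 0, 0⟩ :: l2).map Letter.lam) N, v ∈ tl3a_K ε τ y := by
    intro N hN v hv
    refine (Submodule.span_le.2 ?_) hv
    rintro v ⟨l', e1, e2, e3, e4⟩
    change beta ε τ y v = 0
    rw [e4]
    exact hyp l' e1 e2 (lt_of_le_of_lt e3 hN)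
  have hlab : ∀ c : Letter ι, c.lam = lam → (l1 ++ c :: l2).map Letter.lam =
      (l1 ++ ⟨lam, 0, 0, 0⟩ :: l2).map Letter.lam := by
    intro c hc
    rw [List.map_append, List.map_append, List.map_cons, List.map_cons, hc]
  obtain ⟨M, hM⟩ := mode_nop hA hp1 ε b a k (wordL ε l2)
  have e0 : wordL ε (l1 ++ ⟨lam, h, mode ε b (-1) a, k⟩ :: l2) =
      ∑ i ∈ Finset.range M,
        (tl3a_app ε l1 (mode ε b (-1 - (i : ℤ)) (mode ε a (k + i) (wordL ε l2))) +
        tl3a_app ε l1 (mode ε a (k - 1 - i) (mode ε b i (wordL ε l2)))) := by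
    rw [tl3a_append]
    change tl3a_app ε l1 (mode ε (mode ε b (-1) a) k (wordL ε l2)) = _
    rw [hM M le_rfl, map_sum]
    exact Finset.sum_congr rfl fun i _ => map_add _ _ _
  rw [e0]
  refine Submodule.sum_mem (tl3a_K ε τ y) fun i _ => Submodule.add_mem _ ?_ ?_
  · -- the terms `b_(-1-i)`
    set c : Letter ι := ⟨lam, h - m, a, k + i⟩ with hcdef
    have hc : c.lam ≠ 0 ∧ Dom A c.lam ∧ c.u ∈ MNU ε c.lam c.h := ⟨hlam, hdom, ha⟩
    have hcl : LetM ε (c :: l2) := tl3a_LetM_cons ε c l2 hc hl2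
    have hall : LetM ε (l1 ++ c :: l2) := by
      intro d hd
      rcases List.mem_append.1 hd with h' | h'
      · exact hl1 d h'
      · exact hcl d h'
    have h1 := tl3a_front hA hp h0 ε m b hb hbm l1 (c :: l2) hl1 hcl (-1 - (i : ℤ))
    have h2 : tl3a_app ε l1 (mode ε b (-1 - (i : ℤ)) (wordL ε (c :: l2))) -
        mode ε b (-1 - (i : ℤ)) (wordL ε (l1 ++ c :: l2)) ∈ tl3a_K ε τ y := by
      refine hK (sumH (l1 ++ c :: l2) + m - 1) ?_ _ ?_
      · rw [tl3a_sumH_append, tl3a_sumH_cons]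
        change sumH l1 + (h - m + sumH l2) + m - 1 < sumH l1 + h + sumH l2
        omega
      · rw [← hlab c rfl]
        exact h1
    have h3 : mode ε b (-1 - (i : ℤ)) (wordL ε (l1 ++ c :: l2)) ∈ tl3a_K ε τ y := by
      obtain ⟨j, hj1, hj2⟩ := tl3a_wt hA hp ε (l1 ++ c :: l2) hall
      have hne : ((l1 ++ c :: l2).map Letter.lam).sum ≠ 0 := by
        have e1 : ((l1 ++ c :: l2).map Letter.lam).sum =
            lam + ((l1 ++ l2).map Letter.lam).sum := by
          rw [List.map_append, List.map_cons, List.sum_append, List.sum_cons, List.map_append,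
            List.sum_append]
          change (l1.map Letter.lam).sum + (lam + (l2.map Letter.lam).sum) = _
          abel
        rw [e1]
        refine tl3a_sum_ne hA lam _ hlam hdom fun x hx => ?_
        obtain ⟨d, hd, hdx⟩ := List.mem_map.1 hx
        rw [← hdx]
        exact (hl d hd).2.1
      by_cases hj : j ≤ 0
      · rw [tl3a_low hA hp ε _ hne j hj hj1 hj2, map_zero]
        exact Submodule.zero_mem _
      · by_cases hwn : m + j - (-1 - (i : ℤ)) - 1 = n
        · refine hy.gen _ (Submodule.subset_span ⟨m, j, -1 - (i : ℤ), b, _, hm, by omega, ?_,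
            hwn, hbW, hj1, rfl⟩)
          have hi : (0 : ℤ) ≤ (i : ℤ) := Int.natCast_nonneg i
          omega
        · have h4 := mode_Wn hA hp ε m j (-1 - (i : ℤ)) b _ hbW hj1
          exact beta_wt hA hp ε τ hτ n _ y _ (Submodule.mem_inf.1 hy.mem).2
            (Submodule.mem_inf.1 h4).2 (Ne.symm hwn)
    have h5 := Submodule.add_mem _ h2 h3
    rw [sub_add_cancel] at h5
    exact h5
  · -- the terms `b_(i)`, `i ≥ 0`
    have h1 := tl3a_back hA hp h0 ε m b hb hbm l2 hl2 i
    have h2 := tl3a_S_cons ε ⟨lam, h - m, a, k - 1 - i⟩ ⟨hlam, hdom, ha⟩ _ _ _ h1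
    have h3 := tl3a_S_app ε l1 hl1 _ _ _ h2
    refine hK (sumH l1 + ((h - m) + (sumH l2 + m - 1))) (by omega) _ ?_
    rw [List.map_append, List.map_cons]
    exact h3

end

end WPQ
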