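import Pool.Agent.WPQ.TLD

/-! [WPQ-TL3b] Full Q1 of MP_c42e9d_al, block TL.

Plan.  `LS zero (-1) = transl` (`LS_zero_neg_one`), `mode_transl` (VA1): `mode (transl a) k = (-k) • mode a (k-1)`; so the word
is `(-k)` times the word with the letter `⟨lam, h-1, a, k-1⟩`, which is `0` by the hypothesis (`sumH` drops by `1`); linearity of
the operators of `l1` in the argument (`map_smul`), `beta_smul_right`. -/

namespace WPQ

open MvPolynomial AF

noncomputable section

section aux

variable {ι : Type} [Fintype ι] [DecidableEq ι] {A : Matrix ι ι ℤ} {p : ℕ}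

theorem tl3b_smul (ε : Cocycle A p) (c : ℂ) (v w : VL ι) (hA : IsADE A) (l2 : List (Letter ι))
    (x y : Letter ι) (h : mode ε x.u x.k (wordL ε l2) = c • mode ε y.u y.k (wordL ε l2)) :
    ∀ l1 : List (Letter ι), wordL ε (l1 ++ x :: l2) = c • wordL ε (l1 ++ y :: l2)
  | [] => h
  | d :: l1 => by
    have ih := tl3b_smul ε c v w hA l2 x y h l1
    rw [List.cons_append, List.cons_append, wordL, wordL, ih, map_smul]

end aux

theorem tl3b : st_TL3b := by
  intro ι _ _ A hA p hp ε τ hτ n y hn hy l1 l2 lam h k a hM hlam hdom ha hrec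
  have h1 : wordL ε (l1 ++ ⟨lam, h, LS (Shift.zero A p) (-1) a, k⟩ :: l2) =
      (-k : ℂ) • wordL ε (l1 ++ ⟨lam, h - 1, a, k - 1⟩ :: l2) := by
    refine tl3b_smul ε (-k : ℂ) 0 0 hA l2 _ _ ?_ l1
    rw [LS_zero_neg_one, mode_transl hA (by omega), LinearMap.smul_apply]
  rw [h1, beta_smul_right]
  have h2 : beta ε τ y (wordL ε (l1 ++ ⟨lam, h - 1, a, k - 1⟩ :: l2)) = 0 := by
    refine hrec _ ?_ ?_ ?_
    · intro c hc
      rw [List.mem_append, List.mem_cons] at hc
      rcases hc with hc | rfl | hc
      · exact hM c (List.mem_append_left _ hc)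
      · exact ⟨hlam, hdom, ha⟩
      · exact hM c (List.mem_append_right _ hc)
    · simp only [List.map_append, List.map_cons]
    · unfold sumH
      rw [List.map_append, List.map_cons, List.sum_append, List.sum_cons]
      linarith
  rw [h2, mul_zero]

end

end WPQ
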