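import Pool.Agent.WPQ.TLD

/-! [WPQ-TL4] Full Q1 of MP_c42e9d_al, block TL.

Plan (TL4 of W_DE_2.md).  Write `theorem tl4 (h0 : st_TL0) (h2 : st_TL2) (h3a : st_TL3a) (h3b : st_TL3b) : st_TL4`.
If some letter has `h < 1` its vector is `0` (TL0 (3)) and the word is `0`.  Otherwise strong induction on
`(sumH l).toNat` (all `h ≥ 1`, so `sumH l ≥ 0`; in the induction step use the statement for ALL `l'` with smaller `sumH`,
treating letters with `h < 1` by the first remark).  If `c.h ≤ p * qN A c.lam` for all letters: `sumH l ≤ p * sum q < n`,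
TL2.  Otherwise choose `l = l1 ++ c :: l2` with `p * qN A c.lam < c.h`; `AStar` puts `c.u` into the span: the map
`u ↦ beta y (wordL (l1 ++ ⟨c.lam, c.h, u, c.k⟩ :: l2))` is linear (`mode_add`, `mode_smul`, `beta_add_right` ..), and vanishes
on the two kinds of generators by TL3a, TL3b and induction. -/

set_option linter.unusedSectionVars false

namespace WPQ

open MvPolynomial AF

noncomputable section

variable {ι : Type} [Fintype ι] [DecidableEq ι] {A : Matrix ι ι ℤ} {p : ℕ}

/-- the operator of a prefix -/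
def tl4_pre (ε : Cocycle A p) : List (Letter ι) → VL ι →ₗ[ℂ] VL ι
  | [] => LinearMap.id
  | c :: l => mode ε c.u c.k ∘ₗ tl4_pre ε l

theorem tl4_app (ε : Cocycle A p) (l1 l2 : List (Letter ι)) :
    wordL ε (l1 ++ l2) = tl4_pre ε l1 (wordL ε l2) := by
  induction l1 with
  | nil => rfl
  | cons c l1 ih =>
    change mode ε c.u c.k (wordL ε (l1 ++ l2)) = mode ε c.u c.k (tl4_pre ε l1 (wordL ε l2))
    rw [ih]

theorem tl4_beta_zero (ε : Cocycle A p) (τ : Shift A p) (y : VL ι) : beta ε τ y 0 = 0 := by
  have h := beta_smul_right ε τ 0 y 0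
  rwa [smul_zero, zero_mul] at h

theorem tl4_word_zero (hA : IsADE A) (hp : 1 ≤ p) (ε : Cocycle A p) (l : List (Letter ι))
    (h : ∃ c ∈ l, c.u = 0) : wordL ε l = 0 := by
  obtain ⟨c, hc, hu⟩ := h
  obtain ⟨l1, l2, rfl⟩ := List.append_of_mem hc
  rw [tl4_app]
  change tl4_pre ε l1 (mode ε c.u c.k (wordL ε l2)) = 0
  rw [hu, va3_mode_zero hA hp, LinearMap.zero_apply, map_zero]

theorem tl4_sumH_app (l1 l2 : List (Letter ι)) : sumH (l1 ++ l2) = sumH l1 + sumH l2 := by
  unfold sumH
  rw [List.map_append, List.sum_append]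

theorem tl4_sumH_cons (c : Letter ι) (l : List (Letter ι)) : sumH (c :: l) = c.h + sumH l := by
  unfold sumH
  rw [List.map_cons, List.sum_cons]

/-- the vectors `u` such that `y` is orthogonal to the word with the letter `u` -/
def tl4_sub (hA : IsADE A) (hp : 1 ≤ p) (ε : Cocycle A p) (τ : Shift A p) (y : VL ι)
    (l1 l2 : List (Letter ι)) (lam : ι → ℤ) (h k : ℤ) : Submodule ℂ (VL ι) where
  carrier := {u | beta ε τ y (wordL ε (l1 ++ ⟨lam, h, u, k⟩ :: l2)) = 0}
  add_mem' := by
    intro u v hu hv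
    have hu' : beta ε τ y (wordL ε (l1 ++ ⟨lam, h, u, k⟩ :: l2)) = 0 := hu
    have hv' : beta ε τ y (wordL ε (l1 ++ ⟨lam, h, v, k⟩ :: l2)) = 0 := hv
    change beta ε τ y (wordL ε (l1 ++ ⟨lam, h, u + v, k⟩ :: l2)) = 0
    rw [tl4_app] at hu' hv' ⊢
    change beta ε τ y (tl4_pre ε l1 (mode ε (u + v) k (wordL ε l2))) = 0
    rw [mode_add hA hp, LinearMap.add_apply, map_add, beta_add_right]
    change beta ε τ y (tl4_pre ε l1 (mode ε u k (wordL ε l2))) = 0 at hu'
    change beta ε τ y (tl4_pre ε l1 (mode ε v k (wordL ε l2))) = 0 at hv'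
    rw [hu', hv', add_zero]
  zero_mem' := by
    change beta ε τ y (wordL ε (l1 ++ ⟨lam, h, 0, k⟩ :: l2)) = 0
    rw [tl4_word_zero hA hp ε _ ⟨⟨lam, h, 0, k⟩, by simp, rfl⟩, tl4_beta_zero]
  smul_mem' := by
    intro c u hu
    have hu' : beta ε τ y (wordL ε (l1 ++ ⟨lam, h, u, k⟩ :: l2)) = 0 := hu
    change beta ε τ y (wordL ε (l1 ++ ⟨lam, h, c • u, k⟩ :: l2)) = 0
    rw [tl4_app] at hu' ⊢
    change beta ε τ y (tl4_pre ε l1 (mode ε (c • u) k (wordL ε l2))) = 0
    rw [mode_smul hA hp, LinearMap.smul_apply, map_smul, beta_smul_right]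
    change beta ε τ y (tl4_pre ε l1 (mode ε u k (wordL ε l2))) = 0 at hu'
    rw [hu', mul_zero]

theorem tl4_sumH_nonneg (l : List (Letter ι)) (h : ∀ c ∈ l, 1 ≤ c.h) : 0 ≤ sumH l := by
  unfold sumH
  refine List.sum_nonneg fun x hx => ?_
  obtain ⟨c, hc, rfl⟩ := List.mem_map.1 hx
  have := h c hc
  omega

theorem tl4_sumH_le (l : List (Letter ι)) (h : ∀ c ∈ l, c.h ≤ (p : ℤ) * qN A c.lam) :
    sumH l ≤ (p : ℤ) * ((l.map Letter.lam).map (qN A)).sum := by
  induction l with
  | nil => simp [sumH]
  | cons c l ih =>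
    rw [tl4_sumH_cons, List.map_cons, List.map_cons, List.sum_cons, mul_add]
    have h1 := h c (by simp)
    have h2 := ih fun c hc => h c (List.mem_cons_of_mem _ hc)
    omega

theorem tl4 (h0 : st_TL0) (h2 : st_TL2) (h3a : st_TL3a) (h3b : st_TL3b) : st_TL4 := by
  intro ι _ _ A hA p hp ε τ hτ n y hn hy ls hls hsum
  have hp1 : 1 ≤ p := by omega
  have key : ∀ N : ℕ, ∀ l : List (Letter ι), LetM ε l → l.map Letter.lam = ls →
      (sumH l).toNat < N → beta ε τ y (wordL ε l) = 0 := by
    intro N
    induction N with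
    | zero => exact fun l _ _ h => absurd h (Nat.not_lt_zero _)
    | succ N ih =>
      intro l hl hlam hN
      by_cases hpos : ∀ c ∈ l, 1 ≤ c.h
      · by_cases hsm : ∀ c ∈ l, c.h ≤ (p : ℤ) * qN A c.lam
        · refine h2 ι A hA p hp ε τ hτ n y hn hy l (fun c hc => ⟨hpos c hc, ?_⟩) ?_
          · exact ((mem_MNU ε _ _ _).1 (hl c hc).2.2).1
          · have h3 := tl4_sumH_le l hsm
            rw [hlam] at h3
            omega
        · push Not at hsm
          obtain ⟨c, hc, hch⟩ := hsm
          obtain ⟨l1, l2, rfl⟩ := List.append_of_mem hc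
          obtain ⟨lam, h, u, k⟩ := c
          have hcM := hl _ hc
          have hrest : LetM ε (l1 ++ l2) := by
            intro c' hc'
            refine hl c' ?_
            rcases List.mem_append.1 hc' with h3 | h3
            · exact List.mem_append_left _ h3
            · exact List.mem_append_right _ (List.mem_cons_of_mem _ h3)
          have hS : sumH (l1 ++ ⟨lam, h, u, k⟩ :: l2) = sumH l1 + h + sumH l2 := by
            rw [tl4_sumH_app, tl4_sumH_cons]
            ring
          have hS1 : 0 < sumH (l1 ++ ⟨lam, h, u, k⟩ :: l2) := by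
            have e1 := tl4_sumH_nonneg l1 fun c hc => hpos c (List.mem_append_left _ hc)
            have e2 := tl4_sumH_nonneg l2 fun c hc => hpos c
              (List.mem_append_right _ (List.mem_cons_of_mem _ hc))
            have e3 : 1 ≤ h := hpos _ hc
            rw [hS]
            omega
          have hIH : ∀ l' : List (Letter ι), LetM ε l' →
              l'.map Letter.lam = (l1 ++ ⟨lam, 0, 0, 0⟩ :: l2).map Letter.lam →
              sumH l' < sumH l1 + h + sumH l2 → beta ε τ y (wordL ε l') = 0 := by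
            intro l' hl' hlam' hlt
            refine ih l' hl' ?_ ?_
            · rw [hlam', ← hlam]
              simp
            · rw [← hS] at hlt
              omega
          have hu : u ∈ tl4_sub hA hp1 ε τ y l1 l2 lam h k := by
            have hstar : AStar ε lam := by
              refine hls lam ?_
              rw [← hlam]
              simp
            refine (hstar h hch).trans (sup_le ?_ ?_) hcM.2.2
            · rw [Submodule.span_le]
              rintro v ⟨m, b, a, hm, hb, hbm, ha, rfl⟩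
              exact h3a ι A hA p hp ε τ hτ n y hn hy l1 l2 lam h m k b a hrest hcM.1 hcM.2.1 hm hb
                hbm ha hIH
            · rw [Submodule.map_le_iff_le_comap]
              intro a ha
              exact h3b ι A hA p hp ε τ hτ n y hn hy l1 l2 lam h k a hrest hcM.1 hcM.2.1 ha hIH
          exact hu
      · push Not at hpos
        obtain ⟨c, hc, hch⟩ := hpos
        have h3 := hl c hc
        rw [tl4_word_zero hA hp1 ε l ⟨c, hc, (h0 ι A hA p hp ε c.lam).2.2 h3.1 h3.2.1 c.h c.u
          h3.2.2 hch⟩, tl4_beta_zero]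
  exact fun l hl hlam => key _ l hl hlam (Nat.lt_succ_self _)

end

end WPQ
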