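import Pool.Agent.WPQ.TLD

/-! [WPQ-TL5] Full Q1 of MP_c42e9d_al, block TL.

Plan (TL5 of W_DE_2.md).  Write `theorem tl5 (h0 : st_TL0) : st_TL5` if needed.  Induction on `ls`.  `[lam]`: `f = mode f (-1) vac`
(`mode_neg_one_vac`), letter `⟨lam, n, f, -1⟩`.  `lam :: ls'`, `ls' ≠ []`: `CYprod lam ls'.sum` (`Dom` of a sum of dominant
vectors: `pr` is additive): generators `(LS (-1))^l (mode a k b)`; `b ∈ MNU ls'.sum j` is a combination of words of `ls'`
(induction), so `mode a k b` is a combination of words of `lam :: ls'`, and the span of the words of given labels is stable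
under `LS (-1)`: `LS (-1) (wordL l) = ∑ words with one mode k_i replaced by k_i - 1, coefficient -k_i` (`LS_zero_neg_one`,
translation covariance `(mode_spec ..).translation`, `transl_vac`). -/

namespace WPQ

open MvPolynomial AF

noncomputable section

section

variable {ι : Type} [Fintype ι] [DecidableEq ι] {A : Matrix ι ι ℤ} {p : ℕ}

/-- The span of the words with labels `ls`. -/
private def tl5_S (ε : Cocycle A p) (ls : List (ι → ℤ)) : Submodule ℂ (VL ι) :=
  Submodule.span ℂ {v | ∃ l : List (Letter ι), LetM ε l ∧ l.map Letter.lam = ls ∧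
    v = wordL ε l}

/-- A mode of an element of `M_λ(h)` maps words to words. -/
private theorem tl5_mode (ε : Cocycle A p) (lam : ι → ℤ) (h0 : lam ≠ 0) (hd : Dom A lam) (h k : ℤ)
    (a : VL ι) (ha : a ∈ MNU ε lam h) (ls : List (ι → ℤ)) (w : VL ι) (hw : w ∈ tl5_S ε ls) :
    mode ε a k w ∈ tl5_S ε (lam :: ls) := by
  have h1 : tl5_S ε ls ≤ (tl5_S ε (lam :: ls)).comap (mode ε a k) := by
    refine Submodule.span_le.2 ?_
    rintro x ⟨l, hl, hls, rfl⟩
    refine Submodule.subset_span ⟨⟨lam, h, a, k⟩ :: l, ?_, ?_, rfl⟩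
    · intro c hc
      rcases List.mem_cons.1 hc with hc | hc
      · subst hc
        exact ⟨h0, hd, ha⟩
      · exact hl c hc
    · rw [List.map_cons, hls]
  exact h1 hw

/-- `L(-1)` maps a word to the span of the words of the same labels. -/
private theorem tl5_word (hA : IsADE A) (hp : 2 ≤ p) (ε : Cocycle A p) (l : List (Letter ι)) :
    LetM ε l → LS (Shift.zero A p) (-1) (wordL ε l) ∈ tl5_S ε (l.map Letter.lam) := by
  induction l with
  | nil =>
    intro _
    show LS (Shift.zero A p) (-1) vac ∈ _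
    rw [LS_zero_neg_one, transl_vac]
    exact Submodule.zero_mem _
  | cons c l ih =>
    intro hl
    have hl' : LetM ε l := fun c' hc' => hl c' (List.mem_cons_of_mem _ hc')
    obtain ⟨h0, hd, hu⟩ := hl c List.mem_cons_self
    have ht := LinearMap.congr_fun ((mode_spec hA (by omega) ε c.u).translation c.k) (wordL ε l)
    rw [LinearMap.sub_apply, LinearMap.comp_apply, LinearMap.comp_apply, LinearMap.smul_apply,
      sub_eq_iff_eq_add] at ht
    show LS (Shift.zero A p) (-1) (mode ε c.u c.k (wordL ε l)) ∈ _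
    rw [LS_zero_neg_one, ht, List.map_cons]
    refine Submodule.add_mem _ (Submodule.smul_mem _ _ ?_) ?_
    · exact tl5_mode ε c.lam h0 hd c.h (c.k - 1) c.u hu _ _
        (Submodule.subset_span ⟨l, hl', rfl, rfl⟩)
    · have h2 := ih hl'
      rw [LS_zero_neg_one] at h2
      exact tl5_mode ε c.lam h0 hd c.h c.k c.u hu _ _ h2

/-- The span of the words is stable under `L(-1)`. -/
private theorem tl5_L (hA : IsADE A) (hp : 2 ≤ p) (ε : Cocycle A p) (ls : List (ι → ℤ)) (w : VL ι)
    (hw : w ∈ tl5_S ε ls) : LS (Shift.zero A p) (-1) w ∈ tl5_S ε ls := by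
  have h1 : tl5_S ε ls ≤ (tl5_S ε ls).comap (LS (Shift.zero A p) (-1)) := by
    refine Submodule.span_le.2 ?_
    rintro x ⟨l, hl, hls, rfl⟩
    subst hls
    exact tl5_word hA hp ε l hl
  exact h1 hw

private theorem tl5_Lpow (hA : IsADE A) (hp : 2 ≤ p) (ε : Cocycle A p) (ls : List (ι → ℤ)) (m : ℕ)
    (w : VL ι) (hw : w ∈ tl5_S ε ls) : ((LS (Shift.zero A p) (-1)) ^ m) w ∈ tl5_S ε ls := by
  induction m generalizing w with
  | zero => exact hw
  | succ m ih =>
    rw [pow_succ]
    exact ih _ (tl5_L hA hp ε ls w hw)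

/-- A sum of dominant vectors is dominant. -/
private theorem tl5_dom (ls : List (ι → ℤ)) (h : ∀ lam ∈ ls, lam ≠ 0 ∧ Dom A lam) :
    Dom A ls.sum := by
  induction ls with
  | nil =>
    intro j
    rw [List.sum_nil]
    unfold pr
    simp
  | cons lam ls ih =>
    intro j
    rw [List.sum_cons, vp1_pr_add]
    exact add_nonneg ((h lam List.mem_cons_self).2 j)
      (ih (fun l hl => h l (List.mem_cons_of_mem _ hl)) j)

private theorem tl5_main (hA : IsADE A) (hp : 2 ≤ p) (ε : Cocycle A p)
    (hCY : ∀ lam mu : ι → ℤ, Dom A lam → Dom A mu → CYprod ε lam mu) (ls : List (ι → ℤ)) :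
    ls ≠ [] → (∀ lam ∈ ls, lam ≠ 0 ∧ Dom A lam) → ∀ n : ℤ, MNU ε ls.sum n ≤ tl5_S ε ls := by
  induction ls with
  | nil => intro h; exact absurd rfl h
  | cons lam ls ih =>
    intro _ hls n
    obtain ⟨h0, hd⟩ := hls lam List.mem_cons_self
    have hls' : ∀ l ∈ ls, l ≠ 0 ∧ Dom A l := fun l hl => hls l (List.mem_cons_of_mem _ hl)
    by_cases hn : ls = []
    · subst hn
      intro f hf
      rw [List.sum_cons, List.sum_nil, add_zero] at hf
      have h1 : mode ε f (-1) vac ∈ tl5_S ε [lam] :=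
        tl5_mode ε lam h0 hd n (-1) f hf [] vac
          (Submodule.subset_span ⟨[], fun c hc => absurd hc List.not_mem_nil, rfl, rfl⟩)
      rwa [mode_neg_one_vac hA (by omega)] at h1
    · rw [List.sum_cons]
      refine le_trans (hCY lam ls.sum hd (tl5_dom ls hls') n) ?_
      refine Submodule.span_le.2 ?_
      rintro x ⟨h, j, k, m, a, b, ha, hb, _, rfl⟩
      exact tl5_Lpow hA hp ε (lam :: ls) m _
        (tl5_mode ε lam h0 hd h k a ha ls b (ih hn hls' j hb))

end

theorem tl5 : st_TL5 := by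
  intro ι _ _ A hA p hp ε hCY ls hne hls n
  exact tl5_main hA hp ε hCY ls hne hls n

end

end WPQ
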