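import Pool.Agent.WPQ.TLD

/-! [WPQ-TL6] Full Q1 of MP_c42e9d_al, block TL.

Plan.  `theorem tl6 (h1 : st_TL1) (h4 : st_TL4) (h5 : st_TL5) : st_TL6`.  By contradiction `p * sum q < n`; TL1 for `ν = ls.sum` gives
`f ∈ MNU ls.sum n` with `beta y f ≠ 0`; TL5 puts `f` into the span of words, TL4 kills them. -/

namespace WPQ

open MvPolynomial AF

noncomputable section

theorem tl6 (h1 : st_TL1) (h4 : st_TL4) (h5 : st_TL5) : st_TL6 := by
  intro ι _ _ A hA p hp ε τ hτ n y hn hy hy0 hcy ls hls hlam hsupp hE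
  by_contra hlt
  rw [not_le] at hlt
  obtain ⟨-, f, hf, hb⟩ := h1 ι A hA p hp ε τ hτ n y ls.sum hy.mem hy0 hsupp hE
  have hsp := h5 ι A hA p hp ε hcy ls hls (fun lam h => ⟨(hlam lam h).1, (hlam lam h).2.1⟩) n hf
  apply hb
  clear hb hf
  induction hsp using Submodule.span_induction with
  | mem v hv =>
    obtain ⟨l, hl, hll, rfl⟩ := hv
    exact h4 ι A hA p hp ε τ hτ n y hn hy ls (fun lam h => (hlam lam h).2.2) hlt l hl hll
  | zero =>
    have := beta_smul_right ε τ 0 y 0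
    rwa [zero_smul, zero_mul] at this
  | add v w _ _ hv hw => rw [beta_add_right, hv, hw, add_zero]
  | smul c v _ hv => rw [beta_smul_right, hv, mul_zero]

end

end WPQ
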