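import Pool.Agent.WPQ.TLD

/-! [WPQ-TL7a] Full Q1 of MP_c42e9d_al, block TL.

Plan.  `as1_prim_Ej`, `as1_prim_comp` (AS1) for `Prim`; `LS_Ej`/`as1_Ej_comm`, `W_Ej`, `Ej_Vn`, `LS_comp`, `pv2_mem` for `IIn`;
for `Gen`: `Ej (mode u s w) = mode (Ej u) s w + mode u s (Ej w)` (`Ej_mode`, VA3), and components: `u`, `w` are finite sums of
their charge components (`pv2_mem`: in `Wn`), `mode_charge`: the component of `mode u s w` of charge `γ` is the sum of
`mode u_α s w_β`, `α + β = γ` (see also `mode_comp`, VA4; `Finsupp.sum_single`). -/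

namespace WPQ

open MvPolynomial AF

noncomputable section

theorem tl7a_sub3 {N : Type} [AddCommGroup N] [Module ℂ N] (P I G : Submodule ℂ N) (T : N →ₗ[ℂ] N)
    (hP : ∀ x ∈ P, T x ∈ P) (hI : ∀ x ∈ I, T x ∈ I) (hG : ∀ x ∈ G, T x ∈ G) (v : N)
    (hv : v ∈ P ⊔ I ⊔ G) : T v ∈ P ⊔ I ⊔ G := by
  rw [Submodule.mem_sup] at hv
  obtain ⟨a, ha, g, hg, rfl⟩ := hv
  rw [Submodule.mem_sup] at ha
  obtain ⟨x, hx, i, hi, rfl⟩ := ha
  rw [map_add, map_add]
  exact Submodule.add_mem _ (Submodule.add_mem _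
    ((le_sup_left.trans le_sup_left : P ≤ P ⊔ I ⊔ G) (hP x hx))
    ((le_sup_right.trans le_sup_left : I ≤ P ⊔ I ⊔ G) (hI i hi)))
    ((le_sup_right : G ≤ P ⊔ I ⊔ G) (hG g hg))

section

variable {ι : Type} [Fintype ι] [DecidableEq ι] {A : Matrix ι ι ℤ} {p : ℕ}

theorem tl7a_LSmem (hp : 1 ≤ p) (hA : IsADE A) (k n m : ℤ) (h : n - k = m) (v : VL ι)
    (hv : v ∈ Wn A p n) : LS (Shift.zero A p) k v ∈ Wn A p m := by
  subst h
  exact ⟨W_LS hA hp k v hv.1, LS_Vn k n v hv.2⟩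

theorem tl7a_EjWn (hA : IsADE A) (hp : 2 ≤ p) (ε : Cocycle A p) (j : ι) (n : ℤ) (v : VL ι)
    (hv : v ∈ Wn A p n) : Ej ε (Shift.zero A p) j v ∈ Wn A p n :=
  ⟨W_Ej hA hp ε j v hv.1, Ej_Vn hA ε j n v hv.2⟩

theorem tl7a_I (n : ℤ) (T : VL ι →ₗ[ℂ] VL ι)
    (hT : ∀ m : ℤ, ∀ x ∈ Wn A p m, T x ∈ Wn A p m)
    (hc : ∀ (k : ℤ) (x : VL ι), T (LS (Shift.zero A p) k x) = LS (Shift.zero A p) k (T x))
    (v : VL ι) (hv : v ∈ IIn A p n) : T v ∈ IIn A p n := by
  unfold IIn at hv ⊢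
  rw [Submodule.mem_sup] at hv
  obtain ⟨a, ha, b, hb, rfl⟩ := hv
  obtain ⟨a', ha', rfl⟩ := Submodule.mem_map.1 ha
  obtain ⟨b', hb', rfl⟩ := Submodule.mem_map.1 hb
  rw [map_add, hc, hc]
  exact Submodule.add_mem _
    (Submodule.mem_sup_left (Submodule.mem_map_of_mem (hT _ _ ha')))
    (Submodule.mem_sup_right (Submodule.mem_map_of_mem (hT _ _ hb')))

theorem tl7a_gen_mem (ε : Cocycle A p) (n m j s : ℤ) (u w : VL ι) (hm : 1 ≤ m) (hj : 1 ≤ j)
    (hs : s ≤ -1) (hn : m + j - s - 1 = n) (hu : u ∈ Wn A p m) (hw : w ∈ Wn A p j) :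
    mode ε u s w ∈ Gen ε n :=
  Submodule.subset_span ⟨m, j, s, u, w, hm, hj, hs, hn, hu, hw, rfl⟩

theorem tl7a_gen_Ej (hA : IsADE A) (hp : 2 ≤ p) (ε : Cocycle A p) (j : ι) (n : ℤ) (v : VL ι)
    (hv : v ∈ Gen ε n) : Ej ε (Shift.zero A p) j v ∈ Gen ε n := by
  have key : Gen ε n ≤ (Gen ε n).comap (Ej ε (Shift.zero A p) j) := by
    conv_lhs => rw [Gen]
    rw [Submodule.span_le]
    rintro _ ⟨m, i, s, u, w, hm, hi, hs, hn, hu, hw, rfl⟩
    rw [SetLike.mem_coe, Submodule.mem_comap]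
    have h := congrArg (fun F => F w) (Ej_mode hA (by omega) ε j u s)
    simp only [LinearMap.sub_apply, LinearMap.comp_apply] at h
    rw [sub_eq_iff_eq_add] at h
    rw [h]
    exact Submodule.add_mem _
      (tl7a_gen_mem ε n m i s _ _ hm hi hs hn (tl7a_EjWn hA hp ε j m u hu) hw)
      (tl7a_gen_mem ε n m i s _ _ hm hi hs hn hu (tl7a_EjWn hA hp ε j i w hw))
  exact key hv

omit [DecidableEq ι] in
theorem tl7a_comp_eq (γ δ : ι → ℤ) (x : VL ι) (h : x ∈ Finsupp.supported (Fock ι) ℂ {γ}) :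
    Finsupp.single δ (x δ) = if δ = γ then x else 0 := by
  split_ifs with e
  · rw [e]
    exact (va4_supp_single γ x h).symm
  · rw [va4_supp γ x h δ e, Finsupp.single_zero]

theorem tl7a_mode_sum (hA : IsADE A) (hp : 1 ≤ p) (ε : Cocycle A p) (s : ℤ)
    (S : Finset (ι → ℤ)) (f : (ι → ℤ) → VL ι) :
    mode ε (∑ α ∈ S, f α) s = ∑ α ∈ S, mode ε (f α) s := by
  classical
  induction S using Finset.induction_on with
  | empty => rw [Finset.sum_empty, Finset.sum_empty, va3_mode_zero hA hp]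
  | insert a S ha ih => rw [Finset.sum_insert ha, Finset.sum_insert ha, mode_add hA hp, ih]

theorem tl7a_gen_comp (hA : IsADE A) (hp : 2 ≤ p) (ε : Cocycle A p) (γ : ι → ℤ) (n : ℤ)
    (v : VL ι) (hv : v ∈ Gen ε n) : as1_comp γ v ∈ Gen ε n := by
  have hp1 : 1 ≤ p := by omega
  have key : Gen ε n ≤ (Gen ε n).comap (as1_comp γ) := by
    conv_lhs => rw [Gen]
    rw [Submodule.span_le]
    rintro _ ⟨m, i, s, u, w, hm, hi, hs, hn, hu, hw, rfl⟩
    rw [SetLike.mem_coe, Submodule.mem_comap]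
    have eu : u = ∑ α ∈ u.support, Finsupp.single α (u α) := (Finsupp.sum_single u).symm
    have ew : w = ∑ β ∈ w.support, Finsupp.single β (w β) := (Finsupp.sum_single w).symm
    have e : mode ε u s w = ∑ α ∈ u.support, ∑ β ∈ w.support,
        mode ε (Finsupp.single α (u α)) s (Finsupp.single β (w β)) := by
      conv_lhs => rw [eu, ew]
      rw [tl7a_mode_sum hA hp1, LinearMap.sum_apply]
      refine Finset.sum_congr rfl fun α _ => ?_
      rw [map_sum]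
    rw [e, map_sum]
    refine Submodule.sum_mem _ fun α _ => ?_
    rw [map_sum]
    refine Submodule.sum_mem _ fun β _ => ?_
    rw [as1_comp_apply, tl7a_comp_eq (α + β) γ _ (mode_charge hA hp1 ε α β s _ _
      (Finsupp.single_mem_supported ℂ _ (Set.mem_singleton _))
      (Finsupp.single_mem_supported ℂ _ (Set.mem_singleton _)))]
    split_ifs with h
    · exact tl7a_gen_mem ε n m i s _ _ hm hi hs hn (pv2_mem m u hu α) (pv2_mem i w hw β)
    · exact Submodule.zero_mem _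
  exact key hv

theorem tl7a_gen_le (hA : IsADE A) (hp : 2 ≤ p) (ε : Cocycle A p) (n : ℤ) :
    Gen ε n ≤ Wn A p n := by
  unfold Gen
  rw [Submodule.span_le]
  rintro _ ⟨m, i, s, u, w, hm, hi, hs, rfl, hu, hw, rfl⟩
  exact mode_Wn hA hp ε m i s u w hu hw

theorem tl7a_I_le (hA : IsADE A) (hp : 1 ≤ p) (n : ℤ) : IIn A p n ≤ Wn A p n := by
  unfold IIn
  refine sup_le ?_ ?_
  · rintro _ ⟨x, hx, rfl⟩
    exact tl7a_LSmem hp hA (-1) (n - 1) n (by ring) x hx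
  · rintro _ ⟨x, hx, rfl⟩
    exact tl7a_LSmem hp hA (-2) (n - 2) n (by ring) x hx

end

theorem tl7a : st_TL7a := by
  intro ι _ _ A hA p hp ε n v hv
  have hp1 : 1 ≤ p := by omega
  refine ⟨?_, ?_, ?_⟩
  · exact (sup_le (sup_le (fun x hx => hx.1) (tl7a_I_le hA hp1 n)) (tl7a_gen_le hA hp ε n) :
      pv4_Prim A p n ⊔ IIn A p n ⊔ Gen ε n ≤ Wn A p n) hv
  · intro j
    exact tl7a_sub3 _ _ _ (Ej ε (Shift.zero A p) j)
      (fun x hx => as1_prim_Ej hA hp ε j n x hx)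
      (fun x hx => tl7a_I n _ (fun m y hy => tl7a_EjWn hA hp ε j m y hy)
        (fun k y => as1_Ej_comm hA hp1 ε j k y) x hx)
      (fun x hx => tl7a_gen_Ej hA hp ε j n x hx) v hv
  · intro γ
    rw [← as1_comp_apply]
    exact tl7a_sub3 _ _ _ (as1_comp γ)
      (fun x hx => by rw [as1_comp_apply]; exact as1_prim_comp n x hx γ)
      (fun x hx => tl7a_I n _ (fun m y hy => by rw [as1_comp_apply]; exact pv2_mem m y hy γ)
        (fun k y => by rw [as1_comp_apply, as1_comp_apply, LS_comp]) x hx)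
      (fun x hx => tl7a_gen_comp hA hp ε γ n x hx) v hv

end

end WPQ
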