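import Pool.Agent.WPQ.TL0
import Pool.Agent.WPQ.TL1
import Pool.Agent.WPQ.TL2
import Pool.Agent.WPQ.TL3a
import Pool.Agent.WPQ.TL3b
import Pool.Agent.WPQ.TL4
import Pool.Agent.WPQ.TL5
import Pool.Agent.WPQ.TL6
import Pool.Agent.WPQ.TL7a
import Pool.Agent.WPQ.TL7b
import Pool.Agent.WPQ.TL7
import Pool.Agent.WPQ.TL8
import Pool.Agent.WPQ.NE0
import Pool.Agent.WPQ.NE0c
import Pool.Agent.WPQ.NE0n
import Pool.Agent.WPQ.NE6
import Pool.Agent.WPQ.NE7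
import Pool.Agent.WPQ.NE8
import Pool.Agent.WPQ.NE2e6
import Pool.Agent.WPQ.NE2e7
import Pool.Agent.WPQ.NE2e8
import Pool.Agent.WPQ.NE1
import Pool.Agent.WPQ.E7
import Pool.Agent.WPQ.E7e
import Pool.Agent.WPQ.E7f
import Pool.Agent.WPQ.E7c
import Pool.Agent.WPQ.CYM
import Pool.Agent.WPQ.CY8
import Pool.Agent.WPE.VGC1
import Pool.Agent.WPE.VGC2
import Pool.Agent.WPE.VGC3
import Pool.Agent.WPE.VGC4
import Pool.Agent.WPQ.KDSD

/-! [WPQ-ASF] Full Q1, assembly for the types `E₆`, `E₇`, `E₈`. -/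

namespace WPQ

open MvPolynomial AF

noncomputable section

section gen

variable {ι : Type} [Fintype ι] [DecidableEq ι]

theorem asf_tl0 : st_TL0 := tl0
theorem asf_tl1 : st_TL1 := tl1
theorem asf_tl4 : st_TL4 := tl4 tl0 tl2 (tl3a tl0) tl3b
theorem asf_tl6 : st_TL6 := tl6 tl1 asf_tl4 tl5
theorem asf_tl7 : st_TL7 := tl7 tl1 tl7a tl7b

theorem asf_cy {A : Matrix ι ι ℤ} {p : ℕ} (hA : IsADE A) (hp : 2 ≤ p) (ε : Cocycle A p)
    (lam mu : ι → ℤ) (hl : Dom A lam) (hm : Dom A mu) : CYprod ε lam mu := by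
  intro n
  refine (MNU_add hA hp ε lam mu hl hm n).trans (Submodule.span_mono ?_)
  rintro x ⟨h, j, k, a, ha, b, hb, hn, rfl⟩
  exact ⟨h, j, k, 0, a, b, ha, hb, by push_cast; omega, by rw [pow_zero, Module.End.one_apply]⟩

omit [DecidableEq ι] in
/-- The degrees are heights of roots plus one. -/
theorem asf_ht {A : Matrix ι ι ℤ} {d : ι → ℕ} (hd : ∀ i, 2 ≤ d i)
    (hk : ∀ k : ℕ, 1 ≤ k → (Finset.univ.filter fun i => d i = k + 1).card +
      ((posRoots A).filter fun γ => ht γ = k + 1).card =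
        ((posRoots A).filter fun γ => ht γ = k).card) (i : ι) :
    ∃ γ ∈ posRoots A, ht γ = (d i : ℤ) - 1 := by
  have h1 := hd i
  have h2 := hk (d i - 1) (by omega)
  have h3 : 0 < (Finset.univ.filter fun i' => d i' = d i - 1 + 1).card :=
    Finset.card_pos.2 ⟨i, by simp; omega⟩
  have h4 : 0 < ((posRoots A).filter fun γ => ht γ = ((d i - 1 : ℕ) : ℤ)).card := by omega
  obtain ⟨γ, hγ⟩ := Finset.card_pos.1 h4
  rw [Finset.mem_filter] at hγ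
  exact ⟨γ, hγ.1, by rw [hγ.2]; omega⟩

/-- The general assembly. -/
theorem asf_core {A : Matrix ι ι ℤ} {p : ℕ} (hA : IsADE A) (hp : 2 ≤ p) (w : ℚ)
    (hcc : cc A p = ((1 - 6 * w : ℚ) : ℂ)) (hw : 0 < w) (hsq : ¬ IsSquare (w * (w + 4))) (d : ℤ)
    (hd : (d : ℚ) < 3 * w / 4 + 4) (hgen : ∀ ε : Cocycle A p, WkGen ε d)
    (hstar : ∀ (ε : Cocycle A p) (lam : ι → ℤ), lam ≠ 0 → Dom A lam → AStar ε lam)
    (hnum : ∀ (ε : Cocycle A p) (τ : Shift A p), τ.s = (2 : ℂ) • bg A p →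
      ∀ (t : ℂ) (r h : ℕ) (c : Nat.Partition (r * r) → ℂ) (x y : VL ι) (ν : ι → ℤ) (n : ℤ),
      KV.Irr t → cc A p = KV.cc t → (t - 1) ^ 2 / t = ((w : ℚ) : ℂ) → 2 ≤ r → 1 ≤ h →
      (h : ℂ) = KV.hrs t r r → (h : ℚ) = ((r : ℚ) ^ 2 - 1) * w / 4 → n = (h : ℤ) + r * r →
      SV.IsS t r r (r * r) c → x ∈ pv4_Prim A p h → y = SV.SS (LS (Shift.zero A p)) c x →
      x ≠ 0 → Perp ε τ n y → ν ≠ 0 → Dom A ν → wtExp A p (-ν) ≤ h →
      x ∈ Finsupp.supported (Fock ι) ℂ {ν} →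
      ∃ ls : List (ι → ℤ), ls ≠ [] ∧ (∀ lam ∈ ls, lam ≠ 0 ∧ Dom A lam) ∧ ls.sum = ν ∧
        (p : ℤ) * (ls.map (qN A)).sum < (h : ℤ) + r * r) :
    PrimaryGenerated A p := by
  have hp1 : 1 ≤ p := by omega
  refine tl8 ι A hA p hp fun ε n hn => ?_
  obtain ⟨τ, hτ⟩ := exists_tau (A := A) (p := p) hA hp1
  obtain ⟨t, ht1, ht2, ht3, hmain⟩ := asf_tl7 ι A hA p hp w hcc hw hsq ε τ hτ d hd (hgen ε)
    (fun n y hy hn h => Wk_nondeg_ade hA hp ε τ hτ n y hy hn h)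
  by_contra hcon
  obtain ⟨r, h, c, x, y, ν, hr, hh, hhr, hhw, hn', hc, hx, hy, hx0, hy0, hperp, hν, hdom, hwt,
    hxν, hyν, hE⟩ := hmain n hcon
  obtain ⟨ls, hls, hlam, hsum, hlt⟩ := hnum ε τ hτ t r h c x y ν n ht1 ht2 ht3 hr hh hhr hhw hn' hc
    hx hy hx0 hperp hν hdom hwt hxν
  have h6 := asf_tl6 ι A hA p hp ε τ hτ n y hn hperp hy0
    (fun lam mu hl hm => asf_cy hA hp ε lam mu hl hm) ls hls
    (fun lam hl => ⟨(hlam lam hl).1, (hlam lam hl).2, hstar ε lam (hlam lam hl).1 (hlam lam hl).2⟩)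
    (by rw [hsum]; exact hyν) hE
  omega

end gen

/-- Lower bound for `w`. -/
theorem asf_w (l : ℕ) (R : ℚ) (hR : 0 ≤ R) (p : ℕ) (hp : 2 ≤ p) :
    (1 - (l : ℚ)) / 6 + R ≤ wR l R p := by
  have hp2 : (2 : ℚ) ≤ p := by exact_mod_cast hp
  have hp0 : (0 : ℚ) < p := by linarith
  unfold wR
  have h1 : R ≤ 2 * R * ((p : ℚ) - 1) ^ 2 / p := by
    rw [le_div_iff₀ hp0]
    have h2 : (p : ℚ) ≤ 2 * ((p : ℚ) - 1) ^ 2 := by nlinarith
    nlinarith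
  linarith

/-- Heights of roots. -/
theorem asf_hb (l : ℕ) (A : Matrix (Fin l) (Fin l) ℤ) (a b : ℤ) (ha : 0 < a)
    (h : ∀ ν : Fin l → ℤ, a * (∑ i, ν i) ^ 2 ≤ b * formZ A 1 ν ν) (D : ℤ) (hD : 0 ≤ D)
    (hab : 2 * b < a * D ^ 2) (γ : Fin l → ℤ) (hγ : bl A γ γ = 2) : ht γ + 1 ≤ D := by
  have h1 := h γ
  have h2 : formZ A 1 γ γ = 2 := by
    rw [← hγ]
    unfold formZ bl
    push_cast
    ring
  rw [h2] at h1
  have h3 : (∑ i, γ i) = ht γ := rfl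
  rw [h3] at h1
  by_contra hcon
  push Not at hcon
  have h4 : D ≤ ht γ := by omega
  have h5 : D ^ 2 ≤ ht γ ^ 2 := by nlinarith
  nlinarith

/-- One of the types `E`. -/
theorem asf_E (l : ℕ) (A : Matrix (Fin l) (Fin l) ℤ) (hA : IsADE A) (R : ℚ) (hv : ℤ)
    (hcc : ∀ p : ℕ, 1 ≤ p → cc A p = ((1 - 6 * wR l R p : ℚ) : ℂ))
    (hpos : ∀ p : ℕ, 2 ≤ p → 0 < wR l R p ∧ ¬ IsSquare (wR l R p * (wR l R p + 4)))
    (a b : ℤ) (ha : 0 < a) (hb : 0 ≤ b) (hab : 2 * b < a * hv ^ 2) (hv0 : 0 ≤ hv)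
    (hR : (b : ℚ) = a * R) (hvw : (hv : ℚ) < 3 * ((1 - (l : ℚ)) / 6 + R) / 4 + 4)
    (hC : ∀ ν : Fin l → ℤ, a * (∑ i, ν i) ^ 2 ≤ b * formZ A 1 ν ν) (exc : ℕ → ℕ → Prop)
    (hEN : st_EN l A R exc) (p : ℕ) (hp : 2 ≤ p) (hK : KDS A p)
    (hstar : ∀ (ε : Cocycle A p) (lam : Fin l → ℤ), lam ≠ 0 → Dom A lam → AStar ε lam)
    (hexc : ∀ (ε : Cocycle A p) (τ : Shift A p), τ.s = (2 : ℂ) • bg A p →
      ∀ (t : ℂ) (r h : ℕ) (c : Nat.Partition (r * r) → ℂ) (x y : VL (Fin l)) (ν : Fin l → ℤ) (n : ℤ),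
      KV.Irr t → cc A p = KV.cc t → (t - 1) ^ 2 / t = ((wR l R p : ℚ) : ℂ) → 2 ≤ r → 1 ≤ h →
      (h : ℂ) = KV.hrs t r r → (h : ℚ) = ((r : ℚ) ^ 2 - 1) * wR l R p / 4 →
      n = (h : ℤ) + r * r →
      SV.IsS t r r (r * r) c → x ∈ pv4_Prim A p h → y = SV.SS (LS (Shift.zero A p)) c x →
      Perp ε τ n y → ν ≠ 0 → x ∈ Finsupp.supported (Fock (Fin l)) ℂ {ν} → exc p r → x = 0) :
    PrimaryGenerated A p := by
  have hR0 : 0 ≤ R := by
    have ha' : (0 : ℚ) < a := by exact_mod_cast ha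
    have hb' : (0 : ℚ) ≤ b := by exact_mod_cast hb
    rw [hR] at hb'
    exact nonneg_of_mul_nonneg_right (by linarith) ha'
  have hwl := asf_w l R hR0 p hp
  obtain ⟨w, P, d, c, hG, hI, hd2, hk⟩ := hK
  have hdD : ∀ i, (d i : ℤ) ≤ hv := by
    intro i
    obtain ⟨γ, hγ, hht⟩ := asf_ht hd2 hk i
    have h1 := ((HA8 (Fin l)).mem A hA γ).1 hγ
    have h2 := asf_hb l A a b ha hC hv hv0 hab γ h1.2
    omega
  refine asf_core hA hp (wR l R p) (hcc p (by omega)) (hpos p hp).1 (hpos p hp).2 hv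
    (by linarith) (fun ε => WPE.vgc_gen hp ε w P d c hG hI hv hv0 hdD) hstar ?_
  intro ε τ hτ t r h c x y ν n h1 h2 h3 h4 h5 h6 h7 h8 h9 h10 h11 hx0 h12 h13 h14 h15 h16
  by_cases he : exc p r
  · exact absurd (hexc ε τ hτ t r h c x y ν n h1 h2 h3 h4 h5 h6 h7 h8 h9 h10 h11 h12 h13 h16 he) hx0
  · exact hEN p hp r h h4 h5 h7 he ν h13 h14 h15

theorem pgE8 (p : ℕ) (hp : 2 ≤ p) (hK : KDS CartanMatrix.E₈ p)
    (hstar : ∀ (ε : Cocycle CartanMatrix.E₈ p) (lam : Fin 8 → ℤ), lam ≠ 0 →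
      Dom CartanMatrix.E₈ lam → AStar ε lam) : PrimaryGenerated CartanMatrix.E₈ p := by
  refine asf_E 8 CartanMatrix.E₈ en0.2.2 620 36 (fun p hp => (en0c p hp).2.2)
    (fun p hp => ?_) 1 620 one_pos (by norm_num) (by norm_num) (by norm_num) (by norm_num)
    (by norm_num) (fun ν => ?_) (fun _ _ => False) (en8 en1c en2e8) p hp hK hstar
    (fun _ _ _ _ _ _ _ _ _ _ _ _ _ _ _ _ _ _ _ _ _ _ _ _ _ h => h.elim)
  · have h := en0n p hp (8, 620, 30) (by simp)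
    exact ⟨h.1, h.2.2⟩
  · have h := en1c.2.2 ν
    linarith

theorem pgE6 (p : ℕ) (hp : 2 ≤ p) (hK : KDS CartanMatrix.E₆ p)
    (hstar : ∀ (ε : Cocycle CartanMatrix.E₆ p) (lam : Fin 6 → ℤ), lam ≠ 0 →
      Dom CartanMatrix.E₆ lam → AStar ε lam) : PrimaryGenerated CartanMatrix.E₆ p := by
  refine asf_E 6 CartanMatrix.E₆ en0.1 78 13 (fun p hp => (en0c p hp).1)
    (fun p hp => ?_) 1 78 one_pos (by norm_num) (by norm_num) (by norm_num) (by norm_num)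
    (by norm_num) (fun ν => ?_) (fun _ _ => False) (en6 en1c en2e6) p hp hK hstar
    (fun _ _ _ _ _ _ _ _ _ _ _ _ _ _ _ _ _ _ _ _ _ _ _ _ _ h => h.elim)
  · have h := en0n p hp (6, 78, 12) (by simp)
    exact ⟨h.1, h.2.2⟩
  · have h := en1c.1 ν
    linarith

/-- The numbers of roots of the heights `1, ..., 6` of `E₇`. -/
def E7cnt : Prop :=
  ∀ kc ∈ [((1 : ℤ), 7), (2, 6), (3, 6), (4, 6), (5, 6), (6, 5)],
    ((posRoots CartanMatrix.E₇).filter fun γ => ht γ = kc.1).card = kc.2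

theorem asf_e7deg (hcnt : E7cnt) (d : Fin 7 → ℕ) (hd : ∀ i, 2 ≤ d i)
    (hk : ∀ k : ℕ, 1 ≤ k → (Finset.univ.filter fun i => d i = k + 1).card +
      ((posRoots CartanMatrix.E₇).filter fun γ => ht γ = k + 1).card =
        ((posRoots CartanMatrix.E₇).filter fun γ => ht γ = k).card) :
    ∃ i0 i1 : Fin 7, d i0 = 2 ∧ d i1 = 6 ∧ ∀ i, i ≠ i0 → 6 ≤ d i := by
  have c1 := hcnt (1, 7) (by simp)
  have c2 := hcnt (2, 6) (by simp)
  have c3 := hcnt (3, 6) (by simp)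
  have c4 := hcnt (4, 6) (by simp)
  have c5 := hcnt (5, 6) (by simp)
  have c6 := hcnt (6, 5) (by simp)
  have k1 := hk 1 le_rfl
  have k2 := hk 2 (by norm_num)
  have k3 := hk 3 (by norm_num)
  have k4 := hk 4 (by norm_num)
  have k5 := hk 5 (by norm_num)
  norm_num at c1 c2 c3 c4 c5 c6 k1 k2 k3 k4 k5
  rw [c1, c2] at k1
  rw [c2, c3] at k2
  rw [c3, c4] at k3
  rw [c4, c5] at k4
  rw [c5, c6] at k5
  have e1 : (Finset.univ.filter fun i => d i = 2).card = 1 := by omega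
  have e2 : (Finset.univ.filter fun i => d i = 3).card = 0 := by omega
  have e3 : (Finset.univ.filter fun i => d i = 4).card = 0 := by omega
  have e4 : (Finset.univ.filter fun i => d i = 5).card = 0 := by omega
  have e5 : (Finset.univ.filter fun i => d i = 6).card = 1 := by omega
  obtain ⟨i0, h0⟩ := Finset.card_eq_one.1 e1
  obtain ⟨i1, h1⟩ := Finset.card_eq_one.1 e5
  rw [Finset.card_eq_zero] at e2 e3 e4
  have m0 : d i0 = 2 := by
    have : i0 ∈ Finset.univ.filter fun i => d i = 2 := by rw [h0]; simp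
    simpa using this
  have m1 : d i1 = 6 := by
    have : i1 ∈ Finset.univ.filter fun i => d i = 6 := by rw [h1]; simp
    simpa using this
  refine ⟨i0, i1, m0, m1, fun i hi => ?_⟩
  have n2 : d i ≠ 2 := by
    intro h
    have h3 : i ∈ Finset.univ.filter fun i => d i = 2 := by simpa using h
    rw [h0, Finset.mem_singleton] at h3
    exact hi h3
  have n3 : d i ≠ 3 := by
    intro h
    have h3 : i ∈ Finset.univ.filter fun i => d i = 3 := by simpa using h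
    rw [e2] at h3
    exact absurd h3 (Finset.notMem_empty i)
  have n4 : d i ≠ 4 := by
    intro h
    have h3 : i ∈ Finset.univ.filter fun i => d i = 4 := by simpa using h
    rw [e3] at h3
    exact absurd h3 (Finset.notMem_empty i)
  have n5 : d i ≠ 5 := by
    intro h
    have h3 : i ∈ Finset.univ.filter fun i => d i = 5 := by simpa using h
    rw [e4] at h3
    exact absurd h3 (Finset.notMem_empty i)
  have := hd i
  omega

theorem pgE7 (hcnt : E7cnt) (p : ℕ) (hp : 2 ≤ p) (hK : KDS CartanMatrix.E₇ p)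
    (hstar : ∀ (ε : Cocycle CartanMatrix.E₇ p) (lam : Fin 7 → ℤ), lam ≠ 0 →
      Dom CartanMatrix.E₇ lam → AStar ε lam) : PrimaryGenerated CartanMatrix.E₇ p := by
  refine asf_E 7 CartanMatrix.E₇ en0.2.1 (399 / 2) 20 (fun p hp => (en0c p hp).2.1)
    (fun p hp => ?_) 2 399 two_pos (by norm_num) (by norm_num) (by norm_num) (by norm_num)
    (by norm_num) (fun ν => ?_) (fun p r => p = 2 ∧ r = 3) (en7 en1c en2e7) p hp hK hstar ?_
  · have h := en0n p hp (7, 399 / 2, 18) (by simp)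
    exact ⟨h.1, h.2.2⟩
  · exact en1c.2.1 ν
  intro ε τ hτ t r h c x y ν n h1 h2 h3 h4 h5 h6 h7 h8 h9 h10 h11 h12 h13 h14 he
  obtain ⟨rfl, rfl⟩ := he
  obtain ⟨w, P, d, c', hG, hI, hd2, hk⟩ := hK
  obtain ⟨i0, i1, m0, m1, m2⟩ := asf_e7deg hcnt d hd2 hk
  have hlow : ∀ n : ℤ, n ≤ 5 → Wn CartanMatrix.E₇ 2 n ≤ Wk ε := fun n hn =>
    WPE.vgc_low tl1 en0.2.1 hp ε n fun ν hν hd => by
      have := WPE.vgc_e7 ν hν hd
      omega
  obtain ⟨v1, v2⟩ := WPE.vgc_vir hp ε w P d c' hG hI i0 i1 m0 m1 m2 hlow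
  have hw : wR 7 (399 / 2) 2 = 397 / 2 := by
    unfold wR
    norm_num
  rw [hw] at h3 h7
  have hh : h = 397 := by
    have : (h : ℚ) = 397 := by
      rw [h7]
      norm_num
    exact_mod_cast this
  subst hh
  exact e7 tl7b (e7f e7c e7e) en0 ε τ hτ v1 v2 t h1 h2 h3 c x y ν h9 h6 h10 h11
    (by rw [h8] at h12; exact_mod_cast h12) h13 h14

end

end WPQ
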