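import Pool.Agent.WPQ.TL8

/-! [WPQ-ASG] Full Q1, assembly: the generator `ω` is not needed in `T` if `T` consists of homogeneous
vectors and `ω` is in the span of the monomials in `T`. -/

namespace WPQ

open MvPolynomial AF

noncomputable section

variable {ι : Type} [Fintype ι] [DecidableEq ι] {A : Matrix ι ι ℤ} {p : ℕ}

theorem asg_Vn (n : ℤ) (v : VL ι) (hv : IsHomog A p n v) : v ∈ Vn A p n := by
  have e : v = ∑ γ ∈ v.support, Finsupp.single γ (v γ) := (Finsupp.sum_single v).symm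
  rw [e]
  refine Submodule.sum_mem _ fun γ hγ => ?_
  obtain ⟨d, hd, hd'⟩ := hv γ
  rcases hd with h | h
  · exact absurd h (Finsupp.mem_support_iff.1 hγ)
  · exact single_mem_Vn γ (v γ) d hd' n (by omega)

/-- Modes of nonempty monomials. -/
theorem asg_mono (hA : IsADE A) (hp : 2 ≤ p) (ε : Cocycle A p) (T : Set (VL ι))
    (hTW : T ⊆ (W A p : Set (VL ι))) (hTh : ∀ u ∈ T, ∃ n, IsHomog A p n u) (n : ℤ)
    (hout : ∀ m : ℤ, m < n → Wn A p m ≤ Submodule.span ℂ {w | Monomial ε T w}) (w : VL ι)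
    (hw : Monomial ε T w) : ∃ a : ℤ, w ∈ Wn A p a ∧ ∀ (j : ℕ) (b : ℤ) (z : VL ι), 1 ≤ j →
      z ∈ Wn A p b → a + b + j - 1 ≤ n → (1 ≤ a ∨ 2 ≤ j) →
      mode ε w (-(j : ℤ)) z ∈ Submodule.span ℂ {w | Monomial ε T w} := by
  have hp1 : 1 ≤ p := by omega
  induction hw with
  | one =>
    refine ⟨0, ⟨vac_mem_W hA hp1, fi2_vac⟩, ?_⟩
    intro j b z hj hz hn h
    rw [mode_vac hA hp1, if_neg (by omega), LinearMap.zero_apply]
    exact Submodule.zero_mem _
  | step u hu i hi w hw ih =>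
    obtain ⟨a, haw, hP⟩ := ih
    obtain ⟨h, hh⟩ := hTh u hu
    have huW : u ∈ Wn A p h := ⟨hTW hu, asg_Vn h u hh⟩
    have hzero : ∀ (x : VL ι), x = 0 → ∀ (j : ℕ) (z : VL ι),
        mode ε x (-(j : ℤ)) z ∈ Submodule.span ℂ {w | Monomial ε T w} := by
      intro x hx j z
      rw [hx, tl8_mode_zero hA hp1, LinearMap.zero_apply]
      exact Submodule.zero_mem _
    by_cases hw0 : mode ε u (-(i : ℤ)) w = 0
    · exact ⟨0, by rw [hw0]; exact Submodule.zero_mem _, fun j b z _ _ _ _ => hzero _ hw0 j z⟩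
    have hanew := mode_Wn hA hp ε h a (-(i : ℤ)) u w huW haw
    by_cases hh0 : h < 1
    · -- `u` is a multiple of the vacuum
      have hu0 : ∃ c : ℂ, u = c • vac := by
        by_cases hneg : h < 0
        · refine ⟨0, ?_⟩
          rw [Wn_neg hA hp h hneg, Submodule.mem_bot] at huW
          rw [huW, zero_smul]
        · have e : h = 0 := by omega
          rw [e] at huW
          exact Wn_zero hA hp u huW
      obtain ⟨c, rfl⟩ := hu0
      by_cases hi1 : i = 1
      · subst hi1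
        have e : mode ε (c • (vac : VL ι)) (-((1 : ℕ) : ℤ)) w = c • w := by
          rw [mode_smul hA hp1, mode_vac hA hp1, if_pos (by norm_num), LinearMap.smul_apply]
          rfl
        rw [e]
        refine ⟨a, Submodule.smul_mem _ _ haw, fun j b z hj hz hn h' => ?_⟩
        rw [mode_smul hA hp1, LinearMap.smul_apply]
        exact Submodule.smul_mem _ _ (hP j b z hj hz hn h')
      · exfalso
        apply hw0
        rw [mode_smul hA hp1, mode_vac hA hp1, if_neg (by omega), smul_zero, LinearMap.zero_apply]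
    refine ⟨_, hanew, ?_⟩
    intro j b z hj hz hn _
    obtain ⟨c, hc0, hc⟩ := tl8_transl_neg_one hA hp1 ε u (i - 1) 0
    have hc' : mode ε (((transl : VL ι →ₗ[ℂ] VL ι) ^ (i - 1)) u) (-1) =
        c • mode ε u (-(i : ℤ)) := by
      have e : (-1 : ℤ) - ((0 : ℕ) : ℤ) = -1 := by norm_num
      rw [e] at hc
      rw [hc]
      congr 2
      omega
    have e1 : mode ε u (-(i : ℤ)) w =
        c⁻¹ • mode ε (((transl : VL ι →ₗ[ℂ] VL ι) ^ (i - 1)) u) (-1) w := by
      rw [hc', LinearMap.smul_apply, smul_smul, inv_mul_cancel₀ hc0, one_smul]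
    rw [e1, mode_smul hA hp1, LinearMap.smul_apply]
    refine Submodule.smul_mem _ _ ?_
    obtain ⟨M0, hM⟩ := mode_nop hA hp1 ε (((transl : VL ι →ₗ[ℂ] VL ι) ^ (i - 1)) u) w
      (-(j : ℤ)) z
    rw [hM M0 le_rfl]
    refine Submodule.sum_mem _ fun s _ => Submodule.add_mem _ ?_ ?_
    · obtain ⟨c2, hc2⟩ := tl8_transl_pow hA hp1 ε u (i - 1) (-1 - (s : ℤ))
      rw [hc2, LinearMap.smul_apply]
      refine Submodule.smul_mem _ _ ?_
      have hv := mode_Wn hA hp ε a b (-(j : ℤ) + s) w z haw hz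
      have hvX := hout _ (by omega) hv
      have e : (-1 - (s : ℤ) - ((i - 1 : ℕ) : ℤ)) = -((i + s : ℕ) : ℤ) := by
        push_cast
        omega
      rw [e]
      exact fi2_step hA hp1 ε T T subset_rfl u (Submodule.subset_span hu) (i + s) (by omega) _ hvX
    · have hv := mode_Wn hA hp ε (h + ((i - 1 : ℕ) : ℤ)) b s _ z
        (tl8_transl_Wn hA hp1 (i - 1) h u huW) hz
      have e : (-(j : ℤ) - 1 - s) = -((j + 1 + s : ℕ) : ℤ) := by
        push_cast
        ring
      rw [e]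
      refine hP (j + 1 + s) _ _ (by omega) hv ?_ (Or.inr (by omega))
      push_cast
      omega

/-- Monomials are homogeneous vectors of `W`. -/
theorem asg_hom (hA : IsADE A) (hp : 2 ≤ p) (ε : Cocycle A p) (T : Set (VL ι))
    (hTW : T ⊆ (W A p : Set (VL ι))) (hTh : ∀ u ∈ T, ∃ n, IsHomog A p n u) (w : VL ι)
    (hw : Monomial ε T w) : ∃ a : ℤ, w ∈ Wn A p a := by
  have hp1 : 1 ≤ p := by omega
  induction hw with
  | one => exact ⟨0, vac_mem_W hA hp1, fi2_vac⟩
  | step u hu i hi w hw ih =>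
    obtain ⟨a, ha⟩ := ih
    obtain ⟨h, hh⟩ := hTh u hu
    exact ⟨_, mode_Wn hA hp ε h a (-(i : ℤ)) u w ⟨hTW hu, asg_Vn h u hh⟩ ha⟩

end

end WPQ
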