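import Pool.Agent.WPQ.CI3

/-! [WPQ-CE2] Case 2 (all `D_r = 1`) with the short list `X_r` twice.

Plan: let `P(z) = ∏_r (z - X_r) = z Q(z) + P(0)`, `P(0) = ± ∏ X_r`.  For `c` homogeneous take
`f = z^3 * Q(z)^2 * C c`: since `P(X_r) = 0`, `X_r Q(X_r) = -P(0)`, so
`f(X_r) = X_r * (X_r Q(X_r))^2 * c = X_r * (∏ X_r^2) * c = X_r * E c`, `E = prodL list3`.  Then as in CI3
(`qq r f = E c`, `dd r s f = E c` by cancellation, `LL_eq`, Euler's identity)
`LL P f = (card σ + deg (E c) + ∑ κ + 1/2 ∑_{r ≠ s} η) E c`. -/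

namespace WPQ.CI

open MvPolynomial

noncomputable section

variable {σ : Type} [Fintype σ] [DecidableEq σ]

/-- The list of linear forms `X_r` twice. -/
def list3 (σ : Type) [Fintype σ] [DecidableEq σ] : List (Lin σ) :=
  (Finset.univ : Finset σ).toList.flatMap fun r => [Lin.var r, Lin.var r]

theorem list3_ok : ∀ x ∈ list3 σ, x.ok := by
  intro x hx
  unfold list3 at hx
  rw [List.mem_flatMap] at hx
  obtain ⟨r, _, hr⟩ := hx
  simp only [List.mem_cons, List.not_mem_nil, or_false, or_self] at hr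
  subst hr
  exact trivial

omit [Fintype σ] [DecidableEq σ] in
theorem ce2_length (L : List σ) :
    (L.flatMap fun r => [Lin.var r, Lin.var r]).length = 2 * L.length := by
  induction L with
  | nil => rfl
  | cons a L ih =>
    rw [List.flatMap_cons, List.length_append, ih]
    simp only [List.length_cons, List.length_nil]
    ring

theorem list3_length : (list3 σ).length = 2 * Fintype.card σ := by
  unfold list3
  rw [ce2_length, Finset.length_toList, Finset.card_univ]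

theorem ce2_prodL : prodL (list3 σ) = ∏ r : σ, X r ^ 2 := by
  unfold list3
  rw [ci3_prodL_flatMap, Finset.prod_map_toList]
  refine Finset.prod_congr rfl fun r _ => ?_
  simp [prodL, Lin.poly, sq]

/-- `∏_r (z - X_r)`. -/
def ce2_P (σ : Type) [Fintype σ] : Polynomial (MvPolynomial σ ℂ) :=
  ∏ r : σ, (Polynomial.X - Polynomial.C (X r))

/-- The polynomial `z^3 Q(z)^2 c`. -/
def ce2_f (c : MvPolynomial σ ℂ) : Polynomial (MvPolynomial σ ℂ) :=
  Polynomial.X ^ 3 * ((ce2_P σ).divX ^ 2 * Polynomial.C c)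

omit [DecidableEq σ] in
theorem ce2_f_coeff (c : MvPolynomial σ ℂ) (i : ℕ) (hi : i < 3) : (ce2_f c).coeff i = 0 := by
  unfold ce2_f
  rw [Polynomial.coeff_X_pow_mul', if_neg (by omega)]

omit [DecidableEq σ] in
theorem ce2_P_root (r : σ) : (ce2_P σ).eval (X r) = 0 := by
  unfold ce2_P
  rw [Polynomial.eval_prod]
  refine Finset.prod_eq_zero (Finset.mem_univ r) ?_
  rw [Polynomial.eval_sub, Polynomial.eval_X, Polynomial.eval_C, sub_self]

omit [DecidableEq σ] in
theorem ce2_P_zero : ((ce2_P σ).coeff 0) ^ 2 = ∏ r : σ, X r ^ 2 := by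
  unfold ce2_P
  rw [Polynomial.coeff_zero_eq_eval_zero, Polynomial.eval_prod, ← Finset.prod_pow]
  refine Finset.prod_congr rfl fun r _ => ?_
  rw [Polynomial.eval_sub, Polynomial.eval_X, Polynomial.eval_C]
  ring

omit [DecidableEq σ] in
theorem ce2_Q (r : σ) : (ce2_P σ).divX.eval (X r) * X r = -(ce2_P σ).coeff 0 := by
  have h := congrArg (Polynomial.eval (X r)) (Polynomial.divX_mul_X_add (ce2_P σ))
  rw [Polynomial.eval_add, Polynomial.eval_mul, Polynomial.eval_X, Polynomial.eval_C,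
    ce2_P_root] at h
  exact eq_neg_of_add_eq_zero_left h

theorem ce2_f_eval (c : MvPolynomial σ ℂ) (r : σ) :
    (ce2_f c).eval (X r) = X r * (prodL (list3 σ) * c) := by
  unfold ce2_f
  rw [Polynomial.eval_mul, Polynomial.eval_mul, Polynomial.eval_pow, Polynomial.eval_pow,
    Polynomial.eval_X, Polynomial.eval_C, ce2_prodL, ← ce2_P_zero]
  have h := ce2_Q r
  have h2 : ((ce2_P σ).divX.eval (X r) * X r) ^ 2 = ((ce2_P σ).coeff 0) ^ 2 := by
    rw [h, neg_sq]
  rw [← h2]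
  ring

theorem ce2_qq (c : MvPolynomial σ ℂ) (r : σ) : qq r (ce2_f c) = prodL (list3 σ) * c := by
  have h := X_mul_qq r (ce2_f c) (ce2_f_coeff c 0 (by norm_num))
  rw [ce2_f_eval] at h
  exact mul_left_cancel₀ (X_ne_zero r) h

theorem ce2_dd (c : MvPolynomial σ ℂ) (r s : σ) (hrs : r ≠ s) :
    dd r s (ce2_f c) = prodL (list3 σ) * c := by
  have h := sub_mul_dd r s (ce2_f c) (ce2_f_coeff c 0 (by norm_num))
  rw [ce2_f_eval, ce2_f_eval, ← sub_mul] at h
  refine mul_left_cancel₀ ?_ h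
  intro h0
  exact hrs (X_injective (R := ℂ) (sub_eq_zero.mp h0))

theorem ce2_LL (P : Par σ) (h : ∀ r, P.D r = 1) (c : MvPolynomial σ ℂ) (n : ℕ)
    (hn : (prodL (list3 σ) * c).IsHomogeneous n) :
    LL P (ce2_f c) = C ((n : ℂ) + (Fintype.card σ + ∑ r, P.κ r +
      1 / 2 * ∑ r, ∑ s ∈ Finset.univ.erase r, P.η r s)) * (prodL (list3 σ) * c) := by
  have hE := hn.sum_X_mul_pderiv
  rw [LL_eq P _ (ce2_f_coeff c 0 (by norm_num))]
  have h1 : ∀ r : σ, pderiv r ((ce2_f c).eval (X r)) +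
      C (P.D r - 1) * (ce2_f c).derivative.eval (X r) + C (P.κ r) * qq r (ce2_f c) =
      X r * pderiv r (prodL (list3 σ) * c) + (prodL (list3 σ) * c +
        C (P.κ r) * (prodL (list3 σ) * c)) := by
    intro r
    rw [ce2_f_eval, ce2_qq, h r, sub_self, C_0, zero_mul, add_zero, Derivation.leibniz,
      pderiv_X_self, smul_eq_mul, smul_eq_mul, mul_one]
    ring
  have h2 : ∀ r : σ, ∑ s ∈ Finset.univ.erase r, C (P.η r s) * dd r s (ce2_f c) =
      (∑ s ∈ Finset.univ.erase r, C (P.η r s)) * (prodL (list3 σ) * c) := by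
    intro r
    rw [Finset.sum_mul]
    refine Finset.sum_congr rfl fun s hs => ?_
    rw [ce2_dd c r s (fun h => (Finset.mem_erase.mp hs).1 h.symm)]
  rw [Finset.sum_congr rfl fun r _ => h1 r, Finset.sum_congr rfl fun r _ => h2 r,
    Finset.sum_add_distrib, hE, Finset.sum_add_distrib, Finset.sum_const, Finset.card_univ]
  have h3 : ∑ r : σ, C (P.κ r) * (prodL (list3 σ) * c) =
      (∑ r : σ, C (P.κ r)) * (prodL (list3 σ) * c) := by rw [Finset.sum_mul]
  have h4 : ∑ r : σ, (∑ s ∈ Finset.univ.erase r, C (P.η r s)) * (prodL (list3 σ) * c) =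
      (∑ r : σ, ∑ s ∈ Finset.univ.erase r, C (P.η r s)) * (prodL (list3 σ) * c) := by
    rw [Finset.sum_mul]
  rw [h3, h4]
  simp only [map_add, map_mul, map_sum, map_natCast, nsmul_eq_mul]
  ring

theorem case2_eff (P : Par σ) (h : ∀ r, P.D r = 1) (d : ℕ) (c : MvPolynomial σ ℂ)
    (hc : c.IsHomogeneous d)
    (hne : ((Fintype.card σ : ℂ) + (2 * Fintype.card σ + d) + ∑ r, P.κ r +
      (1 / 2 : ℂ) * ∑ r, ∑ s ∈ Finset.univ.erase r, P.η r s) ≠ 0) :
    prodL (list3 σ) * c ∈ Im P := by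
  obtain ⟨K, hK⟩ : ∃ K : ℂ, K = (((2 * Fintype.card σ + d : ℕ) : ℂ) +
      (Fintype.card σ + ∑ r, P.κ r +
        1 / 2 * ∑ r, ∑ s ∈ Finset.univ.erase r, P.η r s)) := ⟨_, rfl⟩
  have hK0 : K ≠ 0 := by
    intro h0
    apply hne
    rw [← h0, hK]
    push_cast
    ring
  have hn : (prodL (list3 σ) * c).IsHomogeneous (2 * Fintype.card σ + d) := by
    have h1 := (ci3_prodL_hom (list3 σ)).mul hc
    rwa [list3_length] at h1
  have h1 := LL_mem P (ce2_f c) (fun i hi => ce2_f_coeff c i hi)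
  rw [ce2_LL P h c _ hn, ← hK] at h1
  have h2 := (Im P).smul_mem K⁻¹ h1
  rw [smul_eq_C_mul, ← mul_assoc, ← C_mul, inv_mul_cancel₀ hK0, C_1, one_mul] at h2
  exact h2

end

end WPQ.CI
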