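import Pool.Agent.WPQ.CE1
import Pool.Agent.WPQ.CE2

/-! [WPQ-CE3] The effective coinvariants lemma.

Plan.  `Adm P B`: the parameters are bounded ones plus nonnegative integer shifts.  It is stable under
`shift` (`shiftK`, `shiftE` with `r ≠ s` increase `k` resp. `e`), `kill`, `merge` (triangle
inequality; `η0` symmetric, only off-diagonal entries count; `B` does not grow).
`coinv_eff`: induction on `n = card σ` (all `P`, `B` at once).  `n = 0`: `d > 0`, so `b = 0`.
`n + 1`: list `L = list1 r` (length `2n+3`, `case1`) if some `D r ≠ 1`, else `L = list3` (length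
`2n+2`, `case2_eff`; the real part of the scalar is `≥ (n+1) + deg - B > 0`, because the shifts are
`≥ 0`).  For `b` of degree `d > B + (n+2)^2` peel off the forms one after the other as in CI7: for the
prefix `L'` of length `j < length L` the remaining factor has degree `d - j > B + (n+1)^2`, so
`kill_eff`/`merge_eff` for `P.shifts L'` and the induction hypothesis apply. -/

namespace WPQ.CI

open MvPolynomial

noncomputable section

/-- Bounded parameters plus nonnegative integer shifts. -/
def Adm {σ : Type} [Fintype σ] [DecidableEq σ] (P : Par σ) (B : ℝ) : Prop :=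
  ∃ (κ0 : σ → ℂ) (η0 : σ → σ → ℂ) (k : σ → ℕ) (e : σ → σ → ℕ),
    (∀ r, P.κ r = κ0 r + k r) ∧ (∀ r s, r ≠ s → P.η r s = η0 r s + e r s) ∧
    (∀ r s, η0 r s = η0 s r) ∧
    ∑ r, ‖κ0 r‖ + ∑ r, ∑ s ∈ Finset.univ.erase r, ‖η0 r s‖ ≤ B

theorem ce3_off {α : Type} [Fintype α] [DecidableEq α] (G : α → α → ℝ) :
    ∑ t, ∑ u ∈ Finset.univ.erase t, G t u = ∑ t, ∑ u, (if u = t then 0 else G t u) := by
  refine Finset.sum_congr rfl fun t _ => ?_
  rw [← Finset.sum_erase (Finset.univ : Finset α) (f := fun u => if u = t then 0 else G t u)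
    (a := t) (if_pos rfl)]
  refine Finset.sum_congr rfl fun u hu => ?_
  rw [if_neg (Finset.ne_of_mem_erase hu)]

theorem ce3_sub {σ : Type} [Fintype σ] [DecidableEq σ] (r : σ) (h : σ → ℝ) :
    ∑ t : {t : σ // t ≠ r}, h t = ∑ t, (if t = r then 0 else h t) := by
  rw [← Finset.sum_erase (Finset.univ : Finset σ) (f := fun t => if t = r then 0 else h t)
    (a := r) (if_pos rfl)]
  rw [Finset.sum_congr rfl fun u hu => if_neg (Finset.ne_of_mem_erase hu)]
  exact (Finset.sum_subtype (Finset.univ.erase r) (by simp) h).symm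

/-- the double sum over the subtype -/
theorem ce3_sub2 {σ : Type} [Fintype σ] [DecidableEq σ] (r : σ) (G : σ → σ → ℝ) :
    ∑ t : {t : σ // t ≠ r}, ∑ u ∈ Finset.univ.erase t, G t u =
      ∑ t, ∑ u, (if t = r then 0 else if u = r then 0 else if u = t then 0 else G t u) := by
  rw [ce3_off (fun t u : {t : σ // t ≠ r} => G t u)]
  have h1 : ∀ t : {t : σ // t ≠ r}, ∑ u : {t : σ // t ≠ r}, (if u = t then 0 else G t u) =
      ∑ u, (if u = r then 0 else if u = (t : σ) then 0 else G t u) := by
    intro t
    rw [← ce3_sub r (fun u => if u = (t : σ) then 0 else G t u)]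
    refine Finset.sum_congr rfl fun u _ => ?_
    by_cases h : u = t
    · rw [if_pos h, if_pos (by rw [h])]
    · rw [if_neg h, if_neg (fun h' => h (Subtype.ext h'))]
  rw [Finset.sum_congr rfl fun t _ => h1 t,
    ce3_sub r (fun t => ∑ u, (if u = r then 0 else if u = t then 0 else G t u))]
  refine Finset.sum_congr rfl fun t _ => ?_
  by_cases h : t = r
  · simp [h]
  · simp [h]

theorem ce3_split {σ : Type} [Fintype σ] [DecidableEq σ] (a : σ → σ → ℝ)
    (hs : ∀ t u, a t u = a u t) (r : σ) :
    ∑ t, ∑ u, (if u = t then 0 else a t u) =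
      ∑ t, ∑ u, (if t = r then 0 else if u = r then 0 else if u = t then 0 else a t u) +
        2 * ∑ u, (if u = r then 0 else a r u) := by
  have h1 : ∀ t u, (if u = t then 0 else a t u) =
      (if t = r then 0 else if u = r then 0 else if u = t then 0 else a t u) +
        ((if t = r then (if u = r then 0 else a r u) else 0) +
          (if u = r then (if t = r then 0 else a r t) else 0)) := by
    intro t u
    by_cases h1 : t = r
    · by_cases h2 : u = r
      · simp [h1, h2]
      · simp [h1, h2]
    · by_cases h2 : u = r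
      · subst h2
        have h3 : ¬ u = t := fun h => h1 h.symm
        simp [h1, h3, hs t u]
      · by_cases h3 : u = t
        · simp [h1, h3]
        · simp [h1, h2, h3]
  have h2 : ∑ t, ∑ u, (if t = r then (if u = r then 0 else a r u) else 0) =
      ∑ u, (if u = r then 0 else a r u) := by
    rw [Finset.sum_comm]
    refine Finset.sum_congr rfl fun u _ => ?_
    rw [Finset.sum_ite_eq' Finset.univ r, if_pos (Finset.mem_univ r)]
  have h3 : ∑ t, ∑ u, (if u = r then (if t = r then 0 else a r t) else 0) =
      ∑ u, (if u = r then 0 else a r u) := by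
    refine Finset.sum_congr rfl fun t _ => ?_
    rw [Finset.sum_ite_eq' Finset.univ r, if_pos (Finset.mem_univ r)]
  rw [Finset.sum_congr rfl fun t _ => Finset.sum_congr rfl fun u _ => h1 t u]
  simp only [Finset.sum_add_distrib]
  rw [h2, h3]
  ring

theorem adm_shift {σ : Type} [Fintype σ] [DecidableEq σ] (P : Par σ) (B : ℝ) (h : Adm P B)
    (x : Lin σ) (hx : x.ok) : Adm (P.shift x) B := by
  obtain ⟨κ0, η0, k, e, h1, h2, h3, h4⟩ := h
  cases x with
  | var r =>
    refine ⟨κ0, η0, fun t => k t + if t = r then 1 else 0, e, ?_, h2, h3, h4⟩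
    intro t
    show P.κ t + (if t = r then 1 else 0) = _
    rw [h1 t]
    by_cases ht : t = r
    · simp [ht, add_assoc]
    · simp [ht]
  | diff r s =>
    refine ⟨κ0, η0, k, fun t u => e t u + if (t = r ∧ u = s) ∨ (t = s ∧ u = r) then 1 else 0,
      h1, ?_, h3, h4⟩
    intro t u htu
    show P.η t u + (if (t = r ∧ u = s) ∨ (t = s ∧ u = r) then 1 else 0) = _
    rw [h2 t u htu]
    by_cases ht : (t = r ∧ u = s) ∨ (t = s ∧ u = r)
    · simp [ht, add_assoc]
    · simp [ht]

theorem adm_kill {σ : Type} [Fintype σ] [DecidableEq σ] (P : Par σ) (B : ℝ) (h : Adm P B)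
    (r : σ) : Adm (P.kill r) B := by
  obtain ⟨κ0, η0, k, e, h1, h2, h3, h4⟩ := h
  refine ⟨fun t => κ0 t + η0 r t, fun t u => η0 t u, fun t => k t + e r t, fun t u => e t u,
    ?_, ?_, fun t u => h3 t u, ?_⟩
  · intro t
    show P.κ t + P.η r t = _
    rw [h1 t, h2 r t (fun h => t.2 h.symm)]
    push_cast
    ring
  · intro t u htu
    exact h2 t u (fun h => htu (Subtype.ext h))
  · refine le_trans ?_ h4
    rw [ce3_sub2 r (fun t u => ‖η0 t u‖), ce3_sub r (fun t => ‖κ0 t + η0 r t‖),
      ce3_off (fun t u => ‖η0 t u‖), ce3_split (fun t u => ‖η0 t u‖) (fun t u => by rw [h3]) r]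
    have h5 : ∑ t, (if t = r then 0 else ‖κ0 t + η0 r t‖) ≤
        ∑ t, ‖κ0 t‖ + ∑ u, (if u = r then 0 else ‖η0 r u‖) := by
      rw [← Finset.sum_add_distrib]
      refine Finset.sum_le_sum fun t _ => ?_
      by_cases ht : t = r
      · rw [if_pos ht, if_pos ht, add_zero]
        exact norm_nonneg _
      · rw [if_neg ht, if_neg ht]
        exact norm_add_le _ _
    have h6 : 0 ≤ ∑ u, (if u = r then 0 else ‖η0 r u‖) := by
      refine Finset.sum_nonneg fun u _ => ?_
      split_ifs
      · exact le_refl _
      · exact norm_nonneg _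
    linarith

theorem adm_merge {σ : Type} [Fintype σ] [DecidableEq σ] (P : Par σ) (B : ℝ) (h : Adm P B)
    (r s : σ) (hrs : s ≠ r) : Adm (P.merge r s) B := by
  obtain ⟨κ0, η0, k, e, h1, h2, h3, h4⟩ := h
  refine ⟨fun t => if (t : σ) = s then κ0 r + κ0 s else κ0 t,
    fun t u => η0 t u + (if (t : σ) = s then η0 r u else 0) + (if (u : σ) = s then η0 r t else 0),
    fun t => if (t : σ) = s then k r + k s else k t,
    fun t u => e t u + (if (t : σ) = s then e r u else 0) + (if (u : σ) = s then e r t else 0),
    ?_, ?_, ?_, ?_⟩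
  · intro t
    show (if (t : σ) = s then P.κ r + P.κ s else P.κ t) =
      (if (t : σ) = s then κ0 r + κ0 s else κ0 t) +
        ((if (t : σ) = s then k r + k s else k t : ℕ) : ℂ)
    by_cases ht : (t : σ) = s
    · rw [if_pos ht, if_pos ht, if_pos ht, h1 r, h1 s]
      push_cast
      ring
    · rw [if_neg ht, if_neg ht, if_neg ht, h1]
  · intro t u htu
    show P.η t u + (if (t : σ) = s then P.η r u else 0) + (if (u : σ) = s then P.η r t else 0) = _
    rw [h2 t u (fun h => htu (Subtype.ext h)), h2 r u (fun h => u.2 h.symm),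
      h2 r t (fun h => t.2 h.symm)]
    by_cases ht : (t : σ) = s
    · by_cases hu : (u : σ) = s
      · exact absurd (Subtype.ext (ht.trans hu.symm)) htu
      · simp only [ht, hu, if_true, if_false]
        push_cast
        ring
    · by_cases hu : (u : σ) = s
      · simp only [ht, hu, if_true, if_false]
        push_cast
        ring
      · simp only [ht, hu, if_false]
        push_cast
        ring
  · intro t u
    show η0 t u + (if (t : σ) = s then η0 r u else 0) + (if (u : σ) = s then η0 r t else 0) =
      η0 u t + (if (u : σ) = s then η0 r t else 0) + (if (t : σ) = s then η0 r u else 0)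
    rw [h3 t u]
    ring
  · refine le_trans ?_ h4
    set a : σ → σ → ℝ := fun t u => ‖η0 t u‖ with ha
    have hsym : ∀ t u, a t u = a u t := fun t u => by
      show ‖η0 t u‖ = ‖η0 u t‖
      rw [h3]
    have ha0 : ∀ t u, 0 ≤ a t u := fun t u => norm_nonneg _
    rw [ce3_sub2 r (fun t u => ‖η0 t u + (if t = s then η0 r u else 0) +
        (if u = s then η0 r t else 0)‖),
      ce3_sub r (fun t => ‖if t = s then κ0 r + κ0 s else κ0 t‖),
      ce3_off (fun t u => ‖η0 t u‖)]
    have e1 := ce3_split a hsym r
    have h5 : ∑ t, (if t = r then 0 else ‖if t = s then κ0 r + κ0 s else κ0 t‖) ≤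
        ∑ t, ‖κ0 t‖ := by
      have h6 : ∀ t, (if t = r then 0 else ‖if t = s then κ0 r + κ0 s else κ0 t‖) ≤
          (if t = r then 0 else ‖κ0 t‖) + (if t = s then ‖κ0 r‖ else 0) := by
        intro t
        by_cases ht : t = r
        · rw [if_pos ht, if_pos ht, if_neg (fun h => hrs (h.symm.trans ht)), add_zero]
        · rw [if_neg ht, if_neg ht]
          by_cases hts : t = s
          · rw [if_pos hts, if_pos hts, hts, add_comm]
            exact norm_add_le _ _
          · rw [if_neg hts, if_neg hts, add_zero]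
      refine (Finset.sum_le_sum fun t _ => h6 t).trans ?_
      rw [Finset.sum_add_distrib, Finset.sum_ite_eq' Finset.univ s, if_pos (Finset.mem_univ s)]
      have h7 : ∑ t, ‖κ0 t‖ = ∑ t, (if t = r then 0 else ‖κ0 t‖) + ‖κ0 r‖ := by
        have h8 : ∀ t, ‖κ0 t‖ = (if t = r then 0 else ‖κ0 t‖) + (if t = r then ‖κ0 r‖ else 0) := by
          intro t
          by_cases ht : t = r
          · rw [if_pos ht, if_pos ht, zero_add, ht]
          · rw [if_neg ht, if_neg ht, add_zero]
        rw [Finset.sum_congr rfl fun t _ => h8 t, Finset.sum_add_distrib,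
          Finset.sum_ite_eq' Finset.univ r, if_pos (Finset.mem_univ r)]
      rw [h7]
    have h9 : ∑ t, ∑ u, (if t = r then 0 else if u = r then 0 else if u = t then 0 else
        ‖η0 t u + (if t = s then η0 r u else 0) + (if u = s then η0 r t else 0)‖) ≤
        ∑ t, ∑ u, (if t = r then 0 else if u = r then 0 else if u = t then 0 else a t u) +
        (∑ u, (if u = r then 0 else a r u) + ∑ u, (if u = r then 0 else a r u)) := by
      have h10 : ∀ t u, (if t = r then 0 else if u = r then 0 else if u = t then 0 else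
          ‖η0 t u + (if t = s then η0 r u else 0) + (if u = s then η0 r t else 0)‖) ≤
          (if t = r then 0 else if u = r then 0 else if u = t then 0 else a t u) +
          ((if t = s then (if u = r then 0 else a r u) else 0) +
            (if u = s then (if t = r then 0 else a r t) else 0)) := by
        intro t u
        have g1 : 0 ≤ (if t = s then (if u = r then 0 else a r u) else 0) := by
          split_ifs
          · exact le_refl _
          · exact ha0 _ _
          · exact le_refl _
        have g2 : 0 ≤ (if u = s then (if t = r then 0 else a r t) else 0) := by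
          split_ifs
          · exact le_refl _
          · exact ha0 _ _
          · exact le_refl _
        by_cases ht : t = r
        · rw [if_pos ht, if_pos ht]
          linarith
        · by_cases hu : u = r
          · rw [if_neg ht, if_pos hu, if_neg ht, if_pos hu]
            linarith
          · by_cases hut : u = t
            · rw [if_neg ht, if_neg hu, if_pos hut, if_neg ht, if_neg hu, if_pos hut]
              linarith
            · rw [if_neg ht, if_neg hu, if_neg hut, if_neg ht, if_neg hu, if_neg hut, if_neg hu,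
                if_neg ht]
              refine (norm_add_le _ _).trans ?_
              have g3 := norm_add_le (η0 t u) (if t = s then η0 r u else 0)
              have g4 : ‖(if t = s then η0 r u else 0 : ℂ)‖ = if t = s then a r u else 0 := by
                split_ifs
                · rfl
                · exact norm_zero
              have g5 : ‖(if u = s then η0 r t else 0 : ℂ)‖ = if u = s then a r t else 0 := by
                split_ifs
                · rfl
                · exact norm_zero
              rw [g5]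
              rw [g4] at g3
              have g6 : ‖η0 t u‖ = a t u := rfl
              linarith
      refine (Finset.sum_le_sum fun t _ => Finset.sum_le_sum fun u _ => h10 t u).trans ?_
      simp only [Finset.sum_add_distrib]
      have h11 : ∑ t, ∑ u, (if t = s then (if u = r then 0 else a r u) else 0) =
          ∑ u, (if u = r then 0 else a r u) := by
        rw [Finset.sum_comm]
        refine Finset.sum_congr rfl fun u _ => ?_
        rw [Finset.sum_ite_eq' Finset.univ s, if_pos (Finset.mem_univ s)]
      have h12 : ∑ t, ∑ u, (if u = s then (if t = r then 0 else a r t) else 0) =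
          ∑ u, (if u = r then 0 else a r u) := by
        refine Finset.sum_congr rfl fun t _ => ?_
        rw [Finset.sum_ite_eq' Finset.univ s, if_pos (Finset.mem_univ s)]
      rw [h11, h12]
    have e2 : ∑ t, ∑ u, (if u = t then 0 else a t u) =
        ∑ t, ∑ u, (if u = t then 0 else ‖η0 t u‖) := rfl
    linarith

theorem ce3_nonneg {σ : Type} [Fintype σ] [DecidableEq σ] {P : Par σ} {B : ℝ} (h : Adm P B) :
    0 ≤ B := by
  obtain ⟨κ0, η0, k, e, -, -, -, h4⟩ := h
  refine le_trans ?_ h4
  positivity

theorem ce3_shifts {σ : Type} [Fintype σ] [DecidableEq σ] (B : ℝ) (L : List (Lin σ)) :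
    ∀ P : Par σ, Adm P B → (∀ x ∈ L, x.ok) → Adm (P.shifts L) B := by
  induction L with
  | nil => intro P h _; exact h
  | cons x L ih =>
    intro P h hL
    exact ih (P.shift x) (adm_shift P B h x (hL x (by simp))) fun y hy => hL y (by simp [hy])

theorem ce3_step (σ : Type) [Fintype σ] [DecidableEq σ] (B : ℝ) (d : ℕ)
    (hI : ∀ (r : σ) (P : Par {t : σ // t ≠ r}), Adm P B →
      ∀ b : MvPolynomial {t : σ // t ≠ r} ℂ, b.IsHomogeneous (d + 1) → b ∈ Im P)
    (P : Par σ) (hP : Adm P B) (x : Lin σ) (hx : x.ok) (b : MvPolynomial σ ℂ)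
    (hb : b.IsHomogeneous (d + 1)) :
      ∃ b' : MvPolynomial σ ℂ, b'.IsHomogeneous d ∧ b - x.poly * b' ∈ Im P := by
  cases x with
  | var r => exact kill_eff P r d (hI r (P.kill r) (adm_kill P B hP r)) b hb
  | diff r s =>
    have hrs : s ≠ r := fun h => hx h.symm
    exact merge_eff P r s hrs d (hI r (P.merge r s) (adm_merge P B hP r s hrs)) b hb

theorem ce3_list (σ : Type) [Fintype σ] [DecidableEq σ] (B T : ℝ)
    (hI : ∀ (r : σ) (P : Par {t : σ // t ≠ r}), Adm P B → ∀ d : ℕ, T < d →
      ∀ b : MvPolynomial {t : σ // t ≠ r} ℂ, b.IsHomogeneous d → b ∈ Im P)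
    (P : Par σ) (hP : Adm P B) (d : ℕ) (L : List (Lin σ)) :
    (∀ x ∈ L, x.ok) → L.length ≤ d → T + L.length < d + 1 →
    (∀ c : MvPolynomial σ ℂ, c.IsHomogeneous (d - L.length) → prodL L * c ∈ Im P) →
    ∀ b : MvPolynomial σ ℂ, b.IsHomogeneous d → b ∈ Im P := by
  induction L using List.reverseRecOn with
  | nil =>
    intro _ _ _ h b hb
    have := h b (by simpa using hb)
    simpa [prodL] using this
  | append_singleton L' x ih =>
    intro hok hlen hT h
    rw [List.length_append, List.length_singleton] at hlen hT h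
    have hok' : ∀ y ∈ L', y.ok := fun y hy => hok y (List.mem_append_left _ hy)
    push_cast at hT
    refine ih hok' (by omega) (by linarith) ?_
    intro c hc
    obtain ⟨e, he⟩ : ∃ e, d - L'.length = e + 1 := ⟨d - L'.length - 1, by omega⟩
    rw [he] at hc
    have heT : T < ((e + 1 : ℕ) : ℝ) := by
      have h1 : ((e + 1 : ℕ) : ℝ) + L'.length = d := by
        rw [← he]
        have h2 : d - L'.length + L'.length = d := by omega
        exact_mod_cast h2
      linarith
    obtain ⟨b', hb', h2⟩ := ce3_step σ B e (fun r Q hQ b hb => hI r Q hQ (e + 1) heT b hb)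
      (P.shifts L') (ce3_shifts B L' P hP hok') x (hok x (by simp)) c hc
    have h3 := mul_mem_Im P L' hok' _ h2
    have h4 := h b' (by
      have h5 : d - (L'.length + 1) = e := by omega
      rw [h5]
      exact hb')
    rw [ci7_prodL_append, mul_assoc] at h4
    have h5 := Submodule.add_mem _ h3 h4
    have e1 : prodL L' * (c - x.poly * b') + prodL L' * (x.poly * b') = prodL L' * c := by ring
    rwa [e1] at h5

theorem ce3_len1 {σ : Type} [Fintype σ] [DecidableEq σ] (r : σ) :
    (list1 r).length = 2 * Fintype.card σ + 1 := by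
  unfold list1
  rw [List.length_append, List.length_flatMap]
  have h1 : (List.map (fun s => [Lin.diff r s, Lin.diff r s].length)
      (Finset.univ.erase r).toList).sum = 2 * (Fintype.card σ - 1) := by
    have h2 : (List.map (fun s => [Lin.diff r s, Lin.diff r s].length)
        (Finset.univ.erase r).toList) = List.map (fun _ => 2) (Finset.univ.erase r).toList := rfl
    rw [h2, List.map_const', List.sum_replicate, Finset.length_toList,
      Finset.card_erase_of_mem (Finset.mem_univ r), Finset.card_univ, smul_eq_mul, mul_comm]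
  rw [h1]
  have h3 : 0 < Fintype.card σ := Fintype.card_pos_iff.2 ⟨r⟩
  simp only [List.length_cons, List.length_nil]
  omega

theorem ce3_ne {σ : Type} [Fintype σ] [DecidableEq σ] (P : Par σ) (B : ℝ) (hP : Adm P B)
    (c : ℝ) (hc : B < c) : ((c : ℂ) + ∑ r, P.κ r +
      (1 / 2 : ℂ) * ∑ r, ∑ s ∈ Finset.univ.erase r, P.η r s) ≠ 0 := by
  obtain ⟨κ0, η0, k, e, h1, h2, h3, h4⟩ := hP
  intro h0
  have h5 : ∑ r, ∑ s ∈ Finset.univ.erase r, P.η r s =
      ∑ r, ∑ s ∈ Finset.univ.erase r, (η0 r s + e r s) := by
    refine Finset.sum_congr rfl fun r _ => Finset.sum_congr rfl fun s hs => ?_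
    exact h2 r s (Finset.ne_of_mem_erase hs).symm
  rw [h5, Finset.sum_congr rfl fun r _ => h1 r] at h0
  have h6 := congrArg Complex.re h0
  simp only [Finset.sum_add_distrib] at h6
  have e1 : (1 / 2 : ℂ) = ((1 / 2 : ℝ) : ℂ) := by push_cast; ring
  rw [e1, Complex.add_re, Complex.add_re, Complex.add_re, Complex.re_ofReal_mul, Complex.add_re,
    Complex.ofReal_re, Complex.zero_re] at h6
  have e2 : (∑ r, ((k r : ℕ) : ℂ)).re = ((∑ r, k r : ℕ) : ℝ) := by
    rw [← Nat.cast_sum, Complex.natCast_re]
  have e3 : (∑ r, ∑ s ∈ Finset.univ.erase r, ((e r s : ℕ) : ℂ)).re =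
      ((∑ r, ∑ s ∈ Finset.univ.erase r, e r s : ℕ) : ℝ) := by
    rw [← Complex.natCast_re]
    push_cast
    rfl
  rw [e2, e3] at h6
  have g1 : -∑ r, ‖κ0 r‖ ≤ (∑ r, κ0 r).re := by
    have g2 := (abs_le.1 ((Complex.abs_re_le_norm (∑ r, κ0 r)).trans (norm_sum_le _ _))).1
    exact g2
  have g3 : -∑ r, ∑ s ∈ Finset.univ.erase r, ‖η0 r s‖ ≤
      (∑ r, ∑ s ∈ Finset.univ.erase r, η0 r s).re := by
    have g4 : ‖∑ r, ∑ s ∈ Finset.univ.erase r, η0 r s‖ ≤
        ∑ r, ∑ s ∈ Finset.univ.erase r, ‖η0 r s‖ :=
      (norm_sum_le _ _).trans (Finset.sum_le_sum fun r _ => norm_sum_le _ _)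
    exact (abs_le.1 ((Complex.abs_re_le_norm _).trans g4)).1
  have g5 : 0 ≤ ∑ r, ∑ s ∈ Finset.univ.erase r, ‖η0 r s‖ := by positivity
  have g6 : (0 : ℝ) ≤ ((∑ r, k r : ℕ) : ℝ) := Nat.cast_nonneg _
  have g7 : (0 : ℝ) ≤ ((∑ r, ∑ s ∈ Finset.univ.erase r, e r s : ℕ) : ℝ) := Nat.cast_nonneg _
  linarith

theorem coinv_eff (n : ℕ) (σ : Type) [Fintype σ] [DecidableEq σ] (hn : Fintype.card σ = n)
    (P : Par σ) (B : ℝ) (hP : Adm P B) (d : ℕ) (hd : B + ((n : ℝ) + 1) ^ 2 < d)
    (b : MvPolynomial σ ℂ) (hb : b.IsHomogeneous d) : b ∈ Im P := by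
  revert σ
  revert d
  induction n with
  | zero =>
    intro d hd σ _ _ hn P hP b hb
    have hB := ce3_nonneg hP
    have hE : IsEmpty σ := Fintype.card_eq_zero_iff.1 hn
    have hb0 : b = 0 := by
      rw [MvPolynomial.eq_C_of_isEmpty b]
      by_contra hne
      have hc : MvPolynomial.coeff 0 b ≠ 0 := by
        intro h0
        apply hne
        rw [h0, map_zero]
      have h1 := hb hc
      have h2 : d = 0 := by
        simp at h1
        omega
      rw [h2] at hd
      norm_num at hd
      linarith
    rw [hb0]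
    exact Submodule.zero_mem _
  | succ n ih =>
    intro d hd σ _ _ hn P hP b hb
    have hB := ce3_nonneg hP
    push_cast at hd
    have hI : ∀ (r : σ) (Q : Par {t : σ // t ≠ r}), Adm Q B → ∀ d : ℕ,
        B + ((n : ℝ) + 1) ^ 2 < d →
        ∀ b : MvPolynomial {t : σ // t ≠ r} ℂ, b.IsHomogeneous d → b ∈ Im Q := by
      intro r Q hQ d hd b hb
      refine ih d hd _ ?_ Q hQ b hb
      have := Fintype.card_subtype_compl (fun t : σ => t = r)
      rw [Fintype.card_subtype_eq r, hn] at this
      simpa using this
    have hn0 : (0 : ℝ) ≤ n := Nat.cast_nonneg n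
    have hdlen : 2 * (n + 1) + 1 ≤ d := by
      have : ((2 * (n + 1) + 1 : ℕ) : ℝ) ≤ d := by
        push_cast
        nlinarith
      exact_mod_cast this
    by_cases h : ∀ r, P.D r = 1
    · refine ce3_list σ B _ hI P hP d (list3 σ) list3_ok ?_ ?_ ?_ b hb
      · rw [list3_length, hn]
        omega
      · rw [list3_length, hn]
        push_cast
        nlinarith
      · intro c hc
        refine case2_eff P h (d - (list3 σ).length) c hc ?_
        rw [list3_length, hn]
        have e1 : ((n + 1 : ℕ) : ℂ) + (2 * ((n + 1 : ℕ) : ℂ) + ((d - 2 * (n + 1) : ℕ) : ℂ)) =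
            ((((n + 1 : ℕ) : ℝ) + (d : ℝ) : ℝ) : ℂ) := by
          have e2 : ((d - 2 * (n + 1) : ℕ) : ℂ) = (d : ℂ) - 2 * ((n + 1 : ℕ) : ℂ) := by
            rw [Nat.cast_sub (by omega)]
            push_cast
            ring
          rw [e2]
          push_cast
          ring
        rw [e1]
        refine ce3_ne P B hP _ ?_
        push_cast
        nlinarith
    · push Not at h
      obtain ⟨r, hr⟩ := h
      refine ce3_list σ B _ hI P hP d (list1 r) (list1_ok r) ?_ ?_ ?_ b hb
      · rw [ce3_len1, hn]
        omega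
      · rw [ce3_len1, hn]
        push_cast
        nlinarith
      · intro c _
        exact case1 P r hr c

end

end WPQ.CI
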