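import Pool.Agent.WPQ.CID

/-! [WPQ-CI1] The generating identity for `∑_k L_k (f_k)`.

Plan: everything is linear in `f`; by `Polynomial.induction`-type arguments (or directly on sums)
reduce to `f = X^(k+1) * C b` (monomial `f = monomial (k+1) b`), where the left side is
`Lop P k b` and the right side is
`∑_r [pderiv r (b X_r^(k+1)) + (D_r - 1) (k+1) b X_r^k + κ_r b X_r^k] + 1/2 ∑_{r≠s} η_rs b hh r s k`;
use `pderiv r (b X_r^(k+1)) = X_r^(k+1) pderiv r b + (k+1) b X_r^k`. -/

namespace WPQ.CI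

open MvPolynomial

noncomputable section

variable {σ : Type} [Fintype σ] [DecidableEq σ]

/-- `∑_k L_k (f_k)` where `f = ∑_k f_k z^(k+1)`. -/
def LL (P : Par σ) (f : Polynomial (MvPolynomial σ ℂ)) : MvPolynomial σ ℂ :=
  ∑ k ∈ Finset.range (f.natDegree + 1), Lop P k (f.coeff (k + 1))

/-- `f(X_r) / X_r` (for `f` without constant term). -/
def qq (r : σ) (f : Polynomial (MvPolynomial σ ℂ)) : MvPolynomial σ ℂ :=
  ∑ k ∈ Finset.range (f.natDegree + 1), f.coeff (k + 1) * X r ^ k

/-- `(f(X_r) - f(X_s)) / (X_r - X_s)` (for `f` without constant term). -/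
def dd (r s : σ) (f : Polynomial (MvPolynomial σ ℂ)) : MvPolynomial σ ℂ :=
  ∑ k ∈ Finset.range (f.natDegree + 1), f.coeff (k + 1) * hh r s k

omit [Fintype σ] [DecidableEq σ] in
theorem ci1_eval (f : Polynomial (MvPolynomial σ ℂ)) (hf : f.coeff 0 = 0)
    (x : MvPolynomial σ ℂ) :
    f.eval x = ∑ k ∈ Finset.range (f.natDegree + 1), f.coeff (k + 1) * x ^ (k + 1) := by
  rw [Polynomial.eval_eq_sum_range' (n := f.natDegree + 1 + 1) (by omega), Finset.sum_range_succ',
    hf]
  simp

omit [Fintype σ] [DecidableEq σ] in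
theorem ci1_deriv (f : Polynomial (MvPolynomial σ ℂ)) (x : MvPolynomial σ ℂ) :
    f.derivative.eval x =
      ∑ k ∈ Finset.range (f.natDegree + 1), f.coeff (k + 1) * ((k : MvPolynomial σ ℂ) + 1) * x ^ k := by
  have hd : f.derivative.natDegree < f.natDegree + 1 := by
    have := Polynomial.natDegree_derivative_le f
    omega
  rw [Polynomial.eval_eq_sum_range' hd]
  refine Finset.sum_congr rfl fun k _ => ?_
  rw [Polynomial.coeff_derivative]

omit [Fintype σ] [DecidableEq σ] in
theorem ci1_hh (r s : σ) (k : ℕ) :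
    (X r - X s) * hh r s k = (X r : MvPolynomial σ ℂ) ^ (k + 1) - X s ^ (k + 1) := by
  have h := Commute.geom_sum₂_mul (Commute.all (X r : MvPolynomial σ ℂ) (X s)) (k + 1)
  rw [mul_comm]
  exact h

theorem X_mul_qq (r : σ) (f : Polynomial (MvPolynomial σ ℂ)) (hf : f.coeff 0 = 0) :
    X r * qq r f = f.eval (X r) := by
  rw [ci1_eval f hf, qq, Finset.mul_sum]
  refine Finset.sum_congr rfl fun k _ => ?_
  ring

theorem sub_mul_dd (r s : σ) (f : Polynomial (MvPolynomial σ ℂ)) (hf : f.coeff 0 = 0) :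
    (X r - X s) * dd r s f = f.eval (X r) - f.eval (X s) := by
  rw [ci1_eval f hf, ci1_eval f hf, dd, Finset.mul_sum, ← Finset.sum_sub_distrib]
  refine Finset.sum_congr rfl fun k _ => ?_
  rw [← mul_sub, ← ci1_hh]
  ring

theorem ci1_term (P : Par σ) (k : ℕ) (b : MvPolynomial σ ℂ) :
    Lop P k b = ∑ r, (pderiv r (b * X r ^ (k + 1)) +
        C (P.D r - 1) * (b * ((k : MvPolynomial σ ℂ) + 1) * X r ^ k) +
        C (P.κ r) * (b * X r ^ k)) +
      C (1 / 2 : ℂ) * ∑ r, ∑ s ∈ Finset.univ.erase r, C (P.η r s) * (b * hh r s k) := by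
  have h1 : vf k b = ∑ r, X r ^ (k + 1) * pderiv r b := by
    simp [vf]
  have h2 : Lop P k b = vf k b + mul P k * b := rfl
  rw [h2, h1, mul, add_mul, ← add_assoc, Finset.sum_mul, ← Finset.sum_add_distrib]
  congr 1
  · refine Finset.sum_congr rfl fun r _ => ?_
    rw [Derivation.leibniz, Derivation.leibniz_pow, pderiv_X_self]
    simp only [smul_eq_mul, nsmul_eq_mul, Nat.add_sub_cancel, map_add, map_sub, map_mul, map_one,
      map_natCast, Nat.cast_add, Nat.cast_one]
    ring
  · rw [mul_assoc, Finset.sum_mul]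
    congr 1
    refine Finset.sum_congr rfl fun r _ => ?_
    rw [Finset.sum_mul]
    refine Finset.sum_congr rfl fun s _ => ?_
    ring

theorem LL_eq (P : Par σ) (f : Polynomial (MvPolynomial σ ℂ)) (hf : f.coeff 0 = 0) :
    LL P f = ∑ r, (pderiv r (f.eval (X r)) + C (P.D r - 1) * f.derivative.eval (X r) +
        C (P.κ r) * qq r f) +
      C (1 / 2 : ℂ) * ∑ r, ∑ s ∈ Finset.univ.erase r, C (P.η r s) * dd r s f := by
  have h1 : LL P f = ∑ k ∈ Finset.range (f.natDegree + 1),
      (∑ r, (pderiv r (f.coeff (k + 1) * X r ^ (k + 1)) +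
        C (P.D r - 1) * (f.coeff (k + 1) * ((k : MvPolynomial σ ℂ) + 1) * X r ^ k) +
        C (P.κ r) * (f.coeff (k + 1) * X r ^ k)) +
      C (1 / 2 : ℂ) * ∑ r, ∑ s ∈ Finset.univ.erase r,
        C (P.η r s) * (f.coeff (k + 1) * hh r s k)) := by
    rw [LL]
    exact Finset.sum_congr rfl fun k _ => ci1_term P k _
  rw [h1, Finset.sum_add_distrib]
  congr 1
  · rw [Finset.sum_comm]
    refine Finset.sum_congr rfl fun r _ => ?_
    rw [ci1_eval f hf, ci1_deriv, qq, map_sum, Finset.mul_sum, Finset.mul_sum,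
      Finset.sum_add_distrib, Finset.sum_add_distrib]
  · rw [← Finset.mul_sum, Finset.sum_comm]
    congr 1
    refine Finset.sum_congr rfl fun r _ => ?_
    rw [Finset.sum_comm]
    refine Finset.sum_congr rfl fun s _ => ?_
    rw [dd, Finset.mul_sum]

theorem LL_mem (P : Par σ) (f : Polynomial (MvPolynomial σ ℂ))
    (hf : ∀ i < 3, f.coeff i = 0) : LL P f ∈ Im P := by
  rw [LL]
  refine Submodule.sum_mem _ fun k _ => ?_
  by_cases hk : 2 ≤ k
  · exact Submodule.subset_span ⟨k, hk, _, rfl⟩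
  · rw [hf (k + 1) (by omega), map_zero]
    exact Submodule.zero_mem _

end

end WPQ.CI
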