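import Pool.Agent.WPQ.CI1

/-! [WPQ-CI2] Case 1: some `D_r ≠ 1`.

Plan: `f = X^3 * (X - C X_r) * ∏_{s ≠ r} (X - C X_s)^2 * C c` (in `Polynomial (MvPolynomial σ ℂ)`).
All `f(X_t) = 0`, hence `qq t f = 0` and `dd t s f = 0` (`X_t`, `X_t - X_s` are nonzero in a
domain; `X_mul_qq`, `sub_mul_dd`); `f'(X_t) = 0` for `t ≠ r` (double root) and
`f'(X_r) = X_r^3 ∏_{s≠r} (X_r - X_s)^2 c`.  So `LL_eq` gives
`LL P f = (D_r - 1) X_r^3 ∏ (X_r - X_s)^2 c`, and `LL_mem` puts it in `Im P`. -/

namespace WPQ.CI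

open MvPolynomial

noncomputable section

variable {σ : Type} [Fintype σ] [DecidableEq σ]

/-- The list of linear forms `X_r, X_r, X_r, (X_r - X_s) twice`. -/
def list1 (r : σ) : List (Lin σ) :=
  [Lin.var r, Lin.var r, Lin.var r] ++
    (Finset.univ.erase r).toList.flatMap fun s => [Lin.diff r s, Lin.diff r s]

theorem list1_ok (r : σ) : ∀ x ∈ list1 r, x.ok := by
  intro x hx
  unfold list1 at hx
  rw [List.mem_append] at hx
  rcases hx with hx | hx
  · have hx' : x = Lin.var r := by simpa using hx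
    subst hx'
    trivial
  · rw [List.mem_flatMap] at hx
    obtain ⟨s, hs, hx⟩ := hx
    have hs' : s ≠ r := by simpa using hs
    have hx' : x = Lin.diff r s := by simpa using hx
    subst hx'
    exact fun h => hs' h.symm

omit [Fintype σ] [DecidableEq σ] in
theorem ci2_prodL_append (L M : List (Lin σ)) : prodL (L ++ M) = prodL L * prodL M := by
  unfold prodL
  rw [List.map_append, List.prod_append]

omit [Fintype σ] [DecidableEq σ] in
theorem ci2_prodL_flat (r : σ) (L : List σ) :
    prodL (L.flatMap fun s => [Lin.diff r s, Lin.diff r s]) =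
      (L.map fun s => ((X r - X s) ^ 2 : MvPolynomial σ ℂ)).prod := by
  induction L with
  | nil => simp [prodL]
  | cons s L ih =>
    rw [List.flatMap_cons, ci2_prodL_append, ih, List.map_cons, List.prod_cons]
    congr 1
    simp [prodL, Lin.poly, pow_two]

theorem prodL_list1 (r : σ) :
    prodL (list1 r) = X r ^ 3 * ∏ s ∈ Finset.univ.erase r, (X r - X s) ^ 2 := by
  unfold list1
  rw [ci2_prodL_append, ci2_prodL_flat, Finset.prod_map_toList]
  congr 1
  simp [prodL, Lin.poly]
  ring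

theorem case1 (P : Par σ) (r : σ) (hr : P.D r ≠ 1) (c : MvPolynomial σ ℂ) :
    prodL (list1 r) * c ∈ Im P := by
  classical
  set e : MvPolynomial σ ℂ := C ((P.D r - 1)⁻¹) * c with he
  set g : Polynomial (MvPolynomial σ ℂ) :=
    ∏ s ∈ Finset.univ.erase r, (Polynomial.X - Polynomial.C (X s)) ^ 2 with hg
  set f : Polynomial (MvPolynomial σ ℂ) :=
    Polynomial.X ^ 3 * ((Polynomial.X - Polynomial.C (X r)) * (g * Polynomial.C e)) with hf
  have hcoef : ∀ i < 3, f.coeff i = 0 := by
    intro i hi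
    rw [hf, Polynomial.coeff_X_pow_mul', if_neg (by omega)]
  have h0 : f.coeff 0 = 0 := hcoef 0 (by norm_num)
  have hgt : ∀ t, t ≠ r → ∃ g2 : Polynomial (MvPolynomial σ ℂ),
      g = (Polynomial.X - Polynomial.C (X t)) ^ 2 * g2 := by
    intro t ht
    refine ⟨∏ s ∈ (Finset.univ.erase r).erase t, (Polynomial.X - Polynomial.C (X s)) ^ 2, ?_⟩
    rw [hg]
    exact (Finset.mul_prod_erase (Finset.univ.erase r) _ (by simp [ht])).symm
  have hgr : g.eval (X r) = ∏ s ∈ Finset.univ.erase r, (X r - X s) ^ 2 := by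
    rw [hg, Polynomial.eval_prod]
    refine Finset.prod_congr rfl fun s _ => ?_
    simp
  have hev : ∀ t, f.eval (X t) = 0 := by
    intro t
    by_cases ht : t = r
    · subst ht
      simp [hf]
    · obtain ⟨g2, hg2⟩ := hgt t ht
      rw [hf, hg2]
      simp
  have hdt : ∀ t, t ≠ r → f.derivative.eval (X t) = 0 := by
    intro t ht
    obtain ⟨g2, hg2⟩ := hgt t ht
    rw [hf, hg2]
    simp [Polynomial.derivative_mul, Polynomial.derivative_pow]
  have hdr : f.derivative.eval (X r) =
      X r ^ 3 * ((∏ s ∈ Finset.univ.erase r, (X r - X s) ^ 2) * e) := by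
    rw [hf, ← hgr]
    simp [Polynomial.derivative_mul, Polynomial.derivative_pow]
  have hqq : ∀ t, qq t f = 0 := by
    intro t
    have h := X_mul_qq t f h0
    rw [hev t] at h
    rcases mul_eq_zero.1 h with h | h
    · exact absurd h (X_ne_zero t)
    · exact h
  have hXX : ∀ t s : σ, s ≠ t → (X t - X s : MvPolynomial σ ℂ) ≠ 0 := by
    intro t s hst h
    exact hst ((X_injective (sub_eq_zero.1 h)).symm)
  have hdd : ∀ t s, s ≠ t → dd t s f = 0 := by
    intro t s hst
    have h := sub_mul_dd t s f h0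
    rw [hev t, hev s, sub_zero] at h
    rcases mul_eq_zero.1 h with h | h
    · exact absurd h (hXX t s hst)
    · exact h
  have hm := LL_mem P f hcoef
  rw [LL_eq P f h0] at hm
  have h1 : ∑ t, (pderiv t (f.eval (X t)) + C (P.D t - 1) * f.derivative.eval (X t) +
      C (P.κ t) * qq t f) = C (P.D r - 1) * f.derivative.eval (X r) := by
    rw [Finset.sum_eq_single r]
    · rw [hev r, hqq r, map_zero, zero_add, mul_zero, add_zero]
    · intro t _ ht
      rw [hev t, hqq t, hdt t ht, map_zero, mul_zero, mul_zero, zero_add, add_zero]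
    · intro h
      exact absurd (Finset.mem_univ r) h
  have h2 : ∑ t, ∑ s ∈ Finset.univ.erase t, C (P.η t s) * dd t s f = 0 := by
    refine Finset.sum_eq_zero fun t _ => Finset.sum_eq_zero fun s hs => ?_
    rw [hdd t s (by simpa using hs), mul_zero]
  rw [h1, h2, mul_zero, add_zero, hdr] at hm
  rw [prodL_list1]
  have h3 : C (P.D r - 1) * (X r ^ 3 * ((∏ s ∈ Finset.univ.erase r, (X r - X s) ^ 2) * e)) =
      X r ^ 3 * (∏ s ∈ Finset.univ.erase r, (X r - X s) ^ 2) * c := by
    have h4 : (C (P.D r - 1) * C ((P.D r - 1)⁻¹) : MvPolynomial σ ℂ) = 1 := by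
      rw [← C_mul, mul_inv_cancel₀ (sub_ne_zero.2 hr), C_1]
    rw [he]
    calc C (P.D r - 1) * (X r ^ 3 * ((∏ s ∈ Finset.univ.erase r, (X r - X s) ^ 2) *
          (C ((P.D r - 1)⁻¹) * c)))
        = (C (P.D r - 1) * C ((P.D r - 1)⁻¹)) *
          (X r ^ 3 * (∏ s ∈ Finset.univ.erase r, (X r - X s) ^ 2) * c) := by ring
      _ = _ := by rw [h4, one_mul]
  rw [← h3]
  exact hm

end

end WPQ.CI
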