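import Pool.Agent.WPQ.CI1

/-! [WPQ-CI3] Case 2: all `D_r = 1`.

Plan: let `E = ∏_r X_r^2 * ∏_{r ≠ s} (X_r - X_s)` (ordered pairs; up to sign the square of the
Vandermonde) `= prodL list2`.  For `c` homogeneous of degree `d` take
`f = X^3 * ∑_r C (c * E_r) * ∏_{s ≠ r} (X - C X_s)`, where
`E_r = ∏_{t ≠ r} (X_t^2 * ∏_{s ≠ t} (X_t - X_s))`.
Then `f(X_r) = X_r * (E * c)` for every `r`, so `qq r f = E c`,
`dd r s f = E c`, and `LL_eq` (with `D_r - 1 = 0`) gives
`LL P f = (card σ + deg (E c) + ∑ κ + 1/2 ∑ η) E c` by Euler's identity.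
The scalar vanishes for at most one degree `d`, so it is nonzero for all large `d`. -/

namespace WPQ.CI

open MvPolynomial

noncomputable section

variable {σ : Type} [Fintype σ] [DecidableEq σ]

/-- The list of linear forms `X_r` twice (all `r`), `X_r - X_s` (all ordered pairs `r ≠ s`). -/
def list2 (σ : Type) [Fintype σ] [DecidableEq σ] : List (Lin σ) :=
  ((Finset.univ : Finset σ).toList.flatMap fun r => [Lin.var r, Lin.var r]) ++
    ((Finset.univ : Finset σ).toList.flatMap fun r =>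
      (Finset.univ.erase r).toList.map fun s => Lin.diff r s)

theorem list2_ok : ∀ x ∈ list2 σ, x.ok := by
  intro x hx
  unfold list2 at hx
  rw [List.mem_append] at hx
  rcases hx with hx | hx
  · rw [List.mem_flatMap] at hx
    obtain ⟨r, _, hr⟩ := hx
    simp only [List.mem_cons, List.not_mem_nil, or_false, or_self] at hr
    subst hr
    exact trivial
  · rw [List.mem_flatMap] at hx
    obtain ⟨r, _, hr⟩ := hx
    rw [List.mem_map] at hr
    obtain ⟨s, hs, rfl⟩ := hr
    rw [Finset.mem_toList, Finset.mem_erase] at hs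
    exact fun h => hs.1 h.symm

omit [Fintype σ] [DecidableEq σ] in
theorem ci3_prodL_append (L M : List (Lin σ)) : prodL (L ++ M) = prodL L * prodL M := by
  unfold prodL
  rw [List.map_append, List.prod_append]

omit [Fintype σ] [DecidableEq σ] in
theorem ci3_prodL_flatMap {α : Type} (L : List α) (g : α → List (Lin σ)) :
    prodL (L.flatMap g) = (L.map fun a => prodL (g a)).prod := by
  induction L with
  | nil => simp [prodL]
  | cons a L ih =>
    rw [List.flatMap_cons, ci3_prodL_append, ih, List.map_cons, List.prod_cons]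

theorem prodL_list2 :
    prodL (list2 σ) = (∏ r : σ, X r ^ 2) * ∏ r : σ, ∏ s ∈ Finset.univ.erase r, (X r - X s) := by
  unfold list2
  rw [ci3_prodL_append, ci3_prodL_flatMap, ci3_prodL_flatMap]
  congr 1
  · rw [Finset.prod_map_toList]
    refine Finset.prod_congr rfl fun r _ => ?_
    simp [prodL, Lin.poly, sq]
  · rw [Finset.prod_map_toList]
    refine Finset.prod_congr rfl fun r _ => ?_
    unfold prodL
    rw [List.map_map, ← Finset.prod_map_toList]
    rfl

omit [Fintype σ] [DecidableEq σ] in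
theorem ci3_poly_hom (x : Lin σ) : x.poly.IsHomogeneous 1 := by
  cases x with
  | var r => exact isHomogeneous_X ℂ r
  | diff r s => exact (isHomogeneous_X ℂ r).sub (isHomogeneous_X ℂ s)

omit [Fintype σ] [DecidableEq σ] in
theorem ci3_prodL_hom (L : List (Lin σ)) : (prodL L).IsHomogeneous L.length := by
  induction L with
  | nil => exact isHomogeneous_one _ _
  | cons a L ih =>
    have h := (ci3_poly_hom a).mul ih
    rw [List.length_cons, add_comm]
    exact h

/-- The factor of the variable `t`. -/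
def ci3_G (t : σ) : MvPolynomial σ ℂ := X t ^ 2 * ∏ s ∈ Finset.univ.erase t, (X t - X s)

theorem ci3_prodG : ∏ t : σ, ci3_G t = prodL (list2 σ) := by
  rw [prodL_list2, ← Finset.prod_mul_distrib]
  rfl

/-- The interpolating polynomial. -/
def ci3_f (c : MvPolynomial σ ℂ) : Polynomial (MvPolynomial σ ℂ) :=
  Polynomial.X ^ 3 * ∑ r : σ, Polynomial.C (c * ∏ t ∈ Finset.univ.erase r, ci3_G t) *
    ∏ s ∈ Finset.univ.erase r, (Polynomial.X - Polynomial.C (X s))

theorem ci3_f_coeff (c : MvPolynomial σ ℂ) (i : ℕ) (hi : i < 3) : (ci3_f c).coeff i = 0 := by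
  unfold ci3_f
  rw [Polynomial.coeff_X_pow_mul', if_neg (by omega)]

theorem ci3_f_eval (c : MvPolynomial σ ℂ) (r : σ) :
    (ci3_f c).eval (X r) = X r * (prodL (list2 σ) * c) := by
  unfold ci3_f
  rw [Polynomial.eval_mul, Polynomial.eval_pow, Polynomial.eval_X, Polynomial.eval_finsetSum,
    Finset.sum_eq_single r]
  · rw [Polynomial.eval_mul, Polynomial.eval_C, Polynomial.eval_prod]
    have h := Finset.mul_prod_erase Finset.univ (fun t : σ => ci3_G t) (Finset.mem_univ r)
    rw [← ci3_prodG, ← h]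
    simp only [Polynomial.eval_sub, Polynomial.eval_X, Polynomial.eval_C, ci3_G]
    ring
  · intro t _ ht
    rw [Polynomial.eval_mul, Polynomial.eval_prod]
    have h0 : ∏ s ∈ Finset.univ.erase t,
        Polynomial.eval (X r) (Polynomial.X - Polynomial.C (X s : MvPolynomial σ ℂ)) = 0 := by
      refine Finset.prod_eq_zero (i := r)
        (Finset.mem_erase.mpr ⟨fun h => ht h.symm, Finset.mem_univ r⟩) ?_
      rw [Polynomial.eval_sub, Polynomial.eval_X, Polynomial.eval_C, sub_self]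
    rw [h0, mul_zero]
  · intro h
    exact absurd (Finset.mem_univ r) h

theorem ci3_qq (c : MvPolynomial σ ℂ) (r : σ) : qq r (ci3_f c) = prodL (list2 σ) * c := by
  have h := X_mul_qq r (ci3_f c) (ci3_f_coeff c 0 (by norm_num))
  rw [ci3_f_eval] at h
  exact mul_left_cancel₀ (X_ne_zero r) h

theorem ci3_dd (c : MvPolynomial σ ℂ) (r s : σ) (hrs : r ≠ s) :
    dd r s (ci3_f c) = prodL (list2 σ) * c := by
  have h := sub_mul_dd r s (ci3_f c) (ci3_f_coeff c 0 (by norm_num))
  rw [ci3_f_eval, ci3_f_eval, ← sub_mul] at h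
  refine mul_left_cancel₀ ?_ h
  intro h0
  exact hrs (X_injective (R := ℂ) (sub_eq_zero.mp h0))

theorem ci3_LL (P : Par σ) (h : ∀ r, P.D r = 1) (c : MvPolynomial σ ℂ) (n : ℕ)
    (hn : (prodL (list2 σ) * c).IsHomogeneous n) :
    LL P (ci3_f c) = C ((n : ℂ) + (Fintype.card σ + ∑ r, P.κ r +
      1 / 2 * ∑ r, ∑ s ∈ Finset.univ.erase r, P.η r s)) * (prodL (list2 σ) * c) := by
  have hE := hn.sum_X_mul_pderiv
  rw [LL_eq P _ (ci3_f_coeff c 0 (by norm_num))]
  have h1 : ∀ r : σ, pderiv r ((ci3_f c).eval (X r)) +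
      C (P.D r - 1) * (ci3_f c).derivative.eval (X r) + C (P.κ r) * qq r (ci3_f c) =
      X r * pderiv r (prodL (list2 σ) * c) + (prodL (list2 σ) * c +
        C (P.κ r) * (prodL (list2 σ) * c)) := by
    intro r
    rw [ci3_f_eval, ci3_qq, h r, sub_self, C_0, zero_mul, add_zero, Derivation.leibniz,
      pderiv_X_self, smul_eq_mul, smul_eq_mul, mul_one]
    ring
  have h2 : ∀ r : σ, ∑ s ∈ Finset.univ.erase r, C (P.η r s) * dd r s (ci3_f c) =
      (∑ s ∈ Finset.univ.erase r, C (P.η r s)) * (prodL (list2 σ) * c) := by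
    intro r
    rw [Finset.sum_mul]
    refine Finset.sum_congr rfl fun s hs => ?_
    rw [ci3_dd c r s (fun h => (Finset.mem_erase.mp hs).1 h.symm)]
  rw [Finset.sum_congr rfl fun r _ => h1 r, Finset.sum_congr rfl fun r _ => h2 r,
    Finset.sum_add_distrib, hE, Finset.sum_add_distrib, Finset.sum_const, Finset.card_univ]
  have h3 : ∑ r : σ, C (P.κ r) * (prodL (list2 σ) * c) =
      (∑ r : σ, C (P.κ r)) * (prodL (list2 σ) * c) := by rw [Finset.sum_mul]
  have h4 : ∑ r : σ, (∑ s ∈ Finset.univ.erase r, C (P.η r s)) * (prodL (list2 σ) * c) =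
      (∑ r : σ, ∑ s ∈ Finset.univ.erase r, C (P.η r s)) * (prodL (list2 σ) * c) := by
    rw [Finset.sum_mul]
  rw [h3, h4]
  simp only [map_add, map_mul, map_sum, map_natCast, nsmul_eq_mul]
  ring

theorem case2 (P : Par σ) (h : ∀ r, P.D r = 1) :
    ∃ d0 : ℕ, ∀ d ≥ d0, ∀ c : MvPolynomial σ ℂ, c.IsHomogeneous d →
      prodL (list2 σ) * c ∈ Im P := by
  obtain ⟨K, hK⟩ : ∃ K : ℂ, K = Fintype.card σ + ∑ r, P.κ r +
      1 / 2 * ∑ r, ∑ s ∈ Finset.univ.erase r, P.η r s := ⟨_, rfl⟩
  obtain ⟨d0, hd0⟩ : ∃ d0 : ℕ, ∀ d ≥ d0, ((((list2 σ).length + d : ℕ) : ℂ) + K) ≠ 0 := by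
    by_cases hex : ∃ d1 : ℕ, ((((list2 σ).length + d1 : ℕ) : ℂ) + K) = 0
    · obtain ⟨d1, h1⟩ := hex
      refine ⟨d1 + 1, fun d hd h2 => ?_⟩
      have h3 : (((list2 σ).length + d : ℕ) : ℂ) = (((list2 σ).length + d1 : ℕ) : ℂ) := by
        linear_combination h2 - h1
      have h4 := Nat.cast_injective h3
      omega
    · push Not at hex
      exact ⟨0, fun d _ => hex d⟩
  refine ⟨d0, fun d hd c hc => ?_⟩
  have hn : (prodL (list2 σ) * c).IsHomogeneous ((list2 σ).length + d) :=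
    (ci3_prodL_hom (list2 σ)).mul hc
  have h1 := LL_mem P (ci3_f c) (fun i hi => ci3_f_coeff c i hi)
  rw [ci3_LL P h c _ hn, ← hK] at h1
  have h2 := (Im P).smul_mem ((((list2 σ).length + d : ℕ) : ℂ) + K)⁻¹ h1
  rw [smul_eq_C_mul, ← mul_assoc, ← C_mul, inv_mul_cancel₀ (hd0 d hd), C_1, one_mul] at h2
  exact h2

end

end WPQ.CI
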