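import Pool.Agent.WPQ.CID

/-! [WPQ-CI4] Conjugation by products of linear forms.

`vf k` is a derivation with `vf k X_r = X_r^(k+1)`, and `X_r^(k+1) - X_s^(k+1) = (X_r - X_s) hh r s k`
(`Commute.geom_sum₂_mul` / `geom_sum₂`).  So `Lop P k (X_r b) = X_r (Lop P k b + X_r^k b)` and
`Lop P k ((X_r - X_s) b) = (X_r - X_s) (Lop P k b + hh r s k * b)`; compare `mul P k` with
`mul (P.shift ℓ) k` (for `shiftE` the two ordered pairs `(r,s)`, `(s,r)` and the factor `1/2`). -/

namespace WPQ.CI

open MvPolynomial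

noncomputable section

variable {σ : Type} [Fintype σ] [DecidableEq σ]

omit [DecidableEq σ] in
theorem ci4_vf_apply (k : ℕ) (b : MvPolynomial σ ℂ) :
    vf k b = ∑ r, X r ^ (k + 1) * pderiv r b := by
  unfold vf
  rw [LinearMap.sum_apply]
  rfl

theorem ci4_vf_mul (k : ℕ) (a b : MvPolynomial σ ℂ) :
    vf k (a * b) = a * vf k b + vf k a * b := by
  rw [ci4_vf_apply, ci4_vf_apply, ci4_vf_apply, Finset.mul_sum, Finset.sum_mul,
    ← Finset.sum_add_distrib]
  refine Finset.sum_congr rfl fun r _ => ?_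
  rw [Derivation.leibniz, smul_eq_mul, smul_eq_mul]
  ring

theorem ci4_vf_X (k : ℕ) (r : σ) : vf k (X r : MvPolynomial σ ℂ) = X r ^ (k + 1) := by
  rw [ci4_vf_apply, Finset.sum_eq_single r]
  · rw [pderiv_X_self, mul_one]
  · intro t _ ht
    rw [pderiv_X_of_ne ht.symm, mul_zero]
  · intro h
    exact absurd (Finset.mem_univ r) h

theorem ci4_Lop_apply (P : Par σ) (k : ℕ) (b : MvPolynomial σ ℂ) :
    Lop P k b = vf k b + mul P k * b := rfl

omit [Fintype σ] [DecidableEq σ] in
theorem ci4_hh_comm (r s : σ) (k : ℕ) : hh r s k = hh s r k := by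
  unfold hh
  have h := geom_sum₂_comm (X r : MvPolynomial σ ℂ) (X s) (k + 1)
  simpa only [Nat.add_sub_cancel] using h

omit [Fintype σ] [DecidableEq σ] in
theorem ci4_sub_mul_hh (r s : σ) (k : ℕ) :
    (X r - X s) * hh r s k = X r ^ (k + 1) - X s ^ (k + 1) := by
  unfold hh
  have h := (Commute.all (X r : MvPolynomial σ ℂ) (X s)).mul_geom_sum₂ (k + 1)
  simpa only [Nat.add_sub_cancel] using h

theorem ci4_mul_shiftK (P : Par σ) (r : σ) (k : ℕ) :
    mul (P.shiftK r) k = mul P k + X r ^ k := by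
  have h1 : ∑ t, C (((k : ℂ) + 1) * (P.shiftK r).D t + (P.shiftK r).κ t) * X t ^ k =
      ∑ t, C (((k : ℂ) + 1) * P.D t + P.κ t) * X t ^ k + X r ^ k := by
    have h2 : (X r ^ k : MvPolynomial σ ℂ) = ∑ t, if t = r then X t ^ k else 0 := by
      rw [Finset.sum_ite_eq' Finset.univ r, if_pos (Finset.mem_univ r)]
    rw [h2, ← Finset.sum_add_distrib]
    refine Finset.sum_congr rfl fun t _ => ?_
    have h3 : (P.shiftK r).κ t = P.κ t + if t = r then 1 else 0 := rfl
    have h4 : (P.shiftK r).D t = P.D t := rfl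
    rw [h3, h4]
    by_cases ht : t = r
    · rw [if_pos ht, if_pos ht, ← add_assoc, C_add, C_1]
      ring
    · rw [if_neg ht, if_neg ht, add_zero, add_zero]
  unfold mul
  rw [h1]
  have h5 : (P.shiftK r).η = P.η := rfl
  rw [h5]
  ring

theorem ci4_mul_shiftE (P : Par σ) (r s : σ) (hrs : r ≠ s) (k : ℕ) :
    mul (P.shiftE r s) k = mul P k + hh r s k := by
  have h1 : ∑ t, ∑ u ∈ Finset.univ.erase t, C ((P.shiftE r s).η t u) * hh t u k =
      ∑ t, ∑ u ∈ Finset.univ.erase t, C (P.η t u) * hh t u k +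
        (hh r s k + hh s r k) := by
    have h2 : (hh r s k + hh s r k : MvPolynomial σ ℂ) =
        ∑ t, ∑ u ∈ Finset.univ.erase t,
          ((if t = r then (if u = s then hh t u k else 0) else 0) +
            (if t = s then (if u = r then hh t u k else 0) else 0)) := by
      have h3 : ∀ a b : σ, a ≠ b → (hh a b k : MvPolynomial σ ℂ) =
          ∑ t, ∑ u ∈ Finset.univ.erase t,
            (if t = a then (if u = b then hh t u k else 0) else 0) := by
        intro a b hab
        rw [Finset.sum_eq_single a]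
        · rw [Finset.sum_eq_single b]
          · rw [if_pos rfl, if_pos rfl]
          · intro u _ hu
            rw [if_pos rfl, if_neg hu]
          · intro h
            exact absurd (by simpa using hab.symm) h
        · intro t _ ht
          refine Finset.sum_eq_zero fun u _ => ?_
          rw [if_neg ht]
        · intro h
          exact absurd (Finset.mem_univ a) h
      rw [h3 r s hrs, h3 s r hrs.symm, ← Finset.sum_add_distrib]
      refine Finset.sum_congr rfl fun t _ => ?_
      rw [← Finset.sum_add_distrib]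
    rw [h2, ← Finset.sum_add_distrib]
    refine Finset.sum_congr rfl fun t _ => ?_
    rw [← Finset.sum_add_distrib]
    refine Finset.sum_congr rfl fun u _ => ?_
    have h4 : (P.shiftE r s).η t u =
        P.η t u + if (t = r ∧ u = s) ∨ (t = s ∧ u = r) then 1 else 0 := rfl
    rw [h4]
    by_cases h5 : t = r ∧ u = s
    · have h6 : ¬ t = s := fun h => hrs (h5.1.symm.trans h)
      rw [if_pos (Or.inl h5), if_pos h5.1, if_pos h5.2, if_neg h6, C_add, C_1]
      ring
    · by_cases h6 : t = s ∧ u = r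
      · have h7 : ¬ t = r := fun h => hrs (h.symm.trans h6.1)
        rw [if_pos (Or.inr h6), if_neg h7, if_pos h6.1, if_pos h6.2, C_add, C_1]
        ring
      · rw [if_neg (by rintro (h | h); exacts [h5 h, h6 h]), add_zero]
        have h8 : (if t = r then (if u = s then hh t u k else 0) else 0 : MvPolynomial σ ℂ) = 0 := by
          by_cases h9 : t = r
          · rw [if_pos h9, if_neg (fun h => h5 ⟨h9, h⟩)]
          · rw [if_neg h9]
        have h10 : (if t = s then (if u = r then hh t u k else 0) else 0 :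
            MvPolynomial σ ℂ) = 0 := by
          by_cases h9 : t = s
          · rw [if_pos h9, if_neg (fun h => h6 ⟨h9, h⟩)]
          · rw [if_neg h9]
        rw [h8, h10, add_zero, add_zero]
  unfold mul
  rw [h1, ci4_hh_comm s r k]
  have h5 : (P.shiftE r s).D = P.D := rfl
  have h6 : (P.shiftE r s).κ = P.κ := rfl
  rw [h5, h6]
  have h7 : (C (1 / 2 : ℂ) * (hh r s k + hh r s k) : MvPolynomial σ ℂ) = hh r s k := by
    rw [← two_mul, ← mul_assoc]
    have h8 : (C (1 / 2 : ℂ) * 2 : MvPolynomial σ ℂ) = 1 := by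
      have h9 : (2 : MvPolynomial σ ℂ) = C (2 : ℂ) := by rw [map_ofNat]
      rw [h9, ← C_mul]
      norm_num
    rw [h8, one_mul]
  rw [mul_add, h7]
  ring

theorem Lop_shift (P : Par σ) (x : Lin σ) (hx : x.ok) (k : ℕ) (b : MvPolynomial σ ℂ) :
    Lop P k (x.poly * b) = x.poly * Lop (P.shift x) k b := by
  cases x with
  | var r =>
    change Lop P k (X r * b) = X r * Lop (P.shiftK r) k b
    rw [ci4_Lop_apply, ci4_Lop_apply, ci4_vf_mul, ci4_vf_X, ci4_mul_shiftK]
    ring
  | diff r s =>
    change Lop P k ((X r - X s) * b) = (X r - X s) * Lop (P.shiftE r s) k b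
    rw [ci4_Lop_apply, ci4_Lop_apply, ci4_vf_mul, map_sub, ci4_vf_X, ci4_vf_X,
      ci4_mul_shiftE P r s hx, ← ci4_sub_mul_hh]
    ring

theorem Lop_shifts (P : Par σ) (L : List (Lin σ)) (hL : ∀ x ∈ L, x.ok) (k : ℕ)
    (b : MvPolynomial σ ℂ) : Lop P k (prodL L * b) = prodL L * Lop (P.shifts L) k b := by
  induction L generalizing P b with
  | nil =>
    have h1 : (prodL ([] : List (Lin σ))) = 1 := rfl
    rw [h1, one_mul, one_mul]
    rfl
  | cons x L ih =>
    have h1 : prodL (x :: L) = x.poly * prodL L := by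
      unfold prodL
      rw [List.map_cons, List.prod_cons]
    have h2 : P.shifts (x :: L) = (P.shift x).shifts L := rfl
    rw [h1, h2, mul_assoc, Lop_shift P x (hL x (by simp)), mul_assoc,
      ih (P.shift x) (fun y hy => hL y (by simp [hy])) b]

theorem mul_mem_Im (P : Par σ) (L : List (Lin σ)) (hL : ∀ x ∈ L, x.ok)
    (b : MvPolynomial σ ℂ) (hb : b ∈ Im (P.shifts L)) : prodL L * b ∈ Im P := by
  have h : Im (P.shifts L) ≤ (Im P).comap (LinearMap.mulLeft ℂ (prodL L)) := by
    unfold Im
    rw [Submodule.span_le]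
    rintro w ⟨k, hk, c, rfl⟩
    change prodL L * Lop (P.shifts L) k c ∈ Submodule.span ℂ _
    rw [← Lop_shifts P L hL k c]
    exact Submodule.subset_span ⟨k, hk, prodL L * c, rfl⟩
  exact h hb

end

end WPQ.CI
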