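import Pool.Agent.WPQ.CID

/-! [WPQ-CI5] Restriction to `X_r = 0`.

Plan: `killHom r (Lop P k b) = Lop (P.kill r) k (killHom r b)` for `k ≥ 1` (for `k ≥ 1` the terms
with `X_r^k`, `X_r^(k+1) ∂_r` vanish; `hh r s k ↦ X_s^k`, both ordered pairs and the factor 1/2
give `η_rs X_s^k`; `killHom r (pderiv t b) = pderiv t (killHom r b)` for `t ≠ r`).  `killHom r` is
surjective (section: `rename Subtype.val`), preserves degrees, and its kernel is the ideal `(X_r)`.
So if `killHom r b = ∑ Lop (P.kill r) k_i c_i` then `b - ∑ Lop P k_i (rename c_i) ∈ (X_r)`; take the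
homogeneous component of degree `d` (or choose the `c_i` homogeneous: `Lop P k` raises degrees by
`k`; `Im P` is a graded subspace) to get `b'` homogeneous of degree `d - 1`. -/

namespace WPQ.CI

open MvPolynomial

noncomputable section

variable {σ : Type} [Fintype σ] [DecidableEq σ]

set_option linter.unusedSectionVars false

/-- A linear map raising degrees by `e` commutes with homogeneous components. -/
theorem ci5_comp {α β : Type} (T : MvPolynomial α ℂ →ₗ[ℂ] MvPolynomial β ℂ) (e : ℕ)
    (hT : ∀ i p, p.IsHomogeneous i → (T p).IsHomogeneous (i + e)) (n : ℕ) (p : MvPolynomial α ℂ) :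
    homogeneousComponent n (T p) =
      if e ≤ n then T (homogeneousComponent (n - e) p) else 0 := by
  have h1 : T p = ∑ i ∈ Finset.range (p.totalDegree + 1), T (homogeneousComponent i p) := by
    rw [← map_sum, sum_homogeneousComponent]
  rw [h1, map_sum]
  have h2 : ∀ i ∈ Finset.range (p.totalDegree + 1),
      homogeneousComponent n (T (homogeneousComponent i p)) =
        if i + e = n then T (homogeneousComponent i p) else 0 := by
    intro i _
    have h3 := homogeneousComponent_of_mem (m := n)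
      (hT i _ (homogeneousComponent_isHomogeneous i p))
    rw [h3]
    by_cases hin : i + e = n
    · rw [if_pos hin, if_pos hin.symm]
    · rw [if_neg hin, if_neg (fun h => hin h.symm)]
  rw [Finset.sum_congr rfl h2]
  by_cases hen : e ≤ n
  · rw [if_pos hen]
    by_cases hn : n - e ∈ Finset.range (p.totalDegree + 1)
    · rw [Finset.sum_eq_single (n - e)]
      · rw [if_pos (by omega)]
      · intro i _ hi
        rw [if_neg (by omega)]
      · intro h
        exact absurd hn h
    · rw [homogeneousComponent_eq_zero (n - e) p (by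
        rw [Finset.mem_range] at hn
        omega), map_zero]
      apply Finset.sum_eq_zero
      intro i hi
      rw [if_neg]
      rintro rfl
      apply hn
      rwa [Nat.add_sub_cancel]
  · rw [if_neg hen]
    apply Finset.sum_eq_zero
    intro i _
    rw [if_neg (by omega)]

theorem ci5_hh_hom {α : Type} (r s : α) (k : ℕ) : (hh r s k).IsHomogeneous k := by
  unfold hh
  apply IsHomogeneous.sum
  intro i hi
  rw [Finset.mem_range] at hi
  have h := (isHomogeneous_X_pow (R := ℂ) r i).mul (isHomogeneous_X_pow (R := ℂ) s (k - i))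
  rwa [Nat.add_sub_cancel' (by omega)] at h

theorem ci5_mul_hom {α : Type} [Fintype α] [DecidableEq α] (P : Par α) (k : ℕ) :
    (mul P k).IsHomogeneous k := by
  unfold mul
  apply IsHomogeneous.add
  · apply IsHomogeneous.sum
    intro i _
    exact (isHomogeneous_X_pow (R := ℂ) i k).C_mul _
  · apply IsHomogeneous.C_mul
    apply IsHomogeneous.sum
    intro i _
    apply IsHomogeneous.sum
    intro j _
    exact (ci5_hh_hom i j k).C_mul _

theorem ci5_vf_apply {α : Type} [Fintype α] [DecidableEq α] (k : ℕ) (p : MvPolynomial α ℂ) :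
    vf k p = ∑ t, X t ^ (k + 1) * pderiv t p := by
  unfold vf
  rw [LinearMap.sum_apply]
  rfl

theorem ci5_Lop_apply {α : Type} [Fintype α] [DecidableEq α] (P : Par α) (k : ℕ)
    (p : MvPolynomial α ℂ) :
    Lop P k p = ∑ t, X t ^ (k + 1) * pderiv t p + mul P k * p := by
  unfold Lop
  rw [LinearMap.add_apply, ci5_vf_apply]
  rfl

theorem ci5_Lop_hom {α : Type} [Fintype α] [DecidableEq α] (P : Par α) (k i : ℕ)
    (p : MvPolynomial α ℂ) (hp : p.IsHomogeneous i) : (Lop P k p).IsHomogeneous (i + k) := by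
  rw [ci5_Lop_apply]
  apply IsHomogeneous.add
  · apply IsHomogeneous.sum
    intro t _
    rcases Nat.eq_zero_or_pos i with rfl | hi
    · have h0 : p = C (coeff 0 p) :=
        totalDegree_eq_zero_iff_eq_C.mp (Nat.le_zero.mp hp.totalDegree_le)
      rw [h0, pderiv_C, mul_zero]
      exact isHomogeneous_zero _ _ _
    · have h := (isHomogeneous_X_pow (R := ℂ) t (k + 1)).mul (hp.pderiv (i := t))
      rwa [show k + 1 + (i - 1) = i + k by omega] at h
  · rw [add_comm]
    exact (ci5_mul_hom P k).mul hp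

/-- `Im P` is graded. -/
theorem ci5_Im_comp {α : Type} [Fintype α] [DecidableEq α] (P : Par α) (n : ℕ)
    (w : MvPolynomial α ℂ) (hw : w ∈ Im P) : homogeneousComponent n w ∈ Im P := by
  unfold Im at hw
  induction hw using Submodule.span_induction with
  | mem x hx =>
    obtain ⟨k, hk, b, rfl⟩ := hx
    rw [ci5_comp (Lop P k) k (fun i p hp => ci5_Lop_hom P k i p hp)]
    split_ifs with h
    · exact Submodule.subset_span ⟨k, hk, _, rfl⟩
    · exact Submodule.zero_mem _
  | zero => rw [map_zero]; exact Submodule.zero_mem _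
  | add x y _ _ hx hy => rw [map_add]; exact Submodule.add_mem _ hx hy
  | smul a x _ hx => rw [map_smul]; exact Submodule.smul_mem _ a hx

theorem ci5_kill_X_self (r : σ) : killHom r (X r) = 0 := by
  unfold killHom
  rw [aeval_X, dif_pos rfl]

theorem ci5_kill_X (r : σ) (t : {t : σ // t ≠ r}) : killHom r (X (t : σ)) = X t := by
  unfold killHom
  rw [aeval_X, dif_neg t.2]

theorem ci5_kill_hom (r : σ) (i : ℕ) (p : MvPolynomial σ ℂ) (hp : p.IsHomogeneous i) :
    (killHom r p).IsHomogeneous i := by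
  unfold killHom
  have h := IsHomogeneous.aeval (n := 1) hp
    (fun t : σ => if h : t = r then (0 : MvPolynomial {t : σ // t ≠ r} ℂ) else X ⟨t, h⟩) (by
      intro t
      by_cases h : t = r
      · rw [dif_pos h]
        exact isHomogeneous_zero _ _ _
      · rw [dif_neg h]
        exact isHomogeneous_X _ _)
  rwa [one_mul] at h

theorem ci5_kill_rename (r : σ) (p : MvPolynomial {t : σ // t ≠ r} ℂ) :
    killHom r (rename Subtype.val p) = p := by
  induction p using MvPolynomial.induction_on with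
  | C a => rw [rename_C]; unfold killHom; rw [aeval_C]; rfl
  | add p q hp hq => rw [map_add, map_add, hp, hq]
  | mul_X p t hp => rw [map_mul, map_mul, hp, rename_X, ci5_kill_X]

theorem ci5_dvd (r : σ) (p : MvPolynomial σ ℂ) :
    X r ∣ p - rename Subtype.val (killHom r p) := by
  induction p using MvPolynomial.induction_on with
  | C a =>
    have h : killHom r (C a) = C a := by
      unfold killHom
      rw [aeval_C]
      rfl
    rw [h, rename_C, sub_self]
    exact dvd_zero _
  | add p q hp hq =>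
    rw [map_add, map_add, add_sub_add_comm]
    exact dvd_add hp hq
  | mul_X p t hp =>
    by_cases ht : t = r
    · subst ht
      rw [map_mul, ci5_kill_X_self, mul_zero, map_zero, sub_zero]
      exact dvd_mul_left _ _
    · have h := ci5_kill_X r ⟨t, ht⟩
      rw [map_mul, show killHom r (X t) = X ⟨t, ht⟩ from h, map_mul, rename_X, ← sub_mul]
      exact Dvd.dvd.mul_right hp _

theorem ci5_kill_pderiv (r : σ) (t : {t : σ // t ≠ r}) (p : MvPolynomial σ ℂ) :
    killHom r (pderiv (t : σ) p) = pderiv t (killHom r p) := by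
  induction p using MvPolynomial.induction_on with
  | C a =>
    have h : killHom r (C a) = C a := by
      unfold killHom
      rw [aeval_C]
      rfl
    rw [h, pderiv_C, pderiv_C, map_zero]
  | add p q hp hq => rw [map_add, map_add, map_add, map_add, hp, hq]
  | mul_X p u hp =>
    rw [pderiv_mul, map_add, map_mul, map_mul, hp, map_mul, pderiv_mul]
    congr 2
    by_cases hu : u = r
    · subst hu
      rw [ci5_kill_X_self, map_zero, pderiv_X_of_ne (Ne.symm t.2), map_zero]
    · have h := ci5_kill_X r ⟨u, hu⟩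
      rw [show killHom r (X u) = X ⟨u, hu⟩ from h]
      by_cases hut : u = t
      · subst hut
        rw [pderiv_X_self, map_one]
        exact (pderiv_X_self _).symm
      · rw [pderiv_X_of_ne hut, map_zero, pderiv_X_of_ne]
        intro h'
        apply hut
        rw [← h']

theorem ci5_sum_split {M : Type} [AddCommMonoid M] (r : σ) (f : σ → M) :
    ∑ t, f t = f r + ∑ t : {t : σ // t ≠ r}, f t := by
  rw [← Finset.add_sum_erase Finset.univ f (Finset.mem_univ r)]
  congr 1
  rw [Finset.sum_subtype (Finset.univ.erase r) (p := fun t => t ≠ r)]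
  intro x
  simp

theorem ci5_kill_hh (r : σ) (s t : {t : σ // t ≠ r}) (k : ℕ) :
    killHom r (hh (s : σ) (t : σ) k) = hh s t k := by
  unfold hh
  rw [map_sum]
  refine Finset.sum_congr rfl fun i _ => ?_
  rw [map_mul, map_pow, map_pow, ci5_kill_X, ci5_kill_X]

theorem ci5_kill_hh_left (r : σ) (t : {t : σ // t ≠ r}) (k : ℕ) :
    killHom r (hh r (t : σ) k) = X t ^ k := by
  unfold hh
  rw [map_sum, Finset.sum_eq_single 0]
  · rw [map_mul, map_pow, map_pow, ci5_kill_X, ci5_kill_X_self, pow_zero, one_mul, Nat.sub_zero]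
  · intro i _ hi
    rw [map_mul, map_pow, ci5_kill_X_self, zero_pow hi, zero_mul]
  · intro h
    exact absurd (Finset.mem_range.mpr (Nat.succ_pos k)) h

theorem ci5_kill_hh_right (r : σ) (t : {t : σ // t ≠ r}) (k : ℕ) :
    killHom r (hh (t : σ) r k) = X t ^ k := by
  unfold hh
  rw [map_sum, Finset.sum_eq_single k]
  · rw [map_mul, map_pow, map_pow, ci5_kill_X, ci5_kill_X_self, Nat.sub_self, pow_zero, mul_one]
  · intro i hi hik
    rw [Finset.mem_range] at hi
    rw [map_mul, map_pow, map_pow, ci5_kill_X_self, zero_pow (by omega), mul_zero]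
  · intro h
    exact absurd (Finset.mem_range.mpr (Nat.lt_succ_self k)) h

theorem ci5_kill_C (r : σ) (a : ℂ) : killHom r (C a) = C a := by
  unfold killHom
  rw [aeval_C]
  rfl

theorem ci5_sum_erase_split {M : Type} [AddCommMonoid M] (r : σ) (t : {t : σ // t ≠ r})
    (f : σ → M) :
    ∑ s ∈ Finset.univ.erase (t : σ), f s = f r + ∑ s ∈ Finset.univ.erase t, f s := by
  have hr : r ∈ Finset.univ.erase (t : σ) := by
    rw [Finset.mem_erase]
    exact ⟨Ne.symm t.2, Finset.mem_univ r⟩
  rw [← Finset.add_sum_erase _ f hr]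
  congr 1
  symm
  apply Finset.sum_bij (fun (s : {t : σ // t ≠ r}) _ => (s : σ))
  · intro s hs
    rw [Finset.mem_erase] at hs
    rw [Finset.mem_erase, Finset.mem_erase]
    exact ⟨s.2, fun h => hs.1 (Subtype.ext h), Finset.mem_univ _⟩
  · intro a _ b _ h
    exact Subtype.ext h
  · intro b hb
    rw [Finset.mem_erase, Finset.mem_erase] at hb
    exact ⟨⟨b, hb.1⟩, by
      rw [Finset.mem_erase]
      exact ⟨fun h => hb.2.1 (congrArg Subtype.val h), Finset.mem_univ _⟩, rfl⟩
  · intro a _
    rfl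

theorem ci5_kill_mul (P : Par σ) (r : σ) (k : ℕ) (hk : 1 ≤ k) :
    killHom r (mul P k) = mul (P.kill r) k := by
  unfold mul
  rw [map_add, map_mul, ci5_kill_C, map_sum, map_sum]
  rw [ci5_sum_split r (fun t => killHom r (C (((k : ℂ) + 1) * P.D t + P.κ t) * X t ^ k)),
    ci5_sum_split r (fun t => killHom r (∑ s ∈ Finset.univ.erase t, C (P.η t s) * hh t s k))]
  have h1 : killHom r (C (((k : ℂ) + 1) * P.D r + P.κ r) * X r ^ k) = 0 := by
    rw [map_mul, map_pow, ci5_kill_X_self, zero_pow (by omega), mul_zero]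
  have h2 : killHom r (∑ s ∈ Finset.univ.erase r, C (P.η r s) * hh r s k) =
      ∑ t : {t : σ // t ≠ r}, C (P.η r t) * X t ^ k := by
    rw [map_sum, Finset.sum_subtype (Finset.univ.erase r) (p := fun t => t ≠ r) (by simp)]
    refine Finset.sum_congr rfl fun t _ => ?_
    rw [map_mul, ci5_kill_C, ci5_kill_hh_left]
  have h3 : ∀ t : {t : σ // t ≠ r},
      killHom r (∑ s ∈ Finset.univ.erase (t : σ), C (P.η t s) * hh (t : σ) s k) =
      C (P.η r t) * X t ^ k + ∑ s ∈ Finset.univ.erase t, C ((P.kill r).η t s) * hh t s k := by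
    intro t
    rw [ci5_sum_erase_split r t, map_add, map_sum, map_mul, ci5_kill_C, ci5_kill_hh_right, P.symm]
    congr 1
    refine Finset.sum_congr rfl fun s _ => ?_
    rw [map_mul, ci5_kill_C, ci5_kill_hh]
    rfl
  have h4 : ∀ t : {t : σ // t ≠ r},
      killHom r (C (((k : ℂ) + 1) * P.D t + P.κ t) * X (t : σ) ^ k) =
      C (((k : ℂ) + 1) * P.D t + P.κ t) * X t ^ k := by
    intro t
    rw [map_mul, map_pow, ci5_kill_C, ci5_kill_X]
  rw [h1, h2, Finset.sum_congr rfl (fun t _ => h3 t), Finset.sum_congr rfl (fun t _ => h4 t),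
    Finset.sum_add_distrib, zero_add]
  have h5 : ∀ t : {t : σ // t ≠ r},
      C (((k : ℂ) + 1) * (P.kill r).D t + (P.kill r).κ t) * X t ^ k =
      C (((k : ℂ) + 1) * P.D t + P.κ t) * X t ^ k + C (P.η r t) * X t ^ k := by
    intro t
    show C (((k : ℂ) + 1) * P.D t + (P.κ t + P.η r t)) * X t ^ k = _
    rw [← add_mul, ← C_add, ← add_assoc]
  rw [Finset.sum_congr rfl (fun t _ => h5 t), Finset.sum_add_distrib]
  have h6 : (C (1 / 2 : ℂ) : MvPolynomial {t : σ // t ≠ r} ℂ) *
      (∑ t : {t : σ // t ≠ r}, C (P.η r t) * X t ^ k +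
        (∑ t : {t : σ // t ≠ r}, C (P.η r t) * X t ^ k +
          ∑ t : {t : σ // t ≠ r}, ∑ s ∈ Finset.univ.erase t, C ((P.kill r).η t s) * hh t s k)) =
      ∑ t : {t : σ // t ≠ r}, C (P.η r t) * X t ^ k + C (1 / 2 : ℂ) *
        ∑ t : {t : σ // t ≠ r}, ∑ s ∈ Finset.univ.erase t, C ((P.kill r).η t s) * hh t s k := by
    have h7 : (C (1 / 2 : ℂ) : MvPolynomial {t : σ // t ≠ r} ℂ) + C (1 / 2 : ℂ) = 1 := by
      rw [← C_add]
      norm_num
    linear_combination (∑ t : {t : σ // t ≠ r}, C (P.η r t) * X t ^ k) * h7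
  rw [h6, add_assoc]

theorem ci5_kill_Lop (P : Par σ) (r : σ) (k : ℕ) (hk : 1 ≤ k) (b : MvPolynomial σ ℂ) :
    killHom r (Lop P k b) = Lop (P.kill r) k (killHom r b) := by
  rw [ci5_Lop_apply, ci5_Lop_apply, map_add, map_mul, ci5_kill_mul P r k hk, map_sum,
    ci5_sum_split r (fun t => killHom r (X t ^ (k + 1) * pderiv t b))]
  rw [map_mul (killHom r), map_pow, ci5_kill_X_self, zero_pow (by omega), zero_mul, zero_add]
  congr 1
  refine Finset.sum_congr rfl fun t _ => ?_
  rw [map_mul, map_pow, ci5_kill_X, ci5_kill_pderiv]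

theorem ci5_lift (P : Par σ) (r : σ) (w : MvPolynomial {t : σ // t ≠ r} ℂ)
    (hw : w ∈ Im (P.kill r)) : ∃ W ∈ Im P, killHom r W = w := by
  unfold Im at hw
  induction hw using Submodule.span_induction with
  | mem x hx =>
    obtain ⟨k, hk, b, rfl⟩ := hx
    refine ⟨Lop P k (rename Subtype.val b), Submodule.subset_span ⟨k, hk, _, rfl⟩, ?_⟩
    rw [ci5_kill_Lop P r k (by omega), ci5_kill_rename]
  | zero => exact ⟨0, Submodule.zero_mem _, map_zero _⟩
  | add x y _ _ hx hy =>
    obtain ⟨W, hW, rfl⟩ := hx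
    obtain ⟨V, hV, rfl⟩ := hy
    exact ⟨W + V, Submodule.add_mem _ hW hV, map_add _ _ _⟩
  | smul a x _ hx =>
    obtain ⟨W, hW, rfl⟩ := hx
    exact ⟨a • W, Submodule.smul_mem _ a hW, map_smul _ _ _⟩

theorem kill_step (P : Par σ) (r : σ)
    (h : ∃ d0 : ℕ, ∀ d ≥ d0, ∀ b : MvPolynomial {t : σ // t ≠ r} ℂ, b.IsHomogeneous d →
      b ∈ Im (P.kill r)) :
    ∃ d0 : ℕ, ∀ d ≥ d0, ∀ b : MvPolynomial σ ℂ, b.IsHomogeneous (d + 1) →
      ∃ b' : MvPolynomial σ ℂ, b'.IsHomogeneous d ∧ b - X r * b' ∈ Im P := by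
  obtain ⟨d0, hd0⟩ := h
  refine ⟨d0, fun d hd b hb => ?_⟩
  obtain ⟨W, hW, hWb⟩ := ci5_lift P r (killHom r b)
    (hd0 (d + 1) (by omega) _ (ci5_kill_hom r (d + 1) b hb))
  have hW' := ci5_Im_comp P (d + 1) W hW
  set W' := homogeneousComponent (d + 1) W with hWdef
  have hk : killHom r W' = killHom r b := by
    have h1 := ci5_comp (killHom r).toLinearMap 0 (fun i p hp => by
      rw [add_zero]
      exact ci5_kill_hom r i p hp) (d + 1) W
    rw [if_pos (Nat.zero_le _), Nat.sub_zero] at h1
    have h2 : (killHom r).toLinearMap W = killHom r b := hWb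
    rw [h2, homogeneousComponent_of_mem (ci5_kill_hom r (d + 1) b hb), if_pos rfl] at h1
    exact h1.symm
  obtain ⟨c, hc⟩ := ci5_dvd r (b - W')
  rw [map_sub, hk, sub_self, map_zero, sub_zero] at hc
  refine ⟨homogeneousComponent d c, homogeneousComponent_isHomogeneous d c, ?_⟩
  have h3 : X r * homogeneousComponent d c = b - W' := by
    have h4 := ci5_comp (LinearMap.mulLeft ℂ (X r : MvPolynomial σ ℂ)) 1 (fun i p hp => by
      have h5 := (isHomogeneous_X ℂ r).mul hp
      rwa [add_comm] at h5) (d + 1) c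
    rw [if_pos (Nat.succ_le_succ (Nat.zero_le d)), Nat.add_sub_cancel] at h4
    have h6 : (LinearMap.mulLeft ℂ (X r : MvPolynomial σ ℂ)) c = b - W' := hc.symm
    rw [h6, homogeneousComponent_of_mem
      (hb.sub (homogeneousComponent_isHomogeneous (d + 1) W)), if_pos rfl] at h4
    exact h4.symm
  rw [h3, sub_sub_cancel]
  exact hW'

end

end WPQ.CI
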