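import Pool.Agent.WPQ.CID

/-! [WPQ-CI6] Restriction to `X_r = X_s`.

Plan: as CI5 with `mergeHom r s`: `mergeHom (Lop P k b) = Lop (P.merge r s) k (mergeHom b)`
(all `k`): `X_r^(k+1) ∂_r + X_s^(k+1) ∂_s ↦ X_s^(k+1) ∂_s` since
`pderiv s (mergeHom b) = mergeHom (pderiv r b) + mergeHom (pderiv s b)`, and `hh r s k ↦ (k+1) X_s^k`
(both ordered pairs, factor 1/2), `hh r t k ↦ hh s t k`.  `mergeHom` is surjective (section
`rename Subtype.val`), preserves degrees, kernel = ideal `(X_r - X_s)`. -/

namespace WPQ.CI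

open MvPolynomial

noncomputable section

variable {σ : Type} [Fintype σ] [DecidableEq σ]

/-- a graded linear map commutes with the homogeneous components -/
private theorem ci6_comp {σ τ : Type} (T : MvPolynomial σ ℂ →ₗ[ℂ] MvPolynomial τ ℂ) (k : ℕ)
    (hT : ∀ n (b : MvPolynomial σ ℂ), b.IsHomogeneous n → (T b).IsHomogeneous (n + k)) (n : ℕ)
    (b : MvPolynomial σ ℂ) :
    homogeneousComponent (n + k) (T b) = T (homogeneousComponent n b) := by
  have h1 : T b = ∑ i ∈ Finset.range (b.totalDegree + 1), T (homogeneousComponent i b) := by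
    rw [← map_sum, sum_homogeneousComponent]
  rw [h1, map_sum]
  have h2 : ∀ i ∈ Finset.range (b.totalDegree + 1),
      homogeneousComponent (n + k) (T (homogeneousComponent i b)) =
        if n = i then T (homogeneousComponent i b) else 0 := by
    intro i _
    have h3 := hT i _ (homogeneousComponent_isHomogeneous i b)
    rw [← mem_homogeneousSubmodule] at h3
    rw [homogeneousComponent_of_mem h3]
    by_cases h : n = i
    · rw [if_pos h, if_pos (by omega)]
    · rw [if_neg h, if_neg (by omega)]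
  rw [Finset.sum_congr rfl h2, Finset.sum_ite_eq]
  split_ifs with h
  · rfl
  · have h4 : b.totalDegree < n := by
      rw [Finset.mem_range] at h
      omega
    rw [homogeneousComponent_eq_zero n b h4, map_zero]

private theorem ci6_comp_lt {σ τ : Type} (T : MvPolynomial σ ℂ →ₗ[ℂ] MvPolynomial τ ℂ) (k : ℕ)
    (hT : ∀ n (b : MvPolynomial σ ℂ), b.IsHomogeneous n → (T b).IsHomogeneous (n + k)) (m : ℕ)
    (hm : m < k) (b : MvPolynomial σ ℂ) :
    homogeneousComponent m (T b) = 0 := by
  have h1 : T b = ∑ i ∈ Finset.range (b.totalDegree + 1), T (homogeneousComponent i b) := by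
    rw [← map_sum, sum_homogeneousComponent]
  rw [h1, map_sum]
  refine Finset.sum_eq_zero fun i _ => ?_
  have h3 := hT i _ (homogeneousComponent_isHomogeneous i b)
  rw [← mem_homogeneousSubmodule] at h3
  rw [homogeneousComponent_of_mem h3, if_neg (by omega)]

private theorem ci6_hh_hom {σ : Type} (r s : σ) (k : ℕ) : (hh r s k).IsHomogeneous k := by
  unfold hh
  refine IsHomogeneous.sum _ _ _ fun i hi => ?_
  have h1 := (isHomogeneous_X_pow (R := ℂ) r i).mul (isHomogeneous_X_pow (R := ℂ) s (k - i))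
  have h2 : i + (k - i) = k := by
    have := Finset.mem_range.1 hi
    omega
  rwa [h2] at h1

private theorem ci6_Chom {σ : Type} (c : ℂ) (p : MvPolynomial σ ℂ) (n : ℕ)
    (hp : p.IsHomogeneous n) : (C c * p).IsHomogeneous n := by
  have h1 := (isHomogeneous_C σ c).mul hp
  rwa [zero_add] at h1

private theorem ci6_mul_hom (P : Par σ) (k : ℕ) : (mul P k).IsHomogeneous k := by
  unfold mul
  refine IsHomogeneous.add ?_ ?_
  · exact IsHomogeneous.sum _ _ _ fun r _ => ci6_Chom _ _ _ (isHomogeneous_X_pow r k)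
  · refine ci6_Chom _ _ _ ?_
    refine IsHomogeneous.sum _ _ _ fun r _ => ?_
    exact IsHomogeneous.sum _ _ _ fun s _ => ci6_Chom _ _ _ (ci6_hh_hom r s k)

private theorem ci6_vf_apply (k : ℕ) (b : MvPolynomial σ ℂ) :
    vf k b = ∑ r, X r ^ (k + 1) * pderiv r b := by
  unfold vf
  rw [LinearMap.sum_apply]
  rfl

private theorem ci6_Lop_apply (P : Par σ) (k : ℕ) (b : MvPolynomial σ ℂ) :
    Lop P k b = vf k b + mul P k * b := rfl

private theorem ci6_Lop_hom (P : Par σ) (k n : ℕ) (b : MvPolynomial σ ℂ)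
    (hb : b.IsHomogeneous n) : (Lop P k b).IsHomogeneous (n + k) := by
  rw [ci6_Lop_apply, ci6_vf_apply]
  refine IsHomogeneous.add ?_ ?_
  · refine IsHomogeneous.sum _ _ _ fun r _ => ?_
    rcases Nat.eq_zero_or_pos n with h | h
    · subst h
      have h1 : b = C (coeff 0 b) := by
        rw [← totalDegree_eq_zero_iff_eq_C]
        by_cases hb0 : b = 0
        · rw [hb0]; exact totalDegree_zero
        · exact hb.totalDegree hb0
      rw [h1, pderiv_C, mul_zero]
      exact isHomogeneous_zero _ _ _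
    · have h1 := (isHomogeneous_X_pow (R := ℂ) r (k + 1)).mul (hb.pderiv (i := r))
      have h2 : k + 1 + (n - 1) = n + k := by omega
      rwa [h2] at h1
  · have h1 := (ci6_mul_hom P k).mul hb
    rwa [add_comm] at h1

/-- the image is graded -/
private theorem ci6_Im_comp (P : Par σ) (n : ℕ) (w : MvPolynomial σ ℂ) (hw : w ∈ Im P) :
    homogeneousComponent n w ∈ Im P := by
  have h1 : Im P ≤ (Im P).comap (homogeneousComponent n) := by
    unfold Im
    refine Submodule.span_le.2 ?_
    rintro _ ⟨k, hk, b, rfl⟩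
    show homogeneousComponent n (Lop P k b) ∈ Submodule.span ℂ _
    rcases Nat.lt_or_ge n k with h | h
    · rw [ci6_comp_lt (Lop P k) k (fun n b hb => ci6_Lop_hom P k n b hb) n h]
      exact Submodule.zero_mem _
    · obtain ⟨m, rfl⟩ : ∃ m, n = m + k := ⟨n - k, by omega⟩
      rw [ci6_comp (Lop P k) k (fun n b hb => ci6_Lop_hom P k n b hb)]
      exact Submodule.subset_span ⟨k, hk, _, rfl⟩
  exact h1 hw

private theorem ci6_vf_C (k : ℕ) (c : ℂ) : vf (σ := σ) k (C c) = 0 := by
  rw [ci6_vf_apply]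
  exact Finset.sum_eq_zero fun r _ => by rw [pderiv_C, mul_zero]

private theorem ci6_vf_X (k : ℕ) (t : σ) : vf k (X t : MvPolynomial σ ℂ) = X t ^ (k + 1) := by
  rw [ci6_vf_apply, Finset.sum_eq_single t]
  · rw [pderiv_X_self, mul_one]
  · intro r _ hr
    rw [pderiv_X_of_ne (Ne.symm hr), mul_zero]
  · intro h
    exact absurd (Finset.mem_univ t) h

private theorem ci6_vf_mul (k : ℕ) (a b : MvPolynomial σ ℂ) :
    vf k (a * b) = vf k a * b + a * vf k b := by
  rw [ci6_vf_apply, ci6_vf_apply, ci6_vf_apply, Finset.sum_mul, Finset.mul_sum,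
    ← Finset.sum_add_distrib]
  refine Finset.sum_congr rfl fun r _ => ?_
  rw [pderiv_mul]
  ring

section

variable (r s : σ) (hrs : s ≠ r)

private theorem ci6_mu_r : mergeHom r s hrs (X r) = X ⟨s, hrs⟩ := by
  unfold mergeHom
  rw [aeval_X, dif_pos rfl]

private theorem ci6_mu_X (t : {t : σ // t ≠ r}) : mergeHom r s hrs (X (t : σ)) = X t := by
  unfold mergeHom
  rw [aeval_X, dif_neg t.2]

private theorem ci6_mu_s : mergeHom r s hrs (X s) = X ⟨s, hrs⟩ := ci6_mu_X r s hrs ⟨s, hrs⟩

private theorem ci6_mu_cases (t : σ) : ∃ u : {t : σ // t ≠ r}, mergeHom r s hrs (X t) = X u := by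
  by_cases h : t = r
  · subst h
    exact ⟨_, ci6_mu_r t s hrs⟩
  · exact ⟨⟨t, h⟩, ci6_mu_X r s hrs ⟨t, h⟩⟩

private theorem ci6_mu_hom (n : ℕ) (b : MvPolynomial σ ℂ) (hb : b.IsHomogeneous n) :
    (mergeHom r s hrs b).IsHomogeneous n := by
  unfold mergeHom
  have h1 := hb.aeval (fun t => if h : t = r then (X ⟨s, hrs⟩ : MvPolynomial {t : σ // t ≠ r} ℂ)
    else X ⟨t, h⟩) (n := 1) (by
      intro t
      show (if h : t = r then (X ⟨s, hrs⟩ : MvPolynomial {t : σ // t ≠ r} ℂ)
        else X ⟨t, h⟩).IsHomogeneous 1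
      split_ifs
      · exact isHomogeneous_X _ _
      · exact isHomogeneous_X _ _)
  rwa [one_mul] at h1

private theorem ci6_mu_vf (k : ℕ) (b : MvPolynomial σ ℂ) :
    mergeHom r s hrs (vf k b) = vf k (mergeHom r s hrs b) := by
  induction b using MvPolynomial.induction_on with
  | C c =>
    rw [ci6_vf_C, map_zero]
    have h1 : mergeHom r s hrs (C c) = C c := AlgHom.commutes _ c
    rw [h1, ci6_vf_C]
  | add p q hp hq => rw [map_add, map_add, map_add, map_add, hp, hq]
  | mul_X p t hp =>
    obtain ⟨u, hu⟩ := ci6_mu_cases r s hrs t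
    rw [ci6_vf_mul, ci6_vf_X, map_add, map_mul, map_mul, map_mul, map_pow, hp, hu, ci6_vf_mul,
      ci6_vf_X]

private theorem ci6_mu_hh (t u : σ) (k : ℕ) : mergeHom r s hrs (hh t u k) =
    ∑ i ∈ Finset.range (k + 1), mergeHom r s hrs (X t) ^ i * mergeHom r s hrs (X u) ^ (k - i) := by
  unfold hh
  rw [map_sum]
  refine Finset.sum_congr rfl fun i _ => ?_
  rw [map_mul, map_pow, map_pow]

private theorem ci6_hh_self {σ : Type} (t : σ) (k : ℕ) :
    hh t t k = C ((k : ℂ) + 1) * X t ^ k := by
  unfold hh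
  have h1 : ∀ i ∈ Finset.range (k + 1), (X t : MvPolynomial σ ℂ) ^ i * X t ^ (k - i) = X t ^ k := by
    intro i hi
    rw [← pow_add]
    congr 1
    have := Finset.mem_range.1 hi
    omega
  rw [Finset.sum_congr rfl h1, Finset.sum_const, Finset.card_range, nsmul_eq_mul]
  congr 1
  simp

private theorem ci6_hh_comm {σ : Type} (t u : σ) (k : ℕ) : hh t u k = hh u t k := by
  unfold hh
  rw [← Finset.sum_range_reflect]
  refine Finset.sum_congr rfl fun i hi => ?_
  have h1 := Finset.mem_range.1 hi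
  have h2 : k + 1 - 1 - i = k - i := by omega
  have h3 : k - (k - i) = i := by omega
  rw [h2, h3, mul_comm]

private theorem ci6_mu_hh_nn (t u : {t : σ // t ≠ r}) (k : ℕ) :
    mergeHom r s hrs (hh (t : σ) (u : σ) k) = hh t u k := by
  rw [ci6_mu_hh, ci6_mu_X, ci6_mu_X]
  rfl

private theorem ci6_mu_hh_rn (u : {t : σ // t ≠ r}) (k : ℕ) :
    mergeHom r s hrs (hh r (u : σ) k) = hh ⟨s, hrs⟩ u k := by
  rw [ci6_mu_hh, ci6_mu_r, ci6_mu_X]
  rfl

private theorem ci6_mu_hh_nr (u : {t : σ // t ≠ r}) (k : ℕ) :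
    mergeHom r s hrs (hh (u : σ) r k) = hh u ⟨s, hrs⟩ k := by
  rw [ci6_mu_hh, ci6_mu_r, ci6_mu_X]
  rfl

private theorem ci6_sum_erase {τ A : Type} [Fintype τ] [DecidableEq τ] [AddCommMonoid A]
    (t : τ) (f : τ → A) :
    ∑ u ∈ Finset.univ.erase t, f u = ∑ u, if u = t then 0 else f u := by
  rw [← Finset.sum_subset (Finset.erase_subset t Finset.univ)]
  · refine Finset.sum_congr rfl fun u hu => ?_
    rw [if_neg (Finset.ne_of_mem_erase hu)]
  · intro u _ hu
    have h1 : u = t := by
      by_contra h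
      exact hu (Finset.mem_erase.2 ⟨h, Finset.mem_univ u⟩)
    rw [if_pos h1]

private theorem ci6_sum_split {τ A : Type} [Fintype τ] [DecidableEq τ] [AddCommMonoid A]
    (t : τ) (f : τ → A) :
    ∑ u, f u = f t + ∑ u, if u = t then 0 else f u := by
  rw [← ci6_sum_erase, Finset.add_sum_erase _ _ (Finset.mem_univ t)]

private theorem ci6_mu_mul (P : Par σ) (k : ℕ) :
    mergeHom r s hrs (mul P k) = mul (P.merge r s) k := by
  have hC : ∀ c : ℂ, mergeHom r s hrs (C c) = C c := fun c => AlgHom.commutes _ c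
  set s' : {t : σ // t ≠ r} := ⟨s, hrs⟩ with hs'
  -- the first sum
  have e1 : mergeHom r s hrs (∑ t, C (((k : ℂ) + 1) * P.D t + P.κ t) * X t ^ k) =
      C (((k : ℂ) + 1) * P.D r + P.κ r) * X s' ^ k +
        ∑ t : {t : σ // t ≠ r}, C (((k : ℂ) + 1) * P.D t + P.κ t) * X t ^ k := by
    rw [Fintype.sum_eq_add_sum_subtype_ne _ r, map_add, map_mul, map_pow, hC, ci6_mu_r, map_sum]
    congr 1
    refine Finset.sum_congr rfl fun t _ => ?_
    rw [map_mul, map_pow, hC, ci6_mu_X]
  -- the second sum
  have e2 : mergeHom r s hrs (∑ t, ∑ u ∈ Finset.univ.erase t, C (P.η t u) * hh t u k) =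
      (∑ u : {t : σ // t ≠ r}, C (P.η r u) * hh s' u k) +
      ((∑ t : {t : σ // t ≠ r}, C (P.η t r) * hh t s' k) +
        ∑ t : {t : σ // t ≠ r}, ∑ u : {t : σ // t ≠ r}, if u = t then 0 else
          C (P.η t u) * hh t u k) := by
    have h1 : ∀ t : σ, ∑ u ∈ Finset.univ.erase t, C (P.η t u) * hh t u k =
        ∑ u, if u = t then 0 else C (P.η t u) * hh t u k := fun t => ci6_sum_erase t _
    rw [Finset.sum_congr rfl fun t _ => h1 t, Fintype.sum_eq_add_sum_subtype_ne _ r, map_add]
    congr 1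
    · rw [Fintype.sum_eq_add_sum_subtype_ne _ r, if_pos rfl, zero_add, map_sum]
      refine Finset.sum_congr rfl fun u _ => ?_
      rw [if_neg u.2, map_mul, hC, ci6_mu_hh_rn]
    · rw [map_sum, ← Finset.sum_add_distrib]
      refine Finset.sum_congr rfl fun t _ => ?_
      rw [Fintype.sum_eq_add_sum_subtype_ne _ r, map_add, if_neg (Ne.symm t.2), map_mul, hC,
        ci6_mu_hh_nr, map_sum]
      congr 1
      refine Finset.sum_congr rfl fun u _ => ?_
      by_cases h : u = t
      · rw [if_pos h, if_pos (by rw [h]), map_zero]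
      · rw [if_neg h, if_neg (fun h' => h (Subtype.ext h')), map_mul, hC, ci6_mu_hh_nn]
  -- the right hand side
  have e3 : ∑ t : {t : σ // t ≠ r}, C (((k : ℂ) + 1) * (P.merge r s).D t + (P.merge r s).κ t) *
      X t ^ k = C (((k : ℂ) + 1) * (P.D r + P.η r s) + P.κ r) * X s' ^ k +
        ∑ t : {t : σ // t ≠ r}, C (((k : ℂ) + 1) * P.D t + P.κ t) * X t ^ k := by
    have h1 : ∀ t : {t : σ // t ≠ r}, C (((k : ℂ) + 1) * (P.merge r s).D t +
        (P.merge r s).κ t) * (X t : MvPolynomial {t : σ // t ≠ r} ℂ) ^ k =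
        (if t = s' then C (((k : ℂ) + 1) * (P.D r + P.η r s) + P.κ r) * X s' ^ k else 0) +
        C (((k : ℂ) + 1) * P.D t + P.κ t) * X t ^ k := by
      intro t
      by_cases h : t = s'
      · have h2 : (t : σ) = s := by rw [h]
        rw [if_pos h]
        simp only [Par.merge, if_pos h2]
        rw [h, ← add_mul, ← C_add]
        congr 2
        ring
      · have h2 : (t : σ) ≠ s := fun h' => h (Subtype.ext h')
        rw [if_neg h, zero_add]
        simp only [Par.merge, if_neg h2]
    rw [Finset.sum_congr rfl fun t _ => h1 t, Finset.sum_add_distrib, Finset.sum_ite_eq',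
      if_pos (Finset.mem_univ s')]
  have e4 : ∑ t : {t : σ // t ≠ r}, ∑ u ∈ Finset.univ.erase t,
      C ((P.merge r s).η t u) * hh t u k =
      (∑ u : {t : σ // t ≠ r}, if u = s' then 0 else C (P.η r u) * hh s' u k) +
      ((∑ t : {t : σ // t ≠ r}, if t = s' then 0 else C (P.η r t) * hh t s' k) +
        ∑ t : {t : σ // t ≠ r}, ∑ u : {t : σ // t ≠ r}, if u = t then 0 else
          C (P.η t u) * hh t u k) := by
    have h1 : ∀ t u : {t : σ // t ≠ r}, (if u = t then 0 else
        C ((P.merge r s).η t u) * hh t u k) =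
        (if t = s' then (if u = s' then 0 else C (P.η r u) * hh s' u k) else 0) +
        ((if u = s' then (if t = s' then 0 else C (P.η r t) * hh t s' k) else 0) +
          (if u = t then 0 else C (P.η t u) * hh t u k)) := by
      intro t u
      by_cases hut : u = t
      · rw [if_pos hut, if_pos hut]
        by_cases ht : t = s'
        · rw [if_pos ht, if_pos (hut.trans ht), if_pos (hut.trans ht), if_pos ht]
          simp
        · have hu : u ≠ s' := fun h => ht (hut.symm.trans h)
          rw [if_neg ht, if_neg hu]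
          simp
      · rw [if_neg hut, if_neg hut]
        have hη : (P.merge r s).η t u = P.η t u + (if (t : σ) = s then P.η r u else 0) +
          (if (u : σ) = s then P.η r t else 0) := rfl
        rw [hη]
        by_cases ht : t = s'
        · have hu : u ≠ s' := fun h => hut (h.trans ht.symm)
          have ht' : (t : σ) = s := by rw [ht]
          have hu' : (u : σ) ≠ s := fun h' => hu (Subtype.ext h')
          rw [if_pos ht', if_neg hu', if_pos ht, if_neg hu, if_neg hu, ht, C_add, C_add, C_0]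
          ring
        · have ht' : (t : σ) ≠ s := fun h' => ht (Subtype.ext h')
          by_cases hu : u = s'
          · have hu' : (u : σ) = s := by rw [hu]
            rw [if_neg ht', if_pos hu', if_neg ht, if_pos hu, if_neg ht, hu, C_add, C_add, C_0]
            ring
          · have hu' : (u : σ) ≠ s := fun h' => hu (Subtype.ext h')
            rw [if_neg ht', if_neg hu', if_neg ht, if_neg hu, C_add, C_add, C_0]
            ring
    have h2 : ∀ t : {t : σ // t ≠ r}, ∑ u ∈ Finset.univ.erase t,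
        C ((P.merge r s).η t u) * hh t u k =
        (if t = s' then ∑ u, (if u = s' then 0 else C (P.η r u) * hh s' u k) else 0) +
        ((if t = s' then 0 else C (P.η r t) * hh t s' k) +
          ∑ u, (if u = t then 0 else C (P.η t u) * hh t u k)) := by
      intro t
      rw [ci6_sum_erase, Finset.sum_congr rfl fun u _ => h1 t u, Finset.sum_add_distrib,
        Finset.sum_add_distrib]
      congr 1
      · by_cases ht : t = s'
        · simp only [if_pos ht]
        · simp only [if_neg ht, Finset.sum_const_zero]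
      · congr 1
        rw [Finset.sum_ite_eq', if_pos (Finset.mem_univ s')]
    rw [Finset.sum_congr rfl fun t _ => h2 t, Finset.sum_add_distrib, Finset.sum_add_distrib,
      Finset.sum_ite_eq', if_pos (Finset.mem_univ s')]
  unfold mul
  rw [map_add, e1, map_mul, hC, e2, e3, e4, ci6_sum_split s' (fun u => C (P.η r u) * hh s' u k),
    ci6_sum_split s' (fun t => C (P.η t r) * hh t s' k)]
  have h5 : ∀ t : {t : σ // t ≠ r}, (if t = s' then 0 else C (P.η t r) * hh t s' k) =
      (if t = s' then 0 else C (P.η r t) * hh t s' k) := by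
    intro t
    rw [P.symm t r]
  rw [Finset.sum_congr rfl fun t _ => h5 t, P.symm (s' : σ) r, ci6_hh_self]
  have h6 : P.η r (s' : σ) = P.η r s := rfl
  rw [h6]
  have h7 : (C (((k : ℂ) + 1) * (P.D r + P.η r s) + P.κ r) : MvPolynomial {t : σ // t ≠ r} ℂ) =
      C (((k : ℂ) + 1) * P.D r + P.κ r) + C (P.η r s) * C ((k : ℂ) + 1) := by
    rw [← C_mul, ← C_add]
    congr 1
    ring
  have h8 : (C (1 / 2 : ℂ) : MvPolynomial {t : σ // t ≠ r} ℂ) * 2 = 1 := by
    have : (2 : MvPolynomial {t : σ // t ≠ r} ℂ) = C (2 : ℂ) := (map_ofNat C 2).symm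
    rw [this, ← C_mul]
    norm_num
  rw [h7]
  linear_combination (C (P.η r s) * (C ((k : ℂ) + 1) * X s' ^ k)) * h8

private theorem ci6_mu_Lop (P : Par σ) (k : ℕ) (b : MvPolynomial σ ℂ) :
    mergeHom r s hrs (Lop P k b) = Lop (P.merge r s) k (mergeHom r s hrs b) := by
  rw [ci6_Lop_apply, ci6_Lop_apply, map_add, map_mul, ci6_mu_vf, ci6_mu_mul]

/-- the section -/
private theorem ci6_section (b : MvPolynomial {t : σ // t ≠ r} ℂ) :
    mergeHom r s hrs (rename Subtype.val b) = b := by
  induction b using MvPolynomial.induction_on with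
  | C c =>
    rw [rename_C]
    exact AlgHom.commutes _ c
  | add p q hp hq => rw [map_add, map_add, hp, hq]
  | mul_X p t hp => rw [map_mul, map_mul, hp, rename_X, ci6_mu_X]

private theorem ci6_ker (b : MvPolynomial σ ℂ) : ∃ q, b -
    rename Subtype.val (mergeHom r s hrs b) = (X r - X s) * q := by
  induction b using MvPolynomial.induction_on with
  | C c =>
    refine ⟨0, ?_⟩
    have h1 : mergeHom r s hrs (C c) = C c := AlgHom.commutes _ c
    rw [h1, rename_C, sub_self, mul_zero]
  | add p q hp hq =>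
    obtain ⟨a, ha⟩ := hp
    obtain ⟨a', ha'⟩ := hq
    refine ⟨a + a', ?_⟩
    rw [map_add, map_add, mul_add, ← ha, ← ha']
    ring
  | mul_X p t hp =>
    obtain ⟨a, ha⟩ := hp
    rw [map_mul, map_mul]
    by_cases h : t = r
    · subst h
      refine ⟨a * X t + rename Subtype.val (mergeHom t s hrs p), ?_⟩
      rw [ci6_mu_r, rename_X]
      show p * X t - rename Subtype.val (mergeHom t s hrs p) * X s = _
      linear_combination (X t) * ha
    · refine ⟨a * X t, ?_⟩
      have h1 : mergeHom r s hrs (X t) = X ⟨t, h⟩ := ci6_mu_X r s hrs ⟨t, h⟩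
      rw [h1, rename_X]
      show p * X t - rename Subtype.val (mergeHom r s hrs p) * X t = _
      linear_combination (X t) * ha

private theorem ci6_lift (P : Par σ) (v : MvPolynomial {t : σ // t ≠ r} ℂ)
    (hv : v ∈ Im (P.merge r s)) : ∃ w ∈ Im P, mergeHom r s hrs w = v := by
  have h1 : Im (P.merge r s) ≤ (Im P).map (mergeHom r s hrs).toLinearMap := by
    conv_lhs => unfold Im
    refine Submodule.span_le.2 ?_
    rintro _ ⟨k, hk, b, rfl⟩
    refine ⟨Lop P k (rename Subtype.val b), Submodule.subset_span ⟨k, hk, _, rfl⟩, ?_⟩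
    show mergeHom r s hrs (Lop P k (rename Subtype.val b)) = _
    rw [ci6_mu_Lop, ci6_section]
  obtain ⟨w, hw, h2⟩ := h1 hv
  exact ⟨w, hw, h2⟩

end

theorem merge_step (P : Par σ) (r s : σ) (hrs : s ≠ r)
    (h : ∃ d0 : ℕ, ∀ d ≥ d0, ∀ b : MvPolynomial {t : σ // t ≠ r} ℂ, b.IsHomogeneous d →
      b ∈ Im (P.merge r s)) :
    ∃ d0 : ℕ, ∀ d ≥ d0, ∀ b : MvPolynomial σ ℂ, b.IsHomogeneous (d + 1) →
      ∃ b' : MvPolynomial σ ℂ, b'.IsHomogeneous d ∧ b - (X r - X s) * b' ∈ Im P := by
  obtain ⟨d0, hd0⟩ := h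
  refine ⟨d0, fun d hd b hb => ?_⟩
  have h1 : mergeHom r s hrs b ∈ Im (P.merge r s) :=
    hd0 (d + 1) (by omega) _ (ci6_mu_hom r s hrs _ b hb)
  obtain ⟨w, hw, h2⟩ := ci6_lift r s hrs P _ h1
  have h3 : mergeHom r s hrs (homogeneousComponent (d + 1) w) = mergeHom r s hrs b := by
    have h4 := ci6_comp (mergeHom r s hrs).toLinearMap 0
      (fun n b hb => ci6_mu_hom r s hrs n b hb) (d + 1) w
    rw [add_zero] at h4
    have h5 : homogeneousComponent (d + 1) (mergeHom r s hrs w) =
        mergeHom r s hrs (homogeneousComponent (d + 1) w) := h4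
    rw [← h5, h2]
    have h6 := ci6_mu_hom r s hrs _ b hb
    rw [← mem_homogeneousSubmodule] at h6
    rw [homogeneousComponent_of_mem h6, if_pos rfl]
  obtain ⟨q, hq⟩ := ci6_ker r s hrs (b - homogeneousComponent (d + 1) w)
  rw [map_sub, h3, sub_self, map_zero, sub_zero] at hq
  refine ⟨homogeneousComponent d q, homogeneousComponent_isHomogeneous d q, ?_⟩
  have h7 : (X r - X s : MvPolynomial σ ℂ).IsHomogeneous 1 :=
    (isHomogeneous_X ℂ r).sub (isHomogeneous_X ℂ s)
  have h8 := ci6_comp (LinearMap.mulLeft ℂ (X r - X s : MvPolynomial σ ℂ)) 1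
    (fun n b hb => by
      have h9 := h7.mul hb
      rw [add_comm] at h9
      exact h9) d q
  have h9 : homogeneousComponent (d + 1) ((X r - X s) * q) = (X r - X s) * homogeneousComponent d q := h8
  rw [← h9, ← hq, map_sub]
  have h10 : homogeneousComponent (d + 1) b = b := by
    rw [← mem_homogeneousSubmodule] at hb
    rw [homogeneousComponent_of_mem hb, if_pos rfl]
  have h11 : homogeneousComponent (d + 1) (homogeneousComponent (d + 1) w) =
      homogeneousComponent (d + 1) w := by
    have h12 := homogeneousComponent_isHomogeneous (d + 1) w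
    rw [← mem_homogeneousSubmodule] at h12
    rw [homogeneousComponent_of_mem h12, if_pos rfl]
  rw [h10, h11]
  have h13 : b - (b - homogeneousComponent (d + 1) w) = homogeneousComponent (d + 1) w := by ring
  rw [h13]
  exact ci6_Im_comp P (d + 1) w hw

end

end WPQ.CI
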