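import Pool.Agent.WPQ.CI2
import Pool.Agent.WPQ.CI3
import Pool.Agent.WPQ.CI4
import Pool.Agent.WPQ.CI5
import Pool.Agent.WPQ.CI6

/-! [WPQ-CI7] The coinvariants lemma.

Plan: induction on `Fintype.card σ` (all `P` at once).  `card σ = 0`: a homogeneous polynomial of
degree `≥ 1` is `0`.  Otherwise pick a list `L` of ok linear forms with
`∃ d0, ∀ d ≥ d0, ∀ c homogeneous of degree d, prodL L * c ∈ Im P` (`case1` if some `D r ≠ 1`, else
`case2`).  Claim: if this holds for `L' ++ [x]` it holds for `L'` (List.reverse induction): for `b`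
homogeneous of large degree, `kill_step`/`merge_step` applied to `P.shifts L'` (their hypothesis is
the induction hypothesis, `card {t // t ≠ r} = card σ - 1`) gives `b'` with
`b - x.poly * b' ∈ Im (P.shifts L')`; multiply by `prodL L'` (`mul_mem_Im`).  For `L = []` this is the
theorem. -/

namespace WPQ.CI

open MvPolynomial

noncomputable section

theorem ci7_prodL_append (σ : Type) [Fintype σ] [DecidableEq σ] (L : List (Lin σ)) (x : Lin σ) :
    prodL (L ++ [x]) = prodL L * x.poly := by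
  simp [prodL]

theorem ci7_step (σ : Type) [Fintype σ] [DecidableEq σ]
    (hI : ∀ (r : σ) (P : Par {t : σ // t ≠ r}), ∃ d0 : ℕ, ∀ d ≥ d0,
      ∀ b : MvPolynomial {t : σ // t ≠ r} ℂ, b.IsHomogeneous d → b ∈ Im P)
    (P : Par σ) (x : Lin σ) (hx : x.ok) :
    ∃ d0 : ℕ, ∀ d ≥ d0, ∀ b : MvPolynomial σ ℂ, b.IsHomogeneous (d + 1) →
      ∃ b' : MvPolynomial σ ℂ, b'.IsHomogeneous d ∧ b - x.poly * b' ∈ Im P := by
  cases x with
  | var r => exact kill_step P r (hI r (P.kill r))
  | diff r s =>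
    have hrs : s ≠ r := fun h => hx h.symm
    exact merge_step P r s hrs (hI r (P.merge r s))

theorem ci7_list (σ : Type) [Fintype σ] [DecidableEq σ]
    (hI : ∀ (r : σ) (P : Par {t : σ // t ≠ r}), ∃ d0 : ℕ, ∀ d ≥ d0,
      ∀ b : MvPolynomial {t : σ // t ≠ r} ℂ, b.IsHomogeneous d → b ∈ Im P)
    (P : Par σ) (L : List (Lin σ)) :
    (∀ x ∈ L, x.ok) → (∃ d0 : ℕ, ∀ d ≥ d0, ∀ c : MvPolynomial σ ℂ, c.IsHomogeneous d →
      prodL L * c ∈ Im P) →
    ∃ d0 : ℕ, ∀ d ≥ d0, ∀ b : MvPolynomial σ ℂ, b.IsHomogeneous d → b ∈ Im P := by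
  induction L using List.reverseRecOn with
  | nil =>
    rintro - ⟨d0, h⟩
    refine ⟨d0, fun d hd b hb => ?_⟩
    have := h d hd b hb
    simpa [prodL] using this
  | append_singleton L' x ih =>
    intro hok ⟨d0, h⟩
    have hok' : ∀ y ∈ L', y.ok := fun y hy => hok y (List.mem_append_left _ hy)
    refine ih hok' ?_
    obtain ⟨d1, h1⟩ := ci7_step σ hI (P.shifts L') x (hok x (by simp))
    refine ⟨max d0 d1 + 1, fun d hd b hb => ?_⟩
    obtain ⟨e, rfl⟩ : ∃ e, d = e + 1 := ⟨d - 1, by omega⟩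
    obtain ⟨b', hb', h2⟩ := h1 e (by omega) b hb
    have h3 := mul_mem_Im P L' hok' _ h2
    have h4 := h e (by omega) b' hb'
    rw [ci7_prodL_append, mul_assoc] at h4
    have h5 := Submodule.add_mem _ h3 h4
    have e1 : prodL L' * (b - x.poly * b') + prodL L' * (x.poly * b') = prodL L' * b := by ring
    rwa [e1] at h5

theorem ci7_main (n : ℕ) : ∀ (σ : Type) [Fintype σ] [DecidableEq σ] (P : Par σ),
    Fintype.card σ = n →
    ∃ d0 : ℕ, ∀ d ≥ d0, ∀ b : MvPolynomial σ ℂ, b.IsHomogeneous d → b ∈ Im P := by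
  induction n with
  | zero =>
    intro σ _ _ P hn
    have hE : IsEmpty σ := Fintype.card_eq_zero_iff.1 hn
    refine ⟨1, fun d hd b hb => ?_⟩
    have hb0 : b = 0 := by
      rw [MvPolynomial.eq_C_of_isEmpty b]
      by_contra hne
      have hc : MvPolynomial.coeff 0 b ≠ 0 := by
        intro h0
        apply hne
        rw [h0, map_zero]
      have := hb hc
      simp at this
      omega
    rw [hb0]
    exact Submodule.zero_mem _
  | succ n ih =>
    intro σ _ _ P hn
    have hI : ∀ (r : σ) (P : Par {t : σ // t ≠ r}), ∃ d0 : ℕ, ∀ d ≥ d0,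
        ∀ b : MvPolynomial {t : σ // t ≠ r} ℂ, b.IsHomogeneous d → b ∈ Im P := by
      intro r P
      refine ih _ P ?_
      have := Fintype.card_subtype_compl (fun t : σ => t = r)
      rw [Fintype.card_subtype_eq r, hn] at this
      simpa using this
    by_cases h : ∀ r, P.D r = 1
    · exact ci7_list σ hI P (list2 σ) list2_ok (case2 P h)
    · push Not at h
      obtain ⟨r, hr⟩ := h
      exact ci7_list σ hI P (list1 r) (list1_ok r) ⟨0, fun d _ c _ => case1 P r hr c⟩

theorem coinv (σ : Type) [Fintype σ] [DecidableEq σ] (P : Par σ) :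
    ∃ d0 : ℕ, ∀ d ≥ d0, ∀ b : MvPolynomial σ ℂ, b.IsHomogeneous d → b ∈ Im P :=
  ci7_main (Fintype.card σ) σ P rfl

end

end WPQ.CI
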