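import Mathlib

/-! WPQ, module CI (coinvariants of vector fields on polynomials): definitions. -/

namespace WPQ.CI

open MvPolynomial

noncomputable section

variable {σ : Type} [Fintype σ] [DecidableEq σ]

/-- Parameters: conformal weights `D`, `κ`, pairings `η` (symmetric). -/
structure Par (σ : Type) where
  D : σ → ℂ
  κ : σ → ℂ
  η : σ → σ → ℂ
  symm : ∀ r s, η r s = η s r

/-- `∑_{i ≤ k} X_r^i X_s^(k-i) = (X_r^(k+1) - X_s^(k+1)) / (X_r - X_s)`. -/
def hh (r s : σ) (k : ℕ) : MvPolynomial σ ℂ := ∑ i ∈ Finset.range (k + 1), X r ^ i * X s ^ (k - i)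

/-- The multiplication part of `L_k`. -/
def mul (P : Par σ) (k : ℕ) : MvPolynomial σ ℂ :=
  ∑ r, C (((k : ℂ) + 1) * P.D r + P.κ r) * X r ^ k +
    C (1 / 2 : ℂ) * ∑ r, ∑ s ∈ Finset.univ.erase r, C (P.η r s) * hh r s k

/-- The derivation `∑_r X_r^(k+1) ∂_r`. -/
def vf (k : ℕ) : MvPolynomial σ ℂ →ₗ[ℂ] MvPolynomial σ ℂ :=
  ∑ r, (LinearMap.mulLeft ℂ (X r ^ (k + 1))) ∘ₗ (pderiv (R := ℂ) r).toLinearMap

/-- The operator `L_k = ∑ X_r^(k+1) ∂_r + ∑ ((k+1) D_r + κ_r) X_r^k + ∑_{r<s} η_rs hh r s k`. -/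
def Lop (P : Par σ) (k : ℕ) : MvPolynomial σ ℂ →ₗ[ℂ] MvPolynomial σ ℂ :=
  vf k + LinearMap.mulLeft ℂ (mul P k)

/-- The sum of the images of `L_k`, `k ≥ 2`. -/
def Im (P : Par σ) : Submodule ℂ (MvPolynomial σ ℂ) :=
  Submodule.span ℂ {w | ∃ (k : ℕ) (_ : 2 ≤ k) (b : MvPolynomial σ ℂ), w = Lop P k b}

/-- `c` divides the large degrees into `Im P`: all `c * b`, `b` homogeneous of large degree,
lie in `Im P`. -/
def Good (P : Par σ) (c : MvPolynomial σ ℂ) : Prop :=
  ∃ d0 : ℕ, ∀ d ≥ d0, ∀ b : MvPolynomial σ ℂ, b.IsHomogeneous d → c * b ∈ Im P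

/-- Shift `κ_r` by one. -/
def Par.shiftK (P : Par σ) (r : σ) : Par σ :=
  { P with κ := fun t => P.κ t + if t = r then 1 else 0 }

/-- Shift `η_rs` (and `η_sr`) by one. -/
def Par.shiftE (P : Par σ) (r s : σ) : Par σ where
  D := P.D
  κ := P.κ
  η := fun t u => P.η t u + if (t = r ∧ u = s) ∨ (t = s ∧ u = r) then 1 else 0
  symm := by
    intro t u
    rw [P.symm t u]
    congr 1
    by_cases h1 : t = r ∧ u = s
    · rw [if_pos (Or.inl h1), if_pos (Or.inr ⟨h1.2, h1.1⟩)]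
    · by_cases h2 : t = s ∧ u = r
      · rw [if_pos (Or.inr h2), if_pos (Or.inl ⟨h2.2, h2.1⟩)]
      · rw [if_neg, if_neg]
        · rintro (h | h)
          · exact h2 ⟨h.2, h.1⟩
          · exact h1 ⟨h.2, h.1⟩
        · rintro (h | h)
          · exact h1 h
          · exact h2 h

/-- The linear forms `X_r` and `X_r - X_s`. -/
inductive Lin (σ : Type) : Type
  | var (r : σ) : Lin σ
  | diff (r s : σ) : Lin σ

/-- The polynomial of a linear form. -/
def Lin.poly : Lin σ → MvPolynomial σ ℂ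
  | Lin.var r => X r
  | Lin.diff r s => X r - X s

/-- Nondegenerate linear forms. -/
def Lin.ok : Lin σ → Prop
  | Lin.var _ => True
  | Lin.diff r s => r ≠ s

/-- Conjugation of the parameters by a linear form. -/
def Par.shift (P : Par σ) : Lin σ → Par σ
  | Lin.var r => P.shiftK r
  | Lin.diff r s => P.shiftE r s

/-- Conjugation by a product of linear forms. -/
def Par.shifts (P : Par σ) (L : List (Lin σ)) : Par σ := L.foldl Par.shift P

/-- The product of a list of linear forms. -/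
def prodL (L : List (Lin σ)) : MvPolynomial σ ℂ := (L.map Lin.poly).prod

/-- Restriction to `X_r = 0`. -/
def Par.kill (P : Par σ) (r : σ) : Par {t : σ // t ≠ r} where
  D := fun t => P.D t
  κ := fun t => P.κ t + P.η r t
  η := fun t u => P.η t u
  symm := fun t u => P.symm t u

/-- Restriction to `X_r = X_s` (`r ≠ s`; the variable `s` is kept, `r` is removed). -/
def Par.merge (P : Par σ) (r s : σ) : Par {t : σ // t ≠ r} where
  D := fun t => if (t : σ) = s then P.D r + P.D s + P.η r s else P.D t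
  κ := fun t => if (t : σ) = s then P.κ r + P.κ s else P.κ t
  η := fun t u => P.η t u + (if (t : σ) = s then P.η r u else 0) +
    (if (u : σ) = s then P.η r t else 0)
  symm := by
    intro t u
    rw [P.symm t u]
    ring

/-- `X_r ↦ 0`. -/
def killHom (r : σ) : MvPolynomial σ ℂ →ₐ[ℂ] MvPolynomial {t : σ // t ≠ r} ℂ :=
  aeval fun t => if h : t = r then 0 else X ⟨t, h⟩

/-- `X_r ↦ X_s`. -/
def mergeHom (r s : σ) (hrs : s ≠ r) : MvPolynomial σ ℂ →ₐ[ℂ] MvPolynomial {t : σ // t ≠ r} ℂ :=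
  aeval fun t => if h : t = r then X ⟨s, hrs⟩ else X ⟨t, h⟩

end

end WPQ.CI
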