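import Pool.Agent.WPQ.CY0

/-! [WPQ-CY3] `W(p)_Q` is a simple module for the algebra `RA` of modes.

`RA_of_vac`: `T = mW a (-1)`, `mode_neg_one_vac`.
`RA_vac`: first get a nonzero homogeneous vector: `v = ∑ v_n` (finite sum of the components in `Wn n`); the
operator `L(0) = mode ε (omegaV A p) 1` (`mode_omega`-type lemma: see `isPrimary_iff`, FL7/PV1; `omegaV_mem`) is in
`RA` and acts on `Wn n` by `n` (`LS_zero_Vn`); `∏_{m ≠ n} (L(0) - m)` is in `RA` and sends `v` to a nonzero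
multiple of `v_n`.  So let `v ∈ Wn n`, `v ≠ 0`.  There is `t ∈ UU ⊓ Vn n` with `β(t, v) ≠ 0` (`beta_right`; `τ`
from `exists_tau`); `UU ≤ fi1_P`, so there is a product `w = c^1_{k1} ⋯ c^r_{kr} vac` (`fi1_Prod`,
`c^i_{k} = cS ε zero lam js k`) with `β(w, v) ≠ 0`.  Induction on `fi1_Prod w`, for all `v ∈ W`: if
`β(w, v) ≠ 0` then there is `T ∈ RA` with `top0 (T v) ≠ 0`: `vac`: `beta_vac`, `T = 1`; step: `beta_cS` moves the
operator to `v`; `cS = mode ε (Ew ..)` (`mode_cS`), `Ew .. ∈ W` (`cS_mem_W` on `vac`, `cS_creation`; `W_Ej`), so it is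
in `RA`.  To keep homogeneity, do the induction for `T` which are products of homogeneous modes: statement:
`v ∈ Wn n` implies `T v ∈ Wn m` for some `m` (`cS_Vn`, `cS_mem_W`).  At the end `T v ∈ Wn m` and
`top0 (T v) ≠ 0`, so `m = 0` (`top0_wt`) and `T v = a • vac`, `a ≠ 0` (`Wn_zero`). -/

namespace WPQ

open MvPolynomial WK GA

noncomputable section

variable {ι : Type} [Fintype ι] [DecidableEq ι] {A : Matrix ι ι ℤ} {p : ℕ}

/-- Decomposition of the elements of `W` into components. -/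
private theorem cy3_decomp (v : VL ι) (hv : v ∈ W A p) :
    ∃ (s : Finset (Unit → ℤ)) (f : (Unit → ℤ) → VL ι), (∀ g, f g ∈ Vn A p (g ())) ∧
      v = ∑ g ∈ s, f g := by
  classical
  let U : Submodule ℂ (VL ι) :=
    { carrier := {x | ∃ (s : Finset (Unit → ℤ)) (f : (Unit → ℤ) → VL ι),
        (∀ g, f g ∈ Vn A p (g ())) ∧ x = ∑ g ∈ s, f g}
      zero_mem' := ⟨∅, fun _ => 0, fun g => Submodule.zero_mem _, by simp⟩
      add_mem' := by
        rintro x y ⟨s, f, hf, hx⟩ ⟨s', f', hf', hy⟩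
        refine ⟨s ∪ s', fun g => (if g ∈ s then f g else 0) + (if g ∈ s' then f' g else 0),
          ?_, ?_⟩
        · intro g
          refine Submodule.add_mem _ ?_ ?_
          · split
            · exact hf g
            · exact Submodule.zero_mem _
          · split
            · exact hf' g
            · exact Submodule.zero_mem _
        · rw [Finset.sum_add_distrib, ← Finset.sum_filter, ← Finset.sum_filter, hx, hy]
          have e1 : (s ∪ s').filter (fun g => g ∈ s) = s := by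
            ext g
            simp only [Finset.mem_filter, Finset.mem_union]
            tauto
          have e2 : (s ∪ s').filter (fun g => g ∈ s') = s' := by
            ext g
            simp only [Finset.mem_filter, Finset.mem_union]
            tauto
          rw [e1, e2]
      smul_mem' := by
        rintro c x ⟨s, f, hf, hx⟩
        exact ⟨s, fun g => c • f g, fun g => Submodule.smul_mem _ c (hf g), by
          rw [hx, Finset.smul_sum]⟩ }
  have h : W A p ≤ U := by
    refine W_span U fun γ f d hf _ => ?_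
    refine ⟨{fun _ => (d : ℤ) + wtExp A p γ}, fun g =>
      if g = (fun _ => (d : ℤ) + wtExp A p γ) then Finsupp.single γ f else 0, ?_, ?_⟩
    · intro g
      by_cases hg : g = (fun _ => (d : ℤ) + wtExp A p γ)
      · subst hg
        simp only [if_true]
        exact single_mem_Vn γ f d hf _ rfl
      · simp only [if_neg hg]
        exact Submodule.zero_mem _
    · simp
  exact h hv

/-- The orbit of `v` under the algebra of modes, in `V_L`. -/
private def cy3_K (hA : IsADE A) (hp : 2 ≤ p) (ε : Cocycle A p) (v : WV A p) :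
    Submodule ℂ (VL ι) where
  carrier := {x | ∃ T ∈ RA hA hp ε, x = wv A p (T v)}
  zero_mem' := ⟨0, Subalgebra.zero_mem _, by rw [LinearMap.zero_apply, map_zero]⟩
  add_mem' := by
    rintro x y ⟨T, hT, hx⟩ ⟨T', hT', hy⟩
    exact ⟨T + T', Subalgebra.add_mem _ hT hT', by rw [LinearMap.add_apply, map_add, hx, hy]⟩
  smul_mem' := by
    rintro c x ⟨T, hT, hx⟩
    exact ⟨c • T, Subalgebra.smul_mem _ hT c, by rw [LinearMap.smul_apply, map_smul, hx]⟩

/-- The modes are in `RA`. -/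
private theorem cy3_mW_mem (hA : IsADE A) (hp : 2 ≤ p) (ε : Cocycle A p) (a : WV A p) (k : ℤ) :
    mW hA hp ε a k ∈ RA hA hp ε := Algebra.subset_adjoin ⟨a, k, rfl⟩

/-- The orbit is stable under the modes. -/
private theorem cy3_K_mode (hA : IsADE A) (hp : 2 ≤ p) (ε : Cocycle A p) (v : WV A p)
    (a : VL ι) (ha : a ∈ W A p) (k : ℤ) (x : VL ι) (hx : x ∈ cy3_K hA hp ε v) :
    mode ε a k x ∈ cy3_K hA hp ε v := by
  obtain ⟨T, hT, rfl⟩ := hx
  exact ⟨mW hA hp ε (toWV a ha) k * T, Subalgebra.mul_mem _ (cy3_mW_mem hA hp ε _ k) hT, rfl⟩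

/-- A nonzero homogeneous vector in the orbit of `v ≠ 0`. -/
private theorem cy3_homog (hA : IsADE A) (hp : 2 ≤ p) (ε : Cocycle A p) (v : WV A p)
    (h0 : v ≠ 0) : ∃ T ∈ RA hA hp ε, ∃ n, wv A p (T v) ∈ Vn A p n ∧ T v ≠ 0 := by
  obtain ⟨s, f, hf, hs⟩ := cy3_decomp (wv A p v) (wv_mem v)
  have hex : ∃ g ∈ s, f g ≠ 0 := by
    by_contra hcon
    push Not at hcon
    have h1 : wv A p v = 0 := by rw [hs]; exact Finset.sum_eq_zero hcon
    exact h0 (wv_inj (h1.trans (map_zero (wv A p)).symm))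
  obtain ⟨g, hg, hfg⟩ := hex
  have hK : ∀ _i : Unit, ∀ x ∈ cy3_K hA hp ε v,
      LS (Shift.zero A p) 0 x ∈ cy3_K hA hp ε v := by
    intro _ x hx
    have h1 := cy3_K_mode hA hp ε v (omegaV A p) (omegaV_mem hA hp) 1 x hx
    rw [omegaV_eq, mode_omega hA (by omega) ε 1] at h1
    exact h1
  have hw : ∀ g, Wt (fun _ : Unit => LS (Shift.zero A p) 0) g (f g) := by
    intro g i
    exact LS_zero_Vn hA (by omega) (g ()) (f g) (hf g)
  have hsum : ∑ g ∈ s, f g ∈ cy3_K hA hp ε v := by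
    rw [← hs]
    exact ⟨1, Subalgebra.one_mem _, rfl⟩
  obtain ⟨T, hT, hTf⟩ := comp_mem (G := fun _ : Unit => LS (Shift.zero A p) 0)
    (cy3_K hA hp ε v) hK s f hw hsum g hg
  refine ⟨T, hT, g (), ?_, ?_⟩
  · rw [← hTf]
    exact hf g
  · intro h1
    rw [h1, map_zero] at hTf
    exact hfg hTf

/-- Moving the products of generating modes to the other side. -/
private theorem cy3_prod (hA : IsADE A) (hp : 2 ≤ p) (ε : Cocycle A p) (τ : Shift A p)
    (hτ : τ.s = (2 : ℂ) • bg A p) (w : VL ι) (hw : fi1_Prod ε w) :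
    ∀ (n : ℤ) (v : WV A p), wv A p v ∈ Vn A p n → beta ε τ w (wv A p v) ≠ 0 →
      ∃ T ∈ RA hA hp ε, ∃ m, wv A p (T v) ∈ Vn A p m ∧ top0 (wv A p (T v)) ≠ 0 := by
  induction hw with
  | vac =>
    intro n v hv hb
    rw [beta_vac] at hb
    exact ⟨1, Subalgebra.one_mem _, n, hv, hb⟩
  | step lam js hl k w hw ih =>
    intro n v hv hb
    have hwU : w ∈ UU ε := by
      rw [← W_eq_UU hA hp ε]
      clear ih hb
      induction hw with
      | vac => exact vac_mem_W hA (by omega)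
      | step lam js hl k w hw ih => exact cS_mem_W hA hp ε lam hl js k w ih
    rw [beta_cS hA hp ε τ hτ lam hl js k w (wv A p v) hwU (wv_mem v)] at hb
    have hb2 := right_ne_zero_of_mul hb
    -- the mode of a generator
    have hEw : Ew ε (Shift.zero A p) js (Finsupp.single (-lam) 1) ∈ W A p := by
      rw [← cS_creation]
      exact cS_mem_W hA hp ε lam hl js (-1) vac (vac_mem_W hA (by omega))
    have hm : wv A p (mW hA hp ε (toWV _ hEw) (2 * wtExp A p (-lam) - 2 - k) v) =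
        cS ε (Shift.zero A p) lam js (2 * wtExp A p (-lam) - 2 - k) (wv A p v) := by
      rw [wv_mW]
      show mode ε (Ew ε (Shift.zero A p) js (Finsupp.single (-lam) 1)) _ _ = _
      rw [mode_cS hA (by omega) ε lam js]
    rw [← hm] at hb2
    obtain ⟨T, hT, m, h1, h2⟩ := ih _ (mW hA hp ε (toWV _ hEw)
      (2 * wtExp A p (-lam) - 2 - k) v) (by
        rw [hm]
        exact cS_Vn hA ε lam js _ n _ hv) hb2
    exact ⟨T * mW hA hp ε (toWV _ hEw) (2 * wtExp A p (-lam) - 2 - k),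
      Subalgebra.mul_mem _ hT (cy3_mW_mem hA hp ε _ _), m, h1, h2⟩

theorem RA_of_vac (hA : IsADE A) (hp : 2 ≤ p) (ε : Cocycle A p) (a : WV A p) :
    ∃ T ∈ RA hA hp ε, T (vacW hA hp) = a := by
  refine ⟨mW hA hp ε a (-1), cy3_mW_mem hA hp ε a (-1), wv_inj ?_⟩
  rw [wv_mW, wv_vac]
  exact mode_neg_one_vac hA (by omega) ε _

theorem RA_vac (hA : IsADE A) (hp : 2 ≤ p) (ε : Cocycle A p) (v : WV A p) (h0 : v ≠ 0) :
    ∃ T ∈ RA hA hp ε, T v = vacW hA hp := by
  obtain ⟨τ, hτ⟩ := exists_tau (p := p) hA (by omega)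
  obtain ⟨T₀, hT₀, n, hn, h0'⟩ := cy3_homog hA hp ε v h0
  have hne : wv A p (T₀ v) ≠ 0 := fun h => h0' (wv_inj (h.trans (map_zero (wv A p)).symm))
  -- a word pairing non trivially
  have hex : ∃ w, fi1_Prod ε w ∧ beta ε τ w (wv A p (T₀ v)) ≠ 0 := by
    by_contra hcon
    push Not at hcon
    apply hne
    refine beta_right hA hp ε τ hτ n _ ⟨wv_mem (T₀ v), hn⟩ fun t ht => ?_
    have h1 : t ∈ Submodule.span ℂ {w | fi1_Prod ε w} := fi1_UU_le_P ε ht.1
    clear ht
    induction h1 using Submodule.span_induction with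
    | mem x hx => exact hcon x hx
    | zero =>
      have h2 := beta_smul_left ε τ 0 (0 : VL ι) (wv A p (T₀ v))
      rw [zero_smul, zero_mul] at h2
      exact h2
    | add x y hx hy ihx ihy => rw [beta_add_left, ihx, ihy, add_zero]
    | smul c x hx ih => rw [beta_smul_left, ih, mul_zero]
  obtain ⟨w, hw, hb⟩ := hex
  obtain ⟨T₁, hT₁, m, hm, htop⟩ := cy3_prod hA hp ε τ hτ w hw n (T₀ v) hn hb
  have hm0 : m = 0 := by
    by_contra h
    exact htop (top0_wt hA hp m h _ hm)
  subst hm0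
  obtain ⟨a, ha⟩ := Wn_zero hA hp (wv A p (T₁ (T₀ v))) ⟨wv_mem _, hm⟩
  have ha0 : a ≠ 0 := by
    rintro rfl
    rw [ha, zero_smul, map_zero] at htop
    exact htop rfl
  refine ⟨a⁻¹ • (T₁ * T₀), Subalgebra.smul_mem _ (Subalgebra.mul_mem _ hT₁ hT₀) _, wv_inj ?_⟩
  rw [LinearMap.smul_apply, map_smul, wv_vac]
  show a⁻¹ • wv A p (T₁ (T₀ v)) = vac
  rw [ha, smul_smul, inv_mul_cancel₀ ha0, one_smul]

end

end WPQ
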