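import Pool.Agent.WPQ.CY0

/-! [WPQ-CY4] Schur's lemma for `W(p)_Q`.

`g` commutes with `L(0) = mW omegaV 1` (see PV1 `isPrimary_iff`, FL5/FL7 for `mode ε (omegaV A p) (k+1) = LS zero k`;
`omegaV_mem`), so `L(0) (g vac) = g (L(0) vac) = 0`; a vector `x ∈ W` with `L(0) x = 0` is in `Wn 0`
(`mem_Vn_iff`), so `g vac = c • vac` (`Wn_zero`).  `g a = g (a_{-1} vac) = a_{-1} (g vac) = c a`
(`mode_neg_one_vac`). -/

namespace WPQ

open MvPolynomial WK GA

noncomputable section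

variable {ι : Type} [Fintype ι] [DecidableEq ι] {A : Matrix ι ι ℤ} {p : ℕ}

theorem schur_W (hA : IsADE A) (hp : 2 ≤ p) (ε : Cocycle A p) (g : WV A p →ₗ[ℂ] WV A p)
    (hg : ∀ (a : WV A p) (k : ℤ) (v : WV A p), g (mW hA hp ε a k v) = mW hA hp ε a k (g v)) :
    ∃ c : ℂ, ∀ v, g v = c • v := by
  have hp1 : 1 ≤ p := by omega
  have hL : ∀ v : WV A p, wv A p (mW hA hp ε (toWV (omegaV A p) (omegaV_mem hA hp)) 1 v) =
      LS (Shift.zero A p) 0 (wv A p v) := by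
    intro v
    rw [wv_mW]
    change mode ε (omegaV A p) 1 (wv A p v) = _
    rw [omegaV_eq, mode_omega hA hp1 ε 1, sub_self]
  have h1 : mW hA hp ε (toWV (omegaV A p) (omegaV_mem hA hp)) 1 (vacW hA hp) = 0 := by
    refine wv_inj ?_
    rw [hL, wv_vac, LS_vac 0 (by omega), map_zero]
  have h2 : LS (Shift.zero A p) 0 (wv A p (g (vacW hA hp))) = 0 := by
    rw [← hL, ← hg, h1, map_zero, map_zero]
  have h3 : wv A p (g (vacW hA hp)) ∈ Wn A p 0 := by
    refine Submodule.mem_inf.2 ⟨wv_mem _, ?_⟩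
    rw [mem_Vn_iff hA hp1, h2, Int.cast_zero, zero_smul]
  obtain ⟨c, hc⟩ := Wn_zero hA hp _ h3
  refine ⟨c, fun v => ?_⟩
  have h4 : mW hA hp ε v (-1) (vacW hA hp) = v := by
    refine wv_inj ?_
    rw [wv_mW, wv_vac, mode_neg_one_vac hA hp1]
  have h5 : g (vacW hA hp) = c • vacW hA hp := by
    refine wv_inj ?_
    rw [hc, map_smul, wv_vac]
  calc g v = g (mW hA hp ε v (-1) (vacW hA hp)) := by rw [h4]
    _ = c • v := by rw [hg, h5, map_smul, h4]

end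

end WPQ
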