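import Pool.Agent.WPQ.CY3
import Pool.Agent.WPQ.CY4

/-! [WPQ-CY5] Density.

`R = RA hA hp ε` acts on `M = WV A p` (`Module R M`: a subalgebra of `Module.End ℂ M` acts on `M`).  `M` is a simple
`R`-module: nonzero (`vac ≠ 0`), and a nonzero `R`-submodule contains `vac` (`RA_vac`) and then everything
(`RA_of_vac`).  So `IsSemisimpleModule R M`.  An `R`-endomorphism `g` of `M` is `ℂ`-linear (`algebraMap ℂ R`)
and a scalar by `schur_W`.  So every `ℂ`-linear `f : M → M` is `End R M`-linear.  Take `f` with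
`f (b i) = vac` and `f (b j) = 0` for `j ≠ i` (`LinearIndependent.extend`/`exists_extend`, basis extension) and apply
`jacobson_density` (Mathlib.RingTheory.SimpleModule.Basic) to the finset of the `b j`. -/

namespace WPQ

open MvPolynomial WK GA

noncomputable section

variable {ι : Type} [Fintype ι] [DecidableEq ι] {A : Matrix ι ι ℤ} {p : ℕ}

private theorem cy5_dens {M : Type} [AddCommGroup M] [Module ℂ M]
    (R : Subalgebra ℂ (Module.End ℂ M)) (v0 : M) (h1 : ∀ a : M, ∃ T ∈ R, T v0 = a)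
    (h2 : ∀ v : M, v ≠ 0 → ∃ T ∈ R, T v = v0)
    (hs : ∀ g : M →ₗ[ℂ] M, (∀ T ∈ R, ∀ v, g (T v) = T (g v)) → ∃ c : ℂ, ∀ v, g v = c • v)
    {d : ℕ} (b : Fin d → M) (hb : LinearIndependent ℂ b) (i : Fin d) :
    ∃ T ∈ R, T (b i) = v0 ∧ ∀ j, j ≠ i → T (b j) = 0 := by
  classical
  have hsm : ∀ (r : R) (m : M), r • m = (r : Module.End ℂ M) m := fun r m => rfl
  have hne : b i ≠ 0 := hb.ne_zero i
  have : Nontrivial M := ⟨⟨b i, 0, hne⟩⟩
  have hsimple : IsSimpleModule R M := by
    rw [isSimpleModule_iff]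
    refine { exists_pair_ne := ⟨⊥, ⊤, bot_ne_top⟩, eq_bot_or_eq_top := fun N => ?_ }
    by_cases hN : N = ⊥
    · exact Or.inl hN
    · right
      obtain ⟨v, hv, hv0⟩ := (Submodule.ne_bot_iff N).1 hN
      obtain ⟨T, hT, hTv⟩ := h2 v hv0
      have hvac : v0 ∈ N := by
        rw [← hTv]
        exact N.smul_mem (⟨T, hT⟩ : R) hv
      rw [eq_top_iff]
      intro a _
      obtain ⟨T', hT', hTa⟩ := h1 a
      rw [← hTa]
      exact N.smul_mem (⟨T', hT'⟩ : R) hvac
  have hss : IsSemisimpleModule R M := inferInstance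
  -- the linear map
  obtain ⟨f, hf⟩ := LinearMap.exists_extend
    ((Module.Basis.span hb).constr ℂ (fun j => if j = i then v0 else 0))
  have hfb : ∀ j, f (b j) = if j = i then v0 else 0 := by
    intro j
    have h3 := (Module.Basis.span hb).constr_basis ℂ (fun j => if j = i then v0 else 0) j
    rw [← hf] at h3
    have h4 : (((Module.Basis.span hb) j : Submodule.span ℂ (Set.range b)) : M) = b j :=
      congrArg Subtype.val (Module.Basis.span_apply hb j)
    rw [LinearMap.comp_apply, Submodule.subtype_apply, h4] at h3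
    exact h3
  have hcomm : ∀ (g : Module.End R M) (m : M), f (g m) = g (f m) := by
    intro g m
    have hgc : ∀ (c : ℂ) (m : M), g (c • m) = c • g m := by
      intro c m
      have h5 : ∀ m : M, c • m = (algebraMap ℂ R c) • m := fun m => by
        rw [hsm]
        rfl
      rw [h5, map_smul, ← h5]
    let g' : M →ₗ[ℂ] M := { toFun := g, map_add' := map_add g, map_smul' := hgc }
    obtain ⟨c, hc⟩ := hs g' (fun T hT v => g.map_smul (⟨T, hT⟩ : R) v)
    have hc' : ∀ v, g v = c • v := hc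
    rw [hc', hc', map_smul]
  let f' : Module.End (Module.End R M) M :=
    { toFun := f, map_add' := map_add f, map_smul' := fun g m => hcomm g m }
  obtain ⟨r, hr⟩ := jacobson_density f' (Finset.univ.image b)
  have hr' : ∀ j, (r : Module.End ℂ M) (b j) = f (b j) := fun j =>
    (hr (b j) (Finset.mem_image_of_mem b (Finset.mem_univ j))).symm
  refine ⟨r, r.2, ?_, fun j hj => ?_⟩
  · rw [hr', hfb, if_pos rfl]
  · rw [hr', hfb, if_neg hj]

theorem density_W (hA : IsADE A) (hp : 2 ≤ p) (ε : Cocycle A p) {d : ℕ} (b : Fin d → WV A p)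
    (hb : LinearIndependent ℂ b) (i : Fin d) :
    ∃ T ∈ RA hA hp ε, T (b i) = vacW hA hp ∧ ∀ j, j ≠ i → T (b j) = 0 := by
  refine cy5_dens (RA hA hp ε) (vacW hA hp) (RA_of_vac hA hp ε) (RA_vac hA hp ε) ?_ b hb i
  intro g hg
  exact schur_W hA hp ε g fun a k v => hg _ (Algebra.subset_adjoin ⟨a, k, rfl⟩) v

end

end WPQ
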