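import Pool.Agent.WPQ.CY5

/-! [WPQ-CY6] Independence (Dong-Lepowsky, Dong-Mason).

(1) `stab`: let `a b : Fin d → WV` with `∑ (a i)_k (b i) = 0` for all `k`, `c ∈ WV`, `m : ℤ`.  Then
`∑ (a i)_k (c_m (b i)) = 0` for all `k`.  Put `X(m,n) = ∑_i (a i)_m c_n (b i)`.  Locality of `a i` and `c` with one
`N` for all `i` (`vo_local`, `LocP.mono`; AFD `LocP`): for all `m n`:
`∑_{l ≤ N} (-1)^l C(N,l) ((a i)_{m+N-l} c_{n+l} - c_{n+l} (a i)_{m+N-l}) = 0`; apply it to `b i` and sum over
`i`: the second part vanishes, so `∑_{l ≤ N} (-1)^l C(N,l) X(m+N-l, n+l) = 0`.  There is `n0` with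
`c_n (b i) = 0` for all `n ≥ n0` and all `i` (`mode_trunc`), so `X(m,n) = 0` for `n ≥ n0`.  Downward induction
on `n`: `X(m+N, n) = -∑_{1 ≤ l ≤ N} … = 0`.
(2) By `Algebra.adjoin_induction` (product: apply twice; sum, scalar: linear) the same for all `T ∈ RA`:
`∑ (a i)_k (T (b i)) = 0`.
(3) `density_W`: `T (b i) = vac`, `T (b j) = 0` for `j ≠ i`: `(a i)_k vac = 0`, `k = -1`: `a i = 0`. -/

namespace WPQ

open MvPolynomial WK GA

noncomputable section

variable {ι : Type} [Fintype ι] [DecidableEq ι] {A : Matrix ι ι ℤ} {p : ℕ}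

private theorem cy6_stab {M : Type} [AddCommGroup M] [Module ℂ M] {d : ℕ}
    (a : Fin d → ℤ → M →ₗ[ℂ] M) (c : ℤ → M →ₗ[ℂ] M) (b : Fin d → M) (N : ℕ)
    (hloc : ∀ i, AF.Loc N (a i) c) (n0 : ℤ) (hc : ∀ n, n0 ≤ n → ∀ i, c n (b i) = 0)
    (h : ∀ k, ∑ i, a i k (b i) = 0) (k m : ℤ) : ∑ i, a i k (c m (b i)) = 0 := by
  have key : ∀ m n : ℤ, ∑ l ∈ Finset.range (N + 1), ((-1 : ℂ) ^ l * (N.choose l : ℂ)) •
      (∑ i, a i (m + N - l) (c (n + l) (b i))) = 0 := by
    intro m n
    have h1 : ∀ i, ∑ l ∈ Finset.range (N + 1), ((-1 : ℂ) ^ l * (N.choose l : ℂ)) •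
        (a i (m + N - l) (c (n + l) (b i)) - c (n + l) (a i (m + N - l) (b i))) = 0 := by
      intro i
      have h2 := congrArg (fun f : M →ₗ[ℂ] M => f (b i)) (hloc i m n)
      simpa only [LinearMap.sum_apply, LinearMap.smul_apply, LinearMap.sub_apply,
        LinearMap.comp_apply, LinearMap.zero_apply] using h2
    have h3 : ∑ i, ∑ l ∈ Finset.range (N + 1), ((-1 : ℂ) ^ l * (N.choose l : ℂ)) •
        (a i (m + N - l) (c (n + l) (b i)) - c (n + l) (a i (m + N - l) (b i))) = 0 :=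
      Finset.sum_eq_zero fun i _ => h1 i
    rw [Finset.sum_comm] at h3
    rw [← h3]
    refine Finset.sum_congr rfl fun l _ => ?_
    rw [← Finset.smul_sum, Finset.sum_sub_distrib, ← map_sum, h, map_zero, sub_zero]
  have hind : ∀ t : ℕ, ∀ n : ℤ, n0 - t ≤ n → ∀ m, ∑ i, a i m (c n (b i)) = 0 := by
    intro t
    induction t with
    | zero =>
      intro n hn m
      refine Finset.sum_eq_zero fun i _ => ?_
      rw [hc n (by simpa using hn) i, map_zero]
    | succ t ih =>
      intro n hn m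
      by_cases hle : n0 - t ≤ n
      · exact ih n hle m
      · have h4 := key (m - N) n
        rw [Finset.sum_range_succ'] at h4
        have h5 : ∑ l ∈ Finset.range N, ((-1 : ℂ) ^ (l + 1) * (N.choose (l + 1) : ℂ)) •
            (∑ i, a i (m - N + N - ((l + 1 : ℕ) : ℤ)) (c (n + ((l + 1 : ℕ) : ℤ)) (b i))) = 0 := by
          refine Finset.sum_eq_zero fun l _ => ?_
          rw [ih (n + ((l + 1 : ℕ) : ℤ)) (by push_cast at hn ⊢; omega), smul_zero]
        rw [h5, zero_add] at h4
        simpa using h4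
  exact hind (n0 - m).toNat m (by omega) k

theorem dl_indep (hA : IsADE A) (hp : 2 ≤ p) (ε : Cocycle A p) {d : ℕ} (a b : Fin d → WV A p)
    (hb : LinearIndependent ℂ b) (h : ∀ k : ℤ, ∑ i, mW hA hp ε (a i) k (b i) = 0) :
    ∀ i, a i = 0 := by
  have hp1 : 1 ≤ p := by omega
  have hmain : ∀ T ∈ RA hA hp ε, ∀ b : Fin d → WV A p,
      (∀ k : ℤ, ∑ i, mW hA hp ε (a i) k (b i) = 0) →
      ∀ k : ℤ, ∑ i, mW hA hp ε (a i) k (T (b i)) = 0 := by
    intro T hT
    induction hT using Algebra.adjoin_induction with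
    | mem T hT =>
      obtain ⟨c, m, rfl⟩ := hT
      intro b hb k
      choose N hN using fun i => vo_local hA hp1 ε (wv A p (a i)) (wv A p c) _ _
        (mode_spec hA hp1 ε (wv A p (a i))) (mode_spec hA hp1 ε (wv A p c))
      choose M hM using fun i => mode_trunc hA hp1 ε (wv A p c) (wv A p (b i))
      have h1 := cy6_stab (fun i => mode ε (wv A p (a i))) (mode ε (wv A p c))
        (fun i => wv A p (b i)) (Finset.univ.sup N)
        (fun i => AF.LocP.mono (Finset.le_sup (Finset.mem_univ i)) (hN i))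
        ((Finset.univ.sup M : ℕ) : ℤ) (fun n hn i => hM i n (le_trans (by
          exact_mod_cast Finset.le_sup (f := M) (Finset.mem_univ i)) hn)) (fun k => by
          have h2 := congrArg (wv A p) (hb k)
          rw [map_sum, map_zero] at h2
          exact h2) k m
      apply wv_inj
      rw [map_sum, map_zero]
      exact h1
    | algebraMap r =>
      intro b hb k
      have h1 : ∀ v : WV A p, (algebraMap ℂ (Module.End ℂ (WV A p)) r) v = r • v := fun _ => rfl
      simp only [h1, map_smul]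
      rw [← Finset.smul_sum, hb, smul_zero]
    | add T1 T2 _ _ h1 h2 =>
      intro b hb k
      simp only [LinearMap.add_apply, map_add]
      rw [Finset.sum_add_distrib, h1 b hb, h2 b hb, add_zero]
    | mul T1 T2 _ _ h1 h2 =>
      intro b hb k
      exact h1 (fun i => T2 (b i)) (h2 b hb) k
  intro i
  obtain ⟨T, hT, hTi, hTj⟩ := density_W hA hp ε b hb i
  have h1 := hmain T hT b h (-1)
  rw [Finset.sum_eq_single i (fun j _ hj => by rw [hTj j hj, map_zero])
    (fun hi => absurd (Finset.mem_univ i) hi), hTi] at h1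
  have h2 := congrArg (wv A p) h1
  rw [wv_mW, wv_vac, map_zero, mode_neg_one_vac hA hp1] at h2
  exact wv_inj (by rw [h2, map_zero])

end

end WPQ
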