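import Pool.Agent.WPQ.CYD

/-! [WPQ-CYS] Skew symmetry.

`vac_neg`: `x_{-1-l} 1 = T^l x / l!`: induction on `l` with the translation covariance of `mode_spec` on `vac`
(`transl_vac`), `mode_neg_one_vac`.  We only need: it is a multiple of `T^l x`.
`skew_mem` for `k ≥ -1`: `mode_comm` for `(u, y)`, modes `m = -1` and `n = k`, applied to `vac`:
`u_{-1} y_k vac - y_k u_{-1} vac = ∑_{j < M} C(-1,j) (u_j y)_{k-1-j} vac`.  Here `u_{-1} vac = u`.
If `k ≥ 0`: `y_k vac = 0`, the terms `j < k` vanish (`k-1-j ≥ 0`) and for `j = k + i` the vector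
`(u_j y)_{-1-i} vac` is a multiple of `T^i (u_{k+i} y)`.  If `k = -1`: `u_{-1} y_{-1} vac = u_{-1} y` (the
element `i = 0`), and `(u_j y)_{-2-j} vac` is a multiple of `T^{j+1} (u_j y)` (the element `i = j+1`).
For `k < -1` go down: `T (y_k u) - y_k (T u) = -k y_{k-1} u` (translation covariance), for ALL `u` at once:
`y_k (T u)` is in the span of `T^i ((T u)_{k+i} y)`, multiples of `T^i (u_{k-1+i} y)` (`mode_transl`), and
`T (y_k u)` is in the span of the `T^{i+1} (u_{(k-1)+(i+1)} y)`. -/

namespace WPQ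

open MvPolynomial WK GA

noncomputable section

variable {ι : Type} [Fintype ι] [DecidableEq ι] {A : Matrix ι ι ℤ} {p : ℕ}

theorem vac_neg (hA : IsADE A) (hp : 1 ≤ p) (ε : Cocycle A p) (x : VL ι) (l : ℕ) :
    ∃ c : ℂ, mode ε x (-1 - (l : ℤ)) vac = c • Tp l x := by
  induction l with
  | zero =>
    refine ⟨1, ?_⟩
    have h := mode_neg_one_vac hA hp ε x
    rw [one_smul]
    have e : (-1 - ((0 : ℕ) : ℤ)) = -1 := by norm_num
    rw [e, h]
    unfold Tp
    rw [pow_zero]
    rfl
  | succ l ih =>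
    obtain ⟨c, hc⟩ := ih
    have h1 := (mode_spec hA hp ε x).translation (-1 - (l : ℤ))
    have h2 := LinearMap.congr_fun h1 vac
    rw [LinearMap.sub_apply, LinearMap.comp_apply, LinearMap.comp_apply, transl_vac, map_zero,
      sub_zero, hc, map_smul, LinearMap.smul_apply] at h2
    have h3 : transl (Tp l x) = Tp (l + 1) x := by
      unfold Tp
      rw [pow_succ']
      rfl
    rw [h3] at h2
    have h4 : (-((-1 - (l : ℤ) : ℤ) : ℂ)) = (l : ℂ) + 1 := by
      push_cast
      ring
    have h5 : (l : ℂ) + 1 ≠ 0 := Nat.cast_add_one_ne_zero l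
    rw [h4] at h2
    refine ⟨((l : ℂ) + 1)⁻¹ * c, ?_⟩
    have e : (-1 - ((l + 1 : ℕ) : ℤ)) = -1 - (l : ℤ) - 1 := by
      push_cast
      ring
    rw [e, mul_smul, h2, smul_smul, inv_mul_cancel₀ h5, one_smul]

/-- the span in the statement -/
private def cys_S (ε : Cocycle A p) (y u : VL ι) (k : ℤ) : Submodule ℂ (VL ι) :=
  Submodule.span ℂ (Set.range fun i : ℕ => Tp i (mode ε u (k + i) y))

private theorem cys_gen (ε : Cocycle A p) (y u : VL ι) (k : ℤ) (i : ℕ) :
    Tp i (mode ε u (k + i) y) ∈ cys_S ε y u k := Submodule.subset_span ⟨i, rfl⟩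

private theorem cys_comm (hA : IsADE A) (hp : 1 ≤ p) (ε : Cocycle A p) (y u : VL ι) (k : ℤ)
    (hk : -1 ≤ k) : mode ε y k u ∈ cys_S ε y u k := by
  obtain ⟨M, hM⟩ := mode_trunc hA hp ε u y
  have h1 := mode_comm hA hp ε u y M (fun j hj => hM j (by exact_mod_cast hj)) (-1) k
  have h2 := LinearMap.congr_fun h1 vac
  rw [LinearMap.sub_apply, LinearMap.comp_apply, LinearMap.comp_apply, mode_neg_one_vac hA hp] at h2
  have h3 : mode ε y k u = mode ε u (-1) (mode ε y k vac) -
      (∑ j ∈ Finset.range M, ((Ring.choose (-1 : ℤ) j : ℤ) : ℂ) •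
        mode ε (mode ε u j y) (-1 + k - j)) vac := by
    rw [← h2]
    abel
  rw [h3, LinearMap.sum_apply]
  refine Submodule.sub_mem _ ?_ ?_
  · rcases lt_or_eq_of_le hk with h | h
    · rw [(mode_spec hA hp ε y).vacuum k (by omega), map_zero]
      exact Submodule.zero_mem _
    · subst h
      rw [mode_neg_one_vac hA hp]
      have h4 := cys_gen ε y u (-1) 0
      have e : (-1 + ((0 : ℕ) : ℤ)) = -1 := by norm_num
      rw [e] at h4
      have h5 : Tp 0 (mode ε u (-1) y) = mode ε u (-1) y := by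
        unfold Tp
        rw [pow_zero]
        rfl
      rw [h5] at h4
      exact h4
  · refine Submodule.sum_mem _ fun j _ => ?_
    rw [LinearMap.smul_apply]
    refine Submodule.smul_mem _ _ ?_
    by_cases hj : (j : ℤ) < k
    · rw [(mode_spec hA hp ε _).vacuum _ (by omega)]
      exact Submodule.zero_mem _
    · obtain ⟨i, hi⟩ : ∃ i : ℕ, (j : ℤ) = k + i := ⟨((j : ℤ) - k).toNat, by omega⟩
      have e : -1 + k - (j : ℤ) = -1 - (i : ℤ) := by omega
      obtain ⟨c, hc⟩ := vac_neg hA hp ε (mode ε u j y) i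
      rw [e, hc, hi]
      exact Submodule.smul_mem _ _ (cys_gen ε y u k i)

private theorem cys_down (hA : IsADE A) (hp : 1 ≤ p) (ε : Cocycle A p) (n : ℕ) :
    ∀ (y u : VL ι), mode ε y (-1 - (n : ℤ)) u ∈ cys_S ε y u (-1 - (n : ℤ)) := by
  induction n with
  | zero => exact fun y u => cys_comm hA hp ε y u _ (by norm_num)
  | succ n ih =>
    intro y u
    have e : (-1 - ((n + 1 : ℕ) : ℤ)) = -1 - (n : ℤ) - 1 := by
      push_cast
      ring
    rw [e]
    set k : ℤ := -1 - (n : ℤ) with hk
    have h1 := (mode_spec hA hp ε y).translation k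
    have h2 := LinearMap.congr_fun h1 u
    rw [LinearMap.sub_apply, LinearMap.comp_apply, LinearMap.comp_apply,
      LinearMap.smul_apply] at h2
    have hk0 : (-(k : ℂ)) ≠ 0 := by
      rw [neg_ne_zero, Int.cast_ne_zero]
      omega
    have h3 : mode ε y (k - 1) u = (-(k : ℂ))⁻¹ •
        (transl (mode ε y k u) - mode ε y k (transl u)) := by
      rw [h2, smul_smul, inv_mul_cancel₀ hk0, one_smul]
    rw [h3]
    refine Submodule.smul_mem _ _ (Submodule.sub_mem _ ?_ ?_)
    · have h4 : cys_S ε y u k ≤ (cys_S ε y u (k - 1)).comap transl := by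
        refine Submodule.span_le.mpr ?_
        rintro _ ⟨i, rfl⟩
        rw [SetLike.mem_coe, Submodule.mem_comap]
        have h5 := cys_gen ε y u (k - 1) (i + 1)
        have e2 : k - 1 + ((i + 1 : ℕ) : ℤ) = k + i := by
          push_cast
          ring
        rw [e2] at h5
        have h6 : transl (Tp i (mode ε u (k + i) y)) = Tp (i + 1) (mode ε u (k + i) y) := by
          unfold Tp
          rw [pow_succ']
          rfl
        rw [h6]
        exact h5
      exact h4 (ih y u)
    · have h4 : cys_S ε y (transl u) k ≤ cys_S ε y u (k - 1) := by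
        refine Submodule.span_le.mpr ?_
        rintro _ ⟨i, rfl⟩
        rw [SetLike.mem_coe]
        show Tp i (mode ε (transl u) (k + i) y) ∈ _
        rw [mode_transl hA hp, LinearMap.smul_apply, map_smul]
        refine Submodule.smul_mem _ _ ?_
        have h5 := cys_gen ε y u (k - 1) i
        have e2 : k - 1 + (i : ℤ) = k + i - 1 := by ring
        rw [e2] at h5
        exact h5
      exact h4 (ih y (transl u))

theorem skew_mem (hA : IsADE A) (hp : 1 ≤ p) (ε : Cocycle A p) (y u : VL ι) (k : ℤ) :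
    mode ε y k u ∈ Submodule.span ℂ (Set.range fun i : ℕ => Tp i (mode ε u (k + i) y)) := by
  by_cases hk : -1 ≤ k
  · exact cys_comm hA hp ε y u k hk
  · obtain ⟨n, hn⟩ : ∃ n : ℕ, k = -1 - (n : ℤ) := ⟨(-1 - k).toNat, by omega⟩
    rw [hn]
    exact cys_down hA hp ε n y u

end

end WPQ
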