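import Pool.Agent.WPQ.CY0
import Pool.Agent.WPQ.CYS

/-! [WPQ-CY7] The three point function.

Let `u = lwv nu`.  `mode ε y k u` is in the span of the `Tp i (mode ε u (k+i) y)` (`skew_mem`), so it is enough that
`β(c, Tp i (u_s y)) = 0` for all `i`, `s`.  This is `β(c', u_s y)` with `c' = L(1)^i c ∈ Wk` (`beta_Tp`, `Wk_LS`,
`W_closed`).  `mode ε u = cS ε zero nu []` (`mode_cS`, `Ew` of `[]`), so by `beta_cS` (with `js = []`, `t = c'`:
`c' ∈ UU` by `W_eq_UU`; read from right to left, `n = 2 wtExp(-nu) - 2 - s`) it is a sign times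
`β(u_{s'} c', y)`, `s' = 2 wtExp(-nu) - 2 - s`.  Again by `skew_mem` `u_{s'} c'` is in the span of the
`Tp l (c'_{s'+l} u)`, on which `β(·, y)` vanishes by hypothesis. -/

namespace WPQ

open MvPolynomial WK GA

noncomputable section

variable {ι : Type} [Fintype ι] [DecidableEq ι] {A : Matrix ι ι ℤ} {p : ℕ}

private theorem cy7_Wk_pow (hA : IsADE A) (hp : 2 ≤ p) (ε : Cocycle A p) (i : ℕ) (c : VL ι)
    (hc : c ∈ Wk ε) : (LS (Shift.zero A p) 1 ^ i) c ∈ Wk ε := by
  induction i with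
  | zero => exact hc
  | succ i ih =>
    rw [pow_succ', Module.End.mul_apply]
    exact Wk_LS hA hp ε 1 _ ih

private theorem cy7_aux (hA : IsADE A) (hp : 2 ≤ p) (ε : Cocycle A p) (τ : Shift A p)
    (hτ : τ.s = (2 : ℂ) • bg A p) (nu : ι → ℤ) (hd : Dom A nu) (y : VL ι) (hy : y ∈ W A p)
    (h : ∀ x ∈ PP ε nu, beta ε τ x y = 0) (c : VL ι) (hc : c ∈ Wk ε) (s : ℤ) :
    beta ε τ c (mode ε (lwv nu) s y) = 0 := by
  have hp1 : 1 ≤ p := by omega
  have hcS : mode ε (lwv nu) = cS ε (Shift.zero A p) nu [] := mode_cS hA hp1 ε nu []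
  have hcU : c ∈ UU ε := by
    rw [← W_eq_UU hA hp ε]
    exact hc.1
  have h1 := beta_cS hA hp ε τ hτ nu hd [] (2 * wtExp A p (-nu) - 2 - s) c y hcU hy
  have h2 : 2 * wtExp A p (-nu) - 2 - (2 * wtExp A p (-nu) - 2 - s) = s := by ring
  rw [h2, ← hcS] at h1
  have h3 : beta ε τ (mode ε (lwv nu) (2 * wtExp A p (-nu) - 2 - s) c) y = 0 := by
    have h4 := skew_mem hA hp1 ε (lwv nu) c (2 * wtExp A p (-nu) - 2 - s)
    generalize mode ε (lwv nu) (2 * wtExp A p (-nu) - 2 - s) c = w at h4 ⊢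
    induction h4 using Submodule.span_induction with
    | mem x hx =>
      obtain ⟨l, rfl⟩ := hx
      exact h _ (Submodule.subset_span ⟨c, hc, _, l, rfl⟩)
    | zero =>
      have := beta_smul_left ε τ 0 0 y
      rwa [zero_smul, zero_mul] at this
    | add x z _ _ hx hz => rw [beta_add_left, hx, hz, add_zero]
    | smul a x _ hx => rw [beta_smul_left, hx, mul_zero]
  rw [h3] at h1
  have h5 : (((Int.negOnePow (wtExp A p (-nu))) : ℤ) : ℂ) ≠ 0 := by
    have := (Int.negOnePow (wtExp A p (-nu))).ne_zero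
    exact_mod_cast this
  exact (mul_eq_zero.1 h1.symm).resolve_left h5

theorem three_point (hA : IsADE A) (hp : 2 ≤ p) (ε : Cocycle A p) (τ : Shift A p)
    (hτ : τ.s = (2 : ℂ) • bg A p) (nu : ι → ℤ) (hd : Dom A nu) (y : VL ι) (hy : y ∈ W A p)
    (h : ∀ x ∈ PP ε nu, beta ε τ x y = 0) (c : VL ι) (hc : c ∈ Wk ε) (k : ℤ) :
    beta ε τ c (mode ε y k (lwv nu)) = 0 := by
  have hp1 : 1 ≤ p := by omega
  have h4 := skew_mem hA hp1 ε y (lwv nu) k
  generalize mode ε y k (lwv nu) = w at h4 ⊢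
  induction h4 using Submodule.span_induction with
  | mem x hx =>
    obtain ⟨i, rfl⟩ := hx
    show beta ε τ c (Tp i (mode ε (lwv nu) (k + i) y)) = 0
    rw [beta_Tp hA hp ε τ hτ i c _ hc.1 (W_closed hA hp ε _ _ (lwv_mem_W hA hp nu hd) hy _)]
    exact cy7_aux hA hp ε τ hτ nu hd y hy h _ (cy7_Wk_pow hA hp ε i c hc) _
  | zero =>
    have := beta_smul_right ε τ 0 c 0
    rwa [zero_smul, zero_mul] at this
  | add x z _ _ hx hz => rw [beta_add_right, hx, hz, add_zero]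
  | smul a x _ hx => rw [beta_smul_right, hx, mul_zero]

end

end WPQ
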