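import Pool.Agent.WPQ.CYD

/-! [WPQ-CY9a] The maps `Psi`.

All by `TensorProduct.induction_on` / `TensorProduct.ext'`, on pure tensors:
`Psi_E`: `Ej_mode`: `E_j (a_k b) = (E_j a)_k b + a_k (E_j b)`.
`Psi_G`: `G_i (a_k b) = (G_i a)_k b + a_k (G_i b)`: for `a`, `b` of charges `α`, `β` both sides are
`(α_i + β_i) a_k b` (`mode_charge`, `Gop_single`); the vectors with one charge span (`span_S0`).
`Psi_mem`: `mode_Wn`. -/

namespace WPQ

open MvPolynomial WK GA

noncomputable section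

variable {ι : Type} [Fintype ι] [DecidableEq ι] {A : Matrix ι ι ℤ} {p : ℕ}

private theorem cy9a_tm {N M : Type} [AddCommGroup N] [Module ℂ N] [AddCommGroup M] [Module ℂ M]
    (X : Module.End ℂ N) (Y : Module.End ℂ M) (a : N) (b : M) :
    tm X Y (a ⊗ₜ[ℂ] b) = X a ⊗ₜ[ℂ] b + a ⊗ₜ[ℂ] Y b := by
  unfold tm
  rw [LinearMap.add_apply, LinearMap.rTensor_tmul, LinearMap.lTensor_tmul]

omit [Fintype ι] [DecidableEq ι] in
private theorem cy9a_supp (γ : ι → ℤ) (f : Fock ι) :
    (Finsupp.single γ f : VL ι) ∈ Finsupp.supported (Fock ι) ℂ {γ} :=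
  Finsupp.single_mem_supported ℂ f (Set.mem_singleton γ)

omit [Fintype ι] [DecidableEq ι] in
private theorem cy9a_Gop (i : ι) (γ : ι → ℤ) (v : VL ι)
    (hv : v ∈ Finsupp.supported (Fock ι) ℂ {γ}) : Gop i v = ((γ i : ℤ) : ℂ) • v := by
  have e : v = Finsupp.single γ (v γ) := by
    ext1 δ
    by_cases h : δ = γ
    · subst h
      rw [Finsupp.single_eq_same]
    · rw [Finsupp.single_eq_of_ne h]
      by_contra h0
      exact h (hv (Finsupp.mem_support_iff.2 h0))
  rw [e, Gop_single]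

private theorem cy9a_G (hA : IsADE A) (hp : 2 ≤ p) (ε : Cocycle A p) (n m k : ℤ) (i : ι)
    (a : WT A p n) (b : WT A p m) :
    mode ε (cv A p n (Gn A p n i a)) k (cv A p m b) +
      mode ε (cv A p n a) k (cv A p m (Gn A p m i b)) =
      Gop i (mode ε (cv A p n a) k (cv A p m b)) := by
  have h : (Psi hA hp ε n m k ∘ₗ tm (Gn A p n i) (Gn A p m i)) =
      Gop i ∘ₗ Psi hA hp ε n m k := by
    refine TensorProduct.ext ?_
    refine ext_span (V := WT A p n) (W := WT A p m →ₗ[ℂ] VL ι) (span_S0 (A := A) (p := p) n) ?_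
    rintro a ⟨γ, f, ha⟩
    refine ext_span (V := WT A p m) (W := VL ι) (span_S0 (A := A) (p := p) m) ?_
    rintro b ⟨δ, g, hb⟩
    rw [LinearMap.compr₂ₛₗ_apply, LinearMap.compr₂ₛₗ_apply, TensorProduct.mk_apply,
      LinearMap.comp_apply, LinearMap.comp_apply, cy9a_tm, map_add, Psi_tmul, Psi_tmul, Psi_tmul,
      Gn_S0 n i a γ f ha, Gn_S0 m i b δ g hb, map_smul, map_smul, mode_smul hA (by omega),
      LinearMap.smul_apply, map_smul]
    have h1 := mode_charge hA (by omega : 1 ≤ p) ε γ δ k (cv A p n a) (cv A p m b)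
      (by rw [ha]; exact cy9a_supp γ f) (by rw [hb]; exact cy9a_supp δ g)
    rw [cy9a_Gop i (γ + δ) _ h1, ← add_smul, Pi.add_apply]
    push_cast
    rfl
  have h2 := congrArg (fun f : TensorProduct ℂ (WT A p n) (WT A p m) →ₗ[ℂ] VL ι =>
    f (a ⊗ₜ[ℂ] b)) h
  simp only [LinearMap.comp_apply] at h2
  rw [cy9a_tm, map_add, Psi_tmul, Psi_tmul, Psi_tmul] at h2
  exact h2

theorem Psi_E (hA : IsADE A) (hp : 2 ≤ p) (ε : Cocycle A p) (n m k : ℤ) (j : ι)
    (x : TensorProduct ℂ (WT A p n) (WT A p m)) :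
    Psi hA hp ε n m k (tm (En hA hp ε n j) (En hA hp ε m j) x) =
      Ej ε (Shift.zero A p) j (Psi hA hp ε n m k x) := by
  induction x using TensorProduct.induction_on with
  | zero => rw [map_zero, map_zero, map_zero]
  | add x y hx hy => rw [map_add, map_add, map_add, map_add, hx, hy]
  | tmul a b =>
    rw [cy9a_tm, map_add, Psi_tmul, Psi_tmul, Psi_tmul, En_coe, En_coe,
      ← Ej_mode hA (by omega : 1 ≤ p) ε j, LinearMap.sub_apply, LinearMap.comp_apply,
      LinearMap.comp_apply, sub_add_cancel]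

theorem Psi_G (hA : IsADE A) (hp : 2 ≤ p) (ε : Cocycle A p) (n m k : ℤ) (i : ι)
    (x : TensorProduct ℂ (WT A p n) (WT A p m)) :
    Psi hA hp ε n m k (tm (Gn A p n i) (Gn A p m i) x) = Gop i (Psi hA hp ε n m k x) := by
  induction x using TensorProduct.induction_on with
  | zero => rw [map_zero, map_zero, map_zero]
  | add x y hx hy => rw [map_add, map_add, map_add, map_add, hx, hy]
  | tmul a b =>
    rw [cy9a_tm, map_add, Psi_tmul, Psi_tmul, Psi_tmul, cy9a_G hA hp]

theorem Psi_mem (hA : IsADE A) (hp : 2 ≤ p) (ε : Cocycle A p) (n m k : ℤ)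
    (x : TensorProduct ℂ (WT A p n) (WT A p m)) :
    Psi hA hp ε n m k x ∈ Wn A p (n + m - k - 1) := by
  induction x using TensorProduct.induction_on with
  | zero => rw [map_zero]; exact Submodule.zero_mem _
  | add x y hx hy => rw [map_add]; exact Submodule.add_mem _ hx hy
  | tmul a b =>
    rw [Psi_tmul]
    exact mode_Wn hA hp ε n m k _ _ (cv_mem n a) (cv_mem m b)

end

end WPQ
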