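import Pool.Agent.WPQ.CY6

/-! [WPQ-CY9b] `Psi` is injective (all `k` together).

`WT A p m` is finite dimensional (`finite_n`): basis `e_i`, `i : Fin d` (`Module.finBasis`).  Every `x` is
`∑ a_i ⊗ e_i` (`TensorProduct.equivFinsuppOfBasisRight`, or by `TensorProduct.induction_on`).  Then
`∑ (a_i)_k e_i = 0` for all `k`, the `e_i` are linearly independent in `WV` (`cv_inj`, `wv_inj`), so all `a_i = 0`
(`dl_indep`). -/

namespace WPQ

open MvPolynomial WK GA

noncomputable section

variable {ι : Type} [Fintype ι] [DecidableEq ι] {A : Matrix ι ι ℤ} {p : ℕ}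

private theorem cy9b_sum {V W : Type} [AddCommGroup V] [Module ℂ V] [AddCommGroup W] [Module ℂ W]
    {d : ℕ} (e : Module.Basis (Fin d) ℂ W) (x : TensorProduct ℂ V W) :
    ∃ a : Fin d → V, x = ∑ i, a i ⊗ₜ[ℂ] e i := by
  induction x using TensorProduct.induction_on with
  | zero => exact ⟨fun _ => 0, by simp⟩
  | tmul y z =>
    refine ⟨fun i => e.repr z i • y, ?_⟩
    have h1 : z = ∑ i, e.repr z i • e i := (e.sum_repr z).symm
    conv_lhs => rw [h1]
    rw [TensorProduct.tmul_sum]
    refine Finset.sum_congr rfl fun i _ => ?_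
    rw [TensorProduct.tmul_smul, TensorProduct.smul_tmul']
  | add x y hx hy =>
    obtain ⟨a, ha⟩ := hx
    obtain ⟨b, hb⟩ := hy
    refine ⟨fun i => a i + b i, ?_⟩
    rw [ha, hb, ← Finset.sum_add_distrib]
    refine Finset.sum_congr rfl fun i _ => ?_
    rw [TensorProduct.add_tmul]

theorem Psi_inj (hA : IsADE A) (hp : 2 ≤ p) (ε : Cocycle A p) (n m : ℤ)
    (x : TensorProduct ℂ (WT A p n) (WT A p m)) (h : ∀ k : ℤ, Psi hA hp ε n m k x = 0) : x = 0 := by
  have hfin := finite_n hA hp m
  let e := Module.finBasis ℂ (WT A p m)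
  obtain ⟨a, ha⟩ := cy9b_sum e x
  have hli : LinearIndependent ℂ (fun i => toWV (cv A p m (e i)) (cv_mem m (e i)).1) := by
    have h1 : LinearIndependent ℂ ((wv A p) ∘ fun i => toWV (cv A p m (e i)) (cv_mem m (e i)).1) := by
      have h2 : LinearIndependent ℂ ((cv A p m) ∘ e) :=
        e.linearIndependent.map' (cv A p m) (LinearMap.ker_eq_bot.2 (cv_inj m))
      exact h2
    exact LinearIndependent.of_comp (wv A p) h1
  have h0 := dl_indep hA hp ε (fun i => toWV (cv A p n (a i)) (cv_mem n (a i)).1)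
    (fun i => toWV (cv A p m (e i)) (cv_mem m (e i)).1) hli (fun k => by
      apply wv_inj
      rw [map_sum, map_zero]
      have h3 := h k
      rw [ha, map_sum] at h3
      exact h3)
  have h4 : ∀ i, a i = 0 := by
    intro i
    have h5 : cv A p n (a i) = 0 := by
      have h6 := congrArg (wv A p) (h0 i)
      rw [map_zero] at h6
      exact h6
    apply cv_inj n
    rw [h5, map_zero]
  rw [ha]
  refine Finset.sum_eq_zero fun i _ => ?_
  rw [h4 i, TensorProduct.zero_tmul]

end

end WPQ
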