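import Pool.Agent.WPQ.CY1
import Pool.Agent.WPQ.CY7
import Pool.Agent.WPQ.CY8
import Pool.Agent.WPQ.CY9a
import Pool.Agent.WPQ.CY9b

/-! [WPQ-CY9] Cyclicity.

`cyc_perp`.  `u = lwv nu`, `D = wtExp A p (-nu)`; `N₁ = WT A p D ∋ u`, `N₂ = WT A p n ∋ y, f`; both are `GM`
(`gm_n`) and finite dimensional (`finite_n`).  `F_j u = 0`, `F_j f = 0` (`Fn_zero`: charge `-nu`,
`pr A j (-nu) = -(m_j)`, `m_j = (pr A j nu).toNat`, `lwv_Mn`, `hf`, `En_pow_coe`).  `u ≠ 0`.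
`GM.exists_hom` (GA11): `T₀ : N₁ → N₂`, `T₀ u = f`, equivariant on `K = Cyc E u`; `GM.exists_proj` (GA10) for
`K` (`Cyc_E`, `Cyc_F`, `Cyc_G`): `π : N₁ → N₁` equivariant, `π = id` on `K`, values in `K`.  `T = T₀ ∘ π`:
`N₁ → N₂` commutes with all `E_j`, `G_i`, `T u = f`.
`M = N₂ ⊗ N₁` is a `GM` (`GM.tens`); `y ⊗ u = t + t'`, `t ∈ Inv`, `t' ∈ Co` (`GM.inv_sup_co`, GA9).
(1) For `c ∈ Wk` and `x ∈ Co`: `β(c, Psi k x) = 0`: `x` is a sum of `E_j z`, `G_i z`; `Psi_E`, `Psi_G`;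
`β(c, E_j z) = -β(E_j c, z) = 0` (`beta_Ej`, `Ej_eq`), `β(c, G_i z) = 0`: `c` has charge `0`, only the charge `0`
component of `G_i z` counts (`beta_comp_left` or `beta_ch`), and it is `0` (`Gop_apply`).
(2) `β(c, Psi k (y ⊗ u)) = β(c, y_k u) = 0` (`three_point`).  So `β(c, Psi k t) = 0` for `c ∈ Wk`.
(3) `Psi k t ∈ Wk` (`Psi_E`, `Psi_G`: killed by `E_j` and `G_i`, so the charge is `0`; `Psi_mem`), so
`Psi k t = 0` (`Wk_nondeg_right`) for all `k`, so `t = 0` (`Psi_inj`).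
(4) The functional `φ(a ⊗ b) = β(T b, a)` on `M` kills `Co`: `φ(E_j (a ⊗ b)) = β(T b, E_j a) + β(T E_j b, a) = 0`
(`Bn_E`), `φ(G_i ..) = 0` (`Bn_G`).  So `β(f, y) = φ(y ⊗ u) = φ(t') = 0`.
`Mn_le_PP`: first for homogeneous `f ∈ Vn n`: if `f ∉ PP`, then `f ∉ I := PP ⊓ Wn n` and there is a functional on
`WT A p n` that kills `I` and not `f` (`Submodule.exists_le_ker_of_notMem`), it is `β(·, y)` for some `y ∈ Wn n`
(`surj_dual`, `Bn_left`).  For `x ∈ PP`: `β(x, y) = 0`: on a generator `Tp l (c_s u)` decompose `c` into its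
weight components (`Wk_comp`): each `Tp l (c_s u)` with `c ∈ Wk ⊓ Vn m` is in `Wn` of some weight, equal to
`n` (then in `I`) or not (`beta_wt`).  `cyc_perp`: `β(f, y) = 0`, contradiction.  General `f ∈ Mn`: its weight
components are in `Mn` (the conditions are graded: as `Wk_comp`). -/

namespace WPQ

open MvPolynomial WK GA

noncomputable section

variable {ι : Type} [Fintype ι] [DecidableEq ι] {A : Matrix ι ι ℤ} {p : ℕ}

omit [Fintype ι] [DecidableEq ι] in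
private theorem cy9_mem_Inv {M : Type} [AddCommGroup M] [Module ℂ M]
    {E G : ι → Module.End ℂ M} (v : M) (hv : v ∈ Inv E G) :
    (∀ i, E i v = 0) ∧ ∀ i, G i v = 0 := by
  unfold GA.Inv at hv
  simp only [Submodule.mem_iInf, Submodule.mem_inf, LinearMap.mem_ker] at hv
  exact ⟨fun i => (hv i).1, fun i => (hv i).2⟩

omit [Fintype ι] [DecidableEq ι] in
/-- A functional that kills the images of all `E j`, `G i` kills `Co`. -/
private theorem cy9_Co {M : Type} [AddCommGroup M] [Module ℂ M]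
    {E G : ι → Module.End ℂ M} (φ : M →ₗ[ℂ] ℂ) (hE : ∀ i z, φ (E i z) = 0)
    (hG : ∀ i z, φ (G i z) = 0) (x : M) (hx : x ∈ Co E G) : φ x = 0 := by
  have h : Co E G ≤ LinearMap.ker φ := by
    unfold Co
    refine iSup_le fun i => sup_le ?_ ?_
    · rintro _ ⟨z, rfl⟩
      exact hE i z
    · rintro _ ⟨z, rfl⟩
      exact hG i z
  exact h hx

omit [DecidableEq ι] in
private theorem cy9_pr_neg (j : ι) (x : ι → ℤ) : pr A j (-x) = -pr A j x := by
  have h3 : pr A j (-x) = A.mulVec (-x) j := rfl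
  rw [h3, Matrix.mulVec_neg]
  rfl

private theorem cy9_beta_zero_right (ε : Cocycle A p) (τ : Shift A p) (y : VL ι) :
    beta ε τ y 0 = 0 := by
  have h := beta_smul_right ε τ 0 y 0
  rw [zero_smul, zero_mul] at h
  exact h

private theorem cy9_beta_zero_left (ε : Cocycle A p) (τ : Shift A p) (y : VL ι) :
    beta ε τ 0 y = 0 := by
  have h := beta_smul_left ε τ 0 0 y
  rw [zero_smul, zero_mul] at h
  exact h

/-- (1) `β(c, Psi k x) = 0` for `c ∈ Wk`, `x ∈ Co`. -/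
private theorem cy9_one (hA : IsADE A) (hp : 2 ≤ p) (ε : Cocycle A p) (τ : Shift A p)
    (hτ : τ.s = (2 : ℂ) • bg A p) (n m k : ℤ) (c : VL ι) (hc : c ∈ Wk ε)
    (x : TensorProduct ℂ (WT A p n) (WT A p m))
    (hx : x ∈ Co (M := TensorProduct ℂ (WT A p n) (WT A p m))
      (fun i => tm (En hA hp ε n i) (En hA hp ε m i)) (fun i => tm (Gn A p n i) (Gn A p m i))) :
    beta ε τ c (Psi hA hp ε n m k x) = 0 := by
  have hp1 : 1 ≤ p := by omega
  have hc0 : c ∈ Finsupp.supported (Fock ι) ℂ {(0 : ι → ℤ)} := by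
    rw [Finsupp.mem_supported]
    intro γ hγ
    by_contra hne
    exact (Finsupp.mem_support_iff.1 hγ) (hc.2.1 γ hne)
  have h := cy9_Co (E := fun i => tm (En hA hp ε n i) (En hA hp ε m i))
    (G := fun i => tm (Gn A p n i) (Gn A p m i))
    ((du1_B ε τ c) ∘ₗ Psi hA hp ε n m k) (fun i z => ?_) (fun i z => ?_) x hx
  · exact h
  · change beta ε τ c (Psi hA hp ε n m k (tm (En hA hp ε n i) (En hA hp ε m i) z)) = 0
    rw [Psi_E]
    have h1 := beta_Ej hA hp1 ε τ hτ i c (Psi hA hp ε n m k z)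
    rw [Ej_eq hA hp1, hc.2.2 i, cy9_beta_zero_left] at h1
    rw [Ej_eq hA hp1]
    exact neg_eq_zero.1 h1.symm
  · change beta ε τ c (Psi hA hp ε n m k (tm (Gn A p n i) (Gn A p m i) z)) = 0
    rw [Psi_G, beta_comp_right hA hp ε τ hτ 0 c _ hc0, neg_zero, Gop_apply, Pi.zero_apply,
      Int.cast_zero, zero_smul, Finsupp.single_zero, cy9_beta_zero_right]

/-- (3) `Psi k t ∈ Wk` for `t ∈ Inv`. -/
private theorem cy9_three (hA : IsADE A) (hp : 2 ≤ p) (ε : Cocycle A p) (n m k : ℤ)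
    (t : TensorProduct ℂ (WT A p n) (WT A p m))
    (ht : t ∈ Inv (M := TensorProduct ℂ (WT A p n) (WT A p m))
      (fun i => tm (En hA hp ε n i) (En hA hp ε m i)) (fun i => tm (Gn A p n i) (Gn A p m i))) :
    Psi hA hp ε n m k t ∈ Wk ε := by
  have hp1 : 1 ≤ p := by omega
  have hi := cy9_mem_Inv t ht
  refine ⟨(Submodule.mem_inf.1 (Psi_mem hA hp ε n m k t)).1, fun γ hγ => ?_, fun j => ?_⟩
  · obtain ⟨i, hne⟩ := Function.ne_iff.1 hγ
    have h1 := Psi_G hA hp ε n m k i t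
    rw [hi.2 i, map_zero] at h1
    have h2 := congrArg (fun w : VL ι => w γ) h1.symm
    simp only [Gop_apply, Finsupp.zero_apply] at h2
    exact (smul_eq_zero.1 h2).resolve_left (Int.cast_ne_zero.2 hne)
  · have h1 := Psi_E hA hp ε n m k j t
    rw [hi.1 j, map_zero] at h1
    rw [← Ej_eq hA hp1]
    exact h1.symm

/-- The equivariant map `T`. -/
private theorem cy9_T (hA : IsADE A) (hp : 2 ≤ p) (ε : Cocycle A p) (nu : ι → ℤ)
    (hd : Dom A nu) (n : ℤ) (f : VL ι) (hf : f ∈ Mn ε nu)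
    (U : WT A p (wtExp A p (-nu))) (hU : cv A p _ U = lwv nu) (V : WT A p n)
    (hV : cv A p n V = f) :
    ∃ T : WT A p (wtExp A p (-nu)) →ₗ[ℂ] WT A p n, T U = V ∧
      (∀ i v, T (En hA hp ε (wtExp A p (-nu)) i v) = En hA hp ε n i (T v)) ∧
      ∀ i v, T (Gn A p (wtExp A p (-nu)) i v) = Gn A p n i (T v) := by
  have hfin1 := finite_n hA hp (wtExp A p (-nu))
  have hfin2 := finite_n hA hp n
  obtain ⟨F1, h1⟩ := gm_n hA hp ε (wtExp A p (-nu))
  obtain ⟨F2, h2⟩ := gm_n hA hp ε n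
  have hf' := (mem_Mn ε nu f).1 hf
  have hl' := (mem_Mn ε nu (lwv nu)).1 (lwv_Mn hA hp ε nu hd)
  have hUw : Wt (Gn A p (wtExp A p (-nu))) (-nu) U := fun i =>
    Gn_S0 (wtExp A p (-nu)) i U (-nu) 1 hU
  have hfs : f = Finsupp.single (-nu) (f (-nu)) := by
    ext1 γ
    by_cases hγ : γ = -nu
    · rw [hγ, Finsupp.single_eq_same]
    · rw [Finsupp.single_eq_of_ne hγ]
      by_contra hne
      exact hγ ((Finsupp.mem_supported _ _).1 hf'.2.1 (Finsupp.mem_support_iff.2 hne))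
  have hVw : Wt (Gn A p n) (-nu) V := fun i =>
    Gn_S0 n i V (-nu) (f (-nu)) (hV.trans hfs)
  have hU0 : U ≠ 0 := by
    intro h0
    have h3 := hU
    rw [h0, map_zero] at h3
    exact (Finsupp.single_ne_zero.2 one_ne_zero) h3.symm
  have hm : ∀ i, pr A i (-nu) = -(((pr A i nu).toNat : ℕ) : ℤ) := by
    intro i
    rw [cy9_pr_neg, Int.toNat_of_nonneg (hd i)]
  have hFU : ∀ i, F1 i U = 0 := by
    intro i
    refine Fn_zero hA hp ε _ F1 h1 i (-nu) _ (hm i) U hUw (cv_inj _ ?_)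
    rw [En_pow_coe, hU, hl'.2.2 i, map_zero]
  have hFV : ∀ i, F2 i V = 0 := by
    intro i
    refine Fn_zero hA hp ε n F2 h2 i (-nu) _ (hm i) V hVw (cv_inj _ ?_)
    rw [En_pow_coe, hV, hf'.2.2 i, map_zero]
  obtain ⟨T0, hT0, hTE, hTG⟩ := GM.exists_hom hA h2 h1 (-nu) U V hUw hVw hU0 hFU hFV
  obtain ⟨π, hπ1, hπ2, hπE, hπG⟩ := h1.exists_proj hA (Cyc (En hA hp ε (wtExp A p (-nu))) U)
    (fun i v hv => Cyc_E _ U i v hv) (fun i v hv => Cyc_F h1 (-nu) U hUw hFU i v hv)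
    (fun i v hv => Cyc_G h1 (-nu) U hUw i v hv)
  refine ⟨T0 ∘ₗ π, ?_, fun i v => ?_, fun i v => ?_⟩
  · rw [LinearMap.comp_apply, hπ2 U (mem_Cyc _ U), hT0]
  · rw [LinearMap.comp_apply, LinearMap.comp_apply, hπE, hTE i _ (hπ1 v)]
  · rw [LinearMap.comp_apply, LinearMap.comp_apply, hπG, hTG i _ (hπ1 v)]

theorem cyc_perp (hA : IsADE A) (hp : 2 ≤ p) (ε : Cocycle A p) (τ : Shift A p)
    (hτ : τ.s = (2 : ℂ) • bg A p) (nu : ι → ℤ) (hd : Dom A nu) (n : ℤ) (y : VL ι)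
    (hy : y ∈ Wn A p n) (h : ∀ x ∈ PP ε nu, beta ε τ x y = 0) (f : VL ι) (hf : f ∈ Mn ε nu)
    (hfn : f ∈ Vn A p n) : beta ε τ f y = 0 := by
  have hp1 : 1 ≤ p := by omega
  have hfin1 := finite_n hA hp (wtExp A p (-nu))
  have hfin2 := finite_n hA hp n
  obtain ⟨F1, h1⟩ := gm_n hA hp ε (wtExp A p (-nu))
  obtain ⟨F2, h2⟩ := gm_n hA hp ε n
  have hf' := (mem_Mn ε nu f).1 hf
  obtain ⟨U, hU⟩ : ∃ U : WT A p (wtExp A p (-nu)), cv A p _ U = lwv nu :=
    ⟨mkW _ (lwv nu) (Submodule.mem_inf.2 ⟨lwv_mem_W hA hp nu hd, lwv_Vn nu⟩), rfl⟩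
  obtain ⟨V, hV⟩ : ∃ V : WT A p n, cv A p n V = f :=
    ⟨mkW n f (Submodule.mem_inf.2 ⟨hf'.1, hfn⟩), rfl⟩
  obtain ⟨Y, hY⟩ : ∃ Y : WT A p n, cv A p n Y = y := ⟨mkW n y hy, rfl⟩
  obtain ⟨T, hTU, hTE, hTG⟩ := cy9_T hA hp ε nu hd n f hf U hU V hV
  have hsup := (GM.tens h1 h2).inv_sup_co hA
  have hmem : Y ⊗ₜ[ℂ] U ∈ (⊤ : Submodule ℂ (TensorProduct ℂ (WT A p n)
      (WT A p (wtExp A p (-nu))))) := Submodule.mem_top
  rw [← hsup] at hmem
  obtain ⟨t, ht, t', ht', hsum⟩ := Submodule.mem_sup.1 hmem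
  -- `Psi k t = 0`
  have hPsi : ∀ k : ℤ, Psi hA hp ε n (wtExp A p (-nu)) k t = 0 := by
    intro k
    refine Wk_nondeg_right hA hp ε τ hτ _ _ (cy9_three hA hp ε n _ k t ht)
      (Submodule.mem_inf.1 (Psi_mem hA hp ε n _ k t)).2 fun c hc _ => ?_
    have e1 := cy9_one hA hp ε τ hτ n _ k c hc t' ht'
    have e2 : beta ε τ c (Psi hA hp ε n (wtExp A p (-nu)) k (Y ⊗ₜ[ℂ] U)) = 0 := by
      rw [Psi_tmul, hY, hU]
      exact three_point hA hp ε τ hτ nu hd y hy.1 h c hc k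
    rw [← hsum, map_add, beta_add_right, e1, add_zero] at e2
    exact e2
  have ht0 : t = 0 := Psi_inj hA hp ε n _ t hPsi
  -- the functional `β(T b, a)`
  have hphi : (TensorProduct.lift ((Bn ε τ n).flip.compl₂ T)) t' = 0 := by
    refine cy9_Co (E := fun i => tm (En hA hp ε n i) (En hA hp ε (wtExp A p (-nu)) i))
      (G := fun i => tm (Gn A p n i) (Gn A p (wtExp A p (-nu)) i)) _ (fun i z => ?_)
      (fun i z => ?_) t' ht'
    · have e1 : (TensorProduct.lift ((Bn ε τ n).flip.compl₂ T)) ∘ₗ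
          (tm (En hA hp ε n i) (En hA hp ε (wtExp A p (-nu)) i)) = 0 := by
        refine TensorProduct.ext' fun a b => ?_
        rw [LinearMap.comp_apply, tm, LinearMap.add_apply, LinearMap.rTensor_tmul,
          LinearMap.lTensor_tmul, map_add, TensorProduct.lift.tmul, TensorProduct.lift.tmul,
          LinearMap.compl₂_apply, LinearMap.compl₂_apply, LinearMap.flip_apply,
          LinearMap.flip_apply, hTE, Bn_E hA hp ε τ hτ, add_neg_cancel, LinearMap.zero_apply]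
      exact LinearMap.congr_fun e1 z
    · have e1 : (TensorProduct.lift ((Bn ε τ n).flip.compl₂ T)) ∘ₗ
          (tm (Gn A p n i) (Gn A p (wtExp A p (-nu)) i)) = 0 := by
        refine TensorProduct.ext' fun a b => ?_
        rw [LinearMap.comp_apply, tm, LinearMap.add_apply, LinearMap.rTensor_tmul,
          LinearMap.lTensor_tmul, map_add, TensorProduct.lift.tmul, TensorProduct.lift.tmul,
          LinearMap.compl₂_apply, LinearMap.compl₂_apply, LinearMap.flip_apply,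
          LinearMap.flip_apply, hTG, Bn_G hA hp ε τ hτ, add_neg_cancel, LinearMap.zero_apply]
      exact LinearMap.congr_fun e1 z
  have e3 : (TensorProduct.lift ((Bn ε τ n).flip.compl₂ T)) (Y ⊗ₜ[ℂ] U) = 0 := by
    rw [← hsum, map_add, hphi, ht0, map_zero, add_zero]
  rw [TensorProduct.lift.tmul, LinearMap.compl₂_apply, LinearMap.flip_apply, hTU, Bn_apply, hV,
    hY] at e3
  exact e3

end

end WPQ
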