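import Pool.Agent.WPQ.CY9
import Pool.Agent.WPQ.AS0

/-! [WPQ-CY9c] Cyclicity: conclusion.

See the paragraph `Mn_le_PP` in CY9.  `Mn_comp`: components for the conformal weight (same proof as
`Wk_comp` in CY0: `W`, the charge condition and the kernels of `E_j^{m_j+1}` are graded, `Ej_Vn`). -/

namespace WPQ

open MvPolynomial WK GA

noncomputable section

variable {ι : Type} [Fintype ι] [DecidableEq ι] {A : Matrix ι ι ℤ} {p : ℕ}

theorem cy9c_indep (hA : IsADE A) (hp : 1 ≤ p) (s : Finset ℤ) :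
    ∀ g : ℤ → VL ι, (∀ n, g n ∈ Vn A p n) → ∑ n ∈ s, g n = 0 → ∀ n ∈ s, g n = 0 := by
  induction s using Finset.induction_on with
  | empty =>
    intro g _ _ n hn
    exact absurd hn (Finset.notMem_empty n)
  | insert a s ha ih =>
    intro g hg h
    have h0 : (LS (Shift.zero A p) 0 - (a : ℂ) • (LinearMap.id : VL ι →ₗ[ℂ] VL ι))
        (∑ n ∈ insert a s, g n) = 0 := by rw [h, map_zero]
    rw [map_sum, Finset.sum_insert ha] at h0
    have hL : ∀ n, (LS (Shift.zero A p) 0 - (a : ℂ) • (LinearMap.id : VL ι →ₗ[ℂ] VL ι)) (g n) =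
        ((n : ℂ) - a) • g n := by
      intro n
      rw [LinearMap.sub_apply, LinearMap.smul_apply, LinearMap.id_apply,
        LS_zero_Vn hA hp n (g n) (hg n), sub_smul]
    rw [hL a, sub_self, zero_smul, zero_add, Finset.sum_congr rfl fun n _ => hL n] at h0
    have h1 := ih (fun n => ((n : ℂ) - a) • g n)
      (fun n => Submodule.smul_mem _ _ (hg n)) h0
    have h2 : ∀ n ∈ s, g n = 0 := by
      intro n hn
      have h3 := h1 n hn
      rcases smul_eq_zero.1 h3 with h4 | h4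
      · exfalso
        rw [sub_eq_zero] at h4
        have h5 : n = a := by exact_mod_cast h4
        rw [h5] at hn
        exact ha hn
      · exact h4
    intro n hn
    rcases Finset.mem_insert.1 hn with h3 | h3
    · rw [h3]
      rw [Finset.sum_insert ha, Finset.sum_eq_zero h2, add_zero] at h
      exact h
    · exact h2 n h3

theorem cy9c_pow_Vn (hA : IsADE A) (ε : Cocycle A p) (j : ι) (n : ℤ) (k : ℕ) (v : VL ι)
    (hv : v ∈ Vn A p n) : (Ej ε (Shift.zero A p) j ^ k) v ∈ Vn A p n := by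
  induction k with
  | zero =>
    rw [pow_zero]
    exact hv
  | succ k ih =>
    rw [pow_succ', Module.End.mul_apply]
    exact Ej_Vn hA ε j n _ ih

theorem Mn_comp (hA : IsADE A) (hp : 2 ≤ p) (ε : Cocycle A p) (nu : ι → ℤ) (c : VL ι)
    (hc : c ∈ Mn ε nu) :
    ∃ (s : Finset ℤ) (f : ℤ → VL ι), (∀ n, f n ∈ Mn ε nu ∧ f n ∈ Vn A p n) ∧
      c = ∑ n ∈ s, f n := by
  have hp1 : 1 ≤ p := by omega
  rw [mem_Mn] at hc
  obtain ⟨hcW, hcS, hcE⟩ := hc
  have hc1 := va4_supp_single (-nu) c hcS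
  set φ : Fock ι := c (-nu) with hφ
  have hfW : Finsupp.single (-nu) φ ∈ W A p := W_comp c hcW (-nu)
  set S : Finset ℕ := (weightedHomogeneousComponent_finsupp (w := wF (ι := ι)) φ).toFinset with hS
  have hsum : φ = ∑ d ∈ S, weightedHomogeneousComponent (wF (ι := ι)) d φ := by
    have h1 := sum_weightedHomogeneousComponent (wF (ι := ι)) φ
    rw [finsum_eq_sum _ (weightedHomogeneousComponent_finsupp φ)] at h1
    exact h1.symm
  set w : ℤ := wtExp A p (-nu) with hw
  -- the components, indexed by the weight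
  let F : ℤ → VL ι := fun n => if 0 ≤ n - w then
    Finsupp.single (-nu) (weightedHomogeneousComponent (wF (ι := ι)) (n - w).toNat φ) else 0
  have hFV : ∀ n, F n ∈ Vn A p n := by
    intro n
    by_cases h : 0 ≤ n - w
    · have h1 : F n = Finsupp.single (-nu)
          (weightedHomogeneousComponent (wF (ι := ι)) (n - w).toNat φ) := if_pos h
      rw [h1]
      refine single_mem_Vn (-nu) _ (n - w).toNat
        (weightedHomogeneousComponent_isWeightedHomogeneous _ _) n ?_
      rw [← hw]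
      omega
    · have h1 : F n = 0 := if_neg h
      rw [h1]
      exact Submodule.zero_mem _
  have hFW : ∀ n, F n ∈ W A p := by
    intro n
    by_cases h : 0 ≤ n - w
    · have h1 : F n = Finsupp.single (-nu)
          (weightedHomogeneousComponent (wF (ι := ι)) (n - w).toNat φ) := if_pos h
      rw [h1]
      exact W_homog (-nu) φ hfW _
    · have h1 : F n = 0 := if_neg h
      rw [h1]
      exact Submodule.zero_mem _
  have hFS : ∀ n, F n ∈ Finsupp.supported (Fock ι) ℂ {-nu} := by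
    intro n
    by_cases h : 0 ≤ n - w
    · have h1 : F n = Finsupp.single (-nu)
          (weightedHomogeneousComponent (wF (ι := ι)) (n - w).toNat φ) := if_pos h
      rw [h1]
      exact Finsupp.single_mem_supported ℂ _ (Set.mem_singleton _)
    · have h1 : F n = 0 := if_neg h
      rw [h1]
      exact Submodule.zero_mem _
  let T : Finset ℤ := S.image fun d : ℕ => (d : ℤ) + w
  have hcF : c = ∑ n ∈ T, F n := by
    have h1 : ∑ n ∈ T, F n = ∑ d ∈ S, F ((d : ℤ) + w) := by
      refine Finset.sum_image ?_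
      intro a _ b _ hab
      have h2 : (a : ℤ) + w = (b : ℤ) + w := hab
      omega
    have h2 : ∀ d ∈ S, F ((d : ℤ) + w) =
        Finsupp.single (-nu) (weightedHomogeneousComponent (wF (ι := ι)) d φ) := by
      intro d _
      have h3 : 0 ≤ (d : ℤ) + w - w := by omega
      have h4 : F ((d : ℤ) + w) = Finsupp.single (-nu)
          (weightedHomogeneousComponent (wF (ι := ι)) ((d : ℤ) + w - w).toNat φ) := if_pos h3
      have h5 : ((d : ℤ) + w - w).toNat = d := by omega
      rw [h4, h5]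
    rw [h1, Finset.sum_congr rfl h2, hc1]
    rw [← Finsupp.single_finsetSum, ← hsum]
  have hF0 : ∀ n, n ∉ T → F n = 0 := by
    intro n hn
    by_cases h : 0 ≤ n - w
    · have h1 : F n = Finsupp.single (-nu)
          (weightedHomogeneousComponent (wF (ι := ι)) (n - w).toNat φ) := if_pos h
      rw [h1]
      have h2 : (n - w).toNat ∉ S := by
        intro h3
        apply hn
        refine Finset.mem_image.2 ⟨(n - w).toNat, h3, ?_⟩
        omega
      have h3 : weightedHomogeneousComponent (wF (ι := ι)) (n - w).toNat φ = 0 := by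
        by_contra h4
        apply h2
        exact (Set.Finite.mem_toFinset _).2 h4
      rw [h3, Finsupp.single_zero]
    · have h1 : F n = 0 := if_neg h
      exact h1
  refine ⟨T, F, fun n => ⟨?_, hFV n⟩, hcF⟩
  rw [mem_Mn]
  refine ⟨hFW n, hFS n, fun j => ?_⟩
  by_cases hn : n ∈ T
  · refine cy9c_indep hA hp1 T
      (fun n => (Ej ε (Shift.zero A p) j ^ ((pr A j nu).toNat + 1)) (F n))
      (fun n => cy9c_pow_Vn hA ε j n _ _ (hFV n)) ?_ n hn
    rw [← map_sum, ← hcF]
    exact hcE j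
  · rw [hF0 n hn, map_zero]

theorem cy9c_mode_sum (hA : IsADE A) (hp : 1 ≤ p) (ε : Cocycle A p) (s : Finset ℤ)
    (g : ℤ → VL ι) (k : ℤ) (v : VL ι) :
    mode ε (∑ n ∈ s, g n) k v = ∑ n ∈ s, mode ε (g n) k v := by
  induction s using Finset.induction_on with
  | empty => rw [Finset.sum_empty, Finset.sum_empty, va3_mode_zero hA hp, LinearMap.zero_apply]
  | insert a s ha ih =>
    rw [Finset.sum_insert ha, Finset.sum_insert ha, mode_add hA hp, LinearMap.add_apply, ih]

theorem cy9c_Tp_Vn (l : ℕ) (n : ℤ) (v : VL ι) (hv : v ∈ Vn A p n) :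
    Tp l v ∈ Vn A p (n + l) := by
  induction l with
  | zero =>
    have h1 : Tp 0 v = v := rfl
    rw [h1]
    simpa using hv
  | succ l ih =>
    have h1 : Tp (l + 1) v = transl (Tp l v) := by
      unfold Tp
      rw [pow_succ', Module.End.mul_apply]
    rw [h1, ← LS_zero_neg_one (A := A) (p := p)]
    have h2 := LS_Vn (A := A) (p := p) (-1) _ _ ih
    have h3 : n + ((l + 1 : ℕ) : ℤ) = n + (l : ℤ) - -1 := by
      push_cast
      ring
    rw [h3]
    exact h2

theorem cy9c_hom (hA : IsADE A) (hp : 2 ≤ p) (ε : Cocycle A p) (nu : ι → ℤ) (hd : Dom A nu)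
    (n : ℤ) (f : VL ι) (hf : f ∈ Mn ε nu) (hfn : f ∈ Vn A p n) : f ∈ PP ε nu := by
  by_contra hnot
  have hp1 : 1 ≤ p := by omega
  obtain ⟨τ, hτ⟩ := exists_tau (p := p) hA (by omega)
  have hVf : FiniteDimensional ℂ (Vn A p n) := Vn_finite hA (by omega) n
  have hW : FiniteDimensional ℂ (Wn A p n) := Submodule.finiteDimensional_inf_right _ _
  have hsurj := du1_surj (V := Wn A p n)
    ((du1_B ε τ).flip.domRestrict₁₂ (Wn A p n) (Wn A p n)) fun v hv => by
      refine Subtype.ext (beta_right hA hp ε τ hτ n v v.2 fun t ht => ?_)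
      rw [du1_eq hA hp ε τ hτ n] at ht
      exact hv ⟨t, ht⟩
  have hfW : f ∈ Wn A p n := ⟨((mem_Mn ε nu f).1 hf).1, hfn⟩
  have hnot' : (⟨f, hfW⟩ : Wn A p n) ∉ (PP ε nu).comap (Wn A p n).subtype := hnot
  obtain ⟨φ, hφf, hφI⟩ := as0_fun (V := Wn A p n) ((PP ε nu).comap (Wn A p n).subtype)
    ⟨f, hfW⟩ hnot'
  obtain ⟨y, hy⟩ := hsurj φ
  have hB : ∀ x : Wn A p n, beta ε τ x y = φ x := by
    intro x
    rw [← hy]
    rfl
  have hgen1 : ∀ c ∈ Wk ε, ∀ m : ℤ, c ∈ Vn A p m → ∀ (s : ℤ) (l : ℕ),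
      (du1_B ε τ).flip y (Tp l (mode ε c s (lwv nu))) = 0 := by
    intro c hc m hcm s l
    have hcW : c ∈ W A p := hc.1
    have h1 : mode ε c s (lwv nu) ∈ Wn A p (m + wtExp A p (-nu) - s - 1) :=
      mode_Wn hA hp ε m (wtExp A p (-nu)) s c (lwv nu) ⟨hcW, hcm⟩
        ⟨lwv_mem_W hA hp nu hd, lwv_Vn nu⟩
    have h2 : Tp l (mode ε c s (lwv nu)) ∈ Wn A p (m + wtExp A p (-nu) - s - 1 + l) :=
      ⟨Tp_mem hA hp l _ h1.1, cy9c_Tp_Vn l _ _ h1.2⟩
    rw [ad1_Bf]
    by_cases hn : m + wtExp A p (-nu) - s - 1 + l = n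
    · rw [hn] at h2
      have h3 := hφI ⟨Tp l (mode ε c s (lwv nu)), h2⟩
        (Submodule.subset_span ⟨c, hc, s, l, rfl⟩)
      rw [← hB] at h3
      exact h3
    · exact beta_wt hA hp ε τ hτ _ n _ _ h2.2 y.2.2 hn
  have hPP : ∀ x ∈ PP ε nu, beta ε τ x y = 0 := by
    have h1 : PP ε nu ≤ LinearMap.ker ((du1_B ε τ).flip (y : VL ι)) := by
      refine Submodule.span_le.2 ?_
      rintro x ⟨c, hc, s, l, rfl⟩
      rw [SetLike.mem_coe, LinearMap.mem_ker]
      obtain ⟨S, g, hg, hcS⟩ := Wk_comp hA hp ε c hc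
      rw [hcS, cy9c_mode_sum hA hp1, map_sum, map_sum]
      exact Finset.sum_eq_zero fun m _ => hgen1 (g m) (hg m).1 m (hg m).2 s l
    intro x hx
    have h2 := h1 hx
    rw [LinearMap.mem_ker, ad1_Bf] at h2
    exact h2
  apply hφf
  rw [← hB]
  exact cyc_perp hA hp ε τ hτ nu hd n y y.2 hPP f hf hfn

/-- Cyclicity: `M_ν` is spanned by the vectors `T^l c_s 1_{-ν}`, `c ∈ V^G`. -/
theorem Mn_le_PP (hA : IsADE A) (hp : 2 ≤ p) (ε : Cocycle A p) (nu : ι → ℤ) (hd : Dom A nu) :
    Mn ε nu ≤ PP ε nu := by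
  intro c hc
  obtain ⟨S, g, hg, hcS⟩ := Mn_comp hA hp ε nu c hc
  rw [hcS]
  exact Submodule.sum_mem _ fun n _ => cy9c_hom hA hp ε nu hd n (g n) (hg n).1 (hg n).2

end

end WPQ
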