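import Pool.Agent.WPQ.GA11
import Pool.Agent.WPQ.WKM
import Pool.Agent.WPQ.AD1

/-! [WPQ-CYD] Cyclicity `M_ν = V^G 1_{-ν}`: definitions (block CY, helper50). -/

namespace WPQ

open MvPolynomial WK GA

noncomputable section

variable {ι : Type} [Fintype ι] [DecidableEq ι] {A : Matrix ι ι ℤ} {p : ℕ}

/-- The vector `1_{-ν} = e^{-ν}`. -/
def lwv (nu : ι → ℤ) : VL ι := Finsupp.single (-nu) 1

/-- `M_ν`: the vectors `v` of `W(p)_Q` of charge `-ν` with `E_j^{m_j+1} v = 0`, `m_j = (α_j, ν)`. -/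
def Mn {A : Matrix ι ι ℤ} {p : ℕ} (ε : Cocycle A p) (nu : ι → ℤ) : Submodule ℂ (VL ι) :=
  W A p ⊓ Finsupp.supported (Fock ι) ℂ {-nu} ⊓
    ⨅ j, LinearMap.ker (Ej ε (Shift.zero A p) j ^ ((pr A j nu).toNat + 1))

/-- The powers of the translation operator. -/
def Tp (l : ℕ) : VL ι →ₗ[ℂ] VL ι := transl ^ l

/-- The space spanned by the vectors `T^l c_s 1_{-ν}`, `c ∈ V^G`. -/
def PP {A : Matrix ι ι ℤ} {p : ℕ} (ε : Cocycle A p) (nu : ι → ℤ) : Submodule ℂ (VL ι) :=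
  Submodule.span ℂ {x | ∃ c ∈ Wk ε, ∃ (s : ℤ) (l : ℕ), x = Tp l (mode ε c s (lwv nu))}

/-- `W(p)_Q` as a type. -/
def WV (A : Matrix ι ι ℤ) (p : ℕ) : Type := W A p

instance : AddCommGroup (WV A p) := inferInstanceAs (AddCommGroup (W A p))

instance : Module ℂ (WV A p) := inferInstanceAs (Module ℂ (W A p))

/-- The vector of `V_L`. -/
def wv (A : Matrix ι ι ℤ) (p : ℕ) : WV A p →ₗ[ℂ] VL ι := (W A p).subtype

/-- The elements of `WV`. -/
def toWV (v : VL ι) (hv : v ∈ W A p) : WV A p := ⟨v, hv⟩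

/-- The mode `a_k` on `W(p)_Q`. -/
def mW (hA : IsADE A) (hp : 2 ≤ p) (ε : Cocycle A p) (a : WV A p) (k : ℤ) :
    Module.End ℂ (WV A p) :=
  (mode ε (wv A p a) k).restrict fun v hv => W_closed hA hp ε (wv A p a) v a.2 hv k

/-- The algebra of operators on `W(p)_Q` generated by the modes. -/
def RA (hA : IsADE A) (hp : 2 ≤ p) (ε : Cocycle A p) : Subalgebra ℂ (Module.End ℂ (WV A p)) :=
  Algebra.adjoin ℂ {T | ∃ (a : WV A p) (k : ℤ), T = mW hA hp ε a k}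

/-- The vacuum in `WV`. -/
def vacW (hA : IsADE A) (hp : 2 ≤ p) : WV A p := toWV vac (vac_mem_W hA (by omega))

/-- The map `V(n) ⊗ V(m) → V`, `a ⊗ b ↦ a_k b`. -/
def Psi (hA : IsADE A) (hp : 2 ≤ p) (ε : Cocycle A p) (n m : ℤ) (k : ℤ) :
    TensorProduct ℂ (WT A p n) (WT A p m) →ₗ[ℂ] VL ι :=
  TensorProduct.lift (LinearMap.mk₂ ℂ (fun a b => mode ε (cv A p n a) k (cv A p m b))
    (fun a a' b => by rw [map_add, mode_add hA (by omega), LinearMap.add_apply])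
    (fun c a b => by rw [map_smul, mode_smul hA (by omega), LinearMap.smul_apply])
    (fun a b b' => by rw [map_add, map_add])
    (fun c a b => by rw [map_smul, map_smul]))

theorem Psi_tmul (hA : IsADE A) (hp : 2 ≤ p) (ε : Cocycle A p) (n m : ℤ) (k : ℤ) (a : WT A p n)
    (b : WT A p m) : Psi hA hp ε n m k (a ⊗ₜ[ℂ] b) = mode ε (cv A p n a) k (cv A p m b) := rfl

theorem wv_inj : Function.Injective (wv A p) := Subtype.val_injective

theorem wv_mem (v : WV A p) : wv A p v ∈ W A p := v.2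

theorem wv_mW (hA : IsADE A) (hp : 2 ≤ p) (ε : Cocycle A p) (a v : WV A p) (k : ℤ) :
    wv A p (mW hA hp ε a k v) = mode ε (wv A p a) k (wv A p v) := rfl

theorem wv_vac (hA : IsADE A) (hp : 2 ≤ p) : wv A p (vacW hA hp) = vac := rfl

theorem mem_Mn (ε : Cocycle A p) (nu : ι → ℤ) (v : VL ι) : v ∈ Mn ε nu ↔ v ∈ W A p ∧
    v ∈ Finsupp.supported (Fock ι) ℂ {-nu} ∧
    ∀ j, (Ej ε (Shift.zero A p) j ^ ((pr A j nu).toNat + 1)) v = 0 := by
  unfold Mn
  rw [Submodule.mem_inf, Submodule.mem_inf, Submodule.mem_iInf, and_assoc]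
  rfl

end

end WPQ
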