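import Mathlib

/-!
# The lattice vertex algebra `V_L`, `L = √p Q`, and the algebra `W(p)_Q`

Notation.  `Q` is the root lattice with simple roots `α_i` (`i : ι`) and Gram matrix `A`
(an ADE Cartan matrix), `L = √p Q` with basis `b_i = √p α_i`.  All charges are written in the
basis `b_i`: a vector `ν : ι → ℂ` stands for `∑ ν_i b_i ∈ 𝔥 = ℂ ⊗ L`, and
`form A p ν η = p ∑ ν_i A_ij η_j` is the bilinear form of `𝔥`.
-/

namespace WPQ

open MvPolynomial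

noncomputable section

/-- `A` is the Gram matrix of the simple roots of a simply laced root lattice (ADE Cartan
matrix; orthogonal sums are allowed). -/
structure IsADE {ι : Type} [Fintype ι] (A : Matrix ι ι ℤ) : Prop where
  symm : ∀ i j, A i j = A j i
  diag : ∀ i, A i i = 2
  off : ∀ i j, i ≠ j → A i j = 0 ∨ A i j = -1
  pos : ∀ c : ι → ℤ, c ≠ 0 → 0 < ∑ i, ∑ j, c i * A i j * c j

variable {ι : Type} [Fintype ι] [DecidableEq ι]

/-- The bilinear form of `𝔥 = ℂ ⊗ √p Q` in the basis `b_i = √p α_i`. -/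
def form (A : Matrix ι ι ℤ) (p : ℕ) (ν η : ι → ℂ) : ℂ :=
  p * ∑ i, ∑ j, ν i * (A i j : ℂ) * η j

/-- The (integral, even) bilinear form of the lattice `L = √p Q`. -/
def formZ (A : Matrix ι ι ℤ) (p : ℕ) (γ η : ι → ℤ) : ℤ :=
  p * ∑ i, ∑ j, γ i * A i j * η j

/-- The Fock space `M(1) = S(𝔥 ⊗ t⁻¹ℂ[t⁻¹])`; the variable `X (i, k)` is the vector
`b_i(-(k+1)) 1 / (k+1)`. -/
abbrev Fock (ι : Type) : Type := MvPolynomial (ι × ℕ) ℂ

/-- `osc ν k` is `ν(-(k+1)) 1 / (k+1)`. -/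
def osc (ν : ι → ℂ) (k : ℕ) : Fock ι := ∑ i, C (ν i) * X (i, k)

/-- The coefficients of `exp (∑_{k ≥ 1} ν(-k) z^k / k) = ∑_n expCoeff ν n z^n`,
computed by `(n+1) E_{n+1} = ∑_{k ≤ n} ν(-(k+1)) E_{n-k}`. -/
def expCoeff (ν : ι → ℂ) : ℕ → Fock ι
  | 0 => 1
  | n + 1 => C ((n + 1 : ℂ)⁻¹) *
      ∑ k : Fin (n + 1), C (k + 1 : ℂ) * osc ν k * expCoeff ν (n - k)
  decreasing_by omega

/-- The same, indexed by integers (`0` for negative index). -/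
def expCoeffZ (ν : ι → ℂ) (m : ℤ) : Fock ι := if m < 0 then 0 else expCoeff ν m.toNat

/-- The annihilation part `exp (-∑_{k ≥ 1} ν(k) z^{-k} / k)` of the vertex operator of charge
`ν`: it is the algebra homomorphism that sends `b_i(-k)1/k` to
`b_i(-k)1/k - ⟨b_i, ν⟩ z^{-k} / k`.  The polynomial variable is `z⁻¹`. -/
def annih (A : Matrix ι ι ℤ) (p : ℕ) (ν : ι → ℂ) : Fock ι →ₐ[ℂ] Polynomial (Fock ι) :=
  aeval fun x : ι × ℕ =>
    Polynomial.C (X x) -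
      Polynomial.C (C (form A p (Pi.single x.1 1) ν / (x.2 + 1))) * Polynomial.X ^ (x.2 + 1)

/-- `vop A p ν m` is the coefficient of `z^m` in the normally ordered exponential
`Γ_ν(z) = exp (∑_{k ≥ 1} ν(-k) z^k / k) exp (-∑_{k ≥ 1} ν(k) z^{-k} / k)` acting on `M(1)`. -/
def vop (A : Matrix ι ι ℤ) (p : ℕ) (ν : ι → ℂ) (m : ℤ) : Fock ι →ₗ[ℂ] Fock ι :=
  (Polynomial.lsum fun q : ℕ => LinearMap.mulLeft ℂ (expCoeffZ ν (m + q))) ∘ₗ
    (annih A p ν).toLinearMap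

/-- A bimultiplicative cocycle `ε : L × L → {±1}` with `ε(γ,η) ε(η,γ) = (-1)^⟨γ,η⟩`. -/
structure Cocycle (A : Matrix ι ι ℤ) (p : ℕ) where
  ε : (ι → ℤ) → (ι → ℤ) → ℤˣ
  add_left : ∀ γ γ' η, ε (γ + γ') η = ε γ η * ε γ' η
  add_right : ∀ γ η η', ε γ (η + η') = ε γ η * ε γ η'
  comm : ∀ γ η, ε γ η * ε η γ = Int.negOnePow (formZ A p γ η)

/-- The underlying space `V_L = M(1) ⊗ ℂ[L]`: `Finsupp.single γ f` is `f ⊗ e^γ`. -/
abbrev VL (ι : Type) : Type := (ι → ℤ) →₀ Fock ι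

/-- The vacuum. -/
def vac : VL ι := Finsupp.single 0 1

/-- Integral charges as complex charges. -/
def toC (γ : ι → ℤ) : ι → ℂ := fun i => (γ i : ℂ)

/-- The modes of `Y(e^γ, z) = ∑ e^γ_n z^{-n-1}` on `V_L`: on `M(1) ⊗ e^η` one has
`Y(e^γ, z) (f ⊗ e^η) = ε(γ,η) z^{⟨γ,η⟩} Γ_γ(z) f ⊗ e^{γ+η}`. -/
def expMode {A : Matrix ι ι ℤ} {p : ℕ} (ε : Cocycle A p) (γ : ι → ℤ) (n : ℤ) :
    VL ι →ₗ[ℂ] VL ι :=
  Finsupp.lsum ℂ fun η : ι → ℤ =>
    Finsupp.lsingle (γ + η) ∘ₗ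
      (((ε.ε γ η : ℤ) : ℂ) • vop A p (toC γ) (-n - 1 - formZ A p γ η))

/-- The Heisenberg operator `h(n)` on the component `M(1) ⊗ e^η`: multiplication by `h(n)1` if
`n < 0`, the scalar `⟨h, η⟩` if `n = 0`, and the derivation with
`h(n) (b_i(-k)1/k) = δ_{n,k} ⟨b_i, h⟩` if `n > 0`. -/
def heis (A : Matrix ι ι ℤ) (p : ℕ) (h : ι → ℂ) (n : ℤ) (η : ι → ℂ) : Fock ι →ₗ[ℂ] Fock ι :=
  if n < 0 then (-n : ℂ) • LinearMap.mulLeft ℂ (osc h (-n - 1).toNat)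
  else if n = 0 then form A p h η • LinearMap.id
  else ∑ i, form A p (Pi.single i 1) h • (pderiv (R := ℂ) (i, (n - 1).toNat)).toLinearMap

/-- The modes of the field `h(z) = ∑ h(n) z^{-n-1}` on `V_L`. -/
def heisMode (A : Matrix ι ι ℤ) (p : ℕ) (h : ι → ℂ) (n : ℤ) : VL ι →ₗ[ℂ] VL ι :=
  Finsupp.lsum ℂ fun η : ι → ℤ => Finsupp.lsingle η ∘ₗ heis A p h n (toC η)

/-- The translation operator `T = L(-1)` of `V_L`: the derivation with `T h(-k)1 = k h(-k-1)1`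
and `T e^η = η(-1) e^η`. -/
def transl : VL ι →ₗ[ℂ] VL ι :=
  Finsupp.lsum ℂ fun η : ι → ℤ =>
    Finsupp.lsingle η ∘ₗ
      ((mkDerivation ℂ fun x : ι × ℕ => ((x.2 + 2 : ℂ)) • (X (x.1, x.2 + 1) : Fock ι)).toLinearMap +
        LinearMap.mulLeft ℂ (osc (toC η) 0))

/-- A family of modes is a field when every vector is killed by all high modes. -/
def IsField (a : ℤ → VL ι →ₗ[ℂ] VL ι) : Prop := ∀ v, ∃ N : ℤ, ∀ n ≥ N, a n v = 0

/-- Mutual locality `(z-w)^N [a(z), b(w)] = 0` of two fields. -/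
def Local (a b : ℤ → VL ι →ₗ[ℂ] VL ι) : Prop :=
  ∃ N : ℕ, ∀ m n : ℤ, ∑ k ∈ Finset.range (N + 1), ((-1 : ℂ) ^ k * (N.choose k : ℂ)) •
    (a (m + N - k) ∘ₗ b (n + k) - b (n + k) ∘ₗ a (m + N - k)) = 0

/-- `a(z) = ∑ a_n z^{-n-1}` is the vertex operator `Y(u, z)` of `u ∈ V_L`: it is a field, it is
local with the generating fields `Y(e^γ, z)` and `h(z)` of `V_L`, it is translation covariant,
and it creates `u` from the vacuum. -/
structure IsVertexOperator {A : Matrix ι ι ℤ} {p : ℕ} (ε : Cocycle A p) (u : VL ι)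
    (a : ℤ → VL ι →ₗ[ℂ] VL ι) : Prop where
  field : IsField a
  local_exp : ∀ γ : ι → ℤ, Local a (expMode ε γ)
  local_heis : ∀ h : ι → ℂ, Local a (heisMode A p h)
  translation : ∀ n : ℤ, transl ∘ₗ a n - a n ∘ₗ transl = (-n : ℂ) • a (n - 1)
  vacuum : ∀ n : ℤ, 0 ≤ n → a n vac = 0
  creation : a (-1) vac = u

open Classical in
/-- The modes `u_n` of `Y(u, z) = ∑ u_n z^{-n-1}` on `V_L` (`exists_unique_vertexOperator`:
for every `u` there is exactly one vertex operator). -/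
def mode {A : Matrix ι ι ℤ} {p : ℕ} (ε : Cocycle A p) (u : VL ι) : ℤ → VL ι →ₗ[ℂ] VL ι :=
  if h : ∃ a, IsVertexOperator ε u a then h.choose else 0

/-- `W(p)_Q`: the common kernel on `V_L` of the short screenings `e^{-α_j/√p}_0`.
In the basis `b_i`, `-α_j/√p = -b_j/p`, its pairing with `γ ∈ L` is `-(α_j, γ) ∈ ℤ`, and its
zero mode on `M(1) ⊗ e^γ` is the coefficient of `z^{-1}` in `z^{-(α_j,γ)} Γ_{-b_j/p}(z)`.
It maps `M(1) ⊗ e^γ` to `M(1) ⊗ e^{γ - α_j/√p}`, so different charges go to different charges: the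
kernel is the sum of its charge components, and sign conventions (cocycles) of the intertwining
operator do not matter. -/
def W (A : Matrix ι ι ℤ) (p : ℕ) : Submodule ℂ (VL ι) where
  carrier := {v | ∀ (j : ι) (γ : ι → ℤ),
    vop A p (Pi.single j (-(p : ℂ)⁻¹)) ((∑ i, A j i * γ i) - 1) (v γ) = 0}
  add_mem' := by
    intro v w hv hw j γ
    rw [Finsupp.add_apply, map_add, hv j γ, hw j γ, add_zero]
  zero_mem' := by
    intro j γ
    rw [Finsupp.zero_apply, map_zero]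
  smul_mem' := by
    intro c v hv j γ
    rw [Finsupp.smul_apply, map_smul, hv j γ, smul_zero]

/-- The monomials `u¹_{-j_1} ⋯ u^r_{-j_r} 1` with all `u^i ∈ S` and all `j_i ≥ 1`. -/
inductive Monomial {A : Matrix ι ι ℤ} {p : ℕ} (ε : Cocycle A p) (S : Set (VL ι)) : VL ι → Prop
  | one : Monomial ε S vac
  | step (u : VL ι) (hu : u ∈ S) (j : ℕ) (hj : 1 ≤ j) (w : VL ι) (hw : Monomial ε S w) :
      Monomial ε S (mode ε u (-j) w)

/-- `S` strongly generates the subspace `U`: the monomials in `S` span `U`. -/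
def StronglyGenerates {A : Matrix ι ι ℤ} {p : ℕ} (ε : Cocycle A p) (S : Set (VL ι))
    (U : Submodule ℂ (VL ι)) : Prop :=
  Submodule.span ℂ {w | Monomial ε S w} = U

/-- The conformal weight of `e^γ` for `ω = ω_st + ((p-1)/(2√p)) β(-2)1`:
`⟨γ,γ⟩/2 - (p-1) ht γ`. -/
def wtExp (A : Matrix ι ι ℤ) (p : ℕ) (γ : ι → ℤ) : ℤ :=
  formZ A p γ γ / 2 - ((p : ℤ) - 1) * ∑ i, γ i

/-- Vectors of conformal weight `n`: in the component of charge `γ`, a polynomial of degree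
`n - wtExp γ`, where `X (i, k)` has degree `k + 1`. -/
def IsHomog (A : Matrix ι ι ℤ) (p : ℕ) (n : ℤ) (v : VL ι) : Prop :=
  ∀ γ, ∃ d : ℕ, (v γ = 0 ∨ (d : ℤ) = n - wtExp A p γ) ∧
    IsWeightedHomogeneous (fun x : ι × ℕ => x.2 + 1) (v γ) d

/-- Main statement (target). -/
def Main : Prop :=
  ∀ (ι : Type) [Fintype ι] [DecidableEq ι] (A : Matrix ι ι ℤ), IsADE A →
    ∀ p : ℕ, 2 ≤ p → Nonempty (Cocycle A p) ∧ ∀ ε : Cocycle A p,
      (∀ u : VL ι, ∃! a, IsVertexOperator ε u a) ∧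
      (∀ u ∈ W A p, ∀ v ∈ W A p, ∀ n : ℤ, mode ε u n v ∈ W A p) ∧
      ∃ S : Finset (VL ι), (∀ u ∈ S, u ∈ W A p ∧ ∃ n, IsHomog A p n u) ∧
        ∀ T : Set (VL ι), (S : Set (VL ι)) ⊆ T → T ⊆ (W A p : Set (VL ι)) →
          StronglyGenerates ε T (W A p)

end

end WPQ
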