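import Pool.Agent.WPQ.AD2
import Pool.Agent.WPQ.AR2

/-! [WPQ-EN2] The engine, part 2: the pair `(u, u')`, the case `r² ≥ 2m - 1`.

Plan.  `exists_pair`: take `0 ≠ u1 ∈ Prim0 m`, `adjoint`: `u' := u1'`.  `β(u1, b) = β(mode u1 (-1) vac, b) =
(-1)^m β(vac, u'_{2m-1} b) = (-1)^m top0(u'_{2m-1} b)`.  There is `b ∈ Prim0 m` with `β(u1,b) ≠ 0`: otherwise,
by `Wn_decomp` (hypothesis `hdec`) every `v ∈ Wn m` is `x + L(-1)y + L(-2)z`, `β(u1, L(-k) ·) = β(L(k)u1, ·) = 0`,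
`β(u1, x) = β(u1, x_0)` (`beta_comp_right` with `γ = 0`; `x_0 = single 0 (x 0) ∈ Prim0 m`: `pv2_mem`,
`LS_comp`), so `u1 = 0` (`beta_left`).  `u'_{2m-1} b ∈ Wn 0 = ℂ vac` (`Wn_zero`, `mode_Wn`).
`pair_L2`: `v = u_{2m-3} u'`; `LS_mode` with `k = 2`: `L(2) v = (3(m-1) - (2m-3)) u_{2m-1} u' + u_{2m-3} L(2) u'
= m N' vac`.
`en_big`: `v = u_{(2m-3)} u' ∈ Wn 2`, so `v = a ω`, `a ≠ 0` (`pair_L2`).  `mode v 1 = a L(0)` (`mode_omega`,
`omegaV_eq`), `mode v 1 x = a h x`.  By `mode_prodN` (VA1) `mode v 1 x = prodN (2m-3) (mode u) (mode u') 1 x`,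
every term of which contains `mode u' (1+j) x = 0` or `mode u j x = 0`. -/

namespace WPQ

open MvPolynomial AF

noncomputable section

variable {ι : Type} [Fintype ι] [DecidableEq ι] {A : Matrix ι ι ℤ} {p : ℕ}

/-- the components of a primary vector are primary -/
theorem en2_prim_comp (n : ℤ) (x : VL ι) (hx : x ∈ pv4_Prim A p n) :
    Finsupp.single 0 (x 0) ∈ Prim0 A p n := by
  rw [pv4_mem] at hx
  obtain ⟨h1, h2, h3⟩ := hx
  refine ⟨(pv4_mem _ _).2 ⟨pv2_mem n x h1 0, ?_, ?_⟩, ?_⟩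
  · rw [← LS_comp, h2, Finsupp.zero_apply, Finsupp.single_zero]
  · rw [← LS_comp, h3, Finsupp.zero_apply, Finsupp.single_zero]
  · exact Finsupp.single_mem_supported ℂ _ (Set.mem_singleton _)

/-- `β` with a primary vector on the left vanishes on the image of `L(-k)` -/
theorem en2_beta_LS (hA : IsADE A) (hp : 2 ≤ p) (ε : Cocycle A p) (τ : Shift A p)
    (hτ : τ.s = (2 : ℂ) • bg A p) (k : ℤ) (t v : VL ι) (ht : t ∈ W A p) (hv : v ∈ W A p)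
    (h : LS (Shift.zero A p) k t = 0) : beta ε τ t (LS (Shift.zero A p) (-k) v) = 0 := by
  rw [W_eq_UU hA hp ε] at ht
  rw [← beta_LS hA hp ε τ hτ k t v ht hv, h]
  have h1 := beta_smul_left ε τ 0 (0 : VL ι) v
  rw [zero_smul, zero_mul] at h1
  exact h1

theorem exists_pair (hA : IsADE A) (hp : 2 ≤ p) (ε : Cocycle A p) (m : ℕ)
    (hdec : ∀ x ∈ pv4_Prim A p m, (∃ y ∈ Wn A p ((m : ℤ) - 1), ∃ z ∈ Wn A p ((m : ℤ) - 2),
      x = LS (Shift.zero A p) (-1) y + LS (Shift.zero A p) (-2) z) → x = 0)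
    (hne : Prim0 A p m ≠ ⊥) :
    ∃ u ∈ Prim0 A p m, ∃ u' ∈ Prim0 A p m, ∃ N' : ℂ, N' ≠ 0 ∧
      mode ε u (2 * m - 1) u' = N' • (vac : VL ι) := by
  have hp1 : 1 ≤ p := by omega
  obtain ⟨τ, hτ⟩ := exists_tau (p := p) hA hp1
  obtain ⟨u1, hu1, hu10⟩ := Submodule.exists_mem_ne_zero_of_ne_bot hne
  obtain ⟨u, hu, had, -⟩ := adjoint hA hp ε τ hτ m u1 hu1
  have hu1W : u1 ∈ Wn A p m := ((pv4_mem _ _).1 hu1.1).1
  have hu1L1 := ((pv4_mem _ _).1 hu1.1).2.1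
  have hu1L2 := ((pv4_mem _ _).1 hu1.1).2.2
  have huW : u ∈ Wn A p m := ((pv4_mem _ _).1 hu.1).1
  have hb : ∃ b ∈ Prim0 A p m, beta ε τ u1 b ≠ 0 := by
    by_contra hcon
    push Not at hcon
    refine hu10 (beta_left hA hp ε τ hτ m u1 hu1W fun v hv => ?_)
    obtain ⟨x, hx, y, hy, z, hz, h1, h2, rfl⟩ := Wn_decomp hA hp (m : ℤ)
      (fun x hx h1 h2 y hy z hz he =>
        hdec x ((pv4_mem _ _).2 ⟨hx, h1, h2⟩) ⟨y, hy, z, hz, he⟩) v hv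
    rw [beta_add_right, beta_add_right, en2_beta_LS hA hp ε τ hτ 1 u1 y hu1W.1 hy.1 hu1L1,
      en2_beta_LS hA hp ε τ hτ 2 u1 z hu1W.1 hz.1 hu1L2, add_zero, add_zero,
      beta_comp_right hA hp ε τ hτ 0 u1 x hu1.2, neg_zero]
    exact hcon _ (en2_prim_comp _ x ((pv4_mem _ _).2 ⟨hx, h1, h2⟩))
  obtain ⟨b, hbP, hb0⟩ := hb
  have hbW : b ∈ Wn A p m := ((pv4_mem _ _).1 hbP.1).1
  have h0 : mode ε u (2 * m - 1) b ∈ Wn A p 0 := by
    have h1 := mode_Wn hA hp ε m m (2 * m - 1) u b huW hbW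
    have e : (m : ℤ) + m - (2 * m - 1) - 1 = 0 := by ring
    rwa [e] at h1
  obtain ⟨a, ha⟩ := Wn_zero hA hp _ h0
  refine ⟨u, hu, b, hbP, a, ?_, ha⟩
  rintro rfl
  apply hb0
  have h1 := had (-1) vac b (vac_mem_W hA hp1) hbW.1
  rw [mode_neg_one_vac hA hp1] at h1
  have e : 2 * (m : ℤ) - 2 - -1 = 2 * m - 1 := by ring
  rw [h1, e, ha, beta_smul_right, zero_mul, mul_zero]

theorem pair_L2 (hA : IsADE A) (hp : 2 ≤ p) (ε : Cocycle A p) (m : ℕ) (u u' : VL ι)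
    (hu : u ∈ Prim0 A p m) (hu' : u' ∈ Prim0 A p m) (N' : ℂ)
    (h : mode ε u (2 * m - 1) u' = N' • (vac : VL ι)) :
    LS (Shift.zero A p) 2 (mode ε u (2 * m - 3) u') = ((m : ℂ) * N') • (vac : VL ι) := by
  have hp1 : 1 ≤ p := by omega
  obtain ⟨h1, h2, h3⟩ := (pv4_mem _ _).1 hu.1
  have h0 := LS_zero_Vn hA hp1 (m : ℤ) u h1.2
  have hL := LinearMap.congr_fun (LS_mode hA hp1 ε u ((m : ℤ) : ℂ) h0 h2 h3 2 (2 * m - 3)) u'
  rw [LinearMap.sub_apply, LinearMap.comp_apply, LinearMap.comp_apply,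
    ((pv4_mem _ _).1 hu'.1).2.2, map_zero, sub_zero, LinearMap.smul_apply] at hL
  have e : 2 * (m : ℤ) - 3 + 2 = 2 * m - 1 := by ring
  rw [hL, e, h, smul_smul]
  congr 1
  push_cast
  ring

theorem en_big (hA : IsADE A) (hp : 2 ≤ p) (ε : Cocycle A p) (m h : ℕ) (hm : 2 ≤ m) (hh : 1 ≤ h)
    (hV2 : ∀ v ∈ Wn A p 2, ∃ a : ℂ, v = a • omegaV A p) (u u' : VL ι)
    (hu : u ∈ Prim0 A p m) (hu' : u' ∈ Prim0 A p m) (N' : ℂ) (hN : N' ≠ 0)
    (hN' : mode ε u (2 * m - 1) u' = N' • (vac : VL ι)) (x : VL ι)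
    (hx : x ∈ pv4_Prim A p h) (hk : ∀ u ∈ Prim0 A p m, ∀ k : ℤ, 0 ≤ k → mode ε u k x = 0) :
    x = 0 := by
  have hp1 : 1 ≤ p := by omega
  have huW : u ∈ Wn A p m := ((pv4_mem _ _).1 hu.1).1
  have huW' : u' ∈ Wn A p m := ((pv4_mem _ _).1 hu'.1).1
  have hv2 : mode ε u (2 * m - 3) u' ∈ Wn A p 2 := by
    have h1 := mode_Wn hA hp ε m m (2 * m - 3) u u' huW huW'
    have e : (m : ℤ) + m - (2 * m - 3) - 1 = 2 := by ring
    rwa [e] at h1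
  obtain ⟨a, ha⟩ := hV2 _ hv2
  have hL2 := pair_L2 hA hp ε m u u' hu hu' N' hN'
  have hvac : (vac : VL ι) ≠ 0 := by
    unfold vac
    rw [Ne, Finsupp.single_eq_zero]
    exact one_ne_zero
  have ha0 : a ≠ 0 := by
    rintro rfl
    rw [ha, zero_smul, map_zero] at hL2
    have h1 : ((m : ℂ) * N') ≠ 0 :=
      mul_ne_zero (Nat.cast_ne_zero.2 (by omega)) hN
    exact smul_ne_zero h1 hvac hL2.symm
  have hx0 := LS_zero_Vn hA hp1 (h : ℤ) x ((pv4_mem _ _).1 hx).1.2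
  have h1 : mode ε (mode ε u (2 * m - 3) u') 1 x = (a * h) • x := by
    rw [ha, mode_smul hA hp1, omegaV_eq, mode_omega hA hp1, LinearMap.smul_apply, sub_self, hx0,
      smul_smul]
    push_cast
    rfl
  have e : (2 * (m : ℤ) - 3) = ((2 * m - 3 : ℕ) : ℤ) := by omega
  have h2 : mode ε (mode ε u (2 * m - 3) u') 1 x = 0 := by
    rw [e, mode_prodN hA hp1]
    unfold prodN
    rw [LinearMap.sum_apply]
    refine Finset.sum_eq_zero fun i hi => ?_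
    have hi' : i ≤ 2 * m - 3 := by
      have := Finset.mem_range.1 hi
      omega
    rw [LinearMap.smul_apply, LinearMap.sub_apply, LinearMap.comp_apply, LinearMap.comp_apply,
      hk u' hu' (1 + i) (by omega), hk u hu _ (by omega : (0 : ℤ) ≤ ((2 * m - 3 : ℕ) : ℤ) - i),
      map_zero, map_zero, sub_zero, smul_zero]
  rw [h2] at h1
  have h3 : (a * (h : ℂ)) ≠ 0 := mul_ne_zero ha0 (Nat.cast_ne_zero.2 (by omega))
  exact (smul_eq_zero.1 h1.symm).resolve_left h3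

end

end WPQ
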