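import Pool.Agent.WPQ.FP9

/-! WPQ part C, block FP (architect: helper32).  Proofs: WPQ_planC.md, C3. -/
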