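import Pool.Agent.WPQ.Defs

/-! WPQ, module WB (weight bound in the integrable lowest weight module): definitions.
`Fr ι` is the free associative algebra on `E_i` (basis: words), with operators `E_i`, `H_i`, `F_i`
(`F_i 1 = 0`, `F_i E_j x = E_j F_i x - δ_ij H_i x`) of the Verma type module of lowest weight
`-μ`. -/

namespace WPQ.WB

open WPQ

noncomputable section

variable {ι : Type} [Fintype ι] [DecidableEq ι]

/-- The quadratic form of the root lattice. -/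
def qf (A : Matrix ι ι ℤ) (c : ι → ℤ) : ℤ := ∑ i, ∑ j, c i * A i j * c j

/-- The free algebra with basis the words. -/
abbrev Fr (ι : Type) : Type := List ι →₀ ℂ

/-- Left multiplication by `E_i`. -/
def eE (i : ι) : Fr ι →ₗ[ℂ] Fr ι := Finsupp.lmapDomain ℂ ℂ (fun w => i :: w)

/-- The `i`-th weight of a word: `-(α_i, μ) + ∑_{j ∈ w} (α_i, α_j)`. -/
def wt (A : Matrix ι ι ℤ) (μ : ι → ℤ) (i : ι) (w : List ι) : ℤ :=
  (w.map fun j => A i j).sum - ∑ j, A i j * μ j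

/-- The weight operator `H_i`. -/
def eH (A : Matrix ι ι ℤ) (μ : ι → ℤ) (i : ι) : Fr ι →ₗ[ℂ] Fr ι :=
  Finsupp.lsum ℂ fun w : List ι => ((wt A μ i w : ℤ) : ℂ) • Finsupp.lsingle w

/-- `F_i` on words. -/
def fw (A : Matrix ι ι ℤ) (μ : ι → ℤ) (i : ι) : List ι → Fr ι
  | [] => 0
  | j :: w => eE j (fw A μ i w) - if i = j then Finsupp.single w ((wt A μ i w : ℤ) : ℂ) else 0

/-- The operator `F_i`. -/
def eF (A : Matrix ι ι ℤ) (μ : ι → ℤ) (i : ι) : Fr ι →ₗ[ℂ] Fr ι :=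
  Finsupp.lsum ℂ fun w : List ι => (LinearMap.toSpanSingleton ℂ (Fr ι) (fw A μ i w))

/-- Left multiplication by a word. -/
def eW (w : List ι) : Fr ι →ₗ[ℂ] Fr ι := (w.map eE).foldr (fun f g => f ∘ₗ g) LinearMap.id

/-- The Serre operator: `E_i E_j - E_j E_i` if `A_ij = 0`, and
`E_i E_i E_j - 2 E_i E_j E_i + E_j E_i E_i` if `A_ij = -1`. -/
def serre (A : Matrix ι ι ℤ) (i j : ι) : Fr ι →ₗ[ℂ] Fr ι :=
  if A i j = 0 then eE i ∘ₗ eE j - eE j ∘ₗ eE i
  else if A i j = -1 then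
    eE i ∘ₗ eE i ∘ₗ eE j - (2 : ℂ) • (eE i ∘ₗ eE j ∘ₗ eE i) + eE j ∘ₗ eE i ∘ₗ eE i
  else 0

/-- The exponent `(α_i, μ)` as a natural number. -/
def mu (A : Matrix ι ι ℤ) (μ : ι → ℤ) (i : ι) : ℕ := (∑ j, A i j * μ j).toNat

/-- The subspace generated by the Serre elements and by `E_i^(μ_i+1)`. -/
def II (A : Matrix ι ι ℤ) (μ : ι → ℤ) : Submodule ℂ (Fr ι) :=
  Submodule.span ℂ
    ({x | ∃ (u : List ι) (i j : ι) (y : List ι), i ≠ j ∧
        x = eW u (serre A i j (Finsupp.single y 1))} ∪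
      {x | ∃ (u : List ι) (i : ι),
        x = eW u (Finsupp.single (List.replicate (mu A μ i + 1) i) 1)})

/-- The span of the words with letter counts `c`. -/
def Frc (c : ι → ℕ) : Submodule ℂ (Fr ι) :=
  Submodule.span ℂ {x | ∃ w : List ι, (∀ i, w.count i = c i) ∧ x = Finsupp.single w 1}

/-- The weight space of charge `c - μ` of the quotient by `II` is nonzero. -/
def NZ (A : Matrix ι ι ℤ) (μ : ι → ℤ) (c : ι → ℕ) : Prop := ∃ x ∈ Frc c, x ∉ II A μ

/-- The action of a word on a vector. -/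
def act {V : Type} [AddCommGroup V] [Module ℂ V] (E : ι → V →ₗ[ℂ] V) (v : V) : List ι → V
  | [] => v
  | i :: w => E i (act E v w)

end

end WPQ.WB
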