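import Pool.Agent.WPQ.VPD
import Pool.Agent.WPQ.WBD

/-! [WPQ-JJ1] Isometries of the root lattice, sign coherence of norm 2 vectors.

Plan.  `sign_coh`: `x = x⁺ - x⁻` with disjoint supports, `(x⁺,x⁻) = ∑ x⁺_i A_ij x⁻_j ≤ 0` (only `i ≠ j`,
`A_ij ≤ 0`), so `2 = |x|² ≥ |x⁺|² + |x⁻|²`; if both are nonzero each is `≥ 2` (positive and even:
`2 ∣ qf`), contradiction.
`root_pos`: if all `x_i ≤ 0` then `(x,y) = ∑ x_i (α_i,y) ≤ 0` for dominant `y`; so all `x_i ≥ 0`, and
`x ≠ 0`.
`refl j` is an additive involution preserving `bl`. -/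

namespace WPQ

open MvPolynomial AF

noncomputable section

variable {ι : Type} [Fintype ι] [DecidableEq ι] {A : Matrix ι ι ℤ} {p : ℕ}

/-- The bilinear form of the root lattice. -/
def bl (A : Matrix ι ι ℤ) (x y : ι → ℤ) : ℤ := ∑ i, ∑ j, x i * A i j * y j

/-- Height. -/
def ht (x : ι → ℤ) : ℤ := ∑ i, x i

/-- The simple reflection `s_j`. -/
def refl (A : Matrix ι ι ℤ) (j : ι) (x : ι → ℤ) : ι → ℤ := x - pr A j x • rt j

/-- Isometries (additive maps preserving the form). -/
structure Iso (A : Matrix ι ι ℤ) where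
  w : (ι → ℤ) →+ (ι → ℤ)
  iso : ∀ x y, bl A (w x) (w y) = bl A x y

theorem bl_symm (hA : IsADE A) (x y : ι → ℤ) : bl A x y = bl A y x := by
  unfold bl
  rw [Finset.sum_comm]
  refine Finset.sum_congr rfl fun i _ => Finset.sum_congr rfl fun j _ => ?_
  rw [hA.symm j i]
  ring

theorem jj1_bl_eq (x y : ι → ℤ) : bl A x y = ∑ i, x i * pr A i y := by
  unfold bl pr
  refine Finset.sum_congr rfl fun i _ => ?_
  rw [Finset.mul_sum]
  refine Finset.sum_congr rfl fun j _ => ?_
  ring

theorem bl_rt (hA : IsADE A) (j : ι) (x : ι → ℤ) : bl A (rt j) x = pr A j x := by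
  rw [jj1_bl_eq, Finset.sum_eq_single j]
  · unfold rt
    rw [Pi.single_eq_same, one_mul]
  · intro b _ hb
    unfold rt
    rw [Pi.single_eq_of_ne hb, zero_mul]
  · intro h
    exact absurd (Finset.mem_univ j) h

theorem bl_add_left (x x' y : ι → ℤ) : bl A (x + x') y = bl A x y + bl A x' y := by
  rw [jj1_bl_eq, jj1_bl_eq, jj1_bl_eq, ← Finset.sum_add_distrib]
  refine Finset.sum_congr rfl fun i _ => ?_
  rw [Pi.add_apply, add_mul]

theorem bl_smul_left (c : ℤ) (x y : ι → ℤ) : bl A (c • x) y = c * bl A x y := by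
  rw [jj1_bl_eq, jj1_bl_eq, Finset.mul_sum]
  refine Finset.sum_congr rfl fun i _ => ?_
  rw [Pi.smul_apply, smul_eq_mul, mul_assoc]

theorem jj1_add_right (hA : IsADE A) (x y y' : ι → ℤ) :
    bl A x (y + y') = bl A x y + bl A x y' := by
  rw [bl_symm hA, bl_add_left, bl_symm hA y, bl_symm hA y']

theorem jj1_smul_right (hA : IsADE A) (c : ℤ) (x y : ι → ℤ) :
    bl A x (c • y) = c * bl A x y := by
  rw [bl_symm hA, bl_smul_left, bl_symm hA y]

theorem jj1_sub (x y : ι → ℤ) (c : ℤ) : x - c • y = x + (-c) • y := by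
  rw [neg_smul, sub_eq_add_neg]

theorem jj1_even (hA : IsADE A) (x : ι → ℤ) : 2 ∣ bl A x x := by
  have h : ∀ s : Finset ι, (2 : ℤ) ∣ ∑ i ∈ s, ∑ j ∈ s, x i * A i j * x j := by
    intro s
    induction s using Finset.induction_on with
    | empty => simp
    | insert a s ha ih =>
      rw [Finset.sum_insert ha, Finset.sum_insert ha]
      have h1 : ∑ i ∈ s, ∑ j ∈ insert a s, x i * A i j * x j =
          ∑ i ∈ s, x a * A a i * x i + ∑ i ∈ s, ∑ j ∈ s, x i * A i j * x j := by
        rw [← Finset.sum_add_distrib]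
        refine Finset.sum_congr rfl fun i _ => ?_
        rw [Finset.sum_insert ha, hA.symm i a]
        ring
      rw [h1, hA.diag]
      obtain ⟨k, hk⟩ := ih
      rw [hk]
      exact ⟨x a * x a + ∑ i ∈ s, x a * A a i * x i + k, by ring⟩
  exact h Finset.univ

theorem bl_self_pos (hA : IsADE A) (x : ι → ℤ) (hx : x ≠ 0) : 2 ≤ bl A x x := by
  have h1 : 0 < bl A x x := hA.pos x hx
  obtain ⟨k, hk⟩ := jj1_even hA x
  omega

theorem jj1_nonneg (hA : IsADE A) (x : ι → ℤ) : 0 ≤ bl A x x := by
  by_cases hx : x = 0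
  · rw [hx, jj1_bl_eq]
    simp
  · have := bl_self_pos hA x hx
    omega

theorem sign_coh (hA : IsADE A) (x : ι → ℤ) (hx : bl A x x = 2) :
    (∀ i, 0 ≤ x i) ∨ (∀ i, x i ≤ 0) := by
  have h0 : x = (fun i => max (x i) 0) + (-1 : ℤ) • (fun i => max (-x i) 0) := by
    funext i
    rw [Pi.add_apply, Pi.smul_apply, smul_eq_mul]
    rcases le_total 0 (x i) with h | h
    · rw [max_eq_left h, max_eq_right (by omega)]
      ring
    · rw [max_eq_right h, max_eq_left (by omega)]
      ring
  by_contra hcon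
  rw [not_or] at hcon
  obtain ⟨h1, h2⟩ := hcon
  push Not at h1 h2
  obtain ⟨i1, hi1⟩ := h1
  obtain ⟨i2, hi2⟩ := h2
  have hu : (fun i => max (x i) 0) ≠ 0 := by
    intro h
    have := congrFun h i2
    simp only [Pi.zero_apply] at this
    rw [max_eq_left hi2.le] at this
    omega
  have hv : (fun i => max (-x i) 0) ≠ 0 := by
    intro h
    have := congrFun h i1
    simp only [Pi.zero_apply] at this
    rw [max_eq_left (by omega)] at this
    omega
  have h3 := bl_self_pos hA _ hu
  have h4 := bl_self_pos hA _ hv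
  have h5 : bl A (fun i => max (x i) 0) (fun i => max (-x i) 0) ≤ 0 := by
    unfold bl
    refine Finset.sum_nonpos fun i _ => Finset.sum_nonpos fun j _ => ?_
    change max (x i) 0 * A i j * max (-x j) 0 ≤ 0
    by_cases hij : i = j
    · subst hij
      rcases le_total 0 (x i) with h | h
      · rw [max_eq_right (a := -x i) (by omega), mul_zero]
      · rw [max_eq_right h, zero_mul, zero_mul]
    · have h6 : A i j ≤ 0 := by
        rcases hA.off i j hij with h | h <;> omega
      have h7 : 0 ≤ max (x i) 0 * max (-x j) 0 := mul_nonneg (le_max_right _ _) (le_max_right _ _)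
      have h8 : max (x i) 0 * A i j * max (-x j) 0 = A i j * (max (x i) 0 * max (-x j) 0) := by
        ring
      rw [h8]
      exact mul_nonpos_of_nonpos_of_nonneg h6 h7
  have h9 : bl A x x = bl A (fun i => max (x i) 0) (fun i => max (x i) 0) -
      2 * bl A (fun i => max (x i) 0) (fun i => max (-x i) 0) +
      bl A (fun i => max (-x i) 0) (fun i => max (-x i) 0) := by
    conv_lhs => rw [h0]
    rw [bl_add_left, jj1_add_right hA, jj1_add_right hA, bl_smul_left, bl_smul_left,
      jj1_smul_right hA, jj1_smul_right hA,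
      bl_symm hA (fun i => max (-x i) 0) (fun i => max (x i) 0)]
    ring
  omega

theorem root_pos (hA : IsADE A) (x y : ι → ℤ) (hx : bl A x x = 2) (hy : Dom A y)
    (h : 0 < bl A x y) : 1 ≤ ht x := by
  rcases sign_coh hA x hx with h1 | h1
  · by_contra hcon
    have h2 : ht x = 0 := by
      have h3 : 0 ≤ ht x := Finset.sum_nonneg fun i _ => h1 i
      omega
    have h4 := (Finset.sum_eq_zero_iff_of_nonneg fun i _ => h1 i).1 h2
    have h5 : x = 0 := by
      funext i
      exact h4 i (Finset.mem_univ i)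
    rw [h5, jj1_bl_eq] at hx
    simp at hx
  · exfalso
    have h2 : bl A x y ≤ 0 := by
      rw [jj1_bl_eq]
      exact Finset.sum_nonpos fun i _ => mul_nonpos_of_nonpos_of_nonneg (h1 i) (hy i)
    omega

theorem jj1_rt_rt (hA : IsADE A) (j : ι) : bl A (rt j) (rt j) = 2 := by
  rw [bl_rt hA]
  unfold pr rt
  rw [Finset.sum_eq_single j]
  · rw [Pi.single_eq_same, hA.diag, mul_one]
  · intro b _ hb
    rw [Pi.single_eq_of_ne hb, mul_zero]
  · intro h
    exact absurd (Finset.mem_univ j) h

theorem bl_refl (hA : IsADE A) (j : ι) (x y : ι → ℤ) :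
    bl A (refl A j x) (refl A j y) = bl A x y := by
  unfold refl
  rw [jj1_sub, jj1_sub, bl_add_left, jj1_add_right hA, jj1_add_right hA, bl_smul_left,
    bl_smul_left, jj1_smul_right hA, jj1_smul_right hA, jj1_rt_rt hA, bl_symm hA x (rt j),
    bl_rt hA, bl_rt hA]
  ring

theorem refl_refl (hA : IsADE A) (j : ι) (x : ι → ℤ) : refl A j (refl A j x) = x := by
  have h1 : pr A j (refl A j x) = -pr A j x := by
    rw [← bl_rt hA, ← bl_rt hA]
    unfold refl
    rw [jj1_sub, jj1_add_right hA, jj1_smul_right hA, jj1_rt_rt hA, bl_rt hA]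
    ring
  have h2 : refl A j (refl A j x) = refl A j x - pr A j (refl A j x) • rt j := rfl
  rw [h2, h1]
  unfold refl
  rw [neg_smul, sub_neg_eq_add, sub_add_cancel]

theorem jj1_cs (hA : IsADE A) (w x : ι → ℤ) : bl A w x ^ 2 ≤ bl A w w * bl A x x := by
  by_cases hw : w = 0
  · rw [hw, jj1_bl_eq, jj1_bl_eq]
    simp
  · have ha : 0 < bl A w w := by
      have := bl_self_pos hA w hw
      omega
    have h1 := jj1_nonneg hA (bl A w w • x + (-bl A w x) • w)
    rw [bl_add_left, jj1_add_right hA, jj1_add_right hA] at h1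
    simp only [bl_smul_left, jj1_smul_right hA] at h1
    rw [bl_symm hA x w] at h1
    have h2 : 0 ≤ bl A w w * (bl A w w * bl A x x - bl A w x ^ 2) := by
      calc (0 : ℤ) ≤ _ := h1
        _ = _ := by ring
    have h3 := nonneg_of_mul_nonneg_right h2 ha
    linarith

theorem jj1_det (hA : IsADE A) : A.det ≠ 0 := by
  intro h
  obtain ⟨v, hv, hv'⟩ := Matrix.exists_mulVec_eq_zero_iff.2 h
  have h1 := bl_self_pos hA v hv
  have h2 : bl A v v = 0 := by
    rw [jj1_bl_eq]
    refine Finset.sum_eq_zero fun i _ => ?_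
    have h3 : pr A i v = A.mulVec v i := rfl
    rw [h3, hv', Pi.zero_apply, mul_zero]
  omega

/-- finitely many lattice vectors of bounded norm -/
theorem bl_finite (hA : IsADE A) (n : ℤ) : {x : ι → ℤ | bl A x x ≤ n}.Finite := by
  set M : ℤ := ∑ j, bl A (fun i => A.adjugate j i) (fun i => A.adjugate j i) * |n| with hM
  refine (Set.finite_Icc (fun _ : ι => -M) (fun _ : ι => M)).subset ?_
  intro x hx
  rw [Set.mem_ofPred_eq] at hx
  have key : ∀ j, |x j| ≤ M := by
    intro j
    have h1 : bl A (fun i => A.adjugate j i) x = A.det * x j := by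
      have h2 : bl A (fun i => A.adjugate j i) x = ∑ k, (A.adjugate * A) j k * x k := by
        unfold bl
        rw [Finset.sum_comm]
        refine Finset.sum_congr rfl fun k _ => ?_
        rw [Matrix.mul_apply, Finset.sum_mul]
      rw [h2, Matrix.adjugate_mul, Finset.sum_eq_single j]
      · rw [Matrix.smul_apply, Matrix.one_apply_eq, smul_eq_mul, mul_one]
      · intro k _ hk
        rw [Matrix.smul_apply, Matrix.one_apply_ne (Ne.symm hk), smul_zero, zero_mul]
      · intro h
        exact absurd (Finset.mem_univ j) h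
    have h3 := jj1_cs hA (fun i => A.adjugate j i) x
    rw [h1] at h3
    have h4 : 1 ≤ A.det ^ 2 := by
      have : 0 < A.det ^ 2 := by
        have := jj1_det hA
        positivity
      omega
    have h5 : (0 : ℤ) ≤ bl A (fun i => A.adjugate j i) (fun i => A.adjugate j i) :=
      jj1_nonneg hA _
    have h6 : |x j| ≤ x j ^ 2 := by
      rw [← sq_abs]
      rcases eq_or_lt_of_le (abs_nonneg (x j)) with h | h
      · rw [← h]
        norm_num
      · nlinarith
    have h7 : x j ^ 2 ≤ bl A (fun i => A.adjugate j i) (fun i => A.adjugate j i) * |n| := by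
      calc x j ^ 2 ≤ A.det ^ 2 * x j ^ 2 := by nlinarith [sq_nonneg (x j)]
        _ = (A.det * x j) ^ 2 := by ring
        _ ≤ _ := h3
        _ ≤ _ := mul_le_mul_of_nonneg_left (hx.trans (le_abs_self n)) h5
    have h8 : bl A (fun i => A.adjugate j i) (fun i => A.adjugate j i) * |n| ≤ M := by
      rw [hM]
      exact Finset.single_le_sum (f := fun j => bl A (fun i => A.adjugate j i)
        (fun i => A.adjugate j i) * |n|)
        (fun k _ => mul_nonneg (jj1_nonneg hA _) (abs_nonneg n)) (Finset.mem_univ j)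
    exact h6.trans (h7.trans h8)
  rw [Set.mem_Icc]
  exact ⟨fun j => (abs_le.1 (key j)).1, fun j => (abs_le.1 (key j)).2⟩

end

end WPQ
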