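import Pool.Agent.WPQ.PV1

/-! [WPQ-PV2] `W(p)_Q` is of CFT type; decomposition from duality.

Plan.  `Wn_charge_zero`: let `single γ f ∈ Wn n`, `f ≠ 0`.  Moving with `E_j^b` (`Ej_pow_ne_zero`,
`W_Ej`, `Ej_Vn`) to a dominant charge (as in RD1 `sing_dom`: heights increase, finitely many charges)
we get `single ν g ∈ Wn n`, `g ≠ 0`, `ν` dominant.  `beta_left`/`beta_right`: there is `t ∈ Wn n` with
`beta t (single ν g) ≠ 0`, and by `beta_single` and `Vn_comp` its component of charge `-ν` is nonzero: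
so `n = d + wtExp (-ν) ≥ wtExp (-ν)`, which is `≥ 1` if `ν ≠ 0` (`wtExp_pos`) and `≥ 0` if `ν = 0`.
Hence `Wn n = 0` for `n < 0`.  For `n = 0`: `ν = 0` always.  If `γ ≠ 0` were the original charge, the last
step of the chain would be `E_j^b : F_{γ'} → F_0`, `γ' + b rt j = 0`, `pr A j γ' = -2b ≠ -b`: impossible,
so `γ = 0` and `f` is a constant (degree `0`).
`Wn_decomp`: let `Pr = {x ∈ Wn n | L(1)x = L(2)x = 0}` and `I` the image.  `Pr` is the left orthogonal of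
`I` in `Wn n` (`beta_LS`, `beta_left`; `L(1)`, `L(2)` of weights `n-1`, `n-2`), so
`dim Pr = dim Wn n - dim I` (perfect pairing), `Pr ⊓ I = ⊥` by `h`; so `Pr ⊔ I = Wn n`. -/

namespace WPQ

open MvPolynomial AF

noncomputable section

variable {ι : Type} [Fintype ι] [DecidableEq ι] {A : Matrix ι ι ℤ} {p : ℕ}

theorem pv2_rank {V U : Type} [AddCommGroup V] [Module ℂ V] [AddCommGroup U] [Module ℂ U]
    [FiniteDimensional ℂ V] [FiniteDimensional ℂ U] (B : V →ₗ[ℂ] U →ₗ[ℂ] ℂ) :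
    Module.finrank ℂ V ≤ Module.finrank ℂ (LinearMap.ker B) + Module.finrank ℂ U := by
  have hrk := LinearMap.finrank_range_add_finrank_ker (V := V) (V₂ := Module.Dual ℂ U) B
  have hr : Module.finrank ℂ (LinearMap.range (M₂ := Module.Dual ℂ U) B) ≤ Module.finrank ℂ U := by
    have h1 := Submodule.finrank_le (LinearMap.range (M₂ := Module.Dual ℂ U) B)
    rwa [Subspace.dual_finrank_eq] at h1
  have e : Module.finrank ℂ (LinearMap.ker (M₂ := Module.Dual ℂ U) B) =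
    Module.finrank ℂ (LinearMap.ker B) := rfl
  omega

theorem pv2_mem (n : ℤ) (t : VL ι) (h : t ∈ Wn A p n) (γ : ι → ℤ) :
    Finsupp.single γ (t γ) ∈ Wn A p n := by
  refine ⟨W_comp t h.1 γ, ?_⟩
  rcases Vn_comp n t h.2 γ with h0 | ⟨d, hd, hn⟩
  · rw [h0, Finsupp.single_zero]; exact Submodule.zero_mem _
  · exact single_mem_Vn γ _ d hd n hn

theorem pv2_deg (n : ℤ) (γ : ι → ℤ) (f : Fock ι) (hf : f ≠ 0)
    (h : Finsupp.single γ f ∈ Wn A p n) : ∃ d : ℕ, FH f d ∧ (d : ℤ) + wtExp A p γ = n := by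
  rcases Vn_comp n _ h.2 γ with h0 | h1
  · rw [Finsupp.single_eq_same] at h0
    exact absurd h0 hf
  · rw [Finsupp.single_eq_same] at h1
    exact h1

/-- the charges of weight `n` -/
def pv2_X (A : Matrix ι ι ℤ) (p : ℕ) (n : ℤ) : Set (ι → ℤ) :=
  {γ | ∃ f : Fock ι, f ≠ 0 ∧ Finsupp.single γ f ∈ Wn A p n}

theorem pv2_X_finite (hA : IsADE A) (hp : 2 ≤ p) (n : ℤ) : (pv2_X A p n).Finite := by
  have hp1 : 1 ≤ p := by omega
  refine (wtExp_finite hA hp1 n).subset ?_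
  rintro γ ⟨f, hf, h⟩
  obtain ⟨d, _, hd⟩ := pv2_deg n γ f hf h
  show wtExp A p γ ≤ n
  omega

theorem pv2_Ej_pow (hA : IsADE A) (hp : 2 ≤ p) (ε : Cocycle A p) (n : ℤ) (t : VL ι)
    (h : t ∈ Wn A p n) (j : ι) (b : ℕ) : (Ej ε (Shift.zero A p) j ^ b) t ∈ Wn A p n := by
  induction b with
  | zero => simpa using h
  | succ b ih =>
    rw [pow_succ', Module.End.mul_apply]
    exact ⟨W_Ej hA hp ε j _ ih.1, Ej_Vn hA ε j n _ ih.2⟩

/-- reflection of a charge which is not dominant -/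
theorem pv2_step (hA : IsADE A) (hp : 2 ≤ p) (ε : Cocycle A p) (n : ℤ) (γ : ι → ℤ)
    (h : γ ∈ pv2_X A p n) (hd : ¬ Dom A γ) :
    ∃ (j : ι) (b : ℕ), 0 < b ∧ pr A j γ = -(b : ℤ) ∧ γ + b • rt j ∈ pv2_X A p n := by
  have hp1 : 1 ≤ p := by omega
  obtain ⟨f, hf, hT⟩ := h
  obtain ⟨d, hd', hn⟩ := pv2_deg n γ f hf hT
  unfold Dom at hd
  push Not at hd
  obtain ⟨j, hneg⟩ := hd
  obtain ⟨b, hb⟩ : ∃ b : ℕ, pr A j γ = -(b : ℤ) :=
    ⟨(-(pr A j γ)).toNat, by rw [Int.toNat_of_nonneg (by omega)]; ring⟩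
  have hne := Ej_pow_ne_zero hA hp1 ε j d b γ hb f hd' hf
  have hTb := pv2_Ej_pow hA hp ε n _ hT j b
  rw [Ej_pow_single hA] at hne hTb
  refine ⟨j, b, by omega, hb, _, ?_, hTb⟩
  intro h
  exact hne (by rw [h, Finsupp.single_zero])

theorem pv2_sum (γ : ι → ℤ) (b : ℕ) (j : ι) : ∑ i, (γ + b • rt j) i = ∑ i, γ i + b := by
  have hpt : ∀ i, (γ + b • rt j) i = γ i + (if i = j then (b : ℤ) else 0) := by
    intro i
    rw [Pi.add_apply, Pi.smul_apply, rt, Pi.single_apply]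
    split_ifs <;> simp
  rw [Finset.sum_congr rfl fun i _ => hpt i, Finset.sum_add_distrib]
  simp

/-- there is a dominant charge -/
theorem pv2_dom (hA : IsADE A) (hp : 2 ≤ p) (ε : Cocycle A p) (n : ℤ) (h : (pv2_X A p n).Nonempty) :
    ∃ ν ∈ pv2_X A p n, Dom A ν := by
  obtain ⟨γ, hγ, hmax⟩ := (pv2_X_finite hA hp n).exists_maximalFor
    (fun γ : ι → ℤ => ∑ i, γ i) _ h
  refine ⟨γ, hγ, ?_⟩
  by_contra hd
  obtain ⟨j, b, hb, -, hmem⟩ := pv2_step hA hp ε n γ hγ hd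
  have hsum := pv2_sum γ b j
  have hge := hmax hmem (by simp only [hsum]; omega)
  simp only [hsum] at hge
  omega

omit [DecidableEq ι] in
theorem pv2_wt0 : wtExp A p (0 : ι → ℤ) = 0 := by
  simp [wtExp, formZ]

/-- the pairing bounds the weight -/
theorem pv2_bound (hA : IsADE A) (hp : 2 ≤ p) (ε : Cocycle A p) (n : ℤ) (ν : ι → ℤ)
    (h : ν ∈ pv2_X A p n) : wtExp A p (-ν) ≤ n := by
  have hp1 : 1 ≤ p := by omega
  obtain ⟨τ, hτ⟩ := exists_tau (p := p) hA hp1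
  obtain ⟨g, hg, hT⟩ := h
  obtain ⟨d, hd, hn⟩ := pv2_deg n ν g hg hT
  by_contra hlt
  push Not at hlt
  refine hg ?_
  have h0 : (Finsupp.single ν g : VL ι) = 0 := by
    refine beta_left hA hp ε τ hτ n _ hT fun v hv => ?_
    have hv0 : ∀ δ, beta ε τ (Finsupp.single ν g) (Finsupp.single δ (v δ)) = 0 := by
      intro δ
      rcases Vn_comp n v hv.2 δ with h1 | ⟨e, he, hen⟩
      · rw [h1, Finsupp.single_zero]
        exact (du1_B ε τ (Finsupp.single ν g)).map_zero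
      · refine beta_single hA hp1 ε τ hτ ν δ g (v δ) d e hd he ?_
        left
        rintro rfl
        omega
    have e : v = ∑ δ ∈ v.support, Finsupp.single δ (v δ) := (Finsupp.sum_single v).symm
    have h2 : beta ε τ (Finsupp.single ν g) v = du1_B ε τ (Finsupp.single ν g) v := rfl
    rw [h2]
    conv_lhs => rw [e]
    rw [map_sum]
    exact Finset.sum_eq_zero fun δ _ => hv0 δ
  rwa [Finsupp.single_eq_zero] at h0

theorem pv2_nonneg (hA : IsADE A) (hp : 2 ≤ p) (ε : Cocycle A p) (n : ℤ)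
    (h : (pv2_X A p n).Nonempty) : 0 ≤ n := by
  obtain ⟨ν, hν, hd⟩ := pv2_dom hA hp ε n h
  have h1 := pv2_bound hA hp ε n ν hν
  by_cases h0 : ν = 0
  · rw [h0, neg_zero, pv2_wt0] at h1
    exact h1
  · have h2 := wtExp_pos hA (by omega : 1 ≤ p) ν hd h0
    omega

theorem pv2_X0 (hA : IsADE A) (hp : 2 ≤ p) (ε : Cocycle A p) (γ : ι → ℤ)
    (h : γ ∈ pv2_X A p 0) : γ = 0 := by
  by_contra hne
  have hfin : (pv2_X A p 0 \ {0}).Finite := (pv2_X_finite hA hp 0).subset Set.sdiff_subset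
  obtain ⟨γ, hγ, hmax⟩ := hfin.exists_maximalFor (fun γ : ι → ℤ => ∑ i, γ i) _ ⟨γ, h, hne⟩
  obtain ⟨hγ1, hγ2⟩ := hγ
  have hγ0 : γ ≠ 0 := hγ2
  have hd : ¬ Dom A γ := by
    intro hd
    have h1 := pv2_bound hA hp ε 0 γ hγ1
    have h2 := wtExp_pos hA (by omega : 1 ≤ p) γ hd hγ0
    omega
  obtain ⟨j, b, hb, hpr, hmem⟩ := pv2_step hA hp ε 0 γ hγ1 hd
  have hsum := pv2_sum γ b j
  by_cases h0 : γ + b • rt j = 0
  · have h1 : γ = -(b • rt j) := eq_neg_of_add_eq_zero_left h0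
    have h2 : pr A j γ = -(2 * (b : ℤ)) := by
      unfold pr
      rw [h1]
      have e : ∀ i, A j i * (-(b • rt j)) i = if i = j then -(2 * (b : ℤ)) else 0 := by
        intro i
        rw [Pi.neg_apply, Pi.smul_apply, rt, Pi.single_apply]
        split_ifs with hij
        · subst hij
          rw [hA.diag]
          simp
        · simp
      rw [Finset.sum_congr rfl fun i _ => e i]
      simp
    omega
  · have hge := hmax (⟨hmem, h0⟩ : γ + b • rt j ∈ pv2_X A p 0 \ {0}) (by simp only [hsum]; omega)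
    simp only [hsum] at hge
    omega

theorem Wn_neg (hA : IsADE A) (hp : 2 ≤ p) (n : ℤ) (hn : n < 0) : Wn A p n = ⊥ := by
  obtain ⟨ε⟩ := cocycle_exists A hA p
  rw [Submodule.eq_bot_iff]
  intro t ht
  ext1 γ
  rw [Finsupp.zero_apply]
  by_contra h0
  have := pv2_nonneg hA hp ε n ⟨γ, t γ, h0, pv2_mem n t ht γ⟩
  omega

theorem Wn_zero (hA : IsADE A) (hp : 2 ≤ p) (v : VL ι) (hv : v ∈ Wn A p 0) :
    ∃ a : ℂ, v = a • vac := by
  obtain ⟨ε⟩ := cocycle_exists A hA p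
  have h1 : ∀ γ, γ ≠ 0 → v γ = 0 := by
    intro γ hγ
    by_contra h0
    exact hγ (pv2_X0 hA hp ε γ ⟨v γ, h0, pv2_mem 0 v hv γ⟩)
  have h2 : ∃ a : ℂ, v 0 = C a := by
    rcases Vn_comp 0 v hv.2 0 with h0 | ⟨d, hd, hn⟩
    · exact ⟨0, by rw [h0, map_zero]⟩
    · rw [pv2_wt0] at hn
      have hd0 : d = 0 := by omega
      subst hd0
      exact rr2_const _ hd
  obtain ⟨a, ha⟩ := h2
  refine ⟨a, ?_⟩
  ext1 γ
  unfold vac
  rw [Finsupp.smul_apply]
  by_cases hγ : γ = 0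
  · subst hγ
    rw [ha, Finsupp.single_eq_same, smul_eq_C_mul, mul_one]
  · rw [h1 γ hγ, Finsupp.single_eq_of_ne hγ, smul_zero]

theorem Wn_decomp (hA : IsADE A) (hp : 2 ≤ p) (n : ℤ)
    (h : ∀ x ∈ Wn A p n, LS (Shift.zero A p) 1 x = 0 → LS (Shift.zero A p) 2 x = 0 →
      ∀ y ∈ Wn A p (n - 1), ∀ z ∈ Wn A p (n - 2),
        x = LS (Shift.zero A p) (-1) y + LS (Shift.zero A p) (-2) z → x = 0)
    (v : VL ι) (hv : v ∈ Wn A p n) :
    ∃ x ∈ Wn A p n, ∃ y ∈ Wn A p (n - 1), ∃ z ∈ Wn A p (n - 2),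
      LS (Shift.zero A p) 1 x = 0 ∧ LS (Shift.zero A p) 2 x = 0 ∧
      v = x + LS (Shift.zero A p) (-1) y + LS (Shift.zero A p) (-2) z := by
  have hp1 : 1 ≤ p := by omega
  obtain ⟨ε⟩ := cocycle_exists A hA p
  obtain ⟨τ, hτ⟩ := exists_tau (p := p) hA hp1
  have hVf : FiniteDimensional ℂ (Vn A p n) := Vn_finite hA hp1 n
  have hW : FiniteDimensional ℂ (Wn A p n) := Submodule.finiteDimensional_inf_right _ _
  -- the image
  set I : Submodule ℂ (VL ι) := (Wn A p (n - 1)).map (LS (Shift.zero A p) (-1)) ⊔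
    (Wn A p (n - 2)).map (LS (Shift.zero A p) (-2)) with hI
  have hLS : ∀ (k m : ℤ) (y : VL ι), y ∈ Wn A p m → LS (Shift.zero A p) k y ∈ Wn A p (m - k) :=
    fun k m y hy => ⟨W_LS hA hp1 k y hy.1, LS_Vn k m y hy.2⟩
  have hIW : I ≤ Wn A p n := by
    refine sup_le ?_ ?_
    · rintro _ ⟨y, hy, rfl⟩
      have := hLS (-1) (n - 1) y hy
      rwa [show n - 1 - (-1) = n by ring] at this
    · rintro _ ⟨y, hy, rfl⟩
      have := hLS (-2) (n - 2) y hy
      rwa [show n - 2 - (-2) = n by ring] at this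
  have hIf : FiniteDimensional ℂ I := Submodule.finiteDimensional_of_le hIW
  -- the orthogonal
  set φ := (du1_B ε τ).domRestrict₁₂ (Wn A p n) I with hφ
  set K : Submodule ℂ (VL ι) := (LinearMap.ker φ).map (Wn A p n).subtype with hK
  have hKW : K ≤ Wn A p n := by
    rintro _ ⟨x, -, rfl⟩
    exact x.2
  have hKf : FiniteDimensional ℂ K := Submodule.finiteDimensional_of_le hKW
  have hK0 : ∀ x ∈ K, ∀ i ∈ I, beta ε τ x i = 0 := by
    rintro _ ⟨x, hx, rfl⟩ i hi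
    have h1 : φ x ⟨i, hi⟩ = 0 := by
      rw [LinearMap.mem_ker.1 hx]
      rfl
    exact h1
  have hkill : ∀ (k : ℤ) (x : VL ι), x ∈ Wn A p n →
      (∀ y ∈ Wn A p (n - k), beta ε τ x (LS (Shift.zero A p) (-k) y) = 0) →
      LS (Shift.zero A p) k x = 0 := by
    intro k x hx hy
    refine beta_left hA hp ε τ hτ (n - k) _ (hLS k n x hx) fun y hyW => ?_
    rw [beta_LS hA hp ε τ hτ k x y (Wn_le_UU hA hp ε n hx) hyW.1]
    exact hy y hyW
  have hK1 : ∀ x ∈ K, LS (Shift.zero A p) 1 x = 0 := fun x hx =>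
    hkill 1 x (hKW hx) fun y hy => hK0 x hx _ (Submodule.mem_sup_left ⟨y, hy, rfl⟩)
  have hK2 : ∀ x ∈ K, LS (Shift.zero A p) 2 x = 0 := fun x hx =>
    hkill 2 x (hKW hx) fun y hy => hK0 x hx _ (Submodule.mem_sup_right ⟨y, hy, rfl⟩)
  have hinf : K ⊓ I = ⊥ := by
    rw [Submodule.eq_bot_iff]
    rintro x ⟨hxK, hxI⟩
    obtain ⟨_, ⟨y, hy, rfl⟩, _, ⟨z, hz, rfl⟩, e⟩ := Submodule.mem_sup.1 hxI
    exact h x (hKW hxK) (hK1 x hxK) (hK2 x hxK) y hy z hz e.symm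
  have hfk : Module.finrank ℂ (LinearMap.ker φ) = Module.finrank ℂ K :=
    (Submodule.equivMapOfInjective (Wn A p n).subtype (Submodule.injective_subtype _)
      (LinearMap.ker φ)).finrank_eq
  have hrk := pv2_rank (V := Wn A p n) (U := I) φ
  have hsup := Submodule.finrank_sup_add_finrank_inf_eq K I
  rw [hinf, finrank_bot, add_zero] at hsup
  have hfin : K ⊔ I = Wn A p n := by
    refine Submodule.eq_of_le_of_finrank_le (sup_le hKW hIW) ?_
    omega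
  rw [← hfin] at hv
  obtain ⟨x, hx, i, hi, e⟩ := Submodule.mem_sup.1 hv
  obtain ⟨_, ⟨y, hy, rfl⟩, _, ⟨z, hz, rfl⟩, e'⟩ := Submodule.mem_sup.1 hi
  refine ⟨x, hKW hx, y, hy, z, hz, hK1 x hx, hK2 x hx, ?_⟩
  rw [← e, ← e', add_assoc]

end

end WPQ
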