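import Pool.Agent.WPQ.NTM
import Pool.Agent.WPQ.PV2
import Pool.Agent.WPQ.JJ1

/-! [WPQ-LW1] Charges of low weight, type A.

Plan.  `lw_dom`: `2 ν_i ≥ ν_{i-1} + ν_{i+1}` (with `ν_{-1} = ν_l = 0`): concave, so `ν_i ≥ 0` (look at a
minimum), and if some `ν_i = 0` then its neighbours are `0` (they are `≥ 0` with sum `≤ 0`), so `ν = 0`.
A convenient induction: extend `ν` by `0` to `ℤ` or `ℕ`.
`lw_step`: as `pv2_dom` (PV2.lean), keeping `bl A γ γ` (JJ1: `bl`, `refl`, `bl_refl`; `γ + b • rt j` with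
`pr A j γ = -b` is the reflection, `jj3_refl_eq`): from `γ ∈ pv2_X`, `γ ≠ 0`, one finds a dominant
`ν ∈ pv2_X` with `bl A ν ν = bl A γ γ`, so `ν ≠ 0`.
`lw_charge`: suppose `v γ ≠ 0`; `single γ (v γ) ∈ Wn` (`pv2_mem`), so `γ ∈ pv2_X A p n`; `lw_step`;
`pv2_bound`: `wtExp A p (-ν) ≤ n`; `wtExp (-ν) = p (ν,ν)/2 + (p-1) ∑ ν_i ≥ p + (p-1) l` (`bl_self_pos`,
`lw_dom`; `formZ A p ν ν = p * bl A ν ν`). -/

namespace WPQ

open MvPolynomial

noncomputable section

theorem lw1_a (l : ℕ) (f : ℕ → ℤ) (h0 : f 0 = 0)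
    (hc : ∀ k < l, f k + f (k + 2) ≤ 2 * f (k + 1)) (k : ℕ) (hk : k ≤ l) :
    (k : ℤ) * f (k + 1) ≤ ((k : ℤ) + 1) * f k := by
  induction k with
  | zero => simp [h0]
  | succ k ih =>
    have h1 := ih (by omega)
    have h2 := hc k (by omega)
    have h3 : (0 : ℤ) ≤ (k : ℤ) + 1 := by positivity
    have h4 := mul_le_mul_of_nonneg_left h2 h3
    push_cast
    linarith

theorem lw1_b (l : ℕ) (f : ℕ → ℤ) (h0 : f 0 = 0) (hl : f (l + 1) = 0)
    (hc : ∀ k < l, f k + f (k + 2) ≤ 2 * f (k + 1)) (d : ℕ) :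
    ∀ k, k + d = l → 1 ≤ k → 0 ≤ f k := by
  induction d with
  | zero =>
    intro k hk h1
    have h2 := lw1_a l f h0 hc k (by omega)
    have e : k + 1 = l + 1 := by omega
    rw [e, hl, mul_zero] at h2
    by_contra h
    push Not at h
    have h3 : (0 : ℤ) < (k : ℤ) + 1 := by positivity
    have := mul_neg_of_pos_of_neg h3 h
    omega
  | succ d ih =>
    intro k hk h1
    have h2 := lw1_a l f h0 hc k (by omega)
    have h3 := ih (k + 1) (by omega) (by omega)
    have h4 : (0 : ℤ) ≤ (k : ℤ) * f (k + 1) := mul_nonneg (by positivity) h3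
    by_contra h
    push Not at h
    have h5 : (0 : ℤ) < (k : ℤ) + 1 := by positivity
    have := mul_neg_of_pos_of_neg h5 h
    omega

theorem lw1_c (l : ℕ) (f : ℕ → ℤ) (h0 : f 0 = 0)
    (hc : ∀ k < l, f k + f (k + 2) ≤ 2 * f (k + 1)) (m : ℕ) (hm : m ≤ l + 1) (h : 1 ≤ f m)
    (d : ℕ) : ∀ k, k + d = m → 1 ≤ k → 1 ≤ f k := by
  induction d with
  | zero =>
    intro k hk h1
    have e : k = m := by omega
    rw [e]
    exact h
  | succ d ih =>
    intro k hk h1
    have h2 := lw1_a l f h0 hc k (by omega)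
    have h3 := ih (k + 1) (by omega) (by omega)
    have h4 : (0 : ℤ) < (k : ℤ) * f (k + 1) := mul_pos (by exact_mod_cast h1) (by omega)
    by_contra h
    push Not at h
    have h5 : (0 : ℤ) ≤ (k : ℤ) + 1 := by positivity
    have := mul_nonpos_of_nonneg_of_nonpos h5 (show f k ≤ 0 by omega)
    omega

theorem lw1_pos (l : ℕ) (f : ℕ → ℤ) (h0 : f 0 = 0) (hl : f (l + 1) = 0)
    (hc : ∀ k < l, f k + f (k + 2) ≤ 2 * f (k + 1)) (m : ℕ) (hm1 : 1 ≤ m) (hm : m ≤ l)
    (h : f m ≠ 0) (k : ℕ) (hk1 : 1 ≤ k) (hk : k ≤ l) : 1 ≤ f k := by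
  have h1 : 1 ≤ f m := by
    have := lw1_b l f h0 hl hc (l - m) m (by omega) hm1
    omega
  rcases le_total k m with h2 | h2
  · exact lw1_c l f h0 hc m (by omega) h1 (m - k) k (by omega) hk1
  · have h3 := lw1_c l (fun i => f (l + 1 - i)) (by simpa using hl) (by
      intro i hi
      have h4 := hc (l - 1 - i) (by omega)
      have e1 : l + 1 - i = l - 1 - i + 2 := by omega
      have e2 : l + 1 - (i + 2) = l - 1 - i := by omega
      have e3 : l + 1 - (i + 1) = l - 1 - i + 1 := by omega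
      show f (l + 1 - i) + f (l + 1 - (i + 2)) ≤ 2 * f (l + 1 - (i + 1))
      rw [e1, e2, e3]
      omega) (l + 1 - m) (by omega) (by
      show 1 ≤ f (l + 1 - (l + 1 - m))
      rw [show l + 1 - (l + 1 - m) = m by omega]
      exact h1) (k - m) (l + 1 - k) (by omega) (by omega)
    have h5 : 1 ≤ f (l + 1 - (l + 1 - k)) := h3
    rwa [show l + 1 - (l + 1 - k) = k by omega] at h5

theorem lw1_sum {R : Type} [CommRing R] (l : ℕ) (G : ℕ → R) (h0 : G 0 = 0) (hl : G (l + 1) = 0)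
    (j : Fin l) :
    ∑ i : Fin l, ((cartanA l j i : ℤ) : R) * G (i + 1) = 2 * G (j + 1) - G j - G (j + 2) := by
  have hpt : ∀ i : Fin l, ((cartanA l j i : ℤ) : R) * G (i + 1) =
      ((if (i : ℕ) = j then 2 * G (i + 1) else 0) - (if (i : ℕ) + 1 = j then G (i + 1) else 0)) -
        (if (i : ℕ) = j + 1 then G (i + 1) else 0) := by
    intro i
    unfold cartanA
    by_cases h1 : j = i
    · subst h1
      rw [if_pos rfl, if_pos rfl, if_neg (by omega), if_neg (by omega)]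
      push_cast
      ring
    · have h2 : (i : ℕ) ≠ j := fun h => h1 (Fin.ext h.symm)
      rw [if_neg h1, if_neg h2]
      by_cases h3 : (i : ℕ) + 1 = j
      · rw [if_pos (Or.inr h3), if_pos h3, if_neg (by omega)]
        push_cast
        ring
      · rw [if_neg h3]
        by_cases h4 : (i : ℕ) = j + 1
        · rw [if_pos (Or.inl h4.symm), if_pos h4]
          push_cast
          ring
        · rw [if_neg (by omega), if_neg h4]
          push_cast
          ring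
  rw [Finset.sum_congr rfl fun i _ => hpt i, Finset.sum_sub_distrib, Finset.sum_sub_distrib]
  have s1 : ∑ i : Fin l, (if (i : ℕ) = j then 2 * G (i + 1) else 0) = 2 * G (j + 1) := by
    rw [Finset.sum_eq_single j]
    · rw [if_pos rfl]
    · intro b _ hb
      rw [if_neg fun h => hb (Fin.ext h)]
    · intro h
      exact absurd (Finset.mem_univ j) h
  have s2 : ∑ i : Fin l, (if (i : ℕ) + 1 = j then G (i + 1) else 0) = G j := by
    rcases Nat.eq_zero_or_pos (j : ℕ) with hj | hj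
    · rw [hj, h0]
      exact Finset.sum_eq_zero fun i _ => if_neg (by omega)
    · rw [Finset.sum_eq_single (⟨j - 1, by omega⟩ : Fin l)]
      · have e : (j : ℕ) - 1 + 1 = j := by omega
        show (if (j : ℕ) - 1 + 1 = j then G ((j : ℕ) - 1 + 1) else 0) = G j
        rw [if_pos e, e]
      · intro b _ hb
        rw [if_neg fun h => hb (Fin.ext (by
          show (b : ℕ) = (j : ℕ) - 1
          omega))]
      · intro h
        exact absurd (Finset.mem_univ _) h
  have s3 : ∑ i : Fin l, (if (i : ℕ) = j + 1 then G (i + 1) else 0) = G (j + 2) := by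
    by_cases hj : (j : ℕ) + 1 < l
    · rw [Finset.sum_eq_single (⟨j + 1, hj⟩ : Fin l)]
      · show (if (j : ℕ) + 1 = j + 1 then G ((j : ℕ) + 1 + 1) else 0) = G (j + 2)
        rw [if_pos rfl]
      · intro b _ hb
        rw [if_neg fun h => hb (Fin.ext h)]
      · intro h
        exact absurd (Finset.mem_univ _) h
    · have e : (j : ℕ) + 2 = l + 1 := by omega
      rw [e, hl]
      exact Finset.sum_eq_zero fun i _ => if_neg (by omega)
  rw [s1, s2, s3]


theorem lw1_refl_eq {ι : Type} [Fintype ι] [DecidableEq ι] {A : Matrix ι ι ℤ} (j : ι)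
    (g : ι → ℤ) (b : ℕ) (hb : pr A j g = -(b : ℤ)) : g + b • rt j = refl A j g := by
  unfold refl
  rw [hb, neg_smul, sub_neg_eq_add, natCast_zsmul]

theorem lw_dom (l : ℕ) (ν : Fin l → ℤ) (hd : Dom (cartanA l) ν) (h0 : ν ≠ 0) (i : Fin l) :
    1 ≤ ν i := by
  set f : ℕ → ℤ := fun k => if h : 1 ≤ k ∧ k ≤ l then ν ⟨k - 1, by omega⟩ else 0 with hf
  have hfi : ∀ i : Fin l, f (i + 1) = ν i := by
    intro i
    have hi := i.2
    simp only [hf]
    rw [dif_pos ⟨by omega, by omega⟩]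
    rfl
  have h00 : f 0 = 0 := by
    simp only [hf]
    rw [dif_neg (by omega)]
  have hl0 : f (l + 1) = 0 := by
    simp only [hf]
    rw [dif_neg (by omega)]
  have hc : ∀ k < l, f k + f (k + 2) ≤ 2 * f (k + 1) := by
    intro k hk
    have h1 := lw1_sum l f h00 hl0 ⟨k, hk⟩
    simp only [Int.cast_id] at h1
    have h2 : pr (cartanA l) ⟨k, hk⟩ ν =
        ∑ i : Fin l, ((cartanA l ⟨k, hk⟩ i : ℤ) : ℤ) * f (i + 1) := by
      unfold pr
      refine Finset.sum_congr rfl fun i _ => ?_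
      rw [hfi]
    have h3 := hd ⟨k, hk⟩
    rw [h2, h1] at h3
    have h4 : 0 ≤ 2 * f (k + 1) - f k - f (k + 2) := h3
    omega
  obtain ⟨m, hm⟩ : ∃ m : Fin l, ν m ≠ 0 := by
    by_contra h
    push Not at h
    exact h0 (funext h)
  have hm2 := m.2
  have hi2 := i.2
  have h5 := lw1_pos l f h00 hl0 hc (m + 1) (by omega) (by omega) (by rw [hfi]; exact hm) (i + 1)
    (by omega) (by omega)
  rwa [hfi] at h5

theorem lw_step {ι : Type} [Fintype ι] [DecidableEq ι] {A : Matrix ι ι ℤ} {p : ℕ} (hA : IsADE A)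
    (hp : 2 ≤ p) (ε : Cocycle A p) (n : ℤ) (γ : ι → ℤ) (h : γ ∈ pv2_X A p n) (h0 : γ ≠ 0) :
    ∃ ν ∈ pv2_X A p n, Dom A ν ∧ ν ≠ 0 := by
  have hfin : (pv2_X A p n ∩ {ν | bl A ν ν = bl A γ γ}).Finite :=
    (pv2_X_finite hA hp n).subset Set.inter_subset_left
  obtain ⟨ν, hν, hmax⟩ := hfin.exists_maximalFor (fun γ : ι → ℤ => ∑ i, γ i) _ ⟨γ, h, rfl⟩
  obtain ⟨hν1, hν2⟩ := hν
  refine ⟨ν, hν1, ?_, ?_⟩
  · by_contra hd
    obtain ⟨j, b, hb, hpr, hmem⟩ := pv2_step hA hp ε n ν hν1 hd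
    have hsum := pv2_sum ν b j
    have hbl : bl A (ν + b • rt j) (ν + b • rt j) = bl A γ γ := by
      rw [lw1_refl_eq j ν b hpr, bl_refl hA]
      exact hν2
    have hge := hmax (⟨hmem, hbl⟩ : ν + b • rt j ∈ pv2_X A p n ∩ {ν | bl A ν ν = bl A γ γ})
      (by simp only [hsum]; omega)
    simp only [hsum] at hge
    omega
  · rintro rfl
    have h1 := bl_self_pos hA γ h0
    have h2 : bl A (0 : ι → ℤ) 0 = bl A γ γ := hν2
    rw [← h2] at h1
    simp [bl] at h1

/-- There are no vectors of nonzero charge of weight `< p + (p-1) l`. -/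
theorem lw_charge (l p : ℕ) (hl : 2 ≤ l) (hp : 2 ≤ p) (n : ℤ)
    (hn : n < (p : ℤ) + ((p : ℤ) - 1) * l) (v : VL (Fin l)) (hv : v ∈ Wn (cartanA l) p n)
    (γ : Fin l → ℤ) (hγ : γ ≠ 0) : v γ = 0 := by
  by_contra hv0
  have hA := cartanA_ade l
  obtain ⟨ε⟩ := cocycle_exists (cartanA l) hA p
  obtain ⟨ν, hν, hd, hne⟩ := lw_step hA hp ε n γ ⟨v γ, hv0, pv2_mem n v hv γ⟩ hγ
  have h1 := pv2_bound hA hp ε n ν hν
  have h2 := bl_self_pos hA ν hne
  have h3 : (l : ℤ) ≤ ∑ i, ν i := by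
    have h4 : ∑ _i : Fin l, (1 : ℤ) ≤ ∑ i, ν i := Finset.sum_le_sum fun i _ => lw_dom l ν hd hne i
    simpa using h4
  have h5 : formZ (cartanA l) p (-ν) (-ν) = p * bl (cartanA l) ν ν := by
    unfold formZ bl
    congr 1
    refine Finset.sum_congr rfl fun i _ => Finset.sum_congr rfl fun j _ => ?_
    rw [Pi.neg_apply, Pi.neg_apply]
    ring
  obtain ⟨k, hk⟩ := jj1_even hA ν
  have h6 : formZ (cartanA l) p (-ν) (-ν) / 2 = p * k := by
    rw [h5, hk, show (p : ℤ) * (2 * k) = 2 * (p * k) by ring]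
    exact Int.mul_ediv_cancel_left _ (by norm_num)
  have h7 : wtExp (cartanA l) p (-ν) = p * k + ((p : ℤ) - 1) * ∑ i, ν i := by
    unfold wtExp
    rw [h6]
    have h8 : ∑ i, (-ν) i = -∑ i, ν i := by
      rw [← Finset.sum_neg_distrib]
      rfl
    rw [h8]
    ring
  rw [h7] at h1
  have hp0 : (2 : ℤ) ≤ p := by exact_mod_cast hp
  have h9 : (p : ℤ) * 1 ≤ p * k := mul_le_mul_of_nonneg_left (by omega) (by omega)
  have h10 : ((p : ℤ) - 1) * l ≤ ((p : ℤ) - 1) * ∑ i, ν i :=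
    mul_le_mul_of_nonneg_left h3 (by omega)
  rw [mul_one] at h9
  linarith

end

end WPQ
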