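import Pool.Agent.WPQ.LWD

/-! [WPQ-VA1] Products of modes.

Plan.  All four: `mode_eq`, i.e. show that the right hand side is a vertex operator
(`IsVertexOperator`) of the vector in question.
`mode_prodN`: `isFld_prodN`, `loc_prodN` (with `vo_local`, `mode_spec`; locality with the generating
fields `expMode`, `heisMode`: `(mode_spec ..).local_exp`, `.local_heis`; enlarge the exponents with
`LocP.mono`; `Loc.symm`), `cov_prodN`, `vac_prodN`, `creation_prodN`, `mode_neg_one_vac`.
`mode_transl`: `der (mode ε u)`: `isFld_der`, `LocP.der_left`, `cov_der`, `vac_der`; creation: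
`der a (-1) vac = a (-2) vac = T a (-1) vac` by translation covariance at `n = -1` and `transl_vac`.
`mode_vac`: `idF` (see how `Loc.idF_right`, `Built.one` are used).
`mode_nop`: `nop_exists`, `isFld_nop`, `loc_nop`, `cov_nop`, `vac_nop`, `creation_nop`. -/

namespace WPQ

open MvPolynomial AF

noncomputable section

variable {ι : Type} [Fintype ι] [DecidableEq ι] {A : Matrix ι ι ℤ} {p : ℕ}

omit [Fintype ι] [DecidableEq ι] in
/-- Local with a fixed field `c`: two fields `a`, `b` that are local with each other. -/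
theorem va1_prod {a b c : ℤ → VL ι →ₗ[ℂ] VL ι} (n : ℕ) (hca : Local a c) (hcb : Local b c)
    (hab : ∃ N : ℕ, Loc N a b) : Local (prodN n a b) c := by
  obtain ⟨N1, h1⟩ := hca
  obtain ⟨N2, h2⟩ := hcb
  obtain ⟨N3, h3⟩ := hab
  have k1 : Loc (N1 + N2 + N3) c a := Loc.symm (LocP.mono (by omega) (h1 : Loc N1 a c))
  have k2 : Loc (N1 + N2 + N3) c b := Loc.symm (LocP.mono (by omega) (h2 : Loc N2 b c))
  have k3 : Loc (N1 + N2 + N3) a b := LocP.mono (by omega) h3
  exact ⟨_, Loc.symm (loc_prodN n k1 k2 k3)⟩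

omit [Fintype ι] [DecidableEq ι] in
theorem va1_nop {a b c d : ℤ → VL ι →ₗ[ℂ] VL ι} (ha : IsFld a) (hb : IsFld b)
    (hd : IsNop a b d) (hca : Local a c) (hcb : Local b c)
    (hab : ∃ N : ℕ, Loc N a b) : Local d c := by
  obtain ⟨N1, h1⟩ := hca
  obtain ⟨N2, h2⟩ := hcb
  obtain ⟨N3, h3⟩ := hab
  have k1 : Loc (N1 + N2 + N3) c a := Loc.symm (LocP.mono (by omega) (h1 : Loc N1 a c))
  have k2 : Loc (N1 + N2 + N3) c b := Loc.symm (LocP.mono (by omega) (h2 : Loc N2 b c))
  have k3 : Loc (N1 + N2 + N3) a b := LocP.mono (by omega) h3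
  exact ⟨_, Loc.symm (loc_nop ha hb hd k1 k2 k3)⟩

theorem mode_prodN (hA : IsADE A) (hp : 1 ≤ p) (ε : Cocycle A p) (u v : VL ι) (n : ℕ) :
    mode ε (mode ε u n v) = prodN n (mode ε u) (mode ε v) := by
  have hu := mode_spec hA hp ε u
  have hv := mode_spec hA hp ε v
  have huv := vo_local hA hp ε u v _ _ hu hv
  refine mode_eq ε _ _ ⟨isFld_prodN n hu.field hv.field, fun γ => ?_, fun h => ?_, ?_, ?_, ?_⟩
  · exact va1_prod n (hu.local_exp γ) (hv.local_exp γ) huv
  · exact va1_prod n (hu.local_heis h) (hv.local_heis h) huv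
  · exact cov_prodN n (T := transl) hu.translation hv.translation
  · exact vac_prodN n vac hu.vacuum hv.vacuum
  · rw [creation_prodN n vac hu.vacuum hv.vacuum, hv.creation]

theorem mode_transl (hA : IsADE A) (hp : 1 ≤ p) (ε : Cocycle A p) (u : VL ι) (n : ℤ) :
    mode ε (transl u) n = (-n : ℂ) • mode ε u (n - 1) := by
  have hu := mode_spec hA hp ε u
  have h : IsVertexOperator ε (transl u) (der (mode ε u)) := by
    refine ⟨isFld_der hu.field, fun γ => ?_, fun h => ?_, ?_, ?_, ?_⟩
    · obtain ⟨N, hN⟩ := hu.local_exp γ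
      exact ⟨N + 1, LocP.der_left (b' := expMode ε γ) hN⟩
    · obtain ⟨N, hN⟩ := hu.local_heis h
      exact ⟨N + 1, LocP.der_left (b' := heisMode A p h) hN⟩
    · exact cov_der (T := transl) hu.translation
    · exact vac_der vac hu.vacuum
    · have ht := LinearMap.congr_fun (hu.translation (-1)) vac
      rw [LinearMap.sub_apply, LinearMap.comp_apply, LinearMap.comp_apply, transl_vac, map_zero,
        sub_zero, hu.creation] at ht
      exact ht.symm
  rw [mode_eq ε _ _ h]
  rfl

theorem mode_vac (hA : IsADE A) (hp : 1 ≤ p) (ε : Cocycle A p) (n : ℤ) :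
    mode ε (vac : VL ι) n = if n = -1 then LinearMap.id else 0 := by
  have h : IsVertexOperator ε (vac : VL ι) idF := by
    refine ⟨fun v => ⟨0, fun n hn => ?_⟩, fun γ => ⟨0, Loc.symm (Loc.idF_right _)⟩,
      fun h => ⟨0, Loc.symm (Loc.idF_right _)⟩, fun n => ?_, fun n hn => ?_, ?_⟩
    · rw [idF, if_neg (by omega), LinearMap.zero_apply]
    · by_cases h1 : n = -1
      · subst h1
        rw [idF, if_pos rfl, idF, if_neg (by omega), LinearMap.comp_id, LinearMap.id_comp]
        refine LinearMap.ext fun w => ?_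
        rw [LinearMap.sub_apply, sub_self, LinearMap.smul_apply, LinearMap.zero_apply, smul_zero]
      · by_cases h2 : n = 0
        · subst h2
          rw [idF, if_neg (by omega), LinearMap.comp_zero, LinearMap.zero_comp,
            Int.cast_zero, neg_zero]
          refine LinearMap.ext fun w => ?_
          rw [LinearMap.sub_apply, sub_self, LinearMap.smul_apply, zero_smul]
        · rw [idF, if_neg h1, idF, if_neg (by omega), LinearMap.comp_zero, LinearMap.zero_comp]
          refine LinearMap.ext fun w => ?_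
          rw [LinearMap.sub_apply, sub_self, LinearMap.smul_apply, LinearMap.zero_apply, smul_zero]
    · rw [idF, if_neg (by omega), LinearMap.zero_apply]
    · rw [idF, if_pos rfl, LinearMap.id_apply]
  rw [mode_eq ε _ _ h]
  rfl

theorem mode_nop (hA : IsADE A) (hp : 1 ≤ p) (ε : Cocycle A p) (u v : VL ι) :
    IsNop (mode ε u) (mode ε v) (mode ε (mode ε u (-1) v)) := by
  have hu := mode_spec hA hp ε u
  have hv := mode_spec hA hp ε v
  have huv := vo_local hA hp ε u v _ _ hu hv
  obtain ⟨c, hc⟩ := nop_exists (a := mode ε u) (b := mode ε v) hu.field hv.field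
  have h : IsVertexOperator ε (mode ε u (-1) v) c := by
    refine ⟨isFld_nop hu.field hv.field hc, fun γ => ?_, fun h => ?_, ?_, ?_, ?_⟩
    · exact va1_nop hu.field hv.field hc (hu.local_exp γ) (hv.local_exp γ) huv
    · exact va1_nop hu.field hv.field hc (hu.local_heis h) (hv.local_heis h) huv
    · exact cov_nop (T := transl) hu.field hv.field hc hu.translation hv.translation
    · exact vac_nop hc vac hu.vacuum hv.vacuum
    · rw [creation_nop hc vac hu.vacuum hv.vacuum, hv.creation]
  rw [mode_eq ε _ _ h]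
  exact hc

end

end WPQ
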