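import Pool.Agent.WPQ.LW4
import Pool.Agent.WPQ.LW2
import Pool.Agent.WPQ.VA1
import Pool.Agent.WPQ.VA4

/-! [WPQ-LW5] Primary vectors of charge `0` of weight three, and of weight six for `A_2`.

Plan.  `sy_mode`: let `J` be the ideal of `Fock ι` generated by the `X(i,k)`, `k ≥ 1` (or use `sy y`
directly, for all `y`).  Let `P(u)`: for all `v`: `sy y ((mode ε (single 0 u) (-1) (single 0 v)) 0) = sy y u * sy y v`
and `sy y ((mode ε (single 0 u) n (single 0 v)) 0) = 0` for `n ≤ -2`.  The set of `u` with `P(u)` is a subspace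
(`mode_add`, `mode_smul`), contains `1` (`mode_vac`), is closed under `D = transl` at charge `0` (`mode_transl`;
`sy y (D u) = 0`) and under multiplication by `osc h 0 = h(-1)`: `mode_nop` with `u := h(-1)1`,
`mode_osc`-type fact (`mode ε (single 0 (osc h 0)) n = heisMode A p h n`, proved inside VA4.lean, or `mode_osc` in
KK1.lean): `(h(-1)u)_m v = ∑_{i ≥ 0} (h(-1-i) u_{m+i} v + u_{m-1-i} h(i) v)`.  `sy y (h(-1-i) g) = 0` for `i ≥ 1`,
`= sy(osc h 0) sy y g` for `i = 0`; `sy (u_{m-1-i} ·) = 0` as `m-1-i ≤ -2`.  `h(i) v` stays in charge `0`.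
The smallest subspace that contains `1` and is closed under `D` and all `osc h 0` is everything:
it is closed under multiplication by `X(i,k)` by induction on `k`:
`(k+2) X(i,k+1) g = D (X(i,k) g) - X(i,k) D g`; `X(i,0) = osc (bb i) 0`.
`prim0_three`: `f` from `exists_w` with `n = 3`; `y = (0, 3, -2, 0, ..)` (`y = (0,3)` for `l = 2`): the values
`∑_a lwE l i a * y a` are `1, 1, -2, 0, ..`, the product is `(1+X)²(1-2X)`, coefficient `-2`.  `hdec` for
`single 0 f`: `= x + L(-1) y' + L(-2) z`, `z ∈ Wn 1 = ⊥` (`lw_V1`); symbol of the charge `0` components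
(`sy_LS1`): `sy (x 0) = -2`, so `single 0 (x 0) ≠ 0`, and it is in `Prim0 3` (`pv2_mem`, `LS_comp`).
`prim0_six`: `l = 2`, `ζ² + ζ + 1 = 0`, `y = (1-ζ, ζ-ζ²)`: values `1, ζ, ζ²`, product `1 + X³`;
`f` from `exists_w`, `n = 3`, `sy y f = 1`; `g = mode (single 0 f) (-1) (single 0 f) ∈ Wn 6` (`mode_Wn`), `sy y (g 0) = 1`.
`hdec`: `g = x + L(-1) a + L(-2) b`; `sy_LS2`: the factor is `(1/(3p)) (y_0² + y_0 y_1 + y_1²) = 0` (`dual`: the
inverse of the Cartan matrix of `A_2` is `(1/3) [[2,1],[1,2]]`), so `sy y (x 0) = 1`. -/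

namespace WPQ

open MvPolynomial AF

noncomputable section

/-! ### the symbol is multiplicative -/

section sym

variable {ι : Type} [Fintype ι] [DecidableEq ι] {A : Matrix ι ι ℤ} {p : ℕ}

/-- the induction property -/
def lw5_P (ε : Cocycle A p) (y : ι → ℂ) (u : Fock ι) : Prop :=
  ∀ v : Fock ι, sy y ((mode ε (Finsupp.single 0 u) (-1) (Finsupp.single 0 v)) 0) =
      sy y u * sy y v ∧
    ∀ n : ℤ, n ≤ -2 → sy y ((mode ε (Finsupp.single 0 u) n (Finsupp.single 0 v)) 0) = 0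

omit [Fintype ι] [DecidableEq ι] in
theorem lw5_sy_X (y : ι → ℂ) (i : ι) (k : ℕ) :
    sy y (X (i, k)) = if k = 0 then y i else 0 := by
  unfold sy
  rw [aeval_X]

omit [DecidableEq ι] in
theorem lw5_sy_osc (y : ι → ℂ) (h : ι → ℂ) (k : ℕ) (hk : k ≠ 0) : sy y (osc h k) = 0 := by
  unfold osc
  rw [map_sum]
  refine Finset.sum_eq_zero fun i _ => ?_
  rw [map_mul, lw5_sy_X, if_neg hk, mul_zero]

omit [Fintype ι] [DecidableEq ι] in
theorem lw5_sy_D (y : ι → ℂ) (u : Fock ι) : sy y (lwD ι u) = 0 := by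
  induction u using MvPolynomial.induction_on with
  | C a =>
    unfold lwD
    simp
  | add f g hf hg => rw [map_add, map_add, hf, hg, add_zero]
  | mul_X f x hf =>
    rw [Derivation.leibniz, map_add]
    simp only [smul_eq_mul]
    rw [map_mul, map_mul, hf, mul_zero, add_zero]
    unfold lwD
    rw [mkDerivation_X, map_smul, lw5_sy_X, if_neg (Nat.succ_ne_zero _), smul_zero, mul_zero]

omit [DecidableEq ι] in
theorem lw5_transl (u : Fock ι) :
    transl (Finsupp.single 0 u : VL ι) = Finsupp.single 0 (lwD ι u) := by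
  unfold transl
  rw [Finsupp.lsum_single]
  have h0 : osc (toC (0 : ι → ℤ)) 0 = (0 : Fock ι) := by
    unfold osc toC
    simp
  rw [LinearMap.comp_apply, LinearMap.add_apply, h0]
  simp only [LinearMap.mulLeft_apply, zero_mul, add_zero]
  rfl

omit [DecidableEq ι] in
theorem lw5_supp (u : Fock ι) :
    (Finsupp.single 0 u : VL ι) ∈ Finsupp.supported (Fock ι) ℂ {(0 : ι → ℤ)} := by
  refine va4_mem_supp _ _ fun δ hδ => ?_
  rw [Finsupp.single_apply, if_neg (Ne.symm hδ)]

theorem lw5_single (hA : IsADE A) (hp : 1 ≤ p) (ε : Cocycle A p) (u v : Fock ι) (n : ℤ) :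
    mode ε (Finsupp.single 0 u) n (Finsupp.single 0 v) =
      Finsupp.single 0 ((mode ε (Finsupp.single 0 u) n (Finsupp.single 0 v)) 0) := by
  have h1 := mode_charge hA hp ε 0 0 n _ _ (lw5_supp u) (lw5_supp v)
  rw [add_zero] at h1
  exact va4_supp_single _ _ h1

theorem lw5_one (hA : IsADE A) (hp : 1 ≤ p) (ε : Cocycle A p) (y : ι → ℂ) : lw5_P ε y 1 := by
  intro v
  have h1 : (Finsupp.single 0 1 : VL ι) = vac := rfl
  refine ⟨?_, fun n hn => ?_⟩
  · rw [h1, mode_vac hA hp, if_pos rfl, map_one, one_mul, LinearMap.id_apply,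
      Finsupp.single_eq_same]
  · rw [h1, mode_vac hA hp, if_neg (by omega), LinearMap.zero_apply, Finsupp.zero_apply, map_zero]

theorem lw5_add (hA : IsADE A) (hp : 1 ≤ p) (ε : Cocycle A p) (y : ι → ℂ) (u u' : Fock ι)
    (h : lw5_P ε y u) (h' : lw5_P ε y u') : lw5_P ε y (u + u') := by
  intro v
  refine ⟨?_, fun n hn => ?_⟩
  · rw [Finsupp.single_add, mode_add hA hp, LinearMap.add_apply, Finsupp.add_apply, map_add,
      (h v).1, (h' v).1, map_add, add_mul]
  · rw [Finsupp.single_add, mode_add hA hp, LinearMap.add_apply, Finsupp.add_apply, map_add,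
      (h v).2 n hn, (h' v).2 n hn, add_zero]

theorem lw5_smul (hA : IsADE A) (hp : 1 ≤ p) (ε : Cocycle A p) (y : ι → ℂ) (c : ℂ) (u : Fock ι)
    (h : lw5_P ε y u) : lw5_P ε y (c • u) := by
  intro v
  refine ⟨?_, fun n hn => ?_⟩
  · rw [← Finsupp.smul_single, mode_smul hA hp, LinearMap.smul_apply, Finsupp.smul_apply, map_smul,
      (h v).1, map_smul, smul_mul_assoc]
  · rw [← Finsupp.smul_single, mode_smul hA hp, LinearMap.smul_apply, Finsupp.smul_apply, map_smul,
      (h v).2 n hn, smul_zero]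

theorem lw5_D (hA : IsADE A) (hp : 1 ≤ p) (ε : Cocycle A p) (y : ι → ℂ) (u : Fock ι)
    (h : lw5_P ε y u) : lw5_P ε y (lwD ι u) := by
  intro v
  refine ⟨?_, fun n hn => ?_⟩
  · rw [← lw5_transl, mode_transl hA hp, LinearMap.smul_apply, Finsupp.smul_apply, map_smul,
      (h v).2 (-1 - 1) (by norm_num), smul_zero, lw5_sy_D, zero_mul]
  · rw [← lw5_transl, mode_transl hA hp, LinearMap.smul_apply, Finsupp.smul_apply, map_smul,
      (h v).2 (n - 1) (by omega), smul_zero]

theorem lw5_heis_neg (h : ι → ℂ) (i : ℕ) (g : Fock ι) :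
    heisMode A p h (-1 - i) (Finsupp.single 0 g) =
      Finsupp.single 0 (((i : ℂ) + 1) • (osc h i * g)) := by
  rw [fl3_heis_single]
  unfold heis
  rw [if_pos (by omega)]
  have h1 : (-(-1 - (i : ℤ)) - 1).toNat = i := by omega
  rw [h1, LinearMap.smul_apply, LinearMap.mulLeft_apply]
  congr 2
  push_cast
  ring

theorem lw5_osc (hA : IsADE A) (hp : 1 ≤ p) (ε : Cocycle A p) (y : ι → ℂ) (h : ι → ℂ)
    (u : Fock ι) (hu : lw5_P ε y u) : lw5_P ε y (osc h 0 * u) := by
  have hm := va4_mode_heis hA hp ε h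
  have h0 : mode ε (Finsupp.single 0 (osc h 0)) (-1) (Finsupp.single 0 u) =
      Finsupp.single 0 (osc h 0 * u) := by
    have h1 := lw5_heis_neg (A := A) (p := p) h 0 u
    rw [hm]
    simpa using h1
  have hn := mode_nop hA hp ε (Finsupp.single 0 (osc h 0)) (Finsupp.single 0 u)
  rw [h0, hm] at hn
  -- the first kind of terms
  have hA1 : ∀ (m : ℤ) (i : ℕ) (f : Fock ι), sy y ((heisMode A p h (-1 - i)
      (mode ε (Finsupp.single 0 u) (m + i) (Finsupp.single 0 f))) 0) =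
      if i = 0 then sy y (osc h 0) *
        sy y ((mode ε (Finsupp.single 0 u) m (Finsupp.single 0 f)) 0) else 0 := by
    intro m i f
    rw [lw5_single hA hp ε u f, lw5_heis_neg, Finsupp.single_eq_same, map_smul, map_mul]
    by_cases hi : i = 0
    · subst hi
      rw [if_pos rfl]
      simp
    · rw [if_neg hi, lw5_sy_osc y h i hi, zero_mul, smul_zero]
  have hB1 : ∀ (m : ℤ) (i : ℕ) (f : Fock ι), m ≤ -1 → sy y ((mode ε (Finsupp.single 0 u) (m - 1 - i)
      (heisMode A p h i (Finsupp.single 0 f))) 0) = 0 := by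
    intro m i f hm
    rw [fl3_heis_single]
    exact (hu _).2 _ (by omega)
  have key : ∀ (m : ℤ) (f : Fock ι), m ≤ -1 →
      sy y ((mode ε (Finsupp.single 0 (osc h 0 * u)) m (Finsupp.single 0 f)) 0) =
      sy y (osc h 0) * sy y ((mode ε (Finsupp.single 0 u) m (Finsupp.single 0 f)) 0) := by
    intro m f hm1
    obtain ⟨M0, hM0⟩ := hn m (Finsupp.single 0 f)
    rw [hM0 (M0 + 1) (by omega), Finsupp.finsetSum_apply, map_sum]
    rw [Finset.sum_eq_single 0]
    · rw [Finsupp.add_apply, map_add, hA1 m 0 f, hB1 m 0 f hm1, if_pos rfl, add_zero]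
    · intro i _ hi
      rw [Finsupp.add_apply, map_add, hA1 m i f, hB1 m i f hm1, if_neg hi, add_zero]
    · intro hh
      exact absurd (Finset.mem_range.2 (Nat.succ_pos M0)) hh
  intro v
  refine ⟨?_, fun n hn2 => ?_⟩
  · rw [key (-1) v le_rfl, (hu v).1, map_mul, mul_assoc]
  · rw [key n v (by omega), (hu v).2 n hn2, mul_zero]

theorem lw5_X (hA : IsADE A) (hp : 1 ≤ p) (ε : Cocycle A p) (y : ι → ℂ) (i : ι) (k : ℕ) :
    ∀ u : Fock ι, lw5_P ε y u → lw5_P ε y (X (i, k) * u) := by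
  induction k with
  | zero =>
    intro u hu
    have h1 := lw5_osc hA hp ε y (bb i) u hu
    have h2 : osc (bb i) 0 = (X (i, 0) : Fock ι) := by
      unfold osc bb
      rw [Finset.sum_eq_single i]
      · simp
      · intro j _ hj
        simp [Pi.single_eq_of_ne hj]
      · intro hi
        exact absurd (Finset.mem_univ i) hi
    rwa [h2] at h1
  | succ k ih =>
    intro u hu
    have h1 : (X (i, k + 1) : Fock ι) * u =
        ((k : ℂ) + 2)⁻¹ • (lwD ι (X (i, k) * u) + (-1 : ℂ) • (X (i, k) * lwD ι u)) := by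
      have h2 : lwD ι (X (i, k) * u) = (X (i, k) : Fock ι) * lwD ι u +
          u * (((k : ℂ) + 2) • (X (i, k + 1) : Fock ι)) := by
        rw [Derivation.leibniz, smul_eq_mul, smul_eq_mul]
        congr 2
        unfold lwD
        rw [mkDerivation_X]
      have h3 : ((k : ℂ) + 2) ≠ 0 := by exact_mod_cast Nat.succ_ne_zero (k + 1)
      rw [h2, neg_smul, one_smul, add_neg_eq_iff_eq_add.2 (add_comm _ _), mul_smul_comm, smul_smul,
        inv_mul_cancel₀ h3, one_smul, mul_comm]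
    rw [h1]
    exact lw5_smul hA hp ε y _ _ (lw5_add hA hp ε y _ _ (lw5_D hA hp ε y _ (ih u hu))
      (lw5_smul hA hp ε y _ _ (ih _ (lw5_D hA hp ε y _ hu))))

theorem lw5_all (hA : IsADE A) (hp : 1 ≤ p) (ε : Cocycle A p) (y : ι → ℂ) (u : Fock ι) :
    lw5_P ε y u := by
  induction u using MvPolynomial.induction_on with
  | C a =>
    have h1 := lw5_smul hA hp ε y a 1 (lw5_one hA hp ε y)
    rwa [smul_eq_C_mul, mul_one] at h1
  | add f g hf hg => exact lw5_add hA hp ε y f g hf hg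
  | mul_X f x hf =>
    rw [mul_comm]
    exact lw5_X hA hp ε y x.1 x.2 f hf

end sym

theorem sy_mode {ι : Type} [Fintype ι] [DecidableEq ι] {A : Matrix ι ι ℤ} {p : ℕ}
    (hA : IsADE A) (hp : 1 ≤ p) (ε : Cocycle A p) (y : ι → ℂ) (u v : Fock ι) :
    sy y ((mode ε (Finsupp.single 0 u) (-1) (Finsupp.single 0 v)) 0) = sy y u * sy y v :=
  (lw5_all hA hp ε y u v).1

/-! ### evaluation of the Miura symbols -/

/-- the point with the values `V` -/
def lw5_y (l : ℕ) (V : ℕ → ℂ) : Fin l → ℂ := fun a => V a - V (a + 1)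

theorem lw5_abel (V : ℕ → ℂ) (l : ℕ) (m : ℂ) : ∑ a ∈ Finset.range l, (m - a) * (V a - V (a + 1)) =
    m * V 0 - (m - l) * V l - ∑ a ∈ Finset.range l, V (a + 1) := by
  induction l with
  | zero => simp
  | succ l ih =>
    rw [Finset.sum_range_succ, ih, Finset.sum_range_succ]
    push_cast
    ring

theorem lw5_tele (V : ℕ → ℂ) (l i : ℕ) (hi : i ≤ l) :
    ∑ a ∈ Finset.range l, (if a < i then 1 else 0) * (V a - V (a + 1)) = V 0 - V i := by
  induction l with
  | zero =>
    have : i = 0 := by omega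
    subst this
    simp
  | succ l ih =>
    rw [Finset.sum_range_succ]
    by_cases h : i ≤ l
    · rw [ih h, if_neg (by omega), zero_mul, add_zero]
    · have h1 : i = l + 1 := by omega
      subst h1
      have h2 : ∑ a ∈ Finset.range l, (if a < l + 1 then (1 : ℂ) else 0) * (V a - V (a + 1)) =
          ∑ a ∈ Finset.range l, (V a - V (a + 1)) := by
        refine Finset.sum_congr rfl fun a ha => ?_
        rw [if_pos (by have := Finset.mem_range.1 ha; omega), one_mul]
      rw [h2, Finset.sum_range_sub', if_pos (Nat.lt_succ_self l), one_mul]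
      ring

theorem lw5_val (l : ℕ) (V : ℕ → ℂ) (hV : ∑ i ∈ Finset.range (l + 1), V i = 0) (i : ℕ)
    (hi : i ≤ l) : ∑ a, lwE l i a * lw5_y l V a = V i := by
  have h0 : ((l : ℂ) + 1) ≠ 0 := by exact_mod_cast Nat.succ_ne_zero l
  have h1 : ∑ a, lwE l i a * lw5_y l V a = ∑ a ∈ Finset.range l,
      (((l : ℂ) - a) / (l + 1) - if a < i then 1 else 0) * (V a - V (a + 1)) := by
    rw [← Fin.sum_univ_eq_sum_range
      (fun a => (((l : ℂ) - (a : ℕ)) / (l + 1) - if a < i then 1 else 0) * (V a - V (a + 1)))]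
    rfl
  have h2 := lw5_abel V l (l : ℂ)
  rw [sub_self, zero_mul, sub_zero] at h2
  have h3 := lw5_tele V l i hi
  rw [Finset.sum_range_succ'] at hV
  have h4 : ∑ a ∈ Finset.range l,
      (((l : ℂ) - a) / (l + 1) - if a < i then 1 else 0) * (V a - V (a + 1)) =
      (∑ a ∈ Finset.range l, ((l : ℂ) - a) * (V a - V (a + 1))) / (l + 1) -
        ∑ a ∈ Finset.range l, (if a < i then 1 else 0) * (V a - V (a + 1)) := by
    rw [Finset.sum_div, ← Finset.sum_sub_distrib]
    refine Finset.sum_congr rfl fun a _ => ?_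
    ring
  rw [h1, h4, h2, h3, div_sub' h0, div_eq_iff h0]
  linear_combination -hV

/-! ### the primary vector -/

theorem lw5_prim0 {l p : ℕ} (n : ℤ) (x : VL (Fin l)) (hx : x ∈ pv4_Prim (cartanA l) p n)
    (h0 : x 0 ≠ 0) : Prim0 (cartanA l) p n ≠ ⊥ := by
  obtain ⟨h1, h2, h3⟩ := (pv4_mem n x).1 hx
  intro hbot
  have hm : (Finsupp.single 0 (x 0) : VL (Fin l)) ∈ Prim0 (cartanA l) p n := by
    refine ⟨(pv4_mem n _).2 ⟨pv2_mem n x h1 0, ?_, ?_⟩, lw5_supp _⟩
    · rw [← LS_comp, h2, Finsupp.zero_apply, Finsupp.single_zero]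
    · rw [← LS_comp, h3, Finsupp.zero_apply, Finsupp.single_zero]
  rw [hbot, Submodule.mem_bot, Finsupp.single_eq_zero] at hm
  exact h0 hm

theorem prim0_three (l p : ℕ) (hl : 2 ≤ l) (hp : 2 ≤ p)
    (hdec : ∀ v ∈ Wn (cartanA l) p 3, ∃ x ∈ pv4_Prim (cartanA l) p 3,
      ∃ y ∈ Wn (cartanA l) p 2, ∃ z ∈ Wn (cartanA l) p 1,
        v = x + LS (Shift.zero (cartanA l) p) (-1) y + LS (Shift.zero (cartanA l) p) (-2) z) :
    Prim0 (cartanA l) p 3 ≠ ⊥ := by
  obtain ⟨f, hf, hsy⟩ := exists_w l p hl hp 3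
  obtain ⟨x, hx, y, hy, z, hz, hv⟩ := hdec _ hf
  set V : ℕ → ℂ := fun i => if i = 0 then 1 else if i = 1 then 1 else if i = 2 then -2 else 0
    with hVdef
  have hV3 : ∀ i, 3 ≤ i → V i = 0 := by
    intro i hi
    rw [hVdef]
    simp only
    rw [if_neg (by omega), if_neg (by omega), if_neg (by omega)]
  have hV : ∑ i ∈ Finset.range (l + 1), V i = 0 := by
    obtain ⟨k, rfl⟩ : ∃ k, l = k + 2 := ⟨l - 2, by omega⟩
    rw [show k + 2 + 1 = 3 + k by ring, Finset.sum_range_add, Finset.sum_eq_zero (s := Finset.range k)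
      fun i _ => hV3 _ (by omega)]
    rw [hVdef]
    simp [Finset.sum_range_succ]
    norm_num
  have h1 := hsy (lw5_y l V)
  rw [Finset.prod_congr rfl (g := fun i => 1 + Polynomial.C (V i) * Polynomial.X) fun i hi => by
    rw [lw5_val l V hV i (by have := Finset.mem_range.1 hi; omega)]] at h1
  have h2 : ∏ i ∈ Finset.range (l + 1), (1 + Polynomial.C (V i) * Polynomial.X) =
      (1 - Polynomial.C 3 * Polynomial.X ^ 2 - Polynomial.C 2 * Polynomial.X ^ 3 :
        Polynomial ℂ) := by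
    have e2 : (Polynomial.C 2 : Polynomial ℂ) = 2 := map_ofNat _ 2
    have e3 : (Polynomial.C 3 : Polynomial ℂ) = 3 := map_ofNat _ 3
    obtain ⟨k, rfl⟩ : ∃ k, l = k + 2 := ⟨l - 2, by omega⟩
    rw [show k + 2 + 1 = 3 + k by ring, Finset.prod_range_add,
      Finset.prod_eq_one (s := Finset.range k) fun i _ => by
        rw [hV3 _ (by omega), Polynomial.C_0, zero_mul, add_zero]]
    rw [hVdef]
    simp only [Finset.prod_range_succ, Finset.prod_range_zero]
    simp only [if_true, one_ne_zero, if_false]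
    norm_num
    rw [e2, e3]
    ring
  rw [h2] at h1
  have h3 : (1 - Polynomial.C 3 * Polynomial.X ^ 2 - Polynomial.C 2 * Polynomial.X ^ 3 :
      Polynomial ℂ).coeff 3 = -2 := by
    rw [Polynomial.coeff_sub, Polynomial.coeff_sub, Polynomial.coeff_C_mul, Polynomial.coeff_C_mul,
      Polynomial.coeff_X_pow, Polynomial.coeff_X_pow, Polynomial.coeff_one]
    norm_num
  rw [h3] at h1
  have hz0 : z = 0 := by
    rw [lw_V1 l p hl hp] at hz
    exact (Submodule.mem_bot ℂ).1 hz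
  have h4 := congrArg (fun w : VL (Fin l) => sy (lw5_y l V) (w 0)) hv
  simp only [Finsupp.single_eq_same, Finsupp.add_apply, map_add, sy_LS1, hz0, map_zero,
    add_zero] at h4
  refine lw5_prim0 3 x hx fun h5 => ?_
  rw [h5, map_zero, h1] at h4
  norm_num at h4

theorem prim0_six (p : ℕ) (hp : 2 ≤ p)
    (hdec : ∀ v ∈ Wn (cartanA 2) p 6, ∃ x ∈ pv4_Prim (cartanA 2) p 6,
      ∃ y ∈ Wn (cartanA 2) p 5, ∃ z ∈ Wn (cartanA 2) p 4,
        v = x + LS (Shift.zero (cartanA 2) p) (-1) y + LS (Shift.zero (cartanA 2) p) (-2) z) :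
    Prim0 (cartanA 2) p 6 ≠ ⊥ := by
  have hA := cartanA_ade 2
  obtain ⟨ε⟩ := cocycle_exists (cartanA 2) hA p
  obtain ⟨f, hf, hsy⟩ := exists_w 2 p le_rfl hp 3
  obtain ⟨ζ, hζ⟩ : ∃ ζ : ℂ, ζ ^ 2 + ζ + 1 = 0 := by
    have h1 := IsAlgClosed.exists_pow_nat_eq (-3 : ℂ) (n := 2) (by norm_num)
    obtain ⟨w, hw⟩ := h1
    refine ⟨(w - 1) / 2, ?_⟩
    linear_combination hw / 4
  have hζ3 : ζ ^ 3 = 1 := by linear_combination (ζ - 1) * hζ
  set V : ℕ → ℂ := fun i => ζ ^ i with hVdef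
  have hV : ∑ i ∈ Finset.range (2 + 1), V i = 0 := by
    simp only [hVdef, Finset.sum_range_succ, Finset.sum_range_zero]
    linear_combination hζ
  have h1 := hsy (lw5_y 2 V)
  rw [Finset.prod_congr rfl (g := fun i => 1 + Polynomial.C (V i) * Polynomial.X) fun i hi => by
    rw [lw5_val 2 V hV i (by have := Finset.mem_range.1 hi; omega)]] at h1
  have h2 : ∏ i ∈ Finset.range (2 + 1), (1 + Polynomial.C (V i) * Polynomial.X) =
      (1 + Polynomial.X ^ 3 : Polynomial ℂ) := by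
    simp only [hVdef, Finset.prod_range_succ, Finset.prod_range_zero]
    have e1 : (Polynomial.C ζ : Polynomial ℂ) ^ 2 + Polynomial.C ζ + 1 = 0 := by
      rw [← Polynomial.C_pow, ← Polynomial.C_add, ← Polynomial.C_1, ← Polynomial.C_add, hζ,
        Polynomial.C_0]
    simp only [pow_zero, pow_one, Polynomial.C_1, Polynomial.C_pow]
    linear_combination (Polynomial.X * (1 + Polynomial.C ζ * Polynomial.X) +
      (Polynomial.C ζ - 1) * Polynomial.X ^ 3) * e1
  rw [h2] at h1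
  have h3 : (1 + Polynomial.X ^ 3 : Polynomial ℂ).coeff 3 = 1 := by
    simp [Polynomial.coeff_one]
  rw [h3] at h1
  have hg := mode_Wn hA hp ε 3 3 (-1) _ _ hf hf
  have e6 : (3 : ℤ) + 3 - (-1) - 1 = 6 := by norm_num
  rw [e6] at hg
  obtain ⟨x, hx, y, hy, z, hz, hv⟩ := hdec _ hg
  have h4 := congrArg (fun w : VL (Fin 2) => sy (lw5_y 2 V) (w 0)) hv
  simp only [Finsupp.add_apply, map_add, sy_LS1, sy_LS2, sy_mode hA (by omega : 1 ≤ p), h1,
    add_zero, mul_one] at h4
  have h5 : (1 / 2 * ∑ i, (∑ j, dual (cartanA 2) p i j * lw5_y 2 V j) * lw5_y 2 V i : ℂ) = 0 := by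
    have hinv : ((cartanA 2).map (Int.cast : ℤ → ℂ))⁻¹ = !![2/3, 1/3; 1/3, 2/3] := by
      refine Matrix.inv_eq_right_inv ?_
      ext i j
      fin_cases i <;> fin_cases j <;>
        simp [cartanA, Matrix.mul_apply, Fin.sum_univ_two] <;> norm_num
    simp only [dual, hinv, Fin.sum_univ_two, lw5_y, hVdef]
    simp
    linear_combination ((p : ℂ)⁻¹ * (2 / 3) * (1 - ζ) ^ 2) * hζ
  rw [h5, zero_mul, add_zero] at h4
  refine lw5_prim0 6 x hx fun h6 => ?_
  rw [h6, map_zero] at h4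
  exact one_ne_zero h4

end

end WPQ
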