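import Pool.Agent.WPQ.EN1
import Pool.Agent.WPQ.EN3
import Pool.Agent.WPQ.LW5
import Pool.Agent.WPQ.LW1
import Pool.Agent.WPQ.AS0
import Pool.Agent.WPQ.FPM

/-! [WPQ-EN4] The engine for type `A`.

Plan.  `engine_pair`: `prim0_three`, `prim0_six` with `dec_low`, then `exists_pair` with `prim_I_low`.
`engine_big` (`r ≥ 3`): the good `m` is `3`, or `6` for `(l,p) = (2,18)`; for `(2,18)` `nt_218h` gives `r ≥ 4`.
`ff_ne` (FPM) with `w = wA l p`, `R1`, `R2` from `nt_m3` or `nt_218`, `R3` from `nt_R3` gives `hff` of `en_kill`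
(`n = r * r`, `h = hrs t r r`); `hex`: `Even r`, or `γ ≠ 0` and then `b (-γ) = 0` by `lw_charge` (`m < p + (p-1) l`).
`en_kill`: `u_k x = 0` for `k ≥ 2m - 1 - r²`, in particular for `k ≥ 0` (`r² ≥ 9 ≥ 5`, resp. `r² ≥ 16 ≥ 11`).
`en_big` with `lw_V2` and `engine_pair`.
`engine_two` (`r = 2`): `(l,p) ≠ (2,18)` by `nt_218h`.  `en_kill` with `m = 3` (`nt_m3`): `u_k x = 0` for `k ≥ 1`, and
`m = 4` (`nt_m4`): `z_k x = 0` for `k ≥ 3` (`r = 2` is even).  `en_two` with `w = wA l p`, `nt_pos`,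
`cc = KV.cc t = 1 - 6 (t-1)²/t`, `lw_V1`, `lw_V2`, `dec_low` at `3`, `4`, `engine_pair`. -/

namespace WPQ

open MvPolynomial AF

noncomputable section

/-- The weight of the field used in the engine. -/
def Good (l p m : ℕ) : Prop := (m = 3 ∧ ¬ (l = 2 ∧ p = 18)) ∨ (m = 6 ∧ l = 2 ∧ p = 18)

theorem good_charge (l p m : ℕ) (hl : 2 ≤ l) (hp : 2 ≤ p) (hm : Good l p m) (v : VL (Fin l))
    (hv : v ∈ Wn (cartanA l) p m) (γ : Fin l → ℤ) (hγ : γ ≠ 0) : v γ = 0 := by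
  refine lw_charge l p hl hp m ?_ v hv γ hγ
  rcases hm with ⟨rfl, -⟩ | ⟨rfl, rfl, rfl⟩
  · have h1 : (2 : ℤ) ≤ p := by exact_mod_cast hp
    have h2 : (2 : ℤ) ≤ l := by exact_mod_cast hl
    push_cast
    nlinarith
  · norm_num

theorem engine_pair (l p m : ℕ) (hl : 2 ≤ l) (hp : 2 ≤ p) (ε : Cocycle (cartanA l) p)
    (hm : Good l p m) : ∃ u ∈ Prim0 (cartanA l) p m, ∃ u' ∈ Prim0 (cartanA l) p m,
      ∃ N' : ℂ, N' ≠ 0 ∧ mode ε u (2 * m - 1) u' = N' • (vac : VL (Fin l)) := by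
  refine exists_pair (cartanA_ade l) hp ε m (fun x hx hI =>
    prim_I_low l p hl hp m ?_ x hx hI) ?_
  · rcases hm with ⟨rfl, -⟩ | ⟨rfl, rfl, rfl⟩
    · exact Or.inl (by norm_num)
    · exact Or.inr ⟨rfl, rfl, by norm_num⟩
  · rcases hm with ⟨rfl, -⟩ | ⟨rfl, rfl, rfl⟩
    · exact prim0_three l p hl hp fun v hv => dec_low l p hl hp 3 (Or.inl (by norm_num)) v hv
    · exact prim0_six 18 hp fun v hv =>
        dec_low 2 18 hl hp 6 (Or.inr ⟨rfl, rfl, by norm_num⟩) v hv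

theorem engine_big (l p : ℕ) (hl : 2 ≤ l) (hp : 2 ≤ p) (ε : Cocycle (cartanA l) p)
    (τ : Shift (cartanA l) p) (hτ : τ.s = (2 : ℂ) • bg (cartanA l) p) (t : ℂ)
    (ht : TData l p t) (r h : ℕ) (c : Nat.Partition (r * r) → ℂ) (hr : 3 ≤ r) (hh : 1 ≤ h)
    (hhr : (h : ℂ) = KV.hrs t r r) (hc : SV.IsS t r r (r * r) c) (x : VL (Fin l))
    (hx : x ∈ pv4_Prim (cartanA l) p h) (γ : Fin l → ℤ)
    (hxγ : x ∈ Finsupp.supported (Fock (Fin l)) ℂ {γ}) (hex : Even r ∨ γ ≠ 0)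
    (hy : ∀ m : ℕ, Good l p m → ∀ u ∈ Prim0 (cartanA l) p m, ∀ s : ℤ, s ≤ -1 →
      ∀ b ∈ W (cartanA l) p,
        beta ε τ (SV.SS (LS (Shift.zero (cartanA l) p)) c x) (mode ε u s b) = 0) : x = 0 := by
  -- the main step for a good weight `m`
  have main : ∀ m : ℕ, Good l p m → 2 * m ≤ r * r + 1 →
      (¬ IsSquare ((4 * (m : ℚ) + wA l p) * (wA l p + 4)) ∧
        ¬ IsSquare ((4 * (m : ℚ) + wA l p) * wA l p)) → x = 0 := by
    intro m hm hmr hR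
    obtain ⟨u, hu, u', hu', N', hN, hN'⟩ := engine_pair l p m hl hp ε hm
    have hff : ∀ j : ℕ, j ≠ m ∨ Even r → SV.ff c (h : ℂ) (m : ℂ) (j : ℂ) ≠ 0 := by
      intro j hj
      rw [hhr]
      exact SV.ff_ne ht.irr (wA l p) ht.w (by omega) hc m j hR.1 hR.2 (nt_R3 l p hl hp) hj
    have hex' : Even r ∨ ∀ b ∈ Wn (cartanA l) p m, b (-γ) = 0 := by
      rcases hex with h1 | h1
      · exact Or.inl h1
      · exact Or.inr fun b hb => good_charge l p m hl hp hm b hb (-γ) (neg_ne_zero.2 h1)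
    refine en_big (cartanA_ade l) hp ε m h ?_ hh (lw_V2 l p hl hp) u u' hu hu' N' hN hN' x hx ?_
    · rcases hm with ⟨rfl, -⟩ | ⟨rfl, -⟩ <;> norm_num
    · intro v hv k hk
      refine en_kill (cartanA_ade l) hp ε τ hτ m h r (r * r) c x hx γ hxγ hff hex' (hy m hm) v hv
        k ?_
      have h2 : (2 * (m : ℤ)) ≤ r * r + 1 := by exact_mod_cast hmr
      push_cast
      linarith
  by_cases hlp : l = 2 ∧ p = 18
  · obtain ⟨rfl, rfl⟩ := hlp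
    have h4 : 4 ≤ r := nt_218h t ht.irr ht.w h r (by omega) hhr
    exact main 6 (Or.inr ⟨rfl, rfl, rfl⟩) (by nlinarith) (nt_218 6 (by norm_num) (by norm_num))
  · exact main 3 (Or.inl ⟨rfl, hlp⟩) (by nlinarith) (nt_m3 l p hl hp hlp)

theorem engine_two (l p : ℕ) (hl : 2 ≤ l) (hp : 2 ≤ p) (ε : Cocycle (cartanA l) p)
    (τ : Shift (cartanA l) p) (hτ : τ.s = (2 : ℂ) • bg (cartanA l) p) (t : ℂ)
    (ht : TData l p t) (h : ℕ) (c : Nat.Partition (2 * 2) → ℂ) (hh : 1 ≤ h)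
    (hhr : (h : ℂ) = KV.hrs t 2 2) (hc : SV.IsS t 2 2 (2 * 2) c) (x : VL (Fin l))
    (hx : x ∈ pv4_Prim (cartanA l) p h) (γ : Fin l → ℤ)
    (hxγ : x ∈ Finsupp.supported (Fock (Fin l)) ℂ {γ})
    (hy : ∀ m : ℕ, m = 3 ∨ m = 4 → ∀ u ∈ Prim0 (cartanA l) p m, ∀ s : ℤ, s ≤ -1 →
      ∀ b ∈ W (cartanA l) p,
        beta ε τ (SV.SS (LS (Shift.zero (cartanA l) p)) c x) (mode ε u s b) = 0) : x = 0 := by
  have hlp : ¬ (l = 2 ∧ p = 18) := by
    rintro ⟨rfl, rfl⟩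
    have h4 : 4 ≤ 2 := nt_218h t ht.irr ht.w h 2 (le_refl 2) hhr
    omega
  have kill : ∀ m : ℕ, m = 3 ∨ m = 4 →
      (¬ IsSquare ((4 * (m : ℚ) + wA l p) * (wA l p + 4)) ∧
        ¬ IsSquare ((4 * (m : ℚ) + wA l p) * wA l p)) →
      ∀ u ∈ Prim0 (cartanA l) p m, ∀ k : ℤ, 2 * (m : ℤ) - 5 ≤ k → mode ε u k x = 0 := by
    intro m hm hR u hu k hk
    have hff : ∀ j : ℕ, j ≠ m ∨ Even 2 → SV.ff c (h : ℂ) (m : ℂ) (j : ℂ) ≠ 0 := by
      intro j hj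
      rw [hhr]
      exact SV.ff_ne ht.irr (wA l p) ht.w (by norm_num) hc m j hR.1 hR.2 (nt_R3 l p hl hp) hj
    refine en_kill (cartanA_ade l) hp ε τ hτ m h 2 (2 * 2) c x hx γ hxγ hff
      (Or.inl even_two) (hy m hm) u hu k ?_
    push_cast
    linarith
  obtain ⟨u, hu, u', hu', N', hN, hN'⟩ := engine_pair l p 3 hl hp ε (Or.inl ⟨rfl, hlp⟩)
  have hcc : cc (cartanA l) p = 1 - 6 * ((wA l p : ℚ) : ℂ) := by
    rw [ht.cc, ← ht.w, KV.cc, mul_div_assoc]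
  exact en_two (cartanA_ade l) hp ε h hh (wA l p) (nt_pos l p hl hp) hcc (lw_V1 l p hl hp)
    (lw_V2 l p hl hp) (fun v hv => dec_low l p hl hp 3 (Or.inl (by norm_num)) v hv)
    (fun v hv => dec_low l p hl hp 4 (Or.inl (by norm_num)) v hv) u u' hu hu' N' hN hN' x hx
    (fun v hv k hk => kill 3 (Or.inl rfl) (nt_m3 l p hl hp hlp) v hv k (by
      push_cast
      linarith))
    (fun v hv k hk => kill 4 (Or.inr rfl) (nt_m4 l p hl hp) v hv k (by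
      push_cast
      linarith))

end

end WPQ
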