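import Pool.Agent.WPQ.FI1
import Pool.Agent.WPQ.RD2
import Pool.Agent.WPQ.FL7

/-! [WPQ-FI2] The main theorem.

Plan.  `exists_lam` (`Dom` holds since `D > 0`), `img_eq` give `lam`, `N0`.  `n0` from `Vn_bot`.  `S` is the
union over `n0 ≤ n ≤ N0` of a finite spanning set of `Wn n` (`Vn_finite`; `Submodule.FG`), all homogeneous
(`isHomog_of_mem`).  Let `S ⊆ T ⊆ W`.  Monomials in `T` lie in `W`: `vac_mem_W`, `W_closed`.
Conversely by strong induction on `n` (from `n0`) `Wn n ≤ X := span {monomials in T}`: for `n ≤ N0` every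
`u ∈ S` is `mode u (-1) vac ∈ X` (`mode_neg_one_vac`), and they span `Wn n`.  For `n > N0`:
`Wn n = Img n`; `cS (-s) w = mode ε u' (-s) w` with `u' = Ew js (single (-λ_i) 1) ∈ Wn Δ_i` (`mode_cS`,
`cS_creation`/`cS_Vn`, `W_single_iff`), `Δ_i ≤ N0`, so `u'` is a linear combination of elements of `S`
and `mode` is linear (`mode_add`, `mode_smul`); `w ∈ Wn (n - Δ_i - s + 1) ≤ X` by induction
(`wtExp_pos`: `Δ_i ≥ 1`, `lam i ≠ 0`), and `mode u (-s)` of a combination of monomials is in `X` for
`u ∈ S`, `s ≥ 1`.  Same for `LS (-k) w = mode ω (1-k) w` (`mode_omega`, `ω ∈ Wn 2`: `W_LS`, `LS_Vn`).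
Then `W_span`/`Wn`.  Existence and uniqueness of vertex operators: `vo_exists`, `vo_unique`;
`cocycle_exists`. -/

namespace WPQ

open MvPolynomial AF

noncomputable section

variable {ι : Type} [Fintype ι] [DecidableEq ι] {A : Matrix ι ι ℤ} {p : ℕ}

theorem fi2_vac : (vac : VL ι) ∈ Vn A p 0 := by
  refine single_mem_Vn 0 1 0 (isWeightedHomogeneous_one ℂ _) 0 ?_
  simp [wtExp, formZ]

/-- a finite spanning set of `Wn n` -/
theorem fi2_fin (hA : IsADE A) (hp : 1 ≤ p) (n : ℤ) :
    ∃ B : Finset (VL ι), Submodule.span ℂ (B : Set (VL ι)) = Wn A p n := by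
  have := Vn_finite (A := A) (p := p) hA hp n
  have h2 : FiniteDimensional ℂ (Wn A p n) :=
    Submodule.finiteDimensional_of_le (inf_le_right : W A p ⊓ Vn A p n ≤ Vn A p n)
  exact (Submodule.fg_iff_finiteDimensional _).2 h2

/-- modes of the span of `S` preserve the span of the monomials in `T ⊇ S` -/
theorem fi2_step (hA : IsADE A) (hp : 1 ≤ p) (ε : Cocycle A p) (S T : Set (VL ι)) (hST : S ⊆ T)
    (u : VL ι) (hu : u ∈ Submodule.span ℂ S) (j : ℕ) (hj : 1 ≤ j) (w : VL ι)
    (hw : w ∈ Submodule.span ℂ {w | Monomial ε T w}) :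
    mode ε u (-(j : ℤ)) w ∈ Submodule.span ℂ {w | Monomial ε T w} := by
  induction hu using Submodule.span_induction with
  | mem u hu =>
    induction hw using Submodule.span_induction with
    | mem w hw => exact Submodule.subset_span (Monomial.step u (hST hu) j hj w hw)
    | zero => rw [map_zero]; exact Submodule.zero_mem _
    | add x y _ _ hx hy => rw [map_add]; exact Submodule.add_mem _ hx hy
    | smul a x _ hx => rw [map_smul]; exact Submodule.smul_mem _ a hx
  | zero =>
    have h := mode_smul hA hp ε 0 (0 : VL ι) (-(j : ℤ))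
    rw [zero_smul, zero_smul] at h
    rw [h, LinearMap.zero_apply]
    exact Submodule.zero_mem _
  | add x y _ _ hx hy =>
    rw [mode_add hA hp, LinearMap.add_apply]
    exact Submodule.add_mem _ hx hy
  | smul a x _ hx =>
    rw [mode_smul hA hp, LinearMap.smul_apply]
    exact Submodule.smul_mem _ a hx

theorem main : Main := by
  intro ι _ _ A hA p hp
  have hp1 : 1 ≤ p := by omega
  refine ⟨cocycle_exists A hA p, fun ε => ⟨?_, ?_, ?_⟩⟩
  · intro u
    obtain ⟨a, ha, _⟩ := vo_exists hA hp1 ε u
    exact ⟨a, ha, fun b hb => vo_unique ε u b a hb ha⟩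
  · intro u hu v hv n
    exact W_closed hA hp ε u v hu hv n
  classical
  obtain ⟨D, lam, hD, hlam⟩ := exists_lam hA
  have hdom : ∀ i, Dom A (lam i) := by
    intro i j
    rw [hlam]
    split_ifs
    · exact hD.le
    · exact le_rfl
  have hne : ∀ i, lam i ≠ 0 := by
    intro i h
    have h1 := hlam i i
    rw [h, if_pos rfl] at h1
    simp [pr] at h1
    omega
  obtain ⟨N0, hN2, hNΔ, himg⟩ := img_eq hA hp ε lam D hD hlam
  obtain ⟨n1, hn1⟩ := Vn_bot (A := A) (p := p) hA hp1
  set n0 : ℤ := min n1 1 with hn0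
  have hbot : ∀ n < n0, Wn A p n = ⊥ := by
    intro n hn
    have : Vn A p n = ⊥ := hn1 n (by omega)
    exact le_bot_iff.1 (this ▸ (inf_le_right : W A p ⊓ Vn A p n ≤ Vn A p n))
  choose B hB using fun n : ℤ => fi2_fin (A := A) (p := p) hA hp1 n
  set S : Finset (VL ι) := (Finset.Icc n0 N0).biUnion B with hS
  have hSmem : ∀ n, n0 ≤ n → n ≤ N0 → ∀ u ∈ Wn A p n,
      u ∈ Submodule.span ℂ (S : Set (VL ι)) := by
    intro n h1 h2 u hu
    rw [← hB n] at hu
    refine Submodule.span_mono ?_ hu
    intro x hx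
    exact Finset.mem_coe.2 (Finset.mem_biUnion.2 ⟨n, Finset.mem_Icc.2 ⟨h1, h2⟩, hx⟩)
  have hvW : (vac : VL ι) ∈ W A p := vac_mem_W hA hp1
  have hv0 : (vac : VL ι) ∈ Vn A p 0 := fi2_vac
  refine ⟨S, ?_, ?_⟩
  · intro u hu
    obtain ⟨n, _, hun⟩ := Finset.mem_biUnion.1 hu
    have hu' : u ∈ Wn A p n := by
      rw [← hB n]
      exact Submodule.subset_span hun
    exact ⟨hu'.1, n, isHomog_of_mem n u hu'.2⟩
  intro T hST hTW
  unfold StronglyGenerates
  refine le_antisymm ?_ ?_
  · rw [Submodule.span_le]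
    intro w hw
    induction hw with
    | one => exact hvW
    | step u hu j hj w hw ih => exact W_closed hA hp ε u w (hTW hu) ih _
  -- the other inclusion
  set X : Submodule ℂ (VL ι) := Submodule.span ℂ {w | Monomial ε T w} with hX
  have hvX : (vac : VL ι) ∈ X := Submodule.subset_span Monomial.one
  have key : ∀ k : ℕ, ∀ n : ℤ, n < n0 + k → Wn A p n ≤ X := by
    intro k
    induction k with
    | zero =>
      intro n hn
      rw [hbot n (by simpa using hn)]
      exact bot_le
    | succ k ih =>
      intro n hn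
      by_cases hlt : n < n0
      · rw [hbot n hlt]
        exact bot_le
      push Not at hlt
      by_cases hnN : n ≤ N0
      · intro u hu
        have h1 := hSmem n hlt hnN u hu
        have h2 := fi2_step hA hp1 ε (S : Set (VL ι)) T hST u h1 1 le_rfl vac hvX
        rw [Nat.cast_one, mode_neg_one_vac hA hp1] at h2
        exact h2
      · push Not at hnN
        rw [← himg n hnN]
        unfold Img
        rw [Submodule.span_le]
        rintro x (⟨i, js, s, w, hs, hw, rfl⟩ | ⟨j, w, hj, hw, rfl⟩)
        · have hΔ : 1 ≤ wtExp A p (-lam i) := wtExp_pos hA hp1 (lam i) (hdom i) (hne i)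
          have hwX : w ∈ X := by
            refine ih _ ?_ hw
            push_cast at hn
            omega
          have hu : Ew ε (Shift.zero A p) js (Finsupp.single (-lam i) 1) ∈
              Wn A p (wtExp A p (-lam i)) := by
            rw [← cS_creation]
            refine ⟨cS_mem_W hA hp ε (lam i) (hdom i) js (-1) vac hvW, ?_⟩
            have h1 := cS_Vn hA ε (lam i) js (-1) 0 vac hv0
            have e : 0 + wtExp A p (-lam i) - (-1) - 1 = wtExp A p (-lam i) := by ring
            rw [e] at h1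
            exact h1
          have h1 := hSmem _ (by omega) (hNΔ i) _ hu
          have h2 := fi2_step hA hp1 ε (S : Set (VL ι)) T hST _ h1 s hs w hwX
          rw [mode_cS hA hp1] at h2
          exact h2
        · have hwX : w ∈ X := by
            refine ih _ ?_ hw
            push_cast at hn
            omega
          have hu : omega A p ∈ Wn A p 2 := by
            refine ⟨W_LS hA hp1 (-2) vac hvW, ?_⟩
            have h1 := LS_Vn (-2) 0 vac hv0
            have e : (0 : ℤ) - (-2) = 2 := by norm_num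
            rw [e] at h1
            exact h1
          have h1 := hSmem _ (by omega) hN2 _ hu
          have h2 := fi2_step hA hp1 ε (S : Set (VL ι)) T hST _ h1 (j - 1) (by omega) w hwX
          rw [mode_omega hA hp1] at h2
          have e : -((j - 1 : ℕ) : ℤ) - 1 = -(j : ℤ) := by
            omega
          rw [e] at h2
          exact h2
  refine W_span X ?_
  intro γ f d hf hW
  have hmem : Finsupp.single γ f ∈ Wn A p ((d : ℤ) + wtExp A p γ) :=
    ⟨hW, single_mem_Vn γ f d hf _ rfl⟩
  refine key ((d : ℤ) + wtExp A p γ - n0 + 1).toNat _ ?_ hmem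
  omega

end

end WPQ
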