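import Pool.Agent.WPQ.FW9

/-! [WPQ-FW10] The commutator of all `L(k)` with `vop`.

`k > 0` is `Lop_vop_pos`; `k = 0`: `Lop_zero_homog` on monomials; `k < 0`: adjoints (`pairF_Lop`, `pairF_vop`)
of `Lop_vop_pos` for `-k`, charges `2a - s - ν` and `2a - s`, and nondegeneracy. -/

namespace WPQ

open MvPolynomial

noncomputable section

variable {ι : Type} [Fintype ι] [DecidableEq ι]

theorem fw10_sub_right (A : Matrix ι ι ℤ) (p : ℕ) (u v w : Fock ι) :
    pairF A p u (v - w) = pairF A p u v - pairF A p u w := by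
  have : v - w = v + (-1 : ℂ) • w := by rw [neg_one_smul]; abel
  rw [this, pairF_add_right, pairF_smul_right]
  ring

theorem fw10_sub_left (A : Matrix ι ι ℤ) (p : ℕ) (u v w : Fock ι) :
    pairF A p (v - w) u = pairF A p v u - pairF A p w u := by
  have : v - w = v + (-1 : ℂ) • w := by rw [neg_one_smul]; abel
  rw [this, pairF_add_left, pairF_smul_left]
  ring

theorem fw10_vop_right (A : Matrix ι ι ℤ) (hA : IsADE A) (p : ℕ) (ν : ι → ℂ) (m : ℤ) (u f : Fock ι) :
    pairF A p u (vop A p ν m f) = pairF A p (vop A p ν (-m) u) f := by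
  rw [pairF_vop A hA, neg_neg]

theorem fw10_zero (A : Matrix ι ι ℤ) (hA : IsADE A) (p : ℕ) (s ν : ι → ℂ) (m : ℤ) (f : Fock ι) :
    Lop A p (s + ν) 0 (vop A p ν m f) - vop A p ν m (Lop A p s 0 f) =
      ((m : ℂ) + form A p ν s +
        ((1 / 2 : ℂ) * form A p ν ν - form A p (bg A p) ν)) • vop A p ν m f := by
  induction f using MvPolynomial.induction_on' with
  | monomial u a =>
    have hf : FH (monomial u a : Fock ι) (Finsupp.weight wF u) :=
      isWeightedHomogeneous_monomial wF u a rfl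
    set d := Finsupp.weight wF u with hd
    rw [Lop_zero_homog A p s _ d hf, map_smul]
    by_cases h0 : (d : ℤ) + m < 0
    · rw [vop_eq_zero A p ν m _ d hf h0]
      simp
    · obtain ⟨e, he⟩ : ∃ e : ℕ, (e : ℤ) = d + m := ⟨((d : ℤ) + m).toNat, by omega⟩
      rw [Lop_zero_homog A p (s + ν) _ e (vop_homog A p ν m _ d e hf he), ← sub_smul]
      have hec : (e : ℂ) = d + m := by exact_mod_cast he
      have h1 : form A p (s + ν) (s + ν) = form A p s s + 2 * form A p ν s + form A p ν ν := by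
        rw [fw9_form_add, form_symm A hA.symm p s (s + ν), form_symm A hA.symm p ν (s + ν),
          fw9_form_add, fw9_form_add, form_symm A hA.symm p s ν]
        ring
      have h2 : form A p (bg A p) (s + ν) = form A p (bg A p) s + form A p (bg A p) ν := by
        rw [form_symm A hA.symm p _ (s + ν), fw9_form_add, form_symm A hA.symm p s,
          form_symm A hA.symm p ν]
      rw [h1, h2, hec]
      refine congrArg (fun z : ℂ => z • vop A p ν m (monomial u a)) ?_
      ring
  | add f g hf hg =>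
    rw [map_add, map_add, map_add, map_add, smul_add, ← hf, ← hg]
    abel

theorem Lop_vop (A : Matrix ι ι ℤ) (hA : IsADE A) (p : ℕ) (hp : 1 ≤ p) (s ν : ι → ℂ)
    (k : ℤ) (m : ℤ) :
    Lop A p (s + ν) k ∘ₗ vop A p ν m - vop A p ν m ∘ₗ Lop A p s k =
      ((m : ℂ) - k + form A p ν s +
        ((k : ℂ) + 1) * ((1 / 2 : ℂ) * form A p ν ν - form A p (bg A p) ν)) • vop A p ν (m - k) := by
  rcases lt_trichotomy k 0 with hk | hk | hk
  · refine LinearMap.ext fun f => ?_
    rw [LinearMap.sub_apply, LinearMap.comp_apply, LinearMap.comp_apply, LinearMap.smul_apply]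
    rw [← sub_eq_zero]
    refine pairF_nondeg A hA p hp _ fun u => ?_
    rw [fw10_sub_right, fw10_sub_right, pairF_smul_right]
    have h1 := pairF_Lop A hA p hp (s + ν) ((2 : ℂ) • bg A p - (s + ν)) rfl (-k) u (vop A p ν m f)
    have h2 := pairF_Lop A hA p hp s ((2 : ℂ) • bg A p - s) rfl (-k) (vop A p ν (-m) u) f
    rw [neg_neg] at h1 h2
    rw [← h1, fw10_vop_right A hA, fw10_vop_right A hA, ← h2, fw10_vop_right A hA]
    have h3 := Lop_vop_pos A hA p hp ((2 : ℂ) • bg A p - (s + ν)) ν (-k) (by omega) (-m)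
    have e1 : (2 : ℂ) • bg A p - (s + ν) + ν = (2 : ℂ) • bg A p - s := by abel
    rw [e1] at h3
    have h4 := congrArg (fun L : Fock ι →ₗ[ℂ] Fock ι => L u) h3
    simp only [LinearMap.sub_apply, LinearMap.comp_apply, LinearMap.smul_apply] at h4
    rw [sub_eq_iff_eq_add] at h4
    rw [h4, pairF_add_left, pairF_smul_left]
    have e2 : -m - -k = -(m - k) := by ring
    have e3 : form A p ν ((2 : ℂ) • bg A p - (s + ν)) =
        2 * form A p (bg A p) ν - form A p ν s - form A p ν ν := by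
      rw [form_symm A hA.symm p ν, fw9_form_sub, fw9_form_smul, fw9_form_add, form_symm A hA.symm p s ν]
      ring
    rw [e2, e3]
    push_cast
    ring
  · subst hk
    refine LinearMap.ext fun f => ?_
    rw [LinearMap.sub_apply, LinearMap.comp_apply, LinearMap.comp_apply, LinearMap.smul_apply,
      fw10_zero A hA, sub_zero]
    refine congrArg (fun z : ℂ => z • vop A p ν m f) ?_
    push_cast
    ring
  · exact Lop_vop_pos A hA p hp s ν k hk m

theorem Lop_neg_one (A : Matrix ι ι ℤ) (p : ℕ) (s : ι → ℂ) :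
    Lop A p s (-1) = (mkDerivation ℂ fun x : ι × ℕ =>
        ((x.2 + 2 : ℂ)) • (X (x.1, x.2 + 1) : Fock ι)).toLinearMap +
      LinearMap.mulLeft ℂ (osc s 0) := by
  have hD : (mkDerivation ℂ fun x : ι × ℕ =>
      ((x.2 + 2 : ℂ)) • (X (x.1, x.2 + 1) : Fock ι)) = fw9_D (-((1 : ℕ) : ℤ)) := by
    unfold fw9_D
    congr 1
    funext x
    rw [if_pos (by omega), show ((x.2 : ℤ) - -((1 : ℕ) : ℤ)).toNat = x.2 + 1 by omega]
    congr 1
    push_cast
    ring
  refine LinearMap.ext fun f => ?_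
  have h := fw9_Lop_neg A p s 1 one_pos f
  have hQ : fw9_Q A p 1 = 0 := by
    unfold fw9_Q
    simp
  have e1 : s - (1 - ((1 : ℕ) : ℂ)) • bg A p = s := by simp
  have e2 : (((1 : ℕ) : ℂ)) • (osc s (1 - 1) * f) = LinearMap.mulLeft ℂ (osc s 0) f := by
    rw [Nat.cast_one, one_smul, Nat.sub_self]
    rfl
  rw [hQ, e1, zero_mul, smul_zero, add_zero, e2] at h
  rw [LinearMap.add_apply, hD]
  exact h

/-- `[L(k), h(n)] = -n h(n+k) - k (k+1) ⟨a,h⟩ δ_{n+k,0}` -/
theorem Lop_heis (A : Matrix ι ι ℤ) (hA : IsADE A) (p : ℕ) (hp : 1 ≤ p) (s h : ι → ℂ)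
    (k n : ℤ) :
    Lop A p s k ∘ₗ heis A p h n s - heis A p h n s ∘ₗ Lop A p s k =
      (-(n : ℂ)) • heis A p h (n + k) s -
        (if n + k = 0 then ((k : ℂ) * (k + 1) * form A p (bg A p) h) • LinearMap.id else 0) := by
  refine LinearMap.ext fun f => ?_
  rw [LinearMap.sub_apply, LinearMap.comp_apply, LinearMap.comp_apply, fw9_Lop_heis A hA p hp,
    LinearMap.sub_apply, LinearMap.smul_apply]
  split_ifs <;> rfl

end

end WPQ
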