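import Pool.Agent.WPQ.FL1
import Pool.Agent.WPQ.FW10
import Pool.Agent.WPQ.FW11

/-! [WPQ-FL2] Heisenberg and Virasoro operators on `V_{L+s}` and the lattice fields.

Plan.  On `Finsupp.single η f` everything is `heis_vop`, `heis_heis`, `Lop_vop`, `Lop_heis`,
`Lop_neg_one` (FW10, FW11) with `s = σ.s + toC η`, `ν = toC γ` resp. `ν = ξ.s + toC β` (then
`ξ.s + toC (β+η) = toC η + ν`), using `form (toC γ) (σ.s + toC η) = σ.dot γ + formZ γ η`
(`form_shift`, `form_symm`).  Scalar in `LS_expS`: `m' = -n-1-⟨γ,s⟩` gives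
`m' - k + ⟨γ,s⟩ + (k+1) Δ = (k+1)(Δ-1) - n`; `wtExp` is an integer division, `formZ γ γ` is even
(`IsADE`: `formZ γ γ = 2 p (∑ γ_i² + ∑_{i<j} ...)`; prove `2 ∣ formZ γ γ`), `form (bg) (toC γ) =
(p-1) ∑ γ_i` (`form_bg`).  Locality: commutator formulas give order 1 resp. 2. -/

set_option linter.unusedSectionVars false

namespace WPQ

open MvPolynomial AF

noncomputable section

variable {ι : Type} [Fintype ι] [DecidableEq ι] {A : Matrix ι ι ℤ} {p : ℕ}

theorem fl2_zero_s : (Shift.zero A p).s = 0 := rfl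

theorem fl2_toC_add (γ η : ι → ℤ) : toC (γ + η) = toC γ + toC η := by
  funext i
  simp [toC]

theorem fl2_toC_zero : toC (0 : ι → ℤ) = 0 := by
  funext i
  simp [toC]

theorem fl2_hS_single (σ : Shift A p) (h : ι → ℂ) (n : ℤ) (η : ι → ℤ) (f : Fock ι) :
    hS σ h n (Finsupp.single η f) = Finsupp.single η (heis A p h n (σ.s + toC η) f) := by
  simp [hS]

theorem fl2_LS_single (σ : Shift A p) (k : ℤ) (η : ι → ℤ) (f : Fock ι) :
    LS σ k (Finsupp.single η f) = Finsupp.single η (Lop A p (σ.s + toC η) k f) := by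
  simp [LS]

theorem fl2_form_toC (γ η : ι → ℤ) : form A p (toC γ) (toC η) = (formZ A p γ η : ℂ) := by
  simp only [form, formZ, toC]
  push_cast
  rfl

theorem fl2_form_add_left (ν ν' η : ι → ℂ) :
    form A p (ν + ν') η = form A p ν η + form A p ν' η := by
  simp only [form, Pi.add_apply, add_mul, Finset.sum_add_distrib, mul_add]

theorem fl2_form_smul_left (c : ℂ) (ν η : ι → ℂ) :
    form A p (c • ν) η = c * form A p ν η := by
  simp only [form, Pi.smul_apply, smul_eq_mul]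
  simp only [mul_assoc, ← Finset.mul_sum]
  ring

theorem fl2_form_sum_left {κ : Type} (s : Finset κ) (ν : κ → ι → ℂ) (η : ι → ℂ) :
    form A p (∑ i ∈ s, ν i) η = ∑ i ∈ s, form A p (ν i) η := by
  classical
  induction s using Finset.induction_on with
  | empty => simp [form]
  | insert a s ha ih =>
    rw [Finset.sum_insert ha, Finset.sum_insert ha, fl2_form_add_left, ih]

theorem fl2_toC_sum (γ : ι → ℤ) : toC γ = ∑ i, (γ i : ℂ) • bb i := by
  funext j
  simp [toC, bb, Finset.sum_apply, Pi.single_apply]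

theorem fl2_two {M : Type} [AddCommGroup M] [Module ℂ M] (x : M) :
    0 + ((-1 : ℂ) ^ 0 * ((1 : ℕ).choose 0 : ℂ)) • x + ((-1 : ℂ) ^ 1 * ((1 : ℕ).choose 1 : ℂ)) • x =
      0 := by
  simp

theorem fl2_three {M : Type} [AddCommGroup M] [Module ℂ M] (x : M) (a b c : ℂ)
    (h : a - 2 * b + c = 0) :
    0 + ((-1 : ℂ) ^ 0 * ((2 : ℕ).choose 0 : ℂ)) • (a • x) +
      ((-1 : ℂ) ^ 1 * ((2 : ℕ).choose 1 : ℂ)) • (b • x) +
      ((-1 : ℂ) ^ 2 * ((2 : ℕ).choose 2 : ℂ)) • (c • x) = 0 := by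
  have h2 : 0 + ((-1 : ℂ) ^ 0 * ((2 : ℕ).choose 0 : ℂ)) • (a • x) +
      ((-1 : ℂ) ^ 1 * ((2 : ℕ).choose 1 : ℂ)) • (b • x) +
      ((-1 : ℂ) ^ 2 * ((2 : ℕ).choose 2 : ℂ)) • (c • x) = (a - 2 * b + c) • x := by
    simp only [Nat.choose_zero_right, Nat.choose_one_right, Nat.choose_self]
    push_cast
    module
  rw [h2, h, zero_smul]

theorem hS_zero (h : ι → ℂ) (n : ℤ) : hS (Shift.zero A p) h n = heisMode A p h n := by
  unfold hS heisMode
  simp only [fl2_zero_s, zero_add]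

theorem two_dvd_formZ (hA : IsADE A) (γ : ι → ℤ) : 2 ∣ formZ A p γ γ := by
  have key : (2 : ℤ) ∣ ∑ i, ∑ j, γ i * A i j * γ j := by
    rw [← Fintype.sum_prod_type' (fun i j => γ i * A i j * γ j)]
    apply (ZMod.intCast_zmod_eq_zero_iff_dvd _ 2).1
    push_cast
    apply Finset.sum_involution (fun (x : ι × ι) _ => (x.2, x.1))
    · intro x _
      have h1 : A x.2 x.1 = A x.1 x.2 := hA.symm _ _
      simp only
      rw [h1]
      have h2 : (2 : ZMod 2) = 0 := by decide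
      linear_combination ((γ x.1 : ZMod 2) * (A x.1 x.2 : ZMod 2) * (γ x.2 : ZMod 2)) * h2
    · intro x _ hx hx2
      apply hx
      have h3 : x.1 = x.2 := by
        have := congrArg Prod.fst hx2
        exact this.symm
      rw [h3, hA.diag]
      have h2 : ((2 : ℤ) : ZMod 2) = 0 := by decide
      rw [h2]
      ring
    · intro x _
      exact Finset.mem_univ _
    · intro x _
      rfl
  exact Dvd.dvd.mul_left key _

/-- the conformal weight as a complex number -/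
theorem wtExp_eq (hA : IsADE A) (hp : 1 ≤ p) (γ : ι → ℤ) :
    (wtExp A p γ : ℂ) = (1 / 2 : ℂ) * form A p (toC γ) (toC γ) - form A p (bg A p) (toC γ) := by
  have h1 : form A p (bg A p) (toC γ) = ((p : ℂ) - 1) * ∑ i, (γ i : ℂ) := by
    rw [form_symm A hA.symm, fl2_toC_sum, fl2_form_sum_left]
    simp only [fl2_form_smul_left, form_bg A hA p hp]
    rw [Finset.mul_sum]
    exact Finset.sum_congr rfl fun i _ => mul_comm _ _
  rw [h1, fl2_form_toC]
  unfold wtExp
  obtain ⟨c, hc⟩ := two_dvd_formZ (p := p) hA γ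
  rw [hc, Int.mul_ediv_cancel_left _ (by norm_num)]
  push_cast
  ring

theorem hS_expS (hA : ∀ i j, A i j = A j i) (ε : Cocycle A p) (σ : Shift A p) (h : ι → ℂ)
    (γ : ι → ℤ) (m n : ℤ) :
    hS σ h m ∘ₗ expS ε σ γ n - expS ε σ γ n ∘ₗ hS σ h m =
      form A p h (toC γ) • expS ε σ γ (m + n) := by
  refine Finsupp.lhom_ext fun η f => ?_
  simp only [LinearMap.sub_apply, LinearMap.comp_apply, LinearMap.smul_apply, expS_single,
    fl2_hS_single, map_smul, Finsupp.smul_single]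
  rw [← Finsupp.single_sub, ← smul_sub]
  congr 1
  have key := LinearMap.congr_fun (heis_vop A hA p h (toC γ) (σ.s + toC η) m
    (-n - 1 - σ.dot γ - formZ A p γ η)) f
  simp only [LinearMap.sub_apply, LinearMap.comp_apply, LinearMap.smul_apply] at key
  have e1 : σ.s + toC (γ + η) = σ.s + toC η + toC γ := by
    rw [fl2_toC_add]; abel
  rw [e1, key, smul_comm]
  congr 3
  ring_nf

theorem hS_gX (hA : ∀ i j, A i j = A j i) (ε : Cocycle A p) (ξ : Shift A p) (h : ι → ℂ)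
    (β : ι → ℤ) (m n : ℤ) :
    hS ξ h m ∘ₗ gX ε ξ β n - gX ε ξ β n ∘ₗ hS (Shift.zero A p) h m =
      form A p h (ξ.s + toC β) • gX ε ξ β (m + n) := by
  refine Finsupp.lhom_ext fun η f => ?_
  simp only [LinearMap.sub_apply, LinearMap.comp_apply, LinearMap.smul_apply, gX_single,
    fl2_hS_single, map_smul, Finsupp.smul_single]
  rw [← Finsupp.single_sub, ← smul_sub]
  congr 1
  have key := LinearMap.congr_fun (heis_vop A hA p h (ξ.s + toC β) ((Shift.zero A p).s + toC η) m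
    (-n - 1 - ξ.dot η - formZ A p β η)) f
  simp only [LinearMap.sub_apply, LinearMap.comp_apply, LinearMap.smul_apply] at key
  have e1 : ξ.s + toC (β + η) = (Shift.zero A p).s + toC η + (ξ.s + toC β) := by
    rw [fl2_toC_add, fl2_zero_s]; abel
  rw [e1, key, smul_comm]
  congr 3
  ring_nf

theorem hS_hS (hA : ∀ i j, A i j = A j i) (σ : Shift A p) (h h' : ι → ℂ) (m n : ℤ) :
    hS σ h m ∘ₗ hS σ h' n - hS σ h' n ∘ₗ hS σ h m =
      if m + n = 0 then ((m : ℂ) * form A p h h') • LinearMap.id else 0 := by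
  refine Finsupp.lhom_ext fun η f => ?_
  have key := LinearMap.congr_fun (heis_heis A hA p h h' (σ.s + toC η) m n) f
  simp only [LinearMap.sub_apply, LinearMap.comp_apply, fl2_hS_single]
  simp only [LinearMap.sub_apply, LinearMap.comp_apply] at key
  rw [← Finsupp.single_sub, key]
  split_ifs
  · simp
  · simp

theorem LS_expS (hA : IsADE A) (hp : 1 ≤ p) (ε : Cocycle A p) (σ : Shift A p) (γ : ι → ℤ)
    (k n : ℤ) :
    LS σ k ∘ₗ expS ε σ γ n - expS ε σ γ n ∘ₗ LS σ k =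
      (((k : ℂ) + 1) * ((wtExp A p γ : ℂ) - 1) - n) • expS ε σ γ (n + k) := by
  refine Finsupp.lhom_ext fun η f => ?_
  simp only [LinearMap.sub_apply, LinearMap.comp_apply, LinearMap.smul_apply, expS_single,
    fl2_LS_single, map_smul, Finsupp.smul_single]
  rw [← Finsupp.single_sub, ← smul_sub]
  congr 1
  have key := LinearMap.congr_fun (Lop_vop A hA p hp (σ.s + toC η) (toC γ) k
    (-n - 1 - σ.dot γ - formZ A p γ η)) f
  simp only [LinearMap.sub_apply, LinearMap.comp_apply, LinearMap.smul_apply] at key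
  have e1 : σ.s + toC (γ + η) = σ.s + toC η + toC γ := by
    rw [fl2_toC_add]; abel
  have e2 : form A p (toC γ) (σ.s + toC η) = ((σ.dot γ + formZ A p η γ : ℤ) : ℂ) := by
    rw [form_symm A hA.symm, form_shift hA.symm]
  rw [e1, key, smul_comm, e2, formZ_symm hA.symm η γ, wtExp_eq hA hp]
  have e3 : -n - 1 - σ.dot γ - formZ A p γ η - k = -(n + k) - 1 - σ.dot γ - formZ A p γ η := by
    ring
  rw [e3]
  congr 1
  push_cast
  ring

theorem LS_gX (hA : IsADE A) (hp : 1 ≤ p) (ε : Cocycle A p) (ξ : Shift A p) (β : ι → ℤ)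
    (k n : ℤ) :
    LS ξ k ∘ₗ gX ε ξ β n - gX ε ξ β n ∘ₗ LS (Shift.zero A p) k =
      (((k : ℂ) + 1) * ((1 / 2 : ℂ) * form A p (ξ.s + toC β) (ξ.s + toC β) -
        form A p (bg A p) (ξ.s + toC β) - 1) - n) • gX ε ξ β (n + k) := by
  refine Finsupp.lhom_ext fun η f => ?_
  simp only [LinearMap.sub_apply, LinearMap.comp_apply, LinearMap.smul_apply, gX_single,
    fl2_LS_single, map_smul, Finsupp.smul_single]
  rw [← Finsupp.single_sub, ← smul_sub]
  congr 1
  have key := LinearMap.congr_fun (Lop_vop A hA p hp ((Shift.zero A p).s + toC η) (ξ.s + toC β) k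
    (-n - 1 - ξ.dot η - formZ A p β η)) f
  simp only [LinearMap.sub_apply, LinearMap.comp_apply, LinearMap.smul_apply] at key
  have e1 : ξ.s + toC (β + η) = (Shift.zero A p).s + toC η + (ξ.s + toC β) := by
    rw [fl2_toC_add, fl2_zero_s]; abel
  have e2 : form A p (ξ.s + toC β) ((Shift.zero A p).s + toC η) =
      ((ξ.dot η + formZ A p β η : ℤ) : ℂ) := by
    rw [fl2_zero_s, zero_add, form_shift hA.symm]
  rw [e1, key, smul_comm, e2]
  have e3 : -n - 1 - ξ.dot η - formZ A p β η - k = -(n + k) - 1 - ξ.dot η - formZ A p β η := by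
    ring
  rw [e3]
  congr 1
  push_cast
  ring

theorem LS_hS (hA : IsADE A) (hp : 1 ≤ p) (σ : Shift A p) (h : ι → ℂ) (k n : ℤ) :
    LS σ k ∘ₗ hS σ h n - hS σ h n ∘ₗ LS σ k =
      (-(n : ℂ)) • hS σ h (n + k) -
        (if n + k = 0 then ((k : ℂ) * (k + 1) * form A p (bg A p) h) • LinearMap.id else 0) := by
  refine Finsupp.lhom_ext fun η f => ?_
  have key := LinearMap.congr_fun (Lop_heis A hA p hp (σ.s + toC η) h k n) f
  simp only [LinearMap.sub_apply, LinearMap.comp_apply, fl2_hS_single, fl2_LS_single,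
    LinearMap.smul_apply]
  simp only [LinearMap.sub_apply, LinearMap.comp_apply, LinearMap.smul_apply] at key
  rw [← Finsupp.single_sub, key, Finsupp.single_sub, Finsupp.smul_single]
  congr 1
  split_ifs
  · simp
  · simp

theorem LS_Ej (hA : IsADE A) (hp : 1 ≤ p) (ε : Cocycle A p) (σ : Shift A p) (j : ι) (k : ℤ) :
    LS σ k ∘ₗ Ej ε σ j = Ej ε σ j ∘ₗ LS σ k := by
  have h := LS_expS hA hp ε σ (rt j) k 0
  have hw : wtExp A p (rt j) = 1 := by
    unfold wtExp formZ rt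
    have h1 : ∑ i, ∑ i', (Pi.single j (1 : ℤ) : ι → ℤ) i * A i i' * (Pi.single j (1 : ℤ) : ι → ℤ) i'
        = 2 := by
      simp [Pi.single_apply, hA.diag]
    have h2 : ∑ i, (Pi.single j (1 : ℤ) : ι → ℤ) i = 1 := by
      simp [Pi.single_apply]
    rw [h1, h2, Int.mul_ediv_cancel _ (by norm_num)]
    ring
  rw [hw] at h
  have h3 : (((k : ℂ) + 1) * (((1 : ℤ) : ℂ) - 1) - ((0 : ℤ) : ℂ)) = 0 := by
    push_cast
    ring
  rw [h3, zero_smul] at h
  exact sub_eq_zero.1 h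

theorem LS_zero_neg_one : LS (Shift.zero A p) (-1) = transl := by
  unfold LS transl
  simp only [fl2_zero_s, zero_add, Lop_neg_one]

theorem cov_expS (hA : IsADE A) (hp : 1 ≤ p) (ε : Cocycle A p) (σ : Shift A p) (γ : ι → ℤ) :
    Cov (LS σ (-1)) (LS σ (-1)) (expS ε σ γ) := by
  intro n
  rw [LS_expS hA hp ε σ γ (-1) n]
  congr 1
  push_cast
  ring

theorem cov_gX (hA : IsADE A) (hp : 1 ≤ p) (ε : Cocycle A p) (ξ : Shift A p) (β : ι → ℤ) :
    Cov (LS (Shift.zero A p) (-1)) (LS ξ (-1)) (gX ε ξ β) := by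
  intro n
  rw [LS_gX hA hp ε ξ β (-1) n]
  congr 1
  push_cast
  ring

theorem cov_hS (hA : IsADE A) (hp : 1 ≤ p) (σ : Shift A p) (h : ι → ℂ) :
    Cov (LS σ (-1)) (LS σ (-1)) (hS σ h) := by
  intro n
  rw [LS_hS hA hp σ h (-1) n]
  have h1 : ((((-1 : ℤ) : ℂ)) * (((-1 : ℤ) : ℂ) + 1) * form A p (bg A p) h) = 0 := by
    push_cast
    ring
  rw [h1, zero_smul, ite_self]
  exact sub_zero (_ : VL ι →ₗ[ℂ] VL ι)

theorem isFld_hS (σ : Shift A p) (h : ι → ℂ) : IsFld (hS σ h) := by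
  intro v
  induction v using Finsupp.induction_linear with
  | zero => exact ⟨0, fun n _ => map_zero _⟩
  | add f g hf hg =>
    obtain ⟨N, hN⟩ := hf
    obtain ⟨M, hM⟩ := hg
    refine ⟨max N M, fun n hn => ?_⟩
    rw [map_add, hN n (le_trans (le_max_left _ _) hn), hM n (le_trans (le_max_right _ _) hn),
      add_zero]
  | single η f =>
    obtain ⟨N, hN⟩ := heis_trunc A p h (σ.s + toC η) f
    refine ⟨N, fun n hn => ?_⟩
    rw [fl2_hS_single, hN n hn, Finsupp.single_zero]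

theorem loc_hS_expS (hA : ∀ i j, A i j = A j i) (ε : Cocycle A p) (σ : Shift A p) (h : ι → ℂ)
    (γ : ι → ℤ) : Loc 1 (expS ε σ γ) (hS σ h) := by
  intro m n
  have key : ∀ a b : ℤ, expS ε σ γ a ∘ₗ hS σ h b - hS σ h b ∘ₗ expS ε σ γ a =
      -(form A p h (toC γ) • expS ε σ γ (b + a)) := by
    intro a b
    rw [← hS_expS hA ε σ h γ b a]
    exact (neg_sub (_ : VL ι →ₗ[ℂ] VL ι) _).symm
  simp only [Finset.sum_range_succ, Finset.sum_range_zero, key]
  have e1 : n + ((0 : ℕ) : ℤ) + (m + ((1 : ℕ) : ℤ) - ((0 : ℕ) : ℤ)) =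
      n + ((1 : ℕ) : ℤ) + (m + ((1 : ℕ) : ℤ) - ((1 : ℕ) : ℤ)) := by
    push_cast
    ring
  rw [e1]
  exact fl2_two (M := VL ι →ₗ[ℂ] VL ι) _

theorem loc_gX_hS (hA : ∀ i j, A i j = A j i) (ε : Cocycle A p) (ξ : Shift A p) (h : ι → ℂ)
    (β : ι → ℤ) : LocP 1 (gX ε ξ β) (hS (Shift.zero A p) h) (hS ξ h) := by
  intro m n
  have key : ∀ a b : ℤ, gX ε ξ β a ∘ₗ hS (Shift.zero A p) h b - hS ξ h b ∘ₗ gX ε ξ β a =
      -(form A p h (ξ.s + toC β) • gX ε ξ β (b + a)) := by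
    intro a b
    rw [← hS_gX hA ε ξ h β b a]
    exact (neg_sub (_ : VL ι →ₗ[ℂ] VL ι) _).symm
  simp only [Finset.sum_range_succ, Finset.sum_range_zero, key]
  have e1 : n + ((0 : ℕ) : ℤ) + (m + ((1 : ℕ) : ℤ) - ((0 : ℕ) : ℤ)) =
      n + ((1 : ℕ) : ℤ) + (m + ((1 : ℕ) : ℤ) - ((1 : ℕ) : ℤ)) := by
    push_cast
    ring
  rw [e1]
  exact fl2_two (M := VL ι →ₗ[ℂ] VL ι) _

theorem loc_hS_hS (hA : ∀ i j, A i j = A j i) (σ : Shift A p) (h h' : ι → ℂ) :
    Loc 2 (hS σ h) (hS σ h') := by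
  intro m n
  simp only [Finset.sum_range_succ, Finset.sum_range_zero, hS_hS hA]
  have e0 : m + ((2 : ℕ) : ℤ) - ((0 : ℕ) : ℤ) + (n + ((0 : ℕ) : ℤ)) = m + n + 2 := by
    push_cast
    ring
  have e1 : m + ((2 : ℕ) : ℤ) - ((1 : ℕ) : ℤ) + (n + ((1 : ℕ) : ℤ)) = m + n + 2 := by
    push_cast
    ring
  have e2 : m + ((2 : ℕ) : ℤ) - ((2 : ℕ) : ℤ) + (n + ((2 : ℕ) : ℤ)) = m + n + 2 := by
    push_cast
    ring
  rw [e0, e1, e2]
  split_ifs
  · refine fl2_three (M := VL ι →ₗ[ℂ] VL ι) _ _ _ _ ?_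
    push_cast
    ring
  · simp

theorem LS_vac (k : ℤ) (hk : -1 ≤ k) : LS (Shift.zero A p) k vac = 0 := by
  unfold vac
  rw [fl2_LS_single, fl2_zero_s, fl2_toC_zero, add_zero]
  have h0 : Lop A p (0 : ι → ℂ) k 1 = 0 := by
    rcases lt_trichotomy k 0 with hk0 | hk0 | hk0
    · have hk1 : k = -1 := by omega
      rw [hk1, Lop_neg_one]
      simp [osc]
    · rw [hk0, Lop_zero_homog A p 0 1 0 (isWeightedHomogeneous_one _ _)]
      simp [form]
    · exact Lop_one_pos A p 0 k hk0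
  rw [h0, Finsupp.single_zero]

end

end WPQ
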