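import Pool.Agent.WPQ.FL2
import Pool.Agent.WPQ.AF5
import Pool.Agent.WPQ.AF6

/-! [WPQ-FL3] Creation, generation of `V_L`, vertex operators.

Plan.  `generated`: `expMode ε γ (-1) vac = single γ 1` and `heisMode h (-k-1)` multiplies by
`(k+1) osc h k`; `osc (bb i) k = X (i,k)`, so all `single γ (monomial)` are reached.
`vo_exists`: `Gen ε = {expMode ε γ} ∪ {heisMode h}`; `built_span` (AF5) with `W = ⊤` (`generated`)
gives a built `b` with `b (-1) vac = u`; it is a vertex operator by `built_isFld`, `built_local`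
(applied to `a = expMode ε γ` resp. `heisMode h`, then `Loc.symm`), `built_cov` with `T = transl`
(`LS_zero_neg_one`, `cov_expS`, `cov_hS`), `built_vac`.
`vo_unique`: the difference `a - b` satisfies the hypotheses of `AF.unique` with `V = V' = VL ι`
(pairs `(g,g)`), `vac_of_creation`.  `vo_local`: `built_local` applied to `a` and the built field of `v`
(equal to `b` by uniqueness). -/

namespace WPQ

open MvPolynomial AF

noncomputable section

variable {ι : Type} [Fintype ι] [DecidableEq ι] {A : Matrix ι ι ℤ} {p : ℕ}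

/-- The generating fields of `V_L`. -/
def GenL (ε : Cocycle A p) : Set (ℤ → VL ι →ₗ[ℂ] VL ι) :=
  {a | (∃ γ, a = expMode ε γ) ∨ ∃ h, a = heisMode A p h}

theorem fl3_dot_zero (ξ : Shift A p) : ξ.dot 0 = 0 := by
  simp [Shift.dot]

omit [DecidableEq ι] in
theorem fl3_formZ_zero (γ : ι → ℤ) : formZ A p γ 0 = 0 := by
  simp [formZ]

omit [Fintype ι] [DecidableEq ι] in
theorem fl3_toC_zero : toC (0 : ι → ℤ) = 0 := by
  funext i
  simp [toC]

theorem gX_vac (ε : Cocycle A p) (ξ : Shift A p) (γ : ι → ℤ) (m : ℕ) :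
    gX ε ξ γ (-1 - m) vac = Finsupp.single γ (expCoeff (ξ.s + toC γ) m) := by
  have h1 : -(-1 - (m : ℤ)) - 1 - ξ.dot 0 - formZ A p γ 0 = (m : ℤ) := by
    rw [fl3_dot_zero, fl3_formZ_zero]
    ring
  rw [vac, gX_single, h1, vop_one, expCoeffZ_nat, Cocycle.zero_right, fl3_dot_zero, add_zero]
  simp

theorem gX_vac_nonneg (ε : Cocycle A p) (ξ : Shift A p) (γ : ι → ℤ) (n : ℤ) (hn : 0 ≤ n) :
    gX ε ξ γ n vac = 0 := by
  have h1 : -n - 1 - ξ.dot 0 - formZ A p γ 0 = -n - 1 := by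
    rw [fl3_dot_zero, fl3_formZ_zero]
    ring
  rw [vac, gX_single, h1, vop_one, expCoeffZ_neg _ _ (by omega), smul_zero, Finsupp.single_zero]

theorem gX_creation (ε : Cocycle A p) (ξ : Shift A p) (γ : ι → ℤ) :
    gX ε ξ γ (-1) vac = Finsupp.single γ 1 := by
  have h := gX_vac ε ξ γ 0
  rw [expCoeff_zero] at h
  rw [← h]
  simp

theorem expS_vac_nonneg (ε : Cocycle A p) (γ : ι → ℤ) (n : ℤ) (hn : 0 ≤ n) :
    expS ε (Shift.zero A p) γ n vac = 0 := by
  rw [← gX_zero]
  exact gX_vac_nonneg ε _ γ n hn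

theorem expS_creation (ε : Cocycle A p) (γ : ι → ℤ) :
    expS ε (Shift.zero A p) γ (-1) vac = Finsupp.single γ 1 := by
  rw [← gX_zero]
  exact gX_creation ε _ γ

theorem fl3_heis_single (h : ι → ℂ) (n : ℤ) (η : ι → ℤ) (f : Fock ι) :
    heisMode A p h n (Finsupp.single η f) = Finsupp.single η (heis A p h n (toC η) f) := by
  rw [heisMode, Finsupp.lsum_single]
  rfl

theorem hS_vac_nonneg (h : ι → ℂ) (n : ℤ) (hn : 0 ≤ n) : hS (Shift.zero A p) h n vac = 0 := by
  rw [hS_zero, vac, fl3_heis_single, heis, if_neg (not_lt.2 hn), fl3_toC_zero]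
  by_cases h0 : n = 0
  · rw [if_pos h0]
    simp [form]
  · rw [if_neg h0]
    simp [LinearMap.sum_apply]

theorem Ej_vac (ε : Cocycle A p) (j : ι) : Ej ε (Shift.zero A p) j vac = 0 := by
  exact expS_vac_nonneg ε (rt j) 0 le_rfl

theorem transl_vac : transl (vac : VL ι) = 0 := by
  rw [vac, transl, Finsupp.lsum_single, fl3_toC_zero]
  simp [osc]

theorem generated (ε : Cocycle A p) (W' : Submodule ℂ (VL ι)) (hv : vac ∈ W')
    (hg : ∀ g ∈ GenL ε, ∀ m : ℤ, ∀ w ∈ W', g m w ∈ W') : W' = ⊤ := by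
  have h1 : ∀ (γ : ι → ℤ) (f : Fock ι), Finsupp.single γ f ∈ W' := by
    intro γ f
    induction f using MvPolynomial.induction_on with
    | C c =>
      have h2 := hg _ (Or.inl ⟨γ, rfl⟩) (-1) vac hv
      rw [← expS_zero, expS_creation] at h2
      have h3 := W'.smul_mem c h2
      rw [Finsupp.smul_single, smul_eq_C_mul, mul_one] at h3
      exact h3
    | add f g hf hg' =>
      rw [Finsupp.single_add]
      exact W'.add_mem hf hg'
    | mul_X f x hf =>
      obtain ⟨i, k⟩ := x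
      have h2 := hg _ (Or.inr ⟨bb i, rfl⟩) (-(k + 1 : ℤ)) _ hf
      rw [fl3_heis_single, heis, if_pos (by omega)] at h2
      have h4 : (-(-(k + 1 : ℤ)) - 1).toNat = k := by omega
      have h5 : osc (bb i) k = X (i, k) := by
        rw [osc, Finset.sum_eq_single i]
        · simp [bb]
        · intro j _ hj
          simp [bb, hj]
        · intro hi
          exact absurd (Finset.mem_univ i) hi
      rw [h4, h5, LinearMap.smul_apply, LinearMap.mulLeft_apply, ← Finsupp.smul_single] at h2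
      have h6 : (-((-(k + 1 : ℤ) : ℤ) : ℂ)) ≠ 0 := by
        push_cast
        rw [neg_neg]
        exact Nat.cast_add_one_ne_zero k
      have h7 := W'.smul_mem (-((-(k + 1 : ℤ) : ℤ) : ℂ))⁻¹ h2
      rw [smul_smul, inv_mul_cancel₀ h6, one_smul, mul_comm] at h7
      exact h7
  rw [eq_top_iff]
  intro w _
  induction w using Finsupp.induction_linear with
  | zero => exact W'.zero_mem
  | add f g hf hg' => exact W'.add_mem (hf trivial) (hg' trivial)
  | single γ f => exact h1 γ f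

theorem fl3_fld (ε : Cocycle A p) : ∀ g ∈ GenL ε, IsFld g := by
  rintro g (⟨γ, rfl⟩ | ⟨h, rfl⟩)
  · have h1 : expS ε (Shift.zero A p) γ = expMode ε γ := funext fun n => expS_zero ε γ n
    rw [← h1]
    exact isFld_expS ε _ γ
  · have h1 : hS (Shift.zero A p) h = heisMode A p h := funext fun n => hS_zero h n
    rw [← h1]
    exact isFld_hS _ h

theorem fl3_vac (ε : Cocycle A p) : ∀ g ∈ GenL ε, ∀ m : ℤ, 0 ≤ m → g m vac = 0 := by
  rintro g (⟨γ, rfl⟩ | ⟨h, rfl⟩) m hm
  · rw [← expS_zero]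
    exact expS_vac_nonneg ε γ m hm
  · rw [← hS_zero]
    exact hS_vac_nonneg h m hm

theorem fl3_loc (hA : IsADE A) (ε : Cocycle A p) :
    ∀ g ∈ GenL ε, ∀ g' ∈ GenL ε, ∃ N, Loc N g g' := by
  have h1 : ∀ γ, expS ε (Shift.zero A p) γ = expMode ε γ := fun γ => funext fun n => expS_zero ε γ n
  have h2 : ∀ h, hS (Shift.zero A p) h = heisMode A p h := fun h => funext fun n => hS_zero h n
  rintro g (⟨γ, rfl⟩ | ⟨h, rfl⟩) g' (⟨γ', rfl⟩ | ⟨h', rfl⟩)
  · rw [← h1, ← h1]
    exact expS_local hA.symm ε _ γ γ'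
  · rw [← h1, ← h2]
    exact ⟨1, loc_hS_expS hA.symm ε _ h' γ⟩
  · rw [← h1, ← h2]
    exact ⟨1, (loc_hS_expS hA.symm ε _ h γ').symm⟩
  · rw [← h2, ← h2]
    exact ⟨2, loc_hS_hS hA.symm _ h h'⟩

theorem fl3_cov (hA : IsADE A) (hp : 1 ≤ p) (ε : Cocycle A p) :
    ∀ g ∈ GenL ε, Cov transl transl g := by
  have h1 : ∀ γ, expS ε (Shift.zero A p) γ = expMode ε γ := fun γ => funext fun n => expS_zero ε γ n
  have h2 : ∀ h, hS (Shift.zero A p) h = heisMode A p h := fun h => funext fun n => hS_zero h n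
  rintro g (⟨γ, rfl⟩ | ⟨h, rfl⟩)
  · rw [← h1, ← LS_zero_neg_one (A := A) (p := p)]
    exact cov_expS hA hp ε _ γ
  · rw [← h2, ← LS_zero_neg_one (A := A) (p := p)]
    exact cov_hS hA hp _ h

theorem vo_exists (hA : IsADE A) (hp : 1 ≤ p) (ε : Cocycle A p) (u : VL ι) :
    ∃ a, IsVertexOperator ε u a ∧ Built (GenL ε) a := by
  have hf := fl3_fld (A := A) (p := p) ε
  have hv := fl3_vac (A := A) (p := p) ε
  obtain ⟨b, hb, hbu⟩ := built_span hf vac hv ⊤
    (fun W' h1 h2 => by rw [generated ε W' h1 h2]) u trivial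
  have hl : ∀ g ∈ GenL ε, ∃ N, Loc N b g := by
    intro g hg
    obtain ⟨N, hN⟩ := built_local hf (fl3_loc hA ε) hb g (fun g' hg' => fl3_loc hA ε g hg g' hg')
    exact ⟨N, hN.symm⟩
  refine ⟨b, ⟨built_isFld hf hb, fun γ => hl _ (Or.inl ⟨γ, rfl⟩), fun h => hl _ (Or.inr ⟨h, rfl⟩),
    built_cov hf transl (fl3_cov hA hp ε) hb, built_vac vac hv hb, hbu⟩, hb⟩

theorem vo_unique (ε : Cocycle A p) (u : VL ι) (a b : ℤ → VL ι →ₗ[ℂ] VL ι)
    (ha : IsVertexOperator ε u a) (hb : IsVertexOperator ε u b) : a = b := by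
  obtain ⟨c, hc⟩ : ∃ c : ℤ → VL ι →ₗ[ℂ] VL ι, c = fun n => a n + (-1 : ℂ) • b n := ⟨_, rfl⟩
  have hloc : ∀ g, (∃ N, Loc N a g) → (∃ N, Loc N b g) → ∃ N, LocP N c g g := by
    rintro g ⟨N, hN⟩ ⟨M, hM⟩
    refine ⟨max N M, ?_⟩
    rw [hc]
    exact (hN.mono (le_max_left N M)).add ((hM.mono (le_max_right N M)).smul (-1))
  have hcov : Cov transl transl c := by
    intro n
    refine LinearMap.ext fun v => ?_
    have h1 := LinearMap.congr_fun (ha.translation n) v
    have h2 := LinearMap.congr_fun (hb.translation n) v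
    rw [hc]
    simp only [LinearMap.sub_apply, LinearMap.comp_apply, LinearMap.add_apply,
      LinearMap.smul_apply, map_add, map_smul] at h1 h2 ⊢
    rw [smul_add, ← h1, smul_comm, ← h2]
    simp only [neg_smul, one_smul]
    abel
  have hvac : ∀ n : ℤ, c n vac = 0 := by
    refine vac_of_creation hcov vac transl_vac ?_ ?_
    · intro n hn
      rw [hc]
      simp only [LinearMap.add_apply, LinearMap.smul_apply]
      rw [ha.vacuum n hn, hb.vacuum n hn, smul_zero, add_zero]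
    · rw [hc]
      simp only [LinearMap.add_apply, LinearMap.smul_apply]
      rw [ha.creation, hb.creation, neg_smul, one_smul, add_neg_cancel]
  have h0 : ∀ n, c n = 0 := by
    refine AF.unique (Gen := {g | g.1 ∈ GenL ε ∧ g.2 = g.1}) ?_ vac ?_ c ?_ hvac
    · rintro ⟨g, g'⟩ ⟨h1, -⟩
      exact fl3_fld ε g h1
    · intro W' h1 h2
      refine generated ε W' h1 fun g hg m w hw => h2 (g, g) ⟨hg, rfl⟩ m w hw
    · rintro ⟨g, g'⟩ ⟨h1, h2⟩
      have h3 : g' = g := h2
      subst h3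
      rcases h1 with ⟨γ, h4⟩ | ⟨h, h4⟩
      · have h5 : g' = expMode ε γ := h4
        subst h5
        exact hloc _ (ha.local_exp γ) (hb.local_exp γ)
      · have h5 : g' = heisMode A p h := h4
        subst h5
        exact hloc _ (ha.local_heis h) (hb.local_heis h)
  funext n
  refine LinearMap.ext fun v => ?_
  have h1 := LinearMap.congr_fun (h0 n) v
  rw [hc] at h1
  simp only [LinearMap.add_apply, LinearMap.smul_apply, LinearMap.zero_apply] at h1
  rw [neg_smul, one_smul, ← sub_eq_add_neg] at h1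
  exact sub_eq_zero.1 h1

theorem vo_local (hA : IsADE A) (hp : 1 ≤ p) (ε : Cocycle A p) (u v : VL ι)
    (a b : ℤ → VL ι →ₗ[ℂ] VL ι) (ha : IsVertexOperator ε u a) (hb : IsVertexOperator ε v b) :
    ∃ N : ℕ, Loc N a b := by
  obtain ⟨b', hb', hbb⟩ := vo_exists hA hp ε v
  have h1 : b = b' := vo_unique ε v b b' hb hb'
  rw [h1]
  refine built_local (fl3_fld ε) (fl3_loc hA ε) hbb a ?_
  rintro g (⟨γ, rfl⟩ | ⟨h, rfl⟩)
  · exact ha.local_exp γ
  · exact ha.local_heis h

theorem mode_spec (hA : IsADE A) (hp : 1 ≤ p) (ε : Cocycle A p) (u : VL ι) :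
    IsVertexOperator ε u (mode ε u) := by
  have h : ∃ a, IsVertexOperator ε u a := by
    obtain ⟨a, ha, -⟩ := vo_exists hA hp ε u
    exact ⟨a, ha⟩
  rw [mode, dif_pos h]
  exact h.choose_spec

theorem mode_eq (ε : Cocycle A p) (u : VL ι) (a : ℤ → VL ι →ₗ[ℂ] VL ι)
    (ha : IsVertexOperator ε u a) : mode ε u = a := by
  have h : ∃ a, IsVertexOperator ε u a := ⟨a, ha⟩
  rw [mode, dif_pos h]
  exact vo_unique ε u _ a h.choose_spec ha

end

end WPQ
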