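import Pool.Agent.WPQ.VPD
import Pool.Agent.WPQ.FL3

/-! [WPQ-FL4] Brackets with the long screenings.

Plan.  `cS` is an iterated `br` with the zero modes `Ej ε σ j = expS ε σ (rt j) 0`; locality by
`dong0_right`/`dong0_left` (AF2) with `e = expS ε σ (rt j)`, `expS_local`, `loc_hS_expS`, and
`LocP.mono` to a common order; `IsFld.br`, `Cov.br` (`LS_Ej`).
`cS_local_cS`: first `cS js` local with `expS σ γ`, then induction on the second list.
`cS_gX`: `a = gX ε ξ β` with pair `(cS zero js, cS ξ js)`: `dong0_right`.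
`iter_br_gX`: let `D = (br ..)^[n] (gX ε ξ γ) - c • gX ε ξ (γ + n • rt j)` : fields `V_L → V_{L+ξ}`; `D` is
local with all pairs `(expS zero β, expS ξ β)`, `(hS zero h, hS ξ h)` (`dong0_left`), covariant
(`Cov.br`), kills `vac` for modes `≥ 0` and mode `-1` (`Ej_vac`, `gX_creation`, `hc`); apply
`vac_of_creation` and `AF.unique` with `generated` (`expS_zero`, `hS_zero`). -/

namespace WPQ

open MvPolynomial AF

noncomputable section

theorem fl4_dong_left {V V' : Type} [AddCommGroup V] [Module ℂ V] [AddCommGroup V'] [Module ℂ V']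
    {a : ℤ → V →ₗ[ℂ] V'} {b e : ℤ → V →ₗ[ℂ] V} {b' e' : ℤ → V' →ₗ[ℂ] V'}
    (hab : ∃ N, LocP N a b b') (hae : ∃ N, LocP N a e e') (hbe : ∃ N, Loc N b e)
    (hbe' : ∃ N, Loc N b' e') : ∃ N, LocP N (br (e 0) (e' 0) a) b b' := by
  obtain ⟨N1, h1⟩ := hab
  obtain ⟨N2, h2⟩ := hae
  obtain ⟨N3, h3⟩ := hbe
  obtain ⟨N4, h4⟩ := hbe'
  refine ⟨3 * (N1 + N2 + N3 + N4), dong0_left (h1.mono ?_) (h2.mono ?_) (LocP.mono ?_ h3)
    (LocP.mono ?_ h4)⟩ <;> omega

theorem fl4_dong_right {V V' : Type} [AddCommGroup V] [Module ℂ V] [AddCommGroup V'] [Module ℂ V']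
    {a : ℤ → V →ₗ[ℂ] V'} {b e : ℤ → V →ₗ[ℂ] V} {b' e' : ℤ → V' →ₗ[ℂ] V'}
    (hab : ∃ N, LocP N a b b') (hae : ∃ N, LocP N a e e') (hbe : ∃ N, Loc N b e)
    (hbe' : ∃ N, Loc N b' e') : ∃ N, LocP N a (br (e 0) (e 0) b) (br (e' 0) (e' 0) b') := by
  obtain ⟨N1, h1⟩ := hab
  obtain ⟨N2, h2⟩ := hae
  obtain ⟨N3, h3⟩ := hbe
  obtain ⟨N4, h4⟩ := hbe'
  refine ⟨3 * (N1 + N2 + N3 + N4), dong0_right (h1.mono ?_) (h2.mono ?_) (LocP.mono ?_ h3)
    (LocP.mono ?_ h4)⟩ <;> omega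

theorem fl4_add {V V' : Type} [AddCommGroup V] [Module ℂ V] [AddCommGroup V'] [Module ℂ V']
    {a a2 : ℤ → V →ₗ[ℂ] V'} {b : ℤ → V →ₗ[ℂ] V} {b' : ℤ → V' →ₗ[ℂ] V'} (c : ℂ)
    (h : ∃ N, LocP N a b b') (h2 : ∃ N, LocP N a2 b b') :
    ∃ N, LocP N (fun n => a n + c • a2 n) b b' := by
  obtain ⟨N1, h1⟩ := h
  obtain ⟨N2, h2⟩ := h2
  have h3 : LocP (N1 + N2) a b b' := h1.mono (by omega)
  have h4 : LocP (N1 + N2) a2 b b' := h2.mono (by omega)
  exact ⟨N1 + N2, h3.add (h4.smul c)⟩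

theorem fl4_cov {V V' : Type} [AddCommGroup V] [Module ℂ V] [AddCommGroup V'] [Module ℂ V']
    {T : V →ₗ[ℂ] V} {T' : V' →ₗ[ℂ] V'} {a a2 : ℤ → V →ₗ[ℂ] V'} (c : ℂ)
    (h : Cov T T' a) (h2 : Cov T T' a2) : Cov T T' (fun n => a n + c • a2 n) := by
  intro n
  have e1 := h n
  have e2 := h2 n
  have e3 : T' ∘ₗ (a n + c • a2 n) - (a n + c • a2 n) ∘ₗ T =
      (T' ∘ₗ a n - a n ∘ₗ T) + c • (T' ∘ₗ a2 n - a2 n ∘ₗ T) := by
    rw [LinearMap.comp_add, LinearMap.add_comp, LinearMap.comp_smul, LinearMap.smul_comp]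
    module
  show T' ∘ₗ (a n + c • a2 n) - (a n + c • a2 n) ∘ₗ T = _
  rw [e3, e1, e2]
  module

theorem fl4_last {V V' : Type} [AddCommGroup V] [Module ℂ V] [AddCommGroup V'] [Module ℂ V']
    (x y : V →ₗ[ℂ] V') (c : ℂ) (h : x + (-c) • y = 0) : x = c • y := by
  rw [neg_smul, ← sub_eq_add_neg] at h
  exact sub_eq_zero.1 h

variable {ι : Type} [Fintype ι] [DecidableEq ι] {A : Matrix ι ι ℤ} {p : ℕ}

theorem isFld_cS (ε : Cocycle A p) (σ : Shift A p) (lam : ι → ℤ) (js : List ι) :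
    IsFld (cS ε σ lam js) := by
  induction js with
  | nil => exact isFld_expS ε σ (-lam)
  | cons j js ih => exact IsFld.br ih

theorem cov_cS (hA : IsADE A) (hp : 1 ≤ p) (ε : Cocycle A p) (σ : Shift A p) (lam : ι → ℤ)
    (js : List ι) : Cov (LS σ (-1)) (LS σ (-1)) (cS ε σ lam js) := by
  induction js with
  | nil => exact cov_expS hA hp ε σ (-lam)
  | cons j js ih =>
    exact Cov.br ih (LS_Ej hA hp ε σ j (-1)) (LS_Ej hA hp ε σ j (-1))

theorem cS_local_expS (hA : IsADE A) (ε : Cocycle A p) (σ : Shift A p) (lam : ι → ℤ)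
    (js : List ι) (γ : ι → ℤ) : ∃ N : ℕ, Loc N (cS ε σ lam js) (expS ε σ γ) := by
  induction js generalizing γ with
  | nil => exact expS_local hA.symm ε σ (-lam) γ
  | cons j js ih =>
    exact fl4_dong_left (e := expS ε σ (rt j)) (e' := expS ε σ (rt j)) (ih γ) (ih (rt j))
      (expS_local hA.symm ε σ γ (rt j)) (expS_local hA.symm ε σ γ (rt j))

theorem fl4_hS_expS (hA : IsADE A) (ε : Cocycle A p) (σ : Shift A p) (h : ι → ℂ) (γ : ι → ℤ) :
    ∃ N : ℕ, Loc N (hS σ h) (expS ε σ γ) :=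
  ⟨1, (loc_hS_expS hA.symm ε σ h γ).symm⟩

theorem cS_local_hS (hA : IsADE A) (ε : Cocycle A p) (σ : Shift A p) (lam : ι → ℤ)
    (js : List ι) (h : ι → ℂ) : ∃ N : ℕ, Loc N (cS ε σ lam js) (hS σ h) := by
  induction js with
  | nil => exact ⟨1, loc_hS_expS hA.symm ε σ h (-lam)⟩
  | cons j js ih =>
    exact fl4_dong_left (e := expS ε σ (rt j)) (e' := expS ε σ (rt j)) ih
      (cS_local_expS hA ε σ lam js (rt j))
      (fl4_hS_expS hA ε σ h (rt j)) (fl4_hS_expS hA ε σ h (rt j))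

theorem cS_local_cS (hA : IsADE A) (ε : Cocycle A p) (σ : Shift A p) (lam lam' : ι → ℤ)
    (js js' : List ι) : ∃ N : ℕ, Loc N (cS ε σ lam js) (cS ε σ lam' js') := by
  induction js' with
  | nil => exact cS_local_expS hA ε σ lam js (-lam')
  | cons j js' ih =>
    exact fl4_dong_right (e := expS ε σ (rt j)) (e' := expS ε σ (rt j)) ih
      (cS_local_expS hA ε σ lam js (rt j))
      (cS_local_expS hA ε σ lam' js' (rt j)) (cS_local_expS hA ε σ lam' js' (rt j))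

theorem cS_gX (hA : IsADE A) (ε : Cocycle A p) (ξ : Shift A p) (β : ι → ℤ) (lam : ι → ℤ)
    (js : List ι) :
    ∃ N : ℕ, LocP N (gX ε ξ β) (cS ε (Shift.zero A p) lam js) (cS ε ξ lam js) := by
  induction js with
  | nil => exact gX_local hA.symm ε ξ β (-lam)
  | cons j js ih =>
    exact fl4_dong_right (e := expS ε (Shift.zero A p) (rt j)) (e' := expS ε ξ (rt j)) ih
      (gX_local hA.symm ε ξ β (rt j))
      (cS_local_expS hA ε (Shift.zero A p) lam js (rt j)) (cS_local_expS hA ε ξ lam js (rt j))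

theorem cS_vac_nonneg (ε : Cocycle A p) (lam : ι → ℤ) (js : List ι) (n : ℤ) (hn : 0 ≤ n) :
    cS ε (Shift.zero A p) lam js n vac = 0 := by
  induction js with
  | nil => exact expS_vac_nonneg ε (-lam) n hn
  | cons j js ih =>
    show Ej ε (Shift.zero A p) j (cS ε (Shift.zero A p) lam js n vac) -
      cS ε (Shift.zero A p) lam js n (Ej ε (Shift.zero A p) j vac) = 0
    rw [ih, Ej_vac, map_zero, map_zero, sub_zero]

theorem cS_creation (ε : Cocycle A p) (lam : ι → ℤ) (js : List ι) :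
    cS ε (Shift.zero A p) lam js (-1) vac =
      Ew ε (Shift.zero A p) js (Finsupp.single (-lam) 1) := by
  induction js with
  | nil => exact expS_creation ε (-lam)
  | cons j js ih =>
    show Ej ε (Shift.zero A p) j (cS ε (Shift.zero A p) lam js (-1) vac) -
      cS ε (Shift.zero A p) lam js (-1) (Ej ε (Shift.zero A p) j vac) =
        Ej ε (Shift.zero A p) j (Ew ε (Shift.zero A p) js (Finsupp.single (-lam) 1))
    rw [ih, Ej_vac, map_zero, sub_zero]

/-- `cS` is the vertex operator of `E_{j1} ... E_{jk} e^{-λ}`. -/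
theorem cS_vo (hA : IsADE A) (hp : 1 ≤ p) (ε : Cocycle A p) (lam : ι → ℤ) (js : List ι) :
    IsVertexOperator ε (Ew ε (Shift.zero A p) js (Finsupp.single (-lam) 1))
      (cS ε (Shift.zero A p) lam js) := by
  refine ⟨isFld_cS ε (Shift.zero A p) lam js, ?_, ?_, ?_,
    fun n hn => cS_vac_nonneg ε lam js n hn, cS_creation ε lam js⟩
  · intro γ
    have h1 : expMode ε γ = expS ε (Shift.zero A p) γ := by
      funext n
      exact (expS_zero ε γ n).symm
    rw [h1]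
    exact cS_local_expS hA ε (Shift.zero A p) lam js γ
  · intro h
    have h1 : heisMode A p h = hS (Shift.zero A p) h := by
      funext n
      exact (hS_zero h n).symm
    rw [h1]
    exact cS_local_hS hA ε (Shift.zero A p) lam js h
  · intro n
    have h1 := cov_cS hA hp ε (Shift.zero A p) lam js n
    rw [LS_zero_neg_one] at h1
    exact h1

theorem fl4_iter_expS (hA : IsADE A) (ε : Cocycle A p) (ξ : Shift A p) (γ : ι → ℤ) (j : ι) (n : ℕ)
    (β : ι → ℤ) :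
    ∃ N : ℕ, LocP N ((br (Ej ε (Shift.zero A p) j) (Ej ε ξ j))^[n] (gX ε ξ γ))
      (expS ε (Shift.zero A p) β) (expS ε ξ β) := by
  induction n generalizing β with
  | zero => exact gX_local hA.symm ε ξ γ β
  | succ n ih =>
    rw [Function.iterate_succ_apply']
    exact fl4_dong_left (e := expS ε (Shift.zero A p) (rt j)) (e' := expS ε ξ (rt j)) (ih β)
      (ih (rt j)) (expS_local hA.symm ε (Shift.zero A p) β (rt j))
      (expS_local hA.symm ε ξ β (rt j))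

theorem fl4_iter_hS (hA : IsADE A) (ε : Cocycle A p) (ξ : Shift A p) (γ : ι → ℤ) (j : ι) (n : ℕ)
    (h : ι → ℂ) :
    ∃ N : ℕ, LocP N ((br (Ej ε (Shift.zero A p) j) (Ej ε ξ j))^[n] (gX ε ξ γ))
      (hS (Shift.zero A p) h) (hS ξ h) := by
  induction n with
  | zero => exact ⟨1, loc_gX_hS hA.symm ε ξ h γ⟩
  | succ n ih =>
    rw [Function.iterate_succ_apply']
    exact fl4_dong_left (e := expS ε (Shift.zero A p) (rt j)) (e' := expS ε ξ (rt j)) ih
      (fl4_iter_expS hA ε ξ γ j n (rt j)) (fl4_hS_expS hA ε (Shift.zero A p) h (rt j))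
      (fl4_hS_expS hA ε ξ h (rt j))

theorem fl4_iter_cov (hA : IsADE A) (hp : 1 ≤ p) (ε : Cocycle A p) (ξ : Shift A p) (γ : ι → ℤ)
    (j : ι) (n : ℕ) :
    Cov (LS (Shift.zero A p) (-1)) (LS ξ (-1))
      ((br (Ej ε (Shift.zero A p) j) (Ej ε ξ j))^[n] (gX ε ξ γ)) := by
  induction n with
  | zero => exact cov_gX hA hp ε ξ γ
  | succ n ih =>
    rw [Function.iterate_succ_apply']
    exact Cov.br ih (LS_Ej hA hp ε (Shift.zero A p) j (-1)) (LS_Ej hA hp ε ξ j (-1))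

theorem fl4_iter_vac (ε : Cocycle A p) (ξ : Shift A p) (γ : ι → ℤ) (j : ι) (n : ℕ) (m : ℤ) :
    ((br (Ej ε (Shift.zero A p) j) (Ej ε ξ j))^[n] (gX ε ξ γ)) m vac =
      (Ej ε ξ j ^ n) (gX ε ξ γ m vac) := by
  induction n with
  | zero => rfl
  | succ n ih =>
    rw [Function.iterate_succ_apply']
    show Ej ε ξ j (((br (Ej ε (Shift.zero A p) j) (Ej ε ξ j))^[n] (gX ε ξ γ)) m vac) -
      ((br (Ej ε (Shift.zero A p) j) (Ej ε ξ j))^[n] (gX ε ξ γ)) m
        (Ej ε (Shift.zero A p) j vac) = _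
    rw [ih, Ej_vac, map_zero, sub_zero, pow_succ']
    rfl

theorem iter_br_gX (hA : IsADE A) (hp : 1 ≤ p) (ε : Cocycle A p) (ξ : Shift A p) (γ : ι → ℤ)
    (j : ι) (n : ℕ) (c : ℂ)
    (hc : (Ej ε ξ j ^ n) (Finsupp.single γ 1) = c • Finsupp.single (γ + n • rt j) 1) :
    (br (Ej ε (Shift.zero A p) j) (Ej ε ξ j))^[n] (gX ε ξ γ) =
      fun m => c • gX ε ξ (γ + n • rt j) m := by
  set a := (br (Ej ε (Shift.zero A p) j) (Ej ε ξ j))^[n] (gX ε ξ γ) with ha
  have hvac : ∀ m : ℤ, 0 ≤ m → (a m + (-c) • gX ε ξ (γ + n • rt j) m) vac = 0 := by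
    intro m hm
    rw [LinearMap.add_apply, LinearMap.smul_apply, gX_vac_nonneg ε ξ _ m hm, ha, fl4_iter_vac,
      gX_vac_nonneg ε ξ _ m hm, map_zero, smul_zero, add_zero]
  have hcr : (a (-1) + (-c) • gX ε ξ (γ + n • rt j) (-1)) vac = 0 := by
    rw [LinearMap.add_apply, LinearMap.smul_apply, gX_creation, ha, fl4_iter_vac,
      gX_creation, hc, neg_smul, add_neg_cancel]
  have hcov : Cov (LS (Shift.zero A p) (-1)) (LS ξ (-1))
      (fun m => a m + (-c) • gX ε ξ (γ + n • rt j) m) :=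
    fl4_cov (-c) (fl4_iter_cov hA hp ε ξ γ j n) (cov_gX hA hp ε ξ (γ + n • rt j))
  have hall : ∀ m : ℤ, (a m + (-c) • gX ε ξ (γ + n • rt j) m) vac = 0 := fun m =>
    vac_of_creation (a := fun m => a m + (-c) • gX ε ξ (γ + n • rt j) m) hcov vac
      (LS_vac (-1) (le_refl _)) hvac hcr m
  let Gen : Set ((ℤ → VL ι →ₗ[ℂ] VL ι) × (ℤ → VL ι →ₗ[ℂ] VL ι)) :=
    {g | (∃ β, g = (expS ε (Shift.zero A p) β, expS ε ξ β)) ∨
      ∃ h, g = (hS (Shift.zero A p) h, hS ξ h)}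
  have huniq : ∀ m : ℤ, a m + (-c) • gX ε ξ (γ + n • rt j) m = 0 := by
    intro m
    refine AF.unique (Gen := Gen) ?_ vac ?_ (fun m => a m + (-c) • gX ε ξ (γ + n • rt j) m) ?_
      hall m
    · rintro g (⟨β, rfl⟩ | ⟨h, rfl⟩)
      · exact isFld_expS ε (Shift.zero A p) β
      · exact isFld_hS (Shift.zero A p) h
    · intro W' hv hg
      refine generated ε W' hv ?_
      rintro g (⟨β, rfl⟩ | ⟨h, rfl⟩) m w hw
      · have := hg (expS ε (Shift.zero A p) β, expS ε ξ β) (Or.inl ⟨β, rfl⟩) m w hw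
        rw [← expS_zero]
        exact this
      · have := hg (hS (Shift.zero A p) h, hS ξ h) (Or.inr ⟨h, rfl⟩) m w hw
        rw [← hS_zero]
        exact this
    · rintro g (⟨β, rfl⟩ | ⟨h, rfl⟩)
      · exact fl4_add (-c) (fl4_iter_expS hA ε ξ γ j n β)
          (gX_local hA.symm ε ξ (γ + n • rt j) β)
      · exact fl4_add (-c) (fl4_iter_hS hA ε ξ γ j n h)
          ⟨1, loc_gX_hS hA.symm ε ξ h (γ + n • rt j)⟩
  funext m
  have h5 := huniq m
  exact fl4_last _ _ _ h5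

end

end WPQ
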