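import Pool.Agent.WPQ.FPD

/-! [WPQ-FP0] Elementary facts on `hP`, `hrs`.

`hP_even`: unfold.  `hP_hrs`: `hrs t r s = hP t (r - s t)`, `hrs t r s + r s = hP t (r + s t)` (unfold, `field_simp`, `ring`).
`Irr_ne`: see `KV.kv17_ne`.  `Irr_inv`: `a = t⁻¹ b` gives `b = t a`.  `hP_inv`, `hrs_inv`: unfold, `field_simp`, `ring`.
`PF_inv`: every factor of `PF t⁻¹ s r (P / t) (Q / t)` at `(i, j)` is `((P + (r-1-2j) + (s-1-2i) t)² - Q²) / t²`; swap the two
products (`Finset.prod_comm`) and count (`Finset.prod_const`). -/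

namespace WPQ.SV

open KV

noncomputable section

theorem Irr_ne {t : ℂ} (ht : Irr t) : t ≠ 0 := by
  intro h
  have h1 := ht 0 1 (by rw [h]; push_cast; ring)
  exact one_ne_zero h1.2

theorem Irr_inv {t : ℂ} (ht : Irr t) : Irr t⁻¹ := by
  intro a b h
  have h0 := Irr_ne ht
  have h1 : (b : ℂ) = t * a := by
    rw [h, ← mul_assoc, mul_inv_cancel₀ h0, one_mul]
  exact (ht b a h1).symm

theorem hP_even (t P : ℂ) : hP t (-P) = hP t P := by
  unfold hP
  rw [neg_sq]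

theorem hP_hrs {t : ℂ} (ht : t ≠ 0) (r s : ℕ) : hrs t r s = hP t ((r : ℂ) - s * t) := by
  unfold hrs hP
  field_simp
  ring

theorem hP_hrs' {t : ℂ} (ht : t ≠ 0) (r s : ℕ) :
    hrs t r s + ((r * s : ℕ) : ℂ) = hP t ((r : ℂ) + s * t) := by
  unfold hrs hP
  push_cast
  field_simp
  ring

theorem hP_inv {t : ℂ} (ht : t ≠ 0) (P : ℂ) : hP t⁻¹ (P / t) = hP t P := by
  unfold hP
  field_simp
  ring

theorem hrs_inv {t : ℂ} (ht : t ≠ 0) (r s : ℕ) : hrs t⁻¹ s r = hrs t r s := by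
  unfold hrs
  field_simp
  ring

theorem PF_inv {t : ℂ} (ht : t ≠ 0) (r s : ℕ) (P Q : ℂ) :
    PF t⁻¹ s r (P / t) (Q / t) * t ^ (2 * (r * s)) = PF t r s P Q := by
  unfold PF
  have h1 : t ^ (2 * (r * s)) = ∏ i ∈ Finset.range s, ∏ j ∈ Finset.range r, t ^ 2 := by
    rw [Finset.prod_const, Finset.prod_const, Finset.card_range, Finset.card_range, ← pow_mul,
      ← pow_mul]
  rw [h1, ← Finset.prod_mul_distrib, Finset.prod_comm]
  simp_rw [← Finset.prod_mul_distrib]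
  rw [Finset.prod_comm]
  rw [Finset.prod_comm]
  refine Finset.prod_congr rfl fun i _ => Finset.prod_congr rfl fun j _ => ?_
  field_simp
  ring

end

end WPQ.SV
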