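import Pool.Agent.WPQ.FP0

/-! [WPQ-FP0b] The product `PF`.

`PF_eq`: `(x)² - Q² = (x - Q)(x + Q)` and reflection `(i, j) ↦ (r-1-i, s-1-j)` (`Finset.prod_range_reflect`) in one of the two factors.
`PF_FE`: for fixed `i` with `ψ k = (P + c_i + k t)² - Q²`: the factors of `PF (P - t)` are `ψ (s-2-2j)`, of `PF (P + t)` `ψ (s - 2j)`, `j < s`;
`AA` has the factor `ψ s`, `BB` has (after the reflection `i ↦ r-1-i`) the factor `ψ (-s)`; both products are `∏_{j<s+1} ψ (s - 2j)`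
(`Finset.prod_range_succ`, `Finset.prod_range_succ'`).
`PF_even`: by `PF_eq`.  `PF_polyQ`, `PF_polyP`: products of polynomials (`Polynomial.eval_prod`); for `PF_polyP` use `PF_eq`:
`∏_i ∏_j (X² - C ((Q - c)²))` is monic of degree `2 r s` (`Polynomial.monic_prod_of_monic`, `Polynomial.monic_X_pow_sub_C`, `natDegree_prod_of_monic`…). -/

namespace WPQ.SV

open KV

noncomputable section

/-- Reflection of a range product of a function of the centred coordinate. -/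
theorem fp0b_refl (n : ℕ) (f : ℂ → ℂ) :
    ∏ i ∈ Finset.range n, f ((n : ℂ) - 1 - 2 * i) =
      ∏ i ∈ Finset.range n, f (-((n : ℂ) - 1 - 2 * i)) := by
  rw [← Finset.prod_range_reflect]
  refine Finset.prod_congr rfl fun i hi => ?_
  have hi' := Finset.mem_range.1 hi
  have h1 : ((n - 1 - i : ℕ) : ℂ) = (n : ℂ) - 1 - i := by
    rw [Nat.cast_sub (by omega), Nat.cast_sub (by omega)]
    push_cast
    ring
  rw [h1]
  congr 1
  ring

theorem PF_eq (t : ℂ) (r s : ℕ) (P Q : ℂ) :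
    PF t r s P Q = ∏ i ∈ Finset.range r, ∏ j ∈ Finset.range s,
      (P ^ 2 - (Q - (((r : ℂ) - 1 - 2 * i) + ((s : ℂ) - 1 - 2 * j) * t)) ^ 2) := by
  unfold PF
  have h1 : ∏ i ∈ Finset.range r, ∏ j ∈ Finset.range s,
      (P + ((r : ℂ) - 1 - 2 * i) + ((s : ℂ) - 1 - 2 * j) * t + Q) =
      ∏ i ∈ Finset.range r, ∏ j ∈ Finset.range s,
      (P - ((r : ℂ) - 1 - 2 * i) - ((s : ℂ) - 1 - 2 * j) * t + Q) := by
    rw [fp0b_refl r fun x => ∏ j ∈ Finset.range s, (P + x + ((s : ℂ) - 1 - 2 * j) * t + Q)]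
    refine Finset.prod_congr rfl fun i _ => ?_
    rw [fp0b_refl s fun y => (P + -((r : ℂ) - 1 - 2 * i) + y * t + Q)]
    refine Finset.prod_congr rfl fun j _ => ?_
    ring
  have h2 : ∏ i ∈ Finset.range r, ∏ j ∈ Finset.range s,
      ((P + ((r : ℂ) - 1 - 2 * i) + ((s : ℂ) - 1 - 2 * j) * t) ^ 2 - Q ^ 2) =
      (∏ i ∈ Finset.range r, ∏ j ∈ Finset.range s,
      (P + ((r : ℂ) - 1 - 2 * i) + ((s : ℂ) - 1 - 2 * j) * t - Q)) *
      ∏ i ∈ Finset.range r, ∏ j ∈ Finset.range s,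
      (P + ((r : ℂ) - 1 - 2 * i) + ((s : ℂ) - 1 - 2 * j) * t + Q) := by
    rw [← Finset.prod_mul_distrib]
    refine Finset.prod_congr rfl fun i _ => ?_
    rw [← Finset.prod_mul_distrib]
    refine Finset.prod_congr rfl fun j _ => ?_
    ring
  rw [h2, h1, ← Finset.prod_mul_distrib]
  refine Finset.prod_congr rfl fun i _ => ?_
  rw [← Finset.prod_mul_distrib]
  refine Finset.prod_congr rfl fun j _ => ?_
  ring

theorem PF_even (t : ℂ) (r s : ℕ) (P Q : ℂ) : PF t r s (-P) Q = PF t r s P Q := by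
  rw [PF_eq, PF_eq, neg_sq]

/-- The product satisfies the functional equation. -/
theorem PF_FE (t : ℂ) (r s : ℕ) (P Q : ℂ) :
    PF t r s (P - t) Q * AA t r s Q P = PF t r s (P + t) Q * BB t r s Q P := by
  have hB : BB t r s Q P =
      ∏ i ∈ Finset.range r, ((P - s * t + ((r : ℂ) - 1 - 2 * i)) ^ 2 - Q ^ 2) := by
    unfold BB
    rw [fp0b_refl r fun x => ((P - s * t - x) ^ 2 - Q ^ 2)]
    refine Finset.prod_congr rfl fun i _ => ?_
    ring
  rw [hB]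
  unfold PF AA
  rw [← Finset.prod_mul_distrib, ← Finset.prod_mul_distrib]
  refine Finset.prod_congr rfl fun i _ => ?_
  have h1 := Finset.prod_range_succ
    (fun j : ℕ => ((P + ((r : ℂ) - 1 - 2 * i) + ((s : ℂ) - 2 * j) * t) ^ 2 - Q ^ 2)) s
  have h2 := Finset.prod_range_succ'
    (fun j : ℕ => ((P + ((r : ℂ) - 1 - 2 * i) + ((s : ℂ) - 2 * j) * t) ^ 2 - Q ^ 2)) s
  have h3 : ∏ j ∈ Finset.range s,
      ((P - t + ((r : ℂ) - 1 - 2 * i) + ((s : ℂ) - 1 - 2 * j) * t) ^ 2 - Q ^ 2) =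
      ∏ j ∈ Finset.range s,
      ((P + ((r : ℂ) - 1 - 2 * i) + ((s : ℂ) - 2 * ((j + 1 : ℕ) : ℂ)) * t) ^ 2 - Q ^ 2) := by
    refine Finset.prod_congr rfl fun j _ => ?_
    push_cast
    ring
  have h4 : ∏ j ∈ Finset.range s,
      ((P + t + ((r : ℂ) - 1 - 2 * i) + ((s : ℂ) - 1 - 2 * j) * t) ^ 2 - Q ^ 2) =
      ∏ j ∈ Finset.range s,
      ((P + ((r : ℂ) - 1 - 2 * i) + ((s : ℂ) - 2 * (j : ℂ)) * t) ^ 2 - Q ^ 2) := by
    refine Finset.prod_congr rfl fun j _ => ?_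
    ring
  rw [h3, h4]
  rw [h1] at h2
  have h5 : ((P - s * t + ((r : ℂ) - 1 - 2 * i)) ^ 2 - Q ^ 2) =
      ((P + ((r : ℂ) - 1 - 2 * i) + ((s : ℂ) - 2 * (s : ℂ)) * t) ^ 2 - Q ^ 2) := by ring
  have h6 : ((P + s * t + ((r : ℂ) - 1 - 2 * i)) ^ 2 - Q ^ 2) =
      ((P + ((r : ℂ) - 1 - 2 * i) + ((s : ℂ) - 2 * ((0 : ℕ) : ℂ)) * t) ^ 2 - Q ^ 2) := by
    push_cast
    ring
  rw [h5, h6]
  exact h2.symm

theorem PF_polyQ (t : ℂ) (r s : ℕ) (P : ℂ) : ∃ g : Polynomial ℂ, ∀ Q, g.eval Q = PF t r s P Q := by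
  refine ⟨∏ i ∈ Finset.range r, ∏ j ∈ Finset.range s,
    (Polynomial.C ((P + ((r : ℂ) - 1 - 2 * i) + ((s : ℂ) - 1 - 2 * j) * t) ^ 2)
      - Polynomial.X ^ 2), fun Q => ?_⟩
  unfold PF
  rw [Polynomial.eval_prod]
  refine Finset.prod_congr rfl fun i _ => ?_
  rw [Polynomial.eval_prod]
  refine Finset.prod_congr rfl fun j _ => ?_
  rw [Polynomial.eval_sub, Polynomial.eval_C, Polynomial.eval_pow, Polynomial.eval_X]

theorem PF_polyP (t : ℂ) (r s : ℕ) (Q : ℂ) : ∃ g : Polynomial ℂ, g.natDegree ≤ 2 * (r * s) ∧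
    g.coeff (2 * (r * s)) = 1 ∧ ∀ P, g.eval P = PF t r s P Q := by
  have hm : ∀ i j : ℕ, (Polynomial.X ^ 2 - Polynomial.C
      ((Q - (((r : ℂ) - 1 - 2 * i) + ((s : ℂ) - 1 - 2 * j) * t)) ^ 2)).Monic :=
    fun i j => Polynomial.monic_X_pow_sub_C _ two_ne_zero
  have hd : ∀ i j : ℕ, (Polynomial.X ^ 2 - Polynomial.C
      ((Q - (((r : ℂ) - 1 - 2 * i) + ((s : ℂ) - 1 - 2 * j) * t)) ^ 2)).natDegree = 2 :=
    fun i j => Polynomial.natDegree_X_pow_sub_C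
  obtain ⟨g, hg⟩ : ∃ g, g = ∏ i ∈ Finset.range r, ∏ j ∈ Finset.range s,
    (Polynomial.X ^ 2 - Polynomial.C
      ((Q - (((r : ℂ) - 1 - 2 * i) + ((s : ℂ) - 1 - 2 * j) * t)) ^ 2)) := ⟨_, rfl⟩
  have hmi : ∀ i : ℕ, (∏ j ∈ Finset.range s, (Polynomial.X ^ 2 - Polynomial.C
      ((Q - (((r : ℂ) - 1 - 2 * i) + ((s : ℂ) - 1 - 2 * j) * t)) ^ 2))).Monic :=
    fun i => Polynomial.monic_prod_of_monic _ _ fun j _ => hm i j
  have hgm : g.Monic := by
    rw [hg]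
    exact Polynomial.monic_prod_of_monic _ _ fun i _ => hmi i
  have hgd : g.natDegree = 2 * (r * s) := by
    rw [hg, Polynomial.natDegree_prod_of_monic _ _ fun i _ => hmi i]
    have h1 : ∀ i ∈ Finset.range r, (∏ j ∈ Finset.range s, (Polynomial.X ^ 2 - Polynomial.C
        ((Q - (((r : ℂ) - 1 - 2 * i) + ((s : ℂ) - 1 - 2 * j) * t)) ^ 2))).natDegree = s * 2 := by
      intro i _
      rw [Polynomial.natDegree_prod_of_monic _ _ fun j _ => hm i j,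
        Finset.sum_congr rfl fun j _ => hd i j, Finset.sum_const, Finset.card_range, smul_eq_mul]
    rw [Finset.sum_congr rfl h1, Finset.sum_const, Finset.card_range, smul_eq_mul]
    ring
  refine ⟨g, hgd.le, ?_, fun P => ?_⟩
  · rw [← hgd]
    exact hgm.coeff_natDegree
  · rw [PF_eq, hg, Polynomial.eval_prod]
    refine Finset.prod_congr rfl fun i _ => ?_
    rw [Polynomial.eval_prod]
    refine Finset.prod_congr rfl fun j _ => ?_
    rw [Polynomial.eval_sub, Polynomial.eval_C, Polynomial.eval_pow, Polynomial.eval_X]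

end

end WPQ.SV
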