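import Pool.Agent.WPQ.FPD

/-! [WPQ-FP1] The fusion polynomial is a polynomial in `P` and in `Q`.

For a word `w` define `G w : Polynomial ℂ` by `G [] = 1`,
`G (a :: w) = (C (4 t (hx + w.sum - hv)) + C a * (X ^ 2 - C ((t - 1) ^ 2))) * G w`.  Then
`(G w).eval P = (4 t) ^ w.length * fw hx (hP t P) hv w` (`t ≠ 0`: `4 t · hP t P = P² - (t-1)²`), `natDegree ≤ 2 w.length`,
`coeff (2 w.length) = (w.map Nat.cast).prod` (`Polynomial.coeff_mul_add_eq_of_natDegree_le` or `coeff_mul_degree_add_degree`-like lemma).
For `π : Nat.Partition n`: `(pl π).length = π.parts.card ≤ n` (all parts `≥ 1`, sum `n`), and `= n` only for `π = ones n`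
(then all parts are `1`); `pl (ones n) = List.replicate n 1` has product `1`.
`g = ∑_π C (c π) * C ((4 t) ^ (n - (pl π).length)) * G (pl π)`.  (`KV.pl_coe`, `KV.pl_pos`, `KV.pl_sum` in `KV2.lean`.)
`fp1_polyQ`: the same with `hv = hP t X`, only the evaluation is needed. -/

namespace WPQ.SV

open KV

noncomputable section

/-- The polynomial of a word, in the variable `P`. -/
def fp1_G (t hx hv : ℂ) : List ℕ → Polynomial ℂ
  | [] => 1
  | a :: w => (Polynomial.C (4 * t * (hx + (w.sum : ℂ) - hv)) +
      Polynomial.C (a : ℂ) * (Polynomial.X ^ 2 - Polynomial.C ((t - 1) ^ 2))) * fp1_G t hx hv w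

/-- The polynomial of a word, in the variable `Q`. -/
def fp1_H (t hx hu : ℂ) : List ℕ → Polynomial ℂ
  | [] => 1
  | a :: w => (Polynomial.C (4 * t * (hx + (w.sum : ℂ) + a * hu)) -
      (Polynomial.X ^ 2 - Polynomial.C ((t - 1) ^ 2))) * fp1_H t hx hu w

theorem fp1_hP {t : ℂ} (ht : t ≠ 0) (P : ℂ) : 4 * t * hP t P = P ^ 2 - (t - 1) ^ 2 := by
  unfold hP
  field_simp

theorem fp1_G_eval {t : ℂ} (ht : t ≠ 0) (hx hv P : ℂ) (w : List ℕ) :
    (fp1_G t hx hv w).eval P = (4 * t) ^ w.length * fw hx (hP t P) hv w := by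
  induction w with
  | nil => simp [fp1_G, fw]
  | cons a w ih =>
    rw [fp1_G, fw, Polynomial.eval_mul, ih]
    simp only [Polynomial.eval_add, Polynomial.eval_mul, Polynomial.eval_C, Polynomial.eval_sub,
      Polynomial.eval_pow, Polynomial.eval_X, List.length_cons]
    rw [← fp1_hP ht P]
    ring

theorem fp1_H_eval {t : ℂ} (ht : t ≠ 0) (hx hu Q : ℂ) (w : List ℕ) :
    (fp1_H t hx hu w).eval Q = (4 * t) ^ w.length * fw hx hu (hP t Q) w := by
  induction w with
  | nil => simp [fp1_H, fw]
  | cons a w ih =>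
    rw [fp1_H, fw, Polynomial.eval_mul, ih]
    simp only [Polynomial.eval_C, Polynomial.eval_sub,
      Polynomial.eval_pow, Polynomial.eval_X, List.length_cons]
    rw [← fp1_hP ht Q]
    ring

theorem fp1_fac_deg (x a b : ℂ) :
    (Polynomial.C x + Polynomial.C a * (Polynomial.X ^ 2 - Polynomial.C b)).natDegree ≤ 2 := by
  compute_degree

theorem fp1_fac_coeff (x a b : ℂ) :
    (Polynomial.C x + Polynomial.C a * (Polynomial.X ^ 2 - Polynomial.C b)).coeff 2 = a := by
  simp

theorem fp1_G_deg (t hx hv : ℂ) (w : List ℕ) :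
    (fp1_G t hx hv w).natDegree ≤ 2 * w.length := by
  induction w with
  | nil => simp [fp1_G]
  | cons a w ih =>
    rw [fp1_G, List.length_cons]
    refine Polynomial.natDegree_mul_le.trans ?_
    have h := fp1_fac_deg (4 * t * (hx + (w.sum : ℂ) - hv)) (a : ℂ) ((t - 1) ^ 2)
    omega

theorem fp1_G_coeff (t hx hv : ℂ) (w : List ℕ) :
    (fp1_G t hx hv w).coeff (2 * w.length) = (w.map (fun a : ℕ => (a : ℂ))).prod := by
  induction w with
  | nil => simp [fp1_G]
  | cons a w ih =>
    rw [fp1_G, List.length_cons, List.map_cons, List.prod_cons]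
    have e : 2 * (w.length + 1) = 2 + 2 * w.length := by ring
    rw [e, Polynomial.coeff_mul_add_eq_of_natDegree_le (fp1_fac_deg _ _ _) (fp1_G_deg t hx hv w),
      fp1_fac_coeff, ih]

theorem fp1_len {n : ℕ} (π : Nat.Partition n) : (pl π).length ≤ n := by
  have h1 : ∀ w : List ℕ, (∀ a ∈ w, 0 < a) → w.length ≤ w.sum := by
    intro w
    induction w with
    | nil => intro _; simp
    | cons a w ih =>
      intro h
      have h2 := ih (fun b hb => h b (List.mem_cons_of_mem _ hb))
      have h3 := h a List.mem_cons_self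
      rw [List.length_cons, List.sum_cons]
      omega
  have h4 := h1 (pl π) (fun a ha => KV.pl_pos π a ha)
  rwa [KV.pl_sum] at h4

theorem fp1_len_eq {n : ℕ} (π : Nat.Partition n) (h : (pl π).length = n) : π = ones n := by
  have h1 : ∀ w : List ℕ, (∀ a ∈ w, 0 < a) → w.length = w.sum → ∀ a ∈ w, a = 1 := by
    intro w
    induction w with
    | nil => intro _ _ a ha; simp at ha
    | cons a w ih =>
      intro h h0 b hb
      have h3 := h a List.mem_cons_self
      have hle : w.length ≤ w.sum := by
        have h5 : ∀ w : List ℕ, (∀ a ∈ w, 0 < a) → w.length ≤ w.sum := by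
          intro w
          induction w with
          | nil => intro _; simp
          | cons a w ih =>
            intro h
            have h2 := ih (fun b hb => h b (List.mem_cons_of_mem _ hb))
            have h3 := h a List.mem_cons_self
            rw [List.length_cons, List.sum_cons]
            omega
        exact h5 w (fun b hb => h b (List.mem_cons_of_mem _ hb))
      rw [List.length_cons, List.sum_cons] at h0
      have h6 : w.length = w.sum := by omega
      have h7 : a = 1 := by omega
      rcases List.mem_cons.mp hb with hb | hb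
      · rw [hb, h7]
      · exact ih (fun b hb => h b (List.mem_cons_of_mem _ hb)) h6 b hb
  have h2 : ∀ a ∈ pl π, a = 1 := by
    refine h1 (pl π) (fun a ha => KV.pl_pos π a ha) ?_
    rw [h, KV.pl_sum]
  have h3 : pl π = List.replicate n 1 := by
    rw [List.eq_replicate_iff]
    exact ⟨h, h2⟩
  apply Nat.Partition.ext
  have h4 := KV.pl_coe π
  rw [← h4, h3]
  rfl

theorem fp1_pl_ones (n : ℕ) : pl (ones n) = List.replicate n 1 := by
  have h4 := KV.pl_coe (ones n)
  have h5 : ∀ a ∈ pl (ones n), a = 1 := by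
    intro a ha
    have h6 : a ∈ ((pl (ones n) : List ℕ) : Multiset ℕ) := ha
    rw [h4] at h6
    exact Multiset.eq_of_mem_replicate h6
  have h7 : (pl (ones n)).length = n := by
    have h8 : Multiset.card ((pl (ones n) : List ℕ) : Multiset ℕ) = n := by
      rw [h4]
      exact Multiset.card_replicate n 1
    exact h8
  rw [List.eq_replicate_iff]
  exact ⟨h7, h5⟩

theorem fp1_poly {t : ℂ} (ht : t ≠ 0) {n : ℕ} (c : Nat.Partition n → ℂ) (hx hv : ℂ) :
    ∃ g : Polynomial ℂ, g.natDegree ≤ 2 * n ∧ g.coeff (2 * n) = c (ones n) ∧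
      ∀ P, g.eval P = (4 * t) ^ n * ff c hx (hP t P) hv := by
  refine ⟨∑ π, Polynomial.C (c π) * (Polynomial.C ((4 * t) ^ (n - (pl π).length)) *
    fp1_G t hx hv (pl π)), ?_, ?_, ?_⟩
  · refine Polynomial.natDegree_sum_le_of_forall_le _ _ ?_
    intro π _
    refine (Polynomial.natDegree_C_mul_le _ _).trans ((Polynomial.natDegree_C_mul_le _ _).trans ?_)
    have h1 := fp1_G_deg t hx hv (pl π)
    have h2 := fp1_len π
    omega
  · rw [Polynomial.finsetSum_coeff]
    rw [Finset.sum_eq_single (ones n)]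
    · rw [Polynomial.coeff_C_mul, Polynomial.coeff_C_mul]
      have h1 := fp1_G_coeff t hx hv (pl (ones n))
      rw [fp1_pl_ones, List.length_replicate] at h1
      rw [fp1_pl_ones, List.length_replicate, h1]
      simp
    · intro π _ hπ
      rw [Polynomial.coeff_C_mul, Polynomial.coeff_C_mul]
      have h2 := fp1_len π
      have h3 : (pl π).length ≠ n := fun h => hπ (fp1_len_eq π h)
      have h4 : (fp1_G t hx hv (pl π)).coeff (2 * n) = 0 := by
        apply Polynomial.coeff_eq_zero_of_natDegree_lt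
        have h1 := fp1_G_deg t hx hv (pl π)
        omega
      rw [h4]
      ring
    · intro h
      exact absurd (Finset.mem_univ _) h
  · intro P
    rw [Polynomial.eval_finsetSum, ff, Finset.mul_sum]
    refine Finset.sum_congr rfl ?_
    intro π _
    rw [Polynomial.eval_mul, Polynomial.eval_mul, Polynomial.eval_C, Polynomial.eval_C,
      fp1_G_eval ht]
    have h2 := fp1_len π
    have h3 : (4 * t) ^ n = (4 * t) ^ (n - (pl π).length) * (4 * t) ^ (pl π).length := by
      rw [← pow_add]
      congr 1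
      omega
    rw [h3]
    ring

theorem fp1_polyQ {t : ℂ} (ht : t ≠ 0) {n : ℕ} (c : Nat.Partition n → ℂ) (hx hu : ℂ) :
    ∃ g : Polynomial ℂ, ∀ Q, g.eval Q = (4 * t) ^ n * ff c hx hu (hP t Q) := by
  refine ⟨∑ π, Polynomial.C (c π) * (Polynomial.C ((4 * t) ^ (n - (pl π).length)) *
    fp1_H t hx hu (pl π)), ?_⟩
  intro Q
  rw [Polynomial.eval_finsetSum, ff, Finset.mul_sum]
  refine Finset.sum_congr rfl ?_
  intro π _
  rw [Polynomial.eval_mul, Polynomial.eval_mul, Polynomial.eval_C, Polynomial.eval_C,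
    fp1_H_eval ht]
  have h2 := fp1_len π
  have h3 : (4 * t) ^ n = (4 * t) ^ (n - (pl π).length) * (4 * t) ^ (pl π).length := by
    rw [← pow_add]
    congr 1
    omega
  rw [h3]
  ring

end

end WPQ.SV
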