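import Pool.Agent.WPQ.FPD

/-! [WPQ-FP2] The zeros of the fusion polynomial that come from the Fock space.

Let `κ = krs t r s = (r-1) - t (s-1)`, `κ' = P + (t - 1)`, `ξ = -κ' / (2t)`, and let `e : Ph ℂ →ₐ[ℂ] ℂ` be
`MvPolynomial.aeval fun n => ξ / (n + 1)`.  With `Ln t κ k f = D_k f + qk t κ k * f`
(`D_k (X n) = (n+1+k) X (n+k)`):
* `e (D_k f) = d * e f` for `f` weighted homogeneous of degree `d` (`wt n = n + 1`): both sides are `ℂ`-linear, check on monomials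
  (`Derivation` on a monomial, `e (D_k (X n)) = ξ = (n+1) e (X n)`); or prove `e (D_k f) = e (E f)` with the Euler derivation
  `E = mkDerivation (fun n => C (n+1) * X n)` and use the existing Euler formula for homogeneous polynomials (`KV1.lean`, `KV16b.lean`).
* `e (qk t κ k) = ξ κ + (k - 1) (t ξ² + (t - 1) ξ)` for `k ≥ 1`.
* `hP t P = t ξ² + (t - 1) ξ`, `hrs t r s + hP t P - hP t (P + κ) = ξ κ` (`hrs t r s = κ (κ - 2 (t-1)) / (4t)`,
  `hP t P = κ' (κ' - 2 (t-1)) / (4t)`, `hP t (P + κ) = (κ+κ') (κ+κ' - 2 (t-1)) / (4t)`).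
So by induction on the word (`KV.wR_one_homog`: `wR t κ w 1` is homogeneous of degree `w.sum`):
`e (wR t κ w 1) = fw (hrs t r s) (hP t P) (hP t (P + κ)) w` for `Pw w`; apply `e` to `hc.rel` (`map_sum`, `map_smul`). -/

namespace WPQ.SV

open KV

noncomputable section

open MvPolynomial

/-- The evaluation `X n ↦ ξ / (n + 1)`. -/
def fp2_e (ξ : ℂ) : Ph ℂ →ₐ[ℂ] ℂ := aeval fun n : ℕ => ξ / ((n : ℂ) + 1)

theorem fp2_e_X (ξ : ℂ) (n : ℕ) : fp2_e ξ (X n) = ξ / ((n : ℂ) + 1) := by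
  unfold fp2_e
  rw [aeval_X]

theorem fp2_e_C (ξ a : ℂ) : fp2_e ξ (C a) = a := by
  unfold fp2_e
  rw [aeval_C]
  rfl

theorem fp2_ED (ξ : ℂ) (k : ℕ) (f : Ph ℂ) :
    fp2_e ξ (mkDerivation ℂ (fun n : ℕ => C ((n : ℂ) + 1 + k) * (X (n + k) : Ph ℂ)) f) =
      fp2_e ξ (mkDerivation ℂ (fun n : ℕ => C ((n : ℂ) + 1) * (X n : Ph ℂ)) f) := by
  induction f using MvPolynomial.induction_on with
  | C a => simp
  | add p q hp hq => rw [Derivation.map_add, Derivation.map_add, map_add, map_add, hp, hq]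
  | mul_X p n hp =>
    rw [Derivation.leibniz, Derivation.leibniz, mkDerivation_X, mkDerivation_X]
    simp only [smul_eq_mul]
    rw [map_add (fp2_e ξ), map_add (fp2_e ξ), map_mul (fp2_e ξ) p, map_mul (fp2_e ξ) p,
      map_mul (fp2_e ξ) (X n), map_mul (fp2_e ξ) (X n), map_mul (fp2_e ξ) (C ((n : ℂ) + 1 + k)),
      map_mul (fp2_e ξ) (C ((n : ℂ) + 1)), hp, fp2_e_C, fp2_e_C, fp2_e_X, fp2_e_X]
    have h1 : ((n : ℂ) + 1) ≠ 0 := by exact_mod_cast Nat.succ_ne_zero n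
    have h2 : (((n + k : ℕ) : ℂ) + 1) ≠ 0 := by exact_mod_cast Nat.succ_ne_zero (n + k)
    have h3 : ((n : ℂ) + 1 + k) * (ξ / (((n + k : ℕ) : ℂ) + 1)) = ξ := by
      push_cast at h2 ⊢
      rw [mul_div_assoc', div_eq_iff h2]
      ring
    have h4 : ((n : ℂ) + 1) * (ξ / ((n : ℂ) + 1)) = ξ := by
      rw [mul_div_assoc', div_eq_iff h1]
      ring
    rw [h3, h4]

theorem fp2_Euler (f : Ph ℂ) (d : ℕ) (hf : IsWeightedHomogeneous wt f d) :
    mkDerivation ℂ (fun n : ℕ => C ((n : ℂ) + 1) * (X n : Ph ℂ)) f = (d : ℂ) • f := by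
  have h1 := Lk_zero_homog 1 0 f d hf
  rw [kv15_Lk_zero, add_smul, add_comm] at h1
  exact add_left_cancel h1

theorem fp2_e_D (ξ : ℂ) (k : ℕ) (f : Ph ℂ) (d : ℕ) (hf : IsWeightedHomogeneous wt f d) :
    fp2_e ξ (mkDerivation ℂ (fun n : ℕ => C ((n : ℂ) + 1 + k) * (X (n + k) : Ph ℂ)) f) =
      d * fp2_e ξ f := by
  rw [fp2_ED, fp2_Euler f d hf, map_smul, smul_eq_mul]

theorem fp2_e_q (t κ ξ : ℂ) (k : ℕ) (hk : 0 < k) : fp2_e ξ (qk t κ k) =
    ξ * κ + ((k : ℂ) - 1) * (t * ξ ^ 2 + (t - 1) * ξ) := by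
  obtain ⟨j, rfl⟩ : ∃ j, k = j + 1 := ⟨k - 1, by omega⟩
  unfold qk
  have h0 : ((j : ℂ) + 1) ≠ 0 := by exact_mod_cast Nat.succ_ne_zero j
  have hs : ∑ n ∈ Finset.range (j + 1 - 1),
      fp2_e ξ (C (((n : ℂ) + 1) * (((j + 1 : ℕ) : ℂ) - 1 - n)) * (X n * X (j + 1 - 2 - n))) =
      (j : ℂ) * ξ ^ 2 := by
    rw [Finset.sum_congr rfl (g := fun _ => ξ ^ 2)]
    · simp
    · intro n hn
      have hn' : n < j := by simpa using hn
      have h1 : ((n : ℂ) + 1) ≠ 0 := by exact_mod_cast Nat.succ_ne_zero n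
      obtain ⟨m, rfl⟩ : ∃ m, j = n + 1 + m := ⟨j - (n + 1), by omega⟩
      have h2 : n + 1 + m + 1 - 2 - n = m := by omega
      have h3 : ((m : ℂ) + 1) ≠ 0 := by exact_mod_cast Nat.succ_ne_zero m
      rw [h2, map_mul (fp2_e ξ), map_mul (fp2_e ξ), fp2_e_C, fp2_e_X, fp2_e_X]
      push_cast
      field_simp
      ring
  rw [map_add (fp2_e ξ), map_mul (fp2_e ξ), map_mul (fp2_e ξ), map_sum (fp2_e ξ), hs, fp2_e_C,
    fp2_e_C, fp2_e_X, Nat.add_sub_cancel]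
  push_cast
  field_simp
  ring

theorem fp2_word {t : ℂ} (ht : t ≠ 0) (r s : ℕ) (P : ℂ) (w : List ℕ) (hw : Pw w) :
    fp2_e (-(P + (t - 1)) / (2 * t)) (wR t (krs t r s) w 1) =
      fw (hrs t r s) (hP t P) (hP t (P + (((r : ℂ) - 1) - t * ((s : ℂ) - 1)))) w := by
  induction w with
  | nil =>
    change fp2_e _ (1 : Ph ℂ) = 1
    rw [map_one]
  | cons a w ih =>
    have hw' : Pw w := fun b hb => hw b (List.mem_cons_of_mem _ hb)
    have ha : 0 < a := hw a List.mem_cons_self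
    have h1 := ih hw'
    have h2 := wR_one_homog t (krs t r s) w hw'
    have h3 : wR t (krs t r s) (a :: w) 1 =
        mkDerivation ℂ (fun n : ℕ => C ((n : ℂ) + 1 + a) * (X (n + a) : Ph ℂ))
          (wR t (krs t r s) w 1) + qk t (krs t r s) a * wR t (krs t r s) w 1 := rfl
    rw [h3, map_add, map_mul, fp2_e_D _ a _ _ h2, fp2_e_q _ _ _ _ ha, h1, ← add_mul]
    change _ = (hrs t r s + (w.sum : ℂ) + a * hP t P -
      hP t (P + (((r : ℂ) - 1) - t * ((s : ℂ) - 1)))) * _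
    congr 1
    unfold hP hrs krs
    field_simp
    ring

theorem fp2_Z0 {t : ℂ} (ht : t ≠ 0) {r s n : ℕ} {c : Nat.Partition n → ℂ} (hc : IsS t r s n c)
    (P : ℂ) :
    ff c (hrs t r s) (hP t P) (hP t (P + (((r : ℂ) - 1) - t * ((s : ℂ) - 1)))) = 0 := by
  have h1 := congrArg (fp2_e (-(P + (t - 1)) / (2 * t))) hc.rel
  rw [map_zero, map_sum] at h1
  unfold ff
  rw [← h1]
  refine Finset.sum_congr rfl fun π _ => ?_
  rw [map_smul, smul_eq_mul, fp2_word ht r s P (pl π) (pl_pos π)]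

end

end WPQ.SV
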