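import Pool.Agent.WPQ.FP0b

/-! [WPQ-FP3] Propagation of zeros.

Write `a_i = r - 1 - 2 i`.
(1) `g.eval (Q - a_i - (s - 1 - 2 j) t) = 0` for `i < r`, `j < s`, induction on `j`.
`j = 0`: `P = Q - s t - a_i`: the factor `i` of `AA` is `Q² - Q² = 0`, so `g.eval (P + t) * BB t r s Q P = 0`; the factor `i'` of `BB` is
`(Q - 2 s t - a_i - a_i')² - Q² = (-2 s t - a_i - a_i')(2 Q - 2 s t - a_i - a_i') ≠ 0` (`Irr t`, `s ≥ 1`; `Gen t Q`).
Step: `P = Q - a_i - (s - 2 - 2 j) t`, `P - t` is the zero number `j`, `P + t` the zero number `j + 1`; the factor `i'` of `BB` is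
`(-a_i - a_i' - (2 s - 2 - 2 j) t)(2 Q - a_i - a_i' - (2 s - 2 - 2 j) t) ≠ 0` if `j + 1 < s`.
(2) By evenness the `2 r s` numbers `± z_ij`, `z_ij = Q - a_i - (s-1-2j) t`, are zeros of `g`, they are pairwise different
(`z_ij = z_i'j'` gives `a_i = a_i'`, `j = j'` by `Irr`; `z_ij = - z_i'j'` contradicts `Gen`).
(3) `g0 = ∏ (X² - C (z_ij²))` (`PF_polyP`, `PF_eq`): `g - g0` has degree `< 2 r s` (`g.coeff (2rs) = 1 = g0.coeff (2rs)`) and
`2 r s` zeros, so it is `0` (`Polynomial.eq_zero_of_natDegree_lt_card_of_eval_eq_zero'` or `card_roots'`). -/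

namespace WPQ.SV

open KV

noncomputable section

/-- the zeros of the product -/
def fp3_z (t Q : ℂ) (r s i j : ℕ) : ℂ :=
  Q - (((r : ℂ) - 1 - 2 * i) + ((s : ℂ) - 1 - 2 * j) * t)

theorem fp3_inj {t Q : ℂ} (ht : Irr t) (r s i j i' j' : ℕ)
    (h : fp3_z t Q r s i j = fp3_z t Q r s i' j') : i = i' ∧ j = j' := by
  unfold fp3_z at h
  have h1 := ht (2 * ((i' : ℤ) - i)) (2 * ((j : ℤ) - j')) (by
    push_cast
    linear_combination (-1 : ℂ) * h)
  omega

theorem fp3_ne {t Q : ℂ} (hQ : Gen t Q) (r s i j i' j' : ℕ) :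
    fp3_z t Q r s i j ≠ - fp3_z t Q r s i' j' := by
  intro h
  unfold fp3_z at h
  refine hQ (2 * ((r : ℤ) - 1 - i - i')) (2 * ((s : ℤ) - 1 - j - j')) ?_
  push_cast
  linear_combination h

theorem fp3_BB {t Q : ℂ} (ht : Irr t) (hQ : Gen t Q) (r s i : ℕ) (b : ℤ) (hb : b ≠ 0) :
    BB t r s Q (Q - ((r : ℂ) - 1 - 2 * i) - ((b : ℂ) - (s : ℂ)) * t) ≠ 0 := by
  unfold BB
  rw [Finset.prod_ne_zero_iff]
  intro i' _ h0
  have h1 : (-((b : ℂ) * t) - 2 * ((r : ℂ) - 1 - i - i')) *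
      (2 * Q - (2 * ((r : ℂ) - 1 - i - i') + (b : ℂ) * t)) = 0 := by
    linear_combination h0
  rcases mul_eq_zero.1 h1 with h2 | h2
  · have h3 := ht (-(2 * ((r : ℤ) - 1 - i - i'))) b (by
      push_cast
      linear_combination h2)
    exact hb h3.2
  · refine hQ (2 * ((r : ℤ) - 1 - i - i')) b ?_
    push_cast
    linear_combination h2

theorem fp3 {t Q : ℂ} (ht : Irr t) (hQ : Gen t Q) {r s : ℕ} (hr : 1 ≤ r) (hs : 1 ≤ s)
    (g : Polynomial ℂ) (hdeg : g.natDegree ≤ 2 * (r * s)) (hlead : g.coeff (2 * (r * s)) = 1)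
    (heven : ∀ P, g.eval (-P) = g.eval P)
    (hFE : ∀ P, g.eval (P - t) * AA t r s Q P = g.eval (P + t) * BB t r s Q P) (P : ℂ) :
    g.eval P = PF t r s P Q := by
  -- the zeros of `g`
  have hz : ∀ i : ℕ, i < r → ∀ j : ℕ, j < s → g.eval (fp3_z t Q r s i j) = 0 := by
    intro i hi j
    induction j with
    | zero =>
      intro hj
      have hA : AA t r s Q (Q - ((r : ℂ) - 1 - 2 * i) - ((2 * s : ℤ) - (s : ℂ)) * t) = 0 := by
        unfold AA
        refine Finset.prod_eq_zero (Finset.mem_range.2 hi) ?_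
        push_cast
        ring
      have h1 := hFE (Q - ((r : ℂ) - 1 - 2 * i) - ((2 * s : ℤ) - (s : ℂ)) * t)
      rw [hA, mul_zero] at h1
      have h2 := (mul_eq_zero.1 h1.symm).resolve_right
        (fp3_BB ht hQ r s i (2 * s : ℤ) (by omega))
      rw [← h2]
      congr 1
      unfold fp3_z
      push_cast
      ring
    | succ j ih =>
      intro hj
      have h0 := ih (by omega)
      have h1 := hFE (Q - ((r : ℂ) - 1 - 2 * i) - (((2 * s - 2 - 2 * j : ℤ) : ℂ) - (s : ℂ)) * t)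
      have e1 : Q - ((r : ℂ) - 1 - 2 * i) - (((2 * s - 2 - 2 * j : ℤ) : ℂ) - (s : ℂ)) * t - t =
          fp3_z t Q r s i j := by
        unfold fp3_z
        push_cast
        ring
      rw [e1, h0, zero_mul] at h1
      have h2 := (mul_eq_zero.1 h1.symm).resolve_right
        (fp3_BB ht hQ r s i (2 * s - 2 - 2 * j : ℤ) (by omega))
      rw [← h2]
      congr 1
      unfold fp3_z
      push_cast
      ring
  obtain ⟨g0, hd0, hl0, he0⟩ := PF_polyP t r s Q
  have hz0 : ∀ i : ℕ, i < r → ∀ j : ℕ, j < s → ∀ x : ℂ, x ^ 2 = (fp3_z t Q r s i j) ^ 2 →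
      g0.eval x = 0 := by
    intro i hi j hj x hx
    rw [he0, PF_eq]
    refine Finset.prod_eq_zero (Finset.mem_range.2 hi)
      (Finset.prod_eq_zero (Finset.mem_range.2 hj) ?_)
    rw [hx]
    unfold fp3_z
    ring
  have hpos : 0 < 2 * (r * s) := by positivity
  have hlt : (g - g0).natDegree < 2 * (r * s) := by
    refine lt_of_le_of_ne ((Polynomial.natDegree_sub_le _ _).trans (max_le hdeg hd0)) fun h0 => ?_
    have h1 : (g - g0).coeff (2 * (r * s)) = 0 := by
      rw [Polynomial.coeff_sub, hlead, hl0, sub_self]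
    rw [← h0, Polynomial.coeff_natDegree, Polynomial.leadingCoeff_eq_zero] at h1
    rw [h1, Polynomial.natDegree_zero] at h0
    omega
  have hzero : g - g0 = 0 := by
    refine Polynomial.eq_zero_of_natDegree_lt_card_of_eval_eq_zero (ι := Bool × Fin r × Fin s)
      (f := fun x => if x.1 = true then fp3_z t Q r s x.2.1 x.2.2 else
        - fp3_z t Q r s x.2.1 x.2.2) (g - g0) ?_ ?_ ?_
    · rintro ⟨b, i, j⟩ ⟨b', i', j'⟩ hxy
      have key : ∀ (i i' : Fin r) (j j' : Fin s), fp3_z t Q r s i j = fp3_z t Q r s i' j' →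
          i = i' ∧ j = j' := fun i i' j j' h => by
        obtain ⟨h1, h2⟩ := fp3_inj ht r s i j i' j' h
        exact ⟨Fin.ext h1, Fin.ext h2⟩
      cases b <;> cases b' <;> simp only [if_true, if_false, Bool.false_eq_true] at hxy
      · obtain ⟨h1, h2⟩ := key _ _ _ _ (neg_injective hxy)
        rw [h1, h2]
      · exact absurd hxy.symm (fp3_ne hQ r s _ _ _ _)
      · exact absurd hxy (fp3_ne hQ r s _ _ _ _)
      · obtain ⟨h1, h2⟩ := key _ _ _ _ hxy
        rw [h1, h2]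
    · rintro ⟨b, i, j⟩
      cases b <;> simp only [if_true, if_false, Bool.false_eq_true]
      · rw [Polynomial.eval_sub, heven, hz i i.2 j j.2, hz0 i i.2 j j.2 _ (by ring), sub_self]
      · rw [Polynomial.eval_sub, hz i i.2 j j.2, hz0 i i.2 j j.2 _ rfl, sub_self]
    · rw [Fintype.card_prod, Fintype.card_prod, Fintype.card_bool, Fintype.card_fin, Fintype.card_fin]
      exact hlt
  rw [← he0, sub_eq_zero.1 hzero]

end

end WPQ.SV
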