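import Pool.Agent.WPQ.FP0b

/-! [WPQ-FP4] Cancellation of the common factors.

Put `f x = (s t + x)² - Q²`.  Then (`∏_{j<1}` is trivial) `PF t r' 1 (r + s t) Q = ∏_{i<r'} f (r + r' - 1 - 2 i)` and
`AA t r s Q r' = ∏_{i<r} f (r + r' - 1 - 2 i)` is the product of the first `r` factors; `PF t r' 1 (r - s t) Q = ∏_{i<r'} f (-(r + r' - 1 - 2 i))`
and (reflection `i ↦ r - 1 - i`) `BB t r s Q r' = ∏_{i<r} f (-(r + r' - 1 - 2 i))`.  The remaining factors `r ≤ i < r'`, `i = r + k`,
`k < r' - r`: `f (r' - r - 1 - 2 k)` and `f (-(r' - r - 1 - 2 k))` have the same product `R` (reflection), and `R ≠ 0`: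
`f x = (s t + x - Q)(s t + x + Q)` for an integer `x`, `Gen t Q`.  Cancel `R`.  (`Finset.prod_range_add` or `Finset.prod_range_mul_prod_Ico`.) -/

namespace WPQ.SV

open KV

noncomputable section

theorem fp4 {t Q : ℂ} (hQ : Gen t Q) {r s r' : ℕ} (hrr : r ≤ r') (u v : ℂ)
    (h : u * PF t r' 1 ((r : ℂ) + s * t) Q = v * PF t r' 1 ((r : ℂ) - s * t) Q) :
    u * AA t r s Q (r' : ℂ) = v * BB t r s Q (r' : ℂ) := by
  obtain ⟨d, rfl⟩ := Nat.exists_eq_add_of_le hrr
  set R : ℂ := ∏ k ∈ Finset.range d, (((s : ℂ) * t + ((d : ℂ) - 1 - 2 * k)) ^ 2 - Q ^ 2) with hR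
  have hA : PF t (r + d) 1 ((r : ℂ) + s * t) Q = AA t r s Q ((r + d : ℕ) : ℂ) * R := by
    unfold PF AA
    rw [Finset.prod_range_add, hR]
    congr 1
    · refine Finset.prod_congr rfl fun i _ => ?_
      rw [Finset.prod_range_one]
      push_cast
      ring
    · refine Finset.prod_congr rfl fun i _ => ?_
      rw [Finset.prod_range_one]
      push_cast
      ring
  have hB : PF t (r + d) 1 ((r : ℂ) - s * t) Q = BB t r s Q ((r + d : ℕ) : ℂ) * R := by
    unfold PF BB
    rw [Finset.prod_range_add, hR]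
    congr 1
    · rw [← Finset.prod_range_reflect (fun i : ℕ => ((((r + d : ℕ) : ℂ) - s * t -
        ((r : ℂ) - 1 - 2 * i)) ^ 2 - Q ^ 2)) r]
      refine Finset.prod_congr rfl fun i hi => ?_
      rw [Finset.prod_range_one]
      have hi' : i < r := Finset.mem_range.1 hi
      have h1 : ((r - 1 - i : ℕ) : ℂ) = (r : ℂ) - 1 - i := by
        rw [Nat.sub_sub, Nat.cast_sub (by omega)]
        push_cast
        ring
      rw [h1]
      push_cast
      ring
    · rw [← Finset.prod_range_reflect (fun k : ℕ => (((s : ℂ) * t +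
        ((d : ℂ) - 1 - 2 * k)) ^ 2 - Q ^ 2)) d]
      refine Finset.prod_congr rfl fun i hi => ?_
      rw [Finset.prod_range_one]
      have hi' : i < d := Finset.mem_range.1 hi
      have h1 : ((d - 1 - i : ℕ) : ℂ) = (d : ℂ) - 1 - i := by
        rw [Nat.sub_sub, Nat.cast_sub (by omega)]
        push_cast
        ring
      rw [h1]
      push_cast
      ring
  have hR0 : R ≠ 0 := by
    rw [hR, Finset.prod_ne_zero_iff]
    intro k _ hk
    have h1 : ((s : ℂ) * t + ((d : ℂ) - 1 - 2 * k) - Q) *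
        ((s : ℂ) * t + ((d : ℂ) - 1 - 2 * k) + Q) = 0 := by
      rw [← hk]
      ring
    rcases mul_eq_zero.1 h1 with h2 | h2
    · apply hQ (2 * ((d : ℤ) - 1 - 2 * k)) (2 * s)
      push_cast
      linear_combination (-2 : ℂ) * h2
    · apply hQ (-(2 * ((d : ℤ) - 1 - 2 * k))) (-(2 * s))
      push_cast
      linear_combination (2 : ℂ) * h2
  rw [hA, hB] at h
  apply mul_right_cancel₀ hR0
  linear_combination h

end

end WPQ.SV
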