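import Pool.Agent.WPQ.FP3

/-! [WPQ-FP5] The bootstrap step (polynomial part).

`s = n + 1`.  Let `g0` be the polynomial of `PF_polyP t 1 s Q`, `d = g - g0`: `natDegree d ≤ 2 s - 1` (or `d = 0`), `d` is even,
`d` vanishes at `± Q ± n t` (for `g0`: `PF_eq`, the factor `j = 0` or `j = n` : `PF t 1 s P Q` contains `P² - (Q - n t)²` and `P² - (Q + n t)²`).
`D = d(X - t) ((X + s t)² - Q²) - d(X + t) ((X - s t)² - Q²)` (`Polynomial.comp`), `natDegree D ≤ 2 s + 1`.  `AA t 1 s Q P = (P + s t)² - Q²`,
`BB t 1 s Q P = (P - s t)² - Q²`.  `D` is odd (`d` even), so `D(0) = 0`; `D(r') = 0` for `1 ≤ r' ≤ n` (`hFE` for `g`, `PF_FE` for `g0`), `D(-r') = 0`;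
`D(-s t + Q) = -d(Q - n t) (..) = 0`, `D(-s t - Q) = 0`, `D(s t ± Q) = d(n t ± Q) (..) = 0`.  These are `2 n + 1 + 4 = 2 s + 3` different
numbers (`Gen t Q`, `t ≠ 0`), so `D = 0` (`Polynomial.eq_zero_of_natDegree_lt_card_of_eval_eq_zero'`).  So `g` satisfies the hypothesis
of `fp3` with `r = 1` (add `PF_FE`). -/

namespace WPQ.SV

open KV

noncomputable section

theorem fp5 {t Q : ℂ} (ht : Irr t) (hQ : Gen t Q) {n : ℕ} (hn : 1 ≤ n)
    (g : Polynomial ℂ) (hdeg : g.natDegree ≤ 2 * (n + 1)) (hlead : g.coeff (2 * (n + 1)) = 1)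
    (heven : ∀ P, g.eval (-P) = g.eval P)
    (hFE : ∀ r' : ℕ, 1 ≤ r' → r' ≤ n → g.eval ((r' : ℂ) - t) * AA t 1 (n + 1) Q r' =
      g.eval ((r' : ℂ) + t) * BB t 1 (n + 1) Q r')
    (hZ1 : g.eval (Q + n * t) = 0) (hZ2 : g.eval (-Q + n * t) = 0) (P : ℂ) :
    g.eval P = PF t 1 (n + 1) P Q := by
  classical
  obtain ⟨g0, h0deg, h0lead, h0ev⟩ := PF_polyP t 1 (n + 1) Q
  have ht0 : t ≠ 0 := Irr_ne ht
  -- the two factors
  have hAA : ∀ P, AA t 1 (n + 1) Q P = (P + ((n : ℂ) + 1) * t) ^ 2 - Q ^ 2 := by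
    intro P
    unfold AA
    rw [Finset.prod_range_one]
    push_cast
    ring
  have hBB : ∀ P, BB t 1 (n + 1) Q P = (P - ((n : ℂ) + 1) * t) ^ 2 - Q ^ 2 := by
    intro P
    unfold BB
    rw [Finset.prod_range_one]
    push_cast
    ring
  set d : Polynomial ℂ := g - g0 with hd
  have hdev : ∀ P, d.eval P = g.eval P - PF t 1 (n + 1) P Q := by
    intro P
    rw [hd, Polynomial.eval_sub, h0ev]
  have hdeven : ∀ P, d.eval (-P) = d.eval P := by
    intro P
    rw [hdev, hdev, heven, PF_even]
  have hddeg : d.natDegree ≤ 2 * n + 1 := by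
    rw [Polynomial.natDegree_le_iff_coeff_eq_zero]
    intro N hN
    rw [hd, Polynomial.coeff_sub]
    rcases Nat.eq_or_lt_of_le (show 2 * (n + 1) ≤ N by omega) with h | h
    · rw [← h, hlead]
      have h1 : 2 * (1 * (n + 1)) = 2 * (n + 1) := by ring
      rw [h1] at h0lead
      rw [h0lead, sub_self]
    · have h1 : g.coeff N = 0 := Polynomial.coeff_eq_zero_of_natDegree_lt (by omega)
      have h2 : g0.coeff N = 0 := Polynomial.coeff_eq_zero_of_natDegree_lt (by omega)
      rw [h1, h2, sub_self]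
  -- the product vanishes at two points
  have hP1 : PF t 1 (n + 1) (Q + n * t) Q = 0 := by
    rw [PF_eq, Finset.prod_range_one]
    refine Finset.prod_eq_zero (Finset.mem_range.2 (Nat.lt_succ_self n)) ?_
    push_cast
    ring
  have hP2 : PF t 1 (n + 1) (-Q + n * t) Q = 0 := by
    rw [PF_eq, Finset.prod_range_one]
    refine Finset.prod_eq_zero (Finset.mem_range.2 (Nat.succ_pos n)) ?_
    push_cast
    ring
  have hd1 : d.eval (Q + n * t) = 0 := by rw [hdev, hZ1, hP1, sub_self]
  have hd2 : d.eval (-Q + n * t) = 0 := by rw [hdev, hZ2, hP2, sub_self]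
  have hd3 : d.eval (-Q - n * t) = 0 := by
    rw [← hd1, ← hdeven (Q + n * t)]
    congr 1
    ring
  have hd4 : d.eval (Q - n * t) = 0 := by
    rw [← hd2, ← hdeven (-Q + n * t)]
    congr 1
    ring
  -- the auxiliary polynomial
  set D : Polynomial ℂ := d.comp (Polynomial.X - Polynomial.C t) *
      ((Polynomial.X + Polynomial.C (((n : ℂ) + 1) * t)) ^ 2 - Polynomial.C (Q ^ 2)) -
    d.comp (Polynomial.X + Polynomial.C t) *
      ((Polynomial.X - Polynomial.C (((n : ℂ) + 1) * t)) ^ 2 - Polynomial.C (Q ^ 2)) with hD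
  have hDe : ∀ P, D.eval P = d.eval (P - t) * ((P + ((n : ℂ) + 1) * t) ^ 2 - Q ^ 2) -
      d.eval (P + t) * ((P - ((n : ℂ) + 1) * t) ^ 2 - Q ^ 2) := by
    intro P
    rw [hD]
    simp only [Polynomial.eval_sub, Polynomial.eval_mul, Polynomial.eval_comp, Polynomial.eval_pow,
      Polynomial.eval_add, Polynomial.eval_X, Polynomial.eval_C]
  have hlin : ∀ c : ℂ, (Polynomial.X - Polynomial.C c).natDegree ≤ 1 := fun c => by
    rw [Polynomial.natDegree_X_sub_C]
  have hlin' : ∀ c : ℂ, (Polynomial.X + Polynomial.C c).natDegree ≤ 1 := fun c => by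
    rw [Polynomial.natDegree_X_add_C]
  have hq : ∀ p : Polynomial ℂ, p.natDegree ≤ 1 → ∀ a : ℂ,
      (p ^ 2 - Polynomial.C a).natDegree ≤ 2 := by
    intro p hp a
    refine (Polynomial.natDegree_sub_le _ _).trans (max_le ?_ ?_)
    · refine Polynomial.natDegree_pow_le.trans ?_
      omega
    · rw [Polynomial.natDegree_C]
      omega
  have hcomp : ∀ p : Polynomial ℂ, p.natDegree ≤ 1 → (d.comp p).natDegree ≤ 2 * n + 1 := by
    intro p hp
    refine Polynomial.natDegree_comp_le.trans ?_
    calc d.natDegree * p.natDegree ≤ (2 * n + 1) * 1 := Nat.mul_le_mul hddeg hp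
      _ = 2 * n + 1 := by ring
  have hDdeg : D.natDegree ≤ 2 * n + 3 := by
    refine (Polynomial.natDegree_sub_le _ _).trans (max_le ?_ ?_)
    · refine Polynomial.natDegree_mul_le.trans ?_
      have h1 := hcomp _ (hlin t)
      have h2 := hq _ (hlin' (((n : ℂ) + 1) * t)) (Q ^ 2)
      omega
    · refine Polynomial.natDegree_mul_le.trans ?_
      have h1 := hcomp _ (hlin' t)
      have h2 := hq _ (hlin (((n : ℂ) + 1) * t)) (Q ^ 2)
      omega
  have hodd : ∀ P, D.eval (-P) = -D.eval P := by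
    intro P
    rw [hDe, hDe]
    have h1 : d.eval (-P - t) = d.eval (P + t) := by
      rw [← hdeven (P + t)]
      congr 1
      ring
    have h2 : d.eval (-P + t) = d.eval (P - t) := by
      rw [← hdeven (P - t)]
      congr 1
      ring
    rw [h1, h2]
    ring
  have hDr : ∀ r' : ℕ, 1 ≤ r' → r' ≤ n → D.eval (r' : ℂ) = 0 := by
    intro r' h1 h2
    rw [hDe, hdev, hdev]
    have e1 := hFE r' h1 h2
    have e2 := PF_FE t 1 (n + 1) (r' : ℂ) Q
    rw [hAA, hBB] at e1 e2
    linear_combination e1 - e2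
  have hD0 : D.eval 0 = 0 := by
    have h1 := hodd 0
    rw [neg_zero] at h1
    have h2 : (2 : ℂ) * D.eval 0 = 0 := by linear_combination h1
    exact (mul_eq_zero.1 h2).resolve_left two_ne_zero
  have hDint : ∀ a : ℤ, -(n : ℤ) ≤ a → a ≤ n → D.eval (a : ℂ) = 0 := by
    intro a h1 h2
    rcases lt_trichotomy a 0 with h | h | h
    · obtain ⟨m, hm⟩ := Int.eq_ofNat_of_zero_le (show 0 ≤ -a by omega)
      have h3 : (a : ℂ) = -(m : ℂ) := by
        have h4 : a = -(m : ℤ) := by omega
        rw [h4]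
        push_cast
        ring
      rw [h3, hodd, hDr m (by omega) (by omega), neg_zero]
    · rw [h, Int.cast_zero]
      exact hD0
    · obtain ⟨m, hm⟩ := Int.eq_ofNat_of_zero_le h.le
      have h3 : (a : ℂ) = (m : ℂ) := by
        rw [hm]
        push_cast
        ring
      rw [h3]
      exact hDr m (by omega) (by omega)
  set T : ℂ := ((n : ℂ) + 1) * t with hT
  have hDB1 : D.eval (T + Q) = 0 := by
    rw [hDe, show T + Q - t = Q + n * t by rw [hT]; ring, hd1]
    ring
  have hDB2 : D.eval (T - Q) = 0 := by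
    rw [hDe, show T - Q - t = -Q + n * t by rw [hT]; ring, hd2]
    ring
  have hDB3 : D.eval (-T + Q) = 0 := by
    have h1 := hodd (T - Q)
    rw [hDB2, neg_zero, neg_sub] at h1
    rw [← h1]
    congr 1
    ring
  have hDB4 : D.eval (-T - Q) = 0 := by
    have h1 := hodd (T + Q)
    rw [hDB1, neg_zero] at h1
    rw [← h1]
    congr 1
    ring
  -- the set of zeros
  set A : Finset ℂ := (Finset.Icc (-(n : ℤ)) n).image (fun a : ℤ => (a : ℂ)) with hA
  have hAcard : A.card = 2 * n + 1 := by
    rw [hA, Finset.card_image_of_injective _ Int.cast_injective, Int.card_Icc]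
    omega
  have hGen : ∀ a b : ℤ, ∀ z : ℂ, z = a + b * t → 2 * Q ≠ z := by
    intro a b z hz
    rw [hz]
    exact hQ a b
  have hT0 : T ≠ 0 := by
    rw [hT]
    exact mul_ne_zero (by exact_mod_cast Nat.succ_ne_zero n) ht0
  have n12 : T + Q ≠ T - Q := by
    intro h
    exact hGen 0 0 0 (by push_cast; ring) (by linear_combination h)
  have n13 : T + Q ≠ -T + Q := by
    intro h
    apply hT0
    have h2 : (2 : ℂ) * T = 0 := by linear_combination h
    exact (mul_eq_zero.1 h2).resolve_left two_ne_zero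
  have n14 : T + Q ≠ -T - Q := by
    intro h
    exact hGen 0 (-2 * (n + 1)) (-2 * T) (by rw [hT]; push_cast; ring) (by linear_combination h)
  have n23 : T - Q ≠ -T + Q := by
    intro h
    exact hGen 0 (2 * (n + 1)) (2 * T) (by rw [hT]; push_cast; ring) (by linear_combination -h)
  have n24 : T - Q ≠ -T - Q := by
    intro h
    apply hT0
    have h2 : (2 : ℂ) * T = 0 := by linear_combination h
    exact (mul_eq_zero.1 h2).resolve_left two_ne_zero
  have n34 : -T + Q ≠ -T - Q := by
    intro h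
    exact hGen 0 0 0 (by push_cast; ring) (by linear_combination h)
  set B : Finset ℂ := {T + Q, T - Q, -T + Q, -T - Q} with hB
  have hBcard : B.card = 4 := by
    rw [hB, Finset.card_insert_of_notMem, Finset.card_insert_of_notMem,
      Finset.card_insert_of_notMem, Finset.card_singleton]
    · rw [Finset.mem_singleton]; exact n34
    · rw [Finset.mem_insert, Finset.mem_singleton]
      rintro (h | h)
      · exact n23 h
      · exact n24 h
    · rw [Finset.mem_insert, Finset.mem_insert, Finset.mem_singleton]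
      rintro (h | h | h)
      · exact n12 h
      · exact n13 h
      · exact n14 h
  have hdisj : Disjoint A B := by
    rw [Finset.disjoint_left]
    intro z hzA hzB
    rw [hA, Finset.mem_image] at hzA
    obtain ⟨a, -, rfl⟩ := hzA
    rw [hB, Finset.mem_insert, Finset.mem_insert, Finset.mem_insert, Finset.mem_singleton] at hzB
    rcases hzB with h | h | h | h
    · exact hGen (2 * a) (-2 * (n + 1)) (2 * a - 2 * T) (by rw [hT]; push_cast; ring)
        (by linear_combination -2 * h)
    · exact hGen (-2 * a) (2 * (n + 1)) (-2 * a + 2 * T) (by rw [hT]; push_cast; ring)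
        (by linear_combination 2 * h)
    · exact hGen (2 * a) (2 * (n + 1)) (2 * a + 2 * T) (by rw [hT]; push_cast; ring)
        (by linear_combination -2 * h)
    · exact hGen (-2 * a) (-2 * (n + 1)) (-2 * a - 2 * T) (by rw [hT]; push_cast; ring)
        (by linear_combination 2 * h)
  have hDzero : D = 0 := by
    refine Polynomial.eq_zero_of_natDegree_lt_card_of_eval_eq_zero' D (A ∪ B) ?_ ?_
    · intro z hz
      rcases Finset.mem_union.1 hz with h | h
      · rw [hA, Finset.mem_image] at h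
        obtain ⟨a, ha, rfl⟩ := h
        obtain ⟨h1, h2⟩ := Finset.mem_Icc.1 ha
        exact hDint a h1 h2
      · rw [hB, Finset.mem_insert, Finset.mem_insert, Finset.mem_insert, Finset.mem_singleton] at h
        rcases h with h | h | h | h <;> rw [h]
        · exact hDB1
        · exact hDB2
        · exact hDB3
        · exact hDB4
    · rw [Finset.card_union_of_disjoint hdisj, hAcard, hBcard]
      omega
  have hfull : ∀ P, g.eval (P - t) * AA t 1 (n + 1) Q P = g.eval (P + t) * BB t 1 (n + 1) Q P := by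
    intro P
    have e1 := hDe P
    rw [hDzero, Polynomial.eval_zero, hdev, hdev] at e1
    have e2 := PF_FE t 1 (n + 1) P Q
    rw [hAA, hBB] at e2 ⊢
    linear_combination e2 - e1
  exact fp3 ht hQ (le_refl 1) (Nat.succ_pos n) g (by rw [one_mul]; exact hdeg)
    (by rw [one_mul]; exact hlead) heven hfull P

end

end WPQ.SV
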