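import Pool.Agent.WPQ.FP0b
import Pool.Agent.WPQ.FP1
import Pool.Agent.WPQ.SVM

/-! [WPQ-FP6] Generic `Q` is enough; the case `(1,1)`; the symmetry `t ↔ 1/t`.

`gen_infinite`: the set `{Q | ¬ Gen t Q} = ⋃_{a,b} {(a + b t)/2}` is countable, `ℂ` is not (`Cardinal`/`Set.Countable`, `not_countable_complex` or
`Set.Countable.dense_compl`…), so the complement is infinite.
`PrF_of_gen`: for fixed `P`, both sides are polynomials in `Q` (`fp1_polyQ`, `PF_polyQ`) that agree on an infinite set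
(`Polynomial.eq_of_infinite_eval_eq`).
`PrF_one`: `n = 1`, `hrs t 1 1 = 0`; every partition of `1` is `ones 1` (`Unique`), `pl (ones 1) = [1]`, `c (ones 1) = 1`,
`ff = 0 + 0 + 1 * hP t P - hP t Q`, `4 t (hP t P - hP t Q) = P² - Q²`.
`PrF_inv`: `S_inv` gives `IsS t⁻¹ s r n c`; use `h` at `(P / t, Q / t)`, `hP_inv`, `hrs_inv`, `PF_inv`, `n = r s`, `(4 t⁻¹)^n t^(2n) = (4t)^n`. -/

namespace WPQ.SV

open KV

noncomputable section

theorem gen_infinite (t : ℂ) : {Q : ℂ | Gen t Q}.Infinite := by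
  intro hfin
  have h1 : (Set.range fun p : ℤ × ℤ => ((p.1 : ℂ) + p.2 * t) / 2).Countable :=
    Set.countable_range _
  have h2 : (Set.univ : Set ℂ).Countable := by
    refine (hfin.countable.union h1).mono ?_
    intro Q _
    by_cases hQ : Gen t Q
    · exact Or.inl hQ
    · right
      unfold Gen at hQ
      push Not at hQ
      obtain ⟨a, b, hab⟩ := hQ
      refine ⟨(a, b), ?_⟩
      simp only
      rw [← hab]
      ring
  exact not_countable_complex h2

theorem PrF_of_gen {t : ℂ} (ht : Irr t) {r s : ℕ}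
    (h : ∀ (n : ℕ) (c : Nat.Partition n → ℂ), IsS t r s n c → ∀ P Q : ℂ, Gen t Q →
      (4 * t) ^ n * ff c (hrs t r s) (hP t P) (hP t Q) = PF t r s P Q) : PrF t r s := by
  intro n c hc P Q
  obtain ⟨g₁, hg₁⟩ := fp1_polyQ (Irr_ne ht) c (hrs t r s) (hP t P)
  obtain ⟨g₂, hg₂⟩ := PF_polyQ t r s P
  have h1 : g₁ = g₂ := by
    refine Polynomial.eq_of_infinite_eval_eq g₁ g₂ ((gen_infinite t).mono ?_)
    intro Q hQ
    show g₁.eval Q = g₂.eval Q
    rw [hg₁, hg₂]
    exact h n c hc P Q hQ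
  rw [← hg₁, ← hg₂, h1]

theorem fp6_pl_ones : pl (ones 1) = [1] := by
  have h1 : ((pl (ones 1) : List ℕ) : Multiset ℕ) = Multiset.replicate 1 1 := pl_coe (ones 1)
  rw [Multiset.replicate_one] at h1
  exact Multiset.coe_eq_singleton.1 h1

theorem PrF_one {t : ℂ} (ht : Irr t) : PrF t 1 1 := by
  intro n c hc P Q
  have ht0 := Irr_ne ht
  obtain rfl : n = 1 := by
    have := hc.level
    omega
  have h1 : ff c (hrs t 1 1) (hP t P) (hP t Q) =
      c (ones 1) * fw (hrs t 1 1) (hP t P) (hP t Q) (pl (ones 1)) := by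
    unfold ff
    exact Fintype.sum_eq_single (ones 1) fun π hπ => absurd (Subsingleton.elim π (ones 1)) hπ
  have h2 : hrs t 1 1 = 0 := by
    unfold hrs
    simp
  rw [h1, hc.lead, fp6_pl_ones, h2]
  unfold PF
  simp only [Finset.prod_range_one, fw, List.sum_nil, Nat.cast_one, Nat.cast_zero, hP, pow_one]
  field_simp
  ring

theorem PrF_inv {t : ℂ} (ht : Irr t) {r s : ℕ} (hr : 1 ≤ r) (hs : 1 ≤ s) (h : PrF t⁻¹ s r) :
    PrF t r s := by
  intro n c hc P Q
  have ht0 := Irr_ne ht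
  have h1 := h n c (S_inv ht hr hs hc) (P / t) (Q / t)
  rw [hrs_inv ht0, hP_inv ht0, hP_inv ht0] at h1
  rw [← PF_inv ht0 r s P Q, ← h1, ← hc.level]
  have h2 : (4 * t) ^ n = (4 * t⁻¹) ^ n * t ^ (2 * n) := by
    rw [pow_mul, ← mul_pow]
    congr 1
    field_simp
  rw [h2]
  ring

end

end WPQ.SV
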