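import Pool.Agent.WPQ.KK4

/-! WPQ part C, block KK: interface.  Proofs: WPQ_planC.md, C4. -/

namespace WPQ.SV

open MvPolynomial KV

noncomputable section

/-- The exchange identity (K). -/
theorem KK {t : ℂ} (ht : Irr t) {r s n : ℕ} (hr : 1 ≤ r) (hs : 1 ≤ s)
    {c : Nat.Partition n → ℂ} (hc : IsS t r s n c) {r' s' n' : ℕ} (hr' : 1 ≤ r') (hs' : 1 ≤ s')
    {c' : Nat.Partition n' → ℂ} (hc' : IsS t r' s' n' c') (hw : ℂ) :
    ff c (hrs t r s) (hrs t r' s' + n') hw * ff c' (hrs t r' s') (hrs t r s) hw =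
      ff c (hrs t r s) (hrs t r' s') hw * ff c' (hrs t r' s') (hrs t r s + n) hw :=
  kk4_main ht hr hs hc hr' hs' hc' hw

end

end WPQ.SV
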