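import Pool.Agent.WPQ.FP1
import Pool.Agent.WPQ.FP2
import Pool.Agent.WPQ.FP4
import Pool.Agent.WPQ.FP5
import Pool.Agent.WPQ.FP6
import Pool.Agent.WPQ.KKM

/-! [WPQ-FP7] The product formula.

`fe_at`: `exists_S` gives `c'` with `IsS t r' 1 (r' * 1) c'`; `KK` with `(r, s)`, `(r', 1)`, `hw = hP t Q`; multiply by
`(4t)^n (4t)^n'`; `hrs t r' 1 + n' = hP t (r' + t)`, `hrs t r' 1 = hP t (r' - t)`, `hrs t r s = hP t (r - s t)`,
`hrs t r s + n = hP t (r + s t)` (`hP_hrs`, `hP_hrs'`, `hc.level`), and `PrF t r' 1` for the two values `ff c' ..`; this is the hypothesis of `fp4` with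
`u = G (r' - t)`, `v = G (r' + t)`, `G P = (4t)^n ff c (hrs t r s) (hP t P) (hP t Q)`.
`boot`: `PrF_of_gen`; `g` from `fp1_poly` (`n = 1 * (m + 1)`), even by `hP_even`, `hFE` by `fe_at`, `hZ1`, `hZ2` by `fp2_Z0` (with `P = ± Q + m t`:
`P + ((1 - 1) - t ((m+1) - 1)) = ± Q`, `hP_even`), `fp5`.
`PrF_r1`: strong induction on `r`, for all `t` at once: `r = 1`: `PrF_one`; `r = m + 1`, `m ≥ 1`: `boot` for `t⁻¹` (`Irr_inv`; the hypothesis by
induction) gives `PrF t⁻¹ 1 (m+1)`, `PrF_inv` gives `PrF t (m+1) 1`.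
`product_formula'`: `PrF_of_gen`; `g` from `fp1_poly` (`n = r s`), `fe_at` for all `r' ≥ r`: the polynomial
`g.comp (X - C t) * A - g.comp (X + C t) * B` (`A`, `B` polynomials with values `AA`, `BB`) has infinitely many zeros, so it is `0`
(`Polynomial.eq_of_infinite_eval_eq`); `fp3`. -/

namespace WPQ.SV

open KV

noncomputable section

theorem fe_at {t Q : ℂ} (ht : Irr t) (hQ : Gen t Q) {r s n : ℕ} (hr : 1 ≤ r) (hs : 1 ≤ s)
    {c : Nat.Partition n → ℂ} (hc : IsS t r s n c) {r' : ℕ} (hrr : r ≤ r') (h' : PrF t r' 1) :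
    (4 * t) ^ n * ff c (hrs t r s) (hP t ((r' : ℂ) - t)) (hP t Q) * AA t r s Q (r' : ℂ) =
      (4 * t) ^ n * ff c (hrs t r s) (hP t ((r' : ℂ) + t)) (hP t Q) * BB t r s Q (r' : ℂ) := by
  have ht0 : t ≠ 0 := Irr_ne ht
  obtain ⟨c', hc'⟩ := exists_S ht (le_trans hr hrr) (le_refl 1)
  have hK := KK ht hr hs hc (le_trans hr hrr) (le_refl 1) hc' (hP t Q)
  have e1 : hrs t r' 1 + ((r' * 1 : ℕ) : ℂ) = hP t ((r' : ℂ) + t) := by
    rw [hP_hrs' ht0]
    congr 1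
    push_cast
    ring
  have e2 : hrs t r' 1 = hP t ((r' : ℂ) - t) := by
    rw [hP_hrs ht0]
    congr 1
    push_cast
    ring
  have e3 : hrs t r s + (n : ℂ) = hP t ((r : ℂ) + s * t) := by
    rw [hc.level, hP_hrs' ht0]
  have p1 := h' _ c' hc' ((r : ℂ) + s * t) Q
  have p2 := h' _ c' hc' ((r : ℂ) - s * t) Q
  rw [e1, e3] at hK
  rw [← e3] at p1
  rw [← hP_hrs ht0] at p2
  rw [← e3] at hK
  refine fp4 hQ hrr _ _ ?_
  rw [← p1, ← p2, ← e2]
  have hK' : ff c (hrs t r s) (hP t ((r' : ℂ) + t)) (hP t Q) *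
      ff c' (hrs t r' 1) (hrs t r s) (hP t Q) =
      ff c (hrs t r s) (hrs t r' 1) (hP t Q) *
      ff c' (hrs t r' 1) (hrs t r s + (n : ℂ)) (hP t Q) := hK
  linear_combination (-(4 * t) ^ n * (4 * t) ^ (r' * 1)) * hK'

theorem boot {t : ℂ} (ht : Irr t) {m : ℕ} (hm : 1 ≤ m)
    (h : ∀ r' : ℕ, 1 ≤ r' → r' ≤ m → PrF t r' 1) : PrF t 1 (m + 1) := by
  have ht0 : t ≠ 0 := Irr_ne ht
  refine PrF_of_gen ht ?_
  intro n c hc P Q hQ
  obtain ⟨g, hg1, hg2, hg3⟩ := fp1_poly ht0 c (hrs t 1 (m + 1)) (hP t Q)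
  have hn : n = m + 1 := by
    rw [hc.level]
    ring
  rw [← hg3 P]
  refine fp5 ht hQ hm g ?_ ?_ ?_ ?_ ?_ ?_ P
  · rw [← hn]
    exact hg1
  · rw [← hn, hg2]
    exact hc.lead
  · intro P'
    rw [hg3, hg3, hP_even]
  · intro r' h1 h2
    rw [hg3, hg3]
    exact fe_at ht hQ (le_refl 1) (by omega) hc h1 (h r' h1 h2)
  · rw [hg3]
    have h1 := fp2_Z0 ht0 hc (Q + m * t)
    have h2 : (Q + m * t + (((1 : ℕ) : ℂ) - 1 - t * (((m + 1 : ℕ) : ℂ) - 1))) = Q := by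
      push_cast
      ring
    rw [h2] at h1
    rw [h1, mul_zero]
  · rw [hg3]
    have h1 := fp2_Z0 ht0 hc (-Q + m * t)
    have h2 : (-Q + m * t + (((1 : ℕ) : ℂ) - 1 - t * (((m + 1 : ℕ) : ℂ) - 1))) = -Q := by
      push_cast
      ring
    rw [h2, hP_even] at h1
    rw [h1, mul_zero]

theorem fp7_r1 (r : ℕ) : ∀ t : ℂ, Irr t → 1 ≤ r → PrF t r 1 := by
  induction r using Nat.strong_induction_on with
  | _ r ih =>
    intro t ht hr
    rcases Nat.lt_or_ge r 2 with h | h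
    · have h1 : r = 1 := by omega
      subst h1
      exact PrF_one ht
    · obtain ⟨m, rfl⟩ : ∃ m, r = m + 1 := ⟨r - 1, by omega⟩
      refine PrF_inv ht hr (le_refl 1) ?_
      exact boot (Irr_inv ht) (by omega) fun r' h1 h2 => ih r' (by omega) t⁻¹ (Irr_inv ht) h1

theorem PrF_r1 {t : ℂ} (ht : Irr t) {r : ℕ} (hr : 1 ≤ r) : PrF t r 1 := fp7_r1 r t ht hr

open Polynomial in
theorem fp7_poly (Q a : ℂ) (r : ℕ) : ∃ A : Polynomial ℂ, ∀ P, A.eval P =
    ∏ i ∈ Finset.range r, ((P + a + ((r : ℂ) - 1 - 2 * i)) ^ 2 - Q ^ 2) := by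
  refine ⟨∏ i ∈ Finset.range r, ((X + C a + C ((r : ℂ) - 1 - 2 * i)) ^ 2 - C (Q ^ 2)), ?_⟩
  intro P
  rw [Polynomial.eval_prod]
  refine Finset.prod_congr rfl fun i _ => ?_
  simp

open Polynomial in
theorem fp7_poly' (Q a : ℂ) (r : ℕ) : ∃ A : Polynomial ℂ, ∀ P, A.eval P =
    ∏ i ∈ Finset.range r, ((P - a - ((r : ℂ) - 1 - 2 * i)) ^ 2 - Q ^ 2) := by
  refine ⟨∏ i ∈ Finset.range r, ((X - C a - C ((r : ℂ) - 1 - 2 * i)) ^ 2 - C (Q ^ 2)), ?_⟩
  intro P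
  rw [Polynomial.eval_prod]
  refine Finset.prod_congr rfl fun i _ => ?_
  simp

theorem PrF_all {t : ℂ} (ht : Irr t) {r s : ℕ} (hr : 1 ≤ r) (hs : 1 ≤ s) : PrF t r s := by
  have ht0 : t ≠ 0 := Irr_ne ht
  refine PrF_of_gen ht ?_
  intro n c hc P Q hQ
  obtain ⟨g, hg1, hg2, hg3⟩ := fp1_poly ht0 c (hrs t r s) (hP t Q)
  obtain ⟨A, hA⟩ := fp7_poly Q (s * t) r
  obtain ⟨B, hB⟩ := fp7_poly' Q (s * t) r
  have hn : n = r * s := hc.level
  have key : g.comp (Polynomial.X - Polynomial.C t) * A = g.comp (Polynomial.X + Polynomial.C t) * B := by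
    refine Polynomial.eq_of_infinite_eval_eq _ _ ?_
    refine Set.Infinite.mono (s := Set.range fun k : ℕ => ((r + k : ℕ) : ℂ)) ?_ ?_
    · rintro _ ⟨k, rfl⟩
      have h1 := fe_at ht hQ hr hs hc (Nat.le_add_right r k) (PrF_r1 ht (by omega))
      show (g.comp (Polynomial.X - Polynomial.C t) * A).eval _ =
        (g.comp (Polynomial.X + Polynomial.C t) * B).eval _
      rw [Polynomial.eval_mul, Polynomial.eval_mul, Polynomial.eval_comp, Polynomial.eval_comp, hA,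
        hB, Polynomial.eval_sub, Polynomial.eval_add, Polynomial.eval_X, Polynomial.eval_C, hg3, hg3]
      exact h1
    · apply Set.infinite_range_of_injective
      intro a b hab
      have h2 : ((r + a : ℕ) : ℂ) = ((r + b : ℕ) : ℂ) := hab
      have h3 : r + a = r + b := by exact_mod_cast h2
      omega
  rw [← hg3 P]
  refine fp3 ht hQ hr hs g ?_ ?_ ?_ ?_ P
  · rw [← hn]
    exact hg1
  · rw [← hn, hg2]
    exact hc.lead
  · intro P'
    rw [hg3, hg3, hP_even]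
  · intro P'
    have h1 := congrArg (Polynomial.eval P') key
    rw [Polynomial.eval_mul, Polynomial.eval_mul, Polynomial.eval_comp, Polynomial.eval_comp, hA,
        hB, Polynomial.eval_sub, Polynomial.eval_add, Polynomial.eval_X, Polynomial.eval_C] at h1
    exact h1

end

end WPQ.SV
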