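import Mathlib

/-! [WPQ-FP8] Linear independence of `1, U, V, W` with `U² = R1`, `V² = R2`, `W² = R3` and `U V = q W`.

`fp8_irr`: if `x : ℂ`, `x² = R` with `R : ℚ` not a square, and `a + b x = 0` with `a b : ℚ`, then `a = b = 0`
(otherwise `x = -a/b` is rational).
Main: suppose `a0 + a1 U + a2 V + a3 W = 0`; multiply by `q ≠ 0` (`q ≠ 0` since otherwise `U V = 0`, `R1 = 0` or `R2 = 0` would be a square):
`(q a0 + q a1 U) + (q a2 + a3 U) V = 0`.  If `q a2 + a3 U = 0` then `a2 = a3 = 0` (`fp8_irr`) and then `a0 = a1 = 0`.  Otherwise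
`V = -(q a0 + q a1 U)/(q a2 + a3 U) = x + y U` with `x y : ℚ` (multiply with the conjugate `q a2 - a3 U`; its product with the denominator is
the rational number `q² a2² - a3² R1 ≠ 0`), so `R2 = V² = x² + y² R1 + 2 x y U`, `x y = 0`: `y = 0` gives `R2 = x²`, `x = 0` gives
`V = y U`, `q W = y R1`, `W = y R1 / q` rational, `R3` a square: contradiction. -/

namespace WPQ.SV

theorem fp8_irr {x : ℂ} {R : ℚ} (hx : x ^ 2 = (R : ℂ)) (hR : ¬ IsSquare R) {a b : ℚ}
    (h : (a : ℂ) + b * x = 0) : a = 0 ∧ b = 0 := by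
  by_cases hb : b = 0
  · refine ⟨?_, hb⟩
    rw [hb, Rat.cast_zero, zero_mul, add_zero] at h
    exact_mod_cast h
  · exfalso
    apply hR
    have hb' : (b : ℂ) ≠ 0 := by exact_mod_cast hb
    have hx' : x = -(a : ℂ) / b := by
      field_simp
      linear_combination h
    refine ⟨a / b, ?_⟩
    have h1 : (R : ℂ) = ((a / b * (a / b) : ℚ) : ℂ) := by
      rw [← hx, hx']
      push_cast
      field_simp
    exact_mod_cast h1

theorem fp8 {U V W : ℂ} {R1 R2 R3 q : ℚ} (hU : U ^ 2 = (R1 : ℂ)) (hV : V ^ 2 = (R2 : ℂ))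
    (hW : W ^ 2 = (R3 : ℂ)) (hUV : U * V = q * W) (h1 : ¬ IsSquare R1) (h2 : ¬ IsSquare R2)
    (h3 : ¬ IsSquare R3) {a0 a1 a2 a3 : ℚ}
    (h : (a0 : ℂ) + a1 * U + a2 * V + a3 * W = 0) : a0 = 0 ∧ a1 = 0 ∧ a2 = 0 ∧ a3 = 0 := by
  have hq : q ≠ 0 := by
    intro hq
    rw [hq, Rat.cast_zero, zero_mul] at hUV
    rcases mul_eq_zero.1 hUV with h0 | h0
    · apply h1
      rw [h0, zero_pow two_ne_zero] at hU
      have : R1 = 0 := by exact_mod_cast hU.symm
      rw [this]
      exact ⟨0, by ring⟩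
    · apply h2
      rw [h0, zero_pow two_ne_zero] at hV
      have : R2 = 0 := by exact_mod_cast hV.symm
      rw [this]
      exact ⟨0, by ring⟩
  have hq' : (q : ℂ) ≠ 0 := by exact_mod_cast hq
  have hmul : ((q : ℂ) * a0 + q * a1 * U) + (q * a2 + a3 * U) * V = 0 := by
    linear_combination (q : ℂ) * h + (a3 : ℂ) * hUV
  by_cases hc : (q : ℂ) * a2 + a3 * U = 0
  · obtain ⟨h4, h5⟩ := fp8_irr (a := q * a2) (b := a3) hU h1 (by push_cast; exact hc)
    have h6 : a2 = 0 := (mul_eq_zero.1 h4).resolve_left hq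
    rw [hc, zero_mul, add_zero] at hmul
    obtain ⟨h7, h8⟩ := fp8_irr (a := q * a0) (b := q * a1) hU h1 (by push_cast; exact hmul)
    exact ⟨(mul_eq_zero.1 h7).resolve_left hq, (mul_eq_zero.1 h8).resolve_left hq, h6, h5⟩
  · exfalso
    have hN : (q * a2) ^ 2 - a3 ^ 2 * R1 ≠ 0 := by
      intro hN
      by_cases ha3 : a3 = 0
      · rw [ha3] at hN
        have h4 : q * a2 = 0 := by
          have : (q * a2) ^ 2 = 0 := by linarith
          exact pow_eq_zero_iff two_ne_zero |>.1 this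
        apply hc
        rw [ha3]
        have : (q : ℂ) * a2 = 0 := by exact_mod_cast h4
        rw [this]
        simp
      · apply h1
        refine ⟨q * a2 / a3, ?_⟩
        field_simp
        linarith
    set N : ℚ := (q * a2) ^ 2 - a3 ^ 2 * R1 with hNdef
    have hN' : (N : ℂ) ≠ 0 := by exact_mod_cast hN
    set x : ℚ := -(q ^ 2 * a0 * a2 - q * a1 * a3 * R1) / N with hx
    set y : ℚ := -(q ^ 2 * a1 * a2 - q * a0 * a3) / N with hy
    have hNc : (N : ℂ) = (q * a2) ^ 2 - a3 ^ 2 * R1 := by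
      rw [hNdef]; push_cast; ring
    have hVxy : V = x + y * U := by
      have e : (N : ℂ) * V = N * (x + y * U) := by
        have ex : (N : ℂ) * x = -((q : ℂ) ^ 2 * a0 * a2 - q * a1 * a3 * R1) := by
          rw [hx]; push_cast; field_simp
        have ey : (N : ℂ) * y = -((q : ℂ) ^ 2 * a1 * a2 - q * a0 * a3) := by
          rw [hy]; push_cast; field_simp
        have e2 : (N : ℂ) * (x + y * U) = N * x + N * y * U := by ring
        rw [e2, ex, ey, hNc]
        linear_combination ((q : ℂ) * a2 - a3 * U) * hmul +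
          ((q : ℂ) * a1 * a3 + (a3 : ℂ) ^ 2 * V) * hU
      exact mul_left_cancel₀ hN' e
    have hsq : ((x ^ 2 + y ^ 2 * R1 - R2 : ℚ) : ℂ) + ((2 * x * y : ℚ) : ℂ) * U = 0 := by
      push_cast
      rw [← hV, hVxy]
      linear_combination -(y : ℂ) ^ 2 * hU
    obtain ⟨h4, h5⟩ := fp8_irr hU h1 hsq
    have h6 : x = 0 ∨ y = 0 := by
      rcases mul_eq_zero.1 h5 with h6 | h6
      · rcases mul_eq_zero.1 h6 with h7 | h7
        · exact absurd h7 two_ne_zero
        · exact Or.inl h7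
      · exact Or.inr h6
    rcases h6 with h6 | h6
    · rw [h6, Rat.cast_zero, zero_add] at hVxy
      have h7 : (q : ℂ) * W = y * R1 := by
        rw [← hUV, hVxy, ← hU]; ring
      apply h3
      refine ⟨y * R1 / q, ?_⟩
      have h8 : W = y * R1 / q := by
        field_simp
        linear_combination h7
      have h9 : (R3 : ℂ) = ((y * R1 / q * (y * R1 / q) : ℚ) : ℂ) := by
        rw [← hW, h8]; push_cast; ring
      exact_mod_cast h9
    · rw [h6] at h4
      apply h2
      exact ⟨x, by linarith⟩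

end WPQ.SV
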