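import Pool.Agent.WPQ.FP7
import Pool.Agent.WPQ.FP8

/-! [WPQ-FP9] The fusion polynomial of `S_{r,r}` does not vanish at integers.

Choose `P`, `Q` with `P² = 4 t m + (t-1)²`, `Q² = 4 t j + (t-1)²` (`IsSquare` in `ℂ`: `IsAlgClosed.exists_pow_nat_eq` or `Complex.cpow`), so
`hP t P = m`, `hP t Q = j`.  If `ff = 0` then `PF t r r P Q = 0` (`PrF_all`), so for some `i, k < r` with `a = r - 1 - 2 i`, `b = r - 1 - 2 k`:
`(P + a + b t)² = Q²`, that is `4 t (j - m) = 2 P (a + b t) + (a + b t)²`.  With the integers `a' = (a + b)/2 = r - 1 - i - k`,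
`b' = (b - a)/2 = i - k`: `a + b t = a' (1 + t) + b' (t - 1)`.  Put `U = P (1 + t)/t`, `V = P (t - 1)/t`, `W = (t² - 1)/t`; `w = (t-1)²/t`:
`U² = (4m + w)(w + 4)`, `V² = (4m + w) w`, `W² = w (w + 4)`, `U V = (4m + w) W`, and after division by `t`:
`4 (m - j) + a'² (w + 4) + b'² w + 2 a' U + 2 b' V + 2 a' b' W = 0`.  By `fp8`: `a' = b' = 0` and `m = j`; `b' = 0`: `i = k`, `a' = 0`: `r - 1 = 2 i`,
so `r` is odd: contradiction to `hj`.  (`t ≠ 0` by `Irr_ne`.) -/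

namespace WPQ.SV

open KV

noncomputable section

theorem product_formula {t : ℂ} (ht : Irr t) {r s n : ℕ} (hr : 1 ≤ r) (hs : 1 ≤ s)
    {c : Nat.Partition n → ℂ} (hc : IsS t r s n c) (P Q : ℂ) :
    (4 * t) ^ n * ff c (hrs t r s) (hP t P) (hP t Q) = PF t r s P Q :=
  PrF_all ht hr hs n c hc P Q

/-- Nonvanishing of the fusion polynomial of `S_{r,r}` at integers. -/
theorem ff_ne {t : ℂ} (ht : Irr t) (w : ℚ) (hw : (t - 1) ^ 2 / t = (w : ℂ)) {r n : ℕ}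
    (hr : 1 ≤ r) {c : Nat.Partition n → ℂ} (hc : IsS t r r n c) (m j : ℕ)
    (R1 : ¬ IsSquare ((4 * (m : ℚ) + w) * (w + 4))) (R2 : ¬ IsSquare ((4 * (m : ℚ) + w) * w))
    (R3 : ¬ IsSquare (w * (w + 4))) (hj : j ≠ m ∨ Even r) :
    ff c (hrs t r r) (m : ℂ) (j : ℂ) ≠ 0 := by
  have ht0 : t ≠ 0 := Irr_ne ht
  obtain ⟨P, hPP⟩ := IsAlgClosed.exists_pow_nat_eq (4 * t * (m : ℂ) + (t - 1) ^ 2) (n := 2)
    two_pos
  obtain ⟨Q, hQQ⟩ := IsAlgClosed.exists_pow_nat_eq (4 * t * (j : ℂ) + (t - 1) ^ 2) (n := 2)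
    two_pos
  have hPm : hP t P = (m : ℂ) := by
    unfold hP
    rw [hPP, add_sub_cancel_right, mul_comm, mul_div_assoc, div_self (by
      exact mul_ne_zero (by norm_num) ht0), mul_one]
  have hQj : hP t Q = (j : ℂ) := by
    unfold hP
    rw [hQQ, add_sub_cancel_right, mul_comm, mul_div_assoc, div_self (by
      exact mul_ne_zero (by norm_num) ht0), mul_one]
  intro h0
  have h1 := product_formula ht hr hr hc P Q
  rw [hPm, hQj, h0, mul_zero] at h1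
  unfold PF at h1
  obtain ⟨i, hi, h2⟩ := Finset.prod_eq_zero_iff.1 h1.symm
  obtain ⟨k, hk, h3⟩ := Finset.prod_eq_zero_iff.1 h2
  have hwt : (t - 1) ^ 2 = (w : ℂ) * t := by
    rw [← hw, div_mul_cancel₀ _ ht0]
  have hwt' : (w : ℂ) * t = (t - 1) ^ 2 := hwt.symm
  have hti : t * t⁻¹ = 1 := mul_inv_cancel₀ ht0
  -- the four numbers
  have hU : (P * (1 + t) * t⁻¹) ^ 2 = (((4 * (m : ℚ) + w) * (w + 4) : ℚ) : ℂ) := by
    push_cast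
    have e1 : (1 + t) ^ 2 = ((w : ℂ) + 4) * t := by linear_combination hwt
    have e2 : P ^ 2 = (4 * (m : ℂ) + w) * t := by linear_combination hPP + hwt
    calc (P * (1 + t) * t⁻¹) ^ 2 = P ^ 2 * (1 + t) ^ 2 * (t⁻¹) ^ 2 := by ring
      _ = (4 * (m : ℂ) + w) * ((w : ℂ) + 4) * (t * t⁻¹) ^ 2 := by rw [e1, e2]; ring
      _ = _ := by rw [hti]; ring
  have hV : (P * (t - 1) * t⁻¹) ^ 2 = (((4 * (m : ℚ) + w) * w : ℚ) : ℂ) := by
    push_cast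
    have e2 : P ^ 2 = (4 * (m : ℂ) + w) * t := by linear_combination hPP + hwt
    calc (P * (t - 1) * t⁻¹) ^ 2 = P ^ 2 * (t - 1) ^ 2 * (t⁻¹) ^ 2 := by ring
      _ = (4 * (m : ℂ) + w) * (w : ℂ) * (t * t⁻¹) ^ 2 := by rw [hwt, e2]; ring
      _ = _ := by rw [hti]; ring
  have hW : ((t ^ 2 - 1) * t⁻¹) ^ 2 = ((w * (w + 4) : ℚ) : ℂ) := by
    push_cast
    have e1 : (1 + t) ^ 2 = ((w : ℂ) + 4) * t := by linear_combination hwt
    calc ((t ^ 2 - 1) * t⁻¹) ^ 2 = (t - 1) ^ 2 * (1 + t) ^ 2 * (t⁻¹) ^ 2 := by ring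
      _ = (w : ℂ) * ((w : ℂ) + 4) * (t * t⁻¹) ^ 2 := by rw [hwt, e1]; ring
      _ = _ := by rw [hti]; ring
  have hUV : P * (1 + t) * t⁻¹ * (P * (t - 1) * t⁻¹) =
      ((4 * (m : ℚ) + w : ℚ) : ℂ) * ((t ^ 2 - 1) * t⁻¹) := by
    push_cast
    have e2 : P ^ 2 = (4 * (m : ℂ) + w) * t := by linear_combination hPP + hwt
    calc P * (1 + t) * t⁻¹ * (P * (t - 1) * t⁻¹) = P ^ 2 * (t ^ 2 - 1) * (t⁻¹) ^ 2 := by ring
      _ = (4 * (m : ℂ) + w) * ((t ^ 2 - 1) * t⁻¹) * (t * t⁻¹) := by rw [e2]; ring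
      _ = _ := by rw [hti]; ring
  have hlin : ((4 * ((m : ℚ) - j) + ((r : ℚ) - 1 - i - k) ^ 2 * (w + 4) +
      ((i : ℚ) - k) ^ 2 * w : ℚ) : ℂ) +
      ((2 * ((r : ℚ) - 1 - i - k) : ℚ) : ℂ) * (P * (1 + t) * t⁻¹) +
      ((2 * ((i : ℚ) - k) : ℚ) : ℂ) * (P * (t - 1) * t⁻¹) +
      ((2 * ((r : ℚ) - 1 - i - k) * ((i : ℚ) - k) : ℚ) : ℂ) * ((t ^ 2 - 1) * t⁻¹) = 0 := by
    push_cast
    have h4 : t⁻¹ * ((P + ((r : ℂ) - 1 - 2 * i) + ((r : ℂ) - 1 - 2 * k) * t) ^ 2 - Q ^ 2) = 0 := by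
      rw [h3, mul_zero]
    have h5 : t⁻¹ * ((P + ((r : ℂ) - 1 - 2 * i) + ((r : ℂ) - 1 - 2 * k) * t) ^ 2 - Q ^ 2) =
        4 * ((m : ℂ) - j) * (t * t⁻¹) + 2 * P * (((r : ℂ) - 1 - 2 * i) +
          ((r : ℂ) - 1 - 2 * k) * t) * t⁻¹ +
          (((r : ℂ) - 1 - 2 * i) + ((r : ℂ) - 1 - 2 * k) * t) ^ 2 * t⁻¹ := by
      linear_combination t⁻¹ * hPP - t⁻¹ * hQQ
    have h6 : (((r : ℂ) - 1 - 2 * i) + ((r : ℂ) - 1 - 2 * k) * t) ^ 2 * t⁻¹ =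
        ((r : ℂ) - 1 - i - k) ^ 2 * ((w : ℂ) + 4) + ((i : ℂ) - k) ^ 2 * w +
          2 * ((r : ℂ) - 1 - i - k) * ((i : ℂ) - k) * ((t ^ 2 - 1) * t⁻¹) := by
      have e1 : (1 + t) ^ 2 = ((w : ℂ) + 4) * t := by linear_combination hwt
      calc (((r : ℂ) - 1 - 2 * i) + ((r : ℂ) - 1 - 2 * k) * t) ^ 2 * t⁻¹
          = ((r : ℂ) - 1 - i - k) ^ 2 * ((1 + t) ^ 2 * t⁻¹) +
            ((i : ℂ) - k) ^ 2 * ((t - 1) ^ 2 * t⁻¹) +
            2 * ((r : ℂ) - 1 - i - k) * ((i : ℂ) - k) * ((t ^ 2 - 1) * t⁻¹) := by ring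
        _ = ((r : ℂ) - 1 - i - k) ^ 2 * (((w : ℂ) + 4) * (t * t⁻¹)) +
            ((i : ℂ) - k) ^ 2 * ((w : ℂ) * (t * t⁻¹)) +
            2 * ((r : ℂ) - 1 - i - k) * ((i : ℂ) - k) * ((t ^ 2 - 1) * t⁻¹) := by
            rw [e1, hwt]; ring
        _ = _ := by rw [hti]; ring
    rw [h5, h6, hti] at h4
    linear_combination h4
  obtain ⟨g0, g1, g2, -⟩ := fp8 hU hV hW hUV R1 R2 R3 hlin
  have ga : ((r : ℚ) - 1 - i - k) = 0 := by linarith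
  have gb : ((i : ℚ) - k) = 0 := by linarith
  rw [ga, gb] at g0
  have gm : (m : ℚ) = j := by linarith
  have gm' : m = j := by exact_mod_cast gm
  have gi : (i : ℚ) = k := by linarith
  have gi' : i = k := by exact_mod_cast gi
  have gr : (r : ℚ) = 2 * i + 1 := by linarith
  have gr' : r = 2 * i + 1 := by exact_mod_cast gr
  rcases hj with hj | hj
  · exact hj gm'.symm
  · rw [gr'] at hj
    exact (Nat.not_even_two_mul_add_one i) hj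

end

end WPQ.SV
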