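import Pool.Agent.WPQ.SVD

/-! WPQ part C, block FP: definitions. -/

namespace WPQ.SV

open KV

noncomputable section

/-- `Q` is generic: `2 Q` is not in `ℤ + ℤ t`. -/
def Gen (t Q : ℂ) : Prop := ∀ a b : ℤ, 2 * Q ≠ a + b * t

/-- The left factor of the functional equation. -/
def AA (t : ℂ) (r s : ℕ) (Q P : ℂ) : ℂ :=
  ∏ i ∈ Finset.range r, ((P + s * t + ((r : ℂ) - 1 - 2 * i)) ^ 2 - Q ^ 2)

/-- The right factor of the functional equation. -/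
def BB (t : ℂ) (r s : ℕ) (Q P : ℂ) : ℂ :=
  ∏ i ∈ Finset.range r, ((P - s * t - ((r : ℂ) - 1 - 2 * i)) ^ 2 - Q ^ 2)

/-- The product formula for `(r, s)`. -/
def PrF (t : ℂ) (r s : ℕ) : Prop := ∀ (n : ℕ) (c : Nat.Partition n → ℂ), IsS t r s n c →
  ∀ P Q : ℂ, (4 * t) ^ n * ff c (hrs t r s) (hP t P) (hP t Q) = PF t r s P Q

end

end WPQ.SV
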