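import Pool.Agent.WPQ.VP3
import Pool.Agent.WPQ.FL4

/-! [WPQ-FT1] Low weights: `1'(e^{-λ}_n v) = 0`.

Plan.  Induction on `d`.  Let `Δ = wtExp (-λ)`, `v = single λ f ∈ W` of weight `m = d + wtExp λ < Δ`.
`0 = top0 (L(1) e^{-λ}_{Δ+m-2} v)` (`W_expS`, `top0_LS_one`) and `LS_expS` (`k = 1`,
`n = Δ+m-2`: scalar `2(Δ-1) - n = Δ - m ≠ 0`):
`(Δ-m) top0 (e^{-λ}_{Δ+m-1} v) + top0 (e^{-λ}_{Δ+m-2} L(1) v) = 0`; `L(1) v = single λ f'` is in `W`
(`W_LS`), of degree `d - 1` (`Lop_homog`; for `d = 0` it is `0`), induction hypothesis with `m - 1`.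
`low_all`: for every `v ∈ W` and `0 ≤ n`:
`top0 (e^{-λ}_{2Δ-2-n} v) = 0`: only the component `v λ` and its homogeneous part of degree `d` with
`2Δ-2-n = Δ+m-1` (`m = Δ-1-n < Δ`) contribute (`W_comp`, `W_homog`, `vop_homog`). -/

namespace WPQ

open MvPolynomial AF

noncomputable section

variable {ι : Type} [Fintype ι] [DecidableEq ι] {A : Matrix ι ι ℤ} {p : ℕ}

theorem ft1_LS_single (σ : Shift A p) (k : ℤ) (η : ι → ℤ) (f : Fock ι) :
    LS σ k (Finsupp.single η f) = Finsupp.single η (Lop A p (σ.s + toC η) k f) := by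
  rw [LS, Finsupp.lsum_single]
  rfl

theorem ft1_step (hA : IsADE A) (hp : 1 ≤ p) (ε : Cocycle A p) (lam : ι → ℤ) (hl : Dom A lam)
    (d : ℕ) (f : Fock ι) (_hf : FH f d) (hW : Finsupp.single lam f ∈ W A p)
    (hm : (d : ℤ) + wtExp A p lam < wtExp A p (-lam))
    (h0 : top0 (expS ε (Shift.zero A p) (-lam) (wtExp A p (-lam) + ((d : ℤ) + wtExp A p lam) - 2)
      (LS (Shift.zero A p) 1 (Finsupp.single lam f))) = 0) :
    top0 (expS ε (Shift.zero A p) (-lam)
      (wtExp A p (-lam) + ((d : ℤ) + wtExp A p lam) - 1) (Finsupp.single lam f)) = 0 := by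
  obtain ⟨n, hn⟩ : ∃ n : ℤ, n = wtExp A p (-lam) + ((d : ℤ) + wtExp A p lam) - 2 := ⟨_, rfl⟩
  have hn1 : wtExp A p (-lam) + ((d : ℤ) + wtExp A p lam) - 1 = n + 1 := by
    rw [hn]
    ring
  rw [hn1]
  rw [← hn] at h0
  have h1 := LinearMap.congr_fun (LS_expS hA hp ε (Shift.zero A p) (-lam) 1 n)
    (Finsupp.single lam f)
  have h2 := congrArg top0 h1
  simp only [LinearMap.sub_apply, LinearMap.comp_apply, LinearMap.smul_apply, map_sub,
    map_smul] at h2
  rw [h0, top0_LS_one hA hp _ (W_expS hA hp ε lam hl n _ hW), sub_zero] at h2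
  have h3 : ((((1 : ℤ) : ℂ) + 1) * ((wtExp A p (-lam) : ℂ) - 1) - n) ≠ 0 := by
    have h4 : ((((1 : ℤ) : ℂ) + 1) * ((wtExp A p (-lam) : ℂ) - 1) - n) =
        ((wtExp A p (-lam) - ((d : ℤ) + wtExp A p lam) : ℤ) : ℂ) := by
      rw [hn]
      push_cast
      ring
    rw [h4]
    have h5 : wtExp A p (-lam) - ((d : ℤ) + wtExp A p lam) ≠ 0 := by omega
    exact_mod_cast h5
  rw [smul_eq_mul] at h2
  exact (mul_eq_zero.1 h2.symm).resolve_left h3

theorem low_one (hA : IsADE A) (hp : 1 ≤ p) (ε : Cocycle A p) (lam : ι → ℤ) (hl : Dom A lam)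
    (d : ℕ) (f : Fock ι) (hf : FH f d) (hW : Finsupp.single lam f ∈ W A p)
    (hm : (d : ℤ) + wtExp A p lam < wtExp A p (-lam)) :
    top0 (expS ε (Shift.zero A p) (-lam)
      (wtExp A p (-lam) + ((d : ℤ) + wtExp A p lam) - 1) (Finsupp.single lam f)) = 0 := by
  induction d generalizing f with
  | zero =>
    refine ft1_step hA hp ε lam hl 0 f hf hW hm ?_
    rw [ft1_LS_single, Lop_eq_zero A p _ 1 f 0 hf (by norm_num), Finsupp.single_zero, map_zero,
      map_zero]
  | succ d ih =>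
    refine ft1_step hA hp ε lam hl (d + 1) f hf hW hm ?_
    have h1 := W_LS hA hp 1 _ hW
    rw [ft1_LS_single] at h1 ⊢
    have h2 := ih _ (Lop_homog A p _ 1 f (d + 1) d hf (by push_cast; ring)) h1
      (by push_cast at hm ⊢; omega)
    have h3 : wtExp A p (-lam) + (((d + 1 : ℕ) : ℤ) + wtExp A p lam) - 2 =
        wtExp A p (-lam) + ((d : ℤ) + wtExp A p lam) - 1 := by
      push_cast
      ring
    rw [h3]
    exact h2

theorem low_all (hA : IsADE A) (hp : 1 ≤ p) (ε : Cocycle A p) (lam : ι → ℤ) (hl : Dom A lam)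
    (v : VL ι) (hv : v ∈ W A p) (n : ℤ) (hn : 0 ≤ n) :
    top0 (expS ε (Shift.zero A p) (-lam) (2 * wtExp A p (-lam) - 2 - n) v) = 0 := by
  obtain ⟨L, hL⟩ : ∃ L : VL ι →ₗ[ℂ] ℂ, L = top0 ∘ₗ
      expS ε (Shift.zero A p) (-lam) (2 * wtExp A p (-lam) - 2 - n) := ⟨_, rfl⟩
  have key : W A p ≤ LinearMap.ker L := by
    refine W_span _ fun γ f d hf hW => ?_
    rw [LinearMap.mem_ker, hL, LinearMap.comp_apply]
    by_cases hγ : -lam + γ = 0
    · have hγ' : γ = lam := by
        rw [neg_add_eq_zero] at hγ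
        exact hγ.symm
      subst hγ'
      have hform : formZ A p γ γ = wtExp A p γ + wtExp A p (-γ) := by
        have h1 := wtExp_add (p := p) hA γ (-γ)
        have h2 : wtExp A p (0 : ι → ℤ) = 0 := by simp [wtExp, formZ]
        have h3 : formZ A p γ (-γ) = -formZ A p γ γ := by simp [formZ]
        rw [add_neg_cancel, h2, h3] at h1
        omega
      have hform2 : formZ A p (-γ) γ = -formZ A p γ γ := by simp [formZ]
      by_cases he : (d : ℤ) + wtExp A p γ + wtExp A p (-γ) - 1 = 2 * wtExp A p (-γ) - 2 - n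
      · have h1 := low_one hA hp ε γ hl d f hf hW (by omega)
        rw [← he]
        have h2 : (d : ℤ) + wtExp A p γ + wtExp A p (-γ) - 1 =
          wtExp A p (-γ) + ((d : ℤ) + wtExp A p γ) - 1 := by ring
        rw [h2]
        exact h1
      · rw [expS_single, hγ]
        have hdot : (Shift.zero A p).dot (-γ) = 0 := by simp [Shift.dot, Shift.zero]
        rw [hdot]
        obtain ⟨m, hm⟩ : ∃ m : ℤ, m = -(2 * wtExp A p (-γ) - 2 - n) - 1 - 0 - formZ A p (-γ) γ :=
          ⟨_, rfl⟩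
        rw [← hm]
        rw [hform2, hform] at hm
        show constantCoeff ((Finsupp.single 0 _ : VL ι) 0) = 0
        rw [Finsupp.single_eq_same]
        rcases lt_trichotomy ((d : ℤ) + m) 0 with h | h | h
        · rw [vop_eq_zero A p _ m f d hf h, smul_zero, map_zero]
        · exfalso
          omega
        · obtain ⟨e, he'⟩ := Int.eq_ofNat_of_zero_le h.le
          have h1 := vop_homog A p (toC (-γ)) m f d e hf he'.symm
          have h2 : constantCoeff (vop A p (toC (-γ)) m f) = 0 := by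
            by_contra hc
            rw [constantCoeff_eq] at hc
            have h3 := h1 hc
            rw [map_zero] at h3
            omega
          rw [smul_eq_C_mul, map_mul, h2, mul_zero]
    · rw [expS_single]
      show constantCoeff ((Finsupp.single (-lam + γ) _ : VL ι) 0) = 0
      rw [Finsupp.single_eq_of_ne (Ne.symm hγ), map_zero]
  have h1 := key hv
  rw [LinearMap.mem_ker, hL, LinearMap.comp_apply] at h1
  exact h1

end

end WPQ
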