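import Pool.Agent.WPQ.FT1

/-! [WPQ-FT2] The commutator of `e^{-λ}_n` with `e^{2a}_k` pairs to zero on the vacuum.

Plan.  Write `C_k = gX ε τ 0 k`, `X(n,k)(v) = pairV ([e_n, C_k] vac) v`, `comC` below with `js = []`.
(1) `n ≥ 0`, `k ≥ 0`: both modes kill `vac`.  `n ≥ 0`, `k = -1`: `X = pairV (e^{-λ}_n vac_{2a}) v =
± top0 (e^{-λ}_{2Δ-2-n} v) = 0` (`gX_creation`: `C_{-1} vac = single 0 1 = vac`; `pairV_expS`,
`pairV_vac`, `low_all`).
(2) `T`-covariance (`cov_expS`, `cov_gX`; `LS zero (-1) vac = 0`; `pairV_LS`: `pairV (L(-1) t) v =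
pairV t (L(1) v)`, `L(1) v ∈ W`): `-n X(n-1,k)(v) - k X(n,k-1)(v) = X(n,k)(L(1) v)`.  So by downward
induction on `k` (from `k = -1`) `X(n,k) = 0` for all `n ≥ 0` (for `n = 0` the first term has
coefficient `0`).
(3) locality (`gX_local`): `∑_i (-1)^i C(N,i) X(n+i, m+N-i) = 0`; downward induction on `n`: if
`X(n',·) = 0` for all `n' > n`, the term `i = 0` gives `X(n, m+N) = 0` for all `m`.
`comC_E`: `[E_j, C_k] = 0` (`gX_comm`, `τ.dot (rt j) = 2(p-1) ≥ 0`), so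
`[E_j, [c_n, C_k]] = [[E_j,c_n], C_k]`. -/

namespace WPQ

open MvPolynomial AF

noncomputable section

variable {ι : Type} [Fintype ι] [DecidableEq ι] {A : Matrix ι ι ℤ} {p : ℕ}

/-- `[c_n, C_k] : V_L → V_{L+2a}`, `c = cS lam js`, `C = e^{2a}`. -/
def comC (ε : Cocycle A p) (τ : Shift A p) (lam : ι → ℤ) (js : List ι) (n k : ℤ) :
    VL ι →ₗ[ℂ] VL ι :=
  cS ε τ lam js n ∘ₗ gX ε τ 0 k - gX ε τ 0 k ∘ₗ cS ε (Shift.zero A p) lam js n

theorem C_Ej (hA : IsADE A) (hp : 1 ≤ p) (ε : Cocycle A p) (τ : Shift A p)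
    (hτ : τ.s = (2 : ℂ) • bg A p) (j : ι) (k : ℤ) :
    gX ε τ 0 k ∘ₗ Ej ε (Shift.zero A p) j = Ej ε τ j ∘ₗ gX ε τ 0 k := by
  unfold Ej
  refine gX_comm hA.symm ε τ 0 (rt j) ?_ k 0
  have h1 : τ.dot (rt j) = 2 * ((p : ℤ) - 1) := by
    unfold Shift.dot rt
    rw [Finset.sum_eq_single j]
    · rw [Pi.single_eq_same, one_mul, tau_kappa hA hp τ hτ j]
    · intro i _ hi
      rw [Pi.single_eq_of_ne hi, zero_mul]
    · intro h
      exact absurd (Finset.mem_univ j) h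
  have h2 : formZ A p 0 (rt j) = 0 := by
    simp [formZ]
  rw [h1, h2]
  have h3 : (1 : ℤ) ≤ p := by exact_mod_cast hp
  linarith

theorem comC_E (hA : IsADE A) (hp : 1 ≤ p) (ε : Cocycle A p) (τ : Shift A p)
    (hτ : τ.s = (2 : ℂ) • bg A p) (lam : ι → ℤ) (js : List ι) (j : ι) (n k : ℤ) :
    comC ε τ lam (j :: js) n k =
      Ej ε τ j ∘ₗ comC ε τ lam js n k - comC ε τ lam js n k ∘ₗ Ej ε (Shift.zero A p) j := by
  have h1 : ∀ w, gX ε τ 0 k (Ej ε (Shift.zero A p) j w) = Ej ε τ j (gX ε τ 0 k w) := fun w =>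
    LinearMap.congr_fun (C_Ej hA hp ε τ hτ j k) w
  apply LinearMap.ext
  intro v
  simp only [comC, cS, br, LinearMap.sub_apply, LinearMap.comp_apply, map_sub]
  rw [h1 v, h1 (cS ε (Shift.zero A p) lam js n v)]
  abel

theorem ft2_pairV_zero (ε : Cocycle A p) (v : VL ι) : pairV ε 0 v = 0 := by
  have h := pairV_smul_left ε 0 0 v
  rwa [zero_smul, zero_mul] at h

theorem ft2_pairV_sum (ε : Cocycle A p) (v : VL ι) (s : Finset ℕ) (f : ℕ → VL ι) :
    pairV ε (∑ i ∈ s, f i) v = ∑ i ∈ s, pairV ε (f i) v := by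
  classical
  induction s using Finset.induction_on with
  | empty => rw [Finset.sum_empty, Finset.sum_empty, ft2_pairV_zero]
  | insert a s ha ih => rw [Finset.sum_insert ha, Finset.sum_insert ha, pairV_add_left, ih]

theorem ft2_pos (hA : IsADE A) (hp : 1 ≤ p) (ε : Cocycle A p) (τ : Shift A p)
    (hτ : τ.s = (2 : ℂ) • bg A p) (lam : ι → ℤ) (hl : Dom A lam) (n k : ℤ) (hn : 0 ≤ n)
    (hk : -1 ≤ k) (v : VL ι) (hv : v ∈ W A p) : pairV ε (comC ε τ lam [] n k vac) v = 0 := by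
  have h1 : comC ε τ lam [] n k vac = expS ε τ (-lam) n (gX ε τ 0 k vac) := by
    simp only [comC, cS, LinearMap.sub_apply, LinearMap.comp_apply]
    rw [expS_vac_nonneg ε (-lam) n hn, map_zero, sub_zero]
  rw [h1]
  rcases lt_or_eq_of_le hk with hk' | hk'
  · rw [gX_vac_nonneg ε τ 0 k (by omega), map_zero, ft2_pairV_zero]
  · rw [← hk', gX_creation]
    have h2 : pairV ε (expS ε τ (-lam) n (Finsupp.single 0 1)) v = 0 := by
      rw [pairV_expS hA hp ε τ hτ (-lam) n]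
      have h3 : (Finsupp.single 0 1 : VL ι) = vac := rfl
      rw [h3, pairV_vac, low_all hA hp ε lam hl v hv n hn, mul_zero]
    exact h2

theorem ft2_cov (hA : IsADE A) (hp : 1 ≤ p) (ε : Cocycle A p) (τ : Shift A p)
    (hτ : τ.s = (2 : ℂ) • bg A p) (lam : ι → ℤ) (n k : ℤ) (v : VL ι) :
    pairV ε (comC ε τ lam [] n k vac) (LS (Shift.zero A p) 1 v) =
      (-n : ℂ) * pairV ε (comC ε τ lam [] (n - 1) k vac) v +
        (-k : ℂ) * pairV ε (comC ε τ lam [] n (k - 1) vac) v := by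
  have h0 : LS (Shift.zero A p) (-1) (vac : VL ι) = 0 := LS_vac (-1) (le_refl _)
  have e1 : ∀ w, LS τ (-1) (expS ε τ (-lam) n w) - expS ε τ (-lam) n (LS τ (-1) w) =
      (-n : ℂ) • expS ε τ (-lam) (n - 1) w := fun w =>
    LinearMap.congr_fun (cov_expS hA hp ε τ (-lam) n) w
  have e2 : ∀ w, LS (Shift.zero A p) (-1) (expS ε (Shift.zero A p) (-lam) n w) -
      expS ε (Shift.zero A p) (-lam) n (LS (Shift.zero A p) (-1) w) =
      (-n : ℂ) • expS ε (Shift.zero A p) (-lam) (n - 1) w := fun w =>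
    LinearMap.congr_fun (cov_expS hA hp ε (Shift.zero A p) (-lam) n) w
  have e3 : ∀ w, LS τ (-1) (gX ε τ 0 k w) - gX ε τ 0 k (LS (Shift.zero A p) (-1) w) =
      (-k : ℂ) • gX ε τ 0 (k - 1) w := fun w =>
    LinearMap.congr_fun (cov_gX hA hp ε τ 0 k) w
  have a1 := e1 (gX ε τ 0 k vac)
  have a3 := e3 vac
  have b3 := e3 (expS ε (Shift.zero A p) (-lam) n vac)
  have b2 := e2 vac
  rw [h0, map_zero, sub_zero] at a3 b2
  rw [a3, map_smul] at a1
  rw [b2, map_smul] at b3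
  have key : LS τ (-1) (comC ε τ lam [] n k vac) =
      (-n : ℂ) • comC ε τ lam [] (n - 1) k vac + (-k : ℂ) • comC ε τ lam [] n (k - 1) vac := by
    simp only [comC, cS, LinearMap.sub_apply, LinearMap.comp_apply, map_sub, smul_sub]
    rw [sub_eq_iff_eq_add] at a1 b3
    rw [a1, b3]
    abel
  have h1 := pairV_LS hA hp ε τ hτ (-1) (comC ε τ lam [] n k vac) v
  rw [neg_neg] at h1
  rw [← h1, key, pairV_add_left, pairV_smul_left, pairV_smul_left]

theorem ft2_nonneg (hA : IsADE A) (hp : 1 ≤ p) (ε : Cocycle A p) (τ : Shift A p)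
    (hτ : τ.s = (2 : ℂ) • bg A p) (lam : ι → ℤ) (hl : Dom A lam) (j : ℕ) :
    ∀ n : ℤ, 0 ≤ n → ∀ v ∈ W A p, pairV ε (comC ε τ lam [] n (-1 - j) vac) v = 0 := by
  induction j with
  | zero =>
    intro n hn v hv
    exact ft2_pos hA hp ε τ hτ lam hl n _ hn (by simp) v hv
  | succ j ih =>
    intro n hn v hv
    have h1 := ft2_cov hA hp ε τ hτ lam n (-1 - j) v
    rw [ih n hn _ (W_LS hA hp 1 v hv)] at h1
    have h2 : (-n : ℂ) * pairV ε (comC ε τ lam [] (n - 1) (-1 - j) vac) v = 0 := by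
      rcases eq_or_lt_of_le hn with h | h
      · rw [← h]
        simp
      · rw [ih (n - 1) (by omega) v hv, mul_zero]
    rw [h2, zero_add] at h1
    have h3 : (-((-1 - j : ℤ) : ℂ)) ≠ 0 := by
      push_cast
      have : ((j : ℂ) + 1) ≠ 0 := Nat.cast_add_one_ne_zero j
      intro h
      apply this
      linear_combination h
    have h4 := (mul_eq_zero.1 h1.symm).resolve_left h3
    have h5 : (-1 - ((j + 1 : ℕ) : ℤ)) = -1 - (j : ℤ) - 1 := by
      push_cast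
      ring
    rw [h5]
    exact h4

theorem ft2_loc (hA : IsADE A) (ε : Cocycle A p) (τ : Shift A p) (lam : ι → ℤ) :
    ∃ N : ℕ, ∀ (m n : ℤ) (v : VL ι), ∑ i ∈ Finset.range (N + 1), ((-1 : ℂ) ^ i * (N.choose i : ℂ)) *
      pairV ε (comC ε τ lam [] (n + i) (m + N - i) vac) v = 0 := by
  obtain ⟨N, hN⟩ := gX_local hA.symm ε τ 0 (-lam)
  refine ⟨N, fun m n v => ?_⟩
  have h1 := LinearMap.congr_fun (hN m n) vac
  rw [LinearMap.sum_apply] at h1
  have h2 : pairV ε (∑ k ∈ Finset.range (N + 1), (((-1 : ℂ) ^ k * (N.choose k : ℂ)) •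
      (gX ε τ 0 (m + N - k) ∘ₗ expS ε (Shift.zero A p) (-lam) (n + k) -
        expS ε τ (-lam) (n + k) ∘ₗ gX ε τ 0 (m + N - k))) vac) v = 0 := by
    rw [h1]
    exact ft2_pairV_zero ε v
  rw [ft2_pairV_sum] at h2
  have h3 : ∀ i : ℕ, pairV ε ((((-1 : ℂ) ^ i * (N.choose i : ℂ)) •
      (gX ε τ 0 (m + N - i) ∘ₗ expS ε (Shift.zero A p) (-lam) (n + i) -
        expS ε τ (-lam) (n + i) ∘ₗ gX ε τ 0 (m + N - i))) vac) v =
      -(((-1 : ℂ) ^ i * (N.choose i : ℂ)) *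
        pairV ε (comC ε τ lam [] (n + i) (m + N - i) vac) v) := by
    intro i
    have h4 : ((((-1 : ℂ) ^ i * (N.choose i : ℂ)) •
      (gX ε τ 0 (m + N - i) ∘ₗ expS ε (Shift.zero A p) (-lam) (n + i) -
        expS ε τ (-lam) (n + i) ∘ₗ gX ε τ 0 (m + N - i))) vac : VL ι) =
        (-((-1 : ℂ) ^ i * (N.choose i : ℂ))) • comC ε τ lam [] (n + i) (m + N - i) vac := by
      simp only [comC, cS, LinearMap.smul_apply, LinearMap.sub_apply, LinearMap.comp_apply, neg_smul,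
        smul_sub]
      abel
    rw [h4, pairV_smul_left]
    ring
  rw [Finset.sum_congr rfl fun i _ => h3 i, Finset.sum_neg_distrib, neg_eq_zero] at h2
  exact h2

theorem ft2_all (hA : IsADE A) (hp : 1 ≤ p) (ε : Cocycle A p) (τ : Shift A p)
    (hτ : τ.s = (2 : ℂ) • bg A p) (lam : ι → ℤ) (hl : Dom A lam) (v : VL ι) (hv : v ∈ W A p)
    (j : ℕ) : ∀ n : ℤ, -(j : ℤ) ≤ n → ∀ k : ℤ, pairV ε (comC ε τ lam [] n k vac) v = 0 := by
  induction j with
  | zero =>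
    intro n hn k
    have hn' : 0 ≤ n := by simpa using hn
    rcases le_or_gt (-1) k with h | h
    · exact ft2_pos hA hp ε τ hτ lam hl n k hn' h v hv
    · have h1 := ft2_nonneg hA hp ε τ hτ lam hl (-1 - k).toNat n hn' v hv
      have h2 : (-1 - (((-1 - k).toNat : ℕ) : ℤ)) = k := by omega
      rwa [h2] at h1
  | succ j ih =>
    intro n hn k
    rcases le_or_gt (-(j : ℤ)) n with h | h
    · exact ih n h k
    · obtain ⟨N, hN⟩ := ft2_loc hA ε τ lam
      have h1 := hN (k - N) n v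
      rw [Finset.sum_eq_single 0] at h1
      · simpa using h1
      · intro i _ hi
        rw [ih (n + i) (by push_cast at hn; omega), mul_zero]
      · intro h'
        exact absurd (Finset.mem_range.2 (Nat.succ_pos N)) h'

theorem comC_vac_nil (hA : IsADE A) (hp : 1 ≤ p) (ε : Cocycle A p) (τ : Shift A p)
    (hτ : τ.s = (2 : ℂ) • bg A p) (lam : ι → ℤ) (hl : Dom A lam) (n k : ℤ) (v : VL ι)
    (hv : v ∈ W A p) : pairV ε (comC ε τ lam [] n k vac) v = 0 :=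
  ft2_all hA hp ε τ hτ lam hl v hv (-n).toNat n (by omega) k

end

end WPQ
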