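import Pool.Agent.WPQ.FT2

/-! [WPQ-FT3] The commutators `[c_n, e^{2a}_k]` pair to zero on all words.

Plan.  `comC_word` by induction on the word `t` (for all `js`, `n`, `k`, `v ∈ W`).
`t = vac`: induction on `js`: `comC_E`, `Ej_vac`, `pairV_Ej`, `W_Ej`; base `comC_vac_nil`.
`t = E_j t'`: `comC js E_j = E_j comC js - comC (j::js)` (`comC_E`), `pairV (E_j x) v =
-pairV x (E_j v)`, induction hypotheses for `t'` with `js` and `j :: js`.
`t = e_s t'`, `e = expS (-λ')` (= `cS λ' []`): `X(n,k,s) = pairV (comC n k (e_s t')) v`,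
`comC n k ∘ e_s = e_s ∘ comC n k + [comC n k, e_s]`; the first part pairs to
`± pairV (comC n k t') (e_* v) = 0` (`pairV_expS`, `W_expS`); the second is
`[c_n, [C_k, e_s]] + [[c_n, e_s], C_k]` (as maps `V_L → V_{L+2a}`), killed by
`(T_n - T_s)^N (T_k - T_s)^N` (`cS_local_expS` on `V_L` and on `V_{L+2a}`, `gX_local`; common `N`).
So `(T_n - T_s)^N (T_k - T_s)^N X = 0`, and `X(n,k,s) = 0` for `s ≥ s₀` (`isFld_expS`); the expansion
contains `X(n+N,k+N,s)` once (coefficient 1) and otherwise third arguments `> s`; downward induction on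
`s`. -/

namespace WPQ

open MvPolynomial AF

noncomputable section

variable {ι : Type} [Fintype ι] [DecidableEq ι] {A : Matrix ι ι ℤ} {p : ℕ}

/-- The pairing with a fixed vector as a linear functional. -/
def ft3_psi (ε : Cocycle A p) (v : VL ι) : VL ι →ₗ[ℂ] ℂ where
  toFun t := pairV ε t v
  map_add' t t' := pairV_add_left ε t t' v
  map_smul' c t := by
    rw [pairV_smul_left, RingHom.id_apply, smul_eq_mul]

theorem ft3_psi_apply (ε : Cocycle A p) (v t : VL ι) : ft3_psi ε v t = pairV ε t v := rfl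

/-- Downward induction in the third variable. -/
theorem ft3_down (N : ℕ) (X : ℤ → ℤ → ℤ → ℂ)
    (h : ∀ n k s : ℤ, ∑ i ∈ Finset.range (N + 1), ∑ j ∈ Finset.range (N + 1),
      ((-1 : ℂ) ^ i * (N.choose i : ℂ)) * (((-1 : ℂ) ^ j * (N.choose j : ℂ)) *
        X (n + N - i) (k + N - j) (s + i + j)) = 0)
    (s0 : ℤ) (hs : ∀ n k s : ℤ, s0 ≤ s → X n k s = 0) (n k s : ℤ) : X n k s = 0 := by
  have key : ∀ d : ℕ, ∀ n k s : ℤ, s0 ≤ s + d → X n k s = 0 := by
    intro d
    induction d with
    | zero =>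
      intro n k s hd
      exact hs n k s (by push_cast at hd; omega)
    | succ d ih =>
      intro n k s hd
      have h1 := h (n - N) (k - N) s
      have hz : ∀ i j : ℕ, ¬ (i = 0 ∧ j = 0) →
          X (n - N + N - i) (k - N + N - j) (s + i + j) = 0 := by
        intro i j hij
        apply ih
        push_cast at hd ⊢
        omega
      rw [Finset.sum_eq_single 0, Finset.sum_eq_single 0] at h1
      · simpa using h1
      · intro j _ hj
        rw [hz 0 j (fun hh => hj hh.2)]
        ring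
      · intro hh
        exact absurd (Finset.mem_range.mpr (Nat.succ_pos N)) hh
      · intro i _ hi
        apply Finset.sum_eq_zero
        intro j _
        rw [hz i j (fun hh => hi hh.1)]
        ring
      · intro hh
        exact absurd (Finset.mem_range.mpr (Nat.succ_pos N)) hh
  exact key (s0 - s).toNat n k s (by omega)

/-- The product of two difference operators kills the sum of two functions. -/
theorem ft3_kill (N : ℕ) (c : ℕ → ℂ) (X U V : ℤ → ℤ → ℤ → ℂ)
    (hX : ∀ n k s, X n k s = U n k s + V n k s)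
    (hU : ∀ a k s : ℤ, ∑ j ∈ Finset.range (N + 1), c j * U a (k + N - j) (s + j) = 0)
    (hV : ∀ n b s : ℤ, ∑ i ∈ Finset.range (N + 1), c i * V (n + N - i) b (s + i) = 0)
    (n k s : ℤ) :
    ∑ i ∈ Finset.range (N + 1), ∑ j ∈ Finset.range (N + 1),
      c i * (c j * X (n + N - i) (k + N - j) (s + i + j)) = 0 := by
  have e1 : ∑ i ∈ Finset.range (N + 1), ∑ j ∈ Finset.range (N + 1),
      c i * (c j * U (n + N - i) (k + N - j) (s + i + j)) = 0 := by
    apply Finset.sum_eq_zero
    intro i _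
    rw [← Finset.mul_sum, hU, mul_zero]
  have e2 : ∑ i ∈ Finset.range (N + 1), ∑ j ∈ Finset.range (N + 1),
      c i * (c j * V (n + N - i) (k + N - j) (s + i + j)) = 0 := by
    rw [Finset.sum_comm]
    apply Finset.sum_eq_zero
    intro j _
    have h2 := hV n (k + N - j) (s + j)
    calc ∑ i ∈ Finset.range (N + 1), c i * (c j * V (n + N - i) (k + N - j) (s + i + j))
        = c j * ∑ i ∈ Finset.range (N + 1), c i * V (n + N - i) (k + N - j) (s + j + i) := by
          rw [Finset.mul_sum]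
          apply Finset.sum_congr rfl
          intro i _
          rw [show s + (i : ℤ) + (j : ℤ) = s + j + i by ring]
          ring
      _ = 0 := by rw [h2, mul_zero]
  calc ∑ i ∈ Finset.range (N + 1), ∑ j ∈ Finset.range (N + 1),
      c i * (c j * X (n + N - i) (k + N - j) (s + i + j))
      = ∑ i ∈ Finset.range (N + 1), ∑ j ∈ Finset.range (N + 1),
        c i * (c j * U (n + N - i) (k + N - j) (s + i + j)) +
        ∑ i ∈ Finset.range (N + 1), ∑ j ∈ Finset.range (N + 1),
        c i * (c j * V (n + N - i) (k + N - j) (s + i + j)) := by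
        rw [← Finset.sum_add_distrib]
        apply Finset.sum_congr rfl
        intro i _
        rw [← Finset.sum_add_distrib]
        apply Finset.sum_congr rfl
        intro j _
        rw [hX]
        ring
    _ = 0 := by rw [e1, e2, add_zero]

omit [Fintype ι] [DecidableEq ι] in
/-- A linear functional applied to the locality relation. -/
theorem ft3_loc {N : ℕ} {a : ℤ → VL ι →ₗ[ℂ] VL ι} {b b' : ℤ → VL ι →ₗ[ℂ] VL ι}
    (h : LocP N a b b') (ψ : VL ι →ₗ[ℂ] ℂ) (x : VL ι) (m n : ℤ) :
    ∑ k ∈ Finset.range (N + 1), ((-1 : ℂ) ^ k * (N.choose k : ℂ)) *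
      (ψ (a (m + N - k) (b (n + k) x)) - ψ (b' (n + k) (a (m + N - k) x))) = 0 := by
  have h1 := congrArg (fun f : VL ι →ₗ[ℂ] VL ι => ψ (f x)) (h m n)
  simp only [LinearMap.zero_apply, map_zero] at h1
  rw [← h1, LinearMap.sum_apply, map_sum]
  apply Finset.sum_congr rfl
  intro k _
  rw [LinearMap.smul_apply, map_smul, LinearMap.sub_apply, map_sub, LinearMap.comp_apply,
    LinearMap.comp_apply, smul_eq_mul]

theorem comC_word (hA : IsADE A) (hp : 2 ≤ p) (ε : Cocycle A p) (τ : Shift A p)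
    (hτ : τ.s = (2 : ℂ) • bg A p) (lam : ι → ℤ) (hl : Dom A lam) (t : VL ι) (ht : IsWord ε t)
    (js : List ι) (n k : ℤ) (v : VL ι) (hv : v ∈ W A p) :
    pairV ε (comC ε τ lam js n k t) v = 0 := by
  have hp1 : 1 ≤ p := by omega
  induction ht generalizing js n k v with
  | vac =>
    induction js generalizing n k v with
    | nil => exact comC_vac_nil hA hp1 ε τ hτ lam hl n k v hv
    | cons j js ih =>
      rw [comC_E hA hp1 ε τ hτ lam js j n k]
      have h1 : ft3_psi ε v ((Ej ε τ j ∘ₗ comC ε τ lam js n k -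
          comC ε τ lam js n k ∘ₗ Ej ε (Shift.zero A p) j) vac) = 0 := by
        rw [LinearMap.sub_apply, map_sub, LinearMap.comp_apply, LinearMap.comp_apply,
          Ej_vac, map_zero, map_zero, sub_zero, ft3_psi_apply,
          pairV_Ej hA hp1 ε τ hτ, ih n k _ (W_Ej hA hp ε j v hv), neg_zero]
      exact h1
  | ej j w hw ih =>
    have h1 := congrArg (fun f : VL ι →ₗ[ℂ] VL ι => ft3_psi ε v (f w))
      (comC_E hA hp1 ε τ hτ lam js j n k)
    simp only [LinearMap.sub_apply, map_sub, LinearMap.comp_apply] at h1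
    simp only [ft3_psi_apply] at h1
    rw [pairV_Ej hA hp1 ε τ hτ, ih js n k _ (W_Ej hA hp ε j v hv), ih (j :: js) n k v hv] at h1
    have h2 : pairV ε (comC ε τ lam js n k (Ej ε (Shift.zero A p) j w)) v = 0 := by
      linear_combination h1
    exact h2
  | ex lam' hl' m w hw ih =>
    obtain ⟨N1, h1⟩ := cS_local_expS hA ε (Shift.zero A p) lam js (-lam')
    obtain ⟨N2, h2⟩ := cS_local_expS hA ε τ lam js (-lam')
    obtain ⟨N3, h3⟩ := gX_local hA.symm ε τ 0 (-lam')
    obtain ⟨s0, hs0⟩ := isFld_expS ε (Shift.zero A p) (-lam') w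
    set N : ℕ := N1 + N2 + N3 with hN
    have h1' : LocP N (cS ε (Shift.zero A p) lam js) (expS ε (Shift.zero A p) (-lam'))
        (expS ε (Shift.zero A p) (-lam')) := LocP.mono (by omega) h1
    have h2' : LocP N (cS ε τ lam js) (expS ε τ (-lam')) (expS ε τ (-lam')) :=
      LocP.mono (by omega) h2
    have h3' : LocP N (gX ε τ 0) (expS ε (Shift.zero A p) (-lam')) (expS ε τ (-lam')) :=
      LocP.mono (by omega) h3
    obtain ⟨ψ, hψ⟩ : ∃ ψ : VL ι →ₗ[ℂ] ℂ, ψ = ft3_psi ε v := ⟨_, rfl⟩
    obtain ⟨c, hc⟩ : ∃ c : ℤ → VL ι →ₗ[ℂ] VL ι, c = cS ε (Shift.zero A p) lam js := ⟨_, rfl⟩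
    obtain ⟨c', hc'⟩ : ∃ c' : ℤ → VL ι →ₗ[ℂ] VL ι, c' = cS ε τ lam js := ⟨_, rfl⟩
    obtain ⟨e, he⟩ : ∃ e : ℤ → VL ι →ₗ[ℂ] VL ι, e = expS ε (Shift.zero A p) (-lam') := ⟨_, rfl⟩
    obtain ⟨e', he'⟩ : ∃ e' : ℤ → VL ι →ₗ[ℂ] VL ι, e' = expS ε τ (-lam') := ⟨_, rfl⟩
    obtain ⟨g, hg⟩ : ∃ g : ℤ → VL ι →ₗ[ℂ] VL ι, g = gX ε τ 0 := ⟨_, rfl⟩
    have hcom : ∀ (n k : ℤ) (x : VL ι), comC ε τ lam js n k x = c' n (g k x) - g k (c n x) := by
      intro n k x
      rw [hc, hc', hg]
      rfl
    have e0 : ∀ n k s : ℤ, ψ (e' s (c' n (g k w) - g k (c n w))) = 0 := by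
      intro n k s
      rw [← hcom, hψ, ft3_psi_apply, he', pairV_expS hA hp1 ε τ hτ,
        ih js n k _ (W_expS hA hp1 ε lam' hl' _ v hv), mul_zero]
    rw [← hc, ← he] at h1'
    rw [← hc', ← he'] at h2'
    rw [← hg, ← he, ← he'] at h3'
    rw [← he] at hs0
    have hgoal : ψ (c' n (g k (e m w)) - g k (c n (e m w))) = 0 := by
      refine ft3_down N (fun n k s => ψ (c' n (g k (e s w)) - g k (c n (e s w))))
        (ft3_kill N (fun i => (-1 : ℂ) ^ i * (N.choose i : ℂ))
          (fun n k s => ψ (c' n (g k (e s w)) - g k (c n (e s w))))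
          (fun n k s => (ψ (c' n (g k (e s w))) - ψ (c' n (e' s (g k w)))) -
            (ψ (g k (e s (c n w))) - ψ (e' s (g k (c n w)))))
          (fun n k s => (ψ (c' n (e' s (g k w))) - ψ (e' s (c' n (g k w)))) -
            (ψ (g k (c n (e s w))) - ψ (g k (e s (c n w))))) ?_ ?_ ?_) s0 ?_ n k m
      · intro n k s
        have e1 := e0 n k s
        simp only [map_sub] at e1 ⊢
        linear_combination e1
      · intro a k s
        have g1 := ft3_loc h3' (ψ ∘ₗ c' a) w k s
        have g2 := ft3_loc h3' ψ (c a w) k s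
        simp only [LinearMap.comp_apply] at g1
        have g3 := sub_eq_zero.mpr (g1.trans g2.symm)
        rw [← Finset.sum_sub_distrib] at g3
        rw [← g3]
        apply Finset.sum_congr rfl
        intro i _
        ring
      · intro n b s
        have g1 := ft3_loc h2' ψ (g b w) n s
        have g2 := ft3_loc h1' (ψ ∘ₗ g b) w n s
        simp only [LinearMap.comp_apply] at g2
        have g3 := sub_eq_zero.mpr (g1.trans g2.symm)
        rw [← Finset.sum_sub_distrib] at g3
        rw [← g3]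
        apply Finset.sum_congr rfl
        intro i _
        ring
      · intro n k s hs
        have e1 : e s w = 0 := hs0 s hs
        show ψ (c' n (g k (e s w)) - g k (c n (e s w))) = 0
        rw [e1, map_zero, map_zero, map_zero, map_zero, sub_zero, map_zero]
    rw [← he]
    rw [← hcom, hψ, ft3_psi_apply] at hgoal
    exact hgoal

end

end WPQ
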