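import Pool.Agent.WPQ.FT3

/-! [WPQ-FT4] Properties of `beta`.

Plan.  `beta t v = pairV (C_{-1} t) v`, `C_k = gX ε τ 0 k`.  All statements for `t ∈ UU` by
`Submodule.span_induction` from words.  `C_cS`: `pairV (C_k c_n t) v = pairV (c_n C_k t) v`
(`comC_word`) `= ± pairV (C_k t) (c_{2Δ-2-n} v)` (`pairV_cS`).
`C_vanish` (`m ≠ -1`): induction on the word, the adjoint letters keep `v ∈ W`; for `t = vac`:
`m ≥ 0`: `C_m vac = 0`; `m < -1`: `C_m vac` is a multiple of `L(-1) C_{m+1} vac` (`cov_gX`,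
`LS_vac`), so the pairing is a multiple of `pairV (C_{m+1} vac) (L(1) v)`; by induction it reduces to
`pairV vac (L(1) v') = top0 (L(1) v') = 0`, `v' ∈ W`.
`beta_LS`: `LS_gX` with `β = 0`: `Δ(2a) = 0` (`form (2a) (2a)/2 = form a (2a)`), so
`[L(k), C_{-1}] = -k C_{k-1}`, and the extra term vanishes by `C_vanish`.
`beta_single`: `C_{-1} (single γ f) = ± single γ (vop (2a) (-τ.dot γ) f)`, `pairF_homog`,
`τ.dot γ = 2(p-1) ∑ γ_i`. -/

namespace WPQ

open MvPolynomial AF

noncomputable section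

variable {ι : Type} [Fintype ι] [DecidableEq ι] {A : Matrix ι ι ℤ} {p : ℕ}

theorem ft4_pairV_zero_left (ε : Cocycle A p) (v : VL ι) : pairV ε 0 v = 0 := by
  have h := pairV_smul_left ε 0 (0 : VL ι) v
  rw [zero_smul, zero_mul] at h
  exact h

theorem ft4_pairV_sub_left (ε : Cocycle A p) (t t' v : VL ι) :
    pairV ε (t - t') v = pairV ε t v - pairV ε t' v := by
  have h := pairV_add_left ε (t - t') t' v
  rw [sub_add_cancel] at h
  rw [h]
  ring

theorem ft4_pairF_zero_left (f : Fock ι) : pairF A p 0 f = 0 := by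
  have h := pairF_smul_left A p 0 (0 : Fock ι) f
  rw [zero_smul, zero_mul] at h
  exact h

theorem ft4_pairF_zero_right (f : Fock ι) : pairF A p f 0 = 0 := by
  have h := pairF_smul_right A p 0 f (0 : Fock ι)
  rw [zero_smul, zero_mul] at h
  exact h

theorem beta_add_left (ε : Cocycle A p) (τ : Shift A p) (t t' v : VL ι) :
    beta ε τ (t + t') v = beta ε τ t v + beta ε τ t' v := by
  unfold beta
  rw [map_add, pairV_add_left]

theorem beta_add_right (ε : Cocycle A p) (τ : Shift A p) (t v v' : VL ι) :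
    beta ε τ t (v + v') = beta ε τ t v + beta ε τ t v' := by
  unfold beta
  rw [pairV_add_right]

theorem beta_smul_left (ε : Cocycle A p) (τ : Shift A p) (c : ℂ) (t v : VL ι) :
    beta ε τ (c • t) v = c * beta ε τ t v := by
  unfold beta
  rw [map_smul, pairV_smul_left]

theorem beta_smul_right (ε : Cocycle A p) (τ : Shift A p) (c : ℂ) (t v : VL ι) :
    beta ε τ t (c • v) = c * beta ε τ t v := by
  unfold beta
  rw [pairV_smul_right]

theorem beta_vac (ε : Cocycle A p) (τ : Shift A p) (v : VL ι) : beta ε τ vac v = top0 v := by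
  unfold beta
  rw [gX_creation]
  exact pairV_vac ε v

theorem ft4_C_vac_neg (hA : IsADE A) (hp : 2 ≤ p) (ε : Cocycle A p) (τ : Shift A p)
    (hτ : τ.s = (2 : ℂ) • bg A p) (k : ℕ) : ∀ v : VL ι, v ∈ W A p →
    pairV ε (gX ε τ 0 (-2 - (k : ℤ)) vac) v = 0 := by
  have hp1 : 1 ≤ p := by omega
  have key : ∀ (n : ℤ) (v : VL ι), pairV ε (gX ε τ 0 n vac) (LS (Shift.zero A p) 1 v) =
      (-n : ℂ) * pairV ε (gX ε τ 0 (n - 1) vac) v := by
    intro n v
    have h := cov_gX hA hp1 ε τ 0 n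
    have h2 := congrArg (fun F => pairV ε (F vac) v) h
    simp only [LinearMap.sub_apply, LinearMap.comp_apply, LinearMap.smul_apply] at h2
    rw [LS_vac (-1) (by norm_num), map_zero, sub_zero, pairV_smul_left,
      pairV_LS hA hp1 ε τ hτ] at h2
    rw [← h2]
    norm_num
  induction k with
  | zero =>
    intro v hv
    have h := key (-1) v
    rw [gX_creation] at h
    have h3 : pairV ε (Finsupp.single (0 : ι → ℤ) (1 : Fock ι)) (LS (Shift.zero A p) 1 v) = 0 := by
      have := pairV_vac ε (LS (Shift.zero A p) 1 v)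
      rw [top0_LS_one hA hp1 v hv] at this
      exact this
    rw [h3] at h
    have e : (-2 - ((0 : ℕ) : ℤ)) = -1 - 1 := by norm_num
    rw [e]
    have e2 : (-((-1 : ℤ) : ℂ)) = 1 := by norm_num
    rw [e2, one_mul] at h
    exact h.symm
  | succ k ih =>
    intro v hv
    have h := key (-2 - (k : ℤ)) v
    rw [ih _ (W_LS hA hp1 1 v hv)] at h
    have e : (-2 - ((k + 1 : ℕ) : ℤ)) = -2 - (k : ℤ) - 1 := by push_cast; ring
    rw [e]
    have hne : (-((-2 - (k : ℤ) : ℤ) : ℂ)) ≠ 0 := by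
      have : ((-((-2 - (k : ℤ))) : ℤ) : ℂ) ≠ 0 := by
        exact_mod_cast (by omega : (-((-2 - (k : ℤ))) : ℤ) ≠ 0)
      simpa using this
    rcases mul_eq_zero.mp h.symm with h4 | h4
    · exact absurd h4 hne
    · exact h4

theorem ft4_C_vac (hA : IsADE A) (hp : 2 ≤ p) (ε : Cocycle A p) (τ : Shift A p)
    (hτ : τ.s = (2 : ℂ) • bg A p) (m : ℤ) (hm : m ≠ -1) (v : VL ι)
    (hv : v ∈ W A p) : pairV ε (gX ε τ 0 m vac) v = 0 := by
  by_cases h0 : 0 ≤ m
  · rw [gX_vac_nonneg ε τ 0 m h0]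
    exact ft4_pairV_zero_left ε v
  · obtain ⟨k, hk⟩ := Int.eq_ofNat_of_zero_le (show 0 ≤ -2 - m by omega)
    have e : m = -2 - (k : ℤ) := by omega
    rw [e]
    exact ft4_C_vac_neg hA hp ε τ hτ k v hv

theorem ft4_C_word (hA : IsADE A) (hp : 2 ≤ p) (ε : Cocycle A p) (τ : Shift A p)
    (hτ : τ.s = (2 : ℂ) • bg A p) (m : ℤ) (hm : m ≠ -1) (t : VL ι) (ht : IsWord ε t) :
    ∀ v : VL ι, v ∈ W A p → pairV ε (gX ε τ 0 m t) v = 0 := by
  have hp1 : 1 ≤ p := by omega
  induction ht with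
  | vac =>
    intro v hv
    exact ft4_C_vac hA hp ε τ hτ m hm v hv
  | ej j w hw ih =>
    intro v hv
    have h := congrArg (fun F => F w) (C_Ej hA hp1 ε τ hτ j m)
    simp only [LinearMap.comp_apply] at h
    rw [h, pairV_Ej hA hp1 ε τ hτ, ih _ (W_Ej hA hp ε j v hv), neg_zero]
  | ex lam hl n w hw ih =>
    intro v hv
    have h := comC_word hA hp ε τ hτ lam hl w hw [] n m v hv
    have h2 : comC ε τ lam [] n m w = expS ε τ (-lam) n (gX ε τ 0 m w) -
        gX ε τ 0 m (expS ε (Shift.zero A p) (-lam) n w) := rfl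
    rw [h2, ft4_pairV_sub_left, pairV_expS hA hp1 ε τ hτ,
      ih _ (W_expS hA hp1 ε lam hl _ v hv), mul_zero, zero_sub, neg_eq_zero] at h
    exact h

theorem C_vanish (hA : IsADE A) (hp : 2 ≤ p) (ε : Cocycle A p) (τ : Shift A p)
    (hτ : τ.s = (2 : ℂ) • bg A p) (m : ℤ) (hm : m ≠ -1) (t v : VL ι) (ht : t ∈ UU ε)
    (hv : v ∈ W A p) : pairV ε (gX ε τ 0 m t) v = 0 := by
  unfold UU at ht
  induction ht using Submodule.span_induction with
  | mem x hx => exact ft4_C_word hA hp ε τ hτ m hm x hx v hv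
  | zero => rw [map_zero]; exact ft4_pairV_zero_left ε v
  | add x y hx hy ihx ihy => rw [map_add, pairV_add_left, ihx, ihy, add_zero]
  | smul c x hx ih => rw [map_smul, pairV_smul_left, ih, mul_zero]

theorem beta_cS (hA : IsADE A) (hp : 2 ≤ p) (ε : Cocycle A p) (τ : Shift A p)
    (hτ : τ.s = (2 : ℂ) • bg A p) (lam : ι → ℤ) (hl : Dom A lam) (js : List ι) (n : ℤ)
    (t v : VL ι) (ht : t ∈ UU ε) (hv : v ∈ W A p) :
    beta ε τ (cS ε (Shift.zero A p) lam js n t) v =
      (((Int.negOnePow (wtExp A p (-lam))) : ℤ) : ℂ) *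
      beta ε τ t (cS ε (Shift.zero A p) lam js (2 * wtExp A p (-lam) - 2 - n) v) := by
  have hp1 : 1 ≤ p := by omega
  unfold beta
  rw [← pairV_cS hA hp1 ε τ hτ]
  unfold UU at ht
  induction ht using Submodule.span_induction with
  | mem x hx =>
    have h := comC_word hA hp ε τ hτ lam hl x hx js n (-1) v hv
    have h2 : comC ε τ lam js n (-1) x = cS ε τ lam js n (gX ε τ 0 (-1) x) -
        gX ε τ 0 (-1) (cS ε (Shift.zero A p) lam js n x) := rfl
    rw [h2, ft4_pairV_sub_left, sub_eq_zero] at h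
    exact h.symm
  | zero => simp only [map_zero]
  | add x y hx hy ihx ihy => simp only [map_add, pairV_add_left, ihx, ihy]
  | smul c x hx ih => simp only [map_smul, pairV_smul_left, ih]

theorem beta_Ej (hA : IsADE A) (hp : 1 ≤ p) (ε : Cocycle A p) (τ : Shift A p)
    (hτ : τ.s = (2 : ℂ) • bg A p) (j : ι) (t v : VL ι) :
    beta ε τ (Ej ε (Shift.zero A p) j t) v = -beta ε τ t (Ej ε (Shift.zero A p) j v) := by
  unfold beta
  have h := congrArg (fun F => F t) (C_Ej hA hp ε τ hτ j (-1))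
  simp only [LinearMap.comp_apply] at h
  rw [h, pairV_Ej hA hp ε τ hτ]

theorem ft4_form_smul_left (c : ℂ) (x y : ι → ℂ) : form A p (c • x) y = c * form A p x y := by
  unfold form
  simp only [Finset.mul_sum, Pi.smul_apply, smul_eq_mul]
  refine Finset.sum_congr rfl fun i _ => Finset.sum_congr rfl fun j _ => ?_
  ring

theorem ft4_form_smul_right (c : ℂ) (x y : ι → ℂ) : form A p x (c • y) = c * form A p x y := by
  unfold form
  simp only [Finset.mul_sum, Pi.smul_apply, smul_eq_mul]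
  refine Finset.sum_congr rfl fun i _ => Finset.sum_congr rfl fun j _ => ?_
  ring

theorem ft4_toC_zero : toC (0 : ι → ℤ) = 0 := by
  funext i
  simp [toC]

theorem beta_LS (hA : IsADE A) (hp : 2 ≤ p) (ε : Cocycle A p) (τ : Shift A p)
    (hτ : τ.s = (2 : ℂ) • bg A p) (k : ℤ) (t v : VL ι) (ht : t ∈ UU ε) (hv : v ∈ W A p) :
    beta ε τ (LS (Shift.zero A p) k t) v = beta ε τ t (LS (Shift.zero A p) (-k) v) := by
  have hp1 : 1 ≤ p := by omega
  unfold beta
  have h := congrArg (fun F => F t) (LS_gX hA hp1 ε τ 0 k (-1))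
  simp only [LinearMap.sub_apply, LinearMap.comp_apply, LinearMap.smul_apply] at h
  have hs : (((k : ℂ) + 1) * ((1 / 2 : ℂ) * form A p (τ.s + toC 0) (τ.s + toC 0) -
        form A p (bg A p) (τ.s + toC 0) - 1) - ((-1 : ℤ) : ℂ)) = -(k : ℂ) := by
    rw [ft4_toC_zero, add_zero, hτ, ft4_form_smul_left, ft4_form_smul_right]
    push_cast
    ring
  rw [hs] at h
  have h2 := congrArg (fun F => pairV ε F v) h
  simp only [ft4_pairV_sub_left, pairV_smul_left] at h2
  have h3 : (k : ℂ) * pairV ε (gX ε τ 0 (-1 + k) t) v = 0 := by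
    by_cases hk : k = 0
    · rw [hk, Int.cast_zero, zero_mul]
    · rw [C_vanish hA hp ε τ hτ (-1 + k) (by omega) t v ht hv, mul_zero]
  rw [neg_mul, h3, neg_zero, sub_eq_zero, pairV_LS hA hp1 ε τ hτ] at h2
  exact h2.symm

theorem ft4_pairV_single (ε : Cocycle A p) (γ : ι → ℤ) (f : Fock ι) (v : VL ι) :
    pairV ε (Finsupp.single γ f) v = sgn ε (-γ) * pairF A p f (v (-γ)) := by
  unfold pairV
  rw [Finsupp.sum_single_index]
  rw [ft4_pairF_zero_left, mul_zero]

theorem ft4_formZ_zero (γ : ι → ℤ) : formZ A p 0 γ = 0 := by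
  simp [formZ]

theorem ft4_wt_neg (γ : ι → ℤ) :
    wtExp A p (-γ) = wtExp A p γ + 2 * ((p : ℤ) - 1) * ∑ i, γ i := by
  unfold wtExp
  have h1 : formZ A p (-γ) (-γ) = formZ A p γ γ := by
    unfold formZ
    congr 1
    refine Finset.sum_congr rfl fun i _ => Finset.sum_congr rfl fun j _ => ?_
    rw [Pi.neg_apply, Pi.neg_apply]
    ring
  have h2 : (∑ i, (-γ) i) = -∑ i, γ i := by
    rw [← Finset.sum_neg_distrib]
    rfl
  rw [h1, h2]
  ring

theorem ft4_tau_dot (hA : IsADE A) (hp : 1 ≤ p) (τ : Shift A p) (hτ : τ.s = (2 : ℂ) • bg A p)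
    (γ : ι → ℤ) : τ.dot γ = 2 * ((p : ℤ) - 1) * ∑ i, γ i := by
  unfold Shift.dot
  rw [Finset.mul_sum]
  refine Finset.sum_congr rfl fun i _ => ?_
  rw [tau_kappa hA hp τ hτ i]
  ring

theorem beta_single (hA : IsADE A) (hp : 1 ≤ p) (ε : Cocycle A p) (τ : Shift A p)
    (hτ : τ.s = (2 : ℂ) • bg A p) (γ δ : ι → ℤ) (f g : Fock ι) (d e : ℕ) (hf : FH f d)
    (hg : FH g e) (h : δ ≠ -γ ∨ (d : ℤ) + wtExp A p γ ≠ (e : ℤ) + wtExp A p δ) :
    beta ε τ (Finsupp.single γ f) (Finsupp.single δ g) = 0 := by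
  unfold beta
  rw [gX_single, ft4_pairV_single, zero_add]
  by_cases hδ : δ = -γ
  · subst hδ
    rw [Finsupp.single_eq_same, pairF_smul_left]
    have hne : (d : ℤ) + wtExp A p γ ≠ (e : ℤ) + wtExp A p (-γ) := by
      rcases h with h | h
      · exact absurd rfl h
      · exact h
    rw [ft4_wt_neg, ← ft4_tau_dot hA hp τ hτ] at hne
    rw [ft4_formZ_zero]
    have e1 : (-(-1) - 1 - τ.dot γ - 0 : ℤ) = -τ.dot γ := by ring
    rw [e1]
    by_cases hd : (d : ℤ) + -τ.dot γ < 0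
    · rw [vop_eq_zero A p _ _ f d hf hd, ft4_pairF_zero_left, mul_zero, mul_zero]
    · obtain ⟨c, hc⟩ := Int.eq_ofNat_of_zero_le (not_lt.mp hd)
      have hc' : (c : ℤ) = d + -τ.dot γ := hc.symm
      rw [pairF_homog A p _ g c e (vop_homog A p _ _ f d c hf hc') hg (by
        intro hce
        apply hne
        rw [hce] at hc'
        linarith), mul_zero, mul_zero]
  · rw [Finsupp.single_eq_of_ne (Ne.symm hδ), ft4_pairF_zero_right, mul_zero]

theorem UU_Ej (ε : Cocycle A p) (j : ι) (t : VL ι) (ht : t ∈ UU ε) :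
    Ej ε (Shift.zero A p) j t ∈ UU ε := by
  unfold UU at ht ⊢
  induction ht using Submodule.span_induction with
  | mem x hx => exact Submodule.subset_span (IsWord.ej j x hx)
  | zero => rw [map_zero]; exact Submodule.zero_mem _
  | add x y hx hy ihx ihy => rw [map_add]; exact Submodule.add_mem _ ihx ihy
  | smul c x hx ih => rw [map_smul]; exact Submodule.smul_mem _ c ih

theorem ft4_UU_expS (ε : Cocycle A p) (lam : ι → ℤ) (hl : Dom A lam) (n : ℤ) (t : VL ι)
    (ht : t ∈ UU ε) : expS ε (Shift.zero A p) (-lam) n t ∈ UU ε := by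
  unfold UU at ht ⊢
  induction ht using Submodule.span_induction with
  | mem x hx => exact Submodule.subset_span (IsWord.ex lam hl n x hx)
  | zero => rw [map_zero]; exact Submodule.zero_mem _
  | add x y hx hy ihx ihy => rw [map_add]; exact Submodule.add_mem _ ihx ihy
  | smul c x hx ih => rw [map_smul]; exact Submodule.smul_mem _ c ih

theorem UU_cS (ε : Cocycle A p) (lam : ι → ℤ) (hl : Dom A lam) (js : List ι) (n : ℤ) (t : VL ι)
    (ht : t ∈ UU ε) : cS ε (Shift.zero A p) lam js n t ∈ UU ε := by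
  induction js generalizing t with
  | nil => exact ft4_UU_expS ε lam hl n t ht
  | cons j js ih =>
    have h2 : cS ε (Shift.zero A p) lam (j :: js) n t =
        Ej ε (Shift.zero A p) j (cS ε (Shift.zero A p) lam js n t) -
          cS ε (Shift.zero A p) lam js n (Ej ε (Shift.zero A p) j t) := rfl
    rw [h2]
    exact Submodule.sub_mem _ (UU_Ej ε j _ (ih t ht)) (ih _ (UU_Ej ε j t ht))

theorem UU_le_W (hA : IsADE A) (hp : 2 ≤ p) (ε : Cocycle A p) : UU ε ≤ W A p := by
  unfold UU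
  rw [Submodule.span_le]
  intro w hw
  exact word_mem_W hA hp ε w hw

end

end WPQ
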