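import Pool.Agent.WPQ.Ops

/-! [WPQ-FW1] The coefficients `expCoeff ν n` of `exp (∑_k osc ν k z^(k+1))`.

Plan: all by strong induction from the recursion `expCoeff_succ`, or through the power series
`E = ∑ expCoeff ν n z^n` over `Fock ι` with `E' = (∑ (k+1) osc ν k z^k) E`, `E(0) = 1`, which
determines `E` (characteristic zero).  `expCoeff_ne_zero`: if `ν i ≠ 0` the coefficient of
`X (i,0)^n` in `expCoeff ν n` is `(ν i)^n / n!`. -/

namespace WPQ

open MvPolynomial

noncomputable section

variable {ι : Type} [Fintype ι] [DecidableEq ι]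


theorem expCoeff_zero (ν : ι → ℂ) : expCoeff ν 0 = 1 := by
  rw [expCoeff]

theorem expCoeff_succ (ν : ι → ℂ) (n : ℕ) :
    C ((n : ℂ) + 1) * expCoeff ν (n + 1) =
      ∑ k ∈ Finset.range (n + 1), C ((k : ℂ) + 1) * osc ν k * expCoeff ν (n - k) := by
  have h0 : ((n : ℂ) + 1) ≠ 0 := by exact_mod_cast Nat.succ_ne_zero n
  have h1 : (C ((n : ℂ) + 1) * C (((n : ℂ) + 1)⁻¹) : Fock ι) = 1 := by
    rw [← C_mul, mul_inv_cancel₀ h0, C_1]
  rw [expCoeff, ← mul_assoc, h1, one_mul,
    Fin.sum_univ_eq_sum_range (fun k => C ((k : ℂ) + 1) * osc ν k * expCoeff ν (n - k)) (n + 1)]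

/-- cancellation of a positive integer -/
theorem fw1_cancel (n : ℕ) {a b : Fock ι} (h : C ((n : ℂ) + 1) * a = C ((n : ℂ) + 1) * b) :
    a = b := by
  have h0 : ((n : ℂ) + 1) ≠ 0 := by exact_mod_cast Nat.succ_ne_zero n
  have h1 : (C (((n : ℂ) + 1)⁻¹) * C ((n : ℂ) + 1) : Fock ι) = 1 := by
    rw [← C_mul, inv_mul_cancel₀ h0, C_1]
  calc a = C (((n : ℂ) + 1)⁻¹) * (C ((n : ℂ) + 1) * a) := by rw [← mul_assoc, h1, one_mul]
    _ = b := by rw [h, ← mul_assoc, h1, one_mul]

theorem fw1_uniq (o a b : ℕ → Fock ι) (h0 : a 0 = b 0)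
    (ha : ∀ n : ℕ, C ((n : ℂ) + 1) * a (n + 1) = ∑ k ∈ Finset.range (n + 1), o k * a (n - k))
    (hb : ∀ n : ℕ, C ((n : ℂ) + 1) * b (n + 1) = ∑ k ∈ Finset.range (n + 1), o k * b (n - k))
    (n : ℕ) : a n = b n := by
  induction n using Nat.strong_induction_on with
  | _ n ih =>
    cases n with
    | zero => exact h0
    | succ n =>
      refine fw1_cancel n ?_
      rw [ha, hb]
      refine Finset.sum_congr rfl fun k _ => ?_
      rw [ih (n - k) (by omega)]

theorem fw1_osc_add (ν η : ι → ℂ) (k : ℕ) : osc (ν + η) k = osc ν k + osc η k := by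
  unfold osc
  rw [← Finset.sum_add_distrib]
  refine Finset.sum_congr rfl fun i _ => ?_
  rw [Pi.add_apply, C_add, add_mul]

/-- the generating series -/
def fw1_E (ν : ι → ℂ) : PowerSeries (Fock ι) := PowerSeries.mk (expCoeff ν)

/-- the logarithmic derivative -/
def fw1_O (ν : ι → ℂ) : PowerSeries (Fock ι) :=
  PowerSeries.mk fun k => C ((k : ℂ) + 1) * osc ν k

theorem fw1_coeff_mul (o g : PowerSeries (Fock ι)) (n : ℕ) :
    PowerSeries.coeff n (o * g) =
      ∑ k ∈ Finset.range (n + 1), PowerSeries.coeff k o * PowerSeries.coeff (n - k) g := by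
  rw [PowerSeries.coeff_mul, Finset.Nat.sum_antidiagonal_eq_sum_range_succ_mk]

theorem fw1_natC (n : ℕ) : ((n : Fock ι) + 1) = C ((n : ℂ) + 1) := by
  rw [C_add, C_1, map_natCast]

theorem fw1_ode (ν : ι → ℂ) :
    PowerSeries.derivative (Fock ι) (fw1_E ν) = fw1_O ν * fw1_E ν := by
  ext1 n
  rw [PowerSeries.coeff_derivative, fw1_coeff_mul, fw1_natC, mul_comm]
  unfold fw1_E fw1_O
  simp only [PowerSeries.coeff_mk]
  exact expCoeff_succ ν n

theorem expCoeff_add (ν η : ι → ℂ) (n : ℕ) :
    expCoeff (ν + η) n = ∑ x ∈ Finset.HasAntidiagonal.antidiagonal n, expCoeff ν x.1 * expCoeff η x.2 := by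
  have h1 : ∀ n, PowerSeries.coeff n (fw1_E ν * fw1_E η) =
      ∑ x ∈ Finset.HasAntidiagonal.antidiagonal n, expCoeff ν x.1 * expCoeff η x.2 := by
    intro n
    rw [PowerSeries.coeff_mul]
    unfold fw1_E
    simp only [PowerSeries.coeff_mk]
  rw [← h1 n]
  refine fw1_uniq (fun k => C ((k : ℂ) + 1) * osc (ν + η) k) (expCoeff (ν + η))
    (fun n => PowerSeries.coeff n (fw1_E ν * fw1_E η)) ?_ (fun n => expCoeff_succ (ν + η) n) ?_ n
  · show expCoeff (ν + η) 0 = PowerSeries.coeff 0 (fw1_E ν * fw1_E η)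
    rw [h1 0, Finset.Nat.antidiagonal_zero, Finset.sum_singleton, expCoeff_zero, expCoeff_zero,
      expCoeff_zero, one_mul]
  · intro n
    have h2 : PowerSeries.derivative (Fock ι) (fw1_E ν * fw1_E η) =
        (fw1_O ν + fw1_O η) * (fw1_E ν * fw1_E η) := by
      rw [Derivation.leibniz, fw1_ode, fw1_ode, smul_eq_mul, smul_eq_mul]
      ring
    have h3 := congrArg (PowerSeries.coeff n) h2
    rw [PowerSeries.coeff_derivative, fw1_coeff_mul (fw1_O ν + fw1_O η), fw1_natC, mul_comm] at h3
    show C ((n : ℂ) + 1) * PowerSeries.coeff (n + 1) (fw1_E ν * fw1_E η) = _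
    rw [h3]
    refine Finset.sum_congr rfl fun k _ => ?_
    congr 1
    unfold fw1_O
    rw [map_add, PowerSeries.coeff_mk, PowerSeries.coeff_mk, fw1_osc_add, mul_add]

theorem expCoeff_zero_charge (n : ℕ) : expCoeff (0 : ι → ℂ) n = if n = 0 then 1 else 0 := by
  cases n with
  | zero => rw [expCoeff_zero, if_pos rfl]
  | succ n =>
    rw [if_neg (Nat.succ_ne_zero n)]
    refine fw1_cancel n ?_
    rw [expCoeff_succ, mul_zero]
    refine Finset.sum_eq_zero fun k _ => ?_
    have h1 : osc (0 : ι → ℂ) k = 0 := by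
      unfold osc
      refine Finset.sum_eq_zero fun i _ => ?_
      rw [Pi.zero_apply, C_0, zero_mul]
    rw [h1, mul_zero, zero_mul]

theorem fw1_osc_homog (ν : ι → ℂ) (k : ℕ) : FH (osc ν k) (k + 1) := by
  unfold osc
  refine IsWeightedHomogeneous.sum _ _ _ fun i _ => ?_
  have h1 := (isWeightedHomogeneous_C (wF (ι := ι)) (ν i)).mul
    (isWeightedHomogeneous_X ℂ (wF (ι := ι)) (i, k))
  rw [zero_add] at h1
  exact h1

theorem expCoeff_homog (ν : ι → ℂ) (n : ℕ) : FH (expCoeff ν n) n := by
  induction n using Nat.strong_induction_on with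
  | _ n ih =>
    cases n with
    | zero =>
      rw [expCoeff_zero, ← C_1]
      exact isWeightedHomogeneous_C _ _
    | succ n =>
      have h0 : ((n : ℂ) + 1) ≠ 0 := by exact_mod_cast Nat.succ_ne_zero n
      have h1 : (C (((n : ℂ) + 1)⁻¹) * C ((n : ℂ) + 1) : Fock ι) = 1 := by
        rw [← C_mul, inv_mul_cancel₀ h0, C_1]
      have h2 : expCoeff ν (n + 1) = C (((n : ℂ) + 1)⁻¹) *
          ∑ k ∈ Finset.range (n + 1), C ((k : ℂ) + 1) * osc ν k * expCoeff ν (n - k) := by
        rw [← expCoeff_succ, ← mul_assoc, h1, one_mul]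
      rw [h2]
      have h3 : FH (∑ k ∈ Finset.range (n + 1), C ((k : ℂ) + 1) * osc ν k *
          expCoeff ν (n - k)) (n + 1) := by
        refine IsWeightedHomogeneous.sum _ _ _ fun k hk => ?_
        have hk' : k < n + 1 := Finset.mem_range.1 hk
        have h4 := ((isWeightedHomogeneous_C (wF (ι := ι)) ((k : ℂ) + 1)).mul
          (fw1_osc_homog ν k)).mul (ih (n - k) (by omega))
        have h5 : 0 + (k + 1) + (n - k) = n + 1 := by omega
        rw [h5] at h4
        exact h4
      have h6 := (isWeightedHomogeneous_C (wF (ι := ι)) (((n : ℂ) + 1)⁻¹)).mul h3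
      rw [zero_add] at h6
      exact h6

theorem fw1_pderiv_osc (ν : ι → ℂ) (i : ι) (k j : ℕ) :
    pderiv (i, k) (osc ν j) = if j = k then C (ν i) else 0 := by
  unfold osc
  rw [map_sum]
  have h1 : ∀ l : ι, pderiv (i, k) (C (ν l) * X (l, j) : Fock ι) =
      if l = i then (if j = k then C (ν l) else 0) else 0 := by
    intro l
    rw [pderiv_C_mul, pderiv_X]
    by_cases h : l = i
    · rw [if_pos h]
      by_cases h2 : j = k
      · rw [if_pos h2, h, h2, Pi.single_eq_same, mul_one]
      · rw [if_neg h2, Pi.single_eq_of_ne (fun h3 => h2 (by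
          simpa using (congrArg Prod.snd h3))), mul_zero]
    · rw [if_neg h, Pi.single_eq_of_ne (fun h3 => h (by
          simpa using (congrArg Prod.fst h3))), mul_zero]
  rw [Finset.sum_congr rfl fun l _ => h1 l, Finset.sum_ite_eq' Finset.univ i,
    if_pos (Finset.mem_univ i)]

theorem pderiv_expCoeff (ν : ι → ℂ) (n : ℕ) (i : ι) (k : ℕ) :
    pderiv (i, k) (expCoeff ν n) =
      if k + 1 ≤ n then C (ν i) * expCoeff ν (n - (k + 1)) else 0 := by
  induction n using Nat.strong_induction_on with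
  | _ n ih =>
    cases n with
    | zero =>
      rw [expCoeff_zero, if_neg (by omega)]
      exact pderiv_one
    | succ n =>
      refine fw1_cancel n ?_
      have h1 : C ((n : ℂ) + 1) * pderiv (i, k) (expCoeff ν (n + 1)) =
          pderiv (i, k) (C ((n : ℂ) + 1) * expCoeff ν (n + 1)) := by
        rw [pderiv_C_mul]
      have h2 : ∀ j ∈ Finset.range (n + 1),
          pderiv (i, k) (C ((j : ℂ) + 1) * osc ν j * expCoeff ν (n - j)) =
          (if j = k then C ((k : ℂ) + 1) * C (ν i) * expCoeff ν (n - k) else 0) +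
          (if k + 1 ≤ n - j then C (ν i) * (C ((j : ℂ) + 1) * osc ν j *
            expCoeff ν (n - j - (k + 1))) else 0) := by
        intro j hj
        have hj' : j < n + 1 := Finset.mem_range.1 hj
        rw [mul_assoc, pderiv_C_mul, pderiv_mul, fw1_pderiv_osc,
          ih (n - j) (by omega)]
        by_cases h3 : j = k
        · subst h3
          rw [if_pos rfl, if_pos rfl]
          split_ifs <;> ring
        · rw [if_neg h3, if_neg h3]
          split_ifs <;> ring
      rw [h1, expCoeff_succ, map_sum, Finset.sum_congr rfl h2, Finset.sum_add_distrib]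
      by_cases h4 : k ≤ n
      · rw [if_pos (by omega), Finset.sum_ite_eq' (Finset.range (n + 1)) k,
          if_pos (Finset.mem_range.2 (by omega))]
        have h5 : ∑ j ∈ Finset.range (n + 1), (if k + 1 ≤ n - j then C (ν i) *
            (C ((j : ℂ) + 1) * osc ν j * expCoeff ν (n - j - (k + 1))) else 0) =
            C (ν i) * (C ((n - k : ℕ) : ℂ) * expCoeff ν (n - k)) := by
          rcases Nat.eq_zero_or_pos (n - k) with h6 | h6
          · rw [h6, Nat.cast_zero, C_0, zero_mul, mul_zero]
            refine Finset.sum_eq_zero fun j _ => ?_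
            rw [if_neg (by omega)]
          · obtain ⟨m, hm⟩ : ∃ m, n - k = m + 1 := ⟨n - k - 1, by omega⟩
            rw [hm, Nat.cast_succ, expCoeff_succ, Finset.mul_sum]
            have h7 : Finset.range (m + 1) ⊆ Finset.range (n + 1) :=
              Finset.range_subset_range.2 (by omega)
            rw [← Finset.sum_subset h7 (fun j _ hj2 => by
              rw [if_neg]
              have h8 : ¬ j < m + 1 := fun h => hj2 (Finset.mem_range.2 h)
              omega)]
            refine Finset.sum_congr rfl fun j hj => ?_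
            have hj' : j < m + 1 := Finset.mem_range.1 hj
            rw [if_pos (by omega)]
            congr 3
            omega
        rw [h5]
        have h6 : n + 1 - (k + 1) = n - k := by omega
        have h7 : ((n : ℂ) + 1) = ((k : ℂ) + 1) + ((n - k : ℕ) : ℂ) := by
          rw [Nat.cast_sub h4]
          ring
        rw [h6, h7, C_add (a := (k : ℂ) + 1)]
        ring
      · rw [if_neg (by omega), mul_zero]
        rw [Finset.sum_eq_zero, Finset.sum_eq_zero, add_zero]
        · intro j _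
          rw [if_neg (by omega)]
        · intro j hj
          have hj' : j < n + 1 := Finset.mem_range.1 hj
          rw [if_neg (by omega)]

theorem expCoeff_ne_zero (ν : ι → ℂ) (hν : ν ≠ 0) (n : ℕ) : expCoeff ν n ≠ 0 := by
  obtain ⟨i, hi⟩ := Function.ne_iff.1 hν
  induction n with
  | zero =>
    rw [expCoeff_zero]
    exact one_ne_zero
  | succ n ih =>
    intro h
    have h1 := pderiv_expCoeff ν (n + 1) i 0
    rw [h, map_zero, if_pos (by omega)] at h1
    rcases mul_eq_zero.1 h1.symm with h2 | h2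
    · rw [← C_0] at h2
      exact hi (C_injective _ _ h2)
    · exact ih h2

theorem fw1_ee_sum (s : ℂ) (n : ℕ) :
    ∑ k ∈ Finset.range (n + 1), -s * RC.ee s (n - k) = ((n : ℂ) + 1) * RC.ee s (n + 1) := by
  have h1 : ∀ n : ℕ, ∑ k ∈ Finset.range (n + 1), -s * RC.ee s k =
      ((n : ℂ) + 1) * RC.ee s (n + 1) := by
    intro n
    have h2 : ∀ n : ℕ, ((n : ℂ) + 1) * RC.ee s (n + 1) = ((n : ℂ) - s) * RC.ee s n := by
      intro n
      have h0 : ((n : ℂ) + 1) ≠ 0 := by exact_mod_cast Nat.succ_ne_zero n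
      rw [RC.ee]
      field_simp
    induction n with
    | zero =>
      rw [Finset.sum_range_one, h2 0]
      push_cast
      ring
    | succ n ih =>
      rw [Finset.sum_range_succ, ih, h2 (n + 1)]
      push_cast
      ring
  rw [← h1 n]
  exact Finset.sum_range_reflect (fun k => -s * RC.ee s k) (n + 1)

theorem ev_expCoeff (c : ι → ℂ) (ν : ι → ℂ) (n : ℕ) :
    ev c (expCoeff ν n) = RC.ee (∑ i, ν i * c i) n := by
  have hosc : ∀ k : ℕ, ev c (osc ν k) = -(∑ i, ν i * c i) / ((k : ℂ) + 1) := by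
    intro k
    unfold osc ev
    rw [map_sum, neg_div, Finset.sum_div, ← Finset.sum_neg_distrib]
    refine Finset.sum_congr rfl fun i _ => ?_
    rw [map_mul, aeval_C, aeval_X]
    show ν i * (-(c i) / ((k : ℂ) + 1)) = _
    ring
  induction n using Nat.strong_induction_on with
  | _ n ih =>
    cases n with
    | zero => rw [expCoeff_zero, map_one, RC.ee]
    | succ n =>
      have h0 : ((n : ℂ) + 1) ≠ 0 := by exact_mod_cast Nat.succ_ne_zero n
      have h1 := congrArg (ev c) (expCoeff_succ ν n)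
      have hC : ∀ a : ℂ, ev c (C a) = a := by
        intro a
        unfold ev
        rw [aeval_C]
        rfl
      rw [map_mul, map_sum, hC] at h1
      have h2 : ∀ k ∈ Finset.range (n + 1),
          ev c (C ((k : ℂ) + 1) * osc ν k * expCoeff ν (n - k)) =
          -(∑ i, ν i * c i) * RC.ee (∑ i, ν i * c i) (n - k) := by
        intro k _
        have hk0 : ((k : ℂ) + 1) ≠ 0 := by exact_mod_cast Nat.succ_ne_zero k
        rw [map_mul, map_mul, hC, hosc, ih (n - k) (by omega), mul_div_cancel₀ _ hk0]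
      rw [Finset.sum_congr rfl h2, fw1_ee_sum] at h1
      exact mul_left_cancel₀ h0 h1

end

end WPQ
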