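import Pool.Agent.WPQ.FW1

/-! [WPQ-FW2] The coefficient operators `Sop ν q` of the algebra homomorphism `annih ν`.

Plan: `annih` is an algebra homomorphism, so everything is checked on the variables: `Sop_mul` is
`Polynomial.coeff_mul`; `Sop_comm`, `Sop_add`: two algebra homomorphisms
`Fock → Fock[u][v]` agree on the variables (or induction on monomials with `Sop_mul`);
`Sop_expCoeff`: strong induction on `n` with `expCoeff_succ`, `Sop_mul`, and
`∑_{i+j=n} ee(q,i)...`: equivalently the power series `∑_n annih (expCoeff η n) w^n` satisfies the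
same differential equation as `(1 - w u)^q ∑ expCoeff η n w^n`, `q = form ν η` (needs `A` symmetric). -/

namespace WPQ

open MvPolynomial

noncomputable section

variable {ι : Type} [Fintype ι] [DecidableEq ι]

theorem form_symm (A : Matrix ι ι ℤ) (hA : ∀ i j, A i j = A j i) (p : ℕ) (ν η : ι → ℂ) :
    form A p ν η = form A p η ν := by
  unfold form
  rw [Finset.sum_comm]
  congr 1
  refine Finset.sum_congr rfl fun i _ => Finset.sum_congr rfl fun j _ => ?_
  rw [hA i j]
  ring

theorem fw2_Sop_apply (A : Matrix ι ι ℤ) (p : ℕ) (ν : ι → ℂ) (q : ℕ) (f : Fock ι) :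
    Sop A p ν q f = (annih A p ν f).coeff q := rfl

theorem fw2_annih_X (A : Matrix ι ι ℤ) (p : ℕ) (ν : ι → ℂ) (i : ι) (k : ℕ) :
    annih A p ν (X (i, k)) = Polynomial.C (X (i, k)) -
      Polynomial.C (C (form A p (bb i) ν / (k + 1))) * Polynomial.X ^ (k + 1) := by
  unfold annih bb
  rw [aeval_X]

theorem fw2_annih_C (A : Matrix ι ι ℤ) (p : ℕ) (ν : ι → ℂ) (a : ℂ) :
    annih A p ν (C a) = Polynomial.C (C a) := by
  unfold annih
  rw [aeval_C]
  rfl

theorem Sop_X (A : Matrix ι ι ℤ) (p : ℕ) (ν : ι → ℂ) (q : ℕ) (i : ι) (k : ℕ) :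
    Sop A p ν q (X (i, k)) = if q = 0 then X (i, k)
      else if q = k + 1 then C (-(form A p (bb i) ν) / (k + 1)) else 0 := by
  rw [fw2_Sop_apply, fw2_annih_X, Polynomial.coeff_sub, Polynomial.coeff_C,
    Polynomial.coeff_C_mul, Polynomial.coeff_X_pow]
  by_cases h0 : q = 0
  · rw [if_pos h0, if_pos h0, if_neg (by omega), mul_zero, sub_zero]
  · rw [if_neg h0, if_neg h0, zero_sub]
    by_cases h1 : q = k + 1
    · rw [if_pos h1, if_pos h1, mul_one, neg_div, C_neg]
    · rw [if_neg h1, if_neg h1, mul_zero, neg_zero]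

theorem fw2_Sop_C (A : Matrix ι ι ℤ) (p : ℕ) (ν : ι → ℂ) (q : ℕ) (a : ℂ) :
    Sop A p ν q (C a) = if q = 0 then C a else 0 := by
  rw [fw2_Sop_apply, fw2_annih_C, Polynomial.coeff_C]

theorem Sop_one (A : Matrix ι ι ℤ) (p : ℕ) (ν : ι → ℂ) (q : ℕ) :
    Sop A p ν q 1 = if q = 0 then 1 else 0 := by
  rw [← C_1, fw2_Sop_C]

theorem Sop_zero (A : Matrix ι ι ℤ) (p : ℕ) (ν : ι → ℂ) (f : Fock ι) : Sop A p ν 0 f = f := by
  induction f using MvPolynomial.induction_on with
  | C a => rw [fw2_Sop_C, if_pos rfl]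
  | add f g hf hg => rw [map_add, hf, hg]
  | mul_X f x hf =>
    rw [fw2_Sop_apply, map_mul, Polynomial.mul_coeff_zero, ← fw2_Sop_apply, ← fw2_Sop_apply, hf]
    obtain ⟨i, k⟩ := x
    rw [Sop_X, if_pos rfl]

theorem Sop_mul (A : Matrix ι ι ℤ) (p : ℕ) (ν : ι → ℂ) (q : ℕ) (f g : Fock ι) :
    Sop A p ν q (f * g) =
      ∑ x ∈ Finset.HasAntidiagonal.antidiagonal q, Sop A p ν x.1 f * Sop A p ν x.2 g := by
  rw [fw2_Sop_apply, map_mul, Polynomial.coeff_mul]
  rfl

/-- the product with a variable -/
theorem fw2_mul_X (A : Matrix ι ι ℤ) (p : ℕ) (ν : ι → ℂ) (q : ℕ) (f : Fock ι) (i : ι) (k : ℕ) :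
    Sop A p ν q (f * X (i, k)) = Sop A p ν q f * X (i, k) +
      (if k + 1 ≤ q then Sop A p ν (q - (k + 1)) f * C (-(form A p (bb i) ν) / (k + 1))
        else 0) := by
  rw [fw2_Sop_apply, map_mul, fw2_annih_X, mul_sub, Polynomial.coeff_sub, Polynomial.coeff_mul_C,
    ← mul_assoc, Polynomial.coeff_mul_X_pow', Polynomial.coeff_mul_C, fw2_Sop_apply, sub_eq_add_neg]
  congr 1
  by_cases h : k + 1 ≤ q
  · rw [if_pos h, if_pos h, fw2_Sop_apply, neg_div, C_neg, mul_neg]
  · rw [if_neg h, if_neg h, neg_zero]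

theorem fw2_mono (A : Matrix ι ι ℤ) (p : ℕ) (ν : ι → ℂ) (m : (ι × ℕ) →₀ ℕ) (a : ℂ) :
    ∃ w, FH (monomial m a) w ∧ (∀ q d, d + q = w → FH (Sop A p ν q (monomial m a)) d) ∧
      ∀ q, w < q → Sop A p ν q (monomial m a) = 0 := by
  refine induction_on_monomial (motive := fun f : Fock ι => ∃ w, FH f w ∧
    (∀ q d, d + q = w → FH (Sop A p ν q f) d) ∧ ∀ q, w < q → Sop A p ν q f = 0) ?_ ?_ m a
  · intro a
    refine ⟨0, isWeightedHomogeneous_C _ _, fun q d hqd => ?_, fun q hq => ?_⟩
    · have h1 : q = 0 := by omega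
      have h2 : d = 0 := by omega
      rw [h1, h2, fw2_Sop_C, if_pos rfl]
      exact isWeightedHomogeneous_C _ _
    · rw [fw2_Sop_C, if_neg (by omega)]
  · rintro f ⟨i, k⟩ ⟨w, h1, h2, h3⟩
    have hX : FH (X (i, k) : Fock ι) (k + 1) := isWeightedHomogeneous_X ℂ (wF (ι := ι)) (i, k)
    refine ⟨w + (k + 1), h1.mul hX, fun q d hqd => ?_, fun q hq => ?_⟩
    · rw [fw2_mul_X]
      refine (weightedHomogeneousSubmodule ℂ (wF (ι := ι)) d).add_mem ?_ ?_
      · by_cases hq : q ≤ w
        · have h4 := (h2 q (w - q) (by omega)).mul hX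
          have h5 : w - q + (k + 1) = d := by omega
          rw [h5] at h4
          exact h4
        · rw [h3 q (by omega), zero_mul]
          exact isWeightedHomogeneous_zero _ _ _
      · by_cases hq : k + 1 ≤ q
        · rw [if_pos hq]
          have h4 := (h2 (q - (k + 1)) d (by omega)).mul
            (isWeightedHomogeneous_C (wF (ι := ι)) (-(form A p (bb i) ν) / ((k : ℂ) + 1)))
          rw [add_zero] at h4
          exact h4
        · rw [if_neg hq]
          exact isWeightedHomogeneous_zero _ _ _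
    · rw [fw2_mul_X, h3 q (by omega), zero_mul, zero_add]
      by_cases hq2 : k + 1 ≤ q
      · rw [if_pos hq2, h3 (q - (k + 1)) (by omega), zero_mul]
      · rw [if_neg hq2]

theorem fw2_mono' (A : Matrix ι ι ℤ) (p : ℕ) (ν : ι → ℂ) (D : ℕ) (f : Fock ι) (hf : FH f D)
    (m : (ι × ℕ) →₀ ℕ) (hm : m ∈ f.support) :
    (∀ q d, d + q = D → FH (Sop A p ν q (monomial m (coeff m f))) d) ∧
      ∀ q, D < q → Sop A p ν q (monomial m (coeff m f)) = 0 := by
  obtain ⟨w, h1, h2, h3⟩ := fw2_mono A p ν m (coeff m f)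
  have h4 : coeff m f ≠ 0 := mem_support_iff.1 hm
  have h5 : FH (monomial m (coeff m f)) D := isWeightedHomogeneous_monomial _ _ _ (hf h4)
  have h6 : (monomial m (coeff m f) : Fock ι) ≠ 0 := by
    rw [Ne, monomial_eq_zero]
    exact h4
  have h7 : w = D := IsWeightedHomogeneous.inj_right h6 h1 h5
  rw [h7] at h2 h3
  exact ⟨h2, h3⟩

theorem Sop_homog (A : Matrix ι ι ℤ) (p : ℕ) (ν : ι → ℂ) (q d : ℕ) (f : Fock ι)
    (hf : FH f (d + q)) : FH (Sop A p ν q f) d := by
  rw [f.as_sum, map_sum]
  exact IsWeightedHomogeneous.sum _ _ _ fun m hm => (fw2_mono' A p ν _ f hf m hm).1 q d rfl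

theorem Sop_eq_zero (A : Matrix ι ι ℤ) (p : ℕ) (ν : ι → ℂ) (q d : ℕ) (f : Fock ι)
    (hf : FH f d) (hq : d < q) : Sop A p ν q f = 0 := by
  rw [f.as_sum, map_sum]
  exact Finset.sum_eq_zero fun m hm => (fw2_mono' A p ν _ f hf m hm).2 q hq

theorem Sop_comm (A : Matrix ι ι ℤ) (p : ℕ) (ν η : ι → ℂ) (q r : ℕ) (f : Fock ι) :
    Sop A p ν q (Sop A p η r f) = Sop A p η r (Sop A p ν q f) := by
  have hCmul : ∀ (μ : ι → ℂ) (n : ℕ) (g : Fock ι) (a : ℂ),
      Sop A p μ n (g * C a) = Sop A p μ n g * C a := by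
    intro μ n g a
    rw [mul_comm, ← smul_eq_C_mul, map_smul, smul_eq_C_mul, mul_comm]
  induction f using MvPolynomial.induction_on generalizing q r with
  | C a =>
    rw [fw2_Sop_C, fw2_Sop_C]
    by_cases h1 : q = 0
    · by_cases h2 : r = 0
      · rw [if_pos h1, if_pos h2, fw2_Sop_C, fw2_Sop_C, if_pos h1, if_pos h2]
      · rw [if_pos h1, if_neg h2, map_zero, fw2_Sop_C, if_neg h2]
    · by_cases h2 : r = 0
      · rw [if_neg h1, if_pos h2, map_zero, fw2_Sop_C, if_neg h1]
      · rw [if_neg h1, if_neg h2, map_zero, map_zero]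
  | add f g hf hg => rw [map_add, map_add, map_add, map_add, hf, hg]
  | mul_X f x hf =>
    obtain ⟨i, k⟩ := x
    rw [fw2_mul_X, fw2_mul_X, map_add, map_add, fw2_mul_X, fw2_mul_X, hf q r]
    have h1 : Sop A p ν q (if k + 1 ≤ r then Sop A p η (r - (k + 1)) f *
        C (-(form A p (bb i) η) / (k + 1)) else 0) =
        if k + 1 ≤ r then Sop A p ν q (Sop A p η (r - (k + 1)) f) *
        C (-(form A p (bb i) η) / (k + 1)) else 0 := by
      split_ifs
      · rw [hCmul]
      · rw [map_zero]
    have h2 : Sop A p η r (if k + 1 ≤ q then Sop A p ν (q - (k + 1)) f *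
        C (-(form A p (bb i) ν) / (k + 1)) else 0) =
        if k + 1 ≤ q then Sop A p η r (Sop A p ν (q - (k + 1)) f) *
        C (-(form A p (bb i) ν) / (k + 1)) else 0 := by
      split_ifs
      · rw [hCmul]
      · rw [map_zero]
    rw [h1, h2, hf q (r - (k + 1)), hf (q - (k + 1)) r]
    ring

theorem Sop_add (A : Matrix ι ι ℤ) (p : ℕ) (ν η : ι → ℂ) (q : ℕ) (f : Fock ι) :
    Sop A p (ν + η) q f =
      ∑ x ∈ Finset.HasAntidiagonal.antidiagonal q, Sop A p ν x.1 (Sop A p η x.2 f) := by
  -- extend `annih ν` to polynomials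
  have hco : ∀ (P : Polynomial (Fock ι)) (q : ℕ),
      (Polynomial.eval₂ (annih A p ν).toRingHom Polynomial.X P).coeff q =
        ∑ x ∈ Finset.HasAntidiagonal.antidiagonal q, Sop A p ν x.1 (P.coeff x.2) := by
    intro P q
    induction P using Polynomial.induction_on' with
    | add P Q hP hQ =>
      rw [Polynomial.eval₂_add, Polynomial.coeff_add, hP, hQ, ← Finset.sum_add_distrib]
      refine Finset.sum_congr rfl fun x _ => ?_
      rw [Polynomial.coeff_add, map_add]
    | monomial n a =>
      rw [Polynomial.eval₂_monomial, Polynomial.coeff_mul_X_pow']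
      by_cases h : n ≤ q
      · rw [if_pos h, Finset.sum_eq_single (q - n, n)]
        · rw [Polynomial.coeff_monomial, if_pos rfl]
          rfl
        · rintro ⟨a', b'⟩ hx hne
          rw [Polynomial.coeff_monomial, if_neg, map_zero]
          rintro rfl
          apply hne
          rw [Finset.HasAntidiagonal.mem_antidiagonal] at hx
          have h1 : a' = q - n := by
            have h2 : a' + n = q := hx
            omega
          rw [h1]
        · intro h1
          exact absurd (Finset.HasAntidiagonal.mem_antidiagonal.2 (Nat.sub_add_cancel h)) h1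
      · rw [if_neg h]
        refine (Finset.sum_eq_zero ?_).symm
        rintro ⟨a', b'⟩ hx
        rw [Finset.HasAntidiagonal.mem_antidiagonal] at hx
        have h2 : a' + b' = q := hx
        rw [Polynomial.coeff_monomial, if_neg (by omega), map_zero]
  let Φ : Fock ι →+* Polynomial (Fock ι) :=
    (Polynomial.eval₂RingHom (annih A p ν).toRingHom Polynomial.X).comp (annih A p η).toRingHom
  have hΦ : (annih A p (ν + η)).toRingHom = Φ := by
    refine MvPolynomial.ringHom_ext (fun a => ?_) (fun x => ?_)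
    · show annih A p (ν + η) (C a) =
        Polynomial.eval₂ (annih A p ν).toRingHom Polynomial.X (annih A p η (C a))
      rw [fw2_annih_C, fw2_annih_C, Polynomial.eval₂_C]
      exact (fw2_annih_C A p ν a).symm
    · obtain ⟨i, k⟩ := x
      show annih A p (ν + η) (X (i, k)) =
        Polynomial.eval₂ (annih A p ν).toRingHom Polynomial.X (annih A p η (X (i, k)))
      rw [fw2_annih_X, fw2_annih_X, Polynomial.eval₂_sub, Polynomial.eval₂_C,
        Polynomial.eval₂_mul, Polynomial.eval₂_C, Polynomial.eval₂_pow, Polynomial.eval₂_X]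
      have h1 : (annih A p ν).toRingHom (X (i, k)) = Polynomial.C (X (i, k)) -
        Polynomial.C (C (form A p (bb i) ν / (k + 1))) * Polynomial.X ^ (k + 1) :=
          fw2_annih_X A p ν i k
      have h2 : (annih A p ν).toRingHom (C (form A p (bb i) η / (k + 1))) =
        Polynomial.C (C (form A p (bb i) η / (k + 1))) := fw2_annih_C A p ν _
      have h3 : form A p (bb i) (ν + η) = form A p (bb i) ν + form A p (bb i) η := by
        unfold form
        rw [← mul_add, ← Finset.sum_add_distrib]
        congr 1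
        refine Finset.sum_congr rfl fun a _ => ?_
        rw [← Finset.sum_add_distrib]
        refine Finset.sum_congr rfl fun b _ => ?_
        rw [Pi.add_apply]
        ring
      rw [h1, h2, h3, add_div, C_add, Polynomial.C_add]
      ring
  have h4 : annih A p (ν + η) f =
      Polynomial.eval₂ (annih A p ν).toRingHom Polynomial.X (annih A p η f) :=
    congrArg (fun F : Fock ι →+* Polynomial (Fock ι) => F f) hΦ
  rw [fw2_Sop_apply, h4, hco]
  rfl

theorem fw2_ee_sum (s : ℂ) (q : ℕ) :
    ∑ k ∈ Finset.range q, -s * RC.ee s (q - 1 - k) = (q : ℂ) * RC.ee s q := by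
  cases q with
  | zero => simp
  | succ q =>
    have h := fw1_ee_sum s q
    rw [Nat.add_sub_cancel, Nat.cast_succ]
    exact h

theorem fw2_Sop_osc (A : Matrix ι ι ℤ) (p : ℕ) (ν η : ι → ℂ) (k : ℕ) (f : Fock ι) (q : ℕ) :
    Sop A p ν q (f * (C ((k : ℂ) + 1) * osc η k)) =
      Sop A p ν q f * (C ((k : ℂ) + 1) * osc η k) +
      (if k + 1 ≤ q then Sop A p ν (q - (k + 1)) f * C (-(form A p η ν)) else 0) := by
  have hk0 : ((k : ℂ) + 1) ≠ 0 := by exact_mod_cast Nat.succ_ne_zero k
  have hCmul : ∀ (μ : ι → ℂ) (n : ℕ) (g : Fock ι) (a : ℂ),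
      Sop A p μ n (C a * g) = C a * Sop A p μ n g := by
    intro μ n g a
    rw [← smul_eq_C_mul, map_smul, smul_eq_C_mul]
  have h1 : f * (C ((k : ℂ) + 1) * osc η k) =
      ∑ i, C (((k : ℂ) + 1) * η i) * (f * X (i, k)) := by
    unfold osc
    rw [Finset.mul_sum, Finset.mul_sum]
    refine Finset.sum_congr rfl fun i _ => ?_
    rw [C_mul]
    ring
  have h2 : Sop A p ν q f * (C ((k : ℂ) + 1) * osc η k) =
      ∑ i, C (((k : ℂ) + 1) * η i) * (Sop A p ν q f * X (i, k)) := by
    unfold osc
    rw [Finset.mul_sum, Finset.mul_sum]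
    refine Finset.sum_congr rfl fun i _ => ?_
    rw [C_mul]
    ring
  rw [h1, h2, map_sum]
  have h3 : ∀ i ∈ (Finset.univ : Finset ι), Sop A p ν q (C (((k : ℂ) + 1) * η i) * (f * X (i, k))) =
      C (((k : ℂ) + 1) * η i) * (Sop A p ν q f * X (i, k)) +
      (if k + 1 ≤ q then Sop A p ν (q - (k + 1)) f *
        C (-(η i * form A p (bb i) ν)) else 0) := by
    intro i _
    rw [hCmul, fw2_mul_X, mul_add]
    congr 1
    by_cases h : k + 1 ≤ q
    · rw [if_pos h, if_pos h]
      have h4 : (-(η i * form A p (bb i) ν)) =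
          (((k : ℂ) + 1) * η i) * (-(form A p (bb i) ν) / ((k : ℂ) + 1)) := by
        field_simp
      rw [h4, C_mul (a := ((k : ℂ) + 1) * η i)]
      ring
    · rw [if_neg h, if_neg h, mul_zero]
  rw [Finset.sum_congr rfl h3, Finset.sum_add_distrib]
  congr 1
  by_cases h : k + 1 ≤ q
  · simp only [if_pos h]
    rw [← Finset.mul_sum, ← map_sum, Finset.sum_neg_distrib]
    congr 3
    unfold form bb
    rw [Finset.mul_sum]
    refine Finset.sum_congr rfl fun i _ => ?_
    have h5 : ∑ l, ∑ j, (Pi.single i (1 : ℂ) : ι → ℂ) l * (A l j : ℂ) * ν j =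
        ∑ j, (A i j : ℂ) * ν j := by
      rw [Finset.sum_eq_single i]
      · refine Finset.sum_congr rfl fun j _ => ?_
        rw [Pi.single_eq_same, one_mul]
      · intro l _ hl
        refine Finset.sum_eq_zero fun j _ => ?_
        rw [Pi.single_eq_of_ne hl, zero_mul, zero_mul]
      · intro h6
        exact absurd (Finset.mem_univ i) h6
    rw [h5, Finset.mul_sum, Finset.mul_sum, Finset.mul_sum]
    refine Finset.sum_congr rfl fun j _ => ?_
    ring
  · simp only [if_neg h]
    rw [Finset.sum_const_zero]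

theorem Sop_expCoeff (A : Matrix ι ι ℤ) (hA : ∀ i j, A i j = A j i) (p : ℕ) (ν η : ι → ℂ)
    (q n : ℕ) : Sop A p ν q (expCoeff η n) =
      if q ≤ n then C (RC.ee (form A p ν η) q) * expCoeff η (n - q) else 0 := by
  have hCmul : ∀ (μ : ι → ℂ) (n : ℕ) (g : Fock ι) (a : ℂ),
      Sop A p μ n (C a * g) = C a * Sop A p μ n g := by
    intro μ n g a
    rw [← smul_eq_C_mul, map_smul, smul_eq_C_mul]
  set s : ℂ := form A p ν η with hs
  induction n using Nat.strong_induction_on generalizing q with
  | _ n ih =>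
    cases n with
    | zero =>
      rw [expCoeff_zero, Sop_one]
      by_cases h : q = 0
      · rw [if_pos h, if_pos (by omega), h, RC.ee, C_1, one_mul, expCoeff_zero]
      · rw [if_neg h, if_neg (by omega)]
    | succ n =>
      refine fw1_cancel n ?_
      rw [← hCmul, expCoeff_succ, map_sum]
      have h1 : ∀ k ∈ Finset.range (n + 1),
          Sop A p ν q (C ((k : ℂ) + 1) * osc η k * expCoeff η (n - k)) =
          (if q ≤ n - k then C (RC.ee s q) *
            (C ((k : ℂ) + 1) * osc η k * expCoeff η (n - k - q)) else 0) +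
          (if k + 1 ≤ q then (if q ≤ n + 1 then
            C (-s * RC.ee s (q - 1 - k)) * expCoeff η (n + 1 - q) else 0) else 0) := by
        intro k hk
        have hk' : k < n + 1 := Finset.mem_range.1 hk
        rw [mul_comm _ (expCoeff η (n - k)), fw2_Sop_osc, ih (n - k) (by omega) q,
          ih (n - k) (by omega) (q - (k + 1))]
        congr 1
        · split_ifs
          · ring
          · ring
        · by_cases h2 : k + 1 ≤ q
          · rw [if_pos h2, if_pos h2]
            by_cases h3 : q ≤ n + 1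
            · rw [if_pos h3, if_pos (by omega)]
              have h4 : n - k - (q - (k + 1)) = n + 1 - q := by omega
              have h5 : q - (k + 1) = q - 1 - k := by omega
              rw [h4, h5, form_symm A hA p η ν, ← hs, neg_mul, C_neg, C_neg, C_mul]
              ring
            · rw [if_neg h3, if_neg (by omega), zero_mul]
          · rw [if_neg h2, if_neg h2]
      rw [Finset.sum_congr rfl h1, Finset.sum_add_distrib]
      by_cases h3 : q ≤ n + 1
      · have h4 : ∑ k ∈ Finset.range (n + 1), (if k + 1 ≤ q then (if q ≤ n + 1 then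
            C (-s * RC.ee s (q - 1 - k)) * expCoeff η (n + 1 - q) else 0) else 0 : Fock ι) =
            C ((q : ℂ) * RC.ee s q) * expCoeff η (n + 1 - q) := by
          rw [← fw2_ee_sum, map_sum, Finset.sum_mul]
          have h5 : Finset.range q ⊆ Finset.range (n + 1) := Finset.range_subset_range.2 h3
          rw [← Finset.sum_subset h5 (fun k _ hk2 => by
            rw [if_neg]
            have h6 : ¬ k < q := fun h => hk2 (Finset.mem_range.2 h)
            omega)]
          refine Finset.sum_congr rfl fun k hk => ?_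
          have hk' : k < q := Finset.mem_range.1 hk
          rw [if_pos (by omega), if_pos h3]
        have h5 : ∑ k ∈ Finset.range (n + 1), (if q ≤ n - k then C (RC.ee s q) *
            (C ((k : ℂ) + 1) * osc η k * expCoeff η (n - k - q)) else 0) =
            C (RC.ee s q) * (C ((n + 1 - q : ℕ) : ℂ) * expCoeff η (n + 1 - q)) := by
          rcases Nat.eq_zero_or_pos (n + 1 - q) with h6 | h6
          · rw [h6, Nat.cast_zero, C_0, zero_mul, mul_zero]
            refine Finset.sum_eq_zero fun k _ => ?_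
            rw [if_neg (by omega)]
          · obtain ⟨m, hm⟩ : ∃ m, n + 1 - q = m + 1 := ⟨n + 1 - q - 1, by omega⟩
            rw [hm, Nat.cast_succ, expCoeff_succ, Finset.mul_sum]
            have h7 : Finset.range (m + 1) ⊆ Finset.range (n + 1) :=
              Finset.range_subset_range.2 (by omega)
            rw [← Finset.sum_subset h7 (fun j hj1 hj2 => by
              rw [if_neg]
              have h8 : ¬ j < m + 1 := fun h => hj2 (Finset.mem_range.2 h)
              have h10 : j < n + 1 := Finset.mem_range.1 hj1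
              omega)]
            refine Finset.sum_congr rfl fun j hj => ?_
            have hj' : j < m + 1 := Finset.mem_range.1 hj
            rw [if_pos (by omega)]
            have h9 : n - j - q = m - j := by omega
            rw [h9]
        rw [h4, h5, if_pos h3]
        have h7 : ((n : ℂ) + 1) = ((n + 1 - q : ℕ) : ℂ) + (q : ℂ) := by
          rw [Nat.cast_sub h3]
          push_cast
          ring
        rw [h7, C_add, C_mul]
        ring
      · rw [if_neg h3, mul_zero, Finset.sum_eq_zero, Finset.sum_eq_zero, add_zero]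
        · intro k _
          split_ifs <;> rfl
        · intro k _
          rw [if_neg (by omega)]

end

end WPQ
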