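import Pool.Agent.WPQ.FW2

/-! [WPQ-FW3] Formulas for `vop` (coefficients of the normally ordered exponential).

Plan: `vop_eq` is the definition (`Polynomial.lsum` as a sum over the coefficients; all coefficients
of index `> d` vanish by `Sop_eq_zero`; a polynomial with `coeff = 0` above `D` is summed over
`range (D+1)`, `Polynomial.sum_over_range'`).  `vop_homog`: `expCoeff_homog` and `Sop_homog`.
`vop_top`: only the term `q = d` has `m + q ≥ 0`, `Sop ν d f` is the constant `ev f`
(two algebra homomorphisms, compare on variables; use weighted homogeneity). -/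

namespace WPQ

open MvPolynomial

noncomputable section

variable {ι : Type} [Fintype ι] [DecidableEq ι]

theorem expCoeffZ_nat (ν : ι → ℂ) (n : ℕ) : expCoeffZ ν n = expCoeff ν n := by
  unfold expCoeffZ
  rw [if_neg (by omega), Int.toNat_natCast]

theorem expCoeffZ_neg (ν : ι → ℂ) (m : ℤ) (hm : m < 0) : expCoeffZ ν m = 0 := by
  unfold expCoeffZ
  rw [if_pos hm]

theorem fw3_Sop_coeff (A : Matrix ι ι ℤ) (p : ℕ) (ν : ι → ℂ) (q : ℕ) (f : Fock ι) :
    Sop A p ν q f = (annih A p ν f).coeff q := rfl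

theorem vop_eq (A : Matrix ι ι ℤ) (p : ℕ) (ν : ι → ℂ) (m : ℤ) (f : Fock ι) (D : ℕ)
    (hD : ∀ q, D < q → Sop A p ν q f = 0) :
    vop A p ν m f = ∑ q ∈ Finset.range (D + 1), expCoeffZ ν (m + q) * Sop A p ν q f := by
  have h1 : vop A p ν m f = (annih A p ν f).sum
      (fun q g => LinearMap.mulLeft ℂ (expCoeffZ ν (m + q)) g) := rfl
  have h2 : (annih A p ν f).natDegree < D + 1 := by
    refine Nat.lt_succ_of_le (Polynomial.natDegree_le_iff_coeff_eq_zero.2 ?_)
    intro q hq
    exact hD q hq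
  rw [h1, Polynomial.sum_over_range' _ (fun n => by simp) (D + 1) h2]
  rfl

theorem vop_one (A : Matrix ι ι ℤ) (p : ℕ) (ν : ι → ℂ) (m : ℤ) :
    vop A p ν m 1 = expCoeffZ ν m := by
  rw [vop_eq A p ν m 1 0]
  · rw [zero_add, Finset.sum_range_one, Sop_one, if_pos rfl, mul_one]
    simp
  · intro q hq
    rw [Sop_one, if_neg (by omega)]

theorem fw3_vop_eq (A : Matrix ι ι ℤ) (p : ℕ) (ν : ι → ℂ) (m : ℤ) (f : Fock ι) (d : ℕ)
    (hf : FH f d) :
    vop A p ν m f = ∑ q ∈ Finset.range (d + 1), expCoeffZ ν (m + q) * Sop A p ν q f :=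
  vop_eq A p ν m f d fun q hq => Sop_eq_zero A p ν q d f hf hq

theorem vop_homog (A : Matrix ι ι ℤ) (p : ℕ) (ν : ι → ℂ) (m : ℤ) (f : Fock ι) (d e : ℕ)
    (hf : FH f d) (he : (e : ℤ) = d + m) : FH (vop A p ν m f) e := by
  rw [fw3_vop_eq A p ν m f d hf]
  refine IsWeightedHomogeneous.sum _ _ _ fun q hq => ?_
  have hq' : q ≤ d := Nat.lt_succ_iff.1 (Finset.mem_range.1 hq)
  rcases lt_or_ge (m + q) 0 with h | h
  · rw [expCoeffZ_neg ν _ h, zero_mul]
    exact isWeightedHomogeneous_zero _ _ _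
  · obtain ⟨n, hn⟩ : ∃ n : ℕ, m + q = n := ⟨(m + q).toNat, by omega⟩
    rw [hn, expCoeffZ_nat]
    have h1 : FH (Sop A p ν q f) (d - q) := by
      apply Sop_homog
      rw [Nat.sub_add_cancel hq']
      exact hf
    have h2 := (expCoeff_homog ν n).mul h1
    have h3 : n + (d - q) = e := by omega
    rw [h3] at h2
    exact h2

theorem vop_eq_zero (A : Matrix ι ι ℤ) (p : ℕ) (ν : ι → ℂ) (m : ℤ) (f : Fock ι) (d : ℕ)
    (hf : FH f d) (he : (d : ℤ) + m < 0) : vop A p ν m f = 0 := by
  rw [fw3_vop_eq A p ν m f d hf]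
  refine Finset.sum_eq_zero fun q hq => ?_
  have hq' : q ≤ d := Nat.lt_succ_iff.1 (Finset.mem_range.1 hq)
  rw [expCoeffZ_neg ν _ (by omega), zero_mul]

/-- every vector is killed by `vop ν m` for `m` very negative -/
theorem vop_trunc (A : Matrix ι ι ℤ) (p : ℕ) (ν : ι → ℂ) (f : Fock ι) :
    ∃ N : ℤ, ∀ m < N, vop A p ν m f = 0 := by
  refine ⟨-((annih A p ν f).natDegree : ℤ), fun m hm => ?_⟩
  rw [vop_eq A p ν m f (annih A p ν f).natDegree fun q hq =>
    Polynomial.coeff_eq_zero_of_natDegree_lt hq]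
  refine Finset.sum_eq_zero fun q hq => ?_
  have hq' := Nat.lt_succ_iff.1 (Finset.mem_range.1 hq)
  rw [expCoeffZ_neg ν _ (by omega), zero_mul]

theorem fw3_top_mul (A : Matrix ι ι ℤ) (p : ℕ) (ν : ι → ℂ) (f g : Fock ι) (d e : ℕ)
    (hf : FH f d) (hg : FH g e) :
    Sop A p ν (d + e) (f * g) = Sop A p ν d f * Sop A p ν e g := by
  rw [Sop_mul, Finset.sum_eq_single (d, e)]
  · rintro ⟨x, y⟩ hxy hne
    have hxy' : x + y = d + e := Finset.HasAntidiagonal.mem_antidiagonal.1 hxy
    rcases lt_trichotomy x d with h | h | h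
    · rw [Sop_eq_zero A p ν y e g hg (by omega), mul_zero]
    · exfalso
      apply hne
      rw [Prod.mk.injEq]
      exact ⟨h, by omega⟩
    · rw [Sop_eq_zero A p ν x d f hf h, zero_mul]
  · intro h
    exact absurd ((Finset.HasAntidiagonal.mem_antidiagonal (n := d + e) (a := (d, e))).2 rfl) h

theorem fw3_top_monomial (A : Matrix ι ι ℤ) (p : ℕ) (ν : ι → ℂ) (s : ι × ℕ →₀ ℕ) :
    ∀ a : ℂ, Sop A p ν (Finsupp.weight (wF (ι := ι)) s) (monomial s a) =
      C (ev (fun i => form A p (bb i) ν) (monomial s a)) := by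
  have hX : ∀ x : ι × ℕ, Sop A p ν (wF x) (X x) =
      C (ev (fun i => form A p (bb i) ν) (X x)) := by
    rintro ⟨i, k⟩
    have h1 : wF (i, k) = k + 1 := rfl
    rw [h1, Sop_X, if_neg (Nat.succ_ne_zero k), if_pos rfl]
    unfold ev
    rw [aeval_X]
  have hpow : ∀ (x : ι × ℕ) (n : ℕ), Sop A p ν (n * wF x) (X x ^ n) =
      C (ev (fun i => form A p (bb i) ν) (X x ^ n)) := by
    intro x n
    induction n with
    | zero =>
      rw [zero_mul, pow_zero, Sop_zero, map_one, map_one]
    | succ n ih =>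
      have h1 : FH ((X x : Fock ι) ^ n) (n * wF x) := by
        have := (isWeightedHomogeneous_X ℂ (wF (ι := ι)) x).pow n
        rwa [smul_eq_mul] at this
      rw [Nat.succ_mul, pow_succ, fw3_top_mul A p ν _ _ _ _ h1
        (isWeightedHomogeneous_X ℂ (wF (ι := ι)) x), ih, hX, map_mul (ev _), map_mul C]
  induction s using Finsupp.induction_linear with
  | zero =>
    intro a
    have h1 : (monomial (0 : ι × ℕ →₀ ℕ)) a = (C a : Fock ι) := rfl
    rw [map_zero, h1, Sop_zero]
    have h2 : ev (fun i => form A p (bb i) ν) (C a : Fock ι) = a := by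
      unfold ev
      rw [aeval_C]
      rfl
    rw [h2]
  | add s t hs ht =>
    intro a
    have h1 : (monomial (s + t)) a = (monomial s a * monomial t 1 : Fock ι) := by
      rw [monomial_mul, mul_one]
    rw [h1, map_add, fw3_top_mul A p ν _ _ _ _
      (isWeightedHomogeneous_monomial _ s a rfl) (isWeightedHomogeneous_monomial _ t 1 rfl),
      hs, ht, map_mul (ev _), map_mul C]
  | single x n =>
    intro a
    have h1 : (monomial (Finsupp.single x n)) a = (C a * X x ^ n : Fock ι) := by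
      rw [C_mul_X_pow_eq_monomial]
    have h2 : Finsupp.weight (wF (ι := ι)) (Finsupp.single x n) = 0 + n * wF x := by
      rw [Finsupp.weight_apply, Finsupp.sum_single_index (by simp), smul_eq_mul, zero_add]
    have h3 : FH ((X x : Fock ι) ^ n) (n * wF x) := by
      have := (isWeightedHomogeneous_X ℂ (wF (ι := ι)) x).pow n
      rwa [smul_eq_mul] at this
    have h4 : ev (fun i => form A p (bb i) ν) (C a : Fock ι) = a := by
      unfold ev
      rw [aeval_C]
      rfl
    rw [h1, h2, fw3_top_mul A p ν _ _ _ _ (isWeightedHomogeneous_C _ a) h3, Sop_zero, hpow,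
      map_mul (ev _), map_mul C, h4]

theorem fw3_top (A : Matrix ι ι ℤ) (p : ℕ) (ν : ι → ℂ) (f : Fock ι) (d : ℕ) (hf : FH f d) :
    Sop A p ν d f = C (ev (fun i => form A p (bb i) ν) f) := by
  induction hf using IsWeightedHomogeneous.induction_on with
  | zero => rw [map_zero, map_zero, map_zero]
  | add f g hf hg ihf ihg => rw [map_add, map_add, map_add, ihf, ihg]
  | monomial s a hs =>
    rw [← hs]
    exact fw3_top_monomial A p ν s a

theorem vop_top (A : Matrix ι ι ℤ) (p : ℕ) (ν : ι → ℂ) (f : Fock ι) (d : ℕ) (hf : FH f d) :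
    vop A p ν (-(d : ℤ)) f = C (ev (fun i => form A p (bb i) ν) f) := by
  rw [fw3_vop_eq A p ν _ f d hf, Finset.sum_range_succ, Finset.sum_eq_zero, zero_add]
  · have h1 : -(d : ℤ) + d = ((0 : ℕ) : ℤ) := by simp
    rw [h1, expCoeffZ_nat, expCoeff_zero, one_mul, fw3_top A p ν f d hf]
  · intro q hq
    have hq' := Finset.mem_range.1 hq
    rw [expCoeffZ_neg ν _ (by omega), zero_mul]

theorem fw3_annih_zero (A : Matrix ι ι ℤ) (p : ℕ) (f : Fock ι) :
    annih A p 0 f = Polynomial.C f := by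
  induction f using MvPolynomial.induction_on with
  | C a =>
    unfold annih
    rw [aeval_C]
    rfl
  | add f g hf hg => rw [map_add, hf, hg, map_add]
  | mul_X f x hf =>
    have h1 : annih A p 0 (X x : Fock ι) = Polynomial.C (X x) := by
      have h2 : form A p (Pi.single x.1 1) (0 : ι → ℂ) = 0 := by
        unfold form
        simp
      unfold annih
      rw [aeval_X, h2, zero_div, map_zero, map_zero, zero_mul, sub_zero]
    rw [map_mul, hf, h1, map_mul]

theorem vop_zero_charge (A : Matrix ι ι ℤ) (p : ℕ) (m : ℤ) (f : Fock ι) :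
    vop A p 0 m f = if m = 0 then f else 0 := by
  have h0 : ∀ q, Sop A p 0 q f = if q = 0 then f else 0 := by
    intro q
    rw [fw3_Sop_coeff, fw3_annih_zero, Polynomial.coeff_C]
  rw [vop_eq A p 0 m f 0]
  · rw [zero_add, Finset.sum_range_one, h0, if_pos rfl]
    have h1 : m + ((0 : ℕ) : ℤ) = m := by simp
    rw [h1]
    rcases lt_trichotomy m 0 with h | h | h
    · rw [expCoeffZ_neg _ _ h, zero_mul, if_neg (by omega)]
    · subst h
      have h2 : (0 : ℤ) = ((0 : ℕ) : ℤ) := rfl
      rw [if_pos rfl, h2, expCoeffZ_nat, expCoeff_zero, one_mul]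
    · obtain ⟨n, hn⟩ : ∃ n : ℕ, m = n := ⟨m.toNat, by omega⟩
      rw [if_neg (by omega), hn, expCoeffZ_nat, expCoeff_zero_charge, if_neg (by omega), zero_mul]
  · intro q hq
    rw [h0, if_neg (by omega)]

end

end WPQ
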