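import Pool.Agent.WPQ.FW4

/-! [WPQ-FW7] The contravariant pairing `pairF` of the Fock space and transposition of `vop`.

Plan: `diagPair` is bilinear with `diagPair (X s * f) g = diagPair f (pderiv s g)` (coefficients:
`(m+e_s)! coeff (m+e_s) g = m! coeff m (∂_s g)`).  Hence `pairF (X (i,k) * f) g =
pairF f (-(1/(k+1)) ∑_j ⟨b_j,b_i⟩ ∂_{(j,k)} g)`.  Symmetric form: `pairF (D f) g` for the derivation
`D = ∑_j ⟨b_j,h⟩ ∂_{(j,k)} = h(k+1)`: `pairF (h(k+1) f) g = -pairF f (h(-k-1) g)` (induction on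
`f`; on `f = 1` both sides are the constant term of `0` resp. of a product with a variable).
`vop` transposition: `Γ_ν(z) = exp(∑ ν(-k)z^k/k) exp(-∑ ν(k) z^{-k}/k)`; so
`(expCoeff ν n · )^T = Sop ν n` (`n E_n = ∑ (k+1) osc ν k E_{n-1-k}` and the same recursion
`n S_n = -∑_k ν(k+1) S_{n-1-k}` for `Sop`, prove it on variables/products or by induction), and
`(vop ν m)^T = vop ν (-m)` since `vop ν m f = ∑_q E_{m+q} S_q f`.
Nondegeneracy: `pairF f g = 0` for all `f` means `diagPair f' g = 0` for all `f'` in the image of the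
algebra automorphism given by the invertible matrix `A`, so `g = 0`. -/

namespace WPQ

open MvPolynomial

noncomputable section

variable {ι : Type} [Fintype ι] [DecidableEq ι]

/-! ### The diagonal pairing -/

/-- the weight `m!` -/
def fw7_W (m : ι × ℕ →₀ ℕ) : ℂ := m.prod fun _ e => (e.factorial : ℂ)

theorem fw7_W_ne_zero (m : ι × ℕ →₀ ℕ) : fw7_W m ≠ 0 := by
  unfold fw7_W Finsupp.prod
  rw [Finset.prod_ne_zero_iff]
  intro x _
  exact Nat.cast_ne_zero.2 (Nat.factorial_ne_zero _)

theorem fw7_W_add_single (m : ι × ℕ →₀ ℕ) (s : ι × ℕ) :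
    fw7_W (m + Finsupp.single s 1) = ((m s : ℂ) + 1) * fw7_W m := by
  unfold fw7_W
  have h1 : (m + Finsupp.single s 1).support ⊆ insert s m.support := by
    intro x hx
    rw [Finsupp.mem_support_iff, Finsupp.add_apply] at hx
    rw [Finset.mem_insert, Finsupp.mem_support_iff]
    by_contra h
    rw [not_or, not_not] at h
    rw [h.2, Finsupp.single_apply, if_neg (Ne.symm h.1)] at hx
    exact hx rfl
  have h2 : m.support ⊆ insert s m.support := Finset.subset_insert _ _
  rw [Finsupp.prod_of_support_subset _ h1 _ (fun _ _ => by simp),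
    Finsupp.prod_of_support_subset _ h2 _ (fun _ _ => by simp),
    ← Finset.mul_prod_erase _ _ (Finset.mem_insert_self s m.support),
    ← Finset.mul_prod_erase (insert s m.support) (fun x => ((m x).factorial : ℂ))
      (Finset.mem_insert_self s m.support), ← mul_assoc]
  congr 1
  · rw [Finsupp.add_apply, Finsupp.single_eq_same, Nat.factorial_succ]
    push_cast
    ring
  · refine Finset.prod_congr rfl fun x hx => ?_
    have hx' : x ≠ s := (Finset.mem_erase.1 hx).1
    rw [Finsupp.add_apply, Finsupp.single_apply, if_neg (Ne.symm hx'), add_zero]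

theorem fw7_diag_eq (f g : Fock ι) (S : Finset (ι × ℕ →₀ ℕ)) (hS : f.support ⊆ S) :
    diagPair f g = ∑ m ∈ S, coeff m f * coeff m g * fw7_W m := by
  unfold diagPair
  refine Finset.sum_subset hS fun m _ hm => ?_
  rw [MvPolynomial.notMem_support_iff.1 hm, zero_mul, zero_mul]

theorem fw7_diag_add_left (f f' g : Fock ι) :
    diagPair (f + f') g = diagPair f g + diagPair f' g := by
  rw [fw7_diag_eq (f + f') g (f.support ∪ f'.support ∪ (f + f').support)
    Finset.subset_union_right,
    fw7_diag_eq f g (f.support ∪ f'.support ∪ (f + f').support)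
      (Finset.subset_union_left.trans Finset.subset_union_left),
    fw7_diag_eq f' g (f.support ∪ f'.support ∪ (f + f').support)
      (Finset.subset_union_right.trans Finset.subset_union_left), ← Finset.sum_add_distrib]
  refine Finset.sum_congr rfl fun m _ => ?_
  rw [coeff_add]
  ring

theorem fw7_diag_smul_left (c : ℂ) (f g : Fock ι) :
    diagPair (c • f) g = c * diagPair f g := by
  rw [fw7_diag_eq (c • f) g (f.support ∪ (c • f).support) Finset.subset_union_right,
    fw7_diag_eq f g (f.support ∪ (c • f).support) Finset.subset_union_left, Finset.mul_sum]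
  refine Finset.sum_congr rfl fun m _ => ?_
  rw [coeff_smul, smul_eq_mul]
  ring

theorem fw7_diag_add_right (f g g' : Fock ι) :
    diagPair f (g + g') = diagPair f g + diagPair f g' := by
  unfold diagPair
  rw [← Finset.sum_add_distrib]
  refine Finset.sum_congr rfl fun m _ => ?_
  rw [coeff_add]
  ring

theorem fw7_diag_smul_right (c : ℂ) (f g : Fock ι) :
    diagPair f (c • g) = c * diagPair f g := by
  unfold diagPair
  rw [Finset.mul_sum]
  refine Finset.sum_congr rfl fun m _ => ?_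
  rw [coeff_smul, smul_eq_mul]
  ring

theorem fw7_diag_monomial (s : ι × ℕ →₀ ℕ) (a : ℂ) (g : Fock ι) :
    diagPair (monomial s a) g = a * coeff s g * fw7_W s := by
  rw [fw7_diag_eq (monomial s a) g {s} support_monomial_subset, Finset.sum_singleton,
    coeff_monomial, if_pos rfl]

theorem fw7_diag_X (s : ι × ℕ) (f g : Fock ι) :
    diagPair (X s * f) g = diagPair f (pderiv s g) := by
  induction f using MvPolynomial.induction_on' with
  | monomial m a =>
    have h1 : (X s * monomial m a : Fock ι) = monomial (m + Finsupp.single s 1) a := by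
      rw [monomial_add_single, pow_one, mul_comm]
    rw [h1, fw7_diag_monomial, fw7_diag_monomial, fw7_W_add_single, coeff_pderiv]
    ring
  | add p q hp hq =>
    rw [mul_add, fw7_diag_add_left, fw7_diag_add_left, hp, hq]

theorem fw7_diag_nondeg_right (g : Fock ι) (h : ∀ f, diagPair f g = 0) : g = 0 := by
  refine MvPolynomial.ext _ _ fun m => ?_
  have h1 := h (monomial m 1)
  rw [fw7_diag_monomial, one_mul] at h1
  rw [coeff_zero]
  exact (mul_eq_zero.1 h1).resolve_right (fw7_W_ne_zero m)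

theorem fw7_diag_nondeg_left (f : Fock ι) (h : ∀ g, diagPair f g = 0) : f = 0 := by
  refine MvPolynomial.ext _ _ fun m => ?_
  have h1 := h (monomial m 1)
  unfold diagPair at h1
  rw [coeff_zero]
  by_contra h2
  rw [Finset.sum_eq_single m] at h1
  · rw [coeff_monomial, if_pos rfl, mul_one] at h1
    rcases mul_eq_zero.1 h1 with h3 | h3
    · exact h2 h3
    · exact fw7_W_ne_zero m h3
  · intro b _ hb
    rw [coeff_monomial, if_neg (Ne.symm hb), mul_zero, zero_mul]
  · intro h3
    exact absurd (MvPolynomial.mem_support_iff.2 h2) h3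

/-! ### The pairing `pairF` -/

/-- the algebra endomorphism in the definition of `pairF` -/
def fw7_phi (A : Matrix ι ι ℤ) (p : ℕ) : Fock ι →ₐ[ℂ] Fock ι :=
  aeval (fun x : ι × ℕ =>
    -(C ((x.2 + 1 : ℂ)⁻¹)) * ∑ j, C (form A p (bb j) (bb x.1)) * (X (j, x.2) : Fock ι))

theorem fw7_pairF (A : Matrix ι ι ℤ) (p : ℕ) (f g : Fock ι) :
    pairF A p f g = diagPair (fw7_phi A p f) g := rfl

theorem pairF_add_left (A : Matrix ι ι ℤ) (p : ℕ) (f f' g : Fock ι) :
    pairF A p (f + f') g = pairF A p f g + pairF A p f' g := by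
  rw [fw7_pairF, fw7_pairF, fw7_pairF, map_add, fw7_diag_add_left]

theorem pairF_add_right (A : Matrix ι ι ℤ) (p : ℕ) (f g g' : Fock ι) :
    pairF A p f (g + g') = pairF A p f g + pairF A p f g' := by
  rw [fw7_pairF, fw7_pairF, fw7_pairF, fw7_diag_add_right]

theorem pairF_smul_left (A : Matrix ι ι ℤ) (p : ℕ) (c : ℂ) (f g : Fock ι) :
    pairF A p (c • f) g = c * pairF A p f g := by
  rw [fw7_pairF, fw7_pairF, map_smul, fw7_diag_smul_left]

theorem pairF_smul_right (A : Matrix ι ι ℤ) (p : ℕ) (c : ℂ) (f g : Fock ι) :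
    pairF A p f (c • g) = c * pairF A p f g := by
  rw [fw7_pairF, fw7_pairF, fw7_diag_smul_right]

theorem pairF_one_left (A : Matrix ι ι ℤ) (p : ℕ) (g : Fock ι) :
    pairF A p 1 g = constantCoeff g := by
  rw [fw7_pairF, map_one]
  have h1 : (1 : Fock ι) = monomial 0 1 := rfl
  rw [h1, fw7_diag_monomial]
  unfold fw7_W
  rw [Finsupp.prod_zero_index, one_mul, mul_one]
  rfl

theorem fw7_zero_left (A : Matrix ι ι ℤ) (p : ℕ) (g : Fock ι) : pairF A p 0 g = 0 := by
  have h := pairF_smul_left A p 0 0 g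
  rwa [zero_smul, zero_mul] at h

theorem fw7_zero_right (A : Matrix ι ι ℤ) (p : ℕ) (f : Fock ι) : pairF A p f 0 = 0 := by
  have h := pairF_smul_right A p 0 f 0
  rwa [zero_smul, zero_mul] at h

theorem fw7_sum_left (A : Matrix ι ι ℤ) (p : ℕ) {α : Type*} (s : Finset α) (F : α → Fock ι)
    (g : Fock ι) : pairF A p (∑ x ∈ s, F x) g = ∑ x ∈ s, pairF A p (F x) g := by
  classical
  induction s using Finset.induction_on with
  | empty => rw [Finset.sum_empty, Finset.sum_empty, fw7_zero_left]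
  | insert a s ha ih =>
    rw [Finset.sum_insert ha, Finset.sum_insert ha, pairF_add_left, ih]

theorem fw7_sum_right (A : Matrix ι ι ℤ) (p : ℕ) {α : Type*} (s : Finset α) (F : α → Fock ι)
    (f : Fock ι) : pairF A p f (∑ x ∈ s, F x) = ∑ x ∈ s, pairF A p f (F x) := by
  classical
  induction s using Finset.induction_on with
  | empty => rw [Finset.sum_empty, Finset.sum_empty, fw7_zero_right]
  | insert a s ha ih =>
    rw [Finset.sum_insert ha, Finset.sum_insert ha, pairF_add_right, ih]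

/-- the annihilation operator `ν(k+1)` -/
def fw7_D (A : Matrix ι ι ℤ) (p : ℕ) (ν : ι → ℂ) (k : ℕ) : Derivation ℂ (Fock ι) (Fock ι) :=
  ∑ i, form A p (bb i) ν • pderiv (i, k)

theorem fw7_D_apply (A : Matrix ι ι ℤ) (p : ℕ) (ν : ι → ℂ) (k : ℕ) (f : Fock ι) :
    fw7_D A p ν k f = ∑ i, form A p (bb i) ν • pderiv (i, k) f := by
  have h1 := congrFun (map_sum (Derivation.coeFnAddMonoidHom (R := ℂ) (A := Fock ι) (M := Fock ι))
    (fun i => form A p (bb i) ν • pderiv (R := ℂ) (i, k)) Finset.univ) f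
  rw [Finset.sum_apply] at h1
  exact h1

theorem fw7_D_X (A : Matrix ι ι ℤ) (p : ℕ) (ν : ι → ℂ) (k : ℕ) (i : ι) (l : ℕ) :
    fw7_D A p ν k (X (i, l)) = if l = k then C (form A p (bb i) ν) else 0 := by
  rw [fw7_D_apply, Finset.sum_eq_single i]
  · rw [pderiv_X]
    by_cases h : l = k
    · rw [if_pos h, h, Pi.single_eq_same, smul_eq_C_mul, mul_one]
    · rw [if_neg h, Pi.single_eq_of_ne (fun h' => h (congrArg Prod.snd h')), smul_zero]
  · intro j _ hj
    rw [pderiv_X, Pi.single_eq_of_ne (fun h' => hj (congrArg Prod.fst h').symm), smul_zero]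
  · intro h
    exact absurd (Finset.mem_univ i) h

theorem fw7_heis_pos (A : Matrix ι ι ℤ) (p : ℕ) (h : ι → ℂ) (k : ℕ) (η : ι → ℂ) (f : Fock ι) :
    heis A p h ((k : ℤ) + 1) η f = fw7_D A p h k f := by
  rw [fw7_D_apply]
  unfold heis
  have h1 : ¬ ((k : ℤ) + 1 < 0) := by omega
  have h2 : ¬ ((k : ℤ) + 1 = 0) := by omega
  have h3 : ((k : ℤ) + 1 - 1).toNat = k := by omega
  rw [if_neg h1, if_neg h2, h3, LinearMap.sum_apply]
  rfl

theorem fw7_heis_neg (A : Matrix ι ι ℤ) (p : ℕ) (h : ι → ℂ) (k : ℕ) (η : ι → ℂ) (f : Fock ι) :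
    heis A p h (-((k : ℤ) + 1)) η f = ((k : ℂ) + 1) • (osc h k * f) := by
  unfold heis
  have h1 : -((k : ℤ) + 1) < 0 := by omega
  have h3 : (-(-((k : ℤ) + 1)) - 1).toNat = k := by omega
  rw [if_pos h1, h3, LinearMap.smul_apply]
  push_cast
  rw [neg_neg]
  rfl

theorem fw7_phi_X (A : Matrix ι ι ℤ) (p : ℕ) (i : ι) (k : ℕ) :
    fw7_phi A p (X (i, k)) =
      -(C ((k + 1 : ℂ)⁻¹)) * ∑ j, C (form A p (bb j) (bb i)) * (X (j, k) : Fock ι) := by
  unfold fw7_phi
  rw [aeval_X]

theorem fw7_form_sum (A : Matrix ι ι ℤ) (p : ℕ) (μ ν : ι → ℂ) :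
    form A p μ ν = ∑ i, form A p μ (bb i) * ν i := by
  unfold form bb
  have h1 : ∀ i : ι, (p : ℂ) * (∑ a, ∑ b, μ a * (A a b : ℂ) * (Pi.single i 1 : ι → ℂ) b) =
      p * ∑ a, μ a * (A a i : ℂ) := by
    intro i
    congr 1
    refine Finset.sum_congr rfl fun a _ => ?_
    rw [Finset.sum_eq_single i]
    · rw [Pi.single_eq_same, mul_one]
    · intro b _ hb
      rw [Pi.single_eq_of_ne hb, mul_zero]
    · intro h
      exact absurd (Finset.mem_univ i) h
  rw [Finset.sum_congr rfl fun i _ => congrArg (· * ν i) (h1 i)]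
  simp only [Finset.mul_sum, Finset.sum_mul]
  rw [Finset.sum_comm]
  refine Finset.sum_congr rfl fun b _ => Finset.sum_congr rfl fun a _ => ?_
  ring

/-- `(k+1) osc ν k` is adjoint to `-ν(k+1)` -/
theorem fw7_adj_osc (A : Matrix ι ι ℤ) (p : ℕ) (ν : ι → ℂ) (k : ℕ) (f g : Fock ι) :
    ((k : ℂ) + 1) * pairF A p (osc ν k * f) g = -pairF A p f (fw7_D A p ν k g) := by
  have hX : ∀ i : ι, ((k : ℂ) + 1) * pairF A p (X (i, k) * f) g =
      -∑ j, form A p (bb j) (bb i) * pairF A p f (pderiv (j, k) g) := by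
    intro i
    have hk : ((k : ℂ) + 1) ≠ 0 := by exact_mod_cast Nat.succ_ne_zero k
    have h1 : fw7_phi A p (X (i, k) * f) = ∑ j, (-(((k : ℂ) + 1)⁻¹) *
        form A p (bb j) (bb i)) • (X (j, k) * fw7_phi A p f) := by
      rw [map_mul, fw7_phi_X, Finset.mul_sum, Finset.sum_mul]
      refine Finset.sum_congr rfl fun j _ => ?_
      rw [smul_eq_C_mul, C_mul, C_neg]
      ring
    rw [fw7_pairF, h1]
    have h2 : diagPair (∑ j, (-(((k : ℂ) + 1)⁻¹) *
        form A p (bb j) (bb i)) • (X (j, k) * fw7_phi A p f)) g =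
        ∑ j, (-(((k : ℂ) + 1)⁻¹) * form A p (bb j) (bb i)) *
          diagPair (fw7_phi A p f) (pderiv (j, k) g) := by
      have h3 : ∀ S : Finset ι, diagPair (∑ j ∈ S, (-(((k : ℂ) + 1)⁻¹) *
        form A p (bb j) (bb i)) • (X (j, k) * fw7_phi A p f)) g =
        ∑ j ∈ S, (-(((k : ℂ) + 1)⁻¹) * form A p (bb j) (bb i)) *
          diagPair (fw7_phi A p f) (pderiv (j, k) g) := by
        intro S
        induction S using Finset.induction_on with
        | empty =>
          rw [Finset.sum_empty, Finset.sum_empty]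
          have h4 := fw7_diag_smul_left 0 0 g
          rwa [zero_smul, zero_mul] at h4
        | insert a s ha ih =>
          rw [Finset.sum_insert ha, Finset.sum_insert ha, fw7_diag_add_left, ih,
            fw7_diag_smul_left, fw7_diag_X]
      exact h3 Finset.univ
    rw [h2, Finset.mul_sum, ← Finset.sum_neg_distrib]
    refine Finset.sum_congr rfl fun j _ => ?_
    rw [fw7_pairF]
    field_simp
  have h1 : osc ν k * f = ∑ i, ν i • (X (i, k) * f) := by
    unfold osc
    rw [Finset.sum_mul]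
    refine Finset.sum_congr rfl fun i _ => ?_
    rw [smul_eq_C_mul, mul_assoc]
  rw [h1, fw7_sum_left, Finset.mul_sum]
  have h2 : ∀ i : ι, ((k : ℂ) + 1) * pairF A p (ν i • (X (i, k) * f)) g =
      -∑ j, ν i * form A p (bb j) (bb i) * pairF A p f (pderiv (j, k) g) := by
    intro i
    have h3 := hX i
    rw [pairF_smul_left]
    have h4 : ((k : ℂ) + 1) * (ν i * pairF A p (X (i, k) * f) g) =
        ν i * (((k : ℂ) + 1) * pairF A p (X (i, k) * f) g) := by ring
    rw [h4, h3, mul_neg, Finset.mul_sum]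
    congr 1
    refine Finset.sum_congr rfl fun j _ => ?_
    ring
  rw [Finset.sum_congr rfl fun i _ => h2 i, Finset.sum_neg_distrib, Finset.sum_comm,
    fw7_D_apply, fw7_sum_right]
  congr 1
  refine Finset.sum_congr rfl fun j _ => ?_
  rw [pairF_smul_right, fw7_form_sum A p (bb j) ν, Finset.sum_mul]
  refine Finset.sum_congr rfl fun i _ => ?_
  ring

theorem fw7_form_bb (A : Matrix ι ι ℤ) (p : ℕ) (i : ι) (h : ι → ℂ) :
    form A p h (bb i) = ∑ j, form A p (bb j) (bb i) * h j := by
  unfold form bb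
  have h1 : ∀ j : ι, ((p : ℂ) * (∑ a, ∑ b, (Pi.single j 1 : ι → ℂ) a * (A a b : ℂ) *
      (Pi.single i 1 : ι → ℂ) b)) = p * (A j i : ℂ) := by
    intro j
    congr 1
    rw [Finset.sum_eq_single j]
    · rw [Finset.sum_eq_single i]
      · rw [Pi.single_eq_same, Pi.single_eq_same, mul_one, one_mul]
      · intro b _ hb
        rw [Pi.single_eq_of_ne hb, mul_zero]
      · intro h
        exact absurd (Finset.mem_univ i) h
    · intro a _ ha
      refine Finset.sum_eq_zero fun b _ => ?_
      rw [Pi.single_eq_of_ne ha, zero_mul, zero_mul]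
    · intro h
      exact absurd (Finset.mem_univ j) h
  rw [Finset.sum_congr rfl fun j _ => congrArg (· * h j) (h1 j), Finset.mul_sum]
  refine Finset.sum_congr rfl fun a _ => ?_
  rw [Finset.sum_eq_single i]
  · rw [Pi.single_eq_same, mul_one]
    ring
  · intro b _ hb
    rw [Pi.single_eq_of_ne hb, mul_zero]
  · intro h
    exact absurd (Finset.mem_univ i) h

theorem fw7_osc_bb (i : ι) (k : ℕ) : osc (bb i) k = X (i, k) := by
  unfold osc bb
  rw [Finset.sum_eq_single i]
  · rw [Pi.single_eq_same, map_one, one_mul]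
  · intro b _ hb
    rw [Pi.single_eq_of_ne hb, map_zero, zero_mul]
  · intro h
    exact absurd (Finset.mem_univ i) h

theorem fw7_D_osc (A : Matrix ι ι ℤ) (p : ℕ) (ν h : ι → ℂ) (k l : ℕ) :
    fw7_D A p ν k (osc h l) = if l = k then C (∑ j, form A p (bb j) ν * h j) else 0 := by
  unfold osc
  rw [map_sum]
  have h1 : ∀ i : ι, fw7_D A p ν k (C (h i) * X (i, l)) =
      if l = k then C (form A p (bb i) ν * h i) else 0 := by
    intro i
    rw [← smul_eq_C_mul, Derivation.map_smul, fw7_D_X]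
    split_ifs
    · rw [smul_eq_C_mul, ← C_mul, mul_comm]
    · rw [smul_zero]
  rw [Finset.sum_congr rfl fun i _ => h1 i]
  split_ifs
  · rw [map_sum]
  · rw [Finset.sum_const_zero]

/-- `ν(k+1)` is adjoint to `-(k+1) osc ν k` -/
theorem fw7_adj_D (A : Matrix ι ι ℤ) (hA : ∀ i j, A i j = A j i) (p : ℕ) (ν : ι → ℂ) (k : ℕ)
    (f : Fock ι) : ∀ g : Fock ι,
    pairF A p (fw7_D A p ν k f) g = -(((k : ℂ) + 1) * pairF A p f (osc ν k * g)) := by
  induction f using MvPolynomial.induction_on with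
  | C a =>
    intro g
    have h1 : (C a : Fock ι) = a • 1 := by rw [smul_eq_C_mul, mul_one]
    rw [h1, Derivation.map_smul, Derivation.map_one_eq_zero, smul_zero, fw7_zero_left,
      pairF_smul_left, pairF_one_left, map_mul]
    have h2 : constantCoeff (osc ν k) = (0 : ℂ) := by
      unfold osc
      rw [map_sum]
      refine Finset.sum_eq_zero fun i _ => ?_
      rw [map_mul, constantCoeff_X, mul_zero]
    rw [h2, zero_mul, mul_zero, mul_zero, neg_zero]
  | add f f' hf hf' =>
    intro g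
    rw [map_add, pairF_add_left, hf, hf', pairF_add_left]
    ring
  | mul_X f x hf =>
    intro g
    obtain ⟨i, l⟩ := x
    have hl : ((l : ℂ) + 1) ≠ 0 := by exact_mod_cast Nat.succ_ne_zero l
    have hadj : ∀ u v : Fock ι, pairF A p (u * X (i, l)) v =
        -(((l : ℂ) + 1)⁻¹ * pairF A p u (fw7_D A p (bb i) l v)) := by
      intro u v
      have h1 := fw7_adj_osc A p (bb i) l u v
      rw [fw7_osc_bb, mul_comm (X (i, l)) u] at h1
      have h2 : pairF A p (u * X (i, l)) v =
          ((l : ℂ) + 1)⁻¹ * (((l : ℂ) + 1) * pairF A p (u * X (i, l)) v) := by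
        rw [← mul_assoc, inv_mul_cancel₀ hl, one_mul]
      rw [h2, h1]
      ring
    have h3 : fw7_D A p ν k (f * X (i, l)) =
        (if l = k then form A p (bb i) ν else 0) • f + fw7_D A p ν k f * X (i, l) := by
      rw [Derivation.leibniz, fw7_D_X, smul_eq_mul, smul_eq_mul, smul_eq_C_mul, mul_comm (X (i, l))]
      congr 1
      split_ifs
      · ring
      · rw [map_zero]
        ring
    have h4 : fw7_D A p (bb i) l (osc ν k * g) =
        osc ν k * fw7_D A p (bb i) l g + (if l = k then form A p (bb i) ν else 0) • g := by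
      rw [Derivation.leibniz, smul_eq_mul, smul_eq_mul, fw7_D_osc, ← fw7_form_bb,
        form_symm A hA, smul_eq_C_mul]
      congr 1
      by_cases h : l = k
      · rw [if_pos h, if_pos h.symm]
        ring
      · rw [if_neg h, if_neg (Ne.symm h), map_zero]
        ring
    rw [h3, pairF_add_left, pairF_smul_left, hadj, hf, hadj, h4, pairF_add_right,
      pairF_smul_right]
    by_cases h : l = k
    · subst h
      rw [if_pos rfl]
      field_simp
      ring
    · rw [if_neg h]
      ring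

/-- `h(-n)` and `-h(n)` are adjoint (`n ≠ 0`; the last argument of `heis` is irrelevant). -/
theorem pairF_heis (A : Matrix ι ι ℤ) (hA : IsADE A) (p : ℕ) (h : ι → ℂ) (n : ℤ) (hn : n ≠ 0)
    (η η' : ι → ℂ) (f g : Fock ι) :
    pairF A p (heis A p h n η f) g = -pairF A p f (heis A p h (-n) η' g) := by
  rcases lt_or_gt_of_ne hn with hn' | hn'
  · obtain ⟨k, hk⟩ : ∃ k : ℕ, n = -((k : ℤ) + 1) := ⟨(-n - 1).toNat, by omega⟩
    rw [hk, fw7_heis_neg, neg_neg, fw7_heis_pos, pairF_smul_left, fw7_adj_osc]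
  · obtain ⟨k, hk⟩ : ∃ k : ℕ, n = (k : ℤ) + 1 := ⟨(n - 1).toNat, by omega⟩
    rw [hk, fw7_heis_pos, fw7_heis_neg, pairF_smul_right, fw7_adj_D A hA.symm]

/-! ### Transposition of `vop` -/

/-- the recursion of the annihilation part -/
theorem fw7_dvd (A : Matrix ι ι ℤ) (p : ℕ) (ν : ι → ℂ) (K : ℕ) (g : Fock ι) :
    (Polynomial.X : Polynomial (Fock ι)) ^ (K + 1) ∣
      Polynomial.X * Polynomial.derivative (annih A p ν g) +
        ∑ k ∈ Finset.range K, Polynomial.X ^ (k + 1) * annih A p ν (fw7_D A p ν k g) := by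
  induction g using MvPolynomial.induction_on with
  | C a =>
    have h1 : annih A p ν (C a) = Polynomial.C (C a) := by
      unfold annih
      rw [aeval_C]
      rfl
    have h2 : ∀ k, fw7_D A p ν k (C a) = 0 := by
      intro k
      have h1 : (C a : Fock ι) = a • 1 := by rw [smul_eq_C_mul, mul_one]
      rw [h1, Derivation.map_smul, Derivation.map_one_eq_zero, smul_zero]
    rw [h1, Polynomial.derivative_C, mul_zero, zero_add, Finset.sum_eq_zero]
    · exact dvd_zero _
    · intro k _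
      rw [h2, map_zero, mul_zero]
  | add f f' hf hf' =>
    have h1 : Polynomial.X * Polynomial.derivative (annih A p ν (f + f')) +
        ∑ k ∈ Finset.range K, Polynomial.X ^ (k + 1) * annih A p ν (fw7_D A p ν k (f + f')) =
      (Polynomial.X * Polynomial.derivative (annih A p ν f) +
        ∑ k ∈ Finset.range K, Polynomial.X ^ (k + 1) * annih A p ν (fw7_D A p ν k f)) +
      (Polynomial.X * Polynomial.derivative (annih A p ν f') +
        ∑ k ∈ Finset.range K, Polynomial.X ^ (k + 1) * annih A p ν (fw7_D A p ν k f')) := by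
      have h2 : ∀ k ∈ Finset.range K,
          Polynomial.X ^ (k + 1) * annih A p ν (fw7_D A p ν k (f + f')) =
          Polynomial.X ^ (k + 1) * annih A p ν (fw7_D A p ν k f) +
          Polynomial.X ^ (k + 1) * annih A p ν (fw7_D A p ν k f') := by
        intro k _
        rw [map_add, map_add, mul_add]
      rw [Finset.sum_congr rfl h2, Finset.sum_add_distrib, map_add, Polynomial.derivative_add]
      ring
    rw [h1]
    exact dvd_add hf hf'
  | mul_X f x hf =>
    obtain ⟨i, l⟩ := x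
    have hX : (Polynomial.X : Polynomial (Fock ι)) ^ (K + 1) ∣
        Polynomial.X * Polynomial.derivative (annih A p ν (X (i, l))) +
        ∑ k ∈ Finset.range K, Polynomial.X ^ (k + 1) * annih A p ν (fw7_D A p ν k (X (i, l))) := by
      have hl : ((l : ℂ) + 1) ≠ 0 := by exact_mod_cast Nat.succ_ne_zero l
      have h1 : annih A p ν (X (i, l)) = Polynomial.C (X (i, l)) -
          Polynomial.C (C (form A p (bb i) ν / (l + 1))) * Polynomial.X ^ (l + 1) := by
        unfold annih bb
        rw [aeval_X]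
      have h2 : Polynomial.X * Polynomial.derivative (annih A p ν (X (i, l))) =
          -(Polynomial.C (C (form A p (bb i) ν)) * Polynomial.X ^ (l + 1)) := by
        rw [h1, Polynomial.derivative_sub, Polynomial.derivative_C, zero_sub,
          Polynomial.derivative_C_mul_X_pow, Nat.add_sub_cancel]
        have h3 : (C (form A p (bb i) ν / (l + 1)) * ((l + 1 : ℕ) : Fock ι)) =
            C (form A p (bb i) ν) := by
          have h4 : ((l + 1 : ℕ) : Fock ι) = C ((l : ℂ) + 1) := by
            rw [map_add, map_one]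
            push_cast
            rfl
          rw [h4, ← C_mul, div_mul_cancel₀ _ hl]
        rw [h3, pow_succ]
        ring
      rw [h2]
      by_cases hlK : l < K
      · rw [Finset.sum_eq_single l]
        · rw [fw7_D_X, if_pos rfl]
          have h5 : annih A p ν (C (form A p (bb i) ν)) = Polynomial.C (C (form A p (bb i) ν)) := by
            unfold annih
            rw [aeval_C]
            rfl
          rw [h5, mul_comm (Polynomial.X ^ (l + 1)), neg_add_cancel]
          exact dvd_zero _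
        · intro k _ hk
          rw [fw7_D_X, if_neg (Ne.symm hk), map_zero, mul_zero]
        · intro h
          exact absurd (Finset.mem_range.2 hlK) h
      · rw [Finset.sum_eq_zero]
        · have h6 : -(Polynomial.C (C (form A p (bb i) ν)) * Polynomial.X ^ (l + 1)) =
              Polynomial.C (-(C (form A p (bb i) ν)) : Fock ι) * Polynomial.X ^ (l + 1) := by
            rw [Polynomial.C_neg]
            ring
          rw [add_zero, h6]
          exact Dvd.dvd.mul_left (pow_dvd_pow _ (by omega)) _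
        · intro k hk
          rw [Finset.mem_range] at hk
          rw [fw7_D_X, if_neg (by omega), map_zero, mul_zero]
    have h1 : Polynomial.X * Polynomial.derivative (annih A p ν (f * X (i, l))) +
        ∑ k ∈ Finset.range K, Polynomial.X ^ (k + 1) * annih A p ν (fw7_D A p ν k (f * X (i, l))) =
      (Polynomial.X * Polynomial.derivative (annih A p ν f) +
        ∑ k ∈ Finset.range K, Polynomial.X ^ (k + 1) * annih A p ν (fw7_D A p ν k f)) *
        annih A p ν (X (i, l)) +
      annih A p ν f * (Polynomial.X * Polynomial.derivative (annih A p ν (X (i, l))) +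
        ∑ k ∈ Finset.range K, Polynomial.X ^ (k + 1) * annih A p ν (fw7_D A p ν k (X (i, l)))) := by
      have h2 : ∀ k ∈ Finset.range K,
          Polynomial.X ^ (k + 1) * annih A p ν (fw7_D A p ν k (f * X (i, l))) =
          (Polynomial.X ^ (k + 1) * annih A p ν (fw7_D A p ν k f)) * annih A p ν (X (i, l)) +
          annih A p ν f * (Polynomial.X ^ (k + 1) * annih A p ν (fw7_D A p ν k (X (i, l)))) := by
        intro k _
        rw [Derivation.leibniz, map_add, smul_eq_mul, smul_eq_mul, map_mul, map_mul]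
        ring
      rw [Finset.sum_congr rfl h2, Finset.sum_add_distrib, map_mul, Polynomial.derivative_mul,
        ← Finset.sum_mul, ← Finset.mul_sum]
      ring
    rw [h1]
    exact dvd_add (Dvd.dvd.mul_right hf _) (Dvd.dvd.mul_left hX _)

theorem fw7_Sop_succ (A : Matrix ι ι ℤ) (p : ℕ) (ν : ι → ℂ) (n : ℕ) (g : Fock ι) :
    ((n : ℂ) + 1) • Sop A p ν (n + 1) g =
      -∑ k ∈ Finset.range (n + 1), Sop A p ν (n - k) (fw7_D A p ν k g) := by
  have h1 := fw7_dvd A p ν (n + 1) g
  have h2 := Polynomial.X_pow_dvd_iff.1 h1 (n + 1) (by omega)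
  rw [Polynomial.coeff_add, Polynomial.coeff_X_mul, Polynomial.coeff_derivative,
    Polynomial.finsetSum_coeff] at h2
  have h3 : ∀ k ∈ Finset.range (n + 1), (Polynomial.X ^ (k + 1) *
      annih A p ν (fw7_D A p ν k g)).coeff (n + 1) = Sop A p ν (n - k) (fw7_D A p ν k g) := by
    intro k hk
    rw [Finset.mem_range] at hk
    rw [Polynomial.coeff_X_pow_mul', if_pos (by omega), fw3_Sop_coeff]
    congr 1
    omega
  rw [Finset.sum_congr rfl h3] at h2
  rw [fw3_Sop_coeff, smul_eq_C_mul]
  have h4 : C ((n : ℂ) + 1) = ((n : Fock ι) + 1) := by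
    rw [map_add, map_one]
    push_cast
    rfl
  rw [h4]
  linear_combination h2

theorem fw7_E_adj (A : Matrix ι ι ℤ) (p : ℕ) (ν : ι → ℂ) (n : ℕ) : ∀ f g : Fock ι,
    pairF A p (expCoeff ν n * f) g = pairF A p f (Sop A p ν n g) := by
  induction n using Nat.strong_induction_on with
  | _ n ih =>
    intro f g
    rcases n with _ | n
    · rw [expCoeff_zero, one_mul, Sop_zero]
    · have hn : ((n : ℂ) + 1) ≠ 0 := by exact_mod_cast Nat.succ_ne_zero n
      apply mul_left_cancel₀ hn
      rw [← pairF_smul_left, ← pairF_smul_right, fw7_Sop_succ]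
      have h1 : ((n : ℂ) + 1) • (expCoeff ν (n + 1) * f) =
          ∑ k ∈ Finset.range (n + 1), ((k : ℂ) + 1) • (osc ν k * (expCoeff ν (n - k) * f)) := by
        rw [smul_eq_C_mul, ← mul_assoc, expCoeff_succ, Finset.sum_mul]
        refine Finset.sum_congr rfl fun k _ => ?_
        rw [smul_eq_C_mul]
        ring
      rw [h1, fw7_sum_left]
      have h2 : -∑ k ∈ Finset.range (n + 1), Sop A p ν (n - k) (fw7_D A p ν k g) =
          ∑ k ∈ Finset.range (n + 1), (-1 : ℂ) • Sop A p ν (n - k) (fw7_D A p ν k g) := by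
        rw [← Finset.smul_sum, neg_one_smul]
      rw [h2, fw7_sum_right]
      refine Finset.sum_congr rfl fun k hk => ?_
      rw [Finset.mem_range] at hk
      rw [pairF_smul_left, fw7_adj_osc, ih (n - k) (by omega), pairF_smul_right]
      ring

theorem fw7_S_adj (A : Matrix ι ι ℤ) (hA : ∀ i j, A i j = A j i) (p : ℕ) (ν : ι → ℂ) (n : ℕ) :
    ∀ f g : Fock ι, pairF A p (Sop A p ν n f) g = pairF A p f (expCoeff ν n * g) := by
  induction n using Nat.strong_induction_on with
  | _ n ih =>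
    intro f g
    rcases n with _ | n
    · rw [expCoeff_zero, one_mul, Sop_zero]
    · have hn : ((n : ℂ) + 1) ≠ 0 := by exact_mod_cast Nat.succ_ne_zero n
      apply mul_left_cancel₀ hn
      rw [← pairF_smul_left, ← pairF_smul_right, fw7_Sop_succ]
      have h1 : ((n : ℂ) + 1) • (expCoeff ν (n + 1) * g) =
          ∑ k ∈ Finset.range (n + 1), ((k : ℂ) + 1) • (osc ν k * (expCoeff ν (n - k) * g)) := by
        rw [smul_eq_C_mul, ← mul_assoc, expCoeff_succ, Finset.sum_mul]
        refine Finset.sum_congr rfl fun k _ => ?_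
        rw [smul_eq_C_mul]
        ring
      rw [h1, fw7_sum_right]
      have h2 : -∑ k ∈ Finset.range (n + 1), Sop A p ν (n - k) (fw7_D A p ν k f) =
          ∑ k ∈ Finset.range (n + 1), (-1 : ℂ) • Sop A p ν (n - k) (fw7_D A p ν k f) := by
        rw [← Finset.smul_sum, neg_one_smul]
      rw [h2, fw7_sum_left]
      refine Finset.sum_congr rfl fun k hk => ?_
      rw [Finset.mem_range] at hk
      rw [pairF_smul_left, ih (n - k) (by omega), fw7_adj_D A hA, pairF_smul_right]
      ring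

theorem fw7_EZ_adj (A : Matrix ι ι ℤ) (p : ℕ) (ν : ι → ℂ) (m : ℤ) (f g : Fock ι) (N : ℕ)
    (hN : ∀ r, N ≤ r → Sop A p ν r g = 0) :
    pairF A p (expCoeffZ ν m * f) g =
      ∑ r ∈ Finset.range N, if (r : ℤ) = m then pairF A p f (Sop A p ν r g) else 0 := by
  rcases lt_or_ge m 0 with h | h
  · rw [expCoeffZ_neg ν m h, zero_mul, fw7_zero_left, Finset.sum_eq_zero]
    intro r _
    rw [if_neg (by omega)]
  · obtain ⟨n, rfl⟩ : ∃ n : ℕ, m = n := ⟨m.toNat, by omega⟩
    rw [expCoeffZ_nat, fw7_E_adj]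
    rcases lt_or_ge n N with hn | hn
    · rw [Finset.sum_eq_single n]
      · rw [if_pos rfl]
      · intro r _ hr
        rw [if_neg (by exact_mod_cast hr)]
      · intro h'
        exact absurd (Finset.mem_range.2 hn) h'
    · rw [hN n hn, fw7_zero_right, Finset.sum_eq_zero]
      intro r hr
      rw [Finset.mem_range] at hr
      rw [if_neg (by omega)]

theorem fw7_SZ_adj (A : Matrix ι ι ℤ) (hA : ∀ i j, A i j = A j i) (p : ℕ) (ν : ι → ℂ) (m : ℤ)
    (f g : Fock ι) (N : ℕ) (hN : ∀ r, N ≤ r → Sop A p ν r f = 0) :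
    pairF A p f (expCoeffZ ν m * g) =
      ∑ r ∈ Finset.range N, if (r : ℤ) = m then pairF A p (Sop A p ν r f) g else 0 := by
  rcases lt_or_ge m 0 with h | h
  · rw [expCoeffZ_neg ν m h, zero_mul, fw7_zero_right, Finset.sum_eq_zero]
    intro r _
    rw [if_neg (by omega)]
  · obtain ⟨n, rfl⟩ : ∃ n : ℕ, m = n := ⟨m.toNat, by omega⟩
    rw [expCoeffZ_nat, ← fw7_S_adj A hA]
    rcases lt_or_ge n N with hn | hn
    · rw [Finset.sum_eq_single n]
      · rw [if_pos rfl]
      · intro r _ hr
        rw [if_neg (by exact_mod_cast hr)]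
      · intro h'
        exact absurd (Finset.mem_range.2 hn) h'
    · rw [hN n hn, fw7_zero_left, Finset.sum_eq_zero]
      intro r hr
      rw [Finset.mem_range] at hr
      rw [if_neg (by omega)]

theorem fw7_Sop_bound (A : Matrix ι ι ℤ) (p : ℕ) (ν : ι → ℂ) (f : Fock ι) :
    ∃ N : ℕ, ∀ r, N < r → Sop A p ν r f = 0 :=
  ⟨(annih A p ν f).natDegree, fun _ hr => Polynomial.coeff_eq_zero_of_natDegree_lt hr⟩

theorem pairF_vop (A : Matrix ι ι ℤ) (hA : IsADE A) (p : ℕ) (ν : ι → ℂ) (m : ℤ) (f g : Fock ι) :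
    pairF A p (vop A p ν m f) g = pairF A p f (vop A p ν (-m) g) := by
  obtain ⟨N1, hN1⟩ := fw7_Sop_bound A p ν f
  obtain ⟨N2, hN2⟩ := fw7_Sop_bound A p ν g
  have hf : ∀ q, max N1 N2 < q → Sop A p ν q f = 0 := fun q hq =>
    hN1 q (lt_of_le_of_lt (le_max_left _ _) hq)
  have hg : ∀ q, max N1 N2 < q → Sop A p ν q g = 0 := fun q hq =>
    hN2 q (lt_of_le_of_lt (le_max_right _ _) hq)
  rw [vop_eq A p ν m f (max N1 N2) hf, vop_eq A p ν (-m) g (max N1 N2) hg, fw7_sum_left,
    fw7_sum_right]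
  have h1 : ∀ q ∈ Finset.range (max N1 N2 + 1),
      pairF A p (expCoeffZ ν (m + q) * Sop A p ν q f) g =
      ∑ r ∈ Finset.range (max N1 N2 + 1),
        if (r : ℤ) = m + q then pairF A p (Sop A p ν q f) (Sop A p ν r g) else 0 := by
    intro q _
    exact fw7_EZ_adj A p ν _ _ g _ (fun r' hr => hg r' (by omega))
  have h2 : ∀ r ∈ Finset.range (max N1 N2 + 1),
      pairF A p f (expCoeffZ ν (-m + r) * Sop A p ν r g) =
      ∑ q ∈ Finset.range (max N1 N2 + 1),
        if (q : ℤ) = -m + r then pairF A p (Sop A p ν q f) (Sop A p ν r g) else 0 := by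
    intro r _
    exact fw7_SZ_adj A hA.symm p ν _ f _ _ (fun q' hq => hf q' (by omega))
  rw [Finset.sum_congr rfl h1, Finset.sum_congr rfl h2, Finset.sum_comm]
  refine Finset.sum_congr rfl fun r _ => Finset.sum_congr rfl fun q _ => ?_
  by_cases h : (r : ℤ) = m + q
  · rw [if_pos h, if_pos (by omega)]
  · rw [if_neg h, if_neg (by omega)]

/-! ### Homogeneity and nondegeneracy -/

theorem fw7_phi_homog_X (A : Matrix ι ι ℤ) (p : ℕ) (x : ι × ℕ) :
    FH (fw7_phi A p (X x)) (wF x) := by
  obtain ⟨i, k⟩ := x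
  rw [fw7_phi_X, ← C_neg]
  apply IsWeightedHomogeneous.C_mul
  apply IsWeightedHomogeneous.sum
  intro j _
  apply IsWeightedHomogeneous.C_mul
  exact isWeightedHomogeneous_X ℂ (wF (ι := ι)) (j, k)

theorem fw7_phi_homog_monomial (A : Matrix ι ι ℤ) (p : ℕ) (s : ι × ℕ →₀ ℕ) :
    ∀ a : ℂ, FH (fw7_phi A p (monomial s a)) (Finsupp.weight (wF (ι := ι)) s) := by
  induction s using Finsupp.induction_linear with
  | zero =>
    intro a
    have h1 : (monomial (0 : ι × ℕ →₀ ℕ)) a = (C a : Fock ι) := rfl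
    have h2 : fw7_phi A p (C a) = C a := by
      unfold fw7_phi
      rw [aeval_C]
      rfl
    rw [map_zero, h1, h2]
    exact isWeightedHomogeneous_C _ a
  | add s t hs ht =>
    intro a
    have h1 : (monomial (s + t)) a = (monomial s a * monomial t 1 : Fock ι) := by
      rw [monomial_mul, mul_one]
    rw [h1, map_add, map_mul]
    exact (hs a).mul (ht 1)
  | single x n =>
    intro a
    have h1 : (monomial (Finsupp.single x n)) a = (C a * X x ^ n : Fock ι) := by
      rw [C_mul_X_pow_eq_monomial]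
    have h2 : Finsupp.weight (wF (ι := ι)) (Finsupp.single x n) = n • wF x := by
      rw [Finsupp.weight_apply, Finsupp.sum_single_index (by simp)]
    have h4 : fw7_phi A p (C a) = C a := by
      unfold fw7_phi
      rw [aeval_C]
      rfl
    rw [h1, h2, map_mul, map_pow, h4]
    exact ((fw7_phi_homog_X A p x).pow n).C_mul a

theorem fw7_phi_homog (A : Matrix ι ι ℤ) (p : ℕ) (f : Fock ι) (d : ℕ) (hf : FH f d) :
    FH (fw7_phi A p f) d := by
  induction hf using IsWeightedHomogeneous.induction_on with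
  | zero =>
    rw [map_zero]
    exact isWeightedHomogeneous_zero _ _ _
  | add f g hf hg ihf ihg =>
    rw [map_add]
    exact ihf.add ihg
  | monomial s a hs =>
    rw [← hs]
    exact fw7_phi_homog_monomial A p s a

theorem pairF_homog (A : Matrix ι ι ℤ) (p : ℕ) (f g : Fock ι) (d e : ℕ) (hf : FH f d)
    (hg : FH g e) (hde : d ≠ e) : pairF A p f g = 0 := by
  rw [fw7_pairF]
  unfold diagPair
  refine Finset.sum_eq_zero fun m hm => ?_
  have h1 : Finsupp.weight (wF (ι := ι)) m = d :=
    fw7_phi_homog A p f d hf (MvPolynomial.mem_support_iff.1 hm)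
  have h2 : coeff m g = 0 := by
    apply hg.coeff_eq_zero
    rw [h1]
    exact hde
  rw [h2, mul_zero, zero_mul]

theorem fw7_det (A : Matrix ι ι ℤ) (hA : IsADE A) : A.det ≠ 0 := by
  intro h
  obtain ⟨v, hv, hv'⟩ := Matrix.exists_mulVec_eq_zero_iff.2 h
  have h1 := hA.pos v hv
  have h2 : ∑ i, ∑ j, v i * A i j * v j = 0 := by
    refine Finset.sum_eq_zero fun i _ => ?_
    have h3 : ∑ j, v i * A i j * v j = v i * (A.mulVec v) i := by
      unfold Matrix.mulVec dotProduct
      rw [Finset.mul_sum]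
      refine Finset.sum_congr rfl fun j _ => ?_
      ring
    rw [h3, hv', Pi.zero_apply, mul_zero]
  rw [h2] at h1
  exact lt_irrefl _ h1

/-- the matrix `⟨b_j, b_i⟩` -/
def fw7_G (A : Matrix ι ι ℤ) (p : ℕ) : Matrix ι ι ℂ := Matrix.of fun j i => form A p (bb j) (bb i)

theorem fw7_G_eq (A : Matrix ι ι ℤ) (p : ℕ) :
    fw7_G A p = (p : ℂ) • A.map (Int.cast : ℤ → ℂ) := by
  ext j i
  have h1 : fw7_G A p j i = form A p (bb j) (bb i) := rfl
  rw [h1, Matrix.smul_apply, Matrix.map_apply, smul_eq_mul]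
  unfold form bb
  congr 1
  rw [Finset.sum_eq_single j]
  · rw [Finset.sum_eq_single i]
    · rw [Pi.single_eq_same, Pi.single_eq_same, mul_one, one_mul]
    · intro b _ hb
      rw [Pi.single_eq_of_ne hb, mul_zero]
    · intro h
      exact absurd (Finset.mem_univ i) h
  · intro a _ ha
    refine Finset.sum_eq_zero fun b _ => ?_
    rw [Pi.single_eq_of_ne ha, zero_mul, zero_mul]
  · intro h
    exact absurd (Finset.mem_univ j) h

theorem fw7_G_det (A : Matrix ι ι ℤ) (hA : IsADE A) (p : ℕ) (hp : 1 ≤ p) :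
    IsUnit (fw7_G A p).det := by
  rw [fw7_G_eq, Matrix.det_smul, isUnit_iff_ne_zero]
  have h1 : (A.map (Int.cast : ℤ → ℂ)).det = ((A.det : ℤ) : ℂ) := by
    have := (RingHom.map_det (Int.castRingHom ℂ) A).symm
    simpa [RingHom.mapMatrix_apply] using this
  rw [h1]
  refine mul_ne_zero (pow_ne_zero _ ?_) ?_
  · have : p ≠ 0 := by omega
    exact_mod_cast this
  · exact_mod_cast fw7_det A hA

/-- linear substitutions -/
def fw7_lin (M : Matrix ι ι ℂ) (c : ℕ → ℂ) : Fock ι →ₐ[ℂ] Fock ι :=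
  aeval fun x : ι × ℕ => C (c x.2) * ∑ j, C (M j x.1) * (X (j, x.2) : Fock ι)

theorem fw7_phi_eq (A : Matrix ι ι ℤ) (p : ℕ) :
    fw7_phi A p = fw7_lin (fw7_G A p) (fun k => -((k : ℂ) + 1)⁻¹) := by
  unfold fw7_phi fw7_lin
  refine MvPolynomial.algHom_ext fun x => ?_
  rw [aeval_X, aeval_X, C_neg]
  rfl

theorem fw7_lin_comp (M M' : Matrix ι ι ℂ) (c c' : ℕ → ℂ) (h : M * M' = 1)
    (hc : ∀ k, c k * c' k = 1) (f : Fock ι) : fw7_lin M c (fw7_lin M' c' f) = f := by
  have h1 : (fw7_lin M c).comp (fw7_lin M' c') = AlgHom.id ℂ (Fock ι) := by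
    refine MvPolynomial.algHom_ext fun x => ?_
    obtain ⟨i, k⟩ := x
    rw [AlgHom.comp_apply, AlgHom.id_apply]
    have hX : ∀ (M : Matrix ι ι ℂ) (c : ℕ → ℂ) (i : ι), fw7_lin M c (X (i, k)) =
        C (c k) * ∑ j, C (M j i) * (X (j, k) : Fock ι) := by
      intro M c i
      unfold fw7_lin
      rw [aeval_X]
    have hC : ∀ a : ℂ, fw7_lin M c (C a) = C a := by
      intro a
      unfold fw7_lin
      rw [aeval_C]
      rfl
    rw [hX, map_mul, map_sum, hC]
    have h2 : ∀ j : ι, fw7_lin M c (C (M' j i) * X (j, k)) =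
        ∑ l, C (c k * (M l j * M' j i)) * (X (l, k) : Fock ι) := by
      intro j
      rw [map_mul, hC, hX, Finset.mul_sum, Finset.mul_sum]
      refine Finset.sum_congr rfl fun l _ => ?_
      rw [C_mul, C_mul]
      ring
    rw [Finset.sum_congr rfl fun j _ => h2 j, Finset.sum_comm]
    have h3 : ∀ l : ι, ∑ j, C (c k * (M l j * M' j i)) * (X (l, k) : Fock ι) =
        C (c k * (1 : Matrix ι ι ℂ) l i) * X (l, k) := by
      intro l
      rw [← Finset.sum_mul, ← map_sum, ← Finset.mul_sum, ← h, Matrix.mul_apply]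
    rw [Finset.sum_congr rfl fun l _ => h3 l, Finset.sum_eq_single i]
    · rw [Matrix.one_apply_eq, mul_one, ← mul_assoc, ← C_mul, mul_comm (c' k), hc, map_one,
        one_mul]
    · intro l _ hl
      rw [Matrix.one_apply_ne hl, mul_zero, map_zero, zero_mul]
    · intro h'
      exact absurd (Finset.mem_univ i) h'
  have h2 := congrArg (fun φ : Fock ι →ₐ[ℂ] Fock ι => φ f) h1
  exact h2

theorem fw7_phi_left (A : Matrix ι ι ℤ) (hA : IsADE A) (p : ℕ) (hp : 1 ≤ p) (f : Fock ι) :
    fw7_lin (fw7_G A p)⁻¹ (fun k => -((k : ℂ) + 1)) (fw7_phi A p f) = f := by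
  rw [fw7_phi_eq]
  refine fw7_lin_comp _ _ _ _ (Matrix.nonsing_inv_mul _ (fw7_G_det A hA p hp)) ?_ f
  intro k
  have hk : ((k : ℂ) + 1) ≠ 0 := by exact_mod_cast Nat.succ_ne_zero k
  rw [neg_mul_neg, mul_inv_cancel₀ hk]

theorem fw7_phi_right (A : Matrix ι ι ℤ) (hA : IsADE A) (p : ℕ) (hp : 1 ≤ p) (f : Fock ι) :
    fw7_phi A p (fw7_lin (fw7_G A p)⁻¹ (fun k => -((k : ℂ) + 1)) f) = f := by
  rw [fw7_phi_eq]
  refine fw7_lin_comp _ _ _ _ (Matrix.mul_nonsing_inv _ (fw7_G_det A hA p hp)) ?_ f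
  intro k
  have hk : ((k : ℂ) + 1) ≠ 0 := by exact_mod_cast Nat.succ_ne_zero k
  rw [neg_mul_neg, inv_mul_cancel₀ hk]

theorem pairF_nondeg (A : Matrix ι ι ℤ) (hA : IsADE A) (p : ℕ) (hp : 1 ≤ p) (g : Fock ι)
    (h : ∀ f, pairF A p f g = 0) : g = 0 := by
  refine fw7_diag_nondeg_right g fun f => ?_
  have h1 := h (fw7_lin (fw7_G A p)⁻¹ (fun k => -((k : ℂ) + 1)) f)
  rwa [fw7_pairF, fw7_phi_right A hA p hp] at h1

theorem pairF_nondeg_left (A : Matrix ι ι ℤ) (hA : IsADE A) (p : ℕ) (hp : 1 ≤ p) (f : Fock ι)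
    (h : ∀ g, pairF A p f g = 0) : f = 0 := by
  have h1 : fw7_phi A p f = 0 := fw7_diag_nondeg_left _ fun g => h g
  rw [← fw7_phi_left A hA p hp f, h1, map_zero]

end

end WPQ
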