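import Pool.Agent.WPQ.GAD

/-! [WPQ-GA1] Weight components; stable subspaces are modules.

`comp_mem`: for `g₀ ∈ s` choose for every `g ∈ s`, `g ≠ g₀`, an index `i(g)` with `g (i g) ≠ g₀ (i g)`
and apply the operator `∏_{g ∈ s, g ≠ g₀} (G (i g) - g (i g))` (the operators `G i` commute on the span of
the `v g`; it is easiest to argue by induction on a finset `t ⊆ s.erase g₀`: there is a vector of `K` of
the form `∑_{g ∈ s} c g • v g` with `c g₀ ≠ 0` and `c g = 0` for `g ∈ t`; step: apply
`G (i g) - g (i g)`).  So a nonzero multiple of `v g₀` is in `K`.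
`exists_comp`: every vector is a finite sum of weight vectors of pairwise different weights
(`Submodule.span_induction` on `h.span`).
`GM.sub`: the span condition for `K`: `x ∈ K` is `∑ v g` (`exists_comp`), all `v g ∈ K`
(`comp_mem`).
`wt_span`: if `T` consists of weight vectors and `x ∈ span T` has weight `g`, then `x` is in the span of
the elements of `T` of weight `g`.  [`x = ∑ c t • t`; group by weights: `x = ∑_{g'} v g'`, `v g'` in the span
of the elements of weight `g'`; `x - v g` has weight `g` and is a sum of vectors of weights `≠ g`: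
`comp_mem` with `K = ⊥` for the family `v g'` (`g' ≠ g`), `v g - x`: all are zero.] -/

namespace WPQ.GA

noncomputable section

variable {ι : Type} [Fintype ι] [DecidableEq ι] {A : Matrix ι ι ℤ}
variable {M : Type} [AddCommGroup M] [Module ℂ M] {E F G : ι → Module.End ℂ M}

private theorem ga1_zero (g : ι → ℤ) : Wt G g (0 : M) := fun i => by rw [map_zero, smul_zero]

private theorem ga1_add (g : ι → ℤ) (x y : M) (hx : Wt G g x) (hy : Wt G g y) : Wt G g (x + y) :=
  fun i => by rw [map_add, hx i, hy i, smul_add]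

private theorem ga1_smul (g : ι → ℤ) (a : ℂ) (x : M) (hx : Wt G g x) : Wt G g (a • x) :=
  fun i => by rw [map_smul, hx i, smul_comm]

private theorem ga1_sub (g : ι → ℤ) (x y : M) (hx : Wt G g x) (hy : Wt G g y) : Wt G g (x - y) :=
  fun i => by rw [map_sub, hx i, hy i, smul_sub]

/-- Separation of the weights in `t` from the weight `g₀`. -/
private theorem ga1_sep (K : Submodule ℂ M) (hK : ∀ i, ∀ v ∈ K, G i v ∈ K) (s : Finset (ι → ℤ))
    (v : (ι → ℤ) → M) (hv : ∀ g, Wt G g (v g)) (hs : ∑ g ∈ s, v g ∈ K) (g₀ : ι → ℤ)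
    (t : Finset (ι → ℤ)) : g₀ ∉ t → ∃ c : (ι → ℤ) → ℂ, c g₀ ≠ 0 ∧ (∀ g ∈ t, c g = 0) ∧
      ∑ g ∈ s, c g • v g ∈ K := by
  classical
  induction t using Finset.induction_on with
  | empty =>
    intro _
    refine ⟨fun _ => 1, one_ne_zero, fun g hg => absurd hg (Finset.notMem_empty g), ?_⟩
    simpa using hs
  | insert g₁ t hg₁ ih =>
    intro h
    rw [Finset.mem_insert, not_or] at h
    obtain ⟨c, hc0, hct, hc⟩ := ih h.2
    obtain ⟨i, hi⟩ : ∃ i, g₀ i ≠ g₁ i := by
      by_contra hcon
      push Not at hcon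
      exact h.1 (funext hcon)
    refine ⟨fun g => ((g i : ℂ) - (g₁ i : ℂ)) * c g, ?_, ?_, ?_⟩
    · refine mul_ne_zero (sub_ne_zero.mpr ?_) hc0
      exact_mod_cast hi
    · intro g hg
      rcases Finset.mem_insert.mp hg with hg | hg
      · subst hg
        show ((g i : ℂ) - (g i : ℂ)) * c g = 0
        rw [sub_self, zero_mul]
      · show ((g i : ℂ) - (g₁ i : ℂ)) * c g = 0
        rw [hct g hg, mul_zero]
    · have h1 : ∑ g ∈ s, (((g i : ℂ) - (g₁ i : ℂ)) * c g) • v g =
          G i (∑ g ∈ s, c g • v g) - (g₁ i : ℂ) • ∑ g ∈ s, c g • v g := by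
        rw [map_sum, Finset.smul_sum, ← Finset.sum_sub_distrib]
        refine Finset.sum_congr rfl fun g _ => ?_
        rw [map_smul, hv g i, smul_smul, smul_smul, ← sub_smul]
        congr 1
        ring
      show ∑ g ∈ s, (((g i : ℂ) - (g₁ i : ℂ)) * c g) • v g ∈ K
      rw [h1]
      exact K.sub_mem (hK i _ hc) (K.smul_mem _ hc)

theorem comp_mem (K : Submodule ℂ M) (hK : ∀ i, ∀ v ∈ K, G i v ∈ K) (s : Finset (ι → ℤ))
    (v : (ι → ℤ) → M) (hv : ∀ g, Wt G g (v g)) (hs : ∑ g ∈ s, v g ∈ K) (g : ι → ℤ) (hg : g ∈ s) :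
    v g ∈ K := by
  classical
  obtain ⟨c, hc0, hct, hc⟩ := ga1_sep K hK s v hv hs g (s.erase g) (Finset.notMem_erase g s)
  rw [Finset.sum_eq_single g] at hc
  · have h := K.smul_mem (c g)⁻¹ hc
    rwa [smul_smul, inv_mul_cancel₀ hc0, one_smul] at h
  · intro g' hg' hne
    rw [hct g' (Finset.mem_erase.mpr ⟨hne, hg'⟩), zero_smul]
  · intro h
    exact absurd hg h

/-- Grouping by weights, for a set of weight vectors. -/
private theorem ga1_group (T : Set M) (hT : ∀ t ∈ T, ∃ g, Wt G g t) (x : M)
    (hx : x ∈ Submodule.span ℂ T) : ∃ (s : Finset (ι → ℤ)) (v : (ι → ℤ) → M),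
      (∀ g, Wt G g (v g)) ∧ (∀ g, v g ∈ Submodule.span ℂ {t | t ∈ T ∧ Wt G g t}) ∧
      x = ∑ g ∈ s, v g := by
  classical
  induction hx using Submodule.span_induction with
  | mem x hx =>
    obtain ⟨g, hg⟩ := hT x hx
    refine ⟨{g}, fun g' => if g' = g then x else 0, ?_, ?_, ?_⟩
    · intro g'
      by_cases h : g' = g
      · subst h
        simpa using hg
      · simp only [if_neg h]
        exact ga1_zero g'
    · intro g'
      by_cases h : g' = g
      · subst h
        simp only [if_true]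
        exact Submodule.subset_span ⟨hx, hg⟩
      · simp only [if_neg h]
        exact Submodule.zero_mem _
    · simp
  | zero =>
    exact ⟨∅, fun _ => 0, fun g => ga1_zero g, fun g => Submodule.zero_mem _, by simp⟩
  | add x y _ _ hx hy =>
    obtain ⟨s, v, hv, hvT, hs⟩ := hx
    obtain ⟨s', v', hv', hvT', hs'⟩ := hy
    refine ⟨s ∪ s', fun g => (if g ∈ s then v g else 0) + (if g ∈ s' then v' g else 0),
      ?_, ?_, ?_⟩
    · intro g
      refine ga1_add g _ _ ?_ ?_
      · split
        · exact hv g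
        · exact ga1_zero g
      · split
        · exact hv' g
        · exact ga1_zero g
    · intro g
      refine Submodule.add_mem _ ?_ ?_
      · split
        · exact hvT g
        · exact Submodule.zero_mem _
      · split
        · exact hvT' g
        · exact Submodule.zero_mem _
    · rw [Finset.sum_add_distrib, ← Finset.sum_filter, ← Finset.sum_filter, hs, hs']
      congr 1
      · refine Finset.sum_congr ?_ fun _ _ => rfl
        ext g
        simp only [Finset.mem_filter, Finset.mem_union]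
        tauto
      · refine Finset.sum_congr ?_ fun _ _ => rfl
        ext g
        simp only [Finset.mem_filter, Finset.mem_union]
        tauto
  | smul a x _ hx =>
    obtain ⟨s, v, hv, hvT, hs⟩ := hx
    refine ⟨s, fun g => a • v g, fun g => ga1_smul g a _ (hv g),
      fun g => Submodule.smul_mem _ a (hvT g), ?_⟩
    rw [hs, Finset.smul_sum]

theorem exists_comp (h : GM A E F G) (x : M) :
    ∃ (s : Finset (ι → ℤ)) (v : (ι → ℤ) → M), (∀ g, Wt G g (v g)) ∧ x = ∑ g ∈ s, v g := by
  have hx : x ∈ Submodule.span ℂ {v | ∃ g : ι → ℤ, Wt G g v} := by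
    rw [h.span]
    exact Submodule.mem_top
  obtain ⟨s, v, hv, _, hs⟩ := ga1_group {v | ∃ g : ι → ℤ, Wt G g v} (fun t ht => ht) x hx
  exact ⟨s, v, hv, hs⟩

theorem GM.sub (h : GM A E F G) (K : Submodule ℂ M) (hE : ∀ i, ∀ v ∈ K, E i v ∈ K)
    (hF : ∀ i, ∀ v ∈ K, F i v ∈ K) (hG : ∀ i, ∀ v ∈ K, G i v ∈ K) :
    GM A (M := K) (fun i => (E i).restrict (hE i)) (fun i => (F i).restrict (hF i))
      (fun i => (G i).restrict (hG i)) := by
  refine ⟨?_, ?_, ?_, ?_⟩
  · intro i j v
    apply Subtype.ext
    have h1 := h.GE i j (v : M)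
    by_cases hij : i = j
    · rw [if_pos hij] at h1 ⊢
      exact h1
    · rw [if_neg hij] at h1 ⊢
      rw [add_zero] at h1 ⊢
      exact h1
  · intro i j v
    apply Subtype.ext
    have h1 := h.GF i j (v : M)
    by_cases hij : i = j
    · rw [if_pos hij] at h1 ⊢
      exact h1
    · rw [if_neg hij] at h1 ⊢
      rw [sub_zero] at h1 ⊢
      exact h1
  · intro i j v
    apply Subtype.ext
    have h1 := h.EF i j (v : M)
    by_cases hij : i = j
    · rw [if_pos hij] at h1 ⊢
      rw [Submodule.coe_add, Submodule.coe_sum]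
      exact h1
    · rw [if_neg hij] at h1 ⊢
      rw [add_zero] at h1 ⊢
      exact h1
  · rw [eq_top_iff]
    rintro ⟨x, hx⟩ _
    obtain ⟨s, v, hv, hs⟩ := exists_comp h x
    have hK : ∀ g ∈ s, v g ∈ K := fun g hg =>
      comp_mem K hG s v hv (by rw [← hs]; exact hx) g hg
    have hx2 : (⟨x, hx⟩ : K) = ∑ g ∈ s.attach, (⟨v g.1, hK g.1 g.2⟩ : K) := by
      apply Subtype.ext
      rw [Submodule.coe_sum]
      show x = ∑ g ∈ s.attach, v g.1
      rw [Finset.sum_attach s v, hs]
    rw [hx2]
    refine Submodule.sum_mem _ fun g _ => Submodule.subset_span ⟨g.1, fun i => ?_⟩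
    apply Subtype.ext
    exact hv g.1 i

theorem wt_span (T : Set M) (hT : ∀ t ∈ T, ∃ g, Wt G g t) (x : M) (hx : x ∈ Submodule.span ℂ T)
    (g : ι → ℤ) (hg : Wt G g x) : x ∈ Submodule.span ℂ {t | t ∈ T ∧ Wt G g t} := by
  classical
  obtain ⟨s, v, hv, hvT, hs⟩ := ga1_group T hT x hx
  -- add the weight `g` to the family
  set v' : (ι → ℤ) → M := fun g' => if g' ∈ s then v g' else 0 with hv'
  have hw' : ∀ g', Wt G g' (v' g') := by
    intro g'
    simp only [hv']
    split
    · exact hv g'
    · exact ga1_zero g'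
  have hT' : ∀ g', v' g' ∈ Submodule.span ℂ {t | t ∈ T ∧ Wt G g' t} := by
    intro g'
    simp only [hv']
    split
    · exact hvT g'
    · exact Submodule.zero_mem _
  have hs' : x = ∑ g' ∈ insert g s, v' g' := by
    by_cases hgs : g ∈ s
    · rw [Finset.insert_eq_of_mem hgs, hs]
      exact Finset.sum_congr rfl fun g' hg' => by simp only [hv', if_pos hg']
    · rw [Finset.sum_insert hgs]
      have h0 : v' g = 0 := by simp only [hv', if_neg hgs]
      rw [h0, zero_add, hs]
      exact Finset.sum_congr rfl fun g' hg' => by simp only [hv', if_pos hg']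
  set w : (ι → ℤ) → M := fun g' => if g' = g then v' g - x else v' g' with hw
  have hww : ∀ g', Wt G g' (w g') := by
    intro g'
    simp only [hw]
    by_cases h : g' = g
    · subst h
      rw [if_pos rfl]
      exact ga1_sub g' _ _ (hw' g') hg
    · rw [if_neg h]
      exact hw' g'
  have hsum : ∑ g' ∈ insert g s, w g' ∈ (⊥ : Submodule ℂ M) := by
    rw [Submodule.mem_bot]
    have h1 : ∀ g', w g' = v' g' - (if g' = g then x else 0) := by
      intro g'
      simp only [hw]
      by_cases h : g' = g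
      · subst h
        rw [if_pos rfl, if_pos rfl]
      · rw [if_neg h, if_neg h, sub_zero]
    rw [Finset.sum_congr rfl fun g' _ => h1 g', Finset.sum_sub_distrib, ← hs',
      Finset.sum_ite_eq' (insert g s) g (fun _ => x), if_pos (Finset.mem_insert_self g s), sub_self]
  have hfin := comp_mem (G := G) ⊥ (by
    intro i v hv
    rw [Submodule.mem_bot] at hv ⊢
    rw [hv, map_zero]) (insert g s) w hww hsum g (Finset.mem_insert_self g s)
  rw [Submodule.mem_bot] at hfin
  simp only [hw, if_true] at hfin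
  rw [sub_eq_zero] at hfin
  rw [← hfin]
  exact hT' g

/-- A nonzero vector has only one weight. -/
theorem wt_unique (x : M) (h0 : x ≠ 0) (g g' : ι → ℤ) (h : Wt G g x) (h' : Wt G g' x) : g = g' := by
  funext i
  have h1 : (g i : ℂ) • x = (g' i : ℂ) • x := by rw [← h i, ← h' i]
  have h2 : ((g i : ℂ) - (g' i : ℂ)) • x = 0 := by rw [sub_smul, h1, sub_self]
  rcases smul_eq_zero.mp h2 with h3 | h3
  · have h4 : (g i : ℂ) = (g' i : ℂ) := sub_eq_zero.mp h3
    exact_mod_cast h4
  · exact absurd h3 h0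

end

end WPQ.GA
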