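import Pool.Agent.WPQ.GA9

/-! [WPQ-GA10] Complete reducibility.

`H₁ = Hom(D, K)` and `H₂ = Hom(K, K)` are `GM` (`GM.hom`, `GM.sub`), `res : H₁ → H₂`, `f ↦ f ∘ K.subtype`
commutes with all operators and is surjective (`Submodule.exists_isCompl`, or
`LinearMap.exists_leftInverse_of_injective`).  Take `g ∈ H₁` with `res g = id`, `g = g₀ + g'` with
`g₀ ∈ Inv H₁`, `g' ∈ Co H₁` (`GM.inv_sup_co`).  `id ∈ Inv H₂`, `res g₀ ∈ Inv H₂`, `res g' ∈ Co H₂`
(`Submodule.map` of a supremum of ranges), so `id - res g₀ = res g' ∈ Inv H₂ ∩ Co H₂ = 0` (`GM.inv_co`).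
`π = g₀`. -/

namespace WPQ.GA

noncomputable section

variable {ι : Type} [Fintype ι] [DecidableEq ι] {A : Matrix ι ι ℤ}
variable {D : Type} [AddCommGroup D] [Module ℂ D] {E F G : ι → Module.End ℂ D}

theorem ga10_Inv {M : Type} [AddCommGroup M] [Module ℂ M] (E G : ι → Module.End ℂ M) (v : M) :
    v ∈ Inv E G ↔ ∀ i, E i v = 0 ∧ G i v = 0 := by
  unfold Inv
  rw [Submodule.mem_iInf]
  refine forall_congr' fun i => ?_
  rw [Submodule.mem_inf, LinearMap.mem_ker, LinearMap.mem_ker]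

theorem ga10_map {M N : Type} [AddCommGroup M] [Module ℂ M] [AddCommGroup N] [Module ℂ N]
    (E G : ι → Module.End ℂ M) (E' G' : ι → Module.End ℂ N) (r : M →ₗ[ℂ] N)
    (hE : ∀ i v, r (E i v) = E' i (r v)) (hG : ∀ i v, r (G i v) = G' i (r v)) (v : M)
    (hv : v ∈ Co E G) : r v ∈ Co E' G' := by
  have h : Co E G ≤ (Co E' G').comap r := by
    unfold Co
    refine iSup_le fun i => sup_le ?_ ?_
    · rintro x ⟨y, rfl⟩
      rw [Submodule.mem_comap, hE]
      exact Submodule.mem_iSup_of_mem i (Submodule.mem_sup_left ⟨r y, rfl⟩)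
    · rintro x ⟨y, rfl⟩
      rw [Submodule.mem_comap, hG]
      exact Submodule.mem_iSup_of_mem i (Submodule.mem_sup_right ⟨r y, rfl⟩)
  exact h hv

theorem GM.exists_proj [FiniteDimensional ℂ D] (hA : IsADE A) (h : GM A E F G)
    (K : Submodule ℂ D) (hE : ∀ i, ∀ v ∈ K, E i v ∈ K) (hF : ∀ i, ∀ v ∈ K, F i v ∈ K)
    (hG : ∀ i, ∀ v ∈ K, G i v ∈ K) :
    ∃ π : D →ₗ[ℂ] D, (∀ v, π v ∈ K) ∧ (∀ v ∈ K, π v = v) ∧ (∀ i v, π (E i v) = E i (π v)) ∧
      ∀ i v, π (G i v) = G i (π v) := by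
  have hK := h.sub K hE hF hG
  have h1 : GM A (M := D →ₗ[ℂ] K) (fun i => hm ((E i).restrict (hE i)) (E i))
      (fun i => hm ((F i).restrict (hF i)) (F i)) (fun i => hm ((G i).restrict (hG i)) (G i)) :=
    GM.hom hK h
  have h2 : GM A (M := K →ₗ[ℂ] K)
      (fun i => hm ((E i).restrict (hE i)) ((E i).restrict (hE i)))
      (fun i => hm ((F i).restrict (hF i)) ((F i).restrict (hF i)))
      (fun i => hm ((G i).restrict (hG i)) ((G i).restrict (hG i))) :=
    GM.hom hK hK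
  let r : (D →ₗ[ℂ] K) →ₗ[ℂ] (K →ₗ[ℂ] K) := LinearMap.lcomp ℂ K K.subtype
  have hr : ∀ (f : D →ₗ[ℂ] K) (v : K), r f v = f v := fun f v => rfl
  obtain ⟨g, hg⟩ := LinearMap.exists_leftInverse_of_injective K.subtype K.ker_subtype
  have hg1 : r g = LinearMap.id := hg
  have hgt : g ∈ Inv (M := D →ₗ[ℂ] K) (fun i => hm ((E i).restrict (hE i)) (E i))
      (fun i => hm ((G i).restrict (hG i)) (G i)) ⊔
      Co (M := D →ₗ[ℂ] K) (fun i => hm ((E i).restrict (hE i)) (E i))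
      (fun i => hm ((G i).restrict (hG i)) (G i)) := by
    rw [h1.inv_sup_co hA]
    exact Submodule.mem_top
  obtain ⟨g₀, hg₀, g', hg', hsum⟩ := Submodule.mem_sup.1 hgt
  have hcomm : ∀ (X : Module.End ℂ D) (hX : ∀ v ∈ K, X v ∈ K) (f : D →ₗ[ℂ] K),
      r (hm (X.restrict hX) X f) = hm (X.restrict hX) (X.restrict hX) (r f) := by
    intro X hX f
    refine LinearMap.ext fun v => ?_
    rfl
  have hr' : r g' ∈ Co (M := K →ₗ[ℂ] K)
      (fun i => hm ((E i).restrict (hE i)) ((E i).restrict (hE i)))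
      (fun i => hm ((G i).restrict (hG i)) ((G i).restrict (hG i))) :=
    ga10_map _ _ _ _ r (fun i v => hcomm _ _ v) (fun i v => hcomm _ _ v) g' hg'
  have h0 : ∀ i, hm ((E i).restrict (hE i)) (E i) g₀ = 0 ∧
      hm ((G i).restrict (hG i)) (G i) g₀ = 0 := (ga10_Inv _ _ _).1 hg₀
  have hid : ∀ (X : Module.End ℂ K), hm X X (LinearMap.id : K →ₗ[ℂ] K) = 0 := by
    intro X
    refine LinearMap.ext fun v => ?_
    change X v - X v = 0
    rw [sub_self]
  have hre : r g' = LinearMap.id - r g₀ := by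
    rw [← hg1, ← hsum, map_add]
    abel
  have hinv : r g' ∈ Inv (M := K →ₗ[ℂ] K)
      (fun i => hm ((E i).restrict (hE i)) ((E i).restrict (hE i)))
      (fun i => hm ((G i).restrict (hG i)) ((G i).restrict (hG i))) := by
    rw [hre, ga10_Inv]
    intro i
    constructor
    · rw [map_sub, hid, ← hcomm, (h0 i).1, map_zero, sub_zero]
    · rw [map_sub, hid, ← hcomm, (h0 i).2, map_zero, sub_zero]
  have hz := h2.inv_co hA _ hinv hr'
  rw [hre, sub_eq_zero] at hz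
  refine ⟨K.subtype ∘ₗ g₀, fun v => (g₀ v).2, fun v hv => ?_, fun i v => ?_, fun i v => ?_⟩
  · have e := congrArg (fun f : K →ₗ[ℂ] K => ((f ⟨v, hv⟩ : K) : D)) hz
    exact e.symm
  · have e := congrArg (fun f : D →ₗ[ℂ] K => ((f v : K) : D)) (h0 i).1
    have e' : E i (g₀ v : D) - (g₀ (E i v) : D) = 0 := e
    exact (sub_eq_zero.1 e').symm
  · have e := congrArg (fun f : D →ₗ[ℂ] K => ((f v : K) : D)) (h0 i).2
    have e' : G i (g₀ v : D) - (g₀ (G i v) : D) = 0 := e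
    exact (sub_eq_zero.1 e').symm

end

end WPQ.GA
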