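import Pool.Agent.WPQ.GA1

/-! [WPQ-GA11a] The submodule generated by a lowest weight vector.

`Cyc E u` is the smallest subspace that contains `u` and is stable under all `E j`.
`Cyc_E`, `Cyc_G`, `Cyc_F`: stable under `G i` (if `u` is a weight vector) and under `F i` (if moreover `F i u = 0`):
`Cyc_le` with `K = {v ∈ Cyc E u | ∀ i, G i v ∈ Cyc E u}`, and with
`K = {v ∈ Cyc E u | ∀ i, F i v ∈ Cyc E u}`: `F i (E j x) = E j (F i x) - δ HH j x`.
`Cyc_wt`: a vector of `Cyc E u` with the same weight as `u` is a multiple of `u`: `Cyc E u` is contained in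
the span of the set `T` of the words `E_{j1} ⋯ E_{jk} u`, which are weight vectors of weight `g + ∑ rt j`
(inductive predicate or `List`); `wt_span`: `v` is in the span of the words of weight `g`; a nonzero word of
weight `g` has `k = 0` (`wt_unique`, sum of the coordinates). -/

namespace WPQ.GA

noncomputable section

variable {ι : Type} [Fintype ι] [DecidableEq ι] {A : Matrix ι ι ℤ}
variable {M : Type} [AddCommGroup M] [Module ℂ M] {E F G : ι → Module.End ℂ M}

/-- The smallest subspace that contains `u` and is stable under all `E j`. -/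
def Cyc (E : ι → Module.End ℂ M) (u : M) : Submodule ℂ M :=
  sInf {K | u ∈ K ∧ ∀ i, ∀ v ∈ K, E i v ∈ K}

theorem mem_Cyc (E : ι → Module.End ℂ M) (u : M) : u ∈ Cyc E u := by
  unfold Cyc
  rw [Submodule.mem_sInf]
  exact fun K hK => hK.1

theorem Cyc_E (E : ι → Module.End ℂ M) (u : M) (i : ι) (v : M) (hv : v ∈ Cyc E u) :
    E i v ∈ Cyc E u := by
  unfold Cyc at hv ⊢
  rw [Submodule.mem_sInf] at hv ⊢
  exact fun K hK => hK.2 i v (hv K hK)

theorem Cyc_le (E : ι → Module.End ℂ M) (u : M) (K : Submodule ℂ M) (hu : u ∈ K)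
    (hK : ∀ i, ∀ v ∈ K, E i v ∈ K) : Cyc E u ≤ K := by
  unfold Cyc
  exact sInf_le ⟨hu, hK⟩

/-- `HH`-type combinations of the charge operators preserve the generated submodule. -/
private theorem ga11a_G (h : GM A E F G) (g : ι → ℤ) (u : M) (hu : Wt G g u) (i : ι) (v : M)
    (hv : v ∈ Cyc E u) : G i v ∈ Cyc E u := by
  have h1 : Cyc E u ≤ Cyc E u ⊓ ⨅ i, Submodule.comap (G i) (Cyc E u) := by
    refine Cyc_le E u _ ?_ ?_
    · rw [Submodule.mem_inf, Submodule.mem_iInf]
      refine ⟨mem_Cyc E u, fun i => ?_⟩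
      rw [Submodule.mem_comap, hu i]
      exact Submodule.smul_mem _ _ (mem_Cyc E u)
    · intro j v hv
      rw [Submodule.mem_inf, Submodule.mem_iInf] at hv ⊢
      refine ⟨Cyc_E E u j v hv.1, fun i => ?_⟩
      have h2 := hv.2 i
      rw [Submodule.mem_comap] at h2 ⊢
      rw [h.GE]
      refine Submodule.add_mem _ (Cyc_E E u j _ h2) ?_
      split_ifs
      · exact Cyc_E E u j v hv.1
      · exact Submodule.zero_mem _
  have h2 := h1 hv
  rw [Submodule.mem_inf, Submodule.mem_iInf] at h2
  exact h2.2 i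

theorem Cyc_G (h : GM A E F G) (g : ι → ℤ) (u : M) (hu : Wt G g u) (i : ι) (v : M)
    (hv : v ∈ Cyc E u) : G i v ∈ Cyc E u := ga11a_G h g u hu i v hv

theorem Cyc_F (h : GM A E F G) (g : ι → ℤ) (u : M) (hu : Wt G g u) (hF : ∀ i, F i u = 0) (i : ι)
    (v : M) (hv : v ∈ Cyc E u) : F i v ∈ Cyc E u := by
  have h1 : Cyc E u ≤ Cyc E u ⊓ ⨅ i, Submodule.comap (F i) (Cyc E u) := by
    refine Cyc_le E u _ ?_ ?_
    · rw [Submodule.mem_inf, Submodule.mem_iInf]
      refine ⟨mem_Cyc E u, fun i => ?_⟩
      rw [Submodule.mem_comap, hF i]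
      exact Submodule.zero_mem _
    · intro j v hv
      rw [Submodule.mem_inf, Submodule.mem_iInf] at hv ⊢
      refine ⟨Cyc_E E u j v hv.1, fun i => ?_⟩
      have h2 := hv.2 i
      rw [Submodule.mem_comap] at h2 ⊢
      have h3 := h.EF j i v
      have h4 : F i (E j v) = E j (F i v) - (if j = i then ∑ k, (A i k : ℂ) • G k v else 0) := by
        rw [h3, add_sub_cancel_right]
      rw [h4]
      refine Submodule.sub_mem _ (Cyc_E E u j _ h2) ?_
      split_ifs
      · exact Submodule.sum_mem _ fun k _ => Submodule.smul_mem _ _ (ga11a_G h g u hu k v hv.1)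
      · exact Submodule.zero_mem _
  have h2 := h1 hv
  rw [Submodule.mem_inf, Submodule.mem_iInf] at h2
  exact h2.2 i

/-- The words `E_{j1} ⋯ E_{jk} u` with their content. -/
private inductive ga11a_Wd (E : ι → Module.End ℂ M) (u : M) : (ι → ℤ) → M → Prop
  | zero : ga11a_Wd E u 0 u
  | step (j : ι) (b : ι → ℤ) (x : M) (hx : ga11a_Wd E u b x) : ga11a_Wd E u (b + rt j) (E j x)

/-- The weight of a word. -/
private theorem ga11a_wt (h : GM A E F G) (g : ι → ℤ) (u : M) (hu : Wt G g u) (b : ι → ℤ) (x : M)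
    (hx : ga11a_Wd E u b x) : Wt G (g + b) x := by
  induction hx with
  | zero => rwa [add_zero]
  | step j b x hx ih =>
    intro i
    rw [h.GE, ih i, map_smul]
    by_cases hij : i = j
    · subst hij
      rw [if_pos rfl]
      have e : (g + (b + rt i)) i = (g + b) i + 1 := by
        simp [rt, add_assoc]
      rw [e]
      push_cast
      rw [add_smul, one_smul]
    · rw [if_neg hij, add_zero]
      have e : (g + (b + rt j)) i = (g + b) i := by
        simp [rt, hij]
      rw [e]

/-- The content is nonnegative, and it is zero only for the empty word. -/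
private theorem ga11a_pos (E : ι → Module.End ℂ M) (u : M) (b : ι → ℤ) (x : M) (hx : ga11a_Wd E u b x) :
    (b = 0 ∧ x = u) ∨ 0 < ∑ i, b i := by
  have key : ∀ (b : ι → ℤ) (x : M), ga11a_Wd E u b x → 0 ≤ ∑ i, b i := by
    intro b x hx
    induction hx with
    | zero => simp
    | step j b x hx ih =>
      have e : ∑ i, (b + rt j) i = ∑ i, b i + 1 := by
        simp only [Pi.add_apply, Finset.sum_add_distrib]
        congr 1
        simp [rt, Pi.single_apply]
      rw [e]
      omega
  cases hx with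
  | zero => exact Or.inl ⟨rfl, rfl⟩
  | step j b x hx =>
    right
    have h1 := key _ _ hx
    have e : ∑ i, (b + rt j) i = ∑ i, b i + 1 := by
      simp only [Pi.add_apply, Finset.sum_add_distrib]
      congr 1
      simp [rt, Pi.single_apply]
    rw [e]
    omega

theorem Cyc_wt (h : GM A E F G) (g : ι → ℤ) (u : M) (hu : Wt G g u) (v : M)
    (hv : v ∈ Cyc E u) (hg : Wt G g v) : ∃ c : ℂ, v = c • u := by
  have h1 : Cyc E u ≤ Submodule.span ℂ {x | ∃ b, ga11a_Wd E u b x} := by
    refine Cyc_le E u _ (Submodule.subset_span ⟨0, .zero⟩) ?_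
    intro j v hv
    have h2 : Submodule.span ℂ {x | ∃ b, ga11a_Wd E u b x} ≤
        Submodule.comap (E j) (Submodule.span ℂ {x | ∃ b, ga11a_Wd E u b x}) := by
      rw [Submodule.span_le]
      rintro x ⟨b, hx⟩
      exact Submodule.subset_span ⟨_, .step j b x hx⟩
    exact h2 hv
  have h2 := wt_span {x | ∃ b, ga11a_Wd E u b x} (by
    rintro t ⟨b, ht⟩
    exact ⟨_, ga11a_wt h g u hu b t ht⟩) v (h1 hv) g hg
  have h3 : Submodule.span ℂ {t | t ∈ {x | ∃ b, ga11a_Wd E u b x} ∧ Wt G g t} ≤ Submodule.span ℂ {u} := by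
    rw [Submodule.span_le]
    rintro t ⟨⟨b, ht⟩, htg⟩
    by_cases h0 : t = 0
    · rw [h0]
      exact Submodule.zero_mem _
    · have h4 := wt_unique t h0 _ _ (ga11a_wt h g u hu b t ht) htg
      have hb : b = 0 := by
        funext i
        have h5 := congrFun h4 i
        simpa using h5
      rcases ga11a_pos E u b t ht with ⟨-, h5⟩ | h5
      · rw [h5]
        exact Submodule.subset_span rfl
      · rw [hb] at h5
        simp at h5
  obtain ⟨c, hc⟩ := Submodule.mem_span_singleton.1 (h3 h2)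
  exact ⟨c, hc.symm⟩

end

end WPQ.GA
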