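import Pool.Agent.WPQ.GAD

/-! [WPQ-GA2b] Products and tensor products of `GM` modules.

Relations: direct computation (`Prod.ext`, resp. `TensorProduct.ext'`, `simp [tm]`, the relations of the
factors, `abel`).  Span: `(n, m) = (n, 0) + (0, m)` and `(n, 0)`, `(0, m)` are weight vectors for weight
vectors `n`, `m`; tensor product: pure tensors of weight vectors (weights add) span
(`TensorProduct.induction_on` and `Submodule.span_induction`). -/

namespace WPQ.GA

noncomputable section

variable {ι : Type} [Fintype ι] [DecidableEq ι] {A : Matrix ι ι ℤ}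
variable {M N : Type} [AddCommGroup M] [Module ℂ M] [AddCommGroup N] [Module ℂ N]
variable {E F G : ι → Module.End ℂ M} {E' F' G' : ι → Module.End ℂ N}

theorem GM.prod (h : GM A E F G) (h' : GM A E' F' G') :
    GM A (M := N × M) (fun i => (E' i).prodMap (E i)) (fun i => (F' i).prodMap (F i))
      (fun i => (G' i).prodMap (G i)) := by
  refine ⟨?_, ?_, ?_, ?_⟩
  · rintro i j ⟨n, m⟩
    show (G' i (E' j n), G i (E j m)) = (E' j (G' i n), E j (G i m)) +
      (if i = j then (E' j n, E j m) else 0)
    rw [h'.GE, h.GE]
    split_ifs
    · rfl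
    · rw [add_zero, add_zero, add_zero]
  · rintro i j ⟨n, m⟩
    show (G' i (F' j n), G i (F j m)) = (F' j (G' i n), F j (G i m)) -
      (if i = j then (F' j n, F j m) else 0)
    rw [h'.GF, h.GF]
    split_ifs
    · rfl
    · rw [sub_zero, sub_zero, sub_zero]
  · rintro i j ⟨n, m⟩
    show (E' i (F' j n), E i (F j m)) = (F' j (E' i n), F j (E i m)) +
      (if i = j then ∑ k, (A j k : ℂ) • ((G' k n, G k m) : N × M) else 0)
    rw [h'.EF, h.EF]
    split_ifs
    · apply Prod.ext
      · rw [Prod.fst_add, Prod.fst_sum]
        rfl
      · rw [Prod.snd_add, Prod.snd_sum]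
        rfl
    · rw [add_zero, add_zero, add_zero]
  · rw [eq_top_iff]
    rintro ⟨n, m⟩ -
    have hn : n ∈ Submodule.span ℂ {v : N | ∃ g : ι → ℤ, Wt G' g v} := by
      rw [h'.span]
      trivial
    have hm : m ∈ Submodule.span ℂ {v : M | ∃ g : ι → ℤ, Wt G g v} := by
      rw [h.span]
      trivial
    have e : ((n, m) : N × M) = LinearMap.inl ℂ N M n + LinearMap.inr ℂ N M m := by
      rw [LinearMap.inl_apply, LinearMap.inr_apply]
      apply Prod.ext
      · show n = n + 0
        rw [add_zero]
      · show m = 0 + m
        rw [zero_add]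
    rw [e]
    apply Submodule.add_mem
    · have h1 : LinearMap.inl ℂ N M n ∈ (Submodule.span ℂ {v : N | ∃ g : ι → ℤ, Wt G' g v}).map
          (LinearMap.inl ℂ N M) := Submodule.mem_map_of_mem hn
      rw [Submodule.map_span] at h1
      refine Submodule.span_mono ?_ h1
      rintro _ ⟨v, ⟨g, hg⟩, rfl⟩
      refine ⟨g, fun i => ?_⟩
      show ((G' i v, G i 0) : N × M) = (g i : ℂ) • ((v, 0) : N × M)
      rw [hg i, map_zero]
      apply Prod.ext
      · rfl
      · show (0 : M) = (g i : ℂ) • (0 : M)
        rw [smul_zero]
    · have h1 : LinearMap.inr ℂ N M m ∈ (Submodule.span ℂ {v : M | ∃ g : ι → ℤ, Wt G g v}).map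
          (LinearMap.inr ℂ N M) := Submodule.mem_map_of_mem hm
      rw [Submodule.map_span] at h1
      refine Submodule.span_mono ?_ h1
      rintro _ ⟨v, ⟨g, hg⟩, rfl⟩
      refine ⟨g, fun i => ?_⟩
      show ((G' i 0, G i v) : N × M) = (g i : ℂ) • ((0, v) : N × M)
      rw [hg i, map_zero]
      apply Prod.ext
      · show (0 : N) = (g i : ℂ) • (0 : N)
        rw [smul_zero]
      · rfl

private theorem ga2b_tm (X : Module.End ℂ N) (Y : Module.End ℂ M) (n : N) (m : M) :
    tm X Y (n ⊗ₜ[ℂ] m) = X n ⊗ₜ[ℂ] m + n ⊗ₜ[ℂ] Y m := by
  unfold tm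
  rw [LinearMap.add_apply, LinearMap.rTensor_tmul, LinearMap.lTensor_tmul]

theorem GM.tens (h : GM A E F G) (h' : GM A E' F' G') :
    GM A (M := TensorProduct ℂ N M) (fun i => tm (E' i) (E i)) (fun i => tm (F' i) (F i))
      (fun i => tm (G' i) (G i)) := by
  refine ⟨?_, ?_, ?_, ?_⟩
  · intro i j v
    induction v using TensorProduct.induction_on with
    | zero => simp only [map_zero, ite_self, add_zero]
    | tmul n m =>
      simp only [ga2b_tm, map_add, h'.GE, h.GE, TensorProduct.add_tmul, TensorProduct.tmul_add]
      split_ifs
      · abel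
      · simp only [TensorProduct.zero_tmul, TensorProduct.tmul_zero]
        abel
    | add x y hx hy =>
      simp only [map_add] at hx hy ⊢
      rw [hx, hy]
      split_ifs <;> abel
  · intro i j v
    induction v using TensorProduct.induction_on with
    | zero => simp only [map_zero, ite_self, sub_zero]
    | tmul n m =>
      simp only [ga2b_tm, map_add, h'.GF, h.GF, TensorProduct.sub_tmul, TensorProduct.tmul_sub]
      split_ifs
      · abel
      · simp only [TensorProduct.zero_tmul, TensorProduct.tmul_zero]
        abel
    | add x y hx hy =>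
      simp only [map_add] at hx hy ⊢
      rw [hx, hy]
      split_ifs <;> abel
  · intro i j v
    induction v using TensorProduct.induction_on with
    | zero => simp only [map_zero, smul_zero, Finset.sum_const_zero, ite_self, add_zero]
    | tmul n m =>
      simp only [ga2b_tm, map_add, h'.EF, h.EF, TensorProduct.add_tmul, TensorProduct.tmul_add]
      split_ifs
      · simp only [TensorProduct.sum_tmul, TensorProduct.tmul_sum, smul_add, Finset.sum_add_distrib,
          TensorProduct.smul_tmul', TensorProduct.tmul_smul]
        abel
      · simp only [TensorProduct.zero_tmul, TensorProduct.tmul_zero]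
        abel
    | add x y hx hy =>
      simp only [map_add, smul_add, Finset.sum_add_distrib] at hx hy ⊢
      rw [hx, hy]
      split_ifs <;> abel
  · rw [eq_top_iff]
    rintro v -
    induction v using TensorProduct.induction_on with
    | zero => exact Submodule.zero_mem _
    | add x y hx hy => exact Submodule.add_mem _ hx hy
    | tmul n m =>
      have hn : n ∈ Submodule.span ℂ {v : N | ∃ g : ι → ℤ, Wt G' g v} := by
        rw [h'.span]
        trivial
      have hm : m ∈ Submodule.span ℂ {v : M | ∃ g : ι → ℤ, Wt G g v} := by
        rw [h.span]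
        trivial
      induction hn using Submodule.span_induction with
      | zero =>
        rw [TensorProduct.zero_tmul]
        exact Submodule.zero_mem _
      | add x y _ _ hx hy =>
        rw [TensorProduct.add_tmul]
        exact Submodule.add_mem _ hx hy
      | smul c x _ hx =>
        rw [← TensorProduct.smul_tmul']
        exact Submodule.smul_mem _ c hx
      | mem n hn =>
        obtain ⟨g, hg⟩ := hn
        induction hm using Submodule.span_induction with
        | zero =>
          rw [TensorProduct.tmul_zero]
          exact Submodule.zero_mem _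
        | add x y _ _ hx hy =>
          rw [TensorProduct.tmul_add]
          exact Submodule.add_mem _ hx hy
        | smul c x _ hx =>
          rw [TensorProduct.tmul_smul]
          exact Submodule.smul_mem _ c hx
        | mem m hm =>
          obtain ⟨g', hg'⟩ := hm
          refine Submodule.subset_span ⟨g + g', fun i => ?_⟩
          rw [ga2b_tm, hg i, hg' i, TensorProduct.tmul_smul, ← TensorProduct.smul_tmul', ← add_smul,
            Pi.add_apply]
          push_cast
          rfl

end

end WPQ.GA
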