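import Pool.Agent.WPQ.GA10
import Pool.Agent.WPQ.GA11a
import Pool.Agent.WPQ.GA2b

/-! [WPQ-GA11] Homomorphisms from lowest weight modules.

`exists_hom`: put `D = Cyc (E₁ × E₂) (u, f) ⊆ N₁ × N₂` (a `GM` by `GM.prod`, `GM.sub`).  Let `x ∈ D` with
`x.1 = 0`.  `K' = {x ∈ D | x.1 = 0}` is stable under all operators; `GM.exists_proj` gives `π : D → K'` commuting
with `E`, `G`.  `π (u, f)` has weight `g`, so it is a multiple of `(u, f)` (`Cyc_wt`), with first
component `0`: it is `0` because `u ≠ 0`.  `π` kills the generator and commutes with the `E j`, so `π = 0` on `D` and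
`K' = π(K') = 0`.  So the first projection is injective on `D`, its image is `Cyc E₁ u`, and
`T = snd ∘ (fst|_D)⁻¹`. -/

namespace WPQ.GA

noncomputable section

variable {ι : Type} [Fintype ι] [DecidableEq ι] {A : Matrix ι ι ℤ}
variable {M N : Type} [AddCommGroup M] [Module ℂ M] [AddCommGroup N] [Module ℂ N]
variable {E F G : ι → Module.End ℂ M} {E' F' G' : ι → Module.End ℂ N}

theorem GM.exists_hom [FiniteDimensional ℂ M] [FiniteDimensional ℂ N] (hA : IsADE A)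
    (h : GM A E F G) (h' : GM A E' F' G') (g : ι → ℤ) (u : N) (f : M) (hu : Wt G' g u)
    (hf : Wt G g f) (hu0 : u ≠ 0) (hFu : ∀ i, F' i u = 0) (hFf : ∀ i, F i f = 0) :
    ∃ T : N →ₗ[ℂ] M, T u = f ∧ (∀ i, ∀ v ∈ Cyc E' u, T (E' i v) = E i (T v)) ∧
      ∀ i, ∀ v ∈ Cyc E' u, T (G' i v) = G i (T v) := by
  have hP := h.prod h'
  obtain ⟨Ep, hEp⟩ : ∃ Ep : ι → Module.End ℂ (N × M), Ep = fun i => (E' i).prodMap (E i) := ⟨_, rfl⟩
  obtain ⟨Fp, hFp⟩ : ∃ Fp : ι → Module.End ℂ (N × M), Fp = fun i => (F' i).prodMap (F i) := ⟨_, rfl⟩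
  obtain ⟨Gp, hGp⟩ : ∃ Gp : ι → Module.End ℂ (N × M), Gp = fun i => (G' i).prodMap (G i) := ⟨_, rfl⟩
  rw [← hEp, ← hFp, ← hGp] at hP
  have eE : ∀ i x, Ep i x = (E' i x.1, E i x.2) := fun i x => by rw [hEp]; rfl
  have eF : ∀ i x, Fp i x = (F' i x.1, F i x.2) := fun i x => by rw [hFp]; rfl
  have eG : ∀ i x, Gp i x = (G' i x.1, G i x.2) := fun i x => by rw [hGp]; rfl
  have hw : Wt Gp g (u, f) := by
    intro i
    rw [eG]
    exact Prod.ext (hu i) (hf i)
  have hF0 : ∀ i, Fp i (u, f) = 0 := by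
    intro i
    rw [eF]
    exact Prod.ext (hFu i) (hFf i)
  obtain ⟨D, hD⟩ : ∃ D : Submodule ℂ (N × M), D = Cyc Ep (u, f) := ⟨_, rfl⟩
  have hDE : ∀ i, ∀ v ∈ D, Ep i v ∈ D := by
    rw [hD]
    exact fun i v hv => Cyc_E Ep (u, f) i v hv
  have hDF : ∀ i, ∀ v ∈ D, Fp i v ∈ D := by
    rw [hD]
    exact fun i v hv => Cyc_F hP g (u, f) hw hF0 i v hv
  have hDG : ∀ i, ∀ v ∈ D, Gp i v ∈ D := by
    rw [hD]
    exact fun i v hv => Cyc_G hP g (u, f) hw i v hv
  have hm : (u, f) ∈ D := by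
    rw [hD]
    exact mem_Cyc Ep (u, f)
  have hPD := hP.sub D hDE hDF hDG
  obtain ⟨p, hp⟩ : ∃ p : D →ₗ[ℂ] N, p = (LinearMap.fst ℂ N M).comp D.subtype := ⟨_, rfl⟩
  have ep : ∀ x : D, p x = (x : N × M).1 := fun x => by rw [hp]; rfl
  have hK : ∀ x : D, x ∈ LinearMap.ker p ↔ (x : N × M).1 = 0 := fun x => by
    rw [LinearMap.mem_ker, ep]
  obtain ⟨π, hπ1, hπ2, hπE, hπG⟩ := hPD.exists_proj hA (LinearMap.ker p)
    (fun i v hv => by
      rw [hK] at hv ⊢
      show (Ep i (v : N × M)).1 = 0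
      rw [eE, hv]
      exact map_zero _)
    (fun i v hv => by
      rw [hK] at hv ⊢
      show (Fp i (v : N × M)).1 = 0
      rw [eF, hv]
      exact map_zero _)
    (fun i v hv => by
      rw [hK] at hv ⊢
      show (Gp i (v : N × M)).1 = 0
      rw [eG, hv]
      exact map_zero _)
  -- the generator is killed
  have h0 : π ⟨(u, f), hm⟩ = 0 := by
    have hwt : Wt Gp g ((π ⟨(u, f), hm⟩ : D) : N × M) := by
      intro i
      have h1 := congrArg Subtype.val (hπG i ⟨(u, f), hm⟩)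
      have h2 : ((Gp i).restrict (hDG i)) ⟨(u, f), hm⟩ = (g i : ℂ) • (⟨(u, f), hm⟩ : D) :=
        Subtype.ext (hw i)
      rw [h2, map_smul] at h1
      exact h1.symm
    obtain ⟨c, hc⟩ := Cyc_wt hP g (u, f) hw _ (by rw [← hD]; exact (π ⟨(u, f), hm⟩).2) hwt
    have h1 := (hK _).1 (hπ1 ⟨(u, f), hm⟩)
    rw [hc] at h1
    have h2 : c • u = 0 := h1
    rcases smul_eq_zero.1 h2 with h3 | h3
    · apply Subtype.ext
      rw [hc, h3, zero_smul]
      rfl
    · exact absurd h3 hu0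
  have hall : ∀ x : D, π x = 0 := by
    have h1 : Cyc Ep (u, f) ≤ Submodule.map D.subtype (LinearMap.ker π) := by
      refine Cyc_le Ep (u, f) _ ⟨⟨(u, f), hm⟩, h0, rfl⟩ ?_
      rintro i _ ⟨x, hx, rfl⟩
      refine ⟨⟨Ep i x, hDE i x x.2⟩, ?_, rfl⟩
      have h2 := hπE i x
      have h3 : π x = 0 := hx
      rw [h3, map_zero] at h2
      exact h2
    intro x
    have hx : (x : N × M) ∈ Cyc Ep (u, f) := by
      rw [← hD]
      exact x.2
    obtain ⟨y, hy, hxy⟩ := h1 hx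
    have h2 : y = x := Subtype.ext hxy
    rw [← h2]
    exact hy
  have hker : LinearMap.ker p = ⊥ := by
    rw [eq_bot_iff]
    intro x hx
    rw [Submodule.mem_bot, ← hπ2 x hx]
    exact hall x
  obtain ⟨q, hq⟩ := LinearMap.exists_leftInverse_of_injective p hker
  have hqp : ∀ x : D, q (p x) = x := fun x => LinearMap.congr_fun hq x
  have hT : ∀ x : D, ((q (p x) : D) : N × M).2 = (x : N × M).2 := fun x => by rw [hqp]
  have hr : ∀ v ∈ Cyc E' u, ∃ x : D, p x = v := by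
    have h1 : Cyc E' u ≤ LinearMap.range p := by
      refine Cyc_le E' u _ ⟨⟨(u, f), hm⟩, ep _⟩ ?_
      rintro i _ ⟨x, rfl⟩
      refine ⟨⟨Ep i x, hDE i x x.2⟩, ?_⟩
      rw [ep, ep]
      show (Ep i (x : N × M)).1 = E' i (x : N × M).1
      rw [eE]
    exact fun v hv => h1 hv
  refine ⟨((LinearMap.snd ℂ N M).comp D.subtype).comp q, ?_, ?_, ?_⟩
  · have h1 : p ⟨(u, f), hm⟩ = u := ep _
    show ((q u : D) : N × M).2 = f
    rw [← h1, hT]
  · intro i v hv
    obtain ⟨x, rfl⟩ := hr v hv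
    show ((q (E' i (p x)) : D) : N × M).2 = E i ((q (p x) : D) : N × M).2
    have h1 : E' i (p x) = p ⟨Ep i x, hDE i x x.2⟩ := by
      rw [ep, ep]
      show E' i (x : N × M).1 = (Ep i (x : N × M)).1
      rw [eE]
    rw [h1, hT, hT]
    show (Ep i (x : N × M)).2 = E i (x : N × M).2
    rw [eE]
  · intro i v hv
    obtain ⟨x, rfl⟩ := hr v hv
    show ((q (G' i (p x)) : D) : N × M).2 = G i ((q (p x) : D) : N × M).2
    have h1 : G' i (p x) = p ⟨Gp i x, hDG i x x.2⟩ := by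
      rw [ep, ep]
      show G' i (x : N × M).1 = (Gp i (x : N × M)).1
      rw [eG]
    rw [h1, hT, hT]
    show (Gp i (x : N × M)).2 = G i (x : N × M).2
    rw [eG]

end

end WPQ.GA
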