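import Pool.Agent.WPQ.GAD

/-! [WPQ-GA2] Closure properties of `GM`: `Hom(N, M)`, the trivial module, mirror image.

Relations: direct computation (`ext`, `simp [hm, tm]`, the relations of the factors, `abel`).
Span of `Hom(N, M)`: `N` has a basis `e` of weight vectors (`Module.Basis.ofSpan` applied to the span
condition, or `exists_linearIndependent`); for `f : N → M` one has `f = ∑_k (x ↦ e_k^*(x) • f (e_k))` (finite
basis), `f (e_k)` is a combination of weight vectors `m` of `M`, and `x ↦ e_k^*(x) • m` is a weight vector of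
weight `wt m - wt e_k` (check on the basis `e`). -/

namespace WPQ.GA

noncomputable section

variable {ι : Type} [Fintype ι] [DecidableEq ι] {A : Matrix ι ι ℤ}
variable {M N : Type} [AddCommGroup M] [Module ℂ M] [AddCommGroup N] [Module ℂ N]
variable {E F G : ι → Module.End ℂ M} {E' F' G' : ι → Module.End ℂ N}

private theorem ga2_hm (X : Module.End ℂ M) (Y : Module.End ℂ N) (f : N →ₗ[ℂ] M) (x : N) :
    hm X Y f x = X (f x) - f (Y x) := rfl

/-- Rank one maps are in the span of the weight vectors. -/
private theorem ga2_rank_one (h : GM A E F G) {κ : Type} (e : Module.Basis κ ℂ N)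
    (w : κ → ι → ℤ) (hw : ∀ k, Wt G' (w k) (e k)) (k : κ) (m : M) :
    (e.coord k).smulRight m ∈ Submodule.span ℂ
      {f : N →ₗ[ℂ] M | ∃ g : ι → ℤ, Wt (fun i => hm (G i) (G' i)) g f} := by
  have hm0 : m ∈ Submodule.span ℂ {v | ∃ g : ι → ℤ, Wt G g v} := by
    rw [h.span]
    exact Submodule.mem_top
  have hc : ∀ i, (e.coord k) ∘ₗ (G' i) = (w k i : ℂ) • e.coord k := by
    intro i
    refine e.ext fun l => ?_
    rw [LinearMap.comp_apply, hw l i, map_smul, LinearMap.smul_apply]
    by_cases hl : l = k
    · rw [hl]
    · rw [Module.Basis.coord_apply, Module.Basis.repr_self, Finsupp.single_eq_of_ne (Ne.symm hl),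
        smul_zero, smul_zero]
  refine Submodule.span_induction (p := fun m _ => (e.coord k).smulRight m ∈ Submodule.span ℂ
      {f : N →ₗ[ℂ] M | ∃ g : ι → ℤ, Wt (fun i => hm (G i) (G' i)) g f}) ?_ ?_ ?_ ?_ hm0
  · rintro v ⟨g, hg⟩
    refine Submodule.subset_span ⟨g - w k, fun i => ?_⟩
    refine LinearMap.ext fun x => ?_
    have h1 : e.coord k (G' i x) = (w k i : ℂ) * e.coord k x := by
      have h2 := LinearMap.congr_fun (hc i) x
      rw [LinearMap.comp_apply, LinearMap.smul_apply, smul_eq_mul] at h2
      exact h2
    rw [ga2_hm, LinearMap.smulRight_apply, LinearMap.smulRight_apply, map_smul, hg i, h1,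
      LinearMap.smul_apply, LinearMap.smulRight_apply, Pi.sub_apply, Int.cast_sub, smul_smul,
      smul_smul, ← sub_smul]
    congr 1
    ring
  · have h1 : (e.coord k).smulRight (0 : M) = 0 := by
      refine LinearMap.ext fun x => ?_
      rw [LinearMap.smulRight_apply, smul_zero, LinearMap.zero_apply]
    rw [h1]
    exact Submodule.zero_mem _
  · intro a b _ _ ha hb
    have h1 : (e.coord k).smulRight (a + b) =
        (e.coord k).smulRight a + (e.coord k).smulRight b := by
      refine LinearMap.ext fun x => ?_
      rw [LinearMap.add_apply, LinearMap.smulRight_apply, LinearMap.smulRight_apply,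
        LinearMap.smulRight_apply, smul_add]
    rw [h1]
    exact Submodule.add_mem _ ha hb
  · intro c a _ ha
    have h1 : (e.coord k).smulRight (c • a) = c • (e.coord k).smulRight a := by
      refine LinearMap.ext fun x => ?_
      rw [LinearMap.smul_apply, LinearMap.smulRight_apply, LinearMap.smulRight_apply, smul_comm]
    rw [h1]
    exact Submodule.smul_mem _ _ ha

theorem GM.hom [FiniteDimensional ℂ N] (h : GM A E F G) (h' : GM A E' F' G') :
    GM A (M := N →ₗ[ℂ] M) (fun i => hm (E i) (E' i)) (fun i => hm (F i) (F' i))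
      (fun i => hm (G i) (G' i)) := by
  refine ⟨?_, ?_, ?_, ?_⟩
  · intro i j f
    refine LinearMap.ext fun x => ?_
    by_cases hij : i = j
    · subst hij
      have h1 := h.GE i i (f x)
      have h2 := h'.GE i i x
      rw [if_pos rfl] at h1 h2
      rw [if_pos rfl, LinearMap.add_apply]
      simp only [ga2_hm, map_sub]
      rw [h1, h2, map_add]
      abel
    · have h1 := h.GE i j (f x)
      have h2 := h'.GE i j x
      rw [if_neg hij, add_zero] at h1 h2
      rw [if_neg hij, add_zero]
      simp only [ga2_hm, map_sub]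
      rw [h1, h2]
      abel
  · intro i j f
    refine LinearMap.ext fun x => ?_
    by_cases hij : i = j
    · subst hij
      have h1 := h.GF i i (f x)
      have h2 := h'.GF i i x
      rw [if_pos rfl] at h1 h2
      rw [if_pos rfl, LinearMap.sub_apply]
      simp only [ga2_hm, map_sub]
      rw [h1, h2, map_sub]
      abel
    · have h1 := h.GF i j (f x)
      have h2 := h'.GF i j x
      rw [if_neg hij, sub_zero] at h1 h2
      rw [if_neg hij, sub_zero]
      simp only [ga2_hm, map_sub]
      rw [h1, h2]
      abel
  · intro i j f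
    refine LinearMap.ext fun x => ?_
    by_cases hij : i = j
    · subst hij
      have h1 := h.EF i i (f x)
      have h2 := h'.EF i i x
      rw [if_pos rfl] at h1 h2
      rw [if_pos rfl, LinearMap.add_apply, LinearMap.sum_apply]
      simp only [LinearMap.smul_apply, ga2_hm, map_sub, smul_sub, Finset.sum_sub_distrib]
      rw [h1, h2, map_add, map_sum]
      simp only [map_smul]
      abel
    · have h1 := h.EF i j (f x)
      have h2 := h'.EF i j x
      rw [if_neg hij, add_zero] at h1 h2
      rw [if_neg hij, add_zero]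
      simp only [ga2_hm, map_sub]
      rw [h1, h2]
      abel
  · rw [eq_top_iff]
    intro f _
    have hs : ⊤ ≤ Submodule.span ℂ {v | ∃ g : ι → ℤ, Wt G' g v} := by rw [h'.span]
    obtain ⟨κ, e, hfin, hw⟩ : ∃ (κ : Type) (e : Module.Basis κ ℂ N), Finite κ ∧
        ∀ k, ∃ g : ι → ℤ, Wt G' g (e k) := by
      refine ⟨_, Module.Basis.ofSpan hs, Module.Finite.finite_basis (Module.Basis.ofSpan hs), fun k => ?_⟩
      exact Module.Basis.ofSpan_subset hs ⟨k, rfl⟩
    choose w hw using hw
    have := Fintype.ofFinite κ
    have hf : f = ∑ k, (e.coord k).smulRight (f (e k)) := by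
      refine LinearMap.ext fun x => ?_
      rw [LinearMap.sum_apply]
      simp only [LinearMap.smulRight_apply]
      have h1 : x = ∑ k, e.coord k x • e k := (e.sum_repr x).symm
      have h2 := congrArg f h1
      rw [map_sum] at h2
      simp only [map_smul] at h2
      exact h2
    rw [hf]
    exact Submodule.sum_mem _ fun k _ => ga2_rank_one h e w hw k _

theorem GM.triv (A : Matrix ι ι ℤ) :
    GM A (M := ℂ) (fun _ : ι => 0) (fun _ => 0) (fun _ => 0) := by
  refine ⟨?_, ?_, ?_, ?_⟩
  · intro i j v
    simp
  · intro i j v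
    simp
  · intro i j v
    simp
  · rw [eq_top_iff]
    intro v _
    refine Submodule.subset_span ⟨0, fun i => ?_⟩
    simp

/-- The mirror image: exchange `E` and `F`. -/
theorem GM.mirror (h : GM A E F G) : GM A F E (fun i => -G i) := by
  refine ⟨?_, ?_, ?_, ?_⟩
  · intro i j v
    have h1 := h.GF i j v
    rw [LinearMap.neg_apply, LinearMap.neg_apply, map_neg, h1]
    abel
  · intro i j v
    have h1 := h.GE i j v
    rw [LinearMap.neg_apply, LinearMap.neg_apply, map_neg, h1]
    abel
  · intro i j v
    have h1 := h.EF j i v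
    by_cases hij : i = j
    · subst hij
      rw [if_pos rfl] at h1 ⊢
      rw [h1]
      simp only [LinearMap.neg_apply, smul_neg, Finset.sum_neg_distrib]
      abel
    · rw [if_neg (Ne.symm hij), add_zero] at h1
      rw [if_neg hij, add_zero, h1]
  · rw [eq_top_iff, ← h.span]
    refine Submodule.span_mono ?_
    rintro v ⟨g, hg⟩
    refine ⟨-g, fun i => ?_⟩
    rw [LinearMap.neg_apply, hg i, Pi.neg_apply, Int.cast_neg, neg_smul]

end

end WPQ.GA
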