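import Pool.Agent.WPQ.GA2

/-! [WPQ-GA3] `sl_2` theory in a finite dimensional `GM`.

Let `H = HH A G j`; on a vector of weight `g` it is the scalar `pr A j g`.  The operators `E j`, `F j`, `H`
satisfy `[H, E j] = 2 E j` (`A j j = 2`), `[H, F j] = -2 F j`, `[E j, F j] = H` in `Module.End ℂ M`: an
`IsSl2Triple H (E j) (F j)` (Mathlib.Algebra.Lie.Sl2; `E j` and `F j` may be zero, then the `h ≠ 0` field of
`IsSl2Triple` fails and `H = [E j, F j] = 0`: treat this case separately; or prove directly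
`E F^(k+1) v = (k+1)(c-k) F^k v` for `E v = 0`, `H v = c v`, and use that the vectors `F^k v` of different
`H`-eigenvalues `c - 2k` cannot all be nonzero in finite dimension: for the least `k` with `F^(k+1) v = 0`
one gets `c = k`).
`pr_nonneg`: primitive vector with eigenvalue `pr A j g`, so `pr A j g = k ∈ ℕ`.
`pr_nonpos`: `pr_nonneg` for `h.mirror`.
`F_inv`: `E j v = 0`, weight `0`: `c = 0`, so `k = 0` is the least `k` with `F^(k+1) v = 0`.
`F_pow`: `F j v = 0` and weight `g`, `pr A j g = -m`: `E j ^ (m+1) v = 0` (mirror). -/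

namespace WPQ.GA

noncomputable section

variable {ι : Type} [Fintype ι] [DecidableEq ι] {A : Matrix ι ι ℤ}
variable {M : Type} [AddCommGroup M] [Module ℂ M] {E F G : ι → Module.End ℂ M}

omit [DecidableEq ι] in
private theorem ga3_HH (j : ι) (v : M) : HH A G j v = ∑ k, (A j k : ℂ) • G k v := by
  unfold HH
  rw [LinearMap.sum_apply]
  rfl

theorem HH_wt (j : ι) (g : ι → ℤ) (v : M) (hv : Wt G g v) : HH A G j v = (pr A j g : ℂ) • v := by
  rw [ga3_HH]
  unfold pr
  push_cast
  rw [Finset.sum_smul]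
  refine Finset.sum_congr rfl fun k _ => ?_
  rw [hv k, smul_smul]

private theorem ga3_HF (hA : IsADE A) (h : GM A E F G) (j : ι) (v : M) :
    HH A G j (F j v) = F j (HH A G j v) - (2 : ℂ) • F j v := by
  rw [ga3_HH, ga3_HH, map_sum]
  have e : ∀ k, (A j k : ℂ) • G k (F j v) = F j ((A j k : ℂ) • G k v) -
      (if k = j then (A j k : ℂ) • F j v else 0) := by
    intro k
    rw [h.GF, smul_sub, map_smul]
    congr 1
    split_ifs
    · rfl
    · rw [smul_zero]
  rw [Finset.sum_congr rfl fun k _ => e k, Finset.sum_sub_distrib, Finset.sum_ite_eq', if_pos (Finset.mem_univ j),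
    hA.diag j]
  push_cast
  rfl

private theorem ga3_EF (h : GM A E F G) (j : ι) (v : M) : E j (F j v) = F j (E j v) + HH A G j v := by
  rw [h.EF, if_pos rfl, ga3_HH]

/-- The `sl_2` computation. -/
private theorem ga3_str (hA : IsADE A) (h : GM A E F G) (j : ι) (v : M) (c : ℂ) (hE : E j v = 0)
    (hH : HH A G j v = c • v) (k : ℕ) :
    HH A G j ((F j ^ k) v) = (c - 2 * k) • (F j ^ k) v ∧
      E j ((F j ^ (k + 1)) v) = ((k + 1 : ℂ) * (c - k)) • (F j ^ k) v := by
  induction k with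
  | zero =>
    constructor
    · rw [pow_zero, Module.End.one_apply, hH]
      norm_num
    · rw [zero_add, pow_one, pow_zero, Module.End.one_apply, ga3_EF h, hE, map_zero, zero_add, hH]
      norm_num
  | succ k ih =>
    obtain ⟨h1, h2⟩ := ih
    have e1 : (F j ^ (k + 1)) v = F j ((F j ^ k) v) := by
      rw [pow_succ', Module.End.mul_apply]
    have h3 : HH A G j ((F j ^ (k + 1)) v) = (c - 2 * ((k + 1 : ℕ) : ℂ)) • (F j ^ (k + 1)) v := by
      rw [e1, ga3_HF hA h, h1, map_smul, ← sub_smul]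
      congr 1
      push_cast
      ring
    refine ⟨h3, ?_⟩
    have e2 : (F j ^ (k + 1 + 1)) v = F j ((F j ^ (k + 1)) v) := by
      rw [pow_succ', Module.End.mul_apply]
    rw [e2, ga3_EF h, h2, h3, map_smul, ← e1, ← add_smul]
    congr 1
    push_cast
    ring

/-- A primitive vector in finite dimension. -/
private theorem ga3_key [FiniteDimensional ℂ M] (hA : IsADE A) (h : GM A E F G) (j : ι) (v : M) (c : ℂ)
    (h0 : v ≠ 0) (hE : E j v = 0) (hH : HH A G j v = c • v) :
    ∃ k : ℕ, c = k ∧ (F j ^ (k + 1)) v = 0 := by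
  classical
  have hex : ∃ k : ℕ, (F j ^ k) v = 0 := by
    by_contra hne
    push Not at hne
    have hinj : Function.Injective (fun k : ℕ => c - 2 * (k : ℂ)) := by
      intro a b hab
      have h1 : c - 2 * (a : ℂ) = c - 2 * (b : ℂ) := hab
      have h2 : (a : ℂ) = b := by linear_combination (-1 / 2) * h1
      exact_mod_cast h2
    have hli := Module.End.eigenvectors_linearIndependent' (HH A G j) (fun k : ℕ => c - 2 * (k : ℂ)) hinj
      (fun k => (F j ^ k) v) (fun k => by
        rw [Module.End.hasEigenvector_iff, Module.End.mem_eigenspace_iff]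
        exact ⟨(ga3_str hA h j v c hE hH k).1, hne k⟩)
    have hfin : Finite ℕ := hli.finite_of_isNoetherian
    exact not_finite ℕ
  obtain ⟨n, hn, hmin⟩ : ∃ n, (F j ^ n) v = 0 ∧ ∀ m < n, (F j ^ m) v ≠ 0 :=
    ⟨Nat.find hex, Nat.find_spec hex, fun m hm => Nat.find_min hex hm⟩
  obtain ⟨k, rfl⟩ : ∃ k, n = k + 1 := by
    refine ⟨n - 1, ?_⟩
    have : n ≠ 0 := by
      rintro rfl
      rw [pow_zero, Module.End.one_apply] at hn
      exact h0 hn
    omega
  refine ⟨k, ?_, hn⟩
  have h1 := (ga3_str hA h j v c hE hH k).2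
  rw [hn, map_zero] at h1
  have h2 := (smul_eq_zero.1 h1.symm).resolve_right (hmin k (Nat.lt_succ_self k))
  have h3 : (k + 1 : ℂ) ≠ 0 := Nat.cast_add_one_ne_zero k
  exact sub_eq_zero.1 ((mul_eq_zero.1 h2).resolve_left h3)

theorem GM.pr_nonneg [FiniteDimensional ℂ M] (hA : IsADE A) (h : GM A E F G) (j : ι) (g : ι → ℤ)
    (v : M) (hv : Wt G g v) (h0 : v ≠ 0) (hE : E j v = 0) : 0 ≤ pr A j g := by
  obtain ⟨k, hk, -⟩ := ga3_key hA h j v _ h0 hE (HH_wt j g v hv)
  have h1 : pr A j g = (k : ℤ) := by exact_mod_cast hk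
  rw [h1]
  exact Int.natCast_nonneg k

theorem GM.pr_nonpos [FiniteDimensional ℂ M] (hA : IsADE A) (h : GM A E F G) (j : ι) (g : ι → ℤ)
    (v : M) (hv : Wt G g v) (h0 : v ≠ 0) (hF : F j v = 0) : pr A j g ≤ 0 := by
  have h1 : Wt (fun i => -G i) (fun i => -g i) v := by
    intro i
    show -(G i v) = ((-g i : ℤ) : ℂ) • v
    rw [hv i]
    push_cast
    rw [neg_smul]
  have h2 := h.mirror.pr_nonneg hA j (fun i => -g i) v h1 h0 hF
  have h3 : pr A j (fun i => -g i) = -pr A j g := by
    unfold pr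
    rw [← Finset.sum_neg_distrib]
    refine Finset.sum_congr rfl fun i _ => ?_
    ring
  rw [h3] at h2
  linarith

theorem GM.F_inv [FiniteDimensional ℂ M] (hA : IsADE A) (h : GM A E F G) (j : ι)
    (v : M) (hv : v ∈ Inv E G) : F j v = 0 := by
  by_cases h0 : v = 0
  · rw [h0, map_zero]
  have h1 : ∀ i, E i v = 0 ∧ G i v = 0 := by
    intro i
    have h2 := (Submodule.mem_iInf _).1 hv i
    exact ⟨LinearMap.mem_ker.1 h2.1, LinearMap.mem_ker.1 h2.2⟩
  have hH : HH A G j v = (0 : ℂ) • v := by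
    rw [ga3_HH, zero_smul]
    exact Finset.sum_eq_zero fun k _ => by rw [(h1 k).2, smul_zero]
  obtain ⟨k, hk, hk2⟩ := ga3_key hA h j v 0 h0 (h1 j).1 hH
  have hk0 : k = 0 := by exact_mod_cast hk.symm
  rw [hk0, zero_add, pow_one] at hk2
  exact hk2

end

end WPQ.GA
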