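import Pool.Agent.WPQ.GA1
import Pool.Agent.WPQ.GA2

/-! [WPQ-GA4] The space `SS A E F G`: stable under the commutators with `E j`, `F j`, `G i`; its weights.

In `Module.End ℂ M` one has `[G i, E j] = δ_ij E j`, `[G i, F j] = -δ_ij F j`,
`[E i, F j] = δ_ij HH A G j`, `[G i, G k] = 0` (check on weight vectors, `h.span`), so `[HH j, E k] = A_jk E k`
(for the symmetric matrix `A`).
`mon_wt`: `Mon E b x` implies `[G i, x] = b i x`; `Mon F b x` implies `[G i, x] = -b i x` (induction, Jacobi).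
`SS_E`: on generators: `x ∈ Mon E`: `[E j, x] ∈ Mon E`.  `x = HH k`: `[E j, HH k] = -A_kj E j`.
`x ∈ Mon F` by induction: `[E j, F k] = δ HH k`; `[E j, [F k, x]] = [[E j, F k], x] + [F k, [E j, x]]`, the first
is `δ [HH k, x] =` scalar times `x`; for the second prove the stronger statement by induction on `Mon F b x`:
`[E j, x] ∈ span ({Mon F} ∪ range HH)` and this span is stable under `ad (F k)`.
`SS_F`: mirror image of `SS_E` (`SS A F E (-G) = SS A E F G`).  `SS_G`: `mon_wt`.
`SS_wt`: `wt_span` with the generators (their weights are `b`, `-b` with `Mon E b x`, `Mon F b x`, and `0`):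
if `x ≠ 0` has weight `b`, some generator has weight `b` (and is nonzero, or it is zero: use only the nonzero
generators); `Mon E b x` has all `b i ≥ 0` and `b ≠ 0`.
`SS_wt0`: same with `b = 0`: only the `HH j` have weight zero.
`SS_inv`: every element of `SS` kills every vector killed by all `E j`, `F j`, `G i`. -/

namespace WPQ.GA

noncomputable section

variable {ι : Type} [Fintype ι] [DecidableEq ι] {A : Matrix ι ι ℤ}
variable {M : Type} [AddCommGroup M] [Module ℂ M] {E F G : ι → Module.End ℂ M}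

private def br (x y : Module.End ℂ M) : Module.End ℂ M := x * y - y * x

private theorem br_hm (x y : Module.End ℂ M) : hm x x y = br x y := rfl

private theorem br_jac (x y z : Module.End ℂ M) : br x (br y z) = br (br x y) z + br y (br x z) := by
  unfold br
  noncomm_ring

private theorem br_anti (x y : Module.End ℂ M) : br x y = - br y x := by
  unfold br
  abel

private theorem br_add (x y z : Module.End ℂ M) : br x (y + z) = br x y + br x z := by
  unfold br
  noncomm_ring

private theorem br_smul (c : ℂ) (x y : Module.End ℂ M) : br x (c • y) = c • br x y := by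
  unfold br
  rw [mul_smul_comm, smul_mul_assoc, smul_sub]

private theorem smul_br (c : ℂ) (x y : Module.End ℂ M) : br (c • x) y = c • br x y := by
  unfold br
  rw [mul_smul_comm, smul_mul_assoc, smul_sub]

private theorem br_zero (x : Module.End ℂ M) : br x 0 = 0 := by
  unfold br
  rw [mul_zero, zero_mul, sub_zero]

private theorem zero_br (x : Module.End ℂ M) : br 0 x = 0 := by
  unfold br
  rw [mul_zero, zero_mul, sub_zero]

private theorem br_neg (x y : Module.End ℂ M) : br x (-y) = - br x y := by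
  unfold br
  noncomm_ring

private theorem sum_br (s : Finset ι) (g : ι → Module.End ℂ M) (y : Module.End ℂ M) :
    br (∑ i ∈ s, g i) y = ∑ i ∈ s, br (g i) y := by
  unfold br
  rw [Finset.sum_mul, Finset.mul_sum, Finset.sum_sub_distrib]

/-- The linear map `br x`. -/
private def brL (x : Module.End ℂ M) : Module.End ℂ M →ₗ[ℂ] Module.End ℂ M where
  toFun := br x
  map_add' := br_add x
  map_smul' c y := br_smul c x y

private theorem br_GE (h : GM A E F G) (i j : ι) : br (G i) (E j) = ((rt j i : ℤ) : ℂ) • E j := by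
  apply LinearMap.ext
  intro v
  unfold br
  rw [LinearMap.sub_apply, Module.End.mul_apply, Module.End.mul_apply, h.GE, add_sub_cancel_left,
    LinearMap.smul_apply]
  by_cases hij : i = j
  · subst hij
    simp [rt]
  · simp [rt, hij]

private theorem br_GF (h : GM A E F G) (i j : ι) :
    br (G i) (F j) = (-((rt j i : ℤ) : ℂ)) • F j := by
  apply LinearMap.ext
  intro v
  unfold br
  rw [LinearMap.sub_apply, Module.End.mul_apply, Module.End.mul_apply, h.GF,
    LinearMap.smul_apply]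
  by_cases hij : i = j
  · subst hij
    simp [rt]
  · simp [rt, hij]

private theorem br_EF (h : GM A E F G) (i j : ι) :
    br (E i) (F j) = if i = j then HH A G j else 0 := by
  apply LinearMap.ext
  intro v
  unfold br
  rw [LinearMap.sub_apply, Module.End.mul_apply, Module.End.mul_apply, h.EF, add_sub_cancel_left]
  by_cases hij : i = j
  · rw [if_pos hij, if_pos hij]
    unfold HH
    rw [LinearMap.sum_apply]
    rfl
  · rw [if_neg hij, if_neg hij]
    rfl

private theorem br_GG (h : GM A E F G) (i j : ι) : br (G i) (G j) = 0 := by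
  apply LinearMap.ext_on h.span
  rintro v ⟨g, hg⟩
  unfold br
  rw [LinearMap.sub_apply, Module.End.mul_apply, Module.End.mul_apply, hg j, hg i, map_smul,
    map_smul, hg i, hg j, smul_smul, smul_smul, mul_comm, sub_self]
  rfl

/-- brackets of the Cartan operators with a weight vector -/
private theorem br_HH (A : Matrix ι ι ℤ) (c : ι → ℂ) (x : Module.End ℂ M)
    (hx : ∀ i, br (G i) x = c i • x) (j : ι) :
    br (HH A G j) x = (∑ k, (A j k : ℂ) * c k) • x := by
  unfold HH
  rw [sum_br, Finset.sum_smul]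
  refine Finset.sum_congr rfl fun k _ => ?_
  rw [smul_br, hx, smul_smul]

private theorem mon_wt (X : ι → Module.End ℂ M) (ε : ℂ)
    (hX : ∀ i j, br (G i) (X j) = (ε * ((rt j i : ℤ) : ℂ)) • X j) (b : ι → ℤ)
    (x : Module.End ℂ M) (hx : Mon X b x) : ∀ i, br (G i) x = (ε * ((b i : ℤ) : ℂ)) • x := by
  induction hx with
  | one j => exact fun i => hX i j
  | step j b x _ ih =>
    intro i
    change br (G i) (br (X j) x) = _ • br (X j) x
    rw [br_jac, hX, ih, smul_br, br_smul, ← add_smul]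
    congr 1
    simp only [Pi.add_apply, Int.cast_add]
    ring

private theorem mon_nonneg (X : ι → Module.End ℂ M) (b : ι → ℤ)
    (x : Module.End ℂ M) (hx : Mon X b x) : (∀ i, 0 ≤ b i) ∧ ∃ i, 0 < b i := by
  have hrt : ∀ j i : ι, 0 ≤ (rt j : ι → ℤ) i := by
    intro j i
    by_cases hij : i = j
    · subst hij
      simp [rt]
    · simp [rt, hij]
  have hrt' : ∀ j : ι, 0 < (rt j : ι → ℤ) j := by
    intro j
    simp [rt]
  induction hx with
  | one j => exact ⟨hrt j, j, hrt' j⟩
  | step j b x _ ih =>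
    obtain ⟨h1, i, hi⟩ := ih
    refine ⟨fun i => add_nonneg (h1 i) (hrt j i), i, ?_⟩
    have := hrt j i
    simp only [Pi.add_apply]
    omega

/-- the core of `SS_E` and `SS_F` -/
private theorem core (A : Matrix ι ι ℤ) (X Y : ι → Module.End ℂ M) (ε ε' c : ℂ)
    (hX : ∀ i j, br (G i) (X j) = (ε * ((rt j i : ℤ) : ℂ)) • X j)
    (hY : ∀ i j, br (G i) (Y j) = (ε' * ((rt j i : ℤ) : ℂ)) • Y j)
    (hXY : ∀ i j, br (X i) (Y j) = if i = j then c • HH A G j else 0) (j : ι)
    (x : Module.End ℂ M)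
    (hx : x ∈ Submodule.span ℂ ({x | ∃ b, Mon X b x} ∪ {x | ∃ b, Mon Y b x} ∪
      Set.range (HH A G))) :
    br (X j) x ∈ Submodule.span ℂ ({x | ∃ b, Mon X b x} ∪ {x | ∃ b, Mon Y b x} ∪
      Set.range (HH A G)) := by
  set S := Submodule.span ℂ ({x | ∃ b, Mon X b x} ∪ {x | ∃ b, Mon Y b x} ∪
      Set.range (HH A G)) with hS
  set S' := Submodule.span ℂ ({x | ∃ b, Mon Y b x} ∪ Set.range (HH A G)) with hS'
  have hle : S' ≤ S := by
    refine Submodule.span_mono ?_
    rintro z (hz | hz)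
    · exact Or.inl (Or.inr hz)
    · exact Or.inr hz
  -- `br (Y k)` maps `S'` to `S'`
  have hYS : ∀ k : ι, ∀ z ∈ S', br (Y k) z ∈ S' := by
    intro k z hz
    have h1 : S' ≤ S'.comap (brL (Y k)) := by
      rw [hS', Submodule.span_le]
      rintro z (⟨b, hz⟩ | ⟨l, rfl⟩)
      · exact Submodule.subset_span (Or.inl ⟨_, Mon.step k b z hz⟩)
      · change br (Y k) (HH A G l) ∈ S'
        rw [br_anti, br_HH A (fun i => ε' * ((rt k i : ℤ) : ℂ)) (Y k) (fun i => hY i k) l]
        refine Submodule.neg_mem _ (Submodule.smul_mem _ _ ?_)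
        exact Submodule.subset_span (Or.inl ⟨_, Mon.one k⟩)
    exact h1 hz
  have hXM : ∀ b : ι → ℤ, ∀ z, Mon Y b z → br (X j) z ∈ S' := by
    intro b z hz
    induction hz with
    | one k =>
      rw [hXY]
      by_cases hjk : j = k
      · rw [if_pos hjk]
        exact Submodule.smul_mem _ _ (Submodule.subset_span (Or.inr ⟨k, rfl⟩))
      · rw [if_neg hjk]
        exact Submodule.zero_mem _
    | step k b z hz ih =>
      change br (X j) (br (Y k) z) ∈ S'
      rw [br_jac]
      refine Submodule.add_mem _ ?_ (hYS k _ ih)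
      rw [hXY]
      by_cases hjk : j = k
      · rw [if_pos hjk, smul_br,
          br_HH A (fun i => ε' * ((b i : ℤ) : ℂ)) z (mon_wt Y ε' hY b z hz) k]
        refine Submodule.smul_mem _ _ (Submodule.smul_mem _ _ ?_)
        exact Submodule.subset_span (Or.inl ⟨b, hz⟩)
      · rw [if_neg hjk, zero_br]
        exact Submodule.zero_mem _
  have h1 : S ≤ S.comap (brL (X j)) := by
    conv_lhs => rw [hS]
    rw [Submodule.span_le]
    rintro z ((⟨b, hz⟩ | ⟨b, hz⟩) | ⟨l, rfl⟩)
    · exact Submodule.subset_span (Or.inl (Or.inl ⟨_, Mon.step j b z hz⟩))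
    · exact hle (hXM b z hz)
    · change br (X j) (HH A G l) ∈ S
      rw [br_anti, br_HH A (fun i => ε * ((rt j i : ℤ) : ℂ)) (X j) (fun i => hX i j) l]
      refine Submodule.neg_mem _ (Submodule.smul_mem _ _ ?_)
      exact Submodule.subset_span (Or.inl (Or.inl ⟨_, Mon.one j⟩))
  exact h1 hx

private theorem hXE (h : GM A E F G) (i j : ι) :
    br (G i) (E j) = ((1 : ℂ) * ((rt j i : ℤ) : ℂ)) • E j := by
  rw [one_mul]
  exact br_GE h i j

private theorem hXF (h : GM A E F G) (i j : ι) :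
    br (G i) (F j) = ((-1 : ℂ) * ((rt j i : ℤ) : ℂ)) • F j := by
  rw [neg_one_mul]
  exact br_GF h i j

theorem SS_E (hA : IsADE A) (h : GM A E F G) (j : ι) (x : Module.End ℂ M) (hx : x ∈ SS A E F G) :
    hm (E j) (E j) x ∈ SS A E F G := by
  rw [br_hm]
  refine core A E F 1 (-1) 1 (hXE h) (hXF h) ?_ j x hx
  intro i k
  rw [br_EF h, one_smul]

theorem SS_F (hA : IsADE A) (h : GM A E F G) (j : ι) (x : Module.End ℂ M) (hx : x ∈ SS A E F G) :
    hm (F j) (F j) x ∈ SS A E F G := by
  rw [br_hm]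
  unfold SS at hx ⊢
  rw [Set.union_comm {x | ∃ b, Mon E b x}] at hx ⊢
  refine core A F E (-1) 1 (-1) (hXF h) (hXE h) ?_ j x hx
  intro i k
  rw [br_anti, br_EF h]
  by_cases hik : i = k
  · subst hik
    rw [if_pos rfl, if_pos rfl, neg_one_smul]
  · rw [if_neg hik, if_neg (Ne.symm hik), neg_zero]

/-- every generator is a weight vector -/
private theorem gen_wt (h : GM A E F G) (t : Module.End ℂ M)
    (ht : t ∈ ({x | ∃ b, Mon E b x} ∪ {x | ∃ b, Mon F b x} ∪ Set.range (HH A G))) :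
    (∃ b, Mon E b t ∧ Wt (fun i => hm (G i) (G i)) b t) ∨
      (∃ b, Mon F b t ∧ Wt (fun i => hm (G i) (G i)) (-b) t) ∨
      (t ∈ Set.range (HH A G) ∧ Wt (fun i => hm (G i) (G i)) 0 t) := by
  rcases ht with (⟨b, hb⟩ | ⟨b, hb⟩) | ⟨l, rfl⟩
  · refine Or.inl ⟨b, hb, fun i => ?_⟩
    rw [br_hm, mon_wt E 1 (hXE h) b t hb i, one_mul]
  · refine Or.inr (Or.inl ⟨b, hb, fun i => ?_⟩)
    rw [br_hm, mon_wt F (-1) (hXF h) b t hb i, neg_one_mul, Pi.neg_apply, Int.cast_neg]
  · refine Or.inr (Or.inr ⟨⟨l, rfl⟩, fun i => ?_⟩)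
    rw [br_hm, br_anti, br_HH A (fun _ => 0) (G i) (fun k => by rw [br_GG h, zero_smul]) l]
    simp

theorem SS_G (hA : IsADE A) (h : GM A E F G) (j : ι) (x : Module.End ℂ M) (hx : x ∈ SS A E F G) :
    hm (G j) (G j) x ∈ SS A E F G := by
  rw [br_hm]
  have h1 : SS A E F G ≤ (SS A E F G).comap (brL (G j)) := by
    conv_lhs => unfold SS
    rw [Submodule.span_le]
    intro z hz
    have hzS : z ∈ SS A E F G := Submodule.subset_span hz
    have h2 : ∃ b : ι → ℤ, Wt (fun i => hm (G i) (G i)) b z := by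
      rcases gen_wt h z hz with ⟨b, _, hb⟩ | ⟨b, _, hb⟩ | ⟨_, hb⟩
      · exact ⟨b, hb⟩
      · exact ⟨_, hb⟩
      · exact ⟨_, hb⟩
    obtain ⟨b, hb⟩ := h2
    change br (G j) z ∈ SS A E F G
    have h3 := hb j
    rw [br_hm] at h3
    rw [h3]
    exact Submodule.smul_mem _ _ hzS
  exact h1 hx

private theorem wt_aux (h : GM A E F G) (x : Module.End ℂ M) (hx : x ∈ SS A E F G)
    (b : ι → ℤ) (hb : Wt (fun i => hm (G i) (G i)) b x) :
    x ∈ Submodule.span ℂ {t | t ∈ ({x | ∃ b, Mon E b x} ∪ {x | ∃ b, Mon F b x} ∪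
      Set.range (HH A G)) ∧ Wt (fun i => hm (G i) (G i)) b t} := by
  refine wt_span _ ?_ x hx b hb
  intro t ht
  rcases gen_wt h t ht with ⟨b, _, hb⟩ | ⟨b, _, hb⟩ | ⟨_, hb⟩
  · exact ⟨b, hb⟩
  · exact ⟨_, hb⟩
  · exact ⟨_, hb⟩

theorem SS_wt (h : GM A E F G) (x : Module.End ℂ M) (hx : x ∈ SS A E F G) (h0 : x ≠ 0)
    (b : ι → ℤ) (hb : Wt (fun i => hm (G i) (G i)) b x) :
    (∀ i, 0 ≤ b i) ∨ (∀ i, b i ≤ 0) := by
  have h1 := wt_aux h x hx b hb
  have h2 : ∃ t, (t ∈ ({x | ∃ b, Mon E b x} ∪ {x | ∃ b, Mon F b x} ∪ Set.range (HH A G)) ∧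
      Wt (fun i => hm (G i) (G i)) b t) ∧ t ≠ 0 := by
    by_contra hcon
    push Not at hcon
    apply h0
    have h3 : Submodule.span ℂ {t | t ∈ ({x | ∃ b, Mon E b x} ∪ {x | ∃ b, Mon F b x} ∪
        Set.range (HH A G)) ∧ Wt (fun i => hm (G i) (G i)) b t} ≤ ⊥ := by
      rw [Submodule.span_le]
      intro t ht
      exact hcon t ht
    simpa using h3 h1
  obtain ⟨t, ⟨ht, hbt⟩, ht0⟩ := h2
  rcases gen_wt h t ht with ⟨b', hm', hb'⟩ | ⟨b', hm', hb'⟩ | ⟨_, hb'⟩
  · left
    rw [wt_unique t ht0 b b' hbt hb']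
    exact (mon_nonneg E b' t hm').1
  · right
    rw [wt_unique t ht0 b (-b') hbt hb']
    intro i
    have := (mon_nonneg F b' t hm').1 i
    simp only [Pi.neg_apply]
    omega
  · left
    rw [wt_unique t ht0 b 0 hbt hb']
    intro i
    exact le_rfl

theorem SS_wt0 (h : GM A E F G) (x : Module.End ℂ M) (hx : x ∈ SS A E F G)
    (hb : Wt (fun i => hm (G i) (G i)) 0 x) : ∃ c : ι → ℂ, x = ∑ j, c j • HH A G j := by
  have h1 := wt_aux h x hx 0 hb
  have h3 : Submodule.span ℂ {t | t ∈ ({x | ∃ b, Mon E b x} ∪ {x | ∃ b, Mon F b x} ∪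
      Set.range (HH A G)) ∧ Wt (fun i => hm (G i) (G i)) 0 t} ≤
      Submodule.span ℂ (Set.range (HH A G)) := by
    rw [Submodule.span_le]
    rintro t ⟨ht, hbt⟩
    by_cases ht0 : t = 0
    · rw [ht0]
      exact Submodule.zero_mem _
    rcases gen_wt h t ht with ⟨b', hm', hb'⟩ | ⟨b', hm', hb'⟩ | ⟨ht', hb'⟩
    · exfalso
      have h4 := wt_unique t ht0 0 b' hbt hb'
      obtain ⟨i, hi⟩ := (mon_nonneg E b' t hm').2
      rw [← h4] at hi
      simp at hi
    · exfalso
      have h4 := wt_unique t ht0 0 (-b') hbt hb'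
      obtain ⟨i, hi⟩ := (mon_nonneg F b' t hm').2
      have h5 := congrFun h4 i
      simp only [Pi.zero_apply, Pi.neg_apply] at h5
      omega
    · exact Submodule.subset_span ht'
  obtain ⟨c, hc⟩ := (Submodule.mem_span_range_iff_exists_fun ℂ).1 (h3 h1)
  exact ⟨c, hc.symm⟩

theorem SS_inv (x : Module.End ℂ M) (hx : x ∈ SS A E F G) (v : M) (hE : ∀ j, E j v = 0)
    (hF : ∀ j, F j v = 0) (hG : ∀ j, G j v = 0) : x v = 0 := by
  have hmon : ∀ X : ι → Module.End ℂ M, (∀ j, X j v = 0) → ∀ b x, Mon X b x → x v = 0 := by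
    intro X hX b x hx
    induction hx with
    | one j => exact hX j
    | step j b x _ ih =>
      rw [LinearMap.sub_apply, Module.End.mul_apply, Module.End.mul_apply, ih, hX, map_zero,
        map_zero, sub_zero]
  have h1 : SS A E F G ≤ LinearMap.ker (LinearMap.applyₗ (R := ℂ) (M₂ := M) v) := by
    unfold SS
    rw [Submodule.span_le]
    rintro z ((⟨b, hz⟩ | ⟨b, hz⟩) | ⟨l, rfl⟩)
    · exact hmon E hE b z hz
    · exact hmon F hF b z hz
    · change HH A G l v = 0
      unfold HH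
      rw [LinearMap.sum_apply]
      refine Finset.sum_eq_zero fun k _ => ?_
      rw [LinearMap.smul_apply, hG, smul_zero]
  exact h1 hx

theorem E_mem_SS (A : Matrix ι ι ℤ) (E F G : ι → Module.End ℂ M) (j : ι) : E j ∈ SS A E F G :=
  Submodule.subset_span (Or.inl (Or.inl ⟨_, Mon.one j⟩))

theorem F_mem_SS (A : Matrix ι ι ℤ) (E F G : ι → Module.End ℂ M) (j : ι) : F j ∈ SS A E F G :=
  Submodule.subset_span (Or.inl (Or.inr ⟨_, Mon.one j⟩))

theorem HH_mem_SS (A : Matrix ι ι ℤ) (E F G : ι → Module.End ℂ M) (j : ι) :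
    HH A G j ∈ SS A E F G :=
  Submodule.subset_span (Or.inr ⟨j, rfl⟩)

end

end WPQ.GA
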