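import Pool.Agent.WPQ.GA3

/-! [WPQ-GA5] Positivity of the trace form on the Cartan operators.

`M` is finite dimensional with a basis `e_k` of weight vectors, weights `g_k` (`Module.Basis.ofSpan`).
`x = ∑ c_j HH_j` acts on `e_k` by the scalar `s_k = ∑_j c_j pr A j g_k`, and `x' = ∑ conj(c_j) HH_j` acts by
`conj(s_k)` (the numbers `pr A j g_k` are integers).  `tr(x x') = ∑_k s_k conj(s_k) = ∑_k |s_k|^2`
(`LinearMap.trace_eq_matrix_trace` in the basis `e`, the matrix is diagonal).  By hypothesis
`tr(x x') = ∑_j conj(c_j) tr(x HH_j) = 0`, so all `s_k = 0` and `x = 0`. -/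

namespace WPQ.GA

noncomputable section

variable {ι : Type} [Fintype ι] [DecidableEq ι] {A : Matrix ι ι ℤ}
variable {M : Type} [AddCommGroup M] [Module ℂ M] {E F G : ι → Module.End ℂ M}

theorem GM.cartan_nondeg [FiniteDimensional ℂ M] (h : GM A E F G) (c : ι → ℂ)
    (hc : ∀ k, LinearMap.trace ℂ M ((∑ j, c j • HH A G j) * HH A G k) = 0) :
    ∑ j, c j • HH A G j = 0 := by
  classical
  -- a basis of weight vectors
  have hs : (⊤ : Submodule ℂ M) ≤ Submodule.span ℂ {v | ∃ g : ι → ℤ, Wt G g v} :=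
    le_of_eq h.span.symm
  set b := Module.Basis.ofSpan hs with hb
  have hwt : ∀ k, ∃ g : ι → ℤ, Wt G g (b k) := by
    intro k
    have h1 := Module.Basis.ofSpan_subset hs (Set.mem_range_self k)
    exact h1
  choose g hg using hwt
  have : Fintype ((linearIndepOn_empty ℂ id).extend
      (Set.empty_subset {v : M | ∃ g : ι → ℤ, Wt G g v})) :=
    FiniteDimensional.fintypeBasisIndex b
  -- the Cartan operators are diagonal
  have hH : ∀ j k, HH A G j (b k) = ((pr A j (g k) : ℤ) : ℂ) • b k := by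
    intro j k
    unfold HH pr
    rw [LinearMap.sum_apply, Int.cast_sum, Finset.sum_smul]
    refine Finset.sum_congr rfl fun i _ => ?_
    rw [LinearMap.smul_apply, hg k i, smul_smul, Int.cast_mul]
  have hx : ∀ (c : ι → ℂ) k, (∑ j, c j • HH A G j) (b k) =
      (∑ j, c j * ((pr A j (g k) : ℤ) : ℂ)) • b k := by
    intro c k
    rw [LinearMap.sum_apply, Finset.sum_smul]
    refine Finset.sum_congr rfl fun i _ => ?_
    rw [LinearMap.smul_apply, hH, smul_smul]
  -- the trace of the product with the conjugate operator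
  have ht : LinearMap.trace ℂ M ((∑ j, c j • HH A G j) *
      (∑ j, (starRingEnd ℂ) (c j) • HH A G j)) =
      ∑ k, ((Complex.normSq (∑ j, c j * ((pr A j (g k) : ℤ) : ℂ)) : ℝ) : ℂ) := by
    rw [LinearMap.trace_eq_matrix_trace ℂ b, Matrix.trace]
    refine Finset.sum_congr rfl fun k _ => ?_
    rw [Matrix.diag_apply, LinearMap.toMatrix_apply, Module.End.mul_apply, hx, map_smul, hx,
      smul_smul, map_smul, Module.Basis.repr_self, Finsupp.smul_apply, Finsupp.single_eq_same,
      smul_eq_mul, mul_one, ← Complex.mul_conj, mul_comm]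
    congr 1
    rw [map_sum]
    refine Finset.sum_congr rfl fun i _ => ?_
    rw [map_mul, map_intCast]
  have ht0 : LinearMap.trace ℂ M ((∑ j, c j • HH A G j) *
      (∑ j, (starRingEnd ℂ) (c j) • HH A G j)) = 0 := by
    rw [Finset.mul_sum, map_sum]
    refine Finset.sum_eq_zero fun k _ => ?_
    rw [mul_smul_comm, map_smul, hc k, smul_zero]
  rw [ht0] at ht
  have ht1 : ∑ k, Complex.normSq (∑ j, c j * ((pr A j (g k) : ℤ) : ℂ)) = 0 := by
    have h2 := ht.symm
    rw [← Complex.ofReal_sum] at h2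
    exact Complex.ofReal_eq_zero.1 h2
  have hz := (Finset.sum_eq_zero_iff_of_nonneg fun k _ => Complex.normSq_nonneg _).1 ht1
  refine b.ext fun k => ?_
  rw [hx, Complex.normSq_eq_zero.1 (hz k (Finset.mem_univ k)), zero_smul, LinearMap.zero_apply]

end

end WPQ.GA
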