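import Pool.Agent.WPQ.GA3
import Pool.Agent.WPQ.GA4
import Pool.Agent.WPQ.GA5

/-! [WPQ-GA6] The trace form is nondegenerate on `SS A E F G`.

`R = {x ∈ SS | tr(x y) = 0 for all y ∈ SS}` is stable under `hm (E j) (E j)`, `hm (F j) (F j)`,
`hm (G j) (G j)` (`tr([X, x] y) = -tr(x [X, y])`, `LinearMap.trace_mul_comm`, and `SS_E`, `SS_F`, `SS_G`).
`End M` is a `GM` (`GM.hom h h`) and so is `R` (`GM.sub`): if `R ≠ 0` it contains a nonzero weight vector, of
weight `b` say.  `b = 0` is impossible (`SS_wt0` and `GM.cartan_nondeg`, `HH_mem_SS`).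
So `b ≥ 0` or `b ≤ 0` (`SS_wt`), `b ≠ 0`.
Case `b ≥ 0`: take `x ∈ R`, `x ≠ 0` of weight `b ≥ 0`, `b ≠ 0` with minimal height `∑ b i` (`Nat.find` on the
natural number `∑ b i`, or strong induction on the height: statement `P(n)`: there is no nonzero `x ∈ R` of
weight `b ≥ 0`, `b ≠ 0` of height `n`).  `y = [F j, x] ∈ R` has weight `b - rt j`.  If `y ≠ 0`: by `SS_wt`
either `b - rt j ≥ 0`: it is `0` (impossible, see above) or a smaller positive weight (impossible by
minimality); or `b - rt j ≤ 0`: then `b ≤ rt j`, `b ≥ 0`, `b ≠ 0` so `b = rt j`, weight `0`, impossible.  So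
`hm (F j) (F j) x = 0` for all `j` and `pr A j b ≤ 0` (`GM.pr_nonpos` in `End M`); then
`bl A b b = ∑_j b_j pr A j b ≤ 0` (`jj1_bl_eq`), contradiction to `bl_self_pos`.
Case `b ≤ 0`: mirror image (`h.mirror`, `SS A F E (-G) = SS A E F G`; or repeat with `E j`, `pr_nonneg`). -/

namespace WPQ.GA

noncomputable section

variable {ι : Type} [Fintype ι] [DecidableEq ι] {A : Matrix ι ι ℤ}
variable {M : Type} [AddCommGroup M] [Module ℂ M] {E F G : ι → Module.End ℂ M}

/-- Weights of `F j x`. -/
private theorem ga6_wtF {N : Type} [AddCommGroup N] [Module ℂ N] {E F G : ι → Module.End ℂ N}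
    (h : GM A E F G) (j : ι) (b : ι → ℤ) (x : N) (hx : Wt G b x) : Wt G (b - rt j) (F j x) := by
  intro i
  rw [h.GF, hx i, map_smul, Pi.sub_apply, rt, Int.cast_sub, sub_smul]
  by_cases hij : i = j
  · rw [if_pos hij, hij, Pi.single_eq_same, Int.cast_one, one_smul]
  · rw [if_neg hij, Pi.single_eq_of_ne hij, Int.cast_zero, zero_smul]

/-- The minimal height argument. -/
private theorem ga6_pos {N : Type} [AddCommGroup N] [Module ℂ N] [FiniteDimensional ℂ N]
    {E F G : ι → Module.End ℂ N} (hA : IsADE A) (h : GM A E F G) (R : Submodule ℂ N)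
    (hF : ∀ j, ∀ x ∈ R, F j x ∈ R)
    (hw : ∀ x ∈ R, x ≠ 0 → ∀ b : ι → ℤ, Wt G b x → ((∀ i, 0 ≤ b i) ∨ (∀ i, b i ≤ 0)) ∧ b ≠ 0) :
    ∀ (n : ℕ) (x : N), x ∈ R → x ≠ 0 → ∀ b : ι → ℤ, Wt G b x → (∀ i, 0 ≤ b i) →
      ∑ i, b i = (n : ℤ) → False := by
  intro n
  induction n using Nat.strong_induction_on with
  | _ n ih =>
    intro x hx h0 b hb hb0 hn
    have hbne := (hw x hx h0 b hb).2
    have hFz : ∀ j, F j x = 0 := by
      intro j
      by_contra hj
      have h1 := ga6_wtF h j b x hb
      obtain ⟨h2, h3⟩ := hw _ (hF j x hx) hj _ h1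
      rcases h2 with h2 | h2
      · have hsum : ∑ i, (b - rt j) i = (n : ℤ) - 1 := by
          simp only [Pi.sub_apply]
          rw [Finset.sum_sub_distrib, hn]
          congr 1
          rw [rt, Finset.sum_pi_single']
          simp
        have h4 : 0 ≤ ∑ i, (b - rt j) i := Finset.sum_nonneg fun i _ => h2 i
        refine ih (n - 1) (by omega) _ (hF j x hx) hj _ h1 h2 ?_
        rw [hsum]
        omega
      · have h4 : ∀ i, i ≠ j → b i = 0 := by
          intro i hi
          have h5 := h2 i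
          rw [Pi.sub_apply, rt, Pi.single_eq_of_ne hi, sub_zero] at h5
          exact le_antisymm h5 (hb0 i)
        have h5 : b j ≤ 1 := by
          have h6 := h2 j
          rw [Pi.sub_apply, rt, Pi.single_eq_same] at h6
          linarith
        have h6 := hb0 j
        have h7 : b j = 0 ∨ b j = 1 := by omega
        rcases h7 with h7 | h7
        · apply hbne
          funext i
          by_cases hi : i = j
          · rw [hi, h7, Pi.zero_apply]
          · rw [h4 i hi, Pi.zero_apply]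
        · apply h3
          funext i
          rw [Pi.sub_apply, rt, Pi.zero_apply]
          by_cases hi : i = j
          · rw [hi, h7, Pi.single_eq_same, sub_self]
          · rw [h4 i hi, Pi.single_eq_of_ne hi, sub_self]
    have h8 : bl A b b ≤ 0 := by
      rw [jj1_bl_eq]
      exact Finset.sum_nonpos fun i _ =>
        mul_nonpos_of_nonneg_of_nonpos (hb0 i) (h.pr_nonpos hA i b x hb h0 (hFz i))
    have h9 := bl_self_pos hA b hbne
    omega

/-- Invariance of the trace form. -/
private theorem ga6_inv (X x y : Module.End ℂ M) :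
    LinearMap.trace ℂ M ((hm X X x : Module.End ℂ M) * y) =
      -LinearMap.trace ℂ M (x * (hm X X y : Module.End ℂ M)) := by
  have h1 : (hm X X x : Module.End ℂ M) = X * x - x * X := rfl
  have h2 : (hm X X y : Module.End ℂ M) = X * y - y * X := rfl
  rw [h1, h2, sub_mul, mul_sub, map_sub, map_sub, mul_assoc, LinearMap.trace_mul_comm ℂ X (x * y),
    mul_assoc, mul_assoc]
  ring

theorem GM.trace_nondeg [FiniteDimensional ℂ M] (hA : IsADE A) (h : GM A E F G)
    (x : Module.End ℂ M) (hx : x ∈ SS A E F G)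
    (h0 : ∀ y ∈ SS A E F G, LinearMap.trace ℂ M (x * y) = 0) : x = 0 := by
  have h' := h.hom h
  -- the radical
  let R : Submodule ℂ (M →ₗ[ℂ] M) :=
    { carrier := {x | x ∈ SS A E F G ∧ ∀ y ∈ SS A E F G,
        LinearMap.trace ℂ M ((x : Module.End ℂ M) * y) = 0}
      add_mem' := by
        rintro x x' ⟨h1, h2⟩ ⟨h3, h4⟩
        refine ⟨Submodule.add_mem _ h1 h3, fun y hy => ?_⟩
        have := congrArg₂ (· + ·) (h2 y hy) (h4 y hy)
        simp only [add_zero] at this
        rw [← map_add, ← add_mul] at this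
        exact this
      zero_mem' := by
        refine ⟨Submodule.zero_mem _, fun y hy => ?_⟩
        have h3 : ((0 : Module.End ℂ M) * y) = 0 := zero_mul y
        exact (congrArg (LinearMap.trace ℂ M) h3).trans (map_zero _)
      smul_mem' := by
        rintro c x ⟨h1, h2⟩
        refine ⟨Submodule.smul_mem _ c h1, fun y hy => ?_⟩
        have h3 : ((c • x : Module.End ℂ M) * y) = c • ((x : Module.End ℂ M) * y) :=
          smul_mul_assoc c (x : Module.End ℂ M) y
        refine (congrArg (LinearMap.trace ℂ M) h3).trans ?_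
        rw [map_smul, h2 y hy, smul_zero] }
  have hRS : ∀ z ∈ R, z ∈ SS A E F G := fun z hz => hz.1
  have hRE : ∀ j, ∀ z ∈ R, hm (E j) (E j) z ∈ R := by
    intro j z hz
    refine ⟨SS_E hA h j z hz.1, fun y hy => ?_⟩
    rw [ga6_inv, hz.2 _ (SS_E hA h j y hy), neg_zero]
  have hRF : ∀ j, ∀ z ∈ R, hm (F j) (F j) z ∈ R := by
    intro j z hz
    refine ⟨SS_F hA h j z hz.1, fun y hy => ?_⟩
    rw [ga6_inv, hz.2 _ (SS_F hA h j y hy), neg_zero]
  have hRG : ∀ j, ∀ z ∈ R, hm (G j) (G j) z ∈ R := by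
    intro j z hz
    refine ⟨SS_G hA h j z hz.1, fun y hy => ?_⟩
    rw [ga6_inv, hz.2 _ (SS_G hA h j y hy), neg_zero]
  have hw : ∀ z ∈ R, z ≠ 0 → ∀ b : ι → ℤ, Wt (fun i => hm (G i) (G i)) b z →
      ((∀ i, 0 ≤ b i) ∨ (∀ i, b i ≤ 0)) ∧ b ≠ 0 := by
    intro z hz hz0 b hb
    refine ⟨SS_wt h z (hRS z hz) hz0 b hb, ?_⟩
    rintro rfl
    obtain ⟨c, hc⟩ := SS_wt0 h z (hRS z hz) hb
    apply hz0
    rw [hc]
    refine h.cartan_nondeg c fun k => ?_
    rw [← hc]
    exact hz.2 _ (HH_mem_SS A E F G k)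
  -- no nonzero weight vector in the radical
  have hno : ∀ z ∈ R, ∀ b : ι → ℤ, Wt (fun i => hm (G i) (G i)) b z → z = 0 := by
    intro z hz b hb
    by_contra hz0
    rcases (hw z hz hz0 b hb).1 with h1 | h1
    · have h2 : 0 ≤ ∑ i, b i := Finset.sum_nonneg fun i _ => h1 i
      exact ga6_pos hA h' R hRF hw (∑ i, b i).toNat z hz hz0 b hb h1 (Int.toNat_of_nonneg h2).symm
    · have h2 : 0 ≤ ∑ i, (-b) i := Finset.sum_nonneg fun i _ => by
        have := h1 i
        rw [Pi.neg_apply]
        omega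
      have hm' : ∀ (w : M →ₗ[ℂ] M) (g : ι → ℤ), Wt (fun i => -hm (G i) (G i)) g w →
          Wt (fun i => hm (G i) (G i)) (-g) w := by
        intro w g hg i
        have := hg i
        rw [LinearMap.neg_apply] at this
        rw [Pi.neg_apply, Int.cast_neg, neg_smul, ← this, neg_neg]
      refine ga6_pos hA h'.mirror R hRE ?_ (∑ i, (-b) i).toNat z hz hz0 (-b) ?_ ?_
        (Int.toNat_of_nonneg h2).symm
      · intro w hw' hw0 g hg
        obtain ⟨h3, h4⟩ := hw w hw' hw0 (-g) (hm' w g hg)
        refine ⟨?_, fun h5 => h4 (by rw [h5, neg_zero])⟩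
        rcases h3 with h3 | h3
        · right
          intro i
          have := h3 i
          rw [Pi.neg_apply] at this
          omega
        · left
          intro i
          have := h3 i
          rw [Pi.neg_apply] at this
          omega
      · intro i
        rw [LinearMap.neg_apply, hb i, Pi.neg_apply, Int.cast_neg, neg_smul]
      · intro i
        have := h1 i
        rw [Pi.neg_apply]
        omega
  -- components
  have hxR : x ∈ R := ⟨hx, h0⟩
  obtain ⟨s, v, hv, hs⟩ := exists_comp h' x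
  have h3 : ∀ g ∈ s, v g = 0 := by
    intro g hg
    refine hno (v g) ?_ g (hv g)
    refine comp_mem R hRG s v hv ?_ g hg
    rw [← hs]
    exact hxR
  rw [hs]
  exact Finset.sum_eq_zero h3

end

end WPQ.GA
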