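import Mathlib

/-! [WPQ-GA7] The Casimir operator (pure linear algebra).

`S` is a subspace of `End M`, `M` finite dimensional, with nondegenerate trace form.  Take a basis `x_i` of
`S` and the dual basis `y_i` of `S` for the symmetric form `(x, y) ↦ tr(x y)`
(`LinearMap.BilinForm.dualBasis`): `tr(y_i x_j) = δ_ij`; every `z ∈ S` is
`z = ∑ tr(y_j z) x_j = ∑ tr(x_j z) y_j`.  `C = ∑ x_i y_i`.
Trace: `tr C = ∑ tr(x_i y_i) = dim S`.
Commutation: for `X` with `[X, S] ⊆ S`:
`[X, C] = ∑_i [X, x_i] y_i + x_i [X, y_i] = ∑_ij tr(y_j [X, x_i]) x_j y_i + tr(x_j [X, y_i]) x_i y_j`, and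
`tr(x_j [X, y_i]) = -tr([X, x_j] y_i) = -tr(y_i [X, x_j])`: the two sums cancel after exchanging `i` and `j`.
`C` is a sum of products `x y` with `y ∈ S`, so it kills every vector killed by `S`. -/

namespace WPQ.GA

noncomputable section

/-- The trace form on a subspace of `End M`. -/
private def ga7_B {M : Type} [AddCommGroup M] [Module ℂ M] (S : Submodule ℂ (Module.End ℂ M)) :
    LinearMap.BilinForm ℂ S :=
  LinearMap.mk₂ ℂ (fun x y : S => LinearMap.trace ℂ M ((x : Module.End ℂ M) * y))
    (fun x x' y => by rw [Submodule.coe_add, add_mul, map_add])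
    (fun c x y => by rw [Submodule.coe_smul, smul_mul_assoc, map_smul])
    (fun x y y' => by rw [Submodule.coe_add, mul_add, map_add])
    (fun c x y => by rw [Submodule.coe_smul, mul_smul_comm, map_smul])

private theorem ga7_B_apply {M : Type} [AddCommGroup M] [Module ℂ M]
    (S : Submodule ℂ (Module.End ℂ M)) (x y : S) :
    ga7_B S x y = LinearMap.trace ℂ M ((x : Module.End ℂ M) * y) := rfl

theorem exists_casimir {M : Type} [AddCommGroup M] [Module ℂ M] [FiniteDimensional ℂ M]
    (S : Submodule ℂ (Module.End ℂ M))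
    (hS : ∀ x ∈ S, (∀ y ∈ S, LinearMap.trace ℂ M (x * y) = 0) → x = 0) :
    ∃ C : Module.End ℂ M, LinearMap.trace ℂ M C = Module.finrank ℂ S ∧
      (∀ X : Module.End ℂ M, (∀ x ∈ S, X * x - x * X ∈ S) → X * C = C * X) ∧
      ∀ v : M, (∀ x ∈ S, x v = 0) → C v = 0 := by
  have hsym : ∀ x y : S, ga7_B S x y = ga7_B S y x := fun x y => by
    rw [ga7_B_apply, ga7_B_apply, LinearMap.trace_mul_comm]
  have hnd : (ga7_B S).Nondegenerate := by
    constructor
    · intro x hx
      exact Subtype.ext (hS x x.2 fun y hy => hx ⟨y, hy⟩)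
    · intro x hx
      refine Subtype.ext (hS x x.2 fun y hy => ?_)
      rw [LinearMap.trace_mul_comm]
      exact hx ⟨y, hy⟩
  -- dual bases
  let b := Module.finBasis ℂ S
  let d := (ga7_B S).dualBasis hnd b
  have hdb : ∀ i j, ga7_B S (d i) (b j) = if j = i then 1 else 0 :=
    LinearMap.BilinForm.apply_dualBasis_left hnd b
  have hzd : ∀ z : S, z = ∑ j, ga7_B S z (b j) • d j := by
    intro z
    conv_lhs => rw [← d.sum_repr z]
    refine Finset.sum_congr rfl fun j _ => ?_
    rw [LinearMap.BilinForm.dualBasis_repr_apply]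
  have hzb : ∀ z : S, z = ∑ j, ga7_B S (d j) z • b j := by
    intro z
    conv_lhs => rw [← b.sum_repr z]
    refine Finset.sum_congr rfl fun j _ => ?_
    have h1 : ga7_B S (d j) z = b.repr z j := by
      conv_lhs => rw [← b.sum_repr z]
      rw [map_sum, Finset.sum_eq_single j]
      · rw [map_smul, hdb, if_pos rfl, smul_eq_mul, mul_one]
      · intro i _ hi
        rw [map_smul, hdb, if_neg hi, smul_zero]
      · intro h
        exact absurd (Finset.mem_univ j) h
    rw [h1]
  refine ⟨∑ i, (b i : Module.End ℂ M) * d i, ?_, ?_, ?_⟩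
  · rw [map_sum]
    have h1 : ∀ i, LinearMap.trace ℂ M ((b i : Module.End ℂ M) * d i) = 1 := by
      intro i
      have := hdb i i
      rw [if_pos rfl, hsym, ga7_B_apply] at this
      exact this
    rw [Finset.sum_congr rfl fun i _ => h1 i]
    simp
  · intro X hX
    -- the commutator with `X`
    let D : S → S := fun x => ⟨X * x - x * X, hX x x.2⟩
    have hD : ∀ x : S, ((D x : S) : Module.End ℂ M) = X * x - x * X := fun x => rfl
    have hskew : ∀ x y : S, ga7_B S (D x) y = -ga7_B S x (D y) := by
      intro x y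
      rw [ga7_B_apply, ga7_B_apply, hD, hD, sub_mul, mul_sub, map_sub, map_sub, neg_sub,
        mul_assoc, LinearMap.trace_mul_comm, mul_assoc, mul_assoc]
    have h1 : ∀ i, ((D (b i) : S) : Module.End ℂ M) =
        ∑ j, ga7_B S (d j) (D (b i)) • (b j : Module.End ℂ M) := by
      intro i
      have := congrArg (fun z : S => (z : Module.End ℂ M)) (hzb (D (b i)))
      simpa only [Submodule.coe_sum, Submodule.coe_smul] using this
    have h2 : ∀ i, ((D (d i) : S) : Module.End ℂ M) =
        ∑ j, ga7_B S (D (d i)) (b j) • (d j : Module.End ℂ M) := by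
      intro i
      have := congrArg (fun z : S => (z : Module.End ℂ M)) (hzd (D (d i)))
      simpa only [Submodule.coe_sum, Submodule.coe_smul] using this
    rw [← sub_eq_zero, Finset.mul_sum, Finset.sum_mul, ← Finset.sum_sub_distrib]
    have h3 : ∀ i, X * ((b i : Module.End ℂ M) * d i) - (b i : Module.End ℂ M) * d i * X =
        (D (b i) : Module.End ℂ M) * d i + (b i : Module.End ℂ M) * (D (d i) : Module.End ℂ M) := by
      intro i
      rw [hD, hD]
      noncomm_ring
    rw [Finset.sum_congr rfl fun i _ => h3 i, Finset.sum_add_distrib]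
    have h4 : ∑ i, (D (b i) : Module.End ℂ M) * d i =
        ∑ i, ∑ j, ga7_B S (d j) (D (b i)) • ((b j : Module.End ℂ M) * d i) := by
      refine Finset.sum_congr rfl fun i _ => ?_
      rw [h1 i, Finset.sum_mul]
      refine Finset.sum_congr rfl fun j _ => ?_
      rw [smul_mul_assoc]
    have h5 : ∑ i, (b i : Module.End ℂ M) * (D (d i) : Module.End ℂ M) =
        ∑ i, ∑ j, ga7_B S (D (d i)) (b j) • ((b i : Module.End ℂ M) * d j) := by
      refine Finset.sum_congr rfl fun i _ => ?_
      rw [h2 i, Finset.mul_sum]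
      refine Finset.sum_congr rfl fun j _ => ?_
      rw [mul_smul_comm]
    rw [h4, h5, Finset.sum_comm, ← Finset.sum_add_distrib]
    refine Finset.sum_eq_zero fun i _ => ?_
    rw [← Finset.sum_add_distrib]
    refine Finset.sum_eq_zero fun j _ => ?_
    rw [hskew, neg_smul, add_neg_cancel]
  · intro v hv
    rw [LinearMap.sum_apply]
    refine Finset.sum_eq_zero fun i _ => ?_
    rw [Module.End.mul_apply, hv _ (d i).2, map_zero]

end

end WPQ.GA
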