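import Pool.Agent.WPQ.GAD

/-! [WPQ-GA8a] Projection of the coinvariant kernel to a direct summand.

Write `y = ∑ E_j m_j + ∑ G_i m'_i` (finite supremum of ranges, `Submodule.mem_iSup_iff_exists_finsupp` or show
by `Submodule.iSup_induction` the statement: for every `x ∈ Co E G` the component of `x` in `M₀` along `M₁` is in
`Co` of `M₀`).  The projection `pr = Submodule.linearProjOfIsCompl M₀ M₁ hc : M → M₀`
commutes with operators that preserve `M₀` and `M₁`: `pr (E i x) = (E i).restrict _ (pr x)` (write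
`x = x₀ + x₁`).  For `y ∈ M₀`: `pr y = y`. -/

namespace WPQ.GA

noncomputable section

variable {ι : Type} [Fintype ι] [DecidableEq ι] {A : Matrix ι ι ℤ}
variable {M : Type} [AddCommGroup M] [Module ℂ M] {E F G : ι → Module.End ℂ M}

/-- The projection commutes with operators preserving both summands. -/
private theorem ga8a_comm (M₀ M₁ : Submodule ℂ M) (hc : IsCompl M₀ M₁) (X : Module.End ℂ M)
    (h₀ : ∀ v ∈ M₀, X v ∈ M₀) (h₁ : ∀ v ∈ M₁, X v ∈ M₁) (x : M) :
    M₀.projectionOnto M₁ hc (X x) = X.restrict h₀ (M₀.projectionOnto M₁ hc x) := by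
  set x₀ := M₀.projectionOnto M₁ hc x with hx₀
  have h1 : x - x₀ ∈ M₁ := by
    rw [← Submodule.projectionOnto_apply_eq_zero_iff hc, map_sub,
      Submodule.projectionOnto_apply_left, ← hx₀, sub_self]
  have h2 : X x = X x₀ + X (x - x₀) := by
    rw [← map_add, add_sub_cancel]
  rw [h2, map_add, Submodule.projectionOnto_apply_of_mem_left hc (h₀ _ x₀.2),
    (Submodule.projectionOnto_apply_eq_zero_iff hc).2 (h₁ _ h1), add_zero]
  rfl

/-- Projection of `Co M` to a direct summand. -/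
theorem Co_proj (M₀ M₁ : Submodule ℂ M) (hc : IsCompl M₀ M₁) (hE₀ : ∀ i, ∀ v ∈ M₀, E i v ∈ M₀)
    (hG₀ : ∀ i, ∀ v ∈ M₀, G i v ∈ M₀) (hE₁ : ∀ i, ∀ v ∈ M₁, E i v ∈ M₁)
    (hG₁ : ∀ i, ∀ v ∈ M₁, G i v ∈ M₁) (y : M) (hy : y ∈ M₀) (hC : y ∈ Co E G) :
    (⟨y, hy⟩ : M₀) ∈ Co (M := M₀) (fun i => (E i).restrict (hE₀ i))
      (fun i => (G i).restrict (hG₀ i)) := by
  have key : Co E G ≤ (Co (M := M₀) (fun i => (E i).restrict (hE₀ i))
      (fun i => (G i).restrict (hG₀ i))).comap (M₀.projectionOnto M₁ hc) := by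
    refine iSup_le fun i => sup_le ?_ ?_
    · rintro _ ⟨x, rfl⟩
      rw [Submodule.mem_comap, ga8a_comm M₀ M₁ hc (E i) (hE₀ i) (hE₁ i)]
      exact Submodule.mem_iSup_of_mem i (Submodule.mem_sup_left ⟨_, rfl⟩)
    · rintro _ ⟨x, rfl⟩
      rw [Submodule.mem_comap, ga8a_comm M₀ M₁ hc (G i) (hG₀ i) (hG₁ i)]
      exact Submodule.mem_iSup_of_mem i (Submodule.mem_sup_right ⟨_, rfl⟩)
  have h1 := key hC
  rw [Submodule.mem_comap, Submodule.projectionOnto_apply_of_mem_left hc hy] at h1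
  exact h1

end

end WPQ.GA
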