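import Pool.Agent.WPQ.GA6
import Pool.Agent.WPQ.GA7
import Pool.Agent.WPQ.GA8a

/-! [WPQ-GA8] Invariants and coinvariants: `Inv M ∩ Co M = 0`.

Strong induction on `dim M` (all modules in `Type`).  Let `y ∈ Inv ∩ Co`.  `C` = the Casimir operator
(`exists_casimir` for `S = SS A E F G`, nondegenerate by `GM.trace_nondeg`); it commutes with `E j`, `F j`,
`G i` (`SS_E`, `SS_F`, `SS_G`), and `C y = 0` (`SS_inv`, `GM.F_inv`).
Fitting: `M = M₀ ⊕ M₁`, `M₀ = ⨆ ker C^n`, `M₁ = ⨅ range C^n`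
(`LinearMap.isCompl_iSup_ker_pow_iInf_range_pow`), both stable under `E j`, `F j`, `G i`.  `y ∈ M₀`.
`y ∈ Co M₀`: write `y = ∑ E_j m_j + ∑ G_i m'_i` and project to `M₀` along `M₁`
(the projection commutes with operators that preserve `M₀` and `M₁`).
If `M₀ ≠ ⊤`, the induction hypothesis for `M₀` (`GM.sub`) gives `y = 0`.
If `M₀ = ⊤` then `C` is nilpotent (finite dimension), `tr C = 0` (`LinearMap.isNilpotent_trace_of_isNilpotent`),
so `dim SS = 0`, `E j = 0` and `HH j = 0` (`E_mem_SS`, `HH_mem_SS`).  A nonzero vector of weight `g` has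
`pr A j g = 0` for all `j` (`HH_wt`), so `bl A g g = 0` and `g = 0` (`bl_self_pos`).  So `G i = 0` (on weight
vectors, `h.span`), `Co M = ⊥` and `y = 0`. -/

namespace WPQ.GA

noncomputable section

variable {ι : Type} [Fintype ι] [DecidableEq ι] {A : Matrix ι ι ℤ}
variable {M : Type} [AddCommGroup M] [Module ℂ M] {E F G : ι → Module.End ℂ M}

omit [Fintype ι] [DecidableEq ι] in
private theorem ga8_mem_Inv (v : M) : v ∈ Inv E G ↔ (∀ i, E i v = 0) ∧ ∀ i, G i v = 0 := by
  unfold Inv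
  simp only [Submodule.mem_iInf, Submodule.mem_inf, LinearMap.mem_ker]
  exact ⟨fun h => ⟨fun i => (h i).1, fun i => (h i).2⟩, fun h i => ⟨h.1 i, h.2 i⟩⟩

/-- If `SS A E F G = 0`, then `Co E G = 0`. -/
private theorem ga8_co_bot (hA : IsADE A) (h : GM A E F G) (hS : SS A E F G = ⊥) :
    Co E G = ⊥ := by
  have hE : ∀ j, E j = 0 := fun j => by
    have h1 := E_mem_SS A E F G j
    rw [hS, Submodule.mem_bot] at h1
    exact h1
  have hH : ∀ j, HH A G j = 0 := fun j => by
    have h1 := HH_mem_SS A E F G j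
    rw [hS, Submodule.mem_bot] at h1
    exact h1
  have hG : ∀ j, G j = 0 := by
    intro j
    refine LinearMap.ext fun x => ?_
    have hx : x ∈ Submodule.span ℂ {v | ∃ g : ι → ℤ, Wt G g v} := by
      rw [h.span]
      exact Submodule.mem_top
    refine Submodule.span_induction (p := fun x _ => G j x = (0 : Module.End ℂ M) x)
      ?_ ?_ ?_ ?_ hx
    · rintro v ⟨g, hg⟩
      by_cases hv : v = 0
      · rw [hv, map_zero, LinearMap.zero_apply]
      have h2 : ∀ k, pr A k g = 0 := by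
        intro k
        have h3 := HH_wt (A := A) k g v hg
        rw [hH k, LinearMap.zero_apply] at h3
        rcases smul_eq_zero.1 h3.symm with h4 | h4
        · exact_mod_cast h4
        · exact absurd h4 hv
      have h5 : g = 0 := by
        by_contra hne
        have h6 := bl_self_pos hA g hne
        have h7 : bl A g g = 0 := by
          rw [jj1_bl_eq]
          exact Finset.sum_eq_zero fun i _ => by rw [h2 i, mul_zero]
        omega
      rw [hg j, h5, LinearMap.zero_apply]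
      simp
    · rw [map_zero, LinearMap.zero_apply]
    · intro a b _ _ ha hb
      rw [map_add, ha, hb, LinearMap.zero_apply, LinearMap.zero_apply, LinearMap.zero_apply,
        add_zero]
    · intro c a _ ha
      rw [map_smul, ha, LinearMap.zero_apply, LinearMap.zero_apply, smul_zero]
  unfold Co
  rw [eq_bot_iff]
  refine iSup_le fun i => sup_le ?_ ?_
  · rw [hE i, LinearMap.range_zero]
  · rw [hG i, LinearMap.range_zero]

/-- The generalized kernel is stable under commuting operators. -/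
private theorem ga8_ker (C X : Module.End ℂ M) (hX : X * C = C * X) (v : M)
    (hv : v ∈ ⨆ n, LinearMap.ker (C ^ n)) : X v ∈ ⨆ n, LinearMap.ker (C ^ n) := by
  have h1 := (Submodule.mem_iSup_of_chain (LinearMap.iterateKer C) v).1 hv
  obtain ⟨k, hk⟩ := h1
  refine Submodule.mem_iSup_of_mem k ?_
  have h2 : Commute X (C ^ k) := Commute.pow_right hX k
  have h3 : (C ^ k) v = 0 := hk
  rw [LinearMap.mem_ker, ← Module.End.mul_apply, ← h2.eq, Module.End.mul_apply, h3, map_zero]

/-- The stable range is stable under commuting operators. -/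
private theorem ga8_range (C X : Module.End ℂ M) (hX : X * C = C * X) (v : M)
    (hv : v ∈ ⨅ n, LinearMap.range (C ^ n)) : X v ∈ ⨅ n, LinearMap.range (C ^ n) := by
  rw [Submodule.mem_iInf] at hv ⊢
  intro k
  obtain ⟨w, hw⟩ := hv k
  have h2 : Commute X (C ^ k) := Commute.pow_right hX k
  refine ⟨X w, ?_⟩
  rw [← hw, ← Module.End.mul_apply, ← h2.eq, Module.End.mul_apply]

/-- The alternative in the induction step. -/
theorem GM.fitting [FiniteDimensional ℂ M] (hA : IsADE A) (h : GM A E F G) :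
    Co E G = ⊥ ∨ ∃ M₀ M₁ : Submodule ℂ M, IsCompl M₀ M₁ ∧ M₀ ≠ ⊤ ∧ Inv E G ≤ M₀ ∧
      (∀ i, ∀ v ∈ M₀, E i v ∈ M₀) ∧ (∀ i, ∀ v ∈ M₀, F i v ∈ M₀) ∧ (∀ i, ∀ v ∈ M₀, G i v ∈ M₀) ∧
      (∀ i, ∀ v ∈ M₁, E i v ∈ M₁) ∧ (∀ i, ∀ v ∈ M₁, G i v ∈ M₁) := by
  obtain ⟨C, hCt, hCc, hCk⟩ := exists_casimir (SS A E F G) (fun x hx h0 => h.trace_nondeg hA x hx h0)
  have cE : ∀ i, E i * C = C * E i := fun i => hCc (E i) fun x hx => SS_E hA h i x hx
  have cF : ∀ i, F i * C = C * F i := fun i => hCc (F i) fun x hx => SS_F hA h i x hx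
  have cG : ∀ i, G i * C = C * G i := fun i => hCc (G i) fun x hx => SS_G hA h i x hx
  by_cases hT : (⨆ n, LinearMap.ker (C ^ n)) = ⊤
  · left
    refine ga8_co_bot hA h ?_
    obtain ⟨n, hn⟩ := (LinearMap.eventually_iSup_ker_pow_eq C).exists
    have hnil : IsNilpotent C := by
      refine ⟨n, ?_⟩
      rw [← LinearMap.ker_eq_top, ← hn, hT]
    have htr : LinearMap.trace ℂ M C = 0 :=
      (LinearMap.isNilpotent_trace_of_isNilpotent hnil).eq_zero
    rw [hCt] at htr
    have hfr : Module.finrank ℂ (SS A E F G) = 0 := by exact_mod_cast htr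
    exact Submodule.finrank_eq_zero.1 hfr
  · right
    refine ⟨⨆ n, LinearMap.ker (C ^ n), ⨅ n, LinearMap.range (C ^ n),
      LinearMap.isCompl_iSup_ker_pow_iInf_range_pow C, hT, ?_,
      fun i v hv => ga8_ker C _ (cE i) v hv, fun i v hv => ga8_ker C _ (cF i) v hv,
      fun i v hv => ga8_ker C _ (cG i) v hv, fun i v hv => ga8_range C _ (cE i) v hv,
      fun i v hv => ga8_range C _ (cG i) v hv⟩
    intro v hv
    have h1 := (ga8_mem_Inv v).1 hv
    refine Submodule.mem_iSup_of_mem 1 ?_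
    rw [pow_one, LinearMap.mem_ker]
    exact hCk v fun x hx => SS_inv x hx v h1.1 (fun j => h.F_inv hA j v hv) h1.2

private theorem ga8_aux (hA : IsADE A) (n : ℕ) : ∀ (M : Type) [AddCommGroup M] [Module ℂ M]
    [FiniteDimensional ℂ M] (E F G : ι → Module.End ℂ M), GM A E F G →
    Module.finrank ℂ M ≤ n → ∀ y ∈ Inv E G, y ∈ Co E G → y = 0 := by
  induction n with
  | zero =>
    intro M _ _ _ E F G h hn y hy hC
    have h1 : Subsingleton M := Module.finrank_zero_iff.1 (Nat.le_zero.1 hn)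
    exact Subsingleton.elim _ _
  | succ n ih =>
    intro M _ _ _ E F G h hn y hy hC
    rcases h.fitting hA with h0 | ⟨M₀, M₁, hc, hne, hI, hE₀, hF₀, hG₀, hE₁, hG₁⟩
    · rw [h0, Submodule.mem_bot] at hC
      exact hC
    · have hlt : Module.finrank ℂ M₀ < Module.finrank ℂ M := Submodule.finrank_lt hne
      have hy0 : y ∈ M₀ := hI hy
      have h1 := (ga8_mem_Inv y).1 hy
      have h2 : (⟨y, hy0⟩ : M₀) ∈ Inv (fun i => (E i).restrict (hE₀ i))
          (fun i => (G i).restrict (hG₀ i)) := by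
        rw [ga8_mem_Inv]
        exact ⟨fun i => Subtype.ext (h1.1 i), fun i => Subtype.ext (h1.2 i)⟩
      have h3 := ih M₀ _ _ _ (h.sub M₀ hE₀ hF₀ hG₀) (by omega) ⟨y, hy0⟩ h2
        (Co_proj M₀ M₁ hc hE₀ hG₀ hE₁ hG₁ y hy0 hC)
      exact congrArg Subtype.val h3

theorem GM.inv_co [FiniteDimensional ℂ M] (hA : IsADE A) (h : GM A E F G) (y : M)
    (hy : y ∈ Inv E G) (hC : y ∈ Co E G) : y = 0 :=
  ga8_aux hA _ M E F G h le_rfl y hy hC

end

end WPQ.GA
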