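import Pool.Agent.WPQ.GA8

/-! [WPQ-GA9] `M = Inv M + Co M`.

`M* = Hom(M, ℂ)` with `E* f = hm 0 (E j) f = -f ∘ E j` is a `GM` (`GM.hom GM.triv h`).
`Inv(M*)` is the annihilator of `Co M`: `f ∘ E j = 0 = f ∘ G i` for all `i, j`; so
`dim Inv(M*) = dim M - dim Co M` (`Subspace.finrank_add_finrank_dualAnnihilator_eq`; the map `f ↦ f` from
`Module.Dual ℂ M = (M →ₗ[ℂ] ℂ)`).
`Co(M*)` is the annihilator of `Inv M = ⋂ ker`: the range of `f ↦ f ∘ E j` is the annihilator of `ker E j`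
(`LinearMap.range_dualMap_eq_dualAnnihilator_ker`), and the annihilator of an intersection is the sum of the annihilators
(`Subspace.dualAnnihilator_iInf_eq`); so `dim Co(M*) = dim M - dim Inv M`.
`GM.inv_co` for `M`: `dim Inv M + dim Co M ≤ dim M`, so `dim Inv M ≤ dim Inv(M*)`;
`GM.inv_co` for `M*`: `dim Inv(M*) + dim Co(M*) ≤ dim M`, so `dim Inv(M*) ≤ dim Inv M`.
Hence `dim Inv M + dim Co M = dim M` and the sum is everything. -/

namespace WPQ.GA

noncomputable section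

variable {ι : Type} [Fintype ι] [DecidableEq ι] {A : Matrix ι ι ℤ}
variable {M : Type} [AddCommGroup M] [Module ℂ M] {E F G : ι → Module.End ℂ M}

theorem ga9_hm (X : Module.End ℂ M) :
    (hm (0 : Module.End ℂ ℂ) X : Module.End ℂ (M →ₗ[ℂ] ℂ)) = -X.dualMap := by
  refine LinearMap.ext fun f => LinearMap.ext fun v => ?_
  change (0 : ℂ) - f (X v) = -(f (X v))
  rw [zero_sub]

theorem ga9_ker (X : Module.End ℂ M) :
    LinearMap.ker (hm (0 : Module.End ℂ ℂ) X : Module.End ℂ (M →ₗ[ℂ] ℂ)) =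
      (LinearMap.range X).dualAnnihilator := by
  rw [← LinearMap.ker_dualMap_eq_dualAnnihilator_range, ga9_hm]
  ext f
  rw [LinearMap.mem_ker, LinearMap.mem_ker, LinearMap.neg_apply, neg_eq_zero]

theorem ga9_range [FiniteDimensional ℂ M] (X : Module.End ℂ M) :
    LinearMap.range (hm (0 : Module.End ℂ ℂ) X : Module.End ℂ (M →ₗ[ℂ] ℂ)) =
      (LinearMap.ker X).dualAnnihilator := by
  rw [← LinearMap.range_dualMap_eq_dualAnnihilator_ker, ga9_hm]
  ext f
  rw [LinearMap.mem_range, LinearMap.mem_range]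
  constructor
  · rintro ⟨y, rfl⟩
    exact ⟨-y, by rw [map_neg, LinearMap.neg_apply]⟩
  · rintro ⟨y, rfl⟩
    exact ⟨-y, by rw [LinearMap.neg_apply, map_neg, neg_neg]⟩

theorem ga9_Inv :
    Inv (M := M →ₗ[ℂ] ℂ) (fun i => hm (0 : Module.End ℂ ℂ) (E i))
      (fun i => hm (0 : Module.End ℂ ℂ) (G i)) = (Co E G).dualAnnihilator := by
  unfold Inv Co
  rw [Submodule.dualAnnihilator_iSup_eq]
  refine iInf_congr fun i => ?_
  rw [Submodule.dualAnnihilator_sup_eq, ga9_ker, ga9_ker]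

theorem ga9_Co [FiniteDimensional ℂ M] :
    Co (M := M →ₗ[ℂ] ℂ) (fun i => hm (0 : Module.End ℂ ℂ) (E i))
      (fun i => hm (0 : Module.End ℂ ℂ) (G i)) = (Inv E G).dualAnnihilator := by
  unfold Inv Co
  rw [Subspace.dualAnnihilator_iInf_eq]
  refine iSup_congr fun i => ?_
  rw [Subspace.dualAnnihilator_inf_eq, ga9_range, ga9_range]

theorem ga9_disj {V : Type} [AddCommGroup V] [Module ℂ V] [FiniteDimensional ℂ V]
    (I C : Submodule ℂ V) (h : ∀ y ∈ I, y ∈ C → y = 0) :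
    Module.finrank ℂ (I ⊔ C : Submodule ℂ V) = Module.finrank ℂ I + Module.finrank ℂ C := by
  have h1 := Submodule.finrank_sup_add_finrank_inf_eq I C
  have h2 : I ⊓ C = ⊥ := by
    rw [eq_bot_iff]
    rintro y ⟨hy1, hy2⟩
    exact (Submodule.mem_bot ℂ).2 (h y hy1 hy2)
  rw [h2, finrank_bot, add_zero] at h1
  exact h1

theorem GM.inv_sup_co [FiniteDimensional ℂ M] (hA : IsADE A) (h : GM A E F G) :
    Inv E G ⊔ Co E G = ⊤ := by
  have h' : GM A (M := M →ₗ[ℂ] ℂ) (fun i => hm (0 : Module.End ℂ ℂ) (E i))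
      (fun i => hm (0 : Module.End ℂ ℂ) (F i)) (fun i => hm (0 : Module.End ℂ ℂ) (G i)) :=
    GM.hom (GM.triv A) h
  have h1 := ga9_disj _ _ fun y => h.inv_co hA y
  have h2 := ga9_disj _ _ fun y => h'.inv_co hA y
  rw [ga9_Inv, ga9_Co] at h2
  have h3 := Subspace.finrank_add_finrank_dualAnnihilator_eq (Co E G)
  have h4 := Subspace.finrank_add_finrank_dualAnnihilator_eq (Inv E G)
  have h5 : Module.finrank ℂ ((Co E G).dualAnnihilator ⊔ (Inv E G).dualAnnihilator :
      Submodule ℂ (Module.Dual ℂ M)) ≤ Module.finrank ℂ M := by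
    rw [← Subspace.dual_finrank_eq (K := ℂ) (V := M)]
    exact Submodule.finrank_le _
  refine Submodule.eq_top_of_finrank_eq (le_antisymm (Submodule.finrank_le _) ?_)
  rw [h1]
  have h2' : Module.finrank ℂ ((Co E G).dualAnnihilator ⊔ (Inv E G).dualAnnihilator :
      Submodule ℂ (Module.Dual ℂ M)) = Module.finrank ℂ (Co E G).dualAnnihilator +
        Module.finrank ℂ (Inv E G).dualAnnihilator := h2
  omega

end

end WPQ.GA
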