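import Pool.Agent.WPQ.JJ1

/-! [WPQ-GAD] Finite dimensional modules with operators `E j`, `F j`, `G i` (block GA, helper50). -/

namespace WPQ.GA

noncomputable section

variable {ι : Type} [Fintype ι] [DecidableEq ι]

/-- `v` is a vector of weight `g`. -/
def Wt {M : Type} [AddCommGroup M] [Module ℂ M] (G : ι → Module.End ℂ M) (g : ι → ℤ) (v : M) :
    Prop := ∀ i, G i v = (g i : ℂ) • v

/-- A module for the Lie algebra with Cartan matrix `A` (without Serre relations): raising operators
`E j`, lowering operators `F j`, charge operators `G i`; the module is spanned by weight vectors. -/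
structure GM (A : Matrix ι ι ℤ) {M : Type} [AddCommGroup M] [Module ℂ M]
    (E F G : ι → Module.End ℂ M) : Prop where
  GE : ∀ i j v, G i (E j v) = E j (G i v) + (if i = j then E j v else 0)
  GF : ∀ i j v, G i (F j v) = F j (G i v) - (if i = j then F j v else 0)
  EF : ∀ i j v, E i (F j v) = F j (E i v) + (if i = j then ∑ k, (A j k : ℂ) • G k v else 0)
  span : Submodule.span ℂ {v | ∃ g : ι → ℤ, Wt G g v} = ⊤

section
variable {M N : Type} [AddCommGroup M] [Module ℂ M] [AddCommGroup N] [Module ℂ N]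

/-- Invariants. -/
def Inv (E G : ι → Module.End ℂ M) : Submodule ℂ M :=
  ⨅ i, (LinearMap.ker (E i) ⊓ LinearMap.ker (G i))

/-- The kernel of the projection to the coinvariants. -/
def Co (E G : ι → Module.End ℂ M) : Submodule ℂ M :=
  ⨆ i, (LinearMap.range (E i) ⊔ LinearMap.range (G i))

/-- The action on `Hom(N, M)`: `f ↦ X f - f Y`. -/
def hm (X : Module.End ℂ M) (Y : Module.End ℂ N) : Module.End ℂ (N →ₗ[ℂ] M) where
  toFun f := X ∘ₗ f - f ∘ₗ Y
  map_add' f g := by
    rw [LinearMap.comp_add, LinearMap.add_comp]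
    abel
  map_smul' c f := by
    rw [LinearMap.comp_smul, LinearMap.smul_comp, RingHom.id_apply, smul_sub]

/-- The action on `N ⊗ M`. -/
def tm (X : Module.End ℂ N) (Y : Module.End ℂ M) : Module.End ℂ (TensorProduct ℂ N M) :=
  LinearMap.rTensor M X + LinearMap.lTensor N Y

/-- Iterated brackets `[X_j1,[X_j2,..,X_jk]]`, `k ≥ 1`; `b` counts the letters. -/
inductive Mon (X : ι → Module.End ℂ M) : (ι → ℤ) → Module.End ℂ M → Prop
  | one (j : ι) : Mon X (rt j) (X j)
  | step (j : ι) (b : ι → ℤ) (x : Module.End ℂ M) (hx : Mon X b x) :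
      Mon X (b + rt j) (X j * x - x * X j)

/-- The Cartan operators `H_j = ∑_k A_jk G_k`. -/
def HH (A : Matrix ι ι ℤ) (G : ι → Module.End ℂ M) (j : ι) : Module.End ℂ M :=
  ∑ k, (A j k : ℂ) • G k

/-- The span of the Cartan operators and of the iterated brackets of the `E j`, and of the `F j`. -/
def SS (A : Matrix ι ι ℤ) (E F G : ι → Module.End ℂ M) : Submodule ℂ (Module.End ℂ M) :=
  Submodule.span ℂ ({x | ∃ b, Mon E b x} ∪ {x | ∃ b, Mon F b x} ∪ Set.range (HH A G))

end

end

end WPQ.GA
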