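import Pool.Agent.WPQ.RCD

/-! [WPQ-RC1] The Dyson constant is nonzero.

Plan: `D = ∏_{r<s} (X_r - X_s)^p` has real (integer) coefficients and `PP = D^2`.
`D` is homogeneous of degree `p b (b-1)/2`, of degree `≤ p(b-1)` in every variable, and
`coeff (u0 - u) D = ± coeff u D` (global sign `(-1)^(p b (b-1)/2)`), where `u0 = p(b-1)` constant:
substitute `X_r ↦ 1/X_r`, i.e. for every factor `coeff (u) ((X_r - X_s)^p)` is supported on
`{i e_r + (p-i) e_s}` with coefficient `(-1)^(p-i) choose p i`, symmetric up to `(-1)^p` under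
`i ↔ p - i`.  A convenient way: the map `R_N : f ↦ ∏ X^N · f(1/X)` on polynomials of degree `≤ N` in
each variable is multiplicative (`R_{N+N'} (f g) = R_N f R_{N'} g`) and for one factor
`R_{p(e_r+e_s)} ((X_r - X_s)^p) = (-1)^p (X_r - X_s)^p`.
So `Cst = ∑_{u+v=u0} coeff u D coeff v D = ± ∑_u (coeff u D)^2`, a sum of squares of integers, not
all zero since `D ≠ 0`. (Work over `ℤ` and map to `ℂ`.) -/

namespace WPQ.RC

open MvPolynomial

noncomputable section

/-- Exponents at most `N`, symmetric up to the sign `ε` under `u ↦ N - u`. -/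
private def rc1_P {σ : Type} (N : σ →₀ ℕ) (ε : ℤ) (f : MvPolynomial σ ℤ) : Prop :=
  (∀ u, coeff u f ≠ 0 → u ≤ N) ∧ ∀ u v, u + v = N → coeff v f = ε * coeff u f

private theorem rc1_one {σ : Type} : rc1_P (0 : σ →₀ ℕ) 1 1 := by
  classical
  refine ⟨fun u hu => ?_, fun u v h => ?_⟩
  · rw [coeff_one] at hu
    by_cases h0 : 0 = u
    · rw [← h0]
    · rw [if_neg h0] at hu
      exact absurd rfl hu
  · have hu : u = 0 := by
      rw [← le_zero_iff, ← h]
      exact le_self_add
    have hv : v = 0 := by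
      rw [← le_zero_iff, ← h]
      exact le_add_self
    rw [hu, hv, one_mul]

private theorem rc1_mul {σ : Type} {N N' : σ →₀ ℕ} {ε ε' : ℤ} {f g : MvPolynomial σ ℤ}
    (hf : rc1_P N ε f) (hg : rc1_P N' ε' g) : rc1_P (N + N') (ε * ε') (f * g) := by
  classical
  refine ⟨fun u hu => ?_, fun u v h => ?_⟩
  · rw [coeff_mul] at hu
    obtain ⟨x, hx, hne⟩ := Finset.exists_ne_zero_of_sum_ne_zero hu
    rw [← Finset.HasAntidiagonal.mem_antidiagonal.1 hx]
    exact add_le_add (hf.1 _ (left_ne_zero_of_mul hne)) (hg.1 _ (right_ne_zero_of_mul hne))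
  · have hfil : ∀ w : σ →₀ ℕ, coeff w (f * g) = ∑ x ∈ (Finset.HasAntidiagonal.antidiagonal w).filter
        (fun x => x.1 ≤ N ∧ x.2 ≤ N'), coeff x.1 f * coeff x.2 g := by
      intro w
      rw [coeff_mul, Finset.sum_filter_of_ne]
      intro x _ hne
      exact ⟨hf.1 _ (left_ne_zero_of_mul hne), hg.1 _ (right_ne_zero_of_mul hne)⟩
    rw [hfil v, hfil u, Finset.mul_sum]
    have hsub : ∀ w w' : σ →₀ ℕ, w + w' = N + N' → ∀ x ∈ (Finset.HasAntidiagonal.antidiagonal w).filter
        (fun x => x.1 ≤ N ∧ x.2 ≤ N'), (N - x.1, N' - x.2) ∈ (Finset.HasAntidiagonal.antidiagonal w').filter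
        (fun x => x.1 ≤ N ∧ x.2 ≤ N') := by
      intro w w' hw x hx
      rw [Finset.mem_filter, Finset.HasAntidiagonal.mem_antidiagonal] at hx ⊢
      obtain ⟨h1, h2, h3⟩ := hx
      refine ⟨?_, tsub_le_self, tsub_le_self⟩
      ext t
      have e1 := DFunLike.congr_fun hw t
      have e2 := DFunLike.congr_fun h1 t
      have e3 := h2 t
      have e4 := h3 t
      simp only [Finsupp.add_apply, Finsupp.tsub_apply] at e1 e2 ⊢
      omega
    refine Finset.sum_nbij' (fun x => (N - x.1, N' - x.2)) (fun x => (N - x.1, N' - x.2))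
      (hsub v u (by rw [add_comm, h])) (hsub u v h) ?_ ?_ ?_
    · intro x hx
      rw [Finset.mem_filter] at hx
      exact Prod.ext (tsub_tsub_cancel_of_le hx.2.1) (tsub_tsub_cancel_of_le hx.2.2)
    · intro x hx
      rw [Finset.mem_filter] at hx
      exact Prod.ext (tsub_tsub_cancel_of_le hx.2.1) (tsub_tsub_cancel_of_le hx.2.2)
    · intro x hx
      rw [Finset.mem_filter] at hx
      rw [hf.2 (N - x.1) x.1 (tsub_add_cancel_of_le hx.2.1),
        hg.2 (N' - x.2) x.2 (tsub_add_cancel_of_le hx.2.2)]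
      ring

private theorem rc1_pow {σ : Type} {N : σ →₀ ℕ} {ε : ℤ} {f : MvPolynomial σ ℤ}
    (hf : rc1_P N ε f) (n : ℕ) : rc1_P (n • N) (ε ^ n) (f ^ n) := by
  induction n with
  | zero => rw [zero_smul, pow_zero, pow_zero]; exact rc1_one
  | succ n ih => rw [succ_nsmul, pow_succ, pow_succ]; exact rc1_mul ih hf

private theorem rc1_prod {σ τ : Type} (S : Finset τ) (N : τ → σ →₀ ℕ) (ε : τ → ℤ)
    (f : τ → MvPolynomial σ ℤ) (h : ∀ t ∈ S, rc1_P (N t) (ε t) (f t)) :
    rc1_P (∑ t ∈ S, N t) (∏ t ∈ S, ε t) (∏ t ∈ S, f t) := by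
  classical
  induction S using Finset.induction_on with
  | empty => rw [Finset.sum_empty, Finset.prod_empty, Finset.prod_empty]; exact rc1_one
  | insert a S ha ih =>
    rw [Finset.sum_insert ha, Finset.prod_insert ha, Finset.prod_insert ha]
    exact rc1_mul (h a (Finset.mem_insert_self a S))
      (ih fun t ht => h t (Finset.mem_insert_of_mem ht))

private theorem rc1_base {σ : Type} (r s : σ) :
    rc1_P (Finsupp.single r 1 + Finsupp.single s 1) (-1) (X r - X s : MvPolynomial σ ℤ) := by
  classical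
  refine ⟨fun u hu => ?_, fun u v h => ?_⟩
  · rw [coeff_sub, coeff_X, coeff_X] at hu
    by_cases h1 : Finsupp.single r 1 = u
    · rw [← h1]
      exact le_self_add
    · by_cases h2 : Finsupp.single s 1 = u
      · rw [← h2]
        exact le_add_self
      · rw [if_neg h1, if_neg h2, sub_zero] at hu
        exact absurd rfl hu
  · rw [coeff_sub, coeff_sub, coeff_X, coeff_X, coeff_X, coeff_X]
    have h1 : (Finsupp.single r 1 = v) ↔ (Finsupp.single s 1 = u) := by
      constructor
      · intro hv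
        rw [← hv, add_comm] at h
        exact (add_left_cancel h).symm
      · intro hu
        rw [← hu, add_comm (Finsupp.single r 1)] at h
        exact (add_left_cancel h).symm
    have h2 : (Finsupp.single s 1 = v) ↔ (Finsupp.single r 1 = u) := by
      constructor
      · intro hv
        rw [← hv] at h
        exact (add_right_cancel h).symm
      · intro hu
        rw [← hu] at h
        exact (add_left_cancel h).symm
    by_cases hr : Finsupp.single r 1 = u
    · by_cases hs : Finsupp.single s 1 = u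
      · rw [if_pos (h1.2 hs), if_pos (h2.2 hr), if_pos hr, if_pos hs]
        ring
      · rw [if_neg (fun h' => hs (h1.1 h')), if_pos (h2.2 hr), if_pos hr, if_neg hs]
        ring
    · by_cases hs : Finsupp.single s 1 = u
      · rw [if_pos (h1.2 hs), if_neg (fun h' => hr (h2.1 h')), if_neg hr, if_pos hs]
        ring
      · rw [if_neg (fun h' => hs (h1.1 h')), if_neg (fun h' => hr (h2.1 h')), if_neg hr,
          if_neg hs]
        ring

/-- The square root of `PP` over the integers. -/
private def rc1_D (b p : ℕ) : MvPolynomial (Fin b) ℤ :=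
  ∏ r : Fin b, ∏ s ∈ Finset.univ.filter (fun s => r < s), (X r - X s) ^ p

private theorem rc1_D_ne (b p : ℕ) : rc1_D b p ≠ 0 := by
  rw [rc1_D, Finset.prod_ne_zero_iff]
  intro r _
  rw [Finset.prod_ne_zero_iff]
  intro s hs
  rw [Finset.mem_filter] at hs
  refine pow_ne_zero _ (sub_ne_zero.2 fun h => ?_)
  exact hs.2.ne (X_injective h)

private theorem rc1_N (b p : ℕ) :
    ∑ r : Fin b, ∑ s ∈ Finset.univ.filter (fun s => r < s),
      p • (Finsupp.single r 1 + Finsupp.single s 1)
      = Finsupp.equivFunOnFinite.symm fun _ : Fin b => p * (b - 1) := by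
  classical
  ext t
  have e1 : (Finsupp.equivFunOnFinite.symm fun _ : Fin b => p * (b - 1)) t = p * (b - 1) := rfl
  rw [e1, Finsupp.finsetSum_apply]
  simp only [Finsupp.finsetSum_apply, Finsupp.smul_apply, Finsupp.add_apply,
    Finsupp.single_apply, smul_eq_mul, mul_add, Finset.sum_add_distrib]
  have e2 : ∑ r : Fin b, ∑ s ∈ Finset.univ.filter (fun s => r < s), p * (if r = t then 1 else 0)
      = p * (Finset.univ.filter (fun s => t < s)).card := by
    rw [Finset.sum_eq_single t]
    · rw [if_pos rfl, Finset.sum_const, smul_eq_mul, mul_one, mul_comm]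
    · intro r _ hr
      rw [if_neg hr, mul_zero, Finset.sum_const_zero]
    · intro h
      exact absurd (Finset.mem_univ t) h
  have e3 : ∑ r : Fin b, ∑ s ∈ Finset.univ.filter (fun s => r < s), p * (if s = t then 1 else 0)
      = p * (Finset.univ.filter (fun r => r < t)).card := by
    have e4 : ∀ r : Fin b, ∑ s ∈ Finset.univ.filter (fun s => r < s), p * (if s = t then 1 else 0)
        = if r < t then p else 0 := by
      intro r
      rw [Finset.sum_filter, Finset.sum_eq_single t]
      · by_cases h : r < t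
        · rw [if_pos h, if_pos h, if_pos rfl, mul_one]
        · rw [if_neg h, if_neg h]
      · intro s _ hs
        rw [if_neg hs, mul_zero, ite_self]
      · intro h
        exact absurd (Finset.mem_univ t) h
    simp only [e4]
    rw [← Finset.sum_filter, Finset.sum_const, smul_eq_mul, mul_comm]
  have e5 : (Finset.univ.filter (fun s => t < s)).card = b - 1 - t := by
    rw [Finset.filter_lt_eq_Ioi, Fin.card_Ioi]
  have e6 : (Finset.univ.filter (fun r => r < t)).card = t := by
    rw [Finset.filter_gt_eq_Iio, Fin.card_Iio]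
  rw [e2, e3, ← mul_add, e5, e6]
  congr 1
  omega

private theorem rc1_PP (b p : ℕ) :
    PP b p = MvPolynomial.map (Int.castRingHom ℂ) (rc1_D b p * rc1_D b p) := by
  rw [PP, rc1_D, ← Finset.prod_mul_distrib, map_prod]
  refine Finset.prod_congr rfl fun r _ => ?_
  rw [← Finset.prod_mul_distrib, map_prod]
  refine Finset.prod_congr rfl fun s _ => ?_
  rw [← pow_add, map_pow, map_sub, map_X, map_X, two_mul]

theorem Cst_ne_zero (b p : ℕ) : Cst b p ≠ 0 := by
  classical
  have hP : rc1_P (Finsupp.equivFunOnFinite.symm fun _ : Fin b => p * (b - 1))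
      (∏ r : Fin b, ∏ s ∈ Finset.univ.filter (fun s => r < s), (-1) ^ p) (rc1_D b p) := by
    rw [← rc1_N b p, rc1_D]
    exact rc1_prod _ _ _ _ fun r _ => rc1_prod _ _ _ _ fun s _ => rc1_pow (rc1_base r s) p
  obtain ⟨N, hN⟩ : ∃ N, N = (Finsupp.equivFunOnFinite.symm fun _ : Fin b => p * (b - 1)) :=
    ⟨_, rfl⟩
  obtain ⟨ε, hε⟩ : ∃ ε : ℤ, ε = ∏ r : Fin b, ∏ s ∈ Finset.univ.filter (fun s => r < s),
    (-1) ^ p := ⟨_, rfl⟩
  have hε0 : ε ≠ 0 := by
    rw [hε, Finset.prod_ne_zero_iff]
    intro r _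
    rw [Finset.prod_ne_zero_iff]
    intro s _
    exact pow_ne_zero _ (by norm_num)
  rw [← hN, ← hε] at hP
  rw [Cst, rc1_PP, coeff_map, ← hN, eq_intCast, Int.cast_ne_zero, coeff_mul]
  have h1 : ∑ x ∈ Finset.HasAntidiagonal.antidiagonal N, coeff x.1 (rc1_D b p) * coeff x.2 (rc1_D b p)
      = ε * ∑ x ∈ Finset.HasAntidiagonal.antidiagonal N, coeff x.1 (rc1_D b p) ^ 2 := by
    rw [Finset.mul_sum]
    refine Finset.sum_congr rfl fun x hx => ?_
    rw [hP.2 x.1 x.2 (Finset.HasAntidiagonal.mem_antidiagonal.1 hx)]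
    ring
  rw [h1]
  refine mul_ne_zero hε0 fun h2 => ?_
  rw [Finset.sum_eq_zero_iff_of_nonneg (fun x _ => sq_nonneg _)] at h2
  refine rc1_D_ne b p ?_
  ext u
  rw [coeff_zero]
  by_contra hu
  have h3 := h2 (u, N - u) (Finset.HasAntidiagonal.mem_antidiagonal.2 (add_tsub_cancel_of_le (hP.1 u hu)))
  exact hu (pow_eq_zero_iff (two_ne_zero)|>.1 h3)

end

end WPQ.RC
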