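import Pool.Agent.WPQ.RF1
import Pool.Agent.WPQ.RC1
import Pool.Agent.WPQ.FL7

/-! [WPQ-RF2] The reflection formula.

Plan.  (1) For integers `c : ι → ℤ` with `c j = p n + p - 1`, `n ≥ 0`, put `κ i = c i - n p A i j`
(`κ j = -p n + p - 1`, as `A j j = 2`; and `n p A i j = A i j (c j - (p-1))`).  `ref_core` for `f` and for
`f = 1` (`EN_one_zero` gives its hypothesis; `ev c (EN b 1) = MM b p (c j)` by `ev_EN_one` with
`κ = -(p b)`): `Cst (n+b) ev κ f = S Cst n ev c (EN b f)`, `Cst (n+b) = S Cst n MM b p (c j)`; since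
`S Cst n ≠ 0` (`RC.Cst_ne_zero`), `ev c (EN b f) = MM b p (c j) ev κ f`.
(2) Both sides of the formula are polynomial functions of `c : ι → ℂ` (`RC.MM_poly`; `ev c f` is the
evaluation of a polynomial in `c`).  A polynomial in finitely many variables vanishing on
`∏ S_i` with infinite sets `S_i` (`S_i = ℤ` for `i ≠ j`, `S_j = {p n + p - 1}`) is zero
(`MvPolynomial.funext_set` or `MvPolynomial.funext`-like induction, or Combinatorial Nullstellensatz
`MvPolynomial.eq_zero_of_eval_zero_at_prod_finset`). -/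

namespace WPQ

open MvPolynomial AF

noncomputable section

variable {ι : Type} [Fintype ι] [DecidableEq ι] {A : Matrix ι ι ℤ} {p : ℕ}

/-- `ev c G` as a polynomial in `c` -/
def rf2_pe (G : Fock ι) : MvPolynomial ι ℂ :=
  aeval (fun x : ι × ℕ => -(C (((x.2 : ℂ) + 1)⁻¹) * X x.1 : MvPolynomial ι ℂ)) G

theorem rf2_comp {σ τ : Type} (c : τ → ℂ) (g : σ → MvPolynomial τ ℂ) (P : MvPolynomial σ ℂ) :
    aeval c (aeval g P) = aeval (fun i => aeval c (g i)) P := by
  have h : (aeval c : MvPolynomial τ ℂ →ₐ[ℂ] ℂ).comp (aeval g) =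
      aeval (fun i => aeval c (g i)) := by
    refine MvPolynomial.algHom_ext fun i => ?_
    rw [AlgHom.comp_apply, aeval_X, aeval_X]
  exact congrArg (fun φ : MvPolynomial σ ℂ →ₐ[ℂ] ℂ => φ P) h

theorem rf2_pe_eval (c : ι → ℂ) (G : Fock ι) : aeval c (rf2_pe G) = ev c G := by
  unfold rf2_pe ev
  rw [rf2_comp]
  congr 1
  refine MvPolynomial.algHom_ext fun x => ?_
  rw [aeval_X, aeval_X, map_neg, map_mul, aeval_X, aeval_C, neg_div, div_eq_mul_inv]
  congr 1
  exact mul_comm _ _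

theorem rf2_int (hA : IsADE A) (hp : 1 ≤ p) (j : ι) (b : ℕ) (g : ι → ℤ)
    (hg : pr A j g = -(b : ℤ)) (f : Fock ι) (d : ℕ) (hf : FH f d)
    (h : EN A p j (-(p * b : ℤ)) (b + 1) f = 0) (n : ℕ) (c : ι → ℤ)
    (hc : c j = (p : ℤ) * n + p - 1) :
    ev (fun i => (c i : ℂ)) (EN A p j (-(p * b : ℤ)) b f) =
      RC.MM b p (c j) * ev (fun i => (c i : ℂ) - A i j * ((c j : ℂ) - ((p : ℂ) - 1))) f := by
  obtain ⟨ε⟩ := cocycle_exists A hA p
  obtain ⟨S, hS, hcore⟩ := ref_core hA hp ε j n b (fun i => c i - (n : ℤ) * p * A i j)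
    (by
      show c j - (n : ℤ) * p * A j j = -(p * n : ℤ) + p - 1
      rw [hc, hA.diag]
      ring) g hg
  have e1 : (fun i => (((c i - (n : ℤ) * p * A i j : ℤ) : ℂ) + (n : ℂ) * p * A i j)) =
      fun i => (c i : ℂ) := by
    funext i
    push_cast
    ring
  have e2 : (fun i => ((c i - (n : ℤ) * p * A i j : ℤ) : ℂ)) =
      fun i => (c i : ℂ) - A i j * ((c j : ℂ) - ((p : ℂ) - 1)) := by
    funext i
    rw [hc]
    push_cast
    ring
  have h1 := hcore f d hf h
  have h2 := hcore 1 0 (isWeightedHomogeneous_one _ _) (EN_one_zero A hA p j _ (b + 1) (by omega)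
    (by
      push_cast
      ring_nf
      exact le_refl _))
  rw [e1, e2] at h1 h2
  have e3 : (-1 - (-(p * b : ℤ))) = (p : ℤ) * b - 1 := by ring
  rw [map_one, mul_one, ev_EN_one A hA, e3] at h2
  have e4 : RC.MN b p ((p : ℤ) * b - 1) (c j : ℂ) = RC.MM b p (c j) := rfl
  rw [e4] at h2
  rw [h2] at h1
  have h3 : S * RC.Cst n p ≠ 0 := mul_ne_zero hS (RC.Cst_ne_zero n p)
  apply mul_left_cancel₀ h3
  rw [← h1]
  ring

theorem reflection (hA : IsADE A) (hp : 1 ≤ p) (j : ι) (b : ℕ) (g : ι → ℤ)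
    (hg : pr A j g = -(b : ℤ)) (f : Fock ι) (d : ℕ) (hf : FH f d)
    (h : EN A p j (-(p * b : ℤ)) (b + 1) f = 0) (c : ι → ℂ) :
    ev c (EN A p j (-(p * b : ℤ)) b f) =
      RC.MM b p (c j) * ev (fun i => c i - A i j * (c j - ((p : ℂ) - 1))) f := by
  obtain ⟨Q, -, hQ⟩ := RC.MM_poly b p hp
  set L : MvPolynomial ι ℂ := rf2_pe (EN A p j (-(p * b : ℤ)) b f) with hL
  set R : MvPolynomial ι ℂ := Polynomial.aeval (X j : MvPolynomial ι ℂ) Q *
    aeval (fun i => (X i - C ((A i j : ℤ) : ℂ) * (X j - C ((p : ℂ) - 1)) : MvPolynomial ι ℂ))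
      (rf2_pe f) with hR
  have hLc : ∀ c : ι → ℂ, aeval c L = ev c (EN A p j (-(p * b : ℤ)) b f) := fun c =>
    rf2_pe_eval c _
  have hRc : ∀ c : ι → ℂ, aeval c R =
      RC.MM b p (c j) * ev (fun i => c i - A i j * (c j - ((p : ℂ) - 1))) f := by
    intro c
    rw [hR, map_mul, rf2_comp, ← Polynomial.aeval_algHom_apply, aeval_X, hQ]
    have e1 : (fun i => aeval c (X i - C ((A i j : ℤ) : ℂ) * (X j - C ((p : ℂ) - 1)) :
        MvPolynomial ι ℂ)) = fun i => c i - A i j * (c j - ((p : ℂ) - 1)) := by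
      funext i
      rw [map_sub, map_mul, map_sub, aeval_X, aeval_X, aeval_C, aeval_C]
      rfl
    rw [e1, rf2_pe_eval]
    rfl
  rw [← hLc, ← hRc]
  congr 1
  refine MvPolynomial.funext_set
    (fun i => if i = j then Set.range (fun n : ℕ => (p : ℂ) * n + p - 1)
      else Set.range (fun n : ℤ => (n : ℂ))) ?_ ?_
  · intro i
    split_ifs
    · refine Set.infinite_range_of_injective ?_
      intro m n hmn
      have h1 : (p : ℂ) ≠ 0 := by
        have : p ≠ 0 := by omega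
        exact_mod_cast this
      have h2 : (p : ℂ) * m = p * n := by linear_combination hmn
      exact_mod_cast mul_left_cancel₀ h1 h2
    · exact Set.infinite_range_of_injective Int.cast_injective
  · intro x hx
    have hx' : ∀ i, ∃ m : ℤ, (m : ℂ) = x i ∧ (i = j → ∃ n : ℕ, m = (p : ℤ) * n + p - 1) := by
      intro i
      have h1 := hx i (Set.mem_univ i)
      simp only at h1
      by_cases hij : i = j
      · rw [if_pos hij] at h1
        obtain ⟨n, hn⟩ := h1
        refine ⟨(p : ℤ) * n + p - 1, ?_, fun _ => ⟨n, rfl⟩⟩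
        rw [← hn]
        push_cast
        rfl
      · rw [if_neg hij] at h1
        obtain ⟨n, hn⟩ := h1
        exact ⟨n, hn, fun h => absurd h hij⟩
    choose m hm hmj using hx'
    obtain ⟨n, hn⟩ := hmj j rfl
    have h1 := rf2_int hA hp j b g hg f d hf h n m hn
    have h2 : (fun i => (m i : ℂ)) = x := funext hm
    have e1 : eval x L = aeval x L := rfl
    have e2 : eval x R = aeval x R := rfl
    rw [e1, e2, hLc, hRc, ← h2]
    exact h1

end

end WPQ
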