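import Pool.Agent.WPQ.WB4

/-! [WPQ-WB5] The weight bound.

Plan.  (1) `nz_bound`: strong induction on `∑ c`.  Put `γ = c - μ`.  If some
`m = ∑ j, A i j * γ j > 0`, `nz_step` gives `NZ (c - m e_i)`, and `qf A (γ - m e_i) = qf A γ`
(`A_ii = 2`).  Otherwise `(α_i, γ) ≤ 0` for all `i`; `qf A μ = qf A (c - γ) = qf A γ - 2 (c, γ) + qf A c
≥ qf A γ`, because `(c, γ) = ∑ c_i (α_i, γ) ≤ 0` and `qf A c ≥ 0`.
(2) `ev`: the map `Fr ι → V`, `single w 1 ↦ act E v w`, kills `II` (Serre hypotheses; `hv`), hence if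
`qf A μ < qf A (count w - μ)` then `single w 1 ∈ II` (else `NZ`), so `act E v w = 0`. -/

namespace WPQ.WB

open WPQ

noncomputable section

variable {ι : Type} [Fintype ι] [DecidableEq ι]

omit [DecidableEq ι] in
theorem wb5_qf_sub (A : Matrix ι ι ℤ) (hs : ∀ i j, A i j = A j i) (x y : ι → ℤ) :
    qf A (fun j => x j - y j) = qf A x - 2 * ∑ i, y i * ∑ j, A i j * x j + qf A y := by
  unfold qf
  have h1 : ∑ i, ∑ j, x i * A i j * y j = ∑ i, y i * ∑ j, A i j * x j := by
    rw [Finset.sum_comm]
    refine Finset.sum_congr rfl fun i _ => ?_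
    rw [Finset.mul_sum]
    refine Finset.sum_congr rfl fun j _ => ?_
    rw [hs j i]
    ring
  have h2 : ∑ i, ∑ j, y i * A i j * x j = ∑ i, y i * ∑ j, A i j * x j := by
    refine Finset.sum_congr rfl fun i _ => ?_
    rw [Finset.mul_sum]
    exact Finset.sum_congr rfl fun j _ => by ring
  have h3 : ∑ i, ∑ j, (x i - y i) * A i j * (x j - y j) =
      ∑ i, ∑ j, (x i * A i j * x j - x i * A i j * y j - y i * A i j * x j + y i * A i j * y j) :=
    Finset.sum_congr rfl fun i _ => Finset.sum_congr rfl fun j _ => by ring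
  rw [h3]
  simp only [Finset.sum_add_distrib, Finset.sum_sub_distrib]
  rw [h1, h2]
  ring

omit [DecidableEq ι] in
theorem wb5_qf_nonneg (A : Matrix ι ι ℤ) (hA : IsADE A) (c : ι → ℤ) : 0 ≤ qf A c := by
  by_cases h : c = 0
  · subst h
    unfold qf
    simp
  · exact (hA.pos c h).le

theorem nz_bound (A : Matrix ι ι ℤ) (hA : IsADE A) (μ : ι → ℤ)
    (hμ : ∀ i, 0 ≤ ∑ j, A i j * μ j) (c : ι → ℕ) (hc : NZ A μ c) :
    qf A (fun j => (c j : ℤ) - μ j) ≤ qf A μ := by
  induction hn : ∑ i, c i using Nat.strong_induction_on generalizing c with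
  | _ n ih =>
    by_cases h : ∃ i, 0 < ∑ j, A i j * ((c j : ℤ) - μ j)
    · obtain ⟨i, hi⟩ := h
      obtain ⟨m, hm⟩ := Int.eq_ofNat_of_zero_le hi.le
      have hm0 : 0 < m := by
        rw [hm] at hi
        exact_mod_cast hi
      obtain ⟨h1, h2⟩ := nz_step A hA μ hμ c hc i m hm0 hm
      have hlt : ∑ j, (if j = i then c j - m else c j) < n := by
        rw [← hn]
        refine Finset.sum_lt_sum (fun j _ => ?_) ⟨i, Finset.mem_univ _, ?_⟩
        · split_ifs <;> omega
        · rw [if_pos rfl]
          omega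
      have h3 := ih _ hlt _ h2 rfl
      have h4 : (fun j => (((if j = i then c j - m else c j : ℕ)) : ℤ) - μ j) =
          fun j => ((c j : ℤ) - μ j) - (if j = i then (m : ℤ) else 0) := by
        funext j
        by_cases hj : j = i
        · rw [if_pos hj, if_pos hj, hj]
          omega
        · rw [if_neg hj, if_neg hj]
          ring
      have h5 : ∑ k, (if k = i then (m : ℤ) else 0) * ∑ j, A k j * ((c j : ℤ) - μ j) = m * m := by
        rw [Finset.sum_eq_single i (fun k _ hk => by rw [if_neg hk, zero_mul])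
          (fun h => absurd (Finset.mem_univ i) h), if_pos rfl, hm]
      have h6 : qf A (fun j => if j = i then (m : ℤ) else 0) = 2 * (m * m) := by
        have e1 : qf A (fun j => if j = i then (m : ℤ) else 0) =
            ∑ k, ∑ l, (if k = i then (m : ℤ) else 0) * A k l * (if l = i then (m : ℤ) else 0) := rfl
        have e2 : ∀ k, k ≠ i →
            ∑ l, (if k = i then (m : ℤ) else 0) * A k l * (if l = i then (m : ℤ) else 0) = 0 := by
          intro k hk
          refine Finset.sum_eq_zero fun l _ => ?_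
          rw [if_neg hk, zero_mul, zero_mul]
        have e3 : ∀ l, l ≠ i → (if i = i then (m : ℤ) else 0) * A i l * (if l = i then (m : ℤ) else 0) = 0 := by
          intro l hl
          rw [if_neg hl, mul_zero]
        rw [e1, Finset.sum_eq_single i (fun k _ hk => e2 k hk) (fun h => absurd (Finset.mem_univ i) h),
          Finset.sum_eq_single i (fun l _ hl => e3 l hl) (fun h => absurd (Finset.mem_univ i) h),
          if_pos rfl, hA.diag]
        ring
      rw [h4, wb5_qf_sub A hA.symm, h5, h6] at h3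
      linarith
    · push Not at h
      have h1 := wb5_qf_sub A hA.symm (fun j => (c j : ℤ) - μ j) (fun j => (c j : ℤ))
      have h2 : (fun j => ((c j : ℤ) - μ j) - (c j : ℤ)) = fun j => - μ j := by
        funext j
        ring
      have h3 : qf A (fun j => - μ j) = qf A μ := by
        unfold qf
        exact Finset.sum_congr rfl fun i _ => Finset.sum_congr rfl fun j _ => by ring
      rw [h2, h3] at h1
      have h4 : ∑ i, (c i : ℤ) * ∑ j, A i j * ((c j : ℤ) - μ j) ≤ 0 :=
        Finset.sum_nonpos fun i _ => mul_nonpos_of_nonneg_of_nonpos (Int.natCast_nonneg _) (h i)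
      have h5 := wb5_qf_nonneg A hA (fun j => (c j : ℤ))
      linarith

section

variable {V : Type} [AddCommGroup V] [Module ℂ V]

/-- evaluation of the words on the vector `v` -/
def wb5_ev (E : ι → V →ₗ[ℂ] V) (v : V) : Fr ι →ₗ[ℂ] V := Finsupp.linearCombination ℂ (act E v)

omit [Fintype ι] [DecidableEq ι] in
theorem wb5_ev_single (E : ι → V →ₗ[ℂ] V) (v : V) (w : List ι) :
    wb5_ev E v (Finsupp.single w 1) = act E v w := by
  unfold wb5_ev
  rw [Finsupp.linearCombination_single, one_smul]

omit [Fintype ι] [DecidableEq ι] in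
theorem wb5_ev_eE (E : ι → V →ₗ[ℂ] V) (v : V) (i : ι) (x : Fr ι) :
    wb5_ev E v (eE i x) = E i (wb5_ev E v x) := by
  induction x using Finsupp.induction_linear with
  | zero => rw [map_zero, map_zero, map_zero]
  | add x y hx hy => rw [map_add, map_add, map_add, map_add, hx, hy]
  | single w c =>
    have h1 : eE i (Finsupp.single w c) = Finsupp.single (i :: w) c := by
      unfold eE
      rw [Finsupp.lmapDomain_apply, Finsupp.mapDomain_single]
    unfold wb5_ev
    rw [h1, Finsupp.linearCombination_single, Finsupp.linearCombination_single, map_smul]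
    rfl

omit [Fintype ι] [DecidableEq ι] in
theorem wb5_ev_eW (E : ι → V →ₗ[ℂ] V) (v : V) (u : List ι) (x : Fr ι) (hx : wb5_ev E v x = 0) :
    wb5_ev E v (eW u x) = 0 := by
  induction u with
  | nil => exact hx
  | cons a u ih =>
    have h1 : eW (a :: u) x = eE a (eW u x) := rfl
    rw [h1, wb5_ev_eE, ih, map_zero]

omit [Fintype ι] [DecidableEq ι] in
theorem wb5_act_replicate (E : ι → V →ₗ[ℂ] V) (v : V) (i : ι) (n : ℕ) :
    act E v (List.replicate n i) = (E i ^ n) v := by
  induction n with
  | zero => rfl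
  | succ n ih =>
    rw [List.replicate_succ, pow_succ']
    show E i (act E v (List.replicate n i)) = E i ((E i ^ n) v)
    rw [ih]

end

theorem weight_bound (A : Matrix ι ι ℤ) (hA : IsADE A) (μ : ι → ℤ)
    (hμ : ∀ i, 0 ≤ ∑ j, A i j * μ j) {V : Type} [AddCommGroup V] [Module ℂ V]
    (E : ι → V →ₗ[ℂ] V)
    (hcomm : ∀ i j, A i j = 0 → E i ∘ₗ E j = E j ∘ₗ E i)
    (hserre : ∀ i j, A i j = -1 →
      E i ∘ₗ E i ∘ₗ E j - (2 : ℂ) • (E i ∘ₗ E j ∘ₗ E i) + E j ∘ₗ E i ∘ₗ E i = 0)
    (v : V) (hv : ∀ i, (E i ^ (mu A μ i + 1)) v = 0) (w : List ι)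
    (hw : qf A μ < qf A (fun j => (w.count j : ℤ) - μ j)) : act E v w = 0 := by
  have hII : II A μ ≤ LinearMap.ker (wb5_ev E v) := by
    unfold II
    rw [Submodule.span_le]
    rintro x (⟨u, i, j, y, -, rfl⟩ | ⟨u, i, rfl⟩)
    · rw [SetLike.mem_coe, LinearMap.mem_ker]
      apply wb5_ev_eW
      unfold serre
      split_ifs with h1 h2
      · rw [LinearMap.sub_apply, LinearMap.comp_apply, LinearMap.comp_apply, map_sub, wb5_ev_eE,
          wb5_ev_eE, wb5_ev_eE, wb5_ev_eE]
        have h3 := LinearMap.congr_fun (hcomm i j h1) (wb5_ev E v (Finsupp.single y 1))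
        rw [LinearMap.comp_apply, LinearMap.comp_apply] at h3
        rw [h3, sub_self]
      · simp only [LinearMap.add_apply, LinearMap.sub_apply, LinearMap.smul_apply,
          LinearMap.comp_apply, map_add, map_sub, map_smul, wb5_ev_eE]
        have h3 := LinearMap.congr_fun (hserre i j h2) (wb5_ev E v (Finsupp.single y 1))
        simpa only [LinearMap.add_apply, LinearMap.sub_apply, LinearMap.smul_apply,
          LinearMap.comp_apply, LinearMap.zero_apply] using h3
      · rw [LinearMap.zero_apply, map_zero]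
    · rw [SetLike.mem_coe, LinearMap.mem_ker]
      apply wb5_ev_eW
      rw [wb5_ev_single, wb5_act_replicate]
      exact hv i
  have hmem : Finsupp.single w (1 : ℂ) ∈ II A μ := by
    by_contra hcon
    have hNZ : NZ A μ (fun i => w.count i) :=
      ⟨Finsupp.single w 1, Submodule.subset_span ⟨w, fun i => rfl, rfl⟩, hcon⟩
    have h1 := nz_bound A hA μ hμ _ hNZ
    exact absurd h1 (not_le.2 hw)
  have h1 := hII hmem
  rw [LinearMap.mem_ker, wb5_ev_single] at h1
  exact h1

end

end WPQ.WB
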