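import Pool.Agent.WPQ.JJ1
import Pool.Agent.WPQ.RF2
import Pool.Agent.WPQ.WB5

/-! [WPQ-JJ2] One reflection step of the chain.

Plan.  `Ew_zero`: `WB.weight_bound` with `E i = Ej ε zero i`, `v = single (-μ) 1` (`comm_Ej`,
`serre_Ej`; `E_i^(μ_i+1) v = 0` by `Ej_pow_single`, `EN_one_zero` with `κ = -p μ_i`; for `i = j`:
`A i i = 2`, nothing to show in `hcomm`), `WB.act = Ew`, `WB.qf = bl`.
`chain_step`: `c = pt w g'`, `g' = g + b • rt j`.  `E_j^(b+1) (single g f)` is `Ew` of
`replicate (b+1) j ++ js`, of charge `g + (b+1) rt j`, of norm `bl μ μ + 2b + 2`, so it is zero by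
`Ew_zero`, hence `EN A p j (-(p b)) (b+1) f = 0` (`Ej_pow_single`, `es_ne_zero`).  `reflection`:
`ev c (EN b f) = MM b p (c j) * ev c' f`, `c' i = c i - A i j (c j - (p-1)) = pt (w ∘ s_j) g i`
(`w (refl A j g') = w g`... note `refl A j g' = g`, `(w ∘ s_j) g = w g'`), `ev c' f ≠ 0` by `hf`.
`c j = (p-1) - p b - (p-1) ht (w (rt j)) ≤ -p b` since `ht (w (rt j)) ≥ 1` (`root_pos` with
`x = w (rt j)`, `y = w g'`, `bl x y = bl (rt j) g' = b > 0`), so `RC.MM_ne_zero`. -/

namespace WPQ

open MvPolynomial AF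

noncomputable section

variable {ι : Type} [Fintype ι] [DecidableEq ι] {A : Matrix ι ι ℤ} {p : ℕ}

/-- The evaluation point `a - g - ((p-1)/p) w⁻¹ρ`. -/
def pt (A : Matrix ι ι ℤ) (p : ℕ) (w : Iso A) (g : ι → ℤ) (i : ι) : ℂ :=
  (((p : ℤ) - 1 - p * pr A i g - ((p : ℤ) - 1) * ht (w.w (rt i)) : ℤ) : ℂ)

/-- The nonvanishing property of the chain. -/
def NV (A : Matrix ι ι ℤ) (p : ℕ) (g : ι → ℤ) (f : Fock ι) : Prop :=
  ∀ w : Iso A, Dom A (w.w g) → ev (pt A p w g) f ≠ 0

theorem jj2_pr_add (i : ι) (x y : ι → ℤ) : pr A i (x + y) = pr A i x + pr A i y := by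
  unfold pr
  rw [← Finset.sum_add_distrib]
  refine Finset.sum_congr rfl fun k _ => ?_
  rw [Pi.add_apply]
  ring

theorem jj2_pr_smul (i : ι) (c : ℤ) (x : ι → ℤ) : pr A i (c • x) = c * pr A i x := by
  unfold pr
  rw [Finset.mul_sum]
  refine Finset.sum_congr rfl fun k _ => ?_
  rw [Pi.smul_apply, smul_eq_mul]
  ring

theorem jj2_pr_nsmul (i : ι) (c : ℕ) (x : ι → ℤ) : pr A i (c • x) = c * pr A i x := by
  rw [← natCast_zsmul, jj2_pr_smul]

theorem jj2_pr_neg (i : ι) (x : ι → ℤ) : pr A i (-x) = -pr A i x := by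
  have h := jj2_pr_smul (A := A) i (-1) x
  rwa [neg_one_smul, neg_one_mul] at h

theorem jj2_pr_rt (i j : ι) : pr A i (rt j) = A i j := by
  unfold pr rt
  rw [Finset.sum_eq_single j]
  · rw [Pi.single_eq_same, mul_one]
  · intro b _ hb
    rw [Pi.single_eq_of_ne hb, mul_zero]
  · intro h
    exact absurd (Finset.mem_univ j) h

theorem jj2_ht_add (x y : ι → ℤ) : ht (x + y) = ht x + ht y := by
  unfold ht
  rw [← Finset.sum_add_distrib]
  rfl

theorem jj2_ht_smul (c : ℤ) (x : ι → ℤ) : ht (c • x) = c * ht x := by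
  unfold ht
  rw [Finset.mul_sum]
  rfl

/-- the reflection as an additive map -/
def jj2_reflHom (A : Matrix ι ι ℤ) (j : ι) : (ι → ℤ) →+ (ι → ℤ) where
  toFun := refl A j
  map_zero' := by
    unfold refl
    have h : pr A j 0 = 0 := by
      unfold pr
      simp
    rw [h, zero_smul, sub_zero]
  map_add' := by
    intro x y
    unfold refl
    rw [jj2_pr_add, add_smul]
    abel

/-- composition of an isometry with a reflection -/
def jj2_comp (hA : IsADE A) (j : ι) (w : Iso A) : Iso A where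
  w := w.w.comp (jj2_reflHom A j)
  iso := by
    intro x y
    have h1 : (w.w.comp (jj2_reflHom A j)) x = w.w (refl A j x) := rfl
    have h2 : (w.w.comp (jj2_reflHom A j)) y = w.w (refl A j y) := rfl
    rw [h1, h2, w.iso, bl_refl hA]

theorem jj2_Ew_act (ε : Cocycle A p) (σ : Shift A p) (v : VL ι) (js : List ι) :
    WB.act (fun i => Ej ε σ i) v js = Ew ε σ js v := by
  induction js with
  | nil => rfl
  | cons j js ih =>
    have h1 : WB.act (fun i => Ej ε σ i) v (j :: js) =
        Ej ε σ j (WB.act (fun i => Ej ε σ i) v js) := rfl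
    rw [h1, ih]
    rfl

theorem jj2_Ew_append (ε : Cocycle A p) (σ : Shift A p) (v : VL ι) (j : ι) (n : ℕ)
    (js : List ι) :
    Ew ε σ (List.replicate n j ++ js) v = (Ej ε σ j ^ n) (Ew ε σ js v) := by
  induction n with
  | zero => rfl
  | succ n ih =>
    have h1 : Ew ε σ (List.replicate (n + 1) j ++ js) v =
        Ej ε σ j (Ew ε σ (List.replicate n j ++ js) v) := rfl
    rw [h1, ih, pow_succ']
    rfl

theorem Ew_zero (hA : IsADE A) (hp : 1 ≤ p) (ε : Cocycle A p) (mu : ι → ℤ) (hmu : Dom A mu)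
    (js : List ι) (h : bl A mu mu < bl A (fun i => (js.count i : ℤ) - mu i)
      (fun i => (js.count i : ℤ) - mu i)) :
    Ew ε (Shift.zero A p) js (Finsupp.single (-mu) 1) = 0 := by
  rw [← jj2_Ew_act]
  refine WB.weight_bound A hA mu hmu (fun i => Ej ε (Shift.zero A p) i)
    (fun i j hij => comm_Ej hA ε _ i j hij) (fun i j hij => serre_Ej hA hp ε i j hij) _ ?_ js h
  intro i
  have h1 : (Shift.zero A p).κ i + p * pr A i (-mu) = -(p * pr A i mu) := by
    rw [jj2_pr_neg]
    have : (Shift.zero A p).κ i = 0 := rfl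
    rw [this]
    ring
  rw [Ej_pow_single hA, h1, EN_one_zero A hA p i _ _ (by omega), smul_zero, Finsupp.single_zero]
  have h2 : ((WB.mu A mu i + 1 : ℕ) : ℤ) - 1 = pr A i mu := by
    have h3 : 0 ≤ pr A i mu := hmu i
    have h4 : WB.mu A mu i = (pr A i mu).toNat := rfl
    rw [h4]
    omega
  rw [h2]
  ring_nf
  exact le_refl _

theorem chain_step (hA : IsADE A) (hp : 1 ≤ p) (ε : Cocycle A p) (mu : ι → ℤ)
    (hmu : Dom A mu) (js : List ι) (g : ι → ℤ) (hg : ∀ i, g i = (js.count i : ℤ) - mu i)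
    (hn : bl A g g = bl A mu mu) (f : Fock ι) (d : ℕ) (hfd : FH f d)
    (hf : Ew ε (Shift.zero A p) js (Finsupp.single (-mu) 1) = Finsupp.single g f)
    (hNV : NV A p g f) (j : ι) (b : ℕ) (hb : pr A j g = -(b : ℤ)) (hb0 : 0 < b) :
    ∃ (f' : Fock ι) (d' : ℕ), FH f' d' ∧
      Ew ε (Shift.zero A p) (List.replicate b j ++ js) (Finsupp.single (-mu) 1) =
        Finsupp.single (g + b • rt j) f' ∧ NV A p (g + b • rt j) f' := by
  have hκ : (Shift.zero A p).κ j + p * pr A j g = -(p * b : ℤ) := by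
    have : (Shift.zero A p).κ j = 0 := rfl
    rw [this, hb]
    ring
  have hEw : ∀ n : ℕ, Ew ε (Shift.zero A p) (List.replicate n j ++ js) (Finsupp.single (-mu) 1) =
      Finsupp.single (g + n • rt j) (es ε j g n • EN A p j (-(p * b : ℤ)) n f) := by
    intro n
    rw [jj2_Ew_append, hf, Ej_pow_single hA, hκ]
  have hzero : EN A p j (-(p * b : ℤ)) (b + 1) f = 0 := by
    have h1 : (fun i => ((List.replicate (b + 1) j ++ js).count i : ℤ) - mu i) =
        g + ((b + 1 : ℕ) : ℤ) • rt j := by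
      funext i
      rw [Pi.add_apply, Pi.smul_apply, hg i, List.count_append, List.count_replicate]
      unfold rt
      by_cases hij : i = j
      · subst hij
        rw [Pi.single_eq_same]
        simp
        ring
      · rw [Pi.single_eq_of_ne hij]
        have hji : (j == i) = false := by
          rw [beq_eq_false_iff_ne]
          exact Ne.symm hij
        rw [hji]
        simp
    have h2 : bl A mu mu < bl A (g + ((b + 1 : ℕ) : ℤ) • rt j) (g + ((b + 1 : ℕ) : ℤ) • rt j) := by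
      rw [bl_add_left, jj1_add_right hA, jj1_add_right hA, bl_smul_left, bl_smul_left,
        jj1_smul_right hA, jj1_smul_right hA, jj1_rt_rt hA, bl_symm hA g (rt j), bl_rt hA, hb, hn]
      push_cast
      nlinarith
    have h3 := Ew_zero hA hp ε mu hmu (List.replicate (b + 1) j ++ js) (by rw [h1]; exact h2)
    rw [hEw, Finsupp.single_eq_zero] at h3
    exact (smul_eq_zero.1 h3).resolve_left (es_ne_zero ε j g (b + 1))
  have hprj : pr A j (g + b • rt j) = b := by
    rw [jj2_pr_add, jj2_pr_nsmul, jj2_pr_rt, hA.diag, hb]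
    ring
  refine ⟨es ε j g b • EN A p j (-(p * b : ℤ)) b f, d + b * (p - 1), ?_, hEw b, ?_⟩
  · rw [smul_eq_C_mul]
    apply IsWeightedHomogeneous.C_mul
    apply EN_homog A hA p j (-(p * b : ℤ)) b f d _ hfd
    push_cast [Nat.cast_sub hp]
    ring
  · intro w hw
    have h1 : ev (pt A p w (g + b • rt j)) (es ε j g b • EN A p j (-(p * b : ℤ)) b f) =
        es ε j g b * ev (pt A p w (g + b • rt j)) (EN A p j (-(p * b : ℤ)) b f) := by
      rw [map_smul, smul_eq_mul]
    rw [h1, reflection hA hp j b g hb f d hfd hzero]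
    have hpt : (fun i => pt A p w (g + b • rt j) i -
        A i j * (pt A p w (g + b • rt j) j - ((p : ℂ) - 1))) = pt A p (jj2_comp hA j w) g := by
      funext i
      have h2 : (jj2_comp hA j w).w (rt i) = w.w (rt i) + (-(A i j)) • w.w (rt j) := by
        have h3 : (jj2_comp hA j w).w (rt i) = w.w (refl A j (rt i)) := rfl
        rw [h3]
        unfold refl
        rw [jj2_pr_rt, hA.symm j i, map_sub, map_zsmul, neg_smul, sub_eq_add_neg]
      unfold pt
      rw [h2, jj2_ht_add, jj2_ht_smul, hprj, jj2_pr_add, jj2_pr_nsmul, jj2_pr_rt]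
      push_cast
      ring
    have hdom : Dom A ((jj2_comp hA j w).w g) := by
      have h3 : (jj2_comp hA j w).w g = w.w (g + b • rt j) := by
        have h4 : (jj2_comp hA j w).w g = w.w (refl A j g) := rfl
        rw [h4]
        unfold refl
        rw [hb, neg_smul, sub_neg_eq_add, natCast_zsmul]
      rw [h3]
      exact hw
    have hht : 1 ≤ ht (w.w (rt j)) := by
      refine root_pos hA (w.w (rt j)) (w.w (g + b • rt j)) ?_ hw ?_
      · rw [w.iso, jj1_rt_rt hA]
      · rw [w.iso, bl_rt hA, hprj]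
        exact_mod_cast hb0
    have hMM : RC.MM b p (pt A p w (g + b • rt j) j) ≠ 0 := by
      unfold pt
      rw [hprj]
      apply RC.MM_ne_zero b p hp
      have hp' : (0 : ℤ) ≤ (p : ℤ) - 1 := by omega
      nlinarith
    rw [hpt]
    exact mul_ne_zero (es_ne_zero ε j g b) (mul_ne_zero hMM (hNV _ hdom))

end

end WPQ
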