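import Pool.Agent.WPQ.JJ2
import Pool.Agent.WPQ.FT4
import Pool.Agent.WPQ.RR1

/-! [WPQ-JJ3] The right kernel of `beta` on `W(p)_Q` is zero.

Plan.  `chain`: start with `js = []`, `g = -mu`, `f = 1` (`NV` holds: `ev c 1 = 1`); while `g` is not
dominant apply `chain_step`; `bl g g` is constant (`g + b rt j = refl A j g`, `bl_refl`) and `ht g`
increases, and `bl_finite` bounds `ht g` (induction on `B - ht g`, or on the finite set).  At the end
`g` is dominant; use `NV` with `w = id`: `pt id g i = -p pr A i g` (`ht (rt i) = 1`).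
`J_zero`: `P = {v ∈ W | ∀ w word, beta w v = 0}` is a submodule stable under `e^{-λ}_n` (`beta_cS` with
`js = []`, `W_expS`) and `E_j` (`beta_Ej`, `W_Ej`), and `top0 v = beta vac v = 0` on `P` (`beta_vac`).
If `f ≠ 0`: `reach_const` gives `single γ' 1 ∈ P`, so `γ' = -mu` with `mu` dominant (`W_single_iff`);
`chain`: `single g f' = Ew js (single (-mu) 1) ∈ P`, `g` dominant, `ev (-p pr g) f' ≠ 0`;
`e^{-g}_n (single g f') = ± single 0 (C (ev (-p pr g) f'))` for `-n-1-formZ (-g) g = -d'` (`vop_top`,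
`form (bb i) (toC (-g)) = -p pr A i g`), in `P`, and `top0` of it is nonzero. -/

namespace WPQ

open MvPolynomial AF

noncomputable section

variable {ι : Type} [Fintype ι] [DecidableEq ι] {A : Matrix ι ι ℤ} {p : ℕ}

theorem jj3_ht_rt (i : ι) : ht (rt i) = 1 := by
  unfold ht rt
  simp

theorem jj3_refl_eq (j : ι) (g : ι → ℤ) (b : ℕ) (hb : pr A j g = -(b : ℤ)) :
    g + b • rt j = refl A j g := by
  unfold refl
  rw [hb, neg_smul, sub_neg_eq_add, natCast_zsmul]

theorem jj3_ht_add (j : ι) (g : ι → ℤ) (b : ℕ) : ht (g + b • rt j) = ht g + b := by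
  unfold ht rt
  simp only [Pi.add_apply, Finset.sum_add_distrib]
  congr 1
  rw [Finset.sum_eq_single j]
  · simp
  · intro i _ hi
    simp [hi]
  · intro h
    exact absurd (Finset.mem_univ j) h

theorem jj3_bdd (hA : IsADE A) (n : ℤ) : ∃ B : ℤ, ∀ x : ι → ℤ, bl A x x ≤ n → ht x ≤ B := by
  obtain ⟨B, hB⟩ := ((bl_finite hA n).image ht).bddAbove
  exact ⟨B, fun x hx => hB ⟨x, hx, rfl⟩⟩

/-- The identity isometry. -/
def jj3_id (A : Matrix ι ι ℤ) : Iso A where
  w := AddMonoidHom.id _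
  iso := fun _ _ => rfl

theorem jj3_pt (g : ι → ℤ) :
    pt A p (jj3_id A) g = fun i => -((p : ℂ) * (pr A i g : ℂ)) := by
  funext i
  unfold pt
  have h : ht ((jj3_id A).w (rt i)) = 1 := jj3_ht_rt i
  rw [h]
  push_cast
  ring

theorem jj3_chain (hA : IsADE A) (hp : 1 ≤ p) (ε : Cocycle A p) (mu : ι → ℤ) (hmu : Dom A mu)
    (B : ℤ) (hB : ∀ x : ι → ℤ, bl A x x ≤ bl A mu mu → ht x ≤ B) :
    ∀ (m : ℕ) (js : List ι) (g : ι → ℤ) (f : Fock ι) (d : ℕ),
      (∀ i, g i = (js.count i : ℤ) - mu i) → bl A g g = bl A mu mu → FH f d →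
      Ew ε (Shift.zero A p) js (Finsupp.single (-mu) 1) = Finsupp.single g f →
      NV A p g f → (B - ht g).toNat ≤ m →
      ∃ (js : List ι) (g : ι → ℤ) (f : Fock ι) (d : ℕ), Dom A g ∧ FH f d ∧
        Ew ε (Shift.zero A p) js (Finsupp.single (-mu) 1) = Finsupp.single g f ∧
        ev (fun i => -((p : ℂ) * (pr A i g : ℂ))) f ≠ 0 := by
  intro m
  induction m with
  | zero =>
    intro js g f d hg hn hf hE hNV hm
    by_cases hD : Dom A g
    · refine ⟨js, g, f, d, hD, hf, hE, ?_⟩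
      rw [← jj3_pt g]
      exact hNV (jj3_id A) hD
    · exfalso
      unfold Dom at hD
      push Not at hD
      obtain ⟨j, hj⟩ := hD
      obtain ⟨b, hb⟩ : ∃ b : ℕ, pr A j g = -(b : ℤ) := ⟨(-pr A j g).toNat, by omega⟩
      have hb0 : 0 < b := by omega
      have h1 : bl A (g + b • rt j) (g + b • rt j) = bl A mu mu := by
        rw [jj3_refl_eq j g b hb, bl_refl hA, hn]
      have h2 := hB _ h1.le
      rw [jj3_ht_add] at h2
      omega
  | succ m ih =>
    intro js g f d hg hn hf hE hNV hm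
    by_cases hD : Dom A g
    · refine ⟨js, g, f, d, hD, hf, hE, ?_⟩
      rw [← jj3_pt g]
      exact hNV (jj3_id A) hD
    · unfold Dom at hD
      push Not at hD
      obtain ⟨j, hj⟩ := hD
      obtain ⟨b, hb⟩ : ∃ b : ℕ, pr A j g = -(b : ℤ) := ⟨(-pr A j g).toNat, by omega⟩
      have hb0 : 0 < b := by omega
      have h1 : bl A (g + b • rt j) (g + b • rt j) = bl A mu mu := by
        rw [jj3_refl_eq j g b hb, bl_refl hA, hn]
      obtain ⟨f', d', hf', hE', hNV'⟩ := chain_step hA hp ε mu hmu js g hg hn f d hf hE hNV j b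
        hb hb0
      have h2 := hB _ h1.le
      refine ih (List.replicate b j ++ js) (g + b • rt j) f' d' ?_ h1 hf' hE' hNV' ?_
      · intro i
        rw [Pi.add_apply, hg i, List.count_append, List.count_replicate]
        unfold rt
        by_cases hij : i = j
        · subst hij
          simp
          ring
        · have hji : ¬ j = i := fun h => hij h.symm
          simp [hij, hji]
      · rw [jj3_ht_add] at h2 ⊢
        omega

omit [DecidableEq ι] in
theorem jj3_bl_neg (x : ι → ℤ) : bl A (-x) (-x) = bl A x x := by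
  unfold bl
  simp

theorem jj3_form (i : ι) (g : ι → ℤ) :
    form A p (bb i) (toC (-g)) = -((p : ℂ) * (pr A i g : ℂ)) := by
  unfold form bb toC pr
  rw [← mul_neg]
  congr 1
  push_cast
  rw [← Finset.sum_neg_distrib, Finset.sum_eq_single i]
  · simp
  · intro b _ hb
    simp [hb]
  · intro h
    exact absurd (Finset.mem_univ i) h

theorem chain (hA : IsADE A) (hp : 1 ≤ p) (ε : Cocycle A p) (mu : ι → ℤ) (hmu : Dom A mu) :
    ∃ (js : List ι) (g : ι → ℤ) (f : Fock ι) (d : ℕ), Dom A g ∧ FH f d ∧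
      Ew ε (Shift.zero A p) js (Finsupp.single (-mu) 1) = Finsupp.single g f ∧
      ev (fun i => -((p : ℂ) * (pr A i g : ℂ))) f ≠ 0 := by
  obtain ⟨B, hB⟩ := jj3_bdd hA (bl A mu mu)
  refine jj3_chain hA hp ε mu hmu B hB _ [] (-mu) 1 0 ?_ (jj3_bl_neg mu) ?_ rfl ?_ le_rfl
  · intro i
    simp
  · exact isWeightedHomogeneous_one ℂ _
  · intro w _
    rw [map_one]
    exact one_ne_zero

/-- The right kernel. -/
def jj3_P (ε : Cocycle A p) (τ : Shift A p) : Submodule ℂ (VL ι) where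
  carrier := {v | v ∈ W A p ∧ ∀ w, IsWord ε w → beta ε τ w v = 0}
  add_mem' := by
    rintro v v' ⟨h1, h2⟩ ⟨h3, h4⟩
    refine ⟨(W A p).add_mem h1 h3, fun w hw => ?_⟩
    rw [beta_add_right, h2 w hw, h4 w hw, add_zero]
  zero_mem' := by
    refine ⟨(W A p).zero_mem, fun w hw => ?_⟩
    have h := beta_smul_right ε τ 0 w 0
    rw [zero_smul, zero_mul] at h
    exact h
  smul_mem' := by
    rintro c v ⟨h1, h2⟩
    refine ⟨(W A p).smul_mem c h1, fun w hw => ?_⟩
    rw [beta_smul_right, h2 w hw, mul_zero]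

theorem jj3_mem (ε : Cocycle A p) (τ : Shift A p) (v : VL ι) :
    v ∈ jj3_P ε τ ↔ v ∈ W A p ∧ ∀ w, IsWord ε w → beta ε τ w v = 0 := Iff.rfl

theorem jj3_word_UU (ε : Cocycle A p) (w : VL ι) (hw : IsWord ε w) : w ∈ UU ε :=
  Submodule.subset_span hw

theorem jj3_expS (hA : IsADE A) (hp : 2 ≤ p) (ε : Cocycle A p) (τ : Shift A p)
    (hτ : τ.s = (2 : ℂ) • bg A p) (lam : ι → ℤ) (hl : Dom A lam) (n : ℤ) (v : VL ι)
    (hv : v ∈ jj3_P ε τ) : expS ε (Shift.zero A p) (-lam) n v ∈ jj3_P ε τ := by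
  obtain ⟨h1, h2⟩ := hv
  refine ⟨W_expS hA (by omega) ε lam hl n v h1, fun w hw => ?_⟩
  have h := beta_cS hA hp ε τ hτ lam hl [] (2 * wtExp A p (-lam) - 2 - n) w v
    (jj3_word_UU ε w hw) h1
  have e : 2 * wtExp A p (-lam) - 2 - (2 * wtExp A p (-lam) - 2 - n) = n := by ring
  rw [e] at h
  have h3 : beta ε τ (cS ε (Shift.zero A p) lam [] (2 * wtExp A p (-lam) - 2 - n) w) v = 0 :=
    h2 _ (IsWord.ex lam hl _ w hw)
  rw [h3] at h
  have h4 := mul_eq_zero.1 h.symm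
  rcases h4 with h4 | h4
  · exfalso
    have h5 : ((Int.negOnePow (wtExp A p (-lam)) : ℤˣ) : ℤ) ≠ 0 := Units.ne_zero _
    exact h5 (by exact_mod_cast h4)
  · exact h4

theorem jj3_Ej (hA : IsADE A) (hp : 2 ≤ p) (ε : Cocycle A p) (τ : Shift A p)
    (hτ : τ.s = (2 : ℂ) • bg A p) (j : ι) (v : VL ι)
    (hv : v ∈ jj3_P ε τ) : Ej ε (Shift.zero A p) j v ∈ jj3_P ε τ := by
  obtain ⟨h1, h2⟩ := hv
  refine ⟨W_Ej hA hp ε j v h1, fun w hw => ?_⟩
  have h := beta_Ej hA (by omega) ε τ hτ j w v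
  rw [h2 _ (IsWord.ej j w hw)] at h
  exact neg_eq_zero.1 h.symm

theorem jj3_Ew (hA : IsADE A) (hp : 2 ≤ p) (ε : Cocycle A p) (τ : Shift A p)
    (hτ : τ.s = (2 : ℂ) • bg A p) (v : VL ι) (hv : v ∈ jj3_P ε τ) (js : List ι) :
    Ew ε (Shift.zero A p) js v ∈ jj3_P ε τ := by
  induction js with
  | nil => exact hv
  | cons j js ih => exact jj3_Ej hA hp ε τ hτ j _ ih

theorem J_zero (hA : IsADE A) (hp : 2 ≤ p) (ε : Cocycle A p) (τ : Shift A p)
    (hτ : τ.s = (2 : ℂ) • bg A p) (γ : ι → ℤ) (f : Fock ι) (d : ℕ) (hf : FH f d)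
    (hW : Finsupp.single γ f ∈ W A p)
    (hJ : ∀ w, IsWord ε w → beta ε τ w (Finsupp.single γ f) = 0) : f = 0 := by
  by_contra h0
  have hp1 : 1 ≤ p := by omega
  obtain ⟨γ', hγ'⟩ := reach_const hA hp1 ε (jj3_P ε τ)
    (fun lam hl n v hv => jj3_expS hA hp ε τ hτ lam hl n v hv) γ f d hf h0 ⟨hW, hJ⟩
  have hmu : Dom A (-γ') := by
    intro j
    have h1 := (W_single_iff hA hp1 γ').1 hγ'.1 j
    have h2 : pr A j (-γ') = -pr A j γ' := by
      unfold pr
      simp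
    rw [h2]
    omega
  obtain ⟨js, g, f', d', hg, hf', hE, hev⟩ := chain hA hp1 ε (-γ') hmu
  rw [neg_neg] at hE
  have h1 := jj3_Ew hA hp ε τ hτ _ hγ' js
  rw [hE] at h1
  have h2 := jj3_expS hA hp ε τ hτ g hg (d' - 1 - formZ A p (-g) g) _ h1
  rw [expS_single] at h2
  have e0 : (Shift.zero A p).dot (-g) = 0 := by
    unfold Shift.dot Shift.zero
    simp
  have e1 : -((d' : ℤ) - 1 - formZ A p (-g) g) - 1 - (Shift.zero A p).dot (-g) -
      formZ A p (-g) g = -(d' : ℤ) := by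
    rw [e0]
    ring
  rw [e1, vop_top A p _ f' d' hf', neg_add_cancel] at h2
  have h3 := h2.2 vac IsWord.vac
  rw [beta_vac] at h3
  have e2 : (fun i => form A p (bb i) (toC (-g))) = fun i => -((p : ℂ) * (pr A i g : ℂ)) := by
    funext i
    exact jj3_form i g
  rw [e2] at h3
  have h4 : top0 (Finsupp.single 0 ((((ε.ε (-g) g : ℤˣ) : ℤ) : ℂ) •
      (C (ev (fun i => -((p : ℂ) * (pr A i g : ℂ))) f') : Fock ι))) =
      (((ε.ε (-g) g : ℤˣ) : ℤ) : ℂ) * ev (fun i => -((p : ℂ) * (pr A i g : ℂ))) f' := by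
    unfold top0
    simp
  rw [h4] at h3
  rcases mul_eq_zero.1 h3 with h5 | h5
  · have h6 : ((ε.ε (-g) g : ℤˣ) : ℤ) ≠ 0 := Units.ne_zero _
    exact h6 (by exact_mod_cast h5)
  · exact hev h5

end

end WPQ
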