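import Pool.Agent.WPQ.VA3
import Pool.Agent.WPQ.SVD

/-! [WPQ-KK1] The Virasoro algebra with background charge `a` on `V_L` at `p = 1`.

Plan.  `bg A 1 = 0` (the factor `(p-1)/p` vanishes), so `cc A 1 = card ι`, and `LS_heis`/`Lop_heis`
give `[L(k), h(n)] = -n h(n+k)` (find the lemma for `hS`/`heisMode`: `hS_zero`, `LS_hS`), `heis_heis`
(or its `hS` version): `[h(m), h'(n)] = m ⟨h,h'⟩ δ_{m+n,0}`, `LS_comm` (PV1).
`mode_osc`: `heisMode A p h` is the vertex operator of `h(-1)1 = single 0 (osc h 0)`: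
`mode_eq` with `isFld_hS`, `loc_hS_expS`, `loc_hS_hS`, `cov_hS`, `hS_vac_nonneg`, `hS_zero`, ...
(the same lemma is proved inside VA4.lean, finished: take it from there).
`LB_vir`: `[L(m) - (m+1)a(m), L(n) - (n+1)a(n)] = (m-n)L(m+n) + (card ι/12)(m³-m)δ
+ (n+1)n a(m+n) - (m+1)m a(m+n) + (m+1)(n+1)m⟨a,a⟩δ` and `(n+1)n-(m+1)m = -(m-n)(m+n+1)`,
`(m+1)(-m+1)m = -(m³-m)`.
`mode_omB`: `mode_add`, `omegaV_eq`, `mode_omega`, `mode_transl`, `mode_osc`. -/

namespace WPQ

open MvPolynomial AF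

noncomputable section

variable {ι : Type} [Fintype ι] [DecidableEq ι] {A : Matrix ι ι ℤ}

/-- `L^a(k) = L(k) - (k+1) a(k)` -/
def LB (A : Matrix ι ι ℤ) (a : ι → ℂ) (k : ℤ) : VL ι →ₗ[ℂ] VL ι :=
  LS (Shift.zero A 1) k - ((k : ℂ) + 1) • heisMode A 1 a k

/-- The conformal vector of `L^a`. -/
def omB (A : Matrix ι ι ℤ) (a : ι → ℂ) : VL ι :=
  omegaV A 1 + transl (Finsupp.single 0 (osc a 0))

/-! ### helper lemmas -/

theorem kk1_bg (A : Matrix ι ι ℤ) : bg A 1 = 0 := by
  funext i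
  unfold bg
  simp

theorem kk1_cc (A : Matrix ι ι ℤ) : cc A 1 = (Fintype.card ι : ℂ) := by
  unfold cc
  rw [kk1_bg]
  simp [form]

theorem kk1_LS_heis (hA : IsADE A) (a : ι → ℂ) (k n : ℤ) (v : VL ι) :
    LS (Shift.zero A 1) k (heisMode A 1 a n v) - heisMode A 1 a n (LS (Shift.zero A 1) k v) =
      (-(n : ℂ)) • heisMode A 1 a (n + k) v := by
  rw [fl5_key_heis hA (le_refl 1) a k n v, kk1_bg]
  have h : form A 1 0 a = 0 := by simp [form]
  rw [h, mul_zero, ite_self, zero_smul, sub_zero]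

theorem kk1_heis_heis (hA : IsADE A) (a : ι → ℂ) (m n : ℤ) (v : VL ι) :
    heisMode A 1 a m (heisMode A 1 a n v) - heisMode A 1 a n (heisMode A 1 a m v) =
      (if m + n = 0 then (m : ℂ) * form A 1 a a else 0) • v := by
  have h := LinearMap.congr_fun (hS_hS hA.symm (Shift.zero A 1) a a m n) v
  rw [hS_zero, hS_zero] at h
  refine h.trans ?_
  split_ifs
  · rfl
  · rw [zero_smul]
    rfl

theorem mode_osc {p : ℕ} (hA : IsADE A) (hp : 1 ≤ p) (ε : Cocycle A p) (h : ι → ℂ) (n : ℤ) :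
    mode ε (Finsupp.single 0 (osc h 0)) n = heisMode A p h n := by
  have key : mode ε (Finsupp.single 0 (osc h 0)) = heisMode A p h := by
    refine mode_eq ε _ _ ⟨?_, ?_, ?_, ?_, ?_, ?_⟩
    · have h1 := isFld_hS (Shift.zero A p) h
      intro v
      obtain ⟨N, hN⟩ := h1 v
      refine ⟨N, fun n hn => ?_⟩
      rw [← hS_zero]
      exact hN n hn
    · intro γ
      have h1 := (loc_hS_expS hA.symm ε (Shift.zero A p) h γ)
      have h2 := h1.symm
      refine ⟨1, fun m n => ?_⟩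
      have h3 := h2 m n
      simp only [hS_zero, expS_zero] at h3
      exact h3
    · intro h'
      refine ⟨2, fun m n => ?_⟩
      have h3 := loc_hS_hS hA.symm (Shift.zero A p) h h' m n
      simp only [hS_zero] at h3
      exact h3
    · intro n
      have h1 := cov_hS hA hp (Shift.zero A p) h n
      rw [LS_zero_neg_one] at h1
      simp only [hS_zero] at h1
      exact h1
    · intro n hn
      rw [← hS_zero]
      exact hS_vac_nonneg h n hn
    · rw [vac, fl3_heis_single]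
      unfold heis
      rw [if_pos (by norm_num)]
      simp
  rw [key]

theorem LB_vir (hA : IsADE A) (a : ι → ℂ) :
    KV.IsVir ((Fintype.card ι : ℂ) - 12 * form A 1 a a) (LB A a) := by
  intro m n
  refine LinearMap.ext fun v => ?_
  have h1 := LinearMap.congr_fun (LS_comm hA (le_refl 1) m n) v
  have h2 := kk1_LS_heis hA a m n v
  have h3 := kk1_LS_heis hA a n m v
  have h4 := kk1_heis_heis hA a m n v
  have h5 : n + m = m + n := add_comm n m
  rw [kk1_cc] at h1
  have h1' : LS (Shift.zero A 1) m (LS (Shift.zero A 1) n v) -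
      LS (Shift.zero A 1) n (LS (Shift.zero A 1) m v) =
      ((m : ℂ) - n) • LS (Shift.zero A 1) (m + n) v +
        (if m + n = 0 then ((Fintype.card ι : ℂ) / 12 * ((m : ℂ) ^ 3 - m)) else 0) • v := by
    refine h1.trans ?_
    rw [LinearMap.add_apply, LinearMap.smul_apply]
    congr 1
    split_ifs
    · rfl
    · rw [zero_smul]
      rfl
  rw [h5] at h2
  have hR : (if m + n = 0 then (((Fintype.card ι : ℂ) - 12 * form A 1 a a) / 12 *
      ((m : ℂ) ^ 3 - m)) • (LinearMap.id : VL ι →ₗ[ℂ] VL ι) else 0) v =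
      (if m + n = 0 then (((Fintype.card ι : ℂ) - 12 * form A 1 a a) / 12 *
      ((m : ℂ) ^ 3 - m)) else 0) • v := by
    split_ifs
    · rfl
    · rw [zero_smul]
      rfl
  unfold LB
  simp only [LinearMap.sub_apply, LinearMap.comp_apply, LinearMap.smul_apply, LinearMap.add_apply,
    map_sub, map_smul]
  rw [hR]
  have e1 : LS (Shift.zero A 1) m (LS (Shift.zero A 1) n v) =
      LS (Shift.zero A 1) n (LS (Shift.zero A 1) m v) +
      (((m : ℂ) - n) • LS (Shift.zero A 1) (m + n) v +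
        (if m + n = 0 then ((Fintype.card ι : ℂ) / 12 * ((m : ℂ) ^ 3 - m)) else 0) • v) := by
    rw [← h1', add_sub_cancel]
  have e2 : LS (Shift.zero A 1) m (heisMode A 1 a n v) =
      heisMode A 1 a n (LS (Shift.zero A 1) m v) + (-(n : ℂ)) • heisMode A 1 a (m + n) v := by
    rw [← h2, add_sub_cancel]
  have e3 : LS (Shift.zero A 1) n (heisMode A 1 a m v) =
      heisMode A 1 a m (LS (Shift.zero A 1) n v) + (-(m : ℂ)) • heisMode A 1 a (m + n) v := by
    rw [← h3, add_sub_cancel]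
  have e4 : heisMode A 1 a m (heisMode A 1 a n v) = heisMode A 1 a n (heisMode A 1 a m v) +
      (if m + n = 0 then (m : ℂ) * form A 1 a a else 0) • v := by
    rw [← h4, add_sub_cancel]
  rw [e1, e2, e3, e4]
  by_cases h0 : m + n = 0
  · have hn : (n : ℂ) = -(m : ℂ) := by
      have : n = -m := by omega
      rw [this]
      push_cast
      rfl
    rw [if_pos h0, if_pos h0, if_pos h0]
    push_cast
    rw [hn]
    module
  · rw [if_neg h0, if_neg h0, if_neg h0]
    push_cast
    module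

theorem LB_neg_one (a : ι → ℂ) : LB A a (-1) = transl := by
  unfold LB
  rw [LS_zero_neg_one]
  have h : (((-1 : ℤ) : ℂ) + 1) = 0 := by
    push_cast
    ring
  rw [h, zero_smul]
  exact sub_zero (_ : VL ι →ₗ[ℂ] VL ι)

theorem mode_omB (hA : IsADE A) (ε : Cocycle A 1) (a : ι → ℂ) (n : ℤ) :
    mode ε (omB A a) n = LB A a (n - 1) := by
  unfold omB LB
  rw [mode_add hA (le_refl 1), omegaV_eq, mode_omega hA (le_refl 1), mode_transl hA (le_refl 1),
    mode_osc hA (le_refl 1)]
  have h : ((n - 1 : ℤ) : ℂ) + 1 = (n : ℂ) := by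
    push_cast
    ring
  rw [h]
  refine LinearMap.ext fun v => ?_
  rw [LinearMap.add_apply, LinearMap.sub_apply, LinearMap.smul_apply, LinearMap.smul_apply,
    neg_smul, ← sub_eq_add_neg]

end

end WPQ
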