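import Pool.Agent.WPQ.KK1

/-! [WPQ-KK2] Commutators of `L^a(k)` with the modes of a primary vector; the constant term.

Plan.  `LB_mode`: as `LS_mode` in VA3.lean (finished, adapt), with `mode_omB` instead of `mode_omega`:
`mode_comm` for `omB` and `u`, `m := k + 1`: `mode (omB) j u = L^a(j-1) u`: `j = 0`: `transl u`
(`LB_neg_one`, `mode_transl`), `j = 1`: `m • u`, `j ≥ 2`: `0` (`IsPrim`).
`cst_LB_neg`: at charge `δ`, `Lop A 1 (toC δ) (-k) f` is a derivation with values in the ideal of the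
variables, plus multiplications by elements without constant term; `heis _ (-k)` is a multiplication
by `osc`.  `cst_LB_zero`: the same with `k = 0`: only the scalars remain
(`bg A 1 = 0`).  `cst_transl`: `transl = L^a(-1)`.
`single_prim`: `L^a(k) e^γ`: `Lop _ (toC γ) k 1 = 0` for `k > 0`. -/

namespace WPQ

open MvPolynomial AF

noncomputable section

variable {ι : Type} [Fintype ι] [DecidableEq ι] {A : Matrix ι ι ℤ}

theorem LB_mode (hA : IsADE A) (ε : Cocycle A 1) (a : ι → ℂ) (u : VL ι) (m : ℂ)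
    (hu : SV.IsPrim (LB A a) m u) (k s : ℤ) :
    LB A a k ∘ₗ mode ε u s - mode ε u s ∘ₗ LB A a k =
      ((m - 1) * ((k : ℂ) + 1) - s) • mode ε u (s + k) := by
  have hM : ∀ j : ℕ, 2 ≤ j → mode ε (omB A a) j u = 0 := by
    intro j hj
    obtain ⟨i, rfl⟩ : ∃ i, j = i + 2 := ⟨j - 2, by omega⟩
    rw [mode_omB hA, show (((i + 2 : ℕ) : ℤ) - 1) = ((i + 1 : ℕ) : ℤ) by push_cast; ring]
    exact hu.2 (i + 1) (by omega)
  have h := mode_comm hA le_rfl ε (omB A a) u 2 hM (k + 1) s
  have e : mode ε (omB A a) (k + 1) = LB A a k := by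
    rw [mode_omB hA, show k + 1 - 1 = k by ring]
  rw [e] at h
  rw [h, Finset.sum_range_succ, Finset.sum_range_one, mode_omB hA, mode_omB hA]
  have e0 : (((0 : ℕ) : ℤ) - 1) = -1 := by norm_num
  have e1 : (((1 : ℕ) : ℤ) - 1) = 0 := by norm_num
  rw [e0, e1, LB_neg_one, hu.1, mode_transl hA le_rfl, mode_smul hA le_rfl,
    Ring.choose_zero_right, Ring.choose_one_right, smul_smul, smul_smul]
  have e2 : k + 1 + s - ((0 : ℕ) : ℤ) - 1 = s + k := by push_cast; ring
  have e3 : k + 1 + s - ((1 : ℕ) : ℤ) = s + k := by push_cast; ring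
  rw [e2, e3, ← add_smul]
  congr 1
  push_cast
  ring

/-- The constant term in charge `δ`. -/
def cst (δ : ι → ℤ) : VL ι →ₗ[ℂ] ℂ where
  toFun v := constantCoeff (v δ)
  map_add' := by
    intro v w
    rw [Finsupp.add_apply, map_add]
  map_smul' := by
    intro c v
    rw [Finsupp.smul_apply, smul_eq_C_mul, map_mul, constantCoeff_C, RingHom.id_apply, smul_eq_mul]

omit [DecidableEq ι] in
theorem kk2_cst_single (δ η : ι → ℤ) (f : Fock ι) :
    cst δ (Finsupp.single η f) = if η = δ then constantCoeff f else 0 := by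
  show constantCoeff ((Finsupp.single η f) δ) = _
  by_cases h : η = δ
  · rw [if_pos h, h, Finsupp.single_eq_same]
  · rw [if_neg h, Finsupp.single_eq_of_ne (Ne.symm h), map_zero]

theorem kk2_heisMode_single (a : ι → ℂ) (k : ℤ) (η : ι → ℤ) (f : Fock ι) :
    heisMode A 1 a k (Finsupp.single η f) = Finsupp.single η (heis A 1 a k (toC η) f) := by
  unfold heisMode
  rw [Finsupp.lsum_single]
  rfl

theorem kk2_LB_single (a : ι → ℂ) (k : ℤ) (η : ι → ℤ) (f : Fock ι) :
    LB A a k (Finsupp.single η f) = Finsupp.single η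
      (Lop A 1 (toC η) k f - ((k : ℂ) + 1) • heis A 1 a k (toC η) f) := by
  unfold LB
  rw [LinearMap.sub_apply, LinearMap.smul_apply, fl2_LS_single, kk2_heisMode_single,
    Finsupp.smul_single, ← Finsupp.single_sub]
  have h1 : (Shift.zero A 1).s + toC η = toC η := zero_add _
  rw [h1]

omit [Fintype ι] [DecidableEq ι] in
/-- derivations with values in the ideal of the variables -/
theorem kk2_der (d : Derivation ℂ (Fock ι) (Fock ι))
    (hd : ∀ x, constantCoeff (d (X x)) = 0) (f : Fock ι) : constantCoeff (d f) = 0 := by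
  induction f using MvPolynomial.induction_on with
  | C c => rw [derivation_C, map_zero]
  | add f g hf hg => rw [map_add, map_add, hf, hg, add_zero]
  | mul_X f x hf =>
    rw [Derivation.leibniz, map_add, smul_eq_mul, smul_eq_mul, map_mul, map_mul, hd,
      constantCoeff_X, mul_zero, zero_mul, add_zero]

omit [DecidableEq ι] in
theorem kk2_osc (ν : ι → ℂ) (n : ℕ) : constantCoeff (osc ν n) = 0 := by
  unfold osc
  rw [map_sum]
  refine Finset.sum_eq_zero fun i _ => ?_
  rw [map_mul, constantCoeff_X, mul_zero]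

theorem kk2_heis_neg (p : ℕ) (h : ι → ℂ) (η : ι → ℂ) (n : ℤ) (hn : n < 0) (f : Fock ι) :
    constantCoeff (heis A p h n η f) = 0 := by
  unfold heis
  rw [if_pos hn, LinearMap.smul_apply, LinearMap.mulLeft_apply, smul_eq_C_mul, map_mul, map_mul,
    kk2_osc, zero_mul, mul_zero]

theorem kk2_Lop_neg (s : ι → ℂ) (n : ℤ) (hn : n < 0) (f : Fock ι) :
    constantCoeff (Lop A 1 s n f) = 0 := by
  unfold Lop
  rw [if_neg (by omega), if_neg (by omega), LinearMap.add_apply, LinearMap.add_apply, map_add,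
    map_add, kk2_heis_neg 1 _ _ n hn, add_zero, LinearMap.smul_apply, LinearMap.mulLeft_apply,
    smul_eq_C_mul, map_mul, map_mul]
  have h1 : constantCoeff (∑ n' ∈ Finset.range ((-n).toNat - 1), ∑ i : ι,
        C (((n' : ℂ) + 1) * (-(n : ℂ) - 1 - n')) * osc (dual A 1 i) n' *
          (X (i, (-n).toNat - 2 - n') : Fock ι)) = 0 := by
    rw [map_sum]
    refine Finset.sum_eq_zero fun m _ => ?_
    rw [map_sum]
    refine Finset.sum_eq_zero fun i _ => ?_
    rw [map_mul, constantCoeff_X, mul_zero]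
  rw [h1, zero_mul, mul_zero, add_zero]
  refine kk2_der _ (fun x => ?_) f
  rw [mkDerivation_X, smul_eq_C_mul, map_mul, constantCoeff_X, mul_zero]

theorem kk2_bg : bg A 1 = 0 := by
  funext i
  unfold bg
  rw [Nat.cast_one, sub_self, zero_div, zero_mul]
  rfl

omit [DecidableEq ι] in
theorem kk2_form_zero_left (s : ι → ℂ) : form A 1 0 s = 0 := by
  unfold form
  simp

theorem kk2_Lop_zero (s : ι → ℂ) (f : Fock ι) :
    constantCoeff (Lop A 1 s 0 f) = 1 / 2 * form A 1 s s * constantCoeff f := by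
  unfold Lop
  rw [if_neg (lt_irrefl _), if_pos rfl, LinearMap.add_apply, map_add, kk2_bg,
    kk2_form_zero_left, sub_zero, LinearMap.smul_apply, LinearMap.id_apply, smul_eq_C_mul,
    map_mul, constantCoeff_C]
  have h1 : constantCoeff ((mkDerivation ℂ fun x : ι × ℕ =>
      ((x.2 : ℂ) + 1) • (X x : Fock ι)).toLinearMap f) = 0 := by
    refine kk2_der _ (fun x => ?_) f
    rw [mkDerivation_X, smul_eq_C_mul, map_mul, constantCoeff_X, mul_zero]
  rw [h1, zero_add]

theorem cst_LB_neg (a : ι → ℂ) (δ : ι → ℤ) (k : ℕ) (hk : 0 < k) (v : VL ι) :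
    cst δ (LB A a (-(k : ℤ)) v) = 0 := by
  have hneg : -(k : ℤ) < 0 := by omega
  induction v using Finsupp.induction_linear with
  | zero => rw [map_zero, map_zero]
  | add v w hv hw => rw [map_add, map_add, hv, hw, add_zero]
  | single η f =>
    rw [kk2_LB_single, kk2_cst_single]
    split_ifs
    · rw [map_sub, smul_eq_C_mul, map_mul, kk2_Lop_neg _ _ hneg, kk2_heis_neg 1 _ _ _ hneg,
        mul_zero, sub_zero]
    · rfl

theorem cst_LB_zero (a : ι → ℂ) (δ : ι → ℤ) (v : VL ι) :
    cst δ (LB A a 0 v) = (1 / 2 * form A 1 (toC δ) (toC δ) - form A 1 a (toC δ)) * cst δ v := by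
  induction v using Finsupp.induction_linear with
  | zero => rw [map_zero, map_zero, mul_zero]
  | add v w hv hw => rw [map_add, map_add, map_add, hv, hw, mul_add]
  | single η f =>
    rw [kk2_LB_single, kk2_cst_single, kk2_cst_single]
    split_ifs with h
    · subst h
      rw [map_sub, smul_eq_C_mul, map_mul, kk2_Lop_zero, constantCoeff_C]
      unfold heis
      rw [if_neg (lt_irrefl _), if_pos rfl, LinearMap.smul_apply, LinearMap.id_apply,
        smul_eq_C_mul, map_mul, constantCoeff_C]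
      push_cast
      ring
    · rw [mul_zero]

theorem cst_transl (δ : ι → ℤ) (v : VL ι) : cst δ (transl v) = 0 := by
  rw [← LB_neg_one (A := (1 : Matrix ι ι ℤ)) (0 : ι → ℂ)]
  exact cst_LB_neg (A := (1 : Matrix ι ι ℤ)) 0 δ 1 one_pos v

theorem kk2_heis_pos (p : ℕ) (h : ι → ℂ) (η : ι → ℂ) (n : ℤ) (hn : 0 < n) :
    heis A p h n η (1 : Fock ι) = 0 := by
  unfold heis
  rw [if_neg (by omega), if_neg (by omega), LinearMap.sum_apply]
  refine Finset.sum_eq_zero fun i _ => ?_
  rw [LinearMap.smul_apply]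
  have h1 : (pderiv (R := ℂ) (i, (n - 1).toNat)).toLinearMap (1 : Fock ι) = 0 :=
    Derivation.map_one_eq_zero _
  rw [h1, smul_zero]

theorem kk2_Lop_pos (s : ι → ℂ) (n : ℤ) (hn : 0 < n) : Lop A 1 s n (1 : Fock ι) = 0 := by
  unfold Lop
  rw [if_pos hn, LinearMap.add_apply, LinearMap.add_apply, kk2_heis_pos 1 _ _ n hn, add_zero,
    LinearMap.smul_apply, LinearMap.sum_apply]
  have h1 : ∀ m ∈ Finset.range (n.toNat - 1), (∑ i : ι,
        (pderiv (R := ℂ) (i, m)).toLinearMap ∘ₗ heis A 1 (bb i) (n - (m + 1)) 0) (1 : Fock ι) = 0 := by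
    intro m hm
    rw [Finset.mem_range] at hm
    rw [LinearMap.sum_apply]
    refine Finset.sum_eq_zero fun i _ => ?_
    rw [LinearMap.comp_apply, kk2_heis_pos 1 _ _ _ (by omega), map_zero]
  rw [Finset.sum_eq_zero h1, smul_zero, add_zero]
  exact Derivation.map_one_eq_zero _

theorem single_prim (hA : IsADE A) (a : ι → ℂ) (γ : ι → ℤ) :
    SV.IsPrim (LB A a) (1 / 2 * form A 1 (toC γ) (toC γ) - form A 1 a (toC γ))
      (Finsupp.single γ 1) := by
  constructor
  · rw [kk2_LB_single, Finsupp.smul_single]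
    congr 1
    have h1 : Lop A 1 (toC γ) 0 (1 : Fock ι) = (1 / 2 * form A 1 (toC γ) (toC γ)) • (1 : Fock ι) := by
      unfold Lop
      rw [if_neg (lt_irrefl _), if_pos rfl, LinearMap.add_apply, kk2_bg,
        kk2_form_zero_left, sub_zero, LinearMap.smul_apply, LinearMap.id_apply]
      have h2 : (mkDerivation ℂ fun x : ι × ℕ =>
          ((x.2 : ℂ) + 1) • (X x : Fock ι)).toLinearMap (1 : Fock ι) = 0 :=
        Derivation.map_one_eq_zero _
      rw [h2, zero_add]
    have h3 : heis A 1 a 0 (toC γ) (1 : Fock ι) = form A 1 a (toC γ) • (1 : Fock ι) := by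
      unfold heis
      rw [if_neg (lt_irrefl _), if_pos rfl, LinearMap.smul_apply, LinearMap.id_apply]
    rw [h1, h3, Int.cast_zero, zero_add, one_smul, sub_smul]
  · intro k hk
    have hk' : (0 : ℤ) < (k : ℤ) := by exact_mod_cast hk
    rw [kk2_LB_single, kk2_Lop_pos _ _ hk', kk2_heis_pos 1 _ _ _ hk', smul_zero, sub_zero,
      Finsupp.single_zero]

end

end WPQ
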