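import Pool.Agent.WPQ.KVD

/-! [WPQ-KV18] Highest weight vectors in modules over the Virasoro algebra.

`Sw L x m` is the span of the `L(-w) x`, `w` a positive word of sum `m`.
`Sw_neg`: there is no word of negative sum.  `Sw_zero`: a positive word of sum `0` is empty.
`Sw_L`: it is enough to show `∀ w, Pw w → ∀ k, L k (wd L w x) ∈ Sw L x (w.sum - k)`, induction on `w`.  `w = []`: `k > 0`: `L k x = 0`;
`k = 0`: `h • x`; `k < 0`: the word `[-k]`.  `w = a :: w'`: `k < 0`: the word `(-k) :: a :: w'`; `k ≥ 0`: `L k (L (-a) z) = L (-a) (L k z) + (k+a) L (k-a) z + δ z` with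
`z = wd L w' x`; by induction `L k z ∈ Sw (w'.sum - k)` and `L (-a)` maps `Sw m` to `Sw (m + a)` (cons), `L (k-a) z ∈ Sw (w'.sum - k + a)`,
`z ∈ Sw w'.sum` (`δ`-term: `k = a`).
`wu_mem`: induction on `w`.  `prim_pos`: `L(1) x = L(2) x = 0` imply `L(k) x = 0`, `k ≥ 1`: `(k-1) L(k+1) = L(k) L(1) - L(1) L(k)` for `k ≥ 2` (no central term). -/

namespace WPQ.KV

noncomputable section

variable {N : Type} [AddCommGroup N] [Module ℂ N] {c : ℂ} {L : ℤ → N →ₗ[ℂ] N}

theorem kv18_vir (hL : IsVir c L) (m n : ℤ) (y : N) :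
    L m (L n y) = L n (L m y) + ((m : ℂ) - n) • L (m + n) y +
      (if m + n = 0 then (c / 12 * ((m : ℂ) ^ 3 - m)) • y else 0) := by
  have h := congrArg (fun T : N →ₗ[ℂ] N => T y) (hL m n)
  by_cases hmn : m + n = 0
  · simp only [LinearMap.sub_apply, LinearMap.comp_apply, LinearMap.add_apply,
      LinearMap.smul_apply, if_pos hmn, LinearMap.id_apply] at h
    rw [if_pos hmn, add_assoc, ← h]
    abel
  · simp only [LinearMap.sub_apply, LinearMap.comp_apply, LinearMap.add_apply,
      LinearMap.smul_apply, if_neg hmn, LinearMap.zero_apply] at h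
    rw [if_neg hmn, add_assoc, ← h]
    abel

theorem prim_pos (hL : IsVir c L) (x : N) (h1 : L 1 x = 0) (h2 : L 2 x = 0) (k : ℕ) (hk : 0 < k) :
    L k x = 0 := by
  induction k using Nat.strong_induction_on with
  | _ k ih =>
    rcases Nat.lt_or_ge 2 k with h | h
    · obtain ⟨j, rfl⟩ : ∃ j, k = j + 1 := ⟨k - 1, by omega⟩
      have hj : 2 ≤ j := by omega
      have hx := ih j (by omega) (by omega)
      have hv := kv18_vir hL (j : ℤ) 1 x
      rw [h1, hx, map_zero, map_zero, if_neg (by omega), zero_add, add_zero] at hv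
      have hne : (((j : ℤ) : ℂ) - ((1 : ℤ) : ℂ)) ≠ 0 := by
        intro h0
        have : ((j : ℂ)) = 1 := by
          have := sub_eq_zero.mp h0
          simpa using this
        have : j = 1 := by exact_mod_cast this
        omega
      have := (smul_eq_zero.mp hv.symm).resolve_left hne
      have hc : (((j + 1 : ℕ)) : ℤ) = (j : ℤ) + 1 := by push_cast; ring
      rw [hc]
      exact this
    · have : k = 1 ∨ k = 2 := by omega
      rcases this with rfl | rfl
      · simpa using h1
      · simpa using h2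

theorem Sw_neg (L : ℤ → N →ₗ[ℂ] N) (x : N) (m : ℤ) (hm : m < 0) : Sw L x m = ⊥ := by
  unfold Sw
  rw [Submodule.span_eq_bot]
  rintro y ⟨w, -, hs, -⟩
  exfalso
  omega

theorem Sw_zero (L : ℤ → N →ₗ[ℂ] N) (x : N) : Sw L x 0 = Submodule.span ℂ {x} := by
  unfold Sw
  congr 1
  ext y
  simp only [Set.mem_ofPred_eq, Set.mem_singleton_iff]
  constructor
  · rintro ⟨w, hw, hs, rfl⟩
    cases w with
    | nil => rfl
    | cons a w =>
      exfalso
      have := hw a (by simp)
      rw [List.sum_cons] at hs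
      omega
  · rintro rfl
    exact ⟨[], by intro a ha; simp at ha, by simp, rfl⟩

theorem wd_mem (L : ℤ → N →ₗ[ℂ] N) (x : N) (w : List ℕ) (hw : Pw w) : wd L w x ∈ Sw L x w.sum := by
  exact Submodule.subset_span ⟨w, hw, rfl, rfl⟩

theorem kv18_cons (L : ℤ → N →ₗ[ℂ] N) (x : N) (a : ℕ) (ha : 0 < a) (m : ℤ) (y : N)
    (hy : y ∈ Sw L x m) : L (-(a : ℤ)) y ∈ Sw L x (m + a) := by
  unfold Sw at hy
  induction hy using Submodule.span_induction with
  | mem y hy =>
    obtain ⟨w, hw, hs, rfl⟩ := hy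
    have : L (-(a : ℤ)) (wd L w x) = wd L (a :: w) x := rfl
    rw [this]
    refine Submodule.subset_span ⟨a :: w, ?_, ?_, rfl⟩
    · intro b hb
      rcases List.mem_cons.mp hb with rfl | hb
      · exact ha
      · exact hw b hb
    · have e : ((((a :: w).sum : ℕ)) : ℤ) = (w.sum : ℤ) + a := by
        rw [List.sum_cons, Nat.cast_add]; ring
      rw [e, hs]
  | zero => rw [map_zero]; exact Submodule.zero_mem _
  | add y z _ _ h1 h2 => rw [map_add]; exact Submodule.add_mem _ h1 h2
  | smul r y _ h1 => rw [map_smul]; exact Submodule.smul_mem _ _ h1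

theorem kv18_word (hL : IsVir c L) (x : N) (h : ℂ) (h0 : L 0 x = h • x)
    (hx : ∀ k : ℕ, 0 < k → L k x = 0) (w : List ℕ) (hw : Pw w) :
    ∀ k : ℤ, L k (wd L w x) ∈ Sw L x ((w.sum : ℤ) - k) := by
  induction w with
  | nil =>
    intro k
    have hwd : wd L [] x = x := rfl
    rw [hwd]
    rcases lt_trichotomy k 0 with hk | hk | hk
    · obtain ⟨a, rfl⟩ : ∃ a : ℕ, k = -(a : ℤ) := ⟨(-k).toNat, by omega⟩
      have := wd_mem L x [a] (by
        intro b hb
        have hb : b = a := by simpa using hb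
        omega)
      have e : (([] : List ℕ).sum : ℤ) - (-(a : ℤ)) = (([a] : List ℕ).sum : ℤ) := by simp
      rw [e]
      exact this
    · subst hk
      rw [h0]
      refine Submodule.smul_mem _ _ ?_
      have := wd_mem L x [] (by intro b hb; simp at hb)
      rw [hwd] at this
      simpa using this
    · obtain ⟨a, rfl⟩ : ∃ a : ℕ, k = (a : ℤ) := ⟨k.toNat, by omega⟩
      rw [hx a (by omega)]
      exact Submodule.zero_mem _
  | cons a w ih =>
    intro k
    have ha : 0 < a := hw a (by simp)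
    have hw' : Pw w := fun b hb => hw b (by simp [hb])
    have ih' := ih hw'
    have hwd : wd L (a :: w) x = L (-(a : ℤ)) (wd L w x) := rfl
    rw [hwd, kv18_vir hL k (-(a : ℤ)) (wd L w x)]
    have hs : (((a :: w).sum : ℕ) : ℤ) = (w.sum : ℤ) + a := by
      rw [List.sum_cons, Nat.cast_add]; ring
    rw [hs]
    refine Submodule.add_mem _ (Submodule.add_mem _ ?_ ?_) ?_
    · have := kv18_cons L x a ha _ _ (ih' k)
      have e : (w.sum : ℤ) + a - k = (w.sum : ℤ) - k + a := by ring
      rw [e]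
      exact this
    · refine Submodule.smul_mem _ _ ?_
      have := ih' (k + -(a : ℤ))
      have e : (w.sum : ℤ) + a - k = (w.sum : ℤ) - (k + -(a : ℤ)) := by ring
      rw [e]
      exact this
    · split_ifs with hk
      · refine Submodule.smul_mem _ _ ?_
        have e : (w.sum : ℤ) + a - k = (w.sum : ℤ) := by omega
        rw [e]
        exact wd_mem L x w hw'
      · exact Submodule.zero_mem _

theorem Sw_L (hL : IsVir c L) (x : N) (h : ℂ) (h0 : L 0 x = h • x)
    (hx : ∀ k : ℕ, 0 < k → L k x = 0) (k m : ℤ) (y : N) (hy : y ∈ Sw L x m) :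
    L k y ∈ Sw L x (m - k) := by
  unfold Sw at hy
  induction hy using Submodule.span_induction with
  | mem y hy =>
    obtain ⟨w, hw, hs, rfl⟩ := hy
    rw [← hs]
    exact kv18_word hL x h h0 hx w hw k
  | zero => rw [map_zero]; exact Submodule.zero_mem _
  | add y z _ _ h1 h2 => rw [map_add]; exact Submodule.add_mem _ h1 h2
  | smul r y _ h1 => rw [map_smul]; exact Submodule.smul_mem _ _ h1

theorem wu_mem (hL : IsVir c L) (x : N) (h : ℂ) (h0 : L 0 x = h • x)
    (hx : ∀ k : ℕ, 0 < k → L k x = 0) (m : ℤ) (w : List ℕ) (y : N) (hy : y ∈ Sw L x m) :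
    wu L w y ∈ Sw L x (m - w.sum) := by
  induction w with
  | nil =>
    have : wu L [] y = y := rfl
    rw [this]
    simpa using hy
  | cons a w ih =>
    have : wu L (a :: w) y = L (a : ℤ) (wu L w y) := rfl
    rw [this]
    have h' := Sw_L hL x h h0 hx (a : ℤ) _ _ ih
    have e : m - (((a :: w).sum : ℕ) : ℤ) = m - (w.sum : ℤ) - a := by
      rw [List.sum_cons, Nat.cast_add]; ring
    rw [e]
    exact h'

/-- more lowering than raising gives zero -/
theorem wu_wd_zero (hL : IsVir c L) (x : N) (h : ℂ) (h0 : L 0 x = h • x)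
    (hx : ∀ k : ℕ, 0 < k → L k x = 0) (w w' : List ℕ) (hw : Pw w) (hs : w.sum < w'.sum) :
    wu L w' (wd L w x) = 0 := by
  have h1 := wu_mem hL x h h0 hx _ w' _ (wd_mem L x w hw)
  rw [Sw_neg L x _ (by omega)] at h1
  exact (Submodule.mem_bot ℂ).mp h1

end

end WPQ.KV
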