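import Pool.Agent.WPQ.KK2
import Pool.Agent.WPQ.KV18

/-! [WPQ-KK3] Three point functions: words in the Virasoro operators.

Plan.  `cst_word`: induction on `w`.  `w = b :: w'`, `y = wd L w' x`, `wt y = hx + w'.sum`
(`L(0) y = (hx + w'.sum) y`, from `LB_vir`: `[L(0), L(-b)] = b L(-b)`).  `LB_mode` at `k = -b`:
`U_s L(-b) y = L(-b) U_s y - ((hU-1)(1-b) - s) U_{s-b} y`; the first term is killed by `cst δ`.  So
`cst (U_s L(-b) y) = ((hU-1)(b-1) + s) cst (U_{s-b} y)`.  By `LB_mode` at `k = 0` and `cst_LB_zero`: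
`hw cst (U_{s-b} y) = (hU - 1 - (s-b) + hx + w'.sum) cst (U_{s-b} y)`, so
`((hU-1)(b-1) + s) cst (U_{s-b} y) = (hx + w'.sum + b hU - hw) cst (U_{s-b} y)`.  Now the induction
hypothesis (for `s - b`).  `cst_SS`: sum over the partitions (`KV.pl_pos`, `KV.pl_sum`). -/

namespace WPQ

open MvPolynomial AF

noncomputable section

variable {ι : Type} [Fintype ι] [DecidableEq ι] {A : Matrix ι ι ℤ}

theorem kk3_L0 {N : Type} [AddCommGroup N] [Module ℂ N] {c : ℂ} {L : ℤ → N →ₗ[ℂ] N}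
    (hL : KV.IsVir c L) (x : N) (h : ℂ) (h0 : L 0 x = h • x) (w : List ℕ) :
    L 0 (KV.wd L w x) = (h + (w.sum : ℂ)) • KV.wd L w x := by
  induction w with
  | nil =>
    show L 0 x = _ • x
    rw [h0, List.sum_nil, Nat.cast_zero, add_zero]
  | cons a w ih =>
    have e : KV.wd L (a :: w) x = L (-(a : ℤ)) (KV.wd L w x) := rfl
    rw [e, KV.kv18_vir hL 0 (-(a : ℤ)) (KV.wd L w x), ih, map_smul, zero_add]
    have e2 : (if -(a : ℤ) = 0 then (c / 12 * (((0 : ℤ) : ℂ) ^ 3 - ((0 : ℤ) : ℂ))) •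
        KV.wd L w x else 0) = 0 := by
      split_ifs
      · simp
      · rfl
    rw [e2, add_zero, ← add_smul, List.sum_cons]
    congr 1
    push_cast
    ring

theorem cst_word (hA : IsADE A) (ε : Cocycle A 1) (a : ι → ℂ) (δ : ι → ℤ) (hw hx hU : ℂ)
    (hhw : hw = 1 / 2 * form A 1 (toC δ) (toC δ) - form A 1 a (toC δ)) (U x : VL ι)
    (hUp : SV.IsPrim (LB A a) hU U) (hx0 : LB A a 0 x = hx • x) (w : List ℕ) (hpw : KV.Pw w)
    (s : ℤ) :
    cst δ (mode ε U s (KV.wd (LB A a) w x)) =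
      SV.fw hx hU hw w * cst δ (mode ε U (s - w.sum) x) := by
  induction w generalizing s with
  | nil =>
    show cst δ (mode ε U s x) = SV.fw hx hU hw [] * cst δ (mode ε U (s - (([] : List ℕ).sum : ℕ)) x)
    rw [List.sum_nil, Nat.cast_zero, sub_zero]
    show _ = 1 * _
    rw [one_mul]
  | cons b w ih =>
    have hb : 0 < b := hpw b (List.mem_cons_self ..)
    have hpw' : KV.Pw w := fun z hz => hpw z (List.mem_cons_of_mem _ hz)
    have e : KV.wd (LB A a) (b :: w) x = LB A a (-(b : ℤ)) (KV.wd (LB A a) w x) := rfl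
    set y := KV.wd (LB A a) w x with hy
    have hy0 : LB A a 0 y = (hx + (w.sum : ℂ)) • y := kk3_L0 (LB_vir hA a) x hx hx0 w
    have h1 := congrArg (cst δ) (LinearMap.congr_fun (LB_mode hA ε a U hU hUp (-(b : ℤ)) s) y)
    rw [LinearMap.sub_apply, LinearMap.comp_apply, LinearMap.comp_apply, map_sub,
      cst_LB_neg a δ b hb, LinearMap.smul_apply, map_smul, smul_eq_mul, ← sub_eq_add_neg s] at h1
    have h2 := congrArg (cst δ) (LinearMap.congr_fun (LB_mode hA ε a U hU hUp 0 (s - b)) y)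
    rw [LinearMap.sub_apply, LinearMap.comp_apply, LinearMap.comp_apply, map_sub, cst_LB_zero,
      hy0, map_smul, map_smul, LinearMap.smul_apply, map_smul, smul_eq_mul, smul_eq_mul, add_zero,
      ← hhw] at h2
    have h3 := ih hpw' (s - b)
    have e4 : s - ((b :: w).sum : ℕ) = s - b - (w.sum : ℕ) := by
      rw [List.sum_cons]
      push_cast
      ring
    have e5 : SV.fw hx hU hw (b :: w) = (hx + (w.sum : ℂ) + b * hU - hw) * SV.fw hx hU hw w := rfl
    rw [e, e4, e5, mul_assoc, ← h3]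
    simp only [Int.cast_neg, Int.cast_natCast, Int.cast_sub, Int.cast_zero] at h1 h2
    linear_combination -h1 + h2

theorem cst_SS (hA : IsADE A) (ε : Cocycle A 1) (a : ι → ℂ) (δ : ι → ℤ) (hw hx hU : ℂ)
    (hhw : hw = 1 / 2 * form A 1 (toC δ) (toC δ) - form A 1 a (toC δ)) (U x : VL ι)
    (hUp : SV.IsPrim (LB A a) hU U) (hx0 : LB A a 0 x = hx • x) {n : ℕ}
    (c : Nat.Partition n → ℂ) (s : ℤ) :
    cst δ (mode ε U s (SV.SS (LB A a) c x)) =
      SV.ff c hx hU hw * cst δ (mode ε U (s - n) x) := by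
  unfold SV.SS SV.ff
  rw [map_sum, map_sum, Finset.sum_mul]
  refine Finset.sum_congr rfl fun π _ => ?_
  rw [map_smul, map_smul, smul_eq_mul, cst_word hA ε a δ hw hx hU hhw U x hUp hx0 (KV.pl π)
    (KV.pl_pos π) s, KV.pl_sum, mul_assoc]

end

end WPQ
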