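import Pool.Agent.WPQ.KK3
import Pool.Agent.WPQ.SVM
import Pool.Agent.WPQ.FL7

/-! [WPQ-KK4] The exchange identity (K).

Plan.  WPQ_planC.md, C4.  `A = 2` on `Fin 3` (`kk4_A`), `p = 1`; `γ = (1,0,0)`, `γ' = (-k,1,0)`,
`k ≥ 1`; `⟨γ,γ'⟩ = -2k`, `⟨γ,γ⟩ = 2`, `⟨γ',γ'⟩ = 2k²+2`.  Choose `a : Fin 3 → ℂ` with `1 - 2a_1 = hx`,
`k²+1+2k a_1-2a_2 = hu`, `3 - 24(a_1²+a_2²+a_3²) = cc t` (square root in `ℂ`).  `x = e^γ`, `u = e^γ'`
(`single_prim`), `δ = γ+γ'`, `hw = hx + hu - 2k`, `φ = cst δ`.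
`S_prim`: `S_x = SS L c x`, `S_u = SS L c' u` are primary of weights `hx + n`, `hu + n'`.
`mode_skew` (VA3) with `φ` (`cst_transl`): `φ(u_j x) = -(-1)^j φ(x_j u)`, `j : ℕ`.
Take `s : ℕ`, `s = 2k-1+n+n'`.  `Φ = φ((S_u)_s (S_x))`.
(1) `cst_SS` with `U = S_u`: `Φ = ff c hx (hu+n') hw φ((S_u)_{s-n} x)`; skew, `cst_SS` (with `U = x`,
word part `S_u`), skew: `φ((S_u)_{s-n} x) = (-1)^{n'} ff c' hu hx hw φ(u_{s-n-n'} x)`.
(2) skew, `cst_SS` with `U = S_x`, skew, `cst_SS` with `U = u`: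
`Φ = (-1)^{n'} ff c' hu (hx+n) hw ff c hx hu hw φ(u_{s-n-n'} x)`.
`φ(u_{2k-1} x) = ε(γ',γ) ≠ 0` (`mode_single`, `expMode`, `vop` at index `0` on `1` is `1`).
So (K) holds for the infinitely many `hw = hx + hu - 2k`; both sides are polynomials in `hw`
(`fw`, `ff` are: prove `∃ P : Polynomial ℂ, ∀ hw, ff c a b hw = P.eval hw`), and
`Polynomial.eq_of_infinite_eval_eq`. -/

namespace WPQ.SV

open MvPolynomial KV

noncomputable section

/-- The lattice `√2 ℤ³`. -/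
def kk4_A : Matrix (Fin 3) (Fin 3) ℤ := fun i j => if i = j then 2 else 0

theorem kk4_ade : IsADE kk4_A := by
  refine ⟨?_, ?_, ?_, ?_⟩
  · intro i j
    unfold kk4_A
    by_cases h : i = j
    · rw [if_pos h, if_pos h.symm]
    · rw [if_neg h, if_neg (Ne.symm h)]
  · intro i
    unfold kk4_A
    rw [if_pos rfl]
  · intro i j hij
    unfold kk4_A
    rw [if_neg hij]
    exact Or.inl rfl
  · intro c hc
    have e : ∑ i, ∑ j, c i * kk4_A i j * c j = ∑ i, 2 * c i ^ 2 := by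
      refine Finset.sum_congr rfl fun i _ => ?_
      rw [Finset.sum_eq_single i]
      · unfold kk4_A
        rw [if_pos rfl]
        ring
      · intro j _ hj
        unfold kk4_A
        rw [if_neg (Ne.symm hj)]
        ring
      · intro h
        exact absurd (Finset.mem_univ i) h
    rw [e]
    obtain ⟨i, hi⟩ := Function.ne_iff.1 hc
    refine Finset.sum_pos' (fun j _ => by positivity) ⟨i, Finset.mem_univ i, ?_⟩
    have : c i ≠ 0 := hi
    positivity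

theorem kk4_form (v w : Fin 3 → ℂ) :
    form kk4_A 1 v w = 2 * (v 0 * w 0 + v 1 * w 1 + v 2 * w 2) := by
  unfold form kk4_A
  simp only [Fin.sum_univ_three]
  simp
  ring

theorem kk4_formZ (v w : Fin 3 → ℤ) :
    formZ kk4_A 1 v w = 2 * (v 0 * w 0 + v 1 * w 1 + v 2 * w 2) := by
  unfold formZ kk4_A
  simp only [Fin.sum_univ_three]
  simp
  ring

theorem kk4_exp {ι : Type} [Fintype ι] [DecidableEq ι] {A : Matrix ι ι ℤ} (ε : Cocycle A 1)
    (γ η : ι → ℤ) (n : ℤ) (h : -n - 1 - formZ A 1 γ η = 0) :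
    expMode ε γ n (Finsupp.single η 1) = Finsupp.single (γ + η) (C ((ε.ε γ η : ℤ) : ℂ)) := by
  rw [expMode, Finsupp.lsum_single, LinearMap.comp_apply, LinearMap.smul_apply,
    Finsupp.lsingle_apply, h, vop_one]
  congr 1
  have e : expCoeffZ (toC γ) 0 = 1 := by
    unfold expCoeffZ
    rw [if_neg (lt_irrefl _), Int.toNat_zero, expCoeff]
  rw [e, smul_eq_C_mul, mul_one]

theorem kk4_fw (hx hu : ℂ) (w : List ℕ) :
    ∃ P : Polynomial ℂ, ∀ hv : ℂ, fw hx hu hv w = P.eval hv := by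
  induction w with
  | nil => exact ⟨1, fun hv => by rw [Polynomial.eval_one]; rfl⟩
  | cons a w ih =>
    obtain ⟨P, hP⟩ := ih
    refine ⟨(Polynomial.C (hx + (w.sum : ℂ) + a * hu) - Polynomial.X) * P, fun hv => ?_⟩
    rw [Polynomial.eval_mul, Polynomial.eval_sub, Polynomial.eval_C, Polynomial.eval_X, ← hP]
    rfl

theorem kk4_ff {n : ℕ} (c : Nat.Partition n → ℂ) (hx hu : ℂ) :
    ∃ P : Polynomial ℂ, ∀ hv : ℂ, ff c hx hu hv = P.eval hv := by
  choose P hP using fun π : Nat.Partition n => kk4_fw hx hu (pl π)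
  refine ⟨∑ π, Polynomial.C (c π) * P π, fun hv => ?_⟩
  unfold ff
  rw [Polynomial.eval_finsetSum]
  refine Finset.sum_congr rfl fun π _ => ?_
  rw [Polynomial.eval_mul, Polynomial.eval_C, hP]

/-- The abstract form of the computation. -/
theorem kk4_abs {A : Matrix (Fin 3) (Fin 3) ℤ} (hA : IsADE A) (ε : Cocycle A 1) (a : Fin 3 → ℂ)
    (δ : Fin 3 → ℤ) {hx hu hw : ℂ} {n n' : ℕ} (c : Nat.Partition n → ℂ)
    (c' : Nat.Partition n' → ℂ) (x u : VL (Fin 3)) (hxp : IsPrim (LB A a) hx x)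
    (hup : IsPrim (LB A a) hu u) (hSx : IsPrim (LB A a) (hx + n) (SS (LB A a) c x))
    (hSu : IsPrim (LB A a) (hu + n') (SS (LB A a) c' u))
    (hhw : hw = 1 / 2 * form A 1 (toC δ) (toC δ) - form A 1 a (toC δ)) (m : ℕ)
    (h0 : cst δ (mode ε u (m : ℤ) x) ≠ 0) :
    ff c hx (hu + n') hw * ff c' hu hx hw = ff c hx hu hw * ff c' hu (hx + n) hw := by
  have skew : ∀ (y z : VL (Fin 3)) (k : ℕ),
      cst δ (mode ε y k z) = -(-1) ^ k * cst δ (mode ε z k y) := fun y z k =>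
    mode_skew hA le_rfl ε y z (cst δ) (cst_transl δ) k
  have e1 : (((m + n + n' : ℕ) : ℤ)) - (n : ℤ) = ((m + n' : ℕ) : ℤ) := by push_cast; ring
  have e2 : (((m + n' : ℕ) : ℤ)) - (n' : ℤ) = ((m : ℕ) : ℤ) := by push_cast; ring
  have e3 : (((m + n + n' : ℕ) : ℤ)) - (n' : ℤ) = ((m + n : ℕ) : ℤ) := by push_cast; ring
  have e4 : (((m + n : ℕ) : ℤ)) - (n : ℤ) = ((m : ℕ) : ℤ) := by push_cast; ring
  have h1 : cst δ (mode ε (SS (LB A a) c' u) ((m + n + n' : ℕ) : ℤ) (SS (LB A a) c x)) =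
      ff c hx (hu + n') hw * (-(-1) ^ (m + n') * (ff c' hu hx hw *
        (-(-1) ^ m * cst δ (mode ε u (m : ℤ) x)))) := by
    rw [cst_SS hA ε a δ hw hx (hu + n') hhw _ x hSu hxp.1 c, e1, skew _ x (m + n'),
      cst_SS hA ε a δ hw hu hx hhw x u hxp hup.1 c', e2, skew x u m]
  have h2 : cst δ (mode ε (SS (LB A a) c' u) ((m + n + n' : ℕ) : ℤ) (SS (LB A a) c x)) =
      -(-1) ^ (m + n + n') * (ff c' hu (hx + n) hw * (-(-1) ^ (m + n) * (ff c hx hu hw *
        cst δ (mode ε u (m : ℤ) x)))) := by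
    rw [skew _ _ (m + n + n'), cst_SS hA ε a δ hw hu (hx + n) hhw _ u hSx hup.1 c', e3,
      skew _ u (m + n), cst_SS hA ε a δ hw hx hu hhw u x hup hxp.1 c, e4]
  rw [h1] at h2
  have hm : ((-1 : ℂ) ^ m) * ((-1 : ℂ) ^ m) = 1 := by
    rw [← mul_pow]; norm_num
  have hn : ((-1 : ℂ) ^ n) * ((-1 : ℂ) ^ n) = 1 := by
    rw [← mul_pow]; norm_num
  have hn' : ((-1 : ℂ) ^ n') * ((-1 : ℂ) ^ n') = 1 := by
    rw [← mul_pow]; norm_num
  simp only [pow_add] at h2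
  have h3 : (ff c hx (hu + n') hw * ff c' hu hx hw - ff c hx hu hw * ff c' hu (hx + n) hw) *
      cst δ (mode ε u (m : ℤ) x) = 0 := by
    generalize cst δ (mode ε u (m : ℤ) x) = z at h2
    generalize ((-1 : ℂ) ^ m) = M at *
    generalize ((-1 : ℂ) ^ n) = P at *
    generalize ((-1 : ℂ) ^ n') = Q at *
    generalize ff c hx (hu + n') hw = f1 at *
    generalize ff c' hu hx hw = f2 at *
    generalize ff c hx hu hw = f3 at *
    generalize ff c' hu (hx + n) hw = f4 at *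
    have h5 : M * M * Q * (f1 * f2 * z) = M * M * (P * P) * Q * (f3 * f4 * z) := by
      linear_combination h2
    rw [hm, hn, one_mul, one_mul] at h5
    linear_combination Q * h5 - (f1 * f2 * z - f3 * f4 * z) * hn'
  exact sub_eq_zero.1 ((mul_eq_zero.1 h3).resolve_right h0)

/-- (K) at the special values of `hw`. -/
theorem kk4_special {t : ℂ} (ht : Irr t) {r s n : ℕ} (hr : 1 ≤ r) (hs : 1 ≤ s)
    {c : Nat.Partition n → ℂ} (hc : IsS t r s n c) {r' s' n' : ℕ} (hr' : 1 ≤ r') (hs' : 1 ≤ s')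
    {c' : Nat.Partition n' → ℂ} (hc' : IsS t r' s' n' c') (k : ℕ) (hk : 1 ≤ k) (hw : ℂ)
    (hhw : hw = hrs t r s + hrs t r' s' - 2 * k) :
    ff c (hrs t r s) (hrs t r' s' + n') hw * ff c' (hrs t r' s') (hrs t r s) hw =
      ff c (hrs t r s) (hrs t r' s') hw * ff c' (hrs t r' s') (hrs t r s + n) hw := by
  obtain ⟨ε⟩ := cocycle_exists kk4_A kk4_ade 1
  set hx : ℂ := hrs t r s with hhx
  set hu : ℂ := hrs t r' s' with hhu
  set a0 : ℂ := (1 - hx) / 2 with ha0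
  set a1 : ℂ := ((k : ℂ) ^ 2 + 1 + 2 * k * a0 - hu) / 2 with ha1
  obtain ⟨a2, ha2⟩ := IsAlgClosed.exists_pow_nat_eq ((3 - KV.cc t) / 24 - a0 ^ 2 - a1 ^ 2)
    (n := 2) (by norm_num)
  set a : Fin 3 → ℂ := ![a0, a1, a2] with ha
  set γ : Fin 3 → ℤ := ![1, 0, 0] with hγ
  set γ' : Fin 3 → ℤ := ![-(k : ℤ), 1, 0] with hγ'
  have hvir : IsVir (KV.cc t) (LB kk4_A a) := by
    have h := LB_vir kk4_ade a
    rw [kk4_form] at h
    have e : ((Fintype.card (Fin 3) : ℂ) -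
        12 * (2 * (a 0 * a 0 + a 1 * a 1 + a 2 * a 2))) = KV.cc t := by
      rw [Fintype.card_fin]
      have b0 : a 0 = a0 := rfl
      have b1 : a 1 = a1 := rfl
      have b2 : a 2 = a2 := rfl
      rw [b0, b1, b2]
      push_cast
      linear_combination (-24) * ha2
    rw [e] at h
    exact h
  have hxp : IsPrim (LB kk4_A a) hx (Finsupp.single γ 1) := by
    have h := single_prim kk4_ade a γ
    have e : 1 / 2 * form kk4_A 1 (toC γ) (toC γ) - form kk4_A 1 a (toC γ) = hx := by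
      rw [kk4_form, kk4_form]
      simp [toC, ha, hγ]
      rw [ha0]
      ring
    rw [e] at h
    exact h
  have hup : IsPrim (LB kk4_A a) hu (Finsupp.single γ' 1) := by
    have h := single_prim kk4_ade a γ'
    have e : 1 / 2 * form kk4_A 1 (toC γ') (toC γ') - form kk4_A 1 a (toC γ') = hu := by
      rw [kk4_form, kk4_form]
      simp [toC, ha, hγ']
      rw [ha1]
      ring
    rw [e] at h
    exact h
  refine kk4_abs kk4_ade ε a (γ' + γ) c c' (Finsupp.single γ 1) (Finsupp.single γ' 1) hxp hup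
    (S_prim ht hr hs hc _ hvir _ hxp) (S_prim ht hr' hs' hc' _ hvir _ hup) ?_ (2 * k - 1) ?_
  · rw [hhw, kk4_form, kk4_form]
    simp [toC, ha, hγ, hγ']
    rw [ha1, ha0]
    ring
  · rw [mode_single kk4_ade le_rfl, kk4_exp]
    · show constantCoeff ((Finsupp.single (γ' + γ) (C ((ε.ε γ' γ : ℤ) : ℂ)) : VL (Fin 3))
        (γ' + γ)) ≠ 0
      rw [Finsupp.single_eq_same, constantCoeff_C]
      exact Int.cast_ne_zero.2 (Units.ne_zero _)
    · rw [kk4_formZ]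
      simp [hγ, hγ']
      omega

theorem kk4_main {t : ℂ} (ht : Irr t) {r s n : ℕ} (hr : 1 ≤ r) (hs : 1 ≤ s)
    {c : Nat.Partition n → ℂ} (hc : IsS t r s n c) {r' s' n' : ℕ} (hr' : 1 ≤ r') (hs' : 1 ≤ s')
    {c' : Nat.Partition n' → ℂ} (hc' : IsS t r' s' n' c') (hw : ℂ) :
    ff c (hrs t r s) (hrs t r' s' + n') hw * ff c' (hrs t r' s') (hrs t r s) hw =
      ff c (hrs t r s) (hrs t r' s') hw * ff c' (hrs t r' s') (hrs t r s + n) hw := by
  obtain ⟨P1, h1⟩ := kk4_ff c (hrs t r s) (hrs t r' s' + n')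
  obtain ⟨P2, h2⟩ := kk4_ff c' (hrs t r' s') (hrs t r s)
  obtain ⟨P3, h3⟩ := kk4_ff c (hrs t r s) (hrs t r' s')
  obtain ⟨P4, h4⟩ := kk4_ff c' (hrs t r' s') (hrs t r s + n)
  have key : P1 * P2 = P3 * P4 := by
    refine Polynomial.eq_of_infinite_eval_eq _ _ ?_
    refine Set.Infinite.mono (s := Set.range fun k : ℕ =>
      hrs t r s + hrs t r' s' - 2 * ((k + 1 : ℕ) : ℂ)) ?_ (Set.infinite_range_of_injective ?_)
    · rintro z ⟨k, rfl⟩
      have h := kk4_special ht hr hs hc hr' hs' hc' (k + 1) (by omega) _ rfl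
      show Polynomial.eval _ _ = Polynomial.eval _ _
      rw [Polynomial.eval_mul, Polynomial.eval_mul, ← h1, ← h2, ← h3, ← h4]
      exact h
    · intro k k' hkk
      have h5 : ((k + 1 : ℕ) : ℂ) = ((k' + 1 : ℕ) : ℂ) := by
        have h6 : hrs t r s + hrs t r' s' - 2 * ((k + 1 : ℕ) : ℂ) =
          hrs t r s + hrs t r' s' - 2 * ((k' + 1 : ℕ) : ℂ) := hkk
        linear_combination (-1 / 2 : ℂ) * h6
      have h6 : k + 1 = k' + 1 := Nat.cast_injective h5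
      omega
  rw [h1, h2, h3, h4, ← Polynomial.eval_mul, ← Polynomial.eval_mul, key]

end

end WPQ.SV
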