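import Pool.Agent.WPQ.KND
import Pool.Agent.WPQ.FW8

/-! [WPQ-KN1] The transpose of `L(k)` for `diagPair`.

Plan.  `diagPair` is bilinear and symmetric, `diagPair (X s * f) g = diagPair f (pderiv s g)`
(coefficients: `(m + e_s)! = (m_s + 1) m!`, `coeff m (pderiv s g) = (m_s + 1) coeff (m + e_s) g`), hence
by symmetry `diagPair (pderiv s f) g = diagPair f (X s * g)`.
`lhat`: on monomials in `x` (induction `x = 1`, `X s * x`, linear) or by writing the derivation
`δ = ∑ (y+1) X(i,y) ∂_(i,y+k)` (finite on a given `g`) and its transpose `∑ (y+1) ξ_(i,y+k) ∂/∂ξ_(i,y)`.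
Induction version: for `x = 1` all terms of `Lop` have constant term given by the linear and
quadratic parts (`diagPair 1 h = constantCoeff h`; the derivation `δ` has image without constant term);
for `X s * x`: `diagPair (X s * x) (L g) = diagPair x (∂_s (L g)) = diagPair x (L ∂_s g) +
diagPair x ([∂_s, δ] g)`, `[∂_(i,y), δ_k] = (y+1) ∂_(i,y+k)`. -/

namespace WPQ.KN

open MvPolynomial

noncomputable section

variable {ι : Type} [Fintype ι] [DecidableEq ι]

omit [Fintype ι] [DecidableEq ι] in
theorem kn1_S {f g : Fock ι} (S : Finset ((ι × ℕ) →₀ ℕ)) (hS : f.support ⊆ S) :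
    diagPair f g = ∑ m ∈ S, coeff m f * coeff m g * m.prod fun _ e => (e.factorial : ℂ) := by
  unfold diagPair
  refine Finset.sum_subset hS fun m _ hm => ?_
  rw [notMem_support_iff.1 hm, zero_mul, zero_mul]

theorem diagPair_add_left (f f' g : Fock ι) :
    diagPair (f + f') g = diagPair f g + diagPair f' g := by
  obtain ⟨S, hS⟩ : ∃ S : Finset ((ι × ℕ) →₀ ℕ), S = f.support ∪ f'.support ∪ (f + f').support :=
    ⟨_, rfl⟩
  rw [kn1_S (f := f) S (by rw [hS]; exact fun x hx => by simp only [Finset.mem_union]; tauto),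
    kn1_S (f := f') S (by rw [hS]; exact fun x hx => by simp only [Finset.mem_union]; tauto),
    kn1_S (f := f + f') S (by rw [hS]; exact fun x hx => by simp only [Finset.mem_union]; tauto),
    ← Finset.sum_add_distrib]
  refine Finset.sum_congr rfl fun m _ => ?_
  rw [coeff_add]
  ring

theorem diagPair_add_right (f g g' : Fock ι) :
    diagPair f (g + g') = diagPair f g + diagPair f g' := by
  unfold diagPair
  rw [← Finset.sum_add_distrib]
  refine Finset.sum_congr rfl fun m _ => ?_
  rw [coeff_add]
  ring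

theorem diagPair_smul_left (c : ℂ) (f g : Fock ι) : diagPair (c • f) g = c * diagPair f g := by
  rw [kn1_S (f := c • f) f.support support_smul]
  unfold diagPair
  rw [Finset.mul_sum]
  refine Finset.sum_congr rfl fun m _ => ?_
  rw [coeff_smul, smul_eq_mul]
  ring

theorem diagPair_smul_right (c : ℂ) (f g : Fock ι) : diagPair f (c • g) = c * diagPair f g := by
  unfold diagPair
  rw [Finset.mul_sum]
  refine Finset.sum_congr rfl fun m _ => ?_
  rw [coeff_smul, smul_eq_mul]
  ring

theorem diagPair_symm (f g : Fock ι) : diagPair f g = diagPair g f := by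
  rw [kn1_S (f := f) (f.support ∪ g.support) Finset.subset_union_left,
    kn1_S (f := g) (f.support ∪ g.support) Finset.subset_union_right]
  refine Finset.sum_congr rfl fun m _ => ?_
  ring

theorem diagPair_one (g : Fock ι) : diagPair 1 g = constantCoeff g := by
  have h : (1 : Fock ι).support ⊆ {0} := by
    have e : (1 : Fock ι) = monomial 0 1 := rfl
    rw [e]
    exact support_monomial_subset
  rw [kn1_S (f := 1) {0} h, Finset.sum_singleton, coeff_zero_one, Finsupp.prod_zero_index, one_mul,
    mul_one]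
  rfl

omit [Fintype ι] in
theorem kn1_mon (m : (ι × ℕ) →₀ ℕ) (a : ℂ) (g : Fock ι) :
    diagPair (monomial m a) g = a * coeff m g * m.prod fun _ e => (e.factorial : ℂ) := by
  rw [kn1_S (f := monomial m a) {m} support_monomial_subset, Finset.sum_singleton, coeff_monomial,
    if_pos rfl]

omit [Fintype ι] in
theorem kn1_fact (m : (ι × ℕ) →₀ ℕ) (s : ι × ℕ) :
    ((m + Finsupp.single s 1).prod fun _ e => (e.factorial : ℂ)) =
      ((m s : ℂ) + 1) * m.prod fun _ e => (e.factorial : ℂ) := by
  obtain ⟨S, hS⟩ : ∃ S : Finset (ι × ℕ), S = insert s (m.support ∪ (m + Finsupp.single s 1).support) :=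
    ⟨_, rfl⟩
  have hs : s ∈ S := by
    rw [hS]
    exact Finset.mem_insert_self _ _
  have h1 : m.support ⊆ S := by
    rw [hS]
    exact fun x hx => Finset.mem_insert_of_mem (Finset.mem_union_left _ hx)
  have h2 : (m + Finsupp.single s 1).support ⊆ S := by
    rw [hS]
    exact fun x hx => Finset.mem_insert_of_mem (Finset.mem_union_right _ hx)
  rw [Finsupp.prod_of_support_subset _ h1 _ (fun i _ => by simp),
    Finsupp.prod_of_support_subset _ h2 _ (fun i _ => by simp), ← Finset.mul_prod_erase S _ hs,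
    ← Finset.mul_prod_erase S (fun x => ((m x).factorial : ℂ)) hs]
  have e1 : (((m + Finsupp.single s 1 : (ι × ℕ) →₀ ℕ) s).factorial : ℂ) = ((m s : ℂ) + 1) * ((m s).factorial : ℂ) := by
    rw [Finsupp.add_apply, Finsupp.single_eq_same, Nat.factorial_succ]
    push_cast
    ring
  have e2 : ∏ x ∈ S.erase s, (((m + Finsupp.single s 1 : (ι × ℕ) →₀ ℕ) x).factorial : ℂ) =
      ∏ x ∈ S.erase s, ((m x).factorial : ℂ) := by
    refine Finset.prod_congr rfl fun x hx => ?_
    rw [Finsupp.add_apply, Finsupp.single_eq_of_ne (Finset.ne_of_mem_erase hx), add_zero]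
  rw [e1, e2]
  ring

theorem diagPair_X (s : ι × ℕ) (f g : Fock ι) : diagPair (X s * f) g = diagPair f (pderiv s g) := by
  induction f using MvPolynomial.induction_on' with
  | monomial m a =>
    have e1 : X s * monomial m a = monomial (m + Finsupp.single s 1) a := by
      rw [monomial_add_single, pow_one, mul_comm]
    rw [e1, kn1_mon, kn1_mon, coeff_pderiv, kn1_fact]
    ring
  | add p q hp hq =>
    rw [mul_add, diagPair_add_left, diagPair_add_left, hp, hq]

theorem diagPair_homog (f g : Fock ι) (d e : ℕ) (hf : FH f d) (hg : FH g e) (hde : d ≠ e) :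
    diagPair f g = 0 := by
  unfold diagPair
  refine Finset.sum_eq_zero fun m _ => ?_
  by_cases h1 : coeff m f = 0
  · rw [h1, zero_mul, zero_mul]
  · by_cases h2 : coeff m g = 0
    · rw [h2, mul_zero, zero_mul]
    · exact absurd ((hf h1).symm.trans (hg h2)) hde

theorem diagPair_nondeg (g : Fock ι) (d : ℕ) (hg : FH g d)
    (h : ∀ x : Fock ι, FH x d → diagPair x g = 0) : g = 0 := by
  ext m
  rw [coeff_zero]
  by_contra hm
  have h1 := h (monomial m 1) (isWeightedHomogeneous_monomial _ _ _ (hg hm))
  rw [kn1_mon, one_mul] at h1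
  rcases mul_eq_zero.1 h1 with h2 | h2
  · exact hm h2
  · unfold Finsupp.prod at h2
    rw [Finset.prod_eq_zero_iff] at h2
    obtain ⟨i, _, hi⟩ := h2
    have hi' : ((m i).factorial : ℂ) = 0 := hi
    exact Nat.factorial_ne_zero _ (by exact_mod_cast hi')

theorem kn1_sum_right {κ : Type} (S : Finset κ) (f : Fock ι) (g : κ → Fock ι) :
    diagPair f (∑ a ∈ S, g a) = ∑ a ∈ S, diagPair f (g a) := by
  classical
  induction S using Finset.induction_on with
  | empty =>
    rw [Finset.sum_empty, Finset.sum_empty]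
    have h := diagPair_smul_right 0 f (0 : Fock ι)
    rw [zero_smul, zero_mul] at h
    exact h
  | insert a S ha ih =>
    rw [Finset.sum_insert ha, Finset.sum_insert ha, diagPair_add_right, ih]

theorem kn1_sum_left {κ : Type} (S : Finset κ) (f : Fock ι) (g : κ → Fock ι) :
    diagPair (∑ a ∈ S, g a) f = ∑ a ∈ S, diagPair (g a) f := by
  rw [diagPair_symm, kn1_sum_right]
  exact Finset.sum_congr rfl fun a _ => diagPair_symm _ _

/-- the derivation part of `Lop` -/
def kn1_d (k : ℕ) : Derivation ℂ (Fock ι) (Fock ι) :=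
  mkDerivation ℂ fun x : ι × ℕ =>
    if k ≤ x.2 then ((x.2 : ℂ) + 1 - k) • (X (x.1, x.2 - k) : Fock ι) else 0

/-- the derivation part of `Lhat` -/
def kn1_e (k : ℕ) : Derivation ℂ (Fock ι) (Fock ι) :=
  mkDerivation ℂ fun x : ι × ℕ => ((x.2 : ℂ) + 1) • (X (x.1, x.2 + k) : Fock ι)

theorem kn1_cc (k : ℕ) (g : Fock ι) : constantCoeff (kn1_d k g) = 0 := by
  induction g using MvPolynomial.induction_on with
  | C a => 
    have : kn1_d k (C a : Fock ι) = 0 := derivation_C _ _
    rw [this, map_zero]
  | add p q hp hq => rw [map_add, map_add, hp, hq, add_zero]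
  | mul_X p t hp =>
    rw [Derivation.leibniz, map_add, smul_eq_mul, smul_eq_mul, map_mul, map_mul, hp, mul_zero,
      add_zero]
    have : constantCoeff (kn1_d k (X t : Fock ι)) = 0 := by
      unfold kn1_d
      rw [mkDerivation_X]
      split_ifs
      · rw [smul_eq_C_mul, map_mul, constantCoeff_X, mul_zero]
      · exact map_zero _
    rw [this, mul_zero]

theorem kn1_comm (k : ℕ) (s : ι × ℕ) (g : Fock ι) :
    pderiv s (kn1_d k g) = kn1_d k (pderiv s g) + ((s.2 : ℂ) + 1) • pderiv (s.1, s.2 + k) g := by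
  have h : ⁅(pderiv s : Derivation ℂ (Fock ι) (Fock ι)), kn1_d k⁆ =
      ((s.2 : ℂ) + 1) • (pderiv (s.1, s.2 + k) : Derivation ℂ (Fock ι) (Fock ι)) := by
    refine derivation_ext fun t => ?_
    rw [Derivation.commutator_apply]
    have h1 : kn1_d k (pderiv s (X t : Fock ι)) = 0 := by
      rw [pderiv_X]
      by_cases hst : s = t
      · subst hst
        rw [Pi.single_eq_same]
        exact Derivation.map_one_eq_zero _
      · rw [Pi.single_eq_of_ne (Ne.symm hst)]
        exact map_zero _
    rw [h1, sub_zero]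
    unfold kn1_d
    rw [mkDerivation_X]
    show _ = ((s.2 : ℂ) + 1) • pderiv (s.1, s.2 + k) (X t : Fock ι)
    by_cases hst : t = (s.1, s.2 + k)
    · subst hst
      rw [if_pos (by show k ≤ s.2 + k; omega), Derivation.map_smul, pderiv_X_self]
      have e : ((s.1, s.2 + k) : ι × ℕ).2 - k = s.2 := by
        show s.2 + k - k = s.2
        omega
      rw [e]
      show _ • pderiv s (X (s.1, s.2)) = _
      rw [show ((s.1, s.2) : ι × ℕ) = s from rfl, pderiv_X_self]
      refine congrArg₂ (· • ·) ?_ rfl
      show ((s.2 + k : ℕ) : ℂ) + 1 - k = s.2 + 1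
      push_cast
      ring
    · rw [pderiv_X_of_ne hst, smul_zero]
      split_ifs with hk
      · rw [Derivation.map_smul, pderiv_X_of_ne, smul_zero]
        intro h2
        apply hst
        rw [← h2]
        show t = (t.1, t.2 - k + k)
        rw [Nat.sub_add_cancel hk]
      · exact map_zero _
  have h2 := congrArg (fun D : Derivation ℂ (Fock ι) (Fock ι) => D g) h
  simp only [Derivation.commutator_apply, Derivation.smul_apply] at h2
  rw [← h2]
  abel

theorem kn1_der (x : Fock ι) (k : ℕ) (g : Fock ι) :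
    diagPair x (kn1_d k g) = diagPair (kn1_e k x) g := by
  induction x using MvPolynomial.induction_on generalizing g with
  | C a =>
    have h1 : kn1_e k (C a : Fock ι) = 0 := derivation_C _ _
    have h2 : (C a : Fock ι) = a • (1 : Fock ι) := by rw [smul_eq_C_mul, mul_one]
    have h3 : (0 : Fock ι) = (0 : ℂ) • (0 : Fock ι) := by rw [smul_zero]
    rw [h1, h2, diagPair_smul_left, diagPair_one, kn1_cc, mul_zero, h3, diagPair_smul_left,
      zero_mul]
  | add p q hp hq => rw [diagPair_add_left, hp, hq, map_add, diagPair_add_left]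
  | mul_X p t hp =>
    rw [mul_comm p (X t), diagPair_X, kn1_comm, diagPair_add_right, hp, Derivation.leibniz,
      diagPair_add_left, smul_eq_mul, smul_eq_mul, diagPair_X]
    refine congrArg₂ (· + ·) rfl ?_
    unfold kn1_e
    rw [mkDerivation_X, mul_smul_comm, diagPair_smul_left, diagPair_smul_right, mul_comm p,
      diagPair_X]

theorem lhat (A : Matrix ι ι ℤ) (p : ℕ) (s : ι → ℂ) (k : ℕ) (hk : 1 ≤ k) (x g : Fock ι) :
    diagPair x (Lop A p s k g) = diagPair (Lhat A p s k x) g := by
  have hk0 : (0 : ℤ) < (k : ℤ) := by omega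
  have hkn : ((k : ℤ)).toNat = k := Int.toNat_natCast k
  have hkc : (((k : ℤ)) : ℂ) = (k : ℂ) := by push_cast; rfl
  have e1 : Lop A p s (k : ℤ) g = kn1_d k g +
      ∑ i, form A p (Pi.single i 1) (s - ((k : ℂ) + 1) • bg A p) • pderiv (i, k - 1) g +
      (1 / 2 : ℂ) • ∑ n ∈ Finset.range (k - 1), ∑ i : ι,
        pderiv (i, n) (∑ j, form A p (Pi.single j 1) (bb i) • pderiv (j, k - n - 2) g) := by
    unfold Lop
    rw [if_pos hk0, hkn, hkc]
    simp only [LinearMap.add_apply, LinearMap.smul_apply, LinearMap.sum_apply,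
      LinearMap.comp_apply]
    refine congrArg₂ (· + ·) (congrArg₂ (· + ·) rfl ?_) ?_
    · unfold heis
      rw [if_neg (by omega), if_neg (by omega)]
      have e2 : ((k : ℤ) - 1).toNat = k - 1 := by omega
      rw [e2]
      simp only [LinearMap.sum_apply, LinearMap.smul_apply]
      rfl
    · refine congrArg₂ (· • ·) rfl (Finset.sum_congr rfl fun n hn => Finset.sum_congr rfl
        fun i _ => ?_)
      rw [Finset.mem_range] at hn
      show pderiv (i, n) (heis A p (bb i) ((k : ℤ) - ((n : ℤ) + 1)) 0 g) = _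
      unfold heis
      rw [if_neg (by omega), if_neg (by omega)]
      have e2 : ((k : ℤ) - ((n : ℤ) + 1) - 1).toNat = k - n - 2 := by omega
      rw [e2]
      simp only [LinearMap.sum_apply, LinearMap.smul_apply]
      rfl
  have e3 : Lhat A p s k x = kn1_e k x +
      ∑ i, form A p (bb i) (s - ((k : ℂ) + 1) • bg A p) • (X (i, k - 1) * x) +
      (1 / 2 : ℂ) • ∑ n ∈ Finset.range (k - 1), ∑ i : ι, ∑ j : ι,
        form A p (bb j) (bb i) • (X (j, k - n - 2) * (X (i, n) * x)) := by
    unfold Lhat
    rw [LinearMap.add_apply, LinearMap.mulLeft_apply, add_mul, add_assoc]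
    refine congrArg₂ (· + ·) rfl (congrArg₂ (· + ·) ?_ ?_)
    · rw [Finset.sum_mul]
      refine Finset.sum_congr rfl fun i _ => ?_
      rw [smul_eq_C_mul, mul_assoc]
    · rw [smul_eq_C_mul, mul_assoc]
      refine congrArg₂ (· * ·) rfl ?_
      rw [Finset.sum_mul]
      refine Finset.sum_congr rfl fun n _ => ?_
      rw [Finset.sum_mul]
      refine Finset.sum_congr rfl fun i _ => ?_
      rw [Finset.sum_mul]
      refine Finset.sum_congr rfl fun j _ => ?_
      rw [smul_eq_C_mul]
      ring
  rw [e1, e3]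
  simp only [diagPair_add_right, diagPair_add_left, diagPair_smul_right, diagPair_smul_left,
    kn1_sum_right, kn1_sum_left, map_sum, Derivation.map_smul, kn1_der x k g, diagPair_X]
  rfl

end

end WPQ.KN
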