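import Pool.Agent.WPQ.KND
import Pool.Agent.WPQ.FW8

/-! [WPQ-KN2] `Th` intertwines `Lhat` and `CI.Lop`.

Plan.  `Th ∘ derivation = vf k ∘ Th`: both sides are derivations over `Th`; on `X (i,m)`:
`∑_r y_r^(k+1) ∂_r p_{m+1}(y_i) = (m+1) p_{m+1+k}(y_i)`.  (Induction on polynomials:
`MvPolynomial.induction_on`, Leibniz for `CI.vf`.)
Multiplication parts: with `η = (Pr ..).η`,
`Th (mult) = -∑_i (⟨b_i,s⟩ - (k+1)(p-1)) p_k(y_i)/c_i + 1/2 ∑_{m+l=k; m,l≥1} ∑_{i,j} ⟨b_i,b_j⟩/(c_i c_j) p_m(y_i) p_l(y_j)`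
(`form_bg`, `form_bb`-computation `form (bb j) (bb i) = p * A j i`), and
`1/2 ∑_{m+l=k} ∑_{r,t} η_rt y_r^m y_t^l = 1/2 ∑_{r≠t} η_rt (hh r t k - y_r^k - y_t^k) + 1/2 ∑_r η_rr (k-1) y_r^k`.
The coefficient of `y_r^k` is `(k+1) D_r + κ_r` (`D_r = (p-1)/c_i + η_rr/2`,
`κ_r = -⟨b_i,s⟩/c_i - ∑_t η_rt`, `η_rr = 2p/c_i²`).  `hp`: `1 ≤ p`, `hA : IsADE A`. -/

namespace WPQ.KN

open MvPolynomial

noncomputable section

/-- The derivation `vf`. -/
def kn2_D {σ : Type} [Fintype σ] [DecidableEq σ] (k : ℕ) :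
    Derivation ℂ (MvPolynomial σ ℂ) (MvPolynomial σ ℂ) :=
  ∑ r, (X r ^ (k + 1) : MvPolynomial σ ℂ) • pderiv (R := ℂ) r

theorem kn2_sum {σ : Type} (t : Finset σ)
    (D : σ → Derivation ℂ (MvPolynomial σ ℂ) (MvPolynomial σ ℂ)) (f : MvPolynomial σ ℂ) :
    (∑ r ∈ t, D r) f = ∑ r ∈ t, D r f := by
  classical
  induction t using Finset.induction_on with
  | empty => simp
  | insert a t ha ih => rw [Finset.sum_insert ha, Finset.sum_insert ha, Derivation.add_apply, ih]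

theorem kn2_vf {σ : Type} [Fintype σ] [DecidableEq σ] (k : ℕ) (f : MvPolynomial σ ℂ) :
    CI.vf k f = kn2_D k f := by
  unfold CI.vf kn2_D
  rw [LinearMap.sum_apply, kn2_sum]
  rfl

theorem kn2_DX {σ : Type} [Fintype σ] [DecidableEq σ] (k : ℕ) (t : σ) :
    kn2_D k (X t : MvPolynomial σ ℂ) = X t ^ (k + 1) := by
  unfold kn2_D
  rw [kn2_sum, Finset.sum_eq_single t]
  · rw [Derivation.smul_apply, pderiv_X_self, smul_eq_mul, mul_one]
  · intro r _ hr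
    rw [Derivation.smul_apply, pderiv_X_of_ne (Ne.symm hr), smul_zero]
  · intro h
    exact absurd (Finset.mem_univ t) h

theorem kn2_DXpow {σ : Type} [Fintype σ] [DecidableEq σ] (k m : ℕ) (t : σ) :
    kn2_D k (X t ^ (m + 1) : MvPolynomial σ ℂ) = C ((m : ℂ) + 1) * X t ^ (m + k + 1) := by
  rw [Derivation.leibniz_pow, kn2_DX, Nat.add_sub_cancel, smul_eq_mul, ← pow_add, nsmul_eq_mul]
  have e : ((m + 1 : ℕ) : MvPolynomial σ ℂ) = C ((m : ℂ) + 1) := by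
    rw [map_add, map_natCast, map_one]
    push_cast
    ring
  rw [e]
  ring_nf

variable {ι : Type} [Fintype ι] [DecidableEq ι]

theorem kn2_pB (M : ι → ℕ) (i : ι) (k m : ℕ) :
    kn2_D k (pB M i (m + 1)) = C ((m : ℂ) + 1) * pB M i (m + k + 1) := by
  unfold pB
  rw [map_sum, Finset.mul_sum]
  exact Finset.sum_congr rfl fun r _ => kn2_DXpow k m _

theorem kn2_der (c : ι → ℂ) (M : ι → ℕ) (k : ℕ) (x : Fock ι) :
    Th c M ((mkDerivation ℂ fun x : ι × ℕ => ((x.2 : ℂ) + 1) • (X (x.1, x.2 + k) : Fock ι)) x) =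
      kn2_D k (Th c M x) := by
  induction x using MvPolynomial.induction_on with
  | C a =>
    rw [derivation_C, map_zero]
    have h : Th c M (C a) = C a := by
      unfold Th
      rw [aeval_C]
      rfl
    rw [h, derivation_C]
  | add f g hf hg =>
    rw [map_add, map_add, map_add, map_add, hf, hg]
  | mul_X f s hf =>
    rw [Derivation.leibniz, map_add, smul_eq_mul, smul_eq_mul, map_mul, map_mul, hf, map_mul,
      Derivation.leibniz, smul_eq_mul, smul_eq_mul, mkDerivation_X]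
    congr 2
    obtain ⟨i, m⟩ := s
    simp only
    rw [map_smul]
    unfold Th
    rw [aeval_X, aeval_X]
    simp only
    rw [← smul_eq_C_mul, ← smul_eq_C_mul, Derivation.map_smul, kn2_pB, smul_smul,
      ← smul_eq_C_mul, smul_smul]
    have e : m + k + 1 = m + 1 + k := by ring
    rw [mul_comm, e]

theorem kn2_form (A : Matrix ι ι ℤ) (p : ℕ) (i j : ι) :
    form A p (bb j) (bb i) = (p : ℂ) * (A j i : ℂ) := by
  unfold form bb
  congr 1
  rw [Finset.sum_eq_single j]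
  · rw [Finset.sum_eq_single i]
    · simp
    · intro t _ ht
      simp [ht]
    · intro h
      exact absurd (Finset.mem_univ _) h
  · intro t _ ht
    simp [ht]
  · intro h
    exact absurd (Finset.mem_univ _) h

omit [DecidableEq ι] in
theorem kn2_form_sub (A : Matrix ι ι ℤ) (p : ℕ) (ν η ξ : ι → ℂ) (a : ℂ) :
    form A p ν (η - a • ξ) = form A p ν η - a * form A p ν ξ := by
  unfold form
  have h : ∀ i j, ν i * (A i j : ℂ) * (η - a • ξ) j =
      ν i * (A i j : ℂ) * η j - a * (ν i * (A i j : ℂ) * ξ j) := by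
    intro i j
    simp only [Pi.sub_apply, Pi.smul_apply, smul_eq_mul]
    ring
  simp only [h, Finset.sum_sub_distrib, ← Finset.mul_sum]
  ring

/-- The inner part of `hh`. -/
def kn2_G {σ : Type} (r t : σ) (k : ℕ) : MvPolynomial σ ℂ :=
  ∑ n ∈ Finset.range (k - 1), X r ^ (n + 1) * X t ^ (k - 1 - n)

theorem kn2_hh {σ : Type} [Fintype σ] [DecidableEq σ] (r t : σ) (k : ℕ) (hk : 2 ≤ k) :
    kn2_G r t k = CI.hh r t k - X t ^ k - X r ^ k := by
  obtain ⟨m, rfl⟩ : ∃ m, k = m + 2 := ⟨k - 2, by omega⟩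
  unfold kn2_G CI.hh
  rw [Finset.sum_range_succ, Finset.sum_range_succ']
  simp only [pow_zero, one_mul, Nat.sub_self, mul_one, Nat.sub_zero]
  have h : ∀ n ∈ Finset.range (m + 1), (X r ^ (n + 1) * X t ^ (m + 2 - (n + 1)) :
      MvPolynomial σ ℂ) = X r ^ (n + 1) * X t ^ (m + 2 - 1 - n) := by
    intro n _
    congr 2
    omega
  rw [Finset.sum_congr rfl h]
  have e : m + 2 - 1 = m + 1 := by omega
  rw [e]
  ring

theorem kn2_hh_self {σ : Type} [Fintype σ] [DecidableEq σ] (r : σ) (k : ℕ) :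
    CI.hh r r k = C ((k : ℂ) + 1) * X r ^ k := by
  unfold CI.hh
  have h : ∀ n ∈ Finset.range (k + 1), (X r ^ n * X r ^ (k - n) : MvPolynomial σ ℂ) =
      X r ^ k := by
    intro n hn
    rw [← pow_add]
    congr 1
    have := Finset.mem_range.1 hn
    omega
  rw [Finset.sum_congr rfl h, Finset.sum_const, Finset.card_range, nsmul_eq_mul]
  congr 1
  rw [map_add, map_natCast, map_one]
  push_cast
  ring

/-- The algebraic identity for the multiplication parts. -/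
theorem kn2_alg {σ : Type} [Fintype σ] [DecidableEq σ] (η : σ → σ → ℂ) (a b : σ → ℂ)
    (hη : ∀ r t, η r t = η t r) (k : ℕ) (hk : 2 ≤ k)
    (hab : ∀ r, a r + (1 / 2) * (((k : ℂ) + 1) * η r r) - ∑ t, η r t = b r) :
    ∑ r, C (a r) * (X r ^ k : MvPolynomial σ ℂ) +
      C (1 / 2 : ℂ) * ∑ r, ∑ t, C (η r t) * kn2_G r t k =
    ∑ r, C (b r) * (X r ^ k : MvPolynomial σ ℂ) +
      C (1 / 2 : ℂ) * ∑ r, ∑ t ∈ Finset.univ.erase r, C (η r t) * CI.hh r t k := by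
  have h1 : ∀ r, ∑ t, C (η r t) * kn2_G r t k =
      ∑ t ∈ Finset.univ.erase r, C (η r t) * CI.hh r t k +
      C (((k : ℂ) + 1) * η r r) * X r ^ k - ∑ t, C (η r t) * X t ^ k -
        C (∑ t, η r t) * X r ^ k := by
    intro r
    have e1 : ∑ t, C (η r t) * kn2_G r t k = ∑ t, C (η r t) * CI.hh r t k -
        ∑ t, C (η r t) * X t ^ k - ∑ t, C (η r t) * X r ^ k := by
      rw [← Finset.sum_sub_distrib, ← Finset.sum_sub_distrib]
      refine Finset.sum_congr rfl fun t _ => ?_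
      rw [kn2_hh r t k hk]
      ring
    rw [e1, ← Finset.sum_erase_add _ _ (Finset.mem_univ r), kn2_hh_self, map_mul,
      map_sum, Finset.sum_mul]
    ring
  have h2 : ∑ r, ∑ t, C (η r t) * (X t ^ k : MvPolynomial σ ℂ) =
      ∑ r, C (∑ t, η r t) * X r ^ k := by
    rw [Finset.sum_comm]
    refine Finset.sum_congr rfl fun t _ => ?_
    rw [map_sum, Finset.sum_mul]
    refine Finset.sum_congr rfl fun r _ => ?_
    rw [hη]
  have h3 : ∑ r, C (b r) * (X r ^ k : MvPolynomial σ ℂ) = ∑ r, C (a r) * X r ^ k +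
      C (1 / 2 : ℂ) * ∑ r, C (((k : ℂ) + 1) * η r r) * X r ^ k - ∑ r, C (∑ t, η r t) * X r ^ k := by
    rw [Finset.mul_sum, ← Finset.sum_add_distrib, ← Finset.sum_sub_distrib]
    refine Finset.sum_congr rfl fun r _ => ?_
    rw [← hab r, C_sub, C_add, C_mul]
    ring
  have h4 : (C (1 / 2 : ℂ) : MvPolynomial σ ℂ) * 2 = 1 := by
    have : (2 : MvPolynomial σ ℂ) = C (2 : ℂ) := by
      rw [map_ofNat]
    rw [this, ← C_mul]
    norm_num
  rw [Finset.sum_congr rfl fun r _ => h1 r, Finset.sum_sub_distrib, Finset.sum_sub_distrib,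
    Finset.sum_add_distrib, h2, h3]
  linear_combination (-∑ r, C (∑ t, η r t) * (X r ^ k : MvPolynomial σ ℂ)) * h4

omit [Fintype ι] [DecidableEq ι] in
theorem kn2_ThC (c : ι → ℂ) (M : ι → ℕ) (a : ℂ) : Th c M (C a) = C a := by
  unfold Th
  rw [aeval_C]
  rfl

omit [Fintype ι] [DecidableEq ι] in
theorem kn2_ThX (c : ι → ℂ) (M : ι → ℕ) (i : ι) (n : ℕ) :
    Th c M (X (i, n)) = C (-(c i)⁻¹) * pB M i (n + 1) := by
  unfold Th
  rw [aeval_X]

omit [DecidableEq ι] in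
theorem kn2_S1 (c : ι → ℂ) (M : ι → ℕ) (k : ℕ) (hk : 2 ≤ k) (f : ι → ℂ) :
    Th c M (∑ i, C (f i) * (X (i, k - 1) : Fock ι)) =
      ∑ r : (Σ i, Fin (M i)), C (-(f r.1) / c r.1) * X r ^ k := by
  rw [map_sum, Fintype.sum_sigma]
  refine Finset.sum_congr rfl fun i _ => ?_
  rw [map_mul, kn2_ThC, kn2_ThX, Nat.sub_add_cancel (by omega)]
  unfold pB
  rw [Finset.mul_sum, Finset.mul_sum]
  refine Finset.sum_congr rfl fun r _ => ?_
  rw [← mul_assoc, ← C_mul]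
  congr 2
  ring

theorem kn2_S2 (A : Matrix ι ι ℤ) (hA : ∀ i j, A i j = A j i) (p : ℕ) (c : ι → ℂ) (M : ι → ℕ)
    (k : ℕ) :
    Th c M (∑ n ∈ Finset.range (k - 1), ∑ i, ∑ j,
        C (form A p (bb j) (bb i)) * (X (i, n) : Fock ι) * (X (j, k - n - 2) : Fock ι)) =
      ∑ r : (Σ i, Fin (M i)), ∑ t : (Σ i, Fin (M i)),
        C ((p : ℂ) * (A r.1 t.1 : ℂ) / (c r.1 * c t.1)) * kn2_G r t k := by
  have e1 : ∀ r t : (Σ i, Fin (M i)), (C ((p : ℂ) * (A r.1 t.1 : ℂ) / (c r.1 * c t.1)) *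
      kn2_G r t k : BB M) = ∑ n ∈ Finset.range (k - 1),
        C ((p : ℂ) * (A r.1 t.1 : ℂ) / (c r.1 * c t.1)) * (X r ^ (n + 1) * X t ^ (k - 1 - n)) := by
    intro r t
    unfold kn2_G
    rw [Finset.mul_sum]
  simp only [e1]
  have e2 : ∀ r : (Σ i, Fin (M i)), (∑ t : (Σ i, Fin (M i)), ∑ n ∈ Finset.range (k - 1),
        C ((p : ℂ) * (A r.1 t.1 : ℂ) / (c r.1 * c t.1)) *
          (X r ^ (n + 1) * X t ^ (k - 1 - n)) : BB M) =
      ∑ n ∈ Finset.range (k - 1), ∑ t : (Σ i, Fin (M i)),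
        C ((p : ℂ) * (A r.1 t.1 : ℂ) / (c r.1 * c t.1)) * (X r ^ (n + 1) * X t ^ (k - 1 - n)) :=
    fun r => Finset.sum_comm
  simp only [e2]
  have e2' : (∑ r : (Σ i, Fin (M i)), ∑ n ∈ Finset.range (k - 1), ∑ t : (Σ i, Fin (M i)),
        C ((p : ℂ) * (A r.1 t.1 : ℂ) / (c r.1 * c t.1)) *
          (X r ^ (n + 1) * X t ^ (k - 1 - n)) : BB M) =
      ∑ n ∈ Finset.range (k - 1), ∑ r : (Σ i, Fin (M i)), ∑ t : (Σ i, Fin (M i)),
        C ((p : ℂ) * (A r.1 t.1 : ℂ) / (c r.1 * c t.1)) * (X r ^ (n + 1) * X t ^ (k - 1 - n)) :=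
    Finset.sum_comm
  rw [e2', map_sum]
  refine Finset.sum_congr rfl fun n hn => ?_
  have hn' := Finset.mem_range.1 hn
  rw [map_sum, Fintype.sum_sigma]
  refine Finset.sum_congr rfl fun i _ => ?_
  simp only [Fintype.sum_sigma]
  have e2'' : (∑ r : Fin (M i), ∑ j, ∑ t : Fin (M j),
        C ((p : ℂ) * (A i j : ℂ) / (c i * c j)) *
          (X ⟨i, r⟩ ^ (n + 1) * X ⟨j, t⟩ ^ (k - 1 - n)) : BB M) =
      ∑ j, ∑ r : Fin (M i), ∑ t : Fin (M j), C ((p : ℂ) * (A i j : ℂ) / (c i * c j)) *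
          (X ⟨i, r⟩ ^ (n + 1) * X ⟨j, t⟩ ^ (k - 1 - n)) := Finset.sum_comm
  rw [e2'', map_sum]
  refine Finset.sum_congr rfl fun j _ => ?_
  rw [map_mul, map_mul, kn2_ThC, kn2_ThX, kn2_ThX, kn2_form, hA j i]
  have e3 : k - n - 2 + 1 = k - 1 - n := by omega
  rw [e3]
  have e4 : (C ((p : ℂ) * (A i j : ℂ)) * (C (-(c i)⁻¹) * pB M i (n + 1)) *
      (C (-(c j)⁻¹) * pB M j (k - 1 - n)) : BB M) =
      C ((p : ℂ) * (A i j : ℂ) / (c i * c j)) * (pB M i (n + 1) * pB M j (k - 1 - n)) := by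
    have e5 : (p : ℂ) * (A i j : ℂ) / (c i * c j) =
        (p : ℂ) * (A i j : ℂ) * (-(c i)⁻¹) * (-(c j)⁻¹) := by
      rw [div_eq_mul_inv, mul_inv]
      ring
    rw [e5]
    simp only [C_mul]
    ring
  rw [e4]
  unfold pB
  rw [Finset.sum_mul_sum, Finset.mul_sum]
  refine Finset.sum_congr rfl fun r _ => ?_
  rw [Finset.mul_sum]

theorem th_lhat (A : Matrix ι ι ℤ) (hA : IsADE A) (p : ℕ) (hp : 1 ≤ p) (s : ι → ℂ) (c : ι → ℂ)
    (hc : ∀ i, c i ≠ 0) (M : ι → ℕ) (k : ℕ) (hk : 2 ≤ k) (x : Fock ι) :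
    Th c M (Lhat A p s k x) = CI.Lop (Pr A p hA.symm s c M) k (Th c M x) := by
  unfold Lhat CI.Lop
  rw [LinearMap.add_apply, LinearMap.add_apply, LinearMap.mulLeft_apply, LinearMap.mulLeft_apply,
    map_add, map_mul, kn2_vf]
  have h1 : Th c M ((mkDerivation ℂ fun x : ι × ℕ =>
      ((x.2 : ℂ) + 1) • (X (x.1, x.2 + k) : Fock ι)).toLinearMap x) = kn2_D k (Th c M x) :=
    kn2_der c M k x
  rw [h1]
  congr 2
  rw [map_add, map_mul, kn2_ThC, kn2_S1 c M k hk (fun i => form A p (bb i)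
    (s - ((k : ℂ) + 1) • bg A p)), kn2_S2 A hA.symm p c M k]
  unfold CI.mul
  refine kn2_alg (fun r t : (Σ i, Fin (M i)) => (p : ℂ) * (A r.1 t.1 : ℂ) / (c r.1 * c t.1))
    (fun r => -(form A p (bb r.1) (s - ((k : ℂ) + 1) • bg A p)) / c r.1)
    (fun r => ((k : ℂ) + 1) * (Pr A p hA.symm s c M).D r + (Pr A p hA.symm s c M).κ r) ?_ k hk ?_
  · intro r t
    rw [hA.symm r.1 t.1, mul_comm (c r.1)]
  · intro r
    have hc' := hc r.1
    simp only [Pr]
    rw [kn2_form_sub, form_bg A hA p hp, hA.diag]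
    push_cast
    field_simp
    ring

end

end WPQ.KN
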