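import Pool.Agent.WPQ.KN1
import Pool.Agent.WPQ.FW2

/-! [WPQ-KN3] The symbols `Shat`.

Plan.  From `expCoeff_succ` (FW1): `(n+1) Shat (n+1) = ∑_{k ≤ n} c_i X (i,k) Shat (n-k)`.
`diagPair_Shat`: let `λ = lam i`; the operators `S_q = Sop (-λ) q` satisfy
`(q+1) S_{q+1} g = ∑_{k ≤ q} c_i ∂_(i,k) S_{q-k} g` (check on variables and products with `Sop_X`,
`Sop_mul`, or differentiate the algebra homomorphism `annih`), and `∂_(i,k)` commutes with `S_q`;
strong induction on `q` with `diagPair_X`.
`th_Shat`: Newton's identity (`MvPolynomial.mul_esymm_eq_sum`, or `MvPolynomial.psum` version), strong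
induction on `q`: `(q+1) e_{q+1} = ∑_{k≤q} (-1)^k p_{k+1} e_{q-k}`.
`adjoin_Shat`: `c_i X (i,n) = (n+1) Shat (n+1) - ∑_{k<n} c_i X (i,k) Shat (n-k)`, strong induction. -/

namespace WPQ.KN

open MvPolynomial

noncomputable section

variable {ι : Type} [Fintype ι] [DecidableEq ι]

theorem Shat_zero (c : ι → ℂ) (i : ι) : Shat c i 0 = 1 := by
  unfold Shat
  rw [expCoeff_zero, map_one]

theorem kn3_rec (c : ι → ℂ) (i : ι) (n : ℕ) :
    C ((n : ℂ) + 1) * Shat c i (n + 1) =
      ∑ k ∈ Finset.range (n + 1), C (c i) * X (i, k) * Shat c i (n - k) := by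
  have h := congrArg (aeval (fun x : ι × ℕ => C ((x.2 + 1 : ℂ)⁻¹) * (X x : Fock ι)))
    (expCoeff_succ (c i • bb i) n)
  rw [map_mul, map_sum, aeval_C, MvPolynomial.algebraMap_eq] at h
  unfold Shat
  rw [h]
  refine Finset.sum_congr rfl fun k _ => ?_
  rw [map_mul, map_mul, aeval_C, MvPolynomial.algebraMap_eq]
  congr 1
  unfold osc
  rw [map_sum, Finset.sum_eq_single i]
  · rw [map_mul, aeval_C, aeval_X, MvPolynomial.algebraMap_eq]
    unfold bb
    simp only [Pi.smul_apply, Pi.single_eq_same, smul_eq_mul, mul_one]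
    have hk : ((k : ℂ) + 1) * ((k : ℂ) + 1)⁻¹ = 1 :=
      mul_inv_cancel₀ (Nat.cast_add_one_ne_zero k)
    calc C ((k : ℂ) + 1) * (C (c i) * (C (((k : ℂ) + 1)⁻¹) * X (i, k))) =
        C (((k : ℂ) + 1) * ((k : ℂ) + 1)⁻¹) * (C (c i) * X (i, k)) := by
          rw [C_mul]
          ring
      _ = _ := by rw [hk, C_1, one_mul]
  · intro j _ hj
    unfold bb
    simp [hj]
  · intro h
    exact absurd (Finset.mem_univ _) h

theorem kn3_C (A : Matrix ι ι ℤ) (p : ℕ) (ν : ι → ℂ) (q : ℕ) (a : ℂ) :
    Sop A p ν q (C a) = if q = 0 then C a else 0 := by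
  have h : (C a : Fock ι) = a • 1 := by
    rw [smul_eq_C_mul, mul_one]
  rw [h, map_smul, Sop_one]
  split_ifs
  · rfl
  · rw [smul_zero]

theorem kn3_mulX (A : Matrix ι ι ℤ) (p : ℕ) (ν : ι → ℂ) (n : ℕ) (f : Fock ι) (j : ι) (m : ℕ) :
    Sop A p ν n (f * X (j, m)) = Sop A p ν n f * X (j, m) +
      if m + 1 ≤ n then Sop A p ν (n - (m + 1)) f * C (-(form A p (bb j) ν) / (m + 1)) else 0 := by
  rw [Sop_mul]
  have h : ∀ x ∈ Finset.HasAntidiagonal.antidiagonal n, Sop A p ν x.1 f * Sop A p ν x.2 (X (j, m)) =
      (if x = (n, 0) then Sop A p ν n f * X (j, m) else 0) +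
        (if x = (n - (m + 1), m + 1) then
          Sop A p ν (n - (m + 1)) f * C (-(form A p (bb j) ν) / (m + 1)) else 0) := by
    rintro ⟨a, b⟩ hx
    have hab : a + b = n := Finset.HasAntidiagonal.mem_antidiagonal.1 hx
    rw [Sop_X]
    simp only [Prod.mk.injEq]
    by_cases hb : b = 0
    · subst hb
      have ha : a = n := by omega
      subst ha
      simp
    · by_cases hb' : b = m + 1
      · subst hb'
        have ha : a = n - (m + 1) := by omega
        subst ha
        simp
      · simp [hb, hb']
  rw [Finset.sum_congr rfl h, Finset.sum_add_distrib, Finset.sum_ite_eq', Finset.sum_ite_eq',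
    if_pos (by simp)]
  congr 1
  by_cases hm : m + 1 ≤ n
  · rw [if_pos hm, if_pos]
    rw [Finset.HasAntidiagonal.mem_antidiagonal]
    omega
  · rw [if_neg hm, if_neg]
    rw [Finset.HasAntidiagonal.mem_antidiagonal]
    omega

/-- The recursion for the operators. -/
theorem kn3_recS (A : Matrix ι ι ℤ) (p : ℕ) (i : ι) (ci : ℂ) (ν : ι → ℂ)
    (hl : ∀ j, form A p (bb j) ν = if i = j then -ci else 0) (g : Fock ι) :
    ∀ q : ℕ, ((q : ℂ) + 1) • Sop A p ν (q + 1) g =
      ∑ k ∈ Finset.range (q + 1), ci • Sop A p ν (q - k) (pderiv (i, k) g) := by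
  induction g using MvPolynomial.induction_on with
  | C a =>
    intro q
    rw [kn3_C, if_neg (Nat.succ_ne_zero q), smul_zero]
    symm
    refine Finset.sum_eq_zero fun k _ => ?_
    rw [pderiv_C, map_zero, smul_zero]
  | add f g hf hg =>
    intro q
    rw [map_add, smul_add, hf, hg, ← Finset.sum_add_distrib]
    refine Finset.sum_congr rfl fun k _ => ?_
    rw [map_add, map_add, smul_add]
  | mul_X f s hf =>
    intro q
    obtain ⟨j, m⟩ := s
    have hd : ∀ k, pderiv (i, k) (f * X (j, m)) =
        pderiv (i, k) f * X (j, m) + if (i, k) = (j, m) then f else 0 := by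
      intro k
      rw [pderiv_mul]
      congr 1
      by_cases h : (i, k) = (j, m)
      · rw [if_pos h, h, pderiv_X_self, mul_one]
      · rw [if_neg h, pderiv_X_of_ne (Ne.symm h), mul_zero]
    have h1 : ∀ k ∈ Finset.range (q + 1), ci • Sop A p ν (q - k) (pderiv (i, k) (f * X (j, m))) =
        ci • Sop A p ν (q - k) (pderiv (i, k) f) * X (j, m) +
        (if m + 1 ≤ q - k then (ci • Sop A p ν (q - k - (m + 1)) (pderiv (i, k) f)) *
          C (-(form A p (bb j) ν) / (m + 1)) else 0) +
        (if (i, k) = (j, m) then ci • Sop A p ν (q - m) f else 0) := by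
      intro k _
      rw [hd, map_add, kn3_mulX, smul_add, smul_add, smul_mul_assoc]
      congr 1
      · congr 1
        split_ifs
        · rw [smul_mul_assoc]
        · rw [smul_zero]
      · split_ifs with h
        · have : k = m := (Prod.mk.inj h).2
          rw [this]
        · rw [map_zero, smul_zero]
    rw [Finset.sum_congr rfl h1, Finset.sum_add_distrib, Finset.sum_add_distrib, ← Finset.sum_mul,
      ← hf q, kn3_mulX]
    rw [smul_add, smul_mul_assoc]
    rw [add_assoc]
    congr 1
    by_cases hij : i = j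
    · subst hij
      by_cases hm : m ≤ q
      · rw [if_pos (by omega), hl, if_pos rfl]
        have e1 : (∑ k ∈ Finset.range (q + 1), if m + 1 ≤ q - k then
            (ci • Sop A p ν (q - k - (m + 1)) (pderiv (i, k) f)) * C (- -ci / ((m : ℂ) + 1))
            else 0) = ((q - m : ℕ) : ℂ) • Sop A p ν (q - m) f * C (- -ci / ((m : ℂ) + 1)) := by
          rcases Nat.lt_or_ge m q with h | h
          · obtain ⟨r, rfl⟩ : ∃ r, q = r + 1 + m := ⟨q - 1 - m, by omega⟩
            have e2 : r + 1 + m - m = r + 1 := by omega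
            rw [e2]
            have e3 := hf r
            have e4 : ((r + 1 : ℕ) : ℂ) = (r : ℂ) + 1 := by push_cast; ring
            rw [e4, e3, Finset.sum_mul]
            have e5 : Finset.range (r + 1) ⊆ Finset.range (r + 1 + m + 1) :=
              Finset.range_subset_range.2 (by omega)
            rw [← Finset.sum_subset e5]
            · refine Finset.sum_congr rfl fun k hk => ?_
              have := Finset.mem_range.1 hk
              rw [if_pos (by omega)]
              have e6 : r + 1 + m - k - (m + 1) = r - k := by omega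
              rw [e6]
            · intro k _ hk
              rw [Finset.mem_range] at hk
              rw [if_neg (by omega)]
          · have hqm : q = m := by omega
            subst hqm
            rw [Nat.sub_self, Nat.cast_zero, zero_smul, zero_mul]
            refine Finset.sum_eq_zero fun k _ => ?_
            rw [if_neg (by omega)]
        have e2 : (∑ k ∈ Finset.range (q + 1), if (i, k) = (i, m) then ci • Sop A p ν (q - m) f
            else 0) = ci • Sop A p ν (q - m) f := by
          rw [Finset.sum_eq_single m]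
          · rw [if_pos rfl]
          · intro k _ hk
            rw [if_neg]
            intro h
            exact hk (Prod.mk.inj h).2
          · intro h
            exact absurd (Finset.mem_range.2 (by omega)) h
        rw [e1, e2, Nat.add_sub_add_right, neg_neg]
        have e3 : ((q - m : ℕ) : ℂ) = (q : ℂ) - m := Nat.cast_sub hm
        have hm0 : (m : ℂ) + 1 ≠ 0 := Nat.cast_add_one_ne_zero m
        rw [e3]
        simp only [smul_eq_C_mul]
        have e4 : (C ((q : ℂ) + 1) * C (ci / ((m : ℂ) + 1)) : Fock ι) =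
            C ((q : ℂ) - m) * C (ci / ((m : ℂ) + 1)) + C ci := by
          rw [← C_mul, ← C_mul, ← C_add]
          congr 1
          field_simp
          ring
        linear_combination (Sop A p ν (q - m) f) * e4
      · rw [if_neg (by omega), smul_zero]
        symm
        rw [Finset.sum_eq_zero, Finset.sum_eq_zero, add_zero]
        · intro k hk
          have := Finset.mem_range.1 hk
          rw [if_neg]
          intro h
          have := (Prod.mk.inj h).2
          omega
        · intro k _
          rw [if_neg (by omega)]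
    · have hz : (C (-(form A p (bb j) ν) / ((m : ℂ) + 1)) : Fock ι) = 0 := by
        rw [hl, if_neg hij, neg_zero, zero_div, C_0]
      simp only [hz, mul_zero, ite_self, smul_zero]
      rw [Finset.sum_const_zero, zero_add]
      symm
      refine Finset.sum_eq_zero fun k _ => ?_
      rw [if_neg]
      intro h
      exact hij (Prod.mk.inj h).1

theorem diagPair_Shat (A : Matrix ι ι ℤ) (p : ℕ) (c : ι → ℂ) (lam : ι → ι → ℂ)
    (hl : ∀ i j, form A p (bb j) (lam i) = if i = j then c i else 0) (i : ι) (q : ℕ)
    (x g : Fock ι) : diagPair (Shat c i q * x) g = diagPair x (Sop A p (-(lam i)) q g) := by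
  induction q using Nat.strong_induction_on generalizing x g with
  | _ q ih =>
    rcases Nat.eq_zero_or_pos q with h0 | h0
    · subst h0
      rw [Shat_zero, one_mul, Sop_zero]
    · obtain ⟨n, rfl⟩ : ∃ n, q = n + 1 := ⟨q - 1, by omega⟩
      have hn : ((n : ℂ) + 1) ≠ 0 := Nat.cast_add_one_ne_zero n
      apply mul_left_cancel₀ hn
      have hl' : ∀ j, form A p (bb j) (-(lam i)) = if i = j then -(c i) else 0 := by
        intro j
        have h1 : form A p (bb j) (-(lam i)) = -(form A p (bb j) (lam i)) := by
          unfold form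
          simp only [Pi.neg_apply, mul_neg, Finset.sum_neg_distrib]
        rw [h1, hl]
        split_ifs
        · rfl
        · rw [neg_zero]
      rw [← diagPair_smul_left, ← diagPair_smul_right, kn3_recS A p i (c i) (-(lam i)) hl' g n]
      have e1 : ((n : ℂ) + 1) • (Shat c i (n + 1) * x) =
          ∑ k ∈ Finset.range (n + 1), c i • (X (i, k) * (Shat c i (n - k) * x)) := by
        rw [smul_eq_C_mul, ← mul_assoc, kn3_rec, Finset.sum_mul]
        refine Finset.sum_congr rfl fun k _ => ?_
        rw [smul_eq_C_mul]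
        ring
      have e2 : ∀ (s : Finset ℕ) (F : ℕ → Fock ι) (y : Fock ι),
          diagPair (∑ k ∈ s, F k) y = ∑ k ∈ s, diagPair (F k) y := by
        intro s F y
        induction s using Finset.induction_on with
        | empty =>
          rw [Finset.sum_empty, Finset.sum_empty]
          have := diagPair_smul_left (0 : ℂ) (0 : Fock ι) y
          rw [zero_smul, zero_mul] at this
          exact this
        | insert a s ha ih => rw [Finset.sum_insert ha, Finset.sum_insert ha, diagPair_add_left, ih]
      have e3 : ∀ (s : Finset ℕ) (F : ℕ → Fock ι) (y : Fock ι),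
          diagPair y (∑ k ∈ s, F k) = ∑ k ∈ s, diagPair y (F k) := by
        intro s F y
        rw [diagPair_symm, e2]
        exact Finset.sum_congr rfl fun k _ => diagPair_symm _ _
      rw [e1, e2, e3]
      refine Finset.sum_congr rfl fun k hk => ?_
      have := Finset.mem_range.1 hk
      rw [diagPair_smul_left, diagPair_smul_right, diagPair_X, ih (n - k) (by omega)]

omit [Fintype ι] [DecidableEq ι] in
theorem kn3_psum (M : ι → ℕ) (i : ι) (k : ℕ) :
    pB M i k = rename (Sigma.mk i) (psum (Fin (M i)) ℂ k) := by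
  unfold pB psum
  rw [map_sum]
  refine Finset.sum_congr rfl fun r _ => ?_
  rw [map_pow, rename_X]

omit [Fintype ι] [DecidableEq ι] in
theorem kn3_newton (M : ι → ℕ) (i : ι) (q : ℕ) :
    C ((q : ℂ) + 1) * eB M i (q + 1) =
      ∑ k ∈ Finset.range (q + 1), (-1) ^ k * (pB M i (k + 1) * eB M i (q - k)) := by
  have h := congrArg (rename (R := ℂ) (Sigma.mk (β := fun i => Fin (M i)) i))
    (mul_esymm_eq_sum (Fin (M i)) ℂ (q + 1))
  rw [map_mul, map_mul, map_pow, map_neg, map_one, map_natCast, map_sum] at h
  have e0 : (C ((q : ℂ) + 1) : BB M) = ((q + 1 : ℕ) : BB M) := by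
    rw [map_add, map_natCast, map_one]
    push_cast
    ring
  rw [e0]
  unfold eB
  rw [h]
  have e1 : ∑ a ∈ (Finset.HasAntidiagonal.antidiagonal (q + 1)).filter (fun a => a.1 < q + 1),
      rename (R := ℂ) (Sigma.mk (β := fun i => Fin (M i)) i)
        ((-1) ^ a.1 * esymm (Fin (M i)) ℂ a.1 * psum (Fin (M i)) ℂ a.2) =
      ∑ k ∈ Finset.range (q + 1), (-1) ^ (q - k) * (pB M i (k + 1) *
        rename (Sigma.mk i) (esymm (Fin (M i)) ℂ (q - k))) := by
    symm
    refine Finset.sum_bij (fun k _ => (q - k, k + 1)) ?_ ?_ ?_ ?_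
    · intro k hk
      have := Finset.mem_range.1 hk
      rw [Finset.mem_filter, Finset.HasAntidiagonal.mem_antidiagonal]
      constructor <;> simp only <;> omega
    · intro k _ k' _ h
      have := (Prod.mk.inj h).2
      omega
    · rintro ⟨a, b⟩ hab
      rw [Finset.mem_filter, Finset.HasAntidiagonal.mem_antidiagonal] at hab
      simp only at hab
      refine ⟨b - 1, Finset.mem_range.2 (by omega), ?_⟩
      ext
      · simp only
        omega
      · simp only
        omega
    · intro k _
      rw [map_mul, map_mul, map_pow, map_neg, map_one, kn3_psum]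
      ring
  rw [e1, Finset.mul_sum]
  refine Finset.sum_congr rfl fun k hk => ?_
  have hk' := Finset.mem_range.1 hk
  have e2 : ((-1 : BB M)) ^ (q + 1 + 1) * (-1) ^ (q - k) = (-1) ^ k := by
    rw [← pow_add]
    have : q + 1 + 1 + (q - k) = 2 * (q - k + 1) + k := by omega
    rw [this, pow_add, pow_mul]
    norm_num
  rw [← e2]
  ring

theorem th_Shat (c : ι → ℂ) (hc : ∀ i, c i ≠ 0) (M : ι → ℕ) (i : ι) (q : ℕ) :
    Th c M (Shat c i q) = (-1) ^ q * eB M i q := by
  induction q using Nat.strong_induction_on with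
  | _ q ih =>
    rcases Nat.eq_zero_or_pos q with h0 | h0
    · subst h0
      rw [Shat_zero, map_one, pow_zero, one_mul]
      unfold eB
      rw [esymm_zero, map_one]
    · obtain ⟨n, rfl⟩ : ∃ n, q = n + 1 := ⟨q - 1, by omega⟩
      have hn : (C ((n : ℂ) + 1) : BB M) ≠ 0 := by
        rw [Ne, C_eq_zero]
        exact Nat.cast_add_one_ne_zero n
      apply mul_left_cancel₀ hn
      have hThC : ∀ a : ℂ, Th c M (C a) = C a := by
        intro a
        unfold Th
        rw [aeval_C]
        rfl
      have h1 := congrArg (Th c M) (kn3_rec c i n)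
      rw [map_mul, map_sum, hThC] at h1
      rw [h1, mul_left_comm, kn3_newton, Finset.mul_sum]
      refine Finset.sum_congr rfl fun k hk => ?_
      have hk' := Finset.mem_range.1 hk
      rw [map_mul, map_mul, hThC, ih (n - k) (by omega)]
      have h2 : Th c M (X (i, k)) = C (-(c i)⁻¹) * pB M i (k + 1) := by
        unfold Th
        rw [aeval_X]
      rw [h2]
      have h3 : (C (c i) * C (-(c i)⁻¹) : BB M) = -1 := by
        rw [← C_mul, mul_neg, mul_inv_cancel₀ (hc i), C_neg, C_1]
      have h4 : ((-1 : BB M)) ^ (n + 1) * (-1) ^ k = -((-1) ^ (n - k)) := by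
        rw [← pow_add]
        have : n + 1 + k = 2 * k + (n - k) + 1 := by omega
        rw [this, pow_succ, pow_add, pow_mul]
        norm_num
      linear_combination (pB M i (k + 1) * ((-1) ^ (n - k) * eB M i (n - k))) * h3 -
        (pB M i (k + 1) * eB M i (n - k)) * h4

theorem adjoin_Shat (c : ι → ℂ) (hc : ∀ i, c i ≠ 0) (x : Fock ι) :
    x ∈ Algebra.adjoin ℂ {y | ∃ (i : ι) (q : ℕ), 1 ≤ q ∧ y = Shat c i q} := by
  have hS : ∀ (i : ι) (q : ℕ), 1 ≤ q → Shat c i q ∈
      Algebra.adjoin ℂ {y | ∃ (i : ι) (q : ℕ), 1 ≤ q ∧ y = Shat c i q} :=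
    fun i q hq => Algebra.subset_adjoin ⟨i, q, hq, rfl⟩
  have hX : ∀ (n : ℕ) (i : ι), (X (i, n) : Fock ι) ∈
      Algebra.adjoin ℂ {y | ∃ (i : ι) (q : ℕ), 1 ≤ q ∧ y = Shat c i q} := by
    intro n
    induction n using Nat.strong_induction_on with
    | _ n ih =>
      intro i
      have h1 := kn3_rec c i n
      rw [Finset.sum_range_succ, Nat.sub_self, Shat_zero, mul_one] at h1
      have h2 : (X (i, n) : Fock ι) = (c i)⁻¹ • (((n : ℂ) + 1) • Shat c i (n + 1) -
          ∑ k ∈ Finset.range n, c i • (X (i, k) * Shat c i (n - k))) := by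
        have h3 : ((n : ℂ) + 1) • Shat c i (n + 1) -
            ∑ k ∈ Finset.range n, c i • (X (i, k) * Shat c i (n - k)) = c i • X (i, n) := by
          have h4 : ∑ k ∈ Finset.range n, c i • (X (i, k) * Shat c i (n - k)) =
              ∑ k ∈ Finset.range n, C (c i) * X (i, k) * Shat c i (n - k) :=
            Finset.sum_congr rfl fun k _ => by rw [smul_eq_C_mul, mul_assoc]
          rw [h4, smul_eq_C_mul, smul_eq_C_mul, h1]
          ring
        rw [h3, smul_smul, inv_mul_cancel₀ (hc i), one_smul]
      rw [h2]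
      refine Subalgebra.smul_mem _ (Subalgebra.sub_mem _ (Subalgebra.smul_mem _
        (hS i (n + 1) (by omega)) _) ?_) _
      refine Subalgebra.sum_mem _ fun k hk => ?_
      have hk' := Finset.mem_range.1 hk
      exact Subalgebra.smul_mem _ (Subalgebra.mul_mem _ (ih k hk' i)
        (hS i (n - k) (by omega))) _
  induction x using MvPolynomial.induction_on with
  | C a =>
    rw [← MvPolynomial.algebraMap_eq]
    exact Subalgebra.algebraMap_mem _ a
  | add f g hf hg => exact Subalgebra.add_mem _ hf hg
  | mul_X f s hf =>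
    obtain ⟨i, n⟩ := s
    exact Subalgebra.mul_mem _ hf (hX n i)

end

end WPQ.KN
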