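import Mathlib

/-! WPQ, module RC (rank one constants): definitions. -/

namespace WPQ.RC

open MvPolynomial

noncomputable section

/-- `∏_{r<s} (X_r - X_s)^(2p)`. -/
def PP (b p : ℕ) : MvPolynomial (Fin b) ℂ :=
  ∏ r : Fin b, ∏ s ∈ Finset.univ.filter (fun s => r < s), (X r - X s) ^ (2 * p)

/-- The coefficient of `x^n` in `(1 - x)^k`. -/
def ee (k : ℂ) : ℕ → ℂ
  | 0 => 1
  | n + 1 => ee k n * ((n : ℂ) - k) / ((n : ℂ) + 1)

/-- The same with integer index (0 for negative index). -/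
def eeZ (k : ℂ) (n : ℤ) : ℂ := if n < 0 then 0 else ee k n.toNat

/-- The Dyson constant: the coefficient of `∏ X_r^(p(b-1))` in `PP b p`. -/
def Cst (b p : ℕ) : ℂ := coeff (Finsupp.equivFunOnFinite.symm fun _ : Fin b => p * (b - 1)) (PP b p)

/-- The coefficient of `∏ x_r^(N)` in `∏_{r<s} (x_r-x_s)^(2p) ∏ (1-x_r)^k`. -/
def MN (b p : ℕ) (N : ℤ) (k : ℂ) : ℂ :=
  ∑ u ∈ (PP b p).support, coeff u (PP b p) * ∏ r : Fin b, eeZ k (N - u r)

/-- `M_b(k)`: the case `N = p b - 1`. -/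
def MM (b p : ℕ) (k : ℂ) : ℂ := MN b p (p * b - 1) k

end

end WPQ.RC
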