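import Pool.Agent.WPQ.Defs
import Pool.Agent.WPQ.RCD

/-! WPQ: auxiliary operators (modules `V_{L+s}`, intertwining operators, Virasoro operators,
pairings). -/

namespace WPQ

open MvPolynomial

noncomputable section

variable {ι : Type} [Fintype ι] [DecidableEq ι]

/-- The degree of the variables: `X (i, k)` has degree `k + 1`. -/
def wF (x : ι × ℕ) : ℕ := x.2 + 1

/-- Weighted homogeneous elements of the Fock space. -/
abbrev FH (f : Fock ι) (d : ℕ) : Prop := IsWeightedHomogeneous (wF (ι := ι)) f d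

/-- `b_i` as a complex charge. -/
def bb (i : ι) : ι → ℂ := Pi.single i 1

/-- The coefficient of `z^(-q)` in the annihilation part of the vertex operator. -/
def Sop (A : Matrix ι ι ℤ) (p : ℕ) (ν : ι → ℂ) (q : ℕ) : Fock ι →ₗ[ℂ] Fock ι :=
  ((Polynomial.lcoeff (Fock ι) q).restrictScalars ℂ) ∘ₗ (annih A p ν).toLinearMap

/-- The vector `ρ` (in the basis `α_i`): `(α_i, ρ) = 1`. -/
def rho (A : Matrix ι ι ℤ) : ι → ℂ :=
  ((A.map (Int.cast : ℤ → ℂ))⁻¹).mulVec (fun _ => 1)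

/-- The background charge `a = ((p-1)/√p) ρ` in the basis `b_i`: `⟨b_i, a⟩ = p - 1`. -/
def bg (A : Matrix ι ι ℤ) (p : ℕ) : ι → ℂ := fun i => ((p : ℂ) - 1) / p * rho A i

/-- The dual basis of `b_i`. -/
def dual (A : Matrix ι ι ℤ) (p : ℕ) (i : ι) : ι → ℂ :=
  fun j => (p : ℂ)⁻¹ * (A.map (Int.cast : ℤ → ℂ))⁻¹ i j

/-- The Virasoro operator `L(k)` on the Fock space of charge `s`. -/
def Lop (A : Matrix ι ι ℤ) (p : ℕ) (s : ι → ℂ) (k : ℤ) : Fock ι →ₗ[ℂ] Fock ι :=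
  if 0 < k then
    (mkDerivation ℂ fun x : ι × ℕ =>
      if k.toNat ≤ x.2 then ((x.2 : ℂ) + 1 - k) • (X (x.1, x.2 - k.toNat) : Fock ι) else 0).toLinearMap
    + heis A p (s - ((k : ℂ) + 1) • bg A p) k 0
    + (1 / 2 : ℂ) • ∑ n ∈ Finset.range (k.toNat - 1), ∑ i : ι,
        (pderiv (R := ℂ) (i, n)).toLinearMap ∘ₗ heis A p (bb i) (k - (n + 1)) 0
  else if k = 0 then
    (mkDerivation ℂ fun x : ι × ℕ => ((x.2 : ℂ) + 1) • (X x : Fock ι)).toLinearMap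
    + ((1 / 2 : ℂ) * form A p s s - form A p (bg A p) s) • LinearMap.id
  else
    (mkDerivation ℂ fun x : ι × ℕ =>
      ((x.2 : ℂ) + 1 - k) • (X (x.1, x.2 + (-k).toNat) : Fock ι)).toLinearMap
    + heis A p (s - ((k : ℂ) + 1) • bg A p) k 0
    + (1 / 2 : ℂ) • LinearMap.mulLeft ℂ (∑ n ∈ Finset.range ((-k).toNat - 1), ∑ i : ι,
        C (((n : ℂ) + 1) * (-(k : ℂ) - 1 - n)) * osc (dual A p i) n *
          (X (i, (-k).toNat - 2 - n) : Fock ι))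

/-- A charge `s` with integral pairings `κ_i = ⟨b_i, s⟩`. -/
structure Shift (A : Matrix ι ι ℤ) (p : ℕ) where
  s : ι → ℂ
  κ : ι → ℤ
  h : ∀ i, form A p (bb i) s = κ i

/-- The pairing of `γ ∈ L` with the shift. -/
def Shift.dot {A : Matrix ι ι ℤ} {p : ℕ} (σ : Shift A p) (γ : ι → ℤ) : ℤ := ∑ i, γ i * σ.κ i

/-- The zero shift. -/
def Shift.zero (A : Matrix ι ι ℤ) (p : ℕ) : Shift A p where
  s := 0
  κ := 0
  h := by
    intro i
    simp [form]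

/-- `Y(e^γ, z)` on `V_{L+s}` (`single η f` is `f ⊗ e^{s+η}`). -/
def expS {A : Matrix ι ι ℤ} {p : ℕ} (ε : Cocycle A p) (σ : Shift A p) (γ : ι → ℤ) (n : ℤ) :
    VL ι →ₗ[ℂ] VL ι :=
  Finsupp.lsum ℂ fun η : ι → ℤ =>
    Finsupp.lsingle (γ + η) ∘ₗ
      (((ε.ε γ η : ℤ) : ℂ) • vop A p (toC γ) (-n - 1 - σ.dot γ - formZ A p γ η))

/-- The intertwining operators `V_L → V_{L+s}` of charge `s + γ`. -/
def gX {A : Matrix ι ι ℤ} {p : ℕ} (ε : Cocycle A p) (ξ : Shift A p) (γ : ι → ℤ) (n : ℤ) :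
    VL ι →ₗ[ℂ] VL ι :=
  Finsupp.lsum ℂ fun η : ι → ℤ =>
    Finsupp.lsingle (γ + η) ∘ₗ
      ((((ε.ε γ η : ℤ) : ℂ) * (((Int.negOnePow (ξ.dot η)) : ℤ) : ℂ)) •
        vop A p (ξ.s + toC γ) (-n - 1 - ξ.dot η - formZ A p γ η))

/-- The Heisenberg field on `V_{L+s}`. -/
def hS {A : Matrix ι ι ℤ} {p : ℕ} (σ : Shift A p) (h : ι → ℂ) (n : ℤ) : VL ι →ₗ[ℂ] VL ι :=
  Finsupp.lsum ℂ fun η : ι → ℤ => Finsupp.lsingle η ∘ₗ heis A p h n (σ.s + toC η)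

/-- The Virasoro operators on `V_{L+s}`. -/
def LS {A : Matrix ι ι ℤ} {p : ℕ} (σ : Shift A p) (k : ℤ) : VL ι →ₗ[ℂ] VL ι :=
  Finsupp.lsum ℂ fun η : ι → ℤ => Finsupp.lsingle η ∘ₗ Lop A p (σ.s + toC η) k

/-- The simple root `b_j` as a lattice element. -/
def rt (j : ι) : ι → ℤ := Pi.single j 1

/-- The long screening `E_j = e^{b_j}_0` on `V_{L+s}`. -/
def Ej {A : Matrix ι ι ℤ} {p : ℕ} (ε : Cocycle A p) (σ : Shift A p) (j : ι) : VL ι →ₗ[ℂ] VL ι :=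
  expS ε σ (rt j) 0

/-- `(α_j, γ)`. -/
def pr (A : Matrix ι ι ℤ) (j : ι) (γ : ι → ℤ) : ℤ := ∑ i, A j i * γ i

/-- Dominant elements of the root lattice. -/
def Dom (A : Matrix ι ι ℤ) (γ : ι → ℤ) : Prop := ∀ j, 0 ≤ pr A j γ

/-- The constant term of the charge `0` component. -/
def top0 : VL ι →ₗ[ℂ] ℂ where
  toFun v := constantCoeff (v 0)
  map_add' := by
    intro v w
    rw [Finsupp.add_apply, map_add]
  map_smul' := by
    intro c v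
    rw [Finsupp.smul_apply, smul_eq_C_mul, map_mul, constantCoeff_C, RingHom.id_apply, smul_eq_mul]

/-- The pairing with `X_s` adjoint to `∂_s`. -/
def diagPair (f g : Fock ι) : ℂ :=
  ∑ m ∈ f.support, coeff m f * coeff m g * m.prod fun _ e => (e.factorial : ℂ)

/-- The contravariant pairing of the Fock space: `h(-n)` is adjoint to `-h(n)`. -/
def pairF (A : Matrix ι ι ℤ) (p : ℕ) (f g : Fock ι) : ℂ :=
  diagPair (aeval (fun x : ι × ℕ =>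
    -(C ((x.2 + 1 : ℂ)⁻¹)) * ∑ j, C (form A p (bb j) (bb x.1)) * (X (j, x.2) : Fock ι)) f) g

/-- The sign in the pairing of `V_{L+2a}` and `V_L`. -/
def sgn {A : Matrix ι ι ℤ} {p : ℕ} (ε : Cocycle A p) (γ : ι → ℤ) : ℂ :=
  ((ε.ε γ γ : ℤ) : ℂ) * (((Int.negOnePow (wtExp A p γ)) : ℤ) : ℂ)

/-- The contravariant pairing `V_{L+2a} × V_L → ℂ`. -/
def pairV {A : Matrix ι ι ℤ} {p : ℕ} (ε : Cocycle A p) (t v : VL ι) : ℂ :=
  t.sum fun h f => sgn ε (-h) * pairF A p f (v (-h))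

/-- Evaluation at one point (`z = 1`) of charge `c_i = ⟨b_i, ξ⟩`. -/
def ev (c : ι → ℂ) : Fock ι →ₐ[ℂ] ℂ := aeval fun x : ι × ℕ => -(c x.1) / (x.2 + 1)

/-- Iterates of the long screening `E_j` on Fock spaces: on charge with `⟨b_j, ·⟩ = κ`. -/
def EN (A : Matrix ι ι ℤ) (p : ℕ) (j : ι) (κ : ℤ) : ℕ → Fock ι →ₗ[ℂ] Fock ι
  | 0 => LinearMap.id
  | N + 1 => vop A p (bb j) (-1 - κ - 2 * p * N) ∘ₗ EN A p j κ N

/-- The span of the vectors of conformal weight `n`. -/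
def Vn (A : Matrix ι ι ℤ) (p : ℕ) (n : ℤ) : Submodule ℂ (VL ι) :=
  Submodule.span ℂ {v | ∃ (γ : ι → ℤ) (f : Fock ι) (d : ℕ), FH f d ∧
    (d : ℤ) + wtExp A p γ = n ∧ v = Finsupp.single γ f}

end

end WPQ
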