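import Pool.Agent.WPQ.CI7
import Pool.Agent.WPQ.Ops

/-! WPQ, module KN (finite dimensionality of the common kernel of the high annihilation
coefficients and of `L(k)`, `k ≥ 2`): definitions.

`Λ = Fock ι` is used as the ring of symbols: the variable `X (i,k)` is the symbol of `∂_(i,k)`, and
`diagPair x g` is the constant term of `x(∂) g`. -/

namespace WPQ.KN

open MvPolynomial

noncomputable section

variable {ι : Type} [Fintype ι] [DecidableEq ι]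

/-- The symbol of the coefficient of `u^q` in `exp (∑ c_i u^(k+1) ∂_(i,k) / (k+1))`. -/
def Shat (c : ι → ℂ) (i : ι) (q : ℕ) : Fock ι :=
  aeval (fun x : ι × ℕ => C ((x.2 + 1 : ℂ)⁻¹) * (X x : Fock ι)) (expCoeff (c i • bb i) q)

/-- The polynomial ring in the variables `y_{i,r}`, `r < M i`. -/
abbrev BB (M : ι → ℕ) : Type := MvPolynomial (Σ i, Fin (M i)) ℂ

/-- Power sums of a block of variables. -/
def pB (M : ι → ℕ) (i : ι) (k : ℕ) : BB M := ∑ r : Fin (M i), X ⟨i, r⟩ ^ k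

/-- Elementary symmetric polynomials of a block of variables. -/
def eB (M : ι → ℕ) (i : ι) (m : ℕ) : BB M := rename (Sigma.mk i) (esymm (Fin (M i)) ℂ m)

/-- `∂_(i,k) ↦ -p_{k+1}(y_i) / c_i`. -/
def Th (c : ι → ℂ) (M : ι → ℕ) : Fock ι →ₐ[ℂ] BB M :=
  aeval fun x : ι × ℕ => C (-(c x.1)⁻¹) * pB M x.1 (x.2 + 1)

/-- The transpose of `L(k)`, `k ≥ 1`, on symbols. -/
def Lhat (A : Matrix ι ι ℤ) (p : ℕ) (s : ι → ℂ) (k : ℕ) : Fock ι →ₗ[ℂ] Fock ι :=
  (mkDerivation ℂ fun x : ι × ℕ => ((x.2 : ℂ) + 1) • (X (x.1, x.2 + k) : Fock ι)).toLinearMap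
  + LinearMap.mulLeft ℂ
    ((∑ i, C (form A p (bb i) (s - ((k : ℂ) + 1) • bg A p)) * (X (i, k - 1) : Fock ι)) +
      C (1 / 2 : ℂ) * ∑ n ∈ Finset.range (k - 1), ∑ i, ∑ j,
        C (form A p (bb j) (bb i)) * (X (i, n) : Fock ι) * (X (j, k - n - 2) : Fock ι))

/-- The parameters of the operators on `BB M`. -/
def Pr (A : Matrix ι ι ℤ) (p : ℕ) (hA : ∀ i j, A i j = A j i) (s : ι → ℂ) (c : ι → ℂ)
    (M : ι → ℕ) : CI.Par (Σ i, Fin (M i)) where
  D := fun r => ((p : ℂ) - 1) / c r.1 + (p : ℂ) / c r.1 ^ 2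
  κ := fun r => -(form A p (bb r.1) s) / c r.1 -
    ∑ t : (Σ i, Fin (M i)), (p : ℂ) * (A r.1 t.1 : ℂ) / (c r.1 * c t.1)
  η := fun r t => (p : ℂ) * (A r.1 t.1 : ℂ) / (c r.1 * c t.1)
  symm := by
    intro r t
    rw [hA, mul_comm (c r.1)]

/-- The operator `rename` by block permutations. -/
def perm (M : ι → ℕ) (g : ∀ i, Equiv.Perm (Fin (M i))) : BB M →ₐ[ℂ] BB M :=
  rename (fun x : (Σ i, Fin (M i)) => (⟨x.1, g x.1 x.2⟩ : (Σ i, Fin (M i))))

/-- The average over all block permutations. -/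
def Av (M : ι → ℕ) : BB M →ₗ[ℂ] BB M :=
  ((Fintype.card (∀ i, Equiv.Perm (Fin (M i))) : ℂ)⁻¹) •
    ∑ g : (∀ i, Equiv.Perm (Fin (M i))), (perm M g).toLinearMap

end

end WPQ.KN
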