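import Pool.Agent.WPQ.KVD

/-! [WPQ-KV1] Elementary facts on the operators `L(-k)` of the rank one Fock space.

`Ln_homog`: the derivation part sends `X n` (weight `n+1`) to a multiple of `X (n+k)` (weight `n+1+k`); `qk t κ k` is weighted
homogeneous of weight `k` (`(k-1)+1 = k`; `(n+1) + (k-2-n+1) = k` for `n < k-1`; if `k = 1` the sum is empty).  For the derivation:
it is enough to treat monomials (`f = ∑ monomial`), `mkDerivation_monomial`, or: coefficients of `pderiv`; use
`Derivation = ∑ over f.vars X.. * pderiv`; or prove by `induction_on`-like argument that `mkDerivation` maps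
`weightedHomogeneousSubmodule` into it (products: Leibniz).
`wR_homog`: induction on `w`.  `Ln_map`: `map φ (mkDerivation R g f) = mkDerivation S (map φ ∘ g) (map φ f)`
by `MvPolynomial.induction_on f` (C, +, * X), `qk` is mapped to `qk`.  `wR_map`: induction on `w`.  `MM_map`: `coeff_map`.
`det_map`: `RingHom.map_det`, `RingHom.mapMatrix_apply`.  `Lk_neg`: `-(a:ℤ) < 0`.  `wd_eq`: induction on `w`. -/

namespace WPQ.KV

open MvPolynomial

noncomputable section

variable {R : Type} [CommRing R]

private theorem kv1_D (k d : ℕ) (f : Ph R) (hf : IsWeightedHomogeneous wt f d) :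
    IsWeightedHomogeneous wt
      (mkDerivation R (fun n : ℕ => C ((n : R) + 1 + k) * (X (n + k) : Ph R)) f) (k + d) := by
  have hfs : mkDerivation R (fun n : ℕ => C ((n : R) + 1 + k) * (X (n + k) : Ph R)) f =
      ∑ v ∈ f.support, mkDerivation R (fun n : ℕ => C ((n : R) + 1 + k) * (X (n + k) : Ph R))
        (monomial v (coeff v f)) := by
    conv_lhs => rw [f.as_sum, map_sum]
  rw [hfs]
  refine IsWeightedHomogeneous.sum _ _ _ fun v hv => ?_
  have hvd : Finsupp.weight wt v = d := hf (mem_support_iff.mp hv)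
  rw [mkDerivation_monomial]
  refine (weightedHomogeneousSubmodule R wt (k + d)).smul_mem _ ?_
  refine Submodule.sum_mem _ fun i hi => ?_
  have h1 := (isWeightedHomogeneous_monomial wt (v - Finsupp.single i 1) (v i : R) rfl).mul
    ((isWeightedHomogeneous_C (R := R) wt ((i : R) + 1 + k)).mul
      (isWeightedHomogeneous_X R wt (i + k)))
  have h2 := Finsupp.weight_sub_single_add (w := wt) (f := v) (i := i)
    (Finsupp.mem_support_iff.mp hi)
  change IsWeightedHomogeneous wt (monomial (v - Finsupp.single i 1) (v i : R) *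
    (C ((i : R) + 1 + k) * (X (i + k) : Ph R))) (k + d)
  have h3 : k + d = Finsupp.weight wt (v - Finsupp.single i 1) + (0 + wt (i + k)) := by
    rw [← hvd, ← h2]
    simp only [wt]
    omega
  rw [h3]
  exact h1

private theorem kv1_q (t κ : R) (k : ℕ) (hk : 0 < k) : IsWeightedHomogeneous wt (qk t κ k) k := by
  unfold qk
  refine IsWeightedHomogeneous.add ?_ ?_
  · have h1 := (isWeightedHomogeneous_C (R := R) wt
      ((k : R) * (κ + ((k : R) - 1) * (t - 1)))).mul (isWeightedHomogeneous_X R wt (k - 1))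
    have h2 : k = 0 + wt (k - 1) := by
      simp only [wt]
      omega
    rw [← h2] at h1
    exact h1
  · have h1 : IsWeightedHomogeneous wt (∑ n ∈ Finset.range (k - 1),
        C (((n : R) + 1) * ((k : R) - 1 - n)) * (X n * X (k - 2 - n)) : Ph R) k := by
      refine IsWeightedHomogeneous.sum _ _ _ fun n hn => ?_
      have h1 := (isWeightedHomogeneous_C (R := R) wt (((n : R) + 1) * ((k : R) - 1 - n))).mul
        ((isWeightedHomogeneous_X R wt n).mul (isWeightedHomogeneous_X R wt (k - 2 - n)))
      have h2 : k = 0 + (wt n + wt (k - 2 - n)) := by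
        have := Finset.mem_range.mp hn
        simp only [wt]
        omega
      rw [← h2] at h1
      exact h1
    exact h1.C_mul t

theorem Ln_homog (t κ : R) (k d : ℕ) (hk : 0 < k) (f : Ph R) (hf : IsWeightedHomogeneous wt f d) :
    IsWeightedHomogeneous wt (Ln t κ k f) (k + d) := by
  have h1 := (kv1_D k d f hf).add ((kv1_q t κ k hk).mul hf)
  exact h1

theorem wR_homog (t κ : R) (w : List ℕ) (hw : Pw w) (f : Ph R) (d : ℕ)
    (hf : IsWeightedHomogeneous wt f d) : IsWeightedHomogeneous wt (wR t κ w f) (w.sum + d) := by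
  induction w with
  | nil => simpa [wR] using hf
  | cons a w ih =>
    have h1 := ih (fun b hb => hw b (List.mem_cons_of_mem _ hb))
    have h2 := Ln_homog t κ a (w.sum + d) (hw a List.mem_cons_self) _ h1
    rw [List.sum_cons, add_assoc]
    exact h2

theorem wR_one_homog (t κ : R) (w : List ℕ) (hw : Pw w) :
    IsWeightedHomogeneous wt (wR t κ w 1) w.sum := by
  have h1 := wR_homog t κ w hw 1 0 (isWeightedHomogeneous_one R wt)
  rwa [add_zero] at h1

private theorem kv1_Dmap {S : Type} [CommRing S] (φ : R →+* S) (k : ℕ) (f : Ph R) :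
    MvPolynomial.map φ (mkDerivation R (fun n : ℕ => C ((n : R) + 1 + k) * (X (n + k) : Ph R)) f) =
      mkDerivation S (fun n : ℕ => C ((n : S) + 1 + k) * (X (n + k) : Ph S))
        (MvPolynomial.map φ f) := by
  induction f using MvPolynomial.induction_on with
  | C a => simp
  | add p q hp hq => rw [Derivation.map_add, RingHom.map_add, RingHom.map_add, Derivation.map_add, hp, hq]
  | mul_X p n hp =>
    rw [Derivation.leibniz, RingHom.map_mul (MvPolynomial.map φ), Derivation.leibniz,
      RingHom.map_add, map_X, mkDerivation_X, mkDerivation_X, smul_eq_mul, smul_eq_mul,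
      smul_eq_mul, smul_eq_mul, RingHom.map_mul, RingHom.map_mul, RingHom.map_mul, hp, map_X,
      map_X, map_C]
    congr 3
    simp only [map_add, map_one, map_natCast]

private theorem kv1_qmap {S : Type} [CommRing S] (φ : R →+* S) (t κ : R) (k : ℕ) :
    MvPolynomial.map φ (qk t κ k) = qk (φ t) (φ κ) k := by
  unfold qk
  simp only [map_add, map_mul, map_C, map_X, map_sum, map_sub, map_one, map_natCast]

theorem Ln_map {S : Type} [CommRing S] (φ : R →+* S) (t κ : R) (k : ℕ) (f : Ph R) :
    MvPolynomial.map φ (Ln t κ k f) = Ln (φ t) (φ κ) k (MvPolynomial.map φ f) := by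
  have h1 : Ln t κ k f = mkDerivation R (fun n : ℕ => C ((n : R) + 1 + k) *
    (X (n + k) : Ph R)) f + qk t κ k * f := rfl
  have h2 : Ln (φ t) (φ κ) k (MvPolynomial.map φ f) =
    mkDerivation S (fun n : ℕ => C ((n : S) + 1 + k) * (X (n + k) : Ph S))
      (MvPolynomial.map φ f) + qk (φ t) (φ κ) k * MvPolynomial.map φ f := rfl
  rw [h1, h2, map_add, map_mul, kv1_Dmap, kv1_qmap]

theorem wR_map {S : Type} [CommRing S] (φ : R →+* S) (t κ : R) (w : List ℕ) (f : Ph R) :
    MvPolynomial.map φ (wR t κ w f) = wR (φ t) (φ κ) w (MvPolynomial.map φ f) := by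
  induction w with
  | nil => rfl
  | cons a w ih =>
    have h1 := Ln_map φ t κ a (wR t κ w f)
    rw [ih] at h1
    exact h1

theorem MM_map {S : Type} [CommRing S] (φ : R →+* S) (t κ : R) (m : ℕ) :
    (MM t κ m).map φ = MM (φ t) (φ κ) m := by
  ext π π'
  have h1 := wR_map φ t κ (pl π) 1
  rw [map_one] at h1
  simp only [MM, Matrix.map_apply]
  rw [← h1, coeff_map]

theorem det_map {S : Type} [CommRing S] (φ : R →+* S) (t κ : R) (m : ℕ) :
    φ (MM t κ m).det = (MM (φ t) (φ κ) m).det := by
  rw [RingHom.map_det, RingHom.mapMatrix_apply, MM_map]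

theorem Lk_neg (t κ : ℂ) (a : ℕ) (ha : 0 < a) : Lk t κ (-(a : ℤ)) = Ln t κ a := by
  unfold Lk
  rw [if_neg (by omega), if_neg (by omega), neg_neg, Int.toNat_natCast]

theorem wd_eq (t κ : ℂ) (w : List ℕ) (hw : Pw w) (f : Ph ℂ) : wd (Lk t κ) w f = wR t κ w f := by
  induction w with
  | nil => rfl
  | cons a w ih =>
    have h1 := ih (fun b hb => hw b (List.mem_cons_of_mem _ hb))
    have h2 : wd (Lk t κ) (a :: w) f = Lk t κ (-(a : ℤ)) (wd (Lk t κ) w f) := rfl
    rw [h2, h1, Lk_neg t κ a (hw a List.mem_cons_self)]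
    rfl

theorem wR_append (t κ : R) (w w' : List ℕ) (f : Ph R) :
    wR t κ (w ++ w') f = wR t κ w (wR t κ w' f) := by
  simp only [wR, List.foldr_append]

end

end WPQ.KV
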