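import Pool.Agent.WPQ.KV9
import Pool.Agent.WPQ.FW6
import Pool.Agent.WPQ.FW10

/-! [WPQ-KV10] The singular vector in rank one, `t = p` an integer.

`A1` is the `A_1` Cartan matrix `(2)`.  `κ₀ = -1 - r - p (s-1)`, `v = EN A1 p () κ₀ s 1`.
`v ≠ 0`: `ev_EN_one` with `c = 2 r`: `ev c v = RC.MN s p (r + p (s-1)) (2r) ≠ 0` (`MN_middle_ne_zero`).
`FH v (r s)`: `EN_homog` with `f = 1`, `d = 0`: `- s (1 + κ₀ + p (s-1)) = s r`.
`Lop k v = 0`: by induction on `N`: `Lop A1 p (s₀ + N • bb ()) k (EN .. N 1) = 0` with `s₀ = κ₀/(2p)`; step: `Lop_vop` with `ν = bb ()`,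
`m = -1 - κ₀ - 2pN`: `form ν ν = 2p`, `form (bg) ν = p - 1` (`form_bg`, symmetric), `form ν (s₀ + N bb) = κ₀ + 2pN`, so the scalar is
`m - k + κ₀ + 2pN + (k+1) (p - (p-1)) = 0`, and `Lop_one_pos` at the start.  The final charge is
`κ₀/(2p) + s = (p(s+1) - (r+1))/(2p)`. -/

namespace WPQ.KV

open MvPolynomial

noncomputable section

/-- The Cartan matrix of type `A_1`. -/
def A1 : Matrix Unit Unit ℤ := fun _ _ => 2

theorem A1_ade : IsADE A1 := by
  refine ⟨fun _ _ => rfl, fun _ => rfl, fun i j h => absurd (Subsingleton.elim i j) h, fun c hc => ?_⟩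
  have h0 : c () ≠ 0 := by
    intro h
    apply hc
    funext x
    exact h
  have h1 : ∑ i : Unit, ∑ j : Unit, c i * A1 i j * c j = 2 * c () ^ 2 := by
    simp only [Finset.univ_unique, Finset.sum_singleton, A1]
    have h2 : (default : Unit) = () := rfl
    rw [h2]
    ring
  rw [h1]
  positivity

private theorem kv10_form (p : ℕ) (ν η : Unit → ℂ) : form A1 p ν η = 2 * p * (ν () * η ()) := by
  unfold form
  simp only [Finset.univ_unique, Finset.sum_singleton, A1]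
  have h2 : (default : Unit) = () := rfl
  rw [h2]
  push_cast
  ring

private theorem kv10_sing (p : ℕ) (hp : 1 ≤ p) (κ : ℤ) (N : ℕ) (k : ℕ) (hk : 0 < k) :
    Lop A1 p (fun _ => (κ : ℂ) / (2 * p) + N) k (EN A1 p () κ N 1) = 0 := by
  have hp0 : (p : ℂ) ≠ 0 := by
    have : p ≠ 0 := by omega
    exact_mod_cast this
  induction N with
  | zero =>
    show Lop A1 p _ k 1 = 0
    exact Lop_one_pos A1 p _ k (by exact_mod_cast hk)
  | succ N ih =>
    have hE : EN A1 p () κ (N + 1) 1 =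
        vop A1 p (bb ()) (-1 - κ - 2 * p * N) (EN A1 p () κ N 1) := rfl
    have hs : (fun _ : Unit => (κ : ℂ) / (2 * p) + ((N + 1 : ℕ) : ℂ)) =
        (fun _ : Unit => (κ : ℂ) / (2 * p) + N) + bb () := by
      funext x
      rw [Pi.add_apply, bb, Pi.single_eq_same]
      push_cast
      ring
    have h := Lop_vop A1 A1_ade p hp (fun _ : Unit => (κ : ℂ) / (2 * p) + N) (bb ()) k
      (-1 - κ - 2 * p * N)
    have h1 := congrArg (fun L : Fock Unit →ₗ[ℂ] Fock Unit => L (EN A1 p () κ N 1)) h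
    simp only [LinearMap.sub_apply, LinearMap.comp_apply, LinearMap.smul_apply] at h1
    rw [ih, map_zero, sub_zero] at h1
    have hbg : form A1 p (bg A1 p) (bb ()) = (p : ℂ) - 1 := by
      rw [form_symm A1 A1_ade.symm, form_bg A1 A1_ade p hp]
    have hbb : (bb () : Unit → ℂ) () = 1 := by
      rw [bb, Pi.single_eq_same]
    rw [hE, hs, h1, hbg, kv10_form, kv10_form, hbb]
    have hsc : (((-1 - κ - 2 * p * N : ℤ) : ℂ) - ((k : ℤ) : ℂ) + 2 * p * (1 * ((κ : ℂ) / (2 * p) + N)) +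
        (((k : ℤ) : ℂ) + 1) * (1 / 2 * (2 * p * (1 * 1)) - ((p : ℂ) - 1))) = 0 := by
      push_cast
      field_simp
      ring
    rw [hsc, zero_smul]

theorem sing_unit (p r s : ℕ) (hp : 1 ≤ p) (hs : 1 ≤ s) : ∃ v : Fock Unit, v ≠ 0 ∧ FH v (r * s) ∧
    ∀ k : ℕ, 0 < k → Lop A1 p (fun _ => ((p : ℂ) * (s + 1) - (r + 1)) / (2 * p)) k v = 0 := by
  have hp0 : (p : ℂ) ≠ 0 := by
    have : p ≠ 0 := by omega
    exact_mod_cast this
  refine ⟨EN A1 p () (-1 - r - p * ((s : ℤ) - 1)) s 1, ?_, ?_, ?_⟩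
  · intro h
    have h1 := ev_EN_one A1 A1_ade p () (-1 - r - p * ((s : ℤ) - 1)) s (fun _ => 2 * (r : ℂ))
    rw [h, map_zero] at h1
    have h2 : (-1 - (-1 - r - p * ((s : ℤ) - 1)) : ℤ) = (r : ℤ) + p * ((s : ℤ) - 1) := by ring
    rw [h2] at h1
    exact RC.MN_middle_ne_zero p r s hs h1.symm
  · refine EN_homog A1 A1_ade p () _ s 1 0 (r * s) ?_ ?_
    · exact isWeightedHomogeneous_one _ _
    · push_cast
      ring
  · intro k hk
    have h1 := kv10_sing p hp (-1 - r - p * ((s : ℤ) - 1)) s k hk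
    have h2 : (fun _ : Unit => ((p : ℂ) * (s + 1) - (r + 1)) / (2 * p)) =
        fun _ : Unit => ((-1 - r - p * ((s : ℤ) - 1) : ℤ) : ℂ) / (2 * p) + s := by
      funext x
      push_cast
      field_simp
      ring
    rw [h2]
    exact h1

end

end WPQ.KV
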