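import Pool.Agent.WPQ.KV1

/-! [WPQ-KV2] Partitions and monomials.

`pl π` is a permutation of `π.parts` (`Multiset.sort_eq`), so it is positive (`π.parts_pos`) with sum `m` (`π.parts_sum`).
`ex`: the multiset of the `π_i - 1`; since all parts are positive, `π.parts` is recovered as `map (· + 1)`; `ex_weight`:
`Finsupp.weight wt (Multiset.toFinsupp s) = (s.map wt).sum`.  `ex_surj`: the partition with parts
`(Finsupp.toMultiset e).map (· + 1)`. -/

namespace WPQ.KV

open MvPolynomial

noncomputable section

private theorem kv2_weight (s : Multiset ℕ) :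
    Finsupp.weight wt (Multiset.toFinsupp s) = (s.map wt).sum := by
  induction s using Multiset.induction_on with
  | empty => simp
  | cons a s ih =>
    rw [← Multiset.singleton_add, map_add, map_add, ih, Multiset.toFinsupp_singleton,
      Multiset.map_add, Multiset.sum_add, Multiset.map_singleton, Multiset.sum_singleton,
      Finsupp.weight_single, one_smul]

private theorem kv2_succ {m : ℕ} (π : Nat.Partition m) :
    (π.parts.map fun a => a - 1).map wt = π.parts := by
  rw [Multiset.map_map]
  conv_rhs => rw [← Multiset.map_id π.parts]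
  refine Multiset.map_congr rfl fun a ha => ?_
  have := π.parts_pos ha
  simp only [Function.comp_apply, wt, id]
  omega

theorem pl_coe {m : ℕ} (π : Nat.Partition m) : ((pl π : List ℕ) : Multiset ℕ) = π.parts := by
  unfold pl
  exact Multiset.sort_eq _ _

theorem pl_pos {m : ℕ} (π : Nat.Partition m) : Pw (pl π) := by
  intro a ha
  have h1 : a ∈ ((pl π : List ℕ) : Multiset ℕ) := Multiset.mem_coe.2 ha
  rw [pl_coe] at h1
  exact π.parts_pos h1

theorem pl_sum {m : ℕ} (π : Nat.Partition m) : (pl π).sum = m := by
  rw [← Multiset.sum_coe, pl_coe, π.parts_sum]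

theorem ex_weight {m : ℕ} (π : Nat.Partition m) : Finsupp.weight wt (ex π) = m := by
  unfold ex
  rw [kv2_weight, kv2_succ, π.parts_sum]

theorem ex_inj {m : ℕ} : Function.Injective (ex (m := m)) := by
  intro π π' h
  unfold ex at h
  have h1 := Multiset.toFinsupp.injective h
  apply Nat.Partition.ext
  rw [← kv2_succ π, ← kv2_succ π', h1]

theorem ex_surj {m : ℕ} (e : ℕ →₀ ℕ) (he : Finsupp.weight wt e = m) :
    ∃ π : Nat.Partition m, ex π = e := by
  refine ⟨⟨(Finsupp.toMultiset e).map wt, ?_, ?_⟩, ?_⟩
  · intro i hi
    rw [Multiset.mem_map] at hi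
    obtain ⟨a, -, rfl⟩ := hi
    exact Nat.succ_pos a
  · rw [← kv2_weight, Finsupp.toMultiset_toFinsupp, he]
  · unfold ex
    have h1 : ((Finsupp.toMultiset e).map wt).map (fun a => a - 1) = Finsupp.toMultiset e := by
      rw [Multiset.map_map]
      conv_rhs => rw [← Multiset.map_id (Finsupp.toMultiset e)]
      refine Multiset.map_congr rfl fun a _ => ?_
      simp only [Function.comp_apply, wt, id]
      omega
    simp only
    rw [h1, Finsupp.toMultiset_toFinsupp]

end

end WPQ.KV
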