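import Pool.Agent.WPQ.KV10
import Pool.Agent.WPQ.KV2

/-! [WPQ-KV11] Comparison of `Lop A1 p` with `Lk p`.

`th p : Fock Unit → Ph ℂ`, `X ((), n) ↦ 2p X n`.  `th_Lop`: for `k > 0`: `th p (Lop A1 p (fun _ => c) k f) = Lk p (2 p c) k (th p f)`.  Derivation part:
both sides are derivations along the algebra homomorphism `th p`; compare on variables
(`k ≤ n`: `(n+1-k) 2p X (n-k)`), e.g. by `MvPolynomial.induction_on f`.  `th p (pderiv ((), n) f) = (1/(2p)) pderiv n (th p f)`
(`induction_on`).  `heis A1 p (c - (k+1) bg) k 0 = (2 p c - (k+1)(p-1)) pderiv ((), k-1)` (`form (bb) (bg) = p - 1`: `form_bg`, or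
`rho A1 = 1/2` directly), `heis A1 p (bb ()) (k-(n+1)) 0 = 2p pderiv ((), k-n-2)` for `n < k-1`; sums over `Unit` have one term. -/

namespace WPQ.KV

open MvPolynomial

noncomputable section

/-- Comparison of the two normalisations. -/
def th (p : ℕ) : Fock Unit →ₐ[ℂ] Ph ℂ := aeval fun x : Unit × ℕ => (2 * (p : ℂ)) • (X x.2 : Ph ℂ)

private theorem kv11_X (p : ℕ) (x : Unit × ℕ) :
    th p (X x) = (2 * (p : ℂ)) • (X x.2 : Ph ℂ) := by
  unfold th
  rw [aeval_X]

private theorem kv11_der (p : ℕ) (D1 : Derivation ℂ (Fock Unit) (Fock Unit))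
    (D2 : Derivation ℂ (Ph ℂ) (Ph ℂ))
    (h : ∀ x, th p (D1 (X x)) = D2 (th p (X x))) (f : Fock Unit) :
    th p (D1 f) = D2 (th p f) := by
  induction f using MvPolynomial.induction_on with
  | C a =>
    have h1 : (C a : Fock Unit) = algebraMap ℂ _ a := rfl
    rw [h1, Derivation.map_algebraMap, AlgHom.commutes, Derivation.map_algebraMap, map_zero]
  | add f g hf hg => simp only [map_add, hf, hg]
  | mul_X f x hf =>
    rw [Derivation.leibniz, map_add, smul_eq_mul, smul_eq_mul, map_mul, map_mul, map_mul, hf, h x,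
      Derivation.leibniz, smul_eq_mul, smul_eq_mul]

private theorem kv11_pderiv (p : ℕ) (hp : 1 ≤ p) (n : ℕ) (f : Fock Unit) :
    th p (pderiv ((), n) f) = (1 / (2 * (p : ℂ))) • pderiv n (th p f) := by
  have hp0 : (p : ℂ) ≠ 0 := by
    have : p ≠ 0 := by omega
    exact_mod_cast this
  have h := kv11_der p (pderiv ((), n)) ((1 / (2 * (p : ℂ))) • pderiv n) (fun x => by
    obtain ⟨u, m⟩ := x
    rw [kv11_X, pderiv_X, Derivation.smul_apply, Derivation.map_smul, pderiv_X, smul_smul]
    have h2 : 1 / (2 * (p : ℂ)) * (2 * p) = 1 := by field_simp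
    rw [h2, one_smul]
    by_cases hmn : m = n
    · subst hmn
      simp
    · have h3 : ((), n) ≠ (u, m) := by
        intro h
        exact hmn (congrArg Prod.snd h).symm
      have h4 : n ≠ m := fun h => hmn h.symm
      simp [h4.symm]) f
  rw [h, Derivation.smul_apply]

private theorem kv11_form (p : ℕ) (u : Unit) (h : Unit → ℂ) :
    form A1 p (Pi.single u 1) h = 2 * p * h () := by
  unfold form A1
  cases u
  simp
  ring

private theorem kv11_rho : rho A1 = fun _ => (1 / 2 : ℂ) := by
  unfold rho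
  have h1 : (A1.map (Int.cast : ℤ → ℂ))⁻¹ = Matrix.of fun _ _ => (1 / 2 : ℂ) := by
    apply Matrix.inv_eq_right_inv
    ext i j
    rw [Matrix.mul_apply]
    simp [A1]
  rw [h1]
  ext i
  simp [Matrix.mulVec, dotProduct]

private theorem kv11_heis (p : ℕ) (h : Unit → ℂ) (n : ℤ) (m : ℕ) (hn : n = (m : ℤ) + 1)
    (f : Fock Unit) :
    heis A1 p h n 0 f = (2 * p * h ()) • pderiv ((), m) f := by
  unfold heis
  rw [if_neg (by omega), if_neg (by omega)]
  have h1 : (n - 1).toNat = m := by omega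
  rw [LinearMap.sum_apply]
  simp only [Finset.univ_unique, Finset.sum_singleton, LinearMap.smul_apply, h1]
  rw [kv11_form]
  rfl

theorem th_Lop (p : ℕ) (hp : 1 ≤ p) (c : ℂ) (k : ℕ) (hk : 0 < k) (f : Fock Unit) :
    th p (Lop A1 p (fun _ => c) k f) = Lk p (2 * p * c) k (th p f) := by
  have hk' : (0 : ℤ) < (k : ℤ) := by exact_mod_cast hk
  have hp0 : (p : ℂ) ≠ 0 := by
    have : p ≠ 0 := by omega
    exact_mod_cast this
  unfold Lop Lk
  rw [if_pos hk', if_pos hk']
  simp only [LinearMap.add_apply, map_add, Int.toNat_natCast, Int.cast_natCast]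
  congr 1
  · congr 1
    · refine kv11_der p _ _ (fun x => ?_) f
      obtain ⟨u, m⟩ := x
      rw [kv11_X, mkDerivation_X, Derivation.map_smul, mkDerivation_X]
      dsimp only
      split_ifs with h
      · rw [map_smul, kv11_X, smul_smul, ← smul_eq_C_mul, smul_smul, mul_comm]
      · rw [map_zero, smul_zero]
    · rw [kv11_heis p _ (k : ℤ) (k - 1) (by omega), map_smul, kv11_pderiv p hp, smul_smul,
        LinearMap.smul_apply]
      have h1 : (2 * (p : ℂ) * ((fun _ : Unit => c) - ((k : ℂ) + 1) • bg A1 p) ()) *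
          (1 / (2 * (p : ℂ))) = (2 * p * c - ((k : ℂ) + 1) * (p - 1)) / (2 * p) := by
        simp only [Pi.sub_apply, Pi.smul_apply, smul_eq_mul, bg, kv11_rho]
        field_simp
      rw [h1]
      rfl
  · rw [LinearMap.smul_apply, map_smul, LinearMap.smul_apply, LinearMap.sum_apply,
      LinearMap.sum_apply, map_sum, Finset.smul_sum, Finset.smul_sum]
    refine Finset.sum_congr rfl fun n hn => ?_
    rw [Finset.mem_range] at hn
    rw [LinearMap.sum_apply]
    simp only [Finset.univ_unique, Finset.sum_singleton, LinearMap.comp_apply]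
    have h1 : heis A1 p (bb (default : Unit)) ((k : ℤ) - ((n : ℤ) + 1)) 0 f =
        (2 * (p : ℂ)) • pderiv ((), k - 2 - n) f := by
      rw [kv11_heis p _ _ (k - 2 - n) (by omega)]
      have h2 : bb (default : Unit) () = 1 := by simp [bb]
      rw [h2, mul_one]
    rw [h1]
    change (1 / 2 : ℂ) • th p (pderiv ((), n) ((2 * (p : ℂ)) • pderiv ((), k - 2 - n) f)) =
      (1 / (4 * (p : ℂ))) • pderiv n (pderiv (k - 2 - n) (th p f))
    rw [kv11_pderiv p hp, map_smul, kv11_pderiv p hp]
    simp only [Derivation.map_smul, smul_smul]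
    congr 1
    field_simp
    norm_num

end

end WPQ.KV
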