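import Pool.Agent.WPQ.KV11

/-! [WPQ-KV11b] The singular vector in `Ph ℂ`.

`sing_ph`: `th p v` for the `v` of `sing_unit`; `2 p c = p (s+1) - (r+1) = 2(p-1) - krs p r s`; homogeneous: `th` sends a
monomial to a scalar multiple of the monomial with the same exponents; injective since `2p ≠ 0` (left inverse `X n ↦ (1/(2p)) X ((), n)`). -/

namespace WPQ.KV

open MvPolynomial

noncomputable section

private theorem kv11b_X (p : ℕ) (x : Unit × ℕ) :
    th p (X x) = (2 * (p : ℂ)) • (X x.2 : Ph ℂ) := by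
  unfold th
  rw [aeval_X]

theorem th_inj (p : ℕ) (hp : 1 ≤ p) : Function.Injective (th p) := by
  have hp0 : (p : ℂ) ≠ 0 := by
    have : p ≠ 0 := by omega
    exact_mod_cast this
  let g : Ph ℂ →ₐ[ℂ] Fock Unit := aeval fun n : ℕ => (1 / (2 * (p : ℂ))) • (X ((), n) : Fock Unit)
  have h : g.comp (th p) = AlgHom.id ℂ (Fock Unit) := by
    apply MvPolynomial.algHom_ext
    intro x
    obtain ⟨u, n⟩ := x
    rw [AlgHom.comp_apply, kv11b_X, map_smul]
    change (2 * (p : ℂ)) • (aeval (fun n : ℕ => (1 / (2 * (p : ℂ))) • (X ((), n) : Fock Unit)))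
      (X n : Ph ℂ) = X (u, n)
    rw [aeval_X, smul_smul]
    have h2 : 2 * (p : ℂ) * (1 / (2 * p)) = 1 := by field_simp
    rw [h2, one_smul]
  intro a b hab
  have h1 : g (th p a) = g (th p b) := by rw [hab]
  have h2 : ∀ a, g (th p a) = a := fun a => by
    rw [← AlgHom.comp_apply, h]
    rfl
  rwa [h2, h2] at h1

theorem th_homog (p : ℕ) (f : Fock Unit) (d : ℕ) (hf : FH f d) : IsWeightedHomogeneous wt (th p f) d := by
  rw [f.as_sum, map_sum]
  refine Submodule.sum_mem (weightedHomogeneousSubmodule ℂ wt d) fun e he => ?_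
  have h1 : Finsupp.weight (wF (ι := Unit)) e = d := hf (mem_support_iff.mp he)
  have h2 : IsWeightedHomogeneous wt (th p (monomial e (coeff e f))) d := by
    rw [monomial_eq, map_mul, ← algebraMap_eq, AlgHom.commutes, algebraMap_eq]
    have h3 : IsWeightedHomogeneous wt (th p (e.prod fun n k => (X n : Fock Unit) ^ k)) d := by
      rw [Finsupp.prod, map_prod]
      have h4 : d = ∑ x ∈ e.support, e x • wt x.2 := by
        rw [← h1, Finsupp.weight_apply, Finsupp.sum]
        rfl
      rw [h4]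
      refine IsWeightedHomogeneous.prod _ _ _ fun x _ => ?_
      rw [map_pow]
      refine IsWeightedHomogeneous.pow ?_ _
      rw [kv11b_X]
      exact Submodule.smul_mem (weightedHomogeneousSubmodule ℂ wt _) _
        (isWeightedHomogeneous_X ℂ wt x.2)
    have h5 := (isWeightedHomogeneous_C wt (coeff e f)).mul h3
    rwa [zero_add] at h5
  exact h2

theorem sing_ph (p r s : ℕ) (hp : 1 ≤ p) (hs : 1 ≤ s) : ∃ v : Ph ℂ, v ≠ 0 ∧
    IsWeightedHomogeneous wt v (r * s) ∧
    ∀ k : ℕ, 0 < k → Lk (p : ℂ) (2 * ((p : ℂ) - 1) - krs (p : ℂ) r s) k v = 0 := by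
  have hp0 : (p : ℂ) ≠ 0 := by
    have : p ≠ 0 := by omega
    exact_mod_cast this
  obtain ⟨v, hv, hh, hL⟩ := sing_unit p r s hp hs
  refine ⟨th p v, ?_, th_homog p v _ hh, fun k hk => ?_⟩
  · intro h
    apply hv
    apply th_inj p hp
    rw [h, map_zero]
  · have h1 : 2 * ((p : ℂ) - 1) - krs (p : ℂ) r s =
        2 * p * (((p : ℂ) * (s + 1) - (r + 1)) / (2 * p)) := by
      unfold krs
      field_simp
      ring
    rw [h1, ← th_Lop p hp _ k hk, hL k hk, map_zero]

end

end WPQ.KV
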