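import Pool.Agent.WPQ.KV2

/-! [WPQ-KV12] The contravariant pairing.

`pr t f g = ∑_e coeff e f * coeff e g * ww t e`; the sum may be taken over any finset containing `f.support` (or `g.support`), so `pr` is bilinear
and symmetric.  `ww t e ≠ 0` for `t ≠ 0`.
`pr_X`: `pr (X n * f) g = -(1/(2t(n+1))) pr f (∂_n g)`: `ww t (e + single n 1) = ww t e * (e n + 1) * (-1/(2t(n+1)))`,
`coeff (e + single n 1) (X n * f) = coeff e f`, `coeff e (∂_n g) = (e n + 1) coeff (e + single n 1) g` (`coeff_pderiv`-like; or it is enough to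
check monomials `f`, `g`).  `pr_d` is the same with the roles exchanged (symmetry).
`pr_nondeg`: take `g = monomial e 1` for `e` in the support of `f`. -/

namespace WPQ.KV

open MvPolynomial

noncomputable section

private theorem kv12_ss (t : ℂ) (f g : Ph ℂ) (s : Finset (ℕ →₀ ℕ)) (h : f.support ⊆ s) :
    pr t f g = ∑ e ∈ s, coeff e f * coeff e g * ww t e := by
  unfold pr
  refine Finset.sum_subset h fun e _ he => ?_
  rw [notMem_support_iff.mp he, zero_mul, zero_mul]

theorem pr_add_left (t : ℂ) (f f' g : Ph ℂ) : pr t (f + f') g = pr t f g + pr t f' g := by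
  classical
  rw [kv12_ss t (f + f') g (f.support ∪ f'.support) support_add,
    kv12_ss t f g (f.support ∪ f'.support) Finset.subset_union_left,
    kv12_ss t f' g (f.support ∪ f'.support) Finset.subset_union_right,
    ← Finset.sum_add_distrib]
  refine Finset.sum_congr rfl fun e _ => ?_
  rw [coeff_add]
  ring

theorem pr_smul_left (t c : ℂ) (f g : Ph ℂ) : pr t (c • f) g = c * pr t f g := by
  rw [kv12_ss t (c • f) g f.support support_smul, pr, Finset.mul_sum]
  refine Finset.sum_congr rfl fun e _ => ?_
  rw [coeff_smul, smul_eq_mul]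
  ring

theorem pr_comm (t : ℂ) (f g : Ph ℂ) : pr t f g = pr t g f := by
  classical
  rw [kv12_ss t f g (f.support ∪ g.support) Finset.subset_union_left,
    kv12_ss t g f (f.support ∪ g.support) Finset.subset_union_right]
  refine Finset.sum_congr rfl fun e _ => ?_
  ring

private theorem kv12_zero_left (t : ℂ) (g : Ph ℂ) : pr t 0 g = 0 := by
  simp [pr]

private theorem kv12_add_right (t : ℂ) (f g g' : Ph ℂ) : pr t f (g + g') = pr t f g + pr t f g' := by
  rw [pr_comm, pr_add_left, pr_comm t g, pr_comm t g']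

private theorem kv12_mono (t : ℂ) (e : ℕ →₀ ℕ) (a : ℂ) (g : Ph ℂ) :
    pr t (monomial e a) g = a * coeff e g * ww t e := by
  classical
  rw [kv12_ss t (monomial e a) g {e} support_monomial_subset, Finset.sum_singleton,
    coeff_monomial, if_pos rfl]

private theorem kv12_ww (t : ℂ) (e : ℕ →₀ ℕ) (n : ℕ) :
    ww t (e + Finsupp.single n 1) = (-1 / (2 * t * (n + 1))) * ((e n + 1) * ww t e) := by
  classical
  unfold ww
  set F : ℕ → ℕ → ℂ := fun n a => (a.factorial : ℂ) * (-1 / (2 * t * (n + 1))) ^ a with hF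
  have h0 : ∀ n, F n 0 = 1 := fun n => by simp [hF]
  rw [Finsupp.prod_of_support_subset (e + Finsupp.single n 1) (s := insert n e.support) (by
      intro m hm
      rw [Finset.mem_insert]
      by_cases h : m = n
      · exact Or.inl h
      · refine Or.inr ?_
        rw [Finsupp.mem_support_iff] at hm ⊢
        rw [Finsupp.add_apply, Finsupp.single_apply, if_neg (fun h' => h h'.symm), add_zero] at hm
        exact hm) F (fun n _ => h0 n),
    Finsupp.prod_of_support_subset e (s := insert n e.support) (Finset.subset_insert _ _) F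
      (fun n _ => h0 n)]
  rw [← Finset.mul_prod_erase (insert n e.support) _ (Finset.mem_insert_self _ _),
    ← Finset.mul_prod_erase (insert n e.support) (fun m => F m (e m)) (Finset.mem_insert_self _ _)]
  have h1 : ∏ x ∈ (insert n e.support).erase n, F x ((e + Finsupp.single n 1 : ℕ →₀ ℕ) x) =
      ∏ x ∈ (insert n e.support).erase n, F x (e x) := by
    refine Finset.prod_congr rfl fun x hx => ?_
    rw [Finset.mem_erase] at hx
    rw [Finsupp.add_apply, Finsupp.single_apply, if_neg (fun h' => hx.1 h'.symm), add_zero]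
  rw [h1]
  have h2 : F n ((e + Finsupp.single n 1 : ℕ →₀ ℕ) n) = (-1 / (2 * t * (n + 1))) * ((e n + 1) * F n (e n)) := by
    rw [Finsupp.add_apply, Finsupp.single_eq_same]
    simp only [hF]
    rw [Nat.factorial_succ, pow_succ]
    push_cast
    ring
  rw [h2]
  ring

theorem pr_X (t : ℂ) (n : ℕ) (f g : Ph ℂ) :
    pr t (X n * f) g = (-1 / (2 * t * (n + 1))) * pr t f (pderiv n g) := by
  induction f using MvPolynomial.induction_on' with
  | monomial e a =>
    have h1 : (X n : Ph ℂ) * monomial e a = monomial (e + Finsupp.single n 1) a := by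
      rw [X, monomial_mul, one_mul, add_comm]
    rw [h1, kv12_mono, kv12_mono, kv12_ww, coeff_pderiv]
    ring
  | add f f' hf hf' =>
    rw [mul_add (X n : Ph ℂ), pr_add_left, pr_add_left, hf, hf']
    ring

theorem pr_nondeg (t : ℂ) (ht : t ≠ 0) (m : ℕ) (f : Ph ℂ) (hf : IsWeightedHomogeneous wt f m)
    (h : ∀ g : Ph ℂ, IsWeightedHomogeneous wt g m → pr t f g = 0) : f = 0 := by
  classical
  ext e
  rw [coeff_zero]
  by_contra hc
  have h1 : Finsupp.weight wt e = m := hf hc
  have h2 := h (monomial e 1) (isWeightedHomogeneous_monomial wt e 1 h1)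
  rw [pr_comm, kv12_mono, one_mul] at h2
  rcases mul_eq_zero.mp h2 with h3 | h3
  · exact hc h3
  · unfold ww at h3
    rw [Finsupp.prod, Finset.prod_eq_zero_iff] at h3
    obtain ⟨n, _, hn⟩ := h3
    rcases mul_eq_zero.mp hn with h4 | h4
    · exact (Nat.factorial_ne_zero _) (by exact_mod_cast h4)
    · have h6 : (-1 / (2 * t * ((n : ℂ) + 1))) ≠ 0 := by
        have h7 : ((n : ℂ) + 1) ≠ 0 := by exact_mod_cast Nat.succ_ne_zero n
        exact div_ne_zero (by norm_num) (mul_ne_zero (mul_ne_zero two_ne_zero ht) h7)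
      exact pow_ne_zero _ h6 h4

end

end WPQ.KV
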