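import Pool.Agent.WPQ.KV14

/-! [WPQ-KV14b] Independence at `κ = 0`.

`indep_zero`: let `a ≠ 0` be a relation supported on partitions without part `1`.  For `π` with `1 ∈ π.parts` the word `pl π` ends with `1` and
`Ln t 0 1 1 = 0` (`qk t 0 1 = 0`), so `wR t 0 (pl π) 1 = 0`.  So the vectors `a` and `Pi.single π 1` (`1 ∈ π.parts`) are in the left kernel
of `MM t 0 m` (`rel_iff`), they are linearly independent, and their number is `P(m-1) + 1` (`part_one`; `m ≥ 1`, because for `m = 0` the only
vector is `1 ≠ 0`).  By `mult_det` (ι = `Option {π // 1 ∈ π.parts}`), `X^(P(m-1)+1)` divides the determinant.  In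
`det_eq` only `(r,s) = (1,1)` gives the root `0` (`krs t r s = 0` iff `r = s = 1` by `Irr`), with exponent `P(m-1)`: contradiction. -/

namespace WPQ.KV

open MvPolynomial

noncomputable section

theorem kv14b_kill (t : ℂ) {m : ℕ} (π : Nat.Partition m) (h : 1 ∈ π.parts) :
    wR t 0 (pl π) 1 = 0 := by
  have hmem : 1 ∈ pl π := by
    rw [← Multiset.mem_coe, pl_coe]
    exact h
  have hne : pl π ≠ [] := List.ne_nil_of_mem hmem
  have hsorted : (pl π).Pairwise (· ≥ ·) := Multiset.pairwise_sort _ _
  have hpos := pl_pos π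
  obtain ⟨l, x, hl⟩ : ∃ l x, pl π = l ++ [x] :=
    ⟨(pl π).dropLast, (pl π).getLast hne, (List.dropLast_append_getLast hne).symm⟩
  have hx : x = 1 := by
    rw [hl] at hmem hsorted hpos
    have h1 : 0 < x := hpos x (by simp)
    rw [List.mem_append, List.mem_singleton] at hmem
    rcases hmem with h2 | h2
    · rw [List.pairwise_append] at hsorted
      have h3 := hsorted.2.2 1 h2 x (by simp)
      omega
    · exact h2.symm
  rw [hl, hx, wR_append]
  have h1 : wR t 0 [1] (1 : Ph ℂ) = 0 := by
    show Ln t 0 1 1 = 0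
    unfold Ln qk
    simp
  rw [h1]
  have h2 : ∀ w : List ℕ, wR t 0 w (0 : Ph ℂ) = 0 := by
    intro w
    induction w with
    | nil => rfl
    | cons a w ih =>
      show Ln t 0 a (wR t 0 w 0) = 0
      rw [ih, map_zero]
  exact h2 l

theorem indep_zero {t : ℂ} (ht : Irr t) (m : ℕ) (a : Nat.Partition m → ℂ)
    (h1 : ∀ π : Nat.Partition m, 1 ∈ π.parts → a π = 0)
    (h : ∑ π, a π • wR t 0 (pl π) 1 = 0) : a = 0 := by
  classical
  rcases Nat.eq_zero_or_pos m with hm | hm
  · subst hm
    refine indep_of_det t 0 0 (det_ne ht 0 0 fun r s hr hs hrs => ?_) a h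
    have := Nat.mul_pos hr hs
    omega
  by_contra hne
  let b : Option {π : Nat.Partition m // 1 ∈ π.parts} → (Nat.Partition m → ℂ) := fun i =>
    i.elim a fun π => Pi.single π.1 1
  have hb : LinearIndependent ℂ b := by
    rw [linearIndependent_option]
    constructor
    · have h2 := (Pi.basisFun ℂ (Nat.Partition m)).linearIndependent.comp
        (Subtype.val : {π : Nat.Partition m // 1 ∈ π.parts} → Nat.Partition m)
        Subtype.val_injective
      have e : b ∘ some = (Pi.basisFun ℂ (Nat.Partition m)) ∘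
          (Subtype.val : {π : Nat.Partition m // 1 ∈ π.parts} → Nat.Partition m) := by
        funext π
        simp [b]
      rw [e]
      exact h2
    · intro hmem
      have h3 : ∀ f ∈ Submodule.span ℂ (Set.range (b ∘ some)), ∀ π : Nat.Partition m,
          1 ∉ π.parts → f π = 0 := by
        intro f hf
        induction hf using Submodule.span_induction with
        | mem x hx =>
          obtain ⟨π', rfl⟩ := hx
          intro π hπ
          show (Pi.single π'.1 (1 : ℂ) : Nat.Partition m → ℂ) π = 0
          refine Pi.single_eq_of_ne (fun he => hπ ?_) _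
          rw [he]
          exact π'.2
        | zero => intro π _; rfl
        | add x y _ _ hx hy =>
          intro π hπ
          rw [Pi.add_apply, hx π hπ, hy π hπ, add_zero]
        | smul c x _ hx =>
          intro π hπ
          rw [Pi.smul_apply, hx π hπ, smul_zero]
      apply hne
      funext π
      by_cases hπ : 1 ∈ π.parts
      · exact h1 π hπ
      · exact h3 a hmem π hπ
  have hker : ∀ i, Matrix.vecMul (b i)
      ((MM (Polynomial.C t) Polynomial.X m).map (Polynomial.eval 0)) = 0 := by
    have e1 : (MM (Polynomial.C t) Polynomial.X m).map (Polynomial.eval (0 : ℂ)) = MM t 0 m := by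
      have h2 := MM_map (Polynomial.evalRingHom (0 : ℂ)) (Polynomial.C t) Polynomial.X m
      have e1 : Polynomial.evalRingHom (0 : ℂ) (Polynomial.C t) = t := by simp
      have e2 : Polynomial.evalRingHom (0 : ℂ) Polynomial.X = 0 := by simp
      rw [e1, e2] at h2
      exact h2
    rw [e1]
    intro i
    rw [← rel_iff]
    cases i with
    | none => exact h
    | some π =>
      show ∑ π', (Pi.single π.1 (1 : ℂ) : Nat.Partition m → ℂ) π' • wR t 0 (pl π') 1 = 0
      rw [Finset.sum_eq_single π.1]
      · rw [kv14b_kill t π.1 π.2, smul_zero]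
      · intro π' _ hπ'
        rw [Pi.single_eq_of_ne hπ', zero_smul]
      · intro hcon
        exact absurd (Finset.mem_univ _) hcon
  have hdvd := mult_det _ (0 : ℂ) b hb hker
  rw [Fintype.card_option, part_one m hm, Polynomial.C_0, sub_zero, pow_succ] at hdvd
  obtain ⟨a', ha', hdet⟩ := det_eq ht m
  have h11 : ((1, 1) : ℕ × ℕ) ∈ RS m := mem_RS.2 ⟨le_rfl, le_rfl, by show 1 * 1 ≤ m; omega⟩
  have hk11 : krs t 1 1 = 0 := by unfold krs; simp
  rw [hdet, ← Finset.mul_prod_erase _ _ h11] at hdvd
  simp only [hk11, Polynomial.C_0, sub_zero, mul_one] at hdvd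
  rw [mul_left_comm] at hdvd
  have hX : (Polynomial.X : Polynomial ℂ) ^ Fintype.card (Nat.Partition (m - 1)) ≠ 0 :=
    pow_ne_zero _ Polynomial.X_ne_zero
  have hdvd2 := (mul_dvd_mul_iff_left hX).1 hdvd
  rw [Polynomial.X_dvd_iff, Polynomial.coeff_zero_eq_eval_zero, Polynomial.eval_mul,
    Polynomial.eval_C, Polynomial.eval_prod] at hdvd2
  refine mul_ne_zero ha' (Finset.prod_ne_zero_iff.2 fun x hx => ?_) hdvd2
  rw [Polynomial.eval_pow]
  refine pow_ne_zero _ ?_
  rw [Polynomial.eval_sub, Polynomial.eval_X, Polynomial.eval_C, zero_sub]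
  refine neg_ne_zero.2 fun h0 => ?_
  obtain ⟨hx1, hx2⟩ := Finset.mem_erase.1 hx
  apply hx1
  have := krs_inj ht (h0.trans hk11.symm)
  exact Prod.ext this.1 this.2

end

end WPQ.KV
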