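import Pool.Agent.WPQ.KV1

/-! [WPQ-KV15] (`Lk_bm_neg`; the rest is KV15b) The commutators of `L(k)` with the Heisenberg operators.

`[L(k), b(m)] = -m b(m+k) - k(k+1)(t-1) δ_{m+k,0}`, `b = bm t κ`.
`m = 0` is trivial.  `m = -(j+1) < 0`: `b(m) = 2t(j+1) X_j`.  `k > 0`: `[L(k), X_j] = [k ≤ j] (j+1-k) X_(j-k) + δ_{j,k-1} (κ-(k+1)τ)/(2t) + [j ≤ k-2] (1/(2t)) ∂_(k-2-j)`
(`τ = t - 1`; `[∂_n ∂_(k-2-n), X_j] = δ_{n,j} ∂_(k-2-n) + δ_{k-2-n,j} ∂_n`); times `2t(j+1)`: `(j+1) b(k-j-1)` in the three cases, and for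
`j = k-1`: `k (κ - (k+1)τ)`.  `k = 0`: `[L(0), X_j] = (j+1) X_j`.  `k < 0`: `[L(k), X_j] = (j+1+|k|) X_(j+|k|)`.
`m = j+1 > 0`: `b(m) = ∂_j`.  `k ≥ 0`: `[L(k), ∂_j] = -(j+1) ∂_(j+k)` (`[D, ∂_j] = -∑_n ∂_j(D X_n) ∂_n`).  `k = -K < 0`:
`[L(k), ∂_j] = -[K ≤ j] (j+1) ∂_(j-K) - ∂_j (qk t κ K)`, and `∂_j qk = δ_{j,K-1} K(κ+(K-1)τ) + [j ≤ K-2] 2t (j+1)(K-1-j) X_(K-2-j)`: this is
`(j+1) b(j+1-K)` in the three cases, minus `k(k+1)τ` for `K = j+1` (`K(κ+(K-1)τ) = (j+1)κ + K(K-1)τ`, `k(k+1) = K(K-1)`).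
All identities of operators are checked on polynomials via derivations (`Derivation.leibniz`, `pderiv_X`, `MvPolynomial.induction_on`,
`MvPolynomial.derivation_ext` for commutators of derivations). -/

namespace WPQ.KV

open MvPolynomial

noncomputable section

theorem kv15_bm_neg (t κ : ℂ) (j : ℕ) (f : Ph ℂ) :
    bm t κ (-((j : ℤ) + 1)) f = (2 * t * ((j : ℂ) + 1)) • ((X j : Ph ℂ) * f) := by
  have h1 : ¬ (0 : ℤ) < -((j : ℤ) + 1) := by omega
  have h2 : ¬ (-((j : ℤ) + 1) = 0) := by omega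
  have h3 : (- -((j : ℤ) + 1)).toNat - 1 = j := by omega
  unfold bm
  rw [if_neg h1, if_neg h2, h3, LinearMap.smul_apply, LinearMap.mulLeft_apply]
  congr 1
  push_cast
  ring

theorem kv15_bm_pos (t κ : ℂ) (j : ℕ) (f : Ph ℂ) :
    bm t κ ((j : ℤ) + 1) f = pderiv (R := ℂ) j f := by
  have h1 : (0 : ℤ) < (j : ℤ) + 1 := by omega
  have h3 : ((j : ℤ) + 1).toNat - 1 = j := by omega
  unfold bm
  rw [if_pos h1, h3]
  rfl

theorem kv15_bm_zero (t κ : ℂ) (f : Ph ℂ) : bm t κ 0 f = κ • f := by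
  unfold bm
  rw [if_neg (by norm_num), if_pos rfl]
  rfl

theorem kv15_Lk_pos (t κ : ℂ) (K : ℕ) (f : Ph ℂ) :
    Lk t κ ((K : ℤ) + 1) f =
      mkDerivation ℂ (fun n : ℕ =>
        if K + 1 ≤ n then C ((n : ℂ) + 1 - ((K : ℂ) + 1)) * (X (n - (K + 1)) : Ph ℂ) else 0) f +
      ((κ - ((K : ℂ) + 1 + 1) * (t - 1)) / (2 * t)) • pderiv (R := ℂ) K f +
      (1 / (4 * t)) • ∑ n ∈ Finset.range K, pderiv (R := ℂ) n (pderiv (R := ℂ) (K - 1 - n) f) := by
  have h1 : (0 : ℤ) < (K : ℤ) + 1 := by omega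
  have h2 : ((K : ℤ) + 1).toNat = K + 1 := by omega
  unfold Lk
  rw [if_pos h1, h2]
  have h3 : K + 1 - 1 = K := by omega
  have h4 : ∀ n, K + 1 - 2 - n = K - 1 - n := by intro n; omega
  simp only [h3, h4, LinearMap.add_apply, LinearMap.smul_apply, LinearMap.sum_apply,
    LinearMap.comp_apply]
  push_cast
  rfl

theorem kv15_Lk_zero (t κ : ℂ) (f : Ph ℂ) :
    Lk t κ 0 f = mkDerivation ℂ (fun n : ℕ => C ((n : ℂ) + 1) * (X n : Ph ℂ)) f + hk t κ • f := by
  unfold Lk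
  rw [if_neg (by norm_num), if_pos rfl]
  rfl

theorem kv15_Lk_neg (t κ : ℂ) (K : ℕ) (f : Ph ℂ) :
    Lk t κ (-((K : ℤ) + 1)) f =
      mkDerivation ℂ (fun n : ℕ => C ((n : ℂ) + 1 + ((K : ℂ) + 1)) * (X (n + (K + 1)) : Ph ℂ)) f +
        qk t κ (K + 1) * f := by
  have h1 : ¬ (0 : ℤ) < -((K : ℤ) + 1) := by omega
  have h2 : ¬ (-((K : ℤ) + 1) = 0) := by omega
  have h3 : (- -((K : ℤ) + 1)).toNat = K + 1 := by omega
  unfold Lk
  rw [if_neg h1, if_neg h2, h3]
  unfold Ln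
  simp only [LinearMap.add_apply, LinearMap.mulLeft_apply]
  push_cast
  rfl

theorem kv15_pX (i j : ℕ) (f : Ph ℂ) : pderiv (R := ℂ) i ((X j : Ph ℂ) * f) =
    (if j = i then f else 0) + X j * pderiv (R := ℂ) i f := by
  rw [Derivation.leibniz, pderiv_X, smul_eq_mul, smul_eq_mul, add_comm]
  congr 1
  by_cases h : j = i
  · subst h
    simp
  · rw [if_neg h, Pi.single_eq_of_ne (by exact h), mul_zero]

theorem Lk_bm_neg (t κ : ℂ) (ht : t ≠ 0) (k : ℤ) (j : ℕ) (f : Ph ℂ) :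
    Lk t κ k (bm t κ (-((j : ℤ) + 1)) f) - bm t κ (-((j : ℤ) + 1)) (Lk t κ k f) =
      ((j : ℂ) + 1) • bm t κ (k - ((j : ℤ) + 1)) f -
        (if k = (j : ℤ) + 1 then ((k : ℂ) * (k + 1) * (t - 1)) • f else 0) := by
  rw [kv15_bm_neg, kv15_bm_neg, map_smul, ← smul_sub]
  rcases lt_trichotomy k 0 with hk | hk | hk
  · obtain ⟨K, rfl⟩ : ∃ K : ℕ, k = -((K : ℤ) + 1) := ⟨(-k).toNat - 1, by omega⟩
    have e1 : (-((K : ℤ) + 1)) - ((j : ℤ) + 1) = -(((j + (K + 1) : ℕ) : ℤ) + 1) := by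
      push_cast; ring
    rw [e1, kv15_bm_neg, if_neg (by omega), sub_zero, kv15_Lk_neg, kv15_Lk_neg,
      Derivation.leibniz, mkDerivation_X, smul_eq_mul, smul_eq_mul]
    simp only [smul_eq_C_mul]
    push_cast
    simp only [C_add, C_mul, C_1]
    ring
  · subst hk
    have e1 : (0 : ℤ) - ((j : ℤ) + 1) = -((j : ℤ) + 1) := by ring
    rw [e1, kv15_bm_neg, if_neg (by omega), sub_zero, kv15_Lk_zero, kv15_Lk_zero,
      Derivation.leibniz, mkDerivation_X, smul_eq_mul, smul_eq_mul]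
    simp only [smul_eq_C_mul]
    simp only [C_add, C_mul, C_1]
    ring
  · obtain ⟨K, rfl⟩ : ∃ K : ℕ, k = (K : ℤ) + 1 := ⟨k.toNat - 1, by omega⟩
    rw [kv15_Lk_pos, kv15_Lk_pos, Derivation.leibniz, mkDerivation_X, smul_eq_mul, smul_eq_mul]
    have hsum : ∑ n ∈ Finset.range K, pderiv (R := ℂ) n (pderiv (R := ℂ) (K - 1 - n) (X j * f)) =
        (∑ n ∈ Finset.range K, (if j = K - 1 - n then pderiv (R := ℂ) n f else 0)) +
        (∑ n ∈ Finset.range K, (if j = n then pderiv (R := ℂ) (K - 1 - n) f else 0)) +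
        X j * ∑ n ∈ Finset.range K, pderiv (R := ℂ) n (pderiv (R := ℂ) (K - 1 - n) f) := by
      rw [Finset.mul_sum, ← Finset.sum_add_distrib, ← Finset.sum_add_distrib]
      refine Finset.sum_congr rfl fun n _ => ?_
      rw [kv15_pX, map_add, kv15_pX]
      by_cases h : j = K - 1 - n
      · simp only [if_pos h]
        ring
      · simp only [if_neg h, map_zero]
        ring
    have hs1 : ∑ n ∈ Finset.range K, (if j = K - 1 - n then pderiv (R := ℂ) n f else 0) =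
        if j + 1 ≤ K then pderiv (R := ℂ) (K - 1 - j) f else 0 := by
      by_cases h : j + 1 ≤ K
      · rw [if_pos h, Finset.sum_eq_single (K - 1 - j)]
        · rw [if_pos (by omega)]
        · intro n hn hne
          rw [Finset.mem_range] at hn
          rw [if_neg (by omega)]
        · intro hn
          rw [Finset.mem_range] at hn
          omega
      · rw [if_neg h]
        refine Finset.sum_eq_zero fun n hn => ?_
        rw [Finset.mem_range] at hn
        rw [if_neg (by omega)]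
    have hs2 : ∑ n ∈ Finset.range K, (if j = n then pderiv (R := ℂ) (K - 1 - n) f else 0) =
        if j + 1 ≤ K then pderiv (R := ℂ) (K - 1 - j) f else 0 := by
      by_cases h : j + 1 ≤ K
      · rw [if_pos h, Finset.sum_eq_single j]
        · rw [if_pos rfl]
        · intro n hn hne
          rw [if_neg (by omega)]
        · intro hn
          rw [Finset.mem_range] at hn
          omega
      · rw [if_neg h]
        refine Finset.sum_eq_zero fun n hn => ?_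
        rw [Finset.mem_range] at hn
        rw [if_neg (by omega)]
    rw [hsum, hs1, hs2, kv15_pX]
    rcases lt_trichotomy j K with h | h | h
    · -- `j < K`
      have e1 : ((K : ℤ) + 1) - ((j : ℤ) + 1) = ((K - 1 - j : ℕ) : ℤ) + 1 := by omega
      rw [e1, kv15_bm_pos, if_neg (by omega : ¬ K + 1 ≤ j), if_neg (by omega : ¬ j = K),
        if_pos (by omega : j + 1 ≤ K), if_neg (by omega), sub_zero]
      simp only [smul_eq_C_mul]
      have hC : (C (2 * t * ((j : ℂ) + 1)) : Ph ℂ) * C (1 / (4 * t)) * 2 = C ((j : ℂ) + 1) := by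
        rw [← C_mul, show (2 : Ph ℂ) = C 2 from rfl, ← C_mul]
        congr 1
        field_simp
        ring
      linear_combination (pderiv (R := ℂ) (K - 1 - j) f) * hC
    · subst h
      have e1 : ((j : ℤ) + 1) - ((j : ℤ) + 1) = 0 := by ring
      rw [e1, kv15_bm_zero, if_neg (by omega : ¬ j + 1 ≤ j), if_pos rfl,
        if_neg (by omega : ¬ j + 1 ≤ j), if_pos rfl]
      simp only [smul_eq_C_mul]
      have hC : (C (2 * t * ((j : ℂ) + 1)) : Ph ℂ) *
          C ((κ - ((j : ℂ) + 1 + 1) * (t - 1)) / (2 * t)) =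
          C ((j : ℂ) + 1) * C κ - C (((j : ℂ) + 1) * ((j : ℂ) + 1 + 1) * (t - 1)) := by
        rw [← C_mul, ← C_mul, ← C_sub]
        congr 1
        field_simp
      push_cast
      linear_combination f * hC
    · have e1 : ((K : ℤ) + 1) - ((j : ℤ) + 1) = -(((j - (K + 1) : ℕ) : ℤ) + 1) := by omega
      rw [e1, kv15_bm_neg, if_pos (by omega : K + 1 ≤ j), if_neg (by omega : ¬ j = K),
        if_neg (by omega : ¬ j + 1 ≤ K), if_neg (by omega), sub_zero]
      simp only [smul_eq_C_mul]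
      have hc : ((j - (K + 1) : ℕ) : ℂ) = (j : ℂ) - (K + 1) := by
        rw [Nat.cast_sub (by omega)]
        push_cast
        ring
      rw [hc]
      simp only [C_add, C_mul, C_1, C_sub]
      ring

end

end WPQ.KV
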