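import Pool.Agent.WPQ.KV15

/-! [WPQ-KV15b] (`Lk_bm_pos`, `Lk_bm`; `Lk_bm_neg` is KV15) The commutators of `L(k)` with the Heisenberg operators.

`[L(k), b(m)] = -m b(m+k) - k(k+1)(t-1) δ_{m+k,0}`, `b = bm t κ`.
`m = 0` is trivial.  `m = -(j+1) < 0`: `b(m) = 2t(j+1) X_j`.  `k > 0`: `[L(k), X_j] = [k ≤ j] (j+1-k) X_(j-k) + δ_{j,k-1} (κ-(k+1)τ)/(2t) + [j ≤ k-2] (1/(2t)) ∂_(k-2-j)`
(`τ = t - 1`; `[∂_n ∂_(k-2-n), X_j] = δ_{n,j} ∂_(k-2-n) + δ_{k-2-n,j} ∂_n`); times `2t(j+1)`: `(j+1) b(k-j-1)` in the three cases, and for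
`j = k-1`: `k (κ - (k+1)τ)`.  `k = 0`: `[L(0), X_j] = (j+1) X_j`.  `k < 0`: `[L(k), X_j] = (j+1+|k|) X_(j+|k|)`.
`m = j+1 > 0`: `b(m) = ∂_j`.  `k ≥ 0`: `[L(k), ∂_j] = -(j+1) ∂_(j+k)` (`[D, ∂_j] = -∑_n ∂_j(D X_n) ∂_n`).  `k = -K < 0`:
`[L(k), ∂_j] = -[K ≤ j] (j+1) ∂_(j-K) - ∂_j (qk t κ K)`, and `∂_j qk = δ_{j,K-1} K(κ+(K-1)τ) + [j ≤ K-2] 2t (j+1)(K-1-j) X_(K-2-j)`: this is
`(j+1) b(j+1-K)` in the three cases, minus `k(k+1)τ` for `K = j+1` (`K(κ+(K-1)τ) = (j+1)κ + K(K-1)τ`, `k(k+1) = K(K-1)`).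
All identities of operators are checked on polynomials via derivations (`Derivation.leibniz`, `pderiv_X`, `MvPolynomial.induction_on`,
`MvPolynomial.derivation_ext` for commutators of derivations). -/

namespace WPQ.KV

open MvPolynomial

noncomputable section

theorem kv15b_comm (g : ℕ → Ph ℂ) (j r : ℕ) (c : ℂ)
    (h : ∀ n, pderiv (R := ℂ) j (g n) = if n = r then C c else 0) (f : Ph ℂ) :
    mkDerivation ℂ g (pderiv (R := ℂ) j f) - pderiv (R := ℂ) j (mkDerivation ℂ g f) =
      (-c) • pderiv (R := ℂ) r f := by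
  have key : ⁅mkDerivation ℂ g, pderiv (R := ℂ) j⁆ = (-c) • pderiv (R := ℂ) r := by
    refine MvPolynomial.derivation_ext fun n => ?_
    rw [Derivation.commutator_apply, mkDerivation_X, h n, Derivation.smul_apply, pderiv_X, pderiv_X]
    have h0 : mkDerivation ℂ g (Pi.single (M := fun _ => Ph ℂ) j 1 n) = 0 := by
      by_cases hn : n = j
      · subst hn
        rw [Pi.single_eq_same, Derivation.map_one_eq_zero]
      · rw [Pi.single_eq_of_ne hn, map_zero]
    rw [h0, zero_sub]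
    by_cases hn : n = r
    · subst hn
      rw [if_pos rfl, Pi.single_eq_same, smul_eq_C_mul, mul_one, C_neg]
    · rw [if_neg hn, Pi.single_eq_of_ne hn, smul_zero, neg_zero]
  have := congrArg (fun T : Derivation ℂ (Ph ℂ) (Ph ℂ) => T f) key
  simp only [Derivation.commutator_apply, Derivation.smul_apply] at this
  exact this

theorem kv15b_comm0 (g : ℕ → Ph ℂ) (j : ℕ)
    (h : ∀ n, pderiv (R := ℂ) j (g n) = 0) (f : Ph ℂ) :
    mkDerivation ℂ g (pderiv (R := ℂ) j f) - pderiv (R := ℂ) j (mkDerivation ℂ g f) = 0 := by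
  have := kv15b_comm g j 0 0 (by intro n; rw [h n]; simp) f
  rw [this]
  simp

theorem kv15b_pCX (i j : ℕ) (c : ℂ) : pderiv (R := ℂ) i (C c * (X j : Ph ℂ)) =
    if j = i then C c else 0 := by
  rw [pderiv_C_mul, pderiv_X]
  by_cases h : j = i
  · subst h
    simp
  · rw [if_neg h, Pi.single_eq_of_ne (by exact h), mul_zero]

theorem kv15b_pX (i j : ℕ) : pderiv (R := ℂ) i (X j : Ph ℂ) = if j = i then 1 else 0 := by
  rw [pderiv_X]
  by_cases h : j = i
  · subst h
    simp
  · rw [if_neg h, Pi.single_eq_of_ne (by exact h)]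

theorem kv15b_qk (t κ : ℂ) (K j : ℕ) : pderiv (R := ℂ) j (qk t κ (K + 1)) =
    (if j = K then C (((K : ℂ) + 1) * (κ + (K : ℂ) * (t - 1))) else 0) +
    (if j + 1 ≤ K then C (2 * t * (((j : ℂ) + 1) * ((K : ℂ) - j))) * (X (K - 1 - j) : Ph ℂ) else 0) := by
  unfold qk
  have h3 : K + 1 - 1 = K := by omega
  have h4 : ∀ n, K + 1 - 2 - n = K - 1 - n := by intro n; omega
  simp only [h3, h4]
  rw [map_add, kv15b_pCX]
  congr 1
  · by_cases h : j = K
    · subst h
      rw [if_pos rfl, if_pos rfl]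
      congr 1
      push_cast
      ring
    · rw [if_neg h, if_neg (Ne.symm h)]
  · rw [pderiv_C_mul, map_sum]
    have hterm : ∀ n : ℕ, pderiv (R := ℂ) j
        (C (((n : ℂ) + 1) * (((K + 1 : ℕ) : ℂ) - 1 - n)) * ((X n : Ph ℂ) * X (K - 1 - n))) =
        (if j = n then C (((n : ℂ) + 1) * ((K : ℂ) - n)) * (X (K - 1 - n) : Ph ℂ) else 0) +
        (if j = K - 1 - n then C (((n : ℂ) + 1) * ((K : ℂ) - n)) * (X n : Ph ℂ) else 0) := by
      intro n
      have hc : (((K + 1 : ℕ) : ℂ) - 1 - n) = (K : ℂ) - n := by push_cast; ring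
      rw [hc, pderiv_C_mul, Derivation.leibniz, kv15b_pX, kv15b_pX]
      simp only [smul_eq_mul, mul_ite, mul_one, mul_zero, mul_add]
      rw [add_comm]
      congr 1
      · by_cases h : j = n
        · rw [if_pos h, if_pos h.symm]
        · rw [if_neg h, if_neg (Ne.symm h)]
      · by_cases h : j = K - 1 - n
        · rw [if_pos h, if_pos h.symm]
        · rw [if_neg h, if_neg (Ne.symm h)]
    rw [Finset.sum_congr rfl fun n _ => hterm n, Finset.sum_add_distrib]
    by_cases h : j + 1 ≤ K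
    · rw [if_pos h]
      rw [Finset.sum_eq_single (f := fun n => if j = n then _ else _) j]
      rotate_left
      · intro n hn hne
        rw [if_neg (by omega)]
      · intro hn
        rw [Finset.mem_range] at hn
        omega
      rw [Finset.sum_eq_single (f := fun n => if j = K - 1 - n then _ else _) (K - 1 - j)]
      rotate_left
      · intro n hn hne
        rw [Finset.mem_range] at hn
        rw [if_neg (by omega)]
      · intro hn
        rw [Finset.mem_range] at hn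
        omega
      rw [if_pos rfl, if_pos (by omega)]
      have hc : ((K - 1 - j : ℕ) : ℂ) = (K : ℂ) - 1 - j := by
        rw [Nat.cast_sub (by omega), Nat.cast_sub (by omega)]
        push_cast
        ring
      rw [hc, ← add_mul, ← C_add, ← mul_assoc, ← C_mul]
      congr 2
      ring
    · rw [if_neg h, Finset.sum_eq_zero, Finset.sum_eq_zero, add_zero, mul_zero]
      · intro n hn
        rw [Finset.mem_range] at hn
        rw [if_neg (by omega)]
      · intro n hn
        rw [Finset.mem_range] at hn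
        rw [if_neg (by omega)]

theorem Lk_bm_pos (t κ : ℂ) (ht : t ≠ 0) (k : ℤ) (j : ℕ) (f : Ph ℂ) :
    Lk t κ k (bm t κ ((j : ℤ) + 1) f) - bm t κ ((j : ℤ) + 1) (Lk t κ k f) =
      (-((j : ℂ) + 1)) • bm t κ (k + ((j : ℤ) + 1)) f -
        (if k + ((j : ℤ) + 1) = 0 then ((k : ℂ) * (k + 1) * (t - 1)) • f else 0) := by
  rw [kv15_bm_pos, kv15_bm_pos]
  rcases lt_trichotomy k 0 with hk | hk | hk
  · obtain ⟨K, rfl⟩ : ∃ K : ℕ, k = -((K : ℤ) + 1) := ⟨(-k).toNat - 1, by omega⟩
    rw [kv15_Lk_neg, kv15_Lk_neg, map_add, Derivation.leibniz, kv15b_qk]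
    rcases lt_trichotomy j K with h | h | h
    · have e1 : -((K : ℤ) + 1) + ((j : ℤ) + 1) = -(((K - 1 - j : ℕ) : ℤ) + 1) := by omega
      rw [e1, kv15_bm_neg, if_neg (by omega : ¬ j = K),
        if_pos (by omega : j + 1 ≤ K), if_neg (by omega), sub_zero]
      have h0 := kv15b_comm0 (fun n : ℕ => C ((n : ℂ) + 1 + ((K : ℂ) + 1)) * (X (n + (K + 1)) : Ph ℂ)) j
        (by
          intro n
          try dsimp only
          rw [kv15b_pCX, if_neg (by omega)]) f
      have hc : ((K - 1 - j : ℕ) : ℂ) = (K : ℂ) - 1 - j := by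
        rw [Nat.cast_sub (by omega), Nat.cast_sub (by omega)]
        push_cast
        ring
      rw [hc]
      simp only [smul_eq_C_mul, smul_eq_mul]
      have hC : (C (2 * t * (((j : ℂ) + 1) * ((K : ℂ) - j))) : Ph ℂ) =
        C ((j : ℂ) + 1) * C (2 * t * ((K : ℂ) - 1 - j + 1)) := by
        rw [← C_mul]
        congr 1
        ring
      rw [hC, C_neg]
      linear_combination h0
    · subst h
      have e1 : -((j : ℤ) + 1) + ((j : ℤ) + 1) = 0 := by ring
      rw [e1, kv15_bm_zero, if_pos rfl, if_pos rfl, if_neg (by omega)]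
      have h0 := kv15b_comm0 (fun n : ℕ => C ((n : ℂ) + 1 + ((j : ℂ) + 1)) * (X (n + (j + 1)) : Ph ℂ)) j
        (by
          intro n
          try dsimp only
          rw [kv15b_pCX, if_neg (by omega)]) f
      simp only [smul_eq_C_mul, smul_eq_mul]
      have hC : (C (((j : ℂ) + 1) * (κ + (j : ℂ) * (t - 1))) : Ph ℂ) =
        C ((j : ℂ) + 1) * C κ + C ((((-((j : ℤ) + 1) : ℤ)) : ℂ) * (((-((j : ℤ) + 1) : ℤ) : ℂ) + 1) * (t - 1)) := by
        rw [← C_mul, ← C_add]
        congr 1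
        push_cast
        ring
      rw [hC, C_neg]
      linear_combination h0
    · have e1 : -((K : ℤ) + 1) + ((j : ℤ) + 1) = ((j - K - 1 : ℕ) : ℤ) + 1 := by omega
      rw [e1, kv15_bm_pos, if_neg (by omega : ¬ j = K),
        if_neg (by omega : ¬ j + 1 ≤ K), if_neg (by omega), sub_zero]
      have h0 := kv15b_comm (fun n : ℕ => C ((n : ℂ) + 1 + ((K : ℂ) + 1)) * (X (n + (K + 1)) : Ph ℂ)) j
        (j - K - 1) ((j : ℂ) + 1)
        (by
          intro n
          try dsimp only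
          rw [kv15b_pCX]
          by_cases hn : n = j - K - 1
          · rw [if_pos hn, if_pos (by omega)]
            congr 1
            have : (j : ℂ) = (n : ℂ) + K + 1 := by
              have : j = n + K + 1 := by omega
              rw [this]
              push_cast
              ring
            rw [this]
            ring
          · rw [if_neg hn, if_neg (by omega)]) f
      simp only [smul_eq_C_mul, smul_eq_mul] at h0 ⊢
      linear_combination h0
  · subst hk
    have e1 : (0 : ℤ) + ((j : ℤ) + 1) = ((j : ℤ) + 1) := by ring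
    rw [e1, kv15_bm_pos, if_neg (by omega), sub_zero, kv15_Lk_zero, kv15_Lk_zero, map_add,
      (pderiv (R := ℂ) j).map_smul]
    have h0 := kv15b_comm (fun n : ℕ => C ((n : ℂ) + 1) * (X n : Ph ℂ)) j j ((j : ℂ) + 1)
      (by
        intro n
        try dsimp only
        rw [kv15b_pCX]
        by_cases hn : n = j
        · rw [if_pos hn, if_pos hn, hn]
        · rw [if_neg hn, if_neg hn]) f
    rw [← h0]
    abel
  · obtain ⟨K, rfl⟩ : ∃ K : ℕ, k = (K : ℤ) + 1 := ⟨k.toNat - 1, by omega⟩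
    have e1 : ((K : ℤ) + 1) + ((j : ℤ) + 1) = ((j + K + 1 : ℕ) : ℤ) + 1 := by push_cast; ring
    rw [e1, kv15_bm_pos, if_neg (by omega), sub_zero, kv15_Lk_pos, kv15_Lk_pos]
    have h0 := kv15b_comm (fun n : ℕ =>
        if K + 1 ≤ n then C ((n : ℂ) + 1 - ((K : ℂ) + 1)) * (X (n - (K + 1)) : Ph ℂ) else 0) j
      (j + K + 1) ((j : ℂ) + 1)
      (by
        intro n
        try dsimp only
        by_cases hn : n = j + K + 1
        · rw [if_pos hn, if_pos (by omega), kv15b_pCX, if_pos (by omega)]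
          congr 1
          rw [hn]
          push_cast
          ring
        · rw [if_neg hn]
          by_cases hn2 : K + 1 ≤ n
          · rw [if_pos hn2, kv15b_pCX, if_neg (by omega)]
          · rw [if_neg hn2, map_zero]) f
    have hcm : ∀ (a b : ℕ) (y : Ph ℂ), pderiv (R := ℂ) a (pderiv (R := ℂ) b y) =
        pderiv (R := ℂ) b (pderiv (R := ℂ) a y) := by
      intro a b y
      have key : ⁅pderiv (R := ℂ) (σ := ℕ) a, pderiv (R := ℂ) b⁆ = 0 := by
        refine MvPolynomial.derivation_ext fun n => ?_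
        rw [Derivation.commutator_apply, kv15b_pX, kv15b_pX]
        split_ifs <;> simp
      have := congrArg (fun T : Derivation ℂ (Ph ℂ) (Ph ℂ) => T y) key
      simp only [Derivation.commutator_apply, Derivation.zero_apply] at this
      exact sub_eq_zero.mp this
    have hs : pderiv (R := ℂ) j (∑ n ∈ Finset.range K, pderiv (R := ℂ) n (pderiv (R := ℂ) (K - 1 - n) f)) =
        ∑ n ∈ Finset.range K, pderiv (R := ℂ) n (pderiv (R := ℂ) (K - 1 - n) (pderiv (R := ℂ) j f)) := by
      rw [map_sum]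
      refine Finset.sum_congr rfl fun n _ => ?_
      rw [hcm j n, hcm j (K - 1 - n)]
    rw [map_add, map_add, (pderiv (R := ℂ) j).map_smul, (pderiv (R := ℂ) j).map_smul, hs, hcm j K,
      ← h0]
    abel

theorem Lk_bm (t κ : ℂ) (ht : t ≠ 0) (k m : ℤ) (f : Ph ℂ) :
    Lk t κ k (bm t κ m f) - bm t κ m (Lk t κ k f) =
      (-(m : ℂ)) • bm t κ (k + m) f -
        (if k + m = 0 then ((k : ℂ) * (k + 1) * (t - 1)) • f else 0) := by
  rcases lt_trichotomy m 0 with hm | hm | hm
  · obtain ⟨j, rfl⟩ : ∃ j : ℕ, m = -((j : ℤ) + 1) := ⟨(-m).toNat - 1, by omega⟩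
    rw [Lk_bm_neg t κ ht k j f]
    congr 1
    · push_cast
      rw [neg_neg]
      rfl
    · by_cases h : k = (j : ℤ) + 1
      · rw [if_pos h, if_pos (by omega)]
      · rw [if_neg h, if_neg (by omega)]
  · subst hm
    rw [add_zero, kv15_bm_zero, kv15_bm_zero, map_smul, sub_self]
    by_cases h : k = 0
    · subst h
      simp
    · rw [if_neg h]
      simp
  · obtain ⟨j, rfl⟩ : ∃ j : ℕ, m = (j : ℤ) + 1 := ⟨m.toNat - 1, by omega⟩
    rw [Lk_bm_pos t κ ht k j f]
    push_cast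
    rfl

end

end WPQ.KV
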