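import Pool.Agent.WPQ.KV1

/-! [WPQ-KV16a] Operators commuting with the Heisenberg algebra.

`scalar_of_comm`: `Δ` commutes with all `X j` and all `∂_j` (from `bm` with `m ≠ 0`, `t ≠ 0`).  `∂_j (Δ 1) = Δ (∂_j 1) = 0` for all `j`, so `Δ 1`
is a constant `a` (a polynomial over `ℂ` with all partial derivatives zero is constant: its coefficients at `e ≠ 0` vanish, `coeff_pderiv`-like),
and `Δ f = a f` by `MvPolynomial.induction_on` (C, +, * X). -/

namespace WPQ.KV

open MvPolynomial

noncomputable section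

theorem kv16a_const (p : Ph ℂ) (h : ∀ j, pderiv (R := ℂ) j p = 0) : p = C (coeff 0 p) := by
  classical
  ext e
  rw [coeff_C]
  by_cases he : 0 = e
  · rw [if_pos he, he]
  · rw [if_neg he]
    obtain ⟨j, hj⟩ : ∃ j, e j ≠ 0 := by
      by_contra hc
      push Not at hc
      exact he (Finsupp.ext fun j => (hc j).symm)
    have h1 := coeff_pderiv (i := j) p (e - Finsupp.single j 1)
    rw [h j, coeff_zero] at h1
    have h2 : e - Finsupp.single j 1 + Finsupp.single j 1 = e := by
      apply tsub_add_cancel_of_le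
      intro i
      by_cases hi : j = i
      · subst hi
        simp only [Finsupp.single_eq_same]
        omega
      · rw [Finsupp.single_apply, if_neg hi]
        exact Nat.zero_le _
    rw [h2] at h1
    have h3 : (((e - Finsupp.single j 1 : ℕ →₀ ℕ) j : ℕ) : ℂ) + 1 ≠ 0 := by
      exact Nat.cast_add_one_ne_zero _
    rcases mul_eq_zero.1 h1.symm with h4 | h4
    · exact h4
    · exact absurd h4 h3

theorem scalar_of_comm (t κ : ℂ) (ht : t ≠ 0) (Δ : Ph ℂ →ₗ[ℂ] Ph ℂ)
    (h : ∀ (m : ℤ) (f : Ph ℂ), m ≠ 0 → Δ (bm t κ m f) = bm t κ m (Δ f)) :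
    ∃ a : ℂ, ∀ f, Δ f = a • f := by
  have hd : ∀ (j : ℕ) (f : Ph ℂ), Δ (pderiv (R := ℂ) j f) = pderiv (R := ℂ) j (Δ f) := by
    intro j f
    have h1 := h ((j : ℤ) + 1) f (by omega)
    have h2 : bm t κ ((j : ℤ) + 1) = (pderiv (R := ℂ) j).toLinearMap := by
      unfold bm
      rw [if_pos (by omega)]
      have : ((j : ℤ) + 1).toNat - 1 = j := by omega
      rw [this]
    rw [h2] at h1
    exact h1
  have hx : ∀ (j : ℕ) (f : Ph ℂ), Δ (X j * f) = X j * Δ f := by
    intro j f
    have h1 := h (-((j : ℤ) + 1)) f (by omega)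
    have h2 : bm t κ (-((j : ℤ) + 1)) =
        (-2 * t * ((-((j : ℤ) + 1) : ℤ) : ℂ)) • LinearMap.mulLeft ℂ (X j : Ph ℂ) := by
      unfold bm
      rw [if_neg (by omega), if_neg (by omega)]
      have : (-(-((j : ℤ) + 1))).toNat - 1 = j := by omega
      rw [this]
    rw [h2] at h1
    simp only [LinearMap.smul_apply, LinearMap.mulLeft_apply, map_smul] at h1
    have h3 : (-2 * t * ((-((j : ℤ) + 1) : ℤ) : ℂ)) ≠ 0 := by
      have h4 : ((-((j : ℤ) + 1) : ℤ) : ℂ) ≠ 0 := by
        exact_mod_cast (by omega : (-((j : ℤ) + 1)) ≠ 0)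
      exact mul_ne_zero (mul_ne_zero (by norm_num) ht) h4
    exact smul_right_injective _ h3 h1
  have hc := kv16a_const (Δ 1) fun j => by
    rw [← hd, pderiv_one, map_zero]
  refine ⟨coeff 0 (Δ 1), fun f => ?_⟩
  induction f using MvPolynomial.induction_on with
  | C a =>
    have : (C a : Ph ℂ) = a • (1 : Ph ℂ) := by rw [smul_eq_C_mul, mul_one]
    rw [this, map_smul, hc, coeff_C, if_pos rfl, smul_eq_C_mul, smul_smul, smul_eq_C_mul, mul_one,
      ← C_mul, mul_comm]
  | add p q hp hq => rw [map_add, hp, hq, smul_add]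
  | mul_X p j hp => rw [mul_comm, hx, hp, mul_smul_comm]

end

end WPQ.KV
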