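import Pool.Agent.WPQ.KV1

/-! [WPQ-KV16b] Degrees; `L(k) L(-k) 1`.

`Lk_homog`: `L(k)` maps weight `d` to weight `d - k` (`0` if `d < k`).
`Lk_Lneg_one`: `L(k) L(-k) 1 = (2k h + c/12 (k³-k)) 1` for `k ≥ 1`: `L(-k) 1 = qk t κ k`, the derivation part of `L(k)` kills it,
`((κ-(k+1)τ)/(2t)) k(κ+(k-1)τ) + (1/4t) ∑_n ∑_j t (j+1)(k-1-j) ∂_n∂_(k-2-n)(X_j X_(k-2-j))` `= … + (1/2) ∑_{n<k-1} (n+1)(k-1-n)`,
`∑_{n<k-1} (n+1)(k-1-n) = (k³-k)/6` (induction), `cc t = 1 - 6τ²/t`. -/

namespace WPQ.KV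

open MvPolynomial

noncomputable section

/-- one term of the derivation of a monomial -/
theorem kv16b_term (g : ℕ → Ph ℂ) (k : ℤ)
    (hg : ∀ (n e : ℕ), (e : ℤ) = (n : ℤ) + 1 - k → IsWeightedHomogeneous wt (g n) e)
    (hg' : ∀ n : ℕ, (n : ℤ) + 1 < k → g n = 0) (s : ℕ →₀ ℕ) (i : ℕ) (hi : s i ≠ 0) (a : ℂ) :
    (∀ e : ℕ, (e : ℤ) = (Finsupp.weight wt s : ℕ) - k →
      IsWeightedHomogeneous wt (monomial (s - Finsupp.single i 1) a * g i) e) ∧
    (((Finsupp.weight wt s : ℕ) : ℤ) < k → monomial (s - Finsupp.single i 1) a * g i = 0) := by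
  have hw : Finsupp.weight wt (s - Finsupp.single i 1) + wt i = Finsupp.weight wt s :=
    Finsupp.weight_sub_single_add hi
  have hwi : wt i = i + 1 := rfl
  constructor
  · intro e he
    by_cases h : (i : ℤ) + 1 < k
    · rw [hg' i h, mul_zero]
      exact isWeightedHomogeneous_zero _ _ _
    · obtain ⟨e', he'⟩ : ∃ e' : ℕ, (e' : ℤ) = (i : ℤ) + 1 - k := ⟨((i : ℤ) + 1 - k).toNat, by omega⟩
      have h1 := (isWeightedHomogeneous_monomial wt (s - Finsupp.single i 1) a rfl).mul (hg i e' he')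
      have h2 : Finsupp.weight wt (s - Finsupp.single i 1) + e' = e := by
        omega
      rw [h2] at h1
      exact h1
  · intro hlt
    rw [hg' i (by omega), mul_zero]

theorem kv16b_mk (g : ℕ → Ph ℂ) (k : ℤ)
    (hg : ∀ (n e : ℕ), (e : ℤ) = (n : ℤ) + 1 - k → IsWeightedHomogeneous wt (g n) e)
    (hg' : ∀ n : ℕ, (n : ℤ) + 1 < k → g n = 0) (f : Ph ℂ) (d : ℕ)
    (hf : IsWeightedHomogeneous wt f d) :
    (∀ e : ℕ, (e : ℤ) = d - k → IsWeightedHomogeneous wt (mkDerivation ℂ g f) e) ∧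
    ((d : ℤ) < k → mkDerivation ℂ g f = 0) := by
  have hsum : mkDerivation ℂ g f = ∑ s ∈ f.support, coeff s f •
      ∑ i ∈ s.support, monomial (s - Finsupp.single i 1) (s i : ℂ) * g i := by
    conv_lhs => rw [← support_sum_monomial_coeff f]
    rw [map_sum]
    refine Finset.sum_congr rfl fun s _ => ?_
    rw [mkDerivation_monomial]
    rfl
  constructor
  · intro e he
    rw [hsum, ← mem_weightedHomogeneousSubmodule]
    refine Submodule.sum_mem _ fun s hs => Submodule.smul_mem _ _ (Submodule.sum_mem _ fun i hi => ?_)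
    rw [mem_weightedHomogeneousSubmodule]
    have hs' : Finsupp.weight wt s = d := hf (mem_support_iff.1 hs)
    exact (kv16b_term g k hg hg' s i (Finsupp.mem_support_iff.1 hi) _).1 e (by rw [hs']; exact he)
  · intro hlt
    rw [hsum]
    refine Finset.sum_eq_zero fun s hs => ?_
    have hs' : Finsupp.weight wt s = d := hf (mem_support_iff.1 hs)
    rw [Finset.sum_eq_zero, smul_zero]
    intro i hi
    exact (kv16b_term g k hg hg' s i (Finsupp.mem_support_iff.1 hi) _).2 (by rw [hs']; exact hlt)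

theorem kv16b_pd (i : ℕ) (f : Ph ℂ) (d : ℕ) (hf : IsWeightedHomogeneous wt f d) :
    (∀ e : ℕ, (e : ℤ) = d - ((i : ℤ) + 1) → IsWeightedHomogeneous wt (pderiv (R := ℂ) i f) e) ∧
    ((d : ℤ) < (i : ℤ) + 1 → pderiv (R := ℂ) i f = 0) := by
  rw [pderiv_def]
  refine kv16b_mk _ _ (fun n e he => ?_) (fun n hn => ?_) f d hf
  · by_cases hn : n = i
    · subst hn
      have : e = 0 := by omega
      subst this
      rw [Pi.single_eq_same]
      exact isWeightedHomogeneous_one _ _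
    · rw [Pi.single_eq_of_ne hn]
      exact isWeightedHomogeneous_zero _ _ _
  · rw [Pi.single_eq_of_ne]
    omega

/-- the derivation part, `k > 0` -/
theorem kv16b_der (k : ℤ) (f : Ph ℂ) (d : ℕ) (hf : IsWeightedHomogeneous wt f d) (hk : 0 < k) :
    (∀ e : ℕ, (e : ℤ) = d - k → IsWeightedHomogeneous wt (mkDerivation ℂ (fun n : ℕ =>
      if k.toNat ≤ n then C ((n : ℂ) + 1 - k) * (X (n - k.toNat) : Ph ℂ) else 0) f) e) ∧
    ((d : ℤ) < k → mkDerivation ℂ (fun n : ℕ =>
      if k.toNat ≤ n then C ((n : ℂ) + 1 - k) * (X (n - k.toNat) : Ph ℂ) else 0) f = 0) := by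
  refine kv16b_mk _ _ (fun n e he => ?_) (fun n hn => ?_) f d hf
  · by_cases hn : k.toNat ≤ n
    · simp only [if_pos hn]
      have h1 := (isWeightedHomogeneous_C (M := ℕ) wt ((n : ℂ) + 1 - k)).mul
        (isWeightedHomogeneous_X ℂ wt (n - k.toNat))
      have h2 : 0 + wt (n - k.toNat) = e := by
        unfold wt
        omega
      rw [h2] at h1
      exact h1
    · simp only [if_neg hn]
      exact isWeightedHomogeneous_zero _ _ _
  · rw [if_neg (by omega)]

theorem kv16b_pp (k : ℤ) (hk : 0 < k) (n : ℕ) (hn : n ∈ Finset.range (k.toNat - 1)) (f : Ph ℂ)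
    (d : ℕ) (hf : IsWeightedHomogeneous wt f d) :
    (∀ e : ℕ, (e : ℤ) = d - k →
      IsWeightedHomogeneous wt (pderiv (R := ℂ) n (pderiv (R := ℂ) (k.toNat - 2 - n) f)) e) ∧
    ((d : ℤ) < k → pderiv (R := ℂ) n (pderiv (R := ℂ) (k.toNat - 2 - n) f) = 0) := by
  have hn' := Finset.mem_range.1 hn
  have h1 := kv16b_pd (k.toNat - 2 - n) f d hf
  by_cases hd : (d : ℤ) < ((k.toNat - 2 - n : ℕ) : ℤ) + 1
  · rw [h1.2 hd, map_zero]
    exact ⟨fun e _ => isWeightedHomogeneous_zero _ _ _, fun _ => rfl⟩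
  · obtain ⟨d', hd'⟩ : ∃ d' : ℕ, (d' : ℤ) = d - (((k.toNat - 2 - n : ℕ) : ℤ) + 1) :=
      ⟨((d : ℤ) - (((k.toNat - 2 - n : ℕ) : ℤ) + 1)).toNat, by omega⟩
    have h2 := kv16b_pd n _ d' (h1.1 d' hd')
    refine ⟨fun e he => h2.1 e (by omega), fun hlt => h2.2 (by omega)⟩

theorem kv16b_pos (t κ : ℂ) (k : ℤ) (hk : 0 < k) (f : Ph ℂ) :
    Lk t κ k f = mkDerivation ℂ (fun n : ℕ =>
      if k.toNat ≤ n then C ((n : ℂ) + 1 - k) * (X (n - k.toNat) : Ph ℂ) else 0) f
    + ((κ - ((k : ℂ) + 1) * (t - 1)) / (2 * t)) • pderiv (R := ℂ) (k.toNat - 1) f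
    + (1 / (4 * t)) • ∑ n ∈ Finset.range (k.toNat - 1),
        pderiv (R := ℂ) n (pderiv (R := ℂ) (k.toNat - 2 - n) f) := by
  unfold Lk
  rw [if_pos hk]
  simp only [LinearMap.add_apply, LinearMap.smul_apply, LinearMap.sum_apply, LinearMap.comp_apply]
  rfl

theorem Lk_zero_homog (t κ : ℂ) (f : Ph ℂ) (d : ℕ) (hf : IsWeightedHomogeneous wt f d) :
    Lk t κ 0 f = (hk t κ + d) • f := by
  have h0 : Lk t κ 0 f = mkDerivation ℂ (fun n : ℕ => C ((n : ℂ) + 1) * (X n : Ph ℂ)) f +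
      hk t κ • f := by
    unfold Lk
    rw [if_neg (lt_irrefl _), if_pos rfl]
    rfl
  have hsum : mkDerivation ℂ (fun n : ℕ => C ((n : ℂ) + 1) * (X n : Ph ℂ)) f = (d : ℂ) • f := by
    conv_lhs => rw [← support_sum_monomial_coeff f]
    conv_rhs => rw [← support_sum_monomial_coeff f]
    rw [map_sum, Finset.smul_sum]
    refine Finset.sum_congr rfl fun s hs => ?_
    rw [mkDerivation_monomial]
    have hs' : Finsupp.weight wt s = d := hf (mem_support_iff.1 hs)
    have h1 : (s.sum fun i k => monomial (s - Finsupp.single i 1) (k : ℂ) •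
        ((C ((i : ℂ) + 1)) * (X i : Ph ℂ))) = monomial s (d : ℂ) := by
      have h2 : ∀ i ∈ s.support, monomial (s - Finsupp.single i 1) ((s i : ℕ) : ℂ) •
          ((C ((i : ℂ) + 1)) * (X i : Ph ℂ)) = monomial s (((s i * (i + 1) : ℕ)) : ℂ) := by
        intro i hi
        have hsi : s i ≠ 0 := Finsupp.mem_support_iff.1 hi
        have h3 : s - Finsupp.single i 1 + Finsupp.single i 1 = s := by
          apply tsub_add_cancel_of_le
          rw [Finsupp.single_le_iff]
          omega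
        rw [smul_eq_mul, X, C_mul_monomial, monomial_mul, h3]
        congr 1
        push_cast
        ring
      rw [Finsupp.sum, Finset.sum_congr rfl h2, ← map_sum, ← Nat.cast_sum]
      congr 2
    rw [h1, smul_monomial, smul_monomial, smul_eq_mul, smul_eq_mul, mul_comm]
  rw [h0, hsum, add_smul, add_comm]

theorem Lk_homog (t κ : ℂ) (k : ℤ) (f : Ph ℂ) (d e : ℕ) (hf : IsWeightedHomogeneous wt f d)
    (he : (e : ℤ) = d - k) : IsWeightedHomogeneous wt (Lk t κ k f) e := by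
  rcases lt_trichotomy k 0 with hk | hk | hk
  · obtain ⟨a, ha⟩ : ∃ a : ℕ, k = -(a : ℤ) := ⟨(-k).toNat, by omega⟩
    subst ha
    rw [Lk_neg t κ a (by omega)]
    have h1 := Ln_homog t κ a d (by omega) f hf
    have h2 : a + d = e := by omega
    rw [h2] at h1
    exact h1
  · subst hk
    rw [Lk_zero_homog t κ f d hf]
    have : e = d := by omega
    subst this
    rw [← mem_weightedHomogeneousSubmodule]
    exact Submodule.smul_mem _ _ hf
  · rw [kv16b_pos t κ k hk, ← mem_weightedHomogeneousSubmodule]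
    refine Submodule.add_mem _ (Submodule.add_mem _ ((kv16b_der k f d hf hk).1 e he)
      (Submodule.smul_mem _ _ ((kv16b_pd (k.toNat - 1) f d hf).1 e (by omega))))
      (Submodule.smul_mem _ _ (Submodule.sum_mem _ fun n hn => (kv16b_pp k hk n hn f d hf).1 e he))

theorem Lk_eq_zero (t κ : ℂ) (k : ℤ) (f : Ph ℂ) (d : ℕ) (hf : IsWeightedHomogeneous wt f d)
    (he : (d : ℤ) < k) : Lk t κ k f = 0 := by
  have hk : 0 < k := by omega
  rw [kv16b_pos t κ k hk, (kv16b_der k f d hf hk).2 he,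
    (kv16b_pd (k.toNat - 1) f d hf).2 (by omega),
    Finset.sum_eq_zero fun n hn => (kv16b_pp k hk n hn f d hf).2 he]
  simp

theorem kv16b_cube (k : ℕ) : ∑ n ∈ Finset.range (k - 1), (((n : ℂ) + 1) * ((k : ℂ) - 1 - n)) =
    ((k : ℂ) ^ 3 - k) / 6 := by
  induction k with
  | zero => simp
  | succ k ih =>
    rcases Nat.eq_zero_or_pos k with hk | hk
    · subst hk
      simp
    · have h1 : k + 1 - 1 = (k - 1) + 1 := by omega
      rw [h1, Finset.sum_range_succ]
      have h2 : ∑ n ∈ Finset.range (k - 1), (((n : ℂ) + 1) * (((k + 1 : ℕ) : ℂ) - 1 - n)) =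
          ∑ n ∈ Finset.range (k - 1), (((n : ℂ) + 1) * ((k : ℂ) - 1 - n)) +
            ∑ n ∈ Finset.range (k - 1), ((n : ℂ) + 1) := by
        rw [← Finset.sum_add_distrib]
        refine Finset.sum_congr rfl fun n _ => ?_
        push_cast
        ring
      have h3 : ∀ m : ℕ, ∑ n ∈ Finset.range m, ((n : ℂ) + 1) = (m : ℂ) * (m + 1) / 2 := by
        intro m
        induction m with
        | zero => simp
        | succ m ihm =>
          rw [Finset.sum_range_succ, ihm]
          push_cast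
          ring
      obtain ⟨j, rfl⟩ : ∃ j, k = j + 1 := ⟨k - 1, by omega⟩
      rw [h2, ih, h3]
      simp only [Nat.add_sub_cancel]
      push_cast
      ring

theorem kv16b_X (i j : ℕ) : pderiv (R := ℂ) i (X j : Ph ℂ) = C (if j = i then 1 else 0) := by
  rw [pderiv_X, Pi.single_apply]
  split_ifs with h
  · rw [C_1]
  · rw [C_0]

theorem kv16b_pair (k n j : ℕ) (hn : n < k - 1) (hj : j < k - 1) :
    pderiv (R := ℂ) n (pderiv (R := ℂ) (k - 2 - n) ((X j : Ph ℂ) * X (k - 2 - j))) =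
      C ((if j = k - 2 - n then 1 else 0) + (if j = n then 1 else 0)) := by
  rw [pderiv_mul, map_add, pderiv_mul, pderiv_mul]
  simp only [kv16b_X, pderiv_C]
  have h1 : (k - 2 - j = n) = (j = k - 2 - n) := by
    apply propext
    omega
  have h2 : (k - 2 - j = k - 2 - n) = (j = n) := by
    apply propext
    omega
  simp only [h1, h2, zero_mul, mul_zero, zero_add, add_zero, ← C_mul, ← C_add]
  congr 1
  split_ifs <;> ring

theorem Lk_Lneg_one (t κ : ℂ) (ht : t ≠ 0) (k : ℕ) (hk : 0 < k) :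
    Lk t κ k (Lk t κ (-(k : ℤ)) 1) =
      (2 * (k : ℂ) * KV.hk t κ + cc t / 12 * ((k : ℂ) ^ 3 - k)) • (1 : Ph ℂ) := by
  have hq : Lk t κ (-(k : ℤ)) 1 = qk t κ k := by
    rw [Lk_neg t κ k hk]
    unfold Ln
    rw [LinearMap.add_apply, LinearMap.mulLeft_apply, mul_one]
    have : (mkDerivation ℂ fun n : ℕ => C ((n : ℂ) + 1 + k) * (X (n + k) : Ph ℂ)).toLinearMap 1 =
        0 := Derivation.map_one_eq_zero _
    rw [this, zero_add]
  rw [hq, kv16b_pos t κ k (by omega)]
  have hkn : ((k : ℤ)).toNat = k := Int.toNat_natCast k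
  rw [hkn]
  set g : ℕ → Ph ℂ := fun n : ℕ =>
      if k ≤ n then C ((n : ℂ) + 1 - ((k : ℤ) : ℂ)) * (X (n - k) : Ph ℂ) else 0 with hgdef
  have hg : ∀ n, n < k → g n = 0 := fun n hn => by
    rw [hgdef]
    simp only
    rw [if_neg (by omega)]
  have hder : mkDerivation ℂ g (qk t κ k) = 0 := by
    unfold qk
    rw [map_add, Derivation.leibniz, Derivation.leibniz, map_sum, mkDerivation_X, hg _ (by omega),
      derivation_C, derivation_C, smul_zero, smul_zero, smul_zero, Finset.sum_eq_zero, smul_zero]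
    · simp
    · intro n hn
      have hn' := Finset.mem_range.1 hn
      rw [Derivation.leibniz, Derivation.leibniz, derivation_C, mkDerivation_X, mkDerivation_X,
        hg _ (by omega), hg _ (by omega)]
      simp
  have hp1 : pderiv (R := ℂ) (k - 1) (qk t κ k) =
      C ((k : ℂ) * (κ + ((k : ℂ) - 1) * (t - 1))) := by
    unfold qk
    rw [map_add, pderiv_C_mul, pderiv_C_mul, pderiv_X_self, map_sum, Finset.sum_eq_zero]
    · simp
    · intro n hn
      have hn' := Finset.mem_range.1 hn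
      rw [pderiv_C_mul, pderiv_mul, pderiv_X_of_ne (by omega), pderiv_X_of_ne (by omega)]
      simp
  have hp2 : ∀ n ∈ Finset.range (k - 1), pderiv (R := ℂ) n (pderiv (R := ℂ) (k - 2 - n)
      (qk t κ k)) = C (t * (2 * (((n : ℂ) + 1) * ((k : ℂ) - 1 - n)))) := by
    intro n hn
    have hn' := Finset.mem_range.1 hn
    unfold qk
    rw [map_add, map_add, pderiv_C_mul, pderiv_C_mul, pderiv_C_mul, pderiv_C_mul,
      pderiv_X_of_ne (by omega : k - 1 ≠ k - 2 - n), map_zero, mul_zero, zero_add, map_sum,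
      map_sum]
    have h1 : ∀ j ∈ Finset.range (k - 1), pderiv (R := ℂ) n (pderiv (R := ℂ) (k - 2 - n)
        (C (((j : ℂ) + 1) * ((k : ℂ) - 1 - j)) * ((X j : Ph ℂ) * X (k - 2 - j)))) =
        C ((if j = k - 2 - n then (((j : ℂ) + 1) * ((k : ℂ) - 1 - j)) else 0) +
          (if j = n then (((j : ℂ) + 1) * ((k : ℂ) - 1 - j)) else 0)) := by
      intro j hj
      rw [pderiv_C_mul, pderiv_C_mul, kv16b_pair k n j hn' (Finset.mem_range.1 hj), ← C_mul]
      congr 1
      split_ifs <;> ring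
    rw [Finset.sum_congr rfl h1, ← map_sum, Finset.sum_add_distrib, Finset.sum_ite_eq',
      Finset.sum_ite_eq', if_pos hn, if_pos (Finset.mem_range.2 (by omega)), ← C_mul]
    congr 1
    have h2 : ((k - 2 - n : ℕ) : ℂ) = (k : ℂ) - 2 - n := by
      rw [Nat.cast_sub (by omega), Nat.cast_sub (by omega)]
      norm_num
    rw [h2]
    ring
  have h3 : ∑ n ∈ Finset.range (k - 1), pderiv (R := ℂ) n (pderiv (R := ℂ) (k - 2 - n)
      (qk t κ k)) = C (2 * t * (((k : ℂ) ^ 3 - k) / 6)) := by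
    rw [Finset.sum_congr rfl hp2, ← map_sum, ← kv16b_cube, Finset.mul_sum]
    congr 1
    refine Finset.sum_congr rfl fun n _ => by ring
  rw [hder, hp1, h3, zero_add, smul_eq_C_mul, smul_eq_C_mul, smul_eq_C_mul, ← C_mul, ← C_mul,
    ← C_add, mul_one]
  congr 1
  unfold KV.hk cc
  push_cast
  field_simp
  ring

end

end WPQ.KV
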