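import Pool.Agent.WPQ.KV15b
import Pool.Agent.WPQ.KV16a
import Pool.Agent.WPQ.KV16b

/-! [WPQ-KV16] The Virasoro relations on the Fock space.

`isVir_Lk`: `Δ = [L(k), L(l)] - (k-l) L(k+l)` commutes with all `b(m)`: `[[L(k),L(l)],b(m)] = [L(k),[L(l),b(m)]] - [L(l),[L(k),b(m)]]` and `Lk_bm`
(`-m(m+k+l)`-terms cancel; scalar terms cancel: for `m = -k-l`, `m k(k+1) - m l(l+1) + (k-l)(k+l)(k+l+1) = 0`).  So `Δ = a`.  If
`k + l ≠ 0`: `Δ 1` is weighted homogeneous of weight `-(k+l)` (zero if this is negative), so `a = 0` (`Lk_homog`).  If `l = -k`: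
`k > 0` by antisymmetry (`k = 0` trivial), `Δ 1 = L(k)L(-k) 1 - 2k L(0) 1 = c/12 (k³-k)` (`L(k) 1 = 0`). -/

namespace WPQ.KV

open MvPolynomial

noncomputable section

/-- The scalar in `[L(n), b(m)]`. -/
private def kv16_s (t : ℂ) (n m : ℤ) : ℂ := if n + m = 0 then (n : ℂ) * (n + 1) * (t - 1) else 0

private theorem kv16_s_id (t : ℂ) (k l m : ℤ) :
    (m : ℂ) * kv16_s t k (l + m) - (m : ℂ) * kv16_s t l (k + m) +
      ((k : ℂ) - l) * kv16_s t (k + l) m = 0 := by
  unfold kv16_s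
  by_cases h : k + l + m = 0
  · rw [if_pos (by omega : k + (l + m) = 0), if_pos (by omega : l + (k + m) = 0), if_pos h]
    have hm : m = -(k + l) := by omega
    subst hm
    push_cast
    ring
  · rw [if_neg (by omega : ¬ k + (l + m) = 0), if_neg (by omega : ¬ l + (k + m) = 0), if_neg h]
    ring

private theorem kv16_e (t κ : ℂ) (ht : t ≠ 0) (n m : ℤ) (g : Ph ℂ) :
    Lk t κ n (bm t κ m g) = bm t κ m (Lk t κ n g) +
      (-(m : ℂ)) • bm t κ (n + m) g - kv16_s t n m • g := by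
  have := Lk_bm t κ ht n m g
  rw [sub_eq_iff_eq_add] at this
  rw [this]
  unfold kv16_s
  split_ifs
  · abel
  · rw [zero_smul]
    abel

/-- `[L(k), L(l)] - (k-l) L(k+l)` is a scalar. -/
private theorem kv16_scalar (t κ : ℂ) (ht : t ≠ 0) (k l : ℤ) : ∃ a : ℂ, ∀ f : Ph ℂ,
    Lk t κ k (Lk t κ l f) - Lk t κ l (Lk t κ k f) - ((k : ℂ) - l) • Lk t κ (k + l) f = a • f := by
  have h := scalar_of_comm t κ ht
    (Lk t κ k ∘ₗ Lk t κ l - Lk t κ l ∘ₗ Lk t κ k - ((k : ℂ) - l) • Lk t κ (k + l)) (by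
      intro m f _
      have a1 : k + (l + m) = k + l + m := by ring
      have a2 : l + (k + m) = k + l + m := by ring
      simp only [LinearMap.sub_apply, LinearMap.comp_apply, LinearMap.smul_apply, map_sub, map_smul,
        kv16_e t κ ht, map_add, a1, a2]
      have hs := kv16_s_id t k l m
      push_cast
      linear_combination (norm := module) hs • f)
  obtain ⟨a, ha⟩ := h
  refine ⟨a, fun f => ?_⟩
  simpa using ha f

/-- `L(k)` on a vector of weight `d ∈ ℤ`. -/
private theorem kv16_H (t κ : ℂ) (k : ℤ) (f : Ph ℂ) (d : ℤ)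
    (hf : ∃ n : ℕ, (f = 0 ∨ (n : ℤ) = d) ∧ IsWeightedHomogeneous wt f n) :
    ∃ n : ℕ, (Lk t κ k f = 0 ∨ (n : ℤ) = d - k) ∧ IsWeightedHomogeneous wt (Lk t κ k f) n := by
  obtain ⟨n, hn, hh⟩ := hf
  rcases hn with h0 | hn
  · subst h0
    exact ⟨0, Or.inl (map_zero _), by rw [map_zero]; exact isWeightedHomogeneous_zero _ _ _⟩
  · by_cases hlt : (n : ℤ) < k
    · have := Lk_eq_zero t κ k f n hh hlt
      exact ⟨0, Or.inl this, by rw [this]; exact isWeightedHomogeneous_zero _ _ _⟩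
    · obtain ⟨e, he⟩ := Int.eq_ofNat_of_zero_le (by omega : 0 ≤ (n : ℤ) - k)
      exact ⟨e, Or.inr (by omega), Lk_homog t κ k f n e hh (by omega)⟩

private theorem kv16_pos (t κ : ℂ) (ht : t ≠ 0) (k : ℕ) (hk : 0 < k) (f : Ph ℂ) :
    Lk t κ k (Lk t κ (-(k : ℤ)) f) - Lk t κ (-(k : ℤ)) (Lk t κ k f) -
      (2 * (k : ℂ)) • Lk t κ 0 f = (cc t / 12 * ((k : ℂ) ^ 3 - k)) • f := by
  obtain ⟨a, ha⟩ := kv16_scalar t κ ht k (-(k : ℤ))
  have hone : IsWeightedHomogeneous wt (1 : Ph ℂ) 0 := isWeightedHomogeneous_one _ _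
  have h1 := ha 1
  rw [Lk_Lneg_one t κ ht k hk, Lk_eq_zero t κ k 1 0 hone (by exact_mod_cast hk), map_zero,
    add_neg_cancel, Lk_zero_homog t κ 1 0 hone] at h1
  have hc : a = cc t / 12 * ((k : ℂ) ^ 3 - k) := by
    have := congrArg (coeff 0) h1
    simp only [coeff_sub, coeff_smul, coeff_zero, MvPolynomial.coeff_one, smul_eq_mul] at this
    push_cast at this
    simp at this
    linear_combination -this
  have h2 := ha f
  rw [add_neg_cancel] at h2
  rw [← hc, ← h2]
  push_cast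
  module

theorem isVir_Lk (t κ : ℂ) (ht : t ≠ 0) : IsVir (cc t) (Lk t κ) := by
  intro k l
  refine LinearMap.ext fun f => ?_
  by_cases hkl : k + l = 0
  · have hl : l = -k := by omega
    subst hl
    rw [if_pos hkl]
    rcases lt_trichotomy k 0 with h | h | h
    · obtain ⟨n, hn⟩ := Int.eq_ofNat_of_zero_le (by omega : 0 ≤ -k)
      have hk : k = -(n : ℤ) := by omega
      subst hk
      have := kv16_pos t κ ht n (by omega) f
      simp only [LinearMap.sub_apply, LinearMap.comp_apply, LinearMap.add_apply,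
        LinearMap.smul_apply, LinearMap.id_apply, neg_neg, neg_add_cancel]
      push_cast
      linear_combination (norm := module) (-1 : ℂ) • this
    · subst h
      simp
    · obtain ⟨n, hn⟩ := Int.eq_ofNat_of_zero_le h.le
      subst hn
      have := kv16_pos t κ ht n (by omega) f
      simp only [LinearMap.sub_apply, LinearMap.comp_apply, LinearMap.add_apply,
        LinearMap.smul_apply, LinearMap.id_apply, add_neg_cancel]
      push_cast
      linear_combination (norm := module) this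
  · rw [if_neg hkl, add_zero]
    obtain ⟨a, ha⟩ := kv16_scalar t κ ht k l
    have hone : IsWeightedHomogeneous wt (1 : Ph ℂ) 0 := isWeightedHomogeneous_one _ _
    have h0 : ∃ n : ℕ, ((1 : Ph ℂ) = 0 ∨ (n : ℤ) = 0) ∧
        IsWeightedHomogeneous wt (1 : Ph ℂ) n := ⟨0, Or.inr rfl, hone⟩
    have hz : ∀ (g : Ph ℂ) (d : ℤ), d ≠ 0 →
        (∃ n : ℕ, (g = 0 ∨ (n : ℤ) = d) ∧ IsWeightedHomogeneous wt g n) → coeff 0 g = 0 := by
      rintro g d hd ⟨n, hn, hh⟩
      rcases hn with h | h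
      · rw [h, coeff_zero]
      · by_contra hc
        have := hh hc
        rw [map_zero] at this
        omega
    have c1 := hz _ _ (by omega : (0 : ℤ) - l - k ≠ 0) (kv16_H t κ k _ _ (kv16_H t κ l 1 0 h0))
    have c2 := hz _ _ (by omega : (0 : ℤ) - k - l ≠ 0) (kv16_H t κ l _ _ (kv16_H t κ k 1 0 h0))
    have c3 := hz _ _ (by omega : (0 : ℤ) - (k + l) ≠ 0) (kv16_H t κ (k + l) 1 0 h0)
    have ha0 : a = 0 := by
      have := congrArg (coeff 0) (ha 1)
      simp only [coeff_sub, coeff_smul, MvPolynomial.coeff_one, smul_eq_mul, c1, c2, c3] at this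
      simpa using this.symm
    have := ha f
    rw [ha0, zero_smul] at this
    simp only [LinearMap.sub_apply, LinearMap.comp_apply, LinearMap.smul_apply]
    linear_combination (norm := module) this

end

end WPQ.KV
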