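import Pool.Agent.WPQ.KV12b
import Pool.Agent.WPQ.KV14b

/-! [WPQ-KV17] Gram nondegeneracy in the Fock space.

`gram`: `v = ∑ a π • wR t κ (pl π) 1`, weighted homogeneous of weight `m`.  For every positive word `w` of sum `m`:
`pr t v (wR t (2(t-1)-κ) w 1) = constantCoeff (wu (Lk t κ) w.reverse v) = 0` (`pr_word`, hypothesis for `w.reverse`).  The vectors
`wR t (2(t-1)-κ) (pl π) 1` span the homogeneous polynomials of weight `m` (`det_ne`, `span_of_det`), so `pr t v g = 0` for all such `g`, `v = 0`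
(`pr_nondeg`) and `a = 0` (`indep_of_det`, `det_ne`).
`gram_zero`: the same with `κ = 0`: `2(t-1) ≠ krs t r s` for all `r, s ≥ 1` (otherwise `r + 1 = t (s+1)`, `Irr`), and `indep_zero` at the end. -/

namespace WPQ.KV

open MvPolynomial

noncomputable section

theorem kv17_ne {t : ℂ} (ht : Irr t) : t ≠ 0 := by
  intro h
  have h1 := ht 0 1 (by rw [h]; push_cast; ring)
  exact one_ne_zero h1.2

theorem kv17_homog (t κ : ℂ) (m : ℕ) (a : Nat.Partition m → ℂ) :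
    IsWeightedHomogeneous wt (∑ π, a π • wR t κ (pl π) 1) m := by
  rw [← mem_weightedHomogeneousSubmodule ℂ wt m]
  refine Submodule.sum_mem _ fun π _ => Submodule.smul_mem _ _ ?_
  rw [mem_weightedHomogeneousSubmodule]
  have h := wR_one_homog t κ (pl π) (pl_pos π)
  rwa [pl_sum] at h

theorem kv17_zero {t : ℂ} (ht : Irr t) (κ : ℂ) (m : ℕ)
    (h2 : ∀ r s : ℕ, 1 ≤ r → 1 ≤ s → r * s ≤ m → 2 * (t - 1) - κ ≠ krs t r s)
    (v : Ph ℂ) (hv : IsWeightedHomogeneous wt v m)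
    (h : ∀ w : List ℕ, Pw w → w.sum = m → constantCoeff (wu (Lk t κ) w v) = 0) : v = 0 := by
  have ht0 := kv17_ne ht
  refine pr_nondeg t ht0 m v hv fun g hg => ?_
  have hg' := span_of_det t (2 * (t - 1) - κ) m (det_ne ht _ m h2) g hg
  refine Submodule.span_induction ?_ ?_ ?_ ?_ hg'
  · rintro _ ⟨π, rfl⟩
    change pr t v (wR t (2 * (t - 1) - κ) (pl π) 1) = 0
    rw [pr_word t κ ht0 (pl π) (pl_pos π) v]
    refine h _ ?_ ?_
    · intro x hx
      exact pl_pos π x (List.mem_reverse.1 hx)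
    · rw [List.sum_reverse, pl_sum]
  · rw [pr_comm]
    unfold pr
    simp
  · intro x y _ _ hx hy
    rw [pr_comm, pr_add_left, pr_comm t x, pr_comm t y, hx, hy, add_zero]
  · intro c x _ hx
    rw [pr_comm, pr_smul_left, pr_comm t x, hx, mul_zero]

theorem gram {t : ℂ} (ht : Irr t) (κ : ℂ) (m : ℕ)
    (h1 : ∀ r s : ℕ, 1 ≤ r → 1 ≤ s → r * s ≤ m → κ ≠ krs t r s)
    (h2 : ∀ r s : ℕ, 1 ≤ r → 1 ≤ s → r * s ≤ m → 2 * (t - 1) - κ ≠ krs t r s)
    (a : Nat.Partition m → ℂ)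
    (h : ∀ w : List ℕ, Pw w → w.sum = m →
      constantCoeff (wu (Lk t κ) w (∑ π, a π • wR t κ (pl π) 1)) = 0) : a = 0 :=
  indep_of_det t κ m (det_ne ht κ m h1) a
    (kv17_zero ht κ m h2 _ (kv17_homog t κ m a) h)

theorem gram_zero {t : ℂ} (ht : Irr t) (m : ℕ) (a : Nat.Partition m → ℂ)
    (h1 : ∀ π : Nat.Partition m, 1 ∈ π.parts → a π = 0)
    (h : ∀ w : List ℕ, Pw w → w.sum = m →
      constantCoeff (wu (Lk t 0) w (∑ π, a π • wR t 0 (pl π) 1)) = 0) : a = 0 := by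
  refine indep_zero ht m a h1 (kv17_zero ht 0 m ?_ _ (kv17_homog t 0 m a) h)
  intro r s hr hs _ he
  have h3 := ht ((r : ℤ) + 1) ((s : ℤ) + 1) (by
    unfold krs at he
    push_cast
    linear_combination -he)
  have h4 := h3.1
  omega

/-- Every weight is the weight of a Fock space. -/
theorem exists_kappa {t : ℂ} (ht : t ≠ 0) (h : ℂ) : ∃ κ : ℂ, hk t κ = h := by
  obtain ⟨z, hz⟩ := IsAlgClosed.exists_pow_nat_eq ((t - 1) ^ 2 + 4 * t * h) (n := 2) (by norm_num)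
  refine ⟨t - 1 + z, ?_⟩
  unfold hk
  rw [div_eq_iff (mul_ne_zero (by norm_num) ht)]
  linear_combination hz

/-- `h(κ_{r,s}) = h_{r,s}` and `h(2(t-1) - κ) = h(κ)` -/
theorem hk_krs {t : ℂ} (ht : t ≠ 0) (r s : ℕ) : hk t (krs t r s) = hrs t r s := by
  unfold hk hrs krs
  field_simp
  ring

theorem hk_refl (t κ : ℂ) : hk t (2 * (t - 1) - κ) = hk t κ := by
  unfold hk
  congr 1
  ring

end

end WPQ.KV
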