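import Pool.Agent.WPQ.KV16
import Pool.Agent.WPQ.KV18

/-! [WPQ-KV19] Universality of the Gram coefficients.

Consider `N × Ph ℂ` with the operators `P k = (L k).prodMap (Lk t κ k)`: it satisfies `IsVir (cc t)`, and `(x, 1)` is a highest weight vector of
weight `hk t κ` (`Lk t κ 0 1 = hk t κ • 1`, `Lk t κ k 1 = 0` for `k ≥ 1`: `Lk_zero_homog`, `Lk_eq_zero` with `d = 0`).
`wu P w' (wd P w (x,1)) = (wu L w' (wd L w x), wu (Lk) w' (wd (Lk) w 1))` is in `Sw P (x,1) 0 = span {(x,1)}` (`wd_mem`, `wu_mem`, `Sw_zero`), so it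
is `g • (x, 1)`; the second component gives `g = constantCoeff (...)` (`wd_eq` for `wd (Lk) w 1 = wR t κ w 1`). -/

namespace WPQ.KV

open MvPolynomial

noncomputable section

variable {N : Type} [AddCommGroup N] [Module ℂ N] {L : ℤ → N →ₗ[ℂ] N}

/-- the operators on the product -/
def kv19P (t κ : ℂ) (L : ℤ → N →ₗ[ℂ] N) (k : ℤ) : (N × Ph ℂ) →ₗ[ℂ] (N × Ph ℂ) :=
  (L k).prodMap (Lk t κ k)

theorem kv19P_apply (t κ : ℂ) (L : ℤ → N →ₗ[ℂ] N) (k : ℤ) (y : N) (f : Ph ℂ) :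
    kv19P t κ L k (y, f) = (L k y, Lk t κ k f) := rfl

theorem kv19_isVir {t : ℂ} (ht : t ≠ 0) (κ : ℂ) (hL : IsVir (cc t) L) :
    IsVir (cc t) (kv19P t κ L) := by
  intro m n
  apply LinearMap.ext
  rintro ⟨u, f⟩
  have h1 := LinearMap.congr_fun (hL m n) u
  have h2 := LinearMap.congr_fun (isVir_Lk t κ ht m n) f
  by_cases h : m + n = 0
  · rw [if_pos h] at h1 h2 ⊢
    simp only [LinearMap.sub_apply, LinearMap.comp_apply, LinearMap.add_apply, LinearMap.smul_apply,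
      LinearMap.id_apply, kv19P_apply] at h1 h2 ⊢
    exact Prod.ext h1 h2
  · rw [if_neg h] at h1 h2 ⊢
    simp only [LinearMap.sub_apply, LinearMap.comp_apply, LinearMap.smul_apply, add_zero,
      kv19P_apply] at h1 h2 ⊢
    exact Prod.ext h1 h2

theorem kv19_wd (t κ : ℂ) (L : ℤ → N →ₗ[ℂ] N) (w : List ℕ) (y : N) (f : Ph ℂ) :
    wd (kv19P t κ L) w (y, f) = (wd L w y, wd (Lk t κ) w f) := by
  induction w with
  | nil => rfl
  | cons a w ih =>
    change kv19P t κ L (-(a : ℤ)) (wd (kv19P t κ L) w (y, f)) = _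
    rw [ih]
    rfl

theorem kv19_wu (t κ : ℂ) (L : ℤ → N →ₗ[ℂ] N) (w : List ℕ) (y : N) (f : Ph ℂ) :
    wu (kv19P t κ L) w (y, f) = (wu L w y, wu (Lk t κ) w f) := by
  induction w with
  | nil => rfl
  | cons a w ih =>
    change kv19P t κ L (a : ℤ) (wu (kv19P t κ L) w (y, f)) = _
    rw [ih]
    rfl

theorem univ {t : ℂ} (ht : t ≠ 0) (κ : ℂ) (hL : IsVir (cc t) L) (x : N)
    (h0 : L 0 x = hk t κ • x) (hx : ∀ k : ℕ, 0 < k → L k x = 0) (w w' : List ℕ) (hw : Pw w)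
    (hs : w.sum = w'.sum) :
    wu L w' (wd L w x) = constantCoeff (wu (Lk t κ) w' (wR t κ w 1)) • x := by
  have hone : IsWeightedHomogeneous wt (1 : Ph ℂ) 0 := isWeightedHomogeneous_one ℂ wt
  have hP := kv19_isVir (L := L) ht κ hL
  have h0P : kv19P t κ L 0 (x, 1) = hk t κ • ((x, 1) : N × Ph ℂ) := by
    have h1 := Lk_zero_homog t κ 1 0 hone
    rw [Nat.cast_zero, add_zero] at h1
    rw [kv19P_apply, h0, h1]
    rfl
  have hxP : ∀ k : ℕ, 0 < k → kv19P t κ L k (x, 1) = 0 := by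
    intro k hk
    have h1 := Lk_eq_zero t κ k 1 0 hone (by exact_mod_cast hk)
    rw [kv19P_apply, hx k hk, h1]
    rfl
  have h1 := wu_mem hP (x, 1) (hk t κ) h0P hxP w.sum w' _ (wd_mem (kv19P t κ L) (x, 1) w hw)
  rw [hs, sub_self, Sw_zero, Submodule.mem_span_singleton] at h1
  obtain ⟨g, hg⟩ := h1
  rw [kv19_wd, kv19_wu, wd_eq t κ w hw] at hg
  have h2 : g • x = wu L w' (wd L w x) := congrArg Prod.fst hg
  have h3 : g • (1 : Ph ℂ) = wu (Lk t κ) w' (wR t κ w 1) := congrArg Prod.snd hg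
  rw [← h2, ← h3]
  congr 1
  rw [MvPolynomial.smul_eq_C_mul, mul_one, constantCoeff_C]

end

end WPQ.KV
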