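import Pool.Agent.WPQ.KV17
import Pool.Agent.WPQ.KV19

/-! [WPQ-KV20] Relations between descendants of primary vectors.

`rel_zero`: `κ` with `hk t κ = h` (`exists_kappa`); `κ ≠ krs` and `2(t-1)-κ ≠ krs` for `r s ≤ m` by `hk_krs`, `hk_refl` and `hh`.
By `univ` the hypothesis reads `∑_π g w π • ξ π = 0` with `g w π = constantCoeff (wu (Lk t κ) w (wR t κ (pl π) 1))` (`wu` is additive).
For every linear functional `φ : N →ₗ[ℂ] ℂ`, `a π = φ (ξ π)` satisfies the hypothesis of `gram` (`constantCoeff` and `wu` are linear), so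
`φ (ξ π) = 0` for all `φ`, `ξ π = 0` (`Module.forall_dual_apply_eq_zero_iff`).
`rel_vac`: `hk t 0 = 0`.  If `vac = 0` trivial.  By `univ` (`κ = 0`) the hypothesis reads `(∑_π a π g w π) • vac = 0`, so
`∑ a π g w π = 0`, and `gram_zero` gives `a = 0`. -/

namespace WPQ.KV

open MvPolynomial

noncomputable section

variable {N : Type} [AddCommGroup N] [Module ℂ N] {L : ℤ → N →ₗ[ℂ] N}

theorem wu_add (L : ℤ → N →ₗ[ℂ] N) (w : List ℕ) (y z : N) : wu L w (y + z) = wu L w y + wu L w z := by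
  induction w with
  | nil => rfl
  | cons a w ih =>
    have h1 : ∀ v : N, wu L (a :: w) v = L (a : ℤ) (wu L w v) := fun v => rfl
    rw [h1, h1, h1, ih, map_add]

theorem wu_smul (L : ℤ → N →ₗ[ℂ] N) (w : List ℕ) (a : ℂ) (y : N) : wu L w (a • y) = a • wu L w y := by
  induction w with
  | nil => rfl
  | cons b w ih =>
    have h1 : ∀ v : N, wu L (b :: w) v = L (b : ℤ) (wu L w v) := fun v => rfl
    rw [h1, h1, ih, map_smul]

theorem wu_sum (L : ℤ → N →ₗ[ℂ] N) (w : List ℕ) {ι : Type} (s : Finset ι) (y : ι → N) :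
    wu L w (∑ i ∈ s, y i) = ∑ i ∈ s, wu L w (y i) := by
  induction w with
  | nil => rfl
  | cons b w ih =>
    have h1 : ∀ v : N, wu L (b :: w) v = L (b : ℤ) (wu L w v) := fun v => rfl
    rw [h1, ih, map_sum]
    exact Finset.sum_congr rfl fun i _ => (h1 _).symm

theorem kv20_ne {t : ℂ} (ht : Irr t) : t ≠ 0 := by
  rintro rfl
  have h := (ht 0 1 (by simp)).2
  exact absurd h (by norm_num)

theorem kv20_gram_sum (t κ : ℂ) (m : ℕ) (w : List ℕ) (a : Nat.Partition m → ℂ) :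
    constantCoeff (wu (Lk t κ) w (∑ π, a π • wR t κ (pl π) 1)) =
      ∑ π, a π * constantCoeff (wu (Lk t κ) w (wR t κ (pl π) 1)) := by
  rw [wu_sum, map_sum]
  refine Finset.sum_congr rfl fun π _ => ?_
  rw [wu_smul, constantCoeff_smul, smul_eq_mul]

theorem rel_zero {t : ℂ} (ht : Irr t) (hL : IsVir (cc t) L) (h m : ℕ)
    (hh : ∀ r s : ℕ, 1 ≤ r → 1 ≤ s → r * s ≤ m → (h : ℂ) ≠ hrs t r s)
    (ξ : Nat.Partition m → N) (hξ0 : ∀ π, L 0 (ξ π) = (h : ℂ) • ξ π)
    (hξ : ∀ π, ∀ k : ℕ, 0 < k → L k (ξ π) = 0)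
    (hz : ∀ w : List ℕ, Pw w → w.sum = m → wu L w (∑ π, wd L (pl π) (ξ π)) = 0) :
    ∀ π, ξ π = 0 := by
  have ht0 : t ≠ 0 := kv20_ne ht
  obtain ⟨κ, hκ⟩ := exists_kappa ht0 (h : ℂ)
  have h1 : ∀ r s : ℕ, 1 ≤ r → 1 ≤ s → r * s ≤ m → κ ≠ krs t r s := by
    intro r s hr hs hm e
    apply hh r s hr hs hm
    rw [← hκ, e, hk_krs ht0]
  have h2 : ∀ r s : ℕ, 1 ≤ r → 1 ≤ s → r * s ≤ m → 2 * (t - 1) - κ ≠ krs t r s := by
    intro r s hr hs hm e
    apply hh r s hr hs hm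
    rw [← hκ, ← hk_refl t κ, e, hk_krs ht0]
  intro π0
  rw [← Module.forall_dual_apply_eq_zero_iff ℂ]
  intro φ
  have key := gram ht κ m h1 h2 (fun π => φ (ξ π)) (by
    intro w hw hs
    rw [kv20_gram_sum]
    have h3 := hz w hw hs
    rw [wu_sum] at h3
    have h4 := congrArg φ h3
    rw [map_sum, map_zero] at h4
    rw [← h4]
    refine Finset.sum_congr rfl fun π _ => ?_
    rw [univ ht0 κ hL (ξ π) (by rw [hξ0 π, hκ]) (hξ π) (pl π) w (pl_pos π)
      (by rw [pl_sum, hs]), map_smul, smul_eq_mul, mul_comm])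
  exact congrFun key π0

theorem rel_vac {t : ℂ} (ht : Irr t) (hL : IsVir (cc t) L) (m : ℕ) (vac : N)
    (hv : ∀ k : ℕ, L k vac = 0) (a : Nat.Partition m → ℂ)
    (h1 : ∀ π : Nat.Partition m, 1 ∈ π.parts → a π = 0)
    (hz : ∀ w : List ℕ, Pw w → w.sum = m → wu L w (∑ π, a π • wd L (pl π) vac) = 0) :
    ∀ π, a π • vac = 0 := by
  have ht0 : t ≠ 0 := kv20_ne ht
  intro π0
  by_cases hvac : vac = 0
  · rw [hvac, smul_zero]
  have hk0 : hk t 0 = 0 := by simp [hk]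
  have key := gram_zero ht m a h1 (by
    intro w hw hs
    rw [kv20_gram_sum]
    have h3 := hz w hw hs
    rw [wu_sum] at h3
    have h4 : (∑ π, a π * constantCoeff (wu (Lk t 0) w (wR t 0 (pl π) 1))) • vac = 0 := by
      rw [← h3, Finset.sum_smul]
      refine Finset.sum_congr rfl fun π _ => ?_
      rw [wu_smul, univ ht0 0 hL vac (by rw [hk0, zero_smul]; exact hv 0) (fun k _ => hv k) (pl π) w
        (pl_pos π) (by rw [pl_sum, hs]), smul_smul]
    exact (smul_eq_zero.mp h4).resolve_right hvac)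
  rw [congrFun key π0]
  exact zero_smul ℂ vac

end

end WPQ.KV
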