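import Pool.Agent.WPQ.KV6

/-! [WPQ-KV21] Decomposition into descendants of primary vectors.

`dec_mem`: strong induction on `n` (as an integer, `V n = ⊥` for `n < 0`): `v = x + L(-1) y + L(-2) z` with `y ∈ V (n-1)`, `z ∈ V (n-2)`
in the spans by induction; `L(-1)`, `L(-2)` prepend the letters `1`, `2`; `x` is the empty word.
`dec`: by `dec_mem` for `n1 - 1`, `n1 - 2`, `y = L(-1) a + L(-2) b` is in the span of the `wd L w x`, `w` positive, `w ≠ []`, `x ∈ V (n1 - w.sum)`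
primary.  If `wd L w x ≠ 0` then `0 ≤ n1 - w.sum` (`hneg`, `x = 0` otherwise; `wd L w 0 = 0`), so with `h = (n1 - w.sum).toNat < n1` and
`w.sum = n1.toNat - h` the vector `wd L w x` is a linear combination of the `wd L (pl π) x`, `π : Partition (n1.toNat - h)` (`straight_wd`).
The set of all vectors of the form `∑_{h<n1} ∑_π wd L (pl π) (ξ h π)`, `ξ h π ∈ V h` primary, is a submodule (add the `ξ`'s) and contains
each of these. -/

namespace WPQ.KV

noncomputable section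

variable {N : Type} [AddCommGroup N] [Module ℂ N] {c : ℂ} {L : ℤ → N →ₗ[ℂ] N}

theorem kv21_cons (L : ℤ → N →ₗ[ℂ] N) (a : ℕ) (w : List ℕ) (x : N) :
    wd L (a :: w) x = L (-(a : ℤ)) (wd L w x) := rfl

theorem kv21_zero (L : ℤ → N →ₗ[ℂ] N) (w : List ℕ) : wd L w 0 = 0 := by
  induction w with
  | nil => rfl
  | cons a w ih => rw [kv21_cons, ih, map_zero]

theorem kv21_add (L : ℤ → N →ₗ[ℂ] N) (w : List ℕ) (x y : N) :
    wd L w (x + y) = wd L w x + wd L w y := by
  induction w with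
  | nil => rfl
  | cons a w ih => rw [kv21_cons, kv21_cons, kv21_cons, ih, map_add]

theorem kv21_smul (L : ℤ → N →ₗ[ℂ] N) (w : List ℕ) (r : ℂ) (x : N) :
    wd L w (r • x) = r • wd L w x := by
  induction w with
  | nil => rfl
  | cons a w ih => rw [kv21_cons, kv21_cons, ih, map_smul]

/-- the set of descendants in degree `n` -/
def kv21_S (L : ℤ → N →ₗ[ℂ] N) (V : ℤ → Submodule ℂ N) (n : ℤ) : Set N :=
  {u | ∃ (w : List ℕ) (x : N), Pw w ∧ x ∈ V (n - w.sum) ∧ L 1 x = 0 ∧ L 2 x = 0 ∧ u = wd L w x}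

theorem kv21_step (L : ℤ → N →ₗ[ℂ] N) (V : ℤ → Submodule ℂ N) (n : ℤ) (a : ℕ) (ha : 0 < a) (y : N)
    (hy : y ∈ Submodule.span ℂ (kv21_S L V (n - a))) :
    L (-(a : ℤ)) y ∈ Submodule.span ℂ (kv21_S L V n) := by
  induction hy using Submodule.span_induction with
  | mem u hu =>
    obtain ⟨w, x, hw, hx, h1, h2, rfl⟩ := hu
    refine Submodule.subset_span ⟨a :: w, x, ?_, ?_, h1, h2, rfl⟩
    · intro b hb
      rcases List.mem_cons.mp hb with rfl | hb
      · exact ha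
      · exact hw b hb
    · have : n - ((a :: w).sum : ℤ) = n - a - (w.sum : ℤ) := by
        rw [List.sum_cons]; push_cast; ring
      rw [this]; exact hx
  | zero => rw [map_zero]; exact Submodule.zero_mem _
  | add u v _ _ hu hv => rw [map_add]; exact Submodule.add_mem _ hu hv
  | smul r u _ hu => rw [map_smul]; exact Submodule.smul_mem _ r hu

theorem kv21_aux (V : ℤ → Submodule ℂ N) (hneg : ∀ n < 0, V n = ⊥) (n1 : ℤ)
    (hgen : ∀ n < n1, ∀ v ∈ V n, ∃ x ∈ V n, ∃ y ∈ V (n - 1), ∃ z ∈ V (n - 2),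
      L 1 x = 0 ∧ L 2 x = 0 ∧ v = x + L (-1) y + L (-2) z) (k : ℕ) :
    ∀ n : ℤ, n < n1 → n < k → ∀ v ∈ V n, v ∈ Submodule.span ℂ (kv21_S L V n) := by
  induction k with
  | zero =>
    intro n _ h0 v hv
    rw [hneg n (by exact_mod_cast h0), Submodule.mem_bot] at hv
    rw [hv]; exact Submodule.zero_mem _
  | succ k ih =>
    intro n hn hk v hv
    obtain ⟨x, hx, y, hy, z, hz, h1, h2, rfl⟩ := hgen n hn v hv
    have hy' := ih (n - 1) (by omega) (by push_cast at hk; omega) y hy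
    have hz' := ih (n - 2) (by omega) (by push_cast at hk; omega) z hz
    refine Submodule.add_mem _ (Submodule.add_mem _ ?_ ?_) ?_
    · refine Submodule.subset_span ⟨[], x, ?_, ?_, h1, h2, rfl⟩
      · intro b hb; exact absurd hb (List.not_mem_nil)
      · simpa using hx
    · exact kv21_step L V n 1 one_pos y (by exact_mod_cast hy')
    · exact kv21_step L V n 2 two_pos z (by exact_mod_cast hz')

theorem dec_mem (V : ℤ → Submodule ℂ N) (hneg : ∀ n < 0, V n = ⊥) (n1 : ℤ)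
    (hgen : ∀ n < n1, ∀ v ∈ V n, ∃ x ∈ V n, ∃ y ∈ V (n - 1), ∃ z ∈ V (n - 2),
      L 1 x = 0 ∧ L 2 x = 0 ∧ v = x + L (-1) y + L (-2) z) (n : ℤ) (hn : n < n1) (v : N) (hv : v ∈ V n) :
    v ∈ Submodule.span ℂ {u | ∃ (w : List ℕ) (x : N), Pw w ∧ x ∈ V (n - w.sum) ∧ L 1 x = 0 ∧
      L 2 x = 0 ∧ u = wd L w x} :=
  kv21_aux V hneg n1 hgen (n.toNat + 1) n hn (by push_cast; omega) v hv

/-- the submodule of sums of descendants in partition form -/
def kv21_D (L : ℤ → N →ₗ[ℂ] N) (V : ℤ → Submodule ℂ N) (M : ℕ) : Submodule ℂ N where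
  carrier := {y | ∃ ξ : (h : ℕ) → Nat.Partition (M - h) → N,
      (∀ (h : ℕ) (π : Nat.Partition (M - h)), ξ h π ∈ V (h : ℤ) ∧ L 1 (ξ h π) = 0 ∧ L 2 (ξ h π) = 0) ∧
      y = ∑ h ∈ Finset.range M, ∑ π, wd L (pl π) (ξ h π)}
  zero_mem' := ⟨fun _ _ => 0, fun h π => ⟨Submodule.zero_mem _, map_zero _, map_zero _⟩, by
    symm
    refine Finset.sum_eq_zero fun h _ => Finset.sum_eq_zero fun π _ => kv21_zero L _⟩
  add_mem' := by
    rintro _ _ ⟨ξ, hξ, rfl⟩ ⟨η, hη, rfl⟩
    refine ⟨fun h π => ξ h π + η h π, fun h π => ⟨Submodule.add_mem _ (hξ h π).1 (hη h π).1, ?_, ?_⟩, ?_⟩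
    · rw [map_add, (hξ h π).2.1, (hη h π).2.1, add_zero]
    · rw [map_add, (hξ h π).2.2, (hη h π).2.2, add_zero]
    · rw [← Finset.sum_add_distrib]
      refine Finset.sum_congr rfl fun h _ => ?_
      rw [← Finset.sum_add_distrib]
      exact Finset.sum_congr rfl fun π _ => (kv21_add L _ _ _).symm
  smul_mem' := by
    rintro r _ ⟨ξ, hξ, rfl⟩
    refine ⟨fun h π => r • ξ h π, fun h π => ⟨Submodule.smul_mem _ r (hξ h π).1, ?_, ?_⟩, ?_⟩
    · rw [map_smul, (hξ h π).2.1, smul_zero]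
    · rw [map_smul, (hξ h π).2.2, smul_zero]
    · rw [Finset.smul_sum]
      refine Finset.sum_congr rfl fun h _ => ?_
      rw [Finset.smul_sum]
      exact Finset.sum_congr rfl fun π _ => (kv21_smul L _ _ _).symm

theorem kv21_single (V : ℤ → Submodule ℂ N) (M h0 : ℕ) (hh : h0 < M) (x : N) (hx : x ∈ V (h0 : ℤ))
    (h1 : L 1 x = 0) (h2 : L 2 x = 0) (π0 : Nat.Partition (M - h0)) :
    wd L (pl π0) x ∈ kv21_D L V M := by
  classical
  refine ⟨fun h π => if e : h = h0 then (if (e ▸ π : Nat.Partition (M - h0)) = π0 then x else 0) else 0,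
    ?_, ?_⟩
  · intro h π
    by_cases e : h = h0
    · subst e
      by_cases e' : π = π0
      · simp only [dif_pos, e', if_true]
        exact ⟨hx, h1, h2⟩
      · simp only [dif_pos, e', if_false]
        exact ⟨Submodule.zero_mem _, map_zero _, map_zero _⟩
    · simp only [dif_neg e]
      exact ⟨Submodule.zero_mem _, map_zero _, map_zero _⟩
  · rw [Finset.sum_eq_single_of_mem h0 (Finset.mem_range.mpr hh)]
    · rw [Finset.sum_eq_single_of_mem π0 (Finset.mem_univ _)]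
      · simp
      · intro π _ hπ
        simp only [dif_pos, hπ, if_false]
        exact kv21_zero L _
    · intro h _ hne
      refine Finset.sum_eq_zero fun π _ => ?_
      simp only [dif_neg hne]
      exact kv21_zero L _

theorem kv21_word (hL : IsVir c L) (V : ℤ → Submodule ℂ N) (hneg : ∀ n < 0, V n = ⊥) (n1 : ℤ)
    (w : List ℕ) (x : N) (hw : Pw w) (hne : 0 < w.sum) (hx : x ∈ V (n1 - w.sum)) (h1 : L 1 x = 0)
    (h2 : L 2 x = 0) : wd L w x ∈ kv21_D L V n1.toNat := by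
  by_cases hn : n1 - w.sum < 0
  · rw [hneg _ hn, Submodule.mem_bot] at hx
    rw [hx, kv21_zero]; exact Submodule.zero_mem _
  push Not at hn
  obtain ⟨h0, hh0⟩ : ∃ h0 : ℕ, n1 - w.sum = h0 := ⟨(n1 - w.sum).toNat, by omega⟩
  rw [hh0] at hx
  have hM : n1.toNat = h0 + w.sum := by omega
  have hs : w.sum = n1.toNat - h0 := by omega
  have key := straight_wd hL x (n1.toNat - h0) w hw hs
  have hle : Submodule.span ℂ (Set.range fun π : Nat.Partition (n1.toNat - h0) => wd L (pl π) x) ≤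
      kv21_D L V n1.toNat := by
    rw [Submodule.span_le]
    rintro _ ⟨π, rfl⟩
    exact kv21_single V n1.toNat h0 (by omega) x hx h1 h2 π
  exact hle key

theorem kv21_L (hL : IsVir c L) (V : ℤ → Submodule ℂ N) (hneg : ∀ n < 0, V n = ⊥) (n1 : ℤ)
    (hgen : ∀ n < n1, ∀ v ∈ V n, ∃ x ∈ V n, ∃ y ∈ V (n - 1), ∃ z ∈ V (n - 2),
      L 1 x = 0 ∧ L 2 x = 0 ∧ v = x + L (-1) y + L (-2) z) (k : ℕ) (hk : 0 < k) (a : N)
    (ha : a ∈ V (n1 - k)) : L (-(k : ℤ)) a ∈ kv21_D L V n1.toNat := by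
  have h := dec_mem V hneg n1 hgen (n1 - k) (by omega) a ha
  clear ha
  induction h using Submodule.span_induction with
  | mem u hu =>
    obtain ⟨w, x, hw, hx, h1, h2, rfl⟩ := hu
    have h3 := kv21_word hL V hneg n1 (k :: w) x (by
      intro b hb
      rcases List.mem_cons.mp hb with rfl | hb
      · exact hk
      · exact hw b hb) (by rw [List.sum_cons]; omega) (by
      have : n1 - ((k :: w).sum : ℤ) = n1 - k - (w.sum : ℤ) := by
        rw [List.sum_cons]; push_cast; ring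
      rw [this]; exact hx) h1 h2
    exact h3
  | zero => rw [map_zero]; exact Submodule.zero_mem _
  | add u v _ _ hu hv => rw [map_add]; exact Submodule.add_mem _ hu hv
  | smul r u _ hu => rw [map_smul]; exact Submodule.smul_mem _ r hu

theorem dec (hL : IsVir c L) (V : ℤ → Submodule ℂ N) (hneg : ∀ n < 0, V n = ⊥) (n1 : ℤ)
    (hgen : ∀ n < n1, ∀ v ∈ V n, ∃ x ∈ V n, ∃ y ∈ V (n - 1), ∃ z ∈ V (n - 2),
      L 1 x = 0 ∧ L 2 x = 0 ∧ v = x + L (-1) y + L (-2) z) (a b : N) (ha : a ∈ V (n1 - 1))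
    (hb : b ∈ V (n1 - 2)) :
    ∃ ξ : (h : ℕ) → Nat.Partition (n1.toNat - h) → N,
      (∀ (h : ℕ) (π : Nat.Partition (n1.toNat - h)), ξ h π ∈ V (h : ℤ) ∧ L 1 (ξ h π) = 0 ∧ L 2 (ξ h π) = 0) ∧
      L (-1) a + L (-2) b = ∑ h ∈ Finset.range n1.toNat, ∑ π, wd L (pl π) (ξ h π) := by
  have h1 := kv21_L hL V hneg n1 hgen 1 one_pos a (by exact_mod_cast ha)
  have h2 := kv21_L hL V hneg n1 hgen 2 two_pos b (by exact_mod_cast hb)
  have h3 := Submodule.add_mem _ h1 h2
  obtain ⟨ξ, hξ, e⟩ := h3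
  exact ⟨ξ, hξ, e⟩

end

end WPQ.KV
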