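import Pool.Agent.WPQ.KV20
import Pool.Agent.WPQ.KV21

/-! [WPQ-KV22] Main theorem of the block.

`x = ∑_{h<n1} ∑_π wd L (pl π) (ξ h π)` by `dec` (`n1 ≥ 1`; if `n1 ≤ 0` the sum is empty and `x = 0`).
All `ξ h π` are killed by `L k`, `k ≥ 1` (`prim_pos`), and `L 0 (ξ h π) = h • ξ h π` (`hL0`).
Let `T h = ∑_π wd L (pl π) (ξ h π)`.  Claim: `T h = 0` for all `h < n1`, by strong induction on `h`.  Let `w` be a positive word of sum
`m = n1 - h ≥ 1`.  `0 = wu L w x` (`w ≠ []`, the innermost letter kills `x`: `prim_pos`) `= ∑_{h'} wu L w (T h')`; `T h' = 0` for `h' < h`, and for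
`h' > h`, `wu L w (wd L (pl π) (ξ h' π)) = 0` (`wu_wd_zero`, sum `n1 - h' < n1 - h`).  So `wu L w (T h) = 0` for all `w`.
If `h ≥ 1`: `rel_zero` (with `hkac`: `h + r s ≤ n1` iff `r s ≤ m`; `hrs` unfolds to the expression there) gives `ξ h π = 0` for all `π`.
If `h = 0`: `ξ 0 π = a π • vac` (`h0`), and `wd L (pl π) vac = 0` if `1 ∈ π.parts` (the last letter of `pl π` is `1`, `hvac`), so
`T 0 = ∑_π a' π • wd L (pl π) vac` with `a' π = if 1 ∈ π.parts then 0 else a π`; `rel_vac` gives `a' π • vac = 0`, `T 0 = 0`.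
(`L k vac = 0` for `k ≥ 0`: `vac` may be replaced by `0` if `V 0 = ⊥`; otherwise `vac` is a multiple of a nonzero element of `V 0`, hence if
`a π ≠ 0` for some `π` then `vac = (a π)⁻¹ ξ 0 π ∈ V 0` is primary; if all `a π = 0` then `T 0 = 0` anyway.) -/

namespace WPQ.KV

noncomputable section

theorem kv22_wu_zero {N : Type} [AddCommGroup N] [Module ℂ N] (L : ℤ → N →ₗ[ℂ] N) (w : List ℕ) :
    wu L w 0 = 0 := by
  induction w with
  | nil => rfl
  | cons a w ih =>
    have h1 : wu L (a :: w) 0 = L (a : ℤ) (wu L w 0) := rfl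
    rw [h1, ih, map_zero]

theorem kv22_wu_prim {N : Type} [AddCommGroup N] [Module ℂ N] (L : ℤ → N →ₗ[ℂ] N) (x : N)
    (hx : ∀ k : ℕ, 0 < k → L k x = 0) (w : List ℕ) (hw : Pw w) (hne : w ≠ []) :
    wu L w x = 0 := by
  induction w with
  | nil => exact absurd rfl hne
  | cons a w ih =>
    have h1 : wu L (a :: w) x = L (a : ℤ) (wu L w x) := rfl
    rw [h1]
    by_cases hw' : w = []
    · subst hw'
      exact hx a (hw a (List.mem_cons_self))
    · rw [ih (fun b hb => hw b (List.mem_cons_of_mem _ hb)) hw', map_zero]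

theorem kv22_wd_vac {N : Type} [AddCommGroup N] [Module ℂ N] (L : ℤ → N →ₗ[ℂ] N) (vac : N)
    (hvac : L (-1) vac = 0) (w : List ℕ) (hw : Pw w) (hs : w.Pairwise (· ≥ ·)) (h1 : 1 ∈ w) :
    wd L w vac = 0 := by
  induction w with
  | nil => exact absurd h1 (List.not_mem_nil)
  | cons a w ih =>
    rw [kv21_cons]
    have hw' : Pw w := fun b hb => hw b (List.mem_cons_of_mem _ hb)
    rw [List.pairwise_cons] at hs
    by_cases h1w : 1 ∈ w
    · rw [ih hw' hs.2 h1w, map_zero]
    · rcases List.mem_cons.mp h1 with h1a | h1a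
      · subst h1a
        have hnil : w = [] := by
          rw [List.eq_nil_iff_forall_not_mem]
          intro b hb
          have h2 := hs.1 b hb
          have h3 := hw' b hb
          have h4 : b = 1 := by omega
          exact h1w (h4 ▸ hb)
        subst hnil
        exact hvac
      · exact absurd h1a h1w

theorem prim_desc (t : ℂ) (ht : t ≠ 0) (hirr : ∀ a b : ℤ, (a : ℂ) = t * b → a = 0 ∧ b = 0)
    {N : Type} [AddCommGroup N] [Module ℂ N] (L : ℤ → N →ₗ[ℂ] N)
    (hL : ∀ m n : ℤ, L m ∘ₗ L n - L n ∘ₗ L m = ((m : ℂ) - n) • L (m + n) +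
      (if m + n = 0 then ((1 - 6 * (t - 1) ^ 2 / t) / 12 * ((m : ℂ) ^ 3 - m)) • LinearMap.id else 0))
    (V : ℤ → Submodule ℂ N) (hdeg : ∀ k n : ℤ, ∀ v ∈ V n, L k v ∈ V (n - k))
    (hL0 : ∀ n : ℤ, ∀ v ∈ V n, L 0 v = (n : ℂ) • v) (hneg : ∀ n < 0, V n = ⊥) (vac : N)
    (h0 : ∀ v ∈ V 0, ∃ a : ℂ, v = a • vac) (hvac : L (-1) vac = 0) (n1 : ℤ)
    (hgen : ∀ n < n1, ∀ v ∈ V n, ∃ x ∈ V n, ∃ y ∈ V (n - 1), ∃ z ∈ V (n - 2),
      L 1 x = 0 ∧ L 2 x = 0 ∧ v = x + L (-1) y + L (-2) z)
    (hkac : ∀ h r s : ℕ, 1 ≤ h → 1 ≤ r → 1 ≤ s → (h : ℤ) + r * s ≤ n1 →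
      (h : ℂ) ≠ (((s : ℂ) ^ 2 - 1) * t + ((r : ℂ) ^ 2 - 1) / t - 2 * ((r : ℂ) * s - 1)) / 4)
    (x : N) (hx : x ∈ V n1) (h1 : L 1 x = 0) (h2 : L 2 x = 0) (y z : N) (hy : y ∈ V (n1 - 1))
    (hz : z ∈ V (n1 - 2)) (hxyz : x = L (-1) y + L (-2) z) : x = 0 := by
  have ht0 := ht
  have hirr' : Irr t := hirr
  have hV : IsVir (cc t) L := hL
  obtain ⟨ξ, hξ, hsum⟩ := dec hV V hneg n1 hgen y z hy hz
  rw [← hxyz] at hsum
  have hprim : ∀ (h : ℕ) (π : Nat.Partition (n1.toNat - h)) (k : ℕ), 0 < k → L k (ξ h π) = 0 :=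
    fun h π k hk => prim_pos hV _ (hξ h π).2.1 (hξ h π).2.2 k hk
  have hzero : ∀ (h : ℕ) (π : Nat.Partition (n1.toNat - h)), L 0 (ξ h π) = (h : ℂ) • ξ h π := by
    intro h π
    have := hL0 h (ξ h π) (hξ h π).1
    rw [this]; simp
  have hxk : ∀ k : ℕ, 0 < k → L k x = 0 := fun k hk => prim_pos hV _ h1 h2 k hk
  have hT : ∀ h : ℕ, h < n1.toNat → ∑ π, wd L (pl π) (ξ h π) = 0 := by
    intro h
    induction h using Nat.strong_induction_on with
    | _ h ih =>
    intro hh
    have hwu : ∀ w : List ℕ, Pw w → w.sum = n1.toNat - h →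
        wu L w (∑ π, wd L (pl π) (ξ h π)) = 0 := by
      intro w hw hs
      have hne : w ≠ [] := by
        rintro rfl
        rw [List.sum_nil] at hs
        omega
      have e0 : wu L w x = 0 := kv22_wu_prim L x hxk w hw hne
      rw [hsum, wu_sum, Finset.sum_eq_single_of_mem h (Finset.mem_range.mpr hh)] at e0
      · exact e0
      · intro h' hh' hne'
        rw [Finset.mem_range] at hh'
        rcases lt_or_gt_of_ne hne' with hlt | hgt
        · rw [ih h' hlt hh', kv22_wu_zero]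
        · rw [wu_sum]
          refine Finset.sum_eq_zero fun π _ => ?_
          exact wu_wd_zero hV (ξ h' π) (h' : ℂ) (hzero h' π) (hprim h' π) (pl π) w (pl_pos π)
            (by rw [pl_sum, hs]; omega)
    by_cases hh0 : 1 ≤ h
    · have hr := rel_zero hirr' hV h (n1.toNat - h) (by
        intro r s hr hs hm
        have hm' : (h : ℤ) + r * s ≤ n1 := by
          have : ((r * s : ℕ) : ℤ) ≤ ((n1.toNat - h : ℕ) : ℤ) := by exact_mod_cast hm
          push_cast at this
          omega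
        exact hkac h r s hh0 hr hs hm') (ξ h) (hzero h) (hprim h) hwu
      refine Finset.sum_eq_zero fun π _ => ?_
      rw [hr π, kv21_zero]
    · have hh0' : h = 0 := by omega
      subst hh0'
      have hex : ∀ π : Nat.Partition (n1.toNat - 0), ∃ a : ℂ, ξ 0 π = a • vac := fun π =>
        h0 _ (by have := (hξ 0 π).1; simpa using this)
      choose a ha using hex
      by_cases hall : ∀ π, a π = 0
      · refine Finset.sum_eq_zero fun π _ => ?_
        rw [ha π, hall π, zero_smul, kv21_zero]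
      · push Not at hall
        obtain ⟨π1, hπ1⟩ := hall
        have hvaceq : vac = (a π1)⁻¹ • ξ 0 π1 := by
          rw [ha π1, smul_smul, inv_mul_cancel₀ hπ1, one_smul]
        have hv : ∀ k : ℕ, L k vac = 0 := by
          intro k
          rcases Nat.eq_zero_or_pos k with rfl | hk
          · have := hzero 0 π1
            rw [hvaceq, map_smul]
            rw [Nat.cast_zero, this, Nat.cast_zero, zero_smul, smul_zero]
          · rw [hvaceq, map_smul, hprim 0 π1 k hk, smul_zero]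
        classical
        have hrew : ∑ π, wd L (pl π) (ξ 0 π) =
            ∑ π, (if 1 ∈ π.parts then 0 else a π) • wd L (pl π) vac := by
          refine Finset.sum_congr rfl fun π _ => ?_
          rw [ha π, kv21_smul]
          split_ifs with h1π
          · rw [kv22_wd_vac L vac hvac (pl π) (pl_pos π) ?_ ?_, smul_zero, smul_zero]
            · exact Multiset.pairwise_sort _ _
            · exact (Multiset.mem_sort _).mpr h1π
          · rfl
        have hr := rel_vac hirr' hV (n1.toNat - 0) vac hv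
          (fun π => if 1 ∈ π.parts then 0 else a π) (fun π h1π => if_pos h1π) (by
            intro w hw hs
            rw [← hrew]
            exact hwu w hw hs)
        rw [hrew]
        refine Finset.sum_eq_zero fun π _ => ?_
        rw [← kv21_smul, hr π, kv21_zero]
  rw [hsum]
  exact Finset.sum_eq_zero fun h hh => hT h (Finset.mem_range.mp hh)

end

end WPQ.KV
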