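import Pool.Agent.WPQ.KV2

/-! [WPQ-KV3] The leading terms in `κ` (`R = ℂ[κ]`, `κ = Polynomial.X`, `t` constant).

`Top l F G`: every coefficient of `F` has degree `≤ l` in `κ`, and the coefficient of `κ^l` of `F` is `G`.
`Top.Ln`: `Ln = D + mulLeft (qk)`, `D` and `qk - k κ X_(k-1)` do not involve `κ`: they keep the degree `≤ l`; the term
`k κ X_(k-1) F` has degree `≤ l+1` with leading part `k X_(k-1) G`.  (Coefficients of `D F`: a finite sum of scalar multiples of
coefficients of `F`; it may help to prove `Top` for `D` by writing `D F = ∑_{e ∈ F.support} D (monomial e 1) * C (coeff e F)`, where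
`D (monomial e 1)` has constant coefficients.)
`Top.word`: induction on `w`. -/

namespace WPQ.KV

open MvPolynomial

noncomputable section

/-- `F` has degree at most `l` in `κ` with leading part `G`. -/
def Top (l : ℕ) (F : Ph (Polynomial ℂ)) (G : Ph ℂ) : Prop :=
  ∀ e, (coeff e F).natDegree ≤ l ∧ (coeff e F).coeff l = coeff e G

/-- The exponent of a word. -/
def exw (w : List ℕ) : ℕ →₀ ℕ := Multiset.toFinsupp ((w : Multiset ℕ).map fun a => a - 1)

theorem exw_pl {m : ℕ} (π : Nat.Partition m) : exw (pl π) = ex π := by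
  unfold exw ex
  rw [pl_coe]

theorem Top.add {l : ℕ} {F F' : Ph (Polynomial ℂ)} {G G' : Ph ℂ} (h : Top l F G) (h' : Top l F' G') :
    Top l (F + F') (G + G') := by
  intro e
  refine ⟨?_, ?_⟩
  · rw [coeff_add]
    exact Polynomial.natDegree_add_le_of_degree_le (h e).1 (h' e).1
  · rw [coeff_add, Polynomial.coeff_add, (h e).2, (h' e).2, coeff_add]

theorem Top.smul {l : ℕ} {F : Ph (Polynomial ℂ)} {G : Ph ℂ} (h : Top l F G) (c : ℂ) :
    Top l (c • F) (c • G) := by
  intro e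
  refine ⟨?_, ?_⟩
  · rw [coeff_smul]
    exact le_trans (Polynomial.natDegree_smul_le _ _) (h e).1
  · rw [coeff_smul, Polynomial.coeff_smul, (h e).2, coeff_smul]

theorem Top.lift {l l' : ℕ} {F : Ph (Polynomial ℂ)} {G : Ph ℂ} (h : Top l F G) (hl : l < l') :
    Top l' F 0 := by
  intro e
  refine ⟨le_trans (h e).1 hl.le, ?_⟩
  rw [coeff_zero]
  exact Polynomial.coeff_eq_zero_of_natDegree_lt (lt_of_le_of_lt (h e).1 hl)

/-- all coefficients have degree less than `l` in `κ` -/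
def kv3_Dg (l : ℕ) : Submodule ℂ (Ph (Polynomial ℂ)) where
  carrier := {F | ∀ e, coeff e F ∈ Polynomial.degreeLT ℂ l}
  add_mem' := by
    intro a b ha hb e
    rw [coeff_add]
    exact Submodule.add_mem _ (ha e) (hb e)
  zero_mem' := by
    intro e
    rw [coeff_zero]
    exact Submodule.zero_mem _
  smul_mem' := by
    intro c a ha e
    rw [coeff_smul]
    exact Submodule.smul_mem _ c (ha e)

theorem kv3_mem (l : ℕ) (F : Ph (Polynomial ℂ)) :
    F ∈ kv3_Dg l ↔ ∀ e, coeff e F ∈ Polynomial.degreeLT ℂ l := Iff.rfl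

theorem kv3_mono {l l' : ℕ} (h : l ≤ l') {F : Ph (Polynomial ℂ)} (hF : F ∈ kv3_Dg l) :
    F ∈ kv3_Dg l' := fun e => Polynomial.degreeLT_mono h (hF e)

theorem kv3_poly (p : Polynomial ℂ) (l : ℕ) (g : ℂ) :
    (p.natDegree ≤ l ∧ p.coeff l = g) ↔
      p - Polynomial.X ^ l * Polynomial.C g ∈ Polynomial.degreeLT ℂ l := by
  rw [Polynomial.mem_degreeLT, Polynomial.degree_lt_iff_coeff_zero,
    Polynomial.natDegree_le_iff_coeff_eq_zero]
  have h : ∀ m, (p - Polynomial.X ^ l * Polynomial.C g).coeff m =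
      p.coeff m - (if m = l then g else 0) := by
    intro m
    rw [Polynomial.coeff_sub, Polynomial.coeff_mul_C, Polynomial.coeff_X_pow]
    split_ifs <;> simp
  constructor
  · rintro ⟨h1, h2⟩ m hm
    rw [h]
    rcases eq_or_lt_of_le hm with h3 | h3
    · subst h3
      rw [if_pos rfl, h2, sub_self]
    · rw [if_neg (by omega), h1 m h3, sub_zero]
  · intro h1
    refine ⟨fun N hN => ?_, ?_⟩
    · have h2 := h1 N hN.le
      rw [h, if_neg (by omega), sub_zero] at h2
      exact h2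
    · have h2 := h1 l le_rfl
      rw [h, if_pos rfl, sub_eq_zero] at h2
      exact h2

theorem kv3_coeff (l : ℕ) (G : Ph ℂ) (e : ℕ →₀ ℕ) :
    coeff e (C (Polynomial.X ^ l) * map Polynomial.C G : Ph (Polynomial ℂ)) =
      Polynomial.X ^ l * Polynomial.C (coeff e G) := by
  rw [coeff_C_mul, coeff_map]

theorem kv3_iff {l : ℕ} {F : Ph (Polynomial ℂ)} {G : Ph ℂ} :
    Top l F G ↔ F - C (Polynomial.X ^ l) * map Polynomial.C G ∈ kv3_Dg l := by
  rw [kv3_mem]
  refine forall_congr' fun e => ?_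
  rw [coeff_sub, kv3_coeff]
  exact kv3_poly _ l _

/-- `L(-k)` at `κ = 0` keeps the degree -/
theorem kv3_Ln0 {l : ℕ} {F : Ph (Polynomial ℂ)} (hF : F ∈ kv3_Dg l) (t : ℂ) (k : ℕ) :
    KV.Ln (Polynomial.C t) 0 k F ∈ kv3_Dg l := by
  classical
  have h1 : F = ∑ e ∈ F.support, (coeff e F) • (map Polynomial.C (monomial e (1 : ℂ))) := by
    conv_lhs => rw [F.as_sum]
    apply Finset.sum_congr rfl
    intro e _
    rw [map_monomial, map_one, smul_monomial, smul_eq_mul, mul_one]
  rw [h1, map_sum]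
  apply Submodule.sum_mem
  intro e _
  rw [map_smul]
  have h2 := Ln_map (R := ℂ) (Polynomial.C : ℂ →+* Polynomial ℂ) t 0 k (monomial e (1 : ℂ))
  rw [map_zero] at h2
  rw [← h2]
  intro e'
  rw [coeff_smul, coeff_map, smul_eq_mul, mul_comm, ← Polynomial.smul_eq_C_mul]
  exact Submodule.smul_mem _ _ (hF e)

theorem kv3_X {l : ℕ} {F : Ph (Polynomial ℂ)} (hF : F ∈ kv3_Dg l) (i : ℕ) :
    X i * F ∈ kv3_Dg l := by
  classical
  intro e
  rw [coeff_X_mul']
  split_ifs
  · exact hF _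
  · exact Submodule.zero_mem _

theorem kv3_kap {l : ℕ} {F : Ph (Polynomial ℂ)} (hF : F ∈ kv3_Dg l) (c : ℂ) :
    C (Polynomial.C c * Polynomial.X) * F ∈ kv3_Dg (l + 1) := by
  intro e
  rw [coeff_C_mul, mul_assoc, ← Polynomial.smul_eq_C_mul]
  refine Submodule.smul_mem _ _ ?_
  have h := hF e
  rw [Polynomial.mem_degreeLT, Polynomial.degree_lt_iff_coeff_zero] at h ⊢
  intro m hm
  obtain ⟨m', rfl⟩ : ∃ m', m = m' + 1 := ⟨m - 1, by omega⟩
  rw [Polynomial.coeff_X_mul]
  exact h m' (by omega)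

theorem kv3_split (t : ℂ) (k : ℕ) (F : Ph (Polynomial ℂ)) :
    KV.Ln (Polynomial.C t) Polynomial.X k F = KV.Ln (Polynomial.C t) 0 k F +
      C (Polynomial.C (k : ℂ) * Polynomial.X) * (X (k - 1) * F) := by
  unfold KV.Ln qk
  simp only [LinearMap.add_apply, LinearMap.mulLeft_apply]
  have h : (C (Polynomial.C (k : ℂ) * Polynomial.X) : Ph (Polynomial ℂ)) =
      C ((k : Polynomial ℂ) * Polynomial.X) := by
    rw [map_natCast]
  rw [h]
  have h2 : ((k : Polynomial ℂ) * (Polynomial.X + ((k : Polynomial ℂ) - 1) *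
      (Polynomial.C t - 1))) = (k : Polynomial ℂ) * Polynomial.X +
      (k : Polynomial ℂ) * (0 + ((k : Polynomial ℂ) - 1) * (Polynomial.C t - 1)) := by
    ring
  rw [h2, C_add]
  ring

theorem Top.Ln {l : ℕ} {F : Ph (Polynomial ℂ)} {G : Ph ℂ} (h : Top l F G) (t : ℂ) (k : ℕ) (hk : 0 < k) :
    Top (l + 1) (KV.Ln (Polynomial.C t) Polynomial.X k F) ((k : ℂ) • (X (k - 1) * G)) := by
  have _ := hk
  rw [kv3_iff] at h ⊢
  set Y := F - C (Polynomial.X ^ l) * map Polynomial.C G with hY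
  have hF : F = C (Polynomial.X ^ l) * map Polynomial.C G + Y := by rw [hY]; ring
  have hT : (C (Polynomial.X ^ l) * map Polynomial.C G : Ph (Polynomial ℂ)) ∈ kv3_Dg (l + 1) := by
    intro e
    rw [kv3_coeff, Polynomial.mem_degreeLT, Polynomial.degree_lt_iff_coeff_zero]
    intro m hm
    rw [Polynomial.coeff_mul_C, Polynomial.coeff_X_pow, if_neg (by omega), zero_mul]
  have hF1 : F ∈ kv3_Dg (l + 1) := by
    rw [hF]
    exact Submodule.add_mem _ hT (kv3_mono (Nat.le_succ l) h)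
  have h1 := kv3_Ln0 hF1 t k
  have h2 := kv3_kap (kv3_X h (k - 1)) (k : ℂ)
  have e : KV.Ln (Polynomial.C t) Polynomial.X k F -
      C (Polynomial.X ^ (l + 1)) * map Polynomial.C ((k : ℂ) • (X (k - 1) * G)) =
      KV.Ln (Polynomial.C t) 0 k F + C (Polynomial.C (k : ℂ) * Polynomial.X) * (X (k - 1) * Y) := by
    have e1 : (map Polynomial.C ((k : ℂ) • (X (k - 1) * G)) : Ph (Polynomial ℂ)) =
        C (Polynomial.C (k : ℂ)) * (X (k - 1) * map Polynomial.C G) := by
      rw [smul_eq_C_mul, map_mul, map_mul, map_C, map_X]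
    rw [e1, kv3_split t k F, hY, C_mul, pow_succ, C_mul]
    ring
  rw [e]
  exact Submodule.add_mem _ h1 h2

theorem kv3_exw_cons (a : ℕ) (w : List ℕ) : exw (a :: w) = Finsupp.single (a - 1) 1 + exw w := by
  unfold exw
  rw [← Multiset.cons_coe, Multiset.map_cons, ← Multiset.singleton_add, map_add,
    Multiset.toFinsupp_singleton]

theorem Top.word {l : ℕ} {F : Ph (Polynomial ℂ)} {G : Ph ℂ} (h : Top l F G) (t : ℂ) (w : List ℕ)
    (hw : Pw w) : Top (w.length + l) (wR (Polynomial.C t) Polynomial.X w F)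
      (((w.prod : ℕ) : ℂ) • (monomial (exw w) 1 * G)) := by
  induction w with
  | nil =>
    have e : exw [] = 0 := by simp [exw]
    rw [e, List.length_nil, zero_add, List.prod_nil, Nat.cast_one, one_smul]
    have e1 : (monomial (0 : ℕ →₀ ℕ) (1 : ℂ)) = (1 : Ph ℂ) := rfl
    rw [e1, one_mul]
    exact h
  | cons a w ih =>
    have h1 := ih (fun b hb => hw b (List.mem_cons_of_mem _ hb))
    have h2 := h1.Ln t a (hw a List.mem_cons_self)
    have e1 : (a :: w).length + l = w.length + l + 1 := by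
      rw [List.length_cons]
      ring
    have e2 : ((((a :: w).prod : ℕ) : ℂ) • (monomial (exw (a :: w)) 1 * G) : Ph ℂ) =
        (a : ℂ) • (X (a - 1) * (((w.prod : ℕ) : ℂ) • (monomial (exw w) 1 * G))) := by
      rw [kv3_exw_cons, List.prod_cons, Nat.cast_mul, mul_smul, mul_smul_comm]
      congr 2
      rw [← mul_assoc]
      congr 1
      rw [X, monomial_mul, one_mul]
    rw [e1, e2]
    exact h2

end

end WPQ.KV
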