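import Pool.Agent.WPQ.KVD

/-! [WPQ-KV4] Partition identity.

`part_count`: bijection `π ↦ π.parts - replicate s r` (inverse: `+ replicate s r`) between the partitions of `m` in which `r`
occurs at least `s` times and the partitions of `m - r s`.  `part_one` is the case `r = s = 1` (`1 ∈ parts ↔ 1 ≤ count 1`).
`part_id`: `card parts = ∑_{r ∈ Icc 1 m} count r parts = ∑_{r ∈ Icc 1 m} ∑_{s ∈ Icc 1 m} if s ≤ count r then 1 else 0`
(all parts are in `Icc 1 m`, `count r ≤ m`); exchange the sums; the number of partitions with `s ≤ count r` is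
`card (Partition (m - r s))` if `r s ≤ m` and `0` otherwise (`s` copies of `r` have sum `r s`). -/

namespace WPQ.KV

/-- The pairs `(r, s)` with `r, s ≥ 1` and `r s ≤ m`. -/
def RS (m : ℕ) : Finset (ℕ × ℕ) :=
  ((Finset.Icc 1 m) ×ˢ (Finset.Icc 1 m)).filter fun x => x.1 * x.2 ≤ m

theorem mem_RS {m : ℕ} {x : ℕ × ℕ} : x ∈ RS m ↔ 1 ≤ x.1 ∧ 1 ≤ x.2 ∧ x.1 * x.2 ≤ m := by
  unfold RS
  rw [Finset.mem_filter, Finset.mem_product, Finset.mem_Icc, Finset.mem_Icc]
  constructor
  · rintro ⟨⟨⟨h1, -⟩, h2, -⟩, h3⟩
    exact ⟨h1, h2, h3⟩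
  · rintro ⟨h1, h2, h3⟩
    refine ⟨⟨⟨h1, ?_⟩, h2, ?_⟩, h3⟩
    · exact (Nat.le_mul_of_pos_right _ h2).trans h3
    · exact (Nat.le_mul_of_pos_left _ h1).trans h3

theorem part_count (m r s : ℕ) (hr : 1 ≤ r) (h : r * s ≤ m) :
    Fintype.card {π : Nat.Partition m // s ≤ π.parts.count r} =
      Fintype.card (Nat.Partition (m - r * s)) := by
  refine Fintype.card_congr
    { toFun := fun π => ⟨π.1.parts - Multiset.replicate s r, fun {i} hi =>
          π.1.parts_pos (Multiset.mem_of_le (Multiset.sub_le_self _ _) hi), ?_⟩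
      invFun := fun ρ => ⟨⟨ρ.parts + Multiset.replicate s r, fun {i} hi => ?_, ?_⟩, ?_⟩
      left_inv := fun π => ?_
      right_inv := fun ρ => ?_ }
  · have h1 : Multiset.replicate s r ≤ π.1.parts := Multiset.le_count_iff_replicate_le.1 π.2
    have h2 : (π.1.parts - Multiset.replicate s r + Multiset.replicate s r).sum = m := by
      rw [tsub_add_cancel_of_le h1, π.1.parts_sum]
    rw [Multiset.sum_add, Multiset.sum_replicate, smul_eq_mul, mul_comm s r] at h2
    omega
  · rcases Multiset.mem_add.1 hi with h1 | h1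
    · exact ρ.parts_pos h1
    · rw [Multiset.eq_of_mem_replicate h1]
      exact hr
  · rw [Multiset.sum_add, Multiset.sum_replicate, smul_eq_mul, ρ.parts_sum, mul_comm s r]
    omega
  · show s ≤ (ρ.parts + Multiset.replicate s r).count r
    rw [Multiset.count_add, Multiset.count_replicate_self]
    omega
  · have h1 : Multiset.replicate s r ≤ π.1.parts := Multiset.le_count_iff_replicate_le.1 π.2
    apply Subtype.ext
    apply Nat.Partition.ext
    show π.1.parts - Multiset.replicate s r + Multiset.replicate s r = π.1.parts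
    rw [tsub_add_cancel_of_le h1]
  · apply Nat.Partition.ext
    show ρ.parts + Multiset.replicate s r - Multiset.replicate s r = ρ.parts
    rw [add_tsub_cancel_right]

theorem part_one (m : ℕ) (hm : 1 ≤ m) :
    Fintype.card {π : Nat.Partition m // 1 ∈ π.parts} = Fintype.card (Nat.Partition (m - 1)) := by
  have h1 := part_count m 1 1 le_rfl (by omega)
  rw [mul_one] at h1
  rw [← h1]
  exact Fintype.card_congr (Equiv.subtypeEquivRight fun π => Multiset.one_le_count_iff_mem.symm)

theorem part_id (m : ℕ) : ∑ π : Nat.Partition m, π.parts.card =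
    ∑ x ∈ RS m, Fintype.card (Nat.Partition (m - x.1 * x.2)) := by
  have hle : ∀ (π : Nat.Partition m) (r : ℕ), 1 ≤ r → r * π.parts.count r ≤ m := by
    intro π r hr
    have h1 : Multiset.replicate (π.parts.count r) r ≤ π.parts :=
      Multiset.le_count_iff_replicate_le.1 le_rfl
    have h2 := Multiset.sum_le_sum_of_rel_le (s := Multiset.replicate (π.parts.count r) r)
      (t := Multiset.replicate (π.parts.count r) r) (Multiset.rel_refl_of_refl_on fun _ _ => le_rfl)
    have h3 : (π.parts - Multiset.replicate (π.parts.count r) r +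
        Multiset.replicate (π.parts.count r) r).sum = m := by
      rw [tsub_add_cancel_of_le h1, π.parts_sum]
    rw [Multiset.sum_add, Multiset.sum_replicate, smul_eq_mul, mul_comm] at h3
    omega
  have h1 : ∀ π : Nat.Partition m, π.parts.card =
      ∑ r ∈ Finset.Icc 1 m, ∑ s ∈ Finset.Icc 1 m, if s ≤ π.parts.count r then 1 else 0 := by
    intro π
    have h2 : ∑ r ∈ Finset.Icc 1 m, π.parts.count r = π.parts.card := by
      refine Multiset.sum_count_eq_card fun r hr => ?_
      rw [Finset.mem_Icc]
      refine ⟨π.parts_pos hr, ?_⟩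
      have h3 := hle π r (π.parts_pos hr)
      have h4 : 1 ≤ π.parts.count r := Multiset.one_le_count_iff_mem.2 hr
      nlinarith
    rw [← h2]
    refine Finset.sum_congr rfl fun r hr => ?_
    rw [Finset.mem_Icc] at hr
    have h3 := hle π r hr.1
    have h4 : π.parts.count r ≤ m := by nlinarith
    rw [← Finset.sum_filter, Finset.sum_const, smul_eq_mul, mul_one]
    have h5 : (Finset.Icc 1 m).filter (fun s => s ≤ π.parts.count r) =
        Finset.Icc 1 (π.parts.count r) := by
      ext s
      simp only [Finset.mem_filter, Finset.mem_Icc]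
      omega
    rw [h5, Nat.card_Icc]
    omega
  rw [Finset.sum_congr rfl fun π _ => h1 π, Finset.sum_comm]
  unfold RS
  rw [Finset.sum_filter, Finset.sum_product]
  refine Finset.sum_congr rfl fun r hr => ?_
  rw [Finset.sum_comm]
  refine Finset.sum_congr rfl fun s hs => ?_
  rw [Finset.mem_Icc] at hr hs
  rw [← Finset.sum_filter, Finset.sum_const, smul_eq_mul, mul_one]
  split_ifs with h2
  · rw [← part_count m r s hr.1 h2, Fintype.card_subtype]
  · rw [Finset.card_eq_zero, Finset.filter_eq_empty_iff]
    intro π _ h3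
    have h4 := hle π r hr.1
    have h5 : r * s ≤ r * π.parts.count r := Nat.mul_le_mul_left r h3
    exact h2 (h5.trans h4)

end WPQ.KV
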