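import Pool.Agent.WPQ.RC1

/-! [WPQ-KV9] A middle coefficient which is not zero.

`MN s p (r + p(s-1)) (2r)` is the coefficient of `∏ x_i^D`, `D = r + p (s-1)`, in `∏_{i<j} (x_i - x_j)^(2p) ∏_i (1 - x_i)^(2r)` (`eeZ (2r) n` is the
coefficient of `x^n` in `(1-x)^(2r)`: `RC.ee (n:ℂ) k = (-1)^k choose n k`, see `fw6_ee_nat` in FW6.lean / `RC.ee`), i.e. in `g^2`,
`g = ∏_{i<j} (x_i - x_j)^p ∏_i (1 - x_i)^r`.  Exactly as `Cst_ne_zero` (RC1.lean: copy and extend the proof there): `g` has integer
coefficients, degree `≤ D` in every variable, `R_D g = ± g` for `R_N f = ∏ X^N f(1/X)` (one more factor `(1-x)^r`, `R_r` of it is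
`(-1)^r (1-x)^r`), so the coefficient of `x^(D,…,D)` in `g²` is `± ∑_u (coeff u g)^2 ≠ 0` since `g ≠ 0`. -/

namespace WPQ.RC

open MvPolynomial

noncomputable section

/-- Exponents at most `N`, symmetric up to the sign `ε` under `u ↦ N - u`. -/
private def kv9_P {σ : Type} (N : σ →₀ ℕ) (ε : ℤ) (f : MvPolynomial σ ℤ) : Prop :=
  (∀ u, coeff u f ≠ 0 → u ≤ N) ∧ ∀ u v, u + v = N → coeff v f = ε * coeff u f

private theorem kv9_one {σ : Type} : kv9_P (0 : σ →₀ ℕ) 1 1 := by
  classical
  refine ⟨fun u hu => ?_, fun u v h => ?_⟩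
  · rw [coeff_one] at hu
    by_cases h0 : 0 = u
    · rw [← h0]
    · rw [if_neg h0] at hu
      exact absurd rfl hu
  · have hu : u = 0 := by
      rw [← le_zero_iff, ← h]
      exact le_self_add
    have hv : v = 0 := by
      rw [← le_zero_iff, ← h]
      exact le_add_self
    rw [hu, hv, one_mul]

private theorem kv9_mul {σ : Type} {N N' : σ →₀ ℕ} {ε ε' : ℤ} {f g : MvPolynomial σ ℤ}
    (hf : kv9_P N ε f) (hg : kv9_P N' ε' g) : kv9_P (N + N') (ε * ε') (f * g) := by
  classical
  refine ⟨fun u hu => ?_, fun u v h => ?_⟩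
  · rw [coeff_mul] at hu
    obtain ⟨x, hx, hne⟩ := Finset.exists_ne_zero_of_sum_ne_zero hu
    rw [← Finset.HasAntidiagonal.mem_antidiagonal.1 hx]
    exact add_le_add (hf.1 _ (left_ne_zero_of_mul hne)) (hg.1 _ (right_ne_zero_of_mul hne))
  · have hfil : ∀ w : σ →₀ ℕ, coeff w (f * g) = ∑ x ∈ (Finset.HasAntidiagonal.antidiagonal w).filter
        (fun x => x.1 ≤ N ∧ x.2 ≤ N'), coeff x.1 f * coeff x.2 g := by
      intro w
      rw [coeff_mul, Finset.sum_filter_of_ne]
      intro x _ hne
      exact ⟨hf.1 _ (left_ne_zero_of_mul hne), hg.1 _ (right_ne_zero_of_mul hne)⟩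
    rw [hfil v, hfil u, Finset.mul_sum]
    have hsub : ∀ w w' : σ →₀ ℕ, w + w' = N + N' → ∀ x ∈ (Finset.HasAntidiagonal.antidiagonal w).filter
        (fun x => x.1 ≤ N ∧ x.2 ≤ N'), (N - x.1, N' - x.2) ∈ (Finset.HasAntidiagonal.antidiagonal w').filter
        (fun x => x.1 ≤ N ∧ x.2 ≤ N') := by
      intro w w' hw x hx
      rw [Finset.mem_filter, Finset.HasAntidiagonal.mem_antidiagonal] at hx ⊢
      obtain ⟨h1, h2, h3⟩ := hx
      refine ⟨?_, tsub_le_self, tsub_le_self⟩
      ext t
      have e1 := DFunLike.congr_fun hw t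
      have e2 := DFunLike.congr_fun h1 t
      have e3 := h2 t
      have e4 := h3 t
      simp only [Finsupp.add_apply, Finsupp.tsub_apply] at e1 e2 ⊢
      omega
    refine Finset.sum_nbij' (fun x => (N - x.1, N' - x.2)) (fun x => (N - x.1, N' - x.2))
      (hsub v u (by rw [add_comm, h])) (hsub u v h) ?_ ?_ ?_
    · intro x hx
      rw [Finset.mem_filter] at hx
      exact Prod.ext (tsub_tsub_cancel_of_le hx.2.1) (tsub_tsub_cancel_of_le hx.2.2)
    · intro x hx
      rw [Finset.mem_filter] at hx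
      exact Prod.ext (tsub_tsub_cancel_of_le hx.2.1) (tsub_tsub_cancel_of_le hx.2.2)
    · intro x hx
      rw [Finset.mem_filter] at hx
      rw [hf.2 (N - x.1) x.1 (tsub_add_cancel_of_le hx.2.1),
        hg.2 (N' - x.2) x.2 (tsub_add_cancel_of_le hx.2.2)]
      ring

private theorem kv9_powP {σ : Type} {N : σ →₀ ℕ} {ε : ℤ} {f : MvPolynomial σ ℤ}
    (hf : kv9_P N ε f) (n : ℕ) : kv9_P (n • N) (ε ^ n) (f ^ n) := by
  induction n with
  | zero => rw [zero_smul, pow_zero, pow_zero]; exact kv9_one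
  | succ n ih => rw [succ_nsmul, pow_succ, pow_succ]; exact kv9_mul ih hf

private theorem kv9_prod {σ τ : Type} (S : Finset τ) (N : τ → σ →₀ ℕ) (ε : τ → ℤ)
    (f : τ → MvPolynomial σ ℤ) (h : ∀ t ∈ S, kv9_P (N t) (ε t) (f t)) :
    kv9_P (∑ t ∈ S, N t) (∏ t ∈ S, ε t) (∏ t ∈ S, f t) := by
  classical
  induction S using Finset.induction_on with
  | empty => rw [Finset.sum_empty, Finset.prod_empty, Finset.prod_empty]; exact kv9_one
  | insert a S ha ih =>
    rw [Finset.sum_insert ha, Finset.prod_insert ha, Finset.prod_insert ha]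
    exact kv9_mul (h a (Finset.mem_insert_self a S))
      (ih fun t ht => h t (Finset.mem_insert_of_mem ht))

private theorem kv9_base {σ : Type} (r s : σ) :
    kv9_P (Finsupp.single r 1 + Finsupp.single s 1) (-1) (X r - X s : MvPolynomial σ ℤ) := by
  classical
  refine ⟨fun u hu => ?_, fun u v h => ?_⟩
  · rw [coeff_sub, coeff_X, coeff_X] at hu
    by_cases h1 : Finsupp.single r 1 = u
    · rw [← h1]
      exact le_self_add
    · by_cases h2 : Finsupp.single s 1 = u
      · rw [← h2]
        exact le_add_self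
      · rw [if_neg h1, if_neg h2, sub_zero] at hu
        exact absurd rfl hu
  · rw [coeff_sub, coeff_sub, coeff_X, coeff_X, coeff_X, coeff_X]
    have h1 : (Finsupp.single r 1 = v) ↔ (Finsupp.single s 1 = u) := by
      constructor
      · intro hv
        rw [← hv, add_comm] at h
        exact (add_left_cancel h).symm
      · intro hu
        rw [← hu, add_comm (Finsupp.single r 1)] at h
        exact (add_left_cancel h).symm
    have h2 : (Finsupp.single s 1 = v) ↔ (Finsupp.single r 1 = u) := by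
      constructor
      · intro hv
        rw [← hv] at h
        exact (add_right_cancel h).symm
      · intro hu
        rw [← hu] at h
        exact (add_left_cancel h).symm
    by_cases hr : Finsupp.single r 1 = u
    · by_cases hs : Finsupp.single s 1 = u
      · rw [if_pos (h1.2 hs), if_pos (h2.2 hr), if_pos hr, if_pos hs]
        ring
      · rw [if_neg (fun h' => hs (h1.1 h')), if_pos (h2.2 hr), if_pos hr, if_neg hs]
        ring
    · by_cases hs : Finsupp.single s 1 = u
      · rw [if_pos (h1.2 hs), if_neg (fun h' => hr (h2.1 h')), if_neg hr, if_pos hs]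
        ring
      · rw [if_neg (fun h' => hs (h1.1 h')), if_neg (fun h' => hr (h2.1 h')), if_neg hr,
          if_neg hs]
        ring

/-- The square root of `PP` over the integers. -/
private def kv9_D (b p : ℕ) : MvPolynomial (Fin b) ℤ :=
  ∏ r : Fin b, ∏ s ∈ Finset.univ.filter (fun s => r < s), (X r - X s) ^ p

private theorem kv9_D_ne (b p : ℕ) : kv9_D b p ≠ 0 := by
  rw [kv9_D, Finset.prod_ne_zero_iff]
  intro r _
  rw [Finset.prod_ne_zero_iff]
  intro s hs
  rw [Finset.mem_filter] at hs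
  refine pow_ne_zero _ (sub_ne_zero.2 fun h => ?_)
  exact hs.2.ne (X_injective h)

private theorem kv9_N (b p : ℕ) :
    ∑ r : Fin b, ∑ s ∈ Finset.univ.filter (fun s => r < s),
      p • (Finsupp.single r 1 + Finsupp.single s 1)
      = Finsupp.equivFunOnFinite.symm fun _ : Fin b => p * (b - 1) := by
  classical
  ext t
  have e1 : (Finsupp.equivFunOnFinite.symm fun _ : Fin b => p * (b - 1)) t = p * (b - 1) := rfl
  rw [e1, Finsupp.finsetSum_apply]
  simp only [Finsupp.finsetSum_apply, Finsupp.smul_apply, Finsupp.add_apply,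
    Finsupp.single_apply, smul_eq_mul, mul_add, Finset.sum_add_distrib]
  have e2 : ∑ r : Fin b, ∑ s ∈ Finset.univ.filter (fun s => r < s), p * (if r = t then 1 else 0)
      = p * (Finset.univ.filter (fun s => t < s)).card := by
    rw [Finset.sum_eq_single t]
    · rw [if_pos rfl, Finset.sum_const, smul_eq_mul, mul_one, mul_comm]
    · intro r _ hr
      rw [if_neg hr, mul_zero, Finset.sum_const_zero]
    · intro h
      exact absurd (Finset.mem_univ t) h
  have e3 : ∑ r : Fin b, ∑ s ∈ Finset.univ.filter (fun s => r < s), p * (if s = t then 1 else 0)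
      = p * (Finset.univ.filter (fun r => r < t)).card := by
    have e4 : ∀ r : Fin b, ∑ s ∈ Finset.univ.filter (fun s => r < s), p * (if s = t then 1 else 0)
        = if r < t then p else 0 := by
      intro r
      rw [Finset.sum_filter, Finset.sum_eq_single t]
      · by_cases h : r < t
        · rw [if_pos h, if_pos h, if_pos rfl, mul_one]
        · rw [if_neg h, if_neg h]
      · intro s _ hs
        rw [if_neg hs, mul_zero, ite_self]
      · intro h
        exact absurd (Finset.mem_univ t) h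
    simp only [e4]
    rw [← Finset.sum_filter, Finset.sum_const, smul_eq_mul, mul_comm]
  have e5 : (Finset.univ.filter (fun s => t < s)).card = b - 1 - t := by
    rw [Finset.filter_lt_eq_Ioi, Fin.card_Ioi]
  have e6 : (Finset.univ.filter (fun r => r < t)).card = t := by
    rw [Finset.filter_gt_eq_Iio, Fin.card_Iio]
  rw [e2, e3, ← mul_add, e5, e6]
  congr 1
  omega

private theorem kv9_PP (b p : ℕ) :
    PP b p = MvPolynomial.map (Int.castRingHom ℂ) (kv9_D b p * kv9_D b p) := by
  rw [PP, kv9_D, ← Finset.prod_mul_distrib, map_prod]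
  refine Finset.prod_congr rfl fun r _ => ?_
  rw [← Finset.prod_mul_distrib, map_prod]
  refine Finset.prod_congr rfl fun s _ => ?_
  rw [← pow_add, map_pow, map_sub, map_X, map_X, two_mul]

private theorem kv9_oneX {σ : Type} (i : σ) :
    kv9_P (Finsupp.single i 1) (-1) (1 - X i : MvPolynomial σ ℤ) := by
  classical
  have hne : ∀ j : σ, (Finsupp.single j 1 : σ →₀ ℕ) ≠ 0 := by
    intro j hj
    rw [Finsupp.single_eq_zero] at hj
    exact one_ne_zero hj
  refine ⟨fun u hu => ?_, fun u v h => ?_⟩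
  · rw [coeff_sub, coeff_one, coeff_X] at hu
    by_cases h1 : 0 = u
    · rw [← h1]
      exact zero_le
    · by_cases h2 : Finsupp.single i 1 = u
      · rw [← h2]
      · rw [if_neg h1, if_neg h2, sub_zero] at hu
        exact absurd rfl hu
  · rw [coeff_sub, coeff_sub, coeff_one, coeff_one, coeff_X, coeff_X]
    have h1 : (0 = v) ↔ (Finsupp.single i 1 = u) := by
      constructor
      · intro hv
        rw [← hv, add_zero] at h
        exact h.symm
      · intro hu
        rw [← hu] at h
        have h' : Finsupp.single i 1 + v = Finsupp.single i 1 + 0 := by rw [h, add_zero]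
        exact (add_left_cancel h').symm
    have h2 : (Finsupp.single i 1 = v) ↔ (0 = u) := by
      constructor
      · intro hv
        rw [← hv] at h
        have h' : u + Finsupp.single i 1 = 0 + Finsupp.single i 1 := by rw [h, zero_add]
        exact (add_right_cancel h').symm
      · intro hu
        rw [← hu, zero_add] at h
        exact h.symm
    by_cases hr : Finsupp.single i 1 = u
    · have hu0 : ¬ (0 = u) := by
        rw [← hr]
        exact fun h' => hne i h'.symm
      rw [if_pos (h1.2 hr), if_neg (fun h' => hu0 (h2.1 h')), if_neg hu0, if_pos hr]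
      ring
    · by_cases hs : 0 = u
      · rw [if_neg (fun h' => hr (h1.1 h')), if_pos (h2.2 hs), if_pos hs, if_neg hr]
        ring
      · rw [if_neg (fun h' => hr (h1.1 h')), if_neg (fun h' => hs (h2.1 h')), if_neg hs, if_neg hr]
        ring

/-- `∏ (1 - X_i)^n` over the integers. -/
private def kv9_G (b n : ℕ) : MvPolynomial (Fin b) ℤ := ∏ i : Fin b, (1 - X i) ^ n

private theorem kv9_G_ne (b n : ℕ) : kv9_G b n ≠ 0 := by
  rw [kv9_G, Finset.prod_ne_zero_iff]
  intro i _
  refine pow_ne_zero _ fun h => ?_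
  have h1 := congrArg (coeff (0 : Fin b →₀ ℕ)) h
  classical
  rw [coeff_sub, coeff_one, coeff_X, coeff_zero, if_pos rfl, if_neg, sub_zero] at h1
  · exact one_ne_zero h1
  · intro h2
    rw [Finsupp.single_eq_zero] at h2
    exact one_ne_zero h2

private theorem kv9_G_N (b n : ℕ) : ∑ i : Fin b, n • (Finsupp.single i 1 : Fin b →₀ ℕ)
    = Finsupp.equivFunOnFinite.symm fun _ : Fin b => n := by
  classical
  ext t
  have e1 : (Finsupp.equivFunOnFinite.symm fun _ : Fin b => n) t = n := rfl
  rw [e1, Finsupp.finsetSum_apply, Finset.sum_eq_single t]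
  · rw [Finsupp.smul_apply, Finsupp.single_eq_same, smul_eq_mul, mul_one]
  · intro s _ hs
    rw [Finsupp.smul_apply, Finsupp.single_eq_of_ne hs.symm, smul_zero]
  · intro h
    exact absurd (Finset.mem_univ t) h

private def kv9_e (n k : ℕ) : ℤ := (-1) ^ k * (n.choose k : ℤ)

private theorem kv9_pow (b n : ℕ) (i : Fin b) : ((1 - X i) ^ n : MvPolynomial (Fin b) ℤ) =
    ∑ k ∈ Finset.range (n + 1), monomial (Finsupp.single i k) (kv9_e n k) := by
  have h2 : (1 - X i : MvPolynomial (Fin b) ℤ) = -X i + 1 := by ring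
  rw [h2, add_pow]
  refine Finset.sum_congr rfl fun k _ => ?_
  have h3 : ((n.choose k : ℕ) : MvPolynomial (Fin b) ℤ) = C (n.choose k : ℤ) := by
    simp
  have h4 : ((-1 : MvPolynomial (Fin b) ℤ)) ^ k = C ((-1 : ℤ) ^ k) := by
    rw [map_pow, map_neg, C_1]
  rw [one_pow, mul_one, neg_pow, h3, h4, X_pow_eq_monomial, C_mul_monomial, mul_one, mul_comm,
    C_mul_monomial, kv9_e, mul_comm]

private theorem kv9_G_coeff (b n : ℕ) (v : Fin b →₀ ℕ) :
    coeff v (kv9_G b n) = ∏ i : Fin b, kv9_e n (v i) := by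
  classical
  rw [kv9_G, Finset.prod_congr rfl fun i _ => kv9_pow b n i, Finset.prod_univ_sum, coeff_sum]
  have h1 : ∀ x : Fin b → ℕ, ∏ i : Fin b, monomial (Finsupp.single i (x i)) (kv9_e n (x i)) =
      monomial (Finsupp.equivFunOnFinite.symm x) (∏ i : Fin b, kv9_e n (x i)) := by
    intro x
    have h2 : ∀ i : Fin b, monomial (Finsupp.single i (x i)) (kv9_e n (x i)) =
        C (kv9_e n (x i)) * monomial (Finsupp.single i (x i)) 1 := by
      intro i
      rw [C_mul_monomial, mul_one]
    rw [Finset.prod_congr rfl fun i _ => h2 i, Finset.prod_mul_distrib, ← map_prod,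
      ← monomial_sum_index]
    congr 1
    congr 1
    ext t
    rw [Finsupp.finsetSum_apply, Finset.sum_eq_single t]
    · rw [Finsupp.single_eq_same]
      rfl
    · intro s _ hs
      rw [Finsupp.single_eq_of_ne hs.symm]
    · intro h
      exact absurd (Finset.mem_univ t) h
  rw [Finset.sum_congr rfl fun x _ => by rw [h1 x, coeff_monomial]]
  by_cases hv : ∀ i, v i ≤ n
  · rw [Finset.sum_eq_single (⇑v)]
    · rw [if_pos]
      ext t
      rfl
    · intro x _ hx
      rw [if_neg]
      intro h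
      apply hx
      rw [← h]
      rfl
    · intro h
      exfalso
      apply h
      rw [Fintype.mem_piFinset]
      intro i
      rw [Finset.mem_range]
      have := hv i
      omega
  · push Not at hv
    obtain ⟨i, hi⟩ := hv
    rw [Finset.sum_eq_zero, Finset.prod_eq_zero (Finset.mem_univ i)]
    · rw [kv9_e, Nat.choose_eq_zero_of_lt hi, Nat.cast_zero, mul_zero]
    · intro x hx
      rw [if_neg]
      intro h
      have h3 := Fintype.mem_piFinset.1 hx i
      rw [Finset.mem_range] at h3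
      have h4 : v i = x i := by rw [← h]; rfl
      omega

private theorem kv9_ee_nat (n k : ℕ) : ee (n : ℂ) k = ((kv9_e n k : ℤ) : ℂ) := by
  rw [kv9_e]
  push_cast
  induction k with
  | zero => simp [ee]
  | succ k ih =>
    have h1 : ((n.choose (k + 1) : ℕ) : ℂ) * ((k : ℂ) + 1) = (n.choose k : ℂ) * ((n : ℂ) - k) := by
      have h2 := Nat.choose_succ_right_eq n k
      by_cases hk : k ≤ n
      · have h3 : (((n.choose (k + 1) * (k + 1) : ℕ)) : ℂ) = ((n.choose k * (n - k) : ℕ) : ℂ) := by
          rw [h2]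
        push_cast [Nat.cast_sub hk] at h3
        exact h3
      · have h3 : n.choose k = 0 := Nat.choose_eq_zero_of_lt (by omega)
        have h4 : n.choose (k + 1) = 0 := Nat.choose_eq_zero_of_lt (by omega)
        rw [h3, h4]
        simp
    have h5 : (k : ℂ) + 1 ≠ 0 := by exact_mod_cast Nat.succ_ne_zero k
    show ee (n : ℂ) k * ((k : ℂ) - n) / ((k : ℂ) + 1) = _
    rw [ih, div_eq_iff h5, pow_succ]
    linear_combination (-1) ^ k * h1

/-- The number `MN` with `2r` in the exponent is a coefficient. -/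
private theorem kv9_MN (s p r D : ℕ) : MN s p (D : ℤ) (2 * (r : ℂ)) =
    ((coeff (Finsupp.equivFunOnFinite.symm fun _ : Fin s => D)
      (kv9_D s p * kv9_D s p * kv9_G s (2 * r)) : ℤ) : ℂ) := by
  classical
  have h0 : ((coeff (Finsupp.equivFunOnFinite.symm fun _ : Fin s => D)
      (kv9_D s p * kv9_D s p * kv9_G s (2 * r)) : ℤ) : ℂ) =
      coeff (Finsupp.equivFunOnFinite.symm fun _ : Fin s => D)
        (PP s p * MvPolynomial.map (Int.castRingHom ℂ) (kv9_G s (2 * r))) := by
    rw [kv9_PP, ← map_mul, coeff_map, eq_intCast]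
  rw [h0]
  have h1 : PP s p * MvPolynomial.map (Int.castRingHom ℂ) (kv9_G s (2 * r)) =
      ∑ u ∈ (PP s p).support, monomial u (coeff u (PP s p)) *
        MvPolynomial.map (Int.castRingHom ℂ) (kv9_G s (2 * r)) := by
    rw [← Finset.sum_mul, support_sum_monomial_coeff]
  rw [h1, coeff_sum, MN]
  refine Finset.sum_congr rfl fun u _ => ?_
  rw [coeff_monomial_mul']
  have hD : ∀ i : Fin s, (Finsupp.equivFunOnFinite.symm fun _ : Fin s => D) i = D := fun _ => rfl
  by_cases hu : u ≤ Finsupp.equivFunOnFinite.symm fun _ : Fin s => D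
  · rw [if_pos hu, coeff_map, eq_intCast, kv9_G_coeff, Int.cast_prod]
    congr 1
    refine Finset.prod_congr rfl fun i _ => ?_
    have hi : u i ≤ D := hu i
    rw [Finsupp.tsub_apply, hD, ← kv9_ee_nat, eeZ, if_neg (by omega)]
    have h3 : ((D : ℤ) - (u i : ℤ)).toNat = D - u i := by omega
    rw [h3]
    push_cast
    rfl
  · rw [if_neg hu]
    have h4 : ∃ i, D < u i := by
      by_contra hcon
      push Not at hcon
      exact hu fun i => hcon i
    obtain ⟨i, hi⟩ := h4
    rw [Finset.prod_eq_zero (Finset.mem_univ i), mul_zero]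
    rw [eeZ, if_pos (by omega)]

theorem MN_middle_ne_zero (p r s : ℕ) (hs : 1 ≤ s) :
    MN s p ((r : ℤ) + p * ((s : ℤ) - 1)) (2 * (r : ℂ)) ≠ 0 := by
  classical
  have hD : (r : ℤ) + p * ((s : ℤ) - 1) = ((p * (s - 1) + r : ℕ) : ℤ) := by
    push_cast [Nat.cast_sub hs]
    ring
  rw [hD, kv9_MN, Int.cast_ne_zero]
  have hg2 : kv9_D s p * kv9_D s p * kv9_G s (2 * r) =
      (kv9_D s p * kv9_G s r) * (kv9_D s p * kv9_G s r) := by
    have h1 : kv9_G s (2 * r) = kv9_G s r * kv9_G s r := by
      rw [kv9_G, kv9_G, ← Finset.prod_mul_distrib]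
      refine Finset.prod_congr rfl fun i _ => ?_
      rw [← pow_add, two_mul]
    rw [h1]
    ring
  rw [hg2]
  obtain ⟨g, hg⟩ : ∃ g, g = kv9_D s p * kv9_G s r := ⟨_, rfl⟩
  have hg0 : g ≠ 0 := by
    rw [hg]
    exact mul_ne_zero (kv9_D_ne s p) (kv9_G_ne s r)
  obtain ⟨N, hN⟩ : ∃ N, N = (Finsupp.equivFunOnFinite.symm fun _ : Fin s => p * (s - 1) + r) :=
    ⟨_, rfl⟩
  obtain ⟨ε, hε⟩ : ∃ ε : ℤ, ε = (∏ r : Fin s, ∏ t ∈ Finset.univ.filter (fun t => r < t),
    (-1) ^ p) * ∏ _i : Fin s, (-1) ^ r := ⟨_, rfl⟩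
  have hP : kv9_P N ε g := by
    have hNN : N = (∑ r : Fin s, ∑ t ∈ Finset.univ.filter (fun t => r < t),
        p • (Finsupp.single r 1 + Finsupp.single t 1)) +
        ∑ i : Fin s, r • (Finsupp.single i 1 : Fin s →₀ ℕ) := by
      rw [kv9_N, kv9_G_N, hN]
      ext t
      rfl
    rw [hNN, hε, hg, kv9_D, kv9_G]
    refine kv9_mul ?_ ?_
    · exact kv9_prod _ _ _ _ fun r _ => kv9_prod _ _ _ _ fun t _ => kv9_powP (kv9_base r t) p
    · exact kv9_prod _ _ _ _ fun i _ => kv9_powP (kv9_oneX i) r
  have hε0 : ε ≠ 0 := by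
    rw [hε]
    refine mul_ne_zero ?_ ?_
    · rw [Finset.prod_ne_zero_iff]
      intro r _
      rw [Finset.prod_ne_zero_iff]
      intro t _
      exact pow_ne_zero _ (by norm_num)
    · rw [Finset.prod_ne_zero_iff]
      intro i _
      exact pow_ne_zero _ (by norm_num)
  rw [← hg, ← hN, coeff_mul]
  have h1 : ∑ x ∈ Finset.HasAntidiagonal.antidiagonal N, coeff x.1 g * coeff x.2 g
      = ε * ∑ x ∈ Finset.HasAntidiagonal.antidiagonal N, coeff x.1 g ^ 2 := by
    rw [Finset.mul_sum]
    refine Finset.sum_congr rfl fun x hx => ?_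
    rw [hP.2 x.1 x.2 (Finset.HasAntidiagonal.mem_antidiagonal.1 hx)]
    ring
  rw [h1]
  refine mul_ne_zero hε0 fun h2 => ?_
  rw [Finset.sum_eq_zero_iff_of_nonneg (fun x _ => sq_nonneg _)] at h2
  refine hg0 ?_
  ext u
  rw [coeff_zero]
  by_contra hu
  have h3 := h2 (u, N - u) (Finset.HasAntidiagonal.mem_antidiagonal.2 (add_tsub_cancel_of_le (hP.1 u hu)))
  exact hu (pow_eq_zero_iff (two_ne_zero)|>.1 h3)

end

end WPQ.RC
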