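import Mathlib

/-! WPQ, block KV (Virasoro: Gram nondegeneracy for irrational `t`): definitions.

Fock space of rank one over a commutative ring `R` with parameters `t`, `κ`: polynomial ring in
`Z_n = X n` (`n : ℕ`), of degree `n + 1`.  The Heisenberg algebra acts by
`b(-n-1) = 2t(n+1) Z_n`, `b(n+1) = ∂_n`, `b(0) = κ`; `[b(m), b(-m)] = 2tm`. -/

namespace WPQ.KV

open MvPolynomial

noncomputable section

/-- The Fock space of rank one over `R`. -/
abbrev Ph (R : Type) [CommRing R] : Type := MvPolynomial ℕ R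

/-- The degree of the variable `X n`. -/
def wt (n : ℕ) : ℕ := n + 1

section
variable {R : Type} [CommRing R]

/-- The multiplication part of `L(-k)`. -/
def qk (t κ : R) (k : ℕ) : Ph R :=
  C ((k : R) * (κ + ((k : R) - 1) * (t - 1))) * X (k - 1) +
    C t * ∑ n ∈ Finset.range (k - 1), C (((n : R) + 1) * ((k : R) - 1 - n)) * (X n * X (k - 2 - n))

/-- `L(-k)` for `k ≥ 1`. -/
def Ln (t κ : R) (k : ℕ) : Ph R →ₗ[R] Ph R :=
  (mkDerivation R fun n : ℕ => C ((n : R) + 1 + k) * (X (n + k) : Ph R)).toLinearMap +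
    LinearMap.mulLeft R (qk t κ k)

/-- `L(-w_1) ⋯ L(-w_l) f` in the Fock space. -/
def wR (t κ : R) (w : List ℕ) (f : Ph R) : Ph R := w.foldr (fun a y => Ln t κ a y) f

/-- The parts of a partition in decreasing order. -/
def pl {m : ℕ} (π : Nat.Partition m) : List ℕ := π.parts.sort (· ≥ ·)

/-- The exponent of the monomial `∏ Z_(π_i - 1)`. -/
def ex {m : ℕ} (π : Nat.Partition m) : ℕ →₀ ℕ := Multiset.toFinsupp (π.parts.map fun a => a - 1)

/-- The matrix of the vectors `v_π = L(-π_1) ⋯ L(-π_l) 1` in the basis of monomials. -/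
def MM (t κ : R) (m : ℕ) : Matrix (Nat.Partition m) (Nat.Partition m) R :=
  fun π π' => coeff (ex π') (wR t κ (pl π) 1)

/-- `κ_{r,s} = (r-1) - t (s-1)` -/
def krs (t : R) (r s : ℕ) : R := ((r : R) - 1) - t * ((s : R) - 1)

end

/-- `h_{r,s}` -/
def hrs (t : ℂ) (r s : ℕ) : ℂ :=
  (((s : ℂ) ^ 2 - 1) * t + ((r : ℂ) ^ 2 - 1) / t - 2 * ((r : ℂ) * s - 1)) / 4

/-- The central charge. -/
def cc (t : ℂ) : ℂ := 1 - 6 * (t - 1) ^ 2 / t

/-- The weight of the Fock space with parameter `κ`. -/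
def hk (t κ : ℂ) : ℂ := κ * (κ - 2 * (t - 1)) / (4 * t)

/-- `L(k)`, `k ∈ ℤ`, on the Fock space over `ℂ` (`t ≠ 0`). -/
def Lk (t κ : ℂ) (k : ℤ) : Ph ℂ →ₗ[ℂ] Ph ℂ :=
  if 0 < k then
    (mkDerivation ℂ fun n : ℕ =>
      if k.toNat ≤ n then C ((n : ℂ) + 1 - k) * (X (n - k.toNat) : Ph ℂ) else 0).toLinearMap
    + ((κ - ((k : ℂ) + 1) * (t - 1)) / (2 * t)) • (pderiv (R := ℂ) (k.toNat - 1)).toLinearMap
    + (1 / (4 * t)) • ∑ n ∈ Finset.range (k.toNat - 1),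
        (pderiv (R := ℂ) n).toLinearMap ∘ₗ (pderiv (R := ℂ) (k.toNat - 2 - n)).toLinearMap
  else if k = 0 then
    (mkDerivation ℂ fun n : ℕ => C ((n : ℂ) + 1) * (X n : Ph ℂ)).toLinearMap
      + hk t κ • LinearMap.id
  else Ln t κ (-k).toNat

/-- The Heisenberg operators on the Fock space over `ℂ`. -/
def bm (t κ : ℂ) (m : ℤ) : Ph ℂ →ₗ[ℂ] Ph ℂ :=
  if 0 < m then (pderiv (R := ℂ) (m.toNat - 1)).toLinearMap
  else if m = 0 then κ • LinearMap.id
  else (-2 * t * m) • LinearMap.mulLeft ℂ (X ((-m).toNat - 1) : Ph ℂ)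

/-- The weight of a monomial in the contravariant pairing. -/
def ww (t : ℂ) (e : ℕ →₀ ℕ) : ℂ := e.prod fun n a => (a.factorial : ℂ) * (-1 / (2 * t * (n + 1))) ^ a

/-- The contravariant pairing: `Z_n` is adjoint to `-∂_n / (2t(n+1))`. -/
def pr (t : ℂ) (f g : Ph ℂ) : ℂ := ∑ e ∈ f.support, coeff e f * coeff e g * ww t e

/-- Virasoro relations with central charge `c`. -/
def IsVir (c : ℂ) {N : Type} [AddCommGroup N] [Module ℂ N] (L : ℤ → N →ₗ[ℂ] N) : Prop :=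
  ∀ m n : ℤ, L m ∘ₗ L n - L n ∘ₗ L m = ((m : ℂ) - n) • L (m + n) +
    (if m + n = 0 then (c / 12 * ((m : ℂ) ^ 3 - m)) • LinearMap.id else 0)

section
variable {N : Type} [AddCommGroup N] [Module ℂ N]

/-- `L(-w_1) ⋯ L(-w_l) x` -/
def wd (L : ℤ → N →ₗ[ℂ] N) (w : List ℕ) (x : N) : N := w.foldr (fun a y => L (-(a : ℤ)) y) x

/-- `L(w_1) ⋯ L(w_l) x` -/
def wu (L : ℤ → N →ₗ[ℂ] N) (w : List ℕ) (x : N) : N := w.foldr (fun a y => L (a : ℤ) y) x

/-- All letters are positive. -/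
def Pw (w : List ℕ) : Prop := ∀ a ∈ w, 0 < a

/-- The span of the vectors `L(-w) x` of level `m`. -/
def Sw (L : ℤ → N →ₗ[ℂ] N) (x : N) (m : ℤ) : Submodule ℂ N :=
  Submodule.span ℂ {y | ∃ w : List ℕ, Pw w ∧ (w.sum : ℤ) = m ∧ y = wd L w x}

end

end

end WPQ.KV
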