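import Pool.Agent.WPQ.KV22

/-! WPQ, block KV: `WPQ.KV.prim_desc` is proved in `Pool/Agent/WPQ/KV22.lean` (on top of `KV1` … `KV21`). -/
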