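import Pool.Agent.WPQ.NTM
import Pool.Agent.WPQ.FW11
import Pool.Agent.WPQ.FW10
import Pool.Agent.WPQ.FW6

/-! [WPQ-LW3] The Miura transformation for `A_l`.

`e_i = lwE l i` (`i = 0..l`) are the vectors `√p λ_i` for the weights `λ_i` of the vector representation:
`e_i - e_{i+1} = b_i`, `⟨b_j, e_i⟩ = p (δ_{ij} - δ_{i,j+1})`.  `A_i f = (p-1) D f + f + e_i(-1) f`,
`F = A_0 A_1 ⋯ A_l 1`.

Plan.  `lwE_form`: `∑_a A_ja (l-a)/(l+1) = δ_{j0}` and `∑_{a<i} A_ja = δ_{j0}(i>0) - δ_{ij} + δ_{i,j+1}`-type sums: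
only `a = j-1, j, j+1` contribute.
Let `j : Fin l`, `ν = Pi.single j (-1/p)`, `S f = vop A p ν (-1) f`.  `fw11_vop_osc`:
`vop ν m (osc h 0 * f) = osc h 0 * vop ν m f - ⟨h,ν⟩ vop ν (m+1) f`.
Let `Cm f` be: `∀ m g, vop ν m (f * g) = f * vop ν m g`.  `Cm 1`, `Cm` is closed under `+`, `*`, scalars,
contains `osc h k` if `⟨h,ν⟩ = 0` (`fw11_vop_osc` for all `k`), and `D (osc h k) = (k+2) osc h (k+1)`.  The set of
polynomials in the `osc h k`, `⟨h,ν⟩ = 0`, is closed under `D` (use `Algebra.adjoin` and its induction);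
`lwF k` belongs to it for `k ≤ l - (j+1)` (only `e_i` with `i ≥ j+2` occur).
Key step, for `f = lwF (l-j-1)`: `A_j A_{j+1} f = (αD+1)² f + (e_j+e_{j+1})(-1) (αD+1) f + α e_{j+1}(-2) f +
e_j(-1) e_{j+1}(-1) f`, `α = p-1`, `e(-2) = 2 osc e 1` (here `D (osc e 0 * f) = 2 osc e 1 * f + osc e 0 * D f`).
`(αD+1)² f` and the second term are in `Cm` (`⟨e_j+e_{j+1},ν⟩ = 0`), and `vop ν (-1) 1 = 0`, so `S` kills them;
`S` of the rest is `f * S(α 2 osc e_{j+1} 1 + osc e_j 0 * osc e_{j+1} 0)`, computed with `fw11_vop_osc`,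
`vop_one`: `⟨e_j,ν⟩ = -1`, `⟨e_{j+1},ν⟩ = 1`: it is `-osc (bb j) 0 + (1+α) (1/p) osc (bb j) 0 = 0`.
For `i < j`: `S (A_i g) = α (D + osc ν 0 *) (S g) + S g + osc e_i 0 * S g`: translation covariance of the
vertex operator at `z^{-1}` (`Lop_vop` at `k = -1`, `m = -1`, `s = 0`, with `Lop_neg_one`), `⟨e_i,ν⟩ = 0`.  So
`S g = 0` implies `S (A_i g) = 0`; hence `S (lwF k) = 0` for `l - j + 1 ≤ k ≤ l + 1`. -/

namespace WPQ

open MvPolynomial

noncomputable section

/-- The vectors `e_i` in the basis `b_a`. -/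
def lwE (l : ℕ) (i : ℕ) : Fin l → ℂ := fun a =>
  ((l : ℂ) - (a : ℕ)) / (l + 1) - if (a : ℕ) < i then 1 else 0

/-- The translation operator on the Fock space of charge `0`. -/
def lwD (ι : Type) : Derivation ℂ (Fock ι) (Fock ι) :=
  mkDerivation ℂ fun x : ι × ℕ => ((x.2 : ℂ) + 2) • (X (x.1, x.2 + 1) : Fock ι)

/-- The factors of the Miura product. -/
def lwA (l p : ℕ) (i : ℕ) (f : Fock (Fin l)) : Fock (Fin l) :=
  ((p : ℂ) - 1) • lwD (Fin l) f + f + osc (lwE l i) 0 * f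

/-- `lwF l p k = A_{l-k+1} ⋯ A_l 1`. -/
def lwF (l p : ℕ) : ℕ → Fock (Fin l)
  | 0 => 1
  | k + 1 => lwA l p (l - k) (lwF l p k)

theorem lw3_sum {R : Type} [CommRing R] (l : ℕ) (G : ℕ → R) (h0 : G 0 = 0) (hl : G (l + 1) = 0)
    (j : Fin l) :
    ∑ i : Fin l, ((cartanA l j i : ℤ) : R) * G (i + 1) = 2 * G (j + 1) - G j - G (j + 2) := by
  have hpt : ∀ i : Fin l, ((cartanA l j i : ℤ) : R) * G (i + 1) =
      ((if (i : ℕ) = j then 2 * G (i + 1) else 0) - (if (i : ℕ) + 1 = j then G (i + 1) else 0)) -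
        (if (i : ℕ) = j + 1 then G (i + 1) else 0) := by
    intro i
    unfold cartanA
    by_cases h1 : j = i
    · subst h1
      rw [if_pos rfl, if_pos rfl, if_neg (by omega), if_neg (by omega)]
      push_cast
      ring
    · have h2 : (i : ℕ) ≠ j := fun h => h1 (Fin.ext h.symm)
      rw [if_neg h1, if_neg h2]
      by_cases h3 : (i : ℕ) + 1 = j
      · rw [if_pos (Or.inr h3), if_pos h3, if_neg (by omega)]
        push_cast
        ring
      · rw [if_neg h3]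
        by_cases h4 : (i : ℕ) = j + 1
        · rw [if_pos (Or.inl h4.symm), if_pos h4]
          push_cast
          ring
        · rw [if_neg (by omega), if_neg h4]
          push_cast
          ring
  rw [Finset.sum_congr rfl fun i _ => hpt i, Finset.sum_sub_distrib, Finset.sum_sub_distrib]
  have s1 : ∑ i : Fin l, (if (i : ℕ) = j then 2 * G (i + 1) else 0) = 2 * G (j + 1) := by
    rw [Finset.sum_eq_single j]
    · rw [if_pos rfl]
    · intro b _ hb
      rw [if_neg fun h => hb (Fin.ext h)]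
    · intro h
      exact absurd (Finset.mem_univ j) h
  have s2 : ∑ i : Fin l, (if (i : ℕ) + 1 = j then G (i + 1) else 0) = G j := by
    rcases Nat.eq_zero_or_pos (j : ℕ) with hj | hj
    · rw [hj, h0]
      exact Finset.sum_eq_zero fun i _ => if_neg (by omega)
    · rw [Finset.sum_eq_single (⟨j - 1, by omega⟩ : Fin l)]
      · have e : (j : ℕ) - 1 + 1 = j := by omega
        show (if (j : ℕ) - 1 + 1 = j then G ((j : ℕ) - 1 + 1) else 0) = G j
        rw [if_pos e, e]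
      · intro b _ hb
        rw [if_neg fun h => hb (Fin.ext (by
          show (b : ℕ) = (j : ℕ) - 1
          omega))]
      · intro h
        exact absurd (Finset.mem_univ _) h
  have s3 : ∑ i : Fin l, (if (i : ℕ) = j + 1 then G (i + 1) else 0) = G (j + 2) := by
    by_cases hj : (j : ℕ) + 1 < l
    · rw [Finset.sum_eq_single (⟨j + 1, hj⟩ : Fin l)]
      · show (if (j : ℕ) + 1 = j + 1 then G ((j : ℕ) + 1 + 1) else 0) = G (j + 2)
        rw [if_pos rfl]
      · intro b _ hb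
        rw [if_neg fun h => hb (Fin.ext h)]
      · intro h
        exact absurd (Finset.mem_univ _) h
    · have e : (j : ℕ) + 2 = l + 1 := by omega
      rw [e, hl]
      exact Finset.sum_eq_zero fun i _ => if_neg (by omega)
  rw [s1, s2, s3]



theorem lw3_form_bb (l p : ℕ) (j : Fin l) (h : Fin l → ℂ) :
    form (cartanA l) p (bb j) h = p * ∑ b, ((cartanA l j b : ℤ) : ℂ) * h b := by
  unfold form bb
  congr 1
  rw [Finset.sum_eq_single j]
  · refine Finset.sum_congr rfl fun b _ => ?_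
    rw [Pi.single_eq_same, one_mul]
  · intro b _ hb
    refine Finset.sum_eq_zero fun c _ => ?_
    rw [Pi.single_eq_of_ne hb, zero_mul, zero_mul]
  · intro h
    exact absurd (Finset.mem_univ j) h

theorem lwE_form (l p : ℕ) (i : ℕ) (hi : i ≤ l) (j : Fin l) :
    form (cartanA l) p (bb j) (lwE l i) =
      p * ((if (i : ℕ) = j then 1 else 0) - if (i : ℕ) = j + 1 then 1 else 0) := by
  have hl : (l : ℂ) + 1 ≠ 0 := by exact_mod_cast Nat.succ_ne_zero l
  set G : ℕ → ℂ := fun k => ((l : ℂ) + 1 - k) / (l + 1) - if k ≤ i then 1 else 0 with hG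
  have h0 : G 0 = 0 := by
    simp only [hG]
    rw [if_pos (Nat.zero_le i)]
    field_simp
    push_cast
    ring
  have hl0 : G (l + 1) = 0 := by
    simp only [hG]
    rw [if_neg (by omega)]
    push_cast
    field_simp
    ring
  have hGi : ∀ b : Fin l, lwE l i b = G (b + 1) := by
    intro b
    simp only [hG]
    unfold lwE
    by_cases hb : (b : ℕ) < i
    · rw [if_pos hb, if_pos (show (b : ℕ) + 1 ≤ i from hb)]
      push_cast
      ring
    · rw [if_neg hb, if_neg (show ¬ (b : ℕ) + 1 ≤ i from hb)]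
      push_cast
      ring
  rw [lw3_form_bb]
  congr 1
  rw [Finset.sum_congr rfl fun b _ => by rw [hGi b], lw3_sum l G h0 hl0 j]
  have hlin : (2 : ℂ) * (((l : ℂ) + 1 - ((j : ℕ) + 1 : ℕ)) / (l + 1)) -
      ((l : ℂ) + 1 - ((j : ℕ) : ℂ)) / (l + 1) - ((l : ℂ) + 1 - ((j : ℕ) + 2 : ℕ)) / (l + 1) = 0 := by
    push_cast
    field_simp
    ring
  have hind : ((if (j : ℕ) ≤ i then (1 : ℂ) else 0) - 2 * (if (j : ℕ) + 1 ≤ i then 1 else 0)) +
      (if (j : ℕ) + 2 ≤ i then 1 else 0) =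
      (if (i : ℕ) = j then 1 else 0) - if (i : ℕ) = j + 1 then 1 else 0 := by
    rcases lt_trichotomy i (j : ℕ) with h | h | h
    · rw [if_neg (by omega), if_neg (by omega), if_neg (by omega), if_neg (by omega),
        if_neg (by omega)]
      ring
    · rw [if_pos (by omega), if_neg (by omega), if_neg (by omega), if_pos (by omega),
        if_neg (by omega)]
      ring
    · rw [if_pos (by omega), if_pos (by omega), if_neg (by omega : ¬ i = (j : ℕ))]
      by_cases h2 : i = j + 1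
      · rw [if_neg (by omega), if_pos h2]
        ring
      · rw [if_pos (by omega), if_neg h2]
        ring
  rw [← hind]
  simp only [hG]
  linear_combination hlin

theorem lw3_D {ι : Type} [Fintype ι] [DecidableEq ι] (A : Matrix ι ι ℤ) (hA : IsADE A) (p : ℕ)
    (hp : 1 ≤ p) (ν : ι → ℂ) (m : ℤ) (f : Fock ι) :
    vop A p ν m (lwD ι f) = lwD ι (vop A p ν m f) + osc ν 0 * vop A p ν m f -
      ((m : ℂ) + 1) • vop A p ν (m + 1) f := by
  have h := LinearMap.congr_fun (Lop_vop A hA p hp 0 ν (-1) m) f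
  rw [LinearMap.sub_apply, LinearMap.comp_apply, LinearMap.comp_apply, LinearMap.smul_apply,
    Lop_neg_one, Lop_neg_one, zero_add, LinearMap.add_apply, LinearMap.add_apply] at h
  have h1 : osc (0 : ι → ℂ) 0 = 0 := by
    unfold osc
    exact Finset.sum_eq_zero fun i _ => by rw [Pi.zero_apply, map_zero, zero_mul]
  have h2 : form A p ν 0 = 0 := by
    unfold form
    simp
  have h3 : ((m : ℂ) - ((-1 : ℤ) : ℂ) + form A p ν 0 +
      (((-1 : ℤ) : ℂ) + 1) * ((1 / 2 : ℂ) * form A p ν ν - form A p (bg A p) ν)) = (m : ℂ) + 1 := by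
    rw [h2]
    push_cast
    ring
  rw [h3, h1, show m - -1 = m + 1 by ring] at h
  have h4 : (LinearMap.mulLeft ℂ (0 : Fock ι)) f = 0 := by
    rw [LinearMap.mulLeft_apply, zero_mul]
  rw [h4, add_zero] at h
  have h5 : lwD ι (vop A p ν m f) + osc ν 0 * vop A p ν m f - vop A p ν m (lwD ι f) =
      ((m : ℂ) + 1) • vop A p ν (m + 1) f := h
  rw [← h5]
  abel

/-- `f` commutes with the vertex operator of charge `ν`. -/
def lw3_Q {ι : Type} [Fintype ι] [DecidableEq ι] (A : Matrix ι ι ℤ) (p : ℕ) (ν : ι → ℂ)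
    (f : Fock ι) : Prop := ∀ m : ℤ, vop A p ν m f = expCoeffZ ν m * f

theorem lw3_Q_one {ι : Type} [Fintype ι] [DecidableEq ι] (A : Matrix ι ι ℤ) (p : ℕ)
    (ν : ι → ℂ) : lw3_Q A p ν 1 := fun m => by rw [vop_one, mul_one]

theorem lw3_DE {ι : Type} [Fintype ι] [DecidableEq ι] (A : Matrix ι ι ℤ) (hA : IsADE A) (p : ℕ)
    (hp : 1 ≤ p) (ν : ι → ℂ) (m : ℤ) :
    lwD ι (expCoeffZ ν m) + osc ν 0 * expCoeffZ ν m = ((m : ℂ) + 1) • expCoeffZ ν (m + 1) := by
  have h := lw3_D A hA p hp ν m 1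
  rw [(lwD ι).map_one_eq_zero, map_zero, vop_one, vop_one] at h
  exact (sub_eq_zero.1 h.symm)

theorem lw3_Q_D {ι : Type} [Fintype ι] [DecidableEq ι] (A : Matrix ι ι ℤ) (hA : IsADE A) (p : ℕ)
    (hp : 1 ≤ p) (ν : ι → ℂ) (f : Fock ι) (h : lw3_Q A p ν f) : lw3_Q A p ν (lwD ι f) := by
  intro m
  rw [lw3_D A hA p hp, h m, h (m + 1), Derivation.leibniz]
  have h1 := lw3_DE A hA p hp ν m
  rw [← smul_mul_assoc, ← h1]
  simp only [smul_eq_mul]
  ring

theorem lw3_Q_osc {ι : Type} [Fintype ι] [DecidableEq ι] (A : Matrix ι ι ℤ) (p : ℕ)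
    (ν h : ι → ℂ) (hh : form A p h ν = 0) (f : Fock ι) (hf : lw3_Q A p ν f) :
    lw3_Q A p ν (osc h 0 * f) := by
  intro m
  rw [fw11_vop_osc, hh, neg_zero, zero_div, map_zero, zero_mul, add_zero, hf m]
  ring

theorem lw3_Q_add {ι : Type} [Fintype ι] [DecidableEq ι] (A : Matrix ι ι ℤ) (p : ℕ)
    (ν : ι → ℂ) (f g : Fock ι) (hf : lw3_Q A p ν f) (hg : lw3_Q A p ν g) :
    lw3_Q A p ν (f + g) := fun m => by rw [map_add, hf m, hg m, mul_add]

theorem lw3_Q_smul {ι : Type} [Fintype ι] [DecidableEq ι] (A : Matrix ι ι ℤ) (p : ℕ)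
    (ν : ι → ℂ) (c : ℂ) (f : Fock ι) (hf : lw3_Q A p ν f) : lw3_Q A p ν (c • f) :=
  fun m => by rw [map_smul, hf m, mul_smul_comm]

theorem lw3_form (l p : ℕ) (hp : 1 ≤ p) (i : ℕ) (hi : i ≤ l) (j : Fin l) :
    form (cartanA l) p (lwE l i) (Pi.single j (-(p : ℂ)⁻¹)) =
      (if (i : ℕ) = j + 1 then 1 else 0) - (if (i : ℕ) = j then 1 else 0) := by
  have hp0 : (p : ℂ) ≠ 0 := by exact_mod_cast (by omega : p ≠ 0)
  rw [form_symm (cartanA l) (cartanA_ade l).symm]
  have h1 : (Pi.single j (-(p : ℂ)⁻¹) : Fin l → ℂ) = (-(p : ℂ)⁻¹) • bb j := by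
    unfold bb
    funext k
    rw [Pi.smul_apply, Pi.single_apply, Pi.single_apply]
    split_ifs <;> simp
  rw [h1, vp1_form_smul_left, lwE_form l p i hi j]
  field_simp
  ring

theorem lw3_Q_A (l p : ℕ) (hp : 1 ≤ p) (i : ℕ) (hi : i ≤ l) (j : Fin l) (h1 : i ≠ j)
    (h2 : i ≠ j + 1) (f : Fock (Fin l))
    (hf : lw3_Q (cartanA l) p (Pi.single j (-(p : ℂ)⁻¹)) f) :
    lw3_Q (cartanA l) p (Pi.single j (-(p : ℂ)⁻¹)) (lwA l p i f) := by
  unfold lwA
  refine lw3_Q_add _ _ _ _ _ (lw3_Q_add _ _ _ _ _ (lw3_Q_smul _ _ _ _ _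
    (lw3_Q_D _ (cartanA_ade l) p hp _ f hf)) hf) (lw3_Q_osc _ _ _ _ ?_ f hf)
  rw [lw3_form l p hp i hi j, if_neg h2, if_neg h1, sub_zero]

theorem lw3_Q_F (l p : ℕ) (hp : 1 ≤ p) (j : Fin l) (k : ℕ) (hk : k + j + 1 ≤ l) :
    lw3_Q (cartanA l) p (Pi.single j (-(p : ℂ)⁻¹)) (lwF l p k) := by
  induction k with
  | zero => exact lw3_Q_one _ _ _
  | succ k ih =>
    exact lw3_Q_A l p hp (l - k) (by omega) j (by omega) (by omega) _ (ih (by omega))

theorem lw3_S_A (l p : ℕ) (hp : 1 ≤ p) (i : ℕ) (hi : i ≤ l) (j : Fin l) (h1 : i ≠ j)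
    (h2 : i ≠ j + 1) (f : Fock (Fin l))
    (hf : vop (cartanA l) p (Pi.single j (-(p : ℂ)⁻¹)) (-1) f = 0) :
    vop (cartanA l) p (Pi.single j (-(p : ℂ)⁻¹)) (-1) (lwA l p i f) = 0 := by
  unfold lwA
  rw [map_add, map_add, map_smul, lw3_D _ (cartanA_ade l) p hp, fw11_vop_osc,
    lw3_form l p hp i hi j, if_neg h2, if_neg h1, hf]
  simp

theorem lw3_osc_lin (l : ℕ) (c : ℂ) (h g : Fin l → ℂ) (k : ℕ) :
    osc (h + c • g) k = osc h k + C c * osc g k := by
  unfold osc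
  rw [Finset.mul_sum, ← Finset.sum_add_distrib]
  refine Finset.sum_congr rfl fun i _ => ?_
  rw [Pi.add_apply, Pi.smul_apply, smul_eq_mul, map_add, map_mul]
  ring

/-- The key step. -/
theorem lw3_key (l p : ℕ) (hp : 1 ≤ p) (j : Fin l) (f : Fock (Fin l))
    (hf : lw3_Q (cartanA l) p (Pi.single j (-(p : ℂ)⁻¹)) f) :
    vop (cartanA l) p (Pi.single j (-(p : ℂ)⁻¹)) (-1) (lwA l p j (lwA l p (j + 1) f)) = 0 := by
  have hp0 : (p : ℂ) ≠ 0 := by exact_mod_cast (by omega : p ≠ 0)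
  have hj := j.2
  have f1 := lw3_form l p hp j (by omega) j
  have f2 := lw3_form l p hp (j + 1) (by omega) j
  rw [if_neg (by omega), if_pos rfl, zero_sub] at f1
  rw [if_pos rfl, if_neg (by omega), sub_zero] at f2
  set ν : Fin l → ℂ := Pi.single j (-(p : ℂ)⁻¹) with hν
  set e := lwE l j with he
  set e' := lwE l (j + 1) with he'
  set α : ℂ := (p : ℂ) - 1 with hα
  have v0 : vop (cartanA l) p ν (-1) f = 0 := by
    rw [hf, expCoeffZ_neg _ _ (by norm_num), zero_mul]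
  have v1 : vop (cartanA l) p ν 0 f = f := by
    rw [hf, show (0 : ℤ) = ((0 : ℕ) : ℤ) from rfl, expCoeffZ_nat, expCoeff, one_mul]
  have v2 : vop (cartanA l) p ν 1 f = osc ν 0 * f := by
    have h1 := lw3_DE (cartanA l) (cartanA_ade l) p hp ν 0
    rw [show (0 : ℤ) = ((0 : ℕ) : ℤ) from rfl, expCoeffZ_nat, expCoeff,
      (lwD (Fin l)).map_one_eq_zero, zero_add, mul_one] at h1
    rw [hf]
    have h2 : expCoeffZ ν 1 = osc ν 0 := by
      rw [h1]
      push_cast
      rw [zero_add, one_smul]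
    rw [h2]
  set a := lwA l p (j + 1) f with ha
  have sa : vop (cartanA l) p ν (-1) a = -f := by
    rw [ha]
    unfold lwA
    rw [map_add, map_add, map_smul, lw3_D _ (cartanA_ade l) p hp, fw11_vop_osc, f2, v0]
    have e1 : (-1 : ℤ) + ((0 : ℕ) + 1) = 0 := by norm_num
    have e2 : (-1 : ℤ) + 1 = 0 := by norm_num
    rw [e1, e2, v1]
    simp
  have va : vop (cartanA l) p ν 0 a = α • lwD (Fin l) f + f + osc e' 0 * f - osc ν 0 * f := by
    rw [ha]
    unfold lwA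
    rw [map_add, map_add, map_smul, lw3_D _ (cartanA_ade l) p hp, fw11_vop_osc, f2, v1]
    have e1 : (0 : ℤ) + ((0 : ℕ) + 1) = 1 := by norm_num
    have e2 : (0 : ℤ) + 1 = 1 := by norm_num
    rw [e1, e2, v2]
    simp
    ring
  have s1 : vop (cartanA l) p ν (-1) (lwA l p j a) =
      α • (lwD (Fin l) (-f) + osc ν 0 * (-f)) + (-f) + osc e 0 * (-f) +
        (α • lwD (Fin l) f + f + osc e' 0 * f - osc ν 0 * f) := by
    unfold lwA
    rw [map_add, map_add, map_smul, lw3_D _ (cartanA_ade l) p hp, fw11_vop_osc, f1, sa]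
    have e1 : (-1 : ℤ) + ((0 : ℕ) + 1) = 0 := by norm_num
    have e2 : (-1 : ℤ) + 1 = 0 := by norm_num
    rw [e1, e2, va]
    simp
    ring
  rw [s1]
  have hee : osc e 0 = osc e' 0 + C (-(p : ℂ)) * osc ν 0 := by
    rw [← lw3_osc_lin]
    congr 1
    funext b
    rw [he, he', hν, Pi.add_apply, Pi.smul_apply, smul_eq_mul, Pi.single_apply]
    unfold lwE
    by_cases hb : b = j
    · subst hb
      rw [if_pos rfl, if_neg (by omega), if_pos (by omega)]
      field_simp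
      ring
    · have hb2 : (b : ℕ) ≠ j := fun h => hb (Fin.ext h)
      rw [if_neg hb]
      by_cases h3 : (b : ℕ) < j
      · rw [if_pos h3, if_pos (by omega)]
        ring
      · rw [if_neg h3, if_neg (by omega)]
        ring
  rw [hee, map_neg]
  have hC : C (-(p : ℂ)) = -(C α) - (1 : Fock (Fin l)) := by
    rw [hα, map_neg, map_sub, map_one]
    ring
  rw [hC]
  simp only [smul_eq_C_mul]
  ring

theorem lw3_S_F (l p : ℕ) (hp : 1 ≤ p) (j : Fin l) (d : ℕ) (hd : d ≤ j) :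
    vop (cartanA l) p (Pi.single j (-(p : ℂ)⁻¹)) (-1) (lwF l p (l - j + 1 + d)) = 0 := by
  have hj := j.2
  induction d with
  | zero =>
    have e1 : l - (j : ℕ) + 1 + 0 = (l - (j + 1)) + 1 + 1 := by omega
    rw [e1]
    have h1 := lw3_key l p hp j (lwF l p (l - (j + 1))) (lw3_Q_F l p hp j _ (by omega))
    have e2 : lwF l p (l - ((j : ℕ) + 1) + 1 + 1) =
        lwA l p (l - (l - ((j : ℕ) + 1) + 1)) (lwA l p (l - (l - ((j : ℕ) + 1)))
          (lwF l p (l - ((j : ℕ) + 1)))) := rfl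
    rw [e2, show l - (l - ((j : ℕ) + 1) + 1) = j by omega,
      show l - (l - ((j : ℕ) + 1)) = j + 1 by omega]
    exact h1
  | succ d ih =>
    have e2 : lwF l p (l - (j : ℕ) + 1 + (d + 1)) =
        lwA l p (l - (l - (j : ℕ) + 1 + d)) (lwF l p (l - (j : ℕ) + 1 + d)) := rfl
    rw [e2]
    exact lw3_S_A l p hp _ (by omega) j (by omega) (by omega) _ (ih (by omega))

theorem lwF_mem (l p : ℕ) (hl : 2 ≤ l) (hp : 2 ≤ p) :
    (Finsupp.single 0 (lwF l p (l + 1)) : VL (Fin l)) ∈ W (cartanA l) p := by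
  have _ := hl
  have hp1 : 1 ≤ p := by omega
  rw [vp1_single_iff]
  intro j
  have hj := j.2
  have e1 : pr (cartanA l) j 0 - 1 = -1 := by
    unfold pr
    simp
  rw [e1]
  have h1 := lw3_S_F l p hp1 j j le_rfl
  rwa [show l - (j : ℕ) + 1 + j = l + 1 by omega] at h1

end

end WPQ
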