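import Pool.Agent.WPQ.VP1

/-! [WPQ-VP2] Gradings.

Plan.  `W_homog`: `vop ν m` maps the component of degree `d` to the one of degree `d+m`, so the
homogeneous components of an element of the kernel are in the kernel.
`Vn_finite`: `p (γ,γ)/2 - (p-1) ht γ ≤ n` has finitely many solutions `γ` (positive definite form over ℤ:
e.g. the form is positive definite over ℝ/ℚ; bound each coordinate: for instance by the inverse matrix,
`γ_i = ∑ (A⁻¹)_ij (α_j,γ)` and Cauchy–Schwarz, or by compactness of the sphere) and homogeneous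
polynomials of fixed weighted degree in the variables `X (i,k)` form a finite dimensional space.
`W_span`: decompose `v = ∑_γ ∑_d single γ (component)`.
Degrees of the operators on `single η f`: `expS_single`, `vop_homog`/`vop_eq_zero`, `Lop_homog`,
`Lop_eq_zero`; `wtExp (γ+η) = wtExp γ + wtExp η + formZ γ η` (`two_dvd_formZ`). -/

namespace WPQ

open MvPolynomial AF

noncomputable section

variable {ι : Type} [Fintype ι] [DecidableEq ι] {A : Matrix ι ι ℤ} {p : ℕ}

/-- The weight `n` part of `W(p)_Q`. -/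
def Wn (A : Matrix ι ι ℤ) (p : ℕ) (n : ℤ) : Submodule ℂ (VL ι) := W A p ⊓ Vn A p n

/-! ### helper lemmas -/

omit [DecidableEq ι] in
theorem vp2_formZ_add (hA : ∀ i j, A i j = A j i) (γ η : ι → ℤ) :
    formZ A p (γ + η) (γ + η) = formZ A p γ γ + formZ A p η η + 2 * formZ A p γ η := by
  have e : ∑ i, ∑ j, (γ i + η i) * A i j * (γ j + η j) =
      ∑ i, ∑ j, γ i * A i j * γ j + ∑ i, ∑ j, η i * A i j * η j +
        (∑ i, ∑ j, γ i * A i j * η j + ∑ i, ∑ j, η i * A i j * γ j) := by
    simp only [← Finset.sum_add_distrib]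
    refine Finset.sum_congr rfl fun i _ => Finset.sum_congr rfl fun j _ => ?_
    ring
  have sym : ∑ i, ∑ j, η i * A i j * γ j = ∑ i, ∑ j, γ i * A i j * η j := by
    rw [Finset.sum_comm]
    refine Finset.sum_congr rfl fun i _ => Finset.sum_congr rfl fun j _ => ?_
    rw [hA]
    ring
  unfold formZ
  simp only [Pi.add_apply]
  rw [e, sym]
  ring

omit [DecidableEq ι] in
/-- the quadratic form is the pairing with the coordinates `pr` -/
theorem vp2_q_eq (γ : ι → ℤ) : ∑ i, ∑ j, γ i * A i j * γ j = ∑ i, γ i * pr A i γ := by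
  unfold pr
  refine Finset.sum_congr rfl fun i _ => ?_
  rw [Finset.mul_sum]
  refine Finset.sum_congr rfl fun j _ => ?_
  ring

omit [DecidableEq ι] in
theorem vp2_q_nonneg (hA : IsADE A) (γ : ι → ℤ) : 0 ≤ ∑ i, ∑ j, γ i * A i j * γ j := by
  by_cases h : γ = 0
  · subst h
    simp
  · exact (hA.pos γ h).le

theorem vp2_pr_sq (hA : IsADE A) (γ : ι → ℤ) (j : ι) :
    pr A j γ ^ 2 ≤ 2 * ∑ i, ∑ k, γ i * A i k * γ k := by
  set u := pr A j γ with hu
  have h1 := vp2_q_nonneg hA (fun i => 2 * γ i - if i = j then u else 0)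
  have h2 : ∑ i, ∑ k, (2 * γ i - if i = j then u else 0) * A i k *
      (2 * γ k - if k = j then u else 0) =
      4 * (∑ i, ∑ k, γ i * A i k * γ k) - 2 * (∑ i, ∑ k, γ i * A i k * (if k = j then u else 0)) -
        2 * (∑ i, ∑ k, (if i = j then u else 0) * A i k * γ k) +
        ∑ i, ∑ k, (if i = j then u else 0) * A i k * (if k = j then u else 0) := by
    simp only [Finset.mul_sum, ← Finset.sum_add_distrib, ← Finset.sum_sub_distrib]
    refine Finset.sum_congr rfl fun i _ => Finset.sum_congr rfl fun k _ => ?_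
    ring
  have h3 : ∑ i, ∑ k, γ i * A i k * (if k = j then u else 0) = u * u := by
    have e1 : ∀ i, ∑ k, γ i * A i k * (if k = j then u else 0) = A j i * γ i * u := by
      intro i
      rw [Finset.sum_eq_single j]
      · rw [if_pos rfl, hA.symm i j]
        ring
      · intro k _ hk
        rw [if_neg hk, mul_zero]
      · intro h
        exact absurd (Finset.mem_univ j) h
    rw [Finset.sum_congr rfl fun i _ => e1 i, ← Finset.sum_mul]
    rfl
  have h4 : ∑ i, ∑ k, (if i = j then u else 0) * A i k * γ k = u * u := by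
    rw [Finset.sum_eq_single j]
    · have e1 : ∀ k, (if j = j then u else 0) * A j k * γ k = u * (A j k * γ k) := fun k => by
        rw [if_pos rfl]
        ring
      rw [Finset.sum_congr rfl fun k _ => e1 k, ← Finset.mul_sum]
      rfl
    · intro k _ hk
      simp [hk]
    · intro h
      exact absurd (Finset.mem_univ j) h
  have h5 : ∑ i, ∑ k, (if i = j then u else 0) * A i k * (if k = j then u else 0) =
      2 * (u * u) := by
    rw [Finset.sum_eq_single j]
    · rw [Finset.sum_eq_single j]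
      · rw [if_pos rfl, hA.diag]
        ring
      · intro k _ hk
        simp [hk]
      · intro h
        exact absurd (Finset.mem_univ j) h
    · intro k _ hk
      simp [hk]
    · intro h
      exact absurd (Finset.mem_univ j) h
  rw [h2, h3, h4, h5] at h1
  nlinarith

theorem vp2_det (hA : IsADE A) : A.det ≠ 0 := by
  intro h
  obtain ⟨v, hv, h2⟩ := Matrix.exists_mulVec_eq_zero_iff.2 h
  have h3 := hA.pos v hv
  rw [vp2_q_eq] at h3
  have h4 : ∀ i, pr A i v = 0 := fun i => congrFun h2 i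
  simp [h4] at h3

theorem vp2_coord (hA : IsADE A) : ∃ K : ℤ, 0 ≤ K ∧ ∀ (γ : ι → ℤ) (i : ι),
    |γ i| ≤ K * ∑ j, |pr A j γ| := by
  refine ⟨∑ i, ∑ j, |A.adjugate i j|, Finset.sum_nonneg fun i _ => Finset.sum_nonneg fun j _ =>
    abs_nonneg _, fun γ i => ?_⟩
  have h1 : A.adjugate.mulVec (A.mulVec γ) = A.det • γ := by
    rw [Matrix.mulVec_mulVec, Matrix.adjugate_mul, Matrix.smul_mulVec, Matrix.one_mulVec]
  have h2 : A.det * γ i = ∑ j, A.adjugate i j * pr A j γ := by
    have := congrFun h1 i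
    simp only [Pi.smul_apply, smul_eq_mul] at this
    rw [← this]
    rfl
  have h3 : (1 : ℤ) ≤ |A.det| := Int.one_le_abs (vp2_det hA)
  have h4 : |A.det * γ i| ≤ ∑ j, |A.adjugate i j| * |pr A j γ| := by
    rw [h2]
    refine (Finset.abs_sum_le_sum_abs _ _).trans (Finset.sum_le_sum fun j _ => ?_)
    rw [abs_mul]
  have hV : ∀ j, |pr A j γ| ≤ ∑ j, |pr A j γ| := fun j =>
    Finset.single_le_sum (f := fun j => |pr A j γ|) (fun k _ => abs_nonneg _) (Finset.mem_univ j)
  have h5 : ∑ j, |A.adjugate i j| * |pr A j γ| ≤ (∑ j, |A.adjugate i j|) * ∑ j, |pr A j γ| := by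
    rw [Finset.sum_mul]
    exact Finset.sum_le_sum fun j _ => mul_le_mul_of_nonneg_left (hV j) (abs_nonneg _)
  have h6 : ∑ j, |A.adjugate i j| ≤ ∑ i, ∑ j, |A.adjugate i j| :=
    Finset.single_le_sum (f := fun i => ∑ j, |A.adjugate i j|)
      (fun k _ => Finset.sum_nonneg fun j _ => abs_nonneg _) (Finset.mem_univ i)
  have h7 : 0 ≤ ∑ j, |pr A j γ| := Finset.sum_nonneg fun j _ => abs_nonneg _
  calc |γ i| ≤ |A.det| * |γ i| := le_mul_of_one_le_left (abs_nonneg _) h3
    _ = |A.det * γ i| := (abs_mul _ _).symm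
    _ ≤ _ := h4
    _ ≤ _ := h5
    _ ≤ _ := mul_le_mul_of_nonneg_right h6 h7

theorem vp2_int {l K V q n p s : ℤ} (hl : 0 ≤ l) (hK : 0 ≤ K) (hV : 0 ≤ V) (hp : 1 ≤ p)
    (h1 : V ^ 2 ≤ l * (l * (2 * q))) (h2 : p * q - 2 * (p - 1) * s ≤ 2 * n)
    (h3 : s ≤ l * (K * V)) : V ≤ 4 * l ^ 3 * K + 4 * l ^ 2 * |n| := by
  have hn : n ≤ |n| := le_abs_self n
  have hn0 : 0 ≤ |n| := abs_nonneg n
  have hlKV : 0 ≤ l * (K * V) := by positivity
  have h4 : p * q ≤ p * (2 * |n| + 2 * (l * (K * V))) := by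
    have e1 : 2 * (p - 1) * s ≤ 2 * (p - 1) * (l * (K * V)) :=
      mul_le_mul_of_nonneg_left h3 (by linarith)
    nlinarith
  have h5 : q ≤ 2 * |n| + 2 * (l * (K * V)) := le_of_mul_le_mul_left h4 (by linarith)
  have h6 : V ^ 2 ≤ l * (l * (2 * (2 * |n| + 2 * (l * (K * V))))) :=
    h1.trans (mul_le_mul_of_nonneg_left (mul_le_mul_of_nonneg_left (by linarith) hl) hl)
  by_contra hcon
  rw [not_le] at hcon
  have h7 : 4 * l ^ 3 * K + 4 * l ^ 2 * |n| + 1 ≤ V := hcon
  have h8 : 0 ≤ 4 * l ^ 2 * |n| := by positivity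
  have h9 : 0 ≤ 4 * l ^ 3 * K := by positivity
  have h10 : 1 ≤ V := by linarith
  have h11 : (4 * l ^ 3 * K + 4 * l ^ 2 * |n| + 1) * V ≤ V * V :=
    mul_le_mul_of_nonneg_right h7 hV
  have h12 : 4 * l ^ 2 * |n| * 1 ≤ 4 * l ^ 2 * |n| * V := mul_le_mul_of_nonneg_left h10 h8
  nlinarith

theorem vp2_comp_vop (ν : ι → ℂ) (m : ℤ) (d e : ℕ) (he : (e : ℤ) = d + m) (f : Fock ι) :
    weightedHomogeneousComponent (wF (ι := ι)) e (vop A p ν m f) =
      vop A p ν m (weightedHomogeneousComponent (wF (ι := ι)) d f) := by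
  induction f using MvPolynomial.induction_on' with
  | monomial u a =>
    have hu : FH (monomial u a : Fock ι) (Finsupp.weight (wF (ι := ι)) u) :=
      isWeightedHomogeneous_monomial _ _ _ rfl
    by_cases hd : Finsupp.weight (wF (ι := ι)) u = d
    · rw [hd] at hu
      rw [weightedHomogeneousComponent_eq_self hu]
      exact weightedHomogeneousComponent_eq_self (vop_homog A p ν m _ d e hu he)
    · rw [hu.weightedHomogeneousComponent_ne d (fun h => hd h.symm), map_zero]
      by_cases hk : ((Finsupp.weight (wF (ι := ι)) u : ℕ) : ℤ) + m < 0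
      · rw [vop_eq_zero A p ν m _ _ hu hk, map_zero]
      · rw [not_lt] at hk
        obtain ⟨k, hk'⟩ := Int.eq_ofNat_of_zero_le hk
        have h2 := vop_homog A p ν m _ _ k hu hk'.symm
        exact h2.weightedHomogeneousComponent_ne e (by omega)
  | add f g hf hg => rw [map_add, map_add, map_add, map_add, hf, hg]

omit [Fintype ι] [DecidableEq ι] in
/-- linear combinations of homogeneous components -/
theorem vp2_single_mem (P : Submodule ℂ (VL ι)) (γ : ι → ℤ) (f : Fock ι)
    (h : ∀ d : ℕ, Finsupp.single γ (weightedHomogeneousComponent (wF (ι := ι)) d f) ∈ P) :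
    Finsupp.single γ f ∈ P := by
  have h1 := sum_weightedHomogeneousComponent (wF (ι := ι)) f
  rw [finsum_eq_sum _ (weightedHomogeneousComponent_finsupp f)] at h1
  rw [← h1]
  have h2 : Finsupp.single γ (∑ i ∈ (weightedHomogeneousComponent_finsupp
      (w := wF (ι := ι)) f).toFinset, weightedHomogeneousComponent (wF (ι := ι)) i f) =
      ∑ i ∈ (weightedHomogeneousComponent_finsupp (w := wF (ι := ι)) f).toFinset,
        Finsupp.single γ (weightedHomogeneousComponent (wF (ι := ι)) i f) :=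
    map_sum (Finsupp.lsingle (R := ℂ) γ) _ _
  rw [h2]
  exact P.sum_mem fun d _ => h d

omit [Fintype ι] [DecidableEq ι] in
theorem vp2_mem_of_comp (P : Submodule ℂ (VL ι)) (v : VL ι)
    (h : ∀ γ : ι → ℤ, Finsupp.single γ (v γ) ∈ P) : v ∈ P := by
  rw [← Finsupp.sum_single v]
  exact P.sum_mem fun γ _ => h γ

/-- monomials of bounded degree -/
theorem vp2_finite_weight (d : ℕ) :
    {u : (ι × ℕ) →₀ ℕ | Finsupp.weight (wF (ι := ι)) u = d}.Finite := by
  classical
  refine Set.Finite.subset (Finset.finite_toSet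
    ((Finset.univ ×ˢ Finset.range d : Finset (ι × ℕ)).finsupp fun _ => Finset.range (d + 1))) ?_
  intro u hu
  have hu' : Finsupp.weight (wF (ι := ι)) u = d := hu
  rw [Finset.mem_coe, Finset.mem_finsupp_iff]
  have hle : ∀ x ∈ u.support, u x * (x.2 + 1) ≤ d := by
    intro x hx
    rw [← hu', Finsupp.weight_apply, Finsupp.sum]
    have := Finset.single_le_sum (f := fun x => u x • wF x) (fun y _ => Nat.zero_le _) hx
    simpa [wF] using this
  constructor
  · intro x hx
    have h1 := hle x hx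
    have h2 : 1 ≤ u x := Nat.one_le_iff_ne_zero.2 (Finsupp.mem_support_iff.1 hx)
    rw [Finset.mem_product, Finset.mem_range]
    refine ⟨Finset.mem_univ _, ?_⟩
    nlinarith
  · intro x _
    rw [Finset.mem_range]
    by_cases hx : x ∈ u.support
    · have h1 := hle x hx
      nlinarith
    · rw [Finsupp.notMem_support_iff.1 hx]
      omega

theorem vp2_fin (d : ℕ) :
    FiniteDimensional ℂ (weightedHomogeneousSubmodule ℂ (wF (ι := ι)) d) := by
  classical
  have hfin := vp2_finite_weight (ι := ι) d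
  have hle : weightedHomogeneousSubmodule ℂ (wF (ι := ι)) d ≤
      Submodule.span ℂ ((fun u : (ι × ℕ) →₀ ℕ => (monomial u (1 : ℂ) : Fock ι)) ''
        {u : (ι × ℕ) →₀ ℕ | Finsupp.weight (wF (ι := ι)) u = d}) := by
    intro f hf
    rw [mem_weightedHomogeneousSubmodule] at hf
    rw [← support_sum_monomial_coeff f]
    refine Submodule.sum_mem _ fun u hu => ?_
    have h1 : (monomial u (coeff u f) : Fock ι) = coeff u f • monomial u (1 : ℂ) := by
      rw [smul_monomial, smul_eq_mul, mul_one]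
    rw [h1]
    refine Submodule.smul_mem _ _ (Submodule.subset_span ⟨u, ?_, rfl⟩)
    exact hf (mem_support_iff.1 hu)
  have : FiniteDimensional ℂ (Submodule.span ℂ ((fun u : (ι × ℕ) →₀ ℕ =>
      (monomial u (1 : ℂ) : Fock ι)) ''
        {u : (ι × ℕ) →₀ ℕ | Finsupp.weight (wF (ι := ι)) u = d})) :=
    FiniteDimensional.span_of_finite ℂ (hfin.image _)
  exact Submodule.finiteDimensional_of_le hle

omit [DecidableEq ι] in
theorem vp2_Vn_comp (n : ℤ) (v : VL ι) (hv : v ∈ Vn A p n) (γ : ι → ℤ) :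
    v γ = 0 ∨ ∃ d : ℕ, FH (v γ) d ∧ (d : ℤ) + wtExp A p γ = n := by
  unfold Vn at hv
  induction hv using Submodule.span_induction with
  | mem x hx =>
    obtain ⟨γ', f, d, hf, hd, rfl⟩ := hx
    by_cases h : γ = γ'
    · subst h
      right
      refine ⟨d, ?_, hd⟩
      rw [Finsupp.single_eq_same]
      exact hf
    · left
      exact Finsupp.single_eq_of_ne h
  | zero => exact Or.inl rfl
  | add x y _ _ hx hy =>
    rw [Finsupp.add_apply]
    rcases hx with hx | ⟨d, hd, hd'⟩
    · rw [hx, zero_add]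
      exact hy
    · rcases hy with hy | ⟨e, he, he'⟩
      · rw [hy, add_zero]
        exact Or.inr ⟨d, hd, hd'⟩
      · have h1 : e = d := by omega
        subst h1
        exact Or.inr ⟨e, hd.add he, hd'⟩
  | smul c x _ hx =>
    rw [Finsupp.smul_apply]
    rcases hx with hx | ⟨d, hd, hd'⟩
    · left
      rw [hx, smul_zero]
    · right
      exact ⟨d, Submodule.smul_mem (weightedHomogeneousSubmodule ℂ (wF (ι := ι)) d) c hd, hd'⟩

theorem vp2_dom_nonneg (hA : IsADE A) (lam : ι → ℤ) (hl : Dom A lam) (i : ι) : 0 ≤ lam i := by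
  by_contra hcon
  rw [not_le] at hcon
  set c : ι → ℤ := fun j => max (-lam j) 0 with hc
  have hc0 : c ≠ 0 := by
    intro h
    have h1 := congrFun h i
    rw [hc] at h1
    simp only [Pi.zero_apply] at h1
    have h2 := le_max_left (-lam i) 0
    omega
  have hpos := hA.pos c hc0
  have h1 : 0 ≤ ∑ j, c j * pr A j lam :=
    Finset.sum_nonneg fun j _ => mul_nonneg (le_max_right _ _) (hl j)
  have h2 : ∑ j, c j * pr A j lam = ∑ j, ∑ k, c j * A j k * lam k := by
    unfold pr
    refine Finset.sum_congr rfl fun j _ => ?_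
    rw [Finset.mul_sum]
    refine Finset.sum_congr rfl fun k _ => ?_
    ring
  have h3 : ∑ j, ∑ k, c j * A j k * lam k ≤ ∑ j, ∑ k, -(c j * A j k * c k) := by
    refine Finset.sum_le_sum fun j _ => Finset.sum_le_sum fun k _ => ?_
    have hk : lam k + c k = max (lam k) 0 := by
      simp only [hc]
      rcases le_total 0 (lam k) with h | h
      · rw [max_eq_right (by omega), max_eq_left h]
        ring
      · rw [max_eq_left (by omega), max_eq_right h]
        ring
    have h4 : c j * A j k * (lam k + c k) ≤ 0 := by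
      rw [hk]
      by_cases hjk : j = k
      · subst hjk
        rcases le_total 0 (lam j) with h | h
        · have e : c j = 0 := by
            simp only [hc]
            exact max_eq_right (by omega)
          rw [e, zero_mul, zero_mul]
        · rw [max_eq_right h, mul_zero]
      · have h5 : A j k ≤ 0 := by
          rcases hA.off j k hjk with h | h <;> omega
        have h6 : c j * A j k ≤ 0 := mul_nonpos_of_nonneg_of_nonpos (le_max_right _ _) h5
        exact mul_nonpos_of_nonpos_of_nonneg h6 (le_max_right _ _)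
    linarith
  have h4 : ∑ j, ∑ k, -(c j * A j k * c k) = -∑ j, ∑ k, c j * A j k * c k := by
    simp only [Finset.sum_neg_distrib]
  rw [h2] at h1
  rw [h4] at h3
  linarith

theorem vp2_wt_rt (hA : IsADE A) (j : ι) : wtExp A p (rt j) = 1 := by
  have h1 : formZ A p (rt j) (rt j) = 2 * p := by
    unfold formZ rt
    rw [Finset.sum_eq_single j]
    · rw [Finset.sum_eq_single j]
      · rw [Pi.single_eq_same, hA.diag]
        ring
      · intro k _ hk
        rw [Pi.single_eq_of_ne hk, mul_zero]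
      · intro h
        exact absurd (Finset.mem_univ j) h
    · intro k _ hk
      rw [Pi.single_eq_of_ne hk]
      simp
    · intro h
      exact absurd (Finset.mem_univ j) h
  have h2 : ∑ i, (rt j : ι → ℤ) i = 1 := by
    unfold rt
    rw [Finset.sum_eq_single j]
    · rw [Pi.single_eq_same]
    · intro k _ hk
      rw [Pi.single_eq_of_ne hk]
    · intro h
      exact absurd (Finset.mem_univ j) h
  unfold wtExp
  rw [h1, h2]
  omega

theorem wtExp_add (hA : IsADE A) (γ η : ι → ℤ) :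
    wtExp A p (γ + η) = wtExp A p γ + wtExp A p η + formZ A p γ η := by
  obtain ⟨a, ha⟩ := two_dvd_formZ (p := p) hA γ
  obtain ⟨b, hb⟩ := two_dvd_formZ (p := p) hA η
  have h := vp2_formZ_add (p := p) hA.symm γ η
  unfold wtExp
  rw [h, ha, hb]
  have h1 : (2 * a + 2 * b + 2 * formZ A p γ η) / 2 = a + b + formZ A p γ η := by omega
  have h2 : 2 * a / 2 = a := by omega
  have h3 : 2 * b / 2 = b := by omega
  rw [h1, h2, h3]
  simp only [Pi.add_apply, Finset.sum_add_distrib]
  ring

theorem W_homog (γ : ι → ℤ) (f : Fock ι) (h : Finsupp.single γ f ∈ W A p) (d : ℕ) :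
    Finsupp.single γ (weightedHomogeneousComponent (wF (ι := ι)) d f) ∈ W A p := by
  rw [mem_W_iff] at h ⊢
  intro j γ'
  have h1 := h j γ'
  by_cases hγ : γ' = γ
  · subst hγ
    rw [Finsupp.single_eq_same] at h1 ⊢
    set m : ℤ := pr A j γ' - 1 with hm
    by_cases hd : (d : ℤ) + m < 0
    · exact vop_eq_zero A p _ m _ d (weightedHomogeneousComponent_isWeightedHomogeneous _ _) hd
    · rw [not_lt] at hd
      obtain ⟨e, he⟩ := Int.eq_ofNat_of_zero_le hd
      rw [← vp2_comp_vop _ m d e he.symm, h1, map_zero]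
  · rw [Finsupp.single_eq_of_ne hγ, map_zero]

theorem wtExp_finite (hA : IsADE A) (hp : 1 ≤ p) (n : ℤ) :
    {γ : ι → ℤ | wtExp A p γ ≤ n}.Finite := by
  obtain ⟨K, hK, hc⟩ := vp2_coord hA
  set l : ℤ := (Fintype.card ι : ℤ) with hl
  have hl0 : 0 ≤ l := by positivity
  set V0 : ℤ := 4 * l ^ 3 * K + 4 * l ^ 2 * |n| with hV0
  refine Set.Finite.subset (Set.finite_Icc (fun _ : ι => -(K * V0)) (fun _ : ι => K * V0)) ?_
  intro γ hγ
  have hγ' : wtExp A p γ ≤ n := hγ
  set q : ℤ := ∑ i, ∑ j, γ i * A i j * γ j with hq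
  set V : ℤ := ∑ j, |pr A j γ| with hV
  have hVn : 0 ≤ V := Finset.sum_nonneg fun j _ => abs_nonneg _
  have h1 : V ^ 2 ≤ l * (l * (2 * q)) := by
    have e1 : V ^ 2 ≤ l * ∑ j, |pr A j γ| ^ 2 := by
      have := sq_sum_le_card_mul_sum_sq (s := (Finset.univ : Finset ι)) (f := fun j => |pr A j γ|)
      rw [Finset.card_univ] at this
      exact this
    have e2 : ∑ j, |pr A j γ| ^ 2 ≤ l * (2 * q) := by
      calc ∑ j, |pr A j γ| ^ 2 ≤ ∑ _j : ι, 2 * q := by
            refine Finset.sum_le_sum fun j _ => ?_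
            rw [sq_abs]
            exact vp2_pr_sq hA γ j
        _ = l * (2 * q) := by
            rw [Finset.sum_const, Finset.card_univ, nsmul_eq_mul]
    exact e1.trans (mul_le_mul_of_nonneg_left e2 hl0)
  have h2 : (p : ℤ) * q - 2 * ((p : ℤ) - 1) * (∑ i, γ i) ≤ 2 * n := by
    obtain ⟨a, ha⟩ := two_dvd_formZ (p := p) hA γ
    have e1 : wtExp A p γ = a - ((p : ℤ) - 1) * ∑ i, γ i := by
      unfold wtExp
      rw [ha]
      congr 1
      omega
    have e2 : (p : ℤ) * q = 2 * a := ha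
    rw [e2]
    rw [e1] at hγ'
    linarith
  have h3 : ∑ i, γ i ≤ l * (K * V) := by
    calc ∑ i, γ i ≤ ∑ _i : ι, K * V :=
          Finset.sum_le_sum fun i _ => (le_abs_self _).trans (hc γ i)
      _ = l * (K * V) := by rw [Finset.sum_const, Finset.card_univ, nsmul_eq_mul]
  have h4 : V ≤ V0 := vp2_int hl0 hK hVn (by exact_mod_cast hp) h1 h2 h3
  have h5 : ∀ i, |γ i| ≤ K * V0 := fun i => (hc γ i).trans (mul_le_mul_of_nonneg_left h4 hK)
  rw [Set.mem_Icc]
  exact ⟨fun i => (abs_le.1 (h5 i)).1, fun i => (abs_le.1 (h5 i)).2⟩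

theorem Vn_finite (hA : IsADE A) (hp : 1 ≤ p) (n : ℤ) : FiniteDimensional ℂ (Vn A p n) := by
  classical
  have hfin := wtExp_finite (A := A) (p := p) hA hp n
  have hle : Vn A p n ≤ ⨆ γ ∈ hfin.toFinset, (weightedHomogeneousSubmodule ℂ (wF (ι := ι))
      (n - wtExp A p γ).toNat).map (Finsupp.lsingle (R := ℂ) γ : Fock ι →ₗ[ℂ] VL ι) := by
    unfold Vn
    rw [Submodule.span_le]
    rintro v ⟨γ, f, d, hf, hd, rfl⟩
    have hγ : γ ∈ hfin.toFinset := by
      rw [Set.Finite.mem_toFinset]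
      show wtExp A p γ ≤ n
      omega
    refine Submodule.mem_iSup_of_mem γ (Submodule.mem_iSup_of_mem hγ ?_)
    refine ⟨f, ?_, rfl⟩
    have e : (n - wtExp A p γ).toNat = d := by omega
    rw [e]
    exact hf
  have : FiniteDimensional ℂ (⨆ γ ∈ hfin.toFinset, (weightedHomogeneousSubmodule ℂ (wF (ι := ι))
      (n - wtExp A p γ).toNat).map (Finsupp.lsingle (R := ℂ) γ : Fock ι →ₗ[ℂ] VL ι) :
      Submodule ℂ (VL ι)) := by
    have h1 : ∀ γ : ι → ℤ, FiniteDimensional ℂ ((weightedHomogeneousSubmodule ℂ (wF (ι := ι))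
        (n - wtExp A p γ).toNat).map (Finsupp.lsingle (R := ℂ) γ : Fock ι →ₗ[ℂ] VL ι)) := by
      intro γ
      have := vp2_fin (ι := ι) (n - wtExp A p γ).toNat
      infer_instance
    rw [← Finset.sup_eq_iSup]
    exact Submodule.finiteDimensional_finset_sup _ (fun γ : ι → ℤ =>
      (weightedHomogeneousSubmodule ℂ (wF (ι := ι)) (n - wtExp A p γ).toNat).map
        (Finsupp.lsingle (R := ℂ) γ : Fock ι →ₗ[ℂ] VL ι))
  exact Submodule.finiteDimensional_of_le hle

theorem Vn_bot (hA : IsADE A) (hp : 1 ≤ p) : ∃ n0 : ℤ, ∀ n < n0, Vn A p n = ⊥ := by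
  have hfin := wtExp_finite (A := A) (p := p) hA hp 0
  obtain ⟨b, hb⟩ := (hfin.image (wtExp A p)).bddBelow
  refine ⟨min b 0, fun n hn => ?_⟩
  unfold Vn
  rw [Submodule.span_eq_bot]
  rintro v ⟨γ, f, d, hf, hd, rfl⟩
  exfalso
  have h1 : wtExp A p γ ≤ 0 := by
    have := min_le_right b (0 : ℤ)
    omega
  have h2 : b ≤ wtExp A p γ := hb ⟨γ, h1, rfl⟩
  have := min_le_left b (0 : ℤ)
  omega

theorem isHomog_of_mem (n : ℤ) (v : VL ι) (hv : v ∈ Vn A p n) : IsHomog A p n v := by
  intro γ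
  rcases vp2_Vn_comp n v hv γ with h | ⟨d, hd, hd'⟩
  · refine ⟨0, Or.inl h, ?_⟩
    rw [h]
    exact isWeightedHomogeneous_zero _ _ _
  · exact ⟨d, Or.inr (by omega), hd⟩

/-- induction principle for `W(p)_Q`: it is spanned by its homogeneous elements -/
theorem W_span (P : Submodule ℂ (VL ι))
    (h : ∀ (γ : ι → ℤ) (f : Fock ι) (d : ℕ), FH f d → Finsupp.single γ f ∈ W A p →
      Finsupp.single γ f ∈ P) : W A p ≤ P := by
  intro v hv
  refine vp2_mem_of_comp P v fun γ => vp2_single_mem P γ (v γ) fun d => ?_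
  exact h γ _ d (weightedHomogeneousComponent_isWeightedHomogeneous _ _)
    (W_homog γ (v γ) (W_comp v hv γ) d)

theorem Wn_span (n : ℤ) (P : Submodule ℂ (VL ι))
    (h : ∀ (γ : ι → ℤ) (f : Fock ι) (d : ℕ), FH f d → (d : ℤ) + wtExp A p γ = n →
      Finsupp.single γ f ∈ W A p → Finsupp.single γ f ∈ P) : Wn A p n ≤ P := by
  rintro v ⟨hv, hv'⟩
  refine vp2_mem_of_comp P v fun γ => ?_
  rcases vp2_Vn_comp n v hv' γ with h1 | ⟨d, hd, hd'⟩
  · rw [h1, Finsupp.single_zero]
    exact P.zero_mem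
  · exact h γ (v γ) d hd hd' (W_comp v hv γ)

theorem single_mem_Vn (γ : ι → ℤ) (f : Fock ι) (d : ℕ) (hf : FH f d) (n : ℤ)
    (hn : (d : ℤ) + wtExp A p γ = n) : Finsupp.single γ f ∈ Vn A p n := by
  exact Submodule.subset_span ⟨γ, f, d, hf, hn, rfl⟩

/-- components of an element of `V(n)` -/
theorem Vn_comp (n : ℤ) (v : VL ι) (hv : v ∈ Vn A p n) (γ : ι → ℤ) :
    v γ = 0 ∨ ∃ d : ℕ, FH (v γ) d ∧ (d : ℤ) + wtExp A p γ = n := by
  exact vp2_Vn_comp n v hv γ

theorem expS_Vn (hA : IsADE A) (ε : Cocycle A p) (γ : ι → ℤ) (k n : ℤ) (v : VL ι)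
    (hv : v ∈ Vn A p n) :
    expS ε (Shift.zero A p) γ k v ∈ Vn A p (n + wtExp A p γ - k - 1) := by
  unfold Vn at hv
  induction hv using Submodule.span_induction with
  | mem x hx =>
    obtain ⟨η, f, d, hf, hd, rfl⟩ := hx
    rw [expS_single]
    have hdot : (Shift.zero A p).dot γ = 0 := by
      unfold Shift.dot Shift.zero
      simp
    rw [hdot]
    set m : ℤ := -k - 1 - 0 - formZ A p γ η with hm
    by_cases hdm : (d : ℤ) + m < 0
    · rw [vop_eq_zero A p _ m f d hf hdm, smul_zero, Finsupp.single_zero]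
      exact Submodule.zero_mem _
    · rw [not_lt] at hdm
      obtain ⟨e, he⟩ := Int.eq_ofNat_of_zero_le hdm
      refine Submodule.subset_span ⟨γ + η, _, e, ?_, ?_, rfl⟩
      · exact Submodule.smul_mem (weightedHomogeneousSubmodule ℂ (wF (ι := ι)) e) _
          (vop_homog A p _ m f d e hf he.symm)
      · rw [wtExp_add hA]
        omega
  | zero =>
    rw [map_zero]
    exact Submodule.zero_mem _
  | add x y _ _ hx hy =>
    rw [map_add]
    exact Submodule.add_mem _ hx hy
  | smul c x _ hx =>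
    rw [map_smul]
    exact Submodule.smul_mem _ c hx

theorem Ej_Vn (hA : IsADE A) (ε : Cocycle A p) (j : ι) (n : ℤ) (v : VL ι)
    (hv : v ∈ Vn A p n) : Ej ε (Shift.zero A p) j v ∈ Vn A p n := by
  have h := expS_Vn hA ε (rt j) 0 n v hv
  rw [vp2_wt_rt hA] at h
  have e : n + 1 - 0 - 1 = n := by ring
  rw [e] at h
  exact h

theorem cS_Vn (hA : IsADE A) (ε : Cocycle A p) (lam : ι → ℤ) (js : List ι) (k n : ℤ)
    (v : VL ι) (hv : v ∈ Vn A p n) :
    cS ε (Shift.zero A p) lam js k v ∈ Vn A p (n + wtExp A p (-lam) - k - 1) := by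
  induction js generalizing v n with
  | nil => exact expS_Vn hA ε (-lam) k n v hv
  | cons j js ih =>
    unfold cS AF.br
    rw [LinearMap.sub_apply, LinearMap.comp_apply, LinearMap.comp_apply]
    exact Submodule.sub_mem _ (Ej_Vn hA ε j _ _ (ih n v hv)) (ih n _ (Ej_Vn hA ε j n v hv))

theorem LS_Vn (k n : ℤ) (v : VL ι) (hv : v ∈ Vn A p n) :
    LS (Shift.zero A p) k v ∈ Vn A p (n - k) := by
  unfold Vn at hv
  induction hv using Submodule.span_induction with
  | mem x hx =>
    obtain ⟨η, f, d, hf, hd, rfl⟩ := hx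
    have h1 : LS (Shift.zero A p) k (Finsupp.single η f) =
        Finsupp.single η (Lop A p ((Shift.zero A p).s + toC η) k f) := by
      unfold LS
      rw [Finsupp.lsum_single]
      rfl
    rw [h1]
    by_cases hdk : (d : ℤ) < k
    · rw [Lop_eq_zero A p _ k f d hf hdk, Finsupp.single_zero]
      exact Submodule.zero_mem _
    · rw [not_lt] at hdk
      obtain ⟨e, he⟩ := Int.eq_ofNat_of_zero_le (show (0 : ℤ) ≤ (d : ℤ) - k by omega)
      refine Submodule.subset_span ⟨η, _, e, ?_, ?_, rfl⟩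
      · exact Lop_homog A p _ k f d e hf he.symm
      · omega
  | zero =>
    rw [map_zero]
    exact Submodule.zero_mem _
  | add x y _ _ hx hy =>
    rw [map_add]
    exact Submodule.add_mem _ hx hy
  | smul c x _ hx =>
    rw [map_smul]
    exact Submodule.smul_mem _ c hx

/-- every word is homogeneous -/
theorem word_homog (hA : IsADE A) (ε : Cocycle A p) (w : VL ι) (hw : IsWord ε w) :
    ∃ (γ : ι → ℤ) (f : Fock ι) (d : ℕ), FH f d ∧ w = Finsupp.single γ f := by
  have step : ∀ (γ : ι → ℤ) (n : ℤ) (η : ι → ℤ) (f : Fock ι) (d : ℕ), FH f d →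
      ∃ (γ' : ι → ℤ) (f' : Fock ι) (d' : ℕ), FH f' d' ∧
        expS ε (Shift.zero A p) γ n (Finsupp.single η f) = Finsupp.single γ' f' := by
    intro γ n η f d hf
    rw [expS_single]
    set m : ℤ := -n - 1 - (Shift.zero A p).dot γ - formZ A p γ η with hm
    by_cases hdm : (d : ℤ) + m < 0
    · refine ⟨γ + η, 0, 0, isWeightedHomogeneous_zero _ _ _, ?_⟩
      rw [vop_eq_zero A p _ m f d hf hdm, smul_zero]
    · rw [not_lt] at hdm
      obtain ⟨e, he⟩ := Int.eq_ofNat_of_zero_le hdm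
      exact ⟨γ + η, _, e, Submodule.smul_mem (weightedHomogeneousSubmodule ℂ (wF (ι := ι)) e) _
          (vop_homog A p _ m f d e hf he.symm), rfl⟩
  induction hw with
  | vac => exact ⟨0, 1, 0, isWeightedHomogeneous_one _ _, rfl⟩
  | ej j w _ ih =>
    obtain ⟨γ, f, d, hf, rfl⟩ := ih
    exact step (rt j) 0 γ f d hf
  | ex lam hl n w _ ih =>
    obtain ⟨γ, f, d, hf, rfl⟩ := ih
    exact step (-lam) n γ f d hf

/-- the weight of `e^{-λ}`, `λ` dominant and nonzero, is at least `1` -/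
theorem wtExp_pos (hA : IsADE A) (hp : 1 ≤ p) (lam : ι → ℤ) (hl : Dom A lam) (h0 : lam ≠ 0) :
    1 ≤ wtExp A p (-lam) := by
  have h1 : formZ A p (-lam) (-lam) = formZ A p lam lam := by
    unfold formZ
    congr 1
    refine Finset.sum_congr rfl fun i _ => Finset.sum_congr rfl fun j _ => ?_
    simp only [Pi.neg_apply]
    ring
  obtain ⟨a, ha⟩ := two_dvd_formZ (p := p) hA lam
  have h2 : 0 < formZ A p lam lam := by
    unfold formZ
    exact mul_pos (by exact_mod_cast hp) (hA.pos lam h0)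
  have h3 : 0 ≤ ∑ i, lam i := Finset.sum_nonneg fun i _ => vp2_dom_nonneg hA lam hl i
  have h4 : (1 : ℤ) ≤ p := by exact_mod_cast hp
  unfold wtExp
  rw [h1, ha]
  simp only [Pi.neg_apply, Finset.sum_neg_distrib]
  have h5 : 2 * a / 2 = a := by omega
  rw [h5]
  have h6 : 0 ≤ ((p : ℤ) - 1) * ∑ i, lam i := mul_nonneg (by linarith) h3
  have h7 : 1 ≤ a := by omega
  linarith

/-- coordinates of dominant elements are nonnegative -/
theorem dom_nonneg (hA : IsADE A) (lam : ι → ℤ) (hl : Dom A lam) (i : ι) : 0 ≤ lam i := by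
  exact vp2_dom_nonneg hA lam hl i

end

end WPQ
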