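import Pool.Agent.WPQ.LW3
import Pool.Agent.WPQ.VP2

/-! [WPQ-LW4] Symbols.

Plan.  `psi_homog`: `psi` of a monomial: if it contains some `X(i,k)`, `k ≥ 1`, both sides are `0`; otherwise it
is `∏ (y_i z)`, and the weighted degree is the number of variables.  (Compare the two algebra
homomorphisms on monomials, or `MvPolynomial.induction_on`; or: `psi y f = ∑ ...`.)
`psi_lwF`: `psi (D f) = 0` (`D f` is in the ideal of the `X(i,k)`, `k ≥ 1`: derivation, `Derivation`
induction or `mkDerivation_apply`-sum), `psi (osc h 0) = C (∑ h_a y_a) * X`, `psi` is multiplicative; induction on `k`.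
`sy_LS1`: `LS_zero_neg_one`/`Lop_neg_one` with `s = 0`.  `sy_LS2`: unfold `Lop` at `k = -2`, `s = 0 + toC 0`:
derivation: `0`; `heis A p h (-2) 0` = `2 •` multiplication by `osc h 1`: `0`; the last term is
`(1/2) ∑_i osc (dual A p i) 0 * X(i,0)`.
`lw_comp`: components of `v ∈ W` of charge `0`: the weighted homogeneous components of `v 0` give
elements of `Wn` (see `W_span`, VP2.lean, and its proof).  `exists_w`: `v = ` the component of weight `n` of
`single 0 (lwF l p (l+1))`; `psi y (∑_d f_d) = ∑_d C(sy y f_d) X^d`, compare coefficients. -/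

namespace WPQ

open MvPolynomial

noncomputable section

variable {ι : Type} [Fintype ι] [DecidableEq ι]

/-- The symbol: `X(i,0) ↦ y_i`, `X(i,k) ↦ 0` for `k ≥ 1`. -/
def sy (y : ι → ℂ) : Fock ι →ₐ[ℂ] ℂ := aeval fun x : ι × ℕ => if x.2 = 0 then y x.1 else 0

/-- The graded symbol. -/
def psi (y : ι → ℂ) : Fock ι →ₐ[ℂ] Polynomial ℂ :=
  aeval fun x : ι × ℕ => if x.2 = 0 then Polynomial.C (y x.1) * Polynomial.X else 0

omit [Fintype ι] [DecidableEq ι] in
theorem lw4_mono (y : ι → ℂ) (m : ι × ℕ →₀ ℕ) (c : ℂ) :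
    psi y (monomial m c) =
      Polynomial.C (sy y (monomial m c)) * Polynomial.X ^ (Finsupp.weight (wF (ι := ι)) m) := by
  unfold psi sy
  rw [aeval_monomial, aeval_monomial, Finsupp.weight_apply]
  unfold Finsupp.prod Finsupp.sum
  rw [← Finset.prod_pow_eq_pow_sum, map_mul, map_prod, mul_assoc, ← Finset.prod_mul_distrib]
  congr 1
  refine Finset.prod_congr rfl fun x _ => ?_
  show (if x.2 = 0 then Polynomial.C (y x.1) * Polynomial.X else 0) ^ (m x) =
    Polynomial.C ((if x.2 = 0 then y x.1 else 0) ^ (m x)) * Polynomial.X ^ (m x * (x.2 + 1))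
  by_cases hx : x.2 = 0
  · rw [if_pos hx, if_pos hx, mul_pow, map_pow]
    rw [hx, zero_add, mul_one]
  · rw [if_neg hx, if_neg hx]
    by_cases hm : m x = 0
    · rw [hm, pow_zero, pow_zero, map_one, one_mul, zero_mul, pow_zero]
    · rw [zero_pow hm, zero_pow hm, map_zero, zero_mul]

omit [Fintype ι] [DecidableEq ι] in
theorem lw4_psi_D (y : ι → ℂ) (f : Fock ι) : psi y (lwD ι f) = 0 := by
  induction f using MvPolynomial.induction_on with
  | C a =>
    rw [← algebraMap_eq, Derivation.map_algebraMap, map_zero]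
  | add p q hp hq => rw [map_add, map_add, hp, hq, add_zero]
  | mul_X p x hp =>
    rw [Derivation.leibniz, map_add, smul_eq_mul, smul_eq_mul, map_mul, map_mul, hp, mul_zero,
      add_zero]
    have h : psi y (lwD ι (X x)) = 0 := by
      unfold lwD psi
      rw [mkDerivation_X, map_smul, aeval_X, if_neg (Nat.succ_ne_zero _), smul_zero]
    rw [h, mul_zero]

omit [Fintype ι] [DecidableEq ι] in
theorem lw4_sy_D (y : ι → ℂ) (f : Fock ι) (g : ι × ℕ → Fock ι) (hg : ∀ x, sy y (g x) = 0) :
    sy y (mkDerivation ℂ g f) = 0 := by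
  induction f using MvPolynomial.induction_on with
  | C a =>
    rw [← algebraMap_eq, Derivation.map_algebraMap, map_zero]
  | add p q hp hq => rw [map_add, map_add, hp, hq, add_zero]
  | mul_X p x hp =>
    rw [Derivation.leibniz, map_add, smul_eq_mul, smul_eq_mul, map_mul, map_mul, hp, mul_zero,
      add_zero, mkDerivation_X, hg, mul_zero]

omit [Fintype ι] [DecidableEq ι] in
theorem lw4_sy_X (y : ι → ℂ) (i : ι) (k : ℕ) : sy y (X (i, k)) = if k = 0 then y i else 0 := by
  unfold sy
  rw [aeval_X]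

omit [DecidableEq ι] in
theorem lw4_psi_osc (y h : ι → ℂ) :
    psi y (osc h 0) = Polynomial.C (∑ a, h a * y a) * Polynomial.X := by
  unfold osc
  rw [map_sum, map_sum, Finset.sum_mul]
  refine Finset.sum_congr rfl fun i _ => ?_
  rw [map_mul]
  unfold psi
  rw [aeval_X, if_pos rfl, ← algebraMap_eq, AlgHom.commutes, map_mul, mul_assoc]
  rfl

omit [DecidableEq ι] in
theorem lw4_sy_osc (y h : ι → ℂ) (k : ℕ) :
    sy y (osc h k) = if k = 0 then ∑ a, h a * y a else 0 := by
  unfold osc
  rw [map_sum]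
  by_cases hk : k = 0
  · rw [if_pos hk]
    refine Finset.sum_congr rfl fun i _ => ?_
    rw [map_mul, lw4_sy_X, if_pos hk, ← algebraMap_eq, AlgHom.commutes]
    rfl
  · rw [if_neg hk]
    refine Finset.sum_eq_zero fun i _ => ?_
    rw [map_mul, lw4_sy_X, if_neg hk, mul_zero]

theorem lw4_LS_apply {A : Matrix ι ι ℤ} {p : ℕ} (k : ℤ) (v : VL ι) :
    (LS (Shift.zero A p) k v) 0 = Lop A p 0 k (v 0) := by
  induction v using Finsupp.induction_linear with
  | zero => simp
  | add f g hf hg => rw [map_add, Finsupp.add_apply, hf, hg, Finsupp.add_apply, map_add]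
  | single η f =>
    have h1 : LS (Shift.zero A p) k (Finsupp.single η f) =
        Finsupp.single η (Lop A p ((Shift.zero A p).s + toC η) k f) := by
      unfold LS
      rw [Finsupp.lsum_single]
      rfl
    rw [h1, Finsupp.single_apply, Finsupp.single_apply]
    by_cases hη : η = 0
    · subst hη
      rw [if_pos rfl, if_pos rfl]
      have h2 : (Shift.zero A p).s + toC (0 : ι → ℤ) = 0 := by
        funext i
        show (0 : ℂ) + ((0 : ℤ) : ℂ) = 0
        simp
      rw [h2]
    · rw [if_neg hη, if_neg hη, map_zero]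

set_option linter.unusedSectionVars false in
theorem psi_homog (y : ι → ℂ) (f : Fock ι) (d : ℕ) (hf : FH f d) :
    psi y f = Polynomial.C (sy y f) * Polynomial.X ^ d := by
  rw [f.as_sum, map_sum, map_sum, map_sum, Finset.sum_mul]
  refine Finset.sum_congr rfl fun m hm => ?_
  rw [lw4_mono, hf (mem_support_iff.1 hm)]

theorem psi_lwF (l p : ℕ) (y : Fin l → ℂ) : psi y (lwF l p (l + 1)) =
    ∏ i ∈ Finset.range (l + 1), (1 + Polynomial.C (∑ a, lwE l i a * y a) * Polynomial.X) := by
  have key : ∀ k : ℕ, psi y (lwF l p k) = ∏ i ∈ Finset.range k,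
      (1 + Polynomial.C (∑ a, lwE l (l - i) a * y a) * Polynomial.X) := by
    intro k
    induction k with
    | zero =>
      rw [Finset.range_zero, Finset.prod_empty]
      exact map_one _
    | succ k ih =>
      rw [Finset.prod_range_succ, ← ih]
      show psi y (lwA l p (l - k) (lwF l p k)) = _
      unfold lwA
      rw [map_add, map_add, map_smul, lw4_psi_D, smul_zero, zero_add, map_mul, lw4_psi_osc]
      ring
  rw [key, ← Finset.prod_range_reflect (fun i : ℕ =>
    (1 + Polynomial.C (∑ a, lwE l i a * y a) * Polynomial.X)) (l + 1)]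
  refine Finset.prod_congr rfl fun i _ => ?_
  have e : l + 1 - 1 - i = l - i := by omega
  rw [e]

theorem sy_LS1 {A : Matrix ι ι ℤ} {p : ℕ} (y : ι → ℂ) (v : VL ι) :
    sy y ((LS (Shift.zero A p) (-1) v) 0) = 0 := by
  rw [lw4_LS_apply, Lop_neg_one, LinearMap.add_apply, map_add, LinearMap.mulLeft_apply, map_mul,
    lw4_sy_osc, if_pos rfl]
  have h1 : ∑ a, (0 : ι → ℂ) a * y a = 0 := by simp
  rw [h1, zero_mul, add_zero]
  refine lw4_sy_D y (v 0) _ fun x => ?_
  rw [map_smul, lw4_sy_X, if_neg (Nat.succ_ne_zero _), smul_zero]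

theorem sy_LS2 {A : Matrix ι ι ℤ} {p : ℕ} (y : ι → ℂ) (v : VL ι) :
    sy y ((LS (Shift.zero A p) (-2) v) 0) =
      (1 / 2 * ∑ i, (∑ j, dual A p i j * y j) * y i) * sy y (v 0) := by
  rw [lw4_LS_apply]
  unfold Lop
  rw [if_neg (by norm_num), if_neg (by norm_num), LinearMap.add_apply, LinearMap.add_apply,
    map_add, map_add]
  have e2 : (-(-2 : ℤ)).toNat = 2 := rfl
  have h1 : sy y ((mkDerivation ℂ fun x : ι × ℕ =>
      ((x.2 : ℂ) + 1 - ((-2 : ℤ) : ℂ)) • (X (x.1, x.2 + (-(-2 : ℤ)).toNat) : Fock ι)).toLinearMap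
      (v 0)) = 0 := by
    refine lw4_sy_D y (v 0) _ fun x => ?_
    rw [map_smul, lw4_sy_X, if_neg (by omega), smul_zero]
  have h2 : ∀ h : ι → ℂ, sy y (heis A p h (-2) 0 (v 0)) = 0 := by
    intro h
    unfold heis
    rw [if_pos (by norm_num), LinearMap.smul_apply, map_smul, LinearMap.mulLeft_apply, map_mul,
      lw4_sy_osc, if_neg (by decide), zero_mul, smul_zero]
  rw [h1, h2, zero_add, zero_add, LinearMap.smul_apply, map_smul, LinearMap.mulLeft_apply,
    map_mul, e2]
  rw [show 2 - 1 = 1 from rfl, Finset.sum_range_one, map_sum, smul_eq_mul, ← mul_assoc]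
  congr 2
  refine Finset.sum_congr rfl fun i _ => ?_
  rw [map_mul, map_mul, lw4_sy_osc, if_pos rfl, lw4_sy_X, if_pos (by rfl), ← algebraMap_eq,
    AlgHom.commutes]
  have h3 : (algebraMap ℂ ℂ) ((((0 : ℕ) : ℂ) + 1) * (-((-2 : ℤ) : ℂ) - 1 - ((0 : ℕ) : ℂ))) = 1 := by
    rw [Algebra.algebraMap_self_apply]
    push_cast
    norm_num
  rw [h3, one_mul]

/-- The homogeneous components of a vector of `W`. -/
theorem lw_comp {A : Matrix ι ι ℤ} {p : ℕ} (f : Fock ι) (hf : Finsupp.single 0 f ∈ W A p)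
    (d : ℕ) :
    Finsupp.single 0 (weightedHomogeneousComponent (wF (ι := ι)) d f) ∈ Wn A p d := by
  refine ⟨W_homog 0 f hf d, single_mem_Vn 0 _ d
    (weightedHomogeneousComponent_isWeightedHomogeneous _ _) _ ?_⟩
  have h : wtExp A p 0 = 0 := by
    unfold wtExp formZ
    simp
  rw [h, add_zero]

omit [Fintype ι] [DecidableEq ι] in
theorem lw4_coeff (y : ι → ℂ) (f : Fock ι) (n : ℕ) :
    (psi y f).coeff n = sy y (weightedHomogeneousComponent (wF (ι := ι)) n f) := by
  induction f using MvPolynomial.induction_on' with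
  | monomial m c =>
    have hm : IsWeightedHomogeneous (wF (ι := ι)) (monomial m c)
        (Finsupp.weight (wF (ι := ι)) m) := isWeightedHomogeneous_monomial _ _ _ rfl
    rw [lw4_mono, Polynomial.coeff_C_mul_X_pow]
    by_cases h : n = Finsupp.weight (wF (ι := ι)) m
    · subst h
      rw [if_pos rfl, weightedHomogeneousComponent_of_mem hm, if_pos rfl]
    · rw [if_neg h, weightedHomogeneousComponent_of_mem hm, if_neg h, map_zero]
  | add p q hp hq => rw [map_add, Polynomial.coeff_add, hp, hq, map_add, map_add]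

/-- The vectors of `W_k` given by the Miura transformation. -/
theorem exists_w (l p : ℕ) (hl : 2 ≤ l) (hp : 2 ≤ p) (n : ℕ) :
    ∃ f : Fock (Fin l), Finsupp.single 0 f ∈ Wn (cartanA l) p n ∧ ∀ y : Fin l → ℂ,
      sy y f = (∏ i ∈ Finset.range (l + 1),
        (1 + Polynomial.C (∑ a, lwE l i a * y a) * Polynomial.X)).coeff n := by
  refine ⟨weightedHomogeneousComponent (wF (ι := Fin l)) n (lwF l p (l + 1)),
    lw_comp _ (lwF_mem l p hl hp) n, fun y => ?_⟩
  rw [← psi_lwF l p y, lw4_coeff]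

end

end WPQ
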