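import Pool.Agent.WPQ.END

/-! [WPQ-NE7] Full Q1 of MP_c42e9d_al, block EN.

Plan.  `theorem en7 (h1 : st_EN1) (h2 : st_EN2e7) : st_EN7`.  As EN8 with `1 + c = 6/5`, `R = 399/2`, `w = -1 + 399 (p-1)²/p`: `p ∑q ≥ h + r²` gives
`6 p x ≥ 5 (h + r²)`, and `h ≥ p x²/399 + (p-1) x`, so (*) `1 ≥ 25 h/(36 · 399 p) + 5 (p-1)/(6 p)`; false for `r = 2, p ≥ 6`; `r = 3, p ≥ 3`;
`r ≥ 4, p ≥ 2` (`h ≥ (15/4) w`).  `r = 2`: `h` is never an integer: `4 h p = 1197 (p-1)² - 3p`: `p ∣ 1197`, so `p` is odd, `4 ∣ (p-1)²`, `4 ∣ 3p`: contradiction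
(so `p = 2,..,5` need no inequality).  `r = 3, p = 2` is excluded (`exc`). -/

namespace WPQ

open MvPolynomial AF

noncomputable section

theorem ne7_even (ν : Fin 7 → ℤ) : ∃ M : ℤ,
    ∑ i, ∑ j, ν i * CartanMatrix.E₇ i j * ν j = 2 * M := by
  refine ⟨ν 0 ^ 2 + ν 1 ^ 2 + ν 2 ^ 2 + ν 3 ^ 2 + ν 4 ^ 2 + ν 5 ^ 2 + ν 6 ^ 2 - ν 0 * ν 2 -
    ν 1 * ν 3 - ν 2 * ν 3 - ν 3 * ν 4 - ν 4 * ν 5 - ν 5 * ν 6, ?_⟩
  simp [Fin.sum_univ_succ, CartanMatrix.E₇]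
  ring

theorem ne7_wt (p : ℕ) (ν : Fin 7 → ℤ) (M : ℤ)
    (hM : ∑ i, ∑ j, ν i * CartanMatrix.E₇ i j * ν j = 2 * M) :
    wtExp CartanMatrix.E₇ p (-ν) = p * M + ((p : ℤ) - 1) * ∑ i, ν i := by
  have h1 : formZ CartanMatrix.E₇ p (-ν) (-ν) = 2 * (p * M) := by
    unfold formZ
    have h2 : ∑ i, ∑ j, (-ν) i * CartanMatrix.E₇ i j * (-ν) j =
        ∑ i, ∑ j, ν i * CartanMatrix.E₇ i j * ν j := by
      refine Finset.sum_congr rfl fun i _ => Finset.sum_congr rfl fun j _ => ?_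
      rw [Pi.neg_apply, Pi.neg_apply]
      ring
    rw [h2, hM]
    ring
  unfold wtExp
  rw [h1, Int.mul_ediv_cancel_left _ (by norm_num : (2 : ℤ) ≠ 0)]
  simp only [Pi.neg_apply, Finset.sum_neg_distrib]
  ring

theorem ne7_int (p r h : ℕ) (hp : 2 ≤ p)
    (hh : (h : ℚ) = ((r : ℚ) ^ 2 - 1) * wR 7 (399 / 2) p / 4) :
    4 * (h : ℤ) * p = ((r : ℤ) ^ 2 - 1) * (399 * ((p : ℤ) - 1) ^ 2 - p) := by
  have hpQ : (p : ℚ) ≠ 0 := Nat.cast_ne_zero.2 (by omega)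
  have h1 : 4 * (h : ℚ) * p = ((r : ℚ) ^ 2 - 1) * (399 * ((p : ℚ) - 1) ^ 2 - p) := by
    rw [hh]
    unfold wR
    field_simp
    ring
  exact_mod_cast h1

theorem ne7_key (p h x M r : ℤ) (hp : 2 ≤ p) (hh : 1 ≤ h) (h1 : x ^ 2 ≤ 399 * M)
    (h2 : p * M + (p - 1) * x ≤ h) (h3 : 5 * (h + r * r) ≤ 6 * (p * x)) :
    25 * h ≤ 2394 * p + 11970 := by
  have hr : 0 ≤ r * r := mul_self_nonneg r
  have h4 : 5 * h ≤ 6 * (p * x) := by linarith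
  have h5 : p * x ^ 2 ≤ p * (399 * M) := mul_le_mul_of_nonneg_left h1 (by linarith)
  have h6 : p * x ^ 2 + 399 * ((p - 1) * x) ≤ 399 * h := by linarith
  have h7 : p * (p * x ^ 2 + 399 * ((p - 1) * x)) ≤ p * (399 * h) :=
    mul_le_mul_of_nonneg_left h6 (by linarith)
  have h8 : 0 ≤ (6 * (p * x) - 5 * h) * (6 * (p * x) + 5 * h) :=
    mul_nonneg (by linarith) (by linarith)
  have h9 : 0 ≤ (p - 1) * (6 * (p * x) - 5 * h) := mul_nonneg (by linarith) (by linarith)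
  have h10 : h * (25 * h + 11970 * (p - 1)) ≤ h * (14364 * p) := by nlinarith
  have h11 : 25 * h + 11970 * (p - 1) ≤ 14364 * p := le_of_mul_le_mul_left h10 (by linarith)
  linarith

theorem ne7_par (p h : ℤ) (h1 : 4 * h * p = 3 * (399 * (p - 1) ^ 2 - p)) : False := by
  obtain ⟨k, hk⟩ := Int.even_mul_pred_self p
  have h2 : 4 * (h * p) = 1197 * (p * (p - 1)) - 1200 * p + 1197 := by
    linear_combination h1
  rw [hk] at h2
  omega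

theorem ne7_fin (p h r : ℤ) (hp : 2 ≤ p) (hr : 3 ≤ r) (hexc : ¬(p = 2 ∧ r = 3))
    (h1 : 4 * h * p = (r ^ 2 - 1) * (399 * (p - 1) ^ 2 - p)) (h2 : 25 * h ≤ 2394 * p + 11970) :
    False := by
  have h3 : (25 * h) * (4 * p) ≤ (2394 * p + 11970) * (4 * p) :=
    mul_le_mul_of_nonneg_right h2 (by linarith)
  have h4 : (25 * h) * (4 * p) = 25 * ((r ^ 2 - 1) * (399 * (p - 1) ^ 2 - p)) := by
    linear_combination 25 * h1
  rw [h4] at h3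
  have h5 : 0 ≤ 399 * (p - 1) ^ 2 - p := by nlinarith
  rcases eq_or_lt_of_le hr with h6 | h6
  · subst h6
    have h7 : 3 ≤ p := by
      rcases eq_or_lt_of_le hp with h8 | h8
      · exact absurd ⟨h8.symm, rfl⟩ hexc
      · exact h8
    nlinarith
  · have h7 : 16 ≤ r ^ 2 := by nlinarith
    have h8 : 15 * (399 * (p - 1) ^ 2 - p) ≤ (r ^ 2 - 1) * (399 * (p - 1) ^ 2 - p) :=
      mul_le_mul_of_nonneg_right (by linarith) h5
    nlinarith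

theorem en7 (h1 : st_EN1) (h2 : st_EN2e7) : st_EN7 := by
  intro p hp r h hr hh hw hexc ν hν hdom hwt
  obtain ⟨ls, hls, hsum, hq⟩ := h2 ν hdom
  refine ⟨ls, ?_, hls, hsum, ?_⟩
  · rintro rfl
    exact hν hsum.symm
  by_contra hcon
  rw [not_lt] at hcon
  obtain ⟨M, hM⟩ := ne7_even ν
  rw [ne7_wt p ν M hM] at hwt
  have h3 := h1.2.1 ν
  unfold formZ at h3
  rw [hM] at h3
  push_cast at h3
  have h4 := ne7_int p r h hp hw
  have hpZ : (2 : ℤ) ≤ p := by exact_mod_cast hp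
  have h5 : 5 * ((p : ℤ) * (ls.map (qN CartanMatrix.E₇)).sum) ≤ 6 * (p * ∑ i, ν i) := by
    have h6 : (p : ℤ) * (5 * (ls.map (qN CartanMatrix.E₇)).sum) ≤ p * (6 * ∑ i, ν i) :=
      mul_le_mul_of_nonneg_left hq (by linarith)
    linarith
  have h6 : 25 * (h : ℤ) ≤ 2394 * p + 11970 :=
    ne7_key p h (∑ i, ν i) M r hpZ (by exact_mod_cast hh) (by linarith) hwt (by linarith)
  rcases eq_or_lt_of_le hr with h7 | h7
  · subst h7
    refine ne7_par p h ?_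
    rw [h4]
    norm_num
  · refine ne7_fin p h r hpZ (by exact_mod_cast h7) ?_ h4 h6
    rintro ⟨h8, h9⟩
    exact hexc ⟨by exact_mod_cast h8, by exact_mod_cast h9⟩

end

end WPQ
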