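import Pool.Agent.WPQ.NTD

/-! [WPQ-NT1] The integers `(N + α p)(N + β p)` are not squares (reduction to a finite check).

`N = NA l p`, `s = (α + β) / 2`, `κ = (β - α) / 2` (integers: `(s, κ)` is one of `(12,12)`, `(36,36)`, `(48,48)`,
`(60,36)`, `(48,24)`), `X = N + s p`.  Then `(N + α p)(N + β p) = X² - κ² p²`.

Proof of `nt1_red`.  Replace `y` by `|y|`, put `e = X - y`.  `X > 0` (`X ≥ 24 (p-1)² - p + 12 p`, since `N` increases with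
`l`: `l (l+1) (l+2) (p-1)² - (l-1) p`, `(p-1)² ≥ p²/4 ≥ p/2`), `(X - y)(X + y) = κ² p² > 0`, so `1 ≤ e ≤ X` and `e (2X - e) = κ² p²`.
* `e (2X - e) ≥ 2X - 1` (`1 ≤ e ≤ X`), so `2X - 1 ≤ κ² p² ≤ 2304 p²`.  If `l ≥ 17`: `l (l+1)(l+2) ≥ 342 l` and `≥ 5814`,
  `(p-1)² ≥ p²/4`, `(l-1) p ≤ l p²/2`, so `2X ≥ 2907 p² - 17 p² > 2304 p² + 1` (write `l (l+1) (l+2) (p-1)² - (l-1) p ≥ l (342/4 - 1/2) p²`).
  So `l ≤ 16`.
* `e (2X - e) ≥ e X` (`e ≤ X`), so if `e ≥ 98`: `98 X ≤ 2304 p²`; but `X ≥ 24 (p-1)² - p + s p`, and for `(s, κ) = (48, 48)`: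
  `98 (24 p² - p + 24) > 2304 p²`; for `(12,12)`: `98 (24 p² - 37 p + 24) > 144 p²` (`p ≥ 2`); `(36,36)`: `98 (24 p² - 13 p + 24) > 1296 p²`;
  `(60,36)`, `(48,24)`: clear.  So `e ≤ 97`.
Then `A p² + 2 B p + C = 0` with `A = 2 e L - κ²`, `B = e (s - 2 L - (l - 1))`, `C = e (2 L - e)`, `L = l (l+1) (l+2)`. -/

namespace WPQ

/-- The possible values of `(s, κ)`. -/
def nt1_ok (s κ : ℤ) : Prop :=
  (s = 12 ∧ κ = 12) ∨ (s = 36 ∧ κ = 36) ∨ (s = 48 ∧ κ = 48) ∨ (s = 60 ∧ κ = 36) ∨ (s = 48 ∧ κ = 24)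

theorem nt1_fac (a : ℤ) (ha : 2 ≤ a) : 26 * (a - 2) ≤ a * (a + 1) * (a + 2) - 24 := by
  obtain ⟨b, hb⟩ : ∃ b, a = b + 2 := ⟨a - 2, by ring⟩
  subst hb
  have hb : 0 ≤ b := by linarith
  have h2 : 0 ≤ b ^ 2 := by positivity
  have h3 : 0 ≤ b ^ 3 := by positivity
  have e : (b + 2) * (b + 2 + 1) * (b + 2 + 2) - 24 = b ^ 3 + 9 * b ^ 2 + 26 * b := by ring
  rw [e]
  linarith

theorem nt1_sq (P : ℤ) (hP : 2 ≤ P) : P ≤ 2 * (P - 1) ^ 2 ∧ P ^ 2 ≤ 4 * (P - 1) ^ 2 ∧ 2 * P ≤ P ^ 2 := by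
  obtain ⟨b, hb⟩ : ∃ b, P = b + 2 := ⟨P - 2, by ring⟩
  subst hb
  have hb : 0 ≤ b := by linarith
  have h2 : 0 ≤ b ^ 2 := by positivity
  refine ⟨?_, ?_, ?_⟩
  · have e : (b + 2 - 1) ^ 2 = b ^ 2 + 2 * b + 1 := by ring
    rw [e]; linarith
  · have e : (b + 2 - 1) ^ 2 = b ^ 2 + 2 * b + 1 := by ring
    have e' : (b + 2) ^ 2 = b ^ 2 + 4 * b + 4 := by ring
    rw [e, e']; linarith
  · have e' : (b + 2) ^ 2 = b ^ 2 + 4 * b + 4 := by ring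
    rw [e']; linarith

theorem nt1_X (a P s : ℤ) (ha : 2 ≤ a) (hP : 2 ≤ P) :
    24 * (P - 1) ^ 2 - P + s * P ≤
      a * (a + 1) * (a + 2) * (P - 1) ^ 2 - (a - 1) * P + s * P := by
  obtain ⟨h1, -, -⟩ := nt1_sq P hP
  have h2 := nt1_fac a ha
  have h3 : 0 ≤ (a * (a + 1) * (a + 2) - 24 - 26 * (a - 2)) * (P - 1) ^ 2 :=
    mul_nonneg (by linarith) (sq_nonneg _)
  have h4 : 0 ≤ (a - 2) * (2 * (P - 1) ^ 2 - P) := mul_nonneg (by linarith) (by linarith)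
  have h5 : 0 ≤ (a - 2) * (P - 1) ^ 2 := mul_nonneg (by linarith) (sq_nonneg _)
  have e : a * (a + 1) * (a + 2) * (P - 1) ^ 2 - (a - 1) * P + s * P -
      (24 * (P - 1) ^ 2 - P + s * P) =
      (a * (a + 1) * (a + 2) - 24 - 26 * (a - 2)) * (P - 1) ^ 2 +
        ((a - 2) * (2 * (P - 1) ^ 2 - P) + 24 * ((a - 2) * (P - 1) ^ 2)) := by ring
  linarith

theorem nt1_X17 (a P s : ℤ) (ha : 17 ≤ a) (hP : 2 ≤ P) (hs : 0 ≤ s) :
    5780 * P ^ 2 ≤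
      4 * (a * (a + 1) * (a + 2) * (P - 1) ^ 2 - (a - 1) * P + s * P) := by
  obtain ⟨-, h1, h1'⟩ := nt1_sq P hP
  have hP2 : 0 ≤ P ^ 2 := sq_nonneg P
  have g0 : 342 * a ≤ a * (a + 1) * (a + 2) := by
    have : 0 ≤ a * ((a - 17) * (a + 20)) :=
      mul_nonneg (by linarith) (mul_nonneg (by linarith) (by linarith))
    have e : a * (a + 1) * (a + 2) - 342 * a = a * ((a - 17) * (a + 20)) := by ring
    linarith
  have g2 : 0 ≤ (a * (a + 1) * (a + 2)) * (4 * (P - 1) ^ 2 - P ^ 2) :=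
    mul_nonneg (by linarith) (by linarith)
  have g3 : 0 ≤ (a * (a + 1) * (a + 2) - 342 * a) * P ^ 2 := mul_nonneg (by linarith) hP2
  have g4 : 0 ≤ (a - 1) * (P ^ 2 - 2 * P) := mul_nonneg (by linarith) (by linarith)
  have g5 : 0 ≤ (a - 17) * P ^ 2 := mul_nonneg (by linarith) hP2
  have g6 : 0 ≤ s * P := mul_nonneg hs (by linarith)
  have e : 4 * (a * (a + 1) * (a + 2) * (P - 1) ^ 2 - (a - 1) * P + s * P) - 5780 * P ^ 2 =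
      (a * (a + 1) * (a + 2)) * (4 * (P - 1) ^ 2 - P ^ 2) +
      (a * (a + 1) * (a + 2) - 342 * a) * P ^ 2 + 2 * ((a - 1) * (P ^ 2 - 2 * P)) +
      340 * ((a - 17) * P ^ 2) + 4 * (s * P) + 2 * P ^ 2 := by ring
  linarith

theorem nt1_e1 (e X : ℤ) (h1 : 1 ≤ e) (h2 : e ≤ X) : 2 * X - 1 ≤ e * (2 * X - e) := by
  have h : 0 ≤ (e - 1) * (2 * X - e - 1) := mul_nonneg (by linarith) (by linarith)
  have e' : e * (2 * X - e) - (2 * X - 1) = (e - 1) * (2 * X - e - 1) := by ring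
  linarith

theorem nt1_e98 (e X : ℤ) (h1 : 98 ≤ e) (h2 : e ≤ X) : 98 * X ≤ e * (2 * X - e) := by
  have g1 : 0 ≤ e * (X - e) := mul_nonneg (by linarith) (by linarith)
  have g2 : 0 ≤ (e - 98) * X := mul_nonneg (by linarith) (by linarith)
  have e' : e * (2 * X - e) - 98 * X = e * (X - e) + (e - 98) * X := by ring
  linarith

theorem nt1_big (P s κ : ℤ) (hP : 2 ≤ P) (h : nt1_ok s κ) :
    κ ^ 2 * P ^ 2 < 98 * (24 * (P - 1) ^ 2 - P + s * P) := by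
  obtain ⟨b, hb⟩ : ∃ b, P = b + 2 := ⟨P - 2, by ring⟩
  subst hb
  have hb : 0 ≤ b := by linarith
  have h2 : 0 ≤ b ^ 2 := by positivity
  rcases h with ⟨rfl, rfl⟩ | ⟨rfl, rfl⟩ | ⟨rfl, rfl⟩ | ⟨rfl, rfl⟩ | ⟨rfl, rfl⟩ <;> ring_nf <;> linarith

theorem nt1_red (l p : ℕ) (hl : 2 ≤ l) (hp : 2 ≤ p) (s κ : ℤ) (h : nt1_ok s κ) (y : ℤ)
    (hy : (NA l p + s * p) ^ 2 - κ ^ 2 * p ^ 2 = y ^ 2) :
    l ≤ 16 ∧ ∃ e : ℕ, 1 ≤ e ∧ e ≤ 97 ∧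
      (2 * e * ((l : ℤ) * (l + 1) * (l + 2)) - κ ^ 2) * (p : ℤ) ^ 2 +
        2 * (e * (s - 2 * ((l : ℤ) * (l + 1) * (l + 2)) - (l - 1))) * p +
        e * (2 * ((l : ℤ) * (l + 1) * (l + 2)) - e) = 0 := by
  have hl' : (2 : ℤ) ≤ (l : ℤ) := by exact_mod_cast hl
  have hp' : (2 : ℤ) ≤ (p : ℤ) := by exact_mod_cast hp
  have hs : 0 ≤ s := by rcases h with h | h | h | h | h <;> omega
  have hκ : κ ^ 2 ≤ 2304 ∧ 0 < κ ^ 2 := by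
    rcases h with h | h | h | h | h <;> (rw [h.2]; norm_num)
  have hbig := nt1_big p s κ hp' h
  have hX0 := nt1_X l p s hl' hp'
  have hP2 : 0 < (p : ℤ) ^ 2 := by positivity
  have hκP : 0 < κ ^ 2 * (p : ℤ) ^ 2 := mul_pos hκ.2 hP2
  unfold NA at hy
  obtain ⟨X, hX⟩ : ∃ X : ℤ, X = (l : ℤ) * (l + 1) * (l + 2) * ((p : ℤ) - 1) ^ 2 -
    ((l : ℤ) - 1) * p + s * p := ⟨_, rfl⟩
  rw [← hX] at hy hX0
  have hXpos : 0 < X := by linarith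
  have hy2 : y ^ 2 = |y| ^ 2 := (sq_abs y).symm
  rw [hy2] at hy
  have hyn : 0 ≤ |y| := abs_nonneg y
  generalize |y| = z at hy hyn
  have hprod : (X - z) * (X + z) = κ ^ 2 * (p : ℤ) ^ 2 := by
    have : (X - z) * (X + z) = X ^ 2 - z ^ 2 := by ring
    rw [this]; linarith
  have he0 : 0 < X - z := by
    by_contra hc
    have : (X - z) * (X + z) ≤ 0 :=
      mul_nonpos_of_nonpos_of_nonneg (by linarith) (by linarith)
    linarith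
  obtain ⟨e, he⟩ : ∃ e : ℕ, X - z = (e : ℤ) :=
    ⟨(X - z).toNat, (Int.toNat_of_nonneg he0.le).symm⟩
  have he1 : (1 : ℤ) ≤ (e : ℤ) := by omega
  have heX : (e : ℤ) ≤ X := by linarith
  have hz : z = X - e := by linarith
  have heq : (e : ℤ) * (2 * X - e) = κ ^ 2 * (p : ℤ) ^ 2 := by
    rw [← hprod, hz]; ring
  refine ⟨?_, e, by exact_mod_cast he1, ?_, ?_⟩
  · by_contra hc
    have h17 : (17 : ℤ) ≤ (l : ℤ) := by omega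
    have h1 := nt1_e1 e X he1 heX
    have h2 := nt1_X17 l p s h17 hp' hs
    rw [← hX] at h2
    have h3 : κ ^ 2 * (p : ℤ) ^ 2 ≤ 2304 * (p : ℤ) ^ 2 :=
      mul_le_mul_of_nonneg_right hκ.1 hP2.le
    linarith
  · by_contra hc
    have h98 : (98 : ℤ) ≤ (e : ℤ) := by omega
    have h1 := nt1_e98 e X h98 heX
    linarith
  · rw [hX] at heq
    linear_combination heq

end WPQ
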