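import Pool.Agent.WPQ.NT1

namespace WPQ

/-- Integer square root by Newton iteration (no correctness proof needed). -/
def nt1b_isq : ℕ → ℕ → ℕ → ℕ
  | 0, _, g => g
  | f + 1, n, g =>
    let g' := (g + n / g) / 2
    if g' < g then nt1b_isq f n g' else g

/-- The check for given coefficients of the quadratic equation and `q`. -/
def nt1b_chk0 (x : Bool) (A B C q : ℤ) : Bool :=
  if A = 0 then
    (B ≠ 0 ∧ ((2 * B) * (-C / (2 * B)) ≠ -C ∨ -C / (2 * B) < 2)) ∨ (x ∧ B ≠ 0 ∧ -C / (2 * B) = 18)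
  else
    B ^ 2 - A * C < 0 ∨ (0 ≤ q ∧ q ^ 2 < B ^ 2 - A * C ∧ B ^ 2 - A * C < (q + 1) ^ 2) ∨
      (0 ≤ q ∧ q ^ 2 = B ^ 2 - A * C ∧ (A * ((-B + q) / A) ≠ -B + q ∨ (-B + q) / A < 2) ∧
        (A * ((-B - q) / A) ≠ -B - q ∨ (-B - q) / A < 2))

theorem nt1b_sound (x : Bool) (A B C q p : ℤ) (h : nt1b_chk0 x A B C q = true) (hp : 2 ≤ p)
    (h0 : A * p ^ 2 + 2 * B * p + C = 0) : x = true ∧ p = 18 := by
  unfold nt1b_chk0 at h
  by_cases hA : A = 0
  · rw [if_pos hA] at h
    have h := of_decide_eq_true h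
    subst hA
    rcases h with ⟨hB, h⟩ | ⟨hx, hB, h⟩
    · exfalso
      have h1 : -C = (2 * B) * p := by linarith
      have h2 : -C / (2 * B) = p := by
        rw [h1]
        exact Int.mul_ediv_cancel_left _ (by omega)
      rw [h2] at h
      rcases h with h | h
      · exact h h1.symm
      · omega
    · refine ⟨hx, ?_⟩
      have h1 : -C = (2 * B) * p := by linarith
      have h2 : -C / (2 * B) = p := by
        rw [h1]
        exact Int.mul_ediv_cancel_left _ (by omega)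
      rw [← h2, h]
  · rw [if_neg hA] at h
    have h := of_decide_eq_true h
    exfalso
    have h1 : (A * p + B) ^ 2 = B ^ 2 - A * C := by
      have : A * (A * p ^ 2 + 2 * B * p + C) = 0 := by rw [h0, mul_zero]
      linarith
    rcases h with h | ⟨hq, h2, h3⟩ | ⟨hq, h2, h3, h4⟩
    · have := sq_nonneg (A * p + B)
      omega
    · rw [← h1] at h2 h3
      have h5 : q < |A * p + B| := by
        rw [← sq_abs (A * p + B)] at h2
        exact lt_of_pow_lt_pow_left₀ 2 (abs_nonneg _) h2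
      have h6 : |A * p + B| < q + 1 := by
        rw [← sq_abs (A * p + B)] at h3
        exact lt_of_pow_lt_pow_left₀ 2 (by omega) h3
      omega
    · rw [← h1] at h2
      rcases sq_eq_sq_iff_eq_or_eq_neg.mp h2 with h5 | h5
      · have h6 : -B + q = A * p := by linarith
        have h7 : (-B + q) / A = p := by
          rw [h6]
          exact Int.mul_ediv_cancel_left _ hA
        rw [h7] at h3
        rcases h3 with h3 | h3
        · exact h3 h6.symm
        · omega
      · have h6 : -B - q = A * p := by linarith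
        have h7 : (-B - q) / A = p := by
          rw [h6]
          exact Int.mul_ediv_cancel_left _ hA
        rw [h7] at h4
        rcases h4 with h4 | h4
        · exact h4 h6.symm
        · omega

/-- The coefficients. -/
def nt1b_A (l e κ : ℤ) : ℤ := 2 * e * (l * (l + 1) * (l + 2)) - κ ^ 2
def nt1b_B (l e s : ℤ) : ℤ := e * (s - 2 * (l * (l + 1) * (l + 2)) - (l - 1))
def nt1b_C (l e : ℤ) : ℤ := e * (2 * (l * (l + 1) * (l + 2)) - e)

/-- The check for one quadruple. -/
def nt1b_chk (l e s κ : ℤ) : Bool :=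
  nt1b_chk0 (decide (l = 2 ∧ s = 48 ∧ κ = 24)) (nt1b_A l e κ) (nt1b_B l e s) (nt1b_C l e)
    (nt1b_isq 12 (nt1b_B l e s ^ 2 - nt1b_A l e κ * nt1b_C l e).toNat
      (2 ^ (Nat.log2 (nt1b_B l e s ^ 2 - nt1b_A l e κ * nt1b_C l e).toNat / 2 + 1)) : ℕ)

/-- The check for `e ≤ n`. -/
def nt1b_all (l : ℤ) (s κ : ℤ) : ℕ → Bool
  | 0 => true
  | e + 1 => nt1b_chk l (e + 1 : ℕ) s κ && nt1b_all l s κ e

theorem nt1b_all_spec (l s κ : ℤ) (n : ℕ) (h : nt1b_all l s κ n = true) (e : ℕ) (he : 1 ≤ e)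
    (hen : e ≤ n) : nt1b_chk l e s κ = true := by
  induction n with
  | zero => omega
  | succ n ih =>
    rw [nt1b_all, Bool.and_eq_true] at h
    rcases Nat.lt_or_ge e (n + 1) with h1 | h1
    · exact ih h.2 (by omega)
    · have h2 : e = n + 1 := by omega
      rw [h2]
      exact h.1

theorem nt1b_1 : (List.range 15).all (fun i => nt1b_all ((i : ℕ) + 2) 12 12 97) = true := by
  decide +kernel

theorem nt1b_2 : (List.range 15).all (fun i => nt1b_all ((i : ℕ) + 2) 36 36 97) = true := by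
  decide +kernel

theorem nt1b_3 : (List.range 15).all (fun i => nt1b_all ((i : ℕ) + 2) 48 48 97) = true := by
  decide +kernel

theorem nt1b_4 : (List.range 15).all (fun i => nt1b_all ((i : ℕ) + 2) 60 36 97) = true := by
  decide +kernel

theorem nt1b_5 : (List.range 15).all (fun i => nt1b_all ((i : ℕ) + 2) 48 24 97) = true := by
  decide +kernel

theorem nt1_fin (l e p : ℕ) (hl : 2 ≤ l) (hl' : l ≤ 16) (he : 1 ≤ e) (he' : e ≤ 97) (hp : 2 ≤ p) (s κ : ℤ)
    (h : nt1_ok s κ) (hx : ¬ (l = 2 ∧ p = 18 ∧ s = 48 ∧ κ = 24))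
    (h0 : (2 * e * ((l : ℤ) * (l + 1) * (l + 2)) - κ ^ 2) * (p : ℤ) ^ 2 +
        2 * (e * (s - 2 * ((l : ℤ) * (l + 1) * (l + 2)) - (l - 1))) * p +
        e * (2 * ((l : ℤ) * (l + 1) * (l + 2)) - e) = 0) : False := by
  have key : ∀ s κ : ℤ, (List.range 15).all (fun i => nt1b_all ((i : ℕ) + 2) s κ 97) = true →
      nt1b_chk l e s κ = true := by
    intro s κ h
    rw [List.all_eq_true] at h
    have h1 := h (l - 2) (List.mem_range.mpr (by omega))
    have h2 : (((l - 2 : ℕ) : ℤ) + 2) = l := by omega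
    simp only [h2] at h1
    exact nt1b_all_spec _ _ _ _ h1 e he he'
  have hc : nt1b_chk l e s κ = true := by
    rcases h with ⟨rfl, rfl⟩ | ⟨rfl, rfl⟩ | ⟨rfl, rfl⟩ | ⟨rfl, rfl⟩ | ⟨rfl, rfl⟩
    · exact key _ _ nt1b_1
    · exact key _ _ nt1b_2
    · exact key _ _ nt1b_3
    · exact key _ _ nt1b_4
    · exact key _ _ nt1b_5
  have h1 := nt1b_sound _ _ _ _ _ (p : ℤ) hc (by exact_mod_cast hp) h0
  have h2 := of_decide_eq_true h1.1
  apply hx
  refine ⟨by exact_mod_cast h2.1, by exact_mod_cast h1.2, h2.2.1, h2.2.2⟩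

end WPQ
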