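import Pool.Agent.WPQ.NT1b
import Pool.Agent.WPQ.LWD

/-! [WPQ-NT2] The rational numbers `(4m + w)(w + 4)`, `(4m + w) w`, `w (w + 4)` are not squares.

`w = wA l p = NA l p / (6 p)`.  `(a + w)(b + w) = (N + 6 a p)(N + 6 b p) / (6 p)²`, so if it is a square in `ℚ`, then the integer
`(N + 6 a p)(N + 6 b p)` is a square in `ℚ`, hence in `ℤ` (`Rat.isSquare_intCast_iff`); with `α = 6 a`, `β = 6 b`
it is `(N + s p)² - κ² p²`, `s = (α + β)/2`, `κ = (β - α)/2` (or `κ = (α - β)/2`), and `nt1_red`, `nt1_fin` give a contradiction.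
Pairs: `R3`: `(0, 24)`; `m = 3`: `(72, 24)`, `(72, 0)`; `m = 4`: `(96, 24)`, `(96, 0)`.
`nt_pos`: `N > p`: `l (l+1) (l+2) ≥ 12 l` and `12 (p-1)² ≥ p + 1`. -/

namespace WPQ

theorem nt2_core (l p : ℕ) (hl : 2 ≤ l) (hp : 2 ≤ p) (s κ : ℤ) (h : nt1_ok s κ)
    (hx : ¬ (l = 2 ∧ p = 18 ∧ s = 48 ∧ κ = 24)) :
    ¬ IsSquare ((NA l p + (s - κ) * p) * (NA l p + (s + κ) * p)) := by
  rintro ⟨y, hy⟩
  obtain ⟨hl', e, he, he', h0⟩ := nt1_red l p hl hp s κ h y (by linear_combination hy)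
  exact nt1_fin l e p hl hl' he he' hp s κ h hx h0

theorem nt2_wA (l p : ℕ) (hp : 2 ≤ p) : wA l p * (6 * p) = (NA l p : ℚ) := by
  have hp0 : (6 * (p : ℚ)) ≠ 0 := by
    have : (p : ℚ) ≠ 0 := by exact_mod_cast (by omega : p ≠ 0)
    exact mul_ne_zero (by norm_num) this
  unfold wA NA
  rw [div_mul_cancel₀ _ hp0]
  push_cast
  ring

theorem nt2_q (l p : ℕ) (hl : 2 ≤ l) (hp : 2 ≤ p) (s κ : ℤ) (h : nt1_ok s κ)
    (hx : ¬ (l = 2 ∧ p = 18 ∧ s = 48 ∧ κ = 24)) (x : ℚ)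
    (hxx : x * (6 * p) ^ 2 = (wA l p * (6 * p) + (s - κ) * p) * (wA l p * (6 * p) + (s + κ) * p)) :
    ¬ IsSquare x := by
  rintro ⟨y, hy⟩
  apply nt2_core l p hl hp s κ h hx
  rw [← Rat.isSquare_intCast_iff]
  refine ⟨y * (6 * p), ?_⟩
  push_cast
  rw [nt2_wA l p hp] at hxx
  rw [← hxx, hy]
  ring

theorem nt_pos (l p : ℕ) (hl : 2 ≤ l) (hp : 2 ≤ p) : 1 / 6 < wA l p := by
  have hp0 : (0 : ℚ) < 6 * p := by
    have : (0 : ℚ) < p := by exact_mod_cast (by omega : 0 < p)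
    linarith
  have hl1 : (2 : ℚ) ≤ l := by exact_mod_cast hl
  have hp1 : (2 : ℚ) ≤ p := by exact_mod_cast hp
  unfold wA
  rw [lt_div_iff₀ hp0]
  have h1 : (12 : ℚ) * l ≤ (l : ℚ) * (l + 1) * (l + 2) := by
    have : (0 : ℚ) ≤ l * ((l - 2) * (l + 5)) :=
      mul_nonneg (by linarith) (mul_nonneg (by linarith) (by linarith))
    nlinarith [this]
  have h2 : (12 : ℚ) * ((p : ℚ) - 1) ^ 2 ≥ p + 1 := by nlinarith
  have h3 : (12 : ℚ) * l * ((p : ℚ) - 1) ^ 2 ≤ (l : ℚ) * (l + 1) * (l + 2) * ((p : ℚ) - 1) ^ 2 :=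
    mul_le_mul_of_nonneg_right h1 (sq_nonneg _)
  have h4 : (l : ℚ) * (p + 1) ≤ l * (12 * ((p : ℚ) - 1) ^ 2) :=
    mul_le_mul_of_nonneg_left h2 (by linarith)
  nlinarith

theorem nt_R3 (l p : ℕ) (hl : 2 ≤ l) (hp : 2 ≤ p) : ¬ IsSquare (wA l p * (wA l p + 4)) := by
  refine nt2_q l p hl hp 12 12 (Or.inl ⟨rfl, rfl⟩) (by omega) _ ?_
  push_cast
  ring

theorem nt_m3 (l p : ℕ) (hl : 2 ≤ l) (hp : 2 ≤ p) (h : ¬ (l = 2 ∧ p = 18)) :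
    ¬ IsSquare ((4 * ((3 : ℕ) : ℚ) + wA l p) * (wA l p + 4)) ∧
    ¬ IsSquare ((4 * ((3 : ℕ) : ℚ) + wA l p) * wA l p) := by
  constructor
  · refine nt2_q l p hl hp 48 24 (Or.inr (Or.inr (Or.inr (Or.inr ⟨rfl, rfl⟩)))) (by omega) _ ?_
    push_cast
    ring
  · refine nt2_q l p hl hp 36 36 (Or.inr (Or.inl ⟨rfl, rfl⟩)) (by omega) _ ?_
    push_cast
    ring

theorem nt_m4 (l p : ℕ) (hl : 2 ≤ l) (hp : 2 ≤ p) :
    ¬ IsSquare ((4 * ((4 : ℕ) : ℚ) + wA l p) * (wA l p + 4)) ∧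
    ¬ IsSquare ((4 * ((4 : ℕ) : ℚ) + wA l p) * wA l p) := by
  constructor
  · refine nt2_q l p hl hp 60 36 (Or.inr (Or.inr (Or.inr (Or.inl ⟨rfl, rfl⟩)))) (by omega) _ ?_
    push_cast
    ring
  · refine nt2_q l p hl hp 48 48 (Or.inr (Or.inr (Or.inl ⟨rfl, rfl⟩))) (by omega) _ ?_
    push_cast
    ring

end WPQ
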