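import Pool.Agent.WPQ.LWD
import Pool.Agent.WPQ.SVD

/-! [WPQ-NT3] The exceptional case `(l, p) = (2, 18)`: `wA 2 18 = 1153 / 18`.

`nt_218`: `m ∈ {4, 5, 6}`: `(4m + w)(w + 4) = (1153 + 72 m) · 1225 / 324` and `(4m + w) w = (1153 + 72 m) · 1153 / 324`;
`Rat.isSquare_iff` or: a rational square times `324` is an integral square (`Rat.isSquare_intCast_iff`), and the six integers
`1225·1441, 1225·1513, 1225·1585, 1153·1441, 1153·1513, 1153·1585` are not squares (between consecutive squares).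
`nt_218h`: `hrs t r r = (r² - 1) (t - 1)² / (4t) = (r² - 1) · 1153 / 72` (`t ≠ 0` by `Irr`: `0 = t · 0`…, use
`KV.kv17_ne` or `ht 0 1`-type argument), so `72 h = 1153 (r² - 1)` in `ℕ`: impossible for `r = 2` (`3459`) and `r = 3` (`9224`). -/

namespace WPQ

open KV

theorem nt3_sq (q : ℚ) (n a : ℕ) (h : q * 324 = (n : ℚ)) (h1 : a * a < n)
    (h2 : n < (a + 1) * (a + 1)) : ¬ IsSquare q := by
  rintro ⟨r, hr⟩
  have h3 : IsSquare ((n : ℕ) : ℚ) := ⟨r * 18, by rw [← h, hr]; ring⟩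
  rw [Rat.isSquare_natCast_iff] at h3
  obtain ⟨c, hc⟩ := h3
  rw [hc] at h1 h2
  have h4 : a < c := Nat.mul_self_lt_mul_self_iff.1 h1
  have h5 : c < a + 1 := Nat.mul_self_lt_mul_self_iff.1 h2
  omega

theorem nt3_wA : wA 2 18 = 1153 / 18 := by
  unfold wA
  norm_num

theorem nt_218 (m : ℕ) (h4 : 4 ≤ m) (h6 : m ≤ 6) :
    ¬ IsSquare ((4 * (m : ℚ) + wA 2 18) * (wA 2 18 + 4)) ∧
    ¬ IsSquare ((4 * (m : ℚ) + wA 2 18) * wA 2 18) := by
  rw [nt3_wA]
  obtain rfl | rfl | rfl : m = 4 ∨ m = 5 ∨ m = 6 := by omega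
  · exact ⟨nt3_sq _ 1765225 1328 (by norm_num) (by norm_num) (by norm_num),
      nt3_sq _ 1661473 1288 (by norm_num) (by norm_num) (by norm_num)⟩
  · exact ⟨nt3_sq _ 1853425 1361 (by norm_num) (by norm_num) (by norm_num),
      nt3_sq _ 1744489 1320 (by norm_num) (by norm_num) (by norm_num)⟩
  · exact ⟨nt3_sq _ 1941625 1393 (by norm_num) (by norm_num) (by norm_num),
      nt3_sq _ 1827505 1351 (by norm_num) (by norm_num) (by norm_num)⟩

theorem nt_218h (t : ℂ) (ht : Irr t) (hw : (t - 1) ^ 2 / t = ((wA 2 18 : ℚ) : ℂ)) (h r : ℕ)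
    (hr : 2 ≤ r) (hh : (h : ℂ) = hrs t r r) : 4 ≤ r := by
  have ht0 : t ≠ 0 := kv17_ne ht
  have e1 : hrs t r r = ((r : ℂ) ^ 2 - 1) * ((t - 1) ^ 2 / t) / 4 := by
    unfold hrs
    field_simp
    ring
  rw [e1, hw, nt3_wA] at hh
  have e2 : ((72 * h + 1153 : ℕ) : ℂ) = ((1153 * r ^ 2 : ℕ) : ℂ) := by
    push_cast
    rw [hh]
    push_cast
    ring
  have e3 : 72 * h + 1153 = 1153 * r ^ 2 := by exact_mod_cast e2
  by_contra hlt
  obtain rfl | rfl : r = 2 ∨ r = 3 := by omega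
  · omega
  · omega

end WPQ
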