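import Pool.Agent.WPQ.LWD

/-! [WPQ-NT4] The Cartan matrix of type `A_l`.

`cartanA_ade`: `symm`, `diag`, `off` are immediate.  `pos`: with `c` extended by `0` (`C k = c ⟨k-1, _⟩` for `1 ≤ k ≤ l`, `C 0 = C (l+1) = 0`):
`∑ c_i A_ij c_j = ∑_{k=0}^{l} (C (k+1) - C k)²`; it is `≥ 0`, and if it is `0` then `C` is constant, so `c = 0`.
(Another way: induction on `l` with the stronger statement `∑ c_i A_ij c_j ≥ c_{l-1}² · (something)`; or write
`∑_j A_ij c_j = 2 c_i - c_{i-1} - c_{i+1}`.)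
`nt4_sum`: `∑_j A_ij u_j = 2` for `u_j = (j+1)(l-j)`: `2 u_i - u_{i-1} - u_{i+1} = 2` also at the ends, since the formula gives `u_{-1} = u_l = 0`.
`nt4_S`: `6 ∑_{j<l} (j+1)(l-j) = l (l+1) (l+2)`, induction on `l` (`Fin.sum_univ_eq_sum_range`). -/

namespace WPQ

theorem nt4_row (l : ℕ) (i : Fin l) (f : Fin l → ℤ) (F : ℕ → ℤ) (h0 : F 0 = 0)
    (hl : F (l + 1) = 0) (hF : ∀ j : Fin l, F ((j : ℕ) + 1) = f j) :
    ∑ j, cartanA l i j * f j = 2 * F ((i : ℕ) + 1) - F (i : ℕ) - F ((i : ℕ) + 2) := by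
  have e : ∀ j : Fin l, cartanA l i j * f j =
      2 * (if j = i then f j else 0) - (if (j : ℕ) + 1 = (i : ℕ) then f j else 0) -
        (if (i : ℕ) + 1 = (j : ℕ) then f j else 0) := by
    intro j
    unfold cartanA
    by_cases h1 : i = j
    · subst h1
      simp
    · have h1' : ¬ j = i := fun h => h1 h.symm
      rw [if_neg h1, if_neg h1']
      by_cases h2 : (i : ℕ) + 1 = (j : ℕ)
      · have h3 : ¬ (j : ℕ) + 1 = (i : ℕ) := by omega
        rw [if_pos (Or.inl h2), if_neg h3, if_pos h2]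
        ring
      · by_cases h3 : (j : ℕ) + 1 = (i : ℕ)
        · rw [if_pos (Or.inr h3), if_pos h3, if_neg h2]
          ring
        · rw [if_neg (by tauto), if_neg h3, if_neg h2]
          ring
  rw [Finset.sum_congr rfl fun j _ => e j, Finset.sum_sub_distrib, Finset.sum_sub_distrib,
    ← Finset.mul_sum, Finset.sum_ite_eq' Finset.univ i f, if_pos (Finset.mem_univ i), hF i]
  have e2 : ∑ j : Fin l, (if (j : ℕ) + 1 = (i : ℕ) then f j else 0) = F (i : ℕ) := by
    rcases Nat.eq_zero_or_pos (i : ℕ) with h | h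
    · rw [h, h0]
      refine Finset.sum_eq_zero fun j _ => ?_
      rw [if_neg (by omega)]
    · have hi : (i : ℕ) - 1 < l := by omega
      rw [Finset.sum_eq_single (⟨(i : ℕ) - 1, hi⟩ : Fin l)]
      · have h2 : (i : ℕ) - 1 + 1 = (i : ℕ) := by omega
        have h3 := hF ⟨(i : ℕ) - 1, hi⟩
        rw [if_pos h2, ← h3]
        exact congrArg F h2
      · intro j _ hj
        rw [if_neg]
        intro h2
        apply hj
        apply Fin.ext
        show (j : ℕ) = (i : ℕ) - 1
        omega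
      · intro h2
        exact absurd (Finset.mem_univ _) h2
  have e3 : ∑ j : Fin l, (if (i : ℕ) + 1 = (j : ℕ) then f j else 0) = F ((i : ℕ) + 2) := by
    by_cases h : (i : ℕ) + 1 < l
    · rw [Finset.sum_eq_single (⟨(i : ℕ) + 1, h⟩ : Fin l)]
      · have h3 := hF ⟨(i : ℕ) + 1, h⟩
        rw [if_pos rfl, ← h3]
      · intro j _ hj
        rw [if_neg]
        intro h2
        apply hj
        apply Fin.ext
        show (j : ℕ) = (i : ℕ) + 1
        omega
      · intro h2
        exact absurd (Finset.mem_univ _) h2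
    · have h2 : (i : ℕ) + 2 = l + 1 := by
        have := i.2
        omega
      rw [h2, hl]
      refine Finset.sum_eq_zero fun j _ => ?_
      rw [if_neg]
      have := j.2
      omega
  rw [e2, e3]

theorem nt4_tele (F : ℕ → ℤ) (n : ℕ) :
    ∑ k ∈ Finset.range n, F (k + 1) * (2 * F (k + 1) - F k - F (k + 2)) =
      ∑ k ∈ Finset.range n, (F (k + 1) - F k) ^ 2 + (F n ^ 2 - F n * F (n + 1)) -
        (F 0 ^ 2 - F 0 * F 1) := by
  induction n with
  | zero => simp
  | succ n ih =>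
    rw [Finset.sum_range_succ, Finset.sum_range_succ, ih]
    ring

/-- the extension by zero -/
def nt4_ext (l : ℕ) (c : Fin l → ℤ) : ℕ → ℤ
  | 0 => 0
  | k + 1 => if h : k < l then c ⟨k, h⟩ else 0

theorem cartanA_ade (l : ℕ) : IsADE (cartanA l) := by
  refine ⟨?_, ?_, ?_, ?_⟩
  · intro i j
    unfold cartanA
    by_cases h : i = j
    · rw [if_pos h, if_pos h.symm]
    · rw [if_neg h, if_neg (Ne.symm h)]
      by_cases h2 : (i : ℕ) + 1 = j ∨ (j : ℕ) + 1 = i
      · rw [if_pos h2, if_pos h2.symm]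
      · rw [if_neg h2, if_neg fun h3 => h2 h3.symm]
  · intro i
    unfold cartanA
    rw [if_pos rfl]
  · intro i j hij
    unfold cartanA
    rw [if_neg hij]
    by_cases h2 : (i : ℕ) + 1 = j ∨ (j : ℕ) + 1 = i
    · rw [if_pos h2]
      exact Or.inr rfl
    · rw [if_neg h2]
      exact Or.inl rfl
  · intro c hc
    have hl : nt4_ext l c (l + 1) = 0 := by
      show (if h : l < l then c ⟨l, h⟩ else 0) = 0
      rw [dif_neg (lt_irrefl l)]
    have hF : ∀ j : Fin l, nt4_ext l c ((j : ℕ) + 1) = c j := by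
      intro j
      show (if h : (j : ℕ) < l then c ⟨(j : ℕ), h⟩ else 0) = c j
      rw [dif_pos j.2]
    have h1 : ∑ i, ∑ j, c i * cartanA l i j * c j =
        ∑ k ∈ Finset.range l, nt4_ext l c (k + 1) *
          (2 * nt4_ext l c (k + 1) - nt4_ext l c k - nt4_ext l c (k + 2)) := by
      rw [Finset.sum_range]
      refine Finset.sum_congr rfl fun i _ => ?_
      rw [← nt4_row l i c (nt4_ext l c) rfl hl hF, hF i, Finset.mul_sum]
      refine Finset.sum_congr rfl fun j _ => ?_
      ring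
    rw [h1, nt4_tele, hl]
    have h0 : nt4_ext l c 0 = 0 := rfl
    rw [h0]
    have hnn : 0 ≤ ∑ k ∈ Finset.range l, (nt4_ext l c (k + 1) - nt4_ext l c k) ^ 2 :=
      Finset.sum_nonneg fun k _ => sq_nonneg _
    have hsq := sq_nonneg (nt4_ext l c l)
    by_contra hneg
    apply hc
    have hz : ∑ k ∈ Finset.range l, (nt4_ext l c (k + 1) - nt4_ext l c k) ^ 2 = 0 := by
      nlinarith
    have hz2 := (Finset.sum_eq_zero_iff_of_nonneg fun k _ => sq_nonneg _).1 hz
    have hz3 : ∀ k : ℕ, k ≤ l → nt4_ext l c k = 0 := by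
      intro k
      induction k with
      | zero => intro _; exact h0
      | succ k ih =>
        intro hk
        have h2 := hz2 k (Finset.mem_range.2 (by omega))
        have h3 := pow_eq_zero_iff (two_ne_zero) |>.1 h2
        have h4 := ih (by omega)
        linarith
    funext j
    rw [Pi.zero_apply, ← hF j]
    exact hz3 _ (by have := j.2; omega)

theorem nt4_sum (l : ℕ) (i : Fin l) :
    ∑ j, cartanA l i j * (((j : ℕ) : ℤ) + 1) * ((l : ℤ) - ((j : ℕ) : ℤ)) = 2 := by
  have h := nt4_row l i (fun j => (((j : ℕ) : ℤ) + 1) * ((l : ℤ) - ((j : ℕ) : ℤ)))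
    (fun k => (k : ℤ) * ((l : ℤ) + 1 - (k : ℤ))) (by simp) (by push_cast; ring)
    (fun j => by push_cast; ring)
  rw [Finset.sum_congr rfl fun j _ => mul_assoc (cartanA l i j) _ _, h]
  push_cast
  ring

theorem nt4_S (l : ℕ) :
    6 * ∑ j : Fin l, (((j : ℕ) : ℤ) + 1) * ((l : ℤ) - ((j : ℕ) : ℤ)) = (l : ℤ) * (l + 1) * (l + 2) := by
  have h : ∀ n : ℕ, 6 * ∑ j ∈ Finset.range n, ((j : ℤ) + 1) * ((l : ℤ) - (j : ℤ)) =
      3 * (l : ℤ) * n * (n + 1) - 2 * ((n : ℤ) - 1) * n * (n + 1) := by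
    intro n
    induction n with
    | zero => simp
    | succ n ih =>
      rw [Finset.sum_range_succ, mul_add, ih]
      push_cast
      ring
  have h2 := h l
  rw [Finset.sum_range] at h2
  rw [h2]
  ring

end WPQ
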