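import Pool.Agent.WPQ.NT2
import Pool.Agent.WPQ.NT4
import Pool.Agent.WPQ.AR3
import Pool.Agent.WPQ.SVD

namespace WPQ

open MvPolynomial KV

noncomputable section

/-- The parameter `t`. -/
theorem nt_t (l p : ℕ) (hl : 2 ≤ l) (hp : 2 ≤ p) : ∃ t : ℂ, Irr t ∧
    WPQ.cc (cartanA l) p = KV.cc t ∧ (t - 1) ^ 2 / t = ((wA l p : ℚ) : ℂ) ∧
    ∀ h r s : ℕ, 1 ≤ r → 1 ≤ s → (h : ℂ) = hrs t r s → r = s := by
  have hw0 : (0 : ℚ) < wA l p := lt_trans (by norm_num) (nt_pos l p hl hp)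
  have hR := nt_R3 l p hl hp
  set w : ℚ := wA l p with hwdef
  have hwR : (0 : ℝ) < (w : ℝ) := by exact_mod_cast hw0
  -- real root
  set d : ℝ := Real.sqrt ((w : ℝ) * (w + 4)) with hd
  have hd2 : d ^ 2 = (w : ℝ) * (w + 4) := Real.sq_sqrt (by positivity)
  set T : ℝ := ((w : ℝ) + 2 + d) / 2 with hT
  have hTq : T ^ 2 - ((w : ℝ) + 2) * T + 1 = 0 := by
    rw [hT]
    nlinarith [hd2]
  have hTpos : 0 < T := by
    have : 0 ≤ d := Real.sqrt_nonneg _
    rw [hT]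
    linarith
  have hT0 : T ≠ 0 := hTpos.ne'
  have hTirr : ∀ a b : ℤ, (a : ℝ) = T * b → a = 0 ∧ b = 0 := by
    intro a b hab
    have hb : b = 0 := by
      by_contra hb
      apply hR
      have hbR : (b : ℝ) ≠ 0 := by exact_mod_cast hb
      have hTab : T = (((a : ℚ) / b : ℚ) : ℝ) := by
        push_cast
        rw [eq_div_iff hbR]
        exact hab.symm
      have hdq : d = ((2 * ((a : ℚ) / b) - (w + 2) : ℚ) : ℝ) := by
        have h1 : d = 2 * T - (w + 2) := by rw [hT]; ring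
        rw [h1, hTab]
        push_cast
        ring
      refine ⟨2 * ((a : ℚ) / b) - (w + 2), ?_⟩
      have h2 := hd2
      rw [hdq] at h2
      have h3 : (2 * ((a : ℚ) / b) - (w + 2)) ^ 2 = w * (w + 4) := by exact_mod_cast h2
      rw [← h3]
      ring
    refine ⟨?_, hb⟩
    rw [hb] at hab
    simp at hab
    exact hab
  have hpR : (p : ℂ) ≠ 0 := by
    have : p ≠ 0 := by omega
    exact_mod_cast this
  have hTC : (T : ℂ) ≠ 0 := by exact_mod_cast hT0
  have hTqC : (T : ℂ) ^ 2 - ((w : ℂ) + 2) * T + 1 = 0 := by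
    have := congrArg (fun x : ℝ => (x : ℂ)) hTq
    push_cast at this
    exact this
  have hwt : ((T : ℂ) - 1) ^ 2 / T = (w : ℂ) := by
    rw [div_eq_iff hTC]
    linear_combination hTqC
  have hirrC : Irr (T : ℂ) := by
    intro a b hab
    apply hTirr a b
    exact_mod_cast hab
  refine ⟨(T : ℂ), hirrC, ?_, hwt, ?_⟩
  · unfold WPQ.cc KV.cc
    rw [AR.form_bg_bg (cartanA l) (cartanA_ade l) p (by omega) 2
      (fun j => (((j : ℕ) : ℤ) + 1) * ((l : ℤ) - ((j : ℕ) : ℤ))) (by norm_num)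
      (fun j => by
        rw [← nt4_sum l j]
        refine Finset.sum_congr rfl fun i _ => ?_
        ring)]
    have h6 := nt4_S l
    have h6C : 6 * (((∑ j : Fin l, (((j : ℕ) : ℤ) + 1) * ((l : ℤ) - ((j : ℕ) : ℤ)) : ℤ)) : ℂ) =
        (l : ℂ) * (l + 1) * (l + 2) := by exact_mod_cast congrArg (fun x : ℤ => (x : ℂ)) h6
    have hwC : (w : ℂ) = ((l : ℂ) * (l + 1) * (l + 2) * ((p : ℂ) - 1) ^ 2 - ((l : ℂ) - 1) * p) / (6 * p) := by
      rw [hwdef, wA]
      push_cast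
      ring
    have h7 : 1 - 6 * ((T : ℂ) - 1) ^ 2 / T = 1 - 6 * (w : ℂ) := by
      rw [← hwt]
      ring
    rw [h7, hwC, Fintype.card_fin]
    set S : ℂ := (((∑ j : Fin l, (((j : ℕ) : ℤ) + 1) * ((l : ℤ) - ((j : ℕ) : ℤ)) : ℤ)) : ℂ) with hS
    have h8 : S = (l : ℂ) * (l + 1) * (l + 2) / 6 := by
      rw [eq_div_iff (by norm_num)]
      linear_combination h6C
    rw [h8]
    push_cast
    field_simp
    ring
  · intro h r s hr hs hh
    by_contra hne
    unfold hrs at hh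
    have h1 : (4 * (h : ℂ)) * T = ((s : ℂ) ^ 2 - 1) * T ^ 2 + ((r : ℂ) ^ 2 - 1) -
        2 * ((r : ℂ) * s - 1) * T := by
      rw [hh]
      field_simp
    -- substitute `T ^ 2 = (w + 2) T - 1`
    have h2 : (((r : ℂ) ^ 2 - (s : ℂ) ^ 2)) = (4 * (h : ℂ) - ((s : ℂ) ^ 2 - 1) * (w + 2) +
        2 * ((r : ℂ) * s - 1)) * T := by
      linear_combination (-1 : ℂ) * h1 - ((s : ℂ) ^ 2 - 1) * hTqC
    have h3 : w = (w.num : ℚ) / w.den := (Rat.num_div_den w).symm
    have hden : (w.den : ℂ) ≠ 0 := by exact_mod_cast w.den_ne_zero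
    have h3C : (w : ℂ) = (w.num : ℂ) / w.den := by exact_mod_cast congrArg (fun x : ℚ => (x : ℂ)) h3
    have h4 : (((((r : ℤ) ^ 2 - (s : ℤ) ^ 2) * w.den : ℤ)) : ℂ) = T *
        (((4 * (h : ℤ) * w.den - ((s : ℤ) ^ 2 - 1) * (w.num + 2 * w.den) +
        2 * ((r : ℤ) * s - 1) * w.den : ℤ)) : ℂ) := by
      push_cast
      rw [h2, h3C]
      field_simp
    have h5 := (hirrC _ _ h4).1
    have h6 : ((r : ℤ) ^ 2 - (s : ℤ) ^ 2) = 0 := by
      rcases mul_eq_zero.mp h5 with h | h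
      · exact h
      · exact absurd (by exact_mod_cast h) w.den_ne_zero
    have h7 : (r : ℤ) ^ 2 = (s : ℤ) ^ 2 := by linarith
    have h8 : (r : ℤ) = s := by
      rcases sq_eq_sq_iff_eq_or_eq_neg.mp h7 with h | h
      · exact h
      · omega
    exact hne (by exact_mod_cast h8)

end

end WPQ
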