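import Mathlib

/-! WPQ part C, block NT: definitions. -/

namespace WPQ

/-- `N = 6 p w` for `A_l`. -/
def NA (l p : ℕ) : ℤ := (l : ℤ) * (l + 1) * (l + 2) * ((p : ℤ) - 1) ^ 2 - ((l : ℤ) - 1) * p

end WPQ
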