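import Pool.Agent.WPQ.NT2
import Pool.Agent.WPQ.NT3
import Pool.Agent.WPQ.NT5

/-! WPQ part C, block NT (architect: helper32).  Proofs: WPQ_planC.md, C8. -/
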