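import Pool.Agent.WPQ.DefsB
import Pool.Agent.WPQ.FI2
import Pool.Agent.WPQ.AR2

/-! [WPQ-PV1] Virasoro relations on `V_L`, the conformal vector.

Plan.  `LS_comm`: `X = [L(m),L(n)] - (m-n) L(m+n)` commutes with all `expS ε zero γ k` (Jacobi and
`LS_expS`) and with all `hS zero h k` up to the scalar from `LS_hS`: precisely
`[X, hS h k]` = 0 as well (the terms `k(k+1)⟨a,h⟩` cancel: compute with `LS_hS`).  So `X` is determined
by `X vac` (`generated`; `X` commutes with all generators).  `X vac` has charge `0` and weight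
`-(m+n)`; if `m + n > 0` it is `0` (weights of charge `0` are `≥ 0`; `LS_vac`); if `m+n < 0` or `= 0` use:
`X vac` is killed by all `expS γ k`, `k ≥ 0`, and all `hS h k`, `k ≥ 0` (they commute with `X` and kill
`vac`), and a vector of `F_0` killed by all `hS h k`, `k ≥ 1` is a constant; so `X vac = c0 vac`,
`c0 = 0` unless `m + n = 0` (degree), and `X = c0 • id`.  For `m = -n = k > 0` compute
`c0 = top0 (L(k) L(-k) vac)` (`top0 (L(-k) ..) = 0`, `L(k) vac = 0`, `L(0) vac = 0`) explicitly: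
`L(-k) 1 = k (k-1) osc a (k-1) + (1/2) ∑_n (n+1)(k-1-n) ∑_i osc (dual i) n X(i,k-2-n)`, and
`Lop A p 0 k` of it is `-(k+1)k(k-1)⟨a,a⟩ + (card ι) (k³-k)/12`.
`omegaV_eq`: `LS zero (-2) vac`, unfold `Lop` at `k = -2` on `1` (`heis` of `s = 0`:
`0 - (-2+1) • bg = bg`); `dualVec = dual`, `bgVec = bg` (unfold `rho`, `Matrix.mulVec`). -/

namespace WPQ

open MvPolynomial AF

noncomputable section

variable {ι : Type} [Fintype ι] [DecidableEq ι] {A : Matrix ι ι ℤ} {p : ℕ}

/-- the difference of the two sides of the Virasoro relation, without the central term -/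
def pv1_X {V : Type} [AddCommGroup V] [Module ℂ V] (L : ℤ → V →ₗ[ℂ] V) (m n : ℤ) : V →ₗ[ℂ] V :=
  (L m ∘ₗ L n - L n ∘ₗ L m) - ((m : ℂ) - n) • L (m + n)

theorem pv1_X_apply {V : Type} [AddCommGroup V] [Module ℂ V] (L : ℤ → V →ₗ[ℂ] V) (m n : ℤ) (v : V) :
    pv1_X L m n v = L m (L n v) - L n (L m v) - ((m : ℂ) - n) • L (m + n) v := rfl

theorem pv1_X_exp {V : Type} [AddCommGroup V] [Module ℂ V] (L e : ℤ → V →ₗ[ℂ] V) (D : ℂ)
    (key : ∀ (k n : ℤ) (v : V), L k (e n v) - e n (L k v) =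
      (((k : ℂ) + 1) * (D - 1) - n) • e (n + k) v) (m n j : ℤ) (v : V) :
    pv1_X L m n (e j v) = e j (pv1_X L m n v) := by
  have hk : ∀ (k n : ℤ) (v : V), L k (e n v) = e n (L k v) +
      (((k : ℂ) + 1) * (D - 1) - n) • e (n + k) v := by
    intro k n v
    rw [← key k n v]
    abel
  rw [pv1_X_apply, pv1_X_apply, hk n j v, hk m j v, hk (m + n) j v, map_add, map_add, map_smul,
    map_smul, hk m j (L n v), hk n j (L m v), hk m (j + n) v, hk n (j + m) v, map_sub, map_sub,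
    map_smul]
  have e1 : j + n + m = j + (m + n) := by ring
  have e2 : j + m + n = j + (m + n) := by ring
  rw [e1, e2]
  push_cast
  module

theorem pv1_X_heis {V : Type} [AddCommGroup V] [Module ℂ V] (L e : ℤ → V →ₗ[ℂ] V) (D : ℂ)
    (key : ∀ (k n : ℤ) (v : V), L k (e n v) - e n (L k v) =
      (-(n : ℂ)) • e (n + k) v - (if n + k = 0 then (k : ℂ) * (k + 1) * D else 0) • v)
    (m n j : ℤ) (v : V) :
    pv1_X L m n (e j v) = e j (pv1_X L m n v) := by
  have hk : ∀ (k n : ℤ) (v : V), L k (e n v) = e n (L k v) +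
      ((-(n : ℂ)) • e (n + k) v - (if n + k = 0 then (k : ℂ) * (k + 1) * D else 0) • v) := by
    intro k n v
    rw [← key k n v]
    abel
  rw [pv1_X_apply, pv1_X_apply, hk n j v, hk m j v, hk (m + n) j v, map_add, map_add, map_sub,
    map_sub, map_smul, map_smul, map_smul, map_smul, hk m j (L n v), hk n j (L m v),
    hk m (j + n) v, hk n (j + m) v, map_sub, map_sub, map_smul]
  have e1 : j + n + m = j + (m + n) := by ring
  have e2 : j + m + n = j + (m + n) := by ring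
  rw [e1, e2]
  by_cases h0 : j + (m + n) = 0
  · simp only [if_pos h0]
    have h6 : (j : ℂ) = -(m + n) := by
      have h7 : j = -(m + n) := by omega
      rw [h7]
      push_cast
      ring
    push_cast
    rw [h6]
    module
  · simp only [if_neg h0]
    push_cast
    module

theorem pv1_sum (K : ℕ) :
    ∑ n ∈ Finset.range K, ((n : ℂ) + 1) * ((K : ℂ) - n) = ((K : ℂ) + 1) * ((K : ℂ) + 2) * K / 6 := by
  have h : ∀ (N : ℕ) (c : ℂ), ∑ n ∈ Finset.range N, ((n : ℂ) + 1) * (c - n) =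
      c * ((N : ℂ) * (N + 1) / 2) - (N : ℂ) * ((N : ℂ) ^ 2 - 1) / 3 := by
    intro N c
    induction N with
    | zero =>
      rw [Finset.sum_range_zero]
      push_cast
      ring
    | succ N ih =>
      rw [Finset.sum_range_succ, ih]
      push_cast
      ring
  rw [h]
  ring

/-- `L(-K) 1` -/
theorem pv1_Lneg (A : Matrix ι ι ℤ) (p : ℕ) (K : ℕ) (hK : 0 < K) :
    Lop A p 0 (-(K : ℤ)) 1 = C ((K : ℂ) * ((K : ℂ) - 1)) * osc (bg A p) (K - 1) +
      C (1 / 2 : ℂ) * fw9_Q A p K := by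
  rw [fw9_Lop_neg A p 0 K hK, mul_one, mul_one, Derivation.map_one_eq_zero, zero_add]
  have e : (0 : ι → ℂ) - (1 - (K : ℂ)) • bg A p = ((K : ℂ) - 1) • bg A p := by
    rw [zero_sub, ← neg_smul]
    congr 1
    ring
  have e2 : osc (((K : ℂ) - 1) • bg A p) (K - 1) = C ((K : ℂ) - 1) * osc (bg A p) (K - 1) := by
    unfold osc
    rw [Finset.mul_sum]
    refine Finset.sum_congr rfl fun i _ => ?_
    rw [Pi.smul_apply, smul_eq_mul, map_mul, mul_assoc]
  rw [e, e2, smul_eq_C_mul, smul_eq_C_mul, map_mul, mul_assoc]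

theorem pv1_D_osc (k : ℕ) (v : ι → ℂ) (j : ℕ) (h : j < k) : fw9_D (k : ℤ) (osc v j) = 0 := by
  rw [fw9_D_osc, if_neg (by omega)]

theorem pv1_D_Q (A : Matrix ι ι ℤ) (p : ℕ) (K : ℕ) : fw9_D (K : ℤ) (fw9_Q A p K) = 0 := by
  unfold fw9_Q
  rw [map_sum]
  refine Finset.sum_eq_zero fun n hn => ?_
  rw [Finset.mem_range] at hn
  rw [map_sum]
  refine Finset.sum_eq_zero fun i _ => ?_
  rw [← fw9_osc_bb, Derivation.leibniz, Derivation.leibniz, pv1_D_osc K _ _ (by omega),
    pv1_D_osc K _ _ (by omega), ← algebraMap_eq, Derivation.map_algebraMap]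
  simp only [smul_zero, add_zero]

theorem pv1_form_smul_right (A : Matrix ι ι ℤ) (p : ℕ) (c : ℂ) (ν η : ι → ℂ) :
    form A p ν (c • η) = c * form A p ν η := fw8_form_smul_right A p c ν η

/-- `L(K) L(-K) 1` -/
theorem pv1_top (A : Matrix ι ι ℤ) (hA : IsADE A) (p : ℕ) (hp : 1 ≤ p) (K : ℕ) (hK : 0 < K) :
    Lop A p 0 (K : ℤ) (Lop A p 0 (-(K : ℤ)) 1) = C (cc A p / 12 * ((K : ℂ) ^ 3 - K)) := by
  have hKi : (0 : ℤ) < (K : ℤ) := by exact_mod_cast hK
  -- on the linear part
  have h1 : Lop A p 0 (K : ℤ) (osc (bg A p) (K - 1)) =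
      C (-((K : ℂ) + 1) * form A p (bg A p) (bg A p)) := by
    rw [fw9_Lop_pos A p 0 (K : ℤ) hKi, pv1_D_osc K _ _ (by omega), zero_add, fw9_dH_osc,
      if_pos (by omega)]
    have h2 : ∑ n ∈ Finset.range ((K : ℤ).toNat - 1), ∑ i : ι,
        pderiv (i, n) (fw9_dH A p (bb i) ((K : ℤ).toNat - 2 - n) (osc (bg A p) (K - 1))) = 0 := by
      refine Finset.sum_eq_zero fun n hn => Finset.sum_eq_zero fun i _ => ?_
      rw [Finset.mem_range, Int.toNat_natCast] at hn
      rw [Int.toNat_natCast, fw9_dH_osc, if_neg (by omega), map_zero]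
    rw [h2, smul_zero, add_zero]
    congr 1
    have e : (0 : ι → ℂ) - (((K : ℤ) : ℂ) + 1) • bg A p = (-((K : ℂ) + 1)) • bg A p := by
      rw [zero_sub, ← neg_smul, Int.cast_natCast]
    rw [e, pv1_form_smul_right]
  have h3 : Lop A p 0 (K : ℤ) (fw9_Q A p K) =
      C ((Fintype.card ι : ℂ) * (((K : ℂ) ^ 3 - K) / 6)) := by
    rw [fw9_Lop_pos A p 0 (K : ℤ) hKi, pv1_D_Q, zero_add, fw9_dH_Q A hA p hp,
      if_neg (by omega), zero_add]
    have h4 : ∀ n ∈ Finset.range ((K : ℤ).toNat - 1), ∑ i : ι,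
        pderiv (i, n) (fw9_dH A p (bb i) ((K : ℤ).toNat - 2 - n) (fw9_Q A p K)) =
        (C ((Fintype.card ι : ℂ) * (2 * (((n : ℂ) + 1) * (((K - 1 : ℕ) : ℂ) - n)))) : Fock ι) := by
      intro n hn
      rw [Finset.mem_range, Int.toNat_natCast] at hn
      have h5 : ∀ i : ι, pderiv (i, n) (fw9_dH A p (bb i) ((K : ℤ).toNat - 2 - n) (fw9_Q A p K)) =
          (C (2 * (((n : ℂ) + 1) * (((K - 1 : ℕ) : ℂ) - n))) : Fock ι) := by
        intro i
        rw [Int.toNat_natCast, fw9_dH_Q A hA p hp, if_pos (by omega)]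
        have e1 : K - 2 - (K - 2 - n) = n := by omega
        have e2 : ((K - 2 - n : ℕ) : ℂ) = (K : ℂ) - 2 - n := by
          rw [Nat.cast_sub (by omega), Nat.cast_sub (by omega)]
          push_cast
          ring
        have e3 : ((K - 1 : ℕ) : ℂ) = (K : ℂ) - 1 := by
          rw [Nat.cast_sub (by omega)]
          push_cast
          ring
        rw [e1, e2, e3, fw9_osc_bb, Derivation.leibniz, fw9_pd_X, if_pos ⟨rfl, rfl⟩,
          ← algebraMap_eq, Derivation.map_algebraMap, smul_zero, add_zero, smul_eq_mul, mul_one]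
        congr 1
        ring
      rw [Finset.sum_congr rfl fun i _ => h5 i, Finset.sum_const, Finset.card_univ,
        nsmul_eq_mul, ← map_natCast (C : ℂ →+* Fock ι), ← map_mul]
    rw [Finset.sum_congr rfl h4, ← map_sum, smul_eq_C_mul, ← map_mul]
    congr 1
    rw [← Finset.mul_sum, ← Finset.mul_sum, Int.toNat_natCast, pv1_sum (K - 1)]
    have e3 : ((K - 1 : ℕ) : ℂ) = (K : ℂ) - 1 := by
      rw [Nat.cast_sub (by omega)]
      push_cast
      ring
    rw [e3]
    ring
  rw [pv1_Lneg A p K hK, map_add, ← smul_eq_C_mul, ← smul_eq_C_mul, map_smul, map_smul, h1, h3,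
    smul_eq_C_mul, smul_eq_C_mul, ← map_mul, ← map_mul, ← map_add]
  congr 1
  unfold cc
  ring

theorem pv1_Lone (A : Matrix ι ι ℤ) (p : ℕ) (m : ℤ) (hm : 0 ≤ m) : Lop A p 0 m 1 = 0 := by
  rcases hm.eq_or_lt with h | h
  · rw [← h, Lop_zero_homog A p 0 1 0 (isWeightedHomogeneous_one _ _)]
    have e1 : form A p 0 (0 : ι → ℂ) = 0 := by simp [form]
    have e2 : form A p (bg A p) (0 : ι → ℂ) = 0 := by simp [form]
    rw [e1, e2]
    push_cast
    rw [mul_zero, add_zero, sub_zero, zero_smul]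
  · exact Lop_one_pos A p 0 m h

theorem pv1_LLone_homog (A : Matrix ι ι ℤ) (p : ℕ) (m n : ℤ) (d : ℕ) (hd : (d : ℤ) = -(m + n)) :
    FH (Lop A p 0 m (Lop A p 0 n 1)) d := by
  have hone : FH (1 : Fock ι) 0 := isWeightedHomogeneous_one _ _
  by_cases hn : 0 ≤ n
  · rw [pv1_Lone A p n hn, map_zero]
    exact isWeightedHomogeneous_zero _ _ _
  · have h1 : FH (Lop A p 0 n 1) (-n).toNat := Lop_homog A p 0 n 1 0 _ hone (by push_cast; omega)
    exact Lop_homog A p 0 m _ (-n).toNat _ h1 (by omega)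

/-- the vector `X vac` -/
def pv1_g (A : Matrix ι ι ℤ) (p : ℕ) (m n : ℤ) : Fock ι :=
  Lop A p 0 m (Lop A p 0 n 1) - Lop A p 0 n (Lop A p 0 m 1) - ((m : ℂ) - n) • Lop A p 0 (m + n) 1

theorem pv1_X_vac_eq (m n : ℤ) :
    pv1_X (LS (Shift.zero A p)) m n (vac : VL ι) = Finsupp.single 0 (pv1_g A p m n) := by
  have hs : (Shift.zero A p).s + toC (0 : ι → ℤ) = 0 := by
    rw [fl2_zero_s, fl2_toC_zero, add_zero]
  rw [pv1_X_apply]
  unfold vac pv1_g
  rw [fl5_LS_single, fl5_LS_single, fl5_LS_single, fl5_LS_single, fl5_LS_single, hs,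
    Finsupp.smul_single, ← Finsupp.single_sub, ← Finsupp.single_sub]

theorem pv1_g_pos (m n : ℤ) (h : 0 < m + n) : pv1_g A p m n = 0 := by
  have h2 : ∀ m n : ℤ, 0 < m + n → Lop A p 0 m (Lop A p 0 n (1 : Fock ι)) = 0 := by
    intro m n h
    by_cases hn : 0 ≤ n
    · rw [pv1_Lone A p n hn, map_zero]
    · have h1 : FH (Lop A p 0 n (1 : Fock ι)) (-n).toNat :=
        Lop_homog A p 0 n 1 0 _ (isWeightedHomogeneous_one _ _) (by push_cast; omega)
      exact Lop_eq_zero A p 0 m _ _ h1 (by omega)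
  unfold pv1_g
  rw [h2 m n h, h2 n m (by omega), pv1_Lone A p (m + n) h.le, smul_zero, sub_zero, sub_zero]

theorem pv1_g_neg (hA : IsADE A) (hp : 1 ≤ p) (m n : ℤ) (h : m + n < 0) : pv1_g A p m n = 0 := by
  have hgh : FH (pv1_g A p m n) (-(m + n)).toNat := by
    unfold pv1_g
    refine IsWeightedHomogeneous.sub (IsWeightedHomogeneous.sub ?_ ?_) ?_
    · exact pv1_LLone_homog A p m n _ (by omega)
    · exact pv1_LLone_homog A p n m _ (by omega)
    · rw [smul_eq_C_mul]
      have h1 : FH (Lop A p 0 (m + n) 1) (-(m + n)).toNat :=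
        Lop_homog A p 0 (m + n) 1 0 _ (isWeightedHomogeneous_one _ _) (by push_cast; omega)
      have h2 := IsWeightedHomogeneous.mul
        (isWeightedHomogeneous_C (wF (ι := ι)) ((m : ℂ) - n)) h1
      rwa [zero_add] at h2
  refine fl5_pd (pv1_g A p m n) _ (by omega) hgh ?_
  rintro ⟨j, k⟩
  have h1 : heisMode A p (dual A p j) (k + 1) (pv1_X (LS (Shift.zero A p)) m n (vac : VL ι)) =
      0 := by
    rw [← pv1_X_heis (LS (Shift.zero A p)) (heisMode A p (dual A p j))
      (form A p (bg A p) (dual A p j)) (fl5_key_heis hA hp (dual A p j)) m n (k + 1) vac,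
      ← hS_zero, hS_vac_nonneg (dual A p j) (k + 1) (by omega), map_zero]
  rw [pv1_X_vac_eq, fl5_heis_single, Finsupp.single_eq_zero] at h1
  unfold heis at h1
  rw [if_neg (by omega), if_neg (by omega)] at h1
  have h2 : ((k : ℤ) + 1 - 1).toNat = k := by omega
  rw [h2, LinearMap.sum_apply, Finset.sum_eq_single j] at h1
  · have h3 : form A p (Pi.single j 1) (dual A p j) = 1 := by
      have h4 := form_dual A hA p hp j j
      rw [if_pos rfl, form_symm A hA.symm] at h4
      exact h4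
    rw [LinearMap.smul_apply, h3, one_smul] at h1
    exact h1
  · intro b _ hb
    have h3 : form A p (Pi.single b 1) (dual A p j) = 0 := by
      have h4 := form_dual A hA p hp j b
      rw [if_neg (fun h => hb h.symm), form_symm A hA.symm] at h4
      exact h4
    rw [LinearMap.smul_apply, h3, zero_smul]
  · intro h
    exact absurd (Finset.mem_univ j) h

theorem pv1_g_swap (m n : ℤ) : pv1_g A p m n = -pv1_g A p n m := by
  unfold pv1_g
  rw [add_comm n m]
  module

theorem pv1_g_nat (hA : IsADE A) (hp : 1 ≤ p) (K : ℕ) :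
    pv1_g A p K (-K) = C (cc A p / 12 * ((K : ℂ) ^ 3 - K)) := by
  rcases Nat.eq_zero_or_pos K with h | h
  · subst h
    unfold pv1_g
    have e : Lop A p 0 0 (1 : Fock ι) = 0 := pv1_Lone A p 0 le_rfl
    have e0 : -((0 : ℕ) : ℤ) = 0 := by norm_num
    rw [e0]
    simp only [Nat.cast_zero, add_zero, e, map_zero, smul_zero, sub_zero]
    norm_num
  · unfold pv1_g
    rw [pv1_top A hA p hp K h, pv1_Lone A p (K : ℤ) (by omega), map_zero,
      pv1_Lone A p ((K : ℤ) + -K) (by omega), smul_zero, sub_zero, sub_zero]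

theorem pv1_g_zero (hA : IsADE A) (hp : 1 ≤ p) (m n : ℤ) (h : m + n = 0) :
    pv1_g A p m n = C (cc A p / 12 * ((m : ℂ) ^ 3 - m)) := by
  obtain rfl : n = -m := by omega
  obtain ⟨K, rfl | rfl⟩ := m.eq_nat_or_neg
  · rw [pv1_g_nat hA hp]
    push_cast
    rfl
  · rw [pv1_g_swap, neg_neg, pv1_g_nat hA hp, ← map_neg]
    congr 1
    push_cast
    ring

theorem pv1_X_eq (hA : IsADE A) (hp : 1 ≤ p) (m n : ℤ) (v : VL ι) :
    pv1_X (LS (Shift.zero A p)) m n v =
      (if m + n = 0 then cc A p / 12 * ((m : ℂ) ^ 3 - m) else 0) • v := by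
  obtain ⟨ε⟩ := cocycle_exists A hA p
  have h1 : LinearMap.ker ((pv1_X (LS (Shift.zero A p)) m n : VL ι →ₗ[ℂ] VL ι) -
      (if m + n = 0 then cc A p / 12 * ((m : ℂ) ^ 3 - m) else 0) • LinearMap.id) = ⊤ := by
    refine generated ε _ ?_ ?_
    · rw [LinearMap.mem_ker, LinearMap.sub_apply, LinearMap.smul_apply, LinearMap.id_apply,
        pv1_X_vac_eq, sub_eq_zero]
      unfold vac
      rw [Finsupp.smul_single]
      congr 1
      rcases lt_trichotomy (m + n) 0 with h | h | h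
      · rw [pv1_g_neg hA hp m n h, if_neg (by omega), zero_smul]
      · rw [pv1_g_zero hA hp m n h, if_pos h, smul_eq_C_mul, mul_one]
      · rw [pv1_g_pos m n h, if_neg (by omega), zero_smul]
    · rintro g hg j w hw
      rw [LinearMap.mem_ker, LinearMap.sub_apply, LinearMap.smul_apply, LinearMap.id_apply,
        sub_eq_zero] at hw ⊢
      rcases hg with ⟨γ, rfl⟩ | ⟨h, rfl⟩
      · rw [pv1_X_exp (LS (Shift.zero A p)) (expMode ε γ) (wtExp A p γ)
          (fl5_key_exp hA hp ε γ) m n j w, hw, map_smul]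
      · rw [pv1_X_heis (LS (Shift.zero A p)) (heisMode A p h)
          (form A p (bg A p) h) (fl5_key_heis hA hp h) m n j w, hw, map_smul]
  have h2 : v ∈ LinearMap.ker ((pv1_X (LS (Shift.zero A p)) m n : VL ι →ₗ[ℂ] VL ι) -
      (if m + n = 0 then cc A p / 12 * ((m : ℂ) ^ 3 - m) else 0) • LinearMap.id) := by
    rw [h1]
    exact Submodule.mem_top
  rw [LinearMap.mem_ker, LinearMap.sub_apply, LinearMap.smul_apply, LinearMap.id_apply,
    sub_eq_zero] at h2
  exact h2

theorem LS_comm (hA : IsADE A) (hp : 1 ≤ p) (m n : ℤ) :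
    LS (Shift.zero A p) m ∘ₗ LS (Shift.zero A p) n - LS (Shift.zero A p) n ∘ₗ LS (Shift.zero A p) m =
      ((m : ℂ) - n) • LS (Shift.zero A p) (m + n) +
        (if m + n = 0 then (cc A p / 12 * ((m : ℂ) ^ 3 - m)) • LinearMap.id else 0) := by
  refine LinearMap.ext fun v => ?_
  have h1 := pv1_X_eq hA hp m n v
  rw [pv1_X_apply, sub_eq_iff_eq_add] at h1
  show LS (Shift.zero A p) m (LS (Shift.zero A p) n v) -
    LS (Shift.zero A p) n (LS (Shift.zero A p) m v) = _
  rw [h1, LinearMap.add_apply, LinearMap.smul_apply, add_comm]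
  congr 1
  by_cases h : m + n = 0
  · rw [if_pos h, if_pos h, LinearMap.smul_apply, LinearMap.id_apply]
  · rw [if_neg h, if_neg h, zero_smul, LinearMap.zero_apply]

theorem omegaV_eq (A : Matrix ι ι ℤ) (p : ℕ) : omegaV A p = omega A p := by
  have hs : (Shift.zero A p).s + toC (0 : ι → ℤ) = 0 := by
    rw [fl2_zero_s, fl2_toC_zero, add_zero]
  unfold omega vac
  rw [fl5_LS_single, hs]
  have h1 := pv1_Lneg A p 2 (by norm_num)
  have e : (-((2 : ℕ) : ℤ)) = -2 := by norm_num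
  have hb : bgVec A p = bg A p := by
    funext i
    unfold bgVec bg rho invA Matrix.mulVec dotProduct
    simp only [mul_one]
  have hQ : fw9_Q A p 2 =
      ∑ i, osc (dualVec A p i) 0 * osc (Pi.single i (1 : ℂ)) 0 := by
    unfold fw9_Q
    rw [show 2 - 1 = 1 from rfl, Finset.sum_range_one]
    refine Finset.sum_congr rfl fun i _ => ?_
    have e3 : osc (Pi.single i (1 : ℂ)) 0 = (X (i, 0) : Fock ι) := fw9_osc_bb i 0
    have e4 : (C ((((0 : ℕ) : ℂ) + 1) * (((2 : ℕ) : ℂ) - 1 - ((0 : ℕ) : ℂ))) : Fock ι) = 1 := by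
      have e5 : (((0 : ℕ) : ℂ) + 1) * (((2 : ℕ) : ℂ) - 1 - ((0 : ℕ) : ℂ)) = 1 := by
        push_cast
        ring
      rw [e5, C_1]
    rw [e3, e4, one_mul]
    rfl
  have hC : ((2 : ℕ) : ℂ) * (((2 : ℕ) : ℂ) - 1) = 2 := by
    push_cast
    ring
  rw [e, hQ, hC, show 2 - 1 = 1 from rfl] at h1
  rw [h1]
  unfold omegaV
  rw [hb, add_comm]

theorem omegaV_mem (hA : IsADE A) (hp : 2 ≤ p) : omegaV A p ∈ W A p := by
  rw [omegaV_eq]
  exact W_LS hA (by omega) (-2) vac (vac_mem_W hA (by omega))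

theorem isPrimary_iff (hA : IsADE A) (hp : 1 ≤ p) (ε : Cocycle A p) (v : VL ι) :
    IsPrimary ε v ↔ LS (Shift.zero A p) 1 v = 0 ∧ LS (Shift.zero A p) 2 v = 0 := by
  have key : ∀ n : ℤ, mode ε (omegaV A p) (n + 1) = LS (Shift.zero A p) n := by
    intro n
    rw [omegaV_eq, mode_omega hA hp ε (n + 1)]
    congr 1
    ring
  constructor
  · intro h
    exact ⟨by rw [← key]; exact h 1 (by norm_num), by rw [← key]; exact h 2 (by norm_num)⟩
  · rintro ⟨h1, h2⟩
    have h3 : ∀ n : ℕ, LS (Shift.zero A p) ((n : ℤ) + 1) v = 0 := by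
      intro n
      induction n with
      | zero =>
        rw [Nat.cast_zero, zero_add]
        exact h1
      | succ n ih =>
        rcases Nat.eq_zero_or_pos n with hn | hn
        · subst hn
          exact h2
        · have h4 := LinearMap.congr_fun (LS_comm hA hp ((n : ℤ) + 1) 1) v
          rw [if_neg (by omega), add_zero, LinearMap.sub_apply, LinearMap.comp_apply,
            LinearMap.comp_apply, h1, ih, map_zero, map_zero, sub_zero, LinearMap.smul_apply] at h4
          have h5 : (((((n : ℤ) + 1 : ℤ)) : ℂ) - ((1 : ℤ) : ℂ)) ≠ 0 := by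
            push_cast
            rw [add_sub_cancel_right]
            exact_mod_cast hn.ne'
          have h6 := (smul_eq_zero.1 h4.symm).resolve_left h5
          push_cast
          exact h6
    intro n hn
    rw [key]
    obtain ⟨m, hm⟩ : ∃ m : ℕ, (m : ℤ) + 1 = n := ⟨(n - 1).toNat, by omega⟩
    rw [← hm]
    exact h3 m

theorem LS_zero_Vn (hA : IsADE A) (hp : 1 ≤ p) (n : ℤ) (v : VL ι) (hv : v ∈ Vn A p n) :
    LS (Shift.zero A p) 0 v = (n : ℂ) • v := by
  have h1 : Vn A p n ≤ LinearMap.ker (LS (Shift.zero A p) 0 - (n : ℂ) • LinearMap.id) := by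
    refine Submodule.span_le.2 ?_
    rintro w ⟨γ, f, d, hf, hd, rfl⟩
    rw [SetLike.mem_coe, LinearMap.mem_ker, LinearMap.sub_apply, LinearMap.smul_apply,
      LinearMap.id_apply, sub_eq_zero, fl5_LS_single, fl2_zero_s, zero_add,
      Lop_zero_homog A p (toC γ) f d hf, Finsupp.smul_single]
    congr 2
    rw [← hd]
    push_cast
    rw [wtExp_eq hA hp γ]
    ring
  have h2 := h1 hv
  rw [LinearMap.mem_ker, LinearMap.sub_apply, LinearMap.smul_apply, LinearMap.id_apply,
    sub_eq_zero] at h2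
  exact h2

end

end WPQ
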