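import Pool.Agent.WPQ.PV2
import Pool.Agent.WPQ.KVM

/-! [WPQ-PV3] Primary decomposition of the low weights.

Plan.  Strong induction on `n` (for `n < 0` there is nothing: `Wn_neg`).  `Wn_decomp` reduces to
`Prim ⊓ I = 0` in weight `n`, which is `KV.prim_desc` for `N = VL ι`, `L = LS zero`, `V = Wn A p`,
`n1 = n`: `LS_comm` (with `hc`), `W_LS`, `LS_Vn`, `LS_zero_Vn`, `Wn_neg`, `Wn_zero`, `LS_vac`, the
induction hypothesis, and `hk`. -/

namespace WPQ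

open MvPolynomial AF

noncomputable section

variable {ι : Type} [Fintype ι] [DecidableEq ι] {A : Matrix ι ι ℤ} {p : ℕ}

theorem Wn_gen (hA : IsADE A) (hp : 2 ≤ p) (t : ℂ) (ht : t ≠ 0)
    (hirr : ∀ a b : ℤ, (a : ℂ) = t * b → a = 0 ∧ b = 0)
    (hc : cc A p = 1 - 6 * (t - 1) ^ 2 / t) (N0 : ℤ)
    (hk : ∀ h r s : ℕ, 1 ≤ h → 1 ≤ r → 1 ≤ s → (h : ℤ) ≤ N0 →
      (h : ℂ) ≠ (((s : ℂ) ^ 2 - 1) * t + ((r : ℂ) ^ 2 - 1) / t - 2 * ((r : ℂ) * s - 1)) / 4)
    (n : ℤ) (hn : n ≤ N0) (v : VL ι) (hv : v ∈ Wn A p n) :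
    ∃ x ∈ Wn A p n, ∃ y ∈ Wn A p (n - 1), ∃ z ∈ Wn A p (n - 2),
      LS (Shift.zero A p) 1 x = 0 ∧ LS (Shift.zero A p) 2 x = 0 ∧
      v = x + LS (Shift.zero A p) (-1) y + LS (Shift.zero A p) (-2) z := by
  have hp1 : 1 ≤ p := by omega
  have hL : ∀ m n : ℤ, LS (Shift.zero A p) m ∘ₗ LS (Shift.zero A p) n -
      LS (Shift.zero A p) n ∘ₗ LS (Shift.zero A p) m =
      ((m : ℂ) - n) • LS (Shift.zero A p) (m + n) +
      (if m + n = 0 then (((1 - 6 * (t - 1) ^ 2 / t) / 12) * ((m : ℂ) ^ 3 - m)) •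
        LinearMap.id else 0) := by
    intro m n
    rw [LS_comm hA hp1 m n, hc]
  have hdeg : ∀ k n : ℤ, ∀ v ∈ Wn A p n, LS (Shift.zero A p) k v ∈ Wn A p (n - k) :=
    fun k n v hv => ⟨W_LS hA hp1 k v hv.1, LS_Vn k n v hv.2⟩
  have hL0 : ∀ n : ℤ, ∀ v ∈ Wn A p n, LS (Shift.zero A p) 0 v = (n : ℂ) • v :=
    fun n v hv => LS_zero_Vn hA hp1 n v hv.2
  have key : ∀ k : ℕ, ∀ n : ℤ, n < k → n ≤ N0 → ∀ v ∈ Wn A p n,
      ∃ x ∈ Wn A p n, ∃ y ∈ Wn A p (n - 1), ∃ z ∈ Wn A p (n - 2),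
      LS (Shift.zero A p) 1 x = 0 ∧ LS (Shift.zero A p) 2 x = 0 ∧
      v = x + LS (Shift.zero A p) (-1) y + LS (Shift.zero A p) (-2) z := by
    intro k
    induction k with
    | zero =>
      intro n hn _ v hv
      have hn' : n < 0 := by simpa using hn
      rw [Wn_neg hA hp n hn', Submodule.mem_bot] at hv
      refine ⟨0, Submodule.zero_mem _, 0, Submodule.zero_mem _, 0, Submodule.zero_mem _,
        map_zero _, map_zero _, ?_⟩
      rw [hv, map_zero, map_zero, add_zero, add_zero]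
    | succ k ih =>
      intro n hn hN v hv
      refine Wn_decomp hA hp n ?_ v hv
      intro x hx h1 h2 y hy z hz hxyz
      refine KV.prim_desc t ht hirr (LS (Shift.zero A p)) hL (Wn A p) hdeg hL0
        (fun m hm => Wn_neg hA hp m hm) vac (fun v hv => Wn_zero hA hp v hv)
        (LS_vac (-1) le_rfl) n ?_ ?_ x hx h1 h2 y z hy hz hxyz
      · intro m hm v hv
        exact ih m (by push_cast at hn; omega) (by omega) v hv
      · intro h r s hh hr hs hle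
        refine hk h r s hh hr hs ?_
        have h3 : (0 : ℤ) ≤ (r : ℤ) * s := by positivity
        omega
  exact key (n + 1).toNat n (by omega) hn v hv

end

end WPQ
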