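import Pool.Agent.WPQ.RCD

/-! [WPQ-RC2] `MN b p N k` is a polynomial in `k`; degree of `MM`.

Plan: `ee k n` is a polynomial in `k` of degree `n` (`∏_{i<n} (i - k)/(i+1)`); `PP b p` is homogeneous
of degree `p b (b-1)`, so `∏_r eeZ k (p b - 1 - u_r)` has degree at most
`∑ (p b - 1 - u_r) = b (p b - 1) - p b (b-1) = b (p-1)` (it is zero if some `u_r > p b - 1`). -/

namespace WPQ.RC

open MvPolynomial

noncomputable section

/-- `ee k n` as a polynomial in `k` -/
def rc2_e : ℕ → Polynomial ℂ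
  | 0 => 1
  | n + 1 => rc2_e n * (Polynomial.C (n : ℂ) - Polynomial.X) * Polynomial.C ((n : ℂ) + 1)⁻¹

theorem rc2_e_eval (k : ℂ) (n : ℕ) : (rc2_e n).eval k = ee k n := by
  induction n with
  | zero => simp [rc2_e, ee]
  | succ n ih =>
    simp only [rc2_e, ee, Polynomial.eval_mul, Polynomial.eval_sub, Polynomial.eval_C,
      Polynomial.eval_X, ih]
    rfl

theorem rc2_e_deg (n : ℕ) : (rc2_e n).natDegree ≤ n := by
  induction n with
  | zero => simp [rc2_e]
  | succ n ih =>
    have h1 : (Polynomial.C (n : ℂ) - Polynomial.X).natDegree ≤ 1 := by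
      refine (Polynomial.natDegree_sub_le _ _).trans ?_
      simp
    have h2 : (Polynomial.C ((n : ℂ) + 1)⁻¹).natDegree ≤ 0 := by simp
    show (rc2_e n * (Polynomial.C (n : ℂ) - Polynomial.X) * Polynomial.C ((n : ℂ) + 1)⁻¹).natDegree ≤ n + 1
    refine Polynomial.natDegree_mul_le.trans ?_
    have h3 := Polynomial.natDegree_mul_le (p := rc2_e n) (q := Polynomial.C (n : ℂ) - Polynomial.X)
    omega

/-- `eeZ k n` as a polynomial in `k` -/
def rc2_z (n : ℤ) : Polynomial ℂ := if n < 0 then 0 else rc2_e n.toNat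

theorem rc2_z_eval (k : ℂ) (n : ℤ) : (rc2_z n).eval k = eeZ k n := by
  unfold rc2_z eeZ
  split_ifs
  · simp
  · exact rc2_e_eval k _

/-- `MN b p N k` as a polynomial in `k` -/
def rc2_Q (b p : ℕ) (N : ℤ) : Polynomial ℂ :=
  ∑ u ∈ (PP b p).support, Polynomial.C (coeff u (PP b p)) * ∏ r : Fin b, rc2_z (N - u r)

theorem rc2_Q_eval (b p : ℕ) (N : ℤ) (k : ℂ) : MN b p N k = (rc2_Q b p N).eval k := by
  unfold MN rc2_Q
  rw [Polynomial.eval_finsetSum]
  refine Finset.sum_congr rfl fun u _ => ?_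
  rw [Polynomial.eval_mul, Polynomial.eval_C, Polynomial.eval_prod]
  congr 1
  exact Finset.prod_congr rfl fun r _ => (rc2_z_eval k _).symm

theorem MN_poly (b p : ℕ) (N : ℤ) : ∃ Q : Polynomial ℂ, ∀ k : ℂ, MN b p N k = Q.eval k :=
  ⟨rc2_Q b p N, rc2_Q_eval b p N⟩

theorem PP_homog (b p : ℕ) : (PP b p).IsHomogeneous (p * b * (b - 1)) := by
  have h1 : (PP b p).IsHomogeneous
      (∑ r : Fin b, ∑ _s ∈ Finset.univ.filter (fun s => r < s), 2 * p) := by
    unfold PP
    refine IsHomogeneous.prod _ _ _ fun r _ => IsHomogeneous.prod _ _ _ fun s _ => ?_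
    have h2 := ((isHomogeneous_X ℂ r).sub (isHomogeneous_X ℂ s)).pow (2 * p)
    rwa [one_mul] at h2
  have h2 : (∑ r : Fin b, ∑ _s ∈ Finset.univ.filter (fun s => r < s), 2 * p) = p * b * (b - 1) := by
    have h3 : ∀ r : Fin b, (∑ _s ∈ Finset.univ.filter (fun s => r < s), 2 * p) = (b - 1 - (r : ℕ)) * (2 * p) := by
      intro r
      rw [Finset.sum_const, smul_eq_mul]
      congr 1
      have h4 : Finset.univ.filter (fun s => r < s) = Finset.Ioi r := by
        ext s
        simp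
      rw [h4, Fin.card_Ioi]
    rw [Finset.sum_congr rfl fun r _ => h3 r, ← Finset.sum_mul,
      Fin.sum_univ_eq_sum_range (fun r => b - 1 - r) b, Finset.sum_range_reflect (fun r => r) b]
    have h5 := Finset.sum_range_id_mul_two b
    calc (∑ j ∈ Finset.range b, j) * (2 * p) = ((∑ j ∈ Finset.range b, j) * 2) * p := by ring
      _ = p * b * (b - 1) := by
        rw [h5]
        ring
  rw [h2] at h1
  exact h1

theorem MM_poly (b p : ℕ) (hp : 1 ≤ p) : ∃ Q : Polynomial ℂ, Q.natDegree ≤ b * (p - 1) ∧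
    ∀ k : ℂ, MM b p k = Q.eval k := by
  refine ⟨rc2_Q b p (p * b - 1), ?_, fun k => rc2_Q_eval b p _ k⟩
  unfold rc2_Q
  refine Polynomial.natDegree_sum_le_of_forall_le _ _ fun u hu => ?_
  refine (Polynomial.natDegree_C_mul_le _ _).trans ?_
  by_cases hneg : ∃ r : Fin b, (p * b - 1 : ℤ) - u r < 0
  · obtain ⟨r, hr⟩ := hneg
    have h1 : ∏ r : Fin b, rc2_z ((p * b - 1 : ℤ) - u r) = 0 := by
      refine Finset.prod_eq_zero (Finset.mem_univ r) ?_
      unfold rc2_z
      rw [if_pos hr]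
    rw [h1, Polynomial.natDegree_zero]
    exact Nat.zero_le _
  · push Not at hneg
    refine (Polynomial.natDegree_prod_le _ _).trans ?_
    have h1 : ∀ r : Fin b, (rc2_z ((p * b - 1 : ℤ) - u r)).natDegree ≤ ((p * b - 1 : ℤ) - u r).toNat := by
      intro r
      unfold rc2_z
      rw [if_neg (not_lt.2 (hneg r))]
      exact rc2_e_deg _
    refine (Finset.sum_le_sum fun r _ => h1 r).trans (le_of_eq ?_)
    have h2 : ∑ r : Fin b, u r = p * b * (b - 1) := by
      have h3 := PP_homog b p (mem_support_iff.1 hu)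
      rw [Finsupp.weight_apply, Finsupp.sum_fintype _ _ (fun i => by simp)] at h3
      simpa using h3
    have h4 : ((∑ r : Fin b, ((p * b - 1 : ℤ) - u r).toNat : ℕ) : ℤ) = ((b * (p - 1) : ℕ) : ℤ) := by
      rw [Nat.cast_sum, Finset.sum_congr rfl fun r _ => Int.toNat_of_nonneg (hneg r),
        Finset.sum_sub_distrib, Finset.sum_const, Finset.card_univ, Fintype.card_fin, nsmul_eq_mul,
        ← Nat.cast_sum, h2]
      rcases Nat.eq_zero_or_pos b with hb | hb
      · subst hb
        simp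
      · obtain ⟨b, rfl⟩ : ∃ b', b = b' + 1 := ⟨b - 1, by omega⟩
        obtain ⟨p, rfl⟩ : ∃ p', p = p' + 1 := ⟨p - 1, by omega⟩
        simp only [Nat.add_sub_cancel]
        push_cast
        ring
    exact_mod_cast h4

end

end WPQ.RC
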