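import Pool.Agent.WPQ.RC1
import Pool.Agent.WPQ.RC2

/-! [WPQ-RC3] The value at `k = p - 1`.

Plan: `ee (p-1) n = 0` for `n ≥ p` and `ee (p-1) (p-1) = (-1)^(p-1)`.  In the sum `MM b p (p-1)` a
nonzero term has `0 ≤ p b - 1 - u_r ≤ p - 1` for all `r`, and `∑_r (p b - 1 - u_r) = b (p-1)`
(`PP_homog`), so all `u_r = p (b-1)`: `MM b p (p-1) = (-1)^((p-1) b) Cst b p`. -/

namespace WPQ.RC

open MvPolynomial

noncomputable section

theorem rc3_ee (q : ℕ) : ∀ n : ℕ, ee (q : ℂ) n = (-1) ^ n * (q.choose n : ℂ) := by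
  intro n
  induction n with
  | zero => simp [ee]
  | succ n ih =>
    have h1 : ee (q : ℂ) (n + 1) = ee (q : ℂ) n * ((n : ℂ) - q) / ((n : ℂ) + 1) := rfl
    have hn : ((n : ℂ) + 1) ≠ 0 := by exact_mod_cast Nat.succ_ne_zero n
    have h2 : ((q.choose (n + 1) : ℂ)) * ((n : ℂ) + 1) = (q.choose n : ℂ) * ((q : ℂ) - n) := by
      rcases le_or_gt n q with hnq | hnq
      · have := Nat.choose_succ_right_eq q n
        have h3 : ((q.choose (n + 1) * (n + 1) : ℕ) : ℂ) = ((q.choose n * (q - n) : ℕ) : ℂ) := by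
          rw [this]
        push_cast [Nat.cast_sub hnq] at h3
        exact h3
      · rw [Nat.choose_eq_zero_of_lt hnq, Nat.choose_eq_zero_of_lt (Nat.lt_succ_of_lt hnq)]
        simp
    rw [h1, ih, div_eq_iff hn, pow_succ]
    linear_combination ((-1 : ℂ) ^ n) * h2

theorem rc3_cast (p : ℕ) (hp : 1 ≤ p) : ((p : ℂ) - 1) = ((p - 1 : ℕ) : ℂ) := by
  push_cast [Nat.cast_sub hp]
  ring

theorem rc3_eeZ_zero (p : ℕ) (hp : 1 ≤ p) (n : ℤ) (h : n < 0 ∨ (p : ℤ) ≤ n) :
    eeZ ((p : ℂ) - 1) n = 0 := by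
  unfold eeZ
  split_ifs with h0
  · rfl
  · rcases h with h | h
    · exact absurd h h0
    · rw [rc3_cast p hp, rc3_ee, Nat.choose_eq_zero_of_lt (by omega)]
      simp

theorem rc3_eeZ_top (p : ℕ) (hp : 1 ≤ p) :
    eeZ ((p : ℂ) - 1) ((p : ℤ) - 1) = (-1) ^ (p - 1) := by
  unfold eeZ
  have h0 : ¬ ((p : ℤ) - 1 < 0) := by omega
  have h1 : ((p : ℤ) - 1).toNat = p - 1 := by omega
  rw [if_neg h0, h1, rc3_cast p hp, rc3_ee, Nat.choose_self]
  simp

theorem rc3_u (b p : ℕ) (u : Fin b →₀ ℕ) (hu : ∑ r, u r = p * b * (b - 1))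
    (h : ∀ r : Fin b, p * (b - 1) ≤ u r) : ∀ r, u r = p * (b - 1) := by
  intro r
  have hs : ∑ _r : Fin b, p * (b - 1) = p * b * (b - 1) := by
    simp only [Finset.sum_const, Finset.card_univ, Fintype.card_fin, smul_eq_mul]
    ring
  have h1 := (Finset.sum_eq_sum_iff_of_le (s := Finset.univ)
    (f := fun _ : Fin b => p * (b - 1)) (g := fun r => u r) (fun r _ => h r)).1
    (by rw [hs, hu])
  exact (h1 r (Finset.mem_univ r)).symm

theorem MM_at (b p : ℕ) (hp : 1 ≤ p) : MM b p ((p : ℂ) - 1) = (-1) ^ ((p - 1) * b) * Cst b p := by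
  unfold MM MN Cst
  set u0 : Fin b →₀ ℕ := Finsupp.equivFunOnFinite.symm fun _ : Fin b => p * (b - 1) with hu0
  rw [Finset.sum_eq_single u0]
  · have h1 : ∀ r : Fin b, eeZ ((p : ℂ) - 1) ((p : ℤ) * b - 1 - (u0 r : ℕ)) = (-1) ^ (p - 1) := by
      intro r
      have hb : 1 ≤ b := Nat.succ_le_of_lt (Fin.pos r)
      have h2 : (p : ℤ) * b - 1 - (u0 r : ℕ) = (p : ℤ) - 1 := by
        have h3 : u0 r = p * (b - 1) := rfl
        rw [h3]
        push_cast [Nat.cast_sub hb]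
        ring
      rw [h2, rc3_eeZ_top p hp]
    rw [Finset.prod_congr rfl fun r _ => h1 r, Finset.prod_const, Finset.card_univ,
      Fintype.card_fin, ← pow_mul]
    ring
  · intro u hu hne
    have hdeg : ∑ r, u r = p * b * (b - 1) := by
      have h1 := PP_homog b p (mem_support_iff.1 hu)
      rw [← h1, Finsupp.weight_apply, Finsupp.sum_fintype]
      · simp
      · simp
    by_cases hall : ∀ r : Fin b, p * (b - 1) ≤ u r
    · exfalso
      apply hne
      ext r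
      exact rc3_u b p u hdeg hall r
    · push Not at hall
      obtain ⟨r, hr⟩ := hall
      have hb : 1 ≤ b := Nat.succ_le_of_lt (Fin.pos r)
      have h1 : eeZ ((p : ℂ) - 1) ((p : ℤ) * b - 1 - (u r : ℕ)) = 0 := by
        apply rc3_eeZ_zero p hp
        right
        have h2 : ((u r : ℕ) : ℤ) < (p : ℤ) * (b - 1) := by
          have h3 : ((u r : ℕ) : ℤ) < ((p * (b - 1) : ℕ) : ℤ) := by exact_mod_cast hr
          push_cast [Nat.cast_sub hb] at h3
          exact h3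
        linarith
      rw [Finset.prod_eq_zero (Finset.mem_univ r) h1, mul_zero]
  · intro hu
    rw [notMem_support_iff.1 hu, zero_mul]

theorem MM_at_ne_zero (b p : ℕ) (hp : 1 ≤ p) : MM b p ((p : ℂ) - 1) ≠ 0 := by
  rw [MM_at b p hp]
  exact mul_ne_zero (pow_ne_zero _ (by norm_num)) (Cst_ne_zero b p)

end

end WPQ.RC
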