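import Pool.Agent.WPQ.RCD

/-! [WPQ-RC4] One variable functionals.  Fix integers `k` and `B` (`B = p b`).
`a m` = coefficient of `x^(-1)` of `x^(m-B) (1-x)^k` expanded at `0`,
`c m` = the same, expanded at `∞`:  `(1-x)^k = (-1)^k x^k (1 - 1/x)^k`.

Plan: `ee k` are the coefficients of the power series `(1-x)^k`: `(1-x) * ∑ ee (k-1) n x^n = ∑ ee k n x^n`,
i.e. `ee k (n+1) = ee (k-1) (n+1) - ee (k-1) n` (prove by induction from the recursion), and
`ee 0 n = 0` for `n ≥ 1`.  Pascal: with `f_k(m) = a m - c m` this gives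
`f_{k}(m) - f_{k}(m+1) = f_{k+1}(m)` for both `a` and `c`; hence
`∑_m (-1)^(e-m) choose e m f_k(m) = (-1)^e f_{k+e}(0)`, and `f_{k'}(m) = 0` for all `m` if `k' ≥ 0`
(finite binomial expansion: coefficient symmetry `ee k n = (-1)^k ee k (k-n)` for `0 ≤ n ≤ k`, and
`ee k n = 0` for `n > k`). -/

namespace WPQ.RC

open MvPolynomial

noncomputable section

/-- Expansion at `0`. -/
def aa (B k : ℤ) (m : ℕ) : ℂ := eeZ k (B - 1 - m)

/-- Expansion at `∞`. -/
def cc (B k : ℤ) (m : ℕ) : ℂ := ((Int.negOnePow k : ℤ) : ℂ) * eeZ k (m - B + k + 1)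

/-- The difference (the residue at `1`). -/
def bb (B k : ℤ) (m : ℕ) : ℂ := cc B k m - aa B k m

theorem rc4_ee_shift (k : ℂ) : ∀ n : ℕ, ee (k + 1) (n + 1) = ee k n * (-k - 1) / ((n : ℂ) + 1) := by
  intro n
  induction n with
  | zero =>
    simp only [ee, Nat.cast_zero]
    ring
  | succ n ih =>
    have h1 : ee (k + 1) (n + 1 + 1) =
        ee (k + 1) (n + 1) * (((n + 1 : ℕ) : ℂ) - (k + 1)) / (((n + 1 : ℕ) : ℂ) + 1) := rfl
    have h2 : ee k (n + 1) = ee k n * ((n : ℂ) - k) / ((n : ℂ) + 1) := rfl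
    rw [h1, ih, h2]
    push_cast
    ring

theorem rc4_ee_pascal (k : ℂ) (n : ℕ) : ee (k + 1) (n + 1) = ee k (n + 1) - ee k n := by
  have hn : ((n : ℂ) + 1) ≠ 0 := by exact_mod_cast Nat.succ_ne_zero n
  have h2 : ee k (n + 1) = ee k n * ((n : ℂ) - k) / ((n : ℂ) + 1) := rfl
  rw [rc4_ee_shift, h2]
  field_simp
  ring

theorem rc4_eeZ_pascal (k : ℂ) (n : ℤ) : eeZ (k + 1) n = eeZ k n - eeZ k (n - 1) := by
  rcases lt_trichotomy n 0 with h | h | h
  · simp only [eeZ]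
    rw [if_pos h, if_pos h, if_pos (by omega)]
    simp
  · subst h
    simp [eeZ, ee]
  · obtain ⟨m, rfl⟩ : ∃ m : ℕ, n = (m : ℤ) + 1 := ⟨(n - 1).toNat, by omega⟩
    have h1 : ¬ ((m : ℤ) + 1 < 0) := by omega
    have h2 : ¬ ((m : ℤ) + 1 - 1 < 0) := by omega
    have h3 : ((m : ℤ) + 1).toNat = m + 1 := by omega
    have h4 : ((m : ℤ) + 1 - 1).toNat = m := by omega
    simp only [eeZ]
    rw [if_neg h1, if_neg h1, if_neg h2, h3, h4]
    exact rc4_ee_pascal k m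

theorem rc4_ee_nat (q : ℕ) : ∀ n : ℕ, ee (q : ℂ) n = (-1) ^ n * (q.choose n : ℂ) := by
  intro n
  induction n with
  | zero => simp [ee]
  | succ n ih =>
    have h1 : ee (q : ℂ) (n + 1) = ee (q : ℂ) n * ((n : ℂ) - q) / ((n : ℂ) + 1) := rfl
    have hn : ((n : ℂ) + 1) ≠ 0 := by exact_mod_cast Nat.succ_ne_zero n
    have h2 : ((q.choose (n + 1) : ℂ)) * ((n : ℂ) + 1) = (q.choose n : ℂ) * ((q : ℂ) - n) := by
      rcases le_or_gt n q with hnq | hnq
      · have := Nat.choose_succ_right_eq q n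
        have h3 : ((q.choose (n + 1) * (n + 1) : ℕ) : ℂ) = ((q.choose n * (q - n) : ℕ) : ℂ) := by
          rw [this]
        push_cast [Nat.cast_sub hnq] at h3
        exact h3
      · rw [Nat.choose_eq_zero_of_lt hnq, Nat.choose_eq_zero_of_lt (Nat.lt_succ_of_lt hnq)]
        simp
    rw [h1, ih, div_eq_iff hn, pow_succ]
    linear_combination ((-1 : ℂ) ^ n) * h2

theorem rc4_aa (B k : ℤ) (m : ℕ) : aa B (k + 1) m = aa B k m - aa B k (m + 1) := by
  unfold aa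
  have h := rc4_eeZ_pascal (k : ℂ) (B - 1 - m)
  have h1 : (((k + 1 : ℤ)) : ℂ) = (k : ℂ) + 1 := by push_cast; ring
  have h2 : B - 1 - (m : ℤ) - 1 = B - 1 - ((m + 1 : ℕ) : ℤ) := by push_cast; ring
  rw [h1, h, h2]

theorem rc4_cc (B k : ℤ) (m : ℕ) : cc B (k + 1) m = cc B k m - cc B k (m + 1) := by
  unfold cc
  have h := rc4_eeZ_pascal (k : ℂ) (m - B + (k + 1) + 1)
  have h1 : (((k + 1 : ℤ)) : ℂ) = (k : ℂ) + 1 := by push_cast; ring
  have h2 : (m : ℤ) - B + (k + 1) + 1 - 1 = m - B + k + 1 := by ring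
  have h3 : (((m + 1 : ℕ) : ℤ)) - B + k + 1 = m - B + (k + 1) + 1 := by push_cast; ring
  have h4 : (((Int.negOnePow (k + 1)) : ℤ) : ℂ) = -((Int.negOnePow k : ℤ) : ℂ) := by
    rw [Int.negOnePow_succ]
    push_cast
    ring
  rw [h1, h, h2, h3, h4]
  ring

theorem rc4_bb (B k : ℤ) (m : ℕ) : bb B (k + 1) m = bb B k m - bb B k (m + 1) := by
  unfold bb
  rw [rc4_aa, rc4_cc]
  ring

/-- Iterated differences. -/
theorem rc4_iter (f : ℤ → ℕ → ℂ) (hf : ∀ k m, f (k + 1) m = f k m - f k (m + 1)) (k : ℤ) :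
    ∀ (e m : ℕ), f (k + e) m =
      ∑ i ∈ Finset.range (e + 1), (-1 : ℂ) ^ i * (e.choose i : ℂ) * f k (m + i) := by
  intro e
  induction e with
  | zero => intro m; simp
  | succ e ih =>
    intro m
    have h1 : k + ((e + 1 : ℕ) : ℤ) = (k + e) + 1 := by push_cast; ring
    rw [h1, hf, ih m, ih (m + 1)]
    rw [Finset.sum_range_succ' _ (e + 1)]
    have h2 : ∀ i ∈ Finset.range (e + 1),
        (-1 : ℂ) ^ (i + 1) * ((e + 1).choose (i + 1) : ℂ) * f k (m + (i + 1)) =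
        (-1 : ℂ) ^ (i + 1) * (e.choose (i + 1) : ℂ) * f k (m + (i + 1)) -
        (-1 : ℂ) ^ i * (e.choose i : ℂ) * f k (m + 1 + i) := by
      intro i _
      rw [Nat.choose_succ_succ, show m + 1 + i = m + (i + 1) by ring]
      push_cast
      ring
    rw [Finset.sum_congr rfl h2, Finset.sum_sub_distrib]
    have h3 : ∑ i ∈ Finset.range (e + 1), (-1 : ℂ) ^ i * (e.choose i : ℂ) * f k (m + i) =
        ∑ i ∈ Finset.range (e + 1),
          (-1 : ℂ) ^ (i + 1) * (e.choose (i + 1) : ℂ) * f k (m + (i + 1)) + f k m := by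
      rw [Finset.sum_range_succ' _ e, Finset.sum_range_succ _ e, Nat.choose_succ_self]
      simp
    rw [h3]
    simp
    ring

theorem rc4_bb_zero (B : ℤ) (q m : ℕ) : bb B q m = 0 := by
  unfold bb cc aa
  have h1 : ((((q : ℕ) : ℤ)) : ℂ) = (q : ℂ) := by push_cast; rfl
  rw [h1]
  have h2 : ((Int.negOnePow (q : ℤ) : ℤ) : ℂ) = (-1) ^ q := by
    rw [Int.negOnePow_def]
    simp
  rw [h2]
  set j : ℤ := B - 1 - m with hj
  have h3 : (m : ℤ) - B + q + 1 = q - j := by rw [hj]; ring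
  rw [h3]
  simp only [eeZ]
  rcases lt_or_ge j 0 with h | h
  · rw [if_pos h, if_neg (by omega), rc4_ee_nat, Nat.choose_eq_zero_of_lt (by omega)]
    simp
  · rcases lt_or_ge (q : ℤ) j with h' | h'
    · rw [if_pos (by omega), if_neg (by omega), rc4_ee_nat, Nat.choose_eq_zero_of_lt (by omega)]
      simp
    · rw [if_neg (by omega), if_neg (by omega), rc4_ee_nat, rc4_ee_nat]
      obtain ⟨a, ha⟩ : ∃ a : ℕ, j = a := ⟨j.toNat, by omega⟩
      rw [ha]
      have ha' : a ≤ q := by omega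
      have h4 : ((q : ℤ) - (a : ℤ)).toNat = q - a := by omega
      have h5 : ((a : ℤ)).toNat = a := by omega
      rw [h4, h5, Nat.choose_symm ha']
      have h6 : (-1 : ℂ) ^ q * (-1) ^ (q - a) = (-1) ^ a := by
        rw [← pow_add]
        have h7 : q + (q - a) = a + 2 * (q - a) := by omega
        rw [h7, pow_add, pow_mul]
        simp
      rw [← mul_assoc, h6]
      ring

theorem bb_kill (B k : ℤ) (e : ℕ) (he : 0 ≤ (e : ℤ) + k) (m : ℕ) :
    ∑ i ∈ Finset.range (e + 1), (-1 : ℂ) ^ (e - i) * (e.choose i : ℂ) * bb B k (m + i) = 0 := by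
  have h1 := rc4_iter (bb B) (rc4_bb B) k e m
  obtain ⟨q, hq⟩ : ∃ q : ℕ, k + e = q := ⟨(k + e).toNat, by omega⟩
  rw [hq, rc4_bb_zero] at h1
  have h2 : ∑ i ∈ Finset.range (e + 1), (-1 : ℂ) ^ (e - i) * (e.choose i : ℂ) * bb B k (m + i) =
      (-1) ^ e * ∑ i ∈ Finset.range (e + 1), (-1 : ℂ) ^ i * (e.choose i : ℂ) * bb B k (m + i) := by
    rw [Finset.mul_sum]
    refine Finset.sum_congr rfl fun i hi => ?_
    have hi' : i ≤ e := by
      have := Finset.mem_range.1 hi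
      omega
    have h6 : (-1 : ℂ) ^ (e - i) = (-1) ^ e * (-1) ^ i := by
      rw [← pow_add]
      have h7 : e + i = (e - i) + 2 * i := by omega
      rw [h7, pow_add, pow_mul]
      simp
    rw [h6]
    ring
  rw [h2, ← h1, mul_zero]

theorem cc_kill (B k : ℤ) (m : ℕ) (h : (m : ℤ) < B - k - 1) : cc B k m = 0 := by
  unfold cc eeZ
  rw [if_pos (by omega), mul_zero]

end

end WPQ.RC
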