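import Pool.Agent.WPQ.RC2
import Pool.Agent.WPQ.RC4

/-! [WPQ-RC5] The zeros of `M_b`.

Plan.  For a family `φ : Fin b → ℕ → ℂ` put `T φ Q = ∑_u coeff u Q ∏_r φ r (u r)` (linear in
`Q : MvPolynomial (Fin b) ℂ`).  `MM b p k = T (fun _ => aa (p b) k) PP` and `aa = cc - bb`, so
`MM = ∑_{S ⊆ Fin b} (-1)^|S| T (bb on S, cc off S) PP` (`Finset.prod_add`/`prod_sub`).
Let `k = r0 - p n`, `0 ≤ n < b`, `0 ≤ r0 ≤ p-2`.  Every term vanishes:
* `|S| = i ≥ n+1`: `PP` is a multiple of `∏_{r<s in S} (X_r - X_s)^(2p)`, which is homogeneous of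
  degree `p i (i-1)` in the `X_r - 1`, `r ∈ S` (`X_r - X_s = (X_r-1) - (X_s-1)`); so `PP` is a
  combination of `Q * ∏_{r∈S} (X_r-1)^(e_r)` with `∑ e_r ≥ p i (i-1) > i (p n - r0 - 1)`, hence some
  `e_r ≥ p n - r0 = -k`, and `bb_kill` gives `0` (expand `(X_r - 1)^(e_r)` by the binomial theorem;
  the other factors are arbitrary monomials).
* `|S| = i ≤ n`: a monomial `u` of `PP` has `∑_{r∉S} u_r ≤ p(b-i)(b-i-1) + 2 p i (b-i)
  < (b-i)(p b - k - 1)`, so some `u_r < p b - k - 1`, `r ∉ S`, and `cc_kill` applies. -/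

namespace WPQ.RC

open MvPolynomial

noncomputable section

/-- The linear functional with the value `c u` at the monomial `X^u`. -/
private def rc5_T {b : ℕ} (c : (Fin b →₀ ℕ) → ℂ) : MvPolynomial (Fin b) ℂ →ₗ[ℂ] ℂ :=
  (basisMonomials (Fin b) ℂ).constr ℂ c

private theorem rc5_T_mon {b : ℕ} (c : (Fin b →₀ ℕ) → ℂ) (u : Fin b →₀ ℕ) (a : ℂ) :
    rc5_T c (monomial u a) = a * c u := by
  have h1 : (monomial u a : MvPolynomial (Fin b) ℂ) = a • (basisMonomials (Fin b) ℂ) u := by
    rw [coe_basisMonomials, smul_monomial, smul_eq_mul, mul_one]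
  rw [h1, map_smul, rc5_T, Module.Basis.constr_basis, smul_eq_mul]

private theorem rc5_T_eq {b : ℕ} (c : (Fin b →₀ ℕ) → ℂ) (f : MvPolynomial (Fin b) ℂ) :
    rc5_T c f = ∑ u ∈ f.support, coeff u f * c u := by
  conv_lhs => rw [f.as_sum]
  rw [map_sum]
  exact Finset.sum_congr rfl fun u _ => rc5_T_mon c u _

/-- The ideal of the polynomials all multiples of which are killed by `T`. -/
private def rc5_I {b : ℕ} (c : (Fin b →₀ ℕ) → ℂ) : Ideal (MvPolynomial (Fin b) ℂ) where
  carrier := {f | ∀ Q, rc5_T c (Q * f) = 0}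
  add_mem' := by
    intro f g hf hg Q
    rw [mul_add, map_add, hf Q, hg Q, add_zero]
  zero_mem' := by
    intro Q
    rw [mul_zero, map_zero]
  smul_mem' := by
    intro a f hf Q
    rw [smul_eq_mul, ← mul_assoc]
    exact hf (Q * a)

/-- The coefficients of the term of `S`. -/
private def rc5_c {b : ℕ} (B k : ℤ) (S : Finset (Fin b)) (u : Fin b →₀ ℕ) : ℂ :=
  (∏ r ∈ S, -bb B k (u r)) * ∏ r ∈ Finset.univ \ S, cc B k (u r)

private theorem rc5_kill {b : ℕ} (B k : ℤ) (S : Finset (Fin b)) (t : Fin b) (ht : t ∈ S) (e : ℕ)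
    (he : 0 ≤ (e : ℤ) + k) :
    ((X t - 1) ^ e : MvPolynomial (Fin b) ℂ) ∈ rc5_I (rc5_c B k S) := by
  classical
  have h0 : rc5_T (rc5_c B k S) ∘ₗ LinearMap.mulRight ℂ
      ((X t - 1) ^ e : MvPolynomial (Fin b) ℂ) = 0 := by
    refine (basisMonomials (Fin b) ℂ).ext fun u => ?_
    rw [coe_basisMonomials, LinearMap.comp_apply, LinearMap.mulRight_apply, LinearMap.zero_apply,
      sub_eq_add_neg, add_pow, Finset.mul_sum, map_sum]
    have h1 : ∀ m ∈ Finset.range (e + 1), rc5_T (rc5_c B k S) (monomial u 1 *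
        (X t ^ m * (-1) ^ (e - m) * ((e.choose m : ℕ) : MvPolynomial (Fin b) ℂ)))
        = -((∏ r ∈ S.erase t, -bb B k (u r)) * ∏ r ∈ Finset.univ \ S, cc B k (u r)) *
          ((-1 : ℂ) ^ (e - m) * (e.choose m : ℂ) * bb B k (u t + m)) := by
      intro m _
      have e1 : (monomial u 1 *
        (X t ^ m * (-1) ^ (e - m) * ((e.choose m : ℕ) : MvPolynomial (Fin b) ℂ)))
        = monomial (u + Finsupp.single t m) ((-1 : ℂ) ^ (e - m) * (e.choose m : ℂ)) := by
        have e2 : ((-1) ^ (e - m) * ((e.choose m : ℕ) : MvPolynomial (Fin b) ℂ))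
            = C ((-1 : ℂ) ^ (e - m) * (e.choose m : ℂ)) := by
          rw [map_mul, map_pow, map_neg, map_one, map_natCast]
        rw [mul_assoc, e2, X_pow_eq_monomial, mul_comm (monomial (Finsupp.single t m) (1 : ℂ)),
          C_mul_monomial, monomial_mul, one_mul, mul_one]
      have e3 : rc5_c B k S (u + Finsupp.single t m) = (-bb B k (u t + m)) *
          ((∏ r ∈ S.erase t, -bb B k (u r)) * ∏ r ∈ Finset.univ \ S, cc B k (u r)) := by
        rw [rc5_c, ← Finset.mul_prod_erase S _ ht, mul_assoc]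
        have e4 : (u + Finsupp.single t m) t = u t + m := by
          rw [Finsupp.add_apply, Finsupp.single_eq_same]
        have e5 : ∀ r, r ≠ t → (u + Finsupp.single t m) r = u r := by
          intro r hr
          rw [Finsupp.add_apply, Finsupp.single_eq_of_ne hr, add_zero]
        rw [e4]
        congr 2
        · exact Finset.prod_congr rfl fun r hr => by rw [e5 r (Finset.ne_of_mem_erase hr)]
        · refine Finset.prod_congr rfl fun r hr => ?_
          rw [Finset.mem_sdiff] at hr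
          rw [e5 r (fun h => hr.2 (h ▸ ht))]
      rw [e1, rc5_T_mon, e3]
      ring
    rw [Finset.sum_congr rfl h1, ← Finset.mul_sum, bb_kill B k e he (u t), mul_zero]
  intro Q
  exact LinearMap.congr_fun h0 Q

private theorem rc5_span {R : Type*} [CommRing R] {σ : Type*} (I : Ideal R) (Y : σ → R) (e : ℕ)
    (S : Finset σ) (hS : S.Nonempty) (h : ∀ t ∈ S, Y t ^ e ∈ I) :
    (Ideal.span (Y '' S)) ^ (S.card * e) ≤ I := by
  classical
  induction hS using Finset.Nonempty.cons_induction with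
  | singleton a =>
    rw [Finset.card_singleton, one_mul, Finset.coe_singleton, Set.image_singleton,
      Ideal.span_singleton_pow, Ideal.span_singleton_le_iff_mem]
    exact h a (Finset.mem_singleton_self a)
  | cons a S ha hS ih =>
    rw [Finset.card_cons, Finset.coe_cons, Set.image_insert_eq, Ideal.span_insert, add_mul,
      one_mul, add_comm]
    refine (Ideal.sup_pow_add_le_pow_sup_pow).trans (sup_le ?_ ?_)
    · rw [Ideal.span_singleton_pow, Ideal.span_singleton_le_iff_mem]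
      exact h a (Finset.mem_cons_self a S)
    · exact ih fun t ht => h t (Finset.mem_cons_of_mem ht)

private theorem rc5_sym {b : ℕ} (g : Fin b → Fin b → ℕ) (hg : ∀ r s, g r s = g s r) :
    2 * ∑ r : Fin b, ∑ s ∈ Finset.univ.filter (fun s => r < s), g r s
      = ∑ x ∈ (Finset.univ : Finset (Fin b)).offDiag, g x.1 x.2 := by
  classical
  have h1 : ∑ x ∈ (Finset.univ : Finset (Fin b)).offDiag, g x.1 x.2
      = ∑ r : Fin b, ∑ s : Fin b, if r ≠ s then g r s else 0 := by
    rw [← Finset.sum_product', ← Finset.sum_filter]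
    refine Finset.sum_congr ?_ fun x _ => rfl
    ext x
    simp [Finset.mem_offDiag]
  have h2 : ∀ r : Fin b, ∑ s : Fin b, (if r ≠ s then g r s else 0)
      = ∑ s : Fin b, (if r < s then g r s else 0) + ∑ s : Fin b, (if s < r then g r s else 0) := by
    intro r
    rw [← Finset.sum_add_distrib]
    refine Finset.sum_congr rfl fun s _ => ?_
    rcases lt_trichotomy r s with h | h | h
    · rw [if_pos h.ne, if_pos h, if_neg h.not_gt, add_zero]
    · rw [if_neg (by simpa using h), if_neg (by rw [h]; exact lt_irrefl s),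
        if_neg (by rw [h]; exact lt_irrefl s)]
    · rw [if_pos h.ne', if_neg h.not_gt, if_pos h, zero_add]
  have h3 : ∑ r : Fin b, ∑ s : Fin b, (if s < r then g r s else 0)
      = ∑ r : Fin b, ∑ s : Fin b, (if r < s then g r s else 0) := by
    rw [Finset.sum_comm]
    refine Finset.sum_congr rfl fun r _ => Finset.sum_congr rfl fun s _ => ?_
    rw [hg s r]
  rw [h1]
  simp only [h2, Finset.sum_add_distrib]
  rw [h3, ← two_mul]
  simp only [Finset.sum_filter]

private theorem rc5_count {b : ℕ} (S : Finset (Fin b)) :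
    2 * ∑ r : Fin b, ∑ s ∈ Finset.univ.filter (fun s => r < s),
      (if r ∈ S ∧ s ∈ S then 1 else 0) = S.card * S.card - S.card := by
  classical
  rw [rc5_sym (fun r s => if r ∈ S ∧ s ∈ S then 1 else 0)
    (fun r s => by simp only [and_comm]), ← Finset.offDiag_card, ← Finset.sum_filter,
    Finset.card_eq_sum_ones]
  refine Finset.sum_congr ?_ fun x _ => rfl
  ext x
  simp only [Finset.mem_filter, Finset.mem_offDiag, Finset.mem_univ, true_and]
  tauto

private theorem rc5_count' {b : ℕ} (S : Finset (Fin b)) :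
    2 * ∑ r : Fin b, ∑ s ∈ Finset.univ.filter (fun s => r < s),
      (if r ∈ S ∧ s ∈ S then 0 else 1) + (S.card * S.card - S.card) = b * b - b := by
  classical
  have h1 := rc5_count (Finset.univ : Finset (Fin b))
  rw [Finset.card_univ, Fintype.card_fin] at h1
  rw [← rc5_count S, ← h1, ← mul_add, ← Finset.sum_add_distrib]
  congr 1
  refine Finset.sum_congr rfl fun r _ => ?_
  rw [← Finset.sum_add_distrib]
  refine Finset.sum_congr rfl fun s _ => ?_
  by_cases h : r ∈ S ∧ s ∈ S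
  · rw [if_pos h, if_pos h, if_pos ⟨Finset.mem_univ r, Finset.mem_univ s⟩]
  · rw [if_neg h, if_neg h, if_pos ⟨Finset.mem_univ r, Finset.mem_univ s⟩]

/-- The many factors in the variables of `S`. -/
private theorem rc5_PP_mem {b p : ℕ} (S : Finset (Fin b)) :
    PP b p ∈ (Ideal.span ((fun t => (X t - 1 : MvPolynomial (Fin b) ℂ)) '' S))
      ^ (p * (S.card * S.card - S.card)) := by
  classical
  obtain ⟨M, hM⟩ : ∃ M, M = Ideal.span ((fun t => (X t - 1 : MvPolynomial (Fin b) ℂ)) '' S) :=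
    ⟨_, rfl⟩
  rw [← hM]
  have h1 : PP b p ∈ ∏ r : Fin b, ∏ s ∈ Finset.univ.filter (fun s => r < s),
      M ^ (2 * p * (if r ∈ S ∧ s ∈ S then 1 else 0)) := by
    rw [PP]
    refine Ideal.prod_mem_prod fun r _ => Ideal.prod_mem_prod fun s _ => ?_
    by_cases h : r ∈ S ∧ s ∈ S
    · rw [if_pos h, mul_one]
      refine Ideal.pow_mem_pow ?_ _
      have e1 : (X r - X s : MvPolynomial (Fin b) ℂ) = (X r - 1) - (X s - 1) := by ring
      rw [e1, hM]
      exact sub_mem (Ideal.subset_span ⟨r, h.1, rfl⟩) (Ideal.subset_span ⟨s, h.2, rfl⟩)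
    · rw [if_neg h, mul_zero, pow_zero, Ideal.one_eq_top]
      exact Submodule.mem_top
  have h2 : (∏ r : Fin b, ∏ s ∈ Finset.univ.filter (fun s => r < s),
      M ^ (2 * p * (if r ∈ S ∧ s ∈ S then 1 else 0))) = M ^ (p * (S.card * S.card - S.card)) := by
    simp only [Finset.prod_pow_eq_pow_sum, ← Finset.mul_sum]
    rw [← rc5_count S]
    congr 1
    ring
  rwa [h2] at h1

/-- The degree in the variables outside `S`. -/
private def rc5_Q {b : ℕ} (S : Finset (Fin b)) (D : ℕ) (f : MvPolynomial (Fin b) ℂ) : Prop :=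
  ∀ u, coeff u f ≠ 0 → ∑ r ∈ Finset.univ \ S, u r ≤ D

private theorem rc5_Q_one {b : ℕ} (S : Finset (Fin b)) : rc5_Q S 0 1 := by
  classical
  intro u hu
  rw [coeff_one] at hu
  by_cases h0 : 0 = u
  · rw [← h0]
    simp
  · rw [if_neg h0] at hu
    exact absurd rfl hu

private theorem rc5_Q_mul {b : ℕ} (S : Finset (Fin b)) {D D' : ℕ} {f g : MvPolynomial (Fin b) ℂ}
    (hf : rc5_Q S D f) (hg : rc5_Q S D' g) : rc5_Q S (D + D') (f * g) := by
  classical
  intro u hu
  rw [coeff_mul] at hu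
  obtain ⟨x, hx, hne⟩ := Finset.exists_ne_zero_of_sum_ne_zero hu
  rw [← Finset.HasAntidiagonal.mem_antidiagonal.1 hx]
  simp only [Finsupp.add_apply, Finset.sum_add_distrib]
  exact add_le_add (hf _ (left_ne_zero_of_mul hne)) (hg _ (right_ne_zero_of_mul hne))

private theorem rc5_Q_pow {b : ℕ} (S : Finset (Fin b)) {D : ℕ} {f : MvPolynomial (Fin b) ℂ}
    (hf : rc5_Q S D f) (n : ℕ) : rc5_Q S (n * D) (f ^ n) := by
  induction n with
  | zero => rw [zero_mul, pow_zero]; exact rc5_Q_one S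
  | succ n ih => rw [add_mul, one_mul, pow_succ]; exact rc5_Q_mul S ih hf

private theorem rc5_Q_prod {b : ℕ} (S : Finset (Fin b)) {τ : Type} (U : Finset τ) (D : τ → ℕ)
    (f : τ → MvPolynomial (Fin b) ℂ) (h : ∀ t ∈ U, rc5_Q S (D t) (f t)) :
    rc5_Q S (∑ t ∈ U, D t) (∏ t ∈ U, f t) := by
  classical
  induction U using Finset.induction_on with
  | empty => rw [Finset.sum_empty, Finset.prod_empty]; exact rc5_Q_one S
  | insert a U ha ih =>
    rw [Finset.sum_insert ha, Finset.prod_insert ha]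
    exact rc5_Q_mul S (h a (Finset.mem_insert_self a U))
      (ih fun t ht => h t (Finset.mem_insert_of_mem ht))

private theorem rc5_Q_X {b : ℕ} (S : Finset (Fin b)) (r s : Fin b) :
    rc5_Q S (if r ∈ S ∧ s ∈ S then 0 else 1) (X r - X s : MvPolynomial (Fin b) ℂ) := by
  classical
  intro u hu
  have hsum : ∀ t : Fin b, ∑ q ∈ Finset.univ \ S, (Finsupp.single t 1 : Fin b →₀ ℕ) q
      = if t ∈ S then 0 else 1 := by
    intro t
    simp only [Finsupp.single_apply]
    rw [Finset.sum_ite_eq]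
    by_cases h : t ∈ S
    · rw [if_pos h, if_neg (by simpa using h)]
    · rw [if_neg h, if_pos (by simpa using h)]
  rw [coeff_sub, coeff_X, coeff_X] at hu
  by_cases h1 : Finsupp.single r 1 = u
  · rw [← h1, hsum]
    by_cases hr : r ∈ S
    · rw [if_pos hr]
      exact Nat.zero_le _
    · rw [if_neg hr, if_neg (fun h => hr h.1)]
  · by_cases h2 : Finsupp.single s 1 = u
    · rw [← h2, hsum]
      by_cases hs : s ∈ S
      · rw [if_pos hs]
        exact Nat.zero_le _
      · rw [if_neg hs, if_neg (fun h => hs h.2)]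
    · rw [if_neg h1, if_neg h2, sub_zero] at hu
      exact absurd rfl hu

private theorem rc5_deg {b p : ℕ} (S : Finset (Fin b)) (u : Fin b →₀ ℕ)
    (hu : coeff u (PP b p) ≠ 0) :
    ∑ r ∈ Finset.univ \ S, u r + p * (S.card * S.card - S.card) ≤ p * (b * b - b) := by
  classical
  have h1 : rc5_Q S (∑ r : Fin b, ∑ s ∈ Finset.univ.filter (fun s => r < s),
      2 * p * (if r ∈ S ∧ s ∈ S then 0 else 1)) (PP b p) := by
    rw [PP]
    exact rc5_Q_prod S _ _ _ fun r _ => rc5_Q_prod S _ _ _ fun s _ => rc5_Q_pow S (rc5_Q_X S r s) _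
  have h2 := h1 u hu
  simp only [← Finset.mul_sum] at h2
  rw [← rc5_count' S, mul_add]
  have h3 : 2 * p * ∑ r : Fin b, ∑ s ∈ Finset.univ.filter (fun s => r < s),
      (if r ∈ S ∧ s ∈ S then 0 else 1) = p * (2 * ∑ r : Fin b,
        ∑ s ∈ Finset.univ.filter (fun s => r < s), (if r ∈ S ∧ s ∈ S then 0 else 1)) := by ring
  rw [h3] at h2
  exact Nat.add_le_add_right h2 _

theorem MM_zero (b p n r0 : ℕ) (hn : n < b) (hr : r0 + 2 ≤ p) :
    MM b p ((r0 : ℂ) - p * n) = 0 := by
  classical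
  obtain ⟨k, hk⟩ : ∃ k : ℤ, k = (r0 : ℤ) - p * n := ⟨_, rfl⟩
  have hkC : ((r0 : ℂ) - p * n) = (k : ℂ) := by
    rw [hk]
    push_cast
    ring
  rw [hkC]
  obtain ⟨B, hB⟩ : ∃ B : ℤ, B = (p : ℤ) * b := ⟨_, rfl⟩
  have h1 : MM b p (k : ℂ) = ∑ S ∈ (Finset.univ : Finset (Fin b)).powerset,
      rc5_T (rc5_c B k S) (PP b p) := by
    simp only [rc5_T_eq]
    rw [Finset.sum_comm, MM, MN]
    refine Finset.sum_congr rfl fun u _ => ?_
    rw [← Finset.mul_sum]
    congr 1
    have h2 : ∀ r : Fin b, eeZ (k : ℂ) ((p : ℤ) * b - 1 - u r) = -bb B k (u r) + cc B k (u r) := by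
      intro r
      rw [bb, aa, hB]
      ring
    simp only [h2]
    rw [Finset.prod_add]
    rfl
  rw [h1]
  refine Finset.sum_eq_zero fun S _ => ?_
  have hScard : S.card ≤ b := by
    have := Finset.card_le_univ S
    rwa [Fintype.card_fin] at this
  rcases Nat.lt_or_ge n S.card with hn' | hn'
  · -- many residues
    have hS : S.Nonempty := Finset.card_pos.1 (by omega)
    obtain ⟨e, he⟩ : ∃ e : ℕ, e = p * n - r0 := ⟨_, rfl⟩
    have he0 : 0 ≤ (e : ℤ) + k := by
      rw [hk]
      obtain ⟨q, hq⟩ : ∃ q, q = p * n := ⟨_, rfl⟩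
      have hq' : (p : ℤ) * n = (q : ℤ) := by
        rw [hq]
        push_cast
        rfl
      rw [← hq] at he
      rw [hq']
      omega
    have h3 := rc5_span (rc5_I (rc5_c B k S)) (fun t => (X t - 1 : MvPolynomial (Fin b) ℂ)) e S hS
      (fun t ht => rc5_kill B k S t ht e he0)
    have h4 : PP b p ∈ rc5_I (rc5_c B k S) := by
      refine h3 ?_
      refine Ideal.pow_le_pow_right ?_ (rc5_PP_mem S)
      have h5 : S.card * S.card - S.card = S.card * (S.card - 1) := by
        rw [Nat.mul_sub, mul_one]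
      rw [h5, he]
      calc S.card * (p * n - r0) ≤ S.card * (p * n) := Nat.mul_le_mul_left _ (Nat.sub_le _ _)
        _ ≤ S.card * (p * (S.card - 1)) :=
            Nat.mul_le_mul_left _ (Nat.mul_le_mul_left _ (by omega))
        _ = p * (S.card * (S.card - 1)) := by ring
    have h6 := h4 1
    rwa [one_mul] at h6
  · -- few residues
    rw [rc5_T_eq]
    refine Finset.sum_eq_zero fun u hu => ?_
    rw [mem_support_iff] at hu
    have h3 := rc5_deg S u hu
    have h4 : ∃ r ∈ Finset.univ \ S, ((u r : ℕ) : ℤ) < B - k - 1 := by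
      by_contra hcon
      push Not at hcon
      have h5 : ∑ r ∈ Finset.univ \ S, (B - k - 1) ≤ ∑ r ∈ Finset.univ \ S, ((u r : ℕ) : ℤ) :=
        Finset.sum_le_sum hcon
      rw [Finset.sum_const, nsmul_eq_mul, Finset.card_univ_sdiff, Fintype.card_fin] at h5
      have h6 : ∑ r ∈ Finset.univ \ S, ((u r : ℕ) : ℤ)
          = ((∑ r ∈ Finset.univ \ S, u r : ℕ) : ℤ) := by
        push_cast
        rfl
      rw [h6] at h5
      obtain ⟨σ, hσ⟩ : ∃ σ, σ = ∑ r ∈ Finset.univ \ S, u r := ⟨_, rfl⟩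
      rw [← hσ] at h3 h5
      obtain ⟨i, hi⟩ : ∃ i, i = S.card := ⟨_, rfl⟩
      rw [← hi] at h3 h5 hn' hScard
      have h7 : (σ : ℤ) + p * ((i : ℤ) * i - i) ≤ p * ((b : ℤ) * b - b) := by
        have h8 : ((i * i - i : ℕ) : ℤ) = (i : ℤ) * i - i := by
          rw [Nat.cast_sub (Nat.le_mul_self i)]
          push_cast
          rfl
        have h9 : ((b * b - b : ℕ) : ℤ) = (b : ℤ) * b - b := by
          rw [Nat.cast_sub (Nat.le_mul_self b)]
          push_cast
          rfl
        rw [← h8, ← h9]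
        exact_mod_cast h3
      have h10 : ((b - i : ℕ) : ℤ) = (b : ℤ) - i := Nat.cast_sub hScard
      rw [h10, hB, hk] at h5
      have h11 : (0 : ℤ) < (b : ℤ) - i := by
        have : i < b := by omega
        have : (i : ℤ) < b := by exact_mod_cast this
        linarith
      have h12 : (0 : ℤ) < (p : ℤ) * ((n : ℤ) - i) + p - r0 - 1 := by
        have h13 : (0 : ℤ) ≤ (p : ℤ) * ((n : ℤ) - i) := by
          refine mul_nonneg (Nat.cast_nonneg p) ?_
          have : (i : ℤ) ≤ n := by exact_mod_cast hn'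
          linarith
        have h14 : (r0 : ℤ) + 2 ≤ p := by exact_mod_cast hr
        linarith
      have h15 := mul_pos h11 h12
      have h16 : ((b : ℤ) - i) * ((p : ℤ) * ((n : ℤ) - i) + p - r0 - 1)
          = ((b : ℤ) - i) * ((p : ℤ) * b - ((r0 : ℤ) - p * n) - 1)
            + p * ((i : ℤ) * i - i) - p * ((b : ℤ) * b - b) := by ring
      rw [h16] at h15
      linarith
    obtain ⟨r, hr, hlt⟩ := h4
    rw [rc5_c, Finset.prod_eq_zero hr (cc_kill B k (u r) hlt), mul_zero, mul_zero]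

end

end WPQ.RC
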