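import Pool.Agent.WPQ.RC3
import Pool.Agent.WPQ.RC5

/-! [WPQ-RC6] `M_b(k) ≠ 0` for integers `k ≤ -p b`.

Plan: the polynomial `Q` of `MM_poly` has degree `≤ b(p-1)`, is nonzero (`MM_at_ne_zero`), and has the
`b (p-1)` distinct zeros `r0 - p n` (`0 ≤ n < b`, `0 ≤ r0 ≤ p-2`; distinct since `0 ≤ r0 < p`).  So
these are all its zeros (`Polynomial.card_roots'`); all of them are `≥ -p(b-1) > -p b`. -/

namespace WPQ.RC

open MvPolynomial

noncomputable section

theorem MM_ne_zero (b p : ℕ) (hp : 1 ≤ p) (k : ℤ) (hk : k ≤ -((p : ℤ) * b)) : MM b p k ≠ 0 := by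
  intro h0
  obtain ⟨Q, hdeg, hQ⟩ := MM_poly b p hp
  have hQ0 : Q ≠ 0 := by
    rintro rfl
    have h1 := MM_at_ne_zero b p hp
    rw [hQ] at h1
    simp at h1
  let f : ℕ × ℕ → ℤ := fun x => (x.2 : ℤ) - p * x.1
  let Z : Finset ℤ := (Finset.range b ×ˢ Finset.range (p - 1)).image f
  have hp0 : (0 : ℤ) < p := by exact_mod_cast hp
  have hinj : Set.InjOn f ((Finset.range b ×ˢ Finset.range (p - 1) : Finset (ℕ × ℕ)) :
      Set (ℕ × ℕ)) := by
    rintro ⟨n, r⟩ hx ⟨n', r'⟩ hy hxy
    simp only [Finset.coe_product, Finset.coe_range, Set.mem_prod, Set.mem_Iio] at hx hy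
    have hxy' : (r : ℤ) - p * n = (r' : ℤ) - p * n' := hxy
    have hr : (r : ℤ) < p := by omega
    have hr' : (r' : ℤ) < p := by omega
    have hnn : n = n' := by
      rcases lt_trichotomy n n' with h | h | h
      · exfalso
        have h1 : (p : ℤ) * n + p ≤ p * n' := by
          have h2 : (n : ℤ) + 1 ≤ n' := by exact_mod_cast h
          nlinarith
        have h3 : (0 : ℤ) ≤ r := by positivity
        linarith
      · exact h
      · exfalso
        have h1 : (p : ℤ) * n' + p ≤ p * n := by
          have h2 : (n' : ℤ) + 1 ≤ n := by exact_mod_cast h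
          nlinarith
        have h3 : (0 : ℤ) ≤ r' := by positivity
        linarith
    subst hnn
    have hrr : (r : ℤ) = r' := by linarith
    have hrr' : r = r' := by exact_mod_cast hrr
    rw [hrr']
  have hcard : Z.card = b * (p - 1) := by
    rw [Finset.card_image_of_injOn hinj, Finset.card_product, Finset.card_range,
      Finset.card_range]
  have hkZ : k ∉ Z := by
    intro hmem
    obtain ⟨⟨n, r⟩, hx, hxk⟩ := Finset.mem_image.1 hmem
    simp only [Finset.mem_product, Finset.mem_range] at hx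
    have h1 : (r : ℤ) - p * n = k := hxk
    have h2 : (p : ℤ) * n + p ≤ p * b := by
      have h3 : (n : ℤ) + 1 ≤ b := by exact_mod_cast hx.1
      nlinarith
    have h3 : (0 : ℤ) ≤ r := by positivity
    linarith
  have hroot : ∀ z ∈ insert k Z, Q.eval (z : ℂ) = 0 := by
    intro z hz
    rcases Finset.mem_insert.1 hz with rfl | hz
    · rw [← hQ, h0]
    · obtain ⟨⟨n, r⟩, hx, rfl⟩ := Finset.mem_image.1 hz
      simp only [Finset.mem_product, Finset.mem_range] at hx
      have h1 : MM b p ((r : ℂ) - p * n) = 0 := MM_zero b p n r hx.1 (by omega)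
      rw [hQ] at h1
      have h2 : ((f (n, r) : ℤ) : ℂ) = (r : ℂ) - p * n := by
        simp only [f]
        push_cast
        ring
      rw [h2, h1]
  have hsub : (insert k Z).image (fun z : ℤ => (z : ℂ)) ⊆ Q.roots.toFinset := by
    intro w hw
    obtain ⟨z, hz, rfl⟩ := Finset.mem_image.1 hw
    rw [Multiset.mem_toFinset, Polynomial.mem_roots hQ0]
    exact hroot z hz
  have hc1 : ((insert k Z).image (fun z : ℤ => (z : ℂ))).card = b * (p - 1) + 1 := by
    rw [Finset.card_image_of_injective _ Int.cast_injective, Finset.card_insert_of_notMem hkZ,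
      hcard]
  have h1 := Finset.card_le_card hsub
  have h2 : Q.roots.toFinset.card ≤ Q.natDegree :=
    (Multiset.toFinset_card_le _).trans (Polynomial.card_roots' Q)
  rw [hc1] at h1
  exact absurd (h1.trans (h2.trans hdeg)) (by omega)

end

end WPQ.RC
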