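import Pool.Agent.WPQ.RR1
import Pool.Agent.WPQ.FL6
import Pool.Agent.WPQ.RC6

/-! [WPQ-RR2] `E_j^n` is injective on charges `γ` with `(α_j,γ) = -n`.

Plan.  Strong induction on the degree `d` of `f` (all `γ`, `n`).  `d = 0`: `f` is a nonzero constant and
`EN A p j (-(p n)) n 1 ≠ 0` because `ev c (EN ..) = RC.MN n p (p n - 1) (c j) = RC.MM n p k ≠ 0` for
`c j = k = -(p n)` (`ev_EN_one`, `RC.MM_ne_zero`).  `d > 0`: `density_step` gives `λ`, `q` with
`f' = vop (-λ) (-q) f ≠ 0` of degree `d - q`; `e^{-λ}_s (single γ f) = ± single (γ-λ) f'` for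
`s = q - 1 - formZ (-λ) γ`; `(α_j, γ-λ) = -(n+m)`, `m = pr A j λ`.  If `E_j^n (single γ f) = 0` then by
`AF.pow_br` and `nilp_exp` `E_j^(n+m) (e^{-λ}_s (single γ f)) = ∑_i C(n+m,i) ((br)^[n+m-i] e^{-λ})_s
(E_j^i (single γ f)) = 0` (for `i < n` the bracket vanishes, for `i ≥ n` the vector), contradicting the
induction hypothesis. -/

namespace WPQ

open MvPolynomial AF

noncomputable section

variable {ι : Type} [Fintype ι] [DecidableEq ι] {A : Matrix ι ι ℤ} {p : ℕ}

omit [Fintype ι] in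
theorem rr2_const (f : Fock ι) (hf : FH f 0) : ∃ c : ℂ, f = C c := by
  refine ⟨coeff 0 f, ?_⟩
  ext m
  rw [coeff_C]
  by_cases hm : m = 0
  · rw [if_pos hm.symm, hm]
  · rw [if_neg (fun h => hm h.symm)]
    by_contra h
    have h1 := hf h
    apply hm
    rw [Finsupp.weight_apply, Finsupp.sum] at h1
    rw [Finset.sum_eq_zero_iff] at h1
    ext x
    by_contra hx
    have h2 := h1 x (Finsupp.mem_support_iff.2 hx)
    rw [smul_eq_mul, mul_eq_zero] at h2
    rcases h2 with h2 | h2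
    · exact hx h2
    · exact absurd h2 (by unfold wF; omega)

omit [Fintype ι] [DecidableEq ι] in
theorem rr2_iter (E E' : VL ι →ₗ[ℂ] VL ι) (k : ℕ) :
    (br E E')^[k] (0 : ℤ → VL ι →ₗ[ℂ] VL ι) = 0 := by
  induction k with
  | zero => rfl
  | succ k ih =>
    rw [Function.iterate_succ_apply', ih]
    funext n
    refine LinearMap.ext fun v => ?_
    show E' ((0 : VL ι →ₗ[ℂ] VL ι) v) - (0 : VL ι →ₗ[ℂ] VL ι) (E v) = 0
    rw [LinearMap.zero_apply, LinearMap.zero_apply, map_zero, sub_zero]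

theorem rr2_base (hA : IsADE A) (hp : 1 ≤ p) (j : ι) (n : ℕ) : EN A p j (-(p * n : ℤ)) n 1 ≠ 0 := by
  intro h
  have h1 := ev_EN_one A hA p j (-(p * n : ℤ)) n (fun _ => ((-(p * n : ℤ) : ℤ) : ℂ))
  rw [h, map_zero] at h1
  have h2 : RC.MN n p (-1 - (-(p * n : ℤ))) ((-(p * n : ℤ) : ℤ) : ℂ) = RC.MM n p ((-(p * n : ℤ) : ℤ) : ℂ) := by
    unfold RC.MM
    congr 1
    ring
  rw [h2] at h1
  exact RC.MM_ne_zero n p hp (-(p * n : ℤ)) le_rfl h1.symm

theorem Ej_pow_ne_zero (hA : IsADE A) (hp : 1 ≤ p) (ε : Cocycle A p) (j : ι) (d : ℕ) (n : ℕ)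
    (γ : ι → ℤ) (hn : pr A j γ = -(n : ℤ)) (f : Fock ι) (hf : FH f d) (h0 : f ≠ 0) :
    (Ej ε (Shift.zero A p) j ^ n) (Finsupp.single γ f) ≠ 0 := by
  induction d using Nat.strong_induction_on generalizing n γ f with
  | _ d ih =>
  rcases Nat.eq_zero_or_pos d with hd | hd
  · subst hd
    obtain ⟨c, rfl⟩ := rr2_const f hf
    have hc : c ≠ 0 := by
      rintro rfl
      exact h0 (map_zero C)
    rw [Ej_pow_single hA ε (Shift.zero A p) j γ n, Ne, Finsupp.single_eq_zero]
    have hκ : (Shift.zero A p).κ j + p * pr A j γ = -(p * n : ℤ) := by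
      rw [hn]
      show (0 : ℤ) + _ = _
      ring
    rw [hκ]
    have e1 : (C c : Fock ι) = c • (1 : Fock ι) := by
      rw [smul_eq_C_mul, mul_one]
    rw [e1, map_smul]
    exact smul_ne_zero (es_ne_zero ε j γ n) (smul_ne_zero hc (rr2_base hA hp j n))
  · obtain ⟨lam, q, hlam, hq1, hqd, hS, hv⟩ := density_step hA hp f d hf hd h0
    obtain ⟨m, hm⟩ := Int.eq_ofNat_of_zero_le (hlam j)
    intro hzero
    have hf' : FH (vop A p (toC (-lam)) (-(q : ℤ)) f) (d - q) :=
      vop_homog A p _ _ f d (d - q) hf (by omega)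
    have hne : vop A p (toC (-lam)) (-(q : ℤ)) f ≠ 0 := by
      rw [hv]; exact hS
    have hidx : -((q : ℤ) - 1 - formZ A p (-lam) γ) - 1 - (Shift.zero A p).dot (-lam) -
        formZ A p (-lam) γ = -(q : ℤ) := by
      have : (Shift.zero A p).dot (-lam) = 0 := by
        unfold Shift.dot Shift.zero
        simp
      rw [this]
      ring
    have hs := expS_single ε (Shift.zero A p) (-lam) γ ((q : ℤ) - 1 - formZ A p (-lam) γ) f
    rw [hidx] at hs
    have hε : ((ε.ε (-lam) γ : ℤ) : ℂ) ≠ 0 := by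
      exact_mod_cast (ε.ε (-lam) γ).ne_zero
    have hpr : pr A j (-lam + γ) = -((n + m : ℕ) : ℤ) := by
      have : pr A j (-lam + γ) = -pr A j lam + pr A j γ := by
        unfold pr
        rw [← Finset.sum_neg_distrib, ← Finset.sum_add_distrib]
        refine Finset.sum_congr rfl fun i _ => ?_
        simp only [Pi.add_apply, Pi.neg_apply]
        ring
      rw [this, hm, hn]
      push_cast
      ring
    have hIH := ih (d - q) (by omega) (n + m) (-lam + γ) hpr
      (((ε.ε (-lam) γ : ℤ) : ℂ) • vop A p (toC (-lam)) (-(q : ℤ)) f)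
      (by
        rw [smul_eq_C_mul]
        have := (isWeightedHomogeneous_C (wF (ι := ι)) (((ε.ε (-lam) γ : ℤ) : ℂ))).mul hf'
        rwa [zero_add] at this)
      (smul_ne_zero hε hne)
    apply hIH
    rw [← hs, pow_br]
    refine Finset.sum_eq_zero fun i hi => ?_
    by_cases hin : n ≤ i
    · have h1 : (Ej ε (Shift.zero A p) j ^ i) (Finsupp.single γ f) = 0 := by
        obtain ⟨k, rfl⟩ := Nat.exists_eq_add_of_le hin
        rw [add_comm, pow_add, Module.End.mul_apply, hzero, map_zero]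
      rw [h1, map_zero, smul_zero]
    · have h2 : (br (Ej ε (Shift.zero A p) j) (Ej ε (Shift.zero A p) j))^[n + m - i]
          (expS ε (Shift.zero A p) (-lam)) = 0 := by
        have h3 : n + m - i = (n - i - 1) + (m + 1) := by
          rw [not_le] at hin
          omega
        rw [h3, Function.iterate_add_apply, nilp_exp hA hp ε j lam m hm]
        exact rr2_iter _ _ _
      rw [h2]
      simp

end

end WPQ
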