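import Pool.Agent.WPQ.DU1
import Pool.Agent.WPQ.RR2

/-! [WPQ-RD1] The reduction: singular vectors.

Plan.  `sing_exists`: `exists_left` with `I = Img n` (`Img_le`) gives `t ≠ 0`.  For `s ≥ 2Δ_i - 1` write
`s = 2Δ_i - 2 + s'`, `s' ≥ 1`: for `w ∈ Wn (n - Δ_i - s' + 1)`:
`beta (cS s t) w = ± beta t (cS (-s') w) = 0` (`beta_cS`), and `cS s t ∈ Wn (n - Δ_i - s' + 1)`
(`cS_mem_W`, `cS_Vn`), so `cS s t = 0` by `beta_left`.  Similarly `LS k t = 0` by `beta_LS`.
(`t ∈ UU` by `Wn_le_UU`.)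
`sing_dom`: the space `T` of all `t ∈ Wn n` with the two properties is a submodule, charge graded
(`cS_comp`: `cS js s (single γ f)` is `single` of charge `γ - λ + ∑ rt`; so components of `t` satisfy
the conditions separately) and stable under `E_j` (`cS js s E_j = E_j cS js s - cS (j::js) s`,
`LS_Ej`).  If `single γ f ∈ T`, `f ≠ 0` and `pr A j γ = -b < 0` then `E_j^b (single γ f) ≠ 0`
(`Ej_pow_ne_zero`) is in `T`, of charge `γ + b rt j` of larger height; the charges with `Vn n` component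
are bounded (`wtExp γ ≤ n` is a finite set, `wtExp_finite`), so the process ends with a dominant
charge. -/

namespace WPQ

open MvPolynomial AF

noncomputable section

variable {ι : Type} [Fintype ι] [DecidableEq ι] {A : Matrix ι ι ℤ} {p : ℕ}

/-- The span of `c_{-s} w` (`c` in the `E`-module of `e^{-λ_i}`, `s ≥ 1`) and `L(-k) w` (`k ≥ 2`) in
weight `n`. -/
def Img (ε : Cocycle A p) (lam : ι → ι → ℤ) (n : ℤ) : Submodule ℂ (VL ι) :=
  Submodule.span ℂ ({x | ∃ (i : ι) (js : List ι) (s : ℕ) (w : VL ι), 1 ≤ s ∧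
      w ∈ Wn A p (n - wtExp A p (-lam i) - s + 1) ∧
      x = cS ε (Shift.zero A p) (lam i) js (-(s : ℤ)) w} ∪
    {x | ∃ (k : ℕ) (w : VL ι), 2 ≤ k ∧ w ∈ Wn A p (n - k) ∧
      x = LS (Shift.zero A p) (-(k : ℤ)) w})

/-- Singular vectors. -/
def Sing (ε : Cocycle A p) (lam : ι → ι → ℤ) (t : VL ι) : Prop :=
  (∀ (i : ι) (js : List ι) (s : ℤ), 2 * wtExp A p (-lam i) - 1 ≤ s →
    cS ε (Shift.zero A p) (lam i) js s t = 0) ∧
  ∀ k : ℕ, 2 ≤ k → LS (Shift.zero A p) k t = 0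

theorem Img_le (hA : IsADE A) (hp : 2 ≤ p) (ε : Cocycle A p) (lam : ι → ι → ℤ)
    (hl : ∀ i, Dom A (lam i)) (n : ℤ) : Img ε lam n ≤ Wn A p n := by
  unfold Img
  rw [Submodule.span_le]
  rintro x (⟨i, js, s, w, _, hw, rfl⟩ | ⟨k, w, _, hw, rfl⟩)
  · refine ⟨cS_mem_W hA hp ε (lam i) (hl i) js _ w hw.1, ?_⟩
    have := cS_Vn hA ε (lam i) js (-(s : ℤ)) _ w hw.2
    have e : n - wtExp A p (-lam i) - s + 1 + wtExp A p (-lam i) - (-(s : ℤ)) - 1 = n := by ring
    rw [e] at this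
    exact this
  · refine ⟨W_LS hA (by omega) _ w hw.1, ?_⟩
    have := LS_Vn (-(k : ℤ)) _ w hw.2
    have e : n - k - (-(k : ℤ)) = n := by ring
    rw [e] at this
    exact this

theorem sing_exists (hA : IsADE A) (hp : 2 ≤ p) (ε : Cocycle A p) (lam : ι → ι → ℤ)
    (hl : ∀ i, Dom A (lam i)) (n : ℤ) (h : Img ε lam n ≠ Wn A p n) :
    ∃ t ∈ Wn A p n, t ≠ 0 ∧ Sing ε lam t := by
  have hp1 : 1 ≤ p := by omega
  obtain ⟨τ, hτ⟩ := exists_tau (A := A) (p := p) hA hp1
  obtain ⟨t, ht, h0, hI⟩ := exists_left hA hp ε τ hτ n (Img ε lam n) (Img_le hA hp ε lam hl n) h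
  have htU : t ∈ UU ε := Wn_le_UU hA hp ε n ht
  refine ⟨t, ht, h0, ?_, ?_⟩
  · intro i js s hs
    refine beta_left hA hp ε τ hτ (n + wtExp A p (-lam i) - s - 1) _
      ⟨cS_mem_W hA hp ε (lam i) (hl i) js s t ht.1, cS_Vn hA ε (lam i) js s n t ht.2⟩ ?_
    intro w hw
    rw [beta_cS hA hp ε τ hτ (lam i) (hl i) js s t w htU hw.1]
    have hmem : cS ε (Shift.zero A p) (lam i) js (2 * wtExp A p (-lam i) - 2 - s) w ∈
        Img ε lam n := by
      refine Submodule.subset_span (Or.inl ⟨i, js, (s - 2 * wtExp A p (-lam i) + 2).toNat, w,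
        ?_, ?_, ?_⟩)
      · omega
      · have e : ((s - 2 * wtExp A p (-lam i) + 2).toNat : ℤ) =
            s - 2 * wtExp A p (-lam i) + 2 := Int.toNat_of_nonneg (by omega)
        have e2 : n - wtExp A p (-lam i) - (s - 2 * wtExp A p (-lam i) + 2) + 1 =
            n + wtExp A p (-lam i) - s - 1 := by ring
        rw [e, e2]
        exact hw
      · have e : ((s - 2 * wtExp A p (-lam i) + 2).toNat : ℤ) =
            s - 2 * wtExp A p (-lam i) + 2 := Int.toNat_of_nonneg (by omega)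
        have e2 : -(s - 2 * wtExp A p (-lam i) + 2) = 2 * wtExp A p (-lam i) - 2 - s := by ring
        rw [e, e2]
    rw [hI _ hmem, mul_zero]
  · intro k hk
    refine beta_left hA hp ε τ hτ (n - k) _
      ⟨W_LS hA hp1 k t ht.1, LS_Vn (k : ℤ) n t ht.2⟩ ?_
    intro w hw
    rw [beta_LS hA hp ε τ hτ k t w htU hw.1]
    exact hI _ (Submodule.subset_span (Or.inr ⟨k, w, hk, hw, rfl⟩))

theorem rd1_Ej_single (ε : Cocycle A p) (σ : Shift A p) (j : ι) (γ : ι → ℤ) (f : Fock ι) :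
    ∃ f' : Fock ι, Ej ε σ j (Finsupp.single γ f) = Finsupp.single (γ + rt j) f' := by
  refine ⟨((ε.ε (rt j) γ : ℤ) : ℂ) •
    vop A p (toC (rt j)) (-0 - 1 - σ.dot (rt j) - formZ A p (rt j) γ) f, ?_⟩
  unfold Ej
  rw [expS_single, add_comm (rt j) γ]

theorem cS_comp (ε : Cocycle A p) (σ : Shift A p) (lam : ι → ℤ) (js : List ι) (n : ℤ)
    (γ : ι → ℤ) (f : Fock ι) : ∃ f' : Fock ι, cS ε σ lam js n (Finsupp.single γ f) =
      Finsupp.single (γ - lam + fun i => (js.count i : ℤ)) f' := by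
  induction js generalizing γ f with
  | nil =>
    refine ⟨((ε.ε (-lam) γ : ℤ) : ℂ) •
      vop A p (toC (-lam)) (-n - 1 - σ.dot (-lam) - formZ A p (-lam) γ) f, ?_⟩
    show expS ε σ (-lam) n (Finsupp.single γ f) = _
    rw [expS_single]
    congr 1
    funext i
    simp only [Pi.add_apply, Pi.neg_apply, Pi.sub_apply, List.count_nil]
    push_cast
    ring
  | cons j js ih =>
    obtain ⟨f1, h1⟩ := ih γ f
    obtain ⟨f2, h2⟩ := rd1_Ej_single ε σ j (γ - lam + fun i => (js.count i : ℤ)) f1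
    obtain ⟨f3, h3⟩ := rd1_Ej_single ε σ j γ f
    obtain ⟨f4, h4⟩ := ih (γ + rt j) f3
    refine ⟨f2 - f4, ?_⟩
    show Ej ε σ j (cS ε σ lam js n (Finsupp.single γ f)) -
      cS ε σ lam js n (Ej ε σ j (Finsupp.single γ f)) = _
    rw [h1, h2, h3, h4, Finsupp.single_sub]
    have e1 : (γ - lam + (fun i => (js.count i : ℤ)) + rt j) =
        γ - lam + fun i => ((j :: js).count i : ℤ) := by
      funext i
      simp only [Pi.add_apply, Pi.sub_apply, List.count_cons, rt, Pi.single_apply]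
      by_cases hij : i = j
      · subst hij
        simp only [beq_self_eq_true, if_true, Nat.cast_add, Nat.cast_one]
        ring
      · have : (j == i) = false := by simpa using fun h => hij h.symm
        simp [hij, this]
    have e2 : (γ + rt j - lam + fun i => (js.count i : ℤ)) =
        γ - lam + fun i => ((j :: js).count i : ℤ) := by
      rw [← e1]
      funext i
      simp only [Pi.add_apply, Pi.sub_apply]
      ring
    rw [e1, e2]

omit [DecidableEq ι] in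
/-- a charge graded operator kills the components of its kernel vectors -/
theorem rd1_comp (O : VL ι →ₗ[ℂ] VL ι) (δ : ι → ℤ)
    (h : ∀ (γ : ι → ℤ) (f : Fock ι), ∃ f', O (Finsupp.single γ f) = Finsupp.single (γ + δ) f')
    (t : VL ι) (h0 : O t = 0) (γ : ι → ℤ) : O (Finsupp.single γ (t γ)) = 0 := by
  classical
  choose F hF using h
  have h1 : O t = t.sum fun γ f => Finsupp.single (γ + δ) (F γ f) := by
    conv_lhs => rw [← Finsupp.sum_single t]
    rw [map_finsuppSum]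
    exact Finsupp.sum_congr fun γ _ => hF γ _
  by_cases hγ : γ ∈ t.support
  · have h2 : (O t) (γ + δ) = F γ (t γ) := by
      rw [h1, Finsupp.sum, Finsupp.finsetSum_apply, Finset.sum_eq_single γ]
      · rw [Finsupp.single_eq_same]
      · intro b _ hb
        rw [Finsupp.single_eq_of_ne]
        intro e
        exact hb (add_right_cancel e).symm
      · intro hn
        exact absurd hγ hn
    rw [h0, Finsupp.zero_apply] at h2
    rw [hF, ← h2, Finsupp.single_zero]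
  · rw [Finsupp.notMem_support_iff.1 hγ, Finsupp.single_zero, map_zero]

theorem rd1_LS_single (σ : Shift A p) (k : ℤ) (γ : ι → ℤ) (f : Fock ι) :
    ∃ f' : Fock ι, LS σ k (Finsupp.single γ f) = Finsupp.single (γ + 0) f' := by
  refine ⟨Lop A p (σ.s + toC γ) k f, ?_⟩
  rw [add_zero]
  unfold LS
  rw [Finsupp.lsum_single]
  rfl

theorem rd1_Sing_comp (ε : Cocycle A p) (lam : ι → ι → ℤ) (t : VL ι) (hs : Sing ε lam t)
    (γ : ι → ℤ) : Sing ε lam (Finsupp.single γ (t γ)) := by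
  refine ⟨fun i js s hs' => ?_, fun k hk => ?_⟩
  · refine rd1_comp (cS ε (Shift.zero A p) (lam i) js s)
      (-(lam i) + fun i => (js.count i : ℤ)) (fun γ f => ?_) t (hs.1 i js s hs') γ
    obtain ⟨f', hf'⟩ := cS_comp ε (Shift.zero A p) (lam i) js s γ f
    refine ⟨f', ?_⟩
    rw [hf']
    congr 1
    funext x
    simp only [Pi.add_apply, Pi.sub_apply, Pi.neg_apply]
    ring
  · exact rd1_comp (LS (Shift.zero A p) k) 0 (fun γ f => rd1_LS_single _ _ γ f) t (hs.2 k hk) γ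

theorem rd1_Sing_Ej (hA : IsADE A) (hp : 1 ≤ p) (ε : Cocycle A p) (lam : ι → ι → ℤ) (t : VL ι)
    (hs : Sing ε lam t) (j : ι) : Sing ε lam (Ej ε (Shift.zero A p) j t) := by
  refine ⟨fun i js s hs' => ?_, fun k hk => ?_⟩
  · have h1 := hs.1 i (j :: js) s hs'
    have h2 : cS ε (Shift.zero A p) (lam i) (j :: js) s t =
        Ej ε (Shift.zero A p) j (cS ε (Shift.zero A p) (lam i) js s t) -
          cS ε (Shift.zero A p) (lam i) js s (Ej ε (Shift.zero A p) j t) := rfl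
    rw [h2, hs.1 i js s hs', map_zero, zero_sub, neg_eq_zero] at h1
    exact h1
  · have := LinearMap.congr_fun (LS_Ej hA hp ε (Shift.zero A p) j k) t
    rw [LinearMap.comp_apply, LinearMap.comp_apply, hs.2 k hk, map_zero] at this
    exact this

/-- the singular vectors of weight `n` -/
def rd1T (ε : Cocycle A p) (lam : ι → ι → ℤ) (n : ℤ) (t : VL ι) : Prop :=
  t ∈ Wn A p n ∧ Sing ε lam t

theorem rd1T_comp (ε : Cocycle A p) (lam : ι → ι → ℤ) (n : ℤ) (t : VL ι)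
    (h : rd1T ε lam n t) (γ : ι → ℤ) : rd1T ε lam n (Finsupp.single γ (t γ)) := by
  refine ⟨⟨W_comp t h.1.1 γ, ?_⟩, rd1_Sing_comp ε lam t h.2 γ⟩
  rcases Vn_comp n t h.1.2 γ with h0 | ⟨d, hd, hn⟩
  · rw [h0, Finsupp.single_zero]; exact Submodule.zero_mem _
  · exact single_mem_Vn γ _ d hd n hn

theorem rd1T_Ej (hA : IsADE A) (hp : 2 ≤ p) (ε : Cocycle A p) (lam : ι → ι → ℤ) (n : ℤ)
    (t : VL ι) (h : rd1T ε lam n t) (j : ι) : rd1T ε lam n (Ej ε (Shift.zero A p) j t) :=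
  ⟨⟨W_Ej hA hp ε j t h.1.1, Ej_Vn hA ε j n t h.1.2⟩,
    rd1_Sing_Ej hA (by omega) ε lam t h.2 j⟩

theorem rd1T_Ej_pow (hA : IsADE A) (hp : 2 ≤ p) (ε : Cocycle A p) (lam : ι → ι → ℤ) (n : ℤ)
    (t : VL ι) (h : rd1T ε lam n t) (j : ι) (b : ℕ) :
    rd1T ε lam n ((Ej ε (Shift.zero A p) j ^ b) t) := by
  induction b with
  | zero => simpa using h
  | succ b ih =>
    rw [pow_succ', Module.End.mul_apply]
    exact rd1T_Ej hA hp ε lam n _ ih j

theorem sing_dom (hA : IsADE A) (hp : 2 ≤ p) (ε : Cocycle A p) (lam : ι → ι → ℤ)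
    (n : ℤ) (t : VL ι) (ht : t ∈ Wn A p n) (h0 : t ≠ 0) (hs : Sing ε lam t) :
    ∃ (nu : ι → ℤ) (g : Fock ι) (d : ℕ), Dom A nu ∧ g ≠ 0 ∧ FH g d ∧
      (d : ℤ) + wtExp A p nu = n ∧ Sing ε lam (Finsupp.single nu g) := by
  classical
  have hp1 : 1 ≤ p := by omega
  -- the charges of singular vectors
  set X : Set (ι → ℤ) := {γ | ∃ f : Fock ι, f ≠ 0 ∧ rd1T ε lam n (Finsupp.single γ f)} with hX
  have hdeg : ∀ (γ : ι → ℤ) (f : Fock ι), f ≠ 0 → rd1T ε lam n (Finsupp.single γ f) →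
      ∃ d : ℕ, FH f d ∧ (d : ℤ) + wtExp A p γ = n := by
    intro γ f hf h
    rcases Vn_comp n _ h.1.2 γ with h0 | h1
    · rw [Finsupp.single_eq_same] at h0
      exact absurd h0 hf
    · rw [Finsupp.single_eq_same] at h1
      exact h1
  have hXfin : X.Finite := by
    refine (wtExp_finite hA hp1 n).subset ?_
    rintro γ ⟨f, hf, h⟩
    obtain ⟨d, _, hd⟩ := hdeg γ f hf h
    show wtExp A p γ ≤ n
    omega
  have hXne : X.Nonempty := by
    obtain ⟨γ, hγ⟩ : ∃ γ, t γ ≠ 0 := by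
      by_contra hcon
      push Not at hcon
      exact h0 (Finsupp.ext fun γ => by rw [hcon γ, Finsupp.zero_apply])
    exact ⟨γ, t γ, hγ, rd1T_comp ε lam n t ⟨ht, hs⟩ γ⟩
  obtain ⟨γ, ⟨f, hf, hT⟩, hmax⟩ := hXfin.exists_maximalFor (fun γ : ι → ℤ => ∑ i, γ i) X hXne
  obtain ⟨d, hd, hn⟩ := hdeg γ f hf hT
  refine ⟨γ, f, d, ?_, hf, hd, hn, hT.2⟩
  intro j
  by_contra hneg
  push Not at hneg
  obtain ⟨b, hb⟩ : ∃ b : ℕ, pr A j γ = -(b : ℤ) :=
    ⟨(-(pr A j γ)).toNat, by rw [Int.toNat_of_nonneg (by omega)]; ring⟩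
  have hne := Ej_pow_ne_zero hA hp1 ε j d b γ hb f hd hf
  have hTb := rd1T_Ej_pow hA hp ε lam n _ hT j b
  rw [Ej_pow_single hA] at hne hTb
  have hmem : (γ + b • rt j) ∈ X := by
    refine ⟨_, ?_, hTb⟩
    intro h
    exact hne (by rw [h, Finsupp.single_zero])
  have hpt : ∀ i, (γ + b • rt j) i = γ i + (if i = j then (b : ℤ) else 0) := by
    intro i
    rw [Pi.add_apply, Pi.smul_apply, rt, Pi.single_apply]
    split_ifs <;> simp
  have hsum : ∑ i, (γ + b • rt j) i = ∑ i, γ i + b := by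
    rw [Finset.sum_congr rfl fun i _ => hpt i, Finset.sum_add_distrib]
    simp
  have hge := hmax hmem (by simp only [hsum]; omega)
  simp only [hsum] at hge
  have hb0 : (0 : ℤ) < b := by omega
  omega

end

end WPQ
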