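import Pool.Agent.WPQ.FL6
import Pool.Agent.WPQ.RC6

/-! [WPQ-RF1] Reflection formula at special points.

Plan.  `exists_shift`: `s = ∑ κ_i dual_i` (`form_dual`, `form_symm`).
`ref_core`: let `v = single g f`, `(br)^[n+1] (gX ξ 0) = 0` (`nilp_gX`), `E_j^(b+1) v = 0`
(`Ej_pow_single`, hypothesis).  `AF.pow_br` with exponent `n+b`: only `i = b` survives:
`E_j^(n+b) (gX ξ 0 m v) = C(n+b,b) (es ε j 0 n * Cst n) gX ξ (n • rt j) m (E_j^b v)` (`iter_gX`).
Choose `m` with `-m-1-ξ.dot g = -d`: the left inner vector is `± single g (C (ev κ f))` (`vop_top`,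
`form (bb i) ξ.s = ξ.κ i`), and `E_j^(n+b)` of it is `es ε j g (n+b) * Cst (n+b)` times that
(`Ej_pow_single` with `σ = ξ`: `κ = ξ.κ j + p pr A j g = -(p (n+b)) + p - 1`, `EN_one_top`; `EN` is
linear, `C a = a • 1`).  On the right: `E_j^b v = es • single (g + b • rt j) F`, `F = EN b f`, and
`gX ξ (n • rt j) m` of it lands in degree `0`:
`± C (ev (κ + n p A_{·j}) F)` (`vop_top` with `F` homogeneous, `EN_homog`; the exponent
`-m-1-ξ.dot (g+b rt j) - formZ (n rt j) (g + b rt j)` equals minus the degree of `F`).  All signs do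
not depend on `f`. -/

namespace WPQ

open MvPolynomial AF

noncomputable section

variable {ι : Type} [Fintype ι] [DecidableEq ι] {A : Matrix ι ι ℤ} {p : ℕ}

omit [DecidableEq ι] in
theorem rf1_form_add (ν η η' : ι → ℂ) : form A p ν (η + η') = form A p ν η + form A p ν η' := by
  unfold form
  simp only [Pi.add_apply, mul_add, Finset.sum_add_distrib]

omit [DecidableEq ι] in
theorem rf1_form_sum (ν : ι → ℂ) (c : ι → ℂ) (η : ι → ι → ℂ) :
    form A p ν (fun j => ∑ i, c i * η i j) = ∑ i, c i * form A p ν (η i) := by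
  unfold form
  have e : ∀ a b : ι, ν a * (A a b : ℂ) * ∑ i, c i * η i b =
      ∑ i, c i * (ν a * (A a b : ℂ) * η i b) := by
    intro a b
    rw [Finset.mul_sum]
    refine Finset.sum_congr rfl fun i _ => ?_
    ring
  simp only [e]
  have e2 : ∀ a : ι, ∑ b, ∑ i, c i * (ν a * (A a b : ℂ) * η i b) =
      ∑ i, ∑ b, c i * (ν a * (A a b : ℂ) * η i b) := fun a => Finset.sum_comm
  simp only [e2]
  rw [Finset.sum_comm, Finset.mul_sum]
  refine Finset.sum_congr rfl fun i _ => ?_
  simp only [← Finset.mul_sum]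
  ring

/-- iterates of `br` applied to zero -/
theorem rf1_br_zero {V V' : Type} [AddCommGroup V] [Module ℂ V] [AddCommGroup V'] [Module ℂ V']
    (E : V →ₗ[ℂ] V) (E' : V' →ₗ[ℂ] V') (k : ℕ) : (br E E')^[k] 0 = 0 := by
  induction k with
  | zero => rfl
  | succ k ih =>
    rw [Function.iterate_succ_apply', ih]
    funext n
    unfold br
    simp

theorem rf1_units (u : ℤˣ) : ((u : ℤ) : ℂ) ≠ 0 := by
  have h : (u : ℤ) ≠ 0 := u.ne_zero
  exact_mod_cast h

theorem exists_shift (hA : IsADE A) (hp : 1 ≤ p) (κ : ι → ℤ) : ∃ ξ : Shift A p, ξ.κ = κ := by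
  refine ⟨{ s := fun j => ∑ i, (κ i : ℂ) * dual A p i j, κ := κ, h := fun k => ?_ }, rfl⟩
  rw [rf1_form_sum, Finset.sum_eq_single k]
  · rw [form_symm A hA.symm, form_dual A hA p hp, if_pos rfl, mul_one]
  · intro i _ hi
    rw [form_symm A hA.symm, form_dual A hA p hp, if_neg hi, mul_zero]
  · intro h
    exact absurd (Finset.mem_univ k) h

theorem ref_core (hA : IsADE A) (hp : 1 ≤ p) (ε : Cocycle A p) (j : ι) (n b : ℕ)
    (κ : ι → ℤ) (hκ : κ j = -(p * n : ℤ) + p - 1) (g : ι → ℤ) (hg : pr A j g = -(b : ℤ)) :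
    ∃ S : ℂ, S ≠ 0 ∧ ∀ (f : Fock ι) (d : ℕ), FH f d →
      EN A p j (-(p * b : ℤ)) (b + 1) f = 0 →
      RC.Cst (n + b) p * ev (fun i => (κ i : ℂ)) f =
        S * RC.Cst n p * ev (fun i => (κ i : ℂ) + n * p * A i j) (EN A p j (-(p * b : ℤ)) b f) := by
  obtain ⟨ξ, hξ⟩ := exists_shift (A := A) (p := p) hA hp κ
  have hξj : ξ.κ j = -(p * n : ℤ) + p - 1 := by rw [hξ, hκ]
  set h : ι → ℤ := g + b • rt j with hh
  set s1 : ℂ := (((Int.negOnePow (ξ.dot g)) : ℤ) : ℂ) with hs1
  set s2 : ℂ := ((ε.ε (n • rt j) h : ℤ) : ℂ) * (((Int.negOnePow (ξ.dot h)) : ℤ) : ℂ) with hs2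
  have hs1' : s1 ≠ 0 := rf1_units _
  have hs2' : s2 ≠ 0 := mul_ne_zero (rf1_units _) (rf1_units _)
  have hch : (((n + b).choose b : ℕ) : ℂ) ≠ 0 := by
    have : (n + b).choose b ≠ 0 := (Nat.choose_pos (by omega)).ne'
    exact_mod_cast this
  refine ⟨(((n + b).choose b : ℕ) : ℂ) * es ε j 0 n * es ε j g b * s2 / (s1 * es ε j g (n + b)),
    ?_, ?_⟩
  · exact div_ne_zero (mul_ne_zero (mul_ne_zero (mul_ne_zero hch (es_ne_zero ε j 0 n))
      (es_ne_zero ε j g b)) hs2') (mul_ne_zero hs1' (es_ne_zero ε j g (n + b)))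
  intro f d hf h0
  set m : ℤ := d - 1 - ξ.dot g with hm
  set F : Fock ι := EN A p j (-(p * b : ℤ)) b f with hF
  -- the powers of the screening on `v`
  have hpow : ∀ i : ℕ, (Ej ε (Shift.zero A p) j ^ i) (Finsupp.single g f) =
      Finsupp.single (g + i • rt j) (es ε j g i • EN A p j (-(p * b : ℤ)) i f) := by
    intro i
    rw [Ej_pow_single hA]
    have e : (Shift.zero A p).κ j + p * pr A j g = -(p * b : ℤ) := by
      have e1 : (Shift.zero A p).κ j = 0 := rfl
      rw [e1, hg]
      ring
    rw [e]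
  have hpow0 : ∀ i : ℕ, b < i → (Ej ε (Shift.zero A p) j ^ i) (Finsupp.single g f) = 0 := by
    intro i hi
    obtain ⟨k, rfl⟩ : ∃ k, i = k + (b + 1) := ⟨i - (b + 1), by omega⟩
    rw [pow_add, Module.End.mul_apply, hpow (b + 1), h0, smul_zero, Finsupp.single_zero, map_zero]
  have hmain := AF.pow_br (Ej ε (Shift.zero A p) j) (Ej ε ξ j) (gX ε ξ 0) (n + b) m
    (Finsupp.single g f)
  rw [Finset.sum_eq_single b] at hmain
  rotate_left
  · intro i hi hib
    rcases lt_or_gt_of_ne hib with hlt | hgt
    · obtain ⟨k, hk⟩ : ∃ k, n + b - i = k + (n + 1) := ⟨n + b - i - (n + 1), by omega⟩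
      rw [hk, Function.iterate_add_apply, nilp_gX hA hp ε ξ j n hξj, rf1_br_zero]
      rw [Pi.zero_apply, LinearMap.zero_apply, smul_zero]
    · rw [hpow0 i hgt, map_zero, smul_zero]
  · intro hb
    exact absurd (Finset.mem_range.2 (by omega)) hb
  have hnb : n + b - b = n := by omega
  rw [hnb, iter_gX hA hp ε ξ j n hξj, hpow b] at hmain
  -- left side
  have hL : gX ε ξ 0 m (Finsupp.single g f) =
      Finsupp.single g (s1 • C (ev (fun i => (κ i : ℂ)) f)) := by
    rw [gX_single, Cocycle.zero_left]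
    have e1 : -m - 1 - ξ.dot g - formZ A p 0 g = -(d : ℤ) := by
      have e2 : formZ A p 0 g = 0 := by
        unfold formZ
        simp
      rw [e2, hm]
      ring
    have e3 : ξ.s + toC (0 : ι → ℤ) = ξ.s := by
      have : toC (0 : ι → ℤ) = 0 := by
        funext i
        unfold toC
        simp
      rw [this, add_zero]
    rw [e1, e3, vop_top A p ξ.s f d hf]
    have e4 : (fun i => form A p (bb i) ξ.s) = fun i => (κ i : ℂ) := by
      funext i
      rw [ξ.h i, hξ]
    rw [e4, zero_add]
    congr 2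
    simp [hs1]
  have hL2 : (Ej ε ξ j ^ (n + b)) (gX ε ξ 0 m (Finsupp.single g f)) =
      Finsupp.single (g + (n + b) • rt j)
        (C (s1 * ev (fun i => (κ i : ℂ)) f * es ε j g (n + b) * RC.Cst (n + b) p)) := by
    rw [hL, Ej_pow_single hA]
    have e : ξ.κ j + p * pr A j g = -(p * ((n + b : ℕ) : ℤ) : ℤ) + p - 1 := by
      rw [hξj, hg]
      push_cast
      ring
    rw [e]
    have e2 : (s1 • C (ev (fun i => (κ i : ℂ)) f) : Fock ι) =
        (s1 * ev (fun i => (κ i : ℂ)) f) • (1 : Fock ι) := by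
      rw [smul_eq_C_mul, smul_eq_C_mul, mul_one, ← C_mul]
    rw [e2, map_smul, EN_one_top A hA p hp j (n + b)]
    congr 1
    rw [smul_eq_C_mul, smul_eq_C_mul, ← C_mul, ← C_mul]
    congr 1
    ring
  -- right side
  obtain ⟨e, he⟩ : ∃ e : ℕ, (e : ℤ) = d + b * (p - 1) := by
    refine ⟨d + b * (p - 1), ?_⟩
    push_cast [Nat.cast_sub hp]
    ring
  have hFe : FH F e := by
    refine EN_homog A hA p j _ b f d e hf ?_
    rw [he]
    ring
  have hR : gX ε ξ (n • rt j) m (Finsupp.single h (es ε j g b • F)) =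
      Finsupp.single (n • rt j + h)
        (C (es ε j g b * s2 * ev (fun i => (κ i : ℂ) + n * p * A i j) F)) := by
    rw [gX_single]
    have hdot : ξ.dot h = ξ.dot g + b * ξ.κ j := by
      unfold Shift.dot
      rw [hh]
      simp only [Pi.add_apply, Pi.smul_apply, add_mul, Finset.sum_add_distrib]
      congr 1
      rw [Finset.sum_eq_single j]
      · unfold rt
        rw [Pi.single_eq_same]
        simp
      · intro k _ hk
        unfold rt
        rw [Pi.single_eq_of_ne hk]
        simp
      · intro h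
        exact absurd (Finset.mem_univ j) h
    have hform : formZ A p (n • rt j) h = n * p * b := by
      have e1 : formZ A p (n • rt j) h = n * formZ A p (rt j) h := by
        unfold formZ
        simp only [Pi.smul_apply, nsmul_eq_mul, Finset.mul_sum]
        refine Finset.sum_congr rfl fun i _ => Finset.sum_congr rfl fun k _ => ?_
        ring
      have e2 : pr A j h = b := by
        have e3 : pr A j h = pr A j g + b * pr A j (rt j) := by
          have e5 : ∀ i, h i = g i + b * rt j i := fun i => by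
            rw [hh, Pi.add_apply, Pi.smul_apply, nsmul_eq_mul]
          unfold pr
          simp only [e5, mul_add, Finset.sum_add_distrib]
          rw [Finset.mul_sum]
          congr 1
          refine Finset.sum_congr rfl fun i _ => ?_
          ring
        have e4 : pr A j (rt j) = 2 := by
          unfold pr rt
          rw [Finset.sum_eq_single j]
          · rw [Pi.single_eq_same, hA.diag]
            ring
          · intro k _ hk
            rw [Pi.single_eq_of_ne hk, mul_zero]
          · intro h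
            exact absurd (Finset.mem_univ j) h
        rw [e3, e4, hg]
        ring
      rw [e1, formZ_rt hA, e2]
      ring
    have e1 : -m - 1 - ξ.dot h - formZ A p (n • rt j) h = -(e : ℤ) := by
      rw [hdot, hform, hξj, hm, he]
      ring
    rw [e1, map_smul, vop_top A p _ F e hFe]
    have e4 : (fun i => form A p (bb i) (ξ.s + toC (n • rt j))) =
        fun i => (κ i : ℂ) + n * p * A i j := by
      funext i
      rw [rf1_form_add, ξ.h i, hξ]
      congr 1
      have e5 : toC (n • rt j) = fun k => ∑ i, (if i = j then (n : ℂ) else 0) * bb i k := by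
        funext k
        rw [Finset.sum_eq_single j]
        · unfold toC rt bb
          rw [if_pos rfl]
          by_cases hk : k = j
          · subst hk
            simp
          · simp [hk]
        · intro l _ hl
          rw [if_neg hl, zero_mul]
        · intro h
          exact absurd (Finset.mem_univ j) h
      rw [e5, rf1_form_sum, Finset.sum_eq_single j]
      · rw [if_pos rfl, form_bb]
        ring
      · intro l _ hl
        rw [if_neg hl, zero_mul]
      · intro h
        exact absurd (Finset.mem_univ j) h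
    rw [e4]
    congr 1
    rw [smul_eq_C_mul, smul_eq_C_mul, ← C_mul, ← C_mul]
    congr 1
    rw [hs2]
    ring
  change _ = (((n + b).choose b : ℕ) : ℂ) • ((es ε j 0 n * RC.Cst n p) • gX ε ξ (n • rt j) m)
    (Finsupp.single h (es ε j g b • F)) at hmain
  rw [LinearMap.smul_apply, hL2, hR] at hmain
  have hpt : n • rt j + h = g + (n + b) • rt j := by
    rw [hh, add_smul]
    abel
  rw [hpt] at hmain
  have hc := congrArg (fun w : VL ι => constantCoeff (w (g + (n + b) • rt j))) hmain
  simp only [Finsupp.smul_apply, Finsupp.single_eq_same, constantCoeff_C, smul_eq_C_mul, map_mul,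
    nsmul_eq_mul] at hc
  have hE := es_ne_zero ε j g (n + b)
  field_simp
  linear_combination hc

end

end WPQ
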