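import Pool.Agent.WPQ.HAD

/-! [WPQ-HA1] jets -/

set_option autoImplicit false
set_option linter.unusedVariables false

namespace WPQ

open MvPolynomial

/-- Coefficientwise partial derivative of a power series. -/
private noncomputable def ha1_D {ι : Type} [Fintype ι] [DecidableEq ι] (m : ι) (n : ℕ)
    (φ : PowerSeries (Fock ι)) : PowerSeries (Fock ι) :=
  PowerSeries.mk fun k => pderiv (m, n) (PowerSeries.coeff k φ)

private theorem ha1_D_add {ι : Type} [Fintype ι] [DecidableEq ι] (m : ι) (n : ℕ)
    (φ ψ : PowerSeries (Fock ι)) : ha1_D m n (φ + ψ) = ha1_D m n φ + ha1_D m n ψ := by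
  ext1 k
  simp [ha1_D]

private theorem ha1_D_mul {ι : Type} [Fintype ι] [DecidableEq ι] (m : ι) (n : ℕ)
    (φ ψ : PowerSeries (Fock ι)) :
    ha1_D m n (φ * ψ) = ha1_D m n φ * ψ + φ * ha1_D m n ψ := by
  ext1 k
  simp only [ha1_D, PowerSeries.coeff_mk, map_add, PowerSeries.coeff_mul, map_sum]
  rw [← Finset.sum_add_distrib]
  refine Finset.sum_congr rfl fun p _ => ?_
  rw [Derivation.leibniz]
  simp only [smul_eq_mul]
  ring

/-- `D (P(x(t))) = (n+1) t^n (∂_m P)(x(t))`. -/
private theorem ha1_D_jetH {ι : Type} [Fintype ι] [DecidableEq ι] (m : ι) (n : ℕ)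
    (P : MvPolynomial ι ℂ) :
    ha1_D m n (jetH P) =
      PowerSeries.X ^ n * (PowerSeries.C (C ((n : ℂ) + 1) : Fock ι) * jetH (pderiv m P)) := by
  induction P using MvPolynomial.induction_on with
  | C a =>
    rw [pderiv_C, map_zero, mul_zero, mul_zero]
    ext1 k
    simp only [ha1_D, PowerSeries.coeff_mk, map_zero, jetH, aeval_C]
    rw [PowerSeries.algebraMap_apply, PowerSeries.coeff_C]
    split_ifs
    · rw [MvPolynomial.algebraMap_eq, pderiv_C]
    · simp
  | add p q hp hq =>
    have e1 : jetH (p + q) = jetH p + jetH q := map_add _ _ _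
    have e2 : jetH (pderiv m (p + q)) = jetH (pderiv m p) + jetH (pderiv m q) := by
      rw [(pderiv m).map_add p q]
      exact map_add _ _ _
    rw [e1, ha1_D_add, hp, hq, e2]
    ring
  | mul_X p i hp =>
    have hX : ha1_D m n (jetH (X i : MvPolynomial ι ℂ)) =
        PowerSeries.X ^ n * (PowerSeries.C (C ((n : ℂ) + 1) : Fock ι) *
          jetH (pderiv m (X i))) := by
      rw [pderiv_X]
      ext1 k
      simp only [ha1_D, PowerSeries.coeff_mk, jetH, aeval_X, arc]
      rw [PowerSeries.coeff_X_pow_mul', Derivation.leibniz, pderiv_C, pderiv_X]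
      by_cases him : i = m
      · subst him
        simp only [Pi.single_eq_same, map_one, mul_one, smul_zero, add_zero]
        by_cases hk : k = n
        · subst hk
          simp
        · have h1 : (Pi.single (i, n) (1 : Fock ι) : ι × ℕ → Fock ι) (i, k) = 0 := by
            rw [Pi.single_eq_of_ne]
            intro h
            exact hk (Prod.mk.inj h).2
          rw [h1, smul_zero]
          split_ifs with h2
          · rw [PowerSeries.coeff_C, if_neg (by omega)]
          · rfl
      · have h1 : (Pi.single (m, n) (1 : Fock ι) : ι × ℕ → Fock ι) (i, k) = 0 := by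
          rw [Pi.single_eq_of_ne]
          intro h
          exact him (Prod.mk.inj h).1
        have h2 : (Pi.single m (1 : MvPolynomial ι ℂ) : ι → MvPolynomial ι ℂ) i = 0 :=
          Pi.single_eq_of_ne him _
        rw [h1, h2]
        simp
    have e1 : jetH (p * X i) = jetH p * jetH (X i : MvPolynomial ι ℂ) := map_mul _ _ _
    have e2 : jetH (pderiv m (p * X i)) =
        jetH p * jetH (pderiv m (X i)) + jetH (X i) * jetH (pderiv m p) := by
      rw [Derivation.leibniz, smul_eq_mul, smul_eq_mul]
      rw [map_add jetH, map_mul jetH, map_mul jetH]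
    rw [e1, ha1_D_mul, hp, hX, e2]
    ring

private theorem ha1_map_C {ι : Type} [Fintype ι] [DecidableEq ι] (f : Fock ι →ₐ[ℂ] Fock ι)
    (a : ℂ) (k : ℕ) :
    f (PowerSeries.coeff k (jetH (C a : MvPolynomial ι ℂ))) =
      PowerSeries.coeff k (jetH (C a : MvPolynomial ι ℂ)) := by
  rw [jetH, aeval_C, PowerSeries.algebraMap_apply, PowerSeries.coeff_C]
  split_ifs
  · rw [MvPolynomial.algebraMap_eq]
    exact f.commutes a
  · exact map_zero f

/-- The reflection on jets. -/
private theorem ha1_rf {ι : Type} [Fintype ι] [DecidableEq ι] (A : Matrix ι ι ℤ) (j : ι)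
    (P : MvPolynomial ι ℂ) :
    ∀ k, rfF A j (PowerSeries.coeff k (jetH P)) = PowerSeries.coeff k (jetH (rfS A j P)) := by
  induction P using MvPolynomial.induction_on with
  | C a =>
    intro k
    have h1 : rfS A j (C a : MvPolynomial ι ℂ) = C a := by
      rw [rfS, aeval_C, MvPolynomial.algebraMap_eq]
    rw [h1, ha1_map_C]
  | add p q hp hq =>
    intro k
    rw [map_add jetH, map_add (PowerSeries.coeff k), map_add (rfF A j), hp, hq,
      map_add (rfS A j), map_add jetH, map_add (PowerSeries.coeff k)]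
  | mul_X p i hp =>
    intro k
    rw [map_mul jetH, PowerSeries.coeff_mul, map_sum, map_mul (rfS A j), map_mul jetH,
      PowerSeries.coeff_mul]
    refine Finset.sum_congr rfl fun x _ => ?_
    rw [map_mul (rfF A j), hp]
    congr 1
    have h1 : rfS A j (X i : MvPolynomial ι ℂ) = X i - C (A i j : ℂ) * X j := by
      rw [rfS, aeval_X]
    have h3 : jetH (C (A i j : ℂ) * X j : MvPolynomial ι ℂ) =
        PowerSeries.C (C (A i j : ℂ)) * arc j := by
      rw [map_mul jetH, jetH, aeval_C, aeval_X, PowerSeries.algebraMap_apply,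
        MvPolynomial.algebraMap_eq]
    have h4 : ∀ l : ι, jetH (X l : MvPolynomial ι ℂ) = arc l := fun l => aeval_X _ _
    rw [h1, map_sub jetH, h3, h4, map_sub (PowerSeries.coeff x.2), PowerSeries.coeff_C_mul,
      arc, arc, PowerSeries.coeff_mk, PowerSeries.coeff_mk]
    have h2 : rfF A j (C ((x.2 : ℂ) + 1) * X (i, x.2)) =
        C ((x.2 : ℂ) + 1) * (X (i, x.2) - C (A i j : ℂ) * X (j, x.2)) := by
      rw [map_mul (rfF A j), rfF, aeval_X, aeval_C, MvPolynomial.algebraMap_eq]
    rw [h2]
    ring

theorem R_HA1 (ι : Type) [Fintype ι] [DecidableEq ι] : st_HA1 ι := by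
  have hpd : ∀ (P : MvPolynomial ι ℂ) (k : ℕ) (m : ι) (n : ℕ), pderiv (m, n) (jet k P) =
      if n ≤ k then C ((n : ℂ) + 1) * jet (k - n) (pderiv m P) else 0 := by
    intro P k m n
    have h := congrArg (PowerSeries.coeff k) (ha1_D_jetH m n P)
    rw [PowerSeries.coeff_X_pow_mul'] at h
    simp only [ha1_D, PowerSeries.coeff_mk, PowerSeries.coeff_C_mul] at h
    exact h
  have hX : ∀ (i : ι) (k : ℕ), jet k (X i) = C ((k : ℂ) + 1) * (X (i, k) : Fock ι) := by
    intro i k
    simp [jet, jetH, arc]
  have hC : ∀ (c : ℂ) (k : ℕ), jet k (C c : MvPolynomial ι ℂ) = if k = 0 then C c else 0 := by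
    intro c k
    rw [jet, jetH, aeval_C, PowerSeries.algebraMap_apply, PowerSeries.coeff_C,
      MvPolynomial.algebraMap_eq]
  have hadd : ∀ (P Q : MvPolynomial ι ℂ) (k : ℕ), jet k (P + Q) = jet k P + jet k Q := by
    intro P Q k
    rw [jet, map_add, map_add]
    rfl
  have hmul : ∀ (P Q : MvPolynomial ι ℂ) (k : ℕ),
      jet k (P * Q) = ∑ i ∈ Finset.range (k + 1), jet i P * jet (k - i) Q := by
    intro P Q k
    rw [jet, map_mul, PowerSeries.coeff_mul,
      Finset.Nat.sum_antidiagonal_eq_sum_range_succ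
        (f := fun a b => PowerSeries.coeff a (jetH P) * PowerSeries.coeff b (jetH Q))]
    rfl
  refine ⟨hX, hC, hadd, hmul, ?_, hpd, ?_, ?_⟩
  · intro P
    induction P using MvPolynomial.induction_on with
    | C a =>
      rw [hC, if_pos rfl, inc0, rename_C]
    | add p q hp hq => rw [hadd, hp, hq, map_add]
    | mul_X p i hp =>
      rw [hmul, Finset.sum_range_one, Nat.sub_zero, hp, hX, map_mul]
      congr 1
      rw [inc0, rename_X]
      simp
  · intro P k i k' hk
    rw [hpd, if_neg (by omega)]
  · intro A j P k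
    exact ha1_rf A j P k

end WPQ
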