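import Pool.Agent.WPQ.SVD

/-! [WPQ-SV1] The parameter `κ' = 2(t-1) - κ_{r,s}`; singular vectors.

Plan.  `kap_ne`: `krs t r s + krs t r' s' = 2 (t-1)` means `(r + r') = t (s + s')`, so `r + r' = 0` by `Irr t`.
`kap_indep`: `det_ne`, `indep_of_det`.  `kap_hk`: `hk_refl`, `hk_krs`.
`kap_one`: `Lk t κ 0 1 = hk t κ • 1`, `Lk t κ k 1 = 0` (`Lk_zero_homog`, `Lk_eq_zero`, KV16b).
`SS_L0`: `[L(0), L(-a)] = a L(-a)`, so `L(0) (wd L w x) = (h + w.sum) wd L w x`; sum (`pl_sum`).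
`S_sing`: `N × Ph ℂ` with `kv19P t κ0 L`, `κ0 = krs t r s` (KV19: `kv19_isVir`, `kv19_wd`); `(x, 1)` is primary of
weight `h = hrs t r s = hk t κ0`.  For `k > 0`: `kv19P .. k (∑ c π • wd .. (pl π) (x,1))` is in
`Sw .. (x,1) (n - k)` (`Sw_L`, KV18).  If `k > n` it is `0` (`Sw_neg`).  Otherwise, by `straight_wd` (KV6) it is
`∑_{ν ⊢ n-k} b ν • wd .. (pl ν) (x,1)` (`Submodule.mem_span_range_iff_exists_fun`).  Second component
(`kv19_wd`, `wd_eq`): `Lk t κ0 k 0 = 0 = ∑ b ν • wR t κ0 (pl ν) 1`, and `det_ne` at level `n - k` (`κ0 ≠ krs t r' s'`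
for `r' s' ≤ n - k < r s` by `krs_inj`), `indep_of_det`: `b = 0`.  First component: `L k (SS L c x) = 0`. -/

namespace WPQ.SV

open MvPolynomial KV

noncomputable section

set_option linter.unusedVariables false

/-- `κ' = 2(t-1) - κ_{r,s}` -/
def kap (t : ℂ) (r s : ℕ) : ℂ := 2 * (t - 1) - krs t r s

theorem kap_ne {t : ℂ} (ht : Irr t) {r s : ℕ} (hr : 1 ≤ r) (hs : 1 ≤ s) (r' s' : ℕ) (hr' : 1 ≤ r')
    (hs' : 1 ≤ s') : kap t r s ≠ krs t r' s' := by
  intro h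
  unfold kap krs at h
  have h1 := (ht ((r : ℤ) + r') ((s : ℤ) + s') (by push_cast; linear_combination -h)).1
  omega

theorem kap_indep {t : ℂ} (ht : Irr t) {r s : ℕ} (hr : 1 ≤ r) (hs : 1 ≤ s) (m : ℕ)
    (a : Nat.Partition m → ℂ) (ha : ∑ π, a π • wR t (kap t r s) (pl π) 1 = 0) : a = 0 :=
  indep_of_det t (kap t r s) m
    (det_ne ht _ m fun r' s' hr' hs' _ => kap_ne ht hr hs r' s' hr' hs') a ha

theorem kap_span {t : ℂ} (ht : Irr t) {r s : ℕ} (hr : 1 ≤ r) (hs : 1 ≤ s) (m : ℕ) (f : Ph ℂ)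
    (hf : IsWeightedHomogeneous wt f m) :
    ∃ a : Nat.Partition m → ℂ, f = ∑ π, a π • wR t (kap t r s) (pl π) 1 := by
  have h1 := span_of_det t (kap t r s) m
    (det_ne ht _ m fun r' s' hr' hs' _ => kap_ne ht hr hs r' s' hr' hs') f hf
  obtain ⟨a, ha⟩ := (Submodule.mem_span_range_iff_exists_fun ℂ).1 h1
  exact ⟨a, ha.symm⟩

theorem kap_hk {t : ℂ} (ht : Irr t) (r s : ℕ) : hk t (kap t r s) = hrs t r s := by
  unfold kap
  rw [hk_refl, hk_krs (kv17_ne ht)]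

theorem kap_one (t κ : ℂ) : IsPrim (Lk t κ) (hk t κ) 1 := by
  have hone : IsWeightedHomogeneous wt (1 : Ph ℂ) 0 := isWeightedHomogeneous_one ℂ wt
  refine ⟨?_, fun k hk => ?_⟩
  · have h1 := Lk_zero_homog t κ 1 0 hone
    rwa [Nat.cast_zero, add_zero] at h1
  · exact Lk_eq_zero t κ k 1 0 hone (by exact_mod_cast hk)

theorem wd_L0 {N : Type} [AddCommGroup N] [Module ℂ N] {c0 : ℂ} {L : ℤ → N →ₗ[ℂ] N}
    (hL : IsVir c0 L) (h : ℂ) (x : N) (hx : L 0 x = h • x) (w : List ℕ) :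
    L 0 (wd L w x) = (h + w.sum) • wd L w x := by
  induction w with
  | nil =>
    change L 0 x = (h + ((0 : ℕ) : ℂ)) • x
    rw [Nat.cast_zero, add_zero, hx]
  | cons a w ih =>
    have h1 : wd L (a :: w) x = L (-(a : ℤ)) (wd L w x) := rfl
    have h2 := kv18_vir hL 0 (-(a : ℤ)) (wd L w x)
    have h3 : (if (0 : ℤ) + -(a : ℤ) = 0 then (c0 / 12 * (((0 : ℤ) : ℂ) ^ 3 - ((0 : ℤ) : ℂ))) •
        wd L w x else 0) = 0 := by
      split_ifs
      · simp
      · rfl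
    rw [h3, add_zero, zero_add, ih, map_smul] at h2
    rw [h1, h2, ← add_smul, List.sum_cons]
    congr 1
    push_cast
    ring

/-- If `∑ c_π v_π = 0` in the Fock space with `κ_{r,s}`, then `∑ c_π L(-π) x` is singular. -/
theorem S_sing {t : ℂ} (ht : Irr t) {r s n : ℕ} (hr : 1 ≤ r) (hs : 1 ≤ s) (hn : n = r * s)
    (c : Nat.Partition n → ℂ) (hc : ∑ π, c π • wR t (krs t r s) (pl π) 1 = 0) {N : Type}
    [AddCommGroup N] [Module ℂ N] (L : ℤ → N →ₗ[ℂ] N) (hL : IsVir (cc t) L) (x : N)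
    (hx : IsPrim L (hrs t r s) x) : IsPrim L (hrs t r s + n) (SS L c x) := by
  obtain ⟨hx0, hxk⟩ := hx
  refine ⟨?_, fun k hk => ?_⟩
  · unfold SS
    rw [map_sum, Finset.smul_sum]
    refine Finset.sum_congr rfl fun π _ => ?_
    rw [map_smul, wd_L0 hL _ x hx0, pl_sum, smul_comm]
  · have ht0 := kv17_ne ht
    have hone : IsWeightedHomogeneous wt (1 : Ph ℂ) 0 := isWeightedHomogeneous_one ℂ wt
    set κ0 := krs t r s with hκ
    have hP := kv19_isVir (L := L) ht0 κ0 hL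
    have h0P : kv19P t κ0 L 0 (x, 1) = hrs t r s • ((x, 1) : N × Ph ℂ) := by
      have h1 := Lk_zero_homog t κ0 1 0 hone
      rw [Nat.cast_zero, add_zero, hκ, hk_krs ht0] at h1
      rw [kv19P_apply, hx0, h1]
      rfl
    have hxP : ∀ k : ℕ, 0 < k → kv19P t κ0 L k (x, 1) = 0 := by
      intro k hk
      have h1 := Lk_eq_zero t κ0 k 1 0 hone (by exact_mod_cast hk)
      rw [kv19P_apply, hxk k hk, h1]
      rfl
    have hY : (SS L c x, (0 : Ph ℂ)) = ∑ π, c π • wd (kv19P t κ0 L) (pl π) (x, 1) := by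
      refine Prod.ext ?_ ?_
      · rw [Prod.fst_sum]
        change ∑ π, c π • wd L (pl π) x = _
        refine Finset.sum_congr rfl fun π _ => ?_
        rw [kv19_wd]
        rfl
      · rw [Prod.snd_sum]
        change (0 : Ph ℂ) = _
        rw [← hc]
        refine Finset.sum_congr rfl fun π _ => ?_
        rw [kv19_wd, ← wd_eq t κ0 (pl π) (pl_pos π)]
        rfl
    have hYm : (SS L c x, (0 : Ph ℂ)) ∈ Sw (kv19P t κ0 L) (x, 1) (n : ℤ) := by
      rw [hY]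
      refine Submodule.sum_mem _ fun π _ => Submodule.smul_mem _ _ ?_
      have h1 := wd_mem (kv19P t κ0 L) (x, 1) (pl π) (pl_pos π)
      rwa [pl_sum] at h1
    have hk1 := Sw_L hP (x, 1) (hrs t r s) h0P hxP (k : ℤ) (n : ℤ) _ hYm
    rw [kv19P_apply] at hk1
    rcases Nat.lt_or_ge n k with hnk | hnk
    · rw [Sw_neg _ _ _ (by omega), Submodule.mem_bot] at hk1
      exact congrArg Prod.fst hk1
    · obtain ⟨m, hm⟩ : ∃ m, n = m + k := ⟨n - k, by omega⟩
      have e1 : (n : ℤ) - k = (m : ℤ) := by omega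
      rw [e1] at hk1
      have hle : Sw (kv19P t κ0 L) (x, 1) (m : ℤ) ≤ Submodule.span ℂ
          (Set.range fun ν : Nat.Partition m => wd (kv19P t κ0 L) (pl ν) (x, 1)) := by
        unfold Sw
        rw [Submodule.span_le]
        rintro y ⟨w, hw, hws, rfl⟩
        exact straight_wd hP (x, 1) m w hw (by exact_mod_cast hws)
      obtain ⟨b, hb⟩ := (Submodule.mem_span_range_iff_exists_fun ℂ).1 (hle hk1)
      have hb2 : ∑ ν, b ν • wR t κ0 (pl ν) 1 = 0 := by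
        have h1 := congrArg Prod.snd hb
        rw [Prod.snd_sum, map_zero] at h1
        change _ = (0 : Ph ℂ) at h1
        rw [← h1]
        refine Finset.sum_congr rfl fun ν _ => ?_
        rw [kv19_wd, ← wd_eq t κ0 (pl ν) (pl_pos ν)]
        rfl
      have hb0 : b = 0 := by
        refine indep_of_det t κ0 m (det_ne ht κ0 m fun r' s' hr' hs' hle' h1 => ?_) b hb2
        rw [hκ] at h1
        obtain ⟨h2, h3⟩ := krs_inj ht h1
        rw [← h2, ← h3] at hle'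
        omega
      have h1 := congrArg Prod.fst hb
      rw [hb0] at h1
      simpa using h1.symm

end

end WPQ.SV
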