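import Pool.Agent.WPQ.SVD
import Pool.Agent.WPQ.KV16

/-! [WPQ-SV2] The filtration by the number of letters `1`.

`Fa t κ a m` is spanned by `L(-w) L(-1)^b 1` with all letters of `w` at least `2`, `b ≤ a`, total level `m`.

Plan.  `big π` = the letters `≥ 2` of `pl π` (in decreasing order); `pl_big`: `pl π` is sorted decreasingly
(`Multiset.sort` API: `Multiset.sort_sorted`, pairwise `≥`), so its letters equal to `1` are at the end.
`two_straight`: adapt `straight` (KV6: `perm` for adjacent transpositions, induction on the length): words with all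
letters `≥ 2` are closed under the commutator (`a + b ≥ 2`), so
`wR t κ w f` (all letters `≥ 2`) is a combination of `wR t κ u f`, `u` sorted decreasingly, letters `≥ 2`,
same sum (`Ln_comm`).  `F_span`: `wR w (wR (replicate b 1) 1) = wR (w ++ replicate b 1) 1` (`wR_append`); a sorted `u` followed by
`b` ones is `pl π` for the partition `π` with these parts (`Multiset.coe_sort`, `List.eq_of_perm_of_sorted`), with `b` ones.
`F_two`: put the letter in front.  `F_one`: `L(-1) L(-w) z = L(-w) L(-1) z + ∑_i (w_i - 1) L(-(w with w_i + 1)) z`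
(`[L(-1), L(-j)] = (j-1) L(-(j+1))`), induction on `w`.
`F_pos`: induction on `w`: `L(k) L(-j) z = L(-j) L(k) z + (k+j) L(k-j) z + δ_{jk} (..) z`; for `k > j` induction hypothesis,
`k = j`: `L(0) z` is a scalar multiple (`Lk_zero_homog`), `k = j - 1`: `F_one`, `k < j - 1`: `F_two`.
`w = []`: `L(k) L(-1)^b 1` is a multiple of `L(-1)^{b-k} 1` (`0` if `k > b`): induction on `b`.
Use `isVir_Lk` (KV16), `Lk_neg` (`Lk t κ (-a) = Ln t κ a`). -/

namespace WPQ.SV

open MvPolynomial KV

noncomputable section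

/-- The number of parts equal to `1`. -/
def n1 {m : ℕ} (π : Nat.Partition m) : ℕ := π.parts.count 1

/-- The parts `≥ 2`, in decreasing order. -/
def big {m : ℕ} (π : Nat.Partition m) : List ℕ := (pl π).filter (2 ≤ ·)

/-- The filtration. -/
def Fa (t κ : ℂ) (a : ℕ) (m : ℤ) : Submodule ℂ (Ph ℂ) :=
  Submodule.span ℂ {y | ∃ (w : List ℕ) (b : ℕ), (∀ j ∈ w, 2 ≤ j) ∧ b ≤ a ∧
    ((w.sum : ℤ) + b = m) ∧ y = wR t κ w (wR t κ (List.replicate b 1) 1)}

theorem sv2_list (l : List ℕ) (hl : l.Pairwise (· ≥ ·)) (hp : ∀ j ∈ l, 0 < j) :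
    l = l.filter (2 ≤ ·) ++ List.replicate (l.count 1) 1 := by
  induction l with
  | nil => simp
  | cons a l ih =>
    have hl' := List.pairwise_cons.1 hl
    have ih' := ih hl'.2 fun j hj => hp j (List.mem_cons_of_mem _ hj)
    by_cases ha : 2 ≤ a
    · have h1 : (a :: l).filter (2 ≤ ·) = a :: l.filter (2 ≤ ·) := by
        rw [List.filter_cons]
        simp [ha]
      have h2 : (a :: l).count 1 = l.count 1 := by
        rw [List.count_cons]
        have : ¬ (a = 1) := by omega
        simp [this]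
      rw [h1, h2, List.cons_append, ← ih']
    · have ha1 : a = 1 := by
        have := hp a List.mem_cons_self
        omega
      have hall : ∀ j ∈ (a :: l), j = 1 := by
        intro j hj
        rcases List.mem_cons.1 hj with rfl | hj'
        · exact ha1
        · have h3 := hl'.1 j hj'
          have h4 := hp j (List.mem_cons_of_mem _ hj')
          omega
      have hrep : a :: l = List.replicate (a :: l).length 1 := List.eq_replicate_of_mem hall
      have h1 : (a :: l).filter (2 ≤ ·) = [] := by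
        rw [List.filter_eq_nil_iff]
        intro j hj
        have := hall j hj
        simp [this]
      have h2 : (a :: l).count 1 = (a :: l).length := by
        rw [List.count_eq_length]
        intro j hj
        exact (hall j hj).symm
      rw [h1, h2, List.nil_append]
      exact hrep

theorem sv2_n1 {m : ℕ} (π : Nat.Partition m) : n1 π = (pl π).count 1 := by
  unfold n1
  rw [← pl_coe π, Multiset.coe_count]

theorem pl_big {m : ℕ} (π : Nat.Partition m) : pl π = big π ++ List.replicate (n1 π) 1 := by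
  rw [sv2_n1]
  exact sv2_list (pl π) (Multiset.pairwise_sort π.parts (· ≥ ·)) (pl_pos π)

theorem big_ge {m : ℕ} (π : Nat.Partition m) : ∀ j ∈ big π, 2 ≤ j := by
  intro j hj
  unfold big at hj
  simpa using (List.mem_filter.1 hj).2

theorem F_mono (t κ : ℂ) {a a' : ℕ} (h : a ≤ a') (m : ℤ) : Fa t κ a m ≤ Fa t κ a' m := by
  refine Submodule.span_mono ?_
  rintro _ ⟨w, b, hw, hb, hs, rfl⟩
  exact ⟨w, b, hw, hb.trans h, hs, rfl⟩

section
variable {N : Type} [AddCommGroup N] [Module ℂ N]

theorem sv2_perm (T : ℕ → N →ₗ[ℂ] N)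
    (hT : ∀ a b : ℕ, 0 < a → 0 < b → T a ∘ₗ T b - T b ∘ₗ T a = ((b : ℂ) - a) • T (a + b)) (x : N)
    (w w' : List ℕ) (h : w.Perm w') (hw : ∀ j ∈ w, 2 ≤ j) :
    w.foldr (fun a y => T a y) x - w'.foldr (fun a y => T a y) x ∈
      Submodule.span ℂ {y | ∃ u : List ℕ, (∀ j ∈ u, 2 ≤ j) ∧ u.sum = w.sum ∧
        u.length < w.length ∧ y = u.foldr (fun a y => T a y) x} := by
  induction h with
  | nil => simp
  | @cons a l₁ l₂ h ih =>
    have hl : ∀ j ∈ l₁, 2 ≤ j := fun b hb => hw b (List.mem_cons_of_mem _ hb)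
    have ha : 2 ≤ a := hw a List.mem_cons_self
    have h1 := ih hl
    have h2 : (a :: l₁).foldr (fun a y => T a y) x - (a :: l₂).foldr (fun a y => T a y) x =
        T a (l₁.foldr (fun a y => T a y) x - l₂.foldr (fun a y => T a y) x) := by
      simp only [List.foldr_cons, map_sub]
    rw [h2]
    have h3 := Submodule.mem_map_of_mem (f := T a) h1
    rw [Submodule.map_span] at h3
    refine Submodule.span_mono ?_ h3
    rintro _ ⟨_, ⟨u, hu, hs, hlen, rfl⟩, rfl⟩
    refine ⟨a :: u, ?_, ?_, ?_, ?_⟩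
    · intro b hb
      rcases List.mem_cons.1 hb with rfl | hb
      · exact ha
      · exact hu b hb
    · simp [hs]
    · simpa using hlen
    · simp only [List.foldr_cons]
  | swap a b l =>
    have ha : 2 ≤ a := hw a (by simp)
    have hb : 2 ≤ b := hw b (by simp)
    have h1 := LinearMap.congr_fun (hT b a (by omega) (by omega)) (l.foldr (fun a y => T a y) x)
    simp only [LinearMap.sub_apply, LinearMap.comp_apply, LinearMap.smul_apply] at h1
    have h2 : (b :: a :: l).foldr (fun a y => T a y) x - (a :: b :: l).foldr (fun a y => T a y) x =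
        ((a : ℂ) - b) • T (b + a) (l.foldr (fun a y => T a y) x) := by
      simp only [List.foldr_cons]
      exact h1
    rw [h2]
    refine Submodule.smul_mem _ _ (Submodule.subset_span ⟨(b + a) :: l, ?_, ?_, ?_, ?_⟩)
    · intro c hc
      rcases List.mem_cons.1 hc with rfl | hc
      · omega
      · exact hw c (by simp [hc])
    · simp [add_assoc]
    · simp
    · simp only [List.foldr_cons]
  | @trans l₁ l₂ l₃ h₁ h₂ ih₁ ih₂ =>
    have hl₂ : ∀ j ∈ l₂, 2 ≤ j := fun b hb => hw b (h₁.mem_iff.2 hb)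
    have e1 := ih₁ hw
    have e2 := ih₂ hl₂
    rw [← h₁.sum_eq, ← h₁.length_eq] at e2
    have := Submodule.add_mem _ e1 e2
    simpa using this

end

theorem sv2_comm (t κ : ℂ) (a b : ℕ) (ha : 0 < a) (hb : 0 < b) :
    Ln t κ a ∘ₗ Ln t κ b - Ln t κ b ∘ₗ Ln t κ a = ((b : ℂ) - a) • Ln t κ (a + b) := by
  refine LinearMap.ext fun f => ?_
  simp only [LinearMap.sub_apply, LinearMap.comp_apply, LinearMap.smul_apply]
  exact Ln_comm t κ a b ha hb f

/-- the sorted words with at most `a` ones -/
def sv2_S (t κ : ℂ) (a m : ℕ) : Submodule ℂ (Ph ℂ) :=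
  Submodule.span ℂ {y | ∃ π : Nat.Partition m, n1 π ≤ a ∧ y = wR t κ (pl π) 1}

theorem sv2_straight (t κ : ℂ) (a m b : ℕ) (hb : b ≤ a) (w : List ℕ) (hw : ∀ j ∈ w, 2 ≤ j)
    (hs : w.sum + b = m) :
    wR t κ w (wR t κ (List.replicate b 1) 1) ∈ sv2_S t κ a m := by
  induction hn : w.length using Nat.strong_induction_on generalizing w with
  | _ n ih =>
    have hpos : ∀ {i : ℕ}, i ∈ ((w ++ List.replicate b 1 : List ℕ) : Multiset ℕ) → 0 < i := by
      intro i hi
      rw [Multiset.mem_coe, List.mem_append] at hi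
      rcases hi with hi | hi
      · have := hw i hi
        omega
      · have := List.eq_of_mem_replicate hi
        omega
    let π : Nat.Partition m := ⟨((w ++ List.replicate b 1 : List ℕ) : Multiset ℕ), hpos, by
      rw [Multiset.sum_coe, List.sum_append, List.sum_replicate]
      simpa using hs⟩
    have hp : (pl π).Perm (w ++ List.replicate b 1) := by
      have h1 : ((pl π : List ℕ) : Multiset ℕ) = ((w ++ List.replicate b 1 : List ℕ) : Multiset ℕ) :=
        pl_coe π
      exact Multiset.coe_eq_coe.1 h1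
    have hw1 : w.count 1 = 0 := by
      rw [List.count_eq_zero]
      intro h1
      have := hw 1 h1
      omega
    have hn1 : n1 π = b := by
      rw [sv2_n1, hp.count_eq, List.count_append, hw1, List.count_replicate_self, zero_add]
    have hbig : w.Perm (big π) := by
      have h1 : (big π).Perm ((w ++ List.replicate b 1).filter (2 ≤ ·)) := hp.filter _
      have h2 : (w ++ List.replicate b 1).filter (2 ≤ ·) = w := by
        rw [List.filter_append]
        have h3 : w.filter (2 ≤ ·) = w := by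
          rw [List.filter_eq_self]
          intro j hj
          simpa using hw j hj
        have h4 : (List.replicate b 1).filter (2 ≤ ·) = [] := by
          rw [List.filter_eq_nil_iff]
          intro j hj
          have := List.eq_of_mem_replicate hj
          simp [this]
        rw [h3, h4, List.append_nil]
      rw [h2] at h1
      exact h1.symm
    have h1 := sv2_perm (Ln t κ) (sv2_comm t κ) (wR t κ (List.replicate b 1) 1) w (big π) hbig hw
    have h2 : Submodule.span ℂ {y | ∃ u : List ℕ, (∀ j ∈ u, 2 ≤ j) ∧ u.sum = w.sum ∧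
        u.length < w.length ∧ y = u.foldr (fun a y => Ln t κ a y)
          (wR t κ (List.replicate b 1) 1)} ≤ sv2_S t κ a m := by
      rw [Submodule.span_le]
      rintro _ ⟨u, hu, hus, hul, rfl⟩
      exact ih u.length (hn ▸ hul) u hu (by rw [hus]; exact hs) rfl
    have h3 : (big π).foldr (fun a y => Ln t κ a y) (wR t κ (List.replicate b 1) 1) ∈
        sv2_S t κ a m := by
      have e : (big π).foldr (fun a y => Ln t κ a y) (wR t κ (List.replicate b 1) 1) =
          wR t κ (pl π) 1 := by
        rw [pl_big π, hn1, wR_append]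
        rfl
      rw [e]
      exact Submodule.subset_span ⟨π, by rw [hn1]; exact hb, rfl⟩
    have := Submodule.add_mem _ (h2 h1) h3
    simpa [wR] using this

/-- `F` is spanned by the sorted words with at most `a` ones. -/
theorem F_span (t κ : ℂ) (a m : ℕ) (y : Ph ℂ) (hy : y ∈ Fa t κ a m) :
    ∃ d : Nat.Partition m → ℂ, (∀ π, d π ≠ 0 → n1 π ≤ a) ∧ y = ∑ π, d π • wR t κ (pl π) 1 := by
  have h1 : Fa t κ a m ≤ sv2_S t κ a m := by
    unfold Fa
    rw [Submodule.span_le]
    rintro _ ⟨w, b, hw, hb, hs, rfl⟩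
    exact sv2_straight t κ a m b hb w hw (by exact_mod_cast hs)
  have h2 := h1 hy
  clear hy
  unfold sv2_S at h2
  induction h2 using Submodule.span_induction with
  | mem z hz =>
    obtain ⟨π, hπ, rfl⟩ := hz
    classical
    refine ⟨Pi.single π 1, ?_, ?_⟩
    · intro π' h
      by_cases he : π' = π
      · rw [he]; exact hπ
      · exact absurd (Pi.single_eq_of_ne he 1) h
    · rw [Finset.sum_eq_single π]
      · rw [Pi.single_eq_same, one_smul]
      · intro π' _ he
        rw [Pi.single_eq_of_ne he, zero_smul]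
      · intro h
        exact absurd (Finset.mem_univ π) h
  | zero => exact ⟨0, fun π h => absurd rfl h, by simp⟩
  | add z z' _ _ ih ih' =>
    obtain ⟨d, hd, rfl⟩ := ih
    obtain ⟨d', hd', rfl⟩ := ih'
    refine ⟨d + d', ?_, ?_⟩
    · intro π h
      by_cases h0 : d π = 0
      · refine hd' π fun h1 => h ?_
        rw [Pi.add_apply, h0, h1, add_zero]
      · exact hd π h0
    · rw [← Finset.sum_add_distrib]
      refine Finset.sum_congr rfl fun π _ => ?_
      rw [Pi.add_apply, add_smul]
  | smul c z _ ih =>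
    obtain ⟨d, hd, rfl⟩ := ih
    refine ⟨c • d, ?_, ?_⟩
    · intro π h
      refine hd π fun h0 => h ?_
      rw [Pi.smul_apply, h0, smul_zero]
    · rw [Finset.smul_sum]
      refine Finset.sum_congr rfl fun π _ => ?_
      rw [Pi.smul_apply, smul_assoc]

theorem F_two (t κ : ℂ) (a j : ℕ) (hj : 2 ≤ j) (m : ℤ) (y : Ph ℂ) (hy : y ∈ Fa t κ a m) :
    Ln t κ j y ∈ Fa t κ a (m + j) := by
  unfold Fa at hy
  induction hy using Submodule.span_induction with
  | mem z hz =>
    obtain ⟨w, b, hw, hb, hs, rfl⟩ := hz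
    refine Submodule.subset_span ⟨j :: w, b, ?_, hb, ?_, rfl⟩
    · intro i hi
      rcases List.mem_cons.1 hi with rfl | hi
      · exact hj
      · exact hw i hi
    · rw [List.sum_cons, Nat.cast_add]
      linarith
  | zero => rw [map_zero]; exact Submodule.zero_mem _
  | add z z' _ _ ih ih' => rw [map_add]; exact Submodule.add_mem _ ih ih'
  | smul c z _ ih => rw [map_smul]; exact Submodule.smul_mem _ _ ih

theorem sv2_one (t κ : ℂ) (a b : ℕ) (hb : b ≤ a) (w : List ℕ) (hw : ∀ j ∈ w, 2 ≤ j) :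
    Ln t κ 1 (wR t κ w (wR t κ (List.replicate b 1) 1)) ∈
      Fa t κ (a + 1) ((w.sum : ℤ) + b + 1) := by
  induction w with
  | nil =>
    refine Submodule.subset_span ⟨[], b + 1, by simp, by omega, by simp, ?_⟩
    rfl
  | cons j w ih =>
    have hw' : ∀ i ∈ w, 2 ≤ i := fun i hi => hw i (List.mem_cons_of_mem _ hi)
    have hj : 2 ≤ j := hw j List.mem_cons_self
    set z := wR t κ w (wR t κ (List.replicate b 1) 1) with hz
    have hzm : z ∈ Fa t κ a ((w.sum : ℤ) + b) := Submodule.subset_span ⟨w, b, hw', hb, rfl, rfl⟩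
    have e1 : wR t κ (j :: w) (wR t κ (List.replicate b 1) 1) = Ln t κ j z := rfl
    have hc := Ln_comm t κ 1 j one_pos (by omega) z
    have e2 : Ln t κ 1 (Ln t κ j z) = Ln t κ j (Ln t κ 1 z) + ((j : ℂ) - (1 : ℕ)) • Ln t κ (1 + j) z := by
      rw [← hc]
      abel
    rw [e1, e2]
    refine Submodule.add_mem _ ?_ (Submodule.smul_mem _ _ ?_)
    · have h1 := F_two t κ (a + 1) j hj _ _ (ih hw')
      have e3 : (w.sum : ℤ) + b + 1 + j = (((j :: w).sum : ℕ) : ℤ) + b + 1 := by
        rw [List.sum_cons, Nat.cast_add]; push_cast; ring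
      rw [e3] at h1
      exact h1
    · have h1 := F_two t κ a (1 + j) (by omega) _ _ hzm
      have e3 : (w.sum : ℤ) + b + ((1 + j : ℕ) : ℤ) = (((j :: w).sum : ℕ) : ℤ) + b + 1 := by
        rw [List.sum_cons, Nat.cast_add]; push_cast; ring
      rw [e3] at h1
      exact F_mono t κ (Nat.le_succ a) _ h1

theorem F_one (t κ : ℂ) (a : ℕ) (m : ℤ) (y : Ph ℂ) (hy : y ∈ Fa t κ a m) :
    Ln t κ 1 y ∈ Fa t κ (a + 1) (m + 1) := by
  unfold Fa at hy
  induction hy using Submodule.span_induction with
  | mem z hz =>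
    obtain ⟨w, b, hw, hb, hs, rfl⟩ := hz
    rw [← hs]
    exact sv2_one t κ a b hb w hw
  | zero => rw [map_zero]; exact Submodule.zero_mem _
  | add z z' _ _ ih ih' => rw [map_add]; exact Submodule.add_mem _ ih ih'
  | smul c z _ ih => rw [map_smul]; exact Submodule.smul_mem _ _ ih

theorem sv2_vir (t κ : ℂ) (ht : t ≠ 0) (k : ℤ) (j : ℕ) (hj : 0 < j) (z : Ph ℂ) :
    Lk t κ k (Ln t κ j z) = Ln t κ j (Lk t κ k z) + ((k : ℂ) + j) • Lk t κ (k - j) z +
      (if k = j then (cc t / 12 * ((k : ℂ) ^ 3 - k)) else 0) • z := by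
  have h := congrArg (fun F => F z) (isVir_Lk t κ ht k (-(j : ℤ)))
  simp only [LinearMap.sub_apply, LinearMap.comp_apply, LinearMap.add_apply,
    LinearMap.smul_apply, Lk_neg t κ j hj] at h
  have e1 : k + -(j : ℤ) = k - j := by ring
  rw [e1] at h
  have e2 : ((k : ℂ) - ((-(j : ℤ) : ℤ) : ℂ)) = (k : ℂ) + j := by push_cast; ring
  rw [e2] at h
  have e3 : (if k - (j : ℤ) = 0 then (cc t / 12 * ((k : ℂ) ^ 3 - k)) • (LinearMap.id : Ph ℂ →ₗ[ℂ] Ph ℂ)
      else 0) z = (if k = j then (cc t / 12 * ((k : ℂ) ^ 3 - k)) else 0) • z := by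
    by_cases hk : k = j
    · rw [if_pos (by omega), if_pos hk]
      simp
    · rw [if_neg (by omega), if_neg hk]
      simp
  rw [e3, sub_eq_iff_eq_add] at h
  rw [h]
  abel

theorem sv2_homog (t κ : ℂ) (w : List ℕ) (hw : ∀ j ∈ w, 2 ≤ j) (b : ℕ) :
    IsWeightedHomogeneous wt (wR t κ w (wR t κ (List.replicate b 1) 1)) (w.sum + b) := by
  have h1 : IsWeightedHomogeneous wt (wR t κ (List.replicate b 1) 1) b := by
    have := wR_one_homog t κ (List.replicate b 1) (by
      intro j hj
      have := List.eq_of_mem_replicate hj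
      omega)
    simpa using this
  exact wR_homog t κ w (fun j hj => by have := hw j hj; omega) _ b h1

theorem sv2_base (t κ : ℂ) (ht : t ≠ 0) (b k : ℕ) (hk : 0 < k) :
    ∃ s : ℂ, Lk t κ k (wR t κ (List.replicate b 1) 1) =
      s • wR t κ (List.replicate (b - k) 1) 1 ∧ (b < k → s = 0) := by
  induction b generalizing k with
  | zero =>
    refine ⟨0, ?_, fun _ => rfl⟩
    rw [zero_smul]
    exact Lk_eq_zero t κ k _ 0 (isWeightedHomogeneous_one ℂ wt) (by exact_mod_cast hk)
  | succ b ih =>
    have e0 : wR t κ (List.replicate (b + 1) 1) 1 = Ln t κ 1 (wR t κ (List.replicate b 1) 1) := rfl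
    rw [e0, sv2_vir t κ ht k 1 one_pos]
    have hc : (if (k : ℤ) = ((1 : ℕ) : ℤ) then (cc t / 12 * (((k : ℤ) : ℂ) ^ 3 - ((k : ℤ) : ℂ))) else 0) = 0 := by
      split_ifs with h1
      · have : k = 1 := by exact_mod_cast h1
        rw [this]
        simp
      · rfl
    rw [hc, zero_smul, add_zero]
    obtain ⟨s, hs, hs0⟩ := ih k hk
    have h1 : Ln t κ 1 (s • wR t κ (List.replicate (b - k) 1) 1) =
        s • wR t κ (List.replicate (b + 1 - k) 1) 1 := by
      rw [map_smul]
      by_cases hbk : b < k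
      · rw [hs0 hbk, zero_smul, zero_smul]
      · have : b + 1 - k = (b - k) + 1 := by omega
        rw [this]
        rfl
    rw [hs, h1]
    rcases Nat.lt_or_ge 1 k with hk1 | hk1
    · obtain ⟨s', hs', hs0'⟩ := ih (k - 1) (by omega)
      have e1 : ((k : ℤ) - ((1 : ℕ) : ℤ)) = ((k - 1 : ℕ) : ℤ) := by omega
      have e2 : b - (k - 1) = b + 1 - k := by omega
      rw [e1, hs', e2, smul_smul, ← add_smul]
      refine ⟨_, rfl, ?_⟩
      intro hb
      rw [hs0 (by omega), hs0' (by omega)]
      simp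
    · have hk' : k = 1 := by omega
      subst hk'
      have e1 : (((1 : ℕ) : ℤ) - ((1 : ℕ) : ℤ)) = 0 := by omega
      have h2 : IsWeightedHomogeneous wt (wR t κ (List.replicate b 1) 1) b := by
        have := sv2_homog t κ [] (by simp) b
        simpa [wR] using this
      rw [e1, Lk_zero_homog t κ _ b h2, Nat.add_sub_cancel, smul_smul, ← add_smul]
      refine ⟨_, rfl, ?_⟩
      intro hb
      omega

theorem sv2_base' (t κ : ℂ) (ht : t ≠ 0) (b k : ℕ) (hk : 0 < k) :
    Lk t κ k (wR t κ (List.replicate b 1) 1) ∈ Fa t κ b ((b : ℤ) - k) := by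
  obtain ⟨s, hs, hs0⟩ := sv2_base t κ ht b k hk
  rw [hs]
  by_cases hb : b < k
  · rw [hs0 hb, zero_smul]
    exact Submodule.zero_mem _
  · refine Submodule.smul_mem _ _ (Submodule.subset_span ⟨[], b - k, by simp, by omega, ?_, rfl⟩)
    simp only [List.sum_nil]
    omega

theorem sv2_pos (t κ : ℂ) (ht : t ≠ 0) (a b : ℕ) (hb : b ≤ a) (w : List ℕ)
    (hw : ∀ j ∈ w, 2 ≤ j) (k : ℕ) (hk : 0 < k) :
    Lk t κ k (wR t κ w (wR t κ (List.replicate b 1) 1)) ∈
      Fa t κ (a + 1) ((w.sum : ℤ) + b - k) := by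
  induction w generalizing k with
  | nil =>
    have h1 := sv2_base' t κ ht b k hk
    have h2 := F_mono t κ (show b ≤ a + 1 by omega) _ h1
    simpa [wR] using h2
  | cons j w ih =>
    have hw' : ∀ i ∈ w, 2 ≤ i := fun i hi => hw i (List.mem_cons_of_mem _ hi)
    have hj : 2 ≤ j := hw j List.mem_cons_self
    set z := wR t κ w (wR t κ (List.replicate b 1) 1) with hz
    have hzm : z ∈ Fa t κ a ((w.sum : ℤ) + b) := Submodule.subset_span ⟨w, b, hw', hb, rfl, rfl⟩
    have hzh : IsWeightedHomogeneous wt z (w.sum + b) := sv2_homog t κ w hw' b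
    have e1 : wR t κ (j :: w) (wR t κ (List.replicate b 1) 1) = Ln t κ j z := rfl
    have e0 : (((j :: w).sum : ℕ) : ℤ) = w.sum + j := by
      rw [List.sum_cons, Nat.cast_add]; push_cast; ring
    rw [e1, sv2_vir t κ ht k j (by omega), e0]
    refine Submodule.add_mem _ (Submodule.add_mem _ ?_ (Submodule.smul_mem _ _ ?_)) ?_
    · have h1 := F_two t κ (a + 1) j hj _ _ (ih hw' k hk)
      have e3 : (w.sum : ℤ) + b - k + j = (w.sum : ℤ) + j + b - k := by ring
      rw [e3] at h1
      exact h1
    · rcases Nat.lt_trichotomy j k with hjk | hjk | hjk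
      · have h1 := ih hw' (k - j) (by omega)
        have e3 : (w.sum : ℤ) + b - ((k - j : ℕ) : ℤ) = (w.sum : ℤ) + j + b - k := by omega
        have e4 : ((k - j : ℕ) : ℤ) = (k : ℤ) - j := by omega
        rw [e3, e4] at h1
        exact h1
      · subst hjk
        have e4 : ((j : ℤ) - j) = 0 := by ring
        rw [e4, Lk_zero_homog t κ z _ hzh]
        refine Submodule.smul_mem _ _ (F_mono t κ (Nat.le_succ a) _ ?_)
        have e3 : (w.sum : ℤ) + j + b - j = (w.sum : ℤ) + b := by ring
        rw [e3]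
        exact hzm
      · have e4 : ((k : ℤ) - j) = -((j - k : ℕ) : ℤ) := by omega
        rw [e4, Lk_neg t κ (j - k) (by omega)]
        have e3 : (w.sum : ℤ) + j + b - k = (w.sum : ℤ) + b + ((j - k : ℕ) : ℤ) := by omega
        rw [e3]
        rcases Nat.lt_or_ge (j - k) 2 with h2 | h2
        · have h3 : j - k = 1 := by omega
          rw [h3]
          exact F_one t κ a _ z hzm
        · exact F_mono t κ (Nat.le_succ a) _ (F_two t κ a (j - k) h2 _ z hzm)
    · by_cases hjk : (k : ℤ) = j
      · rw [if_pos hjk]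
        refine Submodule.smul_mem _ _ (F_mono t κ (Nat.le_succ a) _ ?_)
        have e3 : (w.sum : ℤ) + j + b - k = (w.sum : ℤ) + b := by omega
        rw [e3]
        exact hzm
      · rw [if_neg hjk, zero_smul]
        exact Submodule.zero_mem _

theorem F_pos (t κ : ℂ) (ht : t ≠ 0) (a k : ℕ) (hk : 0 < k) (m : ℤ) (y : Ph ℂ)
    (hy : y ∈ Fa t κ a m) : Lk t κ k y ∈ Fa t κ (a + 1) (m - k) := by
  unfold Fa at hy
  induction hy using Submodule.span_induction with
  | mem z hz =>
    obtain ⟨w, b, hw, hb, hs, rfl⟩ := hz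
    rw [← hs]
    exact sv2_pos t κ ht a b hb w hw k hk
  | zero => rw [map_zero]; exact Submodule.zero_mem _
  | add z z' _ _ ih ih' => rw [map_add]; exact Submodule.add_mem _ ih ih'
  | smul c z _ ih => rw [map_smul]; exact Submodule.smul_mem _ _ ih

/-- `L(k) L(-1)^b 1` -/
theorem F_base (t κ : ℂ) (ht : t ≠ 0) (b k : ℕ) (hk : 0 < k) :
    Lk t κ k (wR t κ (List.replicate b 1) 1) ∈ Fa t κ b ((b : ℤ) - k) :=
  sv2_base' t κ ht b k hk

end

end WPQ.SV
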