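import Pool.Agent.WPQ.SV2

/-! [WPQ-SV3] The main computation: `L(k-1)` on a sorted word with letters `≥ k`.

Plan.  `F_key`: induction on `w` (sorted decreasingly, all letters `≥ k`, `k ≥ 2`), `z = wR t κ (replicate a 1) 1`.
`w = []`: `F_base` with `k - 1 ≥ 1`.
`w = j :: w1`, `Z = wR w1 z`: `L(k-1) L(-j) Z = L(-j) L(k-1) Z + (k-1+j) L(k-1-j) Z` (no central term as `j ≠ k-1`).
`j > k`: `k-1-j ≤ -2`, so the second term is in `F_a` (`F_two`); first term: induction hypothesis, `F_two`;
`count k w = count k w1`, `w.erase k = j :: w1.erase k`.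
`j = k`: second term `= (2k-1) L(-1) Z`, and `F_one_key`: `L(-1) wR w1 z - wR w1 (wR (replicate (a+1) 1) 1) ∈ F_a`
(`L(-1)` moves to the right, commutators have letters `≥ 3`).  All letters of `w` are `≤ k` and `≥ k`, so
`w1 = replicate _ k`, and `k :: w1.erase k = w1` if `k ∈ w1`; `count k w = count k w1 + 1`, `w.erase k = w1`. -/

namespace WPQ.SV

open MvPolynomial KV

noncomputable section

theorem sv3_mem (t κ : ℂ) (a : ℕ) (w : List ℕ) (hw : ∀ j ∈ w, 2 ≤ j) :
    wR t κ w (wR t κ (List.replicate a 1) 1) ∈ Fa t κ a ((w.sum : ℤ) + a) :=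
  Submodule.subset_span ⟨w, a, hw, le_rfl, rfl, rfl⟩

theorem F_one_key (t κ : ℂ) (ht : t ≠ 0) (a : ℕ) (w : List ℕ) (hw : ∀ j ∈ w, 2 ≤ j) :
    Ln t κ 1 (wR t κ w (wR t κ (List.replicate a 1) 1)) -
      wR t κ w (wR t κ (List.replicate (a + 1) 1) 1) ∈ Fa t κ a ((w.sum : ℤ) + a + 1) := by
  have _ := ht
  induction w with
  | nil =>
    have h : Ln t κ 1 (wR t κ [] (wR t κ (List.replicate a 1) 1)) -
        wR t κ [] (wR t κ (List.replicate (a + 1) 1) 1) = 0 := by
      rw [List.replicate_succ]
      exact sub_self _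
    rw [h]
    exact Submodule.zero_mem _
  | cons j w ih =>
    have hj : 2 ≤ j := hw j List.mem_cons_self
    have hw' : ∀ i ∈ w, 2 ≤ i := fun i hi => hw i (List.mem_cons_of_mem _ hi)
    set Z := wR t κ w (wR t κ (List.replicate a 1) 1) with hZ
    set Y := wR t κ w (wR t κ (List.replicate (a + 1) 1) 1) with hY
    have e1 : wR t κ (j :: w) (wR t κ (List.replicate a 1) 1) = Ln t κ j Z := rfl
    have e2 : wR t κ (j :: w) (wR t κ (List.replicate (a + 1) 1) 1) = Ln t κ j Y := rfl
    have h1 := Ln_comm t κ 1 j one_pos (by omega) Z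
    have h2 : Ln t κ 1 (Ln t κ j Z) - Ln t κ j Y =
        Ln t κ j (Ln t κ 1 Z - Y) + ((j : ℂ) - (1 : ℕ)) • Ln t κ (1 + j) Z := by
      rw [← h1, map_sub]
      abel
    rw [e1, e2, h2]
    refine Submodule.add_mem _ ?_ (Submodule.smul_mem _ _ ?_)
    · have h3 := F_two t κ a j hj _ _ (ih hw')
      have e3 : (w.sum : ℤ) + a + 1 + j = ((j :: w).sum : ℤ) + a + 1 := by
        rw [List.sum_cons]
        push_cast
        ring
      rwa [e3] at h3
    · have h3 := F_two t κ a (1 + j) (by omega) _ _ (sv3_mem t κ a w hw')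
      have e3 : (w.sum : ℤ) + a + (1 + j : ℕ) = ((j :: w).sum : ℤ) + a + 1 := by
        rw [List.sum_cons]
        push_cast
        ring
      rwa [e3] at h3

theorem F_key (t κ : ℂ) (ht : t ≠ 0) (a k : ℕ) (hk : 2 ≤ k) (w : List ℕ)
    (hs : w.Pairwise (· ≥ ·)) (hw : ∀ j ∈ w, k ≤ j) :
    Lk t κ ((k : ℤ) - 1) (wR t κ w (wR t κ (List.replicate a 1) 1)) -
      ((2 * (k : ℂ) - 1) * w.count k) •
        wR t κ (w.erase k) (wR t κ (List.replicate (a + 1) 1) 1) ∈
      Fa t κ a ((w.sum : ℤ) + a - k + 1) := by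
  induction w with
  | nil =>
    have h1 := F_base t κ ht a (k - 1) (by omega)
    have e1 : ((k - 1 : ℕ) : ℤ) = (k : ℤ) - 1 := by omega
    rw [e1] at h1
    have e2 : (([] : List ℕ).sum : ℤ) + a - k + 1 = (a : ℤ) - ((k : ℤ) - 1) := by
      rw [List.sum_nil]
      push_cast
      ring
    rw [e2, List.count_nil, Nat.cast_zero, mul_zero, zero_smul, sub_zero]
    exact h1
  | cons j w ih =>
    have hkj : k ≤ j := hw j List.mem_cons_self
    have hw' : ∀ i ∈ w, k ≤ i := fun i hi => hw i (List.mem_cons_of_mem _ hi)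
    have hw2 : ∀ i ∈ w, 2 ≤ i := fun i hi => hk.trans (hw' i hi)
    have hs' : w.Pairwise (· ≥ ·) := (List.pairwise_cons.1 hs).2
    have hjw : ∀ i ∈ w, j ≥ i := (List.pairwise_cons.1 hs).1
    have ih' := ih hs' hw'
    set Y0 := wR t κ (List.replicate (a + 1) 1) 1 with hY0
    set Z := wR t κ w (wR t κ (List.replicate a 1) 1) with hZ
    have e1 : wR t κ (j :: w) (wR t κ (List.replicate a 1) 1) = Ln t κ j Z := rfl
    -- the commutator
    have hc : Lk t κ ((k : ℤ) - 1) (Ln t κ j Z) = Ln t κ j (Lk t κ ((k : ℤ) - 1) Z) +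
        ((k : ℂ) - 1 + j) • Ln t κ (j + 1 - k) Z := by
      have h1 := LinearMap.congr_fun (isVir_Lk t κ ht ((k : ℤ) - 1) (-(j : ℤ))) Z
      rw [if_neg (by omega), add_zero, LinearMap.sub_apply, LinearMap.comp_apply,
        LinearMap.comp_apply, LinearMap.smul_apply, Lk_neg t κ j (by omega),
        sub_eq_iff_eq_add'] at h1
      have e2 : (k : ℤ) - 1 + -(j : ℤ) = -((j + 1 - k : ℕ) : ℤ) := by omega
      rw [e2, Lk_neg t κ (j + 1 - k) (by omega)] at h1
      rw [h1]
      congr 2
      push_cast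
      ring
    rw [e1, hc]
    have e4 : ∀ x : ℤ, ((j :: w).sum : ℤ) + a - k + 1 = (w.sum : ℤ) + a - k + 1 + j := by
      intro _
      rw [List.sum_cons]
      push_cast
      ring
    -- the first term
    have hA : Ln t κ j (Lk t κ ((k : ℤ) - 1) Z) -
        ((2 * (k : ℂ) - 1) * w.count k) • Ln t κ j (wR t κ (w.erase k) Y0) ∈
        Fa t κ a (((j :: w).sum : ℤ) + a - k + 1) := by
      have h1 := F_two t κ a j (hk.trans hkj) _ _ ih'
      rw [map_sub, map_smul, ← e4 0] at h1
      exact h1
    rcases Nat.lt_or_ge k j with hlt | hge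
    · -- `j > k`
      have hB : ((k : ℂ) - 1 + j) • Ln t κ (j + 1 - k) Z ∈
          Fa t κ a (((j :: w).sum : ℤ) + a - k + 1) := by
        refine Submodule.smul_mem _ _ ?_
        have h1 := F_two t κ a (j + 1 - k) (by omega) _ _ (sv3_mem t κ a w hw2)
        have e3 : (w.sum : ℤ) + a + ((j + 1 - k : ℕ) : ℤ) =
            ((j :: w).sum : ℤ) + a - k + 1 := by
          rw [List.sum_cons]
          push_cast [Nat.cast_sub (show k ≤ j + 1 by omega)]
          ring
        rwa [e3] at h1
      have e5 : (j :: w).erase k = j :: w.erase k := by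
        rw [List.erase_cons_tail]
        simpa using hlt.ne'
      have e6 : (j :: w).count k = w.count k := by
        rw [List.count_cons_of_ne hlt.ne']
      have e7 : wR t κ (j :: w.erase k) Y0 = Ln t κ j (wR t κ (w.erase k) Y0) := rfl
      rw [e5, e6, e7]
      have h9 := Submodule.add_mem _ hA hB
      convert h9 using 1
      abel
    · -- `j = k`
      have hj : j = k := le_antisymm hge hkj
      subst hj
      have hall : ∀ i ∈ w, i = j := fun i hi => le_antisymm (hjw i hi) (hw' i hi)
      have hrep : w = List.replicate w.length j := List.eq_replicate_length.2 hall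
      have hB : Ln t κ 1 Z - wR t κ w Y0 ∈ Fa t κ a (((j :: w).sum : ℤ) + a - j + 1) := by
        have h1 := F_one_key t κ ht a w hw2
        have e3 : (w.sum : ℤ) + a + 1 = ((j :: w).sum : ℤ) + a - j + 1 := by
          rw [List.sum_cons]
          push_cast
          ring
        rwa [e3] at h1
      have e5 : (j :: w).erase j = w := List.erase_cons_head j w
      have e6 : (j :: w).count j = w.count j + 1 := List.count_cons_self
      have e8 : j + 1 - j = 1 := by omega
      have e7 : ((2 * (j : ℂ) - 1) * w.count j) • Ln t κ j (wR t κ (w.erase j) Y0) =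
          ((2 * (j : ℂ) - 1) * w.count j) • wR t κ w Y0 := by
        by_cases hmem : j ∈ w
        · have h2 : j :: w.erase j = w := by
            have hl : w.length ≠ 0 := by
              intro h0
              rw [List.length_eq_zero_iff] at h0
              rw [h0] at hmem
              exact List.not_mem_nil hmem
            obtain ⟨m, hm⟩ := Nat.exists_eq_succ_of_ne_zero hl
            rw [hm] at hrep
            rw [hrep, Nat.succ_eq_add_one, List.replicate_succ, List.erase_cons_head]
          have h3 : Ln t κ j (wR t κ (w.erase j) Y0) = wR t κ (j :: w.erase j) Y0 := rfl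
          rw [h3, h2]
        · rw [List.count_eq_zero_of_not_mem hmem, Nat.cast_zero, mul_zero, zero_smul, zero_smul]
      rw [e7] at hA
      rw [e5, e6, e8]
      have h9 := Submodule.add_mem _ hA (Submodule.smul_mem _ (2 * (j : ℂ) - 1) hB)
      convert h9 using 1
      rw [smul_sub]
      have e9 : ((j : ℂ) - 1 + j) = 2 * (j : ℂ) - 1 := by ring
      rw [e9, Nat.cast_add, Nat.cast_one, mul_add, mul_one, add_smul]
      abel

end

end WPQ.SV
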