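import Pool.Agent.WPQ.SV1
import Pool.Agent.WPQ.SV3

/-! [WPQ-SV4] The leading coefficient of a singular vector.

Plan.  `lead_ne`: `κ = kap t r s`.  Suppose `d (ones n) = 0`, `d ≠ 0`.  Let `a` be the maximum of `n1 π` over `d π ≠ 0`
(`n1 π < n` since `π ≠ ones n`; a partition of `n` with `n` ones is `ones n`), `P = {π | d π ≠ 0, n1 π = a}`; every
`π ∈ P` has `big π ≠ []`.  Let `k` be the minimum of all letters of `big π`, `π ∈ P`; `k ≥ 2`.  Apply
`L(k-1)` to `0 ≠ y = ∑ d π • wR (pl π) 1`: `L(k-1) y = 0`.  `pl_big`, `wR_append`: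
for `π ∈ P`: `F_key` with `w = big π`: `L(k-1) wR (pl π) 1 ≡ (2k-1) (count k (big π)) wR ((big π).erase k)
(wR (replicate (a+1) 1) 1)` mod `F_a`; for `n1 π < a`, `d π ≠ 0`: `wR (pl π) 1 ∈ F_{n1 π}`, `F_pos`: in `F_{n1 π + 1} ≤ F_a`.
So `∑_{π ∈ P, k ∈ big π} (2k-1) (count k) d π • wR (pl π̂) 1 ∈ F_a (n-k+1)`, where `π̂` is the partition of
`n-k+1` with parts `π.parts.erase k + {1}`: `pl π̂ = (big π).erase k ++ replicate (a+1) 1` (sorted;
`List.eq_of_perm_of_sorted`), `n1 π̂ = a + 1`.  By `F_span` it is also `∑ d' ρ • wR (pl ρ) 1` with `n1 ρ ≤ a` for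
`d' ρ ≠ 0`.  `kap_indep` at level `n-k+1`: the coefficient at `π̂0` for some `π0 ∈ P` with `k ∈ big π0` is
`(2k-1) count d π0 ≠ 0` (`π ↦ π̂` is injective on partitions that contain `k`), contradiction. -/

namespace WPQ.SV

open MvPolynomial KV

noncomputable section

/-- Replace one part `k` of the partition `π` of `n` by a part `1`. -/
def sv4_hat {n : ℕ} (k : ℕ) (π : Nat.Partition n) (h : k ∈ π.parts) :
    Nat.Partition (n + 1 - k) where
  parts := 1 ::ₘ π.parts.erase k
  parts_pos := by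
    intro i hi
    rcases Multiset.mem_cons.1 hi with rfl | hi
    · exact one_pos
    · exact π.parts_pos (Multiset.mem_of_mem_erase hi)
  parts_sum := by
    rw [Multiset.sum_cons]
    have h1 := Multiset.cons_erase h
    have h2 : (k ::ₘ π.parts.erase k).sum = n := by
      rw [h1, π.parts_sum]
    rw [Multiset.sum_cons] at h2
    omega

theorem sv4_pl_sorted {m : ℕ} (π : Nat.Partition m) : (pl π).Pairwise (· ≥ ·) :=
  Multiset.pairwise_sort _ _

theorem sv4_big_sorted {m : ℕ} (π : Nat.Partition m) : (big π).Pairwise (· ≥ ·) :=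
  (sv4_pl_sorted π).filter _

theorem sv4_parts {m : ℕ} (π : Nat.Partition m) :
    π.parts = ((big π : List ℕ) : Multiset ℕ) + ((List.replicate (n1 π) 1 : List ℕ) : Multiset ℕ) := by
  rw [← pl_coe, pl_big, Multiset.coe_add]

theorem sv4_sum {m : ℕ} (π : Nat.Partition m) : (big π).sum + n1 π = m := by
  have h := pl_sum π
  rw [pl_big, List.sum_append, List.sum_replicate, smul_eq_mul, mul_one] at h
  exact h

theorem sv4_mem {m : ℕ} (π : Nat.Partition m) (k : ℕ) (h : k ∈ big π) : k ∈ π.parts := by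
  rw [sv4_parts]
  exact Multiset.mem_add.2 (Or.inl (Multiset.mem_coe.2 h))

theorem sv4_pl_hat {n : ℕ} (k : ℕ) (π : Nat.Partition n) (h : k ∈ big π)
    (h' : k ∈ π.parts) :
    pl (sv4_hat k π h') = (big π).erase k ++ List.replicate (n1 π + 1) 1 := by
  refine List.Perm.eq_of_pairwise (le := (· ≥ ·)) (fun a b _ _ hab hba => le_antisymm hba hab)
    (sv4_pl_sorted _) ?_ ?_
  · rw [List.pairwise_append]
    refine ⟨(sv4_big_sorted π).erase k, List.pairwise_replicate_of_refl, ?_⟩
    intro a ha b hb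
    rw [List.eq_of_mem_replicate hb]
    exact one_le_two.trans (big_ge π a (List.mem_of_mem_erase ha))
  · rw [← Multiset.coe_eq_coe, pl_coe]
    show 1 ::ₘ π.parts.erase k = _
    rw [← Multiset.coe_add, ← Multiset.coe_erase, List.replicate_succ, ← Multiset.cons_coe,
      Multiset.add_cons]
    congr 1
    have e : π.parts.erase k = (((big π : List ℕ) : Multiset ℕ) +
        ((List.replicate (n1 π) 1 : List ℕ) : Multiset ℕ)).erase k := by
      rw [← sv4_parts]
    rw [e, Multiset.erase_add_left_pos _ (Multiset.mem_coe.2 h)]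

theorem sv4_n1_hat {n : ℕ} (k : ℕ) (hk : 2 ≤ k) (π : Nat.Partition n) (h' : k ∈ π.parts) :
    n1 (sv4_hat k π h') = n1 π + 1 := by
  show (1 ::ₘ π.parts.erase k).count 1 = π.parts.count 1 + 1
  rw [Multiset.count_cons_self, Multiset.count_erase_of_ne (by omega)]

theorem sv4_hat_inj {n : ℕ} (k : ℕ) (π π' : Nat.Partition n) (h : k ∈ π.parts) (h' : k ∈ π'.parts)
    (he : sv4_hat k π h = sv4_hat k π' h') : π = π' := by
  have h1 : 1 ::ₘ π.parts.erase k = 1 ::ₘ π'.parts.erase k := congrArg Nat.Partition.parts he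
  have h2 := (Multiset.cons_inj_right 1).1 h1
  apply Nat.Partition.ext
  rw [← Multiset.cons_erase h, ← Multiset.cons_erase h', h2]

set_option maxHeartbeats 2000000 in
theorem lead_ne {t : ℂ} (ht : Irr t) {r s n : ℕ} (hr : 1 ≤ r) (hs : 1 ≤ s)
    (d : Nat.Partition n → ℂ) (hd : d ≠ 0)
    (hy : ∀ k : ℕ, 0 < k → Lk t (kap t r s) k (∑ π, d π • wR t (kap t r s) (pl π) 1) = 0) :
    d (ones n) ≠ 0 := by
  classical
  intro h0
  set κ := kap t r s with hκ
  have ht0 : t ≠ 0 := kv17_ne ht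
  have hS : (Finset.univ.filter fun π => d π ≠ 0).Nonempty := by
    by_contra hne
    rw [Finset.not_nonempty_iff_eq_empty, Finset.filter_eq_empty_iff] at hne
    apply hd
    funext π
    exact not_not.1 (hne (Finset.mem_univ π))
  obtain ⟨π1, hπ1, hmax⟩ := Finset.exists_max_image _ n1 hS
  rw [Finset.mem_filter] at hπ1
  set a := n1 π1 with ha
  have hle : ∀ π, d π ≠ 0 → n1 π ≤ a := fun π hπ =>
    hmax π (Finset.mem_filter.2 ⟨Finset.mem_univ π, hπ⟩)
  have hbig : ∀ π, d π ≠ 0 → ∃ j, j ∈ big π := by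
    intro π hπ
    by_contra hcon
    push Not at hcon
    have h1 : big π = [] := List.eq_nil_iff_forall_not_mem.2 hcon
    have h2 := sv4_sum π
    rw [h1, List.sum_nil, zero_add] at h2
    apply hπ
    have h3 : π = ones n := by
      apply Nat.Partition.ext
      rw [sv4_parts, h1, h2]
      show (([] : List ℕ) : Multiset ℕ) + _ = Multiset.replicate n 1
      rw [Multiset.coe_nil, zero_add, Multiset.coe_replicate]
    rw [h3]
    exact h0
  -- the smallest letter
  have hex : ∃ k, ∃ π, d π ≠ 0 ∧ n1 π = a ∧ k ∈ big π := by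
    obtain ⟨j, hj⟩ := hbig π1 hπ1.2
    exact ⟨j, π1, hπ1.2, rfl, hj⟩
  set k := Nat.find hex with hkdef
  obtain ⟨π0, hd0, hn0, hk0⟩ := Nat.find_spec hex
  rw [← hkdef] at hk0
  have hkmin : ∀ π, d π ≠ 0 → n1 π = a → ∀ j ∈ big π, k ≤ j := by
    intro π h1 h2 j hj
    by_contra hlt
    exact Nat.find_min hex (not_le.1 hlt) ⟨π, h1, h2, hj⟩
  have hk2 : 2 ≤ k := big_ge π0 k hk0
  have hk1 : ((k - 1 : ℕ) : ℤ) = (k : ℤ) - 1 := by omega
  have hkn : k ≤ n := by
    have h1 := List.le_sum_of_mem hk0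
    have h2 := sv4_sum π0
    omega
  set m := n + 1 - k with hm
  have hmZ : (m : ℤ) = (n : ℤ) - k + 1 := by omega
  -- each term
  set v : Nat.Partition n → Ph ℂ := fun π => wR t κ (pl π) 1 with hv
  set T : Nat.Partition n → Ph ℂ := fun π =>
    if n1 π = a then ((2 * (k : ℂ) - 1) * (big π).count k) •
      wR t κ ((big π).erase k) (wR t κ (List.replicate (a + 1) 1) 1) else 0 with hT
  have hterm : ∀ π, d π • Lk t κ ((k : ℤ) - 1) (v π) - d π • T π ∈ Fa t κ a m := by
    intro π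
    by_cases hπ : d π = 0
    · rw [hπ, zero_smul, zero_smul, sub_zero]
      exact Submodule.zero_mem _
    rw [← smul_sub]
    refine Submodule.smul_mem _ _ ?_
    have e1 : v π = wR t κ (big π) (wR t κ (List.replicate (n1 π) 1) 1) := by
      show wR t κ (pl π) 1 = _
      rw [pl_big, wR_append]
    have hsum := sv4_sum π
    by_cases hn : n1 π = a
    · have h1 := F_key t κ ht0 a k hk2 (big π) (sv4_big_sorted π) (hkmin π hπ hn)
      have e2 : ((big π).sum : ℤ) + a - k + 1 = (m : ℤ) := by omega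
      rw [e2] at h1
      show Lk t κ ((k : ℤ) - 1) (v π) - (if n1 π = a then _ else 0) ∈ _
      rw [if_pos hn, e1, hn]
      exact h1
    · have hlt : n1 π < a := lt_of_le_of_ne (hle π hπ) hn
      have h2 : v π ∈ Fa t κ (n1 π) (n : ℤ) := by
        rw [e1]
        refine Submodule.subset_span ⟨big π, n1 π, big_ge π, le_rfl, ?_, rfl⟩
        exact_mod_cast hsum
      have h3 := F_pos t κ ht0 (n1 π) (k - 1) (by omega) _ _ h2
      rw [hk1] at h3
      have e2 : (n : ℤ) - ((k : ℤ) - 1) = (m : ℤ) := by omega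
      rw [e2] at h3
      show Lk t κ ((k : ℤ) - 1) (v π) - (if n1 π = a then _ else 0) ∈ _
      rw [if_neg hn, sub_zero]
      exact F_mono t κ (by omega : n1 π + 1 ≤ a) _ h3
  have hzero : ∑ π, d π • Lk t κ ((k : ℤ) - 1) (v π) = 0 := by
    have h1 := hy (k - 1) (by omega)
    rw [hk1, map_sum] at h1
    rw [← h1]
    exact Finset.sum_congr rfl fun π _ => (map_smul _ _ _).symm
  have hF : ∑ π, d π • T π ∈ Fa t κ a m := by
    have h1 : ∑ π, (d π • Lk t κ ((k : ℤ) - 1) (v π) - d π • T π) ∈ Fa t κ a m :=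
      Submodule.sum_mem _ fun π _ => hterm π
    rw [Finset.sum_sub_distrib, hzero, zero_sub] at h1
    exact (Submodule.neg_mem_iff _).1 h1
  obtain ⟨d', hd', hsum'⟩ := F_span t κ a m _ hF
  -- rewrite the left hand side
  set P : Finset (Nat.Partition n) := Finset.univ.filter fun π => n1 π = a ∧ k ∈ big π with hP
  have hPne : ∀ π, ¬ (n1 π = a ∧ k ∈ big π) → T π = 0 := by
    intro π hπ
    show (if n1 π = a then _ else 0) = (0 : Ph ℂ)
    by_cases hn : n1 π = a
    · have h1 : k ∉ big π := fun h => hπ ⟨hn, h⟩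
      rw [if_pos hn, List.count_eq_zero_of_not_mem h1, Nat.cast_zero, mul_zero, zero_smul]
    · rw [if_neg hn]
  let hat : Nat.Partition n → Nat.Partition m := fun π =>
    if h : k ∈ π.parts then sv4_hat k π h else sv4_hat k π0 (sv4_mem π0 k hk0)
  let g : Nat.Partition n → ℂ := fun π => d π * ((2 * (k : ℂ) - 1) * (big π).count k)
  have hPT : ∀ π ∈ P, d π • T π = g π • wR t κ (pl (hat π)) 1 := by
    intro π hπ
    obtain ⟨-, hn, hk⟩ := Finset.mem_filter.1 hπ
    have h1 : hat π = sv4_hat k π (sv4_mem π k hk) := dif_pos (sv4_mem π k hk)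
    rw [h1, sv4_pl_hat k π hk, wR_append, hn]
    show d π • (if n1 π = a then _ else 0) = _
    rw [if_pos hn, smul_smul]
  have hL : ∑ π, d π • T π = ∑ ρ, (∑ π ∈ P with hat π = ρ, g π) • wR t κ (pl ρ) 1 := by
    have h1 : ∑ π, d π • T π = ∑ π ∈ P, g π • wR t κ (pl (hat π)) 1 := by
      rw [← Finset.sum_subset (Finset.subset_univ P)]
      · exact Finset.sum_congr rfl hPT
      · intro π _ hπ
        have h2 : ¬ (n1 π = a ∧ k ∈ big π) := fun h =>
          hπ (Finset.mem_filter.2 ⟨Finset.mem_univ π, h⟩)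
        rw [hPne π h2, smul_zero]
    rw [h1, ← Finset.sum_fiberwise P hat]
    refine Finset.sum_congr rfl fun ρ _ => ?_
    rw [Finset.sum_smul]
    refine Finset.sum_congr rfl fun π hπ => ?_
    rw [(Finset.mem_filter.1 hπ).2]
  have hind : (fun ρ => (∑ π ∈ P with hat π = ρ, g π) - d' ρ) = 0 := by
    refine kap_indep ht hr hs m _ ?_
    rw [← hκ]
    have h1 := hL.symm.trans hsum'
    rw [← sub_eq_zero, ← Finset.sum_sub_distrib] at h1
    rw [← h1]
    exact Finset.sum_congr rfl fun ρ _ => sub_smul _ _ _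
  have h1 := congrFun hind (hat π0)
  have hh0 : hat π0 = sv4_hat k π0 (sv4_mem π0 k hk0) := dif_pos (sv4_mem π0 k hk0)
  have hd'0 : d' (hat π0) = 0 := by
    by_contra hne
    have h2 := hd' _ hne
    rw [hh0, sv4_n1_hat k hk2, hn0] at h2
    omega
  have hπ0P : π0 ∈ P := Finset.mem_filter.2 ⟨Finset.mem_univ _, hn0, hk0⟩
  have hfib : ∀ π, π ∈ P.filter (fun π => hat π = hat π0) ↔ π ∈ P ∧ hat π = hat π0 :=
    fun π => Finset.mem_filter
  have hsingle : ∑ π ∈ P with hat π = hat π0, g π = g π0 := by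
    refine Finset.sum_eq_single π0 ?_ ?_
    · intro π hπ hne
      obtain ⟨hπP, hπh⟩ := (hfib π).1 hπ
      obtain ⟨-, hn, hk⟩ := Finset.mem_filter.1 hπP
      have h2 : hat π = sv4_hat k π (sv4_mem π k hk) := dif_pos (sv4_mem π k hk)
      rw [h2, hh0] at hπh
      exact absurd (sv4_hat_inj k _ _ _ _ hπh) hne
    · intro h
      exact absurd ((hfib π0).2 (And.intro hπ0P (Eq.refl _))) h
  have h2 : (∑ π ∈ P with hat π = hat π0, g π) - d' (hat π0) = 0 := h1
  rw [hsingle, hd'0, sub_zero] at h2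
  have hcount : 0 < (big π0).count k := List.count_pos_iff.2 hk0
  rcases mul_eq_zero.1 h2 with h3 | h3
  · exact hd0 h3
  · rcases mul_eq_zero.1 h3 with h4 | h4
    · have h5 : (2 : ℂ) * k = 1 := by linear_combination h4
      have h6 : 2 * k = 1 := by exact_mod_cast h5
      omega
    · have h5 : (big π0).count k = 0 := by exact_mod_cast h4
      omega

end

end WPQ.SV
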