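import Pool.Agent.WPQ.SV4

/-! [WPQ-SV5] Existence, uniqueness, symmetry of the normalized singular vector.

Plan.  `sv5_lead`: `c ≠ 0` with `∑ c π • wR t (krs t r s) (pl π) 1 = 0`, `n = r s`: `S_sing` with `L = Lk t (kap t r s)`,
`x = 1` (`kap_one`, `kap_hk`, `isVir_Lk`), `SS (Lk ..) c 1 = ∑ c π • wR t (kap t r s) (pl π) 1` (`wd_eq`, `pl_pos`), so `lead_ne`.
`sv5_exists`: `det_krs` (KV13), `Matrix.exists_vecMul_eq_zero_iff`, `rel_iff`; divide by `c (ones n)`.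
`sv5_prim`: `S_sing`.  `sv5_inv`: `Irr t⁻¹`; `c'` the normalized family for `(t⁻¹, s, r)` (`sv5_exists`; level
`s * r = n`).  In `M = Ph ℂ` with `L = Lk t (kap t r s)`: `cc t = cc t⁻¹`, `hrs t r s = hrs t⁻¹ s r = hk t (kap t r s)`; by `S_sing` for
`(t, r, s, c)` and for `(t⁻¹, s, r, c')` both `SS L c 1` and `SS L c' 1` are killed by `L k`, `k > 0`, so
`d = c - c'` satisfies the hypothesis of `lead_ne`, but `d (ones n) = 0`: `d = 0`. -/

namespace WPQ.SV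

open MvPolynomial KV

noncomputable section

theorem sv5_t0 {t : ℂ} (ht : Irr t) : t ≠ 0 := by
  intro h
  have := (ht 0 1 (by rw [h]; simp)).2
  exact one_ne_zero this

theorem sv5_SS (t κ : ℂ) {n : ℕ} (c : Nat.Partition n → ℂ) :
    SS (Lk t κ) c 1 = ∑ π, c π • wR t κ (pl π) 1 := by
  unfold SS
  exact Finset.sum_congr rfl fun π _ => by rw [wd_eq t κ (pl π) (pl_pos π) 1]

theorem sv5_prim {t : ℂ} (ht : Irr t) {r s n : ℕ} (hr : 1 ≤ r) (hs : 1 ≤ s)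
    {c : Nat.Partition n → ℂ} (hc : IsS t r s n c) {N : Type} [AddCommGroup N] [Module ℂ N]
    (L : ℤ → N →ₗ[ℂ] N) (hL : IsVir (cc t) L) (x : N) (hx : IsPrim L (hrs t r s) x) :
    IsPrim L (hrs t r s + n) (SS L c x) :=
  S_sing ht hr hs hc.level c hc.rel L hL x hx

theorem sv5_prim1 {t : ℂ} (ht : Irr t) (r s : ℕ) : IsPrim (Lk t (kap t r s)) (hrs t r s) 1 := by
  have h := kap_one t (kap t r s)
  rwa [kap_hk ht r s] at h

theorem sv5_lead {t : ℂ} (ht : Irr t) {r s n : ℕ} (hr : 1 ≤ r) (hs : 1 ≤ s) (hn : n = r * s)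
    (c : Nat.Partition n → ℂ) (hc0 : c ≠ 0) (hc : ∑ π, c π • wR t (krs t r s) (pl π) 1 = 0) :
    c (ones n) ≠ 0 := by
  refine lead_ne ht hr hs c hc0 fun k hk => ?_
  have h := S_sing ht hr hs hn c hc (Lk t (kap t r s)) (isVir_Lk t _ (sv5_t0 ht)) 1
    (sv5_prim1 ht r s)
  rw [sv5_SS] at h
  exact h.2 k hk

theorem sv5_exists {t : ℂ} (ht : Irr t) {r s : ℕ} (hr : 1 ≤ r) (hs : 1 ≤ s) :
    ∃ c : Nat.Partition (r * s) → ℂ, IsS t r s (r * s) c := by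
  classical
  obtain ⟨c, hc0, hc⟩ := Matrix.exists_vecMul_eq_zero_iff.2 (det_krs t r s hr hs)
  have hc1 := (rel_iff t (krs t r s) (r * s) c).2 hc
  have hl := sv5_lead ht hr hs rfl c hc0 hc1
  refine ⟨fun π => (c (ones (r * s)))⁻¹ * c π, rfl, inv_mul_cancel₀ hl, ?_⟩
  have : ∑ π, ((c (ones (r * s)))⁻¹ * c π) • wR t (krs t r s) (pl π) 1 =
      (c (ones (r * s)))⁻¹ • ∑ π, c π • wR t (krs t r s) (pl π) 1 := by
    rw [Finset.smul_sum]
    exact Finset.sum_congr rfl fun π _ => by rw [mul_smul]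
  rw [this, hc1, smul_zero]

theorem sv5_irr_inv {t : ℂ} (ht : Irr t) : Irr t⁻¹ := by
  intro a b h
  have h0 := sv5_t0 ht
  have h1 : (b : ℂ) = t * a := by
    rw [h, ← mul_assoc, mul_inv_cancel₀ h0, one_mul]
  exact (ht b a h1).symm

theorem sv5_cc {t : ℂ} (h0 : t ≠ 0) : cc t⁻¹ = cc t := by
  unfold cc
  field_simp
  ring

theorem sv5_hrs {t : ℂ} (h0 : t ≠ 0) (r s : ℕ) : hrs t⁻¹ s r = hrs t r s := by
  unfold hrs
  field_simp
  ring

theorem sv5_inv {t : ℂ} (ht : Irr t) {r s n : ℕ} (hr : 1 ≤ r) (hs : 1 ≤ s)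
    {c : Nat.Partition n → ℂ} (hc : IsS t r s n c) : IsS t⁻¹ s r n c := by
  have h0 := sv5_t0 ht
  have hi := sv5_irr_inv ht
  have hn : n = s * r := by rw [hc.level, Nat.mul_comm]
  obtain ⟨c', hc'⟩ : ∃ c' : Nat.Partition n → ℂ, IsS t⁻¹ s r n c' := by
    rw [hn]
    exact sv5_exists hi hs hr
  obtain ⟨L, hLd⟩ : ∃ L, L = Lk t (kap t r s) := ⟨_, rfl⟩
  have hL : IsVir (cc t) L := by rw [hLd]; exact isVir_Lk t _ h0
  have hx : IsPrim L (hrs t r s) 1 := by rw [hLd]; exact sv5_prim1 ht r s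
  have h1 := sv5_prim ht hr hs hc L hL 1 hx
  have h2 := sv5_prim hi hs hr hc' L (by rw [sv5_cc h0]; exact hL) 1
    (by rw [sv5_hrs h0]; exact hx)
  have hd : c - c' = 0 := by
    by_contra hne
    refine lead_ne ht hr hs (c - c') hne (fun k hk => ?_) ?_
    · have e : (∑ π, (c - c') π • wR t (kap t r s) (pl π) 1 : Ph ℂ) = SS L c 1 - SS L c' 1 := by
        rw [hLd, sv5_SS, sv5_SS, ← Finset.sum_sub_distrib]
        exact Finset.sum_congr rfl fun π _ => by rw [Pi.sub_apply, sub_smul]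
      rw [e, ← hLd, map_sub, h1.2 k hk, h2.2 k hk, sub_zero]
    · rw [Pi.sub_apply, hc.lead, hc'.lead, sub_self]
  rw [sub_eq_zero.1 hd]
  exact hc'

end

end WPQ.SV
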