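import Pool.Agent.WPQ.SV5

/-! [WPQ-SV6] The kernel at higher levels.

Plan.  `kap_univ` (the Verma property): `N × Ph ℂ` with `kv19P t (kap t r s) L`, `(x,1)` primary of weight
`hrs t r s` (`kap_hk`).  `wd .. (pl ν) (SS .. c (x,1))` is a combination of words (`wd` of `pl ν ++ pl π`,
`kv19_wd`), so by `straight_wd` it is `∑ b π • wd .. (pl π) (x,1)`; second component, `kap_indep`: `b = a`; first component.
`ker_basis`: put `κ0 = krs t r s`, `Ker = {f | ∑ f π • wR t κ0 (pl π) 1 = 0}` (level `K`).  As in the proof of `mult_krs`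
(KV8, copy it): generic vectors `wR (C t) X (pl ν) u`, `u = ∑ c π • wR (C t) X (pl π) 1` give `a ν : Partition K → ℂ`,
`ν ⊢ K - n`, linearly independent (`indep_u`), in `Ker`, with
`∑ a ν π • wR (C t) X (pl π) 1 = wR (C t) X (pl ν) u`; mapping by `eval (kap t r s)` this gives
`∑ a ν π • wR t (kap t r s) (pl π) 1 = wR t (kap t r s) (pl ν) (∑ c π • wR t (kap t r s) (pl π) 1)`, so `kap_univ` applies.
Dimension: for a linearly independent family in `Ker` indexed by a fintype `J`, `mult_det` (KV5) gives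
`(X - C κ0)^(card J) ∣ det`, and `det_eq` (KV14) with `krs_inj`: the multiplicity of `κ0` in `det` is exactly
`card (Partition (K - n))` (only the factor `x = (r,s)`), so `card J ≤ card (Partition (K-n))`.  Hence `a ν`
is a basis of `Ker` (`finrank`), and `B` exists: take the coordinate functionals of the basis on `Ker` and extend them
to all of `Partition K → ℂ` (`Submodule.exists_isCompl` / `LinearMap.exists_extend`), written as matrices. -/

namespace WPQ.SV

open MvPolynomial KV

noncomputable section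

theorem sv6_wd_lin {N : Type} [AddCommGroup N] [Module ℂ N] (L : ℤ → N →ₗ[ℂ] N) (w : List ℕ) :
    ∃ T : N →ₗ[ℂ] N, ∀ y, wd L w y = T y := by
  induction w with
  | nil => exact ⟨LinearMap.id, fun _ => rfl⟩
  | cons a w ih =>
    obtain ⟨T, hT⟩ := ih
    refine ⟨L (-(a : ℤ)) ∘ₗ T, fun y => ?_⟩
    have h1 : wd L (a :: w) y = L (-(a : ℤ)) (wd L w y) := rfl
    rw [h1, hT]
    rfl

theorem sv6_wd_append {N : Type} [AddCommGroup N] [Module ℂ N] (L : ℤ → N →ₗ[ℂ] N)
    (w w' : List ℕ) (x : N) : wd L (w ++ w') x = wd L w (wd L w' x) := by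
  induction w with
  | nil => rfl
  | cons a w ih =>
    have h1 : wd L ((a :: w) ++ w') x = L (-(a : ℤ)) (wd L (w ++ w') x) := rfl
    rw [h1, ih]
    rfl

theorem sv6_smul (z : ℂ) (F : Ph (Polynomial ℂ)) :
    (Polynomial.C z : Polynomial ℂ) • F = z • F := by
  rw [← Polynomial.algebraMap_eq, algebraMap_smul]

/-- `L(-a)` as a complex linear map -/
def sv6_T (t : ℂ) (a : ℕ) : Ph (Polynomial ℂ) →ₗ[ℂ] Ph (Polynomial ℂ) :=
  (Ln (Polynomial.C t) Polynomial.X a).restrictScalars ℂ

/-- words as complex linear maps -/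
def sv6_W (t : ℂ) (w : List ℕ) : Ph (Polynomial ℂ) →ₗ[ℂ] Ph (Polynomial ℂ) :=
  w.foldr (fun a y => sv6_T t a ∘ₗ y) LinearMap.id

theorem sv6_W_eq (t : ℂ) (w : List ℕ) (f : Ph (Polynomial ℂ)) :
    wR (Polynomial.C t) Polynomial.X w f = sv6_W t w f := by
  induction w with
  | nil => rfl
  | cons a w ih =>
    show Ln (Polynomial.C t) Polynomial.X a (wR (Polynomial.C t) Polynomial.X w f) =
      sv6_T t a (sv6_W t w f)
    rw [ih]
    rfl

theorem sv6_map_smul (z κ0 : ℂ) (F : Ph (Polynomial ℂ)) :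
    MvPolynomial.map (Polynomial.evalRingHom κ0) (z • F) =
      z • MvPolynomial.map (Polynomial.evalRingHom κ0) F := by
  rw [← sv6_smul, MvPolynomial.smul_eq_C_mul, MvPolynomial.smul_eq_C_mul, map_mul, map_C]
  simp

theorem sv6_map_wR (t κ0 : ℂ) (w : List ℕ) (f : Ph (Polynomial ℂ)) :
    MvPolynomial.map (Polynomial.evalRingHom κ0) (wR (Polynomial.C t) Polynomial.X w f) =
      wR t κ0 w (MvPolynomial.map (Polynomial.evalRingHom κ0) f) := by
  rw [wR_map]
  simp

theorem sv6_wR_zero (t κ : ℂ) (w : List ℕ) : wR t κ w (0 : Ph ℂ) = 0 := by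
  induction w with
  | nil => rfl
  | cons a w ih =>
    show Ln t κ a (wR t κ w 0) = 0
    rw [ih, map_zero]

theorem kap_univ {t : ℂ} (ht : Irr t) {r s n : ℕ} (hr : 1 ≤ r) (hs : 1 ≤ s)
    (c : Nat.Partition n → ℂ) (K : ℕ) (hK : n ≤ K) (ν : Nat.Partition (K - n))
    (a : Nat.Partition K → ℂ)
    (ha : ∑ π, a π • wR t (kap t r s) (pl π) 1 =
      wR t (kap t r s) (pl ν) (∑ π, c π • wR t (kap t r s) (pl π) 1)) {N : Type}
    [AddCommGroup N] [Module ℂ N] (L : ℤ → N →ₗ[ℂ] N) (hL : IsVir (cc t) L) (x : N)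
    (hx : IsPrim L (hrs t r s) x) :
    ∑ π, a π • wd L (pl π) x = wd L (pl ν) (SS L c x) := by
  have ht0 : t ≠ 0 := kv17_ne ht
  have hP := kv19_isVir (L := L) ht0 (kap t r s) hL
  obtain ⟨T, hT⟩ := sv6_wd_lin (kv19P t (kap t r s) L) (pl ν)
  -- the vector in the product
  have hmem : wd (kv19P t (kap t r s) L) (pl ν)
      (∑ π, c π • wd (kv19P t (kap t r s) L) (pl π) (x, 1)) ∈ Submodule.span ℂ
        (Set.range fun π : Nat.Partition K => wd (kv19P t (kap t r s) L) (pl π) (x, 1)) := by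
    rw [hT, map_sum]
    refine Submodule.sum_mem _ fun π _ => ?_
    rw [map_smul, ← hT, ← sv6_wd_append]
    refine Submodule.smul_mem _ _ (straight_wd hP (x, 1) K _ ?_ ?_)
    · intro a ha
      rcases List.mem_append.1 ha with h1 | h1
      · exact pl_pos ν a h1
      · exact pl_pos π a h1
    · rw [List.sum_append, pl_sum, pl_sum]
      omega
  obtain ⟨b, hb⟩ := (Submodule.mem_span_range_iff_exists_fun ℂ).1 hmem
  have hsum : ∀ {m : ℕ} (d : Nat.Partition m → ℂ),
      ∑ π, d π • wd (kv19P t (kap t r s) L) (pl π) (x, 1) =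
        (∑ π, d π • wd L (pl π) x, ∑ π, d π • wR t (kap t r s) (pl π) 1) := by
    intro m d
    refine Prod.ext ?_ ?_
    · have h1 : (∑ π, d π • wd (kv19P t (kap t r s) L) (pl π) (x, (1 : Ph ℂ))).1 =
          LinearMap.fst ℂ N (Ph ℂ) (∑ π, d π • wd (kv19P t (kap t r s) L) (pl π) (x, 1)) := rfl
      rw [h1, map_sum]
      refine Finset.sum_congr rfl fun π _ => ?_
      rw [map_smul, kv19_wd]
      rfl
    · have h1 : (∑ π, d π • wd (kv19P t (kap t r s) L) (pl π) (x, (1 : Ph ℂ))).2 =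
          LinearMap.snd ℂ N (Ph ℂ) (∑ π, d π • wd (kv19P t (kap t r s) L) (pl π) (x, 1)) := rfl
      rw [h1, map_sum]
      refine Finset.sum_congr rfl fun π _ => ?_
      rw [map_smul, kv19_wd, ← wd_eq t (kap t r s) (pl π) (pl_pos π)]
      rfl
  rw [hsum b, hsum c, kv19_wd, wd_eq t (kap t r s) (pl ν) (pl_pos ν), ← ha] at hb
  have h2 : ∑ π, b π • wR t (kap t r s) (pl π) 1 = ∑ π, a π • wR t (kap t r s) (pl π) 1 :=
    congrArg Prod.snd hb
  have h3 : b - a = 0 := by
    refine kap_indep ht hr hs K (b - a) ?_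
    rw [← sub_eq_zero, ← Finset.sum_sub_distrib] at h2
    rw [← h2]
    exact Finset.sum_congr rfl fun π _ => sub_smul _ _ _
  have h4 : b = a := sub_eq_zero.1 h3
  rw [h4] at hb
  exact congrArg Prod.fst hb

theorem sv6_mult {t : ℂ} (ht : Irr t) {r s : ℕ} (hr : 1 ≤ r) (hs : 1 ≤ s) (K : ℕ)
    (hK : r * s ≤ K) {J : Type} [Fintype J] (f : J → Nat.Partition K → ℂ)
    (hf : LinearIndependent ℂ f)
    (h : ∀ j, ∑ π, f j π • wR t (krs t r s) (pl π) 1 = 0) :
    Fintype.card J ≤ Fintype.card (Nat.Partition (K - r * s)) := by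
  have h1 : (MM (Polynomial.C t) Polynomial.X K).map (Polynomial.eval (krs t r s)) =
      MM t (krs t r s) K := by
    have h2 := MM_map (Polynomial.evalRingHom (krs t r s)) (Polynomial.C t)
      (Polynomial.X : Polynomial ℂ) K
    simpa using h2
  have h2 := mult_det (MM (Polynomial.C t) Polynomial.X K) (krs t r s) f hf fun j => by
    rw [h1, ← rel_iff]
    exact h j
  obtain ⟨a, ha, hdet⟩ := det_eq ht K
  have hx0 : (r, s) ∈ RS K := mem_RS.2 ⟨hr, hs, hK⟩
  rw [hdet, ← Finset.mul_prod_erase _ _ hx0, ← mul_assoc, mul_comm (Polynomial.C a), mul_assoc]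
    at h2
  have hco : IsCoprime ((Polynomial.X - Polynomial.C (krs t r s)) ^ Fintype.card J)
      (Polynomial.C a * ∏ x ∈ (RS K).erase (r, s),
        (Polynomial.X - Polynomial.C (krs t x.1 x.2)) ^
          Fintype.card (Nat.Partition (K - x.1 * x.2))) := by
    refine IsCoprime.mul_right ?_ ?_
    · exact ⟨0, Polynomial.C a⁻¹, by
        rw [zero_mul, zero_add, ← Polynomial.C_mul, inv_mul_cancel₀ ha, Polynomial.C_1]⟩
    · refine IsCoprime.prod_right fun x hx => IsCoprime.pow
        (Polynomial.isCoprime_X_sub_C_of_isUnit_sub (IsUnit.mk0 _ (sub_ne_zero.2 fun h3 => ?_)))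
      obtain ⟨h4, h5⟩ := krs_inj ht h3
      exact (Finset.mem_erase.1 hx).1 (Prod.ext h4.symm h5.symm)
  have h3 := hco.dvd_of_dvd_mul_right h2
  have h4 : ¬ IsUnit (Polynomial.X - Polynomial.C (krs t r s)) :=
    Polynomial.not_isUnit_X_sub_C _
  exact (pow_dvd_pow_iff (Polynomial.X_sub_C_ne_zero _) h4).1 h3

theorem ker_basis {t : ℂ} (ht : Irr t) {r s n : ℕ} (hr : 1 ≤ r) (hs : 1 ≤ s)
    {c : Nat.Partition n → ℂ} (hc : IsS t r s n c) (K : ℕ) (hK : n ≤ K) :
    ∃ (a B : Nat.Partition (K - n) → Nat.Partition K → ℂ),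
      (∀ f : Nat.Partition K → ℂ, ∑ π, f π • wR t (krs t r s) (pl π) 1 = 0 →
        ∀ π, f π = ∑ ν, a ν π * ∑ π', B ν π' * f π') ∧
      ∀ (N : Type) [AddCommGroup N] [Module ℂ N] (L : ℤ → N →ₗ[ℂ] N), IsVir (cc t) L →
        ∀ x : N, IsPrim L (hrs t r s) x → ∀ ν,
          ∑ π, a ν π • wd L (pl π) x = wd L (pl ν) (SS L c x) := by
  classical
  have hc0 : c ≠ 0 := by
    intro h0
    have h1 := hc.lead
    rw [h0] at h1
    exact zero_ne_one h1
  have hn : n = r * s := hc.level
  set u : Ph (Polynomial ℂ) := ∑ π, c π • wR (Polynomial.C t) Polynomial.X (pl π) 1 with hu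
  have humap : ∀ κ0 : ℂ, MvPolynomial.map (Polynomial.evalRingHom κ0) u =
      ∑ π, c π • wR t κ0 (pl π) 1 := by
    intro κ0
    rw [hu, map_sum]
    refine Finset.sum_congr rfl fun π _ => ?_
    rw [sv6_map_smul, sv6_map_wR, map_one]
  -- the descendants of u
  have hmem : ∀ ν : Nat.Partition (K - n), wR (Polynomial.C t) Polynomial.X (pl ν) u ∈
      Submodule.span ℂ (Set.range fun π : Nat.Partition K =>
        wR (Polynomial.C t) Polynomial.X (pl π) 1) := by
    intro ν
    rw [sv6_W_eq, hu, map_sum]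
    refine Submodule.sum_mem _ fun π _ => ?_
    rw [map_smul, ← sv6_W_eq, ← wR_append]
    refine Submodule.smul_mem _ _ (straight_wR t 1 K _ ?_ ?_)
    · intro a ha
      rcases List.mem_append.1 ha with h1 | h1
      · exact pl_pos ν a h1
      · exact pl_pos π a h1
    · rw [List.sum_append, pl_sum, pl_sum]
      omega
  have hex : ∀ ν : Nat.Partition (K - n), ∃ a : Nat.Partition K → ℂ,
      ∑ π, a π • wR (Polynomial.C t) Polynomial.X (pl π) 1 =
        wR (Polynomial.C t) Polynomial.X (pl ν) u := fun ν =>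
    (Submodule.mem_span_range_iff_exists_fun ℂ).1 (hmem ν)
  choose a ha using hex
  have hev : ∀ (κ0 : ℂ) ν, ∑ π, a ν π • wR t κ0 (pl π) 1 =
      wR t κ0 (pl ν) (∑ π, c π • wR t κ0 (pl π) 1) := by
    intro κ0 ν
    have h3 := congrArg (MvPolynomial.map (Polynomial.evalRingHom κ0)) (ha ν)
    rw [map_sum, sv6_map_wR, humap] at h3
    rw [← h3]
    refine Finset.sum_congr rfl fun π _ => ?_
    rw [sv6_map_smul, sv6_map_wR, map_one]
  have hli : LinearIndependent ℂ a := by
    rw [Fintype.linearIndependent_iff]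
    intro g hg
    have h1 : ∑ ν, g ν • wR (Polynomial.C t) Polynomial.X (pl ν) u = 0 := by
      have h2 : ∀ ν, g ν • wR (Polynomial.C t) Polynomial.X (pl ν) u =
          ∑ π, (g ν * a ν π) • wR (Polynomial.C t) Polynomial.X (pl π) 1 := by
        intro ν
        rw [← ha ν, Finset.smul_sum]
        exact Finset.sum_congr rfl fun π _ => smul_smul _ _ _
      rw [Finset.sum_congr rfl fun ν _ => h2 ν, Finset.sum_comm]
      refine Finset.sum_eq_zero fun π _ => ?_
      rw [← Finset.sum_smul]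
      have h3 : ∑ ν, g ν * a ν π = 0 := by
        have h4 := congrFun hg π
        simpa using h4
      rw [h3, zero_smul]
    have h5 := indep_u t n (K - n) c hc0 g h1
    exact fun ν => congrFun h5 ν
  have hker : ∀ ν, ∑ π, a ν π • wR t (krs t r s) (pl π) 1 = 0 := by
    intro ν
    rw [hev, hc.rel, sv6_wR_zero]
  -- the kernel is spanned by the `a ν`
  have hspan : ∀ f : Nat.Partition K → ℂ, ∑ π, f π • wR t (krs t r s) (pl π) 1 = 0 →
      f ∈ Submodule.span ℂ (Set.range a) := by
    intro f hf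
    by_contra hnot
    have h1 := LinearIndependent.option hli hnot
    have h2 := sv6_mult ht hr hs K (by omega) _ h1 (by
      intro o
      cases o with
      | none => exact hf
      | some ν => exact hker ν)
    rw [Fintype.card_option, ← hn] at h2
    omega
  obtain ⟨S, hS⟩ := LinearMap.exists_leftInverse_of_injective
    (Fintype.linearCombination ℂ a) (by
      rw [LinearMap.ker_eq_bot]
      exact hli.fintypeLinearCombination_injective)
  refine ⟨a, fun ν π' => S (Pi.single π' 1) ν, fun f hf π => ?_, fun N _ _ L hL x hx ν => ?_⟩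
  · obtain ⟨g, hg⟩ := (Submodule.mem_span_range_iff_exists_fun ℂ).1 (hspan f hf)
    have h1 : S f = g := by
      have h2 : f = Fintype.linearCombination ℂ a g := by
        rw [Fintype.linearCombination_apply, hg]
      rw [h2]
      exact LinearMap.congr_fun hS g
    have h3 : ∀ ν, ∑ π', S (Pi.single π' 1) ν * f π' = g ν := by
      intro ν
      have h4 := congrFun (LinearMap.pi_apply_eq_sum_univ S f) ν
      rw [h1, Finset.sum_apply] at h4
      rw [h4]
      refine Finset.sum_congr rfl fun π' _ => ?_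
      have e : (Pi.single π' 1 : Nat.Partition K → ℂ) = fun j => if π' = j then 1 else 0 := by
        funext j
        by_cases hj : π' = j
        · subst hj
          rw [Pi.single_eq_same, if_pos rfl]
        · rw [Pi.single_eq_of_ne (fun h0 => hj h0.symm), if_neg hj]
      rw [Pi.smul_apply, smul_eq_mul, mul_comm, e]
    rw [← hg, Finset.sum_apply]
    refine Finset.sum_congr rfl fun ν _ => ?_
    have h5 : ∑ π', S (Pi.single π' 1) ν * (∑ ν', g ν' • a ν') π' = g ν := by
      rw [hg]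
      exact h3 ν
    rw [h5, Pi.smul_apply, smul_eq_mul, mul_comm]
  · exact kap_univ ht hr hs c K hK ν (a ν) (hev _ ν) L hL x hx

end

end WPQ.SV
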