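import Pool.Agent.WPQ.SV6

/-! [WPQ-SV7] Relations modulo a submodule.

Plan.  `Q` is stable under all `L k`; on `N ⧸ Q` put `Lq L Q hQ k = Q.mapQ Q (L k) _` (`Submodule.mapQ`);
`IsVir` passes to the quotient; `mkQ (wd L w x) = wd Lq w (mkQ x)`, the same for `wu`, `SS` (induction on the word).
`rel_zero_mod`: `rel_zero` (KV20) in `N ⧸ Q`.
`ker_mod`: `x̄ π = mkQ (x π)` are primary of weight `hrs t r s = hk t κ0`, `κ0 = krs t r s`.  By `univ` (KV19) with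
`κ = κ0`: `0 = ∑_π (constantCoeff (wu (Lk t κ0) w (wR t κ0 (pl π) 1))) • x̄ π` for all `w` with `w.sum = K`.  For every
functional `ψ` on `N ⧸ Q`, `f π = ψ (x̄ π)`: `constantCoeff (wu (Lk t κ0) w (∑ f π • wR t κ0 (pl π) 1)) = 0`
(`kv20_gram_sum`), so `∑ f π • wR t κ0 (pl π) 1 = 0` by `kv17_zero` (its hypothesis `2(t-1) - κ0 ≠ krs` is `kap_ne`).
`ker_basis` then gives `f π = ∑ ν, a ν π * ∑ π', B ν π' * f π'` for all `ψ`, so
`x̄ π = ∑ ν, a ν π • z̄ ν`, `z ν = ∑ π', B ν π' • x π'` (`Module.forall_dual_apply_eq_zero_iff`), and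
`∑_π wd (pl π) (x̄ π) = ∑_ν ∑_π a ν π • wd (pl π) (z̄ ν) = ∑_ν wd (pl ν) (SS c (z̄ ν))`. -/

namespace WPQ.SV

open MvPolynomial KV

noncomputable section

variable {N : Type} [AddCommGroup N] [Module ℂ N]

/-- The operators on the quotient. -/
def sv7_L (L : ℤ → N →ₗ[ℂ] N) (Q : Submodule ℂ N) (hQ : ∀ k : ℤ, ∀ v ∈ Q, L k v ∈ Q) (k : ℤ) :
    (N ⧸ Q) →ₗ[ℂ] (N ⧸ Q) :=
  Q.mapQ Q (L k) (fun v hv => hQ k v hv)

theorem sv7_mk (L : ℤ → N →ₗ[ℂ] N) (Q : Submodule ℂ N) (hQ : ∀ k : ℤ, ∀ v ∈ Q, L k v ∈ Q)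
    (k : ℤ) (x : N) : sv7_L L Q hQ k (Q.mkQ x) = Q.mkQ (L k x) := rfl

theorem sv7_isVir {c : ℂ} (L : ℤ → N →ₗ[ℂ] N) (hL : IsVir c L) (Q : Submodule ℂ N)
    (hQ : ∀ k : ℤ, ∀ v ∈ Q, L k v ∈ Q) : IsVir c (sv7_L L Q hQ) := by
  intro m n
  refine LinearMap.ext fun z => ?_
  obtain ⟨y, rfl⟩ := Q.mkQ_surjective z
  have h1 := congrArg (fun T : N →ₗ[ℂ] N => Q.mkQ (T y)) (hL m n)
  simp only [LinearMap.sub_apply, LinearMap.comp_apply, LinearMap.add_apply,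
    LinearMap.smul_apply, map_sub, map_add, map_smul] at h1
  rw [LinearMap.sub_apply, LinearMap.comp_apply, LinearMap.comp_apply, LinearMap.add_apply,
    LinearMap.smul_apply, sv7_mk, sv7_mk, sv7_mk, sv7_mk, sv7_mk, h1]
  congr 1
  split_ifs
  · simp only [LinearMap.smul_apply, LinearMap.id_apply, map_smul]
  · simp only [LinearMap.zero_apply, map_zero]

theorem sv7_wd (L : ℤ → N →ₗ[ℂ] N) (Q : Submodule ℂ N) (hQ : ∀ k : ℤ, ∀ v ∈ Q, L k v ∈ Q)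
    (w : List ℕ) (x : N) : wd (sv7_L L Q hQ) w (Q.mkQ x) = Q.mkQ (wd L w x) := by
  induction w with
  | nil => rfl
  | cons b w ih =>
    change sv7_L L Q hQ (-(b : ℤ)) (wd (sv7_L L Q hQ) w (Q.mkQ x)) = _
    rw [ih, sv7_mk]
    rfl

theorem sv7_wu (L : ℤ → N →ₗ[ℂ] N) (Q : Submodule ℂ N) (hQ : ∀ k : ℤ, ∀ v ∈ Q, L k v ∈ Q)
    (w : List ℕ) (x : N) : wu (sv7_L L Q hQ) w (Q.mkQ x) = Q.mkQ (wu L w x) := by
  induction w with
  | nil => rfl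
  | cons b w ih =>
    change sv7_L L Q hQ (b : ℤ) (wu (sv7_L L Q hQ) w (Q.mkQ x)) = _
    rw [ih, sv7_mk]
    rfl

theorem sv7_SS (L : ℤ → N →ₗ[ℂ] N) (Q : Submodule ℂ N) (hQ : ∀ k : ℤ, ∀ v ∈ Q, L k v ∈ Q)
    {n : ℕ} (c : Nat.Partition n → ℂ) (x : N) :
    SS (sv7_L L Q hQ) c (Q.mkQ x) = Q.mkQ (SS L c x) := by
  unfold SS
  rw [map_sum]
  refine Finset.sum_congr rfl fun π _ => ?_
  rw [sv7_wd, map_smul]

theorem sv7_wd_sum {M : Type} [AddCommGroup M] [Module ℂ M] (L : ℤ → M →ₗ[ℂ] M) {I : Type}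
    (s : Finset I) (a : I → ℂ) (y : I → M) (w : List ℕ) :
    wd L w (∑ i ∈ s, a i • y i) = ∑ i ∈ s, a i • wd L w (y i) := by
  induction w with
  | nil => rfl
  | cons b w ih =>
    have h1 : ∀ v : M, wd L (b :: w) v = L (-(b : ℤ)) (wd L w v) := fun v => rfl
    rw [h1, ih, map_sum]
    refine Finset.sum_congr rfl fun i _ => ?_
    rw [h1, map_smul]

theorem rel_zero_mod {t : ℂ} (ht : Irr t) (L : ℤ → N →ₗ[ℂ] N) (hL : IsVir (cc t) L)
    (Q : Submodule ℂ N) (hQ : ∀ k : ℤ, ∀ v ∈ Q, L k v ∈ Q) (h m : ℕ)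
    (hh : ∀ r s : ℕ, 1 ≤ r → 1 ≤ s → r * s ≤ m → (h : ℂ) ≠ hrs t r s)
    (ξ : Nat.Partition m → N) (hξ0 : ∀ π, L 0 (ξ π) = (h : ℂ) • ξ π)
    (hξ : ∀ π, ∀ k : ℕ, 0 < k → L k (ξ π) ∈ Q)
    (hz : ∀ w : List ℕ, Pw w → w.sum = m → wu L w (∑ π, wd L (pl π) (ξ π)) ∈ Q) :
    ∀ π, ξ π ∈ Q := by
  intro π
  have h1 := rel_zero ht (sv7_isVir L hL Q hQ) h m hh (fun π => Q.mkQ (ξ π)) (by
      intro π
      rw [sv7_mk, hξ0, map_smul]) (by
      intro π k hk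
      rw [sv7_mk]
      exact (Submodule.Quotient.mk_eq_zero Q).2 (hξ π k hk)) (by
      intro w hw hs
      have h2 : ∑ π, wd (sv7_L L Q hQ) (pl π) (Q.mkQ (ξ π)) =
          Q.mkQ (∑ π, wd L (pl π) (ξ π)) := by
        rw [map_sum]
        exact Finset.sum_congr rfl fun π _ => sv7_wd L Q hQ _ _
      rw [h2, sv7_wu]
      exact (Submodule.Quotient.mk_eq_zero Q).2 (hz w hw hs)) π
  exact (Submodule.Quotient.mk_eq_zero Q).1 h1

theorem sv7_core {t : ℂ} (ht : Irr t) {M : Type} [AddCommGroup M] [Module ℂ M]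
    (L : ℤ → M →ₗ[ℂ] M) (hL : IsVir (cc t) L) {r s n : ℕ} (hr : 1 ≤ r) (hs : 1 ≤ s)
    {c : Nat.Partition n → ℂ} (K : ℕ)
    (a B : Nat.Partition (K - n) → Nat.Partition K → ℂ)
    (hB : ∀ f : Nat.Partition K → ℂ, ∑ π, f π • wR t (krs t r s) (pl π) 1 = 0 →
        ∀ π, f π = ∑ ν, a ν π * ∑ π', B ν π' * f π')
    (ha : ∀ x : M, IsPrim L (hrs t r s) x → ∀ ν,
          ∑ π, a ν π • wd L (pl π) x = wd L (pl ν) (SS L c x))
    (x : Nat.Partition K → M) (hx0 : ∀ π, L 0 (x π) = hrs t r s • x π)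
    (hx : ∀ π, ∀ k : ℕ, 0 < k → L k (x π) = 0)
    (hz : ∀ w : List ℕ, Pw w → w.sum = K → wu L w (∑ π, wd L (pl π) (x π)) = 0) :
    ∑ π, wd L (pl π) (x π) = ∑ ν, wd L (pl ν) (SS L c (∑ π', B ν π' • x π')) := by
  have ht0 : t ≠ 0 := kv20_ne ht
  have hf : ∀ ψ : Module.Dual ℂ M,
      ∑ π, ψ (x π) • wR t (krs t r s) (pl π) 1 = 0 := by
    intro ψ
    refine kv17_zero ht (krs t r s) K ?_ _ (kv17_homog t _ K _) ?_
    · intro r' s' hr' hs' _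
      exact kap_ne ht hr hs r' s' hr' hs'
    · intro w hw hwK
      rw [kv20_gram_sum]
      have h3 := hz w hw hwK
      rw [wu_sum] at h3
      have h4 := congrArg ψ h3
      rw [map_sum, map_zero] at h4
      rw [← h4]
      refine Finset.sum_congr rfl fun π _ => ?_
      rw [univ ht0 (krs t r s) hL (x π) (by rw [hx0 π, hk_krs ht0]) (hx π) (pl π) w (pl_pos π)
        (by rw [pl_sum, hwK]), map_smul, smul_eq_mul, mul_comm]
  have hX : ∀ π, x π = ∑ ν, a ν π • ∑ π', B ν π' • x π' := by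
    intro π
    rw [← sub_eq_zero]
    rw [← Module.forall_dual_apply_eq_zero_iff ℂ]
    intro ψ
    rw [map_sub, map_sum, sub_eq_zero, hB (fun π => ψ (x π)) (hf ψ) π]
    refine Finset.sum_congr rfl fun ν _ => ?_
    rw [map_smul, smul_eq_mul, map_sum]
    congr 1
    refine Finset.sum_congr rfl fun π' _ => ?_
    rw [map_smul, smul_eq_mul]
  have hprim : ∀ ν, IsPrim L (hrs t r s) (∑ π', B ν π' • x π') := by
    intro ν
    constructor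
    · rw [map_sum, Finset.smul_sum]
      refine Finset.sum_congr rfl fun π' _ => ?_
      rw [map_smul, hx0, smul_comm]
    · intro k hk
      rw [map_sum]
      refine Finset.sum_eq_zero fun π' _ => ?_
      rw [map_smul, hx π' k hk, smul_zero]
  calc ∑ π, wd L (pl π) (x π)
      = ∑ π, ∑ ν, a ν π • wd L (pl π) (∑ π', B ν π' • x π') := by
        refine Finset.sum_congr rfl fun π _ => ?_
        conv_lhs => rw [hX π]
        exact sv7_wd_sum L Finset.univ (fun ν => a ν π) (fun ν => ∑ π', B ν π' • x π') (pl π)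
    _ = ∑ ν, ∑ π, a ν π • wd L (pl π) (∑ π', B ν π' • x π') := Finset.sum_comm
    _ = ∑ ν, wd L (pl ν) (SS L c (∑ π', B ν π' • x π')) :=
        Finset.sum_congr rfl fun ν _ => ha _ (hprim ν) ν

theorem ker_mod {t : ℂ} (ht : Irr t) (L : ℤ → N →ₗ[ℂ] N) (hL : IsVir (cc t) L)
    (Q : Submodule ℂ N) (hQ : ∀ k : ℤ, ∀ v ∈ Q, L k v ∈ Q) {r s n : ℕ} (hr : 1 ≤ r) (hs : 1 ≤ s)
    {c : Nat.Partition n → ℂ} (hc : IsS t r s n c) (K : ℕ) (hK : n ≤ K)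
    (x : Nat.Partition K → N) (hx0 : ∀ π, L 0 (x π) = hrs t r s • x π)
    (hx : ∀ π, ∀ k : ℕ, 0 < k → L k (x π) ∈ Q)
    (hz : ∀ w : List ℕ, Pw w → w.sum = K → wu L w (∑ π, wd L (pl π) (x π)) ∈ Q) :
    ∃ B : Nat.Partition (K - n) → Nat.Partition K → ℂ,
      ∑ π, wd L (pl π) (x π) - ∑ ν, wd L (pl ν) (SS L c (∑ π', B ν π' • x π')) ∈ Q := by
  obtain ⟨a, B, hB, ha⟩ := ker_basis ht hr hs hc K hK
  refine ⟨B, ?_⟩
  have hLQ := sv7_isVir L hL Q hQ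
  have h1 := sv7_core (c := c) ht (sv7_L L Q hQ) hLQ hr hs K a B hB
    (fun x hx ν => ha (N ⧸ Q) (sv7_L L Q hQ) hLQ x hx ν) (fun π => Q.mkQ (x π)) (by
      intro π
      rw [sv7_mk, hx0, map_smul]) (by
      intro π k hk
      rw [sv7_mk]
      exact (Submodule.Quotient.mk_eq_zero Q).2 (hx π k hk)) (by
      intro w hw hs
      have h2 : ∑ π, wd (sv7_L L Q hQ) (pl π) (Q.mkQ (x π)) =
          Q.mkQ (∑ π, wd L (pl π) (x π)) := by
        rw [map_sum]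
        exact Finset.sum_congr rfl fun π _ => sv7_wd L Q hQ _ _
      rw [h2, sv7_wu]
      exact (Submodule.Quotient.mk_eq_zero Q).2 (hz w hw hs))
  apply (Submodule.Quotient.mk_eq_zero Q).1
  change Q.mkQ _ = 0
  rw [map_sub, map_sum, map_sum, sub_eq_zero]
  calc ∑ π, Q.mkQ (wd L (pl π) (x π))
      = ∑ π, wd (sv7_L L Q hQ) (pl π) (Q.mkQ (x π)) :=
        Finset.sum_congr rfl fun π _ => (sv7_wd L Q hQ _ _).symm
    _ = _ := h1
    _ = ∑ ν, Q.mkQ (wd L (pl ν) (SS L c (∑ π', B ν π' • x π'))) := by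
        refine Finset.sum_congr rfl fun ν _ => ?_
        have h3 : ∑ π', B ν π' • Q.mkQ (x π') = Q.mkQ (∑ π', B ν π' • x π') := by
          rw [map_sum]
          exact Finset.sum_congr rfl fun π' _ => (map_smul _ _ _).symm
        rw [h3, sv7_SS, sv7_wd]

end

end WPQ.SV
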