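import Pool.Agent.WPQ.SVD
import Pool.Agent.WPQ.KV18
import Pool.Agent.WPQ.KV21

/-! [WPQ-SV8] The submodule generated by the vectors of weight `≤ m`.

Plan.  `KM L V m` is the span of the `wd L w x`, `Pw w`, `x ∈ V j`, `j ≤ m`.
`KM_stable`: `L(-a)`, `a > 0`: add a letter.  `L(0)`, `L(k)`: induction on the word:
`L(k) L(-a) y = L(-a) L(k) y + (k+a) L(k-a) y + central`, the claim for all `k ≥ 0` and all shorter words (for `k - a < 0` it is
the first case); `w = []`: `L(k) x ∈ V (j-k)`, `j - k ≤ m`.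
`KM_neg`: `V j = ⊥` for `j < 0`.  `KM_I`: `a ∈ V (n-1)`, word `[1]`.
`KM_decomp`: `y ∈ KM m ⊓ V n`, `m ≤ n`, `m = (m : ℕ)`: every generator is `wd L w x`, `x ∈ V j`; if `j < m` it is in `KM (m-1)`; if
`j = m`: it is in `V (m + w.sum)`; project to weight `n`: to make the projection possible use that `y` is a sum of
generators, group them by weight, and use that `L 0` separates weights: concretely prove first: every
element of `KM m` is a finite sum of `L 0`-eigenvectors with eigenvalues in `ℤ` which lie in `KM m`, of the form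
(for the eigenvalue `n'`) `∑_{π ⊢ n'-m} wd L (pl π) (ξ π) + k'`, `ξ π ∈ V m`, `k' ∈ KM (m-1) ⊓ V n'`
(`straight_wd` KV6 for the word); then, since `y ∈ V n` and the `V n` are independent (eigenspaces of `L 0`:
`Module.End.eigenspaces_iSupIndep`), only `n' = n` contributes.
`KM_zero`: the special case `m = 0` with `V 0 = ℂ vac` and `L(-1) vac = 0`: words `pl π` with `1 ∈ π.parts` end with the
letter `1` and give `0` (`kv22_wd_vac` in KV22.lean). -/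

namespace WPQ.SV

open MvPolynomial KV

noncomputable section

variable {N : Type} [AddCommGroup N] [Module ℂ N]

/-- The submodule generated by the vectors of weight `≤ m`. -/
def KM (L : ℤ → N →ₗ[ℂ] N) (V : ℤ → Submodule ℂ N) (m : ℤ) : Submodule ℂ N :=
  Submodule.span ℂ {y | ∃ (w : List ℕ) (j : ℤ) (x : N), Pw w ∧ j ≤ m ∧ x ∈ V j ∧ y = wd L w x}

theorem sv8_neg (L : ℤ → N →ₗ[ℂ] N) (V : ℤ → Submodule ℂ N) (m : ℤ) (a : ℕ) (ha : 0 < a) (v : N)
    (hv : v ∈ KM L V m) : L (-(a : ℤ)) v ∈ KM L V m := by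
  unfold KM at hv
  induction hv using Submodule.span_induction with
  | mem u hu =>
    obtain ⟨w, j, x, hw, hj, hx, rfl⟩ := hu
    refine Submodule.subset_span ⟨a :: w, j, x, ?_, hj, hx, rfl⟩
    intro b hb
    rcases List.mem_cons.mp hb with rfl | hb
    · exact ha
    · exact hw b hb
  | zero => rw [map_zero]; exact Submodule.zero_mem _
  | add u v _ _ hu hv => rw [map_add]; exact Submodule.add_mem _ hu hv
  | smul r u _ hu => rw [map_smul]; exact Submodule.smul_mem _ r hu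

theorem sv8_word {c : ℂ} (L : ℤ → N →ₗ[ℂ] N) (hL : IsVir c L) (V : ℤ → Submodule ℂ N)
    (hdeg : ∀ k n : ℤ, ∀ v ∈ V n, L k v ∈ V (n - k)) (m j : ℤ) (hj : j ≤ m) (x : N) (hx : x ∈ V j)
    (w : List ℕ) (hw : Pw w) : wd L w x ∈ KM L V m ∧ ∀ k : ℤ, L k (wd L w x) ∈ KM L V m := by
  induction w with
  | nil =>
    refine ⟨Submodule.subset_span ⟨[], j, x, hw, hj, hx, rfl⟩, fun k => ?_⟩
    rcases lt_or_ge k 0 with hk | hk
    · obtain ⟨a, ha⟩ : ∃ a : ℕ, k = -(a : ℤ) := ⟨(-k).toNat, by omega⟩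
      rw [ha]
      exact sv8_neg L V m a (by omega) _ (Submodule.subset_span ⟨[], j, x, hw, hj, hx, rfl⟩)
    · exact Submodule.subset_span ⟨[], j - k, L k x, hw, by omega, hdeg k j x hx, rfl⟩
  | cons b w ih =>
    have hb : 0 < b := hw b List.mem_cons_self
    have hw' : Pw w := fun a ha => hw a (List.mem_cons_of_mem _ ha)
    obtain ⟨h1, h2⟩ := ih hw'
    have h3 : wd L (b :: w) x ∈ KM L V m := by
      rw [kv21_cons]
      exact sv8_neg L V m b hb _ h1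
    refine ⟨h3, fun k => ?_⟩
    rw [kv21_cons, kv18_vir hL]
    refine Submodule.add_mem _ (Submodule.add_mem _ (sv8_neg L V m b hb _ (h2 k))
      (Submodule.smul_mem _ _ (h2 _))) ?_
    split_ifs
    · exact Submodule.smul_mem _ _ h1
    · exact Submodule.zero_mem _

theorem sv8_wd_V (L : ℤ → N →ₗ[ℂ] N) (V : ℤ → Submodule ℂ N)
    (hdeg : ∀ k n : ℤ, ∀ v ∈ V n, L k v ∈ V (n - k)) (j : ℤ) (x : N) (hx : x ∈ V j) (w : List ℕ) :
    wd L w x ∈ V (j + (w.sum : ℤ)) := by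
  induction w with
  | nil =>
    rw [List.sum_nil, Nat.cast_zero, add_zero]
    exact hx
  | cons b w ih =>
    rw [kv21_cons]
    have h1 := hdeg (-(b : ℤ)) _ _ ih
    rw [List.sum_cons, Nat.cast_add,
      show j + ((b : ℤ) + (w.sum : ℤ)) = j + (w.sum : ℤ) - -(b : ℤ) by ring]
    exact h1

theorem sv8_indep (L : ℤ → N →ₗ[ℂ] N) (V : ℤ → Submodule ℂ N)
    (hL0 : ∀ n : ℤ, ∀ v ∈ V n, L 0 v = (n : ℂ) • v) : iSupIndep V := by
  have h1 := Module.End.eigenspaces_iSupIndep (L 0)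
  have h2 : iSupIndep (fun n : ℤ => Module.End.eigenspace (L 0) (n : ℂ)) :=
    h1.comp (f := fun n : ℤ => (n : ℂ)) Int.cast_injective
  refine h2.mono fun n v hv => ?_
  rw [Module.End.mem_eigenspace_iff]
  exact hL0 n v hv

/-- the homogeneous components of `KM m` -/
def sv8_G (L : ℤ → N →ₗ[ℂ] N) (V : ℤ → Submodule ℂ N) (m i : ℤ) : Submodule ℂ N :=
  Submodule.span ℂ {y | ∃ (w : List ℕ) (x : N), Pw w ∧ x ∈ V m ∧ m + (w.sum : ℤ) = i ∧
    y = wd L w x} ⊔ (KM L V (m - 1) ⊓ V i)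

theorem sv8_G_le (L : ℤ → N →ₗ[ℂ] N) (V : ℤ → Submodule ℂ N)
    (hdeg : ∀ k n : ℤ, ∀ v ∈ V n, L k v ∈ V (n - k)) (m i : ℤ) : sv8_G L V m i ≤ V i := by
  refine sup_le (Submodule.span_le.2 ?_) inf_le_right
  rintro _ ⟨w, x, _, hx, hi, rfl⟩
  have h1 := sv8_wd_V L V hdeg m x hx w
  rw [hi] at h1
  exact h1

theorem sv8_KM_le {c : ℂ} (L : ℤ → N →ₗ[ℂ] N) (hL : IsVir c L) (V : ℤ → Submodule ℂ N)
    (hdeg : ∀ k n : ℤ, ∀ v ∈ V n, L k v ∈ V (n - k)) (m : ℤ) :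
    KM L V m ≤ ⨆ i, sv8_G L V m i := by
  refine Submodule.span_le.2 ?_
  rintro _ ⟨w, j, x, hw, hj, hx, rfl⟩
  rcases eq_or_lt_of_le hj with rfl | hj'
  · exact (le_iSup (sv8_G L V j) (j + (w.sum : ℤ)))
      (Submodule.mem_sup_left (Submodule.subset_span ⟨w, x, hw, hx, rfl, rfl⟩))
  · exact (le_iSup (sv8_G L V m) (j + (w.sum : ℤ)))
      (Submodule.mem_sup_right ⟨(sv8_word L hL V hdeg (m - 1) j (by omega) x hx w hw).1,
        sv8_wd_V L V hdeg j x hx w⟩)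

theorem sv8_span {c : ℂ} (L : ℤ → N →ₗ[ℂ] N) (hL : IsVir c L) (V : ℤ → Submodule ℂ N)
    (m n : ℕ) (hmn : m ≤ n) (u : N)
    (hu : u ∈ Submodule.span ℂ {y | ∃ (w : List ℕ) (x : N), Pw w ∧ x ∈ V m ∧
      (m : ℤ) + (w.sum : ℤ) = n ∧ y = wd L w x}) :
    ∃ ξ : Nat.Partition (n - m) → N, (∀ π, ξ π ∈ V m) ∧ u = ∑ π, wd L (pl π) (ξ π) := by
  induction hu using Submodule.span_induction with
  | mem u hu =>
    obtain ⟨w, x, hw, hx, hs, rfl⟩ := hu
    have h1 := straight_wd hL x (n - m) w hw (by omega)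
    obtain ⟨b, hb⟩ := (Submodule.mem_span_range_iff_exists_fun ℂ).1 h1
    refine ⟨fun π => b π • x, fun π => Submodule.smul_mem _ _ hx, ?_⟩
    rw [← hb]
    refine Finset.sum_congr rfl fun π _ => ?_
    rw [kv21_smul]
  | zero =>
    refine ⟨fun _ => 0, fun _ => Submodule.zero_mem _, ?_⟩
    exact (Finset.sum_eq_zero fun π _ => kv21_zero L _).symm
  | add u v _ _ hu hv =>
    obtain ⟨ξ, h1, h2⟩ := hu
    obtain ⟨ξ', h3, h4⟩ := hv
    refine ⟨fun π => ξ π + ξ' π, fun π => Submodule.add_mem _ (h1 π) (h3 π), ?_⟩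
    rw [h2, h4, ← Finset.sum_add_distrib]
    refine Finset.sum_congr rfl fun π _ => ?_
    rw [kv21_add]
  | smul r u _ hu =>
    obtain ⟨ξ, h1, h2⟩ := hu
    refine ⟨fun π => r • ξ π, fun π => Submodule.smul_mem _ _ (h1 π), ?_⟩
    rw [h2, Finset.smul_sum]
    refine Finset.sum_congr rfl fun π _ => ?_
    rw [kv21_smul]

theorem KM_stable {c : ℂ} (L : ℤ → N →ₗ[ℂ] N) (hL : IsVir c L) (V : ℤ → Submodule ℂ N)
    (hdeg : ∀ k n : ℤ, ∀ v ∈ V n, L k v ∈ V (n - k)) (m k : ℤ) (v : N) (hv : v ∈ KM L V m) :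
    L k v ∈ KM L V m := by
  unfold KM at hv
  induction hv using Submodule.span_induction with
  | mem u hu =>
    obtain ⟨w, j, x, hw, hj, hx, rfl⟩ := hu
    exact (sv8_word L hL V hdeg m j hj x hx w hw).2 k
  | zero => rw [map_zero]; exact Submodule.zero_mem _
  | add u v _ _ hu hv => rw [map_add]; exact Submodule.add_mem _ hu hv
  | smul r u _ hu => rw [map_smul]; exact Submodule.smul_mem _ r hu

theorem KM_mono (L : ℤ → N →ₗ[ℂ] N) (V : ℤ → Submodule ℂ N) {m m' : ℤ} (h : m ≤ m') :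
    KM L V m ≤ KM L V m' := by
  refine Submodule.span_mono ?_
  rintro _ ⟨w, j, x, hw, hj, hx, rfl⟩
  exact ⟨w, j, x, hw, hj.trans h, hx, rfl⟩

theorem KM_V (L : ℤ → N →ₗ[ℂ] N) (V : ℤ → Submodule ℂ N) {j m : ℤ} (h : j ≤ m) (x : N)
    (hx : x ∈ V j) : x ∈ KM L V m :=
  Submodule.subset_span ⟨[], j, x, fun _ ha => absurd ha List.not_mem_nil, h, hx, rfl⟩

theorem KM_neg (L : ℤ → N →ₗ[ℂ] N) (V : ℤ → Submodule ℂ N) (hneg : ∀ n < 0, V n = ⊥) (m : ℤ)
    (hm : m < 0) : KM L V m = ⊥ := by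
  rw [eq_bot_iff]
  refine Submodule.span_le.2 ?_
  rintro _ ⟨w, j, x, _, hj, hx, rfl⟩
  rw [hneg j (by omega), Submodule.mem_bot] at hx
  rw [hx, kv21_zero]
  exact Submodule.zero_mem _

theorem KM_I (L : ℤ → N →ₗ[ℂ] N) (V : ℤ → Submodule ℂ N) (n : ℤ) (a b : N) (ha : a ∈ V (n - 1))
    (hb : b ∈ V (n - 2)) : L (-1) a + L (-2) b ∈ KM L V (n - 1) := by
  refine Submodule.add_mem _ ?_ ?_
  · exact sv8_neg L V (n - 1) 1 one_pos _ (KM_V L V le_rfl a ha)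
  · exact sv8_neg L V (n - 1) 2 two_pos _ (KM_V L V (by omega) b hb)

theorem KM_decomp {c : ℂ} (L : ℤ → N →ₗ[ℂ] N) (hL : IsVir c L) (V : ℤ → Submodule ℂ N)
    (hdeg : ∀ k n : ℤ, ∀ v ∈ V n, L k v ∈ V (n - k))
    (hL0 : ∀ n : ℤ, ∀ v ∈ V n, L 0 v = (n : ℂ) • v) (m n : ℕ) (hmn : m ≤ n) (y : N)
    (hy : y ∈ KM L V m) (hyV : y ∈ V n) :
    ∃ (ξ : Nat.Partition (n - m) → N) (k' : N), (∀ π, ξ π ∈ V m) ∧
      k' ∈ KM L V ((m : ℤ) - 1) ∧ k' ∈ V n ∧ y = ∑ π, wd L (pl π) (ξ π) + k' := by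
  have h1 := sv8_KM_le L hL V hdeg m hy
  rw [iSup_split_single (sv8_G L V m) (n : ℤ)] at h1
  obtain ⟨a, ha, b, hb, hab⟩ := Submodule.mem_sup.1 h1
  have ha' : a ∈ V n := sv8_G_le L V hdeg m n ha
  have hb1 : b ∈ V n := by
    have h2 := Submodule.sub_mem _ hyV ha'
    rwa [← hab, add_sub_cancel_left] at h2
  have hb2 : b ∈ ⨆ (i) (_ : i ≠ (n : ℤ)), V i :=
    (iSup₂_mono fun i _ => sv8_G_le L V hdeg m i) hb
  have hb0 : b = 0 := by
    have h3 := (sv8_indep L V hL0 (n : ℤ)).le_bot ⟨hb1, hb2⟩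
    rwa [Submodule.mem_bot] at h3
  rw [hb0, add_zero] at hab
  rw [← hab]
  obtain ⟨u, hu, k', hk', huk⟩ := Submodule.mem_sup.1 ha
  obtain ⟨ξ, hξ, hu'⟩ := sv8_span L hL V m n hmn u hu
  exact ⟨ξ, k', hξ, hk'.1, hk'.2, by rw [← huk, hu']⟩

end

end WPQ.SV
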