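import Pool.Agent.WPQ.SV7
import Pool.Agent.WPQ.SV8
import Pool.Agent.WPQ.KV22

/-! [WPQ-SV9] Primary vectors in `L(-1)V + L(-2)V`.

Plan.  Arithmetic (`Irr t`): with `g r = hrs t r r`: `g r = ((r - r t)² - (t-1)²)/(4t)`, `g r + r² = ((r + r t)² - (t-1)²)/(4t)`.
`ar1`: `g r + r² = g s` impossible for `r ≥ 1` (`s(1-t) = ± r(1+t)`); `ar2`: `g r + r² = g s + s²` implies `r = s`.
`Prim n y` means `y ∈ V n`, `L 1 y = 0`, `L 2 y = 0` (then `L k y = 0` for all `k > 0`: `prim_pos`).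
`D n`: `Out n y` := the conclusion: `∃ r h c x, 2 ≤ r ∧ 1 ≤ h ∧ (h : ℂ) = hrs t r r ∧ n = h + r*r ∧ IsS .. ∧ x ∈ V h ∧ L 1 x = 0 ∧ L 2 x = 0
∧ y = SS L c x`, with in addition `h ≤ m`.
Claim `Bnm`: for all `n m : ℕ`, `m < n`, `y` primary in `V n`, `y ∈ KM L V m`, `y ≠ 0` ⟹ `Out n y` with `h ≤ m`.
Strong induction on `n`, inside induction on `m`.
`m = 0`: `KM_decomp` with `m = 0`: `y = ∑_{π ⊢ n} wd (pl π) (ξ π) + k'`, `k' ∈ KM (-1) = ⊥`, `ξ π = a π • vac`; put `a π = 0` if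
`1 ∈ π.parts` (`kv22_wd_vac`: `wd (pl π) vac = 0`); `L k vac = 0` for `k ≥ 1` (`V (-k) = ⊥`), `L 0 vac = 0`; `rel_vac` (KV20): the
hypothesis `wu L w y = 0` holds as `y` is primary and `n > 0` (`kv22_wu_prim`); so all `a π • vac = 0`, `y = 0`.
(If `vac ∉ V 0` the space `V 0` may be zero; treat `ξ π = a π • vac` by `h0`; if `vac` is not in `V 0` and `V 0 ≠ ⊥` then some
nonzero multiple of `vac` is in `V 0`; if `V 0 = ⊥` then `y = 0`.)
`m + 1`: `KM_decomp`: `y = ∑_{π ⊢ n-(m+1)} wd (pl π) (ξ π) + k'`, `Q = KM (m)` (integer `(m+1)-1`), `KM_stable`.  Write `M = m+1`.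
 Case (i): `M ≠ g r` for all `r ≥ 1` with `r² ≤ n - M`.  `rel_zero_mod` (`hh` by `hdiag`): `L k (ξ π) ∈ V (M-k) ≤ Q`
  (`KM_V`); `wu L w y = 0`, `wu L w k' ∈ Q`; so `ξ π ∈ Q`, `y ∈ Q`, induction on `m`.
 Case (ii): `M = g r`, `r² ≤ n - M`; `r ≥ 2` since `g 1 = 0`.  `V M = Prim + L(-1)V + L(-2)V` by `hdec M`: otherwise there is a nonzero
  primary `z ∈ V M`, `z = L(-1)a + L(-2)b ∈ KM (M-1)` (`KM_I`), and the induction hypothesis for `n := M < n` gives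
  `M = h' + r'²`, `h' = g r'`, contradiction with `ar1`.  So `ξ π = x π + L(-1)y' + L(-2)z'`, the last part in `Q`; `x π` primary.
  `sv5_exists` gives `c`; `ker_mod` with `K = n - M ≥ r² `: `y ≡ ∑_ν wd (pl ν) (SS c (z ν))` mod `Q`, `z ν = ∑ B ν π' • x π'` primary in `V M`;
  `y' ν = SS c (z ν)` is primary of weight `M + r²` (`sv5_prim`), in `V (M + r²)`.
  If `n = M + r²`: `Partition (n-M-r²) = Partition 0` has one element, `pl = []`; `y - SS c z ∈ Q` is primary in `V n`; if it is `≠ 0`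
  the induction hypothesis for `m` gives `n = h' + r'²`, `h' ≤ m`, `ar2`: `r = r'`, `h' = M`, contradiction.  So `y = SS c z`, `Out`.
  If `n > M + r²`: for all `w`, `Pw w`, `w.sum = n - M - r²`: `u = wu L w (∑_ν wd (pl ν) (y' ν))` is in `Q` (`= wu L w (y - k'')`,
  `k'' ∈ Q`) and it is a combination of the `y' ν` (`univ`, KV19, with `κ` from `exists_kappa`), so it is primary in `V (M + r²)`;
  if `u ≠ 0` the induction hypothesis for `n := M + r² < n`, `m`, gives `M + r² = h' + r'²`, `h' ≤ m`, contradiction by `ar2`.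
  So `u = 0` and `rel_zero` (KV20) at weight `M + r²` (`hh`: `hdiag` and `ar1`) gives `y' ν = 0`, so `y ∈ Q`: induction on `m`.
Final: `y = L(-1)a + L(-2)b ∈ KM (n-1)` (`KM_I`), `n ≥ 1` (`n ≤ 0`: `V (n-1) = ⊥`, `V (n-2) = ⊥`), `Bnm` with `m = n - 1`. -/

namespace WPQ.SV

open MvPolynomial KV

noncomputable section

theorem sv9_g {t : ℂ} (ht0 : t ≠ 0) (r : ℕ) :
    hrs t r r = ((r : ℂ) ^ 2 - 1) * (t - 1) ^ 2 / (4 * t) := by
  unfold hrs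
  field_simp
  ring

theorem ar1 {t : ℂ} (ht : Irr t) (r s : ℕ) (hr : 1 ≤ r) : hrs t r r + (r : ℂ) ^ 2 ≠ hrs t s s := by
  intro h
  have ht0 : t ≠ 0 := kv20_ne ht
  rw [sv9_g ht0, sv9_g ht0] at h
  have h1 : ((r : ℂ) * (t + 1)) ^ 2 = ((s : ℂ) * (t - 1)) ^ 2 := by
    field_simp at h
    linear_combination h
  rcases sq_eq_sq_iff_eq_or_eq_neg.mp h1 with h2 | h2
  · have h3 := ht ((r : ℤ) + s) ((s : ℤ) - r) (by push_cast; linear_combination h2)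
    omega
  · have h3 := ht ((r : ℤ) - s) (-(r : ℤ) - s) (by push_cast; linear_combination h2)
    omega

theorem ar2 {t : ℂ} (ht : Irr t) (r s : ℕ) (h : hrs t r r + (r : ℂ) ^ 2 = hrs t s s + (s : ℂ) ^ 2) :
    r = s := by
  have ht0 : t ≠ 0 := kv20_ne ht
  rw [sv9_g ht0, sv9_g ht0] at h
  have h1 : ((r : ℂ) * (t + 1)) ^ 2 = ((s : ℂ) * (t + 1)) ^ 2 := by
    field_simp at h
    linear_combination h
  rcases sq_eq_sq_iff_eq_or_eq_neg.mp h1 with h2 | h2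
  · have h3 := ht ((r : ℤ) - s) ((s : ℤ) - r) (by push_cast; linear_combination h2)
    omega
  · have h3 := ht ((r : ℤ) + s) (-(r : ℤ) - s) (by push_cast; linear_combination h2)
    omega

section
variable {N : Type} [AddCommGroup N] [Module ℂ N]

/-- the hypotheses -/
structure sv9_Ctx (t : ℂ) (L : ℤ → N →ₗ[ℂ] N) (V : ℤ → Submodule ℂ N) (vac : N) : Prop where
  ht : Irr t
  hL : IsVir (cc t) L
  hdeg : ∀ k n : ℤ, ∀ v ∈ V n, L k v ∈ V (n - k)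
  hL0 : ∀ n : ℤ, ∀ v ∈ V n, L 0 v = (n : ℂ) • v
  hneg : ∀ n < 0, V n = ⊥
  h0 : ∀ v ∈ V 0, ∃ a : ℂ, v = a • vac
  hvac : L (-1) vac = 0
  hdec : ∀ n : ℤ, (∀ x ∈ V n, L 1 x = 0 → L 2 x = 0 →
        (∃ y ∈ V (n - 1), ∃ z ∈ V (n - 2), x = L (-1) y + L (-2) z) → x = 0) →
      ∀ v ∈ V n, ∃ x ∈ V n, ∃ y ∈ V (n - 1), ∃ z ∈ V (n - 2),
        L 1 x = 0 ∧ L 2 x = 0 ∧ v = x + L (-1) y + L (-2) z
  hdiag : ∀ h r s : ℕ, 1 ≤ r → 1 ≤ s → (h : ℂ) = hrs t r s → r = s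

/-- `y` is primary of weight `n` -/
structure sv9_Pr (L : ℤ → N →ₗ[ℂ] N) (V : ℤ → Submodule ℂ N) (n : ℕ) (y : N) : Prop where
  hV : y ∈ V n
  h1 : L 1 y = 0
  h2 : L 2 y = 0

/-- the conclusion with the bound `h ≤ m` -/
def sv9_Out (t : ℂ) (L : ℤ → N →ₗ[ℂ] N) (V : ℤ → Submodule ℂ N) (n m : ℕ) (y : N) : Prop :=
  ∃ (r h : ℕ) (c : Nat.Partition (r * r) → ℂ) (x : N), 2 ≤ r ∧ 1 ≤ h ∧ h ≤ m ∧
      (h : ℂ) = hrs t r r ∧ n = h + r * r ∧ IsS t r r (r * r) c ∧ x ∈ V h ∧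
      L 1 x = 0 ∧ L 2 x = 0 ∧ y = SS L c x

theorem sv9_Out_mono {t : ℂ} {L : ℤ → N →ₗ[ℂ] N} {V : ℤ → Submodule ℂ N} {n m m' : ℕ} {y : N}
    (h : sv9_Out t L V n m y) (hm : m ≤ m') : sv9_Out t L V n m' y := by
  obtain ⟨r, h', c, x, h1, h2, h3, h4⟩ := h
  exact ⟨r, h', c, x, h1, h2, h3.trans hm, h4⟩

theorem sv9_wd_V {L : ℤ → N →ₗ[ℂ] N} {V : ℤ → Submodule ℂ N}
    (hdeg : ∀ k n : ℤ, ∀ v ∈ V n, L k v ∈ V (n - k)) (w : List ℕ) (j : ℤ) (x : N)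
    (hx : x ∈ V j) : wd L w x ∈ V (j + w.sum) := by
  induction w with
  | nil =>
    have h1 : wd L [] x = x := rfl
    rw [h1, List.sum_nil]
    simpa using hx
  | cons a w ih =>
    rw [kv21_cons]
    have h1 := hdeg (-(a : ℤ)) _ _ ih
    have h2 : j + (w.sum : ℤ) - -(a : ℤ) = j + (((a :: w).sum : ℕ) : ℤ) := by
      rw [List.sum_cons]; push_cast; ring
    rw [h2] at h1
    exact h1

theorem sv9_wd_Q {L : ℤ → N →ₗ[ℂ] N} {Q : Submodule ℂ N}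
    (hQ : ∀ k : ℤ, ∀ v ∈ Q, L k v ∈ Q) (w : List ℕ) (x : N)
    (hx : x ∈ Q) : wd L w x ∈ Q := by
  induction w with
  | nil => exact hx
  | cons a w ih =>
    rw [kv21_cons]
    exact hQ _ _ ih

theorem sv9_wu_Q {L : ℤ → N →ₗ[ℂ] N} {Q : Submodule ℂ N}
    (hQ : ∀ k : ℤ, ∀ v ∈ Q, L k v ∈ Q) (w : List ℕ) (x : N)
    (hx : x ∈ Q) : wu L w x ∈ Q := by
  induction w with
  | nil => exact hx
  | cons a w ih =>
    have h1 : wu L (a :: w) x = L (a : ℤ) (wu L w x) := rfl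
    rw [h1]
    exact hQ _ _ ih

theorem sv9_wu_prim {t : ℂ} {L : ℤ → N →ₗ[ℂ] N} {V : ℤ → Submodule ℂ N} {vac : N}
    (C : sv9_Ctx t L V vac) {n : ℕ} {y : N} (hy : sv9_Pr L V n y) (w : List ℕ) (hw : Pw w)
    (hs : 0 < w.sum) : wu L w y = 0 := by
  refine kv22_wu_prim L y (fun k hk => prim_pos C.hL y hy.h1 hy.h2 k hk) w hw ?_
  rintro rfl
  rw [List.sum_nil] at hs
  exact lt_irrefl _ hs

/-- `wu L w T ∈ Q` if `y = T + k'` -/
theorem sv9_hz {t : ℂ} {L : ℤ → N →ₗ[ℂ] N} {V : ℤ → Submodule ℂ N} {vac : N}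
    (C : sv9_Ctx t L V vac) {n : ℕ} {y : N} (hy : sv9_Pr L V n y) {Q : Submodule ℂ N}
    (hQ : ∀ k : ℤ, ∀ v ∈ Q, L k v ∈ Q) {T k' : N} (hk' : k' ∈ Q) (e : y = T + k')
    (w : List ℕ) (hw : Pw w) (hs : 0 < w.sum) : wu L w T ∈ Q := by
  have h1 := sv9_wu_prim C hy w hw hs
  rw [e, wu_add] at h1
  have h2 : wu L w T = - wu L w k' := eq_neg_of_add_eq_zero_left h1
  rw [h2]
  exact Q.neg_mem (sv9_wu_Q hQ w k' hk')

theorem sv9_L0 {t : ℂ} {L : ℤ → N →ₗ[ℂ] N} {V : ℤ → Submodule ℂ N} {vac : N}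
    (C : sv9_Ctx t L V vac) (h : ℕ) (x : N) (hx : x ∈ V h) : L 0 x = (h : ℂ) • x := by
  have h1 := C.hL0 h x hx
  rw [h1]
  simp

theorem sv9_zero {t : ℂ} {L : ℤ → N →ₗ[ℂ] N} {V : ℤ → Submodule ℂ N} {vac : N}
    (C : sv9_Ctx t L V vac) {n : ℕ} (hn : 0 < n) {y : N} (hy : sv9_Pr L V n y)
    (hK : y ∈ KM L V (0 : ℕ)) : y = 0 := by
  obtain ⟨ξ, k', hξ, hk', hk'V, e⟩ := KM_decomp L C.hL V C.hdeg C.hL0 0 n (Nat.zero_le n) y hK hy.hV
  rw [KM_neg L V C.hneg _ (by simp), Submodule.mem_bot] at hk'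
  rw [hk', add_zero] at e
  have hV0 : ∀ π, ξ π ∈ V 0 := fun π => by simpa using hξ π
  have hwu : ∀ w : List ℕ, Pw w → w.sum = n - 0 → wu L w (∑ π, wd L (pl π) (ξ π)) = 0 := by
    intro w hw hs
    rw [← e]
    exact sv9_wu_prim C hy w hw (by omega)
  have hex : ∀ π : Nat.Partition (n - 0), ∃ a : ℂ, ξ π = a • vac := fun π => C.h0 _ (hV0 π)
  choose a ha using hex
  have hT : ∑ π, wd L (pl π) (ξ π) = 0 := by
    by_cases hall : ∀ π, a π = 0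
    · refine Finset.sum_eq_zero fun π _ => ?_
      rw [ha π, hall π, zero_smul, kv21_zero]
    · push Not at hall
      obtain ⟨π1, hπ1⟩ := hall
      have hvaceq : vac = (a π1)⁻¹ • ξ π1 := by
        rw [ha π1, smul_smul, inv_mul_cancel₀ hπ1, one_smul]
      have hv : ∀ k : ℕ, L k vac = 0 := by
        intro k
        rcases Nat.eq_zero_or_pos k with rfl | hk
        · have h1 := C.hL0 0 (ξ π1) (hV0 π1)
          rw [hvaceq, map_smul, Nat.cast_zero, h1, Int.cast_zero, zero_smul, smul_zero]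
        · have h1 := C.hdeg k 0 (ξ π1) (hV0 π1)
          rw [C.hneg _ (by omega), Submodule.mem_bot] at h1
          rw [hvaceq, map_smul, h1, smul_zero]
      classical
      have hrew : ∑ π, wd L (pl π) (ξ π) =
          ∑ π, (if 1 ∈ π.parts then 0 else a π) • wd L (pl π) vac := by
        refine Finset.sum_congr rfl fun π _ => ?_
        rw [ha π, kv21_smul]
        split_ifs with h1π
        · rw [kv22_wd_vac L vac C.hvac (pl π) (pl_pos π) ?_ ?_, smul_zero, smul_zero]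
          · exact Multiset.pairwise_sort _ _
          · exact (Multiset.mem_sort _).mpr h1π
        · rfl
      have hr := rel_vac C.ht C.hL (n - 0) vac hv
        (fun π => if 1 ∈ π.parts then 0 else a π) (fun π h1π => if_pos h1π) (by
          intro w hw hs
          rw [← hrew]
          exact hwu w hw hs)
      rw [hrew]
      refine Finset.sum_eq_zero fun π _ => ?_
      rw [← kv21_smul, hr π, kv21_zero]
  rw [e, hT]

/-- Case (i) -/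
theorem sv9_case1 {t : ℂ} {L : ℤ → N →ₗ[ℂ] N} {V : ℤ → Submodule ℂ N} {vac : N}
    (C : sv9_Ctx t L V vac) {n M : ℕ} (hn : M < n) {y : N} (hy : sv9_Pr L V n y)
    (hne : ∀ r : ℕ, 1 ≤ r → r * r ≤ n - M → (M : ℂ) ≠ hrs t r r)
    (ξ : Nat.Partition (n - M) → N) (hξ : ∀ π, ξ π ∈ V M) (k' : N)
    (hk' : k' ∈ KM L V ((M : ℤ) - 1)) (e : y = ∑ π, wd L (pl π) (ξ π) + k') :
    y ∈ KM L V ((M : ℤ) - 1) := by
  have hQ : ∀ k : ℤ, ∀ v ∈ KM L V ((M : ℤ) - 1), L k v ∈ KM L V ((M : ℤ) - 1) :=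
    fun k v hv => KM_stable L C.hL V C.hdeg _ k v hv
  have h1 := rel_zero_mod C.ht L C.hL _ hQ M (n - M) (by
    intro r s hr hs hrs' h2
    have h3 := C.hdiag M r s hr hs h2
    subst h3
    exact hne r hr hrs' h2) ξ (fun π => sv9_L0 C M _ (hξ π)) (by
    intro π k hk
    exact KM_V L V (by omega) _ (C.hdeg k M _ (hξ π))) (by
    intro w hw hs
    exact sv9_hz C hy hQ hk' e w hw (by omega))
  rw [e]
  exact Submodule.add_mem _ (Submodule.sum_mem _ fun π _ => sv9_wd_Q hQ _ _ (h1 π)) hk'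

theorem sv9_SS_add (L : ℤ → N →ₗ[ℂ] N) {n : ℕ} (c : Nat.Partition n → ℂ) (x y : N) :
    SS L c (x + y) = SS L c x + SS L c y := by
  unfold SS
  rw [← Finset.sum_add_distrib]
  refine Finset.sum_congr rfl fun π _ => ?_
  rw [kv21_add, smul_add]

theorem sv9_SS_zero (L : ℤ → N →ₗ[ℂ] N) {n : ℕ} (c : Nat.Partition n → ℂ) :
    SS L c (0 : N) = 0 := by
  unfold SS
  refine Finset.sum_eq_zero fun π _ => ?_
  rw [kv21_zero, smul_zero]

theorem sv9_SS_sum (L : ℤ → N →ₗ[ℂ] N) {n : ℕ} (c : Nat.Partition n → ℂ) {ι : Type}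
    (s : Finset ι) (f : ι → N) : SS L c (∑ i ∈ s, f i) = ∑ i ∈ s, SS L c (f i) := by
  classical
  induction s using Finset.induction_on with
  | empty => rw [Finset.sum_empty, Finset.sum_empty, sv9_SS_zero]
  | insert a s ha ih => rw [Finset.sum_insert ha, Finset.sum_insert ha, sv9_SS_add, ih]

theorem sv9_SS_V {L : ℤ → N →ₗ[ℂ] N} {V : ℤ → Submodule ℂ N}
    (hdeg : ∀ k n : ℤ, ∀ v ∈ V n, L k v ∈ V (n - k)) {m : ℕ} (c : Nat.Partition m → ℂ) (j : ℤ)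
    (x : N) (hx : x ∈ V j) : SS L c x ∈ V (j + m) := by
  unfold SS
  refine Submodule.sum_mem _ fun π _ => Submodule.smul_mem _ _ ?_
  have h1 := sv9_wd_V hdeg (pl π) j x hx
  rw [pl_sum] at h1
  exact h1

theorem sv9_Pr_sum {L : ℤ → N →ₗ[ℂ] N} {V : ℤ → Submodule ℂ N} {n : ℕ} {ι : Type}
    (s : Finset ι) (a : ι → ℂ) (f : ι → N) (hf : ∀ i ∈ s, sv9_Pr L V n (f i)) :
    sv9_Pr L V n (∑ i ∈ s, a i • f i) := by
  refine ⟨Submodule.sum_mem _ fun i hi => Submodule.smul_mem _ _ (hf i hi).hV, ?_, ?_⟩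
  · rw [map_sum]
    refine Finset.sum_eq_zero fun i hi => ?_
    rw [map_smul, (hf i hi).h1, smul_zero]
  · rw [map_sum]
    refine Finset.sum_eq_zero fun i hi => ?_
    rw [map_smul, (hf i hi).h2, smul_zero]

theorem sv9_IsPrim {t : ℂ} {L : ℤ → N →ₗ[ℂ] N} {V : ℤ → Submodule ℂ N} {vac : N}
    (C : sv9_Ctx t L V vac) {n : ℕ} {y : N} (hy : sv9_Pr L V n y) : IsPrim L (n : ℂ) y :=
  ⟨sv9_L0 C n y hy.hV, fun k hk => prim_pos C.hL y hy.h1 hy.h2 k hk⟩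

theorem sv9_SS_Pr {t : ℂ} {L : ℤ → N →ₗ[ℂ] N} {V : ℤ → Submodule ℂ N} {vac : N}
    (C : sv9_Ctx t L V vac) {r M : ℕ} (hr : 1 ≤ r) (hM : (M : ℂ) = hrs t r r)
    {c : Nat.Partition (r * r) → ℂ} (hc : IsS t r r (r * r) c) {z : N} (hz : sv9_Pr L V M z) :
    sv9_Pr L V (M + r * r) (SS L c z) := by
  have h1 := sv9_IsPrim C hz
  rw [hM] at h1
  have h2 := sv5_prim C.ht hr hr hc L C.hL z h1
  refine ⟨?_, ?_, ?_⟩
  · have h3 := sv9_SS_V C.hdeg c M z hz.hV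
    push_cast at h3 ⊢
    exact h3
  · have h3 := h2.2 1 one_pos
    exact_mod_cast h3
  · have h3 := h2.2 2 two_pos
    exact_mod_cast h3

/-- decomposition in weight `M = g r` -/
theorem sv9_dec {t : ℂ} {L : ℤ → N →ₗ[ℂ] N} {V : ℤ → Submodule ℂ N} {vac : N}
    (C : sv9_Ctx t L V vac) {M r : ℕ} (hM : (M : ℂ) = hrs t r r)
    (IH : ∀ x : N, sv9_Pr L V M x → x ∈ KM L V ((M : ℤ) - 1) → x ≠ 0 → sv9_Out t L V M (M - 1) x)
    (v : N) (hv : v ∈ V M) :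
    ∃ x : N, sv9_Pr L V M x ∧ v - x ∈ KM L V ((M : ℤ) - 1) := by
  obtain ⟨x, hx, y, hy, z, hz, h1, h2, e⟩ := C.hdec M (by
    intro x hx h1 h2 hI
    by_contra hne
    obtain ⟨a, ha, b, hb, e⟩ := hI
    have hP : sv9_Pr L V M x := ⟨hx, h1, h2⟩
    have hK : x ∈ KM L V ((M : ℤ) - 1) := by
      rw [e]
      exact KM_I L V M a b ha hb
    obtain ⟨r', h', c, x', hr', hh1, hh2, hg, hn, -⟩ := IH x hP hK hne
    refine ar1 C.ht r' r (by omega) ?_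
    rw [← hg, ← hM, hn]
    push_cast
    ring) v hv
  refine ⟨x, ⟨hx, h1, h2⟩, ?_⟩
  have h3 : v - x = L (-1) y + L (-2) z := by
    rw [e]
    abel
  rw [h3]
  exact KM_I L V M y z hy hz

/-- Case (ii), part 1: reduction modulo `Q` -/
theorem sv9_red {t : ℂ} {L : ℤ → N →ₗ[ℂ] N} {V : ℤ → Submodule ℂ N} {vac : N}
    (C : sv9_Ctx t L V vac) {n M r : ℕ} (hn : M < n) (hr : 1 ≤ r) (hM : (M : ℂ) = hrs t r r)
    (hrn : r * r ≤ n - M)
    (IH : ∀ x : N, sv9_Pr L V M x → x ∈ KM L V ((M : ℤ) - 1) → x ≠ 0 → sv9_Out t L V M (M - 1) x)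
    {y : N} (hy : sv9_Pr L V n y)
    (ξ : Nat.Partition (n - M) → N) (hξ : ∀ π, ξ π ∈ V M) (k' : N)
    (hk' : k' ∈ KM L V ((M : ℤ) - 1)) (e : y = ∑ π, wd L (pl π) (ξ π) + k')
    {c : Nat.Partition (r * r) → ℂ} (hc : IsS t r r (r * r) c) :
    ∃ z : Nat.Partition (n - M - r * r) → N, (∀ ν, sv9_Pr L V M (z ν)) ∧
      y - ∑ ν, wd L (pl ν) (SS L c (z ν)) ∈ KM L V ((M : ℤ) - 1) := by
  have hQ : ∀ k : ℤ, ∀ v ∈ KM L V ((M : ℤ) - 1), L k v ∈ KM L V ((M : ℤ) - 1) :=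
    fun k v hv => KM_stable L C.hL V C.hdeg _ k v hv
  choose x hx hx' using fun π => sv9_dec C hM IH (ξ π) (hξ π)
  have e1 : y = ∑ π, wd L (pl π) (x π) + (∑ π, wd L (pl π) (ξ π - x π) + k') := by
    rw [e, ← add_assoc, ← Finset.sum_add_distrib]
    congr 1
    refine Finset.sum_congr rfl fun π _ => ?_
    rw [← kv21_add]
    congr 1
    abel
  have hk'' : ∑ π, wd L (pl π) (ξ π - x π) + k' ∈ KM L V ((M : ℤ) - 1) :=
    Submodule.add_mem _ (Submodule.sum_mem _ fun π _ => sv9_wd_Q hQ _ _ (hx' π)) hk'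
  obtain ⟨B, hB⟩ := ker_mod C.ht L C.hL _ hQ hr hr hc (n - M) hrn x (by
    intro π
    rw [← hM]
    exact sv9_L0 C M _ (hx π).hV) (by
    intro π k hk
    rw [prim_pos C.hL _ (hx π).h1 (hx π).h2 k hk]
    exact Submodule.zero_mem _) (by
    intro w hw hs
    exact sv9_hz C hy hQ hk'' e1 w hw (by omega))
  refine ⟨fun ν => ∑ π', B ν π' • x π', fun ν => sv9_Pr_sum _ _ _ fun i _ => hx i, ?_⟩
  have h5 := Submodule.add_mem _ hB hk''
  have h6 : y - ∑ ν, wd L (pl ν) (SS L c (∑ π', B ν π' • x π')) =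
      ∑ π, wd L (pl π) (x π) - ∑ ν, wd L (pl ν) (SS L c (∑ π', B ν π' • x π')) +
        (∑ π, wd L (pl π) (ξ π - x π) + k') := by
    rw [e1]
    abel
  rw [h6]
  exact h5

/-- `Out` in weight `M + r r` with the bound `m < M` is impossible -/
theorem sv9_no {t : ℂ} {L : ℤ → N →ₗ[ℂ] N} {V : ℤ → Submodule ℂ N} {vac : N}
    (C : sv9_Ctx t L V vac) {M r m : ℕ} (hM : (M : ℂ) = hrs t r r) (hm : m < M) (u : N)
    (h : sv9_Out t L V (M + r * r) m u) : False := by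
  obtain ⟨r', h', c, x', hr', hh1, hh2, hg, hn, -⟩ := h
  have h1 : r' = r := by
    refine ar2 C.ht r' r ?_
    rw [← hg, ← hM]
    have h2 : ((M + r * r : ℕ) : ℂ) = ((h' + r' * r' : ℕ) : ℂ) := by rw [hn]
    push_cast at h2
    linear_combination -h2
  subst h1
  omega

/-- the step -/
theorem sv9_step {t : ℂ} {L : ℤ → N →ₗ[ℂ] N} {V : ℤ → Submodule ℂ N} {vac : N}
    (C : sv9_Ctx t L V vac) (n m : ℕ) (hmn : m + 1 < n)
    (IHn : ∀ n' < n, ∀ m' < n', ∀ x : N, sv9_Pr L V n' x → x ∈ KM L V (m' : ℤ) → x ≠ 0 →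
      sv9_Out t L V n' m' x)
    (IHm : ∀ x : N, sv9_Pr L V n x → x ∈ KM L V (m : ℤ) → x ≠ 0 → sv9_Out t L V n m x)
    (y : N) (hy : sv9_Pr L V n y) (hK : y ∈ KM L V ((m + 1 : ℕ) : ℤ)) (hne : y ≠ 0) :
    sv9_Out t L V n (m + 1) y := by
  obtain ⟨M, hMdef⟩ : ∃ M, M = m + 1 := ⟨_, rfl⟩
  rw [← hMdef] at hmn hK ⊢
  have hcast : (M : ℤ) - 1 = (m : ℤ) := by rw [hMdef]; push_cast; ring
  obtain ⟨ξ, k', hξ, hk', hk'V, e⟩ := KM_decomp L C.hL V C.hdeg C.hL0 M n hmn.le y hK hy.hV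
  have hQ : ∀ k : ℤ, ∀ v ∈ KM L V ((M : ℤ) - 1), L k v ∈ KM L V ((M : ℤ) - 1) :=
    fun k v hv => KM_stable L C.hL V C.hdeg _ k v hv
  by_cases hcase : ∀ r : ℕ, 1 ≤ r → r * r ≤ n - M → (M : ℂ) ≠ hrs t r r
  · have h1 := sv9_case1 C hmn hy hcase ξ hξ k' hk' e
    rw [hcast] at h1
    exact sv9_Out_mono (IHm y hy h1 hne) (by omega)
  push Not at hcase
  obtain ⟨r, hr1, hrn, hM⟩ := hcase
  have ht0 : t ≠ 0 := kv20_ne C.ht
  have hr2 : 2 ≤ r := by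
    by_contra hlt
    have hr : r = 1 := by omega
    subst hr
    rw [sv9_g ht0] at hM
    have h2 : (M : ℂ) = 0 := by rw [hM]; simp
    have h3 : M = 0 := by exact_mod_cast h2
    omega
  obtain ⟨c, hc⟩ := sv5_exists C.ht hr1 hr1
  have IH1 : ∀ x : N, sv9_Pr L V M x → x ∈ KM L V ((M : ℤ) - 1) → x ≠ 0 →
      sv9_Out t L V M (M - 1) x := by
    intro x hx hxK hx0
    refine IHn M hmn (M - 1) (by omega) x hx ?_ hx0
    have h2 : ((M - 1 : ℕ) : ℤ) = (M : ℤ) - 1 := by omega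
    rw [h2]
    exact hxK
  obtain ⟨z, hz, hzK⟩ := sv9_red C hmn hr1 hM hrn IH1 hy ξ hξ k' hk' e hc
  rcases Nat.eq_or_lt_of_le hrn with hEq | hLt
  · -- `n = M + r r`
    have hn : n = M + r * r := by omega
    have hnil : ∀ ν : Nat.Partition (n - M - r * r), pl ν = [] := by
      intro ν
      rw [List.eq_nil_iff_forall_not_mem]
      intro b hb
      have h2 := pl_pos ν b hb
      have h3 : (pl ν).sum = n - M - r * r := pl_sum ν
      have h4 := List.single_le_sum (fun x _ => Nat.zero_le x) b hb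
      omega
    have hPz : sv9_Pr L V M (∑ ν, z ν) := by
      have h2 := sv9_Pr_sum (L := L) (V := V) (n := M) Finset.univ
        (fun _ : Nat.Partition (n - M - r * r) => (1 : ℂ)) z fun i _ => hz i
      simpa using h2
    have hsum : ∑ ν, wd L (pl ν) (SS L c (z ν)) = SS L c (∑ ν, z ν) := by
      rw [sv9_SS_sum]
      refine Finset.sum_congr rfl fun ν _ => ?_
      rw [hnil ν]
      rfl
    rw [hsum, hcast] at hzK
    have hPS := sv9_SS_Pr C hr1 hM hc hPz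
    rw [← hn] at hPS
    have hPd : sv9_Pr L V n (y - SS L c (∑ ν, z ν)) := by
      refine ⟨Submodule.sub_mem _ hy.hV hPS.hV, ?_, ?_⟩
      · rw [map_sub, hy.h1, hPS.h1, sub_zero]
      · rw [map_sub, hy.h2, hPS.h2, sub_zero]
    have hz0 : y - SS L c (∑ ν, z ν) = 0 := by
      by_contra h0
      have h1 := IHm _ hPd hzK h0
      obtain ⟨u, hu⟩ : ∃ u, u = y - SS L c (∑ ν, z ν) := ⟨_, rfl⟩
      rw [← hu] at h1
      rw [hn] at h1
      exact sv9_no C hM (by omega) _ h1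
    refine ⟨r, M, c, ∑ ν, z ν, hr2, by omega, le_refl _, hM, hn, hc, hPz.hV, hPz.h1, hPz.h2, ?_⟩
    exact sub_eq_zero.mp hz0
  · -- `n > M + r r`
    have hPy : ∀ ν, sv9_Pr L V (M + r * r) (SS L c (z ν)) := fun ν => sv9_SS_Pr C hr1 hM hc (hz ν)
    obtain ⟨κ, hκ⟩ := exists_kappa ht0 ((M + r * r : ℕ) : ℂ)
    have hwu : ∀ w : List ℕ, Pw w → w.sum = n - M - r * r →
        wu L w (∑ ν, wd L (pl ν) (SS L c (z ν))) = 0 := by
      intro w hw hs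
      have h1 : wu L w (∑ ν, wd L (pl ν) (SS L c (z ν))) ∈ KM L V ((M : ℤ) - 1) :=
        sv9_hz C hy hQ hzK (by abel) w hw (by omega)
      have h2 : wu L w (∑ ν, wd L (pl ν) (SS L c (z ν))) =
          ∑ ν, constantCoeff (wu (Lk t κ) w (wR t κ (pl ν) 1)) • SS L c (z ν) := by
        rw [wu_sum]
        refine Finset.sum_congr rfl fun ν _ => ?_
        refine univ ht0 κ C.hL _ ?_ (fun k hk => prim_pos C.hL _ (hPy ν).h1 (hPy ν).h2 k hk)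
          _ _ (pl_pos ν) ?_
        · rw [hκ]
          exact sv9_L0 C _ _ (hPy ν).hV
        · rw [pl_sum, hs]
      have h3 : sv9_Pr L V (M + r * r) (wu L w (∑ ν, wd L (pl ν) (SS L c (z ν)))) := by
        rw [h2]
        exact sv9_Pr_sum _ _ _ fun i _ => hPy i
      by_contra h0
      rw [hcast] at h1
      exact sv9_no C hM (by omega) _ (IHn (M + r * r) (by omega) m (by omega) _ h3 h1 h0)
    have h4 := rel_zero C.ht C.hL (M + r * r) (n - M - r * r) (by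
      intro r' s' hr' hs' _ h5
      have h6 := C.hdiag _ r' s' hr' hs' h5
      subst h6
      refine ar1 C.ht r r' hr1 ?_
      rw [← h5, ← hM]
      push_cast
      ring) (fun ν => SS L c (z ν)) (fun ν => sv9_L0 C _ _ (hPy ν).hV)
      (fun ν k hk => prim_pos C.hL _ (hPy ν).h1 (hPy ν).h2 k hk) hwu
    have h5 : ∑ ν, wd L (pl ν) (SS L c (z ν)) = 0 := by
      refine Finset.sum_eq_zero fun ν _ => ?_
      have h6 : SS L c (z ν) = 0 := h4 ν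
      rw [h6, kv21_zero]
    rw [h5, sub_zero, hcast] at hzK
    exact sv9_Out_mono (IHm y hy hzK hne) (by omega)

theorem sv9_B {t : ℂ} {L : ℤ → N →ₗ[ℂ] N} {V : ℤ → Submodule ℂ N} {vac : N}
    (C : sv9_Ctx t L V vac) (n : ℕ) : ∀ m < n, ∀ x : N, sv9_Pr L V n x → x ∈ KM L V (m : ℤ) →
      x ≠ 0 → sv9_Out t L V n m x := by
  induction n using Nat.strong_induction_on with
  | _ n IHn =>
  intro m
  induction m with
  | zero =>
    intro hn x hx hK hne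
    exact absurd (sv9_zero C hn hx hK) hne
  | succ m IHm =>
    intro hn x hx hK hne
    exact sv9_step C n m hn IHn (fun x hx hK hne => IHm (by omega) x hx hK hne) x hx hK hne

end

theorem sv9_main {t : ℂ} (ht : Irr t) {N : Type} [AddCommGroup N] [Module ℂ N]
    (L : ℤ → N →ₗ[ℂ] N) (hL : IsVir (cc t) L) (V : ℤ → Submodule ℂ N)
    (hdeg : ∀ k n : ℤ, ∀ v ∈ V n, L k v ∈ V (n - k))
    (hL0 : ∀ n : ℤ, ∀ v ∈ V n, L 0 v = (n : ℂ) • v)
    (hneg : ∀ n < 0, V n = ⊥) (vac : N) (h0 : ∀ v ∈ V 0, ∃ a : ℂ, v = a • vac)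
    (hvac : L (-1) vac = 0)
    (hdec : ∀ n : ℤ, (∀ x ∈ V n, L 1 x = 0 → L 2 x = 0 →
        (∃ y ∈ V (n - 1), ∃ z ∈ V (n - 2), x = L (-1) y + L (-2) z) → x = 0) →
      ∀ v ∈ V n, ∃ x ∈ V n, ∃ y ∈ V (n - 1), ∃ z ∈ V (n - 2),
        L 1 x = 0 ∧ L 2 x = 0 ∧ v = x + L (-1) y + L (-2) z)
    (hdiag : ∀ h r s : ℕ, 1 ≤ r → 1 ≤ s → (h : ℂ) = hrs t r s → r = s)
    (n : ℤ) (y : N) (hy : y ∈ V n) (h1 : L 1 y = 0) (h2 : L 2 y = 0)
    (hI : ∃ a ∈ V (n - 1), ∃ b ∈ V (n - 2), y = L (-1) a + L (-2) b) (hne : y ≠ 0) :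
    ∃ (r h : ℕ) (c : Nat.Partition (r * r) → ℂ) (x : N), 2 ≤ r ∧ 1 ≤ h ∧
      (h : ℂ) = hrs t r r ∧ n = (h : ℤ) + r * r ∧ IsS t r r (r * r) c ∧ x ∈ V h ∧
      L 1 x = 0 ∧ L 2 x = 0 ∧ y = SS L c x := by
  have C : sv9_Ctx t L V vac := ⟨ht, hL, hdeg, hL0, hneg, h0, hvac, hdec, hdiag⟩
  obtain ⟨a, ha, b, hb, e⟩ := hI
  have hn : 1 ≤ n := by
    by_contra hlt
    rw [hneg _ (by omega), Submodule.mem_bot] at ha hb
    apply hne
    rw [e, ha, hb, map_zero, map_zero, add_zero]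
  obtain ⟨k, hk⟩ : ∃ k : ℕ, n = (k : ℤ) := ⟨n.toNat, by omega⟩
  subst hk
  have hk1 : 1 ≤ k := by omega
  have hK : y ∈ KM L V ((k - 1 : ℕ) : ℤ) := by
    have h3 : ((k - 1 : ℕ) : ℤ) = (k : ℤ) - 1 := by omega
    rw [h3, e]
    exact KM_I L V k a b ha hb
  obtain ⟨r, h, c, x, q1, q2, q3, q4, q5, q6, q7, q8, q9, q10⟩ :=
    sv9_B C k (k - 1) (by omega) y ⟨hy, h1, h2⟩ hK hne
  refine ⟨r, h, c, x, q1, q2, q4, ?_, q6, q7, q8, q9, q10⟩
  rw [q5]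
  push_cast
  ring

end

end WPQ.SV
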