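import Pool.Agent.WPQ.TLD

/-! [WPQ-TL0] Full Q1 of MP_c42e9d_al, block TL.

Plan.  (1) `b ∈ Wk ε`: `b ∈ W A p`, supported in charge `0` (definition of `Wk`, `va4_mem_supp`), and `Ej b = 0`
(`va3_Ej`, `mode_single`, as in the proof of `Wk_nondeg`, WKM.lean).  `mode_Wn` gives the weight, `mode_charge` the
charge, `Ej_mode` (VA3) says that `Ej` commutes with `mode ε b k` when `Ej b = 0`, hence so do its powers.
(2) `LS zero (-1)`: `W_LS`, `LS_Vn`, `LS_comp` (VA4, charges), `LS_Ej` (commutes with `Ej`; see `as1_Ej_comm` in AS1).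
(3) `a ∈ Wn h` supported in `{-lam}`: `Vn_comp`: `a (-lam) = 0` or `d + wtExp (-lam) = h`; `wtExp_pos hA hp1 lam dom ne`
gives `1 ≤ wtExp (-lam)`. -/

namespace WPQ

open MvPolynomial AF

noncomputable section

/-- a power of an operator commutes with an operator -/
theorem tl0_pow {N : Type} [AddCommGroup N] [Module ℂ N] (E T : N →ₗ[ℂ] N)
    (h : ∀ v, E (T v) = T (E v)) (n : ℕ) (v : N) : (E ^ n) (T v) = T ((E ^ n) v) := by
  induction n with
  | zero => rfl
  | succ n ih =>
    rw [pow_succ', Module.End.mul_apply, Module.End.mul_apply, ih, h]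

theorem tl0 : st_TL0 := by
  intro ι _ _ A hA p hp ε lam
  have hp1 : 1 ≤ p := by omega
  refine ⟨fun m h k b a hb hbm ha => ?_, fun h a ha => ?_, fun hne hdom h a ha hh => ?_⟩
  · rw [mem_MNU] at ha ⊢
    obtain ⟨h1, h2, h3⟩ := ha
    refine ⟨mode_Wn hA hp ε m h k b a ⟨hb.1, hbm⟩ h1, ?_, fun j => ?_⟩
    · have hb0 : b ∈ Finsupp.supported (Fock ι) ℂ {0} :=
        va4_mem_supp 0 b fun δ hδ => hb.2.1 δ hδ
      have h4 := mode_charge hA hp1 ε 0 (-lam) k b a hb0 h2
      rwa [zero_add] at h4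
    · have hE : Ej ε (Shift.zero A p) j b = 0 := by
        rw [va3_Ej hA hp1, mode_single hA hp1]
        exact hb.2.2 j
      have hcomm : ∀ v, Ej ε (Shift.zero A p) j (mode ε b k v) =
          mode ε b k (Ej ε (Shift.zero A p) j v) := by
        intro v
        have h4 := congrArg (fun F => F v) (Ej_mode hA hp1 ε j b k)
        simp only [LinearMap.sub_apply, LinearMap.comp_apply] at h4
        rwa [hE, va3_mode_zero hA hp1, LinearMap.zero_apply, sub_eq_zero] at h4
      rw [tl0_pow _ _ hcomm, h3 j, map_zero]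
  · rw [mem_MNU] at ha ⊢
    obtain ⟨h1, h2, h3⟩ := ha
    refine ⟨⟨W_LS hA hp1 (-1) a h1.1, ?_⟩, ?_, fun j => ?_⟩
    · have h4 := LS_Vn (A := A) (p := p) (-1) h a h1.2
      rwa [sub_neg_eq_add] at h4
    · refine va4_mem_supp _ _ fun δ hδ => ?_
      have h4 := LS_comp (A := A) (p := p) (-1) a δ
      rw [va4_supp _ a h2 δ hδ, Finsupp.single_zero, map_zero] at h4
      exact Finsupp.single_eq_zero.1 h4
    · rw [tl0_pow _ _ (as1_Ej_comm hA hp1 ε j (-1)), h3 j, map_zero]
  · rw [mem_MNU] at ha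
    obtain ⟨h1, h2, h3⟩ := ha
    refine Finsupp.ext fun δ => ?_
    rw [Finsupp.zero_apply]
    by_cases hδ : δ = -lam
    · rw [hδ]
      rcases Vn_comp h a h1.2 (-lam) with h4 | ⟨d, _, hd⟩
      · exact h4
      · exfalso
        have h5 := wtExp_pos hA hp1 lam hdom hne
        omega
    · exact va4_supp _ a h2 δ hδ

end

end WPQ
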