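import Pool.Agent.WPQ.Ops
import Pool.Agent.WPQ.AFD

/-! WPQ: definitions for brackets with the long screenings, words, and the pairing `beta`. -/

namespace WPQ

open MvPolynomial AF

noncomputable section

variable {ι : Type} [Fintype ι] [DecidableEq ι] {A : Matrix ι ι ℤ} {p : ℕ}

/-- Iterated brackets of `e^{-λ}(z)` with the long screenings, on `V_{L+s}`. -/
def cS (ε : Cocycle A p) (σ : Shift A p) (lam : ι → ℤ) : List ι → ℤ → VL ι →ₗ[ℂ] VL ι
  | [] => expS ε σ (-lam)
  | j :: js => br (Ej ε σ j) (Ej ε σ j) (cS ε σ lam js)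

/-- Products of long screenings applied to a vector. -/
def Ew (ε : Cocycle A p) (σ : Shift A p) (js : List ι) (v : VL ι) : VL ι :=
  js.foldr (fun j w => Ej ε σ j w) v

/-- Words in the operators `E_j` and `e^{-λ}_n` (`λ` dominant) applied to the vacuum. -/
inductive IsWord (ε : Cocycle A p) : VL ι → Prop
  | vac : IsWord ε vac
  | ej (j : ι) (w : VL ι) (hw : IsWord ε w) : IsWord ε (Ej ε (Shift.zero A p) j w)
  | ex (lam : ι → ℤ) (hl : Dom A lam) (n : ℤ) (w : VL ι) (hw : IsWord ε w) :
      IsWord ε (expS ε (Shift.zero A p) (-lam) n w)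

/-- The span of the words. -/
def UU (ε : Cocycle A p) : Submodule ℂ (VL ι) := Submodule.span ℂ {w | IsWord ε w}

/-- The pairing of words with `W(p)_Q` (`τ` is the shift by `2a`). -/
def beta (ε : Cocycle A p) (τ : Shift A p) (t v : VL ι) : ℂ := pairV ε (gX ε τ 0 (-1) t) v

/-- The product of signs of `E_j^n` on the component `η`. -/
def es (ε : Cocycle A p) (j : ι) (η : ι → ℤ) (n : ℕ) : ℂ :=
  ∏ i ∈ Finset.range n, ((ε.ε (rt j) (η + i • rt j) : ℤ) : ℂ)

end

end WPQ
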