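import Pool.Agent.WPQ.RR2
import Pool.Agent.WPQ.RF1
import Pool.Agent.WPQ.VP2
import Pool.Agent.WPQ.DU1

/-! [WPQ-VR1] `E_j : F_0 → F_{α_j}` is surjective.

1. `vr1_MN`: the constant `MN b p (p (b-1) + 1) 1 = (-1)^b Cst b p`.
2. `vr1_nilp`: `(ad E_j)^(m+1) e^{-λ} = 0` on every module `V_{L+s}`.
3. `vr1_pow_ne_zero`: `E_j^n` is injective on charges with `⟨b_j, ·⟩ = -p n + p - 2`.
4. `vr1_inj`: `vop (b_j) 1` is injective.
5. `vr1_surj`: `vop (b_j) (-1)` maps degree `m + 1` onto degree `m`. -/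

namespace WPQ

open MvPolynomial AF

noncomputable section

variable {ι : Type} [Fintype ι] [DecidableEq ι] {A : Matrix ι ι ℤ} {p : ℕ}

namespace RC

theorem vr1_ee_one (n : ℕ) (hn : 2 ≤ n) : ee 1 n = 0 := by
  have h := rc3_ee 1 n
  rw [Nat.cast_one] at h
  rw [h, Nat.choose_eq_zero_of_lt (by omega)]
  simp

theorem vr1_ee_one_one : ee 1 1 = -1 := by
  have h := rc3_ee 1 1
  rw [Nat.cast_one] at h
  rw [h]
  simp

theorem vr1_eeZ_zero (n : ℤ) (h : n < 0 ∨ 2 ≤ n) : eeZ 1 n = 0 := by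
  unfold eeZ
  split_ifs with h0
  · rfl
  · rcases h with h | h
    · exact absurd h h0
    · exact vr1_ee_one _ (by omega)

/-- The value at `k = 1`. -/
theorem vr1_MN (b p : ℕ) : MN b p ((p : ℤ) * ((b : ℤ) - 1) + 1) 1 = (-1) ^ b * Cst b p := by
  unfold MN Cst
  set u0 : Fin b →₀ ℕ := Finsupp.equivFunOnFinite.symm fun _ : Fin b => p * (b - 1) with hu0
  rw [Finset.sum_eq_single u0]
  · have h1 : ∀ r : Fin b, eeZ (1 : ℂ) ((p : ℤ) * ((b : ℤ) - 1) + 1 - (u0 r : ℕ)) = -1 := by
      intro r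
      have hb : 1 ≤ b := Nat.succ_le_of_lt (Fin.pos r)
      have h2 : (p : ℤ) * ((b : ℤ) - 1) + 1 - (u0 r : ℕ) = 1 := by
        have h3 : u0 r = p * (b - 1) := rfl
        rw [h3]
        push_cast [Nat.cast_sub hb]
        ring
      rw [h2]
      unfold eeZ
      rw [if_neg (by norm_num)]
      exact vr1_ee_one_one
    rw [Finset.prod_congr rfl fun r _ => h1 r, Finset.prod_const, Finset.card_univ,
      Fintype.card_fin]
    ring
  · intro u hu hne
    have hdeg : ∑ r, u r = p * b * (b - 1) := by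
      have h1 := PP_homog b p (mem_support_iff.1 hu)
      rw [← h1, Finsupp.weight_apply, Finsupp.sum_fintype]
      · simp
      · simp
    by_cases hall : ∀ r : Fin b, p * (b - 1) ≤ u r
    · exfalso
      apply hne
      ext r
      exact rc3_u b p u hdeg hall r
    · push Not at hall
      obtain ⟨r, hr⟩ := hall
      have hb : 1 ≤ b := Nat.succ_le_of_lt (Fin.pos r)
      have h1 : eeZ (1 : ℂ) ((p : ℤ) * ((b : ℤ) - 1) + 1 - (u r : ℕ)) = 0 := by
        apply vr1_eeZ_zero
        right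
        have h3 : ((u r : ℕ) : ℤ) < ((p * (b - 1) : ℕ) : ℤ) := by exact_mod_cast hr
        push_cast [Nat.cast_sub hb] at h3
        linarith
      rw [Finset.prod_eq_zero (Finset.mem_univ r) h1, mul_zero]
  · intro hu
    rw [notMem_support_iff.1 hu, zero_mul]

end RC

theorem vr1_base (hA : IsADE A) (j : ι) (n : ℕ) :
    EN A p j (-(p * n : ℤ) + p - 2) n 1 ≠ 0 := by
  intro h
  have h1 := ev_EN_one A hA p j (-(p * n : ℤ) + p - 2) n (fun _ => 1)
  rw [h, map_zero] at h1
  have h2 : (-1 - (-(p * n : ℤ) + p - 2) : ℤ) = (p : ℤ) * ((n : ℤ) - 1) + 1 := by ring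
  rw [h2, RC.vr1_MN] at h1
  exact mul_ne_zero (pow_ne_zero _ (by norm_num)) (RC.Cst_ne_zero n p) h1.symm

/-- Locality of iterated brackets with the intertwining field. -/
theorem vr1_gX (hA : IsADE A) (ε : Cocycle A p) (ξ : Shift A p) (β : ι → ℤ) (lam : ι → ℤ)
    (j : ι) (m : ℕ) :
    ∃ N : ℕ, LocP N (gX ε ξ β)
      ((br (Ej ε (Shift.zero A p) j) (Ej ε (Shift.zero A p) j))^[m]
        (expS ε (Shift.zero A p) (-lam)))
      ((br (Ej ε ξ j) (Ej ε ξ j))^[m] (expS ε ξ (-lam))) := by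
  have h := cS_gX hA ε ξ β lam (List.replicate m j)
  have e : ∀ (σ : Shift A p) (m : ℕ), cS ε σ lam (List.replicate m j) =
      (br (Ej ε σ j) (Ej ε σ j))^[m] (expS ε σ (-lam)) := by
    intro σ m
    induction m with
    | zero => rfl
    | succ m ih =>
      rw [List.replicate_succ, Function.iterate_succ_apply', ← ih]
      rfl
  rw [e, e] at h
  exact h

/-- `V_{L+s}` is generated by `1`. -/
theorem vr1_generated (ε : Cocycle A p) (σ : Shift A p) (W' : Submodule ℂ (VL ι))
    (hv : Finsupp.single 0 1 ∈ W')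
    (he : ∀ (γ : ι → ℤ) (m : ℤ), ∀ w ∈ W', expS ε σ γ m w ∈ W')
    (hh : ∀ (h : ι → ℂ) (m : ℤ), ∀ w ∈ W', hS σ h m w ∈ W') : W' = ⊤ := by
  have h1 : ∀ (γ : ι → ℤ) (f : Fock ι), Finsupp.single γ f ∈ W' := by
    intro γ f
    induction f using MvPolynomial.induction_on with
    | C c =>
      have h2 := he γ (-1 - σ.dot γ) _ hv
      have e1 : -(-1 - σ.dot γ) - 1 - σ.dot γ - formZ A p γ 0 = 0 := by
        rw [fl3_formZ_zero]
        ring
      rw [expS_single, e1, vop_one, Cocycle.zero_right, add_zero] at h2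
      have e2 : expCoeffZ (toC γ) 0 = 1 := by
        have := expCoeffZ_nat (toC γ) 0
        rw [expCoeff_zero] at this
        exact_mod_cast this
      rw [e2] at h2
      have h3 := W'.smul_mem c h2
      rw [Finsupp.smul_single] at h3
      have e3 : c • (((1 : ℤˣ) : ℤ) : ℂ) • (1 : Fock ι) = C c := by
        rw [smul_eq_C_mul]
        simp
      rw [e3] at h3
      exact h3
    | add f g hf hg' =>
      rw [Finsupp.single_add]
      exact W'.add_mem hf hg'
    | mul_X f x hf =>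
      obtain ⟨i, k⟩ := x
      have h2 := hh (bb i) (-(k + 1 : ℤ)) _ hf
      rw [fl2_hS_single, heis, if_pos (by omega)] at h2
      have h4 : (-(-(k + 1 : ℤ)) - 1).toNat = k := by omega
      have h5 : osc (bb i) k = X (i, k) := by
        rw [osc, Finset.sum_eq_single i]
        · simp [bb]
        · intro j _ hj
          simp [bb, hj]
        · intro hi
          exact absurd (Finset.mem_univ i) hi
      rw [h4, h5, LinearMap.smul_apply, LinearMap.mulLeft_apply, ← Finsupp.smul_single] at h2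
      have h6 : (-((-(k + 1 : ℤ) : ℤ) : ℂ)) ≠ 0 := by
        push_cast
        rw [neg_neg]
        exact Nat.cast_add_one_ne_zero k
      have h7 := W'.smul_mem (-((-(k + 1 : ℤ) : ℤ) : ℂ))⁻¹ h2
      rw [smul_smul, inv_mul_cancel₀ h6, one_smul, mul_comm] at h7
      exact h7
  rw [eq_top_iff]
  intro w _
  induction w using Finsupp.induction_linear with
  | zero => exact W'.zero_mem
  | add f g hf hg' => exact W'.add_mem (hf trivial) (hg' trivial)
  | single γ f => exact h1 γ f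

theorem vr1_nilp (hA : IsADE A) (hp : 1 ≤ p) (ε : Cocycle A p) (σ : Shift A p) (j : ι)
    (lam : ι → ℤ) (m : ℕ) (hm : pr A j lam = m) :
    (br (Ej ε σ j) (Ej ε σ j))^[m + 1] (expS ε σ (-lam)) = 0 := by
  set B := (br (Ej ε σ j) (Ej ε σ j))^[m + 1] (expS ε σ (-lam)) with hB
  have e : ∀ m : ℕ, cS ε σ lam (List.replicate m j) =
      (br (Ej ε σ j) (Ej ε σ j))^[m] (expS ε σ (-lam)) := by
    intro m
    induction m with
    | zero => rfl
    | succ m ih =>
      rw [List.replicate_succ, Function.iterate_succ_apply', ← ih]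
      rfl
  have hBc : B = cS ε σ lam (List.replicate (m + 1) j) := by rw [hB, e]
  -- the generator is killed
  have h1 : ∀ n : ℤ, B n (Finsupp.single 0 1) = 0 := by
    obtain ⟨N, hN⟩ := vr1_gX hA ε σ 0 lam j (m + 1)
    rw [nilp_exp hA hp ε j lam m hm, ← hB] at hN
    intro n
    have h2 := congrArg (fun f : VL ι →ₗ[ℂ] VL ι => f vac) (hN (-1) (n - N))
    simp only [LinearMap.sum_apply, LinearMap.smul_apply, LinearMap.sub_apply,
      LinearMap.comp_apply, LinearMap.zero_apply] at h2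
    rw [Finset.sum_eq_single N] at h2
    · have e1 : (-1 : ℤ) + N - (N : ℕ) = -1 := by ring
      have e2 : n - N + (N : ℕ) = n := by ring
      rw [e1, e2, gX_creation, Pi.zero_apply, LinearMap.zero_apply, map_zero, zero_sub, smul_neg,
        neg_eq_zero, Nat.choose_self, Nat.cast_one, mul_one, smul_eq_zero] at h2
      rcases h2 with h2 | h2
      · exact absurd h2 (pow_ne_zero _ (by norm_num))
      · exact h2
    · intro k hk hne
      have hk1 : k < N := by
        have := Finset.mem_range.1 hk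
        omega
      rw [gX_vac_nonneg ε σ 0 _ (by omega), Pi.zero_apply, LinearMap.zero_apply, map_zero, map_zero,
        sub_zero, smul_zero]
    · intro h
      exact absurd (Finset.mem_range.2 (Nat.lt_succ_self N)) h
  have h3 := vr1_generated ε σ (af6_ker B) h1 (by
      intro γ k w hw n
      obtain ⟨N, hN⟩ := cS_local_expS hA ε σ lam (List.replicate (m + 1) j) γ
      rw [← hBc] at hN
      exact af6_stable (isFld_expS ε σ γ) hN w hw k n) (by
      intro h k w hw n
      obtain ⟨N, hN⟩ := cS_local_hS hA ε σ lam (List.replicate (m + 1) j) h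
      rw [← hBc] at hN
      exact af6_stable (isFld_hS σ h) hN w hw k n)
  funext n
  refine LinearMap.ext fun w => ?_
  have h4 : w ∈ af6_ker B := by
    rw [h3]
    exact Submodule.mem_top
  exact h4 n

/-- `E_j^n` is injective on charges with `⟨b_j, ·⟩ = -p n + p - 2`. -/
theorem vr1_pow_ne_zero (hA : IsADE A) (hp : 1 ≤ p) (ε : Cocycle A p) (σ : Shift A p) (j : ι)
    (d : ℕ) (n : ℕ) (γ : ι → ℤ) (hn : σ.κ j + p * pr A j γ = -(p * n : ℤ) + p - 2) (f : Fock ι)
    (hf : FH f d) (h0 : f ≠ 0) : (Ej ε σ j ^ n) (Finsupp.single γ f) ≠ 0 := by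
  induction d using Nat.strong_induction_on generalizing n γ f with
  | _ d ih =>
  rcases Nat.eq_zero_or_pos d with hd | hd
  · subst hd
    obtain ⟨c, rfl⟩ := rr2_const f hf
    have hc : c ≠ 0 := by
      rintro rfl
      exact h0 (map_zero C)
    rw [Ej_pow_single hA ε σ j γ n, Ne, Finsupp.single_eq_zero, hn]
    have e1 : (C c : Fock ι) = c • (1 : Fock ι) := by
      rw [smul_eq_C_mul, mul_one]
    rw [e1, map_smul]
    exact smul_ne_zero (es_ne_zero ε j γ n) (smul_ne_zero hc (vr1_base hA j n))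
  · obtain ⟨lam, q, hlam, hq1, hqd, hS, hv⟩ := density_step hA hp f d hf hd h0
    obtain ⟨m, hm⟩ := Int.eq_ofNat_of_zero_le (hlam j)
    intro hzero
    have hf' : FH (vop A p (toC (-lam)) (-(q : ℤ)) f) (d - q) :=
      vop_homog A p _ _ f d (d - q) hf (by omega)
    have hne : vop A p (toC (-lam)) (-(q : ℤ)) f ≠ 0 := by
      rw [hv]; exact hS
    have hidx : -((q : ℤ) - 1 - σ.dot (-lam) - formZ A p (-lam) γ) - 1 - σ.dot (-lam) -
        formZ A p (-lam) γ = -(q : ℤ) := by
      ring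
    have hs := expS_single ε σ (-lam) γ ((q : ℤ) - 1 - σ.dot (-lam) - formZ A p (-lam) γ) f
    rw [hidx] at hs
    have hε : ((ε.ε (-lam) γ : ℤ) : ℂ) ≠ 0 := by
      exact_mod_cast (ε.ε (-lam) γ).ne_zero
    have hpr : σ.κ j + p * pr A j (-lam + γ) = -(p * (n + m : ℕ) : ℤ) + p - 2 := by
      rw [fl6_pr_add, fl6_pr_neg, hm]
      push_cast
      linarith
    have hIH := ih (d - q) (by omega) (n + m) (-lam + γ) hpr
      (((ε.ε (-lam) γ : ℤ) : ℂ) • vop A p (toC (-lam)) (-(q : ℤ)) f)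
      (by
        rw [smul_eq_C_mul]
        have := (isWeightedHomogeneous_C (wF (ι := ι)) (((ε.ε (-lam) γ : ℤ) : ℂ))).mul hf'
        rwa [zero_add] at this)
      (smul_ne_zero hε hne)
    apply hIH
    rw [← hs, pow_br]
    refine Finset.sum_eq_zero fun i hi => ?_
    by_cases hin : n ≤ i
    · have h1 : (Ej ε σ j ^ i) (Finsupp.single γ f) = 0 := by
        obtain ⟨k, rfl⟩ := Nat.exists_eq_add_of_le hin
        rw [add_comm, pow_add, Module.End.mul_apply, hzero, map_zero]
      rw [h1, map_zero, smul_zero]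
    · have h2 : (br (Ej ε σ j) (Ej ε σ j))^[n + m - i]
          (expS ε σ (-lam)) = 0 := by
        have h3 : n + m - i = (n - i - 1) + (m + 1) := by
          rw [not_le] at hin
          omega
        rw [h3, Function.iterate_add_apply, vr1_nilp hA hp ε σ j lam m hm]
        exact rr2_iter _ _ _
      rw [h2]
      simp


theorem vr1_inj (hA : IsADE A) (hp : 1 ≤ p) (ε : Cocycle A p) (j : ι) (d : ℕ) (f : Fock ι)
    (hf : FH f d) (h : vop A p (bb j) 1 f = 0) : f = 0 := by
  by_contra h0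
  obtain ⟨ξ, hξ⟩ := exists_shift (p := p) hA hp (fun _ => -2)
  have hκ : ξ.κ j = -2 := by rw [hξ]
  have h1 := vr1_pow_ne_zero hA hp ε ξ j d 1 0 (by
    rw [hκ, fl6_pr_zero]
    push_cast
    ring) f hf h0
  apply h1
  rw [pow_one, Ej_single hA, hκ, fl6_pr_zero]
  have e : (-1 - (-2 + (p : ℤ) * 0) : ℤ) = 1 := by ring
  rw [e, h, smul_zero, Finsupp.single_zero]

/-- The bilinear pairing. -/
def vr1_B (A : Matrix ι ι ℤ) (p : ℕ) : Fock ι →ₗ[ℂ] Fock ι →ₗ[ℂ] ℂ :=
  LinearMap.mk₂ ℂ (pairF A p) (pairF_add_left A p) (fun c f g => pairF_smul_left A p c f g)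
    (pairF_add_right A p) (fun c f g => pairF_smul_right A p c f g)

theorem vr1_zero (hA : IsADE A) (hp : 1 ≤ p) (f : Fock ι) (d : ℕ) (hf : FH f d)
    (h : ∀ g, FH g d → pairF A p f g = 0) : f = 0 := by
  apply pairF_nondeg_left A hA p hp f
  intro g
  have h1 : ∀ g : Fock ι, vr1_B A p f g = 0 := by
    intro g
    rw [g.as_sum, map_sum]
    refine Finset.sum_eq_zero fun u _ => ?_
    by_cases hu : Finsupp.weight (wF (ι := ι)) u = d
    · exact h _ (isWeightedHomogeneous_monomial _ _ _ hu)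
    · exact pairF_homog A p f _ d (Finsupp.weight (wF (ι := ι)) u) hf
        (isWeightedHomogeneous_monomial _ _ _ rfl) (Ne.symm hu)
  exact h1 g

/-- `E_j : F_0 → F_{α_j}` is surjective in every degree. -/
theorem vr1_surj (hA : IsADE A) (hp : 1 ≤ p) (ε : Cocycle A p) (j : ι) (m : ℕ) (g : Fock ι)
    (hg : FH g m) : ∃ f : Fock ι, FH f (m + 1) ∧ vop A p (bb j) (-1) f = g := by
  classical
  set R : Submodule ℂ (Fock ι) :=
    (weightedHomogeneousSubmodule ℂ (wF (ι := ι)) (m + 1)).map (vop A p (bb j) (-1)) with hR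
  suffices hgR : g ∈ R by
    obtain ⟨f, hf, hfg⟩ := Submodule.mem_map.1 hgR
    exact ⟨f, hf, hfg⟩
  by_contra hgR
  obtain ⟨φ, hφ1, hφ2⟩ := Submodule.exists_le_ker_of_notMem hgR
  set V := weightedHomogeneousSubmodule ℂ (wF (ι := ι)) m with hV
  have hfin : FiniteDimensional ℂ V := vp2_fin (ι := ι) m
  set B : V →ₗ[ℂ] V →ₗ[ℂ] ℂ := ((vr1_B A p).domRestrict₁₂ V V) with hB
  have hnd : ∀ v : V, (∀ u : V, B v u = 0) → v = 0 := by
    intro v hv
    apply Subtype.ext
    exact vr1_zero hA hp v.1 m v.2 fun g hg => hv ⟨g, hg⟩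
  obtain ⟨w, hw⟩ := du1_surj B hnd (φ ∘ₗ V.subtype)
  have h1 : vop A p (bb j) 1 w.1 = 0 := by
    refine vr1_zero hA hp _ (m + 1) (vop_homog A p _ _ _ m (m + 1) w.2 (by push_cast; ring)) ?_
    intro f hf
    have h2 := pairF_vop A hA p (bb j) 1 w.1 f
    rw [h2]
    have h3 : FH (vop A p (bb j) (-1) f) m := vop_homog A p _ _ _ (m + 1) m hf (by push_cast; ring)
    have h4 : B w ⟨vop A p (bb j) (-1) f, h3⟩ = φ (vop A p (bb j) (-1) f) := by
      rw [hw]
      rfl
    have h5 : φ (vop A p (bb j) (-1) f) = 0 := hφ2 (Submodule.mem_map_of_mem hf)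
    rw [h5] at h4
    exact h4
  have h2 : w.1 = 0 := vr1_inj hA hp ε j m w.1 w.2 h1
  have h3 : w = 0 := Subtype.ext h2
  rw [h3, map_zero] at hw
  have h4 : φ g = 0 := by
    have := LinearMap.congr_fun hw ⟨g, hg⟩
    simpa using this.symm
  exact hφ1 h4

end

end WPQ
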