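import Mathlib

/-! [WPQ-VR2] Triangular families in `ℂ[X (i, n)]` are algebraically independent.

`g (i, n)` does not involve `X (k, m)` for `m > n`, and for every `N` the matrix
`∂ g (i, N) / ∂ X (k, N)` has trivial left kernel.  Then `aeval g` is injective.

Proof: take `F ≠ 0` of minimal total degree with `aeval g F = 0`, `N` maximal with some `(i, N)` in
`F.vars`, differentiate with respect to `X (k, N)`. -/

namespace WPQ

open MvPolynomial

noncomputable section

theorem vr2_pderiv_eq_zero {σ : Type} [DecidableEq σ] (F : MvPolynomial σ ℂ) (x : σ)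
    (h : pderiv x F = 0) : x ∉ F.vars := by
  intro hx
  rw [mem_vars_iff_mem_support] at hx
  obtain ⟨u, hu, hxu⟩ := hx
  have hux : 1 ≤ u x := Nat.one_le_iff_ne_zero.2 (Finsupp.mem_support_iff.1 hxu)
  have h1 : coeff (u - Finsupp.single x 1) (pderiv x F) = coeff u F * (u x : ℂ) := by
    conv_lhs => rw [F.as_sum, map_sum, coeff_sum]
    rw [Finset.sum_eq_single u]
    · rw [pderiv_monomial, coeff_monomial, if_pos rfl]
    · intro v hv hne
      rw [pderiv_monomial, coeff_monomial]
      split_ifs with he
      · by_cases hvx : v x = 0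
        · rw [hvx]
          simp
        · exfalso
          apply hne
          have h2 : Finsupp.single x 1 ≤ v := by
            rw [Finsupp.single_le_iff]
            omega
          have h3 : Finsupp.single x 1 ≤ u := by
            rw [Finsupp.single_le_iff]
            omega
          rw [← tsub_add_cancel_of_le h2, he, tsub_add_cancel_of_le h3]
      · rfl
    · intro hn
      exact absurd hu hn
  rw [h, coeff_zero] at h1
  have h2 := mem_support_iff.1 hu
  have h3 : (u x : ℂ) ≠ 0 := by
    exact_mod_cast (by omega : u x ≠ 0)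
  exact mul_ne_zero h2 h3 h1.symm

theorem vr2_totalDegree_pderiv {σ : Type} [DecidableEq σ] (F : MvPolynomial σ ℂ) (x : σ)
    (h : pderiv x F ≠ 0) : (pderiv x F).totalDegree < F.totalDegree := by
  have key : ∀ v ∈ (pderiv x F).support, (v.sum fun _ e => e) + 1 ≤ F.totalDegree := by
    intro v hv
    have h1 : coeff v (pderiv x F) ≠ 0 := mem_support_iff.1 hv
    have h2 : ∃ u ∈ F.support, v = u - Finsupp.single x 1 ∧ u x ≠ 0 := by
      by_contra hc
      push Not at hc
      apply h1
      rw [F.as_sum, map_sum, coeff_sum]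
      refine Finset.sum_eq_zero fun u hu => ?_
      rw [pderiv_monomial, coeff_monomial]
      split_ifs with he
      · rw [hc u hu he.symm]
        simp
      · rfl
    obtain ⟨u, hu, hvu, hux⟩ := h2
    have h3 : v + Finsupp.single x 1 = u := by
      rw [hvu]
      apply tsub_add_cancel_of_le
      rw [Finsupp.single_le_iff]
      omega
    have h4 := le_totalDegree hu
    rw [← h3, Finsupp.sum_add_index' (fun _ => rfl) (fun _ _ _ => rfl),
      Finsupp.sum_single_index rfl] at h4
    exact h4
  by_contra hc
  push Not at hc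
  have h5 : (pderiv x F).totalDegree + 1 ≤ F.totalDegree := by
    obtain ⟨v, hv, hve⟩ : ∃ v ∈ (pderiv x F).support,
        (v.sum fun _ e => e) = (pderiv x F).totalDegree := by
      have hne : (pderiv x F).support.Nonempty := by
        rw [Finset.nonempty_iff_ne_empty, Ne, support_eq_empty]
        exact h
      obtain ⟨v, hv, hvs⟩ := Finset.exists_mem_eq_sup (pderiv x F).support hne
        (fun v : σ →₀ ℕ => v.sum fun _ e => e)
      exact ⟨v, hv, hvs.symm⟩
    rw [← hve]
    exact key v hv
  omega

/-- The chain rule. -/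
theorem vr2_chain {σ : Type} [DecidableEq σ] (g : σ → MvPolynomial σ ℂ) (y : σ) (s : Finset σ)
    (G : MvPolynomial σ ℂ) (hG : G.vars ⊆ s) :
    pderiv y (aeval g G) = ∑ x ∈ s, aeval g (pderiv x G) * pderiv y (g x) := by
  have h : G ∈ Algebra.adjoin ℂ ((X : σ → MvPolynomial σ ℂ) '' (s : Set σ)) := by
    have h1 : G ∈ supported ℂ (s : Set σ) := by
      rw [mem_supported]
      exact_mod_cast hG
    exact h1
  clear hG
  induction h using Algebra.adjoin_induction with
  | mem x hx =>
    obtain ⟨z, hz, rfl⟩ := hx
    rw [aeval_X, Finset.sum_eq_single z]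
    · rw [pderiv_X_self, map_one, one_mul]
    · intro b _ hb
      rw [pderiv_X_of_ne (Ne.symm hb), map_zero, zero_mul]
    · intro hn
      exact absurd (Finset.mem_coe.1 hz) hn
  | algebraMap r =>
    rw [algebraMap_eq, aeval_C, algebraMap_eq, pderiv_C]
    symm
    refine Finset.sum_eq_zero fun x _ => ?_
    rw [pderiv_C, map_zero, zero_mul]
  | add a b _ _ ha hb =>
    rw [map_add, map_add, ha, hb, ← Finset.sum_add_distrib]
    refine Finset.sum_congr rfl fun x _ => ?_
    rw [map_add, map_add, add_mul]
  | mul a b _ _ ha hb =>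
    rw [map_mul, Derivation.leibniz, ha, hb, smul_eq_mul, smul_eq_mul, Finset.mul_sum,
      Finset.mul_sum, ← Finset.sum_add_distrib]
    refine Finset.sum_congr rfl fun x _ => ?_
    rw [Derivation.leibniz, smul_eq_mul, smul_eq_mul, map_add, map_mul, map_mul]
    ring

variable {ι : Type} [Fintype ι] [DecidableEq ι]

/-- Triangular families are algebraically independent. -/
theorem vr2_injective (g : ι × ℕ → MvPolynomial (ι × ℕ) ℂ)
    (h1 : ∀ i n k m, n < m → pderiv (k, m) (g (i, n)) = 0)
    (h2 : ∀ N (c : ι → MvPolynomial (ι × ℕ) ℂ),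
      (∀ k, ∑ i, c i * pderiv (k, N) (g (i, N)) = 0) → ∀ i, c i = 0)
    (F : MvPolynomial (ι × ℕ) ℂ) (hF : aeval g F = 0) : F = 0 := by
  induction hd : F.totalDegree using Nat.strong_induction_on generalizing F with
  | _ d ih =>
  by_cases hv : F.vars = ∅
  · obtain ⟨c, rfl⟩ : ∃ c, F = C c := by
      rw [vars_eq_empty_iff_eq_C] at hv
      exact ⟨_, hv⟩
    rw [← algebraMap_eq, AlgHom.commutes] at hF
    have : c = 0 := by
      have h3 : (C c : MvPolynomial (ι × ℕ) ℂ) = C 0 := by
        rw [C_0]
        exact hF
      exact C_injective _ _ h3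
    rw [this, C_0]
  · exfalso
    obtain ⟨x0, hx0, hmax⟩ := Finset.exists_max_image F.vars (fun x => x.2)
      (Finset.nonempty_iff_ne_empty.2 hv)
    set N := x0.2 with hN
    have hsum : ∀ k : ι, ∑ i, aeval g (pderiv (i, N) F) * pderiv (k, N) (g (i, N)) = 0 := by
      intro k
      have h3 : pderiv (k, N) (aeval g F) = 0 := by rw [hF, map_zero]
      have h4 : ∀ G : MvPolynomial (ι × ℕ) ℂ, (∀ x ∈ G.vars, x.2 ≤ N) →
          pderiv (k, N) (aeval g G) =
            ∑ i, aeval g (pderiv (i, N) G) * pderiv (k, N) (g (i, N)) := by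
        intro G hG
        classical
        set s : Finset (ι × ℕ) := Finset.univ ×ˢ Finset.range (N + 1) with hs
        have hGs : G.vars ⊆ s := by
          intro x hx
          rw [hs, Finset.mem_product, Finset.mem_range]
          exact ⟨Finset.mem_univ _, Nat.lt_succ_of_le (hG x hx)⟩
        rw [vr2_chain g (k, N) s G hGs, hs, Finset.sum_product]
        refine Finset.sum_congr rfl fun i _ => ?_
        rw [Finset.sum_range_succ, Finset.sum_eq_zero, zero_add]
        intro n hn
        rw [h1 i n k N (Finset.mem_range.1 hn), mul_zero]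
      rw [h4 F hmax] at h3
      exact h3
    have h5 := h2 N _ hsum
    have h6 : pderiv x0 F = 0 := by
      by_contra h7
      have h8 := ih _ (by rw [← hd]; exact vr2_totalDegree_pderiv F x0 h7) (pderiv x0 F) (h5 x0.1) rfl
      exact h7 h8
    exact vr2_pderiv_eq_zero F x0 h6 hx0

end

end WPQ
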