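import Pool.Agent.WPQ.VR1
import Pool.Agent.WPQ.VP1
import Pool.Agent.WPQ.FW5
import Pool.Agent.WPQ.VR2

/-! [WPQ-VR3] Vectors of `ker E_j` with prescribed symbols.

`vrh A j i = b_i - (A_ij / 2) b_j` is orthogonal to `b_j` (`i ≠ j`), `vrP A p n` is the multiplication
part of `L(-n-2)` (degree 2).  `vrg A p j (i, n)` is `vrP A p n` if `i = j` and `osc (vrh A j i) n`
otherwise.  `vr3_words`: for every monomial `u` there is `f ∈ ker E_j`, homogeneous of the right weight,
with `f - aeval vrg (monomial u 1)` of lower polynomial degree. -/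

namespace WPQ

open MvPolynomial

noncomputable section

variable {ι : Type} [Fintype ι] [DecidableEq ι]

/-- `b_i - (A_ij / 2) b_j`. -/
def vrh (A : Matrix ι ι ℤ) (j i : ι) : ι → ℂ := bb i - ((A i j : ℂ) / 2) • bb j

/-- The multiplication part of degree 2 of `L(-n-2)`. -/
def vrP (A : Matrix ι ι ℤ) (p : ℕ) (n : ℕ) : Fock ι :=
  C (1 / 2 : ℂ) * ∑ a ∈ Finset.range (n + 1), ∑ i : ι,
    C (((a : ℂ) + 1) * ((n : ℂ) + 1 - a)) * osc (dual A p i) a * (X (i, n - a) : Fock ι)

/-- The generators. -/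
def vrg (A : Matrix ι ι ℤ) (p : ℕ) (j : ι) (x : ι × ℕ) : Fock ι :=
  if x.1 = j then vrP A p x.2 else osc (vrh A j x.1) x.2

/-- Their weights. -/
def vrw (j : ι) (x : ι × ℕ) : ℕ := if x.1 = j then x.2 + 2 else x.2 + 1

/-- Their polynomial degrees. -/
def vrd (j : ι) (x : ι × ℕ) : ℕ := if x.1 = j then 2 else 1

/-- All monomials have degree `< d`. -/
def LT (d : ℕ) (f : Fock ι) : Prop := ∀ u, coeff u f ≠ 0 → Finsupp.degree u < d

omit [Fintype ι] [DecidableEq ι] in
theorem LT.zero (d : ℕ) : LT d (0 : Fock ι) := fun u h => absurd (coeff_zero u) h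

omit [Fintype ι] [DecidableEq ι] in
theorem LT.mono {d e : ℕ} (h : d ≤ e) {f : Fock ι} (hf : LT d f) : LT e f :=
  fun u hu => lt_of_lt_of_le (hf u hu) h

omit [Fintype ι] [DecidableEq ι] in
theorem LT.add {d : ℕ} {f g : Fock ι} (hf : LT d f) (hg : LT d g) : LT d (f + g) := by
  intro u hu
  by_cases h1 : coeff u f = 0
  · apply hg
    intro h2
    rw [coeff_add, h1, h2, add_zero] at hu
    exact hu rfl
  · exact hf u h1

omit [Fintype ι] [DecidableEq ι] in
theorem LT.smul {d : ℕ} {f : Fock ι} (c : ℂ) (hf : LT d f) : LT d (c • f) := by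
  intro u hu
  apply hf
  intro h
  rw [coeff_smul, h, smul_zero] at hu
  exact hu rfl

omit [Fintype ι] [DecidableEq ι] in
theorem LT.sum {α : Type} {d : ℕ} (s : Finset α) (F : α → Fock ι) (h : ∀ a ∈ s, LT d (F a)) :
    LT d (∑ a ∈ s, F a) := by
  classical
  induction s using Finset.induction_on with
  | empty => rw [Finset.sum_empty]; exact LT.zero d
  | insert a s ha ih =>
    rw [Finset.sum_insert ha]
    exact (h a (Finset.mem_insert_self a s)).add
      (ih fun b hb => h b (Finset.mem_insert_of_mem hb))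

omit [Fintype ι] in
theorem LT.mul {d e : ℕ} {f g : Fock ι} (hg : g.IsHomogeneous e) (hf : LT d f) :
    LT (e + d) (g * f) := by
  intro u hu
  rw [coeff_mul] at hu
  obtain ⟨⟨a, b⟩, hab, hne⟩ := Finset.exists_ne_zero_of_sum_ne_zero hu
  have ha : coeff a g ≠ 0 := left_ne_zero_of_mul hne
  have hb : coeff b f ≠ 0 := right_ne_zero_of_mul hne
  have h1 := hf b hb
  have h2 : Finsupp.degree a = e := by
    rw [Finsupp.degree_eq_weight_one]
    exact hg ha
  have h3 : a + b = u := Finset.HasAntidiagonal.mem_antidiagonal.1 hab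
  rw [← h3, map_add, h2]
  omega

omit [Fintype ι] [DecidableEq ι] in
theorem LT.of_homog {d e : ℕ} {f : Fock ι} (hf : f.IsHomogeneous e) (h : e < d) : LT d f := by
  intro u hu
  have h1 : Finsupp.weight (1 : ι × ℕ → ℕ) u = e := hf hu
  have h2 : Finsupp.degree u = e := by
    rw [Finsupp.degree_eq_weight_one]
    exact h1
  rw [h2]
  exact h

omit [DecidableEq ι] in
theorem vr3_osc_homog (ν : ι → ℂ) (k : ℕ) : (osc ν k : Fock ι).IsHomogeneous 1 := by
  unfold osc
  refine IsHomogeneous.sum _ _ _ fun i _ => ?_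
  have := (isHomogeneous_C (ι × ℕ) (ν i)).mul (isHomogeneous_X ℂ (i, k))
  rwa [zero_add] at this

theorem vr3_P_homog (A : Matrix ι ι ℤ) (p n : ℕ) : (vrP A p n).IsHomogeneous 2 := by
  unfold vrP
  have h : (∑ a ∈ Finset.range (n + 1), ∑ i : ι,
    C (((a : ℂ) + 1) * ((n : ℂ) + 1 - a)) * osc (dual A p i) a * (X (i, n - a) : Fock ι)).IsHomogeneous 2 := by
    refine IsHomogeneous.sum _ _ _ fun a _ => IsHomogeneous.sum _ _ _ fun i _ => ?_
    have := ((isHomogeneous_C (ι × ℕ) (((a : ℂ) + 1) * ((n : ℂ) + 1 - a))).mul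
      (vr3_osc_homog (dual A p i) a)).mul (isHomogeneous_X ℂ (i, n - a))
    exact this
  have := (isHomogeneous_C (ι × ℕ) (1 / 2 : ℂ)).mul h
  rwa [zero_add] at this

theorem vr3_g_homog (A : Matrix ι ι ℤ) (p : ℕ) (j : ι) (x : ι × ℕ) :
    (vrg A p j x).IsHomogeneous (vrd j x) := by
  unfold vrg vrd
  split_ifs with h
  · exact vr3_P_homog A p x.2
  · exact vr3_osc_homog _ _

omit [Fintype ι] [DecidableEq ι] in
/-- A derivation that sends variables to linear forms preserves degrees. -/
theorem vr3_der (D : Derivation ℂ (Fock ι) (Fock ι)) (hD : ∀ x, (D (X x)).IsHomogeneous 1) (d : ℕ)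
    (f : Fock ι) (hf : LT d f) : LT d (D f) := by
  have h1 : ∀ u : (ι × ℕ) →₀ ℕ, (D (monomial u 1)).IsHomogeneous (Finsupp.degree u) := by
    intro u
    induction u using Finsupp.induction_linear with
    | zero =>
      have : (monomial (0 : (ι × ℕ) →₀ ℕ) (1 : ℂ)) = 1 := rfl
      rw [this, D.map_one_eq_zero]
      exact isHomogeneous_zero _ _ _
    | add a b ha hb =>
      have e : (monomial (a + b) (1 : ℂ) : Fock ι) = monomial a 1 * monomial b 1 := by
        rw [monomial_mul, one_mul]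
      rw [e, Derivation.leibniz, map_add]
      have hma : (monomial a (1 : ℂ) : Fock ι).IsHomogeneous (Finsupp.degree a) :=
        isHomogeneous_monomial _ rfl
      have hmb : (monomial b (1 : ℂ) : Fock ι).IsHomogeneous (Finsupp.degree b) :=
        isHomogeneous_monomial _ rfl
      refine IsHomogeneous.add (hma.mul hb) ?_
      have := hmb.mul ha
      rwa [add_comm] at this
    | single x n =>
      induction n with
      | zero =>
        rw [Finsupp.single_zero]
        have : (monomial (0 : (ι × ℕ) →₀ ℕ) (1 : ℂ)) = 1 := rfl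
        rw [this, D.map_one_eq_zero]
        exact isHomogeneous_zero _ _ _
      | succ n ih =>
        have e : (monomial (Finsupp.single x (n + 1)) (1 : ℂ) : Fock ι) =
            monomial (Finsupp.single x n) 1 * X x := by
          rw [X, monomial_mul, one_mul, ← Finsupp.single_add]
        rw [e, Derivation.leibniz, Finsupp.single_add, map_add]
        have hma : (monomial (Finsupp.single x n) (1 : ℂ) : Fock ι).IsHomogeneous
          (Finsupp.degree (Finsupp.single x n)) := isHomogeneous_monomial _ rfl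
        refine IsHomogeneous.add ?_ ?_
        · have := hma.mul (hD x)
          have e2 : Finsupp.degree (Finsupp.single x 1) = 1 := by simp
          rw [e2]
          exact this
        · have := (isHomogeneous_X ℂ x).mul ih
          have e2 : Finsupp.degree (Finsupp.single x 1) = 1 := by simp
          rw [e2, add_comm]
          exact this
  rw [f.as_sum, map_sum]
  refine LT.sum _ _ fun u hu => ?_
  have e : (monomial u (coeff u f) : Fock ι) = coeff u f • monomial u 1 := by
    rw [smul_monomial, smul_eq_mul, mul_one]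
  rw [e, Derivation.map_smul]
  exact (LT.of_homog (h1 u) (hf u (mem_support_iff.1 hu))).smul _


variable {A : Matrix ι ι ℤ} {p : ℕ}

/-- `vrh` is orthogonal to `b_j`. -/
theorem vr3_form (hA : IsADE A) (j i : ι) : form A p (vrh A j i) (bb j) = 0 := by
  unfold vrh
  rw [sub_eq_add_neg, form_symm A hA.symm, rf1_form_add, ← neg_smul, form_symm A hA.symm, form_bb,
    form_symm A hA.symm p (bb j) (_ • bb j)]
  have h1 : form A p (-((A i j : ℂ) / 2) • bb j) (bb j) = -((A i j : ℂ) / 2) * (p * A j j) := by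
    rw [vp1_form_smul_left, form_bb]
  rw [h1, hA.diag]
  push_cast
  ring

/-- `L(-n-2)` on the Fock space of charge `0`. -/
theorem vr3_Lop (A : Matrix ι ι ℤ) (p n : ℕ) (f : Fock ι) :
    ∃ (D : Derivation ℂ (Fock ι) (Fock ι)) (ν : ι → ℂ), (∀ x, (D (X x)).IsHomogeneous 1) ∧
      Lop A p 0 (-(n + 2 : ℕ) : ℤ) f = D f + osc ν (n + 1) * f + vrP A p n * f := by
  refine ⟨mkDerivation ℂ fun x : ι × ℕ =>
      ((x.2 : ℂ) + 1 - ((-(n + 2 : ℕ) : ℤ) : ℂ)) • (X (x.1, x.2 + (n + 2)) : Fock ι),
    ((n : ℂ) + 2) • ((0 : ι → ℂ) - (((-(n + 2 : ℕ) : ℤ) : ℂ) + 1) • bg A p), ?_, ?_⟩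
  · intro x
    rw [mkDerivation_X, smul_eq_C_mul]
    have := (isHomogeneous_C (ι × ℕ) ((x.2 : ℂ) + 1 - ((-(n + 2 : ℕ) : ℤ) : ℂ))).mul
      (isHomogeneous_X ℂ (x.1, x.2 + (n + 2)))
    rwa [zero_add] at this
  · unfold Lop
    have hk1 : ¬ (0 < (-(n + 2 : ℕ) : ℤ)) := by push_cast; omega
    have hk2 : ¬ ((-(n + 2 : ℕ) : ℤ) = 0) := by push_cast; omega
    rw [if_neg hk1, if_neg hk2]
    have e1 : (-(-(n + 2 : ℕ) : ℤ)).toNat = n + 2 := by push_cast; omega
    rw [e1]
    simp only [LinearMap.add_apply, LinearMap.smul_apply, LinearMap.mulLeft_apply]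
    congr 1
    · congr 1
      unfold heis
      rw [if_pos (by push_cast; omega)]
      have e2 : (-(-(n + 2 : ℕ) : ℤ) - 1).toNat = n + 1 := by push_cast; omega
      rw [e2, LinearMap.smul_apply, LinearMap.mulLeft_apply, fw5_osc_smul, smul_eq_C_mul]
      push_cast
      ring_nf
    · have e3 : n + 2 - 1 = n + 1 := by omega
      have e4 : ∀ (a : ℕ) (i : ι), C (((a : ℂ) + 1) * (-(((-(n + 2 : ℕ) : ℤ)) : ℂ) - 1 - a)) *
          osc (dual A p i) a * (X (i, n + 2 - 2 - a) : Fock ι) =
          C (((a : ℂ) + 1) * ((n : ℂ) + 1 - a)) * osc (dual A p i) a * (X (i, n - a) : Fock ι) := by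
        intro a i
        have e5 : n + 2 - 2 - a = n - a := by omega
        have e6 : (-(((-(n + 2 : ℕ) : ℤ)) : ℂ) - 1 - a) = (n : ℂ) + 1 - a := by
          push_cast
          ring
        rw [e5, e6]
      simp only [e3, e4]
      unfold vrP
      rw [smul_eq_C_mul, mul_assoc]

theorem vr3_step_P (hA : IsADE A) (hp : 1 ≤ p) (j : ι) (n m d : ℕ) (f g : Fock ι)
    (hE : vop A p (bb j) (-1) f = 0) (hf : FH f m) (hg : g.IsHomogeneous d) (hfg : LT d (f - g)) :
    ∃ f', vop A p (bb j) (-1) f' = 0 ∧ FH f' (m + (n + 2)) ∧ LT (2 + d) (f' - vrP A p n * g) := by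
  obtain ⟨D, ν, hD, hL⟩ := vr3_Lop A p n f
  refine ⟨Lop A p 0 (-(n + 2 : ℕ) : ℤ) f, ?_, Lop_homog A p 0 _ f m _ hf (by push_cast; ring), ?_⟩
  · have h := LinearMap.congr_fun (Lop_vop A hA p hp 0 (bb j) (-(n + 2 : ℕ) : ℤ) (-1)) f
    rw [LinearMap.sub_apply, LinearMap.comp_apply, LinearMap.comp_apply, LinearMap.smul_apply,
      hE, map_zero, zero_sub] at h
    have hc : (((-1 : ℤ) : ℂ) - ((-(n + 2 : ℕ) : ℤ) : ℂ) + form A p (bb j) 0 +
        (((-(n + 2 : ℕ) : ℤ) : ℂ) + 1) * ((1 / 2 : ℂ) * form A p (bb j) (bb j) -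
          form A p (bg A p) (bb j))) = 0 := by
      rw [form_bb, hA.diag, form_symm A hA.symm p (bg A p), form_bg A hA p hp,
        show form A p (bb j) 0 = 0 by simp [form]]
      push_cast
      ring
    rw [hc, zero_smul, neg_eq_zero] at h
    exact h
  · have hLTf : LT (1 + d) f := by
      have e : f = (f - g) + g := by ring
      rw [e]
      exact (hfg.mono (by omega)).add (LT.of_homog hg (by omega))
    have e : Lop A p 0 (-(n + 2 : ℕ) : ℤ) f - vrP A p n * g =
        (D f + osc ν (n + 1) * f) + vrP A p n * (f - g) := by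
      rw [hL]
      ring
    rw [e]
    refine LT.add (LT.add ?_ ?_) ?_
    · exact (vr3_der D hD _ f hLTf).mono (by omega)
    · have := LT.mul (vr3_osc_homog ν (n + 1)) hLTf
      exact this.mono (by omega)
    · exact LT.mul (vr3_P_homog A p n) hfg

theorem vr3_step_osc (hA : IsADE A) (j i : ι) (n m d : ℕ) (f g : Fock ι)
    (hE : vop A p (bb j) (-1) f = 0) (hf : FH f m) (hfg : LT d (f - g)) :
    ∃ f', vop A p (bb j) (-1) f' = 0 ∧ FH f' (m + (n + 1)) ∧
      LT (1 + d) (f' - osc (vrh A j i) n * g) := by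
  refine ⟨osc (vrh A j i) n * f, ?_, ?_, ?_⟩
  · rw [fw11_vop_osc, hE, vr3_form hA]
    simp
  · have := (fw1_osc_homog (vrh A j i) n).mul hf
    rwa [add_comm] at this
  · rw [← mul_sub]
    exact LT.mul (vr3_osc_homog _ n) hfg

/-- For every monomial `u` in the generators there is a vector of `ker E_j` with symbol `u`. -/
theorem vr3_words (hA : IsADE A) (hp : 1 ≤ p) (j : ι) (u : (ι × ℕ) →₀ ℕ) :
    (aeval (vrg A p j) (monomial u (1 : ℂ)) : Fock ι).IsHomogeneous (Finsupp.weight (vrd j) u) ∧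
    ∃ f : Fock ι, vop A p (bb j) (-1) f = 0 ∧ FH f (Finsupp.weight (vrw j) u) ∧
      LT (Finsupp.weight (vrd j) u) (f - aeval (vrg A p j) (monomial u (1 : ℂ))) := by
  have step : ∀ (u : (ι × ℕ) →₀ ℕ) (x : ι × ℕ),
      ((aeval (vrg A p j) (monomial u (1 : ℂ)) : Fock ι).IsHomogeneous (Finsupp.weight (vrd j) u) ∧
        ∃ f : Fock ι, vop A p (bb j) (-1) f = 0 ∧ FH f (Finsupp.weight (vrw j) u) ∧
          LT (Finsupp.weight (vrd j) u) (f - aeval (vrg A p j) (monomial u (1 : ℂ)))) →
      ((aeval (vrg A p j) (monomial (u + Finsupp.single x 1) (1 : ℂ)) : Fock ι).IsHomogeneous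
          (Finsupp.weight (vrd j) (u + Finsupp.single x 1)) ∧
        ∃ f : Fock ι, vop A p (bb j) (-1) f = 0 ∧
          FH f (Finsupp.weight (vrw j) (u + Finsupp.single x 1)) ∧
          LT (Finsupp.weight (vrd j) (u + Finsupp.single x 1))
            (f - aeval (vrg A p j) (monomial (u + Finsupp.single x 1) (1 : ℂ)))) := by
    rintro u x ⟨h1, f, hE, hf, hfg⟩
    have e : (aeval (vrg A p j) (monomial (u + Finsupp.single x 1) (1 : ℂ)) : Fock ι) =
        vrg A p j x * aeval (vrg A p j) (monomial u (1 : ℂ)) := by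
      have : (monomial (u + Finsupp.single x 1) (1 : ℂ) : Fock ι) = X x * monomial u 1 := by
        rw [X, monomial_mul, one_mul, add_comm]
      rw [this, map_mul, aeval_X]
    have ed : Finsupp.weight (vrd j) (u + Finsupp.single x 1) =
        vrd j x + Finsupp.weight (vrd j) u := by
      rw [map_add, Finsupp.weight_single, one_smul, add_comm]
    have ew : Finsupp.weight (vrw j) (u + Finsupp.single x 1) =
        Finsupp.weight (vrw j) u + vrw j x := by
      rw [map_add, Finsupp.weight_single, one_smul]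
    rw [e, ed, ew]
    refine ⟨(vr3_g_homog A p j x).mul h1, ?_⟩
    unfold vrg vrd vrw
    split_ifs with hx
    · exact vr3_step_P hA hp j x.2 _ _ f _ hE hf h1 hfg
    · exact vr3_step_osc hA j x.1 x.2 _ _ f _ hE hf hfg
  induction u using Finsupp.induction with
  | zero =>
    have e : (monomial (0 : (ι × ℕ) →₀ ℕ) (1 : ℂ) : Fock ι) = 1 := rfl
    rw [e, map_one, map_zero, map_zero]
    refine ⟨isHomogeneous_one _ _, 1, ?_, isWeightedHomogeneous_one _ _, ?_⟩
    · rw [vop_one, expCoeffZ_neg _ (-1) (by norm_num)]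
    · rw [sub_self]
      exact LT.zero 0
  | single_add x n a _ _ ih =>
    rw [add_comm (Finsupp.single x n) a]
    clear * - ih step
    induction n with
    | zero => rwa [Finsupp.single_zero, add_zero]
    | succ n ih2 =>
      rw [Finsupp.single_add, ← add_assoc]
      exact step _ x ih2

end

end WPQ
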