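import Pool.Agent.WPQ.VR3

/-! [WPQ-VR4] The generators `vrg` are algebraically independent. -/

namespace WPQ

open MvPolynomial

noncomputable section

variable {ι : Type} [Fintype ι] [DecidableEq ι] {A : Matrix ι ι ℤ} {p : ℕ}

theorem vr4_osc (ν : ι → ℂ) (n : ℕ) (k : ι) (m : ℕ) :
    pderiv (k, m) (osc ν n : Fock ι) = if n = m then C (ν k) else 0 := by
  unfold osc
  rw [map_sum]
  split_ifs with h
  · subst h
    rw [Finset.sum_eq_single k]
    · rw [pderiv_C_mul, pderiv_X_self, mul_one]
    · intro i _ hi
      rw [pderiv_C_mul, pderiv_X_of_ne (by simpa using hi), mul_zero]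
    · intro h
      exact absurd (Finset.mem_univ k) h
  · refine Finset.sum_eq_zero fun i _ => ?_
    rw [pderiv_C_mul, pderiv_X_of_ne (by
      intro h2
      exact h (Prod.mk.inj h2).2), mul_zero]

theorem vr4_P (A : Matrix ι ι ℤ) (p n : ℕ) (k : ι) (m : ℕ) (hm : n ≤ m) :
    pderiv (k, m) (vrP A p n) = if n = m then C (1 / 2 : ℂ) * (C ((n : ℂ) + 1) *
      (∑ i : ι, C (dual A p i k) * (X (i, 0) : Fock ι) + osc (dual A p k) 0)) else 0 := by
  unfold vrP
  rw [pderiv_C_mul, map_sum]
  have h1 : ∀ a ∈ Finset.range (n + 1), pderiv (k, m) (∑ i : ι,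
      C (((a : ℂ) + 1) * ((n : ℂ) + 1 - a)) * osc (dual A p i) a * (X (i, n - a) : Fock ι)) =
      (if a = m then ∑ i : ι, C ((a : ℂ) + 1) * (C ((n : ℂ) + 1 - a) *
        (C (dual A p i k) * (X (i, n - a) : Fock ι))) else 0) +
      (if n - a = m then C (((a : ℂ) + 1) * ((n : ℂ) + 1 - a)) * osc (dual A p k) a else 0) := by
    intro a _
    rw [map_sum]
    have h2 : ∀ i : ι, pderiv (k, m) (C (((a : ℂ) + 1) * ((n : ℂ) + 1 - a)) * osc (dual A p i) a *
        (X (i, n - a) : Fock ι)) =
        (if a = m then C ((a : ℂ) + 1) * (C ((n : ℂ) + 1 - a) *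
          (C (dual A p i k) * (X (i, n - a) : Fock ι))) else 0) +
        (if (i, n - a) = (k, m) then C (((a : ℂ) + 1) * ((n : ℂ) + 1 - a)) * osc (dual A p i) a
          else 0) := by
      intro i
      rw [Derivation.leibniz, pderiv_C_mul, vr4_osc, smul_eq_mul, smul_eq_mul, add_comm]
      congr 1
      · split_ifs with h
        · rw [C_mul]
          ring
        · rw [mul_zero, mul_zero]
      · rw [pderiv_X]
        by_cases h : (i, n - a) = (k, m)
        · rw [if_pos h, h, Pi.single_eq_same, mul_one]
        · rw [if_neg h, Pi.single_eq_of_ne h, mul_zero]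
    rw [Finset.sum_congr rfl fun i _ => h2 i, Finset.sum_add_distrib]
    congr 1
    · split_ifs
      · rfl
      · exact Finset.sum_const_zero
    · rw [Finset.sum_eq_single k]
      · simp only [Prod.mk.injEq, true_and]
      · intro i _ hi
        rw [if_neg (by
          intro h
          exact hi (Prod.mk.inj h).1)]
      · intro h
        exact absurd (Finset.mem_univ k) h
  rw [Finset.sum_congr rfl h1, Finset.sum_add_distrib]
  by_cases hnm : n = m
  · subst hnm
    rw [if_pos rfl]
    congr 1
    rw [mul_add]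
    congr 1
    · rw [Finset.sum_eq_single n]
      · rw [if_pos rfl, Finset.mul_sum]
        refine Finset.sum_congr rfl fun i _ => ?_
        rw [Nat.sub_self]
        have : (n : ℂ) + 1 - n = 1 := by ring
        rw [this, C_1, one_mul]
      · intro a _ ha
        rw [if_neg ha]
      · intro h
        exact absurd (Finset.self_mem_range_succ n) h
    · rw [Finset.sum_eq_single 0]
      · rw [Nat.sub_zero, if_pos rfl]
        push_cast
        ring_nf
      · intro a ha ha0
        rw [if_neg]
        have := Finset.mem_range.1 ha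
        omega
      · intro h
        exact absurd (Finset.mem_range.2 (Nat.succ_pos n)) h
  · rw [if_neg hnm, Finset.sum_eq_zero, Finset.sum_eq_zero, add_zero, mul_zero]
    · intro a ha
      rw [if_neg]
      have := Finset.mem_range.1 ha
      omega
    · intro a ha
      rw [if_neg]
      have := Finset.mem_range.1 ha
      omega

theorem vr4_inv (hA : IsADE A) (hp : 1 ≤ p) (j : ι) :
    ∑ k, C (A k j : ℂ) * (∑ i : ι, C (dual A p i k) * (X (i, 0) : Fock ι) + osc (dual A p k) 0) =
      C (2 * (p : ℂ)⁻¹) * X (j, 0) := by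
  have hdet := det_ne_zero A hA
  set M := A.map (Int.cast : ℤ → ℂ) with hM
  have hu : IsUnit M.det := hdet
  have h1 : ∀ i j : ι, ∑ k, M⁻¹ i k * M k j = if i = j then 1 else 0 := by
    intro i j
    have := congrFun (congrFun (Matrix.nonsing_inv_mul M hu) i) j
    rw [Matrix.mul_apply, Matrix.one_apply] at this
    exact this
  have h2 : ∀ i j : ι, ∑ k, M i k * M⁻¹ k j = if i = j then 1 else 0 := by
    intro i j
    have := congrFun (congrFun (Matrix.mul_nonsing_inv M hu) i) j
    rw [Matrix.mul_apply, Matrix.one_apply] at this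
    exact this
  have hMA : ∀ i k, M i k = (A i k : ℂ) := fun i k => rfl
  have e1 : ∑ k, C (A k j : ℂ) * ∑ i : ι, C (dual A p i k) * (X (i, 0) : Fock ι) =
      C ((p : ℂ)⁻¹) * X (j, 0) := by
    have : ∀ k, C (A k j : ℂ) * ∑ i : ι, C (dual A p i k) * (X (i, 0) : Fock ι) =
        ∑ i : ι, C ((p : ℂ)⁻¹ * (M⁻¹ i k * M k j)) * (X (i, 0) : Fock ι) := by
      intro k
      rw [Finset.mul_sum]
      refine Finset.sum_congr rfl fun i _ => ?_
      rw [← mul_assoc, ← C_mul, hMA]
      congr 2
      unfold dual
      rw [← hM]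
      ring
    rw [Finset.sum_congr rfl fun k _ => this k, Finset.sum_comm]
    have : ∀ i : ι, ∑ k, C ((p : ℂ)⁻¹ * (M⁻¹ i k * M k j)) * (X (i, 0) : Fock ι) =
        C ((p : ℂ)⁻¹ * if i = j then 1 else 0) * X (i, 0) := by
      intro i
      rw [← Finset.sum_mul, ← map_sum, ← Finset.mul_sum, h1]
    rw [Finset.sum_congr rfl fun i _ => this i, Finset.sum_eq_single j]
    · rw [if_pos rfl, mul_one]
    · intro i _ hi
      rw [if_neg hi, mul_zero, C_0, zero_mul]
    · intro h
      exact absurd (Finset.mem_univ j) h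
  have e2 : ∑ k, C (A k j : ℂ) * (osc (dual A p k) 0 : Fock ι) = C ((p : ℂ)⁻¹) * X (j, 0) := by
    have : ∀ k, C (A k j : ℂ) * (osc (dual A p k) 0 : Fock ι) =
        ∑ i : ι, C ((p : ℂ)⁻¹ * (M j k * M⁻¹ k i)) * (X (i, 0) : Fock ι) := by
      intro k
      unfold osc
      rw [Finset.mul_sum]
      refine Finset.sum_congr rfl fun i _ => ?_
      rw [← mul_assoc, ← C_mul, hMA, hA.symm j k]
      congr 2
      unfold dual
      rw [← hM]
      ring
    rw [Finset.sum_congr rfl fun k _ => this k, Finset.sum_comm]
    have : ∀ i : ι, ∑ k, C ((p : ℂ)⁻¹ * (M j k * M⁻¹ k i)) * (X (i, 0) : Fock ι) =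
        C ((p : ℂ)⁻¹ * if j = i then 1 else 0) * X (i, 0) := by
      intro i
      rw [← Finset.sum_mul, ← map_sum, ← Finset.mul_sum, h2]
    rw [Finset.sum_congr rfl fun i _ => this i, Finset.sum_eq_single j]
    · rw [if_pos rfl, mul_one]
    · intro i _ hi
      rw [if_neg (Ne.symm hi), mul_zero, C_0, zero_mul]
    · intro h
      exact absurd (Finset.mem_univ j) h
  simp only [mul_add, Finset.sum_add_distrib]
  rw [e1, e2, two_mul, C_add, add_mul]

/-- The generators `vrg` are algebraically independent. -/
theorem vr4_injective (hA : IsADE A) (hp : 1 ≤ p) (j : ι) (F : MvPolynomial (ι × ℕ) ℂ)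
    (hF : aeval (vrg A p j) F = 0) : F = 0 := by
  have hp0 : (p : ℂ) ≠ 0 := by
    have : p ≠ 0 := by omega
    exact_mod_cast this
  refine vr2_injective (vrg A p j) ?_ ?_ F hF
  · intro i n k m hnm
    unfold vrg
    dsimp only
    split_ifs with h
    · rw [vr4_P A p n k m hnm.le, if_neg hnm.ne]
    · rw [vr4_osc, if_neg hnm.ne]
  · intro N c hc
    have hd : ∀ k i : ι, pderiv (k, N) (vrg A p j (i, N)) = if i = j then
        C (1 / 2 : ℂ) * (C ((N : ℂ) + 1) *
          (∑ i : ι, C (dual A p i k) * (X (i, 0) : Fock ι) + osc (dual A p k) 0))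
        else C (vrh A j i k) := by
      intro k i
      unfold vrg
      dsimp only
      split_ifs with h
      · rw [vr4_P A p N k N le_rfl, if_pos rfl]
      · rw [vr4_osc, if_pos rfl]
    have horth : ∀ i, ∑ k, (A k j : ℂ) * vrh A j i k = 0 := by
      intro i
      unfold vrh bb
      simp only [Pi.sub_apply, Pi.smul_apply, smul_eq_mul, mul_sub, Finset.sum_sub_distrib]
      rw [Finset.sum_eq_single i, Finset.sum_eq_single j]
      · rw [Pi.single_eq_same, Pi.single_eq_same, hA.diag]
        push_cast
        ring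
      · intro b _ hb
        rw [Pi.single_eq_of_ne hb]
        ring
      · intro h
        exact absurd (Finset.mem_univ j) h
      · intro b _ hb
        rw [Pi.single_eq_of_ne hb]
        ring
      · intro h
        exact absurd (Finset.mem_univ i) h
    have hcj : c j = 0 := by
      have h1 : ∑ k, C (A k j : ℂ) * ∑ i, c i * pderiv (k, N) (vrg A p j (i, N)) = 0 := by
        refine Finset.sum_eq_zero fun k _ => ?_
        rw [hc k, mul_zero]
      have h2 : ∑ k, C (A k j : ℂ) * ∑ i, c i * pderiv (k, N) (vrg A p j (i, N)) =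
          ∑ i, c i * ∑ k, C (A k j : ℂ) * pderiv (k, N) (vrg A p j (i, N)) := by
        simp only [Finset.mul_sum]
        rw [Finset.sum_comm]
        refine Finset.sum_congr rfl fun i _ => Finset.sum_congr rfl fun k _ => ?_
        ring
      rw [h2, Finset.sum_eq_single j] at h1
      · have h3 : ∑ k, C (A k j : ℂ) * pderiv (k, N) (vrg A p j (j, N)) =
            C (1 / 2 : ℂ) * (C ((N : ℂ) + 1) * (C (2 * (p : ℂ)⁻¹) * X (j, 0))) := by
          rw [← vr4_inv hA hp j, Finset.mul_sum, Finset.mul_sum]
          refine Finset.sum_congr rfl fun k _ => ?_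
          rw [hd k j, if_pos rfl]
          ring
        rw [h3] at h1
        have hN : (N : ℂ) + 1 ≠ 0 := Nat.cast_add_one_ne_zero N
        have h4 : C (1 / 2 : ℂ) * (C ((N : ℂ) + 1) * (C (2 * (p : ℂ)⁻¹) * X (j, 0))) ≠
            (0 : Fock ι) := by
          refine mul_ne_zero ?_ (mul_ne_zero ?_ (mul_ne_zero ?_ (X_ne_zero _)))
          · rw [Ne, C_eq_zero]
            norm_num
          · rw [Ne, C_eq_zero]
            exact hN
          · rw [Ne, C_eq_zero]
            exact mul_ne_zero two_ne_zero (inv_ne_zero hp0)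
        exact (mul_eq_zero.1 h1).resolve_right h4
      · intro i _ hi
        have h3 : ∑ k, C (A k j : ℂ) * pderiv (k, N) (vrg A p j (i, N)) = 0 := by
          have : ∀ k, C (A k j : ℂ) * pderiv (k, N) (vrg A p j (i, N)) =
              C ((A k j : ℂ) * vrh A j i k) := by
            intro k
            rw [hd k i, if_neg hi, ← C_mul]
          rw [Finset.sum_congr rfl fun k _ => this k, ← map_sum, horth, C_0]
        rw [h3, mul_zero]
      · intro h
        exact absurd (Finset.mem_univ j) h
    intro i
    by_cases hi : i = j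
    · rw [hi]
      exact hcj
    · have h1 := hc i
      rw [Finset.sum_eq_single i] at h1
      · rw [hd i i, if_neg hi] at h1
        have : vrh A j i i = 1 := by
          unfold vrh bb
          rw [Pi.sub_apply, Pi.smul_apply, Pi.single_eq_same, Pi.single_eq_of_ne hi]
          simp
        rw [this, C_1, mul_one] at h1
        exact h1
      · intro b _ hb
        by_cases hbj : b = j
        · rw [hbj, hcj, zero_mul]
        · rw [hd i b, if_neg hbj]
          have : vrh A j b i = 0 := by
            unfold vrh bb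
            rw [Pi.sub_apply, Pi.smul_apply, Pi.single_eq_of_ne (Ne.symm hb),
              Pi.single_eq_of_ne hi]
            simp
          rw [this, C_0, mul_zero]
      · intro h
        exact absurd (Finset.mem_univ i) h

end

end WPQ
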