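import Pool.Agent.WPQ.VR4
import Pool.Agent.WPQ.VP2

/-! [WPQ-VR5] Dimensions of `ker E_j`. -/

namespace WPQ

open MvPolynomial

noncomputable section

variable {ι : Type} [Fintype ι] [DecidableEq ι] {A : Matrix ι ι ℤ} {p : ℕ}

/-- `ker E_j` in weight `m`. -/
def KF (A : Matrix ι ι ℤ) (p : ℕ) (j : ι) (m : ℕ) : Submodule ℂ (Fock ι) :=
  LinearMap.ker (vop A p (bb j) (-1)) ⊓ weightedHomogeneousSubmodule ℂ (wF (ι := ι)) m

/-- The shift of indices `(j, n) ↦ (j, n+1)`. -/
def vrs (j : ι) (x : ι × ℕ) : ι × ℕ := if x.1 = j then (x.1, x.2 + 1) else x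

omit [Fintype ι] in
theorem vr5_wF_vrs (j : ι) (x : ι × ℕ) : wF (vrs j x) = vrw j x := by
  unfold wF vrs vrw
  split_ifs <;> rfl

omit [Fintype ι] in
theorem vr5_vrs_inj (j : ι) : Function.Injective (vrs j) := by
  intro x y h
  unfold vrs at h
  split_ifs at h with h1 h2 h2
  · have := Prod.mk.inj h
    exact Prod.ext this.1 (by omega)
  · exfalso
    rw [← h] at h2
    exact h2 h1
  · exfalso
    rw [h] at h1
    exact h1 h2
  · exact h

omit [Fintype ι] in
theorem vr5_weight (j : ι) (u : (ι × ℕ) →₀ ℕ) :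
    Finsupp.weight (wF (ι := ι)) (Finsupp.mapDomain (vrs j) u) = Finsupp.weight (vrw j) u := by
  rw [Finsupp.weight_apply, Finsupp.weight_apply, Finsupp.sum_mapDomain_index
    (h := fun i c => c • wF i) (fun _ => zero_smul _ _) (fun _ _ _ => add_smul _ _ _)]
  refine Finsupp.sum_congr fun x _ => ?_
  rw [vr5_wF_vrs]

theorem vr5_finite_K (j : ι) (m : ℕ) :
    {u : (ι × ℕ) →₀ ℕ | Finsupp.weight (vrw j) u = m}.Finite := by
  refine Set.Finite.of_finite_image ((vp2_finite_weight (ι := ι) m).subset ?_)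
    (Finsupp.mapDomain_injective (vr5_vrs_inj j)).injOn
  rintro _ ⟨u, hu, rfl⟩
  show Finsupp.weight _ _ = m
  rw [vr5_weight]
  exact hu

omit [Fintype ι] in
theorem vr5_range (j : ι) (u : (ι × ℕ) →₀ ℕ) (h : u (j, 0) = 0) :
    ∃ v, Finsupp.mapDomain (vrs j) v = u := by
  refine ⟨Finsupp.comapDomain (vrs j) u (vr5_vrs_inj j).injOn, ?_⟩
  apply Finsupp.mapDomain_comapDomain _ (vr5_vrs_inj j)
  intro x hx
  have hx' : u x ≠ 0 := Finsupp.mem_support_iff.1 hx
  by_cases h1 : x.1 = j
  · have h2 : x.2 ≠ 0 := by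
      intro h2
      apply hx'
      have : x = (j, 0) := Prod.ext h1 h2
      rw [this, h]
    refine ⟨(x.1, x.2 - 1), ?_⟩
    unfold vrs
    rw [if_pos h1]
    exact Prod.ext rfl (by simp only; omega)
  · exact ⟨x, by unfold vrs; rw [if_neg h1]⟩

theorem vr5_card (j : ι) (m : ℕ) :
    {u : (ι × ℕ) →₀ ℕ | Finsupp.weight (wF (ι := ι)) u = m + 1}.ncard =
      {u : (ι × ℕ) →₀ ℕ | Finsupp.weight (wF (ι := ι)) u = m}.ncard +
      {u : (ι × ℕ) →₀ ℕ | Finsupp.weight (vrw j) u = m + 1}.ncard := by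
  have e1 : {u : (ι × ℕ) →₀ ℕ | Finsupp.weight (wF (ι := ι)) u = m + 1} =
      ((fun u => u + Finsupp.single (j, 0) 1) ''
        {u : (ι × ℕ) →₀ ℕ | Finsupp.weight (wF (ι := ι)) u = m}) ∪
      (Finsupp.mapDomain (vrs j) '' {u : (ι × ℕ) →₀ ℕ | Finsupp.weight (vrw j) u = m + 1}) := by
    ext u
    constructor
    · intro hu
      have hu' : Finsupp.weight (wF (ι := ι)) u = m + 1 := hu
      by_cases h : u (j, 0) = 0
      · right
        obtain ⟨v, hv⟩ := vr5_range j u h
        refine ⟨v, ?_, hv⟩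
        show Finsupp.weight _ _ = _
        rw [← vr5_weight, hv, hu']
      · left
        have hle : Finsupp.single (j, 0) 1 ≤ u := by
          rw [Finsupp.single_le_iff]
          omega
        refine ⟨u - Finsupp.single (j, 0) 1, ?_, tsub_add_cancel_of_le hle⟩
        show Finsupp.weight _ _ = _
        have h2 : Finsupp.weight (wF (ι := ι)) (u - Finsupp.single (j, 0) 1 +
            Finsupp.single (j, 0) 1) = m + 1 := by
          rw [tsub_add_cancel_of_le hle, hu']
        rw [map_add, Finsupp.weight_single, one_smul] at h2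
        have h3 : wF (ι := ι) (j, 0) = 1 := rfl
        rw [h3] at h2
        omega
    · rintro (⟨v, hv, rfl⟩ | ⟨v, hv, rfl⟩)
      · have hv' : Finsupp.weight (wF (ι := ι)) v = m := hv
        show Finsupp.weight _ _ = _
        rw [map_add, Finsupp.weight_single, one_smul, hv']
        rfl
      · show Finsupp.weight _ _ = _
        rw [vr5_weight]
        exact hv
  have hd : Disjoint ((fun u => u + Finsupp.single (j, 0) 1) ''
        {u : (ι × ℕ) →₀ ℕ | Finsupp.weight (wF (ι := ι)) u = m})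
      (Finsupp.mapDomain (vrs j) '' {u : (ι × ℕ) →₀ ℕ | Finsupp.weight (vrw j) u = m + 1}) := by
    rw [Set.disjoint_left]
    rintro _ ⟨v, _, rfl⟩ ⟨w, _, hw⟩
    have h1 := DFunLike.congr_fun hw (j, 0)
    rw [Finsupp.mapDomain_of_notMem_range, Finsupp.add_apply, Finsupp.single_eq_same] at h1
    · omega
    · rintro ⟨x, hx⟩
      unfold vrs at hx
      split_ifs at hx with h
      · have := (Prod.mk.inj hx).2
        omega
      · rw [hx] at h
        exact h rfl
  rw [e1, Set.ncard_union_eq hd ((vp2_finite_weight (ι := ι) m).image _)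
    ((vr5_finite_K j (m + 1)).image _),
    Set.ncard_image_of_injective _ (add_left_injective _),
    Set.ncard_image_of_injective _ (Finsupp.mapDomain_injective (vr5_vrs_inj j))]

omit [Fintype ι] [DecidableEq ι] in
/-- Dimension of the space of weighted homogeneous polynomials. -/
theorem vr5_finrank (w : ι × ℕ → ℕ) (m : ℕ)
    (h : {u : (ι × ℕ) →₀ ℕ | Finsupp.weight w u = m}.Finite) :
    FiniteDimensional ℂ (weightedHomogeneousSubmodule ℂ w m) ∧
    Module.finrank ℂ (weightedHomogeneousSubmodule ℂ w m) =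
      {u : (ι × ℕ) →₀ ℕ | Finsupp.weight w u = m}.ncard := by
  rw [weightedHomogeneousSubmodule_eq_finsupp_supported]
  have hF := h.fintype
  have b := basisRestrictSupport ℂ {u : (ι × ℕ) →₀ ℕ | Finsupp.weight w u = m}
  refine ⟨Module.Finite.of_basis b, ?_⟩
  have h2 := Module.finrank_eq_card_basis b
  rw [Set.ncard_eq_toFinset_card', Set.toFinset_card]
  exact h2

theorem vr5_vop_FH (j : ι) (m : ℕ) (f : Fock ι) (hf : FH f (m + 1)) :
    FH (vop A p (bb j) (-1) f) m :=
  vop_homog A p (bb j) (-1) f (m + 1) m hf (by push_cast; ring)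

/-- `E_j : F_{m+1} → F_m`. -/
def vr5E (A : Matrix ι ι ℤ) (p : ℕ) (j : ι) (m : ℕ) :
    weightedHomogeneousSubmodule ℂ (wF (ι := ι)) (m + 1) →ₗ[ℂ]
      weightedHomogeneousSubmodule ℂ (wF (ι := ι)) m :=
  ((vop A p (bb j) (-1)).domRestrict _).codRestrict _ fun f =>
    vr5_vop_FH j m f.1 f.2

omit [Fintype ι] [DecidableEq ι] in
theorem vr5_weight_zero (w : ι × ℕ → ℕ) (hw : ∀ x, w x ≠ 0) (u : (ι × ℕ) →₀ ℕ) :
    Finsupp.weight w u = 0 ↔ u = 0 := by
  constructor
  · intro h
    ext x
    by_contra hx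
    rw [Finsupp.weight_apply, Finsupp.sum, Finset.sum_eq_zero_iff] at h
    have h2 := h x (Finsupp.mem_support_iff.2 hx)
    rw [smul_eq_mul] at h2
    rcases mul_eq_zero.1 h2 with h3 | h3
    · exact hx h3
    · exact hw x h3
  · rintro rfl
    exact map_zero _

/-- Dimension of `ker E_j` in weight `m`. -/
theorem vr5_finrank_K (hA : IsADE A) (hp : 1 ≤ p) (ε : Cocycle A p) (j : ι) (m : ℕ) :
    Module.finrank ℂ (KF A p j m) =
      {u : (ι × ℕ) →₀ ℕ | Finsupp.weight (vrw j) u = m}.ncard := by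
  have hfin := fun m => vr5_finrank (wF (ι := ι)) m (vp2_finite_weight m)
  cases m with
  | zero =>
    have e1 : KF A p j 0 = weightedHomogeneousSubmodule ℂ (wF (ι := ι)) 0 := by
      unfold KF
      rw [inf_eq_right]
      intro f hf
      exact vop_eq_zero A p (bb j) (-1) f 0 hf (by norm_num)
    rw [e1, (hfin 0).2]
    congr 1
    ext u
    show Finsupp.weight _ u = 0 ↔ Finsupp.weight _ u = 0
    rw [vr5_weight_zero _ (fun x => by unfold wF; omega),
      vr5_weight_zero _ (fun x => by unfold vrw; split_ifs <;> omega)]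
  | succ m =>
    have hF1 := (hfin (m + 1)).1
    have hF0 := (hfin m).1
    have hsurj : Function.Surjective (vr5E A p j m) := by
      rintro ⟨g, hg⟩
      obtain ⟨f, hf, hfg⟩ := vr1_surj hA hp ε j m g hg
      exact ⟨⟨f, hf⟩, Subtype.ext hfg⟩
    have h1 := LinearMap.finrank_range_add_finrank_ker (vr5E A p j m)
    rw [LinearMap.range_eq_top.2 hsurj, finrank_top, (hfin m).2, (hfin (m + 1)).2,
      vr5_card j m] at h1
    have h2 : Module.finrank ℂ (LinearMap.ker (vr5E A p j m)) =
        Module.finrank ℂ (KF A p j (m + 1)) := by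
      have e : (LinearMap.ker (vr5E A p j m)).map (Submodule.subtype _) = KF A p j (m + 1) := by
        ext f
        constructor
        · rintro ⟨⟨g, hg⟩, hgk, rfl⟩
          refine ⟨?_, hg⟩
          have := congrArg Subtype.val (LinearMap.mem_ker.1 hgk)
          exact this
        · rintro ⟨hk, hf⟩
          exact ⟨⟨f, hf⟩, Subtype.ext hk, rfl⟩
      rw [← e]
      exact (LinearEquiv.finrank_eq (Submodule.equivMapOfInjective _
        (Submodule.injective_subtype _) _))
    omega

end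

end WPQ
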