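import Pool.Agent.WPQ.WBD

/-! [WPQ-WB1] The relations `H_i E_j = E_j H_i + A_ij E_j`, `F_i E_j = E_j F_i - δ_ij H_i`, and
`[F_k, serre] = 0`, `[H_k, serre] = const * serre`.

Plan: check on `Finsupp.single w 1` (`Finsupp.lhom_ext'`); `wt A μ i (j :: w) = A i j + wt A μ i w`.
For Serre, `A_ij = 0`: `F_k (E_iE_j - E_jE_i) = (E_iE_j - E_jE_i) F_k - δ_ki (H_k E_j - E_j H_k)
- δ_kj (E_i H_k - H_k E_i) = ... - δ_ki A_ij E_j + δ_kj A_ji E_i = ...`.  For `A_ij = -1`: the same
computation; the `δ_kj` part is `-(E_iE_iH_j - 2E_iH_jE_i + H_jE_iE_i) = 0` because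
`H_jE_i = E_iH_j + A_ji E_i`; the `δ_ki` part is
`-(H_iE_iE_j + E_iH_iE_j - 2(H_iE_jE_i + E_iE_jH_i) + E_jH_iE_i + E_jE_iH_i)`, which is `0` for
`A_ii = 2`, `A_ij = -1`. -/

namespace WPQ.WB

open WPQ

noncomputable section

variable {ι : Type} [Fintype ι] [DecidableEq ι]

theorem wt_cons (A : Matrix ι ι ℤ) (μ : ι → ℤ) (i j : ι) (w : List ι) :
    wt A μ i (j :: w) = A i j + wt A μ i w := by
  simp only [wt, List.map_cons, List.sum_cons]
  ring

theorem eE_single (i : ι) (w : List ι) (c : ℂ) :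
    eE i (Finsupp.single w c) = Finsupp.single (i :: w) c := by
  unfold eE
  rw [Finsupp.lmapDomain_apply, Finsupp.mapDomain_single]

theorem eH_single (A : Matrix ι ι ℤ) (μ : ι → ℤ) (i : ι) (w : List ι) (c : ℂ) :
    eH A μ i (Finsupp.single w c) = ((wt A μ i w : ℤ) : ℂ) • Finsupp.single w c := by
  unfold eH
  rw [Finsupp.lsum_single, LinearMap.smul_apply, Finsupp.lsingle_apply]

theorem eF_nil (A : Matrix ι ι ℤ) (μ : ι → ℤ) (i : ι) (c : ℂ) :
    eF A μ i (Finsupp.single [] c) = 0 := by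
  unfold eF
  rw [Finsupp.lsum_single, LinearMap.toSpanSingleton_apply, fw, smul_zero]

theorem wb1_eF_single (A : Matrix ι ι ℤ) (μ : ι → ℤ) (i : ι) (w : List ι) (c : ℂ) :
    eF A μ i (Finsupp.single w c) = c • fw A μ i w := by
  unfold eF
  rw [Finsupp.lsum_single, LinearMap.toSpanSingleton_apply]

theorem eH_eE (A : Matrix ι ι ℤ) (μ : ι → ℤ) (i j : ι) :
    eH A μ i ∘ₗ eE j = eE j ∘ₗ eH A μ i + (A i j : ℂ) • eE j := by
  apply Finsupp.lhom_ext
  intro w c
  rw [LinearMap.comp_apply, LinearMap.add_apply, LinearMap.comp_apply, LinearMap.smul_apply,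
    eE_single, eH_single, eH_single, map_smul, eE_single, wt_cons]
  push_cast
  module

theorem eF_eE (A : Matrix ι ι ℤ) (μ : ι → ℤ) (i j : ι) :
    eF A μ i ∘ₗ eE j = eE j ∘ₗ eF A μ i - if i = j then eH A μ i else 0 := by
  apply Finsupp.lhom_ext
  intro w c
  rw [LinearMap.comp_apply, LinearMap.sub_apply, LinearMap.comp_apply, eE_single,
    wb1_eF_single, wb1_eF_single, fw, smul_sub, map_smul]
  congr 1
  by_cases h : i = j
  · rw [if_pos h, if_pos h, eH_single, Finsupp.smul_single, Finsupp.smul_single, smul_eq_mul,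
      smul_eq_mul, mul_comm]
  · rw [if_neg h, if_neg h, smul_zero, LinearMap.zero_apply]

theorem wb1_HE (A : Matrix ι ι ℤ) (μ : ι → ℤ) (i j : ι) (x : Fr ι) :
    eH A μ i (eE j x) = eE j (eH A μ i x) + (A i j : ℂ) • eE j x := by
  have h := LinearMap.congr_fun (eH_eE A μ i j) x
  simpa only [LinearMap.comp_apply, LinearMap.add_apply, LinearMap.smul_apply] using h

theorem wb1_FE (A : Matrix ι ι ℤ) (μ : ι → ℤ) (i : ι) (x : Fr ι) :
    eF A μ i (eE i x) = eE i (eF A μ i x) - eH A μ i x := by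
  have h := LinearMap.congr_fun (eF_eE A μ i i) x
  rw [if_pos rfl] at h
  simpa only [LinearMap.comp_apply, LinearMap.sub_apply] using h

theorem wb1_FE' (A : Matrix ι ι ℤ) (μ : ι → ℤ) (i j : ι) (hij : i ≠ j) (x : Fr ι) :
    eF A μ i (eE j x) = eE j (eF A μ i x) := by
  have h := LinearMap.congr_fun (eF_eE A μ i j) x
  rw [if_neg hij] at h
  simpa only [LinearMap.comp_apply, LinearMap.sub_apply, LinearMap.zero_apply, sub_zero] using h

theorem eF_serre (A : Matrix ι ι ℤ) (hA : IsADE A) (μ : ι → ℤ) (k i j : ι) (hij : i ≠ j) :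
    eF A μ k ∘ₗ serre A i j = serre A i j ∘ₗ eF A μ k := by
  apply LinearMap.ext
  intro x
  rcases hA.off i j hij with h0 | h1
  · have h0' : A j i = 0 := by rw [hA.symm j i, h0]
    simp only [serre, if_pos h0, LinearMap.comp_apply, LinearMap.sub_apply, map_sub]
    by_cases hki : k = i
    · subst hki
      simp only [wb1_FE, wb1_FE' A μ k j hij, wb1_HE, h0, h0', Int.cast_zero, zero_smul,
        add_zero, map_sub, map_add, map_smul]
      module
    by_cases hkj : k = j
    · subst hkj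
      simp only [wb1_FE, wb1_FE' A μ k i hki, wb1_HE, h0, h0', Int.cast_zero, zero_smul,
        add_zero, map_sub, map_add, map_smul]
      module
    · simp only [wb1_FE' A μ k i hki, wb1_FE' A μ k j hkj]
  · have h1' : A j i = -1 := by rw [hA.symm j i, h1]
    have hne : ¬ (A i j = 0) := by rw [h1]; decide
    have hi2 := hA.diag i
    have hj2 := hA.diag j
    simp only [serre, if_neg hne, if_pos h1, LinearMap.comp_apply, LinearMap.sub_apply,
      LinearMap.add_apply, LinearMap.smul_apply, map_sub, map_add, map_smul]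
    by_cases hki : k = i
    · subst hki
      simp only [wb1_FE, wb1_FE' A μ k j hij, wb1_HE, h1, h1', hi2, map_sub, map_add, map_smul]
      push_cast
      module
    by_cases hkj : k = j
    · subst hkj
      simp only [wb1_FE, wb1_FE' A μ k i hki, wb1_HE, h1, h1', hj2, map_sub, map_add, map_smul]
      push_cast
      module
    · simp only [wb1_FE' A μ k i hki, wb1_FE' A μ k j hkj]

theorem eH_serre (A : Matrix ι ι ℤ) (μ : ι → ℤ) (k i j : ι) :
    ∃ c : ℂ, eH A μ k ∘ₗ serre A i j = serre A i j ∘ₗ eH A μ k + c • serre A i j := by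
  by_cases h0 : A i j = 0
  · refine ⟨(A k i : ℂ) + (A k j : ℂ), ?_⟩
    apply LinearMap.ext
    intro x
    simp only [serre, if_pos h0, LinearMap.comp_apply, LinearMap.sub_apply, LinearMap.add_apply,
      LinearMap.smul_apply, wb1_HE, map_sub, map_add, map_smul]
    module
  by_cases h1 : A i j = -1
  · refine ⟨2 * (A k i : ℂ) + (A k j : ℂ), ?_⟩
    apply LinearMap.ext
    intro x
    simp only [serre, if_neg h0, if_pos h1, LinearMap.comp_apply, LinearMap.sub_apply,
      LinearMap.add_apply, LinearMap.smul_apply, wb1_HE, map_sub, map_add, map_smul]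
    module
  · refine ⟨0, ?_⟩
    simp only [serre, if_neg h0, if_neg h1, LinearMap.comp_zero, LinearMap.zero_comp, smul_zero,
      add_zero]

end

end WPQ.WB
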