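import Pool.Agent.WPQ.WB1

/-! [WPQ-WB2] The subspace `II` is stable under `E_i`, `H_i`, `F_i`.

Plan: `E_i`: clear (`eE i (eW u x) = eW (i :: u) x`).  `H_k`: `H_k (eW u x) = eW u (H_k x) + const * eW u x`
(`eH_eE`), `H_k` of a word is a multiple of the word, `eH_serre`.  `F_k`: induction on `u` with
`eF_eE`: `F_k (eE j z) = eE j (F_k z) - δ H_k z`; for `u = []`: `F_k (serre y) = serre (F_k y) ∈ II`
(`eF_serre`; `serre` of any element of `Fr` lies in `II`), and
`F_k (E_i^(n)1) = 0` for `k ≠ i`, `F_i (E_i^(n) 1) = -(∑_{m<n} (2m - μ_i)) E_i^(n-1) 1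
= -(n (n-1) - n μ_i) E_i^(n-1) 1 = 0` for `n = μ_i + 1` (here `(α_i,μ) ≥ 0` is used, so that
`mu A μ i = (α_i, μ)`). -/

namespace WPQ.WB

open WPQ

noncomputable section

variable {ι : Type} [Fintype ι] [DecidableEq ι]

theorem wb2_eW_nil (x : Fr ι) : eW [] x = x := rfl

theorem wb2_eW_cons (i : ι) (u : List ι) (x : Fr ι) : eW (i :: u) x = eE i (eW u x) := rfl

theorem wb2_eW_single (u w : List ι) (c : ℂ) :
    eW u (Finsupp.single w c) = Finsupp.single (u ++ w) c := by
  induction u with
  | nil => rfl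
  | cons i u ih => rw [wb2_eW_cons, ih, eE_single]; rfl

theorem wb2_S (A : Matrix ι ι ℤ) (μ : ι → ℤ) (u : List ι) (i j : ι) (hij : i ≠ j)
    (y : List ι) : eW u (serre A i j (Finsupp.single y 1)) ∈ II A μ :=
  Submodule.subset_span (Or.inl ⟨u, i, j, y, hij, rfl⟩)

theorem wb2_N (A : Matrix ι ι ℤ) (μ : ι → ℤ) (u : List ι) (i : ι) :
    eW u (Finsupp.single (List.replicate (mu A μ i + 1) i) 1) ∈ II A μ :=
  Submodule.subset_span (Or.inr ⟨u, i, rfl⟩)

/-- the Serre elements at an arbitrary vector -/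
theorem wb2_S' (A : Matrix ι ι ℤ) (μ : ι → ℤ) (u : List ι) (i j : ι) (hij : i ≠ j)
    (x : Fr ι) : eW u (serre A i j x) ∈ II A μ := by
  induction x using Finsupp.induction_linear with
  | zero => rw [map_zero, map_zero]; exact Submodule.zero_mem _
  | add f g hf hg => rw [map_add, map_add]; exact Submodule.add_mem _ hf hg
  | single y c =>
    have h : (Finsupp.single y c : Fr ι) = c • Finsupp.single y 1 := by
      rw [Finsupp.smul_single, smul_eq_mul, mul_one]
    rw [h, map_smul, map_smul]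
    exact Submodule.smul_mem _ _ (wb2_S A μ u i j hij y)

theorem eE_mem (A : Matrix ι ι ℤ) (μ : ι → ℤ) (i : ι) (x : Fr ι) (hx : x ∈ II A μ) :
    eE i x ∈ II A μ := by
  unfold II at hx
  induction hx using Submodule.span_induction with
  | mem x hx =>
    rcases hx with ⟨u, k, l, y, hkl, rfl⟩ | ⟨u, k, rfl⟩
    · exact wb2_S A μ (i :: u) k l hkl y
    · exact wb2_N A μ (i :: u) k
  | zero => rw [map_zero]; exact Submodule.zero_mem _
  | add x y _ _ hx hy => rw [map_add]; exact Submodule.add_mem _ hx hy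
  | smul c x _ hx => rw [map_smul]; exact Submodule.smul_mem _ _ hx

theorem wb2_eW_mem (A : Matrix ι ι ℤ) (μ : ι → ℤ) (u : List ι) (x : Fr ι) (hx : x ∈ II A μ) :
    eW u x ∈ II A μ := by
  induction u with
  | nil => exact hx
  | cons i u ih => rw [wb2_eW_cons]; exact eE_mem A μ i _ ih

/-- commutation of `H` with a word -/
theorem wb2_H_eW (A : Matrix ι ι ℤ) (μ : ι → ℤ) (k : ι) (u : List ι) (x : Fr ι) :
    ∃ c : ℂ, eH A μ k (eW u x) = eW u (eH A μ k x) + c • eW u x := by
  induction u with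
  | nil => exact ⟨0, by rw [zero_smul, add_zero]; rfl⟩
  | cons i u ih =>
    obtain ⟨c, hc⟩ := ih
    refine ⟨c + (A k i : ℂ), ?_⟩
    rw [wb2_eW_cons, wb1_HE, hc, map_add, map_smul, wb2_eW_cons]
    module

theorem eH_mem (A : Matrix ι ι ℤ) (μ : ι → ℤ) (i : ι) (x : Fr ι) (hx : x ∈ II A μ) :
    eH A μ i x ∈ II A μ := by
  unfold II at hx
  induction hx using Submodule.span_induction with
  | mem x hx =>
    rcases hx with ⟨u, k, l, y, hkl, rfl⟩ | ⟨u, k, rfl⟩
    · obtain ⟨c, hc⟩ := wb2_H_eW A μ i u (serre A k l (Finsupp.single y 1))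
      obtain ⟨d, hd⟩ := eH_serre A μ i k l
      have hd' := LinearMap.congr_fun hd (Finsupp.single y 1)
      rw [LinearMap.comp_apply, LinearMap.add_apply, LinearMap.comp_apply,
        LinearMap.smul_apply] at hd'
      rw [hc, hd', map_add, map_smul]
      exact Submodule.add_mem _ (Submodule.add_mem _ (wb2_S' A μ u k l hkl _)
        (Submodule.smul_mem _ _ (wb2_S A μ u k l hkl y)))
        (Submodule.smul_mem _ _ (wb2_S A μ u k l hkl y))
    · obtain ⟨c, hc⟩ := wb2_H_eW A μ i u
        (Finsupp.single (List.replicate (mu A μ k + 1) k) 1)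
      rw [hc, eH_single, map_smul]
      exact Submodule.add_mem _ (Submodule.smul_mem _ _ (wb2_N A μ u k))
        (Submodule.smul_mem _ _ (wb2_N A μ u k))
  | zero => rw [map_zero]; exact Submodule.zero_mem _
  | add x y _ _ hx hy => rw [map_add]; exact Submodule.add_mem _ hx hy
  | smul c x _ hx => rw [map_smul]; exact Submodule.smul_mem _ _ hx

theorem wb2_wt_rep (A : Matrix ι ι ℤ) (μ : ι → ℤ) (i : ι) (n : ℕ) :
    wt A μ i (List.replicate n i) = n * A i i - ∑ j, A i j * μ j := by
  unfold wt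
  rw [List.map_replicate, List.sum_replicate, nsmul_eq_mul]

/-- `F_i E_i^n 1` -/
theorem wb2_F_rep (A : Matrix ι ι ℤ) (hA : IsADE A) (μ : ι → ℤ) (i : ι) (n : ℕ) :
    eF A μ i (Finsupp.single (List.replicate (n + 1) i) 1) =
      ((((n : ℤ) + 1) * ((∑ j, A i j * μ j) - n) : ℤ) : ℂ) •
        Finsupp.single (List.replicate n i) 1 := by
  induction n with
  | zero =>
    rw [show List.replicate (0 + 1) i = i :: List.replicate 0 i from rfl, ← eE_single,
      wb1_FE, List.replicate_zero, eF_nil, map_zero, zero_sub, eH_single]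
    have : wt A μ i [] = - ∑ j, A i j * μ j := by simp [wt]
    rw [this]
    push_cast
    module
  | succ n ih =>
    rw [show List.replicate (n + 1 + 1) i = i :: List.replicate (n + 1) i from rfl,
      ← eE_single, wb1_FE, ih, map_smul, eE_single, eH_single, wb2_wt_rep, hA.diag i]
    rw [show List.replicate (n + 1) i = i :: List.replicate n i from rfl]
    push_cast
    module

theorem wb2_F_rep' (A : Matrix ι ι ℤ) (μ : ι → ℤ) (k i : ι) (hki : k ≠ i) (n : ℕ) :
    eF A μ k (Finsupp.single (List.replicate n i) 1) = 0 := by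
  induction n with
  | zero => exact eF_nil A μ k 1
  | succ n ih =>
    rw [show List.replicate (n + 1) i = i :: List.replicate n i from rfl, ← eE_single,
      wb1_FE' A μ k i hki, ih, map_zero]

theorem eF_mem (A : Matrix ι ι ℤ) (hA : IsADE A) (μ : ι → ℤ) (hμ : ∀ i, 0 ≤ ∑ j, A i j * μ j)
    (i : ι) (x : Fr ι) (hx : x ∈ II A μ) : eF A μ i x ∈ II A μ := by
  have key : ∀ (u : List ι) (x : Fr ι), x ∈ II A μ → eF A μ i x ∈ II A μ →
      eF A μ i (eW u x) ∈ II A μ := by
    intro u x hx hFx
    induction u with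
    | nil => exact hFx
    | cons j u ih =>
      rw [wb2_eW_cons]
      by_cases hij : i = j
      · subst hij
        rw [wb1_FE]
        exact Submodule.sub_mem _ (eE_mem A μ i _ ih)
          (eH_mem A μ i _ (wb2_eW_mem A μ u x hx))
      · rw [wb1_FE' A μ i j hij]
        exact eE_mem A μ j _ ih
  unfold II at hx
  induction hx using Submodule.span_induction with
  | mem x hx =>
    rcases hx with ⟨u, k, l, y, hkl, rfl⟩ | ⟨u, k, rfl⟩
    · apply key u _ (wb2_S' A μ [] k l hkl _)
      have h := LinearMap.congr_fun (eF_serre A hA μ i k l hkl) (Finsupp.single y 1)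
      rw [LinearMap.comp_apply, LinearMap.comp_apply] at h
      rw [wb2_eW_nil, h]
      exact wb2_S' A μ [] k l hkl _
    · apply key u _ (wb2_N A μ [] k)
      by_cases hik : i = k
      · subst hik
        rw [wb2_eW_nil, wb2_F_rep A hA μ i]
        have h0 : ((mu A μ i : ℕ) : ℤ) = ∑ j, A i j * μ j := Int.toNat_of_nonneg (hμ i)
        rw [h0, sub_self, mul_zero, Int.cast_zero, zero_smul]
        exact Submodule.zero_mem _
      · rw [wb2_eW_nil, wb2_F_rep' A μ i k hik]
        exact Submodule.zero_mem _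
  | zero => rw [map_zero]; exact Submodule.zero_mem _
  | add x y _ _ hx hy => rw [map_add]; exact Submodule.add_mem _ hx hy
  | smul c x _ hx => rw [map_smul]; exact Submodule.smul_mem _ _ hx

end

end WPQ.WB
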