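import Pool.Agent.WPQ.WBD

/-! [WPQ-WB3] `E_i` is locally nilpotent modulo `II`.

Plan: induction on the word `w`.  `w = []`: `N = μ_i + 1`, the word `i^N` is in `II` (`eW []`).
`w = j :: w'`: let `D = ad E_i` acting on operators modulo operators mapping `Fr` to `II`.
If `j = i` clear.  If `j ≠ i`, `A_ij ∈ {0,-1}`: modulo `II` (which contains `eW u (serre (anything))`)
`E_i^n E_j ≡ E_j E_i^n` if `A_ij = 0`, and if `A_ij = -1`, by induction
`E_i^n E_j ≡ n E_i E_j E_i^(n-1) - (n-1) E_j E_i^n` for `n ≥ 1` (from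
`E_i E_i E_j ≡ 2 E_iE_jE_i - E_jE_iE_i`).  If `E_i^N (single w') ∈ II` then
`E_i^(N+1) (E_j single w') ∈ II`, because `II` is stable under all `E`. -/

namespace WPQ.WB

open WPQ

noncomputable section

variable {ι : Type} [Fintype ι] [DecidableEq ι]

theorem wb3_S (A : Matrix ι ι ℤ) (μ : ι → ℤ) (u : List ι) (i j : ι) (hij : i ≠ j)
    (y : List ι) : eW u (serre A i j (Finsupp.single y 1)) ∈ II A μ :=
  Submodule.subset_span (Or.inl ⟨u, i, j, y, hij, rfl⟩)

theorem wb3_N (A : Matrix ι ι ℤ) (μ : ι → ℤ) (u : List ι) (i : ι) :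
    eW u (Finsupp.single (List.replicate (mu A μ i + 1) i) 1) ∈ II A μ :=
  Submodule.subset_span (Or.inr ⟨u, i, rfl⟩)

/-- the Serre elements at an arbitrary vector -/
theorem wb3_S' (A : Matrix ι ι ℤ) (μ : ι → ℤ) (i j : ι) (hij : i ≠ j)
    (x : Fr ι) : serre A i j x ∈ II A μ := by
  induction x using Finsupp.induction_linear with
  | zero => rw [map_zero]; exact Submodule.zero_mem _
  | add f g hf hg => rw [map_add]; exact Submodule.add_mem _ hf hg
  | single y c =>
    have h : (Finsupp.single y c : Fr ι) = c • Finsupp.single y 1 := by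
      rw [Finsupp.smul_single, smul_eq_mul, mul_one]
    rw [h, map_smul]
    exact Submodule.smul_mem _ _ (wb3_S A μ [] i j hij y)

theorem eE_mem' (A : Matrix ι ι ℤ) (μ : ι → ℤ) (i : ι) (x : Fr ι) (hx : x ∈ II A μ) :
    eE i x ∈ II A μ := by
  unfold II at hx
  induction hx using Submodule.span_induction with
  | mem x hx =>
    rcases hx with ⟨u, k, l, y, hkl, rfl⟩ | ⟨u, k, rfl⟩
    · exact wb3_S A μ (i :: u) k l hkl y
    · exact wb3_N A μ (i :: u) k
  | zero => rw [map_zero]; exact Submodule.zero_mem _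
  | add x y _ _ hx hy => rw [map_add]; exact Submodule.add_mem _ hx hy
  | smul c x _ hx => rw [map_smul]; exact Submodule.smul_mem _ _ hx

theorem wb3_succ (i : ι) (n : ℕ) (x : Fr ι) : (eE i ^ (n + 1)) x = eE i ((eE i ^ n) x) := by
  rw [pow_succ', Module.End.mul_apply]

theorem wb3_succ' (i : ι) (n : ℕ) (x : Fr ι) : (eE i ^ (n + 1)) x = (eE i ^ n) (eE i x) := by
  rw [pow_succ, Module.End.mul_apply]

theorem wb3_zero (i : ι) (x : Fr ι) : (eE i ^ 0) x = x := by
  rw [pow_zero, Module.End.one_apply]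

theorem wb3_pow_mem (A : Matrix ι ι ℤ) (μ : ι → ℤ) (i : ι) (n : ℕ) (x : Fr ι)
    (hx : x ∈ II A μ) : (eE i ^ n) x ∈ II A μ := by
  induction n with
  | zero => rw [wb3_zero]; exact hx
  | succ n ih => rw [wb3_succ]; exact eE_mem' A μ i _ ih

theorem wb3_mono (A : Matrix ι ι ℤ) (μ : ι → ℤ) (i : ι) (n k : ℕ) (x : Fr ι)
    (hx : (eE i ^ n) x ∈ II A μ) : (eE i ^ (n + k)) x ∈ II A μ := by
  rw [add_comm, pow_add, Module.End.mul_apply]
  exact wb3_pow_mem A μ i k _ hx

theorem wb3_rep (i : ι) (n : ℕ) (c : ℂ) :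
    (eE i ^ n) (Finsupp.single [] c : Fr ι) = Finsupp.single (List.replicate n i) c := by
  induction n with
  | zero => rw [wb3_zero, List.replicate_zero]
  | succ n ih =>
    rw [wb3_succ, ih]
    unfold eE
    rw [Finsupp.lmapDomain_apply, Finsupp.mapDomain_single, List.replicate_succ]

theorem wb3_comm0 (A : Matrix ι ι ℤ) (μ : ι → ℤ) (i j : ι) (hij : i ≠ j) (h0 : A i j = 0)
    (n : ℕ) (y : Fr ι) : (eE i ^ n) (eE j y) - eE j ((eE i ^ n) y) ∈ II A μ := by
  induction n with
  | zero =>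
    rw [wb3_zero, wb3_zero, sub_self]; exact Submodule.zero_mem _
  | succ n ih =>
    have h1 := wb3_S' A μ i j hij ((eE i ^ n) y)
    simp only [serre, if_pos h0, LinearMap.sub_apply, LinearMap.comp_apply] at h1
    have h2 := Submodule.add_mem _ (eE_mem' A μ i _ ih) h1
    rw [wb3_succ, wb3_succ]
    have e : eE i ((eE i ^ n) (eE j y)) - eE j (eE i ((eE i ^ n) y)) =
        eE i ((eE i ^ n) (eE j y) - eE j ((eE i ^ n) y)) +
        (eE i (eE j ((eE i ^ n) y)) - eE j (eE i ((eE i ^ n) y))) := by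
      rw [map_sub]; abel
    rw [e]; exact h2

theorem wb3_comm1 (A : Matrix ι ι ℤ) (μ : ι → ℤ) (i j : ι) (hij : i ≠ j) (h1 : A i j = -1)
    (n : ℕ) (y : Fr ι) : (eE i ^ (n + 1)) (eE j y) -
      (((n : ℂ) + 1) • eE i (eE j ((eE i ^ n) y)) - (n : ℂ) • eE j ((eE i ^ (n + 1)) y)) ∈
      II A μ := by
  have hne : ¬ (A i j = 0) := by rw [h1]; decide
  induction n with
  | zero =>
    rw [wb3_succ, wb3_zero, wb3_zero, Nat.cast_zero, zero_add, one_smul, zero_smul, sub_zero,
      sub_self]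
    exact Submodule.zero_mem _
  | succ n ih =>
    have h2 := wb3_S' A μ i j hij ((eE i ^ n) y)
    simp only [serre, if_neg hne, if_pos h1, LinearMap.sub_apply, LinearMap.add_apply,
      LinearMap.smul_apply, LinearMap.comp_apply] at h2
    have h3 := Submodule.add_mem _ (eE_mem' A μ i _ ih)
      (Submodule.smul_mem _ ((n : ℂ) + 1) h2)
    have e : (eE i ^ (n + 1 + 1)) (eE j y) -
        ((((n + 1 : ℕ) : ℂ) + 1) • eE i (eE j ((eE i ^ (n + 1)) y)) -
          ((n + 1 : ℕ) : ℂ) • eE j ((eE i ^ (n + 1 + 1)) y)) =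
        eE i ((eE i ^ (n + 1)) (eE j y) -
          (((n : ℂ) + 1) • eE i (eE j ((eE i ^ n) y)) - (n : ℂ) • eE j ((eE i ^ (n + 1)) y))) +
        ((n : ℂ) + 1) • (eE i (eE i (eE j ((eE i ^ n) y))) -
          (2 : ℂ) • eE i (eE j (eE i ((eE i ^ n) y))) + eE j (eE i (eE i ((eE i ^ n) y)))) := by
      rw [wb3_succ i (n + 1) (eE j y), wb3_succ i (n + 1) y, wb3_succ i n y]
      simp only [map_sub, map_smul]
      push_cast
      module
    rw [e]; exact h3

theorem nilp (A : Matrix ι ι ℤ) (hA : IsADE A) (μ : ι → ℤ) (i : ι) (x : Fr ι) :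
    ∃ N : ℕ, (eE i ^ N) x ∈ II A μ := by
  have words : ∀ w : List ι, ∀ c : ℂ, ∃ N : ℕ, (eE i ^ N) (Finsupp.single w c : Fr ι) ∈ II A μ := by
    intro w
    induction w with
    | nil =>
      intro c
      refine ⟨mu A μ i + 1, ?_⟩
      have h : (Finsupp.single [] c : Fr ι) = c • Finsupp.single [] 1 := by
        rw [Finsupp.smul_single, smul_eq_mul, mul_one]
      rw [h, map_smul, wb3_rep]
      exact Submodule.smul_mem _ _ (wb3_N A μ [] i)
    | cons j w ih =>
      intro c
      obtain ⟨N, hN⟩ := ih c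
      have hjw : (Finsupp.single (j :: w) c : Fr ι) = eE j (Finsupp.single w c) := by
        unfold eE
        rw [Finsupp.lmapDomain_apply, Finsupp.mapDomain_single]
      rw [hjw]
      by_cases hij : i = j
      · subst hij
        refine ⟨N, ?_⟩
        rw [← wb3_succ', wb3_succ]
        exact eE_mem' A μ i _ hN
      · rcases hA.off i j hij with h0 | h1
        · refine ⟨N, ?_⟩
          have h2 := wb3_comm0 A μ i j hij h0 N (Finsupp.single w c)
          have h3 := Submodule.add_mem _ h2 (eE_mem' A μ j _ hN)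
          rwa [sub_add_cancel] at h3
        · refine ⟨N + 1, ?_⟩
          have h2 := wb3_comm1 A μ i j hij h1 N (Finsupp.single w c)
          have h3 : ((N : ℂ) + 1) • eE i (eE j ((eE i ^ N) (Finsupp.single w c))) -
              (N : ℂ) • eE j ((eE i ^ (N + 1)) (Finsupp.single w c)) ∈ II A μ := by
            refine Submodule.sub_mem _
              (Submodule.smul_mem _ _ (eE_mem' A μ i _ (eE_mem' A μ j _ hN)))
              (Submodule.smul_mem _ _ (eE_mem' A μ j _ ?_))
            rw [wb3_succ]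
            exact eE_mem' A μ i _ hN
          have h4 := Submodule.add_mem _ h2 h3
          rwa [sub_add_cancel] at h4
  induction x using Finsupp.induction_linear with
  | zero => exact ⟨0, by rw [wb3_zero]; exact Submodule.zero_mem _⟩
  | add f g hf hg =>
    obtain ⟨N, hN⟩ := hf
    obtain ⟨M, hM⟩ := hg
    refine ⟨N + M, ?_⟩
    rw [map_add]
    refine Submodule.add_mem _ (wb3_mono A μ i N M f hN) ?_
    rw [add_comm N M]
    exact wb3_mono A μ i M N g hM
  | single w c => exact words w c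

end

end WPQ.WB
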