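import Pool.Agent.WPQ.WB2
import Pool.Agent.WPQ.WB3

/-! [WPQ-WB4] The `sl_2` argument.

Plan.  Grading: `eE i` maps `Frc c` to `Frc (c + e_i)`; `eF A μ i` maps `Frc c` to
`Frc (c - e_i)` if `c i ≥ 1` and kills `Frc c` if `c i = 0`; on `Frc c` the operator `eH A μ i` is the
scalar `h(c) = ∑ j, A i j * (c j - μ j)`.
Let `x ∈ Frc c`, `x ∉ II`, `m = h(c) > 0`.  By `nilp` take the largest `N` with
`u = eE i ^ N x ∉ II`; then `eE i u ∈ II`, `u ∈ Frc (c + N e_i)` has `H`-weight `w = m + 2N`.
Modulo `II`: `E F^(k+1) u ≡ (k+1)(w - k) F^k u` (induction, `F E = E F - H`, i.e. `E F = F E + H`),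
so `E^k F^k u ≡ (∏_{t<k} (t+1)(w-t)) u` which is not in `II` for `k ≤ w`.  Take `k = N + m ≤ w`:
`F^(N+m) u ∉ II`, and it lies in `Frc (c - m e_i)` (in particular `m ≤ c i`, otherwise it is 0). -/

namespace WPQ.WB

open WPQ

noncomputable section

variable {ι : Type} [Fintype ι] [DecidableEq ι]

/-- Words with letter counts `c - k e_i`. -/
private def wb4_K (c : ι → ℕ) (i : ι) (k : ℕ) : Submodule ℂ (Fr ι) :=
  Submodule.span ℂ {x | ∃ w : List ι, (∀ j, w.count j + (if j = i then k else 0) = c j) ∧
    x = Finsupp.single w 1}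

private theorem wb4_sum (A : Matrix ι ι ℤ) (i : ι) (w : List ι) :
    (w.map fun j => A i j).sum = ∑ j, A i j * (w.count j : ℤ) := by
  induction w with
  | nil => simp
  | cons a w ih =>
    rw [List.map_cons, List.sum_cons, ih]
    have h : ∀ j, A i j * ((a :: w).count j : ℤ)
        = A i j * (w.count j : ℤ) + (if a = j then A i j else 0) := by
      intro j
      rw [List.count_cons]
      by_cases hj : a = j
      · rw [if_pos (by simpa using hj), if_pos hj]
        push_cast
        ring
      · rw [if_neg (by simpa using hj), if_neg hj]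
        push_cast
        ring
    simp only [h, Finset.sum_add_distrib]
    rw [Finset.sum_ite_eq]
    simp only [Finset.mem_univ, if_true]
    ring

private theorem wb4_E (c : ι → ℕ) (i : ι) (x : Fr ι) (hx : x ∈ Frc c) (N : ℕ) :
    (eE i ^ N) x ∈ Frc (fun j => if j = i then c j + N else c j) := by
  unfold Frc at hx
  induction hx using Submodule.span_induction with
  | mem x hx =>
    obtain ⟨w, hw, rfl⟩ := hx
    have h : ∀ N : ℕ, (eE i ^ N) (Finsupp.single w 1) = Finsupp.single (List.replicate N i ++ w) 1 := by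
      intro N
      induction N with
      | zero => rfl
      | succ N ih =>
        rw [pow_succ', Module.End.mul_apply, ih, eE_single]
        rfl
    rw [h]
    refine Submodule.subset_span ⟨_, fun j => ?_, rfl⟩
    rw [List.count_append, List.count_replicate, hw j]
    beta_reduce
    by_cases hj : j = i
    · rw [if_pos hj, if_pos (by simpa using hj.symm), add_comm]
    · rw [if_neg hj, if_neg (by simpa using fun h => hj h.symm), zero_add]
  | zero => rw [map_zero]; exact zero_mem _
  | add x y _ _ h1 h2 => rw [map_add]; exact add_mem h1 h2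
  | smul r x _ h1 => rw [map_smul]; exact Submodule.smul_mem _ _ h1

private theorem wb4_eE (c : ι → ℕ) (i j : ι) (k : ℕ) (x : Fr ι) (hx : x ∈ wb4_K c i k) :
    eE j x ∈ wb4_K (fun l => if l = j then c l + 1 else c l) i k := by
  unfold wb4_K at hx
  induction hx using Submodule.span_induction with
  | mem x hx =>
    obtain ⟨w, hw, rfl⟩ := hx
    rw [eE_single]
    refine Submodule.subset_span ⟨_, fun l => ?_, rfl⟩
    rw [List.count_cons]
    beta_reduce
    have h := hw l
    by_cases hl : l = j
    · subst hl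
      simp only [beq_self_eq_true, if_true]
      omega
    · rw [if_neg hl, if_neg (by simpa using fun h => hl h.symm)]
      omega
  | zero => rw [map_zero]; exact zero_mem _
  | add x y _ _ h1 h2 => rw [map_add]; exact add_mem h1 h2
  | smul r x _ h1 => rw [map_smul]; exact Submodule.smul_mem _ _ h1

private theorem wb4_fw (A : Matrix ι ι ℤ) (μ : ι → ℤ) (i : ι) (w : List ι) :
    fw A μ i w ∈ wb4_K (fun j => w.count j) i 1 := by
  induction w with
  | nil => exact zero_mem _
  | cons a w ih =>
    change eE a (fw A μ i w) - (if i = a then Finsupp.single w ((wt A μ i w : ℤ) : ℂ) else 0) ∈ _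
    have h1 := wb4_eE _ i a 1 _ ih
    have e : (fun l => if l = a then w.count l + 1 else w.count l)
        = fun j => (a :: w).count j := by
      funext l
      rw [List.count_cons]
      by_cases hl : l = a
      · subst hl
        simp
      · rw [if_neg hl, if_neg (by simpa using fun h => hl h.symm)]
        rfl
    rw [e] at h1
    refine sub_mem h1 ?_
    by_cases hi : i = a
    · subst hi
      rw [if_pos rfl]
      have h2 : Finsupp.single w ((wt A μ i w : ℤ) : ℂ)
          = ((wt A μ i w : ℤ) : ℂ) • Finsupp.single w (1 : ℂ) := by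
        rw [Finsupp.smul_single, smul_eq_mul, mul_one]
      rw [h2]
      refine Submodule.smul_mem _ _ (Submodule.subset_span ⟨w, fun j => ?_, rfl⟩)
      beta_reduce
      rw [List.count_cons]
      by_cases hj : j = i
      · subst hj
        simp
      · rw [if_neg hj, if_neg (by simpa using fun h => hj h.symm)]
    · rw [if_neg hi]
      exact zero_mem _

private theorem wb4_F (A : Matrix ι ι ℤ) (μ : ι → ℤ) (c : ι → ℕ) (i : ι) (k : ℕ) (x : Fr ι)
    (hx : x ∈ wb4_K c i k) : eF A μ i x ∈ wb4_K c i (k + 1) := by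
  unfold wb4_K at hx
  induction hx using Submodule.span_induction with
  | mem x hx =>
    obtain ⟨w, hw, rfl⟩ := hx
    have h0 : eF A μ i (Finsupp.single w 1) = fw A μ i w := by
      simp [eF]
    rw [h0]
    have h1 := wb4_fw A μ i w
    refine Submodule.span_mono ?_ h1
    rintro y ⟨v, hv, rfl⟩
    refine ⟨v, fun j => ?_, rfl⟩
    have h2 := hv j
    have h3 := hw j
    beta_reduce at h2
    by_cases hj : j = i
    · rw [if_pos hj] at h2 h3 ⊢
      omega
    · rw [if_neg hj] at h2 h3 ⊢
      omega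
  | zero => rw [map_zero]; exact zero_mem _
  | add x y _ _ h1 h2 => rw [map_add]; exact add_mem h1 h2
  | smul r x _ h1 => rw [map_smul]; exact Submodule.smul_mem _ _ h1

private theorem wb4_H (A : Matrix ι ι ℤ) (hA : IsADE A) (μ : ι → ℤ) (c : ι → ℕ) (i : ι) (k : ℕ)
    (x : Fr ι) (hx : x ∈ wb4_K c i k) :
    eH A μ i x = (((∑ j, A i j * ((c j : ℤ) - μ j) - 2 * k : ℤ)) : ℂ) • x := by
  unfold wb4_K at hx
  induction hx using Submodule.span_induction with
  | mem x hx =>
    obtain ⟨w, hw, rfl⟩ := hx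
    rw [eH_single]
    congr 2
    rw [wt, wb4_sum, ← Finset.sum_sub_distrib]
    have h1 : ∀ j, A i j * ((c j : ℤ) - μ j)
        = (A i j * (w.count j : ℤ) - A i j * μ j) + (if j = i then A i j * k else 0) := by
      intro j
      rw [← hw j]
      by_cases hj : j = i
      · rw [if_pos hj, if_pos hj]
        push_cast
        ring
      · rw [if_neg hj, if_neg hj]
        push_cast
        ring
    simp only [h1, Finset.sum_add_distrib]
    rw [Finset.sum_ite_eq']
    simp only [Finset.mem_univ, if_true]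
    rw [hA.diag i]
    ring
  | zero => rw [map_zero, smul_zero]
  | add x y _ _ h1 h2 => rw [map_add, h1, h2, smul_add]
  | smul r x _ h1 => rw [map_smul, h1, smul_comm]

theorem nz_step (A : Matrix ι ι ℤ) (hA : IsADE A) (μ : ι → ℤ) (hμ : ∀ i, 0 ≤ ∑ j, A i j * μ j)
    (c : ι → ℕ) (hc : NZ A μ c) (i : ι) (m : ℕ) (hm : 0 < m)
    (hw : ∑ j, A i j * ((c j : ℤ) - μ j) = m) :
    m ≤ c i ∧ NZ A μ (fun j => if j = i then c j - m else c j) := by
  obtain ⟨x, hx, hxI⟩ := hc
  -- the largest power of `E`
  have hex := nilp A hA μ i x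
  classical
  obtain ⟨N, hN, hN'⟩ : ∃ N : ℕ, (eE i ^ N) x ∉ II A μ ∧ (eE i ^ (N + 1)) x ∈ II A μ := by
    have h1 := Nat.find_spec hex
    have h2 : Nat.find hex ≠ 0 := by
      intro h
      rw [h] at h1
      exact hxI h1
    obtain ⟨N, hN⟩ := Nat.exists_eq_succ_of_ne_zero h2
    refine ⟨N, Nat.find_min hex (by omega), ?_⟩
    rw [hN] at h1
    exact h1
  obtain ⟨u, hu⟩ : ∃ u, u = (eE i ^ N) x := ⟨_, rfl⟩
  obtain ⟨d, hd⟩ : ∃ d : ι → ℕ, d = fun j => if j = i then c j + N else c j := ⟨_, rfl⟩
  have huI : u ∉ II A μ := by rw [hu]; exact hN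
  have hEu : eE i u ∈ II A μ := by
    rw [pow_succ', Module.End.mul_apply, ← hu] at hN'
    exact hN'
  have hud : u ∈ wb4_K d i 0 := by
    have h1 := wb4_E c i x hx N
    rw [← hu, ← hd] at h1
    unfold Frc at h1
    refine Submodule.span_mono ?_ h1
    rintro y ⟨w, hw, rfl⟩
    exact ⟨w, fun j => by rw [hw j]; simp, rfl⟩
  have hFu : ∀ k : ℕ, (eF A μ i ^ k) u ∈ wb4_K d i k := by
    intro k
    induction k with
    | zero => exact hud
    | succ k ih =>
      rw [pow_succ', Module.End.mul_apply]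
      exact wb4_F A μ d i k _ ih
  have hwt : ∑ j, A i j * ((d j : ℤ) - μ j) = m + 2 * N := by
    have h1 : ∀ j, A i j * ((d j : ℤ) - μ j)
        = A i j * ((c j : ℤ) - μ j) + (if j = i then A i j * N else 0) := by
      intro j
      rw [hd]
      by_cases hj : j = i
      · simp only [if_pos hj]
        push_cast
        ring
      · simp only [if_neg hj]
        ring
    simp only [h1, Finset.sum_add_distrib]
    rw [hw, Finset.sum_ite_eq']
    simp only [Finset.mem_univ, if_true]
    rw [hA.diag i]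
  have hH : ∀ k : ℕ, eH A μ i ((eF A μ i ^ k) u)
      = ((m : ℂ) + 2 * N - 2 * k) • (eF A μ i ^ k) u := by
    intro k
    rw [wb4_H A hA μ d i k _ (hFu k), hwt]
    congr 1
    push_cast
    ring
  have hFE : ∀ y : Fr ι, eE i (eF A μ i y) = eF A μ i (eE i y) + eH A μ i y := by
    intro y
    have h1 := LinearMap.congr_fun (eF_eE A μ i i) y
    rw [if_pos rfl] at h1
    simp only [LinearMap.comp_apply, LinearMap.sub_apply] at h1
    rw [h1]
    abel
  have hkey : ∀ k : ℕ, eE i ((eF A μ i ^ (k + 1)) u)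
      - (((k : ℂ) + 1) * ((m : ℂ) + 2 * N - k)) • (eF A μ i ^ k) u ∈ II A μ := by
    intro k
    induction k with
    | zero =>
      rw [pow_one, hFE u]
      have h1 := hH 0
      simp only [pow_zero, Module.End.one_apply] at h1 ⊢
      rw [h1]
      have h2 : eF A μ i (eE i u) + ((m : ℂ) + 2 * N - 2 * ((0 : ℕ) : ℂ)) • u
          - ((((0 : ℕ) : ℂ) + 1) * ((m : ℂ) + 2 * N - ((0 : ℕ) : ℂ))) • u = eF A μ i (eE i u) := by
        rw [add_sub_assoc, ← sub_smul]
        have : ((m : ℂ) + 2 * N - 2 * ((0 : ℕ) : ℂ))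
            - ((((0 : ℕ) : ℂ) + 1) * ((m : ℂ) + 2 * N - ((0 : ℕ) : ℂ))) = 0 := by
          push_cast
          ring
        rw [this, zero_smul, add_zero]
      rw [h2]
      exact eF_mem A hA μ hμ i _ hEu
    | succ k ih =>
      have e1 : (eF A μ i ^ (k + 1 + 1)) u = eF A μ i ((eF A μ i ^ (k + 1)) u) := by
        rw [pow_succ', Module.End.mul_apply]
      have e2 : (eF A μ i ^ (k + 1)) u = eF A μ i ((eF A μ i ^ k) u) := by
        rw [pow_succ', Module.End.mul_apply]
      rw [e1, hFE, hH (k + 1)]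
      have h1 := eF_mem A hA μ hμ i _ ih
      rw [map_sub, map_smul, ← e2] at h1
      have h2 : eF A μ i (eE i ((eF A μ i ^ (k + 1)) u))
          + ((m : ℂ) + 2 * N - 2 * ((k + 1 : ℕ) : ℂ)) • (eF A μ i ^ (k + 1)) u
          - ((((k + 1 : ℕ) : ℂ) + 1) * ((m : ℂ) + 2 * N - ((k + 1 : ℕ) : ℂ)))
            • (eF A μ i ^ (k + 1)) u
          = eF A μ i (eE i ((eF A μ i ^ (k + 1)) u))
            - (((k : ℂ) + 1) * ((m : ℂ) + 2 * N - k)) • (eF A μ i ^ (k + 1)) u := by
        rw [add_sub_assoc, ← sub_smul, sub_eq_add_neg (eF A μ i _), ← neg_smul]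
        congr 2
        push_cast
        ring
      rw [h2]
      exact h1
  have hnz : ∀ k : ℕ, k ≤ m + 2 * N → (eF A μ i ^ k) u ∉ II A μ := by
    intro k
    induction k with
    | zero => intro _; exact huI
    | succ k ih =>
      intro hk hmem
      have h1 := eE_mem A μ i _ hmem
      have h2 := sub_mem h1 (hkey k)
      rw [sub_sub_cancel] at h2
      have h3 : (((k : ℂ) + 1) * ((m : ℂ) + 2 * N - k)) ≠ 0 := by
        refine mul_ne_zero (Nat.cast_add_one_ne_zero k) ?_
        have h4 : ((m : ℂ) + 2 * N - k) = ((m + 2 * N - k : ℕ) : ℂ) := by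
          rw [Nat.cast_sub (by omega)]
          push_cast
          ring
        rw [h4]
        exact Nat.cast_ne_zero.2 (by omega)
      have h5 := Submodule.smul_mem (II A μ) (((k : ℂ) + 1) * ((m : ℂ) + 2 * N - k))⁻¹ h2
      rw [smul_smul, inv_mul_cancel₀ h3, one_smul] at h5
      exact ih (by omega) h5
  have hfin := hnz (N + m) (by omega)
  have hmemK := hFu (N + m)
  have hmc : m ≤ c i := by
    by_contra hlt
    have hbot : wb4_K d i (N + m) = ⊥ := by
      rw [wb4_K, Submodule.span_eq_bot]
      rintro y ⟨w, hw', rfl⟩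
      exfalso
      have h1 := hw' i
      rw [if_pos rfl, hd] at h1
      simp only [if_true] at h1
      omega
    rw [hbot, Submodule.mem_bot] at hmemK
    rw [hmemK] at hfin
    exact hfin (zero_mem _)
  refine ⟨hmc, _, ?_, hfin⟩
  unfold Frc
  refine Submodule.span_mono ?_ hmemK
  rintro y ⟨w, hw', rfl⟩
  refine ⟨w, fun j => ?_, rfl⟩
  have h1 := hw' j
  rw [hd] at h1
  by_cases hj : j = i
  · simp only [if_pos hj] at h1 ⊢
    subst hj
    omega
  · simp only [if_neg hj] at h1 ⊢
    omega

end

end WPQ.WB
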