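import Mathlib

/-! [WPQ-WK1] From the Lefschetz property to an `sl₂`-triple (block WK, helper88). -/

namespace WPQ.WK

noncomputable section

variable {V : Type} [AddCommGroup V] [Module ℂ V]

/-- The integer weight spaces of `H`. -/
def U (H : V →ₗ[ℂ] V) (k : ℤ) : Submodule ℂ V := Module.End.eigenspace H (k : ℂ)

theorem mem_U {H : V →ₗ[ℂ] V} {k : ℤ} {v : V} : v ∈ U H k ↔ H v = (k : ℂ) • v :=
  Module.End.mem_eigenspace_iff

/-- Lefschetz pairs. -/
structure Lef (E H : V →ₗ[ℂ] V) : Prop where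
  comm : ∀ v, H (E v) = E (H v) + (2 : ℂ) • E v
  span : ⨆ k : ℤ, U H k = ⊤
  inj : ∀ (b : ℕ) (v : V), v ∈ U H (-b) → (E ^ b) v = 0 → v = 0
  surj : ∀ (b : ℕ) (w : V), w ∈ U H b → ∃ v ∈ U H (-b), (E ^ b) v = w

theorem ext_U {H : V →ₗ[ℂ] V} (hs : ⨆ k : ℤ, U H k = ⊤) {W : Type} [AddCommGroup W] [Module ℂ W]
    {A B : V →ₗ[ℂ] W} (h : ∀ k : ℤ, ∀ v ∈ U H k, A v = B v) : A = B := by
  have h1 : (⨆ k : ℤ, U H k) ≤ LinearMap.ker (A - B) := by
    refine iSup_le fun k v hv => ?_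
    rw [LinearMap.mem_ker, LinearMap.sub_apply, h k v hv, sub_self]
  rw [hs] at h1
  ext v
  have h2 := h1 (Submodule.mem_top (x := v))
  rw [LinearMap.mem_ker, LinearMap.sub_apply, sub_eq_zero] at h2
  exact h2

theorem ind_U (H : V →ₗ[ℂ] V) : iSupIndep (U H) :=
  (Module.End.eigenspaces_iSupIndep H).comp (f := fun k : ℤ => (k : ℂ)) Int.cast_injective

theorem bdd_U [FiniteDimensional ℂ V] (H : V →ₗ[ℂ] V) :
    ∃ N : ℕ, ∀ b : ℕ, N < b → ∀ v ∈ U H (-b), v = 0 := by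
  have hfin : Set.Finite {k : ℤ | U H k ≠ ⊥} :=
    WellFoundedGT.finite_ne_bot_of_iSupIndep (ind_U H)
  obtain ⟨m, hm⟩ := hfin.bddBelow
  refine ⟨(-m).toNat, fun b hb v hv => ?_⟩
  by_contra hne
  have h1 : (-b : ℤ) ∈ {k : ℤ | U H k ≠ ⊥} := by
    intro h0
    rw [h0, Submodule.mem_bot] at hv
    exact hne hv
  have h2 := hm h1
  omega

theorem glue {H : V →ₗ[ℂ] V} (hs : ⨆ k : ℤ, U H k = ⊤) (f : ℤ → V →ₗ[ℂ] V) :
    ∃ F : V →ₗ[ℂ] V, ∀ k : ℤ, ∀ v ∈ U H k, F v = f k v := by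
  classical
  have hi : DirectSum.IsInternal (U H) :=
    (DirectSum.isInternal_submodule_iff_iSupIndep_and_iSup_eq_top _).2 ⟨ind_U H, hs⟩
  let _ := hi.chooseDecomposition
  refine ⟨(DirectSum.toModule ℂ ℤ V fun k => (f k) ∘ₗ (U H k).subtype) ∘ₗ
    (DirectSum.decomposeLinearEquiv (U H)).toLinearMap, fun k v hv => ?_⟩
  rw [LinearMap.comp_apply]
  have h1 : (DirectSum.decomposeLinearEquiv (U H)).toLinearMap v =
      DirectSum.lof ℂ ℤ (fun k => U H k) k ⟨v, hv⟩ := by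
    exact DirectSum.decompose_of_mem (U H) hv
  rw [h1, DirectSum.toModule_lof]
  rfl

section
variable {E H : V →ₗ[ℂ] V}

theorem E_U (hc : ∀ v, H (E v) = E (H v) + (2 : ℂ) • E v) {k : ℤ} {v : V} (hv : v ∈ U H k) :
    E v ∈ U H (k + 2) := by
  rw [mem_U] at hv ⊢
  rw [hc, hv, map_smul]
  push_cast
  rw [add_smul]

theorem Ep_U (hc : ∀ v, H (E v) = E (H v) + (2 : ℂ) • E v) {k : ℤ} {v : V} (hv : v ∈ U H k)
    (n : ℕ) : (E ^ n) v ∈ U H (k + 2 * n) := by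
  induction n with
  | zero => simpa using hv
  | succ n ih =>
    have e : (E ^ (n + 1)) v = E ((E ^ n) v) := by rw [pow_succ' E n]; rfl
    rw [e]
    have h1 := E_U hc ih
    have h2 : k + 2 * ((n + 1 : ℕ) : ℤ) = k + 2 * n + 2 := by push_cast; ring
    rw [h2]
    exact h1

theorem pow_add_apply' (m n : ℕ) (v : V) : (E ^ (m + n)) v = (E ^ m) ((E ^ n) v) := by
  rw [pow_add]
  rfl

theorem pow_succ_apply' (n : ℕ) (v : V) : (E ^ (n + 1)) v = E ((E ^ n) v) := by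
  rw [pow_succ' E n]
  rfl

theorem pow_succ_apply (n : ℕ) (v : V) : (E ^ (n + 1)) v = (E ^ n) (E v) := by
  rw [pow_succ E n]
  rfl

theorem comm_pow {D : V →ₗ[ℂ] V} (hD : ∀ v, D (E v) = E (D v)) (n : ℕ) (v : V) :
    D ((E ^ n) v) = (E ^ n) (D v) := by
  induction n with
  | zero => rfl
  | succ n ih => rw [pow_succ_apply', pow_succ_apply', hD, ih]

/-- An operator of negative weight which commutes with `E` is zero. -/
theorem Lef.zero_of_comm [FiniteDimensional ℂ V] (hL : Lef E H) {D : V →ₗ[ℂ] V} {m : ℕ}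
    (hm : 1 ≤ m) (hD : ∀ v, D (E v) = E (D v)) (hw : ∀ v, H (D v) = D (H v) - (m : ℂ) • D v) :
    D = 0 := by
  have hDU : ∀ (k : ℤ) (v : V), v ∈ U H k → D v ∈ U H (k - m) := by
    intro k v hv
    rw [mem_U] at hv ⊢
    rw [hw, hv, map_smul]
    push_cast
    rw [sub_smul]
  obtain ⟨N, hN⟩ := bdd_U H
  have key : ∀ n b : ℕ, N < b + n → ∀ v ∈ U H (-b), D v = 0 := by
    intro n
    induction n with
    | zero =>
      intro b hb v hv
      rw [hN b (by omega) v hv, map_zero]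
    | succ n ih =>
      intro b hb v hv
      have h1 : (E ^ (b + m)) v ∈ U H ((b + 2 * m : ℕ) : ℤ) := by
        have h := Ep_U hL.comm hv (b + m)
        have e : (-b : ℤ) + 2 * ((b + m : ℕ) : ℤ) = ((b + 2 * m : ℕ) : ℤ) := by push_cast; ring
        rwa [e] at h
      obtain ⟨v', hv', h2⟩ := hL.surj _ _ h1
      have h3 := ih (b + 2 * m) (by omega) v' hv'
      have h4 : (E ^ (b + m)) (D v) = 0 := by
        rw [← comm_pow hD, ← h2, comm_pow hD, h3, map_zero]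
      have h5 : D v ∈ U H (-((b + m : ℕ) : ℤ)) := by
        have h := hDU _ v hv
        have e : (-b : ℤ) - m = -((b + m : ℕ) : ℤ) := by push_cast; ring
        rwa [e] at h
      exact hL.inj _ _ h5 h4
  have hneg : ∀ b : ℕ, ∀ v ∈ U H (-b), D v = 0 := fun b => key (N + 1) b (by omega)
  refine ext_U hL.span fun k v hv => ?_
  rw [LinearMap.zero_apply]
  rcases le_or_gt 0 k with hk | hk
  · obtain ⟨b, rfl⟩ := Int.eq_ofNat_of_zero_le hk
    obtain ⟨v', hv', rfl⟩ := hL.surj b v hv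
    rw [comm_pow hD, hneg b v' hv', map_zero]
  · have h1 := hneg (-k).toNat v (by
      have e : -(((-k).toNat : ℕ) : ℤ) = k := by omega
      rw [e]
      exact hv)
    exact h1

theorem Lef.exists_psi (hL : Lef E H) (b : ℕ) :
    ∃ ψ : V →ₗ[ℂ] V, ∀ w ∈ U H b, ψ w ∈ U H (-b) ∧ (E ^ b) (ψ w) = w := by
  have hmap : ∀ x ∈ U H (-b), (E ^ b) x ∈ U H b := by
    intro x hx
    have h := Ep_U hL.comm hx b
    have e : (-b : ℤ) + 2 * (b : ℤ) = b := by ring
    rwa [e] at h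
  let f : U H (-b) →ₗ[ℂ] U H b := (E ^ b).restrict hmap
  have hf : Function.Bijective f := by
    constructor
    · rw [← LinearMap.ker_eq_bot, LinearMap.ker_eq_bot']
      intro x hx
      have h1 : (E ^ b) (x : V) = 0 := by
        have := congrArg Subtype.val hx
        simpa [f] using this
      exact Subtype.ext (hL.inj b x x.2 h1)
    · intro w
      obtain ⟨v, hv, h1⟩ := hL.surj b w w.2
      exact ⟨⟨v, hv⟩, Subtype.ext h1⟩
  let e := LinearEquiv.ofBijective f hf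
  obtain ⟨g, hg⟩ := LinearMap.exists_extend ((U H (-b)).subtype ∘ₗ e.symm.toLinearMap)
  refine ⟨g, fun w hw => ?_⟩
  have h1 : g w = (e.symm ⟨w, hw⟩ : V) := by
    have := congrArg (fun (F : U H b →ₗ[ℂ] V) => F ⟨w, hw⟩) hg
    simpa using this
  rw [h1]
  refine ⟨(e.symm ⟨w, hw⟩).2, ?_⟩
  have h2 : e (e.symm ⟨w, hw⟩) = ⟨w, hw⟩ := e.apply_symm_apply _
  exact congrArg Subtype.val h2

/-- the recursion -/
def rec' (E : V →ₗ[ℂ] V) (Φ : ℕ → V →ₗ[ℂ] V) : ℕ → ℕ → V →ₗ[ℂ] V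
  | 0, _ => 0
  | n + 1, b => ((b : ℂ) + 2) • Φ b + E ∘ₗ rec' E Φ n (b + 2) ∘ₗ Φ b

theorem rec_succ (Φ : ℕ → V →ₗ[ℂ] V) (n b : ℕ) (x : V) :
    rec' E Φ (n + 1) b x = ((b : ℂ) + 2) • Φ b x + E (rec' E Φ n (b + 2) (Φ b x)) := rfl

theorem rec_mem (hc : ∀ v, H (E v) = E (H v) + (2 : ℂ) • E v) {Φ : ℕ → V →ₗ[ℂ] V}
    (hΦ : ∀ b : ℕ, ∀ x ∈ U H (-b), Φ b x ∈ U H (-((b + 2 : ℕ) : ℤ))) (n : ℕ) :
    ∀ b : ℕ, ∀ x ∈ U H (-b), rec' E Φ n b x ∈ U H (-((b + 2 : ℕ) : ℤ)) := by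
  induction n with
  | zero =>
    intro b x _
    exact Submodule.zero_mem _
  | succ n ih =>
    intro b x hx
    rw [rec_succ]
    have h1 := hΦ b x hx
    refine Submodule.add_mem _ (Submodule.smul_mem _ _ h1) ?_
    have h2 := E_U hc (ih (b + 2) _ h1)
    have e : -((b + 2 + 2 : ℕ) : ℤ) + 2 = -((b + 2 : ℕ) : ℤ) := by push_cast; ring
    rwa [e] at h2

theorem rec_stab {N : ℕ} (hN : ∀ b : ℕ, N < b → ∀ v ∈ U H (-b), v = 0) {Φ : ℕ → V →ₗ[ℂ] V}
    (hΦ : ∀ b : ℕ, ∀ x ∈ U H (-b), Φ b x ∈ U H (-((b + 2 : ℕ) : ℤ))) (n : ℕ) :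
    ∀ b : ℕ, N < b + 2 * n + 2 → ∀ x ∈ U H (-b), rec' E Φ n b x = rec' E Φ (n + 1) b x := by
  induction n with
  | zero =>
    intro b hb x hx
    have h1 := hΦ b x hx
    rw [rec_succ, hN (b + 2) (by omega) _ h1]
    simp [rec']
  | succ n ih =>
    intro b hb x hx
    have h1 := hΦ b x hx
    rw [rec_succ Φ n, rec_succ Φ (n + 1), ih (b + 2) (by omega) _ h1]

/-- Existence of the lowering operator. -/
theorem Lef.exists_F [FiniteDimensional ℂ V] (hL : Lef E H) :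
    ∃ F : V →ₗ[ℂ] V, (∀ v, E (F v) - F (E v) = H v) ∧
      ∀ v, H (F v) = F (H v) - (2 : ℂ) • F v := by
  choose ψ hψ using hL.exists_psi
  obtain ⟨N, hN⟩ := bdd_U H
  set Φ : ℕ → V →ₗ[ℂ] V := fun b => ψ (b + 2) ∘ₗ (E ^ (b + 1)) with hΦdef
  have hup : ∀ b : ℕ, ∀ x ∈ U H (-b), (E ^ (b + 1)) x ∈ U H ((b + 2 : ℕ) : ℤ) := by
    intro b x hx
    have h := Ep_U hL.comm hx (b + 1)
    have e : (-b : ℤ) + 2 * ((b + 1 : ℕ) : ℤ) = ((b + 2 : ℕ) : ℤ) := by push_cast; ring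
    rwa [e] at h
  have hΦ1 : ∀ b : ℕ, ∀ x ∈ U H (-b), Φ b x ∈ U H (-((b + 2 : ℕ) : ℤ)) := fun b x hx =>
    (hψ (b + 2) _ (hup b x hx)).1
  have hΦ2 : ∀ b : ℕ, ∀ x ∈ U H (-b), (E ^ (b + 2)) (Φ b x) = (E ^ (b + 1)) x := fun b x hx =>
    (hψ (b + 2) _ (hup b x hx)).2
  have hψinv : ∀ b : ℕ, ∀ v ∈ U H (-b), ψ b ((E ^ b) v) = v := by
    intro b v hv
    have h1 : (E ^ b) v ∈ U H b := by
      have h := Ep_U hL.comm hv b
      have e : (-b : ℤ) + 2 * (b : ℤ) = b := by ring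
      rwa [e] at h
    obtain ⟨h2, h3⟩ := hψ b _ h1
    have h4 := hL.inj b _ (Submodule.sub_mem _ h2 hv) (by rw [map_sub, h3, sub_self])
    rwa [sub_eq_zero] at h4
  have hΦuniq : ∀ b : ℕ, ∀ x ∈ U H (-b), ∀ z ∈ U H (-((b + 2 : ℕ) : ℤ)),
      (E ^ (b + 2)) z = (E ^ (b + 1)) x → Φ b x = z := by
    intro b x hx z hz h
    have h4 := hL.inj (b + 2) _ (Submodule.sub_mem _ (hΦ1 b x hx) hz)
      (by rw [map_sub, hΦ2 b x hx, h, sub_self])
    rwa [sub_eq_zero] at h4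
  set fn : ℕ → V →ₗ[ℂ] V := fun b => rec' E Φ N b with hfn
  have hfn_mem : ∀ b : ℕ, ∀ x ∈ U H (-b), fn b x ∈ U H (-((b + 2 : ℕ) : ℤ)) :=
    rec_mem hL.comm hΦ1 N
  have K1 : ∀ b : ℕ, ∀ x ∈ U H (-b), fn b x = ((b : ℂ) + 2) • Φ b x + E (fn (b + 2) (Φ b x)) := by
    intro b x hx
    simp only [hfn]
    rw [rec_stab hN hΦ1 N b (by omega) x hx, rec_succ]
  obtain ⟨F, hF⟩ := glue hL.span fun k : ℤ =>
    if k ≤ 0 then fn (-k).toNat
    else (E ^ k.toNat) ∘ₗ fn k.toNat ∘ₗ ψ k.toNat +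
      ((k.toNat : ℕ) : ℂ) • ((E ^ (k.toNat - 1)) ∘ₗ ψ k.toNat)
  have F0 : ∀ b : ℕ, ∀ x ∈ U H (-b), F x = fn b x := by
    intro b x hx
    rw [hF _ x hx, if_pos (by omega)]
    congr 1
    simp
  have F1 : ∀ b : ℕ, ∀ w ∈ U H ((b + 1 : ℕ) : ℤ), F w = (E ^ (b + 1)) (fn (b + 1) (ψ (b + 1) w)) +
      ((b : ℂ) + 1) • (E ^ b) (ψ (b + 1) w) := by
    intro b w hw
    rw [hF _ w hw, if_neg (by push_cast; omega)]
    have e : (((b + 1 : ℕ) : ℤ)).toNat = b + 1 := by simp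
    rw [e]
    simp
  -- the commutator
  have hcomm : ∀ k : ℤ, ∀ v ∈ U H k, E (F v) - F (E v) = H v := by
    intro k v hv
    rcases le_or_gt 1 k with hk | hk
    · -- positive weight
      obtain ⟨b, rfl⟩ : ∃ b : ℕ, k = ((b + 1 : ℕ) : ℤ) := ⟨(k - 1).toNat, by push_cast; omega⟩
      obtain ⟨h1, h2⟩ := hψ (b + 1) v hv
      set x := ψ (b + 1) v with hx
      set z := Φ (b + 1) x with hz
      have hz1 := hΦ1 (b + 1) x h1
      have hz2 := hΦ2 (b + 1) x h1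
      rw [← hz] at hz1 hz2
      have hEv : E v ∈ U H ((b + 2 + 1 : ℕ) : ℤ) := by
        have h := E_U hL.comm hv
        have e : ((b + 1 : ℕ) : ℤ) + 2 = ((b + 2 + 1 : ℕ) : ℤ) := by push_cast; ring
        rwa [e] at h
      have e1 : E v = (E ^ (b + 2 + 1)) z := by
        rw [show b + 2 + 1 = b + 1 + 2 by ring, hz2, pow_succ_apply', h2]
      have e2 : ψ (b + 2 + 1) (E v) = z := by
        rw [e1]
        exact hψinv _ _ hz1
      rw [F1 b v hv, F1 (b + 2) (E v) hEv, e2, ← hx, K1 (b + 1) x h1, ← hz, mem_U.1 hv, map_add,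
        map_smul, map_add, map_smul, map_add, map_smul, ← pow_succ_apply', ← pow_succ_apply',
        ← pow_succ_apply', ← pow_succ_apply, h2]
      push_cast
      have e3 : (E ^ (b + 1 + 1 + 1)) (fn (b + 1 + 2) z) =
        (E ^ (b + 2 + 1)) (fn (b + 2 + 1) z) := rfl
      have e4 : (E ^ (b + 1 + 1)) z = (E ^ (b + 2)) z := rfl
      rw [e3, e4]
      module
    · rcases eq_or_ne k 0 with h0 | h0
      · subst h0
        have hv0 : v ∈ U H (-((0 : ℕ) : ℤ)) := by simpa using hv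
        set z := Φ 0 v with hz
        have hz1 := hΦ1 0 v hv0
        have hz2 := hΦ2 0 v hv0
        rw [← hz] at hz1 hz2
        have hEv : E v ∈ U H ((1 + 1 : ℕ) : ℤ) := by
          have h := E_U hL.comm hv
          have e : (0 : ℤ) + 2 = ((1 + 1 : ℕ) : ℤ) := by norm_num
          rwa [e] at h
        have e1 : E v = (E ^ (1 + 1)) z := by
          rw [show 1 + 1 = 0 + 2 by norm_num, hz2]
          simp
        have e2 : ψ (1 + 1) (E v) = z := by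
          rw [e1]
          exact hψinv _ _ hz1
        rw [F0 0 v hv0, F1 1 (E v) hEv, e2, K1 0 v hv0, ← hz, mem_U.1 hv, map_add, map_smul]
        have e3 : (E ^ (1 + 1)) (fn (1 + 1) z) = E (E (fn (0 + 2) z)) := by
          rw [pow_succ_apply', pow_one]
        have e4 : (E ^ 1) z = E z := by rw [pow_one]
        rw [e4, e3]
        push_cast
        module
      · rcases eq_or_ne k (-1) with h1 | h1
        · subst h1
          have hv0 : v ∈ U H (-((1 : ℕ) : ℤ)) := by simpa using hv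
          have hEv : E v ∈ U H ((0 + 1 : ℕ) : ℤ) := by
            have h := E_U hL.comm hv
            have e : (-1 : ℤ) + 2 = ((0 + 1 : ℕ) : ℤ) := by norm_num
            rwa [e] at h
          have e2 : ψ (0 + 1) (E v) = v := by
            have h := hψinv 1 v hv0
            rw [pow_one] at h
            exact h
          rw [F0 1 v hv0, F1 0 (E v) hEv, e2, mem_U.1 hv]
          have e3 : (E ^ (0 + 1)) (fn (0 + 1) v) = E (fn 1 v) := by
            rw [zero_add, pow_one]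
          have e4 : (E ^ 0) v = v := rfl
          rw [e3, e4]
          push_cast
          module
        · obtain ⟨c, rfl⟩ : ∃ c : ℕ, k = -((c + 2 : ℕ) : ℤ) := ⟨(-k - 2).toNat, by push_cast; omega⟩
          have hEv : E v ∈ U H (-(c : ℤ)) := by
            have h := E_U hL.comm hv
            have e : -((c + 2 : ℕ) : ℤ) + 2 = -(c : ℤ) := by push_cast; ring
            rwa [e] at h
          have e1 : Φ c (E v) = v := hΦuniq c _ hEv v hv (pow_succ_apply (c + 1) v)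
          rw [F0 (c + 2) v hv, F0 c (E v) hEv, K1 c (E v) hEv, e1, mem_U.1 hv]
          push_cast
          module
  have hmem : ∀ k : ℤ, ∀ v ∈ U H k, F v ∈ U H (k - 2) := by
    intro k v hv
    rcases le_or_gt 1 k with hk | hk
    · obtain ⟨b, rfl⟩ : ∃ b : ℕ, k = ((b + 1 : ℕ) : ℤ) := ⟨(k - 1).toNat, by push_cast; omega⟩
      rw [F1 b v hv]
      obtain ⟨h1, h2⟩ := hψ (b + 1) v hv
      refine Submodule.add_mem _ ?_ (Submodule.smul_mem _ _ ?_)
      · have h := Ep_U hL.comm (hfn_mem _ _ h1) (b + 1)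
        have e : -((b + 1 + 2 : ℕ) : ℤ) + 2 * ((b + 1 : ℕ) : ℤ) = ((b + 1 : ℕ) : ℤ) - 2 := by
          push_cast
          ring
        rwa [e] at h
      · have h := Ep_U hL.comm h1 b
        have e : -((b + 1 : ℕ) : ℤ) + 2 * (b : ℤ) = ((b + 1 : ℕ) : ℤ) - 2 := by
          push_cast
          ring
        rwa [e] at h
    · obtain ⟨c, rfl⟩ : ∃ c : ℕ, k = -(c : ℤ) := ⟨(-k).toNat, by omega⟩
      rw [F0 c v hv]
      have h := hfn_mem c v hv
      have e : -((c + 2 : ℕ) : ℤ) = -(c : ℤ) - 2 := by push_cast; ring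
      rwa [e] at h
  refine ⟨F, ?_, ?_⟩
  · have h : E ∘ₗ F - F ∘ₗ E = H := ext_U hL.span fun k v hv => by
      rw [LinearMap.sub_apply, LinearMap.comp_apply, LinearMap.comp_apply]
      exact hcomm k v hv
    intro v
    exact congrArg (fun f : V →ₗ[ℂ] V => f v) h
  · have h : H ∘ₗ F = F ∘ₗ H - (2 : ℂ) • F := ext_U hL.span fun k v hv => by
      rw [LinearMap.sub_apply, LinearMap.comp_apply, LinearMap.comp_apply, LinearMap.smul_apply,
        mem_U.1 (hmem k v hv), mem_U.1 hv, map_smul]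
      push_cast
      module
    intro v
    exact congrArg (fun f : V →ₗ[ℂ] V => f v) h

end

end

end WPQ.WK
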