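import Pool.Agent.WPQ.WK1
import Pool.Agent.WPQ.Defs

/-! [WPQ-WK2] The lowering operators of a family of Lefschetz operators (block WK, helper88). -/

namespace WPQ.WK

noncomputable section

variable {ι : Type} [Fintype ι] [DecidableEq ι] {A : Matrix ι ι ℤ}
variable {V : Type} [AddCommGroup V] [Module ℂ V]

/-- A family of Lefschetz operators `E j` with Serre relations. -/
structure Sys (A : Matrix ι ι ℤ) (E H : ι → V →ₗ[ℂ] V) : Prop where
  span : Submodule.span ℂ {v : V | ∀ i, ∃ k : ℤ, H i v = (k : ℂ) • v} = ⊤
  comm : ∀ i j v, H i (E j v) = E j (H i v) + (A i j : ℂ) • E j v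
  inj : ∀ j (b : ℕ) (v : V), H j v = (-(b : ℂ)) • v → (E j ^ b) v = 0 → v = 0
  surj : ∀ j (b : ℕ) (w : V), H j w = (b : ℂ) • w →
    ∃ v, H j v = (-(b : ℂ)) • v ∧ (E j ^ b) v = w
  serre0 : ∀ i j, i ≠ j → A i j = 0 → ∀ v, E j (E i v) = E i (E j v)
  serre1 : ∀ i j, i ≠ j → A i j = -1 → ∀ v,
    E j (E j (E i v)) - (2 : ℂ) • E j (E i (E j v)) + E i (E j (E j v)) = 0

variable {E H : ι → V →ₗ[ℂ] V}

omit [DecidableEq ι] in
theorem Sys.lef (hA : IsADE A) (hS : Sys A E H) (j : ι) : Lef (E j) (H j) where
  comm v := by
    rw [hS.comm j j v, hA.diag j]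
    norm_num
  span := by
    rw [eq_top_iff, ← hS.span, Submodule.span_le]
    intro v hv
    obtain ⟨k, hk⟩ := hv j
    exact Submodule.mem_iSup_of_mem k (mem_U.2 hk)
  inj b v hv h := by
    rw [mem_U] at hv
    refine hS.inj j b v ?_ h
    rw [hv]
    push_cast
    rfl
  surj b w hw := by
    rw [mem_U] at hw
    obtain ⟨v, h1, h2⟩ := hS.surj j b w (by rw [hw]; push_cast; rfl)
    refine ⟨v, ?_, h2⟩
    rw [mem_U, h1]
    push_cast
    rfl

theorem ext_span {S : Set V} (hs : Submodule.span ℂ S = ⊤) {W : Type} [AddCommGroup W]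
    [Module ℂ W] {B C : V →ₗ[ℂ] W} (h : ∀ v ∈ S, B v = C v) : B = C :=
  LinearMap.ext_on hs h

omit [Fintype ι] [DecidableEq ι] in
theorem HH (hs : Submodule.span ℂ {v : V | ∀ i, ∃ k : ℤ, H i v = (k : ℂ) • v} = ⊤) (i j : ι) :
    H i * H j = H j * H i := by
  refine ext_span hs fun v hv => ?_
  obtain ⟨a, ha⟩ := hv i
  obtain ⟨b, hb⟩ := hv j
  rw [Module.End.mul_apply, Module.End.mul_apply, ha, hb, map_smul, map_smul, ha, hb, smul_comm]

section
variable {R : Type} [Ring R]

theorem ring_id (e f h x : R) :
    e * (e * (f * x - x * f) - (f * x - x * f) * e) -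
      (e * (f * x - x * f) - (f * x - x * f) * e) * e =
    f * (e * e * x - 2 * (e * x * e) + x * e * e) - (e * e * x - 2 * (e * x * e) + x * e * e) * f +
    2 * (e * (h * x - x * h + x)) - 2 * ((h * x - x * h + x) * e) +
    (h * e - e * h - 2 * e) * x - x * (h * e - e * h - 2 * e) +
    (e * f - f * e - h) * e * x + e * (e * f - f * e - h) * x - 2 * (e * x * (e * f - f * e - h)) +
    x * (e * f - f * e - h) * e + x * e * (e * f - f * e - h) -
    2 * ((e * f - f * e - h) * x * e) := by
  noncomm_ring

end

theorem Sys.exists_F [FiniteDimensional ℂ V] (hA : IsADE A) (hS : Sys A E H) :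
    ∃ F : ι → V →ₗ[ℂ] V, (∀ i j, E i * F j - F j * E i = if i = j then H j else 0) ∧
      ∀ i j, H i * F j = F j * H i - (A i j : ℂ) • F j := by
  choose F hF1 hF2 using fun j => (hS.lef hA j).exists_F
  have c1 : ∀ j, E j * F j = F j * E j + H j := by
    intro j
    ext v
    have := hF1 j v
    simp only [Module.End.mul_apply, LinearMap.add_apply]
    rw [← this]
    abel
  have c2 : ∀ j, H j * F j = F j * H j - (2 : ℂ) • F j := by
    intro j
    ext v
    exact hF2 j v
  have c3 : ∀ i j, H i * E j = E j * H i + (A i j : ℂ) • E j := by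
    intro i j
    ext v
    exact hS.comm i j v
  have c4 := HH hS.span
  have zero : ∀ (j : ι) (D : V →ₗ[ℂ] V) (m : ℕ), 1 ≤ m → D * E j = E j * D →
      H j * D = D * H j - (m : ℂ) • D → D = 0 := by
    intro j D m hm h1 h2
    refine (hS.lef hA j).zero_of_comm hm (fun v => ?_) (fun v => ?_)
    · exact congrArg (fun f : V →ₗ[ℂ] V => f v) h1
    · exact congrArg (fun f : V →ₗ[ℂ] V => f v) h2
  have hHF : ∀ i j, H i * F j = F j * H i - (A i j : ℂ) • F j := by
    intro i j
    have h0 : H i * F j - F j * H i + (A i j : ℂ) • F j = 0 := by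
      refine zero j _ 2 (by norm_num) ?_ ?_
      · have e1 : E j * H i = H i * E j - (A i j : ℂ) • E j := by rw [c3]; abel
        rw [mul_add, mul_sub, add_mul, sub_mul, smul_mul_assoc, mul_smul_comm]
        have e2 : E j * (H i * F j) = H i * (F j * E j) + H i * H j - (A i j : ℂ) • (E j * F j) := by
          rw [← mul_assoc, e1, sub_mul, mul_assoc, c1, mul_add, smul_mul_assoc, c1]
        have e3 : E j * (F j * H i) = F j * (E j * H i) + H j * H i := by
          rw [← mul_assoc, c1, add_mul, mul_assoc]
        have e4 : F j * H i * E j = F j * (E j * H i) + (A i j : ℂ) • (F j * E j) := by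
          rw [mul_assoc, c3, mul_add, mul_smul_comm]
        rw [e2, e3, e4, c4 i j, c1 j, mul_assoc, smul_add]
        abel
      · rw [mul_add, mul_sub, add_mul, sub_mul, smul_mul_assoc, mul_smul_comm]
        have e1 : H j * (H i * F j) = H i * F j * H j - (2 : ℂ) • (H i * F j) := by
          rw [← mul_assoc, c4 j i, mul_assoc, c2, mul_sub, mul_smul_comm, mul_assoc]
        have e2 : H j * (F j * H i) = F j * H i * H j - (2 : ℂ) • (F j * H i) := by
          rw [← mul_assoc, c2, sub_mul, smul_mul_assoc, mul_assoc, c4 j i, mul_assoc]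
        rw [e1, e2, c2 j]
        push_cast
        module
    rw [add_eq_zero_iff_eq_neg] at h0
    rw [sub_eq_iff_eq_add] at h0
    rw [h0]
    abel
  have hoff : ∀ i j, i ≠ j → F j * E i - E i * F j = 0 := by
    intro i j hij
    have hsym : A j i = A i j := hA.symm j i
    rcases hA.off i j hij with h | h
    · -- commuting case
      have s0 : E j * E i = E i * E j := by
        ext v
        exact hS.serre0 i j hij h v
      have c3' : H j * E i = E i * H j := by
        rw [c3, hsym, h]
        simp
      refine zero j _ 2 (by norm_num) ?_ ?_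
      · have e1 : F j * E i * E j = F j * E j * E i := by rw [mul_assoc, ← s0, ← mul_assoc]
        have e2 : E j * (F j * E i) = F j * E j * E i + E i * H j := by
          rw [← mul_assoc, c1, add_mul, c3']
        have e3 : E j * (E i * F j) = E i * (F j * E j) + E i * H j := by
          rw [← mul_assoc, s0, mul_assoc, c1, mul_add]
        rw [mul_sub, sub_mul, e1, e2, e3, mul_assoc (E i)]
        abel
      · have e1 : H j * (F j * E i) = F j * E i * H j - (2 : ℂ) • (F j * E i) := by
          rw [← mul_assoc, c2, sub_mul, smul_mul_assoc, mul_assoc, c3', mul_assoc]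
        have e2 : H j * (E i * F j) = E i * F j * H j - (2 : ℂ) • (E i * F j) := by
          rw [← mul_assoc, c3', mul_assoc, c2, mul_sub, mul_smul_comm, mul_assoc]
        rw [mul_sub, sub_mul, e1, e2]
        push_cast
        module
    · have s1 : E j * E j * E i - 2 * (E j * E i * E j) + E i * E j * E j = 0 := by
        ext v
        have := hS.serre1 i j hij h v
        simp only [LinearMap.add_apply, LinearMap.sub_apply, Module.End.mul_apply,
          LinearMap.zero_apply]
        rw [← this]
        have e : ((2 : V →ₗ[ℂ] V)) (E j (E i (E j v))) = (2 : ℂ) • E j (E i (E j v)) := by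
          rw [two_smul, ← one_add_one_eq_two, LinearMap.add_apply]
          rfl
        rw [e]
      have c3' : H j * E i = E i * H j - E i := by
        rw [c3, hsym, h]
        simp [sub_eq_add_neg]
      have c3j : H j * E j = E j * H j + 2 * E j := by
        rw [c3, hA.diag j]
        rw [two_mul]
        push_cast
        rw [two_smul]
      -- weights
      have wD : H j * (F j * E i - E i * F j) = (F j * E i - E i * F j) * H j -
          ((3 : ℕ) : ℂ) • (F j * E i - E i * F j) := by
        have e1 : H j * (F j * E i) = F j * E i * H j - (3 : ℂ) • (F j * E i) := by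
          rw [← mul_assoc, c2, sub_mul, smul_mul_assoc, mul_assoc, c3', mul_sub, mul_assoc]
          module
        have e2 : H j * (E i * F j) = E i * F j * H j - (3 : ℂ) • (E i * F j) := by
          rw [← mul_assoc, c3', sub_mul, mul_assoc, c2, mul_sub, mul_smul_comm, mul_assoc]
          module
        rw [mul_sub, sub_mul, e1, e2]
        push_cast
        module
      set D : V →ₗ[ℂ] V := F j * E i - E i * F j with hD
      clear_value D
      have hD1 : E j * D - D * E j = 0 := by
        refine zero j _ 1 le_rfl ?_ ?_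
        · have hid := ring_id (E j) (F j) (H j) (E i)
          have r1 : E j * F j - F j * E j - H j = 0 := by rw [c1]; abel
          have r2 : H j * E i - E i * H j + E i = 0 := by rw [c3']; abel
          have r3 : H j * E j - E j * H j - 2 * E j = 0 := by rw [c3j]; abel
          rw [s1, r1, r2, r3, ← hD] at hid
          simp only [mul_zero, zero_mul, sub_zero, add_zero] at hid
          exact (sub_eq_zero.1 hid).symm
        · have e1 : H j * (E j * D) = E j * D * H j - (1 : ℂ) • (E j * D) := by
            rw [← mul_assoc, c3j, add_mul, mul_assoc, wD, mul_sub, mul_smul_comm, two_mul, add_mul,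
              ← mul_assoc]
            push_cast
            module
          have e2 : H j * (D * E j) = D * E j * H j - (1 : ℂ) • (D * E j) := by
            rw [← mul_assoc, wD, sub_mul, mul_assoc, c3j, mul_add, two_mul, mul_add, ← mul_assoc,
              smul_mul_assoc]
            push_cast
            module
          rw [mul_sub, sub_mul, e1, e2]
          push_cast
          module
      exact zero j _ 3 (by norm_num) (sub_eq_zero.1 hD1).symm wD
  refine ⟨F, fun i j => ?_, hHF⟩
  by_cases hij : i = j
  · subst hij
    rw [if_pos rfl, c1]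
    abel
  · rw [if_neg hij]
    have := hoff i j hij
    rw [sub_eq_zero] at this ⊢
    exact this.symm

end

end WPQ.WK
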