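import Pool.Agent.WPQ.WK2

/-! [WPQ-WK3] The Casimir sum of type `A` (block WK, helper88). -/

namespace WPQ.WK

noncomputable section

section
variable {R : Type} [Ring R]

/-- the commutator -/
def cm (a b : R) : R := a * b - b * a

theorem skew (a b : R) : -cm a b = cm b a := by
  simp only [cm]
  noncomm_ring

theorem zero_cm (a : R) : cm 0 a = 0 := by simp [cm]

theorem cm_zero (a : R) : cm a 0 = 0 := by simp [cm]

theorem cm_self (a : R) : cm a a = 0 := by simp [cm]

theorem neg_cm (a b : R) : cm (-a) b = -cm a b := by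
  simp only [cm]
  noncomm_ring

theorem cm_neg (a b : R) : cm a (-b) = -cm a b := by
  simp only [cm]
  noncomm_ring

theorem cm_sub (a b c : R) : cm a (b - c) = cm a b - cm a c := by
  simp only [cm]
  noncomm_ring

/-- Chevalley relations of type `A_l`, extended by zero. -/
structure TA (l : ℕ) (E F H : ℕ → R) : Prop where
  Ez : ∀ k, l ≤ k → E k = 0
  Fz : ∀ k, l ≤ k → F k = 0
  EE : ∀ i j, i + 1 < j → (cm (E i) (E j)) = 0
  S1 : ∀ i, (cm (cm (E i) (E (i + 1))) (E (i + 1))) = 0
  S2 : ∀ i, (cm (cm (E i) (E (i + 1))) (E i)) = 0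
  FEo : ∀ i j, i ≠ j → (cm (F i) (E j)) = 0
  FEd : ∀ i, (cm (F i) (E i)) = -H i
  FF : ∀ i j, i + 1 < j → (cm (F j) (F i)) = 0
  HF0 : ∀ i j, i + 1 < j → j < l → (cm (H j) (F i)) = 0
  HF1 : ∀ i, i + 1 < l → (cm (H (i + 1)) (F i)) = F i
  HF2 : ∀ i, i < l → (cm (H i) (F (i + 1))) = F (i + 1)

/-- positive root vectors -/
def ee (E : ℕ → R) (i : ℕ) : ℕ → R
  | 0 => E i
  | n + 1 => (cm (ee E i n) (E (i + n + 1)))

/-- negative root vectors -/
def ff (F : ℕ → R) (i : ℕ) : ℕ → R
  | 0 => F i
  | n + 1 => (cm (F (i + n + 1)) (ff F i n))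

theorem jac (a b c : R) : (cm (cm a b) c) = (cm (cm a c) b) + (cm a (cm b c)) := by
  simp only [cm]
  noncomm_ring

theorem jac' (a b c : R) : (cm a (cm b c)) = (cm (cm a b) c) + (cm b (cm a c)) := by
  simp only [cm]
  noncomm_ring

variable {l : ℕ} {E F H : ℕ → R}

theorem TA.EE' (h : TA l E F H) {i j : ℕ} (hij : i + 1 < j) : (cm (E j) (E i)) = 0 := by
  rw [← skew, h.EE i j hij, neg_zero]

theorem TA.e1 (h : TA l E F H) (i n k : ℕ) (hk : i + n + 1 < k) : (cm (ee E i n) (E k)) = 0 := by
  induction n with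
  | zero => exact h.EE i k (by omega)
  | succ n ih =>
    have e : ee E i (n + 1) = (cm (ee E i n) (E (i + n + 1))) := rfl
    rw [e, jac, ih (by omega), h.EE _ _ (by omega), zero_cm, cm_zero, add_zero]

theorem TA.e2 (h : TA l E F H) (i n : ℕ) : (cm (ee E i n) (E (i + n))) = 0 := by
  cases n with
  | zero => exact cm_self _
  | succ n =>
    have e : ee E i (n + 1) = (cm (ee E i n) (E (i + n + 1))) := rfl
    rw [e, ← add_assoc]
    cases n with
    | zero => exact h.S1 i
    | succ m =>
      have e' : ee E i (m + 1) = (cm (ee E i m) (E (i + m + 1))) := rfl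
      rw [e', ← add_assoc]
      have h1 : (cm (ee E i m) (E (i + m + 1 + 1))) = 0 := h.e1 i m _ (by omega)
      have h4 : cm (cm (ee E i m) (E (i + m + 1))) (E (i + m + 1 + 1)) =
          cm (ee E i m) (cm (E (i + m + 1)) (E (i + m + 1 + 1))) := by
        rw [jac, h1, zero_cm, zero_add]
      rw [h4, jac, h1, zero_cm, zero_add, h.S1, cm_zero]

theorem TA.e3 [Algebra ℂ R] (h : TA l E F H) (i n : ℕ) : (cm (ee E i (n + 1)) (E (i + n))) = 0 := by
  have e : ee E i (n + 1) = (cm (ee E i n) (E (i + n + 1))) := rfl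
  rw [e]
  cases n with
  | zero => exact h.S2 i
  | succ m =>
    have e' : ee E i (m + 1) = (cm (ee E i m) (E (i + m + 1))) := rfl
    have h1 : (cm (ee E i m) (E (i + m + 1 + 1))) = 0 := h.e1 i m _ (by omega)
    have h2 : (cm (ee E i (m + 1)) (E (i + m + 1))) = 0 := h.e2 i (m + 1)
    have h3 := h.S2 (i + m + 1)
    rw [← add_assoc]
    set a := ee E i m
    set b := E (i + m + 1)
    set c := E (i + m + 1 + 1)
    rw [e'] at h2 ⊢
    have h4 : (cm (cm a b) c) = (cm a (cm b c)) := by
      rw [jac, h1, zero_cm, zero_add]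
    have h5 : (cm (cm (cm a b) c) b) = (cm (cm a b) (cm b c)) := by
      rw [h4, jac, h3, cm_zero, add_zero]
    have h6 : (cm (cm a b) (cm b c)) = -(cm (cm (cm a b) c) b) := by
      rw [jac', h2, zero_cm, zero_add, ← skew]
    have h7 : (2 : ℂ) • (cm (cm (cm a b) c) b) = 0 := by
      rw [two_smul]
      nth_rewrite 1 [h5]
      rw [h6, neg_add_cancel]
    exact (smul_eq_zero.1 h7).resolve_left (by norm_num)

theorem TA.e4 [Algebra ℂ R] (h : TA l E F H) (i n k : ℕ) (hk : i ≤ k) (hk' : k < i + n) :
    (cm (ee E i n) (E k)) = 0 := by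
  induction n with
  | zero => omega
  | succ n ih =>
    rcases Nat.lt_or_ge k (i + n) with h1 | h1
    · have e : ee E i (n + 1) = (cm (ee E i n) (E (i + n + 1))) := rfl
      rw [e, jac, ih h1, h.EE' (by omega), zero_cm, cm_zero, add_zero]
    · have h2 : k = i + n := by omega
      subst h2
      exact h.e3 i n

theorem TA.e5 (h : TA l E F H) (k n : ℕ) : (cm (ee E (k + 1) n) (E k)) = -ee E k (n + 1) := by
  induction n with
  | zero =>
    have e : ee E k (0 + 1) = (cm (E k) (E (k + 0 + 1))) := rfl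
    have e' : ee E (k + 1) 0 = E (k + 1) := rfl
    rw [e, e', add_zero, skew]
  | succ n ih =>
    have e : ee E (k + 1) (n + 1) = (cm (ee E (k + 1) n) (E (k + 1 + n + 1))) := rfl
    have e' : ee E k (n + 1 + 1) = (cm (ee E k (n + 1)) (E (k + (n + 1) + 1))) := rfl
    have e2 : k + 1 + n + 1 = k + (n + 1) + 1 := by omega
    rw [e, jac, ih, h.EE' (by omega), cm_zero, add_zero, e', e2, neg_cm]

theorem TA.e6 (h : TA l E F H) (i n k : ℕ) (hk : k + 1 < i) : (cm (ee E i n) (E k)) = 0 := by
  induction n with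
  | zero => exact h.EE' hk
  | succ n ih =>
    have e : ee E i (n + 1) = (cm (ee E i n) (E (i + n + 1))) := rfl
    rw [e, jac, ih, h.EE' (by omega), zero_cm, cm_zero, add_zero]

theorem TA.e_comm [Algebra ℂ R] (h : TA l E F H) (i n k : ℕ) : (cm (ee E i n) (E k)) =
    (if k = i + n + 1 then ee E i (n + 1) else 0) - (if i = k + 1 then ee E k (n + 1) else 0) := by
  rcases Nat.lt_or_ge (i + n + 1) k with h1 | h1
  · rw [h.e1 i n k h1, if_neg (by omega), if_neg (by omega), sub_zero]
  · rcases Nat.lt_or_ge k (i + n + 1) with h2 | h2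
    · rw [if_neg (by omega)]
      rcases Nat.lt_or_ge (k + 1) i with h3 | h3
      · rw [h.e6 i n k h3, if_neg (by omega), sub_zero]
      · rcases Nat.lt_or_ge k i with h4 | h4
        · have h5 : i = k + 1 := by omega
          subst h5
          rw [h.e5, if_pos rfl, zero_sub]
        · rw [if_neg (by omega), sub_zero]
          rcases Nat.lt_or_ge k (i + n) with h5 | h5
          · exact h.e4 i n k h4 h5
          · have h6 : k = i + n := by omega
            subst h6
            exact h.e2 i n
    · have h3 : k = i + n + 1 := by omega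
      subst h3
      rw [if_pos rfl, if_neg (by omega), sub_zero]
      rfl

theorem TA.ez (h : TA l E F H) (i n : ℕ) (hl : l ≤ i + n) : ee E i n = 0 := by
  cases n with
  | zero => exact h.Ez i hl
  | succ n =>
    have e : ee E i (n + 1) = (cm (ee E i n) (E (i + n + 1))) := rfl
    rw [e, h.Ez (i + n + 1) (by omega), cm_zero]

theorem TA.f1 (h : TA l E F H) (i n j : ℕ) (hj : i + n + 1 < j) : (cm (F j) (ff F i n)) = 0 := by
  induction n with
  | zero => exact h.FF i j (by omega)
  | succ n ih =>
    have e : ff F i (n + 1) = (cm (F (i + n + 1)) (ff F i n)) := rfl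
    rw [e, jac', h.FF _ _ (by omega), ih (by omega), zero_cm, cm_zero, add_zero]

theorem TA.w0 (h : TA l E F H) (i n j : ℕ) (hj : i + n + 1 < j) (hl : j < l) :
    (cm (H j) (ff F i n)) = 0 := by
  induction n with
  | zero => exact h.HF0 i j (by omega) hl
  | succ n ih =>
    have e : ff F i (n + 1) = (cm (F (i + n + 1)) (ff F i n)) := rfl
    rw [e, jac', h.HF0 _ _ (by omega) hl, ih (by omega), zero_cm, cm_zero, add_zero]

theorem TA.w1 (h : TA l E F H) (i n : ℕ) (hl : i + n + 1 < l) :
    (cm (H (i + n + 1)) (ff F i n)) = ff F i n := by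
  cases n with
  | zero => exact h.HF1 i hl
  | succ n =>
    have e : ff F i (n + 1) = (cm (F (i + n + 1)) (ff F i n)) := rfl
    rw [e, jac', h.w0 i n _ (by omega) hl, cm_zero, add_zero, ← add_assoc,
      h.HF1 (i + n + 1) (by omega)]

theorem TA.f_comm (h : TA l E F H) (i n k : ℕ) (hk : k < l) : (cm (ff F i (n + 1)) (E k)) =
    (if k = i then ff F (i + 1) n else 0) - (if k = i + n + 1 then ff F i n else 0) := by
  induction n with
  | zero =>
    have e : ff F i (0 + 1) = (cm (F (i + 1)) (F i)) := rfl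
    have e1 : ff F (i + 1) 0 = F (i + 1) := rfl
    have e2 : ff F i 0 = F i := rfl
    rw [e, jac, e1, e2, add_zero]
    rcases eq_or_ne k (i + 1) with h1 | h1
    · subst h1
      rw [h.FEd, h.FEo i (i + 1) (by omega), cm_zero, add_zero, neg_cm, h.HF1 i hk,
        if_neg (by omega), if_pos rfl, zero_sub]
    · rw [h.FEo (i + 1) k h1.symm, zero_cm, zero_add, if_neg h1, sub_zero]
      rcases eq_or_ne k i with h2 | h2
      · subst h2
        rw [h.FEd, cm_neg, skew, h.HF2 k hk, if_pos rfl]
      · rw [h.FEo i k h2.symm, cm_zero, if_neg h2]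
  | succ n ih =>
    have e : ff F i (n + 1 + 1) = (cm (F (i + (n + 1) + 1)) (ff F i (n + 1))) := rfl
    have e0 : i + (n + 1) + 1 = i + n + 1 + 1 := by omega
    have e1 : ff F (i + 1) (n + 1) = (cm (F (i + n + 1 + 1)) (ff F (i + 1) n)) := by
      have e' : i + n + 1 + 1 = i + 1 + n + 1 := by omega
      rw [e']
      rfl
    rw [e, e0, jac, ih]
    rcases eq_or_ne k (i + n + 1 + 1) with h1 | h1
    · subst h1
      have hw := h.w1 i (n + 1) hk
      rw [e0] at hw
      rw [h.FEd, if_neg (by omega), if_neg (by omega), sub_zero, cm_zero, add_zero, neg_cm,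
        hw, if_neg (by omega), if_pos rfl, zero_sub]
    · rw [h.FEo _ k h1.symm, zero_cm, zero_add, if_neg h1, sub_zero, cm_sub]
      have e2 : (cm (F (i + n + 1 + 1)) (if k = i + n + 1 then ff F i n else 0)) = 0 := by
        split_ifs
        · exact h.f1 i n _ (by omega)
        · exact cm_zero _
      rw [e2, sub_zero]
      split_ifs
      · rw [e1]
      · exact cm_zero _

/-- half of the root part of the Casimir element -/
def C0 (l : ℕ) (E F : ℕ → R) : R :=
  ∑ i ∈ Finset.range l, ∑ n ∈ Finset.range l, ff F i n * ee E i n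

theorem mul_br (a b c : R) : a * b * c - c * (a * b) = (cm a c) * b + a * (cm b c) := by
  simp only [cm]
  noncomm_ring

theorem TA.casimir [Algebra ℂ R] (h : TA l E F H) (k : ℕ) (hk : k < l) :
    C0 l E F * E k - E k * C0 l E F = -(H k * E k) := by
  obtain ⟨m, rfl⟩ : ∃ m, l = m + 1 := ⟨l - 1, by omega⟩
  have e0 : C0 (m + 1) E F * E k - E k * C0 (m + 1) E F =
      ∑ i ∈ Finset.range (m + 1), ∑ n ∈ Finset.range (m + 1),
        ((cm (ff F i n) (E k)) * ee E i n + ff F i n * (cm (ee E i n) (E k))) := by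
    unfold C0
    rw [Finset.sum_mul, Finset.mul_sum, ← Finset.sum_sub_distrib]
    refine Finset.sum_congr rfl fun i _ => ?_
    rw [Finset.sum_mul, Finset.mul_sum, ← Finset.sum_sub_distrib]
    refine Finset.sum_congr rfl fun n _ => ?_
    exact mul_br _ _ _
  have e1 : ∀ i ∈ Finset.range (m + 1), ∑ n ∈ Finset.range (m + 1),
      ((cm (ff F i n) (E k)) * ee E i n + ff F i n * (cm (ee E i n) (E k))) =
      (if i = k then -(H k * E k) else 0) +
      ((if i = k then ∑ n ∈ Finset.range m, ff F (k + 1) n * ee E k (n + 1) else 0) -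
        (if i = k + 1 then ∑ n ∈ Finset.range m, ff F (k + 1) n * ee E k (n + 1) else 0)) := by
    intro i _
    rw [Finset.sum_add_distrib, Finset.sum_range_succ', Finset.sum_range_succ _ m]
    have a1 : (cm (ff F i 0) (E k)) * ee E i 0 = if i = k then -(H k * E k) else 0 := by
      split_ifs with hik
      · subst hik
        have e : ff F i 0 = F i := rfl
        have e' : ee E i 0 = E i := rfl
        rw [e, e', h.FEd, neg_mul]
      · have e : ff F i 0 = F i := rfl
        rw [e, h.FEo i k hik, zero_mul]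
    have a2 : ff F i m * (cm (ee E i m) (E k)) = 0 := by
      rw [h.e_comm, if_neg (by omega), zero_sub, mul_neg]
      split_ifs
      · rw [h.ez k (m + 1) (by omega), mul_zero, neg_zero]
      · rw [mul_zero, neg_zero]
    have a3 : ∑ n ∈ Finset.range m, (cm (ff F i (n + 1)) (E k)) * ee E i (n + 1) =
        (if i = k then ∑ n ∈ Finset.range m, ff F (k + 1) n * ee E k (n + 1) else 0) -
        ∑ n ∈ Finset.range m, (if k = i + n + 1 then ff F i n * ee E i (n + 1) else 0) := by
      have b : (if i = k then ∑ n ∈ Finset.range m, ff F (k + 1) n * ee E k (n + 1) else 0) =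
          ∑ n ∈ Finset.range m, if k = i then ff F (i + 1) n * ee E i (n + 1) else 0 := by
        split_ifs with h1 h2 h2
        · subst h1
          rfl
        · exact absurd h1.symm h2
        · exact absurd h2.symm h1
        · rw [Finset.sum_const_zero]
      rw [b, ← Finset.sum_sub_distrib]
      refine Finset.sum_congr rfl fun n _ => ?_
      rw [h.f_comm i n k hk, sub_mul, ite_mul, ite_mul, zero_mul]
    have a4 : ∑ n ∈ Finset.range m, ff F i n * (cm (ee E i n) (E k)) =
        ∑ n ∈ Finset.range m, (if k = i + n + 1 then ff F i n * ee E i (n + 1) else 0) -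
        (if i = k + 1 then ∑ n ∈ Finset.range m, ff F (k + 1) n * ee E k (n + 1) else 0) := by
      have b : (if i = k + 1 then ∑ n ∈ Finset.range m, ff F (k + 1) n * ee E k (n + 1) else 0) =
          ∑ n ∈ Finset.range m, if i = k + 1 then ff F i n * ee E k (n + 1) else 0 := by
        split_ifs with h1
        · subst h1
          rfl
        · rw [Finset.sum_const_zero]
      rw [b, ← Finset.sum_sub_distrib]
      refine Finset.sum_congr rfl fun n _ => ?_
      rw [h.e_comm, mul_sub, mul_ite, mul_ite, mul_zero]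
    rw [a1, a2, a3, a4]
    abel
  rw [e0, Finset.sum_congr rfl e1, Finset.sum_add_distrib, Finset.sum_sub_distrib,
    Finset.sum_ite_eq' , Finset.sum_ite_eq', Finset.sum_ite_eq', if_pos (Finset.mem_range.2 hk),
    if_pos (Finset.mem_range.2 hk)]
  have e2 : (if k + 1 ∈ Finset.range (m + 1) then
      ∑ n ∈ Finset.range m, ff F (k + 1) n * ee E k (n + 1) else 0) =
      ∑ n ∈ Finset.range m, ff F (k + 1) n * ee E k (n + 1) := by
    split_ifs with h1
    · rfl
    · rw [Finset.mem_range, not_lt] at h1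
      symm
      refine Finset.sum_eq_zero fun n _ => ?_
      rw [h.ez k (n + 1) (by omega), mul_zero]
  rw [e2, sub_self, add_zero]

end

end

end WPQ.WK
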