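import Pool.Agent.WPQ.WK3
import Pool.Agent.WPQ.NT4

/-! [WPQ-WK4] The quadratic Casimir operator of type `A` (block WK, helper88). -/

namespace WPQ.WK

noncomputable section

section
variable {R : Type} [Ring R]

theorem cm_mul (D a b : R) : cm D (a * b) = cm D a * b + a * cm D b := by
  simp only [cm]
  noncomm_ring

theorem cm_cm (D a b : R) : cm D (cm a b) = cm (cm D a) b + cm a (cm D b) := by
  simp only [cm]
  noncomm_ring

variable [Algebra ℂ R] {E F : ℕ → R}

theorem smul_cm (c : ℂ) (a b : R) : cm (c • a) b = c • cm a b := by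
  simp only [cm, smul_mul_assoc, mul_smul_comm, smul_sub]

theorem cm_smul (c : ℂ) (a b : R) : cm a (c • b) = c • cm a b := by
  simp only [cm, smul_mul_assoc, mul_smul_comm, smul_sub]

theorem ee_wt (D : R) (d : ℕ → ℂ) (hE : ∀ j, cm D (E j) = d j • E j) (i n : ℕ) :
    cm D (ee E i n) = (∑ m ∈ Finset.range (n + 1), d (i + m)) • ee E i n := by
  induction n with
  | zero =>
    rw [Finset.sum_range_one, add_zero]
    exact hE i
  | succ n ih =>
    have e : ee E i (n + 1) = cm (ee E i n) (E (i + n + 1)) := rfl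
    rw [e, cm_cm, ih, hE, smul_cm, cm_smul, ← add_smul, Finset.sum_range_succ _ (n + 1), add_assoc i]

theorem ff_wt (D : R) (d : ℕ → ℂ) (hF : ∀ j, cm D (F j) = -(d j • F j)) (i n : ℕ) :
    cm D (ff F i n) = -((∑ m ∈ Finset.range (n + 1), d (i + m)) • ff F i n) := by
  induction n with
  | zero =>
    rw [Finset.sum_range_one, add_zero]
    exact hF i
  | succ n ih =>
    have e : ff F i (n + 1) = cm (F (i + n + 1)) (ff F i n) := rfl
    rw [e, cm_cm, ih, hF, neg_cm, cm_neg, smul_cm, cm_smul, Finset.sum_range_succ _ (n + 1),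
      add_assoc i]
    module

theorem C0_wt (D : R) (d : ℕ → ℂ) (hE : ∀ j, cm D (E j) = d j • E j)
    (hF : ∀ j, cm D (F j) = -(d j • F j)) (l : ℕ) : cm D (C0 l E F) = 0 := by
  have h1 : ∀ i n, cm D (ff F i n * ee E i n) = 0 := by
    intro i n
    rw [cm_mul, ee_wt D d hE, ff_wt D d hF, mul_smul_comm, neg_mul, smul_mul_assoc,
      neg_add_cancel]
  have h2 : cm D (C0 l E F) = ∑ i ∈ Finset.range l, ∑ n ∈ Finset.range l,
      cm D (ff F i n * ee E i n) := by
    unfold C0
    simp only [cm, Finset.mul_sum, Finset.sum_mul, Finset.sum_sub_distrib]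
  rw [h2]
  exact Finset.sum_eq_zero fun i _ => Finset.sum_eq_zero fun n _ => h1 i n

end

variable {l : ℕ} {V : Type} [AddCommGroup V] [Module ℂ V]

/-- extension by zero -/
def ex (X : Fin l → V →ₗ[ℂ] V) (k : ℕ) : V →ₗ[ℂ] V := if h : k < l then X ⟨k, h⟩ else 0

theorem ex_lt (X : Fin l → V →ₗ[ℂ] V) {k : ℕ} (h : k < l) : ex X k = X ⟨k, h⟩ := dif_pos h

theorem ex_ge (X : Fin l → V →ₗ[ℂ] V) {k : ℕ} (h : l ≤ k) : ex X k = 0 := dif_neg (by omega)

/-- `H_j = ∑ A_ji G_i` -/
def HG (A : Matrix (Fin l) (Fin l) ℤ) (G : Fin l → V →ₗ[ℂ] V) (j : Fin l) : V →ₗ[ℂ] V :=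
  ∑ i, (A j i : ℂ) • G i

variable {E G : Fin l → V →ₗ[ℂ] V}

theorem cA_far {i j : Fin l} (h : (i : ℕ) + 1 < j) : cartanA l i j = 0 ∧ cartanA l j i = 0 := by
  have h1 : i ≠ j := by
    rintro rfl
    omega
  have h2 : j ≠ i := h1.symm
  constructor
  · unfold cartanA
    rw [if_neg h1, if_neg (by omega)]
  · unfold cartanA
    rw [if_neg h2, if_neg (by omega)]

theorem cA_near {i j : Fin l} (h : (i : ℕ) + 1 = j) : cartanA l i j = -1 ∧ cartanA l j i = -1 := by
  have h1 : i ≠ j := by
    rintro rfl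
    omega
  have h2 : j ≠ i := h1.symm
  constructor
  · unfold cartanA
    rw [if_neg h1, if_pos (by omega)]
  · unfold cartanA
    rw [if_neg h2, if_pos (by omega)]

theorem exists_TA [FiniteDimensional ℂ V] {H : Fin l → V →ₗ[ℂ] V} (hS : Sys (cartanA l) E H) :
    ∃ F : Fin l → V →ₗ[ℂ] V, TA l (ex E) (ex F) (ex H) ∧
      ∀ i j, H i * F j = F j * H i - (cartanA l i j : ℂ) • F j := by
  obtain ⟨F, hEF, hHF⟩ := hS.exists_F (cartanA_ade l)
  have hcE : ∀ j, E j * F j = F j * E j + H j := by
    intro j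
    have := hEF j j
    rw [if_pos rfl, sub_eq_iff_eq_add] at this
    rw [this, add_comm]
  have hdiag := (cartanA_ade l).diag
  refine ⟨F, ?_, hHF⟩
  constructor
  · intro k hk
    exact ex_ge E hk
  · intro k hk
    exact ex_ge F hk
  · intro i j hij
    rcases Nat.lt_or_ge j l with hj | hj
    · have hi : i < l := by omega
      rw [ex_lt E hj, ex_lt E hi]
      have h0 := (cA_far (i := (⟨i, hi⟩ : Fin l)) (j := ⟨j, hj⟩) hij).1
      unfold cm
      rw [sub_eq_zero]
      ext v
      exact (hS.serre0 ⟨i, hi⟩ ⟨j, hj⟩ (by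
        intro h
        rw [Fin.mk.injEq] at h
        omega) h0 v).symm
    · rw [ex_ge E hj, cm_zero]
  · intro i
    rcases Nat.lt_or_ge (i + 1) l with hj | hj
    · have hi : i < l := by omega
      rw [ex_lt E hj, ex_lt E hi]
      have h0 := (cA_near (i := (⟨i, hi⟩ : Fin l)) (j := ⟨i + 1, hj⟩) rfl).1
      ext v
      have h1 := hS.serre1 ⟨i, hi⟩ ⟨i + 1, hj⟩ (by
        intro h
        rw [Fin.mk.injEq] at h
        omega) h0 v
      simp only [cm, LinearMap.sub_apply, Module.End.mul_apply, map_sub, LinearMap.zero_apply]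
      rw [← h1]
      module
    · rw [ex_ge E hj, cm_zero]
  · intro i
    rcases Nat.lt_or_ge (i + 1) l with hj | hj
    · have hi : i < l := by omega
      rw [ex_lt E hj, ex_lt E hi]
      have h0 := (cA_near (i := (⟨i, hi⟩ : Fin l)) (j := ⟨i + 1, hj⟩) rfl).2
      ext v
      have h1 := hS.serre1 ⟨i + 1, hj⟩ ⟨i, hi⟩ (by
        intro h
        rw [Fin.mk.injEq] at h
        omega) h0 v
      simp only [cm, LinearMap.sub_apply, Module.End.mul_apply, map_sub, LinearMap.zero_apply]
      have h2 : ∀ a b c d : V, a - (2 : ℂ) • b + c = 0 → b - c - (a - b) = 0 := by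
        intro a b c d h
        have e : b - c - (a - b) = -(a - (2 : ℂ) • b + c) := by module
        rw [e, h, neg_zero]
      exact h2 _ _ _ 0 h1
    · rw [ex_ge E hj, cm_zero, zero_cm]
  · intro i j hij
    rcases Nat.lt_or_ge i l with hi | hi
    · rcases Nat.lt_or_ge j l with hj | hj
      · rw [ex_lt E hj, ex_lt F hi]
        have h := hEF ⟨j, hj⟩ ⟨i, hi⟩
        rw [if_neg (by
          intro h
          rw [Fin.mk.injEq] at h
          omega)] at h
        rw [← skew, cm, h, neg_zero]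
      · rw [ex_ge E hj, cm_zero]
    · rw [ex_ge F hi, zero_cm]
  · intro i
    rcases Nat.lt_or_ge i l with hi | hi
    · rw [ex_lt E hi, ex_lt F hi, ex_lt H hi, ← skew, cm, hEF, if_pos rfl]
    · rw [ex_ge E hi, ex_ge H hi, cm_zero, neg_zero]
  · intro i j hij
    rcases Nat.lt_or_ge j l with hj | hj
    · have hi : i < l := by omega
      rw [ex_lt F hj, ex_lt F hi]
      have h0 := (cA_far (i := (⟨i, hi⟩ : Fin l)) (j := ⟨j, hj⟩) hij)
      have hne : (⟨i, hi⟩ : Fin l) ≠ ⟨j, hj⟩ := by
        intro h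
        rw [Fin.mk.injEq] at h
        omega
      set a : Fin l := ⟨i, hi⟩
      set b : Fin l := ⟨j, hj⟩
      have c1 : E b * F a = F a * E b := by
        have h := hEF b a
        rw [if_neg hne.symm, sub_eq_zero] at h
        exact h
      have c2 : H b * F a = F a * H b := by
        rw [hHF, h0.2]
        simp
      have c3 : H b * F b = F b * H b - (2 : ℂ) • F b := by
        rw [hHF, hdiag]
        push_cast
        rfl
      refine (hS.lef (cartanA_ade l) b).zero_of_comm (m := 2) (by norm_num) (fun v => ?_)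
        (fun v => ?_)
      · have h : cm (F b) (F a) * E b = E b * cm (F b) (F a) := by
          have e1 : E b * (F b * F a) = F b * F a * E b + F a * H b := by
            rw [← mul_assoc, hcE, add_mul, mul_assoc, c1, c2, mul_assoc]
          have e2 : E b * (F a * F b) = F a * F b * E b + F a * H b := by
            rw [← mul_assoc, c1, mul_assoc, hcE, mul_add, mul_assoc]
          rw [cm, mul_sub, e1, e2, sub_mul]
          abel
        exact congrArg (fun f : V →ₗ[ℂ] V => f v) h
      · have h : H b * cm (F b) (F a) = cm (F b) (F a) * H b - ((2 : ℕ) : ℂ) • cm (F b) (F a) := by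
          have e1 : H b * (F b * F a) = F b * F a * H b - (2 : ℂ) • (F b * F a) := by
            rw [← mul_assoc, c3, sub_mul, mul_assoc, c2, smul_mul_assoc, mul_assoc]
          have e2 : H b * (F a * F b) = F a * F b * H b - (2 : ℂ) • (F a * F b) := by
            rw [← mul_assoc, c2, mul_assoc, c3, mul_sub, mul_smul_comm, mul_assoc]
          rw [cm, mul_sub, e1, e2, sub_mul]
          push_cast
          module
        exact congrArg (fun f : V →ₗ[ℂ] V => f v) h
    · rw [ex_ge F hj, zero_cm]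
  · intro i j hij hj
    have hi : i < l := by omega
    rw [ex_lt H hj, ex_lt F hi, cm, hHF, (cA_far (i := (⟨i, hi⟩ : Fin l)) (j := ⟨j, hj⟩) hij).2]
    simp
  · intro i hj
    have hi : i < l := by omega
    rw [ex_lt H hj, ex_lt F hi, cm, hHF,
      (cA_near (i := (⟨i, hi⟩ : Fin l)) (j := ⟨i + 1, hj⟩) rfl).2]
    simp
  · intro i hi
    rcases Nat.lt_or_ge (i + 1) l with hj | hj
    · rw [ex_lt H hi, ex_lt F hj, cm, hHF,
        (cA_near (i := (⟨i, hi⟩ : Fin l)) (j := ⟨i + 1, hj⟩) rfl).1]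
      simp
    · rw [ex_ge F hj, cm_zero]

end

end WPQ.WK
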