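import Pool.Agent.WPQ.WK4

/-! [WPQ-WK5] The quadratic Casimir operator of type `A` and the abstract statement
(block WK, helper88). -/

namespace WPQ.WK

noncomputable section

variable {l : ℕ} {V : Type} [AddCommGroup V] [Module ℂ V]
variable {E G : Fin l → V →ₗ[ℂ] V}

/-- `q(g) = (g,g) + 2 ht g` -/
def qq (l : ℕ) (g : Fin l → ℤ) : ℤ := ∑ i, g i * pr (cartanA l) i g + 2 * ∑ i, g i

theorem qq_pos (g : Fin l → ℤ) (hg : g ≠ 0) (hd : Dom (cartanA l) g) : 0 < qq l g := by
  have h1 := (cartanA_ade l).pos g hg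
  rw [vp2_q_eq] at h1
  have h2 : 0 ≤ ∑ i, g i := Finset.sum_nonneg fun i _ => vp2_dom_nonneg (cartanA_ade l) g hd i
  unfold qq
  linarith

theorem solve (D : Fin l → V →ₗ[ℂ] V) (h : ∀ k, ∑ i, (cartanA l k i : ℂ) • D i = 0) (i : Fin l) :
    D i = 0 := by
  have h1 : ((cartanA l).det : ℂ) • D i =
      ∑ k, ((cartanA l).adjugate i k : ℂ) • ∑ m, (cartanA l k m : ℂ) • D m := by
    simp only [Finset.smul_sum, smul_smul]
    rw [Finset.sum_comm]
    simp only [← Finset.sum_smul]
    have h2 : ∀ m, ∑ k, ((cartanA l).adjugate i k : ℂ) * (cartanA l k m : ℂ) =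
        if i = m then ((cartanA l).det : ℂ) else 0 := by
      intro m
      have h3 := congrFun (congrFun (Matrix.adjugate_mul (cartanA l)) i) m
      rw [Matrix.mul_apply, Matrix.smul_apply, Matrix.one_apply] at h3
      have h4 := congrArg (fun z : ℤ => (z : ℂ)) h3
      simp only [Int.cast_sum, Int.cast_mul] at h4
      rw [h4]
      split_ifs <;> simp
    simp only [h2, ite_smul, zero_smul]
    rw [Finset.sum_ite_eq, if_pos (Finset.mem_univ i)]
  simp only [h, smul_zero, Finset.sum_const_zero] at h1
  exact (smul_eq_zero.1 h1).resolve_left (Int.cast_ne_zero.2 (vp2_det (cartanA_ade l)))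

section
variable {R : Type} [Ring R]

theorem mul_cm (a b c : R) : cm (a * b) c = a * cm b c + cm a c * b := by
  simp only [cm]
  noncomm_ring

theorem add_cm (a b c : R) : cm (a + b) c = cm a c + cm b c := by
  simp only [cm]
  noncomm_ring

theorem cm_add (a b c : R) : cm a (b + c) = cm a b + cm a c := by
  simp only [cm]
  noncomm_ring

theorem sum_cm {κ : Type} (s : Finset κ) (f : κ → R) (c : R) :
    cm (∑ i ∈ s, f i) c = ∑ i ∈ s, cm (f i) c := by
  simp only [cm, Finset.mul_sum, Finset.sum_mul, Finset.sum_sub_distrib]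

theorem cm_sum {κ : Type} (s : Finset κ) (f : κ → R) (c : R) :
    cm c (∑ i ∈ s, f i) = ∑ i ∈ s, cm c (f i) := by
  simp only [cm, Finset.mul_sum, Finset.sum_mul, Finset.sum_sub_distrib]

end

theorem ee_zero (E : ℕ → V →ₗ[ℂ] V) (v : V) (h : ∀ j, E j v = 0) (i n : ℕ) : ee E i n v = 0 := by
  induction n with
  | zero => exact h i
  | succ n ih =>
    have e : ee E i (n + 1) = cm (ee E i n) (E (i + n + 1)) := rfl
    rw [e, cm, LinearMap.sub_apply, Module.End.mul_apply, Module.End.mul_apply, h, ih, map_zero,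
      map_zero, sub_zero]

theorem exists_casimir [FiniteDimensional ℂ V] (hS : Sys (cartanA l) E (HG (cartanA l) G))
    (hspan : Submodule.span ℂ {v : V | ∀ i, ∃ k : ℤ, G i v = (k : ℂ) • v} = ⊤)
    (hGE : ∀ i j v, G i (E j v) = E j (G i v) + if i = j then E j v else 0) :
    ∃ C : V →ₗ[ℂ] V, (∀ j, C * E j = E j * C) ∧ (∀ i, C * G i = G i * C) ∧
      ∀ (v : V) (g : Fin l → ℤ), (∀ i, G i v = (g i : ℂ) • v) → (∀ j, E j v = 0) →
        C v = (qq l g : ℂ) • v := by
  obtain ⟨F, hTA, hHF⟩ := exists_TA hS
  set H := HG (cartanA l) G with hH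
  have hGG := HH hspan
  have cGG : ∀ i j, cm (G i) (G j) = 0 := fun i j => by rw [cm, hGG i j, sub_self]
  have cGE : ∀ i j, cm (G i) (E j) = if i = j then E j else 0 := by
    intro i j
    ext v
    have := hGE i j v
    rw [cm, LinearMap.sub_apply, Module.End.mul_apply, Module.End.mul_apply, this]
    split_ifs <;> simp
  have cGF : ∀ i j, cm (G i) (F j) = if i = j then -F j else 0 := by
    intro i j
    have h1 : ∀ i, cm (G i) (F j) + (if i = j then F j else 0) = 0 := by
      refine solve (fun i => cm (G i) (F j) + if i = j then F j else 0) fun k => ?_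
      have h2 : ∑ i, (cartanA l k i : ℂ) • cm (G i) (F j) = cm (H k) (F j) := by
        rw [hH, HG, sum_cm]
        exact Finset.sum_congr rfl fun i _ => (smul_cm _ _ _).symm
      have h3 : ∑ i, (cartanA l k i : ℂ) • (if i = j then F j else 0) =
          (cartanA l k j : ℂ) • F j := by
        simp only [smul_ite, smul_zero]
        rw [Finset.sum_ite_eq', if_pos (Finset.mem_univ j)]
      simp only [smul_add]
      rw [Finset.sum_add_distrib, h2, h3, cm, hHF]
      abel
    have h2 := h1 i
    split_ifs at h2 ⊢ with hij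
    · exact eq_neg_of_add_eq_zero_left h2
    · rwa [add_zero] at h2
  have cHE : ∀ i k, cm (H i) (E k) = (cartanA l i k : ℂ) • E k := by
    intro i k
    ext v
    have := hS.comm i k v
    rw [cm, LinearMap.sub_apply, Module.End.mul_apply, Module.End.mul_apply, this]
    simp
  have cGH : ∀ i j, cm (G i) (H j) = 0 := by
    intro i j
    rw [hH, HG, cm_sum]
    refine Finset.sum_eq_zero fun k _ => ?_
    rw [cm_smul, cGG, smul_zero]
  set K := C0 l (ex E) (ex F) with hK
  have cKE : ∀ k, cm K (E k) = -(H k * E k) := by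
    intro k
    have h := hTA.casimir k k.2
    rw [ex_lt E k.2, ex_lt H k.2] at h
    exact h
  have cGK : ∀ i, cm (G i) K = 0 := by
    intro m
    refine C0_wt (G m) (fun j => if (m : ℕ) = j then 1 else 0) (fun j => ?_) (fun j => ?_) l
    · rcases Nat.lt_or_ge j l with hj | hj
      · rw [ex_lt E hj, cGE]
        by_cases h : (m : ℕ) = j
        · subst h
          rw [if_pos rfl, if_pos rfl, one_smul]
        · rw [if_neg h, zero_smul, if_neg]
          rintro rfl
          exact h rfl
      · rw [ex_ge E hj, cm_zero, smul_zero]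
    · rcases Nat.lt_or_ge j l with hj | hj
      · rw [ex_lt F hj, cGF]
        by_cases h : (m : ℕ) = j
        · subst h
          rw [if_pos rfl, if_pos rfl, one_smul]
        · rw [if_neg h, zero_smul, neg_zero, if_neg]
          rintro rfl
          exact h rfl
      · rw [ex_ge F hj, cm_zero, smul_zero, neg_zero]
  refine ⟨(2 : ℂ) • K + ∑ i, G i * H i + (2 : ℂ) • ∑ i, G i, ?_, ?_, ?_⟩
  · intro k
    have h1 : cm ((2 : ℂ) • K + ∑ i, G i * H i + (2 : ℂ) • ∑ i, G i) (E k) = 0 := by
      rw [add_cm, add_cm, smul_cm, smul_cm, sum_cm, sum_cm, cKE]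
      have h2 : ∑ i, cm (G i) (E k) = E k := by
        simp only [cGE]
        rw [Finset.sum_ite_eq', if_pos (Finset.mem_univ k)]
      have h3 : ∑ i, cm (G i * H i) (E k) = H k * E k + E k * H k := by
        simp only [mul_cm, cHE, cGE]
        rw [Finset.sum_add_distrib]
        have h4 : ∑ i, (if i = k then E k else 0) * H i = E k * H k := by
          simp only [ite_mul, zero_mul]
          rw [Finset.sum_ite_eq', if_pos (Finset.mem_univ k)]
        have h5 : ∑ i, G i * (cartanA l i k : ℂ) • E k = H k * E k := by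
          rw [hH, HG, Finset.sum_mul]
          refine Finset.sum_congr rfl fun i _ => ?_
          rw [mul_smul_comm, smul_mul_assoc, (cartanA_ade l).symm i k]
        rw [h4, h5]
      have h6 : E k * H k = H k * E k - (2 : ℂ) • E k := by
        have := cHE k k
        rw [(cartanA_ade l).diag k, cm, sub_eq_iff_eq_add] at this
        rw [this]
        push_cast
        abel
      rw [h2, h3, h6]
      module
    rw [cm, sub_eq_zero] at h1
    exact h1
  · intro k
    have h1 : cm (G k) ((2 : ℂ) • K + ∑ i, G i * H i + (2 : ℂ) • ∑ i, G i) = 0 := by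
      rw [cm_add, cm_add, cm_smul, cm_smul, cm_sum, cm_sum, cGK]
      have h2 : ∑ i, cm (G k) (G i) = 0 := Finset.sum_eq_zero fun i _ => cGG k i
      have h3 : ∑ i, cm (G k) (G i * H i) = 0 := Finset.sum_eq_zero fun i _ => by
        rw [cm_mul, cGG, cGH, zero_mul, mul_zero, add_zero]
      rw [h2, h3, smul_zero, add_zero, add_zero]
    rw [cm, sub_eq_zero] at h1
    exact h1.symm
  · intro v g hg hv
    have hHv : ∀ i, H i v = (pr (cartanA l) i g : ℂ) • v := by
      intro i
      rw [hH, HG, LinearMap.sum_apply]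
      simp only [LinearMap.smul_apply, hg, smul_smul]
      rw [← Finset.sum_smul]
      congr 1
      unfold pr
      push_cast
      rfl
    have hKv : K v = 0 := by
      rw [hK, C0, LinearMap.sum_apply]
      refine Finset.sum_eq_zero fun i _ => ?_
      rw [LinearMap.sum_apply]
      refine Finset.sum_eq_zero fun n _ => ?_
      rw [Module.End.mul_apply, ee_zero (ex E) v (fun j => ?_), map_zero]
      rcases Nat.lt_or_ge j l with hj | hj
      · rw [ex_lt E hj]
        exact hv _
      · rw [ex_ge E hj]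
        rfl
    rw [LinearMap.add_apply, LinearMap.add_apply, LinearMap.smul_apply, LinearMap.smul_apply, hKv,
      smul_zero, zero_add, LinearMap.sum_apply, LinearMap.sum_apply]
    simp only [Module.End.mul_apply, hHv, hg, map_smul, smul_smul]
    rw [← Finset.sum_smul, ← Finset.sum_smul, smul_smul, ← add_smul]
    congr 1
    unfold qq
    push_cast
    congr 1
    exact Finset.sum_congr rfl fun i _ => mul_comm _ _

/-- The abstract statement. -/
theorem abs_zero [FiniteDimensional ℂ V] (hS : Sys (cartanA l) E (HG (cartanA l) G))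
    (hspan : Submodule.span ℂ {v : V | ∀ i, ∃ k : ℤ, G i v = (k : ℂ) • v} = ⊤)
    (hGE : ∀ i j v, G i (E j v) = E j (G i v) + if i = j then E j v else 0)
    (P : (Fin l → ℤ) → V →ₗ[ℂ] V)
    (P1 : ∀ g i v, G i (P g v) = (g i : ℂ) • P g v)
    (P2 : ∀ g i v, P g (G i v) = (g i : ℂ) • P g v)
    (P3 : ∀ (g : Fin l → ℤ) v, (∀ i, G i v = (g i : ℂ) • v) → P g v = v)
    (P4 : ∀ v, (∀ g, P g v = 0) → v = 0)
    (y : V) (hE : ∀ j, E j y = 0) (hG : ∀ j, G j y = 0)
    (hy : y ∈ ⨆ j, (LinearMap.range (E j) ⊔ LinearMap.range (G j))) : y = 0 := by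
  obtain ⟨C, hCE, hCG, hCv⟩ := exists_casimir hS hspan hGE
  have hCy : C y = 0 := by
    rw [hCv y 0 (fun i => by rw [hG]; simp) hE]
    simp [qq]
  obtain ⟨n, hn1, hn⟩ := ((Filter.eventually_ge_atTop 1).and
    (LinearMap.eventually_isCompl_ker_pow_range_pow C)).exists
  have cCE : ∀ j, Commute (C ^ n) (E j) := fun j => (show Commute C (E j) from hCE j).pow_left n
  have cCG : ∀ j, Commute (C ^ n) (G j) := fun j => (show Commute C (G j) from hCG j).pow_left n
  have cCEv : ∀ j v, (C ^ n) (E j v) = E j ((C ^ n) v) := fun j v =>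
    congrArg (fun f : V →ₗ[ℂ] V => f v) (cCE j).eq
  have cCGv : ∀ j v, (C ^ n) (G j v) = G j ((C ^ n) v) := fun j v =>
    congrArg (fun f : V →ₗ[ℂ] V => f v) (cCG j).eq
  -- heights
  obtain ⟨K, hK⟩ := bdd_U (-∑ i, G i)
  have hK' : ∀ (v : V) (g : Fin l → ℤ), (∀ i, G i v = (g i : ℂ) • v) → (K : ℤ) < ∑ i, g i →
      v = 0 := by
    intro v g hg hlt
    refine hK (∑ i, g i).toNat (by omega) v ?_
    rw [mem_U, LinearMap.neg_apply, LinearMap.sum_apply]
    simp only [hg]
    rw [← Finset.sum_smul]
    have e : ((∑ i, g i).toNat : ℤ) = ∑ i, g i := Int.toNat_of_nonneg (by omega)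
    rw [e]
    push_cast
    rw [neg_smul]
  have hEpow : ∀ (j : Fin l) (b : ℕ) (v : V) (g : Fin l → ℤ), (∀ i, G i v = (g i : ℂ) • v) →
      ∀ i, G i ((E j ^ b) v) = (((g + b • rt j) i : ℤ) : ℂ) • (E j ^ b) v := by
    intro j b v g hg
    induction b with
    | zero =>
      intro i
      rw [zero_smul, add_zero]
      exact hg i
    | succ b ih =>
      intro i
      rw [pow_succ_apply', hGE, ih, map_smul]
      simp only [Pi.add_apply, Pi.smul_apply, rt, Pi.single_apply]
      split_ifs with h <;> simp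
      module
  have hEker : ∀ (j : Fin l) (b : ℕ) (v : V), (C ^ n) v = 0 → (C ^ n) ((E j ^ b) v) = 0 := by
    intro j b v hv
    induction b with
    | zero => exact hv
    | succ b ih => rw [pow_succ_apply', cCEv, ih, map_zero]
  have hH : ∀ (v : V) (g : Fin l → ℤ), (∀ i, G i v = (g i : ℂ) • v) → ∀ j,
      HG (cartanA l) G j v = (pr (cartanA l) j g : ℂ) • v := by
    intro v g hg i
    rw [HG, LinearMap.sum_apply]
    simp only [LinearMap.smul_apply, hg, smul_smul]
    rw [← Finset.sum_smul]
    congr 1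
    unfold pr
    push_cast
    rfl
  have hprt : ∀ (j : Fin l) (g : Fin l → ℤ) (b : ℕ), g + b • rt j = 0 →
      pr (cartanA l) j g = -(2 * (b : ℤ)) := by
    intro j g b h
    have h1 : g = -(b • rt j) := eq_neg_of_add_eq_zero_left h
    unfold pr
    rw [h1]
    have e : ∀ i, cartanA l j i * (-(b • rt j)) i = if i = j then -(2 * (b : ℤ)) else 0 := by
      intro i
      rw [Pi.neg_apply, Pi.smul_apply, rt, Pi.single_apply]
      split_ifs with hij
      · subst hij
        rw [(cartanA_ade l).diag]
        simp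
      · simp
    rw [Finset.sum_congr rfl fun i _ => e i]
    simp
  have key : ∀ m : ℕ, ∀ g : Fin l → ℤ, g ≠ 0 → (K : ℤ) < m + ∑ i, g i → ∀ v : V,
      (C ^ n) v = 0 → (∀ i, G i v = (g i : ℂ) • v) → v = 0 := by
    intro m
    induction m with
    | zero =>
      intro g _ hlt v _ hg
      exact hK' v g hg (by simpa using hlt)
    | succ m ih =>
      intro g hg0 hlt v hv hg
      have hsum : ∀ (j : Fin l) (b : ℕ), ∑ i, (g + b • rt j) i = ∑ i, g i + b := by
        intro j b
        simp only [Pi.add_apply, Pi.smul_apply, rt, Pi.single_apply, Finset.sum_add_distrib]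
        congr 1
        simp
      by_cases hd : Dom (cartanA l) g
      · have hEv : ∀ j, E j v = 0 := by
          intro j
          have h1 := hEpow j 1 v g hg
          have h2 := hEker j 1 v hv
          have h3 := ih (g + 1 • rt j) (fun h0 => by
            have := hprt j g 1 h0
            have := hd j
            omega) (by
            rw [hsum j 1]
            push_cast at hlt ⊢
            omega) _ h2 h1
          rwa [pow_one] at h3
        have h1 := hCv v g hg hEv
        have h2 : ∀ k : ℕ, (C ^ k) v = ((qq l g : ℂ)) ^ k • v := by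
          intro k
          induction k with
          | zero => simp
          | succ k ihk => rw [pow_succ_apply', ihk, map_smul, h1, smul_smul, pow_succ]
        rw [h2 n] at hv
        refine (smul_eq_zero.1 hv).resolve_left (pow_ne_zero _ ?_)
        have := qq_pos g hg0 hd
        rw [Int.cast_ne_zero]
        omega
      · unfold Dom at hd
        push Not at hd
        obtain ⟨j, hj⟩ := hd
        obtain ⟨b, hb⟩ : ∃ b : ℕ, pr (cartanA l) j g = -(b : ℤ) :=
          ⟨(-pr (cartanA l) j g).toNat, by omega⟩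
        have h3 := ih (g + b • rt j) (fun h0 => by
          have := hprt j g b h0
          omega) (by
          rw [hsum j b]
          push_cast at hlt ⊢
          omega) _ (hEker j b v hv) (hEpow j b v g hg)
        refine hS.inj j b v ?_ h3
        rw [hH v g hg j, hb]
        push_cast
        rfl
  have hCP : ∀ g v, C (P g v) = P g (C v) := by
    intro g
    have h : C * P g = P g * C := by
      refine ext_span hspan fun v hv => ?_
      choose k hk using hv
      have h1 : ∀ i, G i (C v) = (k i : ℂ) • C v := by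
        intro i
        have h := congrArg (fun f : V →ₗ[ℂ] V => f v) (hCG i)
        simp only [Module.End.mul_apply] at h
        rw [← h, hk, map_smul]
      rw [Module.End.mul_apply, Module.End.mul_apply]
      by_cases hgk : g = k
      · subst hgk
        rw [P3 g v hk, P3 g (C v) h1]
      · have hz : ∀ w, (∀ i, G i w = (k i : ℂ) • w) → P g w = 0 := by
          intro w hw
          obtain ⟨i, hi⟩ := Function.ne_iff.1 hgk
          have h2 := P2 g i w
          rw [hw, map_smul] at h2
          have h3 : ((k i : ℂ) - (g i : ℂ)) • P g w = 0 := by rw [sub_smul, h2, sub_self]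
          refine (smul_eq_zero.1 h3).resolve_left (sub_ne_zero.2 fun h => ?_)
          exact hi (Int.cast_injective h).symm
        rw [hz v hk, hz _ h1, map_zero]
    intro v
    exact congrArg (fun f : V →ₗ[ℂ] V => f v) h
  have hCPn : ∀ g v (k : ℕ), (C ^ k) (P g v) = P g ((C ^ k) v) := by
    intro g v k
    induction k with
    | zero => rfl
    | succ k ih => rw [pow_succ_apply', pow_succ_apply', ih, hCP]
  have hP0 : ∀ v, (C ^ n) v = 0 → ∀ g, g ≠ 0 → P g v = 0 := by
    intro v hv g hg
    refine key ((K : ℤ) + 1 - ∑ i, g i).toNat g hg (by omega) (P g v) ?_ (fun i => P1 g i v)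
    rw [hCPn, hv, map_zero]
  have hG0 : ∀ v, (C ^ n) v = 0 → ∀ i, G i v = 0 := by
    intro v hv i
    refine P4 _ fun g => ?_
    rw [P2]
    by_cases hg : g = 0
    · subst hg
      simp
    · rw [hP0 v hv g hg, smul_zero]
  have hE0 : ∀ v, (C ^ n) v = 0 → ∀ j, E j v = 0 := by
    intro v hv j
    have h1 := hG0 (E j v) (by rw [cCEv, hv, map_zero]) j
    rw [hGE, hG0 v hv, map_zero, zero_add, if_pos rfl] at h1
    exact h1
  have hsup : (⨆ j, (LinearMap.range (E j) ⊔ LinearMap.range (G j))) ≤ LinearMap.range (C ^ n) := by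
    refine iSup_le fun j => sup_le ?_ ?_
    · rintro _ ⟨a, rfl⟩
      have ha : a ∈ LinearMap.ker (C ^ n) ⊔ LinearMap.range (C ^ n) := by
        rw [hn.sup_eq_top]
        exact Submodule.mem_top
      obtain ⟨a', ha', _, ⟨a'', rfl⟩, rfl⟩ := Submodule.mem_sup.1 ha
      rw [LinearMap.mem_ker] at ha'
      rw [map_add, hE0 a' ha', zero_add, ← cCEv]
      exact ⟨_, rfl⟩
    · rintro _ ⟨a, rfl⟩
      have ha : a ∈ LinearMap.ker (C ^ n) ⊔ LinearMap.range (C ^ n) := by
        rw [hn.sup_eq_top]
        exact Submodule.mem_top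
      obtain ⟨a', ha', _, ⟨a'', rfl⟩, rfl⟩ := Submodule.mem_sup.1 ha
      rw [LinearMap.mem_ker] at ha'
      rw [map_add, hG0 a' ha', zero_add, ← cCGv]
      exact ⟨_, rfl⟩
  have hyk : y ∈ LinearMap.ker (C ^ n) := by
    obtain ⟨m, rfl⟩ : ∃ m, n = m + 1 := ⟨n - 1, by omega⟩
    rw [LinearMap.mem_ker, pow_succ_apply, hCy, map_zero]
  exact Submodule.disjoint_def.1 hn.disjoint y hyk (hsup hy)

end

end WPQ.WK
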